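import Pool.Agent.Work.MP_440970_an.Bdx.B01
import Pool.Agent.Work.MP_440970_an.FX.D1.U0

/-!
# parts of the squares
-/

set_option autoImplicit false
set_option maxRecDepth 1000000

namespace Pool.Agent.Work.MP_440970_an.FX.D1

noncomputable def gp0_0_186 : PL :=
  (PL.C (nat_lit 0x43294eef) (nat_lit 0x4ca0cb6efa260) (nat_lit 0x0)
  (PL.C (nat_lit 0x43bd5059) (nat_lit 0x4ca0ca37f8515) (nat_lit 0x0)
  (PL.C (nat_lit 0x4489544e) (nat_lit 0x2fb900801399d) (nat_lit 0x0)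
  (PL.C (nat_lit 0x46dff76a) (nat_lit 0x0) (nat_lit 0x27e1dda8005b8)
  (PL.C (nat_lit 0x474b5bab) (nat_lit 0x376baf3614e9c) (nat_lit 0x0)
  (PL.C (nat_lit 0x47e878bd) (nat_lit 0x0) (nat_lit 0xcc228bdca3f5)
  (PL.C (nat_lit 0x48fc3255) (nat_lit 0x44770ff4641da) (nat_lit 0x0)
  (PL.C (nat_lit 0x499d0943) (nat_lit 0x0) (nat_lit 0x40daa1d111548)
  (PL.C (nat_lit 0x4d1acfa6) (nat_lit 0x0) (nat_lit 0x203665d6c1395)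
  (PL.C (nat_lit 0x4dc4baaa) (nat_lit 0x15cde95e7ab927) (nat_lit 0x0)
  (PL.C (nat_lit 0x4f8f7523) (nat_lit 0xe0ae9f7607876) (nat_lit 0x0)
  (PL.C (nat_lit 0x503ec985) (nat_lit 0x0) (nat_lit 0x6ca652d6dbbc3)
  (PL.C (nat_lit 0x5a5cd09a) (nat_lit 0x3efc7aa140b9b) (nat_lit 0x0)
  (PL.C (nat_lit 0x5b23f316) (nat_lit 0x0) (nat_lit 0x3c50b4e498686) PL.Z))))))))))))))

noncomputable def gp0_0_185 : PL :=
  (PL.C (nat_lit 0x30d8a023) (nat_lit 0x8368139ce3efd) (nat_lit 0x0)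
  (PL.C (nat_lit 0x30e04c1a) (nat_lit 0xc8e023ceb9189) (nat_lit 0x0)
  (PL.C (nat_lit 0x31135b82) (nat_lit 0x0) (nat_lit 0xb88b93a02400)
  (PL.C (nat_lit 0x32f0728d) (nat_lit 0x0) (nat_lit 0x365ec9e50b3fb)
  (PL.C (nat_lit 0x34ad6167) (nat_lit 0x0) (nat_lit 0x365ec9549150f)
  (PL.C (nat_lit 0x3612efc1) (nat_lit 0x32ccf5792d709) (nat_lit 0x0)
  (PL.C (nat_lit 0x375b3a3f) (nat_lit 0x245504714487d) (nat_lit 0x0)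
  (PL.C (nat_lit 0x37eb4003) (nat_lit 0x0) (nat_lit 0x2794f71b9c48d)
  (PL.C (nat_lit 0x381e1df2) (nat_lit 0x1be6781e28573) (nat_lit 0x0)
  (PL.C (nat_lit 0x3899c8fe) (nat_lit 0x0) (nat_lit 0x8b078624c3b25)
  (PL.C (nat_lit 0x39168492) (nat_lit 0x1be677b95230b) (nat_lit 0x0)
  (PL.C (nat_lit 0x393ebdfd) (nat_lit 0x0) (nat_lit 0x2ea542f913b03)
  (PL.C (nat_lit 0x3a7b1c72) (nat_lit 0x0) (nat_lit 0xb24f5fc7a0189)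
  (PL.C (nat_lit 0x3c2efd97) (nat_lit 0x0) (nat_lit 0xcc2283437340)
  (PL.C (nat_lit 0x3c57ea29) (nat_lit 0x7f3ece367217c) (nat_lit 0x0)
  (PL.C (nat_lit 0x3c79ead6) (nat_lit 0x0) (nat_lit 0x8ad3df254c68c)
  (PL.C (nat_lit 0x3cb39e71) (nat_lit 0x376bae5698df8) (nat_lit 0x0)
  (PL.C (nat_lit 0x3e46e2cb) (nat_lit 0x0) (nat_lit 0x310fc9732ba01)
  (PL.C (nat_lit 0x3e66fd3b) (nat_lit 0x0) (nat_lit 0x6d5642b309cf9)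
  (PL.C (nat_lit 0x3ed0209d) (nat_lit 0x0) (nat_lit 0x935b321c27fdf) gp0_0_186))))))))))))))))))))

noncomputable def gp0_0_184 : PL :=
  (PL.C (nat_lit 0x29849732) (nat_lit 0x16aae82842ad5) (nat_lit 0x0)
  (PL.C (nat_lit 0x29897709) (nat_lit 0x1f5ed4ef27ae9) (nat_lit 0x0)
  (PL.C (nat_lit 0x29b48426) (nat_lit 0x2f024f59499ded) (nat_lit 0x0)
  (PL.C (nat_lit 0x29e015be) (nat_lit 0x312783b6be17ba) (nat_lit 0x0)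
  (PL.C (nat_lit 0x2a116f55) (nat_lit 0x0) (nat_lit 0x935b2ff7d72ff)
  (PL.C (nat_lit 0x2a6e2443) (nat_lit 0x0) (nat_lit 0x310fc98aa60ab)
  (PL.C (nat_lit 0x2a902256) (nat_lit 0xe874333be476) (nat_lit 0x0)
  (PL.C (nat_lit 0x2aedee7a) (nat_lit 0x135ef4dad4145) (nat_lit 0x0)
  (PL.C (nat_lit 0x2b088b63) (nat_lit 0x0) (nat_lit 0x1160b67230cab)
  (PL.C (nat_lit 0x2c03e782) (nat_lit 0x135ef5525f0ce) (nat_lit 0x0)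
  (PL.C (nat_lit 0x2c357d32) (nat_lit 0x18a24d00877c56) (nat_lit 0x0)
  (PL.C (nat_lit 0x2c64e6ee) (nat_lit 0xe8743428abf6) (nat_lit 0x0)
  (PL.C (nat_lit 0x2d87b92b) (nat_lit 0x1f5ed4f89cbee) (nat_lit 0x0)
  (PL.C (nat_lit 0x2da59885) (nat_lit 0x0) (nat_lit 0x2794f5ce60198)
  (PL.C (nat_lit 0x2dec0f3d) (nat_lit 0x0) (nat_lit 0x38f577d2f27b9)
  (PL.C (nat_lit 0x2f344d4f) (nat_lit 0x32ccf60c6989c) (nat_lit 0x0)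
  (PL.C (nat_lit 0x2f3c0d21) (nat_lit 0x516621e0df22d) (nat_lit 0x0)
  (PL.C (nat_lit 0x2f879272) (nat_lit 0x912fd62c8dfe8) (nat_lit 0x0)
  (PL.C (nat_lit 0x2ff0507e) (nat_lit 0x0) (nat_lit 0x4fbf2a385b95d)
  (PL.C (nat_lit 0x30a8218e) (nat_lit 0x19787e6ab645a) (nat_lit 0x0) gp0_0_185))))))))))))))))))))

noncomputable def gp0_0_183 : PL :=
  (PL.C (nat_lit 0x2479a16b) (nat_lit 0x616dc631646cc) (nat_lit 0x0)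
  (PL.C (nat_lit 0x24de93f1) (nat_lit 0x5f43c3b73ac32b) (nat_lit 0x0)
  (PL.C (nat_lit 0x24e77c2a) (nat_lit 0x0) (nat_lit 0x5244e3da24a8)
  (PL.C (nat_lit 0x25478002) (nat_lit 0x0) (nat_lit 0x6e91e18bbf306)
  (PL.C (nat_lit 0x2569694c) (nat_lit 0x9f86d678f96a) (nat_lit 0x0)
  (PL.C (nat_lit 0x25b9020e) (nat_lit 0x0) (nat_lit 0x6d38e8543fe75)
  (PL.C (nat_lit 0x25bbdb54) (nat_lit 0x0) (nat_lit 0x98002a1f76c11)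
  (PL.C (nat_lit 0x25eb2622) (nat_lit 0x0) (nat_lit 0x2cfd1d015a5df)
  (PL.C (nat_lit 0x260f030c) (nat_lit 0x9f86d26ad8d8) (nat_lit 0x0)
  (PL.C (nat_lit 0x2629d3fe) (nat_lit 0x0) (nat_lit 0x16c326d740bb84)
  (PL.C (nat_lit 0x268ff7eb) (nat_lit 0x0) (nat_lit 0x199ee6e262ec4b)
  (PL.C (nat_lit 0x26ec9117) (nat_lit 0x8f1cd0e95161aa) (nat_lit 0x0)
  (PL.C (nat_lit 0x27023409) (nat_lit 0x3907d3f4dfdfa) (nat_lit 0x0)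
  (PL.C (nat_lit 0x27582aef) (nat_lit 0x3907d339941b1) (nat_lit 0x0)
  (PL.C (nat_lit 0x277a1615) (nat_lit 0x0) (nat_lit 0x7574dfacd0533)
  (PL.C (nat_lit 0x28017682) (nat_lit 0x0) (nat_lit 0x1cff61381cd685)
  (PL.C (nat_lit 0x281f53ba) (nat_lit 0x0) (nat_lit 0x4fbf2abff0c41)
  (PL.C (nat_lit 0x28599fee) (nat_lit 0x0) (nat_lit 0x13ddd58c41c1f7)
  (PL.C (nat_lit 0x2877bef6) (nat_lit 0x912fd67e87d5e) (nat_lit 0x0)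
  (PL.C (nat_lit 0x292eb5bf) (nat_lit 0x0) (nat_lit 0x38f577d0cfc28) gp0_0_184))))))))))))))))))))

noncomputable def gp0_0_182 : PL :=
  (PL.C (nat_lit 0x20dba5b3) (nat_lit 0x0) (nat_lit 0x5881cad1b19766)
  (PL.C (nat_lit 0x20fee2fd) (nat_lit 0x51662256acc1b) (nat_lit 0x0)
  (PL.C (nat_lit 0x2109f249) (nat_lit 0x0) (nat_lit 0x2406863b451fa8)
  (PL.C (nat_lit 0x2162bb1f) (nat_lit 0x0) (nat_lit 0x18ba20bfa7b9ad)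
  (PL.C (nat_lit 0x2188a181) (nat_lit 0xbf9c6fac8c102) (nat_lit 0x0)
  (PL.C (nat_lit 0x2199ead1) (nat_lit 0x0) (nat_lit 0x31936243618041)
  (PL.C (nat_lit 0x21af570b) (nat_lit 0x5e04a8ff512281) (nat_lit 0x0)
  (PL.C (nat_lit 0x21d287b7) (nat_lit 0x0) (nat_lit 0xe22a5c7a2f7b)
  (PL.C (nat_lit 0x2222dabe) (nat_lit 0x211991b0fe044d) (nat_lit 0x0)
  (PL.C (nat_lit 0x226e14d2) (nat_lit 0x0) (nat_lit 0x261339ba42ad83)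
  (PL.C (nat_lit 0x22886841) (nat_lit 0x4b84a4154c9b1) (nat_lit 0x0)
  (PL.C (nat_lit 0x22e1497f) (nat_lit 0x0) (nat_lit 0x4aadc591c87a7)
  (PL.C (nat_lit 0x23392bef) (nat_lit 0x0) (nat_lit 0x2986dc792e8591)
  (PL.C (nat_lit 0x2386cb59) (nat_lit 0x0) (nat_lit 0x3f3184b1bc46b6)
  (PL.C (nat_lit 0x23b50c81) (nat_lit 0xc6048a539f17a) (nat_lit 0x0)
  (PL.C (nat_lit 0x23b60983) (nat_lit 0x0) (nat_lit 0x3e7bf8bd89402)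
  (PL.C (nat_lit 0x23bb4102) (nat_lit 0x2f531502781f6e) (nat_lit 0x0)
  (PL.C (nat_lit 0x240c9fd6) (nat_lit 0x1d89cf5403d3d) (nat_lit 0x0)
  (PL.C (nat_lit 0x2429ef6d) (nat_lit 0x0) (nat_lit 0xa6e7889feb5bf)
  (PL.C (nat_lit 0x2453ae2f) (nat_lit 0x0) (nat_lit 0x5881cacbf59c86) gp0_0_183))))))))))))))))))))

noncomputable def gp0_0_181 : PL :=
  (PL.C (nat_lit 0x1e9d5f7e) (nat_lit 0x0) (nat_lit 0x139b1684c493ed)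
  (PL.C (nat_lit 0x1ea063b9) (nat_lit 0x467a873342d3f) (nat_lit 0x0)
  (PL.C (nat_lit 0x1eca6a57) (nat_lit 0x0) (nat_lit 0xa6e786a811220)
  (PL.C (nat_lit 0x1ed303d7) (nat_lit 0x0) (nat_lit 0xb56c17514b84c)
  (PL.C (nat_lit 0x1f1fa175) (nat_lit 0x0) (nat_lit 0xa45c18257e3a38)
  (PL.C (nat_lit 0x1f272652) (nat_lit 0x0) (nat_lit 0x1e01b77047dd7)
  (PL.C (nat_lit 0x1f3c3afd) (nat_lit 0x0) (nat_lit 0x3e7bf8d6c3139)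
  (PL.C (nat_lit 0x1f78338a) (nat_lit 0x1d89cea817ec9) (nat_lit 0x0)
  (PL.C (nat_lit 0x1f7d5e16) (nat_lit 0x0) (nat_lit 0x2568077999d12)
  (PL.C (nat_lit 0x1f905297) (nat_lit 0x88fe363973a60) (nat_lit 0x0)
  (PL.C (nat_lit 0x1fd5e171) (nat_lit 0x3de4087ecbab1) (nat_lit 0x0)
  (PL.C (nat_lit 0x1fe8313f) (nat_lit 0x836813ecede16) (nat_lit 0x0)
  (PL.C (nat_lit 0x204d0eb7) (nat_lit 0x4b84a424a2bad) (nat_lit 0x0)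
  (PL.C (nat_lit 0x204ff369) (nat_lit 0x0) (nat_lit 0x8e8cc732cdee)
  (PL.C (nat_lit 0x205aef1e) (nat_lit 0x22a179ff9d277d) (nat_lit 0x0)
  (PL.C (nat_lit 0x20681265) (nat_lit 0x0) (nat_lit 0x3d177ee3fd18c)
  (PL.C (nat_lit 0x208d7ad7) (nat_lit 0x0) (nat_lit 0x4aadc660acbdc)
  (PL.C (nat_lit 0x20906ac2) (nat_lit 0x0) (nat_lit 0x287161ebe92751)
  (PL.C (nat_lit 0x2097288f) (nat_lit 0x0) (nat_lit 0x2230a05238dcc)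
  (PL.C (nat_lit 0x20af7cb3) (nat_lit 0x0) (nat_lit 0x3d1780809927e) gp0_0_182))))))))))))))))))))

noncomputable def gp0_0_180 : PL :=
  (PL.C (nat_lit 0x1c0b9f8e) (nat_lit 0xb0b84a1409f89) (nat_lit 0x0)
  (PL.C (nat_lit 0x1c2ec5db) (nat_lit 0x0) (nat_lit 0x10db80b073a1dd)
  (PL.C (nat_lit 0x1c496d82) (nat_lit 0x16aae9b7d7e83) (nat_lit 0x0)
  (PL.C (nat_lit 0x1c5d5bd5) (nat_lit 0x829c295153566f) (nat_lit 0x0)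
  (PL.C (nat_lit 0x1c6016e4) (nat_lit 0x277037f025f81) (nat_lit 0x0)
  (PL.C (nat_lit 0x1c9e9efc) (nat_lit 0xf92f1ab4a767) (nat_lit 0x0)
  (PL.C (nat_lit 0x1cdc2aa9) (nat_lit 0x2c99f570c222ba) (nat_lit 0x0)
  (PL.C (nat_lit 0x1d57efac) (nat_lit 0xf92f1d9d4aec) (nat_lit 0x0)
  (PL.C (nat_lit 0x1d71b5bb) (nat_lit 0x0) (nat_lit 0x199ee6eb319bce)
  (PL.C (nat_lit 0x1d96245b) (nat_lit 0x0) (nat_lit 0x2637e383beabf)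
  (PL.C (nat_lit 0x1d9899f4) (nat_lit 0x277037c3b45f4) (nat_lit 0x0)
  (PL.C (nat_lit 0x1dbbe5eb) (nat_lit 0x1aa5df6fed5af7) (nat_lit 0x0)
  (PL.C (nat_lit 0x1deac247) (nat_lit 0x0) (nat_lit 0x3c100b49ee2d)
  (PL.C (nat_lit 0x1dfd6c7d) (nat_lit 0x1aa5df95eb0911) (nat_lit 0x0)
  (PL.C (nat_lit 0x1e1c3629) (nat_lit 0x5bad0f08fedec) (nat_lit 0x0)
  (PL.C (nat_lit 0x1e5a7b72) (nat_lit 0x0) (nat_lit 0x1d4cdd43496467)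
  (PL.C (nat_lit 0x1e6e65ae) (nat_lit 0x0) (nat_lit 0x6e91e05453bb3)
  (PL.C (nat_lit 0x1e77e41f) (nat_lit 0x4e062a857f3714) (nat_lit 0x0)
  (PL.C (nat_lit 0x1e8723e1) (nat_lit 0x616dc8b7fde1e) (nat_lit 0x0)
  (PL.C (nat_lit 0x1e989151) (nat_lit 0x0) (nat_lit 0x2637e3e6e5b54) gp0_0_181))))))))))))))))))))

noncomputable def gp0_0_179 : PL :=
  (PL.C (nat_lit 0x196aee8d) (nat_lit 0x24cd24fbc2c635) (nat_lit 0x0)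
  (PL.C (nat_lit 0x196f1ac3) (nat_lit 0x1130ff9fa8e961) (nat_lit 0x0)
  (PL.C (nat_lit 0x19b54ff2) (nat_lit 0x0) (nat_lit 0x4b5c9e2b372d8a)
  (PL.C (nat_lit 0x1a017806) (nat_lit 0x0) (nat_lit 0x3624d6c141d2df)
  (PL.C (nat_lit 0x1a220fe7) (nat_lit 0x0) (nat_lit 0x206a48ace3859b)
  (PL.C (nat_lit 0x1a3ac74a) (nat_lit 0x0) (nat_lit 0x3624d6bde768a9)
  (PL.C (nat_lit 0x1a4d4289) (nat_lit 0xd820f0a967eb8) (nat_lit 0x0)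
  (PL.C (nat_lit 0x1a51640e) (nat_lit 0x17ecd7ed4ad9bb) (nat_lit 0x0)
  (PL.C (nat_lit 0x1a85cb72) (nat_lit 0x0) (nat_lit 0x18974c44d53371)
  (PL.C (nat_lit 0x1a950cee) (nat_lit 0x0) (nat_lit 0x6cc8e6cabce08)
  (PL.C (nat_lit 0x1aa50d33) (nat_lit 0x3de4082089eee) (nat_lit 0x0)
  (PL.C (nat_lit 0x1adfc4f5) (nat_lit 0x88fe353bf18d4) (nat_lit 0x0)
  (PL.C (nat_lit 0x1b6dc787) (nat_lit 0x0) (nat_lit 0x44a8a6cd6ba008)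
  (PL.C (nat_lit 0x1b74792a) (nat_lit 0x0) (nat_lit 0x139b166e6a7aff)
  (PL.C (nat_lit 0x1b8236d6) (nat_lit 0x0) (nat_lit 0xb88b95544dae)
  (PL.C (nat_lit 0x1b924e37) (nat_lit 0x0) (nat_lit 0x38fc9d58cf952f)
  (PL.C (nat_lit 0x1bb0fa06) (nat_lit 0x0) (nat_lit 0x1d4cdd5dfe3ae8)
  (PL.C (nat_lit 0x1bbed5fa) (nat_lit 0x19787f768e0c1) (nat_lit 0x0)
  (PL.C (nat_lit 0x1bcf10d1) (nat_lit 0x0) (nat_lit 0x548736950f0e3b)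
  (PL.C (nat_lit 0x1be3d32d) (nat_lit 0x0) (nat_lit 0x2406863f935fe8) gp0_0_180))))))))))))))))))))

noncomputable def gp0_0_178 : PL :=
  (PL.C (nat_lit 0x172bfc49) (nat_lit 0x2b8ed23d6faa88) (nat_lit 0x0)
  (PL.C (nat_lit 0x1740dbaa) (nat_lit 0x0) (nat_lit 0x9ad792d141108)
  (PL.C (nat_lit 0x175a1ff7) (nat_lit 0x160cd67d4f1f95) (nat_lit 0x0)
  (PL.C (nat_lit 0x178c685a) (nat_lit 0x0) (nat_lit 0x83dfc93677065)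
  (PL.C (nat_lit 0x17b35546) (nat_lit 0x12ea582915024f) (nat_lit 0x0)
  (PL.C (nat_lit 0x17c04d56) (nat_lit 0xaadaf7c481a3) (nat_lit 0x0)
  (PL.C (nat_lit 0x17ce0856) (nat_lit 0x169f79d0d99ca) (nat_lit 0x0)
  (PL.C (nat_lit 0x17ceb102) (nat_lit 0x0) (nat_lit 0x456d08345c33f)
  (PL.C (nat_lit 0x17e7900a) (nat_lit 0x11bf27ff26d034) (nat_lit 0x0)
  (PL.C (nat_lit 0x17f1b7e9) (nat_lit 0x0) (nat_lit 0x1c330478e505eb)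
  (PL.C (nat_lit 0x188428a1) (nat_lit 0x0) (nat_lit 0x3df5c790ec3d0)
  (PL.C (nat_lit 0x18943e6f) (nat_lit 0x24cd251314745a) (nat_lit 0x0)
  (PL.C (nat_lit 0x18a0756b) (nat_lit 0x0) (nat_lit 0x4dcf6ae0f1dd4)
  (PL.C (nat_lit 0x18ba2f97) (nat_lit 0x0) (nat_lit 0x139a269bdb0)
  (PL.C (nat_lit 0x18d83b3a) (nat_lit 0x710c582fa6fff) (nat_lit 0x0)
  (PL.C (nat_lit 0x190efb76) (nat_lit 0x3b71d6c94ab6c7) (nat_lit 0x0)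
  (PL.C (nat_lit 0x191be656) (nat_lit 0x31d14db9f1ae) (nat_lit 0x0)
  (PL.C (nat_lit 0x19297791) (nat_lit 0x0) (nat_lit 0x7f0b6cffe7390)
  (PL.C (nat_lit 0x19412fa3) (nat_lit 0x0) (nat_lit 0x39c6abf12d20b)
  (PL.C (nat_lit 0x1946345a) (nat_lit 0x710c57b76d83a) (nat_lit 0x0) gp0_0_179))))))))))))))))))))

noncomputable def gp0_0_177 : PL :=
  (PL.C (nat_lit 0x1578630f) (nat_lit 0x0) (nat_lit 0x1c1bfaf688f812)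
  (PL.C (nat_lit 0x1588b47a) (nat_lit 0x71578a2f44caa) (nat_lit 0x0)
  (PL.C (nat_lit 0x158aa246) (nat_lit 0x0) (nat_lit 0x209a8ad95ddf35)
  (PL.C (nat_lit 0x15937b86) (nat_lit 0x0) (nat_lit 0x5244e5372a5d)
  (PL.C (nat_lit 0x159ab6ee) (nat_lit 0x0) (nat_lit 0x8bbb557811249)
  (PL.C (nat_lit 0x15a38002) (nat_lit 0xd5077f8d63faa) (nat_lit 0x0)
  (PL.C (nat_lit 0x15b3a73a) (nat_lit 0x0) (nat_lit 0x9ad792e114ff9)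
  (PL.C (nat_lit 0x15ba1b0a) (nat_lit 0x31342cc8a02d3) (nat_lit 0x0)
  (PL.C (nat_lit 0x15ca5322) (nat_lit 0x0) (nat_lit 0x8bbb56cdb34f6)
  (PL.C (nat_lit 0x15ff41fe) (nat_lit 0x0) (nat_lit 0x25680441a38f3)
  (PL.C (nat_lit 0x1606a186) (nat_lit 0x0) (nat_lit 0x80d80ef4b1d22)
  (PL.C (nat_lit 0x161b7de5) (nat_lit 0x338703153291f4) (nat_lit 0x0)
  (PL.C (nat_lit 0x164670ff) (nat_lit 0x1741203d1fb01c) (nat_lit 0x0)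
  (PL.C (nat_lit 0x165b1656) (nat_lit 0x909b5e232eb01) (nat_lit 0x0)
  (PL.C (nat_lit 0x1674e4b2) (nat_lit 0xaaa0699431a991) (nat_lit 0x0)
  (PL.C (nat_lit 0x168c5a7a) (nat_lit 0x0) (nat_lit 0x2d3ce17df5d32)
  (PL.C (nat_lit 0x16a19bce) (nat_lit 0xb3bde2d5404b07) (nat_lit 0x0)
  (PL.C (nat_lit 0x16c11315) (nat_lit 0x4e062a947e3069) (nat_lit 0x0)
  (PL.C (nat_lit 0x17059ad6) (nat_lit 0x71578a3fbcdf7) (nat_lit 0x0)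
  (PL.C (nat_lit 0x172779e3) (nat_lit 0x829c29828a9bf2) (nat_lit 0x0) gp0_0_178))))))))))))))))))))

noncomputable def gp0_0_176 : PL :=
  (PL.C (nat_lit 0x1447c3e3) (nat_lit 0xea95a0b2863a6) (nat_lit 0x0)
  (PL.C (nat_lit 0x144fed6a) (nat_lit 0x38b664eeecc9e9) (nat_lit 0x0)
  (PL.C (nat_lit 0x1454b1f1) (nat_lit 0x0) (nat_lit 0x15d8683b3b77d)
  (PL.C (nat_lit 0x1465b636) (nat_lit 0x91f54795a417) (nat_lit 0x0)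
  (PL.C (nat_lit 0x1468ea54) (nat_lit 0x0) (nat_lit 0x1b91a6c3bbe73a)
  (PL.C (nat_lit 0x146aed26) (nat_lit 0x2aab369b7d5292) (nat_lit 0x0)
  (PL.C (nat_lit 0x148cad3a) (nat_lit 0x0) (nat_lit 0x56f3ff989b42f)
  (PL.C (nat_lit 0x1494d581) (nat_lit 0x5e04a918131400) (nat_lit 0x0)
  (PL.C (nat_lit 0x14bfa26b) (nat_lit 0x5bad0cb84f81f) (nat_lit 0x0)
  (PL.C (nat_lit 0x14c3ace1) (nat_lit 0x0) (nat_lit 0x14e53c092c6c23)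
  (PL.C (nat_lit 0x14d2d1fe) (nat_lit 0x0) (nat_lit 0x456d07d2e734c)
  (PL.C (nat_lit 0x14dd3e02) (nat_lit 0x5dd18a1650e) (nat_lit 0x0)
  (PL.C (nat_lit 0x14ed055f) (nat_lit 0x26877d1abdbed9) (nat_lit 0x0)
  (PL.C (nat_lit 0x150ae1ba) (nat_lit 0x2024fb9a95639c) (nat_lit 0x0)
  (PL.C (nat_lit 0x15196ec9) (nat_lit 0x0) (nat_lit 0x106d41bb60c44f)
  (PL.C (nat_lit 0x153940f6) (nat_lit 0xd35cd687ce9ed) (nat_lit 0x0)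
  (PL.C (nat_lit 0x1541bd1f) (nat_lit 0x1af45f5d2adeaf) (nat_lit 0x0)
  (PL.C (nat_lit 0x1545762a) (nat_lit 0x0) (nat_lit 0x98c0818a3a3e5)
  (PL.C (nat_lit 0x156c10a1) (nat_lit 0xda3e482fadb5f) (nat_lit 0x0)
  (PL.C (nat_lit 0x156ccf6a) (nat_lit 0x8c78239299c3b) (nat_lit 0x0) gp0_0_177))))))))))))))))))))

noncomputable def gp0_0_175 : PL :=
  (PL.C (nat_lit 0x131f329b) (nat_lit 0x0) (nat_lit 0x102e8092252d2f)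
  (PL.C (nat_lit 0x1321326b) (nat_lit 0x0) (nat_lit 0x3d1fbfc88c9d2b)
  (PL.C (nat_lit 0x133aa2a9) (nat_lit 0x0) (nat_lit 0x5157c22ae7d61)
  (PL.C (nat_lit 0x133d71c6) (nat_lit 0xff2c4a3be4211e) (nat_lit 0x0)
  (PL.C (nat_lit 0x1349564d) (nat_lit 0xbf9c6d519f22e) (nat_lit 0x0)
  (PL.C (nat_lit 0x1358c9ca) (nat_lit 0x11bf2806054702) (nat_lit 0x0)
  (PL.C (nat_lit 0x137eb6b7) (nat_lit 0x2c99f586664106) (nat_lit 0x0)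
  (PL.C (nat_lit 0x13836c66) (nat_lit 0x12ea5825c19fe3) (nat_lit 0x0)
  (PL.C (nat_lit 0x138f852d) (nat_lit 0x5405a04d87aa2c) (nat_lit 0x0)
  (PL.C (nat_lit 0x1392877a) (nat_lit 0x971988ed4ea98) (nat_lit 0x0)
  (PL.C (nat_lit 0x13a123d2) (nat_lit 0x0) (nat_lit 0x4b5c9e37cdf413)
  (PL.C (nat_lit 0x13b67813) (nat_lit 0x7733d87b8b924b) (nat_lit 0x0)
  (PL.C (nat_lit 0x13b96d92) (nat_lit 0x91f53f11b6ec) (nat_lit 0x0)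
  (PL.C (nat_lit 0x13cf7e1d) (nat_lit 0x0) (nat_lit 0x39c6ac12938fb)
  (PL.C (nat_lit 0x13f1d6da) (nat_lit 0x0) (nat_lit 0xb2ada811d8b35)
  (PL.C (nat_lit 0x1412cec6) (nat_lit 0x0) (nat_lit 0x13fa2944fa5c16)
  (PL.C (nat_lit 0x1418502e) (nat_lit 0x4da13c954d2540) (nat_lit 0x0)
  (PL.C (nat_lit 0x1425e943) (nat_lit 0x0) (nat_lit 0x4dcf6b18a1697)
  (PL.C (nat_lit 0x14284617) (nat_lit 0x0) (nat_lit 0x3c55a0247a0ad)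
  (PL.C (nat_lit 0x143c524c) (nat_lit 0x0) (nat_lit 0x2070641dbedba4) gp0_0_176))))))))))))))))))))

noncomputable def gp0_0_174 : PL :=
  (PL.C (nat_lit 0x124773ff) (nat_lit 0x0) (nat_lit 0x16e567d73a3daf0)
  (PL.C (nat_lit 0x124da61c) (nat_lit 0x0) (nat_lit 0x1b91a6aa637958)
  (PL.C (nat_lit 0x125748b2) (nat_lit 0x0) (nat_lit 0x18039a6e6a9b5c)
  (PL.C (nat_lit 0x1261897a) (nat_lit 0x16d891755e141e) (nat_lit 0x0)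
  (PL.C (nat_lit 0x1263b1ed) (nat_lit 0x0) (nat_lit 0x3c55a0b058838)
  (PL.C (nat_lit 0x1275fc04) (nat_lit 0x0) (nat_lit 0x207064241620a7)
  (PL.C (nat_lit 0x1276c13e) (nat_lit 0x0) (nat_lit 0x5fc641b75a5bf3)
  (PL.C (nat_lit 0x128a0b36) (nat_lit 0x0) (nat_lit 0xb42ce4d15189ed)
  (PL.C (nat_lit 0x1297e21e) (nat_lit 0x0) (nat_lit 0x80d80e80007b6)
  (PL.C (nat_lit 0x12983823) (nat_lit 0x2cd90e7126d42) (nat_lit 0x0)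
  (PL.C (nat_lit 0x129fe469) (nat_lit 0x0) (nat_lit 0x5487365d949ad6)
  (PL.C (nat_lit 0x12a97e39) (nat_lit 0x0) (nat_lit 0x10db80d377b422)
  (PL.C (nat_lit 0x12afbf95) (nat_lit 0x0) (nat_lit 0x6528cacb3326a8)
  (PL.C (nat_lit 0x12b82411) (nat_lit 0x0) (nat_lit 0x139a90bcb18)
  (PL.C (nat_lit 0x12c8ef8f) (nat_lit 0x0) (nat_lit 0x38fc9d3a9d43e1)
  (PL.C (nat_lit 0x12e164a7) (nat_lit 0x0) (nat_lit 0x3df5c82658b3e)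
  (PL.C (nat_lit 0x12f7666d) (nat_lit 0x8461bc4239b2f) (nat_lit 0x0)
  (PL.C (nat_lit 0x130d4b2f) (nat_lit 0x0) (nat_lit 0x142877d706dbb58)
  (PL.C (nat_lit 0x1315a565) (nat_lit 0x0) (nat_lit 0x106d41b726165c)
  (PL.C (nat_lit 0x131b0dc7) (nat_lit 0x0) (nat_lit 0xab238b95fed7) gp0_0_175))))))))))))))))))))

noncomputable def gp0_0_173 : PL :=
  (PL.C (nat_lit 0x1166209b) (nat_lit 0x0) (nat_lit 0x4d81a000170619)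
  (PL.C (nat_lit 0x116b31eb) (nat_lit 0x0) (nat_lit 0x6897070d6dfa2)
  (PL.C (nat_lit 0x116c0a9a) (nat_lit 0x61b9c9194f5d46) (nat_lit 0x0)
  (PL.C (nat_lit 0x117a3629) (nat_lit 0x0) (nat_lit 0x1731c91af21a92)
  (PL.C (nat_lit 0x117c84dc) (nat_lit 0x0) (nat_lit 0x1b125cfc41307e)
  (PL.C (nat_lit 0x11874225) (nat_lit 0x0) (nat_lit 0x92d4356fb0212)
  (PL.C (nat_lit 0x1188d706) (nat_lit 0x0) (nat_lit 0x5d6161588b4b1e)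
  (PL.C (nat_lit 0x118c784d) (nat_lit 0x0) (nat_lit 0x87e48a94a896f)
  (PL.C (nat_lit 0x11a724b9) (nat_lit 0x0) (nat_lit 0xfc80c73882e1d)
  (PL.C (nat_lit 0x11aa291b) (nat_lit 0xfce9e43130be7) (nat_lit 0x0)
  (PL.C (nat_lit 0x11b15939) (nat_lit 0x1aa5b65cfaa0d7) (nat_lit 0x0)
  (PL.C (nat_lit 0x11c35e22) (nat_lit 0x272937cc69f910) (nat_lit 0x0)
  (PL.C (nat_lit 0x11c452d7) (nat_lit 0x0) (nat_lit 0x1c1bfad23d298f)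
  (PL.C (nat_lit 0x11ea834e) (nat_lit 0x2024fb93552f81) (nat_lit 0x0)
  (PL.C (nat_lit 0x11fa15fd) (nat_lit 0x0) (nat_lit 0x559cd78b6b99f9)
  (PL.C (nat_lit 0x1213c0b3) (nat_lit 0xc7e589b1434fc) (nat_lit 0x0)
  (PL.C (nat_lit 0x121c18ca) (nat_lit 0x48069bdbfc6654) (nat_lit 0x0)
  (PL.C (nat_lit 0x12235641) (nat_lit 0x0) (nat_lit 0x262b889c7405ba)
  (PL.C (nat_lit 0x122f35de) (nat_lit 0x0) (nat_lit 0x3c75666f7a1523)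
  (PL.C (nat_lit 0x123b83fb) (nat_lit 0x0) (nat_lit 0x15d8688dab0bb) gp0_0_174))))))))))))))))))))

noncomputable def gp0_0_172 : PL :=
  (PL.C (nat_lit 0x10b364c6) (nat_lit 0x9af55eb67f67e6) (nat_lit 0x0)
  (PL.C (nat_lit 0x10b4a7a4) (nat_lit 0x3b7dd37be8e1c4) (nat_lit 0x0)
  (PL.C (nat_lit 0x10b92151) (nat_lit 0x0) (nat_lit 0x3c0ffe528116)
  (PL.C (nat_lit 0x10bebc4d) (nat_lit 0xfce9e448d51ee) (nat_lit 0x0)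
  (PL.C (nat_lit 0x10c2433f) (nat_lit 0x0) (nat_lit 0x18ed2b140e2cfd)
  (PL.C (nat_lit 0x10c64fb6) (nat_lit 0x0) (nat_lit 0x495392ea98da9)
  (PL.C (nat_lit 0x10d61fc2) (nat_lit 0x1155e1d424d1b7) (nat_lit 0x0)
  (PL.C (nat_lit 0x10d9783c) (nat_lit 0xc2a22d49c5cd9) (nat_lit 0x0)
  (PL.C (nat_lit 0x10f1f45e) (nat_lit 0x87eff4ac3d826) (nat_lit 0x0)
  (PL.C (nat_lit 0x10f4bc82) (nat_lit 0x1658aa14ddd31) (nat_lit 0x0)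
  (PL.C (nat_lit 0x10fef165) (nat_lit 0x8e86a6ba6783d) (nat_lit 0x0)
  (PL.C (nat_lit 0x11128fd7) (nat_lit 0x3a68a8d0cbc8df) (nat_lit 0x0)
  (PL.C (nat_lit 0x112465b3) (nat_lit 0xc801b26df7d5) (nat_lit 0x0)
  (PL.C (nat_lit 0x11258c92) (nat_lit 0x39bb0ccf17886d) (nat_lit 0x0)
  (PL.C (nat_lit 0x113b8eb3) (nat_lit 0x15bc73436b4ba66) (nat_lit 0x0)
  (PL.C (nat_lit 0x114522ed) (nat_lit 0x0) (nat_lit 0x68970a83f3de1)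
  (PL.C (nat_lit 0x114800eb) (nat_lit 0x29fd5830eb47d) (nat_lit 0x0)
  (PL.C (nat_lit 0x114e09fd) (nat_lit 0x0) (nat_lit 0xfc80c88f4b22e)
  (PL.C (nat_lit 0x11565004) (nat_lit 0x0) (nat_lit 0x1b125cedf7dbdd)
  (PL.C (nat_lit 0x116491c5) (nat_lit 0x1213868d0e3f48) (nat_lit 0x0) gp0_0_173))))))))))))))))))))

noncomputable def gp0_0_171 : PL :=
  (PL.C (nat_lit 0xfdf20ac) (nat_lit 0x0) (nat_lit 0xd6f5a51d8156)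
  (PL.C (nat_lit 0xfefb55c) (nat_lit 0xb878521133ef9) (nat_lit 0x0)
  (PL.C (nat_lit 0x1002b6e1) (nat_lit 0x4916df9e330dab6) (nat_lit 0x0)
  (PL.C (nat_lit 0x1015322b) (nat_lit 0x0) (nat_lit 0x12feafefcdd2a6)
  (PL.C (nat_lit 0x101bf275) (nat_lit 0x1d00c0d02d8c60) (nat_lit 0x0)
  (PL.C (nat_lit 0x1025ff57) (nat_lit 0x0) (nat_lit 0x4c21ac791f4365d)
  (PL.C (nat_lit 0x103b05af) (nat_lit 0x2f17cabb14107b) (nat_lit 0x0)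
  (PL.C (nat_lit 0x1052b075) (nat_lit 0x44dd27ce2bc4b60) (nat_lit 0x0)
  (PL.C (nat_lit 0x10581b16) (nat_lit 0x0) (nat_lit 0x3deffca5b64544)
  (PL.C (nat_lit 0x105e7a7d) (nat_lit 0x66eca420a252a) (nat_lit 0x0)
  (PL.C (nat_lit 0x1062d44a) (nat_lit 0x87eff6bdfcc6c) (nat_lit 0x0)
  (PL.C (nat_lit 0x1067f0fd) (nat_lit 0x33454c45a6483a) (nat_lit 0x0)
  (PL.C (nat_lit 0x106af8f2) (nat_lit 0x0) (nat_lit 0x33d71c61369e91)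
  (PL.C (nat_lit 0x1078a66a) (nat_lit 0x1e89405c62e37) (nat_lit 0x0)
  (PL.C (nat_lit 0x10798953) (nat_lit 0x0) (nat_lit 0xe75849fac68f)
  (PL.C (nat_lit 0x107c1fba) (nat_lit 0x0) (nat_lit 0x1961f3f6c81f76)
  (PL.C (nat_lit 0x107dbf8b) (nat_lit 0x1dd15c22c40ee5) (nat_lit 0x0)
  (PL.C (nat_lit 0x108320a1) (nat_lit 0x0) (nat_lit 0x4525980c5a49cd)
  (PL.C (nat_lit 0x1090277c) (nat_lit 0xc2a22d3891172) (nat_lit 0x0)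
  (PL.C (nat_lit 0x109cf2c6) (nat_lit 0x144406f798da52) (nat_lit 0x0) gp0_0_172))))))))))))))))))))

noncomputable def gp0_0_170 : PL :=
  (PL.C (nat_lit 0xeff7e73) (nat_lit 0x1130ff70309c24) (nat_lit 0x0)
  (PL.C (nat_lit 0xf048567) (nat_lit 0x866ea3dc620cf) (nat_lit 0x0)
  (PL.C (nat_lit 0xf2b620e) (nat_lit 0x38b6650b90297c) (nat_lit 0x0)
  (PL.C (nat_lit 0xf2ce0b1) (nat_lit 0x0) (nat_lit 0x1799647f220e0f)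
  (PL.C (nat_lit 0xf45f65f) (nat_lit 0x37b3262ef4fc3b) (nat_lit 0x0)
  (PL.C (nat_lit 0xf5911e4) (nat_lit 0x57780c467637e) (nat_lit 0x0)
  (PL.C (nat_lit 0xf7136bb) (nat_lit 0x1ec9edfdce6574) (nat_lit 0x0)
  (PL.C (nat_lit 0xf8434e2) (nat_lit 0x0) (nat_lit 0x335e3f4ae9ca78)
  (PL.C (nat_lit 0xf8a3e5b) (nat_lit 0x0) (nat_lit 0x68a10675fde298)
  (PL.C (nat_lit 0xf97e73e) (nat_lit 0xaadafcaf7141) (nat_lit 0x0)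
  (PL.C (nat_lit 0xfa6668e) (nat_lit 0x0) (nat_lit 0x156627819825b6b)
  (PL.C (nat_lit 0xfb25def) (nat_lit 0x121386909fc831) (nat_lit 0x0)
  (PL.C (nat_lit 0xfb2f03c) (nat_lit 0x0) (nat_lit 0x8e4f1102d0700)
  (PL.C (nat_lit 0xfba4452) (nat_lit 0x0) (nat_lit 0x83dfc9315c53e)
  (PL.C (nat_lit 0xfc63aa9) (nat_lit 0x7733d854988be8) (nat_lit 0x0)
  (PL.C (nat_lit 0xfcce384) (nat_lit 0x44d40483e467a) (nat_lit 0x0)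
  (PL.C (nat_lit 0xfcef745) (nat_lit 0x6b4abbd9e61db) (nat_lit 0x0)
  (PL.C (nat_lit 0xfd1b68a) (nat_lit 0x197e1cb3567334f) (nat_lit 0x0)
  (PL.C (nat_lit 0xfd588e4) (nat_lit 0x0) (nat_lit 0x3b76cafadd753)
  (PL.C (nat_lit 0xfdac451) (nat_lit 0x0) (nat_lit 0x92d4349b4fe6d) gp0_0_171))))))))))))))))))))

noncomputable def gp0_0_169 : PL :=
  (PL.C (nat_lit 0xe2bd36a) (nat_lit 0x0) (nat_lit 0x215b81b271a9e9)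
  (PL.C (nat_lit 0xe32a673) (nat_lit 0x0) (nat_lit 0x5157c375150d5)
  (PL.C (nat_lit 0xe480b16) (nat_lit 0x5d17d75b55836e) (nat_lit 0x0)
  (PL.C (nat_lit 0xe50420a) (nat_lit 0x0) (nat_lit 0xb6e6373a8976e3)
  (PL.C (nat_lit 0xe58dfb9) (nat_lit 0x6b6eb5768b59b3) (nat_lit 0x0)
  (PL.C (nat_lit 0xe5b22fc) (nat_lit 0x57780c4b98828) (nat_lit 0x0)
  (PL.C (nat_lit 0xe696f73) (nat_lit 0x1ec9edfe3e2423) (nat_lit 0x0)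
  (PL.C (nat_lit 0xe787dbf) (nat_lit 0x6b6eb57c13f35a) (nat_lit 0x0)
  (PL.C (nat_lit 0xe80d091) (nat_lit 0xd820ef5a53fb5) (nat_lit 0x0)
  (PL.C (nat_lit 0xe8c0abf) (nat_lit 0x0) (nat_lit 0x12feb02d969a85)
  (PL.C (nat_lit 0xea08a2d) (nat_lit 0x0) (nat_lit 0xad9609ecbb4128)
  (PL.C (nat_lit 0xeaea999) (nat_lit 0x2cd90e612f93b) (nat_lit 0x0)
  (PL.C (nat_lit 0xeaffa47) (nat_lit 0x0) (nat_lit 0x1b74cd4dd664a3)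
  (PL.C (nat_lit 0xed05841) (nat_lit 0x0) (nat_lit 0x442d9618e7843e)
  (PL.C (nat_lit 0xed8a045) (nat_lit 0x0) (nat_lit 0xee1608f725d55e)
  (PL.C (nat_lit 0xed9a0aa) (nat_lit 0x239edda43f1017) (nat_lit 0x0)
  (PL.C (nat_lit 0xee10f56) (nat_lit 0x169f79ef15a77) (nat_lit 0x0)
  (PL.C (nat_lit 0xee9c377) (nat_lit 0xeceac2c9a3a7a5) (nat_lit 0x0)
  (PL.C (nat_lit 0xeef79dd) (nat_lit 0x5405a04143beb7) (nat_lit 0x0)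
  (PL.C (nat_lit 0xef957d3) (nat_lit 0xdb65001b022775) (nat_lit 0x0) gp0_0_170))))))))))))))))))))

noncomputable def gp0_0_168 : PL :=
  (PL.C (nat_lit 0xd852d42) (nat_lit 0x20797b83b6eba) (nat_lit 0x0)
  (PL.C (nat_lit 0xd8bab55) (nat_lit 0x11fdac456b3da) (nat_lit 0x0)
  (PL.C (nat_lit 0xd8dcbf6) (nat_lit 0x0) (nat_lit 0x4870b5a69be2c)
  (PL.C (nat_lit 0xd992424) (nat_lit 0x32e630c989fb3) (nat_lit 0x0)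
  (PL.C (nat_lit 0xd994109) (nat_lit 0xd9ef99a36c461) (nat_lit 0x0)
  (PL.C (nat_lit 0xd9bf4ce) (nat_lit 0xbebb9fd1d8944) (nat_lit 0x0)
  (PL.C (nat_lit 0xda1bcf3) (nat_lit 0x4bf29b39f04d3ec) (nat_lit 0x0)
  (PL.C (nat_lit 0xdafbb87) (nat_lit 0x0) (nat_lit 0x5883606d1a582)
  (PL.C (nat_lit 0xdb88e56) (nat_lit 0x53aabdf6802684) (nat_lit 0x0)
  (PL.C (nat_lit 0xdc77709) (nat_lit 0x0) (nat_lit 0x91d09acd0456388)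
  (PL.C (nat_lit 0xdd516f2) (nat_lit 0x0) (nat_lit 0x13fa2967720835)
  (PL.C (nat_lit 0xdd7c896) (nat_lit 0x0) (nat_lit 0x727e65398d7920)
  (PL.C (nat_lit 0xdd967b1) (nat_lit 0x26d67ddb8159e2) (nat_lit 0x0)
  (PL.C (nat_lit 0xde1e154) (nat_lit 0x0) (nat_lit 0xd6f5a140175c)
  (PL.C (nat_lit 0xdf358ea) (nat_lit 0x56be67c8c95672) (nat_lit 0x0)
  (PL.C (nat_lit 0xe10f486) (nat_lit 0x0) (nat_lit 0xca1c059a294803)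
  (PL.C (nat_lit 0xe125755) (nat_lit 0x0) (nat_lit 0x624c078384da1b)
  (PL.C (nat_lit 0xe22ac41) (nat_lit 0x26877d35258e9a) (nat_lit 0x0)
  (PL.C (nat_lit 0xe25a67b) (nat_lit 0x0) (nat_lit 0x18ed2b34b56eb3)
  (PL.C (nat_lit 0xe2999fb) (nat_lit 0x0) (nat_lit 0xc3ae5fc268c85) gp0_0_169))))))))))))))))))))

noncomputable def gp0_0_167 : PL :=
  (PL.C (nat_lit 0xce5dbdc) (nat_lit 0xb878524f7de19) (nat_lit 0x0)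
  (PL.C (nat_lit 0xcff247a) (nat_lit 0xff2c4a3a7e3601) (nat_lit 0x0)
  (PL.C (nat_lit 0xd024844) (nat_lit 0x44d40468c2cd8) (nat_lit 0x0)
  (PL.C (nat_lit 0xd0920e7) (nat_lit 0x3a68a8c797e254) (nat_lit 0x0)
  (PL.C (nat_lit 0xd194207) (nat_lit 0x11fdaa942fe18) (nat_lit 0x0)
  (PL.C (nat_lit 0xd26490c) (nat_lit 0x32e630c22e456) (nat_lit 0x0)
  (PL.C (nat_lit 0xd2e335e) (nat_lit 0x144406f3203756) (nat_lit 0x0)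
  (PL.C (nat_lit 0xd34febe) (nat_lit 0x1155e1c6358a93) (nat_lit 0x0)
  (PL.C (nat_lit 0xd42b561) (nat_lit 0x133e6175071368) (nat_lit 0x0)
  (PL.C (nat_lit 0xd4b3f32) (nat_lit 0x1e8940f676ce1) (nat_lit 0x0)
  (PL.C (nat_lit 0xd5d1cdf) (nat_lit 0xbfb105773c59c) (nat_lit 0x0)
  (PL.C (nat_lit 0xd60bd6e) (nat_lit 0x3f527d321b4d03) (nat_lit 0x0)
  (PL.C (nat_lit 0xd623b55) (nat_lit 0x0) (nat_lit 0x14e53c0b8df13a)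
  (PL.C (nat_lit 0xd6e9b82) (nat_lit 0x0) (nat_lit 0x33d71c5e94aa28)
  (PL.C (nat_lit 0xd702eba) (nat_lit 0xc4bdb960a2b13) (nat_lit 0x0)
  (PL.C (nat_lit 0xd72cab5) (nat_lit 0x0) (nat_lit 0xe75847688f43)
  (PL.C (nat_lit 0xd75547e) (nat_lit 0x0) (nat_lit 0x33df25ac55ac3)
  (PL.C (nat_lit 0xd7d33db) (nat_lit 0x0) (nat_lit 0x11e72c108d3c0f5)
  (PL.C (nat_lit 0xd7e38a2) (nat_lit 0x70ef3ec9c8b24c) (nat_lit 0x0)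
  (PL.C (nat_lit 0xd83f425) (nat_lit 0x0) (nat_lit 0x83efd1dd1053ed) gp0_0_168))))))))))))))))))))

noncomputable def gp0_0_166 : PL :=
  (PL.C (nat_lit 0xc657ac2) (nat_lit 0x27d29e0b72a95) (nat_lit 0x0)
  (PL.C (nat_lit 0xc6a9846) (nat_lit 0x0) (nat_lit 0x3e90d3b49d458e)
  (PL.C (nat_lit 0xc77b7c9) (nat_lit 0x0) (nat_lit 0x2e9ae351e0c3fe)
  (PL.C (nat_lit 0xc7ac2b6) (nat_lit 0x0) (nat_lit 0x1961f3ecc7cde0)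
  (PL.C (nat_lit 0xc85f50a) (nat_lit 0xdeefa5d3bc97c) (nat_lit 0x0)
  (PL.C (nat_lit 0xc885219) (nat_lit 0x3865db19e65a33) (nat_lit 0x0)
  (PL.C (nat_lit 0xc92fd85) (nat_lit 0xa0c58b500587ec) (nat_lit 0x0)
  (PL.C (nat_lit 0xc96431a) (nat_lit 0x0) (nat_lit 0x3deffcb622fb0e)
  (PL.C (nat_lit 0xca3f05f) (nat_lit 0x3a0925f73d3253) (nat_lit 0x0)
  (PL.C (nat_lit 0xca6c49d) (nat_lit 0x29fd585757a5e) (nat_lit 0x0)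
  (PL.C (nat_lit 0xcae10ce) (nat_lit 0x0) (nat_lit 0xf1a3d76f5c6fe)
  (PL.C (nat_lit 0xcb918ee) (nat_lit 0x0) (nat_lit 0xca1c05997b69b9)
  (PL.C (nat_lit 0xcbcb3da) (nat_lit 0x0) (nat_lit 0x13db6610b134a0)
  (PL.C (nat_lit 0xcbf7712) (nat_lit 0x0) (nat_lit 0x2d3ce23876327)
  (PL.C (nat_lit 0xcc6ec0d) (nat_lit 0xcac9d72a5cb41) (nat_lit 0x0)
  (PL.C (nat_lit 0xcca0242) (nat_lit 0x0) (nat_lit 0x11f2588956636d)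
  (PL.C (nat_lit 0xccf7135) (nat_lit 0x0) (nat_lit 0x118f44bf4e32cd)
  (PL.C (nat_lit 0xcd1c1c6) (nat_lit 0x3928ca59f5d83f) (nat_lit 0x0)
  (PL.C (nat_lit 0xcdb8ede) (nat_lit 0x909b5eb00b4c8) (nat_lit 0x0)
  (PL.C (nat_lit 0xce49e1b) (nat_lit 0x0) (nat_lit 0x2e9ae33828c7a3) gp0_0_167))))))))))))))))))))

noncomputable def gp0_0_165 : PL :=
  (PL.C (nat_lit 0xba6cec6) (nat_lit 0x0) (nat_lit 0x2a3729ef38d5cf)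
  (PL.C (nat_lit 0xbaf816e) (nat_lit 0x0) (nat_lit 0x4cf990b9cf52f0)
  (PL.C (nat_lit 0xbb07ee3) (nat_lit 0x0) (nat_lit 0x206a4895dfd32c)
  (PL.C (nat_lit 0xbb2fade) (nat_lit 0x28750215f00e63) (nat_lit 0x0)
  (PL.C (nat_lit 0xbc4c326) (nat_lit 0x1201715161e9e0) (nat_lit 0x0)
  (PL.C (nat_lit 0xbc6c612) (nat_lit 0x4b7f7106bc74ac) (nat_lit 0x0)
  (PL.C (nat_lit 0xbd8373a) (nat_lit 0x0) (nat_lit 0xb6e637371c43b1)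
  (PL.C (nat_lit 0xbfe8b9d) (nat_lit 0x18b9b4ef9db4a9) (nat_lit 0x0)
  (PL.C (nat_lit 0xc0d2b22) (nat_lit 0x0) (nat_lit 0x7ddf46cef146b1)
  (PL.C (nat_lit 0xc166da3) (nat_lit 0x0) (nat_lit 0x1c9b1a8685ed27)
  (PL.C (nat_lit 0xc178ed6) (nat_lit 0x68efc67c844c6) (nat_lit 0x0)
  (PL.C (nat_lit 0xc1c7a5d) (nat_lit 0x0) (nat_lit 0x1d239d30e29c64)
  (PL.C (nat_lit 0xc27ad52) (nat_lit 0x0) (nat_lit 0x4870b4e0421b1)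
  (PL.C (nat_lit 0xc2dc2ae) (nat_lit 0x1b3087741755b) (nat_lit 0x0)
  (PL.C (nat_lit 0xc2fa2aa) (nat_lit 0x169ee997c1aefda) (nat_lit 0x0)
  (PL.C (nat_lit 0xc372afb) (nat_lit 0x8e86a726cef0f) (nat_lit 0x0)
  (PL.C (nat_lit 0xc40941f) (nat_lit 0x26d67db94dbf56) (nat_lit 0x0)
  (PL.C (nat_lit 0xc42769e) (nat_lit 0xc4bdb86b96489) (nat_lit 0x0)
  (PL.C (nat_lit 0xc489962) (nat_lit 0x0) (nat_lit 0xbc0833f8558a2)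
  (PL.C (nat_lit 0xc58f9a1) (nat_lit 0x0) (nat_lit 0xad9609c83b78f7) gp0_0_166))))))))))))))))))))

noncomputable def gp0_0_164 : PL :=
  (PL.C (nat_lit 0xb4b03a6) (nat_lit 0xbebba070509e0) (nat_lit 0x0)
  (PL.C (nat_lit 0xb54a0ee) (nat_lit 0x5c57a0ebaed806) (nat_lit 0x0)
  (PL.C (nat_lit 0xb5c76bb) (nat_lit 0x41333d8a01b4e8) (nat_lit 0x0)
  (PL.C (nat_lit 0xb61b53a) (nat_lit 0x837beebdd34f) (nat_lit 0x0)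
  (PL.C (nat_lit 0xb63e6aa) (nat_lit 0x70ef3ed0df40ce) (nat_lit 0x0)
  (PL.C (nat_lit 0xb69c5ca) (nat_lit 0x16a7e1f29babe4) (nat_lit 0x0)
  (PL.C (nat_lit 0xb6d9922) (nat_lit 0x6a54394d888055) (nat_lit 0x0)
  (PL.C (nat_lit 0xb717ee9) (nat_lit 0x0) (nat_lit 0xab239138e436)
  (PL.C (nat_lit 0xb731605) (nat_lit 0x3a74b38ebd0a7d) (nat_lit 0x0)
  (PL.C (nat_lit 0xb7d0086) (nat_lit 0x3f527d37109dd6) (nat_lit 0x0)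
  (PL.C (nat_lit 0xb836c9e) (nat_lit 0x0) (nat_lit 0x2634f097d6c957)
  (PL.C (nat_lit 0xb8555f2) (nat_lit 0x85acbace792ad) (nat_lit 0x0)
  (PL.C (nat_lit 0xb88f543) (nat_lit 0x1a4869bb42df52) (nat_lit 0x0)
  (PL.C (nat_lit 0xb895bfe) (nat_lit 0x120171447ddfc9) (nat_lit 0x0)
  (PL.C (nat_lit 0xb8b1a0e) (nat_lit 0x20797b78b25b8) (nat_lit 0x0)
  (PL.C (nat_lit 0xb8f97cd) (nat_lit 0x94506c2d896bc1) (nat_lit 0x0)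
  (PL.C (nat_lit 0xb98612e) (nat_lit 0x4df722c85f7333) (nat_lit 0x0)
  (PL.C (nat_lit 0xb996b12) (nat_lit 0x0) (nat_lit 0x6fe9a88fd96d6)
  (PL.C (nat_lit 0xb9ccbf2) (nat_lit 0x0) (nat_lit 0x2634f0839ddedc)
  (PL.C (nat_lit 0xb9e2ed2) (nat_lit 0x0) (nat_lit 0x4953921e959dd) gp0_0_165))))))))))))))))))))

noncomputable def gp0_0_163 : PL :=
  (PL.C (nat_lit 0xabd4c4e) (nat_lit 0x0) (nat_lit 0x65b030c930504)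
  (PL.C (nat_lit 0xad203ca) (nat_lit 0x3158e0a07043af) (nat_lit 0x0)
  (PL.C (nat_lit 0xad6dc0f) (nat_lit 0x66eca45beac94) (nat_lit 0x0)
  (PL.C (nat_lit 0xada9be5) (nat_lit 0x4155f4949398f) (nat_lit 0x0)
  (PL.C (nat_lit 0xae56764) (nat_lit 0x0) (nat_lit 0x3f594768733d7c)
  (PL.C (nat_lit 0xae72357) (nat_lit 0x0) (nat_lit 0x3d840e650d89f6)
  (PL.C (nat_lit 0xae9a6fe) (nat_lit 0x0) (nat_lit 0x2d14234aeed252)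
  (PL.C (nat_lit 0xaeff5fe) (nat_lit 0x2836eb033ce697) (nat_lit 0x0)
  (PL.C (nat_lit 0xaf1fb4c) (nat_lit 0x0) (nat_lit 0x30258b844ec49d)
  (PL.C (nat_lit 0xaf28733) (nat_lit 0x0) (nat_lit 0xd4633699ba3c6)
  (PL.C (nat_lit 0xafb199c) (nat_lit 0x3eb39b6cfda71) (nat_lit 0x0)
  (PL.C (nat_lit 0xafbb0e2) (nat_lit 0x2933845f13cd40) (nat_lit 0x0)
  (PL.C (nat_lit 0xafd6a7c) (nat_lit 0x0) (nat_lit 0x238acf0361fc4c)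
  (PL.C (nat_lit 0xafe7fb2) (nat_lit 0x2c371d1c921f20) (nat_lit 0x0)
  (PL.C (nat_lit 0xb134c84) (nat_lit 0x4260f875c1727) (nat_lit 0x0)
  (PL.C (nat_lit 0xb261636) (nat_lit 0x0) (nat_lit 0xb2ada852cd42f)
  (PL.C (nat_lit 0xb29d2de) (nat_lit 0x4b7f71073a42cd) (nat_lit 0x0)
  (PL.C (nat_lit 0xb2c1c61) (nat_lit 0x0) (nat_lit 0x588360c04293f)
  (PL.C (nat_lit 0xb42a00f) (nat_lit 0x5b4df8c12bf1da) (nat_lit 0x0)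
  (PL.C (nat_lit 0xb448cbd) (nat_lit 0x8eee1d57e47b0c) (nat_lit 0x0) gp0_0_164))))))))))))))))))))

noncomputable def gp0_0_162 : PL :=
  (PL.C (nat_lit 0xa1721b7) (nat_lit 0x12f3e5358a79dd) (nat_lit 0x0)
  (PL.C (nat_lit 0xa1d6d4d) (nat_lit 0x3865db06c4a1cd) (nat_lit 0x0)
  (PL.C (nat_lit 0xa2004d1) (nat_lit 0x18b9b4f099c6b6) (nat_lit 0x0)
  (PL.C (nat_lit 0xa423c2d) (nat_lit 0x0) (nat_lit 0x92d4d763a9b3a7)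
  (PL.C (nat_lit 0xa49a4f5) (nat_lit 0x91f59900e7f7d) (nat_lit 0x0)
  (PL.C (nat_lit 0xa4b79d2) (nat_lit 0x27bd0f6f5db2df) (nat_lit 0x0)
  (PL.C (nat_lit 0xa546449) (nat_lit 0x0) (nat_lit 0xb0ae1cb71685d)
  (PL.C (nat_lit 0xa57c2db) (nat_lit 0x33454c0cfdfe1d) (nat_lit 0x0)
  (PL.C (nat_lit 0xa5aa65b) (nat_lit 0x0) (nat_lit 0x14ac151e3bac78)
  (PL.C (nat_lit 0xa5c2992) (nat_lit 0x1836d52f250adf) (nat_lit 0x0)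
  (PL.C (nat_lit 0xa6544d4) (nat_lit 0x0) (nat_lit 0x3b76ca9175de1)
  (PL.C (nat_lit 0xa76e94a) (nat_lit 0x4df722d9dc0939) (nat_lit 0x0)
  (PL.C (nat_lit 0xa7c2d8c) (nat_lit 0x0) (nat_lit 0x8e4f10aec7490)
  (PL.C (nat_lit 0xa864ead) (nat_lit 0x37b3264dc40ec9) (nat_lit 0x0)
  (PL.C (nat_lit 0xa885b67) (nat_lit 0x0) (nat_lit 0x2f01a1fd24247b)
  (PL.C (nat_lit 0xa89fa2e) (nat_lit 0x6e88bb69146677) (nat_lit 0x0)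
  (PL.C (nat_lit 0xa91d836) (nat_lit 0x0) (nat_lit 0x4cf990bd5353f6)
  (PL.C (nat_lit 0xa9547b2) (nat_lit 0x0) (nat_lit 0x11235bd6df3f27)
  (PL.C (nat_lit 0xa9d5459) (nat_lit 0x199c3025be8a763) (nat_lit 0x0)
  (PL.C (nat_lit 0xab19acd) (nat_lit 0x0) (nat_lit 0x1c9b1a903c5ce9) gp0_0_163))))))))))))))))))))

noncomputable def gp0_0_161 : PL :=
  (PL.C (nat_lit 0x9c05c1e) (nat_lit 0x0) (nat_lit 0xb0e9d3c2088bb2)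
  (PL.C (nat_lit 0x9c44223) (nat_lit 0x5750184570ea4c) (nat_lit 0x0)
  (PL.C (nat_lit 0x9c9c666) (nat_lit 0x27d29ede7d626) (nat_lit 0x0)
  (PL.C (nat_lit 0x9caa6da) (nat_lit 0x0) (nat_lit 0x51cb380ac79ef2)
  (PL.C (nat_lit 0x9d14711) (nat_lit 0x2a7b7ec35b40dd) (nat_lit 0x0)
  (PL.C (nat_lit 0x9d5f45e) (nat_lit 0x382fd8de18aaf7) (nat_lit 0x0)
  (PL.C (nat_lit 0x9d7b49d) (nat_lit 0x0) (nat_lit 0x1d281e2ad2b918a)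
  (PL.C (nat_lit 0x9dc9c3b) (nat_lit 0x4742e34b8344b1) (nat_lit 0x0)
  (PL.C (nat_lit 0x9e03ad6) (nat_lit 0x239a4ba1a5aff5) (nat_lit 0x0)
  (PL.C (nat_lit 0x9e170b3) (nat_lit 0x0) (nat_lit 0x16e567d7c150c28)
  (PL.C (nat_lit 0x9e5c02e) (nat_lit 0x0) (nat_lit 0x16da2e0940b1dbe)
  (PL.C (nat_lit 0x9e66b1c) (nat_lit 0x0) (nat_lit 0x2d51512f473d8b)
  (PL.C (nat_lit 0x9e6e9a7) (nat_lit 0x0) (nat_lit 0x46958cc484886)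
  (PL.C (nat_lit 0x9f12cfa) (nat_lit 0x0) (nat_lit 0x2140042d9a06994)
  (PL.C (nat_lit 0x9fb8fe2) (nat_lit 0x1bbff49bcaa54a) (nat_lit 0x0)
  (PL.C (nat_lit 0x9ffa9a2) (nat_lit 0x1658a98931ecd) (nat_lit 0x0)
  (PL.C (nat_lit 0xa03039a) (nat_lit 0x0) (nat_lit 0x1bf1558b3f7e3d)
  (PL.C (nat_lit 0xa07539b) (nat_lit 0x3a0925edb66e9d) (nat_lit 0x0)
  (PL.C (nat_lit 0xa0c7f0b) (nat_lit 0xaf801a2be2cd58) (nat_lit 0x0)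
  (PL.C (nat_lit 0xa12e729) (nat_lit 0x0) (nat_lit 0x11e72c1034dc585) gp0_0_162))))))))))))))))))))

noncomputable def gp0_0_160 : PL :=
  (PL.C (nat_lit 0x95758ad) (nat_lit 0x16fd7da7e91f8b) (nat_lit 0x0)
  (PL.C (nat_lit 0x95aecaf) (nat_lit 0x0) (nat_lit 0x262b88b76ecb2f)
  (PL.C (nat_lit 0x960a304) (nat_lit 0x0) (nat_lit 0x95bcc0476477a9)
  (PL.C (nat_lit 0x9611ae1) (nat_lit 0x0) (nat_lit 0x5056f258eddc6d)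
  (PL.C (nat_lit 0x9618f8e) (nat_lit 0x64f0dd1c09845a) (nat_lit 0x0)
  (PL.C (nat_lit 0x96930db) (nat_lit 0x5a18d1fb3c4b9f) (nat_lit 0x0)
  (PL.C (nat_lit 0x96c72d6) (nat_lit 0x56be67c2191e76) (nat_lit 0x0)
  (PL.C (nat_lit 0x970374f) (nat_lit 0x3a1d13e74677a9) (nat_lit 0x0)
  (PL.C (nat_lit 0x9711152) (nat_lit 0x0) (nat_lit 0x318e1880196a9c)
  (PL.C (nat_lit 0x97719a2) (nat_lit 0x3928ca4484afbd) (nat_lit 0x0)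
  (PL.C (nat_lit 0x97bd65e) (nat_lit 0x0) (nat_lit 0x56f3ff7a3f38e)
  (PL.C (nat_lit 0x981628b) (nat_lit 0x0) (nat_lit 0xb1bac86766db5)
  (PL.C (nat_lit 0x9830271) (nat_lit 0x9c9b5be876e33e) (nat_lit 0x0)
  (PL.C (nat_lit 0x9909526) (nat_lit 0x92ccd2a76ca038) (nat_lit 0x0)
  (PL.C (nat_lit 0x99b9fa2) (nat_lit 0x27bd0f66665063) (nat_lit 0x0)
  (PL.C (nat_lit 0x9a5a92a) (nat_lit 0x7c1ba2cc43cf39) (nat_lit 0x0)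
  (PL.C (nat_lit 0x9ab35b6) (nat_lit 0x0) (nat_lit 0x5d6161691873e9)
  (PL.C (nat_lit 0x9ac3059) (nat_lit 0xbfb1059d0eb62) (nat_lit 0x0)
  (PL.C (nat_lit 0x9ae0bd7) (nat_lit 0x0) (nat_lit 0x427a0c0436f2b0)
  (PL.C (nat_lit 0x9bd1876) (nat_lit 0x20f1a3eab31c3b) (nat_lit 0x0) gp0_0_161))))))))))))))))))))

noncomputable def gp0_0_159 : PL :=
  (PL.C (nat_lit 0x8fe2292) (nat_lit 0x1f27e07b1e64e2b) (nat_lit 0x0)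
  (PL.C (nat_lit 0x8fed06c) (nat_lit 0x57ec44820f196c) (nat_lit 0x0)
  (PL.C (nat_lit 0x9013953) (nat_lit 0xd9ef9a35772f0) (nat_lit 0x0)
  (PL.C (nat_lit 0x907c78e) (nat_lit 0x0) (nat_lit 0x3cdcd307cc130d)
  (PL.C (nat_lit 0x90932a4) (nat_lit 0x285fcd37b031a1) (nat_lit 0x0)
  (PL.C (nat_lit 0x910d606) (nat_lit 0x2c26e9fdeb9a25) (nat_lit 0x0)
  (PL.C (nat_lit 0x912a334) (nat_lit 0x108e1cad0198ef) (nat_lit 0x0)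
  (PL.C (nat_lit 0x91ca445) (nat_lit 0xeceac2a5259ab9) (nat_lit 0x0)
  (PL.C (nat_lit 0x91fd25a) (nat_lit 0x46cae57dc7105) (nat_lit 0x0)
  (PL.C (nat_lit 0x928814d) (nat_lit 0x133e6175e910fd) (nat_lit 0x0)
  (PL.C (nat_lit 0x9297b1f) (nat_lit 0x3a74b3866a9728) (nat_lit 0x0)
  (PL.C (nat_lit 0x9299439) (nat_lit 0x0) (nat_lit 0x46958cbcec95d)
  (PL.C (nat_lit 0x9316125) (nat_lit 0x0) (nat_lit 0x73e61355e3c535)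
  (PL.C (nat_lit 0x937e4ad) (nat_lit 0x3b31a963bf444e) (nat_lit 0x0)
  (PL.C (nat_lit 0x93b9a76) (nat_lit 0x0) (nat_lit 0xd1c5a3d6a3731)
  (PL.C (nat_lit 0x93dc53f) (nat_lit 0x2a7b7ec588fc48) (nat_lit 0x0)
  (PL.C (nat_lit 0x9477439) (nat_lit 0x1e6983419697b31) (nat_lit 0x0)
  (PL.C (nat_lit 0x94c9ca7) (nat_lit 0x0) (nat_lit 0x2b792ed2a8e2a9)
  (PL.C (nat_lit 0x94e27e1) (nat_lit 0x0) (nat_lit 0x1da92915730b8)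
  (PL.C (nat_lit 0x95167d7) (nat_lit 0x0) (nat_lit 0x565d1df89d5e88) gp0_0_160))))))))))))))))))))

noncomputable def gp0_0_158 : PL :=
  (PL.C (nat_lit 0x8bb815a) (nat_lit 0x0) (nat_lit 0xba8a58f57d918)
  (PL.C (nat_lit 0x8c97794) (nat_lit 0x4260f883e76ea) (nat_lit 0x0)
  (PL.C (nat_lit 0x8ca103f) (nat_lit 0xd65dbba67a592e) (nat_lit 0x0)
  (PL.C (nat_lit 0x8d06957) (nat_lit 0x47472ebccd8f0d) (nat_lit 0x0)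
  (PL.C (nat_lit 0x8d72396) (nat_lit 0x0) (nat_lit 0x14c12fd7192999)
  (PL.C (nat_lit 0x8dc8199) (nat_lit 0x0) (nat_lit 0x68a1066f5d93fd)
  (PL.C (nat_lit 0x8dcd4cc) (nat_lit 0x3eb39bc5d2f18) (nat_lit 0x0)
  (PL.C (nat_lit 0x8de80fe) (nat_lit 0x0) (nat_lit 0x207c3d65bf9503)
  (PL.C (nat_lit 0x8e13fc1) (nat_lit 0x0) (nat_lit 0x9255f241cab64)
  (PL.C (nat_lit 0x8e42543) (nat_lit 0x0) (nat_lit 0x6af42517c45523)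
  (PL.C (nat_lit 0x8e58366) (nat_lit 0x1560ea1fdca498) (nat_lit 0x0)
  (PL.C (nat_lit 0x8e8bdea) (nat_lit 0x49399ccce0a9d) (nat_lit 0x0)
  (PL.C (nat_lit 0x8eb28f4) (nat_lit 0x74ef9db8ed15e) (nat_lit 0x0)
  (PL.C (nat_lit 0x8eb888f) (nat_lit 0x0) (nat_lit 0x3d840e60d265f3)
  (PL.C (nat_lit 0x8ec278e) (nat_lit 0x0) (nat_lit 0x727e654b802959)
  (PL.C (nat_lit 0x8f20c92) (nat_lit 0x3b6155462663d2) (nat_lit 0x0)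
  (PL.C (nat_lit 0x8f467ac) (nat_lit 0x0) (nat_lit 0x30258b7e13399f)
  (PL.C (nat_lit 0x8f5747c) (nat_lit 0x2eb091baf18817) (nat_lit 0x0)
  (PL.C (nat_lit 0x8f5d97d) (nat_lit 0x9f791a8bfbd68) (nat_lit 0x0)
  (PL.C (nat_lit 0x8f731ce) (nat_lit 0x2933846547aca2) (nat_lit 0x0) gp0_0_159))))))))))))))))))))

noncomputable def gp0_0_157 : PL :=
  (PL.C (nat_lit 0x8740b34) (nat_lit 0x0) (nat_lit 0x7afd75880eab6)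
  (PL.C (nat_lit 0x8773947) (nat_lit 0x60729560406d1a) (nat_lit 0x0)
  (PL.C (nat_lit 0x87b65f4) (nat_lit 0x0) (nat_lit 0x95bcc037e9d5c8)
  (PL.C (nat_lit 0x87b9677) (nat_lit 0x0) (nat_lit 0x179964496412fe)
  (PL.C (nat_lit 0x87dcd3c) (nat_lit 0x0) (nat_lit 0x141aa2c71abe0a)
  (PL.C (nat_lit 0x87e6e5b) (nat_lit 0x0) (nat_lit 0x12c630d3829c86b)
  (PL.C (nat_lit 0x88322af) (nat_lit 0x0) (nat_lit 0x4de8ff0570c106)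
  (PL.C (nat_lit 0x88490d3) (nat_lit 0xdc2c63f412369) (nat_lit 0x0)
  (PL.C (nat_lit 0x8849d5e) (nat_lit 0x328caaea36ce3dd) (nat_lit 0x0)
  (PL.C (nat_lit 0x886ac2c) (nat_lit 0x0) (nat_lit 0x316f176aba17b)
  (PL.C (nat_lit 0x889e141) (nat_lit 0x0) (nat_lit 0xee1608edad50a3)
  (PL.C (nat_lit 0x88bd684) (nat_lit 0x24120ffc96dec0) (nat_lit 0x0)
  (PL.C (nat_lit 0x88c43c1) (nat_lit 0x0) (nat_lit 0x18806dc2f6d823)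
  (PL.C (nat_lit 0x89f0003) (nat_lit 0x38cdd981bf49ade) (nat_lit 0x0)
  (PL.C (nat_lit 0x8a182d3) (nat_lit 0xcac9d448463df) (nat_lit 0x0)
  (PL.C (nat_lit 0x8a8f3a1) (nat_lit 0x0) (nat_lit 0x889780a239b5ff4)
  (PL.C (nat_lit 0x8ac963f) (nat_lit 0x2a3455af6ded5f) (nat_lit 0x0)
  (PL.C (nat_lit 0x8acbf8b) (nat_lit 0x41333d8fcd637e) (nat_lit 0x0)
  (PL.C (nat_lit 0x8b0c09a) (nat_lit 0x837be4c7e54c) (nat_lit 0x0)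
  (PL.C (nat_lit 0x8b1ffa5) (nat_lit 0x0) (nat_lit 0x244909578497709) gp0_0_158))))))))))))))))))))

noncomputable def gp0_0_156 : PL :=
  (PL.C (nat_lit 0x82bdb73) (nat_lit 0x0) (nat_lit 0x7ba2df8fe15f8)
  (PL.C (nat_lit 0x82c4f14) (nat_lit 0x2eb091c8325774) (nat_lit 0x0)
  (PL.C (nat_lit 0x835308e) (nat_lit 0x0) (nat_lit 0xb2e74a50a16481)
  (PL.C (nat_lit 0x83b5116) (nat_lit 0x0) (nat_lit 0x326883f1313161)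
  (PL.C (nat_lit 0x83fe03e) (nat_lit 0x18adb984a18a77) (nat_lit 0x0)
  (PL.C (nat_lit 0x843a72c) (nat_lit 0x29045f0ece057) (nat_lit 0x0)
  (PL.C (nat_lit 0x8499915) (nat_lit 0x0) (nat_lit 0xd463365d3de84)
  (PL.C (nat_lit 0x850a751) (nat_lit 0x25c3de229ef71d) (nat_lit 0x0)
  (PL.C (nat_lit 0x851d724) (nat_lit 0x0) (nat_lit 0x238acede43c66e)
  (PL.C (nat_lit 0x855468f) (nat_lit 0x2de2a007216e) (nat_lit 0x0)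
  (PL.C (nat_lit 0x859923f) (nat_lit 0xdc2c62fb23119) (nat_lit 0x0)
  (PL.C (nat_lit 0x85ae166) (nat_lit 0x18872f65c30f754) (nat_lit 0x0)
  (PL.C (nat_lit 0x85bdc83) (nat_lit 0x4155f4fd87660) (nat_lit 0x0)
  (PL.C (nat_lit 0x8642cbc) (nat_lit 0x0) (nat_lit 0x3f59476c936eff)
  (PL.C (nat_lit 0x8648662) (nat_lit 0x0) (nat_lit 0x1b1f8fef5313d7f)
  (PL.C (nat_lit 0x867a3b9) (nat_lit 0x2de29f6782db) (nat_lit 0x0)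
  (PL.C (nat_lit 0x86d4aea) (nat_lit 0x0) (nat_lit 0x50226d2909a29e9)
  (PL.C (nat_lit 0x86f2dbe) (nat_lit 0x85acbb907d528) (nat_lit 0x0)
  (PL.C (nat_lit 0x872feb9) (nat_lit 0x16fd7daf24dc6c) (nat_lit 0x0)
  (PL.C (nat_lit 0x873bc6d) (nat_lit 0x0) (nat_lit 0x3866565a09b92) gp0_0_157))))))))))))))))))))

noncomputable def gp0_0_155 : PL :=
  (PL.C (nat_lit 0x7eae825) (nat_lit 0x0) (nat_lit 0x2b792f188bc65a)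
  (PL.C (nat_lit 0x7f13ffa) (nat_lit 0x6ac7631b5d475) (nat_lit 0x0)
  (PL.C (nat_lit 0x7f1bb87) (nat_lit 0x0) (nat_lit 0x564e31357257be)
  (PL.C (nat_lit 0x7fa0823) (nat_lit 0x605f4b96ae0219) (nat_lit 0x0)
  (PL.C (nat_lit 0x7fe7daf) (nat_lit 0x0) (nat_lit 0x81162b661263fd)
  (PL.C (nat_lit 0x7ff07be) (nat_lit 0x368546aab38d06) (nat_lit 0x0)
  (PL.C (nat_lit 0x800d1bf) (nat_lit 0x13ceffb893adde7) (nat_lit 0x0)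
  (PL.C (nat_lit 0x802c0b6) (nat_lit 0x60ac31caecb2) (nat_lit 0x0)
  (PL.C (nat_lit 0x8030842) (nat_lit 0x3158e0aaba0ff4) (nat_lit 0x0)
  (PL.C (nat_lit 0x80627f7) (nat_lit 0x0) (nat_lit 0x37250e71ae98b)
  (PL.C (nat_lit 0x807b805) (nat_lit 0x13e7e08d2f9629b) (nat_lit 0x0)
  (PL.C (nat_lit 0x808c76c) (nat_lit 0x0) (nat_lit 0x8ea9d1627a1323)
  (PL.C (nat_lit 0x80acb77) (nat_lit 0x0) (nat_lit 0x6af424f9c84cbd)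
  (PL.C (nat_lit 0x80ef3c2) (nat_lit 0x14aca1e38d5a01) (nat_lit 0x0)
  (PL.C (nat_lit 0x8101b99) (nat_lit 0x0) (nat_lit 0xe62d261904dc14)
  (PL.C (nat_lit 0x812fc3e) (nat_lit 0x6a54394b2edf52) (nat_lit 0x0)
  (PL.C (nat_lit 0x8136b79) (nat_lit 0x94506c06c36ac0) (nat_lit 0x0)
  (PL.C (nat_lit 0x81a738c) (nat_lit 0x285fcd4eeea222) (nat_lit 0x0)
  (PL.C (nat_lit 0x824c752) (nat_lit 0x5c57a0e9693869) (nat_lit 0x0)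
  (PL.C (nat_lit 0x82b0d6a) (nat_lit 0x0) (nat_lit 0xd1c5a1fa3293f) gp0_0_156))))))))))))))))))))

noncomputable def gp0_0_154 : PL :=
  (PL.C (nat_lit 0x7a55861) (nat_lit 0x0) (nat_lit 0x51d99dbc2ee79)
  (PL.C (nat_lit 0x7a8ab04) (nat_lit 0x74ef9e9fe578b) (nat_lit 0x0)
  (PL.C (nat_lit 0x7acf314) (nat_lit 0x0) (nat_lit 0x1739536403da7e)
  (PL.C (nat_lit 0x7ae394c) (nat_lit 0x0) (nat_lit 0x5269233de5ef2)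
  (PL.C (nat_lit 0x7b0a382) (nat_lit 0x5996b835f5080c) (nat_lit 0x0)
  (PL.C (nat_lit 0x7b50fde) (nat_lit 0xc9d6eb9b66c57) (nat_lit 0x0)
  (PL.C (nat_lit 0x7b631d7) (nat_lit 0x0) (nat_lit 0x51d99c6096c6b)
  (PL.C (nat_lit 0x7b9b38b) (nat_lit 0x0) (nat_lit 0x3baf6a11626df7)
  (PL.C (nat_lit 0x7baeb74) (nat_lit 0x2a10874cda7ede) (nat_lit 0x0)
  (PL.C (nat_lit 0x7bddd4c) (nat_lit 0x0) (nat_lit 0x17395380069a71)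
  (PL.C (nat_lit 0x7c29e79) (nat_lit 0x267412c6d57c65f) (nat_lit 0x0)
  (PL.C (nat_lit 0x7cab9dd) (nat_lit 0x620df60628fb7a) (nat_lit 0x0)
  (PL.C (nat_lit 0x7caff42) (nat_lit 0x15eff0b868b090) (nat_lit 0x0)
  (PL.C (nat_lit 0x7d540dd) (nat_lit 0x98d6720b0168697) (nat_lit 0x0)
  (PL.C (nat_lit 0x7d99b83) (nat_lit 0x0) (nat_lit 0x5056f27b2a6246)
  (PL.C (nat_lit 0x7dae925) (nat_lit 0x56aa138d167dc) (nat_lit 0x0)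
  (PL.C (nat_lit 0x7dda773) (nat_lit 0x0) (nat_lit 0xb1bac3c7bcb0f)
  (PL.C (nat_lit 0x7e04a67) (nat_lit 0x0) (nat_lit 0xa4455d4d57f3d9)
  (PL.C (nat_lit 0x7e7e52b) (nat_lit 0x0) (nat_lit 0x3866560e5bba3)
  (PL.C (nat_lit 0x7e89a75) (nat_lit 0x0) (nat_lit 0x1ee243a56e203f) gp0_0_155))))))))))))))))))))

noncomputable def gp0_0_153 : PL :=
  (PL.C (nat_lit 0x74f73e5) (nat_lit 0x5e501c270978212) (nat_lit 0x0)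
  (PL.C (nat_lit 0x75275ec) (nat_lit 0x3c8a4b970e0054) (nat_lit 0x0)
  (PL.C (nat_lit 0x752857b) (nat_lit 0x95658eeb3a2fbf) (nat_lit 0x0)
  (PL.C (nat_lit 0x75716f9) (nat_lit 0xa3b1957898d144) (nat_lit 0x0)
  (PL.C (nat_lit 0x76b677b) (nat_lit 0x0) (nat_lit 0x33066474dffac54)
  (PL.C (nat_lit 0x772bd96) (nat_lit 0x46cae58706e3a) (nat_lit 0x0)
  (PL.C (nat_lit 0x7751073) (nat_lit 0xbffe92e8aa3fa1) (nat_lit 0x0)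
  (PL.C (nat_lit 0x781c00a) (nat_lit 0x2b898d7e68d9cc) (nat_lit 0x0)
  (PL.C (nat_lit 0x783087e) (nat_lit 0x95537e415e2663) (nat_lit 0x0)
  (PL.C (nat_lit 0x78757c4) (nat_lit 0x108e1cb0c33698) (nat_lit 0x0)
  (PL.C (nat_lit 0x78789a2) (nat_lit 0x0) (nat_lit 0x1fdaca16866ea5)
  (PL.C (nat_lit 0x792f9d2) (nat_lit 0x0) (nat_lit 0x6819a890bf1905)
  (PL.C (nat_lit 0x793b8df) (nat_lit 0x0) (nat_lit 0x55816191e8d42)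
  (PL.C (nat_lit 0x7975c5a) (nat_lit 0x1f6e27b92c2c698) (nat_lit 0x0)
  (PL.C (nat_lit 0x797ef1c) (nat_lit 0x57ec4481ea5ff7) (nat_lit 0x0)
  (PL.C (nat_lit 0x799f7df) (nat_lit 0x1d00c0d9fa9888) (nat_lit 0x0)
  (PL.C (nat_lit 0x79c8423) (nat_lit 0x9c9b5bdb859570) (nat_lit 0x0)
  (PL.C (nat_lit 0x7a0ff46) (nat_lit 0x0) (nat_lit 0x13db66102c326b)
  (PL.C (nat_lit 0x7a20eae) (nat_lit 0x21260ab320e96c) (nat_lit 0x0)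
  (PL.C (nat_lit 0x7a4d0ba) (nat_lit 0x14f53bd1dda19) (nat_lit 0x0) gp0_0_154))))))))))))))))))))

noncomputable def gp0_0_152 : PL :=
  (PL.C (nat_lit 0x7168062) (nat_lit 0x0) (nat_lit 0xd9847d2b776b5)
  (PL.C (nat_lit 0x72111de) (nat_lit 0x14aca1f6f6501c) (nat_lit 0x0)
  (PL.C (nat_lit 0x723eb83) (nat_lit 0x3ca14a6ab925b5) (nat_lit 0x0)
  (PL.C (nat_lit 0x7261f0e) (nat_lit 0x0) (nat_lit 0xf1a3d7264ba23)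
  (PL.C (nat_lit 0x72b8f07) (nat_lit 0x199c30292228be3) (nat_lit 0x0)
  (PL.C (nat_lit 0x72f87ab) (nat_lit 0x0) (nat_lit 0x2eea447c705baa)
  (PL.C (nat_lit 0x730c756) (nat_lit 0x0) (nat_lit 0xba499123f75b23)
  (PL.C (nat_lit 0x732233d) (nat_lit 0x2152a4f386c423) (nat_lit 0x0)
  (PL.C (nat_lit 0x734e4df) (nat_lit 0x3a1d13f33fba6c) (nat_lit 0x0)
  (PL.C (nat_lit 0x739a7b1) (nat_lit 0x0) (nat_lit 0x1b03869de06956)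
  (PL.C (nat_lit 0x739e80a) (nat_lit 0x0) (nat_lit 0x2d9dc5322f1f1)
  (PL.C (nat_lit 0x73a0209) (nat_lit 0x143e93ea657dff6) (nat_lit 0x0)
  (PL.C (nat_lit 0x73c67ee) (nat_lit 0x13ed548398f7ca0) (nat_lit 0x0)
  (PL.C (nat_lit 0x73f3a31) (nat_lit 0x0) (nat_lit 0x9f7f95f9bc5d0)
  (PL.C (nat_lit 0x7436ab1) (nat_lit 0x0) (nat_lit 0x4947fc475a9348)
  (PL.C (nat_lit 0x744c23a) (nat_lit 0x0) (nat_lit 0x3252051af01275)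
  (PL.C (nat_lit 0x7466f54) (nat_lit 0x0) (nat_lit 0x2eab3c18e7f689)
  (PL.C (nat_lit 0x7470d4f) (nat_lit 0xa3b19551898cab) (nat_lit 0x0)
  (PL.C (nat_lit 0x74b34df) (nat_lit 0x0) (nat_lit 0x4d113dd3c5c311)
  (PL.C (nat_lit 0x74c5a22) (nat_lit 0x0) (nat_lit 0x709c26cb294658) gp0_0_153))))))))))))))))))))

noncomputable def gp0_0_151 : PL :=
  (PL.C (nat_lit 0x6c54d6f) (nat_lit 0x0) (nat_lit 0x2d67026abf26e7)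
  (PL.C (nat_lit 0x6c758d9) (nat_lit 0x842f05ac293fd2) (nat_lit 0x0)
  (PL.C (nat_lit 0x6c9f193) (nat_lit 0x0) (nat_lit 0x2f01a20c4c323f)
  (PL.C (nat_lit 0x6ce6dbd) (nat_lit 0x147a134f1bbd00a) (nat_lit 0x0)
  (PL.C (nat_lit 0x6cff3b7) (nat_lit 0x56aa13eccc10f) (nat_lit 0x0)
  (PL.C (nat_lit 0x6d3e1aa) (nat_lit 0x0) (nat_lit 0x137ba23fa8b143)
  (PL.C (nat_lit 0x6dbc34e) (nat_lit 0x0) (nat_lit 0xd232d56fe4389)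
  (PL.C (nat_lit 0x6e14407) (nat_lit 0x27e0c9183429b11) (nat_lit 0x0)
  (PL.C (nat_lit 0x6e2ed86) (nat_lit 0x0) (nat_lit 0x21870de1060b5c)
  (PL.C (nat_lit 0x6e52c92) (nat_lit 0x2836eb0103c539) (nat_lit 0x0)
  (PL.C (nat_lit 0x6e5da7f) (nat_lit 0x3c397367d2d98f) (nat_lit 0x0)
  (PL.C (nat_lit 0x6e71992) (nat_lit 0x0) (nat_lit 0x5107028180101)
  (PL.C (nat_lit 0x6f9f0dc) (nat_lit 0x2a108747ca6eef) (nat_lit 0x0)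
  (PL.C (nat_lit 0x700e832) (nat_lit 0x777f2ef8f933d1) (nat_lit 0x0)
  (PL.C (nat_lit 0x704ea55) (nat_lit 0x267412c229ba2be) (nat_lit 0x0)
  (PL.C (nat_lit 0x70a0682) (nat_lit 0x0) (nat_lit 0xfc3474ac10386d)
  (PL.C (nat_lit 0x70c717b) (nat_lit 0x12f3e54f62670e) (nat_lit 0x0)
  (PL.C (nat_lit 0x70d99b5) (nat_lit 0x1670346e95b76b) (nat_lit 0x0)
  (PL.C (nat_lit 0x70e2fcc) (nat_lit 0x0) (nat_lit 0x15d28a748ae705)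
  (PL.C (nat_lit 0x70ece4f) (nat_lit 0x0) (nat_lit 0x12728aff915faf) gp0_0_152))))))))))))))))))))

noncomputable def gp0_0_150 : PL :=
  (PL.C (nat_lit 0x68fcdbe) (nat_lit 0xb68c4df2e210a3) (nat_lit 0x0)
  (PL.C (nat_lit 0x69289aa) (nat_lit 0x60ac2dc59570) (nat_lit 0x0)
  (PL.C (nat_lit 0x69312d2) (nat_lit 0xb02994b36dabc7) (nat_lit 0x0)
  (PL.C (nat_lit 0x693dc11) (nat_lit 0x0) (nat_lit 0x3baf69f9a85275)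
  (PL.C (nat_lit 0x6964b22) (nat_lit 0x0) (nat_lit 0x11a52f278954be)
  (PL.C (nat_lit 0x6965d2e) (nat_lit 0x0) (nat_lit 0x3f95d5d66c050d)
  (PL.C (nat_lit 0x697a49f) (nat_lit 0x0) (nat_lit 0xc3ae61e54a60b)
  (PL.C (nat_lit 0x699f11a) (nat_lit 0x39a34aeba8bcf2) (nat_lit 0x0)
  (PL.C (nat_lit 0x69cbf11) (nat_lit 0x0) (nat_lit 0x10c9fe4fbb676d7)
  (PL.C (nat_lit 0x69d3ee6) (nat_lit 0x0) (nat_lit 0x550c2423648542)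
  (PL.C (nat_lit 0x6a10586) (nat_lit 0x6ac762ea2f818) (nat_lit 0x0)
  (PL.C (nat_lit 0x6a11d5f) (nat_lit 0x0) (nat_lit 0x138fa7179d170e)
  (PL.C (nat_lit 0x6a61043) (nat_lit 0x0) (nat_lit 0x8c35bdbf3df90b)
  (PL.C (nat_lit 0x6a9bef7) (nat_lit 0x0) (nat_lit 0xf38cae5013073)
  (PL.C (nat_lit 0x6af8d12) (nat_lit 0x0) (nat_lit 0x3fb5b9f0ab19b9e)
  (PL.C (nat_lit 0x6b744c6) (nat_lit 0x73ca969426a21f) (nat_lit 0x0)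
  (PL.C (nat_lit 0x6ba167a) (nat_lit 0xe1b4b763af7b0) (nat_lit 0x0)
  (PL.C (nat_lit 0x6be48de) (nat_lit 0xc4128ff7c00d95) (nat_lit 0x0)
  (PL.C (nat_lit 0x6bf8eab) (nat_lit 0x0) (nat_lit 0x2a6f831048c5eaa)
  (PL.C (nat_lit 0x6c00336) (nat_lit 0x368546ae7efa5a) (nat_lit 0x0) gp0_0_151))))))))))))))))))))

noncomputable def gp0_0_149 : PL :=
  (PL.C (nat_lit 0x64f666c) (nat_lit 0x24121015701c5a) (nat_lit 0x0)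
  (PL.C (nat_lit 0x652016d) (nat_lit 0x0) (nat_lit 0x3be814a0520e)
  (PL.C (nat_lit 0x65641b2) (nat_lit 0xc8a7a876f91221) (nat_lit 0x0)
  (PL.C (nat_lit 0x65756f6) (nat_lit 0x29bcce269c48a6) (nat_lit 0x0)
  (PL.C (nat_lit 0x66cbb9e) (nat_lit 0x38aa84cdb46f60) (nat_lit 0x0)
  (PL.C (nat_lit 0x66cd9ef) (nat_lit 0x8eee1d6ac249ee) (nat_lit 0x0)
  (PL.C (nat_lit 0x66d011f) (nat_lit 0x6cc750549da646) (nat_lit 0x0)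
  (PL.C (nat_lit 0x671a537) (nat_lit 0x0) (nat_lit 0xbc4f6d70c684)
  (PL.C (nat_lit 0x672cae6) (nat_lit 0x49399d510ecf8) (nat_lit 0x0)
  (PL.C (nat_lit 0x6741d1d) (nat_lit 0x0) (nat_lit 0x14ac1511322425)
  (PL.C (nat_lit 0x676051a) (nat_lit 0x0) (nat_lit 0xd483e7071c235)
  (PL.C (nat_lit 0x679cca1) (nat_lit 0x0) (nat_lit 0x4292fcb51dd410)
  (PL.C (nat_lit 0x6823b09) (nat_lit 0x0) (nat_lit 0x2e2cf371fbece3)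
  (PL.C (nat_lit 0x682d6c2) (nat_lit 0x0) (nat_lit 0x5d033d2fec2785)
  (PL.C (nat_lit 0x6857cf7) (nat_lit 0x1e6f53b28f2184) (nat_lit 0x0)
  (PL.C (nat_lit 0x6868444) (nat_lit 0x29045fba90f08) (nat_lit 0x0)
  (PL.C (nat_lit 0x6893607) (nat_lit 0x0) (nat_lit 0x3be814604047)
  (PL.C (nat_lit 0x68b84b6) (nat_lit 0xdbcfb67abdb66f) (nat_lit 0x0)
  (PL.C (nat_lit 0x68d041d) (nat_lit 0x25c3de321bcef6) (nat_lit 0x0)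
  (PL.C (nat_lit 0x68ecb4a) (nat_lit 0x4ba4c479335cc4) (nat_lit 0x0) gp0_0_150))))))))))))))))))))

noncomputable def gp0_0_148 : PL :=
  (PL.C (nat_lit 0x621a335) (nat_lit 0x0) (nat_lit 0x362df2d1e19e76c)
  (PL.C (nat_lit 0x62219be) (nat_lit 0xf5eff05fd0c2b0) (nat_lit 0x0)
  (PL.C (nat_lit 0x624b4cb) (nat_lit 0x0) (nat_lit 0x3c1a1cc6842ba)
  (PL.C (nat_lit 0x625431e) (nat_lit 0x127a2268eeeb65) (nat_lit 0x0)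
  (PL.C (nat_lit 0x628369b) (nat_lit 0x1670349ac79bd7) (nat_lit 0x0)
  (PL.C (nat_lit 0x6292e2a) (nat_lit 0xdbcfb67e1dd14d) (nat_lit 0x0)
  (PL.C (nat_lit 0x62a46ef) (nat_lit 0x1b65b259011ef2c) (nat_lit 0x0)
  (PL.C (nat_lit 0x62f9dd2) (nat_lit 0x33188a01862d7) (nat_lit 0x0)
  (PL.C (nat_lit 0x6323e9d) (nat_lit 0x23a961bb427692c) (nat_lit 0x0)
  (PL.C (nat_lit 0x633131a) (nat_lit 0x130ae4706040a87) (nat_lit 0x0)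
  (PL.C (nat_lit 0x6341a96) (nat_lit 0x0) (nat_lit 0x1216f037fb4fda)
  (PL.C (nat_lit 0x6360de9) (nat_lit 0x0) (nat_lit 0x1f1278929cb3cd)
  (PL.C (nat_lit 0x636453a) (nat_lit 0x0) (nat_lit 0x42a3b53362179a)
  (PL.C (nat_lit 0x637356a) (nat_lit 0x127a225c655c52) (nat_lit 0x0)
  (PL.C (nat_lit 0x63a3b1e) (nat_lit 0x0) (nat_lit 0x1c389d220a8bba3)
  (PL.C (nat_lit 0x63c9dca) (nat_lit 0x68efc7531d793) (nat_lit 0x0)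
  (PL.C (nat_lit 0x640bc96) (nat_lit 0x0) (nat_lit 0x271cf96922e223)
  (PL.C (nat_lit 0x64364a7) (nat_lit 0x500bfb0b2d9f20) (nat_lit 0x0)
  (PL.C (nat_lit 0x6462092) (nat_lit 0x5540b782b14b7) (nat_lit 0x0)
  (PL.C (nat_lit 0x64acf8a) (nat_lit 0x39d8fde9bdcec) (nat_lit 0x0) gp0_0_149))))))))))))))))))))

noncomputable def gp0_0_147 : PL :=
  (PL.C (nat_lit 0x5f539cb) (nat_lit 0x0) (nat_lit 0x12728ae88c7b08)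
  (PL.C (nat_lit 0x5f554f6) (nat_lit 0x3204c7e679d2bb) (nat_lit 0x0)
  (PL.C (nat_lit 0x5f6b30c) (nat_lit 0x216813677cd5f5) (nat_lit 0x0)
  (PL.C (nat_lit 0x5f944aa) (nat_lit 0x18d73f66a74c98) (nat_lit 0x0)
  (PL.C (nat_lit 0x5fa2134) (nat_lit 0x3c8a4b92e3bdde) (nat_lit 0x0)
  (PL.C (nat_lit 0x5fdba42) (nat_lit 0x24ebf01c0ce050) (nat_lit 0x0)
  (PL.C (nat_lit 0x600d0e2) (nat_lit 0x2c26ea23166199) (nat_lit 0x0)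
  (PL.C (nat_lit 0x6052fb4) (nat_lit 0x0) (nat_lit 0xffe552c6d84d6)
  (PL.C (nat_lit 0x60aee2e) (nat_lit 0x0) (nat_lit 0x207c3d5f811268)
  (PL.C (nat_lit 0x6102ecd) (nat_lit 0x6f70f597b619eb) (nat_lit 0x0)
  (PL.C (nat_lit 0x6113817) (nat_lit 0x0) (nat_lit 0x2de4fc214c5e44)
  (PL.C (nat_lit 0x613182e) (nat_lit 0x0) (nat_lit 0x7b31475878c8d0)
  (PL.C (nat_lit 0x614b332) (nat_lit 0x33188a413aaf0) (nat_lit 0x0)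
  (PL.C (nat_lit 0x614db79) (nat_lit 0x0) (nat_lit 0x486644f6b5ed1)
  (PL.C (nat_lit 0x619b1ed) (nat_lit 0x0) (nat_lit 0x4e6d0df52146b8f)
  (PL.C (nat_lit 0x61b00de) (nat_lit 0x0) (nat_lit 0x14c12fcb320171)
  (PL.C (nat_lit 0x61ba76a) (nat_lit 0x4774904a75bc96) (nat_lit 0x0)
  (PL.C (nat_lit 0x61bb826) (nat_lit 0x39a34aedb6a40c) (nat_lit 0x0)
  (PL.C (nat_lit 0x61e0f22) (nat_lit 0x0) (nat_lit 0x215b81b3f51e30)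
  (PL.C (nat_lit 0x620eb6e) (nat_lit 0x0) (nat_lit 0x9875054c4c1072) gp0_0_148))))))))))))))))))))

noncomputable def gp0_0_146 : PL :=
  (PL.C (nat_lit 0x5c101e2) (nat_lit 0x40be35afd3d9ac5) (nat_lit 0x0)
  (PL.C (nat_lit 0x5c21847) (nat_lit 0x0) (nat_lit 0x650d04b87ea42a)
  (PL.C (nat_lit 0x5c8642a) (nat_lit 0x0) (nat_lit 0x621e52946234ba)
  (PL.C (nat_lit 0x5c87fb2) (nat_lit 0x0) (nat_lit 0x6819a89c5f6265)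
  (PL.C (nat_lit 0x5cec863) (nat_lit 0x188fcb4a0c8b006) (nat_lit 0x0)
  (PL.C (nat_lit 0x5d2563c) (nat_lit 0x28ce531f29111) (nat_lit 0x0)
  (PL.C (nat_lit 0x5d41e9b) (nat_lit 0x0) (nat_lit 0x10937998edd58a)
  (PL.C (nat_lit 0x5d82c8f) (nat_lit 0x0) (nat_lit 0x329c12e3988d17)
  (PL.C (nat_lit 0x5deeba5) (nat_lit 0x0) (nat_lit 0x69755a8d4c5d87)
  (PL.C (nat_lit 0x5e0463a) (nat_lit 0x0) (nat_lit 0x4057ca044c5deb)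
  (PL.C (nat_lit 0x5e4c264) (nat_lit 0x0) (nat_lit 0x4cba687567265b)
  (PL.C (nat_lit 0x5e50db9) (nat_lit 0x0) (nat_lit 0x3e38e91cf17b39)
  (PL.C (nat_lit 0x5e85666) (nat_lit 0x1836d5394f8f1c) (nat_lit 0x0)
  (PL.C (nat_lit 0x5e9ab54) (nat_lit 0x0) (nat_lit 0x1013cf14b5602f)
  (PL.C (nat_lit 0x5eb7fd6) (nat_lit 0x22ba7b8e914d7a) (nat_lit 0x0)
  (PL.C (nat_lit 0x5ece069) (nat_lit 0x0) (nat_lit 0x73e61369ec2f01)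
  (PL.C (nat_lit 0x5f07e9c) (nat_lit 0x0) (nat_lit 0x18f339c35fc4e1)
  (PL.C (nat_lit 0x5f0ca87) (nat_lit 0x0) (nat_lit 0x58c44e15a2596d)
  (PL.C (nat_lit 0x5f25b0a) (nat_lit 0x0) (nat_lit 0x32520534cc0bd0)
  (PL.C (nat_lit 0x5f43549) (nat_lit 0x0) (nat_lit 0x4d113daf5426bd) gp0_0_147))))))))))))))))))))

noncomputable def gp0_0_145 : PL :=
  (PL.C (nat_lit 0x58fe73b) (nat_lit 0x0) (nat_lit 0x5c1c7be8202fe)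
  (PL.C (nat_lit 0x5910c2a) (nat_lit 0x0) (nat_lit 0x31839166d6ba64)
  (PL.C (nat_lit 0x591b7b1) (nat_lit 0xbffe92cfa9a65e) (nat_lit 0x0)
  (PL.C (nat_lit 0x5929302) (nat_lit 0x13ed5483dc791e1) (nat_lit 0x0)
  (PL.C (nat_lit 0x5955cfe) (nat_lit 0x0) (nat_lit 0x6fe9a97375dba)
  (PL.C (nat_lit 0x598a11b) (nat_lit 0x0) (nat_lit 0x644f636269ae5d)
  (PL.C (nat_lit 0x59a6d26) (nat_lit 0x0) (nat_lit 0x3ac8f6d019ac6d)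
  (PL.C (nat_lit 0x59cce8f) (nat_lit 0x0) (nat_lit 0x152c6620550feda)
  (PL.C (nat_lit 0x59f73d4) (nat_lit 0x0) (nat_lit 0x5269224bbda8a)
  (PL.C (nat_lit 0x5a1ff26) (nat_lit 0x0) (nat_lit 0x14d81f20e794ad4)
  (PL.C (nat_lit 0x5a27d9e) (nat_lit 0x12b1c3cdea35d7) (nat_lit 0x0)
  (PL.C (nat_lit 0x5a4d0da) (nat_lit 0x4420aa7d80a17e) (nat_lit 0x0)
  (PL.C (nat_lit 0x5a81e01) (nat_lit 0x0) (nat_lit 0x1ae91fd7882cc37)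
  (PL.C (nat_lit 0x5acc1ca) (nat_lit 0x0) (nat_lit 0xf7e83700c7a36)
  (PL.C (nat_lit 0x5adb5e2) (nat_lit 0x0) (nat_lit 0x31839142a051cc)
  (PL.C (nat_lit 0x5af7b69) (nat_lit 0x17493f39d344067) (nat_lit 0x0)
  (PL.C (nat_lit 0x5b140d6) (nat_lit 0x0) (nat_lit 0x16da2e08d687938)
  (PL.C (nat_lit 0x5b2d7d6) (nat_lit 0x0) (nat_lit 0xaae0762c2518b)
  (PL.C (nat_lit 0x5b72d6b) (nat_lit 0x16d6a12c6a6580d) (nat_lit 0x0)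
  (PL.C (nat_lit 0x5c02ad3) (nat_lit 0x0) (nat_lit 0x1da929b7a7a42) gp0_0_146))))))))))))))))))))

noncomputable def gp0_0_144 : PL :=
  (PL.C (nat_lit 0x555e12a) (nat_lit 0x0) (nat_lit 0x1d7cac1b9e0bdfa)
  (PL.C (nat_lit 0x5572b24) (nat_lit 0x0) (nat_lit 0x5bba890743ca0)
  (PL.C (nat_lit 0x5596ffa) (nat_lit 0xa72a56b51bc2d) (nat_lit 0x0)
  (PL.C (nat_lit 0x55a7aae) (nat_lit 0x0) (nat_lit 0x2eada910fc22ea0)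
  (PL.C (nat_lit 0x55f4d2c) (nat_lit 0x185a4e5a2874c1) (nat_lit 0x0)
  (PL.C (nat_lit 0x5601266) (nat_lit 0x2a4d6803b27e51) (nat_lit 0x0)
  (PL.C (nat_lit 0x56247a6) (nat_lit 0xc9d6eb1a71f0b) (nat_lit 0x0)
  (PL.C (nat_lit 0x56ca3db) (nat_lit 0x0) (nat_lit 0x362df2ce59aac0a)
  (PL.C (nat_lit 0x56eeac5) (nat_lit 0x0) (nat_lit 0x233374eef7342e)
  (PL.C (nat_lit 0x573b3d3) (nat_lit 0x0) (nat_lit 0x5b6207863482c)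
  (PL.C (nat_lit 0x57770e5) (nat_lit 0x0) (nat_lit 0x4292fcc044ae66)
  (PL.C (nat_lit 0x57e8eed) (nat_lit 0x0) (nat_lit 0x650d04b1129e4a)
  (PL.C (nat_lit 0x57fead4) (nat_lit 0x41ee50c05c6400) (nat_lit 0x0)
  (PL.C (nat_lit 0x5855b4d) (nat_lit 0x4bd05a7c1c1a5) (nat_lit 0x0)
  (PL.C (nat_lit 0x5862067) (nat_lit 0x0) (nat_lit 0x188cf938df9aadd)
  (PL.C (nat_lit 0x586660e) (nat_lit 0x0) (nat_lit 0x869f479f9e34a9)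
  (PL.C (nat_lit 0x58929f2) (nat_lit 0x28750210e04001) (nat_lit 0x0)
  (PL.C (nat_lit 0x58a1dbf) (nat_lit 0x1214bd76f9123e) (nat_lit 0x0)
  (PL.C (nat_lit 0x58b1a36) (nat_lit 0x0) (nat_lit 0x6219b3e10ff557)
  (PL.C (nat_lit 0x58e2f0a) (nat_lit 0x0) (nat_lit 0x3ac8f6d702e412) gp0_0_145))))))))))))))))))))

noncomputable def gp0_0_143 : PL :=
  (PL.C (nat_lit 0x531d13e) (nat_lit 0x7a62ce1319ca3d) (nat_lit 0x0)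
  (PL.C (nat_lit 0x53396c7) (nat_lit 0x91f598e7bd610) (nat_lit 0x0)
  (PL.C (nat_lit 0x5365525) (nat_lit 0x34cae199338d7c) (nat_lit 0x0)
  (PL.C (nat_lit 0x53bbd02) (nat_lit 0x0) (nat_lit 0x271cf9f8aa28aa)
  (PL.C (nat_lit 0x53c9b6e) (nat_lit 0x0) (nat_lit 0x63f3d407c0b89)
  (PL.C (nat_lit 0x53e6fa2) (nat_lit 0xc8a7a86d3e469c) (nat_lit 0x0)
  (PL.C (nat_lit 0x540319a) (nat_lit 0x0) (nat_lit 0x1a191b6b5580d7)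
  (PL.C (nat_lit 0x542749b) (nat_lit 0x115c6804a18377) (nat_lit 0x0)
  (PL.C (nat_lit 0x5454372) (nat_lit 0x12b1c3cf59b665) (nat_lit 0x0)
  (PL.C (nat_lit 0x545bc4e) (nat_lit 0x0) (nat_lit 0x84146d161885e)
  (PL.C (nat_lit 0x547456e) (nat_lit 0x130ae47754e1ded) (nat_lit 0x0)
  (PL.C (nat_lit 0x54b7ffc) (nat_lit 0x153857fe2b5b07) (nat_lit 0x0)
  (PL.C (nat_lit 0x54bd25a) (nat_lit 0x0) (nat_lit 0x2ae5413b9973e7)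
  (PL.C (nat_lit 0x54cc3b7) (nat_lit 0xfa212ddbdb97ec) (nat_lit 0x0)
  (PL.C (nat_lit 0x54f67d1) (nat_lit 0x3ed957dcbdcfd4) (nat_lit 0x0)
  (PL.C (nat_lit 0x55039ad) (nat_lit 0x0) (nat_lit 0x624c07bb675632)
  (PL.C (nat_lit 0x5515ac2) (nat_lit 0x68a5e3e78c78e9) (nat_lit 0x0)
  (PL.C (nat_lit 0x55453ca) (nat_lit 0x14eb3e65edc9a) (nat_lit 0x0)
  (PL.C (nat_lit 0x554afd4) (nat_lit 0x0) (nat_lit 0x2d230c9d23a273)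
  (PL.C (nat_lit 0x55519bf) (nat_lit 0x0) (nat_lit 0x1093799d196dcf) gp0_0_144))))))))))))))))))))

noncomputable def gp0_0_142 : PL :=
  (PL.C (nat_lit 0x505066c) (nat_lit 0x0) (nat_lit 0x2b7eac18039a11)
  (PL.C (nat_lit 0x507a5e7) (nat_lit 0x4d536d953b8bd5) (nat_lit 0x0)
  (PL.C (nat_lit 0x50ca68c) (nat_lit 0x0) (nat_lit 0x8cb0c7c64527ea)
  (PL.C (nat_lit 0x50d25ea) (nat_lit 0x5f82313b48b38f) (nat_lit 0x0)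
  (PL.C (nat_lit 0x51141b1) (nat_lit 0x460b5f4f3d716) (nat_lit 0x0)
  (PL.C (nat_lit 0x5114fea) (nat_lit 0x0) (nat_lit 0x65b03021b55c6)
  (PL.C (nat_lit 0x511a9d9) (nat_lit 0x0) (nat_lit 0xa58110e165865f)
  (PL.C (nat_lit 0x51302c2) (nat_lit 0x29bcce18880d80) (nat_lit 0x0)
  (PL.C (nat_lit 0x515ff84) (nat_lit 0x0) (nat_lit 0x141aa2c6ef1809)
  (PL.C (nat_lit 0x516b474) (nat_lit 0xab9298b362b06) (nat_lit 0x0)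
  (PL.C (nat_lit 0x518e596) (nat_lit 0x0) (nat_lit 0x4ff88042af4083)
  (PL.C (nat_lit 0x51e48c1) (nat_lit 0x41f60d58eca988) (nat_lit 0x0)
  (PL.C (nat_lit 0x51f28b3) (nat_lit 0xdad0b8bd63f7d4) (nat_lit 0x0)
  (PL.C (nat_lit 0x51f8886) (nat_lit 0x2124ff931ddbf3) (nat_lit 0x0)
  (PL.C (nat_lit 0x524213a) (nat_lit 0x46e5296d8214b) (nat_lit 0x0)
  (PL.C (nat_lit 0x52677b2) (nat_lit 0x0) (nat_lit 0x126e48e1b40857)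
  (PL.C (nat_lit 0x52ad2ca) (nat_lit 0x0) (nat_lit 0x3a6e2139fe86f1)
  (PL.C (nat_lit 0x52c69a6) (nat_lit 0x119719acb282332) (nat_lit 0x0)
  (PL.C (nat_lit 0x5301416) (nat_lit 0x2209e7d37e8260) (nat_lit 0x0)
  (PL.C (nat_lit 0x5307027) (nat_lit 0x54e2af7d413095) (nat_lit 0x0) gp0_0_143))))))))))))))))))))

noncomputable def gp0_0_141 : PL :=
  (PL.C (nat_lit 0x4d2bf03) (nat_lit 0x0) (nat_lit 0xbc4f6f1c4719)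
  (PL.C (nat_lit 0x4d2eff4) (nat_lit 0xbf8f9effb7e652) (nat_lit 0x0)
  (PL.C (nat_lit 0x4d32657) (nat_lit 0x472f78260a6dab) (nat_lit 0x0)
  (PL.C (nat_lit 0x4d32d9d) (nat_lit 0x151b2282bb93a9) (nat_lit 0x0)
  (PL.C (nat_lit 0x4d4d176) (nat_lit 0x2957b9dc715929) (nat_lit 0x0)
  (PL.C (nat_lit 0x4d79c76) (nat_lit 0x0) (nat_lit 0x1808d6158d2b553)
  (PL.C (nat_lit 0x4d8817c) (nat_lit 0x350290f641e1a2) (nat_lit 0x0)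
  (PL.C (nat_lit 0x4dc5da3) (nat_lit 0x0) (nat_lit 0x2e2cf36ed0a78a)
  (PL.C (nat_lit 0x4dccdea) (nat_lit 0x0) (nat_lit 0x523fc46514a29d)
  (PL.C (nat_lit 0x4dd916c) (nat_lit 0x0) (nat_lit 0x8cf44f403aaf9)
  (PL.C (nat_lit 0x4e1ae52) (nat_lit 0x4bc1be7d168c06) (nat_lit 0x0)
  (PL.C (nat_lit 0x4e809af) (nat_lit 0x842f05cc270e63) (nat_lit 0x0)
  (PL.C (nat_lit 0x4ed4cc1) (nat_lit 0x47472ec518c818) (nat_lit 0x0)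
  (PL.C (nat_lit 0x4ef010b) (nat_lit 0x614a6777e1b7a4) (nat_lit 0x0)
  (PL.C (nat_lit 0x4f3344f) (nat_lit 0x30b688a407d194) (nat_lit 0x0)
  (PL.C (nat_lit 0x4f4b2f9) (nat_lit 0x46ff10d0a124f3) (nat_lit 0x0)
  (PL.C (nat_lit 0x4f8b5a2) (nat_lit 0x0) (nat_lit 0x4e64428093daee)
  (PL.C (nat_lit 0x4f9e05d) (nat_lit 0x0) (nat_lit 0x3ad02d3ea29c35)
  (PL.C (nat_lit 0x502b303) (nat_lit 0x0) (nat_lit 0x90aead1dfe31f)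
  (PL.C (nat_lit 0x503c8e3) (nat_lit 0x0) (nat_lit 0x17c4097f3e4e2d) gp0_0_142))))))))))))))))))))

noncomputable def gp0_0_140 : PL :=
  (PL.C (nat_lit 0x4b2f652) (nat_lit 0xe1b4b936f4e7e) (nat_lit 0x0)
  (PL.C (nat_lit 0x4b3bbce) (nat_lit 0x0) (nat_lit 0x87edfd1e8c6e8)
  (PL.C (nat_lit 0x4b4898a) (nat_lit 0x0) (nat_lit 0x63bf2b79fe4f85)
  (PL.C (nat_lit 0x4b69063) (nat_lit 0x0) (nat_lit 0x17c4096f79e277)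
  (PL.C (nat_lit 0x4b75bd6) (nat_lit 0x286b28a2b6f017) (nat_lit 0x0)
  (PL.C (nat_lit 0x4b9aaec) (nat_lit 0x0) (nat_lit 0xfbb9a309192d8)
  (PL.C (nat_lit 0x4befda5) (nat_lit 0x7890c40d889285) (nat_lit 0x0)
  (PL.C (nat_lit 0x4c0b694) (nat_lit 0x185a4e6d183801) (nat_lit 0x0)
  (PL.C (nat_lit 0x4c29d02) (nat_lit 0x62f0ad8ceead3b) (nat_lit 0x0)
  (PL.C (nat_lit 0x4c414b4) (nat_lit 0x0) (nat_lit 0x7afd75ae0b0e7)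
  (PL.C (nat_lit 0x4c6943a) (nat_lit 0x0) (nat_lit 0x5cd5488ddbfd1e)
  (PL.C (nat_lit 0x4c80ea3) (nat_lit 0x0) (nat_lit 0x2debb40b14ab03)
  (PL.C (nat_lit 0x4ca5a72) (nat_lit 0x28d827af3de004) (nat_lit 0x0)
  (PL.C (nat_lit 0x4cc177e) (nat_lit 0x71662c32a208e1) (nat_lit 0x0)
  (PL.C (nat_lit 0x4cc7f8b) (nat_lit 0x0) (nat_lit 0x9f7f94e05ebad)
  (PL.C (nat_lit 0x4cd984d) (nat_lit 0x46ff10d28cda4a) (nat_lit 0x0)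
  (PL.C (nat_lit 0x4cdedea) (nat_lit 0x39d8fedf12187) (nat_lit 0x0)
  (PL.C (nat_lit 0x4cf7dae) (nat_lit 0x0) (nat_lit 0x1a9e8156e7147d)
  (PL.C (nat_lit 0x4d11a76) (nat_lit 0x1222f58aff3417) (nat_lit 0x0)
  (PL.C (nat_lit 0x4d1455c) (nat_lit 0x0) (nat_lit 0x184e6257e0a211) gp0_0_141))))))))))))))))))))

noncomputable def gp0_0_139 : PL :=
  (PL.C (nat_lit 0x48aa27a) (nat_lit 0x0) (nat_lit 0x63f3d38ccbac9)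
  (PL.C (nat_lit 0x48cb08b) (nat_lit 0x1d7a5e9ca0a879a) (nat_lit 0x0)
  (PL.C (nat_lit 0x48d411c) (nat_lit 0x0) (nat_lit 0x17d028501c39b2)
  (PL.C (nat_lit 0x48ef775) (nat_lit 0x1e121ba7ead5b12) (nat_lit 0x0)
  (PL.C (nat_lit 0x4915105) (nat_lit 0x13e3db933ff4dfe) (nat_lit 0x0)
  (PL.C (nat_lit 0x49191a5) (nat_lit 0x4bd05b4ef946e) (nat_lit 0x0)
  (PL.C (nat_lit 0x4924956) (nat_lit 0x2124ff977f055f) (nat_lit 0x0)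
  (PL.C (nat_lit 0x4928234) (nat_lit 0x0) (nat_lit 0x1eb50d655c06bd)
  (PL.C (nat_lit 0x4943a87) (nat_lit 0x0) (nat_lit 0x5db289367e56c3)
  (PL.C (nat_lit 0x4962699) (nat_lit 0x270d580cb322fe) (nat_lit 0x0)
  (PL.C (nat_lit 0x4962d5a) (nat_lit 0x0) (nat_lit 0x18b8360fda14c10)
  (PL.C (nat_lit 0x4974904) (nat_lit 0xb3b1ca16f3f86) (nat_lit 0x0)
  (PL.C (nat_lit 0x4990323) (nat_lit 0x0) (nat_lit 0x2a6f830fe8cbf2f)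
  (PL.C (nat_lit 0x49a110c) (nat_lit 0x22f8335793d429) (nat_lit 0x0)
  (PL.C (nat_lit 0x4a5bc99) (nat_lit 0x188fcb4a6672e87) (nat_lit 0x0)
  (PL.C (nat_lit 0x4a9be43) (nat_lit 0x0) (nat_lit 0x1bbbec4f43263cc)
  (PL.C (nat_lit 0x4abb35d) (nat_lit 0x1647dee51c6896) (nat_lit 0x0)
  (PL.C (nat_lit 0x4ad0dda) (nat_lit 0x0) (nat_lit 0x3f9d0327331105)
  (PL.C (nat_lit 0x4adf18e) (nat_lit 0x119719aa7f3dca0) (nat_lit 0x0)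
  (PL.C (nat_lit 0x4b159ac) (nat_lit 0x0) (nat_lit 0x191e32ab304d095) gp0_0_140))))))))))))))))))))

noncomputable def gp0_0_138 : PL :=
  (PL.C (nat_lit 0x4658a57) (nat_lit 0x2152a5003ed0d4) (nat_lit 0x0)
  (PL.C (nat_lit 0x4666279) (nat_lit 0x0) (nat_lit 0x13fe4af73eeb5b4)
  (PL.C (nat_lit 0x466a0bc) (nat_lit 0x5029ae31fb4a22) (nat_lit 0x0)
  (PL.C (nat_lit 0x46b5904) (nat_lit 0x15385800a70624) (nat_lit 0x0)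
  (PL.C (nat_lit 0x46b68ea) (nat_lit 0x0) (nat_lit 0x1858d67e27f2b6)
  (PL.C (nat_lit 0x46d39aa) (nat_lit 0x2fe37446cff74a) (nat_lit 0x0)
  (PL.C (nat_lit 0x46eb582) (nat_lit 0xdb68b884207f5e) (nat_lit 0x0)
  (PL.C (nat_lit 0x4709e47) (nat_lit 0x0) (nat_lit 0x644f636109f8e7)
  (PL.C (nat_lit 0x47129fa) (nat_lit 0x0) (nat_lit 0x48c54c9334d830)
  (PL.C (nat_lit 0x476661f) (nat_lit 0x0) (nat_lit 0x3ad02d45b435aa)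
  (PL.C (nat_lit 0x47b8cd5) (nat_lit 0x3ed957ebe9916c) (nat_lit 0x0)
  (PL.C (nat_lit 0x47c0efc) (nat_lit 0x0) (nat_lit 0x50a5b522031b5)
  (PL.C (nat_lit 0x47dbedd) (nat_lit 0x0) (nat_lit 0x1d281e2985afc40)
  (PL.C (nat_lit 0x47fb472) (nat_lit 0xbd2fae4a2bc06a) (nat_lit 0x0)
  (PL.C (nat_lit 0x4800224) (nat_lit 0x0) (nat_lit 0x2d230ca7dc6d54)
  (PL.C (nat_lit 0x4803ba9) (nat_lit 0x614a6761bc45dc) (nat_lit 0x0)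
  (PL.C (nat_lit 0x481ddcf) (nat_lit 0x0) (nat_lit 0x9df377402bf45)
  (PL.C (nat_lit 0x484e5e6) (nat_lit 0x0) (nat_lit 0x64f54a9f483d182)
  (PL.C (nat_lit 0x4884c5a) (nat_lit 0x0) (nat_lit 0x3a6e2131baf055)
  (PL.C (nat_lit 0x4899e7e) (nat_lit 0x0) (nat_lit 0x2921d58d7aa2dfe) gp0_0_139))))))))))))))))))))

noncomputable def gp0_0_137 : PL :=
  (PL.C (nat_lit 0x4487d14) (nat_lit 0xfafe7c3956bafd) (nat_lit 0x0)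
  (PL.C (nat_lit 0x448914a) (nat_lit 0x95537e713ba5af) (nat_lit 0x0)
  (PL.C (nat_lit 0x448ab6a) (nat_lit 0x16c77fa219174f7) (nat_lit 0x0)
  (PL.C (nat_lit 0x44bc37a) (nat_lit 0x1d5abaf4cd1d68) (nat_lit 0x0)
  (PL.C (nat_lit 0x44c8744) (nat_lit 0x0) (nat_lit 0x18f339c17d80cb)
  (PL.C (nat_lit 0x44d68be) (nat_lit 0x0) (nat_lit 0x51070294847c7)
  (PL.C (nat_lit 0x44f35dd) (nat_lit 0x0) (nat_lit 0x248dcd57eac9ca)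
  (PL.C (nat_lit 0x4504062) (nat_lit 0x9be4a52578d88) (nat_lit 0x0)
  (PL.C (nat_lit 0x4513316) (nat_lit 0x1d66a39852267ab) (nat_lit 0x0)
  (PL.C (nat_lit 0x4521585) (nat_lit 0x0) (nat_lit 0x2c97b3fbd89c8c)
  (PL.C (nat_lit 0x452ecef) (nat_lit 0xaabacb001744ce) (nat_lit 0x0)
  (PL.C (nat_lit 0x456d206) (nat_lit 0x0) (nat_lit 0xccc754e0574e9a)
  (PL.C (nat_lit 0x458fdfa) (nat_lit 0x7a62cdf200f5a3) (nat_lit 0x0)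
  (PL.C (nat_lit 0x45b795a) (nat_lit 0x0) (nat_lit 0x44914192139d7)
  (PL.C (nat_lit 0x45d0324) (nat_lit 0xce32d856007189) (nat_lit 0x0)
  (PL.C (nat_lit 0x45e02be) (nat_lit 0x0) (nat_lit 0x6219b3dc285ddd)
  (PL.C (nat_lit 0x461b11c) (nat_lit 0x0) (nat_lit 0x5bba8991bb94a)
  (PL.C (nat_lit 0x4620c8c) (nat_lit 0x0) (nat_lit 0x1d0d2df388542f)
  (PL.C (nat_lit 0x46292b6) (nat_lit 0x9f8f06732e025) (nat_lit 0x0)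
  (PL.C (nat_lit 0x465186a) (nat_lit 0x0) (nat_lit 0x318e189149d180) gp0_0_138))))))))))))))))))))

noncomputable def gp0_0_136 : PL :=
  (PL.C (nat_lit 0x4240946) (nat_lit 0x5116f4f38b521) (nat_lit 0x0)
  (PL.C (nat_lit 0x4244aab) (nat_lit 0x13e7e08a271ebdb) (nat_lit 0x0)
  (PL.C (nat_lit 0x426d214) (nat_lit 0x9b35a07aeea440) (nat_lit 0x0)
  (PL.C (nat_lit 0x4270725) (nat_lit 0xe2af3942cd70ff) (nat_lit 0x0)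
  (PL.C (nat_lit 0x4281789) (nat_lit 0x101bbadfbdbc02) (nat_lit 0x0)
  (PL.C (nat_lit 0x429af23) (nat_lit 0x3ca14a65df2bd3) (nat_lit 0x0)
  (PL.C (nat_lit 0x42a20b1) (nat_lit 0x1b65b2595f77d30) (nat_lit 0x0)
  (PL.C (nat_lit 0x42b2864) (nat_lit 0x41782d18b67074) (nat_lit 0x0)
  (PL.C (nat_lit 0x42db7cb) (nat_lit 0x2daeae89a08a352) (nat_lit 0x0)
  (PL.C (nat_lit 0x430adc3) (nat_lit 0x49765a1e20fc07) (nat_lit 0x0)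
  (PL.C (nat_lit 0x436ab9e) (nat_lit 0x0) (nat_lit 0x449141a34faab)
  (PL.C (nat_lit 0x437c077) (nat_lit 0x4ffd85e2ba007ab) (nat_lit 0x0)
  (PL.C (nat_lit 0x43a18a9) (nat_lit 0x0) (nat_lit 0x21c1db3ee9948d)
  (PL.C (nat_lit 0x43acc4f) (nat_lit 0x0) (nat_lit 0xac6399a350210)
  (PL.C (nat_lit 0x43c4679) (nat_lit 0x0) (nat_lit 0xf40dfd3e33482d)
  (PL.C (nat_lit 0x43ef9c3) (nat_lit 0x1d7a5e9b7896417) (nat_lit 0x0)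
  (PL.C (nat_lit 0x4409a21) (nat_lit 0x5750183dc273d2) (nat_lit 0x0)
  (PL.C (nat_lit 0x443694f) (nat_lit 0x0) (nat_lit 0x21c1db694e6bac)
  (PL.C (nat_lit 0x446d3ae) (nat_lit 0x96acf525cb5ae) (nat_lit 0x0)
  (PL.C (nat_lit 0x4471635) (nat_lit 0x138bdb6c4b251a) (nat_lit 0x0) gp0_0_137))))))))))))))))))))

noncomputable def gp0_0_135 : PL :=
  (PL.C (nat_lit 0x40dcccc) (nat_lit 0x0) (nat_lit 0x23bcaf2b3374b8)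
  (PL.C (nat_lit 0x40de7a6) (nat_lit 0x4fbb06764187a8) (nat_lit 0x0)
  (PL.C (nat_lit 0x40df841) (nat_lit 0x0) (nat_lit 0x69755a8d474ee8)
  (PL.C (nat_lit 0x40e66db) (nat_lit 0x0) (nat_lit 0xa581110b0be292)
  (PL.C (nat_lit 0x4120094) (nat_lit 0x0) (nat_lit 0x4cba685d26246b)
  (PL.C (nat_lit 0x4126f9c) (nat_lit 0xcc130b7625e8d) (nat_lit 0x0)
  (PL.C (nat_lit 0x4127ac4) (nat_lit 0x5029ae22227b60) (nat_lit 0x0)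
  (PL.C (nat_lit 0x413aed3) (nat_lit 0x0) (nat_lit 0x9df376e5502af)
  (PL.C (nat_lit 0x414773d) (nat_lit 0x3ebe362dc8af11) (nat_lit 0x0)
  (PL.C (nat_lit 0x4166cce) (nat_lit 0x182e470cd3f80ea) (nat_lit 0x0)
  (PL.C (nat_lit 0x416bbd4) (nat_lit 0x58d0c0dfc6150c) (nat_lit 0x0)
  (PL.C (nat_lit 0x417d43d) (nat_lit 0x95658ef51fa449) (nat_lit 0x0)
  (PL.C (nat_lit 0x41acf12) (nat_lit 0x0) (nat_lit 0x208316a0ee28b6)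
  (PL.C (nat_lit 0x41b741c) (nat_lit 0xce32d86bd37dc0) (nat_lit 0x0)
  (PL.C (nat_lit 0x41c2f4a) (nat_lit 0x1a534d86c3681f7) (nat_lit 0x0)
  (PL.C (nat_lit 0x41df483) (nat_lit 0x0) (nat_lit 0x2592817f91c044f)
  (PL.C (nat_lit 0x41fbe8c) (nat_lit 0x0) (nat_lit 0x23bcaf28181f94)
  (PL.C (nat_lit 0x4220cbc) (nat_lit 0x1033c80a7a1ad23) (nat_lit 0x0)
  (PL.C (nat_lit 0x422b521) (nat_lit 0x0) (nat_lit 0xf01f7a3e27a0c9)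
  (PL.C (nat_lit 0x422bc64) (nat_lit 0x0) (nat_lit 0x23a75e8d695c33) gp0_0_136))))))))))))))))))))

noncomputable def gp0_0_134 : PL :=
  (PL.C (nat_lit 0x3eb2e8d) (nat_lit 0x0) (nat_lit 0x2b305bca539712)
  (PL.C (nat_lit 0x3ec52bd) (nat_lit 0x27e0c91bc054612) (nat_lit 0x0)
  (PL.C (nat_lit 0x3ed6b3d) (nat_lit 0x0) (nat_lit 0x40449e02ec8227)
  (PL.C (nat_lit 0x3ee0926) (nat_lit 0x0) (nat_lit 0x712b9f7a397202)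
  (PL.C (nat_lit 0x3efb48f) (nat_lit 0x0) (nat_lit 0x391997ae2c0e06a)
  (PL.C (nat_lit 0x3f15b91) (nat_lit 0x6bb48322650fc1) (nat_lit 0x0)
  (PL.C (nat_lit 0x3f34046) (nat_lit 0x0) (nat_lit 0x98750554b0a091)
  (PL.C (nat_lit 0x3f3d14b) (nat_lit 0x0) (nat_lit 0x20b2e70c2fd33a)
  (PL.C (nat_lit 0x3f5dc5a) (nat_lit 0x0) (nat_lit 0x2cd9b9e8d7d97b)
  (PL.C (nat_lit 0x3f6e75c) (nat_lit 0x350290dfa84c69) (nat_lit 0x0)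
  (PL.C (nat_lit 0x3f82386) (nat_lit 0x0) (nat_lit 0x523fc4310bbba3)
  (PL.C (nat_lit 0x3f8d132) (nat_lit 0x0) (nat_lit 0x63bf2b434b9261)
  (PL.C (nat_lit 0x3fa872f) (nat_lit 0x0) (nat_lit 0x58c44df6fa2fc3)
  (PL.C (nat_lit 0x3fb831c) (nat_lit 0x83c3c4f1a6b9b7) (nat_lit 0x0)
  (PL.C (nat_lit 0x3fe7c2c) (nat_lit 0x0) (nat_lit 0x95745f0ac1f96)
  (PL.C (nat_lit 0x3fec191) (nat_lit 0x55fd89bb50242e3) (nat_lit 0x0)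
  (PL.C (nat_lit 0x4074974) (nat_lit 0x0) (nat_lit 0x1013cf130d5f6b)
  (PL.C (nat_lit 0x40ac9de) (nat_lit 0xd847fc5da8cef2) (nat_lit 0x0)
  (PL.C (nat_lit 0x40b3bba) (nat_lit 0x2a352669bb03d4) (nat_lit 0x0)
  (PL.C (nat_lit 0x40b7aba) (nat_lit 0x0) (nat_lit 0x49f44caa83de27) gp0_0_135))))))))))))))))))))

noncomputable def gp0_0_133 : PL :=
  (PL.C (nat_lit 0x3d6bada) (nat_lit 0x0) (nat_lit 0x116b8de48e5b43e)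
  (PL.C (nat_lit 0x3d72df7) (nat_lit 0x4d536d59892abc) (nat_lit 0x0)
  (PL.C (nat_lit 0x3d91a09) (nat_lit 0x0) (nat_lit 0x7b41b941de89bd)
  (PL.C (nat_lit 0x3daffcc) (nat_lit 0x0) (nat_lit 0x8cb0c7c75f2e37)
  (PL.C (nat_lit 0x3db15d9) (nat_lit 0x0) (nat_lit 0x7ba2e22e7dfde)
  (PL.C (nat_lit 0x3dc60b5) (nat_lit 0x0) (nat_lit 0x2bb64305d5afde5)
  (PL.C (nat_lit 0x3dc9755) (nat_lit 0x2341f04f9031e) (nat_lit 0x0)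
  (PL.C (nat_lit 0x3de8421) (nat_lit 0x0) (nat_lit 0x10c65077e92535c)
  (PL.C (nat_lit 0x3df3042) (nat_lit 0x0) (nat_lit 0x2a84e7fe1e92701)
  (PL.C (nat_lit 0x3dfeb97) (nat_lit 0x0) (nat_lit 0x240aecbb9e92c9)
  (PL.C (nat_lit 0x3e194ef) (nat_lit 0x0) (nat_lit 0x81162b5cddb676)
  (PL.C (nat_lit 0x3e2aa6f) (nat_lit 0x0) (nat_lit 0x115584f3a74472)
  (PL.C (nat_lit 0x3e2bf12) (nat_lit 0x0) (nat_lit 0x271fad52e83807)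
  (PL.C (nat_lit 0x3e4287b) (nat_lit 0x0) (nat_lit 0x8bf73cb68b4b842)
  (PL.C (nat_lit 0x3e4b0ee) (nat_lit 0x0) (nat_lit 0xa87753e3ca08a)
  (PL.C (nat_lit 0x3e5730a) (nat_lit 0x7354acd6923f07) (nat_lit 0x0)
  (PL.C (nat_lit 0x3e6f7f3) (nat_lit 0x0) (nat_lit 0x70c532f1b639e7)
  (PL.C (nat_lit 0x3e93973) (nat_lit 0x0) (nat_lit 0x217deb5cdba7715)
  (PL.C (nat_lit 0x3e9f26e) (nat_lit 0x0) (nat_lit 0x94bf8a343a2908)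
  (PL.C (nat_lit 0x3ead97c) (nat_lit 0x4d53e39c7fd814) (nat_lit 0x0) gp0_0_134))))))))))))))))))))

noncomputable def gp0_0_132 : PL :=
  (PL.C (nat_lit 0x3b8955d) (nat_lit 0x0) (nat_lit 0x3eff25360edac)
  (PL.C (nat_lit 0x3bb1612) (nat_lit 0x188b1c20a1dfd98) (nat_lit 0x0)
  (PL.C (nat_lit 0x3bc48c4) (nat_lit 0x0) (nat_lit 0x6a442240c2ba2e)
  (PL.C (nat_lit 0x3bd9c5d) (nat_lit 0x0) (nat_lit 0xf01f7a486efc45)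
  (PL.C (nat_lit 0x3bddf0a) (nat_lit 0x0) (nat_lit 0x12fe88ddd22e4ca)
  (PL.C (nat_lit 0x3bde4ae) (nat_lit 0x0) (nat_lit 0x3f9d032bf88889)
  (PL.C (nat_lit 0x3c154c4) (nat_lit 0x0) (nat_lit 0x1aab5ca86af4ab2)
  (PL.C (nat_lit 0x3c1a914) (nat_lit 0x0) (nat_lit 0x24bcab2b0fc6d)
  (PL.C (nat_lit 0x3c27b25) (nat_lit 0x419baf4b65591) (nat_lit 0x0)
  (PL.C (nat_lit 0x3c45cdb) (nat_lit 0x0) (nat_lit 0x1e16272e08ba37)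
  (PL.C (nat_lit 0x3c56956) (nat_lit 0x1a661e4695ba1) (nat_lit 0x0)
  (PL.C (nat_lit 0x3c791df) (nat_lit 0x252f9f8a11efadc) (nat_lit 0x0)
  (PL.C (nat_lit 0x3c923ec) (nat_lit 0x1d00486c4a35b5) (nat_lit 0x0)
  (PL.C (nat_lit 0x3ca5246) (nat_lit 0x58e4666008e97e) (nat_lit 0x0)
  (PL.C (nat_lit 0x3cb3607) (nat_lit 0x0) (nat_lit 0x25ab1a33d69333)
  (PL.C (nat_lit 0x3cb9f91) (nat_lit 0x270d5806e4673c) (nat_lit 0x0)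
  (PL.C (nat_lit 0x3cc8fe4) (nat_lit 0xf8d879674ed3d) (nat_lit 0x0)
  (PL.C (nat_lit 0x3ccaa0d) (nat_lit 0x0) (nat_lit 0x329c12de6160a7)
  (PL.C (nat_lit 0x3d2345f) (nat_lit 0x0) (nat_lit 0x1ae91fd55973db0)
  (PL.C (nat_lit 0x3d571e2) (nat_lit 0x0) (nat_lit 0x1216f03e516815) gp0_0_133))))))))))))))))))))

noncomputable def gp0_0_131 : PL :=
  (PL.C (nat_lit 0x3a277e2) (nat_lit 0x221525cbbee614) (nat_lit 0x0)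
  (PL.C (nat_lit 0x3a34811) (nat_lit 0x0) (nat_lit 0x248dcd11d729d9)
  (PL.C (nat_lit 0x3a4f5ee) (nat_lit 0x1d66a397cfb6ff2) (nat_lit 0x0)
  (PL.C (nat_lit 0x3a66aeb) (nat_lit 0x106c8459cd98c92) (nat_lit 0x0)
  (PL.C (nat_lit 0x3a9b49e) (nat_lit 0x0) (nat_lit 0x116b8de46897137)
  (PL.C (nat_lit 0x3aa3b17) (nat_lit 0x26acce933c58bd2) (nat_lit 0x0)
  (PL.C (nat_lit 0x3ad2abe) (nat_lit 0x0) (nat_lit 0x287b84309ddc83)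
  (PL.C (nat_lit 0x3ad63c7) (nat_lit 0x419baeadba2d3) (nat_lit 0x0)
  (PL.C (nat_lit 0x3ae3cde) (nat_lit 0x0) (nat_lit 0xe41e9aac98eda)
  (PL.C (nat_lit 0x3aeeeb4) (nat_lit 0x0) (nat_lit 0x37becd5351188d)
  (PL.C (nat_lit 0x3b0740b) (nat_lit 0x0) (nat_lit 0x3eff254dd5266)
  (PL.C (nat_lit 0x3b1692a) (nat_lit 0x43a2bdadd87ac5) (nat_lit 0x0)
  (PL.C (nat_lit 0x3b41f5c) (nat_lit 0x0) (nat_lit 0x6a44224d5df38c)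
  (PL.C (nat_lit 0x3b45fb5) (nat_lit 0x0) (nat_lit 0x205611dd00e218d)
  (PL.C (nat_lit 0x3b544d2) (nat_lit 0x5f4fbd5c4401e) (nat_lit 0x0)
  (PL.C (nat_lit 0x3b5b7c2) (nat_lit 0x286b289ccd117c) (nat_lit 0x0)
  (PL.C (nat_lit 0x3b6081c) (nat_lit 0x1d0048791c738a) (nat_lit 0x0)
  (PL.C (nat_lit 0x3b67a76) (nat_lit 0x0) (nat_lit 0x4e644280ff5d8f)
  (PL.C (nat_lit 0x3b6d81d) (nat_lit 0x10c40889de5ee68) (nat_lit 0x0)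
  (PL.C (nat_lit 0x3b70cac) (nat_lit 0xbf8f9efac67117) (nat_lit 0x0) gp0_0_132))))))))))))))))))))

noncomputable def gp0_0_130 : PL :=
  (PL.C (nat_lit 0x3870237) (nat_lit 0x252f9f8c4200016) (nat_lit 0x0)
  (PL.C (nat_lit 0x387aaa8) (nat_lit 0x774c34bb9a096) (nat_lit 0x0)
  (PL.C (nat_lit 0x388827a) (nat_lit 0x1e13b38bfc04b0d) (nat_lit 0x0)
  (PL.C (nat_lit 0x38a4536) (nat_lit 0x2ac4ea04e66defb) (nat_lit 0x0)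
  (PL.C (nat_lit 0x38ab193) (nat_lit 0x0) (nat_lit 0x431cd95a91816c)
  (PL.C (nat_lit 0x38ad11e) (nat_lit 0x0) (nat_lit 0x253ae9711f97b0)
  (PL.C (nat_lit 0x38b0ffb) (nat_lit 0x1bab3604798dd2b) (nat_lit 0x0)
  (PL.C (nat_lit 0x38c0aca) (nat_lit 0x115698c143039b) (nat_lit 0x0)
  (PL.C (nat_lit 0x38e112a) (nat_lit 0x0) (nat_lit 0x271fad74e0a761)
  (PL.C (nat_lit 0x38e961c) (nat_lit 0x0) (nat_lit 0x2c870d953b6dc41)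
  (PL.C (nat_lit 0x38f7218) (nat_lit 0x0) (nat_lit 0xa858ac0d88ef1)
  (PL.C (nat_lit 0x38f7a93) (nat_lit 0x22961086b003dd) (nat_lit 0x0)
  (PL.C (nat_lit 0x38facf3) (nat_lit 0x0) (nat_lit 0x696cbac6997241)
  (PL.C (nat_lit 0x391d4bd) (nat_lit 0xe5a5f9f44e54cd) (nat_lit 0x0)
  (PL.C (nat_lit 0x3934c1d) (nat_lit 0x41f60d88cc2e17) (nat_lit 0x0)
  (PL.C (nat_lit 0x3947ee9) (nat_lit 0x0) (nat_lit 0x1b935acb7075d08)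
  (PL.C (nat_lit 0x3967a85) (nat_lit 0x0) (nat_lit 0x5486d13f03a8ef)
  (PL.C (nat_lit 0x39dc292) (nat_lit 0x0) (nat_lit 0x375109eabd1937)
  (PL.C (nat_lit 0x39f472e) (nat_lit 0x0) (nat_lit 0x14bc53543d25fb)
  (PL.C (nat_lit 0x3a23921) (nat_lit 0xa2b117e18129d) (nat_lit 0x0) gp0_0_131))))))))))))))))))))

noncomputable def gp0_0_129 : PL :=
  (PL.C (nat_lit 0x371e1dc) (nat_lit 0x0) (nat_lit 0xdbdd4f442126a0)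
  (PL.C (nat_lit 0x3735886) (nat_lit 0x7e5aa884421a9f) (nat_lit 0x0)
  (PL.C (nat_lit 0x37487f1) (nat_lit 0x2a3455a771c105) (nat_lit 0x0)
  (PL.C (nat_lit 0x375a01a) (nat_lit 0x1253f5be133e9bc) (nat_lit 0x0)
  (PL.C (nat_lit 0x375b06d) (nat_lit 0xdad0b8ad64ba65) (nat_lit 0x0)
  (PL.C (nat_lit 0x377b9da) (nat_lit 0x0) (nat_lit 0xd232d5f887769)
  (PL.C (nat_lit 0x3784545) (nat_lit 0x0) (nat_lit 0x24a490df33e06b)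
  (PL.C (nat_lit 0x3797626) (nat_lit 0x1f44e6582f582c) (nat_lit 0x0)
  (PL.C (nat_lit 0x379b3cf) (nat_lit 0xe2af390bfc2dc9) (nat_lit 0x0)
  (PL.C (nat_lit 0x37ca943) (nat_lit 0x0) (nat_lit 0x26fb0fb955bed96)
  (PL.C (nat_lit 0x37d28ac) (nat_lit 0x41782d507630af) (nat_lit 0x0)
  (PL.C (nat_lit 0x37dbcf4) (nat_lit 0x0) (nat_lit 0x14cd1056a71ece)
  (PL.C (nat_lit 0x37f2dfb) (nat_lit 0x0) (nat_lit 0x1de4e13a190ef)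
  (PL.C (nat_lit 0x381337b) (nat_lit 0x9f3e9e121f8c3) (nat_lit 0x0)
  (PL.C (nat_lit 0x3815c79) (nat_lit 0x0) (nat_lit 0x25928183ea7097f)
  (PL.C (nat_lit 0x381a312) (nat_lit 0x6bba540aafc269) (nat_lit 0x0)
  (PL.C (nat_lit 0x382f485) (nat_lit 0x0) (nat_lit 0x25ec49393b2101)
  (PL.C (nat_lit 0x383824c) (nat_lit 0x0) (nat_lit 0x24bcaa9782292)
  (PL.C (nat_lit 0x384d8f4) (nat_lit 0x1033c8113ec1ad5) (nat_lit 0x0)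
  (PL.C (nat_lit 0x384f5b5) (nat_lit 0xa8b0c48276f5) (nat_lit 0x0) gp0_0_130))))))))))))))))))))

noncomputable def gp0_0_128 : PL :=
  (PL.C (nat_lit 0x350baf1) (nat_lit 0x39266d40e9d836) (nat_lit 0x0)
  (PL.C (nat_lit 0x351403e) (nat_lit 0x9dc85633e406be) (nat_lit 0x0)
  (PL.C (nat_lit 0x351d76d) (nat_lit 0x7a59b1227abf48) (nat_lit 0x0)
  (PL.C (nat_lit 0x352a90b) (nat_lit 0x58b62fe64ff605e) (nat_lit 0x0)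
  (PL.C (nat_lit 0x3537eeb) (nat_lit 0x101bbaea20c409) (nat_lit 0x0)
  (PL.C (nat_lit 0x35621b7) (nat_lit 0x0) (nat_lit 0x2b305c08b70d62)
  (PL.C (nat_lit 0x3572202) (nat_lit 0x45bf5927c9a86f) (nat_lit 0x0)
  (PL.C (nat_lit 0x357db42) (nat_lit 0x848c7c23a319c1) (nat_lit 0x0)
  (PL.C (nat_lit 0x358cdfe) (nat_lit 0x100b670b22583c) (nat_lit 0x0)
  (PL.C (nat_lit 0x35a6e9a) (nat_lit 0x0) (nat_lit 0x21a92bdd7f638e5)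
  (PL.C (nat_lit 0x35f5d95) (nat_lit 0x0) (nat_lit 0x993ab253c5806d0)
  (PL.C (nat_lit 0x360d676) (nat_lit 0x6d9f44e1a56481) (nat_lit 0x0)
  (PL.C (nat_lit 0x3611be6) (nat_lit 0x15253fbb1960b82) (nat_lit 0x0)
  (PL.C (nat_lit 0x365ceb9) (nat_lit 0x17493f3859f3873) (nat_lit 0x0)
  (PL.C (nat_lit 0x365ee64) (nat_lit 0x1268f3cf6ba0e68) (nat_lit 0x0)
  (PL.C (nat_lit 0x36985d6) (nat_lit 0x0) (nat_lit 0x3f21b7400e889d)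
  (PL.C (nat_lit 0x36a1b22) (nat_lit 0x63f09251066711) (nat_lit 0x0)
  (PL.C (nat_lit 0x36a5b04) (nat_lit 0x610cb74cc5df07) (nat_lit 0x0)
  (PL.C (nat_lit 0x36d6b7c) (nat_lit 0x128ac47b4478bb5) (nat_lit 0x0)
  (PL.C (nat_lit 0x36e782b) (nat_lit 0x225cb368b419fb) (nat_lit 0x0) gp0_0_129))))))))))))))))))))

noncomputable def gp0_0_127 : PL :=
  (PL.C (nat_lit 0x3372a02) (nat_lit 0x1d5abb1295e4d5) (nat_lit 0x0)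
  (PL.C (nat_lit 0x33773be) (nat_lit 0x0) (nat_lit 0x2bdfe72bea192)
  (PL.C (nat_lit 0x3388ba4) (nat_lit 0x0) (nat_lit 0x1ad28aae65c4b4)
  (PL.C (nat_lit 0x338c5fe) (nat_lit 0x0) (nat_lit 0x55c24cb2daf5e)
  (PL.C (nat_lit 0x33d93c2) (nat_lit 0x0) (nat_lit 0xccc754bd023b25)
  (PL.C (nat_lit 0x33dde9c) (nat_lit 0x8479d418217a6) (nat_lit 0x0)
  (PL.C (nat_lit 0x33fdf92) (nat_lit 0x0) (nat_lit 0x137ba2386f5699)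
  (PL.C (nat_lit 0x340193d) (nat_lit 0x0) (nat_lit 0xdd0f737b1a8db)
  (PL.C (nat_lit 0x3425849) (nat_lit 0x16d6a12f95a9e70) (nat_lit 0x0)
  (PL.C (nat_lit 0x3442665) (nat_lit 0x0) (nat_lit 0x108641b2bbf57e4)
  (PL.C (nat_lit 0x3455bca) (nat_lit 0x0) (nat_lit 0x5116b9247239281)
  (PL.C (nat_lit 0x3464ecb) (nat_lit 0x1c1142c88b5eed) (nat_lit 0x0)
  (PL.C (nat_lit 0x348ddd6) (nat_lit 0x0) (nat_lit 0x1b8540375baf32)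
  (PL.C (nat_lit 0x348e9a7) (nat_lit 0xde4a8f7d8665679) (nat_lit 0x0)
  (PL.C (nat_lit 0x34a00b2) (nat_lit 0x1c534097dc63e6f) (nat_lit 0x0)
  (PL.C (nat_lit 0x34b48ff) (nat_lit 0x2127d6d206c682) (nat_lit 0x0)
  (PL.C (nat_lit 0x34ccd8a) (nat_lit 0x304467d41578fe) (nat_lit 0x0)
  (PL.C (nat_lit 0x34d307f) (nat_lit 0xc17f7ffcede37e) (nat_lit 0x0)
  (PL.C (nat_lit 0x34dcca6) (nat_lit 0x11dc0af4a317068) (nat_lit 0x0)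
  (PL.C (nat_lit 0x34ed781) (nat_lit 0x0) (nat_lit 0x20b2e74b78439c) gp0_0_128))))))))))))))))))))

noncomputable def gp0_0_126 : PL :=
  (PL.C (nat_lit 0x3246042) (nat_lit 0x848c7c3600b71c) (nat_lit 0x0)
  (PL.C (nat_lit 0x324e7e4) (nat_lit 0x64ab3ba0afab45) (nat_lit 0x0)
  (PL.C (nat_lit 0x3268c7d) (nat_lit 0x0) (nat_lit 0x696cbacf7a0ac2)
  (PL.C (nat_lit 0x32943cf) (nat_lit 0x0) (nat_lit 0x2e59780e489eaa)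
  (PL.C (nat_lit 0x329fe6e) (nat_lit 0x0) (nat_lit 0x10e253ecd012d3)
  (PL.C (nat_lit 0x32c68ac) (nat_lit 0x6aa795a6171a22) (nat_lit 0x0)
  (PL.C (nat_lit 0x32ef52e) (nat_lit 0x36a151f29ba7d75) (nat_lit 0x0)
  (PL.C (nat_lit 0x32f0d7c) (nat_lit 0x29c368c006628) (nat_lit 0x0)
  (PL.C (nat_lit 0x33009c2) (nat_lit 0x948ac17e50be2) (nat_lit 0x0)
  (PL.C (nat_lit 0x330c79b) (nat_lit 0x2daeae88bdfe113) (nat_lit 0x0)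
  (PL.C (nat_lit 0x332ba54) (nat_lit 0x0) (nat_lit 0x4723ea43c6d89a)
  (PL.C (nat_lit 0x332e335) (nat_lit 0x0) (nat_lit 0xb86ef8956043cd)
  (PL.C (nat_lit 0x332ffb2) (nat_lit 0x2957b9bf3d1e65) (nat_lit 0x0)
  (PL.C (nat_lit 0x333bade) (nat_lit 0x11dc0af36f8ad84) (nat_lit 0x0)
  (PL.C (nat_lit 0x3343395) (nat_lit 0x0) (nat_lit 0x233374e9f53944)
  (PL.C (nat_lit 0x334ba3b) (nat_lit 0x39266d71b97f7c) (nat_lit 0x0)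
  (PL.C (nat_lit 0x334fe74) (nat_lit 0x0) (nat_lit 0x11eb36dc31568b)
  (PL.C (nat_lit 0x3354681) (nat_lit 0x0) (nat_lit 0x5d9a5639fcd5b3)
  (PL.C (nat_lit 0x3355522) (nat_lit 0x0) (nat_lit 0x44fec27b216cda)
  (PL.C (nat_lit 0x33611a4) (nat_lit 0x366459d00867cb) (nat_lit 0x0) gp0_0_127))))))))))))))))))))

noncomputable def gp0_0_125 : PL :=
  (PL.C (nat_lit 0x30875b2) (nat_lit 0x1d8a504be18f7f0) (nat_lit 0x0)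
  (PL.C (nat_lit 0x309fa4e) (nat_lit 0x0) (nat_lit 0x2518328b66e3418)
  (PL.C (nat_lit 0x30bb66e) (nat_lit 0x0) (nat_lit 0xe41e9b0784917)
  (PL.C (nat_lit 0x30bc163) (nat_lit 0x71df0e58e702a77) (nat_lit 0x0)
  (PL.C (nat_lit 0x30c30e4) (nat_lit 0x610cb7399c4b5f) (nat_lit 0x0)
  (PL.C (nat_lit 0x30d7c5a) (nat_lit 0xbeb13c1256f245) (nat_lit 0x0)
  (PL.C (nat_lit 0x30ec466) (nat_lit 0xccc4029cbbaae) (nat_lit 0x0)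
  (PL.C (nat_lit 0x30fb89b) (nat_lit 0x34ab7d4a81572e) (nat_lit 0x0)
  (PL.C (nat_lit 0x310acc2) (nat_lit 0xbd2fae44bb9f6e) (nat_lit 0x0)
  (PL.C (nat_lit 0x313dd61) (nat_lit 0x29f09acf130688b) (nat_lit 0x0)
  (PL.C (nat_lit 0x318b499) (nat_lit 0x0) (nat_lit 0xac639a607ec82)
  (PL.C (nat_lit 0x3192866) (nat_lit 0x0) (nat_lit 0x2817752156682a2)
  (PL.C (nat_lit 0x31d223e) (nat_lit 0x0) (nat_lit 0x36b468ebae5a2b)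
  (PL.C (nat_lit 0x31e093c) (nat_lit 0x0) (nat_lit 0x9515d4929fcab7)
  (PL.C (nat_lit 0x31feacb) (nat_lit 0x0) (nat_lit 0xa1e1041a54637)
  (PL.C (nat_lit 0x3209349) (nat_lit 0x0) (nat_lit 0x30d3952c51d343)
  (PL.C (nat_lit 0x321f98c) (nat_lit 0x0) (nat_lit 0x50a5b581c2265)
  (PL.C (nat_lit 0x3227d34) (nat_lit 0x0) (nat_lit 0x14580db045288c)
  (PL.C (nat_lit 0x323065c) (nat_lit 0x0) (nat_lit 0x6c07598be61bc7)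
  (PL.C (nat_lit 0x32372f1) (nat_lit 0xbd878d0151bd5) (nat_lit 0x0) gp0_0_126))))))))))))))))))))

noncomputable def gp0_0_124 : PL :=
  (PL.C (nat_lit 0x2f5beda) (nat_lit 0x208fe3de124bb2d) (nat_lit 0x0)
  (PL.C (nat_lit 0x2f61bfc) (nat_lit 0x0) (nat_lit 0x29990b598818f6)
  (PL.C (nat_lit 0x2f909c7) (nat_lit 0x14d9c6c935aa77) (nat_lit 0x0)
  (PL.C (nat_lit 0x2f9996a) (nat_lit 0xc36eeb98f1d2b2) (nat_lit 0x0)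
  (PL.C (nat_lit 0x2fb1696) (nat_lit 0x68a5e3e396bc3c) (nat_lit 0x0)
  (PL.C (nat_lit 0x2fb99dd) (nat_lit 0x0) (nat_lit 0x147d59e4cd59ef)
  (PL.C (nat_lit 0x2fcca36) (nat_lit 0x9be4a4b1550f5) (nat_lit 0x0)
  (PL.C (nat_lit 0x2fd088e) (nat_lit 0x2ac4ea05374c57b) (nat_lit 0x0)
  (PL.C (nat_lit 0x2fe7f3e) (nat_lit 0x0) (nat_lit 0x14a24e59ec72f2)
  (PL.C (nat_lit 0x2fe8772) (nat_lit 0x0) (nat_lit 0xf7e836eee34a2)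
  (PL.C (nat_lit 0x30027c6) (nat_lit 0x1c5340956ac36b2) (nat_lit 0x0)
  (PL.C (nat_lit 0x3013e8a) (nat_lit 0x0) (nat_lit 0x87caf7240485d2)
  (PL.C (nat_lit 0x3016e1f) (nat_lit 0x26cb14610a44e0c) (nat_lit 0x0)
  (PL.C (nat_lit 0x301a83a) (nat_lit 0x0) (nat_lit 0x84146da3d5a0c)
  (PL.C (nat_lit 0x30289e3) (nat_lit 0x225cb36c3bc677) (nat_lit 0x0)
  (PL.C (nat_lit 0x3035f9a) (nat_lit 0x96acf53e88d7b) (nat_lit 0x0)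
  (PL.C (nat_lit 0x3036a71) (nat_lit 0x0) (nat_lit 0x1ccba05c64ce77b)
  (PL.C (nat_lit 0x305883c) (nat_lit 0x0) (nat_lit 0xdbdd4f39e50169)
  (PL.C (nat_lit 0x305aa4d) (nat_lit 0x0) (nat_lit 0x1b935ac6e30b6c0)
  (PL.C (nat_lit 0x30716fc) (nat_lit 0x0) (nat_lit 0x14cd1045219119) gp0_0_125))))))))))))))))))))

noncomputable def gp0_0_123 : PL :=
  (PL.C (nat_lit 0x2dbfcd3) (nat_lit 0x0) (nat_lit 0x5a3c7cc90c3a4b)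
  (PL.C (nat_lit 0x2dd2cfc) (nat_lit 0xc7109086367a7) (nat_lit 0x0)
  (PL.C (nat_lit 0x2de45d4) (nat_lit 0x22f8335f2fc2ff) (nat_lit 0x0)
  (PL.C (nat_lit 0x2df0ddd) (nat_lit 0x0) (nat_lit 0x18442f3061d9e5)
  (PL.C (nat_lit 0x2df7503) (nat_lit 0xa8b0c5026b85) (nat_lit 0x0)
  (PL.C (nat_lit 0x2df793e) (nat_lit 0xd496b63dd09018) (nat_lit 0x0)
  (PL.C (nat_lit 0x2e02aec) (nat_lit 0x3a11f899848318) (nat_lit 0x0)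
  (PL.C (nat_lit 0x2e163ae) (nat_lit 0x0) (nat_lit 0x547a626dadbb00)
  (PL.C (nat_lit 0x2e1f34a) (nat_lit 0x0) (nat_lit 0x400d7f45d055749)
  (PL.C (nat_lit 0x2e48c04) (nat_lit 0x70c503aed2a44) (nat_lit 0x0)
  (PL.C (nat_lit 0x2e7a63c) (nat_lit 0x0) (nat_lit 0x107ae264d4244)
  (PL.C (nat_lit 0x2eba8e1) (nat_lit 0x0) (nat_lit 0x2de4fc0cd44e65)
  (PL.C (nat_lit 0x2ebbab1) (nat_lit 0x0) (nat_lit 0x606fe4224cad68)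
  (PL.C (nat_lit 0x2ebcb68) (nat_lit 0x0) (nat_lit 0xa858abf12726b)
  (PL.C (nat_lit 0x2ee5c3a) (nat_lit 0x71662c27fc6221) (nat_lit 0x0)
  (PL.C (nat_lit 0x2efd3c6) (nat_lit 0x10d64ebf1def2c) (nat_lit 0x0)
  (PL.C (nat_lit 0x2f18b8f) (nat_lit 0x0) (nat_lit 0xeba4335f12a1a4)
  (PL.C (nat_lit 0x2f23b58) (nat_lit 0x774c34964caad) (nat_lit 0x0)
  (PL.C (nat_lit 0x2f3b026) (nat_lit 0x0) (nat_lit 0xb7eda14b5f3835)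
  (PL.C (nat_lit 0x2f560a7) (nat_lit 0x0) (nat_lit 0x1ac1a40cfb11a6) gp0_0_124))))))))))))))))))))

noncomputable def gp0_0_122 : PL :=
  (PL.C (nat_lit 0x2c5dc83) (nat_lit 0x8fc1fe619372623) (nat_lit 0x0)
  (PL.C (nat_lit 0x2c674c2) (nat_lit 0x62f0ad98ff356d) (nat_lit 0x0)
  (PL.C (nat_lit 0x2c6c076) (nat_lit 0x1a534d8b317d150) (nat_lit 0x0)
  (PL.C (nat_lit 0x2c7f29d) (nat_lit 0x54e2af852748bb) (nat_lit 0x0)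
  (PL.C (nat_lit 0x2c84a1e) (nat_lit 0x6ac188cc8c9557) (nat_lit 0x0)
  (PL.C (nat_lit 0x2c92532) (nat_lit 0x1b5d135a8e89b98) (nat_lit 0x0)
  (PL.C (nat_lit 0x2c978bb) (nat_lit 0x0) (nat_lit 0x3416f095b611ab)
  (PL.C (nat_lit 0x2cb1e82) (nat_lit 0x100b670d34296e) (nat_lit 0x0)
  (PL.C (nat_lit 0x2cb5015) (nat_lit 0x1582708bc3d776f) (nat_lit 0x0)
  (PL.C (nat_lit 0x2cf1d14) (nat_lit 0x0) (nat_lit 0x107ae26b32538)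
  (PL.C (nat_lit 0x2d165c6) (nat_lit 0x18e55972be656a9) (nat_lit 0x0)
  (PL.C (nat_lit 0x2d1dd8a) (nat_lit 0x0) (nat_lit 0x11614630faf3ce)
  (PL.C (nat_lit 0x2d2d9a6) (nat_lit 0x0) (nat_lit 0x16072e39cdc10e8)
  (PL.C (nat_lit 0x2d4a682) (nat_lit 0xb2848c573dbb15) (nat_lit 0x0)
  (PL.C (nat_lit 0x2d5bc16) (nat_lit 0x0) (nat_lit 0x5d033d4db6b63e)
  (PL.C (nat_lit 0x2d79b8a) (nat_lit 0x18e559723d33465) (nat_lit 0x0)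
  (PL.C (nat_lit 0x2d8d0a9) (nat_lit 0x58b81f914bac633) (nat_lit 0x0)
  (PL.C (nat_lit 0x2d9e274) (nat_lit 0x1058feb36e1848) (nat_lit 0x0)
  (PL.C (nat_lit 0x2da0ece) (nat_lit 0x0) (nat_lit 0x641adfd9a4280f)
  (PL.C (nat_lit 0x2da90c5) (nat_lit 0x0) (nat_lit 0x103521c297c7fb0) gp0_0_123))))))))))))))))))))

noncomputable def gp0_0_121 : PL :=
  (PL.C (nat_lit 0x2b5552a) (nat_lit 0x348e3e14c760cf) (nat_lit 0x0)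
  (PL.C (nat_lit 0x2b55955) (nat_lit 0x2642928357428a) (nat_lit 0x0)
  (PL.C (nat_lit 0x2b71f36) (nat_lit 0xf0c177f3be184b) (nat_lit 0x0)
  (PL.C (nat_lit 0x2b7c9e2) (nat_lit 0x0) (nat_lit 0x87caf71a6c9313)
  (PL.C (nat_lit 0x2b84f7e) (nat_lit 0x0) (nat_lit 0x42ea7ac36a7f42)
  (PL.C (nat_lit 0x2b8f597) (nat_lit 0x0) (nat_lit 0x25ab1a3c489c75)
  (PL.C (nat_lit 0x2b9261e) (nat_lit 0x1a3becd10ba027) (nat_lit 0x0)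
  (PL.C (nat_lit 0x2ba8d7e) (nat_lit 0x4bc1be8c1d9636) (nat_lit 0x0)
  (PL.C (nat_lit 0x2babdeb) (nat_lit 0x0) (nat_lit 0x276aa493317f154)
  (PL.C (nat_lit 0x2bc8a0c) (nat_lit 0x0) (nat_lit 0x3eda7935746d07)
  (PL.C (nat_lit 0x2bd74dc) (nat_lit 0x4445bb7abb1f9b) (nat_lit 0x0)
  (PL.C (nat_lit 0x2bea302) (nat_lit 0x0) (nat_lit 0xa8bad75d73ae2b)
  (PL.C (nat_lit 0x2bf2672) (nat_lit 0x0) (nat_lit 0x5cd548917b5020)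
  (PL.C (nat_lit 0x2c189a3) (nat_lit 0x15d6a362703f908) (nat_lit 0x0)
  (PL.C (nat_lit 0x2c1ce16) (nat_lit 0x0) (nat_lit 0x24876c22e93fb32)
  (PL.C (nat_lit 0x2c20239) (nat_lit 0xf85a29d97da8a3) (nat_lit 0x0)
  (PL.C (nat_lit 0x2c235d2) (nat_lit 0x4b3711ed115907) (nat_lit 0x0)
  (PL.C (nat_lit 0x2c2dc72) (nat_lit 0x0) (nat_lit 0x1603fe3ff50940c)
  (PL.C (nat_lit 0x2c4af6e) (nat_lit 0x0) (nat_lit 0xdf120a494fd74d)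
  (PL.C (nat_lit 0x2c56506) (nat_lit 0x0) (nat_lit 0x3efeb4ef0e9f34) gp0_0_122))))))))))))))))))))

noncomputable def gp0_0_120 : PL :=
  (PL.C (nat_lit 0x29e0b09) (nat_lit 0x0) (nat_lit 0x1ac1a3fc8e1967)
  (PL.C (nat_lit 0x29e477e) (nat_lit 0x0) (nat_lit 0x17944360416a0a7)
  (PL.C (nat_lit 0x29eb0c4) (nat_lit 0x0) (nat_lit 0x5531529297f1a9)
  (PL.C (nat_lit 0x2a0e7b6) (nat_lit 0x0) (nat_lit 0x428c87b0e08526)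
  (PL.C (nat_lit 0x2a34137) (nat_lit 0x0) (nat_lit 0xa1e103a79687a)
  (PL.C (nat_lit 0x2a3e83c) (nat_lit 0x0) (nat_lit 0x14f61173a267ba7)
  (PL.C (nat_lit 0x2a56d04) (nat_lit 0x8479dc5862136) (nat_lit 0x0)
  (PL.C (nat_lit 0x2a5e0cc) (nat_lit 0x0) (nat_lit 0x6c07597feb6877)
  (PL.C (nat_lit 0x2a63c75) (nat_lit 0x0) (nat_lit 0x18442f432af1b5)
  (PL.C (nat_lit 0x2a704ca) (nat_lit 0x0) (nat_lit 0x500a95516c7914)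
  (PL.C (nat_lit 0x2a81441) (nat_lit 0x0) (nat_lit 0x41e07b202e7af8)
  (PL.C (nat_lit 0x2ab254b) (nat_lit 0x94b9f4880a8e46) (nat_lit 0x0)
  (PL.C (nat_lit 0x2adeef7) (nat_lit 0x0) (nat_lit 0x9927e77cda9b39)
  (PL.C (nat_lit 0x2b17d47) (nat_lit 0x30b68898f4a37a) (nat_lit 0x0)
  (PL.C (nat_lit 0x2b2af29) (nat_lit 0x0) (nat_lit 0xf058ca704370b)
  (PL.C (nat_lit 0x2b344c9) (nat_lit 0x0) (nat_lit 0x21bed6ce319def)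
  (PL.C (nat_lit 0x2b3efc4) (nat_lit 0x0) (nat_lit 0x91f871185b6d8)
  (PL.C (nat_lit 0x2b3fad6) (nat_lit 0x0) (nat_lit 0x94bf8a23d81c93)
  (PL.C (nat_lit 0x2b44492) (nat_lit 0x11e1ec3c4ef6a38) (nat_lit 0x0)
  (PL.C (nat_lit 0x2b4d267) (nat_lit 0x0) (nat_lit 0x40449e287973b2) gp0_0_121))))))))))))))))))))

noncomputable def gp0_0_119 : PL :=
  (PL.C (nat_lit 0x28f273c) (nat_lit 0x0) (nat_lit 0xb4e85f18c047c5)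
  (PL.C (nat_lit 0x28f73fa) (nat_lit 0x0) (nat_lit 0x21a92be4f3d38b0)
  (PL.C (nat_lit 0x290bc06) (nat_lit 0x2a4d67e38fd811) (nat_lit 0x0)
  (PL.C (nat_lit 0x2923c2f) (nat_lit 0x0) (nat_lit 0x135e68c6860593ed)
  (PL.C (nat_lit 0x2930f8e) (nat_lit 0x0) (nat_lit 0x130d87d1a6a3973)
  (PL.C (nat_lit 0x2942b71) (nat_lit 0x0) (nat_lit 0xdd0f72be3c00f)
  (PL.C (nat_lit 0x2945816) (nat_lit 0x0) (nat_lit 0x504c49c8806cce)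
  (PL.C (nat_lit 0x29547ba) (nat_lit 0x129b5a84903d3b) (nat_lit 0x0)
  (PL.C (nat_lit 0x2957fc1) (nat_lit 0x2127d707125f50) (nat_lit 0x0)
  (PL.C (nat_lit 0x296634a) (nat_lit 0x14eb3ddae006b) (nat_lit 0x0)
  (PL.C (nat_lit 0x2971c4a) (nat_lit 0x0) (nat_lit 0x1363c85751f6dd)
  (PL.C (nat_lit 0x2972a0c) (nat_lit 0x0) (nat_lit 0x1c348e96e725a0)
  (PL.C (nat_lit 0x29875f4) (nat_lit 0xf8d878b417e35) (nat_lit 0x0)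
  (PL.C (nat_lit 0x298f75c) (nat_lit 0x6b5e82c0597372) (nat_lit 0x0)
  (PL.C (nat_lit 0x29914a5) (nat_lit 0x0) (nat_lit 0x2203d0a9f538a25)
  (PL.C (nat_lit 0x299faa2) (nat_lit 0x0) (nat_lit 0xf62a36961f287)
  (PL.C (nat_lit 0x29b7ba2) (nat_lit 0x0) (nat_lit 0x5154cb2eece7502)
  (PL.C (nat_lit 0x29bf6f4) (nat_lit 0x0) (nat_lit 0x417c5815752f9c)
  (PL.C (nat_lit 0x29d2abd) (nat_lit 0x0) (nat_lit 0x90aeacb5d53dd)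
  (PL.C (nat_lit 0x29d8c7e) (nat_lit 0x0) (nat_lit 0x18b8360db22a351) gp0_0_120))))))))))))))))))))

noncomputable def gp0_0_118 : PL :=
  (PL.C (nat_lit 0x27b0e3e) (nat_lit 0x0) (nat_lit 0xaa64fb16ed18d)
  (PL.C (nat_lit 0x27c1c0b) (nat_lit 0x0) (nat_lit 0x2e82109a96e9406)
  (PL.C (nat_lit 0x27d85d8) (nat_lit 0x0) (nat_lit 0x3cdab02110d1a8)
  (PL.C (nat_lit 0x27e683e) (nat_lit 0x0) (nat_lit 0x24876c23575fa19)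
  (PL.C (nat_lit 0x27e9874) (nat_lit 0x0) (nat_lit 0x9515d48904e40c)
  (PL.C (nat_lit 0x27fa7c2) (nat_lit 0x2566aa558ab75f) (nat_lit 0x0)
  (PL.C (nat_lit 0x281a76e) (nat_lit 0x238ca4269f8927) (nat_lit 0x0)
  (PL.C (nat_lit 0x282c8e9) (nat_lit 0x0) (nat_lit 0x1da674e2ae3bae1)
  (PL.C (nat_lit 0x282e892) (nat_lit 0x0) (nat_lit 0x746c0047c1df72)
  (PL.C (nat_lit 0x284914e) (nat_lit 0x0) (nat_lit 0xe73ba3da968692)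
  (PL.C (nat_lit 0x2850bea) (nat_lit 0x0) (nat_lit 0x63e420915bc186)
  (PL.C (nat_lit 0x286e184) (nat_lit 0x0) (nat_lit 0x7565638f3e3b35)
  (PL.C (nat_lit 0x287795a) (nat_lit 0x0) (nat_lit 0x6c2a625f1bf9c4)
  (PL.C (nat_lit 0x287bfb6) (nat_lit 0xccc40202997b1) (nat_lit 0x0)
  (PL.C (nat_lit 0x288715e) (nat_lit 0x7354acdc1bfe30) (nat_lit 0x0)
  (PL.C (nat_lit 0x28a1dc2) (nat_lit 0x0) (nat_lit 0x4b04929a688344)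
  (PL.C (nat_lit 0x28b31f5) (nat_lit 0x0) (nat_lit 0x4f5dde50353e4c)
  (PL.C (nat_lit 0x28c22ea) (nat_lit 0x39d957735538a31) (nat_lit 0x0)
  (PL.C (nat_lit 0x28e39cf) (nat_lit 0x0) (nat_lit 0x2f95b8a865b2bf)
  (PL.C (nat_lit 0x28e4bec) (nat_lit 0x0) (nat_lit 0x23a75e81cedaef) gp0_0_119))))))))))))))))))))

noncomputable def gp0_0_117 : PL :=
  (PL.C (nat_lit 0x26c8011) (nat_lit 0xbd878d68a607e) (nat_lit 0x0)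
  (PL.C (nat_lit 0x26cdab6) (nat_lit 0xd496b6ee91920a) (nat_lit 0x0)
  (PL.C (nat_lit 0x26d500d) (nat_lit 0x0) (nat_lit 0xb27b57a18424e)
  (PL.C (nat_lit 0x26ef1f2) (nat_lit 0x0) (nat_lit 0x67a39851679a4c1)
  (PL.C (nat_lit 0x26ff799) (nat_lit 0x27258eb5542763f) (nat_lit 0x0)
  (PL.C (nat_lit 0x2712314) (nat_lit 0x0) (nat_lit 0xb4e85f2c890f2d)
  (PL.C (nat_lit 0x2717cba) (nat_lit 0xca928f806beaf) (nat_lit 0x0)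
  (PL.C (nat_lit 0x271ba41) (nat_lit 0x3a97f9ee7bee8) (nat_lit 0x0)
  (PL.C (nat_lit 0x2722533) (nat_lit 0x0) (nat_lit 0x78ef1b2408c8a)
  (PL.C (nat_lit 0x27371d4) (nat_lit 0x0) (nat_lit 0x1616ebc9a2ca90)
  (PL.C (nat_lit 0x27397da) (nat_lit 0x238ca4172dead0) (nat_lit 0x0)
  (PL.C (nat_lit 0x2742894) (nat_lit 0x3a9801ff39feef) (nat_lit 0x0)
  (PL.C (nat_lit 0x275a2b2) (nat_lit 0x0) (nat_lit 0xaa64fb167ad6b)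
  (PL.C (nat_lit 0x276461c) (nat_lit 0x0) (nat_lit 0x238f34472704b4)
  (PL.C (nat_lit 0x2773335) (nat_lit 0xc17f7f9c90d949) (nat_lit 0x0)
  (PL.C (nat_lit 0x27814e8) (nat_lit 0x0) (nat_lit 0x3cdab026bc26df)
  (PL.C (nat_lit 0x2783c2b) (nat_lit 0x939c9ee65bc63) (nat_lit 0x0)
  (PL.C (nat_lit 0x2783fce) (nat_lit 0x6e2adb7acfeec9) (nat_lit 0x0)
  (PL.C (nat_lit 0x278d88c) (nat_lit 0x0) (nat_lit 0x18512915455c0b)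
  (PL.C (nat_lit 0x279252c) (nat_lit 0x64ab3b95932473) (nat_lit 0x0) gp0_0_118))))))))))))))))))))

noncomputable def gp0_0_116 : PL :=
  (PL.C (nat_lit 0x25a017a) (nat_lit 0x0) (nat_lit 0x63e4209c5a4cb4)
  (PL.C (nat_lit 0x25bac0a) (nat_lit 0x1240dc4b3c3c6c) (nat_lit 0x0)
  (PL.C (nat_lit 0x25c2e24) (nat_lit 0x7d8940b3929783) (nat_lit 0x0)
  (PL.C (nat_lit 0x25c7662) (nat_lit 0x0) (nat_lit 0xdffada100706bf)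
  (PL.C (nat_lit 0x25cb552) (nat_lit 0x0) (nat_lit 0x20ab3e478fd68a3)
  (PL.C (nat_lit 0x25d4489) (nat_lit 0x1214bd83939bf7) (nat_lit 0x0)
  (PL.C (nat_lit 0x25e83cb) (nat_lit 0x0) (nat_lit 0x134ff995d8e96d8)
  (PL.C (nat_lit 0x25eb61c) (nat_lit 0x0) (nat_lit 0x1c348ea5e8255d)
  (PL.C (nat_lit 0x25fc8a2) (nat_lit 0x0) (nat_lit 0x8d7ffa61a84d2a)
  (PL.C (nat_lit 0x261387e) (nat_lit 0x13dee46aae28388) (nat_lit 0x0)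
  (PL.C (nat_lit 0x26232be) (nat_lit 0x0) (nat_lit 0x3f21b78b114cfa)
  (PL.C (nat_lit 0x2625d0b) (nat_lit 0x2502dc6ab2dccdd) (nat_lit 0x0)
  (PL.C (nat_lit 0x262ff46) (nat_lit 0x0) (nat_lit 0x2eb98bff7d8014b)
  (PL.C (nat_lit 0x2640675) (nat_lit 0x0) (nat_lit 0x346fe09741e5b9)
  (PL.C (nat_lit 0x26451ae) (nat_lit 0x0) (nat_lit 0x4034d65e1eb399)
  (PL.C (nat_lit 0x269e95f) (nat_lit 0x0) (nat_lit 0x97b399f3abc719)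
  (PL.C (nat_lit 0x26a2f74) (nat_lit 0x0) (nat_lit 0x2b89ffd21a577b)
  (PL.C (nat_lit 0x26a48c3) (nat_lit 0x0) (nat_lit 0x55815fe4af802)
  (PL.C (nat_lit 0x26c2616) (nat_lit 0x0) (nat_lit 0x4bd19c639637d9)
  (PL.C (nat_lit 0x26c4fec) (nat_lit 0x79c7940475e604) (nat_lit 0x0) gp0_0_117))))))))))))))))))))

noncomputable def gp0_0_115 : PL :=
  (PL.C (nat_lit 0x249a572) (nat_lit 0x0) (nat_lit 0x1f5ea5993c21e)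
  (PL.C (nat_lit 0x24aca8e) (nat_lit 0x0) (nat_lit 0x1638c95de8b39a)
  (PL.C (nat_lit 0x24bebe8) (nat_lit 0x0) (nat_lit 0x8f31f3813711dc)
  (PL.C (nat_lit 0x24da97f) (nat_lit 0x0) (nat_lit 0x41592396baf3c8)
  (PL.C (nat_lit 0x24daff6) (nat_lit 0x0) (nat_lit 0x621e52967e5fdb)
  (PL.C (nat_lit 0x24dd8d7) (nat_lit 0x0) (nat_lit 0x33c742c2e6974a0)
  (PL.C (nat_lit 0x24e6abc) (nat_lit 0x0) (nat_lit 0xa9580c2a80190)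
  (PL.C (nat_lit 0x24e759e) (nat_lit 0x63f09244325c90) (nat_lit 0x0)
  (PL.C (nat_lit 0x24fd13c) (nat_lit 0x0) (nat_lit 0x1eb50d628a1dbf)
  (PL.C (nat_lit 0x2502e2e) (nat_lit 0x0) (nat_lit 0x2f2b4304e72ec)
  (PL.C (nat_lit 0x250c599) (nat_lit 0x0) (nat_lit 0x1de4e133f181b)
  (PL.C (nat_lit 0x251228a) (nat_lit 0x0) (nat_lit 0xf3e7776cc8c551)
  (PL.C (nat_lit 0x2531b82) (nat_lit 0x0) (nat_lit 0x218b9c06a17f3ed)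
  (PL.C (nat_lit 0x253956f) (nat_lit 0x0) (nat_lit 0xed142fe786678)
  (PL.C (nat_lit 0x254096d) (nat_lit 0xfec88559bf83e7) (nat_lit 0x0)
  (PL.C (nat_lit 0x254c952) (nat_lit 0x0) (nat_lit 0xb68527b0f2ec3)
  (PL.C (nat_lit 0x2562252) (nat_lit 0x0) (nat_lit 0x108d085a56804d5)
  (PL.C (nat_lit 0x2563da6) (nat_lit 0x0) (nat_lit 0xa8bad7f42fcecf)
  (PL.C (nat_lit 0x2574dae) (nat_lit 0x0) (nat_lit 0xdffada0062d737)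
  (PL.C (nat_lit 0x258a3ce) (nat_lit 0x26b230cad5d730) (nat_lit 0x0) gp0_0_116))))))))))))))))))))

noncomputable def gp0_0_114 : PL :=
  (PL.C (nat_lit 0x235d1f6) (nat_lit 0x0) (nat_lit 0x1c7f6185db135ba)
  (PL.C (nat_lit 0x2362ad4) (nat_lit 0x131eda67da062ca) (nat_lit 0x0)
  (PL.C (nat_lit 0x2368f9e) (nat_lit 0x0) (nat_lit 0x98e608d8e798e)
  (PL.C (nat_lit 0x23783a9) (nat_lit 0x0) (nat_lit 0x11c2c6fd0841155)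
  (PL.C (nat_lit 0x237a9f2) (nat_lit 0x0) (nat_lit 0x3efeb4e18a11c1)
  (PL.C (nat_lit 0x238c60e) (nat_lit 0x0) (nat_lit 0x10284e8c7370a6)
  (PL.C (nat_lit 0x23a12c3) (nat_lit 0x0) (nat_lit 0x388e5f968fd5f97)
  (PL.C (nat_lit 0x23a16ac) (nat_lit 0x16e270b0379b41) (nat_lit 0x0)
  (PL.C (nat_lit 0x23a922c) (nat_lit 0x479cdaa1b3545e) (nat_lit 0x0)
  (PL.C (nat_lit 0x23aed21) (nat_lit 0x106c845b9cf8b49) (nat_lit 0x0)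
  (PL.C (nat_lit 0x23c49bc) (nat_lit 0x233088e4cc4d607) (nat_lit 0x0)
  (PL.C (nat_lit 0x23c664f) (nat_lit 0x4a6ad4e672ceeb) (nat_lit 0x0)
  (PL.C (nat_lit 0x23cf8fb) (nat_lit 0x0) (nat_lit 0x8acdb8cba5b8d)
  (PL.C (nat_lit 0x23d516f) (nat_lit 0x7890c3e764caa6) (nat_lit 0x0)
  (PL.C (nat_lit 0x2400081) (nat_lit 0x3bb1f5b5b63ec1) (nat_lit 0x0)
  (PL.C (nat_lit 0x240bd44) (nat_lit 0x227850ffb0fbfb9) (nat_lit 0x0)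
  (PL.C (nat_lit 0x243df26) (nat_lit 0x1526adb62a6ef2d) (nat_lit 0x0)
  (PL.C (nat_lit 0x246e758) (nat_lit 0xc6aac7f341348) (nat_lit 0x0)
  (PL.C (nat_lit 0x2470b8d) (nat_lit 0x0) (nat_lit 0x37e41e2c57f1c6)
  (PL.C (nat_lit 0x2494b69) (nat_lit 0x337c231817d8ddc) (nat_lit 0x0) gp0_0_115))))))))))))))))))))

noncomputable def gp0_0_113 : PL :=
  (PL.C (nat_lit 0x224f7d4) (nat_lit 0x0) (nat_lit 0x1e8ab0199a808d)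
  (PL.C (nat_lit 0x225d954) (nat_lit 0x0) (nat_lit 0x640aeb01367c2)
  (PL.C (nat_lit 0x225ff72) (nat_lit 0x1815f290528133) (nat_lit 0x0)
  (PL.C (nat_lit 0x2290d2c) (nat_lit 0x70c504b300233) (nat_lit 0x0)
  (PL.C (nat_lit 0x22a950c) (nat_lit 0x0) (nat_lit 0x17d02852830b13)
  (PL.C (nat_lit 0x22abb7e) (nat_lit 0x0) (nat_lit 0x963ceaa274e6ce)
  (PL.C (nat_lit 0x22d6eee) (nat_lit 0x0) (nat_lit 0x1557c0d0fc2306)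
  (PL.C (nat_lit 0x22e6885) (nat_lit 0x0) (nat_lit 0x70c533417872f1)
  (PL.C (nat_lit 0x22edf32) (nat_lit 0xac45b3050c11d2) (nat_lit 0x0)
  (PL.C (nat_lit 0x22ee823) (nat_lit 0x94b9f484cf248b) (nat_lit 0x0)
  (PL.C (nat_lit 0x22f23b1) (nat_lit 0x0) (nat_lit 0x33c742c8f5f6840)
  (PL.C (nat_lit 0x23093e4) (nat_lit 0x26ae568d4ce312) (nat_lit 0x0)
  (PL.C (nat_lit 0x2313f8d) (nat_lit 0x0) (nat_lit 0x24a490ec72f814)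
  (PL.C (nat_lit 0x23155cc) (nat_lit 0x14683374f5031c4) (nat_lit 0x0)
  (PL.C (nat_lit 0x23171d3) (nat_lit 0x7ae2f68184d462) (nat_lit 0x0)
  (PL.C (nat_lit 0x23230aa) (nat_lit 0xac7699578bd8ab) (nat_lit 0x0)
  (PL.C (nat_lit 0x2326797) (nat_lit 0x0) (nat_lit 0x14103d1494aa4b)
  (PL.C (nat_lit 0x23375aa) (nat_lit 0x15e7e1d0f9543bb) (nat_lit 0x0)
  (PL.C (nat_lit 0x233ddc4) (nat_lit 0x7ff1e6e3b2fde8) (nat_lit 0x0)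
  (PL.C (nat_lit 0x2359eed) (nat_lit 0x9f3e9e3c5fd2a) (nat_lit 0x0) gp0_0_114))))))))))))))))))))

noncomputable def gp0_0_112 : PL :=
  (PL.C (nat_lit 0x218402c) (nat_lit 0x479cdaab037ef5) (nat_lit 0x0)
  (PL.C (nat_lit 0x2186491) (nat_lit 0x0) (nat_lit 0x97f4538e167df07)
  (PL.C (nat_lit 0x2189a98) (nat_lit 0x0) (nat_lit 0x5e7c96c6b2f03)
  (PL.C (nat_lit 0x218ae0a) (nat_lit 0x0) (nat_lit 0xaa223e2f2d0be)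
  (PL.C (nat_lit 0x219b2fe) (nat_lit 0x0) (nat_lit 0x8d7ffa62c27785)
  (PL.C (nat_lit 0x219e7f9) (nat_lit 0x0) (nat_lit 0xb17fb1798d28db)
  (PL.C (nat_lit 0x21b828a) (nat_lit 0xa12357db120e10) (nat_lit 0x0)
  (PL.C (nat_lit 0x21bfef4) (nat_lit 0x1c3a290fb318a01) (nat_lit 0x0)
  (PL.C (nat_lit 0x21cca17) (nat_lit 0x0) (nat_lit 0x30d3955de75bcc)
  (PL.C (nat_lit 0x21e9c4d) (nat_lit 0x0) (nat_lit 0x618d77d74a9cab3)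
  (PL.C (nat_lit 0x21f8013) (nat_lit 0xd33ffb29e01a) (nat_lit 0x0)
  (PL.C (nat_lit 0x2208512) (nat_lit 0x1b5d135a8d63103) (nat_lit 0x0)
  (PL.C (nat_lit 0x221ecce) (nat_lit 0x0) (nat_lit 0x1e21a8f07641d3e)
  (PL.C (nat_lit 0x221ffcc) (nat_lit 0x0) (nat_lit 0x1ad28a96b5a6f1)
  (PL.C (nat_lit 0x2227c94) (nat_lit 0x7ff1e6f461ce02) (nat_lit 0x0)
  (PL.C (nat_lit 0x222cd0e) (nat_lit 0x0) (nat_lit 0x14bc533b1a575e)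
  (PL.C (nat_lit 0x22326d2) (nat_lit 0x0) (nat_lit 0x1c7f6182ab50efb)
  (PL.C (nat_lit 0x2238456) (nat_lit 0x0) (nat_lit 0xc018ac306d7394)
  (PL.C (nat_lit 0x224702d) (nat_lit 0x0) (nat_lit 0x21bed6d98f2a77)
  (PL.C (nat_lit 0x224c6ac) (nat_lit 0xc7109140c8080) (nat_lit 0x0) gp0_0_113))))))))))))))))))))

noncomputable def gp0_0_111 : PL :=
  (PL.C (nat_lit 0x20a7b12) (nat_lit 0x0) (nat_lit 0x16de78aaad93b68)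
  (PL.C (nat_lit 0x20a9c93) (nat_lit 0xfa212e1bc9aad2) (nat_lit 0x0)
  (PL.C (nat_lit 0x20af5b5) (nat_lit 0x0) (nat_lit 0xc8cdd7272ebab)
  (PL.C (nat_lit 0x20bbe07) (nat_lit 0x0) (nat_lit 0x41e07b181ce972)
  (PL.C (nat_lit 0x20d1809) (nat_lit 0x5428e9be178ca) (nat_lit 0x0)
  (PL.C (nat_lit 0x20eb9bd) (nat_lit 0x0) (nat_lit 0x135e68c6383ad798)
  (PL.C (nat_lit 0x20f6886) (nat_lit 0x6ac188cab6da84) (nat_lit 0x0)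
  (PL.C (nat_lit 0x2107866) (nat_lit 0x0) (nat_lit 0x116146543651cf)
  (PL.C (nat_lit 0x2116785) (nat_lit 0x337c231a1f25dbc) (nat_lit 0x0)
  (PL.C (nat_lit 0x212707b) (nat_lit 0x1a03829276a06ca) (nat_lit 0x0)
  (PL.C (nat_lit 0x21381eb) (nat_lit 0x1aacc764de8b974) (nat_lit 0x0)
  (PL.C (nat_lit 0x2139f4b) (nat_lit 0x14d9c6cbb06f84) (nat_lit 0x0)
  (PL.C (nat_lit 0x213f2ca) (nat_lit 0x4b3711e6d55878) (nat_lit 0x0)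
  (PL.C (nat_lit 0x2140628) (nat_lit 0x0) (nat_lit 0x6c7c28b2e64acb)
  (PL.C (nat_lit 0x214d4c9) (nat_lit 0x0) (nat_lit 0x3f538b4fe2dd72)
  (PL.C (nat_lit 0x2154732) (nat_lit 0x0) (nat_lit 0xcd8527b56a5f76)
  (PL.C (nat_lit 0x215b786) (nat_lit 0x0) (nat_lit 0x2bc2bcd1a6da02c)
  (PL.C (nat_lit 0x2161c65) (nat_lit 0x0) (nat_lit 0x1432eba7824d77)
  (PL.C (nat_lit 0x217016d) (nat_lit 0xa2b11617972be) (nat_lit 0x0)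
  (PL.C (nat_lit 0x217a1f6) (nat_lit 0x0) (nat_lit 0x112d686557521) gp0_0_112))))))))))))))))))))

noncomputable def gp0_0_110 : PL :=
  (PL.C (nat_lit 0x200d45c) (nat_lit 0x0) (nat_lit 0x7c57f4adcdeefc)
  (PL.C (nat_lit 0x200edf7) (nat_lit 0x408fb2dd49c9cc) (nat_lit 0x0)
  (PL.C (nat_lit 0x201b142) (nat_lit 0x0) (nat_lit 0x1f5ea567acc4c)
  (PL.C (nat_lit 0x2023fbc) (nat_lit 0x1058feb68e1ab7) (nat_lit 0x0)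
  (PL.C (nat_lit 0x20246f6) (nat_lit 0x5f2368fb7cd379) (nat_lit 0x0)
  (PL.C (nat_lit 0x2031a36) (nat_lit 0x89fac98190ba0) (nat_lit 0x0)
  (PL.C (nat_lit 0x203a2f7) (nat_lit 0x64593716e5e2da) (nat_lit 0x0)
  (PL.C (nat_lit 0x203b028) (nat_lit 0x0) (nat_lit 0x8f31f384c6a99e)
  (PL.C (nat_lit 0x203c6de) (nat_lit 0x0) (nat_lit 0x2eb98c03dfbbe84)
  (PL.C (nat_lit 0x204a509) (nat_lit 0x0) (nat_lit 0x25aff88c75f615b)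
  (PL.C (nat_lit 0x205a3cc) (nat_lit 0x13f0c39a15e123d) (nat_lit 0x0)
  (PL.C (nat_lit 0x205cbf9) (nat_lit 0x3a97f9c4063e3) (nat_lit 0x0)
  (PL.C (nat_lit 0x206424f) (nat_lit 0x77235f5a9fb828) (nat_lit 0x0)
  (PL.C (nat_lit 0x20745b1) (nat_lit 0x0) (nat_lit 0x7c7fc873b0d8d2)
  (PL.C (nat_lit 0x207cef4) (nat_lit 0x3a9801fa5dc2c5) (nat_lit 0x0)
  (PL.C (nat_lit 0x207d642) (nat_lit 0x0) (nat_lit 0x7c9d2bacc0f0229)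
  (PL.C (nat_lit 0x2082098) (nat_lit 0xc6aac7496fcbd) (nat_lit 0x0)
  (PL.C (nat_lit 0x2089cbf) (nat_lit 0x94a7f4d56ed30) (nat_lit 0x0)
  (PL.C (nat_lit 0x2099d1b) (nat_lit 0x0) (nat_lit 0x5a3c7caca30726)
  (PL.C (nat_lit 0x209d844) (nat_lit 0x1f85f931f0d59) (nat_lit 0x0) gp0_0_111))))))))))))))))))))

noncomputable def gp0_0_109 : PL :=
  (PL.C (nat_lit 0x1f27096) (nat_lit 0x0) (nat_lit 0x49f44caf2a868b)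
  (PL.C (nat_lit 0x1f27c76) (nat_lit 0x2c28ff35f1fb0d6) (nat_lit 0x0)
  (PL.C (nat_lit 0x1f43d7c) (nat_lit 0x0) (nat_lit 0x4723ea47db19f7)
  (PL.C (nat_lit 0x1f50c09) (nat_lit 0x0) (nat_lit 0x78ef1b2bcc619)
  (PL.C (nat_lit 0x1f57593) (nat_lit 0x0) (nat_lit 0x4c82166b473529)
  (PL.C (nat_lit 0x1f65d0a) (nat_lit 0xa5548caf6c24cee) (nat_lit 0x0)
  (PL.C (nat_lit 0x1f725e1) (nat_lit 0x3a8f6a013651cf1) (nat_lit 0x0)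
  (PL.C (nat_lit 0x1f7cac4) (nat_lit 0x0) (nat_lit 0x1f7b9688e3cbf15)
  (PL.C (nat_lit 0x1f8eb1a) (nat_lit 0x0) (nat_lit 0x2d8fe808cb6915)
  (PL.C (nat_lit 0x1fae6f5) (nat_lit 0x2452939ee6e730) (nat_lit 0x0)
  (PL.C (nat_lit 0x1fb5bda) (nat_lit 0xaaed281f7cd2d) (nat_lit 0x0)
  (PL.C (nat_lit 0x1fbbb9c) (nat_lit 0x13584ff583215b2) (nat_lit 0x0)
  (PL.C (nat_lit 0x1fc8d41) (nat_lit 0x10743e43268169) (nat_lit 0x0)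
  (PL.C (nat_lit 0x1fd113e) (nat_lit 0x497e379eb23717) (nat_lit 0x0)
  (PL.C (nat_lit 0x1fddc24) (nat_lit 0x3a11f88f94d067) (nat_lit 0x0)
  (PL.C (nat_lit 0x1fe05b4) (nat_lit 0x7d8940bbefd886) (nat_lit 0x0)
  (PL.C (nat_lit 0x1fed84b) (nat_lit 0x0) (nat_lit 0x6b046e3c1c9d95)
  (PL.C (nat_lit 0x1ff9bf9) (nat_lit 0x0) (nat_lit 0x240aeccdad2baf)
  (PL.C (nat_lit 0x1fffe37) (nat_lit 0x103640b97cc65c1) (nat_lit 0x0)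
  (PL.C (nat_lit 0x2001a84) (nat_lit 0x14683373b47d1e6) (nat_lit 0x0) gp0_0_110))))))))))))))))))))

noncomputable def gp0_0_108 : PL :=
  (PL.C (nat_lit 0x1e331cb) (nat_lit 0x36fb5760469e232) (nat_lit 0x0)
  (PL.C (nat_lit 0x1e49a7f) (nat_lit 0x7a59b11cd47418) (nat_lit 0x0)
  (PL.C (nat_lit 0x1e5125c) (nat_lit 0xf781548c7b221e) (nat_lit 0x0)
  (PL.C (nat_lit 0x1e63c45) (nat_lit 0x26be6c861030039) (nat_lit 0x0)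
  (PL.C (nat_lit 0x1e696f8) (nat_lit 0xac7be9c24f3d2) (nat_lit 0x0)
  (PL.C (nat_lit 0x1e70b2e) (nat_lit 0x0) (nat_lit 0x6578efe33dd001)
  (PL.C (nat_lit 0x1e794cd) (nat_lit 0xd1b50bde2fa26) (nat_lit 0x0)
  (PL.C (nat_lit 0x1e7fde2) (nat_lit 0x13172d658591e95) (nat_lit 0x0)
  (PL.C (nat_lit 0x1e86b11) (nat_lit 0x2112c3c6876559e) (nat_lit 0x0)
  (PL.C (nat_lit 0x1e8c8a8) (nat_lit 0x0) (nat_lit 0x8aff754a8f565)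
  (PL.C (nat_lit 0x1e8f21e) (nat_lit 0x0) (nat_lit 0x1a591dfae92e8e)
  (PL.C (nat_lit 0x1ea093e) (nat_lit 0x0) (nat_lit 0x19f07d5ba4ae1f)
  (PL.C (nat_lit 0x1ea4e02) (nat_lit 0x26b230c9dcf232) (nat_lit 0x0)
  (PL.C (nat_lit 0x1ea50d4) (nat_lit 0x0) (nat_lit 0x6d76ebb7eb4f8c)
  (PL.C (nat_lit 0x1eac748) (nat_lit 0x1fb5d6e1884591) (nat_lit 0x0)
  (PL.C (nat_lit 0x1eacbd9) (nat_lit 0x5c0b9caea627709) (nat_lit 0x0)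
  (PL.C (nat_lit 0x1eae6f9) (nat_lit 0x0) (nat_lit 0xaeded4923e6b6e)
  (PL.C (nat_lit 0x1ec1017) (nat_lit 0x22f840bdd10e45e) (nat_lit 0x0)
  (PL.C (nat_lit 0x1ecda37) (nat_lit 0x0) (nat_lit 0xed1430f54091d)
  (PL.C (nat_lit 0x1efc428) (nat_lit 0x0) (nat_lit 0xf45cf3d3b2c5) gp0_0_109))))))))))))))))))))

noncomputable def gp0_0_107 : PL :=
  (PL.C (nat_lit 0x1d8ee04) (nat_lit 0x0) (nat_lit 0x9d632c80c89ba0)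
  (PL.C (nat_lit 0x1d905a1) (nat_lit 0x11b9237a954c0a) (nat_lit 0x0)
  (PL.C (nat_lit 0x1d9a32c) (nat_lit 0x6aa795c300d372) (nat_lit 0x0)
  (PL.C (nat_lit 0x1d9d5a4) (nat_lit 0x4445bb4c1cafa6) (nat_lit 0x0)
  (PL.C (nat_lit 0x1da66bd) (nat_lit 0x0) (nat_lit 0xb27b58ef3992f)
  (PL.C (nat_lit 0x1daa1be) (nat_lit 0xf46e7ef1c09b75) (nat_lit 0x0)
  (PL.C (nat_lit 0x1dadc14) (nat_lit 0x55984101255841) (nat_lit 0x0)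
  (PL.C (nat_lit 0x1dba5d2) (nat_lit 0xdaf1b3e38bc0f3) (nat_lit 0x0)
  (PL.C (nat_lit 0x1dc4933) (nat_lit 0x6bb48322cd63ab) (nat_lit 0x0)
  (PL.C (nat_lit 0x1dce00e) (nat_lit 0x889f740cf7ace71) (nat_lit 0x0)
  (PL.C (nat_lit 0x1de4caf) (nat_lit 0x0) (nat_lit 0x201a5aedbbf8f5)
  (PL.C (nat_lit 0x1df120d) (nat_lit 0x36fb575fa9d50b6) (nat_lit 0x0)
  (PL.C (nat_lit 0x1df68b8) (nat_lit 0x0) (nat_lit 0xf45cf3d3b2c5)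
  (PL.C (nat_lit 0x1e0a9e9) (nat_lit 0x16701a80c23b912) (nat_lit 0x0)
  (PL.C (nat_lit 0x1e0ee84) (nat_lit 0xf781548c49e742) (nat_lit 0x0)
  (PL.C (nat_lit 0x1e13b0f) (nat_lit 0x645936e747bc9f) (nat_lit 0x0)
  (PL.C (nat_lit 0x1e13e5c) (nat_lit 0x5c727b2bd4d1b) (nat_lit 0x0)
  (PL.C (nat_lit 0x1e1f365) (nat_lit 0xaabacb08ce76ac) (nat_lit 0x0)
  (PL.C (nat_lit 0x1e20511) (nat_lit 0xff80af1a5c92) (nat_lit 0x0)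
  (PL.C (nat_lit 0x1e319ac) (nat_lit 0x132687ab1f90e84) (nat_lit 0x0) gp0_0_108))))))))))))))))))))

noncomputable def gp0_0_106 : PL :=
  (PL.C (nat_lit 0x1cde19a) (nat_lit 0x0) (nat_lit 0x1794436479efd0c)
  (PL.C (nat_lit 0x1ce105f) (nat_lit 0x0) (nat_lit 0x6b046e43a3937e)
  (PL.C (nat_lit 0x1ce3b8e) (nat_lit 0x0) (nat_lit 0x2291a4d940bec3f)
  (PL.C (nat_lit 0x1cef7a1) (nat_lit 0x0) (nat_lit 0xa254f976272e48)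
  (PL.C (nat_lit 0x1cf6a24) (nat_lit 0x301b60a43f8a3b6) (nat_lit 0x0)
  (PL.C (nat_lit 0x1cfdbec) (nat_lit 0x0) (nat_lit 0x7c57f4b23736d8)
  (PL.C (nat_lit 0x1d0a3ba) (nat_lit 0x0) (nat_lit 0x6c2a625cb389b6)
  (PL.C (nat_lit 0x1d0c414) (nat_lit 0x366459ca7e168b) (nat_lit 0x0)
  (PL.C (nat_lit 0x1d0e39f) (nat_lit 0x0) (nat_lit 0x6eaa169a7682e3)
  (PL.C (nat_lit 0x1d18c46) (nat_lit 0x14fae53a582ff3) (nat_lit 0x0)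
  (PL.C (nat_lit 0x1d1d3f2) (nat_lit 0x0) (nat_lit 0xa28ad225e8c085)
  (PL.C (nat_lit 0x1d46cac) (nat_lit 0x0) (nat_lit 0xd696393dc73c6b)
  (PL.C (nat_lit 0x1d4c44c) (nat_lit 0x29c369ec6c3a8) (nat_lit 0x0)
  (PL.C (nat_lit 0x1d65bc2) (nat_lit 0x140870b77320e4c) (nat_lit 0x0)
  (PL.C (nat_lit 0x1d68964) (nat_lit 0xf9c62a5d997446) (nat_lit 0x0)
  (PL.C (nat_lit 0x1d6ac26) (nat_lit 0xd14135a1ec6bbd) (nat_lit 0x0)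
  (PL.C (nat_lit 0x1d6ce8c) (nat_lit 0x31be10108e5694) (nat_lit 0x0)
  (PL.C (nat_lit 0x1d7cdef) (nat_lit 0x0) (nat_lit 0x2e5978194595fe)
  (PL.C (nat_lit 0x1d80035) (nat_lit 0x0) (nat_lit 0x276aa490537f7b4)
  (PL.C (nat_lit 0x1d874f4) (nat_lit 0x0) (nat_lit 0x1cec1cd611db1a8) gp0_0_107))))))))))))))))))))

noncomputable def gp0_0_105 : PL :=
  (PL.C (nat_lit 0x1c22b7a) (nat_lit 0x0) (nat_lit 0xcd8527c4350c89)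
  (PL.C (nat_lit 0x1c23c0f) (nat_lit 0x0) (nat_lit 0x892e98fb4493eb)
  (PL.C (nat_lit 0x1c36581) (nat_lit 0x4f7aaaead25294) (nat_lit 0x0)
  (PL.C (nat_lit 0x1c4284e) (nat_lit 0x0) (nat_lit 0x19f07d7385a067)
  (PL.C (nat_lit 0x1c4addc) (nat_lit 0x0) (nat_lit 0x10b65dec88393ce)
  (PL.C (nat_lit 0x1c4cc95) (nat_lit 0x0) (nat_lit 0x29b7c1dacaf520a6)
  (PL.C (nat_lit 0x1c562d6) (nat_lit 0xd78cf052bbb9de) (nat_lit 0x0)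
  (PL.C (nat_lit 0x1c6139d) (nat_lit 0x0) (nat_lit 0x44e71e5c56f19a)
  (PL.C (nat_lit 0x1c71a1d) (nat_lit 0x0) (nat_lit 0x457008814c407c)
  (PL.C (nat_lit 0x1c76e32) (nat_lit 0x246edadbbaa0f67) (nat_lit 0x0)
  (PL.C (nat_lit 0x1c882b3) (nat_lit 0x0) (nat_lit 0x205611df228778d)
  (PL.C (nat_lit 0x1c90233) (nat_lit 0x709992dc44c2cd) (nat_lit 0x0)
  (PL.C (nat_lit 0x1c949fa) (nat_lit 0x0) (nat_lit 0x5b792ee5713769)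
  (PL.C (nat_lit 0x1ca0c41) (nat_lit 0x52b0c1aba5fd523) (nat_lit 0x0)
  (PL.C (nat_lit 0x1cba8da) (nat_lit 0x304467e515d893) (nat_lit 0x0)
  (PL.C (nat_lit 0x1cc74c6) (nat_lit 0x711b45f4aaaa9) (nat_lit 0x0)
  (PL.C (nat_lit 0x1ccd886) (nat_lit 0x1325d01f6f54c2) (nat_lit 0x0)
  (PL.C (nat_lit 0x1cd51e4) (nat_lit 0x0) (nat_lit 0x417c58000a8911)
  (PL.C (nat_lit 0x1cd5b3a) (nat_lit 0x1e3da86cca109) (nat_lit 0x0)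
  (PL.C (nat_lit 0x1cd830c) (nat_lit 0xb11cbb8712f240) (nat_lit 0x0) gp0_0_106))))))))))))))))))))

noncomputable def gp0_0_104 : PL :=
  (PL.C (nat_lit 0x1b7cdf1) (nat_lit 0x26be6c869f22c47) (nat_lit 0x0)
  (PL.C (nat_lit 0x1b81cf6) (nat_lit 0x0) (nat_lit 0x8f27536b18c38f)
  (PL.C (nat_lit 0x1b8da7c) (nat_lit 0x0) (nat_lit 0x5d8297161aac4a)
  (PL.C (nat_lit 0x1b8f07f) (nat_lit 0x0) (nat_lit 0xd44f31d98b2a1f)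
  (PL.C (nat_lit 0x1b8ffd6) (nat_lit 0xac769950087d82) (nat_lit 0x0)
  (PL.C (nat_lit 0x1b9a59f) (nat_lit 0x939c9e1150582) (nat_lit 0x0)
  (PL.C (nat_lit 0x1ba12dc) (nat_lit 0x0) (nat_lit 0x1393961cb6aaf4)
  (PL.C (nat_lit 0x1ba1c08) (nat_lit 0x0) (nat_lit 0x245a4e6fdefc0)
  (PL.C (nat_lit 0x1bbe6da) (nat_lit 0x0) (nat_lit 0x5d0c17dfbca176)
  (PL.C (nat_lit 0x1bbfc6c) (nat_lit 0x422a166d5e227c) (nat_lit 0x0)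
  (PL.C (nat_lit 0x1bc3aa1) (nat_lit 0x0) (nat_lit 0xcc3eae11bfdb3b)
  (PL.C (nat_lit 0x1bca371) (nat_lit 0x202af46c84f2136) (nat_lit 0x0)
  (PL.C (nat_lit 0x1be1c7e) (nat_lit 0x45bf5923544172) (nat_lit 0x0)
  (PL.C (nat_lit 0x1be3b6b) (nat_lit 0x0) (nat_lit 0x11e5e30f6a6b7a)
  (PL.C (nat_lit 0x1beb206) (nat_lit 0x0) (nat_lit 0x2d8fe7fa7f415a)
  (PL.C (nat_lit 0x1beda54) (nat_lit 0xa213358e1e3794) (nat_lit 0x0)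
  (PL.C (nat_lit 0x1bee659) (nat_lit 0x264292c98534d4) (nat_lit 0x0)
  (PL.C (nat_lit 0x1c00d97) (nat_lit 0x0) (nat_lit 0x134b83b0097e8a3)
  (PL.C (nat_lit 0x1c0acd7) (nat_lit 0x0) (nat_lit 0x13fe4af6ba2eefc)
  (PL.C (nat_lit 0x1c1433b) (nat_lit 0x0) (nat_lit 0x2203d0ac2c09646) gp0_0_105))))))))))))))))))))

noncomputable def gp0_0_103 : PL :=
  (PL.C (nat_lit 0x1ad4c05) (nat_lit 0x408fb2dd4a061a) (nat_lit 0x0)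
  (PL.C (nat_lit 0x1adb634) (nat_lit 0x0) (nat_lit 0x1a4d1bd1724a499)
  (PL.C (nat_lit 0x1aeb981) (nat_lit 0x0) (nat_lit 0x23843b1b4b604c)
  (PL.C (nat_lit 0x1af143b) (nat_lit 0x39e49db1b622564) (nat_lit 0x0)
  (PL.C (nat_lit 0x1afa63c) (nat_lit 0x0) (nat_lit 0x121da9d06d721f)
  (PL.C (nat_lit 0x1afb09e) (nat_lit 0x0) (nat_lit 0x2ff86b1a9507e6)
  (PL.C (nat_lit 0x1afd524) (nat_lit 0x1f85f784a089e) (nat_lit 0x0)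
  (PL.C (nat_lit 0x1b04b94) (nat_lit 0x6b5e82c63b72e8) (nat_lit 0x0)
  (PL.C (nat_lit 0x1b0fe13) (nat_lit 0x10743e3b197ab2) (nat_lit 0x0)
  (PL.C (nat_lit 0x1b1692c) (nat_lit 0x0) (nat_lit 0xea2e69aa324bf4)
  (PL.C (nat_lit 0x1b2214e) (nat_lit 0x0) (nat_lit 0x86157ed3eb429)
  (PL.C (nat_lit 0x1b34713) (nat_lit 0x0) (nat_lit 0x388e5f994a42ff9)
  (PL.C (nat_lit 0x1b367f2) (nat_lit 0x0) (nat_lit 0xc3ceea829e99ca)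
  (PL.C (nat_lit 0x1b3c20d) (nat_lit 0x0) (nat_lit 0x373ae1418e2d71)
  (PL.C (nat_lit 0x1b4268a) (nat_lit 0x0) (nat_lit 0xaed9b6b10c7317)
  (PL.C (nat_lit 0x1b4f7fc) (nat_lit 0x233088e6cc98c1f) (nat_lit 0x0)
  (PL.C (nat_lit 0x1b57dcb) (nat_lit 0x245293b322a9f4) (nat_lit 0x0)
  (PL.C (nat_lit 0x1b5ac69) (nat_lit 0x13484c2ccfee6ec) (nat_lit 0x0)
  (PL.C (nat_lit 0x1b6d2ca) (nat_lit 0x0) (nat_lit 0x2e1a744d02c2a32)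
  (PL.C (nat_lit 0x1b75fb4) (nat_lit 0x0) (nat_lit 0x15f1d072446ceb6) gp0_0_104))))))))))))))))))))

noncomputable def gp0_0_102 : PL :=
  (PL.C (nat_lit 0x19ffa66) (nat_lit 0x6bb389379b2032b) (nat_lit 0x0)
  (PL.C (nat_lit 0x1a00b53) (nat_lit 0x15d6a36299f9345) (nat_lit 0x0)
  (PL.C (nat_lit 0x1a096c7) (nat_lit 0x25d79b06aead9d7) (nat_lit 0x0)
  (PL.C (nat_lit 0x1a126d6) (nat_lit 0x59d5ec31e04401) (nat_lit 0x0)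
  (PL.C (nat_lit 0x1a16e22) (nat_lit 0x52f43b5de65b4a) (nat_lit 0x0)
  (PL.C (nat_lit 0x1a2653c) (nat_lit 0x0) (nat_lit 0x93b7b8a923b08a)
  (PL.C (nat_lit 0x1a2c5b8) (nat_lit 0x0) (nat_lit 0x26c1d7579d0ad)
  (PL.C (nat_lit 0x1a3c1cc) (nat_lit 0x0) (nat_lit 0x1c036befdc2168)
  (PL.C (nat_lit 0x1a3de49) (nat_lit 0xfaa0cd7a6e9d78b) (nat_lit 0x0)
  (PL.C (nat_lit 0x1a4ccce) (nat_lit 0x15e7e1c96b5ddd3) (nat_lit 0x0)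
  (PL.C (nat_lit 0x1a57d72) (nat_lit 0x4d195200bd7735) (nat_lit 0x0)
  (PL.C (nat_lit 0x1a600f1) (nat_lit 0x0) (nat_lit 0x107858b0f2537da)
  (PL.C (nat_lit 0x1a618c8) (nat_lit 0x0) (nat_lit 0x5e7c96a81e209)
  (PL.C (nat_lit 0x1a75ed4) (nat_lit 0x0) (nat_lit 0x1c036c07e810ab)
  (PL.C (nat_lit 0x1a812b2) (nat_lit 0x0) (nat_lit 0x1c33607d780fc70)
  (PL.C (nat_lit 0x1a99ad4) (nat_lit 0xf9c62a6e8e2d2b) (nat_lit 0x0)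
  (PL.C (nat_lit 0x1a9baf8) (nat_lit 0x0) (nat_lit 0x6c7c28a6a38a7c)
  (PL.C (nat_lit 0x1abc4f4) (nat_lit 0x0) (nat_lit 0x93b7b89b889935)
  (PL.C (nat_lit 0x1abe789) (nat_lit 0x77235f52098b0c) (nat_lit 0x0)
  (PL.C (nat_lit 0x1ac9b0c) (nat_lit 0x0) (nat_lit 0x5531529c777f7a) gp0_0_103))))))))))))))))))))

noncomputable def gp0_0_101 : PL :=
  (PL.C (nat_lit 0x1947968) (nat_lit 0x0) (nat_lit 0x245a4ddb55964)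
  (PL.C (nat_lit 0x195306c) (nat_lit 0x0) (nat_lit 0x8a83b8b43a7862)
  (PL.C (nat_lit 0x195c14d) (nat_lit 0x8cfbffbbdbc46c) (nat_lit 0x0)
  (PL.C (nat_lit 0x196e8b2) (nat_lit 0x3b110c3d3290ec9) (nat_lit 0x0)
  (PL.C (nat_lit 0x1973736) (nat_lit 0x0) (nat_lit 0x124d7fef771c3d)
  (PL.C (nat_lit 0x197d195) (nat_lit 0x2c2cd5716f196e) (nat_lit 0x0)
  (PL.C (nat_lit 0x197e437) (nat_lit 0x0) (nat_lit 0x9c0035032a5c0b)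
  (PL.C (nat_lit 0x198044e) (nat_lit 0x0) (nat_lit 0x86157f3c518c6)
  (PL.C (nat_lit 0x1983674) (nat_lit 0x0) (nat_lit 0x2c7e9d8816407)
  (PL.C (nat_lit 0x19b2b77) (nat_lit 0x0) (nat_lit 0x12a59b14330182)
  (PL.C (nat_lit 0x19bf0ea) (nat_lit 0x4821ee635fcad55) (nat_lit 0x0)
  (PL.C (nat_lit 0x19c3082) (nat_lit 0x0) (nat_lit 0x42d62ed45e7e8)
  (PL.C (nat_lit 0x19c4d15) (nat_lit 0x2112c3ca287b222) (nat_lit 0x0)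
  (PL.C (nat_lit 0x19cbf16) (nat_lit 0x0) (nat_lit 0x504c49dfe9de67)
  (PL.C (nat_lit 0x19daab6) (nat_lit 0x0) (nat_lit 0x112d679ac4af5)
  (PL.C (nat_lit 0x19de724) (nat_lit 0x0) (nat_lit 0x6d76ebe385027c)
  (PL.C (nat_lit 0x19e355e) (nat_lit 0x0) (nat_lit 0xca87519336b1c2)
  (PL.C (nat_lit 0x19e4efd) (nat_lit 0x0) (nat_lit 0x618d77d667f6edc)
  (PL.C (nat_lit 0x19ee7c9) (nat_lit 0x32a968cbd423f1) (nat_lit 0x0)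
  (PL.C (nat_lit 0x19f60b3) (nat_lit 0x0) (nat_lit 0x52405aea8e91912) gp0_0_102))))))))))))))))))))

noncomputable def gp0_0_100 : PL :=
  (PL.C (nat_lit 0x18b2e66) (nat_lit 0x0) (nat_lit 0xb68527c9af16b)
  (PL.C (nat_lit 0x18b5df7) (nat_lit 0x34ab7d3e41f3a7) (nat_lit 0x0)
  (PL.C (nat_lit 0x18b6c5c) (nat_lit 0x0) (nat_lit 0x1cec1cd17c29429)
  (PL.C (nat_lit 0x18d0e4a) (nat_lit 0x0) (nat_lit 0x1719be8475f1d71)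
  (PL.C (nat_lit 0x18d5b9e) (nat_lit 0x9c1cd33e9b5736) (nat_lit 0x0)
  (PL.C (nat_lit 0x18ddb8c) (nat_lit 0x0) (nat_lit 0xc653dd3876f16)
  (PL.C (nat_lit 0x18ec18c) (nat_lit 0x0) (nat_lit 0x858728b588d7e1)
  (PL.C (nat_lit 0x18ed3c4) (nat_lit 0x0) (nat_lit 0xd69638e850df6b)
  (PL.C (nat_lit 0x18f4de5) (nat_lit 0x32a968d02a2a10) (nat_lit 0x0)
  (PL.C (nat_lit 0x1904b56) (nat_lit 0x0) (nat_lit 0x124d7fec929a9d)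
  (PL.C (nat_lit 0x1906d34) (nat_lit 0x2851130f3d505e) (nat_lit 0x0)
  (PL.C (nat_lit 0x1919427) (nat_lit 0x1e9c1d26ea96d8f) (nat_lit 0x0)
  (PL.C (nat_lit 0x1920f3f) (nat_lit 0x1647dedabd0693) (nat_lit 0x0)
  (PL.C (nat_lit 0x1929603) (nat_lit 0xf85a29dcf93d43) (nat_lit 0x0)
  (PL.C (nat_lit 0x193238c) (nat_lit 0x9b79b72cd6b658f) (nat_lit 0x0)
  (PL.C (nat_lit 0x1938306) (nat_lit 0x43a2bdd6574c10) (nat_lit 0x0)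
  (PL.C (nat_lit 0x1939eff) (nat_lit 0x32da15b780dd2d) (nat_lit 0x0)
  (PL.C (nat_lit 0x193bd7a) (nat_lit 0xb67618686cee77) (nat_lit 0x0)
  (PL.C (nat_lit 0x1944cfa) (nat_lit 0xa17a257fda271) (nat_lit 0x0)
  (PL.C (nat_lit 0x1946901) (nat_lit 0x673fc4459f7821) (nat_lit 0x0) gp0_0_101))))))))))))))))))))

noncomputable def gp0_0_99 : PL :=
  (PL.C (nat_lit 0x17c0c82) (nat_lit 0x0) (nat_lit 0x8009bce1b5e7779)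
  (PL.C (nat_lit 0x17c9e16) (nat_lit 0x0) (nat_lit 0x56408ec11cabc89)
  (PL.C (nat_lit 0x17d998a) (nat_lit 0x0) (nat_lit 0x1c5e20fc31c75fb)
  (PL.C (nat_lit 0x17dfb52) (nat_lit 0xd0be1afb3a1aa0) (nat_lit 0x0)
  (PL.C (nat_lit 0x17e364a) (nat_lit 0x0) (nat_lit 0x10e2539fe001b9)
  (PL.C (nat_lit 0x17e3ba9) (nat_lit 0x4f4ca30f0a054a01) (nat_lit 0x0)
  (PL.C (nat_lit 0x17e50c9) (nat_lit 0x0) (nat_lit 0x9ab75ca0f556e4)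
  (PL.C (nat_lit 0x1800056) (nat_lit 0xd2186dea000f4c) (nat_lit 0x0)
  (PL.C (nat_lit 0x1802d51) (nat_lit 0xe8049d7b0aa92d) (nat_lit 0x0)
  (PL.C (nat_lit 0x1812b1f) (nat_lit 0x0) (nat_lit 0x2d91be2723d6e9e)
  (PL.C (nat_lit 0x18294c4) (nat_lit 0x398eb4dc20fc55) (nat_lit 0x0)
  (PL.C (nat_lit 0x1830b25) (nat_lit 0x0) (nat_lit 0x8acdb8d68bdf4)
  (PL.C (nat_lit 0x184b25e) (nat_lit 0x0) (nat_lit 0x406a8d5b1a21a2)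
  (PL.C (nat_lit 0x1863246) (nat_lit 0x9c38164d7f96cd) (nat_lit 0x0)
  (PL.C (nat_lit 0x1866e4c) (nat_lit 0xe69ff58151787f) (nat_lit 0x0)
  (PL.C (nat_lit 0x18731b4) (nat_lit 0x0) (nat_lit 0x1e8ab018ba3034)
  (PL.C (nat_lit 0x188705b) (nat_lit 0x0) (nat_lit 0x6eaa16cf5bf68a)
  (PL.C (nat_lit 0x1891baa) (nat_lit 0x4c9723b3c7507) (nat_lit 0x0)
  (PL.C (nat_lit 0x1893b3a) (nat_lit 0x0) (nat_lit 0x13f2114346be3c0)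
  (PL.C (nat_lit 0x18ac974) (nat_lit 0x2e35d756dae578) (nat_lit 0x0) gp0_0_100))))))))))))))))))))

noncomputable def gp0_0_98 : PL :=
  (PL.C (nat_lit 0x17445ae) (nat_lit 0x0) (nat_lit 0xf62a41f234d74)
  (PL.C (nat_lit 0x17494cc) (nat_lit 0x0) (nat_lit 0x22d17f7ddda33)
  (PL.C (nat_lit 0x1749ac2) (nat_lit 0x246edadc7bb8a41) (nat_lit 0x0)
  (PL.C (nat_lit 0x174c276) (nat_lit 0x0) (nat_lit 0x70815d8d2535f8)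
  (PL.C (nat_lit 0x1750ed5) (nat_lit 0x709992e91a97db) (nat_lit 0x0)
  (PL.C (nat_lit 0x175553e) (nat_lit 0x0) (nat_lit 0x7ad3c690ea63a2)
  (PL.C (nat_lit 0x1762a5e) (nat_lit 0x0) (nat_lit 0x2f2b44e4e75e8)
  (PL.C (nat_lit 0x1764be2) (nat_lit 0x0) (nat_lit 0x80d190ad565559)
  (PL.C (nat_lit 0x176cb1c) (nat_lit 0x0) (nat_lit 0x366349ef4907d4)
  (PL.C (nat_lit 0x176e5a2) (nat_lit 0x0) (nat_lit 0x2f9cb442bbed5)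
  (PL.C (nat_lit 0x176efba) (nat_lit 0x0) (nat_lit 0x1cb7988768f504)
  (PL.C (nat_lit 0x1783ee1) (nat_lit 0x0) (nat_lit 0x13ec5480a69cf4d)
  (PL.C (nat_lit 0x179149e) (nat_lit 0x0) (nat_lit 0x108d085bc37f811)
  (PL.C (nat_lit 0x17936a4) (nat_lit 0x0) (nat_lit 0x196f85b13e948a5)
  (PL.C (nat_lit 0x179b514) (nat_lit 0x0) (nat_lit 0x7fa329fbef031b)
  (PL.C (nat_lit 0x17a1fce) (nat_lit 0x0) (nat_lit 0x287b8439e55e46)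
  (PL.C (nat_lit 0x17a57c6) (nat_lit 0x15d5660774904a9) (nat_lit 0x0)
  (PL.C (nat_lit 0x17a714c) (nat_lit 0x0) (nat_lit 0x9d632c789b8f09)
  (PL.C (nat_lit 0x17b2eb4) (nat_lit 0xa62c7eebb0522) (nat_lit 0x0)
  (PL.C (nat_lit 0x17b3f67) (nat_lit 0x29f09ad21505d34) (nat_lit 0x0) gp0_0_99))))))))))))))))))))

noncomputable def gp0_0_97 : PL :=
  (PL.C (nat_lit 0x167ac5c) (nat_lit 0xf97dbb14e34d6f) (nat_lit 0x0)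
  (PL.C (nat_lit 0x1685217) (nat_lit 0x0) (nat_lit 0x37e41e2e0a68e2)
  (PL.C (nat_lit 0x16886ba) (nat_lit 0x0) (nat_lit 0x2bc2bcd311be42a)
  (PL.C (nat_lit 0x16a5562) (nat_lit 0x0) (nat_lit 0x5651b31a53e13c)
  (PL.C (nat_lit 0x16b9945) (nat_lit 0xaff0561b0ffc5b0) (nat_lit 0x0)
  (PL.C (nat_lit 0x16bf334) (nat_lit 0x0) (nat_lit 0xd2a0db305a429c)
  (PL.C (nat_lit 0x16c88b4) (nat_lit 0x0) (nat_lit 0x2b89ffc02596f4)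
  (PL.C (nat_lit 0x16cc48c) (nat_lit 0x0) (nat_lit 0x196f85b5a2ab271)
  (PL.C (nat_lit 0x16d02e4) (nat_lit 0x0) (nat_lit 0xc83b68fc89b6b1)
  (PL.C (nat_lit 0x16d343f) (nat_lit 0x5b71fa0838510) (nat_lit 0x0)
  (PL.C (nat_lit 0x16da01e) (nat_lit 0x0) (nat_lit 0x3182d1f6c54ff0)
  (PL.C (nat_lit 0x16dd9c8) (nat_lit 0x0) (nat_lit 0x8aff75f18403d)
  (PL.C (nat_lit 0x16e9cf3) (nat_lit 0x0) (nat_lit 0xaeded4988cff66)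
  (PL.C (nat_lit 0x16eaa4c) (nat_lit 0x1d131ba228e16c2) (nat_lit 0x0)
  (PL.C (nat_lit 0x16fd901) (nat_lit 0x0) (nat_lit 0x8b6c5d64dcf831)
  (PL.C (nat_lit 0x17063f1) (nat_lit 0x10fe4f02b070e1a) (nat_lit 0x0)
  (PL.C (nat_lit 0x171d254) (nat_lit 0x0) (nat_lit 0x409f673501b4cad)
  (PL.C (nat_lit 0x1726f72) (nat_lit 0x6bb389379b2032b) (nat_lit 0x0)
  (PL.C (nat_lit 0x1734375) (nat_lit 0x3bb1f58e5dffc5) (nat_lit 0x0)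
  (PL.C (nat_lit 0x17438bb) (nat_lit 0x0) (nat_lit 0x10966fa7d766a39) gp0_0_98))))))))))))))))))))

noncomputable def gp0_0_96 : PL :=
  (PL.C (nat_lit 0x15e1006) (nat_lit 0x0) (nat_lit 0x9a3b0e8abae77b)
  (PL.C (nat_lit 0x15e3ead) (nat_lit 0x11b92383e90569) (nat_lit 0x0)
  (PL.C (nat_lit 0x15ea4bf) (nat_lit 0x1f67a6a9c6a2aba) (nat_lit 0x0)
  (PL.C (nat_lit 0x15f267e) (nat_lit 0x0) (nat_lit 0x2c0bc1f75f8c495)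
  (PL.C (nat_lit 0x15f9b04) (nat_lit 0x559840f85c6e39) (nat_lit 0x0)
  (PL.C (nat_lit 0x1605044) (nat_lit 0x5c727bc7986f6) (nat_lit 0x0)
  (PL.C (nat_lit 0x160efae) (nat_lit 0x9c3815766a9789) (nat_lit 0x0)
  (PL.C (nat_lit 0x161a052) (nat_lit 0xca928ead45b91) (nat_lit 0x0)
  (PL.C (nat_lit 0x1626a32) (nat_lit 0xaaed289dedd5b) (nat_lit 0x0)
  (PL.C (nat_lit 0x1626f2d) (nat_lit 0x0) (nat_lit 0x1895fc6c4b307792)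
  (PL.C (nat_lit 0x162a1dc) (nat_lit 0x31be100f93e90c) (nat_lit 0x0)
  (PL.C (nat_lit 0x1633886) (nat_lit 0x0) (nat_lit 0x1285968ddb2681d)
  (PL.C (nat_lit 0x16384cc) (nat_lit 0x236da97abb80901) (nat_lit 0x0)
  (PL.C (nat_lit 0x16412ee) (nat_lit 0x29260f79e555c1) (nat_lit 0x0)
  (PL.C (nat_lit 0x164ab9e) (nat_lit 0x0) (nat_lit 0x4bd19c5dc689b2)
  (PL.C (nat_lit 0x1651431) (nat_lit 0x32da15a6453cea) (nat_lit 0x0)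
  (PL.C (nat_lit 0x16516a4) (nat_lit 0xc58ca1ff8beaa) (nat_lit 0x0)
  (PL.C (nat_lit 0x165c95c) (nat_lit 0x0) (nat_lit 0x13939619976f77)
  (PL.C (nat_lit 0x1667754) (nat_lit 0x0) (nat_lit 0x8a83b8c3390a67)
  (PL.C (nat_lit 0x1669aa6) (nat_lit 0xa50671b9d8edbd) (nat_lit 0x0) gp0_0_97))))))))))))))))))))

noncomputable def gp0_0_95 : PL :=
  (PL.C (nat_lit 0x15512a6) (nat_lit 0x129b5a627ef645) (nat_lit 0x0)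
  (PL.C (nat_lit 0x155bd5a) (nat_lit 0x5116f45e43bc5) (nat_lit 0x0)
  (PL.C (nat_lit 0x155e2e8) (nat_lit 0x0) (nat_lit 0x13adbca67f9f6d)
  (PL.C (nat_lit 0x155f3fa) (nat_lit 0x2cea9f97a632b2d) (nat_lit 0x0)
  (PL.C (nat_lit 0x156762c) (nat_lit 0xe69ff5885e7280) (nat_lit 0x0)
  (PL.C (nat_lit 0x1568541) (nat_lit 0x39abad2b46a4ff1) (nat_lit 0x0)
  (PL.C (nat_lit 0x156d528) (nat_lit 0xac7bea3fef018) (nat_lit 0x0)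
  (PL.C (nat_lit 0x157c1fa) (nat_lit 0x25e819775df93bc) (nat_lit 0x0)
  (PL.C (nat_lit 0x1586e06) (nat_lit 0x0) (nat_lit 0x823344232570d9)
  (PL.C (nat_lit 0x15932a6) (nat_lit 0x59d5ec32e1cc63) (nat_lit 0x0)
  (PL.C (nat_lit 0x159818a) (nat_lit 0x15b148070cd959b) (nat_lit 0x0)
  (PL.C (nat_lit 0x15a2e76) (nat_lit 0x0) (nat_lit 0xcb4b8659e227fd)
  (PL.C (nat_lit 0x15a89f8) (nat_lit 0x0) (nat_lit 0x26c1d7604c35b)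
  (PL.C (nat_lit 0x15b132a) (nat_lit 0x0) (nat_lit 0xafe2e8806ac82d)
  (PL.C (nat_lit 0x15bbe12) (nat_lit 0x13172d655f649c5) (nat_lit 0x0)
  (PL.C (nat_lit 0x15c520c) (nat_lit 0x0) (nat_lit 0xa6d74cf714bc9c)
  (PL.C (nat_lit 0x15c6862) (nat_lit 0x1e13b38e177fbb7) (nat_lit 0x0)
  (PL.C (nat_lit 0x15ca3ce) (nat_lit 0x0) (nat_lit 0x11add8b7021c45a)
  (PL.C (nat_lit 0x15d295a) (nat_lit 0xd78cf04bd45996) (nat_lit 0x0)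
  (PL.C (nat_lit 0x15dbdb1) (nat_lit 0x43cf2e1ca270a) (nat_lit 0x0) gp0_0_96))))))))))))))))))))

noncomputable def gp0_0_94 : PL :=
  (PL.C (nat_lit 0x1479177) (nat_lit 0xdc1fae861b85c) (nat_lit 0x0)
  (PL.C (nat_lit 0x1480aba) (nat_lit 0x331e13efe14a46a) (nat_lit 0x0)
  (PL.C (nat_lit 0x148917a) (nat_lit 0x0) (nat_lit 0x1719be8b566d484)
  (PL.C (nat_lit 0x148a841) (nat_lit 0x658a540ab9bcf73) (nat_lit 0x0)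
  (PL.C (nat_lit 0x149ed4f) (nat_lit 0x2502dc6c53d0ce6) (nat_lit 0x0)
  (PL.C (nat_lit 0x14cb8bd) (nat_lit 0x0) (nat_lit 0x1c66a757d64eac2)
  (PL.C (nat_lit 0x14e0806) (nat_lit 0x52f43b5dac2d1e) (nat_lit 0x0)
  (PL.C (nat_lit 0x14e1d93) (nat_lit 0x5b71fa4b347e6) (nat_lit 0x0)
  (PL.C (nat_lit 0x14e4e62) (nat_lit 0x3324afce3624f11) (nat_lit 0x0)
  (PL.C (nat_lit 0x14f6e96) (nat_lit 0x0) (nat_lit 0x3ffe07f76b12b97)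
  (PL.C (nat_lit 0x1509cbc) (nat_lit 0x13e8b566cd749f0) (nat_lit 0x0)
  (PL.C (nat_lit 0x150ee23) (nat_lit 0xa6e22f8aa9991c) (nat_lit 0x0)
  (PL.C (nat_lit 0x15127b9) (nat_lit 0xa4e05afd0e31) (nat_lit 0x0)
  (PL.C (nat_lit 0x151ef4e) (nat_lit 0xe420e14a7e8128) (nat_lit 0x0)
  (PL.C (nat_lit 0x1523d3c) (nat_lit 0x50e933246b8124) (nat_lit 0x0)
  (PL.C (nat_lit 0x15308d6) (nat_lit 0x199c9401f2f6c86) (nat_lit 0x0)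
  (PL.C (nat_lit 0x15360d4) (nat_lit 0x277576978c152) (nat_lit 0x0)
  (PL.C (nat_lit 0x153e07f) (nat_lit 0xe8049d9304beaf) (nat_lit 0x0)
  (PL.C (nat_lit 0x153e818) (nat_lit 0x1fb5d6e3180b43) (nat_lit 0x0)
  (PL.C (nat_lit 0x1549032) (nat_lit 0x0) (nat_lit 0x149b6d3e1e1830f) gp0_0_95))))))))))))))))))))

noncomputable def gp0_0_93 : PL :=
  (PL.C (nat_lit 0x13eddca) (nat_lit 0x0) (nat_lit 0x463eda7ffed873)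
  (PL.C (nat_lit 0x13f615e) (nat_lit 0x8ff2d7abef1bca1) (nat_lit 0x0)
  (PL.C (nat_lit 0x1407146) (nat_lit 0x0) (nat_lit 0x884965ba3aaa110)
  (PL.C (nat_lit 0x140b2ed) (nat_lit 0x9ccd828ef2e689) (nat_lit 0x0)
  (PL.C (nat_lit 0x140d20a) (nat_lit 0x25e819727e523c4) (nat_lit 0x0)
  (PL.C (nat_lit 0x1414cee) (nat_lit 0x0) (nat_lit 0x400d7f4559e1efe)
  (PL.C (nat_lit 0x14158b6) (nat_lit 0x0) (nat_lit 0xaba954fcdf20d)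
  (PL.C (nat_lit 0x1422132) (nat_lit 0xa2dbaed671a5176) (nat_lit 0x0)
  (PL.C (nat_lit 0x142aa0d) (nat_lit 0x0) (nat_lit 0xd92d21d9b76fb75)
  (PL.C (nat_lit 0x142fb2d) (nat_lit 0x0) (nat_lit 0x11e5e31686b672)
  (PL.C (nat_lit 0x14311aa) (nat_lit 0x0) (nat_lit 0x98e603a150eb5)
  (PL.C (nat_lit 0x1439cd3) (nat_lit 0x16a193caf6f6f46) (nat_lit 0x0)
  (PL.C (nat_lit 0x144282e) (nat_lit 0x0) (nat_lit 0x11c34a85dc62dc8)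
  (PL.C (nat_lit 0x144c5c1) (nat_lit 0x0) (nat_lit 0xdaa5568181fc8)
  (PL.C (nat_lit 0x1450dde) (nat_lit 0x1e3da7fc9ccf1) (nat_lit 0x0)
  (PL.C (nat_lit 0x14553ec) (nat_lit 0xd2afae4a49d477) (nat_lit 0x0)
  (PL.C (nat_lit 0x1459cb6) (nat_lit 0x0) (nat_lit 0xa70edcd895277f6)
  (PL.C (nat_lit 0x146b0d4) (nat_lit 0x0) (nat_lit 0x184dae2aa79aea)
  (PL.C (nat_lit 0x146deac) (nat_lit 0x2851130e65a111) (nat_lit 0x0)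
  (PL.C (nat_lit 0x14744a6) (nat_lit 0x5ea5856896089f) (nat_lit 0x0) gp0_0_94))))))))))))))))))))

noncomputable def gp0_0_92 : PL :=
  (PL.C (nat_lit 0x1353d48) (nat_lit 0x0) (nat_lit 0x13adbca2bb8b29)
  (PL.C (nat_lit 0x135c27c) (nat_lit 0x0) (nat_lit 0x121da9d3b3e55e)
  (PL.C (nat_lit 0x1365d84) (nat_lit 0x1726102674bb3e) (nat_lit 0x0)
  (PL.C (nat_lit 0x1368d4c) (nat_lit 0x5e2e3972fa08e4a) (nat_lit 0x0)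
  (PL.C (nat_lit 0x139df08) (nat_lit 0x0) (nat_lit 0x30078159c8c040)
  (PL.C (nat_lit 0x139f287) (nat_lit 0x0) (nat_lit 0x3bf663fcc28f34)
  (PL.C (nat_lit 0x13a894a) (nat_lit 0xa12357d89d096e) (nat_lit 0x0)
  (PL.C (nat_lit 0x13aaace) (nat_lit 0x0) (nat_lit 0x1361e33bf03c414)
  (PL.C (nat_lit 0x13b26b6) (nat_lit 0x6d9f44e86f6460) (nat_lit 0x0)
  (PL.C (nat_lit 0x13b289b) (nat_lit 0x13e447dcdb3a752) (nat_lit 0x0)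
  (PL.C (nat_lit 0x13b4958) (nat_lit 0x0) (nat_lit 0xab0b7c33ecc864)
  (PL.C (nat_lit 0x13b5916) (nat_lit 0x0) (nat_lit 0x17ffabda101c71e)
  (PL.C (nat_lit 0x13bf6ea) (nat_lit 0x0) (nat_lit 0x80d190a863d0af)
  (PL.C (nat_lit 0x13c447e) (nat_lit 0x0) (nat_lit 0xca8751a7b86c20)
  (PL.C (nat_lit 0x13c6bd4) (nat_lit 0x0) (nat_lit 0x1abf49c80e44b3)
  (PL.C (nat_lit 0x13c92b8) (nat_lit 0x0) (nat_lit 0x1af74263380ba9)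
  (PL.C (nat_lit 0x13cccb9) (nat_lit 0x0) (nat_lit 0xc8cdd81d45af4)
  (PL.C (nat_lit 0x13d8622) (nat_lit 0x0) (nat_lit 0x428c87bd3c4a2c)
  (PL.C (nat_lit 0x13d9c25) (nat_lit 0x0) (nat_lit 0x444b348c85e1640)
  (PL.C (nat_lit 0x13deab4) (nat_lit 0x3c7a4db7e6cce40) (nat_lit 0x0) gp0_0_93))))))))))))))))))))

noncomputable def gp0_0_91 : PL :=
  (PL.C (nat_lit 0x12e41e4) (nat_lit 0x6a6d4bed604b1e) (nat_lit 0x0)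
  (PL.C (nat_lit 0x12ea909) (nat_lit 0x0) (nat_lit 0xcc3eae19c8b3a0)
  (PL.C (nat_lit 0x12eb7be) (nat_lit 0x1259a35fb66be64) (nat_lit 0x0)
  (PL.C (nat_lit 0x12f66be) (nat_lit 0x0) (nat_lit 0x3ca91064925ec8e)
  (PL.C (nat_lit 0x12f9ecc) (nat_lit 0x26c846a2f58df69) (nat_lit 0x0)
  (PL.C (nat_lit 0x1302ab3) (nat_lit 0x0) (nat_lit 0xf058ca55051d1)
  (PL.C (nat_lit 0x1305722) (nat_lit 0x6e2adb7a981f07) (nat_lit 0x0)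
  (PL.C (nat_lit 0x13090a7) (nat_lit 0x2c2cd586cec58a) (nat_lit 0x0)
  (PL.C (nat_lit 0x130ac22) (nat_lit 0x2338acdb44ba48) (nat_lit 0x0)
  (PL.C (nat_lit 0x130dbfc) (nat_lit 0x0) (nat_lit 0xe7fcddce2af99)
  (PL.C (nat_lit 0x131eeab) (nat_lit 0x0) (nat_lit 0x9ab75ca6134e58)
  (PL.C (nat_lit 0x132ef19) (nat_lit 0x0) (nat_lit 0x23843b1b4b604c)
  (PL.C (nat_lit 0x132f669) (nat_lit 0x0) (nat_lit 0x74aa5290738d620)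
  (PL.C (nat_lit 0x132f884) (nat_lit 0x11d702f901be79) (nat_lit 0x0)
  (PL.C (nat_lit 0x1333b04) (nat_lit 0x3e2e5b9b675b4c) (nat_lit 0x0)
  (PL.C (nat_lit 0x133ebbc) (nat_lit 0xa21335cacda2fe) (nat_lit 0x0)
  (PL.C (nat_lit 0x1340aea) (nat_lit 0x0) (nat_lit 0x149b6d3f30d2adf)
  (PL.C (nat_lit 0x13427b4) (nat_lit 0x355edacf68f1842) (nat_lit 0x0)
  (PL.C (nat_lit 0x1348611) (nat_lit 0x0) (nat_lit 0x14781878f16d22)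
  (PL.C (nat_lit 0x134a516) (nat_lit 0x0) (nat_lit 0x14a394f2e85851c) gp0_0_92))))))))))))))))))))

noncomputable def gp0_0_90 : PL :=
  (PL.C (nat_lit 0x125f5aa) (nat_lit 0x0) (nat_lit 0x1662331f8624aed)
  (PL.C (nat_lit 0x125ffe4) (nat_lit 0x0) (nat_lit 0x366349ffe70a76)
  (PL.C (nat_lit 0x1266e6a) (nat_lit 0x4d1951f52d7bda) (nat_lit 0x0)
  (PL.C (nat_lit 0x127ef3c) (nat_lit 0xd9167e8916494b) (nat_lit 0x0)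
  (PL.C (nat_lit 0x1282716) (nat_lit 0x0) (nat_lit 0x36c80f103f02f00)
  (PL.C (nat_lit 0x12849db) (nat_lit 0x0) (nat_lit 0xdaa556b0520aa)
  (PL.C (nat_lit 0x1286cf6) (nat_lit 0x3649802ed09a892) (nat_lit 0x0)
  (PL.C (nat_lit 0x1296854) (nat_lit 0x16e270b0be24b0) (nat_lit 0x0)
  (PL.C (nat_lit 0x1297cf2) (nat_lit 0x0) (nat_lit 0x3df5a65acd04e62)
  (PL.C (nat_lit 0x129cc04) (nat_lit 0x13e8b5679eeb636) (nat_lit 0x0)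
  (PL.C (nat_lit 0x129eee6) (nat_lit 0x0) (nat_lit 0x2291a4d546bb222)
  (PL.C (nat_lit 0x12ab3ba) (nat_lit 0x0) (nat_lit 0x506345e8427bcfe)
  (PL.C (nat_lit 0x12b32a1) (nat_lit 0x0) (nat_lit 0x2475730f5d1d3db)
  (PL.C (nat_lit 0x12c13bf) (nat_lit 0x0) (nat_lit 0x134b83af6dd383d)
  (PL.C (nat_lit 0x12c1cfc) (nat_lit 0x236da97914e2e6b) (nat_lit 0x0)
  (PL.C (nat_lit 0x12c280a) (nat_lit 0x2632ce965cfc7c) (nat_lit 0x0)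
  (PL.C (nat_lit 0x12cae6f) (nat_lit 0x0) (nat_lit 0x44e71ea98cac90)
  (PL.C (nat_lit 0x12cee56) (nat_lit 0x703207f2edb2f6) (nat_lit 0x0)
  (PL.C (nat_lit 0x12d7034) (nat_lit 0x0) (nat_lit 0x184dae19cd61ba)
  (PL.C (nat_lit 0x12decab) (nat_lit 0x0) (nat_lit 0x3f15c10ef483a) gp0_0_91))))))))))))))))))))

noncomputable def gp0_0_89 : PL :=
  (PL.C (nat_lit 0x11f62d2) (nat_lit 0x0) (nat_lit 0x1760aba3c7d79d8)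
  (PL.C (nat_lit 0x11fc428) (nat_lit 0x0) (nat_lit 0x168b3302294398)
  (PL.C (nat_lit 0x11fcb14) (nat_lit 0x0) (nat_lit 0x7d27c58bc47ead)
  (PL.C (nat_lit 0x120a962) (nat_lit 0x199c9401d736e91) (nat_lit 0x0)
  (PL.C (nat_lit 0x120f0c8) (nat_lit 0x0) (nat_lit 0x688a8b844f67c6)
  (PL.C (nat_lit 0x1212405) (nat_lit 0xb380d3f86c6ca6) (nat_lit 0x0)
  (PL.C (nat_lit 0x121a44b) (nat_lit 0x0) (nat_lit 0x786513aa83963d)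
  (PL.C (nat_lit 0x1222f62) (nat_lit 0x0) (nat_lit 0x8009bce46f880ee)
  (PL.C (nat_lit 0x122454c) (nat_lit 0x0) (nat_lit 0xfee5031b75ba5a)
  (PL.C (nat_lit 0x122815e) (nat_lit 0x0) (nat_lit 0x697aece7d5c906)
  (PL.C (nat_lit 0x122c09e) (nat_lit 0x2d90d69b55c29b6) (nat_lit 0x0)
  (PL.C (nat_lit 0x122c45c) (nat_lit 0x0) (nat_lit 0x2dc6efe622d234)
  (PL.C (nat_lit 0x123a932) (nat_lit 0xe420e15c6ff8f7) (nat_lit 0x0)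
  (PL.C (nat_lit 0x123c846) (nat_lit 0x0) (nat_lit 0x23b2e4b18e7967a)
  (PL.C (nat_lit 0x1242cc7) (nat_lit 0x0) (nat_lit 0x5e96fe455709bfe)
  (PL.C (nat_lit 0x12445f5) (nat_lit 0x10fe4f013031560) (nat_lit 0x0)
  (PL.C (nat_lit 0x124ea78) (nat_lit 0x0) (nat_lit 0x248d2988ad5ed5)
  (PL.C (nat_lit 0x12533f6) (nat_lit 0x0) (nat_lit 0x11c34a85ccc76c0)
  (PL.C (nat_lit 0x12568a4) (nat_lit 0x0) (nat_lit 0x24b905c0506041f)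
  (PL.C (nat_lit 0x125c27d) (nat_lit 0xdc1fae00829c5) (nat_lit 0x0) gp0_0_90))))))))))))))))))))

noncomputable def gp0_0_88 : PL :=
  (PL.C (nat_lit 0x116496c) (nat_lit 0x35aa0117b2a888) (nat_lit 0x0)
  (PL.C (nat_lit 0x116d04b) (nat_lit 0x0) (nat_lit 0x5cf9ada899bc40)
  (PL.C (nat_lit 0x116ee28) (nat_lit 0x0) (nat_lit 0x9880f9940460d0)
  (PL.C (nat_lit 0x117d688) (nat_lit 0x0) (nat_lit 0x4c5cf8e7d08ee1)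
  (PL.C (nat_lit 0x117e986) (nat_lit 0x0) (nat_lit 0x8f2df6798f58218)
  (PL.C (nat_lit 0x118a60d) (nat_lit 0x2b43ab5c1ce4f2) (nat_lit 0x0)
  (PL.C (nat_lit 0x118de71) (nat_lit 0x0) (nat_lit 0x1c66a7576b9a7f0)
  (PL.C (nat_lit 0x118fe4c) (nat_lit 0x330e2ef209f3cb) (nat_lit 0x0)
  (PL.C (nat_lit 0x11909cd) (nat_lit 0x3ebe35f5382fec) (nat_lit 0x0)
  (PL.C (nat_lit 0x11955f6) (nat_lit 0x0) (nat_lit 0x1e6c7e993603f80)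
  (PL.C (nat_lit 0x11997ff) (nat_lit 0x73adc50ad5ad22) (nat_lit 0x0)
  (PL.C (nat_lit 0x11a3f38) (nat_lit 0x0) (nat_lit 0x4c5cf8fb6772e5)
  (PL.C (nat_lit 0x11b9f17) (nat_lit 0x0) (nat_lit 0x2b4b0d7796ca512)
  (PL.C (nat_lit 0x11c6bef) (nat_lit 0x0) (nat_lit 0x5cf9ad881369dd)
  (PL.C (nat_lit 0x11d2df8) (nat_lit 0x0) (nat_lit 0x9880f99aeadf96)
  (PL.C (nat_lit 0x11d4506) (nat_lit 0x15b14807312d1a7) (nat_lit 0x0)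
  (PL.C (nat_lit 0x11e32ae) (nat_lit 0x2cea9f98bfcca19) (nat_lit 0x0)
  (PL.C (nat_lit 0x11e7978) (nat_lit 0x0) (nat_lit 0xd8c4fdfbd07cae)
  (PL.C (nat_lit 0x11ee8bb) (nat_lit 0x0) (nat_lit 0x4570087fa436be)
  (PL.C (nat_lit 0x11f2656) (nat_lit 0x0) (nat_lit 0x1bd931e7b63884f) gp0_0_89))))))))))))))))))))

noncomputable def gp0_0_87 : PL :=
  (PL.C (nat_lit 0x10eed03) (nat_lit 0x21d2a739482e96f) (nat_lit 0x0)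
  (PL.C (nat_lit 0x10f45cc) (nat_lit 0x0) (nat_lit 0x4642dbb86bff082)
  (PL.C (nat_lit 0x10f7a24) (nat_lit 0x215c1a8835a1ad) (nat_lit 0x0)
  (PL.C (nat_lit 0x10fe10e) (nat_lit 0x0) (nat_lit 0x4981e5ebc3269a)
  (PL.C (nat_lit 0x10fed7a) (nat_lit 0x239f0e11c1e51f2) (nat_lit 0x0)
  (PL.C (nat_lit 0x1121cfa) (nat_lit 0x58a65280079d6) (nat_lit 0x0)
  (PL.C (nat_lit 0x112a09c) (nat_lit 0x2674da86e85f991) (nat_lit 0x0)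
  (PL.C (nat_lit 0x112de0e) (nat_lit 0x0) (nat_lit 0x11c27ff695eb47aa)
  (PL.C (nat_lit 0x1131201) (nat_lit 0x0) (nat_lit 0x7c33b4b72d0a4b)
  (PL.C (nat_lit 0x1131f27) (nat_lit 0x0) (nat_lit 0x147d59e1065629)
  (PL.C (nat_lit 0x113c724) (nat_lit 0xc58ca24e21d27) (nat_lit 0x0)
  (PL.C (nat_lit 0x1142394) (nat_lit 0x0) (nat_lit 0x9dcb10b3010200)
  (PL.C (nat_lit 0x1149a86) (nat_lit 0x158ba0283b7c) (nat_lit 0x0)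
  (PL.C (nat_lit 0x114eb22) (nat_lit 0x3d22963d232b5a6) (nat_lit 0x0)
  (PL.C (nat_lit 0x1155ce2) (nat_lit 0x140870bf0ebdd4f) (nat_lit 0x0)
  (PL.C (nat_lit 0x115a685) (nat_lit 0xc857944b0b2dd9) (nat_lit 0x0)
  (PL.C (nat_lit 0x115b9da) (nat_lit 0x13778f2e19530c2) (nat_lit 0x0)
  (PL.C (nat_lit 0x11619e4) (nat_lit 0x2061f7445f3a67) (nat_lit 0x0)
  (PL.C (nat_lit 0x116317b) (nat_lit 0x1f67a6aae4a9f3b) (nat_lit 0x0)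
  (PL.C (nat_lit 0x11640db) (nat_lit 0x2b43ab673e7a41) (nat_lit 0x0) gp0_0_88))))))))))))))))))))

noncomputable def gp0_0_86 : PL :=
  (PL.C (nat_lit 0x105d1af) (nat_lit 0x9c5370895f20af) (nat_lit 0x0)
  (PL.C (nat_lit 0x106277c) (nat_lit 0x0) (nat_lit 0x17919ec84be77bb)
  (PL.C (nat_lit 0x106fe93) (nat_lit 0x0) (nat_lit 0x13ba4785087d78e)
  (PL.C (nat_lit 0x10730f8) (nat_lit 0x0) (nat_lit 0xc21b6c4c2d480)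
  (PL.C (nat_lit 0x1077444) (nat_lit 0x0) (nat_lit 0xc653dd5ee407e)
  (PL.C (nat_lit 0x10793fa) (nat_lit 0x0) (nat_lit 0x16de78a9ec841c1)
  (PL.C (nat_lit 0x1093d08) (nat_lit 0x4420492d30300) (nat_lit 0x0)
  (PL.C (nat_lit 0x10a33ee) (nat_lit 0x158ba81f68eb) (nat_lit 0x0)
  (PL.C (nat_lit 0x10adce4) (nat_lit 0x215c1a80bd2479) (nat_lit 0x0)
  (PL.C (nat_lit 0x10af378) (nat_lit 0x46b4aed1df25e) (nat_lit 0x0)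
  (PL.C (nat_lit 0x10bb81a) (nat_lit 0x666af4c88c1fae3) (nat_lit 0x0)
  (PL.C (nat_lit 0x10c0a2a) (nat_lit 0x0) (nat_lit 0x36b468e0f81807)
  (PL.C (nat_lit 0x10c6402) (nat_lit 0xd1413588f14903) (nat_lit 0x0)
  (PL.C (nat_lit 0x10d0204) (nat_lit 0x0) (nat_lit 0x238f3443dfc688)
  (PL.C (nat_lit 0x10d14aa) (nat_lit 0x0) (nat_lit 0x1bffd6cd6440084)
  (PL.C (nat_lit 0x10d28fc) (nat_lit 0x3ad026a6c7faddc) (nat_lit 0x0)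
  (PL.C (nat_lit 0x10d7117) (nat_lit 0xff80ae9283d3) (nat_lit 0x0)
  (PL.C (nat_lit 0x10d9b56) (nat_lit 0xa93b86d737be88) (nat_lit 0x0)
  (PL.C (nat_lit 0x10e2048) (nat_lit 0x0) (nat_lit 0x1cc2891aace8ddd)
  (PL.C (nat_lit 0x10e80de) (nat_lit 0xa4d81283948fd0c) (nat_lit 0x0) gp0_0_87))))))))))))))))))))

noncomputable def gp0_0_85 : PL :=
  (PL.C (nat_lit 0xfe665c) (nat_lit 0x0) (nat_lit 0x44c32faf7de3218)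
  (PL.C (nat_lit 0xfea78c) (nat_lit 0x0) (nat_lit 0xee38201917dcdd)
  (PL.C (nat_lit 0xfeb443) (nat_lit 0x792fc2630da940) (nat_lit 0x0)
  (PL.C (nat_lit 0xfecedc) (nat_lit 0x1c3a2910e9dff4e) (nat_lit 0x0)
  (PL.C (nat_lit 0xfee086) (nat_lit 0x18a93d232c39ba2) (nat_lit 0x0)
  (PL.C (nat_lit 0xff1ce3) (nat_lit 0x0) (nat_lit 0x201a5ae745ee4f)
  (PL.C (nat_lit 0xff33bd) (nat_lit 0x20d49876c8ed758) (nat_lit 0x0)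
  (PL.C (nat_lit 0x1001e36) (nat_lit 0x493bccdf02f0ba1) (nat_lit 0x0)
  (PL.C (nat_lit 0x100c76a) (nat_lit 0x0) (nat_lit 0x24164a6c0e0d842)
  (PL.C (nat_lit 0x101f607) (nat_lit 0x0) (nat_lit 0x1de0a137f0f7078)
  (PL.C (nat_lit 0x102076e) (nat_lit 0xd0be1b059163ea) (nat_lit 0x0)
  (PL.C (nat_lit 0x1028892) (nat_lit 0x0) (nat_lit 0x336edfbdd66bd4)
  (PL.C (nat_lit 0x1031fcd) (nat_lit 0x60ff7e97e389f0f) (nat_lit 0x0)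
  (PL.C (nat_lit 0x1032194) (nat_lit 0x0) (nat_lit 0x81737bec4d2b2c)
  (PL.C (nat_lit 0x103830f) (nat_lit 0x3a8f6a0081dbfe6) (nat_lit 0x0)
  (PL.C (nat_lit 0x1038c93) (nat_lit 0x7539f34f93df7) (nat_lit 0x0)
  (PL.C (nat_lit 0x1042184) (nat_lit 0x6a3d74ea59430c0) (nat_lit 0x0)
  (PL.C (nat_lit 0x1042e81) (nat_lit 0x0) (nat_lit 0x22160cfbe290bac)
  (PL.C (nat_lit 0x1044988) (nat_lit 0x22c02d4f73fbf8) (nat_lit 0x0)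
  (PL.C (nat_lit 0x1049961) (nat_lit 0x0) (nat_lit 0x2f95b8b073988f) gp0_0_86))))))))))))))))))))

noncomputable def gp0_0_84 : PL :=
  (PL.C (nat_lit 0xf825d2) (nat_lit 0x73cabb58076821) (nat_lit 0x0)
  (PL.C (nat_lit 0xf82e74) (nat_lit 0x422a16738234fb) (nat_lit 0x0)
  (PL.C (nat_lit 0xf8672c) (nat_lit 0x26c846a34b22703) (nat_lit 0x0)
  (PL.C (nat_lit 0xf881a4) (nat_lit 0x0) (nat_lit 0x8db91792b01b9e)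
  (PL.C (nat_lit 0xf8b48e) (nat_lit 0x2338acc151fa31) (nat_lit 0x0)
  (PL.C (nat_lit 0xf8cdbd) (nat_lit 0x8a22b900f98b3b) (nat_lit 0x0)
  (PL.C (nat_lit 0xf94a43) (nat_lit 0x0) (nat_lit 0x71d4b9445f7789)
  (PL.C (nat_lit 0xf97194) (nat_lit 0x2e35d74c1c66d5) (nat_lit 0x0)
  (PL.C (nat_lit 0xf987ec) (nat_lit 0xcdfc3389836502) (nat_lit 0x0)
  (PL.C (nat_lit 0xf9d893) (nat_lit 0x0) (nat_lit 0x3f15c117a4388)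
  (PL.C (nat_lit 0xf9ee6c) (nat_lit 0x0) (nat_lit 0x185129176996b4)
  (PL.C (nat_lit 0xfad496) (nat_lit 0x0) (nat_lit 0x109867bd6f16d659)
  (PL.C (nat_lit 0xfb6314) (nat_lit 0x0) (nat_lit 0x858728ae26ffb1)
  (PL.C (nat_lit 0xfc1534) (nat_lit 0x0) (nat_lit 0x1616ebcf9f81ab)
  (PL.C (nat_lit 0xfc3a84) (nat_lit 0x0) (nat_lit 0x7d28af1ef94c0e)
  (PL.C (nat_lit 0xfc4b88) (nat_lit 0x0) (nat_lit 0xab0b7c384680dc)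
  (PL.C (nat_lit 0xfd5dac) (nat_lit 0x0) (nat_lit 0x34c9d2d9aa4cf50)
  (PL.C (nat_lit 0xfdd26b) (nat_lit 0x0) (nat_lit 0xb17fb13ed1a062)
  (PL.C (nat_lit 0xfe0c6d) (nat_lit 0x0) (nat_lit 0x8b6c5d51820e48)
  (PL.C (nat_lit 0xfe277f) (nat_lit 0x0) (nat_lit 0x444b3489207e204) gp0_0_85))))))))))))))))))))

noncomputable def gp0_0_83 : PL :=
  (PL.C (nat_lit 0xef3343) (nat_lit 0x1b96da563d849d) (nat_lit 0x0)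
  (PL.C (nat_lit 0xef6bb3) (nat_lit 0x0) (nat_lit 0x1895fc6c50458574)
  (PL.C (nat_lit 0xf036ba) (nat_lit 0x0) (nat_lit 0x406a8d5044c2a2)
  (PL.C (nat_lit 0xf04761) (nat_lit 0x27a6c1f1bf51732) (nat_lit 0x0)
  (PL.C (nat_lit 0xf0a36b) (nat_lit 0x13e447df3eaf950) (nat_lit 0x0)
  (PL.C (nat_lit 0xf14265) (nat_lit 0x4cdb5b9298aa85) (nat_lit 0x0)
  (PL.C (nat_lit 0xf19825) (nat_lit 0x103640b85ceb4df) (nat_lit 0x0)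
  (PL.C (nat_lit 0xf2662e) (nat_lit 0x8ede0230f3823a6) (nat_lit 0x0)
  (PL.C (nat_lit 0xf3782a) (nat_lit 0x17e23b091203c4) (nat_lit 0x0)
  (PL.C (nat_lit 0xf3c014) (nat_lit 0x0) (nat_lit 0x11d74a1fd61d27)
  (PL.C (nat_lit 0xf3d09f) (nat_lit 0x0) (nat_lit 0x1face145ab5144ee)
  (PL.C (nat_lit 0xf468a2) (nat_lit 0x5ea5856b607ae6) (nat_lit 0x0)
  (PL.C (nat_lit 0xf47188) (nat_lit 0xd7b68922106cd0) (nat_lit 0x0)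
  (PL.C (nat_lit 0xf480b7) (nat_lit 0x20bae3c57c483a) (nat_lit 0x0)
  (PL.C (nat_lit 0xf53b56) (nat_lit 0x0) (nat_lit 0x16359c6fe128512)
  (PL.C (nat_lit 0xf597f6) (nat_lit 0x0) (nat_lit 0x1b481e0e00661f7)
  (PL.C (nat_lit 0xf5d039) (nat_lit 0x39e49db19c1e17b) (nat_lit 0x0)
  (PL.C (nat_lit 0xf68c38) (nat_lit 0x0) (nat_lit 0x3565e68ba58f046)
  (PL.C (nat_lit 0xf6a423) (nat_lit 0x8c3c44c985fe993) (nat_lit 0x0)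
  (PL.C (nat_lit 0xf7824e) (nat_lit 0xd2186df732f65c) (nat_lit 0x0) gp0_0_84))))))))))))))))))))

noncomputable def gp0_0_82 : PL :=
  (PL.C (nat_lit 0xe92659) (nat_lit 0x6eec4aeb4863e6) (nat_lit 0x0)
  (PL.C (nat_lit 0xe96004) (nat_lit 0x0) (nat_lit 0x18e1aa21d85533e)
  (PL.C (nat_lit 0xe97f1e) (nat_lit 0x0) (nat_lit 0x19193b6e1bfa24a)
  (PL.C (nat_lit 0xe9c32a) (nat_lit 0x0) (nat_lit 0x36aaef41e65df38)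
  (PL.C (nat_lit 0xea6159) (nat_lit 0x60ff7e92e5baf45) (nat_lit 0x0)
  (PL.C (nat_lit 0xea6758) (nat_lit 0x0) (nat_lit 0x1af7425ca8b500)
  (PL.C (nat_lit 0xead6a7) (nat_lit 0x0) (nat_lit 0x2fd39bfa7b67201)
  (PL.C (nat_lit 0xeb4a74) (nat_lit 0x6a3d74e1ae5f3b7) (nat_lit 0x0)
  (PL.C (nat_lit 0xeb5cb7) (nat_lit 0xa6e22fc2373945) (nat_lit 0x0)
  (PL.C (nat_lit 0xeb9281) (nat_lit 0x0) (nat_lit 0x3ab0e4a672c322)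
  (PL.C (nat_lit 0xebab9b) (nat_lit 0x2ac7a5f99225874) (nat_lit 0x0)
  (PL.C (nat_lit 0xec46cc) (nat_lit 0x50e9331ab78bf3) (nat_lit 0x0)
  (PL.C (nat_lit 0xec4a1e) (nat_lit 0x0) (nat_lit 0x23fbe63d96c316a3)
  (PL.C (nat_lit 0xec6be8) (nat_lit 0x0) (nat_lit 0x3007814f915439)
  (PL.C (nat_lit 0xed61f4) (nat_lit 0xcc41be3739be54) (nat_lit 0x0)
  (PL.C (nat_lit 0xed8cfd) (nat_lit 0x0) (nat_lit 0x103521c32c42f32)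
  (PL.C (nat_lit 0xee0d76) (nat_lit 0x0) (nat_lit 0x1cd2478595cacc6)
  (PL.C (nat_lit 0xee0f18) (nat_lit 0x0) (nat_lit 0xd22f5b1c31585)
  (PL.C (nat_lit 0xeefa38) (nat_lit 0x0) (nat_lit 0x1cc2891aec5be43)
  (PL.C (nat_lit 0xef11c4) (nat_lit 0x0) (nat_lit 0xc0740abd432b03) gp0_0_83))))))))))))))))))))

noncomputable def gp0_0_81 : PL :=
  (PL.C (nat_lit 0xe2153b) (nat_lit 0x7596cd9237a2db2) (nat_lit 0x0)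
  (PL.C (nat_lit 0xe295aa) (nat_lit 0x493bccde0e27cbc) (nat_lit 0x0)
  (PL.C (nat_lit 0xe30acc) (nat_lit 0x0) (nat_lit 0x2b15467081f7a9f)
  (PL.C (nat_lit 0xe361c4) (nat_lit 0x0) (nat_lit 0x5d82972cc14870)
  (PL.C (nat_lit 0xe3bfa7) (nat_lit 0xa4e057cabca2) (nat_lit 0x0)
  (PL.C (nat_lit 0xe3f7fc) (nat_lit 0x4309545e3606d5e) (nat_lit 0x0)
  (PL.C (nat_lit 0xe44ec8) (nat_lit 0x22c02d548862f5) (nat_lit 0x0)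
  (PL.C (nat_lit 0xe458d6) (nat_lit 0xe380b9e40826246) (nat_lit 0x0)
  (PL.C (nat_lit 0xe52bfc) (nat_lit 0x0) (nat_lit 0xbe2056e970a259)
  (PL.C (nat_lit 0xe621c4) (nat_lit 0x2061f74bbdcdac) (nat_lit 0x0)
  (PL.C (nat_lit 0xe6565c) (nat_lit 0x16af3515b50a946) (nat_lit 0x0)
  (PL.C (nat_lit 0xe668fb) (nat_lit 0x0) (nat_lit 0x3ab0e4b5af5f14)
  (PL.C (nat_lit 0xe6c9a4) (nat_lit 0x0) (nat_lit 0xe7fcde27681c6)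
  (PL.C (nat_lit 0xe728ef) (nat_lit 0x6eec4ae95fc1f2) (nat_lit 0x0)
  (PL.C (nat_lit 0xe7621c) (nat_lit 0x0) (nat_lit 0xd013fb7bb82115)
  (PL.C (nat_lit 0xe7d40c) (nat_lit 0xd2afae46894f7d) (nat_lit 0x0)
  (PL.C (nat_lit 0xe833c5) (nat_lit 0x8a22b908d2e364) (nat_lit 0x0)
  (PL.C (nat_lit 0xe86d34) (nat_lit 0x0) (nat_lit 0x2f3a5d836efd661)
  (PL.C (nat_lit 0xe88cb7) (nat_lit 0x0) (nat_lit 0x1432eba4677c3e)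
  (PL.C (nat_lit 0xe8c63c) (nat_lit 0x6a6d4be6041cee) (nat_lit 0x0) gp0_0_82))))))))))))))))))))

noncomputable def gp0_0_80 : PL :=
  (PL.C (nat_lit 0xda7bc7) (nat_lit 0x699013b7f2fda8b) (nat_lit 0x0)
  (PL.C (nat_lit 0xdabdc1) (nat_lit 0x6f2e22ad50e12c) (nat_lit 0x0)
  (PL.C (nat_lit 0xdb118b) (nat_lit 0xfec8855596f13a) (nat_lit 0x0)
  (PL.C (nat_lit 0xdb1ad6) (nat_lit 0x12ceabeff4660ba0) (nat_lit 0x0)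
  (PL.C (nat_lit 0xdba245) (nat_lit 0x0) (nat_lit 0x1de0a137ed99090)
  (PL.C (nat_lit 0xdbf38a) (nat_lit 0x3ab567f274fc91c) (nat_lit 0x0)
  (PL.C (nat_lit 0xddd07e) (nat_lit 0x3ce6bac3396141) (nat_lit 0x0)
  (PL.C (nat_lit 0xde021f) (nat_lit 0x374c3666ebd21b37) (nat_lit 0x0)
  (PL.C (nat_lit 0xde3f82) (nat_lit 0x2632ce8fe23411) (nat_lit 0x0)
  (PL.C (nat_lit 0xdeb004) (nat_lit 0x35aa0117daf861) (nat_lit 0x0)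
  (PL.C (nat_lit 0xdebe62) (nat_lit 0x17e23b18cf78cd) (nat_lit 0x0)
  (PL.C (nat_lit 0xdedeec) (nat_lit 0x3af1dbe99bf569) (nat_lit 0x0)
  (PL.C (nat_lit 0xdf16d7) (nat_lit 0x8c3c44ca679e107) (nat_lit 0x0)
  (PL.C (nat_lit 0xdfaa39) (nat_lit 0x0) (nat_lit 0x3f07b3ec7ec586c)
  (PL.C (nat_lit 0xe00619) (nat_lit 0x9ccd82ca10e1f8) (nat_lit 0x0)
  (PL.C (nat_lit 0xe09ec2) (nat_lit 0x11d306e62508546) (nat_lit 0x0)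
  (PL.C (nat_lit 0xe0c526) (nat_lit 0x70b3cea69a1249) (nat_lit 0x0)
  (PL.C (nat_lit 0xe14a34) (nat_lit 0x125492e50ae1ba2) (nat_lit 0x0)
  (PL.C (nat_lit 0xe17e28) (nat_lit 0x16b9365a3e6ad4) (nat_lit 0x0)
  (PL.C (nat_lit 0xe205e4) (nat_lit 0x23b48ff46d4a314) (nat_lit 0x0) gp0_0_81))))))))))))))))))))

noncomputable def gp0_0_79 : PL :=
  (PL.C (nat_lit 0xd5e15c) (nat_lit 0x0) (nat_lit 0xbe2056a0c6aa49)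
  (PL.C (nat_lit 0xd63b24) (nat_lit 0x0) (nat_lit 0x2eeb4ddfd55b2e)
  (PL.C (nat_lit 0xd674e1) (nat_lit 0x0) (nat_lit 0x373ae147036046)
  (PL.C (nat_lit 0xd68bbb) (nat_lit 0x0) (nat_lit 0x13ec5481138bcf0)
  (PL.C (nat_lit 0xd6c0cc) (nat_lit 0x5a7c7be27aa36f4) (nat_lit 0x0)
  (PL.C (nat_lit 0xd7028f) (nat_lit 0xf50c99f4a771e8) (nat_lit 0x0)
  (PL.C (nat_lit 0xd7521e) (nat_lit 0x0) (nat_lit 0x3887134576262b1)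
  (PL.C (nat_lit 0xd7611c) (nat_lit 0x0) (nat_lit 0x7fa329f87eb535)
  (PL.C (nat_lit 0xd7bde2) (nat_lit 0x46104fd4aa2b14e) (nat_lit 0x0)
  (PL.C (nat_lit 0xd83c15) (nat_lit 0x0) (nat_lit 0x4301d5a92ca486a)
  (PL.C (nat_lit 0xd87e5d) (nat_lit 0xd3400800c588) (nat_lit 0x0)
  (PL.C (nat_lit 0xd883d6) (nat_lit 0x220510bad76cce) (nat_lit 0x0)
  (PL.C (nat_lit 0xd91324) (nat_lit 0x4da3b7228471b18) (nat_lit 0x0)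
  (PL.C (nat_lit 0xd9559d) (nat_lit 0x0) (nat_lit 0x2706ab39b6995be)
  (PL.C (nat_lit 0xd9c263) (nat_lit 0x0) (nat_lit 0x1ea02ebd2ab7588)
  (PL.C (nat_lit 0xd9cb38) (nat_lit 0x0) (nat_lit 0x3215fb2e80e5e1)
  (PL.C (nat_lit 0xd9e9c8) (nat_lit 0x46b4aed1df25e) (nat_lit 0x0)
  (PL.C (nat_lit 0xda2dc4) (nat_lit 0x16331200965518d) (nat_lit 0x0)
  (PL.C (nat_lit 0xda3eb3) (nat_lit 0x2c6b4d5e1b777) (nat_lit 0x0)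
  (PL.C (nat_lit 0xda60fa) (nat_lit 0xc6e337ff75b73a) (nat_lit 0x0) gp0_0_80))))))))))))))))))))

noncomputable def gp0_0_78 : PL :=
  (PL.C (nat_lit 0xce81a8) (nat_lit 0x0) (nat_lit 0x168b32fc720849)
  (PL.C (nat_lit 0xcedd53) (nat_lit 0x0) (nat_lit 0x48bf73b07632789)
  (PL.C (nat_lit 0xcf65fd) (nat_lit 0x0) (nat_lit 0x1ee793172b6ede8)
  (PL.C (nat_lit 0xd14c5a) (nat_lit 0x0) (nat_lit 0x2fce3632e389ba)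
  (PL.C (nat_lit 0xd1b0dc) (nat_lit 0xf97dbb0d0a6542) (nat_lit 0x0)
  (PL.C (nat_lit 0xd1c734) (nat_lit 0x4288d778745bacb) (nat_lit 0x0)
  (PL.C (nat_lit 0xd20771) (nat_lit 0x0) (nat_lit 0x7c33b4b2c2b60d)
  (PL.C (nat_lit 0xd21b12) (nat_lit 0x20aa3aeb590fa26) (nat_lit 0x0)
  (PL.C (nat_lit 0xd23b64) (nat_lit 0x0) (nat_lit 0x1b4ae2eafbc07fe)
  (PL.C (nat_lit 0xd2708f) (nat_lit 0x0) (nat_lit 0x6a2798e019440e)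
  (PL.C (nat_lit 0xd2a49c) (nat_lit 0x19bf867091cb472) (nat_lit 0x0)
  (PL.C (nat_lit 0xd2d854) (nat_lit 0x0) (nat_lit 0x9dcb10c571f989)
  (PL.C (nat_lit 0xd30b51) (nat_lit 0x2c6b4d5e1b777) (nat_lit 0x0)
  (PL.C (nat_lit 0xd32f63) (nat_lit 0x0) (nat_lit 0x259b5edcedc1b)
  (PL.C (nat_lit 0xd33326) (nat_lit 0x0) (nat_lit 0x10fdde1fecb0dc3)
  (PL.C (nat_lit 0xd39cda) (nat_lit 0x0) (nat_lit 0x187a47b9248838)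
  (PL.C (nat_lit 0xd3bd6e) (nat_lit 0x0) (nat_lit 0x167c8f7ee57003b8)
  (PL.C (nat_lit 0xd493dc) (nat_lit 0x1bdd5ec12157b6) (nat_lit 0x0)
  (PL.C (nat_lit 0xd4eb94) (nat_lit 0x280fc4c5c519fc4) (nat_lit 0x0)
  (PL.C (nat_lit 0xd5cc9e) (nat_lit 0x0) (nat_lit 0x3a0d2d3c692c6c) gp0_0_79))))))))))))))))))))

noncomputable def gp0_0_77 : PL :=
  (PL.C (nat_lit 0xc8744a) (nat_lit 0x1259a35990893ca) (nat_lit 0x0)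
  (PL.C (nat_lit 0xc89ee4) (nat_lit 0x0) (nat_lit 0xb0ce01670e363)
  (PL.C (nat_lit 0xc8f578) (nat_lit 0x0) (nat_lit 0x3215fb2028b6f0)
  (PL.C (nat_lit 0xc94872) (nat_lit 0x1c9436a3e2dece) (nat_lit 0x0)
  (PL.C (nat_lit 0xc9c606) (nat_lit 0x0) (nat_lit 0x36c80f0fe390a8d)
  (PL.C (nat_lit 0xc9cfd4) (nat_lit 0xa987376c6fc822) (nat_lit 0x0)
  (PL.C (nat_lit 0xca1bbf) (nat_lit 0x4410db855b93aa3) (nat_lit 0x0)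
  (PL.C (nat_lit 0xca9803) (nat_lit 0x7df302d6f72f4b) (nat_lit 0x0)
  (PL.C (nat_lit 0xcac722) (nat_lit 0x711b45b63b9e9) (nat_lit 0x0)
  (PL.C (nat_lit 0xcb0b1a) (nat_lit 0x0) (nat_lit 0x4981e5e873fed5)
  (PL.C (nat_lit 0xcb1d6c) (nat_lit 0x0) (nat_lit 0x130383bc89a21)
  (PL.C (nat_lit 0xcbf179) (nat_lit 0x0) (nat_lit 0x134ff9954d61ff9)
  (PL.C (nat_lit 0xcbf472) (nat_lit 0x0) (nat_lit 0x86b2f7d4660d6)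
  (PL.C (nat_lit 0xcc9f66) (nat_lit 0x0) (nat_lit 0x1bd931e7b63884f)
  (PL.C (nat_lit 0xcca446) (nat_lit 0x0) (nat_lit 0xffb5cf307e535fb)
  (PL.C (nat_lit 0xcd5c9c) (nat_lit 0x0) (nat_lit 0x2b1546719b8ef69)
  (PL.C (nat_lit 0xcdaeb6) (nat_lit 0xb3be0f545ded80) (nat_lit 0x0)
  (PL.C (nat_lit 0xcdc364) (nat_lit 0x2901988abc670) (nat_lit 0x0)
  (PL.C (nat_lit 0xcdd15b) (nat_lit 0x1742493e762c4af3) (nat_lit 0x0)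
  (PL.C (nat_lit 0xcddcbb) (nat_lit 0x0) (nat_lit 0x376a41b234cf6a0) gp0_0_78))))))))))))))))))))

noncomputable def gp0_0_76 : PL :=
  (PL.C (nat_lit 0xc3c8af) (nat_lit 0x299e0140e2b21d9) (nat_lit 0x0)
  (PL.C (nat_lit 0xc3d6fe) (nat_lit 0xc6e337ec5eb6d4) (nat_lit 0x0)
  (PL.C (nat_lit 0xc3f91c) (nat_lit 0xc6a2f7570f5c6a) (nat_lit 0x0)
  (PL.C (nat_lit 0xc43902) (nat_lit 0x0) (nat_lit 0x59434776e6fda5)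
  (PL.C (nat_lit 0xc4499c) (nat_lit 0x330e2eea1c54c7) (nat_lit 0x0)
  (PL.C (nat_lit 0xc54a28) (nat_lit 0x6bdb4481fc58e2) (nat_lit 0x0)
  (PL.C (nat_lit 0xc56f64) (nat_lit 0x0) (nat_lit 0x5d35f2a7e13ccf1)
  (PL.C (nat_lit 0xc58692) (nat_lit 0x220510b49c299e) (nat_lit 0x0)
  (PL.C (nat_lit 0xc5da7d) (nat_lit 0x0) (nat_lit 0x674e8db74d2bb1a)
  (PL.C (nat_lit 0xc5e96e) (nat_lit 0x0) (nat_lit 0x45a9e77e378b57)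
  (PL.C (nat_lit 0xc61263) (nat_lit 0x69be0f1b750db6) (nat_lit 0x0)
  (PL.C (nat_lit 0xc6534c) (nat_lit 0x0) (nat_lit 0x2079cd9f41c9a06)
  (PL.C (nat_lit 0xc65d33) (nat_lit 0x293a0a39a6a8330) (nat_lit 0x0)
  (PL.C (nat_lit 0xc69f44) (nat_lit 0x355edad54b0493b) (nat_lit 0x0)
  (PL.C (nat_lit 0xc6f147) (nat_lit 0x2ac7a5fc09836fd) (nat_lit 0x0)
  (PL.C (nat_lit 0xc7227c) (nat_lit 0x0) (nat_lit 0xc924190b5d7ccc4)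
  (PL.C (nat_lit 0xc77716) (nat_lit 0x140a733160476f9c) (nat_lit 0x0)
  (PL.C (nat_lit 0xc7e93f) (nat_lit 0x9c53707afbef31) (nat_lit 0x0)
  (PL.C (nat_lit 0xc80d2a) (nat_lit 0x0) (nat_lit 0x4eeb0c9f9a624f2)
  (PL.C (nat_lit 0xc86d51) (nat_lit 0x0) (nat_lit 0x270828b8ba9310) gp0_0_77))))))))))))))))))))

noncomputable def gp0_0_75 : PL :=
  (PL.C (nat_lit 0xbd9d4a) (nat_lit 0x0) (nat_lit 0x181a0a2c93c4e1d)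
  (PL.C (nat_lit 0xbe2e04) (nat_lit 0x16af3514a85afc0) (nat_lit 0x0)
  (PL.C (nat_lit 0xbecc74) (nat_lit 0x4309545e2c01c6a) (nat_lit 0x0)
  (PL.C (nat_lit 0xbed967) (nat_lit 0x0) (nat_lit 0x7ff829501a325c)
  (PL.C (nat_lit 0xbf45d2) (nat_lit 0x0) (nat_lit 0x3ca91065ff37d5b)
  (PL.C (nat_lit 0xbf6ee4) (nat_lit 0x0) (nat_lit 0x3de04934f45a5)
  (PL.C (nat_lit 0xbfdcb8) (nat_lit 0x0) (nat_lit 0x344545c6a9b7b1)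
  (PL.C (nat_lit 0xc045f3) (nat_lit 0x15c3c586893bfef) (nat_lit 0x0)
  (PL.C (nat_lit 0xc070ec) (nat_lit 0x23b48ff479e90c2) (nat_lit 0x0)
  (PL.C (nat_lit 0xc0c2ae) (nat_lit 0x0) (nat_lit 0x4424b2dc4ab8401)
  (PL.C (nat_lit 0xc11832) (nat_lit 0xe7c800c5d6eb55) (nat_lit 0x0)
  (PL.C (nat_lit 0xc174ec) (nat_lit 0x0) (nat_lit 0x34c9d2d863e8c2d)
  (PL.C (nat_lit 0xc18388) (nat_lit 0x0) (nat_lit 0x6c627ef9014d68)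
  (PL.C (nat_lit 0xc1ab94) (nat_lit 0x0) (nat_lit 0x8da8dbbf358322)
  (PL.C (nat_lit 0xc1c4cd) (nat_lit 0x197202689b2e3da) (nat_lit 0x0)
  (PL.C (nat_lit 0xc270cc) (nat_lit 0x125492e51046860) (nat_lit 0x0)
  (PL.C (nat_lit 0xc28584) (nat_lit 0x0) (nat_lit 0x2b4ddc8f712c50d)
  (PL.C (nat_lit 0xc2c115) (nat_lit 0x959fe12f6a68d) (nat_lit 0x0)
  (PL.C (nat_lit 0xc2d94e) (nat_lit 0x0) (nat_lit 0x1b481e114e14583)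
  (PL.C (nat_lit 0xc39b18) (nat_lit 0x0) (nat_lit 0x1a8c691f83cfcd4) gp0_0_76))))))))))))))))))))

noncomputable def gp0_0_74 : PL :=
  (PL.C (nat_lit 0xb7da18) (nat_lit 0x0) (nat_lit 0xd22f5abd062e7)
  (PL.C (nat_lit 0xb817b8) (nat_lit 0x1eefc4efa49198) (nat_lit 0x0)
  (PL.C (nat_lit 0xb86704) (nat_lit 0x0) (nat_lit 0x11295bf91d5619)
  (PL.C (nat_lit 0xb86f23) (nat_lit 0x0) (nat_lit 0xd1dd7bf90358108)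
  (PL.C (nat_lit 0xb919ae) (nat_lit 0x0) (nat_lit 0x7d9a90a5f091aa)
  (PL.C (nat_lit 0xb96698) (nat_lit 0x1cbfc738d01b9) (nat_lit 0x0)
  (PL.C (nat_lit 0xb97652) (nat_lit 0x0) (nat_lit 0x59f1d51e9a70a0b)
  (PL.C (nat_lit 0xb98092) (nat_lit 0x2c222e0304ee98) (nat_lit 0x0)
  (PL.C (nat_lit 0xb98648) (nat_lit 0xaf7b7bd7f3646) (nat_lit 0x0)
  (PL.C (nat_lit 0xb9e032) (nat_lit 0x0) (nat_lit 0x181a0a319f3c4c9)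
  (PL.C (nat_lit 0xbb195e) (nat_lit 0x2c222e104abd35) (nat_lit 0x0)
  (PL.C (nat_lit 0xbb3ef6) (nat_lit 0x3ce6bab22664ab) (nat_lit 0x0)
  (PL.C (nat_lit 0xbb5bde) (nat_lit 0x0) (nat_lit 0x42ea7a920faa9c)
  (PL.C (nat_lit 0xbb68db) (nat_lit 0x0) (nat_lit 0x14ac827a04510be)
  (PL.C (nat_lit 0xbb8ea4) (nat_lit 0x1f758f5c22bdc4) (nat_lit 0x0)
  (PL.C (nat_lit 0xbbbaaa) (nat_lit 0x0) (nat_lit 0x180fbcd4205a0e)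
  (PL.C (nat_lit 0xbc5273) (nat_lit 0x0) (nat_lit 0x5e96fe46226bc8e)
  (PL.C (nat_lit 0xbc97e7) (nat_lit 0xf50c9a0dcffc32) (nat_lit 0x0)
  (PL.C (nat_lit 0xbccedd) (nat_lit 0x137f90b82256d12) (nat_lit 0x0)
  (PL.C (nat_lit 0xbd14ba) (nat_lit 0x266fab389f88773f) (nat_lit 0x0) gp0_0_75))))))))))))))))))))

noncomputable def gp0_0_73 : PL :=
  (PL.C (nat_lit 0xb1e898) (nat_lit 0x5eb6adae7cef47) (nat_lit 0x0)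
  (PL.C (nat_lit 0xb27abc) (nat_lit 0x43beeecc3fc2b54) (nat_lit 0x0)
  (PL.C (nat_lit 0xb3631c) (nat_lit 0x0) (nat_lit 0x2ce327bb4b65478)
  (PL.C (nat_lit 0xb370a8) (nat_lit 0x37323c179852d0a) (nat_lit 0x0)
  (PL.C (nat_lit 0xb3a0ba) (nat_lit 0x0) (nat_lit 0xaba95505a6d8b)
  (PL.C (nat_lit 0xb3b659) (nat_lit 0x0) (nat_lit 0x107858b0772404d)
  (PL.C (nat_lit 0xb3bce4) (nat_lit 0x0) (nat_lit 0x2a8566bd7b55a81)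
  (PL.C (nat_lit 0xb49e02) (nat_lit 0x18083ad7271ad25) (nat_lit 0x0)
  (PL.C (nat_lit 0xb4fc18) (nat_lit 0x5eb6adae7cef47) (nat_lit 0x0)
  (PL.C (nat_lit 0xb540b4) (nat_lit 0x1865cb40691806f) (nat_lit 0x0)
  (PL.C (nat_lit 0xb548fc) (nat_lit 0x0) (nat_lit 0x1698dc1901b031)
  (PL.C (nat_lit 0xb56c89) (nat_lit 0x644868aaed99) (nat_lit 0x0)
  (PL.C (nat_lit 0xb58b8b) (nat_lit 0x0) (nat_lit 0x77986c72987a1)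
  (PL.C (nat_lit 0xb68929) (nat_lit 0x0) (nat_lit 0x4301d5accf13127)
  (PL.C (nat_lit 0xb6bdfc) (nat_lit 0x0) (nat_lit 0x236f4c5bca8831)
  (PL.C (nat_lit 0xb73eb4) (nat_lit 0xa7f5586172debc5) (nat_lit 0x0)
  (PL.C (nat_lit 0xb76156) (nat_lit 0x45944432bf93dc2) (nat_lit 0x0)
  (PL.C (nat_lit 0xb76a1a) (nat_lit 0x497e379cdc2c7a) (nat_lit 0x0)
  (PL.C (nat_lit 0xb776d1) (nat_lit 0x15c3c5885bf0afa) (nat_lit 0x0)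
  (PL.C (nat_lit 0xb7c5e6) (nat_lit 0x948ac19529a8d) (nat_lit 0x0) gp0_0_74))))))))))))))))))))

noncomputable def gp0_0_72 : PL :=
  (PL.C (nat_lit 0xac04f4) (nat_lit 0x0) (nat_lit 0xee382020499251)
  (PL.C (nat_lit 0xac4bfb) (nat_lit 0x959fe1327738f) (nat_lit 0x0)
  (PL.C (nat_lit 0xac5b0c) (nat_lit 0x0) (nat_lit 0x2c7e9e3363152)
  (PL.C (nat_lit 0xacbfde) (nat_lit 0xcd0217dd1d73a4c) (nat_lit 0x0)
  (PL.C (nat_lit 0xad020a) (nat_lit 0x0) (nat_lit 0x3ffe07fa23a0ffe)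
  (PL.C (nat_lit 0xad0862) (nat_lit 0x68c79936c2707a) (nat_lit 0x0)
  (PL.C (nat_lit 0xad7456) (nat_lit 0x17b99f94d1986af) (nat_lit 0x0)
  (PL.C (nat_lit 0xadbb96) (nat_lit 0x0) (nat_lit 0xaed9b6ac68dde8)
  (PL.C (nat_lit 0xadbe07) (nat_lit 0xa70d9125fa1659b) (nat_lit 0x0)
  (PL.C (nat_lit 0xae8bca) (nat_lit 0x2fdc7afb2944ea) (nat_lit 0x0)
  (PL.C (nat_lit 0xaee0a3) (nat_lit 0x0) (nat_lit 0x1505f7e58196e4)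
  (PL.C (nat_lit 0xaf5462) (nat_lit 0x0) (nat_lit 0xa8f9f471a0d76ca)
  (PL.C (nat_lit 0xafa2d8) (nat_lit 0x4420492d30300) (nat_lit 0x0)
  (PL.C (nat_lit 0xafaa81) (nat_lit 0x0) (nat_lit 0x68a7a666920f8d)
  (PL.C (nat_lit 0xafb7fc) (nat_lit 0x0) (nat_lit 0xa6d74ce873156c)
  (PL.C (nat_lit 0xafedcb) (nat_lit 0x0) (nat_lit 0x1478186bd70c57)
  (PL.C (nat_lit 0xb06205) (nat_lit 0x0) (nat_lit 0x1be8fbe109aa11)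
  (PL.C (nat_lit 0xb0f823) (nat_lit 0x3b7046b3cab886a) (nat_lit 0x0)
  (PL.C (nat_lit 0xb177f4) (nat_lit 0x0) (nat_lit 0x11295bf763394c)
  (PL.C (nat_lit 0xb1c13b) (nat_lit 0x0) (nat_lit 0x4339c8a8a08d5) gp0_0_73))))))))))))))))))))

noncomputable def gp0_0_71 : PL :=
  (PL.C (nat_lit 0xa5cdb4) (nat_lit 0x0) (nat_lit 0x1303831d6b0ef)
  (PL.C (nat_lit 0xa5de7e) (nat_lit 0x6fe0d9931fbe82d) (nat_lit 0x0)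
  (PL.C (nat_lit 0xa63182) (nat_lit 0x11cdb1f796791c) (nat_lit 0x0)
  (PL.C (nat_lit 0xa64bb8) (nat_lit 0x0) (nat_lit 0xc21b6b7686a19)
  (PL.C (nat_lit 0xa69062) (nat_lit 0x1c9436a4608f13) (nat_lit 0x0)
  (PL.C (nat_lit 0xa73864) (nat_lit 0x18ced5ceda0aba1) (nat_lit 0x0)
  (PL.C (nat_lit 0xa7733f) (nat_lit 0xd186d26f86361b) (nat_lit 0x0)
  (PL.C (nat_lit 0xa936f2) (nat_lit 0xa5067225c750ae) (nat_lit 0x0)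
  (PL.C (nat_lit 0xa942ad) (nat_lit 0x5b7471c76299fa2) (nat_lit 0x0)
  (PL.C (nat_lit 0xa95d9e) (nat_lit 0x0) (nat_lit 0x16359c6efd53648)
  (PL.C (nat_lit 0xa96faa) (nat_lit 0x0) (nat_lit 0x1732cc251a26e4ed)
  (PL.C (nat_lit 0xa9b262) (nat_lit 0x4c9725be14e6a) (nat_lit 0x0)
  (PL.C (nat_lit 0xa9c508) (nat_lit 0x0) (nat_lit 0xcbccf635da9ce3)
  (PL.C (nat_lit 0xa9cd82) (nat_lit 0x0) (nat_lit 0x1cf128035eef11c)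
  (PL.C (nat_lit 0xa9eb04) (nat_lit 0x0) (nat_lit 0x1163b8116656234)
  (PL.C (nat_lit 0xaa1342) (nat_lit 0x0) (nat_lit 0x463eda8e45a089)
  (PL.C (nat_lit 0xaa227e) (nat_lit 0x18c4367ac46def2) (nat_lit 0x0)
  (PL.C (nat_lit 0xab054f) (nat_lit 0x830978e7a3632e6) (nat_lit 0x0)
  (PL.C (nat_lit 0xab2f9c) (nat_lit 0xe0db8781ad3c09) (nat_lit 0x0)
  (PL.C (nat_lit 0xabf95a) (nat_lit 0x4c6f3230802fc01) (nat_lit 0x0) gp0_0_72))))))))))))))))))))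

noncomputable def gp0_0_70 : PL :=
  (PL.C (nat_lit 0x9f7782) (nat_lit 0x0) (nat_lit 0x72ade2c1c3f69b)
  (PL.C (nat_lit 0x9f9d22) (nat_lit 0x0) (nat_lit 0x221e2c0b0f2e84c1)
  (PL.C (nat_lit 0xa0247c) (nat_lit 0x0) (nat_lit 0x81737bea866e25)
  (PL.C (nat_lit 0xa02f96) (nat_lit 0x0) (nat_lit 0x4ab2e239f5764a2)
  (PL.C (nat_lit 0xa06cf2) (nat_lit 0x20aa3aee1c802c1) (nat_lit 0x0)
  (PL.C (nat_lit 0xa0d6ee) (nat_lit 0x34d0f741e760069) (nat_lit 0x0)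
  (PL.C (nat_lit 0xa11b43) (nat_lit 0x48a90dd61ccb97e) (nat_lit 0x0)
  (PL.C (nat_lit 0xa19974) (nat_lit 0xcbb79ee819bb277) (nat_lit 0x0)
  (PL.C (nat_lit 0xa24eff) (nat_lit 0x0) (nat_lit 0x2706ab3ad0205d8)
  (PL.C (nat_lit 0xa2501c) (nat_lit 0x21ad6c982f86d) (nat_lit 0x0)
  (PL.C (nat_lit 0xa29321) (nat_lit 0x0) (nat_lit 0x220cd07988efb)
  (PL.C (nat_lit 0xa2f06c) (nat_lit 0x163311ff81f7038) (nat_lit 0x0)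
  (PL.C (nat_lit 0xa3007a) (nat_lit 0x1658d2f7ca7d038) (nat_lit 0x0)
  (PL.C (nat_lit 0xa37ce4) (nat_lit 0x0) (nat_lit 0x54cc8e87b65bb5)
  (PL.C (nat_lit 0xa3baa4) (nat_lit 0x2dd60fdb33d862) (nat_lit 0x0)
  (PL.C (nat_lit 0xa3c839) (nat_lit 0x0) (nat_lit 0x3bf663f9d08ab6)
  (PL.C (nat_lit 0xa3e026) (nat_lit 0x0) (nat_lit 0x1760aba386b515a)
  (PL.C (nat_lit 0xa545ab) (nat_lit 0x299e0140e2b21d9) (nat_lit 0x0)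
  (PL.C (nat_lit 0xa5499b) (nat_lit 0x0) (nat_lit 0x11ef9068a020ef5)
  (PL.C (nat_lit 0xa56e8c) (nat_lit 0x0) (nat_lit 0x188249dc159434) gp0_0_71))))))))))))))))))))

noncomputable def gp0_0_69 : PL :=
  (PL.C (nat_lit 0x9a7d51) (nat_lit 0x0) (nat_lit 0x48bf73afa561efa)
  (PL.C (nat_lit 0x9acd2e) (nat_lit 0x6fe0d9928d2e105) (nat_lit 0x0)
  (PL.C (nat_lit 0x9af378) (nat_lit 0x0) (nat_lit 0x2feb5b991e76fdd)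
  (PL.C (nat_lit 0x9b087a) (nat_lit 0x29260f7353d67e) (nat_lit 0x0)
  (PL.C (nat_lit 0x9b6ee6) (nat_lit 0x2553771f7ac4beb) (nat_lit 0x0)
  (PL.C (nat_lit 0x9b9558) (nat_lit 0x0) (nat_lit 0x6de72c7bf002e5)
  (PL.C (nat_lit 0x9baa14) (nat_lit 0x0) (nat_lit 0x1792d8cb67bca0a)
  (PL.C (nat_lit 0x9bb0ef) (nat_lit 0x7689cc07ab11f60) (nat_lit 0x0)
  (PL.C (nat_lit 0x9bf601) (nat_lit 0x4a6702d1d1a931) (nat_lit 0x0)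
  (PL.C (nat_lit 0x9c40e6) (nat_lit 0xcd0217d123ca472) (nat_lit 0x0)
  (PL.C (nat_lit 0x9c8f1a) (nat_lit 0x3ecbeb28e1c3798) (nat_lit 0x0)
  (PL.C (nat_lit 0x9ce87a) (nat_lit 0x11d306efbac4b11) (nat_lit 0x0)
  (PL.C (nat_lit 0x9d0c56) (nat_lit 0x4234e05899f0b6) (nat_lit 0x0)
  (PL.C (nat_lit 0x9d1d12) (nat_lit 0x3442fa3f4a38768) (nat_lit 0x0)
  (PL.C (nat_lit 0x9d60bf) (nat_lit 0xd186d27fd5ac22) (nat_lit 0x0)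
  (PL.C (nat_lit 0x9d8488) (nat_lit 0x16b93663f05409) (nat_lit 0x0)
  (PL.C (nat_lit 0x9e5dfe) (nat_lit 0x0) (nat_lit 0x6578efe542ba13)
  (PL.C (nat_lit 0x9eb3a4) (nat_lit 0x0) (nat_lit 0x26429eb1bb4f0c4)
  (PL.C (nat_lit 0x9ee43d) (nat_lit 0x1ace92250d371fe) (nat_lit 0x0)
  (PL.C (nat_lit 0x9f33c3) (nat_lit 0x3c97e131244b8c) (nat_lit 0x0) gp0_0_70))))))))))))))))))))

noncomputable def gp0_0_68 : PL :=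
  (PL.C (nat_lit 0x951c26) (nat_lit 0x0) (nat_lit 0x5773e09770329d)
  (PL.C (nat_lit 0x955966) (nat_lit 0x0) (nat_lit 0x3a0d2d507a657c)
  (PL.C (nat_lit 0x95bf2c) (nat_lit 0x22b089338525313) (nat_lit 0x0)
  (PL.C (nat_lit 0x95d8c4) (nat_lit 0x876ae52f9a0ff) (nat_lit 0x0)
  (PL.C (nat_lit 0x95f781) (nat_lit 0x658a540e381b0ec) (nat_lit 0x0)
  (PL.C (nat_lit 0x963178) (nat_lit 0xde869be31429e5) (nat_lit 0x0)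
  (PL.C (nat_lit 0x96811b) (nat_lit 0x0) (nat_lit 0x4420f9282461d6)
  (PL.C (nat_lit 0x96ae98) (nat_lit 0x4b2c67a4b03606) (nat_lit 0x0)
  (PL.C (nat_lit 0x96b8d2) (nat_lit 0x0) (nat_lit 0x2da6595ccb18946)
  (PL.C (nat_lit 0x973cb3) (nat_lit 0x0) (nat_lit 0xb252c196dac6c0)
  (PL.C (nat_lit 0x975c88) (nat_lit 0x0) (nat_lit 0x271334d948a2d9)
  (PL.C (nat_lit 0x97a09d) (nat_lit 0xe66b916cec266a) (nat_lit 0x0)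
  (PL.C (nat_lit 0x97d51a) (nat_lit 0x70b3cea6c92249) (nat_lit 0x0)
  (PL.C (nat_lit 0x97faa8) (nat_lit 0x171d2e68ec7e758) (nat_lit 0x0)
  (PL.C (nat_lit 0x99266d) (nat_lit 0x20b5fc7f066a68) (nat_lit 0x0)
  (PL.C (nat_lit 0x996bd8) (nat_lit 0x1cbfc708451e0) (nat_lit 0x0)
  (PL.C (nat_lit 0x998ee8) (nat_lit 0xef779e79a23b2) (nat_lit 0x0)
  (PL.C (nat_lit 0x999b52) (nat_lit 0x4234e0404b7c3f) (nat_lit 0x0)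
  (PL.C (nat_lit 0x9a1b4a) (nat_lit 0x2553771f7525778) (nat_lit 0x0)
  (PL.C (nat_lit 0x9a4168) (nat_lit 0x0) (nat_lit 0x5af318872bb4a1) gp0_0_69))))))))))))))))))))

noncomputable def gp0_0_67 : PL :=
  (PL.C (nat_lit 0x9057e4) (nat_lit 0x409f5965a418cf6) (nat_lit 0x0)
  (PL.C (nat_lit 0x90e3be) (nat_lit 0x0) (nat_lit 0x90c0d5b2a0f30ea)
  (PL.C (nat_lit 0x912c42) (nat_lit 0x1eed0bb780ca5e) (nat_lit 0x0)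
  (PL.C (nat_lit 0x9173d8) (nat_lit 0x0) (nat_lit 0x182afbda7dff874)
  (PL.C (nat_lit 0x917f22) (nat_lit 0x0) (nat_lit 0x2d2878336e789)
  (PL.C (nat_lit 0x9195fc) (nat_lit 0x38f9f6f17eb7b5e) (nat_lit 0x0)
  (PL.C (nat_lit 0x91a7da) (nat_lit 0x3b35dee4e3c2d48) (nat_lit 0x0)
  (PL.C (nat_lit 0x91d3d6) (nat_lit 0x1c14ff075b6321e) (nat_lit 0x0)
  (PL.C (nat_lit 0x920bb2) (nat_lit 0x9c1cd33bcf5121) (nat_lit 0x0)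
  (PL.C (nat_lit 0x9211e4) (nat_lit 0x859684172623125) (nat_lit 0x0)
  (PL.C (nat_lit 0x926c2e) (nat_lit 0x499014ef4713482) (nat_lit 0x0)
  (PL.C (nat_lit 0x92a25c) (nat_lit 0x0) (nat_lit 0x23216ddb52d00cc)
  (PL.C (nat_lit 0x92aa63) (nat_lit 0x0) (nat_lit 0xfd670a2f9b475df)
  (PL.C (nat_lit 0x92cf43) (nat_lit 0x27a6c1f0d3b350c) (nat_lit 0x0)
  (PL.C (nat_lit 0x9318bd) (nat_lit 0x0) (nat_lit 0x1cbf56f9c28af2f)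
  (PL.C (nat_lit 0x93e054) (nat_lit 0xf928af85b67d21) (nat_lit 0x0)
  (PL.C (nat_lit 0x94016a) (nat_lit 0x1140c48d6269fc28) (nat_lit 0x0)
  (PL.C (nat_lit 0x941d63) (nat_lit 0x0) (nat_lit 0xa6f5bf9c838fce)
  (PL.C (nat_lit 0x947558) (nat_lit 0xaf7b7bd7f3646) (nat_lit 0x0)
  (PL.C (nat_lit 0x947eec) (nat_lit 0x21ad6d77404d1) (nat_lit 0x0) gp0_0_68))))))))))))))))))))

noncomputable def gp0_0_66 : PL :=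
  (PL.C (nat_lit 0x8c2798) (nat_lit 0x0) (nat_lit 0x10447074c8e7d00)
  (PL.C (nat_lit 0x8c4b0a) (nat_lit 0x0) (nat_lit 0x145ffa85a0d923d)
  (PL.C (nat_lit 0x8c9038) (nat_lit 0x1eefc4e7d780a6) (nat_lit 0x0)
  (PL.C (nat_lit 0x8cb236) (nat_lit 0x0) (nat_lit 0x2d2878336e789)
  (PL.C (nat_lit 0x8cca42) (nat_lit 0x0) (nat_lit 0x62a433b8cff7fc)
  (PL.C (nat_lit 0x8cccc4) (nat_lit 0x0) (nat_lit 0x176de537d2d394e)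
  (PL.C (nat_lit 0x8d06e7) (nat_lit 0x0) (nat_lit 0x4339c87a4a1c9)
  (PL.C (nat_lit 0x8d133c) (nat_lit 0x0) (nat_lit 0x1168bfbfb49a0)
  (PL.C (nat_lit 0x8d28f4) (nat_lit 0x0) (nat_lit 0x7519bb1a400b721)
  (PL.C (nat_lit 0x8db7e8) (nat_lit 0x3c90ff3e01c880) (nat_lit 0x0)
  (PL.C (nat_lit 0x8ed218) (nat_lit 0x1480e5d86eac2c) (nat_lit 0x0)
  (PL.C (nat_lit 0x8ef896) (nat_lit 0x0) (nat_lit 0x697aece0d4b98c)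
  (PL.C (nat_lit 0x8f07d2) (nat_lit 0x0) (nat_lit 0x109867bd96e0c457)
  (PL.C (nat_lit 0x8f570a) (nat_lit 0xf964537cf169e0) (nat_lit 0x0)
  (PL.C (nat_lit 0x8f8c14) (nat_lit 0x0) (nat_lit 0x17159976f024de2)
  (PL.C (nat_lit 0x8fb809) (nat_lit 0x0) (nat_lit 0x68a7a666920f8d)
  (PL.C (nat_lit 0x8fd3ec) (nat_lit 0x1508a531e7f0bf0) (nat_lit 0x0)
  (PL.C (nat_lit 0x8ffff7) (nat_lit 0x7e6c58a6c4648c) (nat_lit 0x0)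
  (PL.C (nat_lit 0x90280e) (nat_lit 0x100db1b7e9734b56) (nat_lit 0x0)
  (PL.C (nat_lit 0x90543e) (nat_lit 0x0) (nat_lit 0x5651b31208d1cb) gp0_0_67))))))))))))))))))))

noncomputable def gp0_0_65 : PL :=
  (PL.C (nat_lit 0x875cbc) (nat_lit 0x1865cb3ffa5c045) (nat_lit 0x0)
  (PL.C (nat_lit 0x877197) (nat_lit 0x5b7471c82835b19) (nat_lit 0x0)
  (PL.C (nat_lit 0x87f84c) (nat_lit 0x0) (nat_lit 0xdc8399d5e84f8f)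
  (PL.C (nat_lit 0x8821ef) (nat_lit 0x0) (nat_lit 0x4420f9282461d6)
  (PL.C (nat_lit 0x886611) (nat_lit 0x41b752d255442a) (nat_lit 0x0)
  (PL.C (nat_lit 0x886a44) (nat_lit 0x0) (nat_lit 0x3de04934f45a5)
  (PL.C (nat_lit 0x886d84) (nat_lit 0x7f2984859a9465) (nat_lit 0x0)
  (PL.C (nat_lit 0x88ac61) (nat_lit 0x20bae3a6ed8782) (nat_lit 0x0)
  (PL.C (nat_lit 0x88e868) (nat_lit 0x0) (nat_lit 0x271334c83884a5)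
  (PL.C (nat_lit 0x891f24) (nat_lit 0x13836bbe04069d2) (nat_lit 0x0)
  (PL.C (nat_lit 0x893dd2) (nat_lit 0x0) (nat_lit 0xe22dc6d83b41f36)
  (PL.C (nat_lit 0x8992a7) (nat_lit 0x1b96da4bbdc4e3) (nat_lit 0x0)
  (PL.C (nat_lit 0x89e8e2) (nat_lit 0x0) (nat_lit 0x1bcb04271013f7)
  (PL.C (nat_lit 0x8a43fe) (nat_lit 0x0) (nat_lit 0x214737e56644e82)
  (PL.C (nat_lit 0x8b0f65) (nat_lit 0x0) (nat_lit 0x376a41b234cf6a0)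
  (PL.C (nat_lit 0x8b8747) (nat_lit 0xfaaabee9fc3444) (nat_lit 0x0)
  (PL.C (nat_lit 0x8b883c) (nat_lit 0x0) (nat_lit 0x3bd07185b61419)
  (PL.C (nat_lit 0x8bc1d9) (nat_lit 0x0) (nat_lit 0x1730917a67a31)
  (PL.C (nat_lit 0x8c04f6) (nat_lit 0x459444322e20b0c) (nat_lit 0x0)
  (PL.C (nat_lit 0x8c120c) (nat_lit 0x37f9105d73d4234) (nat_lit 0x0) gp0_0_66))))))))))))))))))))

noncomputable def gp0_0_64 : PL :=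
  (PL.C (nat_lit 0x83e6fe) (nat_lit 0x0) (nat_lit 0xb2ac5767c94cc58)
  (PL.C (nat_lit 0x83f0f4) (nat_lit 0x0) (nat_lit 0x36d46b0627e2bb)
  (PL.C (nat_lit 0x840c42) (nat_lit 0x0) (nat_lit 0xac1ae7aa9185b2)
  (PL.C (nat_lit 0x842902) (nat_lit 0x198f09fae71a75e) (nat_lit 0x0)
  (PL.C (nat_lit 0x843788) (nat_lit 0x0) (nat_lit 0x1a555e17786f920)
  (PL.C (nat_lit 0x843e22) (nat_lit 0x0) (nat_lit 0x25f91c8e4d6a627)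
  (PL.C (nat_lit 0x84a0da) (nat_lit 0x3442fa48653731d) (nat_lit 0x0)
  (PL.C (nat_lit 0x84c1a8) (nat_lit 0x0) (nat_lit 0x90578049e753773)
  (PL.C (nat_lit 0x84d9fb) (nat_lit 0x293a0a3ddefa211) (nat_lit 0x0)
  (PL.C (nat_lit 0x85462a) (nat_lit 0x2fdc7b1cf8648d) (nat_lit 0x0)
  (PL.C (nat_lit 0x855e1c) (nat_lit 0x0) (nat_lit 0xb5f52fc68ac4bfd)
  (PL.C (nat_lit 0x8586f3) (nat_lit 0x0) (nat_lit 0x1be8fbe0628256)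
  (PL.C (nat_lit 0x859e36) (nat_lit 0x0) (nat_lit 0x1374418f1a730fd)
  (PL.C (nat_lit 0x85a2dc) (nat_lit 0xa98737bf58a8fe) (nat_lit 0x0)
  (PL.C (nat_lit 0x86304c) (nat_lit 0x4bed30225b4fa7) (nat_lit 0x0)
  (PL.C (nat_lit 0x868404) (nat_lit 0x0) (nat_lit 0x5d35f2a7e13ccf1)
  (PL.C (nat_lit 0x86ad35) (nat_lit 0x0) (nat_lit 0x1505f7e06e99dd)
  (PL.C (nat_lit 0x86bd2a) (nat_lit 0x0) (nat_lit 0x4eb5980f570c7d9)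
  (PL.C (nat_lit 0x871002) (nat_lit 0x0) (nat_lit 0xa0ebe6d61766541)
  (PL.C (nat_lit 0x872f6c) (nat_lit 0x11d702f16c1fbf) (nat_lit 0x0) gp0_0_65))))))))))))))))))))

noncomputable def gp0_0_63 : PL :=
  (PL.C (nat_lit 0x7f32f8) (nat_lit 0x171d2e68ec7e758) (nat_lit 0x0)
  (PL.C (nat_lit 0x7f3b9a) (nat_lit 0x0) (nat_lit 0x14b26b122d6fb1f6)
  (PL.C (nat_lit 0x7fbea3) (nat_lit 0x0) (nat_lit 0x14103d2a63fa64)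
  (PL.C (nat_lit 0x802ea2) (nat_lit 0x207abd13421e270) (nat_lit 0x0)
  (PL.C (nat_lit 0x804b48) (nat_lit 0x4b2c67a4b03606) (nat_lit 0x0)
  (PL.C (nat_lit 0x80bacc) (nat_lit 0xf0b0c4b2fa1a3) (nat_lit 0x0)
  (PL.C (nat_lit 0x80eb39) (nat_lit 0x181b7e515a0f876) (nat_lit 0x0)
  (PL.C (nat_lit 0x80f259) (nat_lit 0x25bf13f48827b60) (nat_lit 0x0)
  (PL.C (nat_lit 0x812dde) (nat_lit 0x2bf84dc974a9087) (nat_lit 0x0)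
  (PL.C (nat_lit 0x816183) (nat_lit 0x3830c1f6feaa762) (nat_lit 0x0)
  (PL.C (nat_lit 0x81a088) (nat_lit 0xde869be0787624) (nat_lit 0x0)
  (PL.C (nat_lit 0x81ae58) (nat_lit 0x0) (nat_lit 0x299472a049acd1c)
  (PL.C (nat_lit 0x81d60e) (nat_lit 0x0) (nat_lit 0x5e44ae34db429d)
  (PL.C (nat_lit 0x81e634) (nat_lit 0x2dd60fcf00bf20) (nat_lit 0x0)
  (PL.C (nat_lit 0x8285ca) (nat_lit 0x0) (nat_lit 0x10615cffcaec030)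
  (PL.C (nat_lit 0x828f54) (nat_lit 0x38f9f6f090889d8) (nat_lit 0x0)
  (PL.C (nat_lit 0x82d0ac) (nat_lit 0x0) (nat_lit 0x128248378392565)
  (PL.C (nat_lit 0x839f98) (nat_lit 0x0) (nat_lit 0x2730d12516789d2)
  (PL.C (nat_lit 0x83a7c5) (nat_lit 0x0) (nat_lit 0x7fa812d395b68b)
  (PL.C (nat_lit 0x83af0c) (nat_lit 0x409f5965e5bf3ac) (nat_lit 0x0) gp0_0_64))))))))))))))))))))

noncomputable def gp0_0_62 : PL :=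
  (PL.C (nat_lit 0x7aef58) (nat_lit 0x0) (nat_lit 0x955a363c80b8dc)
  (PL.C (nat_lit 0x7af4c2) (nat_lit 0x0) (nat_lit 0x8e14090ce59bf56)
  (PL.C (nat_lit 0x7b3087) (nat_lit 0x0) (nat_lit 0xddc3ae09c05d6f)
  (PL.C (nat_lit 0x7b6674) (nat_lit 0x0) (nat_lit 0x536c2bbc20d7663)
  (PL.C (nat_lit 0x7bab0c) (nat_lit 0x50ace51a3a930c1) (nat_lit 0x0)
  (PL.C (nat_lit 0x7beacc) (nat_lit 0x3a472a57ba3bda) (nat_lit 0x0)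
  (PL.C (nat_lit 0x7c4001) (nat_lit 0x0) (nat_lit 0xddc3ae006ab2ea)
  (PL.C (nat_lit 0x7cbb94) (nat_lit 0x50ace51b01d34a7) (nat_lit 0x0)
  (PL.C (nat_lit 0x7cd4a4) (nat_lit 0xf928af93b6b16d) (nat_lit 0x0)
  (PL.C (nat_lit 0x7cf092) (nat_lit 0x0) (nat_lit 0x6f597fa2e1199d6)
  (PL.C (nat_lit 0x7d082f) (nat_lit 0x0) (nat_lit 0x473144fa56898ad)
  (PL.C (nat_lit 0x7d0e29) (nat_lit 0x0) (nat_lit 0x12a59b1631201b)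
  (PL.C (nat_lit 0x7d271c) (nat_lit 0x0) (nat_lit 0x2eec6174cfe2994)
  (PL.C (nat_lit 0x7dba9a) (nat_lit 0x9b7df62386cd57) (nat_lit 0x0)
  (PL.C (nat_lit 0x7ddf3e) (nat_lit 0x0) (nat_lit 0x384034287bc75b)
  (PL.C (nat_lit 0x7e346b) (nat_lit 0x0) (nat_lit 0x1203e5ba43227e1)
  (PL.C (nat_lit 0x7e68dc) (nat_lit 0x3a4729e700dd45) (nat_lit 0x0)
  (PL.C (nat_lit 0x7e7395) (nat_lit 0x9bfc85ea2c856d) (nat_lit 0x0)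
  (PL.C (nat_lit 0x7ebbc5) (nat_lit 0x20b5fc207d5095) (nat_lit 0x0)
  (PL.C (nat_lit 0x7ec958) (nat_lit 0xef779e75f3a6e) (nat_lit 0x0) gp0_0_63))))))))))))))))))))

noncomputable def gp0_0_61 : PL :=
  (PL.C (nat_lit 0x75c8a3) (nat_lit 0x0) (nat_lit 0x296686503ae4aa1)
  (PL.C (nat_lit 0x75f5c1) (nat_lit 0x21d2a73903cd1ac) (nat_lit 0x0)
  (PL.C (nat_lit 0x75fac2) (nat_lit 0x1f54502dcc5f29b) (nat_lit 0x0)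
  (PL.C (nat_lit 0x7643af) (nat_lit 0x4bf4a954920313) (nat_lit 0x0)
  (PL.C (nat_lit 0x764ff8) (nat_lit 0x0) (nat_lit 0x955a3649a25432)
  (PL.C (nat_lit 0x7680d2) (nat_lit 0x0) (nat_lit 0x5622fbf3b3f640)
  (PL.C (nat_lit 0x769b10) (nat_lit 0x7ce27268b29e0c) (nat_lit 0x0)
  (PL.C (nat_lit 0x778afd) (nat_lit 0x0) (nat_lit 0x4148c9c699b99d7)
  (PL.C (nat_lit 0x779768) (nat_lit 0x0) (nat_lit 0x3856794185b9c85)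
  (PL.C (nat_lit 0x77a070) (nat_lit 0x20a29b172a7f7b9) (nat_lit 0x0)
  (PL.C (nat_lit 0x77c07c) (nat_lit 0x0) (nat_lit 0x2eeb4de0d8b804)
  (PL.C (nat_lit 0x77cee6) (nat_lit 0x0) (nat_lit 0x1e6c7e98ef791d0)
  (PL.C (nat_lit 0x78a810) (nat_lit 0x7ce27268b29e0c) (nat_lit 0x0)
  (PL.C (nat_lit 0x78f306) (nat_lit 0xfcf32c35655f8b) (nat_lit 0x0)
  (PL.C (nat_lit 0x7907b2) (nat_lit 0x0) (nat_lit 0x7d7e2e0970e065)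
  (PL.C (nat_lit 0x79b0c6) (nat_lit 0x100db1b87bfb9c86) (nat_lit 0x0)
  (PL.C (nat_lit 0x7a40e4) (nat_lit 0x1bb3a300279bf5d) (nat_lit 0x0)
  (PL.C (nat_lit 0x7a46bc) (nat_lit 0x277577468fbcd) (nat_lit 0x0)
  (PL.C (nat_lit 0x7a4f36) (nat_lit 0x2d142386b996aa4) (nat_lit 0x0)
  (PL.C (nat_lit 0x7a7939) (nat_lit 0x7539f3765b9dc) (nat_lit 0x0) gp0_0_62))))))))))))))))))))

noncomputable def gp0_0_60 : PL :=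
  (PL.C (nat_lit 0x72adf8) (nat_lit 0x0) (nat_lit 0xcbccf630eaae6a)
  (PL.C (nat_lit 0x72dd52) (nat_lit 0x0) (nat_lit 0x5e44ae3a6c6dc9)
  (PL.C (nat_lit 0x732a94) (nat_lit 0xb2bb3b1a3b019a2) (nat_lit 0x0)
  (PL.C (nat_lit 0x735aec) (nat_lit 0x4904bc3787c114) (nat_lit 0x0)
  (PL.C (nat_lit 0x735fa5) (nat_lit 0x0) (nat_lit 0x786513d76facc1)
  (PL.C (nat_lit 0x737a03) (nat_lit 0x69be0f2bf6035b) (nat_lit 0x0)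
  (PL.C (nat_lit 0x738651) (nat_lit 0x830978e85894f58) (nat_lit 0x0)
  (PL.C (nat_lit 0x73a2e4) (nat_lit 0x0) (nat_lit 0x3f830183bc6391b)
  (PL.C (nat_lit 0x73c64d) (nat_lit 0xe8a06690a18b01) (nat_lit 0x0)
  (PL.C (nat_lit 0x73d264) (nat_lit 0x0) (nat_lit 0x2dc6eff76befa2)
  (PL.C (nat_lit 0x746f1f) (nat_lit 0x0) (nat_lit 0x4b2d5de24e2d20e)
  (PL.C (nat_lit 0x7495c2) (nat_lit 0x0) (nat_lit 0x12eec662593dcbb)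
  (PL.C (nat_lit 0x74c337) (nat_lit 0x0) (nat_lit 0x11661f9672ffb)
  (PL.C (nat_lit 0x74e2ec) (nat_lit 0x0) (nat_lit 0x9a2a69996f81df2)
  (PL.C (nat_lit 0x7506b7) (nat_lit 0x127a32fef5b31d2) (nat_lit 0x0)
  (PL.C (nat_lit 0x751c56) (nat_lit 0x4ee257502db420) (nat_lit 0x0)
  (PL.C (nat_lit 0x754149) (nat_lit 0x0) (nat_lit 0x7f54ac7dba1b78)
  (PL.C (nat_lit 0x754932) (nat_lit 0xb3be0f570cd11a) (nat_lit 0x0)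
  (PL.C (nat_lit 0x758439) (nat_lit 0x0) (nat_lit 0x202faffb94c180)
  (PL.C (nat_lit 0x7596ae) (nat_lit 0x0) (nat_lit 0x11ec6d62fcf551c) gp0_0_61))))))))))))))))))))

noncomputable def gp0_0_59 : PL :=
  (PL.C (nat_lit 0x6e3112) (nat_lit 0x0) (nat_lit 0x6e42878c1ee2fdb)
  (PL.C (nat_lit 0x6e9454) (nat_lit 0x80a7dc93403d10a) (nat_lit 0x0)
  (PL.C (nat_lit 0x6ecbac) (nat_lit 0x6cbdd369d48478) (nat_lit 0x0)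
  (PL.C (nat_lit 0x6ed331) (nat_lit 0x0) (nat_lit 0x262e9a60e0e5d25c)
  (PL.C (nat_lit 0x6ed951) (nat_lit 0x26893b96748aacf) (nat_lit 0x0)
  (PL.C (nat_lit 0x6f0aec) (nat_lit 0x4bed30224b1cd4) (nat_lit 0x0)
  (PL.C (nat_lit 0x6fa22a) (nat_lit 0x1144c9016642e1c) (nat_lit 0x0)
  (PL.C (nat_lit 0x70cf4c) (nat_lit 0x0) (nat_lit 0xc0740b0f336b13)
  (PL.C (nat_lit 0x70d71e) (nat_lit 0x0) (nat_lit 0x3fbdccc0bd8d042)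
  (PL.C (nat_lit 0x70e914) (nat_lit 0x0) (nat_lit 0x54cc8e752d3b5f)
  (PL.C (nat_lit 0x70f51c) (nat_lit 0x0) (nat_lit 0x693579b933aceb9)
  (PL.C (nat_lit 0x7117b3) (nat_lit 0x0) (nat_lit 0x473144fb015b865)
  (PL.C (nat_lit 0x7133ac) (nat_lit 0x0) (nat_lit 0x18f6675dd2d50c8)
  (PL.C (nat_lit 0x714758) (nat_lit 0x0) (nat_lit 0x4c4a0669087922e)
  (PL.C (nat_lit 0x71504d) (nat_lit 0x0) (nat_lit 0x13841450241e51)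
  (PL.C (nat_lit 0x71622c) (nat_lit 0x1bdd5e9d7b069d) (nat_lit 0x0)
  (PL.C (nat_lit 0x716c54) (nat_lit 0x4f3809d8e2ef24b) (nat_lit 0x0)
  (PL.C (nat_lit 0x7190fd) (nat_lit 0x0) (nat_lit 0x220cd07cff602)
  (PL.C (nat_lit 0x72038a) (nat_lit 0x0) (nat_lit 0xe156be9d9a3f3f9)
  (PL.C (nat_lit 0x72a63c) (nat_lit 0x34511442ace22fe) (nat_lit 0x0) gp0_0_60))))))))))))))))))))

noncomputable def gp0_0_58 : PL :=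
  (PL.C (nat_lit 0x6a2282) (nat_lit 0x0) (nat_lit 0x13b4ab98d25b363)
  (PL.C (nat_lit 0x6a4fac) (nat_lit 0x0) (nat_lit 0x296b46a4beb89cd)
  (PL.C (nat_lit 0x6a8957) (nat_lit 0xfaaabeb6a101dc) (nat_lit 0x0)
  (PL.C (nat_lit 0x6abea9) (nat_lit 0x0) (nat_lit 0x1f83d9f84ac3453)
  (PL.C (nat_lit 0x6aca64) (nat_lit 0x0) (nat_lit 0x1cb38cd4fa57bb1d)
  (PL.C (nat_lit 0x6acfb9) (nat_lit 0x6a831751f70268d) (nat_lit 0x0)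
  (PL.C (nat_lit 0x6af34c) (nat_lit 0x37f9106005160e9) (nat_lit 0x0)
  (PL.C (nat_lit 0x6afb99) (nat_lit 0x64487b4b27a6) (nat_lit 0x0)
  (PL.C (nat_lit 0x6b1f75) (nat_lit 0x43a6d5e212f3ac7) (nat_lit 0x0)
  (PL.C (nat_lit 0x6b39f4) (nat_lit 0x0) (nat_lit 0x12fba30a52d0a5d)
  (PL.C (nat_lit 0x6b6782) (nat_lit 0xf9aac36eb7649e5) (nat_lit 0x0)
  (PL.C (nat_lit 0x6c34aa) (nat_lit 0x0) (nat_lit 0x90c0d5ab1668f33)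
  (PL.C (nat_lit 0x6c3568) (nat_lit 0x0) (nat_lit 0x1b4f6c5f0998fe)
  (PL.C (nat_lit 0x6c6216) (nat_lit 0x1d82105d56b74a) (nat_lit 0x0)
  (PL.C (nat_lit 0x6ca048) (nat_lit 0x0) (nat_lit 0x182afbda3b93173)
  (PL.C (nat_lit 0x6caafc) (nat_lit 0x0) (nat_lit 0x5b7508251d1981)
  (PL.C (nat_lit 0x6cd3dd) (nat_lit 0x0) (nat_lit 0x7ff829501a325c)
  (PL.C (nat_lit 0x6d2718) (nat_lit 0x0) (nat_lit 0x1bd56e85e4af027)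
  (PL.C (nat_lit 0x6d3026) (nat_lit 0x0) (nat_lit 0x2fce3626873783)
  (PL.C (nat_lit 0x6e2e72) (nat_lit 0x0) (nat_lit 0x10615cffcaec030) gp0_0_59))))))))))))))))))))

noncomputable def gp0_0_57 : PL :=
  (PL.C (nat_lit 0x66678c) (nat_lit 0x24896511a96a5a) (nat_lit 0x0)
  (PL.C (nat_lit 0x66bcdc) (nat_lit 0x4f3dd87c19f14b9) (nat_lit 0x0)
  (PL.C (nat_lit 0x66c3d5) (nat_lit 0xdb4d8d99fc00427) (nat_lit 0x0)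
  (PL.C (nat_lit 0x66fe36) (nat_lit 0x0) (nat_lit 0x1bcb0427874abb)
  (PL.C (nat_lit 0x673374) (nat_lit 0x80a7dc934d36003) (nat_lit 0x0)
  (PL.C (nat_lit 0x675afc) (nat_lit 0xcc41be3e6a02c5) (nat_lit 0x0)
  (PL.C (nat_lit 0x6785a9) (nat_lit 0x0) (nat_lit 0x77986c1cc5eb9)
  (PL.C (nat_lit 0x679f44) (nat_lit 0x4f3dd87c35ad0bd) (nat_lit 0x0)
  (PL.C (nat_lit 0x67c6b8) (nat_lit 0x0) (nat_lit 0x822383a435f602)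
  (PL.C (nat_lit 0x67cb4a) (nat_lit 0x4a7043658998d56) (nat_lit 0x0)
  (PL.C (nat_lit 0x67f956) (nat_lit 0x1153139b211d699) (nat_lit 0x0)
  (PL.C (nat_lit 0x682b44) (nat_lit 0xb2bb3b18adb0c50) (nat_lit 0x0)
  (PL.C (nat_lit 0x685647) (nat_lit 0x0) (nat_lit 0xc6aea3e1f9a6280)
  (PL.C (nat_lit 0x689afc) (nat_lit 0x22b0892deed68f8) (nat_lit 0x0)
  (PL.C (nat_lit 0x68b2e4) (nat_lit 0x2489652e92c995) (nat_lit 0x0)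
  (PL.C (nat_lit 0x68be0c) (nat_lit 0xed58ad871d37d34) (nat_lit 0x0)
  (PL.C (nat_lit 0x68de1f) (nat_lit 0x0) (nat_lit 0x85bb49e9aa81a)
  (PL.C (nat_lit 0x68eb2a) (nat_lit 0x1144c90139d2414) (nat_lit 0x0)
  (PL.C (nat_lit 0x69cd18) (nat_lit 0x0) (nat_lit 0x2739d0d3e442f46)
  (PL.C (nat_lit 0x69ed7e) (nat_lit 0x31de085895df91a) (nat_lit 0x0) gp0_0_58))))))))))))))))))))

noncomputable def gp0_0_56 : PL :=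
  (PL.C (nat_lit 0x6137e4) (nat_lit 0x0) (nat_lit 0x1d1b7aedf6e345e)
  (PL.C (nat_lit 0x618555) (nat_lit 0x7df302d8eef2b2) (nat_lit 0x0)
  (PL.C (nat_lit 0x619d74) (nat_lit 0x37c60859bc55618) (nat_lit 0x0)
  (PL.C (nat_lit 0x61df82) (nat_lit 0x0) (nat_lit 0x3fa0944b04a5ced)
  (PL.C (nat_lit 0x62107e) (nat_lit 0x0) (nat_lit 0x41e34d115448c19)
  (PL.C (nat_lit 0x6249db) (nat_lit 0x0) (nat_lit 0x184dbde8afe43e6e)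
  (PL.C (nat_lit 0x62ab9c) (nat_lit 0x5fe1ac20bcb57195) (nat_lit 0x0)
  (PL.C (nat_lit 0x62be42) (nat_lit 0x13c6341378c7d65) (nat_lit 0x0)
  (PL.C (nat_lit 0x62c9d3) (nat_lit 0x119e0400df4bc06) (nat_lit 0x0)
  (PL.C (nat_lit 0x62ff48) (nat_lit 0x0) (nat_lit 0x1b4f6c4adea194)
  (PL.C (nat_lit 0x634f89) (nat_lit 0x26d7c0b9a55b8fc) (nat_lit 0x0)
  (PL.C (nat_lit 0x63d4c8) (nat_lit 0x882fee8a19a640) (nat_lit 0x0)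
  (PL.C (nat_lit 0x63e5d8) (nat_lit 0x25e29c68e2d726) (nat_lit 0x0)
  (PL.C (nat_lit 0x63fa56) (nat_lit 0x10c74fdc9910fc80) (nat_lit 0x0)
  (PL.C (nat_lit 0x645612) (nat_lit 0x19f21e7c7e638ac) (nat_lit 0x0)
  (PL.C (nat_lit 0x64d322) (nat_lit 0x165723c58fb5671) (nat_lit 0x0)
  (PL.C (nat_lit 0x64e9b1) (nat_lit 0x0) (nat_lit 0x4148c9c2215106b)
  (PL.C (nat_lit 0x6515be) (nat_lit 0x29f5cfe930479b9) (nat_lit 0x0)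
  (PL.C (nat_lit 0x6538bc) (nat_lit 0x876ae54cc5cd8) (nat_lit 0x0)
  (PL.C (nat_lit 0x66199e) (nat_lit 0x0) (nat_lit 0x2a7e0c6174a15d3) gp0_0_57))))))))))))))))))))

noncomputable def gp0_0_55 : PL :=
  (PL.C (nat_lit 0x5dddd8) (nat_lit 0x0) (nat_lit 0xe870c18dd396ef)
  (PL.C (nat_lit 0x5e049a) (nat_lit 0x0) (nat_lit 0x5622fbebe57023)
  (PL.C (nat_lit 0x5e96e3) (nat_lit 0x0) (nat_lit 0xdad391510ab86c)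
  (PL.C (nat_lit 0x5f4a89) (nat_lit 0x0) (nat_lit 0x278f1cc856a7beb)
  (PL.C (nat_lit 0x5f5064) (nat_lit 0x0) (nat_lit 0x8da8dbc0a16e23)
  (PL.C (nat_lit 0x5f5a8c) (nat_lit 0x18ced5ce7e625b9) (nat_lit 0x0)
  (PL.C (nat_lit 0x5f77bf) (nat_lit 0x0) (nat_lit 0xa6f5bfa4642139)
  (PL.C (nat_lit 0x5f8f5c) (nat_lit 0x221c3bb0c78ed4e) (nat_lit 0x0)
  (PL.C (nat_lit 0x5fb2b8) (nat_lit 0x0) (nat_lit 0xd2aaf0c583a0a6)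
  (PL.C (nat_lit 0x5fb6d1) (nat_lit 0xd261d964b28d7) (nat_lit 0x0)
  (PL.C (nat_lit 0x5fd006) (nat_lit 0x4ee257502db420) (nat_lit 0x0)
  (PL.C (nat_lit 0x5feddf) (nat_lit 0x0) (nat_lit 0x202faffb94c180)
  (PL.C (nat_lit 0x5ffffa) (nat_lit 0x6431e83ab991cb) (nat_lit 0x0)
  (PL.C (nat_lit 0x601ab4) (nat_lit 0x0) (nat_lit 0x6d5911cf0311eb8)
  (PL.C (nat_lit 0x603006) (nat_lit 0x381903edc13cf7) (nat_lit 0x0)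
  (PL.C (nat_lit 0x603a98) (nat_lit 0x53da1ac984e0a76) (nat_lit 0x0)
  (PL.C (nat_lit 0x6097d4) (nat_lit 0x0) (nat_lit 0x1dd5af1336eda956)
  (PL.C (nat_lit 0x60c82c) (nat_lit 0x0) (nat_lit 0x3f830183033b394)
  (PL.C (nat_lit 0x60ff6c) (nat_lit 0x886756338e30f) (nat_lit 0x0)
  (PL.C (nat_lit 0x610ea8) (nat_lit 0x40186ba43d0c522) (nat_lit 0x0) gp0_0_56))))))))))))))))))))

noncomputable def gp0_0_54 : PL :=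
  (PL.C (nat_lit 0x5aa588) (nat_lit 0x0) (nat_lit 0x26250335306c11b)
  (PL.C (nat_lit 0x5ac14a) (nat_lit 0x19f21e7c7e638ac) (nat_lit 0x0)
  (PL.C (nat_lit 0x5aeeb6) (nat_lit 0x38f0157abf64dbe) (nat_lit 0x0)
  (PL.C (nat_lit 0x5b1d96) (nat_lit 0x1658d2f55c2a729) (nat_lit 0x0)
  (PL.C (nat_lit 0x5b23e7) (nat_lit 0x1377be3f2bc4368f) (nat_lit 0x0)
  (PL.C (nat_lit 0x5b6a18) (nat_lit 0x1821533ebefe9bb) (nat_lit 0x0)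
  (PL.C (nat_lit 0x5b7e8c) (nat_lit 0x0) (nat_lit 0x13d0cc98e2eef5df)
  (PL.C (nat_lit 0x5bb71a) (nat_lit 0x0) (nat_lit 0x72ade2caf98e57)
  (PL.C (nat_lit 0x5bde11) (nat_lit 0x3acb66c84649fce) (nat_lit 0x0)
  (PL.C (nat_lit 0x5c168d) (nat_lit 0x633ddc5089cd300) (nat_lit 0x0)
  (PL.C (nat_lit 0x5c2d54) (nat_lit 0x2223e14b83343da) (nat_lit 0x0)
  (PL.C (nat_lit 0x5cb4ee) (nat_lit 0x0) (nat_lit 0xe22dc6d83b41f36)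
  (PL.C (nat_lit 0x5d04da) (nat_lit 0x0) (nat_lit 0x397913be4b75c14)
  (PL.C (nat_lit 0x5d2be6) (nat_lit 0x3c96696d55c314) (nat_lit 0x0)
  (PL.C (nat_lit 0x5d58a4) (nat_lit 0x1bb3a302715e951) (nat_lit 0x0)
  (PL.C (nat_lit 0x5d7f2f) (nat_lit 0x0) (nat_lit 0x5c878d0396304)
  (PL.C (nat_lit 0x5d875c) (nat_lit 0xc6a2f7570f5c6a) (nat_lit 0x0)
  (PL.C (nat_lit 0x5d8db5) (nat_lit 0x534108425efab62e) (nat_lit 0x0)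
  (PL.C (nat_lit 0x5dcc24) (nat_lit 0x886756338e30f) (nat_lit 0x0)
  (PL.C (nat_lit 0x5ddc2c) (nat_lit 0x0) (nat_lit 0x61781494599746) gp0_0_55))))))))))))))))))))

noncomputable def gp0_0_53 : PL :=
  (PL.C (nat_lit 0x57c52e) (nat_lit 0x0) (nat_lit 0x2f1b2a560724c3)
  (PL.C (nat_lit 0x57ca08) (nat_lit 0x53da1ac984e0a76) (nat_lit 0x0)
  (PL.C (nat_lit 0x57ef54) (nat_lit 0x271a295803f7690) (nat_lit 0x0)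
  (PL.C (nat_lit 0x57f5f8) (nat_lit 0x0) (nat_lit 0x5af318872bb4a1)
  (PL.C (nat_lit 0x58082c) (nat_lit 0x0) (nat_lit 0x771c3f8b7112d7)
  (PL.C (nat_lit 0x5813a3) (nat_lit 0x0) (nat_lit 0xc6aea3dde0c22a9)
  (PL.C (nat_lit 0x58296c) (nat_lit 0x0) (nat_lit 0x9be1007440fe7b8)
  (PL.C (nat_lit 0x586b3c) (nat_lit 0xed58ad80974091a) (nat_lit 0x0)
  (PL.C (nat_lit 0x589152) (nat_lit 0x0) (nat_lit 0x4098552b289da18)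
  (PL.C (nat_lit 0x58e968) (nat_lit 0x0) (nat_lit 0x76cf826d895fa1e)
  (PL.C (nat_lit 0x58fe21) (nat_lit 0x620eb4192e72d08) (nat_lit 0x0)
  (PL.C (nat_lit 0x5904a2) (nat_lit 0x0) (nat_lit 0x11ec6d631700f05)
  (PL.C (nat_lit 0x591424) (nat_lit 0x0) (nat_lit 0x1da34a0d2376cec)
  (PL.C (nat_lit 0x597588) (nat_lit 0x52a4a389a8c83) (nat_lit 0x0)
  (PL.C (nat_lit 0x59ad58) (nat_lit 0x0) (nat_lit 0x2730d12516789d2)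
  (PL.C (nat_lit 0x59c8ce) (nat_lit 0x0) (nat_lit 0x12eec6622dd5042)
  (PL.C (nat_lit 0x59eef3) (nat_lit 0x0) (nat_lit 0xffa0f1c2f5fbf9)
  (PL.C (nat_lit 0x5a0aac) (nat_lit 0x2172ca7fb4c0811) (nat_lit 0x0)
  (PL.C (nat_lit 0x5a2a5d) (nat_lit 0x4e7ddbf639bf576) (nat_lit 0x0)
  (PL.C (nat_lit 0x5a4bba) (nat_lit 0x0) (nat_lit 0x28017b17d34933c) gp0_0_54))))))))))))))))))))

noncomputable def gp0_0_52 : PL :=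
  (PL.C (nat_lit 0x53d56d) (nat_lit 0x26d7c0b9a55b8fc) (nat_lit 0x0)
  (PL.C (nat_lit 0x5422f2) (nat_lit 0x1c5499bc16ede6) (nat_lit 0x0)
  (PL.C (nat_lit 0x5445e8) (nat_lit 0x0) (nat_lit 0x3d6e5061a11e1c)
  (PL.C (nat_lit 0x544d0e) (nat_lit 0x0) (nat_lit 0x384034287bc75b)
  (PL.C (nat_lit 0x547d2e) (nat_lit 0x0) (nat_lit 0x2a7e0c61131882b)
  (PL.C (nat_lit 0x5529c2) (nat_lit 0x0) (nat_lit 0x1cb79895de45ff)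
  (PL.C (nat_lit 0x55746c) (nat_lit 0x30dd92fe0e77d75) (nat_lit 0x0)
  (PL.C (nat_lit 0x558e97) (nat_lit 0x15423fc7e867863) (nat_lit 0x0)
  (PL.C (nat_lit 0x55b969) (nat_lit 0x7450334a17f177) (nat_lit 0x0)
  (PL.C (nat_lit 0x55f226) (nat_lit 0xf70fd820879d9c7) (nat_lit 0x0)
  (PL.C (nat_lit 0x55f6e6) (nat_lit 0x0) (nat_lit 0xf8f1a36ebd01d5)
  (PL.C (nat_lit 0x561e94) (nat_lit 0xb850b8822528129) (nat_lit 0x0)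
  (PL.C (nat_lit 0x564102) (nat_lit 0x13c798f5d8f3fa12) (nat_lit 0x0)
  (PL.C (nat_lit 0x568eb4) (nat_lit 0x0) (nat_lit 0x199ea9b4f621a48)
  (PL.C (nat_lit 0x569978) (nat_lit 0x0) (nat_lit 0x1bd56e8613d18bf)
  (PL.C (nat_lit 0x56bfe9) (nat_lit 0x0) (nat_lit 0xe72e1070a6cb00e)
  (PL.C (nat_lit 0x5703dc) (nat_lit 0xc414ed6f95d0d4) (nat_lit 0x0)
  (PL.C (nat_lit 0x570a38) (nat_lit 0x40186ba43d0c522) (nat_lit 0x0)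
  (PL.C (nat_lit 0x5735c8) (nat_lit 0x0) (nat_lit 0x6de72c7bf002e5)
  (PL.C (nat_lit 0x57659d) (nat_lit 0x119e03fbde810c8) (nat_lit 0x0) gp0_0_53))))))))))))))))))))

noncomputable def gp0_0_51 : PL :=
  (PL.C (nat_lit 0x50a204) (nat_lit 0x18f472d7065599c) (nat_lit 0x0)
  (PL.C (nat_lit 0x50afcc) (nat_lit 0x0) (nat_lit 0x91f10ce694d754)
  (PL.C (nat_lit 0x510a71) (nat_lit 0x0) (nat_lit 0xc06d2f194d0a97)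
  (PL.C (nat_lit 0x512084) (nat_lit 0x0) (nat_lit 0x6d5911d1bda7326)
  (PL.C (nat_lit 0x518098) (nat_lit 0x0) (nat_lit 0x5ba267360e4b40)
  (PL.C (nat_lit 0x518a24) (nat_lit 0x5a87d57f3561fed) (nat_lit 0x0)
  (PL.C (nat_lit 0x51a626) (nat_lit 0x68c79936d1fe18) (nat_lit 0x0)
  (PL.C (nat_lit 0x51abcf) (nat_lit 0x0) (nat_lit 0xa7bab293f379a8)
  (PL.C (nat_lit 0x52205a) (nat_lit 0x0) (nat_lit 0x555954d162c854a)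
  (PL.C (nat_lit 0x527208) (nat_lit 0x6bbccfb3221f585) (nat_lit 0x0)
  (PL.C (nat_lit 0x527727) (nat_lit 0x9f9ff08607cc2b) (nat_lit 0x0)
  (PL.C (nat_lit 0x529c88) (nat_lit 0x0) (nat_lit 0x3d6e5067e7e6ba)
  (PL.C (nat_lit 0x52d556) (nat_lit 0x0) (nat_lit 0x555954d22e5c819)
  (PL.C (nat_lit 0x52f887) (nat_lit 0x0) (nat_lit 0xc94a401c6b5d802)
  (PL.C (nat_lit 0x5327b8) (nat_lit 0x6bbccfb3221f585) (nat_lit 0x0)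
  (PL.C (nat_lit 0x534b0c) (nat_lit 0x0) (nat_lit 0x6f64aea95924e71)
  (PL.C (nat_lit 0x535aca) (nat_lit 0x0) (nat_lit 0xd4899fa182752a)
  (PL.C (nat_lit 0x535ec6) (nat_lit 0x58a65240f82ad) (nat_lit 0x0)
  (PL.C (nat_lit 0x536f68) (nat_lit 0x0) (nat_lit 0x1902b2249483a2d)
  (PL.C (nat_lit 0x53d1bc) (nat_lit 0x163d9523ae9d26f) (nat_lit 0x0) gp0_0_52))))))))))))))))))))

noncomputable def gp0_0_50 : PL :=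
  (PL.C (nat_lit 0x4d516d) (nat_lit 0x0) (nat_lit 0x11661f9672ffb)
  (PL.C (nat_lit 0x4d9f6a) (nat_lit 0x0) (nat_lit 0xd62e01df578448f)
  (PL.C (nat_lit 0x4db92c) (nat_lit 0x0) (nat_lit 0x3bfc1e168cf493)
  (PL.C (nat_lit 0x4dd77a) (nat_lit 0x0) (nat_lit 0xd161294853418)
  (PL.C (nat_lit 0x4e047a) (nat_lit 0x4ae5a466557cd6c) (nat_lit 0x0)
  (PL.C (nat_lit 0x4e12e4) (nat_lit 0x472d4d04da7cad5) (nat_lit 0x0)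
  (PL.C (nat_lit 0x4e2b86) (nat_lit 0x0) (nat_lit 0x3aebd5040870753)
  (PL.C (nat_lit 0x4e30cc) (nat_lit 0x13836bbe1d87dd2) (nat_lit 0x0)
  (PL.C (nat_lit 0x4e5115) (nat_lit 0x0) (nat_lit 0x85bb49b3d8a46)
  (PL.C (nat_lit 0x4e5826) (nat_lit 0x0) (nat_lit 0x1affc7580c3e5)
  (PL.C (nat_lit 0x4e6474) (nat_lit 0x0) (nat_lit 0x2298fcfea53efad)
  (PL.C (nat_lit 0x4e85c2) (nat_lit 0x0) (nat_lit 0x2d707ac84386833)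
  (PL.C (nat_lit 0x4ea3d6) (nat_lit 0x18083ad6d688d12) (nat_lit 0x0)
  (PL.C (nat_lit 0x4ea72c) (nat_lit 0x831adaa908a8951) (nat_lit 0x0)
  (PL.C (nat_lit 0x4ed7ca) (nat_lit 0x0) (nat_lit 0x384e6699f2a0cf5)
  (PL.C (nat_lit 0x4ef949) (nat_lit 0x0) (nat_lit 0x262e9a60e0e5d25c)
  (PL.C (nat_lit 0x4f008c) (nat_lit 0x0) (nat_lit 0x5787b7aca1cc20)
  (PL.C (nat_lit 0x4fb1fe) (nat_lit 0x0) (nat_lit 0x29ad65c757135a8f)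
  (PL.C (nat_lit 0x4fd5a8) (nat_lit 0x1480e5d86eac2c) (nat_lit 0x0)
  (PL.C (nat_lit 0x4fdf44) (nat_lit 0x1f758f498c6589) (nat_lit 0x0) gp0_0_51))))))))))))))))))))

noncomputable def gp0_0_49 : PL :=
  (PL.C (nat_lit 0x49b838) (nat_lit 0x38eaf50b09be471) (nat_lit 0x0)
  (PL.C (nat_lit 0x49c6d1) (nat_lit 0x127a33013949796) (nat_lit 0x0)
  (PL.C (nat_lit 0x49e636) (nat_lit 0x129e563b332334c) (nat_lit 0x0)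
  (PL.C (nat_lit 0x4a0748) (nat_lit 0x52a4a38a1b87b) (nat_lit 0x0)
  (PL.C (nat_lit 0x4a6c1c) (nat_lit 0x0) (nat_lit 0xdeb7825923ac87)
  (PL.C (nat_lit 0x4b2175) (nat_lit 0x60972dd46aa65b1) (nat_lit 0x0)
  (PL.C (nat_lit 0x4b3a14) (nat_lit 0x5f465e8529c7307) (nat_lit 0x0)
  (PL.C (nat_lit 0x4b6522) (nat_lit 0x0) (nat_lit 0xd4899f9f3a7220)
  (PL.C (nat_lit 0x4b77c8) (nat_lit 0x143b72c32f99fa5) (nat_lit 0x0)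
  (PL.C (nat_lit 0x4b8ade) (nat_lit 0x0) (nat_lit 0x115a179a295b983)
  (PL.C (nat_lit 0x4b96c8) (nat_lit 0x3c90ff3c70a891) (nat_lit 0x0)
  (PL.C (nat_lit 0x4bb5fe) (nat_lit 0x1d82105ee5d41e) (nat_lit 0x0)
  (PL.C (nat_lit 0x4c025c) (nat_lit 0x400def4c98bd3df) (nat_lit 0x0)
  (PL.C (nat_lit 0x4c938c) (nat_lit 0x0) (nat_lit 0x199ea9b4c47a0e5)
  (PL.C (nat_lit 0x4ce748) (nat_lit 0x0) (nat_lit 0x63f284dae8ff6)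
  (PL.C (nat_lit 0x4cea6e) (nat_lit 0xe7c800bdf67195) (nat_lit 0x0)
  (PL.C (nat_lit 0x4cefc3) (nat_lit 0x10bf8e00fcfc013) (nat_lit 0x0)
  (PL.C (nat_lit 0x4cfc02) (nat_lit 0x0) (nat_lit 0xac1ae78b525f54)
  (PL.C (nat_lit 0x4d0436) (nat_lit 0x0) (nat_lit 0xe156be9ed8a608d)
  (PL.C (nat_lit 0x4d2ede) (nat_lit 0x0) (nat_lit 0x1034c28f22300e1) gp0_0_50))))))))))))))))))))

noncomputable def gp0_0_48 : PL :=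
  (PL.C (nat_lit 0x469e54) (nat_lit 0x1141ab5cbe8032ba) (nat_lit 0x0)
  (PL.C (nat_lit 0x46c1ac) (nat_lit 0x0) (nat_lit 0x66a9ac80695fa0)
  (PL.C (nat_lit 0x46dfc8) (nat_lit 0x0) (nat_lit 0x1a11e54fce8faf5)
  (PL.C (nat_lit 0x46e42f) (nat_lit 0x0) (nat_lit 0x105b2604e6f4b1)
  (PL.C (nat_lit 0x47063a) (nat_lit 0x0) (nat_lit 0x397913c6cc795de)
  (PL.C (nat_lit 0x4729c6) (nat_lit 0x0) (nat_lit 0x5773e09770329d)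
  (PL.C (nat_lit 0x473198) (nat_lit 0x0) (nat_lit 0xf99f26821b5c72c)
  (PL.C (nat_lit 0x473526) (nat_lit 0x34c9bf8bf8a29ea) (nat_lit 0x0)
  (PL.C (nat_lit 0x475266) (nat_lit 0xfcf32c68e04838) (nat_lit 0x0)
  (PL.C (nat_lit 0x476a4e) (nat_lit 0x366ac17a6fdfac) (nat_lit 0x0)
  (PL.C (nat_lit 0x477bf8) (nat_lit 0x0) (nat_lit 0xd3aefc2ea3524c)
  (PL.C (nat_lit 0x478911) (nat_lit 0x4e7ddbf64b2727c) (nat_lit 0x0)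
  (PL.C (nat_lit 0x48231c) (nat_lit 0x0) (nat_lit 0x1dd5af12fbdc3055)
  (PL.C (nat_lit 0x483933) (nat_lit 0x15423fc7e867863) (nat_lit 0x0)
  (PL.C (nat_lit 0x484164) (nat_lit 0x1c9c9ad7290130) (nat_lit 0x0)
  (PL.C (nat_lit 0x488d3e) (nat_lit 0x0) (nat_lit 0x14b26b122d6fb1f6)
  (PL.C (nat_lit 0x48cac4) (nat_lit 0x0) (nat_lit 0x3bd07185f4d20f)
  (PL.C (nat_lit 0x48ee65) (nat_lit 0x10bf8dfbc7e35ec) (nat_lit 0x0)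
  (PL.C (nat_lit 0x49744c) (nat_lit 0xc414ed6f95d0d4) (nat_lit 0x0)
  (PL.C (nat_lit 0x49760c) (nat_lit 0x0) (nat_lit 0x1340f1360b70581) gp0_0_49))))))))))))))))))))

noncomputable def gp0_0_47 : PL :=
  (PL.C (nat_lit 0x434676) (nat_lit 0x0) (nat_lit 0x29ad65c783d31a04)
  (PL.C (nat_lit 0x43532d) (nat_lit 0x0) (nat_lit 0x5de92cb2bdac21)
  (PL.C (nat_lit 0x4363d4) (nat_lit 0x35cfb7c487d0a61) (nat_lit 0x0)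
  (PL.C (nat_lit 0x437b28) (nat_lit 0x25e29c68e2d726) (nat_lit 0x0)
  (PL.C (nat_lit 0x441114) (nat_lit 0x0) (nat_lit 0x2dbf7ea6d00dc2e)
  (PL.C (nat_lit 0x442aaf) (nat_lit 0x3b7046b3cab886a) (nat_lit 0x0)
  (PL.C (nat_lit 0x444508) (nat_lit 0x46cefe9248176b) (nat_lit 0x0)
  (PL.C (nat_lit 0x447de8) (nat_lit 0x161c1d9c100c633) (nat_lit 0x0)
  (PL.C (nat_lit 0x44828e) (nat_lit 0x3021e801752dfc7) (nat_lit 0x0)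
  (PL.C (nat_lit 0x44ccf8) (nat_lit 0x38eaf50b09be471) (nat_lit 0x0)
  (PL.C (nat_lit 0x4503c6) (nat_lit 0x0) (nat_lit 0x7d7e2e10d129ed)
  (PL.C (nat_lit 0x4514d8) (nat_lit 0x161c1d9c100c633) (nat_lit 0x0)
  (PL.C (nat_lit 0x4550e4) (nat_lit 0x0) (nat_lit 0x3212db100daa71)
  (PL.C (nat_lit 0x458eda) (nat_lit 0x0) (nat_lit 0x62c575bb398a1bf)
  (PL.C (nat_lit 0x45aaa9) (nat_lit 0x0) (nat_lit 0x3e3b0c6bac7eccb)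
  (PL.C (nat_lit 0x45bca8) (nat_lit 0x882fee8f5b4e3f) (nat_lit 0x0)
  (PL.C (nat_lit 0x45cc98) (nat_lit 0x46cefe817045bd) (nat_lit 0x0)
  (PL.C (nat_lit 0x45d408) (nat_lit 0x4f90290f62841fe) (nat_lit 0x0)
  (PL.C (nat_lit 0x45e96a) (nat_lit 0x637eeaa3b07308) (nat_lit 0x0)
  (PL.C (nat_lit 0x45f21c) (nat_lit 0x0) (nat_lit 0xdeb7826f8b6203) gp0_0_48))))))))))))))))))))

noncomputable def gp0_0_46 : PL :=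
  (PL.C (nat_lit 0x40aa48) (nat_lit 0x0) (nat_lit 0x1caa016636370)
  (PL.C (nat_lit 0x40b470) (nat_lit 0x274ae1f60a6ab93) (nat_lit 0x0)
  (PL.C (nat_lit 0x41038e) (nat_lit 0x0) (nat_lit 0xa0ebe6d44367d96)
  (PL.C (nat_lit 0x413fac) (nat_lit 0x0) (nat_lit 0x1a0ef63243289b70)
  (PL.C (nat_lit 0x4153a7) (nat_lit 0x0) (nat_lit 0xdad391510ab86c)
  (PL.C (nat_lit 0x415a9d) (nat_lit 0x0) (nat_lit 0xa7bab28e1f09ac)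
  (PL.C (nat_lit 0x416054) (nat_lit 0x12e0e7fb0678099) (nat_lit 0x0)
  (PL.C (nat_lit 0x417459) (nat_lit 0x7335c8b671ed0f) (nat_lit 0x0)
  (PL.C (nat_lit 0x418692) (nat_lit 0x4d1d78b9e816d6d2) (nat_lit 0x0)
  (PL.C (nat_lit 0x41d42c) (nat_lit 0x1312053269c05f4) (nat_lit 0x0)
  (PL.C (nat_lit 0x41dbe2) (nat_lit 0x96554f66098b0c8) (nat_lit 0x0)
  (PL.C (nat_lit 0x423506) (nat_lit 0xddf1401a75052b) (nat_lit 0x0)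
  (PL.C (nat_lit 0x425535) (nat_lit 0x0) (nat_lit 0x1fa4942e8491978)
  (PL.C (nat_lit 0x42a1c7) (nat_lit 0x0) (nat_lit 0xf78690bdeb09b4)
  (PL.C (nat_lit 0x42a6e4) (nat_lit 0x86b191b7e2a1a8f) (nat_lit 0x0)
  (PL.C (nat_lit 0x42bb4d) (nat_lit 0x3830c1f6feaa762) (nat_lit 0x0)
  (PL.C (nat_lit 0x42dcb3) (nat_lit 0x0) (nat_lit 0xf73c98a47621c5)
  (PL.C (nat_lit 0x42e40c) (nat_lit 0xa4852e174e3a37e) (nat_lit 0x0)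
  (PL.C (nat_lit 0x42e763) (nat_lit 0x0) (nat_lit 0xb4f8caac949ee4)
  (PL.C (nat_lit 0x43376c) (nat_lit 0x1cf2d6804283e5c) (nat_lit 0x0) gp0_0_47))))))))))))))))))))

noncomputable def gp0_0_45 : PL :=
  (PL.C (nat_lit 0x3e54ca) (nat_lit 0x1c6e220a57bad8) (nat_lit 0x0)
  (PL.C (nat_lit 0x3e8818) (nat_lit 0x0) (nat_lit 0x1caa016636370)
  (PL.C (nat_lit 0x3e92c8) (nat_lit 0x16ca3360dcd178) (nat_lit 0x0)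
  (PL.C (nat_lit 0x3eadbc) (nat_lit 0x0) (nat_lit 0x5787b7ae281e0d)
  (PL.C (nat_lit 0x3eb1fd) (nat_lit 0x0) (nat_lit 0x52f35fbef8a966d)
  (PL.C (nat_lit 0x3edf45) (nat_lit 0x250e7653cd4e9) (nat_lit 0x0)
  (PL.C (nat_lit 0x3f0f42) (nat_lit 0x0) (nat_lit 0x3be3a1bfffc959d)
  (PL.C (nat_lit 0x3f358b) (nat_lit 0x26893b96748aacf) (nat_lit 0x0)
  (PL.C (nat_lit 0x3f6c09) (nat_lit 0xc60daeee46038c) (nat_lit 0x0)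
  (PL.C (nat_lit 0x3f8706) (nat_lit 0x0) (nat_lit 0xe684370ff9136fb)
  (PL.C (nat_lit 0x3fa52a) (nat_lit 0x13c63413b5b6e73) (nat_lit 0x0)
  (PL.C (nat_lit 0x3fb4e8) (nat_lit 0x0) (nat_lit 0xf335fcbfc6a3b)
  (PL.C (nat_lit 0x3fcf36) (nat_lit 0x0) (nat_lit 0x1bc71748b778ac3)
  (PL.C (nat_lit 0x3fe004) (nat_lit 0x472d4d04da7cad5) (nat_lit 0x0)
  (PL.C (nat_lit 0x3ff3ea) (nat_lit 0x0) (nat_lit 0x1affc7580c3e5)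
  (PL.C (nat_lit 0x3ffffc) (nat_lit 0x0) (nat_lit 0x218ca6f3cddb7dd)
  (PL.C (nat_lit 0x401a69) (nat_lit 0xd261d998ea86f) (nat_lit 0x0)
  (PL.C (nat_lit 0x402004) (nat_lit 0x0) (nat_lit 0xb0ce01670e363)
  (PL.C (nat_lit 0x402710) (nat_lit 0x29633dae80cbc8a) (nat_lit 0x0)
  (PL.C (nat_lit 0x406538) (nat_lit 0x0) (nat_lit 0x11fe5b1dd959b035) gp0_0_46))))))))))))))))))))

noncomputable def gp0_0_44 : PL :=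
  (PL.C (nat_lit 0x3bf4a2) (nat_lit 0x0) (nat_lit 0x53b6a11847938ce)
  (PL.C (nat_lit 0x3c1c3e) (nat_lit 0x3d9d63ba4ba80f1) (nat_lit 0x0)
  (PL.C (nat_lit 0x3c327c) (nat_lit 0x1ebb34ecc0bcb3b) (nat_lit 0x0)
  (PL.C (nat_lit 0x3c44eb) (nat_lit 0x0) (nat_lit 0xf78690bdeb09b4)
  (PL.C (nat_lit 0x3c6315) (nat_lit 0x4d91e18c959b13a) (nat_lit 0x0)
  (PL.C (nat_lit 0x3c80dc) (nat_lit 0xa4852e174e3a37e) (nat_lit 0x0)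
  (PL.C (nat_lit 0x3c9f24) (nat_lit 0x12580cbbde2304f) (nat_lit 0x0)
  (PL.C (nat_lit 0x3cbe64) (nat_lit 0x0) (nat_lit 0x5b750845194952)
  (PL.C (nat_lit 0x3cc29a) (nat_lit 0x44d8bdda383c60b) (nat_lit 0x0)
  (PL.C (nat_lit 0x3cff08) (nat_lit 0x0) (nat_lit 0x1bcf9b6a6424e191)
  (PL.C (nat_lit 0x3d24bc) (nat_lit 0x0) (nat_lit 0x296b46a4beb89cd)
  (PL.C (nat_lit 0x3d3eb6) (nat_lit 0x0) (nat_lit 0x16d32cae9554ddf)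
  (PL.C (nat_lit 0x3d645e) (nat_lit 0x0) (nat_lit 0x676698fe1fa6b06)
  (PL.C (nat_lit 0x3d90b9) (nat_lit 0x1377be3f514dce50) (nat_lit 0x0)
  (PL.C (nat_lit 0x3dcdf4) (nat_lit 0x0) (nat_lit 0x13d0cc98e2eef5df)
  (PL.C (nat_lit 0x3de0e1) (nat_lit 0x0) (nat_lit 0xc06d2f194d0a97)
  (PL.C (nat_lit 0x3e033c) (nat_lit 0x0) (nat_lit 0x523947836fa42a3)
  (PL.C (nat_lit 0x3e1d44) (nat_lit 0x61c6dbfdc49bb3) (nat_lit 0x0)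
  (PL.C (nat_lit 0x3e1fcf) (nat_lit 0x0) (nat_lit 0x7fa812e18bb87a)
  (PL.C (nat_lit 0x3e3b18) (nat_lit 0x0) (nat_lit 0x5ba2672f1cf941) gp0_0_45))))))))))))))))))))

noncomputable def gp0_0_43 : PL :=
  (PL.C (nat_lit 0x3980ac) (nat_lit 0x0) (nat_lit 0x5aacb0d0bc951a0)
  (PL.C (nat_lit 0x39838b) (nat_lit 0x0) (nat_lit 0x130b1b2fc829abd)
  (PL.C (nat_lit 0x399b2b) (nat_lit 0x9f9ff04c5bec22) (nat_lit 0x0)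
  (PL.C (nat_lit 0x39b478) (nat_lit 0x0) (nat_lit 0x195ae03eeb8ad0d)
  (PL.C (nat_lit 0x39d546) (nat_lit 0x0) (nat_lit 0x2ef145f52e50262)
  (PL.C (nat_lit 0x3a06d0) (nat_lit 0x274ae1f60a6ab93) (nat_lit 0x0)
  (PL.C (nat_lit 0x3a43be) (nat_lit 0x96554f653c448ff) (nat_lit 0x0)
  (PL.C (nat_lit 0x3a8374) (nat_lit 0x0) (nat_lit 0x8347ec733adb9)
  (PL.C (nat_lit 0x3a86b0) (nat_lit 0x29633dae80cbc8a) (nat_lit 0x0)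
  (PL.C (nat_lit 0x3a9977) (nat_lit 0x0) (nat_lit 0xe72e1070a6cb00e)
  (PL.C (nat_lit 0x3ab7c2) (nat_lit 0x0) (nat_lit 0x62c575bdd844bd8)
  (PL.C (nat_lit 0x3ac648) (nat_lit 0x0) (nat_lit 0x3548f38eb69126b)
  (PL.C (nat_lit 0x3af228) (nat_lit 0x4f90290b2b29adc) (nat_lit 0x0)
  (PL.C (nat_lit 0x3b0b8c) (nat_lit 0x0) (nat_lit 0x6f7b7dbea921236)
  (PL.C (nat_lit 0x3b5416) (nat_lit 0x59f3f9655e1cb66) (nat_lit 0x0)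
  (PL.C (nat_lit 0x3b586c) (nat_lit 0x0) (nat_lit 0x2298fcff1f7005e)
  (PL.C (nat_lit 0x3b70ed) (nat_lit 0x0) (nat_lit 0x9b3c13bafb2f3)
  (PL.C (nat_lit 0x3ba3b0) (nat_lit 0x0) (nat_lit 0x8fd40829e471a)
  (PL.C (nat_lit 0x3bdb34) (nat_lit 0x0) (nat_lit 0x3bfc1dffc0b330)
  (PL.C (nat_lit 0x3bf3eb) (nat_lit 0x0) (nat_lit 0x9b3c13a1b18f2) gp0_0_44))))))))))))))))))))

noncomputable def gp0_0_42 : PL :=
  (PL.C (nat_lit 0x3738e4) (nat_lit 0x3802a1d322faab4) (nat_lit 0x0)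
  (PL.C (nat_lit 0x37505a) (nat_lit 0x0) (nat_lit 0xa091783507c71f6)
  (PL.C (nat_lit 0x376fd0) (nat_lit 0x52321540de08021) (nat_lit 0x0)
  (PL.C (nat_lit 0x3791dc) (nat_lit 0x0) (nat_lit 0x40ed50c8d18875b)
  (PL.C (nat_lit 0x379484) (nat_lit 0x0) (nat_lit 0x236f4c63f190ea)
  (PL.C (nat_lit 0x37ab77) (nat_lit 0x0) (nat_lit 0x17309168c9d79)
  (PL.C (nat_lit 0x37e128) (nat_lit 0x0) (nat_lit 0x799afe50fb3ec)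
  (PL.C (nat_lit 0x37e39e) (nat_lit 0xddf1401a75052b) (nat_lit 0x0)
  (PL.C (nat_lit 0x37fec9) (nat_lit 0x0) (nat_lit 0xb4f8caadecf4a3)
  (PL.C (nat_lit 0x38174c) (nat_lit 0x0) (nat_lit 0x1fa0fc7c929f83e)
  (PL.C (nat_lit 0x382e75) (nat_lit 0x0) (nat_lit 0x5c826d2fdfe1dbe)
  (PL.C (nat_lit 0x385374) (nat_lit 0x0) (nat_lit 0x2dbf7eaa500a3bf)
  (PL.C (nat_lit 0x387a2f) (nat_lit 0x0) (nat_lit 0x1fa49430f438950)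
  (PL.C (nat_lit 0x38f848) (nat_lit 0x46675f6e6804ced) (nat_lit 0x0)
  (PL.C (nat_lit 0x3909ba) (nat_lit 0x0) (nat_lit 0x2ca21a5ef10685b)
  (PL.C (nat_lit 0x39167d) (nat_lit 0x0) (nat_lit 0x1ffcd3551eda552)
  (PL.C (nat_lit 0x392646) (nat_lit 0x0) (nat_lit 0x138a4016c598cb0)
  (PL.C (nat_lit 0x394f44) (nat_lit 0x8f91dae6f1324c5) (nat_lit 0x0)
  (PL.C (nat_lit 0x395da5) (nat_lit 0xc60daef03b33a5) (nat_lit 0x0)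
  (PL.C (nat_lit 0x3969b8) (nat_lit 0x0) (nat_lit 0x202562e30b6fb4) gp0_0_43))))))))))))))))))))

noncomputable def gp0_0_41 : PL :=
  (PL.C (nat_lit 0x343ac4) (nat_lit 0x0) (nat_lit 0x213ae97182ca85)
  (PL.C (nat_lit 0x3442f8) (nat_lit 0x0) (nat_lit 0x2f21af6b3efd7a9)
  (PL.C (nat_lit 0x34592c) (nat_lit 0x0) (nat_lit 0x62e8c893abc126)
  (PL.C (nat_lit 0x34714b) (nat_lit 0x4a67029e765b40) (nat_lit 0x0)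
  (PL.C (nat_lit 0x3482df) (nat_lit 0x633ddc51ba52782) (nat_lit 0x0)
  (PL.C (nat_lit 0x348fdc) (nat_lit 0x299e49064247b64) (nat_lit 0x0)
  (PL.C (nat_lit 0x34ab08) (nat_lit 0x1d73813ee4c75e) (nat_lit 0x0)
  (PL.C (nat_lit 0x34ecb1) (nat_lit 0x0) (nat_lit 0x10f0706de981eaba)
  (PL.C (nat_lit 0x352154) (nat_lit 0x2453554d4326ac6) (nat_lit 0x0)
  (PL.C (nat_lit 0x353199) (nat_lit 0x0) (nat_lit 0x43a0d0394318f58)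
  (PL.C (nat_lit 0x35c158) (nat_lit 0x147fbec97db9afb) (nat_lit 0x0)
  (PL.C (nat_lit 0x35ca88) (nat_lit 0x1f40dfe269a296) (nat_lit 0x0)
  (PL.C (nat_lit 0x3606f6) (nat_lit 0x0) (nat_lit 0x44163eceb800fe8)
  (PL.C (nat_lit 0x365673) (nat_lit 0x241db82faf248b8e) (nat_lit 0x0)
  (PL.C (nat_lit 0x365c18) (nat_lit 0x5a0d1cef8e27b54) (nat_lit 0x0)
  (PL.C (nat_lit 0x366ec4) (nat_lit 0x4904bc361e9b1e) (nat_lit 0x0)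
  (PL.C (nat_lit 0x36728a) (nat_lit 0x0) (nat_lit 0x16ef32d0db43e24)
  (PL.C (nat_lit 0x36c03c) (nat_lit 0x3802a1d0dd7111e) (nat_lit 0x0)
  (PL.C (nat_lit 0x36f6b0) (nat_lit 0x52321540de08021) (nat_lit 0x0)
  (PL.C (nat_lit 0x36fa1a) (nat_lit 0xd7d6d4702509eb) (nat_lit 0x0) gp0_0_42))))))))))))))))))))

noncomputable def gp0_0_40 : PL :=
  (PL.C (nat_lit 0x325c94) (nat_lit 0x0) (nat_lit 0x1da34a0d2376cec)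
  (PL.C (nat_lit 0x327954) (nat_lit 0x1c9c9ad584a9bb) (nat_lit 0x0)
  (PL.C (nat_lit 0x32eec9) (nat_lit 0x0) (nat_lit 0x2d4ca8eb563052)
  (PL.C (nat_lit 0x330d08) (nat_lit 0x0) (nat_lit 0x195ae03ef4efdf6)
  (PL.C (nat_lit 0x3346f4) (nat_lit 0xf0b0c6e138898) (nat_lit 0x0)
  (PL.C (nat_lit 0x334a82) (nat_lit 0x7a607c35166b153) (nat_lit 0x0)
  (PL.C (nat_lit 0x3352ac) (nat_lit 0x0) (nat_lit 0x771c3f89044f51)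
  (PL.C (nat_lit 0x335824) (nat_lit 0x400def46f05b81b) (nat_lit 0x0)
  (PL.C (nat_lit 0x3367dd) (nat_lit 0x0) (nat_lit 0x5de92cbd82e122)
  (PL.C (nat_lit 0x337494) (nat_lit 0x0) (nat_lit 0xde46e33de3d9d1)
  (PL.C (nat_lit 0x3389d3) (nat_lit 0x2079efd6623266) (nat_lit 0x0)
  (PL.C (nat_lit 0x338b9e) (nat_lit 0x0) (nat_lit 0xd161294853418)
  (PL.C (nat_lit 0x33bf9c) (nat_lit 0xc982c292182ceb) (nat_lit 0x0)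
  (PL.C (nat_lit 0x33d0c8) (nat_lit 0x7232f903108905) (nat_lit 0x0)
  (PL.C (nat_lit 0x33e4fc) (nat_lit 0x0) (nat_lit 0x14d98caf26f34)
  (PL.C (nat_lit 0x3402fc) (nat_lit 0x0) (nat_lit 0x8b07870d5c0ee9b)
  (PL.C (nat_lit 0x340c98) (nat_lit 0x47fd72cfca58876) (nat_lit 0x0)
  (PL.C (nat_lit 0x341d04) (nat_lit 0x299e49064247b64) (nat_lit 0x0)
  (PL.C (nat_lit 0x342088) (nat_lit 0x1821533f4c06f36) (nat_lit 0x0)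
  (PL.C (nat_lit 0x34360e) (nat_lit 0x637eeaa95b1898) (nat_lit 0x0) gp0_0_41))))))))))))))))))))

noncomputable def gp0_0_39 : PL :=
  (PL.C (nat_lit 0x2f78c4) (nat_lit 0x0) (nat_lit 0x456932b4d6721ff)
  (PL.C (nat_lit 0x2f8c44) (nat_lit 0x18f472d77018466) (nat_lit 0x0)
  (PL.C (nat_lit 0x2f9c34) (nat_lit 0x5f320ece6f7c532) (nat_lit 0x0)
  (PL.C (nat_lit 0x2fb0b6) (nat_lit 0x0) (nat_lit 0xb906781d96d67)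
  (PL.C (nat_lit 0x301768) (nat_lit 0x0) (nat_lit 0x11fe5b1dddc28a46)
  (PL.C (nat_lit 0x302622) (nat_lit 0x0) (nat_lit 0x2ca21a5ef10685b)
  (PL.C (nat_lit 0x302b98) (nat_lit 0x0) (nat_lit 0x1a7715416b7208)
  (PL.C (nat_lit 0x306cf9) (nat_lit 0x60972dd1b10d37f) (nat_lit 0x0)
  (PL.C (nat_lit 0x308cf7) (nat_lit 0x2f7d347456a8f65) (nat_lit 0x0)
  (PL.C (nat_lit 0x309eee) (nat_lit 0x9a60b5d7f3f9e4d) (nat_lit 0x0)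
  (PL.C (nat_lit 0x311355) (nat_lit 0x1b7a24e6bfb1b382) (nat_lit 0x0)
  (PL.C (nat_lit 0x312f36) (nat_lit 0x4ae5a4665ff5586) (nat_lit 0x0)
  (PL.C (nat_lit 0x314424) (nat_lit 0x9b326881ffcfbc7) (nat_lit 0x0)
  (PL.C (nat_lit 0x315a30) (nat_lit 0x0) (nat_lit 0x8fd40829e471a)
  (PL.C (nat_lit 0x317793) (nat_lit 0xdb4d8d99fc00427) (nat_lit 0x0)
  (PL.C (nat_lit 0x319d68) (nat_lit 0x0) (nat_lit 0x4461f2da5467c3f)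
  (PL.C (nat_lit 0x32164e) (nat_lit 0x0) (nat_lit 0x4c335c1cbcfcf33)
  (PL.C (nat_lit 0x3226b8) (nat_lit 0x0) (nat_lit 0x1389f7c50851d19)
  (PL.C (nat_lit 0x32436c) (nat_lit 0x0) (nat_lit 0x40ed50c8bf08fb0)
  (PL.C (nat_lit 0x32582d) (nat_lit 0x0) (nat_lit 0x30a265f887ef5) gp0_0_40))))))))))))))))))))

noncomputable def gp0_0_38 : PL :=
  (PL.C (nat_lit 0x2c7cde) (nat_lit 0x13c798f5d8f3fa12) (nat_lit 0x0)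
  (PL.C (nat_lit 0x2c9322) (nat_lit 0x0) (nat_lit 0x1d6559c2bebecba)
  (PL.C (nat_lit 0x2c9808) (nat_lit 0x1460cfc1864eeb63) (nat_lit 0x0)
  (PL.C (nat_lit 0x2c9a42) (nat_lit 0x0) (nat_lit 0x2db7c4a8dd7da30)
  (PL.C (nat_lit 0x2cad35) (nat_lit 0x0) (nat_lit 0x1fd383e01919939a)
  (PL.C (nat_lit 0x2cd9a4) (nat_lit 0x245355482877b32) (nat_lit 0x0)
  (PL.C (nat_lit 0x2ce21e) (nat_lit 0x388e83afccee177) (nat_lit 0x0)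
  (PL.C (nat_lit 0x2ced38) (nat_lit 0x0) (nat_lit 0x398af02061e3fd)
  (PL.C (nat_lit 0x2d60b8) (nat_lit 0x0) (nat_lit 0x184353a7a633d6d)
  (PL.C (nat_lit 0x2d71ca) (nat_lit 0x1f54502dcc5f29b) (nat_lit 0x0)
  (PL.C (nat_lit 0x2e0284) (nat_lit 0x0) (nat_lit 0x91f10ce7facaca)
  (PL.C (nat_lit 0x2e5f3c) (nat_lit 0x203f6fcdf700d6f9) (nat_lit 0x0)
  (PL.C (nat_lit 0x2e71c6) (nat_lit 0x2d2a4b2c5ff32a9) (nat_lit 0x0)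
  (PL.C (nat_lit 0x2e9b9c) (nat_lit 0x0) (nat_lit 0xa59d9b8bca1d79)
  (PL.C (nat_lit 0x2ea168) (nat_lit 0x0) (nat_lit 0x4461f2d7326ba9b)
  (PL.C (nat_lit 0x2f1438) (nat_lit 0x13487e8aa4334978) (nat_lit 0x0)
  (PL.C (nat_lit 0x2f2bc8) (nat_lit 0x143b72c32f99fa5) (nat_lit 0x0)
  (PL.C (nat_lit 0x2f42ca) (nat_lit 0x361eb755ede1a1) (nat_lit 0x0)
  (PL.C (nat_lit 0x2f597c) (nat_lit 0x0) (nat_lit 0x523947806935b3f)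
  (PL.C (nat_lit 0x2f6d09) (nat_lit 0xdb24dbaa3158b24) (nat_lit 0x0) gp0_0_39))))))))))))))))))))

noncomputable def gp0_0_37 : PL :=
  (PL.C (nat_lit 0x2a4806) (nat_lit 0x0) (nat_lit 0x1c6945f391a90a5)
  (PL.C (nat_lit 0x2a5a04) (nat_lit 0x274bf1cd2c16a1b) (nat_lit 0x0)
  (PL.C (nat_lit 0x2a6e1c) (nat_lit 0x1312053271f8dd5) (nat_lit 0x0)
  (PL.C (nat_lit 0x2a7fa1) (nat_lit 0x0) (nat_lit 0x30a265f887ef5)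
  (PL.C (nat_lit 0x2a8a24) (nat_lit 0x0) (nat_lit 0x4bcefcded13614f)
  (PL.C (nat_lit 0x2a9558) (nat_lit 0x47fd72cfca58876) (nat_lit 0x0)
  (PL.C (nat_lit 0x2aa29c) (nat_lit 0x0) (nat_lit 0x213ae97182ca85)
  (PL.C (nat_lit 0x2aaaa8) (nat_lit 0x0) (nat_lit 0x2888a709e3f4afd)
  (PL.C (nat_lit 0x2abc46) (nat_lit 0x0) (nat_lit 0x1e700822e606fc6)
  (PL.C (nat_lit 0x2b57b4) (nat_lit 0x2172ca84794c093) (nat_lit 0x0)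
  (PL.C (nat_lit 0x2b7fc8) (nat_lit 0x0) (nat_lit 0xe5ef8d8ff1512da)
  (PL.C (nat_lit 0x2b8d1a) (nat_lit 0x0) (nat_lit 0x3be3a1bfffc959d)
  (PL.C (nat_lit 0x2b91be) (nat_lit 0x0) (nat_lit 0x1584118ae1f798c)
  (PL.C (nat_lit 0x2ba2e6) (nat_lit 0x1f7da15e656f550) (nat_lit 0x0)
  (PL.C (nat_lit 0x2baf0c) (nat_lit 0x0) (nat_lit 0x8580fb919ff90c7)
  (PL.C (nat_lit 0x2be2c8) (nat_lit 0x88f978a5099fbd) (nat_lit 0x0)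
  (PL.C (nat_lit 0x2be7ec) (nat_lit 0x10caead65340ec55) (nat_lit 0x0)
  (PL.C (nat_lit 0x2bfa0d) (nat_lit 0x0) (nat_lit 0x197084ed05b738)
  (PL.C (nat_lit 0x2c38ce) (nat_lit 0x0) (nat_lit 0x6b2ed0d1f16ffbf)
  (PL.C (nat_lit 0x2c6bda) (nat_lit 0x0) (nat_lit 0x16798486e00dc835) gp0_0_38))))))))))))))))))))

noncomputable def gp0_0_36 : PL :=
  (PL.C (nat_lit 0x282df2) (nat_lit 0x0) (nat_lit 0x16798486e00dc835)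
  (PL.C (nat_lit 0x28420e) (nat_lit 0x35d4fea36ab20e0) (nat_lit 0x0)
  (PL.C (nat_lit 0x2855e8) (nat_lit 0x1460cfc1864eeb63) (nat_lit 0x0)
  (PL.C (nat_lit 0x286a18) (nat_lit 0x0) (nat_lit 0xd3aefc2ea3524c)
  (PL.C (nat_lit 0x2881bc) (nat_lit 0x0) (nat_lit 0x3a8b3c3c20492066)
  (PL.C (nat_lit 0x28c328) (nat_lit 0x0) (nat_lit 0x1a11e54fce8faf5)
  (PL.C (nat_lit 0x28ed94) (nat_lit 0x0) (nat_lit 0xb762794abf085a)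
  (PL.C (nat_lit 0x290b26) (nat_lit 0x81acecae4e432fc) (nat_lit 0x0)
  (PL.C (nat_lit 0x2933f8) (nat_lit 0x0) (nat_lit 0x1bcf9b6a6424e191)
  (PL.C (nat_lit 0x294096) (nat_lit 0x0) (nat_lit 0x44163eceb800fe8)
  (PL.C (nat_lit 0x2968d8) (nat_lit 0x0) (nat_lit 0x11c518f7deb48b)
  (PL.C (nat_lit 0x296a8a) (nat_lit 0x0) (nat_lit 0x2f1b2a8d78a48a)
  (PL.C (nat_lit 0x296d69) (nat_lit 0x15a3d453ad4dcd29) (nat_lit 0x0)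
  (PL.C (nat_lit 0x298ddc) (nat_lit 0x130cba2fb056fb1) (nat_lit 0x0)
  (PL.C (nat_lit 0x29b730) (nat_lit 0x0) (nat_lit 0x110c051d3c77c1)
  (PL.C (nat_lit 0x29c928) (nat_lit 0x1d73813ba8f413) (nat_lit 0x0)
  (PL.C (nat_lit 0x29cbfe) (nat_lit 0x0) (nat_lit 0x3c7989838f25b06a)
  (PL.C (nat_lit 0x29ea2e) (nat_lit 0x0) (nat_lit 0x1f1afa8bb571ff)
  (PL.C (nat_lit 0x2a0a2c) (nat_lit 0x0) (nat_lit 0xb8c35edcbe2809)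
  (PL.C (nat_lit 0x2a23b2) (nat_lit 0x129e563b332334c) (nat_lit 0x0) gp0_0_37))))))))))))))))))))

noncomputable def gp0_0_35 : PL :=
  (PL.C (nat_lit 0x2655c8) (nat_lit 0x0) (nat_lit 0x67860d00d4e6872)
  (PL.C (nat_lit 0x2657b2) (nat_lit 0xa68f99226a9428) (nat_lit 0x0)
  (PL.C (nat_lit 0x266772) (nat_lit 0xd7d6d474a15436) (nat_lit 0x0)
  (PL.C (nat_lit 0x267850) (nat_lit 0x36893e9ca79d5b) (nat_lit 0x0)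
  (PL.C (nat_lit 0x26d7d4) (nat_lit 0x10caead5fc2688ad) (nat_lit 0x0)
  (PL.C (nat_lit 0x26e3b9) (nat_lit 0x6a503ecc864ddb8) (nat_lit 0x0)
  (PL.C (nat_lit 0x2710fa) (nat_lit 0x0) (nat_lit 0x2ef145f52e50262)
  (PL.C (nat_lit 0x27252c) (nat_lit 0x203f6fcea5f0a306) (nat_lit 0x0)
  (PL.C (nat_lit 0x275d08) (nat_lit 0xe7944aa4a17e29) (nat_lit 0x0)
  (PL.C (nat_lit 0x2761a7) (nat_lit 0x0) (nat_lit 0x25bf8272d5e210)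
  (PL.C (nat_lit 0x278d64) (nat_lit 0x864271843c961ea) (nat_lit 0x0)
  (PL.C (nat_lit 0x279048) (nat_lit 0x0) (nat_lit 0x2f21af6b3efd7a9)
  (PL.C (nat_lit 0x27a09e) (nat_lit 0x5428e916849978) (nat_lit 0x0)
  (PL.C (nat_lit 0x27b9d3) (nat_lit 0x0) (nat_lit 0x43a0d038452e030)
  (PL.C (nat_lit 0x27e778) (nat_lit 0x7232f903108905) (nat_lit 0x0)
  (PL.C (nat_lit 0x27f7f2) (nat_lit 0x5428e913720310) (nat_lit 0x0)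
  (PL.C (nat_lit 0x27f86c) (nat_lit 0x0) (nat_lit 0x21313cf74d80c75)
  (PL.C (nat_lit 0x2808ed) (nat_lit 0x0) (nat_lit 0x5be68604b285b1d)
  (PL.C (nat_lit 0x2812d4) (nat_lit 0xb50f3c693234361) (nat_lit 0x0)
  (PL.C (nat_lit 0x2821a8) (nat_lit 0x0) (nat_lit 0x9c4fbe28f738c8) gp0_0_36))))))))))))))))))))

noncomputable def gp0_0_34 : PL :=
  (PL.C (nat_lit 0x2404a4) (nat_lit 0x0) (nat_lit 0x7f8ffb52ee8344b)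
  (PL.C (nat_lit 0x2439a2) (nat_lit 0x0) (nat_lit 0x1015b863cb05bb31)
  (PL.C (nat_lit 0x2449d8) (nat_lit 0x0) (nat_lit 0x63f284dae8ff6)
  (PL.C (nat_lit 0x244c5c) (nat_lit 0x0) (nat_lit 0x1170f8f280f6117)
  (PL.C (nat_lit 0x248028) (nat_lit 0x8c37cefbaf4797a) (nat_lit 0x0)
  (PL.C (nat_lit 0x24a6bc) (nat_lit 0x0) (nat_lit 0x2b3782fcdfc359)
  (PL.C (nat_lit 0x24d098) (nat_lit 0x8c37cefbaf4797a) (nat_lit 0x0)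
  (PL.C (nat_lit 0x24e03c) (nat_lit 0xbe73c24a5dce013) (nat_lit 0x0)
  (PL.C (nat_lit 0x250be8) (nat_lit 0x0) (nat_lit 0x3fad83bdde7c6cd)
  (PL.C (nat_lit 0x251cfa) (nat_lit 0x3c96696dedb76e) (nat_lit 0x0)
  (PL.C (nat_lit 0x255486) (nat_lit 0x0) (nat_lit 0x2db7c4a17c01ca7)
  (PL.C (nat_lit 0x25744e) (nat_lit 0x0) (nat_lit 0x18aa7387e0d349c7)
  (PL.C (nat_lit 0x258cf8) (nat_lit 0x0) (nat_lit 0x184353a609b4666)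
  (PL.C (nat_lit 0x25a6ca) (nat_lit 0x0) (nat_lit 0x6b2ed0d852c0e04)
  (PL.C (nat_lit 0x25b6c9) (nat_lit 0x0) (nat_lit 0x2979afe014173b2)
  (PL.C (nat_lit 0x26067c) (nat_lit 0x0) (nat_lit 0x65e10399c1ed70c)
  (PL.C (nat_lit 0x260efe) (nat_lit 0x0) (nat_lit 0xdabee35ce140406)
  (PL.C (nat_lit 0x261984) (nat_lit 0x0) (nat_lit 0x949b9d03952d53)
  (PL.C (nat_lit 0x2634d8) (nat_lit 0xb0a3103df2568e2) (nat_lit 0x0)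
  (PL.C (nat_lit 0x263e6e) (nat_lit 0x0) (nat_lit 0x1c6945f5f2976b8) gp0_0_35))))))))))))))))))))

noncomputable def gp0_0_33 : PL :=
  (PL.C (nat_lit 0x22267b) (nat_lit 0x4e08aca91ec5283) (nat_lit 0x0)
  (PL.C (nat_lit 0x2231ac) (nat_lit 0x124ec679b7f76996) (nat_lit 0x0)
  (PL.C (nat_lit 0x22453e) (nat_lit 0x388e83b00ec7a03) (nat_lit 0x0)
  (PL.C (nat_lit 0x224db8) (nat_lit 0x0) (nat_lit 0xd5314924b1d848)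
  (PL.C (nat_lit 0x225be2) (nat_lit 0x0) (nat_lit 0x224926a8f6963bc)
  (PL.C (nat_lit 0x225d14) (nat_lit 0x0) (nat_lit 0x14d98caf26f34)
  (PL.C (nat_lit 0x228b30) (nat_lit 0xbbe9333ff5a881) (nat_lit 0x0)
  (PL.C (nat_lit 0x2298a8) (nat_lit 0x2564bc35c72812) (nat_lit 0x0)
  (PL.C (nat_lit 0x22aca8) (nat_lit 0x1f6a5c7a40b4269) (nat_lit 0x0)
  (PL.C (nat_lit 0x22b310) (nat_lit 0x1fcbaca67e678d2) (nat_lit 0x0)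
  (PL.C (nat_lit 0x22ceb4) (nat_lit 0x0) (nat_lit 0xa59d9b83d554bf)
  (PL.C (nat_lit 0x22d1d8) (nat_lit 0x0) (nat_lit 0x3298fbf529e3d6)
  (PL.C (nat_lit 0x22d750) (nat_lit 0x0) (nat_lit 0xbdf5785a93705c)
  (PL.C (nat_lit 0x22f632) (nat_lit 0x1153139da21feb4) (nat_lit 0x0)
  (PL.C (nat_lit 0x2301ea) (nat_lit 0x0) (nat_lit 0x676698fe1fa6b06)
  (PL.C (nat_lit 0x231cb0) (nat_lit 0x38c26208cf9237) (nat_lit 0x0)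
  (PL.C (nat_lit 0x232503) (nat_lit 0x250e7653cd4e9) (nat_lit 0x0)
  (PL.C (nat_lit 0x234876) (nat_lit 0x55bd4fd779f49998) (nat_lit 0x0)
  (PL.C (nat_lit 0x237666) (nat_lit 0x0) (nat_lit 0x3b28da3c1842101)
  (PL.C (nat_lit 0x23e0f5) (nat_lit 0x40bf34b83f349ea) (nat_lit 0x0) gp0_0_34))))))))))))))))))))

noncomputable def gp0_0_32 : PL :=
  (PL.C (nat_lit 0x201d10) (nat_lit 0x0) (nat_lit 0x5416280cb9e87)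
  (PL.C (nat_lit 0x2026ad) (nat_lit 0x1e6ae2932bccd0) (nat_lit 0x0)
  (PL.C (nat_lit 0x2048a6) (nat_lit 0x0) (nat_lit 0x4c335c2041f4049)
  (PL.C (nat_lit 0x205dfa) (nat_lit 0x4c6c2c8804eabee) (nat_lit 0x0)
  (PL.C (nat_lit 0x2069f4) (nat_lit 0x87f13e7f83635bd) (nat_lit 0x0)
  (PL.C (nat_lit 0x2073e1) (nat_lit 0x3b5393ae46ab247) (nat_lit 0x0)
  (PL.C (nat_lit 0x20841f) (nat_lit 0x28d14e034b4485e) (nat_lit 0x0)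
  (PL.C (nat_lit 0x2096af) (nat_lit 0x0) (nat_lit 0x25bf8272d5e210)
  (PL.C (nat_lit 0x20b78e) (nat_lit 0x32d7add7fcbf0b8a) (nat_lit 0x0)
  (PL.C (nat_lit 0x20ca24) (nat_lit 0x0) (nat_lit 0x8b078709be5ab25)
  (PL.C (nat_lit 0x20d818) (nat_lit 0x0) (nat_lit 0x5069506d8b1859e)
  (PL.C (nat_lit 0x20fa62) (nat_lit 0x3021e801752dfc7) (nat_lit 0x0)
  (PL.C (nat_lit 0x21268b) (nat_lit 0x15a3d453a3b8998b) (nat_lit 0x0)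
  (PL.C (nat_lit 0x216434) (nat_lit 0x0) (nat_lit 0x70b8c3a0d502cf6)
  (PL.C (nat_lit 0x218248) (nat_lit 0x0) (nat_lit 0x3fad83bdde7c6cd)
  (PL.C (nat_lit 0x21901e) (nat_lit 0x6ca820a1ee25097) (nat_lit 0x0)
  (PL.C (nat_lit 0x21a638) (nat_lit 0x0) (nat_lit 0x1a7715411b92bf)
  (PL.C (nat_lit 0x21daaf) (nat_lit 0x0) (nat_lit 0x3580939369bbc0)
  (PL.C (nat_lit 0x21f486) (nat_lit 0x0) (nat_lit 0xe7ccf01c841b71)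
  (PL.C (nat_lit 0x2208b0) (nat_lit 0x36893e9ca79d5b) (nat_lit 0x0) gp0_0_33))))))))))))))))))))

noncomputable def gp0_0_31 : PL :=
  (PL.C (nat_lit 0x1dc8ce) (nat_lit 0x26520e2f28fac511) (nat_lit 0x0)
  (PL.C (nat_lit 0x1dec14) (nat_lit 0x30a628c1b82a789) (nat_lit 0x0)
  (PL.C (nat_lit 0x1e26bb) (nat_lit 0x0) (nat_lit 0xfcb630ffadb436)
  (PL.C (nat_lit 0x1e4989) (nat_lit 0x3b5393ae46ab247) (nat_lit 0x0)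
  (PL.C (nat_lit 0x1e4bdc) (nat_lit 0x831adaa908a8951) (nat_lit 0x0)
  (PL.C (nat_lit 0x1e5523) (nat_lit 0x0) (nat_lit 0x3e3b0c6bac7eccb)
  (PL.C (nat_lit 0x1e692d) (nat_lit 0x0) (nat_lit 0xfcb630d94763bc)
  (PL.C (nat_lit 0x1eac58) (nat_lit 0x1f40dfe269a296) (nat_lit 0x0)
  (PL.C (nat_lit 0x1ebd57) (nat_lit 0x0) (nat_lit 0x1880a3dc25d038d)
  (PL.C (nat_lit 0x1eea28) (nat_lit 0xd446883da72d2c4) (nat_lit 0x0)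
  (PL.C (nat_lit 0x1ef684) (nat_lit 0x62e2edc7479fafd) (nat_lit 0x0)
  (PL.C (nat_lit 0x1efc21) (nat_lit 0x0) (nat_lit 0x278f1cc856a7beb)
  (PL.C (nat_lit 0x1f1268) (nat_lit 0x0) (nat_lit 0x1a639684ed616dc)
  (PL.C (nat_lit 0x1f62d0) (nat_lit 0xbfbe2273be4b6c1) (nat_lit 0x0)
  (PL.C (nat_lit 0x1f9e06) (nat_lit 0x0) (nat_lit 0x17394ad0ad215550)
  (PL.C (nat_lit 0x1fa5d8) (nat_lit 0x7af226e280f798e) (nat_lit 0x0)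
  (PL.C (nat_lit 0x1fb2d8) (nat_lit 0x147fbec7bcbbeee) (nat_lit 0x0)
  (PL.C (nat_lit 0x1fbd78) (nat_lit 0x0) (nat_lit 0x1e5bc7fecc5f2fc)
  (PL.C (nat_lit 0x1fcb24) (nat_lit 0x52fb6cdf02fd30e) (nat_lit 0x0)
  (PL.C (nat_lit 0x20196c) (nat_lit 0x0) (nat_lit 0x65e10399c1ed70c) gp0_0_32))))))))))))))))))))

noncomputable def gp0_0_30 : PL :=
  (PL.C (nat_lit 0x1c5c18) (nat_lit 0x0) (nat_lit 0x3d8a31d7de5df94)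
  (PL.C (nat_lit 0x1c6390) (nat_lit 0x1fcbaca67e678d2) (nat_lit 0x0)
  (PL.C (nat_lit 0x1c6c68) (nat_lit 0x0) (nat_lit 0x3298fbf529e3d6)
  (PL.C (nat_lit 0x1c7d84) (nat_lit 0x0) (nat_lit 0x387a60fa683d258)
  (PL.C (nat_lit 0x1c7f73) (nat_lit 0x1624c44e67d536b8) (nat_lit 0x0)
  (PL.C (nat_lit 0x1d08bc) (nat_lit 0x0) (nat_lit 0xb8c35edcbe2809)
  (PL.C (nat_lit 0x1d0bd4) (nat_lit 0x0) (nat_lit 0xaffa72c7f5b434)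
  (PL.C (nat_lit 0x1d14b9) (nat_lit 0x1e6ae2932bccd0) (nat_lit 0x0)
  (PL.C (nat_lit 0x1d1744) (nat_lit 0x300b4fda8abff1b) (nat_lit 0x0)
  (PL.C (nat_lit 0x1d2347) (nat_lit 0x103cf7ed103d11) (nat_lit 0x0)
  (PL.C (nat_lit 0x1d4548) (nat_lit 0x4bb167aaee2fef1) (nat_lit 0x0)
  (PL.C (nat_lit 0x1d515e) (nat_lit 0x0) (nat_lit 0x95c597883dae4aa)
  (PL.C (nat_lit 0x1d7b34) (nat_lit 0x0) (nat_lit 0x507145a025b1772)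
  (PL.C (nat_lit 0x1d9d3c) (nat_lit 0x1585f4b14fa9350) (nat_lit 0x0)
  (PL.C (nat_lit 0x1da894) (nat_lit 0x0) (nat_lit 0x5aacb0d0bc951a0)
  (PL.C (nat_lit 0x1db1a9) (nat_lit 0x0) (nat_lit 0x2d4ca8eb563052)
  (PL.C (nat_lit 0x1db4d3) (nat_lit 0x0) (nat_lit 0x197084ed05b738)
  (PL.C (nat_lit 0x1db76c) (nat_lit 0x2223e14b83343da) (nat_lit 0x0)
  (PL.C (nat_lit 0x1dbab0) (nat_lit 0xd6574da3485f8d6) (nat_lit 0x0)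
  (PL.C (nat_lit 0x1dbc2c) (nat_lit 0x0) (nat_lit 0xf6f281107f9ec6e) gp0_0_31))))))))))))))))))))

noncomputable def gp0_0_29 : PL :=
  (PL.C (nat_lit 0x1ae3f0) (nat_lit 0xd6574da3485f8d6) (nat_lit 0x0)
  (PL.C (nat_lit 0x1b0128) (nat_lit 0x0) (nat_lit 0x2e58b41264d427f6)
  (PL.C (nat_lit 0x1b5cc4) (nat_lit 0x0) (nat_lit 0x32c4aaeb5ccc70d3)
  (PL.C (nat_lit 0x1b6525) (nat_lit 0x40bf34b83f349ea) (nat_lit 0x0)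
  (PL.C (nat_lit 0x1b72db) (nat_lit 0x0) (nat_lit 0x9858d967e371b7)
  (PL.C (nat_lit 0x1b8064) (nat_lit 0x0) (nat_lit 0x7f8ffb52ee8344b)
  (PL.C (nat_lit 0x1b8bbf) (nat_lit 0x2fc048bc27dd74) (nat_lit 0x0)
  (PL.C (nat_lit 0x1b9c5c) (nat_lit 0x0) (nat_lit 0x8347ed55800f1)
  (PL.C (nat_lit 0x1b9e46) (nat_lit 0x8e5f0e4b95cee33) (nat_lit 0x0)
  (PL.C (nat_lit 0x1bb3e8) (nat_lit 0x1ef25e1e4649a44) (nat_lit 0x0)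
  (PL.C (nat_lit 0x1bdb70) (nat_lit 0x38c26208cf9237) (nat_lit 0x0)
  (PL.C (nat_lit 0x1bdd54) (nat_lit 0x1084306631904e49) (nat_lit 0x0)
  (PL.C (nat_lit 0x1bf174) (nat_lit 0x0) (nat_lit 0x72223c9c7dd72d)
  (PL.C (nat_lit 0x1bfbf7) (nat_lit 0x1b7a24e6bfb1b382) (nat_lit 0x0)
  (PL.C (nat_lit 0x1c06c8) (nat_lit 0x0) (nat_lit 0x2876be36d750e4)
  (PL.C (nat_lit 0x1c17cc) (nat_lit 0x9b326881ffcfbc7) (nat_lit 0x0)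
  (PL.C (nat_lit 0x1c3004) (nat_lit 0x41f16bca2c12525) (nat_lit 0x0)
  (PL.C (nat_lit 0x1c3d01) (nat_lit 0x0) (nat_lit 0x105b260f058d40)
  (PL.C (nat_lit 0x1c4968) (nat_lit 0x88f978a5099fbd) (nat_lit 0x0)
  (PL.C (nat_lit 0x1c5516) (nat_lit 0x6ca820a1ee25097) (nat_lit 0x0) gp0_0_30))))))))))))))))))))

noncomputable def gp0_0_28 : PL :=
  (PL.C (nat_lit 0x19897b) (nat_lit 0x214934c35bdfbd6) (nat_lit 0x0)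
  (PL.C (nat_lit 0x198fcc) (nat_lit 0xbe7d639cb0d4db6) (nat_lit 0x0)
  (PL.C (nat_lit 0x199a4c) (nat_lit 0x0) (nat_lit 0x2b3782fcdfc359)
  (PL.C (nat_lit 0x19e538) (nat_lit 0x4bb167af1ae71b5) (nat_lit 0x0)
  (PL.C (nat_lit 0x19ed26) (nat_lit 0xb3a05669ffe91b6) (nat_lit 0x0)
  (PL.C (nat_lit 0x19f2f3) (nat_lit 0x0) (nat_lit 0x1880a3dc25d038d)
  (PL.C (nat_lit 0x1a134b) (nat_lit 0x4e08acaa65af5a4) (nat_lit 0x0)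
  (PL.C (nat_lit 0x1a18c8) (nat_lit 0xd4468843b238980) (nat_lit 0x0)
  (PL.C (nat_lit 0x1a2485) (nat_lit 0x0) (nat_lit 0x32c4265be8bf89e)
  (PL.C (nat_lit 0x1a411a) (nat_lit 0x350bd822bc1c8) (nat_lit 0x0)
  (PL.C (nat_lit 0x1a6030) (nat_lit 0x0) (nat_lit 0xbdf5785a93705c)
  (PL.C (nat_lit 0x1a6b14) (nat_lit 0x448d26a2af3bf13) (nat_lit 0x0)
  (PL.C (nat_lit 0x1a6cdf) (nat_lit 0x0) (nat_lit 0xa00998cd15d482d)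
  (PL.C (nat_lit 0x1a7be2) (nat_lit 0x0) (nat_lit 0x3b28da3c005bd39)
  (PL.C (nat_lit 0x1a9a50) (nat_lit 0xbbe9333ff5a881) (nat_lit 0x0)
  (PL.C (nat_lit 0x1aa54c) (nat_lit 0x448d26a294175f1) (nat_lit 0x0)
  (PL.C (nat_lit 0x1ab09e) (nat_lit 0x0) (nat_lit 0x1438e0d7bc25e3e3)
  (PL.C (nat_lit 0x1ab738) (nat_lit 0x0) (nat_lit 0x377b29969ca1c7f)
  (PL.C (nat_lit 0x1ac94c) (nat_lit 0x1585f4b14fa9350) (nat_lit 0x0)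
  (PL.C (nat_lit 0x1ad6b4) (nat_lit 0x64189fccd582ed) (nat_lit 0x0) gp0_0_29))))))))))))))))))))

noncomputable def gp0_0_27 : PL :=
  (PL.C (nat_lit 0x17ae07) (nat_lit 0x5e7793379e8e5f) (nat_lit 0x0)
  (PL.C (nat_lit 0x17eb4e) (nat_lit 0x0) (nat_lit 0x159db69f6e8de039)
  (PL.C (nat_lit 0x180318) (nat_lit 0x0) (nat_lit 0x5548bffdf4ce21d)
  (PL.C (nat_lit 0x180e7f) (nat_lit 0x0) (nat_lit 0x566483e459c8b258)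
  (PL.C (nat_lit 0x18266c) (nat_lit 0xe679d84399cbbed) (nat_lit 0x0)
  (PL.C (nat_lit 0x1832e8) (nat_lit 0x0) (nat_lit 0x2dc6daf7905493d)
  (PL.C (nat_lit 0x185570) (nat_lit 0xa086a3bf634e6cd) (nat_lit 0x0)
  (PL.C (nat_lit 0x188b10) (nat_lit 0xa086a3bf634e6cd) (nat_lit 0x0)
  (PL.C (nat_lit 0x18bdfc) (nat_lit 0x61c6dbfdbc3baa) (nat_lit 0x0)
  (PL.C (nat_lit 0x18e304) (nat_lit 0x0) (nat_lit 0xf6f2810e055b13e)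
  (PL.C (nat_lit 0x18f834) (nat_lit 0x0) (nat_lit 0x62e6d4a8adb8390)
  (PL.C (nat_lit 0x1919dc) (nat_lit 0x0) (nat_lit 0x5071459f52f175a)
  (PL.C (nat_lit 0x192486) (nat_lit 0x0) (nat_lit 0x1e3cc4c1deae4dbf)
  (PL.C (nat_lit 0x194631) (nat_lit 0x19dec8cd8bd59f89) (nat_lit 0x0)
  (PL.C (nat_lit 0x1959a8) (nat_lit 0x0) (nat_lit 0x886fa274243d529)
  (PL.C (nat_lit 0x195f54) (nat_lit 0x1982268cbb5ce34) (nat_lit 0x0)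
  (PL.C (nat_lit 0x196658) (nat_lit 0x0) (nat_lit 0xd5314924b1d848)
  (PL.C (nat_lit 0x196719) (nat_lit 0x9a1646f4231a67) (nat_lit 0x0)
  (PL.C (nat_lit 0x197890) (nat_lit 0xe7a5f82ff044edb) (nat_lit 0x0)
  (PL.C (nat_lit 0x197ef4) (nat_lit 0x41f16bc964da2e5) (nat_lit 0x0) gp0_0_28))))))))))))))))))))

noncomputable def gp0_0_26 : PL :=
  (PL.C (nat_lit 0x1619b2) (nat_lit 0x9979b633758d3f6) (nat_lit 0x0)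
  (PL.C (nat_lit 0x164e9b) (nat_lit 0x1e7d2eb1db240a9d) (nat_lit 0x0)
  (PL.C (nat_lit 0x166014) (nat_lit 0xc604039d76d6911) (nat_lit 0x0)
  (PL.C (nat_lit 0x166ed0) (nat_lit 0x0) (nat_lit 0x5416280cb9e87)
  (PL.C (nat_lit 0x167937) (nat_lit 0x9a1646f4231a67) (nat_lit 0x0)
  (PL.C (nat_lit 0x1691ca) (nat_lit 0x45ad6b9024d24b) (nat_lit 0x0)
  (PL.C (nat_lit 0x16a304) (nat_lit 0x9e11818f3c73e6) (nat_lit 0x0)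
  (PL.C (nat_lit 0x16c452) (nat_lit 0x4003c7459e9119a) (nat_lit 0x0)
  (PL.C (nat_lit 0x16cbc8) (nat_lit 0xee5d9459e60aed0) (nat_lit 0x0)
  (PL.C (nat_lit 0x16d8d4) (nat_lit 0x30a628c1cafe42c) (nat_lit 0x0)
  (PL.C (nat_lit 0x16e243) (nat_lit 0x11d73d224def8e) (nat_lit 0x0)
  (PL.C (nat_lit 0x16e7ec) (nat_lit 0x0) (nat_lit 0x2ea9514dd2598ae)
  (PL.C (nat_lit 0x16e8b8) (nat_lit 0x2564bc35c72812) (nat_lit 0x0)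
  (PL.C (nat_lit 0x172f77) (nat_lit 0x3871833d2c3244) (nat_lit 0x0)
  (PL.C (nat_lit 0x173478) (nat_lit 0x0) (nat_lit 0x1a639684e3ce28c)
  (PL.C (nat_lit 0x174ecc) (nat_lit 0x0) (nat_lit 0x3212dafbc91e0f)
  (PL.C (nat_lit 0x17569c) (nat_lit 0x0) (nat_lit 0xb762794abf085a)
  (PL.C (nat_lit 0x176e02) (nat_lit 0x0) (nat_lit 0x1f1afa8bb571ff)
  (PL.C (nat_lit 0x1785a4) (nat_lit 0x0) (nat_lit 0x432039abc0a3c78)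
  (PL.C (nat_lit 0x17a444) (nat_lit 0x0) (nat_lit 0x3298bbff78138d4) gp0_0_27))))))))))))))))))))

noncomputable def gp0_0_25 : PL :=
  (PL.C (nat_lit 0x14461e) (nat_lit 0x0) (nat_lit 0xd1ac4b08589449)
  (PL.C (nat_lit 0x144ebb) (nat_lit 0x13bdbbddf4aaabb1) (nat_lit 0x0)
  (PL.C (nat_lit 0x147e3a) (nat_lit 0x0) (nat_lit 0x13bae5f3a064d45d)
  (PL.C (nat_lit 0x14a458) (nat_lit 0x2c210637693e67c) (nat_lit 0x0)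
  (PL.C (nat_lit 0x14a816) (nat_lit 0x0) (nat_lit 0xe684370ff9136fb)
  (PL.C (nat_lit 0x14b6f0) (nat_lit 0x7050d35f2792d7) (nat_lit 0x0)
  (PL.C (nat_lit 0x151404) (nat_lit 0x1f2c15f654cbaaca) (nat_lit 0x0)
  (PL.C (nat_lit 0x153218) (nat_lit 0x0) (nat_lit 0x1bbd94cab27f1fa)
  (PL.C (nat_lit 0x153495) (nat_lit 0x0) (nat_lit 0x27138aa246cdd5)
  (PL.C (nat_lit 0x156648) (nat_lit 0x0) (nat_lit 0x886fa274243d529)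
  (PL.C (nat_lit 0x156f1e) (nat_lit 0x35bae1279241cf) (nat_lit 0x0)
  (PL.C (nat_lit 0x1585c4) (nat_lit 0x0) (nat_lit 0x70b8c3a0aedf696)
  (PL.C (nat_lit 0x158ea7) (nat_lit 0x214934c35bdfbd6) (nat_lit 0x0)
  (PL.C (nat_lit 0x1593fc) (nat_lit 0x13f81671040c1047) (nat_lit 0x0)
  (PL.C (nat_lit 0x159bf8) (nat_lit 0x772eca2d6b35714) (nat_lit 0x0)
  (PL.C (nat_lit 0x15a296) (nat_lit 0x0) (nat_lit 0x574df5ef91912bf)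
  (PL.C (nat_lit 0x15ad6a) (nat_lit 0x3e829b64a93aec) (nat_lit 0x0)
  (PL.C (nat_lit 0x15b9ca) (nat_lit 0x350bd822bc1c8) (nat_lit 0x0)
  (PL.C (nat_lit 0x15cfb4) (nat_lit 0x0) (nat_lit 0xabf8fabea57a78a)
  (PL.C (nat_lit 0x15dc18) (nat_lit 0x1f6a5c761411249) (nat_lit 0x0) gp0_0_26))))))))))))))))))))

noncomputable def gp0_0_24 : PL :=
  (PL.C (nat_lit 0x12fe58) (nat_lit 0x0) (nat_lit 0x1db0b427a33a10c)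
  (PL.C (nat_lit 0x12ffa2) (nat_lit 0x0) (nat_lit 0x324906badfe328ae)
  (PL.C (nat_lit 0x1351bf) (nat_lit 0x4f0670d05c22ad) (nat_lit 0x0)
  (PL.C (nat_lit 0x135b28) (nat_lit 0x0) (nat_lit 0x2876be36d750e4)
  (PL.C (nat_lit 0x135d38) (nat_lit 0x0) (nat_lit 0x1db2f3737c07b29)
  (PL.C (nat_lit 0x136326) (nat_lit 0x35bae1279241cf) (nat_lit 0x0)
  (PL.C (nat_lit 0x1364d8) (nat_lit 0x0) (nat_lit 0x398af02061e3fd)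
  (PL.C (nat_lit 0x136cda) (nat_lit 0x0) (nat_lit 0xfcca7dcaa9dc61)
  (PL.C (nat_lit 0x138b94) (nat_lit 0x0) (nat_lit 0x1f6180016ed361ac)
  (PL.C (nat_lit 0x13a778) (nat_lit 0x0) (nat_lit 0x3206bfded4810b3)
  (PL.C (nat_lit 0x13be28) (nat_lit 0x18a0aaf7c52e8550) (nat_lit 0x0)
  (PL.C (nat_lit 0x13c5b8) (nat_lit 0x0) (nat_lit 0x67860d00d4e6872)
  (PL.C (nat_lit 0x13cbc6) (nat_lit 0x0) (nat_lit 0xe7ccf01c841b71)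
  (PL.C (nat_lit 0x13cde2) (nat_lit 0x0) (nat_lit 0x95c597883dae4aa)
  (PL.C (nat_lit 0x13d2c8) (nat_lit 0x0) (nat_lit 0x167e7c34dfda99c2)
  (PL.C (nat_lit 0x13db34) (nat_lit 0x0) (nat_lit 0x688e91da1e393c3)
  (PL.C (nat_lit 0x13f2b8) (nat_lit 0x34f2dd2125cfccc) (nat_lit 0x0)
  (PL.C (nat_lit 0x1419d2) (nat_lit 0x0) (nat_lit 0xd1ac4b08589449)
  (PL.C (nat_lit 0x143106) (nat_lit 0x0) (nat_lit 0x574df5ef91912bf)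
  (PL.C (nat_lit 0x1438c2) (nat_lit 0x2d2a4b2c5ff32a9) (nat_lit 0x0) gp0_0_25))))))))))))))))))))

noncomputable def gp0_0_23 : PL :=
  (PL.C (nat_lit 0x11c388) (nat_lit 0x6fb885675c3431a) (nat_lit 0x0)
  (PL.C (nat_lit 0x11cb14) (nat_lit 0x0) (nat_lit 0x2bfb50d9df335d7)
  (PL.C (nat_lit 0x11db88) (nat_lit 0x18a0aaf7c52e8550) (nat_lit 0x0)
  (PL.C (nat_lit 0x11e478) (nat_lit 0x2ac0f897ddd8569) (nat_lit 0x0)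
  (PL.C (nat_lit 0x123aad) (nat_lit 0x0) (nat_lit 0x355c5177fc8fa0)
  (PL.C (nat_lit 0x123dd8) (nat_lit 0x0) (nat_lit 0x2aa7c5b210817f62)
  (PL.C (nat_lit 0x12436e) (nat_lit 0x0) (nat_lit 0x159db69f6e8de039)
  (PL.C (nat_lit 0x124c92) (nat_lit 0x0) (nat_lit 0x11bce7df2395c66)
  (PL.C (nat_lit 0x125598) (nat_lit 0x0) (nat_lit 0x5548bffdf4ce21d)
  (PL.C (nat_lit 0x125d2a) (nat_lit 0x3560a929996963c) (nat_lit 0x0)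
  (PL.C (nat_lit 0x126513) (nat_lit 0x3871833d2c3244) (nat_lit 0x0)
  (PL.C (nat_lit 0x126984) (nat_lit 0x632a97fa436719d4) (nat_lit 0x0)
  (PL.C (nat_lit 0x1277f0) (nat_lit 0x0) (nat_lit 0x8002943941399a)
  (PL.C (nat_lit 0x12a0f8) (nat_lit 0x8de927c0727bbc) (nat_lit 0x0)
  (PL.C (nat_lit 0x12a7fa) (nat_lit 0x32d7add7fcbf0b8a) (nat_lit 0x0)
  (PL.C (nat_lit 0x12af30) (nat_lit 0x124973aceedaa6) (nat_lit 0x0)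
  (PL.C (nat_lit 0x12ba88) (nat_lit 0x0) (nat_lit 0x5069506d8b1859e)
  (PL.C (nat_lit 0x12d356) (nat_lit 0x361eb755ede1a1) (nat_lit 0x0)
  (PL.C (nat_lit 0x12e364) (nat_lit 0xc604039d76d6911) (nat_lit 0x0)
  (PL.C (nat_lit 0x12e810) (nat_lit 0xbd8672a5da4010) (nat_lit 0x0) gp0_0_24))))))))))))))))))))

noncomputable def gp0_0_22 : PL :=
  (PL.C (nat_lit 0x107ea8) (nat_lit 0x0) (nat_lit 0x11c518f7deb48b)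
  (PL.C (nat_lit 0x109758) (nat_lit 0x0) (nat_lit 0x167e7c34dfda99c2)
  (PL.C (nat_lit 0x10a578) (nat_lit 0x7f2b03e577e4244) (nat_lit 0x0)
  (PL.C (nat_lit 0x10bbe8) (nat_lit 0x0) (nat_lit 0x3206bfded4810b3)
  (PL.C (nat_lit 0x10c304) (nat_lit 0x84218330d103b74) (nat_lit 0x0)
  (PL.C (nat_lit 0x10d976) (nat_lit 0x0) (nat_lit 0x26d7a9b9a6f00a42)
  (PL.C (nat_lit 0x10e670) (nat_lit 0x0) (nat_lit 0x243b9c420b04684)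
  (PL.C (nat_lit 0x10ea38) (nat_lit 0x2cd6322da690205a) (nat_lit 0x0)
  (PL.C (nat_lit 0x10ef66) (nat_lit 0x17d9626a895ae9e) (nat_lit 0x0)
  (PL.C (nat_lit 0x110652) (nat_lit 0x0) (nat_lit 0x2b674a951a951508)
  (PL.C (nat_lit 0x110a88) (nat_lit 0x0) (nat_lit 0x2470d58b92ce9a7)
  (PL.C (nat_lit 0x1148c4) (nat_lit 0xfaaba004dac24b4) (nat_lit 0x0)
  (PL.C (nat_lit 0x114ca2) (nat_lit 0x0) (nat_lit 0x13bae5f3a064d45d)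
  (PL.C (nat_lit 0x114fe7) (nat_lit 0x2ada007c9d793f) (nat_lit 0x0)
  (PL.C (nat_lit 0x116232) (nat_lit 0x4003c7459e9119a) (nat_lit 0x0)
  (PL.C (nat_lit 0x116dae) (nat_lit 0x0) (nat_lit 0x827ef944015cde1)
  (PL.C (nat_lit 0x1180bc) (nat_lit 0x6f664c0a2cc862) (nat_lit 0x0)
  (PL.C (nat_lit 0x119cb8) (nat_lit 0x6fb885675c3431a) (nat_lit 0x0)
  (PL.C (nat_lit 0x119dea) (nat_lit 0x0) (nat_lit 0x150b155c7669d53e)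
  (PL.C (nat_lit 0x11a7ec) (nat_lit 0x0) (nat_lit 0x3298bbff78138d4) gp0_0_23))))))))))))))))))))

noncomputable def gp0_0_21 : PL :=
  (PL.C (nat_lit 0xedf12) (nat_lit 0x0) (nat_lit 0x189e62ed17ce6d95)
  (PL.C (nat_lit 0xeeab8) (nat_lit 0x439e21872f83282) (nat_lit 0x0)
  (PL.C (nat_lit 0xefb7a) (nat_lit 0x17d9626a895ae9e) (nat_lit 0x0)
  (PL.C (nat_lit 0xf0bdc) (nat_lit 0x0) (nat_lit 0x567e25a6bc85bb)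
  (PL.C (nat_lit 0xf1185) (nat_lit 0x1e7d2eb1db240a9d) (nat_lit 0x0)
  (PL.C (nat_lit 0xf1758) (nat_lit 0x0) (nat_lit 0xc66d4f044f27e1)
  (PL.C (nat_lit 0xf3b38) (nat_lit 0x34f2dd2125cfccc) (nat_lit 0x0)
  (PL.C (nat_lit 0xf4182) (nat_lit 0x24496c600365684) (nat_lit 0x0)
  (PL.C (nat_lit 0xf4548) (nat_lit 0xc4b49498fde23d) (nat_lit 0x0)
  (PL.C (nat_lit 0xf74fa) (nat_lit 0x0) (nat_lit 0x24b5a07efb0296)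
  (PL.C (nat_lit 0xf7850) (nat_lit 0x7050d35f2792d7) (nat_lit 0x0)
  (PL.C (nat_lit 0xf9eac) (nat_lit 0x0) (nat_lit 0x72223c9c7dd72d)
  (PL.C (nat_lit 0xfc2d8) (nat_lit 0x0) (nat_lit 0x4af770b14d0030f)
  (PL.C (nat_lit 0xfc95a) (nat_lit 0x75a4b4c4b4a3205) (nat_lit 0x0)
  (PL.C (nat_lit 0xff234) (nat_lit 0x0) (nat_lit 0x38858fc04c453719)
  (PL.C (nat_lit 0xff98d) (nat_lit 0x0) (nat_lit 0x3580939369bbc0)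
  (PL.C (nat_lit 0x100210) (nat_lit 0x0) (nat_lit 0x3df7cc418527211)
  (PL.C (nat_lit 0x1009aa) (nat_lit 0x38ab4fcda56e2b46) (nat_lit 0x0)
  (PL.C (nat_lit 0x1021f0) (nat_lit 0x1787c73921c7dc0) (nat_lit 0x0)
  (PL.C (nat_lit 0x104efb) (nat_lit 0x54557b29339d565) (nat_lit 0x0) gp0_0_22))))))))))))))))))))

noncomputable def gp0_0_20 : PL :=
  (PL.C (nat_lit 0xd89d2) (nat_lit 0x0) (nat_lit 0x37dd922a54fe7d98)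
  (PL.C (nat_lit 0xd9bf3) (nat_lit 0x162c25e1a9c17911) (nat_lit 0x0)
  (PL.C (nat_lit 0xda97c) (nat_lit 0x0) (nat_lit 0x160fd1ab36add48f)
  (PL.C (nat_lit 0xdadab) (nat_lit 0x0) (nat_lit 0x6790655f81b020)
  (PL.C (nat_lit 0xdc564) (nat_lit 0x274bf1cd2c16a1b) (nat_lit 0x0)
  (PL.C (nat_lit 0xdf8f9) (nat_lit 0x74ac78410a87e03) (nat_lit 0x0)
  (PL.C (nat_lit 0xe0d58) (nat_lit 0x0) (nat_lit 0x18a840145d3fe656)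
  (PL.C (nat_lit 0xe230e) (nat_lit 0x0) (nat_lit 0xb7299e50dffd9)
  (PL.C (nat_lit 0xe4430) (nat_lit 0x0) (nat_lit 0x243b9c420b04684)
  (PL.C (nat_lit 0xe4a14) (nat_lit 0xbb27f9a888c7595) (nat_lit 0x0)
  (PL.C (nat_lit 0xe5f1a) (nat_lit 0x0) (nat_lit 0x2b674a951a951508)
  (PL.C (nat_lit 0xe62a8) (nat_lit 0x2bb467f21c20eb9) (nat_lit 0x0)
  (PL.C (nat_lit 0xe6c64) (nat_lit 0x0) (nat_lit 0x108ad5e377bd736c)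
  (PL.C (nat_lit 0xe739c) (nat_lit 0x102da173347f0526) (nat_lit 0x0)
  (PL.C (nat_lit 0xe7bdc) (nat_lit 0x6f664c0a2cc862) (nat_lit 0x0)
  (PL.C (nat_lit 0xe8a78) (nat_lit 0x0) (nat_lit 0x90ff9d4648e64bc)
  (PL.C (nat_lit 0xebbcc) (nat_lit 0x65c7f2909aa4f3f1) (nat_lit 0x0)
  (PL.C (nat_lit 0xec04f) (nat_lit 0x54557b29339d565) (nat_lit 0x0)
  (PL.C (nat_lit 0xec7b1) (nat_lit 0x0) (nat_lit 0x1962132d3ad25ae)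
  (PL.C (nat_lit 0xed021) (nat_lit 0x0) (nat_lit 0x27138aa246cdd5) gp0_0_21))))))))))))))))))))

noncomputable def gp0_0_19 : PL :=
  (PL.C (nat_lit 0xcaa6c) (nat_lit 0x0) (nat_lit 0x1e912dfeb964ed81)
  (PL.C (nat_lit 0xcb859) (nat_lit 0x0) (nat_lit 0xa00998cd15d482d)
  (PL.C (nat_lit 0xce12a) (nat_lit 0x632de7ce152d8ae) (nat_lit 0x0)
  (PL.C (nat_lit 0xce770) (nat_lit 0x124973aceedaa6) (nat_lit 0x0)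
  (PL.C (nat_lit 0xce8d0) (nat_lit 0xbc3e39c90e3ee0) (nat_lit 0x0)
  (PL.C (nat_lit 0xcecc4) (nat_lit 0xbb27f9a888c7595) (nat_lit 0x0)
  (PL.C (nat_lit 0xcf33c) (nat_lit 0x0) (nat_lit 0x1076eb78396f3f6)
  (PL.C (nat_lit 0xcf41d) (nat_lit 0xbd6d8e61b7e8455) (nat_lit 0x0)
  (PL.C (nat_lit 0xd07b8) (nat_lit 0x0) (nat_lit 0x1903d0249dfa35fa)
  (PL.C (nat_lit 0xd1a50) (nat_lit 0x0) (nat_lit 0x10150f24402d731)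
  (PL.C (nat_lit 0xd2970) (nat_lit 0x152a672fdd05c81a) (nat_lit 0x0)
  (PL.C (nat_lit 0xd3284) (nat_lit 0x9e11818f3c73e6) (nat_lit 0x0)
  (PL.C (nat_lit 0xd33ec) (nat_lit 0x0) (nat_lit 0x1f6180016ed361ac)
  (PL.C (nat_lit 0xd3730) (nat_lit 0x0) (nat_lit 0xa0eea412053804b)
  (PL.C (nat_lit 0xd37f7) (nat_lit 0x2ada007c9d793f) (nat_lit 0x0)
  (PL.C (nat_lit 0xd668c) (nat_lit 0x0) (nat_lit 0x165f79a832fa165)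
  (PL.C (nat_lit 0xd7604) (nat_lit 0x0) (nat_lit 0x108ad5e377bd736c)
  (PL.C (nat_lit 0xd7b2c) (nat_lit 0x62e2edc7479fafd) (nat_lit 0x0)
  (PL.C (nat_lit 0xd80bd) (nat_lit 0x5e7793379e8e5f) (nat_lit 0x0)
  (PL.C (nat_lit 0xd8414) (nat_lit 0x0) (nat_lit 0x165f79a832fa165) gp0_0_20))))))))))))))))))))

noncomputable def gp0_0_18 : PL :=
  (PL.C (nat_lit 0xbbdd0) (nat_lit 0x2c934a6deed5fb4) (nat_lit 0x0)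
  (PL.C (nat_lit 0xbbe9c) (nat_lit 0x22d789ee86694d0c) (nat_lit 0x0)
  (PL.C (nat_lit 0xbc548) (nat_lit 0x0) (nat_lit 0x4af770b14d0030f)
  (PL.C (nat_lit 0xbd7b0) (nat_lit 0x2c934a6deed5fb4) (nat_lit 0x0)
  (PL.C (nat_lit 0xbdcb8) (nat_lit 0x85b37d21916eea2) (nat_lit 0x0)
  (PL.C (nat_lit 0xbe7b0) (nat_lit 0x152a672fdd05c81a) (nat_lit 0x0)
  (PL.C (nat_lit 0xc02f1) (nat_lit 0xe7f5fbc46850f29) (nat_lit 0x0)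
  (PL.C (nat_lit 0xc271e) (nat_lit 0x1a77ca3c1aa86a) (nat_lit 0x0)
  (PL.C (nat_lit 0xc2cf4) (nat_lit 0x0) (nat_lit 0x38858fc04c453719)
  (PL.C (nat_lit 0xc31fb) (nat_lit 0x0) (nat_lit 0x50ab492b1485aa)
  (PL.C (nat_lit 0xc330c) (nat_lit 0x87d294d1105db3c) (nat_lit 0x0)
  (PL.C (nat_lit 0xc3910) (nat_lit 0x0) (nat_lit 0x3df7cc418527211)
  (PL.C (nat_lit 0xc3e1c) (nat_lit 0xe06ce0ac5e16369) (nat_lit 0x0)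
  (PL.C (nat_lit 0xc4362) (nat_lit 0x0) (nat_lit 0x24b5a07efb0296)
  (PL.C (nat_lit 0xc4658) (nat_lit 0x35fd143a696285d9) (nat_lit 0x0)
  (PL.C (nat_lit 0xc6ffc) (nat_lit 0x0) (nat_lit 0xabf8fabea57a78a)
  (PL.C (nat_lit 0xc73cb) (nat_lit 0x4f0670d05c22ad) (nat_lit 0x0)
  (PL.C (nat_lit 0xc7c05) (nat_lit 0x212ff5f95f6a97a) (nat_lit 0x0)
  (PL.C (nat_lit 0xc9798) (nat_lit 0x439e21872f83282) (nat_lit 0x0)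
  (PL.C (nat_lit 0xca990) (nat_lit 0x5ec33952ed2008) (nat_lit 0x0) gp0_0_19))))))))))))))))))))

noncomputable def gp0_0_17 : PL :=
  (PL.C (nat_lit 0xa863c) (nat_lit 0x354ff47cccfd39c) (nat_lit 0x0)
  (PL.C (nat_lit 0xaa178) (nat_lit 0x0) (nat_lit 0x314d208097c346fa)
  (PL.C (nat_lit 0xaa65e) (nat_lit 0x45ad6b9024d24b) (nat_lit 0x0)
  (PL.C (nat_lit 0xaa71b) (nat_lit 0x8412624691f4ca) (nat_lit 0x0)
  (PL.C (nat_lit 0xab11c) (nat_lit 0x218218d445cfcdb6) (nat_lit 0x0)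
  (PL.C (nat_lit 0xadf52) (nat_lit 0x0) (nat_lit 0xca6c6482ec8993)
  (PL.C (nat_lit 0xaef51) (nat_lit 0xbd6d8e61b7e8455) (nat_lit 0x0)
  (PL.C (nat_lit 0xb0f90) (nat_lit 0x0) (nat_lit 0xa0eea412053804b)
  (PL.C (nat_lit 0xb27f0) (nat_lit 0x0) (nat_lit 0x10150f24402d731)
  (PL.C (nat_lit 0xb3ba4) (nat_lit 0x101fceaf04fa31a0) (nat_lit 0x0)
  (PL.C (nat_lit 0xb46d0) (nat_lit 0x220de47a7f3d9d88) (nat_lit 0x0)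
  (PL.C (nat_lit 0xb4a44) (nat_lit 0x637326eeb82182) (nat_lit 0x0)
  (PL.C (nat_lit 0xb598c) (nat_lit 0x0) (nat_lit 0x24ccaff0f69fce76)
  (PL.C (nat_lit 0xb7cff) (nat_lit 0x162c25e1a9c17911) (nat_lit 0x0)
  (PL.C (nat_lit 0xb85d8) (nat_lit 0x7f83280a6b04da8) (nat_lit 0x0)
  (PL.C (nat_lit 0xb886c) (nat_lit 0x0) (nat_lit 0x160fd1ab36add48f)
  (PL.C (nat_lit 0xb8a9a) (nat_lit 0x0) (nat_lit 0x648d9487fd11d22)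
  (PL.C (nat_lit 0xb9b95) (nat_lit 0x189cce49d118fad4) (nat_lit 0x0)
  (PL.C (nat_lit 0xb9e74) (nat_lit 0x15b66e46416460e) (nat_lit 0x0)
  (PL.C (nat_lit 0xbab28) (nat_lit 0x0) (nat_lit 0x6c32b28ca5aefa) gp0_0_18))))))))))))))))))))

noncomputable def gp0_0_16 : PL :=
  (PL.C (nat_lit 0x986b8) (nat_lit 0x14aa56eecb4e9e5d) (nat_lit 0x0)
  (PL.C (nat_lit 0x994bc) (nat_lit 0x0) (nat_lit 0x24ccaff0f69fce76)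
  (PL.C (nat_lit 0x99d98) (nat_lit 0x0) (nat_lit 0x18b534b01a1cc7c5)
  (PL.C (nat_lit 0x9a268) (nat_lit 0x2bb467f21c20eb9) (nat_lit 0x0)
  (PL.C (nat_lit 0x9a7e8) (nat_lit 0x0) (nat_lit 0x6c32b28ca5aefa)
  (PL.C (nat_lit 0x9d288) (nat_lit 0x35fd143a696285d9) (nat_lit 0x0)
  (PL.C (nat_lit 0x9d58a) (nat_lit 0x0) (nat_lit 0xca6c6482ec8993)
  (PL.C (nat_lit 0x9da76) (nat_lit 0x0) (nat_lit 0x6e778b6795cf8df)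
  (PL.C (nat_lit 0x9e016) (nat_lit 0x0) (nat_lit 0xb7299e50dffd9)
  (PL.C (nat_lit 0x9ea0c) (nat_lit 0x1e9f5bcc4fc15bf3) (nat_lit 0x0)
  (PL.C (nat_lit 0x9f1d0) (nat_lit 0x0) (nat_lit 0x2fa1be67a504ba)
  (PL.C (nat_lit 0x9fcfc) (nat_lit 0x637326eeb82182) (nat_lit 0x0)
  (PL.C (nat_lit 0xa07e8) (nat_lit 0x0) (nat_lit 0x82b80d33af92ba)
  (PL.C (nat_lit 0xa0bae) (nat_lit 0x0) (nat_lit 0x189e62ed17ce6d95)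
  (PL.C (nat_lit 0xa0f90) (nat_lit 0x0) (nat_lit 0x4426e1270c28f)
  (PL.C (nat_lit 0xa2bac) (nat_lit 0x0) (nat_lit 0x6535e2e358f4f5e)
  (PL.C (nat_lit 0xa2e30) (nat_lit 0xc692d6f9aabd60) (nat_lit 0x0)
  (PL.C (nat_lit 0xa3719) (nat_lit 0x0) (nat_lit 0x6790655f81b020)
  (PL.C (nat_lit 0xa4dfc) (nat_lit 0x0) (nat_lit 0x3698971520844b)
  (PL.C (nat_lit 0xa69c8) (nat_lit 0x8de927c0727bbc) (nat_lit 0x0) gp0_0_17))))))))))))))))))))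

noncomputable def gp0_0_15 : PL :=
  (PL.C (nat_lit 0x8961c) (nat_lit 0x10456a100d951b69) (nat_lit 0x0)
  (PL.C (nat_lit 0x89dd8) (nat_lit 0x14aa56eecb4e9e5d) (nat_lit 0x0)
  (PL.C (nat_lit 0x8a228) (nat_lit 0x55af809e5abcee) (nat_lit 0x0)
  (PL.C (nat_lit 0x8a2be) (nat_lit 0x263b890f7b022e6) (nat_lit 0x0)
  (PL.C (nat_lit 0x8afd0) (nat_lit 0x2337415a79ad2c) (nat_lit 0x0)
  (PL.C (nat_lit 0x8c811) (nat_lit 0x0) (nat_lit 0x29d6eee1b9319df)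
  (PL.C (nat_lit 0x8cc58) (nat_lit 0x0) (nat_lit 0xc66d4f044f27e1)
  (PL.C (nat_lit 0x8cd48) (nat_lit 0x0) (nat_lit 0x1903d0249dfa35fa)
  (PL.C (nat_lit 0x8cffa) (nat_lit 0x0) (nat_lit 0x648d9487fd11d22)
  (PL.C (nat_lit 0x8ef08) (nat_lit 0x0) (nat_lit 0x43facc6c0b7c61e)
  (PL.C (nat_lit 0x8f958) (nat_lit 0x0) (nat_lit 0x18b534b01a1cc7c5)
  (PL.C (nat_lit 0x8fcc8) (nat_lit 0x2c210637693e67c) (nat_lit 0x0)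
  (PL.C (nat_lit 0x9007e) (nat_lit 0x75a4b4c4b4a3205) (nat_lit 0x0)
  (PL.C (nat_lit 0x902b8) (nat_lit 0x0) (nat_lit 0x43facc6c0b7c61e)
  (PL.C (nat_lit 0x9068c) (nat_lit 0x0) (nat_lit 0x1e912dfeb964ed81)
  (PL.C (nat_lit 0x912a2) (nat_lit 0x0) (nat_lit 0xa2ecf3ca958c5cd)
  (PL.C (nat_lit 0x91ba8) (nat_lit 0x0) (nat_lit 0x18541bb3de844468)
  (PL.C (nat_lit 0x91e72) (nat_lit 0x141c1a8c04ef736) (nat_lit 0x0)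
  (PL.C (nat_lit 0x950a6) (nat_lit 0x0) (nat_lit 0xe4486edf634470d)
  (PL.C (nat_lit 0x96cb4) (nat_lit 0x0) (nat_lit 0x1329f5a70f0eb3) gp0_0_16))))))))))))))))))))

noncomputable def gp0_0_14 : PL :=
  (PL.C (nat_lit 0x7c0d1) (nat_lit 0x0) (nat_lit 0x816feeea4238a9)
  (PL.C (nat_lit 0x7c770) (nat_lit 0x0) (nat_lit 0x3fee0b72e3d6a8)
  (PL.C (nat_lit 0x7d1e7) (nat_lit 0x0) (nat_lit 0x816feeea4238a9)
  (PL.C (nat_lit 0x7d3e0) (nat_lit 0x0) (nat_lit 0x9f34ce1a20b4bc)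
  (PL.C (nat_lit 0x7d468) (nat_lit 0x156ae252fa9de7e4) (nat_lit 0x0)
  (PL.C (nat_lit 0x7e520) (nat_lit 0x0) (nat_lit 0x9f34ce1a20b4bc)
  (PL.C (nat_lit 0x801f6) (nat_lit 0x0) (nat_lit 0x2cccedd04f47d126)
  (PL.C (nat_lit 0x81a14) (nat_lit 0x6918f43644fee6) (nat_lit 0x0)
  (PL.C (nat_lit 0x81df8) (nat_lit 0x0) (nat_lit 0x314d208097c346fa)
  (PL.C (nat_lit 0x82152) (nat_lit 0x0) (nat_lit 0x187dfb1f46ba65c8)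
  (PL.C (nat_lit 0x82208) (nat_lit 0x0) (nat_lit 0x2470d58b92ce9a7)
  (PL.C (nat_lit 0x82968) (nat_lit 0x20c8576b461940df) (nat_lit 0x0)
  (PL.C (nat_lit 0x82cec) (nat_lit 0x0) (nat_lit 0x3698971520844b)
  (PL.C (nat_lit 0x84aa8) (nat_lit 0x0) (nat_lit 0x90ff9d4648e64bc)
  (PL.C (nat_lit 0x84d32) (nat_lit 0x632de7ce152d8ae) (nat_lit 0x0)
  (PL.C (nat_lit 0x852ae) (nat_lit 0x3555f1706c559b0) (nat_lit 0x0)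
  (PL.C (nat_lit 0x85c7d) (nat_lit 0x212ff5f95f6a97a) (nat_lit 0x0)
  (PL.C (nat_lit 0x86510) (nat_lit 0x0) (nat_lit 0x2fa1be67a504ba)
  (PL.C (nat_lit 0x87ae6) (nat_lit 0x0) (nat_lit 0x150b155c7669d53e)
  (PL.C (nat_lit 0x88641) (nat_lit 0x8412624691f4ca) (nat_lit 0x0) gp0_0_15))))))))))))))))))))

noncomputable def gp0_0_13 : PL :=
  (PL.C (nat_lit 0x6c7c8) (nat_lit 0x0) (nat_lit 0x50b4cbdb0d74d72)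
  (PL.C (nat_lit 0x6cf66) (nat_lit 0x141c1a8c04ef736) (nat_lit 0x0)
  (PL.C (nat_lit 0x6d96b) (nat_lit 0xe7f5fbc46850f29) (nat_lit 0x0)
  (PL.C (nat_lit 0x6dea8) (nat_lit 0x5eb84c65090144) (nat_lit 0x0)
  (PL.C (nat_lit 0x70428) (nat_lit 0x0) (nat_lit 0x64e6d067470660)
  (PL.C (nat_lit 0x71650) (nat_lit 0x0) (nat_lit 0xb2860bf2736be42)
  (PL.C (nat_lit 0x71994) (nat_lit 0x0) (nat_lit 0x567e25a6bc85bb)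
  (PL.C (nat_lit 0x71a12) (nat_lit 0x0) (nat_lit 0x7c5856fe97eb0c)
  (PL.C (nat_lit 0x73f8c) (nat_lit 0x0) (nat_lit 0x1ec8f9e3b8c896df)
  (PL.C (nat_lit 0x742e3) (nat_lit 0x0) (nat_lit 0x355c5177fc8fa0)
  (PL.C (nat_lit 0x74a36) (nat_lit 0x263b890f7b022e6) (nat_lit 0x0)
  (PL.C (nat_lit 0x753f9) (nat_lit 0x38e55b551ec8d14) (nat_lit 0x0)
  (PL.C (nat_lit 0x77d18) (nat_lit 0x85a696d3de624d0) (nat_lit 0x0)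
  (PL.C (nat_lit 0x786d8) (nat_lit 0x1aa48b5bd35922) (nat_lit 0x0)
  (PL.C (nat_lit 0x79108) (nat_lit 0x0) (nat_lit 0x2844311be15b3d2)
  (PL.C (nat_lit 0x7a8aa) (nat_lit 0x0) (nat_lit 0xa2ecf3ca958c5cd)
  (PL.C (nat_lit 0x7ae90) (nat_lit 0x94008e2c589180c) (nat_lit 0x0)
  (PL.C (nat_lit 0x7b048) (nat_lit 0x0) (nat_lit 0x18541bb3de844468)
  (PL.C (nat_lit 0x7b1bc) (nat_lit 0x0) (nat_lit 0xad76e0c543b9097)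
  (PL.C (nat_lit 0x7bd0e) (nat_lit 0x0) (nat_lit 0xade69f0c770d248) gp0_0_14))))))))))))))))))))

noncomputable def gp0_0_12 : PL :=
  (PL.C (nat_lit 0x60054) (nat_lit 0x354ff47cccfd39c) (nat_lit 0x0)
  (PL.C (nat_lit 0x60c6c) (nat_lit 0xee45d7cc6b58ab5) (nat_lit 0x0)
  (PL.C (nat_lit 0x61270) (nat_lit 0x0) (nat_lit 0x18c6ab8791a9bfcc)
  (PL.C (nat_lit 0x6144c) (nat_lit 0x0) (nat_lit 0x31f89e2f634fcd)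
  (PL.C (nat_lit 0x62f9d) (nat_lit 0x6025c6dc683e6b80) (nat_lit 0x0)
  (PL.C (nat_lit 0x635c4) (nat_lit 0x0) (nat_lit 0x94f8d92ba45f147)
  (PL.C (nat_lit 0x64878) (nat_lit 0x0) (nat_lit 0x6177cb20ff23d2)
  (PL.C (nat_lit 0x659d0) (nat_lit 0xbb05acf2f2ae70e) (nat_lit 0x0)
  (PL.C (nat_lit 0x66328) (nat_lit 0x0) (nat_lit 0x2844311be15b3d2)
  (PL.C (nat_lit 0x66910) (nat_lit 0x0) (nat_lit 0xedcb986934c9b27)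
  (PL.C (nat_lit 0x66ff0) (nat_lit 0x0) (nat_lit 0x3fee0b72e3d6a8)
  (PL.C (nat_lit 0x68e5c) (nat_lit 0x0) (nat_lit 0x1ec8f9e3b8c896df)
  (PL.C (nat_lit 0x69111) (nat_lit 0x0) (nat_lit 0x57ee59c802c0e08)
  (PL.C (nat_lit 0x691a4) (nat_lit 0x15b66e46416460e) (nat_lit 0x0)
  (PL.C (nat_lit 0x69564) (nat_lit 0x0) (nat_lit 0x1329f5a70f0eb3)
  (PL.C (nat_lit 0x69c08) (nat_lit 0x0) (nat_lit 0x131cb3c4b161f63a)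
  (PL.C (nat_lit 0x6a8a8) (nat_lit 0x1aa48b5bd35922) (nat_lit 0x0)
  (PL.C (nat_lit 0x6b274) (nat_lit 0x1e9f5bcc4fc15bf3) (nat_lit 0x0)
  (PL.C (nat_lit 0x6b481) (nat_lit 0x0) (nat_lit 0x29d6eee1b9319df)
  (PL.C (nat_lit 0x6b8ef) (nat_lit 0x26072871dec6482) (nat_lit 0x0) gp0_0_13))))))))))))))))))))

noncomputable def gp0_0_11 : PL :=
  (PL.C (nat_lit 0x56950) (nat_lit 0x0) (nat_lit 0xb2860bf2736be42)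
  (PL.C (nat_lit 0x56b8c) (nat_lit 0x4589b521a6595b8) (nat_lit 0x0)
  (PL.C (nat_lit 0x570f0) (nat_lit 0x16cde7267bed4528) (nat_lit 0x0)
  (PL.C (nat_lit 0x57348) (nat_lit 0x5eb84c65090144) (nat_lit 0x0)
  (PL.C (nat_lit 0x588cc) (nat_lit 0x10456a100d951b69) (nat_lit 0x0)
  (PL.C (nat_lit 0x58b15) (nat_lit 0x0) (nat_lit 0x57ee59c802c0e08)
  (PL.C (nat_lit 0x58c74) (nat_lit 0x49dc3fdd32213c) (nat_lit 0x0)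
  (PL.C (nat_lit 0x592fe) (nat_lit 0x192b6316fad0f39) (nat_lit 0x0)
  (PL.C (nat_lit 0x5a744) (nat_lit 0x22d789ee86694d0c) (nat_lit 0x0)
  (PL.C (nat_lit 0x5aed6) (nat_lit 0x0) (nat_lit 0x9ed46e483bb23)
  (PL.C (nat_lit 0x5b968) (nat_lit 0x0) (nat_lit 0xa135563db72ab2e)
  (PL.C (nat_lit 0x5bc71) (nat_lit 0xb85e02d0b1c228c) (nat_lit 0x0)
  (PL.C (nat_lit 0x5be90) (nat_lit 0xbb05acf2f2ae70e) (nat_lit 0x0)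
  (PL.C (nat_lit 0x5c170) (nat_lit 0xc692d6f9aabd60) (nat_lit 0x0)
  (PL.C (nat_lit 0x5dab6) (nat_lit 0x9ce46f217d9d582) (nat_lit 0x0)
  (PL.C (nat_lit 0x5dd90) (nat_lit 0x0) (nat_lit 0x4426e1270c28f)
  (PL.C (nat_lit 0x5de30) (nat_lit 0x2337415a79ad2c) (nat_lit 0x0)
  (PL.C (nat_lit 0x5dffc) (nat_lit 0x0) (nat_lit 0xad76e0c543b9097)
  (PL.C (nat_lit 0x5e269) (nat_lit 0x199f4f9a3bd21a) (nat_lit 0x0)
  (PL.C (nat_lit 0x5fb90) (nat_lit 0x0) (nat_lit 0xedcb986934c9b27) gp0_0_12))))))))))))))))))))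

noncomputable def gp0_0_10 : PL :=
  (PL.C (nat_lit 0x48a44) (nat_lit 0x0) (nat_lit 0x31f89e2f634fcd)
  (PL.C (nat_lit 0x490f2) (nat_lit 0x0) (nat_lit 0x2cccedd04f47d126)
  (PL.C (nat_lit 0x49470) (nat_lit 0xa0afc0eaded716) (nat_lit 0x0)
  (PL.C (nat_lit 0x4ad70) (nat_lit 0x23e156e5312ea8) (nat_lit 0x0)
  (PL.C (nat_lit 0x4bbb8) (nat_lit 0x0) (nat_lit 0x82b80d33af92ba)
  (PL.C (nat_lit 0x4bc0c) (nat_lit 0x2c3bf27940e6b20) (nat_lit 0x0)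
  (PL.C (nat_lit 0x4d508) (nat_lit 0x0) (nat_lit 0x23c461c8d1bdf62e)
  (PL.C (nat_lit 0x4d742) (nat_lit 0x1a77ca3c1aa86a) (nat_lit 0x0)
  (PL.C (nat_lit 0x4e2a6) (nat_lit 0x0) (nat_lit 0x2afafdce0f8f775c)
  (PL.C (nat_lit 0x4fe10) (nat_lit 0x2f27b96418d2822d) (nat_lit 0x0)
  (PL.C (nat_lit 0x50490) (nat_lit 0x2e526e7b24390ec) (nat_lit 0x0)
  (PL.C (nat_lit 0x51b1c) (nat_lit 0xee45d7cc6b58ab5) (nat_lit 0x0)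
  (PL.C (nat_lit 0x52030) (nat_lit 0x0) (nat_lit 0x18c6ab8791a9bfcc)
  (PL.C (nat_lit 0x52128) (nat_lit 0x0) (nat_lit 0xaa42350c43a9a24)
  (PL.C (nat_lit 0x528b4) (nat_lit 0x844afa8fcf97fea) (nat_lit 0x0)
  (PL.C (nat_lit 0x52b36) (nat_lit 0x0) (nat_lit 0x3a2f441b3edef88)
  (PL.C (nat_lit 0x5369a) (nat_lit 0x0) (nat_lit 0x3a2f441b3edef88)
  (PL.C (nat_lit 0x538d1) (nat_lit 0x0) (nat_lit 0x8a3e3915f63425)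
  (PL.C (nat_lit 0x556a4) (nat_lit 0x14f01d619436f4da) (nat_lit 0x0)
  (PL.C (nat_lit 0x566b8) (nat_lit 0x0) (nat_lit 0xb446bf33601f4c) gp0_0_11))))))))))))))))))))

noncomputable def gp0_0_9 : PL :=
  (PL.C (nat_lit 0x3dfef) (nat_lit 0xb85e02d0b1c228c) (nat_lit 0x0)
  (PL.C (nat_lit 0x3e724) (nat_lit 0x8b21f7e326c57e7) (nat_lit 0x0)
  (PL.C (nat_lit 0x3eaa8) (nat_lit 0x0) (nat_lit 0xaa42350c43a9a24)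
  (PL.C (nat_lit 0x3ec46) (nat_lit 0x382f4e97fab090) (nat_lit 0x0)
  (PL.C (nat_lit 0x40038) (nat_lit 0x0) (nat_lit 0x64e6d067470660)
  (PL.C (nat_lit 0x40848) (nat_lit 0x0) (nat_lit 0x4433ed6f9a03d394)
  (PL.C (nat_lit 0x40d88) (nat_lit 0x0) (nat_lit 0x249302c5eb012e7)
  (PL.C (nat_lit 0x41fbe) (nat_lit 0x6a74fcbba6991a54) (nat_lit 0x0)
  (PL.C (nat_lit 0x423d8) (nat_lit 0x0) (nat_lit 0x16f80cd59431b514)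
  (PL.C (nat_lit 0x43050) (nat_lit 0xec63a36388bc4) (nat_lit 0x0)
  (PL.C (nat_lit 0x43191) (nat_lit 0xa7382aadf08cfe) (nat_lit 0x0)
  (PL.C (nat_lit 0x43be0) (nat_lit 0x0) (nat_lit 0x1b59328c3f422b8)
  (PL.C (nat_lit 0x45ee8) (nat_lit 0x0) (nat_lit 0x23c461c8d1bdf62e)
  (PL.C (nat_lit 0x460b6) (nat_lit 0x0) (nat_lit 0x1124180b4e8500d9)
  (PL.C (nat_lit 0x46398) (nat_lit 0x0) (nat_lit 0x6177cb20ff23d2)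
  (PL.C (nat_lit 0x47070) (nat_lit 0x2e526e7b24390ec) (nat_lit 0x0)
  (PL.C (nat_lit 0x476f8) (nat_lit 0x0) (nat_lit 0x131cb3c4b161f63a)
  (PL.C (nat_lit 0x47856) (nat_lit 0x9ce46f217d9d582) (nat_lit 0x0)
  (PL.C (nat_lit 0x47b4a) (nat_lit 0x0) (nat_lit 0xf848ba433c16b2)
  (PL.C (nat_lit 0x48530) (nat_lit 0x0) (nat_lit 0x9711ac05453a14) gp0_0_10))))))))))))))))))))

noncomputable def gp0_0_8 : PL :=
  (PL.C (nat_lit 0x36768) (nat_lit 0x0) (nat_lit 0x4433ed6f9a03d394)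
  (PL.C (nat_lit 0x36b70) (nat_lit 0x0) (nat_lit 0x4473d5aa16631f9)
  (PL.C (nat_lit 0x37224) (nat_lit 0x0) (nat_lit 0x2583b41290746e0)
  (PL.C (nat_lit 0x379bc) (nat_lit 0x0) (nat_lit 0x2583b41290746e0)
  (PL.C (nat_lit 0x37b36) (nat_lit 0x0) (nat_lit 0x2b29e7ad75fd890d)
  (PL.C (nat_lit 0x397cb) (nat_lit 0x0) (nat_lit 0x3b8236943eea2d4)
  (PL.C (nat_lit 0x39d08) (nat_lit 0x3a8ee5883065bf36) (nat_lit 0x0)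
  (PL.C (nat_lit 0x3a0a0) (nat_lit 0x0) (nat_lit 0x31235552c93f9e4)
  (PL.C (nat_lit 0x3a230) (nat_lit 0xa0afc0eaded716) (nat_lit 0x0)
  (PL.C (nat_lit 0x3b088) (nat_lit 0x0) (nat_lit 0xa135563db72ab2e)
  (PL.C (nat_lit 0x3b20e) (nat_lit 0x0) (nat_lit 0x1124180b4e8500d9)
  (PL.C (nat_lit 0x3b2f8) (nat_lit 0x4a5feeff3ad1ac) (nat_lit 0x0)
  (PL.C (nat_lit 0x3b754) (nat_lit 0x543e146cd17fec) (nat_lit 0x0)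
  (PL.C (nat_lit 0x3c4d8) (nat_lit 0x156ae252fa9de7e4) (nat_lit 0x0)
  (PL.C (nat_lit 0x3c9e4) (nat_lit 0x424e6ce80b49507) (nat_lit 0x0)
  (PL.C (nat_lit 0x3cb0d) (nat_lit 0xa7382aadf08cfe) (nat_lit 0x0)
  (PL.C (nat_lit 0x3ccf3) (nat_lit 0x13039438ef63241) (nat_lit 0x0)
  (PL.C (nat_lit 0x3d0f0) (nat_lit 0x0) (nat_lit 0x12eb78dc6c9a358f)
  (PL.C (nat_lit 0x3d2f6) (nat_lit 0x18586515cebbd568) (nat_lit 0x0)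
  (PL.C (nat_lit 0x3d460) (nat_lit 0x0) (nat_lit 0x1b59328c3f422b8) gp0_0_9))))))))))))))))))))

noncomputable def gp0_0_7 : PL :=
  (PL.C (nat_lit 0x2aad0) (nat_lit 0x23e156e5312ea8) (nat_lit 0x0)
  (PL.C (nat_lit 0x2b030) (nat_lit 0x0) (nat_lit 0x2882634bb1ea9048)
  (PL.C (nat_lit 0x2b3b0) (nat_lit 0x37711750a04f2b2) (nat_lit 0x0)
  (PL.C (nat_lit 0x2bfd4) (nat_lit 0x126e6a97f7d301d5c) (nat_lit 0x0)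
  (PL.C (nat_lit 0x2cbb6) (nat_lit 0x0) (nat_lit 0x967afb8228c4f12)
  (PL.C (nat_lit 0x2cfd3) (nat_lit 0x11c964202ff3c74d) (nat_lit 0x0)
  (PL.C (nat_lit 0x2e9f0) (nat_lit 0x182d57bbfea34b8f) (nat_lit 0x0)
  (PL.C (nat_lit 0x2eb24) (nat_lit 0x0) (nat_lit 0xf9e55b22b842e6b)
  (PL.C (nat_lit 0x2ed10) (nat_lit 0xec63a36388bc4) (nat_lit 0x0)
  (PL.C (nat_lit 0x2fae4) (nat_lit 0x8b21f7e326c57e7) (nat_lit 0x0)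
  (PL.C (nat_lit 0x2fc1f) (nat_lit 0x0) (nat_lit 0x2033a9a90eeabd0)
  (PL.C (nat_lit 0x2fcdc) (nat_lit 0x0) (nat_lit 0x3dc3ab78126ddde)
  (PL.C (nat_lit 0x306d8) (nat_lit 0x0) (nat_lit 0x249302c5eb012e7)
  (PL.C (nat_lit 0x30b4c) (nat_lit 0x14f01d619436f4da) (nat_lit 0x0)
  (PL.C (nat_lit 0x316b3) (nat_lit 0x0) (nat_lit 0x612f9f85c5209f0)
  (PL.C (nat_lit 0x32808) (nat_lit 0x0) (nat_lit 0x6a78e49a29fad9e)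
  (PL.C (nat_lit 0x338b0) (nat_lit 0x182d57bbfea34b8f) (nat_lit 0x0)
  (PL.C (nat_lit 0x33a2c) (nat_lit 0x6918f43644fee6) (nat_lit 0x0)
  (PL.C (nat_lit 0x341c4) (nat_lit 0x2370be470a520ae7) (nat_lit 0x0)
  (PL.C (nat_lit 0x354b7) (nat_lit 0x11c964202ff3c74d) (nat_lit 0x0) gp0_0_8))))))))))))))))))))

noncomputable def gp0_0_6 : PL :=
  (PL.C (nat_lit 0x24213) (nat_lit 0x6a327d6519d537c) (nat_lit 0x0)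
  (PL.C (nat_lit 0x244f0) (nat_lit 0x0) (nat_lit 0x2882634bb1ea9048)
  (PL.C (nat_lit 0x247a0) (nat_lit 0x15098e4989ffdfa) (nat_lit 0x0)
  (PL.C (nat_lit 0x24c18) (nat_lit 0x0) (nat_lit 0x23b16d7212659c4)
  (PL.C (nat_lit 0x25128) (nat_lit 0x0) (nat_lit 0x23b16d7212659c4)
  (PL.C (nat_lit 0x25224) (nat_lit 0x1d1ccf248a94255c) (nat_lit 0x0)
  (PL.C (nat_lit 0x26532) (nat_lit 0x0) (nat_lit 0x9e2d408bf16ba2e)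
  (PL.C (nat_lit 0x268b0) (nat_lit 0x1461ee8f740aa812) (nat_lit 0x0)
  (PL.C (nat_lit 0x275b0) (nat_lit 0x0) (nat_lit 0x12eb78dc6c9a358f)
  (PL.C (nat_lit 0x276b4) (nat_lit 0x0) (nat_lit 0xf9e55b22b842e6b)
  (PL.C (nat_lit 0x27750) (nat_lit 0x7d33b84bbbd0adc) (nat_lit 0x0)
  (PL.C (nat_lit 0x27a38) (nat_lit 0x203c1543cd1d8ec) (nat_lit 0x0)
  (PL.C (nat_lit 0x28698) (nat_lit 0x0) (nat_lit 0x4710f21e29866c3)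
  (PL.C (nat_lit 0x2875e) (nat_lit 0x0) (nat_lit 0x967afb8228c4f12)
  (PL.C (nat_lit 0x288a2) (nat_lit 0x0) (nat_lit 0xa4b7e2cc92a11b)
  (PL.C (nat_lit 0x28ca4) (nat_lit 0xc4f698eacc0a1d0) (nat_lit 0x0)
  (PL.C (nat_lit 0x2954a) (nat_lit 0x18586515cebbd568) (nat_lit 0x0)
  (PL.C (nat_lit 0x29a18) (nat_lit 0x25f03eabc7bee78) (nat_lit 0x0)
  (PL.C (nat_lit 0x29c70) (nat_lit 0x0) (nat_lit 0x4473d5aa16631f9)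
  (PL.C (nat_lit 0x29d84) (nat_lit 0xa06faba64c0c21d) (nat_lit 0x0) gp0_0_7))))))))))))))))))))

noncomputable def gp0_0_5 : PL :=
  (PL.C (nat_lit 0x1b06c) (nat_lit 0x0) (nat_lit 0x2443e64dd8f0ccb)
  (PL.C (nat_lit 0x1b318) (nat_lit 0x106f07d62df700fa) (nat_lit 0x0)
  (PL.C (nat_lit 0x1b8dc) (nat_lit 0xc4f698eacc0a1d0) (nat_lit 0x0)
  (PL.C (nat_lit 0x1b963) (nat_lit 0x6a327d6519d537c) (nat_lit 0x0)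
  (PL.C (nat_lit 0x1bda0) (nat_lit 0x15098e4989ffdfa) (nat_lit 0x0)
  (PL.C (nat_lit 0x1be58) (nat_lit 0x136969a3d6b082bc) (nat_lit 0x0)
  (PL.C (nat_lit 0x1c2e1) (nat_lit 0x0) (nat_lit 0x612f9f85c5209f0)
  (PL.C (nat_lit 0x1d538) (nat_lit 0x0) (nat_lit 0x405a44709fcd31fc)
  (PL.C (nat_lit 0x1dd24) (nat_lit 0x0) (nat_lit 0x7b4998e8c3eb56e)
  (PL.C (nat_lit 0x1dfe2) (nat_lit 0x0) (nat_lit 0x1fb5d1392611c5fd)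
  (PL.C (nat_lit 0x1f218) (nat_lit 0x0) (nat_lit 0x2464fbfac200b315)
  (PL.C (nat_lit 0x1fc98) (nat_lit 0x25f03eabc7bee78) (nat_lit 0x0)
  (PL.C (nat_lit 0x1fd6a) (nat_lit 0xa81fa2bdb5d846c) (nat_lit 0x0)
  (PL.C (nat_lit 0x1fde8) (nat_lit 0x443e4aa9b9c94dc) (nat_lit 0x0)
  (PL.C (nat_lit 0x20490) (nat_lit 0x37711750a04f2b2) (nat_lit 0x0)
  (PL.C (nat_lit 0x20f22) (nat_lit 0x502cf380c2cce06) (nat_lit 0x0)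
  (PL.C (nat_lit 0x21ab0) (nat_lit 0x8a12fdf8ebeb648) (nat_lit 0x0)
  (PL.C (nat_lit 0x226c8) (nat_lit 0x0) (nat_lit 0xb446bf33601f4c)
  (PL.C (nat_lit 0x22bd8) (nat_lit 0x3165ad27eee5f44a) (nat_lit 0x0)
  (PL.C (nat_lit 0x2387a) (nat_lit 0x0) (nat_lit 0x1fb5d1392611c5fd) gp0_0_6))))))))))))))))))))

noncomputable def gp0_0_4 : PL :=
  (PL.C (nat_lit 0x13e18) (nat_lit 0x0) (nat_lit 0x7ecc84f8db31f14)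
  (PL.C (nat_lit 0x13fec) (nat_lit 0x16f9b1c6e8fa4d64) (nat_lit 0x0)
  (PL.C (nat_lit 0x14c10) (nat_lit 0x0) (nat_lit 0x1ea777fcbb7e16f2)
  (PL.C (nat_lit 0x1539c) (nat_lit 0x0) (nat_lit 0x27d35df70ac383d4)
  (PL.C (nat_lit 0x153f0) (nat_lit 0x2c545d5396acf40) (nat_lit 0x0)
  (PL.C (nat_lit 0x15f6c) (nat_lit 0x0) (nat_lit 0x7c21286412d184c)
  (PL.C (nat_lit 0x17290) (nat_lit 0x0) (nat_lit 0x33ce2bd2e0e56ea8)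
  (PL.C (nat_lit 0x17afc) (nat_lit 0x16f9b1c6e8fa4d64) (nat_lit 0x0)
  (PL.C (nat_lit 0x18162) (nat_lit 0x365af3e9a084a5a) (nat_lit 0x0)
  (PL.C (nat_lit 0x18399) (nat_lit 0x3cb12750601c1a05) (nat_lit 0x0)
  (PL.C (nat_lit 0x18810) (nat_lit 0x0) (nat_lit 0x88e66e5235812a2)
  (PL.C (nat_lit 0x18b70) (nat_lit 0x0) (nat_lit 0x88e66e5235812a2)
  (PL.C (nat_lit 0x18c18) (nat_lit 0x2d246d178cae6a5e) (nat_lit 0x0)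
  (PL.C (nat_lit 0x19737) (nat_lit 0x1467cd44de6ca8f4) (nat_lit 0x0)
  (PL.C (nat_lit 0x198cc) (nat_lit 0x0) (nat_lit 0x14d5717a5f7e1078)
  (PL.C (nat_lit 0x19b20) (nat_lit 0x0) (nat_lit 0x2afb2444c16913e)
  (PL.C (nat_lit 0x1a478) (nat_lit 0x0) (nat_lit 0x2464fbfac200b315)
  (PL.C (nat_lit 0x1a6d0) (nat_lit 0x3e99dc25dde856e) (nat_lit 0x0)
  (PL.C (nat_lit 0x1af10) (nat_lit 0x45097efc75f5b24) (nat_lit 0x0)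
  (PL.C (nat_lit 0x1af94) (nat_lit 0x0) (nat_lit 0x7b4998e8c3eb56e) gp0_0_5))))))))))))))))))))

noncomputable def gp0_0_3 : PL :=
  (PL.C (nat_lit 0xdd60) (nat_lit 0x2dd60aff211b0fe) (nat_lit 0x0)
  (PL.C (nat_lit 0xe268) (nat_lit 0x0) (nat_lit 0x109f14b9e2a4dcaa)
  (PL.C (nat_lit 0xea48) (nat_lit 0x0) (nat_lit 0x5c1a087680a7080)
  (PL.C (nat_lit 0xfca8) (nat_lit 0x2b1dd2b8a059716) (nat_lit 0x0)
  (PL.C (nat_lit 0x100ec) (nat_lit 0x3becf77ffff2a16) (nat_lit 0x0)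
  (PL.C (nat_lit 0x10266) (nat_lit 0x0) (nat_lit 0x8bf20e956645a72)
  (PL.C (nat_lit 0x10560) (nat_lit 0x0) (nat_lit 0x6f582bccd92c954)
  (PL.C (nat_lit 0x107a0) (nat_lit 0x0) (nat_lit 0x6f582bccd92c954)
  (PL.C (nat_lit 0x10810) (nat_lit 0x0) (nat_lit 0x33ce2bd2e0e56ea8)
  (PL.C (nat_lit 0x10f7a) (nat_lit 0x0) (nat_lit 0x1d93d3041397b982)
  (PL.C (nat_lit 0x11088) (nat_lit 0x0) (nat_lit 0x61cbddae6dcdea4)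
  (PL.C (nat_lit 0x11850) (nat_lit 0x0) (nat_lit 0x1ea777fcbb7e16f2)
  (PL.C (nat_lit 0x11fb8) (nat_lit 0x0) (nat_lit 0x7ecc84f8db31f14)
  (PL.C (nat_lit 0x12048) (nat_lit 0x16a6dac14ec914) (nat_lit 0x0)
  (PL.C (nat_lit 0x12210) (nat_lit 0x24387809fb2e3f18) (nat_lit 0x0)
  (PL.C (nat_lit 0x125e8) (nat_lit 0x106f07d62df700fa) (nat_lit 0x0)
  (PL.C (nat_lit 0x12642) (nat_lit 0x365af3e9a084a5a) (nat_lit 0x0)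
  (PL.C (nat_lit 0x12990) (nat_lit 0xa2c10ab89a09b4a) (nat_lit 0x0)
  (PL.C (nat_lit 0x12c96) (nat_lit 0x502cf380c2cce06) (nat_lit 0x0)
  (PL.C (nat_lit 0x138d0) (nat_lit 0x9c6c331ccb928a14) (nat_lit 0x0) gp0_0_4))))))))))))))))))))

noncomputable def gp0_0_2 : PL :=
  (PL.C (nat_lit 0x8d60) (nat_lit 0x0) (nat_lit 0x16e07d68dcff5578)
  (PL.C (nat_lit 0x922e) (nat_lit 0x77742ebeacb5d2c) (nat_lit 0x0)
  (PL.C (nat_lit 0x96f0) (nat_lit 0x29b78a90a96fb06) (nat_lit 0x0)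
  (PL.C (nat_lit 0x9c30) (nat_lit 0x3515c3a5ecf91b4) (nat_lit 0x0)
  (PL.C (nat_lit 0xab48) (nat_lit 0x2071c0590ea3f30) (nat_lit 0x0)
  (PL.C (nat_lit 0xac44) (nat_lit 0x34a2660798551587) (nat_lit 0x0)
  (PL.C (nat_lit 0xb4fc) (nat_lit 0x0) (nat_lit 0x9d227d60affcbd0)
  (PL.C (nat_lit 0xb5b0) (nat_lit 0x0) (nat_lit 0x1330475ca123065e)
  (PL.C (nat_lit 0xb919) (nat_lit 0x1002f59e66564476) (nat_lit 0x0)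
  (PL.C (nat_lit 0xbae0) (nat_lit 0x2dd60aff211b0fe) (nat_lit 0x0)
  (PL.C (nat_lit 0xbfd0) (nat_lit 0x0) (nat_lit 0xf895aa46cbb041c)
  (PL.C (nat_lit 0xc030) (nat_lit 0x2c545d5396acf40) (nat_lit 0x0)
  (PL.C (nat_lit 0xc3f0) (nat_lit 0x24387809fb2e3f18) (nat_lit 0x0)
  (PL.C (nat_lit 0xc42c) (nat_lit 0x3becf77ffff2a16) (nat_lit 0x0)
  (PL.C (nat_lit 0xc47d) (nat_lit 0xbfa81c46f9d1dc) (nat_lit 0x0)
  (PL.C (nat_lit 0xc660) (nat_lit 0x0) (nat_lit 0x31c07592004e934)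
  (PL.C (nat_lit 0xc864) (nat_lit 0x0) (nat_lit 0x7c21286412d184c)
  (PL.C (nat_lit 0xd410) (nat_lit 0x0) (nat_lit 0xf895aa46cbb041c)
  (PL.C (nat_lit 0xd548) (nat_lit 0x2b1dd2b8a059716) (nat_lit 0x0)
  (PL.C (nat_lit 0xdb45) (nat_lit 0x1002f59e66564476) (nat_lit 0x0) gp0_0_3))))))))))))))))))))

noncomputable def gp0_0_1 : PL :=
  (PL.C (nat_lit 0x3a38) (nat_lit 0x0) (nat_lit 0x57e5ccc2afbfe26)
  (PL.C (nat_lit 0x40f8) (nat_lit 0x19d610955cf96f64) (nat_lit 0x0)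
  (PL.C (nat_lit 0x4272) (nat_lit 0x1dbc4a9effdaaa56) (nat_lit 0x0)
  (PL.C (nat_lit 0x4c20) (nat_lit 0xc9435b36e978220) (nat_lit 0x0)
  (PL.C (nat_lit 0x5070) (nat_lit 0x0) (nat_lit 0x3c849b488d4a5076)
  (PL.C (nat_lit 0x5244) (nat_lit 0x28891f1b102804a0) (nat_lit 0x0)
  (PL.C (nat_lit 0x5730) (nat_lit 0xb233dabc39b9b02) (nat_lit 0x0)
  (PL.C (nat_lit 0x5754) (nat_lit 0x0) (nat_lit 0xe4d27f05e29240a)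
  (PL.C (nat_lit 0x5910) (nat_lit 0x3515c3a5ecf91b4) (nat_lit 0x0)
  (PL.C (nat_lit 0x6174) (nat_lit 0x28891f1b102804a0) (nat_lit 0x0)
  (PL.C (nat_lit 0x63ab) (nat_lit 0x0) (nat_lit 0x42ea841ab863020)
  (PL.C (nat_lit 0x7230) (nat_lit 0xb233dabc39b9b02) (nat_lit 0x0)
  (PL.C (nat_lit 0x78a8) (nat_lit 0x1f406075893a3714) (nat_lit 0x0)
  (PL.C (nat_lit 0x7920) (nat_lit 0x0) (nat_lit 0x2cbdabd888b6ed00)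
  (PL.C (nat_lit 0x7b66) (nat_lit 0x77742ebeacb5d2c) (nat_lit 0x0)
  (PL.C (nat_lit 0x7fe0) (nat_lit 0x0) (nat_lit 0x16e07d68dcff5578)
  (PL.C (nat_lit 0x82c8) (nat_lit 0x2071c0590ea3f30) (nat_lit 0x0)
  (PL.C (nat_lit 0x82fe) (nat_lit 0x0) (nat_lit 0x10c39ab446ec5b74)
  (PL.C (nat_lit 0x8440) (nat_lit 0xb3677a9b12492a) (nat_lit 0x0)
  (PL.C (nat_lit 0x8598) (nat_lit 0x0) (nat_lit 0x5c1a087680a7080) gp0_0_2))))))))))))))))))))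

noncomputable def gp0_0 : PL :=
  (PL.C (nat_lit 0x240) (nat_lit 0x2da488d6576a9be4) (nat_lit 0x0)
  (PL.C (nat_lit 0x360) (nat_lit 0x0) (nat_lit 0x1339b2c3e4a785a8)
  (PL.C (nat_lit 0x510) (nat_lit 0xf26ccafdda3532d) (nat_lit 0x0)
  (PL.C (nat_lit 0x798) (nat_lit 0x1b1549e373387782) (nat_lit 0x0)
  (PL.C (nat_lit 0xb64) (nat_lit 0x63d96c6ec2d7ddf) (nat_lit 0x0)
  (PL.C (nat_lit 0x1116) (nat_lit 0x0) (nat_lit 0x2398b37b9be2fb6)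
  (PL.C (nat_lit 0x1140) (nat_lit 0x8dee6a8187e1150) (nat_lit 0x0)
  (PL.C (nat_lit 0x13b0) (nat_lit 0x17ce616fe2040148) (nat_lit 0x0)
  (PL.C (nat_lit 0x1860) (nat_lit 0x2725f39b78be23b0) (nat_lit 0x0)
  (PL.C (nat_lit 0x19a1) (nat_lit 0x96e6418ecb15bfa) (nat_lit 0x0)
  (PL.C (nat_lit 0x19e0) (nat_lit 0x0) (nat_lit 0x30d578e590e1cac0)
  (PL.C (nat_lit 0x1ce0) (nat_lit 0x2725f39b78be23b0) (nat_lit 0x0)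
  (PL.C (nat_lit 0x1d88) (nat_lit 0x213372b2d41f448c) (nat_lit 0x0)
  (PL.C (nat_lit 0x2490) (nat_lit 0x0) (nat_lit 0x33a574cc5887d54)
  (PL.C (nat_lit 0x26d0) (nat_lit 0x0) (nat_lit 0x1ed50cc8123d2720)
  (PL.C (nat_lit 0x2b50) (nat_lit 0x0) (nat_lit 0x33a574cc5887d54)
  (PL.C (nat_lit 0x2c4c) (nat_lit 0x0) (nat_lit 0x1752f52860c18552)
  (PL.C (nat_lit 0x35a0) (nat_lit 0x0) (nat_lit 0x3028a2bd73e26dec)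
  (PL.C (nat_lit 0x36d8) (nat_lit 0x19d610955cf96f64) (nat_lit 0x0)
  (PL.C (nat_lit 0x3a20) (nat_lit 0xc9435b36e978220) (nat_lit 0x0) gp0_0_1))))))))))))))))))))

theorem chk0_0 : eqP (sm (pre (nat_lit 61) (grl (nat_lit 78) (nat_lit 33) (nat_lit 18889465931478580854784) (nat_lit 4) us0 cs0))) gp0_0 = true := by decide +kernel


end Pool.Agent.Work.MP_440970_an.FX.D1
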