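import Pool.Agent.Work.MP_440970_an.Bdx.B01
import Pool.Agent.Work.MP_440970_an.FX.D1.U0

/-!
# parts of the squares
-/

set_option autoImplicit false
set_option maxRecDepth 1000000

namespace Pool.Agent.Work.MP_440970_an.FX.D1

noncomputable def gp0_1_221 : PL :=
  (PL.C (nat_lit 0x164dc5403) (nat_lit 0x0) (nat_lit 0x1fe5d6fd0f18b)
  (PL.C (nat_lit 0x16a21b9fd) (nat_lit 0x0) (nat_lit 0x30c2eb101396c)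
  (PL.C (nat_lit 0x16f8e4995) (nat_lit 0x3b1016c891fc1) (nat_lit 0x0)
  (PL.C (nat_lit 0x1713691e7) (nat_lit 0x0) (nat_lit 0x29b96d5a3743a)
  (PL.C (nat_lit 0x172b84803) (nat_lit 0x60acae6bd090) (nat_lit 0x0)
  (PL.C (nat_lit 0x1767ccbb7) (nat_lit 0x0) (nat_lit 0x17970d30e1129)
  (PL.C (nat_lit 0x185893037) (nat_lit 0x0) (nat_lit 0x1d2e4a85138f4)
  (PL.C (nat_lit 0x188e39ed1) (nat_lit 0x1859438991367) (nat_lit 0x0)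
  (PL.C (nat_lit 0x1ab909ebd) (nat_lit 0x0) (nat_lit 0x1fe5d714f1980)
  (PL.C (nat_lit 0x1af3edb9b) (nat_lit 0xeb018be69ee8) (nat_lit 0x0)
  (PL.C (nat_lit 0x1dd74cabf) (nat_lit 0x12a0fba11fb4a) (nat_lit 0x0)
  (PL.C (nat_lit 0x1e190fa09) (nat_lit 0x40c1ba54aac9b) (nat_lit 0x0)
  (PL.C (nat_lit 0x205ba5db5) (nat_lit 0x13231c310bdad) (nat_lit 0x0)
  (PL.C (nat_lit 0x2176480df) (nat_lit 0x0) (nat_lit 0x71c1659ae99f)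
  (PL.C (nat_lit 0x2aa9a88a7) (nat_lit 0x11be8939c2287) (nat_lit 0x0)
  (PL.C (nat_lit 0x2b07acee1) (nat_lit 0x0) (nat_lit 0x13bf8f6fd52fc) PL.Z))))))))))))))))

noncomputable def gp0_1_220 : PL :=
  (PL.C (nat_lit 0x12da3f3d3) (nat_lit 0x8da7da609792) (nat_lit 0x0)
  (PL.C (nat_lit 0x12e349083) (nat_lit 0x5402442cc2a00) (nat_lit 0x0)
  (PL.C (nat_lit 0x130ce8b25) (nat_lit 0x0) (nat_lit 0x78d3ca4760d08)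
  (PL.C (nat_lit 0x1318734ef) (nat_lit 0x0) (nat_lit 0x1e81a1c46df19)
  (PL.C (nat_lit 0x13c5419dd) (nat_lit 0x82a716f2d40e6) (nat_lit 0x0)
  (PL.C (nat_lit 0x14285aae1) (nat_lit 0x40c1ba6b1ea8c) (nat_lit 0x0)
  (PL.C (nat_lit 0x1444a8977) (nat_lit 0x0) (nat_lit 0x925eabee928c)
  (PL.C (nat_lit 0x1454c6b57) (nat_lit 0x12a0fbbc98e7a) (nat_lit 0x0)
  (PL.C (nat_lit 0x1475a5959) (nat_lit 0x21179d853045b) (nat_lit 0x0)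
  (PL.C (nat_lit 0x148d43953) (nat_lit 0x0) (nat_lit 0x274e4a4a0c930)
  (PL.C (nat_lit 0x14a2bbf1f) (nat_lit 0x0) (nat_lit 0x7fb215966a449)
  (PL.C (nat_lit 0x14ba8dfd5) (nat_lit 0x0) (nat_lit 0x9d5974b45dee)
  (PL.C (nat_lit 0x14d035aa9) (nat_lit 0x21179daf2f525) (nat_lit 0x0)
  (PL.C (nat_lit 0x14dbd844d) (nat_lit 0x236f6661f5aaa) (nat_lit 0x0)
  (PL.C (nat_lit 0x14df4ec8b) (nat_lit 0x1e5ff11c02c94) (nat_lit 0x0)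
  (PL.C (nat_lit 0x14f5b15a5) (nat_lit 0x22e4199d01057) (nat_lit 0x0)
  (PL.C (nat_lit 0x1509cfd8b) (nat_lit 0x0) (nat_lit 0xa7a6464878ec4)
  (PL.C (nat_lit 0x16056bd9b) (nat_lit 0x0) (nat_lit 0x9d59656d0612)
  (PL.C (nat_lit 0x161d09d95) (nat_lit 0xeb018bbaa595) (nat_lit 0x0)
  (PL.C (nat_lit 0x1635f334d) (nat_lit 0x0) (nat_lit 0x274e4b19e2029) gp0_1_221))))))))))))))))))))

noncomputable def gp0_1_219 : PL :=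
  (PL.C (nat_lit 0x105c3f7b5) (nat_lit 0x0) (nat_lit 0xb4dc305c5ccea)
  (PL.C (nat_lit 0x10b3c3191) (nat_lit 0x2b988ab473c8a) (nat_lit 0x0)
  (PL.C (nat_lit 0x10c5acbff) (nat_lit 0x22e41963554a2) (nat_lit 0x0)
  (PL.C (nat_lit 0x11266f20b) (nat_lit 0x82f04379d3ede) (nat_lit 0x0)
  (PL.C (nat_lit 0x113cc3583) (nat_lit 0x0) (nat_lit 0x41bf46b0cba0b)
  (PL.C (nat_lit 0x1145a6173) (nat_lit 0x5ca14755a195) (nat_lit 0x0)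
  (PL.C (nat_lit 0x114c3a75d) (nat_lit 0x82f045408c278) (nat_lit 0x0)
  (PL.C (nat_lit 0x11582c33d) (nat_lit 0x0) (nat_lit 0x925ead65bee8)
  (PL.C (nat_lit 0x1162bfe25) (nat_lit 0x2a1bd0083864f) (nat_lit 0x0)
  (PL.C (nat_lit 0x116c6cfff) (nat_lit 0x0) (nat_lit 0x137d4f24dbeee)
  (PL.C (nat_lit 0x119ba9441) (nat_lit 0x0) (nat_lit 0xa7a644bb96c6c)
  (PL.C (nat_lit 0x11c276ef7) (nat_lit 0x236f6600dc0b9) (nat_lit 0x0)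
  (PL.C (nat_lit 0x11d0b147e) (nat_lit 0x92784e0abdd1) (nat_lit 0x0)
  (PL.C (nat_lit 0x11e7053f3) (nat_lit 0x2381f4d) (nat_lit 0x0)
  (PL.C (nat_lit 0x11f7f3d12) (nat_lit 0x18b618e024fd) (nat_lit 0x0)
  (PL.C (nat_lit 0x12049cf3d) (nat_lit 0x0) (nat_lit 0x64d02386ba63)
  (PL.C (nat_lit 0x127729865) (nat_lit 0x2befaed7e8e86) (nat_lit 0x0)
  (PL.C (nat_lit 0x1296dcb47) (nat_lit 0x185943244c975) (nat_lit 0x0)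
  (PL.C (nat_lit 0x12b10e445) (nat_lit 0x8da7db0a0567) (nat_lit 0x0)
  (PL.C (nat_lit 0x12bfd3f41) (nat_lit 0x0) (nat_lit 0x1d2e4b12c969f) gp0_1_220))))))))))))))))))))

noncomputable def gp0_1_218 : PL :=
  (PL.C (nat_lit 0xea91af6d) (nat_lit 0x0) (nat_lit 0x443be9230fa0)
  (PL.C (nat_lit 0xeb54b63b) (nat_lit 0x0) (nat_lit 0x8c37e8e6c9c45)
  (PL.C (nat_lit 0xebe0690e) (nat_lit 0x18b617d0cf9c) (nat_lit 0x0)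
  (PL.C (nat_lit 0xede83802) (nat_lit 0x92784ecb97aa) (nat_lit 0x0)
  (PL.C (nat_lit 0xf3feb8ed) (nat_lit 0x2a1bd04cb780c) (nat_lit 0x0)
  (PL.C (nat_lit 0xf49ecee3) (nat_lit 0x0) (nat_lit 0x17970d9aa089a)
  (PL.C (nat_lit 0xf6186beb) (nat_lit 0x0) (nat_lit 0x41bf466ff7636)
  (PL.C (nat_lit 0xf848c84b) (nat_lit 0x2531ce2616109) (nat_lit 0x0)
  (PL.C (nat_lit 0xf96762b9) (nat_lit 0x5ca147e7eb79) (nat_lit 0x0)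
  (PL.C (nat_lit 0xfa6bef1d) (nat_lit 0x25348c4726067) (nat_lit 0x0)
  (PL.C (nat_lit 0xfbb969ad) (nat_lit 0x1e7fe0dc34a2e) (nat_lit 0x0)
  (PL.C (nat_lit 0xfcf776e9) (nat_lit 0x0) (nat_lit 0x30c2ead58c3c6)
  (PL.C (nat_lit 0xfd20fe27) (nat_lit 0xc79f092eadbd0) (nat_lit 0x0)
  (PL.C (nat_lit 0xfde4252b) (nat_lit 0x0) (nat_lit 0x31dd7fae15cdd)
  (PL.C (nat_lit 0x100c17121) (nat_lit 0x25348cc7fdf9b) (nat_lit 0x0)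
  (PL.C (nat_lit 0x1011780dd) (nat_lit 0x0) (nat_lit 0xc77d5d132453)
  (PL.C (nat_lit 0x101e9d2eb) (nat_lit 0x2b988a1e91bd0) (nat_lit 0x0)
  (PL.C (nat_lit 0x1024045ff) (nat_lit 0x0) (nat_lit 0xd7de144e1a638)
  (PL.C (nat_lit 0x102f74317) (nat_lit 0x2531cdd43c380) (nat_lit 0x0)
  (PL.C (nat_lit 0x1034e107b) (nat_lit 0x0) (nat_lit 0xb3ed3a51ef40) gp0_1_219))))))))))))))))))))

noncomputable def gp0_1_217 : PL :=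
  (PL.C (nat_lit 0xd12e8349) (nat_lit 0x0) (nat_lit 0xf1edfa7ea5616)
  (PL.C (nat_lit 0xd1c00645) (nat_lit 0x0) (nat_lit 0xf83bd2812451)
  (PL.C (nat_lit 0xd2b22577) (nat_lit 0x0) (nat_lit 0xbac462ef84220)
  (PL.C (nat_lit 0xd361acfb) (nat_lit 0xc1d36e0a7c481) (nat_lit 0x0)
  (PL.C (nat_lit 0xd38e41d3) (nat_lit 0x1bacc1ea120bb) (nat_lit 0x0)
  (PL.C (nat_lit 0xd53380ed) (nat_lit 0xcbc7ebeb7dbea) (nat_lit 0x0)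
  (PL.C (nat_lit 0xd5ae2303) (nat_lit 0x0) (nat_lit 0xb4dc30ccc0636)
  (PL.C (nat_lit 0xd7396963) (nat_lit 0x0) (nat_lit 0x7ade40451e049)
  (PL.C (nat_lit 0xd831b0fa) (nat_lit 0x0) (nat_lit 0x5c261f0b1545)
  (PL.C (nat_lit 0xd851a09b) (nat_lit 0x424c9553699b3) (nat_lit 0x0)
  (PL.C (nat_lit 0xdcf88b49) (nat_lit 0xc79f091a4b77d) (nat_lit 0x0)
  (PL.C (nat_lit 0xdd429c65) (nat_lit 0xcaa8a100c8f49) (nat_lit 0x0)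
  (PL.C (nat_lit 0xdf920e6e) (nat_lit 0x0) (nat_lit 0x883440dc71ea)
  (PL.C (nat_lit 0xe1968d95) (nat_lit 0x0) (nat_lit 0x1e81a1948300b)
  (PL.C (nat_lit 0xe2d46c0f) (nat_lit 0x0) (nat_lit 0x443be63cc187)
  (PL.C (nat_lit 0xe63a2e17) (nat_lit 0x0) (nat_lit 0x1c8739e280855)
  (PL.C (nat_lit 0xe743f07d) (nat_lit 0x4c653ccaaee46) (nat_lit 0x0)
  (PL.C (nat_lit 0xe83589f1) (nat_lit 0x565f09984940) (nat_lit 0x0)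
  (PL.C (nat_lit 0xe948f87f) (nat_lit 0x2befaf0a5ab70) (nat_lit 0x0)
  (PL.C (nat_lit 0xe9972a43) (nat_lit 0x1b2009466f827) (nat_lit 0x0) gp0_1_218))))))))))))))))))))

noncomputable def gp0_1_216 : PL :=
  (PL.C (nat_lit 0xb90f8407) (nat_lit 0x424c95215dbb4) (nat_lit 0x0)
  (PL.C (nat_lit 0xb972a96e) (nat_lit 0x504ee901cba84) (nat_lit 0x0)
  (PL.C (nat_lit 0xbd4b1f71) (nat_lit 0x22725fdee4c55) (nat_lit 0x0)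
  (PL.C (nat_lit 0xbdacb3c1) (nat_lit 0xb0c12a45a5668) (nat_lit 0x0)
  (PL.C (nat_lit 0xbe938ddb) (nat_lit 0x21840339ea1b2) (nat_lit 0x0)
  (PL.C (nat_lit 0xbeec4647) (nat_lit 0xd60a3ac351b2) (nat_lit 0x0)
  (PL.C (nat_lit 0xbf5ff155) (nat_lit 0x0) (nat_lit 0xf1edfa9f4e401)
  (PL.C (nat_lit 0xc2fe77d7) (nat_lit 0x854e1f1955a3) (nat_lit 0x0)
  (PL.C (nat_lit 0xc56fe815) (nat_lit 0x0) (nat_lit 0x13f0b5bedd686)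
  (PL.C (nat_lit 0xc5ea279f) (nat_lit 0x240316caf4990) (nat_lit 0x0)
  (PL.C (nat_lit 0xc623ccaf) (nat_lit 0x0) (nat_lit 0x1b69f20f006e1)
  (PL.C (nat_lit 0xc6ce9d55) (nat_lit 0xb749d34c28525) (nat_lit 0x0)
  (PL.C (nat_lit 0xc760982e) (nat_lit 0x473a1b65e3e2) (nat_lit 0x0)
  (PL.C (nat_lit 0xc79e4e29) (nat_lit 0x118430f1de423) (nat_lit 0x0)
  (PL.C (nat_lit 0xc7b679a1) (nat_lit 0x0) (nat_lit 0x31dd802ad8d13)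
  (PL.C (nat_lit 0xc85a79eb) (nat_lit 0x9e73500e33370) (nat_lit 0x0)
  (PL.C (nat_lit 0xc917f7e2) (nat_lit 0x473a18e18182) (nat_lit 0x0)
  (PL.C (nat_lit 0xc96e9697) (nat_lit 0x1e7fe0c5e407c) (nat_lit 0x0)
  (PL.C (nat_lit 0xc9a5a8c5) (nat_lit 0x201bc6fc7ba79) (nat_lit 0x0)
  (PL.C (nat_lit 0xd01f8ae1) (nat_lit 0x0) (nat_lit 0x7ade4048e7b9e) gp0_1_217))))))))))))))))))))

noncomputable def gp0_1_215 : PL :=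
  (PL.C (nat_lit 0xa942c372) (nat_lit 0x0) (nat_lit 0x23e0e6fa3626a)
  (PL.C (nat_lit 0xaa54ab77) (nat_lit 0x6eb6515d5f59e) (nat_lit 0x0)
  (PL.C (nat_lit 0xac60cbaf) (nat_lit 0x0) (nat_lit 0x52056bfdfbe0b)
  (PL.C (nat_lit 0xac750253) (nat_lit 0x0) (nat_lit 0x1010e0dbff51b4)
  (PL.C (nat_lit 0xad19aac1) (nat_lit 0x4c653ca818878) (nat_lit 0x0)
  (PL.C (nat_lit 0xad704d3f) (nat_lit 0x60acabc8da5e) (nat_lit 0x0)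
  (PL.C (nat_lit 0xadf10ed5) (nat_lit 0x49c2d168ab500) (nat_lit 0x0)
  (PL.C (nat_lit 0xae72e7a1) (nat_lit 0x1b2008f6a0b61) (nat_lit 0x0)
  (PL.C (nat_lit 0xae9e4a05) (nat_lit 0x6a3519710ee1) (nat_lit 0x0)
  (PL.C (nat_lit 0xaeee8389) (nat_lit 0x3b10169881ee1) (nat_lit 0x0)
  (PL.C (nat_lit 0xb10fd019) (nat_lit 0x0) (nat_lit 0x1044ab5c37dbb2)
  (PL.C (nat_lit 0xb1dc3393) (nat_lit 0x0) (nat_lit 0x52056c9a8c5c8)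
  (PL.C (nat_lit 0xb296025f) (nat_lit 0xa354c3bfc2946) (nat_lit 0x0)
  (PL.C (nat_lit 0xb2e732aa) (nat_lit 0x0) (nat_lit 0x8834431e601d)
  (PL.C (nat_lit 0xb36aee41) (nat_lit 0xb221e7797a51) (nat_lit 0x0)
  (PL.C (nat_lit 0xb3d2a6c1) (nat_lit 0x679bddf59c0a7) (nat_lit 0x0)
  (PL.C (nat_lit 0xb484420d) (nat_lit 0x1dde2965df0a76) (nat_lit 0x0)
  (PL.C (nat_lit 0xb49381cf) (nat_lit 0x27121b84a0b5f) (nat_lit 0x0)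
  (PL.C (nat_lit 0xb7dd7902) (nat_lit 0x0) (nat_lit 0x39e385eaf90cd)
  (PL.C (nat_lit 0xb901d77e) (nat_lit 0x0) (nat_lit 0x5c262142ef8d) gp0_1_216))))))))))))))))))))

noncomputable def gp0_1_214 : PL :=
  (PL.C (nat_lit 0x9dca64dd) (nat_lit 0x0) (nat_lit 0xd7de144030edc)
  (PL.C (nat_lit 0x9dfdae4f) (nat_lit 0x22725ffd6a2c8) (nat_lit 0x0)
  (PL.C (nat_lit 0x9f16520f) (nat_lit 0x17826ad4ece2a) (nat_lit 0x0)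
  (PL.C (nat_lit 0xa0276d75) (nat_lit 0xa354c442522b4) (nat_lit 0x0)
  (PL.C (nat_lit 0xa05317b1) (nat_lit 0x187a8192f488a5) (nat_lit 0x0)
  (PL.C (nat_lit 0xa0d3305b) (nat_lit 0x565f0c98ead5) (nat_lit 0x0)
  (PL.C (nat_lit 0xa0e04c87) (nat_lit 0x2184022a1e9f1) (nat_lit 0x0)
  (PL.C (nat_lit 0xa1885d23) (nat_lit 0x0) (nat_lit 0x1044ab5c11db49)
  (PL.C (nat_lit 0xa1c2fc05) (nat_lit 0x10155dd0aa4251) (nat_lit 0x0)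
  (PL.C (nat_lit 0xa2359a8d) (nat_lit 0x0) (nat_lit 0x1c8739ff99f47)
  (PL.C (nat_lit 0xa2a9d09e) (nat_lit 0x504ee90d12089) (nat_lit 0x0)
  (PL.C (nat_lit 0xa2b9d7a9) (nat_lit 0x0) (nat_lit 0x24ad41f0357cb)
  (PL.C (nat_lit 0xa3476a99) (nat_lit 0x0) (nat_lit 0x2b98b1ff737b50)
  (PL.C (nat_lit 0xa375aec3) (nat_lit 0x5726f32f15d6b) (nat_lit 0x0)
  (PL.C (nat_lit 0xa3f68777) (nat_lit 0x0) (nat_lit 0x1b69f22f82c5d)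
  (PL.C (nat_lit 0xa41047f2) (nat_lit 0x0) (nat_lit 0x39e3862888003)
  (PL.C (nat_lit 0xa420724f) (nat_lit 0x0) (nat_lit 0x1de346256ec928)
  (PL.C (nat_lit 0xa483e16d) (nat_lit 0x0) (nat_lit 0xacb4f65f9dcee)
  (PL.C (nat_lit 0xa49af773) (nat_lit 0x0) (nat_lit 0xfbf5b194e359e)
  (PL.C (nat_lit 0xa7d0f11e) (nat_lit 0x2bda7bd506c56) (nat_lit 0x0) gp0_1_215))))))))))))))))))))

noncomputable def gp0_1_213 : PL :=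
  (PL.C (nat_lit 0x956dcb97) (nat_lit 0x6e23f7ee4efa) (nat_lit 0x0)
  (PL.C (nat_lit 0x9576237b) (nat_lit 0xcaa8a05545c23) (nat_lit 0x0)
  (PL.C (nat_lit 0x95c8eb4f) (nat_lit 0x0) (nat_lit 0x818cb57d08519)
  (PL.C (nat_lit 0x961c489d) (nat_lit 0x0) (nat_lit 0x14f78411cc328)
  (PL.C (nat_lit 0x9738480a) (nat_lit 0xcdea98e77b66) (nat_lit 0x0)
  (PL.C (nat_lit 0x97796b23) (nat_lit 0x0) (nat_lit 0x13f0b605e8128)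
  (PL.C (nat_lit 0x97b33c23) (nat_lit 0x0) (nat_lit 0x1b82f838086824)
  (PL.C (nat_lit 0x97cc6b85) (nat_lit 0x140285c9559175) (nat_lit 0x0)
  (PL.C (nat_lit 0x98625901) (nat_lit 0x0) (nat_lit 0x2b98b2071cf5b6)
  (PL.C (nat_lit 0x99018a85) (nat_lit 0x0) (nat_lit 0x1b82f83d7e4e7f)
  (PL.C (nat_lit 0x997c1eba) (nat_lit 0x0) (nat_lit 0x16353d5243b66)
  (PL.C (nat_lit 0x9a2d4afe) (nat_lit 0x0) (nat_lit 0xd32b3fcd4d)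
  (PL.C (nat_lit 0x9a3c7bf9) (nat_lit 0x3a960134338a7) (nat_lit 0x0)
  (PL.C (nat_lit 0x9aa8fedf) (nat_lit 0x0) (nat_lit 0x14ed9f775f8c23)
  (PL.C (nat_lit 0x9ace5bf6) (nat_lit 0x9505e82b8b9d) (nat_lit 0x0)
  (PL.C (nat_lit 0x9b3b6f97) (nat_lit 0x0) (nat_lit 0x1be96f12444cc)
  (PL.C (nat_lit 0x9bfd3047) (nat_lit 0x0) (nat_lit 0x1097a12bcddc15)
  (PL.C (nat_lit 0x9c611f9e) (nat_lit 0xcdea961520c0) (nat_lit 0x0)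
  (PL.C (nat_lit 0x9ca47ba9) (nat_lit 0xd60a3d7dae47) (nat_lit 0x0)
  (PL.C (nat_lit 0x9d54f241) (nat_lit 0x6243215199760) (nat_lit 0x0) gp0_1_214))))))))))))))))))))

noncomputable def gp0_1_212 : PL :=
  (PL.C (nat_lit 0x900481f3) (nat_lit 0xc1d36e921e968) (nat_lit 0x0)
  (PL.C (nat_lit 0x90366b12) (nat_lit 0x0) (nat_lit 0x17466539d3d29)
  (PL.C (nat_lit 0x90ed597d) (nat_lit 0x3fe3c7b967044) (nat_lit 0x0)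
  (PL.C (nat_lit 0x918394ab) (nat_lit 0x0) (nat_lit 0xbac463177edd6)
  (PL.C (nat_lit 0x9194a4df) (nat_lit 0x624322f8cd80d) (nat_lit 0x0)
  (PL.C (nat_lit 0x922cbadb) (nat_lit 0x0) (nat_lit 0x25186894556b8)
  (PL.C (nat_lit 0x92509eb1) (nat_lit 0x10155dcca3d624) (nat_lit 0x0)
  (PL.C (nat_lit 0x9299d94f) (nat_lit 0x0) (nat_lit 0xb3ed33c5ac7f)
  (PL.C (nat_lit 0x92d576e9) (nat_lit 0x0) (nat_lit 0x1097a11f0abd39)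
  (PL.C (nat_lit 0x9367b2d9) (nat_lit 0x6e23f55ba7bb) (nat_lit 0x0)
  (PL.C (nat_lit 0x936edc0d) (nat_lit 0x3fe3c7e6060af) (nat_lit 0x0)
  (PL.C (nat_lit 0x93c14741) (nat_lit 0x239c1dd097e0be) (nat_lit 0x0)
  (PL.C (nat_lit 0x93d9cef7) (nat_lit 0x0) (nat_lit 0x6ede29ec80f64)
  (PL.C (nat_lit 0x93dceaf9) (nat_lit 0x0) (nat_lit 0xc77d66cd4cc3)
  (PL.C (nat_lit 0x946bd64b) (nat_lit 0x0) (nat_lit 0x220817c51f4eff)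
  (PL.C (nat_lit 0x94785ff9) (nat_lit 0x0) (nat_lit 0x76a2f42263b75)
  (PL.C (nat_lit 0x9481a6a9) (nat_lit 0xa258e37f191a) (nat_lit 0x0)
  (PL.C (nat_lit 0x94ce3479) (nat_lit 0xd5d644ab16a44) (nat_lit 0x0)
  (PL.C (nat_lit 0x9506e3f7) (nat_lit 0x0) (nat_lit 0x3d48079e32f05a)
  (PL.C (nat_lit 0x952d13c3) (nat_lit 0xf70f465d549ec) (nat_lit 0x0) gp0_1_213))))))))))))))))))))

noncomputable def gp0_1_211 : PL :=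
  (PL.C (nat_lit 0x878b38e7) (nat_lit 0x181a171f16188) (nat_lit 0x0)
  (PL.C (nat_lit 0x8808e237) (nat_lit 0x0) (nat_lit 0x137d4f3584ae9)
  (PL.C (nat_lit 0x8827af6d) (nat_lit 0x0) (nat_lit 0x4666de7c91fc8)
  (PL.C (nat_lit 0x88367b1b) (nat_lit 0x0) (nat_lit 0xfbf5b0e4e99cf)
  (PL.C (nat_lit 0x885bd6ef) (nat_lit 0x0) (nat_lit 0xf83bd70a2dfd)
  (PL.C (nat_lit 0x88b5eca1) (nat_lit 0x0) (nat_lit 0x28d92d88608a3)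
  (PL.C (nat_lit 0x895db60d) (nat_lit 0x0) (nat_lit 0x1bde05dff9961d)
  (PL.C (nat_lit 0x89d538bd) (nat_lit 0x1dde29631e8ed4) (nat_lit 0x0)
  (PL.C (nat_lit 0x89fc470f) (nat_lit 0x3c509d625df5) (nat_lit 0x0)
  (PL.C (nat_lit 0x8a40c6c3) (nat_lit 0x43b67b73c1000) (nat_lit 0x0)
  (PL.C (nat_lit 0x8a8c6dcb) (nat_lit 0x0) (nat_lit 0x20497717701060)
  (PL.C (nat_lit 0x8a977007) (nat_lit 0xa9d46c105dd1f) (nat_lit 0x0)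
  (PL.C (nat_lit 0x8ae05de1) (nat_lit 0x1d0fd2a5feef88) (nat_lit 0x0)
  (PL.C (nat_lit 0x8b0eea9d) (nat_lit 0x0) (nat_lit 0x2c40702af12e8)
  (PL.C (nat_lit 0x8b7172e5) (nat_lit 0x6f2bd699c3a41) (nat_lit 0x0)
  (PL.C (nat_lit 0x8b745786) (nat_lit 0x0) (nat_lit 0x3437c5120cd73)
  (PL.C (nat_lit 0x8c0bdf11) (nat_lit 0x3a6108d24de6d3) (nat_lit 0x0)
  (PL.C (nat_lit 0x8c23cea3) (nat_lit 0x1706e3f40cbd6f) (nat_lit 0x0)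
  (PL.C (nat_lit 0x8cf35dff) (nat_lit 0x45c28782c19a2) (nat_lit 0x0)
  (PL.C (nat_lit 0x8ec9d725) (nat_lit 0xcbc7ebf4927f6) (nat_lit 0x0) gp0_1_212))))))))))))))))))))

noncomputable def gp0_1_210 : PL :=
  (PL.C (nat_lit 0x7f482eda) (nat_lit 0x0) (nat_lit 0x14548412ebe82)
  (PL.C (nat_lit 0x7f954b8e) (nat_lit 0x0) (nat_lit 0x3437c53afbb13)
  (PL.C (nat_lit 0x7fcf0611) (nat_lit 0x0) (nat_lit 0x4e89955e912d4)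
  (PL.C (nat_lit 0x828ea89b) (nat_lit 0x0) (nat_lit 0x14ed9f67528983)
  (PL.C (nat_lit 0x838be17d) (nat_lit 0x0) (nat_lit 0x1231165596de5)
  (PL.C (nat_lit 0x839ff00e) (nat_lit 0x146ddab3d69f4) (nat_lit 0x0)
  (PL.C (nat_lit 0x83add5a3) (nat_lit 0x49c2cfb18eb10) (nat_lit 0x0)
  (PL.C (nat_lit 0x83f96ead) (nat_lit 0x0) (nat_lit 0x2a9ed94313cbc)
  (PL.C (nat_lit 0x8417ddca) (nat_lit 0x3c1ffcfc969e1) (nat_lit 0x0)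
  (PL.C (nat_lit 0x84676119) (nat_lit 0x0) (nat_lit 0xc962cee731126)
  (PL.C (nat_lit 0x84aba1e9) (nat_lit 0xf54058946eb24) (nat_lit 0x0)
  (PL.C (nat_lit 0x84d00505) (nat_lit 0x0) (nat_lit 0x1010e0ebe1597f)
  (PL.C (nat_lit 0x85245116) (nat_lit 0x0) (nat_lit 0x23e0e7358fba0)
  (PL.C (nat_lit 0x858b295f) (nat_lit 0x0) (nat_lit 0xc962ced339bf7)
  (PL.C (nat_lit 0x863f965f) (nat_lit 0x0) (nat_lit 0x220817ce0e0d42)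
  (PL.C (nat_lit 0x8649b9ba) (nat_lit 0x2bda7ac511545) (nat_lit 0x0)
  (PL.C (nat_lit 0x864b5c8b) (nat_lit 0x82647e306e71a) (nat_lit 0x0)
  (PL.C (nat_lit 0x86ee5ff7) (nat_lit 0x0) (nat_lit 0x2a9ed91c3c552)
  (PL.C (nat_lit 0x8731e809) (nat_lit 0x1bacc20280624) (nat_lit 0x0)
  (PL.C (nat_lit 0x8756c435) (nat_lit 0xf54058d07470a) (nat_lit 0x0) gp0_1_211))))))))))))))))))))

noncomputable def gp0_1_209 : PL :=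
  (PL.C (nat_lit 0x7862568a) (nat_lit 0x0) (nat_lit 0x8573ccc62e4)
  (PL.C (nat_lit 0x7978739f) (nat_lit 0x1d0fd2b157947a) (nat_lit 0x0)
  (PL.C (nat_lit 0x797c0a77) (nat_lit 0x36c7d3f7742b07) (nat_lit 0x0)
  (PL.C (nat_lit 0x79fab9d1) (nat_lit 0x27121b9b334a3) (nat_lit 0x0)
  (PL.C (nat_lit 0x7a1a35cf) (nat_lit 0x0) (nat_lit 0xed328062ef858)
  (PL.C (nat_lit 0x7a87c291) (nat_lit 0x36c7d3ec047b5e) (nat_lit 0x0)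
  (PL.C (nat_lit 0x7b274a79) (nat_lit 0x0) (nat_lit 0x580618a8e2120)
  (PL.C (nat_lit 0x7b5fad5a) (nat_lit 0x0) (nat_lit 0x1746644cfa4e9)
  (PL.C (nat_lit 0x7c870b57) (nat_lit 0x5e49081be159b) (nat_lit 0x0)
  (PL.C (nat_lit 0x7cba6e05) (nat_lit 0x0) (nat_lit 0x3d4807d3a15cf1)
  (PL.C (nat_lit 0x7ccf2313) (nat_lit 0x9c29bf4f1630) (nat_lit 0x0)
  (PL.C (nat_lit 0x7d7f0069) (nat_lit 0x0) (nat_lit 0x343ae9256c7fa)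
  (PL.C (nat_lit 0x7d9d721d) (nat_lit 0x82647e44712e9) (nat_lit 0x0)
  (PL.C (nat_lit 0x7dc78ce9) (nat_lit 0x0) (nat_lit 0xeba3f89009f3f)
  (PL.C (nat_lit 0x7dcd4c13) (nat_lit 0x239c1dbf081fc6) (nat_lit 0x0)
  (PL.C (nat_lit 0x7e242a33) (nat_lit 0x6a35167f2902) (nat_lit 0x0)
  (PL.C (nat_lit 0x7e3214f6) (nat_lit 0x50748a8a20c15) (nat_lit 0x0)
  (PL.C (nat_lit 0x7e4e7227) (nat_lit 0x0) (nat_lit 0xd2a6701d2ac0)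
  (PL.C (nat_lit 0x7eb775d1) (nat_lit 0x0) (nat_lit 0x45d3e613214be)
  (PL.C (nat_lit 0x7f297669) (nat_lit 0x41586a095b5a8a) (nat_lit 0x0) gp0_1_210))))))))))))))))))))

noncomputable def gp0_1_208 : PL :=
  (PL.C (nat_lit 0x71d22211) (nat_lit 0x75b2d464d726e) (nat_lit 0x0)
  (PL.C (nat_lit 0x71d3f853) (nat_lit 0x43b67bd2f383e) (nat_lit 0x0)
  (PL.C (nat_lit 0x7255853b) (nat_lit 0x709c677e48eca3) (nat_lit 0x0)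
  (PL.C (nat_lit 0x72ccf6a7) (nat_lit 0x0) (nat_lit 0xd66e6ffc06551)
  (PL.C (nat_lit 0x72fc1ec7) (nat_lit 0x854e127b3e5c) (nat_lit 0x0)
  (PL.C (nat_lit 0x730eff29) (nat_lit 0x37869bf330c0f5) (nat_lit 0x0)
  (PL.C (nat_lit 0x73258027) (nat_lit 0x0) (nat_lit 0x1f9ccd51ee4e4)
  (PL.C (nat_lit 0x736671d6) (nat_lit 0x0) (nat_lit 0xd32b7ce29e)
  (PL.C (nat_lit 0x73a83779) (nat_lit 0x0) (nat_lit 0x1cd4b051c0d59)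
  (PL.C (nat_lit 0x73bb6aff) (nat_lit 0x0) (nat_lit 0x37cec8df54b6b)
  (PL.C (nat_lit 0x73e3d649) (nat_lit 0x0) (nat_lit 0x49e3ae0532599c)
  (PL.C (nat_lit 0x746986ae) (nat_lit 0x0) (nat_lit 0xbcd90b2cbf8f)
  (PL.C (nat_lit 0x747ab8f1) (nat_lit 0x0) (nat_lit 0x12afbdef59b90)
  (PL.C (nat_lit 0x74a717ff) (nat_lit 0x0) (nat_lit 0x566c421ec3533)
  (PL.C (nat_lit 0x76389115) (nat_lit 0x0) (nat_lit 0x13dc1009b366b1)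
  (PL.C (nat_lit 0x76cea33b) (nat_lit 0x0) (nat_lit 0x76a2f4382bc7c)
  (PL.C (nat_lit 0x76fbfc3b) (nat_lit 0x37869bf15e40c2) (nat_lit 0x0)
  (PL.C (nat_lit 0x7723de0f) (nat_lit 0x7118efc7def6f) (nat_lit 0x0)
  (PL.C (nat_lit 0x775f3cb9) (nat_lit 0xf70f460cb49c5) (nat_lit 0x0)
  (PL.C (nat_lit 0x779c9ed6) (nat_lit 0x0) (nat_lit 0x1347511d0d681) gp0_1_209))))))))))))))))))))

noncomputable def gp0_1_207 : PL :=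
  (PL.C (nat_lit 0x6bd752ae) (nat_lit 0x125ca87497d13c) (nat_lit 0x0)
  (PL.C (nat_lit 0x6be1f2e1) (nat_lit 0x34994ad80093fe) (nat_lit 0x0)
  (PL.C (nat_lit 0x6c05c661) (nat_lit 0x0) (nat_lit 0x58061873da57a)
  (PL.C (nat_lit 0x6c23bc5e) (nat_lit 0x0) (nat_lit 0x16353d6979f24)
  (PL.C (nat_lit 0x6c3d75b1) (nat_lit 0x9c29cbbba1ed) (nat_lit 0x0)
  (PL.C (nat_lit 0x6c94472f) (nat_lit 0x2aff6e030f801) (nat_lit 0x0)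
  (PL.C (nat_lit 0x6cf3d3d7) (nat_lit 0x0) (nat_lit 0xed3280108e3b9)
  (PL.C (nat_lit 0x6d4f04fa) (nat_lit 0x3c1ffcfe7ff85) (nat_lit 0x0)
  (PL.C (nat_lit 0x6ee82583) (nat_lit 0x0) (nat_lit 0x818cb4f722961)
  (PL.C (nat_lit 0x6f30e9ad) (nat_lit 0x201bc653ef8b6) (nat_lit 0x0)
  (PL.C (nat_lit 0x6f71ca21) (nat_lit 0x507d3177cc627) (nat_lit 0x0)
  (PL.C (nat_lit 0x6fdc8e25) (nat_lit 0xa258e68d2e46) (nat_lit 0x0)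
  (PL.C (nat_lit 0x7010fc03) (nat_lit 0x1612e25bf8ce26) (nat_lit 0x0)
  (PL.C (nat_lit 0x70242359) (nat_lit 0x713b35fd9f284b) (nat_lit 0x0)
  (PL.C (nat_lit 0x70676217) (nat_lit 0x0) (nat_lit 0x19348473ddf96)
  (PL.C (nat_lit 0x70a2e43b) (nat_lit 0x0) (nat_lit 0x353fb5c8206e9)
  (PL.C (nat_lit 0x70db43c5) (nat_lit 0x6f2bd67f84524) (nat_lit 0x0)
  (PL.C (nat_lit 0x711223bf) (nat_lit 0x0) (nat_lit 0x4e89954efcb49)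
  (PL.C (nat_lit 0x715d89f7) (nat_lit 0xd5d644ec79ba8) (nat_lit 0x0)
  (PL.C (nat_lit 0x71739e05) (nat_lit 0x9a1b0ed495609) (nat_lit 0x0) gp0_1_208))))))))))))))))))))

noncomputable def gp0_1_206 : PL :=
  (PL.C (nat_lit 0x64fb9cc2) (nat_lit 0x146dda67579d5) (nat_lit 0x0)
  (PL.C (nat_lit 0x65ed5fb3) (nat_lit 0x3591491ef6747) (nat_lit 0x0)
  (PL.C (nat_lit 0x6621eaa3) (nat_lit 0x3fcd9b321911e) (nat_lit 0x0)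
  (PL.C (nat_lit 0x66630831) (nat_lit 0x0) (nat_lit 0x12a05bf253d380)
  (PL.C (nat_lit 0x668a405b) (nat_lit 0x0) (nat_lit 0xacb4f5f4d3e2b)
  (PL.C (nat_lit 0x669e38b1) (nat_lit 0x47a8b4e977ee57) (nat_lit 0x0)
  (PL.C (nat_lit 0x66cdfe75) (nat_lit 0x161429e660cc9) (nat_lit 0x0)
  (PL.C (nat_lit 0x670c46df) (nat_lit 0x81171bd49457) (nat_lit 0x0)
  (PL.C (nat_lit 0x671abcc1) (nat_lit 0x0) (nat_lit 0xd2a66e6e9c1f)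
  (PL.C (nat_lit 0x676a8d8f) (nat_lit 0x0) (nat_lit 0x33a3e7a3d72603)
  (PL.C (nat_lit 0x67d976e1) (nat_lit 0x0) (nat_lit 0x1666377d442777)
  (PL.C (nat_lit 0x686da7c6) (nat_lit 0x0) (nat_lit 0x145483e7e3a97)
  (PL.C (nat_lit 0x6953c98a) (nat_lit 0x50748ab78d023) (nat_lit 0x0)
  (PL.C (nat_lit 0x69a157f1) (nat_lit 0x0) (nat_lit 0x2208509cdccb7)
  (PL.C (nat_lit 0x6a09e551) (nat_lit 0x17826bb52c153) (nat_lit 0x0)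
  (PL.C (nat_lit 0x6a2d704d) (nat_lit 0x25afd705343ac7) (nat_lit 0x0)
  (PL.C (nat_lit 0x6a4ff31f) (nat_lit 0x0) (nat_lit 0x120d7b447d060)
  (PL.C (nat_lit 0x6ab0d0ad) (nat_lit 0x0) (nat_lit 0x68d291a6366fb)
  (PL.C (nat_lit 0x6b0ccadf) (nat_lit 0xfaff2f9f639d2) (nat_lit 0x0)
  (PL.C (nat_lit 0x6b377592) (nat_lit 0x9505e511a2d7) (nat_lit 0x0) gp0_1_207))))))))))))))))))))

noncomputable def gp0_1_205 : PL :=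
  (PL.C (nat_lit 0x60840967) (nat_lit 0xefcc49c453b38) (nat_lit 0x0)
  (PL.C (nat_lit 0x609c0a23) (nat_lit 0x622d05d9f5741) (nat_lit 0x0)
  (PL.C (nat_lit 0x60d3e3a3) (nat_lit 0xa16f4b186c690) (nat_lit 0x0)
  (PL.C (nat_lit 0x60e8dd83) (nat_lit 0x0) (nat_lit 0x1e9b01629cf7af)
  (PL.C (nat_lit 0x61209b8d) (nat_lit 0x45c2872ca824b) (nat_lit 0x0)
  (PL.C (nat_lit 0x61338607) (nat_lit 0x426393e30a04b3) (nat_lit 0x0)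
  (PL.C (nat_lit 0x613bbc0d) (nat_lit 0x0) (nat_lit 0x3372416e30b5)
  (PL.C (nat_lit 0x618b1476) (nat_lit 0x125ca86f445dc5) (nat_lit 0x0)
  (PL.C (nat_lit 0x61b5189d) (nat_lit 0x0) (nat_lit 0x4666de5f819fd)
  (PL.C (nat_lit 0x61d4472d) (nat_lit 0x1612e248180712) (nat_lit 0x0)
  (PL.C (nat_lit 0x61e776ad) (nat_lit 0x3c5099c0c904) (nat_lit 0x0)
  (PL.C (nat_lit 0x61f511b9) (nat_lit 0x7bd1fde3e801de) (nat_lit 0x0)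
  (PL.C (nat_lit 0x624521e6) (nat_lit 0x0) (nat_lit 0x39d2ab1885c96)
  (PL.C (nat_lit 0x625076a3) (nat_lit 0xb221eaf29eeb) (nat_lit 0x0)
  (PL.C (nat_lit 0x62faeaa6) (nat_lit 0x95f7036db622) (nat_lit 0x0)
  (PL.C (nat_lit 0x630119c6) (nat_lit 0x2bdb00b94e83b) (nat_lit 0x0)
  (PL.C (nat_lit 0x63736282) (nat_lit 0x1096dfdf455427) (nat_lit 0x0)
  (PL.C (nat_lit 0x639e87ba) (nat_lit 0x0) (nat_lit 0x39d2ab152b97d)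
  (PL.C (nat_lit 0x63db478a) (nat_lit 0x0) (nat_lit 0xb1f1828849561)
  (PL.C (nat_lit 0x646c4f8b) (nat_lit 0x0) (nat_lit 0x16663781d18d84) gp0_1_206))))))))))))))))))))

noncomputable def gp0_1_204 : PL :=
  (PL.C (nat_lit 0x5b8f5bb9) (nat_lit 0x181a16a3f2847) (nat_lit 0x0)
  (PL.C (nat_lit 0x5bb77005) (nat_lit 0xa5ddfe5ef59be) (nat_lit 0x0)
  (PL.C (nat_lit 0x5bbe8e89) (nat_lit 0x0) (nat_lit 0x3da453f23f07f)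
  (PL.C (nat_lit 0x5c64f55a) (nat_lit 0x1597ebe068f344) (nat_lit 0x0)
  (PL.C (nat_lit 0x5c8cc1bb) (nat_lit 0x0) (nat_lit 0x566c431af234f)
  (PL.C (nat_lit 0x5c9c1f2d) (nat_lit 0x4bf795e8f2490) (nat_lit 0x0)
  (PL.C (nat_lit 0x5cbc772b) (nat_lit 0x0) (nat_lit 0x13dc0ffd5b58e5)
  (PL.C (nat_lit 0x5cdc8b19) (nat_lit 0x0) (nat_lit 0x20d2f325b172a9)
  (PL.C (nat_lit 0x5d47bc93) (nat_lit 0x0) (nat_lit 0x748b45858e601c)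
  (PL.C (nat_lit 0x5d58b62d) (nat_lit 0x0) (nat_lit 0x1cd4af46d4cd2)
  (PL.C (nat_lit 0x5da92f5f) (nat_lit 0x0) (nat_lit 0x8c03c7223e2b8)
  (PL.C (nat_lit 0x5dcfa87f) (nat_lit 0x679bddf6d02c8) (nat_lit 0x0)
  (PL.C (nat_lit 0x5def1a43) (nat_lit 0x25afd70dc89391) (nat_lit 0x0)
  (PL.C (nat_lit 0x5e99f94f) (nat_lit 0x0) (nat_lit 0x49e3ae058ab70b)
  (PL.C (nat_lit 0x5eaa247d) (nat_lit 0x713b3600995380) (nat_lit 0x0)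
  (PL.C (nat_lit 0x5f152467) (nat_lit 0x811713f0b5d3) (nat_lit 0x0)
  (PL.C (nat_lit 0x5f5748ab) (nat_lit 0x0) (nat_lit 0x15f5ed911c0518)
  (PL.C (nat_lit 0x5fc556d9) (nat_lit 0x0) (nat_lit 0x3f3db35d6dfff)
  (PL.C (nat_lit 0x60152015) (nat_lit 0x0) (nat_lit 0x3bcf8b3a6ccf1f)
  (PL.C (nat_lit 0x602963bd) (nat_lit 0xb6733395c8c12) (nat_lit 0x0) gp0_1_205))))))))))))))))))))

noncomputable def gp0_1_203 : PL :=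
  (PL.C (nat_lit 0x579f255b) (nat_lit 0x0) (nat_lit 0x19460ea2eb0e57)
  (PL.C (nat_lit 0x57b8aaab) (nat_lit 0x0) (nat_lit 0xed996a7a357b3)
  (PL.C (nat_lit 0x57c7a8d1) (nat_lit 0x0) (nat_lit 0x1cfccb23556f00)
  (PL.C (nat_lit 0x57fb9f1e) (nat_lit 0x102b4d74ab18b3) (nat_lit 0x0)
  (PL.C (nat_lit 0x58044a69) (nat_lit 0xe609d15671382) (nat_lit 0x0)
  (PL.C (nat_lit 0x5844eb66) (nat_lit 0x0) (nat_lit 0x8dadc5747e07d)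
  (PL.C (nat_lit 0x58603d8d) (nat_lit 0x0) (nat_lit 0x10e0f43c5c2996)
  (PL.C (nat_lit 0x586af0e5) (nat_lit 0x0) (nat_lit 0x193484b6e5553)
  (PL.C (nat_lit 0x5895c827) (nat_lit 0x2db091b2f8441) (nat_lit 0x0)
  (PL.C (nat_lit 0x58a23679) (nat_lit 0x0) (nat_lit 0x2918d9f1ae5bf)
  (PL.C (nat_lit 0x590770ea) (nat_lit 0x0) (nat_lit 0x8dadc3a1a3cef)
  (PL.C (nat_lit 0x592dca33) (nat_lit 0x507d3181bf886) (nat_lit 0x0)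
  (PL.C (nat_lit 0x599e7777) (nat_lit 0x507aea1aab0c8) (nat_lit 0x0)
  (PL.C (nat_lit 0x59f43ffa) (nat_lit 0x102b4d7516ad83) (nat_lit 0x0)
  (PL.C (nat_lit 0x5ab6e041) (nat_lit 0x66e1d5f4ef43e) (nat_lit 0x0)
  (PL.C (nat_lit 0x5ac51f9e) (nat_lit 0x0) (nat_lit 0x1121ff47eb7391)
  (PL.C (nat_lit 0x5ac74e8f) (nat_lit 0x0) (nat_lit 0x28d92e2803f8d)
  (PL.C (nat_lit 0x5af61a3f) (nat_lit 0x36bf2a0c5e0ab) (nat_lit 0x0)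
  (PL.C (nat_lit 0x5b5f1a35) (nat_lit 0x0) (nat_lit 0x59dd303434ce3)
  (PL.C (nat_lit 0x5b7dbaa1) (nat_lit 0x0) (nat_lit 0x1b3f4cfdcd71bc) gp0_1_204))))))))))))))))))))

noncomputable def gp0_1_202 : PL :=
  (PL.C (nat_lit 0x541e5349) (nat_lit 0x0) (nat_lit 0x12afbd829c8c8)
  (PL.C (nat_lit 0x542d2ceb) (nat_lit 0x21910edc7052c) (nat_lit 0x0)
  (PL.C (nat_lit 0x54344c1a) (nat_lit 0x0) (nat_lit 0x4d7b5f9175aae)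
  (PL.C (nat_lit 0x5458915b) (nat_lit 0xab65b6d50fb6b) (nat_lit 0x0)
  (PL.C (nat_lit 0x545f7187) (nat_lit 0xe6a0f7b095c666) (nat_lit 0x0)
  (PL.C (nat_lit 0x54b79623) (nat_lit 0x0) (nat_lit 0x4e2fbacd033f5f)
  (PL.C (nat_lit 0x54b9ee69) (nat_lit 0x4bf7955165f70) (nat_lit 0x0)
  (PL.C (nat_lit 0x54da62c3) (nat_lit 0x0) (nat_lit 0xbcb4f105cd01)
  (PL.C (nat_lit 0x54e6ad7d) (nat_lit 0x0) (nat_lit 0x6630684388d9a)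
  (PL.C (nat_lit 0x5512718d) (nat_lit 0x1e5decfaed8ea) (nat_lit 0x0)
  (PL.C (nat_lit 0x5534aeb6) (nat_lit 0x47a34426ce27f) (nat_lit 0x0)
  (PL.C (nat_lit 0x55a1c6db) (nat_lit 0x21910e827a185) (nat_lit 0x0)
  (PL.C (nat_lit 0x560adfbf) (nat_lit 0x1e5ded7b31e7f) (nat_lit 0x0)
  (PL.C (nat_lit 0x56373a6f) (nat_lit 0x3ddad4f4ef010c) (nat_lit 0x0)
  (PL.C (nat_lit 0x56542073) (nat_lit 0xcc10b75c874c2) (nat_lit 0x0)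
  (PL.C (nat_lit 0x56a02935) (nat_lit 0x0) (nat_lit 0x7a2ade7d1a384c)
  (PL.C (nat_lit 0x56c87d09) (nat_lit 0xab65b70e1536d) (nat_lit 0x0)
  (PL.C (nat_lit 0x56fd109b) (nat_lit 0x0) (nat_lit 0x353fb602ef7e8)
  (PL.C (nat_lit 0x571a38ef) (nat_lit 0x8f55ecb304fcd) (nat_lit 0x0)
  (PL.C (nat_lit 0x574ca60b) (nat_lit 0x0) (nat_lit 0x1b3f4cf5cf859c) gp0_1_203))))))))))))))))))))

noncomputable def gp0_1_201 : PL :=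
  (PL.C (nat_lit 0x50535969) (nat_lit 0x0) (nat_lit 0xb2a9394891440)
  (PL.C (nat_lit 0x505fbfe5) (nat_lit 0x6eb651865b854) (nat_lit 0x0)
  (PL.C (nat_lit 0x508a6e3f) (nat_lit 0x546f0c82d40cf0) (nat_lit 0x0)
  (PL.C (nat_lit 0x50f34ad7) (nat_lit 0x0) (nat_lit 0xa8e43d1b02a90)
  (PL.C (nat_lit 0x5151d136) (nat_lit 0x0) (nat_lit 0x8573f9e3280)
  (PL.C (nat_lit 0x5166ce8a) (nat_lit 0x0) (nat_lit 0x118f0b42cd5434)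
  (PL.C (nat_lit 0x51bcd76f) (nat_lit 0x15bfcf8cfa1355) (nat_lit 0x0)
  (PL.C (nat_lit 0x520d9263) (nat_lit 0x0) (nat_lit 0x24550a07be1153)
  (PL.C (nat_lit 0x521a31a6) (nat_lit 0x25c7b7f58a7e4d) (nat_lit 0x0)
  (PL.C (nat_lit 0x52a57821) (nat_lit 0x6e214d749bba) (nat_lit 0x0)
  (PL.C (nat_lit 0x52b0f45d) (nat_lit 0x0) (nat_lit 0x77cde1f4507486)
  (PL.C (nat_lit 0x52c12bdd) (nat_lit 0xefcc4a0217d23) (nat_lit 0x0)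
  (PL.C (nat_lit 0x5304b23a) (nat_lit 0x0) (nat_lit 0x8869baaf7fa1f)
  (PL.C (nat_lit 0x530ce04b) (nat_lit 0x600f00bf4718) (nat_lit 0x0)
  (PL.C (nat_lit 0x5319ec73) (nat_lit 0x0) (nat_lit 0x343ae97466832)
  (PL.C (nat_lit 0x53962865) (nat_lit 0x0) (nat_lit 0x21cb22ff78166)
  (PL.C (nat_lit 0x53aa0046) (nat_lit 0x0) (nat_lit 0x21474e03fb42b)
  (PL.C (nat_lit 0x53ce09f5) (nat_lit 0x58cbf375702eb) (nat_lit 0x0)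
  (PL.C (nat_lit 0x53fe7c75) (nat_lit 0x0) (nat_lit 0xb996071a41a5e)
  (PL.C (nat_lit 0x54181c22) (nat_lit 0x0) (nat_lit 0xbcd911c3ebb0) gp0_1_202))))))))))))))))))))

noncomputable def gp0_1_200 : PL :=
  (PL.C (nat_lit 0x4e48a717) (nat_lit 0x103f6fdf52ac6) (nat_lit 0x0)
  (PL.C (nat_lit 0x4e5a8b21) (nat_lit 0x0) (nat_lit 0x3f3db1bdee39a)
  (PL.C (nat_lit 0x4e62e47b) (nat_lit 0x0) (nat_lit 0x77cde1ea1bb785)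
  (PL.C (nat_lit 0x4e63bb3d) (nat_lit 0x11784f28b104273) (nat_lit 0x0)
  (PL.C (nat_lit 0x4eae936f) (nat_lit 0x5e49075ed1b2c) (nat_lit 0x0)
  (PL.C (nat_lit 0x4eb59fb1) (nat_lit 0x4d1d35dc5eeabe) (nat_lit 0x0)
  (PL.C (nat_lit 0x4ebe381f) (nat_lit 0x0) (nat_lit 0x32462ffaa8fca3)
  (PL.C (nat_lit 0x4ed5f491) (nat_lit 0x118430c91c97b) (nat_lit 0x0)
  (PL.C (nat_lit 0x4f107b1b) (nat_lit 0x0) (nat_lit 0x518d26722bba03)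
  (PL.C (nat_lit 0x4f346cd2) (nat_lit 0x95f70235a9be) (nat_lit 0x0)
  (PL.C (nat_lit 0x4f4b808f) (nat_lit 0x0) (nat_lit 0xeba3f8d7e99af)
  (PL.C (nat_lit 0x4f5f38eb) (nat_lit 0x67ac2708d89a7) (nat_lit 0x0)
  (PL.C (nat_lit 0x4f631407) (nat_lit 0x0) (nat_lit 0x102fca6f5406e5)
  (PL.C (nat_lit 0x4f83b027) (nat_lit 0x240316b65d041) (nat_lit 0x0)
  (PL.C (nat_lit 0x4f8f7523) (nat_lit 0x0) (nat_lit 0x97c9502f322df)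
  (PL.C (nat_lit 0x4f94d326) (nat_lit 0x1096dfd908a505) (nat_lit 0x0)
  (PL.C (nat_lit 0x4f9caa85) (nat_lit 0x2a1d961ee14e95) (nat_lit 0x0)
  (PL.C (nat_lit 0x4feb4c01) (nat_lit 0x0) (nat_lit 0xe1a1c796590700)
  (PL.C (nat_lit 0x4ff20c4b) (nat_lit 0x0) (nat_lit 0x1005a2c9304d61)
  (PL.C (nat_lit 0x503ec985) (nat_lit 0x0) (nat_lit 0x2540a4e7084123) gp0_1_201))))))))))))))))))))

noncomputable def gp0_1_199 : PL :=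
  (PL.C (nat_lit 0x4ac79503) (nat_lit 0x13d7a9d1e04fce) (nat_lit 0x0)
  (PL.C (nat_lit 0x4ae0a5b7) (nat_lit 0x13d702289b4031) (nat_lit 0x0)
  (PL.C (nat_lit 0x4aef96ba) (nat_lit 0x4c865f6323f42) (nat_lit 0x0)
  (PL.C (nat_lit 0x4b1742d2) (nat_lit 0x305d793d4b278) (nat_lit 0x0)
  (PL.C (nat_lit 0x4b616d2a) (nat_lit 0x47a344bb8d365) (nat_lit 0x0)
  (PL.C (nat_lit 0x4b68da93) (nat_lit 0x0) (nat_lit 0x11725f157057da)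
  (PL.C (nat_lit 0x4b75be09) (nat_lit 0x32e3524ba386e4) (nat_lit 0x0)
  (PL.C (nat_lit 0x4bc06007) (nat_lit 0x1706e3e9609841) (nat_lit 0x0)
  (PL.C (nat_lit 0x4c3f78bd) (nat_lit 0x0) (nat_lit 0x1f9ccee68e0da)
  (PL.C (nat_lit 0x4c50e5ab) (nat_lit 0x0) (nat_lit 0x32462ff54a03b5)
  (PL.C (nat_lit 0x4ca2be85) (nat_lit 0x0) (nat_lit 0x12a05beb314c56)
  (PL.C (nat_lit 0x4cc9197b) (nat_lit 0x0) (nat_lit 0xe3a2129d972c8)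
  (PL.C (nat_lit 0x4ce2d64f) (nat_lit 0x0) (nat_lit 0x1e9b01612e3370)
  (PL.C (nat_lit 0x4d279caa) (nat_lit 0x3d92b0771769d) (nat_lit 0x0)
  (PL.C (nat_lit 0x4d3b96e5) (nat_lit 0x0) (nat_lit 0x33a3e79c11e63a)
  (PL.C (nat_lit 0x4d72506d) (nat_lit 0x409a2ced4177c) (nat_lit 0x0)
  (PL.C (nat_lit 0x4d8c45f9) (nat_lit 0x0) (nat_lit 0x3bcf8b3cb7840d)
  (PL.C (nat_lit 0x4da725f6) (nat_lit 0x0) (nat_lit 0xdc62d6c3e1ed0)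
  (PL.C (nat_lit 0x4dc4baaa) (nat_lit 0x0) (nat_lit 0x34c8cd18d0a8e)
  (PL.C (nat_lit 0x4e09a657) (nat_lit 0x2b434190915d5) (nat_lit 0x0) gp0_1_200))))))))))))))))))))

noncomputable def gp0_1_198 : PL :=
  (PL.C (nat_lit 0x484ff6c1) (nat_lit 0xe520bc32dfec) (nat_lit 0x0)
  (PL.C (nat_lit 0x48972693) (nat_lit 0x0) (nat_lit 0xed996a9a43a5f)
  (PL.C (nat_lit 0x48a28d3a) (nat_lit 0x0) (nat_lit 0x118f0b4236ebe9)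
  (PL.C (nat_lit 0x48a7bd85) (nat_lit 0x0) (nat_lit 0x2bb961db97cea)
  (PL.C (nat_lit 0x48c78e6b) (nat_lit 0x3fcd9b8b224fa) (nat_lit 0x0)
  (PL.C (nat_lit 0x48cc1a7b) (nat_lit 0xb67335345f29e) (nat_lit 0x0)
  (PL.C (nat_lit 0x48dff37f) (nat_lit 0x9135ffa4775527) (nat_lit 0x0)
  (PL.C (nat_lit 0x492022c9) (nat_lit 0x47a8b4d17cd30a) (nat_lit 0x0)
  (PL.C (nat_lit 0x493fdc45) (nat_lit 0x0) (nat_lit 0x45d3e61498410)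
  (PL.C (nat_lit 0x49507227) (nat_lit 0x12d918c273b72d) (nat_lit 0x0)
  (PL.C (nat_lit 0x496c876d) (nat_lit 0x0) (nat_lit 0x15f5ed8b487ea6)
  (PL.C (nat_lit 0x49e26d99) (nat_lit 0x0) (nat_lit 0x7f942ae93b9b3)
  (PL.C (nat_lit 0x49f01902) (nat_lit 0x0) (nat_lit 0xb1f182c8d70af)
  (PL.C (nat_lit 0x49f76207) (nat_lit 0x0) (nat_lit 0x3fabad14ce48d)
  (PL.C (nat_lit 0x4a37bc17) (nat_lit 0x0) (nat_lit 0x24550a1b706017)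
  (PL.C (nat_lit 0x4a4bdc16) (nat_lit 0x0) (nat_lit 0x25cc7f5d8f94ec)
  (PL.C (nat_lit 0x4a4cc3cd) (nat_lit 0x4991d0c9c63b8) (nat_lit 0x0)
  (PL.C (nat_lit 0x4a8754d9) (nat_lit 0x0) (nat_lit 0x68d291a495aa8)
  (PL.C (nat_lit 0x4a93096e) (nat_lit 0x2bdb0069501dd) (nat_lit 0x0)
  (PL.C (nat_lit 0x4a9a6281) (nat_lit 0x0) (nat_lit 0x25024b8ca90399) gp0_1_199))))))))))))))))))))

noncomputable def gp0_1_197 : PL :=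
  (PL.C (nat_lit 0x45f24acb) (nat_lit 0x58cbf3b6832c8) (nat_lit 0x0)
  (PL.C (nat_lit 0x463205f1) (nat_lit 0x66e1d41db0b5f) (nat_lit 0x0)
  (PL.C (nat_lit 0x463e0543) (nat_lit 0x0) (nat_lit 0x1cfccb22944ae0)
  (PL.C (nat_lit 0x464cd0f1) (nat_lit 0x0) (nat_lit 0x630d8ccc100bae)
  (PL.C (nat_lit 0x466b8ff6) (nat_lit 0x0) (nat_lit 0x6fffc0480e1a3)
  (PL.C (nat_lit 0x46dff76a) (nat_lit 0x37d89000b20fa) (nat_lit 0x0)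
  (PL.C (nat_lit 0x46e77309) (nat_lit 0x0) (nat_lit 0x518d265455120c)
  (PL.C (nat_lit 0x471027e7) (nat_lit 0x0) (nat_lit 0xc3048275f62f0)
  (PL.C (nat_lit 0x47208b1e) (nat_lit 0x0) (nat_lit 0xcd1da650ddd9)
  (PL.C (nat_lit 0x47337e07) (nat_lit 0x16142a76c25a3) (nat_lit 0x0)
  (PL.C (nat_lit 0x47394be3) (nat_lit 0xe6a0f7aff1bb1b) (nat_lit 0x0)
  (PL.C (nat_lit 0x474b5bab) (nat_lit 0x0) (nat_lit 0xcb5ed10d5bc3f)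
  (PL.C (nat_lit 0x47701c1b) (nat_lit 0x0) (nat_lit 0x448cb949ef35c)
  (PL.C (nat_lit 0x4783b3ef) (nat_lit 0x11784f27f98d1f8) (nat_lit 0x0)
  (PL.C (nat_lit 0x479da7d9) (nat_lit 0x0) (nat_lit 0x76954b4527bd35)
  (PL.C (nat_lit 0x47b91693) (nat_lit 0x0) (nat_lit 0x2c4070501fb5d)
  (PL.C (nat_lit 0x47d06681) (nat_lit 0x3591497e54e3e) (nat_lit 0x0)
  (PL.C (nat_lit 0x47e878bd) (nat_lit 0x815fa4692d1a) (nat_lit 0x0)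
  (PL.C (nat_lit 0x4803d996) (nat_lit 0x25c7b7f9dd4def) (nat_lit 0x0)
  (PL.C (nat_lit 0x48499fbd) (nat_lit 0x0) (nat_lit 0x49433c7b176061) gp0_1_198))))))))))))))))))))

noncomputable def gp0_1_196 : PL :=
  (PL.C (nat_lit 0x43347559) (nat_lit 0x0) (nat_lit 0x34407246ef9042)
  (PL.C (nat_lit 0x4376d5c5) (nat_lit 0x0) (nat_lit 0x49433c745043ad)
  (PL.C (nat_lit 0x437c88b7) (nat_lit 0x0) (nat_lit 0x3ce06b6e7d201)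
  (PL.C (nat_lit 0x4393279b) (nat_lit 0x0) (nat_lit 0x2ace812a366ca5)
  (PL.C (nat_lit 0x43a38c37) (nat_lit 0x0) (nat_lit 0x338b951477aee)
  (PL.C (nat_lit 0x43bd5059) (nat_lit 0x1071a092e49e303) (nat_lit 0x0)
  (PL.C (nat_lit 0x43cc798b) (nat_lit 0x0) (nat_lit 0x37cec8eec7ab3)
  (PL.C (nat_lit 0x43ec16b9) (nat_lit 0x67ac26f53634f) (nat_lit 0x0)
  (PL.C (nat_lit 0x43efe195) (nat_lit 0x7118eef8d8aa5) (nat_lit 0x0)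
  (PL.C (nat_lit 0x43f39522) (nat_lit 0x2b74358066d69) (nat_lit 0x0)
  (PL.C (nat_lit 0x443b66d3) (nat_lit 0x0) (nat_lit 0x4045de97ff438)
  (PL.C (nat_lit 0x44420576) (nat_lit 0x6f1c3fb82d375) (nat_lit 0x0)
  (PL.C (nat_lit 0x4478c99b) (nat_lit 0x0) (nat_lit 0x11bb1cb20644caf)
  (PL.C (nat_lit 0x4489544e) (nat_lit 0xeedc8050170a9) (nat_lit 0x0)
  (PL.C (nat_lit 0x44b2d9ea) (nat_lit 0x0) (nat_lit 0x4807712b755d0)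
  (PL.C (nat_lit 0x44bc7dd6) (nat_lit 0x0) (nat_lit 0x4d7b5fd4292c4)
  (PL.C (nat_lit 0x44d1ef93) (nat_lit 0x0) (nat_lit 0x1e23d5964a856d)
  (PL.C (nat_lit 0x44da196d) (nat_lit 0x0) (nat_lit 0x120d7b52538f2)
  (PL.C (nat_lit 0x453ba496) (nat_lit 0x2bdd6a40aafd0) (nat_lit 0x0)
  (PL.C (nat_lit 0x45db9611) (nat_lit 0x709c6788c48389) (nat_lit 0x0) gp0_1_197))))))))))))))))))))

noncomputable def gp0_1_195 : PL :=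
  (PL.C (nat_lit 0x4176699d) (nat_lit 0x75b2d4d5560ff) (nat_lit 0x0)
  (PL.C (nat_lit 0x418af9c2) (nat_lit 0x0) (nat_lit 0x134751052b641)
  (PL.C (nat_lit 0x41b5afb7) (nat_lit 0x2ff89b598d1913) (nat_lit 0x0)
  (PL.C (nat_lit 0x41bf580d) (nat_lit 0x11d19e5b166119) (nat_lit 0x0)
  (PL.C (nat_lit 0x41e03ff3) (nat_lit 0x0) (nat_lit 0x102fca75401f47)
  (PL.C (nat_lit 0x41fa5513) (nat_lit 0xb534bb817259b4) (nat_lit 0x0)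
  (PL.C (nat_lit 0x4205db43) (nat_lit 0x0) (nat_lit 0x21e1e278a584)
  (PL.C (nat_lit 0x420b3d0f) (nat_lit 0x0) (nat_lit 0x48609ed1fd8a8c)
  (PL.C (nat_lit 0x42248965) (nat_lit 0x9a1b105c6e6e1) (nat_lit 0x0)
  (PL.C (nat_lit 0x422b95a7) (nat_lit 0x7bd1fdec7ef6c6) (nat_lit 0x0)
  (PL.C (nat_lit 0x422c4af1) (nat_lit 0x0) (nat_lit 0x4e2fbad306b56d)
  (PL.C (nat_lit 0x42503bcb) (nat_lit 0x1cab301faa3d86) (nat_lit 0x0)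
  (PL.C (nat_lit 0x42716c35) (nat_lit 0x4d1d35d82ecc2f) (nat_lit 0x0)
  (PL.C (nat_lit 0x4281bc7f) (nat_lit 0x8f55eccf64099) (nat_lit 0x0)
  (PL.C (nat_lit 0x42975a65) (nat_lit 0x157b763ae4553) (nat_lit 0x0)
  (PL.C (nat_lit 0x42be1ec7) (nat_lit 0x0) (nat_lit 0xb996078f4636a)
  (PL.C (nat_lit 0x42f2dfb2) (nat_lit 0x2bdd6a28c62db) (nat_lit 0x0)
  (PL.C (nat_lit 0x4303d863) (nat_lit 0x2b434183f42f8) (nat_lit 0x0)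
  (PL.C (nat_lit 0x430da3a5) (nat_lit 0x26c85e4711ce5) (nat_lit 0x0)
  (PL.C (nat_lit 0x43294eef) (nat_lit 0x1071a0925580f33) (nat_lit 0x0) gp0_1_196))))))))))))))))))))

noncomputable def gp0_1_194 : PL :=
  (PL.C (nat_lit 0x3e51399d) (nat_lit 0x0) (nat_lit 0xcdeeeaefd2304)
  (PL.C (nat_lit 0x3e66fd3b) (nat_lit 0x0) (nat_lit 0x48c5efd1861f34)
  (PL.C (nat_lit 0x3e8ec639) (nat_lit 0x0) (nat_lit 0xbda12ce8a6630)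
  (PL.C (nat_lit 0x3ea6bcb3) (nat_lit 0x426393e6025a92) (nat_lit 0x0)
  (PL.C (nat_lit 0x3eb83c33) (nat_lit 0x0) (nat_lit 0x27d41514c9e93)
  (PL.C (nat_lit 0x3ed0209d) (nat_lit 0x1a43bf835ed19b) (nat_lit 0x0)
  (PL.C (nat_lit 0x3f636d9a) (nat_lit 0x0) (nat_lit 0x480770949275e)
  (PL.C (nat_lit 0x3fa84e1f) (nat_lit 0x0) (nat_lit 0x8b15c3795368e1)
  (PL.C (nat_lit 0x3fd83381) (nat_lit 0x157b76423af49) (nat_lit 0x0)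
  (PL.C (nat_lit 0x3ff91cd1) (nat_lit 0x0) (nat_lit 0x3ce06b43beec3)
  (PL.C (nat_lit 0x401187d1) (nat_lit 0x3098a34615478e) (nat_lit 0x0)
  (PL.C (nat_lit 0x4064e5b7) (nat_lit 0x0) (nat_lit 0x21e1e59a04c0)
  (PL.C (nat_lit 0x406806c2) (nat_lit 0x0) (nat_lit 0x10c5521f6e6ca2)
  (PL.C (nat_lit 0x406c2f97) (nat_lit 0x0) (nat_lit 0x748b4582a7968b)
  (PL.C (nat_lit 0x40730ced) (nat_lit 0x546f0c7d478829) (nat_lit 0x0)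
  (PL.C (nat_lit 0x40c6f635) (nat_lit 0x0) (nat_lit 0x76954b4742f12d)
  (PL.C (nat_lit 0x40d27d5e) (nat_lit 0x0) (nat_lit 0x334b9949f4901)
  (PL.C (nat_lit 0x40e761cb) (nat_lit 0x0) (nat_lit 0xd66e6fdccf732)
  (PL.C (nat_lit 0x412365be) (nat_lit 0x0) (nat_lit 0x1121ff4162afaa)
  (PL.C (nat_lit 0x416a2d05) (nat_lit 0x0) (nat_lit 0x11dd717cb79f07e) gp0_1_195))))))))))))))))))))

noncomputable def gp0_1_193 : PL :=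
  (PL.C (nat_lit 0x3c837f51) (nat_lit 0x3286fdb920c1) (nat_lit 0x0)
  (PL.C (nat_lit 0x3c84df0a) (nat_lit 0x0) (nat_lit 0x3c50b4d1cf131)
  (PL.C (nat_lit 0x3c866fe5) (nat_lit 0x0) (nat_lit 0x10868e2a24ec24)
  (PL.C (nat_lit 0x3cb39e71) (nat_lit 0x0) (nat_lit 0xcb5ed0cf39b0f)
  (PL.C (nat_lit 0x3d05a171) (nat_lit 0x0) (nat_lit 0xe1a1c7a7bf3b1f)
  (PL.C (nat_lit 0x3d0a3d26) (nat_lit 0x3efc79e404c37) (nat_lit 0x0)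
  (PL.C (nat_lit 0x3d0afb85) (nat_lit 0x0) (nat_lit 0x338b94da51b4c)
  (PL.C (nat_lit 0x3d16deef) (nat_lit 0x0) (nat_lit 0x482dffc2c13e)
  (PL.C (nat_lit 0x3d49c393) (nat_lit 0x0) (nat_lit 0xc9b728d74d873)
  (PL.C (nat_lit 0x3d551459) (nat_lit 0x0) (nat_lit 0xc304830fa8eb2)
  (PL.C (nat_lit 0x3d5b9d63) (nat_lit 0x175f2b2680edb2) (nat_lit 0x0)
  (PL.C (nat_lit 0x3d8487bb) (nat_lit 0x0) (nat_lit 0x448cb935cdaaa)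
  (PL.C (nat_lit 0x3d9082d1) (nat_lit 0xbdbf928fc59e30) (nat_lit 0x0)
  (PL.C (nat_lit 0x3db32bd2) (nat_lit 0x12815c81c12549) (nat_lit 0x0)
  (PL.C (nat_lit 0x3dbd6a1e) (nat_lit 0x0) (nat_lit 0xc7bdab21fe9cc)
  (PL.C (nat_lit 0x3dd0d395) (nat_lit 0x0) (nat_lit 0x7412ba96cc290)
  (PL.C (nat_lit 0x3dd57e19) (nat_lit 0x0) (nat_lit 0x14f784208e9e5)
  (PL.C (nat_lit 0x3dea37f5) (nat_lit 0x0) (nat_lit 0x2918d9f8a3b5a)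
  (PL.C (nat_lit 0x3e008015) (nat_lit 0x0) (nat_lit 0x2c58cdb263c023)
  (PL.C (nat_lit 0x3e3b241e) (nat_lit 0x0) (nat_lit 0x20366675638dd) gp0_1_194))))))))))))))))))))

noncomputable def gp0_1_192 : PL :=
  (PL.C (nat_lit 0x3a487a73) (nat_lit 0x0) (nat_lit 0x712fceeacd946)
  (PL.C (nat_lit 0x3a6da321) (nat_lit 0x3a4a779a9fbc41) (nat_lit 0x0)
  (PL.C (nat_lit 0x3a7b1c72) (nat_lit 0x0) (nat_lit 0x270355c60b7b19)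
  (PL.C (nat_lit 0x3a851b36) (nat_lit 0x0) (nat_lit 0xc34f345f4c49e)
  (PL.C (nat_lit 0x3a9e503d) (nat_lit 0x7e4a013a994b0) (nat_lit 0x0)
  (PL.C (nat_lit 0x3aaaad25) (nat_lit 0x7b27c17b78391) (nat_lit 0x0)
  (PL.C (nat_lit 0x3af1f5ee) (nat_lit 0x4c865f1afff32) (nat_lit 0x0)
  (PL.C (nat_lit 0x3b1f7e1b) (nat_lit 0x7e4a01cec3cb7) (nat_lit 0x0)
  (PL.C (nat_lit 0x3b6f5f1b) (nat_lit 0x2ff89b5e3d66f1) (nat_lit 0x0)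
  (PL.C (nat_lit 0x3b73dc22) (nat_lit 0x0) (nat_lit 0x25cc7f5c1ed559)
  (PL.C (nat_lit 0x3bbcc113) (nat_lit 0x3a4a77982c9677) (nat_lit 0x0)
  (PL.C (nat_lit 0x3bcb37f3) (nat_lit 0x0) (nat_lit 0x1be96f16d45f8)
  (PL.C (nat_lit 0x3bdaa6ed) (nat_lit 0x0) (nat_lit 0x8c03c8611c252)
  (PL.C (nat_lit 0x3bfd03c3) (nat_lit 0x0) (nat_lit 0x2bb961cb93782)
  (PL.C (nat_lit 0x3c0231c3) (nat_lit 0x0) (nat_lit 0x44d877f27df0a)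
  (PL.C (nat_lit 0x3c2efd97) (nat_lit 0x815fa20f807e) (nat_lit 0x0)
  (PL.C (nat_lit 0x3c4776e1) (nat_lit 0xde970d1991894) (nat_lit 0x0)
  (PL.C (nat_lit 0x3c4e03c7) (nat_lit 0x489affd1177710) (nat_lit 0x0)
  (PL.C (nat_lit 0x3c5e8deb) (nat_lit 0x0) (nat_lit 0x20d2f338f4763e)
  (PL.C (nat_lit 0x3c623a6b) (nat_lit 0x0) (nat_lit 0xb5e744b0502da) gp0_1_193))))))))))))))))))))

noncomputable def gp0_1_191 : PL :=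
  (PL.C (nat_lit 0x384c36cd) (nat_lit 0x10cdb03f7878de4) (nat_lit 0x0)
  (PL.C (nat_lit 0x387bf446) (nat_lit 0x0) (nat_lit 0xc7bdab180a66b)
  (PL.C (nat_lit 0x38958315) (nat_lit 0x0) (nat_lit 0x3abbd4ab17d0f4)
  (PL.C (nat_lit 0x38b1d4eb) (nat_lit 0x0) (nat_lit 0x2c0b0a480b90af)
  (PL.C (nat_lit 0x38b6f65e) (nat_lit 0x16ee3e8ef9d485) (nat_lit 0x0)
  (PL.C (nat_lit 0x38bb3e7d) (nat_lit 0x0) (nat_lit 0x712fcede7b2c9)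
  (PL.C (nat_lit 0x38e0b933) (nat_lit 0x0) (nat_lit 0x1de1919719c372)
  (PL.C (nat_lit 0x39190553) (nat_lit 0xe520c5f055b3) (nat_lit 0x0)
  (PL.C (nat_lit 0x392c28c7) (nat_lit 0x14bcf2b0b09b85) (nat_lit 0x0)
  (PL.C (nat_lit 0x392ec57d) (nat_lit 0x48e54d3abbf50) (nat_lit 0x0)
  (PL.C (nat_lit 0x393ebdfd) (nat_lit 0x0) (nat_lit 0x8d8d0ea7a4457)
  (PL.C (nat_lit 0x394ec0db) (nat_lit 0x0) (nat_lit 0xa8e43cf0ed48a)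
  (PL.C (nat_lit 0x395c952a) (nat_lit 0x16ee3e90ee1be7) (nat_lit 0x0)
  (PL.C (nat_lit 0x39a46d3d) (nat_lit 0x38ddf1aa4187e) (nat_lit 0x0)
  (PL.C (nat_lit 0x39cd0747) (nat_lit 0x0) (nat_lit 0x11bb1cacd353cb4)
  (PL.C (nat_lit 0x39dafe06) (nat_lit 0x16b98f68f64121) (nat_lit 0x0)
  (PL.C (nat_lit 0x39fe0b12) (nat_lit 0x305d790185eeb) (nat_lit 0x0)
  (PL.C (nat_lit 0x3a117b4a) (nat_lit 0x2007a0ffa3eec4) (nat_lit 0x0)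
  (PL.C (nat_lit 0x3a173403) (nat_lit 0x44483055684d41) (nat_lit 0x0)
  (PL.C (nat_lit 0x3a2a7e83) (nat_lit 0x1c06abb20b0742) (nat_lit 0x0) gp0_1_192))))))))))))))))))))

noncomputable def gp0_1_190 : PL :=
  (PL.C (nat_lit 0x36428ff7) (nat_lit 0x0) (nat_lit 0xb2a939270500f)
  (PL.C (nat_lit 0x3685e71d) (nat_lit 0x0) (nat_lit 0x2389cf5fba1168)
  (PL.C (nat_lit 0x36e24739) (nat_lit 0x0) (nat_lit 0xa6e2d126dafc7)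
  (PL.C (nat_lit 0x36fe9209) (nat_lit 0x0) (nat_lit 0x9642608e1083)
  (PL.C (nat_lit 0x3721a1f3) (nat_lit 0x0) (nat_lit 0x3e2c71cbd41ffe)
  (PL.C (nat_lit 0x3736c031) (nat_lit 0x13d7a9db5ae6db) (nat_lit 0x0)
  (PL.C (nat_lit 0x373861d9) (nat_lit 0xb534bb4d431f55) (nat_lit 0x0)
  (PL.C (nat_lit 0x375b3a3f) (nat_lit 0x0) (nat_lit 0xb711f17753e1)
  (PL.C (nat_lit 0x37669da2) (nat_lit 0x0) (nat_lit 0x21474e8338522)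
  (PL.C (nat_lit 0x3771f75f) (nat_lit 0x0) (nat_lit 0x337241457794)
  (PL.C (nat_lit 0x377e7ab7) (nat_lit 0x0) (nat_lit 0x2208503232327)
  (PL.C (nat_lit 0x37804701) (nat_lit 0x7b27c1edf1d0d) (nat_lit 0x0)
  (PL.C (nat_lit 0x378f68cd) (nat_lit 0x0) (nat_lit 0x498ebe37c7b5e)
  (PL.C (nat_lit 0x37af874d) (nat_lit 0x4a622caa2b7748) (nat_lit 0x0)
  (PL.C (nat_lit 0x37b2129f) (nat_lit 0x0) (nat_lit 0x11dd71802a7a22d)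
  (PL.C (nat_lit 0x37deb14e) (nat_lit 0xe0d00148df7bf) (nat_lit 0x0)
  (PL.C (nat_lit 0x37eb4003) (nat_lit 0x0) (nat_lit 0x384180ae922309)
  (PL.C (nat_lit 0x37fa9637) (nat_lit 0x1c06abbcad67c6) (nat_lit 0x0)
  (PL.C (nat_lit 0x38143786) (nat_lit 0x0) (nat_lit 0xdc62d6a69773b)
  (PL.C (nat_lit 0x383b0b92) (nat_lit 0x16b98f6199e769) (nat_lit 0x0) gp0_1_191))))))))))))))))))))

noncomputable def gp0_1_189 : PL :=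
  (PL.C (nat_lit 0x33655611) (nat_lit 0x0) (nat_lit 0x1e23d5865b760d)
  (PL.C (nat_lit 0x3391a4eb) (nat_lit 0x3f10487e05fb77) (nat_lit 0x0)
  (PL.C (nat_lit 0x33a51f3b) (nat_lit 0x149977b2d0cad6) (nat_lit 0x0)
  (PL.C (nat_lit 0x33bc9b1f) (nat_lit 0x0) (nat_lit 0x6fc4266e84a49b)
  (PL.C (nat_lit 0x33f853d5) (nat_lit 0x11bb7b093e389c3) (nat_lit 0x0)
  (PL.C (nat_lit 0x34054089) (nat_lit 0xf6b6a1434c78f) (nat_lit 0x0)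
  (PL.C (nat_lit 0x342e9ea9) (nat_lit 0x86e8071ed0e4b1) (nat_lit 0x0)
  (PL.C (nat_lit 0x344ca287) (nat_lit 0x3098a3499a09ed) (nat_lit 0x0)
  (PL.C (nat_lit 0x3456dd29) (nat_lit 0x3fa0ff8cf5e05d) (nat_lit 0x0)
  (PL.C (nat_lit 0x3474624a) (nat_lit 0x0) (nat_lit 0x8869bade91d02)
  (PL.C (nat_lit 0x34ad6167) (nat_lit 0x4ffb7e6094c83d) (nat_lit 0x0)
  (PL.C (nat_lit 0x34bf098b) (nat_lit 0x0) (nat_lit 0x28de44fd477e3e)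
  (PL.C (nat_lit 0x34d9525d) (nat_lit 0x0) (nat_lit 0x48609ed6081879)
  (PL.C (nat_lit 0x34ea25f2) (nat_lit 0xfb9c419e2a32) (nat_lit 0x0)
  (PL.C (nat_lit 0x354c0832) (nat_lit 0x0) (nat_lit 0xabf5da97ecb58)
  (PL.C (nat_lit 0x358ce646) (nat_lit 0x0) (nat_lit 0x1ca10e66b1b2f5)
  (PL.C (nat_lit 0x3598e183) (nat_lit 0x1bc2dda8cd35b5) (nat_lit 0x0)
  (PL.C (nat_lit 0x35f7873a) (nat_lit 0xe651c82660c8) (nat_lit 0x0)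
  (PL.C (nat_lit 0x3600d5d5) (nat_lit 0x0) (nat_lit 0x802d164a4f3ff)
  (PL.C (nat_lit 0x3612efc1) (nat_lit 0x0) (nat_lit 0xe5baf65fe7153) gp0_1_190))))))))))))))))))))

noncomputable def gp0_1_188 : PL :=
  (PL.C (nat_lit 0x31419e66) (nat_lit 0x0) (nat_lit 0xb378201ec6d51)
  (PL.C (nat_lit 0x3143b343) (nat_lit 0x0) (nat_lit 0x16ce18f8a84fc9)
  (PL.C (nat_lit 0x31861a79) (nat_lit 0x11d19e4f3b6349) (nat_lit 0x0)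
  (PL.C (nat_lit 0x31af8de6) (nat_lit 0x0) (nat_lit 0xcd1da98edfe6)
  (PL.C (nat_lit 0x31dde967) (nat_lit 0x0) (nat_lit 0xf468c3e3fc827)
  (PL.C (nat_lit 0x320099ab) (nat_lit 0x3e09bb37b35563) (nat_lit 0x0)
  (PL.C (nat_lit 0x320f29fb) (nat_lit 0x0) (nat_lit 0x3abbd4b3b796b7)
  (PL.C (nat_lit 0x32136489) (nat_lit 0x22b61de1d7614a) (nat_lit 0x0)
  (PL.C (nat_lit 0x323a51d9) (nat_lit 0x0) (nat_lit 0xe6d8bc9bb7f526)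
  (PL.C (nat_lit 0x326ecabd) (nat_lit 0x0) (nat_lit 0xec10d609af01d)
  (PL.C (nat_lit 0x3283821d) (nat_lit 0x15bfcf889f71c1) (nat_lit 0x0)
  (PL.C (nat_lit 0x328a98c3) (nat_lit 0x2aff6e4480979) (nat_lit 0x0)
  (PL.C (nat_lit 0x32a8160f) (nat_lit 0xac647b75a1cfc) (nat_lit 0x0)
  (PL.C (nat_lit 0x32e81723) (nat_lit 0xcc10b74dc4311) (nat_lit 0x0)
  (PL.C (nat_lit 0x32f0728d) (nat_lit 0x4ffb7ea0ec9088) (nat_lit 0x0)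
  (PL.C (nat_lit 0x32f92757) (nat_lit 0x306226309fc0800) (nat_lit 0x0)
  (PL.C (nat_lit 0x331729ae) (nat_lit 0x6f1c3ff9571af) (nat_lit 0x0)
  (PL.C (nat_lit 0x3317b839) (nat_lit 0x318b53b67feed) (nat_lit 0x0)
  (PL.C (nat_lit 0x3332c4d5) (nat_lit 0xa8d55274ea020) (nat_lit 0x0)
  (PL.C (nat_lit 0x3334481d) (nat_lit 0x0) (nat_lit 0xa5320e2c095b4) gp0_1_189))))))))))))))))))))

noncomputable def gp0_1_187 : PL :=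
  (PL.C (nat_lit 0x2f441fd3) (nat_lit 0x0) (nat_lit 0x709a4d1130a148)
  (PL.C (nat_lit 0x2f601a9a) (nat_lit 0x7832dd9468937) (nat_lit 0x0)
  (PL.C (nat_lit 0x2f64c59b) (nat_lit 0x1c852dfdc7cc3d) (nat_lit 0x0)
  (PL.C (nat_lit 0x2f77a95a) (nat_lit 0x11e9580db6f87d) (nat_lit 0x0)
  (PL.C (nat_lit 0x2f879272) (nat_lit 0x0) (nat_lit 0xf589d63ec89c6)
  (PL.C (nat_lit 0x2f964887) (nat_lit 0x0) (nat_lit 0x459d59a7456c6)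
  (PL.C (nat_lit 0x2f9c0b8f) (nat_lit 0x318b5424e42fb) (nat_lit 0x0)
  (PL.C (nat_lit 0x2fbe6fe6) (nat_lit 0x0) (nat_lit 0x33b4aec2a53662)
  (PL.C (nat_lit 0x2fd300a5) (nat_lit 0x0) (nat_lit 0x2389cf5f80cc94)
  (PL.C (nat_lit 0x2fe04456) (nat_lit 0x2b743582e6ebd) (nat_lit 0x0)
  (PL.C (nat_lit 0x2ff0507e) (nat_lit 0x0) (nat_lit 0x1a2672b3ecd4c3)
  (PL.C (nat_lit 0x3004f6b9) (nat_lit 0xac647b5cd17e5) (nat_lit 0x0)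
  (PL.C (nat_lit 0x30317b69) (nat_lit 0x0) (nat_lit 0x3a9600fb380e7)
  (PL.C (nat_lit 0x3064c462) (nat_lit 0x0) (nat_lit 0x32284bb4829685)
  (PL.C (nat_lit 0x306fd3ae) (nat_lit 0x206aaccc5682a7) (nat_lit 0x0)
  (PL.C (nat_lit 0x308866ad) (nat_lit 0x0) (nat_lit 0x9f969fbcb086e)
  (PL.C (nat_lit 0x30d8a023) (nat_lit 0x0) (nat_lit 0x5d53351e386e6)
  (PL.C (nat_lit 0x30e04c1a) (nat_lit 0x223285e1732122) (nat_lit 0x0)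
  (PL.C (nat_lit 0x3119e5cf) (nat_lit 0x1cab301ae7847a) (nat_lit 0x0)
  (PL.C (nat_lit 0x3133357f) (nat_lit 0x0) (nat_lit 0x1dd825888edbf4) gp0_1_188))))))))))))))))))))

noncomputable def gp0_1_186 : PL :=
  (PL.C (nat_lit 0x2da59885) (nat_lit 0x0) (nat_lit 0x384180a78afd61)
  (PL.C (nat_lit 0x2de14a62) (nat_lit 0x0) (nat_lit 0x17166ced282998)
  (PL.C (nat_lit 0x2de6bb9e) (nat_lit 0xff6b2fc41043) (nat_lit 0x0)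
  (PL.C (nat_lit 0x2dec0f3d) (nat_lit 0x0) (nat_lit 0x35b9f550df007)
  (PL.C (nat_lit 0x2e549fdd) (nat_lit 0xe506b096c3471) (nat_lit 0x0)
  (PL.C (nat_lit 0x2e6c81ed) (nat_lit 0x2c7a8dc18e0061) (nat_lit 0x0)
  (PL.C (nat_lit 0x2e7c1179) (nat_lit 0x4e01893c2e33d) (nat_lit 0x0)
  (PL.C (nat_lit 0x2e8a1aff) (nat_lit 0x9316cce3d8899) (nat_lit 0x0)
  (PL.C (nat_lit 0x2e9beeb5) (nat_lit 0x2db091853406b) (nat_lit 0x0)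
  (PL.C (nat_lit 0x2ea18732) (nat_lit 0xe0d0018bf0a40) (nat_lit 0x0)
  (PL.C (nat_lit 0x2ea5027f) (nat_lit 0x0) (nat_lit 0x596e1a0201c44f)
  (PL.C (nat_lit 0x2ebab97b) (nat_lit 0x24b1fb6d782ba6) (nat_lit 0x0)
  (PL.C (nat_lit 0x2ecc03f6) (nat_lit 0x0) (nat_lit 0x8ad3dd97ab477)
  (PL.C (nat_lit 0x2ed40382) (nat_lit 0x0) (nat_lit 0xc34f34758d43f)
  (PL.C (nat_lit 0x2ed708f1) (nat_lit 0xa8d552365bc5f) (nat_lit 0x0)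
  (PL.C (nat_lit 0x2ee82f47) (nat_lit 0x0) (nat_lit 0x7f942b03fa7e0)
  (PL.C (nat_lit 0x2f01e341) (nat_lit 0x0) (nat_lit 0xc3a0fc5f80233f)
  (PL.C (nat_lit 0x2f2e4f31) (nat_lit 0x0) (nat_lit 0x7fb6e054fb1ef)
  (PL.C (nat_lit 0x2f344d4f) (nat_lit 0x0) (nat_lit 0xe5baf6854aeb8)
  (PL.C (nat_lit 0x2f3c0d21) (nat_lit 0x0) (nat_lit 0x278bba571af404) gp0_1_187))))))))))))))))))))

noncomputable def gp0_1_185 : PL :=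
  (PL.C (nat_lit 0x2c077e0a) (nat_lit 0x0) (nat_lit 0x426489305febf3)
  (PL.C (nat_lit 0x2c2eb149) (nat_lit 0x57bea723cd0caa) (nat_lit 0x0)
  (PL.C (nat_lit 0x2c357d32) (nat_lit 0xb2e0b8c6d1082) (nat_lit 0x0)
  (PL.C (nat_lit 0x2c567daa) (nat_lit 0x2007a0fdf0893d) (nat_lit 0x0)
  (PL.C (nat_lit 0x2c6996d3) (nat_lit 0x12d918c30d85be) (nat_lit 0x0)
  (PL.C (nat_lit 0x2c77c343) (nat_lit 0x7f3ed157ab2ef) (nat_lit 0x0)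
  (PL.C (nat_lit 0x2c807bc3) (nat_lit 0x5514a5341efc9) (nat_lit 0x0)
  (PL.C (nat_lit 0x2c86aaf7) (nat_lit 0x0) (nat_lit 0x1d95b0475c7e636)
  (PL.C (nat_lit 0x2cb035ed) (nat_lit 0x461aac2bb4ebb) (nat_lit 0x0)
  (PL.C (nat_lit 0x2cb3c26e) (nat_lit 0x0) (nat_lit 0x1034a0ba52f22)
  (PL.C (nat_lit 0x2cb82a01) (nat_lit 0xa0284d5) (nat_lit 0x0)
  (PL.C (nat_lit 0x2cfdb07a) (nat_lit 0x0) (nat_lit 0x7cb044d03931)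
  (PL.C (nat_lit 0x2d0cc512) (nat_lit 0x0) (nat_lit 0x805de23a332f6)
  (PL.C (nat_lit 0x2d202cbf) (nat_lit 0x51be95505d198) (nat_lit 0x0)
  (PL.C (nat_lit 0x2d32fbb2) (nat_lit 0x3d92b00160d01) (nat_lit 0x0)
  (PL.C (nat_lit 0x2d476f4f) (nat_lit 0x0) (nat_lit 0xbda12cdab956e)
  (PL.C (nat_lit 0x2d480f26) (nat_lit 0xfb9c3f6e0400) (nat_lit 0x0)
  (PL.C (nat_lit 0x2d6e7835) (nat_lit 0x33c3a94dab9784) (nat_lit 0x0)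
  (PL.C (nat_lit 0x2d87b92b) (nat_lit 0x0) (nat_lit 0xf65f387d8772b)
  (PL.C (nat_lit 0x2d9f319b) (nat_lit 0x0) (nat_lit 0xddef5d25b867c) gp0_1_186))))))))))))))))))))

noncomputable def gp0_1_184 : PL :=
  (PL.C (nat_lit 0x2a35b397) (nat_lit 0x14a787e884c359a) (nat_lit 0x0)
  (PL.C (nat_lit 0x2a53bbf9) (nat_lit 0x1024edb558104c) (nat_lit 0x0)
  (PL.C (nat_lit 0x2a666cfd) (nat_lit 0x0) (nat_lit 0xd2a5328b7ad375)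
  (PL.C (nat_lit 0x2a92b871) (nat_lit 0x0) (nat_lit 0x16a911c6c6e7675)
  (PL.C (nat_lit 0x2aa43551) (nat_lit 0xa16f4ae4e62bf) (nat_lit 0x0)
  (PL.C (nat_lit 0x2aa61336) (nat_lit 0x0) (nat_lit 0x7cb0480b05f2)
  (PL.C (nat_lit 0x2ab2804d) (nat_lit 0x14bcf2ae7f100d) (nat_lit 0x0)
  (PL.C (nat_lit 0x2ade346f) (nat_lit 0x1626b5bcd08a68) (nat_lit 0x0)
  (PL.C (nat_lit 0x2ae391f9) (nat_lit 0x1bc2ddbe490df8) (nat_lit 0x0)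
  (PL.C (nat_lit 0x2b002b81) (nat_lit 0x0) (nat_lit 0x4f9b53fcf65181)
  (PL.C (nat_lit 0x2b0784f3) (nat_lit 0x0) (nat_lit 0xb5e7445349c70)
  (PL.C (nat_lit 0x2b088b63) (nat_lit 0x0) (nat_lit 0x53b10faf516f15)
  (PL.C (nat_lit 0x2b0c2e01) (nat_lit 0x0) (nat_lit 0xaaf65c3d98468)
  (PL.C (nat_lit 0x2b2f4ece) (nat_lit 0x0) (nat_lit 0x33b4aec43c222d)
  (PL.C (nat_lit 0x2b40929b) (nat_lit 0x0) (nat_lit 0x13dcea972c2c06)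
  (PL.C (nat_lit 0x2b41e8d1) (nat_lit 0xde970cc7dbe75) (nat_lit 0x0)
  (PL.C (nat_lit 0x2b5e3b5d) (nat_lit 0xf71af5b576d59e) (nat_lit 0x0)
  (PL.C (nat_lit 0x2b96b225) (nat_lit 0x0) (nat_lit 0x39de7a42aeb0e0)
  (PL.C (nat_lit 0x2bd4e55e) (nat_lit 0xc70a85cb6f944) (nat_lit 0x0)
  (PL.C (nat_lit 0x2c0338ed) (nat_lit 0x11a60df0ffa965) (nat_lit 0x0) gp0_1_185))))))))))))))))))))

noncomputable def gp0_1_183 : PL :=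
  (PL.C (nat_lit 0x28e7be42) (nat_lit 0x634cf6e05f0c57) (nat_lit 0x0)
  (PL.C (nat_lit 0x28f95ce7) (nat_lit 0x149977ae23e6d6) (nat_lit 0x0)
  (PL.C (nat_lit 0x290e7c17) (nat_lit 0x3fa0ff9c8dea82) (nat_lit 0x0)
  (PL.C (nat_lit 0x2917de21) (nat_lit 0x0) (nat_lit 0x40d5d0f159cedf)
  (PL.C (nat_lit 0x292eb5bf) (nat_lit 0x0) (nat_lit 0x35b9f54d02b75)
  (PL.C (nat_lit 0x29435241) (nat_lit 0x0) (nat_lit 0x40daa1ef2c496)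
  (PL.C (nat_lit 0x2943f06f) (nat_lit 0x9316cd69d93fa) (nat_lit 0x0)
  (PL.C (nat_lit 0x2953a8a1) (nat_lit 0x0) (nat_lit 0xa5320d5c34697)
  (PL.C (nat_lit 0x29589791) (nat_lit 0x0) (nat_lit 0x2dcb484bbddb31)
  (PL.C (nat_lit 0x29703201) (nat_lit 0x3286fdb920c1) (nat_lit 0x0)
  (PL.C (nat_lit 0x298851bb) (nat_lit 0x1372e7455005bd) (nat_lit 0x0)
  (PL.C (nat_lit 0x29897709) (nat_lit 0x0) (nat_lit 0xf65f384ce4065)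
  (PL.C (nat_lit 0x298b7bbe) (nat_lit 0x367d3c6cc13d7) (nat_lit 0x0)
  (PL.C (nat_lit 0x29963d8f) (nat_lit 0x0) (nat_lit 0xc3a0fc55e77a8e)
  (PL.C (nat_lit 0x299e40f7) (nat_lit 0x44771081747aa) (nat_lit 0x0)
  (PL.C (nat_lit 0x29b3b527) (nat_lit 0x0) (nat_lit 0x82645650cc83d)
  (PL.C (nat_lit 0x29d02822) (nat_lit 0x0) (nat_lit 0x1632ce5187ca8)
  (PL.C (nat_lit 0x2a116f55) (nat_lit 0x1a43bf890dcd3b) (nat_lit 0x0)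
  (PL.C (nat_lit 0x2a186b43) (nat_lit 0x0) (nat_lit 0xddef5d25b867c)
  (PL.C (nat_lit 0x2a271ee5) (nat_lit 0x0) (nat_lit 0x45f9ab132adc99) gp0_1_184))))))))))))))))))))

noncomputable def gp0_1_182 : PL :=
  (PL.C (nat_lit 0x27c8b12b) (nat_lit 0x0) (nat_lit 0x56f8a4784fc068)
  (PL.C (nat_lit 0x27d32b62) (nat_lit 0x2b8c55043418a5) (nat_lit 0x0)
  (PL.C (nat_lit 0x27d3f9b5) (nat_lit 0x0) (nat_lit 0xc7745561d83c8)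
  (PL.C (nat_lit 0x27df9365) (nat_lit 0x0) (nat_lit 0x954c855a3b5be)
  (PL.C (nat_lit 0x27fe0282) (nat_lit 0x206aacc4d035c5) (nat_lit 0x0)
  (PL.C (nat_lit 0x28017682) (nat_lit 0x4224d02f7ec0ce) (nat_lit 0x0)
  (PL.C (nat_lit 0x2801f347) (nat_lit 0x740de41418a45c) (nat_lit 0x0)
  (PL.C (nat_lit 0x281f53ba) (nat_lit 0x0) (nat_lit 0x1a2672ba3650c4)
  (PL.C (nat_lit 0x282bbee3) (nat_lit 0x447777376adbd4) (nat_lit 0x0)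
  (PL.C (nat_lit 0x282fa496) (nat_lit 0x1fc0fb87daa9c) (nat_lit 0x0)
  (PL.C (nat_lit 0x28309c0b) (nat_lit 0x0) (nat_lit 0x10868e2112966a)
  (PL.C (nat_lit 0x28441529) (nat_lit 0x8e5284d1d4604) (nat_lit 0x0)
  (PL.C (nat_lit 0x2857aa36) (nat_lit 0xb2314cda5771) (nat_lit 0x0)
  (PL.C (nat_lit 0x28599fee) (nat_lit 0x0) (nat_lit 0x4afd9a3a140192)
  (PL.C (nat_lit 0x2877bef6) (nat_lit 0x0) (nat_lit 0xf589d6802432c)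
  (PL.C (nat_lit 0x28892d5d) (nat_lit 0x0) (nat_lit 0x44d877bf47779)
  (PL.C (nat_lit 0x289aebd9) (nat_lit 0x0) (nat_lit 0x569c73a9d72fa2)
  (PL.C (nat_lit 0x28a1dc7b) (nat_lit 0x3870bdad7e98a6) (nat_lit 0x0)
  (PL.C (nat_lit 0x28bc64d9) (nat_lit 0x1a00d21dccf878) (nat_lit 0x0)
  (PL.C (nat_lit 0x28e362e6) (nat_lit 0x7832dc524c2b7) (nat_lit 0x0) gp0_1_183))))))))))))))))))))

noncomputable def gp0_1_181 : PL :=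
  (PL.C (nat_lit 0x268ff7eb) (nat_lit 0x0) (nat_lit 0xf53e19efea2cf7)
  (PL.C (nat_lit 0x2691cfcd) (nat_lit 0xfaff2feb895a5) (nat_lit 0x0)
  (PL.C (nat_lit 0x26ab4ae3) (nat_lit 0xe506b07fd7897) (nat_lit 0x0)
  (PL.C (nat_lit 0x26c6ff02) (nat_lit 0x25b07225491807) (nat_lit 0x0)
  (PL.C (nat_lit 0x26d61d97) (nat_lit 0x3c015f33d35f98) (nat_lit 0x0)
  (PL.C (nat_lit 0x26dcc0d5) (nat_lit 0xbdeb35c3db55c) (nat_lit 0x0)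
  (PL.C (nat_lit 0x26ec9117) (nat_lit 0x0) (nat_lit 0x663672d92c0407)
  (PL.C (nat_lit 0x26f3c216) (nat_lit 0x2b8c55177c1eca) (nat_lit 0x0)
  (PL.C (nat_lit 0x27023409) (nat_lit 0x0) (nat_lit 0x4925bc9f2f7bf)
  (PL.C (nat_lit 0x2708adef) (nat_lit 0x0) (nat_lit 0x3094eb1837b03)
  (PL.C (nat_lit 0x2714357e) (nat_lit 0x1f36a6416bd692) (nat_lit 0x0)
  (PL.C (nat_lit 0x27164fd9) (nat_lit 0x0) (nat_lit 0x954c842e9a31e)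
  (PL.C (nat_lit 0x271c736e) (nat_lit 0xcb2423631e3b1) (nat_lit 0x0)
  (PL.C (nat_lit 0x27306061) (nat_lit 0x58f51b7f5ebfa1) (nat_lit 0x0)
  (PL.C (nat_lit 0x273d831d) (nat_lit 0x6f5579975c1219) (nat_lit 0x0)
  (PL.C (nat_lit 0x27582aef) (nat_lit 0x0) (nat_lit 0x4925bc704e066)
  (PL.C (nat_lit 0x276012bb) (nat_lit 0x0) (nat_lit 0x596e19e07ea970)
  (PL.C (nat_lit 0x276a5412) (nat_lit 0x1f36a64d76e569) (nat_lit 0x0)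
  (PL.C (nat_lit 0x277a1615) (nat_lit 0x25b9a0fa4e5d28) (nat_lit 0x0)
  (PL.C (nat_lit 0x27ae7a05) (nat_lit 0x0) (nat_lit 0x16ce18ef2f70d9) gp0_1_182))))))))))))))))))))

noncomputable def gp0_1_180 : PL :=
  (PL.C (nat_lit 0x250a45de) (nat_lit 0x379eec66ba310) (nat_lit 0x0)
  (PL.C (nat_lit 0x254458d7) (nat_lit 0x662810b6b8176) (nat_lit 0x0)
  (PL.C (nat_lit 0x25478002) (nat_lit 0x0) (nat_lit 0x31a355d9f68038)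
  (PL.C (nat_lit 0x2551b97a) (nat_lit 0x25b0722bb8c3f8) (nat_lit 0x0)
  (PL.C (nat_lit 0x2591080f) (nat_lit 0xdf3b561037f8a) (nat_lit 0x0)
  (PL.C (nat_lit 0x25967931) (nat_lit 0x14ff83d31575b5) (nat_lit 0x0)
  (PL.C (nat_lit 0x259d9f93) (nat_lit 0x11bb7b093749c01) (nat_lit 0x0)
  (PL.C (nat_lit 0x25a9d981) (nat_lit 0x0) (nat_lit 0x6c35f936e095d)
  (PL.C (nat_lit 0x25b9020e) (nat_lit 0x2aeda13358e69) (nat_lit 0x0)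
  (PL.C (nat_lit 0x25c5f71d) (nat_lit 0x0) (nat_lit 0x1eb037ca760978)
  (PL.C (nat_lit 0x25e94e87) (nat_lit 0x6628107690bfc) (nat_lit 0x0)
  (PL.C (nat_lit 0x25eb2622) (nat_lit 0x262a8b65c862be) (nat_lit 0x0)
  (PL.C (nat_lit 0x2617d5fb) (nat_lit 0x0) (nat_lit 0x6c35f91e8e4eb)
  (PL.C (nat_lit 0x262ddb7b) (nat_lit 0x0) (nat_lit 0xf3eebf4f8b8fcc)
  (PL.C (nat_lit 0x26348092) (nat_lit 0xe651cf5de58f) (nat_lit 0x0)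
  (PL.C (nat_lit 0x263c5467) (nat_lit 0x0) (nat_lit 0x27d4159994c93)
  (PL.C (nat_lit 0x2656cdb5) (nat_lit 0x24b1fb67276a84) (nat_lit 0x0)
  (PL.C (nat_lit 0x2659edc9) (nat_lit 0xc014e4541966e24) (nat_lit 0x0)
  (PL.C (nat_lit 0x2681fe6d) (nat_lit 0xb75a239f478317) (nat_lit 0x0)
  (PL.C (nat_lit 0x26830f47) (nat_lit 0x0) (nat_lit 0xf468c39af3c36) gp0_1_181))))))))))))))))))))

noncomputable def gp0_1_179 : PL :=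
  (PL.C (nat_lit 0x240c9fd6) (nat_lit 0x0) (nat_lit 0x12e81bf3e2f16)
  (PL.C (nat_lit 0x2415c349) (nat_lit 0x0) (nat_lit 0x91f4d3fdf4c7e)
  (PL.C (nat_lit 0x2429ef6d) (nat_lit 0x0) (nat_lit 0xb31846b6115eb1)
  (PL.C (nat_lit 0x242c5ffa) (nat_lit 0x0) (nat_lit 0x1ca10e68901488)
  (PL.C (nat_lit 0x242ff06b) (nat_lit 0x0) (nat_lit 0x550e1b68df06f7)
  (PL.C (nat_lit 0x2453ae2f) (nat_lit 0x2c44a1d3bcfcf79) (nat_lit 0x0)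
  (PL.C (nat_lit 0x2456bfc5) (nat_lit 0x0) (nat_lit 0x1f7fddedf5d444)
  (PL.C (nat_lit 0x245944be) (nat_lit 0x0) (nat_lit 0xa52bee62ae455)
  (PL.C (nat_lit 0x2462edf1) (nat_lit 0x0) (nat_lit 0x179451d6599b1d)
  (PL.C (nat_lit 0x2479a16b) (nat_lit 0x0) (nat_lit 0x1e19787a44ed0c6)
  (PL.C (nat_lit 0x24889d0b) (nat_lit 0xa5ddfe3021ed2) (nat_lit 0x0)
  (PL.C (nat_lit 0x2496da26) (nat_lit 0x0) (nat_lit 0x1f616bd93e3e87)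
  (PL.C (nat_lit 0x249c0391) (nat_lit 0x0) (nat_lit 0x7df35828d98770)
  (PL.C (nat_lit 0x24c116a2) (nat_lit 0x0) (nat_lit 0x1928b6efcf6149)
  (PL.C (nat_lit 0x24ca7c7f) (nat_lit 0x0) (nat_lit 0x498ebdb83c8de)
  (PL.C (nat_lit 0x24de93f1) (nat_lit 0x2d09bf388f3b5f) (nat_lit 0x0)
  (PL.C (nat_lit 0x24e77c2a) (nat_lit 0x0) (nat_lit 0x392ebaedbf9e0)
  (PL.C (nat_lit 0x24f6a4ea) (nat_lit 0x0) (nat_lit 0x334b993ddf93e)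
  (PL.C (nat_lit 0x24fefc7a) (nat_lit 0x0) (nat_lit 0x6fffc0452dde3)
  (PL.C (nat_lit 0x25002f56) (nat_lit 0xcb2423ab42e3e) (nat_lit 0x0) gp0_1_180))))))))))))))))))))

noncomputable def gp0_1_178 : PL :=
  (PL.C (nat_lit 0x233fc2b7) (nat_lit 0x0) (nat_lit 0x6fc4267130f18a)
  (PL.C (nat_lit 0x23529c87) (nat_lit 0xd1f9f575522b) (nat_lit 0x0)
  (PL.C (nat_lit 0x2361d4c5) (nat_lit 0x0) (nat_lit 0x3e1a37013e7e3c5)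
  (PL.C (nat_lit 0x23670807) (nat_lit 0x3797aad19ffd81) (nat_lit 0x0)
  (PL.C (nat_lit 0x2378bff9) (nat_lit 0x0) (nat_lit 0x91f4d3fdf4c7e)
  (PL.C (nat_lit 0x2386cb59) (nat_lit 0x0) (nat_lit 0x4726dac765de1b)
  (PL.C (nat_lit 0x238cffe9) (nat_lit 0x3fd385ba1c3ec) (nat_lit 0x0)
  (PL.C (nat_lit 0x238fe5cd) (nat_lit 0x0) (nat_lit 0xf1d114212899dd)
  (PL.C (nat_lit 0x23956339) (nat_lit 0xcb8ed54db92f3) (nat_lit 0x0)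
  (PL.C (nat_lit 0x239d850f) (nat_lit 0x3f10488a8997dc) (nat_lit 0x0)
  (PL.C (nat_lit 0x23a07401) (nat_lit 0xf663ec7c36125) (nat_lit 0x0)
  (PL.C (nat_lit 0x23a15095) (nat_lit 0x0) (nat_lit 0x1d95b04742589be)
  (PL.C (nat_lit 0x23a1b233) (nat_lit 0xb75a23ae4c4c1c) (nat_lit 0x0)
  (PL.C (nat_lit 0x23b50c81) (nat_lit 0x16e94ae8e96c63) (nat_lit 0x0)
  (PL.C (nat_lit 0x23c3b761) (nat_lit 0x26c85e4cdc33e) (nat_lit 0x0)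
  (PL.C (nat_lit 0x23c6eb7f) (nat_lit 0x1fee30c9b0c1797) (nat_lit 0x0)
  (PL.C (nat_lit 0x23cad3b1) (nat_lit 0x0) (nat_lit 0x40d5d0f159cedf)
  (PL.C (nat_lit 0x23db580f) (nat_lit 0x0) (nat_lit 0x2104dac86ef12)
  (PL.C (nat_lit 0x23f037f5) (nat_lit 0x0) (nat_lit 0xf3eebf59e2e491)
  (PL.C (nat_lit 0x24008e8e) (nat_lit 0x0) (nat_lit 0x55faed3ad6a49) gp0_1_179))))))))))))))))))))

noncomputable def gp0_1_177 : PL :=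
  (PL.C (nat_lit 0x220fd026) (nat_lit 0x0) (nat_lit 0x2048a9a30d310)
  (PL.C (nat_lit 0x2221d88e) (nat_lit 0x1229edbae847cd) (nat_lit 0x0)
  (PL.C (nat_lit 0x22438eb6) (nat_lit 0x0) (nat_lit 0x17166ce19fa3ce)
  (PL.C (nat_lit 0x2246eefd) (nat_lit 0x0) (nat_lit 0xf2fa47c8b348cd)
  (PL.C (nat_lit 0x226e14d2) (nat_lit 0x0) (nat_lit 0xa13726f868b1e)
  (PL.C (nat_lit 0x226eb749) (nat_lit 0x32e3524d5575ea) (nat_lit 0x0)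
  (PL.C (nat_lit 0x22886841) (nat_lit 0x2de49d5e59d23c) (nat_lit 0x0)
  (PL.C (nat_lit 0x22a87cb3) (nat_lit 0x0) (nat_lit 0x2aeceb0d56c7f6)
  (PL.C (nat_lit 0x22ae2b06) (nat_lit 0x0) (nat_lit 0x174f4ade04d94)
  (PL.C (nat_lit 0x22b06865) (nat_lit 0x0) (nat_lit 0xd2a5326dc6480b)
  (PL.C (nat_lit 0x22b41aa7) (nat_lit 0x0) (nat_lit 0x7df3587b3712b0)
  (PL.C (nat_lit 0x22d59c6b) (nat_lit 0x0) (nat_lit 0x202bbf495d5a7e)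
  (PL.C (nat_lit 0x22e1497f) (nat_lit 0x0) (nat_lit 0x6d5f5e2bc3aadd)
  (PL.C (nat_lit 0x22e70b95) (nat_lit 0x0) (nat_lit 0x10e0f43bb55bb8)
  (PL.C (nat_lit 0x22f2be81) (nat_lit 0x86e80712fdf98b) (nat_lit 0x0)
  (PL.C (nat_lit 0x2306b1f1) (nat_lit 0x1024edb558104c) (nat_lit 0x0)
  (PL.C (nat_lit 0x231b160b) (nat_lit 0x4a622ca3bdedd8) (nat_lit 0x0)
  (PL.C (nat_lit 0x2333f603) (nat_lit 0x0) (nat_lit 0x19460eac77e79c)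
  (PL.C (nat_lit 0x23392bef) (nat_lit 0x0) (nat_lit 0xcfc533940857c)
  (PL.C (nat_lit 0x233b8c3e) (nat_lit 0x0) (nat_lit 0x42648932a0e279) gp0_1_178))))))))))))))))))))

noncomputable def gp0_1_176 : PL :=
  (PL.C (nat_lit 0x20bbee8a) (nat_lit 0x23d058870f8dbe) (nat_lit 0x0)
  (PL.C (nat_lit 0x20dba5b3) (nat_lit 0x2c44a1d08482d0f) (nat_lit 0x0)
  (PL.C (nat_lit 0x20de876f) (nat_lit 0x0) (nat_lit 0x193ebaefbb08fb)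
  (PL.C (nat_lit 0x20fee2fd) (nat_lit 0x0) (nat_lit 0x278bba525ce702)
  (PL.C (nat_lit 0x210411a6) (nat_lit 0xc70a850035c80) (nat_lit 0x0)
  (PL.C (nat_lit 0x21066d6b) (nat_lit 0x0) (nat_lit 0x14801943f99072)
  (PL.C (nat_lit 0x2109f249) (nat_lit 0x58a87d403b5623) (nat_lit 0x0)
  (PL.C (nat_lit 0x2114e3a5) (nat_lit 0x0) (nat_lit 0x96425c66883e)
  (PL.C (nat_lit 0x211ffa51) (nat_lit 0x8c8281bebd17f) (nat_lit 0x0)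
  (PL.C (nat_lit 0x21266dd3) (nat_lit 0x0) (nat_lit 0x6aa2e0282e69c8)
  (PL.C (nat_lit 0x213e9b9a) (nat_lit 0x0) (nat_lit 0x3c35244f777284)
  (PL.C (nat_lit 0x214b92ab) (nat_lit 0x0) (nat_lit 0x4045dea528300)
  (PL.C (nat_lit 0x215f7152) (nat_lit 0x0) (nat_lit 0x424b455273369)
  (PL.C (nat_lit 0x21624306) (nat_lit 0x6a0c86278c128) (nat_lit 0x0)
  (PL.C (nat_lit 0x2162bb1f) (nat_lit 0x18a579b33fc34f) (nat_lit 0x0)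
  (PL.C (nat_lit 0x218e32b7) (nat_lit 0x0) (nat_lit 0xabfff5a7639d8)
  (PL.C (nat_lit 0x21af570b) (nat_lit 0x0) (nat_lit 0x47a92b309ad7d8)
  (PL.C (nat_lit 0x21bc3e39) (nat_lit 0x57bea717ef9513) (nat_lit 0x0)
  (PL.C (nat_lit 0x21c5640a) (nat_lit 0x0) (nat_lit 0x386cdf6e8e8d54)
  (PL.C (nat_lit 0x21f269b5) (nat_lit 0x0) (nat_lit 0x2cc44182a4939e) gp0_1_177))))))))))))))))))))

noncomputable def gp0_1_175 : PL :=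
  (PL.C (nat_lit 0x2000e471) (nat_lit 0x0) (nat_lit 0x19c35f6ec9ab242)
  (PL.C (nat_lit 0x20034f26) (nat_lit 0x0) (nat_lit 0x386cdf7646d36d)
  (PL.C (nat_lit 0x2023371f) (nat_lit 0x3c015f3c0cdf81) (nat_lit 0x0)
  (PL.C (nat_lit 0x202a8f59) (nat_lit 0x48e0ae77292036) (nat_lit 0x0)
  (PL.C (nat_lit 0x203aa8a7) (nat_lit 0x0) (nat_lit 0x16a911c717f2a5f)
  (PL.C (nat_lit 0x204d0eb7) (nat_lit 0x2de49d5e59d23c) (nat_lit 0x0)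
  (PL.C (nat_lit 0x204d2969) (nat_lit 0x0) (nat_lit 0x14801943a2560f)
  (PL.C (nat_lit 0x204ff369) (nat_lit 0x0) (nat_lit 0x45e8c296bcdcdb)
  (PL.C (nat_lit 0x205d3949) (nat_lit 0x18e3e5127b140) (nat_lit 0x0)
  (PL.C (nat_lit 0x205fdcad) (nat_lit 0x33c3a95eb65f05) (nat_lit 0x0)
  (PL.C (nat_lit 0x20681265) (nat_lit 0x0) (nat_lit 0x1e850d40716d89)
  (PL.C (nat_lit 0x20754003) (nat_lit 0x6a74853f8ebb54) (nat_lit 0x0)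
  (PL.C (nat_lit 0x2078c6f5) (nat_lit 0x464140e147e47) (nat_lit 0x0)
  (PL.C (nat_lit 0x2081aee1) (nat_lit 0x14a787e9307842c) (nat_lit 0x0)
  (PL.C (nat_lit 0x208d7ad7) (nat_lit 0x0) (nat_lit 0x6d5f5e2b2c8e54)
  (PL.C (nat_lit 0x20959353) (nat_lit 0x0) (nat_lit 0x750be2feeebb0)
  (PL.C (nat_lit 0x2097288f) (nat_lit 0x237bd231f9630) (nat_lit 0x0)
  (PL.C (nat_lit 0x2099f2fd) (nat_lit 0x13d70220473a62) (nat_lit 0x0)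
  (PL.C (nat_lit 0x20a48baf) (nat_lit 0x0) (nat_lit 0xa6e2d0eaf97a1)
  (PL.C (nat_lit 0x20af7cb3) (nat_lit 0x0) (nat_lit 0x1e850d40716d89) gp0_1_176))))))))))))))))))))

noncomputable def gp0_1_174 : PL :=
  (PL.C (nat_lit 0x1f19148f) (nat_lit 0xbdeb36aabef67) (nat_lit 0x0)
  (PL.C (nat_lit 0x1f1fa175) (nat_lit 0x8e9e1033de0bb34) (nat_lit 0x0)
  (PL.C (nat_lit 0x1f272652) (nat_lit 0x189e4f896194e7) (nat_lit 0x0)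
  (PL.C (nat_lit 0x1f3a05f6) (nat_lit 0x1229edac1519de) (nat_lit 0x0)
  (PL.C (nat_lit 0x1f4574da) (nat_lit 0x0) (nat_lit 0xb378202c15228)
  (PL.C (nat_lit 0x1f479229) (nat_lit 0x7fc215e37214a) (nat_lit 0x0)
  (PL.C (nat_lit 0x1f4bdd03) (nat_lit 0x0) (nat_lit 0xbc32528cc9b86)
  (PL.C (nat_lit 0x1f761cc3) (nat_lit 0x7a42cc29e7abb6) (nat_lit 0x0)
  (PL.C (nat_lit 0x1f78338a) (nat_lit 0x0) (nat_lit 0x12e81be0db8e8)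
  (PL.C (nat_lit 0x1f7d5e16) (nat_lit 0x14d18659e6d1a9) (nat_lit 0x0)
  (PL.C (nat_lit 0x1f82bfe2) (nat_lit 0x0) (nat_lit 0x2b3671e67815c2)
  (PL.C (nat_lit 0x1f905297) (nat_lit 0x0) (nat_lit 0x82edad1668b908)
  (PL.C (nat_lit 0x1fb4c1fd) (nat_lit 0x232b8b70423b78) (nat_lit 0x0)
  (PL.C (nat_lit 0x1fbd5d0a) (nat_lit 0x0) (nat_lit 0x2048a95be5b08)
  (PL.C (nat_lit 0x1fc0e71f) (nat_lit 0xbdbf929032315a) (nat_lit 0x0)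
  (PL.C (nat_lit 0x1fcb3945) (nat_lit 0x28df4a903ec6a) (nat_lit 0x0)
  (PL.C (nat_lit 0x1fd5e171) (nat_lit 0x0) (nat_lit 0x1a81b25f2ce4e0)
  (PL.C (nat_lit 0x1fe2006e) (nat_lit 0x0) (nat_lit 0xa52bef1f3c9ae)
  (PL.C (nat_lit 0x1fe8313f) (nat_lit 0x0) (nat_lit 0x5d5335157c48a)
  (PL.C (nat_lit 0x1feda54d) (nat_lit 0x0) (nat_lit 0x709a4d1130a148) gp0_1_175))))))))))))))))))))

noncomputable def gp0_1_173 : PL :=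
  (PL.C (nat_lit 0x1e051bc1) (nat_lit 0x0) (nat_lit 0x708f6d4541db42)
  (PL.C (nat_lit 0x1e109b8b) (nat_lit 0x0) (nat_lit 0x482df389e38e)
  (PL.C (nat_lit 0x1e13cfa9) (nat_lit 0x0) (nat_lit 0x28de44eb7a25bb)
  (PL.C (nat_lit 0x1e15732a) (nat_lit 0x1113376e9c99e) (nat_lit 0x0)
  (PL.C (nat_lit 0x1e1c3629) (nat_lit 0x14491117ee11c9) (nat_lit 0x0)
  (PL.C (nat_lit 0x1e247845) (nat_lit 0x7239f18265a38a) (nat_lit 0x0)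
  (PL.C (nat_lit 0x1e2f9f8a) (nat_lit 0x2f024f6d83f661) (nat_lit 0x0)
  (PL.C (nat_lit 0x1e506c47) (nat_lit 0x0) (nat_lit 0x5afe275bd9c2e4b)
  (PL.C (nat_lit 0x1e6a2112) (nat_lit 0x0) (nat_lit 0x2e25de4580376c)
  (PL.C (nat_lit 0x1e6e65ae) (nat_lit 0x0) (nat_lit 0x31a355da418f2e)
  (PL.C (nat_lit 0x1e77e41f) (nat_lit 0x0) (nat_lit 0x579dd6eb50d0e4)
  (PL.C (nat_lit 0x1e8723e1) (nat_lit 0x0) (nat_lit 0x1e19787a784c49a)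
  (PL.C (nat_lit 0x1e8c3557) (nat_lit 0x0) (nat_lit 0x462400af6dc38a)
  (PL.C (nat_lit 0x1ea063b9) (nat_lit 0x0) (nat_lit 0x2abf438fb48fbe)
  (PL.C (nat_lit 0x1eaa612b) (nat_lit 0x28e65e10816b4d) (nat_lit 0x0)
  (PL.C (nat_lit 0x1ebeb419) (nat_lit 0x0) (nat_lit 0x193ebae0ed2b1a)
  (PL.C (nat_lit 0x1eca6a57) (nat_lit 0x0) (nat_lit 0xb31846ab4704da)
  (PL.C (nat_lit 0x1ed14e85) (nat_lit 0x0) (nat_lit 0x726c398e41db2)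
  (PL.C (nat_lit 0x1ee3153e) (nat_lit 0x0) (nat_lit 0x900b5fa4ed356)
  (PL.C (nat_lit 0x1f06bcaa) (nat_lit 0x297becf29123f4) (nat_lit 0x0) gp0_1_174))))))))))))))))))))

noncomputable def gp0_1_172 : PL :=
  (PL.C (nat_lit 0x1d0f216e) (nat_lit 0x394c56fa897f6c) (nat_lit 0x0)
  (PL.C (nat_lit 0x1d14245f) (nat_lit 0x0) (nat_lit 0xfbfeef51fb2b3)
  (PL.C (nat_lit 0x1d452299) (nat_lit 0x3fd385904f50d) (nat_lit 0x0)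
  (PL.C (nat_lit 0x1d4872b9) (nat_lit 0x0) (nat_lit 0xe6d8bc8f3c740d)
  (PL.C (nat_lit 0x1d4b9183) (nat_lit 0xf71af5e13e1ad3) (nat_lit 0x0)
  (PL.C (nat_lit 0x1d5bcb37) (nat_lit 0x0) (nat_lit 0x9de7caae060d9a)
  (PL.C (nat_lit 0x1d71b5bb) (nat_lit 0x0) (nat_lit 0xf53e19e935352f)
  (PL.C (nat_lit 0x1d7b47b9) (nat_lit 0x0) (nat_lit 0xbe35937344735)
  (PL.C (nat_lit 0x1d807245) (nat_lit 0x0) (nat_lit 0x7412bb1fce89a)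
  (PL.C (nat_lit 0x1d9b32e1) (nat_lit 0x415632fd1fd73f) (nat_lit 0x0)
  (PL.C (nat_lit 0x1d9bb9e2) (nat_lit 0x2ec08814031efc) (nat_lit 0x0)
  (PL.C (nat_lit 0x1dafa5f9) (nat_lit 0x0) (nat_lit 0x452900997c3d28)
  (PL.C (nat_lit 0x1dbbe5eb) (nat_lit 0x1d70db4bfa95b7b) (nat_lit 0x0)
  (PL.C (nat_lit 0x1dc175d3) (nat_lit 0x0) (nat_lit 0xc9b7292c2e163)
  (PL.C (nat_lit 0x1dcace9e) (nat_lit 0x0) (nat_lit 0x7ea88be0fe451)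
  (PL.C (nat_lit 0x1dde3899) (nat_lit 0x0) (nat_lit 0x19c35f6e5404420)
  (PL.C (nat_lit 0x1de29c63) (nat_lit 0x3e9b0a2ab9f45c) (nat_lit 0x0)
  (PL.C (nat_lit 0x1deac247) (nat_lit 0x0) (nat_lit 0x6ca0bf71ad141)
  (PL.C (nat_lit 0x1dfc0dc7) (nat_lit 0x0) (nat_lit 0x22b6662f22b3e4)
  (PL.C (nat_lit 0x1dfd6c7d) (nat_lit 0x1d70db4f75d4ee9) (nat_lit 0x0) gp0_1_173))))))))))))))))))))

noncomputable def gp0_1_171 : PL :=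
  (PL.C (nat_lit 0x1bcf10d1) (nat_lit 0x95297866f498c1) (nat_lit 0x0)
  (PL.C (nat_lit 0x1bdbb5fd) (nat_lit 0x0) (nat_lit 0x75270e857e0bf9)
  (PL.C (nat_lit 0x1be3d32d) (nat_lit 0x58a87d403b5623) (nat_lit 0x0)
  (PL.C (nat_lit 0x1bfbde5f) (nat_lit 0x3797d0b7296a917) (nat_lit 0x0)
  (PL.C (nat_lit 0x1c02d3fb) (nat_lit 0x160767ce125b3) (nat_lit 0x0)
  (PL.C (nat_lit 0x1c0b9f8e) (nat_lit 0x261bff0ab372df) (nat_lit 0x0)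
  (PL.C (nat_lit 0x1c104782) (nat_lit 0x0) (nat_lit 0x2e25de4580376c)
  (PL.C (nat_lit 0x1c191a5b) (nat_lit 0x0) (nat_lit 0x2ff80d4dc45f07)
  (PL.C (nat_lit 0x1c2ec5db) (nat_lit 0x26d1e00c72321c) (nat_lit 0x0)
  (PL.C (nat_lit 0x1c37d2a6) (nat_lit 0x12e8d2f983d11e) (nat_lit 0x0)
  (PL.C (nat_lit 0x1c43fa45) (nat_lit 0x0) (nat_lit 0xbe35937344735)
  (PL.C (nat_lit 0x1c66ddc1) (nat_lit 0x0) (nat_lit 0xb72c487485307)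
  (PL.C (nat_lit 0x1c7504f7) (nat_lit 0x0) (nat_lit 0x708f6d4541db42)
  (PL.C (nat_lit 0x1c9389f9) (nat_lit 0x0) (nat_lit 0x3094eb1837b03)
  (PL.C (nat_lit 0x1c97b6a6) (nat_lit 0x2f531504157221) (nat_lit 0x0)
  (PL.C (nat_lit 0x1cadaec9) (nat_lit 0x232b8b618c3afe) (nat_lit 0x0)
  (PL.C (nat_lit 0x1cb2c956) (nat_lit 0xe27aa2d7d53a4) (nat_lit 0x0)
  (PL.C (nat_lit 0x1cd5b712) (nat_lit 0x0) (nat_lit 0xfe6ffac009d1b)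
  (PL.C (nat_lit 0x1cd69b36) (nat_lit 0x1fc0fafde5787) (nat_lit 0x0)
  (PL.C (nat_lit 0x1d052eaf) (nat_lit 0x0) (nat_lit 0x2104daa251ec2) gp0_1_172))))))))))))))))))))

noncomputable def gp0_1_170 : PL :=
  (PL.C (nat_lit 0x1b0bb5eb) (nat_lit 0x0) (nat_lit 0x161354ec6bdc6b)
  (PL.C (nat_lit 0x1b27407d) (nat_lit 0x7a42cc29e7abb6) (nat_lit 0x0)
  (PL.C (nat_lit 0x1b2a252f) (nat_lit 0x0) (nat_lit 0x2772fa7f019d7f)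
  (PL.C (nat_lit 0x1b2dd39d) (nat_lit 0x0) (nat_lit 0x21cb23015bddf)
  (PL.C (nat_lit 0x1b34d783) (nat_lit 0x0) (nat_lit 0xec10d5eae166a)
  (PL.C (nat_lit 0x1b46d0cd) (nat_lit 0x170ab4c0d26594) (nat_lit 0x0)
  (PL.C (nat_lit 0x1b4d8347) (nat_lit 0x337ec345676f3c) (nat_lit 0x0)
  (PL.C (nat_lit 0x1b50e89a) (nat_lit 0x0) (nat_lit 0x3026ac35d4a10f)
  (PL.C (nat_lit 0x1b664d4f) (nat_lit 0x1ee622a7c979b2) (nat_lit 0x0)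
  (PL.C (nat_lit 0x1b694789) (nat_lit 0x6f5579975c1219) (nat_lit 0x0)
  (PL.C (nat_lit 0x1b70cc25) (nat_lit 0x3e09bb3c81512b) (nat_lit 0x0)
  (PL.C (nat_lit 0x1b7277a5) (nat_lit 0x65b6b3bdedd136) (nat_lit 0x0)
  (PL.C (nat_lit 0x1b82a04a) (nat_lit 0x297bed101af4c1) (nat_lit 0x0)
  (PL.C (nat_lit 0x1b82ed0b) (nat_lit 0x0) (nat_lit 0x1d4c28aa1a4a41)
  (PL.C (nat_lit 0x1b8d1b16) (nat_lit 0x211991a55d041c) (nat_lit 0x0)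
  (PL.C (nat_lit 0x1b924e37) (nat_lit 0x0) (nat_lit 0x8d2541969ee9eb)
  (PL.C (nat_lit 0x1ba02156) (nat_lit 0xb2314cda5771) (nat_lit 0x0)
  (PL.C (nat_lit 0x1bb221dd) (nat_lit 0x0) (nat_lit 0x3a35abb5705a07)
  (PL.C (nat_lit 0x1bbcbdbf) (nat_lit 0x0) (nat_lit 0x54c71b1104f0c9)
  (PL.C (nat_lit 0x1bc493e1) (nat_lit 0x0) (nat_lit 0x1166b60034cb9a) gp0_1_171))))))))))))))))))))

noncomputable def gp0_1_169 : PL :=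
  (PL.C (nat_lit 0x1a05c94a) (nat_lit 0x0) (nat_lit 0x166e201356101)
  (PL.C (nat_lit 0x1a0c8635) (nat_lit 0x0) (nat_lit 0x39de7a38d5399b)
  (PL.C (nat_lit 0x1a0edfe6) (nat_lit 0x11485438e70b4) (nat_lit 0x0)
  (PL.C (nat_lit 0x1a220fe7) (nat_lit 0x0) (nat_lit 0x59bda67cec5280)
  (PL.C (nat_lit 0x1a45ec09) (nat_lit 0x8c4d83148ccef5) (nat_lit 0x0)
  (PL.C (nat_lit 0x1a70680d) (nat_lit 0x7239f16e69ccee) (nat_lit 0x0)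
  (PL.C (nat_lit 0x1a7e091d) (nat_lit 0x0) (nat_lit 0x2b1a53b72a758f)
  (PL.C (nat_lit 0x1a85cb72) (nat_lit 0x109c321385a904) (nat_lit 0x0)
  (PL.C (nat_lit 0x1a8eed0f) (nat_lit 0x48e0ae831a4a1a) (nat_lit 0x0)
  (PL.C (nat_lit 0x1a950cee) (nat_lit 0x7e113bab2f313) (nat_lit 0x0)
  (PL.C (nat_lit 0x1aa50d33) (nat_lit 0x0) (nat_lit 0x1a81b25dab0429)
  (PL.C (nat_lit 0x1aaaabcb) (nat_lit 0x3e9b0a30a5f149) (nat_lit 0x0)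
  (PL.C (nat_lit 0x1acb12b2) (nat_lit 0x0) (nat_lit 0x5edb6fdbcf8fac)
  (PL.C (nat_lit 0x1ad9f3d5) (nat_lit 0x0) (nat_lit 0x4c0e8c744b1671)
  (PL.C (nat_lit 0x1adfc4f5) (nat_lit 0x0) (nat_lit 0x82edad1b0b48d9)
  (PL.C (nat_lit 0x1ae51c24) (nat_lit 0x0) (nat_lit 0x5da78a0d59066)
  (PL.C (nat_lit 0x1af47911) (nat_lit 0x417ecf192d400e) (nat_lit 0x0)
  (PL.C (nat_lit 0x1af6bffb) (nat_lit 0x132c255aabde01) (nat_lit 0x0)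
  (PL.C (nat_lit 0x1b0413f5) (nat_lit 0x0) (nat_lit 0x3e1a3702fe2e8e5)
  (PL.C (nat_lit 0x1b061e3e) (nat_lit 0x25256ef70cdbd3) (nat_lit 0x0) gp0_1_170))))))))))))))))))))

noncomputable def gp0_1_168 : PL :=
  (PL.C (nat_lit 0x192ea4be) (nat_lit 0x0) (nat_lit 0x1103ba3739b7da)
  (PL.C (nat_lit 0x19397d99) (nat_lit 0x0) (nat_lit 0x132b8018550412)
  (PL.C (nat_lit 0x194fc923) (nat_lit 0x7c030e9efa2469) (nat_lit 0x0)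
  (PL.C (nat_lit 0x1950f131) (nat_lit 0x0) (nat_lit 0x36833035c2882f)
  (PL.C (nat_lit 0x19653952) (nat_lit 0x31d14f05a728) (nat_lit 0x0)
  (PL.C (nat_lit 0x196aee8d) (nat_lit 0x0) (nat_lit 0x527db29e6eef4e)
  (PL.C (nat_lit 0x196f1ac3) (nat_lit 0x0) (nat_lit 0x379f0e5f123d94)
  (PL.C (nat_lit 0x19737399) (nat_lit 0x0) (nat_lit 0x15d28e97b55f0f)
  (PL.C (nat_lit 0x197d8d9a) (nat_lit 0x0) (nat_lit 0x1632cf0000255)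
  (PL.C (nat_lit 0x198507f1) (nat_lit 0x877246d6680c06) (nat_lit 0x0)
  (PL.C (nat_lit 0x198f33ce) (nat_lit 0x16be340007c676) (nat_lit 0x0)
  (PL.C (nat_lit 0x199701a3) (nat_lit 0x0) (nat_lit 0x5afe275603d7e4b)
  (PL.C (nat_lit 0x19acb4da) (nat_lit 0x0) (nat_lit 0x3c35245235a8cb)
  (PL.C (nat_lit 0x19b54ff2) (nat_lit 0x0) (nat_lit 0xf13a32484418c1)
  (PL.C (nat_lit 0x19b77d8d) (nat_lit 0x0) (nat_lit 0x9f969f2252fe1)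
  (PL.C (nat_lit 0x19b852db) (nat_lit 0x417ecf15d03fa7) (nat_lit 0x0)
  (PL.C (nat_lit 0x19c062cf) (nat_lit 0x0) (nat_lit 0x44450c1aaa7c69)
  (PL.C (nat_lit 0x19c78742) (nat_lit 0x0) (nat_lit 0x900b600580378)
  (PL.C (nat_lit 0x19e413ba) (nat_lit 0x6a88a1d7742f5f) (nat_lit 0x0)
  (PL.C (nat_lit 0x19e8808e) (nat_lit 0x4dd4172acae287) (nat_lit 0x0) gp0_1_169))))))))))))))))))))

noncomputable def gp0_1_167 : PL :=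
  (PL.C (nat_lit 0x18768f7f) (nat_lit 0xe38d8cbd34a2b9) (nat_lit 0x0)
  (PL.C (nat_lit 0x188428a1) (nat_lit 0xcb9ed4fcd1ff) (nat_lit 0x0)
  (PL.C (nat_lit 0x1886fdaa) (nat_lit 0x379eeb18e33fe) (nat_lit 0x0)
  (PL.C (nat_lit 0x188c041b) (nat_lit 0x0) (nat_lit 0xaaf65c3d98468)
  (PL.C (nat_lit 0x1890cbf1) (nat_lit 0x0) (nat_lit 0x2b93bd99c258d)
  (PL.C (nat_lit 0x18943e6f) (nat_lit 0x0) (nat_lit 0x527db29e6eef4e)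
  (PL.C (nat_lit 0x18a9e459) (nat_lit 0x0) (nat_lit 0x13dcea9d40c714)
  (PL.C (nat_lit 0x18b4f99f) (nat_lit 0xba37254c066c7) (nat_lit 0x0)
  (PL.C (nat_lit 0x18ba2f97) (nat_lit 0x4282c5cf2318b) (nat_lit 0x0)
  (PL.C (nat_lit 0x18c88053) (nat_lit 0x0) (nat_lit 0x44450c1aaa7c69)
  (PL.C (nat_lit 0x18eb6c29) (nat_lit 0x2dc54694c10bb0) (nat_lit 0x0)
  (PL.C (nat_lit 0x18eca3c1) (nat_lit 0x71daad4a769b4c8) (nat_lit 0x0)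
  (PL.C (nat_lit 0x18f27d77) (nat_lit 0x0) (nat_lit 0x76e4ff1968cc1)
  (PL.C (nat_lit 0x18ff59a7) (nat_lit 0xb9ccfe48ad6bc) (nat_lit 0x0)
  (PL.C (nat_lit 0x190d1729) (nat_lit 0x0) (nat_lit 0x71788ea5eb7f48)
  (PL.C (nat_lit 0x190f499d) (nat_lit 0x19e9556af9cb8b) (nat_lit 0x0)
  (PL.C (nat_lit 0x1918e2ff) (nat_lit 0x8e52861f36fa9) (nat_lit 0x0)
  (PL.C (nat_lit 0x1919a0d7) (nat_lit 0x0) (nat_lit 0x86585fab8256b9)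
  (PL.C (nat_lit 0x19297791) (nat_lit 0x0) (nat_lit 0x10e5c5463a3254)
  (PL.C (nat_lit 0x192db4d1) (nat_lit 0x0) (nat_lit 0xe2f316331ef10) gp0_1_168))))))))))))))))))))

noncomputable def gp0_1_166 : PL :=
  (PL.C (nat_lit 0x175a1ff7) (nat_lit 0x28dafa1ff3afe14) (nat_lit 0x0)
  (PL.C (nat_lit 0x1763dadd) (nat_lit 0xf663ec46f1514) (nat_lit 0x0)
  (PL.C (nat_lit 0x1778874f) (nat_lit 0x0) (nat_lit 0x560518b1bc544)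
  (PL.C (nat_lit 0x177999d5) (nat_lit 0x3270fb1ef428b1) (nat_lit 0x0)
  (PL.C (nat_lit 0x1797667b) (nat_lit 0xd1f9f9425b67) (nat_lit 0x0)
  (PL.C (nat_lit 0x179a055a) (nat_lit 0x62f851dfc271e6) (nat_lit 0x0)
  (PL.C (nat_lit 0x17b543de) (nat_lit 0x0) (nat_lit 0x22cc2871738be64)
  (PL.C (nat_lit 0x17ba91cf) (nat_lit 0x8fdc6501500241) (nat_lit 0x0)
  (PL.C (nat_lit 0x17c04d56) (nat_lit 0x14eab87382441d) (nat_lit 0x0)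
  (PL.C (nat_lit 0x17ca6487) (nat_lit 0x338702fd1579dc) (nat_lit 0x0)
  (PL.C (nat_lit 0x17ce0856) (nat_lit 0x1457215ac250e3) (nat_lit 0x0)
  (PL.C (nat_lit 0x17d7cf96) (nat_lit 0x0) (nat_lit 0x1034a0e390bd4)
  (PL.C (nat_lit 0x17f1b7e9) (nat_lit 0x0) (nat_lit 0x2875a23a4f9477)
  (PL.C (nat_lit 0x17f9be85) (nat_lit 0x10e175c13e58bb8) (nat_lit 0x0)
  (PL.C (nat_lit 0x1805b113) (nat_lit 0x0) (nat_lit 0xf1d1141962e83d)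
  (PL.C (nat_lit 0x18146563) (nat_lit 0x261170d) (nat_lit 0x0)
  (PL.C (nat_lit 0x18278a69) (nat_lit 0x337ec345676f3c) (nat_lit 0x0)
  (PL.C (nat_lit 0x1839d52e) (nat_lit 0x0) (nat_lit 0x132a2e2a92dc47)
  (PL.C (nat_lit 0x1841f3f6) (nat_lit 0x204d682c96bbb2) (nat_lit 0x0)
  (PL.C (nat_lit 0x184c66dd) (nat_lit 0x6c0d2b0c3c722) (nat_lit 0x0) gp0_1_167))))))))))))))))))))

noncomputable def gp0_1_165 : PL :=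
  (PL.C (nat_lit 0x16ba7465) (nat_lit 0xc2376ca18d0374) (nat_lit 0x0)
  (PL.C (nat_lit 0x16c11315) (nat_lit 0x0) (nat_lit 0x579dd6f0f71baa)
  (PL.C (nat_lit 0x16c2ff27) (nat_lit 0x132c255aabde01) (nat_lit 0x0)
  (PL.C (nat_lit 0x16caa04b) (nat_lit 0x7d68d5108638a) (nat_lit 0x0)
  (PL.C (nat_lit 0x16d4b0d7) (nat_lit 0x0) (nat_lit 0xf86e1a063b7440)
  (PL.C (nat_lit 0x16dd5067) (nat_lit 0x0) (nat_lit 0x48b5b695a07477)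
  (PL.C (nat_lit 0x16ec8ab3) (nat_lit 0x0) (nat_lit 0xf53c3e45b32561)
  (PL.C (nat_lit 0x16f5f553) (nat_lit 0x11a60dea0ec6e3) (nat_lit 0x0)
  (PL.C (nat_lit 0x16fb153f) (nat_lit 0x42aa33729781de) (nat_lit 0x0)
  (PL.C (nat_lit 0x17059ad6) (nat_lit 0x0) (nat_lit 0x2d06b3c7812cfb)
  (PL.C (nat_lit 0x17152fed) (nat_lit 0xc8d2e2e3d1332) (nat_lit 0x0)
  (PL.C (nat_lit 0x1723ad6d) (nat_lit 0x4e0188ffa1be9) (nat_lit 0x0)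
  (PL.C (nat_lit 0x172b6ef9) (nat_lit 0x65b6b3bdedd136) (nat_lit 0x0)
  (PL.C (nat_lit 0x172bfc49) (nat_lit 0xb2f23977bb0901) (nat_lit 0x0)
  (PL.C (nat_lit 0x172df163) (nat_lit 0x229feb6d8fd53) (nat_lit 0x0)
  (PL.C (nat_lit 0x173912f2) (nat_lit 0x9851e0fe4ba52) (nat_lit 0x0)
  (PL.C (nat_lit 0x1740dbaa) (nat_lit 0x0) (nat_lit 0x2fd97c62d7ea2b)
  (PL.C (nat_lit 0x17464f53) (nat_lit 0x2c7d21741337e2) (nat_lit 0x0)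
  (PL.C (nat_lit 0x174adfd3) (nat_lit 0x1ee622a7c979b2) (nat_lit 0x0)
  (PL.C (nat_lit 0x1759cbf6) (nat_lit 0x12e8d2f983d11e) (nat_lit 0x0) gp0_1_166))))))))))))))))))))

noncomputable def gp0_1_164 : PL :=
  (PL.C (nat_lit 0x15c307ca) (nat_lit 0x0) (nat_lit 0x1f616bd5f0851a)
  (PL.C (nat_lit 0x15ca5322) (nat_lit 0x16ff506f7e12db) (nat_lit 0x0)
  (PL.C (nat_lit 0x15d3b5f7) (nat_lit 0x170ab4b2670ed9) (nat_lit 0x0)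
  (PL.C (nat_lit 0x15dd43eb) (nat_lit 0x0) (nat_lit 0x67c699c32fc68)
  (PL.C (nat_lit 0x15e10091) (nat_lit 0x1fc9adf4b1596) (nat_lit 0x0)
  (PL.C (nat_lit 0x15e7f247) (nat_lit 0x41bc57e) (nat_lit 0x0)
  (PL.C (nat_lit 0x15ff41fe) (nat_lit 0x14d1865bc803a1) (nat_lit 0x0)
  (PL.C (nat_lit 0x160448f2) (nat_lit 0x35f477223d006d) (nat_lit 0x0)
  (PL.C (nat_lit 0x1606a186) (nat_lit 0x0) (nat_lit 0x1578f01982f0c0)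
  (PL.C (nat_lit 0x16101e55) (nat_lit 0x3270fb174a44d8) (nat_lit 0x0)
  (PL.C (nat_lit 0x16299627) (nat_lit 0x0) (nat_lit 0x71788eb2fff8eb)
  (PL.C (nat_lit 0x1640bd43) (nat_lit 0x2c7d2179d71c51) (nat_lit 0x0)
  (PL.C (nat_lit 0x16418204) (nat_lit 0x4560387f74e186) (nat_lit 0x0)
  (PL.C (nat_lit 0x164670ff) (nat_lit 0x15d52898e295a91) (nat_lit 0x0)
  (PL.C (nat_lit 0x16519701) (nat_lit 0x2349939a15c6f4) (nat_lit 0x0)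
  (PL.C (nat_lit 0x165d1851) (nat_lit 0x0) (nat_lit 0x59daba2cb74e54)
  (PL.C (nat_lit 0x165ecc7a) (nat_lit 0x0) (nat_lit 0xd204cb990c5bc)
  (PL.C (nat_lit 0x1664974d) (nat_lit 0x0) (nat_lit 0x8f5df52f85aa5a)
  (PL.C (nat_lit 0x1682c637) (nat_lit 0x3797aadb3ce189) (nat_lit 0x0)
  (PL.C (nat_lit 0x16aaafe9) (nat_lit 0x721d693b8f7826) (nat_lit 0x0) gp0_1_165))))))))))))))))))))

noncomputable def gp0_1_163 : PL :=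
  (PL.C (nat_lit 0x154918de) (nat_lit 0x0) (nat_lit 0x2b3671e67815c2)
  (PL.C (nat_lit 0x15524409) (nat_lit 0x0) (nat_lit 0x56f8a4741d74da)
  (PL.C (nat_lit 0x155df2ef) (nat_lit 0x0) (nat_lit 0x8f5df53faaa013)
  (PL.C (nat_lit 0x156c10a1) (nat_lit 0x0) (nat_lit 0x20744126f5fe3c)
  (PL.C (nat_lit 0x156ccf6a) (nat_lit 0x61c11f99fb8f57) (nat_lit 0x0)
  (PL.C (nat_lit 0x1571b4e6) (nat_lit 0x11bd4987ba0136b) (nat_lit 0x0)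
  (PL.C (nat_lit 0x157223ff) (nat_lit 0x0) (nat_lit 0x32ee2c765fb703)
  (PL.C (nat_lit 0x1578630f) (nat_lit 0xa83d315012a9d4) (nat_lit 0x0)
  (PL.C (nat_lit 0x1588b47a) (nat_lit 0x0) (nat_lit 0x2d06b3c7812cfb)
  (PL.C (nat_lit 0x1588c646) (nat_lit 0x35f4772664127f) (nat_lit 0x0)
  (PL.C (nat_lit 0x158ae575) (nat_lit 0x628a7ffa596f4c) (nat_lit 0x0)
  (PL.C (nat_lit 0x15937b86) (nat_lit 0x0) (nat_lit 0x392ebb7164de7)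
  (PL.C (nat_lit 0x159ab6ee) (nat_lit 0x16ff506f7e12db) (nat_lit 0x0)
  (PL.C (nat_lit 0x15a166c9) (nat_lit 0x48ad3537a42a00) (nat_lit 0x0)
  (PL.C (nat_lit 0x15a38002) (nat_lit 0xb2a2643fe02bfc) (nat_lit 0x0)
  (PL.C (nat_lit 0x15a40541) (nat_lit 0x0) (nat_lit 0x1d4c28b14493d1)
  (PL.C (nat_lit 0x15b3a73a) (nat_lit 0x0) (nat_lit 0x2fd97c5ecedba1)
  (PL.C (nat_lit 0x15b90ce2) (nat_lit 0x0) (nat_lit 0x57d89b9ab5e10)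
  (PL.C (nat_lit 0x15bcc4bd) (nat_lit 0x0) (nat_lit 0x2cc44197124995)
  (PL.C (nat_lit 0x15bd004b) (nat_lit 0x0) (nat_lit 0x9de7cab5f3c79f) gp0_1_164))))))))))))))))))))

noncomputable def gp0_1_162 : PL :=
  (PL.C (nat_lit 0x1494d581) (nat_lit 0x0) (nat_lit 0x47a92b2b72d929)
  (PL.C (nat_lit 0x14a693bb) (nat_lit 0x61ba9f380623943) (nat_lit 0x0)
  (PL.C (nat_lit 0x14bb630a) (nat_lit 0x4dd4171a4117a9) (nat_lit 0x0)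
  (PL.C (nat_lit 0x14bcb975) (nat_lit 0x721d693b8f7826) (nat_lit 0x0)
  (PL.C (nat_lit 0x14bfa26b) (nat_lit 0x14491117ee11c9) (nat_lit 0x0)
  (PL.C (nat_lit 0x14c3ace1) (nat_lit 0x0) (nat_lit 0x1eaaa8bad23e05)
  (PL.C (nat_lit 0x14dd3e02) (nat_lit 0x0) (nat_lit 0x16c904027192c0)
  (PL.C (nat_lit 0x14e97265) (nat_lit 0x503434f3a130a4) (nat_lit 0x0)
  (PL.C (nat_lit 0x14ed055f) (nat_lit 0x0) (nat_lit 0x3b6c294967492)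
  (PL.C (nat_lit 0x14f96882) (nat_lit 0x1234aa43e909c97) (nat_lit 0x0)
  (PL.C (nat_lit 0x14f991b1) (nat_lit 0x0) (nat_lit 0x17c4a23be93b41)
  (PL.C (nat_lit 0x1504ac6d) (nat_lit 0x66023c35f1529) (nat_lit 0x0)
  (PL.C (nat_lit 0x150ae1ba) (nat_lit 0x1b7b873838d2f3) (nat_lit 0x0)
  (PL.C (nat_lit 0x151a0c83) (nat_lit 0x107c3d6c033c16d) (nat_lit 0x0)
  (PL.C (nat_lit 0x15211f37) (nat_lit 0x4522d2d28ac8b5) (nat_lit 0x0)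
  (PL.C (nat_lit 0x15232bfe) (nat_lit 0x7b3d888f69dee) (nat_lit 0x0)
  (PL.C (nat_lit 0x1532262e) (nat_lit 0x8899be44b1ce) (nat_lit 0x0)
  (PL.C (nat_lit 0x1533bb51) (nat_lit 0x0) (nat_lit 0xf9650c66d92db6)
  (PL.C (nat_lit 0x153940f6) (nat_lit 0x380196cd9ae60d) (nat_lit 0x0)
  (PL.C (nat_lit 0x1545762a) (nat_lit 0x0) (nat_lit 0x1ee559856fe383) gp0_1_163))))))))))))))))))))

noncomputable def gp0_1_161 : PL :=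
  (PL.C (nat_lit 0x13ca6ea6) (nat_lit 0x0) (nat_lit 0x48987b3b814ae6)
  (PL.C (nat_lit 0x13ec6842) (nat_lit 0x43866dec0d109f) (nat_lit 0x0)
  (PL.C (nat_lit 0x13f0decb) (nat_lit 0xba37259b03a9a) (nat_lit 0x0)
  (PL.C (nat_lit 0x13f1d6da) (nat_lit 0x3544e3de3125f4) (nat_lit 0x0)
  (PL.C (nat_lit 0x140367d6) (nat_lit 0x0) (nat_lit 0x109cde62214edae)
  (PL.C (nat_lit 0x140bcfcb) (nat_lit 0x0) (nat_lit 0x3a35abb7ece82b)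
  (PL.C (nat_lit 0x14111c25) (nat_lit 0x706f753332220) (nat_lit 0x0)
  (PL.C (nat_lit 0x1412cec6) (nat_lit 0x1fbabf4c5ae8c9) (nat_lit 0x0)
  (PL.C (nat_lit 0x1418502e) (nat_lit 0x0) (nat_lit 0xe8e8fc7034c095)
  (PL.C (nat_lit 0x14284617) (nat_lit 0x16d73e8289905f) (nat_lit 0x0)
  (PL.C (nat_lit 0x142ffebd) (nat_lit 0x1e6252f08b669b) (nat_lit 0x0)
  (PL.C (nat_lit 0x143a66cd) (nat_lit 0x38c6f0f3c64d5d) (nat_lit 0x0)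
  (PL.C (nat_lit 0x143d54f3) (nat_lit 0x0) (nat_lit 0x1163d73990adc4)
  (PL.C (nat_lit 0x144fed6a) (nat_lit 0x146feb88617e7) (nat_lit 0x0)
  (PL.C (nat_lit 0x14501883) (nat_lit 0xc3411a87afb1a) (nat_lit 0x0)
  (PL.C (nat_lit 0x1454b1f1) (nat_lit 0x0) (nat_lit 0x6f70e3c41f8337)
  (PL.C (nat_lit 0x1469ef35) (nat_lit 0x0) (nat_lit 0x2dd5d79feb909)
  (PL.C (nat_lit 0x146aed26) (nat_lit 0x1e2780e805972c) (nat_lit 0x0)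
  (PL.C (nat_lit 0x1482fd11) (nat_lit 0x15a9e35289d418) (nat_lit 0x0)
  (PL.C (nat_lit 0x148b89ae) (nat_lit 0x0) (nat_lit 0x5c0ed41e83da7) gp0_1_162))))))))))))))))))))

noncomputable def gp0_1_160 : PL :=
  (PL.C (nat_lit 0x13261947) (nat_lit 0x0) (nat_lit 0x9bec2b0fbd9373)
  (PL.C (nat_lit 0x13290e0b) (nat_lit 0x0) (nat_lit 0x10bb0bd4c041f11)
  (PL.C (nat_lit 0x132f0363) (nat_lit 0x2d232b0c513d4f) (nat_lit 0x0)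
  (PL.C (nat_lit 0x132faeb9) (nat_lit 0x14739f9e3eb52f4) (nat_lit 0x0)
  (PL.C (nat_lit 0x1345d473) (nat_lit 0xadd571ec5ed56f) (nat_lit 0x0)
  (PL.C (nat_lit 0x1359f6bf) (nat_lit 0x0) (nat_lit 0xc57f0e9b01d902)
  (PL.C (nat_lit 0x1362c2ea) (nat_lit 0x0) (nat_lit 0x9951715c72d06)
  (PL.C (nat_lit 0x137c4661) (nat_lit 0x0) (nat_lit 0x32a6461bb04c06)
  (PL.C (nat_lit 0x138bb6af) (nat_lit 0x0) (nat_lit 0x3193626a3d24ca)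
  (PL.C (nat_lit 0x138f852d) (nat_lit 0x1dadb20e31c6144) (nat_lit 0x0)
  (PL.C (nat_lit 0x13912c2f) (nat_lit 0x0) (nat_lit 0x3513055677242a)
  (PL.C (nat_lit 0x1392877a) (nat_lit 0x5b492f365eebe8) (nat_lit 0x0)
  (PL.C (nat_lit 0x1397bb33) (nat_lit 0x0) (nat_lit 0x1987d5ba05d4f)
  (PL.C (nat_lit 0x13a123d2) (nat_lit 0x0) (nat_lit 0xf13a326869a5f6)
  (PL.C (nat_lit 0x13a78526) (nat_lit 0x0) (nat_lit 0x1a94d3dbd58ac6)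
  (PL.C (nat_lit 0x13a9985f) (nat_lit 0x6a7485320bb6e8) (nat_lit 0x0)
  (PL.C (nat_lit 0x13b4e231) (nat_lit 0x0) (nat_lit 0xe2f316331ef10)
  (PL.C (nat_lit 0x13b67813) (nat_lit 0x0) (nat_lit 0x41b8974b3da7cf5)
  (PL.C (nat_lit 0x13bccc96) (nat_lit 0x6fb3ac717f50d2) (nat_lit 0x0)
  (PL.C (nat_lit 0x13c54d0d) (nat_lit 0x2dc5468ab4ece1) (nat_lit 0x0) gp0_1_161))))))))))))))))))))

noncomputable def gp0_1_159 : PL :=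
  (PL.C (nat_lit 0x12b82411) (nat_lit 0x4282c66f485c0) (nat_lit 0x0)
  (PL.C (nat_lit 0x12bd3e9d) (nat_lit 0x1f95a37d5a5199) (nat_lit 0x0)
  (PL.C (nat_lit 0x12c1ca61) (nat_lit 0x4469e0ffc4a4d6) (nat_lit 0x0)
  (PL.C (nat_lit 0x12c8ef8f) (nat_lit 0x0) (nat_lit 0x8d25419c979635)
  (PL.C (nat_lit 0x12cb2d9f) (nat_lit 0x4477773c658e34) (nat_lit 0x0)
  (PL.C (nat_lit 0x12cfe1c4) (nat_lit 0x76bacdfa132ed) (nat_lit 0x0)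
  (PL.C (nat_lit 0x12d5e82f) (nat_lit 0x0) (nat_lit 0x750be2feeebb0)
  (PL.C (nat_lit 0x12d7fc2e) (nat_lit 0x0) (nat_lit 0x1a94d3dbd58ac6)
  (PL.C (nat_lit 0x12e0df55) (nat_lit 0x1626b5babf19c9) (nat_lit 0x0)
  (PL.C (nat_lit 0x12e164a7) (nat_lit 0xcb9ecfbffa03) (nat_lit 0x0)
  (PL.C (nat_lit 0x12e73341) (nat_lit 0x7c030e9efa2469) (nat_lit 0x0)
  (PL.C (nat_lit 0x12f49829) (nat_lit 0x0) (nat_lit 0xc77454fed9be6)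
  (PL.C (nat_lit 0x12f8adfa) (nat_lit 0x0) (nat_lit 0x109cde62214edae)
  (PL.C (nat_lit 0x12fcec9d) (nat_lit 0x8fdc64f565bee5) (nat_lit 0x0)
  (PL.C (nat_lit 0x13051935) (nat_lit 0xbb85c33b74f5d) (nat_lit 0x0)
  (PL.C (nat_lit 0x130d06a6) (nat_lit 0x0) (nat_lit 0x166e201356101)
  (PL.C (nat_lit 0x130d4b2f) (nat_lit 0x0) (nat_lit 0x974157f59f04e33)
  (PL.C (nat_lit 0x131e7486) (nat_lit 0x7b3d8852bf15b) (nat_lit 0x0)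
  (PL.C (nat_lit 0x131f329b) (nat_lit 0xf4c563e5df09e) (nat_lit 0x0)
  (PL.C (nat_lit 0x13225f4d) (nat_lit 0x0) (nat_lit 0x2b93bd99c258d) gp0_1_160))))))))))))))))))))

noncomputable def gp0_1_158 : PL :=
  (PL.C (nat_lit 0x1223e5c3) (nat_lit 0x0) (nat_lit 0x48b5b695a07477)
  (PL.C (nat_lit 0x122f35de) (nat_lit 0x0) (nat_lit 0x2e48ec1072ab8d)
  (PL.C (nat_lit 0x1233acda) (nat_lit 0x17a66bfaffa78c) (nat_lit 0x0)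
  (PL.C (nat_lit 0x123b83fb) (nat_lit 0x0) (nat_lit 0x6f70e3c3e10ca2)
  (PL.C (nat_lit 0x1244338a) (nat_lit 0xf3826f5358f086) (nat_lit 0x0)
  (PL.C (nat_lit 0x1244a405) (nat_lit 0x14b31f55cdef) (nat_lit 0x0)
  (PL.C (nat_lit 0x124773ff) (nat_lit 0x0) (nat_lit 0x14f73e1ef69800b)
  (PL.C (nat_lit 0x125748b2) (nat_lit 0x6bbb82ba58f952) (nat_lit 0x0)
  (PL.C (nat_lit 0x1263b1ed) (nat_lit 0x16d73e83986b1b) (nat_lit 0x0)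
  (PL.C (nat_lit 0x126ac0e4) (nat_lit 0x0) (nat_lit 0x5da78a0d59066)
  (PL.C (nat_lit 0x126ce613) (nat_lit 0x0) (nat_lit 0x46774f5856f0b1)
  (PL.C (nat_lit 0x1274f6d7) (nat_lit 0x0) (nat_lit 0xa2f8f2730af185)
  (PL.C (nat_lit 0x12842dd7) (nat_lit 0x3f111a04fba743) (nat_lit 0x0)
  (PL.C (nat_lit 0x128a0b36) (nat_lit 0x122a668f2aece16) (nat_lit 0x0)
  (PL.C (nat_lit 0x1297e21e) (nat_lit 0x0) (nat_lit 0x1578f01982f0c0)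
  (PL.C (nat_lit 0x12983823) (nat_lit 0x11dff6ffd0aa7f) (nat_lit 0x0)
  (PL.C (nat_lit 0x129fe469) (nat_lit 0x952978618acce7) (nat_lit 0x0)
  (PL.C (nat_lit 0x12a97e39) (nat_lit 0x1368efdc940fc1) (nat_lit 0x0)
  (PL.C (nat_lit 0x12ac8d52) (nat_lit 0x0) (nat_lit 0x296a9c4a2e6dc)
  (PL.C (nat_lit 0x12adc20f) (nat_lit 0xadd571ec5ed56f) (nat_lit 0x0) gp0_1_159))))))))))))))))))))

noncomputable def gp0_1_157 : PL :=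
  (PL.C (nat_lit 0x118b9e19) (nat_lit 0x0) (nat_lit 0x7136b3470a0dc)
  (PL.C (nat_lit 0x1193adad) (nat_lit 0x0) (nat_lit 0x76e4ff1968cc1)
  (PL.C (nat_lit 0x11a0455e) (nat_lit 0x0) (nat_lit 0x9b47bfced845e8)
  (PL.C (nat_lit 0x11a724b9) (nat_lit 0x0) (nat_lit 0x9cbf210841941d)
  (PL.C (nat_lit 0x11b15939) (nat_lit 0x0) (nat_lit 0x235abca07f49294)
  (PL.C (nat_lit 0x11b49e0a) (nat_lit 0x11bd498737ec3ff) (nat_lit 0x0)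
  (PL.C (nat_lit 0x11c35e22) (nat_lit 0x1e0e2c4994ab0a) (nat_lit 0x0)
  (PL.C (nat_lit 0x11c452d7) (nat_lit 0xa83d315012a9d4) (nat_lit 0x0)
  (PL.C (nat_lit 0x11c71d32) (nat_lit 0x43866e02e0db34) (nat_lit 0x0)
  (PL.C (nat_lit 0x11d02bcf) (nat_lit 0x17399fc3998120) (nat_lit 0x0)
  (PL.C (nat_lit 0x11d62453) (nat_lit 0xc76977007ea63) (nat_lit 0x0)
  (PL.C (nat_lit 0x11d99d99) (nat_lit 0x39a4084670e130) (nat_lit 0x0)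
  (PL.C (nat_lit 0x11e6a28e) (nat_lit 0x0) (nat_lit 0x8da795f9fc912b)
  (PL.C (nat_lit 0x11ea834e) (nat_lit 0x1b7b8721a513cd) (nat_lit 0x0)
  (PL.C (nat_lit 0x11f850b6) (nat_lit 0x120854c3b58b81e) (nat_lit 0x0)
  (PL.C (nat_lit 0x11f9d552) (nat_lit 0xc49ad76131e0e) (nat_lit 0x0)
  (PL.C (nat_lit 0x11fa15fd) (nat_lit 0x0) (nat_lit 0x500e78bee225db)
  (PL.C (nat_lit 0x12117dc5) (nat_lit 0x0) (nat_lit 0x23924cf74ab053)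
  (PL.C (nat_lit 0x121a2afe) (nat_lit 0x1234aa43e909c97) (nat_lit 0x0)
  (PL.C (nat_lit 0x121c18ca) (nat_lit 0x637557e800235d) (nat_lit 0x0) gp0_1_158))))))))))))))))))))

noncomputable def gp0_1_156 : PL :=
  (PL.C (nat_lit 0x112b7053) (nat_lit 0x0) (nat_lit 0x179451d6599b1d)
  (PL.C (nat_lit 0x113b80c9) (nat_lit 0x706f74bc36e39) (nat_lit 0x0)
  (PL.C (nat_lit 0x113b8eb3) (nat_lit 0x0) (nat_lit 0x39c560c3ba4e3c7)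
  (PL.C (nat_lit 0x114522ed) (nat_lit 0x109287ae3c558f) (nat_lit 0x0)
  (PL.C (nat_lit 0x114e09fd) (nat_lit 0x0) (nat_lit 0x9cbf210841941d)
  (PL.C (nat_lit 0x1150a715) (nat_lit 0xea95a00698160) (nat_lit 0x0)
  (PL.C (nat_lit 0x1151fe6b) (nat_lit 0xa574804a9f9693) (nat_lit 0x0)
  (PL.C (nat_lit 0x115930dc) (nat_lit 0x0) (nat_lit 0xf0cffd22f28da)
  (PL.C (nat_lit 0x115aa995) (nat_lit 0x0) (nat_lit 0xc57f0ea4a660d6)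
  (PL.C (nat_lit 0x115daece) (nat_lit 0x394c5704ce9bbc) (nat_lit 0x0)
  (PL.C (nat_lit 0x116491c5) (nat_lit 0xbbb7c4633d6df) (nat_lit 0x0)
  (PL.C (nat_lit 0x116b31eb) (nat_lit 0x109287c23ce4d4) (nat_lit 0x0)
  (PL.C (nat_lit 0x116c0a9a) (nat_lit 0x4bc9d862cff817) (nat_lit 0x0)
  (PL.C (nat_lit 0x116d463b) (nat_lit 0x0) (nat_lit 0x18d67c0ae204ff)
  (PL.C (nat_lit 0x116eb1e7) (nat_lit 0x61ba9f37e363524) (nat_lit 0x0)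
  (PL.C (nat_lit 0x117a3629) (nat_lit 0x420c1874606c0a) (nat_lit 0x0)
  (PL.C (nat_lit 0x1180e803) (nat_lit 0x14739f9d3c524c4) (nat_lit 0x0)
  (PL.C (nat_lit 0x11816409) (nat_lit 0x0) (nat_lit 0x4c0e8c744b1671)
  (PL.C (nat_lit 0x11874225) (nat_lit 0x0) (nat_lit 0x23dd0644928078c)
  (PL.C (nat_lit 0x118818a3) (nat_lit 0x38ddf1b248ee1) (nat_lit 0x0) gp0_1_157))))))))))))))))))))

noncomputable def gp0_1_155 : PL :=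
  (PL.C (nat_lit 0x10b92151) (nat_lit 0x0) (nat_lit 0x36505fd8e45d6)
  (PL.C (nat_lit 0x10c2433f) (nat_lit 0x0) (nat_lit 0x456a44bd0d4757)
  (PL.C (nat_lit 0x10c64fb6) (nat_lit 0x136df0c6391aed) (nat_lit 0x0)
  (PL.C (nat_lit 0x10c92336) (nat_lit 0x0) (nat_lit 0x1a79aa0a8f0a64)
  (PL.C (nat_lit 0x10d0fe66) (nat_lit 0x104573db2a6fe6) (nat_lit 0x0)
  (PL.C (nat_lit 0x10d7c4db) (nat_lit 0x0) (nat_lit 0xc90fcb2a72498)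
  (PL.C (nat_lit 0x10f08579) (nat_lit 0x0) (nat_lit 0x2dd5d7cf230c3)
  (PL.C (nat_lit 0x10f0d469) (nat_lit 0x47af595acc2894) (nat_lit 0x0)
  (PL.C (nat_lit 0x10f1f45e) (nat_lit 0x0) (nat_lit 0x13b61229eb3826)
  (PL.C (nat_lit 0x10f4bc82) (nat_lit 0x0) (nat_lit 0x500425cdf0c066)
  (PL.C (nat_lit 0x10f7a266) (nat_lit 0x0) (nat_lit 0x31286646d9a7c5)
  (PL.C (nat_lit 0x10fef165) (nat_lit 0x5574e4c0cc59e1) (nat_lit 0x0)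
  (PL.C (nat_lit 0x11128fd7) (nat_lit 0x3b800b304de269) (nat_lit 0x0)
  (PL.C (nat_lit 0x111360c1) (nat_lit 0x33a3add3ad4ccd) (nat_lit 0x0)
  (PL.C (nat_lit 0x1115d9ff) (nat_lit 0x0) (nat_lit 0x1163d72cae7fe6)
  (PL.C (nat_lit 0x111919fd) (nat_lit 0x3797d0b66efe4e1) (nat_lit 0x0)
  (PL.C (nat_lit 0x111ea8af) (nat_lit 0xad4f1a8b3db93) (nat_lit 0x0)
  (PL.C (nat_lit 0x1124fe5e) (nat_lit 0x22a179eadabf2c) (nat_lit 0x0)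
  (PL.C (nat_lit 0x11258c92) (nat_lit 0xe6ca3f5151abd6) (nat_lit 0x0)
  (PL.C (nat_lit 0x112aec8a) (nat_lit 0x2c6efe772a677d) (nat_lit 0x0) gp0_1_156))))))))))))))))))))

noncomputable def gp0_1_154 : PL :=
  (PL.C (nat_lit 0x103b05af) (nat_lit 0x379a6457087128) (nat_lit 0x0)
  (PL.C (nat_lit 0x1052b075) (nat_lit 0x0) (nat_lit 0x470e27ee437b62b)
  (PL.C (nat_lit 0x105d5812) (nat_lit 0xe27aa2d7d53a4) (nat_lit 0x0)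
  (PL.C (nat_lit 0x105e7a7d) (nat_lit 0x4081fded21cf31) (nat_lit 0x0)
  (PL.C (nat_lit 0x106087f6) (nat_lit 0x0) (nat_lit 0x28e428ce7c5edc)
  (PL.C (nat_lit 0x1062d44a) (nat_lit 0x0) (nat_lit 0x13b61229eb3826)
  (PL.C (nat_lit 0x1067f0fd) (nat_lit 0x6833bc42aa7ea) (nat_lit 0x0)
  (PL.C (nat_lit 0x10702703) (nat_lit 0x156e7c84ccf08b9) (nat_lit 0x0)
  (PL.C (nat_lit 0x107142e6) (nat_lit 0x0) (nat_lit 0xfe6ffaf03f919)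
  (PL.C (nat_lit 0x1072e1a5) (nat_lit 0x0) (nat_lit 0xa82389b224178c)
  (PL.C (nat_lit 0x107dbf8b) (nat_lit 0x0) (nat_lit 0x38d99567a14850)
  (PL.C (nat_lit 0x108320a1) (nat_lit 0x0) (nat_lit 0x1d5e07b70e0e953)
  (PL.C (nat_lit 0x1085aae2) (nat_lit 0x2c6efe772a677d) (nat_lit 0x0)
  (PL.C (nat_lit 0x109460a5) (nat_lit 0x156e7c84ccf08b9) (nat_lit 0x0)
  (PL.C (nat_lit 0x109cf2c6) (nat_lit 0x1bdc129c4526de) (nat_lit 0x0)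
  (PL.C (nat_lit 0x10a1a8fa) (nat_lit 0x0) (nat_lit 0x18f734bbef3ba5)
  (PL.C (nat_lit 0x10a4019f) (nat_lit 0x0) (nat_lit 0x6528cabccfa657)
  (PL.C (nat_lit 0x10a41ab5) (nat_lit 0xa104a072014446) (nat_lit 0x0)
  (PL.C (nat_lit 0x10b364c6) (nat_lit 0x0) (nat_lit 0x63874f8a2c792e)
  (PL.C (nat_lit 0x10b4dbbe) (nat_lit 0x95c255101ec763) (nat_lit 0x0) gp0_1_155))))))))))))))))))))

noncomputable def gp0_1_153 : PL :=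
  (PL.C (nat_lit 0xfdfeb8b) (nat_lit 0x0) (nat_lit 0x4f331c4de9cf5)
  (PL.C (nat_lit 0xfe2b3af) (nat_lit 0x0) (nat_lit 0x2ff80d4dc45f07)
  (PL.C (nat_lit 0xfebc53f) (nat_lit 0x7d68d5108638a) (nat_lit 0x0)
  (PL.C (nat_lit 0xff50a05) (nat_lit 0x0) (nat_lit 0x22b6662f22b3e4)
  (PL.C (nat_lit 0xffc1e4b) (nat_lit 0x0) (nat_lit 0x585edc63ea9bf)
  (PL.C (nat_lit 0x1000588d) (nat_lit 0x0) (nat_lit 0x7fb6dfbfb6728)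
  (PL.C (nat_lit 0x1002b6e1) (nat_lit 0x36ea54dc271bcdc) (nat_lit 0x0)
  (PL.C (nat_lit 0x1003cb62) (nat_lit 0x0) (nat_lit 0x22cc28718f9cf47)
  (PL.C (nat_lit 0x1005b599) (nat_lit 0x0) (nat_lit 0x75270e857e0bf9)
  (PL.C (nat_lit 0x1015322b) (nat_lit 0xd2ad73bcbb089f7) (nat_lit 0x0)
  (PL.C (nat_lit 0x10178f49) (nat_lit 0x82b617703fc3c7) (nat_lit 0x0)
  (PL.C (nat_lit 0x101a5c46) (nat_lit 0x17a66bfaffa78c) (nat_lit 0x0)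
  (PL.C (nat_lit 0x101bf275) (nat_lit 0x45b39e45f17afb) (nat_lit 0x0)
  (PL.C (nat_lit 0x10214bf5) (nat_lit 0x42aa33729781de) (nat_lit 0x0)
  (PL.C (nat_lit 0x1025ff57) (nat_lit 0x0) (nat_lit 0x1d137f701676f64)
  (PL.C (nat_lit 0x102a22a3) (nat_lit 0x0) (nat_lit 0x12c3425fb71fe98)
  (PL.C (nat_lit 0x102ca177) (nat_lit 0x0) (nat_lit 0x569c73b739b8dd)
  (PL.C (nat_lit 0x103053c1) (nat_lit 0x0) (nat_lit 0x1166b60aac6ef6)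
  (PL.C (nat_lit 0x10320d5b) (nat_lit 0x10e175c13e58bb8) (nat_lit 0x0)
  (PL.C (nat_lit 0x1032ef3e) (nat_lit 0x61bffe9eaffccf) (nat_lit 0x0) gp0_1_154))))))))))))))))))))

noncomputable def gp0_1_152 : PL :=
  (PL.C (nat_lit 0xf520e2a) (nat_lit 0x4afb46d3cebc87) (nat_lit 0x0)
  (PL.C (nat_lit 0xf5911e4) (nat_lit 0x0) (nat_lit 0x1d8d983f2433fc)
  (PL.C (nat_lit 0xf7136bb) (nat_lit 0x0) (nat_lit 0x50beab46bc0e3c)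
  (PL.C (nat_lit 0xf73f642) (nat_lit 0x408dae540475a) (nat_lit 0x0)
  (PL.C (nat_lit 0xf81c675) (nat_lit 0x1f95a37d5a5199) (nat_lit 0x0)
  (PL.C (nat_lit 0xf873fe2) (nat_lit 0xf3826f5358f086) (nat_lit 0x0)
  (PL.C (nat_lit 0xf9132a4) (nat_lit 0x76bacdfa132ed) (nat_lit 0x0)
  (PL.C (nat_lit 0xf97e73e) (nat_lit 0x14eab87382441d) (nat_lit 0x0)
  (PL.C (nat_lit 0xfa5af8a) (nat_lit 0xc8362ad0dda475) (nat_lit 0x0)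
  (PL.C (nat_lit 0xfa6668e) (nat_lit 0x0) (nat_lit 0x9a983ebfe35ed0)
  (PL.C (nat_lit 0xfa6b067) (nat_lit 0x3870bdad7e98a6) (nat_lit 0x0)
  (PL.C (nat_lit 0xfb25def) (nat_lit 0xbbb7c4633d6df) (nat_lit 0x0)
  (PL.C (nat_lit 0xfc0f2dd) (nat_lit 0x245390773832b0) (nat_lit 0x0)
  (PL.C (nat_lit 0xfc48c8b) (nat_lit 0x0) (nat_lit 0xf86e19f5ecb29c)
  (PL.C (nat_lit 0xfc63aa9) (nat_lit 0x0) (nat_lit 0x41b8974b3da7cf5)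
  (PL.C (nat_lit 0xfcef745) (nat_lit 0x0) (nat_lit 0x9063f8961cd12)
  (PL.C (nat_lit 0xfd575a5) (nat_lit 0x0) (nat_lit 0x452900997c3d28)
  (PL.C (nat_lit 0xfd588e4) (nat_lit 0x0) (nat_lit 0x1baa4a6872a528)
  (PL.C (nat_lit 0xfdac451) (nat_lit 0x0) (nat_lit 0x23dd0644928078c)
  (PL.C (nat_lit 0xfdd625b) (nat_lit 0x0) (nat_lit 0x459d59a3120b5) gp0_1_153))))))))))))))))))))

noncomputable def gp0_1_151 : PL :=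
  (PL.C (nat_lit 0xec6954f) (nat_lit 0xc2376cae502846) (nat_lit 0x0)
  (PL.C (nat_lit 0xed05841) (nat_lit 0x0) (nat_lit 0x614beeba8cd530)
  (PL.C (nat_lit 0xed5d382) (nat_lit 0x0) (nat_lit 0x335e3f4100c632)
  (PL.C (nat_lit 0xed9a0aa) (nat_lit 0x153bf92e95d1a8c) (nat_lit 0x0)
  (PL.C (nat_lit 0xee10f56) (nat_lit 0x14572175108e67) (nat_lit 0x0)
  (PL.C (nat_lit 0xee9c377) (nat_lit 0x419e15c0905a03) (nat_lit 0x0)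
  (PL.C (nat_lit 0xeef79dd) (nat_lit 0x1dadb20b661305f) (nat_lit 0x0)
  (PL.C (nat_lit 0xef957d3) (nat_lit 0x9534717a35c28d) (nat_lit 0x0)
  (PL.C (nat_lit 0xeff7e73) (nat_lit 0x0) (nat_lit 0x379f0e5f123d94)
  (PL.C (nat_lit 0xf01d97a) (nat_lit 0x62f851f0240952) (nat_lit 0x0)
  (PL.C (nat_lit 0xf048567) (nat_lit 0x0) (nat_lit 0x8c25612b3de9b8)
  (PL.C (nat_lit 0xf1177bd) (nat_lit 0x1a4ccf079226e20) (nat_lit 0x0)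
  (PL.C (nat_lit 0xf153711) (nat_lit 0x0) (nat_lit 0x42b8d4229083d)
  (PL.C (nat_lit 0xf1c7546) (nat_lit 0x0) (nat_lit 0x230aaabe7e9788)
  (PL.C (nat_lit 0xf2b620e) (nat_lit 0x146feb573d7fa) (nat_lit 0x0)
  (PL.C (nat_lit 0xf2caa1a) (nat_lit 0xc49ad76131e0e) (nat_lit 0x0)
  (PL.C (nat_lit 0xf2ce0b1) (nat_lit 0x0) (nat_lit 0xdc2c00edc6f791)
  (PL.C (nat_lit 0xf31c032) (nat_lit 0x0) (nat_lit 0x1bc50c87a0e923)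
  (PL.C (nat_lit 0xf384baf) (nat_lit 0x470c7fdce3150) (nat_lit 0x0)
  (PL.C (nat_lit 0xf3e359a) (nat_lit 0x0) (nat_lit 0x2c14162c1284167) gp0_1_152))))))))))))))))))))

noncomputable def gp0_1_150 : PL :=
  (PL.C (nat_lit 0xe787dbf) (nat_lit 0x0) (nat_lit 0xa00f9f7721c477)
  (PL.C (nat_lit 0xe7b5dec) (nat_lit 0x0) (nat_lit 0x1dd393b0f86699)
  (PL.C (nat_lit 0xe7dd87e) (nat_lit 0xb3bde2d8aaf29b) (nat_lit 0x0)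
  (PL.C (nat_lit 0xe7e0032) (nat_lit 0x64bac7b6842044) (nat_lit 0x0)
  (PL.C (nat_lit 0xe834b23) (nat_lit 0x0) (nat_lit 0x15d28e97b55f0f)
  (PL.C (nat_lit 0xe8c0abf) (nat_lit 0xd2ad73bcbb089f7) (nat_lit 0x0)
  (PL.C (nat_lit 0xe8d23fa) (nat_lit 0x0) (nat_lit 0x6abe5287ccbc1e)
  (PL.C (nat_lit 0xe9026e1) (nat_lit 0x0) (nat_lit 0x14241f21b812cc)
  (PL.C (nat_lit 0xe9ba4b1) (nat_lit 0x2f61bbcfe6ace2) (nat_lit 0x0)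
  (PL.C (nat_lit 0xe9efb57) (nat_lit 0x0) (nat_lit 0x78b036739a3ce4)
  (PL.C (nat_lit 0xea08a2d) (nat_lit 0x0) (nat_lit 0x248e14ade41d88c)
  (PL.C (nat_lit 0xea64ca9) (nat_lit 0x0) (nat_lit 0xf53c3e4c4e9411)
  (PL.C (nat_lit 0xeaea999) (nat_lit 0x11dff6ffd0aa7f) (nat_lit 0x0)
  (PL.C (nat_lit 0xeaffa47) (nat_lit 0x0) (nat_lit 0xd30f4366384564)
  (PL.C (nat_lit 0xeb39575) (nat_lit 0x0) (nat_lit 0x67bca8ac56605)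
  (PL.C (nat_lit 0xeb5698e) (nat_lit 0x0) (nat_lit 0x1f0fab6d631a40f)
  (PL.C (nat_lit 0xeb735c3) (nat_lit 0xe38d8cbd34a2b9) (nat_lit 0x0)
  (PL.C (nat_lit 0xec0ee8d) (nat_lit 0xe4d50a9f25445f) (nat_lit 0x0)
  (PL.C (nat_lit 0xec288fb) (nat_lit 0xc76977007ea63) (nat_lit 0x0)
  (PL.C (nat_lit 0xec6641a) (nat_lit 0x376e0f44d70536) (nat_lit 0x0) gp0_1_151))))))))))))))))))))

noncomputable def gp0_1_149 : PL :=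
  (PL.C (nat_lit 0xdddbf0d) (nat_lit 0x0) (nat_lit 0x4d39f1220a9dbc)
  (PL.C (nat_lit 0xdf0f6ee) (nat_lit 0x9df75086f0a669) (nat_lit 0x0)
  (PL.C (nat_lit 0xdf358ea) (nat_lit 0xa62721b6ff499a) (nat_lit 0x0)
  (PL.C (nat_lit 0xdfbb676) (nat_lit 0x0) (nat_lit 0x3c39ea831061aa)
  (PL.C (nat_lit 0xe020c6b) (nat_lit 0x14e27fce91257) (nat_lit 0x0)
  (PL.C (nat_lit 0xe031d9e) (nat_lit 0x35c1420dc3bf4e) (nat_lit 0x0)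
  (PL.C (nat_lit 0xe125755) (nat_lit 0x0) (nat_lit 0x8ca28c7e6b3ccf)
  (PL.C (nat_lit 0xe22ac41) (nat_lit 0x0) (nat_lit 0x3b6c294967492)
  (PL.C (nat_lit 0xe25a67b) (nat_lit 0x0) (nat_lit 0x456a44bd0d4757)
  (PL.C (nat_lit 0xe36d806) (nat_lit 0x0) (nat_lit 0x7fb1a3cbd093f)
  (PL.C (nat_lit 0xe39c18d) (nat_lit 0x0) (nat_lit 0xb56c17c5a939a)
  (PL.C (nat_lit 0xe480b16) (nat_lit 0x379a0132496703) (nat_lit 0x0)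
  (PL.C (nat_lit 0xe4cf5cd) (nat_lit 0x0) (nat_lit 0x78b036739a3ce4)
  (PL.C (nat_lit 0xe50420a) (nat_lit 0x0) (nat_lit 0x7611fcf717b324)
  (PL.C (nat_lit 0xe58dfb9) (nat_lit 0x0) (nat_lit 0xa00f9f7721c477)
  (PL.C (nat_lit 0xe5b22fc) (nat_lit 0x0) (nat_lit 0x1d8d983f2433fc)
  (PL.C (nat_lit 0xe696f73) (nat_lit 0x0) (nat_lit 0x50beab46bc0e3c)
  (PL.C (nat_lit 0xe6d58d6) (nat_lit 0x53b7e8531d2368) (nat_lit 0x0)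
  (PL.C (nat_lit 0xe6ef4b1) (nat_lit 0x0) (nat_lit 0x6aa2e0282e69c8)
  (PL.C (nat_lit 0xe73a5ab) (nat_lit 0x6c0d2b0c3c722) (nat_lit 0x0) gp0_1_150))))))))))))))))))))

noncomputable def gp0_1_148 : PL :=
  (PL.C (nat_lit 0xd7e62b7) (nat_lit 0x0) (nat_lit 0x621173cae971f3)
  (PL.C (nat_lit 0xd83f425) (nat_lit 0x0) (nat_lit 0x60f62eca58d38e4)
  (PL.C (nat_lit 0xd8abb02) (nat_lit 0x0) (nat_lit 0xd02b75348481f)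
  (PL.C (nat_lit 0xd8bab55) (nat_lit 0x49dd0072b13a0d) (nat_lit 0x0)
  (PL.C (nat_lit 0xd8dcbf6) (nat_lit 0x0) (nat_lit 0xaff0b3da80021c)
  (PL.C (nat_lit 0xd8ec3d3) (nat_lit 0xfa58001b3fc54) (nat_lit 0x0)
  (PL.C (nat_lit 0xd938e17) (nat_lit 0x0) (nat_lit 0x2408ed80a263bed)
  (PL.C (nat_lit 0xd994109) (nat_lit 0x480097072f1d8) (nat_lit 0x0)
  (PL.C (nat_lit 0xda11d89) (nat_lit 0x3e8ce018e732b7) (nat_lit 0x0)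
  (PL.C (nat_lit 0xda1bcf3) (nat_lit 0x340e9942a3f108f) (nat_lit 0x0)
  (PL.C (nat_lit 0xdabea07) (nat_lit 0x0) (nat_lit 0xb72c487485307)
  (PL.C (nat_lit 0xdaca8b6) (nat_lit 0x2d4fc3d57cb46c) (nat_lit 0x0)
  (PL.C (nat_lit 0xdafbb87) (nat_lit 0x2cf2ac66660d10) (nat_lit 0x0)
  (PL.C (nat_lit 0xdb88e56) (nat_lit 0x56f5abc5b18572) (nat_lit 0x0)
  (PL.C (nat_lit 0xdbdc933) (nat_lit 0x58ad918d0d59c7) (nat_lit 0x0)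
  (PL.C (nat_lit 0xdc77709) (nat_lit 0x47da10caf3afd14) (nat_lit 0x0)
  (PL.C (nat_lit 0xdd3264e) (nat_lit 0x0) (nat_lit 0x230aaabe7e9788)
  (PL.C (nat_lit 0xdd516f2) (nat_lit 0x1fbabf4c5ae8c9) (nat_lit 0x0)
  (PL.C (nat_lit 0xdd7c896) (nat_lit 0x0) (nat_lit 0x8fa258d6974a5)
  (PL.C (nat_lit 0xdd967b1) (nat_lit 0x19019f8b3a2170d) (nat_lit 0x0) gp0_1_149))))))))))))))))))))

noncomputable def gp0_1_147 : PL :=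
  (PL.C (nat_lit 0xd194207) (nat_lit 0x49dd0072b13a0d) (nat_lit 0x0)
  (PL.C (nat_lit 0xd1a58c4) (nat_lit 0x0) (nat_lit 0x143601dcd7792d)
  (PL.C (nat_lit 0xd1b7f25) (nat_lit 0x10837f8b5a7fd2) (nat_lit 0x0)
  (PL.C (nat_lit 0xd1bbaea) (nat_lit 0xbff2dc31e9857d) (nat_lit 0x0)
  (PL.C (nat_lit 0xd234176) (nat_lit 0x0) (nat_lit 0x1a79aa0a8f0a64)
  (PL.C (nat_lit 0xd288864) (nat_lit 0x6aadc6b8c0ddce) (nat_lit 0x0)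
  (PL.C (nat_lit 0xd2e335e) (nat_lit 0x1bdc129c4526de) (nat_lit 0x0)
  (PL.C (nat_lit 0xd33e0c9) (nat_lit 0x0) (nat_lit 0x17c4a23be93b41)
  (PL.C (nat_lit 0xd37b371) (nat_lit 0x0) (nat_lit 0x3513055677242a)
  (PL.C (nat_lit 0xd4dc17d) (nat_lit 0x3d5397a17ffa94) (nat_lit 0x0)
  (PL.C (nat_lit 0xd4f79f7) (nat_lit 0x0) (nat_lit 0x161354ec6bdc6b)
  (PL.C (nat_lit 0xd50e50d) (nat_lit 0x2a3bc78959a1209) (nat_lit 0x0)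
  (PL.C (nat_lit 0xd584519) (nat_lit 0x0) (nat_lit 0x298235e1924d84e)
  (PL.C (nat_lit 0xd5d3532) (nat_lit 0x0) (nat_lit 0x5fc641ad22783a)
  (PL.C (nat_lit 0xd623b55) (nat_lit 0x0) (nat_lit 0x1eaaa8bad23e05)
  (PL.C (nat_lit 0xd6694f7) (nat_lit 0x470c7fdce3150) (nat_lit 0x0)
  (PL.C (nat_lit 0xd6b12db) (nat_lit 0xa32ec4871cbbe1) (nat_lit 0x0)
  (PL.C (nat_lit 0xd6bbaa3) (nat_lit 0x0) (nat_lit 0x2649c9995526a54)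
  (PL.C (nat_lit 0xd75547e) (nat_lit 0x1b2aca514fd139) (nat_lit 0x0)
  (PL.C (nat_lit 0xd7d33db) (nat_lit 0x0) (nat_lit 0x5eedd7471f15810) gp0_1_148))))))))))))))))))))

noncomputable def gp0_1_146 : PL :=
  (PL.C (nat_lit 0xc9b9c11) (nat_lit 0xde810bf014542f) (nat_lit 0x0)
  (PL.C (nat_lit 0xca35c8d) (nat_lit 0x9a8ada48acfa1) (nat_lit 0x0)
  (PL.C (nat_lit 0xca3f05f) (nat_lit 0x213ef1ed9152614) (nat_lit 0x0)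
  (PL.C (nat_lit 0xca89dbe) (nat_lit 0x197e1cb3622d049) (nat_lit 0x0)
  (PL.C (nat_lit 0xcae10ce) (nat_lit 0x0) (nat_lit 0xf1a3d7264ba23)
  (PL.C (nat_lit 0xcb359c4) (nat_lit 0x0) (nat_lit 0xf0cffd22f28da)
  (PL.C (nat_lit 0xcc194de) (nat_lit 0x0) (nat_lit 0x28e428ce7c5edc)
  (PL.C (nat_lit 0xcc410da) (nat_lit 0x0) (nat_lit 0x1eee72e1650c75e)
  (PL.C (nat_lit 0xcc6ec0d) (nat_lit 0x0) (nat_lit 0x686ed40dc48e3f)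
  (PL.C (nat_lit 0xcca0242) (nat_lit 0x0) (nat_lit 0x1d37fd406fb445)
  (PL.C (nat_lit 0xccf7135) (nat_lit 0x1821ebdf40f955c) (nat_lit 0x0)
  (PL.C (nat_lit 0xcd914ab) (nat_lit 0x0) (nat_lit 0x4f331c4de9cf5)
  (PL.C (nat_lit 0xce8f06f) (nat_lit 0x0) (nat_lit 0x451bcd4a4317ef)
  (PL.C (nat_lit 0xcef5f59) (nat_lit 0x0) (nat_lit 0x12c3425fb71fe98)
  (PL.C (nat_lit 0xcf74a49) (nat_lit 0x0) (nat_lit 0x13cf640)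
  (PL.C (nat_lit 0xcfd3eb7) (nat_lit 0x66023c35f1529) (nat_lit 0x0)
  (PL.C (nat_lit 0xd0920e7) (nat_lit 0x3b800b304de269) (nat_lit 0x0)
  (PL.C (nat_lit 0xd0b72ca) (nat_lit 0x0) (nat_lit 0x180ca65702d7bc)
  (PL.C (nat_lit 0xd0fd222) (nat_lit 0x0) (nat_lit 0x10a5144a8bc53e)
  (PL.C (nat_lit 0xd157277) (nat_lit 0x0) (nat_lit 0x7470777993907) gp0_1_147))))))))))))))))))))

noncomputable def gp0_1_145 : PL :=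
  (PL.C (nat_lit 0xc419d15) (nat_lit 0x40763a673c4b15) (nat_lit 0x0)
  (PL.C (nat_lit 0xc47abfb) (nat_lit 0x0) (nat_lit 0xab69cfc9b0fcbe7)
  (PL.C (nat_lit 0xc489962) (nat_lit 0x0) (nat_lit 0x14da0784e5f57a)
  (PL.C (nat_lit 0xc4b2425) (nat_lit 0x0) (nat_lit 0xabc8fdad38000f)
  (PL.C (nat_lit 0xc4fc8d5) (nat_lit 0x0) (nat_lit 0xb14e7699055dc1)
  (PL.C (nat_lit 0xc57a8f3) (nat_lit 0x47af595acc2894) (nat_lit 0x0)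
  (PL.C (nat_lit 0xc58f9a1) (nat_lit 0x0) (nat_lit 0x248e14ade41d88c)
  (PL.C (nat_lit 0xc5fd05d) (nat_lit 0xb6e08e8853e58a) (nat_lit 0x0)
  (PL.C (nat_lit 0xc657ac2) (nat_lit 0x306754c3cfbd5) (nat_lit 0x0)
  (PL.C (nat_lit 0xc6a9846) (nat_lit 0xad0a57b176ce01) (nat_lit 0x0)
  (PL.C (nat_lit 0xc75ac27) (nat_lit 0x4522d2d28ac8b5) (nat_lit 0x0)
  (PL.C (nat_lit 0xc79d94b) (nat_lit 0x2a630737f10b04a) (nat_lit 0x0)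
  (PL.C (nat_lit 0xc7e29be) (nat_lit 0x48b52e802a3898) (nat_lit 0x0)
  (PL.C (nat_lit 0xc813196) (nat_lit 0x9f921fe6b830ba) (nat_lit 0x0)
  (PL.C (nat_lit 0xc85f50a) (nat_lit 0x8e996e0601bc4) (nat_lit 0x0)
  (PL.C (nat_lit 0xc885219) (nat_lit 0x0) (nat_lit 0x71c8e2dbbe6fc)
  (PL.C (nat_lit 0xc8e9aca) (nat_lit 0x0) (nat_lit 0x57d89b9ab5e10)
  (PL.C (nat_lit 0xc8ffd74) (nat_lit 0x0) (nat_lit 0x143601dcd7792d)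
  (PL.C (nat_lit 0xc92fd85) (nat_lit 0x0) (nat_lit 0x1a961e37f767b8a)
  (PL.C (nat_lit 0xc96c993) (nat_lit 0x0) (nat_lit 0x27da910a84791a5) gp0_1_146))))))))))))))))))))

noncomputable def gp0_1_144 : PL :=
  (PL.C (nat_lit 0xbef0215) (nat_lit 0x27be5342559faf9) (nat_lit 0x0)
  (PL.C (nat_lit 0xbfbe38c) (nat_lit 0x147ac61fbbeae3) (nat_lit 0x0)
  (PL.C (nat_lit 0xbfe8b9d) (nat_lit 0x885dce3508fb0e) (nat_lit 0x0)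
  (PL.C (nat_lit 0xc042111) (nat_lit 0x0) (nat_lit 0xe097470ed5373)
  (PL.C (nat_lit 0xc048c63) (nat_lit 0x66b22f1cff5715) (nat_lit 0x0)
  (PL.C (nat_lit 0xc06c52b) (nat_lit 0x272727ee939e70e) (nat_lit 0x0)
  (PL.C (nat_lit 0xc0abe53) (nat_lit 0x0) (nat_lit 0x8cd818bbe7e127)
  (PL.C (nat_lit 0xc0ba92e) (nat_lit 0x0) (nat_lit 0x6c2a3db9356290)
  (PL.C (nat_lit 0xc126bc1) (nat_lit 0xa574804a9f9693) (nat_lit 0x0)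
  (PL.C (nat_lit 0xc166da3) (nat_lit 0x0) (nat_lit 0x2c21b5e5e71183)
  (PL.C (nat_lit 0xc17ee82) (nat_lit 0x0) (nat_lit 0x2c14162c1284167)
  (PL.C (nat_lit 0xc1c7a5d) (nat_lit 0x1deb9ee6d9ea51) (nat_lit 0x0)
  (PL.C (nat_lit 0xc1f0845) (nat_lit 0x82b617703fc3c7) (nat_lit 0x0)
  (PL.C (nat_lit 0xc22733c) (nat_lit 0x0) (nat_lit 0x4af1f6e11ec25a)
  (PL.C (nat_lit 0xc27ad52) (nat_lit 0x0) (nat_lit 0xaff0b3da80021c)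
  (PL.C (nat_lit 0xc2dc2ae) (nat_lit 0x1603a4f879418) (nat_lit 0x0)
  (PL.C (nat_lit 0xc2fa2aa) (nat_lit 0x17b93c85b967e45) (nat_lit 0x0)
  (PL.C (nat_lit 0xc34861b) (nat_lit 0x0) (nat_lit 0x6bedffbb27c76)
  (PL.C (nat_lit 0xc372afb) (nat_lit 0x5574e4c0cc59e1) (nat_lit 0x0)
  (PL.C (nat_lit 0xc40941f) (nat_lit 0x19019f8b3a2170d) (nat_lit 0x0) gp0_1_145))))))))))))))))))))

noncomputable def gp0_1_143 : PL :=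
  (PL.C (nat_lit 0xb81e1ff) (nat_lit 0x8461bb811d4a7) (nat_lit 0x0)
  (PL.C (nat_lit 0xb88f543) (nat_lit 0x80528ef09cb306) (nat_lit 0x0)
  (PL.C (nat_lit 0xb895bfe) (nat_lit 0x4b96dcee52794) (nat_lit 0x0)
  (PL.C (nat_lit 0xb8bfef2) (nat_lit 0x1868c8bdd117547) (nat_lit 0x0)
  (PL.C (nat_lit 0xb8f97cd) (nat_lit 0x11882711d132b0) (nat_lit 0x0)
  (PL.C (nat_lit 0xb98612e) (nat_lit 0x0) (nat_lit 0x852a089728bd3a)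
  (PL.C (nat_lit 0xb998f3f) (nat_lit 0x0) (nat_lit 0x44af244f3f548f)
  (PL.C (nat_lit 0xb9e2ed2) (nat_lit 0x136df0c6391aed) (nat_lit 0x0)
  (PL.C (nat_lit 0xba1baed) (nat_lit 0x0) (nat_lit 0x2310020f7fc805)
  (PL.C (nat_lit 0xba6cec6) (nat_lit 0x4232002c201f06) (nat_lit 0x0)
  (PL.C (nat_lit 0xbab9806) (nat_lit 0x0) (nat_lit 0x8da795f9fc912b)
  (PL.C (nat_lit 0xbaf816e) (nat_lit 0x0) (nat_lit 0x12d9edf0f38379c)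
  (PL.C (nat_lit 0xbb07ee3) (nat_lit 0x0) (nat_lit 0x2cded34ac0eceb)
  (PL.C (nat_lit 0xbb26966) (nat_lit 0x0) (nat_lit 0x13505c686e81cf)
  (PL.C (nat_lit 0xbb48a01) (nat_lit 0x0) (nat_lit 0x298235e1924d84e)
  (PL.C (nat_lit 0xbb7c91e) (nat_lit 0x0) (nat_lit 0x18f734bbef3ba5)
  (PL.C (nat_lit 0xbc4c326) (nat_lit 0x4b96dcee52794) (nat_lit 0x0)
  (PL.C (nat_lit 0xbd725bb) (nat_lit 0x0) (nat_lit 0x560518b1bc544)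
  (PL.C (nat_lit 0xbd8373a) (nat_lit 0x0) (nat_lit 0x7611fcf717b324)
  (PL.C (nat_lit 0xbe9dff7) (nat_lit 0x9cf48157721f5) (nat_lit 0x0) gp0_1_144))))))))))))))))))))

noncomputable def gp0_1_142 : PL :=
  (PL.C (nat_lit 0xb285ef5) (nat_lit 0x229feb6d8fd53) (nat_lit 0x0)
  (PL.C (nat_lit 0xb2a8b3f) (nat_lit 0x22b4d90881c1bc) (nat_lit 0x0)
  (PL.C (nat_lit 0xb2c1c61) (nat_lit 0x2cf2ac66660d10) (nat_lit 0x0)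
  (PL.C (nat_lit 0xb30c224) (nat_lit 0x0) (nat_lit 0x47aaf366ced791)
  (PL.C (nat_lit 0xb42a00f) (nat_lit 0x0) (nat_lit 0xeffb2bcbc7e1c7)
  (PL.C (nat_lit 0xb43dd3d) (nat_lit 0x0) (nat_lit 0x4d39f1220a9dbc)
  (PL.C (nat_lit 0xb448cbd) (nat_lit 0xa32f7d97ca2f61) (nat_lit 0x0)
  (PL.C (nat_lit 0xb4b3846) (nat_lit 0x825bdd7364ed0a) (nat_lit 0x0)
  (PL.C (nat_lit 0xb4b4e73) (nat_lit 0x0) (nat_lit 0x4c9ae0cc79432a)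
  (PL.C (nat_lit 0xb514927) (nat_lit 0x0) (nat_lit 0x313e9a16c2935)
  (PL.C (nat_lit 0xb544a6f) (nat_lit 0x0) (nat_lit 0x2649c9995526a54)
  (PL.C (nat_lit 0xb54a0ee) (nat_lit 0x65ef13bfc06c6a) (nat_lit 0x0)
  (PL.C (nat_lit 0xb5ccba9) (nat_lit 0x743ebfc3e87950) (nat_lit 0x0)
  (PL.C (nat_lit 0xb61b53a) (nat_lit 0x0) (nat_lit 0xd93043c3b03733)
  (PL.C (nat_lit 0xb630a87) (nat_lit 0x27be5342559faf9) (nat_lit 0x0)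
  (PL.C (nat_lit 0xb68bd79) (nat_lit 0x0) (nat_lit 0x3d1fbf99164cdf)
  (PL.C (nat_lit 0xb724ae2) (nat_lit 0x204d682c96bbb2) (nat_lit 0x0)
  (PL.C (nat_lit 0xb731605) (nat_lit 0x8db9614a35fe61) (nat_lit 0x0)
  (PL.C (nat_lit 0xb773917) (nat_lit 0x0) (nat_lit 0x246e19079d2fd1)
  (PL.C (nat_lit 0xb815b6d) (nat_lit 0x0) (nat_lit 0x1c5864bd80aae9c) gp0_1_143))))))))))))))))))))

noncomputable def gp0_1_141 : PL :=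
  (PL.C (nat_lit 0xabd4c4e) (nat_lit 0x49a23ed5eeb69f) (nat_lit 0x0)
  (PL.C (nat_lit 0xac0dd4e) (nat_lit 0x4afb46d3cebc87) (nat_lit 0x0)
  (PL.C (nat_lit 0xac6c1c2) (nat_lit 0x0) (nat_lit 0x39d8a1d11ba0814)
  (PL.C (nat_lit 0xac92b01) (nat_lit 0x0) (nat_lit 0x165e0bad1d963aa)
  (PL.C (nat_lit 0xacb4881) (nat_lit 0x0) (nat_lit 0x27da910a84791a5)
  (PL.C (nat_lit 0xad203ca) (nat_lit 0x0) (nat_lit 0x9f516176f757ea)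
  (PL.C (nat_lit 0xad6dc0f) (nat_lit 0x4081fded21cf31) (nat_lit 0x0)
  (PL.C (nat_lit 0xada9be5) (nat_lit 0x43dddb25e9a697) (nat_lit 0x0)
  (PL.C (nat_lit 0xae9a6fe) (nat_lit 0x15b3c97ba53f1e) (nat_lit 0x0)
  (PL.C (nat_lit 0xaeb507d) (nat_lit 0x0) (nat_lit 0x9bec2b0fbd9373)
  (PL.C (nat_lit 0xaeff5fe) (nat_lit 0x26cc0daecb7f634) (nat_lit 0x0)
  (PL.C (nat_lit 0xaf28733) (nat_lit 0x0) (nat_lit 0x4fadbabfdcae35)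
  (PL.C (nat_lit 0xafab347) (nat_lit 0x0) (nat_lit 0x67bca8ac56605)
  (PL.C (nat_lit 0xafe7fb2) (nat_lit 0x2b9ae76d4efe57) (nat_lit 0x0)
  (PL.C (nat_lit 0xb08538d) (nat_lit 0x2696178f830dba) (nat_lit 0x0)
  (PL.C (nat_lit 0xb0b7493) (nat_lit 0x4a47c951d469c7) (nat_lit 0x0)
  (PL.C (nat_lit 0xb134c84) (nat_lit 0x73b6748b3d9db4) (nat_lit 0x0)
  (PL.C (nat_lit 0xb1811ce) (nat_lit 0xb0d200e0cb85ca) (nat_lit 0x0)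
  (PL.C (nat_lit 0xb1e9e51) (nat_lit 0x241be80a9cdc411) (nat_lit 0x0)
  (PL.C (nat_lit 0xb261636) (nat_lit 0x1aa271f473556d) (nat_lit 0x0) gp0_1_142))))))))))))))))))))

noncomputable def gp0_1_140 : PL :=
  (PL.C (nat_lit 0xa6b84dd) (nat_lit 0x0) (nat_lit 0xd6fbc67527cd35)
  (PL.C (nat_lit 0xa76e94a) (nat_lit 0x0) (nat_lit 0x852a089728bd3a)
  (PL.C (nat_lit 0xa7dfe83) (nat_lit 0x0) (nat_lit 0xfc4dda7b89c62)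
  (PL.C (nat_lit 0xa815c4b) (nat_lit 0x398474e36a2042c) (nat_lit 0x0)
  (PL.C (nat_lit 0xa885b67) (nat_lit 0x110cece946c2401) (nat_lit 0x0)
  (PL.C (nat_lit 0xa893f2d) (nat_lit 0x0) (nat_lit 0x20dc949c4bc373)
  (PL.C (nat_lit 0xa89fa2e) (nat_lit 0xae1e912c56924d) (nat_lit 0x0)
  (PL.C (nat_lit 0xa8e4e6e) (nat_lit 0x0) (nat_lit 0x48987b3b814ae6)
  (PL.C (nat_lit 0xa8f09c3) (nat_lit 0xd621b9f405183) (nat_lit 0x0)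
  (PL.C (nat_lit 0xa91d836) (nat_lit 0x0) (nat_lit 0x12d9edf0f38379c)
  (PL.C (nat_lit 0xa9547b2) (nat_lit 0x0) (nat_lit 0x9ea49056a4958)
  (PL.C (nat_lit 0xa9665bd) (nat_lit 0xe4d50a9f25445f) (nat_lit 0x0)
  (PL.C (nat_lit 0xa9d2e2a) (nat_lit 0x0) (nat_lit 0x1bc50c87a0e923)
  (PL.C (nat_lit 0xa9d5459) (nat_lit 0x296327ce1370b69) (nat_lit 0x0)
  (PL.C (nat_lit 0xaa1c093) (nat_lit 0x1bac54cfb57d3c) (nat_lit 0x0)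
  (PL.C (nat_lit 0xaa81432) (nat_lit 0x0) (nat_lit 0x1f3def329a2f37)
  (PL.C (nat_lit 0xab19acd) (nat_lit 0x0) (nat_lit 0x2c21b5e5e71183)
  (PL.C (nat_lit 0xab92e95) (nat_lit 0x5dc2e1c8a917b) (nat_lit 0x0)
  (PL.C (nat_lit 0xaba5f86) (nat_lit 0xb0d54d2d2b1cd) (nat_lit 0x0)
  (PL.C (nat_lit 0xabc3d84) (nat_lit 0x0) (nat_lit 0x4af1f6e11ec25a) gp0_1_141))))))))))))))))))))

noncomputable def gp0_1_139 : PL :=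
  (PL.C (nat_lit 0xa2004d1) (nat_lit 0x885dce3508fb0e) (nat_lit 0x0)
  (PL.C (nat_lit 0xa212acc) (nat_lit 0x0) (nat_lit 0x181221b9d3b1ac)
  (PL.C (nat_lit 0xa2587ca) (nat_lit 0x0) (nat_lit 0x26425951f369a0)
  (PL.C (nat_lit 0xa2a50df) (nat_lit 0x0) (nat_lit 0x32a6461bb04c06)
  (PL.C (nat_lit 0xa2db923) (nat_lit 0x0) (nat_lit 0x1c5864bd80aae9c)
  (PL.C (nat_lit 0xa36b41c) (nat_lit 0x66291caa05df8a) (nat_lit 0x0)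
  (PL.C (nat_lit 0xa396bb7) (nat_lit 0x0) (nat_lit 0x165e0bad1d963aa)
  (PL.C (nat_lit 0xa3dd27f) (nat_lit 0x0) (nat_lit 0xdc8dd4902fea3)
  (PL.C (nat_lit 0xa423c2d) (nat_lit 0x0) (nat_lit 0x2316dc43315d6bd)
  (PL.C (nat_lit 0xa49a4f5) (nat_lit 0x84d4ba138331f) (nat_lit 0x0)
  (PL.C (nat_lit 0xa4b79d2) (nat_lit 0x0) (nat_lit 0x2d5a227467d4413)
  (PL.C (nat_lit 0xa4d95c7) (nat_lit 0x22b4d90881c1bc) (nat_lit 0x0)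
  (PL.C (nat_lit 0xa4f9775) (nat_lit 0x0) (nat_lit 0x33ecec08519228)
  (PL.C (nat_lit 0xa546449) (nat_lit 0x8b46d18b5b5bd) (nat_lit 0x0)
  (PL.C (nat_lit 0xa54c08b) (nat_lit 0x0) (nat_lit 0x33f9a67a6b6ee4)
  (PL.C (nat_lit 0xa56844e) (nat_lit 0x48b52e802a3898) (nat_lit 0x0)
  (PL.C (nat_lit 0xa57c2db) (nat_lit 0x6833bc42aa7ea) (nat_lit 0x0)
  (PL.C (nat_lit 0xa60ad79) (nat_lit 0x0) (nat_lit 0x14196eb0a4b8755)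
  (PL.C (nat_lit 0xa6498e9) (nat_lit 0x6a96547d09a981) (nat_lit 0x0)
  (PL.C (nat_lit 0xa6544d4) (nat_lit 0x0) (nat_lit 0x1baa4a6872a528) gp0_1_140))))))))))))))))))))

noncomputable def gp0_1_138 : PL :=
  (PL.C (nat_lit 0x9dbce7f) (nat_lit 0x0) (nat_lit 0xe097470ed5373)
  (PL.C (nat_lit 0x9e03ad6) (nat_lit 0x0) (nat_lit 0x280a78ece67452)
  (PL.C (nat_lit 0x9e170b3) (nat_lit 0x0) (nat_lit 0x14f73e1ef69800b)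
  (PL.C (nat_lit 0x9e18bc5) (nat_lit 0x0) (nat_lit 0x25193d92a5c35)
  (PL.C (nat_lit 0x9e66b1c) (nat_lit 0x34c10f08a7a5eea) (nat_lit 0x0)
  (PL.C (nat_lit 0x9e6e9a7) (nat_lit 0x6316271c870a8d) (nat_lit 0x0)
  (PL.C (nat_lit 0x9ebde59) (nat_lit 0x0) (nat_lit 0xee8410a755e1d7)
  (PL.C (nat_lit 0x9f03625) (nat_lit 0x0) (nat_lit 0x7759d4eca273ee)
  (PL.C (nat_lit 0x9f12cfa) (nat_lit 0x0) (nat_lit 0x198cefb61f1f39f)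
  (PL.C (nat_lit 0x9f18849) (nat_lit 0x9cf48157721f5) (nat_lit 0x0)
  (PL.C (nat_lit 0x9f51109) (nat_lit 0x0) (nat_lit 0x148efcf8758b5)
  (PL.C (nat_lit 0x9fb8fe2) (nat_lit 0x0) (nat_lit 0x2860b5da476fb9)
  (PL.C (nat_lit 0x9ffa9a2) (nat_lit 0x0) (nat_lit 0x500425cdf0c066)
  (PL.C (nat_lit 0xa03039a) (nat_lit 0x0) (nat_lit 0x8313b614e2c704)
  (PL.C (nat_lit 0xa07539b) (nat_lit 0x213ef1ed9152614) (nat_lit 0x0)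
  (PL.C (nat_lit 0xa0e24b6) (nat_lit 0x0) (nat_lit 0x20871c2b1d6a6)
  (PL.C (nat_lit 0xa12e729) (nat_lit 0x0) (nat_lit 0x5eedd7471f15810)
  (PL.C (nat_lit 0xa1721b7) (nat_lit 0x1f3a1a593bdbcf) (nat_lit 0x0)
  (PL.C (nat_lit 0xa1d6d4d) (nat_lit 0x0) (nat_lit 0x71c8e2dbbe6fc)
  (PL.C (nat_lit 0xa1dc6bc) (nat_lit 0x147ac61fbbeae3) (nat_lit 0x0) gp0_1_139))))))))))))))))))))

noncomputable def gp0_1_137 : PL :=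
  (PL.C (nat_lit 0x99ab119) (nat_lit 0x0) (nat_lit 0x21021b74dba846)
  (PL.C (nat_lit 0x99b9fa2) (nat_lit 0x0) (nat_lit 0x2d5a227467d4413)
  (PL.C (nat_lit 0x9a26e72) (nat_lit 0x61bffe9eaffccf) (nat_lit 0x0)
  (PL.C (nat_lit 0x9a3196d) (nat_lit 0x5fa9efeeb27824) (nat_lit 0x0)
  (PL.C (nat_lit 0x9a5a92a) (nat_lit 0x3aabf230bc8b1e) (nat_lit 0x0)
  (PL.C (nat_lit 0x9acdcc2) (nat_lit 0x0) (nat_lit 0x31286646d9a7c5)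
  (PL.C (nat_lit 0x9ae0bd7) (nat_lit 0xb37d5a07aa5ecf) (nat_lit 0x0)
  (PL.C (nat_lit 0x9b107a7) (nat_lit 0x0) (nat_lit 0x12d05caff557b6)
  (PL.C (nat_lit 0x9baa62f) (nat_lit 0x0) (nat_lit 0x320221f37b02e9)
  (PL.C (nat_lit 0x9bd1876) (nat_lit 0x5c1408a98af61a) (nat_lit 0x0)
  (PL.C (nat_lit 0x9bf523a) (nat_lit 0xf5fffbfc6d65eb) (nat_lit 0x0)
  (PL.C (nat_lit 0x9c05c1e) (nat_lit 0x0) (nat_lit 0x276b3dda0c5c7e6)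
  (PL.C (nat_lit 0x9c48f69) (nat_lit 0x6a96547d09a981) (nat_lit 0x0)
  (PL.C (nat_lit 0x9c9c666) (nat_lit 0x306754c3cfbd5) (nat_lit 0x0)
  (PL.C (nat_lit 0x9caa6da) (nat_lit 0x340ec13ad3a19) (nat_lit 0x0)
  (PL.C (nat_lit 0x9cd0e4e) (nat_lit 0x0) (nat_lit 0x4fca31371086c2)
  (PL.C (nat_lit 0x9d14711) (nat_lit 0xd4172225667a5) (nat_lit 0x0)
  (PL.C (nat_lit 0x9d5f45e) (nat_lit 0x10a02e9de41a16a) (nat_lit 0x0)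
  (PL.C (nat_lit 0x9d630ef) (nat_lit 0x0) (nat_lit 0xa57984d372d467)
  (PL.C (nat_lit 0x9d7b49d) (nat_lit 0x0) (nat_lit 0x379199e79dae8d3) gp0_1_138))))))))))))))))))))

noncomputable def gp0_1_136 : PL :=
  (PL.C (nat_lit 0x94c9ca7) (nat_lit 0x0) (nat_lit 0x2ba5a2f20b7705)
  (PL.C (nat_lit 0x94e27e1) (nat_lit 0x0) (nat_lit 0x1da929b7a7a42)
  (PL.C (nat_lit 0x95167d7) (nat_lit 0x0) (nat_lit 0x52eacd26f08c65)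
  (PL.C (nat_lit 0x95279a4) (nat_lit 0x0) (nat_lit 0x48402d902860b2)
  (PL.C (nat_lit 0x952d01f) (nat_lit 0x766352c83f8dce) (nat_lit 0x0)
  (PL.C (nat_lit 0x956b2f2) (nat_lit 0xb1669b0c9572f) (nat_lit 0x0)
  (PL.C (nat_lit 0x95758ad) (nat_lit 0x138812373cfa4d4) (nat_lit 0x0)
  (PL.C (nat_lit 0x9576914) (nat_lit 0x4440234d94bbed) (nat_lit 0x0)
  (PL.C (nat_lit 0x9611ae1) (nat_lit 0x0) (nat_lit 0x53e754bfdb0a65)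
  (PL.C (nat_lit 0x9618f8e) (nat_lit 0x7b4ee5f66703f4) (nat_lit 0x0)
  (PL.C (nat_lit 0x962fd55) (nat_lit 0xe67f72ced7a3677) (nat_lit 0x0)
  (PL.C (nat_lit 0x96930db) (nat_lit 0x0) (nat_lit 0x7a952c4953302)
  (PL.C (nat_lit 0x96c72d6) (nat_lit 0xa62721b6ff499a) (nat_lit 0x0)
  (PL.C (nat_lit 0x96d0e7b) (nat_lit 0x0) (nat_lit 0x6bedffbb27c76)
  (PL.C (nat_lit 0x970374f) (nat_lit 0x0) (nat_lit 0x73a3ef5572cd78)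
  (PL.C (nat_lit 0x981628b) (nat_lit 0x93d7e14fab0ad3) (nat_lit 0x0)
  (PL.C (nat_lit 0x9830271) (nat_lit 0x50337d719d1b71) (nat_lit 0x0)
  (PL.C (nat_lit 0x988a3de) (nat_lit 0xf5fffbfc6d65eb) (nat_lit 0x0)
  (PL.C (nat_lit 0x9909526) (nat_lit 0x23fac25db8e1d0) (nat_lit 0x0)
  (PL.C (nat_lit 0x9977a0d) (nat_lit 0x743ebfc3e87950) (nat_lit 0x0) gp0_1_137))))))))))))))))))))

noncomputable def gp0_1_135 : PL :=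
  (PL.C (nat_lit 0x907c78e) (nat_lit 0x288ecfd5d8efeb) (nat_lit 0x0)
  (PL.C (nat_lit 0x90932a4) (nat_lit 0x0) (nat_lit 0xe7be9491e112ad)
  (PL.C (nat_lit 0x909d7e2) (nat_lit 0x0) (nat_lit 0x4a0aea5932d572)
  (PL.C (nat_lit 0x9106545) (nat_lit 0x3d5397a17ffa94) (nat_lit 0x0)
  (PL.C (nat_lit 0x910d606) (nat_lit 0x2eca8a3689f198) (nat_lit 0x0)
  (PL.C (nat_lit 0x91ca445) (nat_lit 0x419e15c0905a03) (nat_lit 0x0)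
  (PL.C (nat_lit 0x91f0ccb) (nat_lit 0x9d0c1a0526a4d) (nat_lit 0x0)
  (PL.C (nat_lit 0x91fd25a) (nat_lit 0x7b704542282486) (nat_lit 0x0)
  (PL.C (nat_lit 0x9297b1f) (nat_lit 0x8db9614a35fe61) (nat_lit 0x0)
  (PL.C (nat_lit 0x9299439) (nat_lit 0x6316271c870a8d) (nat_lit 0x0)
  (PL.C (nat_lit 0x92d16b3) (nat_lit 0x1af45f58ef32f0) (nat_lit 0x0)
  (PL.C (nat_lit 0x9316125) (nat_lit 0x0) (nat_lit 0x1c9328fb55f437)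
  (PL.C (nat_lit 0x931d1a3) (nat_lit 0x86b48949e4822d) (nat_lit 0x0)
  (PL.C (nat_lit 0x933269d) (nat_lit 0x386d8f52623c1c) (nat_lit 0x0)
  (PL.C (nat_lit 0x93b9a76) (nat_lit 0x16a3e8cdc8d1558) (nat_lit 0x0)
  (PL.C (nat_lit 0x93bae0d) (nat_lit 0x160767ce125b3) (nat_lit 0x0)
  (PL.C (nat_lit 0x93dc53f) (nat_lit 0xd4172225667a5) (nat_lit 0x0)
  (PL.C (nat_lit 0x93e7f5e) (nat_lit 0x0) (nat_lit 0x31c0cf8e9bb00d)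
  (PL.C (nat_lit 0x9476cbb) (nat_lit 0x9d0c1a0526a4d) (nat_lit 0x0)
  (PL.C (nat_lit 0x9477439) (nat_lit 0x1e69833af813702) (nat_lit 0x0) gp0_1_136))))))))))))))))))))

noncomputable def gp0_1_134 : PL :=
  (PL.C (nat_lit 0x8c97794) (nat_lit 0x73b6748b3d9db4) (nat_lit 0x0)
  (PL.C (nat_lit 0x8ca103f) (nat_lit 0xd65dbba29066ef) (nat_lit 0x0)
  (PL.C (nat_lit 0x8cd4086) (nat_lit 0x0) (nat_lit 0x3c39ea831061aa)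
  (PL.C (nat_lit 0x8cfccf6) (nat_lit 0x0) (nat_lit 0x180ca65702d7bc)
  (PL.C (nat_lit 0x8d06957) (nat_lit 0x7ed51eb6606c41) (nat_lit 0x0)
  (PL.C (nat_lit 0x8db65cf) (nat_lit 0x0) (nat_lit 0x4a8388c9b1d2b7)
  (PL.C (nat_lit 0x8de80fe) (nat_lit 0x0) (nat_lit 0x207c3d5f811268)
  (PL.C (nat_lit 0x8e13fc1) (nat_lit 0x0) (nat_lit 0x38a9e26b069fda)
  (PL.C (nat_lit 0x8e42543) (nat_lit 0x0) (nat_lit 0x1e28b925d463c7a)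
  (PL.C (nat_lit 0x8e58366) (nat_lit 0x0) (nat_lit 0x272eeabaed3ce3)
  (PL.C (nat_lit 0x8ec278e) (nat_lit 0x0) (nat_lit 0x8fa258d6974a5)
  (PL.C (nat_lit 0x8ef0dfa) (nat_lit 0x0) (nat_lit 0x26425951f369a0)
  (PL.C (nat_lit 0x8efff71) (nat_lit 0x2ada4f476e72d2) (nat_lit 0x0)
  (PL.C (nat_lit 0x8f20c92) (nat_lit 0x4150212df7e50b) (nat_lit 0x0)
  (PL.C (nat_lit 0x8f520ff) (nat_lit 0xfa58001b3fc54) (nat_lit 0x0)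
  (PL.C (nat_lit 0x8f5d97d) (nat_lit 0x0) (nat_lit 0x26cb53dc509f8d1)
  (PL.C (nat_lit 0x8f5e6ff) (nat_lit 0xa1407f0e86222a) (nat_lit 0x0)
  (PL.C (nat_lit 0x8fc9763) (nat_lit 0xa32ec4871cbbe1) (nat_lit 0x0)
  (PL.C (nat_lit 0x8fe2292) (nat_lit 0x0) (nat_lit 0x36e549ecd1a05f8)
  (PL.C (nat_lit 0x8feec7a) (nat_lit 0xc9ec810f6c626) (nat_lit 0x0) gp0_1_135))))))))))))))))))))

noncomputable def gp0_1_133 : PL :=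
  (PL.C (nat_lit 0x88fc6a1) (nat_lit 0x0) (nat_lit 0x7136b3470a0dc)
  (PL.C (nat_lit 0x890b872) (nat_lit 0x0) (nat_lit 0x1b0da4dc49887f)
  (PL.C (nat_lit 0x894c29b) (nat_lit 0xc8d2e2e3d1332) (nat_lit 0x0)
  (PL.C (nat_lit 0x897a2ef) (nat_lit 0x3e8ce018e732b7) (nat_lit 0x0)
  (PL.C (nat_lit 0x89db987) (nat_lit 0x0) (nat_lit 0x32ee2c765fb703)
  (PL.C (nat_lit 0x89f0003) (nat_lit 0x152477c4f4e03df) (nat_lit 0x0)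
  (PL.C (nat_lit 0x89f94e6) (nat_lit 0x0) (nat_lit 0x39d8a1d11ba0814)
  (PL.C (nat_lit 0x8a182d3) (nat_lit 0x0) (nat_lit 0x686ed40dc48e3f)
  (PL.C (nat_lit 0x8a8d47a) (nat_lit 0x35c1420dc3bf4e) (nat_lit 0x0)
  (PL.C (nat_lit 0x8a8f3a1) (nat_lit 0x0) (nat_lit 0x614657f930e857a)
  (PL.C (nat_lit 0x8ac963f) (nat_lit 0x517da521374617) (nat_lit 0x0)
  (PL.C (nat_lit 0x8b0c09a) (nat_lit 0x0) (nat_lit 0xd93043c3b03733)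
  (PL.C (nat_lit 0x8b1ffa5) (nat_lit 0x0) (nat_lit 0x240cef3d5aab6ee)
  (PL.C (nat_lit 0x8b43a09) (nat_lit 0x0) (nat_lit 0x51126f8011264a)
  (PL.C (nat_lit 0x8b59205) (nat_lit 0x0) (nat_lit 0xa2f8f2730af185)
  (PL.C (nat_lit 0x8b8f6fa) (nat_lit 0x5550908e854cea) (nat_lit 0x0)
  (PL.C (nat_lit 0x8bb815a) (nat_lit 0x0) (nat_lit 0x8a55da4304a2f)
  (PL.C (nat_lit 0x8bcff6e) (nat_lit 0x0) (nat_lit 0x2f03970c967920)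
  (PL.C (nat_lit 0x8c0c301) (nat_lit 0x2696178f830dba) (nat_lit 0x0)
  (PL.C (nat_lit 0x8c22ba4) (nat_lit 0x0) (nat_lit 0x47aaf366ced791) gp0_1_134))))))))))))))))))))

noncomputable def gp0_1_132 : PL :=
  (PL.C (nat_lit 0x8648662) (nat_lit 0x0) (nat_lit 0x1b1f8ff17e583ef)
  (PL.C (nat_lit 0x867a3b9) (nat_lit 0x0) (nat_lit 0x3cef40cce86dce)
  (PL.C (nat_lit 0x8680cd1) (nat_lit 0x398474e36a2042c) (nat_lit 0x0)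
  (PL.C (nat_lit 0x86aa079) (nat_lit 0x7fc215e37214a) (nat_lit 0x0)
  (PL.C (nat_lit 0x86ce85e) (nat_lit 0x10b486fca193c6f) (nat_lit 0x0)
  (PL.C (nat_lit 0x86d4aea) (nat_lit 0x0) (nat_lit 0x96fce3a3f45c4)
  (PL.C (nat_lit 0x872feb9) (nat_lit 0x138812373cfa4d4) (nat_lit 0x0)
  (PL.C (nat_lit 0x873bc6d) (nat_lit 0x4293fcf14cd16c) (nat_lit 0x0)
  (PL.C (nat_lit 0x8740b34) (nat_lit 0x0) (nat_lit 0x7afd75ae0b0e7)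
  (PL.C (nat_lit 0x8773947) (nat_lit 0x11026dc24759c22) (nat_lit 0x0)
  (PL.C (nat_lit 0x87b9677) (nat_lit 0x0) (nat_lit 0xc7699556271814)
  (PL.C (nat_lit 0x87d86c1) (nat_lit 0x0) (nat_lit 0x14196eb0a4b8755)
  (PL.C (nat_lit 0x87e6e5b) (nat_lit 0x0) (nat_lit 0x1365a9ec1b6eef5)
  (PL.C (nat_lit 0x88322af) (nat_lit 0x0) (nat_lit 0x4de8ff0895df79)
  (PL.C (nat_lit 0x88490d3) (nat_lit 0xdc2c62fb23119) (nat_lit 0x0)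
  (PL.C (nat_lit 0x8849d5e) (nat_lit 0x0) (nat_lit 0xe318ac8bf0382c)
  (PL.C (nat_lit 0x886a1cf) (nat_lit 0x0) (nat_lit 0x621173cae971f3)
  (PL.C (nat_lit 0x886ac2c) (nat_lit 0x0) (nat_lit 0x41c7674e4668ee)
  (PL.C (nat_lit 0x88ae631) (nat_lit 0x48ad3537a42a00) (nat_lit 0x0)
  (PL.C (nat_lit 0x88c43c1) (nat_lit 0x0) (nat_lit 0x18806dbd0de607) gp0_1_133))))))))))))))))))))

noncomputable def gp0_1_131 : PL :=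
  (PL.C (nat_lit 0x824c752) (nat_lit 0x65ef13bfc06c6a) (nat_lit 0x0)
  (PL.C (nat_lit 0x82b0d6a) (nat_lit 0x16a3e8cdc8d1558) (nat_lit 0x0)
  (PL.C (nat_lit 0x82bbe0e) (nat_lit 0x38a83565ed2626) (nat_lit 0x0)
  (PL.C (nat_lit 0x82bdb73) (nat_lit 0x0) (nat_lit 0x1a2fc25b1c4c6af)
  (PL.C (nat_lit 0x835308e) (nat_lit 0x0) (nat_lit 0x11446f1921c6f2d)
  (PL.C (nat_lit 0x83a70a2) (nat_lit 0x825bdd7364ed0a) (nat_lit 0x0)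
  (PL.C (nat_lit 0x83b5116) (nat_lit 0x0) (nat_lit 0x2f5352d60f6e619)
  (PL.C (nat_lit 0x83edccd) (nat_lit 0x0) (nat_lit 0xb14e7699055dc1)
  (PL.C (nat_lit 0x83fe03e) (nat_lit 0x180e788d04f71b8) (nat_lit 0x0)
  (PL.C (nat_lit 0x843a72c) (nat_lit 0x0) (nat_lit 0x1a94096d413b36)
  (PL.C (nat_lit 0x8499915) (nat_lit 0x0) (nat_lit 0x4fadbabfdcae35)
  (PL.C (nat_lit 0x84dbeeb) (nat_lit 0x0) (nat_lit 0x87e48a24dff7e)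
  (PL.C (nat_lit 0x850a751) (nat_lit 0x25c3de321bcef6) (nat_lit 0x0)
  (PL.C (nat_lit 0x8541bd4) (nat_lit 0x611651d9bd0f42) (nat_lit 0x0)
  (PL.C (nat_lit 0x855468f) (nat_lit 0x0) (nat_lit 0x3cef40cce86dce)
  (PL.C (nat_lit 0x859923f) (nat_lit 0xdc2c63f412369) (nat_lit 0x0)
  (PL.C (nat_lit 0x85ae166) (nat_lit 0xc46066857ede2d) (nat_lit 0x0)
  (PL.C (nat_lit 0x85bdc83) (nat_lit 0x43dddb25e9a697) (nat_lit 0x0)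
  (PL.C (nat_lit 0x85f11dc) (nat_lit 0x0) (nat_lit 0x1dd393b0f86699)
  (PL.C (nat_lit 0x8600b7d) (nat_lit 0x0) (nat_lit 0x4d81a0006f9e1b) gp0_1_132))))))))))))))))))))

noncomputable def gp0_1_130 : PL :=
  (PL.C (nat_lit 0x7f13ffa) (nat_lit 0x0) (nat_lit 0xadad04441b9c0)
  (PL.C (nat_lit 0x7f1bb87) (nat_lit 0x0) (nat_lit 0xbc2eb10cd5a014)
  (PL.C (nat_lit 0x7f4ac0e) (nat_lit 0x86e071c6102bbd3) (nat_lit 0x0)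
  (PL.C (nat_lit 0x7f4c68d) (nat_lit 0x0) (nat_lit 0x33f9a67a6b6ee4)
  (PL.C (nat_lit 0x7fa0823) (nat_lit 0x605f4b9781feea) (nat_lit 0x0)
  (PL.C (nat_lit 0x7ff07be) (nat_lit 0x721c269366b93e) (nat_lit 0x0)
  (PL.C (nat_lit 0x802c0b6) (nat_lit 0x5cf91f7eb704f) (nat_lit 0x0)
  (PL.C (nat_lit 0x8030842) (nat_lit 0x0) (nat_lit 0x9f516176f757ea)
  (PL.C (nat_lit 0x8048372) (nat_lit 0x9d739dd84bcc782) (nat_lit 0x0)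
  (PL.C (nat_lit 0x80627f7) (nat_lit 0x0) (nat_lit 0xa5d59a598c083d)
  (PL.C (nat_lit 0x807b805) (nat_lit 0x26bda837dc3dd18) (nat_lit 0x0)
  (PL.C (nat_lit 0x80acb77) (nat_lit 0x0) (nat_lit 0x1e28b925d463c7a)
  (PL.C (nat_lit 0x80c47d6) (nat_lit 0x1868c8bdd117547) (nat_lit 0x0)
  (PL.C (nat_lit 0x80ef3c2) (nat_lit 0x0) (nat_lit 0xd67f3bf3c0aceb)
  (PL.C (nat_lit 0x8101b99) (nat_lit 0x0) (nat_lit 0x6aeb6cd63b5a8d)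
  (PL.C (nat_lit 0x8136b79) (nat_lit 0x11882711d132b0) (nat_lit 0x0)
  (PL.C (nat_lit 0x814b02e) (nat_lit 0xb0d54d2d2b1cd) (nat_lit 0x0)
  (PL.C (nat_lit 0x81a738c) (nat_lit 0x0) (nat_lit 0xe7be9491e112ad)
  (PL.C (nat_lit 0x81d1917) (nat_lit 0x18a31a520b40c29) (nat_lit 0x0)
  (PL.C (nat_lit 0x8230412) (nat_lit 0x1ec04f60fb426e) (nat_lit 0x0) gp0_1_131))))))))))))))))))))

noncomputable def gp0_1_129 : PL :=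
  (PL.C (nat_lit 0x7c29e79) (nat_lit 0x36590f5b5aabe15) (nat_lit 0x0)
  (PL.C (nat_lit 0x7c2fd6f) (nat_lit 0x877246d6680c06) (nat_lit 0x0)
  (PL.C (nat_lit 0x7c59773) (nat_lit 0x1a4ccf079226e20) (nat_lit 0x0)
  (PL.C (nat_lit 0x7c81e21) (nat_lit 0x4a47c951d469c7) (nat_lit 0x0)
  (PL.C (nat_lit 0x7cab9dd) (nat_lit 0xb12c52258a7a19) (nat_lit 0x0)
  (PL.C (nat_lit 0x7caff42) (nat_lit 0x4bc9d862cff817) (nat_lit 0x0)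
  (PL.C (nat_lit 0x7cc4644) (nat_lit 0x0) (nat_lit 0x16e8d36c00e968)
  (PL.C (nat_lit 0x7cdb156) (nat_lit 0x0) (nat_lit 0x11ce009b10984b)
  (PL.C (nat_lit 0x7cded3d) (nat_lit 0x0) (nat_lit 0x1987d5ba05d4f)
  (PL.C (nat_lit 0x7d540dd) (nat_lit 0x0) (nat_lit 0xfbf3aa2ff85038)
  (PL.C (nat_lit 0x7d99b83) (nat_lit 0x0) (nat_lit 0x53e754bfdb0a65)
  (PL.C (nat_lit 0x7dda773) (nat_lit 0x9a996dab672878) (nat_lit 0x0)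
  (PL.C (nat_lit 0x7df73a5) (nat_lit 0x0) (nat_lit 0xcbbfa0f215e79a)
  (PL.C (nat_lit 0x7e04a67) (nat_lit 0x0) (nat_lit 0x11b13a5b3f1fa37)
  (PL.C (nat_lit 0x7e3645b) (nat_lit 0x0) (nat_lit 0xd6fbc67527cd35)
  (PL.C (nat_lit 0x7e4c3d2) (nat_lit 0xc8362ad0dda475) (nat_lit 0x0)
  (PL.C (nat_lit 0x7e7e52b) (nat_lit 0x4293fcf14cd16c) (nat_lit 0x0)
  (PL.C (nat_lit 0x7e89a75) (nat_lit 0x0) (nat_lit 0x1ee243a619cc29)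
  (PL.C (nat_lit 0x7eae825) (nat_lit 0x0) (nat_lit 0x2ba5a2f20b7705)
  (PL.C (nat_lit 0x7ec7f69) (nat_lit 0x241be80a9cdc411) (nat_lit 0x0) gp0_1_130))))))))))))))))))))

noncomputable def gp0_1_128 : PL :=
  (PL.C (nat_lit 0x783087e) (nat_lit 0x14d91e78a80563) (nat_lit 0x0)
  (PL.C (nat_lit 0x78789a2) (nat_lit 0x0) (nat_lit 0x81dd0eafe0bf6e)
  (PL.C (nat_lit 0x78b861a) (nat_lit 0x66ec4e88e6e9d8) (nat_lit 0x0)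
  (PL.C (nat_lit 0x790693b) (nat_lit 0xa1407f0e86222a) (nat_lit 0x0)
  (PL.C (nat_lit 0x793b8df) (nat_lit 0x3e3a5eb2fd6b39) (nat_lit 0x0)
  (PL.C (nat_lit 0x7975c5a) (nat_lit 0x67724a0ce3ff53b) (nat_lit 0x0)
  (PL.C (nat_lit 0x799f7df) (nat_lit 0x28b2dd6bf6e273) (nat_lit 0x0)
  (PL.C (nat_lit 0x79c8423) (nat_lit 0x50337d865335aa) (nat_lit 0x0)
  (PL.C (nat_lit 0x79e1e91) (nat_lit 0x4408df5f72ab760) (nat_lit 0x0)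
  (PL.C (nat_lit 0x7a20eae) (nat_lit 0x8a0c589aa3ab7d) (nat_lit 0x0)
  (PL.C (nat_lit 0x7a4d0ba) (nat_lit 0x1e2780e805972c) (nat_lit 0x0)
  (PL.C (nat_lit 0x7a55861) (nat_lit 0x851d0745bb763e) (nat_lit 0x0)
  (PL.C (nat_lit 0x7af4cc9) (nat_lit 0x2496a66342226e) (nat_lit 0x0)
  (PL.C (nat_lit 0x7b0a382) (nat_lit 0x5996b82717e472) (nat_lit 0x0)
  (PL.C (nat_lit 0x7b34947) (nat_lit 0x649c4f0e0e9c42) (nat_lit 0x0)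
  (PL.C (nat_lit 0x7b50fde) (nat_lit 0x19c86a701d6191) (nat_lit 0x0)
  (PL.C (nat_lit 0x7b631d7) (nat_lit 0x851d0745bb763e) (nat_lit 0x0)
  (PL.C (nat_lit 0x7b9b38b) (nat_lit 0x10ac4c67e4f9350) (nat_lit 0x0)
  (PL.C (nat_lit 0x7baeb74) (nat_lit 0x0) (nat_lit 0x35ad72bcf4676b)
  (PL.C (nat_lit 0x7c03c2f) (nat_lit 0x0) (nat_lit 0xa4ac0db8622f01) gp0_1_129))))))))))))))))))))

noncomputable def gp0_1_127 : PL :=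
  (PL.C (nat_lit 0x74c5a22) (nat_lit 0x283ae742c94371) (nat_lit 0x0)
  (PL.C (nat_lit 0x74cdf99) (nat_lit 0x0) (nat_lit 0x34a11fdf84ab53)
  (PL.C (nat_lit 0x74f73e5) (nat_lit 0x2ac71b4059a3829) (nat_lit 0x0)
  (PL.C (nat_lit 0x751ccda) (nat_lit 0x0) (nat_lit 0x4fca31371086c2)
  (PL.C (nat_lit 0x752857b) (nat_lit 0x95658ef51fa449) (nat_lit 0x0)
  (PL.C (nat_lit 0x754f3fb) (nat_lit 0xb6e08e8853e58a) (nat_lit 0x0)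
  (PL.C (nat_lit 0x75716f9) (nat_lit 0x25d89183b09202f) (nat_lit 0x0)
  (PL.C (nat_lit 0x75a1ad9) (nat_lit 0x0) (nat_lit 0x67c699c32fc68)
  (PL.C (nat_lit 0x75ae25e) (nat_lit 0x0) (nat_lit 0x5684689419c847)
  (PL.C (nat_lit 0x75c91b5) (nat_lit 0x0) (nat_lit 0x451bcd4a4317ef)
  (PL.C (nat_lit 0x75cf862) (nat_lit 0x4413cfa9845666) (nat_lit 0x0)
  (PL.C (nat_lit 0x7656134) (nat_lit 0x2f8b1a00ec69ce5) (nat_lit 0x0)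
  (PL.C (nat_lit 0x76b677b) (nat_lit 0x0) (nat_lit 0x14d35d7f1b4261a)
  (PL.C (nat_lit 0x7703f4e) (nat_lit 0x408dae540475a) (nat_lit 0x0)
  (PL.C (nat_lit 0x771b22a) (nat_lit 0x0) (nat_lit 0x5bd37fc732ee39)
  (PL.C (nat_lit 0x772bd96) (nat_lit 0x7b704542282486) (nat_lit 0x0)
  (PL.C (nat_lit 0x7751073) (nat_lit 0xfd3c78d93970eb) (nat_lit 0x0)
  (PL.C (nat_lit 0x7799397) (nat_lit 0xd621b9f405183) (nat_lit 0x0)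
  (PL.C (nat_lit 0x781c00a) (nat_lit 0x0) (nat_lit 0xd8596824fd0bed)
  (PL.C (nat_lit 0x782937e) (nat_lit 0x0) (nat_lit 0x31c0cf8e9bb00d) gp0_1_128))))))))))))))))))))

noncomputable def gp0_1_126 : PL :=
  (PL.C (nat_lit 0x72acb85) (nat_lit 0x0) (nat_lit 0xabc8fdad38000f)
  (PL.C (nat_lit 0x72b3e34) (nat_lit 0x66291caa05df8a) (nat_lit 0x0)
  (PL.C (nat_lit 0x72b8f07) (nat_lit 0x296327c982b651c) (nat_lit 0x0)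
  (PL.C (nat_lit 0x72f87ab) (nat_lit 0x0) (nat_lit 0x74214ca39e2a98)
  (PL.C (nat_lit 0x730c756) (nat_lit 0x0) (nat_lit 0xba49910e0941c3)
  (PL.C (nat_lit 0x732233d) (nat_lit 0x28ff467dc4da28) (nat_lit 0x0)
  (PL.C (nat_lit 0x7323056) (nat_lit 0x0) (nat_lit 0x363f1fe0d16c16e)
  (PL.C (nat_lit 0x7327b4b) (nat_lit 0x0) (nat_lit 0x585edc63ea9bf)
  (PL.C (nat_lit 0x734e4df) (nat_lit 0x0) (nat_lit 0x73a3ef5572cd78)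
  (PL.C (nat_lit 0x7373c85) (nat_lit 0x0) (nat_lit 0x7a1cbc5bf16b4)
  (PL.C (nat_lit 0x739a7b1) (nat_lit 0x35e79fdd160b9b) (nat_lit 0x0)
  (PL.C (nat_lit 0x739e80a) (nat_lit 0x0) (nat_lit 0x14867d80ed85b9)
  (PL.C (nat_lit 0x73a0209) (nat_lit 0x0) (nat_lit 0x1298d9b81dc9a19e)
  (PL.C (nat_lit 0x73c67ee) (nat_lit 0x4164bd0a96fb0e) (nat_lit 0x0)
  (PL.C (nat_lit 0x7436ab1) (nat_lit 0x0) (nat_lit 0x2053c0a13fe12ec)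
  (PL.C (nat_lit 0x7440dc5) (nat_lit 0x1aa88d8ab1c54f) (nat_lit 0x0)
  (PL.C (nat_lit 0x7466f54) (nat_lit 0x0) (nat_lit 0x165cd99e9b4f16)
  (PL.C (nat_lit 0x7470d4f) (nat_lit 0x25d89184bdb6c1e) (nat_lit 0x0)
  (PL.C (nat_lit 0x7478afe) (nat_lit 0x0) (nat_lit 0x1eee72e1650c75e)
  (PL.C (nat_lit 0x74b34df) (nat_lit 0x1769c05816b7b9) (nat_lit 0x0) gp0_1_127))))))))))))))))))))

noncomputable def gp0_1_125 : PL :=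
  (PL.C (nat_lit 0x6eb0b21) (nat_lit 0x0) (nat_lit 0x7a1cbc5bf16b4)
  (PL.C (nat_lit 0x6edbb46) (nat_lit 0xfcf695d55481e7) (nat_lit 0x0)
  (PL.C (nat_lit 0x6f9f0dc) (nat_lit 0x0) (nat_lit 0x35ad72bcf4676b)
  (PL.C (nat_lit 0x700e832) (nat_lit 0x777f2edae62c78) (nat_lit 0x0)
  (PL.C (nat_lit 0x70394c7) (nat_lit 0x0) (nat_lit 0x4711c1dba079bb)
  (PL.C (nat_lit 0x704ea55) (nat_lit 0x36590f5fe12b258) (nat_lit 0x0)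
  (PL.C (nat_lit 0x7062a1e) (nat_lit 0x0) (nat_lit 0x16f5a2215dd894)
  (PL.C (nat_lit 0x70a0682) (nat_lit 0x0) (nat_lit 0xf0e4c4f7a89232)
  (PL.C (nat_lit 0x70c717b) (nat_lit 0x1f3a1a3f63ee9e) (nat_lit 0x0)
  (PL.C (nat_lit 0x70d99b5) (nat_lit 0x0) (nat_lit 0xbc6753b297172)
  (PL.C (nat_lit 0x70e2fcc) (nat_lit 0x0) (nat_lit 0x15d28a6adc8c19)
  (PL.C (nat_lit 0x70ece4f) (nat_lit 0x0) (nat_lit 0x12728ae88c7b08)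
  (PL.C (nat_lit 0x70eee7e) (nat_lit 0x14232c2bc5a4c61) (nat_lit 0x0)
  (PL.C (nat_lit 0x71309c1) (nat_lit 0x46aca2bce1eda6) (nat_lit 0x0)
  (PL.C (nat_lit 0x713741c) (nat_lit 0x0) (nat_lit 0x181221b9d3b1ac)
  (PL.C (nat_lit 0x7168062) (nat_lit 0x0) (nat_lit 0x13f9c628e098be)
  (PL.C (nat_lit 0x71d38e9) (nat_lit 0x1fc9adf4b1596) (nat_lit 0x0)
  (PL.C (nat_lit 0x72111de) (nat_lit 0x0) (nat_lit 0xd67f3bf3c0aceb)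
  (PL.C (nat_lit 0x7292893) (nat_lit 0x0) (nat_lit 0x500e78bee225db)
  (PL.C (nat_lit 0x729de57) (nat_lit 0x0) (nat_lit 0xd2dc34ce9ef44) gp0_1_126))))))))))))))))))))

noncomputable def gp0_1_124 : PL :=
  (PL.C (nat_lit 0x6be48de) (nat_lit 0x188c0cd159ef1ff) (nat_lit 0x0)
  (PL.C (nat_lit 0x6bf8eab) (nat_lit 0x0) (nat_lit 0x1bd4564afc42db7)
  (PL.C (nat_lit 0x6c00336) (nat_lit 0x721c269366b93e) (nat_lit 0x0)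
  (PL.C (nat_lit 0x6c3afdc) (nat_lit 0x10f057d9871684) (nat_lit 0x0)
  (PL.C (nat_lit 0x6c54d6f) (nat_lit 0x0) (nat_lit 0x2d67027c7689db)
  (PL.C (nat_lit 0x6c758d9) (nat_lit 0x0) (nat_lit 0xa2c1c977af579)
  (PL.C (nat_lit 0x6c9f193) (nat_lit 0x110cece946c2401) (nat_lit 0x0)
  (PL.C (nat_lit 0x6cc7287) (nat_lit 0x0) (nat_lit 0xa4ac0db8622f01)
  (PL.C (nat_lit 0x6ce6dbd) (nat_lit 0x0) (nat_lit 0x887032b177ca9c)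
  (PL.C (nat_lit 0x6d0f27a) (nat_lit 0x0) (nat_lit 0x174932232009ce6)
  (PL.C (nat_lit 0x6d3e1aa) (nat_lit 0x0) (nat_lit 0x137ba2386f5699)
  (PL.C (nat_lit 0x6db6e01) (nat_lit 0x2496a66342226e) (nat_lit 0x0)
  (PL.C (nat_lit 0x6dbc34e) (nat_lit 0x0) (nat_lit 0x14f1ff1f89d1e6)
  (PL.C (nat_lit 0x6de63da) (nat_lit 0x0) (nat_lit 0x5bd37fc732ee39)
  (PL.C (nat_lit 0x6dfba4e) (nat_lit 0x0) (nat_lit 0xa7135f227df670)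
  (PL.C (nat_lit 0x6e14407) (nat_lit 0x2a43f1d044d66b7) (nat_lit 0x0)
  (PL.C (nat_lit 0x6e2ed86) (nat_lit 0x0) (nat_lit 0x115fc23d8e21b4)
  (PL.C (nat_lit 0x6e45834) (nat_lit 0x611651d9bd0f42) (nat_lit 0x0)
  (PL.C (nat_lit 0x6e52c92) (nat_lit 0x26cc0daecb7f634) (nat_lit 0x0)
  (PL.C (nat_lit 0x6e5da7f) (nat_lit 0x24041feefa65bf1) (nat_lit 0x0) gp0_1_125))))))))))))))))))))

noncomputable def gp0_1_123 : PL :=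
  (PL.C (nat_lit 0x68fcdbe) (nat_lit 0xba4a8380fcddd7) (nat_lit 0x0)
  (PL.C (nat_lit 0x691a865) (nat_lit 0x0) (nat_lit 0x7470777993907)
  (PL.C (nat_lit 0x69289aa) (nat_lit 0x5cf91fbf0c791) (nat_lit 0x0)
  (PL.C (nat_lit 0x693dc11) (nat_lit 0x10ac4c676771e3a) (nat_lit 0x0)
  (PL.C (nat_lit 0x6964b22) (nat_lit 0x2f72790e236bc7a) (nat_lit 0x0)
  (PL.C (nat_lit 0x6965d2e) (nat_lit 0x15c3d226047957d) (nat_lit 0x0)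
  (PL.C (nat_lit 0x699f11a) (nat_lit 0xcc0da7b0fe9702) (nat_lit 0x0)
  (PL.C (nat_lit 0x69cbf11) (nat_lit 0x0) (nat_lit 0xd913da4bfac7f56)
  (PL.C (nat_lit 0x69d3ee6) (nat_lit 0x681d82b35286b) (nat_lit 0x0)
  (PL.C (nat_lit 0x69e9d4f) (nat_lit 0x0) (nat_lit 0x8681d676eeb8fb)
  (PL.C (nat_lit 0x6a10586) (nat_lit 0x0) (nat_lit 0xadad0412edd63)
  (PL.C (nat_lit 0x6a11d5f) (nat_lit 0x0) (nat_lit 0xed31647f9215d)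
  (PL.C (nat_lit 0x6a3d67f) (nat_lit 0x0) (nat_lit 0x94ad330a9befed)
  (PL.C (nat_lit 0x6a55af9) (nat_lit 0x649c4f0e0e9c42) (nat_lit 0x0)
  (PL.C (nat_lit 0x6a61043) (nat_lit 0x0) (nat_lit 0x385cbb3c29af312)
  (PL.C (nat_lit 0x6a9bef7) (nat_lit 0x0) (nat_lit 0x7ca29b4f226bb5)
  (PL.C (nat_lit 0x6af8d12) (nat_lit 0x0) (nat_lit 0x1103b019595e1e7)
  (PL.C (nat_lit 0x6b58415) (nat_lit 0x0) (nat_lit 0x21021b74dba846)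
  (PL.C (nat_lit 0x6b744c6) (nat_lit 0x0) (nat_lit 0x1efa12d94897822)
  (PL.C (nat_lit 0x6ba167a) (nat_lit 0x0) (nat_lit 0x2dfc17cc9878ca) gp0_1_124))))))))))))))))))))

noncomputable def gp0_1_122 : PL :=
  (PL.C (nat_lit 0x65e05a5) (nat_lit 0x0) (nat_lit 0x23924cf74ab053)
  (PL.C (nat_lit 0x66a3d85) (nat_lit 0xdbe263bea6092) (nat_lit 0x0)
  (PL.C (nat_lit 0x66cbb9e) (nat_lit 0x0) (nat_lit 0xe9481299cb65d4)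
  (PL.C (nat_lit 0x66cd9ef) (nat_lit 0xa32f7d84ec607f) (nat_lit 0x0)
  (PL.C (nat_lit 0x66d011f) (nat_lit 0x0) (nat_lit 0x3b184948bab320)
  (PL.C (nat_lit 0x671a537) (nat_lit 0x0) (nat_lit 0xbc4f6f1c4719)
  (PL.C (nat_lit 0x676051a) (nat_lit 0xa1fa16e7d39700) (nat_lit 0x0)
  (PL.C (nat_lit 0x6786093) (nat_lit 0x0) (nat_lit 0xc187adfdc0e35)
  (PL.C (nat_lit 0x679cca1) (nat_lit 0x0) (nat_lit 0x1f4680a26d6ffa7)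
  (PL.C (nat_lit 0x67c6eca) (nat_lit 0x0) (nat_lit 0x7430bff409474c)
  (PL.C (nat_lit 0x68012a3) (nat_lit 0x0) (nat_lit 0xcbbfa0f215e79a)
  (PL.C (nat_lit 0x6823b09) (nat_lit 0x0) (nat_lit 0x103c27d1f62b4b6)
  (PL.C (nat_lit 0x6830a46) (nat_lit 0xfcf695d55481e7) (nat_lit 0x0)
  (PL.C (nat_lit 0x6857cf7) (nat_lit 0xf4caf473a23752) (nat_lit 0x0)
  (PL.C (nat_lit 0x6868444) (nat_lit 0x0) (nat_lit 0x1a94096d413b36)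
  (PL.C (nat_lit 0x688b434) (nat_lit 0x0) (nat_lit 0x6aa37a1ef00521)
  (PL.C (nat_lit 0x68b84b6) (nat_lit 0x0) (nat_lit 0x2e04c68f599f0d)
  (PL.C (nat_lit 0x68d041d) (nat_lit 0x25c3de229ef71d) (nat_lit 0x0)
  (PL.C (nat_lit 0x68ecb4a) (nat_lit 0x0) (nat_lit 0x5014f1c4f747d8)
  (PL.C (nat_lit 0x68f867f) (nat_lit 0x39a4084670e130) (nat_lit 0x0) gp0_1_123))))))))))))))))))))

noncomputable def gp0_1_121 : PL :=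
  (PL.C (nat_lit 0x62a46ef) (nat_lit 0x1b65b2595f77d30) (nat_lit 0x0)
  (PL.C (nat_lit 0x62bcc39) (nat_lit 0x3cd3067c8eab233) (nat_lit 0x0)
  (PL.C (nat_lit 0x62f9dd2) (nat_lit 0x33188a413aaf0) (nat_lit 0x0)
  (PL.C (nat_lit 0x631f627) (nat_lit 0x0) (nat_lit 0xd6086fea7de3a3)
  (PL.C (nat_lit 0x6323e9d) (nat_lit 0x2a48ef8cdaea0c8) (nat_lit 0x0)
  (PL.C (nat_lit 0x633131a) (nat_lit 0x0) (nat_lit 0xba0e9ac737c4d)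
  (PL.C (nat_lit 0x6341a96) (nat_lit 0x0) (nat_lit 0x1216f03e516815)
  (PL.C (nat_lit 0x6360de9) (nat_lit 0x0) (nat_lit 0x1f1278968a62c9)
  (PL.C (nat_lit 0x636453a) (nat_lit 0x0) (nat_lit 0x4d165a9af60039)
  (PL.C (nat_lit 0x637356a) (nat_lit 0x127a2268eeeb65) (nat_lit 0x0)
  (PL.C (nat_lit 0x63a3b1e) (nat_lit 0x0) (nat_lit 0x283dd5a0e367290)
  (PL.C (nat_lit 0x63efe5d) (nat_lit 0x0) (nat_lit 0x3af0bab5448c4f)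
  (PL.C (nat_lit 0x640bc96) (nat_lit 0x0) (nat_lit 0x314fcbcb438cf2)
  (PL.C (nat_lit 0x64364a7) (nat_lit 0x0) (nat_lit 0x4cda81ae18f76f3)
  (PL.C (nat_lit 0x6462092) (nat_lit 0x5540b696aadab) (nat_lit 0x0)
  (PL.C (nat_lit 0x648b452) (nat_lit 0x1ec04f60fb426e) (nat_lit 0x0)
  (PL.C (nat_lit 0x64acf8a) (nat_lit 0x0) (nat_lit 0xfef6742cd27fe7)
  (PL.C (nat_lit 0x64d8563) (nat_lit 0x0) (nat_lit 0x127537e1c1f9bc2)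
  (PL.C (nat_lit 0x65641b2) (nat_lit 0x150a8575605c9cb) (nat_lit 0x0)
  (PL.C (nat_lit 0x65756f6) (nat_lit 0x427545a8fddc7b) (nat_lit 0x0) gp0_1_122))))))))))))))))))))

noncomputable def gp0_1_120 : PL :=
  (PL.C (nat_lit 0x60aee2e) (nat_lit 0x0) (nat_lit 0x207c3d65bf9503)
  (PL.C (nat_lit 0x60cda59) (nat_lit 0x0) (nat_lit 0x14241f21b812cc)
  (PL.C (nat_lit 0x60d7f63) (nat_lit 0x0) (nat_lit 0x1089c582f70f39e)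
  (PL.C (nat_lit 0x6102ecd) (nat_lit 0x1cd1628f80bfa8) (nat_lit 0x0)
  (PL.C (nat_lit 0x610d997) (nat_lit 0x0) (nat_lit 0x127537e1c1f9bc2)
  (PL.C (nat_lit 0x6113817) (nat_lit 0x0) (nat_lit 0x2de4fc0cd44e65)
  (PL.C (nat_lit 0x613182e) (nat_lit 0x0) (nat_lit 0x3319df6c19dcb13)
  (PL.C (nat_lit 0x614b332) (nat_lit 0x33188a01862d7) (nat_lit 0x0)
  (PL.C (nat_lit 0x614db79) (nat_lit 0x3960810c4e3842) (nat_lit 0x0)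
  (PL.C (nat_lit 0x619b1ed) (nat_lit 0x3ad6ab57bdc6778b) (nat_lit 0x0)
  (PL.C (nat_lit 0x61ba76a) (nat_lit 0x63bdd305b969ea) (nat_lit 0x0)
  (PL.C (nat_lit 0x61bb826) (nat_lit 0xcc0da7b572b99d) (nat_lit 0x0)
  (PL.C (nat_lit 0x61e48f3) (nat_lit 0x5fa9efeeb27824) (nat_lit 0x0)
  (PL.C (nat_lit 0x620eb6e) (nat_lit 0x0) (nat_lit 0x18b9808a2081865)
  (PL.C (nat_lit 0x621a335) (nat_lit 0x0) (nat_lit 0x2a3d2d22d284b3f)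
  (PL.C (nat_lit 0x62219be) (nat_lit 0xf5eff05fd0c2b0) (nat_lit 0x0)
  (PL.C (nat_lit 0x624b4cb) (nat_lit 0x0) (nat_lit 0x4819de771347d2c)
  (PL.C (nat_lit 0x627c95e) (nat_lit 0x0) (nat_lit 0x296a9c4a2e6dc)
  (PL.C (nat_lit 0x628369b) (nat_lit 0x0) (nat_lit 0xbc6753b297172)
  (PL.C (nat_lit 0x6292e2a) (nat_lit 0x0) (nat_lit 0x2e04c69027b75c) gp0_1_121))))))))))))))))))))

noncomputable def gp0_1_119 : PL :=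
  (PL.C (nat_lit 0x5e12b57) (nat_lit 0x0) (nat_lit 0x51126f8011264a)
  (PL.C (nat_lit 0x5e50db9) (nat_lit 0x0) (nat_lit 0x4db29e1a8118be)
  (PL.C (nat_lit 0x5e77999) (nat_lit 0x0) (nat_lit 0x313e9a16c2935)
  (PL.C (nat_lit 0x5e9ab54) (nat_lit 0x0) (nat_lit 0x1013cf130d5f6b)
  (PL.C (nat_lit 0x5eb7fd6) (nat_lit 0x22ba7b917ac9c6) (nat_lit 0x0)
  (PL.C (nat_lit 0x5ece069) (nat_lit 0x0) (nat_lit 0x1c9328e74d8a6b)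
  (PL.C (nat_lit 0x5f0ca87) (nat_lit 0x0) (nat_lit 0x46deaaf691652e)
  (PL.C (nat_lit 0x5f279d9) (nat_lit 0x29c2b7d84a0f7) (nat_lit 0x0)
  (PL.C (nat_lit 0x5f43549) (nat_lit 0x1769c04e384338) (nat_lit 0x0)
  (PL.C (nat_lit 0x5f4b3fc) (nat_lit 0x10f057d9871684) (nat_lit 0x0)
  (PL.C (nat_lit 0x5f539cb) (nat_lit 0x0) (nat_lit 0x12728aff915faf)
  (PL.C (nat_lit 0x5f554f6) (nat_lit 0x0) (nat_lit 0x1a09f1b5716970)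
  (PL.C (nat_lit 0x5f6b30c) (nat_lit 0x2168135742ca73) (nat_lit 0x0)
  (PL.C (nat_lit 0x5f8c0aa) (nat_lit 0x0) (nat_lit 0x4a0aea5932d572)
  (PL.C (nat_lit 0x5f944aa) (nat_lit 0x0) (nat_lit 0x4521398eb32a7a)
  (PL.C (nat_lit 0x5fdba42) (nat_lit 0x57c5865811688d) (nat_lit 0x0)
  (PL.C (nat_lit 0x6004ee7) (nat_lit 0x0) (nat_lit 0x4c9ae0cc79432a)
  (PL.C (nat_lit 0x6020bbf) (nat_lit 0x0) (nat_lit 0x20dc949c4bc373)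
  (PL.C (nat_lit 0x6052fb4) (nat_lit 0x0) (nat_lit 0x128b3a4519b461)
  (PL.C (nat_lit 0x6068fec) (nat_lit 0x0) (nat_lit 0x6e02569c3b287) gp0_1_120))))))))))))))))))))

noncomputable def gp0_1_118 : PL :=
  (PL.C (nat_lit 0x5b2d7d6) (nat_lit 0x0) (nat_lit 0xaae075502687e)
  (PL.C (nat_lit 0x5b52f16) (nat_lit 0x0) (nat_lit 0x13505c686e81cf)
  (PL.C (nat_lit 0x5b5d04c) (nat_lit 0x0) (nat_lit 0x2ba514df67731e)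
  (PL.C (nat_lit 0x5b72d6b) (nat_lit 0x16d6a12f95a9e70) (nat_lit 0x0)
  (PL.C (nat_lit 0x5c101e2) (nat_lit 0x0) (nat_lit 0x1c631590c3889c6)
  (PL.C (nat_lit 0x5c21847) (nat_lit 0x0) (nat_lit 0x4a3def6e699612)
  (PL.C (nat_lit 0x5c5e2fc) (nat_lit 0x4440234d94bbed) (nat_lit 0x0)
  (PL.C (nat_lit 0x5c8642a) (nat_lit 0x24a716e7449b8a) (nat_lit 0x0)
  (PL.C (nat_lit 0x5cd7c06) (nat_lit 0x0) (nat_lit 0x178513fb33e09fd)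
  (PL.C (nat_lit 0x5cd8f79) (nat_lit 0x1295a8742344a84) (nat_lit 0x0)
  (PL.C (nat_lit 0x5cec863) (nat_lit 0x0) (nat_lit 0x7dd6614aaf80ff)
  (PL.C (nat_lit 0x5d2563c) (nat_lit 0x0) (nat_lit 0x2516749f7e2041)
  (PL.C (nat_lit 0x5d354f4) (nat_lit 0x3e13a2e062e61e) (nat_lit 0x0)
  (PL.C (nat_lit 0x5d41e9b) (nat_lit 0x0) (nat_lit 0x1093799d196dcf)
  (PL.C (nat_lit 0x5d5d756) (nat_lit 0x0) (nat_lit 0x5684689419c847)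
  (PL.C (nat_lit 0x5d70965) (nat_lit 0x0) (nat_lit 0x3100db8004be2a)
  (PL.C (nat_lit 0x5d82c8f) (nat_lit 0x0) (nat_lit 0x19db8b8f2831d8)
  (PL.C (nat_lit 0x5de2b04) (nat_lit 0x0) (nat_lit 0x48402d902860b2)
  (PL.C (nat_lit 0x5deeba5) (nat_lit 0x0) (nat_lit 0x498d22191f3865)
  (PL.C (nat_lit 0x5e0463a) (nat_lit 0x0) (nat_lit 0x76b37699e3c2b7) gp0_1_119))))))))))))))))))))

noncomputable def gp0_1_117 : PL :=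
  (PL.C (nat_lit 0x58fe73b) (nat_lit 0x0) (nat_lit 0x243e968cdf901)
  (PL.C (nat_lit 0x59093a3) (nat_lit 0x46aca2bce1eda6) (nat_lit 0x0)
  (PL.C (nat_lit 0x5910c2a) (nat_lit 0x0) (nat_lit 0x31839142a051cc)
  (PL.C (nat_lit 0x591b7b1) (nat_lit 0xfd3c78d93970eb) (nat_lit 0x0)
  (PL.C (nat_lit 0x5929302) (nat_lit 0x4164bd1595fba7) (nat_lit 0x0)
  (PL.C (nat_lit 0x594f115) (nat_lit 0x0) (nat_lit 0x2c4429b96bf8a64)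
  (PL.C (nat_lit 0x59684cb) (nat_lit 0x0) (nat_lit 0x291f3ead69a9592)
  (PL.C (nat_lit 0x598a11b) (nat_lit 0x0) (nat_lit 0x34fef8868d101ac)
  (PL.C (nat_lit 0x59a6d26) (nat_lit 0x0) (nat_lit 0x5f0d6417203116)
  (PL.C (nat_lit 0x59ab336) (nat_lit 0xeefe5dd3df6049) (nat_lit 0x0)
  (PL.C (nat_lit 0x59cce8f) (nat_lit 0x0) (nat_lit 0x6c92a0f2bce40c)
  (PL.C (nat_lit 0x59cd705) (nat_lit 0x0) (nat_lit 0x4711c1dba079bb)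
  (PL.C (nat_lit 0x5a1ff26) (nat_lit 0x0) (nat_lit 0x2f9e53a3456f9c8)
  (PL.C (nat_lit 0x5a27d9e) (nat_lit 0x0) (nat_lit 0x2e40c60c1e5f92)
  (PL.C (nat_lit 0x5a4d0da) (nat_lit 0x0) (nat_lit 0x50c16b9bb8f81f)
  (PL.C (nat_lit 0x5a81e01) (nat_lit 0x0) (nat_lit 0x49a23453964f63b)
  (PL.C (nat_lit 0x5acc1ca) (nat_lit 0x0) (nat_lit 0xf7e836eee34a2)
  (PL.C (nat_lit 0x5adb5e2) (nat_lit 0x0) (nat_lit 0x31839166d6ba64)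
  (PL.C (nat_lit 0x5af168a) (nat_lit 0xc9ec810f6c626) (nat_lit 0x0)
  (PL.C (nat_lit 0x5af7b69) (nat_lit 0x25707fe09a7843e) (nat_lit 0x0) gp0_1_118))))))))))))))))))))

noncomputable def gp0_1_116 : PL :=
  (PL.C (nat_lit 0x5601266) (nat_lit 0x0) (nat_lit 0x2e4bb96bbd9fef)
  (PL.C (nat_lit 0x561cb55) (nat_lit 0x9a8ada48acfa1) (nat_lit 0x0)
  (PL.C (nat_lit 0x56247a6) (nat_lit 0x19c86a701d6191) (nat_lit 0x0)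
  (PL.C (nat_lit 0x56ca3db) (nat_lit 0x0) (nat_lit 0x2a3d2d265a786a1)
  (PL.C (nat_lit 0x56eeac5) (nat_lit 0x0) (nat_lit 0x233374e9f53944)
  (PL.C (nat_lit 0x5727eb4) (nat_lit 0x5ff3c9b4e1837e) (nat_lit 0x0)
  (PL.C (nat_lit 0x573b3d3) (nat_lit 0x3733099ba2f20a2) (nat_lit 0x0)
  (PL.C (nat_lit 0x57770e5) (nat_lit 0x0) (nat_lit 0x1f4680a1bb02551)
  (PL.C (nat_lit 0x5793f3d) (nat_lit 0x0) (nat_lit 0x4a8388c9b1d2b7)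
  (PL.C (nat_lit 0x57e8eed) (nat_lit 0x0) (nat_lit 0x4a3def6fb60383)
  (PL.C (nat_lit 0x57f3dde) (nat_lit 0x0) (nat_lit 0x1c72e3be2bdd3ae)
  (PL.C (nat_lit 0x57fead4) (nat_lit 0x17efd304e3fe70) (nat_lit 0x0)
  (PL.C (nat_lit 0x583c01d) (nat_lit 0x0) (nat_lit 0xe78c2b2f415bc)
  (PL.C (nat_lit 0x5855b4d) (nat_lit 0x4bd05b4ef946e) (nat_lit 0x0)
  (PL.C (nat_lit 0x5862067) (nat_lit 0x0) (nat_lit 0x188cf9397270735)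
  (PL.C (nat_lit 0x586660e) (nat_lit 0x3e3e0824effae2) (nat_lit 0x0)
  (PL.C (nat_lit 0x58a1dbf) (nat_lit 0x1214bd83939bf7) (nat_lit 0x0)
  (PL.C (nat_lit 0x58b1a36) (nat_lit 0x0) (nat_lit 0x6219b3dc285ddd)
  (PL.C (nat_lit 0x58c3cf5) (nat_lit 0x0) (nat_lit 0x1306f4faedbe7)
  (PL.C (nat_lit 0x58e2f0a) (nat_lit 0x0) (nat_lit 0x5f0d640f59c195) gp0_1_117))))))))))))))))))))

noncomputable def gp0_1_115 : PL :=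
  (PL.C (nat_lit 0x53fa26e) (nat_lit 0x0) (nat_lit 0x178eac840c3d8d3)
  (PL.C (nat_lit 0x540319a) (nat_lit 0x0) (nat_lit 0x19fba24dd6426d)
  (PL.C (nat_lit 0x542749b) (nat_lit 0x115c67f7d7b275) (nat_lit 0x0)
  (PL.C (nat_lit 0x5454372) (nat_lit 0x0) (nat_lit 0x2e40c60c1e5f92)
  (PL.C (nat_lit 0x545bc4e) (nat_lit 0x0) (nat_lit 0x84146da3d5a0c)
  (PL.C (nat_lit 0x547456e) (nat_lit 0x0) (nat_lit 0xba0e9bc6fc651)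
  (PL.C (nat_lit 0x5498383) (nat_lit 0x1acbb77490ac01d) (nat_lit 0x0)
  (PL.C (nat_lit 0x54b7ffc) (nat_lit 0x15385800a70624) (nat_lit 0x0)
  (PL.C (nat_lit 0x54bd25a) (nat_lit 0x0) (nat_lit 0x668c691f8f25f3)
  (PL.C (nat_lit 0x54cc3b7) (nat_lit 0xfa212e1bc9aad2) (nat_lit 0x0)
  (PL.C (nat_lit 0x54f67d1) (nat_lit 0x3b3e669fb16c4d) (nat_lit 0x0)
  (PL.C (nat_lit 0x55039ad) (nat_lit 0x0) (nat_lit 0x2f6c2fdd04ea27)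
  (PL.C (nat_lit 0x5515ac2) (nat_lit 0x68a5e3e396bc3c) (nat_lit 0x0)
  (PL.C (nat_lit 0x552102f) (nat_lit 0x0) (nat_lit 0xa30b91200e8642)
  (PL.C (nat_lit 0x554afd4) (nat_lit 0x12c8289aa3ff935) (nat_lit 0x0)
  (PL.C (nat_lit 0x55519bf) (nat_lit 0x0) (nat_lit 0x10937998edd58a)
  (PL.C (nat_lit 0x5572b24) (nat_lit 0x0) (nat_lit 0x5bba8991bb94a)
  (PL.C (nat_lit 0x5596ffa) (nat_lit 0x0) (nat_lit 0x9a2cb543cd0abd)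
  (PL.C (nat_lit 0x55a7aae) (nat_lit 0x0) (nat_lit 0x285ec7d2cfc45f4)
  (PL.C (nat_lit 0x55f4d2c) (nat_lit 0x0) (nat_lit 0x1fd3b5a484e358) gp0_1_116))))))))))))))))))))

noncomputable def gp0_1_114 : PL :=
  (PL.C (nat_lit 0x518e596) (nat_lit 0x0) (nat_lit 0x149df12a0ba37ad)
  (PL.C (nat_lit 0x51e48c1) (nat_lit 0x41f60d88cc2e17) (nat_lit 0x0)
  (PL.C (nat_lit 0x51f28b3) (nat_lit 0xdad0b8ad64ba65) (nat_lit 0x0)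
  (PL.C (nat_lit 0x51f8886) (nat_lit 0x4adb5da62c562c) (nat_lit 0x0)
  (PL.C (nat_lit 0x52230da) (nat_lit 0x12d9a4fbe1fcb85) (nat_lit 0x0)
  (PL.C (nat_lit 0x524213a) (nat_lit 0x0) (nat_lit 0x19e45e56aaba494)
  (PL.C (nat_lit 0x5265061) (nat_lit 0x0) (nat_lit 0x1154f0797771c1a8)
  (PL.C (nat_lit 0x52677b2) (nat_lit 0x76eddcc0385fb5) (nat_lit 0x0)
  (PL.C (nat_lit 0x52a2e07) (nat_lit 0x7ce88210159ce7) (nat_lit 0x0)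
  (PL.C (nat_lit 0x52ad2ca) (nat_lit 0x0) (nat_lit 0xbd6b32256c63d7)
  (PL.C (nat_lit 0x52c69a6) (nat_lit 0x0) (nat_lit 0x164843d5dc8b65)
  (PL.C (nat_lit 0x52d04c9) (nat_lit 0x31af070be2f326) (nat_lit 0x0)
  (PL.C (nat_lit 0x5301416) (nat_lit 0x2209e7d605d406) (nat_lit 0x0)
  (PL.C (nat_lit 0x5307027) (nat_lit 0x13493288b29d25a) (nat_lit 0x0)
  (PL.C (nat_lit 0x531d13e) (nat_lit 0x6acd4c8b97efc9) (nat_lit 0x0)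
  (PL.C (nat_lit 0x533f37e) (nat_lit 0x0) (nat_lit 0x10a5144a8bc53e)
  (PL.C (nat_lit 0x5363139) (nat_lit 0x0) (nat_lit 0x38d99567a14850)
  (PL.C (nat_lit 0x5365525) (nat_lit 0x34cae1d29af7ad) (nat_lit 0x0)
  (PL.C (nat_lit 0x53bbd02) (nat_lit 0x0) (nat_lit 0x314fcbc2029569)
  (PL.C (nat_lit 0x53e6fa2) (nat_lit 0xabb93794a4bdb4) (nat_lit 0x0) gp0_1_115))))))))))))))))))))

noncomputable def gp0_1_113 : PL :=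
  (PL.C (nat_lit 0x4f4b2f9) (nat_lit 0x46ff10d28cda4a) (nat_lit 0x0)
  (PL.C (nat_lit 0x4f698f3) (nat_lit 0x0) (nat_lit 0x33ecec08519228)
  (PL.C (nat_lit 0x4f8b5a2) (nat_lit 0x1b695caca035877) (nat_lit 0x0)
  (PL.C (nat_lit 0x4f9e05d) (nat_lit 0x593f237f9d20e) (nat_lit 0x0)
  (PL.C (nat_lit 0x4fbb7ba) (nat_lit 0x0) (nat_lit 0x1ed1939a3b8ca9f)
  (PL.C (nat_lit 0x502b303) (nat_lit 0x0) (nat_lit 0x90aeacb5d53dd)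
  (PL.C (nat_lit 0x503c8e3) (nat_lit 0x0) (nat_lit 0x17c4096f79e277)
  (PL.C (nat_lit 0x505066c) (nat_lit 0x0) (nat_lit 0x2b7eac0ed67c73)
  (PL.C (nat_lit 0x50534fd) (nat_lit 0x92ecb43b7e86fc) (nat_lit 0x0)
  (PL.C (nat_lit 0x507a5e7) (nat_lit 0x635da3805b0d64) (nat_lit 0x0)
  (PL.C (nat_lit 0x507aebc) (nat_lit 0x4095fdf6a8c5b2) (nat_lit 0x0)
  (PL.C (nat_lit 0x50af0d2) (nat_lit 0x0) (nat_lit 0x2c49fa280bdde2)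
  (PL.C (nat_lit 0x50d25ea) (nat_lit 0x5f82314b6aeeb3) (nat_lit 0x0)
  (PL.C (nat_lit 0x50deadf) (nat_lit 0x499a1f14296e2da) (nat_lit 0x0)
  (PL.C (nat_lit 0x51141b1) (nat_lit 0x460b5feec3e61) (nat_lit 0x0)
  (PL.C (nat_lit 0x5114fea) (nat_lit 0x4ffd41d80a0c65) (nat_lit 0x0)
  (PL.C (nat_lit 0x511a9d9) (nat_lit 0xde5f04121816c4) (nat_lit 0x0)
  (PL.C (nat_lit 0x51302c2) (nat_lit 0x427545bde3b8de) (nat_lit 0x0)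
  (PL.C (nat_lit 0x5135691) (nat_lit 0x0) (nat_lit 0x1306f4faedbe7)
  (PL.C (nat_lit 0x516b474) (nat_lit 0x0) (nat_lit 0x20807307cdf1a) gp0_1_114))))))))))))))))))))

noncomputable def gp0_1_112 : PL :=
  (PL.C (nat_lit 0x4d2bf03) (nat_lit 0x0) (nat_lit 0xbc4f6d70c684)
  (PL.C (nat_lit 0x4d2eff4) (nat_lit 0x168fed88c7e97d) (nat_lit 0x0)
  (PL.C (nat_lit 0x4d32657) (nat_lit 0x0) (nat_lit 0x5bdf7d8c51ce4e4)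
  (PL.C (nat_lit 0x4d32d9d) (nat_lit 0x151b2285af6943) (nat_lit 0x0)
  (PL.C (nat_lit 0x4d528fd) (nat_lit 0x0) (nat_lit 0x25674b2bbb2a0)
  (PL.C (nat_lit 0x4d79c76) (nat_lit 0x0) (nat_lit 0x2e1a497e6e9b29e)
  (PL.C (nat_lit 0x4d8092e) (nat_lit 0x2bad66d4bc295a) (nat_lit 0x0)
  (PL.C (nat_lit 0x4dc5da3) (nat_lit 0x0) (nat_lit 0x103c27d228dfa0f)
  (PL.C (nat_lit 0x4dccdea) (nat_lit 0x0) (nat_lit 0x3c7b059ef51d96)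
  (PL.C (nat_lit 0x4dd916c) (nat_lit 0x0) (nat_lit 0x28416609e424c9)
  (PL.C (nat_lit 0x4ddea66) (nat_lit 0x0) (nat_lit 0x65fb9ac74d4ee7)
  (PL.C (nat_lit 0x4dfcf5b) (nat_lit 0x0) (nat_lit 0xdc8dd4902fea3)
  (PL.C (nat_lit 0x4e1333c) (nat_lit 0x0) (nat_lit 0x6aa37a1ef00521)
  (PL.C (nat_lit 0x4e1ae52) (nat_lit 0x4bc1be8c1d9636) (nat_lit 0x0)
  (PL.C (nat_lit 0x4e34d52) (nat_lit 0x199954254f0fc2f) (nat_lit 0x0)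
  (PL.C (nat_lit 0x4e74194) (nat_lit 0x0) (nat_lit 0xd1e60cf1878b45)
  (PL.C (nat_lit 0x4e809af) (nat_lit 0x0) (nat_lit 0xa2c1cb778c40a)
  (PL.C (nat_lit 0x4ed4cc1) (nat_lit 0x56cc9be73ca82a) (nat_lit 0x0)
  (PL.C (nat_lit 0x4ef010b) (nat_lit 0xca30543f56cbc3) (nat_lit 0x0)
  (PL.C (nat_lit 0x4f3344f) (nat_lit 0x30b68898f4a37a) (nat_lit 0x0) gp0_1_113))))))))))))))))))))

noncomputable def gp0_1_111 : PL :=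
  (PL.C (nat_lit 0x4b69063) (nat_lit 0x0) (nat_lit 0x17c4097f3e4e2d)
  (PL.C (nat_lit 0x4b75bd6) (nat_lit 0x73a2c9f2fd89a5) (nat_lit 0x0)
  (PL.C (nat_lit 0x4b95cc7) (nat_lit 0x22b8cffc7935ec) (nat_lit 0x0)
  (PL.C (nat_lit 0x4b9aaec) (nat_lit 0x0) (nat_lit 0x256724634a158e)
  (PL.C (nat_lit 0x4befda5) (nat_lit 0x7890c3e764caa6) (nat_lit 0x0)
  (PL.C (nat_lit 0x4c0b694) (nat_lit 0x0) (nat_lit 0x1fd3b5a484e358)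
  (PL.C (nat_lit 0x4c4e80d) (nat_lit 0x0) (nat_lit 0x247a396d58bfd0)
  (PL.C (nat_lit 0x4c66fc5) (nat_lit 0x29d11211d582a84) (nat_lit 0x0)
  (PL.C (nat_lit 0x4c6943a) (nat_lit 0x0) (nat_lit 0x5cd548917b5020)
  (PL.C (nat_lit 0x4c80ea3) (nat_lit 0x0) (nat_lit 0x2debb3fe42d9dd)
  (PL.C (nat_lit 0x4c99de9) (nat_lit 0x0) (nat_lit 0x16b1de594df68a9)
  (PL.C (nat_lit 0x4ca5a72) (nat_lit 0x28d827a5006d69) (nat_lit 0x0)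
  (PL.C (nat_lit 0x4cc177e) (nat_lit 0x7b9301d01f9de9) (nat_lit 0x0)
  (PL.C (nat_lit 0x4cc5232) (nat_lit 0x0) (nat_lit 0x1f3def329a2f37)
  (PL.C (nat_lit 0x4cd984d) (nat_lit 0x46ff10d0a124f3) (nat_lit 0x0)
  (PL.C (nat_lit 0x4cdedea) (nat_lit 0x0) (nat_lit 0xfef6742cd27fe7)
  (PL.C (nat_lit 0x4cf7dae) (nat_lit 0x1e5823fc44687) (nat_lit 0x0)
  (PL.C (nat_lit 0x4cfffb3) (nat_lit 0x0) (nat_lit 0x1127ce24247f7d2)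
  (PL.C (nat_lit 0x4d11a76) (nat_lit 0x1222f58624e850) (nat_lit 0x0)
  (PL.C (nat_lit 0x4d1455c) (nat_lit 0x0) (nat_lit 0x2cb9b354862493) gp0_1_112))))))))))))))))))))

noncomputable def gp0_1_110 : PL :=
  (PL.C (nat_lit 0x4924956) (nat_lit 0x4adb5da1cb2cc0) (nat_lit 0x0)
  (PL.C (nat_lit 0x4928234) (nat_lit 0x0) (nat_lit 0x319b85c4a3877d)
  (PL.C (nat_lit 0x4943a87) (nat_lit 0x0) (nat_lit 0x1f0d17d4188ef0e)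
  (PL.C (nat_lit 0x4962699) (nat_lit 0x270d5806e4673c) (nat_lit 0x0)
  (PL.C (nat_lit 0x4962d5a) (nat_lit 0x0) (nat_lit 0x6a7ea810f9605d)
  (PL.C (nat_lit 0x4974904) (nat_lit 0xb3b1caa2deae0) (nat_lit 0x0)
  (PL.C (nat_lit 0x4990323) (nat_lit 0x0) (nat_lit 0x1bd4564adf24f29)
  (PL.C (nat_lit 0x49cb216) (nat_lit 0x0) (nat_lit 0x18b8ff1722cdf6)
  (PL.C (nat_lit 0x49edef1) (nat_lit 0x0) (nat_lit 0xfc4dda7b89c62)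
  (PL.C (nat_lit 0x4a06b6d) (nat_lit 0x0) (nat_lit 0xd6086fea7de3a3)
  (PL.C (nat_lit 0x4a5bc99) (nat_lit 0x0) (nat_lit 0x7dd661504dff80)
  (PL.C (nat_lit 0x4a9be43) (nat_lit 0x3e41222460592b5) (nat_lit 0x0)
  (PL.C (nat_lit 0x4abb35d) (nat_lit 0x1647dedabd0693) (nat_lit 0x0)
  (PL.C (nat_lit 0x4ad0dda) (nat_lit 0x0) (nat_lit 0x66ebba6a647bbd)
  (PL.C (nat_lit 0x4adf18e) (nat_lit 0x0) (nat_lit 0x164843bc99a824)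
  (PL.C (nat_lit 0x4afd07b) (nat_lit 0x66796ef45d0d0d) (nat_lit 0x0)
  (PL.C (nat_lit 0x4b159ac) (nat_lit 0x0) (nat_lit 0x191e32aa1723291)
  (PL.C (nat_lit 0x4b2f652) (nat_lit 0x0) (nat_lit 0x2dfc17e9cccf98)
  (PL.C (nat_lit 0x4b3bbce) (nat_lit 0x0) (nat_lit 0xfae33ea3f5e77)
  (PL.C (nat_lit 0x4b4898a) (nat_lit 0x0) (nat_lit 0x63bf2b434b9261) gp0_1_111))))))))))))))))))))

noncomputable def gp0_1_109 : PL :=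
  (PL.C (nat_lit 0x47b8cd5) (nat_lit 0x3b3e66948d31fd) (nat_lit 0x0)
  (PL.C (nat_lit 0x47c0efc) (nat_lit 0x0) (nat_lit 0x2525bc56841ecc)
  (PL.C (nat_lit 0x47dbedd) (nat_lit 0x0) (nat_lit 0x379199e6f6d7ec3)
  (PL.C (nat_lit 0x47dcb2b) (nat_lit 0x0) (nat_lit 0x9bd1fe0e06a07f)
  (PL.C (nat_lit 0x47fb472) (nat_lit 0x60cd4dec741dbe) (nat_lit 0x0)
  (PL.C (nat_lit 0x4800224) (nat_lit 0x12c8289aa3ff935) (nat_lit 0x0)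
  (PL.C (nat_lit 0x4803ba9) (nat_lit 0xca305442c5fbc7) (nat_lit 0x0)
  (PL.C (nat_lit 0x481ddcf) (nat_lit 0x0) (nat_lit 0xb0f3e796c7d86)
  (PL.C (nat_lit 0x4827c57) (nat_lit 0x0) (nat_lit 0x3dc4874b87ec68)
  (PL.C (nat_lit 0x484e5e6) (nat_lit 0x0) (nat_lit 0x64f54aa3c97782d)
  (PL.C (nat_lit 0x4850f67) (nat_lit 0xdbe263bea6092) (nat_lit 0x0)
  (PL.C (nat_lit 0x486aaa7) (nat_lit 0x261170d) (nat_lit 0x0)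
  (PL.C (nat_lit 0x486cbd3) (nat_lit 0x29d11211d582a84) (nat_lit 0x0)
  (PL.C (nat_lit 0x4884c5a) (nat_lit 0x0) (nat_lit 0xbd6b322daffa73)
  (PL.C (nat_lit 0x4899e7e) (nat_lit 0x0) (nat_lit 0x3399a3459441b64)
  (PL.C (nat_lit 0x48cb08b) (nat_lit 0xe05dca8bcb441a) (nat_lit 0x0)
  (PL.C (nat_lit 0x48d411c) (nat_lit 0x0) (nat_lit 0x17d02852830b13)
  (PL.C (nat_lit 0x48ef775) (nat_lit 0x0) (nat_lit 0x121f0b848c4ff86)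
  (PL.C (nat_lit 0x4915105) (nat_lit 0x1020445bba70df3) (nat_lit 0x0)
  (PL.C (nat_lit 0x49191a5) (nat_lit 0x4bd05a7c1c1a5) (nat_lit 0x0) gp0_1_110))))))))))))))))))))

noncomputable def gp0_1_108 : PL :=
  (PL.C (nat_lit 0x45d0324) (nat_lit 0x7bc89024a0bdb7) (nat_lit 0x0)
  (PL.C (nat_lit 0x45e02be) (nat_lit 0x0) (nat_lit 0x6219b3e10ff557)
  (PL.C (nat_lit 0x4611aee) (nat_lit 0x5550908e854cea) (nat_lit 0x0)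
  (PL.C (nat_lit 0x461b11c) (nat_lit 0x0) (nat_lit 0x5bba890743ca0)
  (PL.C (nat_lit 0x46292b6) (nat_lit 0x5a86a37a97d2f6) (nat_lit 0x0)
  (PL.C (nat_lit 0x4658a57) (nat_lit 0x28ff466c30c014) (nat_lit 0x0)
  (PL.C (nat_lit 0x4666279) (nat_lit 0x0) (nat_lit 0x13fe4af6ba2eefc)
  (PL.C (nat_lit 0x466a0bc) (nat_lit 0xa2ec74550c9c0a) (nat_lit 0x0)
  (PL.C (nat_lit 0x467bda9) (nat_lit 0x9a9af8abdf9258) (nat_lit 0x0)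
  (PL.C (nat_lit 0x46b5904) (nat_lit 0x153857fe2b5b07) (nat_lit 0x0)
  (PL.C (nat_lit 0x46b68ea) (nat_lit 0x0) (nat_lit 0x1858d65abd906c)
  (PL.C (nat_lit 0x46d39aa) (nat_lit 0x0) (nat_lit 0xdcb34eed64296b)
  (PL.C (nat_lit 0x46d8839) (nat_lit 0xd439dcc1bd73ec) (nat_lit 0x0)
  (PL.C (nat_lit 0x46e3ca6) (nat_lit 0x12d9a4fbe1fcb85) (nat_lit 0x0)
  (PL.C (nat_lit 0x46eb582) (nat_lit 0x0) (nat_lit 0x50d0ea676549dbb)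
  (PL.C (nat_lit 0x4709e47) (nat_lit 0x0) (nat_lit 0x34fef886a30b722)
  (PL.C (nat_lit 0x47129fa) (nat_lit 0x36d003675a4e60) (nat_lit 0x0)
  (PL.C (nat_lit 0x476661f) (nat_lit 0x593f23a063fa5) (nat_lit 0x0)
  (PL.C (nat_lit 0x478a1e1) (nat_lit 0xc0be972e300103) (nat_lit 0x0)
  (PL.C (nat_lit 0x47b2f51) (nat_lit 0x0) (nat_lit 0xc187adfdc0e35) gp0_1_109))))))))))))))))))))

noncomputable def gp0_1_107 : PL :=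
  (PL.C (nat_lit 0x43acc4f) (nat_lit 0x0) (nat_lit 0xac639a607ec82)
  (PL.C (nat_lit 0x43c4679) (nat_lit 0x0) (nat_lit 0xc43977b5434ad8)
  (PL.C (nat_lit 0x43eae6e) (nat_lit 0x0) (nat_lit 0x6c2a3db9356290)
  (PL.C (nat_lit 0x43ef9c3) (nat_lit 0xe05dca7e6ed8c7) (nat_lit 0x0)
  (PL.C (nat_lit 0x443694f) (nat_lit 0x2a51c5af1ebaba) (nat_lit 0x0)
  (PL.C (nat_lit 0x444449b) (nat_lit 0x499a1f14296e2da) (nat_lit 0x0)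
  (PL.C (nat_lit 0x446d3ae) (nat_lit 0x5d8048a51c746) (nat_lit 0x0)
  (PL.C (nat_lit 0x4471635) (nat_lit 0xe48d89bf10451) (nat_lit 0x0)
  (PL.C (nat_lit 0x4487d14) (nat_lit 0xfafe7c2b5a0f06) (nat_lit 0x0)
  (PL.C (nat_lit 0x448914a) (nat_lit 0x14d91e48ca8617) (nat_lit 0x0)
  (PL.C (nat_lit 0x448ab6a) (nat_lit 0x2692d4b5d50ab12) (nat_lit 0x0)
  (PL.C (nat_lit 0x44bc37a) (nat_lit 0x1d5abb1295e4d5) (nat_lit 0x0)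
  (PL.C (nat_lit 0x44f35dd) (nat_lit 0x0) (nat_lit 0x6e398f32c5d340)
  (PL.C (nat_lit 0x4504062) (nat_lit 0x1bcb6f32ba9eea) (nat_lit 0x0)
  (PL.C (nat_lit 0x4513316) (nat_lit 0x49134d43778f9d9) (nat_lit 0x0)
  (PL.C (nat_lit 0x4521585) (nat_lit 0x0) (nat_lit 0x1bb844647834d65)
  (PL.C (nat_lit 0x452ecef) (nat_lit 0xaabacb08ce76ac) (nat_lit 0x0)
  (PL.C (nat_lit 0x45561c2) (nat_lit 0x0) (nat_lit 0x178eac840c3d8d3)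
  (PL.C (nat_lit 0x456d206) (nat_lit 0x0) (nat_lit 0x262d3257b2309ea)
  (PL.C (nat_lit 0x458fdfa) (nat_lit 0x6acd4cb4cd52ee) (nat_lit 0x0) gp0_1_108))))))))))))))))))))

noncomputable def gp0_1_106 : PL :=
  (PL.C (nat_lit 0x41fbe8c) (nat_lit 0x0) (nat_lit 0x23bcaf2b3374b8)
  (PL.C (nat_lit 0x4220cbc) (nat_lit 0x0) (nat_lit 0xeb563fbae2262)
  (PL.C (nat_lit 0x422b521) (nat_lit 0x0) (nat_lit 0xabdfaf9cbe179c)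
  (PL.C (nat_lit 0x422bc64) (nat_lit 0x0) (nat_lit 0x23a75e81cedaef)
  (PL.C (nat_lit 0x42350bb) (nat_lit 0x1861d3c4c822dd) (nat_lit 0x0)
  (PL.C (nat_lit 0x4240946) (nat_lit 0x5116f45e43bc5) (nat_lit 0x0)
  (PL.C (nat_lit 0x4244aab) (nat_lit 0x26bda838ff4223a) (nat_lit 0x0)
  (PL.C (nat_lit 0x426d214) (nat_lit 0x245eb6b2281724b) (nat_lit 0x0)
  (PL.C (nat_lit 0x4270725) (nat_lit 0x0) (nat_lit 0x19e48a832b9828a)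
  (PL.C (nat_lit 0x4281789) (nat_lit 0x101bbaea20c409) (nat_lit 0x0)
  (PL.C (nat_lit 0x42a20b1) (nat_lit 0x1b65b259011ef2c) (nat_lit 0x0)
  (PL.C (nat_lit 0x42b2864) (nat_lit 0x11231e4ea741c5) (nat_lit 0x0)
  (PL.C (nat_lit 0x42c6f2d) (nat_lit 0x0) (nat_lit 0xf108098c2a715)
  (PL.C (nat_lit 0x42db7cb) (nat_lit 0x3b57cbfebc2bf2a) (nat_lit 0x0)
  (PL.C (nat_lit 0x42deaed) (nat_lit 0x0) (nat_lit 0x44af244f3f548f)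
  (PL.C (nat_lit 0x430adc3) (nat_lit 0x49765a1d5d8af5) (nat_lit 0x0)
  (PL.C (nat_lit 0x4326663) (nat_lit 0x0) (nat_lit 0x42b8d4229083d)
  (PL.C (nat_lit 0x433ae42) (nat_lit 0x0) (nat_lit 0x1457fd73f857e9c)
  (PL.C (nat_lit 0x437c077) (nat_lit 0x4ffd85db566d557) (nat_lit 0x0)
  (PL.C (nat_lit 0x43a18a9) (nat_lit 0x2a51c5b247e68a) (nat_lit 0x0) gp0_1_107))))))))))))))))))))

noncomputable def gp0_1_105 : PL :=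
  (PL.C (nat_lit 0x40de7a6) (nat_lit 0x4fbb065e0f30bc) (nat_lit 0x0)
  (PL.C (nat_lit 0x40df841) (nat_lit 0x0) (nat_lit 0x498d220f28690c)
  (PL.C (nat_lit 0x40e66db) (nat_lit 0xde5f04121816c4) (nat_lit 0x0)
  (PL.C (nat_lit 0x40fffbf) (nat_lit 0x526f7f36a7189d) (nat_lit 0x0)
  (PL.C (nat_lit 0x41254d1) (nat_lit 0x0) (nat_lit 0x34a11fdf84ab53)
  (PL.C (nat_lit 0x4126f9c) (nat_lit 0x0) (nat_lit 0x4100e4e899070)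
  (PL.C (nat_lit 0x4127ac4) (nat_lit 0xa2ec74638271c9) (nat_lit 0x0)
  (PL.C (nat_lit 0x412aed1) (nat_lit 0x4f9ee427606b335) (nat_lit 0x0)
  (PL.C (nat_lit 0x413aed3) (nat_lit 0x0) (nat_lit 0xb0f3e7d20d8f0)
  (PL.C (nat_lit 0x41430a2) (nat_lit 0x0) (nat_lit 0xb09d8dcc16f674)
  (PL.C (nat_lit 0x414773d) (nat_lit 0x3ebe35f5382fec) (nat_lit 0x0)
  (PL.C (nat_lit 0x415b92d) (nat_lit 0x1ae4193f35a245) (nat_lit 0x0)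
  (PL.C (nat_lit 0x4166cce) (nat_lit 0x81268b548b27495) (nat_lit 0x0)
  (PL.C (nat_lit 0x416bbd4) (nat_lit 0x58d0c0dfc6150c) (nat_lit 0x0)
  (PL.C (nat_lit 0x417d43d) (nat_lit 0x437115c87269e2) (nat_lit 0x0)
  (PL.C (nat_lit 0x41acf12) (nat_lit 0x856032feaee9a) (nat_lit 0x0)
  (PL.C (nat_lit 0x41b741c) (nat_lit 0x7bc8900c16ef9d) (nat_lit 0x0)
  (PL.C (nat_lit 0x41c2f4a) (nat_lit 0x1a534d8b317d150) (nat_lit 0x0)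
  (PL.C (nat_lit 0x41df483) (nat_lit 0xc7e9417b64bc5) (nat_lit 0x0)
  (PL.C (nat_lit 0x41eb9ab) (nat_lit 0x0) (nat_lit 0xd2dc34ce9ef44) gp0_1_106))))))))))))))))))))

noncomputable def gp0_1_104 : PL :=
  (PL.C (nat_lit 0x3f15b91) (nat_lit 0x6bb48322cd63ab) (nat_lit 0x0)
  (PL.C (nat_lit 0x3f34046) (nat_lit 0x0) (nat_lit 0x18b980899a38846)
  (PL.C (nat_lit 0x3f3d14b) (nat_lit 0x0) (nat_lit 0x20b2e74b78439c)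
  (PL.C (nat_lit 0x3f570eb) (nat_lit 0x0) (nat_lit 0x7759d4eca273ee)
  (PL.C (nat_lit 0x3f5dc5a) (nat_lit 0x0) (nat_lit 0x189f433bd1097d6)
  (PL.C (nat_lit 0x3f6fbe6) (nat_lit 0x2481b896d1e2cc) (nat_lit 0x0)
  (PL.C (nat_lit 0x3f82386) (nat_lit 0x0) (nat_lit 0x3c7b0574298e33)
  (PL.C (nat_lit 0x3f8d132) (nat_lit 0x0) (nat_lit 0x63bf2b79fe4f85)
  (PL.C (nat_lit 0x3fa872f) (nat_lit 0x0) (nat_lit 0x46deab15398ed8)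
  (PL.C (nat_lit 0x3fb2b1c) (nat_lit 0x0) (nat_lit 0x6e02569c3b287)
  (PL.C (nat_lit 0x3fb831c) (nat_lit 0x83c3c4f431f99d) (nat_lit 0x0)
  (PL.C (nat_lit 0x3fe7c2c) (nat_lit 0x4c276caf6bbffe) (nat_lit 0x0)
  (PL.C (nat_lit 0x3fec191) (nat_lit 0x55fd89bb27857cc) (nat_lit 0x0)
  (PL.C (nat_lit 0x400349a) (nat_lit 0x0) (nat_lit 0xa1b7d8c6672e13)
  (PL.C (nat_lit 0x4015d2a) (nat_lit 0x0) (nat_lit 0x16f5a2215dd894)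
  (PL.C (nat_lit 0x4074974) (nat_lit 0x0) (nat_lit 0x1013cf14b5602f)
  (PL.C (nat_lit 0x40ac9de) (nat_lit 0xe987557fc3c97b) (nat_lit 0x0)
  (PL.C (nat_lit 0x40b3bba) (nat_lit 0x0) (nat_lit 0x16fb4fda9408270)
  (PL.C (nat_lit 0x40b7aba) (nat_lit 0x0) (nat_lit 0x49f44caf2a868b)
  (PL.C (nat_lit 0x40dcccc) (nat_lit 0x0) (nat_lit 0x23bcaf28181f94) gp0_1_105))))))))))))))))))))

noncomputable def gp0_1_103 : PL :=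
  (PL.C (nat_lit 0x3df3042) (nat_lit 0x0) (nat_lit 0x2a84e7fb90b41a1)
  (PL.C (nat_lit 0x3dfeb97) (nat_lit 0x0) (nat_lit 0x240aeccdad2baf)
  (PL.C (nat_lit 0x3e01b01) (nat_lit 0x1aa88d8ab1c54f) (nat_lit 0x0)
  (PL.C (nat_lit 0x3e2aa6f) (nat_lit 0x0) (nat_lit 0x115584f3ea9871)
  (PL.C (nat_lit 0x3e2bf12) (nat_lit 0x0) (nat_lit 0x271fad74e0a761)
  (PL.C (nat_lit 0x3e3e4e4) (nat_lit 0x0) (nat_lit 0xd1e60cf1878b45)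
  (PL.C (nat_lit 0x3e4287b) (nat_lit 0x0) (nat_lit 0x8bf73cb720b85e0)
  (PL.C (nat_lit 0x3e4b0ee) (nat_lit 0x0) (nat_lit 0xad4997988197f)
  (PL.C (nat_lit 0x3e5730a) (nat_lit 0x3579464963c8e2) (nat_lit 0x0)
  (PL.C (nat_lit 0x3e6f7f3) (nat_lit 0x0) (nat_lit 0x11ddf94fb332ac)
  (PL.C (nat_lit 0x3e93973) (nat_lit 0x0) (nat_lit 0x217deb57f078233)
  (PL.C (nat_lit 0x3e9f26e) (nat_lit 0x0) (nat_lit 0x68fd5649e92e74)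
  (PL.C (nat_lit 0x3ead97c) (nat_lit 0x4d53e3999345a4) (nat_lit 0x0)
  (PL.C (nat_lit 0x3eb2e8d) (nat_lit 0x0) (nat_lit 0x2b305c08b70d62)
  (PL.C (nat_lit 0x3eb723a) (nat_lit 0x0) (nat_lit 0x178513fb33e09fd)
  (PL.C (nat_lit 0x3ec52bd) (nat_lit 0x2a43f1d2da784ba) (nat_lit 0x0)
  (PL.C (nat_lit 0x3ed6b3d) (nat_lit 0x1b5bd7475a0b0b) (nat_lit 0x0)
  (PL.C (nat_lit 0x3ee0926) (nat_lit 0x0) (nat_lit 0x132c0257965033)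
  (PL.C (nat_lit 0x3efa666) (nat_lit 0x66ec4e88e6e9d8) (nat_lit 0x0)
  (PL.C (nat_lit 0x3efb48f) (nat_lit 0x0) (nat_lit 0x6d85fdb17703f32) gp0_1_104))))))))))))))))))))

noncomputable def gp0_1_102 : PL :=
  (PL.C (nat_lit 0x3c791df) (nat_lit 0x252f9f8c4200016) (nat_lit 0x0)
  (PL.C (nat_lit 0x3c923ec) (nat_lit 0x1d0048791c738a) (nat_lit 0x0)
  (PL.C (nat_lit 0x3ca5246) (nat_lit 0x0) (nat_lit 0xc0b9a07232ab2)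
  (PL.C (nat_lit 0x3cb3607) (nat_lit 0x0) (nat_lit 0x25ab1a3c489c75)
  (PL.C (nat_lit 0x3cb9f91) (nat_lit 0x270d580cb322fe) (nat_lit 0x0)
  (PL.C (nat_lit 0x3cc8fe4) (nat_lit 0xf8d878b417e35) (nat_lit 0x0)
  (PL.C (nat_lit 0x3ccaa0d) (nat_lit 0x0) (nat_lit 0x19db8b8f2831d8)
  (PL.C (nat_lit 0x3ce1f64) (nat_lit 0x0) (nat_lit 0x16e8d36c00e968)
  (PL.C (nat_lit 0x3cf2ca3) (nat_lit 0x0) (nat_lit 0xb6e52e15eca86)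
  (PL.C (nat_lit 0x3d2345f) (nat_lit 0x0) (nat_lit 0x49a23455c5084c2)
  (PL.C (nat_lit 0x3d36037) (nat_lit 0x0) (nat_lit 0xc90fcb2a72498)
  (PL.C (nat_lit 0x3d6bada) (nat_lit 0x0) (nat_lit 0x104363eea03ed7d)
  (PL.C (nat_lit 0x3d72df7) (nat_lit 0x635da3adaa7294) (nat_lit 0x0)
  (PL.C (nat_lit 0x3d91a09) (nat_lit 0x0) (nat_lit 0xd5d6d998c24321)
  (PL.C (nat_lit 0x3db15d9) (nat_lit 0x0) (nat_lit 0x124af1ec7417f36)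
  (PL.C (nat_lit 0x3dbf76f) (nat_lit 0x0) (nat_lit 0x291f3ead69a9592)
  (PL.C (nat_lit 0x3dc60b5) (nat_lit 0x0) (nat_lit 0x2bb643041b77954)
  (PL.C (nat_lit 0x3dc9755) (nat_lit 0x3f9977fe7d8d5) (nat_lit 0x0)
  (PL.C (nat_lit 0x3de5fa6) (nat_lit 0x22c54dfe5ac59ac) (nat_lit 0x0)
  (PL.C (nat_lit 0x3de8421) (nat_lit 0x0) (nat_lit 0x10c6507984487f4) gp0_1_103))))))))))))))))))))

noncomputable def gp0_1_101 : PL :=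
  (PL.C (nat_lit 0x3b45fb5) (nat_lit 0x0) (nat_lit 0x205611df228778d)
  (PL.C (nat_lit 0x3b544d2) (nat_lit 0x5f4fbc76c68b1) (nat_lit 0x0)
  (PL.C (nat_lit 0x3b5b7c2) (nat_lit 0x73a2c9f8e76840) (nat_lit 0x0)
  (PL.C (nat_lit 0x3b6081c) (nat_lit 0x1d00486c4a35b5) (nat_lit 0x0)
  (PL.C (nat_lit 0x3b67a76) (nat_lit 0x1b695caca035877) (nat_lit 0x0)
  (PL.C (nat_lit 0x3b6d81d) (nat_lit 0x249586421115f80) (nat_lit 0x0)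
  (PL.C (nat_lit 0x3b70cac) (nat_lit 0x168fed8e1f04f1) (nat_lit 0x0)
  (PL.C (nat_lit 0x3b8955d) (nat_lit 0x0) (nat_lit 0x4dd353f533e58)
  (PL.C (nat_lit 0x3bb1612) (nat_lit 0x188b1c20d63f87e) (nat_lit 0x0)
  (PL.C (nat_lit 0x3bc48c4) (nat_lit 0x0) (nat_lit 0x6ee5056ed4822c)
  (PL.C (nat_lit 0x3bd9c5d) (nat_lit 0x0) (nat_lit 0xabdfaf8b36a1e9)
  (PL.C (nat_lit 0x3bddf0a) (nat_lit 0xfbd3d040eb45c3) (nat_lit 0x0)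
  (PL.C (nat_lit 0x3bde4ae) (nat_lit 0x0) (nat_lit 0x66ebba659f0439)
  (PL.C (nat_lit 0x3bf7ba3) (nat_lit 0x0) (nat_lit 0x2262bd5f96386b)
  (PL.C (nat_lit 0x3c154c4) (nat_lit 0x48bd6d6246aaf0d) (nat_lit 0x0)
  (PL.C (nat_lit 0x3c1a914) (nat_lit 0x0) (nat_lit 0x59adacf194650f)
  (PL.C (nat_lit 0x3c27b25) (nat_lit 0x419baeadba2d3) (nat_lit 0x0)
  (PL.C (nat_lit 0x3c45cdb) (nat_lit 0x0) (nat_lit 0x6dd5600e865541)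
  (PL.C (nat_lit 0x3c56956) (nat_lit 0x1a661fbc26e44) (nat_lit 0x0)
  (PL.C (nat_lit 0x3c6d9f5) (nat_lit 0x0) (nat_lit 0x9a11df56afafac) gp0_1_102))))))))))))))))))))

noncomputable def gp0_1_100 : PL :=
  (PL.C (nat_lit 0x3967a85) (nat_lit 0x0) (nat_lit 0x5486d1506381bf)
  (PL.C (nat_lit 0x396878e) (nat_lit 0x10b486fca193c6f) (nat_lit 0x0)
  (PL.C (nat_lit 0x39dc292) (nat_lit 0x9cc9e3000af0eb6) (nat_lit 0x0)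
  (PL.C (nat_lit 0x39f472e) (nat_lit 0x0) (nat_lit 0x14bc533b1a575e)
  (PL.C (nat_lit 0x3a23921) (nat_lit 0xa2b11617972be) (nat_lit 0x0)
  (PL.C (nat_lit 0x3a277e2) (nat_lit 0x40469f4d6a655c2) (nat_lit 0x0)
  (PL.C (nat_lit 0x3a34811) (nat_lit 0x0) (nat_lit 0x6e398f3085acf2)
  (PL.C (nat_lit 0x3a4f5ee) (nat_lit 0x49134d43f9ff192) (nat_lit 0x0)
  (PL.C (nat_lit 0x3a66aeb) (nat_lit 0x234069305423976) (nat_lit 0x0)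
  (PL.C (nat_lit 0x3a7d0d9) (nat_lit 0x0) (nat_lit 0x16b1de594df68a9)
  (PL.C (nat_lit 0x3a9b49e) (nat_lit 0x0) (nat_lit 0x104363efaaad8f0)
  (PL.C (nat_lit 0x3aa3b17) (nat_lit 0x26acce915be5621) (nat_lit 0x0)
  (PL.C (nat_lit 0x3ad2abe) (nat_lit 0x0) (nat_lit 0x287b8439e55e46)
  (PL.C (nat_lit 0x3ad63c7) (nat_lit 0x419baf4b65591) (nat_lit 0x0)
  (PL.C (nat_lit 0x3ae3cde) (nat_lit 0x0) (nat_lit 0xe41e9b0784917)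
  (PL.C (nat_lit 0x3aeeeb4) (nat_lit 0x6ae225ccffb81) (nat_lit 0x0)
  (PL.C (nat_lit 0x3b0740b) (nat_lit 0x0) (nat_lit 0x4dd353f533e58)
  (PL.C (nat_lit 0x3b1692a) (nat_lit 0x43a2bdd6574c10) (nat_lit 0x0)
  (PL.C (nat_lit 0x3b2d34e) (nat_lit 0x0) (nat_lit 0x39b5a4eb9f4705)
  (PL.C (nat_lit 0x3b41f5c) (nat_lit 0x0) (nat_lit 0x6ee50561c7ed71) gp0_1_101))))))))))))))))))))

noncomputable def gp0_1_99 : PL :=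
  (PL.C (nat_lit 0x384d8f4) (nat_lit 0x0) (nat_lit 0xeb564090ffb8f)
  (PL.C (nat_lit 0x3870237) (nat_lit 0x252f9f8a11efadc) (nat_lit 0x0)
  (PL.C (nat_lit 0x3872d61) (nat_lit 0x58ad918d0d59c7) (nat_lit 0x0)
  (PL.C (nat_lit 0x387aaa8) (nat_lit 0x774c34964caad) (nat_lit 0x0)
  (PL.C (nat_lit 0x3885c1d) (nat_lit 0x18a31a520b40c29) (nat_lit 0x0)
  (PL.C (nat_lit 0x388827a) (nat_lit 0x1e13b38e177fbb7) (nat_lit 0x0)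
  (PL.C (nat_lit 0x389820f) (nat_lit 0x29c2b7d84a0f7) (nat_lit 0x0)
  (PL.C (nat_lit 0x38a4536) (nat_lit 0x2848e46eb446ba9) (nat_lit 0x0)
  (PL.C (nat_lit 0x38ab193) (nat_lit 0x0) (nat_lit 0x431cd956bc958e)
  (PL.C (nat_lit 0x38ad11e) (nat_lit 0x114578d31171539) (nat_lit 0x0)
  (PL.C (nat_lit 0x38b0ffb) (nat_lit 0xd217c43a0fa6522) (nat_lit 0x0)
  (PL.C (nat_lit 0x38c0aca) (nat_lit 0x4059b692fb49d2) (nat_lit 0x0)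
  (PL.C (nat_lit 0x38e112a) (nat_lit 0x0) (nat_lit 0x271fad52e83807)
  (PL.C (nat_lit 0x38f7218) (nat_lit 0x0) (nat_lit 0xa858abf12726b)
  (PL.C (nat_lit 0x38f7a93) (nat_lit 0x0) (nat_lit 0xa8c8f6680e12379)
  (PL.C (nat_lit 0x38facf3) (nat_lit 0x0) (nat_lit 0x696cbacf7a0ac2)
  (PL.C (nat_lit 0x391d4bd) (nat_lit 0xe5a5f964b7168e) (nat_lit 0x0)
  (PL.C (nat_lit 0x3934c1d) (nat_lit 0x41f60d58eca988) (nat_lit 0x0)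
  (PL.C (nat_lit 0x3941d4b) (nat_lit 0x0) (nat_lit 0x649ecf28af9744)
  (PL.C (nat_lit 0x3947ee9) (nat_lit 0x0) (nat_lit 0x1b935ac6e30b6c0) gp0_1_100))))))))))))))))))))

noncomputable def gp0_1_98 : PL :=
  (PL.C (nat_lit 0x36a5b04) (nat_lit 0x610cb7399c4b5f) (nat_lit 0x0)
  (PL.C (nat_lit 0x36d6b7c) (nat_lit 0x6c61ae9b3e8788) (nat_lit 0x0)
  (PL.C (nat_lit 0x36e782b) (nat_lit 0x225cb36c3bc677) (nat_lit 0x0)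
  (PL.C (nat_lit 0x3702fd5) (nat_lit 0x2a3645086afcec) (nat_lit 0x0)
  (PL.C (nat_lit 0x371e1dc) (nat_lit 0x0) (nat_lit 0xdbdd4f39e50169)
  (PL.C (nat_lit 0x3735886) (nat_lit 0x3574a9cfaa0056a) (nat_lit 0x0)
  (PL.C (nat_lit 0x37487f1) (nat_lit 0x517da529337271) (nat_lit 0x0)
  (PL.C (nat_lit 0x375a01a) (nat_lit 0x1253f5bec32ce8f) (nat_lit 0x0)
  (PL.C (nat_lit 0x375b06d) (nat_lit 0xdad0b8bd63f7d4) (nat_lit 0x0)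
  (PL.C (nat_lit 0x3784545) (nat_lit 0x0) (nat_lit 0x24a490ec72f814)
  (PL.C (nat_lit 0x3797626) (nat_lit 0x194837c1a20bfa) (nat_lit 0x0)
  (PL.C (nat_lit 0x379b3cf) (nat_lit 0x0) (nat_lit 0x19e48a832b9828a)
  (PL.C (nat_lit 0x37ca943) (nat_lit 0x0) (nat_lit 0x26fb0fb699182a0)
  (PL.C (nat_lit 0x37d28ac) (nat_lit 0x11231e4f456889) (nat_lit 0x0)
  (PL.C (nat_lit 0x3800a09) (nat_lit 0x0) (nat_lit 0x649ecf28af9744)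
  (PL.C (nat_lit 0x381337b) (nat_lit 0x9f3e9e3c5fd2a) (nat_lit 0x0)
  (PL.C (nat_lit 0x3815c79) (nat_lit 0xc7e9418bc4e99) (nat_lit 0x0)
  (PL.C (nat_lit 0x381a312) (nat_lit 0x6bba53fd8d9e17) (nat_lit 0x0)
  (PL.C (nat_lit 0x382f485) (nat_lit 0x0) (nat_lit 0x604d697812f5f9)
  (PL.C (nat_lit 0x383824c) (nat_lit 0x0) (nat_lit 0x59adacf194650f) gp0_1_99))))))))))))))))))))

noncomputable def gp0_1_97 : PL :=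
  (PL.C (nat_lit 0x351403e) (nat_lit 0x7718767c8d4d6b) (nat_lit 0x0)
  (PL.C (nat_lit 0x351d76d) (nat_lit 0x7a59b11cd47418) (nat_lit 0x0)
  (PL.C (nat_lit 0x3527a7c) (nat_lit 0x0) (nat_lit 0x323c65554770326)
  (PL.C (nat_lit 0x352a90b) (nat_lit 0x4744dbd7c077ca4) (nat_lit 0x0)
  (PL.C (nat_lit 0x3537eeb) (nat_lit 0x101bbadfbdbc02) (nat_lit 0x0)
  (PL.C (nat_lit 0x3552915) (nat_lit 0x0) (nat_lit 0x8bdb6634239c28)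
  (PL.C (nat_lit 0x35621b7) (nat_lit 0x0) (nat_lit 0x2b305bca539712)
  (PL.C (nat_lit 0x3572202) (nat_lit 0x45bf5923544172) (nat_lit 0x0)
  (PL.C (nat_lit 0x357db42) (nat_lit 0x848c7c3600b71c) (nat_lit 0x0)
  (PL.C (nat_lit 0x358cdfe) (nat_lit 0x100b670d34296e) (nat_lit 0x0)
  (PL.C (nat_lit 0x35a6e9a) (nat_lit 0x0) (nat_lit 0xf891f94db7ba7c)
  (PL.C (nat_lit 0x35ca08c) (nat_lit 0x1078789e5d8b354) (nat_lit 0x0)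
  (PL.C (nat_lit 0x35f5d95) (nat_lit 0x0) (nat_lit 0x993ab253c5806d0)
  (PL.C (nat_lit 0x360d676) (nat_lit 0x6d9f44e86f6460) (nat_lit 0x0)
  (PL.C (nat_lit 0x3611be6) (nat_lit 0x2c7f2e4743e1100) (nat_lit 0x0)
  (PL.C (nat_lit 0x36239b6) (nat_lit 0x0) (nat_lit 0x39b5a4eb9f4705)
  (PL.C (nat_lit 0x365ceb9) (nat_lit 0x25707fe213c8c32) (nat_lit 0x0)
  (PL.C (nat_lit 0x365ee64) (nat_lit 0x6e7eb96525bdee) (nat_lit 0x0)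
  (PL.C (nat_lit 0x36985d6) (nat_lit 0x0) (nat_lit 0x3f21b78b114cfa)
  (PL.C (nat_lit 0x36a1b22) (nat_lit 0x63f09244325c90) (nat_lit 0x0) gp0_1_98))))))))))))))))))))

noncomputable def gp0_1_96 : PL :=
  (PL.C (nat_lit 0x33dde9c) (nat_lit 0x0) (nat_lit 0x421e9c63aedbd6)
  (PL.C (nat_lit 0x33e9c44) (nat_lit 0x0) (nat_lit 0x25d6ecbb5650ca)
  (PL.C (nat_lit 0x33fdf92) (nat_lit 0x0) (nat_lit 0x137ba23fa8b143)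
  (PL.C (nat_lit 0x340193d) (nat_lit 0x0) (nat_lit 0x6ab9e191087f29)
  (PL.C (nat_lit 0x34140fd) (nat_lit 0x71034e03736c1f) (nat_lit 0x0)
  (PL.C (nat_lit 0x341ff6b) (nat_lit 0x0) (nat_lit 0x8681d676eeb8fb)
  (PL.C (nat_lit 0x342338c) (nat_lit 0x59de23c5406270) (nat_lit 0x0)
  (PL.C (nat_lit 0x3425849) (nat_lit 0x16d6a12c6a6580d) (nat_lit 0x0)
  (PL.C (nat_lit 0x3442665) (nat_lit 0x7bb36c127b975) (nat_lit 0x0)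
  (PL.C (nat_lit 0x3455bca) (nat_lit 0x0) (nat_lit 0x78d3dc1e9f7b72e)
  (PL.C (nat_lit 0x3464ecb) (nat_lit 0x1c1142c8d8dbb8) (nat_lit 0x0)
  (PL.C (nat_lit 0x348ddd6) (nat_lit 0x0) (nat_lit 0x8d4ea1e411f17b)
  (PL.C (nat_lit 0x348e9a7) (nat_lit 0xde4a8f83f91cd37) (nat_lit 0x0)
  (PL.C (nat_lit 0x34a00b2) (nat_lit 0x1c4de5acb63885f) (nat_lit 0x0)
  (PL.C (nat_lit 0x34ccd8a) (nat_lit 0x304467e515d893) (nat_lit 0x0)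
  (PL.C (nat_lit 0x34d307f) (nat_lit 0xc17f7f9c90d949) (nat_lit 0x0)
  (PL.C (nat_lit 0x34dcca6) (nat_lit 0x11dc0af36f8ad84) (nat_lit 0x0)
  (PL.C (nat_lit 0x34ed781) (nat_lit 0x0) (nat_lit 0x20b2e70c2fd33a)
  (PL.C (nat_lit 0x34f10a2) (nat_lit 0x0) (nat_lit 0xa7135f227df670)
  (PL.C (nat_lit 0x350baf1) (nat_lit 0x0) (nat_lit 0x143d9cf3895c06) gp0_1_97))))))))))))))))))))

noncomputable def gp0_1_95 : PL :=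
  (PL.C (nat_lit 0x32943cf) (nat_lit 0x0) (nat_lit 0x2e5978194595fe)
  (PL.C (nat_lit 0x329fe6e) (nat_lit 0x0) (nat_lit 0x10e2539fe001b9)
  (PL.C (nat_lit 0x32ef52e) (nat_lit 0x36a151f52db5cd0) (nat_lit 0x0)
  (PL.C (nat_lit 0x32f0d7c) (nat_lit 0x29c369ec6c3a8) (nat_lit 0x0)
  (PL.C (nat_lit 0x33009c2) (nat_lit 0x948ac19529a8d) (nat_lit 0x0)
  (PL.C (nat_lit 0x330c79b) (nat_lit 0x3b57cbff9eb8169) (nat_lit 0x0)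
  (PL.C (nat_lit 0x332ba54) (nat_lit 0x0) (nat_lit 0x12e8eb7301ae1a)
  (PL.C (nat_lit 0x332e335) (nat_lit 0x0) (nat_lit 0xb86ef8821a66b8)
  (PL.C (nat_lit 0x333bade) (nat_lit 0x11dc0af4a317068) (nat_lit 0x0)
  (PL.C (nat_lit 0x3343395) (nat_lit 0x0) (nat_lit 0x233374eef7342e)
  (PL.C (nat_lit 0x334ba3b) (nat_lit 0x0) (nat_lit 0x143d9d00aadcfc)
  (PL.C (nat_lit 0x334fe74) (nat_lit 0x0) (nat_lit 0x11eb36ccc67c3e)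
  (PL.C (nat_lit 0x3354681) (nat_lit 0x0) (nat_lit 0x5d9a5639fcd5b3)
  (PL.C (nat_lit 0x3355522) (nat_lit 0x0) (nat_lit 0x4c72e7e0072d00)
  (PL.C (nat_lit 0x33611a4) (nat_lit 0x366459ca7e168b) (nat_lit 0x0)
  (PL.C (nat_lit 0x3372a02) (nat_lit 0x1d5abaf4cd1d68) (nat_lit 0x0)
  (PL.C (nat_lit 0x33773be) (nat_lit 0x0) (nat_lit 0x2bdfe74914cf7)
  (PL.C (nat_lit 0x338c5fe) (nat_lit 0x0) (nat_lit 0x2d8aab53667db2)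
  (PL.C (nat_lit 0x338ff2b) (nat_lit 0x0) (nat_lit 0x2bfbf063668d51)
  (PL.C (nat_lit 0x33d93c2) (nat_lit 0x0) (nat_lit 0x262d3259e781d5f) gp0_1_96))))))))))))))))))))

noncomputable def gp0_1_94 : PL :=
  (PL.C (nat_lit 0x310acc2) (nat_lit 0x60cd4df26a0f64) (nat_lit 0x0)
  (PL.C (nat_lit 0x3132164) (nat_lit 0x0) (nat_lit 0x23d66da8f7d2c9)
  (PL.C (nat_lit 0x313dd61) (nat_lit 0x29f09ad21505d34) (nat_lit 0x0)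
  (PL.C (nat_lit 0x3171cc9) (nat_lit 0x0) (nat_lit 0xf108098c2a715)
  (PL.C (nat_lit 0x3192866) (nat_lit 0x0) (nat_lit 0x2cf25ad858de600)
  (PL.C (nat_lit 0x31d223e) (nat_lit 0x0) (nat_lit 0x36b468e0f81807)
  (PL.C (nat_lit 0x31dec2f) (nat_lit 0x1861d3c4c822dd) (nat_lit 0x0)
  (PL.C (nat_lit 0x31e093c) (nat_lit 0x0) (nat_lit 0x9515d48904e40c)
  (PL.C (nat_lit 0x31fe052) (nat_lit 0x5c5056945bf6a1) (nat_lit 0x0)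
  (PL.C (nat_lit 0x31feacb) (nat_lit 0x0) (nat_lit 0xa1e103a79687a)
  (PL.C (nat_lit 0x3209349) (nat_lit 0x0) (nat_lit 0x30d3955de75bcc)
  (PL.C (nat_lit 0x321f98c) (nat_lit 0x0) (nat_lit 0x2525bc50882e1c)
  (PL.C (nat_lit 0x3227d34) (nat_lit 0x0) (nat_lit 0x5504d7c52a79e1)
  (PL.C (nat_lit 0x323065c) (nat_lit 0x0) (nat_lit 0x6c07597feb6877)
  (PL.C (nat_lit 0x32372f1) (nat_lit 0xbd878d68a607e) (nat_lit 0x0)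
  (PL.C (nat_lit 0x3246042) (nat_lit 0x848c7c23a319c1) (nat_lit 0x0)
  (PL.C (nat_lit 0x324e7e4) (nat_lit 0x64ab3b95932473) (nat_lit 0x0)
  (PL.C (nat_lit 0x325050f) (nat_lit 0x0) (nat_lit 0x22ab09e791dce3)
  (PL.C (nat_lit 0x3263dda) (nat_lit 0xd774a8083d6080) (nat_lit 0x0)
  (PL.C (nat_lit 0x3268c7d) (nat_lit 0x0) (nat_lit 0x696cbac6997241) gp0_1_95))))))))))))))))))))

noncomputable def gp0_1_93 : PL :=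
  (PL.C (nat_lit 0x30027c6) (nat_lit 0x1c4de5ae3095313) (nat_lit 0x0)
  (PL.C (nat_lit 0x3013e8a) (nat_lit 0x0) (nat_lit 0x4d6f056837980c)
  (PL.C (nat_lit 0x3016e1f) (nat_lit 0x0) (nat_lit 0x445de8bed11f23)
  (PL.C (nat_lit 0x301a83a) (nat_lit 0x0) (nat_lit 0x84146d161885e)
  (PL.C (nat_lit 0x3024781) (nat_lit 0x0) (nat_lit 0x10c7d67ca87b40d)
  (PL.C (nat_lit 0x30289e3) (nat_lit 0x225cb368b419fb) (nat_lit 0x0)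
  (PL.C (nat_lit 0x3035f9a) (nat_lit 0x5d80488c5ef79) (nat_lit 0x0)
  (PL.C (nat_lit 0x3036a71) (nat_lit 0x0) (nat_lit 0x1ccba055333e6d8)
  (PL.C (nat_lit 0x30487e2) (nat_lit 0x6d42a3e7c95da45) (nat_lit 0x0)
  (PL.C (nat_lit 0x304a751) (nat_lit 0x8c42582736d993) (nat_lit 0x0)
  (PL.C (nat_lit 0x305883c) (nat_lit 0x0) (nat_lit 0xdbdd4f442126a0)
  (PL.C (nat_lit 0x305aa4d) (nat_lit 0x0) (nat_lit 0x1b935acb7075d08)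
  (PL.C (nat_lit 0x30875b2) (nat_lit 0x0) (nat_lit 0x27253ec27cc7f9d)
  (PL.C (nat_lit 0x309fa4e) (nat_lit 0x0) (nat_lit 0x37a34648041e3e5)
  (PL.C (nat_lit 0x30bb66e) (nat_lit 0x0) (nat_lit 0xe41e9aac98eda)
  (PL.C (nat_lit 0x30bc163) (nat_lit 0x71df0e56904df48) (nat_lit 0x0)
  (PL.C (nat_lit 0x30c30e4) (nat_lit 0x610cb74cc5df07) (nat_lit 0x0)
  (PL.C (nat_lit 0x30d7c5a) (nat_lit 0x0) (nat_lit 0x520e3355c262b8b)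
  (PL.C (nat_lit 0x30ec466) (nat_lit 0xccc40202997b1) (nat_lit 0x0)
  (PL.C (nat_lit 0x30fb89b) (nat_lit 0x34ab7d3e41f3a7) (nat_lit 0x0) gp0_1_94))))))))))))))))))))

noncomputable def gp0_1_92 : PL :=
  (PL.C (nat_lit 0x2e4eb4b) (nat_lit 0x0) (nat_lit 0x320221f37b02e9)
  (PL.C (nat_lit 0x2eba8e1) (nat_lit 0x0) (nat_lit 0x2de4fc214c5e44)
  (PL.C (nat_lit 0x2ebbab1) (nat_lit 0x0) (nat_lit 0x8b01e60c0e4c92)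
  (PL.C (nat_lit 0x2ebcb68) (nat_lit 0x0) (nat_lit 0xa858ac0d88ef1)
  (PL.C (nat_lit 0x2ee5c3a) (nat_lit 0x7b9301dbf78443) (nat_lit 0x0)
  (PL.C (nat_lit 0x2efd3c6) (nat_lit 0xa257219deefd52) (nat_lit 0x0)
  (PL.C (nat_lit 0x2f18b8f) (nat_lit 0x0) (nat_lit 0xeba4335f12a1a4)
  (PL.C (nat_lit 0x2f23b58) (nat_lit 0x774c34bb9a096) (nat_lit 0x0)
  (PL.C (nat_lit 0x2f3b026) (nat_lit 0x0) (nat_lit 0xb7eda157acc669)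
  (PL.C (nat_lit 0x2f560a7) (nat_lit 0x0) (nat_lit 0x1ac1a3fc8e1967)
  (PL.C (nat_lit 0x2f5beda) (nat_lit 0x1086546365d3ae9) (nat_lit 0x0)
  (PL.C (nat_lit 0x2f61bfc) (nat_lit 0x0) (nat_lit 0x29990b3903d507)
  (PL.C (nat_lit 0x2f909c7) (nat_lit 0x14d9c6cbb06f84) (nat_lit 0x0)
  (PL.C (nat_lit 0x2f9996a) (nat_lit 0x5171e1214e1a93) (nat_lit 0x0)
  (PL.C (nat_lit 0x2fb1696) (nat_lit 0x68a5e3e78c78e9) (nat_lit 0x0)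
  (PL.C (nat_lit 0x2fb99dd) (nat_lit 0x0) (nat_lit 0x147d59e1065629)
  (PL.C (nat_lit 0x2fcca36) (nat_lit 0x1bcb6f39fcdb7d) (nat_lit 0x0)
  (PL.C (nat_lit 0x2fd088e) (nat_lit 0x2848e46ed27decf) (nat_lit 0x0)
  (PL.C (nat_lit 0x2fe7f3e) (nat_lit 0x185791fd0a7ed7c) (nat_lit 0x0)
  (PL.C (nat_lit 0x2fe8772) (nat_lit 0x0) (nat_lit 0xf7e83700c7a36) gp0_1_93))))))))))))))))))))

noncomputable def gp0_1_91 : PL :=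
  (PL.C (nat_lit 0x2cc4442) (nat_lit 0x0) (nat_lit 0x20871c2b1d6a6)
  (PL.C (nat_lit 0x2d165c6) (nat_lit 0x18b8b4760d6c2b4) (nat_lit 0x0)
  (PL.C (nat_lit 0x2d1dd8a) (nat_lit 0x0) (nat_lit 0x116146543651cf)
  (PL.C (nat_lit 0x2d2d9a6) (nat_lit 0x0) (nat_lit 0x103a2489b60512d)
  (PL.C (nat_lit 0x2d4a682) (nat_lit 0x0) (nat_lit 0x14c33738a88b337)
  (PL.C (nat_lit 0x2d5d6e1) (nat_lit 0xd439dcc1bd73ec) (nat_lit 0x0)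
  (PL.C (nat_lit 0x2d79b8a) (nat_lit 0x18b8b4768e9e4f8) (nat_lit 0x0)
  (PL.C (nat_lit 0x2d8d0a9) (nat_lit 0x5342f3e52bfd47c) (nat_lit 0x0)
  (PL.C (nat_lit 0x2d9e274) (nat_lit 0x1058feb68e1ab7) (nat_lit 0x0)
  (PL.C (nat_lit 0x2da0ece) (nat_lit 0x0) (nat_lit 0x641adfdf43e795)
  (PL.C (nat_lit 0x2da90c5) (nat_lit 0x0) (nat_lit 0x103521c32c42f32)
  (PL.C (nat_lit 0x2dbfcd3) (nat_lit 0x0) (nat_lit 0x5a3c7caca30726)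
  (PL.C (nat_lit 0x2dd2cfc) (nat_lit 0xc7109140c8080) (nat_lit 0x0)
  (PL.C (nat_lit 0x2dd6b2d) (nat_lit 0x0) (nat_lit 0x100a8e46a979e6f)
  (PL.C (nat_lit 0x2df0ddd) (nat_lit 0x0) (nat_lit 0x18442f432af1b5)
  (PL.C (nat_lit 0x2df793e) (nat_lit 0x0) (nat_lit 0x9f101c17edca18)
  (PL.C (nat_lit 0x2e02aec) (nat_lit 0x3a11f88f94d067) (nat_lit 0x0)
  (PL.C (nat_lit 0x2e163ae) (nat_lit 0x0) (nat_lit 0x26c6b64c268c791)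
  (PL.C (nat_lit 0x2e1f34a) (nat_lit 0x0) (nat_lit 0x400d7f4559e1efe)
  (PL.C (nat_lit 0x2e48c04) (nat_lit 0x0) (nat_lit 0x1dc4d4053cd18ad) gp0_1_92))))))))))))))))))))

noncomputable def gp0_1_90 : PL :=
  (PL.C (nat_lit 0x2bc8a0c) (nat_lit 0x0) (nat_lit 0x2a826be7269a19)
  (PL.C (nat_lit 0x2bd74dc) (nat_lit 0x4445bb4c1cafa6) (nat_lit 0x0)
  (PL.C (nat_lit 0x2bea302) (nat_lit 0x0) (nat_lit 0xb76b7b26082c2b)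
  (PL.C (nat_lit 0x2bf2672) (nat_lit 0x0) (nat_lit 0x5cd5488ddbfd1e)
  (PL.C (nat_lit 0x2c0512d) (nat_lit 0x0) (nat_lit 0x5ace04e735b0c2)
  (PL.C (nat_lit 0x2c189a3) (nat_lit 0x15d6a36299f9345) (nat_lit 0x0)
  (PL.C (nat_lit 0x2c1ce16) (nat_lit 0x0) (nat_lit 0x22fb666839b5516)
  (PL.C (nat_lit 0x2c20239) (nat_lit 0xf85a29dcf93d43) (nat_lit 0x0)
  (PL.C (nat_lit 0x2c235d2) (nat_lit 0x5d1a917f89d0db) (nat_lit 0x0)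
  (PL.C (nat_lit 0x2c2dc72) (nat_lit 0x0) (nat_lit 0x410872a413757eb)
  (PL.C (nat_lit 0x2c4af6e) (nat_lit 0x0) (nat_lit 0x27a328ad38a7291)
  (PL.C (nat_lit 0x2c56506) (nat_lit 0x0) (nat_lit 0x3efeb4e18a11c1)
  (PL.C (nat_lit 0x2c5dc83) (nat_lit 0x12cd3209fec0fd8d) (nat_lit 0x0)
  (PL.C (nat_lit 0x2c6c076) (nat_lit 0x1a534d86c3681f7) (nat_lit 0x0)
  (PL.C (nat_lit 0x2c7f29d) (nat_lit 0x13493288343ba34) (nat_lit 0x0)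
  (PL.C (nat_lit 0x2c84a1e) (nat_lit 0x7ccd188af7d947) (nat_lit 0x0)
  (PL.C (nat_lit 0x2c92532) (nat_lit 0x22c0615fc4046f9) (nat_lit 0x0)
  (PL.C (nat_lit 0x2c978bb) (nat_lit 0x0) (nat_lit 0xb75ad998a4e84f)
  (PL.C (nat_lit 0x2cb1e82) (nat_lit 0x100b670b22583c) (nat_lit 0x0)
  (PL.C (nat_lit 0x2cb5015) (nat_lit 0x1582708eefaf09c) (nat_lit 0x0) gp0_1_91))))))))))))))))))))

noncomputable def gp0_1_89 : PL :=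
  (PL.C (nat_lit 0x2b17d47) (nat_lit 0x30b688a407d194) (nat_lit 0x0)
  (PL.C (nat_lit 0x2b2af29) (nat_lit 0x0) (nat_lit 0xf058ca55051d1)
  (PL.C (nat_lit 0x2b344c9) (nat_lit 0x0) (nat_lit 0x21bed6d98f2a77)
  (PL.C (nat_lit 0x2b3efc4) (nat_lit 0x1726102674bb3e) (nat_lit 0x0)
  (PL.C (nat_lit 0x2b3fad6) (nat_lit 0x0) (nat_lit 0x68fd5643182485)
  (PL.C (nat_lit 0x2b408d7) (nat_lit 0x1a36a180fcbe84) (nat_lit 0x0)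
  (PL.C (nat_lit 0x2b44492) (nat_lit 0x2fc281c498b4fc8) (nat_lit 0x0)
  (PL.C (nat_lit 0x2b4d267) (nat_lit 0x1b5bd734217508) (nat_lit 0x0)
  (PL.C (nat_lit 0x2b5552a) (nat_lit 0x0) (nat_lit 0x29e62733319e6d)
  (PL.C (nat_lit 0x2b55955) (nat_lit 0x27e2acd3fa9a69) (nat_lit 0x0)
  (PL.C (nat_lit 0x2b6e336) (nat_lit 0x0) (nat_lit 0x65fb9ac74d4ee7)
  (PL.C (nat_lit 0x2b71f36) (nat_lit 0x2d24467d1075d21) (nat_lit 0x0)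
  (PL.C (nat_lit 0x2b7c9e2) (nat_lit 0x0) (nat_lit 0x4d6f056f7a489b)
  (PL.C (nat_lit 0x2b8206c) (nat_lit 0x1f5fcf864b0ca03) (nat_lit 0x0)
  (PL.C (nat_lit 0x2b84f7e) (nat_lit 0x0) (nat_lit 0x42ea7a920faa9c)
  (PL.C (nat_lit 0x2b8f597) (nat_lit 0x0) (nat_lit 0x25ab1a33d69333)
  (PL.C (nat_lit 0x2b9261e) (nat_lit 0xa09fe40187c40) (nat_lit 0x0)
  (PL.C (nat_lit 0x2ba5269) (nat_lit 0x34da1cbce2d971) (nat_lit 0x0)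
  (PL.C (nat_lit 0x2ba8d7e) (nat_lit 0x4aa5688d974a5e) (nat_lit 0x0)
  (PL.C (nat_lit 0x2babdeb) (nat_lit 0x0) (nat_lit 0x1a28081a3327cb5) gp0_1_90))))))))))))))))))))

noncomputable def gp0_1_88 : PL :=
  (PL.C (nat_lit 0x29b7ba2) (nat_lit 0x0) (nat_lit 0x5154cb2b3df53ea)
  (PL.C (nat_lit 0x29bf6f4) (nat_lit 0x0) (nat_lit 0x6155e0cce91ea8)
  (PL.C (nat_lit 0x29d2abd) (nat_lit 0x0) (nat_lit 0x90aead1dfe31f)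
  (PL.C (nat_lit 0x29d8c7e) (nat_lit 0x0) (nat_lit 0x6a7ea81c9aee64)
  (PL.C (nat_lit 0x29e0b09) (nat_lit 0x0) (nat_lit 0x1ac1a40cfb11a6)
  (PL.C (nat_lit 0x29e477e) (nat_lit 0x0) (nat_lit 0x612d79c843fee8)
  (PL.C (nat_lit 0x29eb0c4) (nat_lit 0x0) (nat_lit 0x2e61801356936)
  (PL.C (nat_lit 0x29fc444) (nat_lit 0x4095fdf6a8c5b2) (nat_lit 0x0)
  (PL.C (nat_lit 0x2a0e7b6) (nat_lit 0x0) (nat_lit 0x428c87bd3c4a2c)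
  (PL.C (nat_lit 0x2a34137) (nat_lit 0x0) (nat_lit 0xa1e1041a54637)
  (PL.C (nat_lit 0x2a3e83c) (nat_lit 0x0) (nat_lit 0x14f61173264fa62)
  (PL.C (nat_lit 0x2a56d04) (nat_lit 0x0) (nat_lit 0x421e9c7d50446a)
  (PL.C (nat_lit 0x2a5e0cc) (nat_lit 0x0) (nat_lit 0x6c07598be61bc7)
  (PL.C (nat_lit 0x2a63c75) (nat_lit 0x0) (nat_lit 0x18442f3061d9e5)
  (PL.C (nat_lit 0x2a704ca) (nat_lit 0x0) (nat_lit 0x166c358547bf83d)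
  (PL.C (nat_lit 0x2a81441) (nat_lit 0x0) (nat_lit 0x4be9827341cd57)
  (PL.C (nat_lit 0x2aacdbc) (nat_lit 0x0) (nat_lit 0x56fd5826da1684)
  (PL.C (nat_lit 0x2ab254b) (nat_lit 0x94b9f484cf248b) (nat_lit 0x0)
  (PL.C (nat_lit 0x2ac2af9) (nat_lit 0x66796ef45d0d0d) (nat_lit 0x0)
  (PL.C (nat_lit 0x2adeef7) (nat_lit 0x0) (nat_lit 0xcbccbc1ebd98e3) gp0_1_89))))))))))))))))))))

noncomputable def gp0_1_87 : PL :=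
  (PL.C (nat_lit 0x28c22ea) (nat_lit 0x0) (nat_lit 0x39a48b35527c04c)
  (PL.C (nat_lit 0x28d1beb) (nat_lit 0x0) (nat_lit 0x9a11df56afafac)
  (PL.C (nat_lit 0x28e39cf) (nat_lit 0x0) (nat_lit 0x2f95b8b073988f)
  (PL.C (nat_lit 0x28f273c) (nat_lit 0x0) (nat_lit 0x8fb153bf27a5cc)
  (PL.C (nat_lit 0x28f73fa) (nat_lit 0x0) (nat_lit 0xf891f8f9f35ad3)
  (PL.C (nat_lit 0x290bc06) (nat_lit 0x0) (nat_lit 0x2e4bb94f99953a)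
  (PL.C (nat_lit 0x2923c2f) (nat_lit 0x0) (nat_lit 0x135e68c6383ad798)
  (PL.C (nat_lit 0x2930f8e) (nat_lit 0x0) (nat_lit 0xc51d35e8f93ad8)
  (PL.C (nat_lit 0x2942b71) (nat_lit 0x0) (nat_lit 0x6ab9e19cd667f5)
  (PL.C (nat_lit 0x2943fc4) (nat_lit 0x653f5e58ff3df66) (nat_lit 0x0)
  (PL.C (nat_lit 0x2945816) (nat_lit 0x0) (nat_lit 0x504c49dfe9de67)
  (PL.C (nat_lit 0x29547ba) (nat_lit 0x129b5a627ef645) (nat_lit 0x0)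
  (PL.C (nat_lit 0x2956756) (nat_lit 0x2bad66d4bc295a) (nat_lit 0x0)
  (PL.C (nat_lit 0x2971c4a) (nat_lit 0x0) (nat_lit 0x1363c84ca41d24)
  (PL.C (nat_lit 0x2972a0c) (nat_lit 0x0) (nat_lit 0x1c348ea5e8255d)
  (PL.C (nat_lit 0x29875f4) (nat_lit 0xf8d879674ed3d) (nat_lit 0x0)
  (PL.C (nat_lit 0x298f75c) (nat_lit 0x42cc1720c12b71) (nat_lit 0x0)
  (PL.C (nat_lit 0x29914a5) (nat_lit 0x0) (nat_lit 0x2203d0ac2c09646)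
  (PL.C (nat_lit 0x299da47) (nat_lit 0x0) (nat_lit 0x2bfbf063668d51)
  (PL.C (nat_lit 0x299faa2) (nat_lit 0x594e05b58ace5d) (nat_lit 0x0) gp0_1_88))))))))))))))))))))

noncomputable def gp0_1_86 : PL :=
  (PL.C (nat_lit 0x27b0e3e) (nat_lit 0x4e3cf4a1dc890) (nat_lit 0x0)
  (PL.C (nat_lit 0x27c1c0b) (nat_lit 0x0) (nat_lit 0x1f740ed557edc30)
  (PL.C (nat_lit 0x27cee33) (nat_lit 0x0) (nat_lit 0x247a396d58bfd0)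
  (PL.C (nat_lit 0x27d85d8) (nat_lit 0x0) (nat_lit 0x3ca277c0a87971)
  (PL.C (nat_lit 0x27e683e) (nat_lit 0x0) (nat_lit 0x22fb66686873efd)
  (PL.C (nat_lit 0x27e9874) (nat_lit 0x0) (nat_lit 0x9515d4929fcab7)
  (PL.C (nat_lit 0x27fa7c2) (nat_lit 0x0) (nat_lit 0x5618572e703a81)
  (PL.C (nat_lit 0x281a76e) (nat_lit 0x238ca4172dead0) (nat_lit 0x0)
  (PL.C (nat_lit 0x282c8e9) (nat_lit 0x0) (nat_lit 0x1da674e3bb677e3)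
  (PL.C (nat_lit 0x282e892) (nat_lit 0x0) (nat_lit 0xfeba1937a04c8)
  (PL.C (nat_lit 0x284914e) (nat_lit 0x0) (nat_lit 0xe73ba3dec4ccfb)
  (PL.C (nat_lit 0x2850bea) (nat_lit 0x0) (nat_lit 0x63e4209c5a4cb4)
  (PL.C (nat_lit 0x286e184) (nat_lit 0x0) (nat_lit 0x7565636c00d1b8)
  (PL.C (nat_lit 0x287795a) (nat_lit 0x0) (nat_lit 0x6c2a625cb389b6)
  (PL.C (nat_lit 0x28788ed) (nat_lit 0x0) (nat_lit 0xb6e52e15eca86)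
  (PL.C (nat_lit 0x287bfb6) (nat_lit 0xccc4029cbbaae) (nat_lit 0x0)
  (PL.C (nat_lit 0x288715e) (nat_lit 0x3579464728c7b1) (nat_lit 0x0)
  (PL.C (nat_lit 0x28984db) (nat_lit 0x0) (nat_lit 0x3119f272520b212)
  (PL.C (nat_lit 0x28a1dc2) (nat_lit 0x0) (nat_lit 0x4b04929cac1a68)
  (PL.C (nat_lit 0x28b31f5) (nat_lit 0x0) (nat_lit 0x1981e2e92fb48e) gp0_1_87))))))))))))))))))))

noncomputable def gp0_1_85 : PL :=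
  (PL.C (nat_lit 0x26c4fec) (nat_lit 0x4dcdae824bc517f) (nat_lit 0x0)
  (PL.C (nat_lit 0x26c8011) (nat_lit 0xbd878d0151bd5) (nat_lit 0x0)
  (PL.C (nat_lit 0x26cdab6) (nat_lit 0x0) (nat_lit 0x9f101c333e27da)
  (PL.C (nat_lit 0x26d500d) (nat_lit 0x0) (nat_lit 0xe36cefde395bf)
  (PL.C (nat_lit 0x26ef1f2) (nat_lit 0x0) (nat_lit 0x67a39851f9a51b4)
  (PL.C (nat_lit 0x26ff799) (nat_lit 0x27258eb601d5ef5) (nat_lit 0x0)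
  (PL.C (nat_lit 0x2712314) (nat_lit 0x0) (nat_lit 0x8fb153c31b0ce6)
  (PL.C (nat_lit 0x2717cba) (nat_lit 0xca928ead45b91) (nat_lit 0x0)
  (PL.C (nat_lit 0x271ba41) (nat_lit 0x3a97f9c4063e3) (nat_lit 0x0)
  (PL.C (nat_lit 0x27371d4) (nat_lit 0x0) (nat_lit 0x1616ebcf9f81ab)
  (PL.C (nat_lit 0x27397da) (nat_lit 0x238ca4269f8927) (nat_lit 0x0)
  (PL.C (nat_lit 0x2742894) (nat_lit 0x3a9801fa5dc2c5) (nat_lit 0x0)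
  (PL.C (nat_lit 0x275a2b2) (nat_lit 0x4e3cf490d0dda) (nat_lit 0x0)
  (PL.C (nat_lit 0x276461c) (nat_lit 0x0) (nat_lit 0x238f3443dfc688)
  (PL.C (nat_lit 0x2773335) (nat_lit 0xc17f7ffcede37e) (nat_lit 0x0)
  (PL.C (nat_lit 0x27814e8) (nat_lit 0x0) (nat_lit 0x3ca277bafd243a)
  (PL.C (nat_lit 0x2783c2b) (nat_lit 0x939c9e1150582) (nat_lit 0x0)
  (PL.C (nat_lit 0x2783fce) (nat_lit 0x6e2adb7a981f07) (nat_lit 0x0)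
  (PL.C (nat_lit 0x278d88c) (nat_lit 0x0) (nat_lit 0x185129176996b4)
  (PL.C (nat_lit 0x279252c) (nat_lit 0x64ab3ba0afab45) (nat_lit 0x0) gp0_1_86))))))))))))))))))))

noncomputable def gp0_1_84 : PL :=
  (PL.C (nat_lit 0x25cb552) (nat_lit 0x0) (nat_lit 0x828534f97bff6e3)
  (PL.C (nat_lit 0x25d4489) (nat_lit 0x3ebe0786d02b6) (nat_lit 0x0)
  (PL.C (nat_lit 0x25d9c37) (nat_lit 0xa55a75d84878f1) (nat_lit 0x0)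
  (PL.C (nat_lit 0x25e7377) (nat_lit 0x0) (nat_lit 0x41cf418f234b3e)
  (PL.C (nat_lit 0x25e83cb) (nat_lit 0x0) (nat_lit 0x134ff9954d61ff9)
  (PL.C (nat_lit 0x25eb61c) (nat_lit 0x0) (nat_lit 0x1c348e96e725a0)
  (PL.C (nat_lit 0x25fc8a2) (nat_lit 0x0) (nat_lit 0x8d7ffa62c27785)
  (PL.C (nat_lit 0x261387e) (nat_lit 0x2d90d69b55c29b6) (nat_lit 0x0)
  (PL.C (nat_lit 0x26232be) (nat_lit 0x0) (nat_lit 0x3f21b7400e889d)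
  (PL.C (nat_lit 0x2625d0b) (nat_lit 0x2502dc6c53d0ce6) (nat_lit 0x0)
  (PL.C (nat_lit 0x262be32) (nat_lit 0x0) (nat_lit 0xb43b6b6f75a710)
  (PL.C (nat_lit 0x262d2d1) (nat_lit 0x0) (nat_lit 0x1a1bd4e740c74f)
  (PL.C (nat_lit 0x262ff46) (nat_lit 0x0) (nat_lit 0x2eb98c03dfbbe84)
  (PL.C (nat_lit 0x2640675) (nat_lit 0x0) (nat_lit 0x346fe0a2230d21)
  (PL.C (nat_lit 0x26451ae) (nat_lit 0x0) (nat_lit 0x4034d687ddc9d1)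
  (PL.C (nat_lit 0x269e95f) (nat_lit 0x0) (nat_lit 0x97b399f3abc719)
  (PL.C (nat_lit 0x26a2f74) (nat_lit 0x0) (nat_lit 0x2b89ffc02596f4)
  (PL.C (nat_lit 0x26a48c3) (nat_lit 0x0) (nat_lit 0x30573c5d0b46c9)
  (PL.C (nat_lit 0x26b1ea1) (nat_lit 0x0) (nat_lit 0x218ca0f16d6db50)
  (PL.C (nat_lit 0x26c2616) (nat_lit 0x0) (nat_lit 0x4bd19c5dc689b2) gp0_1_85))))))))))))))))))))

noncomputable def gp0_1_83 : PL :=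
  (PL.C (nat_lit 0x24da97f) (nat_lit 0x0) (nat_lit 0x415923802bdae3)
  (PL.C (nat_lit 0x24daff6) (nat_lit 0x24a716e960c6ab) (nat_lit 0x0)
  (PL.C (nat_lit 0x24dd8d7) (nat_lit 0x0) (nat_lit 0x20f6711434f475a)
  (PL.C (nat_lit 0x24e6abc) (nat_lit 0x0) (nat_lit 0x1abf49c80e44b3)
  (PL.C (nat_lit 0x24e759e) (nat_lit 0x63f09251066711) (nat_lit 0x0)
  (PL.C (nat_lit 0x2502e2e) (nat_lit 0x0) (nat_lit 0x2f2b44e4e75e8)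
  (PL.C (nat_lit 0x251228a) (nat_lit 0x0) (nat_lit 0x2655d1e3e573483)
  (PL.C (nat_lit 0x2531b82) (nat_lit 0x0) (nat_lit 0x218b9c09a363f5d)
  (PL.C (nat_lit 0x253956f) (nat_lit 0x0) (nat_lit 0xed1430f54091d)
  (PL.C (nat_lit 0x254096d) (nat_lit 0xfec8855596f13a) (nat_lit 0x0)
  (PL.C (nat_lit 0x2555c06) (nat_lit 0x0) (nat_lit 0xb43b6b6f75a710)
  (PL.C (nat_lit 0x2562252) (nat_lit 0x0) (nat_lit 0x108d085bc37f811)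
  (PL.C (nat_lit 0x2563da6) (nat_lit 0x0) (nat_lit 0xb76b7afe6978f8)
  (PL.C (nat_lit 0x2573bcf) (nat_lit 0x0) (nat_lit 0x117ee796dac03e22)
  (PL.C (nat_lit 0x2574dae) (nat_lit 0x0) (nat_lit 0xdffada100706bf)
  (PL.C (nat_lit 0x2587101) (nat_lit 0x0) (nat_lit 0x1a1bd4e740c74f)
  (PL.C (nat_lit 0x25a017a) (nat_lit 0x0) (nat_lit 0x63e420915bc186)
  (PL.C (nat_lit 0x25bac0a) (nat_lit 0x1240dc4b95a660) (nat_lit 0x0)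
  (PL.C (nat_lit 0x25c2e24) (nat_lit 0xb3b1081091163c) (nat_lit 0x0)
  (PL.C (nat_lit 0x25c7662) (nat_lit 0x0) (nat_lit 0xdffada0062d737) gp0_1_84))))))))))))))))))))

noncomputable def gp0_1_82 : PL :=
  (PL.C (nat_lit 0x237a9f2) (nat_lit 0x0) (nat_lit 0x3efeb4ef0e9f34)
  (PL.C (nat_lit 0x238c60e) (nat_lit 0x0) (nat_lit 0x1ccfa9f67192a)
  (PL.C (nat_lit 0x23a12c3) (nat_lit 0x0) (nat_lit 0x291d6ff74158ca5)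
  (PL.C (nat_lit 0x23a16ac) (nat_lit 0x16e270b0be24b0) (nat_lit 0x0)
  (PL.C (nat_lit 0x23a922c) (nat_lit 0x479cdaab037ef5) (nat_lit 0x0)
  (PL.C (nat_lit 0x23aed21) (nat_lit 0x2340692e84c3abf) (nat_lit 0x0)
  (PL.C (nat_lit 0x23c49bc) (nat_lit 0x2227b6aea282551) (nat_lit 0x0)
  (PL.C (nat_lit 0x23c664f) (nat_lit 0x0) (nat_lit 0x1cd4ef0ed415e5)
  (PL.C (nat_lit 0x23cf8fb) (nat_lit 0x0) (nat_lit 0x8acdb8d68bdf4)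
  (PL.C (nat_lit 0x23d516f) (nat_lit 0x7890c40d889285) (nat_lit 0x0)
  (PL.C (nat_lit 0x2400081) (nat_lit 0x3bb1f58e5dffc5) (nat_lit 0x0)
  (PL.C (nat_lit 0x240bd44) (nat_lit 0x1766854a984d372) (nat_lit 0x0)
  (PL.C (nat_lit 0x243df26) (nat_lit 0x0) (nat_lit 0x105920f09c13061)
  (PL.C (nat_lit 0x246e758) (nat_lit 0xc6aac7496fcbd) (nat_lit 0x0)
  (PL.C (nat_lit 0x2470b8d) (nat_lit 0x0) (nat_lit 0x37e41e2e0a68e2)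
  (PL.C (nat_lit 0x2494b69) (nat_lit 0x2bf436648707497) (nat_lit 0x0)
  (PL.C (nat_lit 0x249a572) (nat_lit 0x0) (nat_lit 0x1f5ea567acc4c)
  (PL.C (nat_lit 0x24aca8e) (nat_lit 0x10bccc7698c511) (nat_lit 0x0)
  (PL.C (nat_lit 0x24bebe8) (nat_lit 0x0) (nat_lit 0x8f31f384c6a99e)
  (PL.C (nat_lit 0x24c24f1) (nat_lit 0x8289e417e938511) (nat_lit 0x0) gp0_1_83))))))))))))))))))))

noncomputable def gp0_1_81 : PL :=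
  (PL.C (nat_lit 0x22ba72b) (nat_lit 0x4e4b1d6b55fd534) (nat_lit 0x0)
  (PL.C (nat_lit 0x22d6eee) (nat_lit 0x0) (nat_lit 0x1557c0cebb6201)
  (PL.C (nat_lit 0x22edf32) (nat_lit 0x0) (nat_lit 0x187a47b9248838)
  (PL.C (nat_lit 0x22ee823) (nat_lit 0x94b9f4880a8e46) (nat_lit 0x0)
  (PL.C (nat_lit 0x22f23b1) (nat_lit 0x0) (nat_lit 0x20f671134c8e0e8)
  (PL.C (nat_lit 0x22fffdd) (nat_lit 0x21d4b4083c296b) (nat_lit 0x0)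
  (PL.C (nat_lit 0x23093e4) (nat_lit 0xa62927f83f12fe) (nat_lit 0x0)
  (PL.C (nat_lit 0x2313f8d) (nat_lit 0x0) (nat_lit 0x24a490df33e06b)
  (PL.C (nat_lit 0x23155cc) (nat_lit 0x184b7551e31824d) (nat_lit 0x0)
  (PL.C (nat_lit 0x23171d3) (nat_lit 0x7ae2f67cf98431) (nat_lit 0x0)
  (PL.C (nat_lit 0x2325873) (nat_lit 0x0) (nat_lit 0x805b1274ffbff)
  (PL.C (nat_lit 0x2326797) (nat_lit 0x0) (nat_lit 0x14103d2a63fa64)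
  (PL.C (nat_lit 0x23375aa) (nat_lit 0x15e7e1c96b5ddd3) (nat_lit 0x0)
  (PL.C (nat_lit 0x233ddc4) (nat_lit 0x7ff1e6f461ce02) (nat_lit 0x0)
  (PL.C (nat_lit 0x2359eed) (nat_lit 0x9f3e9e121f8c3) (nat_lit 0x0)
  (PL.C (nat_lit 0x235d1f6) (nat_lit 0x0) (nat_lit 0x1149b2957989150)
  (PL.C (nat_lit 0x2362ad4) (nat_lit 0x1351a7bf6161bb6) (nat_lit 0x0)
  (PL.C (nat_lit 0x2368f9e) (nat_lit 0x0) (nat_lit 0x98e603a150eb5)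
  (PL.C (nat_lit 0x2372fb5) (nat_lit 0x0) (nat_lit 0xe78c2b2f415bc)
  (PL.C (nat_lit 0x23783a9) (nat_lit 0x0) (nat_lit 0x490a67d2301ce5) gp0_1_82))))))))))))))))))))

noncomputable def gp0_1_80 : PL :=
  (PL.C (nat_lit 0x219e7f9) (nat_lit 0x0) (nat_lit 0xb17fb13ed1a062)
  (PL.C (nat_lit 0x21b828a) (nat_lit 0xa12357d89d096e) (nat_lit 0x0)
  (PL.C (nat_lit 0x21bfef4) (nat_lit 0x1c3a2910e9dff4e) (nat_lit 0x0)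
  (PL.C (nat_lit 0x21cca17) (nat_lit 0x0) (nat_lit 0x30d3952c51d343)
  (PL.C (nat_lit 0x21e9c4d) (nat_lit 0x0) (nat_lit 0x618d77d667f6edc)
  (PL.C (nat_lit 0x21f8013) (nat_lit 0xd3400800c588) (nat_lit 0x0)
  (PL.C (nat_lit 0x2208512) (nat_lit 0x22c0615fc52b18e) (nat_lit 0x0)
  (PL.C (nat_lit 0x221ecce) (nat_lit 0x0) (nat_lit 0x72aa7341f30914)
  (PL.C (nat_lit 0x2227c94) (nat_lit 0x7ff1e6e3b2fde8) (nat_lit 0x0)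
  (PL.C (nat_lit 0x222cd0e) (nat_lit 0x0) (nat_lit 0x14bc53543d25fb)
  (PL.C (nat_lit 0x22326d2) (nat_lit 0x0) (nat_lit 0x1149b29612eff83)
  (PL.C (nat_lit 0x2238456) (nat_lit 0x0) (nat_lit 0xc018ac306d7394)
  (PL.C (nat_lit 0x224702d) (nat_lit 0x0) (nat_lit 0x21bed6ce319def)
  (PL.C (nat_lit 0x224c6ac) (nat_lit 0xc7109086367a7) (nat_lit 0x0)
  (PL.C (nat_lit 0x224f7d4) (nat_lit 0x0) (nat_lit 0x1e8ab018ba3034)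
  (PL.C (nat_lit 0x225d954) (nat_lit 0x1cb6e7fbb09228) (nat_lit 0x0)
  (PL.C (nat_lit 0x225ff72) (nat_lit 0x1815f298b814c8) (nat_lit 0x0)
  (PL.C (nat_lit 0x2290d2c) (nat_lit 0x0) (nat_lit 0x1dc4d40640ff09c)
  (PL.C (nat_lit 0x22a950c) (nat_lit 0x0) (nat_lit 0x17d028501c39b2)
  (PL.C (nat_lit 0x22abb7e) (nat_lit 0x0) (nat_lit 0x963cea89d67b6a) gp0_1_81))))))))))))))))))))

noncomputable def gp0_1_79 : PL :=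
  (PL.C (nat_lit 0x20d1809) (nat_lit 0x5428e9e2c20ae) (nat_lit 0x0)
  (PL.C (nat_lit 0x20eaaa9) (nat_lit 0x0) (nat_lit 0x13cf640)
  (PL.C (nat_lit 0x20eb9bd) (nat_lit 0x0) (nat_lit 0x135e68c6860593ed)
  (PL.C (nat_lit 0x20f6886) (nat_lit 0x7ccd188ccd941a) (nat_lit 0x0)
  (PL.C (nat_lit 0x2116785) (nat_lit 0x2bf436643212d79) (nat_lit 0x0)
  (PL.C (nat_lit 0x212707b) (nat_lit 0x33561a92219db29) (nat_lit 0x0)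
  (PL.C (nat_lit 0x21381eb) (nat_lit 0x1aacc76710e9474) (nat_lit 0x0)
  (PL.C (nat_lit 0x2139f4b) (nat_lit 0x14d9c6c935aa77) (nat_lit 0x0)
  (PL.C (nat_lit 0x213f2ca) (nat_lit 0x5d1a9185c5d16a) (nat_lit 0x0)
  (PL.C (nat_lit 0x2140628) (nat_lit 0x0) (nat_lit 0x6c7c28a6a38a7c)
  (PL.C (nat_lit 0x214d4c9) (nat_lit 0x0) (nat_lit 0x3f069dffcdf1bd6)
  (PL.C (nat_lit 0x2154732) (nat_lit 0x0) (nat_lit 0xcd8527c4350c89)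
  (PL.C (nat_lit 0x215b786) (nat_lit 0x0) (nat_lit 0x2bc2bcd311be42a)
  (PL.C (nat_lit 0x2161c65) (nat_lit 0x0) (nat_lit 0x1432eba4677c3e)
  (PL.C (nat_lit 0x217016d) (nat_lit 0xa2b117e18129d) (nat_lit 0x0)
  (PL.C (nat_lit 0x217a1f6) (nat_lit 0x0) (nat_lit 0x112d679ac4af5)
  (PL.C (nat_lit 0x218402c) (nat_lit 0x479cdaa1b3545e) (nat_lit 0x0)
  (PL.C (nat_lit 0x2189a98) (nat_lit 0x0) (nat_lit 0x5e7c96a81e209)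
  (PL.C (nat_lit 0x218ae0a) (nat_lit 0x0) (nat_lit 0x1c256cc1034343)
  (PL.C (nat_lit 0x219b2fe) (nat_lit 0x0) (nat_lit 0x8d7ffa61a84d2a) gp0_1_80))))))))))))))))))))

noncomputable def gp0_1_78 : PL :=
  (PL.C (nat_lit 0x20246f6) (nat_lit 0x0) (nat_lit 0x16389f106bb2d8d)
  (PL.C (nat_lit 0x2031a36) (nat_lit 0x1b92fa545538ccd) (nat_lit 0x0)
  (PL.C (nat_lit 0x203a2f7) (nat_lit 0x0) (nat_lit 0xc97780a9870e0e)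
  (PL.C (nat_lit 0x203b028) (nat_lit 0x0) (nat_lit 0x8f31f3813711dc)
  (PL.C (nat_lit 0x203c6de) (nat_lit 0x0) (nat_lit 0x2eb98bff7d8014b)
  (PL.C (nat_lit 0x204a509) (nat_lit 0x0) (nat_lit 0x13e748252216cf8)
  (PL.C (nat_lit 0x205a3cc) (nat_lit 0x18129bc4faccb21) (nat_lit 0x0)
  (PL.C (nat_lit 0x205cbf9) (nat_lit 0x3a97f9ee7bee8) (nat_lit 0x0)
  (PL.C (nat_lit 0x206424f) (nat_lit 0x77235f52098b0c) (nat_lit 0x0)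
  (PL.C (nat_lit 0x20745b1) (nat_lit 0x0) (nat_lit 0xe874db27e75b4a)
  (PL.C (nat_lit 0x207cef4) (nat_lit 0x3a9801ff39feef) (nat_lit 0x0)
  (PL.C (nat_lit 0x207d642) (nat_lit 0x3649802ed09a892) (nat_lit 0x0)
  (PL.C (nat_lit 0x2082098) (nat_lit 0xc6aac7f341348) (nat_lit 0x0)
  (PL.C (nat_lit 0x2089cbf) (nat_lit 0x94a7f494c8b0e) (nat_lit 0x0)
  (PL.C (nat_lit 0x2099d1b) (nat_lit 0x0) (nat_lit 0x5a3c7cc90c3a4b)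
  (PL.C (nat_lit 0x209d844) (nat_lit 0x1f85f784a089e) (nat_lit 0x0)
  (PL.C (nat_lit 0x20a7b12) (nat_lit 0x0) (nat_lit 0x16de78a9ec841c1)
  (PL.C (nat_lit 0x20a9c93) (nat_lit 0xfa212ddbdb97ec) (nat_lit 0x0)
  (PL.C (nat_lit 0x20af5b5) (nat_lit 0x0) (nat_lit 0xc8cdd81d45af4)
  (PL.C (nat_lit 0x20bbe07) (nat_lit 0x0) (nat_lit 0x4be9827b535edd) gp0_1_79))))))))))))))))))))

noncomputable def gp0_1_77 : PL :=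
  (PL.C (nat_lit 0x1f57593) (nat_lit 0x0) (nat_lit 0x4bca3e9abf13bd)
  (PL.C (nat_lit 0x1f65d0a) (nat_lit 0xa5548caf6c24cee) (nat_lit 0x0)
  (PL.C (nat_lit 0x1f725e1) (nat_lit 0x3a8f6a0081dbfe6) (nat_lit 0x0)
  (PL.C (nat_lit 0x1f8eb1a) (nat_lit 0x0) (nat_lit 0x2d8fe7fa7f415a)
  (PL.C (nat_lit 0x1fae6f5) (nat_lit 0x245293b322a9f4) (nat_lit 0x0)
  (PL.C (nat_lit 0x1fb5bda) (nat_lit 0xaaed289dedd5b) (nat_lit 0x0)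
  (PL.C (nat_lit 0x1fbbb9c) (nat_lit 0x1318323224f36ea) (nat_lit 0x0)
  (PL.C (nat_lit 0x1fc8d41) (nat_lit 0xac207d927e20a) (nat_lit 0x0)
  (PL.C (nat_lit 0x1fd113e) (nat_lit 0x497e379cdc2c7a) (nat_lit 0x0)
  (PL.C (nat_lit 0x1fddc24) (nat_lit 0x3a11f899848318) (nat_lit 0x0)
  (PL.C (nat_lit 0x1fe05b4) (nat_lit 0xb3b1081f5456f6) (nat_lit 0x0)
  (PL.C (nat_lit 0x1fed84b) (nat_lit 0x0) (nat_lit 0x6ec27d4966d06b)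
  (PL.C (nat_lit 0x1ff9bf9) (nat_lit 0x0) (nat_lit 0x240aecbb9e92c9)
  (PL.C (nat_lit 0x1fffe37) (nat_lit 0x103640b85ceb4df) (nat_lit 0x0)
  (PL.C (nat_lit 0x2001a84) (nat_lit 0x184b755377acafd) (nat_lit 0x0)
  (PL.C (nat_lit 0x2009c07) (nat_lit 0x0) (nat_lit 0x3e24f129271696)
  (PL.C (nat_lit 0x200d45c) (nat_lit 0x0) (nat_lit 0x52417d7b09c0f9)
  (PL.C (nat_lit 0x200edf7) (nat_lit 0x4114816877d833) (nat_lit 0x0)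
  (PL.C (nat_lit 0x201b142) (nat_lit 0x0) (nat_lit 0x1f5ea5993c21e)
  (PL.C (nat_lit 0x2023fbc) (nat_lit 0x1058feb36e1848) (nat_lit 0x0) gp0_1_78))))))))))))))))))))

noncomputable def gp0_1_76 : PL :=
  (PL.C (nat_lit 0x1e5125c) (nat_lit 0xf781548c49e742) (nat_lit 0x0)
  (PL.C (nat_lit 0x1e63c45) (nat_lit 0x26be6c869f22c47) (nat_lit 0x0)
  (PL.C (nat_lit 0x1e65383) (nat_lit 0x0) (nat_lit 0x3af0bab5448c4f)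
  (PL.C (nat_lit 0x1e696f8) (nat_lit 0xac7bea3fef018) (nat_lit 0x0)
  (PL.C (nat_lit 0x1e70b2e) (nat_lit 0x0) (nat_lit 0x6578efe542ba13)
  (PL.C (nat_lit 0x1e794cd) (nat_lit 0xd1b50c319c45e) (nat_lit 0x0)
  (PL.C (nat_lit 0x1e7fde2) (nat_lit 0x13172d655f649c5) (nat_lit 0x0)
  (PL.C (nat_lit 0x1e86b11) (nat_lit 0x1d9d8b857a7994c) (nat_lit 0x0)
  (PL.C (nat_lit 0x1e8c8a8) (nat_lit 0x0) (nat_lit 0x8aff75f18403d)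
  (PL.C (nat_lit 0x1e8f21e) (nat_lit 0x0) (nat_lit 0x105663a4ce5679)
  (PL.C (nat_lit 0x1ea093e) (nat_lit 0x0) (nat_lit 0x19f07d7385a067)
  (PL.C (nat_lit 0x1ea50d4) (nat_lit 0x0) (nat_lit 0xdf28c9dd6746ab)
  (PL.C (nat_lit 0x1eac748) (nat_lit 0x1fb5d6e3180b43) (nat_lit 0x0)
  (PL.C (nat_lit 0x1eacbd9) (nat_lit 0x5c0b9cb30013e85) (nat_lit 0x0)
  (PL.C (nat_lit 0x1eae6f9) (nat_lit 0x0) (nat_lit 0xaeded4988cff66)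
  (PL.C (nat_lit 0x1ecda37) (nat_lit 0x0) (nat_lit 0xed142fe786678)
  (PL.C (nat_lit 0x1edf232) (nat_lit 0x0) (nat_lit 0x7430bff409474c)
  (PL.C (nat_lit 0x1f27096) (nat_lit 0x0) (nat_lit 0x49f44caa83de27)
  (PL.C (nat_lit 0x1f27c76) (nat_lit 0x2f2511286a3bb07) (nat_lit 0x0)
  (PL.C (nat_lit 0x1f43d7c) (nat_lit 0x0) (nat_lit 0x12e8eb69060094) gp0_1_77))))))))))))))))))))

noncomputable def gp0_1_75 : PL :=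
  (PL.C (nat_lit 0x1d905a1) (nat_lit 0x11b92383e90569) (nat_lit 0x0)
  (PL.C (nat_lit 0x1d9d5a4) (nat_lit 0x4445bb7abb1f9b) (nat_lit 0x0)
  (PL.C (nat_lit 0x1d9f25f) (nat_lit 0xf5c5ecfe7e5893) (nat_lit 0x0)
  (PL.C (nat_lit 0x1da66bd) (nat_lit 0x0) (nat_lit 0xe36cee89a929b)
  (PL.C (nat_lit 0x1daa1be) (nat_lit 0x1561038dba61cd6) (nat_lit 0x0)
  (PL.C (nat_lit 0x1dadc14) (nat_lit 0x559840f85c6e39) (nat_lit 0x0)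
  (PL.C (nat_lit 0x1dba5d2) (nat_lit 0x4d9ef520237aaea) (nat_lit 0x0)
  (PL.C (nat_lit 0x1dc4933) (nat_lit 0x6bb48322650fc1) (nat_lit 0x0)
  (PL.C (nat_lit 0x1dce00e) (nat_lit 0x2bdad0d7280ab7d) (nat_lit 0x0)
  (PL.C (nat_lit 0x1de4caf) (nat_lit 0x0) (nat_lit 0x201a5ae745ee4f)
  (PL.C (nat_lit 0x1df120d) (nat_lit 0x3841559be5bd8a2) (nat_lit 0x0)
  (PL.C (nat_lit 0x1e0ee84) (nat_lit 0xf781548c7b221e) (nat_lit 0x0)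
  (PL.C (nat_lit 0x1e13b0f) (nat_lit 0x0) (nat_lit 0xc977808b8d5147)
  (PL.C (nat_lit 0x1e13e5c) (nat_lit 0x5c727bc7986f6) (nat_lit 0x0)
  (PL.C (nat_lit 0x1e1f365) (nat_lit 0xaabacb001744ce) (nat_lit 0x0)
  (PL.C (nat_lit 0x1e20511) (nat_lit 0xff80ae9283d3) (nat_lit 0x0)
  (PL.C (nat_lit 0x1e319ac) (nat_lit 0x18dcd7b7436c815) (nat_lit 0x0)
  (PL.C (nat_lit 0x1e331cb) (nat_lit 0x3841559ce136cba) (nat_lit 0x0)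
  (PL.C (nat_lit 0x1e3e496) (nat_lit 0x0) (nat_lit 0x16fdb42a30bfe9e)
  (PL.C (nat_lit 0x1e49a7f) (nat_lit 0x7a59b1227abf48) (nat_lit 0x0) gp0_1_76))))))))))))))))))))

noncomputable def gp0_1_74 : PL :=
  (PL.C (nat_lit 0x1cef7a1) (nat_lit 0x0) (nat_lit 0xce88f7a1537c3d)
  (PL.C (nat_lit 0x1cf4224) (nat_lit 0x0) (nat_lit 0x25d6ecbb5650ca)
  (PL.C (nat_lit 0x1cf6a24) (nat_lit 0x301b60a32254928) (nat_lit 0x0)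
  (PL.C (nat_lit 0x1cfdbec) (nat_lit 0x0) (nat_lit 0x52417d74e1ed42)
  (PL.C (nat_lit 0x1d0a3ba) (nat_lit 0x0) (nat_lit 0x6c2a625f1bf9c4)
  (PL.C (nat_lit 0x1d0c414) (nat_lit 0x366459d00867cb) (nat_lit 0x0)
  (PL.C (nat_lit 0x1d0e39f) (nat_lit 0x0) (nat_lit 0x6eaa16cf5bf68a)
  (PL.C (nat_lit 0x1d18c46) (nat_lit 0x8a7b2799f88871) (nat_lit 0x0)
  (PL.C (nat_lit 0x1d1d3f2) (nat_lit 0x0) (nat_lit 0x25008c741ae08ef)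
  (PL.C (nat_lit 0x1d46cac) (nat_lit 0x0) (nat_lit 0x2926f6683d007fe)
  (PL.C (nat_lit 0x1d4c44c) (nat_lit 0x29c368c006628) (nat_lit 0x0)
  (PL.C (nat_lit 0x1d65bc2) (nat_lit 0x140870bf0ebdd4f) (nat_lit 0x0)
  (PL.C (nat_lit 0x1d68964) (nat_lit 0x6b7ff704574605) (nat_lit 0x0)
  (PL.C (nat_lit 0x1d6ac26) (nat_lit 0xd1413588f14903) (nat_lit 0x0)
  (PL.C (nat_lit 0x1d6ce8c) (nat_lit 0x31be100f93e90c) (nat_lit 0x0)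
  (PL.C (nat_lit 0x1d7cdef) (nat_lit 0x0) (nat_lit 0x2e59780e489eaa)
  (PL.C (nat_lit 0x1d80035) (nat_lit 0x0) (nat_lit 0x1a2808176201a96)
  (PL.C (nat_lit 0x1d874f4) (nat_lit 0x0) (nat_lit 0x14cb9ccbb2bf942)
  (PL.C (nat_lit 0x1d8ba11) (nat_lit 0x8c16bf3e01577) (nat_lit 0x0)
  (PL.C (nat_lit 0x1d8ee04) (nat_lit 0x0) (nat_lit 0x9d632c789b8f09) gp0_1_75))))))))))))))))))))

noncomputable def gp0_1_73 : PL :=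
  (PL.C (nat_lit 0x1c4addc) (nat_lit 0x0) (nat_lit 0x1935c4fa407e23b)
  (PL.C (nat_lit 0x1c4cc95) (nat_lit 0xe921d9fa268d04e) (nat_lit 0x0)
  (PL.C (nat_lit 0x1c562d6) (nat_lit 0xd78cf04bd45996) (nat_lit 0x0)
  (PL.C (nat_lit 0x1c6139d) (nat_lit 0x0) (nat_lit 0x3d6edd59356abf)
  (PL.C (nat_lit 0x1c71a1d) (nat_lit 0x0) (nat_lit 0x4570087fa436be)
  (PL.C (nat_lit 0x1c76e32) (nat_lit 0x246edadc7bb8a41) (nat_lit 0x0)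
  (PL.C (nat_lit 0x1c81ca6) (nat_lit 0x5c5056945bf6a1) (nat_lit 0x0)
  (PL.C (nat_lit 0x1c882b3) (nat_lit 0x0) (nat_lit 0x205611dd00e218d)
  (PL.C (nat_lit 0x1c90233) (nat_lit 0x618950d2fa281c) (nat_lit 0x0)
  (PL.C (nat_lit 0x1c949fa) (nat_lit 0x0) (nat_lit 0x5b792ef767e3ac)
  (PL.C (nat_lit 0x1ca0c41) (nat_lit 0x656677b6003e06b) (nat_lit 0x0)
  (PL.C (nat_lit 0x1cba8da) (nat_lit 0x304467d41578fe) (nat_lit 0x0)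
  (PL.C (nat_lit 0x1cc74c6) (nat_lit 0x711b45b63b9e9) (nat_lit 0x0)
  (PL.C (nat_lit 0x1ccd886) (nat_lit 0x0) (nat_lit 0x762b73fe11fa71)
  (PL.C (nat_lit 0x1cd51e4) (nat_lit 0x0) (nat_lit 0x6155e0cc063023)
  (PL.C (nat_lit 0x1cd5b3a) (nat_lit 0x1e3da7fc9ccf1) (nat_lit 0x0)
  (PL.C (nat_lit 0x1cd830c) (nat_lit 0x2ecd0a93ce19c96) (nat_lit 0x0)
  (PL.C (nat_lit 0x1cde19a) (nat_lit 0x0) (nat_lit 0x612d79e3e7cd50)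
  (PL.C (nat_lit 0x1ce105f) (nat_lit 0x0) (nat_lit 0x6ec27d4197c622)
  (PL.C (nat_lit 0x1ce3b8e) (nat_lit 0x0) (nat_lit 0x10e507794e4a19) gp0_1_74))))))))))))))))))))

noncomputable def gp0_1_72 : PL :=
  (PL.C (nat_lit 0x1b8da7c) (nat_lit 0x0) (nat_lit 0x5d82972cc14870)
  (PL.C (nat_lit 0x1b9a59f) (nat_lit 0x939c9ee65bc63) (nat_lit 0x0)
  (PL.C (nat_lit 0x1ba12dc) (nat_lit 0x0) (nat_lit 0x13939619976f77)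
  (PL.C (nat_lit 0x1ba1c08) (nat_lit 0x0) (nat_lit 0x245a4ddb55964)
  (PL.C (nat_lit 0x1bbe6da) (nat_lit 0x8d37fd08c73771) (nat_lit 0x0)
  (PL.C (nat_lit 0x1bbfc6c) (nat_lit 0x0) (nat_lit 0x2b51ad08748287)
  (PL.C (nat_lit 0x1bc3aa1) (nat_lit 0x0) (nat_lit 0xcc3eae19c8b3a0)
  (PL.C (nat_lit 0x1bca371) (nat_lit 0xc3932842f25e889) (nat_lit 0x0)
  (PL.C (nat_lit 0x1be1c7e) (nat_lit 0x45bf5927c9a86f) (nat_lit 0x0)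
  (PL.C (nat_lit 0x1be3b6b) (nat_lit 0x0) (nat_lit 0x11e5e31686b672)
  (PL.C (nat_lit 0x1beb206) (nat_lit 0x0) (nat_lit 0x2d8fe808cb6915)
  (PL.C (nat_lit 0x1beda54) (nat_lit 0x3823162d9f6393) (nat_lit 0x0)
  (PL.C (nat_lit 0x1bee659) (nat_lit 0x27e2ac9ade9028) (nat_lit 0x0)
  (PL.C (nat_lit 0x1c00d97) (nat_lit 0x0) (nat_lit 0x134b83af6dd383d)
  (PL.C (nat_lit 0x1c0acd7) (nat_lit 0x0) (nat_lit 0x13fe4af73eeb5b4)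
  (PL.C (nat_lit 0x1c11361) (nat_lit 0x0) (nat_lit 0x10c7d67ca87b40d)
  (PL.C (nat_lit 0x1c1433b) (nat_lit 0x0) (nat_lit 0x2203d0a9f538a25)
  (PL.C (nat_lit 0x1c22b7a) (nat_lit 0x0) (nat_lit 0xcd8527b56a5f76)
  (PL.C (nat_lit 0x1c23c0f) (nat_lit 0x0) (nat_lit 0x892e98fe8c1321)
  (PL.C (nat_lit 0x1c4284e) (nat_lit 0x0) (nat_lit 0x19f07d5ba4ae1f) gp0_1_73))))))))))))))))))))

noncomputable def gp0_1_71 : PL :=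
  (PL.C (nat_lit 0x1af143b) (nat_lit 0x39e49db19c1e17b) (nat_lit 0x0)
  (PL.C (nat_lit 0x1afa63c) (nat_lit 0x0) (nat_lit 0x121da9d3b3e55e)
  (PL.C (nat_lit 0x1afb09e) (nat_lit 0x0) (nat_lit 0x6610ba1c7f95c6)
  (PL.C (nat_lit 0x1afd524) (nat_lit 0x1f85f931f0d59) (nat_lit 0x0)
  (PL.C (nat_lit 0x1b04b94) (nat_lit 0x42cc17299ac53a) (nat_lit 0x0)
  (PL.C (nat_lit 0x1b0fe13) (nat_lit 0xac207e3dcb721) (nat_lit 0x0)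
  (PL.C (nat_lit 0x1b1692c) (nat_lit 0x0) (nat_lit 0x10212151ca6feb)
  (PL.C (nat_lit 0x1b2214e) (nat_lit 0x0) (nat_lit 0x861581fb1fbed)
  (PL.C (nat_lit 0x1b34713) (nat_lit 0x0) (nat_lit 0x291d6ff54906e1e)
  (PL.C (nat_lit 0x1b367f2) (nat_lit 0x0) (nat_lit 0x10aa85d36bcb9c3)
  (PL.C (nat_lit 0x1b3c20d) (nat_lit 0x0) (nat_lit 0x373ae147036046)
  (PL.C (nat_lit 0x1b420ed) (nat_lit 0x1cb4bf359056b5b) (nat_lit 0x0)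
  (PL.C (nat_lit 0x1b4268a) (nat_lit 0x0) (nat_lit 0xaed9b6ac68dde8)
  (PL.C (nat_lit 0x1b4f7fc) (nat_lit 0x2227b6b070a30f6) (nat_lit 0x0)
  (PL.C (nat_lit 0x1b57dcb) (nat_lit 0x2452939ee6e730) (nat_lit 0x0)
  (PL.C (nat_lit 0x1b5ac69) (nat_lit 0x1502a7eb7e919bc) (nat_lit 0x0)
  (PL.C (nat_lit 0x1b6d2ca) (nat_lit 0x0) (nat_lit 0x29fd0fa02d41a16)
  (PL.C (nat_lit 0x1b75fb4) (nat_lit 0x0) (nat_lit 0xfcdc963d4daf7f)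
  (PL.C (nat_lit 0x1b7cdf1) (nat_lit 0x26be6c861030039) (nat_lit 0x0)
  (PL.C (nat_lit 0x1b81cf6) (nat_lit 0x0) (nat_lit 0x9d5281c1329ea9) gp0_1_72))))))))))))))))))))

noncomputable def gp0_1_70 : PL :=
  (PL.C (nat_lit 0x1a00b53) (nat_lit 0x15d6a362703f908) (nat_lit 0x0)
  (PL.C (nat_lit 0x1a096c7) (nat_lit 0x25d79b06aead9d7) (nat_lit 0x0)
  (PL.C (nat_lit 0x1a126d6) (nat_lit 0x59d5ec32e1cc63) (nat_lit 0x0)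
  (PL.C (nat_lit 0x1a2653c) (nat_lit 0x0) (nat_lit 0x93b7b89b889935)
  (PL.C (nat_lit 0x1a2c5b8) (nat_lit 0x0) (nat_lit 0x26c1d7604c35b)
  (PL.C (nat_lit 0x1a3c1cc) (nat_lit 0x0) (nat_lit 0x3fcbf1406bceca)
  (PL.C (nat_lit 0x1a3de49) (nat_lit 0x0) (nat_lit 0x727f16721e5e463)
  (PL.C (nat_lit 0x1a4ccce) (nat_lit 0x15e7e1d0f9543bb) (nat_lit 0x0)
  (PL.C (nat_lit 0x1a57d72) (nat_lit 0x4d1951f52d7bda) (nat_lit 0x0)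
  (PL.C (nat_lit 0x1a600f1) (nat_lit 0x0) (nat_lit 0x107858b0772404d)
  (PL.C (nat_lit 0x1a618c8) (nat_lit 0x0) (nat_lit 0x5e7c96c6b2f03)
  (PL.C (nat_lit 0x1a75ed4) (nat_lit 0x0) (nat_lit 0x3fcbf1285b7ef5)
  (PL.C (nat_lit 0x1a812b2) (nat_lit 0x0) (nat_lit 0x26e3d792ccd36da)
  (PL.C (nat_lit 0x1a99ad4) (nat_lit 0x6b7ff6eb08dd1f) (nat_lit 0x0)
  (PL.C (nat_lit 0x1a9baf8) (nat_lit 0x0) (nat_lit 0x6c7c28b2e64acb)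
  (PL.C (nat_lit 0x1abc4f4) (nat_lit 0x0) (nat_lit 0x93b7b8a923b08a)
  (PL.C (nat_lit 0x1abe789) (nat_lit 0x77235f5a9fb828) (nat_lit 0x0)
  (PL.C (nat_lit 0x1ac9b0c) (nat_lit 0x0) (nat_lit 0x2e617f33b1cb4)
  (PL.C (nat_lit 0x1ad4c05) (nat_lit 0x411481680ca38c) (nat_lit 0x0)
  (PL.C (nat_lit 0x1adb634) (nat_lit 0x0) (nat_lit 0x58f84925d892cb) gp0_1_71))))))))))))))))))))

noncomputable def gp0_1_69 : PL :=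
  (PL.C (nat_lit 0x195306c) (nat_lit 0x0) (nat_lit 0x8a83b8c3390a67)
  (PL.C (nat_lit 0x195c14d) (nat_lit 0x0) (nat_lit 0x2f02547ea66c968)
  (PL.C (nat_lit 0x196e8b2) (nat_lit 0x3a59c3acad91230) (nat_lit 0x0)
  (PL.C (nat_lit 0x1973736) (nat_lit 0x0) (nat_lit 0x124d7fec929a9d)
  (PL.C (nat_lit 0x197d195) (nat_lit 0x2c2cd586cec58a) (nat_lit 0x0)
  (PL.C (nat_lit 0x197e437) (nat_lit 0x0) (nat_lit 0xc936a295c52a47)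
  (PL.C (nat_lit 0x198044e) (nat_lit 0x0) (nat_lit 0x86158192b9750)
  (PL.C (nat_lit 0x1983674) (nat_lit 0x0) (nat_lit 0x2c7e9e3363152)
  (PL.C (nat_lit 0x19b2b77) (nat_lit 0x0) (nat_lit 0x12a59b1631201b)
  (PL.C (nat_lit 0x19bf0ea) (nat_lit 0x4821ee635fcad55) (nat_lit 0x0)
  (PL.C (nat_lit 0x19c3082) (nat_lit 0xeb10affc181e27) (nat_lit 0x0)
  (PL.C (nat_lit 0x19c4d15) (nat_lit 0x1d9d8b869c9c0b5) (nat_lit 0x0)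
  (PL.C (nat_lit 0x19cbf16) (nat_lit 0x0) (nat_lit 0x504c49c8806cce)
  (PL.C (nat_lit 0x19daab6) (nat_lit 0x0) (nat_lit 0x112d686557521)
  (PL.C (nat_lit 0x19de724) (nat_lit 0x0) (nat_lit 0xdf28c9cb609aaf)
  (PL.C (nat_lit 0x19e355e) (nat_lit 0x0) (nat_lit 0x53543e932bfb3b)
  (PL.C (nat_lit 0x19e4efd) (nat_lit 0x0) (nat_lit 0x618d77d74a9cab3)
  (PL.C (nat_lit 0x19ee7c9) (nat_lit 0x32a968d02a2a10) (nat_lit 0x0)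
  (PL.C (nat_lit 0x19f60b3) (nat_lit 0x0) (nat_lit 0xd66dd09a274e5c)
  (PL.C (nat_lit 0x19ffa66) (nat_lit 0x6bb38937094eaf5) (nat_lit 0x0) gp0_1_70))))))))))))))))))))

noncomputable def gp0_1_68 : PL :=
  (PL.C (nat_lit 0x1893b3a) (nat_lit 0x0) (nat_lit 0xb3826fa15b61a7)
  (PL.C (nat_lit 0x18ac974) (nat_lit 0x2e35d74c1c66d5) (nat_lit 0x0)
  (PL.C (nat_lit 0x18b5df7) (nat_lit 0x34ab7d4a81572e) (nat_lit 0x0)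
  (PL.C (nat_lit 0x18b6c5c) (nat_lit 0x0) (nat_lit 0x14cb9cce47661b3)
  (PL.C (nat_lit 0x18d0e4a) (nat_lit 0x0) (nat_lit 0x1719be8b566d484)
  (PL.C (nat_lit 0x18d5b9e) (nat_lit 0x9c1cd33bcf5121) (nat_lit 0x0)
  (PL.C (nat_lit 0x18ec18c) (nat_lit 0x0) (nat_lit 0x858728ae26ffb1)
  (PL.C (nat_lit 0x18ed3c4) (nat_lit 0x0) (nat_lit 0x2926f66b38d6aae)
  (PL.C (nat_lit 0x18f4de5) (nat_lit 0x32a968cbd423f1) (nat_lit 0x0)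
  (PL.C (nat_lit 0x1904b56) (nat_lit 0x0) (nat_lit 0x124d7fef771c3d)
  (PL.C (nat_lit 0x1919427) (nat_lit 0x1e9c1d26ea96d8f) (nat_lit 0x0)
  (PL.C (nat_lit 0x1920f3f) (nat_lit 0x1647dee51c6896) (nat_lit 0x0)
  (PL.C (nat_lit 0x1929603) (nat_lit 0xf85a29d97da8a3) (nat_lit 0x0)
  (PL.C (nat_lit 0x193238c) (nat_lit 0xb887b7a11735dc1) (nat_lit 0x0)
  (PL.C (nat_lit 0x1938306) (nat_lit 0x1a3f3786870582) (nat_lit 0x0)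
  (PL.C (nat_lit 0x1939eff) (nat_lit 0x32da15a6453cea) (nat_lit 0x0)
  (PL.C (nat_lit 0x193bd7a) (nat_lit 0xb67618686cee77) (nat_lit 0x0)
  (PL.C (nat_lit 0x1944cfa) (nat_lit 0x3b5d54c80e74cf) (nat_lit 0x0)
  (PL.C (nat_lit 0x1946901) (nat_lit 0x0) (nat_lit 0x39a9de512f53e5)
  (PL.C (nat_lit 0x1947968) (nat_lit 0x0) (nat_lit 0x245a4e6fdefc0) gp0_1_69))))))))))))))))))))

noncomputable def gp0_1_67 : PL :=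
  (PL.C (nat_lit 0x17b3f67) (nat_lit 0x29f09acf130688b) (nat_lit 0x0)
  (PL.C (nat_lit 0x17c0c82) (nat_lit 0x0) (nat_lit 0x5250cc7f65c895c)
  (PL.C (nat_lit 0x17c9e16) (nat_lit 0x0) (nat_lit 0x7906a1e244939ec)
  (PL.C (nat_lit 0x17d998a) (nat_lit 0x9dd1fba3ed1e30) (nat_lit 0x0)
  (PL.C (nat_lit 0x17dfb52) (nat_lit 0xd0be1b059163ea) (nat_lit 0x0)
  (PL.C (nat_lit 0x17e364a) (nat_lit 0x0) (nat_lit 0x10e253ecd012d3)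
  (PL.C (nat_lit 0x17e3ba9) (nat_lit 0x4c72666f7a3d7c1) (nat_lit 0x0)
  (PL.C (nat_lit 0x17e50c9) (nat_lit 0x0) (nat_lit 0x9ab75ca6134e58)
  (PL.C (nat_lit 0x1800056) (nat_lit 0xd2186df732f65c) (nat_lit 0x0)
  (PL.C (nat_lit 0x1802d51) (nat_lit 0xe8049d9304beaf) (nat_lit 0x0)
  (PL.C (nat_lit 0x1812b1f) (nat_lit 0x0) (nat_lit 0xbecefc8d72ed51)
  (PL.C (nat_lit 0x18294c4) (nat_lit 0x0) (nat_lit 0x124597bd7600942)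
  (PL.C (nat_lit 0x1830b25) (nat_lit 0x0) (nat_lit 0x8acdb8cba5b8d)
  (PL.C (nat_lit 0x183ccdb) (nat_lit 0x0) (nat_lit 0xa90da28f672aae)
  (PL.C (nat_lit 0x184b25e) (nat_lit 0x0) (nat_lit 0x406a8d5044c2a2)
  (PL.C (nat_lit 0x1863246) (nat_lit 0x42105eac3db98b) (nat_lit 0x0)
  (PL.C (nat_lit 0x1866e4c) (nat_lit 0xe69ff5885e7280) (nat_lit 0x0)
  (PL.C (nat_lit 0x18731b4) (nat_lit 0x0) (nat_lit 0x1e8ab0199a808d)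
  (PL.C (nat_lit 0x188705b) (nat_lit 0x0) (nat_lit 0x6eaa169a7682e3)
  (PL.C (nat_lit 0x1891baa) (nat_lit 0x4c9725be14e6a) (nat_lit 0x0) gp0_1_68))))))))))))))))))))

noncomputable def gp0_1_66 : PL :=
  (PL.C (nat_lit 0x1726f72) (nat_lit 0x6bb38937094eaf5) (nat_lit 0x0)
  (PL.C (nat_lit 0x1734375) (nat_lit 0x3bb1f5b5b63ec1) (nat_lit 0x0)
  (PL.C (nat_lit 0x17438bb) (nat_lit 0x25bd87f918d937) (nat_lit 0x0)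
  (PL.C (nat_lit 0x1749ac2) (nat_lit 0x246edadbbaa0f67) (nat_lit 0x0)
  (PL.C (nat_lit 0x174c276) (nat_lit 0x0) (nat_lit 0x182222699d1eef2)
  (PL.C (nat_lit 0x1750ed5) (nat_lit 0x618950cfe211e7) (nat_lit 0x0)
  (PL.C (nat_lit 0x175553e) (nat_lit 0x0) (nat_lit 0x4d61f927fdac02)
  (PL.C (nat_lit 0x1762a5e) (nat_lit 0x0) (nat_lit 0x2f2b4304e72ec)
  (PL.C (nat_lit 0x1764be2) (nat_lit 0x0) (nat_lit 0x80d190aed0ceb0)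
  (PL.C (nat_lit 0x176e5a2) (nat_lit 0xee3c2e15c67a4) (nat_lit 0x0)
  (PL.C (nat_lit 0x176efba) (nat_lit 0x0) (nat_lit 0x1cb79895de45ff)
  (PL.C (nat_lit 0x1783ee1) (nat_lit 0x0) (nat_lit 0x16fed8817d9933)
  (PL.C (nat_lit 0x179149e) (nat_lit 0x0) (nat_lit 0x108d085a56804d5)
  (PL.C (nat_lit 0x17936a4) (nat_lit 0x0) (nat_lit 0xdc25382aab53cc)
  (PL.C (nat_lit 0x179b514) (nat_lit 0x0) (nat_lit 0x7fa329f87eb535)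
  (PL.C (nat_lit 0x17a1fce) (nat_lit 0x0) (nat_lit 0x287b84309ddc83)
  (PL.C (nat_lit 0x17a57c6) (nat_lit 0x236ddc886b7c2be) (nat_lit 0x0)
  (PL.C (nat_lit 0x17a714c) (nat_lit 0x0) (nat_lit 0x9d632c80c89ba0)
  (PL.C (nat_lit 0x17ac073) (nat_lit 0x6995c36bce8529) (nat_lit 0x0)
  (PL.C (nat_lit 0x17b2eb4) (nat_lit 0x0) (nat_lit 0x5d94de8146f31f) gp0_1_67))))))))))))))))))))

noncomputable def gp0_1_65 : PL :=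
  (PL.C (nat_lit 0x165c95c) (nat_lit 0x0) (nat_lit 0x1393961cb6aaf4)
  (PL.C (nat_lit 0x1667754) (nat_lit 0x0) (nat_lit 0x8a83b8b43a7862)
  (PL.C (nat_lit 0x1669aa6) (nat_lit 0xa5067225c750ae) (nat_lit 0x0)
  (PL.C (nat_lit 0x167ac5c) (nat_lit 0xf97dbb0d0a6542) (nat_lit 0x0)
  (PL.C (nat_lit 0x1685217) (nat_lit 0x0) (nat_lit 0x37e41e2c57f1c6)
  (PL.C (nat_lit 0x16886ba) (nat_lit 0x0) (nat_lit 0x2bc2bcd1a6da02c)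
  (PL.C (nat_lit 0x16a5562) (nat_lit 0x0) (nat_lit 0x5651b31208d1cb)
  (PL.C (nat_lit 0x16b9945) (nat_lit 0x5e9dacb8f09766) (nat_lit 0x0)
  (PL.C (nat_lit 0x16bf334) (nat_lit 0xd7c10e2e48f8e3) (nat_lit 0x0)
  (PL.C (nat_lit 0x16c88b4) (nat_lit 0x0) (nat_lit 0x2b89ffd21a577b)
  (PL.C (nat_lit 0x16cc48c) (nat_lit 0x0) (nat_lit 0xdc2538369ea74d)
  (PL.C (nat_lit 0x16d02e4) (nat_lit 0x0) (nat_lit 0xc83b68fc89b6b1)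
  (PL.C (nat_lit 0x16d343f) (nat_lit 0x5b71fa4b347e6) (nat_lit 0x0)
  (PL.C (nat_lit 0x16da01e) (nat_lit 0x0) (nat_lit 0x3182d1e7dd55bf)
  (PL.C (nat_lit 0x16dd9c8) (nat_lit 0x0) (nat_lit 0x8aff754a8f565)
  (PL.C (nat_lit 0x16e9cf3) (nat_lit 0x0) (nat_lit 0xaeded4923e6b6e)
  (PL.C (nat_lit 0x16eaa4c) (nat_lit 0x0) (nat_lit 0x1f04bd007ed00e)
  (PL.C (nat_lit 0x16fd901) (nat_lit 0x0) (nat_lit 0x8b6c5d51820e48)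
  (PL.C (nat_lit 0x17063f1) (nat_lit 0x10fe4f013031560) (nat_lit 0x0)
  (PL.C (nat_lit 0x171d254) (nat_lit 0x0) (nat_lit 0x8d2a44d13cb441) gp0_1_66))))))))))))))))))))

noncomputable def gp0_1_64 : PL :=
  (PL.C (nat_lit 0x15c6862) (nat_lit 0x1e13b38bfc04b0d) (nat_lit 0x0)
  (PL.C (nat_lit 0x15ca3ce) (nat_lit 0x0) (nat_lit 0x104de388adba55f)
  (PL.C (nat_lit 0x15d295a) (nat_lit 0xd78cf052bbb9de) (nat_lit 0x0)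
  (PL.C (nat_lit 0x15dbdb1) (nat_lit 0x0) (nat_lit 0x3b90b8f486459ce)
  (PL.C (nat_lit 0x15e1006) (nat_lit 0x0) (nat_lit 0x184b8067a6e8da)
  (PL.C (nat_lit 0x15e3ead) (nat_lit 0x11b9237a954c0a) (nat_lit 0x0)
  (PL.C (nat_lit 0x15ea4bf) (nat_lit 0x1f67a6ab69fcc4a) (nat_lit 0x0)
  (PL.C (nat_lit 0x15f267e) (nat_lit 0x0) (nat_lit 0x2c0bc1f5d077fb3)
  (PL.C (nat_lit 0x15f9b04) (nat_lit 0x55984101255841) (nat_lit 0x0)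
  (PL.C (nat_lit 0x160efae) (nat_lit 0x42105ee9139749) (nat_lit 0x0)
  (PL.C (nat_lit 0x161a052) (nat_lit 0xca928f806beaf) (nat_lit 0x0)
  (PL.C (nat_lit 0x1626a32) (nat_lit 0xaaed281f7cd2d) (nat_lit 0x0)
  (PL.C (nat_lit 0x1626f2d) (nat_lit 0x4f67dce8a74d0ed) (nat_lit 0x0)
  (PL.C (nat_lit 0x162a1dc) (nat_lit 0x31be10108e5694) (nat_lit 0x0)
  (PL.C (nat_lit 0x1633886) (nat_lit 0x0) (nat_lit 0x9023ffcc4fb60cf)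
  (PL.C (nat_lit 0x16384cc) (nat_lit 0x236da97914e2e6b) (nat_lit 0x0)
  (PL.C (nat_lit 0x16412ee) (nat_lit 0x29260f7353d67e) (nat_lit 0x0)
  (PL.C (nat_lit 0x164ab9e) (nat_lit 0x0) (nat_lit 0x4bd19c639637d9)
  (PL.C (nat_lit 0x1651431) (nat_lit 0x32da15b780dd2d) (nat_lit 0x0)
  (PL.C (nat_lit 0x16516a4) (nat_lit 0xc58ca24e21d27) (nat_lit 0x0) gp0_1_65))))))))))))))))))))

noncomputable def gp0_1_63 : PL :=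
  (PL.C (nat_lit 0x15360d4) (nat_lit 0x277577468fbcd) (nat_lit 0x0)
  (PL.C (nat_lit 0x153e07f) (nat_lit 0xe8049d7b0aa92d) (nat_lit 0x0)
  (PL.C (nat_lit 0x153e818) (nat_lit 0x1fb5d6e1884591) (nat_lit 0x0)
  (PL.C (nat_lit 0x1549032) (nat_lit 0x0) (nat_lit 0x18ad2310e9d04c6)
  (PL.C (nat_lit 0x15512a6) (nat_lit 0x129b5a84903d3b) (nat_lit 0x0)
  (PL.C (nat_lit 0x155bd5a) (nat_lit 0x5116f4f38b521) (nat_lit 0x0)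
  (PL.C (nat_lit 0x155e2e8) (nat_lit 0x0) (nat_lit 0x181db7267bb8e1)
  (PL.C (nat_lit 0x155f3fa) (nat_lit 0x7b3a6b105ec9e6) (nat_lit 0x0)
  (PL.C (nat_lit 0x156762c) (nat_lit 0xe69ff58151787f) (nat_lit 0x0)
  (PL.C (nat_lit 0x1568541) (nat_lit 0x0) (nat_lit 0x5fde41ae2f554ed)
  (PL.C (nat_lit 0x156d528) (nat_lit 0xac7be9c24f3d2) (nat_lit 0x0)
  (PL.C (nat_lit 0x157c1fa) (nat_lit 0x0) (nat_lit 0x60914e2472ce7d)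
  (PL.C (nat_lit 0x1586e06) (nat_lit 0x0) (nat_lit 0x823343e818e93b)
  (PL.C (nat_lit 0x15932a6) (nat_lit 0x59d5ec31e04401) (nat_lit 0x0)
  (PL.C (nat_lit 0x159818a) (nat_lit 0x15b14807312d1a7) (nat_lit 0x0)
  (PL.C (nat_lit 0x15a2e76) (nat_lit 0x1459287d090ce8) (nat_lit 0x0)
  (PL.C (nat_lit 0x15a89f8) (nat_lit 0x0) (nat_lit 0x26c1d7579d0ad)
  (PL.C (nat_lit 0x15b132a) (nat_lit 0x248f19934a57ba) (nat_lit 0x0)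
  (PL.C (nat_lit 0x15bbe12) (nat_lit 0x13172d658591e95) (nat_lit 0x0)
  (PL.C (nat_lit 0x15c520c) (nat_lit 0x0) (nat_lit 0xa6d74ce873156c) gp0_1_64))))))))))))))))))))

noncomputable def gp0_1_62 : PL :=
  (PL.C (nat_lit 0x1450dde) (nat_lit 0x1e3da86cca109) (nat_lit 0x0)
  (PL.C (nat_lit 0x14553ec) (nat_lit 0xd2afae46894f7d) (nat_lit 0x0)
  (PL.C (nat_lit 0x1459cb6) (nat_lit 0x0) (nat_lit 0xba38b725887e658)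
  (PL.C (nat_lit 0x146b0d4) (nat_lit 0x0) (nat_lit 0x184dae19cd61ba)
  (PL.C (nat_lit 0x14744a6) (nat_lit 0x5ea5856b607ae6) (nat_lit 0x0)
  (PL.C (nat_lit 0x1479177) (nat_lit 0xdc1fae00829c5) (nat_lit 0x0)
  (PL.C (nat_lit 0x148917a) (nat_lit 0x0) (nat_lit 0x1719be8475f1d71)
  (PL.C (nat_lit 0x148a841) (nat_lit 0x0) (nat_lit 0x7158d75c35fdcc)
  (PL.C (nat_lit 0x149ed4f) (nat_lit 0x2502dc6ab2dccdd) (nat_lit 0x0)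
  (PL.C (nat_lit 0x14cb8bd) (nat_lit 0x0) (nat_lit 0x1c66a7576b9a7f0)
  (PL.C (nat_lit 0x14d5f43) (nat_lit 0x0) (nat_lit 0x1125d31f9d0a70c)
  (PL.C (nat_lit 0x14e1d93) (nat_lit 0x5b71fa0838510) (nat_lit 0x0)
  (PL.C (nat_lit 0x14e4e62) (nat_lit 0x21e488f470e5f1b) (nat_lit 0x0)
  (PL.C (nat_lit 0x14f6e96) (nat_lit 0x0) (nat_lit 0x3ffe07fa23a0ffe)
  (PL.C (nat_lit 0x1509cbc) (nat_lit 0x13e8b5679eeb636) (nat_lit 0x0)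
  (PL.C (nat_lit 0x150ee23) (nat_lit 0xa6e22fc2373945) (nat_lit 0x0)
  (PL.C (nat_lit 0x15127b9) (nat_lit 0xa4e057cabca2) (nat_lit 0x0)
  (PL.C (nat_lit 0x151ef4e) (nat_lit 0xe420e15c6ff8f7) (nat_lit 0x0)
  (PL.C (nat_lit 0x1523d3c) (nat_lit 0x50e9331ab78bf3) (nat_lit 0x0)
  (PL.C (nat_lit 0x15308d6) (nat_lit 0x16e08d48a2845f) (nat_lit 0x0) gp0_1_63))))))))))))))))))))

noncomputable def gp0_1_61 : PL :=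
  (PL.C (nat_lit 0x13c92b8) (nat_lit 0x0) (nat_lit 0x1af7425ca8b500)
  (PL.C (nat_lit 0x13cccb9) (nat_lit 0x0) (nat_lit 0xc8cdd7272ebab)
  (PL.C (nat_lit 0x13d6b47) (nat_lit 0x38228591643aa5) (nat_lit 0x0)
  (PL.C (nat_lit 0x13d8622) (nat_lit 0x0) (nat_lit 0x428c87b0e08526)
  (PL.C (nat_lit 0x13d9c25) (nat_lit 0x0) (nat_lit 0x352a23d4e73e764)
  (PL.C (nat_lit 0x13deab4) (nat_lit 0x0) (nat_lit 0x126903549f7721d)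
  (PL.C (nat_lit 0x13eddca) (nat_lit 0x0) (nat_lit 0x463eda8e45a089)
  (PL.C (nat_lit 0x13f615e) (nat_lit 0x6ff3f60c06ad161) (nat_lit 0x0)
  (PL.C (nat_lit 0x140b2ed) (nat_lit 0x9ccd82ca10e1f8) (nat_lit 0x0)
  (PL.C (nat_lit 0x140d20a) (nat_lit 0x0) (nat_lit 0x60914e20b177d9)
  (PL.C (nat_lit 0x1414cee) (nat_lit 0x0) (nat_lit 0x400d7f45d055749)
  (PL.C (nat_lit 0x14158b6) (nat_lit 0x0) (nat_lit 0xaba95505a6d8b)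
  (PL.C (nat_lit 0x1422132) (nat_lit 0x5d0b1ee85e17e93) (nat_lit 0x0)
  (PL.C (nat_lit 0x1429864) (nat_lit 0x0) (nat_lit 0x1f7b9688e3cbf15)
  (PL.C (nat_lit 0x142aa0d) (nat_lit 0x0) (nat_lit 0xd92d21d8d1554e3)
  (PL.C (nat_lit 0x142fb2d) (nat_lit 0x0) (nat_lit 0x11e5e30f6a6b7a)
  (PL.C (nat_lit 0x14311aa) (nat_lit 0x0) (nat_lit 0x98e608d8e798e)
  (PL.C (nat_lit 0x1439cd3) (nat_lit 0x14634d4fbc8f8c5) (nat_lit 0x0)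
  (PL.C (nat_lit 0x144282e) (nat_lit 0x0) (nat_lit 0x11c34a85ccc76c0)
  (PL.C (nat_lit 0x144c5c1) (nat_lit 0x0) (nat_lit 0xdaa556b0520aa) gp0_1_62))))))))))))))))))))

noncomputable def gp0_1_60 : PL :=
  (PL.C (nat_lit 0x133ebbc) (nat_lit 0x3823163baf5580) (nat_lit 0x0)
  (PL.C (nat_lit 0x1340aea) (nat_lit 0x0) (nat_lit 0x18ad230fa6bed98)
  (PL.C (nat_lit 0x13427b4) (nat_lit 0x299a7591aab4033) (nat_lit 0x0)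
  (PL.C (nat_lit 0x1348611) (nat_lit 0x0) (nat_lit 0x1478186bd70c57)
  (PL.C (nat_lit 0x134a516) (nat_lit 0x0) (nat_lit 0x10a8bb31ad1a136)
  (PL.C (nat_lit 0x1353d48) (nat_lit 0x0) (nat_lit 0x181db72a3fcd25)
  (PL.C (nat_lit 0x135c27c) (nat_lit 0x0) (nat_lit 0x121da9d06d721f)
  (PL.C (nat_lit 0x1365d84) (nat_lit 0x0) (nat_lit 0x91f871185b6d8)
  (PL.C (nat_lit 0x1368d4c) (nat_lit 0x310ef17f772df73) (nat_lit 0x0)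
  (PL.C (nat_lit 0x139df08) (nat_lit 0x0) (nat_lit 0x3007814f915439)
  (PL.C (nat_lit 0x139f287) (nat_lit 0x0) (nat_lit 0x3bf663f9d08ab6)
  (PL.C (nat_lit 0x13a894a) (nat_lit 0xa12357db120e10) (nat_lit 0x0)
  (PL.C (nat_lit 0x13aaace) (nat_lit 0x0) (nat_lit 0x1bc75661194b151)
  (PL.C (nat_lit 0x13b26b6) (nat_lit 0x6d9f44e1a56481) (nat_lit 0x0)
  (PL.C (nat_lit 0x13b289b) (nat_lit 0x145d4e47467ae9e) (nat_lit 0x0)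
  (PL.C (nat_lit 0x13b4958) (nat_lit 0x0) (nat_lit 0xab0b7c384680dc)
  (PL.C (nat_lit 0x13b5916) (nat_lit 0x0) (nat_lit 0x1a32cb02dd3d1c7)
  (PL.C (nat_lit 0x13bf6ea) (nat_lit 0x0) (nat_lit 0x80d190b3c3535a)
  (PL.C (nat_lit 0x13c447e) (nat_lit 0x0) (nat_lit 0x53543e7f73dd5b)
  (PL.C (nat_lit 0x13c6bd4) (nat_lit 0x0) (nat_lit 0xa9580c2a80190) gp0_1_61))))))))))))))))))))

noncomputable def gp0_1_59 : PL :=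
  (PL.C (nat_lit 0x12b32a1) (nat_lit 0x0) (nat_lit 0x2475730bf408322)
  (PL.C (nat_lit 0x12c13bf) (nat_lit 0x0) (nat_lit 0x134b83b0097e8a3)
  (PL.C (nat_lit 0x12c1cfc) (nat_lit 0x236da97abb80901) (nat_lit 0x0)
  (PL.C (nat_lit 0x12c280a) (nat_lit 0x2632ce8fe23411) (nat_lit 0x0)
  (PL.C (nat_lit 0x12d7034) (nat_lit 0x0) (nat_lit 0x184dae2aa79aea)
  (PL.C (nat_lit 0x12decab) (nat_lit 0x0) (nat_lit 0x3f15c117a4388)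
  (PL.C (nat_lit 0x12e41e4) (nat_lit 0x6a6d4be6041cee) (nat_lit 0x0)
  (PL.C (nat_lit 0x12ea909) (nat_lit 0x0) (nat_lit 0xcc3eae11bfdb3b)
  (PL.C (nat_lit 0x12eb7be) (nat_lit 0x142b51309c816c6) (nat_lit 0x0)
  (PL.C (nat_lit 0x12f66be) (nat_lit 0x0) (nat_lit 0x3ca91065ff37d5b)
  (PL.C (nat_lit 0x12f9ecc) (nat_lit 0x26c846a34b22703) (nat_lit 0x0)
  (PL.C (nat_lit 0x1302ab3) (nat_lit 0x0) (nat_lit 0xf058ca704370b)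
  (PL.C (nat_lit 0x1305722) (nat_lit 0x6e2adb7acfeec9) (nat_lit 0x0)
  (PL.C (nat_lit 0x13090a7) (nat_lit 0x2c2cd5716f196e) (nat_lit 0x0)
  (PL.C (nat_lit 0x130ac22) (nat_lit 0xa6697356b6621b) (nat_lit 0x0)
  (PL.C (nat_lit 0x130dbfc) (nat_lit 0x0) (nat_lit 0xe7fcde27681c6)
  (PL.C (nat_lit 0x131eeab) (nat_lit 0x0) (nat_lit 0x9ab75ca0f556e4)
  (PL.C (nat_lit 0x132f669) (nat_lit 0x0) (nat_lit 0x59f2c8dd0723c05)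
  (PL.C (nat_lit 0x132f884) (nat_lit 0x11d702f16c1fbf) (nat_lit 0x0)
  (PL.C (nat_lit 0x1333b04) (nat_lit 0x0) (nat_lit 0x61dcefd49445bb) gp0_1_60))))))))))))))))))))

noncomputable def gp0_1_58 : PL :=
  (PL.C (nat_lit 0x123a932) (nat_lit 0xe420e14a7e8128) (nat_lit 0x0)
  (PL.C (nat_lit 0x123c846) (nat_lit 0x0) (nat_lit 0x91c6a3158d6faa)
  (PL.C (nat_lit 0x1242cc7) (nat_lit 0x0) (nat_lit 0x5e96fe46226bc8e)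
  (PL.C (nat_lit 0x12445f5) (nat_lit 0x10fe4f02b070e1a) (nat_lit 0x0)
  (PL.C (nat_lit 0x124ea78) (nat_lit 0x0) (nat_lit 0x25e98886e82703)
  (PL.C (nat_lit 0x12533f6) (nat_lit 0x0) (nat_lit 0x11c34a85dc62dc8)
  (PL.C (nat_lit 0x12568a4) (nat_lit 0x0) (nat_lit 0x24b905c1c51fccf)
  (PL.C (nat_lit 0x125c27d) (nat_lit 0xdc1fae861b85c) (nat_lit 0x0)
  (PL.C (nat_lit 0x1265583) (nat_lit 0xa851d3a0d9978) (nat_lit 0x0)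
  (PL.C (nat_lit 0x1266e6a) (nat_lit 0x4d195200bd7735) (nat_lit 0x0)
  (PL.C (nat_lit 0x127ef3c) (nat_lit 0xd9167e98f8fd69) (nat_lit 0x0)
  (PL.C (nat_lit 0x1282716) (nat_lit 0x0) (nat_lit 0x6cecca589a6306)
  (PL.C (nat_lit 0x12849db) (nat_lit 0x0) (nat_lit 0xdaa5568181fc8)
  (PL.C (nat_lit 0x1286cf6) (nat_lit 0x0) (nat_lit 0x7c9d2bacc0f0229)
  (PL.C (nat_lit 0x128de25) (nat_lit 0x1294fe96a3783e) (nat_lit 0x0)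
  (PL.C (nat_lit 0x1296854) (nat_lit 0x16e270b0379b41) (nat_lit 0x0)
  (PL.C (nat_lit 0x1297cf2) (nat_lit 0x0) (nat_lit 0x3318802fb312501)
  (PL.C (nat_lit 0x129cc04) (nat_lit 0x13e8b566cd749f0) (nat_lit 0x0)
  (PL.C (nat_lit 0x129eee6) (nat_lit 0x0) (nat_lit 0x10e507906daaf7)
  (PL.C (nat_lit 0x12ab3ba) (nat_lit 0x0) (nat_lit 0x2044cc41fe1ad2c) gp0_1_59))))))))))))))))))))

noncomputable def gp0_1_57 : PL :=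
  (PL.C (nat_lit 0x11955f6) (nat_lit 0x0) (nat_lit 0x1e6c7e98ef791d0)
  (PL.C (nat_lit 0x11997ff) (nat_lit 0x892aec3e103e7e) (nat_lit 0x0)
  (PL.C (nat_lit 0x11a3f38) (nat_lit 0x0) (nat_lit 0x43ce65ae9ab43e)
  (PL.C (nat_lit 0x11b9f17) (nat_lit 0x0) (nat_lit 0x1d9fd8a3ba5b1eb)
  (PL.C (nat_lit 0x11c6bef) (nat_lit 0x0) (nat_lit 0x5cf9ada899bc40)
  (PL.C (nat_lit 0x11d2df8) (nat_lit 0x0) (nat_lit 0x9880f9940460d0)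
  (PL.C (nat_lit 0x11d4506) (nat_lit 0x15b148070cd959b) (nat_lit 0x0)
  (PL.C (nat_lit 0x11e32ae) (nat_lit 0x7b3a6afcadaa72) (nat_lit 0x0)
  (PL.C (nat_lit 0x11ee8bb) (nat_lit 0x0) (nat_lit 0x457008814c407c)
  (PL.C (nat_lit 0x11f62d2) (nat_lit 0x0) (nat_lit 0x1760aba386b515a)
  (PL.C (nat_lit 0x11fc428) (nat_lit 0x0) (nat_lit 0x168b32fc720849)
  (PL.C (nat_lit 0x11fcb14) (nat_lit 0x0) (nat_lit 0x7d27c570383d32)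
  (PL.C (nat_lit 0x120a962) (nat_lit 0x16e08d47dc6684) (nat_lit 0x0)
  (PL.C (nat_lit 0x1212405) (nat_lit 0xb380d413b74c6c) (nat_lit 0x0)
  (PL.C (nat_lit 0x121a44b) (nat_lit 0x0) (nat_lit 0x786513d76facc1)
  (PL.C (nat_lit 0x1222f62) (nat_lit 0x0) (nat_lit 0x5250cc7d8f66142)
  (PL.C (nat_lit 0x122454c) (nat_lit 0x0) (nat_lit 0xfee50321877d0a)
  (PL.C (nat_lit 0x122815e) (nat_lit 0x0) (nat_lit 0x697aece0d4b98c)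
  (PL.C (nat_lit 0x122c09e) (nat_lit 0x13dee46aae28388) (nat_lit 0x0)
  (PL.C (nat_lit 0x122c45c) (nat_lit 0x0) (nat_lit 0x2dc6eff76befa2) gp0_1_58))))))))))))))))))))

noncomputable def gp0_1_56 : PL :=
  (PL.C (nat_lit 0x1131201) (nat_lit 0x0) (nat_lit 0x1c2923e657531e)
  (PL.C (nat_lit 0x1131f27) (nat_lit 0x0) (nat_lit 0x147d59e4cd59ef)
  (PL.C (nat_lit 0x113a8d9) (nat_lit 0x0) (nat_lit 0x5bd768095784e0)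
  (PL.C (nat_lit 0x113c724) (nat_lit 0xc58ca1ff8beaa) (nat_lit 0x0)
  (PL.C (nat_lit 0x1142394) (nat_lit 0x0) (nat_lit 0x1e0558c9351f76)
  (PL.C (nat_lit 0x1149a86) (nat_lit 0x158ba81f68eb) (nat_lit 0x0)
  (PL.C (nat_lit 0x1155ce2) (nat_lit 0x140870b77320e4c) (nat_lit 0x0)
  (PL.C (nat_lit 0x115a685) (nat_lit 0x1604b10e7be728) (nat_lit 0x0)
  (PL.C (nat_lit 0x115b9da) (nat_lit 0x13778f2e19530c2) (nat_lit 0x0)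
  (PL.C (nat_lit 0x11619e4) (nat_lit 0x2061f74bbdcdac) (nat_lit 0x0)
  (PL.C (nat_lit 0x116317b) (nat_lit 0x1f67a6aa4bf57c9) (nat_lit 0x0)
  (PL.C (nat_lit 0x11640db) (nat_lit 0x2f621fdd00997a) (nat_lit 0x0)
  (PL.C (nat_lit 0x116d04b) (nat_lit 0x0) (nat_lit 0x5cf9ad881369dd)
  (PL.C (nat_lit 0x116ee28) (nat_lit 0x0) (nat_lit 0x9880f99aeadf96)
  (PL.C (nat_lit 0x117d688) (nat_lit 0x0) (nat_lit 0x43ce65c2319842)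
  (PL.C (nat_lit 0x117e986) (nat_lit 0x0) (nat_lit 0xe3d39a878d2ab3)
  (PL.C (nat_lit 0x118a60d) (nat_lit 0x2f621fe8222ec9) (nat_lit 0x0)
  (PL.C (nat_lit 0x118de71) (nat_lit 0x0) (nat_lit 0x1c66a757d64eac2)
  (PL.C (nat_lit 0x118fe4c) (nat_lit 0x330e2eea1c54c7) (nat_lit 0x0)
  (PL.C (nat_lit 0x11909cd) (nat_lit 0x3ebe362dc8af11) (nat_lit 0x0) gp0_1_57))))))))))))))))))))

noncomputable def gp0_1_55 : PL :=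
  (PL.C (nat_lit 0x10793fa) (nat_lit 0x0) (nat_lit 0x16de78aaad93b68)
  (PL.C (nat_lit 0x10a33ee) (nat_lit 0x158ba0283b7c) (nat_lit 0x0)
  (PL.C (nat_lit 0x10adce4) (nat_lit 0xb6184f7d93630) (nat_lit 0x0)
  (PL.C (nat_lit 0x10bb81a) (nat_lit 0x666af4c88c1fae3) (nat_lit 0x0)
  (PL.C (nat_lit 0x10c0a2a) (nat_lit 0x0) (nat_lit 0x36b468ebae5a2b)
  (PL.C (nat_lit 0x10c6402) (nat_lit 0xd14135a1ec6bbd) (nat_lit 0x0)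
  (PL.C (nat_lit 0x10d0204) (nat_lit 0x0) (nat_lit 0x2aa95e10393e7e)
  (PL.C (nat_lit 0x10d14aa) (nat_lit 0x0) (nat_lit 0x1da4b83c2e88f23)
  (PL.C (nat_lit 0x10d28fc) (nat_lit 0x43baa8d5fba9b2) (nat_lit 0x0)
  (PL.C (nat_lit 0x10d9b56) (nat_lit 0x0) (nat_lit 0x1d14b9ab3712cd5)
  (PL.C (nat_lit 0x10e2048) (nat_lit 0x0) (nat_lit 0x1cc2891aec5be43)
  (PL.C (nat_lit 0x10e80de) (nat_lit 0x6b24dd6d80ee4c) (nat_lit 0x0)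
  (PL.C (nat_lit 0x10eed03) (nat_lit 0x21d2a73903cd1ac) (nat_lit 0x0)
  (PL.C (nat_lit 0x10f7a24) (nat_lit 0xb6184f060b8fc) (nat_lit 0x0)
  (PL.C (nat_lit 0x10fe10e) (nat_lit 0x0) (nat_lit 0x4981e5e873fed5)
  (PL.C (nat_lit 0x10fed7a) (nat_lit 0x15a4347d9ed666c) (nat_lit 0x0)
  (PL.C (nat_lit 0x1106101) (nat_lit 0x0) (nat_lit 0x97f4538e167df07)
  (PL.C (nat_lit 0x1121cfa) (nat_lit 0x58a65240f82ad) (nat_lit 0x0)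
  (PL.C (nat_lit 0x112a09c) (nat_lit 0x2674da86e85f991) (nat_lit 0x0)
  (PL.C (nat_lit 0x112de0e) (nat_lit 0x0) (nat_lit 0x451f949e8a05975) gp0_1_56))))))))))))))))))))

noncomputable def gp0_1_54 : PL :=
  (PL.C (nat_lit 0xfecedc) (nat_lit 0x1c3a290fb318a01) (nat_lit 0x0)
  (PL.C (nat_lit 0xfee086) (nat_lit 0x0) (nat_lit 0x19b6a310a184c74)
  (PL.C (nat_lit 0xff1ce3) (nat_lit 0x0) (nat_lit 0x201a5aedbbf8f5)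
  (PL.C (nat_lit 0xff33bd) (nat_lit 0x20d49876e5755f5) (nat_lit 0x0)
  (PL.C (nat_lit 0x1001e36) (nat_lit 0x493bccde0e27cbc) (nat_lit 0x0)
  (PL.C (nat_lit 0x100c76a) (nat_lit 0x0) (nat_lit 0x4d3ed7a9b90e63)
  (PL.C (nat_lit 0x101f607) (nat_lit 0x0) (nat_lit 0xaff8966f4fa197)
  (PL.C (nat_lit 0x102076e) (nat_lit 0xd0be1afb3a1aa0) (nat_lit 0x0)
  (PL.C (nat_lit 0x1028892) (nat_lit 0x0) (nat_lit 0x4cfacd28261196)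
  (PL.C (nat_lit 0x1031fcd) (nat_lit 0x3f4c9848b1cd8eb) (nat_lit 0x0)
  (PL.C (nat_lit 0x1032194) (nat_lit 0x0) (nat_lit 0x81737bea866e25)
  (PL.C (nat_lit 0x103830f) (nat_lit 0x3a8f6a013651cf1) (nat_lit 0x0)
  (PL.C (nat_lit 0x1038c93) (nat_lit 0x7539f3765b9dc) (nat_lit 0x0)
  (PL.C (nat_lit 0x1042184) (nat_lit 0x60bd78aed1570af) (nat_lit 0x0)
  (PL.C (nat_lit 0x1042e81) (nat_lit 0x0) (nat_lit 0x182f2478fe84f89)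
  (PL.C (nat_lit 0x1044988) (nat_lit 0x22c02d548862f5) (nat_lit 0x0)
  (PL.C (nat_lit 0x1049961) (nat_lit 0x0) (nat_lit 0x2f95b8a865b2bf)
  (PL.C (nat_lit 0x105d1af) (nat_lit 0x9c53707afbef31) (nat_lit 0x0)
  (PL.C (nat_lit 0x106fe93) (nat_lit 0x0) (nat_lit 0x159ebd6fcacea1b)
  (PL.C (nat_lit 0x10730f8) (nat_lit 0x0) (nat_lit 0xc21b6b7686a19) gp0_1_55))))))))))))))))))))

noncomputable def gp0_1_53 : PL :=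
  (PL.C (nat_lit 0xf881a4) (nat_lit 0x0) (nat_lit 0xeb60d4ba68f6b0)
  (PL.C (nat_lit 0xf8b48e) (nat_lit 0xa6697370a92232) (nat_lit 0x0)
  (PL.C (nat_lit 0xf8cdbd) (nat_lit 0x1c649c0926effc) (nat_lit 0x0)
  (PL.C (nat_lit 0xf94a43) (nat_lit 0x0) (nat_lit 0x71d4b93ffe1979)
  (PL.C (nat_lit 0xf97194) (nat_lit 0x2e35d756dae578) (nat_lit 0x0)
  (PL.C (nat_lit 0xf987ec) (nat_lit 0xcdfc337f994f70) (nat_lit 0x0)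
  (PL.C (nat_lit 0xf9d893) (nat_lit 0x0) (nat_lit 0x3f15c10ef483a)
  (PL.C (nat_lit 0xf9ee6c) (nat_lit 0x0) (nat_lit 0x18512915455c0b)
  (PL.C (nat_lit 0xfad496) (nat_lit 0x0) (nat_lit 0x208a3bac3122bbf)
  (PL.C (nat_lit 0xfb6314) (nat_lit 0x0) (nat_lit 0x858728b588d7e1)
  (PL.C (nat_lit 0xfc1534) (nat_lit 0x0) (nat_lit 0x1616ebc9a2ca90)
  (PL.C (nat_lit 0xfc3a84) (nat_lit 0x15cda2d5ccaaaa) (nat_lit 0x0)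
  (PL.C (nat_lit 0xfc4b88) (nat_lit 0x0) (nat_lit 0xab0b7c33ecc864)
  (PL.C (nat_lit 0xfd5dac) (nat_lit 0x0) (nat_lit 0x41d9658d7b58b8e)
  (PL.C (nat_lit 0xfdd26b) (nat_lit 0x0) (nat_lit 0x4be5ffea6e82e3)
  (PL.C (nat_lit 0xfe0c6d) (nat_lit 0x0) (nat_lit 0x8b6c5d64dcf831)
  (PL.C (nat_lit 0xfe277f) (nat_lit 0x0) (nat_lit 0x352a23d593ee669)
  (PL.C (nat_lit 0xfe665c) (nat_lit 0x0) (nat_lit 0x61e6db39bb65e7)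
  (PL.C (nat_lit 0xfe8b93) (nat_lit 0x0) (nat_lit 0x82b24716e6ceab)
  (PL.C (nat_lit 0xfea78c) (nat_lit 0x0) (nat_lit 0xee382020499251) gp0_1_54))))))))))))))))))))

noncomputable def gp0_1_52 : PL :=
  (PL.C (nat_lit 0xef3343) (nat_lit 0x1b96da4bbdc4e3) (nat_lit 0x0)
  (PL.C (nat_lit 0xef6bb3) (nat_lit 0x4f67dce8f89decf) (nat_lit 0x0)
  (PL.C (nat_lit 0xf036ba) (nat_lit 0x0) (nat_lit 0x406a8d5b1a21a2)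
  (PL.C (nat_lit 0xf04761) (nat_lit 0x0) (nat_lit 0x1efdc00b5e836a)
  (PL.C (nat_lit 0xf0a36b) (nat_lit 0x145d4e473d5ac34) (nat_lit 0x0)
  (PL.C (nat_lit 0xf14265) (nat_lit 0x36934a367745c3) (nat_lit 0x0)
  (PL.C (nat_lit 0xf19825) (nat_lit 0x103640b97cc65c1) (nat_lit 0x0)
  (PL.C (nat_lit 0xf2662e) (nat_lit 0x0) (nat_lit 0x223d65671da22fa)
  (PL.C (nat_lit 0xf3782a) (nat_lit 0x17e23b18cf78cd) (nat_lit 0x0)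
  (PL.C (nat_lit 0xf3c014) (nat_lit 0x0) (nat_lit 0x11d74a1956cd48)
  (PL.C (nat_lit 0xf468a2) (nat_lit 0x5ea5856896089f) (nat_lit 0x0)
  (PL.C (nat_lit 0xf480b7) (nat_lit 0x20bae3a6ed8782) (nat_lit 0x0)
  (PL.C (nat_lit 0xf53b56) (nat_lit 0x0) (nat_lit 0x16359c6efd53648)
  (PL.C (nat_lit 0xf597f6) (nat_lit 0x0) (nat_lit 0x1b481e114e14583)
  (PL.C (nat_lit 0xf5d039) (nat_lit 0x39e49db1b622564) (nat_lit 0x0)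
  (PL.C (nat_lit 0xf68c38) (nat_lit 0x4d144e26c78d0) (nat_lit 0x0)
  (PL.C (nat_lit 0xf6a423) (nat_lit 0x8c3c44ca679e107) (nat_lit 0x0)
  (PL.C (nat_lit 0xf7824e) (nat_lit 0xd2186dea000f4c) (nat_lit 0x0)
  (PL.C (nat_lit 0xf825d2) (nat_lit 0x5b11a6ec2b17aa) (nat_lit 0x0)
  (PL.C (nat_lit 0xf8672c) (nat_lit 0x26c846a2f58df69) (nat_lit 0x0) gp0_1_53))))))))))))))))))))

noncomputable def gp0_1_51 : PL :=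
  (PL.C (nat_lit 0xe8c63c) (nat_lit 0x6a6d4bed604b1e) (nat_lit 0x0)
  (PL.C (nat_lit 0xe92659) (nat_lit 0x6eec4ae95fc1f2) (nat_lit 0x0)
  (PL.C (nat_lit 0xe97f1e) (nat_lit 0x0) (nat_lit 0x19193b6ed15f69b)
  (PL.C (nat_lit 0xe9c32a) (nat_lit 0x0) (nat_lit 0x29bd93aa1a31e06)
  (PL.C (nat_lit 0xea6159) (nat_lit 0x3f4c984e54662d0) (nat_lit 0x0)
  (PL.C (nat_lit 0xea6758) (nat_lit 0x0) (nat_lit 0x1af74263380ba9)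
  (PL.C (nat_lit 0xead6a7) (nat_lit 0x0) (nat_lit 0x2fd39bf9b59f56d)
  (PL.C (nat_lit 0xeb4a74) (nat_lit 0x60bd78afef37dd2) (nat_lit 0x0)
  (PL.C (nat_lit 0xeb5cb7) (nat_lit 0xa6e22f8aa9991c) (nat_lit 0x0)
  (PL.C (nat_lit 0xeb9281) (nat_lit 0x0) (nat_lit 0x3ab0e4b5af5f14)
  (PL.C (nat_lit 0xebab9b) (nat_lit 0x16039d3867fde62) (nat_lit 0x0)
  (PL.C (nat_lit 0xec46cc) (nat_lit 0x50e933246b8124) (nat_lit 0x0)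
  (PL.C (nat_lit 0xec4a1e) (nat_lit 0x6aa36533047ec9b) (nat_lit 0x0)
  (PL.C (nat_lit 0xec6be8) (nat_lit 0x0) (nat_lit 0x30078159c8c040)
  (PL.C (nat_lit 0xed61f4) (nat_lit 0xcc41be3e6a02c5) (nat_lit 0x0)
  (PL.C (nat_lit 0xed8cfd) (nat_lit 0x0) (nat_lit 0x103521c297c7fb0)
  (PL.C (nat_lit 0xee0d76) (nat_lit 0x0) (nat_lit 0x1cd24783fcfe2e1)
  (PL.C (nat_lit 0xee0f18) (nat_lit 0x0) (nat_lit 0xd22f5abd062e7)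
  (PL.C (nat_lit 0xeefa38) (nat_lit 0x0) (nat_lit 0x1cc2891aace8ddd)
  (PL.C (nat_lit 0xef11c4) (nat_lit 0x0) (nat_lit 0xc0740b0f336b13) gp0_1_52))))))))))))))))))))

noncomputable def gp0_1_50 : PL :=
  (PL.C (nat_lit 0xe09ec2) (nat_lit 0x11d306efbac4b11) (nat_lit 0x0)
  (PL.C (nat_lit 0xe0c526) (nat_lit 0x70b3cea6c92249) (nat_lit 0x0)
  (PL.C (nat_lit 0xe14a34) (nat_lit 0x125492e51046860) (nat_lit 0x0)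
  (PL.C (nat_lit 0xe17e28) (nat_lit 0x16b93663f05409) (nat_lit 0x0)
  (PL.C (nat_lit 0xe295aa) (nat_lit 0x493bccdf02f0ba1) (nat_lit 0x0)
  (PL.C (nat_lit 0xe30acc) (nat_lit 0x0) (nat_lit 0x2cfdf95819d5667)
  (PL.C (nat_lit 0xe361c4) (nat_lit 0x0) (nat_lit 0x5d8297161aac4a)
  (PL.C (nat_lit 0xe3bfa7) (nat_lit 0xa4e05afd0e31) (nat_lit 0x0)
  (PL.C (nat_lit 0xe44ec8) (nat_lit 0x22c02d4f73fbf8) (nat_lit 0x0)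
  (PL.C (nat_lit 0xe458d6) (nat_lit 0x0) (nat_lit 0x37f659899b876ee)
  (PL.C (nat_lit 0xe52bfc) (nat_lit 0xad75cff3110c9d) (nat_lit 0x0)
  (PL.C (nat_lit 0xe621c4) (nat_lit 0x2061f7445f3a67) (nat_lit 0x0)
  (PL.C (nat_lit 0xe6565c) (nat_lit 0x16af3514a85afc0) (nat_lit 0x0)
  (PL.C (nat_lit 0xe668fb) (nat_lit 0x0) (nat_lit 0x3ab0e4a672c322)
  (PL.C (nat_lit 0xe6c9a4) (nat_lit 0x0) (nat_lit 0xe7fcddce2af99)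
  (PL.C (nat_lit 0xe728ef) (nat_lit 0x6eec4aeb4863e6) (nat_lit 0x0)
  (PL.C (nat_lit 0xe7d40c) (nat_lit 0xd2afae4a49d477) (nat_lit 0x0)
  (PL.C (nat_lit 0xe833c5) (nat_lit 0x1c649c014d97d3) (nat_lit 0x0)
  (PL.C (nat_lit 0xe86d34) (nat_lit 0x5e93152ec91a0) (nat_lit 0x0)
  (PL.C (nat_lit 0xe88cb7) (nat_lit 0x0) (nat_lit 0x1432eba7824d77) gp0_1_51))))))))))))))))))))

noncomputable def gp0_1_49 : PL :=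
  (PL.C (nat_lit 0xd87e5d) (nat_lit 0xd33ffb29e01a) (nat_lit 0x0)
  (PL.C (nat_lit 0xd883d6) (nat_lit 0x4a97c193f8e931) (nat_lit 0x0)
  (PL.C (nat_lit 0xd91324) (nat_lit 0x352adbfaa318efd) (nat_lit 0x0)
  (PL.C (nat_lit 0xd9559d) (nat_lit 0x0) (nat_lit 0x6f68079957c3c9)
  (PL.C (nat_lit 0xd9c263) (nat_lit 0x0) (nat_lit 0x1ba502b77518201)
  (PL.C (nat_lit 0xd9cb38) (nat_lit 0x0) (nat_lit 0x3215fb2028b6f0)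
  (PL.C (nat_lit 0xda2dc4) (nat_lit 0x163311ff81f7038) (nat_lit 0x0)
  (PL.C (nat_lit 0xda60fa) (nat_lit 0x1ff31c9d0356c7) (nat_lit 0x0)
  (PL.C (nat_lit 0xdabdc1) (nat_lit 0x6f2e22ac3633d5) (nat_lit 0x0)
  (PL.C (nat_lit 0xdb118b) (nat_lit 0xfec88559bf83e7) (nat_lit 0x0)
  (PL.C (nat_lit 0xdb1ad6) (nat_lit 0xfba04a77804048) (nat_lit 0x0)
  (PL.C (nat_lit 0xdba245) (nat_lit 0x0) (nat_lit 0xaff89647a13c2d)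
  (PL.C (nat_lit 0xdbf38a) (nat_lit 0x3ab567f76b257dd) (nat_lit 0x0)
  (PL.C (nat_lit 0xddd07e) (nat_lit 0x3ce6bab22664ab) (nat_lit 0x0)
  (PL.C (nat_lit 0xde021f) (nat_lit 0x3802fde8e6076e5) (nat_lit 0x0)
  (PL.C (nat_lit 0xde3f82) (nat_lit 0x2632ce965cfc7c) (nat_lit 0x0)
  (PL.C (nat_lit 0xdebe62) (nat_lit 0x17e23b091203c4) (nat_lit 0x0)
  (PL.C (nat_lit 0xdedeec) (nat_lit 0x3af1dbe99bf569) (nat_lit 0x0)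
  (PL.C (nat_lit 0xdf16d7) (nat_lit 0x8c3c44c985fe993) (nat_lit 0x0)
  (PL.C (nat_lit 0xe00619) (nat_lit 0x9ccd828ef2e689) (nat_lit 0x0) gp0_1_50))))))))))))))))))))

noncomputable def gp0_1_48 : PL :=
  (PL.C (nat_lit 0xd23b64) (nat_lit 0x0) (nat_lit 0x13daceac00f08d2)
  (PL.C (nat_lit 0xd2708f) (nat_lit 0x0) (nat_lit 0x6a2798f971e611)
  (PL.C (nat_lit 0xd2d854) (nat_lit 0x0) (nat_lit 0x1e0558b8a84fed)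
  (PL.C (nat_lit 0xd32f63) (nat_lit 0x0) (nat_lit 0x259b5edcedc1b)
  (PL.C (nat_lit 0xd33326) (nat_lit 0x0) (nat_lit 0x10fdde1fc325bf6)
  (PL.C (nat_lit 0xd39cda) (nat_lit 0xac45b3050c11d2) (nat_lit 0x0)
  (PL.C (nat_lit 0xd3bd6e) (nat_lit 0x0) (nat_lit 0x14c07f91e7c6cac)
  (PL.C (nat_lit 0xd493dc) (nat_lit 0x1bdd5e9d7b069d) (nat_lit 0x0)
  (PL.C (nat_lit 0xd4eb94) (nat_lit 0x2bda21c258b6940) (nat_lit 0x0)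
  (PL.C (nat_lit 0xd5cc9e) (nat_lit 0x0) (nat_lit 0x3a0d2d507a657c)
  (PL.C (nat_lit 0xd5e15c) (nat_lit 0xad75d0037ede8a) (nat_lit 0x0)
  (PL.C (nat_lit 0xd63b24) (nat_lit 0x0) (nat_lit 0x2eeb4de0d8b804)
  (PL.C (nat_lit 0xd674e1) (nat_lit 0x0) (nat_lit 0x373ae1418e2d71)
  (PL.C (nat_lit 0xd68bbb) (nat_lit 0x0) (nat_lit 0x16fed87aaeab90)
  (PL.C (nat_lit 0xd6c0cc) (nat_lit 0x0) (nat_lit 0x6929558b571c5f)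
  (PL.C (nat_lit 0xd7028f) (nat_lit 0xf50c9a0dcffc32) (nat_lit 0x0)
  (PL.C (nat_lit 0xd7521e) (nat_lit 0x0) (nat_lit 0x3887134509f10b2)
  (PL.C (nat_lit 0xd7611c) (nat_lit 0x0) (nat_lit 0x7fa329fbef031b)
  (PL.C (nat_lit 0xd7bde2) (nat_lit 0x6e69f50f758c8a0) (nat_lit 0x0)
  (PL.C (nat_lit 0xd83c15) (nat_lit 0x0) (nat_lit 0x4301d5accf13127) gp0_1_49))))))))))))))))))))

noncomputable def gp0_1_47 : PL :=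
  (PL.C (nat_lit 0xc9c606) (nat_lit 0x0) (nat_lit 0x6cecca5e518779)
  (PL.C (nat_lit 0xc9cfd4) (nat_lit 0xa98737bf58a8fe) (nat_lit 0x0)
  (PL.C (nat_lit 0xca1bbf) (nat_lit 0x4410db82f4ab885) (nat_lit 0x0)
  (PL.C (nat_lit 0xca9803) (nat_lit 0x161eff5e5f4218) (nat_lit 0x0)
  (PL.C (nat_lit 0xcac722) (nat_lit 0x711b45f4aaaa9) (nat_lit 0x0)
  (PL.C (nat_lit 0xcb0b1a) (nat_lit 0x0) (nat_lit 0x4981e5ebc3269a)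
  (PL.C (nat_lit 0xcb1d6c) (nat_lit 0x0) (nat_lit 0x1303831d6b0ef)
  (PL.C (nat_lit 0xcbf179) (nat_lit 0x0) (nat_lit 0x134ff995d8e96d8)
  (PL.C (nat_lit 0xcbf472) (nat_lit 0x0) (nat_lit 0x86b2f5a0e4ffc)
  (PL.C (nat_lit 0xcca446) (nat_lit 0x0) (nat_lit 0x65a2df9c6510380)
  (PL.C (nat_lit 0xcd5c9c) (nat_lit 0x0) (nat_lit 0x2cfdf95704cdc94)
  (PL.C (nat_lit 0xcdaeb6) (nat_lit 0xb3be0f570cd11a) (nat_lit 0x0)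
  (PL.C (nat_lit 0xcdc364) (nat_lit 0x290197542efd7) (nat_lit 0x0)
  (PL.C (nat_lit 0xce81a8) (nat_lit 0x0) (nat_lit 0x168b3302294398)
  (PL.C (nat_lit 0xcedd53) (nat_lit 0x0) (nat_lit 0x48bf73afa561efa)
  (PL.C (nat_lit 0xd14c5a) (nat_lit 0x0) (nat_lit 0x2fce3626873783)
  (PL.C (nat_lit 0xd1b0dc) (nat_lit 0xf97dbb14e34d6f) (nat_lit 0x0)
  (PL.C (nat_lit 0xd1c734) (nat_lit 0x4cb45374de1a4f1) (nat_lit 0x0)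
  (PL.C (nat_lit 0xd20771) (nat_lit 0x0) (nat_lit 0x1c2923eac1a75c)
  (PL.C (nat_lit 0xd21b12) (nat_lit 0x28008ab314119cc) (nat_lit 0x0) gp0_1_48))))))))))))))))))))

noncomputable def gp0_1_46 : PL :=
  (PL.C (nat_lit 0xc39b18) (nat_lit 0x0) (nat_lit 0x1a8c691dfaf7aa2)
  (PL.C (nat_lit 0xc3d6fe) (nat_lit 0x1ff31cb01a572d) (nat_lit 0x0)
  (PL.C (nat_lit 0xc43902) (nat_lit 0x0) (nat_lit 0x5943477b7ad2b0)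
  (PL.C (nat_lit 0xc4499c) (nat_lit 0x330e2ef209f3cb) (nat_lit 0x0)
  (PL.C (nat_lit 0xc54a28) (nat_lit 0x6bdb44a01413ee) (nat_lit 0x0)
  (PL.C (nat_lit 0xc58692) (nat_lit 0x4a97c19a342c61) (nat_lit 0x0)
  (PL.C (nat_lit 0xc5da7d) (nat_lit 0x0) (nat_lit 0x674e8db62d8570b)
  (PL.C (nat_lit 0xc5e96e) (nat_lit 0x0) (nat_lit 0x45a9e76ee8e51c)
  (PL.C (nat_lit 0xc61263) (nat_lit 0x69be0f2bf6035b) (nat_lit 0x0)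
  (PL.C (nat_lit 0xc63d83) (nat_lit 0x22f840bdd10e45e) (nat_lit 0x0)
  (PL.C (nat_lit 0xc6534c) (nat_lit 0x0) (nat_lit 0xdb1654f9448f98)
  (PL.C (nat_lit 0xc65d33) (nat_lit 0x293a0a3ddefa211) (nat_lit 0x0)
  (PL.C (nat_lit 0xc69f44) (nat_lit 0x299a7591b0dc60a) (nat_lit 0x0)
  (PL.C (nat_lit 0xc6f147) (nat_lit 0x16039d35f09ffd9) (nat_lit 0x0)
  (PL.C (nat_lit 0xc7227c) (nat_lit 0x0) (nat_lit 0x206757a5d34bd57)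
  (PL.C (nat_lit 0xc77716) (nat_lit 0x12f1a1152ed2860f) (nat_lit 0x0)
  (PL.C (nat_lit 0xc7e93f) (nat_lit 0x9c5370895f20af) (nat_lit 0x0)
  (PL.C (nat_lit 0xc80d2a) (nat_lit 0x0) (nat_lit 0x21bd058aa634538)
  (PL.C (nat_lit 0xc8f578) (nat_lit 0x0) (nat_lit 0x3215fb2e80e5e1)
  (PL.C (nat_lit 0xc94872) (nat_lit 0x1c9436a4608f13) (nat_lit 0x0) gp0_1_47))))))))))))))))))))

noncomputable def gp0_1_45 : PL :=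
  (PL.C (nat_lit 0xbb8ea4) (nat_lit 0x1f758f498c6589) (nat_lit 0x0)
  (PL.C (nat_lit 0xbbbaaa) (nat_lit 0x4fd138d43ce948) (nat_lit 0x0)
  (PL.C (nat_lit 0xbc5273) (nat_lit 0x0) (nat_lit 0x5e96fe455709bfe)
  (PL.C (nat_lit 0xbc97e7) (nat_lit 0xf50c99f4a771e8) (nat_lit 0x0)
  (PL.C (nat_lit 0xbd14ba) (nat_lit 0x8c690def917e6c) (nat_lit 0x0)
  (PL.C (nat_lit 0xbd9d4a) (nat_lit 0x0) (nat_lit 0x181a0a319f3c4c9)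
  (PL.C (nat_lit 0xbe2e04) (nat_lit 0x16af3515b50a946) (nat_lit 0x0)
  (PL.C (nat_lit 0xbf45d2) (nat_lit 0x0) (nat_lit 0x3ca91064925ec8e)
  (PL.C (nat_lit 0xbfdcb8) (nat_lit 0x0) (nat_lit 0x344545bda5b015)
  (PL.C (nat_lit 0xc045f3) (nat_lit 0x15c3c5885bf0afa) (nat_lit 0x0)
  (PL.C (nat_lit 0xc0c2ae) (nat_lit 0x0) (nat_lit 0x4424b2ddeff1d0f)
  (PL.C (nat_lit 0xc11832) (nat_lit 0xe7c800bdf67195) (nat_lit 0x0)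
  (PL.C (nat_lit 0xc174ec) (nat_lit 0x0) (nat_lit 0x41d965899df9c8a)
  (PL.C (nat_lit 0xc18388) (nat_lit 0x0) (nat_lit 0x6c627f02cf2f46)
  (PL.C (nat_lit 0xc1ab94) (nat_lit 0x0) (nat_lit 0x8da8dbc0a16e23)
  (PL.C (nat_lit 0xc1c4cd) (nat_lit 0x197202689b2e3da) (nat_lit 0x0)
  (PL.C (nat_lit 0xc270cc) (nat_lit 0x125492e50ae1ba2) (nat_lit 0x0)
  (PL.C (nat_lit 0xc28584) (nat_lit 0x0) (nat_lit 0x10f07ab1f96d246)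
  (PL.C (nat_lit 0xc2c115) (nat_lit 0x959fe1327738f) (nat_lit 0x0)
  (PL.C (nat_lit 0xc2d94e) (nat_lit 0x0) (nat_lit 0x1b481e0e00661f7) gp0_1_46))))))))))))))))))))

noncomputable def gp0_1_44 : PL :=
  (PL.C (nat_lit 0xb58b8b) (nat_lit 0x0) (nat_lit 0x77986c1cc5eb9)
  (PL.C (nat_lit 0xb68929) (nat_lit 0x0) (nat_lit 0x4301d5a92ca486a)
  (PL.C (nat_lit 0xb6bdfc) (nat_lit 0x0) (nat_lit 0x236f4c63f190ea)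
  (PL.C (nat_lit 0xb73eb4) (nat_lit 0x0) (nat_lit 0x2526c54b5b974b0)
  (PL.C (nat_lit 0xb76156) (nat_lit 0x0) (nat_lit 0x13c19926c70cd68)
  (PL.C (nat_lit 0xb76a1a) (nat_lit 0x497e379eb23717) (nat_lit 0x0)
  (PL.C (nat_lit 0xb776d1) (nat_lit 0x15c3c586893bfef) (nat_lit 0x0)
  (PL.C (nat_lit 0xb7c5e6) (nat_lit 0x948ac17e50be2) (nat_lit 0x0)
  (PL.C (nat_lit 0xb7da18) (nat_lit 0x0) (nat_lit 0xd22f5b1c31585)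
  (PL.C (nat_lit 0xb817b8) (nat_lit 0x0) (nat_lit 0x1256feacf7a7a2)
  (PL.C (nat_lit 0xb86704) (nat_lit 0x0) (nat_lit 0x11295bf763394c)
  (PL.C (nat_lit 0xb919ae) (nat_lit 0x4003a71cc664a4a) (nat_lit 0x0)
  (PL.C (nat_lit 0xb96698) (nat_lit 0x1cbfc708451e0) (nat_lit 0x0)
  (PL.C (nat_lit 0xb97652) (nat_lit 0x0) (nat_lit 0x676adcd661f333)
  (PL.C (nat_lit 0xb98092) (nat_lit 0x65a277eec9775e) (nat_lit 0x0)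
  (PL.C (nat_lit 0xb9e032) (nat_lit 0x0) (nat_lit 0x181a0a2c93c4e1d)
  (PL.C (nat_lit 0xbb195e) (nat_lit 0x65a277e183a8c1) (nat_lit 0x0)
  (PL.C (nat_lit 0xbb3ef6) (nat_lit 0x3ce6bac3396141) (nat_lit 0x0)
  (PL.C (nat_lit 0xbb5bde) (nat_lit 0x0) (nat_lit 0x42ea7ac36a7f42)
  (PL.C (nat_lit 0xbb68db) (nat_lit 0x0) (nat_lit 0x14ac827acefb0eb) gp0_1_45))))))))))))))))))))

noncomputable def gp0_1_43 : PL :=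
  (PL.C (nat_lit 0xad0862) (nat_lit 0x68c79936d1fe18) (nat_lit 0x0)
  (PL.C (nat_lit 0xad7456) (nat_lit 0x0) (nat_lit 0x143580ea254b430)
  (PL.C (nat_lit 0xadbb96) (nat_lit 0x0) (nat_lit 0xaed9b6b10c7317)
  (PL.C (nat_lit 0xadbe07) (nat_lit 0xcd1702c168ae558) (nat_lit 0x0)
  (PL.C (nat_lit 0xae8bca) (nat_lit 0x2fdc7b1cf8648d) (nat_lit 0x0)
  (PL.C (nat_lit 0xaee0a3) (nat_lit 0x0) (nat_lit 0x1505f7e06e99dd)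
  (PL.C (nat_lit 0xaf5462) (nat_lit 0x0) (nat_lit 0xdd7b7765b75a5b)
  (PL.C (nat_lit 0xafb7fc) (nat_lit 0x0) (nat_lit 0xa6d74cf714bc9c)
  (PL.C (nat_lit 0xafedcb) (nat_lit 0x0) (nat_lit 0x14781878f16d22)
  (PL.C (nat_lit 0xb06205) (nat_lit 0x0) (nat_lit 0x1be8fbe0628256)
  (PL.C (nat_lit 0xb177f4) (nat_lit 0x0) (nat_lit 0x11295bf91d5619)
  (PL.C (nat_lit 0xb1c13b) (nat_lit 0x0) (nat_lit 0x4339c87a4a1c9)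
  (PL.C (nat_lit 0xb27abc) (nat_lit 0x43beeecc3fc2b54) (nat_lit 0x0)
  (PL.C (nat_lit 0xb3631c) (nat_lit 0x0) (nat_lit 0x1fa215a4e9479bb)
  (PL.C (nat_lit 0xb3b659) (nat_lit 0x0) (nat_lit 0x107858b0f2537da)
  (PL.C (nat_lit 0xb3bce4) (nat_lit 0x0) (nat_lit 0x205c36a1c399635)
  (PL.C (nat_lit 0xb49e02) (nat_lit 0x18083ad6d688d12) (nat_lit 0x0)
  (PL.C (nat_lit 0xb540b4) (nat_lit 0x1865cb3ffa5c045) (nat_lit 0x0)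
  (PL.C (nat_lit 0xb548fc) (nat_lit 0x0) (nat_lit 0x50c2302067cc09)
  (PL.C (nat_lit 0xb56c89) (nat_lit 0x64487b4b27a6) (nat_lit 0x0) gp0_1_44))))))))))))))))))))

noncomputable def gp0_1_42 : PL :=
  (PL.C (nat_lit 0xa64bb8) (nat_lit 0x0) (nat_lit 0xc21b6c4c2d480)
  (PL.C (nat_lit 0xa69062) (nat_lit 0x1c9436a3e2dece) (nat_lit 0x0)
  (PL.C (nat_lit 0xa73864) (nat_lit 0xf7a69577dc7109) (nat_lit 0x0)
  (PL.C (nat_lit 0xa7733f) (nat_lit 0xd186d27fd5ac22) (nat_lit 0x0)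
  (PL.C (nat_lit 0xa936f2) (nat_lit 0x137b016d740d5f2) (nat_lit 0x0)
  (PL.C (nat_lit 0xa942ad) (nat_lit 0x5b7471c82835b19) (nat_lit 0x0)
  (PL.C (nat_lit 0xa95d9e) (nat_lit 0x0) (nat_lit 0x16359c6fe128512)
  (PL.C (nat_lit 0xa96faa) (nat_lit 0x0) (nat_lit 0x95cb52e9c58b77)
  (PL.C (nat_lit 0xa9b262) (nat_lit 0x4c9723b3c7507) (nat_lit 0x0)
  (PL.C (nat_lit 0xa9c508) (nat_lit 0x0) (nat_lit 0xcbccf630eaae6a)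
  (PL.C (nat_lit 0xa9eb04) (nat_lit 0x0) (nat_lit 0xa2cbb297b2ce92)
  (PL.C (nat_lit 0xaa1342) (nat_lit 0x0) (nat_lit 0x463eda7ffed873)
  (PL.C (nat_lit 0xaa227e) (nat_lit 0x841677e4175286) (nat_lit 0x0)
  (PL.C (nat_lit 0xab054f) (nat_lit 0x70d017cfd42f27) (nat_lit 0x0)
  (PL.C (nat_lit 0xabf95a) (nat_lit 0x3c0dc7a024d5eb8) (nat_lit 0x0)
  (PL.C (nat_lit 0xac04f4) (nat_lit 0x0) (nat_lit 0xee38201917dcdd)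
  (PL.C (nat_lit 0xac4bfb) (nat_lit 0x959fe12f6a68d) (nat_lit 0x0)
  (PL.C (nat_lit 0xac5b0c) (nat_lit 0x0) (nat_lit 0x2c7e9d8816407)
  (PL.C (nat_lit 0xacbfde) (nat_lit 0x0) (nat_lit 0x8068be8cde9e52b)
  (PL.C (nat_lit 0xad020a) (nat_lit 0x0) (nat_lit 0x3ffe07f76b12b97) gp0_1_43))))))))))))))))))))

noncomputable def gp0_1_41 : PL :=
  (PL.C (nat_lit 0x9f9d22) (nat_lit 0x4cc7c20a8b35ab9) (nat_lit 0x0)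
  (PL.C (nat_lit 0xa0247c) (nat_lit 0x0) (nat_lit 0x81737bec4d2b2c)
  (PL.C (nat_lit 0xa02f96) (nat_lit 0x0) (nat_lit 0x32dbd87b7344e6)
  (PL.C (nat_lit 0xa06cf2) (nat_lit 0x28008ab050a1131) (nat_lit 0x0)
  (PL.C (nat_lit 0xa0d6ee) (nat_lit 0x0) (nat_lit 0xd97fbff02dad0)
  (PL.C (nat_lit 0xa11b43) (nat_lit 0x0) (nat_lit 0x308d8f84c2bc108)
  (PL.C (nat_lit 0xa19974) (nat_lit 0x0) (nat_lit 0x2253460b07896c2)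
  (PL.C (nat_lit 0xa24eff) (nat_lit 0x0) (nat_lit 0x6f680787bf53af)
  (PL.C (nat_lit 0xa2501c) (nat_lit 0x21ad6d77404d1) (nat_lit 0x0)
  (PL.C (nat_lit 0xa29321) (nat_lit 0x0) (nat_lit 0x220cd07cff602)
  (PL.C (nat_lit 0xa2f06c) (nat_lit 0x16331200965518d) (nat_lit 0x0)
  (PL.C (nat_lit 0xa3007a) (nat_lit 0x1658d2f55c2a729) (nat_lit 0x0)
  (PL.C (nat_lit 0xa37ce4) (nat_lit 0x0) (nat_lit 0x54cc8e752d3b5f)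
  (PL.C (nat_lit 0xa3baa4) (nat_lit 0x2dd60fcf00bf20) (nat_lit 0x0)
  (PL.C (nat_lit 0xa3c839) (nat_lit 0x0) (nat_lit 0x3bf663fcc28f34)
  (PL.C (nat_lit 0xa3e026) (nat_lit 0x0) (nat_lit 0x1760aba3c7d79d8)
  (PL.C (nat_lit 0xa5499b) (nat_lit 0x0) (nat_lit 0xe048dcabb7bcaa)
  (PL.C (nat_lit 0xa5cdb4) (nat_lit 0x0) (nat_lit 0x130383bc89a21)
  (PL.C (nat_lit 0xa5de7e) (nat_lit 0xfb61778a345eaf) (nat_lit 0x0)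
  (PL.C (nat_lit 0xa63182) (nat_lit 0xbd0eb04c9c06af) (nat_lit 0x0) gp0_1_42))))))))))))))))))))

noncomputable def gp0_1_40 : PL :=
  (PL.C (nat_lit 0x9a1b4a) (nat_lit 0x173d3df27cc1427) (nat_lit 0x0)
  (PL.C (nat_lit 0x9a7d51) (nat_lit 0x0) (nat_lit 0x48bf73b07632789)
  (PL.C (nat_lit 0x9acd2e) (nat_lit 0xfb6177935d65d7) (nat_lit 0x0)
  (PL.C (nat_lit 0x9af378) (nat_lit 0x12dd43673b2e9d8) (nat_lit 0x0)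
  (PL.C (nat_lit 0x9b087a) (nat_lit 0x29260f79e555c1) (nat_lit 0x0)
  (PL.C (nat_lit 0x9b6ee6) (nat_lit 0x173d3df27721fb4) (nat_lit 0x0)
  (PL.C (nat_lit 0x9baa14) (nat_lit 0x0) (nat_lit 0x1792d8cb94f46c6)
  (PL.C (nat_lit 0x9bb0ef) (nat_lit 0x0) (nat_lit 0xcf9b84fb8144d5)
  (PL.C (nat_lit 0x9bf601) (nat_lit 0x4a67029e765b40) (nat_lit 0x0)
  (PL.C (nat_lit 0x9c40e6) (nat_lit 0x0) (nat_lit 0x8068be80e4f4f51)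
  (PL.C (nat_lit 0x9c8f1a) (nat_lit 0x0) (nat_lit 0x1a954ebbe981f2)
  (PL.C (nat_lit 0x9ce87a) (nat_lit 0x11d306e62508546) (nat_lit 0x0)
  (PL.C (nat_lit 0x9d0c56) (nat_lit 0x4234e0404b7c3f) (nat_lit 0x0)
  (PL.C (nat_lit 0x9d1d12) (nat_lit 0x0) (nat_lit 0x51b5f995a339e9)
  (PL.C (nat_lit 0x9d60bf) (nat_lit 0xd186d26f86361b) (nat_lit 0x0)
  (PL.C (nat_lit 0x9d8488) (nat_lit 0x16b9365a3e6ad4) (nat_lit 0x0)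
  (PL.C (nat_lit 0x9e5dfe) (nat_lit 0x0) (nat_lit 0x6578efe33dd001)
  (PL.C (nat_lit 0x9eb3a4) (nat_lit 0x0) (nat_lit 0x26429eae795dd6f)
  (PL.C (nat_lit 0x9f33c3) (nat_lit 0x3c97e131e95db4) (nat_lit 0x0)
  (PL.C (nat_lit 0x9f7782) (nat_lit 0x0) (nat_lit 0x4400c05ead5f98) gp0_1_41))))))))))))))))))))

noncomputable def gp0_1_39 : PL :=
  (PL.C (nat_lit 0x92a25c) (nat_lit 0x0) (nat_lit 0x23216ddd192efb6)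
  (PL.C (nat_lit 0x92aa63) (nat_lit 0x0) (nat_lit 0xfd670a2b19ccf0f)
  (PL.C (nat_lit 0x92cf43) (nat_lit 0x0) (nat_lit 0x1efdbffca4a144)
  (PL.C (nat_lit 0x9318bd) (nat_lit 0x0) (nat_lit 0x1cbf56f6387acc0)
  (PL.C (nat_lit 0x93e054) (nat_lit 0xf928af93b6b16d) (nat_lit 0x0)
  (PL.C (nat_lit 0x94016a) (nat_lit 0x0) (nat_lit 0x17206b5616d885f2)
  (PL.C (nat_lit 0x941d63) (nat_lit 0x12099c5b913faf) (nat_lit 0x0)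
  (PL.C (nat_lit 0x947eec) (nat_lit 0x21ad6c982f86d) (nat_lit 0x0)
  (PL.C (nat_lit 0x955966) (nat_lit 0x0) (nat_lit 0x3a0d2d3c692c6c)
  (PL.C (nat_lit 0x95bf2c) (nat_lit 0x22b0892deed68f8) (nat_lit 0x0)
  (PL.C (nat_lit 0x95d8c4) (nat_lit 0x876ae54cc5cd8) (nat_lit 0x0)
  (PL.C (nat_lit 0x95f781) (nat_lit 0x0) (nat_lit 0x7158d7941bdf45)
  (PL.C (nat_lit 0x963178) (nat_lit 0xde869be0787624) (nat_lit 0x0)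
  (PL.C (nat_lit 0x973cb3) (nat_lit 0x0) (nat_lit 0xb252c196dac6c0)
  (PL.C (nat_lit 0x975c88) (nat_lit 0x0) (nat_lit 0x256268fb53202d)
  (PL.C (nat_lit 0x97d51a) (nat_lit 0x70b3cea69a1249) (nat_lit 0x0)
  (PL.C (nat_lit 0x99266d) (nat_lit 0x20b5fc207d5095) (nat_lit 0x0)
  (PL.C (nat_lit 0x996bd8) (nat_lit 0x1cbfc738d01b9) (nat_lit 0x0)
  (PL.C (nat_lit 0x998ee8) (nat_lit 0xef779e75f3a6e) (nat_lit 0x0)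
  (PL.C (nat_lit 0x999b52) (nat_lit 0x4234e05899f0b6) (nat_lit 0x0) gp0_1_40))))))))))))))))))))

noncomputable def gp0_1_38 : PL :=
  (PL.C (nat_lit 0x8d28f4) (nat_lit 0x282f4d59d67862a) (nat_lit 0x0)
  (PL.C (nat_lit 0x8db7e8) (nat_lit 0x3c90ff3c70a891) (nat_lit 0x0)
  (PL.C (nat_lit 0x8ed218) (nat_lit 0x1480e5d86eac2c) (nat_lit 0x0)
  (PL.C (nat_lit 0x8ef896) (nat_lit 0x0) (nat_lit 0x697aece7d5c906)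
  (PL.C (nat_lit 0x8f07d2) (nat_lit 0x0) (nat_lit 0x208a3ba9b483dc1)
  (PL.C (nat_lit 0x8f570a) (nat_lit 0x3d9798b3e407c7) (nat_lit 0x0)
  (PL.C (nat_lit 0x8f8c14) (nat_lit 0x0) (nat_lit 0x17159977e5edbbc)
  (PL.C (nat_lit 0x8fd3ec) (nat_lit 0x1508a5315f65033) (nat_lit 0x0)
  (PL.C (nat_lit 0x8ffff7) (nat_lit 0x7e6c58a2218714) (nat_lit 0x0)
  (PL.C (nat_lit 0x90280e) (nat_lit 0x100db1b87bfb9c86) (nat_lit 0x0)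
  (PL.C (nat_lit 0x904809) (nat_lit 0x4f7aaaead25294) (nat_lit 0x0)
  (PL.C (nat_lit 0x90543e) (nat_lit 0x0) (nat_lit 0x5651b31a53e13c)
  (PL.C (nat_lit 0x9057e4) (nat_lit 0x4df37fdbc81837) (nat_lit 0x0)
  (PL.C (nat_lit 0x90e3be) (nat_lit 0x0) (nat_lit 0x13d21ce319ba361)
  (PL.C (nat_lit 0x912c42) (nat_lit 0x1954def3440821) (nat_lit 0x0)
  (PL.C (nat_lit 0x9173d8) (nat_lit 0x0) (nat_lit 0x182afbda3b93173)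
  (PL.C (nat_lit 0x9195fc) (nat_lit 0x2093f3f7d4512a) (nat_lit 0x0)
  (PL.C (nat_lit 0x91d3d6) (nat_lit 0x1c14ff0b0bf8682) (nat_lit 0x0)
  (PL.C (nat_lit 0x920bb2) (nat_lit 0x9c1cd33e9b5736) (nat_lit 0x0)
  (PL.C (nat_lit 0x926c2e) (nat_lit 0x3eece4e15df2637) (nat_lit 0x0) gp0_1_39))))))))))))))))))))

noncomputable def gp0_1_37 : PL :=
  (PL.C (nat_lit 0x877197) (nat_lit 0x5b7471c76299fa2) (nat_lit 0x0)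
  (PL.C (nat_lit 0x87f84c) (nat_lit 0x0) (nat_lit 0xdc8399d82fe137)
  (PL.C (nat_lit 0x886611) (nat_lit 0x41b752f6baac1e) (nat_lit 0x0)
  (PL.C (nat_lit 0x886d84) (nat_lit 0x4641ba66359082e) (nat_lit 0x0)
  (PL.C (nat_lit 0x88ac61) (nat_lit 0x346a20f436c1cd) (nat_lit 0x0)
  (PL.C (nat_lit 0x88e868) (nat_lit 0x0) (nat_lit 0x2562690c633e61)
  (PL.C (nat_lit 0x891f24) (nat_lit 0x13836bbe1d87dd2) (nat_lit 0x0)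
  (PL.C (nat_lit 0x8992a7) (nat_lit 0x1b96da563d849d) (nat_lit 0x0)
  (PL.C (nat_lit 0x89e8e2) (nat_lit 0x0) (nat_lit 0x1bcb0427874abb)
  (PL.C (nat_lit 0x8b8747) (nat_lit 0x367f84dfa374ed2) (nat_lit 0x0)
  (PL.C (nat_lit 0x8b883c) (nat_lit 0x0) (nat_lit 0x3bd07185f4d20f)
  (PL.C (nat_lit 0x8bc1d9) (nat_lit 0x0) (nat_lit 0x17309168c9d79)
  (PL.C (nat_lit 0x8c04f6) (nat_lit 0x0) (nat_lit 0x13c199263599ab2)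
  (PL.C (nat_lit 0x8c120c) (nat_lit 0x37f9106005160e9) (nat_lit 0x0)
  (PL.C (nat_lit 0x8c4b0a) (nat_lit 0x0) (nat_lit 0x2023899e54b8b0)
  (PL.C (nat_lit 0x8c9038) (nat_lit 0x0) (nat_lit 0x1256fea52a96b0)
  (PL.C (nat_lit 0x8cca42) (nat_lit 0x0) (nat_lit 0x62a433b8cff7fc)
  (PL.C (nat_lit 0x8cccc4) (nat_lit 0x0) (nat_lit 0x176de5366d60b73)
  (PL.C (nat_lit 0x8d06e7) (nat_lit 0x0) (nat_lit 0x4339c8a8a08d5)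
  (PL.C (nat_lit 0x8d133c) (nat_lit 0x0) (nat_lit 0x1168bfbe29093) gp0_1_38))))))))))))))))))))

noncomputable def gp0_1_36 : PL :=
  (PL.C (nat_lit 0x828f54) (nat_lit 0x2093f406b742b0) (nat_lit 0x0)
  (PL.C (nat_lit 0x82d0ac) (nat_lit 0x0) (nat_lit 0x65f61ea54c2dd9)
  (PL.C (nat_lit 0x83a7c5) (nat_lit 0x0) (nat_lit 0x7fa812e18bb87a)
  (PL.C (nat_lit 0x83af0c) (nat_lit 0x4df37fd7adb181) (nat_lit 0x0)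
  (PL.C (nat_lit 0x83e6fe) (nat_lit 0x0) (nat_lit 0xb2ac57651a16d23)
  (PL.C (nat_lit 0x83f0f4) (nat_lit 0x0) (nat_lit 0x993f9075903e5a)
  (PL.C (nat_lit 0x840c42) (nat_lit 0x0) (nat_lit 0xac1ae78b525f54)
  (PL.C (nat_lit 0x842902) (nat_lit 0x198f09f4fa2fd0c) (nat_lit 0x0)
  (PL.C (nat_lit 0x843e22) (nat_lit 0x0) (nat_lit 0x5b378dcaafd486b)
  (PL.C (nat_lit 0x84a0da) (nat_lit 0x0) (nat_lit 0x51b5fa2753259e)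
  (PL.C (nat_lit 0x84d9fb) (nat_lit 0x293a0a39a6a8330) (nat_lit 0x0)
  (PL.C (nat_lit 0x85462a) (nat_lit 0x2fdc7afb2944ea) (nat_lit 0x0)
  (PL.C (nat_lit 0x855e1c) (nat_lit 0x0) (nat_lit 0x339640eaa603e1e)
  (PL.C (nat_lit 0x8586f3) (nat_lit 0x0) (nat_lit 0x1be8fbe109aa11)
  (PL.C (nat_lit 0x86304c) (nat_lit 0x4bed30224b1cd4) (nat_lit 0x0)
  (PL.C (nat_lit 0x86ad35) (nat_lit 0x0) (nat_lit 0x1505f7e58196e4)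
  (PL.C (nat_lit 0x86bd2a) (nat_lit 0x0) (nat_lit 0x4eb59812b11e4f2)
  (PL.C (nat_lit 0x871002) (nat_lit 0x2342666bbff642d) (nat_lit 0x0)
  (PL.C (nat_lit 0x872f6c) (nat_lit 0x11d702f901be79) (nat_lit 0x0)
  (PL.C (nat_lit 0x875cbc) (nat_lit 0x1865cb40691806f) (nat_lit 0x0) gp0_1_37))))))))))))))))))))

noncomputable def gp0_1_35 : PL :=
  (PL.C (nat_lit 0x7cbb94) (nat_lit 0x4ee95a1b7b35e5) (nat_lit 0x0)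
  (PL.C (nat_lit 0x7cd4a4) (nat_lit 0xf928af85b67d21) (nat_lit 0x0)
  (PL.C (nat_lit 0x7cf092) (nat_lit 0x0) (nat_lit 0x47782c451b3374f)
  (PL.C (nat_lit 0x7d082f) (nat_lit 0x7c90c77292bf0) (nat_lit 0x0)
  (PL.C (nat_lit 0x7d0e29) (nat_lit 0x0) (nat_lit 0x12a59b14330182)
  (PL.C (nat_lit 0x7d271c) (nat_lit 0xbf2025638bc47e) (nat_lit 0x0)
  (PL.C (nat_lit 0x7dba9a) (nat_lit 0x9b7df60d4ea450) (nat_lit 0x0)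
  (PL.C (nat_lit 0x7e346b) (nat_lit 0x0) (nat_lit 0x7a45c760ffbb76)
  (PL.C (nat_lit 0x7e68dc) (nat_lit 0x3a472a57ba3bda) (nat_lit 0x0)
  (PL.C (nat_lit 0x7e7395) (nat_lit 0x9bfc8597f8e7a5) (nat_lit 0x0)
  (PL.C (nat_lit 0x7ebbc5) (nat_lit 0x20b5fc7f066a68) (nat_lit 0x0)
  (PL.C (nat_lit 0x7ec958) (nat_lit 0xef779e79a23b2) (nat_lit 0x0)
  (PL.C (nat_lit 0x7fbea3) (nat_lit 0x0) (nat_lit 0x14103d1494aa4b)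
  (PL.C (nat_lit 0x802ea2) (nat_lit 0x207abd1217dc944) (nat_lit 0x0)
  (PL.C (nat_lit 0x80bacc) (nat_lit 0xf0b0c6e138898) (nat_lit 0x0)
  (PL.C (nat_lit 0x812dde) (nat_lit 0x2bf84dc974a9087) (nat_lit 0x0)
  (PL.C (nat_lit 0x81a088) (nat_lit 0xde869be31429e5) (nat_lit 0x0)
  (PL.C (nat_lit 0x81ae58) (nat_lit 0x0) (nat_lit 0x28b7b21b0a2d561)
  (PL.C (nat_lit 0x81d60e) (nat_lit 0x0) (nat_lit 0x5e44ae3a6c6dc9)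
  (PL.C (nat_lit 0x81e634) (nat_lit 0x2dd60fdb33d862) (nat_lit 0x0) gp0_1_36))))))))))))))))))))

noncomputable def gp0_1_34 : PL :=
  (PL.C (nat_lit 0x75f5c1) (nat_lit 0x21d2a739482e96f) (nat_lit 0x0)
  (PL.C (nat_lit 0x7643af) (nat_lit 0x0) (nat_lit 0x14a9e022d7ca468)
  (PL.C (nat_lit 0x764ff8) (nat_lit 0x0) (nat_lit 0x955a363c80b8dc)
  (PL.C (nat_lit 0x7680d2) (nat_lit 0x0) (nat_lit 0x5622fbebe57023)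
  (PL.C (nat_lit 0x778afd) (nat_lit 0x0) (nat_lit 0xc012e243fae71d)
  (PL.C (nat_lit 0x779768) (nat_lit 0x0) (nat_lit 0x161d2868a5fff26)
  (PL.C (nat_lit 0x77cee6) (nat_lit 0x0) (nat_lit 0x1e6c7e993603f80)
  (PL.C (nat_lit 0x78f306) (nat_lit 0xfcf32c68e04838) (nat_lit 0x0)
  (PL.C (nat_lit 0x7907b2) (nat_lit 0x0) (nat_lit 0x7d7e2e10d129ed)
  (PL.C (nat_lit 0x79b0c6) (nat_lit 0x100db1b7e9734b56) (nat_lit 0x0)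
  (PL.C (nat_lit 0x7a40e4) (nat_lit 0x0) (nat_lit 0x2605c6bcad743a4)
  (PL.C (nat_lit 0x7a46bc) (nat_lit 0x277576978c152) (nat_lit 0x0)
  (PL.C (nat_lit 0x7a4f36) (nat_lit 0x13e1569ea064110) (nat_lit 0x0)
  (PL.C (nat_lit 0x7a7939) (nat_lit 0x7539f34f93df7) (nat_lit 0x0)
  (PL.C (nat_lit 0x7aef58) (nat_lit 0x0) (nat_lit 0x955a3649a25432)
  (PL.C (nat_lit 0x7b3087) (nat_lit 0x0) (nat_lit 0xa518f6d1f9629a)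
  (PL.C (nat_lit 0x7b6674) (nat_lit 0x193535dfc8c3375) (nat_lit 0x0)
  (PL.C (nat_lit 0x7bab0c) (nat_lit 0x4ee95a27ef39cb) (nat_lit 0x0)
  (PL.C (nat_lit 0x7beacc) (nat_lit 0x3a4729e700dd45) (nat_lit 0x0)
  (PL.C (nat_lit 0x7c4001) (nat_lit 0x0) (nat_lit 0xa518f6db4f0d1f) gp0_1_35))))))))))))))))))))

noncomputable def gp0_1_33 : PL :=
  (PL.C (nat_lit 0x7190fd) (nat_lit 0x0) (nat_lit 0x220cd07988efb)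
  (PL.C (nat_lit 0x72038a) (nat_lit 0x0) (nat_lit 0x98ccb6378bbd927)
  (PL.C (nat_lit 0x72a63c) (nat_lit 0x5c03429eb576f8) (nat_lit 0x0)
  (PL.C (nat_lit 0x72adf8) (nat_lit 0x0) (nat_lit 0xcbccf635da9ce3)
  (PL.C (nat_lit 0x72dd52) (nat_lit 0x0) (nat_lit 0x5e44ae34db429d)
  (PL.C (nat_lit 0x732a94) (nat_lit 0x0) (nat_lit 0x16384c19240a98d)
  (PL.C (nat_lit 0x735aec) (nat_lit 0x4904bc361e9b1e) (nat_lit 0x0)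
  (PL.C (nat_lit 0x735fa5) (nat_lit 0x0) (nat_lit 0x786513aa83963d)
  (PL.C (nat_lit 0x737a03) (nat_lit 0x69be0f1b750db6) (nat_lit 0x0)
  (PL.C (nat_lit 0x738651) (nat_lit 0x70d017c48112b5) (nat_lit 0x0)
  (PL.C (nat_lit 0x73a2e4) (nat_lit 0x0) (nat_lit 0x11348f0f9d15864)
  (PL.C (nat_lit 0x73d264) (nat_lit 0x0) (nat_lit 0x2dc6efe622d234)
  (PL.C (nat_lit 0x746f1f) (nat_lit 0x0) (nat_lit 0x14767224ff4ea0ac)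
  (PL.C (nat_lit 0x7495c2) (nat_lit 0x1db7aed1000b04) (nat_lit 0x0)
  (PL.C (nat_lit 0x74e2ec) (nat_lit 0x48e8f037c938c) (nat_lit 0x0)
  (PL.C (nat_lit 0x7506b7) (nat_lit 0x0) (nat_lit 0x250217a7d6cbe0b)
  (PL.C (nat_lit 0x754149) (nat_lit 0x0) (nat_lit 0x7f54ac5b3085dd)
  (PL.C (nat_lit 0x754932) (nat_lit 0xb3be0f545ded80) (nat_lit 0x0)
  (PL.C (nat_lit 0x7596ae) (nat_lit 0x0) (nat_lit 0x44035a3d6b6885)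
  (PL.C (nat_lit 0x75c8a3) (nat_lit 0xfbe441fe7c674a) (nat_lit 0x0) gp0_1_34))))))))))))))))))))

noncomputable def gp0_1_32 : PL :=
  (PL.C (nat_lit 0x6b6782) (nat_lit 0x0) (nat_lit 0x29aeb4e2fc701e)
  (PL.C (nat_lit 0x6c34aa) (nat_lit 0x0) (nat_lit 0x13d21ceaa444518)
  (PL.C (nat_lit 0x6c3568) (nat_lit 0x0) (nat_lit 0x1b4f6c4adea194)
  (PL.C (nat_lit 0x6c6216) (nat_lit 0x1d82105ee5d41e) (nat_lit 0x0)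
  (PL.C (nat_lit 0x6ca048) (nat_lit 0x0) (nat_lit 0x182afbda7dff874)
  (PL.C (nat_lit 0x6caafc) (nat_lit 0x0) (nat_lit 0x5b750845194952)
  (PL.C (nat_lit 0x6d2718) (nat_lit 0x0) (nat_lit 0x1bd56e8613d18bf)
  (PL.C (nat_lit 0x6d3026) (nat_lit 0x0) (nat_lit 0x2fce3632e389ba)
  (PL.C (nat_lit 0x6e3112) (nat_lit 0x0) (nat_lit 0x392abaa3450bd00)
  (PL.C (nat_lit 0x6e9454) (nat_lit 0x614865dd9167e8) (nat_lit 0x0)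
  (PL.C (nat_lit 0x6ecbac) (nat_lit 0x0) (nat_lit 0x85401d45ea18ac)
  (PL.C (nat_lit 0x6f0aec) (nat_lit 0x4bed30225b4fa7) (nat_lit 0x0)
  (PL.C (nat_lit 0x6fa22a) (nat_lit 0x1144c90139d2414) (nat_lit 0x0)
  (PL.C (nat_lit 0x70cf4c) (nat_lit 0x0) (nat_lit 0x9ada1420392c85)
  (PL.C (nat_lit 0x70d71e) (nat_lit 0x0) (nat_lit 0x10452969236128b)
  (PL.C (nat_lit 0x70e914) (nat_lit 0x0) (nat_lit 0x54cc8e87b65bb5)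
  (PL.C (nat_lit 0x70f51c) (nat_lit 0x1c4b0bf8ca19dc2) (nat_lit 0x0)
  (PL.C (nat_lit 0x7117b3) (nat_lit 0x7c90c81d64ba8) (nat_lit 0x0)
  (PL.C (nat_lit 0x71504d) (nat_lit 0x0) (nat_lit 0x138414689674bf)
  (PL.C (nat_lit 0x71622c) (nat_lit 0x1bdd5ec12157b6) (nat_lit 0x0) gp0_1_33))))))))))))))))))))

noncomputable def gp0_1_31 : PL :=
  (PL.C (nat_lit 0x679f44) (nat_lit 0x10d8a0de9436372) (nat_lit 0x0)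
  (PL.C (nat_lit 0x67c6b8) (nat_lit 0x0) (nat_lit 0x822383a85886fe)
  (PL.C (nat_lit 0x67cb4a) (nat_lit 0x0) (nat_lit 0xf3a6480a5d600e)
  (PL.C (nat_lit 0x67f956) (nat_lit 0x1153139da21feb4) (nat_lit 0x0)
  (PL.C (nat_lit 0x682b44) (nat_lit 0x0) (nat_lit 0x16384c1796b9c3b)
  (PL.C (nat_lit 0x685647) (nat_lit 0x0) (nat_lit 0xb497fb2745631)
  (PL.C (nat_lit 0x689afc) (nat_lit 0x22b089338525313) (nat_lit 0x0)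
  (PL.C (nat_lit 0x68b2e4) (nat_lit 0x24896511a96a5a) (nat_lit 0x0)
  (PL.C (nat_lit 0x68be0c) (nat_lit 0xd3cf7f42c7127d) (nat_lit 0x0)
  (PL.C (nat_lit 0x68de1f) (nat_lit 0x0) (nat_lit 0x85bb49b3d8a46)
  (PL.C (nat_lit 0x68eb2a) (nat_lit 0x1144c9016642e1c) (nat_lit 0x0)
  (PL.C (nat_lit 0x69cd18) (nat_lit 0x0) (nat_lit 0x2739d0d64776c65)
  (PL.C (nat_lit 0x6a2282) (nat_lit 0x0) (nat_lit 0x93c7c6a8c93db9)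
  (PL.C (nat_lit 0x6a8957) (nat_lit 0x367f84e2d92813a) (nat_lit 0x0)
  (PL.C (nat_lit 0x6abea9) (nat_lit 0x0) (nat_lit 0x1f83d9f43402419)
  (PL.C (nat_lit 0x6aca64) (nat_lit 0x0) (nat_lit 0x6338da57b0792)
  (PL.C (nat_lit 0x6acfb9) (nat_lit 0x30a0abc89eba8b5) (nat_lit 0x0)
  (PL.C (nat_lit 0x6af34c) (nat_lit 0x37f9105d73d4234) (nat_lit 0x0)
  (PL.C (nat_lit 0x6afb99) (nat_lit 0x644868aaed99) (nat_lit 0x0)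
  (PL.C (nat_lit 0x6b1f75) (nat_lit 0x12b69b1f7b360fb) (nat_lit 0x0) gp0_1_32))))))))))))))))))))

noncomputable def gp0_1_30 : PL :=
  (PL.C (nat_lit 0x61df82) (nat_lit 0x0) (nat_lit 0xe400b76a804c9b)
  (PL.C (nat_lit 0x62107e) (nat_lit 0x18f9152aaaaa574) (nat_lit 0x0)
  (PL.C (nat_lit 0x6249db) (nat_lit 0x19b5d05ca46a263c) (nat_lit 0x0)
  (PL.C (nat_lit 0x62ab9c) (nat_lit 0x0) (nat_lit 0x332161c63e1d6e8)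
  (PL.C (nat_lit 0x62be42) (nat_lit 0xaddaccb167d568) (nat_lit 0x0)
  (PL.C (nat_lit 0x62c9d3) (nat_lit 0xed097d45775ded) (nat_lit 0x0)
  (PL.C (nat_lit 0x62ff48) (nat_lit 0x0) (nat_lit 0x1b4f6c5f0998fe)
  (PL.C (nat_lit 0x63d4c8) (nat_lit 0x882fee8f5b4e3f) (nat_lit 0x0)
  (PL.C (nat_lit 0x63e5d8) (nat_lit 0x25e29c68e2d726) (nat_lit 0x0)
  (PL.C (nat_lit 0x63fa56) (nat_lit 0x302fc5dd2d54f68) (nat_lit 0x0)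
  (PL.C (nat_lit 0x64d322) (nat_lit 0x165723c58fb5671) (nat_lit 0x0)
  (PL.C (nat_lit 0x64e9b1) (nat_lit 0x0) (nat_lit 0xc012e28b817089)
  (PL.C (nat_lit 0x6538bc) (nat_lit 0x876ae52f9a0ff) (nat_lit 0x0)
  (PL.C (nat_lit 0x66199e) (nat_lit 0x0) (nat_lit 0x2a7e0c61131882b)
  (PL.C (nat_lit 0x66678c) (nat_lit 0x2489652e92c995) (nat_lit 0x0)
  (PL.C (nat_lit 0x66bcdc) (nat_lit 0x10d8a0deaff1f76) (nat_lit 0x0)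
  (PL.C (nat_lit 0x66fe36) (nat_lit 0x0) (nat_lit 0x1bcb04271013f7)
  (PL.C (nat_lit 0x673374) (nat_lit 0x614865dcc1d8ef) (nat_lit 0x0)
  (PL.C (nat_lit 0x675afc) (nat_lit 0xcc41be3739be54) (nat_lit 0x0)
  (PL.C (nat_lit 0x6785a9) (nat_lit 0x0) (nat_lit 0x77986c72987a1) gp0_1_31))))))))))))))))))))

noncomputable def gp0_1_29 : PL :=
  (PL.C (nat_lit 0x5d2be6) (nat_lit 0x3c96696dedb76e) (nat_lit 0x0)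
  (PL.C (nat_lit 0x5d58a4) (nat_lit 0x0) (nat_lit 0x2605c6bef736d98)
  (PL.C (nat_lit 0x5d7f2f) (nat_lit 0x0) (nat_lit 0x5c878d0396304)
  (PL.C (nat_lit 0x5ddc2c) (nat_lit 0x0) (nat_lit 0x61781494599746)
  (PL.C (nat_lit 0x5dddd8) (nat_lit 0x0) (nat_lit 0xe870c19060ef16)
  (PL.C (nat_lit 0x5e049a) (nat_lit 0x0) (nat_lit 0x5622fbf3b3f640)
  (PL.C (nat_lit 0x5f5064) (nat_lit 0x0) (nat_lit 0x8da8dbbf358322)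
  (PL.C (nat_lit 0x5f5a8c) (nat_lit 0xf7a6957d96f6f1) (nat_lit 0x0)
  (PL.C (nat_lit 0x5f77bf) (nat_lit 0x12099c6371d11a) (nat_lit 0x0)
  (PL.C (nat_lit 0x5f8f5c) (nat_lit 0xa5eee953069e24) (nat_lit 0x0)
  (PL.C (nat_lit 0x5fb2b8) (nat_lit 0x0) (nat_lit 0xd2aaf0b203587a)
  (PL.C (nat_lit 0x5fb6d1) (nat_lit 0xd261d998ea86f) (nat_lit 0x0)
  (PL.C (nat_lit 0x5ffffa) (nat_lit 0x0) (nat_lit 0x2c706c3a9d0291)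
  (PL.C (nat_lit 0x601ab4) (nat_lit 0x0) (nat_lit 0x6d5911d1bda7326)
  (PL.C (nat_lit 0x603006) (nat_lit 0x381904052c75ff) (nat_lit 0x0)
  (PL.C (nat_lit 0x6097d4) (nat_lit 0x0) (nat_lit 0x60a2d7eb11cfb8e)
  (PL.C (nat_lit 0x60c82c) (nat_lit 0x0) (nat_lit 0x11348f10563ddeb)
  (PL.C (nat_lit 0x6137e4) (nat_lit 0x0) (nat_lit 0x1d1b7aee6130e90)
  (PL.C (nat_lit 0x618555) (nat_lit 0x161eff5c677eb1) (nat_lit 0x0)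
  (PL.C (nat_lit 0x619d74) (nat_lit 0x24b4012dbe43de) (nat_lit 0x0) gp0_1_30))))))))))))))))))))

noncomputable def gp0_1_28 : PL :=
  (PL.C (nat_lit 0x58296c) (nat_lit 0x0) (nat_lit 0x4315fb0545e2405)
  (PL.C (nat_lit 0x586b3c) (nat_lit 0xd3cf7fab268697) (nat_lit 0x0)
  (PL.C (nat_lit 0x589152) (nat_lit 0x0) (nat_lit 0x4098552dd4a147a)
  (PL.C (nat_lit 0x58e968) (nat_lit 0x0) (nat_lit 0x1987fddc5df3d55)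
  (PL.C (nat_lit 0x5904a2) (nat_lit 0x0) (nat_lit 0x44035a3bcaae9c)
  (PL.C (nat_lit 0x597588) (nat_lit 0x52a4a38a1b87b) (nat_lit 0x0)
  (PL.C (nat_lit 0x59c8ce) (nat_lit 0x1db7aece497e8b) (nat_lit 0x0)
  (PL.C (nat_lit 0x59eef3) (nat_lit 0x0) (nat_lit 0xffa0f172c3cfa6)
  (PL.C (nat_lit 0x5a0aac) (nat_lit 0x289a48d04a83eab) (nat_lit 0x0)
  (PL.C (nat_lit 0x5a2a5d) (nat_lit 0x4e7ddbf64b2727c) (nat_lit 0x0)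
  (PL.C (nat_lit 0x5a4bba) (nat_lit 0x0) (nat_lit 0x28017b120da4f91)
  (PL.C (nat_lit 0x5aa588) (nat_lit 0x0) (nat_lit 0x26250333d80d113)
  (PL.C (nat_lit 0x5aeeb6) (nat_lit 0x0) (nat_lit 0x4f89df8c832825)
  (PL.C (nat_lit 0x5b1d96) (nat_lit 0x2184fe57248503d) (nat_lit 0x0)
  (PL.C (nat_lit 0x5b23e7) (nat_lit 0x1add869f0917a90) (nat_lit 0x0)
  (PL.C (nat_lit 0x5b6a18) (nat_lit 0x1821533f4c06f36) (nat_lit 0x0)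
  (PL.C (nat_lit 0x5bb71a) (nat_lit 0x0) (nat_lit 0x4400c05577c7dc)
  (PL.C (nat_lit 0x5bde11) (nat_lit 0x3acb66c9f158de4) (nat_lit 0x0)
  (PL.C (nat_lit 0x5c168d) (nat_lit 0x16cbaec179a3ee8) (nat_lit 0x0)
  (PL.C (nat_lit 0x5d04da) (nat_lit 0x0) (nat_lit 0x3d18d9b6c53c5fe) gp0_1_29))))))))))))))))))))

noncomputable def gp0_1_27 : PL :=
  (PL.C (nat_lit 0x52d556) (nat_lit 0xb58b8013f4af65) (nat_lit 0x0)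
  (PL.C (nat_lit 0x52f887) (nat_lit 0x0) (nat_lit 0xc94a4015d7b9ab8)
  (PL.C (nat_lit 0x534b0c) (nat_lit 0x0) (nat_lit 0x2a7cd1ffde93bf5)
  (PL.C (nat_lit 0x535aca) (nat_lit 0x347defb0203dadb) (nat_lit 0x0)
  (PL.C (nat_lit 0x535ec6) (nat_lit 0x58a65280079d6) (nat_lit 0x0)
  (PL.C (nat_lit 0x53d1bc) (nat_lit 0x163d9522495b903) (nat_lit 0x0)
  (PL.C (nat_lit 0x5422f2) (nat_lit 0x0) (nat_lit 0x642526feb9fd62c)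
  (PL.C (nat_lit 0x5445e8) (nat_lit 0x0) (nat_lit 0x3d6e5067e7e6ba)
  (PL.C (nat_lit 0x547d2e) (nat_lit 0x0) (nat_lit 0x2a7e0c6174a15d3)
  (PL.C (nat_lit 0x5529c2) (nat_lit 0x0) (nat_lit 0x1cb7988768f504)
  (PL.C (nat_lit 0x55746c) (nat_lit 0x30dd930017e5edb) (nat_lit 0x0)
  (PL.C (nat_lit 0x55b969) (nat_lit 0x7450334689998a) (nat_lit 0x0)
  (PL.C (nat_lit 0x561e94) (nat_lit 0xb850b8822528129) (nat_lit 0x0)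
  (PL.C (nat_lit 0x568eb4) (nat_lit 0x0) (nat_lit 0x199ea9b4c47a0e5)
  (PL.C (nat_lit 0x569978) (nat_lit 0x0) (nat_lit 0x1bd56e85e4af027)
  (PL.C (nat_lit 0x57659d) (nat_lit 0xed097d9584092b) (nat_lit 0x0)
  (PL.C (nat_lit 0x57c52e) (nat_lit 0x0) (nat_lit 0x2f1b2a8d78a48a)
  (PL.C (nat_lit 0x57ef54) (nat_lit 0x271a29568b42603) (nat_lit 0x0)
  (PL.C (nat_lit 0x58082c) (nat_lit 0x0) (nat_lit 0x771c3f89044f51)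
  (PL.C (nat_lit 0x5813a3) (nat_lit 0x0) (nat_lit 0xb497ff4029608) gp0_1_28))))))))))))))))))))

noncomputable def gp0_1_26 : PL :=
  (PL.C (nat_lit 0x4e2b86) (nat_lit 0x0) (nat_lit 0x22f77d91b83c8f5)
  (PL.C (nat_lit 0x4e30cc) (nat_lit 0x13836bbe04069d2) (nat_lit 0x0)
  (PL.C (nat_lit 0x4e5115) (nat_lit 0x0) (nat_lit 0x85bb49e9aa81a)
  (PL.C (nat_lit 0x4e6474) (nat_lit 0x0) (nat_lit 0x22577687ac63cd)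
  (PL.C (nat_lit 0x4e85c2) (nat_lit 0x0) (nat_lit 0x34ef629ab508013)
  (PL.C (nat_lit 0x4ea3d6) (nat_lit 0x18083ad7271ad25) (nat_lit 0x0)
  (PL.C (nat_lit 0x4ed7ca) (nat_lit 0x0) (nat_lit 0x2594ebfbce0c353)
  (PL.C (nat_lit 0x4f008c) (nat_lit 0x0) (nat_lit 0x5787b7ae281e0d)
  (PL.C (nat_lit 0x4fb1fe) (nat_lit 0x0) (nat_lit 0x7d95b62a9e8a2ff)
  (PL.C (nat_lit 0x4fdf44) (nat_lit 0x1f758f5c22bdc4) (nat_lit 0x0)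
  (PL.C (nat_lit 0x50a204) (nat_lit 0x18f472d77018466) (nat_lit 0x0)
  (PL.C (nat_lit 0x50afcc) (nat_lit 0x0) (nat_lit 0x91f10ce7facaca)
  (PL.C (nat_lit 0x512084) (nat_lit 0x0) (nat_lit 0x6d5911cf0311eb8)
  (PL.C (nat_lit 0x518098) (nat_lit 0x0) (nat_lit 0x1cadd9916daaed1)
  (PL.C (nat_lit 0x518a24) (nat_lit 0x733507ef0fbc63) (nat_lit 0x0)
  (PL.C (nat_lit 0x51a626) (nat_lit 0x68c79936c2707a) (nat_lit 0x0)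
  (PL.C (nat_lit 0x51abcf) (nat_lit 0x0) (nat_lit 0x2d4b39c307749a)
  (PL.C (nat_lit 0x52205a) (nat_lit 0xb58b80073b6c96) (nat_lit 0x0)
  (PL.C (nat_lit 0x527727) (nat_lit 0x9f9ff04c5bec22) (nat_lit 0x0)
  (PL.C (nat_lit 0x529c88) (nat_lit 0x0) (nat_lit 0x3d6e5061a11e1c) gp0_1_27))))))))))))))))))))

noncomputable def gp0_1_25 : PL :=
  (PL.C (nat_lit 0x49b838) (nat_lit 0x3f32a4e244196e) (nat_lit 0x0)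
  (PL.C (nat_lit 0x49c6d1) (nat_lit 0x0) (nat_lit 0x250217aa1a623cf)
  (PL.C (nat_lit 0x4a0748) (nat_lit 0x52a4a389a8c83) (nat_lit 0x0)
  (PL.C (nat_lit 0x4a6c1c) (nat_lit 0x0) (nat_lit 0xdeb7826f8b6203)
  (PL.C (nat_lit 0x4b2175) (nat_lit 0x3590941a64053a1) (nat_lit 0x0)
  (PL.C (nat_lit 0x4b3a14) (nat_lit 0x0) (nat_lit 0x21cff4ac9ae1a71)
  (PL.C (nat_lit 0x4b6522) (nat_lit 0x347defaffbbd7d1) (nat_lit 0x0)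
  (PL.C (nat_lit 0x4b8ade) (nat_lit 0x0) (nat_lit 0x21a29f4f11777a)
  (PL.C (nat_lit 0x4b96c8) (nat_lit 0x3c90ff3e01c880) (nat_lit 0x0)
  (PL.C (nat_lit 0x4bb5fe) (nat_lit 0x1d82105d56b74a) (nat_lit 0x0)
  (PL.C (nat_lit 0x4c025c) (nat_lit 0x0) (nat_lit 0x2e3bdcb0e55c475)
  (PL.C (nat_lit 0x4c938c) (nat_lit 0x0) (nat_lit 0x199ea9b4f621a48)
  (PL.C (nat_lit 0x4ce748) (nat_lit 0x0) (nat_lit 0x63f284dae8ff6)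
  (PL.C (nat_lit 0x4cea6e) (nat_lit 0xe7c800c5d6eb55) (nat_lit 0x0)
  (PL.C (nat_lit 0x4cefc3) (nat_lit 0x10bf8dfbc7e35ec) (nat_lit 0x0)
  (PL.C (nat_lit 0x4cfc02) (nat_lit 0x0) (nat_lit 0xac1ae7aa9185b2)
  (PL.C (nat_lit 0x4d0436) (nat_lit 0x0) (nat_lit 0x98ccb6364d56c93)
  (PL.C (nat_lit 0x4d9f6a) (nat_lit 0x0) (nat_lit 0x6af4ee8d003aa28)
  (PL.C (nat_lit 0x4db92c) (nat_lit 0x236842a48536a9) (nat_lit 0x0)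
  (PL.C (nat_lit 0x4e047a) (nat_lit 0x0) (nat_lit 0x7cb5aa0375208b6) gp0_1_26))))))))))))))))))))

noncomputable def gp0_1_24 : PL :=
  (PL.C (nat_lit 0x4514d8) (nat_lit 0x0) (nat_lit 0x21f7bfae56b64c)
  (PL.C (nat_lit 0x4550e4) (nat_lit 0x0) (nat_lit 0x3212dafbc91e0f)
  (PL.C (nat_lit 0x458eda) (nat_lit 0x0) (nat_lit 0x46f3ad0e3df57a0)
  (PL.C (nat_lit 0x45bca8) (nat_lit 0x882fee8a19a640) (nat_lit 0x0)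
  (PL.C (nat_lit 0x45cc98) (nat_lit 0x46cefe9248176b) (nat_lit 0x0)
  (PL.C (nat_lit 0x45d408) (nat_lit 0xf6af21cd98a0ff) (nat_lit 0x0)
  (PL.C (nat_lit 0x45e96a) (nat_lit 0x637eeaa95b1898) (nat_lit 0x0)
  (PL.C (nat_lit 0x45f21c) (nat_lit 0x0) (nat_lit 0xdeb7825923ac87)
  (PL.C (nat_lit 0x46c1ac) (nat_lit 0x0) (nat_lit 0x128bcc95cc3f128)
  (PL.C (nat_lit 0x46e42f) (nat_lit 0x0) (nat_lit 0x105b260f058d40)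
  (PL.C (nat_lit 0x47063a) (nat_lit 0x0) (nat_lit 0x3d18d9ae4438c34)
  (PL.C (nat_lit 0x473526) (nat_lit 0x28ae8ca0de1e2bf) (nat_lit 0x0)
  (PL.C (nat_lit 0x475266) (nat_lit 0xfcf32c35655f8b) (nat_lit 0x0)
  (PL.C (nat_lit 0x476a4e) (nat_lit 0x123938793b1334c) (nat_lit 0x0)
  (PL.C (nat_lit 0x478911) (nat_lit 0x4e7ddbf639bf576) (nat_lit 0x0)
  (PL.C (nat_lit 0x48231c) (nat_lit 0x0) (nat_lit 0x60a2d7eec2e748f)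
  (PL.C (nat_lit 0x484164) (nat_lit 0x1c9c9ad584a9bb) (nat_lit 0x0)
  (PL.C (nat_lit 0x48cac4) (nat_lit 0x0) (nat_lit 0x3bd07185b61419)
  (PL.C (nat_lit 0x48ee65) (nat_lit 0x10bf8e00fcfc013) (nat_lit 0x0)
  (PL.C (nat_lit 0x49760c) (nat_lit 0x0) (nat_lit 0x2f2188b7cdad594) gp0_1_25))))))))))))))))))))

noncomputable def gp0_1_23 : PL :=
  (PL.C (nat_lit 0x413fac) (nat_lit 0x0) (nat_lit 0x2aaca305caa273f)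
  (PL.C (nat_lit 0x415a9d) (nat_lit 0x0) (nat_lit 0x2d4b39c8dbe496)
  (PL.C (nat_lit 0x416054) (nat_lit 0x0) (nat_lit 0x4d32f82eba4490)
  (PL.C (nat_lit 0x417459) (nat_lit 0x7335c8b67a395b) (nat_lit 0x0)
  (PL.C (nat_lit 0x418692) (nat_lit 0x28c8a793ab2dc060) (nat_lit 0x0)
  (PL.C (nat_lit 0x41d42c) (nat_lit 0xc98c43645c323e) (nat_lit 0x0)
  (PL.C (nat_lit 0x41dbe2) (nat_lit 0x38b1b0aa83561d9) (nat_lit 0x0)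
  (PL.C (nat_lit 0x425535) (nat_lit 0x0) (nat_lit 0x1373ad761bb58e4)
  (PL.C (nat_lit 0x42a6e4) (nat_lit 0x0) (nat_lit 0x11b0da0bc7e96a)
  (PL.C (nat_lit 0x42dcb3) (nat_lit 0x0) (nat_lit 0xf73c98ce40cc23)
  (PL.C (nat_lit 0x42e763) (nat_lit 0x0) (nat_lit 0xc4326901b8603b)
  (PL.C (nat_lit 0x43376c) (nat_lit 0x1cf2d6804283e5c) (nat_lit 0x0)
  (PL.C (nat_lit 0x434676) (nat_lit 0x0) (nat_lit 0x7d95b627d28e38a)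
  (PL.C (nat_lit 0x43532d) (nat_lit 0x0) (nat_lit 0x9eff228f9e696)
  (PL.C (nat_lit 0x437b28) (nat_lit 0x25e29c68e2d726) (nat_lit 0x0)
  (PL.C (nat_lit 0x441114) (nat_lit 0x0) (nat_lit 0x2dbf7eaa500a3bf)
  (PL.C (nat_lit 0x444508) (nat_lit 0x46cefe817045bd) (nat_lit 0x0)
  (PL.C (nat_lit 0x447de8) (nat_lit 0x0) (nat_lit 0x21f7bfae56b64c)
  (PL.C (nat_lit 0x44ccf8) (nat_lit 0x3f32a4e244196e) (nat_lit 0x0)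
  (PL.C (nat_lit 0x4503c6) (nat_lit 0x0) (nat_lit 0x7d7e2e0970e065) gp0_1_24))))))))))))))))))))

noncomputable def gp0_1_22 : PL :=
  (PL.C (nat_lit 0x3cbe64) (nat_lit 0x0) (nat_lit 0x5b7508251d1981)
  (PL.C (nat_lit 0x3cc29a) (nat_lit 0x38a6747a37d5bcc) (nat_lit 0x0)
  (PL.C (nat_lit 0x3d3eb6) (nat_lit 0x0) (nat_lit 0x16d32cae35c3b67)
  (PL.C (nat_lit 0x3d645e) (nat_lit 0xca78fe776ffbb1) (nat_lit 0x0)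
  (PL.C (nat_lit 0x3d90b9) (nat_lit 0x1add869cb07e2cf) (nat_lit 0x0)
  (PL.C (nat_lit 0x3e033c) (nat_lit 0x0) (nat_lit 0x4aea2751e28a394)
  (PL.C (nat_lit 0x3e1d44) (nat_lit 0x61c6dbfdbc3baa) (nat_lit 0x0)
  (PL.C (nat_lit 0x3e1fcf) (nat_lit 0x0) (nat_lit 0x7fa812d395b68b)
  (PL.C (nat_lit 0x3e3b18) (nat_lit 0x0) (nat_lit 0x1cadd991dcc00d0)
  (PL.C (nat_lit 0x3e54ca) (nat_lit 0x1c6e220a57bad8) (nat_lit 0x0)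
  (PL.C (nat_lit 0x3e92c8) (nat_lit 0x16ca3360dcd178) (nat_lit 0x0)
  (PL.C (nat_lit 0x3eadbc) (nat_lit 0x0) (nat_lit 0x5787b7aca1cc20)
  (PL.C (nat_lit 0x3edf45) (nat_lit 0x250e7653cd4e9) (nat_lit 0x0)
  (PL.C (nat_lit 0x3f6c09) (nat_lit 0x54a4a10e0f74082) (nat_lit 0x0)
  (PL.C (nat_lit 0x3fa52a) (nat_lit 0xaddaccad98e45a) (nat_lit 0x0)
  (PL.C (nat_lit 0x3fcf36) (nat_lit 0x0) (nat_lit 0x2118f8fd1ace335)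
  (PL.C (nat_lit 0x3ffffc) (nat_lit 0x0) (nat_lit 0x16db82ac94ad39)
  (PL.C (nat_lit 0x401a69) (nat_lit 0xd261d964b28d7) (nat_lit 0x0)
  (PL.C (nat_lit 0x406538) (nat_lit 0x0) (nat_lit 0xccc26c2226fa01)
  (PL.C (nat_lit 0x41038e) (nat_lit 0x23426669ebf7c82) (nat_lit 0x0) gp0_1_23))))))))))))))))))))

noncomputable def gp0_1_21 : PL :=
  (PL.C (nat_lit 0x395da5) (nat_lit 0x54a4a10df021069) (nat_lit 0x0)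
  (PL.C (nat_lit 0x3969b8) (nat_lit 0x0) (nat_lit 0x202562e30b6fb4)
  (PL.C (nat_lit 0x399b2b) (nat_lit 0x9f9ff08607cc2b) (nat_lit 0x0)
  (PL.C (nat_lit 0x39b478) (nat_lit 0x0) (nat_lit 0x195ae03ef4efdf6)
  (PL.C (nat_lit 0x3a43be) (nat_lit 0x38b1b0ab509c9a2) (nat_lit 0x0)
  (PL.C (nat_lit 0x3a8374) (nat_lit 0x0) (nat_lit 0x8347ed55800f1)
  (PL.C (nat_lit 0x3ab7c2) (nat_lit 0x0) (nat_lit 0x46f3ad0b9f3ad87)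
  (PL.C (nat_lit 0x3ac648) (nat_lit 0x523b7ce637e79a9) (nat_lit 0x0)
  (PL.C (nat_lit 0x3af228) (nat_lit 0xf6af22110e4821) (nat_lit 0x0)
  (PL.C (nat_lit 0x3b0b8c) (nat_lit 0x0) (nat_lit 0x6f7b7dbaddbf987)
  (PL.C (nat_lit 0x3b586c) (nat_lit 0x0) (nat_lit 0x2257768009531c)
  (PL.C (nat_lit 0x3b70ed) (nat_lit 0x0) (nat_lit 0x9b3c13a1b18f2)
  (PL.C (nat_lit 0x3ba3b0) (nat_lit 0x0) (nat_lit 0x8fd40829e471a)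
  (PL.C (nat_lit 0x3bdb34) (nat_lit 0x2368428db8f546) (nat_lit 0x0)
  (PL.C (nat_lit 0x3bf3eb) (nat_lit 0x0) (nat_lit 0x9b3c13bafb2f3)
  (PL.C (nat_lit 0x3bf4a2) (nat_lit 0x0) (nat_lit 0x53b6a1171c5b40d)
  (PL.C (nat_lit 0x3c1c3e) (nat_lit 0x0) (nat_lit 0x3f0f70a8b4d153f)
  (PL.C (nat_lit 0x3c327c) (nat_lit 0x1ebb34ebce28d5b) (nat_lit 0x0)
  (PL.C (nat_lit 0x3c6315) (nat_lit 0x4d91e18e0021e08) (nat_lit 0x0)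
  (PL.C (nat_lit 0x3c9f24) (nat_lit 0x0) (nat_lit 0x2553afc630f3aac) gp0_1_22))))))))))))))))))))

noncomputable def gp0_1_20 : PL :=
  (PL.C (nat_lit 0x35c158) (nat_lit 0x147fbec7bcbbeee) (nat_lit 0x0)
  (PL.C (nat_lit 0x35ca88) (nat_lit 0x1f40dfe269a296) (nat_lit 0x0)
  (PL.C (nat_lit 0x365673) (nat_lit 0x0) (nat_lit 0x134aefcbce9eb36)
  (PL.C (nat_lit 0x365c18) (nat_lit 0x32c1a1ed17cb3ce) (nat_lit 0x0)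
  (PL.C (nat_lit 0x366ec4) (nat_lit 0x4904bc3787c114) (nat_lit 0x0)
  (PL.C (nat_lit 0x36728a) (nat_lit 0x0) (nat_lit 0x1268650f7b19de3)
  (PL.C (nat_lit 0x36c03c) (nat_lit 0x12543bec030fc08) (nat_lit 0x0)
  (PL.C (nat_lit 0x36fa1a) (nat_lit 0xd7d6d474a15436) (nat_lit 0x0)
  (PL.C (nat_lit 0x3738e4) (nat_lit 0x12543be9bd86272) (nat_lit 0x0)
  (PL.C (nat_lit 0x37505a) (nat_lit 0x0) (nat_lit 0xa09178374ff7cc1)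
  (PL.C (nat_lit 0x3791dc) (nat_lit 0x2586317626f8c21) (nat_lit 0x0)
  (PL.C (nat_lit 0x379484) (nat_lit 0x0) (nat_lit 0x236f4c5bca8831)
  (PL.C (nat_lit 0x37ab77) (nat_lit 0x0) (nat_lit 0x1730917a67a31)
  (PL.C (nat_lit 0x37e128) (nat_lit 0x0) (nat_lit 0x799afe6ecb64f)
  (PL.C (nat_lit 0x37fec9) (nat_lit 0x0) (nat_lit 0xc4326900600a7c)
  (PL.C (nat_lit 0x38174c) (nat_lit 0x23b8f6bc65f4ca) (nat_lit 0x0)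
  (PL.C (nat_lit 0x385374) (nat_lit 0x0) (nat_lit 0x2dbf7ea6d00dc2e)
  (PL.C (nat_lit 0x387a2f) (nat_lit 0x0) (nat_lit 0x1373ad73ac0e90c)
  (PL.C (nat_lit 0x38f848) (nat_lit 0x46675f6e3dee235) (nat_lit 0x0)
  (PL.C (nat_lit 0x392646) (nat_lit 0x3557d87a368bcf) (nat_lit 0x0) gp0_1_21))))))))))))))))))))

noncomputable def gp0_1_19 : PL :=
  (PL.C (nat_lit 0x32164e) (nat_lit 0x0) (nat_lit 0x290dcd12cba27fa)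
  (PL.C (nat_lit 0x32436c) (nat_lit 0x258631761479476) (nat_lit 0x0)
  (PL.C (nat_lit 0x327954) (nat_lit 0x1c9c9ad7290130) (nat_lit 0x0)
  (PL.C (nat_lit 0x330d08) (nat_lit 0x0) (nat_lit 0x195ae03eeb8ad0d)
  (PL.C (nat_lit 0x3346f4) (nat_lit 0xf0b0c4b2fa1a3) (nat_lit 0x0)
  (PL.C (nat_lit 0x334a82) (nat_lit 0xba60ef7817f36a6) (nat_lit 0x0)
  (PL.C (nat_lit 0x3352ac) (nat_lit 0x0) (nat_lit 0x771c3f8b7112d7)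
  (PL.C (nat_lit 0x335824) (nat_lit 0x0) (nat_lit 0x2e3bdcab3cfa8b1)
  (PL.C (nat_lit 0x3367dd) (nat_lit 0x0) (nat_lit 0x9eff21e34b195)
  (PL.C (nat_lit 0x33bf9c) (nat_lit 0x1704f586dcb72968) (nat_lit 0x0)
  (PL.C (nat_lit 0x3402fc) (nat_lit 0x0) (nat_lit 0xa8aae628ef77065)
  (PL.C (nat_lit 0x342088) (nat_lit 0x1821533ebefe9bb) (nat_lit 0x0)
  (PL.C (nat_lit 0x34360e) (nat_lit 0x637eeaa3b07308) (nat_lit 0x0)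
  (PL.C (nat_lit 0x34592c) (nat_lit 0x0) (nat_lit 0x1736e087918424e)
  (PL.C (nat_lit 0x34714b) (nat_lit 0x4a6702d1d1a931) (nat_lit 0x0)
  (PL.C (nat_lit 0x3482df) (nat_lit 0x16cbaec0491ea66) (nat_lit 0x0)
  (PL.C (nat_lit 0x34ab08) (nat_lit 0x1d73813ba8f413) (nat_lit 0x0)
  (PL.C (nat_lit 0x34ecb1) (nat_lit 0x0) (nat_lit 0xefc0f52f232f36b)
  (PL.C (nat_lit 0x352154) (nat_lit 0xb038a4fe06022b) (nat_lit 0x0)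
  (PL.C (nat_lit 0x353199) (nat_lit 0x0) (nat_lit 0x19195bcf1f20a65) gp0_1_20))))))))))))))))))))

noncomputable def gp0_1_18 : PL :=
  (PL.C (nat_lit 0x2d60b8) (nat_lit 0x0) (nat_lit 0x184353a609b4666)
  (PL.C (nat_lit 0x2e0284) (nat_lit 0x0) (nat_lit 0x91f10ce694d754)
  (PL.C (nat_lit 0x2e5f3c) (nat_lit 0xd4f3ec704b0147f) (nat_lit 0x0)
  (PL.C (nat_lit 0x2e9b9c) (nat_lit 0x0) (nat_lit 0xa59d9b83d554bf)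
  (PL.C (nat_lit 0x2ea168) (nat_lit 0x0) (nat_lit 0x4461f2da5467c3f)
  (PL.C (nat_lit 0x2f42ca) (nat_lit 0x361eb755ede1a1) (nat_lit 0x0)
  (PL.C (nat_lit 0x2f597c) (nat_lit 0x0) (nat_lit 0x4aea2754e8f8af8)
  (PL.C (nat_lit 0x2f6d09) (nat_lit 0x1d27837152b7240) (nat_lit 0x0)
  (PL.C (nat_lit 0x2f78c4) (nat_lit 0x32b9c38f569e300) (nat_lit 0x0)
  (PL.C (nat_lit 0x2f8c44) (nat_lit 0x18f472d7065599c) (nat_lit 0x0)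
  (PL.C (nat_lit 0x2f9c34) (nat_lit 0x0) (nat_lit 0x539971437ee8ec)
  (PL.C (nat_lit 0x2fb0b6) (nat_lit 0x0) (nat_lit 0xb906764b926e7)
  (PL.C (nat_lit 0x301768) (nat_lit 0x0) (nat_lit 0xccc26c1dbe1ff0)
  (PL.C (nat_lit 0x302b98) (nat_lit 0x0) (nat_lit 0x1a7715411b92bf)
  (PL.C (nat_lit 0x306cf9) (nat_lit 0x3590941d1d9e5d3) (nat_lit 0x0)
  (PL.C (nat_lit 0x308cf7) (nat_lit 0x22256793397c0fa) (nat_lit 0x0)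
  (PL.C (nat_lit 0x309eee) (nat_lit 0x9a60b5d53a649ac) (nat_lit 0x0)
  (PL.C (nat_lit 0x312f36) (nat_lit 0x0) (nat_lit 0x7cb5aa037f990d0)
  (PL.C (nat_lit 0x315a30) (nat_lit 0x0) (nat_lit 0x8fd40829e471a)
  (PL.C (nat_lit 0x319d68) (nat_lit 0x0) (nat_lit 0x4461f2d7326ba9b) gp0_1_19))))))))))))))))))))

noncomputable def gp0_1_17 : PL :=
  (PL.C (nat_lit 0x29ea2e) (nat_lit 0x0) (nat_lit 0x1f1afa8bb571ff)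
  (PL.C (nat_lit 0x2a4806) (nat_lit 0x0) (nat_lit 0x2a2e87dc7cf6e64)
  (PL.C (nat_lit 0x2a6e1c) (nat_lit 0xc98c4363d8aa5d) (nat_lit 0x0)
  (PL.C (nat_lit 0x2a8a24) (nat_lit 0x0) (nat_lit 0x2525c5160c72169)
  (PL.C (nat_lit 0x2aaaa8) (nat_lit 0xf85f4e54f710d0) (nat_lit 0x0)
  (PL.C (nat_lit 0x2abc46) (nat_lit 0x0) (nat_lit 0x1e700822ec3fe32)
  (PL.C (nat_lit 0x2b57b4) (nat_lit 0x289a48cb85f8629) (nat_lit 0x0)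
  (PL.C (nat_lit 0x2b7fc8) (nat_lit 0x0) (nat_lit 0x13af98f22a0b452)
  (PL.C (nat_lit 0x2b91be) (nat_lit 0x0) (nat_lit 0x13d38655746627b)
  (PL.C (nat_lit 0x2ba2e6) (nat_lit 0xa782e8acad8469) (nat_lit 0x0)
  (PL.C (nat_lit 0x2baf0c) (nat_lit 0x0) (nat_lit 0x2256b3470475a149)
  (PL.C (nat_lit 0x2be2c8) (nat_lit 0x0) (nat_lit 0x8de4dc5203e03)
  (PL.C (nat_lit 0x2be7ec) (nat_lit 0x4a2c99e3e2bda88) (nat_lit 0x0)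
  (PL.C (nat_lit 0x2bfa0d) (nat_lit 0x0) (nat_lit 0x7a324ea0db31a6)
  (PL.C (nat_lit 0x2c38ce) (nat_lit 0x15b041aa9113f3) (nat_lit 0x0)
  (PL.C (nat_lit 0x2c9322) (nat_lit 0x0) (nat_lit 0x3e1de22a7861c8)
  (PL.C (nat_lit 0x2c9a42) (nat_lit 0x0) (nat_lit 0x16ea6e5feb2eb31)
  (PL.C (nat_lit 0x2cad35) (nat_lit 0x0) (nat_lit 0x18fbe0c29b4a8b)
  (PL.C (nat_lit 0x2cd9a4) (nat_lit 0xb038a54fb0f1bf) (nat_lit 0x0)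
  (PL.C (nat_lit 0x2ce21e) (nat_lit 0x1b99c9865ae974) (nat_lit 0x0) gp0_1_18))))))))))))))))))))

noncomputable def gp0_1_16 : PL :=
  (PL.C (nat_lit 0x26d7d4) (nat_lit 0x4a2c99e95463e30) (nat_lit 0x0)
  (PL.C (nat_lit 0x27252c) (nat_lit 0xd4f3ec655c04872) (nat_lit 0x0)
  (PL.C (nat_lit 0x275d08) (nat_lit 0xe7944ad373e915) (nat_lit 0x0)
  (PL.C (nat_lit 0x2761a7) (nat_lit 0x0) (nat_lit 0x25bf8272d5e210)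
  (PL.C (nat_lit 0x27a09e) (nat_lit 0x4ebb5a1a55f0d7) (nat_lit 0x0)
  (PL.C (nat_lit 0x27b9d3) (nat_lit 0x0) (nat_lit 0x19195bd01d0b98d)
  (PL.C (nat_lit 0x27f7f2) (nat_lit 0x4ebb5a1d68873f) (nat_lit 0x0)
  (PL.C (nat_lit 0x27f86c) (nat_lit 0x0) (nat_lit 0x21313cf68b9cea0)
  (PL.C (nat_lit 0x2808ed) (nat_lit 0x0) (nat_lit 0x9be72b2d5c2a1)
  (PL.C (nat_lit 0x2812d4) (nat_lit 0x0) (nat_lit 0xf1862b04b6acb4)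
  (PL.C (nat_lit 0x2821a8) (nat_lit 0x0) (nat_lit 0x9c4fbe278de451)
  (PL.C (nat_lit 0x28420e) (nat_lit 0x27a34d896c0ebc9) (nat_lit 0x0)
  (PL.C (nat_lit 0x2881bc) (nat_lit 0x287240c5bbfbc8b) (nat_lit 0x0)
  (PL.C (nat_lit 0x290b26) (nat_lit 0x0) (nat_lit 0x42dba59de31125)
  (PL.C (nat_lit 0x2968d8) (nat_lit 0x0) (nat_lit 0x11c518f7deb48b)
  (PL.C (nat_lit 0x296a8a) (nat_lit 0x0) (nat_lit 0x2f1b2a560724c3)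
  (PL.C (nat_lit 0x296d69) (nat_lit 0x0) (nat_lit 0xb625bb131d9428)
  (PL.C (nat_lit 0x298ddc) (nat_lit 0x130cba2fb056fb1) (nat_lit 0x0)
  (PL.C (nat_lit 0x29b730) (nat_lit 0x0) (nat_lit 0x110c051d3c77c1)
  (PL.C (nat_lit 0x29c928) (nat_lit 0x1d73813ee4c75e) (nat_lit 0x0) gp0_1_17))))))))))))))))))))

noncomputable def gp0_1_15 : PL :=
  (PL.C (nat_lit 0x2301ea) (nat_lit 0xca78fe776ffbb1) (nat_lit 0x0)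
  (PL.C (nat_lit 0x231cb0) (nat_lit 0x38c26208cf9237) (nat_lit 0x0)
  (PL.C (nat_lit 0x234876) (nat_lit 0x1b910e7f712d7d8) (nat_lit 0x0)
  (PL.C (nat_lit 0x237666) (nat_lit 0x0) (nat_lit 0x3bddb5a4cfd9d11)
  (PL.C (nat_lit 0x23e0f5) (nat_lit 0x6372d5ce94d916) (nat_lit 0x0)
  (PL.C (nat_lit 0x2439a2) (nat_lit 0x0) (nat_lit 0x7b606796d5e8d37)
  (PL.C (nat_lit 0x2449d8) (nat_lit 0x0) (nat_lit 0x63f284dae8ff6)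
  (PL.C (nat_lit 0x244c5c) (nat_lit 0x356b148fe925fc) (nat_lit 0x0)
  (PL.C (nat_lit 0x24a6bc) (nat_lit 0x0) (nat_lit 0x2b3782fcdfc359)
  (PL.C (nat_lit 0x24e03c) (nat_lit 0xbe73c24c8f27640) (nat_lit 0x0)
  (PL.C (nat_lit 0x250be8) (nat_lit 0x0) (nat_lit 0x3d651d6404de34)
  (PL.C (nat_lit 0x251cfa) (nat_lit 0x3c96696d55c314) (nat_lit 0x0)
  (PL.C (nat_lit 0x255486) (nat_lit 0x0) (nat_lit 0x16ea6e674caa8ba)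
  (PL.C (nat_lit 0x258cf8) (nat_lit 0x0) (nat_lit 0x184353a7a633d6d)
  (PL.C (nat_lit 0x25a6ca) (nat_lit 0x15b04210a62238) (nat_lit 0x0)
  (PL.C (nat_lit 0x25b6c9) (nat_lit 0x0) (nat_lit 0x2979afdee4922bb)
  (PL.C (nat_lit 0x261984) (nat_lit 0x0) (nat_lit 0x49ab463a4eac7e)
  (PL.C (nat_lit 0x263e6e) (nat_lit 0x0) (nat_lit 0x2a2e87da1c08851)
  (PL.C (nat_lit 0x266772) (nat_lit 0xd7d6d4702509eb) (nat_lit 0x0)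
  (PL.C (nat_lit 0x267850) (nat_lit 0x36893e9ca79d5b) (nat_lit 0x0) gp0_1_16))))))))))))))))))))

noncomputable def gp0_1_14 : PL :=
  (PL.C (nat_lit 0x201d10) (nat_lit 0x0) (nat_lit 0x5416280cb9e87)
  (PL.C (nat_lit 0x2048a6) (nat_lit 0x0) (nat_lit 0x290dcd0f46ab6e4)
  (PL.C (nat_lit 0x205dfa) (nat_lit 0x26ab13d592788ce) (nat_lit 0x0)
  (PL.C (nat_lit 0x2069f4) (nat_lit 0x87f13e78e7578be) (nat_lit 0x0)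
  (PL.C (nat_lit 0x2073e1) (nat_lit 0x0) (nat_lit 0x75172e06a5e03b)
  (PL.C (nat_lit 0x20841f) (nat_lit 0x28d14e0444e0801) (nat_lit 0x0)
  (PL.C (nat_lit 0x2096af) (nat_lit 0x0) (nat_lit 0x25bf8272d5e210)
  (PL.C (nat_lit 0x20ca24) (nat_lit 0x0) (nat_lit 0xa8aae62c8d2b3db)
  (PL.C (nat_lit 0x21268b) (nat_lit 0x0) (nat_lit 0xb625bb0988608a)
  (PL.C (nat_lit 0x216434) (nat_lit 0x0) (nat_lit 0x73c506d2b178584)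
  (PL.C (nat_lit 0x218248) (nat_lit 0x0) (nat_lit 0x3d651d6404de34)
  (PL.C (nat_lit 0x21a638) (nat_lit 0x0) (nat_lit 0x1a7715416b7208)
  (PL.C (nat_lit 0x21daaf) (nat_lit 0x0) (nat_lit 0x3580939369bbc0)
  (PL.C (nat_lit 0x2208b0) (nat_lit 0x36893e9ca79d5b) (nat_lit 0x0)
  (PL.C (nat_lit 0x22267b) (nat_lit 0x4e08acaa65af5a4) (nat_lit 0x0)
  (PL.C (nat_lit 0x2231ac) (nat_lit 0x0) (nat_lit 0x1509eaa314bbb1b)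
  (PL.C (nat_lit 0x22453e) (nat_lit 0x1b99c9823d50e8) (nat_lit 0x0)
  (PL.C (nat_lit 0x22aca8) (nat_lit 0x2fb0a50c5add7b0) (nat_lit 0x0)
  (PL.C (nat_lit 0x22ceb4) (nat_lit 0x0) (nat_lit 0xa59d9b8bca1d79)
  (PL.C (nat_lit 0x22f632) (nat_lit 0x1153139b211d699) (nat_lit 0x0) gp0_1_15))))))))))))))))))))

noncomputable def gp0_1_13 : PL :=
  (PL.C (nat_lit 0x1d1744) (nat_lit 0x5c467e9fd10b46) (nat_lit 0x0)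
  (PL.C (nat_lit 0x1d2347) (nat_lit 0x103cf7e951f555) (nat_lit 0x0)
  (PL.C (nat_lit 0x1d4548) (nat_lit 0x0) (nat_lit 0x12694a97d6a9604)
  (PL.C (nat_lit 0x1d515e) (nat_lit 0x0) (nat_lit 0x16957852bcac5b)
  (PL.C (nat_lit 0x1d7b34) (nat_lit 0x79b2386cc3ffb6) (nat_lit 0x0)
  (PL.C (nat_lit 0x1db4d3) (nat_lit 0x0) (nat_lit 0x7a324ea0db31a6)
  (PL.C (nat_lit 0x1dbc2c) (nat_lit 0x0) (nat_lit 0x14c57a8dd34785a)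
  (PL.C (nat_lit 0x1dc8ce) (nat_lit 0x31245290480cac5f) (nat_lit 0x0)
  (PL.C (nat_lit 0x1dec14) (nat_lit 0x0) (nat_lit 0x5da7cebcdee44)
  (PL.C (nat_lit 0x1e26bb) (nat_lit 0x0) (nat_lit 0xfcb630d94763bc)
  (PL.C (nat_lit 0x1e4989) (nat_lit 0x0) (nat_lit 0x75172e06a5e03b)
  (PL.C (nat_lit 0x1e692d) (nat_lit 0x0) (nat_lit 0xfcb630ffadb436)
  (PL.C (nat_lit 0x1eac58) (nat_lit 0x1f40dfe269a296) (nat_lit 0x0)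
  (PL.C (nat_lit 0x1ebd57) (nat_lit 0x14b7585e179c1ac) (nat_lit 0x0)
  (PL.C (nat_lit 0x1eea28) (nat_lit 0x11a616da985bf4) (nat_lit 0x0)
  (PL.C (nat_lit 0x1f1268) (nat_lit 0x0) (nat_lit 0x1a639684e3ce28c)
  (PL.C (nat_lit 0x1f9e06) (nat_lit 0x0) (nat_lit 0x3e1e0eca7593490)
  (PL.C (nat_lit 0x1fb2d8) (nat_lit 0x147fbec97db9afb) (nat_lit 0x0)
  (PL.C (nat_lit 0x1fbd78) (nat_lit 0x998ee2d9cfcb04) (nat_lit 0x0)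
  (PL.C (nat_lit 0x1fcb24) (nat_lit 0x52fb6cd9e3cc39f) (nat_lit 0x0) gp0_1_14))))))))))))))))))))

noncomputable def gp0_1_12 : PL :=
  (PL.C (nat_lit 0x1a6b14) (nat_lit 0x52815ff55e804b) (nat_lit 0x0)
  (PL.C (nat_lit 0x1a7be2) (nat_lit 0x0) (nat_lit 0x3bddb5a4e7c00d9)
  (PL.C (nat_lit 0x1aa54c) (nat_lit 0x52815ff710c96d) (nat_lit 0x0)
  (PL.C (nat_lit 0x1ab09e) (nat_lit 0x0) (nat_lit 0x47192b024ad65e4)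
  (PL.C (nat_lit 0x1ad6b4) (nat_lit 0x0) (nat_lit 0x18f0f9224d2c1ec)
  (PL.C (nat_lit 0x1b5cc4) (nat_lit 0x0) (nat_lit 0x53f6d4467bcf308)
  (PL.C (nat_lit 0x1b6525) (nat_lit 0x6372d5ce94d916) (nat_lit 0x0)
  (PL.C (nat_lit 0x1b72db) (nat_lit 0x0) (nat_lit 0x9858d9949f2906)
  (PL.C (nat_lit 0x1b8bbf) (nat_lit 0x5a520fba1ec9fe) (nat_lit 0x0)
  (PL.C (nat_lit 0x1b9c5c) (nat_lit 0x0) (nat_lit 0x8347ec733adb9)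
  (PL.C (nat_lit 0x1b9e46) (nat_lit 0x485fa938f63668f) (nat_lit 0x0)
  (PL.C (nat_lit 0x1bb3e8) (nat_lit 0x1ef25e1e4649a44) (nat_lit 0x0)
  (PL.C (nat_lit 0x1bdb70) (nat_lit 0x38c26208cf9237) (nat_lit 0x0)
  (PL.C (nat_lit 0x1bf174) (nat_lit 0x0) (nat_lit 0x72223c9c7dd72d)
  (PL.C (nat_lit 0x1c3004) (nat_lit 0x3ab9b128e3de124) (nat_lit 0x0)
  (PL.C (nat_lit 0x1c3d01) (nat_lit 0x0) (nat_lit 0x105b2604e6f4b1)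
  (PL.C (nat_lit 0x1c4968) (nat_lit 0x0) (nat_lit 0x8de4dc5203e03)
  (PL.C (nat_lit 0x1c5c18) (nat_lit 0x228c988d3ec226) (nat_lit 0x0)
  (PL.C (nat_lit 0x1c7d84) (nat_lit 0x0) (nat_lit 0x387a60fa756b060)
  (PL.C (nat_lit 0x1d0bd4) (nat_lit 0x0) (nat_lit 0x31aa07d03086e7) gp0_1_13))))))))))))))))))))

noncomputable def gp0_1_11 : PL :=
  (PL.C (nat_lit 0x172f77) (nat_lit 0x3871833d2c3244) (nat_lit 0x0)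
  (PL.C (nat_lit 0x173478) (nat_lit 0x0) (nat_lit 0x1a639684ed616dc)
  (PL.C (nat_lit 0x174ecc) (nat_lit 0x0) (nat_lit 0x3212db100daa71)
  (PL.C (nat_lit 0x17a444) (nat_lit 0x12180bf8d1020ef) (nat_lit 0x0)
  (PL.C (nat_lit 0x17ae07) (nat_lit 0x331a21a983c154) (nat_lit 0x0)
  (PL.C (nat_lit 0x17eb4e) (nat_lit 0x0) (nat_lit 0x4e4ffa17e509b5)
  (PL.C (nat_lit 0x1832e8) (nat_lit 0x0) (nat_lit 0xc09577c5492dd5)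
  (PL.C (nat_lit 0x18bdfc) (nat_lit 0x61c6dbfdc49bb3) (nat_lit 0x0)
  (PL.C (nat_lit 0x18e304) (nat_lit 0x0) (nat_lit 0x14c57a904d8b38a)
  (PL.C (nat_lit 0x1919dc) (nat_lit 0x79b2385f97ff9e) (nat_lit 0x0)
  (PL.C (nat_lit 0x192486) (nat_lit 0x0) (nat_lit 0x1e3cc4c1b07762ab)
  (PL.C (nat_lit 0x194631) (nat_lit 0x0) (nat_lit 0x29faebe1e853a45)
  (PL.C (nat_lit 0x196719) (nat_lit 0x9a1646f4231a67) (nat_lit 0x0)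
  (PL.C (nat_lit 0x197ef4) (nat_lit 0x3ab9b129ab16364) (nat_lit 0x0)
  (PL.C (nat_lit 0x199a4c) (nat_lit 0x0) (nat_lit 0x2b3782fcdfc359)
  (PL.C (nat_lit 0x19e538) (nat_lit 0x0) (nat_lit 0x12694a9c03608c8)
  (PL.C (nat_lit 0x19f2f3) (nat_lit 0x14b7585e179c1ac) (nat_lit 0x0)
  (PL.C (nat_lit 0x1a134b) (nat_lit 0x4e08aca91ec5283) (nat_lit 0x0)
  (PL.C (nat_lit 0x1a18c8) (nat_lit 0x11a61679e7a538) (nat_lit 0x0)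
  (PL.C (nat_lit 0x1a411a) (nat_lit 0x350bd822bc1c8) (nat_lit 0x0) gp0_1_12))))))))))))))))))))

noncomputable def gp0_1_10 : PL :=
  (PL.C (nat_lit 0x143106) (nat_lit 0xc15c20b546997) (nat_lit 0x0)
  (PL.C (nat_lit 0x14461e) (nat_lit 0x0) (nat_lit 0x4cc0db4b454a4d)
  (PL.C (nat_lit 0x144ebb) (nat_lit 0x2670870732a8b07) (nat_lit 0x0)
  (PL.C (nat_lit 0x147e3a) (nat_lit 0x0) (nat_lit 0x146c17c82bcf775)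
  (PL.C (nat_lit 0x14b6f0) (nat_lit 0x7050d35f2792d7) (nat_lit 0x0)
  (PL.C (nat_lit 0x151404) (nat_lit 0x3ab3434a9827c08) (nat_lit 0x0)
  (PL.C (nat_lit 0x153218) (nat_lit 0x0) (nat_lit 0x1bbd94cbea22a85)
  (PL.C (nat_lit 0x153495) (nat_lit 0x0) (nat_lit 0x27138aa246cdd5)
  (PL.C (nat_lit 0x1585c4) (nat_lit 0x0) (nat_lit 0x73c506d2d79bbe4)
  (PL.C (nat_lit 0x159bf8) (nat_lit 0x772eca2c7ad57bc) (nat_lit 0x0)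
  (PL.C (nat_lit 0x15a296) (nat_lit 0xc15c20b546997) (nat_lit 0x0)
  (PL.C (nat_lit 0x15ad6a) (nat_lit 0x6f2f16a74ccf9d0) (nat_lit 0x0)
  (PL.C (nat_lit 0x15b9ca) (nat_lit 0x350bd822bc1c8) (nat_lit 0x0)
  (PL.C (nat_lit 0x15dc18) (nat_lit 0x2fb0a51087807d0) (nat_lit 0x0)
  (PL.C (nat_lit 0x1619b2) (nat_lit 0x3d45015116780cc) (nat_lit 0x0)
  (PL.C (nat_lit 0x166ed0) (nat_lit 0x0) (nat_lit 0x5416280cb9e87)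
  (PL.C (nat_lit 0x167937) (nat_lit 0x9a1646f4231a67) (nat_lit 0x0)
  (PL.C (nat_lit 0x1691ca) (nat_lit 0x45ad6b9024d24b) (nat_lit 0x0)
  (PL.C (nat_lit 0x16c452) (nat_lit 0x4003c7459e9119a) (nat_lit 0x0)
  (PL.C (nat_lit 0x16d8d4) (nat_lit 0x0) (nat_lit 0x5da7cecfb2ae7) gp0_1_11))))))))))))))))))))

noncomputable def gp0_1_9 : PL :=
  (PL.C (nat_lit 0x11cb14) (nat_lit 0x0) (nat_lit 0x36eb83cece84db9)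
  (PL.C (nat_lit 0x11e478) (nat_lit 0x50312e4aa31f425) (nat_lit 0x0)
  (PL.C (nat_lit 0x123aad) (nat_lit 0x0) (nat_lit 0x355c5177fc8fa0)
  (PL.C (nat_lit 0x123dd8) (nat_lit 0x0) (nat_lit 0x3b0ee605452a894)
  (PL.C (nat_lit 0x12436e) (nat_lit 0x0) (nat_lit 0x4e4ffa17e509b5)
  (PL.C (nat_lit 0x124c92) (nat_lit 0x1c25e1714a3f08e) (nat_lit 0x0)
  (PL.C (nat_lit 0x125d2a) (nat_lit 0x4f7d3e2c436f92) (nat_lit 0x0)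
  (PL.C (nat_lit 0x126513) (nat_lit 0x3871833d2c3244) (nat_lit 0x0)
  (PL.C (nat_lit 0x1277f0) (nat_lit 0x0) (nat_lit 0x8002943941399a)
  (PL.C (nat_lit 0x12a0f8) (nat_lit 0x8de927c0727bbc) (nat_lit 0x0)
  (PL.C (nat_lit 0x12d356) (nat_lit 0x361eb755ede1a1) (nat_lit 0x0)
  (PL.C (nat_lit 0x12fe58) (nat_lit 0x0) (nat_lit 0x1db0b4276737c62)
  (PL.C (nat_lit 0x1351bf) (nat_lit 0x0) (nat_lit 0x3c9bb2826937cd)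
  (PL.C (nat_lit 0x135d38) (nat_lit 0x0) (nat_lit 0x1c1d3f0068dfbe9)
  (PL.C (nat_lit 0x136cda) (nat_lit 0x0) (nat_lit 0x127c7ecc4bf875b)
  (PL.C (nat_lit 0x138b94) (nat_lit 0x0) (nat_lit 0x1630c89909de2f1)
  (PL.C (nat_lit 0x13cde2) (nat_lit 0x0) (nat_lit 0x16957852bcac5b)
  (PL.C (nat_lit 0x13db34) (nat_lit 0x256e582e5d9574b) (nat_lit 0x0)
  (PL.C (nat_lit 0x13f2b8) (nat_lit 0x0) (nat_lit 0x30c47b39746e68)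
  (PL.C (nat_lit 0x1419d2) (nat_lit 0x0) (nat_lit 0x4cc0db4b454a4d) gp0_1_10))))))))))))))))))))

noncomputable def gp0_1_8 : PL :=
  (PL.C (nat_lit 0xed021) (nat_lit 0x0) (nat_lit 0x27138aa246cdd5)
  (PL.C (nat_lit 0xefb7a) (nat_lit 0x17d9626a895ae9e) (nat_lit 0x0)
  (PL.C (nat_lit 0xf0bdc) (nat_lit 0x0) (nat_lit 0x567e25a6bc85bb)
  (PL.C (nat_lit 0xf3b38) (nat_lit 0x0) (nat_lit 0x30c47b39746e68)
  (PL.C (nat_lit 0xf74fa) (nat_lit 0x0) (nat_lit 0x24b5a07efb0296)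
  (PL.C (nat_lit 0xf7850) (nat_lit 0x7050d35f2792d7) (nat_lit 0x0)
  (PL.C (nat_lit 0xfc95a) (nat_lit 0x0) (nat_lit 0x7af4927025079f)
  (PL.C (nat_lit 0xff234) (nat_lit 0x0) (nat_lit 0xb793695cb85771)
  (PL.C (nat_lit 0xff98d) (nat_lit 0x0) (nat_lit 0x3580939369bbc0)
  (PL.C (nat_lit 0x104efb) (nat_lit 0x0) (nat_lit 0x2cf2cd283605a73)
  (PL.C (nat_lit 0x107ea8) (nat_lit 0x0) (nat_lit 0x11c518f7deb48b)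
  (PL.C (nat_lit 0x10c304) (nat_lit 0x8421833248012d5) (nat_lit 0x0)
  (PL.C (nat_lit 0x10d976) (nat_lit 0x1c07e84ade04b36) (nat_lit 0x0)
  (PL.C (nat_lit 0x10ef66) (nat_lit 0x17d9626a895ae9e) (nat_lit 0x0)
  (PL.C (nat_lit 0x114ca2) (nat_lit 0x0) (nat_lit 0x146c17c82bcf775)
  (PL.C (nat_lit 0x116232) (nat_lit 0x4003c7459e9119a) (nat_lit 0x0)
  (PL.C (nat_lit 0x1180bc) (nat_lit 0x6f664c0a2cc862) (nat_lit 0x0)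
  (PL.C (nat_lit 0x119cb8) (nat_lit 0x55d2d8f0763f4) (nat_lit 0x0)
  (PL.C (nat_lit 0x11a7ec) (nat_lit 0x12180bf8d1020ef) (nat_lit 0x0)
  (PL.C (nat_lit 0x11c388) (nat_lit 0x55d2d8f0763f4) (nat_lit 0x0) gp0_1_9))))))))))))))))))))

noncomputable def gp0_1_7 : PL :=
  (PL.C (nat_lit 0xce8d0) (nat_lit 0xbc3e39c90e3ee0) (nat_lit 0x0)
  (PL.C (nat_lit 0xcf33c) (nat_lit 0x0) (nat_lit 0x1e3265d598ea4b8)
  (PL.C (nat_lit 0xd07b8) (nat_lit 0x74e6516345e5a6) (nat_lit 0x0)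
  (PL.C (nat_lit 0xd33ec) (nat_lit 0x0) (nat_lit 0x1630c89909de2f1)
  (PL.C (nat_lit 0xd668c) (nat_lit 0x0) (nat_lit 0x830907d672992d)
  (PL.C (nat_lit 0xd7604) (nat_lit 0x0) (nat_lit 0x2beac22dfab9c6f)
  (PL.C (nat_lit 0xd80bd) (nat_lit 0x331a21a983c154) (nat_lit 0x0)
  (PL.C (nat_lit 0xd8414) (nat_lit 0x0) (nat_lit 0x830907d672992d)
  (PL.C (nat_lit 0xd89d2) (nat_lit 0x5948b6f751b54ea) (nat_lit 0x0)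
  (PL.C (nat_lit 0xd9bf3) (nat_lit 0x168481aaea03974) (nat_lit 0x0)
  (PL.C (nat_lit 0xda97c) (nat_lit 0xb01b6430a5ee65) (nat_lit 0x0)
  (PL.C (nat_lit 0xdadab) (nat_lit 0x0) (nat_lit 0x6790655f81b020)
  (PL.C (nat_lit 0xdf8f9) (nat_lit 0x4906fb146856e3) (nat_lit 0x0)
  (PL.C (nat_lit 0xe230e) (nat_lit 0x0) (nat_lit 0xb7299e50dffd9)
  (PL.C (nat_lit 0xe6c64) (nat_lit 0x0) (nat_lit 0x2beac22dfab9c6f)
  (PL.C (nat_lit 0xe739c) (nat_lit 0x3ca74fdcf8d0b21) (nat_lit 0x0)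
  (PL.C (nat_lit 0xe7bdc) (nat_lit 0x6f664c0a2cc862) (nat_lit 0x0)
  (PL.C (nat_lit 0xebbcc) (nat_lit 0x0) (nat_lit 0x29d5a96573dda1d)
  (PL.C (nat_lit 0xec04f) (nat_lit 0x0) (nat_lit 0x2cf2cd283605a73)
  (PL.C (nat_lit 0xec7b1) (nat_lit 0x0) (nat_lit 0x1962132eaded2f0) gp0_1_8))))))))))))))))))))

noncomputable def gp0_1_6 : PL :=
  (PL.C (nat_lit 0xaa178) (nat_lit 0x12e8579c3ba694e) (nat_lit 0x0)
  (PL.C (nat_lit 0xaa65e) (nat_lit 0x45ad6b9024d24b) (nat_lit 0x0)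
  (PL.C (nat_lit 0xaa71b) (nat_lit 0x8412624691f4ca) (nat_lit 0x0)
  (PL.C (nat_lit 0xadf52) (nat_lit 0x1020cd17352a02a) (nat_lit 0x0)
  (PL.C (nat_lit 0xb3ba4) (nat_lit 0x3541cb55dc72eae) (nat_lit 0x0)
  (PL.C (nat_lit 0xb4a44) (nat_lit 0x637326eeb82182) (nat_lit 0x0)
  (PL.C (nat_lit 0xb7cff) (nat_lit 0x168481aaea03974) (nat_lit 0x0)
  (PL.C (nat_lit 0xb886c) (nat_lit 0xb01b6430a5ee65) (nat_lit 0x0)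
  (PL.C (nat_lit 0xbab28) (nat_lit 0x0) (nat_lit 0x6c32b28ca5aefa)
  (PL.C (nat_lit 0xbdcb8) (nat_lit 0x0) (nat_lit 0x688793c198ac5e)
  (PL.C (nat_lit 0xc271e) (nat_lit 0x1a77ca3c1aa86a) (nat_lit 0x0)
  (PL.C (nat_lit 0xc2cf4) (nat_lit 0x0) (nat_lit 0xb793695cb85771)
  (PL.C (nat_lit 0xc31fb) (nat_lit 0x0) (nat_lit 0x754ce6dcef8c64)
  (PL.C (nat_lit 0xc330c) (nat_lit 0x36aacecba07727a) (nat_lit 0x0)
  (PL.C (nat_lit 0xc3e1c) (nat_lit 0x107c051d6ca7719) (nat_lit 0x0)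
  (PL.C (nat_lit 0xc4362) (nat_lit 0x0) (nat_lit 0x24b5a07efb0296)
  (PL.C (nat_lit 0xc73cb) (nat_lit 0x0) (nat_lit 0x3c9bb2826937cd)
  (PL.C (nat_lit 0xc7c05) (nat_lit 0x212ff5f95f6a97a) (nat_lit 0x0)
  (PL.C (nat_lit 0xca990) (nat_lit 0x5ec33952ed2008) (nat_lit 0x0)
  (PL.C (nat_lit 0xce12a) (nat_lit 0x39321b7fe458ea) (nat_lit 0x0) gp0_1_7))))))))))))))))))))

noncomputable def gp0_1_5 : PL :=
  (PL.C (nat_lit 0x8cd48) (nat_lit 0x74e6516345e5a6) (nat_lit 0x0)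
  (PL.C (nat_lit 0x8ef08) (nat_lit 0x0) (nat_lit 0x20d9d6e8dd9b860)
  (PL.C (nat_lit 0x8f958) (nat_lit 0x0) (nat_lit 0x3194516fa19d08)
  (PL.C (nat_lit 0x9007e) (nat_lit 0x0) (nat_lit 0x7af4927025079f)
  (PL.C (nat_lit 0x902b8) (nat_lit 0x0) (nat_lit 0x20d9d6e8dd9b860)
  (PL.C (nat_lit 0x912a2) (nat_lit 0x0) (nat_lit 0x14901a28c2189a7)
  (PL.C (nat_lit 0x91ba8) (nat_lit 0x311110b19ee2cbe) (nat_lit 0x0)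
  (PL.C (nat_lit 0x91e72) (nat_lit 0x141c1a8c04ef736) (nat_lit 0x0)
  (PL.C (nat_lit 0x950a6) (nat_lit 0x0) (nat_lit 0x492703ae83c37d)
  (PL.C (nat_lit 0x96cb4) (nat_lit 0x0) (nat_lit 0x1329f5a70f0eb3)
  (PL.C (nat_lit 0x99d98) (nat_lit 0x0) (nat_lit 0x3194516fa19d08)
  (PL.C (nat_lit 0x9a7e8) (nat_lit 0x0) (nat_lit 0x6c32b28ca5aefa)
  (PL.C (nat_lit 0x9d58a) (nat_lit 0x1020cd17352a02a) (nat_lit 0x0)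
  (PL.C (nat_lit 0x9da76) (nat_lit 0x0) (nat_lit 0x14076ddc6b8d502)
  (PL.C (nat_lit 0x9e016) (nat_lit 0x0) (nat_lit 0xb7299e50dffd9)
  (PL.C (nat_lit 0x9fcfc) (nat_lit 0x637326eeb82182) (nat_lit 0x0)
  (PL.C (nat_lit 0xa07e8) (nat_lit 0x0) (nat_lit 0x82b80d33af92ba)
  (PL.C (nat_lit 0xa3719) (nat_lit 0x0) (nat_lit 0x6790655f81b020)
  (PL.C (nat_lit 0xa4dfc) (nat_lit 0x0) (nat_lit 0x3698971520844b)
  (PL.C (nat_lit 0xa863c) (nat_lit 0x0) (nat_lit 0x50cf282894c46f) gp0_1_6))))))))))))))))))))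

noncomputable def gp0_1_4 : PL :=
  (PL.C (nat_lit 0x742e3) (nat_lit 0x0) (nat_lit 0x355c5177fc8fa0)
  (PL.C (nat_lit 0x77d18) (nat_lit 0x0) (nat_lit 0x7093d44cd7f0026)
  (PL.C (nat_lit 0x786d8) (nat_lit 0x1aa48b5bd35922) (nat_lit 0x0)
  (PL.C (nat_lit 0x7a8aa) (nat_lit 0x0) (nat_lit 0x14901a28c2189a7)
  (PL.C (nat_lit 0x7b048) (nat_lit 0x311110b19ee2cbe) (nat_lit 0x0)
  (PL.C (nat_lit 0x7c0d1) (nat_lit 0x0) (nat_lit 0x816feeea4238a9)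
  (PL.C (nat_lit 0x7c770) (nat_lit 0x0) (nat_lit 0x3fee0b72e3d6a8)
  (PL.C (nat_lit 0x7d1e7) (nat_lit 0x0) (nat_lit 0x816feeea4238a9)
  (PL.C (nat_lit 0x81a14) (nat_lit 0x6918f43644fee6) (nat_lit 0x0)
  (PL.C (nat_lit 0x81df8) (nat_lit 0x12e8579c3ba694e) (nat_lit 0x0)
  (PL.C (nat_lit 0x82152) (nat_lit 0x0) (nat_lit 0x1e699fad633e4f0)
  (PL.C (nat_lit 0x82968) (nat_lit 0x160ab39debe1eaf) (nat_lit 0x0)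
  (PL.C (nat_lit 0x82cec) (nat_lit 0x0) (nat_lit 0x3698971520844b)
  (PL.C (nat_lit 0x84d32) (nat_lit 0x39321b7fe458ea) (nat_lit 0x0)
  (PL.C (nat_lit 0x852ae) (nat_lit 0x0) (nat_lit 0x2ff2b4276b3b3e)
  (PL.C (nat_lit 0x85c7d) (nat_lit 0x212ff5f95f6a97a) (nat_lit 0x0)
  (PL.C (nat_lit 0x88641) (nat_lit 0x8412624691f4ca) (nat_lit 0x0)
  (PL.C (nat_lit 0x8961c) (nat_lit 0x0) (nat_lit 0x42367709415988)
  (PL.C (nat_lit 0x8a228) (nat_lit 0x6f0513faa3254f) (nat_lit 0x0)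
  (PL.C (nat_lit 0x8c811) (nat_lit 0x0) (nat_lit 0x45bdd4dee92df0) gp0_1_5))))))))))))))))))))

noncomputable def gp0_1_3 : PL :=
  (PL.C (nat_lit 0x592fe) (nat_lit 0x192b6316fad0f39) (nat_lit 0x0)
  (PL.C (nat_lit 0x5aed6) (nat_lit 0x0) (nat_lit 0x9ed46e483bb23)
  (PL.C (nat_lit 0x5b968) (nat_lit 0x0) (nat_lit 0x16f45e35659ad9a)
  (PL.C (nat_lit 0x5dab6) (nat_lit 0x2bbe9746f67d3a) (nat_lit 0x0)
  (PL.C (nat_lit 0x60054) (nat_lit 0x0) (nat_lit 0x50cf282894c46f)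
  (PL.C (nat_lit 0x60c6c) (nat_lit 0xd88a0641f313b9) (nat_lit 0x0)
  (PL.C (nat_lit 0x6144c) (nat_lit 0x0) (nat_lit 0x31f89e2f634fcd)
  (PL.C (nat_lit 0x635c4) (nat_lit 0x0) (nat_lit 0x3b025989d3cf33b)
  (PL.C (nat_lit 0x64878) (nat_lit 0x0) (nat_lit 0x6177cb20ff23d2)
  (PL.C (nat_lit 0x66ff0) (nat_lit 0x0) (nat_lit 0x3fee0b72e3d6a8)
  (PL.C (nat_lit 0x68e5c) (nat_lit 0x0) (nat_lit 0x3a8fc4f4d492f0e)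
  (PL.C (nat_lit 0x69564) (nat_lit 0x0) (nat_lit 0x1329f5a70f0eb3)
  (PL.C (nat_lit 0x6a8a8) (nat_lit 0x1aa48b5bd35922) (nat_lit 0x0)
  (PL.C (nat_lit 0x6b481) (nat_lit 0x0) (nat_lit 0x45bdd4dee92df0)
  (PL.C (nat_lit 0x6cf66) (nat_lit 0x141c1a8c04ef736) (nat_lit 0x0)
  (PL.C (nat_lit 0x6dea8) (nat_lit 0x5eb84c65090144) (nat_lit 0x0)
  (PL.C (nat_lit 0x70428) (nat_lit 0x134adc7b2007866) (nat_lit 0x0)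
  (PL.C (nat_lit 0x71994) (nat_lit 0x0) (nat_lit 0x567e25a6bc85bb)
  (PL.C (nat_lit 0x71a12) (nat_lit 0x687dc9359074c6) (nat_lit 0x0)
  (PL.C (nat_lit 0x73f8c) (nat_lit 0x0) (nat_lit 0x3a8fc4f4d492f0e) gp0_1_4))))))))))))))))))))

noncomputable def gp0_1_2 : PL :=
  (PL.C (nat_lit 0x46398) (nat_lit 0x0) (nat_lit 0x6177cb20ff23d2)
  (PL.C (nat_lit 0x47070) (nat_lit 0x2e526e7b24390ec) (nat_lit 0x0)
  (PL.C (nat_lit 0x47856) (nat_lit 0x2bbe9746f67d3a) (nat_lit 0x0)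
  (PL.C (nat_lit 0x48a44) (nat_lit 0x0) (nat_lit 0x31f89e2f634fcd)
  (PL.C (nat_lit 0x49470) (nat_lit 0xa0afc0eaded716) (nat_lit 0x0)
  (PL.C (nat_lit 0x4bbb8) (nat_lit 0x0) (nat_lit 0x82b80d33af92ba)
  (PL.C (nat_lit 0x4bc0c) (nat_lit 0x5860e756d5abeee) (nat_lit 0x0)
  (PL.C (nat_lit 0x4d508) (nat_lit 0x0) (nat_lit 0x4a11a802e1cf48a)
  (PL.C (nat_lit 0x4d742) (nat_lit 0x1a77ca3c1aa86a) (nat_lit 0x0)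
  (PL.C (nat_lit 0x50490) (nat_lit 0x2e526e7b24390ec) (nat_lit 0x0)
  (PL.C (nat_lit 0x51b1c) (nat_lit 0xd88a0641f313b9) (nat_lit 0x0)
  (PL.C (nat_lit 0x52b36) (nat_lit 0x0) (nat_lit 0x373d767a100116)
  (PL.C (nat_lit 0x5369a) (nat_lit 0x0) (nat_lit 0x373d767a100116)
  (PL.C (nat_lit 0x538d1) (nat_lit 0x41893ee67e2c139) (nat_lit 0x0)
  (PL.C (nat_lit 0x566b8) (nat_lit 0x0) (nat_lit 0xb446bf33601f4c)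
  (PL.C (nat_lit 0x56b8c) (nat_lit 0x0) (nat_lit 0x635ddb1aa31ab8)
  (PL.C (nat_lit 0x570f0) (nat_lit 0x0) (nat_lit 0x4cab6c55e37f7e)
  (PL.C (nat_lit 0x57348) (nat_lit 0x5eb84c65090144) (nat_lit 0x0)
  (PL.C (nat_lit 0x588cc) (nat_lit 0x0) (nat_lit 0x42367709415988)
  (PL.C (nat_lit 0x58c74) (nat_lit 0x5e9fe8fc70de9c) (nat_lit 0x0) gp0_1_3))))))))))))))))))))

noncomputable def gp0_1_1 : PL :=
  (PL.C (nat_lit 0x32808) (nat_lit 0x0) (nat_lit 0x23a8ffa22911fe8)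
  (PL.C (nat_lit 0x33a2c) (nat_lit 0x6918f43644fee6) (nat_lit 0x0)
  (PL.C (nat_lit 0x36768) (nat_lit 0x35fd35502913876) (nat_lit 0x0)
  (PL.C (nat_lit 0x37224) (nat_lit 0x0) (nat_lit 0x456bd35a96f4e4)
  (PL.C (nat_lit 0x379bc) (nat_lit 0x0) (nat_lit 0x456bd35a96f4e4)
  (PL.C (nat_lit 0x37b36) (nat_lit 0x2ee9df666e11b1) (nat_lit 0x0)
  (PL.C (nat_lit 0x39d08) (nat_lit 0x2e167f10ed5a4e6) (nat_lit 0x0)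
  (PL.C (nat_lit 0x3a230) (nat_lit 0xa0afc0eaded716) (nat_lit 0x0)
  (PL.C (nat_lit 0x3b088) (nat_lit 0x0) (nat_lit 0x16f45e35659ad9a)
  (PL.C (nat_lit 0x3b2f8) (nat_lit 0x3bd22b97a68e02c) (nat_lit 0x0)
  (PL.C (nat_lit 0x3b754) (nat_lit 0x543e146cd17fec) (nat_lit 0x0)
  (PL.C (nat_lit 0x3c9e4) (nat_lit 0x424e6ce80b49507) (nat_lit 0x0)
  (PL.C (nat_lit 0x3ccf3) (nat_lit 0x13039438ef63241) (nat_lit 0x0)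
  (PL.C (nat_lit 0x3e724) (nat_lit 0x2fd831c6c6956) (nat_lit 0x0)
  (PL.C (nat_lit 0x40038) (nat_lit 0x134adc7b2007866) (nat_lit 0x0)
  (PL.C (nat_lit 0x40848) (nat_lit 0x35fd35502913876) (nat_lit 0x0)
  (PL.C (nat_lit 0x40d88) (nat_lit 0x0) (nat_lit 0x249302c5eb012e7)
  (PL.C (nat_lit 0x423d8) (nat_lit 0x27997772a9d150c) (nat_lit 0x0)
  (PL.C (nat_lit 0x43050) (nat_lit 0xec63a36388bc4) (nat_lit 0x0)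
  (PL.C (nat_lit 0x45ee8) (nat_lit 0x0) (nat_lit 0x4a11a802e1cf48a) gp0_1_2))))))))))))))))))))

noncomputable def gp0_1 : PL :=
  (PL.C (nat_lit 0x12048) (nat_lit 0x42d3dcfda4dcbc8) (nat_lit 0x0)
  (PL.C (nat_lit 0x18c18) (nat_lit 0x4414010623789ec) (nat_lit 0x0)
  (PL.C (nat_lit 0x1a6d0) (nat_lit 0x3e99dc25dde856e) (nat_lit 0x0)
  (PL.C (nat_lit 0x1af10) (nat_lit 0x45097efc75f5b24) (nat_lit 0x0)
  (PL.C (nat_lit 0x1b06c) (nat_lit 0x0) (nat_lit 0x197fc52a397d113)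
  (PL.C (nat_lit 0x1fc98) (nat_lit 0x0) (nat_lit 0x8e3f5c06db132c)
  (PL.C (nat_lit 0x20490) (nat_lit 0x37711750a04f2b2) (nat_lit 0x0)
  (PL.C (nat_lit 0x226c8) (nat_lit 0x0) (nat_lit 0xb446bf33601f4c)
  (PL.C (nat_lit 0x24c18) (nat_lit 0x0) (nat_lit 0x5c662341899b9a)
  (PL.C (nat_lit 0x25128) (nat_lit 0x0) (nat_lit 0x5c662341899b9a)
  (PL.C (nat_lit 0x25224) (nat_lit 0x653ef227fbde58b) (nat_lit 0x0)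
  (PL.C (nat_lit 0x268b0) (nat_lit 0x0) (nat_lit 0x3813d6297e2b0d8)
  (PL.C (nat_lit 0x27a38) (nat_lit 0x203c1543cd1d8ec) (nat_lit 0x0)
  (PL.C (nat_lit 0x28698) (nat_lit 0x0) (nat_lit 0x4710f21e29866c3)
  (PL.C (nat_lit 0x288a2) (nat_lit 0x0) (nat_lit 0x5390d776a97597)
  (PL.C (nat_lit 0x29a18) (nat_lit 0x0) (nat_lit 0x8e3f5c06db132c)
  (PL.C (nat_lit 0x2b3b0) (nat_lit 0x37711750a04f2b2) (nat_lit 0x0)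
  (PL.C (nat_lit 0x2ed10) (nat_lit 0xec63a36388bc4) (nat_lit 0x0)
  (PL.C (nat_lit 0x2fae4) (nat_lit 0x2fd831c6c6956) (nat_lit 0x0)
  (PL.C (nat_lit 0x306d8) (nat_lit 0x0) (nat_lit 0x249302c5eb012e7) gp0_1_1))))))))))))))))))))

theorem chk0_1 : eqP (sm (pre (nat_lit 61) (suf (nat_lit 61) (grl (nat_lit 78) (nat_lit 33) (nat_lit 18889465931478580854784) (nat_lit 4) us0 cs0)))) gp0_1 = true := by decide +kernel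


end Pool.Agent.Work.MP_440970_an.FX.D1
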