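import Pool.Agent.Work.MP_440970_an.Bdx.B01
import Pool.Agent.Work.MP_440970_an.FX.D1.U0

/-!
# parts of the squares
-/

set_option autoImplicit false
set_option maxRecDepth 1000000

namespace Pool.Agent.Work.MP_440970_an.FX.D1

noncomputable def gp0_2_126 : PL :=
  (PL.C (nat_lit 0x577f9bd43) (nat_lit 0x210c8eee70e1e) (nat_lit 0x0)
  (PL.C (nat_lit 0x58406e865) (nat_lit 0x210c8eee70e1e) (nat_lit 0x0)
  (PL.C (nat_lit 0x5c5fe2555) (nat_lit 0x0) (nat_lit 0x294787cfc64b6)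
  (PL.C (nat_lit 0x5d2b73e43) (nat_lit 0x553ee8b473cdf) (nat_lit 0x0)
  (PL.C (nat_lit 0x66206f579) (nat_lit 0x553ee8b473cdf) (nat_lit 0x0)
  (PL.C (nat_lit 0x67017e9ff) (nat_lit 0x0) (nat_lit 0x294787cfc64b6)
  (PL.C (nat_lit 0x6c9de3601) (nat_lit 0x0) (nat_lit 0x7c888c6bb3b9)
  (PL.C (nat_lit 0x70529c2c3) (nat_lit 0x2f7af95767edf) (nat_lit 0x0)
  (PL.C (nat_lit 0x7427b3a89) (nat_lit 0x0) (nat_lit 0x7c888c6bb3b9)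
  (PL.C (nat_lit 0x8f34f386b) (nat_lit 0x0) (nat_lit 0x22df908e98c95)
  (PL.C (nat_lit 0x90708a5fd) (nat_lit 0xc70be47846b6) (nat_lit 0x0)
  (PL.C (nat_lit 0x9417cd981) (nat_lit 0xc70be47846b6) (nat_lit 0x0)
  (PL.C (nat_lit 0x955e28fb7) (nat_lit 0x0) (nat_lit 0x22df908e98c95)
  (PL.C (nat_lit 0xbccfff6b9) (nat_lit 0x0) (nat_lit 0xb9b73656f7c8)
  (PL.C (nat_lit 0xbe7016ebf) (nat_lit 0x2d8c17f212b24) (nat_lit 0x0)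
  (PL.C (nat_lit 0xc013c3609) (nat_lit 0x0) (nat_lit 0xb9b73656f7c8) PL.Z))))))))))))))))

noncomputable def gp0_2_125 : PL :=
  (PL.C (nat_lit 0x3e8b881fb) (nat_lit 0x0) (nat_lit 0x76cce5a21638)
  (PL.C (nat_lit 0x3f66b3257) (nat_lit 0x0) (nat_lit 0xbb1e99d61d20)
  (PL.C (nat_lit 0x3ff26b3b1) (nat_lit 0x8bf54fbd78aa) (nat_lit 0x0)
  (PL.C (nat_lit 0x4118119a5) (nat_lit 0x0) (nat_lit 0x21bdcc7ff3c9f)
  (PL.C (nat_lit 0x41907b845) (nat_lit 0x8bf54fbd78aa) (nat_lit 0x0)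
  (PL.C (nat_lit 0x41a784b73) (nat_lit 0x4987c4adf175) (nat_lit 0x0)
  (PL.C (nat_lit 0x4220f7fd3) (nat_lit 0x0) (nat_lit 0xbb1e99d61d20)
  (PL.C (nat_lit 0x425d38a89) (nat_lit 0x0) (nat_lit 0x1db9fb953b852)
  (PL.C (nat_lit 0x44a0e265b) (nat_lit 0x0) (nat_lit 0x1db9fb953b852)
  (PL.C (nat_lit 0x460ffd33f) (nat_lit 0x0) (nat_lit 0x4606b9322555c)
  (PL.C (nat_lit 0x4873f48fd) (nat_lit 0x361ba0bdd8181) (nat_lit 0x0)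
  (PL.C (nat_lit 0x4d75864ab) (nat_lit 0x361ba0bdd8181) (nat_lit 0x0)
  (PL.C (nat_lit 0x4f3b146ed) (nat_lit 0x1cf029f814722) (nat_lit 0x0)
  (PL.C (nat_lit 0x4fbe0c3e3) (nat_lit 0x4987c4adf175) (nat_lit 0x0)
  (PL.C (nat_lit 0x4fe9aedeb) (nat_lit 0x0) (nat_lit 0x156094adc981b)
  (PL.C (nat_lit 0x501a18e41) (nat_lit 0x0) (nat_lit 0x4606b9322555c)
  (PL.C (nat_lit 0x506dc74c5) (nat_lit 0x0) (nat_lit 0x21bdcc7ff3c9f)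
  (PL.C (nat_lit 0x53978745d) (nat_lit 0x0) (nat_lit 0x7286d025844d)
  (PL.C (nat_lit 0x544fbe0fb) (nat_lit 0x0) (nat_lit 0x1ecdf72f6d2ba)
  (PL.C (nat_lit 0x55098aced) (nat_lit 0x0) (nat_lit 0x7286d025844d) gp0_2_126))))))))))))))))))))

noncomputable def gp0_2_124 : PL :=
  (PL.C (nat_lit 0x2d02d2af7) (nat_lit 0xa44faa2719fa) (nat_lit 0x0)
  (PL.C (nat_lit 0x2d317b381) (nat_lit 0x0) (nat_lit 0x5139f9f9df370)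
  (PL.C (nat_lit 0x2d36c7e1d) (nat_lit 0x0) (nat_lit 0x220155a15e5848)
  (PL.C (nat_lit 0x2d6603e11) (nat_lit 0x0) (nat_lit 0x9ae606cc384ca)
  (PL.C (nat_lit 0x2d9a6b93b) (nat_lit 0x0) (nat_lit 0xfb8556fd1247)
  (PL.C (nat_lit 0x2dca0faa7) (nat_lit 0x2f892f70fe888) (nat_lit 0x0)
  (PL.C (nat_lit 0x2f53b6b83) (nat_lit 0xa77554a06ee15) (nat_lit 0x0)
  (PL.C (nat_lit 0x315f0a42f) (nat_lit 0x0) (nat_lit 0x76cce5a21638)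
  (PL.C (nat_lit 0x31f6e4915) (nat_lit 0x3eef8f64167ad8) (nat_lit 0x0)
  (PL.C (nat_lit 0x330e46fcd) (nat_lit 0x1ff4f8380af89) (nat_lit 0x0)
  (PL.C (nat_lit 0x3477175df) (nat_lit 0x0) (nat_lit 0x156094adc981b)
  (PL.C (nat_lit 0x34eab5de9) (nat_lit 0x1cf029f814722) (nat_lit 0x0)
  (PL.C (nat_lit 0x36fdc5ccb) (nat_lit 0x1992901cbf4fd) (nat_lit 0x0)
  (PL.C (nat_lit 0x373d40439) (nat_lit 0x0) (nat_lit 0x5139f9f9df370)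
  (PL.C (nat_lit 0x376b453f5) (nat_lit 0x503ddcf0e9308) (nat_lit 0x0)
  (PL.C (nat_lit 0x3776f569d) (nat_lit 0x0) (nat_lit 0x2a7b565b8afb7)
  (PL.C (nat_lit 0x37e5662a3) (nat_lit 0x0) (nat_lit 0x186f9b4c534bb)
  (PL.C (nat_lit 0x3c17eae07) (nat_lit 0x10b419ab19775) (nat_lit 0x0)
  (PL.C (nat_lit 0x3c7b40669) (nat_lit 0x1ff4f8380af89) (nat_lit 0x0)
  (PL.C (nat_lit 0x3e24cef55) (nat_lit 0x0) (nat_lit 0x1951126c72d6c) gp0_2_125))))))))))))))))))))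

noncomputable def gp0_2_123 : PL :=
  (PL.C (nat_lit 0x26c3492b9) (nat_lit 0xdf3661ed57df6) (nat_lit 0x0)
  (PL.C (nat_lit 0x27035c4d7) (nat_lit 0x19dfa97182d0b) (nat_lit 0x0)
  (PL.C (nat_lit 0x271238db9) (nat_lit 0x0) (nat_lit 0xb28dbbc49692)
  (PL.C (nat_lit 0x27caf435d) (nat_lit 0x0) (nat_lit 0x1951126c72d6c)
  (PL.C (nat_lit 0x288c4e751) (nat_lit 0x14db5e55a5a7fd) (nat_lit 0x0)
  (PL.C (nat_lit 0x28e57f269) (nat_lit 0x0) (nat_lit 0xfb8556fd1247)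
  (PL.C (nat_lit 0x292686fd7) (nat_lit 0x10b419ab19775) (nat_lit 0x0)
  (PL.C (nat_lit 0x293f9f18f) (nat_lit 0x0) (nat_lit 0x220155a15e5848)
  (PL.C (nat_lit 0x29b56fb21) (nat_lit 0x26d49ca1d43fc) (nat_lit 0x0)
  (PL.C (nat_lit 0x29fd09c9b) (nat_lit 0x0) (nat_lit 0x2a7b565b8afb7)
  (PL.C (nat_lit 0x2a087c71f) (nat_lit 0x2971a862b6719) (nat_lit 0x0)
  (PL.C (nat_lit 0x2a5991c4d) (nat_lit 0x1992901cbf4fd) (nat_lit 0x0)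
  (PL.C (nat_lit 0x2aa9a88a7) (nat_lit 0x11be891d9fbdc) (nat_lit 0x0)
  (PL.C (nat_lit 0x2acec68b7) (nat_lit 0xa77554a06ee15) (nat_lit 0x0)
  (PL.C (nat_lit 0x2adae7cad) (nat_lit 0x0) (nat_lit 0x701081edc88bc)
  (PL.C (nat_lit 0x2b07acee1) (nat_lit 0x0) (nat_lit 0x13bf8f5f21455)
  (PL.C (nat_lit 0x2b21bea23) (nat_lit 0x0) (nat_lit 0x7739772007546)
  (PL.C (nat_lit 0x2b77a0c9d) (nat_lit 0x0) (nat_lit 0x5c38b6956d145)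
  (PL.C (nat_lit 0x2c58c77ef) (nat_lit 0x0) (nat_lit 0x186f9b4c534bb)
  (PL.C (nat_lit 0x2cba81f59) (nat_lit 0x503ddcf0e9308) (nat_lit 0x0) gp0_2_124))))))))))))))))))))

noncomputable def gp0_2_122 : PL :=
  (PL.C (nat_lit 0x21ad98111) (nat_lit 0x5f187f0e18a6) (nat_lit 0x0)
  (PL.C (nat_lit 0x22239b8a5) (nat_lit 0x82b078455a3fb) (nat_lit 0x0)
  (PL.C (nat_lit 0x224b03f97) (nat_lit 0xe704fc2035aa) (nat_lit 0x0)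
  (PL.C (nat_lit 0x226ed7473) (nat_lit 0x0) (nat_lit 0x3d8b190884308)
  (PL.C (nat_lit 0x22c86d267) (nat_lit 0x2971a862b6719) (nat_lit 0x0)
  (PL.C (nat_lit 0x2313d0c61) (nat_lit 0x0) (nat_lit 0x13f6541d8d9d1)
  (PL.C (nat_lit 0x23356b965) (nat_lit 0x19dfa97182d0b) (nat_lit 0x0)
  (PL.C (nat_lit 0x234dcc5af) (nat_lit 0x0) (nat_lit 0x2df45b2d0c352)
  (PL.C (nat_lit 0x23611ddd7) (nat_lit 0x2d8a947984ef6) (nat_lit 0x0)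
  (PL.C (nat_lit 0x23768d005) (nat_lit 0x0) (nat_lit 0x28aa462e0d351)
  (PL.C (nat_lit 0x239b99399) (nat_lit 0x0) (nat_lit 0xbd011008f246)
  (PL.C (nat_lit 0x24b779dbf) (nat_lit 0x3f89a11fecd50) (nat_lit 0x0)
  (PL.C (nat_lit 0x24f42b231) (nat_lit 0x0) (nat_lit 0x132940f91e1563)
  (PL.C (nat_lit 0x250218391) (nat_lit 0x0) (nat_lit 0x83452f0fd6d3d)
  (PL.C (nat_lit 0x2553a6927) (nat_lit 0x390d5d03bf53f4) (nat_lit 0x0)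
  (PL.C (nat_lit 0x25a5e8a61) (nat_lit 0x0) (nat_lit 0x83452f0fd6d3d)
  (PL.C (nat_lit 0x25ff0ef13) (nat_lit 0x2f892f70fe888) (nat_lit 0x0)
  (PL.C (nat_lit 0x2652cac15) (nat_lit 0x0) (nat_lit 0x9ae606cc384ca)
  (PL.C (nat_lit 0x26a73f183) (nat_lit 0xa44faa2719fa) (nat_lit 0x0)
  (PL.C (nat_lit 0x26bcdac8f) (nat_lit 0x0) (nat_lit 0xb28dbbc49692) gp0_2_123))))))))))))))))))))

noncomputable def gp0_2_121 : PL :=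
  (PL.C (nat_lit 0x1c60bc91f) (nat_lit 0xdf3661ed57df6) (nat_lit 0x0)
  (PL.C (nat_lit 0x1cd1973f9) (nat_lit 0x0) (nat_lit 0xbd011008f246)
  (PL.C (nat_lit 0x1d111977f) (nat_lit 0x0) (nat_lit 0x2df45b2d0c352)
  (PL.C (nat_lit 0x1d618b36d) (nat_lit 0x0) (nat_lit 0x1743b50fe5d55)
  (PL.C (nat_lit 0x1dbe8510b) (nat_lit 0x0) (nat_lit 0x72f17d42bd176)
  (PL.C (nat_lit 0x1dcd4f6ab) (nat_lit 0x0) (nat_lit 0x3d8b190884308)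
  (PL.C (nat_lit 0x1dd74cabf) (nat_lit 0x12a0fbbc98e7a) (nat_lit 0x0)
  (PL.C (nat_lit 0x1df9befb5) (nat_lit 0x0) (nat_lit 0x240afe67bba18b)
  (PL.C (nat_lit 0x1e0efc5bd) (nat_lit 0x82b078455a3fb) (nat_lit 0x0)
  (PL.C (nat_lit 0x1e190fa09) (nat_lit 0x40c1ba6b1ea8c) (nat_lit 0x0)
  (PL.C (nat_lit 0x1e2a5f927) (nat_lit 0x0) (nat_lit 0x132940f91e1563)
  (PL.C (nat_lit 0x1e622cc07) (nat_lit 0x0) (nat_lit 0x1743b50fe5d55)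
  (PL.C (nat_lit 0x1f04b377b) (nat_lit 0x0) (nat_lit 0x28aa462e0d351)
  (PL.C (nat_lit 0x1fd8b8e91) (nat_lit 0x0) (nat_lit 0x7739772007546)
  (PL.C (nat_lit 0x2013a22b1) (nat_lit 0xe704fc2035aa) (nat_lit 0x0)
  (PL.C (nat_lit 0x205ba5db5) (nat_lit 0x13231c4eee23d) (nat_lit 0x0)
  (PL.C (nat_lit 0x20eee3873) (nat_lit 0x26d49ca1d43fc) (nat_lit 0x0)
  (PL.C (nat_lit 0x213f52e31) (nat_lit 0x0) (nat_lit 0x7c8e00)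
  (PL.C (nat_lit 0x2176480df) (nat_lit 0x0) (nat_lit 0x37be3f87090f0)
  (PL.C (nat_lit 0x21a2a2d8d) (nat_lit 0x0) (nat_lit 0x5c38b6956d145) gp0_2_122))))))))))))))))))))

noncomputable def gp0_2_120 : PL :=
  (PL.C (nat_lit 0x1767ccbb7) (nat_lit 0x0) (nat_lit 0x57c6369ab4747)
  (PL.C (nat_lit 0x176d75c4d) (nat_lit 0x0) (nat_lit 0x13f6541d8d9d1)
  (PL.C (nat_lit 0x17d90a9f1) (nat_lit 0x0) (nat_lit 0x277f1ecef6751)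
  (PL.C (nat_lit 0x17fc9972f) (nat_lit 0x16d00ec7ab281b) (nat_lit 0x0)
  (PL.C (nat_lit 0x180d987c7) (nat_lit 0x237d125761e63) (nat_lit 0x0)
  (PL.C (nat_lit 0x18502a0c5) (nat_lit 0x3f89a11fecd50) (nat_lit 0x0)
  (PL.C (nat_lit 0x185893037) (nat_lit 0x0) (nat_lit 0x24a8c6ef08c86c)
  (PL.C (nat_lit 0x1874ad7dd) (nat_lit 0x0) (nat_lit 0x3261f9c51e54c)
  (PL.C (nat_lit 0x18890d389) (nat_lit 0x96a0ff5d82537) (nat_lit 0x0)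
  (PL.C (nat_lit 0x188e39ed1) (nat_lit 0x0) (nat_lit 0x7830bc063cd8b)
  (PL.C (nat_lit 0x18bf1ef6f) (nat_lit 0x24704f725a14b6) (nat_lit 0x0)
  (PL.C (nat_lit 0x197bd88a9) (nat_lit 0xb95d469dd40da) (nat_lit 0x0)
  (PL.C (nat_lit 0x19ab058e3) (nat_lit 0x0) (nat_lit 0x701081edc88bc)
  (PL.C (nat_lit 0x19ae96b97) (nat_lit 0xa7328a34b951d) (nat_lit 0x0)
  (PL.C (nat_lit 0x1ab909ebd) (nat_lit 0x0) (nat_lit 0x1fe5d6fd0f18b)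
  (PL.C (nat_lit 0x1ae76761f) (nat_lit 0x22a47120ca75b5) (nat_lit 0x0)
  (PL.C (nat_lit 0x1af3edb9b) (nat_lit 0xeb018bbaa595) (nat_lit 0x0)
  (PL.C (nat_lit 0x1b1cf97a1) (nat_lit 0x16d00ec7ab281b) (nat_lit 0x0)
  (PL.C (nat_lit 0x1b50b0949) (nat_lit 0x0) (nat_lit 0x14a62396d6a60)
  (PL.C (nat_lit 0x1b7dd7747) (nat_lit 0x1620b98fec7a3e) (nat_lit 0x0) gp0_2_121))))))))))))))))))))

noncomputable def gp0_2_119 : PL :=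
  (PL.C (nat_lit 0x14f3ec3cf) (nat_lit 0x2bd72194892ff8) (nat_lit 0x0)
  (PL.C (nat_lit 0x14f5b15a5) (nat_lit 0x22e41963554a2) (nat_lit 0x0)
  (PL.C (nat_lit 0x1509cfd8b) (nat_lit 0x0) (nat_lit 0x8030df82b7796)
  (PL.C (nat_lit 0x15b23aab3) (nat_lit 0x0) (nat_lit 0x240afe67bba18b)
  (PL.C (nat_lit 0x16040bb8b) (nat_lit 0x11c812916578f2) (nat_lit 0x0)
  (PL.C (nat_lit 0x16056bd9b) (nat_lit 0x0) (nat_lit 0x194e176bb383d9)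
  (PL.C (nat_lit 0x161d09d95) (nat_lit 0xeb018be69ee8) (nat_lit 0x0)
  (PL.C (nat_lit 0x161ed7529) (nat_lit 0x0) (nat_lit 0x1bd762a682bffc)
  (PL.C (nat_lit 0x162870125) (nat_lit 0x0) (nat_lit 0x14a62396d6a60)
  (PL.C (nat_lit 0x1635f334d) (nat_lit 0x0) (nat_lit 0x12155f119f4432)
  (PL.C (nat_lit 0x164dc5403) (nat_lit 0x0) (nat_lit 0x1fe5d714f1980)
  (PL.C (nat_lit 0x167104aa1) (nat_lit 0x5f187f0e18a6) (nat_lit 0x0)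
  (PL.C (nat_lit 0x16a21b9fd) (nat_lit 0x0) (nat_lit 0x30c2ead58c3c6)
  (PL.C (nat_lit 0x16b60acdb) (nat_lit 0x22a47120ca75b5) (nat_lit 0x0)
  (PL.C (nat_lit 0x16f8e4995) (nat_lit 0x3b10169881ee1) (nat_lit 0x0)
  (PL.C (nat_lit 0x1713691e7) (nat_lit 0x0) (nat_lit 0x2bcf2f1f37eb0)
  (PL.C (nat_lit 0x172b84803) (nat_lit 0x60acabc8da5e) (nat_lit 0x0)
  (PL.C (nat_lit 0x17398e089) (nat_lit 0x6cf4e3acf1c64) (nat_lit 0x0)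
  (PL.C (nat_lit 0x173a45c9b) (nat_lit 0x2d8a947984ef6) (nat_lit 0x0)
  (PL.C (nat_lit 0x17415bdd9) (nat_lit 0x4a0fe41664631) (nat_lit 0x0) gp0_2_120))))))))))))))))))))

noncomputable def gp0_2_118 : PL :=
  (PL.C (nat_lit 0x13c5419dd) (nat_lit 0x82a7170528abc) (nat_lit 0x0)
  (PL.C (nat_lit 0x13cd6b77d) (nat_lit 0x96a0ff5d82537) (nat_lit 0x0)
  (PL.C (nat_lit 0x13ed6f813) (nat_lit 0x553d840c53669) (nat_lit 0x0)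
  (PL.C (nat_lit 0x140217a45) (nat_lit 0x0) (nat_lit 0x3261f9c51e54c)
  (PL.C (nat_lit 0x140470451) (nat_lit 0x38f1d5be73f9f) (nat_lit 0x0)
  (PL.C (nat_lit 0x141959b15) (nat_lit 0x1a6f47a2f0b9ba) (nat_lit 0x0)
  (PL.C (nat_lit 0x14285aae1) (nat_lit 0x40c1ba54aac9b) (nat_lit 0x0)
  (PL.C (nat_lit 0x14308d267) (nat_lit 0x1f3918a0d7414) (nat_lit 0x0)
  (PL.C (nat_lit 0x1444a8977) (nat_lit 0x0) (nat_lit 0x925ead65bee8)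
  (PL.C (nat_lit 0x1445a4a83) (nat_lit 0x9d4c47167ba84) (nat_lit 0x0)
  (PL.C (nat_lit 0x1454c6b57) (nat_lit 0x12a0fba11fb4a) (nat_lit 0x0)
  (PL.C (nat_lit 0x1475a5959) (nat_lit 0x21179daf2f525) (nat_lit 0x0)
  (PL.C (nat_lit 0x148adaeaf) (nat_lit 0x0) (nat_lit 0x72f17d42bd176)
  (PL.C (nat_lit 0x148d0b475) (nat_lit 0xa7328a34b951d) (nat_lit 0x0)
  (PL.C (nat_lit 0x148d43953) (nat_lit 0x0) (nat_lit 0x12155f1e9c9b2b)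
  (PL.C (nat_lit 0x14a2bbf1f) (nat_lit 0x0) (nat_lit 0x7fb215966a449)
  (PL.C (nat_lit 0x14ba8dfd5) (nat_lit 0x0) (nat_lit 0x194e175c6c2bfd)
  (PL.C (nat_lit 0x14d035aa9) (nat_lit 0x21179d853045b) (nat_lit 0x0)
  (PL.C (nat_lit 0x14dbd844d) (nat_lit 0x0) (nat_lit 0x41598d8ab3dbf8)
  (PL.C (nat_lit 0x14df4ec8b) (nat_lit 0x1e5ff0f3a9714) (nat_lit 0x0) gp0_2_119))))))))))))))))))))

noncomputable def gp0_2_117 : PL :=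
  (PL.C (nat_lit 0x124300b0b) (nat_lit 0x38f1d5be73f9f) (nat_lit 0x0)
  (PL.C (nat_lit 0x127729865) (nat_lit 0x2befaf0a5ab70) (nat_lit 0x0)
  (PL.C (nat_lit 0x1296dcb47) (nat_lit 0x0) (nat_lit 0x7830bba0f8399)
  (PL.C (nat_lit 0x129bee2db) (nat_lit 0x2aff1bdeb43920) (nat_lit 0x0)
  (PL.C (nat_lit 0x12b10e445) (nat_lit 0x8da7da609792) (nat_lit 0x0)
  (PL.C (nat_lit 0x12b46be79) (nat_lit 0x2646387ff9fea) (nat_lit 0x0)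
  (PL.C (nat_lit 0x12bab0ed5) (nat_lit 0x0) (nat_lit 0xf6e0521b0bb98)
  (PL.C (nat_lit 0x12bfd3f41) (nat_lit 0x0) (nat_lit 0x24a8c6e62d6ac1)
  (PL.C (nat_lit 0x12da3f3d3) (nat_lit 0x8da7db0a0567) (nat_lit 0x0)
  (PL.C (nat_lit 0x12e349083) (nat_lit 0x0) (nat_lit 0x40f9fda2c077b)
  (PL.C (nat_lit 0x12f3b7cd3) (nat_lit 0x2bd72194892ff8) (nat_lit 0x0)
  (PL.C (nat_lit 0x12f56150f) (nat_lit 0x5b950a908e342) (nat_lit 0x0)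
  (PL.C (nat_lit 0x12f916921) (nat_lit 0x2125ee7ca674d) (nat_lit 0x0)
  (PL.C (nat_lit 0x130281bad) (nat_lit 0x1357abce3ff8f3) (nat_lit 0x0)
  (PL.C (nat_lit 0x130ce8b25) (nat_lit 0x0) (nat_lit 0xd907520586e66)
  (PL.C (nat_lit 0x1318734ef) (nat_lit 0x0) (nat_lit 0x1308d228942127)
  (PL.C (nat_lit 0x131b214b1) (nat_lit 0x0) (nat_lit 0xf6e0521b0bb98)
  (PL.C (nat_lit 0x132c6632b) (nat_lit 0x0) (nat_lit 0xbb9676ffed58c)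
  (PL.C (nat_lit 0x137542f99) (nat_lit 0xb95d469dd40da) (nat_lit 0x0)
  (PL.C (nat_lit 0x13a2272eb) (nat_lit 0x24704f725a14b6) (nat_lit 0x0) gp0_2_118))))))))))))))))))))

noncomputable def gp0_2_116 : PL :=
  (PL.C (nat_lit 0x111cde1cf) (nat_lit 0x553d840c53669) (nat_lit 0x0)
  (PL.C (nat_lit 0x11266f20b) (nat_lit 0xcaaa16dd0640a) (nat_lit 0x0)
  (PL.C (nat_lit 0x11294805d) (nat_lit 0x0) (nat_lit 0xc5f0f81efebc0)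
  (PL.C (nat_lit 0x113cc3583) (nat_lit 0x0) (nat_lit 0x41bf466ff7636)
  (PL.C (nat_lit 0x1145a6173) (nat_lit 0xab882566adbe9) (nat_lit 0x0)
  (PL.C (nat_lit 0x114c3a75d) (nat_lit 0xcaaa15164e070) (nat_lit 0x0)
  (PL.C (nat_lit 0x11582c33d) (nat_lit 0x0) (nat_lit 0x925eabee928c)
  (PL.C (nat_lit 0x1162bfe25) (nat_lit 0x2a1bd04cb780c) (nat_lit 0x0)
  (PL.C (nat_lit 0x116c6cfff) (nat_lit 0x0) (nat_lit 0x137d4f3584ae9)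
  (PL.C (nat_lit 0x119ba9441) (nat_lit 0x0) (nat_lit 0x8030e10f999ee)
  (PL.C (nat_lit 0x119e959f7) (nat_lit 0x809f992a2004f) (nat_lit 0x0)
  (PL.C (nat_lit 0x11bbb5979) (nat_lit 0x5b950a908e342) (nat_lit 0x0)
  (PL.C (nat_lit 0x11c276ef7) (nat_lit 0x0) (nat_lit 0x41598d84a24207)
  (PL.C (nat_lit 0x11d0b147e) (nat_lit 0x92784ecb97aa) (nat_lit 0x0)
  (PL.C (nat_lit 0x11e7053f3) (nat_lit 0xe5b0f8) (nat_lit 0x0)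
  (PL.C (nat_lit 0x11f39d955) (nat_lit 0x634f2a4380393e) (nat_lit 0x0)
  (PL.C (nat_lit 0x11f7f3d12) (nat_lit 0x18b617d0cf9c) (nat_lit 0x0)
  (PL.C (nat_lit 0x12049cf3d) (nat_lit 0x0) (nat_lit 0x64d02563d0b4)
  (PL.C (nat_lit 0x12166f013) (nat_lit 0x0) (nat_lit 0x3eda55e0b7a8f)
  (PL.C (nat_lit 0x121b1a2cd) (nat_lit 0x1f3918a0d7414) (nat_lit 0x0) gp0_2_117))))))))))))))))))))

noncomputable def gp0_2_115 : PL :=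
  (PL.C (nat_lit 0xfbb969ad) (nat_lit 0x1e7fe0c5e407c) (nat_lit 0x0)
  (PL.C (nat_lit 0xfcf776e9) (nat_lit 0x0) (nat_lit 0x30c2eb101396c)
  (PL.C (nat_lit 0xfd20fe27) (nat_lit 0xc79f091a4b77d) (nat_lit 0x0)
  (PL.C (nat_lit 0xfde4252b) (nat_lit 0x0) (nat_lit 0x31dd802ad8d13)
  (PL.C (nat_lit 0xff1bbfcf) (nat_lit 0x0) (nat_lit 0x512a62c7b4ef9)
  (PL.C (nat_lit 0x100420441) (nat_lit 0x12be4a94c78da1) (nat_lit 0x0)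
  (PL.C (nat_lit 0x100c17121) (nat_lit 0x0) (nat_lit 0x4f0985094c0e9)
  (PL.C (nat_lit 0x1011780dd) (nat_lit 0x0) (nat_lit 0xc77d66cd4cc3)
  (PL.C (nat_lit 0x1014df079) (nat_lit 0x0) (nat_lit 0x978a7dcfebe0e)
  (PL.C (nat_lit 0x101e9d2eb) (nat_lit 0x2b988ab473c8a) (nat_lit 0x0)
  (PL.C (nat_lit 0x1024045ff) (nat_lit 0x0) (nat_lit 0x2b77dd800fb72f)
  (PL.C (nat_lit 0x102f74317) (nat_lit 0x3b597f14bdb08b) (nat_lit 0x0)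
  (PL.C (nat_lit 0x1034e107b) (nat_lit 0x0) (nat_lit 0xb3ed33c5ac7f)
  (PL.C (nat_lit 0x104160bfb) (nat_lit 0x1de3826d00207c) (nat_lit 0x0)
  (PL.C (nat_lit 0x104427fc1) (nat_lit 0x7251482949d62) (nat_lit 0x0)
  (PL.C (nat_lit 0x105c3f7b5) (nat_lit 0x0) (nat_lit 0x48a976a8e2da7e)
  (PL.C (nat_lit 0x10b3c3191) (nat_lit 0x2b988a1e91bd0) (nat_lit 0x0)
  (PL.C (nat_lit 0x10c5acbff) (nat_lit 0x22e4199d01057) (nat_lit 0x0)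
  (PL.C (nat_lit 0x10d26819f) (nat_lit 0x9d4c47167ba84) (nat_lit 0x0)
  (PL.C (nat_lit 0x10f77a429) (nat_lit 0x1a6f47a2f0b9ba) (nat_lit 0x0) gp0_2_116))))))))))))))))))))

noncomputable def gp0_2_114 : PL :=
  (PL.C (nat_lit 0xe2d46c0f) (nat_lit 0x0) (nat_lit 0x443be9230fa0)
  (PL.C (nat_lit 0xe63a2e17) (nat_lit 0x0) (nat_lit 0x1c8739ff99f47)
  (PL.C (nat_lit 0xe743f07d) (nat_lit 0x4c653ca818878) (nat_lit 0x0)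
  (PL.C (nat_lit 0xe79c869f) (nat_lit 0x6cf4e3acf1c64) (nat_lit 0x0)
  (PL.C (nat_lit 0xe83589f1) (nat_lit 0x565f0c98ead5) (nat_lit 0x0)
  (PL.C (nat_lit 0xe94169c9) (nat_lit 0x0) (nat_lit 0x7c8e00)
  (PL.C (nat_lit 0xe948f87f) (nat_lit 0x2befaed7e8e86) (nat_lit 0x0)
  (PL.C (nat_lit 0xe9972a43) (nat_lit 0x1b2008f6a0b61) (nat_lit 0x0)
  (PL.C (nat_lit 0xea91af6d) (nat_lit 0x0) (nat_lit 0x443be63cc187)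
  (PL.C (nat_lit 0xeb54b63b) (nat_lit 0x0) (nat_lit 0x8c37e87014947)
  (PL.C (nat_lit 0xebe0690e) (nat_lit 0x18b618e024fd) (nat_lit 0x0)
  (PL.C (nat_lit 0xede83802) (nat_lit 0x92784e0abdd1) (nat_lit 0x0)
  (PL.C (nat_lit 0xf3feb8ed) (nat_lit 0x2a1bd0083864f) (nat_lit 0x0)
  (PL.C (nat_lit 0xf47c7ffd) (nat_lit 0x809f992a2004f) (nat_lit 0x0)
  (PL.C (nat_lit 0xf49ecee3) (nat_lit 0x0) (nat_lit 0x57c63630f4fd6)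
  (PL.C (nat_lit 0xf6186beb) (nat_lit 0x0) (nat_lit 0x41bf46b0cba0b)
  (PL.C (nat_lit 0xf6635143) (nat_lit 0x2aff1bdeb43920) (nat_lit 0x0)
  (PL.C (nat_lit 0xf848c84b) (nat_lit 0x3b597f0fa01302) (nat_lit 0x0)
  (PL.C (nat_lit 0xf96762b9) (nat_lit 0xab88255d89205) (nat_lit 0x0)
  (PL.C (nat_lit 0xfa6bef1d) (nat_lit 0x0) (nat_lit 0x4f098488741b5) gp0_2_115))))))))))))))))))))

noncomputable def gp0_2_113 : PL :=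
  (PL.C (nat_lit 0xcea7a02d) (nat_lit 0xd287b3f1393f7) (nat_lit 0x0)
  (PL.C (nat_lit 0xd01f8ae1) (nat_lit 0x0) (nat_lit 0x7ade40451e049)
  (PL.C (nat_lit 0xd0431d13) (nat_lit 0xd63b7368eaa2d7) (nat_lit 0x0)
  (PL.C (nat_lit 0xd12e8349) (nat_lit 0x0) (nat_lit 0xf1edfa9f4e401)
  (PL.C (nat_lit 0xd19734b7) (nat_lit 0x0) (nat_lit 0xbb9676ffed58c)
  (PL.C (nat_lit 0xd1c00645) (nat_lit 0x185bbfeaaf2cc0) (nat_lit 0x0)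
  (PL.C (nat_lit 0xd2b22577) (nat_lit 0x118c1f74b4120) (nat_lit 0x0)
  (PL.C (nat_lit 0xd361acfb) (nat_lit 0x0) (nat_lit 0xab53c9d79dc75)
  (PL.C (nat_lit 0xd3651651) (nat_lit 0x1357abce3ff8f3) (nat_lit 0x0)
  (PL.C (nat_lit 0xd38e41d3) (nat_lit 0x0) (nat_lit 0x1ce401c9af4547)
  (PL.C (nat_lit 0xd455ae49) (nat_lit 0x69d983ab6cbffc) (nat_lit 0x0)
  (PL.C (nat_lit 0xd53380ed) (nat_lit 0x141568ea9c7921) (nat_lit 0x0)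
  (PL.C (nat_lit 0xd5ae2303) (nat_lit 0x0) (nat_lit 0x48a976a1dca132)
  (PL.C (nat_lit 0xd7396963) (nat_lit 0x0) (nat_lit 0x7ade4048e7b9e)
  (PL.C (nat_lit 0xd831b0fa) (nat_lit 0x0) (nat_lit 0x5c262142ef8d)
  (PL.C (nat_lit 0xd851a09b) (nat_lit 0x424c95215dbb4) (nat_lit 0x0)
  (PL.C (nat_lit 0xdcf88b49) (nat_lit 0xc79f092eadbd0) (nat_lit 0x0)
  (PL.C (nat_lit 0xdd429c65) (nat_lit 0xcaa8a05545c23) (nat_lit 0x0)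
  (PL.C (nat_lit 0xdf920e6e) (nat_lit 0x0) (nat_lit 0x8834431e601d)
  (PL.C (nat_lit 0xe1968d95) (nat_lit 0x0) (nat_lit 0x1308d22b92d035) gp0_2_114))))))))))))))))))))

noncomputable def gp0_2_112 : PL :=
  (PL.C (nat_lit 0xc00f06e5) (nat_lit 0x0) (nat_lit 0x5e91c7ca22423c)
  (PL.C (nat_lit 0xc2fe77d7) (nat_lit 0x854e127b3e5c) (nat_lit 0x0)
  (PL.C (nat_lit 0xc3aa35b1) (nat_lit 0x9be45a0b122398) (nat_lit 0x0)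
  (PL.C (nat_lit 0xc5296d39) (nat_lit 0x4a0fe41664631) (nat_lit 0x0)
  (PL.C (nat_lit 0xc52fd08f) (nat_lit 0xd287b3f1393f7) (nat_lit 0x0)
  (PL.C (nat_lit 0xc56fe815) (nat_lit 0x0) (nat_lit 0x13f0b605e8128)
  (PL.C (nat_lit 0xc5ea279f) (nat_lit 0x240316b65d041) (nat_lit 0x0)
  (PL.C (nat_lit 0xc623ccaf) (nat_lit 0x0) (nat_lit 0x1b69f22f82c5d)
  (PL.C (nat_lit 0xc6ce9d55) (nat_lit 0xb749d3e5534e1) (nat_lit 0x0)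
  (PL.C (nat_lit 0xc760982e) (nat_lit 0x473a18e18182) (nat_lit 0x0)
  (PL.C (nat_lit 0xc79e4e29) (nat_lit 0x118430c91c97b) (nat_lit 0x0)
  (PL.C (nat_lit 0xc7b679a1) (nat_lit 0x0) (nat_lit 0x31dd7fae15cdd)
  (PL.C (nat_lit 0xc81d6cf1) (nat_lit 0x0) (nat_lit 0x978a7dcfebe0e)
  (PL.C (nat_lit 0xc85a79eb) (nat_lit 0x9e734fd355585) (nat_lit 0x0)
  (PL.C (nat_lit 0xc9046cdb) (nat_lit 0x0) (nat_lit 0xc5f0f81efebc0)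
  (PL.C (nat_lit 0xc917f7e2) (nat_lit 0x473a1b65e3e2) (nat_lit 0x0)
  (PL.C (nat_lit 0xc96e9697) (nat_lit 0x1e7fe0dc34a2e) (nat_lit 0x0)
  (PL.C (nat_lit 0xc9a5a8c5) (nat_lit 0x201bc653ef8b6) (nat_lit 0x0)
  (PL.C (nat_lit 0xc9d66cc7) (nat_lit 0x0) (nat_lit 0x512a62c7b4ef9)
  (PL.C (nat_lit 0xce6272b1) (nat_lit 0x3cbfe20fac3a8) (nat_lit 0x0) gp0_2_113))))))))))))))))))))

noncomputable def gp0_2_111 : PL :=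
  (PL.C (nat_lit 0xb2706027) (nat_lit 0x0) (nat_lit 0x120e19f1289f4c)
  (PL.C (nat_lit 0xb296025f) (nat_lit 0x0) (nat_lit 0x250e5fa728d24b)
  (PL.C (nat_lit 0xb2e732aa) (nat_lit 0x0) (nat_lit 0x883440dc71ea)
  (PL.C (nat_lit 0xb36aee41) (nat_lit 0xb221eaf29eeb) (nat_lit 0x0)
  (PL.C (nat_lit 0xb3d2a6c1) (nat_lit 0x679bddf6d02c8) (nat_lit 0x0)
  (PL.C (nat_lit 0xb3f99b61) (nat_lit 0x0) (nat_lit 0x25e194c776e88b)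
  (PL.C (nat_lit 0xb484420d) (nat_lit 0x46ffbfb5c4eee1) (nat_lit 0x0)
  (PL.C (nat_lit 0xb49381cf) (nat_lit 0x27121b9b334a3) (nat_lit 0x0)
  (PL.C (nat_lit 0xb5d26eaf) (nat_lit 0x2125ee7ca674d) (nat_lit 0x0)
  (PL.C (nat_lit 0xb5ebb333) (nat_lit 0x77cfb8706b0164) (nat_lit 0x0)
  (PL.C (nat_lit 0xb7dd7902) (nat_lit 0x0) (nat_lit 0x39e3862888003)
  (PL.C (nat_lit 0xb901d77e) (nat_lit 0x0) (nat_lit 0x5c261f0b1545)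
  (PL.C (nat_lit 0xb90f8407) (nat_lit 0x424c9553699b3) (nat_lit 0x0)
  (PL.C (nat_lit 0xb972a96e) (nat_lit 0x504ee90d12089) (nat_lit 0x0)
  (PL.C (nat_lit 0xbaad3fad) (nat_lit 0x0) (nat_lit 0x55889c796f2ea)
  (PL.C (nat_lit 0xbd4b1f71) (nat_lit 0x22725ffd6a2c8) (nat_lit 0x0)
  (PL.C (nat_lit 0xbdacb3c1) (nat_lit 0xb0c12a537fe2d) (nat_lit 0x0)
  (PL.C (nat_lit 0xbe938ddb) (nat_lit 0x0) (nat_lit 0xea023e5e30142)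
  (PL.C (nat_lit 0xbeec4647) (nat_lit 0xd60a3d7dae47) (nat_lit 0x0)
  (PL.C (nat_lit 0xbf5ff155) (nat_lit 0x0) (nat_lit 0xf1edfa7ea5616) gp0_2_112))))))))))))))))))))

noncomputable def gp0_2_110 : PL :=
  (PL.C (nat_lit 0xa9e97f2b) (nat_lit 0x0) (nat_lit 0x5e91c7ca22423c)
  (PL.C (nat_lit 0xaa54ab77) (nat_lit 0x6eb651865b854) (nat_lit 0x0)
  (PL.C (nat_lit 0xaa61e423) (nat_lit 0x1308468a02285) (nat_lit 0x0)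
  (PL.C (nat_lit 0xaa9b0057) (nat_lit 0x0) (nat_lit 0x120e19f1289f4c)
  (PL.C (nat_lit 0xabaed459) (nat_lit 0x36e12d6140a63c) (nat_lit 0x0)
  (PL.C (nat_lit 0xac396f99) (nat_lit 0x1de3826d00207c) (nat_lit 0x0)
  (PL.C (nat_lit 0xac60cbaf) (nat_lit 0x0) (nat_lit 0x52056c9a8c5c8)
  (PL.C (nat_lit 0xac750253) (nat_lit 0x0) (nat_lit 0x38430d6f632a38)
  (PL.C (nat_lit 0xad19aac1) (nat_lit 0x4c653ccaaee46) (nat_lit 0x0)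
  (PL.C (nat_lit 0xad292c1f) (nat_lit 0x0) (nat_lit 0x2b9d970161fcb8)
  (PL.C (nat_lit 0xad3c1511) (nat_lit 0x0) (nat_lit 0x8118c799810df0)
  (PL.C (nat_lit 0xad704d3f) (nat_lit 0x60acae6bd090) (nat_lit 0x0)
  (PL.C (nat_lit 0xadf10ed5) (nat_lit 0x0) (nat_lit 0x4805afae4f042)
  (PL.C (nat_lit 0xae72e7a1) (nat_lit 0x1b2009466f827) (nat_lit 0x0)
  (PL.C (nat_lit 0xae9e4a05) (nat_lit 0x6a35167f2902) (nat_lit 0x0)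
  (PL.C (nat_lit 0xaea6c5a9) (nat_lit 0x142d64b866c8e6) (nat_lit 0x0)
  (PL.C (nat_lit 0xaeee8389) (nat_lit 0x3b1016c891fc1) (nat_lit 0x0)
  (PL.C (nat_lit 0xb0d2a62b) (nat_lit 0x1054e2df7fcba2) (nat_lit 0x0)
  (PL.C (nat_lit 0xb10fd019) (nat_lit 0x0) (nat_lit 0x92c841a7b1c0b8)
  (PL.C (nat_lit 0xb1dc3393) (nat_lit 0x0) (nat_lit 0x52056bfdfbe0b) gp0_2_111))))))))))))))))))))

noncomputable def gp0_2_109 : PL :=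
  (PL.C (nat_lit 0xa0d3305b) (nat_lit 0x565f09984940) (nat_lit 0x0)
  (PL.C (nat_lit 0xa0e04c87) (nat_lit 0x0) (nat_lit 0xea023d4e64981)
  (PL.C (nat_lit 0xa12617cb) (nat_lit 0x0) (nat_lit 0x1186fd156de58c)
  (PL.C (nat_lit 0xa1885d23) (nat_lit 0x0) (nat_lit 0x92c841a7d7c121)
  (PL.C (nat_lit 0xa1c2fc05) (nat_lit 0x10155dcca3d624) (nat_lit 0x0)
  (PL.C (nat_lit 0xa2359a8d) (nat_lit 0x0) (nat_lit 0x1c8739e280855)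
  (PL.C (nat_lit 0xa2a9d09e) (nat_lit 0x504ee901cba84) (nat_lit 0x0)
  (PL.C (nat_lit 0xa2b9d7a9) (nat_lit 0x0) (nat_lit 0x24ad4185abd1e)
  (PL.C (nat_lit 0xa3476a99) (nat_lit 0x0) (nat_lit 0x2b98b2071cf5b6)
  (PL.C (nat_lit 0xa375aec3) (nat_lit 0x5726f2b54f74a) (nat_lit 0x0)
  (PL.C (nat_lit 0xa3f68777) (nat_lit 0x0) (nat_lit 0x1b69f20f006e1)
  (PL.C (nat_lit 0xa41047f2) (nat_lit 0x0) (nat_lit 0x39e385eaf90cd)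
  (PL.C (nat_lit 0xa420724f) (nat_lit 0x0) (nat_lit 0x1de34621ff84ff)
  (PL.C (nat_lit 0xa483e16d) (nat_lit 0x0) (nat_lit 0xacb4f5f4d3e2b)
  (PL.C (nat_lit 0xa49af773) (nat_lit 0x0) (nat_lit 0xfbf5b0e4e99cf)
  (PL.C (nat_lit 0xa6a739a9) (nat_lit 0x7251482949d62) (nat_lit 0x0)
  (PL.C (nat_lit 0xa7d0f11e) (nat_lit 0x2bda7ac511545) (nat_lit 0x0)
  (PL.C (nat_lit 0xa8ed9e75) (nat_lit 0x0) (nat_lit 0x151db1c4ce7b6e)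
  (PL.C (nat_lit 0xa9263de1) (nat_lit 0x0) (nat_lit 0x25e194c776e88b)
  (PL.C (nat_lit 0xa942c372) (nat_lit 0x0) (nat_lit 0x23e0e7358fba0) gp0_2_110))))))))))))))))))))

noncomputable def gp0_2_108 : PL :=
  (PL.C (nat_lit 0x98625901) (nat_lit 0x0) (nat_lit 0x2b98b1ff737b50)
  (PL.C (nat_lit 0x99018a85) (nat_lit 0x0) (nat_lit 0x1b82f838086824)
  (PL.C (nat_lit 0x997c1eba) (nat_lit 0x0) (nat_lit 0x16353d6979f24)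
  (PL.C (nat_lit 0x99afe3bf) (nat_lit 0x69d983ab6cbffc) (nat_lit 0x0)
  (PL.C (nat_lit 0x9a2d4afe) (nat_lit 0x0) (nat_lit 0xd32b7ce29e)
  (PL.C (nat_lit 0x9a3c7bf9) (nat_lit 0x0) (nat_lit 0x3a9600fb380e7)
  (PL.C (nat_lit 0x9aa8fedf) (nat_lit 0x0) (nat_lit 0x14ed9f67528983)
  (PL.C (nat_lit 0x9ace5bf6) (nat_lit 0x9505e511a2d7) (nat_lit 0x0)
  (PL.C (nat_lit 0x9b3b6f97) (nat_lit 0x0) (nat_lit 0x1be96f16d45f8)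
  (PL.C (nat_lit 0x9bfd3047) (nat_lit 0x0) (nat_lit 0x1d200c5ea0acc0)
  (PL.C (nat_lit 0x9c611f9e) (nat_lit 0xcdea98e77b66) (nat_lit 0x0)
  (PL.C (nat_lit 0x9ca47ba9) (nat_lit 0xd60a3ac351b2) (nat_lit 0x0)
  (PL.C (nat_lit 0x9cb1408d) (nat_lit 0x142d81fc150e456) (nat_lit 0x0)
  (PL.C (nat_lit 0x9d54f241) (nat_lit 0x3452814161ff3) (nat_lit 0x0)
  (PL.C (nat_lit 0x9dca64dd) (nat_lit 0x0) (nat_lit 0x2b77dd80ee4e8b)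
  (PL.C (nat_lit 0x9dfdae4f) (nat_lit 0x22725fdee4c55) (nat_lit 0x0)
  (PL.C (nat_lit 0x9f16520f) (nat_lit 0x17826bb52c153) (nat_lit 0x0)
  (PL.C (nat_lit 0xa01d6c85) (nat_lit 0x16182549925495) (nat_lit 0x0)
  (PL.C (nat_lit 0xa0276d75) (nat_lit 0x0) (nat_lit 0x250e5faf51cbb9)
  (PL.C (nat_lit 0xa05317b1) (nat_lit 0x187a818cf6b261) (nat_lit 0x0) gp0_2_109))))))))))))))))))))

noncomputable def gp0_2_107 : PL :=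
  (PL.C (nat_lit 0x9367b2d9) (nat_lit 0x6e23f7ee4efa) (nat_lit 0x0)
  (PL.C (nat_lit 0x936edc0d) (nat_lit 0x0) (nat_lit 0x1af7b79efd1f1d)
  (PL.C (nat_lit 0x93c14741) (nat_lit 0x0) (nat_lit 0x214403bab390bbb)
  (PL.C (nat_lit 0x93d9cef7) (nat_lit 0x0) (nat_lit 0x6ede29be53a47)
  (PL.C (nat_lit 0x93dceaf9) (nat_lit 0x0) (nat_lit 0xc77d5d132453)
  (PL.C (nat_lit 0x946bd64b) (nat_lit 0x1d5fd005632b7) (nat_lit 0x0)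
  (PL.C (nat_lit 0x94785ff9) (nat_lit 0x0) (nat_lit 0x76a2f4382bc7c)
  (PL.C (nat_lit 0x9481a6a9) (nat_lit 0xa258e68d2e46) (nat_lit 0x0)
  (PL.C (nat_lit 0x94ce3479) (nat_lit 0xd5d644ec79ba8) (nat_lit 0x0)
  (PL.C (nat_lit 0x9506e3f7) (nat_lit 0x0) (nat_lit 0x77c576eb410cd0)
  (PL.C (nat_lit 0x952d13c3) (nat_lit 0xf70f460cb49c5) (nat_lit 0x0)
  (PL.C (nat_lit 0x95663821) (nat_lit 0x12be4a94c78da1) (nat_lit 0x0)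
  (PL.C (nat_lit 0x956dcb97) (nat_lit 0x6e23f55ba7bb) (nat_lit 0x0)
  (PL.C (nat_lit 0x9576237b) (nat_lit 0xcaa8a100c8f49) (nat_lit 0x0)
  (PL.C (nat_lit 0x95c8eb4f) (nat_lit 0x0) (nat_lit 0x818cb4f722961)
  (PL.C (nat_lit 0x961c489d) (nat_lit 0x0) (nat_lit 0x14f784208e9e5)
  (PL.C (nat_lit 0x9738480a) (nat_lit 0xcdea961520c0) (nat_lit 0x0)
  (PL.C (nat_lit 0x97796b23) (nat_lit 0x0) (nat_lit 0x13f0b5bedd686)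
  (PL.C (nat_lit 0x97b33c23) (nat_lit 0x0) (nat_lit 0x1b82f83d7e4e7f)
  (PL.C (nat_lit 0x97cc6b85) (nat_lit 0x140285c7ef43ed) (nat_lit 0x0) gp0_2_108))))))))))))))))))))

noncomputable def gp0_2_106 : PL :=
  (PL.C (nat_lit 0x8a977007) (nat_lit 0xa9d46c105dd1f) (nat_lit 0x0)
  (PL.C (nat_lit 0x8ae05de1) (nat_lit 0x1d0fd2b157947a) (nat_lit 0x0)
  (PL.C (nat_lit 0x8b0eea9d) (nat_lit 0x0) (nat_lit 0x2c4070501fb5d)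
  (PL.C (nat_lit 0x8b7172e5) (nat_lit 0x6f2bd67f84524) (nat_lit 0x0)
  (PL.C (nat_lit 0x8b745786) (nat_lit 0x0) (nat_lit 0x3437c53afbb13)
  (PL.C (nat_lit 0x8c0bdf11) (nat_lit 0x3a6108d0966075) (nat_lit 0x0)
  (PL.C (nat_lit 0x8c23cea3) (nat_lit 0x1706e3e9609841) (nat_lit 0x0)
  (PL.C (nat_lit 0x8cf35dff) (nat_lit 0x45c2872ca824b) (nat_lit 0x0)
  (PL.C (nat_lit 0x8dbacf19) (nat_lit 0x0) (nat_lit 0x8118c799810df0)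
  (PL.C (nat_lit 0x8ec9d725) (nat_lit 0x141568ea0b2d15) (nat_lit 0x0)
  (PL.C (nat_lit 0x900481f3) (nat_lit 0x0) (nat_lit 0xab53ca5f4015c)
  (PL.C (nat_lit 0x90366b12) (nat_lit 0x0) (nat_lit 0x1746644cfa4e9)
  (PL.C (nat_lit 0x90ed597d) (nat_lit 0x0) (nat_lit 0x1af7b79c332eb2)
  (PL.C (nat_lit 0x918394ab) (nat_lit 0x118c1f9caecd6) (nat_lit 0x0)
  (PL.C (nat_lit 0x91931609) (nat_lit 0x77cfb8706b0164) (nat_lit 0x0)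
  (PL.C (nat_lit 0x9194a4df) (nat_lit 0x34527f9a2df46) (nat_lit 0x0)
  (PL.C (nat_lit 0x922cbadb) (nat_lit 0x310c494b860e178) (nat_lit 0x0)
  (PL.C (nat_lit 0x92509eb1) (nat_lit 0x10155dd0aa4251) (nat_lit 0x0)
  (PL.C (nat_lit 0x9299d94f) (nat_lit 0x0) (nat_lit 0xb3ed3a51ef40)
  (PL.C (nat_lit 0x92d576e9) (nat_lit 0x0) (nat_lit 0x1d200c6b63cb9c) gp0_2_107))))))))))))))))))))

noncomputable def gp0_2_105 : PL :=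
  (PL.C (nat_lit 0x84d00505) (nat_lit 0x0) (nat_lit 0x38430d5f81226d)
  (PL.C (nat_lit 0x85245116) (nat_lit 0x0) (nat_lit 0x23e0e6fa3626a)
  (PL.C (nat_lit 0x858b295f) (nat_lit 0x0) (nat_lit 0xc962cee731126)
  (PL.C (nat_lit 0x863f965f) (nat_lit 0x1d5fd0944f0fa) (nat_lit 0x0)
  (PL.C (nat_lit 0x8649b9ba) (nat_lit 0x2bda7bd506c56) (nat_lit 0x0)
  (PL.C (nat_lit 0x864b5c8b) (nat_lit 0x82647e44712e9) (nat_lit 0x0)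
  (PL.C (nat_lit 0x86ee5ff7) (nat_lit 0x0) (nat_lit 0x2a9ed94313cbc)
  (PL.C (nat_lit 0x8731e809) (nat_lit 0x0) (nat_lit 0x1ce401cb362ab0)
  (PL.C (nat_lit 0x8756c435) (nat_lit 0xf54058946eb24) (nat_lit 0x0)
  (PL.C (nat_lit 0x878b38e7) (nat_lit 0x181a16a3f2847) (nat_lit 0x0)
  (PL.C (nat_lit 0x8808e237) (nat_lit 0x0) (nat_lit 0x137d4f24dbeee)
  (PL.C (nat_lit 0x8827af6d) (nat_lit 0x0) (nat_lit 0x4666de5f819fd)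
  (PL.C (nat_lit 0x88367b1b) (nat_lit 0x0) (nat_lit 0xfbf5b194e359e)
  (PL.C (nat_lit 0x885bd6ef) (nat_lit 0x185bbfef38366c) (nat_lit 0x0)
  (PL.C (nat_lit 0x88b5eca1) (nat_lit 0x0) (nat_lit 0x28d92e2803f8d)
  (PL.C (nat_lit 0x895db60d) (nat_lit 0x0) (nat_lit 0x1bde05d319e72f)
  (PL.C (nat_lit 0x89d538bd) (nat_lit 0x46ffbfb8856a83) (nat_lit 0x0)
  (PL.C (nat_lit 0x89fc470f) (nat_lit 0x3c5099c0c904) (nat_lit 0x0)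
  (PL.C (nat_lit 0x8a40c6c3) (nat_lit 0x43b67bd2f383e) (nat_lit 0x0)
  (PL.C (nat_lit 0x8a8c6dcb) (nat_lit 0x0) (nat_lit 0x2049771b66dd7a) gp0_2_106))))))))))))))))))))

noncomputable def gp0_2_104 : PL :=
  (PL.C (nat_lit 0x7d7f0069) (nat_lit 0x0) (nat_lit 0x343ae97466832)
  (PL.C (nat_lit 0x7d9d721d) (nat_lit 0x82647e306e71a) (nat_lit 0x0)
  (PL.C (nat_lit 0x7dc78ce9) (nat_lit 0x0) (nat_lit 0xeba3f8d7e99af)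
  (PL.C (nat_lit 0x7dcd4c13) (nat_lit 0x0) (nat_lit 0x214403b99a94ac3)
  (PL.C (nat_lit 0x7e242a33) (nat_lit 0x6a3519710ee1) (nat_lit 0x0)
  (PL.C (nat_lit 0x7e3214f6) (nat_lit 0x50748ab78d023) (nat_lit 0x0)
  (PL.C (nat_lit 0x7e4e7227) (nat_lit 0x0) (nat_lit 0xd2a66e6e9c1f)
  (PL.C (nat_lit 0x7eb775d1) (nat_lit 0x0) (nat_lit 0x45d3e61498410)
  (PL.C (nat_lit 0x7f297669) (nat_lit 0x301fda1373fd3b0) (nat_lit 0x0)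
  (PL.C (nat_lit 0x7f482eda) (nat_lit 0x0) (nat_lit 0x145483e7e3a97)
  (PL.C (nat_lit 0x7f954b8e) (nat_lit 0x0) (nat_lit 0x3437c5120cd73)
  (PL.C (nat_lit 0x7fcf0611) (nat_lit 0x0) (nat_lit 0x4e89954efcb49)
  (PL.C (nat_lit 0x828ea89b) (nat_lit 0x0) (nat_lit 0x14ed9f775f8c23)
  (PL.C (nat_lit 0x838be17d) (nat_lit 0x59711c6ee2ce) (nat_lit 0x0)
  (PL.C (nat_lit 0x839ff00e) (nat_lit 0x146dda67579d5) (nat_lit 0x0)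
  (PL.C (nat_lit 0x83add5a3) (nat_lit 0x0) (nat_lit 0x4805adf732652)
  (PL.C (nat_lit 0x83f96ead) (nat_lit 0x0) (nat_lit 0x2a9ed91c3c552)
  (PL.C (nat_lit 0x8417ddca) (nat_lit 0x3c1ffcfe7ff85) (nat_lit 0x0)
  (PL.C (nat_lit 0x84676119) (nat_lit 0x0) (nat_lit 0xc962ced339bf7)
  (PL.C (nat_lit 0x84aba1e9) (nat_lit 0xf54058d07470a) (nat_lit 0x0) gp0_2_105))))))))))))))))))))

noncomputable def gp0_2_103 : PL :=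
  (PL.C (nat_lit 0x76389115) (nat_lit 0x0) (nat_lit 0x13dc0ffd5b58e5)
  (PL.C (nat_lit 0x76cea33b) (nat_lit 0x0) (nat_lit 0x76a2f42263b75)
  (PL.C (nat_lit 0x76fbfc3b) (nat_lit 0x37869bf330c0f5) (nat_lit 0x0)
  (PL.C (nat_lit 0x7723de0f) (nat_lit 0x7118eef8d8aa5) (nat_lit 0x0)
  (PL.C (nat_lit 0x775f3cb9) (nat_lit 0xf70f465d549ec) (nat_lit 0x0)
  (PL.C (nat_lit 0x779c9ed6) (nat_lit 0x0) (nat_lit 0x134751052b641)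
  (PL.C (nat_lit 0x7862568a) (nat_lit 0x0) (nat_lit 0x8573f9e3280)
  (PL.C (nat_lit 0x7978739f) (nat_lit 0x1d0fd2a5feef88) (nat_lit 0x0)
  (PL.C (nat_lit 0x797c0a77) (nat_lit 0x36c7d3ec047b5e) (nat_lit 0x0)
  (PL.C (nat_lit 0x79fab9d1) (nat_lit 0x27121b84a0b5f) (nat_lit 0x0)
  (PL.C (nat_lit 0x7a1a35cf) (nat_lit 0x0) (nat_lit 0xed3280108e3b9)
  (PL.C (nat_lit 0x7a575231) (nat_lit 0x142d64b866c8e6) (nat_lit 0x0)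
  (PL.C (nat_lit 0x7a87c291) (nat_lit 0x36c7d3f7742b07) (nat_lit 0x0)
  (PL.C (nat_lit 0x7b274a79) (nat_lit 0x0) (nat_lit 0x58061873da57a)
  (PL.C (nat_lit 0x7b5fad5a) (nat_lit 0x0) (nat_lit 0x17466539d3d29)
  (PL.C (nat_lit 0x7b64ed87) (nat_lit 0x0) (nat_lit 0x2b9d970161fcb8)
  (PL.C (nat_lit 0x7c74db01) (nat_lit 0x36e12d6140a63c) (nat_lit 0x0)
  (PL.C (nat_lit 0x7c870b57) (nat_lit 0x5e49075ed1b2c) (nat_lit 0x0)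
  (PL.C (nat_lit 0x7cba6e05) (nat_lit 0x0) (nat_lit 0x77c576b5d2a039)
  (PL.C (nat_lit 0x7ccf2313) (nat_lit 0x9c29cbbba1ed) (nat_lit 0x0) gp0_2_104))))))))))))))))))))

noncomputable def gp0_2_102 : PL :=
  (PL.C (nat_lit 0x70676217) (nat_lit 0x0) (nat_lit 0x193484b6e5553)
  (PL.C (nat_lit 0x70a2e43b) (nat_lit 0x0) (nat_lit 0x353fb602ef7e8)
  (PL.C (nat_lit 0x70db43c5) (nat_lit 0x6f2bd699c3a41) (nat_lit 0x0)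
  (PL.C (nat_lit 0x711223bf) (nat_lit 0x0) (nat_lit 0x4e89955e912d4)
  (PL.C (nat_lit 0x715d89f7) (nat_lit 0xd5d644ab16a44) (nat_lit 0x0)
  (PL.C (nat_lit 0x71739e05) (nat_lit 0x9a1b105c6e6e1) (nat_lit 0x0)
  (PL.C (nat_lit 0x71d22211) (nat_lit 0x75b2d4d5560ff) (nat_lit 0x0)
  (PL.C (nat_lit 0x71d3f853) (nat_lit 0x43b67b73c1000) (nat_lit 0x0)
  (PL.C (nat_lit 0x7255853b) (nat_lit 0x709c6788c48389) (nat_lit 0x0)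
  (PL.C (nat_lit 0x72ccf6a7) (nat_lit 0x0) (nat_lit 0xd66e6fdccf732)
  (PL.C (nat_lit 0x72fc1ec7) (nat_lit 0x854e1f1955a3) (nat_lit 0x0)
  (PL.C (nat_lit 0x730eff29) (nat_lit 0x37869bf15e40c2) (nat_lit 0x0)
  (PL.C (nat_lit 0x73258027) (nat_lit 0x0) (nat_lit 0x1f9ccee68e0da)
  (PL.C (nat_lit 0x736671d6) (nat_lit 0x0) (nat_lit 0xd32b3fcd4d)
  (PL.C (nat_lit 0x73a83779) (nat_lit 0x0) (nat_lit 0x1cd4af46d4cd2)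
  (PL.C (nat_lit 0x73bb6aff) (nat_lit 0x0) (nat_lit 0x37cec8eec7ab3)
  (PL.C (nat_lit 0x73e3d649) (nat_lit 0x0) (nat_lit 0x49e3ae058ab70b)
  (PL.C (nat_lit 0x746986ae) (nat_lit 0x0) (nat_lit 0xbcd911c3ebb0)
  (PL.C (nat_lit 0x747ab8f1) (nat_lit 0x0) (nat_lit 0x12afbd829c8c8)
  (PL.C (nat_lit 0x74a717ff) (nat_lit 0x0) (nat_lit 0x566c431af234f) gp0_2_103))))))))))))))))))))

noncomputable def gp0_2_101 : PL :=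
  (PL.C (nat_lit 0x6a4ff31f) (nat_lit 0x0) (nat_lit 0x120d7b52538f2)
  (PL.C (nat_lit 0x6ab0d0ad) (nat_lit 0x0) (nat_lit 0x68d291a495aa8)
  (PL.C (nat_lit 0x6b0ccadf) (nat_lit 0xfaff2feb895a5) (nat_lit 0x0)
  (PL.C (nat_lit 0x6b377592) (nat_lit 0x9505e82b8b9d) (nat_lit 0x0)
  (PL.C (nat_lit 0x6bd752ae) (nat_lit 0x125ca86f445dc5) (nat_lit 0x0)
  (PL.C (nat_lit 0x6be1f2e1) (nat_lit 0x0) (nat_lit 0x97a6a7cd095a)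
  (PL.C (nat_lit 0x6c05c661) (nat_lit 0x0) (nat_lit 0x580618a8e2120)
  (PL.C (nat_lit 0x6c23bc5e) (nat_lit 0x0) (nat_lit 0x16353d5243b66)
  (PL.C (nat_lit 0x6c3d75b1) (nat_lit 0x9c29bf4f1630) (nat_lit 0x0)
  (PL.C (nat_lit 0x6c94472f) (nat_lit 0x2aff6e4480979) (nat_lit 0x0)
  (PL.C (nat_lit 0x6cf3d3d7) (nat_lit 0x0) (nat_lit 0xed328062ef858)
  (PL.C (nat_lit 0x6d4f04fa) (nat_lit 0x3c1ffcfc969e1) (nat_lit 0x0)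
  (PL.C (nat_lit 0x6ee82583) (nat_lit 0x0) (nat_lit 0x818cb57d08519)
  (PL.C (nat_lit 0x6f215173) (nat_lit 0x28050b9144d562) (nat_lit 0x0)
  (PL.C (nat_lit 0x6f30e9ad) (nat_lit 0x201bc6fc7ba79) (nat_lit 0x0)
  (PL.C (nat_lit 0x6f71ca21) (nat_lit 0x507d3181bf886) (nat_lit 0x0)
  (PL.C (nat_lit 0x6fdc8e25) (nat_lit 0xa258e37f191a) (nat_lit 0x0)
  (PL.C (nat_lit 0x6ffe994d) (nat_lit 0x30f5031feb3b06) (nat_lit 0x0)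
  (PL.C (nat_lit 0x7010fc03) (nat_lit 0x1612e248180712) (nat_lit 0x0)
  (PL.C (nat_lit 0x70242359) (nat_lit 0x713b3600995380) (nat_lit 0x0) gp0_2_102))))))))))))))))))))

noncomputable def gp0_2_100 : PL :=
  (PL.C (nat_lit 0x639e87ba) (nat_lit 0x0) (nat_lit 0x39d2ab1885c96)
  (PL.C (nat_lit 0x63db478a) (nat_lit 0x0) (nat_lit 0xb1f182c8d70af)
  (PL.C (nat_lit 0x646c4f8b) (nat_lit 0x0) (nat_lit 0x1666377d442777)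
  (PL.C (nat_lit 0x64fb9cc2) (nat_lit 0x146ddab3d69f4) (nat_lit 0x0)
  (PL.C (nat_lit 0x65ed5fb3) (nat_lit 0x3591497e54e3e) (nat_lit 0x0)
  (PL.C (nat_lit 0x6621eaa3) (nat_lit 0x3fcd9b8b224fa) (nat_lit 0x0)
  (PL.C (nat_lit 0x66630831) (nat_lit 0x0) (nat_lit 0x12a05beb314c56)
  (PL.C (nat_lit 0x668a405b) (nat_lit 0x0) (nat_lit 0xacb4f65f9dcee)
  (PL.C (nat_lit 0x669e38b1) (nat_lit 0x47a8b4d17cd30a) (nat_lit 0x0)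
  (PL.C (nat_lit 0x66cdfe75) (nat_lit 0x16142a76c25a3) (nat_lit 0x0)
  (PL.C (nat_lit 0x670c46df) (nat_lit 0x811713f0b5d3) (nat_lit 0x0)
  (PL.C (nat_lit 0x671abcc1) (nat_lit 0x0) (nat_lit 0xd2a6701d2ac0)
  (PL.C (nat_lit 0x676a8d8f) (nat_lit 0x0) (nat_lit 0x33a3e79c11e63a)
  (PL.C (nat_lit 0x67d976e1) (nat_lit 0x0) (nat_lit 0x16663781d18d84)
  (PL.C (nat_lit 0x686da7c6) (nat_lit 0x0) (nat_lit 0x14548412ebe82)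
  (PL.C (nat_lit 0x6953c98a) (nat_lit 0x50748a8a20c15) (nat_lit 0x0)
  (PL.C (nat_lit 0x69a157f1) (nat_lit 0x0) (nat_lit 0x2208503232327)
  (PL.C (nat_lit 0x6a0675e7) (nat_lit 0x31dd045) (nat_lit 0x0)
  (PL.C (nat_lit 0x6a09e551) (nat_lit 0x17826ad4ece2a) (nat_lit 0x0)
  (PL.C (nat_lit 0x6a2d704d) (nat_lit 0x25afd70dc89391) (nat_lit 0x0) gp0_2_101))))))))))))))))))))

noncomputable def gp0_2_99 : PL :=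
  (PL.C (nat_lit 0x5fc556d9) (nat_lit 0x0) (nat_lit 0x3f3db1bdee39a)
  (PL.C (nat_lit 0x60152015) (nat_lit 0x0) (nat_lit 0x3bcf8b3cb7840d)
  (PL.C (nat_lit 0x602963bd) (nat_lit 0xb67335345f29e) (nat_lit 0x0)
  (PL.C (nat_lit 0x60840967) (nat_lit 0xefcc4a0217d23) (nat_lit 0x0)
  (PL.C (nat_lit 0x609c0a23) (nat_lit 0x2a085280857e6) (nat_lit 0x0)
  (PL.C (nat_lit 0x60d3e3a3) (nat_lit 0xa16f4ae4e62bf) (nat_lit 0x0)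
  (PL.C (nat_lit 0x60e8dd83) (nat_lit 0x0) (nat_lit 0x1e9b01612e3370)
  (PL.C (nat_lit 0x61209b8d) (nat_lit 0x45c28782c19a2) (nat_lit 0x0)
  (PL.C (nat_lit 0x61338607) (nat_lit 0x426393e6025a92) (nat_lit 0x0)
  (PL.C (nat_lit 0x613bbc0d) (nat_lit 0x0) (nat_lit 0x337241457794)
  (PL.C (nat_lit 0x618b1476) (nat_lit 0x125ca87497d13c) (nat_lit 0x0)
  (PL.C (nat_lit 0x61b5189d) (nat_lit 0x0) (nat_lit 0x4666de7c91fc8)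
  (PL.C (nat_lit 0x61d4472d) (nat_lit 0x1612e25bf8ce26) (nat_lit 0x0)
  (PL.C (nat_lit 0x61e776ad) (nat_lit 0x3c509d625df5) (nat_lit 0x0)
  (PL.C (nat_lit 0x61f511b9) (nat_lit 0x7bd1fdec7ef6c6) (nat_lit 0x0)
  (PL.C (nat_lit 0x624521e6) (nat_lit 0x0) (nat_lit 0x39d2ab152b97d)
  (PL.C (nat_lit 0x625076a3) (nat_lit 0xb221e7797a51) (nat_lit 0x0)
  (PL.C (nat_lit 0x62faeaa6) (nat_lit 0x95f70235a9be) (nat_lit 0x0)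
  (PL.C (nat_lit 0x630119c6) (nat_lit 0x2bdb0069501dd) (nat_lit 0x0)
  (PL.C (nat_lit 0x63736282) (nat_lit 0x1096dfd908a505) (nat_lit 0x0) gp0_2_100))))))))))))))))))))

noncomputable def gp0_2_98 : PL :=
  (PL.C (nat_lit 0x5b23f316) (nat_lit 0x0) (nat_lit 0x3c50b4d1cf131)
  (PL.C (nat_lit 0x5b5f1a35) (nat_lit 0x0) (nat_lit 0x83df23769fcc8)
  (PL.C (nat_lit 0x5b7dbaa1) (nat_lit 0x0) (nat_lit 0x1b3f4cf5cf859c)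
  (PL.C (nat_lit 0x5b8f5bb9) (nat_lit 0x181a171f16188) (nat_lit 0x0)
  (PL.C (nat_lit 0x5bb77005) (nat_lit 0xa5ddfe3021ed2) (nat_lit 0x0)
  (PL.C (nat_lit 0x5bbe8e89) (nat_lit 0x0) (nat_lit 0x33e1c673ef8ccd)
  (PL.C (nat_lit 0x5c64f55a) (nat_lit 0x1597ebe068f344) (nat_lit 0x0)
  (PL.C (nat_lit 0x5c8cc1bb) (nat_lit 0x0) (nat_lit 0x566c421ec3533)
  (PL.C (nat_lit 0x5c9c1f2d) (nat_lit 0x4bf7955165f70) (nat_lit 0x0)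
  (PL.C (nat_lit 0x5cbc772b) (nat_lit 0x0) (nat_lit 0x13dc1009b366b1)
  (PL.C (nat_lit 0x5cdc8b19) (nat_lit 0x0) (nat_lit 0x20d2f338f4763e)
  (PL.C (nat_lit 0x5d47bc93) (nat_lit 0x0) (nat_lit 0x748b4582a7968b)
  (PL.C (nat_lit 0x5d58b62d) (nat_lit 0x0) (nat_lit 0x1cd4b051c0d59)
  (PL.C (nat_lit 0x5da92f5f) (nat_lit 0x0) (nat_lit 0x8c03c8611c252)
  (PL.C (nat_lit 0x5dcfa87f) (nat_lit 0x679bddf59c0a7) (nat_lit 0x0)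
  (PL.C (nat_lit 0x5def1a43) (nat_lit 0x25afd705343ac7) (nat_lit 0x0)
  (PL.C (nat_lit 0x5e99f94f) (nat_lit 0x0) (nat_lit 0x49e3ae0532599c)
  (PL.C (nat_lit 0x5eaa247d) (nat_lit 0x713b35fd9f284b) (nat_lit 0x0)
  (PL.C (nat_lit 0x5f152467) (nat_lit 0x81171bd49457) (nat_lit 0x0)
  (PL.C (nat_lit 0x5f5748ab) (nat_lit 0x0) (nat_lit 0x15f5ed8b487ea6) gp0_2_99))))))))))))))))))))

noncomputable def gp0_2_97 : PL :=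
  (PL.C (nat_lit 0x574ca60b) (nat_lit 0x0) (nat_lit 0x1b3f4cfdcd71bc)
  (PL.C (nat_lit 0x579f255b) (nat_lit 0x0) (nat_lit 0x19460eac77e79c)
  (PL.C (nat_lit 0x57b8aaab) (nat_lit 0x0) (nat_lit 0xed996a9a43a5f)
  (PL.C (nat_lit 0x57c7a8d1) (nat_lit 0x0) (nat_lit 0x1cfccb22944ae0)
  (PL.C (nat_lit 0x57fb9f1e) (nat_lit 0x102b4d7516ad83) (nat_lit 0x0)
  (PL.C (nat_lit 0x58044a69) (nat_lit 0xd86cda4f53d68) (nat_lit 0x0)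
  (PL.C (nat_lit 0x5844eb66) (nat_lit 0x0) (nat_lit 0x8dadc3a1a3cef)
  (PL.C (nat_lit 0x58603d8d) (nat_lit 0x0) (nat_lit 0x10e0f43bb55bb8)
  (PL.C (nat_lit 0x586af0e5) (nat_lit 0x0) (nat_lit 0x19348473ddf96)
  (PL.C (nat_lit 0x5895c827) (nat_lit 0x2db091853406b) (nat_lit 0x0)
  (PL.C (nat_lit 0x58a23679) (nat_lit 0x0) (nat_lit 0x2918d9f8a3b5a)
  (PL.C (nat_lit 0x590770ea) (nat_lit 0x0) (nat_lit 0x8dadc5747e07d)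
  (PL.C (nat_lit 0x592dca33) (nat_lit 0x507d3177cc627) (nat_lit 0x0)
  (PL.C (nat_lit 0x599e7777) (nat_lit 0xec6bb5c6dd82d) (nat_lit 0x0)
  (PL.C (nat_lit 0x59f43ffa) (nat_lit 0x102b4d74ab18b3) (nat_lit 0x0)
  (PL.C (nat_lit 0x5a5cd09a) (nat_lit 0x3efc79e404c37) (nat_lit 0x0)
  (PL.C (nat_lit 0x5ab6e041) (nat_lit 0x66e1d41db0b5f) (nat_lit 0x0)
  (PL.C (nat_lit 0x5ac51f9e) (nat_lit 0x0) (nat_lit 0x1121ff4162afaa)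
  (PL.C (nat_lit 0x5ac74e8f) (nat_lit 0x0) (nat_lit 0x28d92d88608a3)
  (PL.C (nat_lit 0x5af61a3f) (nat_lit 0x0) (nat_lit 0x43fee0d39cce85) gp0_2_98))))))))))))))))))))

noncomputable def gp0_2_96 : PL :=
  (PL.C (nat_lit 0x54181c22) (nat_lit 0x0) (nat_lit 0xbcd90b2cbf8f)
  (PL.C (nat_lit 0x541e5349) (nat_lit 0x0) (nat_lit 0x12afbdef59b90)
  (PL.C (nat_lit 0x542d2ceb) (nat_lit 0x21910e827a185) (nat_lit 0x0)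
  (PL.C (nat_lit 0x54344c1a) (nat_lit 0x0) (nat_lit 0x4d7b5fd4292c4)
  (PL.C (nat_lit 0x5458915b) (nat_lit 0xab65b70e1536d) (nat_lit 0x0)
  (PL.C (nat_lit 0x545f7187) (nat_lit 0xe6a0f7aff1bb1b) (nat_lit 0x0)
  (PL.C (nat_lit 0x54b79623) (nat_lit 0x0) (nat_lit 0x4e2fbad306b56d)
  (PL.C (nat_lit 0x54b9ee69) (nat_lit 0x4bf795e8f2490) (nat_lit 0x0)
  (PL.C (nat_lit 0x54da62c3) (nat_lit 0x17a5ef641d8707) (nat_lit 0x0)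
  (PL.C (nat_lit 0x54e6ad7d) (nat_lit 0x0) (nat_lit 0x6630684388d9a)
  (PL.C (nat_lit 0x5512718d) (nat_lit 0x1e5ded7b31e7f) (nat_lit 0x0)
  (PL.C (nat_lit 0x5534aeb6) (nat_lit 0x47a344bb8d365) (nat_lit 0x0)
  (PL.C (nat_lit 0x55a1c6db) (nat_lit 0x21910edc7052c) (nat_lit 0x0)
  (PL.C (nat_lit 0x560adfbf) (nat_lit 0x1e5decfaed8ea) (nat_lit 0x0)
  (PL.C (nat_lit 0x56373a6f) (nat_lit 0x3ddad4ede50f00) (nat_lit 0x0)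
  (PL.C (nat_lit 0x56542073) (nat_lit 0xcc10b74dc4311) (nat_lit 0x0)
  (PL.C (nat_lit 0x56a02935) (nat_lit 0x0) (nat_lit 0x7a2ade7d1a384c)
  (PL.C (nat_lit 0x56c87d09) (nat_lit 0xab65b6d50fb6b) (nat_lit 0x0)
  (PL.C (nat_lit 0x56fd109b) (nat_lit 0x0) (nat_lit 0x353fb5c8206e9)
  (PL.C (nat_lit 0x571a38ef) (nat_lit 0x8f55eccf64099) (nat_lit 0x0) gp0_2_97))))))))))))))))))))

noncomputable def gp0_2_95 : PL :=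
  (PL.C (nat_lit 0x503ec985) (nat_lit 0x0) (nat_lit 0x2c0b0a480b90af)
  (PL.C (nat_lit 0x50535969) (nat_lit 0x0) (nat_lit 0xb2a939270500f)
  (PL.C (nat_lit 0x505fbfe5) (nat_lit 0x6eb6515d5f59e) (nat_lit 0x0)
  (PL.C (nat_lit 0x508a6e3f) (nat_lit 0x546f0c7d478829) (nat_lit 0x0)
  (PL.C (nat_lit 0x50f34ad7) (nat_lit 0x0) (nat_lit 0xa8e43cf0ed48a)
  (PL.C (nat_lit 0x5151d136) (nat_lit 0x0) (nat_lit 0x8573ccc62e4)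
  (PL.C (nat_lit 0x5166ce8a) (nat_lit 0x0) (nat_lit 0x118f0b4236ebe9)
  (PL.C (nat_lit 0x51bcd76f) (nat_lit 0x15bfcf889f71c1) (nat_lit 0x0)
  (PL.C (nat_lit 0x520d9263) (nat_lit 0x0) (nat_lit 0x24550a1b706017)
  (PL.C (nat_lit 0x521a31a6) (nat_lit 0x25c7b7f9dd4def) (nat_lit 0x0)
  (PL.C (nat_lit 0x52a57821) (nat_lit 0xa76bd10d1b8fb) (nat_lit 0x0)
  (PL.C (nat_lit 0x52b0f45d) (nat_lit 0x0) (nat_lit 0x77cde1ea1bb785)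
  (PL.C (nat_lit 0x52c12bdd) (nat_lit 0xefcc49c453b38) (nat_lit 0x0)
  (PL.C (nat_lit 0x5304b23a) (nat_lit 0x0) (nat_lit 0x8869bade91d02)
  (PL.C (nat_lit 0x530ce04b) (nat_lit 0x0) (nat_lit 0x600ef6513c66)
  (PL.C (nat_lit 0x5319ec73) (nat_lit 0x0) (nat_lit 0x343ae9256c7fa)
  (PL.C (nat_lit 0x53962865) (nat_lit 0x0) (nat_lit 0x21cb23015bddf)
  (PL.C (nat_lit 0x53aa0046) (nat_lit 0x0) (nat_lit 0x21474e8338522)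
  (PL.C (nat_lit 0x53ce09f5) (nat_lit 0x58cbf3b6832c8) (nat_lit 0x0)
  (PL.C (nat_lit 0x53fe7c75) (nat_lit 0x0) (nat_lit 0xb996078f4636a) gp0_2_96))))))))))))))))))))

noncomputable def gp0_2_94 : PL :=
  (PL.C (nat_lit 0x4dc4baaa) (nat_lit 0x12815c81c12549) (nat_lit 0x0)
  (PL.C (nat_lit 0x4e09a657) (nat_lit 0x2b434183f42f8) (nat_lit 0x0)
  (PL.C (nat_lit 0x4e48a717) (nat_lit 0x73be1aa4ef1c82) (nat_lit 0x0)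
  (PL.C (nat_lit 0x4e5a8b21) (nat_lit 0x0) (nat_lit 0x3f3db35d6dfff)
  (PL.C (nat_lit 0x4e62e47b) (nat_lit 0x0) (nat_lit 0x77cde1f4507486)
  (PL.C (nat_lit 0x4e63bb3d) (nat_lit 0x11784f27f98d1f8) (nat_lit 0x0)
  (PL.C (nat_lit 0x4eae936f) (nat_lit 0x5e49081be159b) (nat_lit 0x0)
  (PL.C (nat_lit 0x4eb59fb1) (nat_lit 0x4d1d35d82ecc2f) (nat_lit 0x0)
  (PL.C (nat_lit 0x4ebe381f) (nat_lit 0x0) (nat_lit 0x32462ff54a03b5)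
  (PL.C (nat_lit 0x4ed5f491) (nat_lit 0x118430f1de423) (nat_lit 0x0)
  (PL.C (nat_lit 0x4f107b1b) (nat_lit 0x0) (nat_lit 0x518d265455120c)
  (PL.C (nat_lit 0x4f346cd2) (nat_lit 0x95f7036db622) (nat_lit 0x0)
  (PL.C (nat_lit 0x4f4b808f) (nat_lit 0x0) (nat_lit 0xeba3f89009f3f)
  (PL.C (nat_lit 0x4f5f38eb) (nat_lit 0x67ac26f53634f) (nat_lit 0x0)
  (PL.C (nat_lit 0x4f631407) (nat_lit 0x0) (nat_lit 0x102fca75401f47)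
  (PL.C (nat_lit 0x4f83b027) (nat_lit 0x240316caf4990) (nat_lit 0x0)
  (PL.C (nat_lit 0x4f8f7523) (nat_lit 0x48e54d3abbf50) (nat_lit 0x0)
  (PL.C (nat_lit 0x4f94d326) (nat_lit 0x1096dfdf455427) (nat_lit 0x0)
  (PL.C (nat_lit 0x4f9caa85) (nat_lit 0x0) (nat_lit 0x337c78ef3c417)
  (PL.C (nat_lit 0x4feb4c01) (nat_lit 0x0) (nat_lit 0xe1a1c7a7bf3b1f) gp0_2_95))))))))))))))))))))

noncomputable def gp0_2_93 : PL :=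
  (PL.C (nat_lit 0x4a9a6281) (nat_lit 0x0) (nat_lit 0x3694450367f04b)
  (PL.C (nat_lit 0x4ac79503) (nat_lit 0x13d7a9db5ae6db) (nat_lit 0x0)
  (PL.C (nat_lit 0x4ae0a5b7) (nat_lit 0x13d70220473a62) (nat_lit 0x0)
  (PL.C (nat_lit 0x4aef96ba) (nat_lit 0x4c865f1afff32) (nat_lit 0x0)
  (PL.C (nat_lit 0x4b1742d2) (nat_lit 0x305d790185eeb) (nat_lit 0x0)
  (PL.C (nat_lit 0x4b616d2a) (nat_lit 0x47a34426ce27f) (nat_lit 0x0)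
  (PL.C (nat_lit 0x4b68da93) (nat_lit 0x2ae439b53f03bc) (nat_lit 0x0)
  (PL.C (nat_lit 0x4b75be09) (nat_lit 0x1431e5379ea7e9) (nat_lit 0x0)
  (PL.C (nat_lit 0x4bc06007) (nat_lit 0x1706e3f40cbd6f) (nat_lit 0x0)
  (PL.C (nat_lit 0x4c3f78bd) (nat_lit 0x0) (nat_lit 0x1f9ccd51ee4e4)
  (PL.C (nat_lit 0x4c50e5ab) (nat_lit 0x0) (nat_lit 0x32462ffaa8fca3)
  (PL.C (nat_lit 0x4ca2be85) (nat_lit 0x0) (nat_lit 0x12a05bf253d380)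
  (PL.C (nat_lit 0x4cc9197b) (nat_lit 0x0) (nat_lit 0x2d8c6b1d94db5f)
  (PL.C (nat_lit 0x4ce2d64f) (nat_lit 0x0) (nat_lit 0x1e9b01629cf7af)
  (PL.C (nat_lit 0x4d1acfa6) (nat_lit 0x0) (nat_lit 0x20366675638dd)
  (PL.C (nat_lit 0x4d279caa) (nat_lit 0x3d92b00160d01) (nat_lit 0x0)
  (PL.C (nat_lit 0x4d3b96e5) (nat_lit 0x0) (nat_lit 0x33a3e7a3d72603)
  (PL.C (nat_lit 0x4d72506d) (nat_lit 0x0) (nat_lit 0x89f4b06322c65)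
  (PL.C (nat_lit 0x4d8c45f9) (nat_lit 0x0) (nat_lit 0x3bcf8b3a6ccf1f)
  (PL.C (nat_lit 0x4da725f6) (nat_lit 0x0) (nat_lit 0xdc62d6a69773b) gp0_2_94))))))))))))))))))))

noncomputable def gp0_2_92 : PL :=
  (PL.C (nat_lit 0x484ff6c1) (nat_lit 0xe520c5f055b3) (nat_lit 0x0)
  (PL.C (nat_lit 0x48972693) (nat_lit 0x0) (nat_lit 0xed996a7a357b3)
  (PL.C (nat_lit 0x48a28d3a) (nat_lit 0x0) (nat_lit 0x118f0b42cd5434)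
  (PL.C (nat_lit 0x48a7bd85) (nat_lit 0x0) (nat_lit 0x2bb961cb93782)
  (PL.C (nat_lit 0x48c78e6b) (nat_lit 0x3fcd9b321911e) (nat_lit 0x0)
  (PL.C (nat_lit 0x48cc1a7b) (nat_lit 0xb6733395c8c12) (nat_lit 0x0)
  (PL.C (nat_lit 0x48fc3255) (nat_lit 0x44771081747aa) (nat_lit 0x0)
  (PL.C (nat_lit 0x492022c9) (nat_lit 0x47a8b4e977ee57) (nat_lit 0x0)
  (PL.C (nat_lit 0x493fdc45) (nat_lit 0x0) (nat_lit 0x45d3e613214be)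
  (PL.C (nat_lit 0x49507227) (nat_lit 0x12d918c30d85be) (nat_lit 0x0)
  (PL.C (nat_lit 0x496c876d) (nat_lit 0x0) (nat_lit 0x15f5ed911c0518)
  (PL.C (nat_lit 0x499d0943) (nat_lit 0x0) (nat_lit 0x40daa1ef2c496)
  (PL.C (nat_lit 0x49e26d99) (nat_lit 0x0) (nat_lit 0x7f942b03fa7e0)
  (PL.C (nat_lit 0x49f01902) (nat_lit 0x0) (nat_lit 0xb1f1828849561)
  (PL.C (nat_lit 0x49f76207) (nat_lit 0x0) (nat_lit 0xc51cff27de9b9)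
  (PL.C (nat_lit 0x4a37bc17) (nat_lit 0x0) (nat_lit 0x24550a07be1153)
  (PL.C (nat_lit 0x4a4bdc16) (nat_lit 0x0) (nat_lit 0x25cc7f5c1ed559)
  (PL.C (nat_lit 0x4a4cc3cd) (nat_lit 0x609778bd25e9e) (nat_lit 0x0)
  (PL.C (nat_lit 0x4a8754d9) (nat_lit 0x0) (nat_lit 0x68d291a6366fb)
  (PL.C (nat_lit 0x4a93096e) (nat_lit 0x2bdb00b94e83b) (nat_lit 0x0) gp0_2_93))))))))))))))))))))

noncomputable def gp0_2_91 : PL :=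
  (PL.C (nat_lit 0x45f24acb) (nat_lit 0x58cbf375702eb) (nat_lit 0x0)
  (PL.C (nat_lit 0x463205f1) (nat_lit 0x66e1d5f4ef43e) (nat_lit 0x0)
  (PL.C (nat_lit 0x463e0543) (nat_lit 0x0) (nat_lit 0x1cfccb23556f00)
  (PL.C (nat_lit 0x464cd0f1) (nat_lit 0x0) (nat_lit 0x630d8ccc100bae)
  (PL.C (nat_lit 0x466b8ff6) (nat_lit 0x0) (nat_lit 0x6fffc0452dde3)
  (PL.C (nat_lit 0x46dff76a) (nat_lit 0xff6b2fc41043) (nat_lit 0x0)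
  (PL.C (nat_lit 0x46e77309) (nat_lit 0x0) (nat_lit 0x518d26722bba03)
  (PL.C (nat_lit 0x471027e7) (nat_lit 0x0) (nat_lit 0xc304830fa8eb2)
  (PL.C (nat_lit 0x47208b1e) (nat_lit 0x0) (nat_lit 0xcd1da98edfe6)
  (PL.C (nat_lit 0x47337e07) (nat_lit 0x161429e660cc9) (nat_lit 0x0)
  (PL.C (nat_lit 0x47394be3) (nat_lit 0xe6a0f7b095c666) (nat_lit 0x0)
  (PL.C (nat_lit 0x474b5bab) (nat_lit 0x0) (nat_lit 0x93f32278a0d17)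
  (PL.C (nat_lit 0x47701c1b) (nat_lit 0x0) (nat_lit 0x448cb935cdaaa)
  (PL.C (nat_lit 0x4783b3ef) (nat_lit 0x11784f28b104273) (nat_lit 0x0)
  (PL.C (nat_lit 0x479da7d9) (nat_lit 0x0) (nat_lit 0x76954b4742f12d)
  (PL.C (nat_lit 0x47b91693) (nat_lit 0x0) (nat_lit 0x2c40702af12e8)
  (PL.C (nat_lit 0x47d06681) (nat_lit 0x3591491ef6747) (nat_lit 0x0)
  (PL.C (nat_lit 0x47e878bd) (nat_lit 0x0) (nat_lit 0x4ac2e133f2c2)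
  (PL.C (nat_lit 0x4803d996) (nat_lit 0x25c7b7f58a7e4d) (nat_lit 0x0)
  (PL.C (nat_lit 0x48499fbd) (nat_lit 0x0) (nat_lit 0x49433c745043ad) gp0_2_92))))))))))))))))))))

noncomputable def gp0_2_90 : PL :=
  (PL.C (nat_lit 0x43347559) (nat_lit 0x0) (nat_lit 0x76fd8bd6f3aaf)
  (PL.C (nat_lit 0x4376d5c5) (nat_lit 0x0) (nat_lit 0x49433c7b176061)
  (PL.C (nat_lit 0x437c88b7) (nat_lit 0x0) (nat_lit 0x3ce06b43beec3)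
  (PL.C (nat_lit 0x4393279b) (nat_lit 0x891f9f0a6bd41) (nat_lit 0x0)
  (PL.C (nat_lit 0x43a38c37) (nat_lit 0x0) (nat_lit 0x338b94da51b4c)
  (PL.C (nat_lit 0x43bd5059) (nat_lit 0x10be415dc47b193) (nat_lit 0x0)
  (PL.C (nat_lit 0x43cc798b) (nat_lit 0x0) (nat_lit 0x37cec8df54b6b)
  (PL.C (nat_lit 0x43ec16b9) (nat_lit 0x67ac2708d89a7) (nat_lit 0x0)
  (PL.C (nat_lit 0x43efe195) (nat_lit 0x7118efc7def6f) (nat_lit 0x0)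
  (PL.C (nat_lit 0x43f39522) (nat_lit 0x2b743582e6ebd) (nat_lit 0x0)
  (PL.C (nat_lit 0x443b66d3) (nat_lit 0x0) (nat_lit 0x4045dea528300)
  (PL.C (nat_lit 0x44420576) (nat_lit 0x6f1c3ff9571af) (nat_lit 0x0)
  (PL.C (nat_lit 0x4478c99b) (nat_lit 0x0) (nat_lit 0x11bb1cacd353cb4)
  (PL.C (nat_lit 0x4489544e) (nat_lit 0x11e9580db6f87d) (nat_lit 0x0)
  (PL.C (nat_lit 0x44b2d9ea) (nat_lit 0x0) (nat_lit 0x480770949275e)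
  (PL.C (nat_lit 0x44bc7dd6) (nat_lit 0x0) (nat_lit 0x4d7b5f9175aae)
  (PL.C (nat_lit 0x44d1ef93) (nat_lit 0x0) (nat_lit 0x1e23d5865b760d)
  (PL.C (nat_lit 0x44da196d) (nat_lit 0x0) (nat_lit 0x120d7b447d060)
  (PL.C (nat_lit 0x453ba496) (nat_lit 0x2bdd6a28c62db) (nat_lit 0x0)
  (PL.C (nat_lit 0x45db9611) (nat_lit 0x709c677e48eca3) (nat_lit 0x0) gp0_2_91))))))))))))))))))))

noncomputable def gp0_2_89 : PL :=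
  (PL.C (nat_lit 0x4176699d) (nat_lit 0x75b2d464d726e) (nat_lit 0x0)
  (PL.C (nat_lit 0x418af9c2) (nat_lit 0x0) (nat_lit 0x1347511d0d681)
  (PL.C (nat_lit 0x41b5afb7) (nat_lit 0x2ff89b5e3d66f1) (nat_lit 0x0)
  (PL.C (nat_lit 0x41bf580d) (nat_lit 0x11d19e4f3b6349) (nat_lit 0x0)
  (PL.C (nat_lit 0x41e03ff3) (nat_lit 0x0) (nat_lit 0x102fca6f5406e5)
  (PL.C (nat_lit 0x41fa5513) (nat_lit 0xb534bb4d431f55) (nat_lit 0x0)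
  (PL.C (nat_lit 0x4205db43) (nat_lit 0x0) (nat_lit 0x21e1e59a04c0)
  (PL.C (nat_lit 0x420b3d0f) (nat_lit 0x0) (nat_lit 0x48609ed6081879)
  (PL.C (nat_lit 0x42248965) (nat_lit 0x9a1b0ed495609) (nat_lit 0x0)
  (PL.C (nat_lit 0x422b95a7) (nat_lit 0x7bd1fde3e801de) (nat_lit 0x0)
  (PL.C (nat_lit 0x422c4af1) (nat_lit 0x0) (nat_lit 0x4e2fbacd033f5f)
  (PL.C (nat_lit 0x42503bcb) (nat_lit 0x1cab301ae7847a) (nat_lit 0x0)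
  (PL.C (nat_lit 0x42716c35) (nat_lit 0x4d1d35dc5eeabe) (nat_lit 0x0)
  (PL.C (nat_lit 0x4281bc7f) (nat_lit 0x8f55ecb304fcd) (nat_lit 0x0)
  (PL.C (nat_lit 0x42975a65) (nat_lit 0x157b76423af49) (nat_lit 0x0)
  (PL.C (nat_lit 0x42be1ec7) (nat_lit 0x0) (nat_lit 0xb996071a41a5e)
  (PL.C (nat_lit 0x42f2dfb2) (nat_lit 0x2bdd6a40aafd0) (nat_lit 0x0)
  (PL.C (nat_lit 0x4303d863) (nat_lit 0x2b434190915d5) (nat_lit 0x0)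
  (PL.C (nat_lit 0x430da3a5) (nat_lit 0x26c85e4cdc33e) (nat_lit 0x0)
  (PL.C (nat_lit 0x43294eef) (nat_lit 0x10be415d1c96818) (nat_lit 0x0) gp0_2_90))))))))))))))))))))

noncomputable def gp0_2_88 : PL :=
  (PL.C (nat_lit 0x3e51399d) (nat_lit 0x0) (nat_lit 0x16e987a48dcb2)
  (PL.C (nat_lit 0x3e66fd3b) (nat_lit 0x0) (nat_lit 0x4f9b53fcf65181)
  (PL.C (nat_lit 0x3e8ec639) (nat_lit 0x0) (nat_lit 0xbda12cdab956e)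
  (PL.C (nat_lit 0x3ea6bcb3) (nat_lit 0x426393e30a04b3) (nat_lit 0x0)
  (PL.C (nat_lit 0x3eb83c33) (nat_lit 0x0) (nat_lit 0x27d4159994c93)
  (PL.C (nat_lit 0x3ed0209d) (nat_lit 0x110e0c89905a3c) (nat_lit 0x0)
  (PL.C (nat_lit 0x3f636d9a) (nat_lit 0x0) (nat_lit 0x4807712b755d0)
  (PL.C (nat_lit 0x3fa84e1f) (nat_lit 0x0) (nat_lit 0xdd92b90473ac)
  (PL.C (nat_lit 0x3fd83381) (nat_lit 0x157b763ae4553) (nat_lit 0x0)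
  (PL.C (nat_lit 0x3ff91cd1) (nat_lit 0x0) (nat_lit 0x3ce06b6e7d201)
  (PL.C (nat_lit 0x401187d1) (nat_lit 0x3098a3499a09ed) (nat_lit 0x0)
  (PL.C (nat_lit 0x4064e5b7) (nat_lit 0x0) (nat_lit 0x21e1e278a584)
  (PL.C (nat_lit 0x406806c2) (nat_lit 0xf0409a6ce223) (nat_lit 0x0)
  (PL.C (nat_lit 0x406c2f97) (nat_lit 0x0) (nat_lit 0x748b45858e601c)
  (PL.C (nat_lit 0x40730ced) (nat_lit 0x546f0c82d40cf0) (nat_lit 0x0)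
  (PL.C (nat_lit 0x40c6f635) (nat_lit 0x0) (nat_lit 0x76954b4527bd35)
  (PL.C (nat_lit 0x40d27d5e) (nat_lit 0x0) (nat_lit 0x334b993ddf93e)
  (PL.C (nat_lit 0x40e761cb) (nat_lit 0x0) (nat_lit 0xd66e6ffc06551)
  (PL.C (nat_lit 0x412365be) (nat_lit 0x0) (nat_lit 0x1121ff47eb7391)
  (PL.C (nat_lit 0x416a2d05) (nat_lit 0x0) (nat_lit 0x11dd71802a7a22d) gp0_2_89))))))))))))))))))))

noncomputable def gp0_2_87 : PL :=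
  (PL.C (nat_lit 0x3c84df0a) (nat_lit 0x0) (nat_lit 0x3c50b4e498686)
  (PL.C (nat_lit 0x3c866fe5) (nat_lit 0x0) (nat_lit 0x10868e2112966a)
  (PL.C (nat_lit 0x3cb39e71) (nat_lit 0x0) (nat_lit 0x93f321d746da3)
  (PL.C (nat_lit 0x3d05a171) (nat_lit 0x0) (nat_lit 0xe1a1c796590700)
  (PL.C (nat_lit 0x3d0a3d26) (nat_lit 0x3efc7aa140b9b) (nat_lit 0x0)
  (PL.C (nat_lit 0x3d0afb85) (nat_lit 0x0) (nat_lit 0x338b951477aee)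
  (PL.C (nat_lit 0x3d16deef) (nat_lit 0x0) (nat_lit 0x482df389e38e)
  (PL.C (nat_lit 0x3d49c393) (nat_lit 0x0) (nat_lit 0xc9b7292c2e163)
  (PL.C (nat_lit 0x3d551459) (nat_lit 0x0) (nat_lit 0xc3048275f62f0)
  (PL.C (nat_lit 0x3d5b9d63) (nat_lit 0x175f2b2680edb2) (nat_lit 0x0)
  (PL.C (nat_lit 0x3d8487bb) (nat_lit 0x0) (nat_lit 0x448cb949ef35c)
  (PL.C (nat_lit 0x3d9082d1) (nat_lit 0x0) (nat_lit 0x86d945832b14c)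
  (PL.C (nat_lit 0x3db32bd2) (nat_lit 0x12815c8cedae99) (nat_lit 0x0)
  (PL.C (nat_lit 0x3dbd6a1e) (nat_lit 0x0) (nat_lit 0xc7bdab180a66b)
  (PL.C (nat_lit 0x3dd0d395) (nat_lit 0x0) (nat_lit 0x7412bb1fce89a)
  (PL.C (nat_lit 0x3dd57e19) (nat_lit 0x0) (nat_lit 0x14f78411cc328)
  (PL.C (nat_lit 0x3dea37f5) (nat_lit 0x0) (nat_lit 0x2918d9f1ae5bf)
  (PL.C (nat_lit 0x3e008015) (nat_lit 0x0) (nat_lit 0x29810856d1bef3)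
  (PL.C (nat_lit 0x3e3b241e) (nat_lit 0x0) (nat_lit 0x203665d6c1395)
  (PL.C (nat_lit 0x3e46e2cb) (nat_lit 0x0) (nat_lit 0x310fc98aa60ab) gp0_2_88))))))))))))))))))))

noncomputable def gp0_2_86 : PL :=
  (PL.C (nat_lit 0x3a7b1c72) (nat_lit 0x0) (nat_lit 0x32284bb4829685)
  (PL.C (nat_lit 0x3a851b36) (nat_lit 0x0) (nat_lit 0xc34f34758d43f)
  (PL.C (nat_lit 0x3a9e503d) (nat_lit 0x7e4a01cec3cb7) (nat_lit 0x0)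
  (PL.C (nat_lit 0x3aaaad25) (nat_lit 0x7b27c1edf1d0d) (nat_lit 0x0)
  (PL.C (nat_lit 0x3af1f5ee) (nat_lit 0x4c865f6323f42) (nat_lit 0x0)
  (PL.C (nat_lit 0x3b1f7e1b) (nat_lit 0x7e4a013a994b0) (nat_lit 0x0)
  (PL.C (nat_lit 0x3b6f5f1b) (nat_lit 0x2ff89b598d1913) (nat_lit 0x0)
  (PL.C (nat_lit 0x3b73dc22) (nat_lit 0x0) (nat_lit 0x25cc7f5d8f94ec)
  (PL.C (nat_lit 0x3bbcc113) (nat_lit 0x3a4a779a9fbc41) (nat_lit 0x0)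
  (PL.C (nat_lit 0x3bcb37f3) (nat_lit 0x0) (nat_lit 0x1be96f12444cc)
  (PL.C (nat_lit 0x3bdaa6ed) (nat_lit 0x0) (nat_lit 0x8c03c7223e2b8)
  (PL.C (nat_lit 0x3bfd03c3) (nat_lit 0x0) (nat_lit 0x2bb961db97cea)
  (PL.C (nat_lit 0x3c0231c3) (nat_lit 0x0) (nat_lit 0x44d877bf47779)
  (PL.C (nat_lit 0x3c2efd97) (nat_lit 0x0) (nat_lit 0x4ac2e77376db)
  (PL.C (nat_lit 0x3c4776e1) (nat_lit 0xde970cc7dbe75) (nat_lit 0x0)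
  (PL.C (nat_lit 0x3c4e03c7) (nat_lit 0x489affd35fde17) (nat_lit 0x0)
  (PL.C (nat_lit 0x3c57ea29) (nat_lit 0x7f3ed157ab2ef) (nat_lit 0x0)
  (PL.C (nat_lit 0x3c5e8deb) (nat_lit 0x0) (nat_lit 0x20d2f325b172a9)
  (PL.C (nat_lit 0x3c623a6b) (nat_lit 0x0) (nat_lit 0xb5e7445349c70)
  (PL.C (nat_lit 0x3c79ead6) (nat_lit 0x0) (nat_lit 0x8ad3dd97ab477) gp0_2_87))))))))))))))))))))

noncomputable def gp0_2_85 : PL :=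
  (PL.C (nat_lit 0x38b1d4eb) (nat_lit 0x0) (nat_lit 0x2c0b0a1475fce6)
  (PL.C (nat_lit 0x38b6f65e) (nat_lit 0x16ee3e90ee1be7) (nat_lit 0x0)
  (PL.C (nat_lit 0x38bb3e7d) (nat_lit 0x0) (nat_lit 0x712fceeacd946)
  (PL.C (nat_lit 0x38e0b933) (nat_lit 0x0) (nat_lit 0x8756ea2918593)
  (PL.C (nat_lit 0x39168492) (nat_lit 0x1be6781e28573) (nat_lit 0x0)
  (PL.C (nat_lit 0x39190553) (nat_lit 0xe520bc32dfec) (nat_lit 0x0)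
  (PL.C (nat_lit 0x392c28c7) (nat_lit 0x14bcf2ae7f100d) (nat_lit 0x0)
  (PL.C (nat_lit 0x392ec57d) (nat_lit 0x48e54f46d5597) (nat_lit 0x0)
  (PL.C (nat_lit 0x393ebdfd) (nat_lit 0x0) (nat_lit 0xbc32528cc9b86)
  (PL.C (nat_lit 0x394ec0db) (nat_lit 0x0) (nat_lit 0xa8e43d1b02a90)
  (PL.C (nat_lit 0x395c952a) (nat_lit 0x16ee3e8ef9d485) (nat_lit 0x0)
  (PL.C (nat_lit 0x39a46d3d) (nat_lit 0x38ddf1b248ee1) (nat_lit 0x0)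
  (PL.C (nat_lit 0x39cd0747) (nat_lit 0x0) (nat_lit 0x11bb1cb20644caf)
  (PL.C (nat_lit 0x39dafe06) (nat_lit 0x16b98f6199e769) (nat_lit 0x0)
  (PL.C (nat_lit 0x39fe0b12) (nat_lit 0x305d793d4b278) (nat_lit 0x0)
  (PL.C (nat_lit 0x3a117b4a) (nat_lit 0x2007a0fdf0893d) (nat_lit 0x0)
  (PL.C (nat_lit 0x3a173403) (nat_lit 0x0) (nat_lit 0x4067f96744367)
  (PL.C (nat_lit 0x3a2a7e83) (nat_lit 0x1c06abbcad67c6) (nat_lit 0x0)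
  (PL.C (nat_lit 0x3a487a73) (nat_lit 0x0) (nat_lit 0x712fcede7b2c9)
  (PL.C (nat_lit 0x3a6da321) (nat_lit 0x3a4a77982c9677) (nat_lit 0x0) gp0_2_86))))))))))))))))))))

noncomputable def gp0_2_84 : PL :=
  (PL.C (nat_lit 0x3736c031) (nat_lit 0x13d7a9d1e04fce) (nat_lit 0x0)
  (PL.C (nat_lit 0x373861d9) (nat_lit 0xb534bb817259b4) (nat_lit 0x0)
  (PL.C (nat_lit 0x375b3a3f) (nat_lit 0x18e3e5127b140) (nat_lit 0x0)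
  (PL.C (nat_lit 0x37669da2) (nat_lit 0x0) (nat_lit 0x21474e03fb42b)
  (PL.C (nat_lit 0x3771f75f) (nat_lit 0x0) (nat_lit 0x3372416e30b5)
  (PL.C (nat_lit 0x377e7ab7) (nat_lit 0x0) (nat_lit 0x2208509cdccb7)
  (PL.C (nat_lit 0x37804701) (nat_lit 0x7b27c17b78391) (nat_lit 0x0)
  (PL.C (nat_lit 0x378f68cd) (nat_lit 0x0) (nat_lit 0x498ebdb83c8de)
  (PL.C (nat_lit 0x37af874d) (nat_lit 0x45e890ed6f988) (nat_lit 0x0)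
  (PL.C (nat_lit 0x37b2129f) (nat_lit 0x0) (nat_lit 0x11dd717cb79f07e)
  (PL.C (nat_lit 0x37deb14e) (nat_lit 0xe0d0018bf0a40) (nat_lit 0x0)
  (PL.C (nat_lit 0x37eb4003) (nat_lit 0x0) (nat_lit 0xfa1a9c284bba8)
  (PL.C (nat_lit 0x37fa9637) (nat_lit 0x1c06abb20b0742) (nat_lit 0x0)
  (PL.C (nat_lit 0x38143786) (nat_lit 0x0) (nat_lit 0xdc62d6c3e1ed0)
  (PL.C (nat_lit 0x381e1df2) (nat_lit 0x1be677b95230b) (nat_lit 0x0)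
  (PL.C (nat_lit 0x383b0b92) (nat_lit 0x16b98f68f64121) (nat_lit 0x0)
  (PL.C (nat_lit 0x384c36cd) (nat_lit 0x10cdb03f7878de4) (nat_lit 0x0)
  (PL.C (nat_lit 0x387bf446) (nat_lit 0x0) (nat_lit 0xc7bdab21fe9cc)
  (PL.C (nat_lit 0x38958315) (nat_lit 0x0) (nat_lit 0x3abbd4b3b796b7)
  (PL.C (nat_lit 0x3899c8fe) (nat_lit 0x0) (nat_lit 0x8b078624c3b25) gp0_2_85))))))))))))))))))))

noncomputable def gp0_2_83 : PL :=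
  (PL.C (nat_lit 0x33bc9b1f) (nat_lit 0x0) (nat_lit 0x71ab61ba2088a)
  (PL.C (nat_lit 0x33f853d5) (nat_lit 0x27f4905ae56577) (nat_lit 0x0)
  (PL.C (nat_lit 0x342e9ea9) (nat_lit 0x1c7eeb95d1fa51) (nat_lit 0x0)
  (PL.C (nat_lit 0x344ca287) (nat_lit 0x3098a34615478e) (nat_lit 0x0)
  (PL.C (nat_lit 0x3456dd29) (nat_lit 0x3fa0ff9c8dea82) (nat_lit 0x0)
  (PL.C (nat_lit 0x3474624a) (nat_lit 0x0) (nat_lit 0x8869baaf7fa1f)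
  (PL.C (nat_lit 0x34ad6167) (nat_lit 0x4c9592029bdc8d) (nat_lit 0x0)
  (PL.C (nat_lit 0x34bf098b) (nat_lit 0x0) (nat_lit 0x232708985a13c9)
  (PL.C (nat_lit 0x34d9525d) (nat_lit 0x0) (nat_lit 0x48609ed1fd8a8c)
  (PL.C (nat_lit 0x34ea25f2) (nat_lit 0xfb9c3f6e0400) (nat_lit 0x0)
  (PL.C (nat_lit 0x358ce646) (nat_lit 0x0) (nat_lit 0x1ca10e68901488)
  (PL.C (nat_lit 0x3598e183) (nat_lit 0x1bc2ddbe490df8) (nat_lit 0x0)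
  (PL.C (nat_lit 0x35f7873a) (nat_lit 0xe651cf5de58f) (nat_lit 0x0)
  (PL.C (nat_lit 0x3600d5d5) (nat_lit 0x0) (nat_lit 0x802d1648b5962)
  (PL.C (nat_lit 0x3612efc1) (nat_lit 0x0) (nat_lit 0xb2ee0078e161c)
  (PL.C (nat_lit 0x36428ff7) (nat_lit 0x0) (nat_lit 0xb2a9394891440)
  (PL.C (nat_lit 0x3685e71d) (nat_lit 0x0) (nat_lit 0x2389cf5f80cc94)
  (PL.C (nat_lit 0x36e24739) (nat_lit 0x0) (nat_lit 0xa6e2d0eaf97a1)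
  (PL.C (nat_lit 0x36fe9209) (nat_lit 0x0) (nat_lit 0x96425c66883e)
  (PL.C (nat_lit 0x3721a1f3) (nat_lit 0x0) (nat_lit 0x78ef8ac989265) gp0_2_84))))))))))))))))))))

noncomputable def gp0_2_82 : PL :=
  (PL.C (nat_lit 0x3143b343) (nat_lit 0x0) (nat_lit 0x16ce18ef2f70d9)
  (PL.C (nat_lit 0x31861a79) (nat_lit 0x11d19e5b166119) (nat_lit 0x0)
  (PL.C (nat_lit 0x31af8de6) (nat_lit 0x0) (nat_lit 0xcd1da650ddd9)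
  (PL.C (nat_lit 0x31dde967) (nat_lit 0x58099cf213417) (nat_lit 0x0)
  (PL.C (nat_lit 0x320099ab) (nat_lit 0x3e09bb3c81512b) (nat_lit 0x0)
  (PL.C (nat_lit 0x320f29fb) (nat_lit 0x0) (nat_lit 0x3abbd4ab17d0f4)
  (PL.C (nat_lit 0x323a51d9) (nat_lit 0x0) (nat_lit 0xb0bb7d87e5e48)
  (PL.C (nat_lit 0x326ecabd) (nat_lit 0x0) (nat_lit 0xec10d5eae166a)
  (PL.C (nat_lit 0x3283821d) (nat_lit 0x15bfcf8cfa1355) (nat_lit 0x0)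
  (PL.C (nat_lit 0x328a98c3) (nat_lit 0x2aff6e030f801) (nat_lit 0x0)
  (PL.C (nat_lit 0x32a8160f) (nat_lit 0xac647b5cd17e5) (nat_lit 0x0)
  (PL.C (nat_lit 0x32e81723) (nat_lit 0xcc10b75c874c2) (nat_lit 0x0)
  (PL.C (nat_lit 0x32f0728d) (nat_lit 0x4c9591cb4bb32e) (nat_lit 0x0)
  (PL.C (nat_lit 0x331729ae) (nat_lit 0x6f1c3fb82d375) (nat_lit 0x0)
  (PL.C (nat_lit 0x3317b839) (nat_lit 0x318b5424e42fb) (nat_lit 0x0)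
  (PL.C (nat_lit 0x3332c4d5) (nat_lit 0xa8d552365bc5f) (nat_lit 0x0)
  (PL.C (nat_lit 0x3334481d) (nat_lit 0x0) (nat_lit 0xa5320d5c34697)
  (PL.C (nat_lit 0x33655611) (nat_lit 0x0) (nat_lit 0x1e23d5964a856d)
  (PL.C (nat_lit 0x3391a4eb) (nat_lit 0x3f10488a8997dc) (nat_lit 0x0)
  (PL.C (nat_lit 0x33a51f3b) (nat_lit 0x149977ae23e6d6) (nat_lit 0x0) gp0_2_83))))))))))))))))))))

noncomputable def gp0_2_81 : PL :=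
  (PL.C (nat_lit 0x2f77a95a) (nat_lit 0x11e9580d02aa46) (nat_lit 0x0)
  (PL.C (nat_lit 0x2f879272) (nat_lit 0x0) (nat_lit 0x645a00019c5ce)
  (PL.C (nat_lit 0x2f964887) (nat_lit 0x0) (nat_lit 0x459d59a3120b5)
  (PL.C (nat_lit 0x2f9c0b8f) (nat_lit 0x318b53b67feed) (nat_lit 0x0)
  (PL.C (nat_lit 0x2fbe6fe6) (nat_lit 0x0) (nat_lit 0x33b4aec43c222d)
  (PL.C (nat_lit 0x2fd300a5) (nat_lit 0x0) (nat_lit 0x2389cf5fba1168)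
  (PL.C (nat_lit 0x2fe04456) (nat_lit 0x2b74358066d69) (nat_lit 0x0)
  (PL.C (nat_lit 0x2ff0507e) (nat_lit 0x0) (nat_lit 0x1f226566355d05)
  (PL.C (nat_lit 0x3004f6b9) (nat_lit 0xac647b75a1cfc) (nat_lit 0x0)
  (PL.C (nat_lit 0x30317b69) (nat_lit 0x3a960134338a7) (nat_lit 0x0)
  (PL.C (nat_lit 0x3064c462) (nat_lit 0x0) (nat_lit 0x32284bc2857ca2)
  (PL.C (nat_lit 0x306fd3ae) (nat_lit 0x206aacc4d035c5) (nat_lit 0x0)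
  (PL.C (nat_lit 0x308866ad) (nat_lit 0x0) (nat_lit 0x9f969f2252fe1)
  (PL.C (nat_lit 0x30a8218e) (nat_lit 0x19787f768e0c1) (nat_lit 0x0)
  (PL.C (nat_lit 0x30d8a023) (nat_lit 0x2614ded77198c) (nat_lit 0x0)
  (PL.C (nat_lit 0x30e04c1a) (nat_lit 0x2ec08814031efc) (nat_lit 0x0)
  (PL.C (nat_lit 0x31135b82) (nat_lit 0x0) (nat_lit 0xb88b95544dae)
  (PL.C (nat_lit 0x3119e5cf) (nat_lit 0x1cab301faa3d86) (nat_lit 0x0)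
  (PL.C (nat_lit 0x3133357f) (nat_lit 0x0) (nat_lit 0x1dd8257bcfeefd)
  (PL.C (nat_lit 0x31419e66) (nat_lit 0x0) (nat_lit 0xb378202c15228) gp0_2_82))))))))))))))))))))

noncomputable def gp0_2_80 : PL :=
  (PL.C (nat_lit 0x2de6bb9e) (nat_lit 0xff6b258b1b42) (nat_lit 0x0)
  (PL.C (nat_lit 0x2dec0f3d) (nat_lit 0x0) (nat_lit 0x6eaf6d1dd279d)
  (PL.C (nat_lit 0x2e549fdd) (nat_lit 0x788e68b70644c) (nat_lit 0x0)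
  (PL.C (nat_lit 0x2e6c81ed) (nat_lit 0x2c7a8dbdd0bf40) (nat_lit 0x0)
  (PL.C (nat_lit 0x2e7c1179) (nat_lit 0x4e0188ffa1be9) (nat_lit 0x0)
  (PL.C (nat_lit 0x2e8a1aff) (nat_lit 0x0) (nat_lit 0x112e68d65ae4b)
  (PL.C (nat_lit 0x2e9beeb5) (nat_lit 0x2db091b2f8441) (nat_lit 0x0)
  (PL.C (nat_lit 0x2ea18732) (nat_lit 0xe0d00148df7bf) (nat_lit 0x0)
  (PL.C (nat_lit 0x2ea5027f) (nat_lit 0x0) (nat_lit 0x596e19e07ea970)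
  (PL.C (nat_lit 0x2ebab97b) (nat_lit 0x1dc423801e5bbc) (nat_lit 0x0)
  (PL.C (nat_lit 0x2ecc03f6) (nat_lit 0x0) (nat_lit 0x8ad3df254c68c)
  (PL.C (nat_lit 0x2ed40382) (nat_lit 0x0) (nat_lit 0xc34f345f4c49e)
  (PL.C (nat_lit 0x2ed708f1) (nat_lit 0xa8d55274ea020) (nat_lit 0x0)
  (PL.C (nat_lit 0x2ee82f47) (nat_lit 0x0) (nat_lit 0x7f942ae93b9b3)
  (PL.C (nat_lit 0x2f01e341) (nat_lit 0x552a86272e8237) (nat_lit 0x0)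
  (PL.C (nat_lit 0x2f2e4f31) (nat_lit 0x0) (nat_lit 0x7fb6dfbfb6728)
  (PL.C (nat_lit 0x2f344d4f) (nat_lit 0x0) (nat_lit 0xb2ee00e6b9a4a)
  (PL.C (nat_lit 0x2f3c0d21) (nat_lit 0x0) (nat_lit 0x145e7a806e62fb)
  (PL.C (nat_lit 0x2f601a9a) (nat_lit 0x7832dc524c2b7) (nat_lit 0x0)
  (PL.C (nat_lit 0x2f64c59b) (nat_lit 0x12fbba9a56f89a) (nat_lit 0x0) gp0_2_81))))))))))))))))))))

noncomputable def gp0_2_79 : PL :=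
  (PL.C (nat_lit 0x2c077e0a) (nat_lit 0x0) (nat_lit 0x42648932a0e279)
  (PL.C (nat_lit 0x2c2eb149) (nat_lit 0x57bea717ef9513) (nat_lit 0x0)
  (PL.C (nat_lit 0x2c357d32) (nat_lit 0x23d058870f8dbe) (nat_lit 0x0)
  (PL.C (nat_lit 0x2c567daa) (nat_lit 0x2007a0ffa3eec4) (nat_lit 0x0)
  (PL.C (nat_lit 0x2c64e6ee) (nat_lit 0xe874333be476) (nat_lit 0x0)
  (PL.C (nat_lit 0x2c6996d3) (nat_lit 0x12d918c273b72d) (nat_lit 0x0)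
  (PL.C (nat_lit 0x2c77c343) (nat_lit 0x7f3ece367217c) (nat_lit 0x0)
  (PL.C (nat_lit 0x2c807bc3) (nat_lit 0x5514a452cd28d) (nat_lit 0x0)
  (PL.C (nat_lit 0x2c86aaf7) (nat_lit 0x0) (nat_lit 0x24b9d1cdd69e25)
  (PL.C (nat_lit 0x2cb035ed) (nat_lit 0x461aac2ec606c) (nat_lit 0x0)
  (PL.C (nat_lit 0x2cb3c26e) (nat_lit 0x0) (nat_lit 0x1034a0e390bd4)
  (PL.C (nat_lit 0x2cfdb07a) (nat_lit 0x0) (nat_lit 0x7cb0480b05f2)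
  (PL.C (nat_lit 0x2d0cc512) (nat_lit 0x6597f8904f271) (nat_lit 0x0)
  (PL.C (nat_lit 0x2d32fbb2) (nat_lit 0x3d92b0771769d) (nat_lit 0x0)
  (PL.C (nat_lit 0x2d476f4f) (nat_lit 0x0) (nat_lit 0xbda12ce8a6630)
  (PL.C (nat_lit 0x2d480f26) (nat_lit 0xfb9c419e2a32) (nat_lit 0x0)
  (PL.C (nat_lit 0x2d6e7835) (nat_lit 0x2b7db56274f152) (nat_lit 0x0)
  (PL.C (nat_lit 0x2d87b92b) (nat_lit 0x0) (nat_lit 0xd700635dbc57c)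
  (PL.C (nat_lit 0x2da59885) (nat_lit 0x0) (nat_lit 0xfa1a9de5fa445)
  (PL.C (nat_lit 0x2de14a62) (nat_lit 0x0) (nat_lit 0x17166ce19fa3ce) gp0_2_80))))))))))))))))))))

noncomputable def gp0_2_78 : PL :=
  (PL.C (nat_lit 0x2a6e2443) (nat_lit 0x0) (nat_lit 0x310fc9732ba01)
  (PL.C (nat_lit 0x2a902256) (nat_lit 0xe8743428abf6) (nat_lit 0x0)
  (PL.C (nat_lit 0x2a92b871) (nat_lit 0x0) (nat_lit 0x537b3bb3e30e7b)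
  (PL.C (nat_lit 0x2aa43551) (nat_lit 0xa16f4b186c690) (nat_lit 0x0)
  (PL.C (nat_lit 0x2aa61336) (nat_lit 0x0) (nat_lit 0x7cb044d03931)
  (PL.C (nat_lit 0x2ab2804d) (nat_lit 0x14bcf2b0b09b85) (nat_lit 0x0)
  (PL.C (nat_lit 0x2ade346f) (nat_lit 0x0) (nat_lit 0x6afe8a10ef7f4)
  (PL.C (nat_lit 0x2ae391f9) (nat_lit 0x1bc2dda8cd35b5) (nat_lit 0x0)
  (PL.C (nat_lit 0x2aedee7a) (nat_lit 0x135ef5525f0ce) (nat_lit 0x0)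
  (PL.C (nat_lit 0x2b002b81) (nat_lit 0x0) (nat_lit 0x4f9b53fcb6bc2d)
  (PL.C (nat_lit 0x2b0784f3) (nat_lit 0x0) (nat_lit 0xb5e744b0502da)
  (PL.C (nat_lit 0x2b088b63) (nat_lit 0x104a5f1c0034b9) (nat_lit 0x0)
  (PL.C (nat_lit 0x2b2f4ece) (nat_lit 0x0) (nat_lit 0x33b4aec2a53662)
  (PL.C (nat_lit 0x2b40929b) (nat_lit 0x0) (nat_lit 0x13dcea9d40c714)
  (PL.C (nat_lit 0x2b41e8d1) (nat_lit 0xde970d1991894) (nat_lit 0x0)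
  (PL.C (nat_lit 0x2b5e3b5d) (nat_lit 0x889ac9f260b34a) (nat_lit 0x0)
  (PL.C (nat_lit 0x2b96b225) (nat_lit 0x5673d3163a187) (nat_lit 0x0)
  (PL.C (nat_lit 0x2bd4e55e) (nat_lit 0xc70a850035c80) (nat_lit 0x0)
  (PL.C (nat_lit 0x2c0338ed) (nat_lit 0x11a60dea0ec6e3) (nat_lit 0x0)
  (PL.C (nat_lit 0x2c03e782) (nat_lit 0x135ef4dad4145) (nat_lit 0x0) gp0_2_79))))))))))))))))))))

noncomputable def gp0_2_77 : PL :=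
  (PL.C (nat_lit 0x290e7c17) (nat_lit 0x3fa0ff8cf5e05d) (nat_lit 0x0)
  (PL.C (nat_lit 0x292eb5bf) (nat_lit 0x0) (nat_lit 0x6eaf6d23d17c0)
  (PL.C (nat_lit 0x29435241) (nat_lit 0x0) (nat_lit 0x40daa1d111548)
  (PL.C (nat_lit 0x2943f06f) (nat_lit 0x0) (nat_lit 0x112e695c5b9ac)
  (PL.C (nat_lit 0x2953a8a1) (nat_lit 0x0) (nat_lit 0xa5320e2c095b4)
  (PL.C (nat_lit 0x29589791) (nat_lit 0x0) (nat_lit 0x2dcb48445318b3)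
  (PL.C (nat_lit 0x29849732) (nat_lit 0x16aae9b7d7e83) (nat_lit 0x0)
  (PL.C (nat_lit 0x298851bb) (nat_lit 0x1372e74a9d84c1) (nat_lit 0x0)
  (PL.C (nat_lit 0x29897709) (nat_lit 0x0) (nat_lit 0xd7006384eab3d)
  (PL.C (nat_lit 0x298b7bbe) (nat_lit 0x0) (nat_lit 0xee9ae4acd1beb)
  (PL.C (nat_lit 0x29963d8f) (nat_lit 0x552a861d95d986) (nat_lit 0x0)
  (PL.C (nat_lit 0x299e40f7) (nat_lit 0x44770ff4641da) (nat_lit 0x0)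
  (PL.C (nat_lit 0x29b3b527) (nat_lit 0x0) (nat_lit 0x826455ebe0609)
  (PL.C (nat_lit 0x29b48426) (nat_lit 0x2f024f6d83f661) (nat_lit 0x0)
  (PL.C (nat_lit 0x29d02822) (nat_lit 0x0) (nat_lit 0x1632cf0000255)
  (PL.C (nat_lit 0x29e015be) (nat_lit 0x312783abf41268) (nat_lit 0x0)
  (PL.C (nat_lit 0x2a116f55) (nat_lit 0x110e0c619c51bc) (nat_lit 0x0)
  (PL.C (nat_lit 0x2a271ee5) (nat_lit 0x0) (nat_lit 0x45f9ab1f2cfff4)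
  (PL.C (nat_lit 0x2a35b397) (nat_lit 0x87f01f4f4d1c38) (nat_lit 0x0)
  (PL.C (nat_lit 0x2a666cfd) (nat_lit 0xae2040baf4c15e) (nat_lit 0x0) gp0_2_78))))))))))))))))))))

noncomputable def gp0_2_76 : PL :=
  (PL.C (nat_lit 0x27c8b12b) (nat_lit 0x0) (nat_lit 0x33741634124593)
  (PL.C (nat_lit 0x27d32b62) (nat_lit 0x2b8c55177c1eca) (nat_lit 0x0)
  (PL.C (nat_lit 0x27d3f9b5) (nat_lit 0x0) (nat_lit 0xce9f067212862)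
  (PL.C (nat_lit 0x27df9365) (nat_lit 0x0) (nat_lit 0x24d9cf01c7ac20)
  (PL.C (nat_lit 0x27fe0282) (nat_lit 0x206aaccc5682a7) (nat_lit 0x0)
  (PL.C (nat_lit 0x28017682) (nat_lit 0x25256ef70cdbd3) (nat_lit 0x0)
  (PL.C (nat_lit 0x2801f347) (nat_lit 0x826a980fb652) (nat_lit 0x0)
  (PL.C (nat_lit 0x281f53ba) (nat_lit 0x0) (nat_lit 0x1f226557728e20)
  (PL.C (nat_lit 0x282bbee3) (nat_lit 0x0) (nat_lit 0x27b8af9b37b15a)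
  (PL.C (nat_lit 0x282fa496) (nat_lit 0x1fc0fafde5787) (nat_lit 0x0)
  (PL.C (nat_lit 0x28309c0b) (nat_lit 0x0) (nat_lit 0x10868e2a24ec24)
  (PL.C (nat_lit 0x28441529) (nat_lit 0x8e52861f36fa9) (nat_lit 0x0)
  (PL.C (nat_lit 0x28599fee) (nat_lit 0x0) (nat_lit 0x5edb6fdbcf8fac)
  (PL.C (nat_lit 0x2877bef6) (nat_lit 0x0) (nat_lit 0x645a00123a9de)
  (PL.C (nat_lit 0x28892d5d) (nat_lit 0x0) (nat_lit 0x44d877f27df0a)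
  (PL.C (nat_lit 0x289aebd9) (nat_lit 0x23e6d05aed9512) (nat_lit 0x0)
  (PL.C (nat_lit 0x28bc64d9) (nat_lit 0x1a00d21266922c) (nat_lit 0x0)
  (PL.C (nat_lit 0x28e362e6) (nat_lit 0x7832dd9468937) (nat_lit 0x0)
  (PL.C (nat_lit 0x28e7be42) (nat_lit 0x634cf6e05f0c57) (nat_lit 0x0)
  (PL.C (nat_lit 0x28f95ce7) (nat_lit 0x149977b2d0cad6) (nat_lit 0x0) gp0_2_77))))))))))))))))))))

noncomputable def gp0_2_75 : PL :=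
  (PL.C (nat_lit 0x2659edc9) (nat_lit 0x0) (nat_lit 0x43e551ee0992ec)
  (PL.C (nat_lit 0x2681fe6d) (nat_lit 0x0) (nat_lit 0x96582d7e27dee)
  (PL.C (nat_lit 0x26830f47) (nat_lit 0x58099ca90a826) (nat_lit 0x0)
  (PL.C (nat_lit 0x268ff7eb) (nat_lit 0x0) (nat_lit 0x2dc86d0b13810a)
  (PL.C (nat_lit 0x2691cfcd) (nat_lit 0xfaff2f9f639d2) (nat_lit 0x0)
  (PL.C (nat_lit 0x26ab4ae3) (nat_lit 0x788e68cdf2026) (nat_lit 0x0)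
  (PL.C (nat_lit 0x26c6ff02) (nat_lit 0x25b0722bb8c3f8) (nat_lit 0x0)
  (PL.C (nat_lit 0x26d61d97) (nat_lit 0xfcb1b7723a620) (nat_lit 0x0)
  (PL.C (nat_lit 0x26dcc0d5) (nat_lit 0xbdeb36aabef67) (nat_lit 0x0)
  (PL.C (nat_lit 0x26ec9117) (nat_lit 0x8f1cd0e9ad6f54) (nat_lit 0x0)
  (PL.C (nat_lit 0x26f3c216) (nat_lit 0x2b8c55043418a5) (nat_lit 0x0)
  (PL.C (nat_lit 0x27023409) (nat_lit 0x0) (nat_lit 0x101de936b9eb5)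
  (PL.C (nat_lit 0x2714357e) (nat_lit 0x1f36a64d76e569) (nat_lit 0x0)
  (PL.C (nat_lit 0x27164fd9) (nat_lit 0x0) (nat_lit 0x24d9cf1481bec0)
  (PL.C (nat_lit 0x271c736e) (nat_lit 0xcb2423ab42e3e) (nat_lit 0x0)
  (PL.C (nat_lit 0x27582aef) (nat_lit 0x0) (nat_lit 0x101de8aa4f9c5)
  (PL.C (nat_lit 0x276012bb) (nat_lit 0x0) (nat_lit 0x596e1a0201c44f)
  (PL.C (nat_lit 0x276a5412) (nat_lit 0x1f36a6416bd692) (nat_lit 0x0)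
  (PL.C (nat_lit 0x277a1615) (nat_lit 0x1e6252f08b669b) (nat_lit 0x0)
  (PL.C (nat_lit 0x27ae7a05) (nat_lit 0x0) (nat_lit 0x16ce18f8a84fc9) gp0_2_76))))))))))))))))))))

noncomputable def gp0_2_74 : PL :=
  (PL.C (nat_lit 0x254458d7) (nat_lit 0x6628107690bfc) (nat_lit 0x0)
  (PL.C (nat_lit 0x25478002) (nat_lit 0x0) (nat_lit 0x3a3886d91a1797)
  (PL.C (nat_lit 0x2551b97a) (nat_lit 0x25b07225491807) (nat_lit 0x0)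
  (PL.C (nat_lit 0x2569694c) (nat_lit 0x9f86d26ad8d8) (nat_lit 0x0)
  (PL.C (nat_lit 0x2591080f) (nat_lit 0xdf3b55958d160) (nat_lit 0x0)
  (PL.C (nat_lit 0x25967931) (nat_lit 0x14ff83d31575b5) (nat_lit 0x0)
  (PL.C (nat_lit 0x259d9f93) (nat_lit 0x27f4905b545339) (nat_lit 0x0)
  (PL.C (nat_lit 0x25a9d981) (nat_lit 0x0) (nat_lit 0x6c35f91e8e4eb)
  (PL.C (nat_lit 0x25b9020e) (nat_lit 0x0) (nat_lit 0x424b455273369)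
  (PL.C (nat_lit 0x25bbdb54) (nat_lit 0x0) (nat_lit 0x98002a1f76c11)
  (PL.C (nat_lit 0x25c5f71d) (nat_lit 0x0) (nat_lit 0x38c4f6f19a5ec)
  (PL.C (nat_lit 0x25e94e87) (nat_lit 0x662810b6b8176) (nat_lit 0x0)
  (PL.C (nat_lit 0x25eb2622) (nat_lit 0x0) (nat_lit 0x2cfd1db154a3e)
  (PL.C (nat_lit 0x260f030c) (nat_lit 0x9f86d678f96a) (nat_lit 0x0)
  (PL.C (nat_lit 0x2617d5fb) (nat_lit 0x0) (nat_lit 0x6c35f936e095d)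
  (PL.C (nat_lit 0x2629d3fe) (nat_lit 0x0) (nat_lit 0x16c326e9d02db2)
  (PL.C (nat_lit 0x262ddb7b) (nat_lit 0x0) (nat_lit 0x578a4958c2609c)
  (PL.C (nat_lit 0x26348092) (nat_lit 0xe651c82660c8) (nat_lit 0x0)
  (PL.C (nat_lit 0x263c5467) (nat_lit 0x0) (nat_lit 0x27d41514c9e93)
  (PL.C (nat_lit 0x2656cdb5) (nat_lit 0x1dc423866f1cde) (nat_lit 0x0) gp0_2_75))))))))))))))))))))

noncomputable def gp0_2_73 : PL :=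
  (PL.C (nat_lit 0x23db580f) (nat_lit 0x0) (nat_lit 0x2104daa251ec2)
  (PL.C (nat_lit 0x23f037f5) (nat_lit 0x0) (nat_lit 0x578a494e6b0bd7)
  (PL.C (nat_lit 0x24008e8e) (nat_lit 0x0) (nat_lit 0x55faed5d1610f)
  (PL.C (nat_lit 0x240c9fd6) (nat_lit 0xaa1b2c73c5e1) (nat_lit 0x0)
  (PL.C (nat_lit 0x2429ef6d) (nat_lit 0x5791298a94273d) (nat_lit 0x0)
  (PL.C (nat_lit 0x242c5ffa) (nat_lit 0x0) (nat_lit 0x1ca10e66b1b2f5)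
  (PL.C (nat_lit 0x2453ae2f) (nat_lit 0x0) (nat_lit 0xae6ac777283c54)
  (PL.C (nat_lit 0x245944be) (nat_lit 0x0) (nat_lit 0xa52bef1f3c9ae)
  (PL.C (nat_lit 0x2479a16b) (nat_lit 0x0) (nat_lit 0x707e4091c2b41a)
  (PL.C (nat_lit 0x24889d0b) (nat_lit 0xa5ddfe5ef59be) (nat_lit 0x0)
  (PL.C (nat_lit 0x2496da26) (nat_lit 0x0) (nat_lit 0x1f616bd5f0851a)
  (PL.C (nat_lit 0x249c0391) (nat_lit 0x0) (nat_lit 0x7df3587b3712b0)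
  (PL.C (nat_lit 0x24c116a2) (nat_lit 0x99dd7c2a080b9) (nat_lit 0x0)
  (PL.C (nat_lit 0x24ca7c7f) (nat_lit 0x0) (nat_lit 0x498ebe37c7b5e)
  (PL.C (nat_lit 0x24de93f1) (nat_lit 0x5f43c3dbfd9396) (nat_lit 0x0)
  (PL.C (nat_lit 0x24e77c2a) (nat_lit 0x0) (nat_lit 0x3e5309c4d7844)
  (PL.C (nat_lit 0x24f6a4ea) (nat_lit 0x0) (nat_lit 0x334b9949f4901)
  (PL.C (nat_lit 0x24fefc7a) (nat_lit 0x0) (nat_lit 0x6fffc0480e1a3)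
  (PL.C (nat_lit 0x25002f56) (nat_lit 0xcb2423631e3b1) (nat_lit 0x0)
  (PL.C (nat_lit 0x250a45de) (nat_lit 0x379eeb18e33fe) (nat_lit 0x0) gp0_2_74))))))))))))))))))))

noncomputable def gp0_2_72 : PL :=
  (PL.C (nat_lit 0x231b160b) (nat_lit 0x45e89154482f8) (nat_lit 0x0)
  (PL.C (nat_lit 0x2333f603) (nat_lit 0x0) (nat_lit 0x19460ea2eb0e57)
  (PL.C (nat_lit 0x23392bef) (nat_lit 0x0) (nat_lit 0x36833035c2882f)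
  (PL.C (nat_lit 0x233b8c3e) (nat_lit 0x0) (nat_lit 0x426489305febf3)
  (PL.C (nat_lit 0x233fc2b7) (nat_lit 0x0) (nat_lit 0x71ab618f5bb9b)
  (PL.C (nat_lit 0x23529c87) (nat_lit 0xd1f9f9425b67) (nat_lit 0x0)
  (PL.C (nat_lit 0x2361d4c5) (nat_lit 0x0) (nat_lit 0x2438a455349d772)
  (PL.C (nat_lit 0x23670807) (nat_lit 0x3797aadb3ce189) (nat_lit 0x0)
  (PL.C (nat_lit 0x2386cb59) (nat_lit 0x0) (nat_lit 0x86585fab8256b9)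
  (PL.C (nat_lit 0x238cffe9) (nat_lit 0x3fd385904f50d) (nat_lit 0x0)
  (PL.C (nat_lit 0x238fe5cd) (nat_lit 0x0) (nat_lit 0x598c662417b20e)
  (PL.C (nat_lit 0x23956339) (nat_lit 0xcb8ed4af318ef) (nat_lit 0x0)
  (PL.C (nat_lit 0x239d850f) (nat_lit 0x3f10487e05fb77) (nat_lit 0x0)
  (PL.C (nat_lit 0x23a07401) (nat_lit 0x6302e1148c403) (nat_lit 0x0)
  (PL.C (nat_lit 0x23a15095) (nat_lit 0x0) (nat_lit 0x24b9d1cf78fa9d)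
  (PL.C (nat_lit 0x23a1b233) (nat_lit 0x0) (nat_lit 0x96582e6e746f3)
  (PL.C (nat_lit 0x23b50c81) (nat_lit 0x2349939a15c6f4) (nat_lit 0x0)
  (PL.C (nat_lit 0x23b60983) (nat_lit 0x0) (nat_lit 0x3e7bf8d6c3139)
  (PL.C (nat_lit 0x23bb4102) (nat_lit 0x2f531504157221) (nat_lit 0x0)
  (PL.C (nat_lit 0x23c3b761) (nat_lit 0x26c85e4711ce5) (nat_lit 0x0) gp0_2_73))))))))))))))))))))

noncomputable def gp0_2_71 : PL :=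
  (PL.C (nat_lit 0x2199ead1) (nat_lit 0x0) (nat_lit 0x3193626a3d24ca)
  (PL.C (nat_lit 0x21af570b) (nat_lit 0x165b7deca03ad7) (nat_lit 0x0)
  (PL.C (nat_lit 0x21bc3e39) (nat_lit 0x57bea723cd0caa) (nat_lit 0x0)
  (PL.C (nat_lit 0x21c5640a) (nat_lit 0x0) (nat_lit 0x386cdf7646d36d)
  (PL.C (nat_lit 0x21d287b7) (nat_lit 0x0) (nat_lit 0xe22a53c73c91)
  (PL.C (nat_lit 0x21f269b5) (nat_lit 0x0) (nat_lit 0x2cc44197124995)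
  (PL.C (nat_lit 0x220fd026) (nat_lit 0x0) (nat_lit 0x2048a95be5b08)
  (PL.C (nat_lit 0x2221d88e) (nat_lit 0x1229edac1519de) (nat_lit 0x0)
  (PL.C (nat_lit 0x2222dabe) (nat_lit 0x211991a55d041c) (nat_lit 0x0)
  (PL.C (nat_lit 0x22438eb6) (nat_lit 0x0) (nat_lit 0x17166ced282998)
  (PL.C (nat_lit 0x226e14d2) (nat_lit 0x0) (nat_lit 0x3026ac35d4a10f)
  (PL.C (nat_lit 0x226eb749) (nat_lit 0x1431e535ecb8e3) (nat_lit 0x0)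
  (PL.C (nat_lit 0x22886841) (nat_lit 0x4b84a424a2bad) (nat_lit 0x0)
  (PL.C (nat_lit 0x22a87cb3) (nat_lit 0x0) (nat_lit 0x2aeceafbdeb720)
  (PL.C (nat_lit 0x22b06865) (nat_lit 0xae20409d4035f4) (nat_lit 0x0)
  (PL.C (nat_lit 0x22b41aa7) (nat_lit 0x0) (nat_lit 0x7df35828d98770)
  (PL.C (nat_lit 0x22d59c6b) (nat_lit 0x0) (nat_lit 0x258fab2f0f57e5)
  (PL.C (nat_lit 0x22e1497f) (nat_lit 0x0) (nat_lit 0x398fead3053af4)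
  (PL.C (nat_lit 0x22e70b95) (nat_lit 0x0) (nat_lit 0x10e0f43c5c2996)
  (PL.C (nat_lit 0x22f2be81) (nat_lit 0x1c7eeba1a4e577) (nat_lit 0x0) gp0_2_72))))))))))))))))))))

noncomputable def gp0_2_70 : PL :=
  (PL.C (nat_lit 0x2081aee1) (nat_lit 0x87f01f4491cda6) (nat_lit 0x0)
  (PL.C (nat_lit 0x208d7ad7) (nat_lit 0x0) (nat_lit 0x398feac6ae1348)
  (PL.C (nat_lit 0x20906ac2) (nat_lit 0x0) (nat_lit 0x2871619e138768)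
  (PL.C (nat_lit 0x2097288f) (nat_lit 0x14b31f55cdef) (nat_lit 0x0)
  (PL.C (nat_lit 0x2099f2fd) (nat_lit 0x13d702289b4031) (nat_lit 0x0)
  (PL.C (nat_lit 0x20a48baf) (nat_lit 0x0) (nat_lit 0xa6e2d126dafc7)
  (PL.C (nat_lit 0x20af7cb3) (nat_lit 0x0) (nat_lit 0x3d177ee3fd18c)
  (PL.C (nat_lit 0x20bbee8a) (nat_lit 0x23d0588cf48cd8) (nat_lit 0x0)
  (PL.C (nat_lit 0x20dba5b3) (nat_lit 0x0) (nat_lit 0xae6ac73de49f0a)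
  (PL.C (nat_lit 0x20de876f) (nat_lit 0x0) (nat_lit 0x193ebae0ed2b1a)
  (PL.C (nat_lit 0x20fee2fd) (nat_lit 0x0) (nat_lit 0x145e7a8c8949eb)
  (PL.C (nat_lit 0x210411a6) (nat_lit 0xc70a85cb6f944) (nat_lit 0x0)
  (PL.C (nat_lit 0x21066d6b) (nat_lit 0x0) (nat_lit 0x14801943a2560f)
  (PL.C (nat_lit 0x2109f249) (nat_lit 0x0) (nat_lit 0x2406863f935fe8)
  (PL.C (nat_lit 0x2114e3a5) (nat_lit 0x0) (nat_lit 0x9642608e1083)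
  (PL.C (nat_lit 0x213e9b9a) (nat_lit 0x0) (nat_lit 0x62571d29ec377)
  (PL.C (nat_lit 0x214b92ab) (nat_lit 0x0) (nat_lit 0x4045de97ff438)
  (PL.C (nat_lit 0x215f7152) (nat_lit 0x0) (nat_lit 0x424b4720e700c)
  (PL.C (nat_lit 0x2162bb1f) (nat_lit 0x0) (nat_lit 0x18ba20c380e955)
  (PL.C (nat_lit 0x2188a181) (nat_lit 0xbf9c6d519f22e) (nat_lit 0x0) gp0_2_71))))))))))))))))))))

noncomputable def gp0_2_69 : PL :=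
  (PL.C (nat_lit 0x1fbd5d0a) (nat_lit 0x0) (nat_lit 0x2048a9a30d310)
  (PL.C (nat_lit 0x1fc0e71f) (nat_lit 0x0) (nat_lit 0x86d94589f4476)
  (PL.C (nat_lit 0x1fcb3945) (nat_lit 0x28df4ac01e52e) (nat_lit 0x0)
  (PL.C (nat_lit 0x1fd5e171) (nat_lit 0x0) (nat_lit 0x16a371dba2653b)
  (PL.C (nat_lit 0x1fe2006e) (nat_lit 0x0) (nat_lit 0xa52bee62ae455)
  (PL.C (nat_lit 0x1fe8313f) (nat_lit 0x2614de7eab817) (nat_lit 0x0)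
  (PL.C (nat_lit 0x2000e471) (nat_lit 0x1a3b5f65d5f661a) (nat_lit 0x0)
  (PL.C (nat_lit 0x20034f26) (nat_lit 0x0) (nat_lit 0x386cdf6e8e8d54)
  (PL.C (nat_lit 0x2023371f) (nat_lit 0xfcb1b6eea2637) (nat_lit 0x0)
  (PL.C (nat_lit 0x202a8f59) (nat_lit 0x24a61ad1365d6e) (nat_lit 0x0)
  (PL.C (nat_lit 0x203aa8a7) (nat_lit 0x0) (nat_lit 0x537b3baed25a91)
  (PL.C (nat_lit 0x204d0eb7) (nat_lit 0x4b84a4154c9b1) (nat_lit 0x0)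
  (PL.C (nat_lit 0x204d2969) (nat_lit 0x0) (nat_lit 0x14801943f99072)
  (PL.C (nat_lit 0x204ff369) (nat_lit 0x0) (nat_lit 0x46774f5856f0b1)
  (PL.C (nat_lit 0x205aef1e) (nat_lit 0x22a179eadabf2c) (nat_lit 0x0)
  (PL.C (nat_lit 0x205d3949) (nat_lit 0x18e3e559cf49c) (nat_lit 0x0)
  (PL.C (nat_lit 0x205fdcad) (nat_lit 0x2b7db5516a29d1) (nat_lit 0x0)
  (PL.C (nat_lit 0x20681265) (nat_lit 0x0) (nat_lit 0x3d1780809927e)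
  (PL.C (nat_lit 0x20754003) (nat_lit 0x2d817c660cbc7f) (nat_lit 0x0)
  (PL.C (nat_lit 0x2078c6f5) (nat_lit 0x464140dd75338) (nat_lit 0x0) gp0_2_70))))))))))))))))))))

noncomputable def gp0_2_68 : PL :=
  (PL.C (nat_lit 0x1e9d5f7e) (nat_lit 0x0) (nat_lit 0x139b166e6a7aff)
  (PL.C (nat_lit 0x1ea063b9) (nat_lit 0x467a87195eedf) (nat_lit 0x0)
  (PL.C (nat_lit 0x1eaa612b) (nat_lit 0x8f1cd0e95161aa) (nat_lit 0x0)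
  (PL.C (nat_lit 0x1ebeb419) (nat_lit 0x0) (nat_lit 0x193ebaefbb08fb)
  (PL.C (nat_lit 0x1eca6a57) (nat_lit 0x579129604c29c7) (nat_lit 0x0)
  (PL.C (nat_lit 0x1ed14e85) (nat_lit 0x0) (nat_lit 0x726c39061e204)
  (PL.C (nat_lit 0x1ed303d7) (nat_lit 0x0) (nat_lit 0xb56c17c5a939a)
  (PL.C (nat_lit 0x1ee3153e) (nat_lit 0xd52769fb57cc5) (nat_lit 0x0)
  (PL.C (nat_lit 0x1f06bcaa) (nat_lit 0xf3b9f2e8664b7) (nat_lit 0x0)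
  (PL.C (nat_lit 0x1f19148f) (nat_lit 0xbdeb35c3db55c) (nat_lit 0x0)
  (PL.C (nat_lit 0x1f1fa175) (nat_lit 0x0) (nat_lit 0xdab11f37c270c7)
  (PL.C (nat_lit 0x1f272652) (nat_lit 0x7180c9f68b9de) (nat_lit 0x0)
  (PL.C (nat_lit 0x1f3a05f6) (nat_lit 0x1229edbae847cd) (nat_lit 0x0)
  (PL.C (nat_lit 0x1f3c3afd) (nat_lit 0x0) (nat_lit 0x3e7bf8bd89402)
  (PL.C (nat_lit 0x1f4574da) (nat_lit 0x0) (nat_lit 0xb378201ec6d51)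
  (PL.C (nat_lit 0x1f4bdd03) (nat_lit 0x0) (nat_lit 0xbc3251a0b7f5a)
  (PL.C (nat_lit 0x1f78338a) (nat_lit 0xaa1b36020e27) (nat_lit 0x0)
  (PL.C (nat_lit 0x1f7d5e16) (nat_lit 0x138507dcc2890b) (nat_lit 0x0)
  (PL.C (nat_lit 0x1f905297) (nat_lit 0x0) (nat_lit 0x3b7504dc1909a4)
  (PL.C (nat_lit 0x1fb4c1fd) (nat_lit 0x232b8b618c3afe) (nat_lit 0x0) gp0_2_69))))))))))))))))))))

noncomputable def gp0_2_67 : PL :=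
  (PL.C (nat_lit 0x1d9bb9e2) (nat_lit 0x2ec0881e5eb2ab) (nat_lit 0x0)
  (PL.C (nat_lit 0x1dbbe5eb) (nat_lit 0x1b4eb044a58bdff) (nat_lit 0x0)
  (PL.C (nat_lit 0x1dc175d3) (nat_lit 0x0) (nat_lit 0xc9b728d74d873)
  (PL.C (nat_lit 0x1dcace9e) (nat_lit 0x0) (nat_lit 0x7ea88c6f1a62e)
  (PL.C (nat_lit 0x1dde3899) (nat_lit 0x1a3b5f65604f7f8) (nat_lit 0x0)
  (PL.C (nat_lit 0x1de29c63) (nat_lit 0x0) (nat_lit 0x651e3fc6398c9)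
  (PL.C (nat_lit 0x1deac247) (nat_lit 0x0) (nat_lit 0x3c0ffe528116)
  (PL.C (nat_lit 0x1dfd6c7d) (nat_lit 0x1b4eb03eca71c77) (nat_lit 0x0)
  (PL.C (nat_lit 0x1e109b8b) (nat_lit 0x0) (nat_lit 0x482dffc2c13e)
  (PL.C (nat_lit 0x1e13cfa9) (nat_lit 0x0) (nat_lit 0x232708aa276c4c)
  (PL.C (nat_lit 0x1e1c3629) (nat_lit 0x5bad0cb84f81f) (nat_lit 0x0)
  (PL.C (nat_lit 0x1e247845) (nat_lit 0x9ea2093118b261) (nat_lit 0x0)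
  (PL.C (nat_lit 0x1e2f9f8a) (nat_lit 0x2f024f59499ded) (nat_lit 0x0)
  (PL.C (nat_lit 0x1e506c47) (nat_lit 0x0) (nat_lit 0x13e7e37038d4b31)
  (PL.C (nat_lit 0x1e5a7b72) (nat_lit 0x0) (nat_lit 0x1d4cdd5dfe3ae8)
  (PL.C (nat_lit 0x1e6e65ae) (nat_lit 0x0) (nat_lit 0x3a3886ec45bff4)
  (PL.C (nat_lit 0x1e77e41f) (nat_lit 0x0) (nat_lit 0x6a819d320b4a81)
  (PL.C (nat_lit 0x1e8723e1) (nat_lit 0x0) (nat_lit 0x707e40b6f65798)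
  (PL.C (nat_lit 0x1e8c3557) (nat_lit 0x0) (nat_lit 0x1010a6b79faec9)
  (PL.C (nat_lit 0x1e989151) (nat_lit 0x0) (nat_lit 0x2637e383beabf) gp0_2_68))))))))))))))))))))

noncomputable def gp0_2_66 : PL :=
  (PL.C (nat_lit 0x1c5d5bd5) (nat_lit 0x829c29828a9bf2) (nat_lit 0x0)
  (PL.C (nat_lit 0x1c6016e4) (nat_lit 0x277037c3b45f4) (nat_lit 0x0)
  (PL.C (nat_lit 0x1c97b6a6) (nat_lit 0x2f531502781f6e) (nat_lit 0x0)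
  (PL.C (nat_lit 0x1c9e9efc) (nat_lit 0xf92f1d9d4aec) (nat_lit 0x0)
  (PL.C (nat_lit 0x1cadaec9) (nat_lit 0x232b8b70423b78) (nat_lit 0x0)
  (PL.C (nat_lit 0x1cd5b712) (nat_lit 0x0) (nat_lit 0xfe6ffaf03f919)
  (PL.C (nat_lit 0x1cd69b36) (nat_lit 0x1fc0fb87daa9c) (nat_lit 0x0)
  (PL.C (nat_lit 0x1cdc2aa9) (nat_lit 0x2c99f586664106) (nat_lit 0x0)
  (PL.C (nat_lit 0x1d052eaf) (nat_lit 0x0) (nat_lit 0x2104dac86ef12)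
  (PL.C (nat_lit 0x1d0f216e) (nat_lit 0x0) (nat_lit 0x1f428ac69b665f)
  (PL.C (nat_lit 0x1d14245f) (nat_lit 0x0) (nat_lit 0xfbfeef8d62191)
  (PL.C (nat_lit 0x1d452299) (nat_lit 0x3fd385ba1c3ec) (nat_lit 0x0)
  (PL.C (nat_lit 0x1d4872b9) (nat_lit 0x0) (nat_lit 0xb0bb7e4f9df61)
  (PL.C (nat_lit 0x1d4b9183) (nat_lit 0x889ac9c6996e15) (nat_lit 0x0)
  (PL.C (nat_lit 0x1d57efac) (nat_lit 0xf92f1ab4a767) (nat_lit 0x0)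
  (PL.C (nat_lit 0x1d5bcb37) (nat_lit 0x0) (nat_lit 0x284e632e6b6411)
  (PL.C (nat_lit 0x1d71b5bb) (nat_lit 0x0) (nat_lit 0x2dc86d08f9c94f)
  (PL.C (nat_lit 0x1d807245) (nat_lit 0x0) (nat_lit 0x7412ba96cc290)
  (PL.C (nat_lit 0x1d96245b) (nat_lit 0x0) (nat_lit 0x2637e3e6e5b54)
  (PL.C (nat_lit 0x1d9899f4) (nat_lit 0x277037f025f81) (nat_lit 0x0) gp0_2_67))))))))))))))))))))

noncomputable def gp0_2_65 : PL :=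
  (PL.C (nat_lit 0x1b50e89a) (nat_lit 0x0) (nat_lit 0x3026ac29c938a1)
  (PL.C (nat_lit 0x1b6dc787) (nat_lit 0x0) (nat_lit 0x44a8a6b3349a62)
  (PL.C (nat_lit 0x1b70cc25) (nat_lit 0x3e09bb37b35563) (nat_lit 0x0)
  (PL.C (nat_lit 0x1b74792a) (nat_lit 0x0) (nat_lit 0x139b1684c493ed)
  (PL.C (nat_lit 0x1b8236d6) (nat_lit 0x0) (nat_lit 0xb88b93a02400)
  (PL.C (nat_lit 0x1b82a04a) (nat_lit 0xf3b9f10fc93ea) (nat_lit 0x0)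
  (PL.C (nat_lit 0x1b82ed0b) (nat_lit 0x0) (nat_lit 0x25967e261b9896)
  (PL.C (nat_lit 0x1b8d1b16) (nat_lit 0x211991b0fe044d) (nat_lit 0x0)
  (PL.C (nat_lit 0x1b924e37) (nat_lit 0x0) (nat_lit 0xc621ded734da16)
  (PL.C (nat_lit 0x1bb0fa06) (nat_lit 0x0) (nat_lit 0x1d4cdd43496467)
  (PL.C (nat_lit 0x1bb221dd) (nat_lit 0x0) (nat_lit 0x3a35abb7ece82b)
  (PL.C (nat_lit 0x1bbcbdbf) (nat_lit 0x104a5f1690a9c2) (nat_lit 0x0)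
  (PL.C (nat_lit 0x1bbed5fa) (nat_lit 0x19787e6ab645a) (nat_lit 0x0)
  (PL.C (nat_lit 0x1bc493e1) (nat_lit 0x0) (nat_lit 0x1166b60aac6ef6)
  (PL.C (nat_lit 0x1bcf10d1) (nat_lit 0x39ee464217874e) (nat_lit 0x0)
  (PL.C (nat_lit 0x1be3d32d) (nat_lit 0x0) (nat_lit 0x2406863b451fa8)
  (PL.C (nat_lit 0x1bfbde5f) (nat_lit 0x0) (nat_lit 0x133318de74b3c2)
  (PL.C (nat_lit 0x1c0b9f8e) (nat_lit 0x312783b6be17ba) (nat_lit 0x0)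
  (PL.C (nat_lit 0x1c2ec5db) (nat_lit 0x0) (nat_lit 0x10db80d377b422)
  (PL.C (nat_lit 0x1c496d82) (nat_lit 0x16aae82842ad5) (nat_lit 0x0) gp0_2_66))))))))))))))))))))

noncomputable def gp0_2_64 : PL :=
  (PL.C (nat_lit 0x1a3ac74a) (nat_lit 0x0) (nat_lit 0x3624d6c141d2df)
  (PL.C (nat_lit 0x1a45ec09) (nat_lit 0x5f43c3b73ac32b) (nat_lit 0x0)
  (PL.C (nat_lit 0x1a4d4289) (nat_lit 0xd820ef5a53fb5) (nat_lit 0x0)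
  (PL.C (nat_lit 0x1a51640e) (nat_lit 0x17ecd7f68a7676) (nat_lit 0x0)
  (PL.C (nat_lit 0x1a70680d) (nat_lit 0x9ea209451488fd) (nat_lit 0x0)
  (PL.C (nat_lit 0x1a7e091d) (nat_lit 0x0) (nat_lit 0x2b1a53afe2fcc4)
  (PL.C (nat_lit 0x1a85cb72) (nat_lit 0x0) (nat_lit 0x18974c5042b243)
  (PL.C (nat_lit 0x1a8eed0f) (nat_lit 0x24a61ac545338a) (nat_lit 0x0)
  (PL.C (nat_lit 0x1a950cee) (nat_lit 0x0) (nat_lit 0x6cc8e7724825f)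
  (PL.C (nat_lit 0x1aa50d33) (nat_lit 0x0) (nat_lit 0x16a371d7402a2f)
  (PL.C (nat_lit 0x1aaaabcb) (nat_lit 0x0) (nat_lit 0x651e4024f95b6)
  (PL.C (nat_lit 0x1acb12b2) (nat_lit 0x0) (nat_lit 0x5edb6fc655c389)
  (PL.C (nat_lit 0x1adfc4f5) (nat_lit 0x0) (nat_lit 0x3b7504c79e5847)
  (PL.C (nat_lit 0x1af47911) (nat_lit 0x0) (nat_lit 0x3d6c01350529f3)
  (PL.C (nat_lit 0x1b0413f5) (nat_lit 0x0) (nat_lit 0x2438a45374ed252)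
  (PL.C (nat_lit 0x1b061e3e) (nat_lit 0x25256ef761ea49) (nat_lit 0x0)
  (PL.C (nat_lit 0x1b2a252f) (nat_lit 0x0) (nat_lit 0x95db24ccecb57)
  (PL.C (nat_lit 0x1b2dd39d) (nat_lit 0x0) (nat_lit 0x21cb22ff78166)
  (PL.C (nat_lit 0x1b34d783) (nat_lit 0x0) (nat_lit 0xec10d609af01d)
  (PL.C (nat_lit 0x1b46d0cd) (nat_lit 0x3c3b4a16207772) (nat_lit 0x0) gp0_2_65))))))))))))))))))))

noncomputable def gp0_2_63 : PL :=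
  (PL.C (nat_lit 0x19412fa3) (nat_lit 0x0) (nat_lit 0x39c6ac12938fb)
  (PL.C (nat_lit 0x1946345a) (nat_lit 0x710c582fa6fff) (nat_lit 0x0)
  (PL.C (nat_lit 0x1950f131) (nat_lit 0x0) (nat_lit 0x36832fb26f0b0d)
  (PL.C (nat_lit 0x19653952) (nat_lit 0x31d14db9f1ae) (nat_lit 0x0)
  (PL.C (nat_lit 0x196aee8d) (nat_lit 0x24cd251314745a) (nat_lit 0x0)
  (PL.C (nat_lit 0x196f1ac3) (nat_lit 0x1130ff70309c24) (nat_lit 0x0)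
  (PL.C (nat_lit 0x197d8d9a) (nat_lit 0x0) (nat_lit 0x1632ce5187ca8)
  (PL.C (nat_lit 0x198f33ce) (nat_lit 0x7180cb1be0a78) (nat_lit 0x0)
  (PL.C (nat_lit 0x199701a3) (nat_lit 0x0) (nat_lit 0x13e7e3760ebfb31)
  (PL.C (nat_lit 0x19acb4da) (nat_lit 0x0) (nat_lit 0x62571cfe08d30)
  (PL.C (nat_lit 0x19b54ff2) (nat_lit 0x0) (nat_lit 0xa4b8ff373dba5d)
  (PL.C (nat_lit 0x19b77d8d) (nat_lit 0x0) (nat_lit 0x9f969fbcb086e)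
  (PL.C (nat_lit 0x19b852db) (nat_lit 0x0) (nat_lit 0x3d6c0131a8298c)
  (PL.C (nat_lit 0x19c78742) (nat_lit 0xd5276a5beace7) (nat_lit 0x0)
  (PL.C (nat_lit 0x19e413ba) (nat_lit 0x8c78239299c3b) (nat_lit 0x0)
  (PL.C (nat_lit 0x19e8808e) (nat_lit 0x4dd4171a4117a9) (nat_lit 0x0)
  (PL.C (nat_lit 0x1a017806) (nat_lit 0x0) (nat_lit 0x3624d6bde768a9)
  (PL.C (nat_lit 0x1a0c8635) (nat_lit 0x5673d278a2a42) (nat_lit 0x0)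
  (PL.C (nat_lit 0x1a0edfe6) (nat_lit 0x0) (nat_lit 0x6cc8e6cabce08)
  (PL.C (nat_lit 0x1a220fe7) (nat_lit 0x0) (nat_lit 0x206a4895dfd32c) gp0_2_64))))))))))))))))))))

noncomputable def gp0_2_62 : PL :=
  (PL.C (nat_lit 0x17f1b7e9) (nat_lit 0x0) (nat_lit 0x44a8a6cd6ba008)
  (PL.C (nat_lit 0x1805b113) (nat_lit 0x0) (nat_lit 0x598c662bdd63ae)
  (PL.C (nat_lit 0x188428a1) (nat_lit 0x0) (nat_lit 0x313bdb2a5913b)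
  (PL.C (nat_lit 0x1886fdaa) (nat_lit 0x379eec66ba310) (nat_lit 0x0)
  (PL.C (nat_lit 0x18943e6f) (nat_lit 0x24cd24fbc2c635) (nat_lit 0x0)
  (PL.C (nat_lit 0x18a0756b) (nat_lit 0x0) (nat_lit 0x4dcf6b18a1697)
  (PL.C (nat_lit 0x18a9e459) (nat_lit 0x0) (nat_lit 0x13dcea972c2c06)
  (PL.C (nat_lit 0x18b4f99f) (nat_lit 0xba37259b03a9a) (nat_lit 0x0)
  (PL.C (nat_lit 0x18ba2f97) (nat_lit 0x426f2bde8baa8) (nat_lit 0x0)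
  (PL.C (nat_lit 0x18d83b3a) (nat_lit 0x710c57b76d83a) (nat_lit 0x0)
  (PL.C (nat_lit 0x18eb6c29) (nat_lit 0x227ad0e726007e) (nat_lit 0x0)
  (PL.C (nat_lit 0x18ff59a7) (nat_lit 0xb9ccfdf0eaa64) (nat_lit 0x0)
  (PL.C (nat_lit 0x190d1729) (nat_lit 0x0) (nat_lit 0x1c7d650cf571f9)
  (PL.C (nat_lit 0x190efb76) (nat_lit 0x3b71d6c94ab6c7) (nat_lit 0x0)
  (PL.C (nat_lit 0x1918e2ff) (nat_lit 0x8e5284d1d4604) (nat_lit 0x0)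
  (PL.C (nat_lit 0x1919a0d7) (nat_lit 0x0) (nat_lit 0x86585f792224d1)
  (PL.C (nat_lit 0x191be656) (nat_lit 0x31d14f05a728) (nat_lit 0x0)
  (PL.C (nat_lit 0x19297791) (nat_lit 0x0) (nat_lit 0x7f0b6c4a7d2ab)
  (PL.C (nat_lit 0x192ea4be) (nat_lit 0xf575b9c9b7755) (nat_lit 0x0)
  (PL.C (nat_lit 0x19397d99) (nat_lit 0x0) (nat_lit 0x132b80215644f3) gp0_2_63))))))))))))))))))))

noncomputable def gp0_2_61 : PL :=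
  (PL.C (nat_lit 0x172779e3) (nat_lit 0x829c295153566f) (nat_lit 0x0)
  (PL.C (nat_lit 0x172bfc49) (nat_lit 0x2b8ed278594b2e) (nat_lit 0x0)
  (PL.C (nat_lit 0x173912f2) (nat_lit 0x0) (nat_lit 0x190ffd3d139ae2)
  (PL.C (nat_lit 0x1740dbaa) (nat_lit 0x0) (nat_lit 0x11ba6f8a73a432)
  (PL.C (nat_lit 0x17464f53) (nat_lit 0x2c7d2179d71c51) (nat_lit 0x0)
  (PL.C (nat_lit 0x175a1ff7) (nat_lit 0x160cd6965f13f5) (nat_lit 0x0)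
  (PL.C (nat_lit 0x1763dadd) (nat_lit 0x6302e149d1014) (nat_lit 0x0)
  (PL.C (nat_lit 0x177999d5) (nat_lit 0x0) (nat_lit 0x3904d873551b58)
  (PL.C (nat_lit 0x178c685a) (nat_lit 0x0) (nat_lit 0x83dfc9315c53e)
  (PL.C (nat_lit 0x1797667b) (nat_lit 0xd1f9f575522b) (nat_lit 0x0)
  (PL.C (nat_lit 0x179a055a) (nat_lit 0x62f851f0240952) (nat_lit 0x0)
  (PL.C (nat_lit 0x17b35546) (nat_lit 0x12ea5825c19fe3) (nat_lit 0x0)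
  (PL.C (nat_lit 0x17b543de) (nat_lit 0x0) (nat_lit 0x5f07ce17aba20a)
  (PL.C (nat_lit 0x17ba91cf) (nat_lit 0x8fdc64f565bee5) (nat_lit 0x0)
  (PL.C (nat_lit 0x17c04d56) (nat_lit 0xaadafcaf7141) (nat_lit 0x0)
  (PL.C (nat_lit 0x17ca6487) (nat_lit 0x338703153291f4) (nat_lit 0x0)
  (PL.C (nat_lit 0x17ce0856) (nat_lit 0x15c1191401e8de) (nat_lit 0x0)
  (PL.C (nat_lit 0x17ceb102) (nat_lit 0x0) (nat_lit 0x456d07d2e734c)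
  (PL.C (nat_lit 0x17d7cf96) (nat_lit 0x0) (nat_lit 0x1034a0ba52f22)
  (PL.C (nat_lit 0x17e7900a) (nat_lit 0x11bf2806054702) (nat_lit 0x0) gp0_2_62))))))))))))))))))))

noncomputable def gp0_2_60 : PL :=
  (PL.C (nat_lit 0x16101e55) (nat_lit 0x0) (nat_lit 0x3904d86bab377f)
  (PL.C (nat_lit 0x161b7de5) (nat_lit 0x338702fd1579dc) (nat_lit 0x0)
  (PL.C (nat_lit 0x16299627) (nat_lit 0x0) (nat_lit 0x1c7d64ffe0f856)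
  (PL.C (nat_lit 0x1640bd43) (nat_lit 0x2c7d21741337e2) (nat_lit 0x0)
  (PL.C (nat_lit 0x164670ff) (nat_lit 0x1741203d1fb01c) (nat_lit 0x0)
  (PL.C (nat_lit 0x16519701) (nat_lit 0x2349938e235ddd) (nat_lit 0x0)
  (PL.C (nat_lit 0x165b1656) (nat_lit 0x909b5eb00b4c8) (nat_lit 0x0)
  (PL.C (nat_lit 0x165d1851) (nat_lit 0x4cc9ec3d8475d) (nat_lit 0x0)
  (PL.C (nat_lit 0x1664974d) (nat_lit 0x0) (nat_lit 0x1dcc61628bddd)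
  (PL.C (nat_lit 0x1674e4b2) (nat_lit 0xaaa069bc31abf6) (nat_lit 0x0)
  (PL.C (nat_lit 0x1682c637) (nat_lit 0x3797aad19ffd81) (nat_lit 0x0)
  (PL.C (nat_lit 0x168c5a7a) (nat_lit 0x0) (nat_lit 0x2d3ce23876327)
  (PL.C (nat_lit 0x16a19bce) (nat_lit 0xb3bde2d8aaf29b) (nat_lit 0x0)
  (PL.C (nat_lit 0x16ba7465) (nat_lit 0x2b74d768bac249) (nat_lit 0x0)
  (PL.C (nat_lit 0x16c11315) (nat_lit 0x0) (nat_lit 0x6a819d3b63f910)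
  (PL.C (nat_lit 0x16d4b0d7) (nat_lit 0x4e43526a9bfba7) (nat_lit 0x0)
  (PL.C (nat_lit 0x16ec8ab3) (nat_lit 0x2c0042bbda0b6) (nat_lit 0x0)
  (PL.C (nat_lit 0x16f5f553) (nat_lit 0x11a60df0ffa965) (nat_lit 0x0)
  (PL.C (nat_lit 0x17059ad6) (nat_lit 0x71578a2f44caa) (nat_lit 0x0)
  (PL.C (nat_lit 0x1723ad6d) (nat_lit 0x4e01893c2e33d) (nat_lit 0x0) gp0_2_61))))))))))))))))))))

noncomputable def gp0_2_59 : PL :=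
  (PL.C (nat_lit 0x1571b4e6) (nat_lit 0x28dba204b72448) (nat_lit 0x0)
  (PL.C (nat_lit 0x1578630f) (nat_lit 0x0) (nat_lit 0x1c1bfad23d298f)
  (PL.C (nat_lit 0x1588b47a) (nat_lit 0x71578a3fbcdf7) (nat_lit 0x0)
  (PL.C (nat_lit 0x1588c646) (nat_lit 0x35f477223d006d) (nat_lit 0x0)
  (PL.C (nat_lit 0x158aa246) (nat_lit 0x0) (nat_lit 0x209a8ac46b4e1c)
  (PL.C (nat_lit 0x15937b86) (nat_lit 0x0) (nat_lit 0x3e53092b61e88)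
  (PL.C (nat_lit 0x159ab6ee) (nat_lit 0x0) (nat_lit 0x8bbb56cdb34f6)
  (PL.C (nat_lit 0x15a38002) (nat_lit 0xd5077f2095981) (nat_lit 0x0)
  (PL.C (nat_lit 0x15a40541) (nat_lit 0x0) (nat_lit 0x25967e1ef14f06)
  (PL.C (nat_lit 0x15b3a73a) (nat_lit 0x0) (nat_lit 0x11ba6f8d7f73cb)
  (PL.C (nat_lit 0x15ba1b0a) (nat_lit 0x31342c6c90973) (nat_lit 0x0)
  (PL.C (nat_lit 0x15bcc4bd) (nat_lit 0x0) (nat_lit 0x2cc44182a4939e)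
  (PL.C (nat_lit 0x15bd004b) (nat_lit 0x0) (nat_lit 0x284e63267daa0c)
  (PL.C (nat_lit 0x15c307ca) (nat_lit 0x0) (nat_lit 0x1f616bd93e3e87)
  (PL.C (nat_lit 0x15ca5322) (nat_lit 0x0) (nat_lit 0x8bbb557811249)
  (PL.C (nat_lit 0x15d3b5f7) (nat_lit 0x3c3b4a248bce2d) (nat_lit 0x0)
  (PL.C (nat_lit 0x15e7f247) (nat_lit 0x6524534) (nat_lit 0x0)
  (PL.C (nat_lit 0x15ff41fe) (nat_lit 0x138507a761f2f4) (nat_lit 0x0)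
  (PL.C (nat_lit 0x160448f2) (nat_lit 0x35f4772664127f) (nat_lit 0x0)
  (PL.C (nat_lit 0x1606a186) (nat_lit 0x0) (nat_lit 0x80d80e80007b6) gp0_2_60))))))))))))))))))))

noncomputable def gp0_2_58 : PL :=
  (PL.C (nat_lit 0x1494d581) (nat_lit 0x165b7dceb64aa9) (nat_lit 0x0)
  (PL.C (nat_lit 0x14a693bb) (nat_lit 0x0) (nat_lit 0x31cea05cd3567b)
  (PL.C (nat_lit 0x14bb630a) (nat_lit 0x4dd4172acae287) (nat_lit 0x0)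
  (PL.C (nat_lit 0x14bfa26b) (nat_lit 0x5bad0f08fedec) (nat_lit 0x0)
  (PL.C (nat_lit 0x14c3ace1) (nat_lit 0x0) (nat_lit 0x14e53c0b8df13a)
  (PL.C (nat_lit 0x14d2d1fe) (nat_lit 0x0) (nat_lit 0x456d08345c33f)
  (PL.C (nat_lit 0x14dd3e02) (nat_lit 0x0) (nat_lit 0x16c326d740bb84)
  (PL.C (nat_lit 0x14ed055f) (nat_lit 0x26877d35258e9a) (nat_lit 0x0)
  (PL.C (nat_lit 0x150ae1ba) (nat_lit 0x0) (nat_lit 0x336960ceec0059)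
  (PL.C (nat_lit 0x15196ec9) (nat_lit 0x0) (nat_lit 0x106d41b726165c)
  (PL.C (nat_lit 0x15232bfe) (nat_lit 0x7b3d8852bf15b) (nat_lit 0x0)
  (PL.C (nat_lit 0x1532262e) (nat_lit 0x8899b8a517d0) (nat_lit 0x0)
  (PL.C (nat_lit 0x1533bb51) (nat_lit 0x0) (nat_lit 0xf9650c66d92db6)
  (PL.C (nat_lit 0x153940f6) (nat_lit 0x45376415fea41a) (nat_lit 0x0)
  (PL.C (nat_lit 0x1541bd1f) (nat_lit 0x1af45f58ef32f0) (nat_lit 0x0)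
  (PL.C (nat_lit 0x1545762a) (nat_lit 0x0) (nat_lit 0x287161ebe92751)
  (PL.C (nat_lit 0x15524409) (nat_lit 0x0) (nat_lit 0x33741638449121)
  (PL.C (nat_lit 0x155df2ef) (nat_lit 0x0) (nat_lit 0x1dcc60603c824)
  (PL.C (nat_lit 0x156c10a1) (nat_lit 0xda3e47700a686) (nat_lit 0x0)
  (PL.C (nat_lit 0x156ccf6a) (nat_lit 0x8c7823d78a008) (nat_lit 0x0) gp0_2_59))))))))))))))))))))

noncomputable def gp0_2_57 : PL :=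
  (PL.C (nat_lit 0x140bcfcb) (nat_lit 0x0) (nat_lit 0x3a35abb5705a07)
  (PL.C (nat_lit 0x14111c25) (nat_lit 0x706f74bc36e39) (nat_lit 0x0)
  (PL.C (nat_lit 0x1412cec6) (nat_lit 0x0) (nat_lit 0x13fa2967720835)
  (PL.C (nat_lit 0x1418502e) (nat_lit 0x91b0d1a15ef73f) (nat_lit 0x0)
  (PL.C (nat_lit 0x1425e943) (nat_lit 0x0) (nat_lit 0x4dcf6ae0f1dd4)
  (PL.C (nat_lit 0x14284617) (nat_lit 0x1311e47892e2e3) (nat_lit 0x0)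
  (PL.C (nat_lit 0x142ffebd) (nat_lit 0x1e6252ff8157f5) (nat_lit 0x0)
  (PL.C (nat_lit 0x143a66cd) (nat_lit 0x3bc95db8620d51) (nat_lit 0x0)
  (PL.C (nat_lit 0x143c524c) (nat_lit 0x0) (nat_lit 0x207064241620a7)
  (PL.C (nat_lit 0x143d54f3) (nat_lit 0x0) (nat_lit 0x1163d72cae7fe6)
  (PL.C (nat_lit 0x1447c3e3) (nat_lit 0xea95a00698160) (nat_lit 0x0)
  (PL.C (nat_lit 0x144fed6a) (nat_lit 0x0) (nat_lit 0x567e759fab26ab)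
  (PL.C (nat_lit 0x14501883) (nat_lit 0x337586bb9cc75) (nat_lit 0x0)
  (PL.C (nat_lit 0x1454b1f1) (nat_lit 0x0) (nat_lit 0x1520127f41cf32)
  (PL.C (nat_lit 0x1465b636) (nat_lit 0x91f53f11b6ec) (nat_lit 0x0)
  (PL.C (nat_lit 0x1468ea54) (nat_lit 0x0) (nat_lit 0x1b91a6aa637958)
  (PL.C (nat_lit 0x1469ef35) (nat_lit 0x0) (nat_lit 0x2dd5d7cf230c3)
  (PL.C (nat_lit 0x146aed26) (nat_lit 0x14f53bd1dda19) (nat_lit 0x0)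
  (PL.C (nat_lit 0x148b89ae) (nat_lit 0x0) (nat_lit 0x5c0ed4218ca6d)
  (PL.C (nat_lit 0x148cad3a) (nat_lit 0x0) (nat_lit 0x56f3ff7a3f38e) gp0_2_58))))))))))))))))))))

noncomputable def gp0_2_56 : PL :=
  (PL.C (nat_lit 0x133aa2a9) (nat_lit 0x0) (nat_lit 0x5157c375150d5)
  (PL.C (nat_lit 0x133d71c6) (nat_lit 0xff2c4a3a7e3601) (nat_lit 0x0)
  (PL.C (nat_lit 0x1349564d) (nat_lit 0xbf9c6fac8c102) (nat_lit 0x0)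
  (PL.C (nat_lit 0x1358c9ca) (nat_lit 0x11bf27ff26d034) (nat_lit 0x0)
  (PL.C (nat_lit 0x1359f6bf) (nat_lit 0x0) (nat_lit 0x61b663129f5201)
  (PL.C (nat_lit 0x1362c2ea) (nat_lit 0x0) (nat_lit 0x9951714cbaf41)
  (PL.C (nat_lit 0x137eb6b7) (nat_lit 0x2c99f570c222ba) (nat_lit 0x0)
  (PL.C (nat_lit 0x13836c66) (nat_lit 0x12ea582915024f) (nat_lit 0x0)
  (PL.C (nat_lit 0x138bb6af) (nat_lit 0x0) (nat_lit 0x31936243618041)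
  (PL.C (nat_lit 0x138f852d) (nat_lit 0x71778cac0c6dd9) (nat_lit 0x0)
  (PL.C (nat_lit 0x1392877a) (nat_lit 0x971988025345c) (nat_lit 0x0)
  (PL.C (nat_lit 0x13a123d2) (nat_lit 0x0) (nat_lit 0xa4b8ff0a81669f)
  (PL.C (nat_lit 0x13a9985f) (nat_lit 0x2d817c738fc0eb) (nat_lit 0x0)
  (PL.C (nat_lit 0x13b67813) (nat_lit 0x7733d854988be8) (nat_lit 0x0)
  (PL.C (nat_lit 0x13b96d92) (nat_lit 0x91f54795a417) (nat_lit 0x0)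
  (PL.C (nat_lit 0x13c54d0d) (nat_lit 0x227ad0f1321f4d) (nat_lit 0x0)
  (PL.C (nat_lit 0x13cf7e1d) (nat_lit 0x0) (nat_lit 0x39c6abf12d20b)
  (PL.C (nat_lit 0x13ec6842) (nat_lit 0x0) (nat_lit 0x30fcadb5196f56)
  (PL.C (nat_lit 0x13f0decb) (nat_lit 0xba37254c066c7) (nat_lit 0x0)
  (PL.C (nat_lit 0x13f1d6da) (nat_lit 0x0) (nat_lit 0xb2ada852cd42f) gp0_2_57))))))))))))))))))))

noncomputable def gp0_2_55 : PL :=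
  (PL.C (nat_lit 0x129fe469) (nat_lit 0x39ee461006dfc3) (nat_lit 0x0)
  (PL.C (nat_lit 0x12a97e39) (nat_lit 0x28d6f7f6a807e) (nat_lit 0x0)
  (PL.C (nat_lit 0x12afbf95) (nat_lit 0x0) (nat_lit 0x6528cabccfa657)
  (PL.C (nat_lit 0x12b82411) (nat_lit 0x426f2ba8873db) (nat_lit 0x0)
  (PL.C (nat_lit 0x12c1ca61) (nat_lit 0x0) (nat_lit 0x2a808b94cad94b)
  (PL.C (nat_lit 0x12c8ef8f) (nat_lit 0x0) (nat_lit 0xc621deef6e7f1a)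
  (PL.C (nat_lit 0x12cb2d9f) (nat_lit 0x0) (nat_lit 0x27b8afa03263ba)
  (PL.C (nat_lit 0x12e0df55) (nat_lit 0x0) (nat_lit 0x6afe89efd8755)
  (PL.C (nat_lit 0x12e164a7) (nat_lit 0x0) (nat_lit 0x313bda411f1d1)
  (PL.C (nat_lit 0x12f49829) (nat_lit 0x0) (nat_lit 0xce9f06d511044)
  (PL.C (nat_lit 0x12f7666d) (nat_lit 0x8461bb811d4a7) (nat_lit 0x0)
  (PL.C (nat_lit 0x12fcec9d) (nat_lit 0x8fdc6501500241) (nat_lit 0x0)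
  (PL.C (nat_lit 0x130d4b2f) (nat_lit 0x0) (nat_lit 0x142877d411f7db4)
  (PL.C (nat_lit 0x1315a565) (nat_lit 0x0) (nat_lit 0x106d41bb60c44f)
  (PL.C (nat_lit 0x131b0dc7) (nat_lit 0x0) (nat_lit 0xab239138e436)
  (PL.C (nat_lit 0x131e7486) (nat_lit 0x7b3d888f69dee) (nat_lit 0x0)
  (PL.C (nat_lit 0x131f329b) (nat_lit 0x0) (nat_lit 0xe22a5c7a2f7b)
  (PL.C (nat_lit 0x1321326b) (nat_lit 0x0) (nat_lit 0x3d1fbf99164cdf)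
  (PL.C (nat_lit 0x13290e0b) (nat_lit 0x18b6758350d644) (nat_lit 0x0)
  (PL.C (nat_lit 0x132faeb9) (nat_lit 0x648802bfe6b324) (nat_lit 0x0) gp0_2_56))))))))))))))))))))

noncomputable def gp0_2_54 : PL :=
  (PL.C (nat_lit 0x11ea834e) (nat_lit 0x0) (nat_lit 0x336960b1180d18)
  (PL.C (nat_lit 0x11f850b6) (nat_lit 0x39bb0ccf17886d) (nat_lit 0x0)
  (PL.C (nat_lit 0x1213c0b3) (nat_lit 0xc7e589b1434fc) (nat_lit 0x0)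
  (PL.C (nat_lit 0x121c18ca) (nat_lit 0x1024660ac54383f) (nat_lit 0x0)
  (PL.C (nat_lit 0x12235641) (nat_lit 0x0) (nat_lit 0x262b88b76ecb2f)
  (PL.C (nat_lit 0x122f35de) (nat_lit 0x0) (nat_lit 0x3c7566775a1091)
  (PL.C (nat_lit 0x123b83fb) (nat_lit 0x0) (nat_lit 0x1520127a594c89)
  (PL.C (nat_lit 0x1244a405) (nat_lit 0x14b31dfc0864) (nat_lit 0x0)
  (PL.C (nat_lit 0x124773ff) (nat_lit 0x0) (nat_lit 0x16e567d7c150c28)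
  (PL.C (nat_lit 0x124da61c) (nat_lit 0x0) (nat_lit 0x1b91a6c3bbe73a)
  (PL.C (nat_lit 0x125748b2) (nat_lit 0x0) (nat_lit 0x18039a673bd5ea)
  (PL.C (nat_lit 0x1261897a) (nat_lit 0x16d8913d9be540) (nat_lit 0x0)
  (PL.C (nat_lit 0x1263b1ed) (nat_lit 0x1311e48041efb2) (nat_lit 0x0)
  (PL.C (nat_lit 0x126ce613) (nat_lit 0x0) (nat_lit 0x46774f5defaac9)
  (PL.C (nat_lit 0x1275fc04) (nat_lit 0x0) (nat_lit 0x2070641dbedba4)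
  (PL.C (nat_lit 0x1276c13e) (nat_lit 0x0) (nat_lit 0x5fc641ad22783a)
  (PL.C (nat_lit 0x12842dd7) (nat_lit 0x13096b9f86297) (nat_lit 0x0)
  (PL.C (nat_lit 0x128a0b36) (nat_lit 0x0) (nat_lit 0xb42ce4f5d545a3)
  (PL.C (nat_lit 0x1297e21e) (nat_lit 0x0) (nat_lit 0x80d80ef4b1d22)
  (PL.C (nat_lit 0x12983823) (nat_lit 0x2cd90e612f93b) (nat_lit 0x0) gp0_2_55))))))))))))))))))))

noncomputable def gp0_2_53 : PL :=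
  (PL.C (nat_lit 0x1166209b) (nat_lit 0x0) (nat_lit 0x4d81a0006f9e1b)
  (PL.C (nat_lit 0x116b31eb) (nat_lit 0xa091705fd17ae) (nat_lit 0x0)
  (PL.C (nat_lit 0x116c0a9a) (nat_lit 0x15eff0b868b090) (nat_lit 0x0)
  (PL.C (nat_lit 0x116d463b) (nat_lit 0x0) (nat_lit 0x7f0b6cffe7390)
  (PL.C (nat_lit 0x116eb1e7) (nat_lit 0x0) (nat_lit 0x31cea05aa7525c)
  (PL.C (nat_lit 0x117a3629) (nat_lit 0x0) (nat_lit 0x1731c92cf1f938)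
  (PL.C (nat_lit 0x117c84dc) (nat_lit 0x0) (nat_lit 0x1b125cedf7dbdd)
  (PL.C (nat_lit 0x1180e803) (nat_lit 0x648802d00ce154) (nat_lit 0x0)
  (PL.C (nat_lit 0x11874225) (nat_lit 0x0) (nat_lit 0x92d4349b4fe6d)
  (PL.C (nat_lit 0x118818a3) (nat_lit 0x38ddf1aa4187e) (nat_lit 0x0)
  (PL.C (nat_lit 0x1188d706) (nat_lit 0x0) (nat_lit 0x5d6161691873e9)
  (PL.C (nat_lit 0x118c784d) (nat_lit 0x0) (nat_lit 0x87e48a24dff7e)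
  (PL.C (nat_lit 0x11a0455e) (nat_lit 0x91b0d1954fa1d2) (nat_lit 0x0)
  (PL.C (nat_lit 0x11a724b9) (nat_lit 0x0) (nat_lit 0xfc80c88f4b22e)
  (PL.C (nat_lit 0x11aa291b) (nat_lit 0xfce9e448d51ee) (nat_lit 0x0)
  (PL.C (nat_lit 0x11b15939) (nat_lit 0x1aa5b68ab95f74) (nat_lit 0x0)
  (PL.C (nat_lit 0x11b49e0a) (nat_lit 0x28dba20cd873b4) (nat_lit 0x0)
  (PL.C (nat_lit 0x11c35e22) (nat_lit 0x4537643617cffa) (nat_lit 0x0)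
  (PL.C (nat_lit 0x11c452d7) (nat_lit 0x0) (nat_lit 0x1c1bfaf688f812)
  (PL.C (nat_lit 0x11c71d32) (nat_lit 0x0) (nat_lit 0x30fcadcbed39eb) gp0_2_54))))))))))))))))))))

noncomputable def gp0_2_52 : PL :=
  (PL.C (nat_lit 0x10f4bc82) (nat_lit 0x1658a98931ecd) (nat_lit 0x0)
  (PL.C (nat_lit 0x10fef165) (nat_lit 0x8e86a726cef0f) (nat_lit 0x0)
  (PL.C (nat_lit 0x11128fd7) (nat_lit 0x3a68a8c797e254) (nat_lit 0x0)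
  (PL.C (nat_lit 0x111360c1) (nat_lit 0x0) (nat_lit 0x422c53b8e87f6)
  (PL.C (nat_lit 0x1115d9ff) (nat_lit 0x0) (nat_lit 0x1163d73990adc4)
  (PL.C (nat_lit 0x111919fd) (nat_lit 0x0) (nat_lit 0x133318d2cdef8c)
  (PL.C (nat_lit 0x111ea8af) (nat_lit 0xad4f1a9d5f885) (nat_lit 0x0)
  (PL.C (nat_lit 0x112465b3) (nat_lit 0xc801b5f74ded) (nat_lit 0x0)
  (PL.C (nat_lit 0x1124fe5e) (nat_lit 0x22a179ff9d277d) (nat_lit 0x0)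
  (PL.C (nat_lit 0x11258c92) (nat_lit 0x39bb0cea070c48) (nat_lit 0x0)
  (PL.C (nat_lit 0x113b80c9) (nat_lit 0x706f753332220) (nat_lit 0x0)
  (PL.C (nat_lit 0x113b8eb3) (nat_lit 0x15bc734317ea7da) (nat_lit 0x0)
  (PL.C (nat_lit 0x114522ed) (nat_lit 0xa091751660532) (nat_lit 0x0)
  (PL.C (nat_lit 0x114800eb) (nat_lit 0x29fd585757a5e) (nat_lit 0x0)
  (PL.C (nat_lit 0x114e09fd) (nat_lit 0x0) (nat_lit 0xfc80c73882e1d)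
  (PL.C (nat_lit 0x1150a715) (nat_lit 0xea95a0b2863a6) (nat_lit 0x0)
  (PL.C (nat_lit 0x11565004) (nat_lit 0x0) (nat_lit 0x1b125cfc41307e)
  (PL.C (nat_lit 0x115aa995) (nat_lit 0x0) (nat_lit 0x61b66308faca2d)
  (PL.C (nat_lit 0x115daece) (nat_lit 0x0) (nat_lit 0x1f428ad0e082af)
  (PL.C (nat_lit 0x116491c5) (nat_lit 0x121386909fc831) (nat_lit 0x0) gp0_2_53))))))))))))))))))))

noncomputable def gp0_2_51 : PL :=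
  (PL.C (nat_lit 0x106af8f2) (nat_lit 0x0) (nat_lit 0x33d71c5e94aa28)
  (PL.C (nat_lit 0x107142e6) (nat_lit 0x0) (nat_lit 0xfe6ffac009d1b)
  (PL.C (nat_lit 0x1078a66a) (nat_lit 0x1e8940f676ce1) (nat_lit 0x0)
  (PL.C (nat_lit 0x10798953) (nat_lit 0x0) (nat_lit 0xe75847688f43)
  (PL.C (nat_lit 0x107c1fba) (nat_lit 0x0) (nat_lit 0x1961f3ecc7cde0)
  (PL.C (nat_lit 0x108320a1) (nat_lit 0x1aa5b65cfaa0d7) (nat_lit 0x0)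
  (PL.C (nat_lit 0x1090277c) (nat_lit 0xc2a22d49c5cd9) (nat_lit 0x0)
  (PL.C (nat_lit 0x109cf2c6) (nat_lit 0x144406f3203756) (nat_lit 0x0)
  (PL.C (nat_lit 0x10a4019f) (nat_lit 0x0) (nat_lit 0x6528cacb3326a8)
  (PL.C (nat_lit 0x10b364c6) (nat_lit 0x9af55ecf037e64) (nat_lit 0x0)
  (PL.C (nat_lit 0x10b4a7a4) (nat_lit 0x3b7dd37be8e1c4) (nat_lit 0x0)
  (PL.C (nat_lit 0x10b92151) (nat_lit 0x0) (nat_lit 0x3a11604d67998)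
  (PL.C (nat_lit 0x10bebc4d) (nat_lit 0xfce9e43130be7) (nat_lit 0x0)
  (PL.C (nat_lit 0x10c2433f) (nat_lit 0x0) (nat_lit 0x18ed2b34b56eb3)
  (PL.C (nat_lit 0x10c64fb6) (nat_lit 0x0) (nat_lit 0x4953921e959dd)
  (PL.C (nat_lit 0x10d0fe66) (nat_lit 0x104573df7302bb) (nat_lit 0x0)
  (PL.C (nat_lit 0x10d61fc2) (nat_lit 0x1155e1c6358a93) (nat_lit 0x0)
  (PL.C (nat_lit 0x10d9783c) (nat_lit 0xc2a22d3891172) (nat_lit 0x0)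
  (PL.C (nat_lit 0x10f08579) (nat_lit 0x0) (nat_lit 0x2dd5d79feb909)
  (PL.C (nat_lit 0x10f1f45e) (nat_lit 0x87eff6bdfcc6c) (nat_lit 0x0) gp0_2_52))))))))))))))))))))

noncomputable def gp0_2_50 : PL :=
  (PL.C (nat_lit 0xfcef745) (nat_lit 0x6b4abb03770dd) (nat_lit 0x0)
  (PL.C (nat_lit 0xfd1b68a) (nat_lit 0x197e1cb3622d049) (nat_lit 0x0)
  (PL.C (nat_lit 0xfd588e4) (nat_lit 0x0) (nat_lit 0x3b76ca9175de1)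
  (PL.C (nat_lit 0xfdac451) (nat_lit 0x0) (nat_lit 0x92d4356fb0212)
  (PL.C (nat_lit 0xfdd625b) (nat_lit 0x0) (nat_lit 0x459d59a7456c6)
  (PL.C (nat_lit 0xfdf20ac) (nat_lit 0x0) (nat_lit 0xd6f5a140175c)
  (PL.C (nat_lit 0xfefb55c) (nat_lit 0xb878524f7de19) (nat_lit 0x0)
  (PL.C (nat_lit 0x1000588d) (nat_lit 0x0) (nat_lit 0x7fb6e054fb1ef)
  (PL.C (nat_lit 0x1002b6e1) (nat_lit 0x4916dfa06d2279f) (nat_lit 0x0)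
  (PL.C (nat_lit 0x1003cb62) (nat_lit 0x0) (nat_lit 0x5f07ce15ea9127)
  (PL.C (nat_lit 0x1015322b) (nat_lit 0x0) (nat_lit 0x12feb02d969a85)
  (PL.C (nat_lit 0x1025ff57) (nat_lit 0x0) (nat_lit 0x4c21ac781361d6d)
  (PL.C (nat_lit 0x102ca177) (nat_lit 0x23e6d068501e4d) (nat_lit 0x0)
  (PL.C (nat_lit 0x103053c1) (nat_lit 0x0) (nat_lit 0x1166b60034cb9a)
  (PL.C (nat_lit 0x103b05af) (nat_lit 0x2f17cac5f6e5ed) (nat_lit 0x0)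
  (PL.C (nat_lit 0x1052b075) (nat_lit 0x44dd27cd4b7ee26) (nat_lit 0x0)
  (PL.C (nat_lit 0x10581b16) (nat_lit 0x0) (nat_lit 0x3deffcb622fb0e)
  (PL.C (nat_lit 0x105e7a7d) (nat_lit 0x66eca45beac94) (nat_lit 0x0)
  (PL.C (nat_lit 0x1062d44a) (nat_lit 0x87eff4ac3d826) (nat_lit 0x0)
  (PL.C (nat_lit 0x1067f0fd) (nat_lit 0x33454c0cfdfe1d) (nat_lit 0x0) gp0_2_51))))))))))))))))))))

noncomputable def gp0_2_49 : PL :=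
  (PL.C (nat_lit 0xef957d3) (nat_lit 0xdb65000a8046af) (nat_lit 0x0)
  (PL.C (nat_lit 0xeff7e73) (nat_lit 0x1130ff9fa8e961) (nat_lit 0x0)
  (PL.C (nat_lit 0xf01d97a) (nat_lit 0x62f851dfc271e6) (nat_lit 0x0)
  (PL.C (nat_lit 0xf048567) (nat_lit 0x866ea3dc620cf) (nat_lit 0x0)
  (PL.C (nat_lit 0xf2b620e) (nat_lit 0x0) (nat_lit 0x567e75b93c4651)
  (PL.C (nat_lit 0xf2ce0b1) (nat_lit 0x0) (nat_lit 0x2d6f8b1c43381)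
  (PL.C (nat_lit 0xf45f65f) (nat_lit 0x37b3264dc40ec9) (nat_lit 0x0)
  (PL.C (nat_lit 0xf5911e4) (nat_lit 0x57780c4b98828) (nat_lit 0x0)
  (PL.C (nat_lit 0xf7136bb) (nat_lit 0x1ec9edfe3e2423) (nat_lit 0x0)
  (PL.C (nat_lit 0xf8434e2) (nat_lit 0x0) (nat_lit 0x335e3f4100c632)
  (PL.C (nat_lit 0xf8a3e5b) (nat_lit 0x0) (nat_lit 0x68a1066f5d93fd)
  (PL.C (nat_lit 0xf97e73e) (nat_lit 0xaadaf7c481a3) (nat_lit 0x0)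
  (PL.C (nat_lit 0xfa6668e) (nat_lit 0x0) (nat_lit 0x1566278164e453f)
  (PL.C (nat_lit 0xfb25def) (nat_lit 0x1213868d0e3f48) (nat_lit 0x0)
  (PL.C (nat_lit 0xfb2f03c) (nat_lit 0x0) (nat_lit 0x8e4f10aec7490)
  (PL.C (nat_lit 0xfba4452) (nat_lit 0x0) (nat_lit 0x83dfc93677065)
  (PL.C (nat_lit 0xfc0f2dd) (nat_lit 0x0) (nat_lit 0x3d225847211263)
  (PL.C (nat_lit 0xfc48c8b) (nat_lit 0x4e43525a4d3a03) (nat_lit 0x0)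
  (PL.C (nat_lit 0xfc63aa9) (nat_lit 0x7733d87b8b924b) (nat_lit 0x0)
  (PL.C (nat_lit 0xfcce384) (nat_lit 0x44d40468c2cd8) (nat_lit 0x0) gp0_2_50))))))))))))))))))))

noncomputable def gp0_2_48 : PL :=
  (PL.C (nat_lit 0xe7dd87e) (nat_lit 0xb3bde2d5404b07) (nat_lit 0x0)
  (PL.C (nat_lit 0xe7e0032) (nat_lit 0x971988ed4ea98) (nat_lit 0x0)
  (PL.C (nat_lit 0xe80d091) (nat_lit 0xd820f0a967eb8) (nat_lit 0x0)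
  (PL.C (nat_lit 0xe8c0abf) (nat_lit 0x0) (nat_lit 0x12feafefcdd2a6)
  (PL.C (nat_lit 0xe8d23fa) (nat_lit 0x0) (nat_lit 0x3c75666f7a1523)
  (PL.C (nat_lit 0xe9ba4b1) (nat_lit 0x20d27923ba83c2) (nat_lit 0x0)
  (PL.C (nat_lit 0xea08a2d) (nat_lit 0x0) (nat_lit 0xad9609c83b78f7)
  (PL.C (nat_lit 0xea64ca9) (nat_lit 0x2c00432590f66) (nat_lit 0x0)
  (PL.C (nat_lit 0xeaea999) (nat_lit 0x2cd90e7126d42) (nat_lit 0x0)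
  (PL.C (nat_lit 0xeaffa47) (nat_lit 0x0) (nat_lit 0x1b74cd411d9c73)
  (PL.C (nat_lit 0xeb5698e) (nat_lit 0x0) (nat_lit 0x156627819825b6b)
  (PL.C (nat_lit 0xec6641a) (nat_lit 0x9af55eb67f67e6) (nat_lit 0x0)
  (PL.C (nat_lit 0xec6954f) (nat_lit 0x2b74d75bf79d77) (nat_lit 0x0)
  (PL.C (nat_lit 0xed05841) (nat_lit 0x0) (nat_lit 0x442d9618e5ff37)
  (PL.C (nat_lit 0xed5d382) (nat_lit 0x0) (nat_lit 0x335e3f4ae9ca78)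
  (PL.C (nat_lit 0xed8a045) (nat_lit 0x0) (nat_lit 0xee1608edad50a3)
  (PL.C (nat_lit 0xed9a0aa) (nat_lit 0x239edda43f1017) (nat_lit 0x0)
  (PL.C (nat_lit 0xee10f56) (nat_lit 0x15c118f7cfeaad) (nat_lit 0x0)
  (PL.C (nat_lit 0xee9c377) (nat_lit 0xeceac2a5259ab9) (nat_lit 0x0)
  (PL.C (nat_lit 0xeef79dd) (nat_lit 0x71778ce50b8a33) (nat_lit 0x0) gp0_2_49))))))))))))))))))))

noncomputable def gp0_2_47 : PL :=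
  (PL.C (nat_lit 0xdd967b1) (nat_lit 0x26d67db94dbf56) (nat_lit 0x0)
  (PL.C (nat_lit 0xde1e154) (nat_lit 0x0) (nat_lit 0xd6f5a51d8156)
  (PL.C (nat_lit 0xdf358ea) (nat_lit 0x56be67c2191e76) (nat_lit 0x0)
  (PL.C (nat_lit 0xe020c6b) (nat_lit 0x0) (nat_lit 0xc0e27575f4c2f)
  (PL.C (nat_lit 0xe10f486) (nat_lit 0x0) (nat_lit 0xca1c05997b69b9)
  (PL.C (nat_lit 0xe125755) (nat_lit 0x0) (nat_lit 0x515ab1a01038a)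
  (PL.C (nat_lit 0xe22ac41) (nat_lit 0x26877d1abdbed9) (nat_lit 0x0)
  (PL.C (nat_lit 0xe25a67b) (nat_lit 0x0) (nat_lit 0x18ed2b140e2cfd)
  (PL.C (nat_lit 0xe2999fb) (nat_lit 0x0) (nat_lit 0xc3ae61e54a60b)
  (PL.C (nat_lit 0xe2bd36a) (nat_lit 0x0) (nat_lit 0x215b81b3f51e30)
  (PL.C (nat_lit 0xe32a673) (nat_lit 0x0) (nat_lit 0x5157c22ae7d61)
  (PL.C (nat_lit 0xe36d806) (nat_lit 0x0) (nat_lit 0x18974c44d53371)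
  (PL.C (nat_lit 0xe39c18d) (nat_lit 0x0) (nat_lit 0xb56c17514b84c)
  (PL.C (nat_lit 0xe480b16) (nat_lit 0x0) (nat_lit 0xd483e7071c235)
  (PL.C (nat_lit 0xe50420a) (nat_lit 0x0) (nat_lit 0xb6e637371c43b1)
  (PL.C (nat_lit 0xe58dfb9) (nat_lit 0x6b6eb57c13f35a) (nat_lit 0x0)
  (PL.C (nat_lit 0xe5b22fc) (nat_lit 0x57780c467637e) (nat_lit 0x0)
  (PL.C (nat_lit 0xe696f73) (nat_lit 0x1ec9edfdce6574) (nat_lit 0x0)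
  (PL.C (nat_lit 0xe6d58d6) (nat_lit 0x0) (nat_lit 0x18039a6e6a9b5c)
  (PL.C (nat_lit 0xe787dbf) (nat_lit 0x6b6eb5768b59b3) (nat_lit 0x0) gp0_2_48))))))))))))))))))))

noncomputable def gp0_2_46 : PL :=
  (PL.C (nat_lit 0xd702eba) (nat_lit 0xc4bdb86b96489) (nat_lit 0x0)
  (PL.C (nat_lit 0xd72cab5) (nat_lit 0x0) (nat_lit 0xe75849fac68f)
  (PL.C (nat_lit 0xd75547e) (nat_lit 0x17ecd7ed4ad9bb) (nat_lit 0x0)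
  (PL.C (nat_lit 0xd7d33db) (nat_lit 0x0) (nat_lit 0x11e72c1034dc585)
  (PL.C (nat_lit 0xd7e38a2) (nat_lit 0x70ef3ed0df40ce) (nat_lit 0x0)
  (PL.C (nat_lit 0xd83f425) (nat_lit 0x0) (nat_lit 0x4c21ac791f4365d)
  (PL.C (nat_lit 0xd852d42) (nat_lit 0x20797b78b25b8) (nat_lit 0x0)
  (PL.C (nat_lit 0xd8abb02) (nat_lit 0xb8dc2a567fa8b) (nat_lit 0x0)
  (PL.C (nat_lit 0xd8bab55) (nat_lit 0x11fdaa942fe18) (nat_lit 0x0)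
  (PL.C (nat_lit 0xd8dcbf6) (nat_lit 0x0) (nat_lit 0x4870b4e0421b1)
  (PL.C (nat_lit 0xd938e17) (nat_lit 0x15bc73436b4ba66) (nat_lit 0x0)
  (PL.C (nat_lit 0xd992424) (nat_lit 0x32e630c22e456) (nat_lit 0x0)
  (PL.C (nat_lit 0xd994109) (nat_lit 0x91ef032e48118) (nat_lit 0x0)
  (PL.C (nat_lit 0xd9bf4ce) (nat_lit 0xbebba070509e0) (nat_lit 0x0)
  (PL.C (nat_lit 0xda1bcf3) (nat_lit 0x4916df9e330dab6) (nat_lit 0x0)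
  (PL.C (nat_lit 0xdafbb87) (nat_lit 0x0) (nat_lit 0x588360c04293f)
  (PL.C (nat_lit 0xdb88e56) (nat_lit 0xaaa0699431a991) (nat_lit 0x0)
  (PL.C (nat_lit 0xdc77709) (nat_lit 0x0) (nat_lit 0x91d09acd0456388)
  (PL.C (nat_lit 0xdd516f2) (nat_lit 0x0) (nat_lit 0x13fa2944fa5c16)
  (PL.C (nat_lit 0xdd7c896) (nat_lit 0x0) (nat_lit 0x727e654b802959) gp0_2_47))))))))))))))))))))

noncomputable def gp0_2_45 : PL :=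
  (PL.C (nat_lit 0xcd1c1c6) (nat_lit 0x3928ca4484afbd) (nat_lit 0x0)
  (PL.C (nat_lit 0xcdb8ede) (nat_lit 0x909b5e232eb01) (nat_lit 0x0)
  (PL.C (nat_lit 0xce49e1b) (nat_lit 0x0) (nat_lit 0x2e9ae351e0c3fe)
  (PL.C (nat_lit 0xce5dbdc) (nat_lit 0xb878521133ef9) (nat_lit 0x0)
  (PL.C (nat_lit 0xcff247a) (nat_lit 0xff2c4a3be4211e) (nat_lit 0x0)
  (PL.C (nat_lit 0xd024844) (nat_lit 0x44d40483e467a) (nat_lit 0x0)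
  (PL.C (nat_lit 0xd0920e7) (nat_lit 0x3a68a8d0cbc8df) (nat_lit 0x0)
  (PL.C (nat_lit 0xd194207) (nat_lit 0x11fdac456b3da) (nat_lit 0x0)
  (PL.C (nat_lit 0xd1bbaea) (nat_lit 0xd5077f8d63faa) (nat_lit 0x0)
  (PL.C (nat_lit 0xd26490c) (nat_lit 0x32e630c989fb3) (nat_lit 0x0)
  (PL.C (nat_lit 0xd2e335e) (nat_lit 0x144406f798da52) (nat_lit 0x0)
  (PL.C (nat_lit 0xd34febe) (nat_lit 0x1155e1d424d1b7) (nat_lit 0x0)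
  (PL.C (nat_lit 0xd42b561) (nat_lit 0x133e6175e910fd) (nat_lit 0x0)
  (PL.C (nat_lit 0xd4b3f32) (nat_lit 0x1e89405c62e37) (nat_lit 0x0)
  (PL.C (nat_lit 0xd50e50d) (nat_lit 0x160cd67d4f1f95) (nat_lit 0x0)
  (PL.C (nat_lit 0xd5d1cdf) (nat_lit 0xbfb1059d0eb62) (nat_lit 0x0)
  (PL.C (nat_lit 0xd5d3532) (nat_lit 0x0) (nat_lit 0x5fc641b75a5bf3)
  (PL.C (nat_lit 0xd60bd6e) (nat_lit 0x3f527d37109dd6) (nat_lit 0x0)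
  (PL.C (nat_lit 0xd623b55) (nat_lit 0x0) (nat_lit 0x14e53c092c6c23)
  (PL.C (nat_lit 0xd6e9b82) (nat_lit 0x0) (nat_lit 0x33d71c61369e91) gp0_2_46))))))))))))))))))))

noncomputable def gp0_2_44 : PL :=
  (PL.C (nat_lit 0xc47abfb) (nat_lit 0x0) (nat_lit 0x142877d706dbb58)
  (PL.C (nat_lit 0xc489962) (nat_lit 0x0) (nat_lit 0x209a8ad95ddf35)
  (PL.C (nat_lit 0xc58f9a1) (nat_lit 0x0) (nat_lit 0xad9609ecbb4128)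
  (PL.C (nat_lit 0xc657ac2) (nat_lit 0x27d29ede7d626) (nat_lit 0x0)
  (PL.C (nat_lit 0xc6a9846) (nat_lit 0x0) (nat_lit 0xb42ce4d15189ed)
  (PL.C (nat_lit 0xc77b7c9) (nat_lit 0x0) (nat_lit 0x2e9ae33828c7a3)
  (PL.C (nat_lit 0xc7ac2b6) (nat_lit 0x0) (nat_lit 0x1961f3f6c81f76)
  (PL.C (nat_lit 0xc813196) (nat_lit 0x0) (nat_lit 0x9cfcad6996957)
  (PL.C (nat_lit 0xc85f50a) (nat_lit 0x16d891755e141e) (nat_lit 0x0)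
  (PL.C (nat_lit 0xc885219) (nat_lit 0x3865db06c4a1cd) (nat_lit 0x0)
  (PL.C (nat_lit 0xc96431a) (nat_lit 0x0) (nat_lit 0x3deffca5b64544)
  (PL.C (nat_lit 0xc9b9c11) (nat_lit 0x2b8ed23d6faa88) (nat_lit 0x0)
  (PL.C (nat_lit 0xca3f05f) (nat_lit 0x3a0925edb66e9d) (nat_lit 0x0)
  (PL.C (nat_lit 0xca6c49d) (nat_lit 0x29fd5830eb47d) (nat_lit 0x0)
  (PL.C (nat_lit 0xca89dbe) (nat_lit 0x197e1cb3567334f) (nat_lit 0x0)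
  (PL.C (nat_lit 0xcb918ee) (nat_lit 0x0) (nat_lit 0xca1c059a294803)
  (PL.C (nat_lit 0xcbcb3da) (nat_lit 0x0) (nat_lit 0x13db66102c326b)
  (PL.C (nat_lit 0xcbf7712) (nat_lit 0x0) (nat_lit 0x2d3ce17df5d32)
  (PL.C (nat_lit 0xcc6ec0d) (nat_lit 0xcac9d448463df) (nat_lit 0x0)
  (PL.C (nat_lit 0xccf7135) (nat_lit 0x0) (nat_lit 0x118f44b9166e7a) gp0_2_45))))))))))))))))))))

noncomputable def gp0_2_43 : PL :=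
  (PL.C (nat_lit 0xba6cec6) (nat_lit 0x3204c7e679d2bb) (nat_lit 0x0)
  (PL.C (nat_lit 0xbaf816e) (nat_lit 0x0) (nat_lit 0x4cf990bd5353f6)
  (PL.C (nat_lit 0xbb07ee3) (nat_lit 0x0) (nat_lit 0x4d491bdf0eeb30)
  (PL.C (nat_lit 0xbb2fade) (nat_lit 0x28750210e04001) (nat_lit 0x0)
  (PL.C (nat_lit 0xbc4c326) (nat_lit 0x120171447ddfc9) (nat_lit 0x0)
  (PL.C (nat_lit 0xbc6c612) (nat_lit 0x4b7f71073a42cd) (nat_lit 0x0)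
  (PL.C (nat_lit 0xbd8373a) (nat_lit 0x0) (nat_lit 0xb6e6373a8976e3)
  (PL.C (nat_lit 0xbfe8b9d) (nat_lit 0x18b9b4f099c6b6) (nat_lit 0x0)
  (PL.C (nat_lit 0xc048c63) (nat_lit 0x2f17cabb14107b) (nat_lit 0x0)
  (PL.C (nat_lit 0xc0abe53) (nat_lit 0x0) (nat_lit 0x1b4b70f63c3665)
  (PL.C (nat_lit 0xc0d2b22) (nat_lit 0x0) (nat_lit 0x7ddf46cef146b1)
  (PL.C (nat_lit 0xc166da3) (nat_lit 0x0) (nat_lit 0x1c9b1a903c5ce9)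
  (PL.C (nat_lit 0xc178ed6) (nat_lit 0x68efc7531d793) (nat_lit 0x0)
  (PL.C (nat_lit 0xc1c7a5d) (nat_lit 0xc801b26df7d5) (nat_lit 0x0)
  (PL.C (nat_lit 0xc27ad52) (nat_lit 0x0) (nat_lit 0x4870b5a69be2c)
  (PL.C (nat_lit 0xc2dc2ae) (nat_lit 0x31342cc8a02d3) (nat_lit 0x0)
  (PL.C (nat_lit 0xc2fa2aa) (nat_lit 0x0) (nat_lit 0x11a52f278954be)
  (PL.C (nat_lit 0xc372afb) (nat_lit 0x8e86a6ba6783d) (nat_lit 0x0)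
  (PL.C (nat_lit 0xc40941f) (nat_lit 0x26d67ddb8159e2) (nat_lit 0x0)
  (PL.C (nat_lit 0xc42769e) (nat_lit 0xc4bdb960a2b13) (nat_lit 0x0) gp0_2_44))))))))))))))))))))

noncomputable def gp0_2_42 : PL :=
  (PL.C (nat_lit 0xb61b53a) (nat_lit 0x837be4c7e54c) (nat_lit 0x0)
  (PL.C (nat_lit 0xb63e6aa) (nat_lit 0x70ef3ec9c8b24c) (nat_lit 0x0)
  (PL.C (nat_lit 0xb68bd79) (nat_lit 0x0) (nat_lit 0x3d1fbfc88c9d2b)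
  (PL.C (nat_lit 0xb69c5ca) (nat_lit 0x16a7e1e2e10888) (nat_lit 0x0)
  (PL.C (nat_lit 0xb6d9922) (nat_lit 0x6a54394b2edf52) (nat_lit 0x0)
  (PL.C (nat_lit 0xb717ee9) (nat_lit 0x0) (nat_lit 0xab238b95fed7)
  (PL.C (nat_lit 0xb731605) (nat_lit 0x3a74b3866a9728) (nat_lit 0x0)
  (PL.C (nat_lit 0xb773917) (nat_lit 0x27e265cb2bc31) (nat_lit 0x0)
  (PL.C (nat_lit 0xb7d0086) (nat_lit 0x3f527d321b4d03) (nat_lit 0x0)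
  (PL.C (nat_lit 0xb81e1ff) (nat_lit 0x8461bc4239b2f) (nat_lit 0x0)
  (PL.C (nat_lit 0xb836c9e) (nat_lit 0x0) (nat_lit 0x2634f0839ddedc)
  (PL.C (nat_lit 0xb8555f2) (nat_lit 0x85acbb907d528) (nat_lit 0x0)
  (PL.C (nat_lit 0xb895bfe) (nat_lit 0x1201715161e9e0) (nat_lit 0x0)
  (PL.C (nat_lit 0xb8b1a0e) (nat_lit 0x20797b83b6eba) (nat_lit 0x0)
  (PL.C (nat_lit 0xb8f97cd) (nat_lit 0x94506c06c36ac0) (nat_lit 0x0)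
  (PL.C (nat_lit 0xb98612e) (nat_lit 0x4df722d9dc0939) (nat_lit 0x0)
  (PL.C (nat_lit 0xb996b12) (nat_lit 0x0) (nat_lit 0x6fe9a97375dba)
  (PL.C (nat_lit 0xb9ccbf2) (nat_lit 0x0) (nat_lit 0x2634f097d6c957)
  (PL.C (nat_lit 0xb9e2ed2) (nat_lit 0x0) (nat_lit 0x495392ea98da9)
  (PL.C (nat_lit 0xba1baed) (nat_lit 0x44dd27ce2bc4b60) (nat_lit 0x0) gp0_2_43))))))))))))))))))))

noncomputable def gp0_2_41 : PL :=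
  (PL.C (nat_lit 0xab92e95) (nat_lit 0x5dc2e172cbde2) (nat_lit 0x0)
  (PL.C (nat_lit 0xad203ca) (nat_lit 0x3158e0aaba0ff4) (nat_lit 0x0)
  (PL.C (nat_lit 0xad6dc0f) (nat_lit 0x66eca420a252a) (nat_lit 0x0)
  (PL.C (nat_lit 0xada9be5) (nat_lit 0x4155f4fd87660) (nat_lit 0x0)
  (PL.C (nat_lit 0xae56764) (nat_lit 0x0) (nat_lit 0x3f59476c936eff)
  (PL.C (nat_lit 0xae72357) (nat_lit 0x0) (nat_lit 0x3d840e60d265f3)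
  (PL.C (nat_lit 0xae9a6fe) (nat_lit 0x0) (nat_lit 0x2d9dc5322f1f1)
  (PL.C (nat_lit 0xaeff5fe) (nat_lit 0x2836eb0103c539) (nat_lit 0x0)
  (PL.C (nat_lit 0xaf1fb4c) (nat_lit 0x0) (nat_lit 0x30258b7e13399f)
  (PL.C (nat_lit 0xaf28733) (nat_lit 0x0) (nat_lit 0xd463365d3de84)
  (PL.C (nat_lit 0xafb199c) (nat_lit 0x3eb39bc5d2f18) (nat_lit 0x0)
  (PL.C (nat_lit 0xafbb0e2) (nat_lit 0x2933846547aca2) (nat_lit 0x0)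
  (PL.C (nat_lit 0xafd6a7c) (nat_lit 0x0) (nat_lit 0x238acede43c66e)
  (PL.C (nat_lit 0xb134c84) (nat_lit 0x4260f883e76ea) (nat_lit 0x0)
  (PL.C (nat_lit 0xb261636) (nat_lit 0xf779768a04552) (nat_lit 0x0)
  (PL.C (nat_lit 0xb29d2de) (nat_lit 0x4b7f7106bc74ac) (nat_lit 0x0)
  (PL.C (nat_lit 0xb2c1c61) (nat_lit 0x0) (nat_lit 0x5883606d1a582)
  (PL.C (nat_lit 0xb4b03a6) (nat_lit 0xbebb9fd1d8944) (nat_lit 0x0)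
  (PL.C (nat_lit 0xb54a0ee) (nat_lit 0x5c57a0e9693869) (nat_lit 0x0)
  (PL.C (nat_lit 0xb5c76bb) (nat_lit 0x41333d8fcd637e) (nat_lit 0x0) gp0_2_42))))))))))))))))))))

noncomputable def gp0_2_40 : PL :=
  (PL.C (nat_lit 0xa07539b) (nat_lit 0x3a0925f73d3253) (nat_lit 0x0)
  (PL.C (nat_lit 0xa0c7f0b) (nat_lit 0xaf801a4fc826bd) (nat_lit 0x0)
  (PL.C (nat_lit 0xa12e729) (nat_lit 0x0) (nat_lit 0x11e72c108d3c0f5)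
  (PL.C (nat_lit 0xa1d6d4d) (nat_lit 0x3865db19e65a33) (nat_lit 0x0)
  (PL.C (nat_lit 0xa2004d1) (nat_lit 0x18b9b4ef9db4a9) (nat_lit 0x0)
  (PL.C (nat_lit 0xa49a4f5) (nat_lit 0xd20ded43a2f1) (nat_lit 0x0)
  (PL.C (nat_lit 0xa4b79d2) (nat_lit 0x27bd0f66665063) (nat_lit 0x0)
  (PL.C (nat_lit 0xa57c2db) (nat_lit 0x33454c45a6483a) (nat_lit 0x0)
  (PL.C (nat_lit 0xa5aa65b) (nat_lit 0x0) (nat_lit 0x14ac1511322425)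
  (PL.C (nat_lit 0xa5c2992) (nat_lit 0x1836d5394f8f1c) (nat_lit 0x0)
  (PL.C (nat_lit 0xa6544d4) (nat_lit 0x0) (nat_lit 0x3b76cafadd753)
  (PL.C (nat_lit 0xa76e94a) (nat_lit 0x4df722c85f7333) (nat_lit 0x0)
  (PL.C (nat_lit 0xa7c2d8c) (nat_lit 0x0) (nat_lit 0x8e4f1102d0700)
  (PL.C (nat_lit 0xa864ead) (nat_lit 0x37b3262ef4fc3b) (nat_lit 0x0)
  (PL.C (nat_lit 0xa885b67) (nat_lit 0x0) (nat_lit 0x2f01a20c4c323f)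
  (PL.C (nat_lit 0xa89fa2e) (nat_lit 0x0) (nat_lit 0x3f95d5d66c050d)
  (PL.C (nat_lit 0xa91d836) (nat_lit 0x0) (nat_lit 0x4cf990b9cf52f0)
  (PL.C (nat_lit 0xa9d5459) (nat_lit 0x0) (nat_lit 0x103184b379bd72)
  (PL.C (nat_lit 0xaa1c093) (nat_lit 0x1176d63c9bc013) (nat_lit 0x0)
  (PL.C (nat_lit 0xab19acd) (nat_lit 0x0) (nat_lit 0x1c9b1a8685ed27) gp0_2_41))))))))))))))))))))

noncomputable def gp0_2_39 : PL :=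
  (PL.C (nat_lit 0x9c05c1e) (nat_lit 0x0) (nat_lit 0xb0e9d3b1624f94)
  (PL.C (nat_lit 0x9c44223) (nat_lit 0x5750183dc273d2) (nat_lit 0x0)
  (PL.C (nat_lit 0x9c9c666) (nat_lit 0x27d29e0b72a95) (nat_lit 0x0)
  (PL.C (nat_lit 0x9caa6da) (nat_lit 0x0) (nat_lit 0x550c2423648542)
  (PL.C (nat_lit 0x9d14711) (nat_lit 0x2a7b7ec588fc48) (nat_lit 0x0)
  (PL.C (nat_lit 0x9d630ef) (nat_lit 0x0) (nat_lit 0x442d9618e7843e)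
  (PL.C (nat_lit 0x9d7b49d) (nat_lit 0x148e55624004b5) (nat_lit 0x0)
  (PL.C (nat_lit 0x9dc9c3b) (nat_lit 0x4742e34b8344b1) (nat_lit 0x0)
  (PL.C (nat_lit 0x9e03ad6) (nat_lit 0x4ba4c479335cc4) (nat_lit 0x0)
  (PL.C (nat_lit 0x9e170b3) (nat_lit 0x0) (nat_lit 0x16e567d73a3daf0)
  (PL.C (nat_lit 0x9e18bc5) (nat_lit 0x6b4abbd9e61db) (nat_lit 0x0)
  (PL.C (nat_lit 0x9e5c02e) (nat_lit 0x0) (nat_lit 0x16da2e08d687938)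
  (PL.C (nat_lit 0x9e66b1c) (nat_lit 0x0) (nat_lit 0x2d51512f473d8b)
  (PL.C (nat_lit 0x9e6e9a7) (nat_lit 0x0) (nat_lit 0x46958cbcec95d)
  (PL.C (nat_lit 0x9ebde59) (nat_lit 0x0) (nat_lit 0x1b74cd4dd664a3)
  (PL.C (nat_lit 0x9f12cfa) (nat_lit 0x0) (nat_lit 0x7b31475878c8d0)
  (PL.C (nat_lit 0x9f51109) (nat_lit 0x148efd989dd8a) (nat_lit 0x0)
  (PL.C (nat_lit 0x9fb8fe2) (nat_lit 0x4420aa7d80a17e) (nat_lit 0x0)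
  (PL.C (nat_lit 0x9ffa9a2) (nat_lit 0x1658aa14ddd31) (nat_lit 0x0)
  (PL.C (nat_lit 0xa03039a) (nat_lit 0x0) (nat_lit 0x1bf1558b3f7e3d) gp0_2_40))))))))))))))))))))

noncomputable def gp0_2_38 : PL :=
  (PL.C (nat_lit 0x95167d7) (nat_lit 0x0) (nat_lit 0x37250e71ae98b)
  (PL.C (nat_lit 0x956b2f2) (nat_lit 0x0) (nat_lit 0x1836b66a5a1ceb)
  (PL.C (nat_lit 0x95758ad) (nat_lit 0x16fd7daf24dc6c) (nat_lit 0x0)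
  (PL.C (nat_lit 0x95aecaf) (nat_lit 0x0) (nat_lit 0x262b889c7405ba)
  (PL.C (nat_lit 0x960a304) (nat_lit 0x0) (nat_lit 0x95bcc037e9d5c8)
  (PL.C (nat_lit 0x9611ae1) (nat_lit 0x0) (nat_lit 0x5056f27b2a6246)
  (PL.C (nat_lit 0x9618f8e) (nat_lit 0x0) (nat_lit 0x165e08d5c7c4fe)
  (PL.C (nat_lit 0x96c72d6) (nat_lit 0x56be67c8c95672) (nat_lit 0x0)
  (PL.C (nat_lit 0x970374f) (nat_lit 0x3a1d13f33fba6c) (nat_lit 0x0)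
  (PL.C (nat_lit 0x9711152) (nat_lit 0x0) (nat_lit 0x318e189149d180)
  (PL.C (nat_lit 0x97719a2) (nat_lit 0x3928ca59f5d83f) (nat_lit 0x0)
  (PL.C (nat_lit 0x97bd65e) (nat_lit 0x0) (nat_lit 0x56f3ff989b42f)
  (PL.C (nat_lit 0x9830271) (nat_lit 0x4c67de69e879ff) (nat_lit 0x0)
  (PL.C (nat_lit 0x9909526) (nat_lit 0x92ccd29f477887) (nat_lit 0x0)
  (PL.C (nat_lit 0x99b9fa2) (nat_lit 0x27bd0f6f5db2df) (nat_lit 0x0)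
  (PL.C (nat_lit 0x9a5a92a) (nat_lit 0x92ccd2a76ca038) (nat_lit 0x0)
  (PL.C (nat_lit 0x9ab35b6) (nat_lit 0x0) (nat_lit 0x5d6161588b4b1e)
  (PL.C (nat_lit 0x9ac3059) (nat_lit 0xbfb105773c59c) (nat_lit 0x0)
  (PL.C (nat_lit 0x9b107a7) (nat_lit 0xda3e482fadb5f) (nat_lit 0x0)
  (PL.C (nat_lit 0x9bd1876) (nat_lit 0x20f1a3f2b29414) (nat_lit 0x0) gp0_2_39))))))))))))))))))))

noncomputable def gp0_2_37 : PL :=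
  (PL.C (nat_lit 0x8f5d97d) (nat_lit 0x9f791cb294171) (nat_lit 0x0)
  (PL.C (nat_lit 0x8f731ce) (nat_lit 0x2933845f13cd40) (nat_lit 0x0)
  (PL.C (nat_lit 0x8fe2292) (nat_lit 0x73ca969426a21f) (nat_lit 0x0)
  (PL.C (nat_lit 0x8fed06c) (nat_lit 0x57ec4481ea5ff7) (nat_lit 0x0)
  (PL.C (nat_lit 0x9013953) (nat_lit 0xd9ef99a36c461) (nat_lit 0x0)
  (PL.C (nat_lit 0x907c78e) (nat_lit 0x0) (nat_lit 0xba8a58f57d918)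
  (PL.C (nat_lit 0x90932a4) (nat_lit 0x285fcd4eeea222) (nat_lit 0x0)
  (PL.C (nat_lit 0x910d606) (nat_lit 0x0) (nat_lit 0x2a3a013738fff)
  (PL.C (nat_lit 0x912a334) (nat_lit 0x108e1cb0c33698) (nat_lit 0x0)
  (PL.C (nat_lit 0x91ca445) (nat_lit 0xeceac2c9a3a7a5) (nat_lit 0x0)
  (PL.C (nat_lit 0x91fd25a) (nat_lit 0x46cae58706e3a) (nat_lit 0x0)
  (PL.C (nat_lit 0x928814d) (nat_lit 0x133e6175071368) (nat_lit 0x0)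
  (PL.C (nat_lit 0x9297b1f) (nat_lit 0x3a74b38ebd0a7d) (nat_lit 0x0)
  (PL.C (nat_lit 0x9299439) (nat_lit 0x0) (nat_lit 0x46958cc484886)
  (PL.C (nat_lit 0x92d16b3) (nat_lit 0x1af45f5d2adeaf) (nat_lit 0x0)
  (PL.C (nat_lit 0x931d1a3) (nat_lit 0x0) (nat_lit 0x242a094f8b12e1)
  (PL.C (nat_lit 0x937e4ad) (nat_lit 0x3b31a964804980) (nat_lit 0x0)
  (PL.C (nat_lit 0x93b9a76) (nat_lit 0x0) (nat_lit 0xd1c5a1fa3293f)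
  (PL.C (nat_lit 0x93dc53f) (nat_lit 0x2a7b7ec35b40dd) (nat_lit 0x0)
  (PL.C (nat_lit 0x94c9ca7) (nat_lit 0x0) (nat_lit 0x2b792f188bc65a) gp0_2_38))))))))))))))))))))

noncomputable def gp0_2_36 : PL :=
  (PL.C (nat_lit 0x88bd684) (nat_lit 0x24121015701c5a) (nat_lit 0x0)
  (PL.C (nat_lit 0x89f0003) (nat_lit 0x23a961bb427692c) (nat_lit 0x0)
  (PL.C (nat_lit 0x8a182d3) (nat_lit 0xcac9d72a5cb41) (nat_lit 0x0)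
  (PL.C (nat_lit 0x8a8f3a1) (nat_lit 0x6fad79bc8df08d) (nat_lit 0x0)
  (PL.C (nat_lit 0x8acbf8b) (nat_lit 0x41333d8a01b4e8) (nat_lit 0x0)
  (PL.C (nat_lit 0x8b0c09a) (nat_lit 0x837beebdd34f) (nat_lit 0x0)
  (PL.C (nat_lit 0x8b1ffa5) (nat_lit 0x0) (nat_lit 0x3c1a1cc6842ba)
  (PL.C (nat_lit 0x8bb815a) (nat_lit 0x0) (nat_lit 0xba8a58dc2d8f3)
  (PL.C (nat_lit 0x8c97794) (nat_lit 0x4260f875c1727) (nat_lit 0x0)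
  (PL.C (nat_lit 0x8d72396) (nat_lit 0x0) (nat_lit 0x14c12fcb320171)
  (PL.C (nat_lit 0x8dc8199) (nat_lit 0x0) (nat_lit 0x68a10675fde298)
  (PL.C (nat_lit 0x8dcd4cc) (nat_lit 0x3eb39b6cfda71) (nat_lit 0x0)
  (PL.C (nat_lit 0x8e42543) (nat_lit 0x0) (nat_lit 0x6af424f9c84cbd)
  (PL.C (nat_lit 0x8e8bdea) (nat_lit 0x49399d510ecf8) (nat_lit 0x0)
  (PL.C (nat_lit 0x8eb28f4) (nat_lit 0x74ef9e9fe578b) (nat_lit 0x0)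
  (PL.C (nat_lit 0x8eb888f) (nat_lit 0x0) (nat_lit 0x3d840e650d89f6)
  (PL.C (nat_lit 0x8ec278e) (nat_lit 0x0) (nat_lit 0x727e65398d7920)
  (PL.C (nat_lit 0x8efff71) (nat_lit 0x0) (nat_lit 0x1731c91af21a92)
  (PL.C (nat_lit 0x8f467ac) (nat_lit 0x0) (nat_lit 0x30258b844ec49d)
  (PL.C (nat_lit 0x8f5747c) (nat_lit 0x2eb091c8325774) (nat_lit 0x0) gp0_2_37))))))))))))))))))))

noncomputable def gp0_2_35 : PL :=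
  (PL.C (nat_lit 0x8499915) (nat_lit 0x0) (nat_lit 0xd4633699ba3c6)
  (PL.C (nat_lit 0x84dbeeb) (nat_lit 0x0) (nat_lit 0x87e48a94a896f)
  (PL.C (nat_lit 0x851d724) (nat_lit 0x0) (nat_lit 0x238acf0361fc4c)
  (PL.C (nat_lit 0x855468f) (nat_lit 0x2de29f6782db) (nat_lit 0x0)
  (PL.C (nat_lit 0x85ae166) (nat_lit 0xc4128ff7c00d95) (nat_lit 0x0)
  (PL.C (nat_lit 0x85bdc83) (nat_lit 0x4155f4949398f) (nat_lit 0x0)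
  (PL.C (nat_lit 0x8600b7d) (nat_lit 0x0) (nat_lit 0x4d81a000170619)
  (PL.C (nat_lit 0x8642cbc) (nat_lit 0x0) (nat_lit 0x3f594768733d7c)
  (PL.C (nat_lit 0x867a3b9) (nat_lit 0x2de2a007216e) (nat_lit 0x0)
  (PL.C (nat_lit 0x86d4aea) (nat_lit 0x0) (nat_lit 0x3fb5b9f0ab19b9e)
  (PL.C (nat_lit 0x86f2dbe) (nat_lit 0x85acbace792ad) (nat_lit 0x0)
  (PL.C (nat_lit 0x872feb9) (nat_lit 0x16fd7da7e91f8b) (nat_lit 0x0)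
  (PL.C (nat_lit 0x873bc6d) (nat_lit 0x0) (nat_lit 0x3866560e5bba3)
  (PL.C (nat_lit 0x8773947) (nat_lit 0xdb65001b022775) (nat_lit 0x0)
  (PL.C (nat_lit 0x87b65f4) (nat_lit 0x0) (nat_lit 0x95bcc0476477a9)
  (PL.C (nat_lit 0x87b9677) (nat_lit 0x0) (nat_lit 0x1799647f220e0f)
  (PL.C (nat_lit 0x87dcd3c) (nat_lit 0x0) (nat_lit 0x141aa2c6ef1809)
  (PL.C (nat_lit 0x87e6e5b) (nat_lit 0x9f791a8bfbd68) (nat_lit 0x0)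
  (PL.C (nat_lit 0x8849d5e) (nat_lit 0x40be35afd3d9ac5) (nat_lit 0x0)
  (PL.C (nat_lit 0x889e141) (nat_lit 0x0) (nat_lit 0xee1608f725d55e) gp0_2_36))))))))))))))))))))

noncomputable def gp0_2_34 : PL :=
  (PL.C (nat_lit 0x7e7e52b) (nat_lit 0x0) (nat_lit 0x3866565a09b92)
  (PL.C (nat_lit 0x7eae825) (nat_lit 0x0) (nat_lit 0x2b792ed2a8e2a9)
  (PL.C (nat_lit 0x7fe7daf) (nat_lit 0x0) (nat_lit 0x81162b5cddb676)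
  (PL.C (nat_lit 0x7ff07be) (nat_lit 0x368546ae7efa5a) (nat_lit 0x0)
  (PL.C (nat_lit 0x800d1bf) (nat_lit 0x13ceffb893adde7) (nat_lit 0x0)
  (PL.C (nat_lit 0x8030842) (nat_lit 0x3158e0a07043af) (nat_lit 0x0)
  (PL.C (nat_lit 0x80627f7) (nat_lit 0x0) (nat_lit 0x37250c601e2b0)
  (PL.C (nat_lit 0x807b805) (nat_lit 0x0) (nat_lit 0x431890e8932303)
  (PL.C (nat_lit 0x808c76c) (nat_lit 0x0) (nat_lit 0x8ea9d1627a1323)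
  (PL.C (nat_lit 0x80acb77) (nat_lit 0x0) (nat_lit 0x6af42517c45523)
  (PL.C (nat_lit 0x80ef3c2) (nat_lit 0x14aca1f6f6501c) (nat_lit 0x0)
  (PL.C (nat_lit 0x8101b99) (nat_lit 0x0) (nat_lit 0x7b41b941de89bd)
  (PL.C (nat_lit 0x812fc3e) (nat_lit 0x6a54394d888055) (nat_lit 0x0)
  (PL.C (nat_lit 0x8136b79) (nat_lit 0x94506c2d896bc1) (nat_lit 0x0)
  (PL.C (nat_lit 0x81a738c) (nat_lit 0x285fcd37b031a1) (nat_lit 0x0)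
  (PL.C (nat_lit 0x824c752) (nat_lit 0x5c57a0ebaed806) (nat_lit 0x0)
  (PL.C (nat_lit 0x82b0d6a) (nat_lit 0x0) (nat_lit 0xd1c5a3d6a3731)
  (PL.C (nat_lit 0x82c4f14) (nat_lit 0x2eb091baf18817) (nat_lit 0x0)
  (PL.C (nat_lit 0x83b5116) (nat_lit 0x0) (nat_lit 0xb0e9d3c2088bb2)
  (PL.C (nat_lit 0x843a72c) (nat_lit 0x29045fba90f08) (nat_lit 0x0) gp0_2_35))))))))))))))))))))

noncomputable def gp0_2_33 : PL :=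
  (PL.C (nat_lit 0x7a0ff46) (nat_lit 0x0) (nat_lit 0x13db6610b134a0)
  (PL.C (nat_lit 0x7a20eae) (nat_lit 0x4774904a75bc96) (nat_lit 0x0)
  (PL.C (nat_lit 0x7a4d0ba) (nat_lit 0x2aab369b7d5292) (nat_lit 0x0)
  (PL.C (nat_lit 0x7a55861) (nat_lit 0x0) (nat_lit 0x51d99c6096c6b)
  (PL.C (nat_lit 0x7a8ab04) (nat_lit 0x74ef9db8ed15e) (nat_lit 0x0)
  (PL.C (nat_lit 0x7acf314) (nat_lit 0x0) (nat_lit 0x17395380069a71)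
  (PL.C (nat_lit 0x7ae394c) (nat_lit 0x0) (nat_lit 0x5269224bbda8a)
  (PL.C (nat_lit 0x7b50fde) (nat_lit 0xc9d6eb1a71f0b) (nat_lit 0x0)
  (PL.C (nat_lit 0x7b631d7) (nat_lit 0x0) (nat_lit 0x51d99dbc2ee79)
  (PL.C (nat_lit 0x7b9b38b) (nat_lit 0x0) (nat_lit 0x7b609a4b9a2850)
  (PL.C (nat_lit 0x7baeb74) (nat_lit 0x2a108747ca6eef) (nat_lit 0x0)
  (PL.C (nat_lit 0x7bddd4c) (nat_lit 0x0) (nat_lit 0x1739536403da7e)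
  (PL.C (nat_lit 0x7c29e79) (nat_lit 0x42911f4636e388) (nat_lit 0x0)
  (PL.C (nat_lit 0x7cab9dd) (nat_lit 0x0) (nat_lit 0x4f1e5c3b6edf50)
  (PL.C (nat_lit 0x7caff42) (nat_lit 0x61b9c9194f5d46) (nat_lit 0x0)
  (PL.C (nat_lit 0x7d540dd) (nat_lit 0x0) (nat_lit 0x3d6e4467df3e64)
  (PL.C (nat_lit 0x7d99b83) (nat_lit 0x0) (nat_lit 0x5056f258eddc6d)
  (PL.C (nat_lit 0x7dae925) (nat_lit 0x56aa13eccc10f) (nat_lit 0x0)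
  (PL.C (nat_lit 0x7dda773) (nat_lit 0x0) (nat_lit 0x6c18ca5b6c04b)
  (PL.C (nat_lit 0x7e04a67) (nat_lit 0x0) (nat_lit 0x5b65ebfbb24862) gp0_2_34))))))))))))))))))))

noncomputable def gp0_2_32 : PL :=
  (PL.C (nat_lit 0x739e80a) (nat_lit 0x0) (nat_lit 0x2d9dc4e5c0d7b)
  (PL.C (nat_lit 0x73c67ee) (nat_lit 0xfd708b333096d3) (nat_lit 0x0)
  (PL.C (nat_lit 0x73f3a31) (nat_lit 0x0) (nat_lit 0x9f7f94e05ebad)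
  (PL.C (nat_lit 0x7436ab1) (nat_lit 0x60d0bd92b964f3) (nat_lit 0x0)
  (PL.C (nat_lit 0x744c23a) (nat_lit 0x0) (nat_lit 0x32520534cc0bd0)
  (PL.C (nat_lit 0x7466f54) (nat_lit 0x0) (nat_lit 0x184e6257e0a211)
  (PL.C (nat_lit 0x7470d4f) (nat_lit 0x0) (nat_lit 0x1b9d782d3429ada)
  (PL.C (nat_lit 0x74b34df) (nat_lit 0x0) (nat_lit 0x647afe076ade76)
  (PL.C (nat_lit 0x74c5a22) (nat_lit 0x0) (nat_lit 0x2be6e7003205b1)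
  (PL.C (nat_lit 0x74f73e5) (nat_lit 0x0) (nat_lit 0x3d6e445df2c240)
  (PL.C (nat_lit 0x75275ec) (nat_lit 0x3c8a4b92e3bdde) (nat_lit 0x0)
  (PL.C (nat_lit 0x75716f9) (nat_lit 0x0) (nat_lit 0x1b9d782e97f9384)
  (PL.C (nat_lit 0x76b677b) (nat_lit 0x0) (nat_lit 0x22b42bed33a22f)
  (PL.C (nat_lit 0x772bd96) (nat_lit 0x46cae57dc7105) (nat_lit 0x0)
  (PL.C (nat_lit 0x7751073) (nat_lit 0xbffe92cfa9a65e) (nat_lit 0x0)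
  (PL.C (nat_lit 0x78757c4) (nat_lit 0x108e1cad0198ef) (nat_lit 0x0)
  (PL.C (nat_lit 0x792f9d2) (nat_lit 0x0) (nat_lit 0x6819a89c5f6265)
  (PL.C (nat_lit 0x797ef1c) (nat_lit 0x57ec44820f196c) (nat_lit 0x0)
  (PL.C (nat_lit 0x799f7df) (nat_lit 0x1d00c0d02d8c60) (nat_lit 0x0)
  (PL.C (nat_lit 0x79c8423) (nat_lit 0x4c67de6223ad94) (nat_lit 0x0) gp0_2_33))))))))))))))))))))

noncomputable def gp0_2_31 : PL :=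
  (PL.C (nat_lit 0x6bf8eab) (nat_lit 0x0) (nat_lit 0xe9b2cc4ec89178)
  (PL.C (nat_lit 0x6c00336) (nat_lit 0x368546aab38d06) (nat_lit 0x0)
  (PL.C (nat_lit 0x6c9f193) (nat_lit 0x0) (nat_lit 0x2f01a1fd24247b)
  (PL.C (nat_lit 0x6ce6dbd) (nat_lit 0x1326b13ff67b137) (nat_lit 0x0)
  (PL.C (nat_lit 0x6cff3b7) (nat_lit 0x56aa138d167dc) (nat_lit 0x0)
  (PL.C (nat_lit 0x6dbc34e) (nat_lit 0x7ced1c0015a7d) (nat_lit 0x0)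
  (PL.C (nat_lit 0x6e14407) (nat_lit 0x0) (nat_lit 0x26328b484820a5)
  (PL.C (nat_lit 0x6e52c92) (nat_lit 0x2836eb033ce697) (nat_lit 0x0)
  (PL.C (nat_lit 0x6e71992) (nat_lit 0x0) (nat_lit 0x51070294847c7)
  (PL.C (nat_lit 0x6f9f0dc) (nat_lit 0x2a10874cda7ede) (nat_lit 0x0)
  (PL.C (nat_lit 0x704ea55) (nat_lit 0x42911f488b12e6) (nat_lit 0x0)
  (PL.C (nat_lit 0x70d99b5) (nat_lit 0x1670349ac79bd7) (nat_lit 0x0)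
  (PL.C (nat_lit 0x7168062) (nat_lit 0x0) (nat_lit 0xd9847ce2e083f)
  (PL.C (nat_lit 0x72111de) (nat_lit 0x14aca1e38d5a01) (nat_lit 0x0)
  (PL.C (nat_lit 0x723eb83) (nat_lit 0x3ca14a65df2bd3) (nat_lit 0x0)
  (PL.C (nat_lit 0x7261f0e) (nat_lit 0x0) (nat_lit 0xf1a3d76f5c6fe)
  (PL.C (nat_lit 0x7292893) (nat_lit 0x0) (nat_lit 0x559cd78b6b99f9)
  (PL.C (nat_lit 0x72b8f07) (nat_lit 0x0) (nat_lit 0x103184a0a7fba5)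
  (PL.C (nat_lit 0x732233d) (nat_lit 0x0) (nat_lit 0x7aca17d860954)
  (PL.C (nat_lit 0x734e4df) (nat_lit 0x3a1d13e74677a9) (nat_lit 0x0) gp0_2_32))))))))))))))))))))

noncomputable def gp0_2_30 : PL :=
  (PL.C (nat_lit 0x676051a) (nat_lit 0x0) (nat_lit 0xd483e5a34ac8f)
  (PL.C (nat_lit 0x682d6c2) (nat_lit 0x0) (nat_lit 0x5d033d4db6b63e)
  (PL.C (nat_lit 0x6857cf7) (nat_lit 0x0) (nat_lit 0x4f1e5c35ecc293)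
  (PL.C (nat_lit 0x6868444) (nat_lit 0x29045f0ece057) (nat_lit 0x0)
  (PL.C (nat_lit 0x6893607) (nat_lit 0x0) (nat_lit 0x3be814a0520e)
  (PL.C (nat_lit 0x68b84b6) (nat_lit 0x105b17940a6f682) (nat_lit 0x0)
  (PL.C (nat_lit 0x68ecb4a) (nat_lit 0x4ba4c479b6837b) (nat_lit 0x0)
  (PL.C (nat_lit 0x68fcdbe) (nat_lit 0x0) (nat_lit 0x3be35b14db1a7)
  (PL.C (nat_lit 0x69312d2) (nat_lit 0xb02994b36dabc7) (nat_lit 0x0)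
  (PL.C (nat_lit 0x693dc11) (nat_lit 0x0) (nat_lit 0x7b609a5b7bcebc)
  (PL.C (nat_lit 0x6964b22) (nat_lit 0x0) (nat_lit 0x11a52f0a854e5b)
  (PL.C (nat_lit 0x6965d2e) (nat_lit 0x0) (nat_lit 0x3f95d5cadc9cb9)
  (PL.C (nat_lit 0x697a49f) (nat_lit 0x0) (nat_lit 0xc3ae5fc268c85)
  (PL.C (nat_lit 0x699f11a) (nat_lit 0x0) (nat_lit 0x926a5cc347f2f6)
  (PL.C (nat_lit 0x69cbf11) (nat_lit 0x6fad79c147014c) (nat_lit 0x0)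
  (PL.C (nat_lit 0x69d3ee6) (nat_lit 0x0) (nat_lit 0x550c24224f8d44)
  (PL.C (nat_lit 0x6a61043) (nat_lit 0x1274a2f63f79a1f) (nat_lit 0x0)
  (PL.C (nat_lit 0x6af8d12) (nat_lit 0x0) (nat_lit 0x3fb5b9f35438dc6)
  (PL.C (nat_lit 0x6b744c6) (nat_lit 0x73ca967955c055) (nat_lit 0x0)
  (PL.C (nat_lit 0x6be48de) (nat_lit 0xc4128fcc10e382) (nat_lit 0x0) gp0_2_31))))))))))))))))))))

noncomputable def gp0_2_29 : PL :=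
  (PL.C (nat_lit 0x61ba76a) (nat_lit 0x477490480b2aff) (nat_lit 0x0)
  (PL.C (nat_lit 0x61bb826) (nat_lit 0x0) (nat_lit 0x926a5cc9c9fcab)
  (PL.C (nat_lit 0x61e0f22) (nat_lit 0x0) (nat_lit 0x215b81b271a9e9)
  (PL.C (nat_lit 0x624b4cb) (nat_lit 0x0) (nat_lit 0x3c1a1dcbfb0cb)
  (PL.C (nat_lit 0x625431e) (nat_lit 0x127a225c655c52) (nat_lit 0x0)
  (PL.C (nat_lit 0x628369b) (nat_lit 0x1670346e95b76b) (nat_lit 0x0)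
  (PL.C (nat_lit 0x6292e2a) (nat_lit 0x105b1793e14f3f3) (nat_lit 0x0)
  (PL.C (nat_lit 0x6323e9d) (nat_lit 0x23a961b9d93fdf5) (nat_lit 0x0)
  (PL.C (nat_lit 0x633131a) (nat_lit 0x13c4f3121c19a3a) (nat_lit 0x0)
  (PL.C (nat_lit 0x636453a) (nat_lit 0xa72a56b51bc2d) (nat_lit 0x0)
  (PL.C (nat_lit 0x63a3b1e) (nat_lit 0x0) (nat_lit 0x14d81f20e794ad4)
  (PL.C (nat_lit 0x63c9dca) (nat_lit 0x68efc67c844c6) (nat_lit 0x0)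
  (PL.C (nat_lit 0x640bc96) (nat_lit 0xa32d1d2996448) (nat_lit 0x0)
  (PL.C (nat_lit 0x64364a7) (nat_lit 0x0) (nat_lit 0x22b42b56859cca)
  (PL.C (nat_lit 0x64acf8a) (nat_lit 0x39d8fedf12187) (nat_lit 0x0)
  (PL.C (nat_lit 0x64f666c) (nat_lit 0x24120ffc96dec0) (nat_lit 0x0)
  (PL.C (nat_lit 0x652016d) (nat_lit 0x0) (nat_lit 0x3be814604047)
  (PL.C (nat_lit 0x65756f6) (nat_lit 0x0) (nat_lit 0x18b8779075cefb)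
  (PL.C (nat_lit 0x672cae6) (nat_lit 0x49399ccce0a9d) (nat_lit 0x0)
  (PL.C (nat_lit 0x6741d1d) (nat_lit 0x0) (nat_lit 0x14ac151e3bac78) gp0_2_30))))))))))))))))))))

noncomputable def gp0_2_28 : PL :=
  (PL.C (nat_lit 0x5b140d6) (nat_lit 0x0) (nat_lit 0x16da2e0940b1dbe)
  (PL.C (nat_lit 0x5c02ad3) (nat_lit 0x0) (nat_lit 0x1da92915730b8)
  (PL.C (nat_lit 0x5c101e2) (nat_lit 0x40be35b23b53577) (nat_lit 0x0)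
  (PL.C (nat_lit 0x5c21847) (nat_lit 0x0) (nat_lit 0x1acf1542a90838)
  (PL.C (nat_lit 0x5c87fb2) (nat_lit 0x0) (nat_lit 0x6819a890bf1905)
  (PL.C (nat_lit 0x5d2563c) (nat_lit 0x28ce52df6e70a) (nat_lit 0x0)
  (PL.C (nat_lit 0x5d82c8f) (nat_lit 0x0) (nat_lit 0x329c12de6160a7)
  (PL.C (nat_lit 0x5deeba5) (nat_lit 0x0) (nat_lit 0x1fe83874281683)
  (PL.C (nat_lit 0x5e4c264) (nat_lit 0x0) (nat_lit 0x4cba685d26246b)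
  (PL.C (nat_lit 0x5e50db9) (nat_lit 0x0) (nat_lit 0x1e16272e08ba37)
  (PL.C (nat_lit 0x5e85666) (nat_lit 0x1836d52f250adf) (nat_lit 0x0)
  (PL.C (nat_lit 0x5f07e9c) (nat_lit 0x0) (nat_lit 0x18f339c17d80cb)
  (PL.C (nat_lit 0x5f25b0a) (nat_lit 0x0) (nat_lit 0x3252051af01275)
  (PL.C (nat_lit 0x5f43549) (nat_lit 0x0) (nat_lit 0x647afe21fe0649)
  (PL.C (nat_lit 0x5f554f6) (nat_lit 0x3204c7f258b2a7) (nat_lit 0x0)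
  (PL.C (nat_lit 0x5fa2134) (nat_lit 0x3c8a4b970e0054) (nat_lit 0x0)
  (PL.C (nat_lit 0x600d0e2) (nat_lit 0x2c26e9fdeb9a25) (nat_lit 0x0)
  (PL.C (nat_lit 0x6052fb4) (nat_lit 0x28ce531f29111) (nat_lit 0x0)
  (PL.C (nat_lit 0x613182e) (nat_lit 0x0) (nat_lit 0x7b314779f49220)
  (PL.C (nat_lit 0x61b00de) (nat_lit 0x0) (nat_lit 0x14c12fd7192999) gp0_2_29))))))))))))))))))))

noncomputable def gp0_2_27 : PL :=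
  (PL.C (nat_lit 0x555e12a) (nat_lit 0x0) (nat_lit 0x1d7cac1b9e0bdfa)
  (PL.C (nat_lit 0x5596ffa) (nat_lit 0xa72a57574f2ea) (nat_lit 0x0)
  (PL.C (nat_lit 0x55a7aae) (nat_lit 0x0) (nat_lit 0x64ee13defc6985)
  (PL.C (nat_lit 0x55f4d2c) (nat_lit 0x185a4e6d183801) (nat_lit 0x0)
  (PL.C (nat_lit 0x5601266) (nat_lit 0x5899214f4d7800) (nat_lit 0x0)
  (PL.C (nat_lit 0x56247a6) (nat_lit 0xc9d6eb9b66c57) (nat_lit 0x0)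
  (PL.C (nat_lit 0x573b3d3) (nat_lit 0x0) (nat_lit 0x5b6207863482c)
  (PL.C (nat_lit 0x57e8eed) (nat_lit 0x0) (nat_lit 0x1acf1548c8a0a7)
  (PL.C (nat_lit 0x586660e) (nat_lit 0x0) (nat_lit 0x2be6e70de3ced1)
  (PL.C (nat_lit 0x58929f2) (nat_lit 0x28750215f00e63) (nat_lit 0x0)
  (PL.C (nat_lit 0x58e2f0a) (nat_lit 0x601fb96fd029a) (nat_lit 0x0)
  (PL.C (nat_lit 0x591b7b1) (nat_lit 0xbffe92e8aa3fa1) (nat_lit 0x0)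
  (PL.C (nat_lit 0x5929302) (nat_lit 0xfd708b23f980f9) (nat_lit 0x0)
  (PL.C (nat_lit 0x5955cfe) (nat_lit 0x0) (nat_lit 0x6fe9a88fd96d6)
  (PL.C (nat_lit 0x59a6d26) (nat_lit 0x601fb97da3a76) (nat_lit 0x0)
  (PL.C (nat_lit 0x59cce8f) (nat_lit 0x0) (nat_lit 0x5b65ec04ee538c)
  (PL.C (nat_lit 0x59f73d4) (nat_lit 0x0) (nat_lit 0x5269233de5ef2)
  (PL.C (nat_lit 0x5a1ff26) (nat_lit 0x0) (nat_lit 0x14d81f1fa88346b)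
  (PL.C (nat_lit 0x5a27d9e) (nat_lit 0x12b1c3cf59b665) (nat_lit 0x0)
  (PL.C (nat_lit 0x5a4d0da) (nat_lit 0x4420aa5d3c2db0) (nat_lit 0x0) gp0_2_28))))))))))))))))))))

noncomputable def gp0_2_26 : PL :=
  (PL.C (nat_lit 0x51302c2) (nat_lit 0x0) (nat_lit 0x18b87797477038)
  (PL.C (nat_lit 0x515ff84) (nat_lit 0x0) (nat_lit 0x141aa2c71abe0a)
  (PL.C (nat_lit 0x516b474) (nat_lit 0xcc130b7625e8d) (nat_lit 0x0)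
  (PL.C (nat_lit 0x518e596) (nat_lit 0x24df83ed4d16ab) (nat_lit 0x0)
  (PL.C (nat_lit 0x524213a) (nat_lit 0x24df83ddb721c4) (nat_lit 0x0)
  (PL.C (nat_lit 0x52677b2) (nat_lit 0x0) (nat_lit 0x508db30a9b7ae1)
  (PL.C (nat_lit 0x52c69a6) (nat_lit 0x0) (nat_lit 0x6d4b3295fd115)
  (PL.C (nat_lit 0x531d13e) (nat_lit 0xf9581666905da) (nat_lit 0x0)
  (PL.C (nat_lit 0x53396c7) (nat_lit 0x91f59900e7f7d) (nat_lit 0x0)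
  (PL.C (nat_lit 0x5363139) (nat_lit 0x1dd15c22c40ee5) (nat_lit 0x0)
  (PL.C (nat_lit 0x53bbd02) (nat_lit 0xa32d258dfb346) (nat_lit 0x0)
  (PL.C (nat_lit 0x53c9b6e) (nat_lit 0x0) (nat_lit 0x63f3d38ccbac9)
  (PL.C (nat_lit 0x53e6fa2) (nat_lit 0xa4ef1fcb1bd79c) (nat_lit 0x0)
  (PL.C (nat_lit 0x540319a) (nat_lit 0x0) (nat_lit 0x2e8cfbefce450d)
  (PL.C (nat_lit 0x5454372) (nat_lit 0x12b1c3cdea35d7) (nat_lit 0x0)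
  (PL.C (nat_lit 0x547456e) (nat_lit 0x13c4f30c273d0d8) (nat_lit 0x0)
  (PL.C (nat_lit 0x54f67d1) (nat_lit 0x39af14c38251f) (nat_lit 0x0)
  (PL.C (nat_lit 0x55039ad) (nat_lit 0x0) (nat_lit 0x624c078384da1b)
  (PL.C (nat_lit 0x55453ca) (nat_lit 0x14eb3ddae006b) (nat_lit 0x0)
  (PL.C (nat_lit 0x554afd4) (nat_lit 0x0) (nat_lit 0x2d230ca7dc6d54) gp0_2_27))))))))))))))))))))

noncomputable def gp0_2_25 : PL :=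
  (PL.C (nat_lit 0x4c29d02) (nat_lit 0x62f0ad98ff356d) (nat_lit 0x0)
  (PL.C (nat_lit 0x4c414b4) (nat_lit 0x0) (nat_lit 0x7afd75880eab6)
  (PL.C (nat_lit 0x4cc177e) (nat_lit 0x0) (nat_lit 0xa2cd5a8233bc8)
  (PL.C (nat_lit 0x4cc7f8b) (nat_lit 0x0) (nat_lit 0x9f7f95f9bc5d0)
  (PL.C (nat_lit 0x4cdedea) (nat_lit 0x39d8fde9bdcec) (nat_lit 0x0)
  (PL.C (nat_lit 0x4d1455c) (nat_lit 0x0) (nat_lit 0x184e6262fd210c)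
  (PL.C (nat_lit 0x4d2eff4) (nat_lit 0xa8ffb171fe879a) (nat_lit 0x0)
  (PL.C (nat_lit 0x4d4d176) (nat_lit 0x2957b9bf3d1e65) (nat_lit 0x0)
  (PL.C (nat_lit 0x4d79c76) (nat_lit 0x1c15f6ef1e2c89) (nat_lit 0x0)
  (PL.C (nat_lit 0x4d8817c) (nat_lit 0x350290dfa84c69) (nat_lit 0x0)
  (PL.C (nat_lit 0x4dccdea) (nat_lit 0x0) (nat_lit 0x15c4be92169e0d)
  (PL.C (nat_lit 0x4dd916c) (nat_lit 0x1f7221125680d9) (nat_lit 0x0)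
  (PL.C (nat_lit 0x4ed4cc1) (nat_lit 0x280882c6d88b0c) (nat_lit 0x0)
  (PL.C (nat_lit 0x4ef010b) (nat_lit 0x3637629a7c463d) (nat_lit 0x0)
  (PL.C (nat_lit 0x4f8b5a2) (nat_lit 0x0) (nat_lit 0x4e644280ff5d8f)
  (PL.C (nat_lit 0x4f9e05d) (nat_lit 0x0) (nat_lit 0x3ff840f09143b1)
  (PL.C (nat_lit 0x507a5e7) (nat_lit 0x0) (nat_lit 0x160a3626d1e2a8)
  (PL.C (nat_lit 0x50ca68c) (nat_lit 0x0) (nat_lit 0x8cb0c7c75f2e37)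
  (PL.C (nat_lit 0x5114fea) (nat_lit 0x0) (nat_lit 0x65b030c930504)
  (PL.C (nat_lit 0x511a9d9) (nat_lit 0x0) (nat_lit 0xa581110b0be292) gp0_2_26))))))))))))))))))))

noncomputable def gp0_2_24 : PL :=
  (PL.C (nat_lit 0x47b8cd5) (nat_lit 0x39af148309dd7) (nat_lit 0x0)
  (PL.C (nat_lit 0x47dbedd) (nat_lit 0x148e554302055b) (nat_lit 0x0)
  (PL.C (nat_lit 0x47fb472) (nat_lit 0x5c6260584781b0) (nat_lit 0x0)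
  (PL.C (nat_lit 0x4800224) (nat_lit 0x0) (nat_lit 0x2d230c9d23a273)
  (PL.C (nat_lit 0x4803ba9) (nat_lit 0x363762ad328801) (nat_lit 0x0)
  (PL.C (nat_lit 0x481ddcf) (nat_lit 0x130070b177ad7) (nat_lit 0x0)
  (PL.C (nat_lit 0x4899e7e) (nat_lit 0xa77cdb6b2922cd) (nat_lit 0x0)
  (PL.C (nat_lit 0x48aa27a) (nat_lit 0x0) (nat_lit 0x63f3d407c0b89)
  (PL.C (nat_lit 0x48cb08b) (nat_lit 0xfa0f4a0f87b580) (nat_lit 0x0)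
  (PL.C (nat_lit 0x48ef775) (nat_lit 0x1326b1409c35b19) (nat_lit 0x0)
  (PL.C (nat_lit 0x4915105) (nat_lit 0x3c397367d2d98f) (nat_lit 0x0)
  (PL.C (nat_lit 0x4928234) (nat_lit 0x12e678621969be) (nat_lit 0x0)
  (PL.C (nat_lit 0x4943a87) (nat_lit 0x60d0bdaf680490) (nat_lit 0x0)
  (PL.C (nat_lit 0x4962d5a) (nat_lit 0x0) (nat_lit 0x12104b8ca2942f4)
  (PL.C (nat_lit 0x4990323) (nat_lit 0x0) (nat_lit 0xe9b2cc569a0f81)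
  (PL.C (nat_lit 0x49a110c) (nat_lit 0x22f8335f2fc2ff) (nat_lit 0x0)
  (PL.C (nat_lit 0x4adf18e) (nat_lit 0x0) (nat_lit 0x6d4b31f6e6dc4)
  (PL.C (nat_lit 0x4b3bbce) (nat_lit 0x0) (nat_lit 0x87edf86c3dba5)
  (PL.C (nat_lit 0x4b9aaec) (nat_lit 0x0) (nat_lit 0xfbb9a31166203)
  (PL.C (nat_lit 0x4c0b694) (nat_lit 0x185a4e5a2874c1) (nat_lit 0x0) gp0_2_25))))))))))))))))))))

noncomputable def gp0_2_23 : PL :=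
  (PL.C (nat_lit 0x42b2864) (nat_lit 0x30550f01ceeeea) (nat_lit 0x0)
  (PL.C (nat_lit 0x436ab9e) (nat_lit 0x0) (nat_lit 0x44914192139d7)
  (PL.C (nat_lit 0x43a18a9) (nat_lit 0x0) (nat_lit 0x7254162ac5c8e)
  (PL.C (nat_lit 0x43c4679) (nat_lit 0x0) (nat_lit 0x2fd4854fe556ec)
  (PL.C (nat_lit 0x43ef9c3) (nat_lit 0xfa0f4a2f654456) (nat_lit 0x0)
  (PL.C (nat_lit 0x4409a21) (nat_lit 0x5750184570ea4c) (nat_lit 0x0)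
  (PL.C (nat_lit 0x443694f) (nat_lit 0x0) (nat_lit 0x72541351e599f)
  (PL.C (nat_lit 0x44c8744) (nat_lit 0x0) (nat_lit 0x18f339c35fc4e1)
  (PL.C (nat_lit 0x44d68be) (nat_lit 0x0) (nat_lit 0x5107028180101)
  (PL.C (nat_lit 0x44f35dd) (nat_lit 0x49abc220eea967) (nat_lit 0x0)
  (PL.C (nat_lit 0x458fdfa) (nat_lit 0xf95815e4c774f) (nat_lit 0x0)
  (PL.C (nat_lit 0x45b795a) (nat_lit 0x0) (nat_lit 0x449141a34faab)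
  (PL.C (nat_lit 0x45d0324) (nat_lit 0xcabd61ac01571c) (nat_lit 0x0)
  (PL.C (nat_lit 0x4620c8c) (nat_lit 0x0) (nat_lit 0x1d0d2df388542f)
  (PL.C (nat_lit 0x46292b6) (nat_lit 0x0) (nat_lit 0x508db30de1d69e)
  (PL.C (nat_lit 0x465186a) (nat_lit 0x0) (nat_lit 0x318e1880196a9c)
  (PL.C (nat_lit 0x4658a57) (nat_lit 0x0) (nat_lit 0x7aca178a9fbf1)
  (PL.C (nat_lit 0x466a0bc) (nat_lit 0x0) (nat_lit 0x52c2c632ea20aa)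
  (PL.C (nat_lit 0x46eb582) (nat_lit 0xb22c405d75960b) (nat_lit 0x0)
  (PL.C (nat_lit 0x476661f) (nat_lit 0x0) (nat_lit 0x3ff840eb8c17d3) gp0_2_24))))))))))))))))))))

noncomputable def gp0_2_22 : PL :=
  (PL.C (nat_lit 0x3ed6b3d) (nat_lit 0x0) (nat_lit 0x5ba0756fd37ebd)
  (PL.C (nat_lit 0x3ee0926) (nat_lit 0x0) (nat_lit 0x5dff9d2e08b8d9)
  (PL.C (nat_lit 0x3f6e75c) (nat_lit 0x350290f641e1a2) (nat_lit 0x0)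
  (PL.C (nat_lit 0x3f82386) (nat_lit 0x0) (nat_lit 0x15c4bef0eb146a)
  (PL.C (nat_lit 0x40df841) (nat_lit 0x0) (nat_lit 0x1fe8387e23f47b)
  (PL.C (nat_lit 0x40e66db) (nat_lit 0x0) (nat_lit 0xa58110e165865f)
  (PL.C (nat_lit 0x4120094) (nat_lit 0x0) (nat_lit 0x4cba687567265b)
  (PL.C (nat_lit 0x4126f9c) (nat_lit 0xcc130a942dc5c) (nat_lit 0x0)
  (PL.C (nat_lit 0x4127ac4) (nat_lit 0x0) (nat_lit 0x52c2c6318727a7)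
  (PL.C (nat_lit 0x413aed3) (nat_lit 0x13007091e19ab) (nat_lit 0x0)
  (PL.C (nat_lit 0x417d43d) (nat_lit 0x51f47922c7c5dd) (nat_lit 0x0)
  (PL.C (nat_lit 0x41acf12) (nat_lit 0x0) (nat_lit 0x87edfd1e8c6e8)
  (PL.C (nat_lit 0x41b741c) (nat_lit 0xcabd61aeb818ff) (nat_lit 0x0)
  (PL.C (nat_lit 0x41df483) (nat_lit 0x0) (nat_lit 0x2670b396d47d76a)
  (PL.C (nat_lit 0x4220cbc) (nat_lit 0x111f1e50f9a3d37) (nat_lit 0x0)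
  (PL.C (nat_lit 0x422b521) (nat_lit 0x0) (nat_lit 0x443fcaabb0e4a9)
  (PL.C (nat_lit 0x4244aab) (nat_lit 0x0) (nat_lit 0x431890ca3bf165)
  (PL.C (nat_lit 0x426d214) (nat_lit 0x0) (nat_lit 0x1aab5ca86af4ab2)
  (PL.C (nat_lit 0x4270725) (nat_lit 0xe2af390bfc2dc9) (nat_lit 0x0)
  (PL.C (nat_lit 0x429af23) (nat_lit 0x3ca14a6ab925b5) (nat_lit 0x0) gp0_2_23))))))))))))))))))))

noncomputable def gp0_2_21 : PL :=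
  (PL.C (nat_lit 0x3b8955d) (nat_lit 0x0) (nat_lit 0x3eff254dd5266)
  (PL.C (nat_lit 0x3bc48c4) (nat_lit 0x4a0e321768ea0) (nat_lit 0x0)
  (PL.C (nat_lit 0x3bd9c5d) (nat_lit 0x0) (nat_lit 0x443fcab2f0fee0)
  (PL.C (nat_lit 0x3bddf0a) (nat_lit 0x0) (nat_lit 0x2e8cfc0cc2694a)
  (PL.C (nat_lit 0x3c154c4) (nat_lit 0x0) (nat_lit 0x1aab5ca86fa9882)
  (PL.C (nat_lit 0x3c1a914) (nat_lit 0x0) (nat_lit 0x24bcaa9782292)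
  (PL.C (nat_lit 0x3c45cdb) (nat_lit 0x0) (nat_lit 0x1e162728ec3eb6)
  (PL.C (nat_lit 0x3ccaa0d) (nat_lit 0x0) (nat_lit 0x329c12e3988d17)
  (PL.C (nat_lit 0x3d571e2) (nat_lit 0x0) (nat_lit 0x1216f037fb4fda)
  (PL.C (nat_lit 0x3d6bada) (nat_lit 0x0) (nat_lit 0x12829f5c8583ba)
  (PL.C (nat_lit 0x3d72df7) (nat_lit 0x0) (nat_lit 0x160a36186ee6bf)
  (PL.C (nat_lit 0x3d91a09) (nat_lit 0x0) (nat_lit 0x7b41b9567df380)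
  (PL.C (nat_lit 0x3daffcc) (nat_lit 0x0) (nat_lit 0x8cb0c7c64527ea)
  (PL.C (nat_lit 0x3db15d9) (nat_lit 0x0) (nat_lit 0x7e4d06c0997d93)
  (PL.C (nat_lit 0x3dc9755) (nat_lit 0x0) (nat_lit 0x1c5787aeed5b7)
  (PL.C (nat_lit 0x3e194ef) (nat_lit 0x0) (nat_lit 0x81162b661263fd)
  (PL.C (nat_lit 0x3e5730a) (nat_lit 0x3ddb6692b8354e) (nat_lit 0x0)
  (PL.C (nat_lit 0x3e6f7f3) (nat_lit 0x0) (nat_lit 0x5ee739f1c54045)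
  (PL.C (nat_lit 0x3e9f26e) (nat_lit 0x0) (nat_lit 0x2bc233d9eeee1f)
  (PL.C (nat_lit 0x3ec52bd) (nat_lit 0x0) (nat_lit 0x26328baa64e9a9) gp0_2_22))))))))))))))))))))

noncomputable def gp0_2_20 : PL :=
  (PL.C (nat_lit 0x379b3cf) (nat_lit 0xe2af3942cd70ff) (nat_lit 0x0)
  (PL.C (nat_lit 0x37d28ac) (nat_lit 0x30550ec97107eb) (nat_lit 0x0)
  (PL.C (nat_lit 0x37dbcf4) (nat_lit 0x0) (nat_lit 0x14cd1045219119)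
  (PL.C (nat_lit 0x37f2dfb) (nat_lit 0x0) (nat_lit 0x1de4e133f181b)
  (PL.C (nat_lit 0x3815c79) (nat_lit 0x0) (nat_lit 0x2670b3928c2d50e)
  (PL.C (nat_lit 0x383824c) (nat_lit 0x0) (nat_lit 0x24bcab2b0fc6d)
  (PL.C (nat_lit 0x384d8f4) (nat_lit 0x111f1e4b0b1a8b2) (nat_lit 0x0)
  (PL.C (nat_lit 0x384f5b5) (nat_lit 0xa8b0c5026b85) (nat_lit 0x0)
  (PL.C (nat_lit 0x38a4536) (nat_lit 0x27c059683059d2) (nat_lit 0x0)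
  (PL.C (nat_lit 0x38ad11e) (nat_lit 0x0) (nat_lit 0x253ae9834eba39)
  (PL.C (nat_lit 0x38b0ffb) (nat_lit 0x1854f9bd2125caa) (nat_lit 0x0)
  (PL.C (nat_lit 0x38e961c) (nat_lit 0x0) (nat_lit 0x2c870d953b6dc41)
  (PL.C (nat_lit 0x3a277e2) (nat_lit 0x221525cbbee614) (nat_lit 0x0)
  (PL.C (nat_lit 0x3a34811) (nat_lit 0x49abc1d89ae328) (nat_lit 0x0)
  (PL.C (nat_lit 0x3a9b49e) (nat_lit 0x0) (nat_lit 0x12829f4e3adb4e)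
  (PL.C (nat_lit 0x3aeeeb4) (nat_lit 0x1f72210aefce23) (nat_lit 0x0)
  (PL.C (nat_lit 0x3b0740b) (nat_lit 0x0) (nat_lit 0x3eff25360edac)
  (PL.C (nat_lit 0x3b41f5c) (nat_lit 0x4a0e321053343) (nat_lit 0x0)
  (PL.C (nat_lit 0x3b67a76) (nat_lit 0x0) (nat_lit 0x4e64428093daee)
  (PL.C (nat_lit 0x3b70cac) (nat_lit 0xa8ffb17198e161) (nat_lit 0x0) gp0_2_21))))))))))))))))))))

noncomputable def gp0_2_19 : PL :=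
  (PL.C (nat_lit 0x310acc2) (nat_lit 0x5c626057c1b106) (nat_lit 0x0)
  (PL.C (nat_lit 0x318b499) (nat_lit 0x0) (nat_lit 0xac6399a350210)
  (PL.C (nat_lit 0x3227d34) (nat_lit 0x0) (nat_lit 0x14580d57708d3f)
  (PL.C (nat_lit 0x32c68ac) (nat_lit 0x6aa795c300d372) (nat_lit 0x0)
  (PL.C (nat_lit 0x332ba54) (nat_lit 0x0) (nat_lit 0x343afed4d96bdd)
  (PL.C (nat_lit 0x332ffb2) (nat_lit 0x2957b9dc715929) (nat_lit 0x0)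
  (PL.C (nat_lit 0x334ba3b) (nat_lit 0x4d640a4194b532) (nat_lit 0x0)
  (PL.C (nat_lit 0x3388ba4) (nat_lit 0x0) (nat_lit 0x1ad28a96b5a6f1)
  (PL.C (nat_lit 0x33dde9c) (nat_lit 0x4a663a2934fd0c) (nat_lit 0x0)
  (PL.C (nat_lit 0x348ddd6) (nat_lit 0x0) (nat_lit 0xe375e82c27ff5)
  (PL.C (nat_lit 0x34a00b2) (nat_lit 0x55ae8b48ae53) (nat_lit 0x0)
  (PL.C (nat_lit 0x34b48ff) (nat_lit 0x2127d707125f50) (nat_lit 0x0)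
  (PL.C (nat_lit 0x350baf1) (nat_lit 0x4d640a6542db82) (nat_lit 0x0)
  (PL.C (nat_lit 0x351403e) (nat_lit 0x0) (nat_lit 0x435855349ccca4)
  (PL.C (nat_lit 0x35a6e9a) (nat_lit 0x0) (nat_lit 0x12200c501857e34)
  (PL.C (nat_lit 0x3611be6) (nat_lit 0x11e1ec3c4ef6a38) (nat_lit 0x0)
  (PL.C (nat_lit 0x365ee64) (nat_lit 0xb810835f87c689) (nat_lit 0x0)
  (PL.C (nat_lit 0x36d6b7c) (nat_lit 0xb810836be17fa2) (nat_lit 0x0)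
  (PL.C (nat_lit 0x377b9da) (nat_lit 0x0) (nat_lit 0xd232d56fe4389)
  (PL.C (nat_lit 0x3797626) (nat_lit 0x1f44e6700fb951) (nat_lit 0x0) gp0_2_20))))))))))))))))))))

noncomputable def gp0_2_18 : PL :=
  (PL.C (nat_lit 0x2cf1d14) (nat_lit 0x0) (nat_lit 0x107ae264d4244)
  (PL.C (nat_lit 0x2d165c6) (nat_lit 0x2ca4fc2fc71b1) (nat_lit 0x0)
  (PL.C (nat_lit 0x2d2d9a6) (nat_lit 0x0) (nat_lit 0x5cd09af7da207c)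
  (PL.C (nat_lit 0x2d4a682) (nat_lit 0x1718a2ccc791f94) (nat_lit 0x0)
  (PL.C (nat_lit 0x2d5bc16) (nat_lit 0x0) (nat_lit 0x5d033d2fec2785)
  (PL.C (nat_lit 0x2d79b8a) (nat_lit 0x2ca4fc2fc71b1) (nat_lit 0x0)
  (PL.C (nat_lit 0x2de45d4) (nat_lit 0x22f8335793d429) (nat_lit 0x0)
  (PL.C (nat_lit 0x2df7503) (nat_lit 0xa8b0c48276f5) (nat_lit 0x0)
  (PL.C (nat_lit 0x2df793e) (nat_lit 0x173a6d3067f5c22) (nat_lit 0x0)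
  (PL.C (nat_lit 0x2e7a63c) (nat_lit 0x0) (nat_lit 0x107ae26b32538)
  (PL.C (nat_lit 0x2ee5c3a) (nat_lit 0x0) (nat_lit 0xa2cd5a9557b62)
  (PL.C (nat_lit 0x2f9996a) (nat_lit 0x0) (nat_lit 0x4358553e6b65c0)
  (PL.C (nat_lit 0x2fd088e) (nat_lit 0x27c059613f002c) (nat_lit 0x0)
  (PL.C (nat_lit 0x2fe7f3e) (nat_lit 0x0) (nat_lit 0x3be35b42a3db7)
  (PL.C (nat_lit 0x30027c6) (nat_lit 0x55ae9abceb5c) (nat_lit 0x0)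
  (PL.C (nat_lit 0x3013e8a) (nat_lit 0x0) (nat_lit 0x3a5bf1b234fb07)
  (PL.C (nat_lit 0x30716fc) (nat_lit 0x0) (nat_lit 0x14cd1056a71ece)
  (PL.C (nat_lit 0x30875b2) (nat_lit 0x1718a2d02e1af1f) (nat_lit 0x0)
  (PL.C (nat_lit 0x309fa4e) (nat_lit 0xa77cdb70eaf168) (nat_lit 0x0)
  (PL.C (nat_lit 0x30d7c5a) (nat_lit 0x1c15f6f930fdde) (nat_lit 0x0) gp0_2_19))))))))))))))))))))

noncomputable def gp0_2_17 : PL :=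
  (PL.C (nat_lit 0x298f75c) (nat_lit 0x28926ba57a4777) (nat_lit 0x0)
  (PL.C (nat_lit 0x299faa2) (nat_lit 0x0) (nat_lit 0x68b0a9d4ae1bd1)
  (PL.C (nat_lit 0x29bf6f4) (nat_lit 0x1fd988ccde9597) (nat_lit 0x0)
  (PL.C (nat_lit 0x29d8c7e) (nat_lit 0x0) (nat_lit 0x12104b8e1065dac)
  (PL.C (nat_lit 0x29e477e) (nat_lit 0x0) (nat_lit 0x11816bc7f5afe24)
  (PL.C (nat_lit 0x29eb0c4) (nat_lit 0x0) (nat_lit 0x524b3a9b421644)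
  (PL.C (nat_lit 0x2a56d04) (nat_lit 0x4a6639bed25c10) (nat_lit 0x0)
  (PL.C (nat_lit 0x2b3fad6) (nat_lit 0x0) (nat_lit 0x2bc233f1220483)
  (PL.C (nat_lit 0x2b44492) (nat_lit 0x11e1ec3dc48ccba) (nat_lit 0x0)
  (PL.C (nat_lit 0x2b4d267) (nat_lit 0x0) (nat_lit 0x5ba075370df72f)
  (PL.C (nat_lit 0x2b55955) (nat_lit 0x0) (nat_lit 0x1a01a0a756595)
  (PL.C (nat_lit 0x2b7c9e2) (nat_lit 0x0) (nat_lit 0x3a5bf1b48a3d37)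
  (PL.C (nat_lit 0x2ba8d7e) (nat_lit 0x11c55ef7f41a8) (nat_lit 0x0)
  (PL.C (nat_lit 0x2babdeb) (nat_lit 0x0) (nat_lit 0xd429c762057aff)
  (PL.C (nat_lit 0x2bc8a0c) (nat_lit 0x0) (nat_lit 0x14580db045288c)
  (PL.C (nat_lit 0x2bea302) (nat_lit 0xeb0a331d85d5c) (nat_lit 0x0)
  (PL.C (nat_lit 0x2c1ce16) (nat_lit 0x0) (nat_lit 0x18c05bb1daa503)
  (PL.C (nat_lit 0x2c2dc72) (nat_lit 0x0) (nat_lit 0x64ee13db32f222)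
  (PL.C (nat_lit 0x2c4af6e) (nat_lit 0x0) (nat_lit 0x38967f8811993)
  (PL.C (nat_lit 0x2c674c2) (nat_lit 0x62f0ad8ceead3b) (nat_lit 0x0) gp0_2_18))))))))))))))))))))

noncomputable def gp0_2_16 : PL :=
  (PL.C (nat_lit 0x26a48c3) (nat_lit 0x6e919af5351cc2) (nat_lit 0x0)
  (PL.C (nat_lit 0x26c4fec) (nat_lit 0x79c7940475e604) (nat_lit 0x0)
  (PL.C (nat_lit 0x26cdab6) (nat_lit 0x173a6d2710eb7f2) (nat_lit 0x0)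
  (PL.C (nat_lit 0x26d500d) (nat_lit 0x30f196eeffc90) (nat_lit 0x0)
  (PL.C (nat_lit 0x2712314) (nat_lit 0x0) (nat_lit 0x25370b55a53adf)
  (PL.C (nat_lit 0x2722533) (nat_lit 0x0) (nat_lit 0x78ef1b2bcc619)
  (PL.C (nat_lit 0x275a2b2) (nat_lit 0x2a3f26b296ec3a) (nat_lit 0x0)
  (PL.C (nat_lit 0x27814e8) (nat_lit 0x0) (nat_lit 0x38386613ad6e)
  (PL.C (nat_lit 0x27b0e3e) (nat_lit 0x2a3f26b18d55a6) (nat_lit 0x0)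
  (PL.C (nat_lit 0x27d85d8) (nat_lit 0x0) (nat_lit 0x38386613ad6e)
  (PL.C (nat_lit 0x27e683e) (nat_lit 0x0) (nat_lit 0x18c05ba80cbc35)
  (PL.C (nat_lit 0x282e892) (nat_lit 0x0) (nat_lit 0x5dff9d249c96d4)
  (PL.C (nat_lit 0x288715e) (nat_lit 0x3ddb668f697756) (nat_lit 0x0)
  (PL.C (nat_lit 0x28e4bec) (nat_lit 0x0) (nat_lit 0x23a75e8d695c33)
  (PL.C (nat_lit 0x28f273c) (nat_lit 0x0) (nat_lit 0x25370b6d616961)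
  (PL.C (nat_lit 0x28f73fa) (nat_lit 0x0) (nat_lit 0x12200c4de02de12)
  (PL.C (nat_lit 0x290bc06) (nat_lit 0x589921534c138b) (nat_lit 0x0)
  (PL.C (nat_lit 0x2930f8e) (nat_lit 0x0) (nat_lit 0x6bbb473170fe9b)
  (PL.C (nat_lit 0x2957fc1) (nat_lit 0x2127d6d206c682) (nat_lit 0x0)
  (PL.C (nat_lit 0x296634a) (nat_lit 0x14eb3e65edc9a) (nat_lit 0x0) gp0_2_17))))))))))))))))))))

noncomputable def gp0_2_15 : PL :=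
  (PL.C (nat_lit 0x23155cc) (nat_lit 0x0) (nat_lit 0x3e341de2e9b067)
  (PL.C (nat_lit 0x23230aa) (nat_lit 0xac769950087d82) (nat_lit 0x0)
  (PL.C (nat_lit 0x235d1f6) (nat_lit 0x0) (nat_lit 0xb35aeed31c7dab)
  (PL.C (nat_lit 0x2362ad4) (nat_lit 0x0) (nat_lit 0x32cd594890628)
  (PL.C (nat_lit 0x23783a9) (nat_lit 0x0) (nat_lit 0xd32207f6439c6f)
  (PL.C (nat_lit 0x23a12c3) (nat_lit 0x0) (nat_lit 0xf70efa208ea354)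
  (PL.C (nat_lit 0x23c49bc) (nat_lit 0x108d2382a166ce) (nat_lit 0x0)
  (PL.C (nat_lit 0x23c664f) (nat_lit 0x673fc4459f7821) (nat_lit 0x0)
  (PL.C (nat_lit 0x240bd44) (nat_lit 0xb11cbb8712f240) (nat_lit 0x0)
  (PL.C (nat_lit 0x2494b69) (nat_lit 0x787ecb5981e925) (nat_lit 0x0)
  (PL.C (nat_lit 0x24dd8d7) (nat_lit 0x0) (nat_lit 0x12d0d1b4c1020e6)
  (PL.C (nat_lit 0x24fd13c) (nat_lit 0x0) (nat_lit 0x1eb50d655c06bd)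
  (PL.C (nat_lit 0x250c599) (nat_lit 0x0) (nat_lit 0x1de4e13a190ef)
  (PL.C (nat_lit 0x251228a) (nat_lit 0x0) (nat_lit 0x389676a3b699d)
  (PL.C (nat_lit 0x254c952) (nat_lit 0x0) (nat_lit 0xb68527c9af16b)
  (PL.C (nat_lit 0x2563da6) (nat_lit 0xeb0a3a0f5cacd) (nat_lit 0x0)
  (PL.C (nat_lit 0x258a3ce) (nat_lit 0x26b230c9dcf232) (nat_lit 0x0)
  (PL.C (nat_lit 0x25c2e24) (nat_lit 0x0) (nat_lit 0x3627c754a13db6)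
  (PL.C (nat_lit 0x25cb552) (nat_lit 0xae9fd2591d68ea) (nat_lit 0x0)
  (PL.C (nat_lit 0x25d4489) (nat_lit 0xe28dcfe8c0f88) (nat_lit 0x0) gp0_2_16))))))))))))))))))))

noncomputable def gp0_2_14 : PL :=
  (PL.C (nat_lit 0x1efc428) (nat_lit 0x0) (nat_lit 0xf45cf3d3b2c5)
  (PL.C (nat_lit 0x1f43d7c) (nat_lit 0x0) (nat_lit 0x343afedac0d806)
  (PL.C (nat_lit 0x1f50c09) (nat_lit 0x0) (nat_lit 0x78ef1b2408c8a)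
  (PL.C (nat_lit 0x1f57593) (nat_lit 0x0) (nat_lit 0xb7d7d088216c)
  (PL.C (nat_lit 0x1fbbb9c) (nat_lit 0x0) (nat_lit 0x32cd59b53d444)
  (PL.C (nat_lit 0x1fc8d41) (nat_lit 0x5b23661f198a8) (nat_lit 0x0)
  (PL.C (nat_lit 0x1fe05b4) (nat_lit 0x0) (nat_lit 0x3627c76bc1bf73)
  (PL.C (nat_lit 0x1fed84b) (nat_lit 0x3be0f05c33ced) (nat_lit 0x0)
  (PL.C (nat_lit 0x2001a84) (nat_lit 0x0) (nat_lit 0x3e341de82a9939)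
  (PL.C (nat_lit 0x200d45c) (nat_lit 0x0) (nat_lit 0x2a1677372d75df)
  (PL.C (nat_lit 0x200edf7) (nat_lit 0x0) (nat_lit 0x84ce8b2dd219)
  (PL.C (nat_lit 0x203a2f7) (nat_lit 0x12dd0b790cecaad) (nat_lit 0x0)
  (PL.C (nat_lit 0x205a3cc) (nat_lit 0x0) (nat_lit 0x5b6500b151b24b)
  (PL.C (nat_lit 0x2107866) (nat_lit 0x0) (nat_lit 0x11614630faf3ce)
  (PL.C (nat_lit 0x2116785) (nat_lit 0x787ecb3e5c6063) (nat_lit 0x0)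
  (PL.C (nat_lit 0x221ffcc) (nat_lit 0x0) (nat_lit 0x1ad28aae65c4b4)
  (PL.C (nat_lit 0x22326d2) (nat_lit 0x0) (nat_lit 0xb35aeefc823637)
  (PL.C (nat_lit 0x22e6885) (nat_lit 0x0) (nat_lit 0x70c532f1b639e7)
  (PL.C (nat_lit 0x22f23b1) (nat_lit 0x0) (nat_lit 0x12d0d1af9a093b8)
  (PL.C (nat_lit 0x23093e4) (nat_lit 0x0) (nat_lit 0x322fb74f78d858) gp0_2_15))))))))))))))))))))

noncomputable def gp0_2_13 : PL :=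
  (PL.C (nat_lit 0x1cd830c) (nat_lit 0xb11cbb67b2f695) (nat_lit 0x0)
  (PL.C (nat_lit 0x1cde19a) (nat_lit 0x0) (nat_lit 0x11816bc202ed357)
  (PL.C (nat_lit 0x1ce105f) (nat_lit 0x3be0f057b288d) (nat_lit 0x0)
  (PL.C (nat_lit 0x1ce3b8e) (nat_lit 0x0) (nat_lit 0x2183545db1d6809)
  (PL.C (nat_lit 0x1cfdbec) (nat_lit 0x0) (nat_lit 0x2a167738ec01ba)
  (PL.C (nat_lit 0x1d1d3f2) (nat_lit 0x86573207599ad5) (nat_lit 0x0)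
  (PL.C (nat_lit 0x1d46cac) (nat_lit 0x1bbd92d9b7f2893) (nat_lit 0x0)
  (PL.C (nat_lit 0x1d68964) (nat_lit 0x8e46336a36e726) (nat_lit 0x0)
  (PL.C (nat_lit 0x1d80035) (nat_lit 0x0) (nat_lit 0xd429c7bcf7d6be)
  (PL.C (nat_lit 0x1d874f4) (nat_lit 0x0) (nat_lit 0x82080065a98b29)
  (PL.C (nat_lit 0x1d9a32c) (nat_lit 0x6aa795a6171a22) (nat_lit 0x0)
  (PL.C (nat_lit 0x1da66bd) (nat_lit 0x30f196e82504d) (nat_lit 0x0)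
  (PL.C (nat_lit 0x1df120d) (nat_lit 0x0) (nat_lit 0x145fe3b9f1f670)
  (PL.C (nat_lit 0x1df68b8) (nat_lit 0x0) (nat_lit 0xf45cf3d3b2c5)
  (PL.C (nat_lit 0x1e13b0f) (nat_lit 0x12dd0b7a2733421) (nat_lit 0x0)
  (PL.C (nat_lit 0x1e319ac) (nat_lit 0x0) (nat_lit 0x5b6500e676ab86)
  (PL.C (nat_lit 0x1e331cb) (nat_lit 0x0) (nat_lit 0x145fe3d3761c04)
  (PL.C (nat_lit 0x1e86b11) (nat_lit 0x3753844ae018d6) (nat_lit 0x0)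
  (PL.C (nat_lit 0x1ea4e02) (nat_lit 0x26b230cad5d730) (nat_lit 0x0)
  (PL.C (nat_lit 0x1ea50d4) (nat_lit 0x71b1ddf9e2442f) (nat_lit 0x0) gp0_2_14))))))))))))))))))))

noncomputable def gp0_2_12 : PL :=
  (PL.C (nat_lit 0x19e355e) (nat_lit 0x0) (nat_lit 0x773313148c70e5)
  (PL.C (nat_lit 0x1a16e22) (nat_lit 0x52f43b5dac2d1e) (nat_lit 0x0)
  (PL.C (nat_lit 0x1a3c1cc) (nat_lit 0x23c8853883be1f) (nat_lit 0x0)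
  (PL.C (nat_lit 0x1a75ed4) (nat_lit 0x23c885387f5d8d) (nat_lit 0x0)
  (PL.C (nat_lit 0x1a99ad4) (nat_lit 0x8e463372909727) (nat_lit 0x0)
  (PL.C (nat_lit 0x1ac9b0c) (nat_lit 0x0) (nat_lit 0x524b3a9f5cd4f5)
  (PL.C (nat_lit 0x1ad4c05) (nat_lit 0x0) (nat_lit 0x84ce8ac2d9c0)
  (PL.C (nat_lit 0x1b04b94) (nat_lit 0x28926b96beae38) (nat_lit 0x0)
  (PL.C (nat_lit 0x1b0fe13) (nat_lit 0x5b2365f49ca48) (nat_lit 0x0)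
  (PL.C (nat_lit 0x1b34713) (nat_lit 0x0) (nat_lit 0xf70efa146cf179)
  (PL.C (nat_lit 0x1b4f7fc) (nat_lit 0x108d2345baa511) (nat_lit 0x0)
  (PL.C (nat_lit 0x1b5ac69) (nat_lit 0x0) (nat_lit 0x1ba5bbeaea32d0)
  (PL.C (nat_lit 0x1b75fb4) (nat_lit 0x0) (nat_lit 0x624070e6f91f37)
  (PL.C (nat_lit 0x1b8ffd6) (nat_lit 0xac7699578bd8ab) (nat_lit 0x0)
  (PL.C (nat_lit 0x1bbfc6c) (nat_lit 0x6d7bc37bf6b782) (nat_lit 0x0)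
  (PL.C (nat_lit 0x1beda54) (nat_lit 0x69f01f9d2e3f6b) (nat_lit 0x0)
  (PL.C (nat_lit 0x1bee659) (nat_lit 0x0) (nat_lit 0x1a01a17874d9e)
  (PL.C (nat_lit 0x1c6139d) (nat_lit 0x0) (nat_lit 0x77841505741d1)
  (PL.C (nat_lit 0x1c90233) (nat_lit 0xf104216206fbf) (nat_lit 0x0)
  (PL.C (nat_lit 0x1cd51e4) (nat_lit 0x1fd988b6910087) (nat_lit 0x0) gp0_2_13))))))))))))))))))))

noncomputable def gp0_2_11 : PL :=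
  (PL.C (nat_lit 0x1750ed5) (nat_lit 0xf10420c62b0e6) (nat_lit 0x0)
  (PL.C (nat_lit 0x176cb1c) (nat_lit 0x0) (nat_lit 0x366349ffe70a76)
  (PL.C (nat_lit 0x17936a4) (nat_lit 0x0) (nat_lit 0xbad3232f7f5ea5)
  (PL.C (nat_lit 0x17a57c6) (nat_lit 0xdfad99583631d8) (nat_lit 0x0)
  (PL.C (nat_lit 0x17c0c82) (nat_lit 0x0) (nat_lit 0x2db8f06509bf792)
  (PL.C (nat_lit 0x17d998a) (nat_lit 0x27a87218d8761e1) (nat_lit 0x0)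
  (PL.C (nat_lit 0x1863246) (nat_lit 0x5a27b6ca2cddfe) (nat_lit 0x0)
  (PL.C (nat_lit 0x1893b3a) (nat_lit 0x111a0c946bc262c) (nat_lit 0x0)
  (PL.C (nat_lit 0x18b2e66) (nat_lit 0x0) (nat_lit 0xb68527b0f2ec3)
  (PL.C (nat_lit 0x18b6c5c) (nat_lit 0x0) (nat_lit 0x82080085ba4037)
  (PL.C (nat_lit 0x18ddb8c) (nat_lit 0x0) (nat_lit 0xc653dd5ee407e)
  (PL.C (nat_lit 0x18ed3c4) (nat_lit 0x1bbd92d75c62e43) (nat_lit 0x0)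
  (PL.C (nat_lit 0x1906d34) (nat_lit 0x2851130e65a111) (nat_lit 0x0)
  (PL.C (nat_lit 0x193238c) (nat_lit 0x0) (nat_lit 0x1d0e0075097dac4)
  (PL.C (nat_lit 0x1938306) (nat_lit 0x29638627517543) (nat_lit 0x0)
  (PL.C (nat_lit 0x1946901) (nat_lit 0x673fc428ce0ceb) (nat_lit 0x0)
  (PL.C (nat_lit 0x197e437) (nat_lit 0x0) (nat_lit 0xd3220800084457)
  (PL.C (nat_lit 0x19c3082) (nat_lit 0x0) (nat_lit 0x27deea881e93fd)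
  (PL.C (nat_lit 0x19c4d15) (nat_lit 0x375383feac94e9) (nat_lit 0x0)
  (PL.C (nat_lit 0x19de724) (nat_lit 0x71b1de13754b23) (nat_lit 0x0) gp0_2_12))))))))))))))))))))

noncomputable def gp0_2_10 : PL :=
  (PL.C (nat_lit 0x13b289b) (nat_lit 0x0) (nat_lit 0x79066807cb54e)
  (PL.C (nat_lit 0x13c447e) (nat_lit 0x0) (nat_lit 0x77331313c2d467)
  (PL.C (nat_lit 0x13d9c25) (nat_lit 0x0) (nat_lit 0x9ab146eecfa64)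
  (PL.C (nat_lit 0x13f615e) (nat_lit 0x0) (nat_lit 0x493d4dc4a0739b8)
  (PL.C (nat_lit 0x140d20a) (nat_lit 0x2bf12e596910b95) (nat_lit 0x0)
  (PL.C (nat_lit 0x1422132) (nat_lit 0x0) (nat_lit 0x493d4dcb7a67bbf)
  (PL.C (nat_lit 0x1459cb6) (nat_lit 0x1329da43d4f3014) (nat_lit 0x0)
  (PL.C (nat_lit 0x146deac) (nat_lit 0x2851130f3d505e) (nat_lit 0x0)
  (PL.C (nat_lit 0x14e0806) (nat_lit 0x52f43b5de65b4a) (nat_lit 0x0)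
  (PL.C (nat_lit 0x14e4e62) (nat_lit 0x114026d9c53eff6) (nat_lit 0x0)
  (PL.C (nat_lit 0x15308d6) (nat_lit 0xf4c4fd18e7dbc6) (nat_lit 0x0)
  (PL.C (nat_lit 0x1549032) (nat_lit 0x411b5d1b8fd9e7) (nat_lit 0x0)
  (PL.C (nat_lit 0x155e2e8) (nat_lit 0x46ffa83c02db8) (nat_lit 0x0)
  (PL.C (nat_lit 0x155f3fa) (nat_lit 0x4be3e62372485) (nat_lit 0x0)
  (PL.C (nat_lit 0x157c1fa) (nat_lit 0x2bf12e54c57f241) (nat_lit 0x0)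
  (PL.C (nat_lit 0x1605044) (nat_lit 0x5c727b2bd4d1b) (nat_lit 0x0)
  (PL.C (nat_lit 0x160efae) (nat_lit 0x5a27b7646bff84) (nat_lit 0x0)
  (PL.C (nat_lit 0x16cc48c) (nat_lit 0x0) (nat_lit 0xbad322dd4aa158)
  (PL.C (nat_lit 0x17445ae) (nat_lit 0x0) (nat_lit 0xf62a36961f287)
  (PL.C (nat_lit 0x174c276) (nat_lit 0x111a0c997ec05af) (nat_lit 0x0) gp0_2_11))))))))))))))))))))

noncomputable def gp0_2_9 : PL :=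
  (PL.C (nat_lit 0x116496c) (nat_lit 0x35aa0117daf861) (nat_lit 0x0)
  (PL.C (nat_lit 0x117d688) (nat_lit 0x0) (nat_lit 0x88e933935daa3)
  (PL.C (nat_lit 0x118a60d) (nat_lit 0x0) (nat_lit 0x41e7480e3b488)
  (PL.C (nat_lit 0x11a3f38) (nat_lit 0x0) (nat_lit 0x88e933935daa3)
  (PL.C (nat_lit 0x11e32ae) (nat_lit 0x4be3e644ea50d) (nat_lit 0x0)
  (PL.C (nat_lit 0x120a962) (nat_lit 0xf4c4fd1b69f796) (nat_lit 0x0)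
  (PL.C (nat_lit 0x1222f62) (nat_lit 0x0) (nat_lit 0x2db8f0642681637)
  (PL.C (nat_lit 0x123c846) (nat_lit 0x0) (nat_lit 0x1a967a8035a26d0)
  (PL.C (nat_lit 0x124ea78) (nat_lit 0x15c5efe3ac82e) (nat_lit 0x0)
  (PL.C (nat_lit 0x125ffe4) (nat_lit 0x0) (nat_lit 0x366349ef4907d4)
  (PL.C (nat_lit 0x129eee6) (nat_lit 0x0) (nat_lit 0x2183546039e4148)
  (PL.C (nat_lit 0x12cae6f) (nat_lit 0x0) (nat_lit 0x44e71e5c56f19a)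
  (PL.C (nat_lit 0x12eb7be) (nat_lit 0x0) (nat_lit 0x1d1add70bf82fc)
  (PL.C (nat_lit 0x130ac22) (nat_lit 0x0) (nat_lit 0x8330c6956467ea)
  (PL.C (nat_lit 0x133ebbc) (nat_lit 0x69f01f526ee214) (nat_lit 0x0)
  (PL.C (nat_lit 0x1340aea) (nat_lit 0x411b5d188a6a89) (nat_lit 0x0)
  (PL.C (nat_lit 0x13427b4) (nat_lit 0xbc46543a050908) (nat_lit 0x0)
  (PL.C (nat_lit 0x1353d48) (nat_lit 0x46ffa83c02db8) (nat_lit 0x0)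
  (PL.C (nat_lit 0x1368d4c) (nat_lit 0x0) (nat_lit 0xa2b7bfd8a6c18d)
  (PL.C (nat_lit 0x13aaace) (nat_lit 0x865732705b46c6) (nat_lit 0x0) gp0_2_10))))))))))))))))))))

noncomputable def gp0_2_8 : PL :=
  (PL.C (nat_lit 0xfc3a84) (nat_lit 0x3a29541f707baf) (nat_lit 0x0)
  (PL.C (nat_lit 0xfd5dac) (nat_lit 0xd0f92b5176ff61) (nat_lit 0x0)
  (PL.C (nat_lit 0xfdd26b) (nat_lit 0x0) (nat_lit 0x6599b18f1ea5f8)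
  (PL.C (nat_lit 0xfe277f) (nat_lit 0x0) (nat_lit 0x9ab149a782f9b)
  (PL.C (nat_lit 0xfe665c) (nat_lit 0x213ab485a3f6b0) (nat_lit 0x0)
  (PL.C (nat_lit 0x101f607) (nat_lit 0x0) (nat_lit 0x12e117d0f89eef9)
  (PL.C (nat_lit 0x1031fcd) (nat_lit 0xaa617976d279ff) (nat_lit 0x0)
  (PL.C (nat_lit 0x1042184) (nat_lit 0x97ffc32dd08308) (nat_lit 0x0)
  (PL.C (nat_lit 0x1042e81) (nat_lit 0x0) (nat_lit 0x2fb2c0634fbaed)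
  (PL.C (nat_lit 0x106277c) (nat_lit 0x5da7bd259e0ec5) (nat_lit 0x0)
  (PL.C (nat_lit 0x1077444) (nat_lit 0x0) (nat_lit 0xc653dd3876f16)
  (PL.C (nat_lit 0x1093d08) (nat_lit 0x4420492d30300) (nat_lit 0x0)
  (PL.C (nat_lit 0x10af378) (nat_lit 0x46b4aed1df25e) (nat_lit 0x0)
  (PL.C (nat_lit 0x10d0204) (nat_lit 0x71a29c91239ca) (nat_lit 0x0)
  (PL.C (nat_lit 0x10d7117) (nat_lit 0xff80af1a5c92) (nat_lit 0x0)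
  (PL.C (nat_lit 0x10d9b56) (nat_lit 0x27a87214a917863) (nat_lit 0x0)
  (PL.C (nat_lit 0x10fed7a) (nat_lit 0xdfad99602b40e1) (nat_lit 0x0)
  (PL.C (nat_lit 0x112de0e) (nat_lit 0x1329da4da0072e5) (nat_lit 0x0)
  (PL.C (nat_lit 0x1142394) (nat_lit 0x0) (nat_lit 0x7fc5b7fc3cda13)
  (PL.C (nat_lit 0x11640db) (nat_lit 0x0) (nat_lit 0x41e7480e3b488) gp0_2_9))))))))))))))))))))

noncomputable def gp0_2_7 : PL :=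
  (PL.C (nat_lit 0xd4eb94) (nat_lit 0x0) (nat_lit 0x2766dbb5519ff06)
  (PL.C (nat_lit 0xd5e15c) (nat_lit 0x0) (nat_lit 0x16b9626ecef80e3)
  (PL.C (nat_lit 0xd6c0cc) (nat_lit 0x0) (nat_lit 0x2766dbb6f901097)
  (PL.C (nat_lit 0xd91324) (nat_lit 0x1878db1ea7e69f1) (nat_lit 0x0)
  (PL.C (nat_lit 0xd9c263) (nat_lit 0x0) (nat_lit 0x2fb2c067641e99)
  (PL.C (nat_lit 0xd9e9c8) (nat_lit 0x46b4aed1df25e) (nat_lit 0x0)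
  (PL.C (nat_lit 0xda3eb3) (nat_lit 0x2c6b4d5e1b777) (nat_lit 0x0)
  (PL.C (nat_lit 0xdba245) (nat_lit 0x0) (nat_lit 0x12e117d376e344b)
  (PL.C (nat_lit 0xde021f) (nat_lit 0x286a911f5de1ebe) (nat_lit 0x0)
  (PL.C (nat_lit 0xdeb004) (nat_lit 0x35aa0117b2a888) (nat_lit 0x0)
  (PL.C (nat_lit 0xe205e4) (nat_lit 0x10865a34ac1d84c) (nat_lit 0x0)
  (PL.C (nat_lit 0xe30acc) (nat_lit 0x1e8b2e67e466fe) (nat_lit 0x0)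
  (PL.C (nat_lit 0xe3f7fc) (nat_lit 0x9e44aef206204) (nat_lit 0x0)
  (PL.C (nat_lit 0xe52bfc) (nat_lit 0x0) (nat_lit 0x16b962693d7b6e6)
  (PL.C (nat_lit 0xea6159) (nat_lit 0xaa61796c85dfe4) (nat_lit 0x0)
  (PL.C (nat_lit 0xeb4a74) (nat_lit 0x97ffc3a6a0b2ee) (nat_lit 0x0)
  (PL.C (nat_lit 0xf0a36b) (nat_lit 0x0) (nat_lit 0x79066a62204e2)
  (PL.C (nat_lit 0xf82e74) (nat_lit 0x422a166d5e227c) (nat_lit 0x0)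
  (PL.C (nat_lit 0xf881a4) (nat_lit 0x5da7bcedf8a958) (nat_lit 0x0)
  (PL.C (nat_lit 0xf8b48e) (nat_lit 0x0) (nat_lit 0x8330c6956467ea) gp0_2_8))))))))))))))))))))

noncomputable def gp0_2_6 : PL :=
  (PL.C (nat_lit 0xb3a0ba) (nat_lit 0x0) (nat_lit 0xaba954fcdf20d)
  (PL.C (nat_lit 0xb3bce4) (nat_lit 0x213ab447f94f67) (nat_lit 0x0)
  (PL.C (nat_lit 0xb548fc) (nat_lit 0x3a29540fad5685) (nat_lit 0x0)
  (PL.C (nat_lit 0xb73eb4) (nat_lit 0x1878db25b829cf1) (nat_lit 0x0)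
  (PL.C (nat_lit 0xb817b8) (nat_lit 0x3146c394cf2848) (nat_lit 0x0)
  (PL.C (nat_lit 0xb98092) (nat_lit 0x42d7150f0ab72) (nat_lit 0x0)
  (PL.C (nat_lit 0xb98648) (nat_lit 0xaf7b7bd7f3646) (nat_lit 0x0)
  (PL.C (nat_lit 0xbb195e) (nat_lit 0x42d7150f0ab72) (nat_lit 0x0)
  (PL.C (nat_lit 0xbecc74) (nat_lit 0x9e44aefc0b2f8) (nat_lit 0x0)
  (PL.C (nat_lit 0xc070ec) (nat_lit 0x10865a349f7ea9e) (nat_lit 0x0)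
  (PL.C (nat_lit 0xc174ec) (nat_lit 0xd0f92aff3acd3a) (nat_lit 0x0)
  (PL.C (nat_lit 0xc28584) (nat_lit 0x0) (nat_lit 0x1a5d61dd77bf2c7)
  (PL.C (nat_lit 0xc69f44) (nat_lit 0xbc4653db815238) (nat_lit 0x0)
  (PL.C (nat_lit 0xc8744a) (nat_lit 0x1259a35fb66be64) (nat_lit 0x0)
  (PL.C (nat_lit 0xcd5c9c) (nat_lit 0x1e8b2e682d61f5) (nat_lit 0x0)
  (PL.C (nat_lit 0xd1c734) (nat_lit 0x0) (nat_lit 0xa2b7bf86bab38c)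
  (PL.C (nat_lit 0xd21b12) (nat_lit 0x0) (nat_lit 0x7564fc4f79170b)
  (PL.C (nat_lit 0xd2d854) (nat_lit 0x0) (nat_lit 0x7fc5b7fa58b213)
  (PL.C (nat_lit 0xd30b51) (nat_lit 0x2c6b4d5e1b777) (nat_lit 0x0)
  (PL.C (nat_lit 0xd3bd6e) (nat_lit 0x0) (nat_lit 0xcfc30d31a384b1) gp0_2_7))))))))))))))))))))

noncomputable def gp0_2_5 : PL :=
  (PL.C (nat_lit 0x88e868) (nat_lit 0x0) (nat_lit 0x1b0cbcce56478)
  (PL.C (nat_lit 0x8c9038) (nat_lit 0x3146c394cf2848) (nat_lit 0x0)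
  (PL.C (nat_lit 0x8cb236) (nat_lit 0x0) (nat_lit 0x2d2878336e789)
  (PL.C (nat_lit 0x912c42) (nat_lit 0x10dcddb2fed5c20) (nat_lit 0x0)
  (PL.C (nat_lit 0x917f22) (nat_lit 0x0) (nat_lit 0x2d2878336e789)
  (PL.C (nat_lit 0x926c2e) (nat_lit 0x0) (nat_lit 0x1c9d6ce8d6528b4)
  (PL.C (nat_lit 0x94016a) (nat_lit 0x1521cc20b24d040) (nat_lit 0x0)
  (PL.C (nat_lit 0x947558) (nat_lit 0xaf7b7bd7f3646) (nat_lit 0x0)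
  (PL.C (nat_lit 0x96811b) (nat_lit 0x3c2994941e2ab5) (nat_lit 0x0)
  (PL.C (nat_lit 0x96ae98) (nat_lit 0x142890aed1740e) (nat_lit 0x0)
  (PL.C (nat_lit 0x975c88) (nat_lit 0x0) (nat_lit 0x1b0cbcce56478)
  (PL.C (nat_lit 0x97faa8) (nat_lit 0x0) (nat_lit 0x2e2a89ceef1f21)
  (PL.C (nat_lit 0x9c40e6) (nat_lit 0x0) (nat_lit 0x1b9c4ab1f983b9)
  (PL.C (nat_lit 0xa06cf2) (nat_lit 0x0) (nat_lit 0x7564fc4f79170b)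
  (PL.C (nat_lit 0xa936f2) (nat_lit 0x0) (nat_lit 0x92a9a51d67e835)
  (PL.C (nat_lit 0xa96faa) (nat_lit 0x0) (nat_lit 0xcfc30d31a384b1)
  (PL.C (nat_lit 0xabf95a) (nat_lit 0x0) (nat_lit 0x1c9d6ce8d6528b4)
  (PL.C (nat_lit 0xacbfde) (nat_lit 0x0) (nat_lit 0x1b9c4ab1f983b9)
  (PL.C (nat_lit 0xad7456) (nat_lit 0x10dcddb2fed5c20) (nat_lit 0x0)
  (PL.C (nat_lit 0xafa2d8) (nat_lit 0x4420492d30300) (nat_lit 0x0) gp0_2_6))))))))))))))))))))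

noncomputable def gp0_2_4 : PL :=
  (PL.C (nat_lit 0x5b1d96) (nat_lit 0x0) (nat_lit 0xb2c2b5f5a08005)
  (PL.C (nat_lit 0x5dcc24) (nat_lit 0x886756338e30f) (nat_lit 0x0)
  (PL.C (nat_lit 0x5feddf) (nat_lit 0x0) (nat_lit 0x202faffb94c180)
  (PL.C (nat_lit 0x60ff6c) (nat_lit 0x886756338e30f) (nat_lit 0x0)
  (PL.C (nat_lit 0x645612) (nat_lit 0x0) (nat_lit 0x5de109e25b720)
  (PL.C (nat_lit 0x70cf4c) (nat_lit 0x0) (nat_lit 0x2599f69d09fe7e)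
  (PL.C (nat_lit 0x74c337) (nat_lit 0x0) (nat_lit 0x11661f9672ffb)
  (PL.C (nat_lit 0x758439) (nat_lit 0x0) (nat_lit 0x202faffb94c180)
  (PL.C (nat_lit 0x77c07c) (nat_lit 0x0) (nat_lit 0x2eeb4ddfd55b2e)
  (PL.C (nat_lit 0x7b3087) (nat_lit 0x0) (nat_lit 0x38aab72e715050)
  (PL.C (nat_lit 0x7bab0c) (nat_lit 0x0) (nat_lit 0x2a96fd4b0c4aa)
  (PL.C (nat_lit 0x7c4001) (nat_lit 0x0) (nat_lit 0x38aab72e715050)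
  (PL.C (nat_lit 0x7cbb94) (nat_lit 0x0) (nat_lit 0x2a96fd4b0c4aa)
  (PL.C (nat_lit 0x7f32f8) (nat_lit 0x0) (nat_lit 0x2e2a89ceef1f21)
  (PL.C (nat_lit 0x804b48) (nat_lit 0x142890aed1740e) (nat_lit 0x0)
  (PL.C (nat_lit 0x80f259) (nat_lit 0x566949f7b887d9) (nat_lit 0x0)
  (PL.C (nat_lit 0x81ae58) (nat_lit 0x0) (nat_lit 0xdcc0853f7f7bb)
  (PL.C (nat_lit 0x85a2dc) (nat_lit 0xa987376c6fc822) (nat_lit 0x0)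
  (PL.C (nat_lit 0x8821ef) (nat_lit 0x3c2994941e2ab5) (nat_lit 0x0)
  (PL.C (nat_lit 0x88ac61) (nat_lit 0x0) (nat_lit 0x13af3d2eba7993) gp0_2_5))))))))))))))))))))

noncomputable def gp0_2_3 : PL :=
  (PL.C (nat_lit 0x3e8818) (nat_lit 0x0) (nat_lit 0x1caa016636370)
  (PL.C (nat_lit 0x3ff3ea) (nat_lit 0x0) (nat_lit 0x1affc7580c3e5)
  (PL.C (nat_lit 0x40aa48) (nat_lit 0x0) (nat_lit 0x1caa016636370)
  (PL.C (nat_lit 0x415a9d) (nat_lit 0x0) (nat_lit 0x7a6f78cb179512)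
  (PL.C (nat_lit 0x425535) (nat_lit 0x0) (nat_lit 0xc30e6bad88306c)
  (PL.C (nat_lit 0x42a1c7) (nat_lit 0x0) (nat_lit 0x2a0379795ab51e)
  (PL.C (nat_lit 0x42e40c) (nat_lit 0x4abbb55e73673a) (nat_lit 0x0)
  (PL.C (nat_lit 0x42e763) (nat_lit 0xf399e53cb6b98) (nat_lit 0x0)
  (PL.C (nat_lit 0x4d516d) (nat_lit 0x0) (nat_lit 0x11661f9672ffb)
  (PL.C (nat_lit 0x4dd77a) (nat_lit 0x0) (nat_lit 0xd161294853418)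
  (PL.C (nat_lit 0x4e5826) (nat_lit 0x0) (nat_lit 0x1affc7580c3e5)
  (PL.C (nat_lit 0x4fd5a8) (nat_lit 0x1480e5d86eac2c) (nat_lit 0x0)
  (PL.C (nat_lit 0x510a71) (nat_lit 0x66b603566a312a) (nat_lit 0x0)
  (PL.C (nat_lit 0x51abcf) (nat_lit 0x0) (nat_lit 0x7a6f78cb179512)
  (PL.C (nat_lit 0x52205a) (nat_lit 0x67982da0777e5) (nat_lit 0x0)
  (PL.C (nat_lit 0x527208) (nat_lit 0x0) (nat_lit 0x6bd5e0219da9c)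
  (PL.C (nat_lit 0x52d556) (nat_lit 0x67982da0777e5) (nat_lit 0x0)
  (PL.C (nat_lit 0x5327b8) (nat_lit 0x0) (nat_lit 0x6bd5e0219da9c)
  (PL.C (nat_lit 0x55f6e6) (nat_lit 0x0) (nat_lit 0x174f297c29e4ef)
  (PL.C (nat_lit 0x5ac14a) (nat_lit 0x0) (nat_lit 0x5de109e25b720) gp0_2_4))))))))))))))))))))

noncomputable def gp0_2_2 : PL :=
  (PL.C (nat_lit 0x2aa29c) (nat_lit 0x0) (nat_lit 0x213ae97182ca85)
  (PL.C (nat_lit 0x2b91be) (nat_lit 0x0) (nat_lit 0x1b08b3424a790f)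
  (PL.C (nat_lit 0x2c38ce) (nat_lit 0x0) (nat_lit 0x4e718a1f885b7)
  (PL.C (nat_lit 0x2c6bda) (nat_lit 0x1d076ab0045b14) (nat_lit 0x0)
  (PL.C (nat_lit 0x2c9808) (nat_lit 0x5431f7b63d7ae6) (nat_lit 0x0)
  (PL.C (nat_lit 0x2c9a42) (nat_lit 0x62af8741b01141) (nat_lit 0x0)
  (PL.C (nat_lit 0x338b9e) (nat_lit 0x0) (nat_lit 0xd161294853418)
  (PL.C (nat_lit 0x33e4fc) (nat_lit 0x0) (nat_lit 0x14d98caf26f34)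
  (PL.C (nat_lit 0x343ac4) (nat_lit 0x0) (nat_lit 0x213ae97182ca85)
  (PL.C (nat_lit 0x3606f6) (nat_lit 0x0) (nat_lit 0x5f4f8bdd83395f)
  (PL.C (nat_lit 0x36728a) (nat_lit 0x0) (nat_lit 0x1b08b3424a790f)
  (PL.C (nat_lit 0x36c03c) (nat_lit 0x0) (nat_lit 0x1974ff4cef2949)
  (PL.C (nat_lit 0x3738e4) (nat_lit 0x0) (nat_lit 0x1974ff4cef2949)
  (PL.C (nat_lit 0x37fec9) (nat_lit 0xf399e53cb6b98) (nat_lit 0x0)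
  (PL.C (nat_lit 0x387a2f) (nat_lit 0x0) (nat_lit 0xc30e6bad88306c)
  (PL.C (nat_lit 0x39167d) (nat_lit 0xea41b0a46c7edc) (nat_lit 0x0)
  (PL.C (nat_lit 0x394f44) (nat_lit 0x5b42da349abc71) (nat_lit 0x0)
  (PL.C (nat_lit 0x3c44eb) (nat_lit 0x0) (nat_lit 0x2a0379795ab51e)
  (PL.C (nat_lit 0x3c80dc) (nat_lit 0x4abbb55e73673a) (nat_lit 0x0)
  (PL.C (nat_lit 0x3de0e1) (nat_lit 0x66b603566a312a) (nat_lit 0x0) gp0_2_3))))))))))))))))))))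

noncomputable def gp0_2_1 : PL :=
  (PL.C (nat_lit 0x1c6c68) (nat_lit 0x0) (nat_lit 0x3298fbf529e3d6)
  (PL.C (nat_lit 0x1d0bd4) (nat_lit 0x0) (nat_lit 0x7e506b0245d00b)
  (PL.C (nat_lit 0x1d7b34) (nat_lit 0x0) (nat_lit 0xb17af5b35d9765)
  (PL.C (nat_lit 0x1d9d3c) (nat_lit 0x0) (nat_lit 0x7075d9621e7b6c)
  (PL.C (nat_lit 0x1dbc2c) (nat_lit 0x75b0781b61890d) (nat_lit 0x0)
  (PL.C (nat_lit 0x225d14) (nat_lit 0x0) (nat_lit 0x14d98caf26f34)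
  (PL.C (nat_lit 0x2298a8) (nat_lit 0x2564bc35c72812) (nat_lit 0x0)
  (PL.C (nat_lit 0x22d1d8) (nat_lit 0x0) (nat_lit 0x3298fbf529e3d6)
  (PL.C (nat_lit 0x232503) (nat_lit 0x250e7653cd4e9) (nat_lit 0x0)
  (PL.C (nat_lit 0x2404a4) (nat_lit 0x0) (nat_lit 0x36fba9e729fecd)
  (PL.C (nat_lit 0x244c5c) (nat_lit 0x0) (nat_lit 0x7e506b0245d00b)
  (PL.C (nat_lit 0x248028) (nat_lit 0x0) (nat_lit 0x4f96ee4f68ba5e)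
  (PL.C (nat_lit 0x24d098) (nat_lit 0x0) (nat_lit 0x4f96ee4f68ba5e)
  (PL.C (nat_lit 0x255486) (nat_lit 0x62af8741b01141) (nat_lit 0x0)
  (PL.C (nat_lit 0x25a6ca) (nat_lit 0x0) (nat_lit 0x4e718a1f885b7)
  (PL.C (nat_lit 0x260efe) (nat_lit 0x0) (nat_lit 0x7995c2c4a5f776)
  (PL.C (nat_lit 0x2634d8) (nat_lit 0xa57e083ddb33f0) (nat_lit 0x0)
  (PL.C (nat_lit 0x282df2) (nat_lit 0x1d076ab0045b14) (nat_lit 0x0)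
  (PL.C (nat_lit 0x2855e8) (nat_lit 0x5431f7b63d7ae6) (nat_lit 0x0)
  (PL.C (nat_lit 0x294096) (nat_lit 0x0) (nat_lit 0x5f4f8bdd83395f) gp0_2_2))))))))))))))))))))

noncomputable def gp0_2 : PL :=
  (PL.C (nat_lit 0xa69c8) (nat_lit 0x8de927c0727bbc) (nat_lit 0x0)
  (PL.C (nat_lit 0xf9eac) (nat_lit 0x0) (nat_lit 0x72223c9c7dd72d)
  (PL.C (nat_lit 0x109758) (nat_lit 0x0) (nat_lit 0xb08f50d163210a)
  (PL.C (nat_lit 0x10bbe8) (nat_lit 0x0) (nat_lit 0x15c3cba6d2d1bbe)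
  (PL.C (nat_lit 0x10ea38) (nat_lit 0x295f89148b3a99c) (nat_lit 0x0)
  (PL.C (nat_lit 0x11db88) (nat_lit 0x0) (nat_lit 0x3e2134b4fa46e4)
  (PL.C (nat_lit 0x125598) (nat_lit 0x162662fedf7b8fe) (nat_lit 0x0)
  (PL.C (nat_lit 0x135d38) (nat_lit 0x0) (nat_lit 0x195b47346fec0e)
  (PL.C (nat_lit 0x13a778) (nat_lit 0x0) (nat_lit 0x15c3cba6d2d1bbe)
  (PL.C (nat_lit 0x13be28) (nat_lit 0x0) (nat_lit 0x3e2134b4fa46e4)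
  (PL.C (nat_lit 0x13d2c8) (nat_lit 0x0) (nat_lit 0xb08f50d163210a)
  (PL.C (nat_lit 0x16e8b8) (nat_lit 0x2564bc35c72812) (nat_lit 0x0)
  (PL.C (nat_lit 0x176e02) (nat_lit 0x0) (nat_lit 0x1f1afa8bb571ff)
  (PL.C (nat_lit 0x180318) (nat_lit 0x162662fedf7b8fe) (nat_lit 0x0)
  (PL.C (nat_lit 0x1832e8) (nat_lit 0x0) (nat_lit 0x195b47346fec0e)
  (PL.C (nat_lit 0x18e304) (nat_lit 0x75b0781b61890d) (nat_lit 0x0)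
  (PL.C (nat_lit 0x1919dc) (nat_lit 0x0) (nat_lit 0xb17af5b35d9765)
  (PL.C (nat_lit 0x195f54) (nat_lit 0x1487e0c00941f6e) (nat_lit 0x0)
  (PL.C (nat_lit 0x1ac94c) (nat_lit 0x0) (nat_lit 0x7075d9621e7b6c)
  (PL.C (nat_lit 0x1b8064) (nat_lit 0x0) (nat_lit 0x36fba9e729fecd) gp0_2_1))))))))))))))))))))

theorem chk0_2 : eqP (sm (suf (nat_lit 61) (suf (nat_lit 61) (grl (nat_lit 78) (nat_lit 33) (nat_lit 18889465931478580854784) (nat_lit 4) us0 cs0)))) gp0_2 = true := by decide +kernel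


end Pool.Agent.Work.MP_440970_an.FX.D1
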