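import Pool.Agent.Work.MP_440970_an.Bdx.B01
import Pool.Agent.Work.MP_440970_an.FX.D1.U1

/-!
# parts of the squares
-/

set_option autoImplicit false
set_option maxRecDepth 1000000

namespace Pool.Agent.Work.MP_440970_an.FX.D1

noncomputable def gp1_0_196 : PL :=
  (PL.C (nat_lit 0x70a2e43b) (nat_lit 0x0) (nat_lit 0x7c35c3245c7b)
  (PL.C (nat_lit 0x748527ef) (nat_lit 0x0) (nat_lit 0x5f922e188097f)
  (PL.C (nat_lit 0x7585ef59) (nat_lit 0x0) (nat_lit 0x1283e1ce9e8f9e)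
  (PL.C (nat_lit 0x7c870b57) (nat_lit 0x0) (nat_lit 0xccfa90eac4b1)
  (PL.C (nat_lit 0x80c32d17) (nat_lit 0xfe36c7a23029) (nat_lit 0x0)
  (PL.C (nat_lit 0xaa54ab77) (nat_lit 0x15938b0461024) (nat_lit 0x0)
  (PL.C (nat_lit 0xc79e4e29) (nat_lit 0xf4869252ee39) (nat_lit 0x0) PL.Z)))))))

noncomputable def gp1_0_195 : PL :=
  (PL.C (nat_lit 0x44d1ef93) (nat_lit 0xc87f4c1c9e9a3) (nat_lit 0x0)
  (PL.C (nat_lit 0x47208b1e) (nat_lit 0x0) (nat_lit 0x7575b60c8c0c9)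
  (PL.C (nat_lit 0x48a7bd85) (nat_lit 0x0) (nat_lit 0x10aae3fa3515a1)
  (PL.C (nat_lit 0x48b04291) (nat_lit 0x11c389353ccea2) (nat_lit 0x0)
  (PL.C (nat_lit 0x4921d1e5) (nat_lit 0x0) (nat_lit 0x2605c601b2eac)
  (PL.C (nat_lit 0x49507227) (nat_lit 0x0) (nat_lit 0x2149de9bc99539)
  (PL.C (nat_lit 0x4b1742d2) (nat_lit 0x0) (nat_lit 0x149d3c844f58c)
  (PL.C (nat_lit 0x4b67cb4e) (nat_lit 0x0) (nat_lit 0x1a10166dd7904)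
  (PL.C (nat_lit 0x4b68da93) (nat_lit 0x334feda3f3a457) (nat_lit 0x0)
  (PL.C (nat_lit 0x4e00314d) (nat_lit 0x0) (nat_lit 0x2bbdfed9a6a2)
  (PL.C (nat_lit 0x50535969) (nat_lit 0x0) (nat_lit 0x82e02d647ca0d)
  (PL.C (nat_lit 0x5304b23a) (nat_lit 0x53b493bb3d23) (nat_lit 0x0)
  (PL.C (nat_lit 0x57b8aaab) (nat_lit 0x7cb1735cb95c1) (nat_lit 0x0)
  (PL.C (nat_lit 0x58603d8d) (nat_lit 0x222861a48b8271) (nat_lit 0x0)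
  (PL.C (nat_lit 0x58a23679) (nat_lit 0x0) (nat_lit 0x34514459a135)
  (PL.C (nat_lit 0x5bb77005) (nat_lit 0x0) (nat_lit 0x5cadccf54998)
  (PL.C (nat_lit 0x636cad71) (nat_lit 0x0) (nat_lit 0x2ca9aac9820876)
  (PL.C (nat_lit 0x6447c847) (nat_lit 0x0) (nat_lit 0xa9c6fad67325c)
  (PL.C (nat_lit 0x6ab0d0ad) (nat_lit 0x0) (nat_lit 0x47ce20112c732)
  (PL.C (nat_lit 0x6ddee149) (nat_lit 0x1f73f7738c0bc9) (nat_lit 0x0) gp1_0_196))))))))))))))))))))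

noncomputable def gp1_0_194 : PL :=
  (PL.C (nat_lit 0x3721a1f3) (nat_lit 0xecea2900b7232) (nat_lit 0x0)
  (PL.C (nat_lit 0x3771f75f) (nat_lit 0x859e2c92db4d) (nat_lit 0x0)
  (PL.C (nat_lit 0x38958315) (nat_lit 0x44bfb6fce5ef4e) (nat_lit 0x0)
  (PL.C (nat_lit 0x39019ab3) (nat_lit 0x0) (nat_lit 0x2b68e63e7a6f67)
  (PL.C (nat_lit 0x392c28c7) (nat_lit 0x0) (nat_lit 0xdcbd3c277af5b)
  (PL.C (nat_lit 0x3a7b1c72) (nat_lit 0x0) (nat_lit 0xc9782ee70d23)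
  (PL.C (nat_lit 0x3b293e3b) (nat_lit 0x303b244da2390d) (nat_lit 0x0)
  (PL.C (nat_lit 0x3dd0d395) (nat_lit 0x1fc17f4374037d) (nat_lit 0x0)
  (PL.C (nat_lit 0x3e46e2cb) (nat_lit 0x0) (nat_lit 0x22b0adbc68e5b)
  (PL.C (nat_lit 0x3e66fd3b) (nat_lit 0x10ebca5eaf9969) (nat_lit 0x0)
  (PL.C (nat_lit 0x3ebdda6d) (nat_lit 0x0) (nat_lit 0x1cc5ab0dd3f40)
  (PL.C (nat_lit 0x3ed0209d) (nat_lit 0x107e02644afffd) (nat_lit 0x0)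
  (PL.C (nat_lit 0x3f06472f) (nat_lit 0x0) (nat_lit 0x1dbc96ada87459)
  (PL.C (nat_lit 0x3f481e6b) (nat_lit 0x59b10874592a1) (nat_lit 0x0)
  (PL.C (nat_lit 0x3f636d9a) (nat_lit 0x0) (nat_lit 0x10f4532e222ba)
  (PL.C (nat_lit 0x3fd83381) (nat_lit 0x23638655556a) (nat_lit 0x0)
  (PL.C (nat_lit 0x41bf580d) (nat_lit 0xac786083fc1b2) (nat_lit 0x0)
  (PL.C (nat_lit 0x42503bcb) (nat_lit 0x0) (nat_lit 0x8d2986fc856e4)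
  (PL.C (nat_lit 0x430da3a5) (nat_lit 0x211851c3a0062) (nat_lit 0x0)
  (PL.C (nat_lit 0x44bc7dd6) (nat_lit 0x1253bfb5d9430) (nat_lit 0x0) gp1_0_195))))))))))))))))))))

noncomputable def gp1_0_193 : PL :=
  (PL.C (nat_lit 0x30a3c632) (nat_lit 0x3766ffa07f0d4) (nat_lit 0x0)
  (PL.C (nat_lit 0x30a4752d) (nat_lit 0x92b6af67d6453) (nat_lit 0x0)
  (PL.C (nat_lit 0x30e04c1a) (nat_lit 0x610389b61740) (nat_lit 0x0)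
  (PL.C (nat_lit 0x31dde967) (nat_lit 0x0) (nat_lit 0xaf7d414070dd1)
  (PL.C (nat_lit 0x32453234) (nat_lit 0x0) (nat_lit 0x13d68134f0441)
  (PL.C (nat_lit 0x325056f3) (nat_lit 0x48edf794c6698) (nat_lit 0x0)
  (PL.C (nat_lit 0x326ecabd) (nat_lit 0x0) (nat_lit 0x34b9de8f34669)
  (PL.C (nat_lit 0x3332c4d5) (nat_lit 0x253a7ec600896) (nat_lit 0x0)
  (PL.C (nat_lit 0x3334481d) (nat_lit 0x0) (nat_lit 0x1bdfa7f8f56e1a)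
  (PL.C (nat_lit 0x33a51f3b) (nat_lit 0x36c27e823d753d) (nat_lit 0x0)
  (PL.C (nat_lit 0x33bc9b1f) (nat_lit 0x6731d62e8ccdb) (nat_lit 0x0)
  (PL.C (nat_lit 0x340020de) (nat_lit 0x9297334b12f9) (nat_lit 0x0)
  (PL.C (nat_lit 0x3407c77d) (nat_lit 0x2d406f2c3752d6) (nat_lit 0x0)
  (PL.C (nat_lit 0x342e9ea9) (nat_lit 0x214823897989c6) (nat_lit 0x0)
  (PL.C (nat_lit 0x344ca287) (nat_lit 0x56aec617ed4e) (nat_lit 0x0)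
  (PL.C (nat_lit 0x34bf098b) (nat_lit 0x25c10b11828641) (nat_lit 0x0)
  (PL.C (nat_lit 0x358949b3) (nat_lit 0x0) (nat_lit 0x18283d1332fa76)
  (PL.C (nat_lit 0x358ce646) (nat_lit 0x0) (nat_lit 0xe394502e671c8)
  (PL.C (nat_lit 0x35c71631) (nat_lit 0x561032768119dd) (nat_lit 0x0)
  (PL.C (nat_lit 0x35ff4475) (nat_lit 0x0) (nat_lit 0x323d2d470c7bbf) gp1_0_194))))))))))))))))))))

noncomputable def gp1_0_192 : PL :=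
  (PL.C (nat_lit 0x2a53bbf9) (nat_lit 0x0) (nat_lit 0x13e119d8708c9)
  (PL.C (nat_lit 0x2a902256) (nat_lit 0x6256df9030a1) (nat_lit 0x0)
  (PL.C (nat_lit 0x2b088b63) (nat_lit 0x3762800362af28) (nat_lit 0x0)
  (PL.C (nat_lit 0x2b40929b) (nat_lit 0xcd945053817f7) (nat_lit 0x0)
  (PL.C (nat_lit 0x2bd4e55e) (nat_lit 0x17bedb7ce7f640) (nat_lit 0x0)
  (PL.C (nat_lit 0x2c03e782) (nat_lit 0x0) (nat_lit 0x770e03754b4ec)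
  (PL.C (nat_lit 0x2c357d32) (nat_lit 0x0) (nat_lit 0x266d4252e338f0)
  (PL.C (nat_lit 0x2c567daa) (nat_lit 0xd32701fc91510) (nat_lit 0x0)
  (PL.C (nat_lit 0x2c64e6ee) (nat_lit 0x0) (nat_lit 0xf479f8fb33942)
  (PL.C (nat_lit 0x2c6586a3) (nat_lit 0x0) (nat_lit 0x5746994d131fef)
  (PL.C (nat_lit 0x2cb3c26e) (nat_lit 0xaa09ac7ca5db) (nat_lit 0x0)
  (PL.C (nat_lit 0x2d87b92b) (nat_lit 0x0) (nat_lit 0x93cdf401a3ced)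
  (PL.C (nat_lit 0x2d9f319b) (nat_lit 0x0) (nat_lit 0x6ca9bd586814b)
  (PL.C (nat_lit 0x2de14a62) (nat_lit 0x0) (nat_lit 0x26ae35ac947949)
  (PL.C (nat_lit 0x2dec0f3d) (nat_lit 0x0) (nat_lit 0x2102500641499)
  (PL.C (nat_lit 0x2e1324ab) (nat_lit 0x0) (nat_lit 0x3e776dd297809f)
  (PL.C (nat_lit 0x2f3c0d21) (nat_lit 0x0) (nat_lit 0xb67626d7cbfdc)
  (PL.C (nat_lit 0x2f964887) (nat_lit 0x0) (nat_lit 0x136bf7d8f5305e)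
  (PL.C (nat_lit 0x306fd3ae) (nat_lit 0x0) (nat_lit 0x1ea5e4abc7cfc7)
  (PL.C (nat_lit 0x307581b6) (nat_lit 0xf1db2a4359868) (nat_lit 0x0) gp1_0_193))))))))))))))))))))

noncomputable def gp1_0_191 : PL :=
  (PL.C (nat_lit 0x25967931) (nat_lit 0x0) (nat_lit 0x29f157053bc3f)
  (PL.C (nat_lit 0x25b9020e) (nat_lit 0x0) (nat_lit 0x84f0cff3d1fff9)
  (PL.C (nat_lit 0x268ff7eb) (nat_lit 0x0) (nat_lit 0x124f265530829f)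
  (PL.C (nat_lit 0x26d61d97) (nat_lit 0x0) (nat_lit 0x496d6d1faffe20)
  (PL.C (nat_lit 0x27164fd9) (nat_lit 0x153ac5c385b6e9) (nat_lit 0x0)
  (PL.C (nat_lit 0x2723d513) (nat_lit 0x1be6e0d67d669a) (nat_lit 0x0)
  (PL.C (nat_lit 0x273d831d) (nat_lit 0x0) (nat_lit 0x2f3c583f7eb2f9)
  (PL.C (nat_lit 0x27510351) (nat_lit 0x48fc20a6366701) (nat_lit 0x0)
  (PL.C (nat_lit 0x277a1615) (nat_lit 0x0) (nat_lit 0x4ec4a4672b66a1)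
  (PL.C (nat_lit 0x27df9365) (nat_lit 0x5045fbde68f60) (nat_lit 0x0)
  (PL.C (nat_lit 0x281f53ba) (nat_lit 0x0) (nat_lit 0xc23193927d53f)
  (PL.C (nat_lit 0x282bbee3) (nat_lit 0x0) (nat_lit 0x1042043ee06635)
  (PL.C (nat_lit 0x2877bef6) (nat_lit 0x0) (nat_lit 0xc258ce31e31dd)
  (PL.C (nat_lit 0x289aebd9) (nat_lit 0x4e6a9ca128923) (nat_lit 0x0)
  (PL.C (nat_lit 0x28e362e6) (nat_lit 0x0) (nat_lit 0x2ece9ded3a398f)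
  (PL.C (nat_lit 0x292eb5bf) (nat_lit 0x3952ddd268cbd) (nat_lit 0x0)
  (PL.C (nat_lit 0x2943f06f) (nat_lit 0x1bf276c2d3fb1a) (nat_lit 0x0)
  (PL.C (nat_lit 0x2947a2b1) (nat_lit 0x0) (nat_lit 0x78333e74d856)
  (PL.C (nat_lit 0x29849732) (nat_lit 0x3f2c88cc6e270e) (nat_lit 0x0)
  (PL.C (nat_lit 0x29e015be) (nat_lit 0x1a591897d31c47) (nat_lit 0x0) gp1_0_192))))))))))))))))))))

noncomputable def gp1_0_190 : PL :=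
  (PL.C (nat_lit 0x21bc3e39) (nat_lit 0x0) (nat_lit 0x9830f123c4ff5)
  (PL.C (nat_lit 0x21d287b7) (nat_lit 0x3e3e2924c29217) (nat_lit 0x0)
  (PL.C (nat_lit 0x21efb02d) (nat_lit 0x0) (nat_lit 0x2a1883e81f1c21)
  (PL.C (nat_lit 0x2221d88e) (nat_lit 0x0) (nat_lit 0x1c9d025c5c4a9)
  (PL.C (nat_lit 0x2222dabe) (nat_lit 0x869e930925241c) (nat_lit 0x0)
  (PL.C (nat_lit 0x2246eefd) (nat_lit 0x849623f398765) (nat_lit 0x0)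
  (PL.C (nat_lit 0x226e14d2) (nat_lit 0x1f93502cc51d2f) (nat_lit 0x0)
  (PL.C (nat_lit 0x22886841) (nat_lit 0x6be1f9d825948) (nat_lit 0x0)
  (PL.C (nat_lit 0x22aac094) (nat_lit 0x0) (nat_lit 0xa076ed39500)
  (PL.C (nat_lit 0x22e1497f) (nat_lit 0x5c28f5c5d377b4) (nat_lit 0x0)
  (PL.C (nat_lit 0x23392bef) (nat_lit 0x0) (nat_lit 0x573775c3a6fc0e)
  (PL.C (nat_lit 0x23670807) (nat_lit 0x0) (nat_lit 0x6053188e0eae57)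
  (PL.C (nat_lit 0x238fe5cd) (nat_lit 0x1be153a964589a) (nat_lit 0x0)
  (PL.C (nat_lit 0x23b50c81) (nat_lit 0x0) (nat_lit 0x979c023063062e)
  (PL.C (nat_lit 0x23c3b761) (nat_lit 0x0) (nat_lit 0x1cb43af2f1ff3)
  (PL.C (nat_lit 0x24c116a2) (nat_lit 0x0) (nat_lit 0x152e727caf0e5b)
  (PL.C (nat_lit 0x24f6a4ea) (nat_lit 0x535f299c49cd) (nat_lit 0x0)
  (PL.C (nat_lit 0x25002f56) (nat_lit 0x25e02e3b212b30) (nat_lit 0x0)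
  (PL.C (nat_lit 0x254458d7) (nat_lit 0x0) (nat_lit 0x5e9386a4bb213)
  (PL.C (nat_lit 0x2551b97a) (nat_lit 0x1857c670917309) (nat_lit 0x0) gp1_0_191))))))))))))))))))))

noncomputable def gp1_0_189 : PL :=
  (PL.C (nat_lit 0x1eca6a57) (nat_lit 0x0) (nat_lit 0x732c51c428772c)
  (PL.C (nat_lit 0x1ed303d7) (nat_lit 0x7e435e1a82c03) (nat_lit 0x0)
  (PL.C (nat_lit 0x1f761cc3) (nat_lit 0x4b048a5626077d) (nat_lit 0x0)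
  (PL.C (nat_lit 0x1f7d5e16) (nat_lit 0x0) (nat_lit 0x535ef81d58c1ee)
  (PL.C (nat_lit 0x2023371f) (nat_lit 0x0) (nat_lit 0x42bd0354a27bcb)
  (PL.C (nat_lit 0x202a8f59) (nat_lit 0x0) (nat_lit 0x82dad1cafc5748)
  (PL.C (nat_lit 0x205d3949) (nat_lit 0x7e45943fe16c0) (nat_lit 0x0)
  (PL.C (nat_lit 0x206d2ecc) (nat_lit 0x379cdb0af77c6) (nat_lit 0x0)
  (PL.C (nat_lit 0x20754003) (nat_lit 0x0) (nat_lit 0x6d4d82492b3b49)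
  (PL.C (nat_lit 0x2078c6f5) (nat_lit 0x181ec322896b66) (nat_lit 0x0)
  (PL.C (nat_lit 0x20a48baf) (nat_lit 0x0) (nat_lit 0x9f6a890aae50d)
  (PL.C (nat_lit 0x21066d6b) (nat_lit 0x1679d0805e34e1) (nat_lit 0x0)
  (PL.C (nat_lit 0x2109f249) (nat_lit 0x140d773885d2e0) (nat_lit 0x0)
  (PL.C (nat_lit 0x213deb0b) (nat_lit 0x4a455270bdc16) (nat_lit 0x0)
  (PL.C (nat_lit 0x213e9b9a) (nat_lit 0x2ae054ea43946) (nat_lit 0x0)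
  (PL.C (nat_lit 0x21624306) (nat_lit 0x1be12a84ccd8dd) (nat_lit 0x0)
  (PL.C (nat_lit 0x2188a181) (nat_lit 0x8bd4dec427bd9) (nat_lit 0x0)
  (PL.C (nat_lit 0x218ae4a2) (nat_lit 0x7a877142a76ea) (nat_lit 0x0)
  (PL.C (nat_lit 0x2199ead1) (nat_lit 0xbc2009f461573) (nat_lit 0x0)
  (PL.C (nat_lit 0x21af570b) (nat_lit 0xf7e09e3b71fb7e) (nat_lit 0x0) gp1_0_190))))))))))))))))))))

noncomputable def gp1_0_188 : PL :=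
  (PL.C (nat_lit 0x1cd3c539) (nat_lit 0x0) (nat_lit 0x77fca7d8dd38a4)
  (PL.C (nat_lit 0x1cd5b712) (nat_lit 0x19d2dab1ddac52) (nat_lit 0x0)
  (PL.C (nat_lit 0x1cdc2aa9) (nat_lit 0x0) (nat_lit 0x34d5b0df398a4e)
  (PL.C (nat_lit 0x1cf50bf3) (nat_lit 0x0) (nat_lit 0x7a61d911f885d3)
  (PL.C (nat_lit 0x1d052eaf) (nat_lit 0x0) (nat_lit 0xeeff4e65257e)
  (PL.C (nat_lit 0x1d134c3f) (nat_lit 0x0) (nat_lit 0x366481cbfd6da0)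
  (PL.C (nat_lit 0x1d57efac) (nat_lit 0x0) (nat_lit 0xbbde507527949)
  (PL.C (nat_lit 0x1d5bcb37) (nat_lit 0x4ce74e9d447efa) (nat_lit 0x0)
  (PL.C (nat_lit 0x1d96245b) (nat_lit 0x0) (nat_lit 0x366bd783ae56e)
  (PL.C (nat_lit 0x1d9899f4) (nat_lit 0x0) (nat_lit 0x9dcd22fa22436)
  (PL.C (nat_lit 0x1dafa5f9) (nat_lit 0x4b6c0b6a27d354) (nat_lit 0x0)
  (PL.C (nat_lit 0x1de29c63) (nat_lit 0x0) (nat_lit 0x214dc83e18d2fb)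
  (PL.C (nat_lit 0x1e247845) (nat_lit 0x0) (nat_lit 0x117a62d8aecec5)
  (PL.C (nat_lit 0x1e5a7b72) (nat_lit 0x0) (nat_lit 0x193423c7206595)
  (PL.C (nat_lit 0x1e6a2112) (nat_lit 0x0) (nat_lit 0xcb6b10d5ad38d)
  (PL.C (nat_lit 0x1e6e65ae) (nat_lit 0xddd2438fd0b9c) (nat_lit 0x0)
  (PL.C (nat_lit 0x1e77e41f) (nat_lit 0x16421bbbb7b619b) (nat_lit 0x0)
  (PL.C (nat_lit 0x1e8723e1) (nat_lit 0x0) (nat_lit 0x236059abe2ee60)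
  (PL.C (nat_lit 0x1e9d5f7e) (nat_lit 0x0) (nat_lit 0xb04890d2f9501)
  (PL.C (nat_lit 0x1eb21839) (nat_lit 0x9e10f52b448df) (nat_lit 0x0) gp1_0_189))))))))))))))))))))

noncomputable def gp1_0_187 : PL :=
  (PL.C (nat_lit 0x1b5e09a9) (nat_lit 0x2dc1ec7df3e2e9) (nat_lit 0x0)
  (PL.C (nat_lit 0x1b7277a5) (nat_lit 0x0) (nat_lit 0x7c91c7882ada70)
  (PL.C (nat_lit 0x1b74792a) (nat_lit 0x1c03bc5cd925c6) (nat_lit 0x0)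
  (PL.C (nat_lit 0x1b82a04a) (nat_lit 0x19625ea14f1f9c) (nat_lit 0x0)
  (PL.C (nat_lit 0x1b924e37) (nat_lit 0x0) (nat_lit 0x648763b913fa9a)
  (PL.C (nat_lit 0x1ba02156) (nat_lit 0x16f4746abe2f3) (nat_lit 0x0)
  (PL.C (nat_lit 0x1bb221dd) (nat_lit 0x0) (nat_lit 0x1069f187b3391ac)
  (PL.C (nat_lit 0x1bcf10d1) (nat_lit 0x0) (nat_lit 0x1a0ea50e8cdec29)
  (PL.C (nat_lit 0x1bdbb5fd) (nat_lit 0x46330fae348183) (nat_lit 0x0)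
  (PL.C (nat_lit 0x1bfbde5f) (nat_lit 0x0) (nat_lit 0x1bc5eebece6c60)
  (PL.C (nat_lit 0x1c043057) (nat_lit 0x8e1867fca7336) (nat_lit 0x0)
  (PL.C (nat_lit 0x1c104782) (nat_lit 0x0) (nat_lit 0x11246369a6c54b)
  (PL.C (nat_lit 0x1c191a5b) (nat_lit 0x646c5d1c4b0282) (nat_lit 0x0)
  (PL.C (nat_lit 0x1c37d2a6) (nat_lit 0x52b1cae222c97) (nat_lit 0x0)
  (PL.C (nat_lit 0x1c43fa45) (nat_lit 0x75298b5a5fb94) (nat_lit 0x0)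
  (PL.C (nat_lit 0x1c5d5bd5) (nat_lit 0x0) (nat_lit 0x11b5136b77afc8)
  (PL.C (nat_lit 0x1c6016e4) (nat_lit 0x0) (nat_lit 0x312ddc4e4ed71)
  (PL.C (nat_lit 0x1c66ddc1) (nat_lit 0x45dd574e26e045) (nat_lit 0x0)
  (PL.C (nat_lit 0x1c7504f7) (nat_lit 0x3a5ce4e1852f91) (nat_lit 0x0)
  (PL.C (nat_lit 0x1c9389f9) (nat_lit 0x0) (nat_lit 0x4b620997f31b) gp1_0_188))))))))))))))))))))

noncomputable def gp1_0_186 : PL :=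
  (PL.C (nat_lit 0x190f499d) (nat_lit 0x0) (nat_lit 0x257a0bceacaeb5)
  (PL.C (nat_lit 0x192ea4be) (nat_lit 0xf776d61e01336) (nat_lit 0x0)
  (PL.C (nat_lit 0x194fc923) (nat_lit 0x60176da57e5369) (nat_lit 0x0)
  (PL.C (nat_lit 0x196f1ac3) (nat_lit 0x0) (nat_lit 0x2d205c4d18089d)
  (PL.C (nat_lit 0x19b54ff2) (nat_lit 0x0) (nat_lit 0x48f3717c5ebca4)
  (PL.C (nat_lit 0x19b852db) (nat_lit 0x689878f217bdf0) (nat_lit 0x0)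
  (PL.C (nat_lit 0x19c062cf) (nat_lit 0x0) (nat_lit 0x4205e4e58c528c)
  (PL.C (nat_lit 0x19e413ba) (nat_lit 0x0) (nat_lit 0x36cf1a8efb5495)
  (PL.C (nat_lit 0x19e974dd) (nat_lit 0xfc6e680df511) (nat_lit 0x0)
  (PL.C (nat_lit 0x1a0edfe6) (nat_lit 0x0) (nat_lit 0xf18f281db292c)
  (PL.C (nat_lit 0x1a17e362) (nat_lit 0x6c3af0bd99bef) (nat_lit 0x0)
  (PL.C (nat_lit 0x1a312b67) (nat_lit 0xcaea39976da9e5) (nat_lit 0x0)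
  (PL.C (nat_lit 0x1a360236) (nat_lit 0x0) (nat_lit 0x7b0afa27033c9a)
  (PL.C (nat_lit 0x1a4d4289) (nat_lit 0x0) (nat_lit 0xa67ec020c7338)
  (PL.C (nat_lit 0x1a51640e) (nat_lit 0x1dde390b24256c) (nat_lit 0x0)
  (PL.C (nat_lit 0x1a950cee) (nat_lit 0x55e27de56629f) (nat_lit 0x0)
  (PL.C (nat_lit 0x1ad9f3d5) (nat_lit 0xc587a21e7373a8) (nat_lit 0x0)
  (PL.C (nat_lit 0x1af47911) (nat_lit 0x511bf8631df25b) (nat_lit 0x0)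
  (PL.C (nat_lit 0x1b2a252f) (nat_lit 0x0) (nat_lit 0xb1c0a9dda25dba)
  (PL.C (nat_lit 0x1b4d8347) (nat_lit 0x0) (nat_lit 0x65c7540bd55c3) gp1_0_187))))))))))))))))))))

noncomputable def gp1_0_185 : PL :=
  (PL.C (nat_lit 0x17b543de) (nat_lit 0x0) (nat_lit 0x172977789bde3c)
  (PL.C (nat_lit 0x17ba91cf) (nat_lit 0x0) (nat_lit 0x61e05ad1716150)
  (PL.C (nat_lit 0x17ce0856) (nat_lit 0x0) (nat_lit 0x98096a7d0be836)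
  (PL.C (nat_lit 0x17ceb102) (nat_lit 0x1119f4987abd5e) (nat_lit 0x0)
  (PL.C (nat_lit 0x17d7cf96) (nat_lit 0x3a9fcaa1000cd) (nat_lit 0x0)
  (PL.C (nat_lit 0x17e7900a) (nat_lit 0x0) (nat_lit 0x2808f735859437)
  (PL.C (nat_lit 0x17e7e609) (nat_lit 0xe6348fe4f9def2) (nat_lit 0x0)
  (PL.C (nat_lit 0x17f9be85) (nat_lit 0x0) (nat_lit 0x1caf4c40cd3e73)
  (PL.C (nat_lit 0x18278a69) (nat_lit 0x0) (nat_lit 0x9e332ee0ce56b)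
  (PL.C (nat_lit 0x188428a1) (nat_lit 0x0) (nat_lit 0x12b6467be4077f)
  (PL.C (nat_lit 0x188c041b) (nat_lit 0xc736df84387d7) (nat_lit 0x0)
  (PL.C (nat_lit 0x1890cbf1) (nat_lit 0x0) (nat_lit 0x21a148528d852)
  (PL.C (nat_lit 0x18a0756b) (nat_lit 0x0) (nat_lit 0x9e92e39d1a502)
  (PL.C (nat_lit 0x18b4f99f) (nat_lit 0xff628602438f9) (nat_lit 0x0)
  (PL.C (nat_lit 0x18ba2f97) (nat_lit 0x6787fd1d04e33) (nat_lit 0x0)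
  (PL.C (nat_lit 0x18cf3b21) (nat_lit 0x0) (nat_lit 0x8e7a86e1425f8f)
  (PL.C (nat_lit 0x18d83b3a) (nat_lit 0x0) (nat_lit 0x1417e99c6cf61c)
  (PL.C (nat_lit 0x18eb6c29) (nat_lit 0x2e3510230b6b1) (nat_lit 0x0)
  (PL.C (nat_lit 0x190d1729) (nat_lit 0xe1719f4cca153f) (nat_lit 0x0)
  (PL.C (nat_lit 0x190efb76) (nat_lit 0x0) (nat_lit 0x314b9529edd89) gp1_0_186))))))))))))))))))))

noncomputable def gp1_0_184 : PL :=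
  (PL.C (nat_lit 0x168c5a7a) (nat_lit 0x0) (nat_lit 0xed0bab8476f79)
  (PL.C (nat_lit 0x16aaafe9) (nat_lit 0xd17f4ae45dccb7) (nat_lit 0x0)
  (PL.C (nat_lit 0x16caa04b) (nat_lit 0x0) (nat_lit 0x532af033bfc81)
  (PL.C (nat_lit 0x16dd5067) (nat_lit 0x0) (nat_lit 0x3bbe3f11e6d696)
  (PL.C (nat_lit 0x16ec8ab3) (nat_lit 0xfa346e87f860c) (nat_lit 0x0)
  (PL.C (nat_lit 0x17059ad6) (nat_lit 0xe4a00704fcb40) (nat_lit 0x0)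
  (PL.C (nat_lit 0x171a300d) (nat_lit 0x0) (nat_lit 0x569224ba052a04)
  (PL.C (nat_lit 0x172779e3) (nat_lit 0x987cec1773dc76) (nat_lit 0x0)
  (PL.C (nat_lit 0x172bfc49) (nat_lit 0x0) (nat_lit 0x660ec6d3ec442c)
  (PL.C (nat_lit 0x173912f2) (nat_lit 0x69acd49822fc) (nat_lit 0x0)
  (PL.C (nat_lit 0x1740dbaa) (nat_lit 0x38354097366ce5) (nat_lit 0x0)
  (PL.C (nat_lit 0x17464f53) (nat_lit 0x0) (nat_lit 0xa833e485fc2b2e)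
  (PL.C (nat_lit 0x174adfd3) (nat_lit 0x0) (nat_lit 0x7d115293695cf5)
  (PL.C (nat_lit 0x1759cbf6) (nat_lit 0x1fab8b5da15ba2) (nat_lit 0x0)
  (PL.C (nat_lit 0x175a1ff7) (nat_lit 0x0) (nat_lit 0xa169e69fd8305d)
  (PL.C (nat_lit 0x1763dadd) (nat_lit 0x0) (nat_lit 0x6ea3eff7dae38)
  (PL.C (nat_lit 0x177999d5) (nat_lit 0x7caaaaa05a223e) (nat_lit 0x0)
  (PL.C (nat_lit 0x179a055a) (nat_lit 0x0) (nat_lit 0x2b46f72268c62b)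
  (PL.C (nat_lit 0x17a671f3) (nat_lit 0x0) (nat_lit 0x91e921340c47e4)
  (PL.C (nat_lit 0x17b35546) (nat_lit 0x0) (nat_lit 0x12dedce3a779f8) gp1_0_185))))))))))))))))))))

noncomputable def gp1_0_183 : PL :=
  (PL.C (nat_lit 0x1588b47a) (nat_lit 0x0) (nat_lit 0x139a186c86058f)
  (PL.C (nat_lit 0x15937b86) (nat_lit 0x0) (nat_lit 0x204738ecf6c74)
  (PL.C (nat_lit 0x159ab6ee) (nat_lit 0x0) (nat_lit 0xe921a191f4ef1)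
  (PL.C (nat_lit 0x15a166c9) (nat_lit 0x0) (nat_lit 0x5d9d932dc1057c)
  (PL.C (nat_lit 0x15a38002) (nat_lit 0x102e2ae21a9e5f) (nat_lit 0x0)
  (PL.C (nat_lit 0x15b3a73a) (nat_lit 0x289fedd6e1afa4) (nat_lit 0x0)
  (PL.C (nat_lit 0x15c307ca) (nat_lit 0x0) (nat_lit 0x1bdb4faf11f97)
  (PL.C (nat_lit 0x15ca5322) (nat_lit 0x0) (nat_lit 0xf7321e029f2eb)
  (PL.C (nat_lit 0x15dd43eb) (nat_lit 0x4f62374560b39b) (nat_lit 0x0)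
  (PL.C (nat_lit 0x160448f2) (nat_lit 0x0) (nat_lit 0x1971de96d6a5c)
  (PL.C (nat_lit 0x1606a186) (nat_lit 0x0) (nat_lit 0x7aaa0807248126)
  (PL.C (nat_lit 0x16101e55) (nat_lit 0x730737f675ee1) (nat_lit 0x0)
  (PL.C (nat_lit 0x161c3543) (nat_lit 0x0) (nat_lit 0x7eadbf54a2fffc)
  (PL.C (nat_lit 0x16299627) (nat_lit 0x0) (nat_lit 0xdd97dc26e7ade5)
  (PL.C (nat_lit 0x16418204) (nat_lit 0x14a0164f32cd9e) (nat_lit 0x0)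
  (PL.C (nat_lit 0x164670ff) (nat_lit 0x0) (nat_lit 0x120dad06016e0)
  (PL.C (nat_lit 0x165b1656) (nat_lit 0x449efd02d5205c) (nat_lit 0x0)
  (PL.C (nat_lit 0x165c986c) (nat_lit 0x0) (nat_lit 0xbe0e8592af1a4)
  (PL.C (nat_lit 0x1664974d) (nat_lit 0x1bf3742ac0d2d8) (nat_lit 0x0)
  (PL.C (nat_lit 0x1674e4b2) (nat_lit 0x11fa4696da3dd0c) (nat_lit 0x0) gp1_0_184))))))))))))))))))))

noncomputable def gp1_0_182 : PL :=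
  (PL.C (nat_lit 0x144fed6a) (nat_lit 0xb8a5b245dc6f43) (nat_lit 0x0)
  (PL.C (nat_lit 0x14501883) (nat_lit 0x0) (nat_lit 0x223da942170bb)
  (PL.C (nat_lit 0x1454b1f1) (nat_lit 0x0) (nat_lit 0x1e3184d8aa7ef)
  (PL.C (nat_lit 0x1465b636) (nat_lit 0x0) (nat_lit 0x73214fc3f9b8e)
  (PL.C (nat_lit 0x1465ff97) (nat_lit 0x1eb7d28af89e741) (nat_lit 0x0)
  (PL.C (nat_lit 0x1468ea54) (nat_lit 0x75cf2c1beae05) (nat_lit 0x0)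
  (PL.C (nat_lit 0x148cad3a) (nat_lit 0x21b202b66cc6d) (nat_lit 0x0)
  (PL.C (nat_lit 0x14bcb975) (nat_lit 0x698baf330b7c1) (nat_lit 0x0)
  (PL.C (nat_lit 0x14c3ace1) (nat_lit 0x3625d165d3b9db) (nat_lit 0x0)
  (PL.C (nat_lit 0x14e97265) (nat_lit 0x1bfa96e201a2945) (nat_lit 0x0)
  (PL.C (nat_lit 0x14f96882) (nat_lit 0x0) (nat_lit 0x12be65354a931d)
  (PL.C (nat_lit 0x15134b59) (nat_lit 0x0) (nat_lit 0x38f843c3a97f9)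
  (PL.C (nat_lit 0x15196ec9) (nat_lit 0x0) (nat_lit 0xbdb4082014652)
  (PL.C (nat_lit 0x15211f37) (nat_lit 0x0) (nat_lit 0x65bf2d3dfcf20f)
  (PL.C (nat_lit 0x152b9f53) (nat_lit 0x0) (nat_lit 0x2ee7c751c8a52e)
  (PL.C (nat_lit 0x1541bd1f) (nat_lit 0x0) (nat_lit 0x2e37ea4ec506de)
  (PL.C (nat_lit 0x154918de) (nat_lit 0x0) (nat_lit 0x4e54b095becf6)
  (PL.C (nat_lit 0x156ccf6a) (nat_lit 0x0) (nat_lit 0xf9411ef0b74d8)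
  (PL.C (nat_lit 0x1571b4e6) (nat_lit 0x0) (nat_lit 0x202b4cead2fc0c)
  (PL.C (nat_lit 0x1578630f) (nat_lit 0xab0e14bbf5a78d) (nat_lit 0x0) gp1_0_183))))))))))))))))))))

noncomputable def gp1_0_181 : PL :=
  (PL.C (nat_lit 0x13290e0b) (nat_lit 0x0) (nat_lit 0x56f3807b230ba)
  (PL.C (nat_lit 0x133aa2a9) (nat_lit 0x0) (nat_lit 0x5fa25d5dadaca)
  (PL.C (nat_lit 0x133d71c6) (nat_lit 0xe107179a84a167) (nat_lit 0x0)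
  (PL.C (nat_lit 0x1358c9ca) (nat_lit 0x0) (nat_lit 0x244238413e518)
  (PL.C (nat_lit 0x138f852d) (nat_lit 0x0) (nat_lit 0x5fdfda7f1c809)
  (PL.C (nat_lit 0x1392877a) (nat_lit 0x8bd89d4cfba244) (nat_lit 0x0)
  (PL.C (nat_lit 0x13a123d2) (nat_lit 0x6e269320ea0909) (nat_lit 0x0)
  (PL.C (nat_lit 0x13a78526) (nat_lit 0x20747efc7b9af6) (nat_lit 0x0)
  (PL.C (nat_lit 0x13b4e231) (nat_lit 0xa0919fe6dcec2) (nat_lit 0x0)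
  (PL.C (nat_lit 0x13b96d92) (nat_lit 0x84b292de9e487) (nat_lit 0x0)
  (PL.C (nat_lit 0x13c54d0d) (nat_lit 0x0) (nat_lit 0x371fea07c39bb)
  (PL.C (nat_lit 0x13ca6ea6) (nat_lit 0x0) (nat_lit 0x28317a24b81c6d)
  (PL.C (nat_lit 0x13ec6842) (nat_lit 0x17e4304b83cd5b) (nat_lit 0x0)
  (PL.C (nat_lit 0x140367d6) (nat_lit 0xe4fa76daea47d1) (nat_lit 0x0)
  (PL.C (nat_lit 0x14111c25) (nat_lit 0x4795df73f6768) (nat_lit 0x0)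
  (PL.C (nat_lit 0x1418502e) (nat_lit 0x62b0ad00d5ec4c) (nat_lit 0x0)
  (PL.C (nat_lit 0x14284617) (nat_lit 0x0) (nat_lit 0x4974e2d4dfd59a)
  (PL.C (nat_lit 0x142e25ed) (nat_lit 0x2a160a91f3c64b) (nat_lit 0x0)
  (PL.C (nat_lit 0x143c524c) (nat_lit 0x0) (nat_lit 0x218b1095ac1aa)
  (PL.C (nat_lit 0x143d54f3) (nat_lit 0x0) (nat_lit 0x167f6ffdd406a5) gp1_0_182))))))))))))))))))))

noncomputable def gp1_0_180 : PL :=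
  (PL.C (nat_lit 0x12543181) (nat_lit 0x0) (nat_lit 0x22822adfb0b63a)
  (PL.C (nat_lit 0x1261897a) (nat_lit 0x6f242bade70daf) (nat_lit 0x0)
  (PL.C (nat_lit 0x126ac0e4) (nat_lit 0x2b24424518544) (nat_lit 0x0)
  (PL.C (nat_lit 0x1274f6d7) (nat_lit 0x3282d9eedc675d) (nat_lit 0x0)
  (PL.C (nat_lit 0x1276c13e) (nat_lit 0x10b2cf58049e89e) (nat_lit 0x0)
  (PL.C (nat_lit 0x128a0b36) (nat_lit 0x0) (nat_lit 0x6a8df632b47921)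
  (PL.C (nat_lit 0x1297e21e) (nat_lit 0x2b1fb636c5ae5d) (nat_lit 0x0)
  (PL.C (nat_lit 0x12983823) (nat_lit 0x0) (nat_lit 0x8430076afa8f2)
  (PL.C (nat_lit 0x12b82411) (nat_lit 0x0) (nat_lit 0xc1fb774057e30)
  (PL.C (nat_lit 0x12bd3e9d) (nat_lit 0x0) (nat_lit 0x9d339c47c060a)
  (PL.C (nat_lit 0x12c1ca61) (nat_lit 0x55e6725f0e9d5c) (nat_lit 0x0)
  (PL.C (nat_lit 0x12c3787f) (nat_lit 0x0) (nat_lit 0x8b3629f60b9ae)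
  (PL.C (nat_lit 0x12cfe1c4) (nat_lit 0x594202cfc98b6) (nat_lit 0x0)
  (PL.C (nat_lit 0x12d7fc2e) (nat_lit 0x0) (nat_lit 0x547a01ee99a)
  (PL.C (nat_lit 0x12f7666d) (nat_lit 0x4aad893938b789) (nat_lit 0x0)
  (PL.C (nat_lit 0x12f8adfa) (nat_lit 0x1bc03638d2da52) (nat_lit 0x0)
  (PL.C (nat_lit 0x130d06a6) (nat_lit 0xcf081305204c0) (nat_lit 0x0)
  (PL.C (nat_lit 0x1315a565) (nat_lit 0xe39c1cdeefdee) (nat_lit 0x0)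
  (PL.C (nat_lit 0x1321326b) (nat_lit 0x49a63ec3170027) (nat_lit 0x0)
  (PL.C (nat_lit 0x13261947) (nat_lit 0x1431f090e8c7ac3) (nat_lit 0x0) gp1_0_181))))))))))))))))))))

noncomputable def gp1_0_179 : PL :=
  (PL.C (nat_lit 0x11816409) (nat_lit 0x0) (nat_lit 0x2beeb801f71b9)
  (PL.C (nat_lit 0x11874225) (nat_lit 0x0) (nat_lit 0x5405bac88b377)
  (PL.C (nat_lit 0x1188d706) (nat_lit 0x0) (nat_lit 0x4f0a989759dbe1)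
  (PL.C (nat_lit 0x118c784d) (nat_lit 0x0) (nat_lit 0x1295454dd4aa50)
  (PL.C (nat_lit 0x1193adad) (nat_lit 0x0) (nat_lit 0x244a055604ee57)
  (PL.C (nat_lit 0x11a724b9) (nat_lit 0x0) (nat_lit 0xf875a988ab3d88)
  (PL.C (nat_lit 0x11c452d7) (nat_lit 0x0) (nat_lit 0x55cfdc534e7c7)
  (PL.C (nat_lit 0x11d62453) (nat_lit 0x0) (nat_lit 0x5266a212c7705c)
  (PL.C (nat_lit 0x11e6a28e) (nat_lit 0xc27b8eb9fdbc85) (nat_lit 0x0)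
  (PL.C (nat_lit 0x11ea834e) (nat_lit 0x0) (nat_lit 0x1693942a3981b9)
  (PL.C (nat_lit 0x11f850b6) (nat_lit 0x323431ffd8b55d) (nat_lit 0x0)
  (PL.C (nat_lit 0x11f9d552) (nat_lit 0x22d5c848a0f7a1) (nat_lit 0x0)
  (PL.C (nat_lit 0x121a2afe) (nat_lit 0x0) (nat_lit 0x7d369bac2babcb)
  (PL.C (nat_lit 0x121c18ca) (nat_lit 0x0) (nat_lit 0xbdc1a2ebb815aa)
  (PL.C (nat_lit 0x12235641) (nat_lit 0xed64fc8168f8b8) (nat_lit 0x0)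
  (PL.C (nat_lit 0x1223e5c3) (nat_lit 0x110758a1ce6b1e5) (nat_lit 0x0)
  (PL.C (nat_lit 0x1233acda) (nat_lit 0x0) (nat_lit 0x28bf502c61af59)
  (PL.C (nat_lit 0x123b83fb) (nat_lit 0x0) (nat_lit 0x3fc82b4c087e2)
  (PL.C (nat_lit 0x1245fc67) (nat_lit 0x0) (nat_lit 0x3ff88c0fb1b42b)
  (PL.C (nat_lit 0x124da61c) (nat_lit 0x14c96ebb314aa2) (nat_lit 0x0) gp1_0_180))))))))))))))))))))

noncomputable def gp1_0_178 : PL :=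
  (PL.C (nat_lit 0x10b364c6) (nat_lit 0x468fa8bc157f45) (nat_lit 0x0)
  (PL.C (nat_lit 0x10b4a7a4) (nat_lit 0x0) (nat_lit 0xa97b59e135e33)
  (PL.C (nat_lit 0x10b4dbbe) (nat_lit 0x0) (nat_lit 0xbe216427c1f925)
  (PL.C (nat_lit 0x10f08579) (nat_lit 0xe31a22c1a3e7d) (nat_lit 0x0)
  (PL.C (nat_lit 0x10f0d469) (nat_lit 0x5798e0982cd0b) (nat_lit 0x0)
  (PL.C (nat_lit 0x10f4bc82) (nat_lit 0x38449f3b90b1a7) (nat_lit 0x0)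
  (PL.C (nat_lit 0x11128fd7) (nat_lit 0x0) (nat_lit 0xc87361f287ad4d)
  (PL.C (nat_lit 0x1115d9ff) (nat_lit 0x0) (nat_lit 0x10e62ae578fd4)
  (PL.C (nat_lit 0x11258c92) (nat_lit 0x0) (nat_lit 0x8f10cc873281f4)
  (PL.C (nat_lit 0x112aec8a) (nat_lit 0x1ffadcc7768c20) (nat_lit 0x0)
  (PL.C (nat_lit 0x112b7053) (nat_lit 0x13129ab42dad37) (nat_lit 0x0)
  (PL.C (nat_lit 0x114522ed) (nat_lit 0x27259fa4ddcf9f) (nat_lit 0x0)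
  (PL.C (nat_lit 0x114e09fd) (nat_lit 0x0) (nat_lit 0x20d09d2850af67)
  (PL.C (nat_lit 0x1151fe6b) (nat_lit 0x0) (nat_lit 0xdab2621fc9a344)
  (PL.C (nat_lit 0x115daece) (nat_lit 0x4540b14a4de96d) (nat_lit 0x0)
  (PL.C (nat_lit 0x116491c5) (nat_lit 0x0) (nat_lit 0xb249ca9031a88)
  (PL.C (nat_lit 0x1166209b) (nat_lit 0x0) (nat_lit 0x1f10b640bdbdc0)
  (PL.C (nat_lit 0x116b31eb) (nat_lit 0x0) (nat_lit 0x292f2038a930c6)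
  (PL.C (nat_lit 0x116d463b) (nat_lit 0x88b1d81da356f) (nat_lit 0x0)
  (PL.C (nat_lit 0x117a3629) (nat_lit 0x287fd5591a5ead) (nat_lit 0x0) gp1_0_179))))))))))))))))))))

noncomputable def gp1_0_177 : PL :=
  (PL.C (nat_lit 0x10320d5b) (nat_lit 0x641580fd47eeda) (nat_lit 0x0)
  (PL.C (nat_lit 0x103b05af) (nat_lit 0x0) (nat_lit 0x1951800abe86bf)
  (PL.C (nat_lit 0x1052b075) (nat_lit 0xcf3ed72d65a90e) (nat_lit 0x0)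
  (PL.C (nat_lit 0x10581b16) (nat_lit 0x0) (nat_lit 0x13fd9f593aebdb)
  (PL.C (nat_lit 0x105d5812) (nat_lit 0x3e7654b9ff71b) (nat_lit 0x0)
  (PL.C (nat_lit 0x106087f6) (nat_lit 0x0) (nat_lit 0xa75b5f0ad0a3d)
  (PL.C (nat_lit 0x1062d44a) (nat_lit 0x186fc597343b24) (nat_lit 0x0)
  (PL.C (nat_lit 0x1067f0fd) (nat_lit 0x83b3bd5e52eeb9) (nat_lit 0x0)
  (PL.C (nat_lit 0x106af8f2) (nat_lit 0x0) (nat_lit 0x2158b393478d9d)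
  (PL.C (nat_lit 0x10702703) (nat_lit 0x0) (nat_lit 0x76ee5235089371)
  (PL.C (nat_lit 0x1078a66a) (nat_lit 0x438850c2e2ceb8) (nat_lit 0x0)
  (PL.C (nat_lit 0x10798953) (nat_lit 0x0) (nat_lit 0x22522178d693e5)
  (PL.C (nat_lit 0x107c1fba) (nat_lit 0x3aba1d0b9a5367) (nat_lit 0x0)
  (PL.C (nat_lit 0x107dbf8b) (nat_lit 0x0) (nat_lit 0x933a219e81bb2)
  (PL.C (nat_lit 0x108320a1) (nat_lit 0x0) (nat_lit 0x125bbb10d047028)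
  (PL.C (nat_lit 0x1085aae2) (nat_lit 0x0) (nat_lit 0x7064595d4ec7a4)
  (PL.C (nat_lit 0x1090277c) (nat_lit 0x0) (nat_lit 0x13bfdea87b0c69)
  (PL.C (nat_lit 0x109460a5) (nat_lit 0x0) (nat_lit 0x99661b39a98f78)
  (PL.C (nat_lit 0x109cf2c6) (nat_lit 0x0) (nat_lit 0xae6bdb0634262)
  (PL.C (nat_lit 0x10a41ab5) (nat_lit 0x457325ec510d01) (nat_lit 0x0) gp1_0_178))))))))))))))))))))

noncomputable def gp1_0_176 : PL :=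
  (PL.C (nat_lit 0xf8a3e5b) (nat_lit 0x90e253bde445a5) (nat_lit 0x0)
  (PL.C (nat_lit 0xf9132a4) (nat_lit 0x9a44f4800a5cc) (nat_lit 0x0)
  (PL.C (nat_lit 0xf97a3f9) (nat_lit 0x0) (nat_lit 0x3fbbf14d0050b6c)
  (PL.C (nat_lit 0xf97e73e) (nat_lit 0x0) (nat_lit 0x1ea8e45106e5b)
  (PL.C (nat_lit 0xfa6668e) (nat_lit 0x8ee53d62feba98) (nat_lit 0x0)
  (PL.C (nat_lit 0xfb25def) (nat_lit 0x3540ddaa196d1) (nat_lit 0x0)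
  (PL.C (nat_lit 0xfcce384) (nat_lit 0xd74edfd3f3b82) (nat_lit 0x0)
  (PL.C (nat_lit 0xfcef745) (nat_lit 0x0) (nat_lit 0xf39dd6f0820997)
  (PL.C (nat_lit 0xfd1b68a) (nat_lit 0x10610a2e96734af) (nat_lit 0x0)
  (PL.C (nat_lit 0xfd575a5) (nat_lit 0x0) (nat_lit 0x5232b04df72137)
  (PL.C (nat_lit 0xfdac451) (nat_lit 0x4ed6cbe8030399) (nat_lit 0x0)
  (PL.C (nat_lit 0xfdf20ac) (nat_lit 0x75496f37d3e12) (nat_lit 0x0)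
  (PL.C (nat_lit 0xfefb55c) (nat_lit 0x1776637fc28fb) (nat_lit 0x0)
  (PL.C (nat_lit 0xffc1e4b) (nat_lit 0x3a54cea210512) (nat_lit 0x0)
  (PL.C (nat_lit 0x1002b6e1) (nat_lit 0xf0365c6a939b53) (nat_lit 0x0)
  (PL.C (nat_lit 0x1003cb62) (nat_lit 0x36759644abf8dc) (nat_lit 0x0)
  (PL.C (nat_lit 0x10178f49) (nat_lit 0x8ea56dc444fa1) (nat_lit 0x0)
  (PL.C (nat_lit 0x101a5c46) (nat_lit 0x0) (nat_lit 0x1ace0b0748e237)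
  (PL.C (nat_lit 0x10214bf5) (nat_lit 0x0) (nat_lit 0x210711f5afa55e)
  (PL.C (nat_lit 0x102a22a3) (nat_lit 0x55b6c03fa1a3e7) (nat_lit 0x0) gp1_0_177))))))))))))))))))))

noncomputable def gp1_0_175 : PL :=
  (PL.C (nat_lit 0xed9a0aa) (nat_lit 0x0) (nat_lit 0x22a762dc8901c)
  (PL.C (nat_lit 0xee9c377) (nat_lit 0x0) (nat_lit 0xde670f723ac4e3)
  (PL.C (nat_lit 0xeef79dd) (nat_lit 0x0) (nat_lit 0x14a3e10c084f4b5)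
  (PL.C (nat_lit 0xef957d3) (nat_lit 0x0) (nat_lit 0x569f115d28b8c27)
  (PL.C (nat_lit 0xeff7e73) (nat_lit 0x0) (nat_lit 0x12a5bc6b15b154)
  (PL.C (nat_lit 0xf048567) (nat_lit 0x96a66af5c3d44d) (nat_lit 0x0)
  (PL.C (nat_lit 0xf1177bd) (nat_lit 0x7c9cfba70ebf9a) (nat_lit 0x0)
  (PL.C (nat_lit 0xf15f2a5) (nat_lit 0x0) (nat_lit 0x1130f94)
  (PL.C (nat_lit 0xf1c2505) (nat_lit 0x5083a49c157fd) (nat_lit 0x0)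
  (PL.C (nat_lit 0xf1c7546) (nat_lit 0x3541c35789c7ef) (nat_lit 0x0)
  (PL.C (nat_lit 0xf2caa1a) (nat_lit 0x1bc10475cde43c) (nat_lit 0x0)
  (PL.C (nat_lit 0xf31c032) (nat_lit 0x0) (nat_lit 0x3c3181af21892)
  (PL.C (nat_lit 0xf384baf) (nat_lit 0xb74ce0a1352cd) (nat_lit 0x0)
  (PL.C (nat_lit 0xf3e359a) (nat_lit 0x0) (nat_lit 0x21b30c4b8fb39cc)
  (PL.C (nat_lit 0xf45f65f) (nat_lit 0x25655dd09f2a65) (nat_lit 0x0)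
  (PL.C (nat_lit 0xf5911e4) (nat_lit 0x0) (nat_lit 0xcf1e2162a8d34)
  (PL.C (nat_lit 0xf7136bb) (nat_lit 0x0) (nat_lit 0xa0615a71f0893d)
  (PL.C (nat_lit 0xf81c675) (nat_lit 0x0) (nat_lit 0x67e9256ecfca0)
  (PL.C (nat_lit 0xf8434e2) (nat_lit 0x3c98d6a0b01cd0) (nat_lit 0x0)
  (PL.C (nat_lit 0xf873fe2) (nat_lit 0x0) (nat_lit 0xe6db89157ea62) gp1_0_176))))))))))))))))))))

noncomputable def gp1_0_174 : PL :=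
  (PL.C (nat_lit 0xe1a79d5) (nat_lit 0x0) (nat_lit 0x204f92516b1c925)
  (PL.C (nat_lit 0xe1d14e2) (nat_lit 0x0) (nat_lit 0xe2bfe2dc8b599e)
  (PL.C (nat_lit 0xe25a67b) (nat_lit 0x0) (nat_lit 0x1183ed966bac9a4)
  (PL.C (nat_lit 0xe2999fb) (nat_lit 0x0) (nat_lit 0xe0bdc8cde732)
  (PL.C (nat_lit 0xe2bd36a) (nat_lit 0x0) (nat_lit 0x6361be2e4dce1)
  (PL.C (nat_lit 0xe36d806) (nat_lit 0x0) (nat_lit 0x2c0cbdf3170dad)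
  (PL.C (nat_lit 0xe4cf5cd) (nat_lit 0x76937c37c7c91d) (nat_lit 0x0)
  (PL.C (nat_lit 0xe50420a) (nat_lit 0x0) (nat_lit 0x48eaef26f04c9a)
  (PL.C (nat_lit 0xe5b22fc) (nat_lit 0xeb9d569ef9b8d) (nat_lit 0x0)
  (PL.C (nat_lit 0xe73a5ab) (nat_lit 0x132095026336c6) (nat_lit 0x0)
  (PL.C (nat_lit 0xe9ba4b1) (nat_lit 0x1511e5200cf436) (nat_lit 0x0)
  (PL.C (nat_lit 0xe9efb57) (nat_lit 0x0) (nat_lit 0xc61eabeab3eb98)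
  (PL.C (nat_lit 0xea08a2d) (nat_lit 0x2af5926edabb296) (nat_lit 0x0)
  (PL.C (nat_lit 0xeb39575) (nat_lit 0x0) (nat_lit 0x2a1b1ac083a4db)
  (PL.C (nat_lit 0xeb5698e) (nat_lit 0x17504bda9fcc60) (nat_lit 0x0)
  (PL.C (nat_lit 0xebc7b5b) (nat_lit 0x5d0aacdf850448) (nat_lit 0x0)
  (PL.C (nat_lit 0xec0ee8d) (nat_lit 0x6484ba9a140ede) (nat_lit 0x0)
  (PL.C (nat_lit 0xec288fb) (nat_lit 0x0) (nat_lit 0x32195265bf8f87)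
  (PL.C (nat_lit 0xec6641a) (nat_lit 0x13cd6b00b845d9e) (nat_lit 0x0)
  (PL.C (nat_lit 0xed8a045) (nat_lit 0x0) (nat_lit 0x18e0b6610cc6de0) gp1_0_175))))))))))))))))))))

noncomputable def gp1_0_173 : PL :=
  (PL.C (nat_lit 0xd7e38a2) (nat_lit 0x0) (nat_lit 0x39b764a1f8126c)
  (PL.C (nat_lit 0xd7e62b7) (nat_lit 0x7a4ee28de2ca24) (nat_lit 0x0)
  (PL.C (nat_lit 0xd8abb02) (nat_lit 0x0) (nat_lit 0xbf0a3a4bb2a4)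
  (PL.C (nat_lit 0xd8bab55) (nat_lit 0x0) (nat_lit 0x170ec26b7fba7a)
  (PL.C (nat_lit 0xd8dcbf6) (nat_lit 0x226f63e7f410b8) (nat_lit 0x0)
  (PL.C (nat_lit 0xd992424) (nat_lit 0x0) (nat_lit 0x186e2dc540d819)
  (PL.C (nat_lit 0xda11d89) (nat_lit 0x159c116d23fb6d) (nat_lit 0x0)
  (PL.C (nat_lit 0xda1bcf3) (nat_lit 0x19fab84cfb50382) (nat_lit 0x0)
  (PL.C (nat_lit 0xdafbb87) (nat_lit 0x139f51601d957e) (nat_lit 0x0)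
  (PL.C (nat_lit 0xdd3264e) (nat_lit 0x0) (nat_lit 0x247fa6ff9d8eb1)
  (PL.C (nat_lit 0xdd516f2) (nat_lit 0x15d5b04955edb3) (nat_lit 0x0)
  (PL.C (nat_lit 0xdd7c896) (nat_lit 0x49c510e6beb5a) (nat_lit 0x0)
  (PL.C (nat_lit 0xdd967b1) (nat_lit 0x0) (nat_lit 0x2f61dbe2996910)
  (PL.C (nat_lit 0xdddbf0d) (nat_lit 0xb2ce81ce468e0) (nat_lit 0x0)
  (PL.C (nat_lit 0xdf0f6ee) (nat_lit 0xa0c16945b4104) (nat_lit 0x0)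
  (PL.C (nat_lit 0xdf3dc77) (nat_lit 0x3b605ab0a11e63) (nat_lit 0x0)
  (PL.C (nat_lit 0xe020c6b) (nat_lit 0x3729c22eb4790) (nat_lit 0x0)
  (PL.C (nat_lit 0xe0cdce6) (nat_lit 0x0) (nat_lit 0x2d78c13c028936)
  (PL.C (nat_lit 0xe10f486) (nat_lit 0x0) (nat_lit 0x3ffb4891b18669)
  (PL.C (nat_lit 0xe125755) (nat_lit 0x0) (nat_lit 0x6fb405c08873b) gp1_0_174))))))))))))))))))))

noncomputable def gp1_0_172 : PL :=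
  (PL.C (nat_lit 0xd1a58c4) (nat_lit 0x1952ff31f16f0b) (nat_lit 0x0)
  (PL.C (nat_lit 0xd1b7f25) (nat_lit 0x0) (nat_lit 0x3c4e52d6565b9)
  (PL.C (nat_lit 0xd1bbaea) (nat_lit 0x0) (nat_lit 0x5d8d25e0560e38)
  (PL.C (nat_lit 0xd234176) (nat_lit 0x189e96de9d00e2) (nat_lit 0x0)
  (PL.C (nat_lit 0xd26490c) (nat_lit 0x43b6ee6f6b951) (nat_lit 0x0)
  (PL.C (nat_lit 0xd2a4fdf) (nat_lit 0x103bf9d80a64a) (nat_lit 0x0)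
  (PL.C (nat_lit 0xd2e335e) (nat_lit 0x4fbb2d460a8b03) (nat_lit 0x0)
  (PL.C (nat_lit 0xd33e0c9) (nat_lit 0x17c4a240efe84c) (nat_lit 0x0)
  (PL.C (nat_lit 0xd3695b3) (nat_lit 0x1bb55f12d3569) (nat_lit 0x0)
  (PL.C (nat_lit 0xd37b371) (nat_lit 0x2ac104424db2dc) (nat_lit 0x0)
  (PL.C (nat_lit 0xd42b561) (nat_lit 0x0) (nat_lit 0x70a2e0f8d3a4e8)
  (PL.C (nat_lit 0xd4dc17d) (nat_lit 0x3520b6df3550ce) (nat_lit 0x0)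
  (PL.C (nat_lit 0xd584519) (nat_lit 0x5769b243de18745) (nat_lit 0x0)
  (PL.C (nat_lit 0xd5be4c3) (nat_lit 0xa50216ef169) (nat_lit 0x0)
  (PL.C (nat_lit 0xd5d1cdf) (nat_lit 0x438d65c790735d) (nat_lit 0x0)
  (PL.C (nat_lit 0xd60bd6e) (nat_lit 0x0) (nat_lit 0x25805919b989b5)
  (PL.C (nat_lit 0xd6b12db) (nat_lit 0x0) (nat_lit 0x1dacde999727fc)
  (PL.C (nat_lit 0xd702eba) (nat_lit 0x0) (nat_lit 0x60019286761150)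
  (PL.C (nat_lit 0xd72cab5) (nat_lit 0x10fc201c91bb5) (nat_lit 0x0)
  (PL.C (nat_lit 0xd7d33db) (nat_lit 0x0) (nat_lit 0x8fd88405196ff09) gp1_0_173))))))))))))))))))))

noncomputable def gp1_0_171 : PL :=
  (PL.C (nat_lit 0xc8e9aca) (nat_lit 0x3a779b3737d7) (nat_lit 0x0)
  (PL.C (nat_lit 0xc8ffd74) (nat_lit 0xddfab58251d27) (nat_lit 0x0)
  (PL.C (nat_lit 0xc92fd85) (nat_lit 0x1189d9f0d0331f2) (nat_lit 0x0)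
  (PL.C (nat_lit 0xc96c993) (nat_lit 0x0) (nat_lit 0x3d5115111eef7e4)
  (PL.C (nat_lit 0xca3f05f) (nat_lit 0x1bcec804a0785e) (nat_lit 0x0)
  (PL.C (nat_lit 0xcb359c4) (nat_lit 0x0) (nat_lit 0x62cf99881d289)
  (PL.C (nat_lit 0xcb918ee) (nat_lit 0x2b41c5a128dd74) (nat_lit 0x0)
  (PL.C (nat_lit 0xcbc15f9) (nat_lit 0x1ec5a2de0c10cb) (nat_lit 0x0)
  (PL.C (nat_lit 0xcc194de) (nat_lit 0x73d217237cb8b3) (nat_lit 0x0)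
  (PL.C (nat_lit 0xcc410da) (nat_lit 0xcfe07f62ffe039) (nat_lit 0x0)
  (PL.C (nat_lit 0xcc6ec0d) (nat_lit 0x1c16a0977a08b35) (nat_lit 0x0)
  (PL.C (nat_lit 0xcd1c1c6) (nat_lit 0x0) (nat_lit 0x7605e400bf9b8d)
  (PL.C (nat_lit 0xcd914ab) (nat_lit 0x0) (nat_lit 0x2b004d26c20342)
  (PL.C (nat_lit 0xcdf547b) (nat_lit 0x3fb4a9794f58fc1) (nat_lit 0x0)
  (PL.C (nat_lit 0xce49e1b) (nat_lit 0x359b6bafaaa2f3) (nat_lit 0x0)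
  (PL.C (nat_lit 0xce5dbdc) (nat_lit 0x0) (nat_lit 0x345e34eafa9ed)
  (PL.C (nat_lit 0xce8f06f) (nat_lit 0x0) (nat_lit 0x5430716a521230)
  (PL.C (nat_lit 0xcef5f59) (nat_lit 0xafa28d7bfee5e6) (nat_lit 0x0)
  (PL.C (nat_lit 0xcfd3eb7) (nat_lit 0x0) (nat_lit 0x4c68fe1a38e8e)
  (PL.C (nat_lit 0xd194207) (nat_lit 0x3e8fbb0fdf91d8) (nat_lit 0x0) gp1_0_172))))))))))))))))))))

noncomputable def gp1_0_170 : PL :=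
  (PL.C (nat_lit 0xc06c52b) (nat_lit 0x15a5637025a27eb) (nat_lit 0x0)
  (PL.C (nat_lit 0xc0b68b3) (nat_lit 0x0) (nat_lit 0x42de75ec2f1ad)
  (PL.C (nat_lit 0xc166da3) (nat_lit 0x1457585350094e) (nat_lit 0x0)
  (PL.C (nat_lit 0xc178ed6) (nat_lit 0x234fe4a4b66e154) (nat_lit 0x0)
  (PL.C (nat_lit 0xc17ee82) (nat_lit 0x0) (nat_lit 0xc9d29abbc1de4b)
  (PL.C (nat_lit 0xc22733c) (nat_lit 0x0) (nat_lit 0xd5726a31f1b62)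
  (PL.C (nat_lit 0xc26c9f9) (nat_lit 0x0) (nat_lit 0x908057a33c7046)
  (PL.C (nat_lit 0xc27ad52) (nat_lit 0xe665aaaa159fd) (nat_lit 0x0)
  (PL.C (nat_lit 0xc34861b) (nat_lit 0xd59f2b9baf68fd) (nat_lit 0x0)
  (PL.C (nat_lit 0xc40941f) (nat_lit 0x0) (nat_lit 0x25146c0d0a6d17)
  (PL.C (nat_lit 0xc4fc8d5) (nat_lit 0x44b18ddee08990d) (nat_lit 0x0)
  (PL.C (nat_lit 0xc58f9a1) (nat_lit 0x0) (nat_lit 0x1692058a4109a93)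
  (PL.C (nat_lit 0xc657ac2) (nat_lit 0x0) (nat_lit 0x44cddaf67cfc9a)
  (PL.C (nat_lit 0xc709007) (nat_lit 0x0) (nat_lit 0x4c5ac45509036c)
  (PL.C (nat_lit 0xc77b7c9) (nat_lit 0xdac2e95db1abc7) (nat_lit 0x0)
  (PL.C (nat_lit 0xc79d94b) (nat_lit 0x0) (nat_lit 0x63e997d1c5b938)
  (PL.C (nat_lit 0xc7ac2b6) (nat_lit 0x0) (nat_lit 0xc2cd5890ed080)
  (PL.C (nat_lit 0xc7e29be) (nat_lit 0x0) (nat_lit 0x1a47b7b4e2bb80)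
  (PL.C (nat_lit 0xc813196) (nat_lit 0x1d66b6513e211c) (nat_lit 0x0)
  (PL.C (nat_lit 0xc885219) (nat_lit 0x0) (nat_lit 0x214fc62a97f509a) gp1_0_171))))))))))))))))))))

noncomputable def gp1_0_169 : PL :=
  (PL.C (nat_lit 0xb895bfe) (nat_lit 0x51a3b3e7c1db54) (nat_lit 0x0)
  (PL.C (nat_lit 0xb8bfef2) (nat_lit 0x0) (nat_lit 0x2457f8993921c9f)
  (PL.C (nat_lit 0xb8f97cd) (nat_lit 0x109ea023b319eaa) (nat_lit 0x0)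
  (PL.C (nat_lit 0xb98612e) (nat_lit 0x0) (nat_lit 0x2f869f554e0085)
  (PL.C (nat_lit 0xb996b12) (nat_lit 0x4216b6d8d86330) (nat_lit 0x0)
  (PL.C (nat_lit 0xb9ccbf2) (nat_lit 0x89e093b96e1c02) (nat_lit 0x0)
  (PL.C (nat_lit 0xb9e2ed2) (nat_lit 0x1bc949ece09eda) (nat_lit 0x0)
  (PL.C (nat_lit 0xba4d0b2) (nat_lit 0x0) (nat_lit 0x31f4f8f5a866f)
  (PL.C (nat_lit 0xba6cec6) (nat_lit 0x0) (nat_lit 0x569ef58a5dde38)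
  (PL.C (nat_lit 0xbab9806) (nat_lit 0x1ed16c96b4ca4b) (nat_lit 0x0)
  (PL.C (nat_lit 0xbaf816e) (nat_lit 0x14619ecd9481729) (nat_lit 0x0)
  (PL.C (nat_lit 0xbb2fade) (nat_lit 0x11991cc02c1323) (nat_lit 0x0)
  (PL.C (nat_lit 0xbb48a01) (nat_lit 0xc09e6edfb9ef4b) (nat_lit 0x0)
  (PL.C (nat_lit 0xbb7c91e) (nat_lit 0x0) (nat_lit 0xc38a426f45a70)
  (PL.C (nat_lit 0xbc4c326) (nat_lit 0x0) (nat_lit 0x16ca27dcff46d97)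
  (PL.C (nat_lit 0xbd8373a) (nat_lit 0x0) (nat_lit 0x298ca9108111ec)
  (PL.C (nat_lit 0xbe7cde9) (nat_lit 0x51df46fd1b10f2) (nat_lit 0x0)
  (PL.C (nat_lit 0xbef0215) (nat_lit 0xe4856d0d9605f9) (nat_lit 0x0)
  (PL.C (nat_lit 0xbfbe38c) (nat_lit 0x0) (nat_lit 0x11b74cd4c5abb9)
  (PL.C (nat_lit 0xbfe8b9d) (nat_lit 0x0) (nat_lit 0x8e5b751b1a84eb) gp1_0_170))))))))))))))))))))

noncomputable def gp1_0_168 : PL :=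
  (PL.C (nat_lit 0xafe7fb2) (nat_lit 0x0) (nat_lit 0x35abf04fa43365)
  (PL.C (nat_lit 0xb08538d) (nat_lit 0x0) (nat_lit 0x399a3cfbcf1cf2)
  (PL.C (nat_lit 0xb134c84) (nat_lit 0x1ddd040f52cd47) (nat_lit 0x0)
  (PL.C (nat_lit 0xb1811ce) (nat_lit 0xc2db24e9334786) (nat_lit 0x0)
  (PL.C (nat_lit 0xb285ef5) (nat_lit 0x7bcca1360860c) (nat_lit 0x0)
  (PL.C (nat_lit 0xb2a8b3f) (nat_lit 0x95f2c5ef0db5e) (nat_lit 0x0)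
  (PL.C (nat_lit 0xb42a00f) (nat_lit 0x45e868760e27a57) (nat_lit 0x0)
  (PL.C (nat_lit 0xb4b03a6) (nat_lit 0xcfa75e47578ee) (nat_lit 0x0)
  (PL.C (nat_lit 0xb4b3846) (nat_lit 0x0) (nat_lit 0x6547ee7bc93546)
  (PL.C (nat_lit 0xb5c76bb) (nat_lit 0x0) (nat_lit 0x1d1afc23296412)
  (PL.C (nat_lit 0xb61b53a) (nat_lit 0x0) (nat_lit 0x77f1f9a1cf853)
  (PL.C (nat_lit 0xb630a87) (nat_lit 0xd4f92426f6799b) (nat_lit 0x0)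
  (PL.C (nat_lit 0xb63e6aa) (nat_lit 0x0) (nat_lit 0x1e01ee192a53f2)
  (PL.C (nat_lit 0xb664219) (nat_lit 0x0) (nat_lit 0x3ed05e10e7bcd2)
  (PL.C (nat_lit 0xb724ae2) (nat_lit 0x1c185d85dd317) (nat_lit 0x0)
  (PL.C (nat_lit 0xb731605) (nat_lit 0x0) (nat_lit 0x17c5779057ec38)
  (PL.C (nat_lit 0xb773917) (nat_lit 0x0) (nat_lit 0xe9a3924759e08)
  (PL.C (nat_lit 0xb815b6d) (nat_lit 0x71d68ad892e5db) (nat_lit 0x0)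
  (PL.C (nat_lit 0xb836c9e) (nat_lit 0x38aece3189c5b2) (nat_lit 0x0)
  (PL.C (nat_lit 0xb88f543) (nat_lit 0x0) (nat_lit 0x51114d62c950f4) gp1_0_169))))))))))))))))))))

noncomputable def gp1_0_167 : PL :=
  (PL.C (nat_lit 0xaba5f86) (nat_lit 0x8a0ae1ca7b79f7) (nat_lit 0x0)
  (PL.C (nat_lit 0xabc3d84) (nat_lit 0x0) (nat_lit 0x650147e26efac2)
  (PL.C (nat_lit 0xac0dd4e) (nat_lit 0x0) (nat_lit 0x5475cb9172f976)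
  (PL.C (nat_lit 0xac6c1c2) (nat_lit 0x341e1dab11a9292) (nat_lit 0x0)
  (PL.C (nat_lit 0xac92b01) (nat_lit 0x12b91f183e2f90) (nat_lit 0x0)
  (PL.C (nat_lit 0xacb4881) (nat_lit 0x0) (nat_lit 0x1bad45e4a1ec5ca)
  (PL.C (nat_lit 0xad0af7f) (nat_lit 0x0) (nat_lit 0x269ba4eea29d70)
  (PL.C (nat_lit 0xad203ca) (nat_lit 0x2c414b1272b9f1) (nat_lit 0x0)
  (PL.C (nat_lit 0xad6dc0f) (nat_lit 0x0) (nat_lit 0x917d3bb4ec397)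
  (PL.C (nat_lit 0xada9be5) (nat_lit 0x337a4c3aa6d0df) (nat_lit 0x0)
  (PL.C (nat_lit 0xaddc5a7) (nat_lit 0x50c93d59184625) (nat_lit 0x0)
  (PL.C (nat_lit 0xae56764) (nat_lit 0x1622f0e83c8968) (nat_lit 0x0)
  (PL.C (nat_lit 0xaeff5fe) (nat_lit 0x146ec01dce77ca7) (nat_lit 0x0)
  (PL.C (nat_lit 0xaf1fb4c) (nat_lit 0x0) (nat_lit 0x404359fcb75aae)
  (PL.C (nat_lit 0xaf28733) (nat_lit 0x3007ab2291ceb7) (nat_lit 0x0)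
  (PL.C (nat_lit 0xafab347) (nat_lit 0x0) (nat_lit 0x1832b74fc4ab2c)
  (PL.C (nat_lit 0xafb199c) (nat_lit 0x1ee22569dce821) (nat_lit 0x0)
  (PL.C (nat_lit 0xafbb0e2) (nat_lit 0x0) (nat_lit 0x62f94961b51d38)
  (PL.C (nat_lit 0xafbd865) (nat_lit 0x0) (nat_lit 0x19329a26a32661)
  (PL.C (nat_lit 0xafd6a7c) (nat_lit 0x21b91ea0520e48) (nat_lit 0x0) gp1_0_168))))))))))))))))))))

noncomputable def gp1_0_166 : PL :=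
  (PL.C (nat_lit 0xa5aa65b) (nat_lit 0xf96b346edd17) (nat_lit 0x0)
  (PL.C (nat_lit 0xa5c2992) (nat_lit 0x11e1c3ade13aaef) (nat_lit 0x0)
  (PL.C (nat_lit 0xa6498e9) (nat_lit 0x0) (nat_lit 0x35ad053afd94aa8)
  (PL.C (nat_lit 0xa6544d4) (nat_lit 0xa628af25d07b4) (nat_lit 0x0)
  (PL.C (nat_lit 0xa6b84dd) (nat_lit 0x625cc2a67547f4) (nat_lit 0x0)
  (PL.C (nat_lit 0xa76e94a) (nat_lit 0x0) (nat_lit 0x23922492752bf2)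
  (PL.C (nat_lit 0xa804463) (nat_lit 0x0) (nat_lit 0x1164c971829990f)
  (PL.C (nat_lit 0xa815c4b) (nat_lit 0x869265ed0b80b41) (nat_lit 0x0)
  (PL.C (nat_lit 0xa864ead) (nat_lit 0xcbf3b24d1a1d5) (nat_lit 0x0)
  (PL.C (nat_lit 0xa885b67) (nat_lit 0x17510df0ec24f0) (nat_lit 0x0)
  (PL.C (nat_lit 0xa89fa2e) (nat_lit 0x0) (nat_lit 0xaeeefe069822e2)
  (PL.C (nat_lit 0xa8e4e6e) (nat_lit 0x0) (nat_lit 0x103b6e1186e867)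
  (PL.C (nat_lit 0xa91d836) (nat_lit 0x27ffd1d4393edb) (nat_lit 0x0)
  (PL.C (nat_lit 0xa9547b2) (nat_lit 0x54639151e53eef) (nat_lit 0x0)
  (PL.C (nat_lit 0xa9665bd) (nat_lit 0x0) (nat_lit 0x12edbc8ef00ef5b)
  (PL.C (nat_lit 0xa9d2e2a) (nat_lit 0x403109c4e7e108) (nat_lit 0x0)
  (PL.C (nat_lit 0xa9d5459) (nat_lit 0x0) (nat_lit 0x116bb1c62a4d21c)
  (PL.C (nat_lit 0xaa1c093) (nat_lit 0x0) (nat_lit 0xf01e27745e7ab)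
  (PL.C (nat_lit 0xaa81432) (nat_lit 0x0) (nat_lit 0x4990afb4e5c6b5)
  (PL.C (nat_lit 0xab19acd) (nat_lit 0xd7e2936fba155) (nat_lit 0x0) gp1_0_167))))))))))))))))))))

noncomputable def gp1_0_165 : PL :=
  (PL.C (nat_lit 0x9e6e9a7) (nat_lit 0x0) (nat_lit 0x149a9fdecfce93)
  (PL.C (nat_lit 0x9f03625) (nat_lit 0x0) (nat_lit 0x65f82422e40fd1)
  (PL.C (nat_lit 0x9f12cfa) (nat_lit 0x548ea7e3664ba9a) (nat_lit 0x0)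
  (PL.C (nat_lit 0x9fb8fe2) (nat_lit 0x0) (nat_lit 0x6307472afdde207)
  (PL.C (nat_lit 0x9ffa9a2) (nat_lit 0x0) (nat_lit 0x2a780b1bd399d7)
  (PL.C (nat_lit 0xa03039a) (nat_lit 0x158ca5e009b076a) (nat_lit 0x0)
  (PL.C (nat_lit 0xa07539b) (nat_lit 0x0) (nat_lit 0x8dc7e43623eb9)
  (PL.C (nat_lit 0xa12e729) (nat_lit 0x0) (nat_lit 0x37f772b132bdf30)
  (PL.C (nat_lit 0xa1721b7) (nat_lit 0x2907a3451e10ca) (nat_lit 0x0)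
  (PL.C (nat_lit 0xa1dc6bc) (nat_lit 0x0) (nat_lit 0x5c3a19444c2a0)
  (PL.C (nat_lit 0xa2004d1) (nat_lit 0xc854364598b71) (nat_lit 0x0)
  (PL.C (nat_lit 0xa212acc) (nat_lit 0x0) (nat_lit 0x2f37b9121ac8)
  (PL.C (nat_lit 0xa2587ca) (nat_lit 0x2220f682f43ada) (nat_lit 0x0)
  (PL.C (nat_lit 0xa2db923) (nat_lit 0x0) (nat_lit 0x4aadfbe6dbd21)
  (PL.C (nat_lit 0xa396bb7) (nat_lit 0xf892289f999fea) (nat_lit 0x0)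
  (PL.C (nat_lit 0xa49a4f5) (nat_lit 0x25663c9d3769b) (nat_lit 0x0)
  (PL.C (nat_lit 0xa4b79d2) (nat_lit 0x5c2b3c954e2191) (nat_lit 0x0)
  (PL.C (nat_lit 0xa4d95c7) (nat_lit 0x2b3e0c8ee1bfed) (nat_lit 0x0)
  (PL.C (nat_lit 0xa4f9775) (nat_lit 0x0) (nat_lit 0xa0252583fdc5dd)
  (PL.C (nat_lit 0xa56844e) (nat_lit 0x0) (nat_lit 0x1af4643953262b) gp1_0_166))))))))))))))))))))

noncomputable def gp1_0_164 : PL :=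
  (PL.C (nat_lit 0x9711152) (nat_lit 0x0) (nat_lit 0x6f0f1dd39ab89)
  (PL.C (nat_lit 0x981628b) (nat_lit 0x1e19dd9e2ce5f2e) (nat_lit 0x0)
  (PL.C (nat_lit 0x988a3de) (nat_lit 0x0) (nat_lit 0xfd229ea15b47f)
  (PL.C (nat_lit 0x99ab119) (nat_lit 0x3a5af8e0b30e0a) (nat_lit 0x0)
  (PL.C (nat_lit 0x9a26e72) (nat_lit 0x0) (nat_lit 0xc5eeb0e9a6474)
  (PL.C (nat_lit 0x9a5a92a) (nat_lit 0x0) (nat_lit 0x18034a142df6568)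
  (PL.C (nat_lit 0x9acdcc2) (nat_lit 0x15a461444cb2a8) (nat_lit 0x0)
  (PL.C (nat_lit 0x9bd1876) (nat_lit 0x0) (nat_lit 0x857135fbe1406f)
  (PL.C (nat_lit 0x9bf523a) (nat_lit 0x1e977bf2d9d215d) (nat_lit 0x0)
  (PL.C (nat_lit 0x9c05c1e) (nat_lit 0xd0328cf34b48f9) (nat_lit 0x0)
  (PL.C (nat_lit 0x9c44223) (nat_lit 0x136ed006e6861f6) (nat_lit 0x0)
  (PL.C (nat_lit 0x9c48f69) (nat_lit 0x0) (nat_lit 0x19f9d3b6ee727cc)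
  (PL.C (nat_lit 0x9c9c666) (nat_lit 0x0) (nat_lit 0x20893e2147937d)
  (PL.C (nat_lit 0x9cd0e4e) (nat_lit 0x0) (nat_lit 0x32061a1c306ad1)
  (PL.C (nat_lit 0x9d14711) (nat_lit 0x319c5c17478d4a) (nat_lit 0x0)
  (PL.C (nat_lit 0x9d5f45e) (nat_lit 0x0) (nat_lit 0x12609a855450625)
  (PL.C (nat_lit 0x9d7b49d) (nat_lit 0x0) (nat_lit 0x4afce6e936d75)
  (PL.C (nat_lit 0x9dbce7f) (nat_lit 0x2c7e12f3de0b6) (nat_lit 0x0)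
  (PL.C (nat_lit 0x9e5c02e) (nat_lit 0x0) (nat_lit 0x12e9c90f5520f25)
  (PL.C (nat_lit 0x9e66b1c) (nat_lit 0x178263d8cf7f29) (nat_lit 0x0) gp1_0_165))))))))))))))))))))

noncomputable def gp1_0_163 : PL :=
  (PL.C (nat_lit 0x9299439) (nat_lit 0x0) (nat_lit 0x2c6d03bcce0120)
  (PL.C (nat_lit 0x9316125) (nat_lit 0xfb1bc5e1c2358e) (nat_lit 0x0)
  (PL.C (nat_lit 0x933269d) (nat_lit 0x0) (nat_lit 0x1e746c0b1607a7)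
  (PL.C (nat_lit 0x93b9a76) (nat_lit 0x0) (nat_lit 0x159b13a28faad3a)
  (PL.C (nat_lit 0x93bae0d) (nat_lit 0x0) (nat_lit 0xf39bb9b4b955)
  (PL.C (nat_lit 0x93dc53f) (nat_lit 0x31515d34eb4b36) (nat_lit 0x0)
  (PL.C (nat_lit 0x93e7f5e) (nat_lit 0x5fc8db846ff5d1) (nat_lit 0x0)
  (PL.C (nat_lit 0x945a2b9) (nat_lit 0x4ea2587686b5e84) (nat_lit 0x0)
  (PL.C (nat_lit 0x94c9ca7) (nat_lit 0x0) (nat_lit 0x2f77e8cc5448b1)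
  (PL.C (nat_lit 0x94e27e1) (nat_lit 0x0) (nat_lit 0x47cb987a59e973)
  (PL.C (nat_lit 0x95167d7) (nat_lit 0x0) (nat_lit 0x12a0df4840d814)
  (PL.C (nat_lit 0x956b2f2) (nat_lit 0x0) (nat_lit 0x13204af04a809c)
  (PL.C (nat_lit 0x95758ad) (nat_lit 0x1270b5b9992be3a) (nat_lit 0x0)
  (PL.C (nat_lit 0x960a304) (nat_lit 0x3893f2f62ffb66) (nat_lit 0x0)
  (PL.C (nat_lit 0x9611ae1) (nat_lit 0x0) (nat_lit 0x18e86b9076aacf)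
  (PL.C (nat_lit 0x9618f8e) (nat_lit 0x0) (nat_lit 0xa38f54b8953f1e)
  (PL.C (nat_lit 0x96930db) (nat_lit 0x0) (nat_lit 0xaa8c923247a404)
  (PL.C (nat_lit 0x96c72d6) (nat_lit 0x52ed7c7e8ee01f) (nat_lit 0x0)
  (PL.C (nat_lit 0x96d0e7b) (nat_lit 0x0) (nat_lit 0x3165526388c7be)
  (PL.C (nat_lit 0x970374f) (nat_lit 0xfbbac689375089) (nat_lit 0x0) gp1_0_164))))))))))))))))))))

noncomputable def gp1_0_162 : PL :=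
  (PL.C (nat_lit 0x8e42543) (nat_lit 0x0) (nat_lit 0x2c0729e83a35fd8)
  (PL.C (nat_lit 0x8e58366) (nat_lit 0x13eb5d15a4b041c) (nat_lit 0x0)
  (PL.C (nat_lit 0x8e8bdea) (nat_lit 0x6aad1866ea6234) (nat_lit 0x0)
  (PL.C (nat_lit 0x8eb28f4) (nat_lit 0x0) (nat_lit 0x1177b4f7f6af1)
  (PL.C (nat_lit 0x8ec278e) (nat_lit 0x3ad7e607bf55d4) (nat_lit 0x0)
  (PL.C (nat_lit 0x8ef0dfa) (nat_lit 0x98792a5748edf6) (nat_lit 0x0)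
  (PL.C (nat_lit 0x8f20c92) (nat_lit 0x51a1519a1ae46b) (nat_lit 0x0)
  (PL.C (nat_lit 0x8f520ff) (nat_lit 0x17b51d253399b2) (nat_lit 0x0)
  (PL.C (nat_lit 0x8f5747c) (nat_lit 0x0) (nat_lit 0x5304785b2988b9)
  (PL.C (nat_lit 0x8f5e6ff) (nat_lit 0x9a889e45be1a3) (nat_lit 0x0)
  (PL.C (nat_lit 0x8f731ce) (nat_lit 0x0) (nat_lit 0x9f400c392ecb)
  (PL.C (nat_lit 0x8fc9763) (nat_lit 0xebb3537bcf8d2) (nat_lit 0x0)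
  (PL.C (nat_lit 0x8fe2292) (nat_lit 0x0) (nat_lit 0x35683714fd577ad)
  (PL.C (nat_lit 0x8fed06c) (nat_lit 0x1ab2a7dae803b0) (nat_lit 0x0)
  (PL.C (nat_lit 0x8feec7a) (nat_lit 0x0) (nat_lit 0x7cadea20892c67)
  (PL.C (nat_lit 0x907c78e) (nat_lit 0x0) (nat_lit 0x9dd004aadbdcd9)
  (PL.C (nat_lit 0x90932a4) (nat_lit 0x0) (nat_lit 0x1c983da2454586)
  (PL.C (nat_lit 0x91f0ccb) (nat_lit 0x1a68184eed546b) (nat_lit 0x0)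
  (PL.C (nat_lit 0x91fd25a) (nat_lit 0x5bb20d572e0558) (nat_lit 0x0)
  (PL.C (nat_lit 0x9297b1f) (nat_lit 0x0) (nat_lit 0x3ca7e0b9d5cff4) gp1_0_163))))))))))))))))))))

noncomputable def gp1_0_161 : PL :=
  (PL.C (nat_lit 0x89f94e6) (nat_lit 0x1391371b48399b6) (nat_lit 0x0)
  (PL.C (nat_lit 0x8a8d47a) (nat_lit 0x0) (nat_lit 0x26d79f4c33dad1)
  (PL.C (nat_lit 0x8acbf8b) (nat_lit 0x0) (nat_lit 0x6f7e4ca8a41fcb)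
  (PL.C (nat_lit 0x8b0c09a) (nat_lit 0x0) (nat_lit 0x14c3d2955d5f12f)
  (PL.C (nat_lit 0x8b1ffa5) (nat_lit 0x7802bcd757ef95) (nat_lit 0x0)
  (PL.C (nat_lit 0x8b43a09) (nat_lit 0x62ce5b7b296290) (nat_lit 0x0)
  (PL.C (nat_lit 0x8b59205) (nat_lit 0x41398011812400) (nat_lit 0x0)
  (PL.C (nat_lit 0x8bb815a) (nat_lit 0x0) (nat_lit 0x8c09bd99da972c)
  (PL.C (nat_lit 0x8bcff6e) (nat_lit 0x50e9f961483cf1) (nat_lit 0x0)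
  (PL.C (nat_lit 0x8c0c301) (nat_lit 0x6f63125f173c0c) (nat_lit 0x0)
  (PL.C (nat_lit 0x8c22ba4) (nat_lit 0x128d40b674b4cd) (nat_lit 0x0)
  (PL.C (nat_lit 0x8c6dfea) (nat_lit 0x0) (nat_lit 0x392eeafcf9545)
  (PL.C (nat_lit 0x8c97794) (nat_lit 0x20228d9bf3dec3) (nat_lit 0x0)
  (PL.C (nat_lit 0x8ca103f) (nat_lit 0x0) (nat_lit 0x89cf78597cac1a)
  (PL.C (nat_lit 0x8cd4086) (nat_lit 0x3c39ea8e97cb75) (nat_lit 0x0)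
  (PL.C (nat_lit 0x8cfccf6) (nat_lit 0x98cfb8c3b97aa) (nat_lit 0x0)
  (PL.C (nat_lit 0x8d06957) (nat_lit 0xc8452aaf8a4b6) (nat_lit 0x0)
  (PL.C (nat_lit 0x8d72396) (nat_lit 0x0) (nat_lit 0x136580efa2d09)
  (PL.C (nat_lit 0x8de80fe) (nat_lit 0x47f401453b1ee5) (nat_lit 0x0)
  (PL.C (nat_lit 0x8e13fc1) (nat_lit 0x1dc28c531261b3) (nat_lit 0x0) gp1_0_162))))))))))))))))))))

noncomputable def gp1_0_160 : PL :=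
  (PL.C (nat_lit 0x85ae166) (nat_lit 0x0) (nat_lit 0xa337fcf3687943)
  (PL.C (nat_lit 0x85f11dc) (nat_lit 0x1444a2df63870) (nat_lit 0x0)
  (PL.C (nat_lit 0x8648662) (nat_lit 0x0) (nat_lit 0xc071cc5af801d2)
  (PL.C (nat_lit 0x865584b) (nat_lit 0x0) (nat_lit 0x1084e7beaaac192)
  (PL.C (nat_lit 0x8680cd1) (nat_lit 0x2425f3fe0835820) (nat_lit 0x0)
  (PL.C (nat_lit 0x86d4aea) (nat_lit 0xa35c0358f5d5e4) (nat_lit 0x0)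
  (PL.C (nat_lit 0x872feb9) (nat_lit 0x70125f2b8413f7) (nat_lit 0x0)
  (PL.C (nat_lit 0x873bc6d) (nat_lit 0x0) (nat_lit 0x2791ae25d4786a)
  (PL.C (nat_lit 0x87b65f4) (nat_lit 0x2a68677c0d1692) (nat_lit 0x0)
  (PL.C (nat_lit 0x87dfee1) (nat_lit 0x508c86bc7e132) (nat_lit 0x0)
  (PL.C (nat_lit 0x87e6e5b) (nat_lit 0x54f7184d42c3) (nat_lit 0x0)
  (PL.C (nat_lit 0x88322af) (nat_lit 0x0) (nat_lit 0x8eb491fed5b84)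
  (PL.C (nat_lit 0x88490d3) (nat_lit 0x18195955aa82ac) (nat_lit 0x0)
  (PL.C (nat_lit 0x8849d5e) (nat_lit 0x5c2d912a1a1648e) (nat_lit 0x0)
  (PL.C (nat_lit 0x886a1cf) (nat_lit 0x0) (nat_lit 0x40921d538050b6)
  (PL.C (nat_lit 0x8876551) (nat_lit 0x3c8ad09497cce6) (nat_lit 0x0)
  (PL.C (nat_lit 0x88bd684) (nat_lit 0x144613e44dd782) (nat_lit 0x0)
  (PL.C (nat_lit 0x88fc6a1) (nat_lit 0x289421b3961c8) (nat_lit 0x0)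
  (PL.C (nat_lit 0x890b872) (nat_lit 0x2fa32efca34e7b) (nat_lit 0x0)
  (PL.C (nat_lit 0x89f0003) (nat_lit 0x10fbf1cb16b22cc) (nat_lit 0x0) gp1_0_161))))))))))))))))))))

noncomputable def gp1_0_159 : PL :=
  (PL.C (nat_lit 0x8101b99) (nat_lit 0x0) (nat_lit 0x40164942224b3e)
  (PL.C (nat_lit 0x8136b79) (nat_lit 0x42b5269e5ccb15) (nat_lit 0x0)
  (PL.C (nat_lit 0x81a738c) (nat_lit 0x72023f34ebc8fa) (nat_lit 0x0)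
  (PL.C (nat_lit 0x81d1917) (nat_lit 0x0) (nat_lit 0x44b249f074a646)
  (PL.C (nat_lit 0x8230412) (nat_lit 0x2980ec22098631) (nat_lit 0x0)
  (PL.C (nat_lit 0x824c752) (nat_lit 0x0) (nat_lit 0x5e5998393085c8)
  (PL.C (nat_lit 0x82b0d6a) (nat_lit 0x0) (nat_lit 0x16901fdb54dd39e)
  (PL.C (nat_lit 0x82bbe0e) (nat_lit 0x3fe9adf25e6556) (nat_lit 0x0)
  (PL.C (nat_lit 0x835308e) (nat_lit 0x0) (nat_lit 0x43897a17fd468c4)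
  (PL.C (nat_lit 0x83a70a2) (nat_lit 0x0) (nat_lit 0x5897ec314a1ed2)
  (PL.C (nat_lit 0x83b5116) (nat_lit 0x29a977523d60554) (nat_lit 0x0)
  (PL.C (nat_lit 0x83edccd) (nat_lit 0x52f5c0f22e68e3c) (nat_lit 0x0)
  (PL.C (nat_lit 0x843a72c) (nat_lit 0x0) (nat_lit 0x30f13be97fb634)
  (PL.C (nat_lit 0x8499915) (nat_lit 0x0) (nat_lit 0x26b1534709e403)
  (PL.C (nat_lit 0x84e5b1b) (nat_lit 0x0) (nat_lit 0x6e2cd45fa4e9e)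
  (PL.C (nat_lit 0x850a751) (nat_lit 0x0) (nat_lit 0x97e7fd0864c174)
  (PL.C (nat_lit 0x851d724) (nat_lit 0x4b0c86aca8fbe) (nat_lit 0x0)
  (PL.C (nat_lit 0x8541bd4) (nat_lit 0x0) (nat_lit 0x405cd17a08088b)
  (PL.C (nat_lit 0x854d0af) (nat_lit 0x0) (nat_lit 0x12fcad5edc62a43)
  (PL.C (nat_lit 0x859923f) (nat_lit 0x9690c6bb8a0d5) (nat_lit 0x0) gp1_0_160))))))))))))))))))))

noncomputable def gp1_0_158 : PL :=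
  (PL.C (nat_lit 0x7d99b83) (nat_lit 0x7152611d2f4655) (nat_lit 0x0)
  (PL.C (nat_lit 0x7dda773) (nat_lit 0xf40143743db185) (nat_lit 0x0)
  (PL.C (nat_lit 0x7df73a5) (nat_lit 0x2f40e9f18ce490) (nat_lit 0x0)
  (PL.C (nat_lit 0x7e04a67) (nat_lit 0x331d7a1abaf0412) (nat_lit 0x0)
  (PL.C (nat_lit 0x7e4c3d2) (nat_lit 0x0) (nat_lit 0x70131f9d0c8125)
  (PL.C (nat_lit 0x7e7e52b) (nat_lit 0x0) (nat_lit 0xbfb30f95b6313)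
  (PL.C (nat_lit 0x7e89a75) (nat_lit 0x0) (nat_lit 0x1cf9e3aea3b54f)
  (PL.C (nat_lit 0x7eae825) (nat_lit 0x0) (nat_lit 0x2537ecb3eb1739)
  (PL.C (nat_lit 0x7f1bb87) (nat_lit 0x338ce13e9d3ac9) (nat_lit 0x0)
  (PL.C (nat_lit 0x7f4ac0e) (nat_lit 0x14495b59cf78ce2) (nat_lit 0x0)
  (PL.C (nat_lit 0x7fa0823) (nat_lit 0x0) (nat_lit 0x379ad229d326e3)
  (PL.C (nat_lit 0x7fe7daf) (nat_lit 0x0) (nat_lit 0x101830a011cbe97)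
  (PL.C (nat_lit 0x7ff07be) (nat_lit 0x0) (nat_lit 0x184e9938323643)
  (PL.C (nat_lit 0x800d1bf) (nat_lit 0x0) (nat_lit 0x2204f7e5d97c1a)
  (PL.C (nat_lit 0x8048372) (nat_lit 0x0) (nat_lit 0xcf9743365ab340)
  (PL.C (nat_lit 0x80627f7) (nat_lit 0x0) (nat_lit 0x3a7ad71480c9b1)
  (PL.C (nat_lit 0x8079b22) (nat_lit 0x0) (nat_lit 0x309dad475a9151)
  (PL.C (nat_lit 0x807b805) (nat_lit 0x25cb00ec7763c8e) (nat_lit 0x0)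
  (PL.C (nat_lit 0x80acb77) (nat_lit 0x0) (nat_lit 0x3af39eb507f2f6e)
  (PL.C (nat_lit 0x80ef3c2) (nat_lit 0x1dd456f19b3c2f) (nat_lit 0x0) gp1_0_159))))))))))))))))))))

noncomputable def gp1_0_157 : PL :=
  (PL.C (nat_lit 0x79e1e91) (nat_lit 0x0) (nat_lit 0x1d767f4ac34ebf1)
  (PL.C (nat_lit 0x7a20eae) (nat_lit 0x0) (nat_lit 0x63a3db782dd96b)
  (PL.C (nat_lit 0x7a4d0ba) (nat_lit 0xb368b6d3ecdc4) (nat_lit 0x0)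
  (PL.C (nat_lit 0x7a55861) (nat_lit 0x0) (nat_lit 0xb6333d3cad9e65)
  (PL.C (nat_lit 0x7acf314) (nat_lit 0x22cdb998b703aa) (nat_lit 0x0)
  (PL.C (nat_lit 0x7af4cc9) (nat_lit 0x0) (nat_lit 0xa2afcf2ddc565)
  (PL.C (nat_lit 0x7b0a382) (nat_lit 0x0) (nat_lit 0x80347717441b7b)
  (PL.C (nat_lit 0x7b34947) (nat_lit 0x0) (nat_lit 0x7325af264767c)
  (PL.C (nat_lit 0x7b50fde) (nat_lit 0x92e28a7a0d620d) (nat_lit 0x0)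
  (PL.C (nat_lit 0x7b631d7) (nat_lit 0xfe73a0d7528fa) (nat_lit 0x0)
  (PL.C (nat_lit 0x7b9b38b) (nat_lit 0x4907e45ed410cc) (nat_lit 0x0)
  (PL.C (nat_lit 0x7baeb74) (nat_lit 0xf0a08396438fcd) (nat_lit 0x0)
  (PL.C (nat_lit 0x7bddd4c) (nat_lit 0x3c2592afb81865) (nat_lit 0x0)
  (PL.C (nat_lit 0x7c03c2f) (nat_lit 0x0) (nat_lit 0x2339ee32c0249)
  (PL.C (nat_lit 0x7c29e79) (nat_lit 0x0) (nat_lit 0x32dd30ac07b431c)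
  (PL.C (nat_lit 0x7c335cc) (nat_lit 0x0) (nat_lit 0x12f92099ed36f)
  (PL.C (nat_lit 0x7c81e21) (nat_lit 0x2527c266d2b333) (nat_lit 0x0)
  (PL.C (nat_lit 0x7cab9dd) (nat_lit 0x0) (nat_lit 0x25de3e0be1d9a2)
  (PL.C (nat_lit 0x7cdb156) (nat_lit 0x0) (nat_lit 0x3260e3d7a4193c)
  (PL.C (nat_lit 0x7cded3d) (nat_lit 0x0) (nat_lit 0x426dee4cbaf8c) gp1_0_158))))))))))))))))))))

noncomputable def gp1_0_156 : PL :=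
  (PL.C (nat_lit 0x75716f9) (nat_lit 0x2c86cf590562a3f) (nat_lit 0x0)
  (PL.C (nat_lit 0x75ae25e) (nat_lit 0x0) (nat_lit 0x5349fb8d941254)
  (PL.C (nat_lit 0x75c91b5) (nat_lit 0x203daac9b03bcb) (nat_lit 0x0)
  (PL.C (nat_lit 0x7656134) (nat_lit 0x6942930788316e) (nat_lit 0x0)
  (PL.C (nat_lit 0x76b677b) (nat_lit 0x3a78b41d16c8123) (nat_lit 0x0)
  (PL.C (nat_lit 0x7703f4e) (nat_lit 0x4a6fa80c48998) (nat_lit 0x0)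
  (PL.C (nat_lit 0x771b22a) (nat_lit 0x0) (nat_lit 0x18603003d866f2)
  (PL.C (nat_lit 0x772bd96) (nat_lit 0x0) (nat_lit 0x1951c3660a1381)
  (PL.C (nat_lit 0x7751073) (nat_lit 0x0) (nat_lit 0x8d5cedaf6e16d8)
  (PL.C (nat_lit 0x7799397) (nat_lit 0x6d027e3aa4bc35) (nat_lit 0x0)
  (PL.C (nat_lit 0x781c00a) (nat_lit 0x3af3d9fa13b4025) (nat_lit 0x0)
  (PL.C (nat_lit 0x782937e) (nat_lit 0x6e59d4d7c95f12) (nat_lit 0x0)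
  (PL.C (nat_lit 0x78757c4) (nat_lit 0x0) (nat_lit 0x1168fffc478a2a)
  (PL.C (nat_lit 0x790693b) (nat_lit 0x0) (nat_lit 0x38e3c26ef517c)
  (PL.C (nat_lit 0x792f9d2) (nat_lit 0x4f31110dfd36ee) (nat_lit 0x0)
  (PL.C (nat_lit 0x793b8df) (nat_lit 0x0) (nat_lit 0x3573f087767358)
  (PL.C (nat_lit 0x7975c5a) (nat_lit 0x2fd5fa5519d7c7c) (nat_lit 0x0)
  (PL.C (nat_lit 0x797ef1c) (nat_lit 0x0) (nat_lit 0x6380f41bd5310)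
  (PL.C (nat_lit 0x7998166) (nat_lit 0x0) (nat_lit 0x3c7bc5c7463e29)
  (PL.C (nat_lit 0x799f7df) (nat_lit 0x0) (nat_lit 0x19d1b3eb934510) gp1_0_157))))))))))))))))))))

noncomputable def gp1_0_155 : PL :=
  (PL.C (nat_lit 0x72f87ab) (nat_lit 0x416a578ac018886) (nat_lit 0x0)
  (PL.C (nat_lit 0x730c756) (nat_lit 0x0) (nat_lit 0x14b07e0a1590395)
  (PL.C (nat_lit 0x732233d) (nat_lit 0x10059c7768dec82) (nat_lit 0x0)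
  (PL.C (nat_lit 0x7323056) (nat_lit 0x0) (nat_lit 0x2a509d15633b5a2)
  (PL.C (nat_lit 0x7327b4b) (nat_lit 0x0) (nat_lit 0x19c00549592e9e)
  (PL.C (nat_lit 0x734e4df) (nat_lit 0x0) (nat_lit 0x11c66342651e92)
  (PL.C (nat_lit 0x739a7b1) (nat_lit 0x0) (nat_lit 0xa7cc804d0b4bb1)
  (PL.C (nat_lit 0x739e80a) (nat_lit 0x7b0475671299eb) (nat_lit 0x0)
  (PL.C (nat_lit 0x73c67ee) (nat_lit 0x0) (nat_lit 0x1f373f068a0764b)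
  (PL.C (nat_lit 0x73f3a31) (nat_lit 0x78aefba5627839) (nat_lit 0x0)
  (PL.C (nat_lit 0x7436ab1) (nat_lit 0x0) (nat_lit 0xb1ceddb052d3cfd)
  (PL.C (nat_lit 0x7440dc5) (nat_lit 0x0) (nat_lit 0x6c4a47383cf11b)
  (PL.C (nat_lit 0x7470d4f) (nat_lit 0x237696fe1e2fbd5) (nat_lit 0x0)
  (PL.C (nat_lit 0x7478afe) (nat_lit 0xe01ada690026c5) (nat_lit 0x0)
  (PL.C (nat_lit 0x74b34df) (nat_lit 0x0) (nat_lit 0x29b352fe0d02e8)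
  (PL.C (nat_lit 0x74c5a22) (nat_lit 0xd49a5704bda43a) (nat_lit 0x0)
  (PL.C (nat_lit 0x751ccda) (nat_lit 0x0) (nat_lit 0x15acccc08e3a4a)
  (PL.C (nat_lit 0x75275ec) (nat_lit 0x0) (nat_lit 0x3c47ef5b0c81bd)
  (PL.C (nat_lit 0x752857b) (nat_lit 0x41a40a7e5224d1) (nat_lit 0x0)
  (PL.C (nat_lit 0x754f3fb) (nat_lit 0x0) (nat_lit 0x2623aa5bba35af) gp1_0_156))))))))))))))))))))

noncomputable def gp1_0_154 : PL :=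
  (PL.C (nat_lit 0x6e71992) (nat_lit 0x0) (nat_lit 0xa614eeb3363d7a)
  (PL.C (nat_lit 0x6eb0b21) (nat_lit 0x790f5c1237c1c) (nat_lit 0x0)
  (PL.C (nat_lit 0x6edbb46) (nat_lit 0x0) (nat_lit 0xb5d25589ce490d2)
  (PL.C (nat_lit 0x6ee6891) (nat_lit 0x20e3937f2d682a6) (nat_lit 0x0)
  (PL.C (nat_lit 0x6f14171) (nat_lit 0x0) (nat_lit 0x3fbf32877408b)
  (PL.C (nat_lit 0x6f9f0dc) (nat_lit 0x0) (nat_lit 0x77b72f4093b283)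
  (PL.C (nat_lit 0x700e832) (nat_lit 0x5cdf26dc2ccad7f) (nat_lit 0x0)
  (PL.C (nat_lit 0x704ea55) (nat_lit 0x0) (nat_lit 0x50317444f9798dd)
  (PL.C (nat_lit 0x70c717b) (nat_lit 0x0) (nat_lit 0xa6fda709d16d3)
  (PL.C (nat_lit 0x70d99b5) (nat_lit 0xace1e2c90ed5b) (nat_lit 0x0)
  (PL.C (nat_lit 0x70e2fcc) (nat_lit 0xbdcdfe74e7615) (nat_lit 0x0)
  (PL.C (nat_lit 0x70ece4f) (nat_lit 0x2573564398a560) (nat_lit 0x0)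
  (PL.C (nat_lit 0x70eee7e) (nat_lit 0x0) (nat_lit 0x1cfd9501f5b39a3)
  (PL.C (nat_lit 0x713741c) (nat_lit 0x1ee3c3d4f0dd74) (nat_lit 0x0)
  (PL.C (nat_lit 0x7168062) (nat_lit 0x25a93cb191fcd2) (nat_lit 0x0)
  (PL.C (nat_lit 0x72111de) (nat_lit 0x0) (nat_lit 0x71e860797e0528)
  (PL.C (nat_lit 0x723eb83) (nat_lit 0x0) (nat_lit 0x45997bdbad76e8)
  (PL.C (nat_lit 0x729de57) (nat_lit 0x0) (nat_lit 0x384a4e41780993)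
  (PL.C (nat_lit 0x72b3e34) (nat_lit 0x0) (nat_lit 0x48511380a83f24)
  (PL.C (nat_lit 0x72b8f07) (nat_lit 0x2235a98a80e003) (nat_lit 0x0) gp1_0_155))))))))))))))))))))

noncomputable def gp1_0_153 : PL :=
  (PL.C (nat_lit 0x6b2c3b5) (nat_lit 0x0) (nat_lit 0x4bf1af7ad98159)
  (PL.C (nat_lit 0x6b58415) (nat_lit 0x0) (nat_lit 0x36de9071e662c5)
  (PL.C (nat_lit 0x6b744c6) (nat_lit 0x0) (nat_lit 0xb1f8b0b6a30940)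
  (PL.C (nat_lit 0x6ba167a) (nat_lit 0x0) (nat_lit 0x3ddc6b3ccbcb6d)
  (PL.C (nat_lit 0x6bf8eab) (nat_lit 0x0) (nat_lit 0x2786d68e2197147)
  (PL.C (nat_lit 0x6c00336) (nat_lit 0x0) (nat_lit 0x1d589075101fd)
  (PL.C (nat_lit 0x6c3afdc) (nat_lit 0x0) (nat_lit 0x2bd17bf7fd5337)
  (PL.C (nat_lit 0x6c54d6f) (nat_lit 0x0) (nat_lit 0x1ce7bd703489d4)
  (PL.C (nat_lit 0x6c758d9) (nat_lit 0x0) (nat_lit 0x5ba5d3ebb07afad)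
  (PL.C (nat_lit 0x6c9f193) (nat_lit 0x2fab3a126c8677) (nat_lit 0x0)
  (PL.C (nat_lit 0x6cc7287) (nat_lit 0x10c31c3e07b37d) (nat_lit 0x0)
  (PL.C (nat_lit 0x6ce6dbd) (nat_lit 0x0) (nat_lit 0x323e45c8d071377)
  (PL.C (nat_lit 0x6d0f27a) (nat_lit 0x2252d01c8a914ea) (nat_lit 0x0)
  (PL.C (nat_lit 0x6db6e01) (nat_lit 0x0) (nat_lit 0x794847a6c8242)
  (PL.C (nat_lit 0x6db6e4b) (nat_lit 0x107ff57d) (nat_lit 0x0)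
  (PL.C (nat_lit 0x6dbc34e) (nat_lit 0x2ffc867ef8c5bc) (nat_lit 0x0)
  (PL.C (nat_lit 0x6de63da) (nat_lit 0x19d70ebf23e7f8) (nat_lit 0x0)
  (PL.C (nat_lit 0x6dfba4e) (nat_lit 0x0) (nat_lit 0x5c94495c5cf585)
  (PL.C (nat_lit 0x6e14407) (nat_lit 0x0) (nat_lit 0xb4717b5b676616a)
  (PL.C (nat_lit 0x6e45834) (nat_lit 0x0) (nat_lit 0x182ef3cf72c0be) gp1_0_154))))))))))))))))))))

noncomputable def gp1_0_152 : PL :=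
  (PL.C (nat_lit 0x68012a3) (nat_lit 0x0) (nat_lit 0xe7077f079cb2e)
  (PL.C (nat_lit 0x6823b09) (nat_lit 0x40f57d9da6e1ad) (nat_lit 0x0)
  (PL.C (nat_lit 0x682d6c2) (nat_lit 0x3fe625de736a521) (nat_lit 0x0)
  (PL.C (nat_lit 0x6830a46) (nat_lit 0x0) (nat_lit 0x18f2a92b1c22bd8)
  (PL.C (nat_lit 0x6868444) (nat_lit 0x0) (nat_lit 0x996233e923474)
  (PL.C (nat_lit 0x688b434) (nat_lit 0x0) (nat_lit 0x6b624dd5a5cd0)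
  (PL.C (nat_lit 0x6893607) (nat_lit 0x0) (nat_lit 0x4391d9c5ec49e)
  (PL.C (nat_lit 0x68b0a4b) (nat_lit 0x2d0f5c0404b04a) (nat_lit 0x0)
  (PL.C (nat_lit 0x68b84b6) (nat_lit 0x0) (nat_lit 0x2189969fa7e549c)
  (PL.C (nat_lit 0x68fcdbe) (nat_lit 0x0) (nat_lit 0x1e463195aae00f)
  (PL.C (nat_lit 0x691a865) (nat_lit 0x0) (nat_lit 0x35e4512b2ef7ef)
  (PL.C (nat_lit 0x69289aa) (nat_lit 0x0) (nat_lit 0xfba4b0ab34313)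
  (PL.C (nat_lit 0x6964b22) (nat_lit 0x1476f52f3440197) (nat_lit 0x0)
  (PL.C (nat_lit 0x699f11a) (nat_lit 0x0) (nat_lit 0x123cadb1bec7dea)
  (PL.C (nat_lit 0x6a10586) (nat_lit 0x0) (nat_lit 0xf0de7e106628b)
  (PL.C (nat_lit 0x6a11d5f) (nat_lit 0x5a5430a43a27d86) (nat_lit 0x0)
  (PL.C (nat_lit 0x6a3d67f) (nat_lit 0xbb83f36285236f) (nat_lit 0x0)
  (PL.C (nat_lit 0x6a55af9) (nat_lit 0x0) (nat_lit 0x9ee1bfc4e98d75)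
  (PL.C (nat_lit 0x6a61043) (nat_lit 0x430e6669f466600) (nat_lit 0x0)
  (PL.C (nat_lit 0x6af8d12) (nat_lit 0x0) (nat_lit 0x4c7cd645566a9b) gp1_0_153))))))))))))))))))))

noncomputable def gp1_0_151 : PL :=
  (PL.C (nat_lit 0x6323e9d) (nat_lit 0x0) (nat_lit 0x21008bcfe05b1d)
  (PL.C (nat_lit 0x633131a) (nat_lit 0x0) (nat_lit 0xb56938b52646d5)
  (PL.C (nat_lit 0x6341a96) (nat_lit 0x0) (nat_lit 0x1f5a58a1e6a7c1)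
  (PL.C (nat_lit 0x6360de9) (nat_lit 0x0) (nat_lit 0x72e4c9ce22eb5)
  (PL.C (nat_lit 0x636453a) (nat_lit 0x45ecadb3ed490c) (nat_lit 0x0)
  (PL.C (nat_lit 0x63a3b1e) (nat_lit 0x0) (nat_lit 0x1ee2d76d8fd5290)
  (PL.C (nat_lit 0x63ac1ca) (nat_lit 0x0) (nat_lit 0xc1cac3c44d679)
  (PL.C (nat_lit 0x640bc96) (nat_lit 0x0) (nat_lit 0xb517fda222b37c)
  (PL.C (nat_lit 0x64364a7) (nat_lit 0x0) (nat_lit 0x96b30742c9e394)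
  (PL.C (nat_lit 0x6462092) (nat_lit 0x0) (nat_lit 0xfdfc59b6b02c5e)
  (PL.C (nat_lit 0x648b452) (nat_lit 0x0) (nat_lit 0x291f20453078f9)
  (PL.C (nat_lit 0x64acf8a) (nat_lit 0x1e15b710facb3bb) (nat_lit 0x0)
  (PL.C (nat_lit 0x64d8563) (nat_lit 0xea9d635eaf3191) (nat_lit 0x0)
  (PL.C (nat_lit 0x65641b2) (nat_lit 0x0) (nat_lit 0x40e07731c64a4f1)
  (PL.C (nat_lit 0x65e05a5) (nat_lit 0x0) (nat_lit 0x13cc2b72a15c45)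
  (PL.C (nat_lit 0x669201b) (nat_lit 0x19a07aacbbdf231) (nat_lit 0x0)
  (PL.C (nat_lit 0x66d011f) (nat_lit 0x190cdcaa9244aec) (nat_lit 0x0)
  (PL.C (nat_lit 0x671a537) (nat_lit 0x0) (nat_lit 0x1bdf68769bbb20)
  (PL.C (nat_lit 0x676051a) (nat_lit 0x0) (nat_lit 0x692dc484d4e03a)
  (PL.C (nat_lit 0x679cca1) (nat_lit 0x0) (nat_lit 0x78bc12d1504e5e7) gp1_0_152))))))))))))))))))))

noncomputable def gp1_0_150 : PL :=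
  (PL.C (nat_lit 0x60189dd) (nat_lit 0xdda6ed73a4c1a7) (nat_lit 0x0)
  (PL.C (nat_lit 0x6020bbf) (nat_lit 0x0) (nat_lit 0xdb79b041ed30f)
  (PL.C (nat_lit 0x6052fb4) (nat_lit 0xf2fe3e3d3e70d) (nat_lit 0x0)
  (PL.C (nat_lit 0x60aee2e) (nat_lit 0x0) (nat_lit 0x400a50c7aa2029)
  (PL.C (nat_lit 0x6102ecd) (nat_lit 0x3fab181e80fec7) (nat_lit 0x0)
  (PL.C (nat_lit 0x610d997) (nat_lit 0x1b5a556ba20349b) (nat_lit 0x0)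
  (PL.C (nat_lit 0x613182e) (nat_lit 0x0) (nat_lit 0x130cb422e066609)
  (PL.C (nat_lit 0x614b332) (nat_lit 0x238b495fe78fcf) (nat_lit 0x0)
  (PL.C (nat_lit 0x61ba76a) (nat_lit 0x555550e91fe95b) (nat_lit 0x0)
  (PL.C (nat_lit 0x61bb826) (nat_lit 0x36ceea840b0b3b) (nat_lit 0x0)
  (PL.C (nat_lit 0x61e48f3) (nat_lit 0x0) (nat_lit 0x1f51e0db1f2537)
  (PL.C (nat_lit 0x620eb6e) (nat_lit 0x25a314a1cae9ff8) (nat_lit 0x0)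
  (PL.C (nat_lit 0x621a335) (nat_lit 0x876fdad877d9bb) (nat_lit 0x0)
  (PL.C (nat_lit 0x62219be) (nat_lit 0x0) (nat_lit 0x58bf6525f24f52)
  (PL.C (nat_lit 0x6235eab) (nat_lit 0x0) (nat_lit 0x9f5848f090eb41)
  (PL.C (nat_lit 0x627c95e) (nat_lit 0x6cb134f3f8b19) (nat_lit 0x0)
  (PL.C (nat_lit 0x628369b) (nat_lit 0xb021297be7841) (nat_lit 0x0)
  (PL.C (nat_lit 0x6292e2a) (nat_lit 0x3db0e49605186a) (nat_lit 0x0)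
  (PL.C (nat_lit 0x62a46ef) (nat_lit 0x1f5dd71584815e5) (nat_lit 0x0)
  (PL.C (nat_lit 0x631f627) (nat_lit 0x0) (nat_lit 0x2b65ca025e7ae7) gp1_0_151))))))))))))))))))))

noncomputable def gp1_0_149 : PL :=
  (PL.C (nat_lit 0x5e0463a) (nat_lit 0x5ea8e77b61180e) (nat_lit 0x0)
  (PL.C (nat_lit 0x5e12b57) (nat_lit 0x0) (nat_lit 0x1e7b8f355443414)
  (PL.C (nat_lit 0x5e4c264) (nat_lit 0x0) (nat_lit 0x218ca8a0d78a09)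
  (PL.C (nat_lit 0x5e50db9) (nat_lit 0x1b6e6be8be4cbd) (nat_lit 0x0)
  (PL.C (nat_lit 0x5e77999) (nat_lit 0x0) (nat_lit 0x26a68df5f40b34)
  (PL.C (nat_lit 0x5e9ab54) (nat_lit 0x0) (nat_lit 0x28ac7e37b3b3cf)
  (PL.C (nat_lit 0x5ea120f) (nat_lit 0x0) (nat_lit 0x25ed4d48f6124fb)
  (PL.C (nat_lit 0x5eb7fd6) (nat_lit 0x0) (nat_lit 0x59da2a8f275a22)
  (PL.C (nat_lit 0x5f07e9c) (nat_lit 0x0) (nat_lit 0x2d4fac4391c512)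
  (PL.C (nat_lit 0x5f0ca87) (nat_lit 0x0) (nat_lit 0x15b69cb1b6d173)
  (PL.C (nat_lit 0x5f43549) (nat_lit 0x360723710f77a) (nat_lit 0x0)
  (PL.C (nat_lit 0x5f4b3fc) (nat_lit 0x37475e4b723885) (nat_lit 0x0)
  (PL.C (nat_lit 0x5f539cb) (nat_lit 0x15d5e3d7f26d37) (nat_lit 0x0)
  (PL.C (nat_lit 0x5f554f6) (nat_lit 0x0) (nat_lit 0x144403e0314be06)
  (PL.C (nat_lit 0x5f6b30c) (nat_lit 0x3ebd11b7c449c9) (nat_lit 0x0)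
  (PL.C (nat_lit 0x5f8c0aa) (nat_lit 0xa8b0c6b81dc7c6) (nat_lit 0x0)
  (PL.C (nat_lit 0x5f944aa) (nat_lit 0xe301a4f134657b) (nat_lit 0x0)
  (PL.C (nat_lit 0x5fa2134) (nat_lit 0x0) (nat_lit 0x4f44cd1bba290)
  (PL.C (nat_lit 0x5fdba42) (nat_lit 0x997f39c1387da5) (nat_lit 0x0)
  (PL.C (nat_lit 0x6004ee7) (nat_lit 0x4c9ae0af96ba83) (nat_lit 0x0) gp1_0_150))))))))))))))))))))

noncomputable def gp1_0_148 : PL :=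
  (PL.C (nat_lit 0x5b2d7d6) (nat_lit 0x57b7cca7a7e44e) (nat_lit 0x0)
  (PL.C (nat_lit 0x5b52f16) (nat_lit 0x18ffc59fdaece9) (nat_lit 0x0)
  (PL.C (nat_lit 0x5b5d04c) (nat_lit 0x0) (nat_lit 0x1c1706335a8aa0)
  (PL.C (nat_lit 0x5b72d6b) (nat_lit 0x0) (nat_lit 0x4c59927d9a0e315)
  (PL.C (nat_lit 0x5c21847) (nat_lit 0x76df15045ff7b3) (nat_lit 0x0)
  (PL.C (nat_lit 0x5c5e2fc) (nat_lit 0x0) (nat_lit 0x351508c582ff4a)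
  (PL.C (nat_lit 0x5c87fb2) (nat_lit 0x0) (nat_lit 0x5b3e5d759bbbe9)
  (PL.C (nat_lit 0x5cd7c06) (nat_lit 0x1884fbeb08067eb) (nat_lit 0x0)
  (PL.C (nat_lit 0x5cd8f79) (nat_lit 0x0) (nat_lit 0x102d71c99ab544)
  (PL.C (nat_lit 0x5cec863) (nat_lit 0xb7b2cea5ff00e6) (nat_lit 0x0)
  (PL.C (nat_lit 0x5d2563c) (nat_lit 0x0) (nat_lit 0x6c6acac0553516)
  (PL.C (nat_lit 0x5d354f4) (nat_lit 0x0) (nat_lit 0x52b04e1e36af68)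
  (PL.C (nat_lit 0x5d41e9b) (nat_lit 0x2e72427549769) (nat_lit 0x0)
  (PL.C (nat_lit 0x5d5d756) (nat_lit 0x13d1c7e1888243e) (nat_lit 0x0)
  (PL.C (nat_lit 0x5d70965) (nat_lit 0x0) (nat_lit 0x742e6e150d616)
  (PL.C (nat_lit 0x5d82c8f) (nat_lit 0x0) (nat_lit 0x7754b7d7ed53c4)
  (PL.C (nat_lit 0x5d9e095) (nat_lit 0x1fc9256ea97f1fc) (nat_lit 0x0)
  (PL.C (nat_lit 0x5d9ea9c) (nat_lit 0x0) (nat_lit 0x7c159cafac9f1)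
  (PL.C (nat_lit 0x5de2b04) (nat_lit 0x48402d9cb1ee63) (nat_lit 0x0)
  (PL.C (nat_lit 0x5deeba5) (nat_lit 0x3cdf0b64786a6e) (nat_lit 0x0) gp1_0_149))))))))))))))))))))

noncomputable def gp1_0_147 : PL :=
  (PL.C (nat_lit 0x58b1a36) (nat_lit 0x72f5bad2970b28) (nat_lit 0x0)
  (PL.C (nat_lit 0x58c3cf5) (nat_lit 0x0) (nat_lit 0x5cfdf69ee2f4a3)
  (PL.C (nat_lit 0x58fe73b) (nat_lit 0x1cfc72b1697c7f) (nat_lit 0x0)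
  (PL.C (nat_lit 0x59093a3) (nat_lit 0x0) (nat_lit 0x38f556c2b7615d)
  (PL.C (nat_lit 0x5910c2a) (nat_lit 0xc2fafe8f07c8e9) (nat_lit 0x0)
  (PL.C (nat_lit 0x591b7b1) (nat_lit 0x0) (nat_lit 0x17ad5bf6cc7e8b1)
  (PL.C (nat_lit 0x5929302) (nat_lit 0x0) (nat_lit 0x33bfa591c4bfe1)
  (PL.C (nat_lit 0x598a11b) (nat_lit 0x111710e4331eda0d) (nat_lit 0x0)
  (PL.C (nat_lit 0x59ab336) (nat_lit 0x3f2264ff2e25488) (nat_lit 0x0)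
  (PL.C (nat_lit 0x59cce8f) (nat_lit 0x0) (nat_lit 0x4aa12836b87345)
  (PL.C (nat_lit 0x59cd705) (nat_lit 0x1a3d80174611eb) (nat_lit 0x0)
  (PL.C (nat_lit 0x5a1ff26) (nat_lit 0x0) (nat_lit 0x8c8491f7831a76)
  (PL.C (nat_lit 0x5a27d9e) (nat_lit 0x0) (nat_lit 0x33b8e06610a017)
  (PL.C (nat_lit 0x5a78749) (nat_lit 0xc364d3ecb183df) (nat_lit 0x0)
  (PL.C (nat_lit 0x5a81e01) (nat_lit 0x6017a77bb6ff0ab) (nat_lit 0x0)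
  (PL.C (nat_lit 0x5a95496) (nat_lit 0x9ecbf0634fcaa) (nat_lit 0x0)
  (PL.C (nat_lit 0x5aac7e7) (nat_lit 0x26e67d6effdce4) (nat_lit 0x0)
  (PL.C (nat_lit 0x5acc1ca) (nat_lit 0x42ec0eb344911) (nat_lit 0x0)
  (PL.C (nat_lit 0x5adb5e2) (nat_lit 0x738f3f2464b175) (nat_lit 0x0)
  (PL.C (nat_lit 0x5af168a) (nat_lit 0x0) (nat_lit 0xab90f99fdffcc1) gp1_0_148))))))))))))))))))))

noncomputable def gp1_0_146 : PL :=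
  (PL.C (nat_lit 0x554afd4) (nat_lit 0x0) (nat_lit 0x98c0e31c57f3dd)
  (PL.C (nat_lit 0x555e12a) (nat_lit 0xe058eeb382d8a4) (nat_lit 0x0)
  (PL.C (nat_lit 0x5596ffa) (nat_lit 0x1d989fcb57ced43) (nat_lit 0x0)
  (PL.C (nat_lit 0x55a676c) (nat_lit 0x0) (nat_lit 0x3f037980d1f7b8)
  (PL.C (nat_lit 0x55a7aae) (nat_lit 0x0) (nat_lit 0x4897929e3c48558)
  (PL.C (nat_lit 0x55f4d2c) (nat_lit 0x77022b96c40af5) (nat_lit 0x0)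
  (PL.C (nat_lit 0x5601266) (nat_lit 0x0) (nat_lit 0x17b12698236061e)
  (PL.C (nat_lit 0x56247a6) (nat_lit 0x42785d268ece0e) (nat_lit 0x0)
  (PL.C (nat_lit 0x56ca3db) (nat_lit 0x29879ac95172a77) (nat_lit 0x0)
  (PL.C (nat_lit 0x56eeac5) (nat_lit 0xdc95685b743933) (nat_lit 0x0)
  (PL.C (nat_lit 0x5727eb4) (nat_lit 0x25e1ed1b540a71) (nat_lit 0x0)
  (PL.C (nat_lit 0x573b3d3) (nat_lit 0x0) (nat_lit 0xab87cfff1b30cf)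
  (PL.C (nat_lit 0x57770e5) (nat_lit 0x28a28b7eb7aa9c0) (nat_lit 0x0)
  (PL.C (nat_lit 0x57e8eed) (nat_lit 0x0) (nat_lit 0x2d4e30a3197bed)
  (PL.C (nat_lit 0x57f3dde) (nat_lit 0x0) (nat_lit 0x318a4d470eff2ea)
  (PL.C (nat_lit 0x5855b4d) (nat_lit 0x4e188e0d32ee8) (nat_lit 0x0)
  (PL.C (nat_lit 0x585feb7) (nat_lit 0x0) (nat_lit 0xa46b2ac5e5d7c9)
  (PL.C (nat_lit 0x586660e) (nat_lit 0x0) (nat_lit 0x1cb471fa20bb5d)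
  (PL.C (nat_lit 0x5899212) (nat_lit 0x0) (nat_lit 0x51274c298bc88)
  (PL.C (nat_lit 0x58a1dbf) (nat_lit 0x0) (nat_lit 0x6e8935165bc5e6) gp1_0_147))))))))))))))))))))

noncomputable def gp1_0_145 : PL :=
  (PL.C (nat_lit 0x531d13e) (nat_lit 0x0) (nat_lit 0x984fa3f26e4ad0)
  (PL.C (nat_lit 0x533f37e) (nat_lit 0x1c0886ebf572c0) (nat_lit 0x0)
  (PL.C (nat_lit 0x5363139) (nat_lit 0x260dee66aa5b3e) (nat_lit 0x0)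
  (PL.C (nat_lit 0x53bbd02) (nat_lit 0x55ac6a01483a53) (nat_lit 0x0)
  (PL.C (nat_lit 0x53c9b6e) (nat_lit 0x0) (nat_lit 0x59fe0fae7664e)
  (PL.C (nat_lit 0x53e6fa2) (nat_lit 0x0) (nat_lit 0x1b50c9018442be)
  (PL.C (nat_lit 0x53fa26e) (nat_lit 0x20d4b268f00f6bb) (nat_lit 0x0)
  (PL.C (nat_lit 0x540319a) (nat_lit 0x31f6c8427995fc1) (nat_lit 0x0)
  (PL.C (nat_lit 0x542749b) (nat_lit 0x0) (nat_lit 0xd84cd4c7aec742)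
  (PL.C (nat_lit 0x5454372) (nat_lit 0xa75ab7455bbbc0) (nat_lit 0x0)
  (PL.C (nat_lit 0x545bc4e) (nat_lit 0x0) (nat_lit 0x161d8450eef17a)
  (PL.C (nat_lit 0x5464113) (nat_lit 0x10f6c81de14809) (nat_lit 0x0)
  (PL.C (nat_lit 0x547456e) (nat_lit 0x0) (nat_lit 0x130a3ea9dc7bcc)
  (PL.C (nat_lit 0x54bd25a) (nat_lit 0xb817f931ca99f9) (nat_lit 0x0)
  (PL.C (nat_lit 0x54cc3b7) (nat_lit 0x548ddcb560999b) (nat_lit 0x0)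
  (PL.C (nat_lit 0x54f67d1) (nat_lit 0x1b0893b318166fc) (nat_lit 0x0)
  (PL.C (nat_lit 0x55039ad) (nat_lit 0x0) (nat_lit 0x10c82570767fa0)
  (PL.C (nat_lit 0x5515ac2) (nat_lit 0x0) (nat_lit 0x914ccb9e268a78)
  (PL.C (nat_lit 0x552102f) (nat_lit 0xe736b39b3f10f6) (nat_lit 0x0)
  (PL.C (nat_lit 0x55453ca) (nat_lit 0x0) (nat_lit 0x314571b67cfb1a7) gp1_0_146))))))))))))))))))))

noncomputable def gp1_0_144 : PL :=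
  (PL.C (nat_lit 0x50ca68c) (nat_lit 0x11418390c301fa2) (nat_lit 0x0)
  (PL.C (nat_lit 0x50d25ea) (nat_lit 0x0) (nat_lit 0x4e682a798000ae)
  (PL.C (nat_lit 0x51141b1) (nat_lit 0x3302651ec630c4) (nat_lit 0x0)
  (PL.C (nat_lit 0x5114fea) (nat_lit 0x0) (nat_lit 0x1df2432408c639)
  (PL.C (nat_lit 0x511a9d9) (nat_lit 0x0) (nat_lit 0x20a5c01c852c27)
  (PL.C (nat_lit 0x51302c2) (nat_lit 0x3d7d479a41a87a) (nat_lit 0x0)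
  (PL.C (nat_lit 0x5135691) (nat_lit 0x0) (nat_lit 0x43733286233888)
  (PL.C (nat_lit 0x516b474) (nat_lit 0x40c3f727bde6ab) (nat_lit 0x0)
  (PL.C (nat_lit 0x518e596) (nat_lit 0x0) (nat_lit 0x5f61f560bc479bf)
  (PL.C (nat_lit 0x51e48c1) (nat_lit 0x939cc0eb93946df) (nat_lit 0x0)
  (PL.C (nat_lit 0x51f28b3) (nat_lit 0x21e97ba0be584a) (nat_lit 0x0)
  (PL.C (nat_lit 0x51f8886) (nat_lit 0x0) (nat_lit 0x1b150b07110a58)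
  (PL.C (nat_lit 0x52230da) (nat_lit 0x0) (nat_lit 0x4c26450a950cbf)
  (PL.C (nat_lit 0x524213a) (nat_lit 0x0) (nat_lit 0x79529032f7fb55)
  (PL.C (nat_lit 0x52677b2) (nat_lit 0x1b95c2b9eb5440b) (nat_lit 0x0)
  (PL.C (nat_lit 0x52ad2ca) (nat_lit 0x0) (nat_lit 0x1b7eaa97ef74a2)
  (PL.C (nat_lit 0x52c69a6) (nat_lit 0x28a44723205246) (nat_lit 0x0)
  (PL.C (nat_lit 0x52cce88) (nat_lit 0x0) (nat_lit 0x68af59ddaab4)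
  (PL.C (nat_lit 0x52d04c9) (nat_lit 0x0) (nat_lit 0x11d330606a8589d)
  (PL.C (nat_lit 0x5301416) (nat_lit 0x30cbc293df38e1) (nat_lit 0x0) gp1_0_145))))))))))))))))))))

noncomputable def gp1_0_143 : PL :=
  (PL.C (nat_lit 0x4dd916c) (nat_lit 0xb68310ade29dfe) (nat_lit 0x0)
  (PL.C (nat_lit 0x4dfcf5b) (nat_lit 0x71734c4d82eef) (nat_lit 0x0)
  (PL.C (nat_lit 0x4e1333c) (nat_lit 0x75bbc1624d3810) (nat_lit 0x0)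
  (PL.C (nat_lit 0x4e1ae52) (nat_lit 0x7830fe697b5877) (nat_lit 0x0)
  (PL.C (nat_lit 0x4e34d52) (nat_lit 0x0) (nat_lit 0xba9f248da258a5)
  (PL.C (nat_lit 0x4e74194) (nat_lit 0x0) (nat_lit 0xc36038114ce950)
  (PL.C (nat_lit 0x4e809af) (nat_lit 0x0) (nat_lit 0xa4e5d508d88777)
  (PL.C (nat_lit 0x4ea7e51) (nat_lit 0x0) (nat_lit 0x700eb4436c9323)
  (PL.C (nat_lit 0x4ed4cc1) (nat_lit 0x0) (nat_lit 0x5f63ec710e8a01)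
  (PL.C (nat_lit 0x4ef010b) (nat_lit 0x0) (nat_lit 0x4132af262ce256)
  (PL.C (nat_lit 0x4f3344f) (nat_lit 0xa593d375849f74) (nat_lit 0x0)
  (PL.C (nat_lit 0x4f8b5a2) (nat_lit 0x57175734f2d100) (nat_lit 0x0)
  (PL.C (nat_lit 0x4f9e05d) (nat_lit 0x8c008232fa1a0d) (nat_lit 0x0)
  (PL.C (nat_lit 0x4fbb7ba) (nat_lit 0x0) (nat_lit 0x11d2ed821d31e83)
  (PL.C (nat_lit 0x4fe1c8b) (nat_lit 0x2bd9d9e615e3392) (nat_lit 0x0)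
  (PL.C (nat_lit 0x502b303) (nat_lit 0x0) (nat_lit 0xa4a71af7589446)
  (PL.C (nat_lit 0x5030ca5) (nat_lit 0x7d2353e94e78) (nat_lit 0x0)
  (PL.C (nat_lit 0x503c8e3) (nat_lit 0x0) (nat_lit 0x8719d83c4f148b)
  (PL.C (nat_lit 0x507a5e7) (nat_lit 0x0) (nat_lit 0x328b446fff8cd20)
  (PL.C (nat_lit 0x50af0d2) (nat_lit 0x3d0c2c46b10cd71) (nat_lit 0x0) gp1_0_144))))))))))))))))))))

noncomputable def gp1_0_142 : PL :=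
  (PL.C (nat_lit 0x4c99de9) (nat_lit 0x15d7a2b3005d624) (nat_lit 0x0)
  (PL.C (nat_lit 0x4ca5a72) (nat_lit 0x351c6832d9c8fb4) (nat_lit 0x0)
  (PL.C (nat_lit 0x4cc177e) (nat_lit 0x2136309104869f7) (nat_lit 0x0)
  (PL.C (nat_lit 0x4cc5232) (nat_lit 0x0) (nat_lit 0x82746710f5fe7)
  (PL.C (nat_lit 0x4cd984d) (nat_lit 0x0) (nat_lit 0xeb3989ffdd7575)
  (PL.C (nat_lit 0x4cdedea) (nat_lit 0x0) (nat_lit 0x10b8a380462112e)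
  (PL.C (nat_lit 0x4cf7dae) (nat_lit 0xc9c97a40b8cfaa) (nat_lit 0x0)
  (PL.C (nat_lit 0x4cfffb3) (nat_lit 0x2cd3bf2064f21a) (nat_lit 0x0)
  (PL.C (nat_lit 0x4d11a76) (nat_lit 0x0) (nat_lit 0xc34965c3d8dda9)
  (PL.C (nat_lit 0x4d1455c) (nat_lit 0x276dfdc191520a) (nat_lit 0x0)
  (PL.C (nat_lit 0x4d2bf03) (nat_lit 0x1c50143c65206) (nat_lit 0x0)
  (PL.C (nat_lit 0x4d2eff4) (nat_lit 0xdd4e156754928a) (nat_lit 0x0)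
  (PL.C (nat_lit 0x4d32657) (nat_lit 0x0) (nat_lit 0x1b2dd0effa02a35)
  (PL.C (nat_lit 0x4d32d9d) (nat_lit 0x6c8b98d97b03e) (nat_lit 0x0)
  (PL.C (nat_lit 0x4d4d176) (nat_lit 0xe30c2749ca39fb) (nat_lit 0x0)
  (PL.C (nat_lit 0x4d528fd) (nat_lit 0x123dc6fd9e00aa) (nat_lit 0x0)
  (PL.C (nat_lit 0x4d79c76) (nat_lit 0x0) (nat_lit 0xef81c7801207e82)
  (PL.C (nat_lit 0x4d8092e) (nat_lit 0x0) (nat_lit 0xd28b83931e9589)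
  (PL.C (nat_lit 0x4dc5da3) (nat_lit 0x0) (nat_lit 0x1b52a45e66041a)
  (PL.C (nat_lit 0x4dccdea) (nat_lit 0x0) (nat_lit 0x2a1e5bd528dd996) gp1_0_143))))))))))))))))))))

noncomputable def gp1_0_141 : PL :=
  (PL.C (nat_lit 0x4962d5a) (nat_lit 0x0) (nat_lit 0x8e08d65335d914e)
  (PL.C (nat_lit 0x4990323) (nat_lit 0x0) (nat_lit 0xc17d54b34202b0)
  (PL.C (nat_lit 0x49a110c) (nat_lit 0x0) (nat_lit 0x39d3b7c093b6ec)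
  (PL.C (nat_lit 0x49cb216) (nat_lit 0x4d7fe15eba057e) (nat_lit 0x0)
  (PL.C (nat_lit 0x4a06b6d) (nat_lit 0xb2c6be19f0822d) (nat_lit 0x0)
  (PL.C (nat_lit 0x4a5bc99) (nat_lit 0x0) (nat_lit 0x7e9a57bd9c6956)
  (PL.C (nat_lit 0x4adf18e) (nat_lit 0x0) (nat_lit 0x2db677a21f083fe)
  (PL.C (nat_lit 0x4afd07b) (nat_lit 0xabc6856048ec23) (nat_lit 0x0)
  (PL.C (nat_lit 0x4b2f652) (nat_lit 0x47e2fa792f00f8) (nat_lit 0x0)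
  (PL.C (nat_lit 0x4b3bbce) (nat_lit 0x737569f8c183c0) (nat_lit 0x0)
  (PL.C (nat_lit 0x4b4898a) (nat_lit 0x0) (nat_lit 0x1c4e6ad9ed450b)
  (PL.C (nat_lit 0x4b69063) (nat_lit 0x0) (nat_lit 0x4526361d8eea64)
  (PL.C (nat_lit 0x4b95cc7) (nat_lit 0x24fff4769ca3c95) (nat_lit 0x0)
  (PL.C (nat_lit 0x4b9aaec) (nat_lit 0x1681bf01b39b64) (nat_lit 0x0)
  (PL.C (nat_lit 0x4befda5) (nat_lit 0x0) (nat_lit 0x56c43506f72562)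
  (PL.C (nat_lit 0x4c0b694) (nat_lit 0x0) (nat_lit 0xd2faabc41eb6a)
  (PL.C (nat_lit 0x4c29d02) (nat_lit 0x2137e9b8dd2c5e) (nat_lit 0x0)
  (PL.C (nat_lit 0x4c66fc5) (nat_lit 0x0) (nat_lit 0x63c94b70c315cb2)
  (PL.C (nat_lit 0x4c6943a) (nat_lit 0x0) (nat_lit 0x50a4b6c7e87608)
  (PL.C (nat_lit 0x4c80ea3) (nat_lit 0x5bd76817ffb5a2) (nat_lit 0x0) gp1_0_142))))))))))))))))))))

noncomputable def gp1_0_140 : PL :=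
  (PL.C (nat_lit 0x4709e47) (nat_lit 0x3a0e433418fefbf) (nat_lit 0x0)
  (PL.C (nat_lit 0x476661f) (nat_lit 0x12803dffac13392) (nat_lit 0x0)
  (PL.C (nat_lit 0x47b2f51) (nat_lit 0x3c43812508e25) (nat_lit 0x0)
  (PL.C (nat_lit 0x47c0efc) (nat_lit 0x0) (nat_lit 0x38727a8c51928b)
  (PL.C (nat_lit 0x47fb472) (nat_lit 0x0) (nat_lit 0x66ea543bd3c3c4)
  (PL.C (nat_lit 0x4800224) (nat_lit 0x2dbfee4afa0e73) (nat_lit 0x0)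
  (PL.C (nat_lit 0x4803ba9) (nat_lit 0x1607bca559f12b1) (nat_lit 0x0)
  (PL.C (nat_lit 0x481ddcf) (nat_lit 0x0) (nat_lit 0x982e01c6620587)
  (PL.C (nat_lit 0x484e5e6) (nat_lit 0x4fb7061a421ba9) (nat_lit 0x0)
  (PL.C (nat_lit 0x486cbd3) (nat_lit 0x0) (nat_lit 0x2046a0286054488)
  (PL.C (nat_lit 0x4884c5a) (nat_lit 0x148471c4814bcc) (nat_lit 0x0)
  (PL.C (nat_lit 0x4899e7e) (nat_lit 0x0) (nat_lit 0x36519cfc596efd9)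
  (PL.C (nat_lit 0x48cb08b) (nat_lit 0x28caa689189b507) (nat_lit 0x0)
  (PL.C (nat_lit 0x48ef775) (nat_lit 0x6b5e440e0cf65e) (nat_lit 0x0)
  (PL.C (nat_lit 0x49191a5) (nat_lit 0x0) (nat_lit 0x27e942eb39011a)
  (PL.C (nat_lit 0x4924956) (nat_lit 0x0) (nat_lit 0x32a4a1bbb48b14)
  (PL.C (nat_lit 0x4928234) (nat_lit 0x2225bce41900f3) (nat_lit 0x0)
  (PL.C (nat_lit 0x4943a87) (nat_lit 0x884f15c51a9174) (nat_lit 0x0)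
  (PL.C (nat_lit 0x4949d8d) (nat_lit 0x0) (nat_lit 0xbaeb48987171c)
  (PL.C (nat_lit 0x4962699) (nat_lit 0x67cbecf8219876) (nat_lit 0x0) gp1_0_141))))))))))))))))))))

noncomputable def gp1_0_139 : PL :=
  (PL.C (nat_lit 0x448914a) (nat_lit 0x0) (nat_lit 0x78d2ff1960e342)
  (PL.C (nat_lit 0x448ab6a) (nat_lit 0x0) (nat_lit 0x1a2098f56011261)
  (PL.C (nat_lit 0x44bc37a) (nat_lit 0x0) (nat_lit 0x3df242ba46f25f)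
  (PL.C (nat_lit 0x44f35dd) (nat_lit 0x0) (nat_lit 0xc0c4955e2f542e)
  (PL.C (nat_lit 0x4513316) (nat_lit 0x1d8ca5abc809c75) (nat_lit 0x0)
  (PL.C (nat_lit 0x4521585) (nat_lit 0x0) (nat_lit 0x11c177f71a1d199)
  (PL.C (nat_lit 0x452ecef) (nat_lit 0x0) (nat_lit 0x4c6689f3ca8908e)
  (PL.C (nat_lit 0x45561c2) (nat_lit 0x0) (nat_lit 0x49e80510d0d796)
  (PL.C (nat_lit 0x456d206) (nat_lit 0x2d0c7156d1c34bc) (nat_lit 0x0)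
  (PL.C (nat_lit 0x45b795a) (nat_lit 0x1fdc26d4ea1f7e) (nat_lit 0x0)
  (PL.C (nat_lit 0x45d0324) (nat_lit 0x11a3cba49a783bb) (nat_lit 0x0)
  (PL.C (nat_lit 0x4611aee) (nat_lit 0x0) (nat_lit 0x1ec098707ca216)
  (PL.C (nat_lit 0x461b11c) (nat_lit 0x4995f0dc0a1990) (nat_lit 0x0)
  (PL.C (nat_lit 0x46292b6) (nat_lit 0x647bbab0feaf3) (nat_lit 0x0)
  (PL.C (nat_lit 0x466a0bc) (nat_lit 0x0) (nat_lit 0x3a2f63bc535874)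
  (PL.C (nat_lit 0x46b5904) (nat_lit 0x0) (nat_lit 0x1f32f7e0786f7e)
  (PL.C (nat_lit 0x46b68ea) (nat_lit 0x19609c90d4175d0) (nat_lit 0x0)
  (PL.C (nat_lit 0x46d39aa) (nat_lit 0x558da9c598a694) (nat_lit 0x0)
  (PL.C (nat_lit 0x46e3ca6) (nat_lit 0x0) (nat_lit 0xc678a7cefb052e)
  (PL.C (nat_lit 0x46eb582) (nat_lit 0x0) (nat_lit 0x37fc71c0cbb20f7) gp1_0_140))))))))))))))))))))

noncomputable def gp1_0_138 : PL :=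
  (PL.C (nat_lit 0x42350bb) (nat_lit 0x0) (nat_lit 0x39a14a70bc39d)
  (PL.C (nat_lit 0x4240946) (nat_lit 0xc26f4818a17b2) (nat_lit 0x0)
  (PL.C (nat_lit 0x426d214) (nat_lit 0x0) (nat_lit 0x7d09266fb43447)
  (PL.C (nat_lit 0x4270725) (nat_lit 0x0) (nat_lit 0xe65c7e8a17a8b4)
  (PL.C (nat_lit 0x4272bdc) (nat_lit 0x0) (nat_lit 0x5ea46aa53a8642)
  (PL.C (nat_lit 0x4281789) (nat_lit 0x0) (nat_lit 0x1fb50dab2f4006)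
  (PL.C (nat_lit 0x42a20b1) (nat_lit 0x19eaf2a798567a) (nat_lit 0x0)
  (PL.C (nat_lit 0x42b2864) (nat_lit 0x0) (nat_lit 0xe02e975fa6c380)
  (PL.C (nat_lit 0x42c6f2d) (nat_lit 0x0) (nat_lit 0x7a8061e79919b)
  (PL.C (nat_lit 0x42db7cb) (nat_lit 0x3b808d1d992119) (nat_lit 0x0)
  (PL.C (nat_lit 0x430adc3) (nat_lit 0x0) (nat_lit 0x4cb56e50d22b96)
  (PL.C (nat_lit 0x4326663) (nat_lit 0x42b8d4a82dda7) (nat_lit 0x0)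
  (PL.C (nat_lit 0x433ae42) (nat_lit 0x151aa11106d5549) (nat_lit 0x0)
  (PL.C (nat_lit 0x43a18a9) (nat_lit 0x1c6041dcd781167) (nat_lit 0x0)
  (PL.C (nat_lit 0x43acc4f) (nat_lit 0x0) (nat_lit 0x431bd0f882225e)
  (PL.C (nat_lit 0x43c4679) (nat_lit 0xc9e27864580221) (nat_lit 0x0)
  (PL.C (nat_lit 0x43eae6e) (nat_lit 0x12a4769181e187) (nat_lit 0x0)
  (PL.C (nat_lit 0x43ef9c3) (nat_lit 0x5411b6b479c0ee4) (nat_lit 0x0)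
  (PL.C (nat_lit 0x443694f) (nat_lit 0x12506b920034678) (nat_lit 0x0)
  (PL.C (nat_lit 0x4471635) (nat_lit 0x0) (nat_lit 0x131e78857b16a6) gp1_0_139))))))))))))))))))))

noncomputable def gp1_0_137 : PL :=
  (PL.C (nat_lit 0x40e66db) (nat_lit 0x0) (nat_lit 0x269fc928421ca4)
  (PL.C (nat_lit 0x41254d1) (nat_lit 0x0) (nat_lit 0x2d1751f17d904)
  (PL.C (nat_lit 0x4126f9c) (nat_lit 0x650e9e5288e28) (nat_lit 0x0)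
  (PL.C (nat_lit 0x4127ac4) (nat_lit 0x0) (nat_lit 0x1fd67dcd07d0a6)
  (PL.C (nat_lit 0x412aed1) (nat_lit 0x6cace6f98ee867) (nat_lit 0x0)
  (PL.C (nat_lit 0x413aed3) (nat_lit 0x0) (nat_lit 0x71b77cc5cef54)
  (PL.C (nat_lit 0x41430a2) (nat_lit 0x0) (nat_lit 0x1e811dfe9acfa2f)
  (PL.C (nat_lit 0x414773d) (nat_lit 0x6ce8aba11b413) (nat_lit 0x0)
  (PL.C (nat_lit 0x415b92d) (nat_lit 0x0) (nat_lit 0x37a70f75924f2f)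
  (PL.C (nat_lit 0x4166cce) (nat_lit 0x0) (nat_lit 0x27dad79f7b2bf36)
  (PL.C (nat_lit 0x416bbd4) (nat_lit 0x0) (nat_lit 0x184416e4a8b12c)
  (PL.C (nat_lit 0x4179472) (nat_lit 0x0) (nat_lit 0x99c01cf3838534)
  (PL.C (nat_lit 0x417d43d) (nat_lit 0x0) (nat_lit 0x72fd1e83db5d43)
  (PL.C (nat_lit 0x41acf12) (nat_lit 0x0) (nat_lit 0x5120c3cabc9163)
  (PL.C (nat_lit 0x41b741c) (nat_lit 0x0) (nat_lit 0x16085b32ff7635a)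
  (PL.C (nat_lit 0x41c2f4a) (nat_lit 0x329d86c4a949c9f) (nat_lit 0x0)
  (PL.C (nat_lit 0x41df483) (nat_lit 0xc433042de19e2f) (nat_lit 0x0)
  (PL.C (nat_lit 0x4220cbc) (nat_lit 0x99076fd71d010f) (nat_lit 0x0)
  (PL.C (nat_lit 0x422b521) (nat_lit 0x0) (nat_lit 0x77c9046b947cab)
  (PL.C (nat_lit 0x422bc64) (nat_lit 0x2e57f1207ec797) (nat_lit 0x0) gp1_0_138))))))))))))))))))))

noncomputable def gp1_0_136 : PL :=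
  (PL.C (nat_lit 0x3ee0926) (nat_lit 0x9ea3c8b64e39ea) (nat_lit 0x0)
  (PL.C (nat_lit 0x3efa666) (nat_lit 0x0) (nat_lit 0x8cfe338996650b)
  (PL.C (nat_lit 0x3f15b91) (nat_lit 0xd2a568e37ef9e8) (nat_lit 0x0)
  (PL.C (nat_lit 0x3f34046) (nat_lit 0x0) (nat_lit 0x86fd83b4c994d2)
  (PL.C (nat_lit 0x3f3d14b) (nat_lit 0x0) (nat_lit 0x121cd5e0014aefc)
  (PL.C (nat_lit 0x3f570eb) (nat_lit 0x0) (nat_lit 0x2cbc4f14775f21)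
  (PL.C (nat_lit 0x3f5dc5a) (nat_lit 0x0) (nat_lit 0x1732cb132dfca0d)
  (PL.C (nat_lit 0x3f82386) (nat_lit 0x1bb983ad42191e) (nat_lit 0x0)
  (PL.C (nat_lit 0x3f8d132) (nat_lit 0xcce0042916ace2) (nat_lit 0x0)
  (PL.C (nat_lit 0x3fa872f) (nat_lit 0x8f8cab02a398f8) (nat_lit 0x0)
  (PL.C (nat_lit 0x3fb2b1c) (nat_lit 0x2f406d20bb48f7) (nat_lit 0x0)
  (PL.C (nat_lit 0x3fb831c) (nat_lit 0x0) (nat_lit 0x126a489a4cf5f8)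
  (PL.C (nat_lit 0x3fe7c2c) (nat_lit 0x0) (nat_lit 0x109fa1e9f7092)
  (PL.C (nat_lit 0x3fec191) (nat_lit 0x1e0502aa970e7ff) (nat_lit 0x0)
  (PL.C (nat_lit 0x400349a) (nat_lit 0xa1b7d89e90cd25) (nat_lit 0x0)
  (PL.C (nat_lit 0x4015d2a) (nat_lit 0x3140eb023a54a) (nat_lit 0x0)
  (PL.C (nat_lit 0x4074974) (nat_lit 0x0) (nat_lit 0xd9308a6d20e8e6)
  (PL.C (nat_lit 0x40ac9de) (nat_lit 0x0) (nat_lit 0xc31d093f1d570d)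
  (PL.C (nat_lit 0x40b3bba) (nat_lit 0x0) (nat_lit 0x6d8cd9ddc36d09)
  (PL.C (nat_lit 0x40dcccc) (nat_lit 0x11ccc25e218736) (nat_lit 0x0) gp1_0_137))))))))))))))))))))

noncomputable def gp1_0_135 : PL :=
  (PL.C (nat_lit 0x3daffcc) (nat_lit 0x4553b3dc261777) (nat_lit 0x0)
  (PL.C (nat_lit 0x3dc60b5) (nat_lit 0x0) (nat_lit 0x4e1e21afdb27253)
  (PL.C (nat_lit 0x3de5fa6) (nat_lit 0x0) (nat_lit 0x4032af56be12f)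
  (PL.C (nat_lit 0x3de8421) (nat_lit 0x1839b203ef478c0) (nat_lit 0x0)
  (PL.C (nat_lit 0x3df3042) (nat_lit 0x0) (nat_lit 0x6d5a7ec94b132d0)
  (PL.C (nat_lit 0x3dfeb97) (nat_lit 0xc72d66472939cb) (nat_lit 0x0)
  (PL.C (nat_lit 0x3e01b01) (nat_lit 0x2a37ca2215bc20) (nat_lit 0x0)
  (PL.C (nat_lit 0x3e073df) (nat_lit 0x16e046c5eecc3c6) (nat_lit 0x0)
  (PL.C (nat_lit 0x3e2bf12) (nat_lit 0x268c0743a07086) (nat_lit 0x0)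
  (PL.C (nat_lit 0x3e3e4e4) (nat_lit 0x97a7643967acbe) (nat_lit 0x0)
  (PL.C (nat_lit 0x3e4b0ee) (nat_lit 0x0) (nat_lit 0x1ef89ec8fd339e)
  (PL.C (nat_lit 0x3e5730a) (nat_lit 0x0) (nat_lit 0x233b572aa0b92e9)
  (PL.C (nat_lit 0x3e69c68) (nat_lit 0x13a76b4c137b7) (nat_lit 0x0)
  (PL.C (nat_lit 0x3e6f7f3) (nat_lit 0x0) (nat_lit 0x4ab7c14f1bea41)
  (PL.C (nat_lit 0x3e93973) (nat_lit 0x0) (nat_lit 0x109eda859c8fd55)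
  (PL.C (nat_lit 0x3e9f26e) (nat_lit 0x0) (nat_lit 0x16704ef48ea7275)
  (PL.C (nat_lit 0x3ead97c) (nat_lit 0x0) (nat_lit 0x2a20ce8a0feaea)
  (PL.C (nat_lit 0x3eb2e8d) (nat_lit 0xc893782d44e5ca) (nat_lit 0x0)
  (PL.C (nat_lit 0x3eb723a) (nat_lit 0x73030dc196b99) (nat_lit 0x0)
  (PL.C (nat_lit 0x3ed6b3d) (nat_lit 0x1c076765849561) (nat_lit 0x0) gp1_0_136))))))))))))))))))))

noncomputable def gp1_0_134 : PL :=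
  (PL.C (nat_lit 0x3bb1612) (nat_lit 0x0) (nat_lit 0x1257cf99bae8ddea)
  (PL.C (nat_lit 0x3bd9c5d) (nat_lit 0xa025b38da25d32) (nat_lit 0x0)
  (PL.C (nat_lit 0x3bddf0a) (nat_lit 0x1be61536936618c) (nat_lit 0x0)
  (PL.C (nat_lit 0x3bde4ae) (nat_lit 0x2c4129450bddc8) (nat_lit 0x0)
  (PL.C (nat_lit 0x3bf7ba3) (nat_lit 0x5eb183f3c4588c1) (nat_lit 0x0)
  (PL.C (nat_lit 0x3c154c4) (nat_lit 0xcf4387a0fb6706) (nat_lit 0x0)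
  (PL.C (nat_lit 0x3c1a914) (nat_lit 0x0) (nat_lit 0x31f22cddf10b4d)
  (PL.C (nat_lit 0x3c27b25) (nat_lit 0x1d3cbdcc0303a) (nat_lit 0x0)
  (PL.C (nat_lit 0x3c45cdb) (nat_lit 0x6022f5e8252194) (nat_lit 0x0)
  (PL.C (nat_lit 0x3c56956) (nat_lit 0x11f69d0263b1e26e) (nat_lit 0x0)
  (PL.C (nat_lit 0x3c63864) (nat_lit 0x5882773385da4) (nat_lit 0x0)
  (PL.C (nat_lit 0x3c791df) (nat_lit 0x0) (nat_lit 0x4436e2c6e9d61dc)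
  (PL.C (nat_lit 0x3c923ec) (nat_lit 0x0) (nat_lit 0x63810d536dd607)
  (PL.C (nat_lit 0x3c97621) (nat_lit 0x0) (nat_lit 0xe221582b0665d2)
  (PL.C (nat_lit 0x3cb9f91) (nat_lit 0x3538164662699e) (nat_lit 0x0)
  (PL.C (nat_lit 0x3cc8fe4) (nat_lit 0x61bea83b44affe) (nat_lit 0x0)
  (PL.C (nat_lit 0x3ce1f64) (nat_lit 0x1ca512c5817b54) (nat_lit 0x0)
  (PL.C (nat_lit 0x3d2345f) (nat_lit 0xb2bdd07e2549e9c) (nat_lit 0x0)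
  (PL.C (nat_lit 0x3d6bada) (nat_lit 0xb909595467d676) (nat_lit 0x0)
  (PL.C (nat_lit 0x3d72df7) (nat_lit 0x0) (nat_lit 0xcf24341c3495ad) gp1_0_135))))))))))))))))))))

noncomputable def gp1_0_133 : PL :=
  (PL.C (nat_lit 0x3a34811) (nat_lit 0x0) (nat_lit 0x13f79ce8b6014af)
  (PL.C (nat_lit 0x3a4f5ee) (nat_lit 0x790bf8394632632) (nat_lit 0x0)
  (PL.C (nat_lit 0x3a66aeb) (nat_lit 0x0) (nat_lit 0x138a1499fc76e340)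
  (PL.C (nat_lit 0x3a7d0d9) (nat_lit 0x368407da7236d50) (nat_lit 0x0)
  (PL.C (nat_lit 0x3a9b49e) (nat_lit 0x1dea506744a6c95) (nat_lit 0x0)
  (PL.C (nat_lit 0x3aa3b17) (nat_lit 0x0) (nat_lit 0x2db5a12b4a0ec14)
  (PL.C (nat_lit 0x3ad63c7) (nat_lit 0x25c1be5b55234b) (nat_lit 0x0)
  (PL.C (nat_lit 0x3ae3cde) (nat_lit 0xf4442fce4d394) (nat_lit 0x0)
  (PL.C (nat_lit 0x3aeeeb4) (nat_lit 0xaa4bb1bb5e9477) (nat_lit 0x0)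
  (PL.C (nat_lit 0x3b0740b) (nat_lit 0x0) (nat_lit 0x53ab57a330a578)
  (PL.C (nat_lit 0x3b10c0c) (nat_lit 0x0) (nat_lit 0x1197bc731ea291)
  (PL.C (nat_lit 0x3b1692a) (nat_lit 0x0) (nat_lit 0xccdc3758b1b21b)
  (PL.C (nat_lit 0x3b2d34e) (nat_lit 0x0) (nat_lit 0x54919b36663820)
  (PL.C (nat_lit 0x3b45fb5) (nat_lit 0xe6f792a7cfe74b) (nat_lit 0x0)
  (PL.C (nat_lit 0x3b544d2) (nat_lit 0x26d1eaa74ce6fe) (nat_lit 0x0)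
  (PL.C (nat_lit 0x3b5b7c2) (nat_lit 0x0) (nat_lit 0x8d1d03279d7354)
  (PL.C (nat_lit 0x3b6081c) (nat_lit 0xf6039e9e51cb12) (nat_lit 0x0)
  (PL.C (nat_lit 0x3b67a76) (nat_lit 0x0) (nat_lit 0x5037860d3fb84c6)
  (PL.C (nat_lit 0x3b70cac) (nat_lit 0x5cb98ef5ef1b01) (nat_lit 0x0)
  (PL.C (nat_lit 0x3b8955d) (nat_lit 0xee1f703b9d84) (nat_lit 0x0) gp1_0_134))))))))))))))))))))

noncomputable def gp1_0_132 : PL :=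
  (PL.C (nat_lit 0x389820f) (nat_lit 0x0) (nat_lit 0x2971ec58435472)
  (PL.C (nat_lit 0x38a4536) (nat_lit 0x0) (nat_lit 0x3db075fa1583c91)
  (PL.C (nat_lit 0x38ab193) (nat_lit 0x0) (nat_lit 0x943b98e1302ddd)
  (PL.C (nat_lit 0x38ad11e) (nat_lit 0x0) (nat_lit 0x3ab1fe227acd3a)
  (PL.C (nat_lit 0x38b0ffb) (nat_lit 0x5f488421a47b49) (nat_lit 0x0)
  (PL.C (nat_lit 0x38c0aca) (nat_lit 0x0) (nat_lit 0x11f908d5e023679)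
  (PL.C (nat_lit 0x38e112a) (nat_lit 0x0) (nat_lit 0x22241db603cb24)
  (PL.C (nat_lit 0x38e961c) (nat_lit 0x7dcf5996854be8) (nat_lit 0x0)
  (PL.C (nat_lit 0x38facf3) (nat_lit 0x31bb10b5ccc120) (nat_lit 0x0)
  (PL.C (nat_lit 0x3919a48) (nat_lit 0x0) (nat_lit 0x1a993b20ec676f)
  (PL.C (nat_lit 0x391d4bd) (nat_lit 0x4ff906b21f2cea9) (nat_lit 0x0)
  (PL.C (nat_lit 0x3934c1d) (nat_lit 0x28f98590fdf0b6e) (nat_lit 0x0)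
  (PL.C (nat_lit 0x3941d4b) (nat_lit 0x681649a41eeffc) (nat_lit 0x0)
  (PL.C (nat_lit 0x3947ee9) (nat_lit 0xd3893d75735954) (nat_lit 0x0)
  (PL.C (nat_lit 0x3967a85) (nat_lit 0x29f97bfc30846d) (nat_lit 0x0)
  (PL.C (nat_lit 0x396878e) (nat_lit 0x0) (nat_lit 0x153dc106e9f4b83)
  (PL.C (nat_lit 0x39dc292) (nat_lit 0x0) (nat_lit 0xf3279de67da93d)
  (PL.C (nat_lit 0x39f472e) (nat_lit 0xe0ea414bce88b5) (nat_lit 0x0)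
  (PL.C (nat_lit 0x3a23921) (nat_lit 0x0) (nat_lit 0x237af67fa133619)
  (PL.C (nat_lit 0x3a277e2) (nat_lit 0x0) (nat_lit 0x199544dbb33a64) gp1_0_133))))))))))))))))))))

noncomputable def gp1_0_131 : PL :=
  (PL.C (nat_lit 0x3735886) (nat_lit 0x1fe03b612da349d) (nat_lit 0x0)
  (PL.C (nat_lit 0x37487f1) (nat_lit 0xd6be9a4326b19) (nat_lit 0x0)
  (PL.C (nat_lit 0x3784545) (nat_lit 0x35c0b3b8b6e53d) (nat_lit 0x0)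
  (PL.C (nat_lit 0x3797626) (nat_lit 0x12ba704787db51) (nat_lit 0x0)
  (PL.C (nat_lit 0x379b3cf) (nat_lit 0x0) (nat_lit 0x5611416d60c941c)
  (PL.C (nat_lit 0x37ca943) (nat_lit 0x0) (nat_lit 0x2bc24bef6fc9119)
  (PL.C (nat_lit 0x37d28ac) (nat_lit 0x0) (nat_lit 0x24c267503935ea)
  (PL.C (nat_lit 0x37dbcf4) (nat_lit 0x684f3661dd2d74) (nat_lit 0x0)
  (PL.C (nat_lit 0x37f2dfb) (nat_lit 0x12b84ea2bc7d4c) (nat_lit 0x0)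
  (PL.C (nat_lit 0x3800a09) (nat_lit 0x3853a30460c174) (nat_lit 0x0)
  (PL.C (nat_lit 0x381337b) (nat_lit 0x0) (nat_lit 0xe1de8dc8852158)
  (PL.C (nat_lit 0x3815c79) (nat_lit 0x0) (nat_lit 0x1f341dc9a8fa19e)
  (PL.C (nat_lit 0x381a312) (nat_lit 0x1ec44d6c2b09dd) (nat_lit 0x0)
  (PL.C (nat_lit 0x382f485) (nat_lit 0x0) (nat_lit 0xa7f1c37531c055)
  (PL.C (nat_lit 0x383824c) (nat_lit 0xca295cb2624f61) (nat_lit 0x0)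
  (PL.C (nat_lit 0x3842b62) (nat_lit 0x0) (nat_lit 0x699a8f4594f3df)
  (PL.C (nat_lit 0x384d8f4) (nat_lit 0x2f19308d74db4) (nat_lit 0x0)
  (PL.C (nat_lit 0x384f5b5) (nat_lit 0x0) (nat_lit 0x63dff5b00514c)
  (PL.C (nat_lit 0x3870237) (nat_lit 0x0) (nat_lit 0x97487e16c17ec5)
  (PL.C (nat_lit 0x388827a) (nat_lit 0x146d2b2955f67d) (nat_lit 0x0) gp1_0_132))))))))))))))))))))

noncomputable def gp1_0_130 : PL :=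
  (PL.C (nat_lit 0x3552915) (nat_lit 0x0) (nat_lit 0xd67533c32dfc0)
  (PL.C (nat_lit 0x35621b7) (nat_lit 0x3ae6e395105f741) (nat_lit 0x0)
  (PL.C (nat_lit 0x3572202) (nat_lit 0x0) (nat_lit 0x184ea555bdf10f2)
  (PL.C (nat_lit 0x357db42) (nat_lit 0x0) (nat_lit 0x2af8d514a765ed8)
  (PL.C (nat_lit 0x35a6e9a) (nat_lit 0x0) (nat_lit 0x470f7c6f0f15a6e)
  (PL.C (nat_lit 0x35ab71e) (nat_lit 0x0) (nat_lit 0x234800d0f946a8)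
  (PL.C (nat_lit 0x35ca08c) (nat_lit 0x1f9d27b180524e0) (nat_lit 0x0)
  (PL.C (nat_lit 0x35f5d95) (nat_lit 0x2f6ef6daa161f8a) (nat_lit 0x0)
  (PL.C (nat_lit 0x360d676) (nat_lit 0x0) (nat_lit 0x966fd9f5718815)
  (PL.C (nat_lit 0x3611be6) (nat_lit 0x382e23c8c468353) (nat_lit 0x0)
  (PL.C (nat_lit 0x36239b6) (nat_lit 0x0) (nat_lit 0x89dc70000f294d)
  (PL.C (nat_lit 0x365ceb9) (nat_lit 0xf39a74099bea06) (nat_lit 0x0)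
  (PL.C (nat_lit 0x365ee64) (nat_lit 0x3fbe7e31d8f9217) (nat_lit 0x0)
  (PL.C (nat_lit 0x36985d6) (nat_lit 0x54f362e528d16dc) (nat_lit 0x0)
  (PL.C (nat_lit 0x36a1b22) (nat_lit 0xfaeabb1defe3fb) (nat_lit 0x0)
  (PL.C (nat_lit 0x36a5b04) (nat_lit 0x0) (nat_lit 0x1bd36966a1987e)
  (PL.C (nat_lit 0x36d6b7c) (nat_lit 0x377dc745a82a7e) (nat_lit 0x0)
  (PL.C (nat_lit 0x36e782b) (nat_lit 0x1b6042e3689ad4) (nat_lit 0x0)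
  (PL.C (nat_lit 0x3702fd5) (nat_lit 0x0) (nat_lit 0xb456bf028a2a74)
  (PL.C (nat_lit 0x371e1dc) (nat_lit 0x0) (nat_lit 0x2be1e911862954) gp1_0_131))))))))))))))))))))

noncomputable def gp1_0_129 : PL :=
  (PL.C (nat_lit 0x33dde9c) (nat_lit 0x0) (nat_lit 0x7c0edeb09b35be)
  (PL.C (nat_lit 0x33fdf92) (nat_lit 0x2729d6581b5620) (nat_lit 0x0)
  (PL.C (nat_lit 0x340193d) (nat_lit 0x49a9c0d4caac82) (nat_lit 0x0)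
  (PL.C (nat_lit 0x342338c) (nat_lit 0x0) (nat_lit 0x4ff4ed974b9870)
  (PL.C (nat_lit 0x3425849) (nat_lit 0xbd084459fd9042) (nat_lit 0x0)
  (PL.C (nat_lit 0x3442665) (nat_lit 0x1562d1adc6f7e77) (nat_lit 0x0)
  (PL.C (nat_lit 0x3455bca) (nat_lit 0x0) (nat_lit 0x5df8100466d2dd2)
  (PL.C (nat_lit 0x3464ecb) (nat_lit 0x48397621364f70) (nat_lit 0x0)
  (PL.C (nat_lit 0x348ddd6) (nat_lit 0x126579a146376f7) (nat_lit 0x0)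
  (PL.C (nat_lit 0x34a00b2) (nat_lit 0x0) (nat_lit 0x1d78645ab0b560e)
  (PL.C (nat_lit 0x34b48ff) (nat_lit 0xbd76921828cfda) (nat_lit 0x0)
  (PL.C (nat_lit 0x34ccd8a) (nat_lit 0x3c49de07b4a0f8) (nat_lit 0x0)
  (PL.C (nat_lit 0x34d307f) (nat_lit 0x10a5abb40decda5) (nat_lit 0x0)
  (PL.C (nat_lit 0x34ed781) (nat_lit 0x0) (nat_lit 0x516aab6a94a0f9)
  (PL.C (nat_lit 0x34f10a2) (nat_lit 0xb825a3fb556d7a) (nat_lit 0x0)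
  (PL.C (nat_lit 0x350baf1) (nat_lit 0x5f12ab51c5dfa) (nat_lit 0x0)
  (PL.C (nat_lit 0x351403e) (nat_lit 0x14256af916468d2) (nat_lit 0x0)
  (PL.C (nat_lit 0x351d76d) (nat_lit 0xa71d4b9a7788c2) (nat_lit 0x0)
  (PL.C (nat_lit 0x3527a7c) (nat_lit 0x0) (nat_lit 0xea2bd526844909)
  (PL.C (nat_lit 0x3537eeb) (nat_lit 0x0) (nat_lit 0x66a6d2b89e6dd4) gp1_0_130))))))))))))))))))))

noncomputable def gp1_0_128 : PL :=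
  (PL.C (nat_lit 0x32ef52e) (nat_lit 0x0) (nat_lit 0x7005d82341359f2)
  (PL.C (nat_lit 0x32f0d7c) (nat_lit 0x96704ce14f232) (nat_lit 0x0)
  (PL.C (nat_lit 0x32f44cd) (nat_lit 0x0) (nat_lit 0x6a48ae423bb101)
  (PL.C (nat_lit 0x33009c2) (nat_lit 0x0) (nat_lit 0x12915819797550)
  (PL.C (nat_lit 0x330c79b) (nat_lit 0x0) (nat_lit 0x3548d62b595a29a)
  (PL.C (nat_lit 0x332ba54) (nat_lit 0xd444e7d2f9af97) (nat_lit 0x0)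
  (PL.C (nat_lit 0x332e335) (nat_lit 0x0) (nat_lit 0x21957d826476cb)
  (PL.C (nat_lit 0x333bade) (nat_lit 0x0) (nat_lit 0x1f71466b78bb214)
  (PL.C (nat_lit 0x3343395) (nat_lit 0x0) (nat_lit 0x53fa61be80c84e)
  (PL.C (nat_lit 0x334ba3b) (nat_lit 0x0) (nat_lit 0x82584983ba78b8)
  (PL.C (nat_lit 0x334fe74) (nat_lit 0xabc90f58fcad1f) (nat_lit 0x0)
  (PL.C (nat_lit 0x3354681) (nat_lit 0xa917aab01b590) (nat_lit 0x0)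
  (PL.C (nat_lit 0x3355522) (nat_lit 0x0) (nat_lit 0x1bb260b6dd2d6a7)
  (PL.C (nat_lit 0x33611a4) (nat_lit 0x0) (nat_lit 0x9e64d9b5a0b69)
  (PL.C (nat_lit 0x3372a02) (nat_lit 0x64074c27a6ed2) (nat_lit 0x0)
  (PL.C (nat_lit 0x33773be) (nat_lit 0x3ee04b13c58a7e) (nat_lit 0x0)
  (PL.C (nat_lit 0x3388ba4) (nat_lit 0xfc222001d3830d) (nat_lit 0x0)
  (PL.C (nat_lit 0x338c5fe) (nat_lit 0x31b0961eeae295) (nat_lit 0x0)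
  (PL.C (nat_lit 0x338ff2b) (nat_lit 0x0) (nat_lit 0x11a5caa0d0d0a7)
  (PL.C (nat_lit 0x33d93c2) (nat_lit 0x1a70a39f244e329) (nat_lit 0x0) gp1_0_129))))))))))))))))))))

noncomputable def gp1_0_127 : PL :=
  (PL.C (nat_lit 0x3132164) (nat_lit 0x71f4d905af015e) (nat_lit 0x0)
  (PL.C (nat_lit 0x313dd61) (nat_lit 0x0) (nat_lit 0x555315af8861e5c)
  (PL.C (nat_lit 0x3171cc9) (nat_lit 0x0) (nat_lit 0x1a628c54929be1)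
  (PL.C (nat_lit 0x3192866) (nat_lit 0x0) (nat_lit 0xa99ce654723780)
  (PL.C (nat_lit 0x31dec2f) (nat_lit 0x0) (nat_lit 0x5fccd96091a42)
  (PL.C (nat_lit 0x31fe052) (nat_lit 0x13ef4a54eb3728b) (nat_lit 0x0)
  (PL.C (nat_lit 0x31feacb) (nat_lit 0x0) (nat_lit 0xa25c938a7fe062)
  (PL.C (nat_lit 0x3209349) (nat_lit 0x0) (nat_lit 0x8e5a773dfa98c8a)
  (PL.C (nat_lit 0x321f98c) (nat_lit 0x16be653e335709) (nat_lit 0x0)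
  (PL.C (nat_lit 0x3227d34) (nat_lit 0x0) (nat_lit 0x5007a789ec3653)
  (PL.C (nat_lit 0x323065c) (nat_lit 0x0) (nat_lit 0x156f0baab754b7)
  (PL.C (nat_lit 0x32372f1) (nat_lit 0x0) (nat_lit 0x670e229c082d0)
  (PL.C (nat_lit 0x3246042) (nat_lit 0xffd064ecc7c996) (nat_lit 0x0)
  (PL.C (nat_lit 0x325050f) (nat_lit 0x1f6f2e4a012d8) (nat_lit 0x0)
  (PL.C (nat_lit 0x3263dda) (nat_lit 0x3b11598152cff69) (nat_lit 0x0)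
  (PL.C (nat_lit 0x3268c7d) (nat_lit 0x0) (nat_lit 0x26697931760bca)
  (PL.C (nat_lit 0x3268c9f) (nat_lit 0x3cb715f31e4ea14) (nat_lit 0x0)
  (PL.C (nat_lit 0x32943cf) (nat_lit 0x0) (nat_lit 0xe8d1abbb918545)
  (PL.C (nat_lit 0x329fe6e) (nat_lit 0x57aaa7aa9ee3ec) (nat_lit 0x0)
  (PL.C (nat_lit 0x32c68ac) (nat_lit 0x24e1a03bb9d944) (nat_lit 0x0) gp1_0_128))))))))))))))))))))

noncomputable def gp1_0_126 : PL :=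
  (PL.C (nat_lit 0x30027c6) (nat_lit 0x1c5530e1ab2be97) (nat_lit 0x0)
  (PL.C (nat_lit 0x3013e8a) (nat_lit 0x0) (nat_lit 0x1798f71f4908617)
  (PL.C (nat_lit 0x30289e3) (nat_lit 0x0) (nat_lit 0xd91c4b751b9776)
  (PL.C (nat_lit 0x3035f9a) (nat_lit 0x4be4d462d8b4e) (nat_lit 0x0)
  (PL.C (nat_lit 0x3036a71) (nat_lit 0x1b5ddaf39014bd9d) (nat_lit 0x0)
  (PL.C (nat_lit 0x30487e2) (nat_lit 0x648f7511548f075) (nat_lit 0x0)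
  (PL.C (nat_lit 0x304a751) (nat_lit 0xa11c67753fb565) (nat_lit 0x0)
  (PL.C (nat_lit 0x305883c) (nat_lit 0x1652d31614fa705) (nat_lit 0x0)
  (PL.C (nat_lit 0x305aa4d) (nat_lit 0x0) (nat_lit 0x279e6032c76dae1)
  (PL.C (nat_lit 0x30875b2) (nat_lit 0x35edab0f5a1c5f4) (nat_lit 0x0)
  (PL.C (nat_lit 0x309fa4e) (nat_lit 0x0) (nat_lit 0x58d9f562df10dc)
  (PL.C (nat_lit 0x30b703b) (nat_lit 0x0) (nat_lit 0xaa89bb623791b3)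
  (PL.C (nat_lit 0x30bb66e) (nat_lit 0x0) (nat_lit 0x115ba3c6736b7a2)
  (PL.C (nat_lit 0x30bc163) (nat_lit 0x0) (nat_lit 0x36c11abb13163a7)
  (PL.C (nat_lit 0x30c30e4) (nat_lit 0x2ab61a877c2a71) (nat_lit 0x0)
  (PL.C (nat_lit 0x30d7c5a) (nat_lit 0x599d358b876079) (nat_lit 0x0)
  (PL.C (nat_lit 0x30dbe5e) (nat_lit 0x0) (nat_lit 0x5244c7e0b6c444)
  (PL.C (nat_lit 0x30ec466) (nat_lit 0x0) (nat_lit 0x3f89a3f9df7877)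
  (PL.C (nat_lit 0x30fb89b) (nat_lit 0x293c5a2f2e4520) (nat_lit 0x0)
  (PL.C (nat_lit 0x310acc2) (nat_lit 0x0) (nat_lit 0x166911a49f5071d) gp1_0_127))))))))))))))))))))

noncomputable def gp1_0_125 : PL :=
  (PL.C (nat_lit 0x2e163ae) (nat_lit 0x0) (nat_lit 0x25bb29f0a9689f0)
  (PL.C (nat_lit 0x2e1f34a) (nat_lit 0x0) (nat_lit 0x5eb19401faed94a)
  (PL.C (nat_lit 0x2e48c04) (nat_lit 0x26d3b6101d586) (nat_lit 0x0)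
  (PL.C (nat_lit 0x2e4eb4b) (nat_lit 0x39b91f871991fb) (nat_lit 0x0)
  (PL.C (nat_lit 0x2e7a63c) (nat_lit 0x0) (nat_lit 0x19b8198be88289)
  (PL.C (nat_lit 0x2ebbab1) (nat_lit 0x6e1a9182b52b8a7) (nat_lit 0x0)
  (PL.C (nat_lit 0x2ebcb68) (nat_lit 0x3b026262ee7405) (nat_lit 0x0)
  (PL.C (nat_lit 0x2ee5c3a) (nat_lit 0x0) (nat_lit 0x78d8efcedc3d60)
  (PL.C (nat_lit 0x2efd3c6) (nat_lit 0x31b05a7263b2d2) (nat_lit 0x0)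
  (PL.C (nat_lit 0x2f18b8f) (nat_lit 0x18c73acb642262e) (nat_lit 0x0)
  (PL.C (nat_lit 0x2f23b58) (nat_lit 0x0) (nat_lit 0x5ac18e2898f09)
  (PL.C (nat_lit 0x2f560a7) (nat_lit 0x686c10c6ea6d26) (nat_lit 0x0)
  (PL.C (nat_lit 0x2f5beda) (nat_lit 0x0) (nat_lit 0x6529ba2e06e3da2)
  (PL.C (nat_lit 0x2f909c7) (nat_lit 0x0) (nat_lit 0x1fccf6678f18f3)
  (PL.C (nat_lit 0x2f961c5) (nat_lit 0x25df19b6205c20a) (nat_lit 0x0)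
  (PL.C (nat_lit 0x2f9996a) (nat_lit 0x0) (nat_lit 0x8733eef366f8aa)
  (PL.C (nat_lit 0x2fb99dd) (nat_lit 0x11dd978dfbeabb) (nat_lit 0x0)
  (PL.C (nat_lit 0x2fcca36) (nat_lit 0x0) (nat_lit 0x88fd8c0954fbd)
  (PL.C (nat_lit 0x2fd088e) (nat_lit 0x18c481422853561) (nat_lit 0x0)
  (PL.C (nat_lit 0x2fe7f3e) (nat_lit 0x9fb9422bfa1cb9) (nat_lit 0x0) gp1_0_126))))))))))))))))))))

noncomputable def gp1_0_124 : PL :=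
  (PL.C (nat_lit 0x2c84a1e) (nat_lit 0x0) (nat_lit 0x5feed084fa643e)
  (PL.C (nat_lit 0x2c92532) (nat_lit 0x3f8fd85483e4a20) (nat_lit 0x0)
  (PL.C (nat_lit 0x2c978bb) (nat_lit 0x67845a0242c8bc8) (nat_lit 0x0)
  (PL.C (nat_lit 0x2cb1e82) (nat_lit 0x7e990b9ae6b1f9) (nat_lit 0x0)
  (PL.C (nat_lit 0x2cb5015) (nat_lit 0x1c622573f071d4) (nat_lit 0x0)
  (PL.C (nat_lit 0x2cc4442) (nat_lit 0x20871bfa13f90) (nat_lit 0x0)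
  (PL.C (nat_lit 0x2d165c6) (nat_lit 0x19943d870fbb96c) (nat_lit 0x0)
  (PL.C (nat_lit 0x2d1dd8a) (nat_lit 0x0) (nat_lit 0xf1cababd414449)
  (PL.C (nat_lit 0x2d2d9a6) (nat_lit 0x96141786d7257b) (nat_lit 0x0)
  (PL.C (nat_lit 0x2d4a682) (nat_lit 0x2c6dedabab8565a) (nat_lit 0x0)
  (PL.C (nat_lit 0x2d5d6e1) (nat_lit 0x1d06d755f4bfd7a) (nat_lit 0x0)
  (PL.C (nat_lit 0x2d70f59) (nat_lit 0x18eb17a578dacb) (nat_lit 0x0)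
  (PL.C (nat_lit 0x2d79b8a) (nat_lit 0xb9316d8ab89abe) (nat_lit 0x0)
  (PL.C (nat_lit 0x2d8d0a9) (nat_lit 0x0) (nat_lit 0x1bb1ec1c41df85)
  (PL.C (nat_lit 0x2da0ece) (nat_lit 0x0) (nat_lit 0xc634ee03ece7c)
  (PL.C (nat_lit 0x2da90c5) (nat_lit 0x0) (nat_lit 0x1d12913513e2e33)
  (PL.C (nat_lit 0x2dbfcd3) (nat_lit 0x1636f1a46d0e39a) (nat_lit 0x0)
  (PL.C (nat_lit 0x2dd2cfc) (nat_lit 0x2d72d2f8a27000) (nat_lit 0x0)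
  (PL.C (nat_lit 0x2dd6b2d) (nat_lit 0xd76d51e5a58967) (nat_lit 0x0)
  (PL.C (nat_lit 0x2df793e) (nat_lit 0x0) (nat_lit 0x79a11471807c18c) gp1_0_125))))))))))))))))))))

noncomputable def gp1_0_123 : PL :=
  (PL.C (nat_lit 0x2b8f597) (nat_lit 0x2ff0246b4e718) (nat_lit 0x0)
  (PL.C (nat_lit 0x2b9261e) (nat_lit 0x7b99498e8d1f07) (nat_lit 0x0)
  (PL.C (nat_lit 0x2ba5269) (nat_lit 0x0) (nat_lit 0x34da1cb77fd189)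
  (PL.C (nat_lit 0x2ba8d7e) (nat_lit 0x0) (nat_lit 0x573e77e87a4605)
  (PL.C (nat_lit 0x2babdeb) (nat_lit 0xe531acfe3f90ed) (nat_lit 0x0)
  (PL.C (nat_lit 0x2bae193) (nat_lit 0x2f44f13244c36f9) (nat_lit 0x0)
  (PL.C (nat_lit 0x2bc8a0c) (nat_lit 0x0) (nat_lit 0x145aacc0b43ecb)
  (PL.C (nat_lit 0x2bd74dc) (nat_lit 0x459bfab49208ac2) (nat_lit 0x0)
  (PL.C (nat_lit 0x2bea302) (nat_lit 0x0) (nat_lit 0x8d2fc2c1a5c4348)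
  (PL.C (nat_lit 0x2bf2672) (nat_lit 0x76622e0d0aaae9) (nat_lit 0x0)
  (PL.C (nat_lit 0x2c189a3) (nat_lit 0x2a37ac4c0a0349b) (nat_lit 0x0)
  (PL.C (nat_lit 0x2c1ce16) (nat_lit 0x0) (nat_lit 0xa2aae233af4368b)
  (PL.C (nat_lit 0x2c20239) (nat_lit 0x6cc2301dea3a8b) (nat_lit 0x0)
  (PL.C (nat_lit 0x2c235d2) (nat_lit 0x0) (nat_lit 0x29527de8b545d3)
  (PL.C (nat_lit 0x2c2dc72) (nat_lit 0x0) (nat_lit 0x525961276a71650)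
  (PL.C (nat_lit 0x2c4af6e) (nat_lit 0x0) (nat_lit 0x5d14865ed5820d8)
  (PL.C (nat_lit 0x2c4c7e8) (nat_lit 0x0) (nat_lit 0x3d864b50c5ccc6)
  (PL.C (nat_lit 0x2c56506) (nat_lit 0xd14e2e4dcc5) (nat_lit 0x0)
  (PL.C (nat_lit 0x2c6c076) (nat_lit 0x0) (nat_lit 0x2cee04ffabd4e58)
  (PL.C (nat_lit 0x2c7f29d) (nat_lit 0x19120aa45257a72) (nat_lit 0x0) gp1_0_124))))))))))))))))))))

noncomputable def gp1_0_122 : PL :=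
  (PL.C (nat_lit 0x2a63c75) (nat_lit 0x0) (nat_lit 0x1372312c171f82)
  (PL.C (nat_lit 0x2a704ca) (nat_lit 0x0) (nat_lit 0x29c5a21637b62a9)
  (PL.C (nat_lit 0x2a81441) (nat_lit 0x0) (nat_lit 0x41ca84143c4c3f)
  (PL.C (nat_lit 0x2aacdbc) (nat_lit 0x56fd5803ab5dbf) (nat_lit 0x0)
  (PL.C (nat_lit 0x2ab254b) (nat_lit 0x369f597ee91450c) (nat_lit 0x0)
  (PL.C (nat_lit 0x2ac2af9) (nat_lit 0x9ab6001755d2bf) (nat_lit 0x0)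
  (PL.C (nat_lit 0x2adeef7) (nat_lit 0x0) (nat_lit 0x2f5298c6797d84)
  (PL.C (nat_lit 0x2b036c1) (nat_lit 0x73f7773c249f45e) (nat_lit 0x0)
  (PL.C (nat_lit 0x2b2af29) (nat_lit 0x3531536644fefa) (nat_lit 0x0)
  (PL.C (nat_lit 0x2b344c9) (nat_lit 0x4f99c526f27f83) (nat_lit 0x0)
  (PL.C (nat_lit 0x2b3fad6) (nat_lit 0x6ec91e9d4a59ea) (nat_lit 0x0)
  (PL.C (nat_lit 0x2b44492) (nat_lit 0x170bcf2972e544b) (nat_lit 0x0)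
  (PL.C (nat_lit 0x2b4d267) (nat_lit 0x11a74d933d84290) (nat_lit 0x0)
  (PL.C (nat_lit 0x2b5552a) (nat_lit 0x0) (nat_lit 0x770897158dd7fe)
  (PL.C (nat_lit 0x2b55955) (nat_lit 0x0) (nat_lit 0x2baa72d6b14b1b0)
  (PL.C (nat_lit 0x2b6e336) (nat_lit 0x9eebc9f4cb7c96) (nat_lit 0x0)
  (PL.C (nat_lit 0x2b71f36) (nat_lit 0x3dab75b354d1bdc) (nat_lit 0x0)
  (PL.C (nat_lit 0x2b7c9e2) (nat_lit 0x53eec9fcb89431) (nat_lit 0x0)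
  (PL.C (nat_lit 0x2b8206c) (nat_lit 0x0) (nat_lit 0x6a5d31905c1b93)
  (PL.C (nat_lit 0x2b84f7e) (nat_lit 0x7d96e5e7548ccc) (nat_lit 0x0) gp1_0_123))))))))))))))))))))

noncomputable def gp1_0_121 : PL :=
  (PL.C (nat_lit 0x2956756) (nat_lit 0x0) (nat_lit 0x33424f7ffccc56)
  (PL.C (nat_lit 0x2971c4a) (nat_lit 0xcb167c6e311b5) (nat_lit 0x0)
  (PL.C (nat_lit 0x2972a0c) (nat_lit 0x400121dba0e3b5) (nat_lit 0x0)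
  (PL.C (nat_lit 0x29875f4) (nat_lit 0x0) (nat_lit 0x7b2b9bbf9d4af4)
  (PL.C (nat_lit 0x298f75c) (nat_lit 0x0) (nat_lit 0xb2ca25c75aaa6)
  (PL.C (nat_lit 0x29914a5) (nat_lit 0x6af51dce7bb1e68) (nat_lit 0x0)
  (PL.C (nat_lit 0x299da47) (nat_lit 0x0) (nat_lit 0x2c33ec336d6bcd)
  (PL.C (nat_lit 0x299faa2) (nat_lit 0x0) (nat_lit 0x17fceb07af3698d)
  (PL.C (nat_lit 0x29b7ba2) (nat_lit 0x0) (nat_lit 0x6f98967b6a865d1)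
  (PL.C (nat_lit 0x29bf6f4) (nat_lit 0x1927aa443ff3fbd) (nat_lit 0x0)
  (PL.C (nat_lit 0x29d2abd) (nat_lit 0x22648941da53dd) (nat_lit 0x0)
  (PL.C (nat_lit 0x29e0b09) (nat_lit 0x14211f8d73f714) (nat_lit 0x0)
  (PL.C (nat_lit 0x29e477e) (nat_lit 0x44c732115ad1ad) (nat_lit 0x0)
  (PL.C (nat_lit 0x29eb0c4) (nat_lit 0x1027f953a0b44d5) (nat_lit 0x0)
  (PL.C (nat_lit 0x29fc444) (nat_lit 0x0) (nat_lit 0x4917d811537962)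
  (PL.C (nat_lit 0x2a0e7b6) (nat_lit 0x1b3ad5759a36654) (nat_lit 0x0)
  (PL.C (nat_lit 0x2a34137) (nat_lit 0x5f050ea9bef20c) (nat_lit 0x0)
  (PL.C (nat_lit 0x2a3e83c) (nat_lit 0x0) (nat_lit 0x95d98c7518799b)
  (PL.C (nat_lit 0x2a56d04) (nat_lit 0x261943fe76cd5d) (nat_lit 0x0)
  (PL.C (nat_lit 0x2a5e0cc) (nat_lit 0x120e1dd9d7e431b) (nat_lit 0x0) gp1_0_122))))))))))))))))))))

noncomputable def gp1_0_120 : PL :=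
  (PL.C (nat_lit 0x27fa7c2) (nat_lit 0x0) (nat_lit 0x25bc2e6b887d173)
  (PL.C (nat_lit 0x281a76e) (nat_lit 0x0) (nat_lit 0x3475e12b7e3798)
  (PL.C (nat_lit 0x282b999) (nat_lit 0xba84e57bdf62a5) (nat_lit 0x0)
  (PL.C (nat_lit 0x282e892) (nat_lit 0x12413e8f749292f) (nat_lit 0x0)
  (PL.C (nat_lit 0x2842598) (nat_lit 0x0) (nat_lit 0x6c33b60744a29)
  (PL.C (nat_lit 0x2850bea) (nat_lit 0x1a69f8ba465934d) (nat_lit 0x0)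
  (PL.C (nat_lit 0x28788ed) (nat_lit 0x9aa1d6ec95be) (nat_lit 0x0)
  (PL.C (nat_lit 0x287bfb6) (nat_lit 0x35601ef5c4cccd) (nat_lit 0x0)
  (PL.C (nat_lit 0x288715e) (nat_lit 0x0) (nat_lit 0x4ab376f24abf66)
  (PL.C (nat_lit 0x28b31f5) (nat_lit 0x73eb5567d65575a) (nat_lit 0x0)
  (PL.C (nat_lit 0x28c22ea) (nat_lit 0x0) (nat_lit 0xe97fee2bcf0c00a)
  (PL.C (nat_lit 0x28d1beb) (nat_lit 0xbaf99e5770b60) (nat_lit 0x0)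
  (PL.C (nat_lit 0x28e39cf) (nat_lit 0x0) (nat_lit 0x10c1b033c4f8f12)
  (PL.C (nat_lit 0x28f273c) (nat_lit 0x361854f4d43121) (nat_lit 0x0)
  (PL.C (nat_lit 0x28f73fa) (nat_lit 0x3e08555c54acf) (nat_lit 0x0)
  (PL.C (nat_lit 0x2923c2f) (nat_lit 0x22e6d3ce4e9ee824) (nat_lit 0x0)
  (PL.C (nat_lit 0x2942b71) (nat_lit 0xed8d8017c0c16) (nat_lit 0x0)
  (PL.C (nat_lit 0x2943fc4) (nat_lit 0x0) (nat_lit 0x13c16387ca4de9)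
  (PL.C (nat_lit 0x2945816) (nat_lit 0x3660abc82cf0f8d) (nat_lit 0x0)
  (PL.C (nat_lit 0x29547ba) (nat_lit 0x0) (nat_lit 0x205ec4a43bca4d) gp1_0_121))))))))))))))))))))

noncomputable def gp1_0_119 : PL :=
  (PL.C (nat_lit 0x26ff799) (nat_lit 0x190fa29db3d6778) (nat_lit 0x0)
  (PL.C (nat_lit 0x2712314) (nat_lit 0x1658c183b320343) (nat_lit 0x0)
  (PL.C (nat_lit 0x2717cba) (nat_lit 0xd81ce6a7bda279) (nat_lit 0x0)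
  (PL.C (nat_lit 0x271ba41) (nat_lit 0x0) (nat_lit 0x5e1df9c4757b4b)
  (PL.C (nat_lit 0x2722533) (nat_lit 0xb741a6452259ee) (nat_lit 0x0)
  (PL.C (nat_lit 0x27397da) (nat_lit 0x0) (nat_lit 0x1775b1d7d0b4ef)
  (PL.C (nat_lit 0x2742894) (nat_lit 0x0) (nat_lit 0x8d84e2b268ac6)
  (PL.C (nat_lit 0x275a2b2) (nat_lit 0x0) (nat_lit 0xe6a3c556b18f64)
  (PL.C (nat_lit 0x2760808) (nat_lit 0xe249ee72499de) (nat_lit 0x0)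
  (PL.C (nat_lit 0x276461c) (nat_lit 0xe5fd8d833db02) (nat_lit 0x0)
  (PL.C (nat_lit 0x2773335) (nat_lit 0x0) (nat_lit 0x5fd84cf415a5f4)
  (PL.C (nat_lit 0x2776887) (nat_lit 0x5a04c5ff8c1f03) (nat_lit 0x0)
  (PL.C (nat_lit 0x2783c2b) (nat_lit 0x97c0d1262df7e9) (nat_lit 0x0)
  (PL.C (nat_lit 0x2783fce) (nat_lit 0x0) (nat_lit 0x8e4875dad9e4e87)
  (PL.C (nat_lit 0x278d88c) (nat_lit 0x2757f972dd3442) (nat_lit 0x0)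
  (PL.C (nat_lit 0x279252c) (nat_lit 0x0) (nat_lit 0xbebd7757b8c931)
  (PL.C (nat_lit 0x27b0e3e) (nat_lit 0x0) (nat_lit 0x7358d1ec5f2bda)
  (PL.C (nat_lit 0x27c1c0b) (nat_lit 0x0) (nat_lit 0x1a909c67ba0436e)
  (PL.C (nat_lit 0x27e683e) (nat_lit 0x0) (nat_lit 0x40d9edcb1e68625)
  (PL.C (nat_lit 0x27e9874) (nat_lit 0xe9454b75b59438) (nat_lit 0x0) gp1_0_120))))))))))))))))))))

noncomputable def gp1_0_118 : PL :=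
  (PL.C (nat_lit 0x25d4489) (nat_lit 0x0) (nat_lit 0x1b67ff5874998c)
  (PL.C (nat_lit 0x25e7377) (nat_lit 0x240cb53394e54d) (nat_lit 0x0)
  (PL.C (nat_lit 0x25eb61c) (nat_lit 0x0) (nat_lit 0x4e7b28b83daeac)
  (PL.C (nat_lit 0x25fc8a2) (nat_lit 0x532e01cf773938) (nat_lit 0x0)
  (PL.C (nat_lit 0x261387e) (nat_lit 0x0) (nat_lit 0x10deea463c45abd)
  (PL.C (nat_lit 0x26232be) (nat_lit 0x0) (nat_lit 0x1025679104a58b3)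
  (PL.C (nat_lit 0x262be32) (nat_lit 0x1e182c928d800b9) (nat_lit 0x0)
  (PL.C (nat_lit 0x262ff46) (nat_lit 0x3e5ffdbb6bd3c43) (nat_lit 0x0)
  (PL.C (nat_lit 0x2640675) (nat_lit 0xda87f2bddb2009) (nat_lit 0x0)
  (PL.C (nat_lit 0x26451ae) (nat_lit 0x50da28f2752f82) (nat_lit 0x0)
  (PL.C (nat_lit 0x265c07d) (nat_lit 0x0) (nat_lit 0x1f87bcdc304d27)
  (PL.C (nat_lit 0x269e95f) (nat_lit 0x19e01aab449f88e5) (nat_lit 0x0)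
  (PL.C (nat_lit 0x26a2f74) (nat_lit 0x0) (nat_lit 0x13a105040e71cb)
  (PL.C (nat_lit 0x26a48c3) (nat_lit 0x8dde4545de2506) (nat_lit 0x0)
  (PL.C (nat_lit 0x26b1ea1) (nat_lit 0x0) (nat_lit 0xb7dbe7b7297968)
  (PL.C (nat_lit 0x26c2616) (nat_lit 0x0) (nat_lit 0x14bdce0fa734adc)
  (PL.C (nat_lit 0x26c4fec) (nat_lit 0x0) (nat_lit 0xea511e2b46deaa)
  (PL.C (nat_lit 0x26cdab6) (nat_lit 0x0) (nat_lit 0xeeea1bcd26b287)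
  (PL.C (nat_lit 0x26d500d) (nat_lit 0x0) (nat_lit 0x6d3ba9af45fc7e)
  (PL.C (nat_lit 0x26ef1f2) (nat_lit 0x0) (nat_lit 0xd8aec7ffb881055) gp1_0_119))))))))))))))))))))

noncomputable def gp1_0_117 : PL :=
  (PL.C (nat_lit 0x24daff6) (nat_lit 0x3a20312bc9d122) (nat_lit 0x0)
  (PL.C (nat_lit 0x24dd8d7) (nat_lit 0x0) (nat_lit 0x574ca696fc82a7b)
  (PL.C (nat_lit 0x24e759e) (nat_lit 0x0) (nat_lit 0x1bb7c236ccfc817)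
  (PL.C (nat_lit 0x2502e2e) (nat_lit 0x0) (nat_lit 0xd07fed7d08788)
  (PL.C (nat_lit 0x251228a) (nat_lit 0x0) (nat_lit 0x714221aa7106921)
  (PL.C (nat_lit 0x2531b82) (nat_lit 0x7e4cb3c65809827) (nat_lit 0x0)
  (PL.C (nat_lit 0x253956f) (nat_lit 0x0) (nat_lit 0x22449d1711ece73)
  (PL.C (nat_lit 0x254096d) (nat_lit 0x398959228bd9b90) (nat_lit 0x0)
  (PL.C (nat_lit 0x254c952) (nat_lit 0x1772a9a54a12d1) (nat_lit 0x0)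
  (PL.C (nat_lit 0x2555c06) (nat_lit 0xa15d0168ea6fa) (nat_lit 0x0)
  (PL.C (nat_lit 0x2562252) (nat_lit 0x0) (nat_lit 0x1e1270528515ae9)
  (PL.C (nat_lit 0x2563da6) (nat_lit 0x0) (nat_lit 0x1d53af80d8c4cec)
  (PL.C (nat_lit 0x2574dae) (nat_lit 0x0) (nat_lit 0x707cdf0f18c6b8)
  (PL.C (nat_lit 0x2581cec) (nat_lit 0x2de00ae9cb3424) (nat_lit 0x0)
  (PL.C (nat_lit 0x258a3ce) (nat_lit 0x0) (nat_lit 0xb5151a578338b3)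
  (PL.C (nat_lit 0x25a017a) (nat_lit 0x0) (nat_lit 0x1fd3b84f9a2a77)
  (PL.C (nat_lit 0x25bac0a) (nat_lit 0x125cc6a2b032b6) (nat_lit 0x0)
  (PL.C (nat_lit 0x25c2e24) (nat_lit 0x60a585c45991d7d) (nat_lit 0x0)
  (PL.C (nat_lit 0x25c7662) (nat_lit 0xb655f0687c4f2c) (nat_lit 0x0)
  (PL.C (nat_lit 0x25cb552) (nat_lit 0x0) (nat_lit 0x4b938450f1c2ad3) gp1_0_118))))))))))))))))))))

noncomputable def gp1_0_116 : PL :=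
  (PL.C (nat_lit 0x23a16ac) (nat_lit 0x0) (nat_lit 0x56c8f652519688)
  (PL.C (nat_lit 0x23a922c) (nat_lit 0x0) (nat_lit 0x22d9b7b39cb1075)
  (PL.C (nat_lit 0x23aed21) (nat_lit 0x0) (nat_lit 0x55818310d45382)
  (PL.C (nat_lit 0x23c0adf) (nat_lit 0x0) (nat_lit 0x741352d1da1d7d)
  (PL.C (nat_lit 0x23c49bc) (nat_lit 0x38c00b0202a71bf) (nat_lit 0x0)
  (PL.C (nat_lit 0x23c664f) (nat_lit 0x0) (nat_lit 0x2521b2fc716b43c)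
  (PL.C (nat_lit 0x23c7a14) (nat_lit 0x0) (nat_lit 0x9cbfa78a40f268)
  (PL.C (nat_lit 0x23cf8fb) (nat_lit 0x11cc0397c58fd8) (nat_lit 0x0)
  (PL.C (nat_lit 0x23d516f) (nat_lit 0x0) (nat_lit 0x3aff45799d2caa)
  (PL.C (nat_lit 0x2400081) (nat_lit 0x0) (nat_lit 0x4308fbc26871e5)
  (PL.C (nat_lit 0x240bd44) (nat_lit 0x0) (nat_lit 0x6390c32cf1c1fd)
  (PL.C (nat_lit 0x243df26) (nat_lit 0x0) (nat_lit 0x3c94a82cd213f37)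
  (PL.C (nat_lit 0x246e758) (nat_lit 0xdb82e8ac73101) (nat_lit 0x0)
  (PL.C (nat_lit 0x2470b8d) (nat_lit 0x0) (nat_lit 0xb579f060324f80)
  (PL.C (nat_lit 0x247344b) (nat_lit 0x3382f6e83908e08) (nat_lit 0x0)
  (PL.C (nat_lit 0x2494b69) (nat_lit 0x526bce920983549) (nat_lit 0x0)
  (PL.C (nat_lit 0x249a572) (nat_lit 0xb6d57af21fa668) (nat_lit 0x0)
  (PL.C (nat_lit 0x24aca8e) (nat_lit 0x0) (nat_lit 0xe6664698d39ed4)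
  (PL.C (nat_lit 0x24bebe8) (nat_lit 0x0) (nat_lit 0x38fd970f2bea0)
  (PL.C (nat_lit 0x24da97f) (nat_lit 0xd27bf5124223d9) (nat_lit 0x0) gp1_0_117))))))))))))))))))))

noncomputable def gp1_0_115 : PL :=
  (PL.C (nat_lit 0x22ee823) (nat_lit 0x2ce634f9038028b) (nat_lit 0x0)
  (PL.C (nat_lit 0x22f23b1) (nat_lit 0x7e1a3721944d28) (nat_lit 0x0)
  (PL.C (nat_lit 0x22fffdd) (nat_lit 0x0) (nat_lit 0x5909c229879f06)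
  (PL.C (nat_lit 0x23093e4) (nat_lit 0x9d27bba0b25cfd) (nat_lit 0x0)
  (PL.C (nat_lit 0x2313f8d) (nat_lit 0x236282ed59a6f) (nat_lit 0x0)
  (PL.C (nat_lit 0x23155cc) (nat_lit 0x16a57d86356a6d) (nat_lit 0x0)
  (PL.C (nat_lit 0x23171d3) (nat_lit 0x226d88b2bc310d) (nat_lit 0x0)
  (PL.C (nat_lit 0x23230aa) (nat_lit 0x25cccdaf84eb4dc) (nat_lit 0x0)
  (PL.C (nat_lit 0x2325873) (nat_lit 0x0) (nat_lit 0x296b302411d02a)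
  (PL.C (nat_lit 0x2326797) (nat_lit 0x13709e91181909) (nat_lit 0x0)
  (PL.C (nat_lit 0x23375aa) (nat_lit 0x858b5d062edf315) (nat_lit 0x0)
  (PL.C (nat_lit 0x2359eed) (nat_lit 0x0) (nat_lit 0x35f3aa790c0088)
  (PL.C (nat_lit 0x235d1f6) (nat_lit 0x5ddc58e7baf0fc) (nat_lit 0x0)
  (PL.C (nat_lit 0x2362ad4) (nat_lit 0x0) (nat_lit 0xcdf6539e7fd67b)
  (PL.C (nat_lit 0x2368f9e) (nat_lit 0x350cf9beabc8beb) (nat_lit 0x0)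
  (PL.C (nat_lit 0x2372fb5) (nat_lit 0x344ffe067f052b) (nat_lit 0x0)
  (PL.C (nat_lit 0x23783a9) (nat_lit 0x972375865d4653) (nat_lit 0x0)
  (PL.C (nat_lit 0x237a9f2) (nat_lit 0x0) (nat_lit 0x92e74e249f0509)
  (PL.C (nat_lit 0x238c60e) (nat_lit 0x0) (nat_lit 0x11086daa84d0f83)
  (PL.C (nat_lit 0x23a12c3) (nat_lit 0xf101736c0dc073) (nat_lit 0x0) gp1_0_116))))))))))))))))))))

noncomputable def gp1_0_114 : PL :=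
  (PL.C (nat_lit 0x21cca17) (nat_lit 0x537b25d02e83170) (nat_lit 0x0)
  (PL.C (nat_lit 0x21f8013) (nat_lit 0x0) (nat_lit 0x70ccfefb316d02)
  (PL.C (nat_lit 0x2208512) (nat_lit 0x0) (nat_lit 0x3235ff4482cd506)
  (PL.C (nat_lit 0x221ecce) (nat_lit 0x0) (nat_lit 0x12b30a35539c31)
  (PL.C (nat_lit 0x2227c94) (nat_lit 0xeccf14317f29b0) (nat_lit 0x0)
  (PL.C (nat_lit 0x222cd0e) (nat_lit 0x0) (nat_lit 0xa081ffcca4634b)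
  (PL.C (nat_lit 0x22326d2) (nat_lit 0x338d050513f0e0) (nat_lit 0x0)
  (PL.C (nat_lit 0x2238456) (nat_lit 0x1c5ce4843cbce06) (nat_lit 0x0)
  (PL.C (nat_lit 0x224702d) (nat_lit 0x0) (nat_lit 0xf48f8f3df4025b)
  (PL.C (nat_lit 0x224c6ac) (nat_lit 0x35a850e61e34a3) (nat_lit 0x0)
  (PL.C (nat_lit 0x224f7d4) (nat_lit 0x1e541434f8faaf) (nat_lit 0x0)
  (PL.C (nat_lit 0x225d954) (nat_lit 0x0) (nat_lit 0x2d75b6deffddd)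
  (PL.C (nat_lit 0x225ff72) (nat_lit 0x1f3347746c51a4) (nat_lit 0x0)
  (PL.C (nat_lit 0x2290d2c) (nat_lit 0x310e835e4f12246) (nat_lit 0x0)
  (PL.C (nat_lit 0x22a950c) (nat_lit 0x28134b5e05d060) (nat_lit 0x0)
  (PL.C (nat_lit 0x22abb7e) (nat_lit 0x7b9e93aa286ab9) (nat_lit 0x0)
  (PL.C (nat_lit 0x22ba72b) (nat_lit 0x0) (nat_lit 0x497e9dff95158b1)
  (PL.C (nat_lit 0x22c63a7) (nat_lit 0x1f1260bffdbcf4) (nat_lit 0x0)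
  (PL.C (nat_lit 0x22d6eee) (nat_lit 0x0) (nat_lit 0x127beee665ba1e5)
  (PL.C (nat_lit 0x22edf32) (nat_lit 0x0) (nat_lit 0x87070069e4652) gp1_0_115))))))))))))))))))))

noncomputable def gp1_0_113 : PL :=
  (PL.C (nat_lit 0x20bbe07) (nat_lit 0x4260a8ad68e46c) (nat_lit 0x0)
  (PL.C (nat_lit 0x20eb9bd) (nat_lit 0x17a423d3401d5cfd) (nat_lit 0x0)
  (PL.C (nat_lit 0x20f6886) (nat_lit 0x0) (nat_lit 0x1021e94e47fc359)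
  (PL.C (nat_lit 0x2116785) (nat_lit 0x4dd80df50acf3b5) (nat_lit 0x0)
  (PL.C (nat_lit 0x212707b) (nat_lit 0x0) (nat_lit 0x32609fadab91588)
  (PL.C (nat_lit 0x2139f4b) (nat_lit 0x2229a8c7e06434) (nat_lit 0x0)
  (PL.C (nat_lit 0x213f2ca) (nat_lit 0x0) (nat_lit 0xb2943f32503faa)
  (PL.C (nat_lit 0x214d4c9) (nat_lit 0x10b3ffbaa1bd5db) (nat_lit 0x0)
  (PL.C (nat_lit 0x2154732) (nat_lit 0x54ea0b2d114afb) (nat_lit 0x0)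
  (PL.C (nat_lit 0x215b786) (nat_lit 0x0) (nat_lit 0x12708e6d91d4372b)
  (PL.C (nat_lit 0x2161c65) (nat_lit 0x0) (nat_lit 0x7ff78ac114c333)
  (PL.C (nat_lit 0x217016d) (nat_lit 0x0) (nat_lit 0x1765a8a68881df0)
  (PL.C (nat_lit 0x217a1f6) (nat_lit 0x1362d3118b8fe4c) (nat_lit 0x0)
  (PL.C (nat_lit 0x218402c) (nat_lit 0x1a420734a87b45a) (nat_lit 0x0)
  (PL.C (nat_lit 0x218ae0a) (nat_lit 0x0) (nat_lit 0x1201214bec97da)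
  (PL.C (nat_lit 0x219b2fe) (nat_lit 0x1e44334abb36868) (nat_lit 0x0)
  (PL.C (nat_lit 0x219e06a) (nat_lit 0x28826ee1f5d41c) (nat_lit 0x0)
  (PL.C (nat_lit 0x219e7f9) (nat_lit 0x0) (nat_lit 0x26a1cd8faeb5296)
  (PL.C (nat_lit 0x21b828a) (nat_lit 0x0) (nat_lit 0x4610c6a10c125c8)
  (PL.C (nat_lit 0x21bfef4) (nat_lit 0x0) (nat_lit 0x125cefc2d005e01) gp1_0_114))))))))))))))))))))

noncomputable def gp1_0_112 : PL :=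
  (PL.C (nat_lit 0x201b142) (nat_lit 0x0) (nat_lit 0x1a5a96d0e8edb1e)
  (PL.C (nat_lit 0x2023fbc) (nat_lit 0x0) (nat_lit 0x3ea328aa520e28)
  (PL.C (nat_lit 0x20246f6) (nat_lit 0xe7f860cf5d58d71) (nat_lit 0x0)
  (PL.C (nat_lit 0x2031a36) (nat_lit 0x5affda23c792f) (nat_lit 0x0)
  (PL.C (nat_lit 0x203a2f7) (nat_lit 0x0) (nat_lit 0x11b91a8a886cf02f)
  (PL.C (nat_lit 0x203b028) (nat_lit 0x11fa647afe02bc3) (nat_lit 0x0)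
  (PL.C (nat_lit 0x203c6de) (nat_lit 0x0) (nat_lit 0x8460144a374abf3)
  (PL.C (nat_lit 0x204a509) (nat_lit 0x9f1025b32b35d10) (nat_lit 0x0)
  (PL.C (nat_lit 0x205a3cc) (nat_lit 0x61bcd3bd061f5f8) (nat_lit 0x0)
  (PL.C (nat_lit 0x205cbf9) (nat_lit 0x0) (nat_lit 0x2f2dfa211da373)
  (PL.C (nat_lit 0x206424f) (nat_lit 0x0) (nat_lit 0x3a9880b55787ff)
  (PL.C (nat_lit 0x20745b1) (nat_lit 0xde673d669046b2) (nat_lit 0x0)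
  (PL.C (nat_lit 0x207cef4) (nat_lit 0x0) (nat_lit 0x2c190cbc5002152)
  (PL.C (nat_lit 0x207d642) (nat_lit 0x0) (nat_lit 0x1c9c44de249fdc60)
  (PL.C (nat_lit 0x2082098) (nat_lit 0x2b93a97cd29f9b) (nat_lit 0x0)
  (PL.C (nat_lit 0x2086e21) (nat_lit 0x2c99a172f573a) (nat_lit 0x0)
  (PL.C (nat_lit 0x2092994) (nat_lit 0x0) (nat_lit 0x2dd35fddec7cf8)
  (PL.C (nat_lit 0x209d844) (nat_lit 0x0) (nat_lit 0xfc4e69f07f428f)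
  (PL.C (nat_lit 0x20a7b12) (nat_lit 0x0) (nat_lit 0xa144785adeee74)
  (PL.C (nat_lit 0x20af5b5) (nat_lit 0x0) (nat_lit 0x73e0d1287c58cd) gp1_0_113))))))))))))))))))))

noncomputable def gp1_0_111 : PL :=
  (PL.C (nat_lit 0x1edf232) (nat_lit 0x675b7cecad9b48) (nat_lit 0x0)
  (PL.C (nat_lit 0x1efc428) (nat_lit 0x0) (nat_lit 0x2b6f27fad6a059)
  (PL.C (nat_lit 0x1f27096) (nat_lit 0x0) (nat_lit 0x420f438865a34e)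
  (PL.C (nat_lit 0x1f27c76) (nat_lit 0x13dfa192adf03cf) (nat_lit 0x0)
  (PL.C (nat_lit 0x1f43d7c) (nat_lit 0x5cd1c1e9ce8a8e) (nat_lit 0x0)
  (PL.C (nat_lit 0x1f57593) (nat_lit 0x7f340e6684a6145) (nat_lit 0x0)
  (PL.C (nat_lit 0x1f65d0a) (nat_lit 0x76406f237a56def) (nat_lit 0x0)
  (PL.C (nat_lit 0x1f725e1) (nat_lit 0x0) (nat_lit 0xf58322bfd06efb7)
  (PL.C (nat_lit 0x1f8eb1a) (nat_lit 0x2b1cd777049784c) (nat_lit 0x0)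
  (PL.C (nat_lit 0x1fae6f5) (nat_lit 0x0) (nat_lit 0x2d81d3fb2d902e)
  (PL.C (nat_lit 0x1fb5bda) (nat_lit 0x0) (nat_lit 0x382ee9a5bd6c00)
  (PL.C (nat_lit 0x1fbbb9c) (nat_lit 0x2bc800d8814d4d4) (nat_lit 0x0)
  (PL.C (nat_lit 0x1fc8d41) (nat_lit 0x68725e1ca561ec) (nat_lit 0x0)
  (PL.C (nat_lit 0x1fd113e) (nat_lit 0x0) (nat_lit 0xd7b2112157d292)
  (PL.C (nat_lit 0x1fddc24) (nat_lit 0x0) (nat_lit 0x315e1e7602737a)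
  (PL.C (nat_lit 0x1fe05b4) (nat_lit 0x463ce03a8bfc063) (nat_lit 0x0)
  (PL.C (nat_lit 0x1fed84b) (nat_lit 0x12fc2319d97231) (nat_lit 0x0)
  (PL.C (nat_lit 0x2001a84) (nat_lit 0x4068a59145d5719) (nat_lit 0x0)
  (PL.C (nat_lit 0x200d45c) (nat_lit 0x0) (nat_lit 0x2d68e981139bf07)
  (PL.C (nat_lit 0x200edf7) (nat_lit 0x0) (nat_lit 0x35476e91b12f1b) gp1_0_112))))))))))))))))))))

noncomputable def gp1_0_110 : PL :=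
  (PL.C (nat_lit 0x1e20511) (nat_lit 0x0) (nat_lit 0x393a425f448cb6)
  (PL.C (nat_lit 0x1e319ac) (nat_lit 0x0) (nat_lit 0x5173f758fa068f)
  (PL.C (nat_lit 0x1e331cb) (nat_lit 0x8312a135837853) (nat_lit 0x0)
  (PL.C (nat_lit 0x1e3e496) (nat_lit 0x1a3aac4fab5e2c6) (nat_lit 0x0)
  (PL.C (nat_lit 0x1e49a7f) (nat_lit 0x211dd1b31bf33f) (nat_lit 0x0)
  (PL.C (nat_lit 0x1e4b4e6) (nat_lit 0x0) (nat_lit 0x11a89d05377c85a)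
  (PL.C (nat_lit 0x1e5125c) (nat_lit 0x26ee405ce36bc59) (nat_lit 0x0)
  (PL.C (nat_lit 0x1e63c45) (nat_lit 0x0) (nat_lit 0x8c691a65f97c4eb)
  (PL.C (nat_lit 0x1e70b2e) (nat_lit 0x0) (nat_lit 0xb7ea27dbcd20ec)
  (PL.C (nat_lit 0x1e794cd) (nat_lit 0x738b8f15491b1) (nat_lit 0x0)
  (PL.C (nat_lit 0x1e7fde2) (nat_lit 0x0) (nat_lit 0x22206dafdb6d5b3)
  (PL.C (nat_lit 0x1e86b11) (nat_lit 0x0) (nat_lit 0x33c0784a2fd16cc)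
  (PL.C (nat_lit 0x1e8c8a8) (nat_lit 0x3ab2449e3207f0) (nat_lit 0x0)
  (PL.C (nat_lit 0x1e8f21e) (nat_lit 0x9d80a2aa2ea2c4) (nat_lit 0x0)
  (PL.C (nat_lit 0x1ea093e) (nat_lit 0x0) (nat_lit 0x2eb9b92950b6a1)
  (PL.C (nat_lit 0x1ea4e02) (nat_lit 0x0) (nat_lit 0x3e17d6ffc30c7d)
  (PL.C (nat_lit 0x1ea50d4) (nat_lit 0x1ad0615fab07aa7) (nat_lit 0x0)
  (PL.C (nat_lit 0x1eae6f9) (nat_lit 0x0) (nat_lit 0xca4a5e4c89afe8)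
  (PL.C (nat_lit 0x1ec1017) (nat_lit 0x28a1b61bb43ebad) (nat_lit 0x0)
  (PL.C (nat_lit 0x1ecda37) (nat_lit 0x0) (nat_lit 0xaf78cf37961ad9) gp1_0_111))))))))))))))))))))

noncomputable def gp1_0_109 : PL :=
  (PL.C (nat_lit 0x1d6ac26) (nat_lit 0x9d4dc89a38635c) (nat_lit 0x0)
  (PL.C (nat_lit 0x1d6ce8c) (nat_lit 0xf527fd7b8abe8) (nat_lit 0x0)
  (PL.C (nat_lit 0x1d80035) (nat_lit 0x0) (nat_lit 0x3da1ff4317557de)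
  (PL.C (nat_lit 0x1d874f4) (nat_lit 0x0) (nat_lit 0x6575a7e926f20fa)
  (PL.C (nat_lit 0x1d8ee04) (nat_lit 0x0) (nat_lit 0x1307360bb20dc2)
  (PL.C (nat_lit 0x1d905a1) (nat_lit 0x0) (nat_lit 0x7897af2e294415)
  (PL.C (nat_lit 0x1d9d5a4) (nat_lit 0x0) (nat_lit 0x92c6983fd862c4)
  (PL.C (nat_lit 0x1d9f25f) (nat_lit 0x0) (nat_lit 0x97d25374d99d13)
  (PL.C (nat_lit 0x1da66bd) (nat_lit 0x0) (nat_lit 0x17093eb30c622)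
  (PL.C (nat_lit 0x1daa1be) (nat_lit 0xdabeef9a7597b0) (nat_lit 0x0)
  (PL.C (nat_lit 0x1dadc14) (nat_lit 0x0) (nat_lit 0x2ef2482b127a04)
  (PL.C (nat_lit 0x1dba5d2) (nat_lit 0x0) (nat_lit 0x53356fdd92fbb6)
  (PL.C (nat_lit 0x1dc4933) (nat_lit 0xb533cf8d9e827) (nat_lit 0x0)
  (PL.C (nat_lit 0x1dce00e) (nat_lit 0x0) (nat_lit 0xfcfa132cfc9a96)
  (PL.C (nat_lit 0x1de4caf) (nat_lit 0x1f0fa9d899efd4) (nat_lit 0x0)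
  (PL.C (nat_lit 0x1df120d) (nat_lit 0x0) (nat_lit 0x6d58782a324ee0)
  (PL.C (nat_lit 0x1e0a9e9) (nat_lit 0x0) (nat_lit 0x8dbe57867774aa)
  (PL.C (nat_lit 0x1e0ee84) (nat_lit 0x42f147746312139) (nat_lit 0x0)
  (PL.C (nat_lit 0x1e13b0f) (nat_lit 0x0) (nat_lit 0x1180499a85e8813d)
  (PL.C (nat_lit 0x1e13e5c) (nat_lit 0x0) (nat_lit 0xef82d2004d406e) gp1_0_110))))))))))))))))))))

noncomputable def gp1_0_108 : PL :=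
  (PL.C (nat_lit 0x1ccd886) (nat_lit 0x0) (nat_lit 0x1267bc08ecce20f)
  (PL.C (nat_lit 0x1cd51e4) (nat_lit 0x175a10fba8bfcaa) (nat_lit 0x0)
  (PL.C (nat_lit 0x1cd830c) (nat_lit 0x0) (nat_lit 0x692b5b4114d2fc)
  (PL.C (nat_lit 0x1cde19a) (nat_lit 0xa4577c73997012) (nat_lit 0x0)
  (PL.C (nat_lit 0x1ce105f) (nat_lit 0x8efab925566a44) (nat_lit 0x0)
  (PL.C (nat_lit 0x1ce3b8e) (nat_lit 0x0) (nat_lit 0x5c33795c61a9537)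
  (PL.C (nat_lit 0x1ce629a) (nat_lit 0x1931e6043c415a) (nat_lit 0x0)
  (PL.C (nat_lit 0x1cef7a1) (nat_lit 0x15e681d785ef568) (nat_lit 0x0)
  (PL.C (nat_lit 0x1cf4224) (nat_lit 0x1dc7bd2138801c) (nat_lit 0x0)
  (PL.C (nat_lit 0x1cf6a24) (nat_lit 0x2bc99838a91cdb5) (nat_lit 0x0)
  (PL.C (nat_lit 0x1cfdbec) (nat_lit 0x48d52d474dd6e8) (nat_lit 0x0)
  (PL.C (nat_lit 0x1d0a3ba) (nat_lit 0xb6e05dc902dc3) (nat_lit 0x0)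
  (PL.C (nat_lit 0x1d0c414) (nat_lit 0xb3cdbae549b5df) (nat_lit 0x0)
  (PL.C (nat_lit 0x1d0e39f) (nat_lit 0x0) (nat_lit 0x4354cd9ea522f76)
  (PL.C (nat_lit 0x1d18c46) (nat_lit 0x0) (nat_lit 0x9f760cc9df94a1)
  (PL.C (nat_lit 0x1d1d3f2) (nat_lit 0x266ce8ada8c8df3) (nat_lit 0x0)
  (PL.C (nat_lit 0x1d46cac) (nat_lit 0xb8e59aaf0b535) (nat_lit 0x0)
  (PL.C (nat_lit 0x1d4c44c) (nat_lit 0x0) (nat_lit 0x6140cfe50ac6ba)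
  (PL.C (nat_lit 0x1d65bc2) (nat_lit 0x153b910c2ca91b7) (nat_lit 0x0)
  (PL.C (nat_lit 0x1d68964) (nat_lit 0xf2c5482ec8b53b5) (nat_lit 0x0) gp1_0_109))))))))))))))))))))

noncomputable def gp1_0_107 : PL :=
  (PL.C (nat_lit 0x1bee659) (nat_lit 0x0) (nat_lit 0x19b28a40d1de57)
  (PL.C (nat_lit 0x1c00d97) (nat_lit 0x0) (nat_lit 0xb883940ce9da57)
  (PL.C (nat_lit 0x1c1433b) (nat_lit 0x1fb7b07d9aa799b) (nat_lit 0x0)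
  (PL.C (nat_lit 0x1c22b7a) (nat_lit 0x2256416d4905827) (nat_lit 0x0)
  (PL.C (nat_lit 0x1c23c0f) (nat_lit 0xb1a6204dc02334) (nat_lit 0x0)
  (PL.C (nat_lit 0x1c36581) (nat_lit 0x0) (nat_lit 0x4f7aaaf8c66293)
  (PL.C (nat_lit 0x1c4284e) (nat_lit 0x63f67f3d05c16a) (nat_lit 0x0)
  (PL.C (nat_lit 0x1c4addc) (nat_lit 0x1753fde2a720f1) (nat_lit 0x0)
  (PL.C (nat_lit 0x1c562d6) (nat_lit 0x0) (nat_lit 0x1bef31562af1ac8)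
  (PL.C (nat_lit 0x1c6139d) (nat_lit 0x4233d1478442c8) (nat_lit 0x0)
  (PL.C (nat_lit 0x1c71a1d) (nat_lit 0x0) (nat_lit 0x4fe7a985ce7057a)
  (PL.C (nat_lit 0x1c76943) (nat_lit 0x0) (nat_lit 0x206698a19cfa5)
  (PL.C (nat_lit 0x1c76e32) (nat_lit 0x0) (nat_lit 0x14b026f056cae8c)
  (PL.C (nat_lit 0x1c7fde3) (nat_lit 0xfc51d397ec9c90) (nat_lit 0x0)
  (PL.C (nat_lit 0x1c81ca6) (nat_lit 0x183ade895f745c9) (nat_lit 0x0)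
  (PL.C (nat_lit 0x1c90233) (nat_lit 0x47bbd891168b4c) (nat_lit 0x0)
  (PL.C (nat_lit 0x1c949fa) (nat_lit 0x0) (nat_lit 0x166bf531b0d35f4)
  (PL.C (nat_lit 0x1cba8da) (nat_lit 0x11314fe6f8c525e) (nat_lit 0x0)
  (PL.C (nat_lit 0x1cbeac5) (nat_lit 0x2f3b4dda95b9106) (nat_lit 0x0)
  (PL.C (nat_lit 0x1cc74c6) (nat_lit 0x0) (nat_lit 0x21debcf482901b) gp1_0_108))))))))))))))))))))

noncomputable def gp1_0_106 : PL :=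
  (PL.C (nat_lit 0x1b4f7fc) (nat_lit 0x59124ada65f95f3) (nat_lit 0x0)
  (PL.C (nat_lit 0x1b57dcb) (nat_lit 0x125fafddc51cb0) (nat_lit 0x0)
  (PL.C (nat_lit 0x1b5ac69) (nat_lit 0x0) (nat_lit 0xb9bc19e3159d20)
  (PL.C (nat_lit 0x1b6d2ca) (nat_lit 0x0) (nat_lit 0x558460371f92b36)
  (PL.C (nat_lit 0x1b7cdf1) (nat_lit 0x0) (nat_lit 0xa67b9b087eb2097)
  (PL.C (nat_lit 0x1b81cf6) (nat_lit 0x0) (nat_lit 0x803d588208d181)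
  (PL.C (nat_lit 0x1b8aa0f) (nat_lit 0x0) (nat_lit 0x6b251541775dbe)
  (PL.C (nat_lit 0x1b8da7c) (nat_lit 0x22c58adfd67fad6) (nat_lit 0x0)
  (PL.C (nat_lit 0x1b8f07f) (nat_lit 0x0) (nat_lit 0x1aa8387b1da334)
  (PL.C (nat_lit 0x1b9a59f) (nat_lit 0x0) (nat_lit 0x5fc039aac21104)
  (PL.C (nat_lit 0x1ba12dc) (nat_lit 0x1cb03720eb2120) (nat_lit 0x0)
  (PL.C (nat_lit 0x1ba1c08) (nat_lit 0x0) (nat_lit 0x862c7251ed053)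
  (PL.C (nat_lit 0x1bbe6da) (nat_lit 0x40fb1830539f5) (nat_lit 0x0)
  (PL.C (nat_lit 0x1bbfc6c) (nat_lit 0x0) (nat_lit 0x6802230a33dc1b3)
  (PL.C (nat_lit 0x1bc3aa1) (nat_lit 0xbfe572dcefb06e) (nat_lit 0x0)
  (PL.C (nat_lit 0x1bca371) (nat_lit 0x13250e5bea363fef) (nat_lit 0x0)
  (PL.C (nat_lit 0x1be1c7e) (nat_lit 0x0) (nat_lit 0x35fa39986c9939)
  (PL.C (nat_lit 0x1be3b6b) (nat_lit 0x844d9d0421714) (nat_lit 0x0)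
  (PL.C (nat_lit 0x1beb206) (nat_lit 0xb519b551f3c11f) (nat_lit 0x0)
  (PL.C (nat_lit 0x1beda54) (nat_lit 0x0) (nat_lit 0xb2b04a3aac110d) gp1_0_107))))))))))))))))))))

noncomputable def gp1_0_105 : PL :=
  (PL.C (nat_lit 0x1a75ed4) (nat_lit 0x0) (nat_lit 0x284a4ad400a114)
  (PL.C (nat_lit 0x1a812b2) (nat_lit 0x12d11a0e930e857) (nat_lit 0x0)
  (PL.C (nat_lit 0x1a99ad4) (nat_lit 0xb4caba113885eba) (nat_lit 0x0)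
  (PL.C (nat_lit 0x1a9baf8) (nat_lit 0xaee64bc9f84098) (nat_lit 0x0)
  (PL.C (nat_lit 0x1abc4f4) (nat_lit 0x0) (nat_lit 0x2a977b6bb7384c)
  (PL.C (nat_lit 0x1abe789) (nat_lit 0x0) (nat_lit 0x3edcd9f9769df)
  (PL.C (nat_lit 0x1ac9b0c) (nat_lit 0x0) (nat_lit 0xf6e787a7c619c5)
  (PL.C (nat_lit 0x1ad4c05) (nat_lit 0x0) (nat_lit 0x575a7880091258)
  (PL.C (nat_lit 0x1aeb981) (nat_lit 0xb40e7e29f9df6d) (nat_lit 0x0)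
  (PL.C (nat_lit 0x1af143b) (nat_lit 0x0) (nat_lit 0xdd30eec6f7f768b)
  (PL.C (nat_lit 0x1afb09e) (nat_lit 0x55d5228c8a8350) (nat_lit 0x0)
  (PL.C (nat_lit 0x1afd524) (nat_lit 0xff1357e192bb6) (nat_lit 0x0)
  (PL.C (nat_lit 0x1b04b94) (nat_lit 0x0) (nat_lit 0xfc51a5f17748fa)
  (PL.C (nat_lit 0x1b0fe13) (nat_lit 0x3afd82d77cbe74) (nat_lit 0x0)
  (PL.C (nat_lit 0x1b2214e) (nat_lit 0x0) (nat_lit 0x4b804ab15660ebd)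
  (PL.C (nat_lit 0x1b34713) (nat_lit 0x0) (nat_lit 0x4ea9b0cd51737a0)
  (PL.C (nat_lit 0x1b367f2) (nat_lit 0x4c81f2dbaaa78d) (nat_lit 0x0)
  (PL.C (nat_lit 0x1b3c20d) (nat_lit 0x9f59930ecb7f7) (nat_lit 0x0)
  (PL.C (nat_lit 0x1b420ed) (nat_lit 0x0) (nat_lit 0x5b748bfb53d339)
  (PL.C (nat_lit 0x1b4268a) (nat_lit 0x0) (nat_lit 0xa0cb940d41ee57) gp1_0_106))))))))))))))))))))

noncomputable def gp1_0_104 : PL :=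
  (PL.C (nat_lit 0x19cbf16) (nat_lit 0x541ebc806fd6cd) (nat_lit 0x0)
  (PL.C (nat_lit 0x19daab6) (nat_lit 0xee632a833dc45a) (nat_lit 0x0)
  (PL.C (nat_lit 0x19de724) (nat_lit 0x2c9d72be6aa6da) (nat_lit 0x0)
  (PL.C (nat_lit 0x19e355e) (nat_lit 0x7b4185e29be738) (nat_lit 0x0)
  (PL.C (nat_lit 0x19ee7c9) (nat_lit 0x0) (nat_lit 0x8a21557cef1ba2)
  (PL.C (nat_lit 0x19f60b3) (nat_lit 0x1875965ce37e9e9c) (nat_lit 0x0)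
  (PL.C (nat_lit 0x19ffa66) (nat_lit 0x24a22a1d8b2d1f9) (nat_lit 0x0)
  (PL.C (nat_lit 0x1a00b53) (nat_lit 0x2befc7bc7f316c2) (nat_lit 0x0)
  (PL.C (nat_lit 0x1a096c7) (nat_lit 0x0) (nat_lit 0x58ee2f231bf88bc)
  (PL.C (nat_lit 0x1a126d6) (nat_lit 0x0) (nat_lit 0x445b1725d74edc2)
  (PL.C (nat_lit 0x1a16e22) (nat_lit 0xfb514f13349578) (nat_lit 0x0)
  (PL.C (nat_lit 0x1a2653c) (nat_lit 0x122446175850db6) (nat_lit 0x0)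
  (PL.C (nat_lit 0x1a2c5b8) (nat_lit 0xb196acefe443c) (nat_lit 0x0)
  (PL.C (nat_lit 0x1a3c1cc) (nat_lit 0x15450477fcfd14c) (nat_lit 0x0)
  (PL.C (nat_lit 0x1a3de49) (nat_lit 0x13d629e70ba8bfe2) (nat_lit 0x0)
  (PL.C (nat_lit 0x1a4ccce) (nat_lit 0x0) (nat_lit 0x11e3163d858c8bb)
  (PL.C (nat_lit 0x1a4f05a) (nat_lit 0x0) (nat_lit 0x487f19cb39eb49)
  (PL.C (nat_lit 0x1a57d72) (nat_lit 0x0) (nat_lit 0xaace66d8bfd47e)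
  (PL.C (nat_lit 0x1a600f1) (nat_lit 0x5269a165689f6d) (nat_lit 0x0)
  (PL.C (nat_lit 0x1a618c8) (nat_lit 0x0) (nat_lit 0x165bd04ebecaa5) gp1_0_105))))))))))))))))))))

noncomputable def gp1_0_103 : PL :=
  (PL.C (nat_lit 0x1906d34) (nat_lit 0x1d70a8b8eae661) (nat_lit 0x0)
  (PL.C (nat_lit 0x1919427) (nat_lit 0x2ce9144b1d7bea7a) (nat_lit 0x0)
  (PL.C (nat_lit 0x1920f3f) (nat_lit 0x5a7c3fd920f7f0) (nat_lit 0x0)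
  (PL.C (nat_lit 0x193238c) (nat_lit 0x1055b2c7017e86ed) (nat_lit 0x0)
  (PL.C (nat_lit 0x1938306) (nat_lit 0x0) (nat_lit 0x3abd0a634b9d0f)
  (PL.C (nat_lit 0x1939eff) (nat_lit 0x76ca5a3ae40cb4) (nat_lit 0x0)
  (PL.C (nat_lit 0x1944cfa) (nat_lit 0x1465337d7fb00d) (nat_lit 0x0)
  (PL.C (nat_lit 0x1946901) (nat_lit 0x0) (nat_lit 0x2f8f43847c49f60)
  (PL.C (nat_lit 0x1947968) (nat_lit 0x5b79f62e17c638) (nat_lit 0x0)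
  (PL.C (nat_lit 0x195306c) (nat_lit 0x3e076997ad4c21) (nat_lit 0x0)
  (PL.C (nat_lit 0x195c14d) (nat_lit 0x0) (nat_lit 0x2e398bb2cca41a7)
  (PL.C (nat_lit 0x197d195) (nat_lit 0x0) (nat_lit 0x151923a8f90664)
  (PL.C (nat_lit 0x197e437) (nat_lit 0x0) (nat_lit 0x3e5c50673f974c7)
  (PL.C (nat_lit 0x198044e) (nat_lit 0x0) (nat_lit 0x17aee1b33243ad4)
  (PL.C (nat_lit 0x1983674) (nat_lit 0x0) (nat_lit 0x244421b3575af3)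
  (PL.C (nat_lit 0x1992afe) (nat_lit 0x0) (nat_lit 0x3acb1cefaecf56)
  (PL.C (nat_lit 0x19b2b77) (nat_lit 0x56f19da8ea3551) (nat_lit 0x0)
  (PL.C (nat_lit 0x19bf0ea) (nat_lit 0x186c648cb94956d2) (nat_lit 0x0)
  (PL.C (nat_lit 0x19c3082) (nat_lit 0x0) (nat_lit 0x5e05c5e3750875)
  (PL.C (nat_lit 0x19c4d15) (nat_lit 0x0) (nat_lit 0x4cdbecc400780ce) gp1_0_104))))))))))))))))))))

noncomputable def gp1_0_102 : PL :=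
  (PL.C (nat_lit 0x183ccdb) (nat_lit 0x3eab43bee42132) (nat_lit 0x0)
  (PL.C (nat_lit 0x184b25e) (nat_lit 0x0) (nat_lit 0x1c4c76a4fb40348)
  (PL.C (nat_lit 0x1863246) (nat_lit 0x5e788334a215abe) (nat_lit 0x0)
  (PL.C (nat_lit 0x1866e4c) (nat_lit 0xe9224228265e3a) (nat_lit 0x0)
  (PL.C (nat_lit 0x18731b4) (nat_lit 0x0) (nat_lit 0xa22846f62baaec)
  (PL.C (nat_lit 0x1877e6b) (nat_lit 0xa5d60f192d492) (nat_lit 0x0)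
  (PL.C (nat_lit 0x188705b) (nat_lit 0x1a60faba7c295611) (nat_lit 0x0)
  (PL.C (nat_lit 0x1891baa) (nat_lit 0x564e6e19197800) (nat_lit 0x0)
  (PL.C (nat_lit 0x1893b3a) (nat_lit 0x0) (nat_lit 0x88354a63d322109)
  (PL.C (nat_lit 0x18ac974) (nat_lit 0x99339bdced8bc9) (nat_lit 0x0)
  (PL.C (nat_lit 0x18b5df7) (nat_lit 0xdf3792236a40f9) (nat_lit 0x0)
  (PL.C (nat_lit 0x18b6c5c) (nat_lit 0x0) (nat_lit 0x4873f705300b71c)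
  (PL.C (nat_lit 0x18b7f5d) (nat_lit 0x1e05233849cc23) (nat_lit 0x0)
  (PL.C (nat_lit 0x18d0e4a) (nat_lit 0x0) (nat_lit 0x8f0d1332dd18e8)
  (PL.C (nat_lit 0x18d5b9e) (nat_lit 0x0) (nat_lit 0x3af9981e2ff46dd)
  (PL.C (nat_lit 0x18ddb8c) (nat_lit 0xd36a9a46363f80) (nat_lit 0x0)
  (PL.C (nat_lit 0x18ec18c) (nat_lit 0x0) (nat_lit 0xd17d977bf812f3)
  (PL.C (nat_lit 0x18ed3c4) (nat_lit 0x0) (nat_lit 0x87da578f456f9d)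
  (PL.C (nat_lit 0x18f4de5) (nat_lit 0x5c5b00fdeca2eb) (nat_lit 0x0)
  (PL.C (nat_lit 0x1901348) (nat_lit 0x5f81293564bf4) (nat_lit 0x0) gp1_0_103))))))))))))))))))))

noncomputable def gp1_0_101 : PL :=
  (PL.C (nat_lit 0x179149e) (nat_lit 0x30182b988d30a27) (nat_lit 0x0)
  (PL.C (nat_lit 0x17936a4) (nat_lit 0x1785fcb2239bc27) (nat_lit 0x0)
  (PL.C (nat_lit 0x179b514) (nat_lit 0x3f410cef54e4bce) (nat_lit 0x0)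
  (PL.C (nat_lit 0x17a1fce) (nat_lit 0x566b15158dbf4) (nat_lit 0x0)
  (PL.C (nat_lit 0x17a57c6) (nat_lit 0x0) (nat_lit 0x57acb58e92d6bf5)
  (PL.C (nat_lit 0x17a714c) (nat_lit 0xcce1ec872a50ad) (nat_lit 0x0)
  (PL.C (nat_lit 0x17b2eb4) (nat_lit 0x0) (nat_lit 0xe28f4fe30c3116)
  (PL.C (nat_lit 0x17b3f67) (nat_lit 0x212ec17d18763fd) (nat_lit 0x0)
  (PL.C (nat_lit 0x17c0c82) (nat_lit 0x0) (nat_lit 0x1b67cefc06d06733)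
  (PL.C (nat_lit 0x17c9e16) (nat_lit 0x0) (nat_lit 0x8e7e82157f8adff)
  (PL.C (nat_lit 0x17d998a) (nat_lit 0x0) (nat_lit 0x2b38719c9001e95)
  (PL.C (nat_lit 0x17da6b8) (nat_lit 0x0) (nat_lit 0x139fa6f410e235)
  (PL.C (nat_lit 0x17dfb52) (nat_lit 0x0) (nat_lit 0x154284a0824994f)
  (PL.C (nat_lit 0x17e364a) (nat_lit 0x26df5285204a4ff) (nat_lit 0x0)
  (PL.C (nat_lit 0x17e50c9) (nat_lit 0x0) (nat_lit 0x470a46ab180c40)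
  (PL.C (nat_lit 0x1800056) (nat_lit 0x4fb7cd4a265cd8) (nat_lit 0x0)
  (PL.C (nat_lit 0x1802d51) (nat_lit 0x923296feefe2d2b) (nat_lit 0x0)
  (PL.C (nat_lit 0x1812b1f) (nat_lit 0x0) (nat_lit 0xe1e4796f47f44e)
  (PL.C (nat_lit 0x18294c4) (nat_lit 0x0) (nat_lit 0x224baba3fbc128f)
  (PL.C (nat_lit 0x1830b25) (nat_lit 0x1b329c5817b9a9) (nat_lit 0x0) gp1_0_102))))))))))))))))))))

noncomputable def gp1_0_100 : PL :=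
  (PL.C (nat_lit 0x16eaa4c) (nat_lit 0x0) (nat_lit 0x1c34580683e55c)
  (PL.C (nat_lit 0x16fd901) (nat_lit 0xd1bde0c37dd703) (nat_lit 0x0)
  (PL.C (nat_lit 0x17063f1) (nat_lit 0x0) (nat_lit 0x115f0e88bd7b48b)
  (PL.C (nat_lit 0x171d254) (nat_lit 0xd3941922db5155) (nat_lit 0x0)
  (PL.C (nat_lit 0x1726f72) (nat_lit 0x3f11ec2ba23b7) (nat_lit 0x0)
  (PL.C (nat_lit 0x17293a3) (nat_lit 0x901f6dc802e816d) (nat_lit 0x0)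
  (PL.C (nat_lit 0x172ed1a) (nat_lit 0x3d15f93ba11a03) (nat_lit 0x0)
  (PL.C (nat_lit 0x1734375) (nat_lit 0x0) (nat_lit 0xcb071be76075e)
  (PL.C (nat_lit 0x17438bb) (nat_lit 0xa53ae59d57c663) (nat_lit 0x0)
  (PL.C (nat_lit 0x17494cc) (nat_lit 0x0) (nat_lit 0x24724f826a2816)
  (PL.C (nat_lit 0x1749ac2) (nat_lit 0x0) (nat_lit 0x2860e8f62957af1)
  (PL.C (nat_lit 0x174c276) (nat_lit 0x0) (nat_lit 0x2e578cb0bd039ba)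
  (PL.C (nat_lit 0x1750ed5) (nat_lit 0x1bd20eab3555756) (nat_lit 0x0)
  (PL.C (nat_lit 0x175553e) (nat_lit 0x83b8af5309e1a) (nat_lit 0x0)
  (PL.C (nat_lit 0x1762a5e) (nat_lit 0x4dddff94bcd37c) (nat_lit 0x0)
  (PL.C (nat_lit 0x1764be2) (nat_lit 0x1f89d965e62df5f) (nat_lit 0x0)
  (PL.C (nat_lit 0x176cb1c) (nat_lit 0x48d81f7dce6f754) (nat_lit 0x0)
  (PL.C (nat_lit 0x176e5a2) (nat_lit 0x0) (nat_lit 0x5d8e89debf3aa4)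
  (PL.C (nat_lit 0x176efba) (nat_lit 0x396f31415c6ff6) (nat_lit 0x0)
  (PL.C (nat_lit 0x1783ee1) (nat_lit 0x0) (nat_lit 0x48c0f5f462f483d) gp1_0_101))))))))))))))))))))

noncomputable def gp1_0_99 : PL :=
  (PL.C (nat_lit 0x16516a4) (nat_lit 0x89b77cf811c22c) (nat_lit 0x0)
  (PL.C (nat_lit 0x165c95c) (nat_lit 0x0) (nat_lit 0xfa78d6ecb7f7b)
  (PL.C (nat_lit 0x1661ecf) (nat_lit 0x271837fe8f7755d) (nat_lit 0x0)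
  (PL.C (nat_lit 0x1667754) (nat_lit 0x4d45e9cd91f677e) (nat_lit 0x0)
  (PL.C (nat_lit 0x166959c) (nat_lit 0xea04c680ef4238) (nat_lit 0x0)
  (PL.C (nat_lit 0x1669aa6) (nat_lit 0x0) (nat_lit 0x822a60383acd27a)
  (PL.C (nat_lit 0x166e519) (nat_lit 0x9d827c5dc07c3a) (nat_lit 0x0)
  (PL.C (nat_lit 0x167ac5c) (nat_lit 0x0) (nat_lit 0x2a4247e4f4852a1)
  (PL.C (nat_lit 0x1685217) (nat_lit 0x4bcf8c196c74bb) (nat_lit 0x0)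
  (PL.C (nat_lit 0x16886ba) (nat_lit 0x0) (nat_lit 0x8a07410d49a002a)
  (PL.C (nat_lit 0x16a5562) (nat_lit 0x47a00ce24a75) (nat_lit 0x0)
  (PL.C (nat_lit 0x16b9945) (nat_lit 0x42bb87cd3fb0ec) (nat_lit 0x0)
  (PL.C (nat_lit 0x16bf334) (nat_lit 0x0) (nat_lit 0x20e69b6e70040d0)
  (PL.C (nat_lit 0x16c88b4) (nat_lit 0x0) (nat_lit 0xfcca0f98cff53)
  (PL.C (nat_lit 0x16cc48c) (nat_lit 0x0) (nat_lit 0x1c136597d6125a2)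
  (PL.C (nat_lit 0x16d02e4) (nat_lit 0x5085a22c19e7344) (nat_lit 0x0)
  (PL.C (nat_lit 0x16d343f) (nat_lit 0x3a8cc993d37214) (nat_lit 0x0)
  (PL.C (nat_lit 0x16da01e) (nat_lit 0x0) (nat_lit 0x1e1529e5f10e004)
  (PL.C (nat_lit 0x16dd9c8) (nat_lit 0x2b62a3eeeb3f3d) (nat_lit 0x0)
  (PL.C (nat_lit 0x16e9cf3) (nat_lit 0x0) (nat_lit 0x1f459f622953935) gp1_0_100))))))))))))))))))))

noncomputable def gp1_0_98 : PL :=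
  (PL.C (nat_lit 0x15af416) (nat_lit 0x3aa5b22f8613c) (nat_lit 0x0)
  (PL.C (nat_lit 0x15bbe12) (nat_lit 0x131be803a79304) (nat_lit 0x0)
  (PL.C (nat_lit 0x15c520c) (nat_lit 0x0) (nat_lit 0x19d664834fd075a)
  (PL.C (nat_lit 0x15c6862) (nat_lit 0x12d0a7004584328) (nat_lit 0x0)
  (PL.C (nat_lit 0x15ca3ce) (nat_lit 0xf3624f7166bdb2) (nat_lit 0x0)
  (PL.C (nat_lit 0x15d295a) (nat_lit 0x0) (nat_lit 0x6054af7f31576e)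
  (PL.C (nat_lit 0x15e3ead) (nat_lit 0x0) (nat_lit 0x46ded4e63c451d)
  (PL.C (nat_lit 0x15ea4bf) (nat_lit 0xc40dd43eaced29d) (nat_lit 0x0)
  (PL.C (nat_lit 0x15f267e) (nat_lit 0x0) (nat_lit 0x1cfe24cbdf562e9)
  (PL.C (nat_lit 0x15f9b04) (nat_lit 0x0) (nat_lit 0x8525fa8a1d1105)
  (PL.C (nat_lit 0x160efae) (nat_lit 0x0) (nat_lit 0x33cf0d34b6c47d8)
  (PL.C (nat_lit 0x161a052) (nat_lit 0x0) (nat_lit 0x1bfedc90f1c58a6)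
  (PL.C (nat_lit 0x1626a32) (nat_lit 0x10a3e338188c60f) (nat_lit 0x0)
  (PL.C (nat_lit 0x1626f2d) (nat_lit 0x4178ca0a6ec3c1d9) (nat_lit 0x0)
  (PL.C (nat_lit 0x162a1dc) (nat_lit 0x0) (nat_lit 0x3cbf4a1574c0f1)
  (PL.C (nat_lit 0x1633886) (nat_lit 0x1b568fdd579fc34) (nat_lit 0x0)
  (PL.C (nat_lit 0x16384cc) (nat_lit 0x0) (nat_lit 0x1bf98694baf412d)
  (PL.C (nat_lit 0x16412ee) (nat_lit 0x0) (nat_lit 0x1247d825f2d6cee)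
  (PL.C (nat_lit 0x164ab9e) (nat_lit 0x0) (nat_lit 0x7e265875ca72f1)
  (PL.C (nat_lit 0x1651431) (nat_lit 0x63ae9b84a9d845) (nat_lit 0x0) gp1_0_99))))))))))))))))))))

noncomputable def gp1_0_97 : PL :=
  (PL.C (nat_lit 0x15308d6) (nat_lit 0x0) (nat_lit 0x20c83cbe187a911)
  (PL.C (nat_lit 0x15360d4) (nat_lit 0x0) (nat_lit 0xe3fcb1be47f965)
  (PL.C (nat_lit 0x153e07f) (nat_lit 0x9a6070698a89d8b) (nat_lit 0x0)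
  (PL.C (nat_lit 0x153e818) (nat_lit 0x0) (nat_lit 0x1b2417723e72bc)
  (PL.C (nat_lit 0x153fd35) (nat_lit 0xfbaf6520e02d45) (nat_lit 0x0)
  (PL.C (nat_lit 0x1549032) (nat_lit 0x0) (nat_lit 0xb685694a17d063)
  (PL.C (nat_lit 0x15512a6) (nat_lit 0x0) (nat_lit 0x742c04bba07c62)
  (PL.C (nat_lit 0x155bd5a) (nat_lit 0xc26f4818a17b2) (nat_lit 0x0)
  (PL.C (nat_lit 0x155e2e8) (nat_lit 0x0) (nat_lit 0x166b38536db3448)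
  (PL.C (nat_lit 0x155f3fa) (nat_lit 0x0) (nat_lit 0x1ce86a6ae1a7cc6)
  (PL.C (nat_lit 0x156762c) (nat_lit 0x0) (nat_lit 0x2cd8af4d1dbc470)
  (PL.C (nat_lit 0x1568541) (nat_lit 0x0) (nat_lit 0x4f4fee42234469e)
  (PL.C (nat_lit 0x156d528) (nat_lit 0x0) (nat_lit 0x429bc9a56bee35)
  (PL.C (nat_lit 0x157c1fa) (nat_lit 0x0) (nat_lit 0x31b6e7defd2ac647)
  (PL.C (nat_lit 0x1586e06) (nat_lit 0x0) (nat_lit 0x43e38d1d450a5f7)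
  (PL.C (nat_lit 0x15932a6) (nat_lit 0x0) (nat_lit 0x28ac434b4ef5bf0)
  (PL.C (nat_lit 0x159818a) (nat_lit 0x0) (nat_lit 0x36db90ae3cbd2d9)
  (PL.C (nat_lit 0x15a152b) (nat_lit 0xb241d18b34789fb) (nat_lit 0x0)
  (PL.C (nat_lit 0x15a2e76) (nat_lit 0x1229b4b0e4e36e4) (nat_lit 0x0)
  (PL.C (nat_lit 0x15a89f8) (nat_lit 0x0) (nat_lit 0x26463cd8e56f728) gp1_0_98))))))))))))))))))))

noncomputable def gp1_0_96 : PL :=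
  (PL.C (nat_lit 0x14553ec) (nat_lit 0x0) (nat_lit 0x1796ebd957bc6b7)
  (PL.C (nat_lit 0x1459cb6) (nat_lit 0x0) (nat_lit 0x10f0925fcd999b50)
  (PL.C (nat_lit 0x146b0d4) (nat_lit 0x0) (nat_lit 0xd2bb46006c4762)
  (PL.C (nat_lit 0x146deac) (nat_lit 0x0) (nat_lit 0x2afa4983facc5b)
  (PL.C (nat_lit 0x14744a6) (nat_lit 0x0) (nat_lit 0x23242789959e240)
  (PL.C (nat_lit 0x1479177) (nat_lit 0x0) (nat_lit 0x73edc24c90db9)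
  (PL.C (nat_lit 0x1480aba) (nat_lit 0x16624490b7769e) (nat_lit 0x0)
  (PL.C (nat_lit 0x148917a) (nat_lit 0x0) (nat_lit 0xd015f1e789906f)
  (PL.C (nat_lit 0x148a841) (nat_lit 0x27f7c1f2bdf4396) (nat_lit 0x0)
  (PL.C (nat_lit 0x149ed4f) (nat_lit 0x9b696c9056a69c) (nat_lit 0x0)
  (PL.C (nat_lit 0x14a7b57) (nat_lit 0xfd26a79d56b32) (nat_lit 0x0)
  (PL.C (nat_lit 0x14cb8bd) (nat_lit 0x6a55eac02274a48) (nat_lit 0x0)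
  (PL.C (nat_lit 0x14d5f43) (nat_lit 0x85cd86f007f350) (nat_lit 0x0)
  (PL.C (nat_lit 0x14e4e62) (nat_lit 0x9f4e4278216727f) (nat_lit 0x0)
  (PL.C (nat_lit 0x14f6e96) (nat_lit 0x1cb658098cb0f82) (nat_lit 0x0)
  (PL.C (nat_lit 0x1509cbc) (nat_lit 0x0) (nat_lit 0x4ad14e5f2b3515a)
  (PL.C (nat_lit 0x150ee23) (nat_lit 0x4440e03d53acb51) (nat_lit 0x0)
  (PL.C (nat_lit 0x15127b9) (nat_lit 0x7184e5f346e053) (nat_lit 0x0)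
  (PL.C (nat_lit 0x151ef4e) (nat_lit 0x0) (nat_lit 0x12168ad6013922d)
  (PL.C (nat_lit 0x1523d3c) (nat_lit 0xb44242821cfb1f) (nat_lit 0x0) gp1_0_97))))))))))))))))))))

noncomputable def gp1_0_95 : PL :=
  (PL.C (nat_lit 0x13cccb9) (nat_lit 0x0) (nat_lit 0x7d3217c8d8f8ec)
  (PL.C (nat_lit 0x13d6b47) (nat_lit 0x0) (nat_lit 0x38228586224127)
  (PL.C (nat_lit 0x13d8622) (nat_lit 0x0) (nat_lit 0x1a875a65bfddd)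
  (PL.C (nat_lit 0x13d9c25) (nat_lit 0x0) (nat_lit 0x615494a831c9796)
  (PL.C (nat_lit 0x13deab4) (nat_lit 0x1eec4b185bfafc) (nat_lit 0x0)
  (PL.C (nat_lit 0x13eddca) (nat_lit 0x0) (nat_lit 0x1cf46c46bb2337)
  (PL.C (nat_lit 0x13f615e) (nat_lit 0x0) (nat_lit 0xe4dee812faedf98)
  (PL.C (nat_lit 0x1407146) (nat_lit 0x4666d5209413444) (nat_lit 0x0)
  (PL.C (nat_lit 0x140b2ed) (nat_lit 0x27261177a2b4d56) (nat_lit 0x0)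
  (PL.C (nat_lit 0x140d20a) (nat_lit 0x0) (nat_lit 0x2ca88408d825588d)
  (PL.C (nat_lit 0x1414cee) (nat_lit 0x0) (nat_lit 0x1450e107c3c1e37)
  (PL.C (nat_lit 0x14158b6) (nat_lit 0x0) (nat_lit 0x6ad30b11a64563)
  (PL.C (nat_lit 0x1422132) (nat_lit 0x0) (nat_lit 0x5f67c245572861c)
  (PL.C (nat_lit 0x1429864) (nat_lit 0x0) (nat_lit 0x31e5214d1ae8bec)
  (PL.C (nat_lit 0x142fb2d) (nat_lit 0x0) (nat_lit 0x9e378d72eea4df)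
  (PL.C (nat_lit 0x14311aa) (nat_lit 0x372e00548d748b8) (nat_lit 0x0)
  (PL.C (nat_lit 0x1432344) (nat_lit 0x0) (nat_lit 0x13c3ee4071a6a4b)
  (PL.C (nat_lit 0x1439cd3) (nat_lit 0x0) (nat_lit 0x305725010c296c)
  (PL.C (nat_lit 0x144282e) (nat_lit 0x21994eb9d54c3e3) (nat_lit 0x0)
  (PL.C (nat_lit 0x1450dde) (nat_lit 0x0) (nat_lit 0x1c5578bc2222f5) gp1_0_96))))))))))))))))))))

noncomputable def gp1_0_94 : PL :=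
  (PL.C (nat_lit 0x13441bc) (nat_lit 0x0) (nat_lit 0x46f4669bf378b5)
  (PL.C (nat_lit 0x1348611) (nat_lit 0x0) (nat_lit 0x6b3f2eb1009dd3)
  (PL.C (nat_lit 0x134a516) (nat_lit 0x0) (nat_lit 0x1f20df8ed08eab4)
  (PL.C (nat_lit 0x1353d48) (nat_lit 0x9e97cc50bff94) (nat_lit 0x0)
  (PL.C (nat_lit 0x135c27c) (nat_lit 0x0) (nat_lit 0x67c204edda7841)
  (PL.C (nat_lit 0x1365d84) (nat_lit 0x0) (nat_lit 0xe06893b9cf899)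
  (PL.C (nat_lit 0x1368d4c) (nat_lit 0x7987b7b2f559b82) (nat_lit 0x0)
  (PL.C (nat_lit 0x139df08) (nat_lit 0x46d7b4c597068) (nat_lit 0x0)
  (PL.C (nat_lit 0x139f287) (nat_lit 0x4d1043435c6ba1) (nat_lit 0x0)
  (PL.C (nat_lit 0x13a894a) (nat_lit 0x318476b12fa033) (nat_lit 0x0)
  (PL.C (nat_lit 0x13aaace) (nat_lit 0x0) (nat_lit 0xcca64561c532c3b)
  (PL.C (nat_lit 0x13b26b6) (nat_lit 0x0) (nat_lit 0xd24300d4471d2)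
  (PL.C (nat_lit 0x13b289b) (nat_lit 0x3adc942a9dacb20) (nat_lit 0x0)
  (PL.C (nat_lit 0x13b4958) (nat_lit 0xae3fbb1d5d118) (nat_lit 0x0)
  (PL.C (nat_lit 0x13b5916) (nat_lit 0x4bb90ae2cf2b6b3) (nat_lit 0x0)
  (PL.C (nat_lit 0x13bf6ea) (nat_lit 0x34635c7ba35ec9) (nat_lit 0x0)
  (PL.C (nat_lit 0x13c447e) (nat_lit 0xc4195cd277198b) (nat_lit 0x0)
  (PL.C (nat_lit 0x13c6bd4) (nat_lit 0x1d1b0c57ef5b6b6) (nat_lit 0x0)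
  (PL.C (nat_lit 0x13c92b8) (nat_lit 0x0) (nat_lit 0x3707a7321028c)
  (PL.C (nat_lit 0x13cab4a) (nat_lit 0x32a0a8a9f8566a) (nat_lit 0x0) gp1_0_95))))))))))))))))))))

noncomputable def gp1_0_93 : PL :=
  (PL.C (nat_lit 0x12d7034) (nat_lit 0x0) (nat_lit 0x7f880e6c3ac438)
  (PL.C (nat_lit 0x12decab) (nat_lit 0x0) (nat_lit 0x281112e5ff82c)
  (PL.C (nat_lit 0x12e41e4) (nat_lit 0x19e18e8ee22d82) (nat_lit 0x0)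
  (PL.C (nat_lit 0x12ea909) (nat_lit 0x0) (nat_lit 0x549581ebf5cb82)
  (PL.C (nat_lit 0x12eb7be) (nat_lit 0x14a067063311102) (nat_lit 0x0)
  (PL.C (nat_lit 0x12f66be) (nat_lit 0x1da659fabfd8e2d) (nat_lit 0x0)
  (PL.C (nat_lit 0x12f9b82) (nat_lit 0x50aa234f94a72d) (nat_lit 0x0)
  (PL.C (nat_lit 0x12f9ecc) (nat_lit 0x10144aab9e84f18) (nat_lit 0x0)
  (PL.C (nat_lit 0x1302ab3) (nat_lit 0x3531536644fefa) (nat_lit 0x0)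
  (PL.C (nat_lit 0x13090a7) (nat_lit 0x0) (nat_lit 0x1ffd5baa7644cb2)
  (PL.C (nat_lit 0x130ac22) (nat_lit 0x1c2cc4cb5cb4ef3) (nat_lit 0x0)
  (PL.C (nat_lit 0x130dbfc) (nat_lit 0x0) (nat_lit 0x690ee9a63d9535)
  (PL.C (nat_lit 0x131eeab) (nat_lit 0x0) (nat_lit 0x26d6a45faa2571b)
  (PL.C (nat_lit 0x132ef19) (nat_lit 0x0) (nat_lit 0x1f54024697e1c)
  (PL.C (nat_lit 0x132f669) (nat_lit 0x1f5a893a672d6b9) (nat_lit 0x0)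
  (PL.C (nat_lit 0x132f884) (nat_lit 0x0) (nat_lit 0x3c2b3c5f7a9b4)
  (PL.C (nat_lit 0x1333b04) (nat_lit 0x0) (nat_lit 0x2252a4acbc7fb22)
  (PL.C (nat_lit 0x133ebbc) (nat_lit 0x0) (nat_lit 0xda10b1c8b4507c)
  (PL.C (nat_lit 0x1340aea) (nat_lit 0x266f6a70a6d6477) (nat_lit 0x0)
  (PL.C (nat_lit 0x13427b4) (nat_lit 0x0) (nat_lit 0x683c6bbd6dfd69) gp1_0_94))))))))))))))))))))

noncomputable def gp1_0_92 : PL :=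
  (PL.C (nat_lit 0x12568a4) (nat_lit 0x0) (nat_lit 0x48b0ea121d82260)
  (PL.C (nat_lit 0x125c27d) (nat_lit 0x0) (nat_lit 0xaf45d16883547)
  (PL.C (nat_lit 0x125f5aa) (nat_lit 0x83e54dcd3e6bef) (nat_lit 0x0)
  (PL.C (nat_lit 0x1265583) (nat_lit 0x19e8e33516d22f) (nat_lit 0x0)
  (PL.C (nat_lit 0x1266e6a) (nat_lit 0x0) (nat_lit 0x157bb9d9baabbe9)
  (PL.C (nat_lit 0x127ef3c) (nat_lit 0x0) (nat_lit 0x11eb4ac6e8d18f2)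
  (PL.C (nat_lit 0x1282716) (nat_lit 0x0) (nat_lit 0xc5aac7d8bcbf8c)
  (PL.C (nat_lit 0x12849db) (nat_lit 0x0) (nat_lit 0x739ad575be71e)
  (PL.C (nat_lit 0x1286cf6) (nat_lit 0x0) (nat_lit 0xb368eb49ca0f1d2)
  (PL.C (nat_lit 0x128de25) (nat_lit 0x12a4f959ebf844) (nat_lit 0x0)
  (PL.C (nat_lit 0x1296854) (nat_lit 0x0) (nat_lit 0x1e0949044b18e3)
  (PL.C (nat_lit 0x1297cf2) (nat_lit 0x58fe7d66b7951) (nat_lit 0x0)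
  (PL.C (nat_lit 0x129cc04) (nat_lit 0xfdd4b5cc4d4a0b) (nat_lit 0x0)
  (PL.C (nat_lit 0x129eee6) (nat_lit 0x22f0e3a50b50be9) (nat_lit 0x0)
  (PL.C (nat_lit 0x12ab3ba) (nat_lit 0x8f396a53313717) (nat_lit 0x0)
  (PL.C (nat_lit 0x12b32a1) (nat_lit 0x121e18a46391ecd1) (nat_lit 0x0)
  (PL.C (nat_lit 0x12c13bf) (nat_lit 0x259b287e7f87aed) (nat_lit 0x0)
  (PL.C (nat_lit 0x12c1cfc) (nat_lit 0x0) (nat_lit 0x9d587e7637374)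
  (PL.C (nat_lit 0x12c280a) (nat_lit 0xdcef1893f753ee) (nat_lit 0x0)
  (PL.C (nat_lit 0x12cee56) (nat_lit 0x0) (nat_lit 0x703207e1c51ef7) gp1_0_93))))))))))))))))))))

noncomputable def gp1_0_91 : PL :=
  (PL.C (nat_lit 0x11c6bef) (nat_lit 0x0) (nat_lit 0x18c17cb9d64538d)
  (PL.C (nat_lit 0x11d2df8) (nat_lit 0x0) (nat_lit 0xbd100173d3943)
  (PL.C (nat_lit 0x11d4506) (nat_lit 0x0) (nat_lit 0x276d9b0b2d11f81)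
  (PL.C (nat_lit 0x11e32ae) (nat_lit 0x0) (nat_lit 0x169e60e770f6e6e)
  (PL.C (nat_lit 0x11ee8bb) (nat_lit 0x7c4dd9761fe7b) (nat_lit 0x0)
  (PL.C (nat_lit 0x11f2656) (nat_lit 0x1907729c288d536) (nat_lit 0x0)
  (PL.C (nat_lit 0x11f62d2) (nat_lit 0x0) (nat_lit 0xd815f2cb6c23154)
  (PL.C (nat_lit 0x11fcb14) (nat_lit 0x8cb297030da470) (nat_lit 0x0)
  (PL.C (nat_lit 0x120a962) (nat_lit 0x53b74d08b55145) (nat_lit 0x0)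
  (PL.C (nat_lit 0x1212405) (nat_lit 0x0) (nat_lit 0x37a00cfcd83787f)
  (PL.C (nat_lit 0x121a44b) (nat_lit 0x3b446fd00b46ad6) (nat_lit 0x0)
  (PL.C (nat_lit 0x1222f62) (nat_lit 0x0) (nat_lit 0x12fdf5af21269646)
  (PL.C (nat_lit 0x122454c) (nat_lit 0xa12b9b7437ee28) (nat_lit 0x0)
  (PL.C (nat_lit 0x122815e) (nat_lit 0x0) (nat_lit 0x1623af7803fbe6a)
  (PL.C (nat_lit 0x122c09e) (nat_lit 0x17f24ef10c9cb23) (nat_lit 0x0)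
  (PL.C (nat_lit 0x122c45c) (nat_lit 0x0) (nat_lit 0x98d2c189b62937)
  (PL.C (nat_lit 0x123a932) (nat_lit 0x0) (nat_lit 0xa8346ca6e882f7)
  (PL.C (nat_lit 0x123c846) (nat_lit 0x0) (nat_lit 0x2775057a88d0430)
  (PL.C (nat_lit 0x12445f5) (nat_lit 0x19b53b7e73eeb9) (nat_lit 0x0)
  (PL.C (nat_lit 0x12533f6) (nat_lit 0x6d65c557dff6452) (nat_lit 0x0) gp1_0_92))))))))))))))))))))

noncomputable def gp1_0_90 : PL :=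
  (PL.C (nat_lit 0x114eb22) (nat_lit 0xcbe72f63bffdf46) (nat_lit 0x0)
  (PL.C (nat_lit 0x1155ce2) (nat_lit 0x16b908eef6be34a) (nat_lit 0x0)
  (PL.C (nat_lit 0x115a685) (nat_lit 0x0) (nat_lit 0x762f61ee5f889f7)
  (PL.C (nat_lit 0x115b9da) (nat_lit 0x0) (nat_lit 0x66d88785f46075c)
  (PL.C (nat_lit 0x11619e4) (nat_lit 0x0) (nat_lit 0x41a5c444a7b73af)
  (PL.C (nat_lit 0x116317b) (nat_lit 0x54983bffb2c73a2) (nat_lit 0x0)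
  (PL.C (nat_lit 0x116496c) (nat_lit 0x2c1e9af0477c50) (nat_lit 0x0)
  (PL.C (nat_lit 0x1166f0d) (nat_lit 0x0) (nat_lit 0x10c7f5a366e442)
  (PL.C (nat_lit 0x116d04b) (nat_lit 0x130258dd05a19) (nat_lit 0x0)
  (PL.C (nat_lit 0x116ee28) (nat_lit 0x13e87908fb50148) (nat_lit 0x0)
  (PL.C (nat_lit 0x117d688) (nat_lit 0x44c90528025b2) (nat_lit 0x0)
  (PL.C (nat_lit 0x117e986) (nat_lit 0x0) (nat_lit 0x2c87e542b0768646)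
  (PL.C (nat_lit 0x118a03c) (nat_lit 0x85c57754f2bbd5) (nat_lit 0x0)
  (PL.C (nat_lit 0x118de71) (nat_lit 0x4b8254f9b072bf7) (nat_lit 0x0)
  (PL.C (nat_lit 0x118fe4c) (nat_lit 0x1e71010ff5e39a) (nat_lit 0x0)
  (PL.C (nat_lit 0x11909cd) (nat_lit 0x0) (nat_lit 0x3837fd18b10355)
  (PL.C (nat_lit 0x11955f6) (nat_lit 0xc6c1b3599aca25) (nat_lit 0x0)
  (PL.C (nat_lit 0x11997ff) (nat_lit 0x0) (nat_lit 0x624f7b0e2edba4)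
  (PL.C (nat_lit 0x11a3f38) (nat_lit 0x77169e2b18211f) (nat_lit 0x0)
  (PL.C (nat_lit 0x11b9f17) (nat_lit 0x7cb1d5675a5a7ca) (nat_lit 0x0) gp1_0_91))))))))))))))))))))

noncomputable def gp1_0_89 : PL :=
  (PL.C (nat_lit 0x10c1e53) (nat_lit 0xdec45dcfc23436) (nat_lit 0x0)
  (PL.C (nat_lit 0x10c6402) (nat_lit 0x9d4dc89a38635c) (nat_lit 0x0)
  (PL.C (nat_lit 0x10d0204) (nat_lit 0x0) (nat_lit 0x3b2a551af6ee08)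
  (PL.C (nat_lit 0x10d14aa) (nat_lit 0x0) (nat_lit 0x2d814996b766189)
  (PL.C (nat_lit 0x10d9b56) (nat_lit 0x0) (nat_lit 0x70c7f3b5f934475)
  (PL.C (nat_lit 0x10e2048) (nat_lit 0x0) (nat_lit 0x4c386a41e40546)
  (PL.C (nat_lit 0x10e80de) (nat_lit 0xa376c2a063f43c7) (nat_lit 0x0)
  (PL.C (nat_lit 0x10eed03) (nat_lit 0x538e763be2b14f) (nat_lit 0x0)
  (PL.C (nat_lit 0x10fe10e) (nat_lit 0x273833bef651f79) (nat_lit 0x0)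
  (PL.C (nat_lit 0x10fed7a) (nat_lit 0x0) (nat_lit 0x9b7349d7b71da20)
  (PL.C (nat_lit 0x110c754) (nat_lit 0x0) (nat_lit 0x36ff5a6068c0b2)
  (PL.C (nat_lit 0x1121cfa) (nat_lit 0x0) (nat_lit 0x55631ddfcea90)
  (PL.C (nat_lit 0x112a09c) (nat_lit 0x24ffb317817b8279) (nat_lit 0x0)
  (PL.C (nat_lit 0x112de0e) (nat_lit 0xeac289be21ae0c) (nat_lit 0x0)
  (PL.C (nat_lit 0x1131201) (nat_lit 0x1ee3c65ea456ccf) (nat_lit 0x0)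
  (PL.C (nat_lit 0x1131f27) (nat_lit 0x173a7899e6d7fc) (nat_lit 0x0)
  (PL.C (nat_lit 0x113a8d9) (nat_lit 0x5bd76817ffb5a2) (nat_lit 0x0)
  (PL.C (nat_lit 0x113c724) (nat_lit 0x52cb7291f29c62) (nat_lit 0x0)
  (PL.C (nat_lit 0x1142394) (nat_lit 0x40e33f3fce6e27) (nat_lit 0x0)
  (PL.C (nat_lit 0x1149a86) (nat_lit 0x0) (nat_lit 0x1efe45bd1ccea2a) gp1_0_90))))))))))))))))))))

noncomputable def gp1_0_88 : PL :=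
  (PL.C (nat_lit 0x103830f) (nat_lit 0x1d0be6179b9339a) (nat_lit 0x0)
  (PL.C (nat_lit 0x1038c93) (nat_lit 0x0) (nat_lit 0x8212a746c078d7)
  (PL.C (nat_lit 0x10404f1) (nat_lit 0x24cdf1ae378c2d7) (nat_lit 0x0)
  (PL.C (nat_lit 0x1042184) (nat_lit 0x327f221a0062b08) (nat_lit 0x0)
  (PL.C (nat_lit 0x1042e81) (nat_lit 0x0) (nat_lit 0x4b46997e5f823d0)
  (PL.C (nat_lit 0x1044988) (nat_lit 0x0) (nat_lit 0x43a9e6c5f6f92)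
  (PL.C (nat_lit 0x1049961) (nat_lit 0x0) (nat_lit 0x1669c14aaccf6a6)
  (PL.C (nat_lit 0x104fef2) (nat_lit 0x296344a715d031) (nat_lit 0x0)
  (PL.C (nat_lit 0x105d1af) (nat_lit 0x0) (nat_lit 0x4799ca86c6f5956)
  (PL.C (nat_lit 0x106277c) (nat_lit 0x2c99c3deeab297e) (nat_lit 0x0)
  (PL.C (nat_lit 0x106fe93) (nat_lit 0x0) (nat_lit 0x3b936a59ffef911)
  (PL.C (nat_lit 0x10730f8) (nat_lit 0xda18e2f6a38931) (nat_lit 0x0)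
  (PL.C (nat_lit 0x10793fa) (nat_lit 0x0) (nat_lit 0x21d12556684a088)
  (PL.C (nat_lit 0x107aa3e) (nat_lit 0x2daf6459846fd1) (nat_lit 0x0)
  (PL.C (nat_lit 0x10917c5) (nat_lit 0x0) (nat_lit 0x10bdca3ca3782cf)
  (PL.C (nat_lit 0x1093d08) (nat_lit 0xe50f2de57909b7) (nat_lit 0x0)
  (PL.C (nat_lit 0x10a33ee) (nat_lit 0x2d98796a9b10baa) (nat_lit 0x0)
  (PL.C (nat_lit 0x10af378) (nat_lit 0x8dea139f850514) (nat_lit 0x0)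
  (PL.C (nat_lit 0x10bb81a) (nat_lit 0x0) (nat_lit 0x513a50344d4e1dc)
  (PL.C (nat_lit 0x10c0a2a) (nat_lit 0x1882b2968a0278) (nat_lit 0x0) gp1_0_89))))))))))))))))))))

noncomputable def gp1_0_87 : PL :=
  (PL.C (nat_lit 0xfc4b88) (nat_lit 0xaacf910dc9c443) (nat_lit 0x0)
  (PL.C (nat_lit 0xfd5dac) (nat_lit 0x12aaf17c517c571d) (nat_lit 0x0)
  (PL.C (nat_lit 0xfdd26b) (nat_lit 0x6ca6242dfc2f6b) (nat_lit 0x0)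
  (PL.C (nat_lit 0xfe0c6d) (nat_lit 0xd1bde0c37dd703) (nat_lit 0x0)
  (PL.C (nat_lit 0xfe277f) (nat_lit 0x0) (nat_lit 0x131a8514df7a71)
  (PL.C (nat_lit 0xfe665c) (nat_lit 0x0) (nat_lit 0x1172696218a68d7)
  (PL.C (nat_lit 0xfe8b93) (nat_lit 0x4099139a1d9f02) (nat_lit 0x0)
  (PL.C (nat_lit 0xfea78c) (nat_lit 0x0) (nat_lit 0x383c07887e14ef)
  (PL.C (nat_lit 0xfeb443) (nat_lit 0x0) (nat_lit 0x8f9360836150aa)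
  (PL.C (nat_lit 0xfecedc) (nat_lit 0x7e9e9dce9fa47b) (nat_lit 0x0)
  (PL.C (nat_lit 0xfee086) (nat_lit 0x0) (nat_lit 0x677fee5c4e120)
  (PL.C (nat_lit 0xff1ce3) (nat_lit 0xfd4e561ac8706) (nat_lit 0x0)
  (PL.C (nat_lit 0xff33bd) (nat_lit 0x0) (nat_lit 0x89c714bfcb43e6)
  (PL.C (nat_lit 0x1001e36) (nat_lit 0x175ca0db9495607) (nat_lit 0x0)
  (PL.C (nat_lit 0x100c76a) (nat_lit 0x99f57fdc02842b) (nat_lit 0x0)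
  (PL.C (nat_lit 0x101f607) (nat_lit 0x0) (nat_lit 0x68d8cd46764d9f)
  (PL.C (nat_lit 0x102076e) (nat_lit 0x0) (nat_lit 0x18c5a3e79aa6801)
  (PL.C (nat_lit 0x1028892) (nat_lit 0x0) (nat_lit 0x45f0f0e29db8cd)
  (PL.C (nat_lit 0x1031fcd) (nat_lit 0x3d03737f4131481f) (nat_lit 0x0)
  (PL.C (nat_lit 0x1032194) (nat_lit 0x0) (nat_lit 0x1beffc3fad2daee) gp1_0_88))))))))))))))))))))

noncomputable def gp1_0_86 : PL :=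
  (PL.C (nat_lit 0xf480b7) (nat_lit 0x0) (nat_lit 0x13ed187bea9a958)
  (PL.C (nat_lit 0xf53b56) (nat_lit 0x0) (nat_lit 0x11b2238ceb9ab7f)
  (PL.C (nat_lit 0xf597f6) (nat_lit 0x0) (nat_lit 0xa0c2e683b48d8b7)
  (PL.C (nat_lit 0xf5d039) (nat_lit 0x0) (nat_lit 0xaeca3cfc8ede6b0)
  (PL.C (nat_lit 0xf68c38) (nat_lit 0x39539d489fd0d2) (nat_lit 0x0)
  (PL.C (nat_lit 0xf748bc) (nat_lit 0x0) (nat_lit 0x1f258ff974f0a0)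
  (PL.C (nat_lit 0xf7824e) (nat_lit 0x276b97b154dab83) (nat_lit 0x0)
  (PL.C (nat_lit 0xf825d2) (nat_lit 0x0) (nat_lit 0xe8ac72e573a8c3)
  (PL.C (nat_lit 0xf8672c) (nat_lit 0xf040da987e29ba) (nat_lit 0x0)
  (PL.C (nat_lit 0xf881a4) (nat_lit 0x0) (nat_lit 0x34e03253f2b0a06)
  (PL.C (nat_lit 0xf8b48e) (nat_lit 0x21ac3fe1ec7b56f) (nat_lit 0x0)
  (PL.C (nat_lit 0xf8cdbd) (nat_lit 0x0) (nat_lit 0xf29f0911678a02)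
  (PL.C (nat_lit 0xf94a43) (nat_lit 0x9b7e7823a758ab) (nat_lit 0x0)
  (PL.C (nat_lit 0xf97194) (nat_lit 0x0) (nat_lit 0x2d050eed1309aa)
  (PL.C (nat_lit 0xf987ec) (nat_lit 0x900432d8ada32a) (nat_lit 0x0)
  (PL.C (nat_lit 0xf9ee6c) (nat_lit 0x0) (nat_lit 0xc680a2e4fa467)
  (PL.C (nat_lit 0xfad496) (nat_lit 0x0) (nat_lit 0x10ddcd7b387c2c9f)
  (PL.C (nat_lit 0xfb6314) (nat_lit 0x26cf98ea1a6dadc) (nat_lit 0x0)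
  (PL.C (nat_lit 0xfc1534) (nat_lit 0x1b0045b185c52d) (nat_lit 0x0)
  (PL.C (nat_lit 0xfc3a84) (nat_lit 0x0) (nat_lit 0x3a9cf467b7bc373) gp1_0_87))))))))))))))))))))

noncomputable def gp1_0_85 : PL :=
  (PL.C (nat_lit 0xec4a1e) (nat_lit 0x13e16af8a531e35c) (nat_lit 0x0)
  (PL.C (nat_lit 0xec6be8) (nat_lit 0xa6b1473980fe1f) (nat_lit 0x0)
  (PL.C (nat_lit 0xed61f4) (nat_lit 0x0) (nat_lit 0xe3ad54ff1f5a84)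
  (PL.C (nat_lit 0xee0d76) (nat_lit 0x0) (nat_lit 0x13cb1ce576337b5)
  (PL.C (nat_lit 0xee0f18) (nat_lit 0x6d13d5972277a) (nat_lit 0x0)
  (PL.C (nat_lit 0xeefa38) (nat_lit 0x151fe9ae0703110) (nat_lit 0x0)
  (PL.C (nat_lit 0xef0e68) (nat_lit 0xf2078f49d64f18) (nat_lit 0x0)
  (PL.C (nat_lit 0xef11c4) (nat_lit 0x0) (nat_lit 0x1f6e704ec4c88c7)
  (PL.C (nat_lit 0xef3343) (nat_lit 0x0) (nat_lit 0x4166a300e92367)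
  (PL.C (nat_lit 0xef4366) (nat_lit 0x13cabc6674b29d1) (nat_lit 0x0)
  (PL.C (nat_lit 0xef6bb3) (nat_lit 0x273b0ff4b4fa263a) (nat_lit 0x0)
  (PL.C (nat_lit 0xf036ba) (nat_lit 0x0) (nat_lit 0xafe2933f80fcb4)
  (PL.C (nat_lit 0xf04761) (nat_lit 0x2750251c982c3f3) (nat_lit 0x0)
  (PL.C (nat_lit 0xf0a36b) (nat_lit 0x0) (nat_lit 0x9e9e47af68e91b)
  (PL.C (nat_lit 0xf14265) (nat_lit 0x0) (nat_lit 0x2dbcd5a876e67e5)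
  (PL.C (nat_lit 0xf2662e) (nat_lit 0x4a6d01b9df40b4e) (nat_lit 0x0)
  (PL.C (nat_lit 0xf3782a) (nat_lit 0x18bf2627008d07d) (nat_lit 0x0)
  (PL.C (nat_lit 0xf3c014) (nat_lit 0x0) (nat_lit 0x15a0a9f8d155be9)
  (PL.C (nat_lit 0xf468a2) (nat_lit 0x0) (nat_lit 0x36d34eb1aa1b186)
  (PL.C (nat_lit 0xf47188) (nat_lit 0x64bc90ddd82168) (nat_lit 0x0) gp1_0_86))))))))))))))))))))

noncomputable def gp1_0_84 : PL :=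
  (PL.C (nat_lit 0xe668fb) (nat_lit 0x3efb9ecfc33767) (nat_lit 0x0)
  (PL.C (nat_lit 0xe6c9a4) (nat_lit 0x63630068228898) (nat_lit 0x0)
  (PL.C (nat_lit 0xe728ef) (nat_lit 0x7177a6dc6ad8a8) (nat_lit 0x0)
  (PL.C (nat_lit 0xe74d64) (nat_lit 0x1e252c4355fa17) (nat_lit 0x0)
  (PL.C (nat_lit 0xe7d40c) (nat_lit 0x0) (nat_lit 0x145133072b74b2d)
  (PL.C (nat_lit 0xe833c5) (nat_lit 0x0) (nat_lit 0x7fb0fcdbb4e1a2)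
  (PL.C (nat_lit 0xe86d34) (nat_lit 0x9feb1fa2121b24) (nat_lit 0x0)
  (PL.C (nat_lit 0xe8c63c) (nat_lit 0x16464770703d645) (nat_lit 0x0)
  (PL.C (nat_lit 0xe8d84d) (nat_lit 0xa5d60f192d492) (nat_lit 0x0)
  (PL.C (nat_lit 0xe92659) (nat_lit 0xac41628ce51869) (nat_lit 0x0)
  (PL.C (nat_lit 0xe97f1e) (nat_lit 0x50654204a55545a) (nat_lit 0x0)
  (PL.C (nat_lit 0xe9c32a) (nat_lit 0x0) (nat_lit 0x2e678d42a32071a)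
  (PL.C (nat_lit 0xea6159) (nat_lit 0x35639d33b5d29af7) (nat_lit 0x0)
  (PL.C (nat_lit 0xea6758) (nat_lit 0x9a4d36e94ace8f) (nat_lit 0x0)
  (PL.C (nat_lit 0xead6a7) (nat_lit 0x267605de46d9cce) (nat_lit 0x0)
  (PL.C (nat_lit 0xeb4a74) (nat_lit 0x2d3be52eab584d7) (nat_lit 0x0)
  (PL.C (nat_lit 0xeb5cb7) (nat_lit 0x0) (nat_lit 0x7c1def70f93f33)
  (PL.C (nat_lit 0xeb9281) (nat_lit 0x38879a98552767) (nat_lit 0x0)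
  (PL.C (nat_lit 0xebab9b) (nat_lit 0x440483592f84f52) (nat_lit 0x0)
  (PL.C (nat_lit 0xec46cc) (nat_lit 0x135259afe6d95da) (nat_lit 0x0) gp1_0_85))))))))))))))))))))

noncomputable def gp1_0_83 : PL :=
  (PL.C (nat_lit 0xdebe62) (nat_lit 0x604bd62d4e4f39) (nat_lit 0x0)
  (PL.C (nat_lit 0xdedeec) (nat_lit 0x15af692552268333) (nat_lit 0x0)
  (PL.C (nat_lit 0xdfaa39) (nat_lit 0x5547ddef5795f0f) (nat_lit 0x0)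
  (PL.C (nat_lit 0xe00619) (nat_lit 0x1871bbd42ef0aaf) (nat_lit 0x0)
  (PL.C (nat_lit 0xe09ec2) (nat_lit 0x7bf207118665b78) (nat_lit 0x0)
  (PL.C (nat_lit 0xe0c526) (nat_lit 0x2634c2333fe7729) (nat_lit 0x0)
  (PL.C (nat_lit 0xe14a34) (nat_lit 0x0) (nat_lit 0xb2b7892aea490e)
  (PL.C (nat_lit 0xe17e28) (nat_lit 0x42a3db7cb6b674) (nat_lit 0x0)
  (PL.C (nat_lit 0xe205e4) (nat_lit 0x4dc3b308af515f) (nat_lit 0x0)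
  (PL.C (nat_lit 0xe2153b) (nat_lit 0x1315c37b8798efd1) (nat_lit 0x0)
  (PL.C (nat_lit 0xe295aa) (nat_lit 0x0) (nat_lit 0x4c24033dc0c3b51)
  (PL.C (nat_lit 0xe2a8ce) (nat_lit 0x587f45f56e4396) (nat_lit 0x0)
  (PL.C (nat_lit 0xe30acc) (nat_lit 0x4b615c8e3792405) (nat_lit 0x0)
  (PL.C (nat_lit 0xe361c4) (nat_lit 0xd687b9f37b62cf) (nat_lit 0x0)
  (PL.C (nat_lit 0xe3f7fc) (nat_lit 0x0) (nat_lit 0x26b9b78820c28cb)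
  (PL.C (nat_lit 0xe44ec8) (nat_lit 0xf132835bc193a9) (nat_lit 0x0)
  (PL.C (nat_lit 0xe458d6) (nat_lit 0xc095d93b3ee85a2) (nat_lit 0x0)
  (PL.C (nat_lit 0xe52bfc) (nat_lit 0x0) (nat_lit 0x84226242c2137)
  (PL.C (nat_lit 0xe621c4) (nat_lit 0x0) (nat_lit 0x441c703e044fbdf)
  (PL.C (nat_lit 0xe6565c) (nat_lit 0x0) (nat_lit 0x338540c4fee5a2a) gp1_0_84))))))))))))))))))))

noncomputable def gp1_0_82 : PL :=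
  (PL.C (nat_lit 0xd7bde2) (nat_lit 0x0) (nat_lit 0x5070a9a21faca00)
  (PL.C (nat_lit 0xd83c15) (nat_lit 0x0) (nat_lit 0x54aa65d5b258c54)
  (PL.C (nat_lit 0xd87e5d) (nat_lit 0x0) (nat_lit 0x70ccfefb316d02)
  (PL.C (nat_lit 0xd91324) (nat_lit 0x0) (nat_lit 0x22e47f9a8559f6a)
  (PL.C (nat_lit 0xd9559d) (nat_lit 0x0) (nat_lit 0x43a2ed46940cced)
  (PL.C (nat_lit 0xd9c263) (nat_lit 0x0) (nat_lit 0xd8756747909a5f)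
  (PL.C (nat_lit 0xd9cb38) (nat_lit 0x0) (nat_lit 0x43cf382627f4ad)
  (PL.C (nat_lit 0xd9e9c8) (nat_lit 0x2c76959c95b1f4) (nat_lit 0x0)
  (PL.C (nat_lit 0xda2dc4) (nat_lit 0x0) (nat_lit 0x445da37bb606829)
  (PL.C (nat_lit 0xda3eb3) (nat_lit 0x0) (nat_lit 0x180b68a4cb8f57)
  (PL.C (nat_lit 0xda60fa) (nat_lit 0x0) (nat_lit 0x1e79b341e3e7d4)
  (PL.C (nat_lit 0xda7bc7) (nat_lit 0x0) (nat_lit 0x5139e90f4dbfc72)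
  (PL.C (nat_lit 0xdabdc1) (nat_lit 0x0) (nat_lit 0x634150ce4d21f45)
  (PL.C (nat_lit 0xdb1ad6) (nat_lit 0x0) (nat_lit 0xae3d80cbbf684e)
  (PL.C (nat_lit 0xdba245) (nat_lit 0x318b002e5173830) (nat_lit 0x0)
  (PL.C (nat_lit 0xdbf38a) (nat_lit 0x79a4b2f79fc17dd) (nat_lit 0x0)
  (PL.C (nat_lit 0xdc523a) (nat_lit 0x399e05b215f44f) (nat_lit 0x0)
  (PL.C (nat_lit 0xddd07e) (nat_lit 0x0) (nat_lit 0x29643ec39633d3b)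
  (PL.C (nat_lit 0xde021f) (nat_lit 0x0) (nat_lit 0x754ca7bc046067)
  (PL.C (nat_lit 0xde3f82) (nat_lit 0xabae4ebd0a0cf9) (nat_lit 0x0) gp1_0_83))))))))))))))))))))

noncomputable def gp1_0_81 : PL :=
  (PL.C (nat_lit 0xd2708f) (nat_lit 0xa6f540ff3d205f) (nat_lit 0x0)
  (PL.C (nat_lit 0xd2a49c) (nat_lit 0x0) (nat_lit 0x77599e578298cb)
  (PL.C (nat_lit 0xd2d854) (nat_lit 0x4cd25725a62c78) (nat_lit 0x0)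
  (PL.C (nat_lit 0xd30b51) (nat_lit 0x2f8e57b4ca0de4) (nat_lit 0x0)
  (PL.C (nat_lit 0xd31cdc) (nat_lit 0x16400640e224b30) (nat_lit 0x0)
  (PL.C (nat_lit 0xd33326) (nat_lit 0xdbc5df2f96438a) (nat_lit 0x0)
  (PL.C (nat_lit 0xd35031) (nat_lit 0x22664fd722bcf5db) (nat_lit 0x0)
  (PL.C (nat_lit 0xd39cda) (nat_lit 0x0) (nat_lit 0x93cb6b37b9c98c)
  (PL.C (nat_lit 0xd3bd6e) (nat_lit 0x0) (nat_lit 0xc8c1bd64b508df)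
  (PL.C (nat_lit 0xd493dc) (nat_lit 0x24242b8d2fca46) (nat_lit 0x0)
  (PL.C (nat_lit 0xd4eb94) (nat_lit 0x586c52252732c90) (nat_lit 0x0)
  (PL.C (nat_lit 0xd5cc9e) (nat_lit 0x0) (nat_lit 0xa6d99602296a6)
  (PL.C (nat_lit 0xd5e15c) (nat_lit 0x38f044b39438d48) (nat_lit 0x0)
  (PL.C (nat_lit 0xd63b24) (nat_lit 0x17119492d8ae387) (nat_lit 0x0)
  (PL.C (nat_lit 0xd68bbb) (nat_lit 0x35faad954d9edb) (nat_lit 0x0)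
  (PL.C (nat_lit 0xd6c0cc) (nat_lit 0x588d5815ec0ada8) (nat_lit 0x0)
  (PL.C (nat_lit 0xd7028f) (nat_lit 0x8ab1895d1c6b4e) (nat_lit 0x0)
  (PL.C (nat_lit 0xd7521e) (nat_lit 0x0) (nat_lit 0x53175e16be89cdc)
  (PL.C (nat_lit 0xd7611c) (nat_lit 0x4dd11bb643b2eea) (nat_lit 0x0)
  (PL.C (nat_lit 0xd76cd8) (nat_lit 0xa1450eb960323) (nat_lit 0x0) gp1_0_82))))))))))))))))))))

noncomputable def gp1_0_80 : PL :=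
  (PL.C (nat_lit 0xcb1d6c) (nat_lit 0xe3c6d637767613) (nat_lit 0x0)
  (PL.C (nat_lit 0xcbf472) (nat_lit 0x0) (nat_lit 0x190a8d1d2565727)
  (PL.C (nat_lit 0xcc35d5) (nat_lit 0x271837fe8f7755d) (nat_lit 0x0)
  (PL.C (nat_lit 0xcc9f66) (nat_lit 0xd326691d30781) (nat_lit 0x0)
  (PL.C (nat_lit 0xcca446) (nat_lit 0x0) (nat_lit 0x5185c5881baf33c)
  (PL.C (nat_lit 0xcd5c9c) (nat_lit 0x73b6da24cda4534) (nat_lit 0x0)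
  (PL.C (nat_lit 0xcd8128) (nat_lit 0xed5d7633a5633) (nat_lit 0x0)
  (PL.C (nat_lit 0xcdaeb6) (nat_lit 0x0) (nat_lit 0x1595c11158ab2d0)
  (PL.C (nat_lit 0xcdc364) (nat_lit 0x0) (nat_lit 0x125bffdeecfbb05)
  (PL.C (nat_lit 0xcddcbb) (nat_lit 0x3fbed692b5a373b) (nat_lit 0x0)
  (PL.C (nat_lit 0xce81a8) (nat_lit 0x26c76b0a66b139) (nat_lit 0x0)
  (PL.C (nat_lit 0xcedd53) (nat_lit 0x419607046ce329c) (nat_lit 0x0)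
  (PL.C (nat_lit 0xcf014d) (nat_lit 0x1b0c3951217c69) (nat_lit 0x0)
  (PL.C (nat_lit 0xcf65fd) (nat_lit 0x0) (nat_lit 0x26d1cd327ac3f76)
  (PL.C (nat_lit 0xd14c5a) (nat_lit 0x914a0ffb7626ab) (nat_lit 0x0)
  (PL.C (nat_lit 0xd1b0dc) (nat_lit 0x0) (nat_lit 0x12219b5db103f9f)
  (PL.C (nat_lit 0xd1c734) (nat_lit 0x0) (nat_lit 0xd548e91735c089)
  (PL.C (nat_lit 0xd20771) (nat_lit 0x0) (nat_lit 0x324b8806b443e6)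
  (PL.C (nat_lit 0xd21b12) (nat_lit 0x0) (nat_lit 0x44b9ada59c2d204)
  (PL.C (nat_lit 0xd23b64) (nat_lit 0x6a80315b6f2f418) (nat_lit 0x0) gp1_0_81))))))))))))))))))))

noncomputable def gp1_0_79 : PL :=
  (PL.C (nat_lit 0xc63d83) (nat_lit 0x20431dde9b8ac99) (nat_lit 0x0)
  (PL.C (nat_lit 0xc6534c) (nat_lit 0x0) (nat_lit 0x1a8d2c9fa27d686)
  (PL.C (nat_lit 0xc65d33) (nat_lit 0x4f27b71750b7337) (nat_lit 0x0)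
  (PL.C (nat_lit 0xc69f44) (nat_lit 0x0) (nat_lit 0x140f52be93875f)
  (PL.C (nat_lit 0xc6f147) (nat_lit 0x2328ad71285d2c1) (nat_lit 0x0)
  (PL.C (nat_lit 0xc7227c) (nat_lit 0x30a894421304425) (nat_lit 0x0)
  (PL.C (nat_lit 0xc77716) (nat_lit 0x724ac68a1cdfbde) (nat_lit 0x0)
  (PL.C (nat_lit 0xc7e93f) (nat_lit 0x0) (nat_lit 0x4799ca86c6f5956)
  (PL.C (nat_lit 0xc80d2a) (nat_lit 0x297fbdb0b144618) (nat_lit 0x0)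
  (PL.C (nat_lit 0xc86d51) (nat_lit 0x1f6ec943d9c839) (nat_lit 0x0)
  (PL.C (nat_lit 0xc89ee4) (nat_lit 0xb0ce02134c2e6) (nat_lit 0x0)
  (PL.C (nat_lit 0xc8f578) (nat_lit 0x0) (nat_lit 0x209118e5a83eae)
  (PL.C (nat_lit 0xc94872) (nat_lit 0x0) (nat_lit 0x1aad520d6ed0c4)
  (PL.C (nat_lit 0xc9c606) (nat_lit 0x26d240e966e271d) (nat_lit 0x0)
  (PL.C (nat_lit 0xc9cfd4) (nat_lit 0x2c7cb21996ee5af) (nat_lit 0x0)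
  (PL.C (nat_lit 0xca1bbf) (nat_lit 0x625dfa9c87bedef) (nat_lit 0x0)
  (PL.C (nat_lit 0xca67ac) (nat_lit 0x15c01e583d6f9cf) (nat_lit 0x0)
  (PL.C (nat_lit 0xca9803) (nat_lit 0x0) (nat_lit 0xbebe979d48cdc6)
  (PL.C (nat_lit 0xcac722) (nat_lit 0x0) (nat_lit 0x21debcf482901b)
  (PL.C (nat_lit 0xcb0b1a) (nat_lit 0x19b029f9b3eb432) (nat_lit 0x0) gp1_0_80))))))))))))))))))))

noncomputable def gp1_0_78 : PL :=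
  (PL.C (nat_lit 0xc174ec) (nat_lit 0x804b1c2d7a24317) (nat_lit 0x0)
  (PL.C (nat_lit 0xc18388) (nat_lit 0x6eb420e8dc66b0) (nat_lit 0x0)
  (PL.C (nat_lit 0xc1ab94) (nat_lit 0x0) (nat_lit 0x19be9db46d892b6)
  (PL.C (nat_lit 0xc1c4cd) (nat_lit 0x1f67a45d8ee89d6) (nat_lit 0x0)
  (PL.C (nat_lit 0xc270cc) (nat_lit 0x0) (nat_lit 0x34a22ad24b9269)
  (PL.C (nat_lit 0xc28584) (nat_lit 0xf39b1460b756875) (nat_lit 0x0)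
  (PL.C (nat_lit 0xc2c115) (nat_lit 0x0) (nat_lit 0xd7e1b3e20f532a)
  (PL.C (nat_lit 0xc2d94e) (nat_lit 0x0) (nat_lit 0x8875a8f88e636e4)
  (PL.C (nat_lit 0xc39b18) (nat_lit 0x0) (nat_lit 0x62971303035f427)
  (PL.C (nat_lit 0xc3c8af) (nat_lit 0x0) (nat_lit 0x1c7bc113777f925)
  (PL.C (nat_lit 0xc3d6fe) (nat_lit 0x0) (nat_lit 0xbbbc736e2711d)
  (PL.C (nat_lit 0xc3f91c) (nat_lit 0x0) (nat_lit 0x139d28c787c39c5)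
  (PL.C (nat_lit 0xc43902) (nat_lit 0xea2b3e39f82a85) (nat_lit 0x0)
  (PL.C (nat_lit 0xc4499c) (nat_lit 0x0) (nat_lit 0x6f16afe5c0f9a6)
  (PL.C (nat_lit 0xc54a28) (nat_lit 0x25046366f0a9521) (nat_lit 0x0)
  (PL.C (nat_lit 0xc56f64) (nat_lit 0x0) (nat_lit 0x153dea1206f01eb)
  (PL.C (nat_lit 0xc58692) (nat_lit 0x0) (nat_lit 0x532459dc4267bf)
  (PL.C (nat_lit 0xc5da7d) (nat_lit 0x0) (nat_lit 0x661e52bcf39cd7d)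
  (PL.C (nat_lit 0xc5e96e) (nat_lit 0xbf194d34c76b86) (nat_lit 0x0)
  (PL.C (nat_lit 0xc61263) (nat_lit 0x14e82ea193f0fc) (nat_lit 0x0) gp1_0_79))))))))))))))))))))

noncomputable def gp1_0_77 : PL :=
  (PL.C (nat_lit 0xb9e032) (nat_lit 0xc9d93803b60b) (nat_lit 0x0)
  (PL.C (nat_lit 0xbb3ef6) (nat_lit 0x0) (nat_lit 0x37220f26b836089)
  (PL.C (nat_lit 0xbb5bde) (nat_lit 0x39646edf86024b) (nat_lit 0x0)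
  (PL.C (nat_lit 0xbb68db) (nat_lit 0x0) (nat_lit 0x4af07cfc3593eb7)
  (PL.C (nat_lit 0xbb8ea4) (nat_lit 0x0) (nat_lit 0x1b2d8f90bf7af04)
  (PL.C (nat_lit 0xbbbaaa) (nat_lit 0xeade36b7ffcfd5) (nat_lit 0x0)
  (PL.C (nat_lit 0xbc97e7) (nat_lit 0x0) (nat_lit 0x22111661693ac19)
  (PL.C (nat_lit 0xbccedd) (nat_lit 0x16320e3a14a0a27f) (nat_lit 0x0)
  (PL.C (nat_lit 0xbd14ba) (nat_lit 0xa362560403ab654) (nat_lit 0x0)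
  (PL.C (nat_lit 0xbd9d4a) (nat_lit 0x26c6e87329d329) (nat_lit 0x0)
  (PL.C (nat_lit 0xbe2e04) (nat_lit 0x0) (nat_lit 0x2e4ae1449a63263)
  (PL.C (nat_lit 0xbecc74) (nat_lit 0x0) (nat_lit 0x19012f7e112557d)
  (PL.C (nat_lit 0xbed967) (nat_lit 0x480075566e8b9dd7) (nat_lit 0x0)
  (PL.C (nat_lit 0xbf45d2) (nat_lit 0x9c6d3fe11f35bce) (nat_lit 0x0)
  (PL.C (nat_lit 0xbf6ee4) (nat_lit 0xe50c4dcfbbe449) (nat_lit 0x0)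
  (PL.C (nat_lit 0xbfdcb8) (nat_lit 0x54bc156d1ac345) (nat_lit 0x0)
  (PL.C (nat_lit 0xc045f3) (nat_lit 0x4aa367c4bd76ec9) (nat_lit 0x0)
  (PL.C (nat_lit 0xc070ec) (nat_lit 0x0) (nat_lit 0x2a2249157f56353)
  (PL.C (nat_lit 0xc0c2ae) (nat_lit 0x0) (nat_lit 0x4679a0371a35507)
  (PL.C (nat_lit 0xc11832) (nat_lit 0x0) (nat_lit 0x1aff8da98c1359c) gp1_0_78))))))))))))))))))))

noncomputable def gp1_0_76 : PL :=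
  (PL.C (nat_lit 0xb548fc) (nat_lit 0x0) (nat_lit 0x188f3780d7da62b)
  (PL.C (nat_lit 0xb56c89) (nat_lit 0x3e46d7dadc29db4) (nat_lit 0x0)
  (PL.C (nat_lit 0xb58b8b) (nat_lit 0x0) (nat_lit 0x7f89f5b1b40663)
  (PL.C (nat_lit 0xb5da38) (nat_lit 0x0) (nat_lit 0x5d4493784b52c1)
  (PL.C (nat_lit 0xb68929) (nat_lit 0x0) (nat_lit 0x54aa65d5b258c54)
  (PL.C (nat_lit 0xb6bdfc) (nat_lit 0x0) (nat_lit 0x252c39f65715d4)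
  (PL.C (nat_lit 0xb73eb4) (nat_lit 0x5e70f53882b431d) (nat_lit 0x0)
  (PL.C (nat_lit 0xb76156) (nat_lit 0x0) (nat_lit 0x39c052294170422)
  (PL.C (nat_lit 0xb76a1a) (nat_lit 0x0) (nat_lit 0x7d701f0e9c0b45)
  (PL.C (nat_lit 0xb776d1) (nat_lit 0xa2d4931adc489b) (nat_lit 0x0)
  (PL.C (nat_lit 0xb7c5e6) (nat_lit 0x0) (nat_lit 0x12915819797550)
  (PL.C (nat_lit 0xb7da18) (nat_lit 0x0) (nat_lit 0xb225a1b4d1811)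
  (PL.C (nat_lit 0xb817b8) (nat_lit 0x0) (nat_lit 0x11052a58ffec277)
  (PL.C (nat_lit 0xb86704) (nat_lit 0x0) (nat_lit 0x30bbbfed9475d56)
  (PL.C (nat_lit 0xb86f23) (nat_lit 0x0) (nat_lit 0x3fc5b806aa604d60)
  (PL.C (nat_lit 0xb919ae) (nat_lit 0x0) (nat_lit 0x10cd7b1096f4a0c8)
  (PL.C (nat_lit 0xb96698) (nat_lit 0x0) (nat_lit 0xb95e28e7f87cb1)
  (PL.C (nat_lit 0xb97652) (nat_lit 0x0) (nat_lit 0x140e8217e3d56f)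
  (PL.C (nat_lit 0xb98648) (nat_lit 0x0) (nat_lit 0xa9f09f19aa8e91)
  (PL.C (nat_lit 0xb99f5e) (nat_lit 0x0) (nat_lit 0x5b08ef7e5f069a) gp1_0_77))))))))))))))))))))

noncomputable def gp1_0_75 : PL :=
  (PL.C (nat_lit 0xad7456) (nat_lit 0x0) (nat_lit 0x8e400331039fc16)
  (PL.C (nat_lit 0xadbb96) (nat_lit 0x0) (nat_lit 0xcdd70fe842a20c)
  (PL.C (nat_lit 0xadff4c) (nat_lit 0x0) (nat_lit 0x81003e27f960d4)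
  (PL.C (nat_lit 0xae8bca) (nat_lit 0x181933434ad7033) (nat_lit 0x0)
  (PL.C (nat_lit 0xaf5462) (nat_lit 0x0) (nat_lit 0x130c55508c062db0)
  (PL.C (nat_lit 0xafb7fc) (nat_lit 0x0) (nat_lit 0x10cf6c0c7198444)
  (PL.C (nat_lit 0xafc6d4) (nat_lit 0x0) (nat_lit 0x46f4669bf378b5)
  (PL.C (nat_lit 0xafedcb) (nat_lit 0x143756b73e7d01) (nat_lit 0x0)
  (PL.C (nat_lit 0xb06205) (nat_lit 0x2b3ed831ffc030) (nat_lit 0x0)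
  (PL.C (nat_lit 0xb0f823) (nat_lit 0x0) (nat_lit 0x2155a4368adf0a8)
  (PL.C (nat_lit 0xb177f4) (nat_lit 0xe9c65b6d11a0b3) (nat_lit 0x0)
  (PL.C (nat_lit 0xb1c13b) (nat_lit 0x0) (nat_lit 0x1d96b3c1262b14)
  (PL.C (nat_lit 0xb1f3a5) (nat_lit 0x77398eb834395f) (nat_lit 0x0)
  (PL.C (nat_lit 0xb27abc) (nat_lit 0x43bea13bd6659325) (nat_lit 0x0)
  (PL.C (nat_lit 0xb2bee2) (nat_lit 0x18b89df865294aa) (nat_lit 0x0)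
  (PL.C (nat_lit 0xb3631c) (nat_lit 0x5e259920d26bad8) (nat_lit 0x0)
  (PL.C (nat_lit 0xb3b659) (nat_lit 0xf1196d68b4c3dd) (nat_lit 0x0)
  (PL.C (nat_lit 0xb3bce4) (nat_lit 0x0) (nat_lit 0x5004bbb3109205f)
  (PL.C (nat_lit 0xb49e02) (nat_lit 0x129acd38b6a6b17) (nat_lit 0x0)
  (PL.C (nat_lit 0xb540b4) (nat_lit 0x0) (nat_lit 0xc65efa217affac) gp1_0_76))))))))))))))))))))

noncomputable def gp1_0_74 : PL :=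
  (PL.C (nat_lit 0xa936f2) (nat_lit 0x4c09c49378b5c1) (nat_lit 0x0)
  (PL.C (nat_lit 0xa942ad) (nat_lit 0x7797804f3ae4ce1) (nat_lit 0x0)
  (PL.C (nat_lit 0xa95d9e) (nat_lit 0x0) (nat_lit 0x11b2238ceb9ab7f)
  (PL.C (nat_lit 0xa96faa) (nat_lit 0x0) (nat_lit 0x9b4bed769288cc8)
  (PL.C (nat_lit 0xa9b262) (nat_lit 0x6c908859e812cb) (nat_lit 0x0)
  (PL.C (nat_lit 0xa9c508) (nat_lit 0x15e26f7f6ac32b8) (nat_lit 0x0)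
  (PL.C (nat_lit 0xa9cd82) (nat_lit 0x7a0c51b3b65e8c) (nat_lit 0x0)
  (PL.C (nat_lit 0xa9eb04) (nat_lit 0x22e0d0a5429306d) (nat_lit 0x0)
  (PL.C (nat_lit 0xaa1342) (nat_lit 0x2015b84977d03a) (nat_lit 0x0)
  (PL.C (nat_lit 0xaa227e) (nat_lit 0xdd5163576572fe) (nat_lit 0x0)
  (PL.C (nat_lit 0xaa839e) (nat_lit 0x0) (nat_lit 0x32c2396c5dd466)
  (PL.C (nat_lit 0xab054f) (nat_lit 0x0) (nat_lit 0xbb348ab07fde0a1)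
  (PL.C (nat_lit 0xab2f9c) (nat_lit 0x1ad782e241e9840) (nat_lit 0x0)
  (PL.C (nat_lit 0xabf95a) (nat_lit 0x0) (nat_lit 0x4f1b8146fa7b9b9)
  (PL.C (nat_lit 0xac04f4) (nat_lit 0x0) (nat_lit 0x29ca3fa87f17cb)
  (PL.C (nat_lit 0xac4bfb) (nat_lit 0x0) (nat_lit 0x5a25b3ef238413)
  (PL.C (nat_lit 0xac5b0c) (nat_lit 0x0) (nat_lit 0x86b2509d7927cb)
  (PL.C (nat_lit 0xacbfde) (nat_lit 0x0) (nat_lit 0x1e9b6287f34bdc61)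
  (PL.C (nat_lit 0xad020a) (nat_lit 0x61efff4dac0c48a) (nat_lit 0x0)
  (PL.C (nat_lit 0xad0862) (nat_lit 0x0) (nat_lit 0x1ace4dae7c0bc84) gp1_0_75))))))))))))))))))))

noncomputable def gp1_0_73 : PL :=
  (PL.C (nat_lit 0xa24eff) (nat_lit 0x94df97b4b75dc7) (nat_lit 0x0)
  (PL.C (nat_lit 0xa2501c) (nat_lit 0x20a645ca58b4897) (nat_lit 0x0)
  (PL.C (nat_lit 0xa29321) (nat_lit 0x2a746f59524903) (nat_lit 0x0)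
  (PL.C (nat_lit 0xa2f06c) (nat_lit 0x0) (nat_lit 0x44221cba04ea348)
  (PL.C (nat_lit 0xa3007a) (nat_lit 0x0) (nat_lit 0x828e70a64e014ff)
  (PL.C (nat_lit 0xa37ce4) (nat_lit 0x0) (nat_lit 0x661bc50790ba6f)
  (PL.C (nat_lit 0xa3baa4) (nat_lit 0x0) (nat_lit 0x1865f7494bc58c99)
  (PL.C (nat_lit 0xa3c839) (nat_lit 0x4d1043435c6ba1) (nat_lit 0x0)
  (PL.C (nat_lit 0xa3e026) (nat_lit 0x0) (nat_lit 0xd815f2cb6c23154)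
  (PL.C (nat_lit 0xa4db28) (nat_lit 0x0) (nat_lit 0x8a03a105f4766a)
  (PL.C (nat_lit 0xa545ab) (nat_lit 0xa3a0927f46701d) (nat_lit 0x0)
  (PL.C (nat_lit 0xa5499b) (nat_lit 0xa93af716342331c) (nat_lit 0x0)
  (PL.C (nat_lit 0xa56e8c) (nat_lit 0x1c37e2872365f78) (nat_lit 0x0)
  (PL.C (nat_lit 0xa5cdb4) (nat_lit 0x8cd531e5863066) (nat_lit 0x0)
  (PL.C (nat_lit 0xa5de7e) (nat_lit 0x0) (nat_lit 0x81e415398c14ada)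
  (PL.C (nat_lit 0xa63182) (nat_lit 0x0) (nat_lit 0x1d5c1f27d67a3e)
  (PL.C (nat_lit 0xa64bb8) (nat_lit 0x3e8e9cd9006a61) (nat_lit 0x0)
  (PL.C (nat_lit 0xa69062) (nat_lit 0x0) (nat_lit 0x1ea9add9e7e810)
  (PL.C (nat_lit 0xa73864) (nat_lit 0x56f5dc125d79afe) (nat_lit 0x0)
  (PL.C (nat_lit 0xa7733f) (nat_lit 0x0) (nat_lit 0x1589ad868f7a57b) gp1_0_74))))))))))))))))))))

noncomputable def gp1_0_72 : PL :=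
  (PL.C (nat_lit 0x9c8f1a) (nat_lit 0x35b4e246d5ac085) (nat_lit 0x0)
  (PL.C (nat_lit 0x9ce87a) (nat_lit 0x704b118dd907266) (nat_lit 0x0)
  (PL.C (nat_lit 0x9d0c56) (nat_lit 0x0) (nat_lit 0x9252c7c8189e97)
  (PL.C (nat_lit 0x9d1d12) (nat_lit 0x5f4ef4f766cc3ce) (nat_lit 0x0)
  (PL.C (nat_lit 0x9d60bf) (nat_lit 0x0) (nat_lit 0x29343adb30a91a)
  (PL.C (nat_lit 0x9d8488) (nat_lit 0x891744ff382e47) (nat_lit 0x0)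
  (PL.C (nat_lit 0x9e5dfe) (nat_lit 0x0) (nat_lit 0xb7ea27dbcd20ec)
  (PL.C (nat_lit 0x9eb3a4) (nat_lit 0x0) (nat_lit 0x27c7920f607e07c)
  (PL.C (nat_lit 0x9ee43d) (nat_lit 0x0) (nat_lit 0xf51cff3fde9fe)
  (PL.C (nat_lit 0x9f33c3) (nat_lit 0x0) (nat_lit 0xda14d6ec0ea972)
  (PL.C (nat_lit 0x9f5ef0) (nat_lit 0xb067ff62d4f892) (nat_lit 0x0)
  (PL.C (nat_lit 0x9f7782) (nat_lit 0x0) (nat_lit 0xfd3898423cd213)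
  (PL.C (nat_lit 0x9f8244) (nat_lit 0x38a099de5fdcd6e) (nat_lit 0x0)
  (PL.C (nat_lit 0x9f9d22) (nat_lit 0x0) (nat_lit 0x167f6e4fa7e41569)
  (PL.C (nat_lit 0xa0247c) (nat_lit 0x0) (nat_lit 0x630d7b970904aa)
  (PL.C (nat_lit 0xa02f96) (nat_lit 0x0) (nat_lit 0x39e5204529e49c6)
  (PL.C (nat_lit 0xa06cf2) (nat_lit 0x0) (nat_lit 0x138e7f673f3c4d2)
  (PL.C (nat_lit 0xa0d6ee) (nat_lit 0x0) (nat_lit 0x4d02b761cc8d87f)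
  (PL.C (nat_lit 0xa11b43) (nat_lit 0x220e69b876e8ac1b) (nat_lit 0x0)
  (PL.C (nat_lit 0xa19974) (nat_lit 0x966d71ac4490aa) (nat_lit 0x0) gp1_0_73))))))))))))))))))))

noncomputable def gp1_0_71 : PL :=
  (PL.C (nat_lit 0x975c88) (nat_lit 0x23b1733572e2dab) (nat_lit 0x0)
  (PL.C (nat_lit 0x97a09d) (nat_lit 0x0) (nat_lit 0xabac76ab151a03)
  (PL.C (nat_lit 0x97d51a) (nat_lit 0x0) (nat_lit 0x463867a723cfe8)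
  (PL.C (nat_lit 0x97faa8) (nat_lit 0x7231cd16e87c9f) (nat_lit 0x0)
  (PL.C (nat_lit 0x99266d) (nat_lit 0x1a3067ff69ed555) (nat_lit 0x0)
  (PL.C (nat_lit 0x996bd8) (nat_lit 0x0) (nat_lit 0x1db0ca3efaaf39f)
  (PL.C (nat_lit 0x998ee8) (nat_lit 0x0) (nat_lit 0x736e94a87b43)
  (PL.C (nat_lit 0x999b52) (nat_lit 0x0) (nat_lit 0xd8f0092bc0ca38)
  (PL.C (nat_lit 0x9a1b4a) (nat_lit 0x0) (nat_lit 0x1e39200deb6cf26)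
  (PL.C (nat_lit 0x9a3398) (nat_lit 0x0) (nat_lit 0x41a5fae3e568b9)
  (PL.C (nat_lit 0x9a7d51) (nat_lit 0x596a34a7d985121) (nat_lit 0x0)
  (PL.C (nat_lit 0x9acd2e) (nat_lit 0x0) (nat_lit 0x7e1ec7a35a140e7)
  (PL.C (nat_lit 0x9af378) (nat_lit 0x2308c92d79ffc90) (nat_lit 0x0)
  (PL.C (nat_lit 0x9b087a) (nat_lit 0x0) (nat_lit 0x944f61008d50c)
  (PL.C (nat_lit 0x9b3ade) (nat_lit 0x296344a715d031) (nat_lit 0x0)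
  (PL.C (nat_lit 0x9b6ee6) (nat_lit 0x0) (nat_lit 0xec4e55c619e1d0)
  (PL.C (nat_lit 0x9baa14) (nat_lit 0x5c338989b2d4258) (nat_lit 0x0)
  (PL.C (nat_lit 0x9bb0ef) (nat_lit 0x0) (nat_lit 0x1b0bde960e9d3b4)
  (PL.C (nat_lit 0x9bf601) (nat_lit 0x18aa9d9242fcf59) (nat_lit 0x0)
  (PL.C (nat_lit 0x9c40e6) (nat_lit 0x0) (nat_lit 0x13e4c4bbd3e5db89) gp1_0_72))))))))))))))))))))

noncomputable def gp1_0_70 : PL :=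
  (PL.C (nat_lit 0x92a25c) (nat_lit 0x0) (nat_lit 0x1e897103fd534ba)
  (PL.C (nat_lit 0x92cf43) (nat_lit 0x3cb050575427af5) (nat_lit 0x0)
  (PL.C (nat_lit 0x92e17c) (nat_lit 0x4c5254420d2179) (nat_lit 0x0)
  (PL.C (nat_lit 0x9318bd) (nat_lit 0x0) (nat_lit 0x1cb772ec3f8441b)
  (PL.C (nat_lit 0x93e054) (nat_lit 0x1b290abf11892c4) (nat_lit 0x0)
  (PL.C (nat_lit 0x94016a) (nat_lit 0x0) (nat_lit 0x218090f5a011f859)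
  (PL.C (nat_lit 0x941d63) (nat_lit 0x4709269eb1fa86) (nat_lit 0x0)
  (PL.C (nat_lit 0x947eec) (nat_lit 0xdb8afbd2152fb9) (nat_lit 0x0)
  (PL.C (nat_lit 0x951c26) (nat_lit 0x0) (nat_lit 0x7ac58d14b2934e6)
  (PL.C (nat_lit 0x955966) (nat_lit 0x0) (nat_lit 0xa6d99602296a6)
  (PL.C (nat_lit 0x95bf2c) (nat_lit 0x61ff3098b61a584) (nat_lit 0x0)
  (PL.C (nat_lit 0x95d8c4) (nat_lit 0xce559a76100bb1) (nat_lit 0x0)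
  (PL.C (nat_lit 0x95ed07) (nat_lit 0xfbe1e1e9ff333) (nat_lit 0x0)
  (PL.C (nat_lit 0x95f781) (nat_lit 0x0) (nat_lit 0x616380201681883)
  (PL.C (nat_lit 0x963178) (nat_lit 0x0) (nat_lit 0x37df9d4bfb59b)
  (PL.C (nat_lit 0x96811b) (nat_lit 0x13da653c46ca49d) (nat_lit 0x0)
  (PL.C (nat_lit 0x96ae98) (nat_lit 0x13fe0509ab7e56a) (nat_lit 0x0)
  (PL.C (nat_lit 0x96b8d2) (nat_lit 0x194f7058cd67c5a9) (nat_lit 0x0)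
  (PL.C (nat_lit 0x971b34) (nat_lit 0xc3e3cd29c3d3b6) (nat_lit 0x0)
  (PL.C (nat_lit 0x973cb3) (nat_lit 0xaac50a17bea1418) (nat_lit 0x0) gp1_0_71))))))))))))))))))))

noncomputable def gp1_0_69 : PL :=
  (PL.C (nat_lit 0x8f07d2) (nat_lit 0x0) (nat_lit 0x560031a1862d4ee)
  (PL.C (nat_lit 0x8f570a) (nat_lit 0x3e9c19ae9abbc02) (nat_lit 0x0)
  (PL.C (nat_lit 0x8f8c14) (nat_lit 0x0) (nat_lit 0x2feaa7c83f762c2)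
  (PL.C (nat_lit 0x8fb809) (nat_lit 0x0) (nat_lit 0x48050da73e6c55)
  (PL.C (nat_lit 0x8fd3ec) (nat_lit 0x239e0665fecd2bd) (nat_lit 0x0)
  (PL.C (nat_lit 0x8ffff7) (nat_lit 0x0) (nat_lit 0x790c1f1b03e19d)
  (PL.C (nat_lit 0x90280e) (nat_lit 0x0) (nat_lit 0x78c9c6e05e1f3eaa)
  (PL.C (nat_lit 0x904809) (nat_lit 0x0) (nat_lit 0x4f7aaaf8c66293)
  (PL.C (nat_lit 0x90543e) (nat_lit 0x47a00ce24a75) (nat_lit 0x0)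
  (PL.C (nat_lit 0x905f19) (nat_lit 0x490fe8403ecbc9) (nat_lit 0x0)
  (PL.C (nat_lit 0x90e3be) (nat_lit 0x0) (nat_lit 0xdf5c87d96807804)
  (PL.C (nat_lit 0x912c42) (nat_lit 0x0) (nat_lit 0x52af1da048f9f94)
  (PL.C (nat_lit 0x9173d8) (nat_lit 0x0) (nat_lit 0x1037d5f4a257ccb)
  (PL.C (nat_lit 0x917f22) (nat_lit 0x0) (nat_lit 0x2fa193dffee123)
  (PL.C (nat_lit 0x9195fc) (nat_lit 0x0) (nat_lit 0xf3b4cc5a467658)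
  (PL.C (nat_lit 0x91a7da) (nat_lit 0x0) (nat_lit 0x20853836339ec13)
  (PL.C (nat_lit 0x91d3d6) (nat_lit 0x0) (nat_lit 0x92ee17018c46aa8)
  (PL.C (nat_lit 0x920bb2) (nat_lit 0x0) (nat_lit 0x30e25e6760fcb40)
  (PL.C (nat_lit 0x9211e4) (nat_lit 0x0) (nat_lit 0x1bc8f3c7555b8d0)
  (PL.C (nat_lit 0x926c2e) (nat_lit 0x0) (nat_lit 0x1e2d95b6639c22e) gp1_0_70))))))))))))))))))))

noncomputable def gp1_0_68 : PL :=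
  (PL.C (nat_lit 0x8a00de) (nat_lit 0x10c884499ff788) (nat_lit 0x0)
  (PL.C (nat_lit 0x8a43fe) (nat_lit 0x0) (nat_lit 0x1ad20f96123b27f)
  (PL.C (nat_lit 0x8b0f65) (nat_lit 0x16f420af80e8e05) (nat_lit 0x0)
  (PL.C (nat_lit 0x8b8747) (nat_lit 0x18e42507c4ead4c6) (nat_lit 0x0)
  (PL.C (nat_lit 0x8b883c) (nat_lit 0x0) (nat_lit 0xe21bc327daa27)
  (PL.C (nat_lit 0x8bc1d9) (nat_lit 0x3b84d8f1f038fb) (nat_lit 0x0)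
  (PL.C (nat_lit 0x8c04f6) (nat_lit 0x0) (nat_lit 0x3d786319edcaa45)
  (PL.C (nat_lit 0x8c120c) (nat_lit 0x0) (nat_lit 0x288fc51c370b157)
  (PL.C (nat_lit 0x8c2798) (nat_lit 0x418597fa862c26f) (nat_lit 0x0)
  (PL.C (nat_lit 0x8c4b0a) (nat_lit 0x20ca8aa5bf75101) (nat_lit 0x0)
  (PL.C (nat_lit 0x8c9038) (nat_lit 0x0) (nat_lit 0xbb6b0e3b8c5a77)
  (PL.C (nat_lit 0x8cb236) (nat_lit 0x0) (nat_lit 0x1088c6a309ab469)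
  (PL.C (nat_lit 0x8cbde8) (nat_lit 0x18c450f20d79d8d) (nat_lit 0x0)
  (PL.C (nat_lit 0x8cccc4) (nat_lit 0x12b908d34fc4ddc) (nat_lit 0x0)
  (PL.C (nat_lit 0x8d06e7) (nat_lit 0x0) (nat_lit 0x1d96b3c1262b14)
  (PL.C (nat_lit 0x8d133c) (nat_lit 0x22d1807d917ed) (nat_lit 0x0)
  (PL.C (nat_lit 0x8d28f4) (nat_lit 0x0) (nat_lit 0x40b018239a5af91)
  (PL.C (nat_lit 0x8db7e8) (nat_lit 0x1894ff4ac07357) (nat_lit 0x0)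
  (PL.C (nat_lit 0x8ed218) (nat_lit 0x1741f5772738936) (nat_lit 0x0)
  (PL.C (nat_lit 0x8ef896) (nat_lit 0x0) (nat_lit 0x127207143caea27) gp1_0_69))))))))))))))))))))

noncomputable def gp1_0_67 : PL :=
  (PL.C (nat_lit 0x86304c) (nat_lit 0x0) (nat_lit 0x16f4a6a44e4aa4a)
  (PL.C (nat_lit 0x868404) (nat_lit 0x0) (nat_lit 0x4be3d4f106e9769)
  (PL.C (nat_lit 0x86ad35) (nat_lit 0x0) (nat_lit 0x1e369b1c300ad3)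
  (PL.C (nat_lit 0x86bd2a) (nat_lit 0x0) (nat_lit 0x1148c83d44c9f0a5)
  (PL.C (nat_lit 0x86efc8) (nat_lit 0x18c450f20d79d8d) (nat_lit 0x0)
  (PL.C (nat_lit 0x871002) (nat_lit 0x0) (nat_lit 0x8a3535b8de9cc02)
  (PL.C (nat_lit 0x872f6c) (nat_lit 0x0) (nat_lit 0x3c2b3c5f7a9b4)
  (PL.C (nat_lit 0x875cbc) (nat_lit 0x7ecfc850e97e21) (nat_lit 0x0)
  (PL.C (nat_lit 0x877197) (nat_lit 0x4c2a99d3ee9a829) (nat_lit 0x0)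
  (PL.C (nat_lit 0x87f84c) (nat_lit 0xaa2172b421ef37f) (nat_lit 0x0)
  (PL.C (nat_lit 0x8821ef) (nat_lit 0x153e06e8729cba9) (nat_lit 0x0)
  (PL.C (nat_lit 0x886611) (nat_lit 0x12fc884cb920c8e) (nat_lit 0x0)
  (PL.C (nat_lit 0x886a44) (nat_lit 0x0) (nat_lit 0x4ed2ad9dbb65fc)
  (PL.C (nat_lit 0x886d84) (nat_lit 0x0) (nat_lit 0xe281bacb497a532)
  (PL.C (nat_lit 0x88ac61) (nat_lit 0x0) (nat_lit 0x99a7bbb2e7582b)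
  (PL.C (nat_lit 0x88e868) (nat_lit 0x37f831bf2d59ac) (nat_lit 0x0)
  (PL.C (nat_lit 0x891f24) (nat_lit 0x0) (nat_lit 0x132981b68fbec29)
  (PL.C (nat_lit 0x893dd2) (nat_lit 0x0) (nat_lit 0x8e07f7870b30c8)
  (PL.C (nat_lit 0x8992a7) (nat_lit 0xb9acd463dc7fa0) (nat_lit 0x0)
  (PL.C (nat_lit 0x89e8e2) (nat_lit 0x2743360e5b4c31b) (nat_lit 0x0) gp1_0_68))))))))))))))))))))

noncomputable def gp1_0_66 : PL :=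
  (PL.C (nat_lit 0x81e634) (nat_lit 0x0) (nat_lit 0x15d6b8ab2466c458)
  (PL.C (nat_lit 0x8285ca) (nat_lit 0x2621ce258408cd3) (nat_lit 0x0)
  (PL.C (nat_lit 0x828f54) (nat_lit 0x0) (nat_lit 0x112271ff2c735db)
  (PL.C (nat_lit 0x82d0ac) (nat_lit 0x1d62535f1e5ea35) (nat_lit 0x0)
  (PL.C (nat_lit 0x839f98) (nat_lit 0x0) (nat_lit 0x12b182c4fee582)
  (PL.C (nat_lit 0x83a7c5) (nat_lit 0x78a59d578c1a6b1) (nat_lit 0x0)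
  (PL.C (nat_lit 0x83af0c) (nat_lit 0x0) (nat_lit 0x8794945eb39759)
  (PL.C (nat_lit 0x83e6fe) (nat_lit 0x0) (nat_lit 0x4982424b9d6dd9e)
  (PL.C (nat_lit 0x83f0f4) (nat_lit 0x1aa97d646149f2f) (nat_lit 0x0)
  (PL.C (nat_lit 0x840c42) (nat_lit 0x0) (nat_lit 0x1aaf799e35b42c3)
  (PL.C (nat_lit 0x842902) (nat_lit 0x0) (nat_lit 0x2a19770aedb09de)
  (PL.C (nat_lit 0x843788) (nat_lit 0x770e58d615a198) (nat_lit 0x0)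
  (PL.C (nat_lit 0x843e22) (nat_lit 0xe0a99a7a43a72d8) (nat_lit 0x0)
  (PL.C (nat_lit 0x84a0da) (nat_lit 0x22836a96338d965) (nat_lit 0x0)
  (PL.C (nat_lit 0x84c1a8) (nat_lit 0xdd127f129b9712) (nat_lit 0x0)
  (PL.C (nat_lit 0x84d9fb) (nat_lit 0x63aaba1ada2c05d) (nat_lit 0x0)
  (PL.C (nat_lit 0x85462a) (nat_lit 0x181933434ad7033) (nat_lit 0x0)
  (PL.C (nat_lit 0x855e1c) (nat_lit 0x2c94b8b694ca013) (nat_lit 0x0)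
  (PL.C (nat_lit 0x8586f3) (nat_lit 0x8655e74d40a7e) (nat_lit 0x0)
  (PL.C (nat_lit 0x859e36) (nat_lit 0x1adf1179d0f32f8) (nat_lit 0x0) gp1_0_67))))))))))))))))))))

noncomputable def gp1_0_65 : PL :=
  (PL.C (nat_lit 0x7d60c7) (nat_lit 0x77398eb834395f) (nat_lit 0x0)
  (PL.C (nat_lit 0x7dba9a) (nat_lit 0x0) (nat_lit 0x2594ea7f5e6d8bb)
  (PL.C (nat_lit 0x7ddf3e) (nat_lit 0x57b4b80143af7d0) (nat_lit 0x0)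
  (PL.C (nat_lit 0x7e346b) (nat_lit 0x1604c8eab39c5078) (nat_lit 0x0)
  (PL.C (nat_lit 0x7e68dc) (nat_lit 0x0) (nat_lit 0x6396d7751dbe572)
  (PL.C (nat_lit 0x7e7395) (nat_lit 0x303d4ac2c4f1ede) (nat_lit 0x0)
  (PL.C (nat_lit 0x7ebbc5) (nat_lit 0xb21eaefb39dd16) (nat_lit 0x0)
  (PL.C (nat_lit 0x7ec958) (nat_lit 0xd87762c79cb33) (nat_lit 0x0)
  (PL.C (nat_lit 0x7f32f8) (nat_lit 0x0) (nat_lit 0x18e33d0f49d3c55)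
  (PL.C (nat_lit 0x7f3b9a) (nat_lit 0x124c927b6c0367d1) (nat_lit 0x0)
  (PL.C (nat_lit 0x7fbea3) (nat_lit 0x13709e91181909) (nat_lit 0x0)
  (PL.C (nat_lit 0x802ea2) (nat_lit 0x57f3991cac7580e) (nat_lit 0x0)
  (PL.C (nat_lit 0x804b48) (nat_lit 0x0) (nat_lit 0xed8e3f3df16686)
  (PL.C (nat_lit 0x80bacc) (nat_lit 0x0) (nat_lit 0x22312c940de00b2)
  (PL.C (nat_lit 0x80eb39) (nat_lit 0x1713eddc2c5bea9d) (nat_lit 0x0)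
  (PL.C (nat_lit 0x812dde) (nat_lit 0xa0c8c73ff038958) (nat_lit 0x0)
  (PL.C (nat_lit 0x816183) (nat_lit 0x41ca29bcb605db4) (nat_lit 0x0)
  (PL.C (nat_lit 0x81a088) (nat_lit 0x192b2c62870cd7) (nat_lit 0x0)
  (PL.C (nat_lit 0x81ae58) (nat_lit 0x5f87e4657d5a436) (nat_lit 0x0)
  (PL.C (nat_lit 0x81d60e) (nat_lit 0x0) (nat_lit 0x17d858c5d882f83) gp1_0_66))))))))))))))))))))

noncomputable def gp1_0_64 : PL :=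
  (PL.C (nat_lit 0x78f306) (nat_lit 0x3ed9f39eeb70062) (nat_lit 0x0)
  (PL.C (nat_lit 0x7907b2) (nat_lit 0x0) (nat_lit 0x60203102019c76)
  (PL.C (nat_lit 0x79b0c6) (nat_lit 0x0) (nat_lit 0x78c9c6e05e1f3eaa)
  (PL.C (nat_lit 0x79df3d) (nat_lit 0x490fe8403ecbc9) (nat_lit 0x0)
  (PL.C (nat_lit 0x7a40e4) (nat_lit 0x9c4efcac6447b0e) (nat_lit 0x0)
  (PL.C (nat_lit 0x7a46bc) (nat_lit 0x0) (nat_lit 0x7e6a731edf1494)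
  (PL.C (nat_lit 0x7a4f36) (nat_lit 0x3ad54293d7918e5) (nat_lit 0x0)
  (PL.C (nat_lit 0x7a7939) (nat_lit 0x20ddac5ee90dd) (nat_lit 0x0)
  (PL.C (nat_lit 0x7aef58) (nat_lit 0x0) (nat_lit 0x4d7f284146fa64)
  (PL.C (nat_lit 0x7af4c2) (nat_lit 0x17b335ed15161d0c) (nat_lit 0x0)
  (PL.C (nat_lit 0x7b3087) (nat_lit 0x0) (nat_lit 0x3f082b49aa66ae)
  (PL.C (nat_lit 0x7b6674) (nat_lit 0x899e59b0184dbc5) (nat_lit 0x0)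
  (PL.C (nat_lit 0x7bbf94) (nat_lit 0x0) (nat_lit 0xa46e52f38d5e38)
  (PL.C (nat_lit 0x7beacc) (nat_lit 0x0) (nat_lit 0x25efabcb29c53d8)
  (PL.C (nat_lit 0x7c4001) (nat_lit 0x6ff3a941673332) (nat_lit 0x0)
  (PL.C (nat_lit 0x7cd4a4) (nat_lit 0x1b290abf11892c4) (nat_lit 0x0)
  (PL.C (nat_lit 0x7cf092) (nat_lit 0x0) (nat_lit 0xc269d0fdee80538)
  (PL.C (nat_lit 0x7d082f) (nat_lit 0xe9a7f4321d9f4f1) (nat_lit 0x0)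
  (PL.C (nat_lit 0x7d0e29) (nat_lit 0x56f19da8ea3551) (nat_lit 0x0)
  (PL.C (nat_lit 0x7d271c) (nat_lit 0x2dce35584fa5557) (nat_lit 0x0) gp1_0_65))))))))))))))))))))

noncomputable def gp1_0_63 : PL :=
  (PL.C (nat_lit 0x74c337) (nat_lit 0x48281f83cd94c6) (nat_lit 0x0)
  (PL.C (nat_lit 0x74e2ec) (nat_lit 0x1387e4d15525dbd) (nat_lit 0x0)
  (PL.C (nat_lit 0x7506b7) (nat_lit 0x0) (nat_lit 0x391ba5b2a82fb)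
  (PL.C (nat_lit 0x752f38) (nat_lit 0xed5d7633a5633) (nat_lit 0x0)
  (PL.C (nat_lit 0x754149) (nat_lit 0x0) (nat_lit 0x48b71b5339600df)
  (PL.C (nat_lit 0x754932) (nat_lit 0x0) (nat_lit 0x1bae354f18ec795)
  (PL.C (nat_lit 0x758439) (nat_lit 0x217fda6f15bead) (nat_lit 0x0)
  (PL.C (nat_lit 0x7596ae) (nat_lit 0xca77a35953a4ee) (nat_lit 0x0)
  (PL.C (nat_lit 0x75c8a3) (nat_lit 0x1874494e98b61c0e) (nat_lit 0x0)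
  (PL.C (nat_lit 0x75f5c1) (nat_lit 0x329312d2804246b) (nat_lit 0x0)
  (PL.C (nat_lit 0x75fac2) (nat_lit 0x0) (nat_lit 0x16e3716e23e0928)
  (PL.C (nat_lit 0x7643af) (nat_lit 0x0) (nat_lit 0x497906447a27e62)
  (PL.C (nat_lit 0x764ff8) (nat_lit 0x0) (nat_lit 0x6636895ed99bc0)
  (PL.C (nat_lit 0x7680d2) (nat_lit 0x0) (nat_lit 0xd5d3ea3e53de99)
  (PL.C (nat_lit 0x76a26e) (nat_lit 0x106694154f4a3b0) (nat_lit 0x0)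
  (PL.C (nat_lit 0x7729ec) (nat_lit 0x9272b72374cd8cd) (nat_lit 0x0)
  (PL.C (nat_lit 0x778afd) (nat_lit 0x0) (nat_lit 0xe34823888b2414f)
  (PL.C (nat_lit 0x779768) (nat_lit 0x65233f9e94b57ee) (nat_lit 0x0)
  (PL.C (nat_lit 0x77cee6) (nat_lit 0x0) (nat_lit 0x1913c7ffb06541f)
  (PL.C (nat_lit 0x787f2b) (nat_lit 0x901f6dc802e816d) (nat_lit 0x0) gp1_0_64))))))))))))))))))))

noncomputable def gp1_0_62 : PL :=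
  (PL.C (nat_lit 0x7133ac) (nat_lit 0x18f31c9c319137e) (nat_lit 0x0)
  (PL.C (nat_lit 0x714758) (nat_lit 0x0) (nat_lit 0x2984dba4ec7ec2)
  (PL.C (nat_lit 0x71504d) (nat_lit 0x0) (nat_lit 0x168552069713958)
  (PL.C (nat_lit 0x71622c) (nat_lit 0x24964d5b863830) (nat_lit 0x0)
  (PL.C (nat_lit 0x716c54) (nat_lit 0x0) (nat_lit 0x2e03081d6a7743)
  (PL.C (nat_lit 0x71ad14) (nat_lit 0x0) (nat_lit 0x5196211b8f90a)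
  (PL.C (nat_lit 0x72038a) (nat_lit 0x69c81bff67c7a9e) (nat_lit 0x0)
  (PL.C (nat_lit 0x72a63c) (nat_lit 0x0) (nat_lit 0x22b75dfa504bedf)
  (PL.C (nat_lit 0x72adf8) (nat_lit 0x198f8cd0e42b237) (nat_lit 0x0)
  (PL.C (nat_lit 0x72dd52) (nat_lit 0x0) (nat_lit 0x13aed96909e94bf)
  (PL.C (nat_lit 0x732a94) (nat_lit 0x358de456bb8feb08) (nat_lit 0x0)
  (PL.C (nat_lit 0x735aec) (nat_lit 0x0) (nat_lit 0xc9ea04108e4ff4)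
  (PL.C (nat_lit 0x735fa5) (nat_lit 0x25b517143a84ea7) (nat_lit 0x0)
  (PL.C (nat_lit 0x737a03) (nat_lit 0x14e82ea193f0fc) (nat_lit 0x0)
  (PL.C (nat_lit 0x738651) (nat_lit 0x0) (nat_lit 0x26b1589332f27c5)
  (PL.C (nat_lit 0x73a2e4) (nat_lit 0x0) (nat_lit 0x8269c82d004f133)
  (PL.C (nat_lit 0x73c64d) (nat_lit 0x0) (nat_lit 0x7dc2247afc5940)
  (PL.C (nat_lit 0x73d264) (nat_lit 0x0) (nat_lit 0xa656f97ab84760)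
  (PL.C (nat_lit 0x73ff88) (nat_lit 0x437c51aa5c4ab0) (nat_lit 0x0)
  (PL.C (nat_lit 0x746f1f) (nat_lit 0x0) (nat_lit 0x15c702705a5d1c8d) gp1_0_63))))))))))))))))))))

noncomputable def gp1_0_61 : PL :=
  (PL.C (nat_lit 0x6c3568) (nat_lit 0xa3bf5aac0cbaae) (nat_lit 0x0)
  (PL.C (nat_lit 0x6c6216) (nat_lit 0x8859e2737e0ec8) (nat_lit 0x0)
  (PL.C (nat_lit 0x6ca048) (nat_lit 0x0) (nat_lit 0x1fdd807b39408cf)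
  (PL.C (nat_lit 0x6caafc) (nat_lit 0x1cee0572a1ccbc8) (nat_lit 0x0)
  (PL.C (nat_lit 0x6cd3dd) (nat_lit 0x1c6487c6ce04a435) (nat_lit 0x0)
  (PL.C (nat_lit 0x6d2718) (nat_lit 0x0) (nat_lit 0xa570d99979d8e71)
  (PL.C (nat_lit 0x6d3026) (nat_lit 0x914a0ffb7626ab) (nat_lit 0x0)
  (PL.C (nat_lit 0x6de770) (nat_lit 0x0) (nat_lit 0x6f98d7f4a846a7)
  (PL.C (nat_lit 0x6e2e72) (nat_lit 0x45dbb09abaec041) (nat_lit 0x0)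
  (PL.C (nat_lit 0x6e3112) (nat_lit 0x189c9d5846309040) (nat_lit 0x0)
  (PL.C (nat_lit 0x6e9454) (nat_lit 0x0) (nat_lit 0x4d2b10b1adc9e17)
  (PL.C (nat_lit 0x6ecbac) (nat_lit 0xb34a323f51e29a) (nat_lit 0x0)
  (PL.C (nat_lit 0x6ed951) (nat_lit 0x0) (nat_lit 0x1a1eee9a3a6d44f)
  (PL.C (nat_lit 0x6f0aec) (nat_lit 0x0) (nat_lit 0x130edad40ac81b4)
  (PL.C (nat_lit 0x6fa22a) (nat_lit 0x0) (nat_lit 0x196623153101d22)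
  (PL.C (nat_lit 0x70cf4c) (nat_lit 0x0) (nat_lit 0x15e6c4165a82354)
  (PL.C (nat_lit 0x70d71e) (nat_lit 0x1490f0089705121c) (nat_lit 0x0)
  (PL.C (nat_lit 0x70e914) (nat_lit 0x0) (nat_lit 0x661bc50790ba6f)
  (PL.C (nat_lit 0x70f51c) (nat_lit 0x0) (nat_lit 0x4621d5740b075f0)
  (PL.C (nat_lit 0x7117b3) (nat_lit 0xe4b066312b03e45) (nat_lit 0x0) gp1_0_62))))))))))))))))))))

noncomputable def gp1_0_60 : PL :=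
  (PL.C (nat_lit 0x689afc) (nat_lit 0x5a6eca0b3814217) (nat_lit 0x0)
  (PL.C (nat_lit 0x68b2e4) (nat_lit 0xaf0a3abd81377) (nat_lit 0x0)
  (PL.C (nat_lit 0x68be0c) (nat_lit 0xacb9405b8d5835c) (nat_lit 0x0)
  (PL.C (nat_lit 0x68de1f) (nat_lit 0x537cea05d62480) (nat_lit 0x0)
  (PL.C (nat_lit 0x68eb2a) (nat_lit 0x0) (nat_lit 0x116342ed9ac021a)
  (PL.C (nat_lit 0x69cd18) (nat_lit 0x28364da8ceed2af) (nat_lit 0x0)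
  (PL.C (nat_lit 0x69ed7e) (nat_lit 0x2eb15a75d20bb0) (nat_lit 0x0)
  (PL.C (nat_lit 0x6a2282) (nat_lit 0x1a144c7b8b9422) (nat_lit 0x0)
  (PL.C (nat_lit 0x6a4fac) (nat_lit 0x9d8409d3959f62) (nat_lit 0x0)
  (PL.C (nat_lit 0x6a56d8) (nat_lit 0x426d32e2a220850) (nat_lit 0x0)
  (PL.C (nat_lit 0x6a8957) (nat_lit 0x18ec532008de0d3d) (nat_lit 0x0)
  (PL.C (nat_lit 0x6abea9) (nat_lit 0x70ae3b5a4c2d16a) (nat_lit 0x0)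
  (PL.C (nat_lit 0x6aca64) (nat_lit 0x0) (nat_lit 0x11723cfca75b9ed)
  (PL.C (nat_lit 0x6acfb9) (nat_lit 0x1250cdbe3a5d8c) (nat_lit 0x0)
  (PL.C (nat_lit 0x6af34c) (nat_lit 0x0) (nat_lit 0x307c3d0832d33f)
  (PL.C (nat_lit 0x6afb99) (nat_lit 0x0) (nat_lit 0x4cf3d98784b92b)
  (PL.C (nat_lit 0x6b1f75) (nat_lit 0x6a85e41250618ae) (nat_lit 0x0)
  (PL.C (nat_lit 0x6b39f4) (nat_lit 0x3712f5577858f4) (nat_lit 0x0)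
  (PL.C (nat_lit 0x6b6782) (nat_lit 0x4c1a0bade6a0642) (nat_lit 0x0)
  (PL.C (nat_lit 0x6c34aa) (nat_lit 0x349ec8c434ca8c0) (nat_lit 0x0) gp1_0_61))))))))))))))))))))

noncomputable def gp1_0_59 : PL :=
  (PL.C (nat_lit 0x64d322) (nat_lit 0xc8dfa45089a0b10) (nat_lit 0x0)
  (PL.C (nat_lit 0x64e9b1) (nat_lit 0x0) (nat_lit 0x10deee060256ab44)
  (PL.C (nat_lit 0x6515be) (nat_lit 0x0) (nat_lit 0x25fa8a27bfc8de4)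
  (PL.C (nat_lit 0x6538bc) (nat_lit 0x0) (nat_lit 0x12eb63b23a0d44f)
  (PL.C (nat_lit 0x65aa77) (nat_lit 0x292204ae62c57c4) (nat_lit 0x0)
  (PL.C (nat_lit 0x66199e) (nat_lit 0x3abc253cd695a58) (nat_lit 0x0)
  (PL.C (nat_lit 0x66678c) (nat_lit 0x0) (nat_lit 0x1668534e6548b25)
  (PL.C (nat_lit 0x66bcdc) (nat_lit 0x0) (nat_lit 0x17a403758836e86)
  (PL.C (nat_lit 0x66c3d5) (nat_lit 0x21ecf32a93d0b94c) (nat_lit 0x0)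
  (PL.C (nat_lit 0x66cd10) (nat_lit 0x0) (nat_lit 0x5d12208a4a9ab9)
  (PL.C (nat_lit 0x66fe36) (nat_lit 0x2743360e5b4c31b) (nat_lit 0x0)
  (PL.C (nat_lit 0x673374) (nat_lit 0x0) (nat_lit 0x7e776c9c207fd72)
  (PL.C (nat_lit 0x675afc) (nat_lit 0x0) (nat_lit 0x118a3d844cd468a)
  (PL.C (nat_lit 0x677c94) (nat_lit 0x0) (nat_lit 0x81003e27f960d4)
  (PL.C (nat_lit 0x679f44) (nat_lit 0x0) (nat_lit 0x177722c20bc4e0b)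
  (PL.C (nat_lit 0x67c6b8) (nat_lit 0x27fca560b7f4262) (nat_lit 0x0)
  (PL.C (nat_lit 0x67cb4a) (nat_lit 0xd47884821e68482) (nat_lit 0x0)
  (PL.C (nat_lit 0x67f956) (nat_lit 0x0) (nat_lit 0x1ae2518f02162c7)
  (PL.C (nat_lit 0x682b44) (nat_lit 0x31cb3c9ce09294d3) (nat_lit 0x0)
  (PL.C (nat_lit 0x685647) (nat_lit 0x0) (nat_lit 0x15870bcdd564fc54) gp1_0_60))))))))))))))))))))

noncomputable def gp1_0_58 : PL :=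
  (PL.C (nat_lit 0x60c82c) (nat_lit 0x0) (nat_lit 0x2d79893381d037)
  (PL.C (nat_lit 0x60ff6c) (nat_lit 0x0) (nat_lit 0x2a985a868054aab)
  (PL.C (nat_lit 0x610ea8) (nat_lit 0x0) (nat_lit 0x2324e255cc68c3a)
  (PL.C (nat_lit 0x6137e4) (nat_lit 0x30bc91cd12a294a) (nat_lit 0x0)
  (PL.C (nat_lit 0x618555) (nat_lit 0x173769308144b7c) (nat_lit 0x0)
  (PL.C (nat_lit 0x619d74) (nat_lit 0xb5175653318d27b) (nat_lit 0x0)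
  (PL.C (nat_lit 0x61df82) (nat_lit 0x3be23608a76428) (nat_lit 0x0)
  (PL.C (nat_lit 0x61eba8) (nat_lit 0x0) (nat_lit 0x330efc45b482a2)
  (PL.C (nat_lit 0x62107e) (nat_lit 0x0) (nat_lit 0x10d324f155ac555)
  (PL.C (nat_lit 0x6249db) (nat_lit 0x13bcc21edf7bd602f) (nat_lit 0x0)
  (PL.C (nat_lit 0x62ab9c) (nat_lit 0x0) (nat_lit 0xf90bcf2ed0b5208)
  (PL.C (nat_lit 0x62be42) (nat_lit 0x0) (nat_lit 0x186b72ad4319003)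
  (PL.C (nat_lit 0x62c9d3) (nat_lit 0x438dd9a6fc8be1c) (nat_lit 0x0)
  (PL.C (nat_lit 0x62ff48) (nat_lit 0xc83a8ca5e35ac7) (nat_lit 0x0)
  (PL.C (nat_lit 0x634f89) (nat_lit 0x0) (nat_lit 0x25e08c8e27dbb560)
  (PL.C (nat_lit 0x63d4c8) (nat_lit 0x4acf99d05d0f07f) (nat_lit 0x0)
  (PL.C (nat_lit 0x63e5d8) (nat_lit 0x0) (nat_lit 0x1dd2ddeff82b95a)
  (PL.C (nat_lit 0x63f35a) (nat_lit 0x0) (nat_lit 0xb03ce39aa9dd13)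
  (PL.C (nat_lit 0x63fa56) (nat_lit 0x0) (nat_lit 0x31e302e54829e)
  (PL.C (nat_lit 0x645612) (nat_lit 0x211d5e004cb9cca) (nat_lit 0x0) gp1_0_59))))))))))))))))))))

noncomputable def gp1_0_57 : PL :=
  (PL.C (nat_lit 0x5dcc24) (nat_lit 0x0) (nat_lit 0x24ed7fb2b62833b)
  (PL.C (nat_lit 0x5dd3f0) (nat_lit 0x14ca74d40c0e286) (nat_lit 0x0)
  (PL.C (nat_lit 0x5dddd8) (nat_lit 0x19c5266e5e147a2) (nat_lit 0x0)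
  (PL.C (nat_lit 0x5de8dd) (nat_lit 0x35737b9f867ea) (nat_lit 0x0)
  (PL.C (nat_lit 0x5e049a) (nat_lit 0x0) (nat_lit 0xd5d3ea3e53de99)
  (PL.C (nat_lit 0x5e96e3) (nat_lit 0x0) (nat_lit 0x1d776f63d49917)
  (PL.C (nat_lit 0x5f4a89) (nat_lit 0x0) (nat_lit 0xb0adf4242937eb0)
  (PL.C (nat_lit 0x5f5064) (nat_lit 0x0) (nat_lit 0x19be9db46d892b6)
  (PL.C (nat_lit 0x5f5a8c) (nat_lit 0x5512bb050688f77) (nat_lit 0x0)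
  (PL.C (nat_lit 0x5f77bf) (nat_lit 0x0) (nat_lit 0x159cec063f5fe6)
  (PL.C (nat_lit 0x5f8f5c) (nat_lit 0x18339fd73f83196) (nat_lit 0x0)
  (PL.C (nat_lit 0x5fb2b8) (nat_lit 0x0) (nat_lit 0x36bee7b2d91f42c)
  (PL.C (nat_lit 0x5fb6d1) (nat_lit 0x0) (nat_lit 0x446168058cc359)
  (PL.C (nat_lit 0x5fd006) (nat_lit 0x0) (nat_lit 0x12bced9219a99a4)
  (PL.C (nat_lit 0x5feddf) (nat_lit 0x8c8a9331402e91) (nat_lit 0x0)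
  (PL.C (nat_lit 0x5ffffa) (nat_lit 0x6f65810a1bd6e0) (nat_lit 0x0)
  (PL.C (nat_lit 0x601ab4) (nat_lit 0x0) (nat_lit 0x486dc931e2b4153)
  (PL.C (nat_lit 0x603006) (nat_lit 0x0) (nat_lit 0x703207e1c51ef7)
  (PL.C (nat_lit 0x603f66) (nat_lit 0x0) (nat_lit 0x458ec10efb870b)
  (PL.C (nat_lit 0x6097d4) (nat_lit 0x0) (nat_lit 0xe0c016283c029fa) gp1_0_58))))))))))))))))))))

noncomputable def gp1_0_56 : PL :=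
  (PL.C (nat_lit 0x5a2a5d) (nat_lit 0x0) (nat_lit 0xef1dd81274eebf)
  (PL.C (nat_lit 0x5a4bba) (nat_lit 0x110516dc3d19e32e) (nat_lit 0x0)
  (PL.C (nat_lit 0x5aa588) (nat_lit 0x167aac5ed91d913) (nat_lit 0x0)
  (PL.C (nat_lit 0x5ac14a) (nat_lit 0x1f8261e9ee6016c) (nat_lit 0x0)
  (PL.C (nat_lit 0x5aeeb6) (nat_lit 0x0) (nat_lit 0x2657d4a702fa280)
  (PL.C (nat_lit 0x5b1d96) (nat_lit 0x0) (nat_lit 0x3463813cb7dfdd0)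
  (PL.C (nat_lit 0x5b23e7) (nat_lit 0x5c4891d3b3bb979) (nat_lit 0x0)
  (PL.C (nat_lit 0x5b6a18) (nat_lit 0x0) (nat_lit 0xd0f5a7941f0645)
  (PL.C (nat_lit 0x5b7e8c) (nat_lit 0x57d4dbaf26480a2) (nat_lit 0x0)
  (PL.C (nat_lit 0x5bb71a) (nat_lit 0x0) (nat_lit 0xbe17977cbf70f)
  (PL.C (nat_lit 0x5bde11) (nat_lit 0xd743dd66f4532fe) (nat_lit 0x0)
  (PL.C (nat_lit 0x5c0094) (nat_lit 0x0) (nat_lit 0x7993c175c6e07)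
  (PL.C (nat_lit 0x5c168d) (nat_lit 0x0) (nat_lit 0x74cccb83900bae8)
  (PL.C (nat_lit 0x5c2d54) (nat_lit 0xe6e96a70b58824) (nat_lit 0x0)
  (PL.C (nat_lit 0x5cb4ee) (nat_lit 0x6b312edb6dda64c) (nat_lit 0x0)
  (PL.C (nat_lit 0x5d04da) (nat_lit 0x0) (nat_lit 0x17e24adecce465e4)
  (PL.C (nat_lit 0x5d2be6) (nat_lit 0x0) (nat_lit 0x26636594fc48f7)
  (PL.C (nat_lit 0x5d58a4) (nat_lit 0x6e62c9aab44ee98) (nat_lit 0x0)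
  (PL.C (nat_lit 0x5d7f2f) (nat_lit 0x189254827479056) (nat_lit 0x0)
  (PL.C (nat_lit 0x5d875c) (nat_lit 0x5e75401ceea023) (nat_lit 0x0) gp1_0_57))))))))))))))))))))

noncomputable def gp1_0_55 : PL :=
  (PL.C (nat_lit 0x57659d) (nat_lit 0x6caa7f6292391fe) (nat_lit 0x0)
  (PL.C (nat_lit 0x57c52e) (nat_lit 0x50a36582b186083) (nat_lit 0x0)
  (PL.C (nat_lit 0x57ca08) (nat_lit 0x0) (nat_lit 0x7f632baecaffa1)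
  (PL.C (nat_lit 0x57ef54) (nat_lit 0x0) (nat_lit 0x10835809911e860a)
  (PL.C (nat_lit 0x57f5f8) (nat_lit 0x126eb69dfa8326e) (nat_lit 0x0)
  (PL.C (nat_lit 0x58082c) (nat_lit 0x0) (nat_lit 0x6029814bd87d9e)
  (PL.C (nat_lit 0x5813a3) (nat_lit 0x0) (nat_lit 0x10cc64176b9dbce6)
  (PL.C (nat_lit 0x58296c) (nat_lit 0x418794a3e592987) (nat_lit 0x0)
  (PL.C (nat_lit 0x586b3c) (nat_lit 0xd282947c51671c) (nat_lit 0x0)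
  (PL.C (nat_lit 0x589152) (nat_lit 0xef9c07f80f3ba69) (nat_lit 0x0)
  (PL.C (nat_lit 0x58e968) (nat_lit 0x55b7754df23b6c) (nat_lit 0x0)
  (PL.C (nat_lit 0x58fe21) (nat_lit 0x0) (nat_lit 0xb24d4d459cbc2be)
  (PL.C (nat_lit 0x5904a2) (nat_lit 0x5cccb1174e1f7b) (nat_lit 0x0)
  (PL.C (nat_lit 0x591424) (nat_lit 0x9578b9fe774ee2) (nat_lit 0x0)
  (PL.C (nat_lit 0x597588) (nat_lit 0x0) (nat_lit 0x23d8c667b59e844)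
  (PL.C (nat_lit 0x59ad58) (nat_lit 0x38cdb6362f8b0b3) (nat_lit 0x0)
  (PL.C (nat_lit 0x59c8ce) (nat_lit 0x0) (nat_lit 0x6b2153048af77d)
  (PL.C (nat_lit 0x59eef3) (nat_lit 0x3bb7fdfd0028cf0) (nat_lit 0x0)
  (PL.C (nat_lit 0x59f530) (nat_lit 0x14ca74d40c0e286) (nat_lit 0x0)
  (PL.C (nat_lit 0x5a0aac) (nat_lit 0x0) (nat_lit 0x4de120cc241913b) gp1_0_56))))))))))))))))))))

noncomputable def gp1_0_54 : PL :=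
  (PL.C (nat_lit 0x5395da) (nat_lit 0x106694154f4a3b0) (nat_lit 0x0)
  (PL.C (nat_lit 0x53d1bc) (nat_lit 0x0) (nat_lit 0x25cf4e7a452904b)
  (PL.C (nat_lit 0x53d56d) (nat_lit 0x0) (nat_lit 0x21e961d01501b4c1)
  (PL.C (nat_lit 0x5422f2) (nat_lit 0x0) (nat_lit 0x299bd4a648742366)
  (PL.C (nat_lit 0x5445e8) (nat_lit 0x0) (nat_lit 0x1120494e86acea4)
  (PL.C (nat_lit 0x544d0e) (nat_lit 0x21c8fb706cd1bdd) (nat_lit 0x0)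
  (PL.C (nat_lit 0x547d2e) (nat_lit 0x4f2d761a7aaa5dc) (nat_lit 0x0)
  (PL.C (nat_lit 0x5529c2) (nat_lit 0x396f31415c6ff6) (nat_lit 0x0)
  (PL.C (nat_lit 0x55746c) (nat_lit 0x0) (nat_lit 0x3b4bd565e96249a)
  (PL.C (nat_lit 0x558e97) (nat_lit 0x0) (nat_lit 0x8c05286e675e23)
  (PL.C (nat_lit 0x55b969) (nat_lit 0x0) (nat_lit 0x834772b9b5db4a)
  (PL.C (nat_lit 0x55f226) (nat_lit 0x0) (nat_lit 0x2930949abeff5d1)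
  (PL.C (nat_lit 0x561e94) (nat_lit 0x357e6068a2c27a65) (nat_lit 0x0)
  (PL.C (nat_lit 0x564102) (nat_lit 0x0) (nat_lit 0xec37c2f0899dda0)
  (PL.C (nat_lit 0x568eb4) (nat_lit 0x2a99eb975fab7c9) (nat_lit 0x0)
  (PL.C (nat_lit 0x569978) (nat_lit 0x0) (nat_lit 0x8ca4d776204711d)
  (PL.C (nat_lit 0x56bfe9) (nat_lit 0x57b897ddee15b0c7) (nat_lit 0x0)
  (PL.C (nat_lit 0x5703dc) (nat_lit 0x13925095d397fce) (nat_lit 0x0)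
  (PL.C (nat_lit 0x570a38) (nat_lit 0x0) (nat_lit 0x177c3842e8e9e53)
  (PL.C (nat_lit 0x5735c8) (nat_lit 0xa1f1096fac042b) (nat_lit 0x0) gp1_0_55))))))))))))))))))))

noncomputable def gp1_0_53 : PL :=
  (PL.C (nat_lit 0x50a204) (nat_lit 0x13904a72a46066a) (nat_lit 0x0)
  (PL.C (nat_lit 0x50afcc) (nat_lit 0x2ab1bd3dcfe318a) (nat_lit 0x0)
  (PL.C (nat_lit 0x50bab5) (nat_lit 0x0) (nat_lit 0x133afa02123e8c)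
  (PL.C (nat_lit 0x510a71) (nat_lit 0x0) (nat_lit 0x4b1207746be7388)
  (PL.C (nat_lit 0x512084) (nat_lit 0x0) (nat_lit 0x486dc931e2b4153)
  (PL.C (nat_lit 0x513f7e) (nat_lit 0x0) (nat_lit 0x458ec10efb870b)
  (PL.C (nat_lit 0x518098) (nat_lit 0x9cb2f51c799831f) (nat_lit 0x0)
  (PL.C (nat_lit 0x518a24) (nat_lit 0x0) (nat_lit 0x4312e9a406c0541)
  (PL.C (nat_lit 0x51a626) (nat_lit 0x0) (nat_lit 0x836375a984270d)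
  (PL.C (nat_lit 0x51abcf) (nat_lit 0xed6e4daac722c4) (nat_lit 0x0)
  (PL.C (nat_lit 0x52205a) (nat_lit 0x0) (nat_lit 0x74e6e5aadedb94b)
  (PL.C (nat_lit 0x527727) (nat_lit 0x4596258e898eb2c) (nat_lit 0x0)
  (PL.C (nat_lit 0x527fb8) (nat_lit 0x0) (nat_lit 0xc1981596840ec9)
  (PL.C (nat_lit 0x529c88) (nat_lit 0x0) (nat_lit 0x16d1070f648ea25)
  (PL.C (nat_lit 0x52d556) (nat_lit 0x0) (nat_lit 0x4f12ba9587b258c)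
  (PL.C (nat_lit 0x52f887) (nat_lit 0x0) (nat_lit 0x15c702705a5d1c8d)
  (PL.C (nat_lit 0x534b0c) (nat_lit 0x0) (nat_lit 0x7932b3d08051f05)
  (PL.C (nat_lit 0x535aca) (nat_lit 0x8b6019fd8059574) (nat_lit 0x0)
  (PL.C (nat_lit 0x535ec6) (nat_lit 0x0) (nat_lit 0x55631ddfcea90)
  (PL.C (nat_lit 0x536f68) (nat_lit 0x20291e0f1bb8893) (nat_lit 0x0) gp1_0_54))))))))))))))))))))

noncomputable def gp1_0_52 : PL :=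
  (PL.C (nat_lit 0x4cfc02) (nat_lit 0x0) (nat_lit 0x1aaf799e35b42c3)
  (PL.C (nat_lit 0x4d0436) (nat_lit 0x8396d69c2c73646) (nat_lit 0x0)
  (PL.C (nat_lit 0x4d2ede) (nat_lit 0x1156e84d518f6ca) (nat_lit 0x0)
  (PL.C (nat_lit 0x4d9f6a) (nat_lit 0x0) (nat_lit 0x567d4c4edffedc32)
  (PL.C (nat_lit 0x4dd77a) (nat_lit 0x41f639601a7f1f) (nat_lit 0x0)
  (PL.C (nat_lit 0x4e047a) (nat_lit 0x0) (nat_lit 0xc1a0c570f8a65a3)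
  (PL.C (nat_lit 0x4e2b86) (nat_lit 0x0) (nat_lit 0x468549fbbb10eca)
  (PL.C (nat_lit 0x4e30cc) (nat_lit 0x0) (nat_lit 0x1af15f1ad8b7d71)
  (PL.C (nat_lit 0x4e5115) (nat_lit 0x0) (nat_lit 0x637c7486a3685)
  (PL.C (nat_lit 0x4e5826) (nat_lit 0x0) (nat_lit 0xd1eeadf1759370)
  (PL.C (nat_lit 0x4e6474) (nat_lit 0x29142bff65befe0) (nat_lit 0x0)
  (PL.C (nat_lit 0x4e85c2) (nat_lit 0x0) (nat_lit 0x247e62cca4400deb)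
  (PL.C (nat_lit 0x4ea3d6) (nat_lit 0x129acd38b6a6b17) (nat_lit 0x0)
  (PL.C (nat_lit 0x4ea72c) (nat_lit 0x300a24b9f424db1) (nat_lit 0x0)
  (PL.C (nat_lit 0x4ed7ca) (nat_lit 0x0) (nat_lit 0x142d690029728d2)
  (PL.C (nat_lit 0x4f008c) (nat_lit 0x0) (nat_lit 0x4d2d7e743468537)
  (PL.C (nat_lit 0x4f16f4) (nat_lit 0xe7141e5d93e848) (nat_lit 0x0)
  (PL.C (nat_lit 0x4f7148) (nat_lit 0x9cdbdfe699e3374) (nat_lit 0x0)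
  (PL.C (nat_lit 0x4fb1fe) (nat_lit 0x0) (nat_lit 0x3632ba18bc516074)
  (PL.C (nat_lit 0x4fdf44) (nat_lit 0x0) (nat_lit 0x101bc20e71c75ad) gp1_0_53))))))))))))))))))))

noncomputable def gp1_0_51 : PL :=
  (PL.C (nat_lit 0x49744c) (nat_lit 0x3a28b6a3cce07c4) (nat_lit 0x0)
  (PL.C (nat_lit 0x49760c) (nat_lit 0xa4d1961e208581e) (nat_lit 0x0)
  (PL.C (nat_lit 0x49b838) (nat_lit 0x0) (nat_lit 0x2d16e3ab6d1d1f3)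
  (PL.C (nat_lit 0x49c6d1) (nat_lit 0x171850f812a8130) (nat_lit 0x0)
  (PL.C (nat_lit 0x49e636) (nat_lit 0x0) (nat_lit 0x721afbe63608ec6)
  (PL.C (nat_lit 0x4a0748) (nat_lit 0x0) (nat_lit 0x23d8c667b59e844)
  (PL.C (nat_lit 0x4a6c1c) (nat_lit 0x0) (nat_lit 0x424a9230e289be1)
  (PL.C (nat_lit 0x4b2175) (nat_lit 0x1223df215899992e) (nat_lit 0x0)
  (PL.C (nat_lit 0x4b3a14) (nat_lit 0xab8430473ef80ff) (nat_lit 0x0)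
  (PL.C (nat_lit 0x4b6522) (nat_lit 0x599af2e86663095) (nat_lit 0x0)
  (PL.C (nat_lit 0x4b77c8) (nat_lit 0x26b40540ac45cd) (nat_lit 0x0)
  (PL.C (nat_lit 0x4b8ade) (nat_lit 0x0) (nat_lit 0x1158fb63346d782)
  (PL.C (nat_lit 0x4b96c8) (nat_lit 0x7fd8ff333fd44) (nat_lit 0x0)
  (PL.C (nat_lit 0x4bb5fe) (nat_lit 0xd4f9c27272887e) (nat_lit 0x0)
  (PL.C (nat_lit 0x4bc8b8) (nat_lit 0x25bb38766528e8) (nat_lit 0x0)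
  (PL.C (nat_lit 0x4c025c) (nat_lit 0x0) (nat_lit 0x47715f7b2bdad98)
  (PL.C (nat_lit 0x4c938c) (nat_lit 0x1a443f2bb05788e) (nat_lit 0x0)
  (PL.C (nat_lit 0x4ce748) (nat_lit 0x3fa7360ac45537) (nat_lit 0x0)
  (PL.C (nat_lit 0x4cea6e) (nat_lit 0x2f3e971e2aaa18) (nat_lit 0x0)
  (PL.C (nat_lit 0x4cefc3) (nat_lit 0x0) (nat_lit 0x5a9e38c87d145ce) gp1_0_52))))))))))))))))))))

noncomputable def gp1_0_50 : PL :=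
  (PL.C (nat_lit 0x45e96a) (nat_lit 0x0) (nat_lit 0x22adc5c62ddec08)
  (PL.C (nat_lit 0x45f21c) (nat_lit 0x31941d62d389885) (nat_lit 0x0)
  (PL.C (nat_lit 0x469e54) (nat_lit 0x12830280d9c3514) (nat_lit 0x0)
  (PL.C (nat_lit 0x46c1ac) (nat_lit 0x16177ea1ce712cb) (nat_lit 0x0)
  (PL.C (nat_lit 0x46e42f) (nat_lit 0x13a366b405d2760) (nat_lit 0x0)
  (PL.C (nat_lit 0x46e490) (nat_lit 0x373f7340e5d85e4) (nat_lit 0x0)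
  (PL.C (nat_lit 0x47063a) (nat_lit 0x0) (nat_lit 0x13a0955d6b7a04d8)
  (PL.C (nat_lit 0x4729c6) (nat_lit 0x0) (nat_lit 0x22c37601a806787)
  (PL.C (nat_lit 0x473198) (nat_lit 0x0) (nat_lit 0xfb4241027e5942)
  (PL.C (nat_lit 0x473526) (nat_lit 0xb7cc21cee75c1ad) (nat_lit 0x0)
  (PL.C (nat_lit 0x475266) (nat_lit 0x27fa1e98299d6df) (nat_lit 0x0)
  (PL.C (nat_lit 0x476a4e) (nat_lit 0xdbbbad5fcc0ad5) (nat_lit 0x0)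
  (PL.C (nat_lit 0x477bf8) (nat_lit 0x19b23214bf71215) (nat_lit 0x0)
  (PL.C (nat_lit 0x478911) (nat_lit 0x0) (nat_lit 0x2f53b2489007594)
  (PL.C (nat_lit 0x48231c) (nat_lit 0x0) (nat_lit 0x563bb92b76797f4)
  (PL.C (nat_lit 0x483933) (nat_lit 0x28b749426676a0) (nat_lit 0x0)
  (PL.C (nat_lit 0x484164) (nat_lit 0x0) (nat_lit 0x3aea734c45b5e)
  (PL.C (nat_lit 0x488d3e) (nat_lit 0x34a67c230de42873) (nat_lit 0x0)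
  (PL.C (nat_lit 0x48cac4) (nat_lit 0x0) (nat_lit 0xe21bc327daa27)
  (PL.C (nat_lit 0x48ee65) (nat_lit 0x0) (nat_lit 0x18b4ba10c4c7b75) gp1_0_51))))))))))))))))))))

noncomputable def gp1_0_49 : PL :=
  (PL.C (nat_lit 0x43376c) (nat_lit 0x131f607032f361d9) (nat_lit 0x0)
  (PL.C (nat_lit 0x434676) (nat_lit 0x0) (nat_lit 0x190be6026a9619ab)
  (PL.C (nat_lit 0x43532d) (nat_lit 0x24480d13e24186a) (nat_lit 0x0)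
  (PL.C (nat_lit 0x4363d4) (nat_lit 0x0) (nat_lit 0x223a581c5979743)
  (PL.C (nat_lit 0x437b28) (nat_lit 0x0) (nat_lit 0x12826868fdb8fec)
  (PL.C (nat_lit 0x441114) (nat_lit 0x2ce54d45c95d95) (nat_lit 0x0)
  (PL.C (nat_lit 0x442aaf) (nat_lit 0x0) (nat_lit 0x2155a4368adf0a8)
  (PL.C (nat_lit 0x444508) (nat_lit 0x887f60b6bdae5c) (nat_lit 0x0)
  (PL.C (nat_lit 0x447de8) (nat_lit 0x0) (nat_lit 0x70e104c3b2de0a)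
  (PL.C (nat_lit 0x44828e) (nat_lit 0x0) (nat_lit 0x37b2ddbcc275978)
  (PL.C (nat_lit 0x44ccf8) (nat_lit 0x0) (nat_lit 0x2c293ab1f52f4b0)
  (PL.C (nat_lit 0x44fdb8) (nat_lit 0x437c51aa5c4ab0) (nat_lit 0x0)
  (PL.C (nat_lit 0x4503c6) (nat_lit 0xa57181ba71f927) (nat_lit 0x0)
  (PL.C (nat_lit 0x4514d8) (nat_lit 0x3a46ab063141c3) (nat_lit 0x0)
  (PL.C (nat_lit 0x4550e4) (nat_lit 0x0) (nat_lit 0x37e82dac259d23a)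
  (PL.C (nat_lit 0x458eda) (nat_lit 0x0) (nat_lit 0x36ab1abfbfcaeb0f)
  (PL.C (nat_lit 0x45aaa9) (nat_lit 0x0) (nat_lit 0x57a9b8bd931c56d)
  (PL.C (nat_lit 0x45bca8) (nat_lit 0x44d4769978322ec) (nat_lit 0x0)
  (PL.C (nat_lit 0x45cc98) (nat_lit 0xdbcf85c80661ee) (nat_lit 0x0)
  (PL.C (nat_lit 0x45d408) (nat_lit 0x0) (nat_lit 0x40232437959c7f1) gp1_0_50))))))))))))))))))))

noncomputable def gp1_0_48 : PL :=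
  (PL.C (nat_lit 0x40b470) (nat_lit 0x0) (nat_lit 0x171884c88909653)
  (PL.C (nat_lit 0x41038e) (nat_lit 0x0) (nat_lit 0x5e50868d0cfd2dd)
  (PL.C (nat_lit 0x413fac) (nat_lit 0x46add4b363b3f25) (nat_lit 0x0)
  (PL.C (nat_lit 0x4153a7) (nat_lit 0x0) (nat_lit 0x1d776f63d49917)
  (PL.C (nat_lit 0x415a9d) (nat_lit 0x155bc716662a817) (nat_lit 0x0)
  (PL.C (nat_lit 0x416054) (nat_lit 0x28af5b3e36feb30) (nat_lit 0x0)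
  (PL.C (nat_lit 0x417459) (nat_lit 0x0) (nat_lit 0xabac76ab151a03)
  (PL.C (nat_lit 0x418692) (nat_lit 0x0) (nat_lit 0x8960e286d60ef20)
  (PL.C (nat_lit 0x419f97) (nat_lit 0x3207b856151a11f) (nat_lit 0x0)
  (PL.C (nat_lit 0x41d42c) (nat_lit 0x0) (nat_lit 0x37067f76b39013a)
  (PL.C (nat_lit 0x41dbe2) (nat_lit 0xb071df457512bef) (nat_lit 0x0)
  (PL.C (nat_lit 0x423506) (nat_lit 0x0) (nat_lit 0x9ae8a8239ab645)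
  (PL.C (nat_lit 0x425535) (nat_lit 0x61b1ad6ae13f27) (nat_lit 0x0)
  (PL.C (nat_lit 0x42a1c7) (nat_lit 0x0) (nat_lit 0xa07231fd6fa0e7)
  (PL.C (nat_lit 0x42a23c) (nat_lit 0x0) (nat_lit 0x1d272467b1be1bd)
  (PL.C (nat_lit 0x42a6e4) (nat_lit 0x0) (nat_lit 0x41193f677df0038)
  (PL.C (nat_lit 0x42bb4d) (nat_lit 0x4135a63ede8e5d1) (nat_lit 0x0)
  (PL.C (nat_lit 0x42dcb3) (nat_lit 0x0) (nat_lit 0x26d1cd327ac3f76)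
  (PL.C (nat_lit 0x42e40c) (nat_lit 0x7a1a7407ca9a66) (nat_lit 0x0)
  (PL.C (nat_lit 0x42e763) (nat_lit 0x0) (nat_lit 0x23a40d1e925eec6) gp1_0_49))))))))))))))))))))

noncomputable def gp1_0_47 : PL :=
  (PL.C (nat_lit 0x3e8818) (nat_lit 0x0) (nat_lit 0x3af782537fc0ffd)
  (PL.C (nat_lit 0x3e9b3e) (nat_lit 0x2bcc65c7251fa3) (nat_lit 0x0)
  (PL.C (nat_lit 0x3eadbc) (nat_lit 0x0) (nat_lit 0x4d2d7e743468537)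
  (PL.C (nat_lit 0x3eb1fd) (nat_lit 0x0) (nat_lit 0x52147e75361cca6)
  (PL.C (nat_lit 0x3edf45) (nat_lit 0x51e43833f37530) (nat_lit 0x0)
  (PL.C (nat_lit 0x3f0f42) (nat_lit 0x1d0b912672ffe12) (nat_lit 0x0)
  (PL.C (nat_lit 0x3f358b) (nat_lit 0x394a219643129fd) (nat_lit 0x0)
  (PL.C (nat_lit 0x3f6c09) (nat_lit 0xf9517590ce131ff) (nat_lit 0x0)
  (PL.C (nat_lit 0x3f8706) (nat_lit 0x0) (nat_lit 0x676a309dc7866c0)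
  (PL.C (nat_lit 0x3fa52a) (nat_lit 0x0) (nat_lit 0xfb3b5c2c5b74fd)
  (PL.C (nat_lit 0x3fb4e8) (nat_lit 0x0) (nat_lit 0xc9a30837fc51d2)
  (PL.C (nat_lit 0x3fcf36) (nat_lit 0x12f7170989857ae) (nat_lit 0x0)
  (PL.C (nat_lit 0x3fe004) (nat_lit 0x0) (nat_lit 0xd57eab87398453)
  (PL.C (nat_lit 0x3ff3ea) (nat_lit 0x0) (nat_lit 0xdd538345c6c2a8)
  (PL.C (nat_lit 0x3ffffc) (nat_lit 0x2551e637820d257) (nat_lit 0x0)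
  (PL.C (nat_lit 0x401a69) (nat_lit 0x0) (nat_lit 0x446168058cc359)
  (PL.C (nat_lit 0x402004) (nat_lit 0xb0ce02134c2e6) (nat_lit 0x0)
  (PL.C (nat_lit 0x402a44) (nat_lit 0x0) (nat_lit 0xc72f34de96c80e)
  (PL.C (nat_lit 0x406538) (nat_lit 0x1cbf27490383ab2) (nat_lit 0x0)
  (PL.C (nat_lit 0x40aa48) (nat_lit 0x0) (nat_lit 0x4bdfa364b9e2b5e) gp1_0_48))))))))))))))))))))

noncomputable def gp1_0_46 : PL :=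
  (PL.C (nat_lit 0x3c44eb) (nat_lit 0x4a96759b65b093) (nat_lit 0x0)
  (PL.C (nat_lit 0x3c6315) (nat_lit 0x0) (nat_lit 0xa85364a2bc54ef)
  (PL.C (nat_lit 0x3c80dc) (nat_lit 0x0) (nat_lit 0x65abc94c6a21c14)
  (PL.C (nat_lit 0x3c9363) (nat_lit 0x47fc054d79adee) (nat_lit 0x0)
  (PL.C (nat_lit 0x3c9f24) (nat_lit 0x1fa06e8a0877c98) (nat_lit 0x0)
  (PL.C (nat_lit 0x3cbe64) (nat_lit 0x0) (nat_lit 0xa50cfd42563d2d)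
  (PL.C (nat_lit 0x3cc29a) (nat_lit 0x0) (nat_lit 0xbd4bbdda9d7ddf7)
  (PL.C (nat_lit 0x3cff08) (nat_lit 0x1633e8a67bfe22) (nat_lit 0x0)
  (PL.C (nat_lit 0x3d24bc) (nat_lit 0x0) (nat_lit 0x1ac9ca45e947235)
  (PL.C (nat_lit 0x3d3eb6) (nat_lit 0x0) (nat_lit 0x40e77e665225042)
  (PL.C (nat_lit 0x3d55b8) (nat_lit 0x25bb38766528e8) (nat_lit 0x0)
  (PL.C (nat_lit 0x3d645e) (nat_lit 0x9ef1a939844d354) (nat_lit 0x0)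
  (PL.C (nat_lit 0x3d90b9) (nat_lit 0x536988400867423) (nat_lit 0x0)
  (PL.C (nat_lit 0x3dcdf4) (nat_lit 0x25bf9a6715d7b1a) (nat_lit 0x0)
  (PL.C (nat_lit 0x3de0e1) (nat_lit 0x0) (nat_lit 0x12a5a1a23ed69b3)
  (PL.C (nat_lit 0x3e033c) (nat_lit 0x0) (nat_lit 0x1a918b030e1d3e8d)
  (PL.C (nat_lit 0x3e1d44) (nat_lit 0x0) (nat_lit 0x143dc7401d8556b)
  (PL.C (nat_lit 0x3e1fcf) (nat_lit 0x4559a47d383b1bb) (nat_lit 0x0)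
  (PL.C (nat_lit 0x3e3b18) (nat_lit 0x50296e0ed896920) (nat_lit 0x0)
  (PL.C (nat_lit 0x3e54ca) (nat_lit 0x2343de8c9c5f33e) (nat_lit 0x0) gp1_0_47))))))))))))))))))))

noncomputable def gp1_0_45 : PL :=
  (PL.C (nat_lit 0x399b2b) (nat_lit 0x14da5ecabdc5f7d) (nat_lit 0x0)
  (PL.C (nat_lit 0x39b478) (nat_lit 0x3ac682323b8b872) (nat_lit 0x0)
  (PL.C (nat_lit 0x39d546) (nat_lit 0x454e51b78a36155) (nat_lit 0x0)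
  (PL.C (nat_lit 0x3a06d0) (nat_lit 0x0) (nat_lit 0x146e77f237454bd)
  (PL.C (nat_lit 0x3a43be) (nat_lit 0x78449b15e06bcc4) (nat_lit 0x0)
  (PL.C (nat_lit 0x3a8374) (nat_lit 0x35524939997399b) (nat_lit 0x0)
  (PL.C (nat_lit 0x3a86b0) (nat_lit 0x12cd1e9d57909d) (nat_lit 0x0)
  (PL.C (nat_lit 0x3a9977) (nat_lit 0x237eee907e49a999) (nat_lit 0x0)
  (PL.C (nat_lit 0x3ab7c2) (nat_lit 0x0) (nat_lit 0x34fb2b1d76003faf)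
  (PL.C (nat_lit 0x3ac648) (nat_lit 0x99fd3e863be2b7f) (nat_lit 0x0)
  (PL.C (nat_lit 0x3af228) (nat_lit 0x0) (nat_lit 0xb7c37714bf218c6)
  (PL.C (nat_lit 0x3b0b8c) (nat_lit 0x603f19b6939c148) (nat_lit 0x0)
  (PL.C (nat_lit 0x3b3f91) (nat_lit 0x47fc054d79adee) (nat_lit 0x0)
  (PL.C (nat_lit 0x3b5416) (nat_lit 0x31c4a72cd4bd3ec) (nat_lit 0x0)
  (PL.C (nat_lit 0x3b586c) (nat_lit 0x205ea8bc3f4f688) (nat_lit 0x0)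
  (PL.C (nat_lit 0x3ba3b0) (nat_lit 0x0) (nat_lit 0x182e8054372b655)
  (PL.C (nat_lit 0x3bdb34) (nat_lit 0x2b5d88e2576841) (nat_lit 0x0)
  (PL.C (nat_lit 0x3bf4a2) (nat_lit 0x1469ef53f644780f) (nat_lit 0x0)
  (PL.C (nat_lit 0x3c1c3e) (nat_lit 0xa80ddafc37063b) (nat_lit 0x0)
  (PL.C (nat_lit 0x3c327c) (nat_lit 0x1c87c6cfe5ebeda) (nat_lit 0x0) gp1_0_46))))))))))))))))))))

noncomputable def gp1_0_44 : PL :=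
  (PL.C (nat_lit 0x379484) (nat_lit 0x0) (nat_lit 0x252c39f65715d4)
  (PL.C (nat_lit 0x37ab77) (nat_lit 0x3b84d8f1f038fb) (nat_lit 0x0)
  (PL.C (nat_lit 0x37b93c) (nat_lit 0xe7141e5d93e848) (nat_lit 0x0)
  (PL.C (nat_lit 0x37e128) (nat_lit 0x0) (nat_lit 0xf15d0314d5e75b)
  (PL.C (nat_lit 0x37e39e) (nat_lit 0x0) (nat_lit 0x9ae8a8239ab645)
  (PL.C (nat_lit 0x37fec9) (nat_lit 0x0) (nat_lit 0x4d7ff51760b39d)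
  (PL.C (nat_lit 0x38174c) (nat_lit 0x0) (nat_lit 0xc9dc5c73305a816)
  (PL.C (nat_lit 0x382e75) (nat_lit 0x0) (nat_lit 0x67e19980d013fc5)
  (PL.C (nat_lit 0x385374) (nat_lit 0x76ecd7fde2b5b9) (nat_lit 0x0)
  (PL.C (nat_lit 0x387a2f) (nat_lit 0x0) (nat_lit 0x12190a5c2b96d49)
  (PL.C (nat_lit 0x38f848) (nat_lit 0x1b9f37d609d4d0) (nat_lit 0x0)
  (PL.C (nat_lit 0x3909ba) (nat_lit 0x72734846e3fad0f) (nat_lit 0x0)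
  (PL.C (nat_lit 0x39167d) (nat_lit 0x88b4ff2a949639d) (nat_lit 0x0)
  (PL.C (nat_lit 0x392646) (nat_lit 0x0) (nat_lit 0x30a08413fd86d0)
  (PL.C (nat_lit 0x3946e6) (nat_lit 0x13c23b49776ed5) (nat_lit 0x0)
  (PL.C (nat_lit 0x395da5) (nat_lit 0xf9517590ce131ff) (nat_lit 0x0)
  (PL.C (nat_lit 0x3969b8) (nat_lit 0x1c6cbd7114dc7bda) (nat_lit 0x0)
  (PL.C (nat_lit 0x397a5b) (nat_lit 0x22df216dcfadd2a) (nat_lit 0x0)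
  (PL.C (nat_lit 0x3980ac) (nat_lit 0x62515460176a9b4) (nat_lit 0x0)
  (PL.C (nat_lit 0x39838b) (nat_lit 0xb36f276ed39e1) (nat_lit 0x0) gp1_0_45))))))))))))))))))))

noncomputable def gp1_0_43 : PL :=
  (PL.C (nat_lit 0x34ecb1) (nat_lit 0x109af0a2295cb75e5) (nat_lit 0x0)
  (PL.C (nat_lit 0x34f630) (nat_lit 0x693a3dadc9525c8) (nat_lit 0x0)
  (PL.C (nat_lit 0x352154) (nat_lit 0x0) (nat_lit 0x91aaf5ebbaf6052)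
  (PL.C (nat_lit 0x353199) (nat_lit 0x4aadf50d65ca732) (nat_lit 0x0)
  (PL.C (nat_lit 0x35c158) (nat_lit 0x1d9dc08df056c05) (nat_lit 0x0)
  (PL.C (nat_lit 0x35ca88) (nat_lit 0x15db9cc3f6e8188) (nat_lit 0x0)
  (PL.C (nat_lit 0x35d1ce) (nat_lit 0x0) (nat_lit 0x2b80b598752ffe)
  (PL.C (nat_lit 0x3606f6) (nat_lit 0x0) (nat_lit 0x35912f3834cfe51)
  (PL.C (nat_lit 0x362a54) (nat_lit 0x0) (nat_lit 0xc72f34de96c80e)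
  (PL.C (nat_lit 0x365673) (nat_lit 0x0) (nat_lit 0x24cce3dc809609d0)
  (PL.C (nat_lit 0x365c18) (nat_lit 0x0) (nat_lit 0xc81bd5adb28868)
  (PL.C (nat_lit 0x366ec4) (nat_lit 0x0) (nat_lit 0x1e8491626a18fe)
  (PL.C (nat_lit 0x36728a) (nat_lit 0x0) (nat_lit 0x31db3e76354f0d4)
  (PL.C (nat_lit 0x36c03c) (nat_lit 0x0) (nat_lit 0x4afc21cdbc6baf5)
  (PL.C (nat_lit 0x36fa1a) (nat_lit 0x1458d3c3dd7ade1) (nat_lit 0x0)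
  (PL.C (nat_lit 0x36ffd0) (nat_lit 0x224a16910d110f) (nat_lit 0x0)
  (PL.C (nat_lit 0x3738e4) (nat_lit 0x0) (nat_lit 0x10132ebbf795d07)
  (PL.C (nat_lit 0x3749cd) (nat_lit 0x2c651c9eeb5d65) (nat_lit 0x0)
  (PL.C (nat_lit 0x37505a) (nat_lit 0x0) (nat_lit 0x567d4c4edffedc32)
  (PL.C (nat_lit 0x3791dc) (nat_lit 0xa551d4a3ed52ca3) (nat_lit 0x0) gp1_0_44))))))))))))))))))))

noncomputable def gp1_0_42 : PL :=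
  (PL.C (nat_lit 0x334a82) (nat_lit 0x9f7cf55da40c4f0) (nat_lit 0x0)
  (PL.C (nat_lit 0x3352ac) (nat_lit 0x0) (nat_lit 0x6029814bd87d9e)
  (PL.C (nat_lit 0x335824) (nat_lit 0x0) (nat_lit 0x93feb944ab5140a)
  (PL.C (nat_lit 0x3367dd) (nat_lit 0x24480d13e24186a) (nat_lit 0x0)
  (PL.C (nat_lit 0x337494) (nat_lit 0x2afd3bb21bb213a) (nat_lit 0x0)
  (PL.C (nat_lit 0x3389d3) (nat_lit 0x9fae0b16a620c3) (nat_lit 0x0)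
  (PL.C (nat_lit 0x33bf9c) (nat_lit 0x0) (nat_lit 0x3f60f6e912083095)
  (PL.C (nat_lit 0x33e4fc) (nat_lit 0x2fc38c8651179f8) (nat_lit 0x0)
  (PL.C (nat_lit 0x3402fc) (nat_lit 0x0) (nat_lit 0xc481fc75768b6f6)
  (PL.C (nat_lit 0x341d04) (nat_lit 0x135b16bcee240b) (nat_lit 0x0)
  (PL.C (nat_lit 0x342088) (nat_lit 0x0) (nat_lit 0xad86995c08ee3e)
  (PL.C (nat_lit 0x34360e) (nat_lit 0x0) (nat_lit 0x18c3e070f032051)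
  (PL.C (nat_lit 0x343ac4) (nat_lit 0x0) (nat_lit 0x11d1df8a094e5a)
  (PL.C (nat_lit 0x3442f8) (nat_lit 0x2681fb6fb331134) (nat_lit 0x0)
  (PL.C (nat_lit 0x34592c) (nat_lit 0x0) (nat_lit 0xc9dc5c73305a816)
  (PL.C (nat_lit 0x34714b) (nat_lit 0x18aa9d9242fcf59) (nat_lit 0x0)
  (PL.C (nat_lit 0x3482df) (nat_lit 0x0) (nat_lit 0x1f6db4ca5c91bf8)
  (PL.C (nat_lit 0x348fdc) (nat_lit 0x0) (nat_lit 0x149443385c71f50)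
  (PL.C (nat_lit 0x34ab08) (nat_lit 0x0) (nat_lit 0x63559bf925ca16b)
  (PL.C (nat_lit 0x34b9f8) (nat_lit 0x5e58135c1a4f1) (nat_lit 0x0) gp1_0_43))))))))))))))))))))

noncomputable def gp1_0_41 : PL :=
  (PL.C (nat_lit 0x306cf9) (nat_lit 0xdd54935845ca72f) (nat_lit 0x0)
  (PL.C (nat_lit 0x307ed5) (nat_lit 0x2c651c9eeb5d65) (nat_lit 0x0)
  (PL.C (nat_lit 0x308cf7) (nat_lit 0x2e5344317b78ad1) (nat_lit 0x0)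
  (PL.C (nat_lit 0x309eee) (nat_lit 0x115f69938b9acab5) (nat_lit 0x0)
  (PL.C (nat_lit 0x311355) (nat_lit 0x1620e165b928cd95) (nat_lit 0x0)
  (PL.C (nat_lit 0x312f36) (nat_lit 0x0) (nat_lit 0x40105acf56ce977)
  (PL.C (nat_lit 0x314424) (nat_lit 0x8764fbc4167ad99) (nat_lit 0x0)
  (PL.C (nat_lit 0x315a30) (nat_lit 0x0) (nat_lit 0x182e8054372b655)
  (PL.C (nat_lit 0x317793) (nat_lit 0x2c64a3da64815617) (nat_lit 0x0)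
  (PL.C (nat_lit 0x319d68) (nat_lit 0xfae89ce4d6f413) (nat_lit 0x0)
  (PL.C (nat_lit 0x32164e) (nat_lit 0x537d3ee8afa2d96) (nat_lit 0x0)
  (PL.C (nat_lit 0x3226b8) (nat_lit 0x0) (nat_lit 0x923036c1d09be36)
  (PL.C (nat_lit 0x32436c) (nat_lit 0xa1af04cd1834b1e) (nat_lit 0x0)
  (PL.C (nat_lit 0x32582d) (nat_lit 0xba52793d80a94f) (nat_lit 0x0)
  (PL.C (nat_lit 0x325c94) (nat_lit 0x0) (nat_lit 0x851a7e6370dad0)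
  (PL.C (nat_lit 0x327954) (nat_lit 0x3b5aecadd7bcc) (nat_lit 0x0)
  (PL.C (nat_lit 0x3285d0) (nat_lit 0x325aa0519163b6) (nat_lit 0x0)
  (PL.C (nat_lit 0x32eec9) (nat_lit 0x0) (nat_lit 0x35918b8a64cd2b)
  (PL.C (nat_lit 0x330d08) (nat_lit 0x328c74e04d91db0) (nat_lit 0x0)
  (PL.C (nat_lit 0x3346f4) (nat_lit 0xd670a2d5de80db) (nat_lit 0x0) gp1_0_42))))))))))))))))))))

noncomputable def gp1_0_40 : PL :=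
  (PL.C (nat_lit 0x2d60b8) (nat_lit 0x0) (nat_lit 0x6001437e9f5939)
  (PL.C (nat_lit 0x2d71ca) (nat_lit 0x0) (nat_lit 0x16e3716e23e0928)
  (PL.C (nat_lit 0x2e0284) (nat_lit 0x2250953ca340784) (nat_lit 0x0)
  (PL.C (nat_lit 0x2e5f3c) (nat_lit 0x0) (nat_lit 0x1ed1d3365caaf1f2)
  (PL.C (nat_lit 0x2e71c6) (nat_lit 0x0) (nat_lit 0x153262d81f5d7e1a)
  (PL.C (nat_lit 0x2e9b9c) (nat_lit 0xd9241776f61e84) (nat_lit 0x0)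
  (PL.C (nat_lit 0x2ea168) (nat_lit 0x48764125493d137) (nat_lit 0x0)
  (PL.C (nat_lit 0x2eb61b) (nat_lit 0x3d1ba4e1318e7583) (nat_lit 0x0)
  (PL.C (nat_lit 0x2f1438) (nat_lit 0x24eba4795d8447f) (nat_lit 0x0)
  (PL.C (nat_lit 0x2f2bc8) (nat_lit 0x2202124a0d3e08) (nat_lit 0x0)
  (PL.C (nat_lit 0x2f42ca) (nat_lit 0x5412c74b7ca00c) (nat_lit 0x0)
  (PL.C (nat_lit 0x2f597c) (nat_lit 0x0) (nat_lit 0x1a918b030e1d3e8d)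
  (PL.C (nat_lit 0x2f6d09) (nat_lit 0x3668816b3b269ade) (nat_lit 0x0)
  (PL.C (nat_lit 0x2f78c4) (nat_lit 0xb689e75cd84dc3a) (nat_lit 0x0)
  (PL.C (nat_lit 0x2f8c44) (nat_lit 0x2e775ea8d60b551) (nat_lit 0x0)
  (PL.C (nat_lit 0x2f9c34) (nat_lit 0xaab62714e19d3fa) (nat_lit 0x0)
  (PL.C (nat_lit 0x2fb0b6) (nat_lit 0x12b4e9a5427239a) (nat_lit 0x0)
  (PL.C (nat_lit 0x301768) (nat_lit 0x94483bf1d53b73) (nat_lit 0x0)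
  (PL.C (nat_lit 0x302622) (nat_lit 0x88b4aba1e43d660) (nat_lit 0x0)
  (PL.C (nat_lit 0x302b98) (nat_lit 0x0) (nat_lit 0x54181c380b1dd8) gp1_0_41))))))))))))))))))))

noncomputable def gp1_0_39 : PL :=
  (PL.C (nat_lit 0x2b8d1a) (nat_lit 0x1d0b912672ffe12) (nat_lit 0x0)
  (PL.C (nat_lit 0x2b91be) (nat_lit 0x0) (nat_lit 0x2706875ce2c82cd)
  (PL.C (nat_lit 0x2ba2e6) (nat_lit 0x0) (nat_lit 0x25fa8a27bfc8de4)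
  (PL.C (nat_lit 0x2baf0c) (nat_lit 0x11895a6eedf56ac22) (nat_lit 0x0)
  (PL.C (nat_lit 0x2bbfba) (nat_lit 0x746fcf5f5cb67c6) (nat_lit 0x0)
  (PL.C (nat_lit 0x2be2c8) (nat_lit 0x4cd29c78bdc24c) (nat_lit 0x0)
  (PL.C (nat_lit 0x2be7ec) (nat_lit 0x0) (nat_lit 0x13fad0042620bfe9)
  (PL.C (nat_lit 0x2bfa0d) (nat_lit 0x53c5f4d893f1278) (nat_lit 0x0)
  (PL.C (nat_lit 0x2c38ce) (nat_lit 0x0) (nat_lit 0x805661634b8fa45)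
  (PL.C (nat_lit 0x2c6bda) (nat_lit 0x0) (nat_lit 0x1a227553952bc492)
  (PL.C (nat_lit 0x2c6c28) (nat_lit 0x0) (nat_lit 0xe7c7dbb98e8933)
  (PL.C (nat_lit 0x2c7cde) (nat_lit 0x0) (nat_lit 0x5fc7ab810cf1687)
  (PL.C (nat_lit 0x2c9322) (nat_lit 0x0) (nat_lit 0x1ad20f96123b27f)
  (PL.C (nat_lit 0x2c9808) (nat_lit 0x0) (nat_lit 0x2f2c8c073aa4a76)
  (PL.C (nat_lit 0x2c9a42) (nat_lit 0x0) (nat_lit 0x6be0fa3d5a80c7a)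
  (PL.C (nat_lit 0x2cad35) (nat_lit 0x109af0a2295cb75e5) (nat_lit 0x0)
  (PL.C (nat_lit 0x2cd9a4) (nat_lit 0x0) (nat_lit 0xe8193b014ca9cd2)
  (PL.C (nat_lit 0x2ce21e) (nat_lit 0x0) (nat_lit 0x632fd8930c073f4)
  (PL.C (nat_lit 0x2ced38) (nat_lit 0x2fbd5f9b6ed7c5) (nat_lit 0x0)
  (PL.C (nat_lit 0x2d2427) (nat_lit 0x1f67a6e3c1f4d710) (nat_lit 0x0) gp1_0_40))))))))))))))))))))

noncomputable def gp1_0_38 : PL :=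
  (PL.C (nat_lit 0x29bcd4) (nat_lit 0x1a9c0d3c66ada32) (nat_lit 0x0)
  (PL.C (nat_lit 0x29c928) (nat_lit 0x0) (nat_lit 0x63559bf925ca16b)
  (PL.C (nat_lit 0x29cbfe) (nat_lit 0x2ae870284289eaa5) (nat_lit 0x0)
  (PL.C (nat_lit 0x29ea2e) (nat_lit 0x0) (nat_lit 0x8dc2d0e3f363ae)
  (PL.C (nat_lit 0x2a0a2c) (nat_lit 0x92a995e3c1343f) (nat_lit 0x0)
  (PL.C (nat_lit 0x2a1d8b) (nat_lit 0x0) (nat_lit 0x133afa02123e8c)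
  (PL.C (nat_lit 0x2a23b2) (nat_lit 0x0) (nat_lit 0x1691be5e4a47f0e)
  (PL.C (nat_lit 0x2a4806) (nat_lit 0x3fb4627d64f208c) (nat_lit 0x0)
  (PL.C (nat_lit 0x2a5a04) (nat_lit 0x4c006604f21c85a) (nat_lit 0x0)
  (PL.C (nat_lit 0x2a6e1c) (nat_lit 0x0) (nat_lit 0x93fae87230184e)
  (PL.C (nat_lit 0x2a7fa1) (nat_lit 0xba52793d80a94f) (nat_lit 0x0)
  (PL.C (nat_lit 0x2a8a24) (nat_lit 0x0) (nat_lit 0xe81c6f59769e71)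
  (PL.C (nat_lit 0x2a9558) (nat_lit 0x1477b19073e3fc7) (nat_lit 0x0)
  (PL.C (nat_lit 0x2aa29c) (nat_lit 0x0) (nat_lit 0x6ca908e8a51fdf)
  (PL.C (nat_lit 0x2aaaa8) (nat_lit 0x1eed77e5609503c) (nat_lit 0x0)
  (PL.C (nat_lit 0x2abc46) (nat_lit 0x12f7170989857ae) (nat_lit 0x0)
  (PL.C (nat_lit 0x2ac6d8) (nat_lit 0x0) (nat_lit 0x1c5bcf82b7f0c7e)
  (PL.C (nat_lit 0x2b1c30) (nat_lit 0x0) (nat_lit 0x15b15b9686066dc)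
  (PL.C (nat_lit 0x2b57b4) (nat_lit 0x0) (nat_lit 0x6bc89af8e6ce82)
  (PL.C (nat_lit 0x2b7fc8) (nat_lit 0x0) (nat_lit 0x2dae4f366171660) gp1_0_39))))))))))))))))))))

noncomputable def gp1_0_37 : PL :=
  (PL.C (nat_lit 0x2808ed) (nat_lit 0x0) (nat_lit 0x96829f6b9e70392)
  (PL.C (nat_lit 0x2812d4) (nat_lit 0x0) (nat_lit 0x153075d0f576fe1d)
  (PL.C (nat_lit 0x2821a8) (nat_lit 0x0) (nat_lit 0xa6ba1b1688d7640)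
  (PL.C (nat_lit 0x282df2) (nat_lit 0x0) (nat_lit 0x15623829c7fce2bb)
  (PL.C (nat_lit 0x28420e) (nat_lit 0x0) (nat_lit 0x3769cfa386c2ca)
  (PL.C (nat_lit 0x2855e8) (nat_lit 0x0) (nat_lit 0xc5135e5e7bbb891)
  (PL.C (nat_lit 0x286242) (nat_lit 0x8b2682b8e74510) (nat_lit 0x0)
  (PL.C (nat_lit 0x286a18) (nat_lit 0x9e817b0f95e3ed) (nat_lit 0x0)
  (PL.C (nat_lit 0x2881bc) (nat_lit 0x0) (nat_lit 0x5cfd6b5980dce19)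
  (PL.C (nat_lit 0x28c328) (nat_lit 0xe6ccdeb6f3e26e) (nat_lit 0x0)
  (PL.C (nat_lit 0x28e3d0) (nat_lit 0x325aa0519163b6) (nat_lit 0x0)
  (PL.C (nat_lit 0x28ed94) (nat_lit 0x5d9e0fa24170ba2) (nat_lit 0x0)
  (PL.C (nat_lit 0x290b26) (nat_lit 0x0) (nat_lit 0x74d676d0e7a7e83)
  (PL.C (nat_lit 0x2933f8) (nat_lit 0x0) (nat_lit 0x660624392677475)
  (PL.C (nat_lit 0x294096) (nat_lit 0x179b4832c9c2ffb) (nat_lit 0x0)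
  (PL.C (nat_lit 0x2968d8) (nat_lit 0x0) (nat_lit 0x2ef0be53d6fa14)
  (PL.C (nat_lit 0x296a8a) (nat_lit 0x173d6c6d1168d76) (nat_lit 0x0)
  (PL.C (nat_lit 0x296d69) (nat_lit 0x0) (nat_lit 0x1865959c6362450a)
  (PL.C (nat_lit 0x298ddc) (nat_lit 0xf3ad3399c6f8b94) (nat_lit 0x0)
  (PL.C (nat_lit 0x29b010) (nat_lit 0x0) (nat_lit 0xf19ded27e2cade) gp1_0_38))))))))))))))))))))

noncomputable def gp1_0_36 : PL :=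
  (PL.C (nat_lit 0x260efe) (nat_lit 0x0) (nat_lit 0x10f991b6894102ce)
  (PL.C (nat_lit 0x261984) (nat_lit 0x162d8d0b2df3374) (nat_lit 0x0)
  (PL.C (nat_lit 0x262f44) (nat_lit 0x199c2723e2b190f) (nat_lit 0x0)
  (PL.C (nat_lit 0x263e6e) (nat_lit 0x3fb4627d64f208c) (nat_lit 0x0)
  (PL.C (nat_lit 0x2655c8) (nat_lit 0x478918400de979f) (nat_lit 0x0)
  (PL.C (nat_lit 0x2657b2) (nat_lit 0x0) (nat_lit 0x379037ec6f8e5cb)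
  (PL.C (nat_lit 0x266772) (nat_lit 0x1d6c5a2ec170b5f) (nat_lit 0x0)
  (PL.C (nat_lit 0x267850) (nat_lit 0x2bfd7aaf6e840b4) (nat_lit 0x0)
  (PL.C (nat_lit 0x26d7d4) (nat_lit 0x0) (nat_lit 0xf4527e9c4ff1277)
  (PL.C (nat_lit 0x26e3b9) (nat_lit 0x5624555f99b072) (nat_lit 0x0)
  (PL.C (nat_lit 0x2710fa) (nat_lit 0x454e51b78a36155) (nat_lit 0x0)
  (PL.C (nat_lit 0x27252c) (nat_lit 0x0) (nat_lit 0x1e149c704ca67fef)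
  (PL.C (nat_lit 0x275d08) (nat_lit 0x955b9683245c2cf) (nat_lit 0x0)
  (PL.C (nat_lit 0x2761a7) (nat_lit 0x0) (nat_lit 0x31eba0dd86948a)
  (PL.C (nat_lit 0x277fb6) (nat_lit 0x8b2682b8e74510) (nat_lit 0x0)
  (PL.C (nat_lit 0x278d64) (nat_lit 0x6eab010eadc199e) (nat_lit 0x0)
  (PL.C (nat_lit 0x279048) (nat_lit 0x2eaa77673af4816) (nat_lit 0x0)
  (PL.C (nat_lit 0x27b9d3) (nat_lit 0x0) (nat_lit 0x24a311b93857fc)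
  (PL.C (nat_lit 0x27e778) (nat_lit 0x1202149417128df) (nat_lit 0x0)
  (PL.C (nat_lit 0x27f86c) (nat_lit 0xa4d1961e208581e) (nat_lit 0x0) gp1_0_37))))))))))))))))))))

noncomputable def gp1_0_35 : PL :=
  (PL.C (nat_lit 0x23e134) (nat_lit 0x0) (nat_lit 0x904eb05f708b70)
  (PL.C (nat_lit 0x2404a4) (nat_lit 0x4e6a55005b2339a) (nat_lit 0x0)
  (PL.C (nat_lit 0x241c38) (nat_lit 0x0) (nat_lit 0x1c5bcf82b7f0c7e)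
  (PL.C (nat_lit 0x2439a2) (nat_lit 0x0) (nat_lit 0x197a9879011d6c38)
  (PL.C (nat_lit 0x2449d8) (nat_lit 0x0) (nat_lit 0xe567562d5473a)
  (PL.C (nat_lit 0x244c5c) (nat_lit 0x163f24ffd97bee7) (nat_lit 0x0)
  (PL.C (nat_lit 0x248028) (nat_lit 0x0) (nat_lit 0x24df64354bc9ab5)
  (PL.C (nat_lit 0x24a6bc) (nat_lit 0x4aae5dfd0123e00) (nat_lit 0x0)
  (PL.C (nat_lit 0x24d098) (nat_lit 0xfe01da56ac98b4) (nat_lit 0x0)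
  (PL.C (nat_lit 0x24dbde) (nat_lit 0xb73a5e23d29062) (nat_lit 0x0)
  (PL.C (nat_lit 0x24e03c) (nat_lit 0x0) (nat_lit 0x3f60f6e912083095)
  (PL.C (nat_lit 0x250be8) (nat_lit 0x81268a2f7c950b1) (nat_lit 0x0)
  (PL.C (nat_lit 0x251cfa) (nat_lit 0x0) (nat_lit 0x26636594fc48f7)
  (PL.C (nat_lit 0x252628) (nat_lit 0x5e58135c1a4f1) (nat_lit 0x0)
  (PL.C (nat_lit 0x255486) (nat_lit 0x0) (nat_lit 0x36467a52f7697d8)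
  (PL.C (nat_lit 0x25744e) (nat_lit 0x0) (nat_lit 0x404cf5224bccf5f)
  (PL.C (nat_lit 0x258cf8) (nat_lit 0xf2781eed404192) (nat_lit 0x0)
  (PL.C (nat_lit 0x25a6ca) (nat_lit 0x0) (nat_lit 0x2f80c15db55037c)
  (PL.C (nat_lit 0x25b6c9) (nat_lit 0x0) (nat_lit 0x52147e75361cca6)
  (PL.C (nat_lit 0x26067c) (nat_lit 0xc36401c1331ae91) (nat_lit 0x0) gp1_0_36))))))))))))))))))))

noncomputable def gp1_0_34 : PL :=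
  (PL.C (nat_lit 0x21a638) (nat_lit 0x0) (nat_lit 0x54181c380b1dd8)
  (PL.C (nat_lit 0x21daaf) (nat_lit 0x0) (nat_lit 0x155780a15591b61)
  (PL.C (nat_lit 0x21f486) (nat_lit 0x0) (nat_lit 0x37f671df36b273)
  (PL.C (nat_lit 0x2208b0) (nat_lit 0x313a378a1100910) (nat_lit 0x0)
  (PL.C (nat_lit 0x22267b) (nat_lit 0x0) (nat_lit 0x11858dd265f8480)
  (PL.C (nat_lit 0x2231ac) (nat_lit 0x122d549ac1a16911) (nat_lit 0x0)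
  (PL.C (nat_lit 0x22453e) (nat_lit 0x0) (nat_lit 0x632fd8930c073f4)
  (PL.C (nat_lit 0x224db8) (nat_lit 0x2235a060c82ed21) (nat_lit 0x0)
  (PL.C (nat_lit 0x225be2) (nat_lit 0x2d1d845bb51a299) (nat_lit 0x0)
  (PL.C (nat_lit 0x2298a8) (nat_lit 0x273e2bb64729f13) (nat_lit 0x0)
  (PL.C (nat_lit 0x22aca8) (nat_lit 0x0) (nat_lit 0xc58ae9947e54ef4)
  (PL.C (nat_lit 0x22ceb4) (nat_lit 0x1cdc35225ddc91d) (nat_lit 0x0)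
  (PL.C (nat_lit 0x22d1d8) (nat_lit 0x27dce64d12c1720) (nat_lit 0x0)
  (PL.C (nat_lit 0x22d750) (nat_lit 0x1080dfe0fc67249) (nat_lit 0x0)
  (PL.C (nat_lit 0x22f632) (nat_lit 0x0) (nat_lit 0x1ae2518f02162c7)
  (PL.C (nat_lit 0x2301ea) (nat_lit 0x9ef1a939844d354) (nat_lit 0x0)
  (PL.C (nat_lit 0x231cb0) (nat_lit 0x0) (nat_lit 0x2a48c4ede20795c)
  (PL.C (nat_lit 0x234876) (nat_lit 0x0) (nat_lit 0x54be9bdff85d3087)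
  (PL.C (nat_lit 0x237666) (nat_lit 0x127a27fc34b6f718) (nat_lit 0x0)
  (PL.C (nat_lit 0x23e0f5) (nat_lit 0x6708bf60e8059bd) (nat_lit 0x0) gp1_0_35))))))))))))))))))))

noncomputable def gp1_0_33 : PL :=
  (PL.C (nat_lit 0x1fb2d8) (nat_lit 0x1c8f3db468088a5) (nat_lit 0x0)
  (PL.C (nat_lit 0x1fbd78) (nat_lit 0x0) (nat_lit 0x253ee8980c06456)
  (PL.C (nat_lit 0x1fcb24) (nat_lit 0x0) (nat_lit 0x10baf54d0e6841f7)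
  (PL.C (nat_lit 0x20196c) (nat_lit 0xe281c8618c5c898) (nat_lit 0x0)
  (PL.C (nat_lit 0x201d10) (nat_lit 0x73c15447ce920e) (nat_lit 0x0)
  (PL.C (nat_lit 0x2026ad) (nat_lit 0x0) (nat_lit 0x1046fc53c11a51f)
  (PL.C (nat_lit 0x2048a6) (nat_lit 0x537d3ee8afa2d96) (nat_lit 0x0)
  (PL.C (nat_lit 0x20548e) (nat_lit 0xb73a5e23d29062) (nat_lit 0x0)
  (PL.C (nat_lit 0x205dfa) (nat_lit 0x139f49ae64fb058f) (nat_lit 0x0)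
  (PL.C (nat_lit 0x2069f4) (nat_lit 0xd5a170d237d0235) (nat_lit 0x0)
  (PL.C (nat_lit 0x2073e1) (nat_lit 0x0) (nat_lit 0xad60dc467fa3c12)
  (PL.C (nat_lit 0x20841f) (nat_lit 0x0) (nat_lit 0x4d79a2dbb0466d)
  (PL.C (nat_lit 0x20b78e) (nat_lit 0x0) (nat_lit 0x387d1da9e1c79605)
  (PL.C (nat_lit 0x20ca24) (nat_lit 0x0) (nat_lit 0xcdd01223a5bb909)
  (PL.C (nat_lit 0x20d818) (nat_lit 0x0) (nat_lit 0x3331bb224f124d1)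
  (PL.C (nat_lit 0x20fa62) (nat_lit 0x0) (nat_lit 0x37b2ddbcc275978)
  (PL.C (nat_lit 0x21268b) (nat_lit 0x0) (nat_lit 0x20bb5652e42476d2)
  (PL.C (nat_lit 0x216434) (nat_lit 0x0) (nat_lit 0x13dc1131ff784b14)
  (PL.C (nat_lit 0x218248) (nat_lit 0x901abdfb52bdd51) (nat_lit 0x0)
  (PL.C (nat_lit 0x21901e) (nat_lit 0x0) (nat_lit 0x5461c0f432e3900) gp1_0_34))))))))))))))))))))

noncomputable def gp1_0_32 : PL :=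
  (PL.C (nat_lit 0x1db76c) (nat_lit 0xe6e96a70b58824) (nat_lit 0x0)
  (PL.C (nat_lit 0x1dbab0) (nat_lit 0x0) (nat_lit 0xe8c77e85468d20)
  (PL.C (nat_lit 0x1dbc2c) (nat_lit 0x0) (nat_lit 0x9477ded57995e3e)
  (PL.C (nat_lit 0x1dc547) (nat_lit 0x0) (nat_lit 0xac3f9caff995d)
  (PL.C (nat_lit 0x1dc8ce) (nat_lit 0x0) (nat_lit 0x54be9bdff85d3087)
  (PL.C (nat_lit 0x1dec14) (nat_lit 0x0) (nat_lit 0x4746f4d6c7f98e4)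
  (PL.C (nat_lit 0x1e26bb) (nat_lit 0x4a8848f24f59a12) (nat_lit 0x0)
  (PL.C (nat_lit 0x1e4989) (nat_lit 0x0) (nat_lit 0x967c73928793b88)
  (PL.C (nat_lit 0x1e4bdc) (nat_lit 0x300a24b9f424db1) (nat_lit 0x0)
  (PL.C (nat_lit 0x1e5523) (nat_lit 0x0) (nat_lit 0x100b5fea950472e)
  (PL.C (nat_lit 0x1e692d) (nat_lit 0x3c7a01db39cc49b) (nat_lit 0x0)
  (PL.C (nat_lit 0x1eac58) (nat_lit 0x15db9cc3f6e8188) (nat_lit 0x0)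
  (PL.C (nat_lit 0x1ebd57) (nat_lit 0x190f15132a1716c) (nat_lit 0x0)
  (PL.C (nat_lit 0x1eea28) (nat_lit 0x0) (nat_lit 0x4f7102a323f1b58)
  (PL.C (nat_lit 0x1ef684) (nat_lit 0x0) (nat_lit 0x733e04956e3b1e0)
  (PL.C (nat_lit 0x1efc21) (nat_lit 0x0) (nat_lit 0xb0adf4242937eb0)
  (PL.C (nat_lit 0x1f1268) (nat_lit 0x5db8e2dd72a2c9a) (nat_lit 0x0)
  (PL.C (nat_lit 0x1f62d0) (nat_lit 0x0) (nat_lit 0x749aba328547ae)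
  (PL.C (nat_lit 0x1f9e06) (nat_lit 0x2664caa6fa0f4854) (nat_lit 0x0)
  (PL.C (nat_lit 0x1fa5d8) (nat_lit 0xae150c78bf1ab18) (nat_lit 0x0) gp1_0_33))))))))))))))))))))

noncomputable def gp1_0_31 : PL :=
  (PL.C (nat_lit 0x1c5c18) (nat_lit 0x0) (nat_lit 0x3265902f4177f51)
  (PL.C (nat_lit 0x1c6390) (nat_lit 0xa2cc8dfe379895) (nat_lit 0x0)
  (PL.C (nat_lit 0x1c6c68) (nat_lit 0x1812714336a1a48) (nat_lit 0x0)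
  (PL.C (nat_lit 0x1c7d84) (nat_lit 0x0) (nat_lit 0xe81c6f59769e71)
  (PL.C (nat_lit 0x1c7f73) (nat_lit 0x24cc7f4b0a9fd757) (nat_lit 0x0)
  (PL.C (nat_lit 0x1c8490) (nat_lit 0x0) (nat_lit 0x2d61e93835330a)
  (PL.C (nat_lit 0x1d08bc) (nat_lit 0x92a995e3c1343f) (nat_lit 0x0)
  (PL.C (nat_lit 0x1d0bd4) (nat_lit 0x0) (nat_lit 0x3934c4c792e6ce2)
  (PL.C (nat_lit 0x1d14b9) (nat_lit 0x0) (nat_lit 0x1046fc53c11a51f)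
  (PL.C (nat_lit 0x1d1744) (nat_lit 0x0) (nat_lit 0x223a581c5979743)
  (PL.C (nat_lit 0x1d2347) (nat_lit 0x9fae0b16a620c3) (nat_lit 0x0)
  (PL.C (nat_lit 0x1d2a7c) (nat_lit 0x97e4cab754d2698) (nat_lit 0x0)
  (PL.C (nat_lit 0x1d4548) (nat_lit 0x329bbd17acb8519) (nat_lit 0x0)
  (PL.C (nat_lit 0x1d515e) (nat_lit 0x2f9bd79879f0d6) (nat_lit 0x0)
  (PL.C (nat_lit 0x1d7b34) (nat_lit 0x0) (nat_lit 0x9f997dc47562a1f)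
  (PL.C (nat_lit 0x1d9d3c) (nat_lit 0x0) (nat_lit 0x1fbe3ec0a9520d8a)
  (PL.C (nat_lit 0x1d9d70) (nat_lit 0x29348da0f0625c) (nat_lit 0x0)
  (PL.C (nat_lit 0x1da894) (nat_lit 0x2f4917410b05d1b) (nat_lit 0x0)
  (PL.C (nat_lit 0x1db1a9) (nat_lit 0x0) (nat_lit 0x35918b8a64cd2b)
  (PL.C (nat_lit 0x1db4d3) (nat_lit 0x3d4162f135782ba) (nat_lit 0x0) gp1_0_32))))))))))))))))))))

noncomputable def gp1_0_30 : PL :=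
  (PL.C (nat_lit 0x1b0128) (nat_lit 0x0) (nat_lit 0x1ba2797c1bc696c6)
  (PL.C (nat_lit 0x1b5cc4) (nat_lit 0x0) (nat_lit 0x4b8390a0545f8b5)
  (PL.C (nat_lit 0x1b6525) (nat_lit 0x0) (nat_lit 0x128b55a622f86)
  (PL.C (nat_lit 0x1b72db) (nat_lit 0x0) (nat_lit 0x3572b155d4530ab)
  (PL.C (nat_lit 0x1b8064) (nat_lit 0x9f27ba8b358891a) (nat_lit 0x0)
  (PL.C (nat_lit 0x1b9c5c) (nat_lit 0x35524939997399b) (nat_lit 0x0)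
  (PL.C (nat_lit 0x1b9e46) (nat_lit 0x60b8ec82877d78) (nat_lit 0x0)
  (PL.C (nat_lit 0x1bb3e8) (nat_lit 0xe0f581a62472c2c) (nat_lit 0x0)
  (PL.C (nat_lit 0x1bd338) (nat_lit 0x2f83856b8fb81f1) (nat_lit 0x0)
  (PL.C (nat_lit 0x1bdb70) (nat_lit 0x0) (nat_lit 0x2a48c4ede20795c)
  (PL.C (nat_lit 0x1bdd54) (nat_lit 0x18b374c966c0408f) (nat_lit 0x0)
  (PL.C (nat_lit 0x1bf174) (nat_lit 0xe45c76526f4ee6) (nat_lit 0x0)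
  (PL.C (nat_lit 0x1bfbf7) (nat_lit 0x1a1d49a0f753374d) (nat_lit 0x0)
  (PL.C (nat_lit 0x1c06c8) (nat_lit 0x1753e5a07c41634) (nat_lit 0x0)
  (PL.C (nat_lit 0x1c13b2) (nat_lit 0x0) (nat_lit 0x2b80b598752ffe)
  (PL.C (nat_lit 0x1c17cc) (nat_lit 0x69d823762d8ef91) (nat_lit 0x0)
  (PL.C (nat_lit 0x1c3004) (nat_lit 0x1b81a018978ed1f5) (nat_lit 0x0)
  (PL.C (nat_lit 0x1c3d01) (nat_lit 0x13a366b405d2760) (nat_lit 0x0)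
  (PL.C (nat_lit 0x1c4968) (nat_lit 0xa5905a15f1c6d) (nat_lit 0x0)
  (PL.C (nat_lit 0x1c5516) (nat_lit 0x0) (nat_lit 0x5461c0f432e3900) gp1_0_31))))))))))))))))))))

noncomputable def gp1_0_29 : PL :=
  (PL.C (nat_lit 0x199a4c) (nat_lit 0x309c6ae38460ae8) (nat_lit 0x0)
  (PL.C (nat_lit 0x19e538) (nat_lit 0x4d6b4704042fe85) (nat_lit 0x0)
  (PL.C (nat_lit 0x19ed26) (nat_lit 0x5219baad7a13108) (nat_lit 0x0)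
  (PL.C (nat_lit 0x19f2f3) (nat_lit 0x9f5ee92f65d96f) (nat_lit 0x0)
  (PL.C (nat_lit 0x1a134b) (nat_lit 0x0) (nat_lit 0x11858dd265f8480)
  (PL.C (nat_lit 0x1a18c8) (nat_lit 0xaea52ebaabd530) (nat_lit 0x0)
  (PL.C (nat_lit 0x1a2485) (nat_lit 0x0) (nat_lit 0x1cc5c3726b544ef)
  (PL.C (nat_lit 0x1a411a) (nat_lit 0x0) (nat_lit 0x2637550791f3d26)
  (PL.C (nat_lit 0x1a5524) (nat_lit 0x0) (nat_lit 0xf1d399580f47f1)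
  (PL.C (nat_lit 0x1a6030) (nat_lit 0x1601c382714a38c) (nat_lit 0x0)
  (PL.C (nat_lit 0x1a6cdf) (nat_lit 0x17e95bbb048e9f95) (nat_lit 0x0)
  (PL.C (nat_lit 0x1a7be2) (nat_lit 0xc2c08f9eb63ff1f) (nat_lit 0x0)
  (PL.C (nat_lit 0x1a9a50) (nat_lit 0x4ea7ea1f2bf261) (nat_lit 0x0)
  (PL.C (nat_lit 0x1aa2d9) (nat_lit 0x3d1ba4e1318e7583) (nat_lit 0x0)
  (PL.C (nat_lit 0x1ab09e) (nat_lit 0x0) (nat_lit 0xdf868de81d9c9d9)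
  (PL.C (nat_lit 0x1ab738) (nat_lit 0x0) (nat_lit 0xd5e9391189ed864)
  (PL.C (nat_lit 0x1ac94c) (nat_lit 0x0) (nat_lit 0x1bc9fe4e4d97a839)
  (PL.C (nat_lit 0x1ad6b4) (nat_lit 0xc85cd2a9101a5c6) (nat_lit 0x0)
  (PL.C (nat_lit 0x1ae3f0) (nat_lit 0x0) (nat_lit 0x11d20abb406b321)
  (PL.C (nat_lit 0x1aec2c) (nat_lit 0x0) (nat_lit 0xf1d399580f47f1) gp1_0_30))))))))))))))))))))

noncomputable def gp1_0_28 : PL :=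
  (PL.C (nat_lit 0x18266c) (nat_lit 0x0) (nat_lit 0x39cdfa2a947b980)
  (PL.C (nat_lit 0x1832e8) (nat_lit 0x1380ecb75414f36) (nat_lit 0x0)
  (PL.C (nat_lit 0x185570) (nat_lit 0xe99528167198d2) (nat_lit 0x0)
  (PL.C (nat_lit 0x186f28) (nat_lit 0x7a2e60a79bccd3) (nat_lit 0x0)
  (PL.C (nat_lit 0x188b10) (nat_lit 0x20c54a01a5ab922) (nat_lit 0x0)
  (PL.C (nat_lit 0x189294) (nat_lit 0x7a77fec1c9b8afb) (nat_lit 0x0)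
  (PL.C (nat_lit 0x18bdfc) (nat_lit 0x0) (nat_lit 0x143dc7401d8556b)
  (PL.C (nat_lit 0x18e304) (nat_lit 0x0) (nat_lit 0x58c1a2584a8fb7b)
  (PL.C (nat_lit 0x18f834) (nat_lit 0x473c230fe39e07c) (nat_lit 0x0)
  (PL.C (nat_lit 0x1919dc) (nat_lit 0x0) (nat_lit 0xaed6308754c863e)
  (PL.C (nat_lit 0x192486) (nat_lit 0x2ae870284289eaa5) (nat_lit 0x0)
  (PL.C (nat_lit 0x194631) (nat_lit 0x362e4826a7bcfc26) (nat_lit 0x0)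
  (PL.C (nat_lit 0x1959a8) (nat_lit 0x6de8c020153f9d5) (nat_lit 0x0)
  (PL.C (nat_lit 0x195f54) (nat_lit 0x395082283df9030f) (nat_lit 0x0)
  (PL.C (nat_lit 0x196658) (nat_lit 0x21a751f2bd40965) (nat_lit 0x0)
  (PL.C (nat_lit 0x196719) (nat_lit 0x0) (nat_lit 0x1b65ec8df58bf0)
  (PL.C (nat_lit 0x1974d8) (nat_lit 0x2e3bdb20d8dbdd2) (nat_lit 0x0)
  (PL.C (nat_lit 0x197ef4) (nat_lit 0x1b81a018978ed1f5) (nat_lit 0x0)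
  (PL.C (nat_lit 0x19897b) (nat_lit 0x11732f0c39605166) (nat_lit 0x0)
  (PL.C (nat_lit 0x198fcc) (nat_lit 0x0) (nat_lit 0x1294d40843bb70af) gp1_0_29))))))))))))))))))))

noncomputable def gp1_0_27 : PL :=
  (PL.C (nat_lit 0x16a304) (nat_lit 0x0) (nat_lit 0x1caaa519ae188dd)
  (PL.C (nat_lit 0x16c452) (nat_lit 0x329204b368b5a95) (nat_lit 0x0)
  (PL.C (nat_lit 0x16cbc8) (nat_lit 0xaf304e54ad24f37) (nat_lit 0x0)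
  (PL.C (nat_lit 0x16d8d4) (nat_lit 0x0) (nat_lit 0x4746f4d6c7f98e4)
  (PL.C (nat_lit 0x16e243) (nat_lit 0xc21bf99a1231193) (nat_lit 0x0)
  (PL.C (nat_lit 0x16e7ec) (nat_lit 0x2df8952e7e01933) (nat_lit 0x0)
  (PL.C (nat_lit 0x171070) (nat_lit 0x16c53e5295d24ec) (nat_lit 0x0)
  (PL.C (nat_lit 0x172f77) (nat_lit 0x676cf1771c5d03) (nat_lit 0x0)
  (PL.C (nat_lit 0x173478) (nat_lit 0x608e7ef6ea46c57) (nat_lit 0x0)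
  (PL.C (nat_lit 0x173690) (nat_lit 0x1f9ed6dd4117f18) (nat_lit 0x0)
  (PL.C (nat_lit 0x174ecc) (nat_lit 0x0) (nat_lit 0x37e82dac259d23a)
  (PL.C (nat_lit 0x17569c) (nat_lit 0x5d9e0fa24170ba2) (nat_lit 0x0)
  (PL.C (nat_lit 0x1785a4) (nat_lit 0x0) (nat_lit 0x1fc1b7d564524ee2)
  (PL.C (nat_lit 0x17a444) (nat_lit 0xa6cd16550d261ef) (nat_lit 0x0)
  (PL.C (nat_lit 0x17ae07) (nat_lit 0x12611c2655cc8c5) (nat_lit 0x0)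
  (PL.C (nat_lit 0x17eb4e) (nat_lit 0x70fc2b72343966d) (nat_lit 0x0)
  (PL.C (nat_lit 0x17eb78) (nat_lit 0x36a522ef59afab) (nat_lit 0x0)
  (PL.C (nat_lit 0x180318) (nat_lit 0x56160e39efd6ffd) (nat_lit 0x0)
  (PL.C (nat_lit 0x180e7f) (nat_lit 0x175d845ba6d1cda93) (nat_lit 0x0)
  (PL.C (nat_lit 0x1812d0) (nat_lit 0x0) (nat_lit 0x2d61e93835330a) gp1_0_28))))))))))))))))))))

noncomputable def gp1_0_26 : PL :=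
  (PL.C (nat_lit 0x153495) (nat_lit 0x1fe9920e1f9db87) (nat_lit 0x0)
  (PL.C (nat_lit 0x156648) (nat_lit 0x6e7247f64cde51a) (nat_lit 0x0)
  (PL.C (nat_lit 0x156f1e) (nat_lit 0x0) (nat_lit 0x221a00e41afa64c)
  (PL.C (nat_lit 0x1585c4) (nat_lit 0x0) (nat_lit 0x13dc1131ff784b14)
  (PL.C (nat_lit 0x158db4) (nat_lit 0x7a77fec1c9b8afb) (nat_lit 0x0)
  (PL.C (nat_lit 0x158ea7) (nat_lit 0x1641f21884505511) (nat_lit 0x0)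
  (PL.C (nat_lit 0x1593fc) (nat_lit 0x1dada3b260d806e9) (nat_lit 0x0)
  (PL.C (nat_lit 0x159bf8) (nat_lit 0xbc9c52514c5c159) (nat_lit 0x0)
  (PL.C (nat_lit 0x15a296) (nat_lit 0x0) (nat_lit 0x23bdaba17229b448)
  (PL.C (nat_lit 0x15ad6a) (nat_lit 0xdef7fe4a5383458) (nat_lit 0x0)
  (PL.C (nat_lit 0x15b9ca) (nat_lit 0x0) (nat_lit 0x1a4f8923537096c)
  (PL.C (nat_lit 0x15cfb4) (nat_lit 0x6a1d41d9e16b0e5) (nat_lit 0x0)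
  (PL.C (nat_lit 0x15dc18) (nat_lit 0x0) (nat_lit 0xbccbf9373b84afd)
  (PL.C (nat_lit 0x160b1b) (nat_lit 0x0) (nat_lit 0xac3f9caff995d)
  (PL.C (nat_lit 0x1619b2) (nat_lit 0x1a7664cdb4e26499) (nat_lit 0x0)
  (PL.C (nat_lit 0x164e9b) (nat_lit 0x0) (nat_lit 0x111997db77d35c63)
  (PL.C (nat_lit 0x166014) (nat_lit 0x0) (nat_lit 0x8f2a54151f0f666)
  (PL.C (nat_lit 0x166ed0) (nat_lit 0x73c15447ce920e) (nat_lit 0x0)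
  (PL.C (nat_lit 0x167937) (nat_lit 0x0) (nat_lit 0x1b65ec8df58bf0)
  (PL.C (nat_lit 0x1691ca) (nat_lit 0x0) (nat_lit 0x39ff59ed83008cb) gp1_0_27))))))))))))))))))))

noncomputable def gp1_0_25 : PL :=
  (PL.C (nat_lit 0x13a778) (nat_lit 0x27a78e5a9b9a374) (nat_lit 0x0)
  (PL.C (nat_lit 0x13be28) (nat_lit 0x0) (nat_lit 0xf113097d7c956fe)
  (PL.C (nat_lit 0x13c5b8) (nat_lit 0x2d2370397e8c295) (nat_lit 0x0)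
  (PL.C (nat_lit 0x13cbc6) (nat_lit 0x0) (nat_lit 0x37f671df36b273)
  (PL.C (nat_lit 0x13cde2) (nat_lit 0x4816bfde2dea2bb) (nat_lit 0x0)
  (PL.C (nat_lit 0x13d2c8) (nat_lit 0x0) (nat_lit 0xed7ee644adc31a)
  (PL.C (nat_lit 0x13d8da) (nat_lit 0x0) (nat_lit 0x1344d254265ccdb)
  (PL.C (nat_lit 0x13db34) (nat_lit 0x0) (nat_lit 0x1fc1b7d564524ee2)
  (PL.C (nat_lit 0x13f2b8) (nat_lit 0x0) (nat_lit 0x1cbcf4c5d3a4d6a)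
  (PL.C (nat_lit 0x1419d2) (nat_lit 0x0) (nat_lit 0x978068d0caedb)
  (PL.C (nat_lit 0x143106) (nat_lit 0x0) (nat_lit 0x1c474dd2aec91388)
  (PL.C (nat_lit 0x1438c2) (nat_lit 0x0) (nat_lit 0x71ba916ebea3411)
  (PL.C (nat_lit 0x14461e) (nat_lit 0x22366c30f3bdd61) (nat_lit 0x0)
  (PL.C (nat_lit 0x144ebb) (nat_lit 0x24cc7f4b0a9fd757) (nat_lit 0x0)
  (PL.C (nat_lit 0x147e3a) (nat_lit 0x0) (nat_lit 0x13e5dc4cae6ade4c)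
  (PL.C (nat_lit 0x14a458) (nat_lit 0x412316baaa6e5e4) (nat_lit 0x0)
  (PL.C (nat_lit 0x14a816) (nat_lit 0x0) (nat_lit 0x676a309dc7866c0)
  (PL.C (nat_lit 0x14b6f0) (nat_lit 0x11e22b6b3cc9972) (nat_lit 0x0)
  (PL.C (nat_lit 0x151404) (nat_lit 0x1665c861e4ca9f3b) (nat_lit 0x0)
  (PL.C (nat_lit 0x153218) (nat_lit 0x0) (nat_lit 0x82c6c328b589dc8) gp1_0_26))))))))))))))))))))

noncomputable def gp1_0_24 : PL :=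
  (PL.C (nat_lit 0x128cd0) (nat_lit 0x1d580b7a279b28b) (nat_lit 0x0)
  (PL.C (nat_lit 0x12a0f8) (nat_lit 0x1c0e3c1425df4ab) (nat_lit 0x0)
  (PL.C (nat_lit 0x12a7fa) (nat_lit 0x0) (nat_lit 0x3395c7f6b548715e)
  (PL.C (nat_lit 0x12af30) (nat_lit 0x0) (nat_lit 0x4e24af5e078cc7)
  (PL.C (nat_lit 0x12b7cc) (nat_lit 0x0) (nat_lit 0x904eb05f708b70)
  (PL.C (nat_lit 0x12ba88) (nat_lit 0x0) (nat_lit 0x3331bb224f124d1)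
  (PL.C (nat_lit 0x12d356) (nat_lit 0x5412c74b7ca00c) (nat_lit 0x0)
  (PL.C (nat_lit 0x12e364) (nat_lit 0x0) (nat_lit 0x8f2a54151f0f666)
  (PL.C (nat_lit 0x12e810) (nat_lit 0x11bd6a559179d20) (nat_lit 0x0)
  (PL.C (nat_lit 0x12f2f0) (nat_lit 0x1f9ed6dd4117f18) (nat_lit 0x0)
  (PL.C (nat_lit 0x12fe58) (nat_lit 0x0) (nat_lit 0x3265902f4177f51)
  (PL.C (nat_lit 0x12ffa2) (nat_lit 0xe9d3282d2b90413) (nat_lit 0x0)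
  (PL.C (nat_lit 0x1351bf) (nat_lit 0x22558d1c51e0282) (nat_lit 0x0)
  (PL.C (nat_lit 0x135b28) (nat_lit 0x1753e5a07c41634) (nat_lit 0x0)
  (PL.C (nat_lit 0x135d38) (nat_lit 0x0) (nat_lit 0x30c5873594e2ebb)
  (PL.C (nat_lit 0x136326) (nat_lit 0x0) (nat_lit 0x221a00e41afa64c)
  (PL.C (nat_lit 0x1364d8) (nat_lit 0x2fbd5f9b6ed7c5) (nat_lit 0x0)
  (PL.C (nat_lit 0x136cda) (nat_lit 0x2d1d845bb51a299) (nat_lit 0x0)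
  (PL.C (nat_lit 0x1371a8) (nat_lit 0x429192a98e77f46) (nat_lit 0x0)
  (PL.C (nat_lit 0x138b94) (nat_lit 0x4b0b29d965f8073) (nat_lit 0x0) gp1_0_25))))))))))))))))))))

noncomputable def gp1_0_23 : PL :=
  (PL.C (nat_lit 0x114ca2) (nat_lit 0x0) (nat_lit 0x14949eebc74b9f4c)
  (PL.C (nat_lit 0x114fe7) (nat_lit 0x0) (nat_lit 0xbc729dec8c87c9)
  (PL.C (nat_lit 0x116232) (nat_lit 0x329204b368b5a95) (nat_lit 0x0)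
  (PL.C (nat_lit 0x116dae) (nat_lit 0x15390ae7f391897) (nat_lit 0x0)
  (PL.C (nat_lit 0x1180bc) (nat_lit 0x0) (nat_lit 0x67de3770a408a9a)
  (PL.C (nat_lit 0x118e18) (nat_lit 0x0) (nat_lit 0x234a089d594f6ca)
  (PL.C (nat_lit 0x119dea) (nat_lit 0x0) (nat_lit 0x1379bbcefe1b3e8)
  (PL.C (nat_lit 0x11a7ec) (nat_lit 0x32148bb4078508d) (nat_lit 0x0)
  (PL.C (nat_lit 0x11cb14) (nat_lit 0x0) (nat_lit 0x5c8ba8ba54255bc)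
  (PL.C (nat_lit 0x11db88) (nat_lit 0x0) (nat_lit 0x15816d81e18f7099)
  (PL.C (nat_lit 0x11e478) (nat_lit 0xc4e8c15d00cc36a) (nat_lit 0x0)
  (PL.C (nat_lit 0x11f2c8) (nat_lit 0x0) (nat_lit 0x234a089d594f6ca)
  (PL.C (nat_lit 0x123aad) (nat_lit 0x2d2c100ec91a040) (nat_lit 0x0)
  (PL.C (nat_lit 0x123dd8) (nat_lit 0x0) (nat_lit 0x2991d119670e754c)
  (PL.C (nat_lit 0x12436e) (nat_lit 0x7ce191558c09b1b) (nat_lit 0x0)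
  (PL.C (nat_lit 0x124c92) (nat_lit 0x0) (nat_lit 0xbd4a842f134d24b)
  (PL.C (nat_lit 0x125598) (nat_lit 0xaae94a862b0844b) (nat_lit 0x0)
  (PL.C (nat_lit 0x126513) (nat_lit 0x676cf1771c5d03) (nat_lit 0x0)
  (PL.C (nat_lit 0x126984) (nat_lit 0x0) (nat_lit 0x490692e8e23be725)
  (PL.C (nat_lit 0x1277f0) (nat_lit 0xc25471bb4d0e1dc) (nat_lit 0x0) gp1_0_24))))))))))))))))))))

noncomputable def gp1_0_22 : PL :=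
  (PL.C (nat_lit 0xff98d) (nat_lit 0x6a4bbb8f02cd61) (nat_lit 0x0)
  (PL.C (nat_lit 0x100210) (nat_lit 0x0) (nat_lit 0x2b77ca63d27fed)
  (PL.C (nat_lit 0x1009aa) (nat_lit 0x6d0993c22110ac50) (nat_lit 0x0)
  (PL.C (nat_lit 0x1021f0) (nat_lit 0x3938986efdabc19) (nat_lit 0x0)
  (PL.C (nat_lit 0x104efb) (nat_lit 0x29bad1a7198b7874) (nat_lit 0x0)
  (PL.C (nat_lit 0x1061b8) (nat_lit 0xb9b5b374a7753eb) (nat_lit 0x0)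
  (PL.C (nat_lit 0x107ea8) (nat_lit 0x0) (nat_lit 0x2ef0be53d6fa14)
  (PL.C (nat_lit 0x109758) (nat_lit 0x0) (nat_lit 0x365716fbd96609c)
  (PL.C (nat_lit 0x10a578) (nat_lit 0x29fa0a3d23cfcc9) (nat_lit 0x0)
  (PL.C (nat_lit 0x10bbe8) (nat_lit 0x493b585c6c2aa21) (nat_lit 0x0)
  (PL.C (nat_lit 0x10c304) (nat_lit 0x18b374c966c0408f) (nat_lit 0x0)
  (PL.C (nat_lit 0x10d976) (nat_lit 0x3091962cda58e97e) (nat_lit 0x0)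
  (PL.C (nat_lit 0x10e670) (nat_lit 0x720523f35fe25) (nat_lit 0x0)
  (PL.C (nat_lit 0x10ea38) (nat_lit 0x48572aac20d5ec9) (nat_lit 0x0)
  (PL.C (nat_lit 0x10ef66) (nat_lit 0x0) (nat_lit 0x309b0e033f709d7)
  (PL.C (nat_lit 0x10f890) (nat_lit 0x1d580b7a279b28b) (nat_lit 0x0)
  (PL.C (nat_lit 0x110652) (nat_lit 0xaaa8994844b8f78) (nat_lit 0x0)
  (PL.C (nat_lit 0x110a88) (nat_lit 0x0) (nat_lit 0x7f9881d54e13b52)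
  (PL.C (nat_lit 0x111188) (nat_lit 0x7a2e60a79bccd3) (nat_lit 0x0)
  (PL.C (nat_lit 0x1148c4) (nat_lit 0x13b646fdba2d030) (nat_lit 0x0) gp1_0_23))))))))))))))))))))

noncomputable def gp1_0_21 : PL :=
  (PL.C (nat_lit 0xe8a78) (nat_lit 0x5c56db9e0f56e03) (nat_lit 0x0)
  (PL.C (nat_lit 0xeb212) (nat_lit 0x0) (nat_lit 0x1344d254265ccdb)
  (PL.C (nat_lit 0xebbcc) (nat_lit 0x0) (nat_lit 0x2448990cc51f6af0)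
  (PL.C (nat_lit 0xec04f) (nat_lit 0x29bad1a7198b7874) (nat_lit 0x0)
  (PL.C (nat_lit 0xec7b1) (nat_lit 0x0) (nat_lit 0x46c68eaf56e0f03)
  (PL.C (nat_lit 0xedf12) (nat_lit 0x41a45638d78ac9f4) (nat_lit 0x0)
  (PL.C (nat_lit 0xeeab8) (nat_lit 0x0) (nat_lit 0x36d9526f8df563e)
  (PL.C (nat_lit 0xefb7a) (nat_lit 0x0) (nat_lit 0x309b0e033f709d7)
  (PL.C (nat_lit 0xf0bdc) (nat_lit 0x0) (nat_lit 0x6ed2c70197af530)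
  (PL.C (nat_lit 0xf1185) (nat_lit 0x0) (nat_lit 0x2de2e77c0f6f2d81)
  (PL.C (nat_lit 0xf1758) (nat_lit 0x0) (nat_lit 0x835346bd0a236d)
  (PL.C (nat_lit 0xf3b38) (nat_lit 0x0) (nat_lit 0x1cbcf4c5d3a4d6a)
  (PL.C (nat_lit 0xf4182) (nat_lit 0x1283da90e2e797e8) (nat_lit 0x0)
  (PL.C (nat_lit 0xf4548) (nat_lit 0x11a8776befee6fe) (nat_lit 0x0)
  (PL.C (nat_lit 0xf74fa) (nat_lit 0x0) (nat_lit 0x642d81a39833d7e)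
  (PL.C (nat_lit 0xf7850) (nat_lit 0x11e22b6b3cc9972) (nat_lit 0x0)
  (PL.C (nat_lit 0xfc2d8) (nat_lit 0x5987f24f9969925) (nat_lit 0x0)
  (PL.C (nat_lit 0xfc95a) (nat_lit 0x0) (nat_lit 0x104de72545c901ed)
  (PL.C (nat_lit 0xff234) (nat_lit 0x19f30d4b8dfd6d81) (nat_lit 0x0)
  (PL.C (nat_lit 0xff250) (nat_lit 0x3fe14bb09b61a4) (nat_lit 0x0) gp1_0_22))))))))))))))))))))

noncomputable def gp1_0_20 : PL :=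
  (PL.C (nat_lit 0xd7604) (nat_lit 0x0) (nat_lit 0x1a2ac64f62133da6)
  (PL.C (nat_lit 0xd7b2c) (nat_lit 0x0) (nat_lit 0x2489d3d425139d2)
  (PL.C (nat_lit 0xd80bd) (nat_lit 0x4d8b45c499bb620) (nat_lit 0x0)
  (PL.C (nat_lit 0xd8414) (nat_lit 0x0) (nat_lit 0x316f458b85b3ded)
  (PL.C (nat_lit 0xd89d2) (nat_lit 0xe9d3282d2b90413) (nat_lit 0x0)
  (PL.C (nat_lit 0xd9bf3) (nat_lit 0x0) (nat_lit 0x22762238391c1b20)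
  (PL.C (nat_lit 0xda97c) (nat_lit 0x0) (nat_lit 0x1792bc0fcc24d814)
  (PL.C (nat_lit 0xdadab) (nat_lit 0x0) (nat_lit 0x1c344df571f2539)
  (PL.C (nat_lit 0xdc564) (nat_lit 0x4c006604f21c85a) (nat_lit 0x0)
  (PL.C (nat_lit 0xdf8f9) (nat_lit 0x1a40538de9c41fa1) (nat_lit 0x0)
  (PL.C (nat_lit 0xe0d58) (nat_lit 0x2fa76b67e4714410) (nat_lit 0x0)
  (PL.C (nat_lit 0xe230e) (nat_lit 0x6f404010222827d) (nat_lit 0x0)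
  (PL.C (nat_lit 0xe4430) (nat_lit 0x720523f35fe25) (nat_lit 0x0)
  (PL.C (nat_lit 0xe4a14) (nat_lit 0x0) (nat_lit 0x82397d2e989fb37)
  (PL.C (nat_lit 0xe5e78) (nat_lit 0xb9b5b374a7753eb) (nat_lit 0x0)
  (PL.C (nat_lit 0xe5f1a) (nat_lit 0x70f39112cb7e4ff) (nat_lit 0x0)
  (PL.C (nat_lit 0xe62a8) (nat_lit 0x725f725da295550) (nat_lit 0x0)
  (PL.C (nat_lit 0xe6c64) (nat_lit 0x0) (nat_lit 0x1c7f701c82efcbda)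
  (PL.C (nat_lit 0xe739c) (nat_lit 0x166875eb5fff5e18) (nat_lit 0x0)
  (PL.C (nat_lit 0xe7bdc) (nat_lit 0x0) (nat_lit 0x4228495f1789f80) gp1_0_21))))))))))))))))))))

noncomputable def gp1_0_19 : PL :=
  (PL.C (nat_lit 0xc9798) (nat_lit 0x0) (nat_lit 0x36d9526f8df563e)
  (PL.C (nat_lit 0xca990) (nat_lit 0x11bd6a559179d20) (nat_lit 0x0)
  (PL.C (nat_lit 0xcaa6c) (nat_lit 0x0) (nat_lit 0x61adb7c5d9365c4d)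
  (PL.C (nat_lit 0xcb859) (nat_lit 0x15087fc83ffcf5af) (nat_lit 0x0)
  (PL.C (nat_lit 0xce12a) (nat_lit 0x318b2f9ede1bc74) (nat_lit 0x0)
  (PL.C (nat_lit 0xce770) (nat_lit 0x0) (nat_lit 0x4e24af5e078cc7)
  (PL.C (nat_lit 0xce8d0) (nat_lit 0x308ec1cdcb3b0a7) (nat_lit 0x0)
  (PL.C (nat_lit 0xcecc4) (nat_lit 0x0) (nat_lit 0x82397d2e989fb37)
  (PL.C (nat_lit 0xcf33c) (nat_lit 0x2df8952e7e01933) (nat_lit 0x0)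
  (PL.C (nat_lit 0xcf41d) (nat_lit 0x2a34bf9e9c22a284) (nat_lit 0x0)
  (PL.C (nat_lit 0xcf670) (nat_lit 0x27ced379d08f042) (nat_lit 0x0)
  (PL.C (nat_lit 0xd07b8) (nat_lit 0x0) (nat_lit 0x118d96bfe241b9a7)
  (PL.C (nat_lit 0xd1a50) (nat_lit 0x707f4e1ddbcac60) (nat_lit 0x0)
  (PL.C (nat_lit 0xd2970) (nat_lit 0x0) (nat_lit 0x58b936b435fa031)
  (PL.C (nat_lit 0xd3284) (nat_lit 0x0) (nat_lit 0x1caaa519ae188dd)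
  (PL.C (nat_lit 0xd33ec) (nat_lit 0xed03ad955bade1a) (nat_lit 0x0)
  (PL.C (nat_lit 0xd3730) (nat_lit 0x0) (nat_lit 0x1c9152ebc48da68)
  (PL.C (nat_lit 0xd37f7) (nat_lit 0x0) (nat_lit 0xbc729dec8c87c9)
  (PL.C (nat_lit 0xd3b3c) (nat_lit 0x0) (nat_lit 0x11c754fe83bdd6e)
  (PL.C (nat_lit 0xd668c) (nat_lit 0x0) (nat_lit 0x4847846997ac85d) gp1_0_20))))))))))))))))))))

noncomputable def gp1_0_18 : PL :=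
  (PL.C (nat_lit 0xbb410) (nat_lit 0x0) (nat_lit 0x16865b5d2f2c970)
  (PL.C (nat_lit 0xbbe9c) (nat_lit 0x0) (nat_lit 0x25cdacac9e2bcb9a)
  (PL.C (nat_lit 0xbc548) (nat_lit 0x5987f24f9969925) (nat_lit 0x0)
  (PL.C (nat_lit 0xbdcb8) (nat_lit 0xf6ab80f1313e71) (nat_lit 0x0)
  (PL.C (nat_lit 0xbe7b0) (nat_lit 0x6da0706325fd75) (nat_lit 0x0)
  (PL.C (nat_lit 0xbf730) (nat_lit 0x0) (nat_lit 0x16865b5d2f2c970)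
  (PL.C (nat_lit 0xc02f1) (nat_lit 0x0) (nat_lit 0xa8212924f325fdb)
  (PL.C (nat_lit 0xc271e) (nat_lit 0x5a7fe9499e5d402) (nat_lit 0x0)
  (PL.C (nat_lit 0xc2cf4) (nat_lit 0x215665820d4eb2fe) (nat_lit 0x0)
  (PL.C (nat_lit 0xc31fb) (nat_lit 0x327034037487dbc) (nat_lit 0x0)
  (PL.C (nat_lit 0xc330c) (nat_lit 0x0) (nat_lit 0x17cc97e7ff60f9b7)
  (PL.C (nat_lit 0xc3910) (nat_lit 0x0) (nat_lit 0x2b77ca63d27fed)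
  (PL.C (nat_lit 0xc4362) (nat_lit 0x0) (nat_lit 0x642d81a39833d7e)
  (PL.C (nat_lit 0xc4658) (nat_lit 0x0) (nat_lit 0xee6aa2b3d9f6a92)
  (PL.C (nat_lit 0xc5de0) (nat_lit 0x0) (nat_lit 0x5540cf8c25f0f5)
  (PL.C (nat_lit 0xc6b50) (nat_lit 0xa0d71e94a5624a) (nat_lit 0x0)
  (PL.C (nat_lit 0xc6ffc) (nat_lit 0x22381d26d33b123c) (nat_lit 0x0)
  (PL.C (nat_lit 0xc73cb) (nat_lit 0x0) (nat_lit 0x1f5d1531aba09ea)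
  (PL.C (nat_lit 0xc7a88) (nat_lit 0x36a522ef59afab) (nat_lit 0x0)
  (PL.C (nat_lit 0xc7c05) (nat_lit 0x259661f89c0667) (nat_lit 0x0) gp1_0_19))))))))))))))))))))

noncomputable def gp1_0_17 : PL :=
  (PL.C (nat_lit 0xaa65e) (nat_lit 0x0) (nat_lit 0x2f192bd8e177f8)
  (PL.C (nat_lit 0xaa71b) (nat_lit 0x78d7176b59c4430) (nat_lit 0x0)
  (PL.C (nat_lit 0xab11c) (nat_lit 0xd3d317f528bddbba) (nat_lit 0x0)
  (PL.C (nat_lit 0xadf52) (nat_lit 0xd7133fbe0a8bd15) (nat_lit 0x0)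
  (PL.C (nat_lit 0xaebd0) (nat_lit 0x6f4e5b2d6c6cf24) (nat_lit 0x0)
  (PL.C (nat_lit 0xaef51) (nat_lit 0x2a34bf9e9c22a284) (nat_lit 0x0)
  (PL.C (nat_lit 0xb0f90) (nat_lit 0x0) (nat_lit 0x4d8b7542c405da)
  (PL.C (nat_lit 0xb27f0) (nat_lit 0x77b5bf6c8c6ef8e) (nat_lit 0x0)
  (PL.C (nat_lit 0xb3ba4) (nat_lit 0x607f0c67b21ffd18) (nat_lit 0x0)
  (PL.C (nat_lit 0xb46d0) (nat_lit 0x1b1b0f12f0dff2f0) (nat_lit 0x0)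
  (PL.C (nat_lit 0xb4a44) (nat_lit 0x0) (nat_lit 0x203219984d47e77)
  (PL.C (nat_lit 0xb5060) (nat_lit 0x0) (nat_lit 0x5540cf8c25f0f5)
  (PL.C (nat_lit 0xb598c) (nat_lit 0x0) (nat_lit 0x1215e8cc3d7a1b30)
  (PL.C (nat_lit 0xb7cff) (nat_lit 0x0) (nat_lit 0x22762238391c1b20)
  (PL.C (nat_lit 0xb85d8) (nat_lit 0x2a8be48709e9c24) (nat_lit 0x0)
  (PL.C (nat_lit 0xb886c) (nat_lit 0x0) (nat_lit 0x5d4c919d0e52e3f)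
  (PL.C (nat_lit 0xb8a9a) (nat_lit 0x4ccd1f67b33bcc3) (nat_lit 0x0)
  (PL.C (nat_lit 0xb9b95) (nat_lit 0x0) (nat_lit 0x2bad415ad409297e)
  (PL.C (nat_lit 0xb9e74) (nat_lit 0x281572e5b0a0763) (nat_lit 0x0)
  (PL.C (nat_lit 0xbab28) (nat_lit 0x0) (nat_lit 0x7cbc10050d743da) gp1_0_18))))))))))))))))))))

noncomputable def gp1_0_16 : PL :=
  (PL.C (nat_lit 0x9a268) (nat_lit 0x8d00d55ebea1cea) (nat_lit 0x0)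
  (PL.C (nat_lit 0x9a7e8) (nat_lit 0x0) (nat_lit 0x7bb722a1df6a1f0)
  (PL.C (nat_lit 0x9cc0c) (nat_lit 0x0) (nat_lit 0x11c754fe83bdd6e)
  (PL.C (nat_lit 0x9d288) (nat_lit 0x0) (nat_lit 0x623788236c26e6a)
  (PL.C (nat_lit 0x9d58a) (nat_lit 0xd7133fbe0a8bd15) (nat_lit 0x0)
  (PL.C (nat_lit 0x9da76) (nat_lit 0x19419332586faa) (nat_lit 0x0)
  (PL.C (nat_lit 0x9e016) (nat_lit 0x466d5e0cb2d2260) (nat_lit 0x0)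
  (PL.C (nat_lit 0x9ea0c) (nat_lit 0x0) (nat_lit 0xe299df4e231dfd0)
  (PL.C (nat_lit 0x9f1d0) (nat_lit 0x148f34fadb9bc8b) (nat_lit 0x0)
  (PL.C (nat_lit 0x9fcfc) (nat_lit 0x0) (nat_lit 0x203219984d47e77)
  (PL.C (nat_lit 0xa000b) (nat_lit 0xd31003536c2901) (nat_lit 0x0)
  (PL.C (nat_lit 0xa07e8) (nat_lit 0x0) (nat_lit 0x145061ec49f1bf5)
  (PL.C (nat_lit 0xa0bae) (nat_lit 0x2147edee62acd94) (nat_lit 0x0)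
  (PL.C (nat_lit 0xa0f90) (nat_lit 0x0) (nat_lit 0x2462d198697689)
  (PL.C (nat_lit 0xa2bac) (nat_lit 0x142ad909aae466b4) (nat_lit 0x0)
  (PL.C (nat_lit 0xa2e30) (nat_lit 0x0) (nat_lit 0x3f524146ee3eda)
  (PL.C (nat_lit 0xa3719) (nat_lit 0x0) (nat_lit 0x1c344df571f2539)
  (PL.C (nat_lit 0xa4dfc) (nat_lit 0x0) (nat_lit 0xb8c9bc9e8ea31d3)
  (PL.C (nat_lit 0xa863c) (nat_lit 0x0) (nat_lit 0xfb31bd0bf22b5cf)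
  (PL.C (nat_lit 0xaa178) (nat_lit 0x29cae6dae2ab3029) (nat_lit 0x0) gp1_0_17))))))))))))))))))))

noncomputable def gp1_0_15 : PL :=
  (PL.C (nat_lit 0x8c811) (nat_lit 0xc43bbe937ae8417) (nat_lit 0x0)
  (PL.C (nat_lit 0x8cc58) (nat_lit 0x0) (nat_lit 0x835346bd0a236d)
  (PL.C (nat_lit 0x8cd48) (nat_lit 0x0) (nat_lit 0xa8e421acf7b49dd)
  (PL.C (nat_lit 0x8cffa) (nat_lit 0x4ccd1f67b33bcc3) (nat_lit 0x0)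
  (PL.C (nat_lit 0x8d228) (nat_lit 0x1a6c716aa1e21c1) (nat_lit 0x0)
  (PL.C (nat_lit 0x8ef08) (nat_lit 0x0) (nat_lit 0x1cdce714a1af662)
  (PL.C (nat_lit 0x8f958) (nat_lit 0x0) (nat_lit 0x1a4a8c102c963817)
  (PL.C (nat_lit 0x8fcc8) (nat_lit 0x412316baaa6e5e4) (nat_lit 0x0)
  (PL.C (nat_lit 0x9007e) (nat_lit 0x0) (nat_lit 0x4734f4c30cb05de)
  (PL.C (nat_lit 0x902b8) (nat_lit 0x13116fd1667d896) (nat_lit 0x0)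
  (PL.C (nat_lit 0x9068c) (nat_lit 0x0) (nat_lit 0x61adb7c5d9365c4d)
  (PL.C (nat_lit 0x912a2) (nat_lit 0x0) (nat_lit 0x689cb7766e27411b)
  (PL.C (nat_lit 0x91ba8) (nat_lit 0x0) (nat_lit 0x2cc9bd8a0704c89a)
  (PL.C (nat_lit 0x91e72) (nat_lit 0x0) (nat_lit 0x644dfee23d27fce)
  (PL.C (nat_lit 0x950a6) (nat_lit 0x0) (nat_lit 0x2f7cfd3476bb9aee)
  (PL.C (nat_lit 0x96cb4) (nat_lit 0x9c78a243bfc214c) (nat_lit 0x0)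
  (PL.C (nat_lit 0x986b8) (nat_lit 0x0) (nat_lit 0xc39bc9684eb17b8)
  (PL.C (nat_lit 0x99450) (nat_lit 0x6f4e5b2d6c6cf24) (nat_lit 0x0)
  (PL.C (nat_lit 0x994bc) (nat_lit 0x0) (nat_lit 0x12c12fe3a717e19a)
  (PL.C (nat_lit 0x99d98) (nat_lit 0x0) (nat_lit 0x18a2a1d934cb0691) gp1_0_16))))))))))))))))))))

noncomputable def gp1_0_14 : PL :=
  (PL.C (nat_lit 0x7fa20) (nat_lit 0x679f095a5b5165) (nat_lit 0x0)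
  (PL.C (nat_lit 0x801f6) (nat_lit 0x4cd19f65faf84c64) (nat_lit 0x0)
  (PL.C (nat_lit 0x81a14) (nat_lit 0x0) (nat_lit 0xa5c5d9347dfcae)
  (PL.C (nat_lit 0x81df8) (nat_lit 0x22cc51bcf1121807) (nat_lit 0x0)
  (PL.C (nat_lit 0x82152) (nat_lit 0x3406902ab744b0) (nat_lit 0x0)
  (PL.C (nat_lit 0x82208) (nat_lit 0x0) (nat_lit 0x7f9881d54e13b52)
  (PL.C (nat_lit 0x82cec) (nat_lit 0x0) (nat_lit 0xb8c9bc9e8ea31d3)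
  (PL.C (nat_lit 0x84aa8) (nat_lit 0x2d75270cde35d27) (nat_lit 0x0)
  (PL.C (nat_lit 0x84d32) (nat_lit 0x0) (nat_lit 0xd75e6a76305d62)
  (PL.C (nat_lit 0x851b0) (nat_lit 0x3fe14bb09b61a4) (nat_lit 0x0)
  (PL.C (nat_lit 0x852ae) (nat_lit 0x448b9ea77bafee3) (nat_lit 0x0)
  (PL.C (nat_lit 0x85c7d) (nat_lit 0x259661f89c0667) (nat_lit 0x0)
  (PL.C (nat_lit 0x86510) (nat_lit 0x148f34fadb9bc8b) (nat_lit 0x0)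
  (PL.C (nat_lit 0x87ae6) (nat_lit 0x0) (nat_lit 0x9f3a75a67a757f6)
  (PL.C (nat_lit 0x88641) (nat_lit 0x78d7176b59c4430) (nat_lit 0x0)
  (PL.C (nat_lit 0x8961c) (nat_lit 0x0) (nat_lit 0x159bea01cf8327c5)
  (PL.C (nat_lit 0x89dd8) (nat_lit 0x0) (nat_lit 0xc39bc9684eb17b8)
  (PL.C (nat_lit 0x8a228) (nat_lit 0x11a8776befee6fe) (nat_lit 0x0)
  (PL.C (nat_lit 0x8a2be) (nat_lit 0x40c02d60823063d) (nat_lit 0x0)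
  (PL.C (nat_lit 0x8afd0) (nat_lit 0x0) (nat_lit 0xbc176500f690406) gp1_0_15))))))))))))))))))))

noncomputable def gp1_0_13 : PL :=
  (PL.C (nat_lit 0x70428) (nat_lit 0x0) (nat_lit 0x763c832079e49c3)
  (PL.C (nat_lit 0x71650) (nat_lit 0x0) (nat_lit 0x80b79a44f664c01)
  (PL.C (nat_lit 0x71994) (nat_lit 0x0) (nat_lit 0x2241c7718a55181)
  (PL.C (nat_lit 0x71a12) (nat_lit 0x45c54f9ee729759) (nat_lit 0x0)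
  (PL.C (nat_lit 0x73f8c) (nat_lit 0x0) (nat_lit 0x97a78a4d72f94a1)
  (PL.C (nat_lit 0x742e3) (nat_lit 0x2d2c100ec91a040) (nat_lit 0x0)
  (PL.C (nat_lit 0x747e0) (nat_lit 0x0) (nat_lit 0xf5f4a274703e41)
  (PL.C (nat_lit 0x74a36) (nat_lit 0x40c02d60823063d) (nat_lit 0x0)
  (PL.C (nat_lit 0x753f9) (nat_lit 0x0) (nat_lit 0x17730f98b597d7d9)
  (PL.C (nat_lit 0x77d18) (nat_lit 0x502172a7a4cce92a) (nat_lit 0x0)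
  (PL.C (nat_lit 0x786d8) (nat_lit 0x0) (nat_lit 0x699b8b5ae37ae4b)
  (PL.C (nat_lit 0x79108) (nat_lit 0x0) (nat_lit 0x6ff5e42dd45826a)
  (PL.C (nat_lit 0x7a8aa) (nat_lit 0x0) (nat_lit 0x689cb7766e27411b)
  (PL.C (nat_lit 0x7ae90) (nat_lit 0x0) (nat_lit 0xbba47adc7928ea)
  (PL.C (nat_lit 0x7b048) (nat_lit 0x0) (nat_lit 0x1015c6c4ea6a6c2e)
  (PL.C (nat_lit 0x7b1bc) (nat_lit 0xac972a219d1cc3b) (nat_lit 0x0)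
  (PL.C (nat_lit 0x7bd0e) (nat_lit 0x195d98392909b128) (nat_lit 0x0)
  (PL.C (nat_lit 0x7c770) (nat_lit 0x0) (nat_lit 0x6f8e0b9eeb1d1de)
  (PL.C (nat_lit 0x7cd60) (nat_lit 0x679f095a5b5165) (nat_lit 0x0)
  (PL.C (nat_lit 0x7d468) (nat_lit 0x0) (nat_lit 0x816cc301fdeaec9) gp1_0_14))))))))))))))))))))

noncomputable def gp1_0_12 : PL :=
  (PL.C (nat_lit 0x662e0) (nat_lit 0x0) (nat_lit 0xf5f4a274703e41)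
  (PL.C (nat_lit 0x66328) (nat_lit 0x0) (nat_lit 0x6ff5e42dd45826a)
  (PL.C (nat_lit 0x66910) (nat_lit 0x0) (nat_lit 0xbf37777b37ed361)
  (PL.C (nat_lit 0x66ff0) (nat_lit 0x0) (nat_lit 0x6f8e0b9eeb1d1de)
  (PL.C (nat_lit 0x68808) (nat_lit 0x1a6c716aa1e21c1) (nat_lit 0x0)
  (PL.C (nat_lit 0x68e5c) (nat_lit 0x0) (nat_lit 0x97a78a4d72f94a1)
  (PL.C (nat_lit 0x69111) (nat_lit 0x0) (nat_lit 0x8a7a60447503400)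
  (PL.C (nat_lit 0x691a4) (nat_lit 0x1a6aeb37310f48f) (nat_lit 0x0)
  (PL.C (nat_lit 0x69564) (nat_lit 0x828d4a12acb0e74) (nat_lit 0x0)
  (PL.C (nat_lit 0x69c08) (nat_lit 0x277628354205379) (nat_lit 0x0)
  (PL.C (nat_lit 0x6a8a8) (nat_lit 0x0) (nat_lit 0x699b8b5ae37ae4b)
  (PL.C (nat_lit 0x6aab2) (nat_lit 0x23558e1b93a3424) (nat_lit 0x0)
  (PL.C (nat_lit 0x6aff0) (nat_lit 0x4186e9929359d0) (nat_lit 0x0)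
  (PL.C (nat_lit 0x6b274) (nat_lit 0x0) (nat_lit 0x18104709b9ec10ce)
  (PL.C (nat_lit 0x6b481) (nat_lit 0xc43bbe937ae8417) (nat_lit 0x0)
  (PL.C (nat_lit 0x6b8ef) (nat_lit 0x1fdb9db8242be5b) (nat_lit 0x0)
  (PL.C (nat_lit 0x6c7c8) (nat_lit 0xd2f6f72679267fc) (nat_lit 0x0)
  (PL.C (nat_lit 0x6cf66) (nat_lit 0x0) (nat_lit 0x644dfee23d27fce)
  (PL.C (nat_lit 0x6d96b) (nat_lit 0x0) (nat_lit 0xa8212924f325fdb)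
  (PL.C (nat_lit 0x6dea8) (nat_lit 0x0) (nat_lit 0x120e3f85d6b12e64) gp1_0_13))))))))))))))))))))

noncomputable def gp1_0_11 : PL :=
  (PL.C (nat_lit 0x5bc71) (nat_lit 0x8b1d5c13ed2f03) (nat_lit 0x0)
  (PL.C (nat_lit 0x5be90) (nat_lit 0x0) (nat_lit 0x7ed80b081c3d6b0)
  (PL.C (nat_lit 0x5c170) (nat_lit 0x0) (nat_lit 0x3f524146ee3eda)
  (PL.C (nat_lit 0x5dab6) (nat_lit 0xedb4015698e2f19) (nat_lit 0x0)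
  (PL.C (nat_lit 0x5dd90) (nat_lit 0x0) (nat_lit 0x2462d198697689)
  (PL.C (nat_lit 0x5de30) (nat_lit 0x0) (nat_lit 0xbc176500f690406)
  (PL.C (nat_lit 0x5dffc) (nat_lit 0xac972a219d1cc3b) (nat_lit 0x0)
  (PL.C (nat_lit 0x5e170) (nat_lit 0x2c3706199541276) (nat_lit 0x0)
  (PL.C (nat_lit 0x5e353) (nat_lit 0x5c7688d647a68c7e) (nat_lit 0x0)
  (PL.C (nat_lit 0x5f4b0) (nat_lit 0x25b21f3b126cc02) (nat_lit 0x0)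
  (PL.C (nat_lit 0x5fb90) (nat_lit 0x0) (nat_lit 0xbf37777b37ed361)
  (PL.C (nat_lit 0x60054) (nat_lit 0x0) (nat_lit 0xd006cc7d30e9d2b)
  (PL.C (nat_lit 0x601d0) (nat_lit 0x25b21f3b126cc02) (nat_lit 0x0)
  (PL.C (nat_lit 0x60c6c) (nat_lit 0x0) (nat_lit 0x9f8baf69dc2ed771)
  (PL.C (nat_lit 0x61270) (nat_lit 0x0) (nat_lit 0x113a7805a047454)
  (PL.C (nat_lit 0x6144c) (nat_lit 0x0) (nat_lit 0x6af8adf58dd51c5)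
  (PL.C (nat_lit 0x62f9d) (nat_lit 0xd153be5defdc7c54) (nat_lit 0x0)
  (PL.C (nat_lit 0x635c4) (nat_lit 0x0) (nat_lit 0x322d6101a31ae007)
  (PL.C (nat_lit 0x64878) (nat_lit 0xbc6c70bc7cedab3) (nat_lit 0x0)
  (PL.C (nat_lit 0x659d0) (nat_lit 0x0) (nat_lit 0x7ed80b081c3d6b0) gp1_0_12))))))))))))))))))))

noncomputable def gp1_0_10 : PL :=
  (PL.C (nat_lit 0x4fe10) (nat_lit 0x2062d178cf1b047c) (nat_lit 0x0)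
  (PL.C (nat_lit 0x50490) (nat_lit 0x0) (nat_lit 0x363ecd740a8971a)
  (PL.C (nat_lit 0x51b1c) (nat_lit 0x0) (nat_lit 0x9f8baf69dc2ed771)
  (PL.C (nat_lit 0x52030) (nat_lit 0x0) (nat_lit 0x113a7805a047454)
  (PL.C (nat_lit 0x52128) (nat_lit 0xc3c15cf5626cdbb) (nat_lit 0x0)
  (PL.C (nat_lit 0x528b4) (nat_lit 0x1496eaf2b05f6d7a) (nat_lit 0x0)
  (PL.C (nat_lit 0x52fa0) (nat_lit 0x0) (nat_lit 0x47a5a7c0a5535f6)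
  (PL.C (nat_lit 0x538d1) (nat_lit 0x0) (nat_lit 0x17730f98b597d7d9)
  (PL.C (nat_lit 0x556a4) (nat_lit 0x2612f503f033998c) (nat_lit 0x0)
  (PL.C (nat_lit 0x566b8) (nat_lit 0x2c861ffcb4f5dc4) (nat_lit 0x0)
  (PL.C (nat_lit 0x56950) (nat_lit 0x0) (nat_lit 0x80b79a44f664c01)
  (PL.C (nat_lit 0x56b8c) (nat_lit 0x26ecffefb417f23e) (nat_lit 0x0)
  (PL.C (nat_lit 0x57348) (nat_lit 0x0) (nat_lit 0x120e3f85d6b12e64)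
  (PL.C (nat_lit 0x588cc) (nat_lit 0x0) (nat_lit 0xc8906b983375d75)
  (PL.C (nat_lit 0x58b15) (nat_lit 0x0) (nat_lit 0x8a7a60447503400)
  (PL.C (nat_lit 0x58c74) (nat_lit 0x294eed9c28c00c5) (nat_lit 0x0)
  (PL.C (nat_lit 0x592fe) (nat_lit 0x448b9ea77bafee3) (nat_lit 0x0)
  (PL.C (nat_lit 0x5a744) (nat_lit 0x0) (nat_lit 0x23c57b464ffb3668)
  (PL.C (nat_lit 0x5aed6) (nat_lit 0x45c54f9ee729759) (nat_lit 0x0)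
  (PL.C (nat_lit 0x5b968) (nat_lit 0x0) (nat_lit 0x1666e6c9a2b265a) gp1_0_11))))))))))))))))))))

noncomputable def gp1_0_9 : PL :=
  (PL.C (nat_lit 0x44aa0) (nat_lit 0x0) (nat_lit 0x47a5a7c0a5535f6)
  (PL.C (nat_lit 0x45ab0) (nat_lit 0x2c3706199541276) (nat_lit 0x0)
  (PL.C (nat_lit 0x45ee8) (nat_lit 0x89698c5d174ecd6) (nat_lit 0x0)
  (PL.C (nat_lit 0x460b6) (nat_lit 0x0) (nat_lit 0x2c30b334b5f96cec)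
  (PL.C (nat_lit 0x46398) (nat_lit 0xbc6c70bc7cedab3) (nat_lit 0x0)
  (PL.C (nat_lit 0x47070) (nat_lit 0x0) (nat_lit 0x363ecd740a8971a)
  (PL.C (nat_lit 0x471cc) (nat_lit 0xe2d39a911a4527e) (nat_lit 0x0)
  (PL.C (nat_lit 0x476f8) (nat_lit 0x277628354205379) (nat_lit 0x0)
  (PL.C (nat_lit 0x47856) (nat_lit 0xedb4015698e2f19) (nat_lit 0x0)
  (PL.C (nat_lit 0x47b4a) (nat_lit 0x7a5050d52eee0b4) (nat_lit 0x0)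
  (PL.C (nat_lit 0x48530) (nat_lit 0xa279088e0ed5541) (nat_lit 0x0)
  (PL.C (nat_lit 0x48a44) (nat_lit 0x0) (nat_lit 0x6af8adf58dd51c5)
  (PL.C (nat_lit 0x490f2) (nat_lit 0x4cd19f65faf84c64) (nat_lit 0x0)
  (PL.C (nat_lit 0x49470) (nat_lit 0x0) (nat_lit 0xd3c26c42e8d2099)
  (PL.C (nat_lit 0x4ad70) (nat_lit 0x3f919dd7aac73e4) (nat_lit 0x0)
  (PL.C (nat_lit 0x4bbb8) (nat_lit 0x0) (nat_lit 0x61baf600f716a3)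
  (PL.C (nat_lit 0x4bc0c) (nat_lit 0x24eee6d147132bd8) (nat_lit 0x0)
  (PL.C (nat_lit 0x4d508) (nat_lit 0x89698c5d174ecd6) (nat_lit 0x0)
  (PL.C (nat_lit 0x4d742) (nat_lit 0x5a7fe9499e5d402) (nat_lit 0x0)
  (PL.C (nat_lit 0x4e2a6) (nat_lit 0x0) (nat_lit 0x6fa11f4a10d9f20) gp1_0_10))))))))))))))))))))

noncomputable def gp1_0_8 : PL :=
  (PL.C (nat_lit 0x3b754) (nat_lit 0x294eed9c28c00c5) (nat_lit 0x0)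
  (PL.C (nat_lit 0x3c4d8) (nat_lit 0x0) (nat_lit 0x816cc301fdeaec9)
  (PL.C (nat_lit 0x3c9e4) (nat_lit 0x24eee6d147132bd8) (nat_lit 0x0)
  (PL.C (nat_lit 0x3cb0d) (nat_lit 0x0) (nat_lit 0x37b43e54e8f6c7)
  (PL.C (nat_lit 0x3ccf3) (nat_lit 0x1fdb9db8242be5b) (nat_lit 0x0)
  (PL.C (nat_lit 0x3d0f0) (nat_lit 0x0) (nat_lit 0x45af01945be8967)
  (PL.C (nat_lit 0x3d2f6) (nat_lit 0x0) (nat_lit 0x21086463cd69de29)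
  (PL.C (nat_lit 0x3d460) (nat_lit 0x1261c0881fc8330) (nat_lit 0x0)
  (PL.C (nat_lit 0x3dfef) (nat_lit 0x8b1d5c13ed2f03) (nat_lit 0x0)
  (PL.C (nat_lit 0x3e724) (nat_lit 0x268c714b5a81fbfe) (nat_lit 0x0)
  (PL.C (nat_lit 0x3eaa8) (nat_lit 0xc3c15cf5626cdbb) (nat_lit 0x0)
  (PL.C (nat_lit 0x3eba0) (nat_lit 0x0) (nat_lit 0x2fe9ad66e49373)
  (PL.C (nat_lit 0x40038) (nat_lit 0x0) (nat_lit 0x763c832079e49c3)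
  (PL.C (nat_lit 0x40848) (nat_lit 0x0) (nat_lit 0x44cd46669f165678)
  (PL.C (nat_lit 0x40d88) (nat_lit 0x89e1e2bdf98a8df) (nat_lit 0x0)
  (PL.C (nat_lit 0x41fbe) (nat_lit 0x106dc47db9d66a4e2) (nat_lit 0x0)
  (PL.C (nat_lit 0x423d8) (nat_lit 0x0) (nat_lit 0x2118681b9cbd2c7a)
  (PL.C (nat_lit 0x43050) (nat_lit 0x9b9e6b8b2acad0c) (nat_lit 0x0)
  (PL.C (nat_lit 0x43191) (nat_lit 0x0) (nat_lit 0x37b43e54e8f6c7)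
  (PL.C (nat_lit 0x43be0) (nat_lit 0x1261c0881fc8330) (nat_lit 0x0) gp1_0_9))))))))))))))))))))

noncomputable def gp1_0_7 : PL :=
  (PL.C (nat_lit 0x2fcdc) (nat_lit 0x2973a47b82a3c50) (nat_lit 0x0)
  (PL.C (nat_lit 0x306d8) (nat_lit 0x89e1e2bdf98a8df) (nat_lit 0x0)
  (PL.C (nat_lit 0x30b4c) (nat_lit 0x2612f503f033998c) (nat_lit 0x0)
  (PL.C (nat_lit 0x30da0) (nat_lit 0x0) (nat_lit 0xeb7ec326cafe35e)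
  (PL.C (nat_lit 0x316b3) (nat_lit 0x16abc626126b4223) (nat_lit 0x0)
  (PL.C (nat_lit 0x327d0) (nat_lit 0x4186e9929359d0) (nat_lit 0x0)
  (PL.C (nat_lit 0x32808) (nat_lit 0x2e7be41f293a5dcd) (nat_lit 0x0)
  (PL.C (nat_lit 0x338b0) (nat_lit 0x0) (nat_lit 0x42a7d1fe71ecd0b)
  (PL.C (nat_lit 0x33a2c) (nat_lit 0x0) (nat_lit 0xa5c5d9347dfcae)
  (PL.C (nat_lit 0x341c4) (nat_lit 0x0) (nat_lit 0x413018119838ec21)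
  (PL.C (nat_lit 0x354b7) (nat_lit 0x687721d88a83ce7b) (nat_lit 0x0)
  (PL.C (nat_lit 0x35860) (nat_lit 0x2fb8f730a29c831) (nat_lit 0x0)
  (PL.C (nat_lit 0x36768) (nat_lit 0x0) (nat_lit 0x44cd46669f165678)
  (PL.C (nat_lit 0x36b70) (nat_lit 0x523770d0fabf7ed) (nat_lit 0x0)
  (PL.C (nat_lit 0x37b36) (nat_lit 0x0) (nat_lit 0x6fa11f4a10d9f20)
  (PL.C (nat_lit 0x39d08) (nat_lit 0x67b4d93dc87c27a) (nat_lit 0x0)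
  (PL.C (nat_lit 0x3a230) (nat_lit 0x0) (nat_lit 0xd3c26c42e8d2099)
  (PL.C (nat_lit 0x3b088) (nat_lit 0x0) (nat_lit 0x1666e6c9a2b265a)
  (PL.C (nat_lit 0x3b20e) (nat_lit 0x0) (nat_lit 0x2c30b334b5f96cec)
  (PL.C (nat_lit 0x3b2f8) (nat_lit 0xf5c031abb03b67a) (nat_lit 0x0) gp1_0_8))))))))))))))))))))

noncomputable def gp1_0_6 : PL :=
  (PL.C (nat_lit 0x288a2) (nat_lit 0x7a5050d52eee0b4) (nat_lit 0x0)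
  (PL.C (nat_lit 0x28ca4) (nat_lit 0x0) (nat_lit 0x370b10bdbe23d54f)
  (PL.C (nat_lit 0x2954a) (nat_lit 0x0) (nat_lit 0x21086463cd69de29)
  (PL.C (nat_lit 0x29a18) (nat_lit 0x1743ba00a91bd60f) (nat_lit 0x0)
  (PL.C (nat_lit 0x29c70) (nat_lit 0x523770d0fabf7ed) (nat_lit 0x0)
  (PL.C (nat_lit 0x2aad0) (nat_lit 0x3f919dd7aac73e4) (nat_lit 0x0)
  (PL.C (nat_lit 0x2b030) (nat_lit 0x0) (nat_lit 0x3e34860ee619c0e8)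
  (PL.C (nat_lit 0x2b3b0) (nat_lit 0x3d05599257f96b9) (nat_lit 0x0)
  (PL.C (nat_lit 0x2bfd4) (nat_lit 0x0) (nat_lit 0x10daddecaa1fc7ee)
  (PL.C (nat_lit 0x2c290) (nat_lit 0x12e7ba0fc5f8fb24) (nat_lit 0x0)
  (PL.C (nat_lit 0x2cbb6) (nat_lit 0x0) (nat_lit 0xce15c52e1850cc8)
  (PL.C (nat_lit 0x2cfd3) (nat_lit 0x687721d88a83ce7b) (nat_lit 0x0)
  (PL.C (nat_lit 0x2e720) (nat_lit 0x0) (nat_lit 0x2fe9ad66e49373)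
  (PL.C (nat_lit 0x2e9f0) (nat_lit 0x0) (nat_lit 0x42a7d1fe71ecd0b)
  (PL.C (nat_lit 0x2eb24) (nat_lit 0x0) (nat_lit 0x3385be5cdc1ab284)
  (PL.C (nat_lit 0x2ed10) (nat_lit 0x9b9e6b8b2acad0c) (nat_lit 0x0)
  (PL.C (nat_lit 0x2f5a0) (nat_lit 0x2fb8f730a29c831) (nat_lit 0x0)
  (PL.C (nat_lit 0x2f688) (nat_lit 0x17747d9a6e941cfa) (nat_lit 0x0)
  (PL.C (nat_lit 0x2fae4) (nat_lit 0x268c714b5a81fbfe) (nat_lit 0x0)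
  (PL.C (nat_lit 0x2fc1f) (nat_lit 0x3b4392b4790e9316) (nat_lit 0x0) gp1_0_7))))))))))))))))))))

noncomputable def gp1_0_5 : PL :=
  (PL.C (nat_lit 0x1fd6a) (nat_lit 0x21ca24ed7418a038) (nat_lit 0x0)
  (PL.C (nat_lit 0x1fde8) (nat_lit 0x279a16fd1623d38) (nat_lit 0x0)
  (PL.C (nat_lit 0x20490) (nat_lit 0x3d05599257f96b9) (nat_lit 0x0)
  (PL.C (nat_lit 0x20f22) (nat_lit 0x0) (nat_lit 0x4e03c45b7fc69c4)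
  (PL.C (nat_lit 0x21ab0) (nat_lit 0x136c32f3be0f8497) (nat_lit 0x0)
  (PL.C (nat_lit 0x226c8) (nat_lit 0x2c861ffcb4f5dc4) (nat_lit 0x0)
  (PL.C (nat_lit 0x22bd8) (nat_lit 0x0) (nat_lit 0x126bf68f9fb51de9)
  (PL.C (nat_lit 0x2387a) (nat_lit 0xa6a4a2bd2abf188a) (nat_lit 0x0)
  (PL.C (nat_lit 0x24213) (nat_lit 0x0) (nat_lit 0xdfc5745aa0703a)
  (PL.C (nat_lit 0x244f0) (nat_lit 0x0) (nat_lit 0x3e34860ee619c0e8)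
  (PL.C (nat_lit 0x247a0) (nat_lit 0x0) (nat_lit 0x14b742ba900c9e5)
  (PL.C (nat_lit 0x25224) (nat_lit 0x0) (nat_lit 0x413018119838ec21)
  (PL.C (nat_lit 0x268b0) (nat_lit 0x2e43bcaca1d0861c) (nat_lit 0x0)
  (PL.C (nat_lit 0x26c20) (nat_lit 0x0) (nat_lit 0xeb7ec326cafe35e)
  (PL.C (nat_lit 0x275b0) (nat_lit 0x0) (nat_lit 0x45af01945be8967)
  (PL.C (nat_lit 0x276b4) (nat_lit 0x0) (nat_lit 0x3385be5cdc1ab284)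
  (PL.C (nat_lit 0x27750) (nat_lit 0x234ff5335564aa6a) (nat_lit 0x0)
  (PL.C (nat_lit 0x27a38) (nat_lit 0xf5c031abb03b67a) (nat_lit 0x0)
  (PL.C (nat_lit 0x28698) (nat_lit 0x2e7be41f293a5dcd) (nat_lit 0x0)
  (PL.C (nat_lit 0x2875e) (nat_lit 0x0) (nat_lit 0xce15c52e1850cc8) gp1_0_6))))))))))))))))))))

noncomputable def gp1_0_4 : PL :=
  (PL.C (nat_lit 0x19737) (nat_lit 0x1c9a89f34b52a7e5) (nat_lit 0x0)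
  (PL.C (nat_lit 0x19b20) (nat_lit 0x187b4516577c641c) (nat_lit 0x0)
  (PL.C (nat_lit 0x1a478) (nat_lit 0x0) (nat_lit 0x24a169da251c09c3)
  (PL.C (nat_lit 0x1a4e0) (nat_lit 0x0) (nat_lit 0x15e2c43ef07c064)
  (PL.C (nat_lit 0x1a6d0) (nat_lit 0x234ff5335564aa6a) (nat_lit 0x0)
  (PL.C (nat_lit 0x1af10) (nat_lit 0x136c32f3be0f8497) (nat_lit 0x0)
  (PL.C (nat_lit 0x1af94) (nat_lit 0x0) (nat_lit 0x19c4bf11cba7ea19)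
  (PL.C (nat_lit 0x1b06c) (nat_lit 0x2973a47b82a3c50) (nat_lit 0x0)
  (PL.C (nat_lit 0x1b318) (nat_lit 0x0) (nat_lit 0x4998ab0ea87d64e7)
  (PL.C (nat_lit 0x1b8dc) (nat_lit 0x0) (nat_lit 0x370b10bdbe23d54f)
  (PL.C (nat_lit 0x1b963) (nat_lit 0x0) (nat_lit 0xdfc5745aa0703a)
  (PL.C (nat_lit 0x1bda0) (nat_lit 0x0) (nat_lit 0x14b742ba900c9e5)
  (PL.C (nat_lit 0x1c2e1) (nat_lit 0x16abc626126b4223) (nat_lit 0x0)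
  (PL.C (nat_lit 0x1cd20) (nat_lit 0x0) (nat_lit 0x1b616b77e95f81d)
  (PL.C (nat_lit 0x1d538) (nat_lit 0x8d58f271dcd0a504) (nat_lit 0x0)
  (PL.C (nat_lit 0x1dd24) (nat_lit 0x0) (nat_lit 0x19c4bf11cba7ea19)
  (PL.C (nat_lit 0x1dfe2) (nat_lit 0xa6a4a2bd2abf188a) (nat_lit 0x0)
  (PL.C (nat_lit 0x1f218) (nat_lit 0x0) (nat_lit 0x24a169da251c09c3)
  (PL.C (nat_lit 0x1f9b0) (nat_lit 0xc81f74ec343228d) (nat_lit 0x0)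
  (PL.C (nat_lit 0x1fc98) (nat_lit 0x1743ba00a91bd60f) (nat_lit 0x0) gp1_0_5))))))))))))))))))))

noncomputable def gp1_0_3 : PL :=
  (PL.C (nat_lit 0x12048) (nat_lit 0x279a16fd1623d38) (nat_lit 0x0)
  (PL.C (nat_lit 0x12210) (nat_lit 0x5beab17d598adc7) (nat_lit 0x0)
  (PL.C (nat_lit 0x125e8) (nat_lit 0x0) (nat_lit 0x4998ab0ea87d64e7)
  (PL.C (nat_lit 0x12642) (nat_lit 0xc7dac91cb3579c9) (nat_lit 0x0)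
  (PL.C (nat_lit 0x12c96) (nat_lit 0x0) (nat_lit 0x4e03c45b7fc69c4)
  (PL.C (nat_lit 0x138d0) (nat_lit 0x0) (nat_lit 0x12775be4186cc7a4)
  (PL.C (nat_lit 0x13e18) (nat_lit 0x0) (nat_lit 0x1b0a113ac9d4aa36)
  (PL.C (nat_lit 0x13fec) (nat_lit 0x85cbe81fe512ee1) (nat_lit 0x0)
  (PL.C (nat_lit 0x14c10) (nat_lit 0x0) (nat_lit 0x276e2ce8dd8aa3af)
  (PL.C (nat_lit 0x15120) (nat_lit 0x0) (nat_lit 0x3c927bf686360e2)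
  (PL.C (nat_lit 0x1539c) (nat_lit 0xc1bc0ffce7aad22) (nat_lit 0x0)
  (PL.C (nat_lit 0x153f0) (nat_lit 0x4254b25629257b6) (nat_lit 0x0)
  (PL.C (nat_lit 0x15860) (nat_lit 0x0) (nat_lit 0x1b616b77e95f81d)
  (PL.C (nat_lit 0x15f6c) (nat_lit 0x0) (nat_lit 0x192fb42bea380bfd)
  (PL.C (nat_lit 0x16720) (nat_lit 0x81311c66409f6c8) (nat_lit 0x0)
  (PL.C (nat_lit 0x17290) (nat_lit 0x0) (nat_lit 0x8db067065fa0f20)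
  (PL.C (nat_lit 0x17afc) (nat_lit 0x85cbe81fe512ee1) (nat_lit 0x0)
  (PL.C (nat_lit 0x18162) (nat_lit 0xc7dac91cb3579c9) (nat_lit 0x0)
  (PL.C (nat_lit 0x18399) (nat_lit 0x81c54ef21ad300) (nat_lit 0x0)
  (PL.C (nat_lit 0x18c18) (nat_lit 0x0) (nat_lit 0x126bf68f9fb51de9) gp1_0_4))))))))))))))))))))

noncomputable def gp1_0_2 : PL :=
  (PL.C (nat_lit 0xc160) (nat_lit 0x0) (nat_lit 0x1367da2499517b60)
  (PL.C (nat_lit 0xc3f0) (nat_lit 0x5beab17d598adc7) (nat_lit 0x0)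
  (PL.C (nat_lit 0xc42c) (nat_lit 0xa9d219ae92b8234) (nat_lit 0x0)
  (PL.C (nat_lit 0xc864) (nat_lit 0x0) (nat_lit 0x192fb42bea380bfd)
  (PL.C (nat_lit 0xd410) (nat_lit 0x0) (nat_lit 0x1d993b53c8287307)
  (PL.C (nat_lit 0xd548) (nat_lit 0xad9d362788a721c) (nat_lit 0x0)
  (PL.C (nat_lit 0xdb45) (nat_lit 0x0) (nat_lit 0x135c106e66044d17)
  (PL.C (nat_lit 0xdd60) (nat_lit 0x0) (nat_lit 0xe68b3d683fcffe0)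
  (PL.C (nat_lit 0xe0c0) (nat_lit 0xe71c949f1a5128) (nat_lit 0x0)
  (PL.C (nat_lit 0xe268) (nat_lit 0x0) (nat_lit 0x147dda33838fd280)
  (PL.C (nat_lit 0xea48) (nat_lit 0x0) (nat_lit 0xc55f37b074678a8)
  (PL.C (nat_lit 0xfca8) (nat_lit 0xad9d362788a721c) (nat_lit 0x0)
  (PL.C (nat_lit 0x100ec) (nat_lit 0xa9d219ae92b8234) (nat_lit 0x0)
  (PL.C (nat_lit 0x10266) (nat_lit 0xb23e6854d304bd5c) (nat_lit 0x0)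
  (PL.C (nat_lit 0x10810) (nat_lit 0x0) (nat_lit 0x8db067065fa0f20)
  (PL.C (nat_lit 0x10f7a) (nat_lit 0x1f9b9f33e1f3643c) (nat_lit 0x0)
  (PL.C (nat_lit 0x11850) (nat_lit 0x0) (nat_lit 0x276e2ce8dd8aa3af)
  (PL.C (nat_lit 0x119e0) (nat_lit 0x0) (nat_lit 0x15e2c43ef07c064)
  (PL.C (nat_lit 0x11f60) (nat_lit 0x81311c66409f6c8) (nat_lit 0x0)
  (PL.C (nat_lit 0x11fb8) (nat_lit 0x0) (nat_lit 0x1b0a113ac9d4aa36) gp1_0_3))))))))))))))))))))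

noncomputable def gp1_0_1 : PL :=
  (PL.C (nat_lit 0x6174) (nat_lit 0x0) (nat_lit 0x852fc0bdac3b923f)
  (PL.C (nat_lit 0x63ab) (nat_lit 0x7313935a33adcfc3) (nat_lit 0x0)
  (PL.C (nat_lit 0x7230) (nat_lit 0x2a2778ecc2720920) (nat_lit 0x0)
  (PL.C (nat_lit 0x78a8) (nat_lit 0x539cdf118a26a30e) (nat_lit 0x0)
  (PL.C (nat_lit 0x7b66) (nat_lit 0x0) (nat_lit 0x39b11a398a9bfeac)
  (PL.C (nat_lit 0x7fe0) (nat_lit 0x0) (nat_lit 0x1be806b9a0b0a39f)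
  (PL.C (nat_lit 0x82a0) (nat_lit 0x0) (nat_lit 0x1367da2499517b60)
  (PL.C (nat_lit 0x82c8) (nat_lit 0x226cf9f2c81be837) (nat_lit 0x0)
  (PL.C (nat_lit 0x8598) (nat_lit 0x0) (nat_lit 0xc55f37b074678a8)
  (PL.C (nat_lit 0x8d60) (nat_lit 0x0) (nat_lit 0x1be806b9a0b0a39f)
  (PL.C (nat_lit 0x922e) (nat_lit 0x0) (nat_lit 0x39b11a398a9bfeac)
  (PL.C (nat_lit 0x96f0) (nat_lit 0x177935029c50cd8c) (nat_lit 0x0)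
  (PL.C (nat_lit 0x9c30) (nat_lit 0x3083abee51cec22c) (nat_lit 0x0)
  (PL.C (nat_lit 0xab48) (nat_lit 0x226cf9f2c81be837) (nat_lit 0x0)
  (PL.C (nat_lit 0xac44) (nat_lit 0x4d2be89df6436ac8) (nat_lit 0x0)
  (PL.C (nat_lit 0xb4fc) (nat_lit 0x5f121231ee940f44) (nat_lit 0x0)
  (PL.C (nat_lit 0xb919) (nat_lit 0x0) (nat_lit 0x135c106e66044d17)
  (PL.C (nat_lit 0xbae0) (nat_lit 0x0) (nat_lit 0xe68b3d683fcffe0)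
  (PL.C (nat_lit 0xbfd0) (nat_lit 0x0) (nat_lit 0x1d993b53c8287307)
  (PL.C (nat_lit 0xc030) (nat_lit 0x4254b25629257b6) (nat_lit 0x0) gp1_0_2))))))))))))))))))))

noncomputable def gp1_0 : PL :=
  (PL.C (nat_lit 0x13b0) (nat_lit 0xc0548522e3f41aa4) (nat_lit 0x0)
  (PL.C (nat_lit 0x1860) (nat_lit 0x0) (nat_lit 0x4ee972916aba9ea8)
  (PL.C (nat_lit 0x1ce0) (nat_lit 0x0) (nat_lit 0x4ee972916aba9ea8)
  (PL.C (nat_lit 0x1d88) (nat_lit 0x7637eed8b3e5feb8) (nat_lit 0x0)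
  (PL.C (nat_lit 0x23c0) (nat_lit 0x331e1a60c897b474) (nat_lit 0x0)
  (PL.C (nat_lit 0x2490) (nat_lit 0x0) (nat_lit 0x54a559bd431d6a42)
  (PL.C (nat_lit 0x2b50) (nat_lit 0x0) (nat_lit 0x54a559bd431d6a42)
  (PL.C (nat_lit 0x2c4c) (nat_lit 0xec21402e5b7b3ea1) (nat_lit 0x0)
  (PL.C (nat_lit 0x35a0) (nat_lit 0x1e9a539fbc28bb6c) (nat_lit 0x0)
  (PL.C (nat_lit 0x36d8) (nat_lit 0x0) (nat_lit 0x8bf3d8eba0fad8a5)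
  (PL.C (nat_lit 0x3a20) (nat_lit 0x0) (nat_lit 0x48236fc82d0881c)
  (PL.C (nat_lit 0x40f8) (nat_lit 0x0) (nat_lit 0x8bf3d8eba0fad8a5)
  (PL.C (nat_lit 0x4272) (nat_lit 0x9883460ac18e1edc) (nat_lit 0x0)
  (PL.C (nat_lit 0x4c20) (nat_lit 0x0) (nat_lit 0x48236fc82d0881c)
  (PL.C (nat_lit 0x5070) (nat_lit 0xa8592323a9e5183f) (nat_lit 0x0)
  (PL.C (nat_lit 0x5244) (nat_lit 0x0) (nat_lit 0x852fc0bdac3b923f)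
  (PL.C (nat_lit 0x5540) (nat_lit 0x4e2f5df2c4b19e8) (nat_lit 0x0)
  (PL.C (nat_lit 0x5730) (nat_lit 0x2a2778ecc2720920) (nat_lit 0x0)
  (PL.C (nat_lit 0x5910) (nat_lit 0x3083abee51cec22c) (nat_lit 0x0)
  (PL.C (nat_lit 0x5e40) (nat_lit 0x4e2f5df2c4b19e8) (nat_lit 0x0) gp1_0_1))))))))))))))))))))

theorem chk1_0 : eqP (sm (pre (nat_lit 64) (grl (nat_lit 78) (nat_lit 33) (nat_lit 18889465931478580854784) (nat_lit 4) us1 cs1))) gp1_0 = true := by decide +kernel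


end Pool.Agent.Work.MP_440970_an.FX.D1
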