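import Pool.Agent.Work.MP_440970_an.Bdx.B01
import Pool.Agent.Work.MP_440970_an.FX.D1.U1

/-!
# parts of the squares
-/

set_option autoImplicit false
set_option maxRecDepth 1000000

namespace Pool.Agent.Work.MP_440970_an.FX.D1

noncomputable def gp1_1_233 : PL :=
  (PL.C (nat_lit 0x5ef127693) (nat_lit 0xf34dce20fd22) (nat_lit 0x0)
  (PL.C (nat_lit 0x66206f579) (nat_lit 0x0) (nat_lit 0x38daa0e15c3fd)
  (PL.C (nat_lit 0x67017e9ff) (nat_lit 0x0) (nat_lit 0x13d9dca829ba7)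
  (PL.C (nat_lit 0x70529c2c3) (nat_lit 0x0) (nat_lit 0x36442d3a01b2)
  (PL.C (nat_lit 0x70db51411) (nat_lit 0x53ea98eb2646a) (nat_lit 0x0)
  (PL.C (nat_lit 0x87bc4a05b) (nat_lit 0x2bf045fd7cd) (nat_lit 0x0)
  (PL.C (nat_lit 0x8f34f386b) (nat_lit 0x0) (nat_lit 0x17c9a92220ec)
  (PL.C (nat_lit 0x90708a5fd) (nat_lit 0x0) (nat_lit 0x10c8aabb3b6d)
  (PL.C (nat_lit 0x9417cd981) (nat_lit 0x0) (nat_lit 0x10c8aabb3b6d)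
  (PL.C (nat_lit 0x955e28fb7) (nat_lit 0x0) (nat_lit 0x17c9a92220ec)
  (PL.C (nat_lit 0xa3a7082d9) (nat_lit 0x559ad17bd8bc) (nat_lit 0x0)
  (PL.C (nat_lit 0xaef5c3eaf) (nat_lit 0x559ad17bd8bc) (nat_lit 0x0)
  (PL.C (nat_lit 0xfdb5395e7) (nat_lit 0x1ed97c20c45f) (nat_lit 0x0) PL.Z)))))))))))))

noncomputable def gp1_1_232 : PL :=
  (PL.C (nat_lit 0x4220f7fd3) (nat_lit 0x0) (nat_lit 0xecb57b932ef73)
  (PL.C (nat_lit 0x425d38a89) (nat_lit 0x25e80d6ae6fe) (nat_lit 0x0)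
  (PL.C (nat_lit 0x44a0e265b) (nat_lit 0x25e80d6ae6fe) (nat_lit 0x0)
  (PL.C (nat_lit 0x460ffd33f) (nat_lit 0x0) (nat_lit 0x6d48d0a0f77)
  (PL.C (nat_lit 0x4873f48fd) (nat_lit 0x18afa6e37067e) (nat_lit 0x0)
  (PL.C (nat_lit 0x49169e031) (nat_lit 0x3ee4610b3974) (nat_lit 0x0)
  (PL.C (nat_lit 0x4d75864ab) (nat_lit 0x18afa6e37067e) (nat_lit 0x0)
  (PL.C (nat_lit 0x4e90cb93b) (nat_lit 0xf34dce20fd22) (nat_lit 0x0)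
  (PL.C (nat_lit 0x4f3b146ed) (nat_lit 0x0) (nat_lit 0x88462930ecd8)
  (PL.C (nat_lit 0x4fbe0c3e3) (nat_lit 0x1b0e40ab373e) (nat_lit 0x0)
  (PL.C (nat_lit 0x4fe9aedeb) (nat_lit 0x42ca3b79a69c) (nat_lit 0x0)
  (PL.C (nat_lit 0x501a18e41) (nat_lit 0x0) (nat_lit 0x6d48d0a0f77)
  (PL.C (nat_lit 0x506dc74c5) (nat_lit 0x0) (nat_lit 0x79f45bbf6ef)
  (PL.C (nat_lit 0x53978745d) (nat_lit 0x0) (nat_lit 0x29873c4beb207)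
  (PL.C (nat_lit 0x544fbe0fb) (nat_lit 0x19dfae5161a637) (nat_lit 0x0)
  (PL.C (nat_lit 0x55098aced) (nat_lit 0x0) (nat_lit 0x29873c4beb207)
  (PL.C (nat_lit 0x578e22965) (nat_lit 0x80d5d2cd01ab) (nat_lit 0x0)
  (PL.C (nat_lit 0x5c5fe2555) (nat_lit 0x0) (nat_lit 0x13d9dca829ba7)
  (PL.C (nat_lit 0x5cf2c57eb) (nat_lit 0x2bf045fd7cd) (nat_lit 0x0)
  (PL.C (nat_lit 0x5d2b73e43) (nat_lit 0x0) (nat_lit 0x38daa0e15c3fd) gp1_1_233))))))))))))))))))))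

noncomputable def gp1_1_231 : PL :=
  (PL.C (nat_lit 0x331f63fd9) (nat_lit 0x0) (nat_lit 0x75f6e038fdb5)
  (PL.C (nat_lit 0x338c14fd5) (nat_lit 0x0) (nat_lit 0x2aa3e51e58b31)
  (PL.C (nat_lit 0x3477175df) (nat_lit 0x42ca3b79a69c) (nat_lit 0x0)
  (PL.C (nat_lit 0x34eab5de9) (nat_lit 0x0) (nat_lit 0x88462930ecd8)
  (PL.C (nat_lit 0x362e06763) (nat_lit 0x4aab5f9cfb69b) (nat_lit 0x0)
  (PL.C (nat_lit 0x36fdc5ccb) (nat_lit 0x0) (nat_lit 0x2b8dfeb4007d9)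
  (PL.C (nat_lit 0x373d40439) (nat_lit 0x0) (nat_lit 0x2c30044f9ad86)
  (PL.C (nat_lit 0x376b453f5) (nat_lit 0xea3bfba0f47c) (nat_lit 0x0)
  (PL.C (nat_lit 0x3776f569d) (nat_lit 0x0) (nat_lit 0xa25ece0772e0)
  (PL.C (nat_lit 0x37e5662a3) (nat_lit 0x0) (nat_lit 0x7bedb4583a184)
  (PL.C (nat_lit 0x387a13cdb) (nat_lit 0x0) (nat_lit 0x26bd717e2de74)
  (PL.C (nat_lit 0x3c17eae07) (nat_lit 0x0) (nat_lit 0x48567e0d5475)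
  (PL.C (nat_lit 0x3c7b40669) (nat_lit 0xde6fbfd5fbc) (nat_lit 0x0)
  (PL.C (nat_lit 0x3d3ddd92d) (nat_lit 0x4aab5f9cfb69b) (nat_lit 0x0)
  (PL.C (nat_lit 0x3f66b3257) (nat_lit 0x0) (nat_lit 0xecb57b932ef73)
  (PL.C (nat_lit 0x3ff26b3b1) (nat_lit 0x0) (nat_lit 0x2fca5e1a27bb7)
  (PL.C (nat_lit 0x401929093) (nat_lit 0x80d5d2cd01ab) (nat_lit 0x0)
  (PL.C (nat_lit 0x4118119a5) (nat_lit 0x0) (nat_lit 0x79f45bbf6ef)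
  (PL.C (nat_lit 0x41907b845) (nat_lit 0x0) (nat_lit 0x2fca5e1a27bb7)
  (PL.C (nat_lit 0x41a784b73) (nat_lit 0x1b0e40ab373e) (nat_lit 0x0) gp1_1_232))))))))))))))))))))

noncomputable def gp1_1_230 : PL :=
  (PL.C (nat_lit 0x2b07acee1) (nat_lit 0x0) (nat_lit 0x73d2c30be76b)
  (PL.C (nat_lit 0x2b21bea23) (nat_lit 0x1ba479eda0559) (nat_lit 0x0)
  (PL.C (nat_lit 0x2c33f43fb) (nat_lit 0x0) (nat_lit 0x26bd717e2de74)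
  (PL.C (nat_lit 0x2c58c77ef) (nat_lit 0x0) (nat_lit 0x7bedb4583a184)
  (PL.C (nat_lit 0x2cba81f59) (nat_lit 0xea3bfba0f47c) (nat_lit 0x0)
  (PL.C (nat_lit 0x2d02d2af7) (nat_lit 0x1082a50feed07) (nat_lit 0x0)
  (PL.C (nat_lit 0x2d317b381) (nat_lit 0x0) (nat_lit 0x2c30044f9ad86)
  (PL.C (nat_lit 0x2d36c7e1d) (nat_lit 0x0) (nat_lit 0x59ec6bc7d1cd)
  (PL.C (nat_lit 0x2d6603e11) (nat_lit 0xab5393d2bdcb9) (nat_lit 0x0)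
  (PL.C (nat_lit 0x2d9a6b93b) (nat_lit 0xbb83df6825751) (nat_lit 0x0)
  (PL.C (nat_lit 0x2dc7d650b) (nat_lit 0x197a891f5fba) (nat_lit 0x0)
  (PL.C (nat_lit 0x2dca0faa7) (nat_lit 0x0) (nat_lit 0x847ce4860d1b)
  (PL.C (nat_lit 0x2ea5722dd) (nat_lit 0x370d46b94775) (nat_lit 0x0)
  (PL.C (nat_lit 0x2f0c3de7b) (nat_lit 0x1bee76b40bed0) (nat_lit 0x0)
  (PL.C (nat_lit 0x2f252650f) (nat_lit 0x56b8f12b1547) (nat_lit 0x0)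
  (PL.C (nat_lit 0x2f53b6b83) (nat_lit 0x10703b26902bc) (nat_lit 0x0)
  (PL.C (nat_lit 0x31ba5e80f) (nat_lit 0x1ab05ce9547ef5) (nat_lit 0x0)
  (PL.C (nat_lit 0x31f6e4915) (nat_lit 0x82d47b1d78a06) (nat_lit 0x0)
  (PL.C (nat_lit 0x330e46fcd) (nat_lit 0xde6fbfd5fbc) (nat_lit 0x0)
  (PL.C (nat_lit 0x331b74953) (nat_lit 0x10b9a62f8a89b) (nat_lit 0x0) gp1_1_231))))))))))))))))))))

noncomputable def gp1_1_229 : PL :=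
  (PL.C (nat_lit 0x25ff0ef13) (nat_lit 0x0) (nat_lit 0x847ce4860d1b)
  (PL.C (nat_lit 0x2652cac15) (nat_lit 0xab5393d2bdcb9) (nat_lit 0x0)
  (PL.C (nat_lit 0x26a73f183) (nat_lit 0x1082a50feed07) (nat_lit 0x0)
  (PL.C (nat_lit 0x26bcdac8f) (nat_lit 0x8f0b0612275f7) (nat_lit 0x0)
  (PL.C (nat_lit 0x26c3492b9) (nat_lit 0x8c9238d67d13) (nat_lit 0x0)
  (PL.C (nat_lit 0x27035c4d7) (nat_lit 0x0) (nat_lit 0x3470a84346371)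
  (PL.C (nat_lit 0x271238db9) (nat_lit 0x8f0b0612275f7) (nat_lit 0x0)
  (PL.C (nat_lit 0x272d33819) (nat_lit 0x197a891f5fba) (nat_lit 0x0)
  (PL.C (nat_lit 0x275af29f3) (nat_lit 0x0) (nat_lit 0xf7517692f25)
  (PL.C (nat_lit 0x28e57f269) (nat_lit 0xbb83df6825751) (nat_lit 0x0)
  (PL.C (nat_lit 0x292686fd7) (nat_lit 0x0) (nat_lit 0x48567e0d5475)
  (PL.C (nat_lit 0x293f9f18f) (nat_lit 0x0) (nat_lit 0x59ec6bc7d1cd)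
  (PL.C (nat_lit 0x29b56fb21) (nat_lit 0xbc16b9356e16) (nat_lit 0x0)
  (PL.C (nat_lit 0x29fd09c9b) (nat_lit 0x0) (nat_lit 0xa25ece0772e0)
  (PL.C (nat_lit 0x2a087c71f) (nat_lit 0xfb5c798eb23de) (nat_lit 0x0)
  (PL.C (nat_lit 0x2a3fce225) (nat_lit 0x3ee4610b3974) (nat_lit 0x0)
  (PL.C (nat_lit 0x2a5991c4d) (nat_lit 0x0) (nat_lit 0x2b8dfeb4007d9)
  (PL.C (nat_lit 0x2aa9a88a7) (nat_lit 0x0) (nat_lit 0xf71379688666)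
  (PL.C (nat_lit 0x2acec68b7) (nat_lit 0x10703b26902bc) (nat_lit 0x0)
  (PL.C (nat_lit 0x2adae7cad) (nat_lit 0x3fa00b81a80d4) (nat_lit 0x0) gp1_1_230))))))))))))))))))))

noncomputable def gp1_1_228 : PL :=
  (PL.C (nat_lit 0x205ba5db5) (nat_lit 0x0) (nat_lit 0x28a45f175d77f)
  (PL.C (nat_lit 0x20eee3873) (nat_lit 0xbc16b9356e16) (nat_lit 0x0)
  (PL.C (nat_lit 0x20f9ed767) (nat_lit 0x0) (nat_lit 0x6e81ba8415c5)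
  (PL.C (nat_lit 0x22239b8a5) (nat_lit 0x0) (nat_lit 0x58fa8b0b2f271)
  (PL.C (nat_lit 0x224b03f97) (nat_lit 0x17c8d7cb1b6cb) (nat_lit 0x0)
  (PL.C (nat_lit 0x226ed7473) (nat_lit 0xefb951e39fdb) (nat_lit 0x0)
  (PL.C (nat_lit 0x22c86d267) (nat_lit 0xfb5c798eb23de) (nat_lit 0x0)
  (PL.C (nat_lit 0x23356b965) (nat_lit 0x0) (nat_lit 0x3470a84346371)
  (PL.C (nat_lit 0x234dcc5af) (nat_lit 0x0) (nat_lit 0x3a6d8326921f2)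
  (PL.C (nat_lit 0x23611ddd7) (nat_lit 0x0) (nat_lit 0x3d52fe0a4cdd6)
  (PL.C (nat_lit 0x23768d005) (nat_lit 0x0) (nat_lit 0x1b93d3dee9552)
  (PL.C (nat_lit 0x239b99399) (nat_lit 0x0) (nat_lit 0x341a84fb40be5)
  (PL.C (nat_lit 0x23b62dfd5) (nat_lit 0x0) (nat_lit 0x75f6e038fdb5)
  (PL.C (nat_lit 0x242e3dee7) (nat_lit 0x0) (nat_lit 0x2aa3e51e58b31)
  (PL.C (nat_lit 0x247df96a1) (nat_lit 0x10b9a62f8a89b) (nat_lit 0x0)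
  (PL.C (nat_lit 0x24b779dbf) (nat_lit 0x0) (nat_lit 0x31fa0466b3671)
  (PL.C (nat_lit 0x24f42b231) (nat_lit 0x18abd805e6c) (nat_lit 0x0)
  (PL.C (nat_lit 0x250218391) (nat_lit 0x0) (nat_lit 0x7952f7c9f46f8)
  (PL.C (nat_lit 0x2553a6927) (nat_lit 0x0) (nat_lit 0xa3905cb051c0e)
  (PL.C (nat_lit 0x25a5e8a61) (nat_lit 0x0) (nat_lit 0x7952f7c9f46f8) gp1_1_229))))))))))))))))))))

noncomputable def gp1_1_227 : PL :=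
  (PL.C (nat_lit 0x1d22b58fd) (nat_lit 0x56b8f12b1547) (nat_lit 0x0)
  (PL.C (nat_lit 0x1d46de55f) (nat_lit 0x166b86ab4734c) (nat_lit 0x0)
  (PL.C (nat_lit 0x1d618b36d) (nat_lit 0x0) (nat_lit 0x61e3b7dbd45ea)
  (PL.C (nat_lit 0x1d6690bf7) (nat_lit 0x338d53a7c5cae9) (nat_lit 0x0)
  (PL.C (nat_lit 0x1d87cc0b5) (nat_lit 0x0) (nat_lit 0x1e5c39fb77547)
  (PL.C (nat_lit 0x1d9d41183) (nat_lit 0x1bee76b40bed0) (nat_lit 0x0)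
  (PL.C (nat_lit 0x1dbe8510b) (nat_lit 0x0) (nat_lit 0x10b4246dafa8f5)
  (PL.C (nat_lit 0x1dcd4f6ab) (nat_lit 0xefb951e39fdb) (nat_lit 0x0)
  (PL.C (nat_lit 0x1dd74cabf) (nat_lit 0x0) (nat_lit 0x388c5509439a2)
  (PL.C (nat_lit 0x1dde84225) (nat_lit 0x370d46b94775) (nat_lit 0x0)
  (PL.C (nat_lit 0x1df9befb5) (nat_lit 0x145ff660308eaa) (nat_lit 0x0)
  (PL.C (nat_lit 0x1e0efc5bd) (nat_lit 0x0) (nat_lit 0x58fa8b0b2f271)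
  (PL.C (nat_lit 0x1e190fa09) (nat_lit 0x0) (nat_lit 0xff083489727ee)
  (PL.C (nat_lit 0x1e2a5f927) (nat_lit 0x18abd805e6c) (nat_lit 0x0)
  (PL.C (nat_lit 0x1e622cc07) (nat_lit 0x0) (nat_lit 0x61e3b7dbd45ea)
  (PL.C (nat_lit 0x1e691e5b1) (nat_lit 0x0) (nat_lit 0x655d9a1e9d945)
  (PL.C (nat_lit 0x1e85398b2) (nat_lit 0x109caddc513b) (nat_lit 0x0)
  (PL.C (nat_lit 0x1f04b377b) (nat_lit 0x0) (nat_lit 0x1b93d3dee9552)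
  (PL.C (nat_lit 0x1fd8b8e91) (nat_lit 0x1ba479eda0559) (nat_lit 0x0)
  (PL.C (nat_lit 0x2013a22b1) (nat_lit 0x17c8d7cb1b6cb) (nat_lit 0x0) gp1_1_228))))))))))))))))))))

noncomputable def gp1_1_226 : PL :=
  (PL.C (nat_lit 0x1962c5dcd) (nat_lit 0x2df312785f1b9) (nat_lit 0x0)
  (PL.C (nat_lit 0x197bd88a9) (nat_lit 0xbf10711a40f12) (nat_lit 0x0)
  (PL.C (nat_lit 0x19ab058e3) (nat_lit 0x3fa00b81a80d4) (nat_lit 0x0)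
  (PL.C (nat_lit 0x19ae96b97) (nat_lit 0x0) (nat_lit 0x6b7b1a720128a)
  (PL.C (nat_lit 0x1a1e22566) (nat_lit 0x109caddc513b) (nat_lit 0x0)
  (PL.C (nat_lit 0x1ab909ebd) (nat_lit 0x50263b04b9c4) (nat_lit 0x0)
  (PL.C (nat_lit 0x1ac6d06cd) (nat_lit 0x7b7fb5d7c34e8) (nat_lit 0x0)
  (PL.C (nat_lit 0x1ae76761f) (nat_lit 0x0) (nat_lit 0x1521e5a19bf605)
  (PL.C (nat_lit 0x1af3edb9b) (nat_lit 0x0) (nat_lit 0x6434a043d16)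
  (PL.C (nat_lit 0x1b0441f51) (nat_lit 0x0) (nat_lit 0x1e5c39fb77547)
  (PL.C (nat_lit 0x1b1cf97a1) (nat_lit 0x0) (nat_lit 0x1772412ddf382f)
  (PL.C (nat_lit 0x1b50b0949) (nat_lit 0x1dbba686e2297) (nat_lit 0x0)
  (PL.C (nat_lit 0x1b7dd7747) (nat_lit 0x0) (nat_lit 0x3de5ae0da2512)
  (PL.C (nat_lit 0x1b84f0019) (nat_lit 0x3cee44f71a480) (nat_lit 0x0)
  (PL.C (nat_lit 0x1ba4b4393) (nat_lit 0x116140e68952bc) (nat_lit 0x0)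
  (PL.C (nat_lit 0x1bc19525f) (nat_lit 0x9f658dc5ed992) (nat_lit 0x0)
  (PL.C (nat_lit 0x1c11ba4f3) (nat_lit 0x166b86ab4734c) (nat_lit 0x0)
  (PL.C (nat_lit 0x1c60bc91f) (nat_lit 0x8c9238d67d13) (nat_lit 0x0)
  (PL.C (nat_lit 0x1cd1973f9) (nat_lit 0x0) (nat_lit 0x341a84fb40be5)
  (PL.C (nat_lit 0x1d111977f) (nat_lit 0x0) (nat_lit 0x3a6d8326921f2) gp1_1_227))))))))))))))))))))

noncomputable def gp1_1_225 : PL :=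
  (PL.C (nat_lit 0x16f8e4995) (nat_lit 0x0) (nat_lit 0x610fb5a74c96c)
  (PL.C (nat_lit 0x1713691e7) (nat_lit 0x0) (nat_lit 0x47b2f03137cc3)
  (PL.C (nat_lit 0x172b84803) (nat_lit 0x0) (nat_lit 0x1e55d6b19fa6c)
  (PL.C (nat_lit 0x17398e089) (nat_lit 0x0) (nat_lit 0x8ff8f516a1b0)
  (PL.C (nat_lit 0x173a45c9b) (nat_lit 0x0) (nat_lit 0x3d52fe0a4cdd6)
  (PL.C (nat_lit 0x17af10901) (nat_lit 0x0) (nat_lit 0xf493e85896746)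
  (PL.C (nat_lit 0x17d90a9f1) (nat_lit 0x0) (nat_lit 0x73d2c30be76b)
  (PL.C (nat_lit 0x17fc9972f) (nat_lit 0x0) (nat_lit 0x1772412ddf382f)
  (PL.C (nat_lit 0x180d987c7) (nat_lit 0x0) (nat_lit 0xf71379688666)
  (PL.C (nat_lit 0x18502a0c5) (nat_lit 0x0) (nat_lit 0x31fa0466b3671)
  (PL.C (nat_lit 0x185893037) (nat_lit 0x0) (nat_lit 0x12235c92665ed)
  (PL.C (nat_lit 0x1874ad7dd) (nat_lit 0x0) (nat_lit 0x35eff9be4519dd)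
  (PL.C (nat_lit 0x18890d389) (nat_lit 0x0) (nat_lit 0xae84d1ed6d07e)
  (PL.C (nat_lit 0x188e39ed1) (nat_lit 0x3c5d66e2c3132e) (nat_lit 0x0)
  (PL.C (nat_lit 0x18a08e92d) (nat_lit 0x0) (nat_lit 0x6e81ba8415c5)
  (PL.C (nat_lit 0x18bf1ef6f) (nat_lit 0x12df75486f7615) (nat_lit 0x0)
  (PL.C (nat_lit 0x1900f1c87) (nat_lit 0x0) (nat_lit 0x17f2f04958f9e3)
  (PL.C (nat_lit 0x191e02677) (nat_lit 0x0) (nat_lit 0x109bdc42628180)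
  (PL.C (nat_lit 0x193b00c9d) (nat_lit 0x0) (nat_lit 0x1a8d6ce8a94ed4)
  (PL.C (nat_lit 0x19555c691) (nat_lit 0x24c4c469680f6) (nat_lit 0x0) gp1_1_226))))))))))))))))))))

noncomputable def gp1_1_224 : PL :=
  (PL.C (nat_lit 0x14d035aa9) (nat_lit 0x1afbab882c060) (nat_lit 0x0)
  (PL.C (nat_lit 0x14d447ca7) (nat_lit 0x4f0e3ac) (nat_lit 0x0)
  (PL.C (nat_lit 0x14dbd844d) (nat_lit 0x0) (nat_lit 0x82c58384631ca)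
  (PL.C (nat_lit 0x14df4ec8b) (nat_lit 0x0) (nat_lit 0x2774d87399a12)
  (PL.C (nat_lit 0x14f3ec3cf) (nat_lit 0x0) (nat_lit 0x1b79ecdf7bf74b)
  (PL.C (nat_lit 0x14f5b15a5) (nat_lit 0x0) (nat_lit 0x119a54845aed3)
  (PL.C (nat_lit 0x1509cfd8b) (nat_lit 0x0) (nat_lit 0x1c8e703b57afee)
  (PL.C (nat_lit 0x156e9c3e9) (nat_lit 0x30e87bbb8b0e3) (nat_lit 0x0)
  (PL.C (nat_lit 0x159dd740f) (nat_lit 0x0) (nat_lit 0x25031432dd136)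
  (PL.C (nat_lit 0x15b23aab3) (nat_lit 0x145ff660308eaa) (nat_lit 0x0)
  (PL.C (nat_lit 0x16056bd9b) (nat_lit 0x327659660c7735) (nat_lit 0x0)
  (PL.C (nat_lit 0x161d09d95) (nat_lit 0x0) (nat_lit 0x6434a043d16)
  (PL.C (nat_lit 0x161ed7529) (nat_lit 0x17ec27ed225295d) (nat_lit 0x0)
  (PL.C (nat_lit 0x162870125) (nat_lit 0x1dbba686e2297) (nat_lit 0x0)
  (PL.C (nat_lit 0x1635f334d) (nat_lit 0x132e2f9de2c8a0) (nat_lit 0x0)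
  (PL.C (nat_lit 0x164dc5403) (nat_lit 0x50263b04b9c4) (nat_lit 0x0)
  (PL.C (nat_lit 0x169a880c1) (nat_lit 0x7b7fb5d7c34e8) (nat_lit 0x0)
  (PL.C (nat_lit 0x16a21b9fd) (nat_lit 0x1ca97a793b49d3) (nat_lit 0x0)
  (PL.C (nat_lit 0x16b60acdb) (nat_lit 0x0) (nat_lit 0x1521e5a19bf605)
  (PL.C (nat_lit 0x16d23a6e9) (nat_lit 0x2fc659fe243818) (nat_lit 0x0) gp1_1_225))))))))))))))))))))

noncomputable def gp1_1_223 : PL :=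
  (PL.C (nat_lit 0x13a2272eb) (nat_lit 0x12df75486f7615) (nat_lit 0x0)
  (PL.C (nat_lit 0x13afdd5ce) (nat_lit 0x0) (nat_lit 0x7c9d641c3428)
  (PL.C (nat_lit 0x13c5419dd) (nat_lit 0x0) (nat_lit 0xbd68ac978edfa)
  (PL.C (nat_lit 0x13cd6b77d) (nat_lit 0x0) (nat_lit 0xae84d1ed6d07e)
  (PL.C (nat_lit 0x13ed6f813) (nat_lit 0x0) (nat_lit 0x2a1171f42a22ec)
  (PL.C (nat_lit 0x140217a45) (nat_lit 0x0) (nat_lit 0x35eff9be4519dd)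
  (PL.C (nat_lit 0x140470451) (nat_lit 0x0) (nat_lit 0x5467bdc808bdc1)
  (PL.C (nat_lit 0x14179d915) (nat_lit 0x0) (nat_lit 0x655d9a1e9d945)
  (PL.C (nat_lit 0x141959b15) (nat_lit 0x1ce5d508111ad) (nat_lit 0x0)
  (PL.C (nat_lit 0x14285aae1) (nat_lit 0x0) (nat_lit 0xff083489727ee)
  (PL.C (nat_lit 0x14308d267) (nat_lit 0x0) (nat_lit 0x58dd77098cab11)
  (PL.C (nat_lit 0x1444a8977) (nat_lit 0x0) (nat_lit 0x7c94cce16c36)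
  (PL.C (nat_lit 0x1445a4a83) (nat_lit 0x0) (nat_lit 0x1fe4964e1bcf45)
  (PL.C (nat_lit 0x1454c6b57) (nat_lit 0x0) (nat_lit 0x388c5509439a2)
  (PL.C (nat_lit 0x1475a5959) (nat_lit 0x1afbab882c060) (nat_lit 0x0)
  (PL.C (nat_lit 0x148adaeaf) (nat_lit 0x0) (nat_lit 0x10b4246dafa8f5)
  (PL.C (nat_lit 0x148d0b475) (nat_lit 0x0) (nat_lit 0x6b7b1a720128a)
  (PL.C (nat_lit 0x148d43953) (nat_lit 0x132e2f9de2c8a0) (nat_lit 0x0)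
  (PL.C (nat_lit 0x14a2bbf1f) (nat_lit 0x64162c225d0633) (nat_lit 0x0)
  (PL.C (nat_lit 0x14ba8dfd5) (nat_lit 0x327659660c7735) (nat_lit 0x0) gp1_1_224))))))))))))))))))))

noncomputable def gp1_1_222 : PL :=
  (PL.C (nat_lit 0x121b1a2cd) (nat_lit 0x0) (nat_lit 0x58dd77098cab11)
  (PL.C (nat_lit 0x124300b0b) (nat_lit 0x0) (nat_lit 0x5467bdc808bdc1)
  (PL.C (nat_lit 0x127729865) (nat_lit 0x0) (nat_lit 0x20033bf5785d50)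
  (PL.C (nat_lit 0x1296dcb47) (nat_lit 0x3c5d66e2c3132e) (nat_lit 0x0)
  (PL.C (nat_lit 0x129bee2db) (nat_lit 0x7683b848d05a4) (nat_lit 0x0)
  (PL.C (nat_lit 0x12a188cc9) (nat_lit 0x2c56e0cf94cf1) (nat_lit 0x0)
  (PL.C (nat_lit 0x12b46be79) (nat_lit 0x0) (nat_lit 0x28a45f175d77f)
  (PL.C (nat_lit 0x12bab0ed5) (nat_lit 0x1569f50b223d8c) (nat_lit 0x0)
  (PL.C (nat_lit 0x12bfd3f41) (nat_lit 0x0) (nat_lit 0x12235c92665ed)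
  (PL.C (nat_lit 0x12f3b7cd3) (nat_lit 0x0) (nat_lit 0x1b79ecdf7bf74b)
  (PL.C (nat_lit 0x12f56150f) (nat_lit 0x0) (nat_lit 0xa4876de176b06)
  (PL.C (nat_lit 0x130281bad) (nat_lit 0x0) (nat_lit 0x11b149f93df12e)
  (PL.C (nat_lit 0x130c6498b) (nat_lit 0x2c56e0cf94cf1) (nat_lit 0x0)
  (PL.C (nat_lit 0x130ce8b25) (nat_lit 0x182d905e834250) (nat_lit 0x0)
  (PL.C (nat_lit 0x1318734ef) (nat_lit 0x12c5ab49431f41) (nat_lit 0x0)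
  (PL.C (nat_lit 0x131b214b1) (nat_lit 0x1569f50b223d8c) (nat_lit 0x0)
  (PL.C (nat_lit 0x132c6632b) (nat_lit 0x1fcc6738c650b) (nat_lit 0x0)
  (PL.C (nat_lit 0x1334466cb) (nat_lit 0x0) (nat_lit 0xf7517692f25)
  (PL.C (nat_lit 0x137542f99) (nat_lit 0xbf10711a40f12) (nat_lit 0x0)
  (PL.C (nat_lit 0x1391d9827) (nat_lit 0x0) (nat_lit 0x17f2f04958f9e3) gp1_1_223))))))))))))))))))))

noncomputable def gp1_1_221 : PL :=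
  (PL.C (nat_lit 0x10c5acbff) (nat_lit 0x0) (nat_lit 0x119a54845aed3)
  (PL.C (nat_lit 0x10d26819f) (nat_lit 0x0) (nat_lit 0x1fe4964e1bcf45)
  (PL.C (nat_lit 0x10f77a429) (nat_lit 0x1ce5d508111ad) (nat_lit 0x0)
  (PL.C (nat_lit 0x111cde1cf) (nat_lit 0x0) (nat_lit 0x2a1171f42a22ec)
  (PL.C (nat_lit 0x11266f20b) (nat_lit 0x0) (nat_lit 0xa0e6a92485e2f)
  (PL.C (nat_lit 0x113cc3583) (nat_lit 0x0) (nat_lit 0x821e5ea60f1ef)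
  (PL.C (nat_lit 0x1145a6173) (nat_lit 0x0) (nat_lit 0x1245848e094890)
  (PL.C (nat_lit 0x114c3a75d) (nat_lit 0x0) (nat_lit 0xa0e6a92485e2f)
  (PL.C (nat_lit 0x11582c33d) (nat_lit 0x0) (nat_lit 0x7c94cce16c36)
  (PL.C (nat_lit 0x1162bfe25) (nat_lit 0x3772e8f94861c) (nat_lit 0x0)
  (PL.C (nat_lit 0x116c6cfff) (nat_lit 0x44dc6c9db63a9) (nat_lit 0x0)
  (PL.C (nat_lit 0x119ba9441) (nat_lit 0x0) (nat_lit 0x1c8e703b57afee)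
  (PL.C (nat_lit 0x119e959f7) (nat_lit 0x4d133a1f284d3) (nat_lit 0x0)
  (PL.C (nat_lit 0x11b3749cb) (nat_lit 0x116140e68952bc) (nat_lit 0x0)
  (PL.C (nat_lit 0x11bbb5979) (nat_lit 0x0) (nat_lit 0xa4876de176b06)
  (PL.C (nat_lit 0x11c276ef7) (nat_lit 0x0) (nat_lit 0x82c58384631ca)
  (PL.C (nat_lit 0x11d0b147e) (nat_lit 0x208ba0a463c19) (nat_lit 0x0)
  (PL.C (nat_lit 0x11f39d955) (nat_lit 0x9a028e6435796c) (nat_lit 0x0)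
  (PL.C (nat_lit 0x11f7f3d12) (nat_lit 0x0) (nat_lit 0x171935e825899)
  (PL.C (nat_lit 0x1202d6a36) (nat_lit 0x0) (nat_lit 0x7c9d641c3428) gp1_1_222))))))))))))))))))))

noncomputable def gp1_1_220 : PL :=
  (PL.C (nat_lit 0xfd20fe27) (nat_lit 0x1544208e2588fa) (nat_lit 0x0)
  (PL.C (nat_lit 0xfd4c4185) (nat_lit 0x11d4099f47cdb7) (nat_lit 0x0)
  (PL.C (nat_lit 0xfde4252b) (nat_lit 0x0) (nat_lit 0x344b4d835f7d8)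
  (PL.C (nat_lit 0x100420441) (nat_lit 0x0) (nat_lit 0xb15aef4d7fdb5)
  (PL.C (nat_lit 0x10049efc3) (nat_lit 0x2fc659fe243818) (nat_lit 0x0)
  (PL.C (nat_lit 0x100c17121) (nat_lit 0x0) (nat_lit 0xae08ebc9b1831)
  (PL.C (nat_lit 0x1011780dd) (nat_lit 0xccc5abe360b84) (nat_lit 0x0)
  (PL.C (nat_lit 0x1014df079) (nat_lit 0xb216eb5dbbcbc) (nat_lit 0x0)
  (PL.C (nat_lit 0x101e9d2eb) (nat_lit 0x0) (nat_lit 0x25cb19b984e61)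
  (PL.C (nat_lit 0x1024045ff) (nat_lit 0x23d15dda903e94) (nat_lit 0x0)
  (PL.C (nat_lit 0x102f74317) (nat_lit 0x0) (nat_lit 0x3681747eb707ee)
  (PL.C (nat_lit 0x1034e107b) (nat_lit 0x0) (nat_lit 0x9f9aa4a644017)
  (PL.C (nat_lit 0x104160bfb) (nat_lit 0xab0bb3f9091ae) (nat_lit 0x0)
  (PL.C (nat_lit 0x105c3f7b5) (nat_lit 0x0) (nat_lit 0x530fa137ddd753)
  (PL.C (nat_lit 0x105ffca73) (nat_lit 0x4111fc0e39478) (nat_lit 0x0)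
  (PL.C (nat_lit 0x10721c269) (nat_lit 0x9f658dc5ed992) (nat_lit 0x0)
  (PL.C (nat_lit 0x108685303) (nat_lit 0xc001b8b6110b3b) (nat_lit 0x0)
  (PL.C (nat_lit 0x10965a18f) (nat_lit 0x3cee44f71a480) (nat_lit 0x0)
  (PL.C (nat_lit 0x10b3c3191) (nat_lit 0x0) (nat_lit 0x25cb19b984e61)
  (PL.C (nat_lit 0x10c44229d) (nat_lit 0x0) (nat_lit 0xf493e85896746) gp1_1_221))))))))))))))))))))

noncomputable def gp1_1_219 : PL :=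
  (PL.C (nat_lit 0xe9972a43) (nat_lit 0x0) (nat_lit 0x1d60cfb1e69c0d)
  (PL.C (nat_lit 0xea91af6d) (nat_lit 0x0) (nat_lit 0x1b3e36eb46a8f)
  (PL.C (nat_lit 0xeb54b63b) (nat_lit 0x111a32841b69d4) (nat_lit 0x0)
  (PL.C (nat_lit 0xebe0690e) (nat_lit 0x0) (nat_lit 0x171935e825899)
  (PL.C (nat_lit 0xed16d8ab) (nat_lit 0x0) (nat_lit 0x4ae017cab53eb)
  (PL.C (nat_lit 0xede83802) (nat_lit 0x208ba0a463c19) (nat_lit 0x0)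
  (PL.C (nat_lit 0xee2886d9) (nat_lit 0x365de80e29b6c8) (nat_lit 0x0)
  (PL.C (nat_lit 0xef2153bd) (nat_lit 0xf99eb9aefbf75) (nat_lit 0x0)
  (PL.C (nat_lit 0xf1d3cef9) (nat_lit 0x0) (nat_lit 0x314069a7a5b7f)
  (PL.C (nat_lit 0xf3feb8ed) (nat_lit 0x3772e8f94861c) (nat_lit 0x0)
  (PL.C (nat_lit 0xf47c7ffd) (nat_lit 0x4d133a1f284d3) (nat_lit 0x0)
  (PL.C (nat_lit 0xf6186beb) (nat_lit 0x0) (nat_lit 0x821e5ea60f1ef)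
  (PL.C (nat_lit 0xf6635143) (nat_lit 0x7683b848d05a4) (nat_lit 0x0)
  (PL.C (nat_lit 0xf848c84b) (nat_lit 0x0) (nat_lit 0x3681747eb707ee)
  (PL.C (nat_lit 0xf96762b9) (nat_lit 0x0) (nat_lit 0x1245848e094890)
  (PL.C (nat_lit 0xf9936a3b) (nat_lit 0x0) (nat_lit 0x18db1e0cbd748)
  (PL.C (nat_lit 0xfa6bef1d) (nat_lit 0x0) (nat_lit 0xae08ebc9b1831)
  (PL.C (nat_lit 0xfbb969ad) (nat_lit 0x15b2373a909744) (nat_lit 0x0)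
  (PL.C (nat_lit 0xfc3b2cbd) (nat_lit 0x0) (nat_lit 0x35174f96bdb7c)
  (PL.C (nat_lit 0xfcf776e9) (nat_lit 0x1ca97a793b49d3) (nat_lit 0x0) gp1_1_220))))))))))))))))))))

noncomputable def gp1_1_218 : PL :=
  (PL.C (nat_lit 0xd831b0fa) (nat_lit 0x0) (nat_lit 0x1a05c1681681d)
  (PL.C (nat_lit 0xd851a09b) (nat_lit 0x0) (nat_lit 0x15d3d00b91187)
  (PL.C (nat_lit 0xd8650105) (nat_lit 0x0) (nat_lit 0x1175c2a1d25177)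
  (PL.C (nat_lit 0xd93b06cb) (nat_lit 0x0) (nat_lit 0x109bdc42628180)
  (PL.C (nat_lit 0xd95ecbb7) (nat_lit 0x0) (nat_lit 0x6c4492c87fc774)
  (PL.C (nat_lit 0xda41e113) (nat_lit 0x0) (nat_lit 0x196919fdcdddb5)
  (PL.C (nat_lit 0xdb943a11) (nat_lit 0x0) (nat_lit 0x25031432dd136)
  (PL.C (nat_lit 0xdcf88b49) (nat_lit 0x1544208e2588fa) (nat_lit 0x0)
  (PL.C (nat_lit 0xdd429c65) (nat_lit 0x0) (nat_lit 0xb7e33a0b3b8ff)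
  (PL.C (nat_lit 0xdd781ea7) (nat_lit 0x30e87bbb8b0e3) (nat_lit 0x0)
  (PL.C (nat_lit 0xdf920e6e) (nat_lit 0x325ec60ae987) (nat_lit 0x0)
  (PL.C (nat_lit 0xe1968d95) (nat_lit 0x12c5ab49431f41) (nat_lit 0x0)
  (PL.C (nat_lit 0xe2d46c0f) (nat_lit 0x0) (nat_lit 0x1b3e36eb46a8f)
  (PL.C (nat_lit 0xe63a2e17) (nat_lit 0x28d15c8c49584) (nat_lit 0x0)
  (PL.C (nat_lit 0xe6b0dc47) (nat_lit 0x4d009f3835f0e) (nat_lit 0x0)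
  (PL.C (nat_lit 0xe743f07d) (nat_lit 0x0) (nat_lit 0x5d983d72e3a34)
  (PL.C (nat_lit 0xe79c869f) (nat_lit 0x0) (nat_lit 0x8ff8f516a1b0)
  (PL.C (nat_lit 0xe7d0cbf7) (nat_lit 0x0) (nat_lit 0x1a8d6ce8a94ed4)
  (PL.C (nat_lit 0xe83589f1) (nat_lit 0x21c664e1ad234) (nat_lit 0x0)
  (PL.C (nat_lit 0xe948f87f) (nat_lit 0x0) (nat_lit 0x20033bf5785d50) gp1_1_219))))))))))))))))))))

noncomputable def gp1_1_217 : PL :=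
  (PL.C (nat_lit 0xcea7a02d) (nat_lit 0x0) (nat_lit 0xae05d46d445bf)
  (PL.C (nat_lit 0xd01f8ae1) (nat_lit 0x37f47a80323068) (nat_lit 0x0)
  (PL.C (nat_lit 0xd0431d13) (nat_lit 0x16f746058fe01c) (nat_lit 0x0)
  (PL.C (nat_lit 0xd12e8349) (nat_lit 0x0) (nat_lit 0xc97968ce07c58)
  (PL.C (nat_lit 0xd19734b7) (nat_lit 0x1fcc6738c650b) (nat_lit 0x0)
  (PL.C (nat_lit 0xd1c00645) (nat_lit 0x0) (nat_lit 0x12a70c8558ce8b)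
  (PL.C (nat_lit 0xd1c681cf) (nat_lit 0x4f0e3ac) (nat_lit 0x0)
  (PL.C (nat_lit 0xd2b22577) (nat_lit 0x0) (nat_lit 0x4d4867634518b9)
  (PL.C (nat_lit 0xd361acfb) (nat_lit 0x0) (nat_lit 0x300bcea7ba172e)
  (PL.C (nat_lit 0xd3651651) (nat_lit 0x0) (nat_lit 0x11b149f93df12e)
  (PL.C (nat_lit 0xd38e41d3) (nat_lit 0x19c83b2be00cc1) (nat_lit 0x0)
  (PL.C (nat_lit 0xd3e52873) (nat_lit 0x2df312785f1b9) (nat_lit 0x0)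
  (PL.C (nat_lit 0xd455ae49) (nat_lit 0x0) (nat_lit 0x8a3edcf19d52b2)
  (PL.C (nat_lit 0xd4ec2271) (nat_lit 0x0) (nat_lit 0x314069a7a5b7f)
  (PL.C (nat_lit 0xd53380ed) (nat_lit 0x0) (nat_lit 0x8a45d6b2ae499)
  (PL.C (nat_lit 0xd5ae2303) (nat_lit 0x0) (nat_lit 0x530fa137ddd753)
  (PL.C (nat_lit 0xd5d2a859) (nat_lit 0x11d4099f47cdb7) (nat_lit 0x0)
  (PL.C (nat_lit 0xd7396963) (nat_lit 0x37f47a80323068) (nat_lit 0x0)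
  (PL.C (nat_lit 0xd760650d) (nat_lit 0x24c4c469680f6) (nat_lit 0x0)
  (PL.C (nat_lit 0xd76a9935) (nat_lit 0x0) (nat_lit 0x279f9ee4b7116) gp1_1_218))))))))))))))))))))

noncomputable def gp1_1_216 : PL :=
  (PL.C (nat_lit 0xc00f06e5) (nat_lit 0x383c1e0ebb9bc5) (nat_lit 0x0)
  (PL.C (nat_lit 0xc2bd31a3) (nat_lit 0xd2d2b40ca3d2c3) (nat_lit 0x0)
  (PL.C (nat_lit 0xc2fe77d7) (nat_lit 0x367c05d1d6e1) (nat_lit 0x0)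
  (PL.C (nat_lit 0xc3aa35b1) (nat_lit 0x0) (nat_lit 0xe10346f19d81e)
  (PL.C (nat_lit 0xc49d0b1b) (nat_lit 0xd8ad3cc8aea7b) (nat_lit 0x0)
  (PL.C (nat_lit 0xc52fd08f) (nat_lit 0x0) (nat_lit 0xae05d46d445bf)
  (PL.C (nat_lit 0xc56fe815) (nat_lit 0x61a2b8ccf150) (nat_lit 0x0)
  (PL.C (nat_lit 0xc5ea279f) (nat_lit 0x0) (nat_lit 0x492ac5551e777)
  (PL.C (nat_lit 0xc623ccaf) (nat_lit 0x0) (nat_lit 0x1ccd6bde6f3ca)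
  (PL.C (nat_lit 0xc6bb0886) (nat_lit 0x2c47742739bd6) (nat_lit 0x0)
  (PL.C (nat_lit 0xc6ce9d55) (nat_lit 0x0) (nat_lit 0x20af73bc4d445d)
  (PL.C (nat_lit 0xc79e4e29) (nat_lit 0x0) (nat_lit 0x47a10182ea4d6)
  (PL.C (nat_lit 0xc7b679a1) (nat_lit 0x0) (nat_lit 0x344b4d835f7d8)
  (PL.C (nat_lit 0xc81d6cf1) (nat_lit 0xb216eb5dbbcbc) (nat_lit 0x0)
  (PL.C (nat_lit 0xc96e9697) (nat_lit 0x15b2373a909744) (nat_lit 0x0)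
  (PL.C (nat_lit 0xcb2a7d71) (nat_lit 0x0) (nat_lit 0x18db1e0cbd748)
  (PL.C (nat_lit 0xcb2edbb2) (nat_lit 0x2c47742739bd6) (nat_lit 0x0)
  (PL.C (nat_lit 0xcc0ba263) (nat_lit 0x0) (nat_lit 0x1f95168001f8eb)
  (PL.C (nat_lit 0xcc23d69d) (nat_lit 0x0) (nat_lit 0x35174f96bdb7c)
  (PL.C (nat_lit 0xce6272b1) (nat_lit 0x0) (nat_lit 0x2774d87399a12) gp1_1_217))))))))))))))))))))

noncomputable def gp1_1_215 : PL :=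
  (PL.C (nat_lit 0xb36aee41) (nat_lit 0x0) (nat_lit 0x16443d3a7f120)
  (PL.C (nat_lit 0xb373a595) (nat_lit 0x447278b) (nat_lit 0x0)
  (PL.C (nat_lit 0xb3d2a6c1) (nat_lit 0x0) (nat_lit 0x395250fe9f1d)
  (PL.C (nat_lit 0xb3f99b61) (nat_lit 0x323956a531ca1c) (nat_lit 0x0)
  (PL.C (nat_lit 0xb484420d) (nat_lit 0x71458d37d96c9f) (nat_lit 0x0)
  (PL.C (nat_lit 0xb49381cf) (nat_lit 0x9069135827e5) (nat_lit 0x0)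
  (PL.C (nat_lit 0xb5d852c9) (nat_lit 0x0) (nat_lit 0x3ab8b9dbd4880)
  (PL.C (nat_lit 0xb5ebb333) (nat_lit 0x0) (nat_lit 0x2516f144e64ea)
  (PL.C (nat_lit 0xb7dd7902) (nat_lit 0x4066416523f6b) (nat_lit 0x0)
  (PL.C (nat_lit 0xb8a5421b) (nat_lit 0x0) (nat_lit 0x298a8000185fb5)
  (PL.C (nat_lit 0xb901d77e) (nat_lit 0x0) (nat_lit 0x1a05c1681681d)
  (PL.C (nat_lit 0xb90f8407) (nat_lit 0x0) (nat_lit 0x15d3d00b91187)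
  (PL.C (nat_lit 0xb972a96e) (nat_lit 0x59e7a8b43a1bc) (nat_lit 0x0)
  (PL.C (nat_lit 0xb97a66a9) (nat_lit 0x45e61b260839e) (nat_lit 0x0)
  (PL.C (nat_lit 0xba3c2acd) (nat_lit 0x1cdad6a067bd71) (nat_lit 0x0)
  (PL.C (nat_lit 0xbaad3fad) (nat_lit 0x0) (nat_lit 0x47b2f03137cc3)
  (PL.C (nat_lit 0xbd4b1f71) (nat_lit 0x0) (nat_lit 0x52aa0df7cb638)
  (PL.C (nat_lit 0xbe938ddb) (nat_lit 0x11e3e6e81659f93) (nat_lit 0x0)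
  (PL.C (nat_lit 0xbeec4647) (nat_lit 0x0) (nat_lit 0x36829b223abc7)
  (PL.C (nat_lit 0xbf5ff155) (nat_lit 0x0) (nat_lit 0xc97968ce07c58) gp1_1_216))))))))))))))))))))

noncomputable def gp1_1_214 : PL :=
  (PL.C (nat_lit 0xaa9b0057) (nat_lit 0x3f5271866a27f) (nat_lit 0x0)
  (PL.C (nat_lit 0xabaed459) (nat_lit 0x0) (nat_lit 0x3e56ff88b72c27)
  (PL.C (nat_lit 0xac396f99) (nat_lit 0xab0bb3f9091ae) (nat_lit 0x0)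
  (PL.C (nat_lit 0xac60cbaf) (nat_lit 0x5a9bb98e0a6870) (nat_lit 0x0)
  (PL.C (nat_lit 0xac750253) (nat_lit 0x0) (nat_lit 0x711ed2013176cf)
  (PL.C (nat_lit 0xad19aac1) (nat_lit 0x0) (nat_lit 0x5d983d72e3a34)
  (PL.C (nat_lit 0xad292c1f) (nat_lit 0xea0153d482345) (nat_lit 0x0)
  (PL.C (nat_lit 0xad704d3f) (nat_lit 0x0) (nat_lit 0x1e55d6b19fa6c)
  (PL.C (nat_lit 0xadf10ed5) (nat_lit 0x0) (nat_lit 0x40192b452fe012)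
  (PL.C (nat_lit 0xae72e7a1) (nat_lit 0x0) (nat_lit 0x1d60cfb1e69c0d)
  (PL.C (nat_lit 0xae9e4a05) (nat_lit 0x0) (nat_lit 0x33cfb0a45ef4b)
  (PL.C (nat_lit 0xaea6c5a9) (nat_lit 0x0) (nat_lit 0x129acec72ed02e)
  (PL.C (nat_lit 0xaeee8389) (nat_lit 0x0) (nat_lit 0x610fb5a74c96c)
  (PL.C (nat_lit 0xaf4b686b) (nat_lit 0xc943c803bcecad) (nat_lit 0x0)
  (PL.C (nat_lit 0xb0d2a62b) (nat_lit 0x0) (nat_lit 0xbd68ac978edfa)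
  (PL.C (nat_lit 0xb10fd019) (nat_lit 0x93406cc0b6366d) (nat_lit 0x0)
  (PL.C (nat_lit 0xb1dc3393) (nat_lit 0x5a9bb98e0a6870) (nat_lit 0x0)
  (PL.C (nat_lit 0xb2706027) (nat_lit 0x3f5271866a27f) (nat_lit 0x0)
  (PL.C (nat_lit 0xb296025f) (nat_lit 0x79966769295dfc) (nat_lit 0x0)
  (PL.C (nat_lit 0xb2e732aa) (nat_lit 0x325ec60ae987) (nat_lit 0x0) gp1_1_215))))))))))))))))))))

noncomputable def gp1_1_213 : PL :=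
  (PL.C (nat_lit 0xa1c2fc05) (nat_lit 0x0) (nat_lit 0x24a7000c1a37c6)
  (PL.C (nat_lit 0xa2359a8d) (nat_lit 0x28d15c8c49584) (nat_lit 0x0)
  (PL.C (nat_lit 0xa2a9d09e) (nat_lit 0x59e7a8b43a1bc) (nat_lit 0x0)
  (PL.C (nat_lit 0xa3476a99) (nat_lit 0x0) (nat_lit 0x4500fa175c8f18)
  (PL.C (nat_lit 0xa3f68777) (nat_lit 0x0) (nat_lit 0x1ccd6bde6f3ca)
  (PL.C (nat_lit 0xa41047f2) (nat_lit 0x4066416523f6b) (nat_lit 0x0)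
  (PL.C (nat_lit 0xa420724f) (nat_lit 0x4a38214d340092) (nat_lit 0x0)
  (PL.C (nat_lit 0xa463dd6f) (nat_lit 0x4d009f3835f0e) (nat_lit 0x0)
  (PL.C (nat_lit 0xa483e16d) (nat_lit 0x1c01dedb56ceab) (nat_lit 0x0)
  (PL.C (nat_lit 0xa49af773) (nat_lit 0xf6af93d518e59) (nat_lit 0x0)
  (PL.C (nat_lit 0xa5f8eec7) (nat_lit 0x0) (nat_lit 0xfcac6bd22dcb9)
  (PL.C (nat_lit 0xa66246d2) (nat_lit 0x0) (nat_lit 0xb474af2d09f3)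
  (PL.C (nat_lit 0xa7c445c5) (nat_lit 0x0) (nat_lit 0x7b0a3a43ee66e)
  (PL.C (nat_lit 0xa7d0f11e) (nat_lit 0xa5cda06cacb01) (nat_lit 0x0)
  (PL.C (nat_lit 0xa899c815) (nat_lit 0x0) (nat_lit 0x3ab8b9dbd4880)
  (PL.C (nat_lit 0xa8ed9e75) (nat_lit 0x182d905e834250) (nat_lit 0x0)
  (PL.C (nat_lit 0xa9263de1) (nat_lit 0x323956a531ca1c) (nat_lit 0x0)
  (PL.C (nat_lit 0xa942c372) (nat_lit 0x18357126ed86d) (nat_lit 0x0)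
  (PL.C (nat_lit 0xa9e97f2b) (nat_lit 0x383c1e0ebb9bc5) (nat_lit 0x0)
  (PL.C (nat_lit 0xaa54ab77) (nat_lit 0x0) (nat_lit 0x13f007a8ab0755) gp1_1_214))))))))))))))))))))

noncomputable def gp1_1_212 : PL :=
  (PL.C (nat_lit 0x991f778b) (nat_lit 0x13291542b01dd9) (nat_lit 0x0)
  (PL.C (nat_lit 0x997c1eba) (nat_lit 0x756b773914da0) (nat_lit 0x0)
  (PL.C (nat_lit 0x99afe3bf) (nat_lit 0x0) (nat_lit 0x8a3edcf19d52b2)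
  (PL.C (nat_lit 0x9a2d4afe) (nat_lit 0x58b4f773c82b4) (nat_lit 0x0)
  (PL.C (nat_lit 0x9aa8fedf) (nat_lit 0x1c4e448ee5b42f) (nat_lit 0x0)
  (PL.C (nat_lit 0x9ace5bf6) (nat_lit 0x3998b102aa0ca) (nat_lit 0x0)
  (PL.C (nat_lit 0x9bfd3047) (nat_lit 0x0) (nat_lit 0x5f1d8770ba518e)
  (PL.C (nat_lit 0x9c611f9e) (nat_lit 0x1902d3baf074a) (nat_lit 0x0)
  (PL.C (nat_lit 0x9ca47ba9) (nat_lit 0x0) (nat_lit 0x36829b223abc7)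
  (PL.C (nat_lit 0x9d54f241) (nat_lit 0x0) (nat_lit 0x719d53ec9094b2)
  (PL.C (nat_lit 0x9dca64dd) (nat_lit 0x23d15dda903e94) (nat_lit 0x0)
  (PL.C (nat_lit 0x9dfdae4f) (nat_lit 0x0) (nat_lit 0x52aa0df7cb638)
  (PL.C (nat_lit 0x9ee93553) (nat_lit 0x771a85cf2697c) (nat_lit 0x0)
  (PL.C (nat_lit 0x9f16520f) (nat_lit 0x842311e4c0ba9) (nat_lit 0x0)
  (PL.C (nat_lit 0xa0276d75) (nat_lit 0x79966769295dfc) (nat_lit 0x0)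
  (PL.C (nat_lit 0xa05317b1) (nat_lit 0x41498c32007464) (nat_lit 0x0)
  (PL.C (nat_lit 0xa0d3305b) (nat_lit 0x21c664e1ad234) (nat_lit 0x0)
  (PL.C (nat_lit 0xa0e04c87) (nat_lit 0x11e3e6e81659f93) (nat_lit 0x0)
  (PL.C (nat_lit 0xa12617cb) (nat_lit 0x111a32841b69d4) (nat_lit 0x0)
  (PL.C (nat_lit 0xa1885d23) (nat_lit 0x93406cc0b6366d) (nat_lit 0x0) gp1_1_213))))))))))))))))))))

noncomputable def gp1_1_211 : PL :=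
  (PL.C (nat_lit 0x93c14741) (nat_lit 0x0) (nat_lit 0x4ddddb8b42543a)
  (PL.C (nat_lit 0x93dceaf9) (nat_lit 0xccc5abe360b84) (nat_lit 0x0)
  (PL.C (nat_lit 0x946bd64b) (nat_lit 0x832735c1c3039b) (nat_lit 0x0)
  (PL.C (nat_lit 0x94785ff9) (nat_lit 0x3d19ca8fa7e9b) (nat_lit 0x0)
  (PL.C (nat_lit 0x9481a6a9) (nat_lit 0x0) (nat_lit 0xa2351dd3192c0)
  (PL.C (nat_lit 0x94ce3479) (nat_lit 0x0) (nat_lit 0x10623732f98995)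
  (PL.C (nat_lit 0x9506e3f7) (nat_lit 0x0) (nat_lit 0xa90e8f8e26e9e4)
  (PL.C (nat_lit 0x952d13c3) (nat_lit 0x0) (nat_lit 0x56013e6baec0e6)
  (PL.C (nat_lit 0x95663821) (nat_lit 0x0) (nat_lit 0xb15aef4d7fdb5)
  (PL.C (nat_lit 0x956dcb97) (nat_lit 0x0) (nat_lit 0x46167c1299ae)
  (PL.C (nat_lit 0x9576237b) (nat_lit 0x0) (nat_lit 0xb7e33a0b3b8ff)
  (PL.C (nat_lit 0x95c8eb4f) (nat_lit 0x916190eec8548) (nat_lit 0x0)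
  (PL.C (nat_lit 0x961c489d) (nat_lit 0x5fc516cb34a2e) (nat_lit 0x0)
  (PL.C (nat_lit 0x9738480a) (nat_lit 0x1902d3baf074a) (nat_lit 0x0)
  (PL.C (nat_lit 0x97796b23) (nat_lit 0x61a2b8ccf150) (nat_lit 0x0)
  (PL.C (nat_lit 0x977c38a9) (nat_lit 0x5070932) (nat_lit 0x0)
  (PL.C (nat_lit 0x97b33c23) (nat_lit 0x31fdeee276b0a6) (nat_lit 0x0)
  (PL.C (nat_lit 0x97cc6b85) (nat_lit 0x1c41a42846115c) (nat_lit 0x0)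
  (PL.C (nat_lit 0x98625901) (nat_lit 0x0) (nat_lit 0x4500fa175c8f18)
  (PL.C (nat_lit 0x99018a85) (nat_lit 0x31fdeee276b0a6) (nat_lit 0x0) gp1_1_212))))))))))))))))))))

noncomputable def gp1_1_210 : PL :=
  (PL.C (nat_lit 0x8b7172e5) (nat_lit 0x0) (nat_lit 0xce64adf6a115b)
  (PL.C (nat_lit 0x8b745786) (nat_lit 0x0) (nat_lit 0x1c0b45cb7c418d)
  (PL.C (nat_lit 0x8c0bdf11) (nat_lit 0x0) (nat_lit 0x204b7d030a43)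
  (PL.C (nat_lit 0x8cf35dff) (nat_lit 0x0) (nat_lit 0x29d3c2448e448f)
  (PL.C (nat_lit 0x8e534529) (nat_lit 0x0) (nat_lit 0x279f9ee4b7116)
  (PL.C (nat_lit 0x8e5f8f29) (nat_lit 0x11ac03a935e1aa0) (nat_lit 0x0)
  (PL.C (nat_lit 0x8ec9d725) (nat_lit 0x0) (nat_lit 0x8a45d6b2ae499)
  (PL.C (nat_lit 0x900481f3) (nat_lit 0x0) (nat_lit 0x300bcea7ba172e)
  (PL.C (nat_lit 0x90366b12) (nat_lit 0x0) (nat_lit 0x49af9c13be6dd)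
  (PL.C (nat_lit 0x90ed597d) (nat_lit 0x0) (nat_lit 0x2b97652a3bdf26)
  (PL.C (nat_lit 0x918394ab) (nat_lit 0x0) (nat_lit 0x4d4867634518b9)
  (PL.C (nat_lit 0x91931609) (nat_lit 0x0) (nat_lit 0x2516f144e64ea)
  (PL.C (nat_lit 0x9194a4df) (nat_lit 0x0) (nat_lit 0x719d53ec9094b2)
  (PL.C (nat_lit 0x92201cdb) (nat_lit 0x4111fc0e39478) (nat_lit 0x0)
  (PL.C (nat_lit 0x922cbadb) (nat_lit 0x0) (nat_lit 0xad43235a634484)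
  (PL.C (nat_lit 0x92509eb1) (nat_lit 0x0) (nat_lit 0x24a7000c1a37c6)
  (PL.C (nat_lit 0x9299d94f) (nat_lit 0x0) (nat_lit 0x9f9aa4a644017)
  (PL.C (nat_lit 0x92d576e9) (nat_lit 0x0) (nat_lit 0x5f1d8770ba518e)
  (PL.C (nat_lit 0x9367b2d9) (nat_lit 0x0) (nat_lit 0x46167c1299ae)
  (PL.C (nat_lit 0x936edc0d) (nat_lit 0x0) (nat_lit 0x2b97652a3bdf26) gp1_1_211))))))))))))))))))))

noncomputable def gp1_1_209 : PL :=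
  (PL.C (nat_lit 0x866311d1) (nat_lit 0x7b2f3c260159a) (nat_lit 0x0)
  (PL.C (nat_lit 0x86ee5ff7) (nat_lit 0x279eec5935e55c) (nat_lit 0x0)
  (PL.C (nat_lit 0x86fe327b) (nat_lit 0xbac77f44d0801) (nat_lit 0x0)
  (PL.C (nat_lit 0x8731e809) (nat_lit 0x19c83b2be00cc1) (nat_lit 0x0)
  (PL.C (nat_lit 0x8756c435) (nat_lit 0x4277b13c4c7fb) (nat_lit 0x0)
  (PL.C (nat_lit 0x8771a8f6) (nat_lit 0x0) (nat_lit 0xb474af2d09f3)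
  (PL.C (nat_lit 0x878b38e7) (nat_lit 0x27ff847ea0d391) (nat_lit 0x0)
  (PL.C (nat_lit 0x87d11817) (nat_lit 0x2e4b11ee40110) (nat_lit 0x0)
  (PL.C (nat_lit 0x8808e237) (nat_lit 0x44dc6c9db63a9) (nat_lit 0x0)
  (PL.C (nat_lit 0x8827af6d) (nat_lit 0x584eac7652c774) (nat_lit 0x0)
  (PL.C (nat_lit 0x88367b1b) (nat_lit 0xf6af93d518e59) (nat_lit 0x0)
  (PL.C (nat_lit 0x885bd6ef) (nat_lit 0x0) (nat_lit 0x12a70c8558ce8b)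
  (PL.C (nat_lit 0x88b5eca1) (nat_lit 0x4fc040a3dcb59) (nat_lit 0x0)
  (PL.C (nat_lit 0x89d538bd) (nat_lit 0x71458d37d96c9f) (nat_lit 0x0)
  (PL.C (nat_lit 0x8a006d69) (nat_lit 0x0) (nat_lit 0xfcac6bd22dcb9)
  (PL.C (nat_lit 0x8a40c6c3) (nat_lit 0x0) (nat_lit 0x559b3ac56297)
  (PL.C (nat_lit 0x8a8c6dcb) (nat_lit 0x13fe16eaf3ccb5) (nat_lit 0x0)
  (PL.C (nat_lit 0x8ae05de1) (nat_lit 0x0) (nat_lit 0x1f3ae66d2932c8)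
  (PL.C (nat_lit 0x8b0eea9d) (nat_lit 0x0) (nat_lit 0xdb3dc1bf42097)
  (PL.C (nat_lit 0x8b1336d7) (nat_lit 0xc943c803bcecad) (nat_lit 0x0) gp1_1_210))))))))))))))))))))

noncomputable def gp1_1_208 : PL :=
  (PL.C (nat_lit 0x7f954b8e) (nat_lit 0x0) (nat_lit 0x1c0b45cb7c418d)
  (PL.C (nat_lit 0x7fa9d721) (nat_lit 0x14faf950a98fdd) (nat_lit 0x0)
  (PL.C (nat_lit 0x7fcf0611) (nat_lit 0x10c2385066b1a4) (nat_lit 0x0)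
  (PL.C (nat_lit 0x803d34eb) (nat_lit 0x2b1700de57a0f5) (nat_lit 0x0)
  (PL.C (nat_lit 0x80bc0a45) (nat_lit 0x365de80e29b6c8) (nat_lit 0x0)
  (PL.C (nat_lit 0x80c32d17) (nat_lit 0x170b6b84ba1d26) (nat_lit 0x0)
  (PL.C (nat_lit 0x8236f94b) (nat_lit 0x0) (nat_lit 0xb2c0bc57a48be)
  (PL.C (nat_lit 0x828ea89b) (nat_lit 0x1c4e448ee5b42f) (nat_lit 0x0)
  (PL.C (nat_lit 0x839ff00e) (nat_lit 0x4b5ea46339682) (nat_lit 0x0)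
  (PL.C (nat_lit 0x83add5a3) (nat_lit 0x0) (nat_lit 0x40192b452fe012)
  (PL.C (nat_lit 0x83f96ead) (nat_lit 0x279eec5935e55c) (nat_lit 0x0)
  (PL.C (nat_lit 0x8417ddca) (nat_lit 0x0) (nat_lit 0xb44122cc0b2ad)
  (PL.C (nat_lit 0x84676119) (nat_lit 0x0) (nat_lit 0x10889516648112)
  (PL.C (nat_lit 0x84aba1e9) (nat_lit 0x4277b13c4c7fb) (nat_lit 0x0)
  (PL.C (nat_lit 0x84d00505) (nat_lit 0x0) (nat_lit 0x711ed2013176cf)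
  (PL.C (nat_lit 0x85245116) (nat_lit 0x18357126ed86d) (nat_lit 0x0)
  (PL.C (nat_lit 0x858b295f) (nat_lit 0x0) (nat_lit 0x10889516648112)
  (PL.C (nat_lit 0x863f965f) (nat_lit 0x832735c1c3039b) (nat_lit 0x0)
  (PL.C (nat_lit 0x8649b9ba) (nat_lit 0xa5cda06cacb01) (nat_lit 0x0)
  (PL.C (nat_lit 0x864b5c8b) (nat_lit 0x0) (nat_lit 0x627fb5224af612) gp1_1_209))))))))))))))))))))

noncomputable def gp1_1_207 : PL :=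
  (PL.C (nat_lit 0x79fab9d1) (nat_lit 0x9069135827e5) (nat_lit 0x0)
  (PL.C (nat_lit 0x7a1a35cf) (nat_lit 0x50041674f10418) (nat_lit 0x0)
  (PL.C (nat_lit 0x7a575231) (nat_lit 0x0) (nat_lit 0x129acec72ed02e)
  (PL.C (nat_lit 0x7a87c291) (nat_lit 0x0) (nat_lit 0x730a59ab340046)
  (PL.C (nat_lit 0x7b274a79) (nat_lit 0x0) (nat_lit 0x6faeea85c55f81)
  (PL.C (nat_lit 0x7b5fad5a) (nat_lit 0x0) (nat_lit 0x49af9c13be6dd)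
  (PL.C (nat_lit 0x7b64ed87) (nat_lit 0xea0153d482345) (nat_lit 0x0)
  (PL.C (nat_lit 0x7c74db01) (nat_lit 0x0) (nat_lit 0x3e56ff88b72c27)
  (PL.C (nat_lit 0x7c870b57) (nat_lit 0x0) (nat_lit 0x4a3e73b26ac13)
  (PL.C (nat_lit 0x7cba6e05) (nat_lit 0x0) (nat_lit 0xa90e8f8e26e9e4)
  (PL.C (nat_lit 0x7d7f0069) (nat_lit 0x0) (nat_lit 0xe0a9519ccd5df)
  (PL.C (nat_lit 0x7d9d721d) (nat_lit 0x0) (nat_lit 0x627fb5224af612)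
  (PL.C (nat_lit 0x7dc78ce9) (nat_lit 0x3211d8159eff67) (nat_lit 0x0)
  (PL.C (nat_lit 0x7dcd4c13) (nat_lit 0x0) (nat_lit 0x4ddddb8b42543a)
  (PL.C (nat_lit 0x7e242a33) (nat_lit 0x0) (nat_lit 0x33cfb0a45ef4b)
  (PL.C (nat_lit 0x7e3214f6) (nat_lit 0xd9ea2470abbee) (nat_lit 0x0)
  (PL.C (nat_lit 0x7e4e7227) (nat_lit 0x3e5a0924ca691) (nat_lit 0x0)
  (PL.C (nat_lit 0x7eb775d1) (nat_lit 0xb86950aceb4a9) (nat_lit 0x0)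
  (PL.C (nat_lit 0x7f297669) (nat_lit 0xacef0d908ddbc0) (nat_lit 0x0)
  (PL.C (nat_lit 0x7f482eda) (nat_lit 0x0) (nat_lit 0x545c5121c700c) gp1_1_208))))))))))))))))))))

noncomputable def gp1_1_206 : PL :=
  (PL.C (nat_lit 0x747ab8f1) (nat_lit 0x3c5156c50ea6c) (nat_lit 0x0)
  (PL.C (nat_lit 0x747eb2cd) (nat_lit 0xd8ad3cc8aea7b) (nat_lit 0x0)
  (PL.C (nat_lit 0x748527ef) (nat_lit 0x41fab6c7217a3) (nat_lit 0x0)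
  (PL.C (nat_lit 0x74a717ff) (nat_lit 0x0) (nat_lit 0x3f3400b607d8f)
  (PL.C (nat_lit 0x750ba8c5) (nat_lit 0x0) (nat_lit 0x60f535896fef27)
  (PL.C (nat_lit 0x7585ef59) (nat_lit 0x5fad362e8d4a7) (nat_lit 0x0)
  (PL.C (nat_lit 0x76389115) (nat_lit 0x2069e92c56d540) (nat_lit 0x0)
  (PL.C (nat_lit 0x76c49ad1) (nat_lit 0x0) (nat_lit 0x7b0a3a43ee66e)
  (PL.C (nat_lit 0x76cea33b) (nat_lit 0x3d19ca8fa7e9b) (nat_lit 0x0)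
  (PL.C (nat_lit 0x76fbfc3b) (nat_lit 0x0) (nat_lit 0x4006fc9d868aca)
  (PL.C (nat_lit 0x7723de0f) (nat_lit 0xb7bba5fa6a3d6) (nat_lit 0x0)
  (PL.C (nat_lit 0x775f3cb9) (nat_lit 0x0) (nat_lit 0x56013e6baec0e6)
  (PL.C (nat_lit 0x779afb47) (nat_lit 0xf99eb9aefbf75) (nat_lit 0x0)
  (PL.C (nat_lit 0x779c9ed6) (nat_lit 0x268ea1c57c31f) (nat_lit 0x0)
  (PL.C (nat_lit 0x782f6b8d) (nat_lit 0x11ac03a935e1aa0) (nat_lit 0x0)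
  (PL.C (nat_lit 0x7862568a) (nat_lit 0x0) (nat_lit 0x126d588624769)
  (PL.C (nat_lit 0x78a28f41) (nat_lit 0x0) (nat_lit 0x4ae017cab53eb)
  (PL.C (nat_lit 0x7978739f) (nat_lit 0x0) (nat_lit 0x1f3ae66d2932c8)
  (PL.C (nat_lit 0x797c0a77) (nat_lit 0x0) (nat_lit 0x730a59ab340046)
  (PL.C (nat_lit 0x79f06cd3) (nat_lit 0x0) (nat_lit 0x1f95168001f8eb) gp1_1_207))))))))))))))))))))

noncomputable def gp1_1_205 : PL :=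
  (PL.C (nat_lit 0x70db43c5) (nat_lit 0x0) (nat_lit 0xce64adf6a115b)
  (PL.C (nat_lit 0x70f4bc0d) (nat_lit 0x5070932) (nat_lit 0x0)
  (PL.C (nat_lit 0x711223bf) (nat_lit 0x10c2385066b1a4) (nat_lit 0x0)
  (PL.C (nat_lit 0x711bb0f5) (nat_lit 0x26f96e9c099e5) (nat_lit 0x0)
  (PL.C (nat_lit 0x715d89f7) (nat_lit 0x0) (nat_lit 0x10623732f98995)
  (PL.C (nat_lit 0x71739e05) (nat_lit 0x25a76827b0c8a0) (nat_lit 0x0)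
  (PL.C (nat_lit 0x71d22211) (nat_lit 0xce37c5032075) (nat_lit 0x0)
  (PL.C (nat_lit 0x71d3f853) (nat_lit 0x0) (nat_lit 0x559b3ac56297)
  (PL.C (nat_lit 0x7255853b) (nat_lit 0x0) (nat_lit 0x104fadafc5529c5)
  (PL.C (nat_lit 0x72a688b3) (nat_lit 0xbb54387aba496d) (nat_lit 0x0)
  (PL.C (nat_lit 0x72ccf6a7) (nat_lit 0x0) (nat_lit 0x20bcc0c304f75b)
  (PL.C (nat_lit 0x72fc1ec7) (nat_lit 0x367c05d1d6e1) (nat_lit 0x0)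
  (PL.C (nat_lit 0x730eff29) (nat_lit 0x0) (nat_lit 0x4006fc9d868aca)
  (PL.C (nat_lit 0x7322a96b) (nat_lit 0x6badb5f6dc8c5b) (nat_lit 0x0)
  (PL.C (nat_lit 0x736671d6) (nat_lit 0x58b4f773c82b4) (nat_lit 0x0)
  (PL.C (nat_lit 0x73a83779) (nat_lit 0x8c19426edd9ed) (nat_lit 0x0)
  (PL.C (nat_lit 0x73bb6aff) (nat_lit 0x26354fb0cd46d) (nat_lit 0x0)
  (PL.C (nat_lit 0x73e3d649) (nat_lit 0x0) (nat_lit 0xdb9b6e8bf3ab02)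
  (PL.C (nat_lit 0x73fe527f) (nat_lit 0x0) (nat_lit 0x2c35fdf17e6f80)
  (PL.C (nat_lit 0x746986ae) (nat_lit 0x0) (nat_lit 0x5aed36c1242ad) gp1_1_206))))))))))))))))))))

noncomputable def gp1_1_204 : PL :=
  (PL.C (nat_lit 0x6ab0d0ad) (nat_lit 0x0) (nat_lit 0x5a95f70939d98)
  (PL.C (nat_lit 0x6b0ccadf) (nat_lit 0x0) (nat_lit 0x1cb6782fbe9356)
  (PL.C (nat_lit 0x6b377592) (nat_lit 0x3998b102aa0ca) (nat_lit 0x0)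
  (PL.C (nat_lit 0x6b6d3f4d) (nat_lit 0x45e61b260839e) (nat_lit 0x0)
  (PL.C (nat_lit 0x6bd752ae) (nat_lit 0x0) (nat_lit 0x1d6dbb7a53b91e)
  (PL.C (nat_lit 0x6c05c661) (nat_lit 0x0) (nat_lit 0x6faeea85c55f81)
  (PL.C (nat_lit 0x6c23bc5e) (nat_lit 0x756b773914da0) (nat_lit 0x0)
  (PL.C (nat_lit 0x6cf3d3d7) (nat_lit 0x50041674f10418) (nat_lit 0x0)
  (PL.C (nat_lit 0x6d4f04fa) (nat_lit 0x0) (nat_lit 0xb44122cc0b2ad)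
  (PL.C (nat_lit 0x6ddee149) (nat_lit 0x0) (nat_lit 0x71ae3668567b88)
  (PL.C (nat_lit 0x6debe9b7) (nat_lit 0xbb54387aba496d) (nat_lit 0x0)
  (PL.C (nat_lit 0x6ee82583) (nat_lit 0x916190eec8548) (nat_lit 0x0)
  (PL.C (nat_lit 0x6f215173) (nat_lit 0x1c41a42846115c) (nat_lit 0x0)
  (PL.C (nat_lit 0x6f71ca21) (nat_lit 0x0) (nat_lit 0x52e27525f23da4)
  (PL.C (nat_lit 0x6fdc8e25) (nat_lit 0x0) (nat_lit 0xa2351dd3192c0)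
  (PL.C (nat_lit 0x6ffe994d) (nat_lit 0x41498c32007464) (nat_lit 0x0)
  (PL.C (nat_lit 0x7010fc03) (nat_lit 0xd0bc4cb3638038) (nat_lit 0x0)
  (PL.C (nat_lit 0x70242359) (nat_lit 0x1d87fa6eedaef8) (nat_lit 0x0)
  (PL.C (nat_lit 0x70676217) (nat_lit 0xa506b8d1ecf74) (nat_lit 0x0)
  (PL.C (nat_lit 0x70a2e43b) (nat_lit 0x0) (nat_lit 0x7643869b55ec4) gp1_1_205))))))))))))))))))))

noncomputable def gp1_1_203 : PL :=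
  (PL.C (nat_lit 0x64fb9cc2) (nat_lit 0x4b5ea46339682) (nat_lit 0x0)
  (PL.C (nat_lit 0x65c1918b) (nat_lit 0x771a85cf2697c) (nat_lit 0x0)
  (PL.C (nat_lit 0x65ed5fb3) (nat_lit 0x0) (nat_lit 0x194758799de46d)
  (PL.C (nat_lit 0x66630831) (nat_lit 0x165db194dc3dd0) (nat_lit 0x0)
  (PL.C (nat_lit 0x668a405b) (nat_lit 0x1c01dedb56ceab) (nat_lit 0x0)
  (PL.C (nat_lit 0x669e38b1) (nat_lit 0x0) (nat_lit 0x6c6cae966e9e6f)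
  (PL.C (nat_lit 0x66cdfe75) (nat_lit 0x0) (nat_lit 0x756dbd4f379f4)
  (PL.C (nat_lit 0x670c46df) (nat_lit 0x0) (nat_lit 0x178118b1432ff5)
  (PL.C (nat_lit 0x671abcc1) (nat_lit 0x3e5a0924ca691) (nat_lit 0x0)
  (PL.C (nat_lit 0x676a8d8f) (nat_lit 0x0) (nat_lit 0xb71c159d2efd18)
  (PL.C (nat_lit 0x67d976e1) (nat_lit 0x7ec6c620c7d) (nat_lit 0x0)
  (PL.C (nat_lit 0x686da7c6) (nat_lit 0x0) (nat_lit 0x545c5121c700c)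
  (PL.C (nat_lit 0x68dc0709) (nat_lit 0x3d141aed280d08) (nat_lit 0x0)
  (PL.C (nat_lit 0x6953c98a) (nat_lit 0xd9ea2470abbee) (nat_lit 0x0)
  (PL.C (nat_lit 0x695ee859) (nat_lit 0x0) (nat_lit 0x6c4492c87fc774)
  (PL.C (nat_lit 0x69a157f1) (nat_lit 0x4410a111d9e4a) (nat_lit 0x0)
  (PL.C (nat_lit 0x69de6871) (nat_lit 0x0) (nat_lit 0x2e132968abd15)
  (PL.C (nat_lit 0x6a09e551) (nat_lit 0x842311e4c0ba9) (nat_lit 0x0)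
  (PL.C (nat_lit 0x6a2d704d) (nat_lit 0x0) (nat_lit 0x6ed354b5b000e7)
  (PL.C (nat_lit 0x6a4ff31f) (nat_lit 0x0) (nat_lit 0x48ec483df2e2f) gp1_1_204))))))))))))))))))))

noncomputable def gp1_1_202 : PL :=
  (PL.C (nat_lit 0x61b5189d) (nat_lit 0x584eac7652c774) (nat_lit 0x0)
  (PL.C (nat_lit 0x61d4472d) (nat_lit 0xd0bc4cb3638038) (nat_lit 0x0)
  (PL.C (nat_lit 0x61e5ff63) (nat_lit 0x0) (nat_lit 0x196919fdcdddb5)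
  (PL.C (nat_lit 0x61eaa2bb) (nat_lit 0x151362d9051186) (nat_lit 0x0)
  (PL.C (nat_lit 0x61f511b9) (nat_lit 0x35f7e8dcfe11fe) (nat_lit 0x0)
  (PL.C (nat_lit 0x624521e6) (nat_lit 0x3adb27d76dc1d) (nat_lit 0x0)
  (PL.C (nat_lit 0x625076a3) (nat_lit 0x0) (nat_lit 0x16443d3a7f120)
  (PL.C (nat_lit 0x628c6abb) (nat_lit 0xbac77f44d0801) (nat_lit 0x0)
  (PL.C (nat_lit 0x62bdbd45) (nat_lit 0x0) (nat_lit 0x1175c2a1d25177)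
  (PL.C (nat_lit 0x62faeaa6) (nat_lit 0x0) (nat_lit 0x1ac90f0a8fa046)
  (PL.C (nat_lit 0x630119c6) (nat_lit 0x128e6568c05038) (nat_lit 0x0)
  (PL.C (nat_lit 0x636cad71) (nat_lit 0x0) (nat_lit 0x6cad6922cd5b4a)
  (PL.C (nat_lit 0x63736282) (nat_lit 0x0) (nat_lit 0x32afa5b8e6e192)
  (PL.C (nat_lit 0x639e87ba) (nat_lit 0x3adb27d76dc1d) (nat_lit 0x0)
  (PL.C (nat_lit 0x63cf031f) (nat_lit 0x1cdad6a067bd71) (nat_lit 0x0)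
  (PL.C (nat_lit 0x63db478a) (nat_lit 0xa82d05c255dd6) (nat_lit 0x0)
  (PL.C (nat_lit 0x63df725b) (nat_lit 0x0) (nat_lit 0x1e20b88847eeda8)
  (PL.C (nat_lit 0x6447c847) (nat_lit 0x0) (nat_lit 0xca6107e26c8d1c)
  (PL.C (nat_lit 0x646c4f8b) (nat_lit 0x7ec6c620c7d) (nat_lit 0x0)
  (PL.C (nat_lit 0x64aaf6a9) (nat_lit 0x0) (nat_lit 0x298a8000185fb5) gp1_1_203))))))))))))))))))))

noncomputable def gp1_1_201 : PL :=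
  (PL.C (nat_lit 0x5e63ae61) (nat_lit 0x104fd09eae98e85) (nat_lit 0x0)
  (PL.C (nat_lit 0x5e99f94f) (nat_lit 0x0) (nat_lit 0xdb9b6e8bf3ab02)
  (PL.C (nat_lit 0x5eaa247d) (nat_lit 0x1d87fa6eedaef8) (nat_lit 0x0)
  (PL.C (nat_lit 0x5f152467) (nat_lit 0x0) (nat_lit 0x178118b1432ff5)
  (PL.C (nat_lit 0x5f5748ab) (nat_lit 0x3e9f52ee220baf) (nat_lit 0x0)
  (PL.C (nat_lit 0x5f5a3b01) (nat_lit 0x447278b) (nat_lit 0x0)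
  (PL.C (nat_lit 0x5fc556d9) (nat_lit 0x603af7323e9008) (nat_lit 0x0)
  (PL.C (nat_lit 0x60152015) (nat_lit 0x4afff18df0a201) (nat_lit 0x0)
  (PL.C (nat_lit 0x602963bd) (nat_lit 0x0) (nat_lit 0x24431cd93751)
  (PL.C (nat_lit 0x60840967) (nat_lit 0x0) (nat_lit 0x2c26bf8f4b4ad7)
  (PL.C (nat_lit 0x609c0a23) (nat_lit 0x0) (nat_lit 0x8c355867037d2)
  (PL.C (nat_lit 0x60a0bb9f) (nat_lit 0x16079d0b) (nat_lit 0x0)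
  (PL.C (nat_lit 0x60c86cbf) (nat_lit 0x0) (nat_lit 0xb2c0bc57a48be)
  (PL.C (nat_lit 0x60d3e3a3) (nat_lit 0x0) (nat_lit 0x15ea88da30911c)
  (PL.C (nat_lit 0x60e8dd83) (nat_lit 0x70131932bc3b85) (nat_lit 0x0)
  (PL.C (nat_lit 0x61209b8d) (nat_lit 0x0) (nat_lit 0x29d3c2448e448f)
  (PL.C (nat_lit 0x61338607) (nat_lit 0x0) (nat_lit 0x416cf0080b19b)
  (PL.C (nat_lit 0x61368715) (nat_lit 0x13291542b01dd9) (nat_lit 0x0)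
  (PL.C (nat_lit 0x613bbc0d) (nat_lit 0x0) (nat_lit 0x11f4962ebe96b)
  (PL.C (nat_lit 0x618b1476) (nat_lit 0x0) (nat_lit 0x1d6dbb7a53b91e) gp1_1_202))))))))))))))))))))

noncomputable def gp1_1_200 : PL :=
  (PL.C (nat_lit 0x5a5cd09a) (nat_lit 0x4725f841f65815) (nat_lit 0x0)
  (PL.C (nat_lit 0x5ab6e041) (nat_lit 0x0) (nat_lit 0x6669a3d9f8fb9)
  (PL.C (nat_lit 0x5ac51f9e) (nat_lit 0x25d4b9fb1447c3) (nat_lit 0x0)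
  (PL.C (nat_lit 0x5ac74e8f) (nat_lit 0x4fc040a3dcb59) (nat_lit 0x0)
  (PL.C (nat_lit 0x5af61a3f) (nat_lit 0x13fe16eaf3ccb5) (nat_lit 0x0)
  (PL.C (nat_lit 0x5b23f316) (nat_lit 0x1e2bae6c75dd0e) (nat_lit 0x0)
  (PL.C (nat_lit 0x5b7dbaa1) (nat_lit 0x135a127e25b8f6) (nat_lit 0x0)
  (PL.C (nat_lit 0x5b8f5bb9) (nat_lit 0x27ff847ea0d391) (nat_lit 0x0)
  (PL.C (nat_lit 0x5bb77005) (nat_lit 0x0) (nat_lit 0x6e5a8f632afa8)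
  (PL.C (nat_lit 0x5c33e79f) (nat_lit 0x1725999ac8442c7) (nat_lit 0x0)
  (PL.C (nat_lit 0x5c5921bf) (nat_lit 0x7b2f3c260159a) (nat_lit 0x0)
  (PL.C (nat_lit 0x5c8cc1bb) (nat_lit 0x0) (nat_lit 0x3f3400b607d8f)
  (PL.C (nat_lit 0x5c9c1f2d) (nat_lit 0x0) (nat_lit 0x33bb4e7e2c8cb4)
  (PL.C (nat_lit 0x5cbc772b) (nat_lit 0x2069e92c56d540) (nat_lit 0x0)
  (PL.C (nat_lit 0x5cca78d3) (nat_lit 0x2e4b11ee40110) (nat_lit 0x0)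
  (PL.C (nat_lit 0x5cdc8b19) (nat_lit 0x0) (nat_lit 0x2197f9f2e2493)
  (PL.C (nat_lit 0x5d58b62d) (nat_lit 0x8c19426edd9ed) (nat_lit 0x0)
  (PL.C (nat_lit 0x5da92f5f) (nat_lit 0x0) (nat_lit 0x1d4ae34ea19705)
  (PL.C (nat_lit 0x5dcfa87f) (nat_lit 0x0) (nat_lit 0x395250fe9f1d)
  (PL.C (nat_lit 0x5def1a43) (nat_lit 0x0) (nat_lit 0x6ed354b5b000e7) gp1_1_201))))))))))))))))))))

noncomputable def gp1_1_199 : PL :=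
  (PL.C (nat_lit 0x56c87d09) (nat_lit 0x0) (nat_lit 0x193ba559a709d5)
  (PL.C (nat_lit 0x56fd109b) (nat_lit 0x0) (nat_lit 0x7e06e2cd9bb3f)
  (PL.C (nat_lit 0x571a38ef) (nat_lit 0x0) (nat_lit 0x1806e337e5cb47)
  (PL.C (nat_lit 0x574ca60b) (nat_lit 0x135a127e25b8f6) (nat_lit 0x0)
  (PL.C (nat_lit 0x57b8aaab) (nat_lit 0x1b8b54c437ad9f) (nat_lit 0x0)
  (PL.C (nat_lit 0x57c7a8d1) (nat_lit 0x8f0efebb6c532) (nat_lit 0x0)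
  (PL.C (nat_lit 0x57fb9f1e) (nat_lit 0x0) (nat_lit 0x1e1c5bf9a6252a)
  (PL.C (nat_lit 0x5844eb66) (nat_lit 0x0) (nat_lit 0xb6985dcf1eb9)
  (PL.C (nat_lit 0x58603d8d) (nat_lit 0x927e15046e1e3) (nat_lit 0x0)
  (PL.C (nat_lit 0x586af0e5) (nat_lit 0xa506b8d1ecf74) (nat_lit 0x0)
  (PL.C (nat_lit 0x58848aed) (nat_lit 0x3d141aed280d08) (nat_lit 0x0)
  (PL.C (nat_lit 0x5895c827) (nat_lit 0x0) (nat_lit 0x227e241e552874)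
  (PL.C (nat_lit 0x58a23679) (nat_lit 0x10107ffd3f2045) (nat_lit 0x0)
  (PL.C (nat_lit 0x590770ea) (nat_lit 0x0) (nat_lit 0xb6985dcf1eb9)
  (PL.C (nat_lit 0x592dca33) (nat_lit 0x0) (nat_lit 0x52e27525f23da4)
  (PL.C (nat_lit 0x595ea7f5) (nat_lit 0x1f4c656a47ff62) (nat_lit 0x0)
  (PL.C (nat_lit 0x59976136) (nat_lit 0x113f5ae0c995d4) (nat_lit 0x0)
  (PL.C (nat_lit 0x59f43ffa) (nat_lit 0x0) (nat_lit 0x1e1c5bf9a6252a)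
  (PL.C (nat_lit 0x59fecc52) (nat_lit 0x1b75b1b79e6f3b) (nat_lit 0x0)
  (PL.C (nat_lit 0x5a55fe2f) (nat_lit 0x0) (nat_lit 0x109436084750ed7) gp1_1_200))))))))))))))))))))

noncomputable def gp1_1_198 : PL :=
  (PL.C (nat_lit 0x52b0f45d) (nat_lit 0x6a91378938d83d) (nat_lit 0x0)
  (PL.C (nat_lit 0x52c12bdd) (nat_lit 0x0) (nat_lit 0x2c26bf8f4b4ad7)
  (PL.C (nat_lit 0x5304b23a) (nat_lit 0xec513017abd27) (nat_lit 0x0)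
  (PL.C (nat_lit 0x5319ec73) (nat_lit 0x0) (nat_lit 0xe0a9519ccd5df)
  (PL.C (nat_lit 0x53aa0046) (nat_lit 0x0) (nat_lit 0x7183fa9d566a3)
  (PL.C (nat_lit 0x53ce09f5) (nat_lit 0x0) (nat_lit 0x682d4adb997cf)
  (PL.C (nat_lit 0x53fe7c75) (nat_lit 0x0) (nat_lit 0x1dd0763f2dea6e)
  (PL.C (nat_lit 0x54181c22) (nat_lit 0x0) (nat_lit 0x5aed36c1242ad)
  (PL.C (nat_lit 0x541e5349) (nat_lit 0x3c5156c50ea6c) (nat_lit 0x0)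
  (PL.C (nat_lit 0x54344c1a) (nat_lit 0x9428bbd70708a) (nat_lit 0x0)
  (PL.C (nat_lit 0x5458915b) (nat_lit 0x0) (nat_lit 0x193ba559a709d5)
  (PL.C (nat_lit 0x54b79623) (nat_lit 0x327d6dff3c2ae2) (nat_lit 0x0)
  (PL.C (nat_lit 0x54b9ee69) (nat_lit 0x0) (nat_lit 0x33bb4e7e2c8cb4)
  (PL.C (nat_lit 0x54da62c3) (nat_lit 0x0) (nat_lit 0x20af73bc4d445d)
  (PL.C (nat_lit 0x5512718d) (nat_lit 0x0) (nat_lit 0xa0d3889e2e0de)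
  (PL.C (nat_lit 0x5534aeb6) (nat_lit 0x0) (nat_lit 0x49b16c819ccb65)
  (PL.C (nat_lit 0x55914419) (nat_lit 0x2fbb914cd777e2) (nat_lit 0x0)
  (PL.C (nat_lit 0x560adfbf) (nat_lit 0x0) (nat_lit 0xa0d3889e2e0de)
  (PL.C (nat_lit 0x56542073) (nat_lit 0x328343bdb78b1b) (nat_lit 0x0)
  (PL.C (nat_lit 0x56a02935) (nat_lit 0x7f3312727ca6b58) (nat_lit 0x0) gp1_1_199))))))))))))))))))))

noncomputable def gp1_1_197 : PL :=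
  (PL.C (nat_lit 0x4f5f38eb) (nat_lit 0x0) (nat_lit 0x224bcaf1a4db4)
  (PL.C (nat_lit 0x4f631407) (nat_lit 0xe70198a9fc72c) (nat_lit 0x0)
  (PL.C (nat_lit 0x4f83b027) (nat_lit 0x0) (nat_lit 0x492ac5551e777)
  (PL.C (nat_lit 0x4f8f7523) (nat_lit 0x0) (nat_lit 0x5ab3685afbfc1a)
  (PL.C (nat_lit 0x4f94d326) (nat_lit 0x0) (nat_lit 0x32afa5b8e6e192)
  (PL.C (nat_lit 0x4fade9a5) (nat_lit 0x7de4bcc8109477) (nat_lit 0x0)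
  (PL.C (nat_lit 0x4feb4c01) (nat_lit 0xd26b110fd0a1e4) (nat_lit 0x0)
  (PL.C (nat_lit 0x4ff20c4b) (nat_lit 0x0) (nat_lit 0xc496f2cb6b21f)
  (PL.C (nat_lit 0x503ec985) (nat_lit 0x0) (nat_lit 0x9c1a0f8bd9be3b)
  (PL.C (nat_lit 0x50535969) (nat_lit 0x0) (nat_lit 0x79baf8397f8f7d)
  (PL.C (nat_lit 0x505fbfe5) (nat_lit 0x0) (nat_lit 0x1296cef864f731)
  (PL.C (nat_lit 0x508a6e3f) (nat_lit 0xe9b8a77a8215e9) (nat_lit 0x0)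
  (PL.C (nat_lit 0x50f34ad7) (nat_lit 0x16702a06cb51d4) (nat_lit 0x0)
  (PL.C (nat_lit 0x5151d136) (nat_lit 0x0) (nat_lit 0x126d588624769)
  (PL.C (nat_lit 0x5166ce8a) (nat_lit 0x47a5674c6a663c) (nat_lit 0x0)
  (PL.C (nat_lit 0x5191a85b) (nat_lit 0x16cd5777) (nat_lit 0x0)
  (PL.C (nat_lit 0x51bcd76f) (nat_lit 0x0) (nat_lit 0x56cefdf06bbb5)
  (PL.C (nat_lit 0x520d9263) (nat_lit 0x0) (nat_lit 0x1f69195a1d4ee1)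
  (PL.C (nat_lit 0x521a31a6) (nat_lit 0x0) (nat_lit 0x5184f5f8b5e717)
  (PL.C (nat_lit 0x527367c1) (nat_lit 0x2ebb1df3a5ed00e) (nat_lit 0x0) gp1_1_198))))))))))))))))))))

noncomputable def gp1_1_196 : PL :=
  (PL.C (nat_lit 0x4cc9197b) (nat_lit 0x4a38214d340092) (nat_lit 0x0)
  (PL.C (nat_lit 0x4ce2d64f) (nat_lit 0x70131932bc3b85) (nat_lit 0x0)
  (PL.C (nat_lit 0x4d1acfa6) (nat_lit 0xad421d878e624a) (nat_lit 0x0)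
  (PL.C (nat_lit 0x4d279caa) (nat_lit 0x0) (nat_lit 0x6e9d6cbfd6d0d)
  (PL.C (nat_lit 0x4d3b96e5) (nat_lit 0x0) (nat_lit 0xb71c159d2efd18)
  (PL.C (nat_lit 0x4d8c45f9) (nat_lit 0x4afff18df0a201) (nat_lit 0x0)
  (PL.C (nat_lit 0x4da725f6) (nat_lit 0xf0690f092f3d7) (nat_lit 0x0)
  (PL.C (nat_lit 0x4dc4baaa) (nat_lit 0x4f1626f223bc7f) (nat_lit 0x0)
  (PL.C (nat_lit 0x4e00314d) (nat_lit 0x4ddef870a8e54) (nat_lit 0x0)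
  (PL.C (nat_lit 0x4e09a657) (nat_lit 0x0) (nat_lit 0x18f14997321ccb)
  (PL.C (nat_lit 0x4e48a717) (nat_lit 0x0) (nat_lit 0x204b7d030a43)
  (PL.C (nat_lit 0x4e5a8b21) (nat_lit 0x603af7323e9008) (nat_lit 0x0)
  (PL.C (nat_lit 0x4e62e47b) (nat_lit 0x6a91378938d83d) (nat_lit 0x0)
  (PL.C (nat_lit 0x4e63bb3d) (nat_lit 0x0) (nat_lit 0x1fedd144def9171)
  (PL.C (nat_lit 0x4eae936f) (nat_lit 0x0) (nat_lit 0x570e1cc1170c4)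
  (PL.C (nat_lit 0x4eb59fb1) (nat_lit 0x0) (nat_lit 0x4cb2d22054f020)
  (PL.C (nat_lit 0x4ed5f491) (nat_lit 0x0) (nat_lit 0x3858985dbb69d)
  (PL.C (nat_lit 0x4f107b1b) (nat_lit 0x0) (nat_lit 0xacc021dee869d8)
  (PL.C (nat_lit 0x4f346cd2) (nat_lit 0x0) (nat_lit 0x1ac90f0a8fa046)
  (PL.C (nat_lit 0x4f4b808f) (nat_lit 0x3211d8159eff67) (nat_lit 0x0) gp1_1_197))))))))))))))))))))

noncomputable def gp1_1_195 : PL :=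
  (PL.C (nat_lit 0x499d0943) (nat_lit 0xe5b8d98c9c98a) (nat_lit 0x0)
  (PL.C (nat_lit 0x49e26d99) (nat_lit 0x0) (nat_lit 0x4df61c240cb6e)
  (PL.C (nat_lit 0x49f01902) (nat_lit 0xa82d05c255dd6) (nat_lit 0x0)
  (PL.C (nat_lit 0x4a37bc17) (nat_lit 0x0) (nat_lit 0x1f69195a1d4ee1)
  (PL.C (nat_lit 0x4a4bdc16) (nat_lit 0x0) (nat_lit 0x1d9c6eb748a8de)
  (PL.C (nat_lit 0x4a8754d9) (nat_lit 0x0) (nat_lit 0xa264171a664ca)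
  (PL.C (nat_lit 0x4a93096e) (nat_lit 0x128e6568c05038) (nat_lit 0x0)
  (PL.C (nat_lit 0x4a9a6281) (nat_lit 0x2f3ec022323378) (nat_lit 0x0)
  (PL.C (nat_lit 0x4ac79503) (nat_lit 0x57f48f0b8c481) (nat_lit 0x0)
  (PL.C (nat_lit 0x4ae0a5b7) (nat_lit 0x0) (nat_lit 0x2222332b02576)
  (PL.C (nat_lit 0x4ae2f625) (nat_lit 0x7de4bcc8109477) (nat_lit 0x0)
  (PL.C (nat_lit 0x4aef96ba) (nat_lit 0x0) (nat_lit 0x191c73507790f5)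
  (PL.C (nat_lit 0x4b1742d2) (nat_lit 0x0) (nat_lit 0x155dce41864c17)
  (PL.C (nat_lit 0x4b616d2a) (nat_lit 0x0) (nat_lit 0x49b16c819ccb65)
  (PL.C (nat_lit 0x4b67cb4e) (nat_lit 0x4fdd7e2ef9896) (nat_lit 0x0)
  (PL.C (nat_lit 0x4b68da93) (nat_lit 0x1197e2c6afd2f50) (nat_lit 0x0)
  (PL.C (nat_lit 0x4c41f12b) (nat_lit 0x99bfb2f54a3f7b) (nat_lit 0x0)
  (PL.C (nat_lit 0x4ca2be85) (nat_lit 0x165db194dc3dd0) (nat_lit 0x0)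
  (PL.C (nat_lit 0x4ca2fddb) (nat_lit 0x151362d9051186) (nat_lit 0x0)
  (PL.C (nat_lit 0x4ca99bdb) (nat_lit 0xa7a2f9b84e61f3) (nat_lit 0x0) gp1_1_196))))))))))))))))))))

noncomputable def gp1_1_194 : PL :=
  (PL.C (nat_lit 0x47d06681) (nat_lit 0x0) (nat_lit 0x194758799de46d)
  (PL.C (nat_lit 0x47e878bd) (nat_lit 0x3024cd6fd7e8e) (nat_lit 0x0)
  (PL.C (nat_lit 0x4803d996) (nat_lit 0x0) (nat_lit 0x5184f5f8b5e717)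
  (PL.C (nat_lit 0x48499fbd) (nat_lit 0x0) (nat_lit 0x2f93a2d5a57253b)
  (PL.C (nat_lit 0x484ff6c1) (nat_lit 0x0) (nat_lit 0x5ffc00a2d1d08)
  (PL.C (nat_lit 0x485cbad3) (nat_lit 0x0) (nat_lit 0x2deb898e16776)
  (PL.C (nat_lit 0x48972693) (nat_lit 0x23566bfa034360) (nat_lit 0x0)
  (PL.C (nat_lit 0x48a28d3a) (nat_lit 0x47a5674c6a663c) (nat_lit 0x0)
  (PL.C (nat_lit 0x48a7bd85) (nat_lit 0x0) (nat_lit 0x13eb36472590e0)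
  (PL.C (nat_lit 0x48b04291) (nat_lit 0x64202259b3a26f) (nat_lit 0x0)
  (PL.C (nat_lit 0x48cc1a7b) (nat_lit 0x0) (nat_lit 0x24431cd93751)
  (PL.C (nat_lit 0x48dff37f) (nat_lit 0x0) (nat_lit 0x9102ae57e82514)
  (PL.C (nat_lit 0x48f5a94b) (nat_lit 0x4b2318830e7b2) (nat_lit 0x0)
  (PL.C (nat_lit 0x48fc3255) (nat_lit 0x62fcb5a34bca6) (nat_lit 0x0)
  (PL.C (nat_lit 0x49042abb) (nat_lit 0x236428f0b8cdb6) (nat_lit 0x0)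
  (PL.C (nat_lit 0x492022c9) (nat_lit 0x0) (nat_lit 0x6c6cae966e9e6f)
  (PL.C (nat_lit 0x4921d1e5) (nat_lit 0x2f9f0d355ca6c3) (nat_lit 0x0)
  (PL.C (nat_lit 0x493fdc45) (nat_lit 0xb86950aceb4a9) (nat_lit 0x0)
  (PL.C (nat_lit 0x49507227) (nat_lit 0xe8f02dd07dd4ad) (nat_lit 0x0)
  (PL.C (nat_lit 0x496c876d) (nat_lit 0x3e9f52ee220baf) (nat_lit 0x0) gp1_1_195))))))))))))))))))))

noncomputable def gp1_1_193 : PL :=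
  (PL.C (nat_lit 0x450d43e1) (nat_lit 0x9276a83326018) (nat_lit 0x0)
  (PL.C (nat_lit 0x453ba496) (nat_lit 0x0) (nat_lit 0x1e4573d9f1ad77)
  (PL.C (nat_lit 0x4599f085) (nat_lit 0x0) (nat_lit 0x2e9ff5cd4776407)
  (PL.C (nat_lit 0x45db9611) (nat_lit 0x0) (nat_lit 0x104fadafc5529c5)
  (PL.C (nat_lit 0x45f24acb) (nat_lit 0x0) (nat_lit 0x682d4adb997cf)
  (PL.C (nat_lit 0x463205f1) (nat_lit 0x0) (nat_lit 0x6669a3d9f8fb9)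
  (PL.C (nat_lit 0x463e0543) (nat_lit 0x8f0efebb6c532) (nat_lit 0x0)
  (PL.C (nat_lit 0x464cd0f1) (nat_lit 0x9bbcd3c1076ade) (nat_lit 0x0)
  (PL.C (nat_lit 0x465a90df) (nat_lit 0x2f7a873a4b2c3cf) (nat_lit 0x0)
  (PL.C (nat_lit 0x466b8ff6) (nat_lit 0xdfff809856c49) (nat_lit 0x0)
  (PL.C (nat_lit 0x46dff76a) (nat_lit 0x0) (nat_lit 0xd11ab4df7322f)
  (PL.C (nat_lit 0x46e77309) (nat_lit 0x0) (nat_lit 0xacc021dee869d8)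
  (PL.C (nat_lit 0x471027e7) (nat_lit 0xf992765508bc3) (nat_lit 0x0)
  (PL.C (nat_lit 0x47208b1e) (nat_lit 0x0) (nat_lit 0x20a73c298f765)
  (PL.C (nat_lit 0x47337e07) (nat_lit 0x0) (nat_lit 0x756dbd4f379f4)
  (PL.C (nat_lit 0x474b5bab) (nat_lit 0x0) (nat_lit 0x6abcaf7753151)
  (PL.C (nat_lit 0x47701c1b) (nat_lit 0x0) (nat_lit 0xcfe5d4c812a26)
  (PL.C (nat_lit 0x4783b3ef) (nat_lit 0x0) (nat_lit 0x1fedd144def9171)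
  (PL.C (nat_lit 0x479da7d9) (nat_lit 0xbcb040630e6d33) (nat_lit 0x0)
  (PL.C (nat_lit 0x47b91693) (nat_lit 0x0) (nat_lit 0xdb3dc1bf42097) gp1_1_194))))))))))))))))))))

noncomputable def gp1_1_192 : PL :=
  (PL.C (nat_lit 0x4303d863) (nat_lit 0x0) (nat_lit 0x18f14997321ccb)
  (PL.C (nat_lit 0x430da3a5) (nat_lit 0x0) (nat_lit 0x19f5506b3d6fe)
  (PL.C (nat_lit 0x43294eef) (nat_lit 0x0) (nat_lit 0xae2f16bbafacd2)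
  (PL.C (nat_lit 0x4376d5c5) (nat_lit 0x0) (nat_lit 0x2f93a2d5a57253b)
  (PL.C (nat_lit 0x437c88b7) (nat_lit 0x43b96106ded06) (nat_lit 0x0)
  (PL.C (nat_lit 0x4393279b) (nat_lit 0x0) (nat_lit 0x17b1467fe92b7d)
  (PL.C (nat_lit 0x43a38c37) (nat_lit 0x19c450eb7b48c8) (nat_lit 0x0)
  (PL.C (nat_lit 0x43bd5059) (nat_lit 0x0) (nat_lit 0xae2f16bbafacd2)
  (PL.C (nat_lit 0x43cc798b) (nat_lit 0x26354fb0cd46d) (nat_lit 0x0)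
  (PL.C (nat_lit 0x43ec16b9) (nat_lit 0x0) (nat_lit 0x224bcaf1a4db4)
  (PL.C (nat_lit 0x43efe195) (nat_lit 0xb7bba5fa6a3d6) (nat_lit 0x0)
  (PL.C (nat_lit 0x43f39522) (nat_lit 0x0) (nat_lit 0x4f3a478742ea70)
  (PL.C (nat_lit 0x443b66d3) (nat_lit 0x90a1cc23497e0) (nat_lit 0x0)
  (PL.C (nat_lit 0x44420576) (nat_lit 0x37b915d0280c5c) (nat_lit 0x0)
  (PL.C (nat_lit 0x4478c99b) (nat_lit 0x5dc907d8125a22) (nat_lit 0x0)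
  (PL.C (nat_lit 0x4489544e) (nat_lit 0x0) (nat_lit 0x6fcb36b8813c8a)
  (PL.C (nat_lit 0x44b2d9ea) (nat_lit 0x0) (nat_lit 0x28be4d79b3475)
  (PL.C (nat_lit 0x44bc7dd6) (nat_lit 0x81d4fc212dc5a) (nat_lit 0x0)
  (PL.C (nat_lit 0x44d1ef93) (nat_lit 0x240bf980d50f30) (nat_lit 0x0)
  (PL.C (nat_lit 0x44da196d) (nat_lit 0x0) (nat_lit 0x48ec483df2e2f) gp1_1_193))))))))))))))))))))

noncomputable def gp1_1_191 : PL :=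
  (PL.C (nat_lit 0x40e761cb) (nat_lit 0x0) (nat_lit 0x20bcc0c304f75b)
  (PL.C (nat_lit 0x412365be) (nat_lit 0x25d4b9fb1447c3) (nat_lit 0x0)
  (PL.C (nat_lit 0x416a2d05) (nat_lit 0x0) (nat_lit 0x4adb364c575d343)
  (PL.C (nat_lit 0x4176699d) (nat_lit 0xce37c5032075) (nat_lit 0x0)
  (PL.C (nat_lit 0x418af9c2) (nat_lit 0x268ea1c57c31f) (nat_lit 0x0)
  (PL.C (nat_lit 0x41b2f1d2) (nat_lit 0x1b75b1b79e6f3b) (nat_lit 0x0)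
  (PL.C (nat_lit 0x41bf580d) (nat_lit 0x2c86a115dddc5e) (nat_lit 0x0)
  (PL.C (nat_lit 0x41e03ff3) (nat_lit 0xe70198a9fc72c) (nat_lit 0x0)
  (PL.C (nat_lit 0x41fa5513) (nat_lit 0x0) (nat_lit 0x2a002739013d1cc)
  (PL.C (nat_lit 0x4205db43) (nat_lit 0x0) (nat_lit 0x2c6db7ff60db7)
  (PL.C (nat_lit 0x420b3d0f) (nat_lit 0xdb566a1a501be8) (nat_lit 0x0)
  (PL.C (nat_lit 0x42248965) (nat_lit 0x25a76827b0c8a0) (nat_lit 0x0)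
  (PL.C (nat_lit 0x422b95a7) (nat_lit 0x35f7e8dcfe11fe) (nat_lit 0x0)
  (PL.C (nat_lit 0x422c4af1) (nat_lit 0x327d6dff3c2ae2) (nat_lit 0x0)
  (PL.C (nat_lit 0x42503bcb) (nat_lit 0x22089f04e17bc5) (nat_lit 0x0)
  (PL.C (nat_lit 0x42716c35) (nat_lit 0x0) (nat_lit 0x4cb2d22054f020)
  (PL.C (nat_lit 0x4281bc7f) (nat_lit 0x0) (nat_lit 0x1806e337e5cb47)
  (PL.C (nat_lit 0x42975a65) (nat_lit 0x0) (nat_lit 0x9ecadc5c01b15)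
  (PL.C (nat_lit 0x42be1ec7) (nat_lit 0x0) (nat_lit 0x1dd0763f2dea6e)
  (PL.C (nat_lit 0x42f2dfb2) (nat_lit 0x0) (nat_lit 0x1e4573d9f1ad77) gp1_1_192))))))))))))))))))))

noncomputable def gp1_1_190 : PL :=
  (PL.C (nat_lit 0x3e8ec639) (nat_lit 0x0) (nat_lit 0x50b38b9c1824d0)
  (PL.C (nat_lit 0x3ea6bcb3) (nat_lit 0x0) (nat_lit 0x416cf0080b19b)
  (PL.C (nat_lit 0x3eb83c33) (nat_lit 0xa98b3d6ce4a94) (nat_lit 0x0)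
  (PL.C (nat_lit 0x3eba6047) (nat_lit 0x1f4c656a47ff62) (nat_lit 0x0)
  (PL.C (nat_lit 0x3ed0209d) (nat_lit 0x0) (nat_lit 0x3123e65a48d91a)
  (PL.C (nat_lit 0x3f06472f) (nat_lit 0x0) (nat_lit 0x2912f1a2aff13f)
  (PL.C (nat_lit 0x3f374779) (nat_lit 0x104fd09eae98e85) (nat_lit 0x0)
  (PL.C (nat_lit 0x3f636d9a) (nat_lit 0x0) (nat_lit 0x17c9fa4b911bb)
  (PL.C (nat_lit 0x3fa84e1f) (nat_lit 0x95de9f344e3086) (nat_lit 0x0)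
  (PL.C (nat_lit 0x3fd83381) (nat_lit 0x0) (nat_lit 0xa10114c15707f)
  (PL.C (nat_lit 0x3ff3b5d3) (nat_lit 0x99bfb2f54a3f7b) (nat_lit 0x0)
  (PL.C (nat_lit 0x3ff91cd1) (nat_lit 0x43b96106ded06) (nat_lit 0x0)
  (PL.C (nat_lit 0x401187d1) (nat_lit 0x0) (nat_lit 0x4e7750521dea39)
  (PL.C (nat_lit 0x4064e5b7) (nat_lit 0x0) (nat_lit 0x2c6db7ff60db7)
  (PL.C (nat_lit 0x406806c2) (nat_lit 0xfd511859571d1) (nat_lit 0x0)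
  (PL.C (nat_lit 0x40730ced) (nat_lit 0xe9b8a77a8215e9) (nat_lit 0x0)
  (PL.C (nat_lit 0x40b17c87) (nat_lit 0x0) (nat_lit 0x2c35fdf17e6f80)
  (PL.C (nat_lit 0x40b71287) (nat_lit 0x91345fe7234263b) (nat_lit 0x0)
  (PL.C (nat_lit 0x40c6f635) (nat_lit 0xbcb040630e6d33) (nat_lit 0x0)
  (PL.C (nat_lit 0x40d27d5e) (nat_lit 0x0) (nat_lit 0x595dd182d4575) gp1_1_191))))))))))))))))))))

noncomputable def gp1_1_189 : PL :=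
  (PL.C (nat_lit 0x3d0a3d26) (nat_lit 0x4725f841f65815) (nat_lit 0x0)
  (PL.C (nat_lit 0x3d0afb85) (nat_lit 0x19c450eb7b48c8) (nat_lit 0x0)
  (PL.C (nat_lit 0x3d16deef) (nat_lit 0x0) (nat_lit 0x2ee950822077c9)
  (PL.C (nat_lit 0x3d49c393) (nat_lit 0x1f2782c0117a2d) (nat_lit 0x0)
  (PL.C (nat_lit 0x3d551459) (nat_lit 0xf992765508bc3) (nat_lit 0x0)
  (PL.C (nat_lit 0x3d5b9d63) (nat_lit 0x50906372495d22) (nat_lit 0x0)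
  (PL.C (nat_lit 0x3d8487bb) (nat_lit 0x0) (nat_lit 0xcfe5d4c812a26)
  (PL.C (nat_lit 0x3d9082d1) (nat_lit 0x0) (nat_lit 0xa868a59d6058d1)
  (PL.C (nat_lit 0x3d90c12a) (nat_lit 0x113f5ae0c995d4) (nat_lit 0x0)
  (PL.C (nat_lit 0x3db32bd2) (nat_lit 0x4f1626f223bc7f) (nat_lit 0x0)
  (PL.C (nat_lit 0x3dbc2239) (nat_lit 0x796491aac24eba) (nat_lit 0x0)
  (PL.C (nat_lit 0x3dbd6a1e) (nat_lit 0x0) (nat_lit 0x32b76fae9cc6b4)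
  (PL.C (nat_lit 0x3dd0d395) (nat_lit 0x0) (nat_lit 0xeb13688be3d3c)
  (PL.C (nat_lit 0x3dd57e19) (nat_lit 0x5fc516cb34a2e) (nat_lit 0x0)
  (PL.C (nat_lit 0x3dea37f5) (nat_lit 0xfdc2eb8e57f10) (nat_lit 0x0)
  (PL.C (nat_lit 0x3e3b241e) (nat_lit 0xad421d878e624a) (nat_lit 0x0)
  (PL.C (nat_lit 0x3e46e2cb) (nat_lit 0x0) (nat_lit 0x45832cdd2a5b94)
  (PL.C (nat_lit 0x3e51399d) (nat_lit 0x0) (nat_lit 0x6f6f381115e62)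
  (PL.C (nat_lit 0x3e66fd3b) (nat_lit 0x0) (nat_lit 0x420d9652e6cd33)
  (PL.C (nat_lit 0x3e75401d) (nat_lit 0x0) (nat_lit 0x5e15fdb160682a) gp1_1_190))))))))))))))))))))

noncomputable def gp1_1_188 : PL :=
  (PL.C (nat_lit 0x3b1f7e1b) (nat_lit 0x0) (nat_lit 0xcb39bcaf3442ab)
  (PL.C (nat_lit 0x3b293e3b) (nat_lit 0x0) (nat_lit 0x1506ed526cc067)
  (PL.C (nat_lit 0x3b3042c5) (nat_lit 0x3eb2a79a967eaf) (nat_lit 0x0)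
  (PL.C (nat_lit 0x3b73dc22) (nat_lit 0x0) (nat_lit 0x1d9c6eb748a8de)
  (PL.C (nat_lit 0x3bbcc113) (nat_lit 0x0) (nat_lit 0x6d4b7b34075892)
  (PL.C (nat_lit 0x3bdaa6ed) (nat_lit 0x0) (nat_lit 0x1d4ae34ea19705)
  (PL.C (nat_lit 0x3bfd03c3) (nat_lit 0x0) (nat_lit 0x24961a415aa681)
  (PL.C (nat_lit 0x3c0231c3) (nat_lit 0x0) (nat_lit 0x99214098132fe9)
  (PL.C (nat_lit 0x3c2efd97) (nat_lit 0x3024cd6fd7e8e) (nat_lit 0x0)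
  (PL.C (nat_lit 0x3c4776e1) (nat_lit 0x0) (nat_lit 0x9631940e952d7e)
  (PL.C (nat_lit 0x3c4e03c7) (nat_lit 0x0) (nat_lit 0x9102ae57e82514)
  (PL.C (nat_lit 0x3c57ea29) (nat_lit 0x842402aa1b8978) (nat_lit 0x0)
  (PL.C (nat_lit 0x3c5e8deb) (nat_lit 0x0) (nat_lit 0x2197f9f2e2493)
  (PL.C (nat_lit 0x3c623a6b) (nat_lit 0x76911eed401093) (nat_lit 0x0)
  (PL.C (nat_lit 0x3c79ead6) (nat_lit 0x0) (nat_lit 0x343218164a5e7b)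
  (PL.C (nat_lit 0x3c837f51) (nat_lit 0x0) (nat_lit 0x2d295921f9e7)
  (PL.C (nat_lit 0x3c84df0a) (nat_lit 0x1e2bae6c75dd0e) (nat_lit 0x0)
  (PL.C (nat_lit 0x3c866fe5) (nat_lit 0x0) (nat_lit 0x1bdf684d70f549)
  (PL.C (nat_lit 0x3cb39e71) (nat_lit 0x0) (nat_lit 0x6abcaf7753151)
  (PL.C (nat_lit 0x3d05a171) (nat_lit 0xd26b110fd0a1e4) (nat_lit 0x0) gp1_1_189))))))))))))))))))))

noncomputable def gp1_1_187 : PL :=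
  (PL.C (nat_lit 0x39019ab3) (nat_lit 0x5194aee6cb870f) (nat_lit 0x0)
  (PL.C (nat_lit 0x39190553) (nat_lit 0x0) (nat_lit 0x5ffc00a2d1d08)
  (PL.C (nat_lit 0x392c28c7) (nat_lit 0x1eb016988727bb) (nat_lit 0x0)
  (PL.C (nat_lit 0x392ec57d) (nat_lit 0x0) (nat_lit 0x5ab3685afbfc1a)
  (PL.C (nat_lit 0x393ebdfd) (nat_lit 0x0) (nat_lit 0x9bd0b05fca8dc)
  (PL.C (nat_lit 0x394ec0db) (nat_lit 0x16702a06cb51d4) (nat_lit 0x0)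
  (PL.C (nat_lit 0x395c952a) (nat_lit 0x0) (nat_lit 0x1107ec6df7445f)
  (PL.C (nat_lit 0x39a46d3d) (nat_lit 0x0) (nat_lit 0xe6bb623a1818f)
  (PL.C (nat_lit 0x39cd0747) (nat_lit 0x5dc907d8125a22) (nat_lit 0x0)
  (PL.C (nat_lit 0x39dafe06) (nat_lit 0x0) (nat_lit 0x4210a4c3fe9322)
  (PL.C (nat_lit 0x39fe0b12) (nat_lit 0x0) (nat_lit 0x16a7a209cb41a3)
  (PL.C (nat_lit 0x3a117b4a) (nat_lit 0x0) (nat_lit 0x2e9024f2e1666a)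
  (PL.C (nat_lit 0x3a2a7e83) (nat_lit 0x0) (nat_lit 0x7bd89c28e6297)
  (PL.C (nat_lit 0x3a6da321) (nat_lit 0x0) (nat_lit 0x6d4b7b34075892)
  (PL.C (nat_lit 0x3a7b1c72) (nat_lit 0x0) (nat_lit 0xa8dd46690085aa)
  (PL.C (nat_lit 0x3a8404ab) (nat_lit 0x2b1700de57a0f5) (nat_lit 0x0)
  (PL.C (nat_lit 0x3a851b36) (nat_lit 0x1b2c7e0ae5ea6a) (nat_lit 0x0)
  (PL.C (nat_lit 0x3a9e503d) (nat_lit 0x0) (nat_lit 0xcb39bcaf3442ab)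
  (PL.C (nat_lit 0x3aaaad25) (nat_lit 0xa6dea8f96162f) (nat_lit 0x0)
  (PL.C (nat_lit 0x3af1f5ee) (nat_lit 0x0) (nat_lit 0x191c73507790f5) gp1_1_188))))))))))))))))))))

noncomputable def gp1_1_186 : PL :=
  (PL.C (nat_lit 0x375b3a3f) (nat_lit 0x0) (nat_lit 0xdfa4612a5606b)
  (PL.C (nat_lit 0x37669da2) (nat_lit 0x0) (nat_lit 0x7183fa9d566a3)
  (PL.C (nat_lit 0x376d48bd) (nat_lit 0x0) (nat_lit 0x523a3ef4ca6fbf)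
  (PL.C (nat_lit 0x3771f75f) (nat_lit 0x0) (nat_lit 0x1a4e78f7ec4b8)
  (PL.C (nat_lit 0x377e7ab7) (nat_lit 0x4410a111d9e4a) (nat_lit 0x0)
  (PL.C (nat_lit 0x37804701) (nat_lit 0xa6dea8f96162f) (nat_lit 0x0)
  (PL.C (nat_lit 0x378f68cd) (nat_lit 0x124d927712aea1) (nat_lit 0x0)
  (PL.C (nat_lit 0x37af874d) (nat_lit 0x0) (nat_lit 0xd0f1c0f09fb589)
  (PL.C (nat_lit 0x37b2129f) (nat_lit 0x0) (nat_lit 0x4adb364c575d343)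
  (PL.C (nat_lit 0x37deb14e) (nat_lit 0xdfc139ebdeb9a) (nat_lit 0x0)
  (PL.C (nat_lit 0x37eb4003) (nat_lit 0xddeb4539bf094) (nat_lit 0x0)
  (PL.C (nat_lit 0x37fa9637) (nat_lit 0x0) (nat_lit 0x7bd89c28e6297)
  (PL.C (nat_lit 0x38143786) (nat_lit 0xf0690f092f3d7) (nat_lit 0x0)
  (PL.C (nat_lit 0x383b0b92) (nat_lit 0x0) (nat_lit 0x4210a4c3fe9322)
  (PL.C (nat_lit 0x384c36cd) (nat_lit 0xd466e333dc83d24) (nat_lit 0x0)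
  (PL.C (nat_lit 0x387bf446) (nat_lit 0x0) (nat_lit 0x32b76fae9cc6b4)
  (PL.C (nat_lit 0x38958315) (nat_lit 0x0) (nat_lit 0x4b3164c5a2f32c)
  (PL.C (nat_lit 0x38b1d4eb) (nat_lit 0x0) (nat_lit 0x9c1a0f8bd9be3b)
  (PL.C (nat_lit 0x38b6f65e) (nat_lit 0x0) (nat_lit 0x1107ec6df7445f)
  (PL.C (nat_lit 0x38e0b933) (nat_lit 0x26570049c86867) (nat_lit 0x0) gp1_1_187))))))))))))))))))))

noncomputable def gp1_1_185 : PL :=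
  (PL.C (nat_lit 0x34ea25f2) (nat_lit 0x0) (nat_lit 0x3ec8703f2760)
  (PL.C (nat_lit 0x34f3c5a3) (nat_lit 0x0) (nat_lit 0x2e132968abd15)
  (PL.C (nat_lit 0x354c0832) (nat_lit 0x0) (nat_lit 0x43d4031e2fb45)
  (PL.C (nat_lit 0x358ce646) (nat_lit 0x0) (nat_lit 0x3673d22eaa8ff4)
  (PL.C (nat_lit 0x3598e183) (nat_lit 0x15849bc38a6049) (nat_lit 0x0)
  (PL.C (nat_lit 0x35c71631) (nat_lit 0x0) (nat_lit 0x3b37ba82b743e3e)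
  (PL.C (nat_lit 0x35f7873a) (nat_lit 0x0) (nat_lit 0x1218d31563507d)
  (PL.C (nat_lit 0x35fc465f) (nat_lit 0x0) (nat_lit 0x109436084750ed7)
  (PL.C (nat_lit 0x35ff4475) (nat_lit 0x345a959541ef59) (nat_lit 0x0)
  (PL.C (nat_lit 0x3600d5d5) (nat_lit 0x0) (nat_lit 0xc496f2cb6b21f)
  (PL.C (nat_lit 0x3612efc1) (nat_lit 0x425732a3e64fa) (nat_lit 0x0)
  (PL.C (nat_lit 0x36428ff7) (nat_lit 0x0) (nat_lit 0x81e8fb0fc7598a)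
  (PL.C (nat_lit 0x365db809) (nat_lit 0x1809a24c5c4d4f) (nat_lit 0x0)
  (PL.C (nat_lit 0x3685e71d) (nat_lit 0x0) (nat_lit 0x338930b9fdd490)
  (PL.C (nat_lit 0x36a130e3) (nat_lit 0xa7a2f9b84e61f3) (nat_lit 0x0)
  (PL.C (nat_lit 0x36d586ef) (nat_lit 0x14faf950a98fdd) (nat_lit 0x0)
  (PL.C (nat_lit 0x36e24739) (nat_lit 0x11b19599abe750) (nat_lit 0x0)
  (PL.C (nat_lit 0x3721a1f3) (nat_lit 0x0) (nat_lit 0x14592bc053ac90)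
  (PL.C (nat_lit 0x3736c031) (nat_lit 0x57f48f0b8c481) (nat_lit 0x0)
  (PL.C (nat_lit 0x373861d9) (nat_lit 0x0) (nat_lit 0x2a002739013d1cc) gp1_1_186))))))))))))))))))))

noncomputable def gp1_1_184 : PL :=
  (PL.C (nat_lit 0x3332c4d5) (nat_lit 0x0) (nat_lit 0xd57e4e8ab611c)
  (PL.C (nat_lit 0x3334481d) (nat_lit 0x255b9e8f0e4400) (nat_lit 0x0)
  (PL.C (nat_lit 0x3357f863) (nat_lit 0x16cd5777) (nat_lit 0x0)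
  (PL.C (nat_lit 0x33655611) (nat_lit 0x3093ee429ef8d3) (nat_lit 0x0)
  (PL.C (nat_lit 0x3391a4eb) (nat_lit 0x0) (nat_lit 0x8a7a987943e921)
  (PL.C (nat_lit 0x33a51f3b) (nat_lit 0x2f0dda1f5bbf2b) (nat_lit 0x0)
  (PL.C (nat_lit 0x33bc9b1f) (nat_lit 0x604bd8c63a828d) (nat_lit 0x0)
  (PL.C (nat_lit 0x33f853d5) (nat_lit 0x0) (nat_lit 0x129d6d2b5506afa)
  (PL.C (nat_lit 0x340020de) (nat_lit 0x47e06e36938f6) (nat_lit 0x0)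
  (PL.C (nat_lit 0x34054089) (nat_lit 0x0) (nat_lit 0xf6b6a14ca3e03)
  (PL.C (nat_lit 0x3407c77d) (nat_lit 0x0) (nat_lit 0x2d406f2964ec22)
  (PL.C (nat_lit 0x341d26dd) (nat_lit 0x3eb2a79a967eaf) (nat_lit 0x0)
  (PL.C (nat_lit 0x342e9ea9) (nat_lit 0x32bba7c8a5116a) (nat_lit 0x0)
  (PL.C (nat_lit 0x344ca287) (nat_lit 0x0) (nat_lit 0x4ecdff1835d787)
  (PL.C (nat_lit 0x3458701f) (nat_lit 0x0) (nat_lit 0x2e9ff5cd4776407)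
  (PL.C (nat_lit 0x3474624a) (nat_lit 0xf18c79535fa4a) (nat_lit 0x0)
  (PL.C (nat_lit 0x34ad6167) (nat_lit 0xb710d1571d4e61) (nat_lit 0x0)
  (PL.C (nat_lit 0x34b96b51) (nat_lit 0x2466824187e36f) (nat_lit 0x0)
  (PL.C (nat_lit 0x34bf098b) (nat_lit 0x3be9fa61ef192) (nat_lit 0x0)
  (PL.C (nat_lit 0x34d9525d) (nat_lit 0xdb566a1a501be8) (nat_lit 0x0) gp1_1_185))))))))))))))))))))

noncomputable def gp1_1_183 : PL :=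
  (PL.C (nat_lit 0x3143b343) (nat_lit 0x3f6cc09a96d823) (nat_lit 0x0)
  (PL.C (nat_lit 0x31861a79) (nat_lit 0x374e271e1d9e10) (nat_lit 0x0)
  (PL.C (nat_lit 0x31a5cb7d) (nat_lit 0x13a3417b656deb6) (nat_lit 0x0)
  (PL.C (nat_lit 0x31af8de6) (nat_lit 0x0) (nat_lit 0x961cf2361b82e)
  (PL.C (nat_lit 0x31dde967) (nat_lit 0x0) (nat_lit 0x348906b6243e89)
  (PL.C (nat_lit 0x31f6de99) (nat_lit 0x796491aac24eba) (nat_lit 0x0)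
  (PL.C (nat_lit 0x320099ab) (nat_lit 0x0) (nat_lit 0x88101e37b52645)
  (PL.C (nat_lit 0x320f29fb) (nat_lit 0x0) (nat_lit 0x671adc8bd03de)
  (PL.C (nat_lit 0x32136489) (nat_lit 0x1710430e354dda) (nat_lit 0x0)
  (PL.C (nat_lit 0x32453234) (nat_lit 0x12bba43421ac48) (nat_lit 0x0)
  (PL.C (nat_lit 0x325056f3) (nat_lit 0x618af6a1768678) (nat_lit 0x0)
  (PL.C (nat_lit 0x326ecabd) (nat_lit 0x30805d8d2b70c6) (nat_lit 0x0)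
  (PL.C (nat_lit 0x3283821d) (nat_lit 0x0) (nat_lit 0x56cefdf06bbb5)
  (PL.C (nat_lit 0x32a8160f) (nat_lit 0x0) (nat_lit 0x35c173028f0d58)
  (PL.C (nat_lit 0x32d33683) (nat_lit 0x4f184295a30309) (nat_lit 0x0)
  (PL.C (nat_lit 0x32e81723) (nat_lit 0x328343bdb78b1b) (nat_lit 0x0)
  (PL.C (nat_lit 0x32f0728d) (nat_lit 0xb710d1571d4e61) (nat_lit 0x0)
  (PL.C (nat_lit 0x32f92757) (nat_lit 0x0) (nat_lit 0xa429f4f33459f4)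
  (PL.C (nat_lit 0x331729ae) (nat_lit 0x37b915d0280c5c) (nat_lit 0x0)
  (PL.C (nat_lit 0x3317b839) (nat_lit 0x0) (nat_lit 0x26aa6e154d49bd) gp1_1_184))))))))))))))))))))

noncomputable def gp1_1_182 : PL :=
  (PL.C (nat_lit 0x2fe04456) (nat_lit 0x0) (nat_lit 0x4f3a478742ea70)
  (PL.C (nat_lit 0x2fe55257) (nat_lit 0x0) (nat_lit 0x60f535896fef27)
  (PL.C (nat_lit 0x2ff0507e) (nat_lit 0x0) (nat_lit 0x49c7c0bd38837f)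
  (PL.C (nat_lit 0x3004f6b9) (nat_lit 0x0) (nat_lit 0x35c173028f0d58)
  (PL.C (nat_lit 0x301f46bf) (nat_lit 0xddd57c4d6cdbb) (nat_lit 0x0)
  (PL.C (nat_lit 0x303dd1e2) (nat_lit 0x0) (nat_lit 0x5cffbe1d88a2)
  (PL.C (nat_lit 0x3064c462) (nat_lit 0x0) (nat_lit 0xa9a6be97e792cd)
  (PL.C (nat_lit 0x306fd3ae) (nat_lit 0x1c8038330cb62b) (nat_lit 0x0)
  (PL.C (nat_lit 0x307581b6) (nat_lit 0xd709c28d195803) (nat_lit 0x0)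
  (PL.C (nat_lit 0x308866ad) (nat_lit 0x108096d82f9a8f) (nat_lit 0x0)
  (PL.C (nat_lit 0x30a3c632) (nat_lit 0x19a2e1cac5b1b) (nat_lit 0x0)
  (PL.C (nat_lit 0x30a4752d) (nat_lit 0x0) (nat_lit 0x217331e01b0db93)
  (PL.C (nat_lit 0x30a8218e) (nat_lit 0xad6dc684e9c6c) (nat_lit 0x0)
  (PL.C (nat_lit 0x30ad71d2) (nat_lit 0x362381093d5064) (nat_lit 0x0)
  (PL.C (nat_lit 0x30d49123) (nat_lit 0x0) (nat_lit 0x1e20b88847eeda8)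
  (PL.C (nat_lit 0x30d8a023) (nat_lit 0x0) (nat_lit 0xab6cee1fa1b62)
  (PL.C (nat_lit 0x30e04c1a) (nat_lit 0x62b03d620cb7ab) (nat_lit 0x0)
  (PL.C (nat_lit 0x31135b82) (nat_lit 0x0) (nat_lit 0xeabde88fdb617)
  (PL.C (nat_lit 0x3119e5cf) (nat_lit 0x193606951924e1) (nat_lit 0x0)
  (PL.C (nat_lit 0x31419e66) (nat_lit 0x88dac58a5f95e) (nat_lit 0x0) gp1_1_183))))))))))))))))))))

noncomputable def gp1_1_181 : PL :=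
  (PL.C (nat_lit 0x2ea18732) (nat_lit 0xdfc139ebdeb9a) (nat_lit 0x0)
  (PL.C (nat_lit 0x2ea5027f) (nat_lit 0x193d41ee7e7abae) (nat_lit 0x0)
  (PL.C (nat_lit 0x2ebab97b) (nat_lit 0x45abfeb0c2c61) (nat_lit 0x0)
  (PL.C (nat_lit 0x2ecc03f6) (nat_lit 0x0) (nat_lit 0x343218164a5e7b)
  (PL.C (nat_lit 0x2ed40382) (nat_lit 0x1b2c7e0ae5ea6a) (nat_lit 0x0)
  (PL.C (nat_lit 0x2ed708f1) (nat_lit 0x0) (nat_lit 0xb043cfc4b5886)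
  (PL.C (nat_lit 0x2ee82f47) (nat_lit 0x0) (nat_lit 0x4df61c240cb6e)
  (PL.C (nat_lit 0x2f01e341) (nat_lit 0x2c8acb23f1d2d9f) (nat_lit 0x0)
  (PL.C (nat_lit 0x2f344d4f) (nat_lit 0x425732a3e64fa) (nat_lit 0x0)
  (PL.C (nat_lit 0x2f3c0d21) (nat_lit 0x696bb2395361a0) (nat_lit 0x0)
  (PL.C (nat_lit 0x2f441fd3) (nat_lit 0x0) (nat_lit 0x10ea5aaad0bd)
  (PL.C (nat_lit 0x2f601a9a) (nat_lit 0x0) (nat_lit 0x3c2d8a980f53db)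
  (PL.C (nat_lit 0x2f77a95a) (nat_lit 0x0) (nat_lit 0x6fcb36b8813c8a)
  (PL.C (nat_lit 0x2f879272) (nat_lit 0x0) (nat_lit 0xa29744529c948)
  (PL.C (nat_lit 0x2f964887) (nat_lit 0xcee6735095d2c) (nat_lit 0x0)
  (PL.C (nat_lit 0x2f9c0b8f) (nat_lit 0x0) (nat_lit 0x26aa6e154d49bd)
  (PL.C (nat_lit 0x2fa9d4a7) (nat_lit 0x97d8ecc61994c5) (nat_lit 0x0)
  (PL.C (nat_lit 0x2fbe6fe6) (nat_lit 0x886254da967d75) (nat_lit 0x0)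
  (PL.C (nat_lit 0x2fcd65a9) (nat_lit 0x236428f0b8cdb6) (nat_lit 0x0)
  (PL.C (nat_lit 0x2fd300a5) (nat_lit 0x0) (nat_lit 0x338930b9fdd490) gp1_1_182))))))))))))))))))))

noncomputable def gp1_1_180 : PL :=
  (PL.C (nat_lit 0x2d0cc512) (nat_lit 0x0) (nat_lit 0x34550c6ea14b77)
  (PL.C (nat_lit 0x2d0cc7f7) (nat_lit 0x2f7a873a4b2c3cf) (nat_lit 0x0)
  (PL.C (nat_lit 0x2d202cbf) (nat_lit 0x0) (nat_lit 0x4cffa91c017296)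
  (PL.C (nat_lit 0x2d32fbb2) (nat_lit 0x0) (nat_lit 0x6e9d6cbfd6d0d)
  (PL.C (nat_lit 0x2d476f4f) (nat_lit 0x0) (nat_lit 0x50b38b9c1824d0)
  (PL.C (nat_lit 0x2d480f26) (nat_lit 0x0) (nat_lit 0x3ec8703f2760)
  (PL.C (nat_lit 0x2d5e18b1) (nat_lit 0x0) (nat_lit 0xd4fd778fd3bf78)
  (PL.C (nat_lit 0x2d87b92b) (nat_lit 0x7a14a11233ee1) (nat_lit 0x0)
  (PL.C (nat_lit 0x2d9f319b) (nat_lit 0x1f194f5bb75531) (nat_lit 0x0)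
  (PL.C (nat_lit 0x2da59885) (nat_lit 0xddeb4539bf094) (nat_lit 0x0)
  (PL.C (nat_lit 0x2dc21307) (nat_lit 0x0) (nat_lit 0x995713ec4f63c0)
  (PL.C (nat_lit 0x2de14a62) (nat_lit 0x12955d1b14c69f) (nat_lit 0x0)
  (PL.C (nat_lit 0x2de6bb9e) (nat_lit 0x0) (nat_lit 0xd11ab4df7322f)
  (PL.C (nat_lit 0x2dec0f3d) (nat_lit 0x0) (nat_lit 0x2cbe866f7351b6)
  (PL.C (nat_lit 0x2e1324ab) (nat_lit 0x0) (nat_lit 0x336c79ff6d3b5e)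
  (PL.C (nat_lit 0x2e40b685) (nat_lit 0x2fbb914cd777e2) (nat_lit 0x0)
  (PL.C (nat_lit 0x2e549fdd) (nat_lit 0x14f8b892870ac0) (nat_lit 0x0)
  (PL.C (nat_lit 0x2e7c1179) (nat_lit 0xf9f5509a722f2) (nat_lit 0x0)
  (PL.C (nat_lit 0x2e8a1aff) (nat_lit 0x0) (nat_lit 0x12bfb09480d7ac)
  (PL.C (nat_lit 0x2e9beeb5) (nat_lit 0x0) (nat_lit 0x227e241e552874) gp1_1_181))))))))))))))))))))

noncomputable def gp1_1_179 : PL :=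
  (PL.C (nat_lit 0x2bd4e55e) (nat_lit 0x43556d1ce1ccb5) (nat_lit 0x0)
  (PL.C (nat_lit 0x2bebf831) (nat_lit 0x39644b8) (nat_lit 0x0)
  (PL.C (nat_lit 0x2c0338ed) (nat_lit 0x0) (nat_lit 0x3abd9fa1413a86)
  (PL.C (nat_lit 0x2c03e782) (nat_lit 0x0) (nat_lit 0x59f5cf2f73686)
  (PL.C (nat_lit 0x2c077e0a) (nat_lit 0xb8009604b58beb) (nat_lit 0x0)
  (PL.C (nat_lit 0x2c2eb149) (nat_lit 0x6b7250fbc72020) (nat_lit 0x0)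
  (PL.C (nat_lit 0x2c300edb) (nat_lit 0x2ebb1df3a5ed00e) (nat_lit 0x0)
  (PL.C (nat_lit 0x2c357d32) (nat_lit 0xd658716018d227) (nat_lit 0x0)
  (PL.C (nat_lit 0x2c567daa) (nat_lit 0x0) (nat_lit 0x3bc29512aa7b7a)
  (PL.C (nat_lit 0x2c64e6ee) (nat_lit 0xa1aa630f59bc7) (nat_lit 0x0)
  (PL.C (nat_lit 0x2c6586a3) (nat_lit 0x4fe8cc8021f06e0) (nat_lit 0x0)
  (PL.C (nat_lit 0x2c6996d3) (nat_lit 0xc7a64f34b43f74) (nat_lit 0x0)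
  (PL.C (nat_lit 0x2c77c343) (nat_lit 0x842402aa1b8978) (nat_lit 0x0)
  (PL.C (nat_lit 0x2c7fd12d) (nat_lit 0x0) (nat_lit 0xc890e6bb5baf7)
  (PL.C (nat_lit 0x2c86aaf7) (nat_lit 0x163f4fa466bd65) (nat_lit 0x0)
  (PL.C (nat_lit 0x2cb035ed) (nat_lit 0x0) (nat_lit 0x8c355867037d2)
  (PL.C (nat_lit 0x2cb3c26e) (nat_lit 0x91adf105559e0) (nat_lit 0x0)
  (PL.C (nat_lit 0x2ccb7655) (nat_lit 0x75e3ab8ef07111) (nat_lit 0x0)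
  (PL.C (nat_lit 0x2ce1e1ab) (nat_lit 0x0) (nat_lit 0x1d9777515f1dc)
  (PL.C (nat_lit 0x2cfdb07a) (nat_lit 0x0) (nat_lit 0x3803ddb57664fb) gp1_1_180))))))))))))))))))))

noncomputable def gp1_1_178 : PL :=
  (PL.C (nat_lit 0x2a53bbf9) (nat_lit 0xd11bc85e1fa1a) (nat_lit 0x0)
  (PL.C (nat_lit 0x2a6e2443) (nat_lit 0x0) (nat_lit 0x47ae37b8f0e9ef)
  (PL.C (nat_lit 0x2a902256) (nat_lit 0x0) (nat_lit 0x58f503e4dce1c)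
  (PL.C (nat_lit 0x2a92b871) (nat_lit 0x17b8ff6aec30e11) (nat_lit 0x0)
  (PL.C (nat_lit 0x2aa43551) (nat_lit 0x0) (nat_lit 0x15ea88da30911c)
  (PL.C (nat_lit 0x2aa61336) (nat_lit 0x0) (nat_lit 0x3803ddb57664fb)
  (PL.C (nat_lit 0x2ab2804d) (nat_lit 0x10e442d60f7860) (nat_lit 0x0)
  (PL.C (nat_lit 0x2ae391f9) (nat_lit 0x15849bc38a6049) (nat_lit 0x0)
  (PL.C (nat_lit 0x2ae77dcf) (nat_lit 0x0) (nat_lit 0x14e3f05f9a0c4c5)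
  (PL.C (nat_lit 0x2aedee7a) (nat_lit 0x0) (nat_lit 0xd103d2a4beb72)
  (PL.C (nat_lit 0x2b002b81) (nat_lit 0x0) (nat_lit 0x3121cbf43733ca)
  (PL.C (nat_lit 0x2b0784f3) (nat_lit 0x76911eed401093) (nat_lit 0x0)
  (PL.C (nat_lit 0x2b088b63) (nat_lit 0x302aec5a403475c) (nat_lit 0x0)
  (PL.C (nat_lit 0x2b0c2e01) (nat_lit 0xe45036bad0097) (nat_lit 0x0)
  (PL.C (nat_lit 0x2b2f4ece) (nat_lit 0x886254da967d75) (nat_lit 0x0)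
  (PL.C (nat_lit 0x2b40929b) (nat_lit 0x26ea3f9221a98e) (nat_lit 0x0)
  (PL.C (nat_lit 0x2b41e8d1) (nat_lit 0x0) (nat_lit 0x9631940e952d7e)
  (PL.C (nat_lit 0x2b578f2f) (nat_lit 0x16079d0b) (nat_lit 0x0)
  (PL.C (nat_lit 0x2b5e3b5d) (nat_lit 0x533ca8214d75392) (nat_lit 0x0)
  (PL.C (nat_lit 0x2b96b225) (nat_lit 0x330668ba9daf0e) (nat_lit 0x0) gp1_1_179))))))))))))))))))))

noncomputable def gp1_1_177 : PL :=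
  (PL.C (nat_lit 0x2943f06f) (nat_lit 0x0) (nat_lit 0x2eb2275754d2c6)
  (PL.C (nat_lit 0x2947a2b1) (nat_lit 0x6422038b60ff54) (nat_lit 0x0)
  (PL.C (nat_lit 0x2953a8a1) (nat_lit 0x97bf69618d5e6) (nat_lit 0x0)
  (PL.C (nat_lit 0x29589791) (nat_lit 0x2f3ec022323378) (nat_lit 0x0)
  (PL.C (nat_lit 0x29703201) (nat_lit 0x0) (nat_lit 0x2d295921f9e7)
  (PL.C (nat_lit 0x29849732) (nat_lit 0xa76efbc52bd00e) (nat_lit 0x0)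
  (PL.C (nat_lit 0x29897709) (nat_lit 0x0) (nat_lit 0x19b952ef6fe0c)
  (PL.C (nat_lit 0x298b7bbe) (nat_lit 0x142125b23bc493) (nat_lit 0x0)
  (PL.C (nat_lit 0x29963d8f) (nat_lit 0x2c8acb23f1d2d9f) (nat_lit 0x0)
  (PL.C (nat_lit 0x299e40f7) (nat_lit 0x62fcb5a34bca6) (nat_lit 0x0)
  (PL.C (nat_lit 0x29b48426) (nat_lit 0x1638928873115a6) (nat_lit 0x0)
  (PL.C (nat_lit 0x29d02822) (nat_lit 0x1cc3cb403276a8) (nat_lit 0x0)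
  (PL.C (nat_lit 0x29e015be) (nat_lit 0x6d5dd9b7ac3731) (nat_lit 0x0)
  (PL.C (nat_lit 0x29e90c31) (nat_lit 0x13a3417b656deb6) (nat_lit 0x0)
  (PL.C (nat_lit 0x29f9f811) (nat_lit 0x0) (nat_lit 0x2deb898e16776)
  (PL.C (nat_lit 0x2a116f55) (nat_lit 0x0) (nat_lit 0x20a5e3f5fdd91d)
  (PL.C (nat_lit 0x2a186b43) (nat_lit 0x184eb38630d3e6) (nat_lit 0x0)
  (PL.C (nat_lit 0x2a271ee5) (nat_lit 0x95de9f344e3086) (nat_lit 0x0)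
  (PL.C (nat_lit 0x2a2d7cbd) (nat_lit 0x2d3eb0d5417817) (nat_lit 0x0)
  (PL.C (nat_lit 0x2a35b397) (nat_lit 0x0) (nat_lit 0xc02a3b4d246abe) gp1_1_178))))))))))))))))))))

noncomputable def gp1_1_176 : PL :=
  (PL.C (nat_lit 0x27df9365) (nat_lit 0x1e639265c6e7d2) (nat_lit 0x0)
  (PL.C (nat_lit 0x27fe0282) (nat_lit 0x0) (nat_lit 0x225ac78bb199c)
  (PL.C (nat_lit 0x28017682) (nat_lit 0x0) (nat_lit 0x189e883c236e148)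
  (PL.C (nat_lit 0x281f53ba) (nat_lit 0x0) (nat_lit 0x3da4a78410ae40)
  (PL.C (nat_lit 0x282bbee3) (nat_lit 0x0) (nat_lit 0x107b775395f95b)
  (PL.C (nat_lit 0x282fa496) (nat_lit 0x0) (nat_lit 0x36a904deb7045e)
  (PL.C (nat_lit 0x28309c0b) (nat_lit 0x0) (nat_lit 0x1bdf684d70f549)
  (PL.C (nat_lit 0x28441529) (nat_lit 0x0) (nat_lit 0xa2e2449fbc2b8)
  (PL.C (nat_lit 0x2852d34f) (nat_lit 0x0) (nat_lit 0x421b5fe4a0966e)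
  (PL.C (nat_lit 0x2857aa36) (nat_lit 0x211d7867d51f8) (nat_lit 0x0)
  (PL.C (nat_lit 0x28599fee) (nat_lit 0x7adc1f80b50b41) (nat_lit 0x0)
  (PL.C (nat_lit 0x2877bef6) (nat_lit 0x1fc189df46895) (nat_lit 0x0)
  (PL.C (nat_lit 0x28892d5d) (nat_lit 0x0) (nat_lit 0x99214098132fe9)
  (PL.C (nat_lit 0x289aebd9) (nat_lit 0x3f46ae01e66382) (nat_lit 0x0)
  (PL.C (nat_lit 0x28e362e6) (nat_lit 0x0) (nat_lit 0xd5eecaad51a4c)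
  (PL.C (nat_lit 0x28e7be42) (nat_lit 0xf0d71699ad33ea) (nat_lit 0x0)
  (PL.C (nat_lit 0x28f95ce7) (nat_lit 0x65d058a1993468) (nat_lit 0x0)
  (PL.C (nat_lit 0x290fd0a1) (nat_lit 0xb37b1f93d56ddb) (nat_lit 0x0)
  (PL.C (nat_lit 0x292eb5bf) (nat_lit 0x0) (nat_lit 0x3263d94cfdf30c)
  (PL.C (nat_lit 0x29435241) (nat_lit 0xe5b8d98c9c98a) (nat_lit 0x0) gp1_1_177))))))))))))))))))))

noncomputable def gp1_1_175 : PL :=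
  (PL.C (nat_lit 0x2691cfcd) (nat_lit 0x0) (nat_lit 0x1cb6782fbe9356)
  (PL.C (nat_lit 0x26ab4ae3) (nat_lit 0x14f8b892870ac0) (nat_lit 0x0)
  (PL.C (nat_lit 0x26c6ff02) (nat_lit 0x0) (nat_lit 0x2a8286b336927)
  (PL.C (nat_lit 0x26d61d97) (nat_lit 0x33e55451dfdab1) (nat_lit 0x0)
  (PL.C (nat_lit 0x26dcc0d5) (nat_lit 0x0) (nat_lit 0x44d247da92659f)
  (PL.C (nat_lit 0x26ec9117) (nat_lit 0x0) (nat_lit 0x34e91d54b2568b3)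
  (PL.C (nat_lit 0x26f3c216) (nat_lit 0x0) (nat_lit 0x2343fd503f6ada)
  (PL.C (nat_lit 0x2708adef) (nat_lit 0x1f66cc1f1056fb) (nat_lit 0x0)
  (PL.C (nat_lit 0x2714357e) (nat_lit 0x0) (nat_lit 0x98f46b17c87a37)
  (PL.C (nat_lit 0x27164fd9) (nat_lit 0xe2d2c6027c049) (nat_lit 0x0)
  (PL.C (nat_lit 0x271c736e) (nat_lit 0x35bd2f5a73156a) (nat_lit 0x0)
  (PL.C (nat_lit 0x2723d513) (nat_lit 0x45c95ef7ec6ddc) (nat_lit 0x0)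
  (PL.C (nat_lit 0x273d831d) (nat_lit 0x0) (nat_lit 0x55c5cdd9140bbc)
  (PL.C (nat_lit 0x27510351) (nat_lit 0x4dee3d2e9b7c48) (nat_lit 0x0)
  (PL.C (nat_lit 0x276012bb) (nat_lit 0x193d41ee7e7abae) (nat_lit 0x0)
  (PL.C (nat_lit 0x276a5412) (nat_lit 0x0) (nat_lit 0x98f46b17c87a37)
  (PL.C (nat_lit 0x277a1615) (nat_lit 0x8667683a9a0ba2) (nat_lit 0x0)
  (PL.C (nat_lit 0x27ae7a05) (nat_lit 0x3f6cc09a96d823) (nat_lit 0x0)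
  (PL.C (nat_lit 0x27c8b12b) (nat_lit 0x0) (nat_lit 0x321837fcdf155f)
  (PL.C (nat_lit 0x27d32b62) (nat_lit 0x0) (nat_lit 0x2343fd503f6ada) gp1_1_176))))))))))))))))))))

noncomputable def gp1_1_174 : PL :=
  (PL.C (nat_lit 0x25478002) (nat_lit 0x3cfd899bb3d778) (nat_lit 0x0)
  (PL.C (nat_lit 0x2551b97a) (nat_lit 0x0) (nat_lit 0x1affeedbc4dc30)
  (PL.C (nat_lit 0x257a466f) (nat_lit 0x0) (nat_lit 0x30790caaa613ce5)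
  (PL.C (nat_lit 0x25967931) (nat_lit 0xd3329bef250445) (nat_lit 0x0)
  (PL.C (nat_lit 0x259d9f93) (nat_lit 0x0) (nat_lit 0x129d6d2b5506afa)
  (PL.C (nat_lit 0x25a9d981) (nat_lit 0x0) (nat_lit 0x239ec054cf9a0b)
  (PL.C (nat_lit 0x25b9020e) (nat_lit 0x0) (nat_lit 0x29216d5b12da48)
  (PL.C (nat_lit 0x25c5f71d) (nat_lit 0x0) (nat_lit 0x17b1467fe92b7d)
  (PL.C (nat_lit 0x25e1ff3d) (nat_lit 0x54f9fd840e0fcd3) (nat_lit 0x0)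
  (PL.C (nat_lit 0x25e94e87) (nat_lit 0x0) (nat_lit 0x3385af2dc65897)
  (PL.C (nat_lit 0x25eb2622) (nat_lit 0x0) (nat_lit 0x208ae78c84c2bf)
  (PL.C (nat_lit 0x2617d5fb) (nat_lit 0x0) (nat_lit 0x239ec054cf9a0b)
  (PL.C (nat_lit 0x2629d3fe) (nat_lit 0x0) (nat_lit 0x181f4be4d8064e)
  (PL.C (nat_lit 0x262ddb7b) (nat_lit 0x15aa983c1e7cd7e) (nat_lit 0x0)
  (PL.C (nat_lit 0x26348092) (nat_lit 0x0) (nat_lit 0x1218d31563507d)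
  (PL.C (nat_lit 0x263c5467) (nat_lit 0xa98b3d6ce4a94) (nat_lit 0x0)
  (PL.C (nat_lit 0x2656cdb5) (nat_lit 0x45abfeb0c2c61) (nat_lit 0x0)
  (PL.C (nat_lit 0x2681fe6d) (nat_lit 0x0) (nat_lit 0x3d860cfd7bd916)
  (PL.C (nat_lit 0x26830f47) (nat_lit 0x0) (nat_lit 0x3f80daca2b4c5a)
  (PL.C (nat_lit 0x268ff7eb) (nat_lit 0xcfe662184943b1) (nat_lit 0x0) gp1_1_175))))))))))))))))))))

noncomputable def gp1_1_173 : PL :=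
  (PL.C (nat_lit 0x242c5ffa) (nat_lit 0x0) (nat_lit 0x44ad17319101bc)
  (PL.C (nat_lit 0x2437c74b) (nat_lit 0x0) (nat_lit 0x421b5fe4a0966e)
  (PL.C (nat_lit 0x2453ae2f) (nat_lit 0x0) (nat_lit 0x1aba6eb7aff8d45)
  (PL.C (nat_lit 0x2456bfc5) (nat_lit 0x3327dd7e2f5f6d) (nat_lit 0x0)
  (PL.C (nat_lit 0x245944be) (nat_lit 0x0) (nat_lit 0x46b663bbdd5ca4)
  (PL.C (nat_lit 0x2462edf1) (nat_lit 0x0) (nat_lit 0xb6b4019fa7612)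
  (PL.C (nat_lit 0x2479a16b) (nat_lit 0x0) (nat_lit 0x1bb772708af6a01)
  (PL.C (nat_lit 0x24889d0b) (nat_lit 0x0) (nat_lit 0x74256c327f940)
  (PL.C (nat_lit 0x2496da26) (nat_lit 0x171c5b6c94e7c6) (nat_lit 0x0)
  (PL.C (nat_lit 0x249c0391) (nat_lit 0x0) (nat_lit 0x2a826ae8dbcb936)
  (PL.C (nat_lit 0x24c116a2) (nat_lit 0x2e7551a4fcf3b1) (nat_lit 0x0)
  (PL.C (nat_lit 0x24ca7c7f) (nat_lit 0x124d927712aea1) (nat_lit 0x0)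
  (PL.C (nat_lit 0x24de93f1) (nat_lit 0x0) (nat_lit 0x1096f7acb53d176)
  (PL.C (nat_lit 0x24e77c2a) (nat_lit 0x0) (nat_lit 0x46df21d5b5635)
  (PL.C (nat_lit 0x24f6a4ea) (nat_lit 0x0) (nat_lit 0x5e93c41c98f42)
  (PL.C (nat_lit 0x24fefc7a) (nat_lit 0xdfff809856c49) (nat_lit 0x0)
  (PL.C (nat_lit 0x25002f56) (nat_lit 0xfdd011f51ea3a) (nat_lit 0x0)
  (PL.C (nat_lit 0x250a45de) (nat_lit 0x3133a1fd81d4d0) (nat_lit 0x0)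
  (PL.C (nat_lit 0x252e8703) (nat_lit 0x2850871244e5e5) (nat_lit 0x0)
  (PL.C (nat_lit 0x254458d7) (nat_lit 0x0) (nat_lit 0x2d9c76c37aa684) gp1_1_174))))))))))))))))))))

noncomputable def gp1_1_172 : PL :=
  (PL.C (nat_lit 0x2378bff9) (nat_lit 0xdaa511a767ef1) (nat_lit 0x0)
  (PL.C (nat_lit 0x2386cb59) (nat_lit 0x0) (nat_lit 0x169d6e2aac10af6)
  (PL.C (nat_lit 0x238cffe9) (nat_lit 0x0) (nat_lit 0x5d5eaa0002ac8)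
  (PL.C (nat_lit 0x238fe5cd) (nat_lit 0x171f128e768ea72) (nat_lit 0x0)
  (PL.C (nat_lit 0x23956339) (nat_lit 0x14cce1a0ef0d3a7) (nat_lit 0x0)
  (PL.C (nat_lit 0x239d850f) (nat_lit 0x0) (nat_lit 0x8a7a987943e921)
  (PL.C (nat_lit 0x23a07401) (nat_lit 0x0) (nat_lit 0x1d4e2b907b33b1)
  (PL.C (nat_lit 0x23a15095) (nat_lit 0x163f4fa466bd65) (nat_lit 0x0)
  (PL.C (nat_lit 0x23a1b233) (nat_lit 0x0) (nat_lit 0x3d860cfd7bd916)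
  (PL.C (nat_lit 0x23b50c81) (nat_lit 0x7b34347334ad75) (nat_lit 0x0)
  (PL.C (nat_lit 0x23b60983) (nat_lit 0x18fe1c33e52721) (nat_lit 0x0)
  (PL.C (nat_lit 0x23bb4102) (nat_lit 0x102e2914300623e) (nat_lit 0x0)
  (PL.C (nat_lit 0x23c3b761) (nat_lit 0x23d73c4b54957) (nat_lit 0x0)
  (PL.C (nat_lit 0x23c6eb7f) (nat_lit 0x0) (nat_lit 0xbfd45c93fccb5a)
  (PL.C (nat_lit 0x23db580f) (nat_lit 0x0) (nat_lit 0x856265b291afd)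
  (PL.C (nat_lit 0x23f037f5) (nat_lit 0x15aa983c1e7cd7e) (nat_lit 0x0)
  (PL.C (nat_lit 0x24008e8e) (nat_lit 0x0) (nat_lit 0x43d4031e2fb45)
  (PL.C (nat_lit 0x240c9fd6) (nat_lit 0x30ffaa5af37184) (nat_lit 0x0)
  (PL.C (nat_lit 0x2415c349) (nat_lit 0xdaa511a767ef1) (nat_lit 0x0)
  (PL.C (nat_lit 0x2429ef6d) (nat_lit 0x0) (nat_lit 0xf17e4fdd124a57) gp1_1_173))))))))))))))))))))

noncomputable def gp1_1_171 : PL :=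
  (PL.C (nat_lit 0x22438eb6) (nat_lit 0x0) (nat_lit 0x1418d8917fb2aa)
  (PL.C (nat_lit 0x2246eefd) (nat_lit 0x619da7c21cb192) (nat_lit 0x0)
  (PL.C (nat_lit 0x226e14d2) (nat_lit 0x0) (nat_lit 0x402e63d3be2f15f)
  (PL.C (nat_lit 0x22886841) (nat_lit 0x0) (nat_lit 0x1beef8d297f5bd)
  (PL.C (nat_lit 0x22aac094) (nat_lit 0x0) (nat_lit 0x24b01cb8f2efe)
  (PL.C (nat_lit 0x22ae2b06) (nat_lit 0x174f4a2efe276) (nat_lit 0x0)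
  (PL.C (nat_lit 0x22b41aa7) (nat_lit 0x0) (nat_lit 0x2a826ae8dbcb936)
  (PL.C (nat_lit 0x22d59c6b) (nat_lit 0x0) (nat_lit 0x58a8930483a5e)
  (PL.C (nat_lit 0x22d5b935) (nat_lit 0x2466824187e36f) (nat_lit 0x0)
  (PL.C (nat_lit 0x22d8bb35) (nat_lit 0x55cbed8c52bd8c1) (nat_lit 0x0)
  (PL.C (nat_lit 0x22e1497f) (nat_lit 0xf496fae9d8762f) (nat_lit 0x0)
  (PL.C (nat_lit 0x22e70b95) (nat_lit 0x2b5042f4d26454) (nat_lit 0x0)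
  (PL.C (nat_lit 0x22f2be81) (nat_lit 0x5403cb521e9b30) (nat_lit 0x0)
  (PL.C (nat_lit 0x2306b1f1) (nat_lit 0xbd3aae85af151) (nat_lit 0x0)
  (PL.C (nat_lit 0x231b160b) (nat_lit 0x0) (nat_lit 0xd0f1c0f09fb589)
  (PL.C (nat_lit 0x23392bef) (nat_lit 0x0) (nat_lit 0x2166ee41d983462)
  (PL.C (nat_lit 0x233b8c3e) (nat_lit 0xb8009604b58beb) (nat_lit 0x0)
  (PL.C (nat_lit 0x233fc2b7) (nat_lit 0x66bef629234f68) (nat_lit 0x0)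
  (PL.C (nat_lit 0x23529c87) (nat_lit 0x3015d0c19594c) (nat_lit 0x0)
  (PL.C (nat_lit 0x23670807) (nat_lit 0x0) (nat_lit 0x2663f2fe8a8b06) gp1_1_172))))))))))))))))))))

noncomputable def gp1_1_170 : PL :=
  (PL.C (nat_lit 0x21266dd3) (nat_lit 0x10b73ed1a30752) (nat_lit 0x0)
  (PL.C (nat_lit 0x213deb0b) (nat_lit 0x0) (nat_lit 0x719194392af4a)
  (PL.C (nat_lit 0x213e9b9a) (nat_lit 0x0) (nat_lit 0xc84c23aed3d1c6)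
  (PL.C (nat_lit 0x214b92ab) (nat_lit 0x90a1cc23497e0) (nat_lit 0x0)
  (PL.C (nat_lit 0x215f7152) (nat_lit 0x0) (nat_lit 0xae123d4ee4da41)
  (PL.C (nat_lit 0x21624306) (nat_lit 0x1be12a84ccd8dd) (nat_lit 0x0)
  (PL.C (nat_lit 0x2188a181) (nat_lit 0x0) (nat_lit 0x206be180b491b)
  (PL.C (nat_lit 0x218ae4a2) (nat_lit 0x8ec5c306603962) (nat_lit 0x0)
  (PL.C (nat_lit 0x218e32b7) (nat_lit 0x0) (nat_lit 0x1a3e4008a71e44)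
  (PL.C (nat_lit 0x2199ead1) (nat_lit 0xa06044026f3b9c) (nat_lit 0x0)
  (PL.C (nat_lit 0x21af570b) (nat_lit 0x681f92bbc61958) (nat_lit 0x0)
  (PL.C (nat_lit 0x21bc3e39) (nat_lit 0x74f5600e037015) (nat_lit 0x0)
  (PL.C (nat_lit 0x21c5640a) (nat_lit 0x3a55c3d206e2ee) (nat_lit 0x0)
  (PL.C (nat_lit 0x21d287b7) (nat_lit 0xbabd12d95036d) (nat_lit 0x0)
  (PL.C (nat_lit 0x21efb02d) (nat_lit 0x0) (nat_lit 0x446dc489a6ba19)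
  (PL.C (nat_lit 0x21f269b5) (nat_lit 0x1a067a466fb5ae) (nat_lit 0x0)
  (PL.C (nat_lit 0x220a12cb) (nat_lit 0x0) (nat_lit 0x14e3f05f9a0c4c5)
  (PL.C (nat_lit 0x220fd026) (nat_lit 0x0) (nat_lit 0x4b3de3da451bc3)
  (PL.C (nat_lit 0x2221d88e) (nat_lit 0x0) (nat_lit 0x719c158d075b9)
  (PL.C (nat_lit 0x2222dabe) (nat_lit 0x0) (nat_lit 0x1533ecaccabab34) gp1_1_171))))))))))))))))))))

noncomputable def gp1_1_169 : PL :=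
  (PL.C (nat_lit 0x20681265) (nat_lit 0x406e4ed711c512) (nat_lit 0x0)
  (PL.C (nat_lit 0x206d2ecc) (nat_lit 0x0) (nat_lit 0x5ced6eb123bc4)
  (PL.C (nat_lit 0x20754003) (nat_lit 0x0) (nat_lit 0x1256448b293bcb4)
  (PL.C (nat_lit 0x2078c6f5) (nat_lit 0x0) (nat_lit 0x60da2c8b0de754)
  (PL.C (nat_lit 0x2081aee1) (nat_lit 0x0) (nat_lit 0xc02a3b4d246abe)
  (PL.C (nat_lit 0x208d7ad7) (nat_lit 0x150bff0afabede3) (nat_lit 0x0)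
  (PL.C (nat_lit 0x20906ac2) (nat_lit 0x0) (nat_lit 0x7facf9107f3ff9)
  (PL.C (nat_lit 0x20959353) (nat_lit 0x19b9d687ee7e3) (nat_lit 0x0)
  (PL.C (nat_lit 0x2097288f) (nat_lit 0x0) (nat_lit 0x31fca4d4dfbbb4)
  (PL.C (nat_lit 0x2099f2fd) (nat_lit 0x0) (nat_lit 0x2222332b02576)
  (PL.C (nat_lit 0x20a48baf) (nat_lit 0x1ba83e2a56cc5d) (nat_lit 0x0)
  (PL.C (nat_lit 0x20af7cb3) (nat_lit 0x406e4ed711c512) (nat_lit 0x0)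
  (PL.C (nat_lit 0x20bbee8a) (nat_lit 0xafeb2f0d359937) (nat_lit 0x0)
  (PL.C (nat_lit 0x20dba5b3) (nat_lit 0x0) (nat_lit 0x1aba6eb7aff8d45)
  (PL.C (nat_lit 0x20de876f) (nat_lit 0x5a11f60b6fec6) (nat_lit 0x0)
  (PL.C (nat_lit 0x20fee2fd) (nat_lit 0x5e044fcbd6a1c4) (nat_lit 0x0)
  (PL.C (nat_lit 0x210411a6) (nat_lit 0x5b144899c9c2f5) (nat_lit 0x0)
  (PL.C (nat_lit 0x21066d6b) (nat_lit 0x0) (nat_lit 0x14a245727dcf12)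
  (PL.C (nat_lit 0x2109f249) (nat_lit 0x0) (nat_lit 0x3517b9487277df)
  (PL.C (nat_lit 0x211ffa51) (nat_lit 0x0) (nat_lit 0x48bb6968847bee) gp1_1_170))))))))))))))))))))

noncomputable def gp1_1_168 : PL :=
  (PL.C (nat_lit 0x1f905297) (nat_lit 0x0) (nat_lit 0x13945e07f8b9fac)
  (PL.C (nat_lit 0x1fb4c1fd) (nat_lit 0x0) (nat_lit 0x164050f2cde8f9e)
  (PL.C (nat_lit 0x1fbd5d0a) (nat_lit 0x0) (nat_lit 0x4b3de3da451bc3)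
  (PL.C (nat_lit 0x1fc0e71f) (nat_lit 0x0) (nat_lit 0xa868a59d6058d1)
  (PL.C (nat_lit 0x1fcb3945) (nat_lit 0x0) (nat_lit 0x4cffa91c017296)
  (PL.C (nat_lit 0x1fd5e171) (nat_lit 0x0) (nat_lit 0xe5f8645c555e84)
  (PL.C (nat_lit 0x1fde43c6) (nat_lit 0x362381093d5064) (nat_lit 0x0)
  (PL.C (nat_lit 0x1fe2006e) (nat_lit 0x0) (nat_lit 0x46b663bbdd5ca4)
  (PL.C (nat_lit 0x1fe8313f) (nat_lit 0x0) (nat_lit 0xab6cee1fa1b62)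
  (PL.C (nat_lit 0x1feda54d) (nat_lit 0x0) (nat_lit 0x10ea5aaad0bd)
  (PL.C (nat_lit 0x1ffa9ef1) (nat_lit 0x0) (nat_lit 0x9853edd304c610)
  (PL.C (nat_lit 0x20034f26) (nat_lit 0x3a55c3d206e2ee) (nat_lit 0x0)
  (PL.C (nat_lit 0x2023371f) (nat_lit 0x2d34ea86d2585c) (nat_lit 0x0)
  (PL.C (nat_lit 0x202a8f59) (nat_lit 0x7e1461319c27db) (nat_lit 0x0)
  (PL.C (nat_lit 0x203aa8a7) (nat_lit 0x17b8ff6aec30e11) (nat_lit 0x0)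
  (PL.C (nat_lit 0x204d0eb7) (nat_lit 0x0) (nat_lit 0x1530d935159c75)
  (PL.C (nat_lit 0x204d2969) (nat_lit 0x1d78b0de065cf) (nat_lit 0x0)
  (PL.C (nat_lit 0x204ff369) (nat_lit 0x0) (nat_lit 0xa461bd40314737)
  (PL.C (nat_lit 0x205aef1e) (nat_lit 0x0) (nat_lit 0x4b7a59a1554dee)
  (PL.C (nat_lit 0x205d3949) (nat_lit 0x0) (nat_lit 0x15de9f56a3772b) gp1_1_169))))))))))))))))))))

noncomputable def gp1_1_167 : PL :=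
  (PL.C (nat_lit 0x1e9d5f7e) (nat_lit 0x8a43afbc55bad) (nat_lit 0x0)
  (PL.C (nat_lit 0x1ea063b9) (nat_lit 0x21eff28c7c890a) (nat_lit 0x0)
  (PL.C (nat_lit 0x1eaa612b) (nat_lit 0x0) (nat_lit 0x34e91d54b2568b3)
  (PL.C (nat_lit 0x1eb21839) (nat_lit 0x0) (nat_lit 0x1ae994cff2ba0e)
  (PL.C (nat_lit 0x1ebeb419) (nat_lit 0x5a11f60b6fec6) (nat_lit 0x0)
  (PL.C (nat_lit 0x1eca6a57) (nat_lit 0x0) (nat_lit 0x7e51fe18e9d32b)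
  (PL.C (nat_lit 0x1ed14e85) (nat_lit 0x0) (nat_lit 0x6f6f381115e62)
  (PL.C (nat_lit 0x1ee3153e) (nat_lit 0x0) (nat_lit 0x5042f798ca09eb)
  (PL.C (nat_lit 0x1f06bcaa) (nat_lit 0x5e22bb528061ff) (nat_lit 0x0)
  (PL.C (nat_lit 0x1f19148f) (nat_lit 0x0) (nat_lit 0x44d247da92659f)
  (PL.C (nat_lit 0x1f1fa175) (nat_lit 0x0) (nat_lit 0x53db470e2388422)
  (PL.C (nat_lit 0x1f272652) (nat_lit 0x0) (nat_lit 0x1c32c6bc72c9c8)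
  (PL.C (nat_lit 0x1f3a05f6) (nat_lit 0x0) (nat_lit 0x8e3917e963a62)
  (PL.C (nat_lit 0x1f3c3afd) (nat_lit 0x18fe1c33e52721) (nat_lit 0x0)
  (PL.C (nat_lit 0x1f4574da) (nat_lit 0x88dac58a5f95e) (nat_lit 0x0)
  (PL.C (nat_lit 0x1f4bdd03) (nat_lit 0x0) (nat_lit 0x9bd0b05fca8dc)
  (PL.C (nat_lit 0x1f761cc3) (nat_lit 0x0) (nat_lit 0x9711d0b8f6ee31)
  (PL.C (nat_lit 0x1f78338a) (nat_lit 0x30ffaa5af37184) (nat_lit 0x0)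
  (PL.C (nat_lit 0x1f7d5e16) (nat_lit 0x0) (nat_lit 0xf0db9415f6be55)
  (PL.C (nat_lit 0x1f82bfe2) (nat_lit 0x67beb89c313cd) (nat_lit 0x0) gp1_1_168))))))))))))))))))))

noncomputable def gp1_1_166 : PL :=
  (PL.C (nat_lit 0x1dcace9e) (nat_lit 0xfd511859571d1) (nat_lit 0x0)
  (PL.C (nat_lit 0x1ddcf98e) (nat_lit 0xe62775314ef06b) (nat_lit 0x0)
  (PL.C (nat_lit 0x1de29c63) (nat_lit 0x0) (nat_lit 0x1bb4fca79bfa3f)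
  (PL.C (nat_lit 0x1deac247) (nat_lit 0x0) (nat_lit 0x37735b33a9908)
  (PL.C (nat_lit 0x1dfc0dc7) (nat_lit 0x0) (nat_lit 0xa25ab2e0f29021)
  (PL.C (nat_lit 0x1dfd6c7d) (nat_lit 0x365551fd7d1330d) (nat_lit 0x0)
  (PL.C (nat_lit 0x1e051bc1) (nat_lit 0xa18873362d72c2) (nat_lit 0x0)
  (PL.C (nat_lit 0x1e109b8b) (nat_lit 0x0) (nat_lit 0x2ee950822077c9)
  (PL.C (nat_lit 0x1e13cfa9) (nat_lit 0x297faab7a177d3) (nat_lit 0x0)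
  (PL.C (nat_lit 0x1e15732a) (nat_lit 0x58345361a70b9e) (nat_lit 0x0)
  (PL.C (nat_lit 0x1e1c3629) (nat_lit 0x31e1c8a7174c2) (nat_lit 0x0)
  (PL.C (nat_lit 0x1e247845) (nat_lit 0x0) (nat_lit 0xf886f8140c90d5)
  (PL.C (nat_lit 0x1e2f9f8a) (nat_lit 0x1638928873115a6) (nat_lit 0x0)
  (PL.C (nat_lit 0x1e506c47) (nat_lit 0x3a4da8cc06f321c) (nat_lit 0x0)
  (PL.C (nat_lit 0x1e5a7b72) (nat_lit 0x0) (nat_lit 0x9af51741ed210)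
  (PL.C (nat_lit 0x1e6a2112) (nat_lit 0xbfae6a422dea5) (nat_lit 0x0)
  (PL.C (nat_lit 0x1e6e65ae) (nat_lit 0x2f206562b6cbdc) (nat_lit 0x0)
  (PL.C (nat_lit 0x1e77e41f) (nat_lit 0x0) (nat_lit 0x162823e176318ae)
  (PL.C (nat_lit 0x1e8723e1) (nat_lit 0x0) (nat_lit 0x19816cd5ccc7ba1)
  (PL.C (nat_lit 0x1e989151) (nat_lit 0x0) (nat_lit 0xf47c738239dba) gp1_1_167))))))))))))))))))))

noncomputable def gp1_1_165 : PL :=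
  (PL.C (nat_lit 0x1cf50bf3) (nat_lit 0x0) (nat_lit 0x14a49f12d416d2a)
  (PL.C (nat_lit 0x1d052eaf) (nat_lit 0x0) (nat_lit 0x767270cc3f57f)
  (PL.C (nat_lit 0x1d0f216e) (nat_lit 0x0) (nat_lit 0x4bec8b309b1d4d)
  (PL.C (nat_lit 0x1d11afbd) (nat_lit 0xb37b1f93d56ddb) (nat_lit 0x0)
  (PL.C (nat_lit 0x1d14245f) (nat_lit 0x3327dd7e2f5f6d) (nat_lit 0x0)
  (PL.C (nat_lit 0x1d452299) (nat_lit 0x0) (nat_lit 0x5d5eaa0002ac8)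
  (PL.C (nat_lit 0x1d4b9183) (nat_lit 0x533ca8214d75392) (nat_lit 0x0)
  (PL.C (nat_lit 0x1d57efac) (nat_lit 0xe30507767c28a) (nat_lit 0x0)
  (PL.C (nat_lit 0x1d5bcb37) (nat_lit 0x0) (nat_lit 0x1aa4cc5041b892)
  (PL.C (nat_lit 0x1d67f2c9) (nat_lit 0x0) (nat_lit 0x5e15fdb160682a)
  (PL.C (nat_lit 0x1d6a7cc9) (nat_lit 0x55cbed8c52bd8c1) (nat_lit 0x0)
  (PL.C (nat_lit 0x1d71b5bb) (nat_lit 0xbd973bc318c112) (nat_lit 0x0)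
  (PL.C (nat_lit 0x1d7b47b9) (nat_lit 0xc6133c6274e60) (nat_lit 0x0)
  (PL.C (nat_lit 0x1d807245) (nat_lit 0x111048bab5c641) (nat_lit 0x0)
  (PL.C (nat_lit 0x1d96245b) (nat_lit 0x0) (nat_lit 0xbe109bfe8b84c)
  (PL.C (nat_lit 0x1d9899f4) (nat_lit 0x30c357d4a12236) (nat_lit 0x0)
  (PL.C (nat_lit 0x1d9bb9e2) (nat_lit 0x631140ebc2ceeb) (nat_lit 0x0)
  (PL.C (nat_lit 0x1dafa5f9) (nat_lit 0x0) (nat_lit 0x491507f0f24b12)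
  (PL.C (nat_lit 0x1dbbe5eb) (nat_lit 0x365551fd7d1330d) (nat_lit 0x0)
  (PL.C (nat_lit 0x1dc175d3) (nat_lit 0x1f2782c0117a2d) (nat_lit 0x0) gp1_1_166))))))))))))))))))))

noncomputable def gp1_1_164 : PL :=
  (PL.C (nat_lit 0x1c104782) (nat_lit 0x106899006ed063) (nat_lit 0x0)
  (PL.C (nat_lit 0x1c191a5b) (nat_lit 0x25545fa276272f) (nat_lit 0x0)
  (PL.C (nat_lit 0x1c37d2a6) (nat_lit 0x15f10ed4dbbfa6) (nat_lit 0x0)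
  (PL.C (nat_lit 0x1c43fa45) (nat_lit 0x50e9b108152cc) (nat_lit 0x0)
  (PL.C (nat_lit 0x1c496d82) (nat_lit 0xe69b849199f71c) (nat_lit 0x0)
  (PL.C (nat_lit 0x1c5d5bd5) (nat_lit 0x7f8bfb3c7fe9bd) (nat_lit 0x0)
  (PL.C (nat_lit 0x1c6016e4) (nat_lit 0x29f96369e3eb71) (nat_lit 0x0)
  (PL.C (nat_lit 0x1c63d753) (nat_lit 0x28d07da05e9756) (nat_lit 0x0)
  (PL.C (nat_lit 0x1c66ddc1) (nat_lit 0x0) (nat_lit 0x602c3171971fc0)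
  (PL.C (nat_lit 0x1c7504f7) (nat_lit 0x672b8e54a84331) (nat_lit 0x0)
  (PL.C (nat_lit 0x1c834309) (nat_lit 0xddd57c4d6cdbb) (nat_lit 0x0)
  (PL.C (nat_lit 0x1c9389f9) (nat_lit 0x1fb22e28a84a16) (nat_lit 0x0)
  (PL.C (nat_lit 0x1c97b6a6) (nat_lit 0x102e2914300623e) (nat_lit 0x0)
  (PL.C (nat_lit 0x1c9e9efc) (nat_lit 0x2726b70154941) (nat_lit 0x0)
  (PL.C (nat_lit 0x1cadaec9) (nat_lit 0x0) (nat_lit 0x164050f2cde8f9e)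
  (PL.C (nat_lit 0x1cb2c956) (nat_lit 0x1f0cb81a7f9de9) (nat_lit 0x0)
  (PL.C (nat_lit 0x1cbc0937) (nat_lit 0x4f184295a30309) (nat_lit 0x0)
  (PL.C (nat_lit 0x1cd5b712) (nat_lit 0x355b2822a5094) (nat_lit 0x0)
  (PL.C (nat_lit 0x1cd69b36) (nat_lit 0x0) (nat_lit 0x36a904deb7045e)
  (PL.C (nat_lit 0x1cdc2aa9) (nat_lit 0x0) (nat_lit 0x68331e28e26357) gp1_1_165))))))))))))))))))))

noncomputable def gp1_1_163 : PL :=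
  (PL.C (nat_lit 0x1b74792a) (nat_lit 0x0) (nat_lit 0x1e640a6e435f1a)
  (PL.C (nat_lit 0x1b8236d6) (nat_lit 0x0) (nat_lit 0xeabde88fdb617)
  (PL.C (nat_lit 0x1b82a04a) (nat_lit 0x44c05cb1314263) (nat_lit 0x0)
  (PL.C (nat_lit 0x1b82ed0b) (nat_lit 0x3353ca17546513) (nat_lit 0x0)
  (PL.C (nat_lit 0x1b8d1b16) (nat_lit 0x0) (nat_lit 0xcca037c3868718)
  (PL.C (nat_lit 0x1b924e37) (nat_lit 0x5ecd8fc3edf2e2) (nat_lit 0x0)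
  (PL.C (nat_lit 0x1ba02156) (nat_lit 0xa2903fd16f05) (nat_lit 0x0)
  (PL.C (nat_lit 0x1bb0fa06) (nat_lit 0x0) (nat_lit 0x22e3753b3f37a5)
  (PL.C (nat_lit 0x1bb221dd) (nat_lit 0x0) (nat_lit 0x2f888a326f425d)
  (PL.C (nat_lit 0x1bbcbdbf) (nat_lit 0x33a1145a765f684) (nat_lit 0x0)
  (PL.C (nat_lit 0x1bbed5fa) (nat_lit 0xad6dc684e9c6c) (nat_lit 0x0)
  (PL.C (nat_lit 0x1bc493e1) (nat_lit 0x0) (nat_lit 0x4700441167dd0e)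
  (PL.C (nat_lit 0x1bcf10d1) (nat_lit 0x0) (nat_lit 0x5f2687ba6e9fe)
  (PL.C (nat_lit 0x1be3d32d) (nat_lit 0x0) (nat_lit 0x210a420feca4ff)
  (PL.C (nat_lit 0x1bfbde5f) (nat_lit 0x0) (nat_lit 0x264a67fa2b29d92)
  (PL.C (nat_lit 0x1bfbfab6) (nat_lit 0x0) (nat_lit 0x5cffbe1d88a2)
  (PL.C (nat_lit 0x1c02d3fb) (nat_lit 0x0) (nat_lit 0x160767de38058)
  (PL.C (nat_lit 0x1c043057) (nat_lit 0x0) (nat_lit 0x8e186996293f7)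
  (PL.C (nat_lit 0x1c0b9f8e) (nat_lit 0x87b6f24f7f5378) (nat_lit 0x0)
  (PL.C (nat_lit 0x1c0fb277) (nat_lit 0x9fd097f04e7d48) (nat_lit 0x0) gp1_1_164))))))))))))))))))))

noncomputable def gp1_1_162 : PL :=
  (PL.C (nat_lit 0x1acb12b2) (nat_lit 0x7adc1f80b50b41) (nat_lit 0x0)
  (PL.C (nat_lit 0x1ad9f3d5) (nat_lit 0x0) (nat_lit 0x167cb0bad2e4e8)
  (PL.C (nat_lit 0x1adfc4f5) (nat_lit 0x0) (nat_lit 0x13945e07f8b9fac)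
  (PL.C (nat_lit 0x1ae51c24) (nat_lit 0x5a95cc281b5c8) (nat_lit 0x0)
  (PL.C (nat_lit 0x1ae7642b) (nat_lit 0x9fd097f04e7d48) (nat_lit 0x0)
  (PL.C (nat_lit 0x1af47911) (nat_lit 0x343e1cce4b6696) (nat_lit 0x0)
  (PL.C (nat_lit 0x1af6bffb) (nat_lit 0xbf0c6e178394e) (nat_lit 0x0)
  (PL.C (nat_lit 0x1b061e3e) (nat_lit 0x0) (nat_lit 0x189e883c236e148)
  (PL.C (nat_lit 0x1b27407d) (nat_lit 0x0) (nat_lit 0x4c0d4662d0e6b4)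
  (PL.C (nat_lit 0x1b2a252f) (nat_lit 0x1232c46181babae) (nat_lit 0x0)
  (PL.C (nat_lit 0x1b34d783) (nat_lit 0x2d34bfa4382a5d) (nat_lit 0x0)
  (PL.C (nat_lit 0x1b46d0cd) (nat_lit 0x0) (nat_lit 0xa98b63bf060f1b)
  (PL.C (nat_lit 0x1b4d8347) (nat_lit 0x0) (nat_lit 0x18a10ff75f992e)
  (PL.C (nat_lit 0x1b50e89a) (nat_lit 0x0) (nat_lit 0x3e352ed0f1dd430)
  (PL.C (nat_lit 0x1b5e09a9) (nat_lit 0x0) (nat_lit 0x24c45f7bc4c937)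
  (PL.C (nat_lit 0x1b664d4f) (nat_lit 0x0) (nat_lit 0xdf77620b906e04)
  (PL.C (nat_lit 0x1b694789) (nat_lit 0x0) (nat_lit 0x8502261892beb5)
  (PL.C (nat_lit 0x1b6dc787) (nat_lit 0x2774553c29a2a7b) (nat_lit 0x0)
  (PL.C (nat_lit 0x1b70cc25) (nat_lit 0x0) (nat_lit 0x88101e37b52645)
  (PL.C (nat_lit 0x1b7277a5) (nat_lit 0x0) (nat_lit 0x4bbffde997cefb) gp1_1_163))))))))))))))))))))

noncomputable def gp1_1_161 : PL :=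
  (PL.C (nat_lit 0x19e413ba) (nat_lit 0x0) (nat_lit 0x1715a1e0658846d)
  (PL.C (nat_lit 0x19e8808e) (nat_lit 0x0) (nat_lit 0x21ac29f03d4f5d)
  (PL.C (nat_lit 0x19e974dd) (nat_lit 0x945acbaafa894c) (nat_lit 0x0)
  (PL.C (nat_lit 0x1a05c94a) (nat_lit 0x3dfa033a5d4f51) (nat_lit 0x0)
  (PL.C (nat_lit 0x1a0c8635) (nat_lit 0x330668ba9daf0e) (nat_lit 0x0)
  (PL.C (nat_lit 0x1a0edfe6) (nat_lit 0x0) (nat_lit 0x636fb85a0df4a0)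
  (PL.C (nat_lit 0x1a17e362) (nat_lit 0x0) (nat_lit 0xac5899b1caa7b)
  (PL.C (nat_lit 0x1a220fe7) (nat_lit 0x6f0984ce398e2a) (nat_lit 0x0)
  (PL.C (nat_lit 0x1a312b67) (nat_lit 0x0) (nat_lit 0x2281bbbf614414)
  (PL.C (nat_lit 0x1a360236) (nat_lit 0x1573a9cd6563120) (nat_lit 0x0)
  (PL.C (nat_lit 0x1a45ec09) (nat_lit 0x0) (nat_lit 0x1096f7acb53d176)
  (PL.C (nat_lit 0x1a51640e) (nat_lit 0x0) (nat_lit 0x7aafd1bf4d907)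
  (PL.C (nat_lit 0x1a70680d) (nat_lit 0x0) (nat_lit 0x10a015aecbb5f9a)
  (PL.C (nat_lit 0x1a85cb72) (nat_lit 0x0) (nat_lit 0x2a3c3ba82f3400)
  (PL.C (nat_lit 0x1a8eed0f) (nat_lit 0x0) (nat_lit 0x4c67099602f6d)
  (PL.C (nat_lit 0x1a950cee) (nat_lit 0x0) (nat_lit 0x77e6d2ba3f806b)
  (PL.C (nat_lit 0x1a991965) (nat_lit 0x9276a83326018) (nat_lit 0x0)
  (PL.C (nat_lit 0x1aa50d33) (nat_lit 0x0) (nat_lit 0xe5f8645c555e84)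
  (PL.C (nat_lit 0x1aaaabcb) (nat_lit 0x0) (nat_lit 0x3d02c4e5b4cd3a)
  (PL.C (nat_lit 0x1abbbc57) (nat_lit 0x2d0ad6efc90a19) (nat_lit 0x0) gp1_1_162))))))))))))))))))))

noncomputable def gp1_1_160 : PL :=
  (PL.C (nat_lit 0x192ea4be) (nat_lit 0x0) (nat_lit 0x43cc79d0815ead)
  (PL.C (nat_lit 0x1931acb3) (nat_lit 0x1b3436fb3578a6) (nat_lit 0x0)
  (PL.C (nat_lit 0x19397d99) (nat_lit 0x26570049c86867) (nat_lit 0x0)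
  (PL.C (nat_lit 0x19412fa3) (nat_lit 0x0) (nat_lit 0xadc67c4963c64)
  (PL.C (nat_lit 0x1946345a) (nat_lit 0x0) (nat_lit 0x39f3b0a7a0de13)
  (PL.C (nat_lit 0x194fc923) (nat_lit 0x278538c30d806c1) (nat_lit 0x0)
  (PL.C (nat_lit 0x1950f131) (nat_lit 0x0) (nat_lit 0x26da659e13f3070)
  (PL.C (nat_lit 0x19653952) (nat_lit 0x42b2543d278a0a) (nat_lit 0x0)
  (PL.C (nat_lit 0x196aee8d) (nat_lit 0x0) (nat_lit 0x10de3aa426d2f4)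
  (PL.C (nat_lit 0x196f1ac3) (nat_lit 0x0) (nat_lit 0x35ec78320c1131)
  (PL.C (nat_lit 0x19737399) (nat_lit 0x0) (nat_lit 0x564c5f21dfe)
  (PL.C (nat_lit 0x197d8d9a) (nat_lit 0x1cc3cb403276a8) (nat_lit 0x0)
  (PL.C (nat_lit 0x198f33ce) (nat_lit 0x0) (nat_lit 0x1c32c6bc72c9c8)
  (PL.C (nat_lit 0x199701a3) (nat_lit 0x3a4da8cc06f321c) (nat_lit 0x0)
  (PL.C (nat_lit 0x19acb4da) (nat_lit 0x0) (nat_lit 0xc59e1e602f9880)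
  (PL.C (nat_lit 0x19b54ff2) (nat_lit 0x141f8347dec0bb4) (nat_lit 0x0)
  (PL.C (nat_lit 0x19b77d8d) (nat_lit 0x108096d82f9a8f) (nat_lit 0x0)
  (PL.C (nat_lit 0x19b852db) (nat_lit 0x1cc19c3f519b01) (nat_lit 0x0)
  (PL.C (nat_lit 0x19c062cf) (nat_lit 0x0) (nat_lit 0xc682abf69415d)
  (PL.C (nat_lit 0x19c78742) (nat_lit 0x0) (nat_lit 0x5042f798ca09eb) gp1_1_161))))))))))))))))))))

noncomputable def gp1_1_159 : PL :=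
  (PL.C (nat_lit 0x188c041b) (nat_lit 0x1d195736978c0) (nat_lit 0x0)
  (PL.C (nat_lit 0x1890cbf1) (nat_lit 0x6796d6efc478e6) (nat_lit 0x0)
  (PL.C (nat_lit 0x18943e6f) (nat_lit 0x0) (nat_lit 0x10de3aa426d2f4)
  (PL.C (nat_lit 0x18a0756b) (nat_lit 0x0) (nat_lit 0x416270794c899)
  (PL.C (nat_lit 0x18a9e459) (nat_lit 0x33c3849759c185) (nat_lit 0x0)
  (PL.C (nat_lit 0x18b4f99f) (nat_lit 0x0) (nat_lit 0x1851b6301174e6)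
  (PL.C (nat_lit 0x18ba2f97) (nat_lit 0x0) (nat_lit 0x30b92d09cd7744)
  (PL.C (nat_lit 0x18c88053) (nat_lit 0x0) (nat_lit 0x4e6e0fa4f593e9)
  (PL.C (nat_lit 0x18d4e7ad) (nat_lit 0x63a9d04cec26fe) (nat_lit 0x0)
  (PL.C (nat_lit 0x18d83b3a) (nat_lit 0x0) (nat_lit 0x25dbc70b33e7f7)
  (PL.C (nat_lit 0x18eb6c29) (nat_lit 0x2df2b5b1b0f842) (nat_lit 0x0)
  (PL.C (nat_lit 0x18f27d77) (nat_lit 0x0) (nat_lit 0x11165130a67af)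
  (PL.C (nat_lit 0x190d1729) (nat_lit 0x0) (nat_lit 0x1580afdc02e709f)
  (PL.C (nat_lit 0x190efb76) (nat_lit 0xf18ae45a0666af) (nat_lit 0x0)
  (PL.C (nat_lit 0x190f499d) (nat_lit 0x0) (nat_lit 0x4be59136c1c9a2)
  (PL.C (nat_lit 0x1918e2ff) (nat_lit 0x0) (nat_lit 0xa2e2449fbc2b8)
  (PL.C (nat_lit 0x1919a0d7) (nat_lit 0x0) (nat_lit 0x169d6e2aac10af6)
  (PL.C (nat_lit 0x191be656) (nat_lit 0x42b2543d278a0a) (nat_lit 0x0)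
  (PL.C (nat_lit 0x19297791) (nat_lit 0x1ea366da4ca53f) (nat_lit 0x0)
  (PL.C (nat_lit 0x192db4d1) (nat_lit 0xa0919fe6dcec2) (nat_lit 0x0) gp1_1_160))))))))))))))))))))

noncomputable def gp1_1_158 : PL :=
  (PL.C (nat_lit 0x17ba91cf) (nat_lit 0x0) (nat_lit 0x49700d32381a489)
  (PL.C (nat_lit 0x17c04d56) (nat_lit 0x0) (nat_lit 0x24a96cd0f5a530)
  (PL.C (nat_lit 0x17cb1bb1) (nat_lit 0x0) (nat_lit 0x30790caaa613ce5)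
  (PL.C (nat_lit 0x17ce0856) (nat_lit 0xb84ca2f1c56bdf) (nat_lit 0x0)
  (PL.C (nat_lit 0x17ceb102) (nat_lit 0x2a88dd4cc065d0) (nat_lit 0x0)
  (PL.C (nat_lit 0x17d7cf96) (nat_lit 0x61aec12c1feee) (nat_lit 0x0)
  (PL.C (nat_lit 0x17e7900a) (nat_lit 0x0) (nat_lit 0x203bc103ea3310)
  (PL.C (nat_lit 0x17e7e609) (nat_lit 0xb0981a9268f4bd) (nat_lit 0x0)
  (PL.C (nat_lit 0x17f1b7e9) (nat_lit 0x2774553c29a2a7b) (nat_lit 0x0)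
  (PL.C (nat_lit 0x17f9be85) (nat_lit 0x0) (nat_lit 0x45878ead8d46a3)
  (PL.C (nat_lit 0x1805b113) (nat_lit 0x18dd27c90cd430c) (nat_lit 0x0)
  (PL.C (nat_lit 0x1811b6ed) (nat_lit 0x262bc8a85117a8) (nat_lit 0x0)
  (PL.C (nat_lit 0x18278a69) (nat_lit 0x0) (nat_lit 0x151a524a100986)
  (PL.C (nat_lit 0x1839d52e) (nat_lit 0x0) (nat_lit 0x3c3b5859aeb2b7)
  (PL.C (nat_lit 0x1841f3f6) (nat_lit 0x0) (nat_lit 0x266fd7ccd410f7)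
  (PL.C (nat_lit 0x1841f585) (nat_lit 0x0) (nat_lit 0x9853edd304c610)
  (PL.C (nat_lit 0x184c66dd) (nat_lit 0x0) (nat_lit 0x81682b504d6252)
  (PL.C (nat_lit 0x188428a1) (nat_lit 0x0) (nat_lit 0x19099676a77c6c)
  (PL.C (nat_lit 0x1886fdaa) (nat_lit 0x3133a1fd81d4d0) (nat_lit 0x0)
  (PL.C (nat_lit 0x1889f171) (nat_lit 0x0) (nat_lit 0x20e07b30b337740) gp1_1_159))))))))))))))))))))

noncomputable def gp1_1_157 : PL :=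
  (PL.C (nat_lit 0x172779e3) (nat_lit 0x0) (nat_lit 0x2aa604466ba281)
  (PL.C (nat_lit 0x172b6ef9) (nat_lit 0x0) (nat_lit 0xc851c571c2a96b)
  (PL.C (nat_lit 0x172bfc49) (nat_lit 0x0) (nat_lit 0x19d9f11970b216a)
  (PL.C (nat_lit 0x172df163) (nat_lit 0x7bcca1360860c) (nat_lit 0x0)
  (PL.C (nat_lit 0x173912f2) (nat_lit 0x18dd3253b5c25a) (nat_lit 0x0)
  (PL.C (nat_lit 0x1740dbaa) (nat_lit 0x0) (nat_lit 0x1ed78712b70af2)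
  (PL.C (nat_lit 0x17464f53) (nat_lit 0x34e79458012ffc) (nat_lit 0x0)
  (PL.C (nat_lit 0x174adfd3) (nat_lit 0x0) (nat_lit 0x62660f7827110f)
  (PL.C (nat_lit 0x1756882d) (nat_lit 0x39644b8) (nat_lit 0x0)
  (PL.C (nat_lit 0x1759cbf6) (nat_lit 0x0) (nat_lit 0x48f5fdaa36f65)
  (PL.C (nat_lit 0x175a1ff7) (nat_lit 0x503f4d1e8c6c38d) (nat_lit 0x0)
  (PL.C (nat_lit 0x1763dadd) (nat_lit 0x0) (nat_lit 0x1663ec90fd8579)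
  (PL.C (nat_lit 0x1778874f) (nat_lit 0x0) (nat_lit 0x11e71d9f1c78ca)
  (PL.C (nat_lit 0x177999d5) (nat_lit 0x2d2ebaf8a304f92) (nat_lit 0x0)
  (PL.C (nat_lit 0x178c685a) (nat_lit 0x5b22fb490bf3b) (nat_lit 0x0)
  (PL.C (nat_lit 0x1797667b) (nat_lit 0x3015d0c19594c) (nat_lit 0x0)
  (PL.C (nat_lit 0x179a055a) (nat_lit 0x0) (nat_lit 0xc69afec1a70c75)
  (PL.C (nat_lit 0x17a671f3) (nat_lit 0x91e9211a6a6397) (nat_lit 0x0)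
  (PL.C (nat_lit 0x17b35546) (nat_lit 0x0) (nat_lit 0x1852249727e909)
  (PL.C (nat_lit 0x17b543de) (nat_lit 0x5046f9e1e73389d) (nat_lit 0x0) gp1_1_158))))))))))))))))))))

noncomputable def gp1_1_156 : PL :=
  (PL.C (nat_lit 0x165ecc7a) (nat_lit 0xd8a1b0c213105) (nat_lit 0x0)
  (PL.C (nat_lit 0x1664974d) (nat_lit 0x1c1b1b7d4756557) (nat_lit 0x0)
  (PL.C (nat_lit 0x1674e4b2) (nat_lit 0x3c10425786168d6) (nat_lit 0x0)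
  (PL.C (nat_lit 0x1682c637) (nat_lit 0x0) (nat_lit 0x86b70b8c99395d)
  (PL.C (nat_lit 0x168c5a7a) (nat_lit 0x671e4fd855623d) (nat_lit 0x0)
  (PL.C (nat_lit 0x16912df3) (nat_lit 0xb12cf787c679586) (nat_lit 0x0)
  (PL.C (nat_lit 0x16a19bce) (nat_lit 0x81a593f4fae58b) (nat_lit 0x0)
  (PL.C (nat_lit 0x16aaafe9) (nat_lit 0x1795a9f5fa1ce5) (nat_lit 0x0)
  (PL.C (nat_lit 0x16b60817) (nat_lit 0x0) (nat_lit 0x274c41c86d334)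
  (PL.C (nat_lit 0x16ba7465) (nat_lit 0x0) (nat_lit 0x7a7a864fdbcb76)
  (PL.C (nat_lit 0x16c11315) (nat_lit 0x19f7da41848ed) (nat_lit 0x0)
  (PL.C (nat_lit 0x16c2ff27) (nat_lit 0xbf0c6e178394e) (nat_lit 0x0)
  (PL.C (nat_lit 0x16caa04b) (nat_lit 0xd4b22c7af9b5d) (nat_lit 0x0)
  (PL.C (nat_lit 0x16dd5067) (nat_lit 0x110758a1ce6b1e5) (nat_lit 0x0)
  (PL.C (nat_lit 0x16ec8ab3) (nat_lit 0xd3c75b56eac256) (nat_lit 0x0)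
  (PL.C (nat_lit 0x16f5f553) (nat_lit 0x0) (nat_lit 0x3abd9fa1413a86)
  (PL.C (nat_lit 0x16fb153f) (nat_lit 0x0) (nat_lit 0x210711f5afa55e)
  (PL.C (nat_lit 0x17059ad6) (nat_lit 0xff0af94ef3f8) (nat_lit 0x0)
  (PL.C (nat_lit 0x171a300d) (nat_lit 0x0) (nat_lit 0x2f263c6a739e8e)
  (PL.C (nat_lit 0x1723ad6d) (nat_lit 0xf9f5509a722f2) (nat_lit 0x0) gp1_1_157))))))))))))))))))))

noncomputable def gp1_1_155 : PL :=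
  (PL.C (nat_lit 0x15bd004b) (nat_lit 0x3242824d02c668) (nat_lit 0x0)
  (PL.C (nat_lit 0x15c307ca) (nat_lit 0x18da106786075d) (nat_lit 0x0)
  (PL.C (nat_lit 0x15c553f9) (nat_lit 0x0) (nat_lit 0x46cf8850586598)
  (PL.C (nat_lit 0x15ca5322) (nat_lit 0x0) (nat_lit 0x1f44c0b591894c)
  (PL.C (nat_lit 0x15d3b5f7) (nat_lit 0x0) (nat_lit 0xa98b63bf060f1b)
  (PL.C (nat_lit 0x15dd43eb) (nat_lit 0x3baa86ce4e701a) (nat_lit 0x0)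
  (PL.C (nat_lit 0x15ff41fe) (nat_lit 0x0) (nat_lit 0x1443a8c334f8043)
  (PL.C (nat_lit 0x160448f2) (nat_lit 0x0) (nat_lit 0x85faa374bfba2d)
  (PL.C (nat_lit 0x1606a186) (nat_lit 0x0) (nat_lit 0xb173b4000fbfe9)
  (PL.C (nat_lit 0x16101e55) (nat_lit 0x34865e6ab2312ef) (nat_lit 0x0)
  (PL.C (nat_lit 0x161c3543) (nat_lit 0x3b3c30c68c74cc0) (nat_lit 0x0)
  (PL.C (nat_lit 0x16299627) (nat_lit 0x66fe7db3835285) (nat_lit 0x0)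
  (PL.C (nat_lit 0x162b756d) (nat_lit 0x29f9f7a61bcbe8) (nat_lit 0x0)
  (PL.C (nat_lit 0x1632136d) (nat_lit 0x0) (nat_lit 0x35d6b75b4f32461)
  (PL.C (nat_lit 0x1640bd43) (nat_lit 0x0) (nat_lit 0x734c502dfafb32)
  (PL.C (nat_lit 0x16418204) (nat_lit 0x14a0164f32cd9e) (nat_lit 0x0)
  (PL.C (nat_lit 0x164670ff) (nat_lit 0x0) (nat_lit 0x8681ef76bffc4e)
  (PL.C (nat_lit 0x16519701) (nat_lit 0x0) (nat_lit 0x1c67cdbd2e58b9)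
  (PL.C (nat_lit 0x165b1656) (nat_lit 0x61870b482e9407) (nat_lit 0x0)
  (PL.C (nat_lit 0x165c986c) (nat_lit 0xb80636c95c663d) (nat_lit 0x0) gp1_1_156))))))))))))))))))))

noncomputable def gp1_1_154 : PL :=
  (PL.C (nat_lit 0x154918de) (nat_lit 0xb6136931f00c3) (nat_lit 0x0)
  (PL.C (nat_lit 0x15524409) (nat_lit 0x0) (nat_lit 0x321837fcdf155f)
  (PL.C (nat_lit 0x155df2ef) (nat_lit 0x1dda52bff36382f) (nat_lit 0x0)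
  (PL.C (nat_lit 0x156c10a1) (nat_lit 0x0) (nat_lit 0x2d6844fdaef743)
  (PL.C (nat_lit 0x156ccf6a) (nat_lit 0x0) (nat_lit 0x1989526a648642a)
  (PL.C (nat_lit 0x1571b4e6) (nat_lit 0x4a20018e48ede5) (nat_lit 0x0)
  (PL.C (nat_lit 0x1578630f) (nat_lit 0x1f1486c4c61b18) (nat_lit 0x0)
  (PL.C (nat_lit 0x1588b47a) (nat_lit 0x22e323d624c4c7) (nat_lit 0x0)
  (PL.C (nat_lit 0x1588c646) (nat_lit 0x0) (nat_lit 0x8791c15e2d2489)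
  (PL.C (nat_lit 0x158aa246) (nat_lit 0x0) (nat_lit 0xd49ee76eb01be1)
  (PL.C (nat_lit 0x15937b86) (nat_lit 0x0) (nat_lit 0x2697e8e8be9c1)
  (PL.C (nat_lit 0x159ab6ee) (nat_lit 0x0) (nat_lit 0x2025c87c9c2d46)
  (PL.C (nat_lit 0x15a166c9) (nat_lit 0x0) (nat_lit 0x20a3bbdc71aabc)
  (PL.C (nat_lit 0x15a38002) (nat_lit 0x0) (nat_lit 0x3c08f017a93c1a7)
  (PL.C (nat_lit 0x15a40541) (nat_lit 0x3353ca17546513) (nat_lit 0x0)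
  (PL.C (nat_lit 0x15b3a73a) (nat_lit 0x0) (nat_lit 0xf423452624db1)
  (PL.C (nat_lit 0x15b90ce2) (nat_lit 0x25ac5994ed339) (nat_lit 0x0)
  (PL.C (nat_lit 0x15ba1b0a) (nat_lit 0x0) (nat_lit 0x3d740606b8b20e)
  (PL.C (nat_lit 0x15ba7407) (nat_lit 0x96ea5dd4d1e349) (nat_lit 0x0)
  (PL.C (nat_lit 0x15bcc4bd) (nat_lit 0x1a067a466fb5ae) (nat_lit 0x0) gp1_1_155))))))))))))))))))))

noncomputable def gp1_1_153 : PL :=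
  (PL.C (nat_lit 0x14cc9449) (nat_lit 0x0) (nat_lit 0x18283d1332fa76)
  (PL.C (nat_lit 0x14d2d1fe) (nat_lit 0x3ba2d1e53b232e) (nat_lit 0x0)
  (PL.C (nat_lit 0x14dd3e02) (nat_lit 0x0) (nat_lit 0x181f4be4d8064e)
  (PL.C (nat_lit 0x14e97265) (nat_lit 0x10e11784463379a) (nat_lit 0x0)
  (PL.C (nat_lit 0x14ed055f) (nat_lit 0x0) (nat_lit 0xc21f1a8cf00854)
  (PL.C (nat_lit 0x14f96882) (nat_lit 0x52c91e999a5ebf) (nat_lit 0x0)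
  (PL.C (nat_lit 0x14f991b1) (nat_lit 0x17c4a240efe84c) (nat_lit 0x0)
  (PL.C (nat_lit 0x1504ac6d) (nat_lit 0x32be66210550ff) (nat_lit 0x0)
  (PL.C (nat_lit 0x1506246b) (nat_lit 0x0) (nat_lit 0x71e3e7d204bbfd)
  (PL.C (nat_lit 0x150ae1ba) (nat_lit 0x2fb915ae355dd3) (nat_lit 0x0)
  (PL.C (nat_lit 0x15134b59) (nat_lit 0x1a05ff2bde18ff) (nat_lit 0x0)
  (PL.C (nat_lit 0x15196ec9) (nat_lit 0x443c64bdd510de) (nat_lit 0x0)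
  (PL.C (nat_lit 0x15211f37) (nat_lit 0x3c66c389732776) (nat_lit 0x0)
  (PL.C (nat_lit 0x15232bfe) (nat_lit 0x0) (nat_lit 0x90d885bdb5f398)
  (PL.C (nat_lit 0x152b9f53) (nat_lit 0x8abcd0c25234a1) (nat_lit 0x0)
  (PL.C (nat_lit 0x1532262e) (nat_lit 0x58345361a70b9e) (nat_lit 0x0)
  (PL.C (nat_lit 0x1533bb51) (nat_lit 0x6ec3b3d371e77e2) (nat_lit 0x0)
  (PL.C (nat_lit 0x153940f6) (nat_lit 0x0) (nat_lit 0xcadd7ab08e4790)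
  (PL.C (nat_lit 0x1541bd1f) (nat_lit 0x4390844acc396a) (nat_lit 0x0)
  (PL.C (nat_lit 0x1545762a) (nat_lit 0x0) (nat_lit 0x7facf9107f3ff9) gp1_1_154))))))))))))))))))))

noncomputable def gp1_1_152 : PL :=
  (PL.C (nat_lit 0x144fed6a) (nat_lit 0x8d3b4581d8f9f9) (nat_lit 0x0)
  (PL.C (nat_lit 0x14501883) (nat_lit 0x0) (nat_lit 0xd478f80a8cd48)
  (PL.C (nat_lit 0x1454b1f1) (nat_lit 0x83ffda8fe103b0) (nat_lit 0x0)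
  (PL.C (nat_lit 0x145c7b9b) (nat_lit 0x61b03fce69d476) (nat_lit 0x0)
  (PL.C (nat_lit 0x1465b636) (nat_lit 0x3febe6014b9fc4) (nat_lit 0x0)
  (PL.C (nat_lit 0x1465ff97) (nat_lit 0x60102f465eade6a) (nat_lit 0x0)
  (PL.C (nat_lit 0x1466ac65) (nat_lit 0x0) (nat_lit 0x1cc5ab0dd3f40)
  (PL.C (nat_lit 0x1468ea54) (nat_lit 0x0) (nat_lit 0x235bc105e79114)
  (PL.C (nat_lit 0x1468f161) (nat_lit 0x0) (nat_lit 0x1ca700fb3f4f)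
  (PL.C (nat_lit 0x1469ef35) (nat_lit 0xa7beb851821dd) (nat_lit 0x0)
  (PL.C (nat_lit 0x146aed26) (nat_lit 0x0) (nat_lit 0x4a220b4d228bae)
  (PL.C (nat_lit 0x147a2c59) (nat_lit 0x54f9fd840e0fcd3) (nat_lit 0x0)
  (PL.C (nat_lit 0x1482fd11) (nat_lit 0x0) (nat_lit 0x789d74a0e533e3)
  (PL.C (nat_lit 0x148b89ae) (nat_lit 0x142125b23bc493) (nat_lit 0x0)
  (PL.C (nat_lit 0x1494d581) (nat_lit 0x1600030f73814d6) (nat_lit 0x0)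
  (PL.C (nat_lit 0x149f227f) (nat_lit 0x21d684e35739a) (nat_lit 0x0)
  (PL.C (nat_lit 0x14bb630a) (nat_lit 0x0) (nat_lit 0x21ac29f03d4f5d)
  (PL.C (nat_lit 0x14bcb975) (nat_lit 0xe27c39e72731db) (nat_lit 0x0)
  (PL.C (nat_lit 0x14bfa26b) (nat_lit 0x31e1c8a7174c2) (nat_lit 0x0)
  (PL.C (nat_lit 0x14c3ace1) (nat_lit 0x395b7e928bccc2) (nat_lit 0x0) gp1_1_153))))))))))))))))))))

noncomputable def gp1_1_151 : PL :=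
  (PL.C (nat_lit 0x13c54d0d) (nat_lit 0x344805545de8ae) (nat_lit 0x0)
  (PL.C (nat_lit 0x13ca6ea6) (nat_lit 0x2272720d2ede71) (nat_lit 0x0)
  (PL.C (nat_lit 0x13cf7e1d) (nat_lit 0x0) (nat_lit 0xadc67c4963c64)
  (PL.C (nat_lit 0x13ec6842) (nat_lit 0x0) (nat_lit 0x42f1998c49d9b9)
  (PL.C (nat_lit 0x13f0decb) (nat_lit 0x0) (nat_lit 0x85b8dcfed3bed)
  (PL.C (nat_lit 0x13f1d6da) (nat_lit 0x0) (nat_lit 0x1e5bd32645ef24)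
  (PL.C (nat_lit 0x140367d6) (nat_lit 0xa6bcc70fa26836) (nat_lit 0x0)
  (PL.C (nat_lit 0x140bcfcb) (nat_lit 0x0) (nat_lit 0x13627a2ada2d409)
  (PL.C (nat_lit 0x14111c25) (nat_lit 0xafa7d3571a703) (nat_lit 0x0)
  (PL.C (nat_lit 0x1412cec6) (nat_lit 0x18a9735b4dbb9c) (nat_lit 0x0)
  (PL.C (nat_lit 0x1415d835) (nat_lit 0x4a7462eb50be6f1) (nat_lit 0x0)
  (PL.C (nat_lit 0x1418502e) (nat_lit 0x0) (nat_lit 0x17ec8cc64d1a94)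
  (PL.C (nat_lit 0x1425e943) (nat_lit 0x0) (nat_lit 0xdff5541666d9b)
  (PL.C (nat_lit 0x14284617) (nat_lit 0x0) (nat_lit 0x6a0c5eee76bd9)
  (PL.C (nat_lit 0x142e25ed) (nat_lit 0x0) (nat_lit 0x38d147d9c6d72a5)
  (PL.C (nat_lit 0x142ffebd) (nat_lit 0x37a2c3d36ea501) (nat_lit 0x0)
  (PL.C (nat_lit 0x143a1943) (nat_lit 0x59b10874592a1) (nat_lit 0x0)
  (PL.C (nat_lit 0x143c524c) (nat_lit 0x0) (nat_lit 0x7b8feecf133ae5)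
  (PL.C (nat_lit 0x143d54f3) (nat_lit 0x5f3d8315fa9aad) (nat_lit 0x0)
  (PL.C (nat_lit 0x1447c3e3) (nat_lit 0x0) (nat_lit 0x3a5273e9abe6db) gp1_1_152))))))))))))))))))))

noncomputable def gp1_1_150 : PL :=
  (PL.C (nat_lit 0x133aa2a9) (nat_lit 0x56cead146fb50) (nat_lit 0x0)
  (PL.C (nat_lit 0x133d71c6) (nat_lit 0x0) (nat_lit 0x51b6a4e8662706)
  (PL.C (nat_lit 0x1349564d) (nat_lit 0x6b68fd43732be) (nat_lit 0x0)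
  (PL.C (nat_lit 0x1358c9ca) (nat_lit 0x0) (nat_lit 0x460094b55be22f)
  (PL.C (nat_lit 0x1359f6bf) (nat_lit 0x11050738f7adae3) (nat_lit 0x0)
  (PL.C (nat_lit 0x1362c2ea) (nat_lit 0x0) (nat_lit 0x3c3b5859aeb2b7)
  (PL.C (nat_lit 0x137eb6b7) (nat_lit 0x0) (nat_lit 0x9d08cf081beda5)
  (PL.C (nat_lit 0x13807f01) (nat_lit 0x0) (nat_lit 0x1f0d3eaaf829cb0)
  (PL.C (nat_lit 0x13836c66) (nat_lit 0x0) (nat_lit 0x2b31017acf6301)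
  (PL.C (nat_lit 0x138bb6af) (nat_lit 0xac2244a1b5510f) (nat_lit 0x0)
  (PL.C (nat_lit 0x138f852d) (nat_lit 0x0) (nat_lit 0x709944cd84274f)
  (PL.C (nat_lit 0x13912c2f) (nat_lit 0x2ae28c44ae1307) (nat_lit 0x0)
  (PL.C (nat_lit 0x1392877a) (nat_lit 0x0) (nat_lit 0x40c8519583f8075)
  (PL.C (nat_lit 0x1397bb33) (nat_lit 0x0) (nat_lit 0x2d0f19144f769)
  (PL.C (nat_lit 0x13a123d2) (nat_lit 0x8ade2fe0a34607) (nat_lit 0x0)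
  (PL.C (nat_lit 0x13a78526) (nat_lit 0x0) (nat_lit 0x547a01ee99a)
  (PL.C (nat_lit 0x13a9985f) (nat_lit 0x0) (nat_lit 0x192b1cafbbef7fd)
  (PL.C (nat_lit 0x13b36fa1) (nat_lit 0x2d266b4) (nat_lit 0x0)
  (PL.C (nat_lit 0x13b67813) (nat_lit 0x0) (nat_lit 0x349b28cd1d90e66)
  (PL.C (nat_lit 0x13b96d92) (nat_lit 0x306ea7d7221faf) (nat_lit 0x0) gp1_1_151))))))))))))))))))))

noncomputable def gp1_1_149 : PL :=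
  (PL.C (nat_lit 0x12d5e82f) (nat_lit 0x19b9d687ee7e3) (nat_lit 0x0)
  (PL.C (nat_lit 0x12d7fc2e) (nat_lit 0x20747efc7b9af6) (nat_lit 0x0)
  (PL.C (nat_lit 0x12e164a7) (nat_lit 0x0) (nat_lit 0x2bbfdcf28b83eb)
  (PL.C (nat_lit 0x12e73341) (nat_lit 0x2d86af9d6565a2a) (nat_lit 0x0)
  (PL.C (nat_lit 0x12f7666d) (nat_lit 0x1af1f82f73bc8c4) (nat_lit 0x0)
  (PL.C (nat_lit 0x12f8adfa) (nat_lit 0x16ff707b1b9d5b5) (nat_lit 0x0)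
  (PL.C (nat_lit 0x12fcec9d) (nat_lit 0x0) (nat_lit 0x4f8e12df4f305d9)
  (PL.C (nat_lit 0x13051935) (nat_lit 0x0) (nat_lit 0x1612074d43cd55)
  (PL.C (nat_lit 0x130cd6ff) (nat_lit 0x2d0ad6efc90a19) (nat_lit 0x0)
  (PL.C (nat_lit 0x130d06a6) (nat_lit 0x3109820a0b4a91) (nat_lit 0x0)
  (PL.C (nat_lit 0x1315a565) (nat_lit 0x2a27626de4cc9e) (nat_lit 0x0)
  (PL.C (nat_lit 0x131b0dc7) (nat_lit 0x7e06a11f3c610) (nat_lit 0x0)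
  (PL.C (nat_lit 0x131e7486) (nat_lit 0x0) (nat_lit 0x90d885bdb5f398)
  (PL.C (nat_lit 0x131f329b) (nat_lit 0x49e9fa52579584) (nat_lit 0x0)
  (PL.C (nat_lit 0x1321326b) (nat_lit 0x135fe6066f79164) (nat_lit 0x0)
  (PL.C (nat_lit 0x13225f4d) (nat_lit 0x657cc26a9ba094) (nat_lit 0x0)
  (PL.C (nat_lit 0x13261947) (nat_lit 0x9277a55eec9365) (nat_lit 0x0)
  (PL.C (nat_lit 0x13290e0b) (nat_lit 0x6f5642090869b1) (nat_lit 0x0)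
  (PL.C (nat_lit 0x132f0363) (nat_lit 0x0) (nat_lit 0x3b18e95458c513)
  (PL.C (nat_lit 0x132faeb9) (nat_lit 0x0) (nat_lit 0x1a73ee64750286f) gp1_1_150))))))))))))))))))))

noncomputable def gp1_1_148 : PL :=
  (PL.C (nat_lit 0x1261897a) (nat_lit 0x0) (nat_lit 0x3f4917c400ea0b5)
  (PL.C (nat_lit 0x1263b1ed) (nat_lit 0x0) (nat_lit 0x5015a8c3c74173)
  (PL.C (nat_lit 0x126ac0e4) (nat_lit 0x2f7189e303084) (nat_lit 0x0)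
  (PL.C (nat_lit 0x126ce613) (nat_lit 0x0) (nat_lit 0xa461bd40314737)
  (PL.C (nat_lit 0x1274f6d7) (nat_lit 0x78e97af01cedac) (nat_lit 0x0)
  (PL.C (nat_lit 0x1275fc04) (nat_lit 0x0) (nat_lit 0x7da89fd86dfc8f)
  (PL.C (nat_lit 0x1276c13e) (nat_lit 0x0) (nat_lit 0x10e1a628cc5e67d)
  (PL.C (nat_lit 0x128a0b36) (nat_lit 0x0) (nat_lit 0x76f2ed54830af22)
  (PL.C (nat_lit 0x1297e21e) (nat_lit 0x0) (nat_lit 0x1573d723df9ef6c)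
  (PL.C (nat_lit 0x12983823) (nat_lit 0x0) (nat_lit 0xdf68b1cba07c2)
  (PL.C (nat_lit 0x129fe469) (nat_lit 0x0) (nat_lit 0x1a6dcb96474d627)
  (PL.C (nat_lit 0x12ac8d52) (nat_lit 0x296a9b7b18986) (nat_lit 0x0)
  (PL.C (nat_lit 0x12afbf95) (nat_lit 0x0) (nat_lit 0x1a7d548fe4fb464)
  (PL.C (nat_lit 0x12b82411) (nat_lit 0x0) (nat_lit 0x1e20f5c3f7aae1)
  (PL.C (nat_lit 0x12bd3e9d) (nat_lit 0x8e9603ca17f84) (nat_lit 0x0)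
  (PL.C (nat_lit 0x12c1ca61) (nat_lit 0x0) (nat_lit 0xc7460f647d15b3)
  (PL.C (nat_lit 0x12c3787f) (nat_lit 0x7540071d30bfdf) (nat_lit 0x0)
  (PL.C (nat_lit 0x12c8ef8f) (nat_lit 0x0) (nat_lit 0x5b9d3f52607b8)
  (PL.C (nat_lit 0x12cb2d9f) (nat_lit 0x0) (nat_lit 0x20bd7b92765f90)
  (PL.C (nat_lit 0x12cfe1c4) (nat_lit 0x0) (nat_lit 0x514124e9ad551) gp1_1_149))))))))))))))))))))

noncomputable def gp1_1_147 : PL :=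
  (PL.C (nat_lit 0x11d62453) (nat_lit 0x0) (nat_lit 0x16f74d843d05b3)
  (PL.C (nat_lit 0x11d99d99) (nat_lit 0x1f2ec34e420fb3) (nat_lit 0x0)
  (PL.C (nat_lit 0x11e6a28e) (nat_lit 0x0) (nat_lit 0x44646d27997af)
  (PL.C (nat_lit 0x11ea834e) (nat_lit 0x464ca9d86edf8c) (nat_lit 0x0)
  (PL.C (nat_lit 0x11f850b6) (nat_lit 0xde7bbf2e70462e) (nat_lit 0x0)
  (PL.C (nat_lit 0x11f9d552) (nat_lit 0x1bc10475cde43c) (nat_lit 0x0)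
  (PL.C (nat_lit 0x12117dc5) (nat_lit 0x7a4e519f7308b) (nat_lit 0x0)
  (PL.C (nat_lit 0x121a2afe) (nat_lit 0xbd4155107b776d) (nat_lit 0x0)
  (PL.C (nat_lit 0x121c18ca) (nat_lit 0x317af4508a59ce2) (nat_lit 0x0)
  (PL.C (nat_lit 0x12235641) (nat_lit 0x0) (nat_lit 0x10deca66db2c8a)
  (PL.C (nat_lit 0x1223e5c3) (nat_lit 0x0) (nat_lit 0x3bbe3f11e6d696)
  (PL.C (nat_lit 0x122f35de) (nat_lit 0x0) (nat_lit 0x685224bacb33d5)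
  (PL.C (nat_lit 0x1233acda) (nat_lit 0xd1b0187a4aa88) (nat_lit 0x0)
  (PL.C (nat_lit 0x123b83fb) (nat_lit 0x861944f716e3a3) (nat_lit 0x0)
  (PL.C (nat_lit 0x1244338a) (nat_lit 0x0) (nat_lit 0x14e4f9a2d060ecb)
  (PL.C (nat_lit 0x1244a405) (nat_lit 0x0) (nat_lit 0x31fca4d4dfbbb4)
  (PL.C (nat_lit 0x124773ff) (nat_lit 0x0) (nat_lit 0xee47625759add0)
  (PL.C (nat_lit 0x124da61c) (nat_lit 0x0) (nat_lit 0x30c83cff5a2db1)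
  (PL.C (nat_lit 0x12543181) (nat_lit 0x0) (nat_lit 0x1ce51bfcfd1e676)
  (PL.C (nat_lit 0x125748b2) (nat_lit 0x0) (nat_lit 0x4263ca7694ffc8) gp1_1_148))))))))))))))))))))

noncomputable def gp1_1_146 : PL :=
  (PL.C (nat_lit 0x116b31eb) (nat_lit 0xb991e3ce9942b) (nat_lit 0x0)
  (PL.C (nat_lit 0x116c0a9a) (nat_lit 0x0) (nat_lit 0xd9fd37458866c8)
  (PL.C (nat_lit 0x116d463b) (nat_lit 0x16184958726fd0) (nat_lit 0x0)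
  (PL.C (nat_lit 0x1177390b) (nat_lit 0x0) (nat_lit 0x1ca700fb3f4f)
  (PL.C (nat_lit 0x117a3629) (nat_lit 0x0) (nat_lit 0x6a40f4a86ccf42)
  (PL.C (nat_lit 0x1180e803) (nat_lit 0x0) (nat_lit 0x1a73ee64750286f)
  (PL.C (nat_lit 0x11816409) (nat_lit 0xb1c9dce3c00079) (nat_lit 0x0)
  (PL.C (nat_lit 0x11874225) (nat_lit 0x36b9e959f9856f3) (nat_lit 0x0)
  (PL.C (nat_lit 0x118818a3) (nat_lit 0x0) (nat_lit 0xe6bb623a1818f)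
  (PL.C (nat_lit 0x118b9e19) (nat_lit 0x2d183a5299baa) (nat_lit 0x0)
  (PL.C (nat_lit 0x118c784d) (nat_lit 0x27a3ee98f58e74) (nat_lit 0x0)
  (PL.C (nat_lit 0x1193adad) (nat_lit 0x2338a042fa86a8) (nat_lit 0x0)
  (PL.C (nat_lit 0x11a0455e) (nat_lit 0x4ac4203a88d1b8) (nat_lit 0x0)
  (PL.C (nat_lit 0x11a724b9) (nat_lit 0x0) (nat_lit 0x195ccc34fd0938)
  (PL.C (nat_lit 0x11aa291b) (nat_lit 0x0) (nat_lit 0x1c8fa6b40a0bb4)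
  (PL.C (nat_lit 0x11b15939) (nat_lit 0x0) (nat_lit 0xd4477f44c737f30)
  (PL.C (nat_lit 0x11b49e0a) (nat_lit 0x29f4b4a375f1d9) (nat_lit 0x0)
  (PL.C (nat_lit 0x11c35e22) (nat_lit 0x0) (nat_lit 0xcadd7ab08e4790)
  (PL.C (nat_lit 0x11c452d7) (nat_lit 0xcf7f9945f0aa6c) (nat_lit 0x0)
  (PL.C (nat_lit 0x11c71d32) (nat_lit 0x0) (nat_lit 0x2b0d6940c60c5e) gp1_1_147))))))))))))))))))))

noncomputable def gp1_1_145 : PL :=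
  (PL.C (nat_lit 0x1115d9ff) (nat_lit 0x49cc75c67e23dc) (nat_lit 0x0)
  (PL.C (nat_lit 0x111919fd) (nat_lit 0x0) (nat_lit 0x2806c6e618109f2)
  (PL.C (nat_lit 0x111ea8af) (nat_lit 0x0) (nat_lit 0x789d74a0e533e3)
  (PL.C (nat_lit 0x112465b3) (nat_lit 0x0) (nat_lit 0x8bc5f04a431c35)
  (PL.C (nat_lit 0x1124fe5e) (nat_lit 0x0) (nat_lit 0x4b7a59a1554dee)
  (PL.C (nat_lit 0x11258c92) (nat_lit 0x19fc0bdb57b7d7f) (nat_lit 0x0)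
  (PL.C (nat_lit 0x112aec8a) (nat_lit 0x0) (nat_lit 0x197ad992711a01e)
  (PL.C (nat_lit 0x112b7053) (nat_lit 0x0) (nat_lit 0x1e7ddace282349)
  (PL.C (nat_lit 0x11382e33) (nat_lit 0x0) (nat_lit 0x375cc0dbbe467ab)
  (PL.C (nat_lit 0x113b80c9) (nat_lit 0xf73db2cb10e6b) (nat_lit 0x0)
  (PL.C (nat_lit 0x114522ed) (nat_lit 0x0) (nat_lit 0x44bba1a09d6c3a)
  (PL.C (nat_lit 0x114800eb) (nat_lit 0x0) (nat_lit 0x1f8a73ae977389)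
  (PL.C (nat_lit 0x114e09fd) (nat_lit 0x0) (nat_lit 0xf101d895579759)
  (PL.C (nat_lit 0x1150a715) (nat_lit 0x0) (nat_lit 0x3a5273e9abe6db)
  (PL.C (nat_lit 0x1151fe6b) (nat_lit 0x2ca79f3920f7b4) (nat_lit 0x0)
  (PL.C (nat_lit 0x115930dc) (nat_lit 0x1f9e3791dff50e) (nat_lit 0x0)
  (PL.C (nat_lit 0x115aa995) (nat_lit 0x11050738f7adae3) (nat_lit 0x0)
  (PL.C (nat_lit 0x115daece) (nat_lit 0x0) (nat_lit 0x912d3c7ae906ba)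
  (PL.C (nat_lit 0x116491c5) (nat_lit 0x2288d2c6c007e) (nat_lit 0x0)
  (PL.C (nat_lit 0x1166209b) (nat_lit 0x0) (nat_lit 0x31e0585251537c) gp1_1_146))))))))))))))))))))

noncomputable def gp1_1_144 : PL :=
  (PL.C (nat_lit 0x10a4019f) (nat_lit 0x0) (nat_lit 0x1a7d548fe4fb464)
  (PL.C (nat_lit 0x10a41ab5) (nat_lit 0x457325ec510d01) (nat_lit 0x0)
  (PL.C (nat_lit 0x10b364c6) (nat_lit 0x1a85645b498914d) (nat_lit 0x0)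
  (PL.C (nat_lit 0x10b4a7a4) (nat_lit 0x3ccd0c54d65757f) (nat_lit 0x0)
  (PL.C (nat_lit 0x10b4dbbe) (nat_lit 0x0) (nat_lit 0x47c3048c8aa24a)
  (PL.C (nat_lit 0x10b92151) (nat_lit 0x0) (nat_lit 0x37735b33a9908)
  (PL.C (nat_lit 0x10bebc4d) (nat_lit 0x0) (nat_lit 0x1c8fa6b40a0bb4)
  (PL.C (nat_lit 0x10c2433f) (nat_lit 0x0) (nat_lit 0x50b85ce4c96acf0)
  (PL.C (nat_lit 0x10c64fb6) (nat_lit 0x0) (nat_lit 0x2f45056b65f7d6)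
  (PL.C (nat_lit 0x10c92336) (nat_lit 0x189e96de9d00e2) (nat_lit 0x0)
  (PL.C (nat_lit 0x10d0fe66) (nat_lit 0x0) (nat_lit 0x208ae78c84c2bf)
  (PL.C (nat_lit 0x10d61fc2) (nat_lit 0x5192d7df15d431) (nat_lit 0x0)
  (PL.C (nat_lit 0x10d9783c) (nat_lit 0x3d120fe3e7af23) (nat_lit 0x0)
  (PL.C (nat_lit 0x10f08579) (nat_lit 0x0) (nat_lit 0x3b5b6a7021ca0)
  (PL.C (nat_lit 0x10f0d469) (nat_lit 0x0) (nat_lit 0xad0cf27e8c499d)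
  (PL.C (nat_lit 0x10f1f45e) (nat_lit 0x6b20b15d35b9f5) (nat_lit 0x0)
  (PL.C (nat_lit 0x10f4bc82) (nat_lit 0x0) (nat_lit 0xf91ead21f57f3d)
  (PL.C (nat_lit 0x10f7a266) (nat_lit 0x15a461444cb2a8) (nat_lit 0x0)
  (PL.C (nat_lit 0x10fef165) (nat_lit 0x0) (nat_lit 0xbba2c507a591de)
  (PL.C (nat_lit 0x11128fd7) (nat_lit 0x0) (nat_lit 0x177bf6a0dd0b6df) gp1_1_145))))))))))))))))))))

noncomputable def gp1_1_143 : PL :=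
  (PL.C (nat_lit 0x1052b075) (nat_lit 0x0) (nat_lit 0x6d2dc05bcdb43e1)
  (PL.C (nat_lit 0x10581b16) (nat_lit 0x66b980b5e7fb83) (nat_lit 0x0)
  (PL.C (nat_lit 0x105d5812) (nat_lit 0x1b2552cedfa6ce) (nat_lit 0x0)
  (PL.C (nat_lit 0x105e7a7d) (nat_lit 0x0) (nat_lit 0x20cf3dfce16316)
  (PL.C (nat_lit 0x106087f6) (nat_lit 0xa727b6f6f18dfe) (nat_lit 0x0)
  (PL.C (nat_lit 0x1062d44a) (nat_lit 0x52b0ebc6017ed1) (nat_lit 0x0)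
  (PL.C (nat_lit 0x1067f0fd) (nat_lit 0x1553669f2901d9a) (nat_lit 0x0)
  (PL.C (nat_lit 0x106af8f2) (nat_lit 0x0) (nat_lit 0x2df28d14beb6c3)
  (PL.C (nat_lit 0x10702703) (nat_lit 0x0) (nat_lit 0x7b9e2d010afc3f)
  (PL.C (nat_lit 0x107142e6) (nat_lit 0x1d288d3407fce6) (nat_lit 0x0)
  (PL.C (nat_lit 0x1078a66a) (nat_lit 0x0) (nat_lit 0x17bdf6937a9b0d)
  (PL.C (nat_lit 0x10798953) (nat_lit 0x0) (nat_lit 0xe8d4a81ccacab)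
  (PL.C (nat_lit 0x107c1fba) (nat_lit 0x3766fbc71e828d) (nat_lit 0x0)
  (PL.C (nat_lit 0x107dbf8b) (nat_lit 0x243bdb43508d31) (nat_lit 0x0)
  (PL.C (nat_lit 0x108320a1) (nat_lit 0x0) (nat_lit 0xc1ebc433f6f0f08)
  (PL.C (nat_lit 0x1085aae2) (nat_lit 0x0) (nat_lit 0x1074e63024c4c5a)
  (PL.C (nat_lit 0x1090277c) (nat_lit 0x50d1ee8c62bb8c) (nat_lit 0x0)
  (PL.C (nat_lit 0x109460a5) (nat_lit 0x0) (nat_lit 0x592663fc6a0038)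
  (PL.C (nat_lit 0x109cf2c6) (nat_lit 0x6ebea2904dd135) (nat_lit 0x0)
  (PL.C (nat_lit 0x10a1a8fa) (nat_lit 0x0) (nat_lit 0x248153ac570753) gp1_1_144))))))))))))))))))))

noncomputable def gp1_1_142 : PL :=
  (PL.C (nat_lit 0xfdf20ac) (nat_lit 0x326fec0e64692a) (nat_lit 0x0)
  (PL.C (nat_lit 0xfdfeb8b) (nat_lit 0x0) (nat_lit 0x2fdd615d1b167)
  (PL.C (nat_lit 0xfe2b3af) (nat_lit 0x89c0bcbec129b1) (nat_lit 0x0)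
  (PL.C (nat_lit 0xfebc53f) (nat_lit 0x81873c4739edc) (nat_lit 0x0)
  (PL.C (nat_lit 0xfefb55c) (nat_lit 0x198a53000b05d) (nat_lit 0x0)
  (PL.C (nat_lit 0xff50a05) (nat_lit 0x0) (nat_lit 0xa25ab2e0f29021)
  (PL.C (nat_lit 0xffc1e4b) (nat_lit 0x0) (nat_lit 0x1d38df9dab9173)
  (PL.C (nat_lit 0x1002b6e1) (nat_lit 0x39dd3d9f2d6853b) (nat_lit 0x0)
  (PL.C (nat_lit 0x1003cb62) (nat_lit 0x4b6d090612b6185) (nat_lit 0x0)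
  (PL.C (nat_lit 0x1005b599) (nat_lit 0x46330fae348183) (nat_lit 0x0)
  (PL.C (nat_lit 0x10178f49) (nat_lit 0x0) (nat_lit 0x8d208b46dafab0)
  (PL.C (nat_lit 0x101a5c46) (nat_lit 0x0) (nat_lit 0xd6439d74229a)
  (PL.C (nat_lit 0x101bf275) (nat_lit 0x0) (nat_lit 0x3178ea59af0766)
  (PL.C (nat_lit 0x1025ff57) (nat_lit 0x4729432040d7eba) (nat_lit 0x0)
  (PL.C (nat_lit 0x102a22a3) (nat_lit 0x1b230156d79131d) (nat_lit 0x0)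
  (PL.C (nat_lit 0x102ca177) (nat_lit 0x442d57cbf8eca5) (nat_lit 0x0)
  (PL.C (nat_lit 0x103053c1) (nat_lit 0x0) (nat_lit 0x4700441167dd0e)
  (PL.C (nat_lit 0x10320d5b) (nat_lit 0x0) (nat_lit 0xc64c5beba273f0)
  (PL.C (nat_lit 0x1032ef3e) (nat_lit 0x0) (nat_lit 0x169e4193c1eb97)
  (PL.C (nat_lit 0x103b05af) (nat_lit 0x0) (nat_lit 0xd0f8ed3b68b454) gp1_1_143))))))))))))))))))))

noncomputable def gp1_1_141 : PL :=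
  (PL.C (nat_lit 0xf81c675) (nat_lit 0x594b8cf12761a) (nat_lit 0x0)
  (PL.C (nat_lit 0xf8434e2) (nat_lit 0x0) (nat_lit 0x2edb0f3858593e)
  (PL.C (nat_lit 0xf873fe2) (nat_lit 0x0) (nat_lit 0x13fe1e19bae2469)
  (PL.C (nat_lit 0xf9132a4) (nat_lit 0x0) (nat_lit 0x92441699ee267)
  (PL.C (nat_lit 0xf97e73e) (nat_lit 0x0) (nat_lit 0x22bede8be536d5)
  (PL.C (nat_lit 0xfa5af8a) (nat_lit 0x0) (nat_lit 0xfdb80888fba595)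
  (PL.C (nat_lit 0xfa6668e) (nat_lit 0x0) (nat_lit 0x3d5d16689765b60)
  (PL.C (nat_lit 0xfb25def) (nat_lit 0x0) (nat_lit 0xc501d5738b0db)
  (PL.C (nat_lit 0xfb2f03c) (nat_lit 0x1d29cd7c84c5fd) (nat_lit 0x0)
  (PL.C (nat_lit 0xfba4452) (nat_lit 0x5b22fb490bf3b) (nat_lit 0x0)
  (PL.C (nat_lit 0xfc63aa9) (nat_lit 0x0) (nat_lit 0x349b28cd1d90e66)
  (PL.C (nat_lit 0xfcce384) (nat_lit 0x21e1f8e68f2a73) (nat_lit 0x0)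
  (PL.C (nat_lit 0xfcef745) (nat_lit 0x5fc5a1708b01ca) (nat_lit 0x0)
  (PL.C (nat_lit 0xfd1b68a) (nat_lit 0x0) (nat_lit 0x4144e7cb79cc6ef)
  (PL.C (nat_lit 0xfd575a5) (nat_lit 0x5489b3c72ca979) (nat_lit 0x0)
  (PL.C (nat_lit 0xfd582bb) (nat_lit 0x28d07da05e9756) (nat_lit 0x0)
  (PL.C (nat_lit 0xfd588e4) (nat_lit 0x607a2cf5295b2) (nat_lit 0x0)
  (PL.C (nat_lit 0xfd6e0bb) (nat_lit 0xa49e75bdd41a5a2) (nat_lit 0x0)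
  (PL.C (nat_lit 0xfdac451) (nat_lit 0x317876e0b0c9fe3) (nat_lit 0x0)
  (PL.C (nat_lit 0xfdd625b) (nat_lit 0x0) (nat_lit 0x67d90a3ebd332) gp1_1_142))))))))))))))))))))

noncomputable def gp1_1_140 : PL :=
  (PL.C (nat_lit 0xeef79dd) (nat_lit 0xd3a6ce4b0f055d) (nat_lit 0x0)
  (PL.C (nat_lit 0xef957d3) (nat_lit 0x0) (nat_lit 0x1776e08665f5d6f)
  (PL.C (nat_lit 0xeff7e73) (nat_lit 0x0) (nat_lit 0x506718140e687a)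
  (PL.C (nat_lit 0xf01d97a) (nat_lit 0x0) (nat_lit 0xf1e1f5e40fd2a0)
  (PL.C (nat_lit 0xf048567) (nat_lit 0x13cc8fc8a4b9e57) (nat_lit 0x0)
  (PL.C (nat_lit 0xf1177bd) (nat_lit 0x0) (nat_lit 0x3d3a38be8a9d5c)
  (PL.C (nat_lit 0xf153711) (nat_lit 0x42b8d4a82dda7) (nat_lit 0x0)
  (PL.C (nat_lit 0xf1c2505) (nat_lit 0x0) (nat_lit 0x35a55de013a3ac)
  (PL.C (nat_lit 0xf1c7546) (nat_lit 0x2778fed8886770) (nat_lit 0x0)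
  (PL.C (nat_lit 0xf2b620e) (nat_lit 0x145e0f7c7b5693c) (nat_lit 0x0)
  (PL.C (nat_lit 0xf2caa1a) (nat_lit 0x22d5c848a0f7a1) (nat_lit 0x0)
  (PL.C (nat_lit 0xf31c032) (nat_lit 0x32524fa7ed826d) (nat_lit 0x0)
  (PL.C (nat_lit 0xf384baf) (nat_lit 0x20343eb07b0742) (nat_lit 0x0)
  (PL.C (nat_lit 0xf3e359a) (nat_lit 0x0) (nat_lit 0xc9d29abbc1de4b)
  (PL.C (nat_lit 0xf45f65f) (nat_lit 0x0) (nat_lit 0x8083e3f1eff58c)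
  (PL.C (nat_lit 0xf520e2a) (nat_lit 0x0) (nat_lit 0x5475cb9172f976)
  (PL.C (nat_lit 0xf5911e4) (nat_lit 0x48a704980e48be) (nat_lit 0x0)
  (PL.C (nat_lit 0xf7136bb) (nat_lit 0x0) (nat_lit 0x82768980f1a8da)
  (PL.C (nat_lit 0xf73f642) (nat_lit 0x4a6fa80c48998) (nat_lit 0x0)
  (PL.C (nat_lit 0xf78f145) (nat_lit 0x0) (nat_lit 0x85b8612478c892) gp1_1_141))))))))))))))))))))

noncomputable def gp1_1_139 : PL :=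
  (PL.C (nat_lit 0xe9ba4b1) (nat_lit 0x2b8a90144706ca9) (nat_lit 0x0)
  (PL.C (nat_lit 0xe9efb57) (nat_lit 0x0) (nat_lit 0xaf7a2ef806e505)
  (PL.C (nat_lit 0xea08a2d) (nat_lit 0x0) (nat_lit 0x28aaadcd6be5dee)
  (PL.C (nat_lit 0xea64ca9) (nat_lit 0xe36aa23f6a4862) (nat_lit 0x0)
  (PL.C (nat_lit 0xeaea999) (nat_lit 0x0) (nat_lit 0x16398b9369b0b4)
  (PL.C (nat_lit 0xeaffa47) (nat_lit 0x0) (nat_lit 0x47966af44bd466)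
  (PL.C (nat_lit 0xeb39575) (nat_lit 0x0) (nat_lit 0x1dff9c31535ddd)
  (PL.C (nat_lit 0xeb5698e) (nat_lit 0x0) (nat_lit 0x35e3c7501176d28)
  (PL.C (nat_lit 0xebc7b5b) (nat_lit 0x0) (nat_lit 0x3c37e29f73ae70)
  (PL.C (nat_lit 0xec0ee8d) (nat_lit 0x0) (nat_lit 0x1206a6d93d77205)
  (PL.C (nat_lit 0xec288fb) (nat_lit 0x0) (nat_lit 0x37449d3144e688)
  (PL.C (nat_lit 0xec6641a) (nat_lit 0xb20f3e6529b2f4) (nat_lit 0x0)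
  (PL.C (nat_lit 0xec6954f) (nat_lit 0x0) (nat_lit 0x7a7a864fdbcb76)
  (PL.C (nat_lit 0xec7a39e) (nat_lit 0x115b24da3807ae) (nat_lit 0x0)
  (PL.C (nat_lit 0xed05841) (nat_lit 0x37b24f7ac4a496) (nat_lit 0x0)
  (PL.C (nat_lit 0xed5d382) (nat_lit 0xdbdc76857c392) (nat_lit 0x0)
  (PL.C (nat_lit 0xed8a045) (nat_lit 0x5f4ff078d097ef) (nat_lit 0x0)
  (PL.C (nat_lit 0xed9a0aa) (nat_lit 0x0) (nat_lit 0x16722dbf35e498)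
  (PL.C (nat_lit 0xee10f56) (nat_lit 0x20433874b983a9) (nat_lit 0x0)
  (PL.C (nat_lit 0xee9c377) (nat_lit 0x0) (nat_lit 0x18eb6f2f87f29d2) gp1_1_140))))))))))))))))))))

noncomputable def gp1_1_138 : PL :=
  (PL.C (nat_lit 0xe36d806) (nat_lit 0x1d0824ae7d9ad) (nat_lit 0x0)
  (PL.C (nat_lit 0xe39c18d) (nat_lit 0x7e435e1a82c03) (nat_lit 0x0)
  (PL.C (nat_lit 0xe480b16) (nat_lit 0x0) (nat_lit 0x61dc3effb412e0)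
  (PL.C (nat_lit 0xe4cf5cd) (nat_lit 0x0) (nat_lit 0x1ec2c571a8299ba)
  (PL.C (nat_lit 0xe50420a) (nat_lit 0x0) (nat_lit 0x27330e395289a6)
  (PL.C (nat_lit 0xe58dfb9) (nat_lit 0x0) (nat_lit 0x19250fba6aa2598)
  (PL.C (nat_lit 0xe5b22fc) (nat_lit 0x2cfb4d17f41ffd) (nat_lit 0x0)
  (PL.C (nat_lit 0xe6516a5) (nat_lit 0xb19f7e32571e4) (nat_lit 0x0)
  (PL.C (nat_lit 0xe696f73) (nat_lit 0x0) (nat_lit 0x122d7e3f2e23217)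
  (PL.C (nat_lit 0xe6d58d6) (nat_lit 0x0) (nat_lit 0x4263ca7694ffc8)
  (PL.C (nat_lit 0xe6ef4b1) (nat_lit 0x10b73ed1a30752) (nat_lit 0x0)
  (PL.C (nat_lit 0xe73a5ab) (nat_lit 0x0) (nat_lit 0x9488c052b09918)
  (PL.C (nat_lit 0xe787dbf) (nat_lit 0x0) (nat_lit 0x19250fba6aa2598)
  (PL.C (nat_lit 0xe7b5dec) (nat_lit 0x197c8ed1a898ac) (nat_lit 0x0)
  (PL.C (nat_lit 0xe7c4d5a) (nat_lit 0xdc2fa2af52f486) (nat_lit 0x0)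
  (PL.C (nat_lit 0xe7dd87e) (nat_lit 0x81a593f4fae58b) (nat_lit 0x0)
  (PL.C (nat_lit 0xe7e0032) (nat_lit 0x0) (nat_lit 0x380ac7c0b43de31)
  (PL.C (nat_lit 0xe80d091) (nat_lit 0x0) (nat_lit 0xa67ec020c7338)
  (PL.C (nat_lit 0xe834b23) (nat_lit 0x0) (nat_lit 0x564c5f21dfe)
  (PL.C (nat_lit 0xe8d23fa) (nat_lit 0x0) (nat_lit 0x685224bacb33d5) gp1_1_139))))))))))))))))))))

noncomputable def gp1_1_137 : PL :=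
  (PL.C (nat_lit 0xdd516f2) (nat_lit 0x2d3c311f7cde9) (nat_lit 0x0)
  (PL.C (nat_lit 0xdd7c896) (nat_lit 0xbbf5e10fe8bb3b) (nat_lit 0x0)
  (PL.C (nat_lit 0xdd967b1) (nat_lit 0x0) (nat_lit 0x19649f93ea51e6e)
  (PL.C (nat_lit 0xdddbf0d) (nat_lit 0xf3fc38e52bbd98) (nat_lit 0x0)
  (PL.C (nat_lit 0xde1e154) (nat_lit 0x39c48301e1a73c) (nat_lit 0x0)
  (PL.C (nat_lit 0xdf0f6ee) (nat_lit 0x0) (nat_lit 0x1b3493fcc8e1694)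
  (PL.C (nat_lit 0xdf358ea) (nat_lit 0x0) (nat_lit 0x1c124e7f1c4df4a)
  (PL.C (nat_lit 0xdf3dc77) (nat_lit 0x2689502bdddfb9) (nat_lit 0x0)
  (PL.C (nat_lit 0xdfbb676) (nat_lit 0x3c39ea8e97cb75) (nat_lit 0x0)
  (PL.C (nat_lit 0xe020c6b) (nat_lit 0x0) (nat_lit 0x1db0dc2b9265d4)
  (PL.C (nat_lit 0xe031d9e) (nat_lit 0x3715720e930e62) (nat_lit 0x0)
  (PL.C (nat_lit 0xe0cdce6) (nat_lit 0xa3350e6f4f4fc7) (nat_lit 0x0)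
  (PL.C (nat_lit 0xe10f486) (nat_lit 0x0) (nat_lit 0xd404b46f21272c)
  (PL.C (nat_lit 0xe125755) (nat_lit 0xe59290f296c85b) (nat_lit 0x0)
  (PL.C (nat_lit 0xe1a79d5) (nat_lit 0x0) (nat_lit 0x25e2e86dfb599ac)
  (PL.C (nat_lit 0xe1d14e2) (nat_lit 0x4d2f7295855ec2) (nat_lit 0x0)
  (PL.C (nat_lit 0xe22ac41) (nat_lit 0x0) (nat_lit 0xc21f1a8cf00854)
  (PL.C (nat_lit 0xe25a67b) (nat_lit 0x0) (nat_lit 0x3f346f4e5dbe34c)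
  (PL.C (nat_lit 0xe2bd36a) (nat_lit 0x117673d3372507c) (nat_lit 0x0)
  (PL.C (nat_lit 0xe32a673) (nat_lit 0x0) (nat_lit 0x8d3b0493df7a) gp1_1_138))))))))))))))))))))

noncomputable def gp1_1_136 : PL :=
  (PL.C (nat_lit 0xd7e62b7) (nat_lit 0x0) (nat_lit 0x831af640da58be)
  (PL.C (nat_lit 0xd83f425) (nat_lit 0x4729432040d7eba) (nat_lit 0x0)
  (PL.C (nat_lit 0xd852d42) (nat_lit 0x0) (nat_lit 0xcc8e56a37286d)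
  (PL.C (nat_lit 0xd8abb02) (nat_lit 0x233fedd3b951a) (nat_lit 0x0)
  (PL.C (nat_lit 0xd8bab55) (nat_lit 0x0) (nat_lit 0x1c5751cc79ac11)
  (PL.C (nat_lit 0xd8dcbf6) (nat_lit 0x7081523baf1f95) (nat_lit 0x0)
  (PL.C (nat_lit 0xd8ec3d3) (nat_lit 0x17b51d253399b2) (nat_lit 0x0)
  (PL.C (nat_lit 0xd92fd12) (nat_lit 0x0) (nat_lit 0x401da8f430e8c)
  (PL.C (nat_lit 0xd992424) (nat_lit 0x39d21372b7bc65) (nat_lit 0x0)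
  (PL.C (nat_lit 0xd994109) (nat_lit 0x0) (nat_lit 0xa04fc1125ef32a)
  (PL.C (nat_lit 0xd9b4b96) (nat_lit 0x0) (nat_lit 0x58413bf27fdb)
  (PL.C (nat_lit 0xd9bf4ce) (nat_lit 0x0) (nat_lit 0x2f2b9fdbd7ed64)
  (PL.C (nat_lit 0xda11d89) (nat_lit 0x0) (nat_lit 0xb5983efb0b2847)
  (PL.C (nat_lit 0xda1bcf3) (nat_lit 0x2ee5eb18db51d0c) (nat_lit 0x0)
  (PL.C (nat_lit 0xdabea07) (nat_lit 0x0) (nat_lit 0x1a4eda23703f7b)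
  (PL.C (nat_lit 0xdaca8b6) (nat_lit 0x951323be04d34e) (nat_lit 0x0)
  (PL.C (nat_lit 0xdafbb87) (nat_lit 0x0) (nat_lit 0x2318ff5d7ca905)
  (PL.C (nat_lit 0xdb88e56) (nat_lit 0x4e0a88ee60545e2) (nat_lit 0x0)
  (PL.C (nat_lit 0xdc77709) (nat_lit 0x2f24b18a8e943679) (nat_lit 0x0)
  (PL.C (nat_lit 0xdd3264e) (nat_lit 0x813a692fafbe10) (nat_lit 0x0) gp1_1_137))))))))))))))))))))

noncomputable def gp1_1_135 : PL :=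
  (PL.C (nat_lit 0xd34febe) (nat_lit 0x5192d7df15d431) (nat_lit 0x0)
  (PL.C (nat_lit 0xd3695b3) (nat_lit 0x33359f722f7175b) (nat_lit 0x0)
  (PL.C (nat_lit 0xd37b371) (nat_lit 0x21880260602b) (nat_lit 0x0)
  (PL.C (nat_lit 0xd4b3f32) (nat_lit 0x2bca5a2f6833ab) (nat_lit 0x0)
  (PL.C (nat_lit 0xd4dc17d) (nat_lit 0x0) (nat_lit 0x736453ddc911c)
  (PL.C (nat_lit 0xd50e50d) (nat_lit 0x4628aeb48ee9330) (nat_lit 0x0)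
  (PL.C (nat_lit 0xd584519) (nat_lit 0x11de171ea6bd48b) (nat_lit 0x0)
  (PL.C (nat_lit 0xd5d1cdf) (nat_lit 0x760644c5bc6ffe) (nat_lit 0x0)
  (PL.C (nat_lit 0xd5d3532) (nat_lit 0x0) (nat_lit 0x2ed6d0c7bfddf)
  (PL.C (nat_lit 0xd5ef2e7) (nat_lit 0x6c8ca47dd00631) (nat_lit 0x0)
  (PL.C (nat_lit 0xd60bd6e) (nat_lit 0x0) (nat_lit 0x27e92cbfb4d684)
  (PL.C (nat_lit 0xd623b55) (nat_lit 0x6f814ff85f869d) (nat_lit 0x0)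
  (PL.C (nat_lit 0xd6694f7) (nat_lit 0x2ba90cba8e5a0f) (nat_lit 0x0)
  (PL.C (nat_lit 0xd6b12db) (nat_lit 0x81f6257c0205ef) (nat_lit 0x0)
  (PL.C (nat_lit 0xd6e9b82) (nat_lit 0x0) (nat_lit 0x4f4b40a8064460)
  (PL.C (nat_lit 0xd702eba) (nat_lit 0x0) (nat_lit 0x33d6aef74beed8)
  (PL.C (nat_lit 0xd72cab5) (nat_lit 0x0) (nat_lit 0x31ef2dfc6c5c45)
  (PL.C (nat_lit 0xd75547e) (nat_lit 0x16333bef2f4c65) (nat_lit 0x0)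
  (PL.C (nat_lit 0xd7d33db) (nat_lit 0x0) (nat_lit 0x5f32b4cd2a774e3)
  (PL.C (nat_lit 0xd7e38a2) (nat_lit 0x0) (nat_lit 0x4ce693c0bce110) gp1_1_136))))))))))))))))))))

noncomputable def gp1_1_134 : PL :=
  (PL.C (nat_lit 0xce49e1b) (nat_lit 0x307f3ab549d280a) (nat_lit 0x0)
  (PL.C (nat_lit 0xce5dbdc) (nat_lit 0x655eeb6ac8345) (nat_lit 0x0)
  (PL.C (nat_lit 0xce8f06f) (nat_lit 0x203daac9b03bcb) (nat_lit 0x0)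
  (PL.C (nat_lit 0xcef5f59) (nat_lit 0x1584448311bd11e) (nat_lit 0x0)
  (PL.C (nat_lit 0xcf5d8a7) (nat_lit 0x95573a13087e5d) (nat_lit 0x0)
  (PL.C (nat_lit 0xcfd3eb7) (nat_lit 0x3784f602a8df8d) (nat_lit 0x0)
  (PL.C (nat_lit 0xcff247a) (nat_lit 0x8f5072b21e7a61) (nat_lit 0x0)
  (PL.C (nat_lit 0xd024844) (nat_lit 0x2f56e6e3ce65f5) (nat_lit 0x0)
  (PL.C (nat_lit 0xd0920e7) (nat_lit 0x0) (nat_lit 0x24032cc0058642c)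
  (PL.C (nat_lit 0xd0b72ca) (nat_lit 0x4019e42ecb7cc) (nat_lit 0x0)
  (PL.C (nat_lit 0xd0fa719) (nat_lit 0x8fd8d022f19b2) (nat_lit 0x0)
  (PL.C (nat_lit 0xd0fd222) (nat_lit 0x1c0886ebf572c0) (nat_lit 0x0)
  (PL.C (nat_lit 0xd157277) (nat_lit 0x0) (nat_lit 0x35e4512b2ef7ef)
  (PL.C (nat_lit 0xd194207) (nat_lit 0x0) (nat_lit 0x71f5cf47d8f863)
  (PL.C (nat_lit 0xd1a58c4) (nat_lit 0xddfab58251d27) (nat_lit 0x0)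
  (PL.C (nat_lit 0xd1b7f25) (nat_lit 0x134d70c1f0683d0) (nat_lit 0x0)
  (PL.C (nat_lit 0xd1bbaea) (nat_lit 0x0) (nat_lit 0x352d3b0b8231510)
  (PL.C (nat_lit 0xd26490c) (nat_lit 0x1d2876c6802afb) (nat_lit 0x0)
  (PL.C (nat_lit 0xd2a4fdf) (nat_lit 0x0) (nat_lit 0x2d1d59b6eee125)
  (PL.C (nat_lit 0xd2e335e) (nat_lit 0x141cb799e003d0) (nat_lit 0x0) gp1_1_135))))))))))))))))))))

noncomputable def gp1_1_133 : PL :=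
  (PL.C (nat_lit 0xc96431a) (nat_lit 0x52bbe15cad0fa8) (nat_lit 0x0)
  (PL.C (nat_lit 0xc96c993) (nat_lit 0x0) (nat_lit 0x3b8bd2d41317249)
  (PL.C (nat_lit 0xc9b9c11) (nat_lit 0x0) (nat_lit 0x203add86af76596)
  (PL.C (nat_lit 0xca35c8d) (nat_lit 0x0) (nat_lit 0x2c35186f000d8d)
  (PL.C (nat_lit 0xca3f05f) (nat_lit 0x2ce522743fed01c) (nat_lit 0x0)
  (PL.C (nat_lit 0xca6c49d) (nat_lit 0x0) (nat_lit 0x1f8a73ae977389)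
  (PL.C (nat_lit 0xca89dbe) (nat_lit 0x0) (nat_lit 0x30e3dd9ce359240)
  (PL.C (nat_lit 0xcae10ce) (nat_lit 0x0) (nat_lit 0x58fc1ca694dc57)
  (PL.C (nat_lit 0xcb359c4) (nat_lit 0x25cb312a61c797) (nat_lit 0x0)
  (PL.C (nat_lit 0xcb918ee) (nat_lit 0x0) (nat_lit 0x13f41c2a1fb8b09)
  (PL.C (nat_lit 0xcbc15f9) (nat_lit 0x0) (nat_lit 0x1ec5a2e73f20bc)
  (PL.C (nat_lit 0xcbcb3da) (nat_lit 0x0) (nat_lit 0x434a347d69440)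
  (PL.C (nat_lit 0xcbf7712) (nat_lit 0x584d95200df2c4) (nat_lit 0x0)
  (PL.C (nat_lit 0xcc194de) (nat_lit 0x28dfe9e2c7cb0e) (nat_lit 0x0)
  (PL.C (nat_lit 0xcc410da) (nat_lit 0x1d39f9f66145fc0) (nat_lit 0x0)
  (PL.C (nat_lit 0xcc6ec0d) (nat_lit 0x0) (nat_lit 0x4775208d81273db)
  (PL.C (nat_lit 0xcca0242) (nat_lit 0x0) (nat_lit 0x3adc4ddcaf4b9f)
  (PL.C (nat_lit 0xcd914ab) (nat_lit 0x28027710f051db) (nat_lit 0x0)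
  (PL.C (nat_lit 0xcdb8ede) (nat_lit 0xa626084b03b463) (nat_lit 0x0)
  (PL.C (nat_lit 0xcdf547b) (nat_lit 0x32f69e4e91fd6a) (nat_lit 0x0) gp1_1_134))))))))))))))))))))

noncomputable def gp1_1_132 : PL :=
  (PL.C (nat_lit 0xc42769e) (nat_lit 0x0) (nat_lit 0x93d8417dc20028)
  (PL.C (nat_lit 0xc489962) (nat_lit 0x0) (nat_lit 0xd49ee76eb01be1)
  (PL.C (nat_lit 0xc4fc8d5) (nat_lit 0x52f5c0f22e68e3c) (nat_lit 0x0)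
  (PL.C (nat_lit 0xc57a8f3) (nat_lit 0x0) (nat_lit 0xa7936475097c92)
  (PL.C (nat_lit 0xc58f9a1) (nat_lit 0x18dcea2bafdef3b) (nat_lit 0x0)
  (PL.C (nat_lit 0xc5fd05d) (nat_lit 0x0) (nat_lit 0x2623aa5bba35af)
  (PL.C (nat_lit 0xc657ac2) (nat_lit 0x0) (nat_lit 0x3e8d1a10f09bf5)
  (PL.C (nat_lit 0xc6a9846) (nat_lit 0x0) (nat_lit 0x7d9bccb7ae52843)
  (PL.C (nat_lit 0xc709007) (nat_lit 0x0) (nat_lit 0xa84102b934e30d)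
  (PL.C (nat_lit 0xc75ac27) (nat_lit 0x0) (nat_lit 0x295869b489ca99)
  (PL.C (nat_lit 0xc77b7c9) (nat_lit 0x262cc2da6961f36) (nat_lit 0x0)
  (PL.C (nat_lit 0xc79d94b) (nat_lit 0x0) (nat_lit 0x63e997d1c5b938)
  (PL.C (nat_lit 0xc7ac2b6) (nat_lit 0x7e4dee5bc7a674) (nat_lit 0x0)
  (PL.C (nat_lit 0xc7e29be) (nat_lit 0x2616b8fb1ab99c) (nat_lit 0x0)
  (PL.C (nat_lit 0xc813196) (nat_lit 0x0) (nat_lit 0x1234b1f058abc8b)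
  (PL.C (nat_lit 0xc85f50a) (nat_lit 0x0) (nat_lit 0x3856d5092279306)
  (PL.C (nat_lit 0xc885219) (nat_lit 0x0) (nat_lit 0x6766103aa00db7)
  (PL.C (nat_lit 0xc8e9aca) (nat_lit 0x2204dfe179b62) (nat_lit 0x0)
  (PL.C (nat_lit 0xc8ffd74) (nat_lit 0x1952ff31f16f0b) (nat_lit 0x0)
  (PL.C (nat_lit 0xc92fd85) (nat_lit 0x11c90aedc2f01be) (nat_lit 0x0) gp1_1_133))))))))))))))))))))

noncomputable def gp1_1_131 : PL :=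
  (PL.C (nat_lit 0xc06c52b) (nat_lit 0x15a5637025a27eb) (nat_lit 0x0)
  (PL.C (nat_lit 0xc0b68b3) (nat_lit 0x0) (nat_lit 0x27ebb2baab492e)
  (PL.C (nat_lit 0xc0ba92e) (nat_lit 0x5b0409fcf20686) (nat_lit 0x0)
  (PL.C (nat_lit 0xc126bc1) (nat_lit 0x0) (nat_lit 0xae0ac2e6a8ab90)
  (PL.C (nat_lit 0xc166da3) (nat_lit 0x3a2e5de25ce36a) (nat_lit 0x0)
  (PL.C (nat_lit 0xc170b8b) (nat_lit 0x2850871244e5e5) (nat_lit 0x0)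
  (PL.C (nat_lit 0xc178ed6) (nat_lit 0x1218cad185e8dba) (nat_lit 0x0)
  (PL.C (nat_lit 0xc17ee82) (nat_lit 0x0) (nat_lit 0x21b30c4b8fb39cc)
  (PL.C (nat_lit 0xc1c7a5d) (nat_lit 0x0) (nat_lit 0x8bc5f04a431c35)
  (PL.C (nat_lit 0xc1f0845) (nat_lit 0x0) (nat_lit 0x8436346a96ab0f)
  (PL.C (nat_lit 0xc22733c) (nat_lit 0x90cec0ddec3446) (nat_lit 0x0)
  (PL.C (nat_lit 0xc26c9f9) (nat_lit 0x7876ac1aae128ed) (nat_lit 0x0)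
  (PL.C (nat_lit 0xc27ad52) (nat_lit 0x848a5b7901d650) (nat_lit 0x0)
  (PL.C (nat_lit 0xc2dc2ae) (nat_lit 0x0) (nat_lit 0x3d740606b8b20e)
  (PL.C (nat_lit 0xc2fa2aa) (nat_lit 0xfd1e491ba4a1ff) (nat_lit 0x0)
  (PL.C (nat_lit 0xc34861b) (nat_lit 0x0) (nat_lit 0x3165526388c7be)
  (PL.C (nat_lit 0xc372afb) (nat_lit 0x0) (nat_lit 0xbba2c507a591de)
  (PL.C (nat_lit 0xc3aa1e5) (nat_lit 0x0) (nat_lit 0x309d2396524baf)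
  (PL.C (nat_lit 0xc40941f) (nat_lit 0x0) (nat_lit 0x1a0976914341a67)
  (PL.C (nat_lit 0xc419d15) (nat_lit 0x73361da93a9c0) (nat_lit 0x0) gp1_1_132))))))))))))))))))))

noncomputable def gp1_1_130 : PL :=
  (PL.C (nat_lit 0xba6cec6) (nat_lit 0x0) (nat_lit 0x1f92389f8a091dc)
  (PL.C (nat_lit 0xbab9806) (nat_lit 0x9f63db50cf5a8b) (nat_lit 0x0)
  (PL.C (nat_lit 0xbaf816e) (nat_lit 0x0) (nat_lit 0xec990b701df375)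
  (PL.C (nat_lit 0xbb07ee3) (nat_lit 0x6f0984ce398e2a) (nat_lit 0x0)
  (PL.C (nat_lit 0xbb26966) (nat_lit 0x18ffc59fdaece9) (nat_lit 0x0)
  (PL.C (nat_lit 0xbb2fade) (nat_lit 0x0) (nat_lit 0xa5e79436e7d549)
  (PL.C (nat_lit 0xbb48a01) (nat_lit 0x5d3de2748936c85) (nat_lit 0x0)
  (PL.C (nat_lit 0xbb7c91e) (nat_lit 0x0) (nat_lit 0x1848af8562ace3)
  (PL.C (nat_lit 0xbc4c326) (nat_lit 0x127540d4e32ed81) (nat_lit 0x0)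
  (PL.C (nat_lit 0xbc6c612) (nat_lit 0x0) (nat_lit 0x13de140b316d5b1)
  (PL.C (nat_lit 0xbd725bb) (nat_lit 0x0) (nat_lit 0x11e71d9f1c78ca)
  (PL.C (nat_lit 0xbd8373a) (nat_lit 0x0) (nat_lit 0x4691544fc1c454)
  (PL.C (nat_lit 0xbe7cde9) (nat_lit 0x59ec52b575377d6) (nat_lit 0x0)
  (PL.C (nat_lit 0xbe9dff7) (nat_lit 0x0) (nat_lit 0x9e3ba975aa929)
  (PL.C (nat_lit 0xbef0215) (nat_lit 0x3a1ba7c4cc93189) (nat_lit 0x0)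
  (PL.C (nat_lit 0xbf00427) (nat_lit 0x327ec5e50079b7) (nat_lit 0x0)
  (PL.C (nat_lit 0xbfbe38c) (nat_lit 0x0) (nat_lit 0x5c3a19444c2a0)
  (PL.C (nat_lit 0xbfe8b9d) (nat_lit 0x0) (nat_lit 0x20ba23d01ce628)
  (PL.C (nat_lit 0xc042111) (nat_lit 0x104da1abdfaaa9) (nat_lit 0x0)
  (PL.C (nat_lit 0xc048c63) (nat_lit 0x0) (nat_lit 0xea4a6d46273b13) gp1_1_131))))))))))))))))))))

noncomputable def gp1_1_129 : PL :=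
  (PL.C (nat_lit 0xb717ee9) (nat_lit 0x7e06a11f3c610) (nat_lit 0x0)
  (PL.C (nat_lit 0xb724ae2) (nat_lit 0x0) (nat_lit 0x28315da531e40e)
  (PL.C (nat_lit 0xb731605) (nat_lit 0x0) (nat_lit 0x87328577a94836)
  (PL.C (nat_lit 0xb773917) (nat_lit 0x308a2bb0f22712) (nat_lit 0x0)
  (PL.C (nat_lit 0xb7d0086) (nat_lit 0x0) (nat_lit 0x4d6985d96e6039)
  (PL.C (nat_lit 0xb815b6d) (nat_lit 0x2be74726061ea91) (nat_lit 0x0)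
  (PL.C (nat_lit 0xb81e1ff) (nat_lit 0x1f9cd0c3074804d) (nat_lit 0x0)
  (PL.C (nat_lit 0xb836c9e) (nat_lit 0x1cbc06f32d2f03d) (nat_lit 0x0)
  (PL.C (nat_lit 0xb8555f2) (nat_lit 0x1671c0ff05af) (nat_lit 0x0)
  (PL.C (nat_lit 0xb88f543) (nat_lit 0x0) (nat_lit 0x108e70f37bf407)
  (PL.C (nat_lit 0xb895bfe) (nat_lit 0x0) (nat_lit 0x96f22469835b6a)
  (PL.C (nat_lit 0xb8b1a0e) (nat_lit 0x0) (nat_lit 0xcc8e56a37286d)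
  (PL.C (nat_lit 0xb8bfef2) (nat_lit 0x0) (nat_lit 0x7c31db46a264ec)
  (PL.C (nat_lit 0xb8f97cd) (nat_lit 0x42b5269e5ccb15) (nat_lit 0x0)
  (PL.C (nat_lit 0xb98612e) (nat_lit 0x0) (nat_lit 0x23922492752bf2)
  (PL.C (nat_lit 0xb996b12) (nat_lit 0x0) (nat_lit 0xbb90ce3e46c570)
  (PL.C (nat_lit 0xb9ccbf2) (nat_lit 0x17a8ea9aaee99ed) (nat_lit 0x0)
  (PL.C (nat_lit 0xb9e2ed2) (nat_lit 0x0) (nat_lit 0x4b0e4f584696b0)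
  (PL.C (nat_lit 0xba1baed) (nat_lit 0x0) (nat_lit 0x6039d2e8f759ad3)
  (PL.C (nat_lit 0xba4d0b2) (nat_lit 0x2c70e53680694) (nat_lit 0x0) gp1_1_130))))))))))))))))))))

noncomputable def gp1_1_128 : PL :=
  (PL.C (nat_lit 0xb276dbf) (nat_lit 0xa8687dd80c65d1) (nat_lit 0x0)
  (PL.C (nat_lit 0xb29d2de) (nat_lit 0x0) (nat_lit 0x13de140b316d5b1)
  (PL.C (nat_lit 0xb2a8b3f) (nat_lit 0x5bb4a0091d4093) (nat_lit 0x0)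
  (PL.C (nat_lit 0xb2c1c61) (nat_lit 0x0) (nat_lit 0xf79adfd5f1387)
  (PL.C (nat_lit 0xb30c224) (nat_lit 0x128d40b674b4cd) (nat_lit 0x0)
  (PL.C (nat_lit 0xb42a00f) (nat_lit 0xb8ea42e25b6c1b) (nat_lit 0x0)
  (PL.C (nat_lit 0xb43dd3d) (nat_lit 0xff292102102678) (nat_lit 0x0)
  (PL.C (nat_lit 0xb448cbd) (nat_lit 0x0) (nat_lit 0x6e01acacd3fb71)
  (PL.C (nat_lit 0xb4b03a6) (nat_lit 0x0) (nat_lit 0x3c2615c04d6652)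
  (PL.C (nat_lit 0xb4b3846) (nat_lit 0x0) (nat_lit 0x5897ec314a1ed2)
  (PL.C (nat_lit 0xb4b4e73) (nat_lit 0x4c9ae0af96ba83) (nat_lit 0x0)
  (PL.C (nat_lit 0xb514927) (nat_lit 0x0) (nat_lit 0x62b0df7b98ff3)
  (PL.C (nat_lit 0xb54a0ee) (nat_lit 0x0) (nat_lit 0x5ad6664e47f46d)
  (PL.C (nat_lit 0xb5c76bb) (nat_lit 0x0) (nat_lit 0x6f7e4ca8a41fcb)
  (PL.C (nat_lit 0xb61b53a) (nat_lit 0x2ae92d584b5c125) (nat_lit 0x0)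
  (PL.C (nat_lit 0xb630a87) (nat_lit 0x3b146c53368bde7) (nat_lit 0x0)
  (PL.C (nat_lit 0xb63e6aa) (nat_lit 0x0) (nat_lit 0x689c0a498a9f8a)
  (PL.C (nat_lit 0xb68bd79) (nat_lit 0x17fa49f2a0e918b) (nat_lit 0x0)
  (PL.C (nat_lit 0xb69c5ca) (nat_lit 0x951323be04d34e) (nat_lit 0x0)
  (PL.C (nat_lit 0xb6d9922) (nat_lit 0x0) (nat_lit 0xaf7ddde3717002) gp1_1_129))))))))))))))))))))

noncomputable def gp1_1_127 : PL :=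
  (PL.C (nat_lit 0xae56764) (nat_lit 0x8f1f94d99c0a2) (nat_lit 0x0)
  (PL.C (nat_lit 0xae72357) (nat_lit 0x0) (nat_lit 0x7dc2f157a01cc3)
  (PL.C (nat_lit 0xae9a6fe) (nat_lit 0xd100c2e95f08d6) (nat_lit 0x0)
  (PL.C (nat_lit 0xaeb507d) (nat_lit 0x1d596ae6d790e28) (nat_lit 0x0)
  (PL.C (nat_lit 0xaeff5fe) (nat_lit 0x2a2d8bec02aa6e) (nat_lit 0x0)
  (PL.C (nat_lit 0xaf0c783) (nat_lit 0x0) (nat_lit 0x1108857d3e712f)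
  (PL.C (nat_lit 0xaf1fb4c) (nat_lit 0x0) (nat_lit 0x3b0277a04f4e95)
  (PL.C (nat_lit 0xaf28733) (nat_lit 0x6c7237c31c9ebe) (nat_lit 0x0)
  (PL.C (nat_lit 0xafab347) (nat_lit 0x0) (nat_lit 0x2fe7ffa212578c)
  (PL.C (nat_lit 0xafb199c) (nat_lit 0x0) (nat_lit 0x9aa37d622ad517)
  (PL.C (nat_lit 0xafbb0e2) (nat_lit 0x0) (nat_lit 0x9f400c392ecb)
  (PL.C (nat_lit 0xafbd865) (nat_lit 0x68600cb24776443) (nat_lit 0x0)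
  (PL.C (nat_lit 0xafd6a7c) (nat_lit 0x3120e04bd32a06) (nat_lit 0x0)
  (PL.C (nat_lit 0xafe7fb2) (nat_lit 0x0) (nat_lit 0x2226143f21a06b)
  (PL.C (nat_lit 0xb06b56b) (nat_lit 0x0) (nat_lit 0x375cc0dbbe467ab)
  (PL.C (nat_lit 0xb08538d) (nat_lit 0x6f63125f173c0c) (nat_lit 0x0)
  (PL.C (nat_lit 0xb0b7493) (nat_lit 0x0) (nat_lit 0x2a4f5c98d527d4)
  (PL.C (nat_lit 0xb134c84) (nat_lit 0x0) (nat_lit 0xd1125c800564e0)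
  (PL.C (nat_lit 0xb1811ce) (nat_lit 0xc2db24e9334786) (nat_lit 0x0)
  (PL.C (nat_lit 0xb261636) (nat_lit 0x0) (nat_lit 0x1e5bd32645ef24) gp1_1_128))))))))))))))))))))

noncomputable def gp1_1_126 : PL :=
  (PL.C (nat_lit 0xa9547b2) (nat_lit 0x2fa32efca34e7b) (nat_lit 0x0)
  (PL.C (nat_lit 0xa9665bd) (nat_lit 0x72f615f53d8c34) (nat_lit 0x0)
  (PL.C (nat_lit 0xa9bb243) (nat_lit 0x0) (nat_lit 0x19a1e44d)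
  (PL.C (nat_lit 0xa9d2e2a) (nat_lit 0x0) (nat_lit 0x11a1d237ec772d)
  (PL.C (nat_lit 0xa9d5459) (nat_lit 0xbdc74043df05d9b) (nat_lit 0x0)
  (PL.C (nat_lit 0xaa1c093) (nat_lit 0x0) (nat_lit 0x2c1706dd12dd68)
  (PL.C (nat_lit 0xaa81432) (nat_lit 0x0) (nat_lit 0x82746710f5fe7)
  (PL.C (nat_lit 0xab19acd) (nat_lit 0x41078cfeb14b63) (nat_lit 0x0)
  (PL.C (nat_lit 0xab92e95) (nat_lit 0x0) (nat_lit 0x1612074d43cd55)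
  (PL.C (nat_lit 0xaba5f86) (nat_lit 0x0) (nat_lit 0x6fe169a0a31687)
  (PL.C (nat_lit 0xabc3d84) (nat_lit 0xe878e21d3c13a6) (nat_lit 0x0)
  (PL.C (nat_lit 0xabd4c4e) (nat_lit 0x0) (nat_lit 0x57195330e91814)
  (PL.C (nat_lit 0xac6c1c2) (nat_lit 0x1dabe7d346c3b42) (nat_lit 0x0)
  (PL.C (nat_lit 0xac92b01) (nat_lit 0x39e6203e095f275) (nat_lit 0x0)
  (PL.C (nat_lit 0xacb4881) (nat_lit 0x0) (nat_lit 0x5d2fa200901a463)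
  (PL.C (nat_lit 0xad0af7f) (nat_lit 0x0) (nat_lit 0x33c62ce1bd70eea)
  (PL.C (nat_lit 0xad203ca) (nat_lit 0xa49e68588a4ca) (nat_lit 0x0)
  (PL.C (nat_lit 0xad6dc0f) (nat_lit 0x0) (nat_lit 0x17b76a41929f7f)
  (PL.C (nat_lit 0xada9be5) (nat_lit 0x48a424564c2db5) (nat_lit 0x0)
  (PL.C (nat_lit 0xaddc5a7) (nat_lit 0x0) (nat_lit 0x11b5e2800134b52) gp1_1_127))))))))))))))))))))

noncomputable def gp1_1_125 : PL :=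
  (PL.C (nat_lit 0xa4f9775) (nat_lit 0xaa9dc6505a10c2) (nat_lit 0x0)
  (PL.C (nat_lit 0xa546449) (nat_lit 0x0) (nat_lit 0xb8a3d47b2e5b5)
  (PL.C (nat_lit 0xa54c08b) (nat_lit 0x1fba22040b597f) (nat_lit 0x0)
  (PL.C (nat_lit 0xa56844e) (nat_lit 0x26c3657f8b2447) (nat_lit 0x0)
  (PL.C (nat_lit 0xa57c2db) (nat_lit 0x1d8ea2750e30c53) (nat_lit 0x0)
  (PL.C (nat_lit 0xa5aa65b) (nat_lit 0x0) (nat_lit 0x2cc83657ff0ff5)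
  (PL.C (nat_lit 0xa6498e9) (nat_lit 0x0) (nat_lit 0x19f9d3b6ee727cc)
  (PL.C (nat_lit 0xa6544d4) (nat_lit 0x0) (nat_lit 0x45ae8230a7202)
  (PL.C (nat_lit 0xa6b84dd) (nat_lit 0x77d9984339f4e8) (nat_lit 0x0)
  (PL.C (nat_lit 0xa76e94a) (nat_lit 0x0) (nat_lit 0x2f869f554e0085)
  (PL.C (nat_lit 0xa7c2d8c) (nat_lit 0x1d29cd7c84c5fd) (nat_lit 0x0)
  (PL.C (nat_lit 0xa804463) (nat_lit 0x7a278657a098bb) (nat_lit 0x0)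
  (PL.C (nat_lit 0xa815c4b) (nat_lit 0x2425f3fe0835820) (nat_lit 0x0)
  (PL.C (nat_lit 0xa864ead) (nat_lit 0x0) (nat_lit 0x67ddc146226cfc)
  (PL.C (nat_lit 0xa885b67) (nat_lit 0x0) (nat_lit 0x12e51e9eb53b2bc)
  (PL.C (nat_lit 0xa893f2d) (nat_lit 0x0) (nat_lit 0xdb79b041ed30f)
  (PL.C (nat_lit 0xa89fa2e) (nat_lit 0x0) (nat_lit 0x2651f4ff5e19ebf)
  (PL.C (nat_lit 0xa8e4e6e) (nat_lit 0xa7c65f9fdaa6b) (nat_lit 0x0)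
  (PL.C (nat_lit 0xa8f09c3) (nat_lit 0x6d027e3aa4bc35) (nat_lit 0x0)
  (PL.C (nat_lit 0xa91d836) (nat_lit 0x31810f94f0e4d9) (nat_lit 0x0) gp1_1_126))))))))))))))))))))

noncomputable def gp1_1_124 : PL :=
  (PL.C (nat_lit 0xa03039a) (nat_lit 0x158ca5e009b076a) (nat_lit 0x0)
  (PL.C (nat_lit 0xa07539b) (nat_lit 0x2f2fd6d8c018733) (nat_lit 0x0)
  (PL.C (nat_lit 0xa0e24b6) (nat_lit 0x20871bfa13f90) (nat_lit 0x0)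
  (PL.C (nat_lit 0xa12e729) (nat_lit 0x0) (nat_lit 0xb713c62111294bc)
  (PL.C (nat_lit 0xa13c103) (nat_lit 0x327ec5e50079b7) (nat_lit 0x0)
  (PL.C (nat_lit 0xa16c303) (nat_lit 0x0) (nat_lit 0x1c4abca3f39f2fd)
  (PL.C (nat_lit 0xa1721b7) (nat_lit 0x0) (nat_lit 0x1fb16403ee6881)
  (PL.C (nat_lit 0xa1d6d4d) (nat_lit 0x0) (nat_lit 0x27c6272e41f5e51)
  (PL.C (nat_lit 0xa1dc6bc) (nat_lit 0x0) (nat_lit 0x11b74cd4c5abb9)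
  (PL.C (nat_lit 0xa2004d1) (nat_lit 0x0) (nat_lit 0xbb9adc4f90f684)
  (PL.C (nat_lit 0xa212acc) (nat_lit 0x1ee3c3d4f0dd74) (nat_lit 0x0)
  (PL.C (nat_lit 0xa2587ca) (nat_lit 0x98792a5748edf6) (nat_lit 0x0)
  (PL.C (nat_lit 0xa2db923) (nat_lit 0x334f5dcf7628d8d) (nat_lit 0x0)
  (PL.C (nat_lit 0xa36b41c) (nat_lit 0x0) (nat_lit 0x48511380a83f24)
  (PL.C (nat_lit 0xa396bb7) (nat_lit 0x2b888fa593a821b) (nat_lit 0x0)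
  (PL.C (nat_lit 0xa3dd27f) (nat_lit 0xe978d5c7b455c) (nat_lit 0x0)
  (PL.C (nat_lit 0xa41fd9d) (nat_lit 0x6f6ea6a07a4b8a7) (nat_lit 0x0)
  (PL.C (nat_lit 0xa49a4f5) (nat_lit 0x0) (nat_lit 0x3e3f57e23746ab)
  (PL.C (nat_lit 0xa4b79d2) (nat_lit 0x335427fe5b26a3b) (nat_lit 0x0)
  (PL.C (nat_lit 0xa4d95c7) (nat_lit 0x39d5bfd92c5c04) (nat_lit 0x0) gp1_1_125))))))))))))))))))))

noncomputable def gp1_1_123 : PL :=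
  (PL.C (nat_lit 0x9d5f45e) (nat_lit 0x0) (nat_lit 0x1b14a1939993860)
  (PL.C (nat_lit 0x9d630ef) (nat_lit 0x37b24f7ac4a496) (nat_lit 0x0)
  (PL.C (nat_lit 0x9d7b49d) (nat_lit 0x0) (nat_lit 0x16cfca72c23ccb0)
  (PL.C (nat_lit 0x9da6d14) (nat_lit 0xd232dabc74ab3a) (nat_lit 0x0)
  (PL.C (nat_lit 0x9dbce7f) (nat_lit 0xd85c07ca1c9f3) (nat_lit 0x0)
  (PL.C (nat_lit 0x9dc9c3b) (nat_lit 0x30e152aefab5d0b) (nat_lit 0x0)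
  (PL.C (nat_lit 0x9e03ad6) (nat_lit 0x0) (nat_lit 0xb39f1a0b302f46)
  (PL.C (nat_lit 0x9e06349) (nat_lit 0x5bd50970898f73) (nat_lit 0x0)
  (PL.C (nat_lit 0x9e170b3) (nat_lit 0x0) (nat_lit 0xee47625759add0)
  (PL.C (nat_lit 0x9e18bc5) (nat_lit 0x0) (nat_lit 0x93d8357ff707cd)
  (PL.C (nat_lit 0x9e554b7) (nat_lit 0x0) (nat_lit 0x6e864871c5d63a)
  (PL.C (nat_lit 0x9e5c02e) (nat_lit 0x0) (nat_lit 0x200c14e6e41cfa4)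
  (PL.C (nat_lit 0x9e66b1c) (nat_lit 0x0) (nat_lit 0x1109447bf702b09)
  (PL.C (nat_lit 0x9e6e9a7) (nat_lit 0x0) (nat_lit 0x35536fc0a0fbed)
  (PL.C (nat_lit 0x9ebde59) (nat_lit 0x0) (nat_lit 0x47966af44bd466)
  (PL.C (nat_lit 0x9f03625) (nat_lit 0x0) (nat_lit 0x2cbc4f14775f21)
  (PL.C (nat_lit 0x9f12cfa) (nat_lit 0x0) (nat_lit 0x6d8d77f3ca7aabc)
  (PL.C (nat_lit 0x9f18849) (nat_lit 0x0) (nat_lit 0x9e3ba975aa929)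
  (PL.C (nat_lit 0x9fb8fe2) (nat_lit 0x0) (nat_lit 0x436e45eb119ce43)
  (PL.C (nat_lit 0x9ffa9a2) (nat_lit 0x0) (nat_lit 0x966202ca9133bf) gp1_1_124))))))))))))))))))))

noncomputable def gp1_1_122 : PL :=
  (PL.C (nat_lit 0x988a3de) (nat_lit 0x1240581c12e7ede) (nat_lit 0x0)
  (PL.C (nat_lit 0x98e6da5) (nat_lit 0x0) (nat_lit 0x8e7a86e1425f8f)
  (PL.C (nat_lit 0x9909526) (nat_lit 0x0) (nat_lit 0x1285abb9427a619)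
  (PL.C (nat_lit 0x99ab119) (nat_lit 0x0) (nat_lit 0x36de9071e662c5)
  (PL.C (nat_lit 0x99b9fa2) (nat_lit 0x3916dbc7b008bcc) (nat_lit 0x0)
  (PL.C (nat_lit 0x9a26e72) (nat_lit 0x0) (nat_lit 0xa3f5685278723)
  (PL.C (nat_lit 0x9a3196d) (nat_lit 0x0) (nat_lit 0x1f51e0db1f2537)
  (PL.C (nat_lit 0x9a5a92a) (nat_lit 0x57d9e5aeb7bf4f) (nat_lit 0x0)
  (PL.C (nat_lit 0x9ab35b6) (nat_lit 0x0) (nat_lit 0x4f0a989759dbe1)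
  (PL.C (nat_lit 0x9ac3059) (nat_lit 0xb993aa8d4ce35b) (nat_lit 0x0)
  (PL.C (nat_lit 0x9b107a7) (nat_lit 0x0) (nat_lit 0x2d6844fdaef743)
  (PL.C (nat_lit 0x9baa62f) (nat_lit 0x39b91f871991fb) (nat_lit 0x0)
  (PL.C (nat_lit 0x9bd1876) (nat_lit 0x0) (nat_lit 0x123cbf33c519521)
  (PL.C (nat_lit 0x9bf523a) (nat_lit 0x0) (nat_lit 0xd54467568456fe)
  (PL.C (nat_lit 0x9c05c1e) (nat_lit 0xcdd18b040160dd) (nat_lit 0x0)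
  (PL.C (nat_lit 0x9c48f69) (nat_lit 0x0) (nat_lit 0x35ad053afd94aa8)
  (PL.C (nat_lit 0x9c9c666) (nat_lit 0x0) (nat_lit 0x62d1b6e6260512)
  (PL.C (nat_lit 0x9caa6da) (nat_lit 0x0) (nat_lit 0x3a983c3a8d0d3)
  (PL.C (nat_lit 0x9cd0e4e) (nat_lit 0x242ea800bab146) (nat_lit 0x0)
  (PL.C (nat_lit 0x9d14711) (nat_lit 0x57fec00b2d9f16) (nat_lit 0x0) gp1_1_123))))))))))))))))))))

noncomputable def gp1_1_121 : PL :=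
  (PL.C (nat_lit 0x95279a4) (nat_lit 0x48402d9cb1ee63) (nat_lit 0x0)
  (PL.C (nat_lit 0x952d01f) (nat_lit 0x0) (nat_lit 0x675c117d89b787)
  (PL.C (nat_lit 0x956b2f2) (nat_lit 0x20aa65fc6bb1a1) (nat_lit 0x0)
  (PL.C (nat_lit 0x95758ad) (nat_lit 0x0) (nat_lit 0x12566063e0d590)
  (PL.C (nat_lit 0x9576914) (nat_lit 0x0) (nat_lit 0x3c6a3b231512)
  (PL.C (nat_lit 0x95822af) (nat_lit 0x0) (nat_lit 0x11f763e622a707)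
  (PL.C (nat_lit 0x95aecaf) (nat_lit 0xdc86321a8dcc2e) (nat_lit 0x0)
  (PL.C (nat_lit 0x95f9b51) (nat_lit 0x0) (nat_lit 0x366481cbfd6da0)
  (PL.C (nat_lit 0x960a304) (nat_lit 0xab754237a1cb6b) (nat_lit 0x0)
  (PL.C (nat_lit 0x9611ae1) (nat_lit 0x0) (nat_lit 0x3265e4f5a79ff8)
  (PL.C (nat_lit 0x9618f8e) (nat_lit 0x0) (nat_lit 0x4ddb310f0fcb09)
  (PL.C (nat_lit 0x96930db) (nat_lit 0x6a98341579fb64) (nat_lit 0x0)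
  (PL.C (nat_lit 0x96c72d6) (nat_lit 0x0) (nat_lit 0x21412647053bf69)
  (PL.C (nat_lit 0x96d0e7b) (nat_lit 0xd59f2b9baf68fd) (nat_lit 0x0)
  (PL.C (nat_lit 0x970374f) (nat_lit 0x23f276b44402f8) (nat_lit 0x0)
  (PL.C (nat_lit 0x9744367) (nat_lit 0x0) (nat_lit 0x77fca7d8dd38a4)
  (PL.C (nat_lit 0x97719a2) (nat_lit 0x0) (nat_lit 0x7605e400bf9b8d)
  (PL.C (nat_lit 0x97bd65e) (nat_lit 0x21b202b66cc6d) (nat_lit 0x0)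
  (PL.C (nat_lit 0x981628b) (nat_lit 0x5ced607a1befc6) (nat_lit 0x0)
  (PL.C (nat_lit 0x9830271) (nat_lit 0x172a7cfcd36a4b) (nat_lit 0x0) gp1_1_122))))))))))))))))))))

noncomputable def gp1_1_120 : PL :=
  (PL.C (nat_lit 0x91fd25a) (nat_lit 0x0) (nat_lit 0x1951c3660a1381)
  (PL.C (nat_lit 0x92133bb) (nat_lit 0x196ccaa7762d3af) (nat_lit 0x0)
  (PL.C (nat_lit 0x928814d) (nat_lit 0x0) (nat_lit 0x70a2e0f8d3a4e8)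
  (PL.C (nat_lit 0x9297b1f) (nat_lit 0x0) (nat_lit 0x62501c4e2b647a)
  (PL.C (nat_lit 0x9299439) (nat_lit 0x0) (nat_lit 0x1d810be2a2c960)
  (PL.C (nat_lit 0x92d16b3) (nat_lit 0x155899fc07328c) (nat_lit 0x0)
  (PL.C (nat_lit 0x9316125) (nat_lit 0x0) (nat_lit 0xb56dbf2fde8b53)
  (PL.C (nat_lit 0x933269d) (nat_lit 0x2301923cb2c37d2) (nat_lit 0x0)
  (PL.C (nat_lit 0x937e4ad) (nat_lit 0x0) (nat_lit 0x675c117d89b787)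
  (PL.C (nat_lit 0x93b9a76) (nat_lit 0x0) (nat_lit 0x54b338d452910c1)
  (PL.C (nat_lit 0x93bae0d) (nat_lit 0x0) (nat_lit 0x6cdac42ec703)
  (PL.C (nat_lit 0x93dc53f) (nat_lit 0x5849beed89e12a) (nat_lit 0x0)
  (PL.C (nat_lit 0x93e7f5e) (nat_lit 0x6e59d4d7c95f12) (nat_lit 0x0)
  (PL.C (nat_lit 0x9414f75) (nat_lit 0x16767aefa38106) (nat_lit 0x0)
  (PL.C (nat_lit 0x945a2b9) (nat_lit 0x7c5cc4d91833ec) (nat_lit 0x0)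
  (PL.C (nat_lit 0x9476cbb) (nat_lit 0x19946e37a53f11) (nat_lit 0x0)
  (PL.C (nat_lit 0x94c9ca7) (nat_lit 0x0) (nat_lit 0x13e1ac3917d80be)
  (PL.C (nat_lit 0x94e27e1) (nat_lit 0x0) (nat_lit 0x5b29d23ccf254)
  (PL.C (nat_lit 0x94ece57) (nat_lit 0x7ec801d1574c5ab) (nat_lit 0x0)
  (PL.C (nat_lit 0x95167d7) (nat_lit 0x0) (nat_lit 0x5f03eed1f2b050) gp1_1_121))))))))))))))))))))

noncomputable def gp1_1_119 : PL :=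
  (PL.C (nat_lit 0x8f467ac) (nat_lit 0x0) (nat_lit 0x7b45d19d06a943)
  (PL.C (nat_lit 0x8f4788f) (nat_lit 0x0) (nat_lit 0x199820c1)
  (PL.C (nat_lit 0x8f5747c) (nat_lit 0x290cc7772a0d214) (nat_lit 0x0)
  (PL.C (nat_lit 0x8f5d97d) (nat_lit 0x0) (nat_lit 0xf89fcccd378157a)
  (PL.C (nat_lit 0x8f5e6ff) (nat_lit 0x0) (nat_lit 0x38e3c26ef517c)
  (PL.C (nat_lit 0x8f731ce) (nat_lit 0x0) (nat_lit 0x62f94961b51d38)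
  (PL.C (nat_lit 0x8fc9763) (nat_lit 0x558e11aaade521) (nat_lit 0x0)
  (PL.C (nat_lit 0x8fe2292) (nat_lit 0x0) (nat_lit 0x61a7d6c22c765a1)
  (PL.C (nat_lit 0x8fed06c) (nat_lit 0x86ccbf6f96aea8) (nat_lit 0x0)
  (PL.C (nat_lit 0x8feec7a) (nat_lit 0x0) (nat_lit 0xdf1e3e0ea2caf8)
  (PL.C (nat_lit 0x9013953) (nat_lit 0x0) (nat_lit 0xa04fc1125ef32a)
  (PL.C (nat_lit 0x907c78e) (nat_lit 0x0) (nat_lit 0x8c09bd99da972c)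
  (PL.C (nat_lit 0x90932a4) (nat_lit 0x1ffc8a847a0d191) (nat_lit 0x0)
  (PL.C (nat_lit 0x909d7e2) (nat_lit 0xa8b0c6b81dc7c6) (nat_lit 0x0)
  (PL.C (nat_lit 0x9106545) (nat_lit 0x2dea71a158bfb2) (nat_lit 0x0)
  (PL.C (nat_lit 0x910d606) (nat_lit 0x1d7ec247e7d909) (nat_lit 0x0)
  (PL.C (nat_lit 0x9123264) (nat_lit 0x0) (nat_lit 0x12f92099ed36f)
  (PL.C (nat_lit 0x912a334) (nat_lit 0x0) (nat_lit 0x37c34017f160eb)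
  (PL.C (nat_lit 0x91ca445) (nat_lit 0x0) (nat_lit 0x26d1e026ab9eeb5)
  (PL.C (nat_lit 0x91f0ccb) (nat_lit 0x0) (nat_lit 0xd3aa1748155a) gp1_1_120))))))))))))))))))))

noncomputable def gp1_1_118 : PL :=
  (PL.C (nat_lit 0x8bcff6e) (nat_lit 0x2562ff6b8e78277) (nat_lit 0x0)
  (PL.C (nat_lit 0x8c0c301) (nat_lit 0x0) (nat_lit 0x399a3cfbcf1cf2)
  (PL.C (nat_lit 0x8c6dfea) (nat_lit 0x0) (nat_lit 0x612588186418fa)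
  (PL.C (nat_lit 0x8c97794) (nat_lit 0x0) (nat_lit 0xd357e60ca6765c)
  (PL.C (nat_lit 0x8ca103f) (nat_lit 0x0) (nat_lit 0x87141efff645f)
  (PL.C (nat_lit 0x8cfccf6) (nat_lit 0x0) (nat_lit 0x58b5d494edfde)
  (PL.C (nat_lit 0x8d06957) (nat_lit 0x0) (nat_lit 0x50959122d48108)
  (PL.C (nat_lit 0x8dc8199) (nat_lit 0x90e253bde445a5) (nat_lit 0x0)
  (PL.C (nat_lit 0x8dcd4cc) (nat_lit 0x0) (nat_lit 0x7bc157f84decf6)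
  (PL.C (nat_lit 0x8de80fe) (nat_lit 0xb97cd93c0ac039) (nat_lit 0x0)
  (PL.C (nat_lit 0x8e13fc1) (nat_lit 0x240cb53394e54d) (nat_lit 0x0)
  (PL.C (nat_lit 0x8e42543) (nat_lit 0x0) (nat_lit 0x3fc3125927b4642)
  (PL.C (nat_lit 0x8e58366) (nat_lit 0x0) (nat_lit 0x17c38dcdba1eee)
  (PL.C (nat_lit 0x8e8bdea) (nat_lit 0xb7e36cb4776a22) (nat_lit 0x0)
  (PL.C (nat_lit 0x8eb28f4) (nat_lit 0x7b794b2173c34a) (nat_lit 0x0)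
  (PL.C (nat_lit 0x8eb888f) (nat_lit 0x0) (nat_lit 0x7dc2f157a01cc3)
  (PL.C (nat_lit 0x8ec278e) (nat_lit 0x85ba4c169550c1) (nat_lit 0x0)
  (PL.C (nat_lit 0x8ef0dfa) (nat_lit 0x2220f682f43ada) (nat_lit 0x0)
  (PL.C (nat_lit 0x8efff71) (nat_lit 0x0) (nat_lit 0x41c11f4f527095)
  (PL.C (nat_lit 0x8f20c92) (nat_lit 0xd963af5dbeeac6) (nat_lit 0x0) gp1_1_119))))))))))))))))))))

noncomputable def gp1_1_117 : PL :=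
  (PL.C (nat_lit 0x8876551) (nat_lit 0x1a84f8429b10046) (nat_lit 0x0)
  (PL.C (nat_lit 0x889e141) (nat_lit 0x0) (nat_lit 0x12ebb7597fbd5f1)
  (PL.C (nat_lit 0x88ae631) (nat_lit 0x0) (nat_lit 0x7e414f0a32b038)
  (PL.C (nat_lit 0x88c43c1) (nat_lit 0x1bc9efc250c913) (nat_lit 0x0)
  (PL.C (nat_lit 0x88fc6a1) (nat_lit 0x484189f039e2) (nat_lit 0x0)
  (PL.C (nat_lit 0x890b872) (nat_lit 0x54639151e53eef) (nat_lit 0x0)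
  (PL.C (nat_lit 0x897a2ef) (nat_lit 0x0) (nat_lit 0x9ffc2d8de72cda)
  (PL.C (nat_lit 0x89f0003) (nat_lit 0x0) (nat_lit 0x147933476521b)
  (PL.C (nat_lit 0x89f94e6) (nat_lit 0x3e38ce63103341e) (nat_lit 0x0)
  (PL.C (nat_lit 0x8a182d3) (nat_lit 0x0) (nat_lit 0x2b5e7ff6071e8a6)
  (PL.C (nat_lit 0x8a8bed1) (nat_lit 0xb19f7e32571e4) (nat_lit 0x0)
  (PL.C (nat_lit 0x8a8d47a) (nat_lit 0x5ded115ac6e933) (nat_lit 0x0)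
  (PL.C (nat_lit 0x8ac963f) (nat_lit 0x31e20975b91e97) (nat_lit 0x0)
  (PL.C (nat_lit 0x8acbf8b) (nat_lit 0x0) (nat_lit 0x1d1afc23296412)
  (PL.C (nat_lit 0x8b0c09a) (nat_lit 0x3f350df406eba01) (nat_lit 0x0)
  (PL.C (nat_lit 0x8b1ffa5) (nat_lit 0x0) (nat_lit 0x2b31a6786d9636)
  (PL.C (nat_lit 0x8b43a09) (nat_lit 0x0) (nat_lit 0x17d762d254a61cc)
  (PL.C (nat_lit 0x8b59205) (nat_lit 0x6a32d4cd783109) (nat_lit 0x0)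
  (PL.C (nat_lit 0x8b8f6fa) (nat_lit 0x0) (nat_lit 0x1ec098707ca216)
  (PL.C (nat_lit 0x8bb815a) (nat_lit 0x0) (nat_lit 0x9dd004aadbdcd9) gp1_1_118))))))))))))))))))))

noncomputable def gp1_1_116 : PL :=
  (PL.C (nat_lit 0x85f11dc) (nat_lit 0x183844a3b2603c) (nat_lit 0x0)
  (PL.C (nat_lit 0x8600b7d) (nat_lit 0x0) (nat_lit 0x50f10e930f113c)
  (PL.C (nat_lit 0x8642cbc) (nat_lit 0x1f14ea35d64a0a) (nat_lit 0x0)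
  (PL.C (nat_lit 0x8648662) (nat_lit 0x0) (nat_lit 0x7d63f45d89a6e70)
  (PL.C (nat_lit 0x8680cd1) (nat_lit 0x869265ed0b80b41) (nat_lit 0x0)
  (PL.C (nat_lit 0x86ce85e) (nat_lit 0x0) (nat_lit 0x153dc106e9f4b83)
  (PL.C (nat_lit 0x86d4aea) (nat_lit 0x0) (nat_lit 0x9412a827ce0c5c1)
  (PL.C (nat_lit 0x86f2dbe) (nat_lit 0x1671c0ff05af) (nat_lit 0x0)
  (PL.C (nat_lit 0x872feb9) (nat_lit 0xa4a29c0a2dd4b3) (nat_lit 0x0)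
  (PL.C (nat_lit 0x873bc6d) (nat_lit 0x1f07a0d1eba7af) (nat_lit 0x0)
  (PL.C (nat_lit 0x8740b34) (nat_lit 0x0) (nat_lit 0x490bf0d7a1f939)
  (PL.C (nat_lit 0x8773947) (nat_lit 0x0) (nat_lit 0x6e15f1e38eae996)
  (PL.C (nat_lit 0x87b65f4) (nat_lit 0xb9a0cdb1c4b03f) (nat_lit 0x0)
  (PL.C (nat_lit 0x87dcd3c) (nat_lit 0x1b4bced510e67d) (nat_lit 0x0)
  (PL.C (nat_lit 0x87dfee1) (nat_lit 0x0) (nat_lit 0x6e2cd45fa4e9e)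
  (PL.C (nat_lit 0x87e6e5b) (nat_lit 0x0) (nat_lit 0xf8a51c3ebc5583d)
  (PL.C (nat_lit 0x88490d3) (nat_lit 0xf9165c8bef87b) (nat_lit 0x0)
  (PL.C (nat_lit 0x8849d5e) (nat_lit 0x0) (nat_lit 0x673945c72428ba1)
  (PL.C (nat_lit 0x886a1cf) (nat_lit 0x37c609a088c21c) (nat_lit 0x0)
  (PL.C (nat_lit 0x886ac2c) (nat_lit 0x0) (nat_lit 0x14b63f79083fc0) gp1_1_117))))))))))))))))))))

noncomputable def gp1_1_115 : PL :=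
  (PL.C (nat_lit 0x824c752) (nat_lit 0x38331eae8915b) (nat_lit 0x0)
  (PL.C (nat_lit 0x82b0d6a) (nat_lit 0x0) (nat_lit 0x53be2c9b8d5ea5d)
  (PL.C (nat_lit 0x82bbe0e) (nat_lit 0x3fe9adf25e6556) (nat_lit 0x0)
  (PL.C (nat_lit 0x82c4f14) (nat_lit 0x23dc7ff1777495b) (nat_lit 0x0)
  (PL.C (nat_lit 0x835308e) (nat_lit 0x0) (nat_lit 0x318a4d470eff2ea)
  (PL.C (nat_lit 0x83a70a2) (nat_lit 0x0) (nat_lit 0x6547ee7bc93546)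
  (PL.C (nat_lit 0x83b5116) (nat_lit 0x0) (nat_lit 0xfc935d2c895b7e)
  (PL.C (nat_lit 0x83edccd) (nat_lit 0x44b18ddee08990d) (nat_lit 0x0)
  (PL.C (nat_lit 0x83fe03e) (nat_lit 0x0) (nat_lit 0xba9f248da258a5)
  (PL.C (nat_lit 0x843a72c) (nat_lit 0x0) (nat_lit 0x996233e923474)
  (PL.C (nat_lit 0x8499915) (nat_lit 0xc32b362cb85178) (nat_lit 0x0)
  (PL.C (nat_lit 0x84dbeeb) (nat_lit 0x150ea94b20e424) (nat_lit 0x0)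
  (PL.C (nat_lit 0x84e5b1b) (nat_lit 0x508c86bc7e132) (nat_lit 0x0)
  (PL.C (nat_lit 0x850a751) (nat_lit 0x0) (nat_lit 0x91441853ffb28)
  (PL.C (nat_lit 0x851d724) (nat_lit 0x4e2936815aa890) (nat_lit 0x0)
  (PL.C (nat_lit 0x8541bd4) (nat_lit 0x0) (nat_lit 0xbc4371fb5a408)
  (PL.C (nat_lit 0x854d0af) (nat_lit 0x93a5c52d3d29ef) (nat_lit 0x0)
  (PL.C (nat_lit 0x859923f) (nat_lit 0x1e41b2b2b0da52) (nat_lit 0x0)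
  (PL.C (nat_lit 0x85ae166) (nat_lit 0x0) (nat_lit 0x26eec679369fc69)
  (PL.C (nat_lit 0x85bdc83) (nat_lit 0x7c1e7090f2fe94) (nat_lit 0x0) gp1_1_116))))))))))))))))))))

noncomputable def gp1_1_114 : PL :=
  (PL.C (nat_lit 0x7f5581a) (nat_lit 0x0) (nat_lit 0x2e95dfc79e4fc6)
  (PL.C (nat_lit 0x7fa0823) (nat_lit 0x0) (nat_lit 0x6cf113a6384cc3)
  (PL.C (nat_lit 0x7fe7daf) (nat_lit 0x0) (nat_lit 0xcc597dc3550051)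
  (PL.C (nat_lit 0x7ff07be) (nat_lit 0x5d4d83a9864822) (nat_lit 0x0)
  (PL.C (nat_lit 0x800d1bf) (nat_lit 0x4f5cc71092c9127) (nat_lit 0x0)
  (PL.C (nat_lit 0x802c0b6) (nat_lit 0x244255a71b614) (nat_lit 0x0)
  (PL.C (nat_lit 0x8030842) (nat_lit 0x368b3197fb5ebb) (nat_lit 0x0)
  (PL.C (nat_lit 0x8048372) (nat_lit 0x0) (nat_lit 0xcf9743365ab340)
  (PL.C (nat_lit 0x80627f7) (nat_lit 0x0) (nat_lit 0x3729f705b2beb3)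
  (PL.C (nat_lit 0x8079b22) (nat_lit 0x0) (nat_lit 0x341ac980d91cee)
  (PL.C (nat_lit 0x807b805) (nat_lit 0x0) (nat_lit 0x10d3fc5bfe071a1)
  (PL.C (nat_lit 0x80acb77) (nat_lit 0x0) (nat_lit 0x30d69d8c59f76ac)
  (PL.C (nat_lit 0x80c47d6) (nat_lit 0x0) (nat_lit 0x2c1b164da34818b)
  (PL.C (nat_lit 0x80ef3c2) (nat_lit 0x566ae03b4b14af) (nat_lit 0x0)
  (PL.C (nat_lit 0x8101b99) (nat_lit 0xe4b68fe94c1a84) (nat_lit 0x0)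
  (PL.C (nat_lit 0x812fc3e) (nat_lit 0x0) (nat_lit 0xaf7ddde3717002)
  (PL.C (nat_lit 0x8136b79) (nat_lit 0x109ea023b319eaa) (nat_lit 0x0)
  (PL.C (nat_lit 0x814b02e) (nat_lit 0x1a297829d86370) (nat_lit 0x0)
  (PL.C (nat_lit 0x81a738c) (nat_lit 0x1712e2b706fc311) (nat_lit 0x0)
  (PL.C (nat_lit 0x8230412) (nat_lit 0x0) (nat_lit 0x291f20453078f9) gp1_1_115))))))))))))))))))))

noncomputable def gp1_1_113 : PL :=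
  (PL.C (nat_lit 0x7c81e21) (nat_lit 0x0) (nat_lit 0x4f771effa7db07)
  (PL.C (nat_lit 0x7cab9dd) (nat_lit 0x0) (nat_lit 0xa22f7724b3df66)
  (PL.C (nat_lit 0x7caff42) (nat_lit 0x0) (nat_lit 0xd9fd37458866c8)
  (PL.C (nat_lit 0x7cc4644) (nat_lit 0x1ca512c5817b54) (nat_lit 0x0)
  (PL.C (nat_lit 0x7cdb156) (nat_lit 0x15953276434fe6a) (nat_lit 0x0)
  (PL.C (nat_lit 0x7cded3d) (nat_lit 0x155ed5386b823) (nat_lit 0x0)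
  (PL.C (nat_lit 0x7d99b83) (nat_lit 0x0) (nat_lit 0xbca0b1a34d911c)
  (PL.C (nat_lit 0x7dae925) (nat_lit 0x177fb43f1199b6) (nat_lit 0x0)
  (PL.C (nat_lit 0x7dda773) (nat_lit 0x14a89f6e8ac9d6f) (nat_lit 0x0)
  (PL.C (nat_lit 0x7df73a5) (nat_lit 0x0) (nat_lit 0xe7077f079cb2e)
  (PL.C (nat_lit 0x7e04a67) (nat_lit 0x0) (nat_lit 0x48366b911c75f8)
  (PL.C (nat_lit 0x7e3645b) (nat_lit 0xda365ae9af3cdc) (nat_lit 0x0)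
  (PL.C (nat_lit 0x7e4c3d2) (nat_lit 0x0) (nat_lit 0x8da4e8ebef2470)
  (PL.C (nat_lit 0x7e7e52b) (nat_lit 0x37123a5729258) (nat_lit 0x0)
  (PL.C (nat_lit 0x7e89a75) (nat_lit 0x3f78f766ff905b) (nat_lit 0x0)
  (PL.C (nat_lit 0x7eae825) (nat_lit 0x0) (nat_lit 0x1485abfa9e6b236)
  (PL.C (nat_lit 0x7f13ffa) (nat_lit 0x55f9cc0812da1) (nat_lit 0x0)
  (PL.C (nat_lit 0x7f1bb87) (nat_lit 0x9bad2815f413e8) (nat_lit 0x0)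
  (PL.C (nat_lit 0x7f4ac0e) (nat_lit 0x46f4beda2e832b6) (nat_lit 0x0)
  (PL.C (nat_lit 0x7f4c68d) (nat_lit 0x1fba22040b597f) (nat_lit 0x0) gp1_1_114))))))))))))))))))))

noncomputable def gp1_1_112 : PL :=
  (PL.C (nat_lit 0x79c8423) (nat_lit 0x172a7cfcd36a4b) (nat_lit 0x0)
  (PL.C (nat_lit 0x79e1e91) (nat_lit 0x0) (nat_lit 0x1d767f4ac34ebf1)
  (PL.C (nat_lit 0x7a0ff46) (nat_lit 0x0) (nat_lit 0x434a347d69440)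
  (PL.C (nat_lit 0x7a20eae) (nat_lit 0x38e3e875c6b69e) (nat_lit 0x0)
  (PL.C (nat_lit 0x7a4d0ba) (nat_lit 0x0) (nat_lit 0x555896ba615972)
  (PL.C (nat_lit 0x7a55861) (nat_lit 0xfe73a0d7528fa) (nat_lit 0x0)
  (PL.C (nat_lit 0x7a8ab04) (nat_lit 0x7a61cfd1f45859) (nat_lit 0x0)
  (PL.C (nat_lit 0x7acf314) (nat_lit 0x4ba41c8f8722683) (nat_lit 0x0)
  (PL.C (nat_lit 0x7ae394c) (nat_lit 0x19f3d0c632cb3c) (nat_lit 0x0)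
  (PL.C (nat_lit 0x7af4cc9) (nat_lit 0x0) (nat_lit 0x794847a6c8242)
  (PL.C (nat_lit 0x7b0a382) (nat_lit 0x31b05a7263b2d2) (nat_lit 0x0)
  (PL.C (nat_lit 0x7b34947) (nat_lit 0x0) (nat_lit 0xd6287511e5403d)
  (PL.C (nat_lit 0x7b50fde) (nat_lit 0x42785d268ece0e) (nat_lit 0x0)
  (PL.C (nat_lit 0x7b631d7) (nat_lit 0x0) (nat_lit 0xb6333d3cad9e65)
  (PL.C (nat_lit 0x7b9b38b) (nat_lit 0x4c58b6dacee261) (nat_lit 0x0)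
  (PL.C (nat_lit 0x7baeb74) (nat_lit 0x0) (nat_lit 0x77b72f4093b283)
  (PL.C (nat_lit 0x7bddd4c) (nat_lit 0x4a0e9efe17111c8) (nat_lit 0x0)
  (PL.C (nat_lit 0x7c03c2f) (nat_lit 0x10c31c3e07b37d) (nat_lit 0x0)
  (PL.C (nat_lit 0x7c29e79) (nat_lit 0x0) (nat_lit 0x7847cf91c572f49)
  (PL.C (nat_lit 0x7c59773) (nat_lit 0x3f62c2e884223e) (nat_lit 0x0) gp1_1_113))))))))))))))))))))

noncomputable def gp1_1_111 : PL :=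
  (PL.C (nat_lit 0x75c91b5) (nat_lit 0x0) (nat_lit 0x5430716a521230)
  (PL.C (nat_lit 0x75cf862) (nat_lit 0x2158c1638195a7) (nat_lit 0x0)
  (PL.C (nat_lit 0x7656134) (nat_lit 0x6942930788316e) (nat_lit 0x0)
  (PL.C (nat_lit 0x76b677b) (nat_lit 0x28077c6e859c44f) (nat_lit 0x0)
  (PL.C (nat_lit 0x771b22a) (nat_lit 0x0) (nat_lit 0x5ad8d6c0891141)
  (PL.C (nat_lit 0x772bd96) (nat_lit 0x5bb20d572e0558) (nat_lit 0x0)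
  (PL.C (nat_lit 0x7751073) (nat_lit 0x0) (nat_lit 0x17ad5bf6cc7e8b1)
  (PL.C (nat_lit 0x77a353d) (nat_lit 0x0) (nat_lit 0x11f763e622a707)
  (PL.C (nat_lit 0x781c00a) (nat_lit 0x46687df442de6d) (nat_lit 0x0)
  (PL.C (nat_lit 0x782937e) (nat_lit 0x5fc8db846ff5d1) (nat_lit 0x0)
  (PL.C (nat_lit 0x783087e) (nat_lit 0x0) (nat_lit 0x12f285620d67c19)
  (PL.C (nat_lit 0x78757c4) (nat_lit 0x0) (nat_lit 0x265a401ba9d6c1)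
  (PL.C (nat_lit 0x78789a2) (nat_lit 0xa1b7d89e90cd25) (nat_lit 0x0)
  (PL.C (nat_lit 0x78b861a) (nat_lit 0x0) (nat_lit 0x8cfe338996650b)
  (PL.C (nat_lit 0x790693b) (nat_lit 0x9a889e45be1a3) (nat_lit 0x0)
  (PL.C (nat_lit 0x792f9d2) (nat_lit 0x0) (nat_lit 0x5b3e5d759bbbe9)
  (PL.C (nat_lit 0x793b8df) (nat_lit 0x8dde4545de2506) (nat_lit 0x0)
  (PL.C (nat_lit 0x7975c5a) (nat_lit 0x2b681fdee42431c) (nat_lit 0x0)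
  (PL.C (nat_lit 0x797ef1c) (nat_lit 0xa7b7768c3c0568) (nat_lit 0x0)
  (PL.C (nat_lit 0x799f7df) (nat_lit 0x0) (nat_lit 0x17a7366e1bc256) gp1_1_112))))))))))))))))))))

noncomputable def gp1_1_110 : PL :=
  (PL.C (nat_lit 0x734e4df) (nat_lit 0x13173a07fe07213) (nat_lit 0x0)
  (PL.C (nat_lit 0x7373c85) (nat_lit 0x4d966bdd9dd201) (nat_lit 0x0)
  (PL.C (nat_lit 0x739a7b1) (nat_lit 0x7588ad69a333bc) (nat_lit 0x0)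
  (PL.C (nat_lit 0x739e80a) (nat_lit 0x55fc4d824c6eeb) (nat_lit 0x0)
  (PL.C (nat_lit 0x73c67ee) (nat_lit 0x0) (nat_lit 0x1256af1c65b09f1)
  (PL.C (nat_lit 0x7436ab1) (nat_lit 0x0) (nat_lit 0x8fceb866bc8301)
  (PL.C (nat_lit 0x7440dc5) (nat_lit 0x2a37ca2215bc20) (nat_lit 0x0)
  (PL.C (nat_lit 0x744c23a) (nat_lit 0x0) (nat_lit 0xac5290d3a40db7)
  (PL.C (nat_lit 0x7466f54) (nat_lit 0x10801a69d892d1a) (nat_lit 0x0)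
  (PL.C (nat_lit 0x7470d4f) (nat_lit 0xd382c4dbe50af46) (nat_lit 0x0)
  (PL.C (nat_lit 0x7478afe) (nat_lit 0x1c3654460141934) (nat_lit 0x0)
  (PL.C (nat_lit 0x74b34df) (nat_lit 0x0) (nat_lit 0x220eb0da69a2e8)
  (PL.C (nat_lit 0x74c5a22) (nat_lit 0x0) (nat_lit 0x1801e2570ab9eb7)
  (PL.C (nat_lit 0x74cdf99) (nat_lit 0x0) (nat_lit 0x2d1751f17d904)
  (PL.C (nat_lit 0x751ccda) (nat_lit 0x7d55aa51880bf) (nat_lit 0x0)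
  (PL.C (nat_lit 0x75275ec) (nat_lit 0x0) (nat_lit 0x4f44cd1bba290)
  (PL.C (nat_lit 0x752857b) (nat_lit 0x0) (nat_lit 0x7eef8237d9888e)
  (PL.C (nat_lit 0x75716f9) (nat_lit 0xca728c80fdd80dc) (nat_lit 0x0)
  (PL.C (nat_lit 0x75a1ad9) (nat_lit 0x8b0cbe13af23b5) (nat_lit 0x0)
  (PL.C (nat_lit 0x75ae25e) (nat_lit 0x13d1c7e1888243e) (nat_lit 0x0) gp1_1_111))))))))))))))))))))

noncomputable def gp1_1_109 : PL :=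
  (PL.C (nat_lit 0x7086dab) (nat_lit 0x0) (nat_lit 0xf49bc70e3de679)
  (PL.C (nat_lit 0x70a0682) (nat_lit 0x0) (nat_lit 0x11d2ed821d31e83)
  (PL.C (nat_lit 0x70c717b) (nat_lit 0x13c619b1ccbf1c) (nat_lit 0x0)
  (PL.C (nat_lit 0x70d99b5) (nat_lit 0x3eeaafc93d73fd) (nat_lit 0x0)
  (PL.C (nat_lit 0x70e2fcc) (nat_lit 0x0) (nat_lit 0x1c1706335a8aa0)
  (PL.C (nat_lit 0x70ece4f) (nat_lit 0x7fd92fd3514cfd) (nat_lit 0x0)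
  (PL.C (nat_lit 0x70eee7e) (nat_lit 0x0) (nat_lit 0x1077a716f8304e2)
  (PL.C (nat_lit 0x71309c1) (nat_lit 0x0) (nat_lit 0x38f556c2b7615d)
  (PL.C (nat_lit 0x713741c) (nat_lit 0x0) (nat_lit 0x2f37b9121ac8)
  (PL.C (nat_lit 0x7168062) (nat_lit 0x0) (nat_lit 0x60858a8e414871)
  (PL.C (nat_lit 0x72111de) (nat_lit 0xe62797a6645606) (nat_lit 0x0)
  (PL.C (nat_lit 0x7261f0e) (nat_lit 0x0) (nat_lit 0x58fc1ca694dc57)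
  (PL.C (nat_lit 0x729de57) (nat_lit 0x3a06b639e96311) (nat_lit 0x0)
  (PL.C (nat_lit 0x72b8f07) (nat_lit 0xaa3833e50caab7c) (nat_lit 0x0)
  (PL.C (nat_lit 0x72f87ab) (nat_lit 0x1a1fe715e63012) (nat_lit 0x0)
  (PL.C (nat_lit 0x730c756) (nat_lit 0x444274f35a14765) (nat_lit 0x0)
  (PL.C (nat_lit 0x732233d) (nat_lit 0x36ef08277278ca) (nat_lit 0x0)
  (PL.C (nat_lit 0x7323056) (nat_lit 0x0) (nat_lit 0x5f1a740dd5ebaa0)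
  (PL.C (nat_lit 0x7327b4b) (nat_lit 0x2c7295cea23d) (nat_lit 0x0)
  (PL.C (nat_lit 0x7332055) (nat_lit 0x1e4da54be48cd2c) (nat_lit 0x0) gp1_1_110))))))))))))))))))))

noncomputable def gp1_1_108 : PL :=
  (PL.C (nat_lit 0x6ce6dbd) (nat_lit 0x0) (nat_lit 0x9b9765f5afce58)
  (PL.C (nat_lit 0x6cff3b7) (nat_lit 0x177fb43f1199b6) (nat_lit 0x0)
  (PL.C (nat_lit 0x6d0f27a) (nat_lit 0xd3f26ccb9f2ee6) (nat_lit 0x0)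
  (PL.C (nat_lit 0x6d3e1aa) (nat_lit 0x0) (nat_lit 0x51d2a2b4f199ab)
  (PL.C (nat_lit 0x6db6e01) (nat_lit 0x0) (nat_lit 0xa2afcf2ddc565)
  (PL.C (nat_lit 0x6dbc34e) (nat_lit 0x0) (nat_lit 0xb8d0e06b911ef6)
  (PL.C (nat_lit 0x6de63da) (nat_lit 0x0) (nat_lit 0x8d10158385602b)
  (PL.C (nat_lit 0x6dfba4e) (nat_lit 0xb825a3fb556d7a) (nat_lit 0x0)
  (PL.C (nat_lit 0x6e14407) (nat_lit 0x0) (nat_lit 0x1cb26da5c7e4c3a)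
  (PL.C (nat_lit 0x6e2ed86) (nat_lit 0x0) (nat_lit 0x28442fbd69a386)
  (PL.C (nat_lit 0x6e45834) (nat_lit 0x0) (nat_lit 0x33f214ca4aebd5)
  (PL.C (nat_lit 0x6e52c92) (nat_lit 0x171198dc8ea2715) (nat_lit 0x0)
  (PL.C (nat_lit 0x6eb0b21) (nat_lit 0x4605761c7a55e5) (nat_lit 0x0)
  (PL.C (nat_lit 0x6edbb46) (nat_lit 0x0) (nat_lit 0x18f2a92b1c22bd8)
  (PL.C (nat_lit 0x6f14171) (nat_lit 0x26e67d6effdce4) (nat_lit 0x0)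
  (PL.C (nat_lit 0x6f9f0dc) (nat_lit 0xf0a08396438fcd) (nat_lit 0x0)
  (PL.C (nat_lit 0x700e832) (nat_lit 0x3f2264ff2e25488) (nat_lit 0x0)
  (PL.C (nat_lit 0x70394c7) (nat_lit 0x1a3d80174611eb) (nat_lit 0x0)
  (PL.C (nat_lit 0x704ea55) (nat_lit 0x0) (nat_lit 0x5af38bf8d3ad988)
  (PL.C (nat_lit 0x7062a1e) (nat_lit 0x3140eb023a54a) (nat_lit 0x0) gp1_1_109))))))))))))))))))))

noncomputable def gp1_1_107 : PL :=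
  (PL.C (nat_lit 0x6a10586) (nat_lit 0x146d84a187902c) (nat_lit 0x0)
  (PL.C (nat_lit 0x6a11d5f) (nat_lit 0x5eb183f3c4588c1) (nat_lit 0x0)
  (PL.C (nat_lit 0x6a3d67f) (nat_lit 0x45becd6e0b8c303) (nat_lit 0x0)
  (PL.C (nat_lit 0x6a55af9) (nat_lit 0x0) (nat_lit 0x3e79103f602944)
  (PL.C (nat_lit 0x6a61043) (nat_lit 0x0) (nat_lit 0x1787c8d597b4872)
  (PL.C (nat_lit 0x6a9bef7) (nat_lit 0x0) (nat_lit 0xd67533c32dfc0)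
  (PL.C (nat_lit 0x6af8d12) (nat_lit 0x0) (nat_lit 0x85151a8de948542)
  (PL.C (nat_lit 0x6b2c3b5) (nat_lit 0x0) (nat_lit 0x7d6339d40dcced)
  (PL.C (nat_lit 0x6b58415) (nat_lit 0x3a5af8e0b30e0a) (nat_lit 0x0)
  (PL.C (nat_lit 0x6b744c6) (nat_lit 0x0) (nat_lit 0x8bf082cbbf9d40e)
  (PL.C (nat_lit 0x6b7d602) (nat_lit 0x0) (nat_lit 0x2e95dfc79e4fc6)
  (PL.C (nat_lit 0x6ba167a) (nat_lit 0x0) (nat_lit 0x3d1a280f4647aa)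
  (PL.C (nat_lit 0x6be48de) (nat_lit 0x0) (nat_lit 0x312246486d275ac)
  (PL.C (nat_lit 0x6bf8eab) (nat_lit 0x0) (nat_lit 0x1f13fb31ce41444)
  (PL.C (nat_lit 0x6c00336) (nat_lit 0x46d47378a513dc) (nat_lit 0x0)
  (PL.C (nat_lit 0x6c3afdc) (nat_lit 0x37475e4b723885) (nat_lit 0x0)
  (PL.C (nat_lit 0x6c54d6f) (nat_lit 0x0) (nat_lit 0x24098cd002024c1)
  (PL.C (nat_lit 0x6c758d9) (nat_lit 0x0) (nat_lit 0x286d37e4d78c91a)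
  (PL.C (nat_lit 0x6c9f193) (nat_lit 0x0) (nat_lit 0x146ac160cd41443)
  (PL.C (nat_lit 0x6cc7287) (nat_lit 0x0) (nat_lit 0x2339ee32c0249) gp1_1_108))))))))))))))))))))

noncomputable def gp1_1_106 : PL :=
  (PL.C (nat_lit 0x6830a46) (nat_lit 0x0) (nat_lit 0xb5d25589ce490d2)
  (PL.C (nat_lit 0x6857cf7) (nat_lit 0x0) (nat_lit 0xc80db53095b908)
  (PL.C (nat_lit 0x6868444) (nat_lit 0x0) (nat_lit 0x30f13be97fb634)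
  (PL.C (nat_lit 0x688b434) (nat_lit 0x75bbc1624d3810) (nat_lit 0x0)
  (PL.C (nat_lit 0x6893607) (nat_lit 0x0) (nat_lit 0x1785b0c278e7c5)
  (PL.C (nat_lit 0x68b0a4b) (nat_lit 0x69293327d2fae0) (nat_lit 0x0)
  (PL.C (nat_lit 0x68b84b6) (nat_lit 0xc7990e586a0d08) (nat_lit 0x0)
  (PL.C (nat_lit 0x68d041d) (nat_lit 0x0) (nat_lit 0xa0fc3e8da4bc9c)
  (PL.C (nat_lit 0x68ecb4a) (nat_lit 0x0) (nat_lit 0xb39f1a0b302f46)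
  (PL.C (nat_lit 0x68f867f) (nat_lit 0x1f2ec34e420fb3) (nat_lit 0x0)
  (PL.C (nat_lit 0x68fcdbe) (nat_lit 0x9fb9422bfa1cb9) (nat_lit 0x0)
  (PL.C (nat_lit 0x69289aa) (nat_lit 0x11fe706524f927) (nat_lit 0x0)
  (PL.C (nat_lit 0x69312d2) (nat_lit 0x3bdb234fe045ad0) (nat_lit 0x0)
  (PL.C (nat_lit 0x693dc11) (nat_lit 0x95609b39a2f32d) (nat_lit 0x0)
  (PL.C (nat_lit 0x6959786) (nat_lit 0x0) (nat_lit 0x9590704705fadc)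
  (PL.C (nat_lit 0x6964b22) (nat_lit 0x0) (nat_lit 0x4a5109d79f5f98)
  (PL.C (nat_lit 0x6965d2e) (nat_lit 0x0) (nat_lit 0x3140e4dfc79c1a1)
  (PL.C (nat_lit 0x697a49f) (nat_lit 0x0) (nat_lit 0xe0bdc8cde732)
  (PL.C (nat_lit 0x699f11a) (nat_lit 0xb7f5869fee0f0f) (nat_lit 0x0)
  (PL.C (nat_lit 0x69d3ee6) (nat_lit 0x0) (nat_lit 0x3a983c3a8d0d3) gp1_1_107))))))))))))))))))))

noncomputable def gp1_1_105 : PL :=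
  (PL.C (nat_lit 0x64f666c) (nat_lit 0x144613e44dd782) (nat_lit 0x0)
  (PL.C (nat_lit 0x652016d) (nat_lit 0x0) (nat_lit 0x1bbece5ed7ac63)
  (PL.C (nat_lit 0x65641b2) (nat_lit 0x0) (nat_lit 0x1f57eaed69d615c)
  (PL.C (nat_lit 0x65756f6) (nat_lit 0x0) (nat_lit 0x158470ce5de007f)
  (PL.C (nat_lit 0x65e05a5) (nat_lit 0x1b71108c988cd0) (nat_lit 0x0)
  (PL.C (nat_lit 0x669201b) (nat_lit 0x2f44f13244c36f9) (nat_lit 0x0)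
  (PL.C (nat_lit 0x66a3d85) (nat_lit 0x0) (nat_lit 0xb1037943323af)
  (PL.C (nat_lit 0x66cbb9e) (nat_lit 0x0) (nat_lit 0x1e811dfe9acfa2f)
  (PL.C (nat_lit 0x66cd9ef) (nat_lit 0x0) (nat_lit 0x6e01acacd3fb71)
  (PL.C (nat_lit 0x66d011f) (nat_lit 0x27ef94baec280ce) (nat_lit 0x0)
  (PL.C (nat_lit 0x66d8c15) (nat_lit 0x0) (nat_lit 0xbaeb48987171c)
  (PL.C (nat_lit 0x671a537) (nat_lit 0x0) (nat_lit 0xd7a705702f006)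
  (PL.C (nat_lit 0x672cae6) (nat_lit 0x12290851b61cc56) (nat_lit 0x0)
  (PL.C (nat_lit 0x6741d1d) (nat_lit 0x0) (nat_lit 0x2bcecb239032de)
  (PL.C (nat_lit 0x676051a) (nat_lit 0x751858520cd5a) (nat_lit 0x0)
  (PL.C (nat_lit 0x6786093) (nat_lit 0x49e483284c6cb) (nat_lit 0x0)
  (PL.C (nat_lit 0x679cca1) (nat_lit 0x28a28b7eb7aa9c0) (nat_lit 0x0)
  (PL.C (nat_lit 0x67c6eca) (nat_lit 0x675b7cecad9b48) (nat_lit 0x0)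
  (PL.C (nat_lit 0x68012a3) (nat_lit 0x2f40e9f18ce490) (nat_lit 0x0)
  (PL.C (nat_lit 0x6823b09) (nat_lit 0x31f2b20a667376) (nat_lit 0x0) gp1_1_106))))))))))))))))))))

noncomputable def gp1_1_104 : PL :=
  (PL.C (nat_lit 0x628369b) (nat_lit 0x3eb6bb5e0fe917) (nat_lit 0x0)
  (PL.C (nat_lit 0x6292e2a) (nat_lit 0x0) (nat_lit 0x18eb14038195ffe)
  (PL.C (nat_lit 0x62a46ef) (nat_lit 0x0) (nat_lit 0x9d7069cc1de4ff)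
  (PL.C (nat_lit 0x62b8a4e) (nat_lit 0x75bc4d334cc691) (nat_lit 0x0)
  (PL.C (nat_lit 0x62f9dd2) (nat_lit 0x893708d7cdace) (nat_lit 0x0)
  (PL.C (nat_lit 0x631f627) (nat_lit 0xb2c6be19f0822d) (nat_lit 0x0)
  (PL.C (nat_lit 0x6323e9d) (nat_lit 0x12f78154cd52bce) (nat_lit 0x0)
  (PL.C (nat_lit 0x633131a) (nat_lit 0x110e2e57e9aa5ae) (nat_lit 0x0)
  (PL.C (nat_lit 0x6341a96) (nat_lit 0x30eb5eebaf155b) (nat_lit 0x0)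
  (PL.C (nat_lit 0x636453a) (nat_lit 0x339e3653b75a64b) (nat_lit 0x0)
  (PL.C (nat_lit 0x637356a) (nat_lit 0x698b2ed8209497) (nat_lit 0x0)
  (PL.C (nat_lit 0x63a3b1e) (nat_lit 0x1663eea9ff55a42) (nat_lit 0x0)
  (PL.C (nat_lit 0x63ac1ca) (nat_lit 0x0) (nat_lit 0x188810f9f27c98)
  (PL.C (nat_lit 0x63c9dca) (nat_lit 0x3568af763c56f0e) (nat_lit 0x0)
  (PL.C (nat_lit 0x640bc96) (nat_lit 0x0) (nat_lit 0x3887abdfe62b)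
  (PL.C (nat_lit 0x64364a7) (nat_lit 0x6beb60ffc902906) (nat_lit 0x0)
  (PL.C (nat_lit 0x6462092) (nat_lit 0x0) (nat_lit 0x770897158dd7fe)
  (PL.C (nat_lit 0x648b452) (nat_lit 0x2980ec22098631) (nat_lit 0x0)
  (PL.C (nat_lit 0x64acf8a) (nat_lit 0x0) (nat_lit 0x10b8a380462112e)
  (PL.C (nat_lit 0x64d8563) (nat_lit 0x1b1818d993a6f5b) (nat_lit 0x0) gp1_1_105))))))))))))))))))))

noncomputable def gp1_1_103 : PL :=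
  (PL.C (nat_lit 0x6068fec) (nat_lit 0x2f406d20bb48f7) (nat_lit 0x0)
  (PL.C (nat_lit 0x60aee2e) (nat_lit 0x1417b2b48efff47) (nat_lit 0x0)
  (PL.C (nat_lit 0x60c2198) (nat_lit 0x0) (nat_lit 0x68af59ddaab4)
  (PL.C (nat_lit 0x60d7f63) (nat_lit 0x2352e4de93233b0) (nat_lit 0x0)
  (PL.C (nat_lit 0x6102ecd) (nat_lit 0xa11c67753fb565) (nat_lit 0x0)
  (PL.C (nat_lit 0x610d997) (nat_lit 0xe6799a3dc96c51) (nat_lit 0x0)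
  (PL.C (nat_lit 0x6113817) (nat_lit 0x2ac0a74e943dcd) (nat_lit 0x0)
  (PL.C (nat_lit 0x613182e) (nat_lit 0x0) (nat_lit 0x5f21bed83c8a19)
  (PL.C (nat_lit 0x614b332) (nat_lit 0x0) (nat_lit 0x1af7d8d26ab501)
  (PL.C (nat_lit 0x614db79) (nat_lit 0x0) (nat_lit 0x34da1cb77fd189)
  (PL.C (nat_lit 0x61b00de) (nat_lit 0x0) (nat_lit 0x136580efa2d09)
  (PL.C (nat_lit 0x61ba76a) (nat_lit 0x0) (nat_lit 0x801543eb870c28)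
  (PL.C (nat_lit 0x61bb826) (nat_lit 0x0) (nat_lit 0xa2a43f00097a16)
  (PL.C (nat_lit 0x61e0f22) (nat_lit 0x1113121508d739b) (nat_lit 0x0)
  (PL.C (nat_lit 0x620eb6e) (nat_lit 0x213c91fe090c97f) (nat_lit 0x0)
  (PL.C (nat_lit 0x621a335) (nat_lit 0x530f6739d830824) (nat_lit 0x0)
  (PL.C (nat_lit 0x62219be) (nat_lit 0x125593517edc934) (nat_lit 0x0)
  (PL.C (nat_lit 0x624b4cb) (nat_lit 0x4cd1165eea595f) (nat_lit 0x0)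
  (PL.C (nat_lit 0x625431e) (nat_lit 0x698b2ed8209497) (nat_lit 0x0)
  (PL.C (nat_lit 0x627c95e) (nat_lit 0x0) (nat_lit 0x43469978e0193) gp1_1_104))))))))))))))))))))

noncomputable def gp1_1_102 : PL :=
  (PL.C (nat_lit 0x5e85666) (nat_lit 0x11e1c3ade13aaef) (nat_lit 0x0)
  (PL.C (nat_lit 0x5e9ab54) (nat_lit 0x0) (nat_lit 0xfb02028341f37d)
  (PL.C (nat_lit 0x5eb7fd6) (nat_lit 0x1465337d7fb00d) (nat_lit 0x0)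
  (PL.C (nat_lit 0x5ece069) (nat_lit 0x45ae06b1e3aa3b) (nat_lit 0x0)
  (PL.C (nat_lit 0x5efd797) (nat_lit 0x20d2ca401155d8) (nat_lit 0x0)
  (PL.C (nat_lit 0x5f07e9c) (nat_lit 0x3657696ee02cdc) (nat_lit 0x0)
  (PL.C (nat_lit 0x5f0ca87) (nat_lit 0x8f8cab02a398f8) (nat_lit 0x0)
  (PL.C (nat_lit 0x5f25b0a) (nat_lit 0x0) (nat_lit 0xac5290d3a40db7)
  (PL.C (nat_lit 0x5f279d9) (nat_lit 0x0) (nat_lit 0x2971ec58435472)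
  (PL.C (nat_lit 0x5f43549) (nat_lit 0x0) (nat_lit 0x4f22760f879d4a)
  (PL.C (nat_lit 0x5f4b3fc) (nat_lit 0x0) (nat_lit 0x2bd17bf7fd5337)
  (PL.C (nat_lit 0x5f539cb) (nat_lit 0x8f76a23ef78526) (nat_lit 0x0)
  (PL.C (nat_lit 0x5f554f6) (nat_lit 0x0) (nat_lit 0x10b82417fe9b20e)
  (PL.C (nat_lit 0x5f6b30c) (nat_lit 0x5352aca3e12683) (nat_lit 0x0)
  (PL.C (nat_lit 0x5f944aa) (nat_lit 0x3d0c2c46b10cd71) (nat_lit 0x0)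
  (PL.C (nat_lit 0x5fa2134) (nat_lit 0x0) (nat_lit 0x3c47ef5b0c81bd)
  (PL.C (nat_lit 0x5fdba42) (nat_lit 0x9185c736a1518c) (nat_lit 0x0)
  (PL.C (nat_lit 0x600d0e2) (nat_lit 0x1d7ec247e7d909) (nat_lit 0x0)
  (PL.C (nat_lit 0x60189dd) (nat_lit 0x512fd84e0c9c721) (nat_lit 0x0)
  (PL.C (nat_lit 0x6052fb4) (nat_lit 0x0) (nat_lit 0x6c6acac0553516) gp1_1_103))))))))))))))))))))

noncomputable def gp1_1_101 : PL :=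
  (PL.C (nat_lit 0x5c5e2fc) (nat_lit 0x34d89e8a5fea38) (nat_lit 0x0)
  (PL.C (nat_lit 0x5c8642a) (nat_lit 0xa100a3af0fe72) (nat_lit 0x0)
  (PL.C (nat_lit 0x5c87fb2) (nat_lit 0x4f31110dfd36ee) (nat_lit 0x0)
  (PL.C (nat_lit 0x5cd7c06) (nat_lit 0x73030dc196b99) (nat_lit 0x0)
  (PL.C (nat_lit 0x5cd8f79) (nat_lit 0x0) (nat_lit 0x102d71c99ab544)
  (PL.C (nat_lit 0x5cec863) (nat_lit 0x642545f68e45952) (nat_lit 0x0)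
  (PL.C (nat_lit 0x5d2563c) (nat_lit 0xf2fe3e3d3e70d) (nat_lit 0x0)
  (PL.C (nat_lit 0x5d354f4) (nat_lit 0x40dbcb7a42796e7) (nat_lit 0x0)
  (PL.C (nat_lit 0x5d41e9b) (nat_lit 0x1b00d019d287a9) (nat_lit 0x0)
  (PL.C (nat_lit 0x5d5d756) (nat_lit 0x0) (nat_lit 0x5349fb8d941254)
  (PL.C (nat_lit 0x5d70965) (nat_lit 0x230cd6a3a19f29) (nat_lit 0x0)
  (PL.C (nat_lit 0x5d82c8f) (nat_lit 0x19208d332cb6fd) (nat_lit 0x0)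
  (PL.C (nat_lit 0x5d9e095) (nat_lit 0x0) (nat_lit 0x741352d1da1d7d)
  (PL.C (nat_lit 0x5d9ea9c) (nat_lit 0x0) (nat_lit 0x3f037980d1f7b8)
  (PL.C (nat_lit 0x5deeba5) (nat_lit 0x0) (nat_lit 0x6452124850868f)
  (PL.C (nat_lit 0x5e0463a) (nat_lit 0x1dd3ce301e2d288) (nat_lit 0x0)
  (PL.C (nat_lit 0x5e12b57) (nat_lit 0xcd1121ab2334d8) (nat_lit 0x0)
  (PL.C (nat_lit 0x5e41ca9) (nat_lit 0x61e9aadc7efe1c) (nat_lit 0x0)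
  (PL.C (nat_lit 0x5e50db9) (nat_lit 0xc352c3169d08cc) (nat_lit 0x0)
  (PL.C (nat_lit 0x5e77999) (nat_lit 0x207b7ffe3a7b41) (nat_lit 0x0) gp1_1_102))))))))))))))))))))

noncomputable def gp1_1_100 : PL :=
  (PL.C (nat_lit 0x59ab336) (nat_lit 0x5cdf26dc2ccad7f) (nat_lit 0x0)
  (PL.C (nat_lit 0x59cce8f) (nat_lit 0x334425e514b015f) (nat_lit 0x0)
  (PL.C (nat_lit 0x59f73d4) (nat_lit 0x19f3d0c632cb3c) (nat_lit 0x0)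
  (PL.C (nat_lit 0x5a1ff26) (nat_lit 0x49605be7b2228) (nat_lit 0x0)
  (PL.C (nat_lit 0x5a27d9e) (nat_lit 0xa75ab7455bbbc0) (nat_lit 0x0)
  (PL.C (nat_lit 0x5a4d0da) (nat_lit 0x0) (nat_lit 0xa6758d160f7b04a)
  (PL.C (nat_lit 0x5a78749) (nat_lit 0x148263427fbe29f) (nat_lit 0x0)
  (PL.C (nat_lit 0x5a81e01) (nat_lit 0xb2bdd07e2549e9c) (nat_lit 0x0)
  (PL.C (nat_lit 0x5a95496) (nat_lit 0x0) (nat_lit 0x51274c298bc88)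
  (PL.C (nat_lit 0x5aac7e7) (nat_lit 0x0) (nat_lit 0x3fbf32877408b)
  (PL.C (nat_lit 0x5adb5e2) (nat_lit 0xc572fdd5552473) (nat_lit 0x0)
  (PL.C (nat_lit 0x5af168a) (nat_lit 0x0) (nat_lit 0xb03b2e8f4bfa9e)
  (PL.C (nat_lit 0x5af7b69) (nat_lit 0xf39a74099bea06) (nat_lit 0x0)
  (PL.C (nat_lit 0x5b140d6) (nat_lit 0x0) (nat_lit 0x32f5ddf6393dec9)
  (PL.C (nat_lit 0x5b2d7d6) (nat_lit 0x0) (nat_lit 0x1ef89ec8fd339e)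
  (PL.C (nat_lit 0x5b5d04c) (nat_lit 0xbdcdfe74e7615) (nat_lit 0x0)
  (PL.C (nat_lit 0x5b72d6b) (nat_lit 0x56430f719003524) (nat_lit 0x0)
  (PL.C (nat_lit 0x5c02ad3) (nat_lit 0x0) (nat_lit 0x4d7e359e26dbc7)
  (PL.C (nat_lit 0x5c101e2) (nat_lit 0x0) (nat_lit 0xb0bb49d0a12713)
  (PL.C (nat_lit 0x5c21847) (nat_lit 0x688272251b5857) (nat_lit 0x0) gp1_1_101))))))))))))))))))))

noncomputable def gp1_1_99 : PL :=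
  (PL.C (nat_lit 0x573b3d3) (nat_lit 0x0) (nat_lit 0xab87cfff1b30cf)
  (PL.C (nat_lit 0x57770e5) (nat_lit 0x0) (nat_lit 0x78bc12d1504e5e7)
  (PL.C (nat_lit 0x57e8eed) (nat_lit 0x10cafb7cc94cbf7) (nat_lit 0x0)
  (PL.C (nat_lit 0x57f3dde) (nat_lit 0x0) (nat_lit 0x43897a17fd468c4)
  (PL.C (nat_lit 0x57fead4) (nat_lit 0x0) (nat_lit 0x4ff4ed974b9870)
  (PL.C (nat_lit 0x583c01d) (nat_lit 0x344ffe067f052b) (nat_lit 0x0)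
  (PL.C (nat_lit 0x5855b4d) (nat_lit 0x0) (nat_lit 0x31cf7fa10b2aba)
  (PL.C (nat_lit 0x585feb7) (nat_lit 0xea8a5421cfe01c1) (nat_lit 0x0)
  (PL.C (nat_lit 0x586660e) (nat_lit 0x0) (nat_lit 0x8ecf5c71cd3f20)
  (PL.C (nat_lit 0x58929f2) (nat_lit 0x0) (nat_lit 0x944e7776bbc226)
  (PL.C (nat_lit 0x5899212) (nat_lit 0x9ecbf0634fcaa) (nat_lit 0x0)
  (PL.C (nat_lit 0x58a1dbf) (nat_lit 0x0) (nat_lit 0x1b67ff5874998c)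
  (PL.C (nat_lit 0x58b1a36) (nat_lit 0xa71e68ed68c1e8) (nat_lit 0x0)
  (PL.C (nat_lit 0x58c3cf5) (nat_lit 0x0) (nat_lit 0x43733286233888)
  (PL.C (nat_lit 0x58fe73b) (nat_lit 0x0) (nat_lit 0x296b302411d02a)
  (PL.C (nat_lit 0x5910c2a) (nat_lit 0x76073e6ab20cff) (nat_lit 0x0)
  (PL.C (nat_lit 0x591b7b1) (nat_lit 0x0) (nat_lit 0x8d5cedaf6e16d8)
  (PL.C (nat_lit 0x5929302) (nat_lit 0x0) (nat_lit 0x2e51f3c9d36c05b)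
  (PL.C (nat_lit 0x5955cfe) (nat_lit 0x0) (nat_lit 0x797a17656e6240)
  (PL.C (nat_lit 0x598a11b) (nat_lit 0x3a0e433418fefbf) (nat_lit 0x0) gp1_1_100))))))))))))))))))))

noncomputable def gp1_1_98 : PL :=
  (PL.C (nat_lit 0x54f67d1) (nat_lit 0x11a0419cd72c83c) (nat_lit 0x0)
  (PL.C (nat_lit 0x55039ad) (nat_lit 0xef5f760704c0c0) (nat_lit 0x0)
  (PL.C (nat_lit 0x5515ac2) (nat_lit 0x500bb14e0456a7) (nat_lit 0x0)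
  (PL.C (nat_lit 0x552102f) (nat_lit 0x3498eac26a8a7a2) (nat_lit 0x0)
  (PL.C (nat_lit 0x55453ca) (nat_lit 0x0) (nat_lit 0x3ad677c339ca861)
  (PL.C (nat_lit 0x554afd4) (nat_lit 0x2dbfee4afa0e73) (nat_lit 0x0)
  (PL.C (nat_lit 0x55519bf) (nat_lit 0x1de7f441271f12) (nat_lit 0x0)
  (PL.C (nat_lit 0x555e12a) (nat_lit 0x2bed26e65283eac) (nat_lit 0x0)
  (PL.C (nat_lit 0x5572b24) (nat_lit 0x4995f0dc0a1990) (nat_lit 0x0)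
  (PL.C (nat_lit 0x5596ffa) (nat_lit 0x1a6461639e60214) (nat_lit 0x0)
  (PL.C (nat_lit 0x55a676c) (nat_lit 0x0) (nat_lit 0x7c159cafac9f1)
  (PL.C (nat_lit 0x55a7aae) (nat_lit 0x0) (nat_lit 0x3bda6255f27ba22)
  (PL.C (nat_lit 0x55f4d2c) (nat_lit 0x0) (nat_lit 0xc35eb7730f9238)
  (PL.C (nat_lit 0x5601266) (nat_lit 0x0) (nat_lit 0x133ff016b39d524)
  (PL.C (nat_lit 0x561cb55) (nat_lit 0x0) (nat_lit 0x2c35186f000d8d)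
  (PL.C (nat_lit 0x56247a6) (nat_lit 0x92e28a7a0d620d) (nat_lit 0x0)
  (PL.C (nat_lit 0x56ca3db) (nat_lit 0x31feca1e0e3b768) (nat_lit 0x0)
  (PL.C (nat_lit 0x56d1929) (nat_lit 0x107717c5eb4f389) (nat_lit 0x0)
  (PL.C (nat_lit 0x56eeac5) (nat_lit 0x0) (nat_lit 0x33abac6c894336)
  (PL.C (nat_lit 0x5727eb4) (nat_lit 0x25e1ed1b540a71) (nat_lit 0x0) gp1_1_99))))))))))))))))))))

noncomputable def gp1_1_97 : PL :=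
  (PL.C (nat_lit 0x52c69a6) (nat_lit 0x0) (nat_lit 0xb842c9981959b5)
  (PL.C (nat_lit 0x52d04c9) (nat_lit 0x52cfa1c5e8f2457) (nat_lit 0x0)
  (PL.C (nat_lit 0x5301416) (nat_lit 0x0) (nat_lit 0xf7301305da33a)
  (PL.C (nat_lit 0x5307027) (nat_lit 0x19120aa45257a72) (nat_lit 0x0)
  (PL.C (nat_lit 0x531d13e) (nat_lit 0x146a3bf36257ba2) (nat_lit 0x0)
  (PL.C (nat_lit 0x53396c7) (nat_lit 0x0) (nat_lit 0x3be8f41863d010)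
  (PL.C (nat_lit 0x5363139) (nat_lit 0x0) (nat_lit 0xb05b53d41e9bf)
  (PL.C (nat_lit 0x53bbd02) (nat_lit 0x0) (nat_lit 0x10afcef4f4ad3fa)
  (PL.C (nat_lit 0x53c9b6e) (nat_lit 0x0) (nat_lit 0x1ba3311e871f9e)
  (PL.C (nat_lit 0x53e6fa2) (nat_lit 0x0) (nat_lit 0x5e83558f17dc38f)
  (PL.C (nat_lit 0x53fa26e) (nat_lit 0x0) (nat_lit 0x49e80510d0d796)
  (PL.C (nat_lit 0x540319a) (nat_lit 0xd21ecae23168bd) (nat_lit 0x0)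
  (PL.C (nat_lit 0x542749b) (nat_lit 0x24fff4769ca3c95) (nat_lit 0x0)
  (PL.C (nat_lit 0x5454372) (nat_lit 0x0) (nat_lit 0x33b8e06610a017)
  (PL.C (nat_lit 0x545bc4e) (nat_lit 0xd9b3b3f761655a) (nat_lit 0x0)
  (PL.C (nat_lit 0x547456e) (nat_lit 0x6e83eb7350daa5) (nat_lit 0x0)
  (PL.C (nat_lit 0x5498383) (nat_lit 0x0) (nat_lit 0x9240ba497c1079)
  (PL.C (nat_lit 0x54b7ffc) (nat_lit 0x0) (nat_lit 0x1f32f7e0786f7e)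
  (PL.C (nat_lit 0x54bd25a) (nat_lit 0x0) (nat_lit 0x1565663fbdcfca5)
  (PL.C (nat_lit 0x54e3abc) (nat_lit 0x6fe388e6bbdcfc) (nat_lit 0x0) gp1_1_98))))))))))))))))))))

noncomputable def gp1_1_96 : PL :=
  (PL.C (nat_lit 0x507aebc) (nat_lit 0x0) (nat_lit 0x4917d811537962)
  (PL.C (nat_lit 0x50812ad) (nat_lit 0x0) (nat_lit 0x10140f993f7b88)
  (PL.C (nat_lit 0x50af0d2) (nat_lit 0xe301a4f134657b) (nat_lit 0x0)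
  (PL.C (nat_lit 0x50ca68c) (nat_lit 0x4553b3dc261777) (nat_lit 0x0)
  (PL.C (nat_lit 0x50d25ea) (nat_lit 0x0) (nat_lit 0x5e05c5e3750875)
  (PL.C (nat_lit 0x5114fea) (nat_lit 0x0) (nat_lit 0x3927100ce051db)
  (PL.C (nat_lit 0x511a9d9) (nat_lit 0x0) (nat_lit 0x269fc928421ca4)
  (PL.C (nat_lit 0x511ec11) (nat_lit 0x0) (nat_lit 0x46327abf66762d1)
  (PL.C (nat_lit 0x51302c2) (nat_lit 0x0) (nat_lit 0x195c454801fa8f9)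
  (PL.C (nat_lit 0x5135691) (nat_lit 0x0) (nat_lit 0x5cfdf69ee2f4a3)
  (PL.C (nat_lit 0x515ff84) (nat_lit 0x1b4bced510e67d) (nat_lit 0x0)
  (PL.C (nat_lit 0x516b474) (nat_lit 0x211039229529b8b) (nat_lit 0x0)
  (PL.C (nat_lit 0x518e596) (nat_lit 0x0) (nat_lit 0x79529032f7fb55)
  (PL.C (nat_lit 0x51e48c1) (nat_lit 0x4db2d63988c7a18) (nat_lit 0x0)
  (PL.C (nat_lit 0x51f28b3) (nat_lit 0x0) (nat_lit 0x6d7684623367a0)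
  (PL.C (nat_lit 0x51f8886) (nat_lit 0x0) (nat_lit 0x32a4a1bbb48b14)
  (PL.C (nat_lit 0x52230da) (nat_lit 0x0) (nat_lit 0xc678a7cefb052e)
  (PL.C (nat_lit 0x524213a) (nat_lit 0x0) (nat_lit 0x5f61f560bc479bf)
  (PL.C (nat_lit 0x52677b2) (nat_lit 0x7dcd9400e0c97c) (nat_lit 0x0)
  (PL.C (nat_lit 0x52ad2ca) (nat_lit 0x148471c4814bcc) (nat_lit 0x0) gp1_1_97))))))))))))))))))))

noncomputable def gp1_1_95 : PL :=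
  (PL.C (nat_lit 0x4e1333c) (nat_lit 0x0) (nat_lit 0x6b624dd5a5cd0)
  (PL.C (nat_lit 0x4e1ae52) (nat_lit 0x0) (nat_lit 0x19b48bc97f1f1e)
  (PL.C (nat_lit 0x4e74194) (nat_lit 0x97a7643967acbe) (nat_lit 0x0)
  (PL.C (nat_lit 0x4e809af) (nat_lit 0x0) (nat_lit 0x79c4ae7ffa7f150)
  (PL.C (nat_lit 0x4ea7e51) (nat_lit 0x0) (nat_lit 0x5a8636638e720a)
  (PL.C (nat_lit 0x4ed4cc1) (nat_lit 0x1b52adf932adaf) (nat_lit 0x0)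
  (PL.C (nat_lit 0x4ef010b) (nat_lit 0x1607bca559f12b1) (nat_lit 0x0)
  (PL.C (nat_lit 0x4f3344f) (nat_lit 0x2f04654866e71) (nat_lit 0x0)
  (PL.C (nat_lit 0x4f4b2f9) (nat_lit 0x0) (nat_lit 0xeb3989ffdd7575)
  (PL.C (nat_lit 0x4f698f3) (nat_lit 0xa78a0cc5c4ae5) (nat_lit 0x0)
  (PL.C (nat_lit 0x4f8b5a2) (nat_lit 0x0) (nat_lit 0x5037860d3fb84c6)
  (PL.C (nat_lit 0x4f9e05d) (nat_lit 0x12803dffac13392) (nat_lit 0x0)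
  (PL.C (nat_lit 0x4fc237e) (nat_lit 0x0) (nat_lit 0x24a4bd36375311)
  (PL.C (nat_lit 0x4fe1c8b) (nat_lit 0x3382f6e83908e08) (nat_lit 0x0)
  (PL.C (nat_lit 0x502b303) (nat_lit 0x22648941da53dd) (nat_lit 0x0)
  (PL.C (nat_lit 0x5030ca5) (nat_lit 0x5660528ed9a43f8) (nat_lit 0x0)
  (PL.C (nat_lit 0x503c8e3) (nat_lit 0x0) (nat_lit 0x4526361d8eea64)
  (PL.C (nat_lit 0x505066c) (nat_lit 0x56fd5803ab5dbf) (nat_lit 0x0)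
  (PL.C (nat_lit 0x50534fd) (nat_lit 0x0) (nat_lit 0x3f4001c52c3fb5)
  (PL.C (nat_lit 0x507a5e7) (nat_lit 0x0) (nat_lit 0x248e7267d087a3) gp1_1_96))))))))))))))))))))

noncomputable def gp1_1_94 : PL :=
  (PL.C (nat_lit 0x4cc7f8b) (nat_lit 0x78aefba5627839) (nat_lit 0x0)
  (PL.C (nat_lit 0x4cdedea) (nat_lit 0x1e15b710facb3bb) (nat_lit 0x0)
  (PL.C (nat_lit 0x4cf7dae) (nat_lit 0x4d7fe15eba057e) (nat_lit 0x0)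
  (PL.C (nat_lit 0x4cfffb3) (nat_lit 0xa2664a342c5c97) (nat_lit 0x0)
  (PL.C (nat_lit 0x4d11a76) (nat_lit 0xe3cd0325647fa6) (nat_lit 0x0)
  (PL.C (nat_lit 0x4d1455c) (nat_lit 0xe093a8dbf7db10) (nat_lit 0x0)
  (PL.C (nat_lit 0x4d2684d) (nat_lit 0x0) (nat_lit 0x9330ff1)
  (PL.C (nat_lit 0x4d2bf03) (nat_lit 0x0) (nat_lit 0x2b1eda1164fd2c)
  (PL.C (nat_lit 0x4d2eff4) (nat_lit 0x0) (nat_lit 0xcc9f92ff8a6345)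
  (PL.C (nat_lit 0x4d32657) (nat_lit 0x0) (nat_lit 0x9389f589f351f7f)
  (PL.C (nat_lit 0x4d32d9d) (nat_lit 0x0) (nat_lit 0xb456bf028a2a74)
  (PL.C (nat_lit 0x4d528fd) (nat_lit 0x0) (nat_lit 0x1dc8044550e65f)
  (PL.C (nat_lit 0x4d79c76) (nat_lit 0x0) (nat_lit 0x1199f5530d107a4)
  (PL.C (nat_lit 0x4d8092e) (nat_lit 0x0) (nat_lit 0x33424f7ffccc56)
  (PL.C (nat_lit 0x4d8817c) (nat_lit 0x22307dc984e40e1) (nat_lit 0x0)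
  (PL.C (nat_lit 0x4dc5da3) (nat_lit 0x8e3ad40673593d) (nat_lit 0x0)
  (PL.C (nat_lit 0x4dccdea) (nat_lit 0x1bb983ad42191e) (nat_lit 0x0)
  (PL.C (nat_lit 0x4dd916c) (nat_lit 0x1a73fd60c42fbd) (nat_lit 0x0)
  (PL.C (nat_lit 0x4ddea66) (nat_lit 0x9eebc9f4cb7c96) (nat_lit 0x0)
  (PL.C (nat_lit 0x4dfcf5b) (nat_lit 0x7805897a3166d) (nat_lit 0x0) gp1_1_95))))))))))))))))))))

noncomputable def gp1_1_93 : PL :=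
  (PL.C (nat_lit 0x4ad0dda) (nat_lit 0x2c4129450bddc8) (nat_lit 0x0)
  (PL.C (nat_lit 0x4adf18e) (nat_lit 0x24bc8f7acf77c8f) (nat_lit 0x0)
  (PL.C (nat_lit 0x4afd07b) (nat_lit 0x9ab6001755d2bf) (nat_lit 0x0)
  (PL.C (nat_lit 0x4b159ac) (nat_lit 0x0) (nat_lit 0xea2bd526844909)
  (PL.C (nat_lit 0x4b2f652) (nat_lit 0x0) (nat_lit 0xc2d98dc541140f)
  (PL.C (nat_lit 0x4b3bbce) (nat_lit 0x0) (nat_lit 0x5120c3cabc9163)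
  (PL.C (nat_lit 0x4b4898a) (nat_lit 0x121d69663c17f8b) (nat_lit 0x0)
  (PL.C (nat_lit 0x4b69063) (nat_lit 0x0) (nat_lit 0x8719d83c4f148b)
  (PL.C (nat_lit 0x4b75bd6) (nat_lit 0x0) (nat_lit 0x8d1d03279d7354)
  (PL.C (nat_lit 0x4b95cc7) (nat_lit 0x0) (nat_lit 0xd84cd4c7aec742)
  (PL.C (nat_lit 0x4b9aaec) (nat_lit 0x0) (nat_lit 0x2b37fe7abbdb24)
  (PL.C (nat_lit 0x4befda5) (nat_lit 0x0) (nat_lit 0x3aff45799d2caa)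
  (PL.C (nat_lit 0x4c0b694) (nat_lit 0x0) (nat_lit 0x3f2ce120099bd9)
  (PL.C (nat_lit 0x4c414b4) (nat_lit 0x0) (nat_lit 0x490bf0d7a1f939)
  (PL.C (nat_lit 0x4c66fc5) (nat_lit 0x0) (nat_lit 0x2046a0286054488)
  (PL.C (nat_lit 0x4c6943a) (nat_lit 0xc933a3b812e7b) (nat_lit 0x0)
  (PL.C (nat_lit 0x4c99de9) (nat_lit 0x368407da7236d50) (nat_lit 0x0)
  (PL.C (nat_lit 0x4ca5a72) (nat_lit 0x0) (nat_lit 0x1722edf7c29aaff)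
  (PL.C (nat_lit 0x4cc177e) (nat_lit 0x903daa2ab23ed7) (nat_lit 0x0)
  (PL.C (nat_lit 0x4cc5232) (nat_lit 0x0) (nat_lit 0x4990afb4e5c6b5) gp1_1_94))))))))))))))))))))

noncomputable def gp1_1_92 : PL :=
  (PL.C (nat_lit 0x4884c5a) (nat_lit 0x0) (nat_lit 0x1b7eaa97ef74a2)
  (PL.C (nat_lit 0x4899e7e) (nat_lit 0x0) (nat_lit 0x38ef7ae37f302b2)
  (PL.C (nat_lit 0x48aa27a) (nat_lit 0x0) (nat_lit 0x214312196e85ec)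
  (PL.C (nat_lit 0x48cb08b) (nat_lit 0x5411b6b479c0ee4) (nat_lit 0x0)
  (PL.C (nat_lit 0x48d411c) (nat_lit 0x0) (nat_lit 0x111b46abd188e4)
  (PL.C (nat_lit 0x48ef775) (nat_lit 0x0) (nat_lit 0x42ada0690c3d82d)
  (PL.C (nat_lit 0x49191a5) (nat_lit 0x0) (nat_lit 0x504b3d4fefab8)
  (PL.C (nat_lit 0x4924956) (nat_lit 0x0) (nat_lit 0x1b150b07110a58)
  (PL.C (nat_lit 0x4928234) (nat_lit 0x0) (nat_lit 0x992f5f5a17ba93)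
  (PL.C (nat_lit 0x4943a87) (nat_lit 0x0) (nat_lit 0xc350ba931045172)
  (PL.C (nat_lit 0x495fb8d) (nat_lit 0x0) (nat_lit 0x3fbbf14d0050b6c)
  (PL.C (nat_lit 0x4962699) (nat_lit 0x2cce43ea47229f) (nat_lit 0x0)
  (PL.C (nat_lit 0x4962d5a) (nat_lit 0x0) (nat_lit 0x2ee580697eeafda)
  (PL.C (nat_lit 0x4974904) (nat_lit 0x0) (nat_lit 0x4ef9bb9efd90a9)
  (PL.C (nat_lit 0x4990323) (nat_lit 0x0) (nat_lit 0x3a82fc74bbb82db)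
  (PL.C (nat_lit 0x49cb216) (nat_lit 0xc9c97a40b8cfaa) (nat_lit 0x0)
  (PL.C (nat_lit 0x4a06b6d) (nat_lit 0x0) (nat_lit 0x2b65ca025e7ae7)
  (PL.C (nat_lit 0x4a5bc99) (nat_lit 0x778a185cc7fc38e) (nat_lit 0x0)
  (PL.C (nat_lit 0x4a9a1d3) (nat_lit 0x96388f2bd7ab2a) (nat_lit 0x0)
  (PL.C (nat_lit 0x4abb35d) (nat_lit 0x5a7c3fd920f7f0) (nat_lit 0x0) gp1_1_93))))))))))))))))))))

noncomputable def gp1_1_91 : PL :=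
  (PL.C (nat_lit 0x4709e47) (nat_lit 0x111710e4331eda0d) (nat_lit 0x0)
  (PL.C (nat_lit 0x47129fa) (nat_lit 0x0) (nat_lit 0x11086daa84d0f83)
  (PL.C (nat_lit 0x476661f) (nat_lit 0x8c008232fa1a0d) (nat_lit 0x0)
  (PL.C (nat_lit 0x478a1e1) (nat_lit 0x0) (nat_lit 0xa48be5d00b73a6)
  (PL.C (nat_lit 0x47a8eac) (nat_lit 0x6fe388e6bbdcfc) (nat_lit 0x0)
  (PL.C (nat_lit 0x47b2f51) (nat_lit 0xda10203438a6) (nat_lit 0x0)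
  (PL.C (nat_lit 0x47b8cd5) (nat_lit 0x2ca8d54fef42f38) (nat_lit 0x0)
  (PL.C (nat_lit 0x47c0efc) (nat_lit 0x0) (nat_lit 0x4cfb42469f431e)
  (PL.C (nat_lit 0x47d4467) (nat_lit 0x0) (nat_lit 0x3ed05e10e7bcd2)
  (PL.C (nat_lit 0x47dbedd) (nat_lit 0x0) (nat_lit 0x171ac759ab73a25)
  (PL.C (nat_lit 0x47dcb2b) (nat_lit 0x0) (nat_lit 0x8eb491fed5b84)
  (PL.C (nat_lit 0x47f8399) (nat_lit 0x0) (nat_lit 0x3ff88c0fb1b42b)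
  (PL.C (nat_lit 0x47fb472) (nat_lit 0x0) (nat_lit 0x218f50def68bb27)
  (PL.C (nat_lit 0x4800224) (nat_lit 0x0) (nat_lit 0x98c0e31c57f3dd)
  (PL.C (nat_lit 0x4803ba9) (nat_lit 0x0) (nat_lit 0x4132af262ce256)
  (PL.C (nat_lit 0x481ddcf) (nat_lit 0x0) (nat_lit 0x71b77cc5cef54)
  (PL.C (nat_lit 0x4827c57) (nat_lit 0x227f13b85bdb0c) (nat_lit 0x0)
  (PL.C (nat_lit 0x484e5e6) (nat_lit 0x0) (nat_lit 0xa73404694a5d2c6)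
  (PL.C (nat_lit 0x4850f67) (nat_lit 0x0) (nat_lit 0xb1037943323af)
  (PL.C (nat_lit 0x486cbd3) (nat_lit 0x0) (nat_lit 0x63c94b70c315cb2) gp1_1_92))))))))))))))))))))

noncomputable def gp1_1_90 : PL :=
  (PL.C (nat_lit 0x4521585) (nat_lit 0x0) (nat_lit 0x7c8ecb87b2e45b)
  (PL.C (nat_lit 0x45561c2) (nat_lit 0x20d4b268f00f6bb) (nat_lit 0x0)
  (PL.C (nat_lit 0x456d206) (nat_lit 0x338a1316c639a5e) (nat_lit 0x0)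
  (PL.C (nat_lit 0x458034b) (nat_lit 0xa50216ef169) (nat_lit 0x0)
  (PL.C (nat_lit 0x458fdfa) (nat_lit 0xae541b43b730d2) (nat_lit 0x0)
  (PL.C (nat_lit 0x45b795a) (nat_lit 0x0) (nat_lit 0x5d4e017dcb34bc)
  (PL.C (nat_lit 0x45d0324) (nat_lit 0x0) (nat_lit 0x20ad161b7f4add7)
  (PL.C (nat_lit 0x45e02be) (nat_lit 0x11a1423bfffcd10) (nat_lit 0x0)
  (PL.C (nat_lit 0x4620c8c) (nat_lit 0x101f95fac0fca089) (nat_lit 0x0)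
  (PL.C (nat_lit 0x46292b6) (nat_lit 0x230e203f4862294) (nat_lit 0x0)
  (PL.C (nat_lit 0x465186a) (nat_lit 0x0) (nat_lit 0x6f0f1dd39ab89)
  (PL.C (nat_lit 0x4658a57) (nat_lit 0x13748cf9e00654c) (nat_lit 0x0)
  (PL.C (nat_lit 0x466a0bc) (nat_lit 0x14fb283fd07cbb6) (nat_lit 0x0)
  (PL.C (nat_lit 0x466f82d) (nat_lit 0x10f6c81de14809) (nat_lit 0x0)
  (PL.C (nat_lit 0x467bda9) (nat_lit 0x0) (nat_lit 0x619fbe564544fb)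
  (PL.C (nat_lit 0x46b68ea) (nat_lit 0x0) (nat_lit 0x25bc2e6b887d173)
  (PL.C (nat_lit 0x46d39aa) (nat_lit 0x3a01873cfe577fe) (nat_lit 0x0)
  (PL.C (nat_lit 0x46d8839) (nat_lit 0x1d06d755f4bfd7a) (nat_lit 0x0)
  (PL.C (nat_lit 0x46e3ca6) (nat_lit 0x0) (nat_lit 0x4c26450a950cbf)
  (PL.C (nat_lit 0x46eb582) (nat_lit 0x0) (nat_lit 0x713fef19407f2df) gp1_1_91))))))))))))))))))))

noncomputable def gp1_1_89 : PL :=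
  (PL.C (nat_lit 0x43a18a9) (nat_lit 0x12506b920034678) (nat_lit 0x0)
  (PL.C (nat_lit 0x43acc4f) (nat_lit 0x6407eb774c1a82) (nat_lit 0x0)
  (PL.C (nat_lit 0x43b17f9) (nat_lit 0x66cce30fdd43de2) (nat_lit 0x0)
  (PL.C (nat_lit 0x43c4679) (nat_lit 0x0) (nat_lit 0x26288c35dacb815)
  (PL.C (nat_lit 0x43eae6e) (nat_lit 0x485f936b7024ff) (nat_lit 0x0)
  (PL.C (nat_lit 0x43ef9c3) (nat_lit 0x28caa689189b507) (nat_lit 0x0)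
  (PL.C (nat_lit 0x4409a21) (nat_lit 0x136ed006e6861f6) (nat_lit 0x0)
  (PL.C (nat_lit 0x443694f) (nat_lit 0x1c6041dcd781167) (nat_lit 0x0)
  (PL.C (nat_lit 0x446d3ae) (nat_lit 0x0) (nat_lit 0x7555fc68bb30f)
  (PL.C (nat_lit 0x4471635) (nat_lit 0xe10759b341df4b) (nat_lit 0x0)
  (PL.C (nat_lit 0x4487d14) (nat_lit 0x0) (nat_lit 0x6a5d31905c1b93)
  (PL.C (nat_lit 0x448914a) (nat_lit 0x0) (nat_lit 0xb65557077598d7)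
  (PL.C (nat_lit 0x448ab6a) (nat_lit 0x1fe03b612da349d) (nat_lit 0x0)
  (PL.C (nat_lit 0x449080e) (nat_lit 0x0) (nat_lit 0x5244c7e0b6c444)
  (PL.C (nat_lit 0x44bc37a) (nat_lit 0x0) (nat_lit 0x45e1ddd8f1e9c)
  (PL.C (nat_lit 0x44c8744) (nat_lit 0x907bd2b4e67ca) (nat_lit 0x0)
  (PL.C (nat_lit 0x44d68be) (nat_lit 0x0) (nat_lit 0xa614eeb3363d7a)
  (PL.C (nat_lit 0x44f35dd) (nat_lit 0x0) (nat_lit 0x13f79ce8b6014af)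
  (PL.C (nat_lit 0x4504062) (nat_lit 0x0) (nat_lit 0x2b362a31060cc9)
  (PL.C (nat_lit 0x4513316) (nat_lit 0x790bf8394632632) (nat_lit 0x0) gp1_1_90))))))))))))))))))))

noncomputable def gp1_1_88 : PL :=
  (PL.C (nat_lit 0x41df483) (nat_lit 0x0) (nat_lit 0x1f341dc9a8fa19e)
  (PL.C (nat_lit 0x41eb9ab) (nat_lit 0x1bc67f871597e) (nat_lit 0x0)
  (PL.C (nat_lit 0x41fbe8c) (nat_lit 0x9cdb93c04a5fbf) (nat_lit 0x0)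
  (PL.C (nat_lit 0x4220cbc) (nat_lit 0x0) (nat_lit 0x267c5950eed4d1)
  (PL.C (nat_lit 0x422b521) (nat_lit 0xa025b38da25d32) (nat_lit 0x0)
  (PL.C (nat_lit 0x422bc64) (nat_lit 0x111bcf3556cc67) (nat_lit 0x0)
  (PL.C (nat_lit 0x42350bb) (nat_lit 0x0) (nat_lit 0x5fccd96091a42)
  (PL.C (nat_lit 0x4244aab) (nat_lit 0x14f70490795caed) (nat_lit 0x0)
  (PL.C (nat_lit 0x4265d55) (nat_lit 0x42e4135e3878d2b) (nat_lit 0x0)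
  (PL.C (nat_lit 0x426d214) (nat_lit 0xa178a28363e44f3) (nat_lit 0x0)
  (PL.C (nat_lit 0x4270725) (nat_lit 0x0) (nat_lit 0x5611416d60c941c)
  (PL.C (nat_lit 0x4281789) (nat_lit 0x0) (nat_lit 0x66a6d2b89e6dd4)
  (PL.C (nat_lit 0x429af23) (nat_lit 0x0) (nat_lit 0x45997bdbad76e8)
  (PL.C (nat_lit 0x42a20b1) (nat_lit 0x13e8214e491da6c) (nat_lit 0x0)
  (PL.C (nat_lit 0x42b2864) (nat_lit 0x2a3e1a97787f01) (nat_lit 0x0)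
  (PL.C (nat_lit 0x42c6f2d) (nat_lit 0x0) (nat_lit 0x1a628c54929be1)
  (PL.C (nat_lit 0x42db7cb) (nat_lit 0x0) (nat_lit 0x6659c896dbbd6db)
  (PL.C (nat_lit 0x430adc3) (nat_lit 0xd756c8ba5ebe1) (nat_lit 0x0)
  (PL.C (nat_lit 0x433ae42) (nat_lit 0x0) (nat_lit 0x6d8cd9ddc36d09)
  (PL.C (nat_lit 0x436ab9e) (nat_lit 0x0) (nat_lit 0x3d71daa8e1153e) gp1_1_89))))))))))))))))))))

noncomputable def gp1_1_87 : PL :=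
  (PL.C (nat_lit 0x40b3bba) (nat_lit 0x151aa11106d5549) (nat_lit 0x0)
  (PL.C (nat_lit 0x40b7aba) (nat_lit 0x0) (nat_lit 0x420f438865a34e)
  (PL.C (nat_lit 0x40dcccc) (nat_lit 0x8b0ed16228d889) (nat_lit 0x0)
  (PL.C (nat_lit 0x40de7a6) (nat_lit 0x0) (nat_lit 0x9f760cc9df94a1)
  (PL.C (nat_lit 0x40df841) (nat_lit 0x0) (nat_lit 0x277306e3d81c21)
  (PL.C (nat_lit 0x40e66db) (nat_lit 0x0) (nat_lit 0x20a5c01c852c27)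
  (PL.C (nat_lit 0x40fffbf) (nat_lit 0x0) (nat_lit 0x3ff45e1ccda8a0)
  (PL.C (nat_lit 0x4120094) (nat_lit 0x0) (nat_lit 0x218ca8a0d78a09)
  (PL.C (nat_lit 0x4120841) (nat_lit 0x0) (nat_lit 0x1130f94)
  (PL.C (nat_lit 0x4126f9c) (nat_lit 0x24b769f6be7f40e) (nat_lit 0x0)
  (PL.C (nat_lit 0x4127ac4) (nat_lit 0x135599e0dbc43e8) (nat_lit 0x0)
  (PL.C (nat_lit 0x412aed1) (nat_lit 0x6cace6f98ee867) (nat_lit 0x0)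
  (PL.C (nat_lit 0x413aed3) (nat_lit 0x0) (nat_lit 0x982e01c6620587)
  (PL.C (nat_lit 0x415b92d) (nat_lit 0x5633c922a373a) (nat_lit 0x0)
  (PL.C (nat_lit 0x4166cce) (nat_lit 0x21a28953e2d52c0) (nat_lit 0x0)
  (PL.C (nat_lit 0x416bbd4) (nat_lit 0x41a7c9367e8e615) (nat_lit 0x0)
  (PL.C (nat_lit 0x417d43d) (nat_lit 0x35b1a6ca53f986) (nat_lit 0x0)
  (PL.C (nat_lit 0x41acf12) (nat_lit 0x737569f8c183c0) (nat_lit 0x0)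
  (PL.C (nat_lit 0x41b741c) (nat_lit 0x6ff10bc1aa393e) (nat_lit 0x0)
  (PL.C (nat_lit 0x41c2f4a) (nat_lit 0x0) (nat_lit 0x1b7631accb8e95e) gp1_1_88))))))))))))))))))))

noncomputable def gp1_1_86 : PL :=
  (PL.C (nat_lit 0x3eb2e8d) (nat_lit 0x26c0116f3ab877f) (nat_lit 0x0)
  (PL.C (nat_lit 0x3eb723a) (nat_lit 0x1884fbeb08067eb) (nat_lit 0x0)
  (PL.C (nat_lit 0x3ec52bd) (nat_lit 0x0) (nat_lit 0xd123e9012f4ada4)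
  (PL.C (nat_lit 0x3ed6b3d) (nat_lit 0x11abe565ffd2458) (nat_lit 0x0)
  (PL.C (nat_lit 0x3ee0926) (nat_lit 0x44ce84034e8d80) (nat_lit 0x0)
  (PL.C (nat_lit 0x3f15b91) (nat_lit 0xb533cf8d9e827) (nat_lit 0x0)
  (PL.C (nat_lit 0x3f34046) (nat_lit 0x4f4f7edb208fe49) (nat_lit 0x0)
  (PL.C (nat_lit 0x3f3d14b) (nat_lit 0x0) (nat_lit 0x254092f5343f1b2)
  (PL.C (nat_lit 0x3f570eb) (nat_lit 0x0) (nat_lit 0x65f82422e40fd1)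
  (PL.C (nat_lit 0x3f5dc5a) (nat_lit 0x0) (nat_lit 0x29c5a21637b62a9)
  (PL.C (nat_lit 0x3f6e75c) (nat_lit 0x22307dc984e40e1) (nat_lit 0x0)
  (PL.C (nat_lit 0x3f6fbe6) (nat_lit 0x125cc6a2b032b6) (nat_lit 0x0)
  (PL.C (nat_lit 0x3f82386) (nat_lit 0x0) (nat_lit 0x2a1e5bd528dd996)
  (PL.C (nat_lit 0x3f8d132) (nat_lit 0x38a82760bd8d9e) (nat_lit 0x0)
  (PL.C (nat_lit 0x3fa872f) (nat_lit 0x0) (nat_lit 0x15b69cb1b6d173)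
  (PL.C (nat_lit 0x3fb831c) (nat_lit 0x1f9d27b180524e0) (nat_lit 0x0)
  (PL.C (nat_lit 0x3fe7c2c) (nat_lit 0x9319b87a44e0de) (nat_lit 0x0)
  (PL.C (nat_lit 0x3fec191) (nat_lit 0x0) (nat_lit 0xf3db2fef55ad9fc)
  (PL.C (nat_lit 0x4074974) (nat_lit 0x0) (nat_lit 0x4a7df64dd4be66)
  (PL.C (nat_lit 0x40ac9de) (nat_lit 0x5affda23c792f) (nat_lit 0x0) gp1_1_87))))))))))))))))))))

noncomputable def gp1_1_85 : PL :=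
  (PL.C (nat_lit 0x3d571e2) (nat_lit 0x11910649c86d9a) (nat_lit 0x0)
  (PL.C (nat_lit 0x3d6bada) (nat_lit 0x2d969147ddbfa97) (nat_lit 0x0)
  (PL.C (nat_lit 0x3d72df7) (nat_lit 0x0) (nat_lit 0x27e1e854b94bf16)
  (PL.C (nat_lit 0x3d91a09) (nat_lit 0xa4a046a729cf46) (nat_lit 0x0)
  (PL.C (nat_lit 0x3daffcc) (nat_lit 0x11418390c301fa2) (nat_lit 0x0)
  (PL.C (nat_lit 0x3dc60b5) (nat_lit 0x0) (nat_lit 0x6099a4ca122d761)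
  (PL.C (nat_lit 0x3de5fa6) (nat_lit 0x0) (nat_lit 0x4032af56be12f)
  (PL.C (nat_lit 0x3df3042) (nat_lit 0x0) (nat_lit 0x6bc3f819e508d13)
  (PL.C (nat_lit 0x3e01b01) (nat_lit 0x0) (nat_lit 0x6c4a47383cf11b)
  (PL.C (nat_lit 0x3e073df) (nat_lit 0x3d6bb798504b29e) (nat_lit 0x0)
  (PL.C (nat_lit 0x3e194ef) (nat_lit 0x0) (nat_lit 0x1cddc87c471bee8)
  (PL.C (nat_lit 0x3e2aa6f) (nat_lit 0x0) (nat_lit 0x81510d135e23b)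
  (PL.C (nat_lit 0x3e2bf12) (nat_lit 0x0) (nat_lit 0xbafa6601b2b2d)
  (PL.C (nat_lit 0x3e3e4e4) (nat_lit 0x0) (nat_lit 0xc36038114ce950)
  (PL.C (nat_lit 0x3e4b0ee) (nat_lit 0x57b7cca7a7e44e) (nat_lit 0x0)
  (PL.C (nat_lit 0x3e5730a) (nat_lit 0x0) (nat_lit 0x5337f4d5cecf22)
  (PL.C (nat_lit 0x3e69c68) (nat_lit 0x0) (nat_lit 0x1a993b20ec676f)
  (PL.C (nat_lit 0x3e93973) (nat_lit 0x10b3ffbaa1bd5db) (nat_lit 0x0)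
  (PL.C (nat_lit 0x3e9f26e) (nat_lit 0x0) (nat_lit 0x15fed947aa0893b)
  (PL.C (nat_lit 0x3ead97c) (nat_lit 0x0) (nat_lit 0xb43333ba4d42ea) gp1_1_86))))))))))))))))))))

noncomputable def gp1_1_84 : PL :=
  (PL.C (nat_lit 0x3bd9c5d) (nat_lit 0x0) (nat_lit 0x77c9046b947cab)
  (PL.C (nat_lit 0x3bddf0a) (nat_lit 0x23329fba09466f2) (nat_lit 0x0)
  (PL.C (nat_lit 0x3bf7ba3) (nat_lit 0x5a5430a43a27d86) (nat_lit 0x0)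
  (PL.C (nat_lit 0x3c154c4) (nat_lit 0x8cb3d7a258ea9a6) (nat_lit 0x0)
  (PL.C (nat_lit 0x3c1a914) (nat_lit 0xca295cb2624f61) (nat_lit 0x0)
  (PL.C (nat_lit 0x3c27b25) (nat_lit 0x25c1be5b55234b) (nat_lit 0x0)
  (PL.C (nat_lit 0x3c45cdb) (nat_lit 0x7e9e39173633f5) (nat_lit 0x0)
  (PL.C (nat_lit 0x3c56956) (nat_lit 0x0) (nat_lit 0xe97fee2bcf0c00a)
  (PL.C (nat_lit 0x3c63864) (nat_lit 0x0) (nat_lit 0x1197bc731ea291)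
  (PL.C (nat_lit 0x3c6d9f5) (nat_lit 0xbaf99e5770b60) (nat_lit 0x0)
  (PL.C (nat_lit 0x3c791df) (nat_lit 0x0) (nat_lit 0x97487e16c17ec5)
  (PL.C (nat_lit 0x3c923ec) (nat_lit 0xf6039e9e51cb12) (nat_lit 0x0)
  (PL.C (nat_lit 0x3c97621) (nat_lit 0x2edac603fb3cc50) (nat_lit 0x0)
  (PL.C (nat_lit 0x3ca5246) (nat_lit 0x0) (nat_lit 0x3c94a82cd213f37)
  (PL.C (nat_lit 0x3cb3607) (nat_lit 0x2ff0246b4e718) (nat_lit 0x0)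
  (PL.C (nat_lit 0x3cb9f91) (nat_lit 0x5f621a9c065177) (nat_lit 0x0)
  (PL.C (nat_lit 0x3cc8fe4) (nat_lit 0x0) (nat_lit 0x7b2b9bbf9d4af4)
  (PL.C (nat_lit 0x3ccaa0d) (nat_lit 0x0) (nat_lit 0x5e342aa4c09cc7)
  (PL.C (nat_lit 0x3cf2ca3) (nat_lit 0x9aa1d6ec95be) (nat_lit 0x0)
  (PL.C (nat_lit 0x3d2345f) (nat_lit 0x6017a77bb6ff0ab) (nat_lit 0x0) gp1_1_85))))))))))))))))))))

noncomputable def gp1_1_83 : PL :=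
  (PL.C (nat_lit 0x3a34811) (nat_lit 0x0) (nat_lit 0xc0c4955e2f542e)
  (PL.C (nat_lit 0x3a4f5ee) (nat_lit 0x1d8ca5abc809c75) (nat_lit 0x0)
  (PL.C (nat_lit 0x3a66aeb) (nat_lit 0x7176f022e0e15b) (nat_lit 0x0)
  (PL.C (nat_lit 0x3a7d0d9) (nat_lit 0x15d7a2b3005d624) (nat_lit 0x0)
  (PL.C (nat_lit 0x3a9b49e) (nat_lit 0x1b3cd675df96478) (nat_lit 0x0)
  (PL.C (nat_lit 0x3aa3b17) (nat_lit 0x0) (nat_lit 0x20cc6d798df471f)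
  (PL.C (nat_lit 0x3ad2abe) (nat_lit 0x566b15158dbf4) (nat_lit 0x0)
  (PL.C (nat_lit 0x3ad63c7) (nat_lit 0x1d3cbdcc0303a) (nat_lit 0x0)
  (PL.C (nat_lit 0x3ae3cde) (nat_lit 0x0) (nat_lit 0x135a24104875e30)
  (PL.C (nat_lit 0x3aeeeb4) (nat_lit 0x26ab5c53483944) (nat_lit 0x0)
  (PL.C (nat_lit 0x3b0740b) (nat_lit 0xee1f703b9d84) (nat_lit 0x0)
  (PL.C (nat_lit 0x3b10c0c) (nat_lit 0x5882773385da4) (nat_lit 0x0)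
  (PL.C (nat_lit 0x3b1692a) (nat_lit 0x0) (nat_lit 0x3abd0a634b9d0f)
  (PL.C (nat_lit 0x3b2d34e) (nat_lit 0x0) (nat_lit 0x89dc70000f294d)
  (PL.C (nat_lit 0x3b544d2) (nat_lit 0x0) (nat_lit 0x846074860c21a2)
  (PL.C (nat_lit 0x3b6081c) (nat_lit 0x0) (nat_lit 0x63810d536dd607)
  (PL.C (nat_lit 0x3b67a76) (nat_lit 0x57175734f2d100) (nat_lit 0x0)
  (PL.C (nat_lit 0x3b70cac) (nat_lit 0x0) (nat_lit 0x4c0b0c8e24ebbc)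
  (PL.C (nat_lit 0x3b8955d) (nat_lit 0x0) (nat_lit 0x53ab57a330a578)
  (PL.C (nat_lit 0x3bb1612) (nat_lit 0x0) (nat_lit 0x6529ba2e06e3da2) gp1_1_84))))))))))))))))))))

noncomputable def gp1_1_82 : PL :=
  (PL.C (nat_lit 0x38a4536) (nat_lit 0x0) (nat_lit 0x4d3f63258e7b03)
  (PL.C (nat_lit 0x38ab193) (nat_lit 0x0) (nat_lit 0x861c6bf61bac39)
  (PL.C (nat_lit 0x38ad11e) (nat_lit 0x0) (nat_lit 0xb6b887a52a3ced)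
  (PL.C (nat_lit 0x38b0ffb) (nat_lit 0x5f488421a47b49) (nat_lit 0x0)
  (PL.C (nat_lit 0x38c0aca) (nat_lit 0x2ff28310f751b2e) (nat_lit 0x0)
  (PL.C (nat_lit 0x38e112a) (nat_lit 0x3d007e9989107d) (nat_lit 0x0)
  (PL.C (nat_lit 0x38e961c) (nat_lit 0x13dfa1b12f0c26d1) (nat_lit 0x0)
  (PL.C (nat_lit 0x38f7218) (nat_lit 0x3b026262ee7405) (nat_lit 0x0)
  (PL.C (nat_lit 0x38facf3) (nat_lit 0x0) (nat_lit 0x26697931760bca)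
  (PL.C (nat_lit 0x3919a48) (nat_lit 0x13a76b4c137b7) (nat_lit 0x0)
  (PL.C (nat_lit 0x391d4bd) (nat_lit 0x872ac722b7c760) (nat_lit 0x0)
  (PL.C (nat_lit 0x3934c1d) (nat_lit 0xb85611941e6b589) (nat_lit 0x0)
  (PL.C (nat_lit 0x3941d4b) (nat_lit 0x3853a30460c174) (nat_lit 0x0)
  (PL.C (nat_lit 0x3947ee9) (nat_lit 0x0) (nat_lit 0x65887470fad06ad)
  (PL.C (nat_lit 0x3967a85) (nat_lit 0x14b1c7c2b39cc5) (nat_lit 0x0)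
  (PL.C (nat_lit 0x39dc292) (nat_lit 0x8fa2b92cf83cc7) (nat_lit 0x0)
  (PL.C (nat_lit 0x39e10c6) (nat_lit 0x8a08831231353e) (nat_lit 0x0)
  (PL.C (nat_lit 0x39f472e) (nat_lit 0x0) (nat_lit 0xa081ffcca4634b)
  (PL.C (nat_lit 0x3a23921) (nat_lit 0x0) (nat_lit 0x1765a8a68881df0)
  (PL.C (nat_lit 0x3a277e2) (nat_lit 0x0) (nat_lit 0x199544dbb33a64) gp1_1_83))))))))))))))))))))

noncomputable def gp1_1_81 : PL :=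
  (PL.C (nat_lit 0x37487f1) (nat_lit 0x24761fd186b37e) (nat_lit 0x0)
  (PL.C (nat_lit 0x375a01a) (nat_lit 0xdabeef9a7597b0) (nat_lit 0x0)
  (PL.C (nat_lit 0x375b06d) (nat_lit 0x0) (nat_lit 0x4b8d08c1750f56)
  (PL.C (nat_lit 0x377b9da) (nat_lit 0x0) (nat_lit 0x88d459ec98593a)
  (PL.C (nat_lit 0x3784545) (nat_lit 0x236282ed59a6f) (nat_lit 0x0)
  (PL.C (nat_lit 0x3797626) (nat_lit 0x0) (nat_lit 0x6a8c74d64daf21)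
  (PL.C (nat_lit 0x379b3cf) (nat_lit 0x0) (nat_lit 0xe65c7e8a17a8b4)
  (PL.C (nat_lit 0x37ca943) (nat_lit 0x0) (nat_lit 0x1a909c67ba0436e)
  (PL.C (nat_lit 0x37d28ac) (nat_lit 0x0) (nat_lit 0x912e1577f50e95)
  (PL.C (nat_lit 0x3800a09) (nat_lit 0x681649a41eeffc) (nat_lit 0x0)
  (PL.C (nat_lit 0x381337b) (nat_lit 0x0) (nat_lit 0x35f3aa790c0088)
  (PL.C (nat_lit 0x3815c79) (nat_lit 0xc433042de19e2f) (nat_lit 0x0)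
  (PL.C (nat_lit 0x381a312) (nat_lit 0x3b11598152cff69) (nat_lit 0x0)
  (PL.C (nat_lit 0x382f485) (nat_lit 0x0) (nat_lit 0x726641621a19c1)
  (PL.C (nat_lit 0x383824c) (nat_lit 0x0) (nat_lit 0x31f22cddf10b4d)
  (PL.C (nat_lit 0x384d8f4) (nat_lit 0x6f99837d56de8a) (nat_lit 0x0)
  (PL.C (nat_lit 0x384f5b5) (nat_lit 0x0) (nat_lit 0x156d5e7b2d9824)
  (PL.C (nat_lit 0x3870237) (nat_lit 0x0) (nat_lit 0x4436e2c6e9d61dc)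
  (PL.C (nat_lit 0x387aaa8) (nat_lit 0x0) (nat_lit 0x5ac18e2898f09)
  (PL.C (nat_lit 0x3885c1d) (nat_lit 0x0) (nat_lit 0x44b249f074a646) gp1_1_82))))))))))))))))))))

noncomputable def gp1_1_80 : PL :=
  (PL.C (nat_lit 0x35621b7) (nat_lit 0x0) (nat_lit 0x79d9aa301589f8)
  (PL.C (nat_lit 0x3572202) (nat_lit 0x0) (nat_lit 0x35fa39986c9939)
  (PL.C (nat_lit 0x357db42) (nat_lit 0xffd064ecc7c996) (nat_lit 0x0)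
  (PL.C (nat_lit 0x358cdfe) (nat_lit 0x0) (nat_lit 0x2c3eec231ff081)
  (PL.C (nat_lit 0x35a6e9a) (nat_lit 0xf82fcc96e0a056) (nat_lit 0x0)
  (PL.C (nat_lit 0x35ab71e) (nat_lit 0x0) (nat_lit 0x1086f79cc4a2ba)
  (PL.C (nat_lit 0x35ca08c) (nat_lit 0x0) (nat_lit 0x126a489a4cf5f8)
  (PL.C (nat_lit 0x35f5d95) (nat_lit 0x4a68cda0369d66b0) (nat_lit 0x0)
  (PL.C (nat_lit 0x3611be6) (nat_lit 0x170bcf2972e544b) (nat_lit 0x0)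
  (PL.C (nat_lit 0x36239b6) (nat_lit 0x0) (nat_lit 0x54919b36663820)
  (PL.C (nat_lit 0x365ee64) (nat_lit 0x377dc745a82a7e) (nat_lit 0x0)
  (PL.C (nat_lit 0x3661833) (nat_lit 0x0) (nat_lit 0x10140f993f7b88)
  (PL.C (nat_lit 0x36985d6) (nat_lit 0x1a473f5128fbf8f) (nat_lit 0x0)
  (PL.C (nat_lit 0x36a1b22) (nat_lit 0x0) (nat_lit 0x1bb7c236ccfc817)
  (PL.C (nat_lit 0x36a5b04) (nat_lit 0x2ab61a877c2a71) (nat_lit 0x0)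
  (PL.C (nat_lit 0x36d6b7c) (nat_lit 0x3fbe7e31d8f9217) (nat_lit 0x0)
  (PL.C (nat_lit 0x36e782b) (nat_lit 0x0) (nat_lit 0xd91c4b751b9776)
  (PL.C (nat_lit 0x3702fd5) (nat_lit 0x6c8b98d97b03e) (nat_lit 0x0)
  (PL.C (nat_lit 0x371e1dc) (nat_lit 0x1652d31614fa705) (nat_lit 0x0)
  (PL.C (nat_lit 0x3735886) (nat_lit 0x0) (nat_lit 0x1a2098f56011261) gp1_1_81))))))))))))))))))))

noncomputable def gp1_1_79 : PL :=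
  (PL.C (nat_lit 0x33dde9c) (nat_lit 0x261943fe76cd5d) (nat_lit 0x0)
  (PL.C (nat_lit 0x33e9c44) (nat_lit 0x1dc7bd2138801c) (nat_lit 0x0)
  (PL.C (nat_lit 0x33fdf92) (nat_lit 0x0) (nat_lit 0x78fc790d0cefcb)
  (PL.C (nat_lit 0x340193d) (nat_lit 0xed8d8017c0c16) (nat_lit 0x0)
  (PL.C (nat_lit 0x3425849) (nat_lit 0x0) (nat_lit 0x1e70751a9e3e33)
  (PL.C (nat_lit 0x3442665) (nat_lit 0x0) (nat_lit 0x2b0f9722ca05b9)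
  (PL.C (nat_lit 0x3455bca) (nat_lit 0x0) (nat_lit 0x444084033f6894b)
  (PL.C (nat_lit 0x3464ecb) (nat_lit 0x0) (nat_lit 0x805bfba7589097)
  (PL.C (nat_lit 0x348ddd6) (nat_lit 0x1158e3068e0739f) (nat_lit 0x0)
  (PL.C (nat_lit 0x34a00b2) (nat_lit 0x1c5530e1ab2be97) (nat_lit 0x0)
  (PL.C (nat_lit 0x34ccd8a) (nat_lit 0x11314fe6f8c525e) (nat_lit 0x0)
  (PL.C (nat_lit 0x34d307f) (nat_lit 0x0) (nat_lit 0x2e5b5bb5dc4ea42)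
  (PL.C (nat_lit 0x34dcca6) (nat_lit 0x0) (nat_lit 0x1f71466b78bb214)
  (PL.C (nat_lit 0x34ed781) (nat_lit 0x0) (nat_lit 0x3246be1e8c3ffb5)
  (PL.C (nat_lit 0x34f10a2) (nat_lit 0x0) (nat_lit 0x5c94495c5cf585)
  (PL.C (nat_lit 0x350baf1) (nat_lit 0x3e916db5405cbb) (nat_lit 0x0)
  (PL.C (nat_lit 0x351403e) (nat_lit 0x0) (nat_lit 0x8733eef366f8aa)
  (PL.C (nat_lit 0x351d76d) (nat_lit 0x211dd1b31bf33f) (nat_lit 0x0)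
  (PL.C (nat_lit 0x352c254) (nat_lit 0x0) (nat_lit 0x5ea46aa53a8642)
  (PL.C (nat_lit 0x3537eeb) (nat_lit 0x0) (nat_lit 0x1fb50dab2f4006) gp1_1_80))))))))))))))))))))

noncomputable def gp1_1_78 : PL :=
  (PL.C (nat_lit 0x326d09f) (nat_lit 0x221552a75e4990) (nat_lit 0x0)
  (PL.C (nat_lit 0x329fe6e) (nat_lit 0x19e0faf73884289) (nat_lit 0x0)
  (PL.C (nat_lit 0x32ef52e) (nat_lit 0x648f7511548f075) (nat_lit 0x0)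
  (PL.C (nat_lit 0x32f0d7c) (nat_lit 0x0) (nat_lit 0x6140cfe50ac6ba)
  (PL.C (nat_lit 0x330c79b) (nat_lit 0x0) (nat_lit 0x2d58e999a8d1328)
  (PL.C (nat_lit 0x3326065) (nat_lit 0x0) (nat_lit 0xc954e94ee74e46)
  (PL.C (nat_lit 0x332ba54) (nat_lit 0x5cd1c1e9ce8a8e) (nat_lit 0x0)
  (PL.C (nat_lit 0x332e335) (nat_lit 0x15e681d785ef568) (nat_lit 0x0)
  (PL.C (nat_lit 0x332ffb2) (nat_lit 0xe30c2749ca39fb) (nat_lit 0x0)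
  (PL.C (nat_lit 0x3343395) (nat_lit 0xfce41dad6bbe4b) (nat_lit 0x0)
  (PL.C (nat_lit 0x334ba3b) (nat_lit 0xc6dae1ee17336d) (nat_lit 0x0)
  (PL.C (nat_lit 0x334fe74) (nat_lit 0x71f4d905af015e) (nat_lit 0x0)
  (PL.C (nat_lit 0x3354681) (nat_lit 0x2afa35bfa262bc7) (nat_lit 0x0)
  (PL.C (nat_lit 0x3355522) (nat_lit 0x11ce7a0a3c073fb) (nat_lit 0x0)
  (PL.C (nat_lit 0x33611a4) (nat_lit 0xb3cdbae549b5df) (nat_lit 0x0)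
  (PL.C (nat_lit 0x3372a02) (nat_lit 0x0) (nat_lit 0x4890d55a507fcd)
  (PL.C (nat_lit 0x33773be) (nat_lit 0x0) (nat_lit 0xe6664698d39ed4)
  (PL.C (nat_lit 0x338c5fe) (nat_lit 0x0) (nat_lit 0x59f4c5dc54861b)
  (PL.C (nat_lit 0x338ff2b) (nat_lit 0x0) (nat_lit 0x2c33ec336d6bcd)
  (PL.C (nat_lit 0x33d93c2) (nat_lit 0x4625e0ce73aebf1) (nat_lit 0x0) gp1_1_79))))))))))))))))))))

noncomputable def gp1_1_77 : PL :=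
  (PL.C (nat_lit 0x310acc2) (nat_lit 0x0) (nat_lit 0x1194e47e14777ce)
  (PL.C (nat_lit 0x3132164) (nat_lit 0xabc90f58fcad1f) (nat_lit 0x0)
  (PL.C (nat_lit 0x313dd61) (nat_lit 0x212ec17d18763fd) (nat_lit 0x0)
  (PL.C (nat_lit 0x3171cc9) (nat_lit 0x0) (nat_lit 0x7a8061e79919b)
  (PL.C (nat_lit 0x318b499) (nat_lit 0x20ec1a7ec9f824) (nat_lit 0x0)
  (PL.C (nat_lit 0x3192866) (nat_lit 0x0) (nat_lit 0xce84a87de8f8863)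
  (PL.C (nat_lit 0x31d223e) (nat_lit 0x1882b2968a0278) (nat_lit 0x0)
  (PL.C (nat_lit 0x31dec2f) (nat_lit 0x0) (nat_lit 0x39a14a70bc39d)
  (PL.C (nat_lit 0x31e093c) (nat_lit 0xe9454b75b59438) (nat_lit 0x0)
  (PL.C (nat_lit 0x31fe052) (nat_lit 0x183ade895f745c9) (nat_lit 0x0)
  (PL.C (nat_lit 0x31feacb) (nat_lit 0x5f050ea9bef20c) (nat_lit 0x0)
  (PL.C (nat_lit 0x3209349) (nat_lit 0x3a1e475a83859f0) (nat_lit 0x0)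
  (PL.C (nat_lit 0x321f98c) (nat_lit 0x0) (nat_lit 0x9c2c2211242cb2)
  (PL.C (nat_lit 0x3227d34) (nat_lit 0x0) (nat_lit 0x145aacc0b43ecb)
  (PL.C (nat_lit 0x323065c) (nat_lit 0x120e1dd9d7e431b) (nat_lit 0x0)
  (PL.C (nat_lit 0x3246042) (nat_lit 0x0) (nat_lit 0x2af8d514a765ed8)
  (PL.C (nat_lit 0x324e7e4) (nat_lit 0x0) (nat_lit 0xbebd7757b8c931)
  (PL.C (nat_lit 0x325050f) (nat_lit 0x0) (nat_lit 0xa0c03b5d5f513)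
  (PL.C (nat_lit 0x3263dda) (nat_lit 0x1ec44d6c2b09dd) (nat_lit 0x0)
  (PL.C (nat_lit 0x3268c7d) (nat_lit 0x31bb10b5ccc120) (nat_lit 0x0) gp1_1_78))))))))))))))))))))

noncomputable def gp1_1_76 : PL :=
  (PL.C (nat_lit 0x2fe8772) (nat_lit 0x42ec0eb344911) (nat_lit 0x0)
  (PL.C (nat_lit 0x30027c6) (nat_lit 0x0) (nat_lit 0x1d78645ab0b560e)
  (PL.C (nat_lit 0x3013e8a) (nat_lit 0x53eec9fcb89431) (nat_lit 0x0)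
  (PL.C (nat_lit 0x301a83a) (nat_lit 0xc3962fa67273e0) (nat_lit 0x0)
  (PL.C (nat_lit 0x30289e3) (nat_lit 0x1b6042e3689ad4) (nat_lit 0x0)
  (PL.C (nat_lit 0x3035f9a) (nat_lit 0x0) (nat_lit 0xc13ad0cb93e5d)
  (PL.C (nat_lit 0x3036a71) (nat_lit 0x9f1025b32b35d10) (nat_lit 0x0)
  (PL.C (nat_lit 0x30487e2) (nat_lit 0x0) (nat_lit 0x7005d82341359f2)
  (PL.C (nat_lit 0x304a751) (nat_lit 0x3fab181e80fec7) (nat_lit 0x0)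
  (PL.C (nat_lit 0x305883c) (nat_lit 0x0) (nat_lit 0x2be1e911862954)
  (PL.C (nat_lit 0x305aa4d) (nat_lit 0x0) (nat_lit 0x30b18066dc2d278)
  (PL.C (nat_lit 0x30716fc) (nat_lit 0x684f3661dd2d74) (nat_lit 0x0)
  (PL.C (nat_lit 0x30875b2) (nat_lit 0x2c6dedabab8565a) (nat_lit 0x0)
  (PL.C (nat_lit 0x309fa4e) (nat_lit 0x0) (nat_lit 0x69b37889aaae1af)
  (PL.C (nat_lit 0x30bb66e) (nat_lit 0x0) (nat_lit 0x10a3c1a06bd2fa)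
  (PL.C (nat_lit 0x30bc163) (nat_lit 0x1184630fa80fa615) (nat_lit 0x0)
  (PL.C (nat_lit 0x30c30e4) (nat_lit 0x0) (nat_lit 0x1bd36966a1987e)
  (PL.C (nat_lit 0x30d7c5a) (nat_lit 0x0) (nat_lit 0x106b5902bd78e69f)
  (PL.C (nat_lit 0x30ec466) (nat_lit 0x491825f36c718a) (nat_lit 0x0)
  (PL.C (nat_lit 0x30fb89b) (nat_lit 0xb5fb37f43bfbd9) (nat_lit 0x0) gp1_1_77))))))))))))))))))))

noncomputable def gp1_1_75 : PL :=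
  (PL.C (nat_lit 0x2e48c04) (nat_lit 0x310e835e4f12246) (nat_lit 0x0)
  (PL.C (nat_lit 0x2eba8e1) (nat_lit 0x2ac0a74e943dcd) (nat_lit 0x0)
  (PL.C (nat_lit 0x2ebbab1) (nat_lit 0xc668eb5b2f11a37) (nat_lit 0x0)
  (PL.C (nat_lit 0x2ebf9db) (nat_lit 0x5a04c5ff8c1f03) (nat_lit 0x0)
  (PL.C (nat_lit 0x2ee5c3a) (nat_lit 0x31c79a309d6e62e) (nat_lit 0x0)
  (PL.C (nat_lit 0x2ef501e) (nat_lit 0x0) (nat_lit 0x699a8f4594f3df)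
  (PL.C (nat_lit 0x2efd3c6) (nat_lit 0x0) (nat_lit 0x80347717441b7b)
  (PL.C (nat_lit 0x2f18b8f) (nat_lit 0x18c73acb642262e) (nat_lit 0x0)
  (PL.C (nat_lit 0x2f3b026) (nat_lit 0x1a3aac4fab5e2c6) (nat_lit 0x0)
  (PL.C (nat_lit 0x2f560a7) (nat_lit 0x0) (nat_lit 0x9bcfdd42ce756c)
  (PL.C (nat_lit 0x2f5beda) (nat_lit 0x0) (nat_lit 0x1257cf99bae8ddea)
  (PL.C (nat_lit 0x2f61bfc) (nat_lit 0x0) (nat_lit 0xe28f4fe30c3116)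
  (PL.C (nat_lit 0x2f909c7) (nat_lit 0x2229a8c7e06434) (nat_lit 0x0)
  (PL.C (nat_lit 0x2f961c5) (nat_lit 0xba84e57bdf62a5) (nat_lit 0x0)
  (PL.C (nat_lit 0x2f9996a) (nat_lit 0x14256af916468d2) (nat_lit 0x0)
  (PL.C (nat_lit 0x2fb1696) (nat_lit 0x0) (nat_lit 0x41411a502233d1)
  (PL.C (nat_lit 0x2fcca36) (nat_lit 0x0) (nat_lit 0x22a6517070bd0c)
  (PL.C (nat_lit 0x2fd088e) (nat_lit 0x0) (nat_lit 0x5b48ed6e96becf5)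
  (PL.C (nat_lit 0x2fe2d9a) (nat_lit 0x0) (nat_lit 0x3c7bc5c7463e29)
  (PL.C (nat_lit 0x2fe7f3e) (nat_lit 0x0) (nat_lit 0x1e463195aae00f) gp1_1_76))))))))))))))))))))

noncomputable def gp1_1_74 : PL :=
  (PL.C (nat_lit 0x2cb5015) (nat_lit 0x0) (nat_lit 0x4cb94a74fc9b40)
  (PL.C (nat_lit 0x2cf1d14) (nat_lit 0x0) (nat_lit 0x19b8198be88289)
  (PL.C (nat_lit 0x2d165c6) (nat_lit 0xb9316d8ab89abe) (nat_lit 0x0)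
  (PL.C (nat_lit 0x2d1dd8a) (nat_lit 0x0) (nat_lit 0x767c6f58e5de06)
  (PL.C (nat_lit 0x2d2d9a6) (nat_lit 0x0) (nat_lit 0x2771657640ebf27)
  (PL.C (nat_lit 0x2d4a682) (nat_lit 0x35edab0f5a1c5f4) (nat_lit 0x0)
  (PL.C (nat_lit 0x2d5bc16) (nat_lit 0x3fe625de736a521) (nat_lit 0x0)
  (PL.C (nat_lit 0x2d79b8a) (nat_lit 0x19943d870fbb96c) (nat_lit 0x0)
  (PL.C (nat_lit 0x2d8d0a9) (nat_lit 0x0) (nat_lit 0xd41b0e82fa81278)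
  (PL.C (nat_lit 0x2d9e274) (nat_lit 0x0) (nat_lit 0x3ea328aa520e28)
  (PL.C (nat_lit 0x2da0ece) (nat_lit 0x9a432c2dd39eb7) (nat_lit 0x0)
  (PL.C (nat_lit 0x2db5ab4) (nat_lit 0x0) (nat_lit 0x2dd35fddec7cf8)
  (PL.C (nat_lit 0x2dd2cfc) (nat_lit 0x35a850e61e34a3) (nat_lit 0x0)
  (PL.C (nat_lit 0x2dd6b2d) (nat_lit 0x53b031d3ffef57) (nat_lit 0x0)
  (PL.C (nat_lit 0x2de45d4) (nat_lit 0x0) (nat_lit 0x39d3b7c093b6ec)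
  (PL.C (nat_lit 0x2df0ddd) (nat_lit 0x0) (nat_lit 0xa158bda3b41ae)
  (PL.C (nat_lit 0x2df7503) (nat_lit 0x0) (nat_lit 0x1bab5dd62de970)
  (PL.C (nat_lit 0x2df793e) (nat_lit 0x0) (nat_lit 0xeeea1bcd26b287)
  (PL.C (nat_lit 0x2e02aec) (nat_lit 0x0) (nat_lit 0x315e1e7602737a)
  (PL.C (nat_lit 0x2e163ae) (nat_lit 0x7ab05f2d5ef044) (nat_lit 0x0) gp1_1_75))))))))))))))))))))

noncomputable def gp1_1_73 : PL :=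
  (PL.C (nat_lit 0x2ba8d7e) (nat_lit 0xb5baea88767f5e) (nat_lit 0x0)
  (PL.C (nat_lit 0x2babdeb) (nat_lit 0x0) (nat_lit 0x3da1ff4317557de)
  (PL.C (nat_lit 0x2bae193) (nat_lit 0x19a07aacbbdf231) (nat_lit 0x0)
  (PL.C (nat_lit 0x2bc8a0c) (nat_lit 0x0) (nat_lit 0x5007a789ec3653)
  (PL.C (nat_lit 0x2bd74dc) (nat_lit 0x0) (nat_lit 0x92c6983fd862c4)
  (PL.C (nat_lit 0x2bea302) (nat_lit 0x0) (nat_lit 0x1d53af80d8c4cec)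
  (PL.C (nat_lit 0x2bf2672) (nat_lit 0x0) (nat_lit 0xba73aa9971f276)
  (PL.C (nat_lit 0x2c0512d) (nat_lit 0x0) (nat_lit 0x25d808a7054ae95)
  (PL.C (nat_lit 0x2c189a3) (nat_lit 0x2befc7bc7f316c2) (nat_lit 0x0)
  (PL.C (nat_lit 0x2c1ce16) (nat_lit 0x0) (nat_lit 0x40d9edcb1e68625)
  (PL.C (nat_lit 0x2c235d2) (nat_lit 0x0) (nat_lit 0xb2943f32503faa)
  (PL.C (nat_lit 0x2c2dc72) (nat_lit 0x0) (nat_lit 0x321893ccc45292a)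
  (PL.C (nat_lit 0x2c4af6e) (nat_lit 0x0) (nat_lit 0x714221aa7106921)
  (PL.C (nat_lit 0x2c56506) (nat_lit 0x0) (nat_lit 0x92e74e249f0509)
  (PL.C (nat_lit 0x2c674c2) (nat_lit 0x2137e9b8dd2c5e) (nat_lit 0x0)
  (PL.C (nat_lit 0x2c6c076) (nat_lit 0x44155a178990199) (nat_lit 0x0)
  (PL.C (nat_lit 0x2c84a1e) (nat_lit 0x0) (nat_lit 0x1021e94e47fc359)
  (PL.C (nat_lit 0x2c92532) (nat_lit 0x0) (nat_lit 0x3235ff4482cd506)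
  (PL.C (nat_lit 0x2c978bb) (nat_lit 0xccff22dba174716) (nat_lit 0x0)
  (PL.C (nat_lit 0x2cb1e82) (nat_lit 0x0) (nat_lit 0xaad7f7be06a27a) gp1_1_74))))))))))))))))))))

noncomputable def gp1_1_72 : PL :=
  (PL.C (nat_lit 0x2a5e0cc) (nat_lit 0x0) (nat_lit 0x156f0baab754b7)
  (PL.C (nat_lit 0x2a63c75) (nat_lit 0x95ca551dbddd4) (nat_lit 0x0)
  (PL.C (nat_lit 0x2a704ca) (nat_lit 0x0) (nat_lit 0x1732cb132dfca0d)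
  (PL.C (nat_lit 0x2a81441) (nat_lit 0x4260a8ad68e46c) (nat_lit 0x0)
  (PL.C (nat_lit 0x2ab254b) (nat_lit 0x0) (nat_lit 0x9b92485e594281)
  (PL.C (nat_lit 0x2ac2af9) (nat_lit 0xabc6856048ec23) (nat_lit 0x0)
  (PL.C (nat_lit 0x2adeef7) (nat_lit 0xde673d669046b2) (nat_lit 0x0)
  (PL.C (nat_lit 0x2b17d47) (nat_lit 0xa88419ca0b0de5) (nat_lit 0x0)
  (PL.C (nat_lit 0x2b344c9) (nat_lit 0x0) (nat_lit 0xf48f8f3df4025b)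
  (PL.C (nat_lit 0x2b3efc4) (nat_lit 0x0) (nat_lit 0xe06893b9cf899)
  (PL.C (nat_lit 0x2b3fad6) (nat_lit 0x0) (nat_lit 0x335bba260d5559a)
  (PL.C (nat_lit 0x2b408d7) (nat_lit 0x738b8f15491b1) (nat_lit 0x0)
  (PL.C (nat_lit 0x2b44492) (nat_lit 0x382e23c8c468353) (nat_lit 0x0)
  (PL.C (nat_lit 0x2b4d267) (nat_lit 0x1c50e491a97729) (nat_lit 0x0)
  (PL.C (nat_lit 0x2b5552a) (nat_lit 0x0) (nat_lit 0xfdfc59b6b02c5e)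
  (PL.C (nat_lit 0x2b55955) (nat_lit 0x0) (nat_lit 0x19b28a40d1de57)
  (PL.C (nat_lit 0x2b593e7) (nat_lit 0x1e05233849cc23) (nat_lit 0x0)
  (PL.C (nat_lit 0x2b71f36) (nat_lit 0x3dab75b354d1bdc) (nat_lit 0x0)
  (PL.C (nat_lit 0x2b7c9e2) (nat_lit 0x0) (nat_lit 0x1798f71f4908617)
  (PL.C (nat_lit 0x2b9261e) (nat_lit 0x0) (nat_lit 0x5b15ac2d017d0a) gp1_1_73))))))))))))))))))))

noncomputable def gp1_1_71 : PL :=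
  (PL.C (nat_lit 0x2956756) (nat_lit 0x0) (nat_lit 0xd28b83931e9589)
  (PL.C (nat_lit 0x2957fc1) (nat_lit 0xbd76921828cfda) (nat_lit 0x0)
  (PL.C (nat_lit 0x296634a) (nat_lit 0x0) (nat_lit 0x6c1be979b6c5a08)
  (PL.C (nat_lit 0x2971c4a) (nat_lit 0x0) (nat_lit 0x1201214bec97da)
  (PL.C (nat_lit 0x2972a0c) (nat_lit 0x0) (nat_lit 0x4e7b28b83daeac)
  (PL.C (nat_lit 0x29875f4) (nat_lit 0x61bea83b44affe) (nat_lit 0x0)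
  (PL.C (nat_lit 0x298f75c) (nat_lit 0x0) (nat_lit 0xfc51a5f17748fa)
  (PL.C (nat_lit 0x29914a5) (nat_lit 0x1871fb6a52a8ec4) (nat_lit 0x0)
  (PL.C (nat_lit 0x299da47) (nat_lit 0x0) (nat_lit 0x11a5caa0d0d0a7)
  (PL.C (nat_lit 0x29b7ba2) (nat_lit 0x1b568fdd579fc34) (nat_lit 0x0)
  (PL.C (nat_lit 0x29bf6f4) (nat_lit 0x175a10fba8bfcaa) (nat_lit 0x0)
  (PL.C (nat_lit 0x29d2abd) (nat_lit 0x0) (nat_lit 0xa4a71af7589446)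
  (PL.C (nat_lit 0x29d8c7e) (nat_lit 0x0) (nat_lit 0xbcee56bcb4c4128)
  (PL.C (nat_lit 0x29e0b09) (nat_lit 0x0) (nat_lit 0x4784ec0957ff5a)
  (PL.C (nat_lit 0x29e477e) (nat_lit 0xa4577c73997012) (nat_lit 0x0)
  (PL.C (nat_lit 0x29eb0c4) (nat_lit 0x0) (nat_lit 0xf6e787a7c619c5)
  (PL.C (nat_lit 0x2a0e7b6) (nat_lit 0x0) (nat_lit 0x1a875a65bfddd)
  (PL.C (nat_lit 0x2a34137) (nat_lit 0x0) (nat_lit 0xa25c938a7fe062)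
  (PL.C (nat_lit 0x2a3e83c) (nat_lit 0x1753fde2a720f1) (nat_lit 0x0)
  (PL.C (nat_lit 0x2a56d04) (nat_lit 0x0) (nat_lit 0x7c0edeb09b35be) gp1_1_72))))))))))))))))))))

noncomputable def gp1_1_70 : PL :=
  (PL.C (nat_lit 0x282b999) (nat_lit 0x25df19b6205c20a) (nat_lit 0x0)
  (PL.C (nat_lit 0x282e892) (nat_lit 0x0) (nat_lit 0x40a19c3dac61c5)
  (PL.C (nat_lit 0x2842598) (nat_lit 0xe249ee72499de) (nat_lit 0x0)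
  (PL.C (nat_lit 0x284914e) (nat_lit 0x4c81f2dbaaa78d) (nat_lit 0x0)
  (PL.C (nat_lit 0x2850bea) (nat_lit 0x0) (nat_lit 0x1fd3b84f9a2a77)
  (PL.C (nat_lit 0x286e184) (nat_lit 0x0) (nat_lit 0x224baba3fbc128f)
  (PL.C (nat_lit 0x287795a) (nat_lit 0xb6e05dc902dc3) (nat_lit 0x0)
  (PL.C (nat_lit 0x287bfb6) (nat_lit 0x0) (nat_lit 0x2bd19cfc37d3ba)
  (PL.C (nat_lit 0x288715e) (nat_lit 0x0) (nat_lit 0x23c39f08d8fa2a5)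
  (PL.C (nat_lit 0x28a1dc2) (nat_lit 0x55d5228c8a8350) (nat_lit 0x0)
  (PL.C (nat_lit 0x28b31f5) (nat_lit 0xda87f2bddb2009) (nat_lit 0x0)
  (PL.C (nat_lit 0x28c22ea) (nat_lit 0x11f69d0263b1e26e) (nat_lit 0x0)
  (PL.C (nat_lit 0x28e39cf) (nat_lit 0x0) (nat_lit 0x21f41ef84b8b5e)
  (PL.C (nat_lit 0x28e4bec) (nat_lit 0x3f73c055d593fe) (nat_lit 0x0)
  (PL.C (nat_lit 0x28f273c) (nat_lit 0x1658c183b320343) (nat_lit 0x0)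
  (PL.C (nat_lit 0x28f73fa) (nat_lit 0x0) (nat_lit 0x37ca87fafd604e7)
  (PL.C (nat_lit 0x290bc06) (nat_lit 0x0) (nat_lit 0x2af116aed6fdb42)
  (PL.C (nat_lit 0x2923c2f) (nat_lit 0x17a423d3401d5cfd) (nat_lit 0x0)
  (PL.C (nat_lit 0x2942b71) (nat_lit 0x49a9c0d4caac82) (nat_lit 0x0)
  (PL.C (nat_lit 0x2943fc4) (nat_lit 0x0) (nat_lit 0x13c16387ca4de9) gp1_1_71))))))))))))))))))))

noncomputable def gp1_1_69 : PL :=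
  (PL.C (nat_lit 0x26d500d) (nat_lit 0x0) (nat_lit 0x17093eb30c622)
  (PL.C (nat_lit 0x26ef1f2) (nat_lit 0x0) (nat_lit 0x4005cba315f2f1e)
  (PL.C (nat_lit 0x26ff799) (nat_lit 0x0) (nat_lit 0x497e9dff95158b1)
  (PL.C (nat_lit 0x2712314) (nat_lit 0x361854f4d43121) (nat_lit 0x0)
  (PL.C (nat_lit 0x2717cba) (nat_lit 0x0) (nat_lit 0xc38d433853acd3)
  (PL.C (nat_lit 0x271ba41) (nat_lit 0x0) (nat_lit 0x2f2dfa211da373)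
  (PL.C (nat_lit 0x27371d4) (nat_lit 0x1b0045b185c52d) (nat_lit 0x0)
  (PL.C (nat_lit 0x27397da) (nat_lit 0x0) (nat_lit 0x3475e12b7e3798)
  (PL.C (nat_lit 0x2742894) (nat_lit 0x0) (nat_lit 0x2c190cbc5002152)
  (PL.C (nat_lit 0x275a2b2) (nat_lit 0x0) (nat_lit 0x7358d1ec5f2bda)
  (PL.C (nat_lit 0x2760808) (nat_lit 0x0) (nat_lit 0x6c33b60744a29)
  (PL.C (nat_lit 0x276461c) (nat_lit 0x0) (nat_lit 0x3b2a551af6ee08)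
  (PL.C (nat_lit 0x2773335) (nat_lit 0x0) (nat_lit 0x17b82b328d076a9)
  (PL.C (nat_lit 0x2783c2b) (nat_lit 0x0) (nat_lit 0x5fc039aac21104)
  (PL.C (nat_lit 0x278d88c) (nat_lit 0x0) (nat_lit 0x33c003a12cd8a9)
  (PL.C (nat_lit 0x27b0e3e) (nat_lit 0x0) (nat_lit 0xe6a3c556b18f64)
  (PL.C (nat_lit 0x27c1c0b) (nat_lit 0x0) (nat_lit 0x2bc24bef6fc9119)
  (PL.C (nat_lit 0x27e683e) (nat_lit 0x0) (nat_lit 0xa2aae233af4368b)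
  (PL.C (nat_lit 0x27fa7c2) (nat_lit 0x19609c90d4175d0) (nat_lit 0x0)
  (PL.C (nat_lit 0x281a76e) (nat_lit 0x0) (nat_lit 0x1775b1d7d0b4ef) gp1_1_70))))))))))))))))))))

noncomputable def gp1_1_68 : PL :=
  (PL.C (nat_lit 0x25e7377) (nat_lit 0x1dc28c531261b3) (nat_lit 0x0)
  (PL.C (nat_lit 0x25eb61c) (nat_lit 0x400121dba0e3b5) (nat_lit 0x0)
  (PL.C (nat_lit 0x25ed467) (nat_lit 0x0) (nat_lit 0x1f87bcdc304d27)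
  (PL.C (nat_lit 0x25fc8a2) (nat_lit 0x1e44334abb36868) (nat_lit 0x0)
  (PL.C (nat_lit 0x261387e) (nat_lit 0x0) (nat_lit 0x21ae149981d805)
  (PL.C (nat_lit 0x26232be) (nat_lit 0x7f6009c75672f1e) (nat_lit 0x0)
  (PL.C (nat_lit 0x2625d0b) (nat_lit 0x9b696c9056a69c) (nat_lit 0x0)
  (PL.C (nat_lit 0x262be32) (nat_lit 0xa15d0168ea6fa) (nat_lit 0x0)
  (PL.C (nat_lit 0x262ff46) (nat_lit 0x0) (nat_lit 0x8460144a374abf3)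
  (PL.C (nat_lit 0x2640675) (nat_lit 0x73eb5567d65575a) (nat_lit 0x0)
  (PL.C (nat_lit 0x26451ae) (nat_lit 0x0) (nat_lit 0x96cb19d512e84f)
  (PL.C (nat_lit 0x2696084) (nat_lit 0x1c17aed7439db7b) (nat_lit 0x0)
  (PL.C (nat_lit 0x269e95f) (nat_lit 0x7bb8514a5437db2) (nat_lit 0x0)
  (PL.C (nat_lit 0x26a2f74) (nat_lit 0x0) (nat_lit 0xfcca0f98cff53)
  (PL.C (nat_lit 0x26a48c3) (nat_lit 0x0) (nat_lit 0x3573f087767358)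
  (PL.C (nat_lit 0x26b1ea1) (nat_lit 0x23b7707f61df228) (nat_lit 0x0)
  (PL.C (nat_lit 0x26c2616) (nat_lit 0x0) (nat_lit 0x7e265875ca72f1)
  (PL.C (nat_lit 0x26c4fec) (nat_lit 0x0) (nat_lit 0xea511e2b46deaa)
  (PL.C (nat_lit 0x26c8011) (nat_lit 0x0) (nat_lit 0x670e229c082d0)
  (PL.C (nat_lit 0x26cdab6) (nat_lit 0x0) (nat_lit 0x79a11471807c18c) gp1_1_69))))))))))))))))))))

noncomputable def gp1_1_67 : PL :=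
  (PL.C (nat_lit 0x24daff6) (nat_lit 0x0) (nat_lit 0x301026f0d8d2b0)
  (PL.C (nat_lit 0x24dd8d7) (nat_lit 0x7e1a3721944d28) (nat_lit 0x0)
  (PL.C (nat_lit 0x24e6abc) (nat_lit 0x1d1b0c57ef5b6b6) (nat_lit 0x0)
  (PL.C (nat_lit 0x24e759e) (nat_lit 0xfaeabb1defe3fb) (nat_lit 0x0)
  (PL.C (nat_lit 0x24fd13c) (nat_lit 0x0) (nat_lit 0x7709a275feb9a0)
  (PL.C (nat_lit 0x2502e2e) (nat_lit 0x3a6ee527ba5c50) (nat_lit 0x0)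
  (PL.C (nat_lit 0x250c599) (nat_lit 0x12b84ea2bc7d4c) (nat_lit 0x0)
  (PL.C (nat_lit 0x251228a) (nat_lit 0x0) (nat_lit 0x5d14865ed5820d8)
  (PL.C (nat_lit 0x2531b82) (nat_lit 0x12d11a0e930e857) (nat_lit 0x0)
  (PL.C (nat_lit 0x253956f) (nat_lit 0x0) (nat_lit 0xaf78cf37961ad9)
  (PL.C (nat_lit 0x2555c06) (nat_lit 0x1e182c928d800b9) (nat_lit 0x0)
  (PL.C (nat_lit 0x2562252) (nat_lit 0x1c3b7385748a70c) (nat_lit 0x0)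
  (PL.C (nat_lit 0x2563da6) (nat_lit 0x0) (nat_lit 0x8d2fc2c1a5c4348)
  (PL.C (nat_lit 0x2574dae) (nat_lit 0xb655f0687c4f2c) (nat_lit 0x0)
  (PL.C (nat_lit 0x258a3ce) (nat_lit 0x0) (nat_lit 0x3e17d6ffc30c7d)
  (PL.C (nat_lit 0x25a017a) (nat_lit 0x1a69f8ba465934d) (nat_lit 0x0)
  (PL.C (nat_lit 0x25c2e24) (nat_lit 0x463ce03a8bfc063) (nat_lit 0x0)
  (PL.C (nat_lit 0x25c7662) (nat_lit 0x0) (nat_lit 0x707cdf0f18c6b8)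
  (PL.C (nat_lit 0x25cb552) (nat_lit 0x0) (nat_lit 0x4b938450f1c2ad3)
  (PL.C (nat_lit 0x25d4489) (nat_lit 0x0) (nat_lit 0x6e8935165bc5e6) gp1_1_68))))))))))))))))))))

noncomputable def gp1_1_66 : PL :=
  (PL.C (nat_lit 0x237a9f2) (nat_lit 0xd14e2e4dcc5) (nat_lit 0x0)
  (PL.C (nat_lit 0x23a12c3) (nat_lit 0x0) (nat_lit 0x367f2b42071d94a)
  (PL.C (nat_lit 0x23a16ac) (nat_lit 0x0) (nat_lit 0x1e0949044b18e3)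
  (PL.C (nat_lit 0x23a922c) (nat_lit 0x1a420734a87b45a) (nat_lit 0x0)
  (PL.C (nat_lit 0x23aed21) (nat_lit 0x0) (nat_lit 0x12c31c26c8c1ae63)
  (PL.C (nat_lit 0x23c0adf) (nat_lit 0x1fc9256ea97f1fc) (nat_lit 0x0)
  (PL.C (nat_lit 0x23c49bc) (nat_lit 0x59124ada65f95f3) (nat_lit 0x0)
  (PL.C (nat_lit 0x23c664f) (nat_lit 0x0) (nat_lit 0x2f8f43847c49f60)
  (PL.C (nat_lit 0x23cf8fb) (nat_lit 0xbeabd52fec36c) (nat_lit 0x0)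
  (PL.C (nat_lit 0x23d516f) (nat_lit 0x0) (nat_lit 0x56c43506f72562)
  (PL.C (nat_lit 0x2400081) (nat_lit 0x0) (nat_lit 0xcb071be76075e)
  (PL.C (nat_lit 0x240bd44) (nat_lit 0x0) (nat_lit 0x692b5b4114d2fc)
  (PL.C (nat_lit 0x2441022) (nat_lit 0x0) (nat_lit 0x33cef86dbde962)
  (PL.C (nat_lit 0x246e758) (nat_lit 0x2b93a97cd29f9b) (nat_lit 0x0)
  (PL.C (nat_lit 0x2470b8d) (nat_lit 0x4bcf8c196c74bb) (nat_lit 0x0)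
  (PL.C (nat_lit 0x247344b) (nat_lit 0x2bd9d9e615e3392) (nat_lit 0x0)
  (PL.C (nat_lit 0x2494b69) (nat_lit 0x3d43711ab0c4a97) (nat_lit 0x0)
  (PL.C (nat_lit 0x249a572) (nat_lit 0x0) (nat_lit 0x1a5a96d0e8edb1e)
  (PL.C (nat_lit 0x24aca8e) (nat_lit 0x3ee04b13c58a7e) (nat_lit 0x0)
  (PL.C (nat_lit 0x24bebe8) (nat_lit 0x11fa647afe02bc3) (nat_lit 0x0) gp1_1_67))))))))))))))))))))

noncomputable def gp1_1_65 : PL :=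
  (PL.C (nat_lit 0x22c63a7) (nat_lit 0x2c99a172f573a) (nat_lit 0x0)
  (PL.C (nat_lit 0x22d6eee) (nat_lit 0x9d80a2aa2ea2c4) (nat_lit 0x0)
  (PL.C (nat_lit 0x22e6885) (nat_lit 0x0) (nat_lit 0x4ab7c14f1bea41)
  (PL.C (nat_lit 0x22edf32) (nat_lit 0x0) (nat_lit 0x8b5afb311b833a)
  (PL.C (nat_lit 0x22f23b1) (nat_lit 0x0) (nat_lit 0x574ca696fc82a7b)
  (PL.C (nat_lit 0x22fffdd) (nat_lit 0x126f2a3574e67ab) (nat_lit 0x0)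
  (PL.C (nat_lit 0x23093e4) (nat_lit 0x0) (nat_lit 0x17b7bbde50f8ad1)
  (PL.C (nat_lit 0x2311823) (nat_lit 0x107ff57d) (nat_lit 0x0)
  (PL.C (nat_lit 0x2313f8d) (nat_lit 0x35c0b3b8b6e53d) (nat_lit 0x0)
  (PL.C (nat_lit 0x23155cc) (nat_lit 0x4068a59145d5719) (nat_lit 0x0)
  (PL.C (nat_lit 0x23171d3) (nat_lit 0x0) (nat_lit 0x97d25374d99d13)
  (PL.C (nat_lit 0x2325873) (nat_lit 0x1cfc72b1697c7f) (nat_lit 0x0)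
  (PL.C (nat_lit 0x23375aa) (nat_lit 0x9a126521784a57) (nat_lit 0x0)
  (PL.C (nat_lit 0x233ddc4) (nat_lit 0xeccf14317f29b0) (nat_lit 0x0)
  (PL.C (nat_lit 0x2359eed) (nat_lit 0x0) (nat_lit 0xe1de8dc8852158)
  (PL.C (nat_lit 0x235d1f6) (nat_lit 0x338d050513f0e0) (nat_lit 0x0)
  (PL.C (nat_lit 0x2362ad4) (nat_lit 0x2bc800d8814d4d4) (nat_lit 0x0)
  (PL.C (nat_lit 0x2368f9e) (nat_lit 0xc1603e187cba41) (nat_lit 0x0)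
  (PL.C (nat_lit 0x2372c38) (nat_lit 0x0) (nat_lit 0x3d864b50c5ccc6)
  (PL.C (nat_lit 0x23783a9) (nat_lit 0x0) (nat_lit 0x3e5c50673f974c7) gp1_1_66))))))))))))))))))))

noncomputable def gp1_1_64 : PL :=
  (PL.C (nat_lit 0x218ae0a) (nat_lit 0xcb167c6e311b5) (nat_lit 0x0)
  (PL.C (nat_lit 0x219b2fe) (nat_lit 0x532e01cf773938) (nat_lit 0x0)
  (PL.C (nat_lit 0x219e06a) (nat_lit 0x28826ee1f5d41c) (nat_lit 0x0)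
  (PL.C (nat_lit 0x21bfef4) (nat_lit 0x0) (nat_lit 0xb61b2caf25e597)
  (PL.C (nat_lit 0x21cca17) (nat_lit 0x0) (nat_lit 0xa7b755b3a59640a)
  (PL.C (nat_lit 0x2208512) (nat_lit 0x3f8fd85483e4a20) (nat_lit 0x0)
  (PL.C (nat_lit 0x221ecce) (nat_lit 0x0) (nat_lit 0x1f20df8ed08eab4)
  (PL.C (nat_lit 0x221ffcc) (nat_lit 0xfc222001d3830d) (nat_lit 0x0)
  (PL.C (nat_lit 0x222cd0e) (nat_lit 0xe0ea414bce88b5) (nat_lit 0x0)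
  (PL.C (nat_lit 0x22326d2) (nat_lit 0x5ddc58e7baf0fc) (nat_lit 0x0)
  (PL.C (nat_lit 0x2238456) (nat_lit 0x1c5ce4843cbce06) (nat_lit 0x0)
  (PL.C (nat_lit 0x224702d) (nat_lit 0x4f99c526f27f83) (nat_lit 0x0)
  (PL.C (nat_lit 0x224c6ac) (nat_lit 0x2d72d2f8a27000) (nat_lit 0x0)
  (PL.C (nat_lit 0x224f7d4) (nat_lit 0x0) (nat_lit 0xa22846f62baaec)
  (PL.C (nat_lit 0x225d954) (nat_lit 0x0) (nat_lit 0x4c2260310d92cc)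
  (PL.C (nat_lit 0x225ff72) (nat_lit 0x40fb1830539f5) (nat_lit 0x0)
  (PL.C (nat_lit 0x2290d2c) (nat_lit 0x26d3b6101d586) (nat_lit 0x0)
  (PL.C (nat_lit 0x22a950c) (nat_lit 0x0) (nat_lit 0x392e9209d75944)
  (PL.C (nat_lit 0x22abb7e) (nat_lit 0x0) (nat_lit 0x803d588208d181)
  (PL.C (nat_lit 0x22ba72b) (nat_lit 0x190fa29db3d6778) (nat_lit 0x0) gp1_1_65))))))))))))))))))))

noncomputable def gp1_1_63 : PL :=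
  (PL.C (nat_lit 0x20a7b12) (nat_lit 0x0) (nat_lit 0x17bcddd0ba5b214)
  (PL.C (nat_lit 0x20a9c93) (nat_lit 0x548ddcb560999b) (nat_lit 0x0)
  (PL.C (nat_lit 0x20af5b5) (nat_lit 0x0) (nat_lit 0x95146a05ca01f)
  (PL.C (nat_lit 0x20bbe07) (nat_lit 0x0) (nat_lit 0x41ca84143c4c3f)
  (PL.C (nat_lit 0x20d1809) (nat_lit 0x19e8e33516d22f) (nat_lit 0x0)
  (PL.C (nat_lit 0x20eb9bd) (nat_lit 0x22e6d3ce4e9ee824) (nat_lit 0x0)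
  (PL.C (nat_lit 0x20f6886) (nat_lit 0x0) (nat_lit 0x5feed084fa643e)
  (PL.C (nat_lit 0x2107866) (nat_lit 0x0) (nat_lit 0x168472a1627224f)
  (PL.C (nat_lit 0x2116785) (nat_lit 0x41d731b7af78c2b) (nat_lit 0x0)
  (PL.C (nat_lit 0x212707b) (nat_lit 0x0) (nat_lit 0x1c216ef72c71dab)
  (PL.C (nat_lit 0x2139f4b) (nat_lit 0x0) (nat_lit 0x1fccf6678f18f3)
  (PL.C (nat_lit 0x213f2ca) (nat_lit 0x0) (nat_lit 0x29527de8b545d3)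
  (PL.C (nat_lit 0x2140628) (nat_lit 0xaee64bc9f84098) (nat_lit 0x0)
  (PL.C (nat_lit 0x214d4c9) (nat_lit 0x0) (nat_lit 0x109eda859c8fd55)
  (PL.C (nat_lit 0x2154732) (nat_lit 0x2256416d4905827) (nat_lit 0x0)
  (PL.C (nat_lit 0x215a0e3) (nat_lit 0x0) (nat_lit 0x1084e7beaaac192)
  (PL.C (nat_lit 0x215b786) (nat_lit 0x0) (nat_lit 0x4db9e27c252138f)
  (PL.C (nat_lit 0x217016d) (nat_lit 0x0) (nat_lit 0x237af67fa133619)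
  (PL.C (nat_lit 0x218402c) (nat_lit 0x0) (nat_lit 0x22d9b7b39cb1075)
  (PL.C (nat_lit 0x2189a98) (nat_lit 0x0) (nat_lit 0x165bd04ebecaa5) gp1_1_64))))))))))))))))))))

noncomputable def gp1_1_62 : PL :=
  (PL.C (nat_lit 0x200d45c) (nat_lit 0x48d52d474dd6e8) (nat_lit 0x0)
  (PL.C (nat_lit 0x200edf7) (nat_lit 0x0) (nat_lit 0x575a7880091258)
  (PL.C (nat_lit 0x201b142) (nat_lit 0xb6d57af21fa668) (nat_lit 0x0)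
  (PL.C (nat_lit 0x20246f6) (nat_lit 0x0) (nat_lit 0x43e38d1d450a5f7)
  (PL.C (nat_lit 0x2031a36) (nat_lit 0x0) (nat_lit 0xc31d093f1d570d)
  (PL.C (nat_lit 0x203a2f7) (nat_lit 0x0) (nat_lit 0x2d5868b5e57b89b)
  (PL.C (nat_lit 0x203b028) (nat_lit 0x0) (nat_lit 0x38fd970f2bea0)
  (PL.C (nat_lit 0x203c6de) (nat_lit 0x3e5ffdbb6bd3c43) (nat_lit 0x0)
  (PL.C (nat_lit 0x204a509) (nat_lit 0x1b5ddaf39014bd9d) (nat_lit 0x0)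
  (PL.C (nat_lit 0x205a3cc) (nat_lit 0x0) (nat_lit 0x5173f758fa068f)
  (PL.C (nat_lit 0x205cbf9) (nat_lit 0x0) (nat_lit 0x5e1df9c4757b4b)
  (PL.C (nat_lit 0x20745b1) (nat_lit 0x0) (nat_lit 0x2f5298c6797d84)
  (PL.C (nat_lit 0x207cef4) (nat_lit 0x0) (nat_lit 0x8d84e2b268ac6)
  (PL.C (nat_lit 0x207d642) (nat_lit 0x0) (nat_lit 0x8e5570fd07b5080)
  (PL.C (nat_lit 0x2082098) (nat_lit 0xdb82e8ac73101) (nat_lit 0x0)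
  (PL.C (nat_lit 0x2086e21) (nat_lit 0x1f1260bffdbcf4) (nat_lit 0x0)
  (PL.C (nat_lit 0x2089cbf) (nat_lit 0x12a4f959ebf844) (nat_lit 0x0)
  (PL.C (nat_lit 0x2099d1b) (nat_lit 0x1636f1a46d0e39a) (nat_lit 0x0)
  (PL.C (nat_lit 0x209d844) (nat_lit 0xff1357e192bb6) (nat_lit 0x0)
  (PL.C (nat_lit 0x20a64e9) (nat_lit 0x0) (nat_lit 0x9f5848f090eb41) gp1_1_63))))))))))))))))))))

noncomputable def gp1_1_61 : PL :=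
  (PL.C (nat_lit 0x1ecda37) (nat_lit 0x0) (nat_lit 0x22449d1711ece73)
  (PL.C (nat_lit 0x1f27c76) (nat_lit 0x0) (nat_lit 0x53356fdd92fbb6)
  (PL.C (nat_lit 0x1f2a692) (nat_lit 0x0) (nat_lit 0x487f19cb39eb49)
  (PL.C (nat_lit 0x1f43d7c) (nat_lit 0xd444e7d2f9af97) (nat_lit 0x0)
  (PL.C (nat_lit 0x1f4e014) (nat_lit 0x2de00ae9cb3424) (nat_lit 0x0)
  (PL.C (nat_lit 0x1f50c09) (nat_lit 0xb741a6452259ee) (nat_lit 0x0)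
  (PL.C (nat_lit 0x1f57593) (nat_lit 0x0) (nat_lit 0x1053724134f6583)
  (PL.C (nat_lit 0x1f65d0a) (nat_lit 0x76406f237a56def) (nat_lit 0x0)
  (PL.C (nat_lit 0x1f7cac4) (nat_lit 0x0) (nat_lit 0x31e5214d1ae8bec)
  (PL.C (nat_lit 0x1f8eb1a) (nat_lit 0xb519b551f3c11f) (nat_lit 0x0)
  (PL.C (nat_lit 0x1fae6f5) (nat_lit 0x125fafddc51cb0) (nat_lit 0x0)
  (PL.C (nat_lit 0x1fb5bda) (nat_lit 0x9077b27840737a) (nat_lit 0x0)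
  (PL.C (nat_lit 0x1fbbb9c) (nat_lit 0x0) (nat_lit 0xcdf6539e7fd67b)
  (PL.C (nat_lit 0x1fc8d41) (nat_lit 0x3afd82d77cbe74) (nat_lit 0x0)
  (PL.C (nat_lit 0x1fe05b4) (nat_lit 0x60a585c45991d7d) (nat_lit 0x0)
  (PL.C (nat_lit 0x1fed84b) (nat_lit 0x8efab925566a44) (nat_lit 0x0)
  (PL.C (nat_lit 0x1ff9bf9) (nat_lit 0xc72d66472939cb) (nat_lit 0x0)
  (PL.C (nat_lit 0x2001a84) (nat_lit 0x16a57d86356a6d) (nat_lit 0x0)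
  (PL.C (nat_lit 0x2004243) (nat_lit 0x18eb17a578dacb) (nat_lit 0x0)
  (PL.C (nat_lit 0x2009c07) (nat_lit 0x0) (nat_lit 0x72e4c9ce22eb5) gp1_1_62))))))))))))))))))))

noncomputable def gp1_1_60 : PL :=
  (PL.C (nat_lit 0x1e0a9e9) (nat_lit 0x0) (nat_lit 0x37a00cfcd83787f)
  (PL.C (nat_lit 0x1e0ee84) (nat_lit 0x26ee405ce36bc59) (nat_lit 0x0)
  (PL.C (nat_lit 0x1e13b0f) (nat_lit 0x0) (nat_lit 0x30e577b60dc278d)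
  (PL.C (nat_lit 0x1e1f365) (nat_lit 0x0) (nat_lit 0x4c6689f3ca8908e)
  (PL.C (nat_lit 0x1e2e49b) (nat_lit 0x20e3937f2d682a6) (nat_lit 0x0)
  (PL.C (nat_lit 0x1e319ac) (nat_lit 0x61bcd3bd061f5f8) (nat_lit 0x0)
  (PL.C (nat_lit 0x1e331cb) (nat_lit 0x0) (nat_lit 0x6d58782a324ee0)
  (PL.C (nat_lit 0x1e49a7f) (nat_lit 0xa71d4b9a7788c2) (nat_lit 0x0)
  (PL.C (nat_lit 0x1e5125c) (nat_lit 0x42f147746312139) (nat_lit 0x0)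
  (PL.C (nat_lit 0x1e63c45) (nat_lit 0x0) (nat_lit 0x3b4210624ad1730)
  (PL.C (nat_lit 0x1e696f8) (nat_lit 0x0) (nat_lit 0x429bc9a56bee35)
  (PL.C (nat_lit 0x1e86b11) (nat_lit 0x5b5dfa8687ff24) (nat_lit 0x0)
  (PL.C (nat_lit 0x1e8c8a8) (nat_lit 0x2b62a3eeeb3f3d) (nat_lit 0x0)
  (PL.C (nat_lit 0x1e8f21e) (nat_lit 0x0) (nat_lit 0x127beee665ba1e5)
  (PL.C (nat_lit 0x1ea093e) (nat_lit 0x63f67f3d05c16a) (nat_lit 0x0)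
  (PL.C (nat_lit 0x1ea4e02) (nat_lit 0x0) (nat_lit 0xb5151a578338b3)
  (PL.C (nat_lit 0x1ea50d4) (nat_lit 0x2c9d72be6aa6da) (nat_lit 0x0)
  (PL.C (nat_lit 0x1eac748) (nat_lit 0x0) (nat_lit 0x1b2417723e72bc)
  (PL.C (nat_lit 0x1eae6f9) (nat_lit 0x0) (nat_lit 0x1b2fb4c1ed165e5)
  (PL.C (nat_lit 0x1ec50b7) (nat_lit 0x0) (nat_lit 0x25ed4d48f6124fb) gp1_1_61))))))))))))))))))))

noncomputable def gp1_1_59 : PL :=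
  (PL.C (nat_lit 0x1d68964) (nat_lit 0xb4caba113885eba) (nat_lit 0x0)
  (PL.C (nat_lit 0x1d6ce8c) (nat_lit 0x0) (nat_lit 0x3cbf4a1574c0f1)
  (PL.C (nat_lit 0x1d7cdef) (nat_lit 0x0) (nat_lit 0xe8d1abbb918545)
  (PL.C (nat_lit 0x1d80035) (nat_lit 0xe531acfe3f90ed) (nat_lit 0x0)
  (PL.C (nat_lit 0x1d874f4) (nat_lit 0x0) (nat_lit 0x4873f705300b71c)
  (PL.C (nat_lit 0x1d8ba11) (nat_lit 0x3302651ec630c4) (nat_lit 0x0)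
  (PL.C (nat_lit 0x1d8ee04) (nat_lit 0xcce1ec872a50ad) (nat_lit 0x0)
  (PL.C (nat_lit 0x1d905a1) (nat_lit 0x2365027ffd66bc) (nat_lit 0x0)
  (PL.C (nat_lit 0x1d9a32c) (nat_lit 0x24e1a03bb9d944) (nat_lit 0x0)
  (PL.C (nat_lit 0x1d9d5a4) (nat_lit 0x459bfab49208ac2) (nat_lit 0x0)
  (PL.C (nat_lit 0x1d9f25f) (nat_lit 0x226d88b2bc310d) (nat_lit 0x0)
  (PL.C (nat_lit 0x1da66bd) (nat_lit 0x0) (nat_lit 0x6d3ba9af45fc7e)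
  (PL.C (nat_lit 0x1dadc14) (nat_lit 0x0) (nat_lit 0x8525fa8a1d1105)
  (PL.C (nat_lit 0x1db00ef) (nat_lit 0x0) (nat_lit 0x206698a19cfa5)
  (PL.C (nat_lit 0x1dba5d2) (nat_lit 0x13dfa192adf03cf) (nat_lit 0x0)
  (PL.C (nat_lit 0x1dc4933) (nat_lit 0xd2a568e37ef9e8) (nat_lit 0x0)
  (PL.C (nat_lit 0x1dce00e) (nat_lit 0x0) (nat_lit 0x40a1086f4fe2f6a)
  (PL.C (nat_lit 0x1de4caf) (nat_lit 0x0) (nat_lit 0xab83946b5d2e)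
  (PL.C (nat_lit 0x1df120d) (nat_lit 0x8312a135837853) (nat_lit 0x0)
  (PL.C (nat_lit 0x1df68b8) (nat_lit 0x0) (nat_lit 0x2b6f27fad6a059) gp1_1_60))))))))))))))))))))

noncomputable def gp1_1_58 : PL :=
  (PL.C (nat_lit 0x1c90233) (nat_lit 0x1bd20eab3555756) (nat_lit 0x0)
  (PL.C (nat_lit 0x1c949fa) (nat_lit 0x1229b4b0e4e36e4) (nat_lit 0x0)
  (PL.C (nat_lit 0x1cba8da) (nat_lit 0x3c49de07b4a0f8) (nat_lit 0x0)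
  (PL.C (nat_lit 0x1ccd886) (nat_lit 0x0) (nat_lit 0x1e1529e5f10e004)
  (PL.C (nat_lit 0x1cd51e4) (nat_lit 0x1927aa443ff3fbd) (nat_lit 0x0)
  (PL.C (nat_lit 0x1cd5b3a) (nat_lit 0x0) (nat_lit 0x1c5578bc2222f5)
  (PL.C (nat_lit 0x1cd830c) (nat_lit 0x0) (nat_lit 0x6390c32cf1c1fd)
  (PL.C (nat_lit 0x1cde19a) (nat_lit 0x44c732115ad1ad) (nat_lit 0x0)
  (PL.C (nat_lit 0x1ce105f) (nat_lit 0x12fc2319d97231) (nat_lit 0x0)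
  (PL.C (nat_lit 0x1ce3b8e) (nat_lit 0xf7c2e679e758d0) (nat_lit 0x0)
  (PL.C (nat_lit 0x1ce629a) (nat_lit 0x147d7e55482e77) (nat_lit 0x0)
  (PL.C (nat_lit 0x1cef7a1) (nat_lit 0x0) (nat_lit 0x21957d826476cb)
  (PL.C (nat_lit 0x1cf6a24) (nat_lit 0x2bc99838a91cdb5) (nat_lit 0x0)
  (PL.C (nat_lit 0x1cfdbec) (nat_lit 0x0) (nat_lit 0x2d68e981139bf07)
  (PL.C (nat_lit 0x1d0c414) (nat_lit 0x0) (nat_lit 0x9e64d9b5a0b69)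
  (PL.C (nat_lit 0x1d0e39f) (nat_lit 0x1943be8115728096) (nat_lit 0x0)
  (PL.C (nat_lit 0x1d1d3f2) (nat_lit 0x0) (nat_lit 0xab405966bf576c0)
  (PL.C (nat_lit 0x1d46cac) (nat_lit 0x0) (nat_lit 0x87da578f456f9d)
  (PL.C (nat_lit 0x1d4c44c) (nat_lit 0x96704ce14f232) (nat_lit 0x0)
  (PL.C (nat_lit 0x1d65bc2) (nat_lit 0x16b908eef6be34a) (nat_lit 0x0) gp1_1_59))))))))))))))))))))

noncomputable def gp1_1_57 : PL :=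
  (PL.C (nat_lit 0x1ba1c08) (nat_lit 0x5b79f62e17c638) (nat_lit 0x0)
  (PL.C (nat_lit 0x1bbe6da) (nat_lit 0x1f3347746c51a4) (nat_lit 0x0)
  (PL.C (nat_lit 0x1bc3aa1) (nat_lit 0x0) (nat_lit 0x549581ebf5cb82)
  (PL.C (nat_lit 0x1bca371) (nat_lit 0x0) (nat_lit 0x50cbcf7f357fd81)
  (PL.C (nat_lit 0x1be1c7e) (nat_lit 0x0) (nat_lit 0x184ea555bdf10f2)
  (PL.C (nat_lit 0x1be3b6b) (nat_lit 0x0) (nat_lit 0x9e378d72eea4df)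
  (PL.C (nat_lit 0x1beb206) (nat_lit 0x2b1cd777049784c) (nat_lit 0x0)
  (PL.C (nat_lit 0x1beda54) (nat_lit 0x0) (nat_lit 0xda10b1c8b4507c)
  (PL.C (nat_lit 0x1bee659) (nat_lit 0x0) (nat_lit 0x2baa72d6b14b1b0)
  (PL.C (nat_lit 0x1c00d97) (nat_lit 0x2c114902d989192) (nat_lit 0x0)
  (PL.C (nat_lit 0x1c1433b) (nat_lit 0x63af68bb33b3391) (nat_lit 0x0)
  (PL.C (nat_lit 0x1c22b7a) (nat_lit 0x54ea0b2d114afb) (nat_lit 0x0)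
  (PL.C (nat_lit 0x1c4284e) (nat_lit 0x0) (nat_lit 0x2eb9b92950b6a1)
  (PL.C (nat_lit 0x1c4addc) (nat_lit 0x0) (nat_lit 0x95d98c7518799b)
  (PL.C (nat_lit 0x1c562d6) (nat_lit 0x0) (nat_lit 0x6054af7f31576e)
  (PL.C (nat_lit 0x1c71a1d) (nat_lit 0x111dc46b0935d91) (nat_lit 0x0)
  (PL.C (nat_lit 0x1c76e32) (nat_lit 0x0) (nat_lit 0x13b0c205d28cc65)
  (PL.C (nat_lit 0x1c7fde3) (nat_lit 0x1f7630a116ef476) (nat_lit 0x0)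
  (PL.C (nat_lit 0x1c81ca6) (nat_lit 0x13ef4a54eb3728b) (nat_lit 0x0)
  (PL.C (nat_lit 0x1c882b3) (nat_lit 0xe6f792a7cfe74b) (nat_lit 0x0) gp1_1_58))))))))))))))))))))

noncomputable def gp1_1_56 : PL :=
  (PL.C (nat_lit 0x1afa63c) (nat_lit 0x0) (nat_lit 0x67c204edda7841)
  (PL.C (nat_lit 0x1afd524) (nat_lit 0x0) (nat_lit 0xfc4e69f07f428f)
  (PL.C (nat_lit 0x1b04b94) (nat_lit 0x0) (nat_lit 0xb2ca25c75aaa6)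
  (PL.C (nat_lit 0x1b0fe13) (nat_lit 0x68725e1ca561ec) (nat_lit 0x0)
  (PL.C (nat_lit 0x1b1692c) (nat_lit 0x8cb297030da470) (nat_lit 0x0)
  (PL.C (nat_lit 0x1b2214e) (nat_lit 0x0) (nat_lit 0x17aee1b33243ad4)
  (PL.C (nat_lit 0x1b34713) (nat_lit 0x273a9cc20b31ec9) (nat_lit 0x0)
  (PL.C (nat_lit 0x1b420ed) (nat_lit 0x5e22fbe3ffe6942) (nat_lit 0x0)
  (PL.C (nat_lit 0x1b4268a) (nat_lit 0x0) (nat_lit 0x2d0b7bdb00b3b5)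
  (PL.C (nat_lit 0x1b4f7fc) (nat_lit 0x38c00b0202a71bf) (nat_lit 0x0)
  (PL.C (nat_lit 0x1b57dcb) (nat_lit 0x0) (nat_lit 0x2d81d3fb2d902e)
  (PL.C (nat_lit 0x1b5ac69) (nat_lit 0x0) (nat_lit 0xb9bc19e3159d20)
  (PL.C (nat_lit 0x1b6d2ca) (nat_lit 0x0) (nat_lit 0x1cfe24cbdf562e9)
  (PL.C (nat_lit 0x1b7cdf1) (nat_lit 0x0) (nat_lit 0x212f8fbfc59bb84)
  (PL.C (nat_lit 0x1b81cf6) (nat_lit 0x7b9e93aa286ab9) (nat_lit 0x0)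
  (PL.C (nat_lit 0x1b8aa0f) (nat_lit 0x0) (nat_lit 0x3f64a620c033f5)
  (PL.C (nat_lit 0x1b8f07f) (nat_lit 0xd01c19511e73c1) (nat_lit 0x0)
  (PL.C (nat_lit 0x1b8ffd6) (nat_lit 0x25cccdaf84eb4dc) (nat_lit 0x0)
  (PL.C (nat_lit 0x1b9a59f) (nat_lit 0x97c0d1262df7e9) (nat_lit 0x0)
  (PL.C (nat_lit 0x1ba12dc) (nat_lit 0x0) (nat_lit 0xfa78d6ecb7f7b) gp1_1_57))))))))))))))))))))

noncomputable def gp1_1_55 : PL :=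
  (PL.C (nat_lit 0x19f60b3) (nat_lit 0x1fd342b1de347db) (nat_lit 0x0)
  (PL.C (nat_lit 0x19ffa66) (nat_lit 0x3f11ec2ba23b7) (nat_lit 0x0)
  (PL.C (nat_lit 0x1a00b53) (nat_lit 0x2a37ac4c0a0349b) (nat_lit 0x0)
  (PL.C (nat_lit 0x1a096c7) (nat_lit 0x0) (nat_lit 0x38d24294b6dcf8e)
  (PL.C (nat_lit 0x1a126d6) (nat_lit 0x0) (nat_lit 0x17402f4bab609d)
  (PL.C (nat_lit 0x1a2653c) (nat_lit 0x0) (nat_lit 0x2a977b6bb7384c)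
  (PL.C (nat_lit 0x1a2c5b8) (nat_lit 0x0) (nat_lit 0x26463cd8e56f728)
  (PL.C (nat_lit 0x1a3c1cc) (nat_lit 0x0) (nat_lit 0x284a4ad400a114)
  (PL.C (nat_lit 0x1a4ccce) (nat_lit 0xa10f9995cbf0627) (nat_lit 0x0)
  (PL.C (nat_lit 0x1a57d72) (nat_lit 0x0) (nat_lit 0x27a9b1382cc79e)
  (PL.C (nat_lit 0x1a600f1) (nat_lit 0x9eafcc034c2470) (nat_lit 0x0)
  (PL.C (nat_lit 0x1a75ed4) (nat_lit 0x15450477fcfd14c) (nat_lit 0x0)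
  (PL.C (nat_lit 0x1a812b2) (nat_lit 0x7e4cb3c65809827) (nat_lit 0x0)
  (PL.C (nat_lit 0x1a99ad4) (nat_lit 0xf2c5482ec8b53b5) (nat_lit 0x0)
  (PL.C (nat_lit 0x1abc4f4) (nat_lit 0x122446175850db6) (nat_lit 0x0)
  (PL.C (nat_lit 0x1abe789) (nat_lit 0x0) (nat_lit 0x36aab315c01e20)
  (PL.C (nat_lit 0x1ac9b0c) (nat_lit 0x1027f953a0b44d5) (nat_lit 0x0)
  (PL.C (nat_lit 0x1ad4c05) (nat_lit 0x0) (nat_lit 0x35476e91b12f1b)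
  (PL.C (nat_lit 0x1adb634) (nat_lit 0xa12b9b7437ee28) (nat_lit 0x0)
  (PL.C (nat_lit 0x1aeb981) (nat_lit 0x0) (nat_lit 0x1f54024697e1c) gp1_1_56))))))))))))))))))))

noncomputable def gp1_1_54 : PL :=
  (PL.C (nat_lit 0x1939eff) (nat_lit 0x6865a364970748) (nat_lit 0x0)
  (PL.C (nat_lit 0x1944cfa) (nat_lit 0x0) (nat_lit 0x59da2a8f275a22)
  (PL.C (nat_lit 0x1946901) (nat_lit 0x0) (nat_lit 0x2521b2fc716b43c)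
  (PL.C (nat_lit 0x1947968) (nat_lit 0x0) (nat_lit 0x862c7251ed053)
  (PL.C (nat_lit 0x1948d9a) (nat_lit 0x0) (nat_lit 0x3acb1cefaecf56)
  (PL.C (nat_lit 0x195306c) (nat_lit 0x4d45e9cd91f677e) (nat_lit 0x0)
  (PL.C (nat_lit 0x195c14d) (nat_lit 0x0) (nat_lit 0x52830f2d7d18d8d)
  (PL.C (nat_lit 0x196e8b2) (nat_lit 0x79a4b2f79fc17dd) (nat_lit 0x0)
  (PL.C (nat_lit 0x197d195) (nat_lit 0x0) (nat_lit 0x180d2ad6dfdd8ab)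
  (PL.C (nat_lit 0x197e437) (nat_lit 0x972375865d4653) (nat_lit 0x0)
  (PL.C (nat_lit 0x198044e) (nat_lit 0x0) (nat_lit 0x4b804ab15660ebd)
  (PL.C (nat_lit 0x1983674) (nat_lit 0x0) (nat_lit 0x626e2eea21ccd8)
  (PL.C (nat_lit 0x19bf0ea) (nat_lit 0x16e48a034a331be) (nat_lit 0x0)
  (PL.C (nat_lit 0x19c3082) (nat_lit 0x0) (nat_lit 0x4e682a798000ae)
  (PL.C (nat_lit 0x19c4d15) (nat_lit 0x1ed154223926926) (nat_lit 0x0)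
  (PL.C (nat_lit 0x19cbf16) (nat_lit 0x311ec00025f38c0) (nat_lit 0x0)
  (PL.C (nat_lit 0x19daab6) (nat_lit 0x47ca06957b39f2) (nat_lit 0x0)
  (PL.C (nat_lit 0x19de724) (nat_lit 0x1ad0615fab07aa7) (nat_lit 0x0)
  (PL.C (nat_lit 0x19e355e) (nat_lit 0xa4f66f3d790088) (nat_lit 0x0)
  (PL.C (nat_lit 0x19ee7c9) (nat_lit 0x5c5b00fdeca2eb) (nat_lit 0x0) gp1_1_55))))))))))))))))))))

noncomputable def gp1_1_53 : PL :=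
  (PL.C (nat_lit 0x1802d51) (nat_lit 0x7df6f873c5ea76d) (nat_lit 0x0)
  (PL.C (nat_lit 0x1812b1f) (nat_lit 0x0) (nat_lit 0xe992b554b04fcd)
  (PL.C (nat_lit 0x182b56c) (nat_lit 0x0) (nat_lit 0x9cbfa78a40f268)
  (PL.C (nat_lit 0x1830b25) (nat_lit 0x2842492ac999b) (nat_lit 0x0)
  (PL.C (nat_lit 0x184b25e) (nat_lit 0x0) (nat_lit 0x773d9d77c2e670)
  (PL.C (nat_lit 0x1863246) (nat_lit 0x0) (nat_lit 0x7d8b18858de97dd)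
  (PL.C (nat_lit 0x1866e4c) (nat_lit 0x0) (nat_lit 0x2cd8af4d1dbc470)
  (PL.C (nat_lit 0x18731b4) (nat_lit 0x1e541434f8faaf) (nat_lit 0x0)
  (PL.C (nat_lit 0x188705b) (nat_lit 0x0) (nat_lit 0x5528913510904f1)
  (PL.C (nat_lit 0x1893b3a) (nat_lit 0x0) (nat_lit 0x2e578cb0bd039ba)
  (PL.C (nat_lit 0x18ac974) (nat_lit 0x2526e5369a41ee) (nat_lit 0x0)
  (PL.C (nat_lit 0x18b2e66) (nat_lit 0x1772a9a54a12d1) (nat_lit 0x0)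
  (PL.C (nat_lit 0x18b6c5c) (nat_lit 0x0) (nat_lit 0x6575a7e926f20fa)
  (PL.C (nat_lit 0x18d0e4a) (nat_lit 0x0) (nat_lit 0xd015f1e789906f)
  (PL.C (nat_lit 0x18ec18c) (nat_lit 0x20cb18f8d02bee7) (nat_lit 0x0)
  (PL.C (nat_lit 0x18ed3c4) (nat_lit 0xb8e59aaf0b535) (nat_lit 0x0)
  (PL.C (nat_lit 0x18f4de5) (nat_lit 0x0) (nat_lit 0x8a21557cef1ba2)
  (PL.C (nat_lit 0x1929603) (nat_lit 0x6cc2301dea3a8b) (nat_lit 0x0)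
  (PL.C (nat_lit 0x193238c) (nat_lit 0x1055b2c7017e86ed) (nat_lit 0x0)
  (PL.C (nat_lit 0x1938306) (nat_lit 0x0) (nat_lit 0xccdc3758b1b21b) gp1_1_54))))))))))))))))))))

noncomputable def gp1_1_52 : PL :=
  (PL.C (nat_lit 0x17494cc) (nat_lit 0x269f678a434003) (nat_lit 0x0)
  (PL.C (nat_lit 0x174c276) (nat_lit 0x0) (nat_lit 0x88354a63d322109)
  (PL.C (nat_lit 0x1750ed5) (nat_lit 0x47bbd891168b4c) (nat_lit 0x0)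
  (PL.C (nat_lit 0x175553e) (nat_lit 0x85a45258643221) (nat_lit 0x0)
  (PL.C (nat_lit 0x1762a5e) (nat_lit 0x0) (nat_lit 0x20771944d2feb4)
  (PL.C (nat_lit 0x1764be2) (nat_lit 0x34635c7ba35ec9) (nat_lit 0x0)
  (PL.C (nat_lit 0x1783ee1) (nat_lit 0x1268b7c65905c09) (nat_lit 0x0)
  (PL.C (nat_lit 0x179149e) (nat_lit 0x0) (nat_lit 0x31ef28659dbbe04)
  (PL.C (nat_lit 0x17936a4) (nat_lit 0x0) (nat_lit 0x1c136597d6125a2)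
  (PL.C (nat_lit 0x179b514) (nat_lit 0x9491077b57bc80) (nat_lit 0x0)
  (PL.C (nat_lit 0x17a57c6) (nat_lit 0x0) (nat_lit 0x9b7349d7b71da20)
  (PL.C (nat_lit 0x17a714c) (nat_lit 0x0) (nat_lit 0x1307360bb20dc2)
  (PL.C (nat_lit 0x17b3f67) (nat_lit 0x0) (nat_lit 0x555315af8861e5c)
  (PL.C (nat_lit 0x17c0c82) (nat_lit 0x0) (nat_lit 0x5c7e81c79bb7df1)
  (PL.C (nat_lit 0x17c9e16) (nat_lit 0x0) (nat_lit 0x8a36118d4ee9174)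
  (PL.C (nat_lit 0x17d998a) (nat_lit 0x0) (nat_lit 0x70c7f3b5f934475)
  (PL.C (nat_lit 0x17dfb52) (nat_lit 0x3f09f2d363a02e) (nat_lit 0x0)
  (PL.C (nat_lit 0x17e364a) (nat_lit 0x0) (nat_lit 0x783ad133dd7e8a)
  (PL.C (nat_lit 0x17e50c9) (nat_lit 0x0) (nat_lit 0x26d6a45faa2571b)
  (PL.C (nat_lit 0x1800056) (nat_lit 0x1c00e8249f44039) (nat_lit 0x0) gp1_1_53))))))))))))))))))))

noncomputable def gp1_1_51 : PL :=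
  (PL.C (nat_lit 0x166959c) (nat_lit 0x117462694be2ab) (nat_lit 0x0)
  (PL.C (nat_lit 0x166e519) (nat_lit 0xa46663a7466b0) (nat_lit 0x0)
  (PL.C (nat_lit 0x1685217) (nat_lit 0x0) (nat_lit 0xb579f060324f80)
  (PL.C (nat_lit 0x16886ba) (nat_lit 0x0) (nat_lit 0xeabb8847f8c4a90)
  (PL.C (nat_lit 0x16b9945) (nat_lit 0x42bb87cd3fb0ec) (nat_lit 0x0)
  (PL.C (nat_lit 0x16bf334) (nat_lit 0x0) (nat_lit 0x125bffdeecfbb05)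
  (PL.C (nat_lit 0x16c88b4) (nat_lit 0x0) (nat_lit 0x13a105040e71cb)
  (PL.C (nat_lit 0x16cc48c) (nat_lit 0x1785fcb2239bc27) (nat_lit 0x0)
  (PL.C (nat_lit 0x16d02e4) (nat_lit 0x3ba7a091c2fda8) (nat_lit 0x0)
  (PL.C (nat_lit 0x16da01e) (nat_lit 0x0) (nat_lit 0x1267bc08ecce20f)
  (PL.C (nat_lit 0x16dd9c8) (nat_lit 0x3ab2449e3207f0) (nat_lit 0x0)
  (PL.C (nat_lit 0x16e9cf3) (nat_lit 0x0) (nat_lit 0x88ebb448c5dc98)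
  (PL.C (nat_lit 0x16eaa4c) (nat_lit 0x0) (nat_lit 0x11eb4ac6e8d18f2)
  (PL.C (nat_lit 0x17063f1) (nat_lit 0xf61f871b38de3) (nat_lit 0x0)
  (PL.C (nat_lit 0x171d254) (nat_lit 0x0) (nat_lit 0x48b0ea121d82260)
  (PL.C (nat_lit 0x1726f72) (nat_lit 0x24a22a1d8b2d1f9) (nat_lit 0x0)
  (PL.C (nat_lit 0x172ed1a) (nat_lit 0x0) (nat_lit 0x9457b8fe8768)
  (PL.C (nat_lit 0x1734375) (nat_lit 0x0) (nat_lit 0x4308fbc26871e5)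
  (PL.C (nat_lit 0x17438bb) (nat_lit 0x110ebaf0132836c) (nat_lit 0x0)
  (PL.C (nat_lit 0x17445ae) (nat_lit 0x0) (nat_lit 0x17fceb07af3698d) gp1_1_52))))))))))))))))))))

noncomputable def gp1_1_50 : PL :=
  (PL.C (nat_lit 0x15c6862) (nat_lit 0x0) (nat_lit 0x1189d44db024cab)
  (PL.C (nat_lit 0x15ca3ce) (nat_lit 0x0) (nat_lit 0x179c7041d07a28)
  (PL.C (nat_lit 0x15d295a) (nat_lit 0x0) (nat_lit 0x1bef31562af1ac8)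
  (PL.C (nat_lit 0x15e1006) (nat_lit 0xea2b3e39f82a85) (nat_lit 0x0)
  (PL.C (nat_lit 0x15e3ead) (nat_lit 0x0) (nat_lit 0xe53d7c7ef983c)
  (PL.C (nat_lit 0x15ea4bf) (nat_lit 0x54983bffb2c73a2) (nat_lit 0x0)
  (PL.C (nat_lit 0x15f267e) (nat_lit 0x0) (nat_lit 0x558460371f92b36)
  (PL.C (nat_lit 0x15f9b04) (nat_lit 0x0) (nat_lit 0x2ef2482b127a04)
  (PL.C (nat_lit 0x1605044) (nat_lit 0x0) (nat_lit 0xef82d2004d406e)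
  (PL.C (nat_lit 0x160efae) (nat_lit 0x14bc77e3caf0ab9) (nat_lit 0x0)
  (PL.C (nat_lit 0x161a052) (nat_lit 0x1d47d6c7e864e4c) (nat_lit 0x0)
  (PL.C (nat_lit 0x1626a32) (nat_lit 0x0) (nat_lit 0xb1f56aaf05be95)
  (PL.C (nat_lit 0x1626f2d) (nat_lit 0x1c6ec8f8e2e25d5d) (nat_lit 0x0)
  (PL.C (nat_lit 0x162a1dc) (nat_lit 0xf527fd7b8abe8) (nat_lit 0x0)
  (PL.C (nat_lit 0x1633886) (nat_lit 0x0) (nat_lit 0x6f98967b6a865d1)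
  (PL.C (nat_lit 0x16384cc) (nat_lit 0x0) (nat_lit 0x9d587e7637374)
  (PL.C (nat_lit 0x164ab9e) (nat_lit 0x0) (nat_lit 0x14bdce0fa734adc)
  (PL.C (nat_lit 0x1651431) (nat_lit 0x7b81621ad13bb7) (nat_lit 0x0)
  (PL.C (nat_lit 0x165c95c) (nat_lit 0x1cb03720eb2120) (nat_lit 0x0)
  (PL.C (nat_lit 0x1667754) (nat_lit 0x3e076997ad4c21) (nat_lit 0x0) gp1_1_51))))))))))))))))))))

noncomputable def gp1_1_49 : PL :=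
  (PL.C (nat_lit 0x1523d3c) (nat_lit 0x6d9c8fd0c03ccf) (nat_lit 0x0)
  (PL.C (nat_lit 0x15308d6) (nat_lit 0x5820e663a86fa8) (nat_lit 0x0)
  (PL.C (nat_lit 0x153e07f) (nat_lit 0x75c91f092b4370d) (nat_lit 0x0)
  (PL.C (nat_lit 0x1549032) (nat_lit 0x266f6a70a6d6477) (nat_lit 0x0)
  (PL.C (nat_lit 0x15512a6) (nat_lit 0x53cd401764b215) (nat_lit 0x0)
  (PL.C (nat_lit 0x1558182) (nat_lit 0x0) (nat_lit 0x11a89d05377c85a)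
  (PL.C (nat_lit 0x155e2e8) (nat_lit 0x9e97cc50bff94) (nat_lit 0x0)
  (PL.C (nat_lit 0x155f3fa) (nat_lit 0x0) (nat_lit 0x169e60e770f6e6e)
  (PL.C (nat_lit 0x156762c) (nat_lit 0xe9224228265e3a) (nat_lit 0x0)
  (PL.C (nat_lit 0x1568541) (nat_lit 0x0) (nat_lit 0x316cac9e2678896)
  (PL.C (nat_lit 0x157c1fa) (nat_lit 0x0) (nat_lit 0xb12acfe0e31b427)
  (PL.C (nat_lit 0x1586e06) (nat_lit 0xe7f860cf5d58d71) (nat_lit 0x0)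
  (PL.C (nat_lit 0x15932a6) (nat_lit 0x0) (nat_lit 0x1d22d6cf430f26f)
  (PL.C (nat_lit 0x15a2e76) (nat_lit 0x0) (nat_lit 0x166bf531b0d35f4)
  (PL.C (nat_lit 0x15a89f8) (nat_lit 0xb196acefe443c) (nat_lit 0x0)
  (PL.C (nat_lit 0x15af416) (nat_lit 0x38d7465faa315f) (nat_lit 0x0)
  (PL.C (nat_lit 0x15b132a) (nat_lit 0xbf194d34c76b86) (nat_lit 0x0)
  (PL.C (nat_lit 0x15bbe12) (nat_lit 0x0) (nat_lit 0x23522c3015e68b7)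
  (PL.C (nat_lit 0x15c4346) (nat_lit 0x0) (nat_lit 0x99c01cf3838534)
  (PL.C (nat_lit 0x15c520c) (nat_lit 0x906f876de38316) (nat_lit 0x0) gp1_1_50))))))))))))))))))))

noncomputable def gp1_1_48 : PL :=
  (PL.C (nat_lit 0x142fb2d) (nat_lit 0x844d9d0421714) (nat_lit 0x0)
  (PL.C (nat_lit 0x14311aa) (nat_lit 0x9f4fd4ba61fd74) (nat_lit 0x0)
  (PL.C (nat_lit 0x144282e) (nat_lit 0x1714ed45248d34e) (nat_lit 0x0)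
  (PL.C (nat_lit 0x144c5c1) (nat_lit 0x0) (nat_lit 0x739ad575be71e)
  (PL.C (nat_lit 0x1459cb6) (nat_lit 0x2e59c2002a88d72) (nat_lit 0x0)
  (PL.C (nat_lit 0x146b0d4) (nat_lit 0x0) (nat_lit 0x3404a492b3933f)
  (PL.C (nat_lit 0x146deac) (nat_lit 0x486af23ce5b2bc) (nat_lit 0x0)
  (PL.C (nat_lit 0x14744a6) (nat_lit 0x0) (nat_lit 0x168649d60d8a6ee)
  (PL.C (nat_lit 0x1479177) (nat_lit 0x0) (nat_lit 0x3b580f1bf278e)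
  (PL.C (nat_lit 0x148917a) (nat_lit 0x0) (nat_lit 0x8f0d1332dd18e8)
  (PL.C (nat_lit 0x148a841) (nat_lit 0x0) (nat_lit 0x895b4212d475c19)
  (PL.C (nat_lit 0x14c6f0c) (nat_lit 0x85c57754f2bbd5) (nat_lit 0x0)
  (PL.C (nat_lit 0x14d5f43) (nat_lit 0x2bd8995db82fe4) (nat_lit 0x0)
  (PL.C (nat_lit 0x14deab8) (nat_lit 0x5f81293564bf4) (nat_lit 0x0)
  (PL.C (nat_lit 0x14e0806) (nat_lit 0xfb514f13349578) (nat_lit 0x0)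
  (PL.C (nat_lit 0x14e1d93) (nat_lit 0x3a8cc993d37214) (nat_lit 0x0)
  (PL.C (nat_lit 0x14e4e62) (nat_lit 0x0) (nat_lit 0x1b649d7743407c3)
  (PL.C (nat_lit 0x1509cbc) (nat_lit 0x2c9d8fe56172f0b) (nat_lit 0x0)
  (PL.C (nat_lit 0x150ee23) (nat_lit 0x0) (nat_lit 0x7c1def70f93f33)
  (PL.C (nat_lit 0x151ef4e) (nat_lit 0x0) (nat_lit 0xe9f58bd2857d8) gp1_1_49))))))))))))))))))))

noncomputable def gp1_1_47 : PL :=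
  (PL.C (nat_lit 0x13a894a) (nat_lit 0x0) (nat_lit 0x49290e0c1f0c5fb)
  (PL.C (nat_lit 0x13aaace) (nat_lit 0x47d2d4a8aea436e) (nat_lit 0x0)
  (PL.C (nat_lit 0x13b26b6) (nat_lit 0x0) (nat_lit 0x894ba9e82d1643)
  (PL.C (nat_lit 0x13b289b) (nat_lit 0x0) (nat_lit 0x6ab6d05b6c19f2)
  (PL.C (nat_lit 0x13b4958) (nat_lit 0xaacf910dc9c443) (nat_lit 0x0)
  (PL.C (nat_lit 0x13b5916) (nat_lit 0x0) (nat_lit 0x286d8ec1fb4135)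
  (PL.C (nat_lit 0x13bf6ea) (nat_lit 0x1f89d965e62df5f) (nat_lit 0x0)
  (PL.C (nat_lit 0x13c447e) (nat_lit 0x5c1e984d9dce35) (nat_lit 0x0)
  (PL.C (nat_lit 0x13c92b8) (nat_lit 0x9a4d36e94ace8f) (nat_lit 0x0)
  (PL.C (nat_lit 0x13cab4a) (nat_lit 0x1e097aa59c50c3) (nat_lit 0x0)
  (PL.C (nat_lit 0x13d8622) (nat_lit 0x1b3ad5759a36654) (nat_lit 0x0)
  (PL.C (nat_lit 0x13d9c25) (nat_lit 0x0) (nat_lit 0x131a8514df7a71)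
  (PL.C (nat_lit 0x13deab4) (nat_lit 0x21af41b4790d7c1) (nat_lit 0x0)
  (PL.C (nat_lit 0x13eddca) (nat_lit 0x176081a3786dbb) (nat_lit 0x0)
  (PL.C (nat_lit 0x13f615e) (nat_lit 0x0) (nat_lit 0x5f67c245572861c)
  (PL.C (nat_lit 0x1407146) (nat_lit 0x0) (nat_lit 0x4679a0371a35507)
  (PL.C (nat_lit 0x140b2ed) (nat_lit 0x0) (nat_lit 0x347348915ea131)
  (PL.C (nat_lit 0x140d20a) (nat_lit 0x0) (nat_lit 0x102110d4333721e1)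
  (PL.C (nat_lit 0x1414cee) (nat_lit 0x0) (nat_lit 0x4a60b2fa372bb13)
  (PL.C (nat_lit 0x1422132) (nat_lit 0x0) (nat_lit 0xe4dee812faedf98) gp1_1_48))))))))))))))))))))

noncomputable def gp1_1_46 : PL :=
  (PL.C (nat_lit 0x12d7034) (nat_lit 0x0) (nat_lit 0x8737dc26e51669)
  (PL.C (nat_lit 0x12e41e4) (nat_lit 0x16464770703d645) (nat_lit 0x0)
  (PL.C (nat_lit 0x12ea909) (nat_lit 0xbfe572dcefb06e) (nat_lit 0x0)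
  (PL.C (nat_lit 0x12f66be) (nat_lit 0x33e8207220d06cd) (nat_lit 0x0)
  (PL.C (nat_lit 0x12f9ecc) (nat_lit 0x0) (nat_lit 0x1103d0216a255e)
  (PL.C (nat_lit 0x1305722) (nat_lit 0x0) (nat_lit 0x8e4875dad9e4e87)
  (PL.C (nat_lit 0x13090a7) (nat_lit 0x69e9e9906d6da3) (nat_lit 0x0)
  (PL.C (nat_lit 0x130ac22) (nat_lit 0xebe3dd87fb1507) (nat_lit 0x0)
  (PL.C (nat_lit 0x130dbfc) (nat_lit 0x63630068228898) (nat_lit 0x0)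
  (PL.C (nat_lit 0x131eeab) (nat_lit 0x0) (nat_lit 0x470a46ab180c40)
  (PL.C (nat_lit 0x132ef19) (nat_lit 0xb40e7e29f9df6d) (nat_lit 0x0)
  (PL.C (nat_lit 0x1333b04) (nat_lit 0x0) (nat_lit 0x15a0a9f8d155be9)
  (PL.C (nat_lit 0x133ebbc) (nat_lit 0x0) (nat_lit 0xb2b04a3aac110d)
  (PL.C (nat_lit 0x1340aea) (nat_lit 0x0) (nat_lit 0xb685694a17d063)
  (PL.C (nat_lit 0x13427b4) (nat_lit 0x0) (nat_lit 0x671f8684b80915)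
  (PL.C (nat_lit 0x1348611) (nat_lit 0x1908710c65a74) (nat_lit 0x0)
  (PL.C (nat_lit 0x134a516) (nat_lit 0x0) (nat_lit 0x12b30a35539c31)
  (PL.C (nat_lit 0x1353d48) (nat_lit 0x0) (nat_lit 0x166b38536db3448)
  (PL.C (nat_lit 0x1368d4c) (nat_lit 0x0) (nat_lit 0x3d55cfa3cfa2c85)
  (PL.C (nat_lit 0x139df08) (nat_lit 0xa6b1473980fe1f) (nat_lit 0x0) gp1_1_47))))))))))))))))))))

noncomputable def gp1_1_45 : PL :=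
  (PL.C (nat_lit 0x123a932) (nat_lit 0x0) (nat_lit 0x87d3997653670e)
  (PL.C (nat_lit 0x123c846) (nat_lit 0x0) (nat_lit 0x2775057a88d0430)
  (PL.C (nat_lit 0x12445f5) (nat_lit 0x0) (nat_lit 0x120442b98981561)
  (PL.C (nat_lit 0x12533f6) (nat_lit 0x0) (nat_lit 0x34b78958e61cd21)
  (PL.C (nat_lit 0x12568a4) (nat_lit 0xd3941922db5155) (nat_lit 0x0)
  (PL.C (nat_lit 0x125f5aa) (nat_lit 0xc1ebe8c3bfc478) (nat_lit 0x0)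
  (PL.C (nat_lit 0x125ffe4) (nat_lit 0x48d81f7dce6f754) (nat_lit 0x0)
  (PL.C (nat_lit 0x1266e6a) (nat_lit 0x8543858abe1fcd) (nat_lit 0x0)
  (PL.C (nat_lit 0x127ef3c) (nat_lit 0x0) (nat_lit 0x1c34580683e55c)
  (PL.C (nat_lit 0x1282716) (nat_lit 0x26d240e966e271d) (nat_lit 0x0)
  (PL.C (nat_lit 0x1286cf6) (nat_lit 0x0) (nat_lit 0x1a4b0d39587a3b0e)
  (PL.C (nat_lit 0x1296854) (nat_lit 0x0) (nat_lit 0x56c8f652519688)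
  (PL.C (nat_lit 0x1297cf2) (nat_lit 0x0) (nat_lit 0x53175e16be89cdc)
  (PL.C (nat_lit 0x129cc04) (nat_lit 0x0) (nat_lit 0x2e1109d68e96c5a)
  (PL.C (nat_lit 0x129eee6) (nat_lit 0x0) (nat_lit 0x6fa82e99ce84850)
  (PL.C (nat_lit 0x12ab3ba) (nat_lit 0x225fa365a4ff70d) (nat_lit 0x0)
  (PL.C (nat_lit 0x12b32a1) (nat_lit 0x7cb1d5675a5a7ca) (nat_lit 0x0)
  (PL.C (nat_lit 0x12c13bf) (nat_lit 0x0) (nat_lit 0x51218bc749c3b2)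
  (PL.C (nat_lit 0x12c1cfc) (nat_lit 0x0) (nat_lit 0x1bf98694baf412d)
  (PL.C (nat_lit 0x12cae6f) (nat_lit 0x4233d1478442c8) (nat_lit 0x0) gp1_1_46))))))))))))))))))))

noncomputable def gp1_1_44 : PL :=
  (PL.C (nat_lit 0x118fe4c) (nat_lit 0x0) (nat_lit 0x22d507a438704e)
  (PL.C (nat_lit 0x11909cd) (nat_lit 0x3f0687d2c2b768) (nat_lit 0x0)
  (PL.C (nat_lit 0x11955f6) (nat_lit 0x0) (nat_lit 0x257fe3354a11e44)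
  (PL.C (nat_lit 0x11997ff) (nat_lit 0x0) (nat_lit 0x16bca40cd505f9)
  (PL.C (nat_lit 0x11a3f38) (nat_lit 0x44c90528025b2) (nat_lit 0x0)
  (PL.C (nat_lit 0x11b9f17) (nat_lit 0x121e18a46391ecd1) (nat_lit 0x0)
  (PL.C (nat_lit 0x11c6bef) (nat_lit 0x130258dd05a19) (nat_lit 0x0)
  (PL.C (nat_lit 0x11d2df8) (nat_lit 0x13e87908fb50148) (nat_lit 0x0)
  (PL.C (nat_lit 0x11d4506) (nat_lit 0x0) (nat_lit 0xf6df5a30fab358)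
  (PL.C (nat_lit 0x11e32ae) (nat_lit 0x0) (nat_lit 0x1ce86a6ae1a7cc6)
  (PL.C (nat_lit 0x11e7978) (nat_lit 0x6eb420e8dc66b0) (nat_lit 0x0)
  (PL.C (nat_lit 0x11ee8bb) (nat_lit 0x0) (nat_lit 0x3f4632f43b5a664)
  (PL.C (nat_lit 0x11f2656) (nat_lit 0xd326691d30781) (nat_lit 0x0)
  (PL.C (nat_lit 0x11fc428) (nat_lit 0x26c76b0a66b139) (nat_lit 0x0)
  (PL.C (nat_lit 0x120a962) (nat_lit 0x0) (nat_lit 0x2081a3286948aae)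
  (PL.C (nat_lit 0x120f0c8) (nat_lit 0x54bc156d1ac345) (nat_lit 0x0)
  (PL.C (nat_lit 0x1212405) (nat_lit 0x0) (nat_lit 0x8dbe57867774aa)
  (PL.C (nat_lit 0x1222f62) (nat_lit 0x0) (nat_lit 0xe31c1695f654ede)
  (PL.C (nat_lit 0x122c09e) (nat_lit 0x0) (nat_lit 0x2aec1a80e0ffde5)
  (PL.C (nat_lit 0x122c45c) (nat_lit 0x0) (nat_lit 0xd8437f1021e29) gp1_1_45))))))))))))))))))))

noncomputable def gp1_1_43 : PL :=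
  (PL.C (nat_lit 0x10e80de) (nat_lit 0x554c827c8d97804) (nat_lit 0x0)
  (PL.C (nat_lit 0x10f45cc) (nat_lit 0x0) (nat_lit 0x1e897103fd534ba)
  (PL.C (nat_lit 0x10fe10e) (nat_lit 0x0) (nat_lit 0xba9029deef5095)
  (PL.C (nat_lit 0x10fed7a) (nat_lit 0x0) (nat_lit 0x57acb58e92d6bf5)
  (PL.C (nat_lit 0x112a09c) (nat_lit 0x0) (nat_lit 0x11c51bbb8c36a6d)
  (PL.C (nat_lit 0x112de0e) (nat_lit 0x0) (nat_lit 0xef5b8c98912bbea)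
  (PL.C (nat_lit 0x1131201) (nat_lit 0x0) (nat_lit 0x627d5c63b7ff38)
  (PL.C (nat_lit 0x1131f27) (nat_lit 0x0) (nat_lit 0x55ce10beaed41)
  (PL.C (nat_lit 0x113c724) (nat_lit 0x36ec0a661f25ca) (nat_lit 0x0)
  (PL.C (nat_lit 0x113d4e9) (nat_lit 0xfd26a79d56b32) (nat_lit 0x0)
  (PL.C (nat_lit 0x1142394) (nat_lit 0xd1001722f6443e) (nat_lit 0x0)
  (PL.C (nat_lit 0x1149a86) (nat_lit 0x3d0e8bee24afc7c) (nat_lit 0x0)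
  (PL.C (nat_lit 0x114eb22) (nat_lit 0x20fdf411c5938a3) (nat_lit 0x0)
  (PL.C (nat_lit 0x1155ce2) (nat_lit 0x153b910c2ca91b7) (nat_lit 0x0)
  (PL.C (nat_lit 0x11619e4) (nat_lit 0x285ccf0e614ee3) (nat_lit 0x0)
  (PL.C (nat_lit 0x116317b) (nat_lit 0xc40dd43eaced29d) (nat_lit 0x0)
  (PL.C (nat_lit 0x116d04b) (nat_lit 0x0) (nat_lit 0x18c17cb9d64538d)
  (PL.C (nat_lit 0x116ee28) (nat_lit 0x0) (nat_lit 0xbd100173d3943)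
  (PL.C (nat_lit 0x117d688) (nat_lit 0x77169e2b18211f) (nat_lit 0x0)
  (PL.C (nat_lit 0x118de71) (nat_lit 0x1ed395c67201e51) (nat_lit 0x0) gp1_1_44))))))))))))))))))))

noncomputable def gp1_1_42 : PL :=
  (PL.C (nat_lit 0x102076e) (nat_lit 0x773be744e96ee0) (nat_lit 0x0)
  (PL.C (nat_lit 0x1031fcd) (nat_lit 0x0) (nat_lit 0x56027de01749af0)
  (PL.C (nat_lit 0x103830f) (nat_lit 0x0) (nat_lit 0x1128f08d76c02351)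
  (PL.C (nat_lit 0x10404f1) (nat_lit 0x17e92444e6c273d) (nat_lit 0x0)
  (PL.C (nat_lit 0x1042184) (nat_lit 0x0) (nat_lit 0x19d9da07215a271)
  (PL.C (nat_lit 0x1042e81) (nat_lit 0x0) (nat_lit 0xd8756747909a5f)
  (PL.C (nat_lit 0x1044988) (nat_lit 0xf132835bc193a9) (nat_lit 0x0)
  (PL.C (nat_lit 0x1049961) (nat_lit 0x388cf27631dc36) (nat_lit 0x0)
  (PL.C (nat_lit 0x106277c) (nat_lit 0x0) (nat_lit 0x34e03253f2b0a06)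
  (PL.C (nat_lit 0x106fe93) (nat_lit 0x238cc6527e8b710) (nat_lit 0x0)
  (PL.C (nat_lit 0x10730f8) (nat_lit 0x77a82611175ee) (nat_lit 0x0)
  (PL.C (nat_lit 0x1077444) (nat_lit 0xd36a9a46363f80) (nat_lit 0x0)
  (PL.C (nat_lit 0x10917c5) (nat_lit 0x84b54178c81772d) (nat_lit 0x0)
  (PL.C (nat_lit 0x10a33ee) (nat_lit 0x0) (nat_lit 0xf883339932f958)
  (PL.C (nat_lit 0x10d0204) (nat_lit 0xe5fd8d833db02) (nat_lit 0x0)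
  (PL.C (nat_lit 0x10d14aa) (nat_lit 0x4d277d777f2b7a) (nat_lit 0x0)
  (PL.C (nat_lit 0x10d7117) (nat_lit 0x0) (nat_lit 0x393a425f448cb6)
  (PL.C (nat_lit 0x10d9b56) (nat_lit 0x0) (nat_lit 0x2b38719c9001e95)
  (PL.C (nat_lit 0x10db3bc) (nat_lit 0x0) (nat_lit 0x36ff5a6068c0b2)
  (PL.C (nat_lit 0x10e2048) (nat_lit 0x151fe9ae0703110) (nat_lit 0x0) gp1_1_43))))))))))))))))))))

noncomputable def gp1_1_41 : PL :=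
  (PL.C (nat_lit 0xf9d893) (nat_lit 0x0) (nat_lit 0x281112e5ff82c)
  (PL.C (nat_lit 0xfad496) (nat_lit 0x1739179d1751222) (nat_lit 0x0)
  (PL.C (nat_lit 0xfb6314) (nat_lit 0x0) (nat_lit 0x131c596909c2ee8)
  (PL.C (nat_lit 0xfc3a84) (nat_lit 0x0) (nat_lit 0x188f3780d7da62b)
  (PL.C (nat_lit 0xfc4b88) (nat_lit 0xae3fbb1d5d118) (nat_lit 0x0)
  (PL.C (nat_lit 0xfd5dac) (nat_lit 0x0) (nat_lit 0x430698bf472da1c)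
  (PL.C (nat_lit 0xfdd26b) (nat_lit 0x0) (nat_lit 0x2d6c2fd28e78201)
  (PL.C (nat_lit 0xfe277f) (nat_lit 0x0) (nat_lit 0x615494a831c9796)
  (PL.C (nat_lit 0xfe665c) (nat_lit 0x0) (nat_lit 0x5004bbb3109205f)
  (PL.C (nat_lit 0xfe8b93) (nat_lit 0x91e2e1782484d7) (nat_lit 0x0)
  (PL.C (nat_lit 0xfea78c) (nat_lit 0x0) (nat_lit 0x686730c668df9)
  (PL.C (nat_lit 0xfecedc) (nat_lit 0x0) (nat_lit 0x25a88c6aac5e813)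
  (PL.C (nat_lit 0xfee086) (nat_lit 0x0) (nat_lit 0x190a8d1d2565727)
  (PL.C (nat_lit 0xff1ce3) (nat_lit 0xe8f40e2820ba0) (nat_lit 0x0)
  (PL.C (nat_lit 0xff33bd) (nat_lit 0x0) (nat_lit 0x89c714bfcb43e6)
  (PL.C (nat_lit 0xffc56d) (nat_lit 0x1b0c3951217c69) (nat_lit 0x0)
  (PL.C (nat_lit 0x1001e36) (nat_lit 0x0) (nat_lit 0x3f92fd7896c3a28)
  (PL.C (nat_lit 0x100c76a) (nat_lit 0x0) (nat_lit 0x1a727cef15d4980)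
  (PL.C (nat_lit 0x101ce48) (nat_lit 0x0) (nat_lit 0x139fa6f410e235)
  (PL.C (nat_lit 0x101f607) (nat_lit 0x28a52bebb6ec5b3) (nat_lit 0x0) gp1_1_42))))))))))))))))))))

noncomputable def gp1_1_40 : PL :=
  (PL.C (nat_lit 0xf036ba) (nat_lit 0x0) (nat_lit 0x18c227487f5ed04)
  (PL.C (nat_lit 0xf04761) (nat_lit 0x224c12b4e3ab570) (nat_lit 0x0)
  (PL.C (nat_lit 0xf0a36b) (nat_lit 0x3e1b0b9fdd79a49) (nat_lit 0x0)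
  (PL.C (nat_lit 0xf14265) (nat_lit 0x1f61c61d0892a3c) (nat_lit 0x0)
  (PL.C (nat_lit 0xf2662e) (nat_lit 0x4a6d01b9df40b4e) (nat_lit 0x0)
  (PL.C (nat_lit 0xf3c014) (nat_lit 0x0) (nat_lit 0x2252a4acbc7fb22)
  (PL.C (nat_lit 0xf468a2) (nat_lit 0x0) (nat_lit 0x2d722adf90d7a8)
  (PL.C (nat_lit 0xf47188) (nat_lit 0x25046366f0a9521) (nat_lit 0x0)
  (PL.C (nat_lit 0xf597f6) (nat_lit 0xe90ca9b3bdd782) (nat_lit 0x0)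
  (PL.C (nat_lit 0xf5d039) (nat_lit 0x0) (nat_lit 0x2e66b1ca6918fdb)
  (PL.C (nat_lit 0xf68c38) (nat_lit 0x0) (nat_lit 0x62971303035f427)
  (PL.C (nat_lit 0xf748bc) (nat_lit 0x2e332a162b8f50) (nat_lit 0x0)
  (PL.C (nat_lit 0xf7824e) (nat_lit 0x0) (nat_lit 0x66f32b81330e72)
  (PL.C (nat_lit 0xf825d2) (nat_lit 0x19c8c877b2870a1) (nat_lit 0x0)
  (PL.C (nat_lit 0xf82e74) (nat_lit 0x0) (nat_lit 0x6802230a33dc1b3)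
  (PL.C (nat_lit 0xf881a4) (nat_lit 0x2c99c3deeab297e) (nat_lit 0x0)
  (PL.C (nat_lit 0xf8b48e) (nat_lit 0x93ec2c1efeae8b) (nat_lit 0x0)
  (PL.C (nat_lit 0xf94a43) (nat_lit 0x11aa81c7ae2f124) (nat_lit 0x0)
  (PL.C (nat_lit 0xf97194) (nat_lit 0xeb5f90009ad761) (nat_lit 0x0)
  (PL.C (nat_lit 0xf987ec) (nat_lit 0x0) (nat_lit 0x77599e578298cb) gp1_1_41))))))))))))))))))))

noncomputable def gp1_1_39 : PL :=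
  (PL.C (nat_lit 0xe8c63c) (nat_lit 0x19e18e8ee22d82) (nat_lit 0x0)
  (PL.C (nat_lit 0xe92659) (nat_lit 0x7177a6dc6ad8a8) (nat_lit 0x0)
  (PL.C (nat_lit 0xe96004) (nat_lit 0x1d62535f1e5ea35) (nat_lit 0x0)
  (PL.C (nat_lit 0xe97f1e) (nat_lit 0x0) (nat_lit 0x733100df5ddedc)
  (PL.C (nat_lit 0xe9c32a) (nat_lit 0x0) (nat_lit 0x140e8217e3d56f)
  (PL.C (nat_lit 0xea6159) (nat_lit 0x23fae6d89ea1238) (nat_lit 0x0)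
  (PL.C (nat_lit 0xea6758) (nat_lit 0x0) (nat_lit 0x3707a7321028c)
  (PL.C (nat_lit 0xead6a7) (nat_lit 0x180b6a2a1cf449a9) (nat_lit 0x0)
  (PL.C (nat_lit 0xeb4a74) (nat_lit 0x0) (nat_lit 0x14969d1bcc4fc40)
  (PL.C (nat_lit 0xeb5cb7) (nat_lit 0x4440e03d53acb51) (nat_lit 0x0)
  (PL.C (nat_lit 0xebab9b) (nat_lit 0x13030f9ff30e15d) (nat_lit 0x0)
  (PL.C (nat_lit 0xec46cc) (nat_lit 0x0) (nat_lit 0x1346c8ab905dec)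
  (PL.C (nat_lit 0xec4a1e) (nat_lit 0x0) (nat_lit 0x71bbf67316175c0)
  (PL.C (nat_lit 0xec6be8) (nat_lit 0x46d7b4c597068) (nat_lit 0x0)
  (PL.C (nat_lit 0xed8cfd) (nat_lit 0x0) (nat_lit 0x1d12913513e2e33)
  (PL.C (nat_lit 0xee0d76) (nat_lit 0x0) (nat_lit 0x14e3b4d9c93fe5a)
  (PL.C (nat_lit 0xeefa38) (nat_lit 0x0) (nat_lit 0x4c386a41e40546)
  (PL.C (nat_lit 0xef3343) (nat_lit 0xb9acd463dc7fa0) (nat_lit 0x0)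
  (PL.C (nat_lit 0xef4366) (nat_lit 0x0) (nat_lit 0x33c83760d5810d)
  (PL.C (nat_lit 0xef6bb3) (nat_lit 0x36ac830e9cabf8fc) (nat_lit 0x0) gp1_1_40))))))))))))))))))))

noncomputable def gp1_1_38 : PL :=
  (PL.C (nat_lit 0xe205e4) (nat_lit 0x0) (nat_lit 0x1d3d5b07458bfe7)
  (PL.C (nat_lit 0xe295aa) (nat_lit 0x23eda6a0be95730) (nat_lit 0x0)
  (PL.C (nat_lit 0xe30acc) (nat_lit 0x73b6da24cda4534) (nat_lit 0x0)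
  (PL.C (nat_lit 0xe361c4) (nat_lit 0x155d0f409ec9807) (nat_lit 0x0)
  (PL.C (nat_lit 0xe3abac) (nat_lit 0x0) (nat_lit 0x13c3ee4071a6a4b)
  (PL.C (nat_lit 0xe3bfa7) (nat_lit 0x7184e5f346e053) (nat_lit 0x0)
  (PL.C (nat_lit 0xe3f7fc) (nat_lit 0x0) (nat_lit 0x19012f7e112557d)
  (PL.C (nat_lit 0xe44ec8) (nat_lit 0x0) (nat_lit 0x43a9e6c5f6f92)
  (PL.C (nat_lit 0xe458d6) (nat_lit 0x382d6be1b2a3629) (nat_lit 0x0)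
  (PL.C (nat_lit 0xe52bfc) (nat_lit 0xa752c8122df4e9e) (nat_lit 0x0)
  (PL.C (nat_lit 0xe621c4) (nat_lit 0x4fc78ea42ad713) (nat_lit 0x0)
  (PL.C (nat_lit 0xe668fb) (nat_lit 0x0) (nat_lit 0x67404376e1000)
  (PL.C (nat_lit 0xe6c9a4) (nat_lit 0x0) (nat_lit 0x690ee9a63d9535)
  (PL.C (nat_lit 0xe728ef) (nat_lit 0xac41628ce51869) (nat_lit 0x0)
  (PL.C (nat_lit 0xe74d64) (nat_lit 0x0) (nat_lit 0xf1792269f5b67)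
  (PL.C (nat_lit 0xe7621c) (nat_lit 0x1aa97d646149f2f) (nat_lit 0x0)
  (PL.C (nat_lit 0xe7d40c) (nat_lit 0x0) (nat_lit 0x345b8d22c47b8a)
  (PL.C (nat_lit 0xe833c5) (nat_lit 0x0) (nat_lit 0x72ee0c35b2a860)
  (PL.C (nat_lit 0xe86d34) (nat_lit 0x8ba56d92ea32b8) (nat_lit 0x0)
  (PL.C (nat_lit 0xe88cb7) (nat_lit 0x0) (nat_lit 0x7ff78ac114c333) gp1_1_39))))))))))))))))))))

noncomputable def gp1_1_37 : PL :=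
  (PL.C (nat_lit 0xd9cb38) (nat_lit 0x233e1f407fb5ff) (nat_lit 0x0)
  (PL.C (nat_lit 0xd9e9c8) (nat_lit 0x61737e02ef5320) (nat_lit 0x0)
  (PL.C (nat_lit 0xda2dc4) (nat_lit 0x66c6fea2d2b24e) (nat_lit 0x0)
  (PL.C (nat_lit 0xda3eb3) (nat_lit 0x2f8e57b4ca0de4) (nat_lit 0x0)
  (PL.C (nat_lit 0xda60fa) (nat_lit 0x12bdec0b0176b7) (nat_lit 0x0)
  (PL.C (nat_lit 0xda7bc7) (nat_lit 0x0) (nat_lit 0x418da58a99aa0ac)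
  (PL.C (nat_lit 0xdabdc1) (nat_lit 0x0) (nat_lit 0x12ee11201266ab2)
  (PL.C (nat_lit 0xdb118b) (nat_lit 0x398959228bd9b90) (nat_lit 0x0)
  (PL.C (nat_lit 0xdb1ad6) (nat_lit 0xab1f509d6ae5b0) (nat_lit 0x0)
  (PL.C (nat_lit 0xdba245) (nat_lit 0x0) (nat_lit 0xf73611701ec01c)
  (PL.C (nat_lit 0xde021f) (nat_lit 0x22c34fafb4764eb) (nat_lit 0x0)
  (PL.C (nat_lit 0xde3f82) (nat_lit 0x3140c9d6ed46f5) (nat_lit 0x0)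
  (PL.C (nat_lit 0xdeb004) (nat_lit 0x2c1e9af0477c50) (nat_lit 0x0)
  (PL.C (nat_lit 0xdebe62) (nat_lit 0x12ba68c42ba8144) (nat_lit 0x0)
  (PL.C (nat_lit 0xdedeec) (nat_lit 0x186c4cf45fd6a2c) (nat_lit 0x0)
  (PL.C (nat_lit 0xdfc799) (nat_lit 0x0) (nat_lit 0x6a48ae423bb101)
  (PL.C (nat_lit 0xe00619) (nat_lit 0xb6d211a5dda176) (nat_lit 0x0)
  (PL.C (nat_lit 0xe09ec2) (nat_lit 0x0) (nat_lit 0x117393328d5124)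
  (PL.C (nat_lit 0xe14a34) (nat_lit 0x0) (nat_lit 0x2da7db4e522d3d)
  (PL.C (nat_lit 0xe17e28) (nat_lit 0x467369828177d3) (nat_lit 0x0) gp1_1_38))))))))))))))))))))

noncomputable def gp1_1_36 : PL :=
  (PL.C (nat_lit 0xd23b64) (nat_lit 0x0) (nat_lit 0x1140c25415e0754)
  (PL.C (nat_lit 0xd2708f) (nat_lit 0xe7e9fd6c3b02e) (nat_lit 0x0)
  (PL.C (nat_lit 0xd2a49c) (nat_lit 0x900432d8ada32a) (nat_lit 0x0)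
  (PL.C (nat_lit 0xd2d854) (nat_lit 0xc510ff3d1e85ed) (nat_lit 0x0)
  (PL.C (nat_lit 0xd30b51) (nat_lit 0x0) (nat_lit 0x180b68a4cb8f57)
  (PL.C (nat_lit 0xd31cdc) (nat_lit 0x0) (nat_lit 0x7fe7e8a4b5161)
  (PL.C (nat_lit 0xd3bd6e) (nat_lit 0x0) (nat_lit 0x80b293aaab07aca)
  (PL.C (nat_lit 0xd493dc) (nat_lit 0x7221ce566dea) (nat_lit 0x0)
  (PL.C (nat_lit 0xd4eb94) (nat_lit 0x588d5815ec0ada8) (nat_lit 0x0)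
  (PL.C (nat_lit 0xd5e15c) (nat_lit 0x6dde60fc56fa01f) (nat_lit 0x0)
  (PL.C (nat_lit 0xd674e1) (nat_lit 0x9f59930ecb7f7) (nat_lit 0x0)
  (PL.C (nat_lit 0xd68bbb) (nat_lit 0x0) (nat_lit 0x39b7e9075ec8b0f)
  (PL.C (nat_lit 0xd6c0cc) (nat_lit 0x586c52252732c90) (nat_lit 0x0)
  (PL.C (nat_lit 0xd7028f) (nat_lit 0x0) (nat_lit 0x226028f4ee02dcb)
  (PL.C (nat_lit 0xd7521e) (nat_lit 0x58fe7d66b7951) (nat_lit 0x0)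
  (PL.C (nat_lit 0xd7611c) (nat_lit 0x0) (nat_lit 0x546fe4f395269c)
  (PL.C (nat_lit 0xd883d6) (nat_lit 0x0) (nat_lit 0x532459dc4267bf)
  (PL.C (nat_lit 0xd91324) (nat_lit 0xd3a4e8e7e04450) (nat_lit 0x0)
  (PL.C (nat_lit 0xd9559d) (nat_lit 0x1ea59ec97ad0a82) (nat_lit 0x0)
  (PL.C (nat_lit 0xd9c263) (nat_lit 0x0) (nat_lit 0x4b46997e5f823d0) gp1_1_37))))))))))))))))))))

noncomputable def gp1_1_35 : PL :=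
  (PL.C (nat_lit 0xc77716) (nat_lit 0xa362560403ab654) (nat_lit 0x0)
  (PL.C (nat_lit 0xc80d2a) (nat_lit 0x1d37c5a26ce80c) (nat_lit 0x0)
  (PL.C (nat_lit 0xc8744a) (nat_lit 0x14a067063311102) (nat_lit 0x0)
  (PL.C (nat_lit 0xc9c606) (nat_lit 0x0) (nat_lit 0xc5aac7d8bcbf8c)
  (PL.C (nat_lit 0xca1bbf) (nat_lit 0xdb04a3d432cd1f3) (nat_lit 0x0)
  (PL.C (nat_lit 0xca9803) (nat_lit 0x2ec147e2321bd8d) (nat_lit 0x0)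
  (PL.C (nat_lit 0xcb0b1a) (nat_lit 0x1df07275371ab2) (nat_lit 0x0)
  (PL.C (nat_lit 0xcb1d6c) (nat_lit 0x0) (nat_lit 0x56f1a451f045ad)
  (PL.C (nat_lit 0xcbd6ab) (nat_lit 0x0) (nat_lit 0x10c7f5a366e442)
  (PL.C (nat_lit 0xcbf472) (nat_lit 0x0) (nat_lit 0x677fee5c4e120)
  (PL.C (nat_lit 0xcc9f66) (nat_lit 0x1907729c288d536) (nat_lit 0x0)
  (PL.C (nat_lit 0xcd5c9c) (nat_lit 0x4b615c8e3792405) (nat_lit 0x0)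
  (PL.C (nat_lit 0xcdaeb6) (nat_lit 0x0) (nat_lit 0x1138f1598ee5a15)
  (PL.C (nat_lit 0xcdc364) (nat_lit 0x0) (nat_lit 0x20e69b6e70040d0)
  (PL.C (nat_lit 0xcddcbb) (nat_lit 0x0) (nat_lit 0x1ce65f0fb5e2586)
  (PL.C (nat_lit 0xcedd53) (nat_lit 0x5f74cbad3a5d4c3) (nat_lit 0x0)
  (PL.C (nat_lit 0xd1b0dc) (nat_lit 0x0) (nat_lit 0x1820ac874381302)
  (PL.C (nat_lit 0xd1c734) (nat_lit 0x498676a09912f86) (nat_lit 0x0)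
  (PL.C (nat_lit 0xd20771) (nat_lit 0x1be0a918d41b17d) (nat_lit 0x0)
  (PL.C (nat_lit 0xd21b12) (nat_lit 0x268137ac71ce6bf) (nat_lit 0x0) gp1_1_36))))))))))))))))))))

noncomputable def gp1_1_34 : PL :=
  (PL.C (nat_lit 0xc070ec) (nat_lit 0x11c1293ec4bf4cb) (nat_lit 0x0)
  (PL.C (nat_lit 0xc0c2ae) (nat_lit 0x4666d5209413444) (nat_lit 0x0)
  (PL.C (nat_lit 0xc174ec) (nat_lit 0x675d62d856739ea) (nat_lit 0x0)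
  (PL.C (nat_lit 0xc1c4cd) (nat_lit 0x0) (nat_lit 0xa463dd3b14375c)
  (PL.C (nat_lit 0xc270cc) (nat_lit 0x0) (nat_lit 0xabbd39a6f0e3e2)
  (PL.C (nat_lit 0xc28584) (nat_lit 0xf39b1460b756875) (nat_lit 0x0)
  (PL.C (nat_lit 0xc2d94e) (nat_lit 0x0) (nat_lit 0x9bc72efea4ca51)
  (PL.C (nat_lit 0xc39b18) (nat_lit 0x39539d489fd0d2) (nat_lit 0x0)
  (PL.C (nat_lit 0xc3c8af) (nat_lit 0x1951be40d720611) (nat_lit 0x0)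
  (PL.C (nat_lit 0xc3f91c) (nat_lit 0xafb1b94ff7f909) (nat_lit 0x0)
  (PL.C (nat_lit 0xc4499c) (nat_lit 0x6ab2a9517e6cf2) (nat_lit 0x0)
  (PL.C (nat_lit 0xc54a28) (nat_lit 0x64bc90ddd82168) (nat_lit 0x0)
  (PL.C (nat_lit 0xc56f64) (nat_lit 0x0) (nat_lit 0x4be3d4f106e9769)
  (PL.C (nat_lit 0xc5da7d) (nat_lit 0x8578dbf75aca436) (nat_lit 0x0)
  (PL.C (nat_lit 0xc63d83) (nat_lit 0x85e983d18b3f14) (nat_lit 0x0)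
  (PL.C (nat_lit 0xc6534c) (nat_lit 0x0) (nat_lit 0x2feaa7c83f762c2)
  (PL.C (nat_lit 0xc65d33) (nat_lit 0x28a4ead2eeff4ca) (nat_lit 0x0)
  (PL.C (nat_lit 0xc69f44) (nat_lit 0x0) (nat_lit 0xbb4c9f83927f1f)
  (PL.C (nat_lit 0xc6f147) (nat_lit 0x33dee587fa35dee) (nat_lit 0x0)
  (PL.C (nat_lit 0xc7227c) (nat_lit 0x651a7d1140676b) (nat_lit 0x0) gp1_1_35))))))))))))))))))))

noncomputable def gp1_1_33 : PL :=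
  (PL.C (nat_lit 0xb817b8) (nat_lit 0x0) (nat_lit 0x119ba87ba5e7c6)
  (PL.C (nat_lit 0xb86704) (nat_lit 0x25f649f481efb5d) (nat_lit 0x0)
  (PL.C (nat_lit 0xb86f23) (nat_lit 0x3b59018e4059ca) (nat_lit 0x0)
  (PL.C (nat_lit 0xb96698) (nat_lit 0x0) (nat_lit 0x5628599a54fd9c)
  (PL.C (nat_lit 0xb97652) (nat_lit 0x0) (nat_lit 0x2e678d42a32071a)
  (PL.C (nat_lit 0xb9e032) (nat_lit 0x2608e3977b46b4) (nat_lit 0x0)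
  (PL.C (nat_lit 0xbb3ef6) (nat_lit 0xdbdd063220234e) (nat_lit 0x0)
  (PL.C (nat_lit 0xbb5bde) (nat_lit 0x44327707ce8a81) (nat_lit 0x0)
  (PL.C (nat_lit 0xbb68db) (nat_lit 0x32e9d8f4b42fcb6) (nat_lit 0x0)
  (PL.C (nat_lit 0xbb8ea4) (nat_lit 0xb11cd824db3957) (nat_lit 0x0)
  (PL.C (nat_lit 0xbbbaaa) (nat_lit 0x0) (nat_lit 0x7b78b5ade3f8f5)
  (PL.C (nat_lit 0xbc97e7) (nat_lit 0x85c06024cfe99c) (nat_lit 0x0)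
  (PL.C (nat_lit 0xbccedd) (nat_lit 0x0) (nat_lit 0x3046e252e61255)
  (PL.C (nat_lit 0xbd14ba) (nat_lit 0x724ac68a1cdfbde) (nat_lit 0x0)
  (PL.C (nat_lit 0xbd9d4a) (nat_lit 0xbd45c552996) (nat_lit 0x0)
  (PL.C (nat_lit 0xbe2e04) (nat_lit 0x0) (nat_lit 0x53a5f8064827c7)
  (PL.C (nat_lit 0xbecc74) (nat_lit 0x0) (nat_lit 0x26b9b78820c28cb)
  (PL.C (nat_lit 0xbf45d2) (nat_lit 0x0) (nat_lit 0x4adec5743e8c6d4)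
  (PL.C (nat_lit 0xbf6ee4) (nat_lit 0x0) (nat_lit 0x4ed2ad9dbb65fc)
  (PL.C (nat_lit 0xc045f3) (nat_lit 0x0) (nat_lit 0x846672ad087d6c) gp1_1_34))))))))))))))))))))

noncomputable def gp1_1_32 : PL :=
  (PL.C (nat_lit 0xaee0a3) (nat_lit 0x0) (nat_lit 0x1e369b1c300ad3)
  (PL.C (nat_lit 0xaf5462) (nat_lit 0x0) (nat_lit 0x483917294337dcb)
  (PL.C (nat_lit 0xafa2d8) (nat_lit 0xe50f2de57909b7) (nat_lit 0x0)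
  (PL.C (nat_lit 0xafaa81) (nat_lit 0x0) (nat_lit 0x48050da73e6c55)
  (PL.C (nat_lit 0xafedcb) (nat_lit 0x0) (nat_lit 0x7de5fe5778c060)
  (PL.C (nat_lit 0xb06205) (nat_lit 0x0) (nat_lit 0x22d979bd2bb5b2)
  (PL.C (nat_lit 0xb177f4) (nat_lit 0x0) (nat_lit 0x1961dbafe3a02ac)
  (PL.C (nat_lit 0xb3631c) (nat_lit 0x0) (nat_lit 0x6c6878ed3353de7)
  (PL.C (nat_lit 0xb3a0ba) (nat_lit 0x0) (nat_lit 0x6ad30b11a64563)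
  (PL.C (nat_lit 0xb3bce4) (nat_lit 0x0) (nat_lit 0x1172696218a68d7)
  (PL.C (nat_lit 0xb3cd28) (nat_lit 0x0) (nat_lit 0x5d4493784b52c1)
  (PL.C (nat_lit 0xb540b4) (nat_lit 0x5d30bf93e61021) (nat_lit 0x0)
  (PL.C (nat_lit 0xb548fc) (nat_lit 0x0) (nat_lit 0x3a9cf467b7bc373)
  (PL.C (nat_lit 0xb56c89) (nat_lit 0x0) (nat_lit 0x81f8b32a861b7)
  (PL.C (nat_lit 0xb73eb4) (nat_lit 0x0) (nat_lit 0x741b26448a09e37)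
  (PL.C (nat_lit 0xb76156) (nat_lit 0x0) (nat_lit 0xbc8fd105fcf04e)
  (PL.C (nat_lit 0xb76a1a) (nat_lit 0x0) (nat_lit 0x5a41f212bbc74d)
  (PL.C (nat_lit 0xb776d1) (nat_lit 0x382fb7683f2a8c2) (nat_lit 0x0)
  (PL.C (nat_lit 0xb7da18) (nat_lit 0x11f39774bf3f8b) (nat_lit 0x0)
  (PL.C (nat_lit 0xb7e346) (nat_lit 0x399e05b215f44f) (nat_lit 0x0) gp1_1_33))))))))))))))))))))

noncomputable def gp1_1_31 : PL :=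
  (PL.C (nat_lit 0xa69062) (nat_lit 0x3fc5bcc79174c) (nat_lit 0x0)
  (PL.C (nat_lit 0xa73864) (nat_lit 0x0) (nat_lit 0x19e02fc009e13a5)
  (PL.C (nat_lit 0xa7733f) (nat_lit 0x0) (nat_lit 0x1ec3e1cff7570bf)
  (PL.C (nat_lit 0xa936f2) (nat_lit 0x0) (nat_lit 0x86eafc81725883b)
  (PL.C (nat_lit 0xa942ad) (nat_lit 0xdafba10e6d9992) (nat_lit 0x0)
  (PL.C (nat_lit 0xa96faa) (nat_lit 0xe0d3df59c3091f) (nat_lit 0x0)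
  (PL.C (nat_lit 0xa9b262) (nat_lit 0x0) (nat_lit 0x16421a40ce9acb)
  (PL.C (nat_lit 0xa9c508) (nat_lit 0x260db185c078d0) (nat_lit 0x0)
  (PL.C (nat_lit 0xa9eb04) (nat_lit 0xaa2172b421ef37f) (nat_lit 0x0)
  (PL.C (nat_lit 0xaa1342) (nat_lit 0x0) (nat_lit 0x25a9a2ecba85b6)
  (PL.C (nat_lit 0xaa227e) (nat_lit 0xdd5163576572fe) (nat_lit 0x0)
  (PL.C (nat_lit 0xaa839e) (nat_lit 0x438abdb5fdcbee) (nat_lit 0x0)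
  (PL.C (nat_lit 0xab054f) (nat_lit 0x27d60e2128de771) (nat_lit 0x0)
  (PL.C (nat_lit 0xab2f9c) (nat_lit 0xdd7d85bf5152f0) (nat_lit 0x0)
  (PL.C (nat_lit 0xabf95a) (nat_lit 0x0) (nat_lit 0x39d45b1d54d73c5)
  (PL.C (nat_lit 0xac04f4) (nat_lit 0x0) (nat_lit 0x14f83aec658b1d)
  (PL.C (nat_lit 0xac4bfb) (nat_lit 0x0) (nat_lit 0x7dbbfff2ebcf17)
  (PL.C (nat_lit 0xacbfde) (nat_lit 0x0) (nat_lit 0x4ae52c911835aa2)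
  (PL.C (nat_lit 0xad020a) (nat_lit 0x0) (nat_lit 0x4539a7441f5b508)
  (PL.C (nat_lit 0xad7456) (nat_lit 0x0) (nat_lit 0x52af1da048f9f94) gp1_1_32))))))))))))))))))))

noncomputable def gp1_1_30 : PL :=
  (PL.C (nat_lit 0x9eb3a4) (nat_lit 0x1984b242ff95d6d) (nat_lit 0x0)
  (PL.C (nat_lit 0x9ee43d) (nat_lit 0x0) (nat_lit 0xf51cff3fde9fe)
  (PL.C (nat_lit 0x9f33c3) (nat_lit 0x4a817668ad58c8) (nat_lit 0x0)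
  (PL.C (nat_lit 0x9f7782) (nat_lit 0x0) (nat_lit 0xbe17977cbf70f)
  (PL.C (nat_lit 0x9f8244) (nat_lit 0x0) (nat_lit 0x8aa8cb6b3e370c)
  (PL.C (nat_lit 0x9f9d22) (nat_lit 0x234519e11bb48305) (nat_lit 0x0)
  (PL.C (nat_lit 0xa0247c) (nat_lit 0x0) (nat_lit 0x15bf24863c9d644)
  (PL.C (nat_lit 0xa02f96) (nat_lit 0x44253a11cde56ef) (nat_lit 0x0)
  (PL.C (nat_lit 0xa06cf2) (nat_lit 0x0) (nat_lit 0xaa9f691eb22673)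
  (PL.C (nat_lit 0xa0d6ee) (nat_lit 0x0) (nat_lit 0xb9db8619b3f73)
  (PL.C (nat_lit 0xa11b43) (nat_lit 0x2a764d00bfd6501) (nat_lit 0x0)
  (PL.C (nat_lit 0xa19974) (nat_lit 0x966d71ac4490aa) (nat_lit 0x0)
  (PL.C (nat_lit 0xa24eff) (nat_lit 0x0) (nat_lit 0x2e4b47f864b2032)
  (PL.C (nat_lit 0xa2f06c) (nat_lit 0x630e9287c0ed6d) (nat_lit 0x0)
  (PL.C (nat_lit 0xa3baa4) (nat_lit 0xa4efa36074b3ca) (nat_lit 0x0)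
  (PL.C (nat_lit 0xa4db28) (nat_lit 0x485da6220f0db1) (nat_lit 0x0)
  (PL.C (nat_lit 0xa545ab) (nat_lit 0x0) (nat_lit 0xd640bfa94c6331)
  (PL.C (nat_lit 0xa56e8c) (nat_lit 0x0) (nat_lit 0x9f578c10221652)
  (PL.C (nat_lit 0xa63182) (nat_lit 0xd13c33bd8b421c) (nat_lit 0x0)
  (PL.C (nat_lit 0xa64bb8) (nat_lit 0xa304c87eb494be) (nat_lit 0x0) gp1_1_31))))))))))))))))))))

noncomputable def gp1_1_29 : PL :=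
  (PL.C (nat_lit 0x97d51a) (nat_lit 0x2a9848adb224711) (nat_lit 0x0)
  (PL.C (nat_lit 0x97faa8) (nat_lit 0x0) (nat_lit 0x18e33d0f49d3c55)
  (PL.C (nat_lit 0x99266d) (nat_lit 0xb21eaefb39dd16) (nat_lit 0x0)
  (PL.C (nat_lit 0x996bd8) (nat_lit 0xcb86216d5d7952) (nat_lit 0x0)
  (PL.C (nat_lit 0x999b52) (nat_lit 0x469d4163a82ba1) (nat_lit 0x0)
  (PL.C (nat_lit 0x9a1b4a) (nat_lit 0x32379c6eaa3793) (nat_lit 0x0)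
  (PL.C (nat_lit 0x9a4168) (nat_lit 0x126eb69dfa8326e) (nat_lit 0x0)
  (PL.C (nat_lit 0x9a7d51) (nat_lit 0x47a09e09cdbb63e) (nat_lit 0x0)
  (PL.C (nat_lit 0x9acd2e) (nat_lit 0x0) (nat_lit 0x3c54d9632009f3)
  (PL.C (nat_lit 0x9af378) (nat_lit 0x0) (nat_lit 0x943a2bf1beb4ee)
  (PL.C (nat_lit 0x9b087a) (nat_lit 0x0) (nat_lit 0x11b388c4f2497e2)
  (PL.C (nat_lit 0x9b6ee6) (nat_lit 0x0) (nat_lit 0xc50c0ea9f2b5c3)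
  (PL.C (nat_lit 0x9b9558) (nat_lit 0xa1f1096fac042b) (nat_lit 0x0)
  (PL.C (nat_lit 0x9baa14) (nat_lit 0x0) (nat_lit 0x2f41a825985594)
  (PL.C (nat_lit 0x9bb0ef) (nat_lit 0x0) (nat_lit 0x77bbb003d8cc96a)
  (PL.C (nat_lit 0x9c40e6) (nat_lit 0x0) (nat_lit 0xf64f09530e95b7a)
  (PL.C (nat_lit 0x9c8f1a) (nat_lit 0xb730412eafe5764) (nat_lit 0x0)
  (PL.C (nat_lit 0x9ce87a) (nat_lit 0xa8fbc5084897ee) (nat_lit 0x0)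
  (PL.C (nat_lit 0x9d1d12) (nat_lit 0x0) (nat_lit 0x12c93f7447c7bc4)
  (PL.C (nat_lit 0x9d60bf) (nat_lit 0x0) (nat_lit 0x31ba4ba8d3c6d20) gp1_1_30))))))))))))))))))))

noncomputable def gp1_1_28 : PL :=
  (PL.C (nat_lit 0x912c42) (nat_lit 0x0) (nat_lit 0x8e400331039fc16)
  (PL.C (nat_lit 0x9173d8) (nat_lit 0x0) (nat_lit 0x106c02827e42f01)
  (PL.C (nat_lit 0x917f22) (nat_lit 0x0) (nat_lit 0x136c25d2cbce2c9)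
  (PL.C (nat_lit 0x9195fc) (nat_lit 0x0) (nat_lit 0x1e72539880bf83)
  (PL.C (nat_lit 0x91a7da) (nat_lit 0x43b0782c6cb5ee9) (nat_lit 0x0)
  (PL.C (nat_lit 0x91d3d6) (nat_lit 0x0) (nat_lit 0x79e99a07e303620)
  (PL.C (nat_lit 0x920bb2) (nat_lit 0x0) (nat_lit 0xa1739b6cef7b9d)
  (PL.C (nat_lit 0x9211e4) (nat_lit 0x0) (nat_lit 0x25504ba02894768)
  (PL.C (nat_lit 0x926c2e) (nat_lit 0x0) (nat_lit 0x6ac246adebb6b50)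
  (PL.C (nat_lit 0x92cf43) (nat_lit 0xcebe77a27afe6e) (nat_lit 0x0)
  (PL.C (nat_lit 0x94016a) (nat_lit 0x0) (nat_lit 0xcfc7359a7c6ed8b)
  (PL.C (nat_lit 0x941d63) (nat_lit 0x0) (nat_lit 0x273be7ba050f6e)
  (PL.C (nat_lit 0x947558) (nat_lit 0x0) (nat_lit 0xa9f09f19aa8e91)
  (PL.C (nat_lit 0x947eec) (nat_lit 0x12ed960d37618de) (nat_lit 0x0)
  (PL.C (nat_lit 0x95bf2c) (nat_lit 0x0) (nat_lit 0x97a3230c5a49e9)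
  (PL.C (nat_lit 0x963178) (nat_lit 0x1ca9263746c272) (nat_lit 0x0)
  (PL.C (nat_lit 0x96811b) (nat_lit 0x7a680297fea632) (nat_lit 0x0)
  (PL.C (nat_lit 0x96ae98) (nat_lit 0x0) (nat_lit 0xa8f4b733710989)
  (PL.C (nat_lit 0x975c88) (nat_lit 0x37f831bf2d59ac) (nat_lit 0x0)
  (PL.C (nat_lit 0x97c7c8) (nat_lit 0xa1450eb960323) (nat_lit 0x0) gp1_1_29))))))))))))))))))))

noncomputable def gp1_1_27 : PL :=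
  (PL.C (nat_lit 0x88ac61) (nat_lit 0x0) (nat_lit 0xa529cc0bc2512d)
  (PL.C (nat_lit 0x88e868) (nat_lit 0x23b1733572e2dab) (nat_lit 0x0)
  (PL.C (nat_lit 0x891f24) (nat_lit 0x0) (nat_lit 0x7f782eea030cf5)
  (PL.C (nat_lit 0x893dd2) (nat_lit 0x6b67eafc9ab3f52) (nat_lit 0x0)
  (PL.C (nat_lit 0x8992a7) (nat_lit 0x0) (nat_lit 0x4166a300e92367)
  (PL.C (nat_lit 0x8b0f65) (nat_lit 0xbe456d37ed83b0) (nat_lit 0x0)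
  (PL.C (nat_lit 0x8c04f6) (nat_lit 0x0) (nat_lit 0x810ec1fb374a2b)
  (PL.C (nat_lit 0x8c120c) (nat_lit 0x10df29b1bff9a9c) (nat_lit 0x0)
  (PL.C (nat_lit 0x8c2798) (nat_lit 0x0) (nat_lit 0x12c86f5fc0d2647)
  (PL.C (nat_lit 0x8c4b0a) (nat_lit 0x0) (nat_lit 0xc6d773caf9209a)
  (PL.C (nat_lit 0x8c9038) (nat_lit 0x0) (nat_lit 0x66833fd0184fc6)
  (PL.C (nat_lit 0x8cb236) (nat_lit 0x0) (nat_lit 0x5dd786dc210f83)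
  (PL.C (nat_lit 0x8d28f4) (nat_lit 0x0) (nat_lit 0x349acaf2d00c7b3)
  (PL.C (nat_lit 0x8db7e8) (nat_lit 0x0) (nat_lit 0x10976f578c7613)
  (PL.C (nat_lit 0x8ef896) (nat_lit 0x0) (nat_lit 0x3b1a863c74d443)
  (PL.C (nat_lit 0x8f07d2) (nat_lit 0x0) (nat_lit 0xa0a38e74ea4458f)
  (PL.C (nat_lit 0x8f570a) (nat_lit 0x0) (nat_lit 0x2da0faf59a74110)
  (PL.C (nat_lit 0x8f8c14) (nat_lit 0x0) (nat_lit 0x1a8d2c9fa27d686)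
  (PL.C (nat_lit 0x9057e4) (nat_lit 0x0) (nat_lit 0x8794945eb39759)
  (PL.C (nat_lit 0x90e3be) (nat_lit 0x5c466c0e184565d) (nat_lit 0x0) gp1_1_28))))))))))))))))))))

noncomputable def gp1_1_26 : PL :=
  (PL.C (nat_lit 0x839f98) (nat_lit 0x38cdb6362f8b0b3) (nat_lit 0x0)
  (PL.C (nat_lit 0x83e6fe) (nat_lit 0x0) (nat_lit 0x803833c7e4159e)
  (PL.C (nat_lit 0x842902) (nat_lit 0x2b7f9b53f92807c) (nat_lit 0x0)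
  (PL.C (nat_lit 0x843788) (nat_lit 0x0) (nat_lit 0x36bee7b2d91f42c)
  (PL.C (nat_lit 0x843e22) (nat_lit 0x113db7be8de7e41) (nat_lit 0x0)
  (PL.C (nat_lit 0x84a0da) (nat_lit 0x2a024aeceb76ea5) (nat_lit 0x0)
  (PL.C (nat_lit 0x84c1a8) (nat_lit 0x0) (nat_lit 0x73522ec22457a2)
  (PL.C (nat_lit 0x84d9fb) (nat_lit 0x1421e7cf658a7a4) (nat_lit 0x0)
  (PL.C (nat_lit 0x855e1c) (nat_lit 0xa65835c9240b7d) (nat_lit 0x0)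
  (PL.C (nat_lit 0x85a2dc) (nat_lit 0x2c7cb21996ee5af) (nat_lit 0x0)
  (PL.C (nat_lit 0x868404) (nat_lit 0x0) (nat_lit 0x153dea1206f01eb)
  (PL.C (nat_lit 0x86bd2a) (nat_lit 0x0) (nat_lit 0x1b3f1d056bac95a1)
  (PL.C (nat_lit 0x871002) (nat_lit 0xc2ebbc1ac13df8) (nat_lit 0x0)
  (PL.C (nat_lit 0x875cbc) (nat_lit 0x0) (nat_lit 0xe7fe02de7e6dac)
  (PL.C (nat_lit 0x877197) (nat_lit 0x391ca08c3323e4a) (nat_lit 0x0)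
  (PL.C (nat_lit 0x87e472) (nat_lit 0x0) (nat_lit 0x5b08ef7e5f069a)
  (PL.C (nat_lit 0x87f84c) (nat_lit 0x22e0d0a5429306d) (nat_lit 0x0)
  (PL.C (nat_lit 0x8821ef) (nat_lit 0x642de7d5417f26) (nat_lit 0x0)
  (PL.C (nat_lit 0x886611) (nat_lit 0x0) (nat_lit 0x215797d82774a37)
  (PL.C (nat_lit 0x886a44) (nat_lit 0xe50c4dcfbbe449) (nat_lit 0x0) gp1_1_27))))))))))))))))))))

noncomputable def gp1_1_25 : PL :=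
  (PL.C (nat_lit 0x7af4c2) (nat_lit 0x3eaefd11211e4e6) (nat_lit 0x0)
  (PL.C (nat_lit 0x7b3087) (nat_lit 0xb988c7567d5e87) (nat_lit 0x0)
  (PL.C (nat_lit 0x7beacc) (nat_lit 0x0) (nat_lit 0x390784e4d6a986e)
  (PL.C (nat_lit 0x7c4001) (nat_lit 0xa8cf2cb6bc4a7) (nat_lit 0x0)
  (PL.C (nat_lit 0x7cf092) (nat_lit 0x0) (nat_lit 0xb6949b34151a643)
  (PL.C (nat_lit 0x7d082f) (nat_lit 0x0) (nat_lit 0x4f78e00f29b6ac)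
  (PL.C (nat_lit 0x7d271c) (nat_lit 0x0) (nat_lit 0x87c4f20cd98300)
  (PL.C (nat_lit 0x7dba9a) (nat_lit 0x369009385eb53ad) (nat_lit 0x0)
  (PL.C (nat_lit 0x7e68dc) (nat_lit 0x49fa6c51d4f92c) (nat_lit 0x0)
  (PL.C (nat_lit 0x7e7395) (nat_lit 0x12fdf2ab956b714c) (nat_lit 0x0)
  (PL.C (nat_lit 0x7ebbc5) (nat_lit 0x1a3067ff69ed555) (nat_lit 0x0)
  (PL.C (nat_lit 0x7ec958) (nat_lit 0x0) (nat_lit 0xdfae4c1224676)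
  (PL.C (nat_lit 0x7f32f8) (nat_lit 0x7231cd16e87c9f) (nat_lit 0x0)
  (PL.C (nat_lit 0x802ea2) (nat_lit 0x38be5bcb3028fab) (nat_lit 0x0)
  (PL.C (nat_lit 0x804b48) (nat_lit 0x18479d8a5384267) (nat_lit 0x0)
  (PL.C (nat_lit 0x80eb39) (nat_lit 0xda1e0ac568a267f) (nat_lit 0x0)
  (PL.C (nat_lit 0x812dde) (nat_lit 0x18b94bb17b53810) (nat_lit 0x0)
  (PL.C (nat_lit 0x81ae58) (nat_lit 0x5f87e4657d5a436) (nat_lit 0x0)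
  (PL.C (nat_lit 0x81e634) (nat_lit 0x0) (nat_lit 0x1ea4efac6ea1477)
  (PL.C (nat_lit 0x8285ca) (nat_lit 0x2872077ed80f5d0) (nat_lit 0x0) gp1_1_26))))))))))))))))))))

noncomputable def gp1_1_24 : PL :=
  (PL.C (nat_lit 0x74e2ec) (nat_lit 0x0) (nat_lit 0x42f08654d2a2981)
  (PL.C (nat_lit 0x7506b7) (nat_lit 0x19e648abd8cf48) (nat_lit 0x0)
  (PL.C (nat_lit 0x751c56) (nat_lit 0x0) (nat_lit 0x12bced9219a99a4)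
  (PL.C (nat_lit 0x754149) (nat_lit 0x0) (nat_lit 0x3ff0faacf3f8ffd)
  (PL.C (nat_lit 0x754932) (nat_lit 0x0) (nat_lit 0xb207d1bcea4550)
  (PL.C (nat_lit 0x758439) (nat_lit 0x8c8a9331402e91) (nat_lit 0x0)
  (PL.C (nat_lit 0x7596ae) (nat_lit 0x0) (nat_lit 0x6daaf242058573)
  (PL.C (nat_lit 0x75c8a3) (nat_lit 0x0) (nat_lit 0x26f8063e519cb96)
  (PL.C (nat_lit 0x75f5c1) (nat_lit 0x0) (nat_lit 0x2d5a2b6ec21731c)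
  (PL.C (nat_lit 0x7643af) (nat_lit 0x0) (nat_lit 0x3f2f0fbbb33127a)
  (PL.C (nat_lit 0x778afd) (nat_lit 0x176ef3c8e05828c) (nat_lit 0x0)
  (PL.C (nat_lit 0x779768) (nat_lit 0x0) (nat_lit 0x4cd6f31d08735c3)
  (PL.C (nat_lit 0x77c07c) (nat_lit 0x17119492d8ae387) (nat_lit 0x0)
  (PL.C (nat_lit 0x78f306) (nat_lit 0xfcbcc7a02492a) (nat_lit 0x0)
  (PL.C (nat_lit 0x7a40e4) (nat_lit 0xd103dacb353e3e) (nat_lit 0x0)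
  (PL.C (nat_lit 0x7a46bc) (nat_lit 0x0) (nat_lit 0x65923e9f68e4d1)
  (PL.C (nat_lit 0x7a4f36) (nat_lit 0x55dcb254050ced4) (nat_lit 0x0)
  (PL.C (nat_lit 0x7a7939) (nat_lit 0x0) (nat_lit 0x8420820caf09b4)
  (PL.C (nat_lit 0x7a9784) (nat_lit 0x4c5254420d2179) (nat_lit 0x0)
  (PL.C (nat_lit 0x7aef58) (nat_lit 0x0) (nat_lit 0x18b7611d92a15c) gp1_1_25))))))))))))))))))))

noncomputable def gp1_1_23 : PL :=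
  (PL.C (nat_lit 0x6ecbac) (nat_lit 0x70dc6a22c2668c) (nat_lit 0x0)
  (PL.C (nat_lit 0x6f0aec) (nat_lit 0x0) (nat_lit 0x3e5cbd04382896)
  (PL.C (nat_lit 0x6fa22a) (nat_lit 0x0) (nat_lit 0xfa3cc09305e631)
  (PL.C (nat_lit 0x70cf4c) (nat_lit 0x0) (nat_lit 0x987ac386a46573)
  (PL.C (nat_lit 0x70d71e) (nat_lit 0x7d0e77b8a6ae9e) (nat_lit 0x0)
  (PL.C (nat_lit 0x70f51c) (nat_lit 0x0) (nat_lit 0x2f290da25f60154)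
  (PL.C (nat_lit 0x714758) (nat_lit 0x167aac5ed91d913) (nat_lit 0x0)
  (PL.C (nat_lit 0x71504d) (nat_lit 0x187c3e9ad4b0191) (nat_lit 0x0)
  (PL.C (nat_lit 0x716c54) (nat_lit 0x0) (nat_lit 0x2e03081d6a7743)
  (PL.C (nat_lit 0x7190fd) (nat_lit 0x2a746f59524903) (nat_lit 0x0)
  (PL.C (nat_lit 0x71ad14) (nat_lit 0x0) (nat_lit 0x27fda05a374fd)
  (PL.C (nat_lit 0x72038a) (nat_lit 0x6db983a4171a9c2) (nat_lit 0x0)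
  (PL.C (nat_lit 0x72a63c) (nat_lit 0x99a45c7f5c9186a) (nat_lit 0x0)
  (PL.C (nat_lit 0x72adf8) (nat_lit 0x0) (nat_lit 0x14c42391d606af)
  (PL.C (nat_lit 0x72dd52) (nat_lit 0x0) (nat_lit 0x4297f5cce99ac4)
  (PL.C (nat_lit 0x732a94) (nat_lit 0x0) (nat_lit 0x7d650959a530d76)
  (PL.C (nat_lit 0x735fa5) (nat_lit 0x158f58bbd0c1c2f) (nat_lit 0x0)
  (PL.C (nat_lit 0x738651) (nat_lit 0x0) (nat_lit 0x6cad23fc240d16b)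
  (PL.C (nat_lit 0x73a2e4) (nat_lit 0x0) (nat_lit 0x2d79893381d037)
  (PL.C (nat_lit 0x7495c2) (nat_lit 0x0) (nat_lit 0x6b2153048af77d) gp1_1_24))))))))))))))))))))

noncomputable def gp1_1_22 : PL :=
  (PL.C (nat_lit 0x68eb2a) (nat_lit 0x0) (nat_lit 0x17a6ac30c6a0139)
  (PL.C (nat_lit 0x69cd18) (nat_lit 0x0) (nat_lit 0xfea012742ab084)
  (PL.C (nat_lit 0x69ed7e) (nat_lit 0x2eb15a75d20bb0) (nat_lit 0x0)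
  (PL.C (nat_lit 0x6a2282) (nat_lit 0x5ff805382aca6a) (nat_lit 0x0)
  (PL.C (nat_lit 0x6a4fac) (nat_lit 0x0) (nat_lit 0x1ac9ca45e947235)
  (PL.C (nat_lit 0x6a56d8) (nat_lit 0x0) (nat_lit 0x962ee288e55374)
  (PL.C (nat_lit 0x6a8957) (nat_lit 0x0) (nat_lit 0x82e1843f33877)
  (PL.C (nat_lit 0x6abea9) (nat_lit 0x0) (nat_lit 0x1b665d6af49725b)
  (PL.C (nat_lit 0x6aca64) (nat_lit 0x365120eb27a8dc1) (nat_lit 0x0)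
  (PL.C (nat_lit 0x6acfb9) (nat_lit 0x27e9aaf5ab96f55) (nat_lit 0x0)
  (PL.C (nat_lit 0x6af34c) (nat_lit 0x0) (nat_lit 0x14a8d799f3e437c)
  (PL.C (nat_lit 0x6afb99) (nat_lit 0x42941cc029ef528) (nat_lit 0x0)
  (PL.C (nat_lit 0x6b1f75) (nat_lit 0x467572dfd4092be) (nat_lit 0x0)
  (PL.C (nat_lit 0x6b39f4) (nat_lit 0x245d4b03d7a9254) (nat_lit 0x0)
  (PL.C (nat_lit 0x6c34aa) (nat_lit 0x0) (nat_lit 0xb7b4e48f848ca67)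
  (PL.C (nat_lit 0x6ca048) (nat_lit 0x0) (nat_lit 0xc657fbe75a2fd)
  (PL.C (nat_lit 0x6cd3dd) (nat_lit 0x2b9bed8fa086f9a2) (nat_lit 0x0)
  (PL.C (nat_lit 0x6d2718) (nat_lit 0x5493808cbde232) (nat_lit 0x0)
  (PL.C (nat_lit 0x6de770) (nat_lit 0x1286b76a5dabee) (nat_lit 0x0)
  (PL.C (nat_lit 0x6e2e72) (nat_lit 0x8b82509a12c262) (nat_lit 0x0) gp1_1_23))))))))))))))))))))

noncomputable def gp1_1_21 : PL :=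
  (PL.C (nat_lit 0x62c9d3) (nat_lit 0x2b96e1ae0fb8684) (nat_lit 0x0)
  (PL.C (nat_lit 0x62ff48) (nat_lit 0x0) (nat_lit 0x247b31f9d6a019)
  (PL.C (nat_lit 0x634f89) (nat_lit 0x2decf41ba85f11d) (nat_lit 0x0)
  (PL.C (nat_lit 0x63d4c8) (nat_lit 0x0) (nat_lit 0x40af87f6a1b3c)
  (PL.C (nat_lit 0x645612) (nat_lit 0x22afc44e9fea053) (nat_lit 0x0)
  (PL.C (nat_lit 0x64e9b1) (nat_lit 0x4215b0a07a9ec81) (nat_lit 0x0)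
  (PL.C (nat_lit 0x6538bc) (nat_lit 0x1fd0bd599b0e000) (nat_lit 0x0)
  (PL.C (nat_lit 0x66199e) (nat_lit 0x7908b840ad2e22) (nat_lit 0x0)
  (PL.C (nat_lit 0x66678c) (nat_lit 0x17175d8922c9e9c) (nat_lit 0x0)
  (PL.C (nat_lit 0x66bcdc) (nat_lit 0x0) (nat_lit 0x85b78e2f335ed7)
  (PL.C (nat_lit 0x673374) (nat_lit 0x314c5bea72b5f5b) (nat_lit 0x0)
  (PL.C (nat_lit 0x675afc) (nat_lit 0x34f68345adec06) (nat_lit 0x0)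
  (PL.C (nat_lit 0x6785a9) (nat_lit 0x0) (nat_lit 0x7f89f5b1b40663)
  (PL.C (nat_lit 0x679f44) (nat_lit 0x0) (nat_lit 0x88859966fa7f52)
  (PL.C (nat_lit 0x67c6b8) (nat_lit 0x6c0833a0d659c6) (nat_lit 0x0)
  (PL.C (nat_lit 0x67cb4a) (nat_lit 0x0) (nat_lit 0xb14d448be5511ac)
  (PL.C (nat_lit 0x682b44) (nat_lit 0x0) (nat_lit 0x413a8dbbf55b741)
  (PL.C (nat_lit 0x685647) (nat_lit 0x0) (nat_lit 0x21ce3c97742f5d9)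
  (PL.C (nat_lit 0x689afc) (nat_lit 0x0) (nat_lit 0x1e9cba3479e67c)
  (PL.C (nat_lit 0x68be0c) (nat_lit 0x0) (nat_lit 0x2f0bc9d2c53ec91) gp1_1_22))))))))))))))))))))

noncomputable def gp1_1_20 : PL :=
  (PL.C (nat_lit 0x5cb4ee) (nat_lit 0x0) (nat_lit 0x8a9c35743d97c2)
  (PL.C (nat_lit 0x5d58a4) (nat_lit 0x3afc70ae634cab4) (nat_lit 0x0)
  (PL.C (nat_lit 0x5d875c) (nat_lit 0x0) (nat_lit 0xe896134572e0df)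
  (PL.C (nat_lit 0x5dcc24) (nat_lit 0x0) (nat_lit 0x9362995f247679)
  (PL.C (nat_lit 0x5f5a8c) (nat_lit 0x0) (nat_lit 0x17fd0eb2b2f081e)
  (PL.C (nat_lit 0x5f77bf) (nat_lit 0x356a2aeaec4afe) (nat_lit 0x0)
  (PL.C (nat_lit 0x5f8f5c) (nat_lit 0x0) (nat_lit 0x38ba47de1bbd46)
  (PL.C (nat_lit 0x5fb2b8) (nat_lit 0x770e58d615a198) (nat_lit 0x0)
  (PL.C (nat_lit 0x5feddf) (nat_lit 0x217fda6f15bead) (nat_lit 0x0)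
  (PL.C (nat_lit 0x603a98) (nat_lit 0x0) (nat_lit 0x7f632baecaffa1)
  (PL.C (nat_lit 0x6097d4) (nat_lit 0x0) (nat_lit 0x32f880da18b1cb)
  (PL.C (nat_lit 0x60c82c) (nat_lit 0x0) (nat_lit 0x8269c82d004f133)
  (PL.C (nat_lit 0x60ff6c) (nat_lit 0x0) (nat_lit 0x38b4ec2281af09)
  (PL.C (nat_lit 0x610ea8) (nat_lit 0xba8aa12e37ede7) (nat_lit 0x0)
  (PL.C (nat_lit 0x6137e4) (nat_lit 0x58e1c7e305ab27b) (nat_lit 0x0)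
  (PL.C (nat_lit 0x618555) (nat_lit 0xb9df537dc4a44b) (nat_lit 0x0)
  (PL.C (nat_lit 0x619d74) (nat_lit 0x0) (nat_lit 0x3e2a57ce25478f0)
  (PL.C (nat_lit 0x61df82) (nat_lit 0x681f66c198a901) (nat_lit 0x0)
  (PL.C (nat_lit 0x62ab9c) (nat_lit 0x0) (nat_lit 0x1e031538ece247b0)
  (PL.C (nat_lit 0x62be42) (nat_lit 0x0) (nat_lit 0x5c4455c3744b1b) gp1_1_21))))))))))))))))))))

noncomputable def gp1_1_19 : PL :=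
  (PL.C (nat_lit 0x58296c) (nat_lit 0x365e23f1c3d976f) (nat_lit 0x0)
  (PL.C (nat_lit 0x586b3c) (nat_lit 0x70854d410302faf) (nat_lit 0x0)
  (PL.C (nat_lit 0x589152) (nat_lit 0x24b4a40c2536b0) (nat_lit 0x0)
  (PL.C (nat_lit 0x58e968) (nat_lit 0x1408db02850404) (nat_lit 0x0)
  (PL.C (nat_lit 0x59ad58) (nat_lit 0x0) (nat_lit 0x12b182c4fee582)
  (PL.C (nat_lit 0x59eef3) (nat_lit 0x6d82f91933fa62c) (nat_lit 0x0)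
  (PL.C (nat_lit 0x5a0aac) (nat_lit 0x173f3eeb138ecf) (nat_lit 0x0)
  (PL.C (nat_lit 0x5a2a5d) (nat_lit 0x0) (nat_lit 0x1f517dfac35c7bd)
  (PL.C (nat_lit 0x5a4bba) (nat_lit 0x408e7a41291dd8c) (nat_lit 0x0)
  (PL.C (nat_lit 0x5a984c) (nat_lit 0x0) (nat_lit 0xa46e52f38d5e38)
  (PL.C (nat_lit 0x5aa588) (nat_lit 0x0) (nat_lit 0x2984dba4ec7ec2)
  (PL.C (nat_lit 0x5ac14a) (nat_lit 0x244ac064fe43bb1) (nat_lit 0x0)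
  (PL.C (nat_lit 0x5aeeb6) (nat_lit 0x0) (nat_lit 0x2764be40e347572)
  (PL.C (nat_lit 0x5b1d96) (nat_lit 0x0) (nat_lit 0x4e2aef69962172f)
  (PL.C (nat_lit 0x5b23e7) (nat_lit 0x3b22153c79b0473) (nat_lit 0x0)
  (PL.C (nat_lit 0x5b6a18) (nat_lit 0x41ecae0713bc54) (nat_lit 0x0)
  (PL.C (nat_lit 0x5b7e8c) (nat_lit 0x0) (nat_lit 0x1382e20271ea850)
  (PL.C (nat_lit 0x5bb71a) (nat_lit 0x0) (nat_lit 0xfd3898423cd213)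
  (PL.C (nat_lit 0x5bde11) (nat_lit 0x5a185a51853bcd3) (nat_lit 0x0)
  (PL.C (nat_lit 0x5ca765) (nat_lit 0xfbe1e1e9ff333) (nat_lit 0x0) gp1_1_20))))))))))))))))))))

noncomputable def gp1_1_18 : PL :=
  (PL.C (nat_lit 0x527727) (nat_lit 0x43d3d3be7c43a0) (nat_lit 0x0)
  (PL.C (nat_lit 0x529c88) (nat_lit 0x5b0bdc0dde1b81) (nat_lit 0x0)
  (PL.C (nat_lit 0x52d556) (nat_lit 0x0) (nat_lit 0x15f5b8d684d0228)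
  (PL.C (nat_lit 0x534b0c) (nat_lit 0x49ca124d02d5341) (nat_lit 0x0)
  (PL.C (nat_lit 0x535aca) (nat_lit 0x0) (nat_lit 0x31c5271519f64df)
  (PL.C (nat_lit 0x536f68) (nat_lit 0x0) (nat_lit 0x13ba629bb23857)
  (PL.C (nat_lit 0x53d1bc) (nat_lit 0x3a7749d3a2f049b) (nat_lit 0x0)
  (PL.C (nat_lit 0x53d56d) (nat_lit 0x0) (nat_lit 0x1185b7c58540f82)
  (PL.C (nat_lit 0x544d0e) (nat_lit 0x35ebbc90d6ddbf3) (nat_lit 0x0)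
  (PL.C (nat_lit 0x547d2e) (nat_lit 0x0) (nat_lit 0xce0c5599941d62)
  (PL.C (nat_lit 0x55746c) (nat_lit 0x0) (nat_lit 0x554b888a5e1dc5)
  (PL.C (nat_lit 0x55b969) (nat_lit 0x5854e3eb9820a) (nat_lit 0x0)
  (PL.C (nat_lit 0x55ea59) (nat_lit 0x35737b9f867ea) (nat_lit 0x0)
  (PL.C (nat_lit 0x55f226) (nat_lit 0x754aa048a59fc13) (nat_lit 0x0)
  (PL.C (nat_lit 0x561e94) (nat_lit 0x1ea085144571c69) (nat_lit 0x0)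
  (PL.C (nat_lit 0x569978) (nat_lit 0x0) (nat_lit 0x1382ca1a8db3b22)
  (PL.C (nat_lit 0x5703dc) (nat_lit 0x16a32cec84e5f94) (nat_lit 0x0)
  (PL.C (nat_lit 0x57659d) (nat_lit 0x27a3bf27a0b2a2) (nat_lit 0x0)
  (PL.C (nat_lit 0x57ef54) (nat_lit 0x25b3c5cdc86e0d8) (nat_lit 0x0)
  (PL.C (nat_lit 0x5813a3) (nat_lit 0x0) (nat_lit 0x6d78b7fe10a3547) gp1_1_19))))))))))))))))))))

noncomputable def gp1_1_17 : PL :=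
  (PL.C (nat_lit 0x4d0436) (nat_lit 0x53eac907526ee1a) (nat_lit 0x0)
  (PL.C (nat_lit 0x4d516d) (nat_lit 0x48281f83cd94c6) (nat_lit 0x0)
  (PL.C (nat_lit 0x4db92c) (nat_lit 0x2b5d88e2576841) (nat_lit 0x0)
  (PL.C (nat_lit 0x4e047a) (nat_lit 0x0) (nat_lit 0x1043d3fba1a9b42)
  (PL.C (nat_lit 0x4e12e4) (nat_lit 0x0) (nat_lit 0xd57eab87398453)
  (PL.C (nat_lit 0x4e2b86) (nat_lit 0x0) (nat_lit 0xf093d2ccf3fe7a)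
  (PL.C (nat_lit 0x4e30cc) (nat_lit 0x0) (nat_lit 0x2fa58a5737bad)
  (PL.C (nat_lit 0x4e5115) (nat_lit 0x59b4b14e405b05) (nat_lit 0x0)
  (PL.C (nat_lit 0x4e5826) (nat_lit 0x12af2d30879b8d) (nat_lit 0x0)
  (PL.C (nat_lit 0x4e6474) (nat_lit 0x0) (nat_lit 0x8b58343266f958)
  (PL.C (nat_lit 0x4e85c2) (nat_lit 0x0) (nat_lit 0x51d71d9a434157b)
  (PL.C (nat_lit 0x4ed7ca) (nat_lit 0x0) (nat_lit 0x41611e2860de472)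
  (PL.C (nat_lit 0x4fb1fe) (nat_lit 0xb481cff428ba206) (nat_lit 0x0)
  (PL.C (nat_lit 0x4fd5a8) (nat_lit 0x1741f5772738936) (nat_lit 0x0)
  (PL.C (nat_lit 0x50a204) (nat_lit 0x54193f0e3a4e83) (nat_lit 0x0)
  (PL.C (nat_lit 0x518098) (nat_lit 0x53d313ac652aac) (nat_lit 0x0)
  (PL.C (nat_lit 0x518a24) (nat_lit 0x2725bb5777c2e2) (nat_lit 0x0)
  (PL.C (nat_lit 0x51a626) (nat_lit 0x0) (nat_lit 0x12981653e3c9577)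
  (PL.C (nat_lit 0x51ba58) (nat_lit 0x0) (nat_lit 0x330efc45b482a2)
  (PL.C (nat_lit 0x52205a) (nat_lit 0xfde723ed259197) (nat_lit 0x0) gp1_1_18))))))))))))))))))))

noncomputable def gp1_1_16 : PL :=
  (PL.C (nat_lit 0x473198) (nat_lit 0x0) (nat_lit 0x17e190ca04e26e8)
  (PL.C (nat_lit 0x473526) (nat_lit 0xab49a5c9942235) (nat_lit 0x0)
  (PL.C (nat_lit 0x475266) (nat_lit 0x17dc91ce61f72ad) (nat_lit 0x0)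
  (PL.C (nat_lit 0x476a4e) (nat_lit 0x12787ffbbd1adf3) (nat_lit 0x0)
  (PL.C (nat_lit 0x477bf8) (nat_lit 0x0) (nat_lit 0xfca1a63c612e28)
  (PL.C (nat_lit 0x478911) (nat_lit 0x11056cca55bf18) (nat_lit 0x0)
  (PL.C (nat_lit 0x48231c) (nat_lit 0x0) (nat_lit 0x8db3e50a67143d1)
  (PL.C (nat_lit 0x483933) (nat_lit 0x0) (nat_lit 0xb4bc71b0cdd4c3)
  (PL.C (nat_lit 0x488d3e) (nat_lit 0x0) (nat_lit 0x2259e9a7a1e0c0a2)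
  (PL.C (nat_lit 0x48ee65) (nat_lit 0x0) (nat_lit 0x3cbb2124da9f6ef)
  (PL.C (nat_lit 0x49744c) (nat_lit 0x0) (nat_lit 0xff339217462862)
  (PL.C (nat_lit 0x49c6d1) (nat_lit 0x0) (nat_lit 0x15b3081307c34e3)
  (PL.C (nat_lit 0x4a6c1c) (nat_lit 0x79220a1f4a6ea0) (nat_lit 0x0)
  (PL.C (nat_lit 0x4b3a14) (nat_lit 0x3befead20ae1cd8) (nat_lit 0x0)
  (PL.C (nat_lit 0x4b8ade) (nat_lit 0x2c380cdd0560a7a) (nat_lit 0x0)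
  (PL.C (nat_lit 0x4bb5fe) (nat_lit 0x0) (nat_lit 0x4c9fdffef479b6)
  (PL.C (nat_lit 0x4c025c) (nat_lit 0x0) (nat_lit 0x400ffb21ce5d64)
  (PL.C (nat_lit 0x4c938c) (nat_lit 0x1055ac6baf53f3b) (nat_lit 0x0)
  (PL.C (nat_lit 0x4cea6e) (nat_lit 0x0) (nat_lit 0x1df3771b6ebdfb4)
  (PL.C (nat_lit 0x4cefc3) (nat_lit 0x52e5d92ddad36a) (nat_lit 0x0) gp1_1_17))))))))))))))))))))

noncomputable def gp1_1_15 : PL :=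
  (PL.C (nat_lit 0x42e40c) (nat_lit 0x0) (nat_lit 0x10eb3228c8c7661)
  (PL.C (nat_lit 0x42e763) (nat_lit 0x13521c30e7797c0) (nat_lit 0x0)
  (PL.C (nat_lit 0x434676) (nat_lit 0x0) (nat_lit 0x11deb7170f2fa4c3)
  (PL.C (nat_lit 0x437b28) (nat_lit 0x0) (nat_lit 0xb507586fa7296e)
  (PL.C (nat_lit 0x441114) (nat_lit 0x1fbe47d5e79572) (nat_lit 0x0)
  (PL.C (nat_lit 0x444508) (nat_lit 0x5350251148b392) (nat_lit 0x0)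
  (PL.C (nat_lit 0x447de8) (nat_lit 0x53139e87fb2c8e) (nat_lit 0x0)
  (PL.C (nat_lit 0x44ccf8) (nat_lit 0x0) (nat_lit 0xeda8f977edd43)
  (PL.C (nat_lit 0x4503c6) (nat_lit 0x0) (nat_lit 0x10591b2bc73959d)
  (PL.C (nat_lit 0x4514d8) (nat_lit 0x0) (nat_lit 0x58141141e8f33f)
  (PL.C (nat_lit 0x458eda) (nat_lit 0x0) (nat_lit 0x23e146be52342e9)
  (PL.C (nat_lit 0x45bca8) (nat_lit 0x5ba73aeee3b257) (nat_lit 0x0)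
  (PL.C (nat_lit 0x45d408) (nat_lit 0x0) (nat_lit 0x5a2a9f36f2766ff)
  (PL.C (nat_lit 0x45f21c) (nat_lit 0x0) (nat_lit 0x6c4c8ef1c16c5c6)
  (PL.C (nat_lit 0x469e54) (nat_lit 0x12830280d9c3514) (nat_lit 0x0)
  (PL.C (nat_lit 0x46c1ac) (nat_lit 0x2db9dfa63200b3) (nat_lit 0x0)
  (PL.C (nat_lit 0x46dfc8) (nat_lit 0xe6ccdeb6f3e26e) (nat_lit 0x0)
  (PL.C (nat_lit 0x46e490) (nat_lit 0x0) (nat_lit 0x2a24759e57e657)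
  (PL.C (nat_lit 0x47063a) (nat_lit 0x0) (nat_lit 0x441b581616a610c)
  (PL.C (nat_lit 0x4729c6) (nat_lit 0x0) (nat_lit 0x580217130a8cd5f) gp1_1_16))))))))))))))))))))

noncomputable def gp1_1_14 : PL :=
  (PL.C (nat_lit 0x3dc4ee) (nat_lit 0x0) (nat_lit 0xb03ce39aa9dd13)
  (PL.C (nat_lit 0x3dcdf4) (nat_lit 0x1e925f459e85d38) (nat_lit 0x0)
  (PL.C (nat_lit 0x3de0e1) (nat_lit 0x0) (nat_lit 0x386c65d22d109d5)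
  (PL.C (nat_lit 0x3e1fcf) (nat_lit 0x334bf8da53df4f6) (nat_lit 0x0)
  (PL.C (nat_lit 0x3e3b18) (nat_lit 0x51c6b84867544ab) (nat_lit 0x0)
  (PL.C (nat_lit 0x3e8818) (nat_lit 0x0) (nat_lit 0x10e821113a21b61)
  (PL.C (nat_lit 0x3f358b) (nat_lit 0x0) (nat_lit 0x536910307d7fe4c)
  (PL.C (nat_lit 0x3fa52a) (nat_lit 0x0) (nat_lit 0xe7c0246b4a6621)
  (PL.C (nat_lit 0x3ff3ea) (nat_lit 0x1e140284d8cac5) (nat_lit 0x0)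
  (PL.C (nat_lit 0x402710) (nat_lit 0x12cd1e9d57909d) (nat_lit 0x0)
  (PL.C (nat_lit 0x406538) (nat_lit 0x24515c93a6d3b0) (nat_lit 0x0)
  (PL.C (nat_lit 0x40b470) (nat_lit 0x2aa0cd651c4196) (nat_lit 0x0)
  (PL.C (nat_lit 0x41038e) (nat_lit 0x0) (nat_lit 0x1fb5f36a258bb2d)
  (PL.C (nat_lit 0x413fac) (nat_lit 0x0) (nat_lit 0x21cef0c4e366b51)
  (PL.C (nat_lit 0x415a9d) (nat_lit 0x0) (nat_lit 0x684e23bb9b8553)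
  (PL.C (nat_lit 0x41d42c) (nat_lit 0x166bd957cf8adc0) (nat_lit 0x0)
  (PL.C (nat_lit 0x41dbe2) (nat_lit 0x0) (nat_lit 0x2d6317995a869e8)
  (PL.C (nat_lit 0x425535) (nat_lit 0x8cddebc7afaf10) (nat_lit 0x0)
  (PL.C (nat_lit 0x42a1c7) (nat_lit 0x1045067c68b3ef4) (nat_lit 0x0)
  (PL.C (nat_lit 0x42bb4d) (nat_lit 0x94837dd7777e3) (nat_lit 0x0) gp1_1_15))))))))))))))))))))

noncomputable def gp1_1_13 : PL :=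
  (PL.C (nat_lit 0x3a43be) (nat_lit 0xaca2c963a20543) (nat_lit 0x0)
  (PL.C (nat_lit 0x3a9977) (nat_lit 0x3439a94d6fcc072e) (nat_lit 0x0)
  (PL.C (nat_lit 0x3ab7c2) (nat_lit 0x0) (nat_lit 0x3ee040e2eedee49)
  (PL.C (nat_lit 0x3ac648) (nat_lit 0xafbf4f24dc0d3e) (nat_lit 0x0)
  (PL.C (nat_lit 0x3af228) (nat_lit 0x1d75b3a6370e9d6) (nat_lit 0x0)
  (PL.C (nat_lit 0x3b0b8c) (nat_lit 0x17a69edf15cffae) (nat_lit 0x0)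
  (PL.C (nat_lit 0x3bf4a2) (nat_lit 0x432ae044fec1831) (nat_lit 0x0)
  (PL.C (nat_lit 0x3c1c3e) (nat_lit 0xdbdc70db8f0065) (nat_lit 0x0)
  (PL.C (nat_lit 0x3c327c) (nat_lit 0xcaec544963edefd) (nat_lit 0x0)
  (PL.C (nat_lit 0x3c44eb) (nat_lit 0x1947c02db5ed7a) (nat_lit 0x0)
  (PL.C (nat_lit 0x3c6315) (nat_lit 0x3393ee1bbb021d0) (nat_lit 0x0)
  (PL.C (nat_lit 0x3c6588) (nat_lit 0x0) (nat_lit 0xc1981596840ec9)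
  (PL.C (nat_lit 0x3c80dc) (nat_lit 0x5c623e641e04019) (nat_lit 0x0)
  (PL.C (nat_lit 0x3c9f24) (nat_lit 0x82e0bcf46b6eb0) (nat_lit 0x0)
  (PL.C (nat_lit 0x3cbe64) (nat_lit 0x273ed546c7308f5) (nat_lit 0x0)
  (PL.C (nat_lit 0x3cc29a) (nat_lit 0x19627b282529198) (nat_lit 0x0)
  (PL.C (nat_lit 0x3cff08) (nat_lit 0x0) (nat_lit 0x6549775d70a1387)
  (PL.C (nat_lit 0x3d24bc) (nat_lit 0x9d8409d3959f62) (nat_lit 0x0)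
  (PL.C (nat_lit 0x3d3eb6) (nat_lit 0x1d5de83f328a15eb) (nat_lit 0x0)
  (PL.C (nat_lit 0x3d90b9) (nat_lit 0x44011ed025049c9) (nat_lit 0x0) gp1_1_14))))))))))))))))))))

noncomputable def gp1_1_12 : PL :=
  (PL.C (nat_lit 0x352154) (nat_lit 0x0) (nat_lit 0x4ebe8c857e92b0a)
  (PL.C (nat_lit 0x353199) (nat_lit 0x0) (nat_lit 0x9bb34ecdc0cc1b)
  (PL.C (nat_lit 0x35c158) (nat_lit 0x0) (nat_lit 0x10e82d9884e360)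
  (PL.C (nat_lit 0x366ec4) (nat_lit 0x0) (nat_lit 0xab6572ae2436f6)
  (PL.C (nat_lit 0x36c03c) (nat_lit 0x1b4da2558dc37a5) (nat_lit 0x0)
  (PL.C (nat_lit 0x36fa1a) (nat_lit 0x0) (nat_lit 0x21d35e90fcec5c)
  (PL.C (nat_lit 0x3738e4) (nat_lit 0x0) (nat_lit 0x1f9b50bc3712649)
  (PL.C (nat_lit 0x3791dc) (nat_lit 0x0) (nat_lit 0x3a2cfd6d51e185)
  (PL.C (nat_lit 0x37e128) (nat_lit 0x27b9fadcd99589) (nat_lit 0x0)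
  (PL.C (nat_lit 0x37fec9) (nat_lit 0x0) (nat_lit 0xb79f19c34da369)
  (PL.C (nat_lit 0x382e75) (nat_lit 0x0) (nat_lit 0x1ac1eb2c38b63bd)
  (PL.C (nat_lit 0x385374) (nat_lit 0x0) (nat_lit 0x2a4942e231c2b2)
  (PL.C (nat_lit 0x387a2f) (nat_lit 0x210203ef54a5b80) (nat_lit 0x0)
  (PL.C (nat_lit 0x38f848) (nat_lit 0x0) (nat_lit 0xe3bb0d83bc5d38)
  (PL.C (nat_lit 0x39167d) (nat_lit 0x0) (nat_lit 0x56a790ab81e1764)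
  (PL.C (nat_lit 0x392646) (nat_lit 0x1460f08e9167d9a) (nat_lit 0x0)
  (PL.C (nat_lit 0x3946e6) (nat_lit 0x180a2a7dadb0ce) (nat_lit 0x0)
  (PL.C (nat_lit 0x3969b8) (nat_lit 0x0) (nat_lit 0x5e92a0b947f652)
  (PL.C (nat_lit 0x397a5b) (nat_lit 0x642e3409317a9a) (nat_lit 0x0)
  (PL.C (nat_lit 0x399b2b) (nat_lit 0x34f903ffb38cf4f) (nat_lit 0x0) gp1_1_13))))))))))))))))))))

noncomputable def gp1_1_11 : PL :=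
  (PL.C (nat_lit 0x309eee) (nat_lit 0x0) (nat_lit 0x837a082008215c8)
  (PL.C (nat_lit 0x312f36) (nat_lit 0x0) (nat_lit 0x91d43e9d438176e)
  (PL.C (nat_lit 0x317793) (nat_lit 0x0) (nat_lit 0xa77b0afd0b09ccb)
  (PL.C (nat_lit 0x3226b8) (nat_lit 0x1dfcbe29bef28e) (nat_lit 0x0)
  (PL.C (nat_lit 0x325c94) (nat_lit 0x11a933861e829b2) (nat_lit 0x0)
  (PL.C (nat_lit 0x327954) (nat_lit 0x0) (nat_lit 0x76455ffa1d72a)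
  (PL.C (nat_lit 0x330d08) (nat_lit 0x83a0d51edf9ac2) (nat_lit 0x0)
  (PL.C (nat_lit 0x3346f4) (nat_lit 0x0) (nat_lit 0x2f9836c16bc818d)
  (PL.C (nat_lit 0x334a82) (nat_lit 0x0) (nat_lit 0xd006444f281003)
  (PL.C (nat_lit 0x335824) (nat_lit 0x488c5a17629090e) (nat_lit 0x0)
  (PL.C (nat_lit 0x338b9e) (nat_lit 0x41f639601a7f1f) (nat_lit 0x0)
  (PL.C (nat_lit 0x33d0c8) (nat_lit 0x1202149417128df) (nat_lit 0x0)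
  (PL.C (nat_lit 0x3402fc) (nat_lit 0x0) (nat_lit 0x206f04abd7bd312)
  (PL.C (nat_lit 0x340c98) (nat_lit 0x1477b19073e3fc7) (nat_lit 0x0)
  (PL.C (nat_lit 0x341d04) (nat_lit 0x0) (nat_lit 0x15c9f4a42b5435b)
  (PL.C (nat_lit 0x342088) (nat_lit 0x1e7d9fcefda44d) (nat_lit 0x0)
  (PL.C (nat_lit 0x34360e) (nat_lit 0x0) (nat_lit 0x9e9e5553dacbb7)
  (PL.C (nat_lit 0x343ac4) (nat_lit 0x4f87b2b968123e) (nat_lit 0x0)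
  (PL.C (nat_lit 0x3442f8) (nat_lit 0x8287bf787c36e2) (nat_lit 0x0)
  (PL.C (nat_lit 0x3482df) (nat_lit 0x0) (nat_lit 0x555f16b93379ef0) gp1_1_12))))))))))))))))))))

noncomputable def gp1_1_10 : PL :=
  (PL.C (nat_lit 0x2c38ce) (nat_lit 0x2192eae3e3d6d3f) (nat_lit 0x0)
  (PL.C (nat_lit 0x2c6bda) (nat_lit 0x0) (nat_lit 0x30aff35a17c6a8f)
  (PL.C (nat_lit 0x2c7cde) (nat_lit 0x0) (nat_lit 0x8c70176f7cac719)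
  (PL.C (nat_lit 0x2c9808) (nat_lit 0x0) (nat_lit 0x4abae3b816021d6)
  (PL.C (nat_lit 0x2c9a42) (nat_lit 0xc0bc833f050ed8) (nat_lit 0x0)
  (PL.C (nat_lit 0x2cd9a4) (nat_lit 0x7afb8901321176) (nat_lit 0x0)
  (PL.C (nat_lit 0x2e0284) (nat_lit 0x86128012ca2a06) (nat_lit 0x0)
  (PL.C (nat_lit 0x2e5f3c) (nat_lit 0x0) (nat_lit 0x31c2cc9c84657b3)
  (PL.C (nat_lit 0x2ea168) (nat_lit 0x0) (nat_lit 0x38c7b756fbcdd24)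
  (PL.C (nat_lit 0x2f1438) (nat_lit 0x24eba4795d8447f) (nat_lit 0x0)
  (PL.C (nat_lit 0x2f2bc8) (nat_lit 0x4b1f2f69f07c5) (nat_lit 0x0)
  (PL.C (nat_lit 0x2f6d09) (nat_lit 0x0) (nat_lit 0x578e25fcc33570)
  (PL.C (nat_lit 0x2f78c4) (nat_lit 0x0) (nat_lit 0x43c7e4c9724236)
  (PL.C (nat_lit 0x2f8c44) (nat_lit 0x0) (nat_lit 0x15a580454e06064)
  (PL.C (nat_lit 0x2f9c34) (nat_lit 0x35f964907671aa8) (nat_lit 0x0)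
  (PL.C (nat_lit 0x2fb0b6) (nat_lit 0x589bb1839ee306) (nat_lit 0x0)
  (PL.C (nat_lit 0x301768) (nat_lit 0x15bfb953209d2ef) (nat_lit 0x0)
  (PL.C (nat_lit 0x302622) (nat_lit 0x0) (nat_lit 0x1641635b0042951)
  (PL.C (nat_lit 0x306cf9) (nat_lit 0x44e95ebd43cf1ff) (nat_lit 0x0)
  (PL.C (nat_lit 0x308cf7) (nat_lit 0x85b219aa36a6fb) (nat_lit 0x0) gp1_1_11))))))))))))))))))))

noncomputable def gp1_1_9 : PL :=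
  (PL.C (nat_lit 0x282df2) (nat_lit 0x0) (nat_lit 0x7cb3c5f6eab4c66)
  (PL.C (nat_lit 0x28420e) (nat_lit 0xc5f75925b90a6ac) (nat_lit 0x0)
  (PL.C (nat_lit 0x2843b0) (nat_lit 0x224a16910d110f) (nat_lit 0x0)
  (PL.C (nat_lit 0x2855e8) (nat_lit 0x4b2bee9f2b14c45) (nat_lit 0x0)
  (PL.C (nat_lit 0x2881bc) (nat_lit 0x1f13218803183bd) (nat_lit 0x0)
  (PL.C (nat_lit 0x290b26) (nat_lit 0x0) (nat_lit 0x2f12cbe190acddc)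
  (PL.C (nat_lit 0x292df4) (nat_lit 0x0) (nat_lit 0x1d272467b1be1bd)
  (PL.C (nat_lit 0x2933f8) (nat_lit 0x21feb661d95f10) (nat_lit 0x0)
  (PL.C (nat_lit 0x294096) (nat_lit 0x0) (nat_lit 0x4d2c776afe92e4c)
  (PL.C (nat_lit 0x296a8a) (nat_lit 0x3965f915a01d30d) (nat_lit 0x0)
  (PL.C (nat_lit 0x296d69) (nat_lit 0x64c924db05320c7) (nat_lit 0x0)
  (PL.C (nat_lit 0x29b010) (nat_lit 0x0) (nat_lit 0x6977cc407d9bfe)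
  (PL.C (nat_lit 0x2a23b2) (nat_lit 0x0) (nat_lit 0x5b893d87ebc0fb8)
  (PL.C (nat_lit 0x2a6e1c) (nat_lit 0x0) (nat_lit 0x175af797c103b2c)
  (PL.C (nat_lit 0x2aa29c) (nat_lit 0xaa5edc1803e3c3) (nat_lit 0x0)
  (PL.C (nat_lit 0x2b57b4) (nat_lit 0x0) (nat_lit 0x45b0a32de4733ea)
  (PL.C (nat_lit 0x2b7fc8) (nat_lit 0x6189a5c34a9636) (nat_lit 0x0)
  (PL.C (nat_lit 0x2b91be) (nat_lit 0x0) (nat_lit 0xad4b7195286e07)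
  (PL.C (nat_lit 0x2be2c8) (nat_lit 0x0) (nat_lit 0x427996d75ea5df)
  (PL.C (nat_lit 0x2be7ec) (nat_lit 0x0) (nat_lit 0x1e133e063d24d25) gp1_1_10))))))))))))))))))))

noncomputable def gp1_1_8 : PL :=
  (PL.C (nat_lit 0x2449d8) (nat_lit 0x4dfdab6d999c71) (nat_lit 0x0)
  (PL.C (nat_lit 0x248028) (nat_lit 0x0) (nat_lit 0x2b9f3295c176db)
  (PL.C (nat_lit 0x24a6bc) (nat_lit 0x0) (nat_lit 0xd0d5375088dde)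
  (PL.C (nat_lit 0x24d098) (nat_lit 0x0) (nat_lit 0x3779750412aaa44)
  (PL.C (nat_lit 0x250be8) (nat_lit 0xef433cbd628ca0) (nat_lit 0x0)
  (PL.C (nat_lit 0x255486) (nat_lit 0x0) (nat_lit 0x298eb7b672c65ca)
  (PL.C (nat_lit 0x25744e) (nat_lit 0x0) (nat_lit 0x5f53874b9b06579)
  (PL.C (nat_lit 0x258cf8) (nat_lit 0x0) (nat_lit 0x15279626bdf9acb)
  (PL.C (nat_lit 0x25a6ca) (nat_lit 0x0) (nat_lit 0x2f42b521b26898a)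
  (PL.C (nat_lit 0x260efe) (nat_lit 0x0) (nat_lit 0x51511018e0db420)
  (PL.C (nat_lit 0x261984) (nat_lit 0x14cfaea6edbedc6) (nat_lit 0x0)
  (PL.C (nat_lit 0x262f44) (nat_lit 0xffe61883fc123) (nat_lit 0x0)
  (PL.C (nat_lit 0x266772) (nat_lit 0x0) (nat_lit 0xb30bc53f3c49da)
  (PL.C (nat_lit 0x26d7d4) (nat_lit 0x0) (nat_lit 0x696dbfac4f3fa97)
  (PL.C (nat_lit 0x27252c) (nat_lit 0x0) (nat_lit 0x3d9638fd84ac9b6)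
  (PL.C (nat_lit 0x275d08) (nat_lit 0xf9d9cf565475ee) (nat_lit 0x0)
  (PL.C (nat_lit 0x27b9d3) (nat_lit 0x433cf13c1d43313) (nat_lit 0x0)
  (PL.C (nat_lit 0x2808ed) (nat_lit 0x13df1abe95a6010) (nat_lit 0x0)
  (PL.C (nat_lit 0x2812d4) (nat_lit 0x11d852e2279f0ce) (nat_lit 0x0)
  (PL.C (nat_lit 0x2821a8) (nat_lit 0x1669b037542aa98) (nat_lit 0x0) gp1_1_9))))))))))))))))))))

noncomputable def gp1_1_7 : PL :=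
  (PL.C (nat_lit 0x1f9e06) (nat_lit 0xde84f9e1a98090) (nat_lit 0x0)
  (PL.C (nat_lit 0x1fa5d8) (nat_lit 0x90cd866d7fb972) (nat_lit 0x0)
  (PL.C (nat_lit 0x1fcb24) (nat_lit 0x0) (nat_lit 0x357fb55c494cb58)
  (PL.C (nat_lit 0x20196c) (nat_lit 0x0) (nat_lit 0x1f1dc6a05941a07)
  (PL.C (nat_lit 0x205dfa) (nat_lit 0x1946d888652b117) (nat_lit 0x0)
  (PL.C (nat_lit 0x2069f4) (nat_lit 0xe0ec48108ce4da) (nat_lit 0x0)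
  (PL.C (nat_lit 0x20841f) (nat_lit 0x3b85fff9d9e7839) (nat_lit 0x0)
  (PL.C (nat_lit 0x2096af) (nat_lit 0x0) (nat_lit 0x31eba0dd86948a)
  (PL.C (nat_lit 0x20ca24) (nat_lit 0x0) (nat_lit 0x1720eefda88d0ff)
  (PL.C (nat_lit 0x21268b) (nat_lit 0xea253043115528f) (nat_lit 0x0)
  (PL.C (nat_lit 0x2208b0) (nat_lit 0x0) (nat_lit 0x53cbcdaa27c85c)
  (PL.C (nat_lit 0x2231ac) (nat_lit 0x0) (nat_lit 0x3f251458d978202)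
  (PL.C (nat_lit 0x225d14) (nat_lit 0x2fc38c8651179f8) (nat_lit 0x0)
  (PL.C (nat_lit 0x228b30) (nat_lit 0x4ea7ea1f2bf261) (nat_lit 0x0)
  (PL.C (nat_lit 0x22aca8) (nat_lit 0x2ecc594518d7da) (nat_lit 0x0)
  (PL.C (nat_lit 0x22b310) (nat_lit 0xa2cc8dfe379895) (nat_lit 0x0)
  (PL.C (nat_lit 0x22ceb4) (nat_lit 0x0) (nat_lit 0xf49f3aaee7aa99)
  (PL.C (nat_lit 0x22d750) (nat_lit 0x580e3a174e3143) (nat_lit 0x0)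
  (PL.C (nat_lit 0x232503) (nat_lit 0x51e43833f37530) (nat_lit 0x0)
  (PL.C (nat_lit 0x237666) (nat_lit 0x72fa1e4831f221b) (nat_lit 0x0) gp1_1_8))))))))))))))))))))

noncomputable def gp1_1_6 : PL :=
  (PL.C (nat_lit 0x1b72db) (nat_lit 0x3626207d4326a8c) (nat_lit 0x0)
  (PL.C (nat_lit 0x1b73f8) (nat_lit 0x0) (nat_lit 0xe7c7dbb98e8933)
  (PL.C (nat_lit 0x1b8064) (nat_lit 0x0) (nat_lit 0x50bd658ada65580)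
  (PL.C (nat_lit 0x1b9e46) (nat_lit 0x1335cc0f293ae868) (nat_lit 0x0)
  (PL.C (nat_lit 0x1bfbf7) (nat_lit 0x0) (nat_lit 0x3fc683b3e2a69b8)
  (PL.C (nat_lit 0x1c17cc) (nat_lit 0x1d8cd84de8ebe08) (nat_lit 0x0)
  (PL.C (nat_lit 0x1c6c68) (nat_lit 0xfca7509dc1fcd8) (nat_lit 0x0)
  (PL.C (nat_lit 0x1d0bd4) (nat_lit 0x4f73e9c76c62bc9) (nat_lit 0x0)
  (PL.C (nat_lit 0x1d7b34) (nat_lit 0x0) (nat_lit 0x151bf36d96feddb)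
  (PL.C (nat_lit 0x1d9d3c) (nat_lit 0x1b9517e62e4d582) (nat_lit 0x0)
  (PL.C (nat_lit 0x1da894) (nat_lit 0x33083d1f0c64c99) (nat_lit 0x0)
  (PL.C (nat_lit 0x1db4d3) (nat_lit 0x168491e75e78fbe) (nat_lit 0x0)
  (PL.C (nat_lit 0x1dbab0) (nat_lit 0xe4b18d2db451a3) (nat_lit 0x0)
  (PL.C (nat_lit 0x1dbc2c) (nat_lit 0x27f548dd181f26f) (nat_lit 0x0)
  (PL.C (nat_lit 0x1e26bb) (nat_lit 0xb225edca169182) (nat_lit 0x0)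
  (PL.C (nat_lit 0x1e4989) (nat_lit 0x0) (nat_lit 0x16e468b3f81008a)
  (PL.C (nat_lit 0x1e5523) (nat_lit 0x0) (nat_lit 0x479e58d2fe17e3f)
  (PL.C (nat_lit 0x1e692d) (nat_lit 0x1930a5f3b6f66f9) (nat_lit 0x0)
  (PL.C (nat_lit 0x1eea28) (nat_lit 0x0) (nat_lit 0xb311647b0f0922)
  (PL.C (nat_lit 0x1f62d0) (nat_lit 0x0) (nat_lit 0x749aba328547ae) gp1_1_7))))))))))))))))))))

noncomputable def gp1_1_5 : PL :=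
  (PL.C (nat_lit 0x188b10) (nat_lit 0x0) (nat_lit 0x11c2b7fc2535050)
  (PL.C (nat_lit 0x18e304) (nat_lit 0x0) (nat_lit 0x13c0f3a016e7054)
  (PL.C (nat_lit 0x18f834) (nat_lit 0x13d85143d9cbcaa) (nat_lit 0x0)
  (PL.C (nat_lit 0x1919dc) (nat_lit 0x0) (nat_lit 0x5df40aab7991bc)
  (PL.C (nat_lit 0x195f54) (nat_lit 0x71e5facb316cca6) (nat_lit 0x0)
  (PL.C (nat_lit 0x196658) (nat_lit 0x8e4e6e0aee3bc) (nat_lit 0x0)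
  (PL.C (nat_lit 0x1974d8) (nat_lit 0x147aa4ab6dc41f) (nat_lit 0x0)
  (PL.C (nat_lit 0x19897b) (nat_lit 0x4a0072ce1a50465) (nat_lit 0x0)
  (PL.C (nat_lit 0x199a4c) (nat_lit 0x19411de22c3a53a) (nat_lit 0x0)
  (PL.C (nat_lit 0x19e538) (nat_lit 0x0) (nat_lit 0x1acf89ec577796c)
  (PL.C (nat_lit 0x19f2f3) (nat_lit 0xf19268033b97fd) (nat_lit 0x0)
  (PL.C (nat_lit 0x1a18c8) (nat_lit 0x0) (nat_lit 0x658c6bd67f9f9aa)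
  (PL.C (nat_lit 0x1a7be2) (nat_lit 0xd7dc0e6cc721a14) (nat_lit 0x0)
  (PL.C (nat_lit 0x1ab09e) (nat_lit 0x3fe6117a36c9501) (nat_lit 0x0)
  (PL.C (nat_lit 0x1ac94c) (nat_lit 0x0) (nat_lit 0x23aeef3f8d58fcf)
  (PL.C (nat_lit 0x1ad6b4) (nat_lit 0x0) (nat_lit 0x160f6998cef0bc2)
  (PL.C (nat_lit 0x1ae3f0) (nat_lit 0x1190aba5c7477a4) (nat_lit 0x0)
  (PL.C (nat_lit 0x1b0128) (nat_lit 0x24924c30eed9130) (nat_lit 0x0)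
  (PL.C (nat_lit 0x1b5cc4) (nat_lit 0xd9946ced69ae59) (nat_lit 0x0)
  (PL.C (nat_lit 0x1b6525) (nat_lit 0x671b4ab68e28943) (nat_lit 0x0) gp1_1_6))))))))))))))))))))

noncomputable def gp1_1_4 : PL :=
  (PL.C (nat_lit 0x13d2c8) (nat_lit 0x1752e72890f0a9e) (nat_lit 0x0)
  (PL.C (nat_lit 0x1419d2) (nat_lit 0x0) (nat_lit 0x51fd4efdf9acdd2)
  (PL.C (nat_lit 0x143106) (nat_lit 0x0) (nat_lit 0x7765dcec360a0c0)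
  (PL.C (nat_lit 0x1438c2) (nat_lit 0x0) (nat_lit 0xe16b9c133734a09)
  (PL.C (nat_lit 0x14461e) (nat_lit 0x0) (nat_lit 0x74cb3b97be35a0e)
  (PL.C (nat_lit 0x151404) (nat_lit 0x15dc53ba4008779) (nat_lit 0x0)
  (PL.C (nat_lit 0x153218) (nat_lit 0x0) (nat_lit 0x532275e8d463a9c)
  (PL.C (nat_lit 0x156648) (nat_lit 0x0) (nat_lit 0x8987d6379eb45)
  (PL.C (nat_lit 0x158ea7) (nat_lit 0x0) (nat_lit 0x2ebbdf694aff46)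
  (PL.C (nat_lit 0x1593fc) (nat_lit 0x31154f54c53a3f4) (nat_lit 0x0)
  (PL.C (nat_lit 0x159bf8) (nat_lit 0x0) (nat_lit 0xd6c03fc9f37222)
  (PL.C (nat_lit 0x15ad6a) (nat_lit 0x74437524615824e) (nat_lit 0x0)
  (PL.C (nat_lit 0x15b9ca) (nat_lit 0x0) (nat_lit 0xbe7cbe43e833ba)
  (PL.C (nat_lit 0x15dc18) (nat_lit 0x0) (nat_lit 0x5d22ac8f142c1d)
  (PL.C (nat_lit 0x1619b2) (nat_lit 0x0) (nat_lit 0x6dfdfd2091ffeb9)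
  (PL.C (nat_lit 0x16e8b8) (nat_lit 0x273e2bb64729f13) (nat_lit 0x0)
  (PL.C (nat_lit 0x173478) (nat_lit 0x0) (nat_lit 0x2d59c1977a3fbd)
  (PL.C (nat_lit 0x176e02) (nat_lit 0x0) (nat_lit 0x8dc2d0e3f363ae)
  (PL.C (nat_lit 0x17a444) (nat_lit 0x2658db095fdfab0) (nat_lit 0x0)
  (PL.C (nat_lit 0x185570) (nat_lit 0x693f84195d000) (nat_lit 0x0) gp1_1_5))))))))))))))))))))

noncomputable def gp1_1_3 : PL :=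
  (PL.C (nat_lit 0x10bbe8) (nat_lit 0x26060a2ce37ebcc) (nat_lit 0x0)
  (PL.C (nat_lit 0x10ea38) (nat_lit 0x0) (nat_lit 0x36133b1f6320cb9)
  (PL.C (nat_lit 0x110652) (nat_lit 0x1f97599d63b1550) (nat_lit 0x0)
  (PL.C (nat_lit 0x114ca2) (nat_lit 0xaec29f18e0c100) (nat_lit 0x0)
  (PL.C (nat_lit 0x11a7ec) (nat_lit 0x9b1165aa6580c12) (nat_lit 0x0)
  (PL.C (nat_lit 0x11cb14) (nat_lit 0xb7a01d0e118f2e2) (nat_lit 0x0)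
  (PL.C (nat_lit 0x11db88) (nat_lit 0x0) (nat_lit 0x489927da8c69d58)
  (PL.C (nat_lit 0x11e478) (nat_lit 0x0) (nat_lit 0xdc6dc7d69b5ee0)
  (PL.C (nat_lit 0x123dd8) (nat_lit 0x10387c605a356fb6) (nat_lit 0x0)
  (PL.C (nat_lit 0x12436e) (nat_lit 0x0) (nat_lit 0xbe565e357d04ae)
  (PL.C (nat_lit 0x124c92) (nat_lit 0x85ba4c42a3bec80) (nat_lit 0x0)
  (PL.C (nat_lit 0x124d50) (nat_lit 0x29348da0f0625c) (nat_lit 0x0)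
  (PL.C (nat_lit 0x125598) (nat_lit 0x0) (nat_lit 0x54d33c4c3b3144e)
  (PL.C (nat_lit 0x126984) (nat_lit 0x0) (nat_lit 0x4d7af97692ce840)
  (PL.C (nat_lit 0x12a7fa) (nat_lit 0x0) (nat_lit 0x4e755b32c7f24a7)
  (PL.C (nat_lit 0x135d38) (nat_lit 0x444673ece8f7df1) (nat_lit 0x0)
  (PL.C (nat_lit 0x13a778) (nat_lit 0x4799d42eb40f279) (nat_lit 0x0)
  (PL.C (nat_lit 0x13be28) (nat_lit 0x0) (nat_lit 0xaf9cf67b28cb6f3)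
  (PL.C (nat_lit 0x13c5b8) (nat_lit 0x1a65a8068f5d50a) (nat_lit 0x0)
  (PL.C (nat_lit 0x13cde2) (nat_lit 0x0) (nat_lit 0x451d0264a64b1e5) gp1_1_4))))))))))))))))))))

noncomputable def gp1_1_2 : PL :=
  (PL.C (nat_lit 0xd33ec) (nat_lit 0x0) (nat_lit 0xa1f883bbf5b5da7)
  (PL.C (nat_lit 0xd3730) (nat_lit 0x17b89b97984d48e) (nat_lit 0x0)
  (PL.C (nat_lit 0xd668c) (nat_lit 0x0) (nat_lit 0x901bc30e14f614f)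
  (PL.C (nat_lit 0xd7604) (nat_lit 0x0) (nat_lit 0x254a9cd20dc8e34)
  (PL.C (nat_lit 0xd7b2c) (nat_lit 0x0) (nat_lit 0x4eb430c1492780e)
  (PL.C (nat_lit 0xd80bd) (nat_lit 0x0) (nat_lit 0x3b2a299e43eed5b)
  (PL.C (nat_lit 0xd8414) (nat_lit 0x0) (nat_lit 0xa6f401ec26eebbf)
  (PL.C (nat_lit 0xe0d58) (nat_lit 0x23fe36b66b130ee) (nat_lit 0x0)
  (PL.C (nat_lit 0xe5f1a) (nat_lit 0x594c61d2dcebfc9) (nat_lit 0x0)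
  (PL.C (nat_lit 0xe739c) (nat_lit 0xa5682bc4d2c4cc5) (nat_lit 0x0)
  (PL.C (nat_lit 0xe7bdc) (nat_lit 0x0) (nat_lit 0x25b5ee118c7eb1a)
  (PL.C (nat_lit 0xebbcc) (nat_lit 0x0) (nat_lit 0x2995a97386496475)
  (PL.C (nat_lit 0xec7b1) (nat_lit 0x2a00cb3ceb8ca14) (nat_lit 0x0)
  (PL.C (nat_lit 0xed021) (nat_lit 0x1fe9920e1f9db87) (nat_lit 0x0)
  (PL.C (nat_lit 0xf1185) (nat_lit 0x1cc94fa0979bd11e) (nat_lit 0x0)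
  (PL.C (nat_lit 0xf45d0) (nat_lit 0x16c53e5295d24ec) (nat_lit 0x0)
  (PL.C (nat_lit 0xf9eac) (nat_lit 0xe45c76526f4ee6) (nat_lit 0x0)
  (PL.C (nat_lit 0xff98d) (nat_lit 0x0) (nat_lit 0x1bfc3c5a45be8c2)
  (PL.C (nat_lit 0x109758) (nat_lit 0x3ed20fc01f7a820) (nat_lit 0x0)
  (PL.C (nat_lit 0x10a578) (nat_lit 0x0) (nat_lit 0x1a8f522e10bbe58) gp1_1_3))))))))))))))))))))

noncomputable def gp1_1_1 : PL :=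
  (PL.C (nat_lit 0x9a268) (nat_lit 0x0) (nat_lit 0x1aa163011c0c79a)
  (PL.C (nat_lit 0x9a7e8) (nat_lit 0x0) (nat_lit 0x104ed632e0a1ea)
  (PL.C (nat_lit 0x9d288) (nat_lit 0x0) (nat_lit 0x8c331a906dcfc28)
  (PL.C (nat_lit 0x9da76) (nat_lit 0x13a4f1b4ce0a8ed) (nat_lit 0x0)
  (PL.C (nat_lit 0x9e016) (nat_lit 0x28d2e2036f5601d) (nat_lit 0x0)
  (PL.C (nat_lit 0xa0bae) (nat_lit 0x3f8fd759f15ffc60) (nat_lit 0x0)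
  (PL.C (nat_lit 0xa69c8) (nat_lit 0x1c0e3c1425df4ab) (nat_lit 0x0)
  (PL.C (nat_lit 0xaa65e) (nat_lit 0x0) (nat_lit 0x370dc72ff4e90d3)
  (PL.C (nat_lit 0xb46d0) (nat_lit 0xb7278bc22363ade) (nat_lit 0x0)
  (PL.C (nat_lit 0xb598c) (nat_lit 0x0) (nat_lit 0x8143ef8766f216)
  (PL.C (nat_lit 0xb886c) (nat_lit 0x0) (nat_lit 0x11bdf2f5fb3fa9d5)
  (PL.C (nat_lit 0xbe7b0) (nat_lit 0x0) (nat_lit 0x5fb81950b77a2d6)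
  (PL.C (nat_lit 0xc2cf4) (nat_lit 0x0) (nat_lit 0x76358367f51457d)
  (PL.C (nat_lit 0xc330c) (nat_lit 0x537c3dfbba58908) (nat_lit 0x0)
  (PL.C (nat_lit 0xc6ffc) (nat_lit 0x0) (nat_lit 0x1b96490935246157)
  (PL.C (nat_lit 0xc73cb) (nat_lit 0x41b2a24dfd80c6c) (nat_lit 0x0)
  (PL.C (nat_lit 0xcb859) (nat_lit 0x2e0dbf2c491a9e6) (nat_lit 0x0)
  (PL.C (nat_lit 0xce8d0) (nat_lit 0x8a9d6a13270b72) (nat_lit 0x0)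
  (PL.C (nat_lit 0xd1a50) (nat_lit 0x736714eb0a432e) (nat_lit 0x0)
  (PL.C (nat_lit 0xd2970) (nat_lit 0x0) (nat_lit 0x24db964f20530) gp1_1_2))))))))))))))))))))

noncomputable def gp1_1 : PL :=
  (PL.C (nat_lit 0x4bbb8) (nat_lit 0x0) (nat_lit 0xe34b28c3a80552)
  (PL.C (nat_lit 0x588cc) (nat_lit 0x0) (nat_lit 0x912e3484c4bca50)
  (PL.C (nat_lit 0x5a744) (nat_lit 0x0) (nat_lit 0x20831664e309532)
  (PL.C (nat_lit 0x60054) (nat_lit 0x0) (nat_lit 0x2b2af08ec1418a4)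
  (PL.C (nat_lit 0x691a4) (nat_lit 0xdaa87ae7f912d4) (nat_lit 0x0)
  (PL.C (nat_lit 0x69564) (nat_lit 0x19eb583113112d8) (nat_lit 0x0)
  (PL.C (nat_lit 0x6b274) (nat_lit 0x9e6a914d7ba30fe) (nat_lit 0x0)
  (PL.C (nat_lit 0x6f130) (nat_lit 0xa0d71e94a5624a) (nat_lit 0x0)
  (PL.C (nat_lit 0x71994) (nat_lit 0x0) (nat_lit 0x4c90ff900d5a3af)
  (PL.C (nat_lit 0x7b048) (nat_lit 0x0) (nat_lit 0x1cb3f6c51c9a5c6c)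
  (PL.C (nat_lit 0x81df8) (nat_lit 0x6fe951df1991822) (nat_lit 0x0)
  (PL.C (nat_lit 0x84aa8) (nat_lit 0x2ee1b49131210dc) (nat_lit 0x0)
  (PL.C (nat_lit 0x84d32) (nat_lit 0x3f01164641219d6) (nat_lit 0x0)
  (PL.C (nat_lit 0x87ae6) (nat_lit 0x8bc0b9d77c5a40e) (nat_lit 0x0)
  (PL.C (nat_lit 0x8cd48) (nat_lit 0x0) (nat_lit 0x6ff54a512c66fca)
  (PL.C (nat_lit 0x8ef08) (nat_lit 0xf1b760c38488b8) (nat_lit 0x0)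
  (PL.C (nat_lit 0x8f958) (nat_lit 0x1a7ea36f7cb3186) (nat_lit 0x0)
  (PL.C (nat_lit 0x9007e) (nat_lit 0x0) (nat_lit 0xbda97d914fdfc0f)
  (PL.C (nat_lit 0x902b8) (nat_lit 0x0) (nat_lit 0x20d2e0d9cfe4640)
  (PL.C (nat_lit 0x994bc) (nat_lit 0x2a0327e236d454) (nat_lit 0x0) gp1_1_1))))))))))))))))))))

theorem chk1_1 : eqP (sm (suf (nat_lit 64) (grl (nat_lit 78) (nat_lit 33) (nat_lit 18889465931478580854784) (nat_lit 4) us1 cs1))) gp1_1 = true := by decide +kernel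


end Pool.Agent.Work.MP_440970_an.FX.D1
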