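import Pool.Agent.Work.MP_440970_an.Bdx.B01
import Pool.Agent.Work.MP_440970_an.FX.D1.U2

/-!
# parts of the squares
-/

set_option autoImplicit false
set_option maxRecDepth 1000000

namespace Pool.Agent.Work.MP_440970_an.FX.D1

noncomputable def gp2_0_219 : PL :=
  (PL.C (nat_lit 0xb3d2a6c1) (nat_lit 0x715d6306fb9e3) (nat_lit 0x0)
  (PL.C (nat_lit 0xb49381cf) (nat_lit 0x0) (nat_lit 0x12cfe5c990686)
  (PL.C (nat_lit 0xc6ce9d55) (nat_lit 0x0) (nat_lit 0x6a659ec4615e6) PL.Z)))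

noncomputable def gp2_0_218 : PL :=
  (PL.C (nat_lit 0x7723de0f) (nat_lit 0x0) (nat_lit 0x12ca09a98d3a29)
  (PL.C (nat_lit 0x7862568a) (nat_lit 0x0) (nat_lit 0x406232751de75)
  (PL.C (nat_lit 0x7c870b57) (nat_lit 0x5fa61bfae2ad4) (nat_lit 0x0)
  (PL.C (nat_lit 0x7d7f0069) (nat_lit 0x9d239cbcec8d3) (nat_lit 0x0)
  (PL.C (nat_lit 0x7d9d721d) (nat_lit 0x27590700f3a30) (nat_lit 0x0)
  (PL.C (nat_lit 0x7dc78ce9) (nat_lit 0xfe7a49d9c26f7) (nat_lit 0x0)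
  (PL.C (nat_lit 0x7e3214f6) (nat_lit 0xb3759a83d1aa) (nat_lit 0x0)
  (PL.C (nat_lit 0x7e4e7227) (nat_lit 0x13715873f353d) (nat_lit 0x0)
  (PL.C (nat_lit 0x7f954b8e) (nat_lit 0x0) (nat_lit 0x7dcdb2b2e6349)
  (PL.C (nat_lit 0x803d34eb) (nat_lit 0x0) (nat_lit 0x1d61e84663525f)
  (PL.C (nat_lit 0x8417ddca) (nat_lit 0x1c22bb954567) (nat_lit 0x0)
  (PL.C (nat_lit 0x8b0eea9d) (nat_lit 0x1ada356aad2d98) (nat_lit 0x0)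
  (PL.C (nat_lit 0x8c0bdf11) (nat_lit 0x232c601e55b079) (nat_lit 0x0)
  (PL.C (nat_lit 0x8cf35dff) (nat_lit 0x0) (nat_lit 0x2ee95a63c60d)
  (PL.C (nat_lit 0x94ce3479) (nat_lit 0x0) (nat_lit 0x3d41590c6db27)
  (PL.C (nat_lit 0x956dcb97) (nat_lit 0x0) (nat_lit 0x206d8c4bc02c6)
  (PL.C (nat_lit 0x97cc6b85) (nat_lit 0x0) (nat_lit 0x19527df78dc07)
  (PL.C (nat_lit 0x9a2d4afe) (nat_lit 0x0) (nat_lit 0x14882d641db46)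
  (PL.C (nat_lit 0xa483e16d) (nat_lit 0x4d98b8b04494f) (nat_lit 0x0)
  (PL.C (nat_lit 0xaa54ab77) (nat_lit 0xaca8eda5c717) (nat_lit 0x0) gp2_0_219))))))))))))))))))))

noncomputable def gp2_0_217 : PL :=
  (PL.C (nat_lit 0x639e87ba) (nat_lit 0x1e7503c1b957a) (nat_lit 0x0)
  (PL.C (nat_lit 0x6447c847) (nat_lit 0x1062a8e9fe2be4) (nat_lit 0x0)
  (PL.C (nat_lit 0x65ed5fb3) (nat_lit 0x0) (nat_lit 0x2f3a0cbb18c3b)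
  (PL.C (nat_lit 0x669e38b1) (nat_lit 0x0) (nat_lit 0x1046328b839fc4)
  (PL.C (nat_lit 0x670c46df) (nat_lit 0x0) (nat_lit 0x65cf1b3e4b859)
  (PL.C (nat_lit 0x67d976e1) (nat_lit 0x944fa7754da5) (nat_lit 0x0)
  (PL.C (nat_lit 0x686da7c6) (nat_lit 0xe949be44ca32f) (nat_lit 0x0)
  (PL.C (nat_lit 0x69de6871) (nat_lit 0x1a06c22ae1866e) (nat_lit 0x0)
  (PL.C (nat_lit 0x6a2d704d) (nat_lit 0x924aef93db85c) (nat_lit 0x0)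
  (PL.C (nat_lit 0x6a4ff31f) (nat_lit 0xf4045a4af4d89) (nat_lit 0x0)
  (PL.C (nat_lit 0x6b0ccadf) (nat_lit 0x3fcc3289cc304) (nat_lit 0x0)
  (PL.C (nat_lit 0x6bd752ae) (nat_lit 0x0) (nat_lit 0x24e568bf2109)
  (PL.C (nat_lit 0x6d4f04fa) (nat_lit 0x0) (nat_lit 0x43e56aec2fd5)
  (PL.C (nat_lit 0x6ddee149) (nat_lit 0x8e652d9e9db76) (nat_lit 0x0)
  (PL.C (nat_lit 0x71739e05) (nat_lit 0x0) (nat_lit 0x15e7e16304bcbe)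
  (PL.C (nat_lit 0x73e3d649) (nat_lit 0x216b7eb5657674) (nat_lit 0x0)
  (PL.C (nat_lit 0x73fe527f) (nat_lit 0x0) (nat_lit 0x5bb5099f5d567)
  (PL.C (nat_lit 0x747ab8f1) (nat_lit 0x0) (nat_lit 0xf9a80e271b6d5)
  (PL.C (nat_lit 0x750ba8c5) (nat_lit 0x0) (nat_lit 0xf20b532e044d5)
  (PL.C (nat_lit 0x76389115) (nat_lit 0x0) (nat_lit 0x44ec1fec9023c) gp2_0_218))))))))))))))))))))

noncomputable def gp2_0_216 : PL :=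
  (PL.C (nat_lit 0x57fb9f1e) (nat_lit 0x2063dd7feace9b) (nat_lit 0x0)
  (PL.C (nat_lit 0x58044a69) (nat_lit 0x26b709b7be8270) (nat_lit 0x0)
  (PL.C (nat_lit 0x5844eb66) (nat_lit 0x1f00a5a1c8bac5) (nat_lit 0x0)
  (PL.C (nat_lit 0x58848aed) (nat_lit 0x0) (nat_lit 0x81691abf65cc5)
  (PL.C (nat_lit 0x5895c827) (nat_lit 0x4e0aefd015b18) (nat_lit 0x0)
  (PL.C (nat_lit 0x595ea7f5) (nat_lit 0x7c1a6548095c0) (nat_lit 0x0)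
  (PL.C (nat_lit 0x5a55fe2f) (nat_lit 0x0) (nat_lit 0x6d2440642d0dba)
  (PL.C (nat_lit 0x5ac51f9e) (nat_lit 0x22b193659959f6) (nat_lit 0x0)
  (PL.C (nat_lit 0x5bb77005) (nat_lit 0x0) (nat_lit 0x458b70dc1eeba)
  (PL.C (nat_lit 0x5c64f55a) (nat_lit 0x2dde7c80c08ef1) (nat_lit 0x0)
  (PL.C (nat_lit 0x5cdc8b19) (nat_lit 0x4952331b3ce13c) (nat_lit 0x0)
  (PL.C (nat_lit 0x5da92f5f) (nat_lit 0x0) (nat_lit 0xfd554d67c847d)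
  (PL.C (nat_lit 0x5f152467) (nat_lit 0x2695e02d55b5d) (nat_lit 0x0)
  (PL.C (nat_lit 0x60d3e3a3) (nat_lit 0x18718d955aeb22) (nat_lit 0x0)
  (PL.C (nat_lit 0x61338607) (nat_lit 0x90b045332cdfd) (nat_lit 0x0)
  (PL.C (nat_lit 0x613bbc0d) (nat_lit 0x0) (nat_lit 0x256e5d5b19593)
  (PL.C (nat_lit 0x61d4472d) (nat_lit 0x0) (nat_lit 0x1515115f3f6fc5)
  (PL.C (nat_lit 0x61eaa2bb) (nat_lit 0x0) (nat_lit 0x50ccba23850ed)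
  (PL.C (nat_lit 0x61f511b9) (nat_lit 0x816a9db5003287) (nat_lit 0x0)
  (PL.C (nat_lit 0x63736282) (nat_lit 0x0) (nat_lit 0x9f9feeb48cfcc) gp2_0_217))))))))))))))))))))

noncomputable def gp2_0_215 : PL :=
  (PL.C (nat_lit 0x503ec985) (nat_lit 0x0) (nat_lit 0x4baeea2a9ae8a)
  (PL.C (nat_lit 0x50535969) (nat_lit 0x28ad93eb10d3bf) (nat_lit 0x0)
  (PL.C (nat_lit 0x50f34ad7) (nat_lit 0x0) (nat_lit 0xb76daa77df229)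
  (PL.C (nat_lit 0x5166ce8a) (nat_lit 0x0) (nat_lit 0x186f744410da7d)
  (PL.C (nat_lit 0x51bcd76f) (nat_lit 0x0) (nat_lit 0x102ef33b4fb591)
  (PL.C (nat_lit 0x527367c1) (nat_lit 0x23a5d84c1b3d2b9) (nat_lit 0x0)
  (PL.C (nat_lit 0x52b0f45d) (nat_lit 0x0) (nat_lit 0x7825a1a0c96dc0)
  (PL.C (nat_lit 0x5304b23a) (nat_lit 0xe26273ce0acc5) (nat_lit 0x0)
  (PL.C (nat_lit 0x53aa0046) (nat_lit 0x658c8b4df047d) (nat_lit 0x0)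
  (PL.C (nat_lit 0x53fe7c75) (nat_lit 0xf7180e069310d) (nat_lit 0x0)
  (PL.C (nat_lit 0x54344c1a) (nat_lit 0x0) (nat_lit 0x17a9d83ddc67f)
  (PL.C (nat_lit 0x5458915b) (nat_lit 0x4c77c47bf2ab9) (nat_lit 0x0)
  (PL.C (nat_lit 0x54b79623) (nat_lit 0x141db85b581116) (nat_lit 0x0)
  (PL.C (nat_lit 0x5512718d) (nat_lit 0xbe05a0194fe3) (nat_lit 0x0)
  (PL.C (nat_lit 0x5534aeb6) (nat_lit 0x0) (nat_lit 0x549882e02af9cc)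
  (PL.C (nat_lit 0x560adfbf) (nat_lit 0x3f7ec5be06e59) (nat_lit 0x0)
  (PL.C (nat_lit 0x56a02935) (nat_lit 0x0) (nat_lit 0x598502b8429f25)
  (PL.C (nat_lit 0x571a38ef) (nat_lit 0x0) (nat_lit 0x174a2ec6f28019)
  (PL.C (nat_lit 0x57b8aaab) (nat_lit 0x8f6e89a41d488) (nat_lit 0x0)
  (PL.C (nat_lit 0x57c7a8d1) (nat_lit 0x12a903489ad5d0) (nat_lit 0x0) gp2_0_216))))))))))))))))))))

noncomputable def gp2_0_214 : PL :=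
  (PL.C (nat_lit 0x479da7d9) (nat_lit 0x0) (nat_lit 0x2815e2cdf1505b)
  (PL.C (nat_lit 0x4803d996) (nat_lit 0x5c94355e9c7cd) (nat_lit 0x0)
  (PL.C (nat_lit 0x48972693) (nat_lit 0x59f134609dd5d) (nat_lit 0x0)
  (PL.C (nat_lit 0x48a28d3a) (nat_lit 0x0) (nat_lit 0xeeda98667bfef)
  (PL.C (nat_lit 0x493fdc45) (nat_lit 0x0) (nat_lit 0x14f70a48cfe8e)
  (PL.C (nat_lit 0x49507227) (nat_lit 0x0) (nat_lit 0x20716cdd45e66f)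
  (PL.C (nat_lit 0x49e26d99) (nat_lit 0x1e53aed02ce893) (nat_lit 0x0)
  (PL.C (nat_lit 0x4a4bdc16) (nat_lit 0x5250353b5ec9a1) (nat_lit 0x0)
  (PL.C (nat_lit 0x4ac79503) (nat_lit 0x859673bbd9092) (nat_lit 0x0)
  (PL.C (nat_lit 0x4ae0a5b7) (nat_lit 0x0) (nat_lit 0x23cf4c5367e53)
  (PL.C (nat_lit 0x4b616d2a) (nat_lit 0x0) (nat_lit 0x1c3eb62962c1c5)
  (PL.C (nat_lit 0x4b68da93) (nat_lit 0x0) (nat_lit 0x19be1b77d26b38)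
  (PL.C (nat_lit 0x4c41f12b) (nat_lit 0x7c6e6c87feb64c) (nat_lit 0x0)
  (PL.C (nat_lit 0x4da725f6) (nat_lit 0x30def5bb8e9b2) (nat_lit 0x0)
  (PL.C (nat_lit 0x4dc4baaa) (nat_lit 0x31171a9b48a5ad) (nat_lit 0x0)
  (PL.C (nat_lit 0x4eae936f) (nat_lit 0x32058e45376f) (nat_lit 0x0)
  (PL.C (nat_lit 0x4f8f7523) (nat_lit 0x0) (nat_lit 0xb0939a1f6dc0b)
  (PL.C (nat_lit 0x4f9caa85) (nat_lit 0x0) (nat_lit 0x195cf797cc26a)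
  (PL.C (nat_lit 0x4feb4c01) (nat_lit 0x1b50d5da78d28f) (nat_lit 0x0)
  (PL.C (nat_lit 0x4ff20c4b) (nat_lit 0x0) (nat_lit 0x10ecad4c2b4bce) gp2_0_215))))))))))))))))))))

noncomputable def gp2_0_213 : PL :=
  (PL.C (nat_lit 0x4281bc7f) (nat_lit 0x0) (nat_lit 0xa2da002130e48)
  (PL.C (nat_lit 0x430da3a5) (nat_lit 0x0) (nat_lit 0x18c9fe75d3aae)
  (PL.C (nat_lit 0x43347559) (nat_lit 0x0) (nat_lit 0x890326ec4b608)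
  (PL.C (nat_lit 0x4376d5c5) (nat_lit 0x2250d1885e9dc2) (nat_lit 0x0)
  (PL.C (nat_lit 0x4393279b) (nat_lit 0xf899900c10af6) (nat_lit 0x0)
  (PL.C (nat_lit 0x43a38c37) (nat_lit 0x0) (nat_lit 0x4e20f63d67464)
  (PL.C (nat_lit 0x43ec16b9) (nat_lit 0x0) (nat_lit 0xa529cf9e9aed7)
  (PL.C (nat_lit 0x43f39522) (nat_lit 0x0) (nat_lit 0x796918573009f)
  (PL.C (nat_lit 0x44420576) (nat_lit 0x0) (nat_lit 0x330d4252880251)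
  (PL.C (nat_lit 0x44b2d9ea) (nat_lit 0x0) (nat_lit 0xdc01b9137f4ac)
  (PL.C (nat_lit 0x450d43e1) (nat_lit 0x0) (nat_lit 0x121cc357b35cb9)
  (PL.C (nat_lit 0x453ba496) (nat_lit 0x0) (nat_lit 0x9e17a6228ade3)
  (PL.C (nat_lit 0x4599f085) (nat_lit 0x0) (nat_lit 0x1b52c26b26a2ca3)
  (PL.C (nat_lit 0x46dff76a) (nat_lit 0x0) (nat_lit 0x8bec03a60c77e)
  (PL.C (nat_lit 0x46e77309) (nat_lit 0x3a8ffbb9cd2170) (nat_lit 0x0)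
  (PL.C (nat_lit 0x471027e7) (nat_lit 0x2da998a758d5b) (nat_lit 0x0)
  (PL.C (nat_lit 0x47208b1e) (nat_lit 0x72a6b129c0d1c) (nat_lit 0x0)
  (PL.C (nat_lit 0x47337e07) (nat_lit 0x481cafdbb65c) (nat_lit 0x0)
  (PL.C (nat_lit 0x474b5bab) (nat_lit 0x1f7dc961f59e47) (nat_lit 0x0)
  (PL.C (nat_lit 0x4783b3ef) (nat_lit 0x1408ff348c49bc) (nat_lit 0x0) gp2_0_214))))))))))))))))))))

noncomputable def gp2_0_212 : PL :=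
  (PL.C (nat_lit 0x3c2efd97) (nat_lit 0x1e9d993b718c57) (nat_lit 0x0)
  (PL.C (nat_lit 0x3d16deef) (nat_lit 0x456a4cf65a29c) (nat_lit 0x0)
  (PL.C (nat_lit 0x3d551459) (nat_lit 0xcbcbadac019e2) (nat_lit 0x0)
  (PL.C (nat_lit 0x3d5b9d63) (nat_lit 0x0) (nat_lit 0x3ac71e9a4bbb50)
  (PL.C (nat_lit 0x3d9082d1) (nat_lit 0x74f962bb7f0f20) (nat_lit 0x0)
  (PL.C (nat_lit 0x3db32bd2) (nat_lit 0x0) (nat_lit 0x124c32f4ef6e5a)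
  (PL.C (nat_lit 0x3dea37f5) (nat_lit 0x1917a801de91a) (nat_lit 0x0)
  (PL.C (nat_lit 0x3e008015) (nat_lit 0x0) (nat_lit 0x1b649725c33e05d)
  (PL.C (nat_lit 0x3e3b241e) (nat_lit 0x250b7150fc35d7) (nat_lit 0x0)
  (PL.C (nat_lit 0x3e66fd3b) (nat_lit 0x28239eb1c7a92) (nat_lit 0x0)
  (PL.C (nat_lit 0x3e75401d) (nat_lit 0x5990ccd9d72be2) (nat_lit 0x0)
  (PL.C (nat_lit 0x3eb83c33) (nat_lit 0x0) (nat_lit 0x490ebe2c0da12)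
  (PL.C (nat_lit 0x3f06472f) (nat_lit 0x3a5736f119d182) (nat_lit 0x0)
  (PL.C (nat_lit 0x3f636d9a) (nat_lit 0x4020e96991891) (nat_lit 0x0)
  (PL.C (nat_lit 0x3fa84e1f) (nat_lit 0x0) (nat_lit 0x2662eece42722c)
  (PL.C (nat_lit 0x401187d1) (nat_lit 0x0) (nat_lit 0xff770705bd3dd)
  (PL.C (nat_lit 0x40d27d5e) (nat_lit 0x5523803f93859) (nat_lit 0x0)
  (PL.C (nat_lit 0x416a2d05) (nat_lit 0xeb9933081a19f) (nat_lit 0x0)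
  (PL.C (nat_lit 0x41bf580d) (nat_lit 0x0) (nat_lit 0x374e8fbebaacd2)
  (PL.C (nat_lit 0x41fa5513) (nat_lit 0x299fb79637287e) (nat_lit 0x0) gp2_0_213))))))))))))))))))))

noncomputable def gp2_0_211 : PL :=
  (PL.C (nat_lit 0x38958315) (nat_lit 0x4eb4052371d55d) (nat_lit 0x0)
  (PL.C (nat_lit 0x38b6f65e) (nat_lit 0x0) (nat_lit 0x4d8a7722a1ac0)
  (PL.C (nat_lit 0x39019ab3) (nat_lit 0x20dce37d1c474f) (nat_lit 0x0)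
  (PL.C (nat_lit 0x39190553) (nat_lit 0x0) (nat_lit 0x505b9372fdf24)
  (PL.C (nat_lit 0x392c28c7) (nat_lit 0x0) (nat_lit 0xe436c12a74236)
  (PL.C (nat_lit 0x393ebdfd) (nat_lit 0xef8162fddaadd) (nat_lit 0x0)
  (PL.C (nat_lit 0x395c952a) (nat_lit 0x48483b71344c6) (nat_lit 0x0)
  (PL.C (nat_lit 0x39a46d3d) (nat_lit 0x5df856762082e) (nat_lit 0x0)
  (PL.C (nat_lit 0x39fe0b12) (nat_lit 0x318e0a9933c5) (nat_lit 0x0)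
  (PL.C (nat_lit 0x3a117b4a) (nat_lit 0x0) (nat_lit 0x175ea4748a8631)
  (PL.C (nat_lit 0x3a2a7e83) (nat_lit 0x0) (nat_lit 0x3de8ab6643dd81)
  (PL.C (nat_lit 0x3a7b1c72) (nat_lit 0x16c47a95f50e32) (nat_lit 0x0)
  (PL.C (nat_lit 0x3a851b36) (nat_lit 0x0) (nat_lit 0x13c523d36414b0)
  (PL.C (nat_lit 0x3a9e503d) (nat_lit 0x0) (nat_lit 0x151c5c5a946f68)
  (PL.C (nat_lit 0x3aaaad25) (nat_lit 0x0) (nat_lit 0x4293cd75e7f39)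
  (PL.C (nat_lit 0x3af1f5ee) (nat_lit 0xa1575f9aee389) (nat_lit 0x0)
  (PL.C (nat_lit 0x3b1f7e1b) (nat_lit 0x28e9259d08f7e3) (nat_lit 0x0)
  (PL.C (nat_lit 0x3b293e3b) (nat_lit 0x0) (nat_lit 0xc743061b71967)
  (PL.C (nat_lit 0x3b73dc22) (nat_lit 0x0) (nat_lit 0x10a109c31d585c)
  (PL.C (nat_lit 0x3c0231c3) (nat_lit 0x20259e2234440d) (nat_lit 0x0) gp2_0_212))))))))))))))))))))

noncomputable def gp2_0_210 : PL :=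
  (PL.C (nat_lit 0x34ad6167) (nat_lit 0x13f510b4733fb6) (nat_lit 0x0)
  (PL.C (nat_lit 0x34b96b51) (nat_lit 0x0) (nat_lit 0x1a99425dbe64e7)
  (PL.C (nat_lit 0x34bf098b) (nat_lit 0x6448fd68c3285a) (nat_lit 0x0)
  (PL.C (nat_lit 0x354c0832) (nat_lit 0xb8628b3303386) (nat_lit 0x0)
  (PL.C (nat_lit 0x358ce646) (nat_lit 0x794bfb298d14e2) (nat_lit 0x0)
  (PL.C (nat_lit 0x35c71631) (nat_lit 0x0) (nat_lit 0xa41f5b18adf373)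
  (PL.C (nat_lit 0x35f7873a) (nat_lit 0x1017ee126faade) (nat_lit 0x0)
  (PL.C (nat_lit 0x35ff4475) (nat_lit 0x0) (nat_lit 0x19db7d95fb7a3)
  (PL.C (nat_lit 0x36428ff7) (nat_lit 0x72aaee1753835) (nat_lit 0x0)
  (PL.C (nat_lit 0x36e24739) (nat_lit 0x1e9277e515741) (nat_lit 0x0)
  (PL.C (nat_lit 0x3721a1f3) (nat_lit 0xe9d33b876e5e3) (nat_lit 0x0)
  (PL.C (nat_lit 0x373861d9) (nat_lit 0x0) (nat_lit 0x9158e0eb70539e)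
  (PL.C (nat_lit 0x37804701) (nat_lit 0x0) (nat_lit 0x22d57636b2ca98)
  (PL.C (nat_lit 0x378f68cd) (nat_lit 0x0) (nat_lit 0x5fd11b1ca837)
  (PL.C (nat_lit 0x37af874d) (nat_lit 0x80a3f60292cb06) (nat_lit 0x0)
  (PL.C (nat_lit 0x37b2129f) (nat_lit 0x0) (nat_lit 0x1c841cbaa5a14c)
  (PL.C (nat_lit 0x37deb14e) (nat_lit 0x0) (nat_lit 0x129334b1734d24)
  (PL.C (nat_lit 0x37eb4003) (nat_lit 0x112021009c9c53) (nat_lit 0x0)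
  (PL.C (nat_lit 0x37fa9637) (nat_lit 0x1e195cad8d064d) (nat_lit 0x0)
  (PL.C (nat_lit 0x383b0b92) (nat_lit 0x2a6ec6691b4c91) (nat_lit 0x0) gp2_0_211))))))))))))))))))))

noncomputable def gp2_0_209 : PL :=
  (PL.C (nat_lit 0x3064c462) (nat_lit 0x0) (nat_lit 0x21f84b676369ab)
  (PL.C (nat_lit 0x30a4752d) (nat_lit 0x0) (nat_lit 0x1041c2a4cccecf3)
  (PL.C (nat_lit 0x30d8a023) (nat_lit 0x3d3677e99e6cd8) (nat_lit 0x0)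
  (PL.C (nat_lit 0x30e04c1a) (nat_lit 0x0) (nat_lit 0x665f462535b2b)
  (PL.C (nat_lit 0x3119e5cf) (nat_lit 0x0) (nat_lit 0x2ad5241f59f9da)
  (PL.C (nat_lit 0x31419e66) (nat_lit 0x0) (nat_lit 0x872f79ccd12ec)
  (PL.C (nat_lit 0x31af8de6) (nat_lit 0x0) (nat_lit 0x75916607d9b8e)
  (PL.C (nat_lit 0x320099ab) (nat_lit 0x2afc0c783b4632) (nat_lit 0x0)
  (PL.C (nat_lit 0x320f29fb) (nat_lit 0x7dfdff0158c03f) (nat_lit 0x0)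
  (PL.C (nat_lit 0x32136489) (nat_lit 0x0) (nat_lit 0x2db0bb91ea77d)
  (PL.C (nat_lit 0x323a51d9) (nat_lit 0x18729edce7726f) (nat_lit 0x0)
  (PL.C (nat_lit 0x326ecabd) (nat_lit 0x0) (nat_lit 0x1603d46a2e17a5)
  (PL.C (nat_lit 0x3283821d) (nat_lit 0x0) (nat_lit 0x62e8bab465f1c)
  (PL.C (nat_lit 0x32a8160f) (nat_lit 0x0) (nat_lit 0xa5dac583a25e9)
  (PL.C (nat_lit 0x3332c4d5) (nat_lit 0x0) (nat_lit 0x585e5422e437)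
  (PL.C (nat_lit 0x3391a4eb) (nat_lit 0x0) (nat_lit 0x159401df01c19f)
  (PL.C (nat_lit 0x33a51f3b) (nat_lit 0x71724450426993) (nat_lit 0x0)
  (PL.C (nat_lit 0x341d26dd) (nat_lit 0x1a1b124b736ac7) (nat_lit 0x0)
  (PL.C (nat_lit 0x3456dd29) (nat_lit 0x154a22e6a028c5a) (nat_lit 0x0)
  (PL.C (nat_lit 0x3474624a) (nat_lit 0x0) (nat_lit 0x2afc70fa3bcff) gp2_0_210))))))))))))))))))))

noncomputable def gp2_0_208 : PL :=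
  (PL.C (nat_lit 0x2d6e7835) (nat_lit 0x0) (nat_lit 0x2cdddb6be1694c)
  (PL.C (nat_lit 0x2d9f319b) (nat_lit 0x0) (nat_lit 0x2c0cfbf99c1d2)
  (PL.C (nat_lit 0x2de14a62) (nat_lit 0x0) (nat_lit 0x13c683accd9315)
  (PL.C (nat_lit 0x2e1324ab) (nat_lit 0x945e83d0cbda64) (nat_lit 0x0)
  (PL.C (nat_lit 0x2e549fdd) (nat_lit 0x13de04a6f0302e) (nat_lit 0x0)
  (PL.C (nat_lit 0x2ea5027f) (nat_lit 0x0) (nat_lit 0x53214be213799d)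
  (PL.C (nat_lit 0x2ed708f1) (nat_lit 0x0) (nat_lit 0xbb35a217a70c0)
  (PL.C (nat_lit 0x2f01e341) (nat_lit 0x5e4069adf4987a) (nat_lit 0x0)
  (PL.C (nat_lit 0x2f344d4f) (nat_lit 0x0) (nat_lit 0x3860e72d859f1)
  (PL.C (nat_lit 0x2f3c0d21) (nat_lit 0x0) (nat_lit 0x567552c1a5bb0f)
  (PL.C (nat_lit 0x2f441fd3) (nat_lit 0x29912726323327) (nat_lit 0x0)
  (PL.C (nat_lit 0x2f601a9a) (nat_lit 0xdb8311fe677af) (nat_lit 0x0)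
  (PL.C (nat_lit 0x2f64c59b) (nat_lit 0x0) (nat_lit 0x51658a6b9b64d8)
  (PL.C (nat_lit 0x2f77a95a) (nat_lit 0x225c0398f1ba5c) (nat_lit 0x0)
  (PL.C (nat_lit 0x2f879272) (nat_lit 0x194cb5a4d6a103) (nat_lit 0x0)
  (PL.C (nat_lit 0x2f9c0b8f) (nat_lit 0x2122ceabd79420) (nat_lit 0x0)
  (PL.C (nat_lit 0x2fa9d4a7) (nat_lit 0x0) (nat_lit 0x374c7a659fcd1)
  (PL.C (nat_lit 0x2fbe6fe6) (nat_lit 0x0) (nat_lit 0x4f781f24dc8ba4)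
  (PL.C (nat_lit 0x3004f6b9) (nat_lit 0x2a7752c772b83b) (nat_lit 0x0)
  (PL.C (nat_lit 0x301f46bf) (nat_lit 0x0) (nat_lit 0x1f424732ed7af7) gp2_0_209))))))))))))))))))))

noncomputable def gp2_0_207 : PL :=
  (PL.C (nat_lit 0x2a92b871) (nat_lit 0x14e1cb838cfa60) (nat_lit 0x0)
  (PL.C (nat_lit 0x2ade346f) (nat_lit 0x0) (nat_lit 0x33789a844f2d5f)
  (PL.C (nat_lit 0x2b088b63) (nat_lit 0x0) (nat_lit 0x60d7470fe6f99)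
  (PL.C (nat_lit 0x2b0c2e01) (nat_lit 0x0) (nat_lit 0x32fd54350ab6cf)
  (PL.C (nat_lit 0x2b40929b) (nat_lit 0x28eb7cef8bf7c) (nat_lit 0x0)
  (PL.C (nat_lit 0x2b5e3b5d) (nat_lit 0x16b473ee617821a) (nat_lit 0x0)
  (PL.C (nat_lit 0x2b96b225) (nat_lit 0x0) (nat_lit 0x76d08143f5ba3)
  (PL.C (nat_lit 0x2bd4e55e) (nat_lit 0x0) (nat_lit 0x1c87d27f7c1c89)
  (PL.C (nat_lit 0x2c0338ed) (nat_lit 0x1cc9a737757cc9) (nat_lit 0x0)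
  (PL.C (nat_lit 0x2c2eb149) (nat_lit 0x50eb7bc1a140c1) (nat_lit 0x0)
  (PL.C (nat_lit 0x2c567daa) (nat_lit 0x0) (nat_lit 0x8fae00171cd05)
  (PL.C (nat_lit 0x2c6586a3) (nat_lit 0x3200b8522863162) (nat_lit 0x0)
  (PL.C (nat_lit 0x2c6996d3) (nat_lit 0x0) (nat_lit 0x9644fed90090f)
  (PL.C (nat_lit 0x2c77c343) (nat_lit 0x0) (nat_lit 0x15ab2f85d465ed)
  (PL.C (nat_lit 0x2c86aaf7) (nat_lit 0x0) (nat_lit 0x48a5630adc43ae)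
  (PL.C (nat_lit 0x2cb3c26e) (nat_lit 0x0) (nat_lit 0x1b6e357b6e5c3)
  (PL.C (nat_lit 0x2ccb7655) (nat_lit 0x0) (nat_lit 0x52b761b95c95b)
  (PL.C (nat_lit 0x2d0cc512) (nat_lit 0x166aa198a277b8) (nat_lit 0x0)
  (PL.C (nat_lit 0x2d202cbf) (nat_lit 0x0) (nat_lit 0x1a6deba9c7708b)
  (PL.C (nat_lit 0x2d480f26) (nat_lit 0x0) (nat_lit 0x9fc1dcc629c4) gp2_0_208))))))))))))))))))))

noncomputable def gp2_0_206 : PL :=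
  (PL.C (nat_lit 0x28309c0b) (nat_lit 0x1b1fe2e89f99cd) (nat_lit 0x0)
  (PL.C (nat_lit 0x28441529) (nat_lit 0x2e9cfcd51018b) (nat_lit 0x0)
  (PL.C (nat_lit 0x28892d5d) (nat_lit 0x18f3a913e0f46c) (nat_lit 0x0)
  (PL.C (nat_lit 0x289aebd9) (nat_lit 0x0) (nat_lit 0x2b6ed52771c1b1)
  (PL.C (nat_lit 0x28e362e6) (nat_lit 0x27b96754dda6a) (nat_lit 0x0)
  (PL.C (nat_lit 0x28e7be42) (nat_lit 0x0) (nat_lit 0x45a684302b99e6)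
  (PL.C (nat_lit 0x28f95ce7) (nat_lit 0x0) (nat_lit 0x454fcd3293fca3)
  (PL.C (nat_lit 0x290fd0a1) (nat_lit 0xe37d69d1ebfe9) (nat_lit 0x0)
  (PL.C (nat_lit 0x2917de21) (nat_lit 0x7b22984b06cf92) (nat_lit 0x0)
  (PL.C (nat_lit 0x2943f06f) (nat_lit 0xd46f33c547f32) (nat_lit 0x0)
  (PL.C (nat_lit 0x2953a8a1) (nat_lit 0x0) (nat_lit 0x44f99455dae584)
  (PL.C (nat_lit 0x29589791) (nat_lit 0x19fde1b655b17c) (nat_lit 0x0)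
  (PL.C (nat_lit 0x29703201) (nat_lit 0x0) (nat_lit 0x55da8f880cd)
  (PL.C (nat_lit 0x29b3b527) (nat_lit 0x0) (nat_lit 0x6df2a51cb363f)
  (PL.C (nat_lit 0x29b48426) (nat_lit 0xfa259e5e01a917) (nat_lit 0x0)
  (PL.C (nat_lit 0x29d02822) (nat_lit 0x0) (nat_lit 0x1ba8e1adea0ce3)
  (PL.C (nat_lit 0x29e015be) (nat_lit 0x357001ff97f63e) (nat_lit 0x0)
  (PL.C (nat_lit 0x2a186b43) (nat_lit 0x0) (nat_lit 0xd6368fb4368da)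
  (PL.C (nat_lit 0x2a35b397) (nat_lit 0x45d051e4dd66e7) (nat_lit 0x0)
  (PL.C (nat_lit 0x2a53bbf9) (nat_lit 0x20a7d933234) (nat_lit 0x0) gp2_0_207))))))))))))))))))))

noncomputable def gp2_0_205 : PL :=
  (PL.C (nat_lit 0x26c6ff02) (nat_lit 0x0) (nat_lit 0x4803e9b83b657e)
  (PL.C (nat_lit 0x26d61d97) (nat_lit 0x0) (nat_lit 0x7fe0516cf83ce9)
  (PL.C (nat_lit 0x26dcc0d5) (nat_lit 0x63efcaabb787e0) (nat_lit 0x0)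
  (PL.C (nat_lit 0x26ec9117) (nat_lit 0x0) (nat_lit 0x89b5e934321834)
  (PL.C (nat_lit 0x26f3c216) (nat_lit 0xc7f6d3c451c0f) (nat_lit 0x0)
  (PL.C (nat_lit 0x2708adef) (nat_lit 0x0) (nat_lit 0x9f292357b9b55)
  (PL.C (nat_lit 0x2714357e) (nat_lit 0x0) (nat_lit 0x20ba0ab3bbf1b)
  (PL.C (nat_lit 0x27164fd9) (nat_lit 0xa2c4429858eb80) (nat_lit 0x0)
  (PL.C (nat_lit 0x271c736e) (nat_lit 0x12d1d5561aa299) (nat_lit 0x0)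
  (PL.C (nat_lit 0x2723d513) (nat_lit 0x0) (nat_lit 0x1c57bf49d2ce86)
  (PL.C (nat_lit 0x27306061) (nat_lit 0x0) (nat_lit 0x2fdf54069d93ff)
  (PL.C (nat_lit 0x276012bb) (nat_lit 0x2734c27088a738) (nat_lit 0x0)
  (PL.C (nat_lit 0x276a5412) (nat_lit 0x1304d89a98eb83) (nat_lit 0x0)
  (PL.C (nat_lit 0x277a1615) (nat_lit 0x0) (nat_lit 0x420edcd67abd60)
  (PL.C (nat_lit 0x27c8b12b) (nat_lit 0x288e493ae3e8c0) (nat_lit 0x0)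
  (PL.C (nat_lit 0x27df9365) (nat_lit 0xed6d091307d7a) (nat_lit 0x0)
  (PL.C (nat_lit 0x27fe0282) (nat_lit 0x0) (nat_lit 0x4e9bd776f2cac)
  (PL.C (nat_lit 0x28017682) (nat_lit 0x1e45121fb7d8f6) (nat_lit 0x0)
  (PL.C (nat_lit 0x2801f347) (nat_lit 0x0) (nat_lit 0x39b5c368ea26e)
  (PL.C (nat_lit 0x281f53ba) (nat_lit 0x37a9ca2c6a746c) (nat_lit 0x0) gp2_0_206))))))))))))))))))))

noncomputable def gp2_0_204 : PL :=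
  (PL.C (nat_lit 0x2496da26) (nat_lit 0xd034153fe73b5) (nat_lit 0x0)
  (PL.C (nat_lit 0x249c0391) (nat_lit 0x0) (nat_lit 0x16ff185af9305dc)
  (PL.C (nat_lit 0x24c116a2) (nat_lit 0x0) (nat_lit 0x80de7b5ad47144)
  (PL.C (nat_lit 0x24de93f1) (nat_lit 0xd0d5e631e56804) (nat_lit 0x0)
  (PL.C (nat_lit 0x25002f56) (nat_lit 0x0) (nat_lit 0x26af4e0d2672f0)
  (PL.C (nat_lit 0x250a45de) (nat_lit 0x0) (nat_lit 0x1b91f9cc851db2)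
  (PL.C (nat_lit 0x252e8703) (nat_lit 0x0) (nat_lit 0x25027c17f15165)
  (PL.C (nat_lit 0x25478002) (nat_lit 0x24f2e192eb22c9) (nat_lit 0x0)
  (PL.C (nat_lit 0x2551b97a) (nat_lit 0x845a257117d9b) (nat_lit 0x0)
  (PL.C (nat_lit 0x257a466f) (nat_lit 0x0) (nat_lit 0x29e746cea968435)
  (PL.C (nat_lit 0x25b9020e) (nat_lit 0x34c1448bcd4004) (nat_lit 0x0)
  (PL.C (nat_lit 0x25e1ff3d) (nat_lit 0x0) (nat_lit 0x1811a1df6fda296)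
  (PL.C (nat_lit 0x2617d5fb) (nat_lit 0x1f33719686c108) (nat_lit 0x0)
  (PL.C (nat_lit 0x2629d3fe) (nat_lit 0x15fdf4a2388875) (nat_lit 0x0)
  (PL.C (nat_lit 0x262ddb7b) (nat_lit 0x360687cf0b7020) (nat_lit 0x0)
  (PL.C (nat_lit 0x2656cdb5) (nat_lit 0x0) (nat_lit 0x341f6c5307a99c)
  (PL.C (nat_lit 0x2659edc9) (nat_lit 0x0) (nat_lit 0x54bde68be6a501)
  (PL.C (nat_lit 0x2681fe6d) (nat_lit 0xaa4574ef695bb0) (nat_lit 0x0)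
  (PL.C (nat_lit 0x268ff7eb) (nat_lit 0x0) (nat_lit 0x2bf66cc3c29c8)
  (PL.C (nat_lit 0x26ab4ae3) (nat_lit 0x0) (nat_lit 0x6789d24702b64c) gp2_0_205))))))))))))))))))))

noncomputable def gp2_0_203 : PL :=
  (PL.C (nat_lit 0x226e14d2) (nat_lit 0x0) (nat_lit 0x2de74dd888a2ff)
  (PL.C (nat_lit 0x22b06865) (nat_lit 0x8636a5f0e3c865) (nat_lit 0x0)
  (PL.C (nat_lit 0x2306b1f1) (nat_lit 0x450ea195bab20) (nat_lit 0x0)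
  (PL.C (nat_lit 0x23392bef) (nat_lit 0x925181b8ef305e) (nat_lit 0x0)
  (PL.C (nat_lit 0x233b8c3e) (nat_lit 0x0) (nat_lit 0x30cdf365811bb7)
  (PL.C (nat_lit 0x2361d4c5) (nat_lit 0x0) (nat_lit 0x249be59314ba3fb)
  (PL.C (nat_lit 0x23670807) (nat_lit 0xe72c4586bdecc) (nat_lit 0x0)
  (PL.C (nat_lit 0x2386cb59) (nat_lit 0x0) (nat_lit 0xa12c1f640cf62)
  (PL.C (nat_lit 0x238cffe9) (nat_lit 0x0) (nat_lit 0x1f0ee932b887a)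
  (PL.C (nat_lit 0x23b50c81) (nat_lit 0x0) (nat_lit 0x1901043fa39b4d)
  (PL.C (nat_lit 0x23bb4102) (nat_lit 0x252b1dfc923513) (nat_lit 0x0)
  (PL.C (nat_lit 0x23c3b761) (nat_lit 0x0) (nat_lit 0xd3aa7d63ab74)
  (PL.C (nat_lit 0x23db580f) (nat_lit 0x0) (nat_lit 0x3f2ab8f9eeb1a)
  (PL.C (nat_lit 0x2429ef6d) (nat_lit 0x0) (nat_lit 0x398a9ca83143aa)
  (PL.C (nat_lit 0x242c5ffa) (nat_lit 0x6471f57794036) (nat_lit 0x0)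
  (PL.C (nat_lit 0x242ff06b) (nat_lit 0xe010402712ba17) (nat_lit 0x0)
  (PL.C (nat_lit 0x2453ae2f) (nat_lit 0x0) (nat_lit 0xf79a33b5c76ea9)
  (PL.C (nat_lit 0x2456bfc5) (nat_lit 0x0) (nat_lit 0x321f9f3ac57b9d)
  (PL.C (nat_lit 0x2462edf1) (nat_lit 0x1d4e21399a155b) (nat_lit 0x0)
  (PL.C (nat_lit 0x2479a16b) (nat_lit 0x0) (nat_lit 0xf94d77ec3530d9) gp2_0_204))))))))))))))))))))

noncomputable def gp2_0_202 : PL :=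
  (PL.C (nat_lit 0x20fee2fd) (nat_lit 0x24c1de4b57e662) (nat_lit 0x0)
  (PL.C (nat_lit 0x210411a6) (nat_lit 0x0) (nat_lit 0x43540aa0548b49)
  (PL.C (nat_lit 0x21066d6b) (nat_lit 0x1e75770cc13125) (nat_lit 0x0)
  (PL.C (nat_lit 0x2109f249) (nat_lit 0x13b4d3499fd41c) (nat_lit 0x0)
  (PL.C (nat_lit 0x21266dd3) (nat_lit 0x5219319961d782) (nat_lit 0x0)
  (PL.C (nat_lit 0x214b92ab) (nat_lit 0x0) (nat_lit 0x10160e82f5b1a)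
  (PL.C (nat_lit 0x215f7152) (nat_lit 0x10799bcc9c7aa21) (nat_lit 0x0)
  (PL.C (nat_lit 0x21624306) (nat_lit 0x0) (nat_lit 0x4c39e30677dfd)
  (PL.C (nat_lit 0x2162bb1f) (nat_lit 0x0) (nat_lit 0x209ac4b2f483e10)
  (PL.C (nat_lit 0x2188a181) (nat_lit 0xc469f8f1c5c31) (nat_lit 0x0)
  (PL.C (nat_lit 0x2199ead1) (nat_lit 0x17bc492eb244ca) (nat_lit 0x0)
  (PL.C (nat_lit 0x21af570b) (nat_lit 0x0) (nat_lit 0xb0fdd431ac1b2f)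
  (PL.C (nat_lit 0x21c5640a) (nat_lit 0x655440afd19327) (nat_lit 0x0)
  (PL.C (nat_lit 0x21d287b7) (nat_lit 0x1b0bd7dfd6a533) (nat_lit 0x0)
  (PL.C (nat_lit 0x21efb02d) (nat_lit 0x6e86488c0c907f) (nat_lit 0x0)
  (PL.C (nat_lit 0x21f269b5) (nat_lit 0x0) (nat_lit 0x2d8cc6d2cfb9eb)
  (PL.C (nat_lit 0x2221d88e) (nat_lit 0xa50c9f58d01b3) (nat_lit 0x0)
  (PL.C (nat_lit 0x2222dabe) (nat_lit 0x0) (nat_lit 0x4d975eeb2dda53)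
  (PL.C (nat_lit 0x22438eb6) (nat_lit 0x0) (nat_lit 0x438be4e5c3c599)
  (PL.C (nat_lit 0x2246eefd) (nat_lit 0x0) (nat_lit 0x4741477614c962) gp2_0_203))))))))))))))))))))

noncomputable def gp2_0_201 : PL :=
  (PL.C (nat_lit 0x1f82bfe2) (nat_lit 0x1f20bc3d1610fe) (nat_lit 0x0)
  (PL.C (nat_lit 0x1f905297) (nat_lit 0x7544d5b51547ac) (nat_lit 0x0)
  (PL.C (nat_lit 0x1fb4c1fd) (nat_lit 0x0) (nat_lit 0x8e4de8319351f5)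
  (PL.C (nat_lit 0x1fbd5d0a) (nat_lit 0x4d3aa67ee54a6a) (nat_lit 0x0)
  (PL.C (nat_lit 0x1fd5e171) (nat_lit 0x0) (nat_lit 0x15291da01d820)
  (PL.C (nat_lit 0x1fe2006e) (nat_lit 0x0) (nat_lit 0x486ba956f6a59d)
  (PL.C (nat_lit 0x1ffa9ef1) (nat_lit 0x55a6eaf4c60baf) (nat_lit 0x0)
  (PL.C (nat_lit 0x2000e471) (nat_lit 0x19be59cc311f904) (nat_lit 0x0)
  (PL.C (nat_lit 0x20034f26) (nat_lit 0x0) (nat_lit 0x10636b84de3aff)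
  (PL.C (nat_lit 0x203aa8a7) (nat_lit 0x787a7976b4ecb5) (nat_lit 0x0)
  (PL.C (nat_lit 0x204d0eb7) (nat_lit 0x0) (nat_lit 0x5d377d7ab634d)
  (PL.C (nat_lit 0x204d2969) (nat_lit 0x15e8257fc8b7d1) (nat_lit 0x0)
  (PL.C (nat_lit 0x204ff369) (nat_lit 0x4fe6a9c47219b4) (nat_lit 0x0)
  (PL.C (nat_lit 0x205d3949) (nat_lit 0x0) (nat_lit 0x56f7806562f75)
  (PL.C (nat_lit 0x20681265) (nat_lit 0x0) (nat_lit 0x9b7d7fb16f4f1)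
  (PL.C (nat_lit 0x2081aee1) (nat_lit 0x74050a718d1239) (nat_lit 0x0)
  (PL.C (nat_lit 0x208d7ad7) (nat_lit 0x0) (nat_lit 0x1682133aee9bf3)
  (PL.C (nat_lit 0x20906ac2) (nat_lit 0x0) (nat_lit 0x757af32c6058e4)
  (PL.C (nat_lit 0x20bbee8a) (nat_lit 0x0) (nat_lit 0x55ffd0976238e1)
  (PL.C (nat_lit 0x20dba5b3) (nat_lit 0x0) (nat_lit 0x11c2586bb8d8004) gp2_0_202))))))))))))))))))))

noncomputable def gp2_0_200 : PL :=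
  (PL.C (nat_lit 0x1e15732a) (nat_lit 0x0) (nat_lit 0x2acb17008d7b19)
  (PL.C (nat_lit 0x1e1c3629) (nat_lit 0x0) (nat_lit 0x8724b55c1f904)
  (PL.C (nat_lit 0x1e247845) (nat_lit 0x17f32b5b0e9f3e) (nat_lit 0x0)
  (PL.C (nat_lit 0x1e2f9f8a) (nat_lit 0x703f9489850b76) (nat_lit 0x0)
  (PL.C (nat_lit 0x1e506c47) (nat_lit 0x0) (nat_lit 0x5eb82875d8a0d48)
  (PL.C (nat_lit 0x1e5a7b72) (nat_lit 0x71a4b7ab95bef) (nat_lit 0x0)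
  (PL.C (nat_lit 0x1e6a2112) (nat_lit 0xf7a635e001833) (nat_lit 0x0)
  (PL.C (nat_lit 0x1e77e41f) (nat_lit 0x0) (nat_lit 0x83a141fd25bfd8)
  (PL.C (nat_lit 0x1e8c3557) (nat_lit 0x3009f117229ab6) (nat_lit 0x0)
  (PL.C (nat_lit 0x1e9d5f7e) (nat_lit 0x0) (nat_lit 0x26442130b8daf7)
  (PL.C (nat_lit 0x1eaa612b) (nat_lit 0xc5a34138ad2ffb) (nat_lit 0x0)
  (PL.C (nat_lit 0x1eb21839) (nat_lit 0x156c454e1bf4ed) (nat_lit 0x0)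
  (PL.C (nat_lit 0x1ebeb419) (nat_lit 0x0) (nat_lit 0x33cde359f9489)
  (PL.C (nat_lit 0x1ed303d7) (nat_lit 0x1b0ddbf32062d1) (nat_lit 0x0)
  (PL.C (nat_lit 0x1ee3153e) (nat_lit 0xb6414bdab0738) (nat_lit 0x0)
  (PL.C (nat_lit 0x1f06bcaa) (nat_lit 0x0) (nat_lit 0x9c811f02820e90)
  (PL.C (nat_lit 0x1f3a05f6) (nat_lit 0x0) (nat_lit 0x2401ea95b59414)
  (PL.C (nat_lit 0x1f761cc3) (nat_lit 0x19616b21229d96) (nat_lit 0x0)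
  (PL.C (nat_lit 0x1f78338a) (nat_lit 0x0) (nat_lit 0x32017bb6fc291)
  (PL.C (nat_lit 0x1f7d5e16) (nat_lit 0x0) (nat_lit 0x3fbe119023576e) gp2_0_201))))))))))))))))))))

noncomputable def gp2_0_199 : PL :=
  (PL.C (nat_lit 0x1c97b6a6) (nat_lit 0x3410f965a52d0e) (nat_lit 0x0)
  (PL.C (nat_lit 0x1cadaec9) (nat_lit 0xaff0c848b9e6b8) (nat_lit 0x0)
  (PL.C (nat_lit 0x1cb2c956) (nat_lit 0x0) (nat_lit 0x1663749ead8f2b)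
  (PL.C (nat_lit 0x1cd5b712) (nat_lit 0x40ac4d97ebdbb0) (nat_lit 0x0)
  (PL.C (nat_lit 0x1cd69b36) (nat_lit 0x27c48261199a35) (nat_lit 0x0)
  (PL.C (nat_lit 0x1cf50bf3) (nat_lit 0x0) (nat_lit 0x324ce538d064ac)
  (PL.C (nat_lit 0x1d0f216e) (nat_lit 0xf146f2906f32e) (nat_lit 0x0)
  (PL.C (nat_lit 0x1d134c3f) (nat_lit 0x0) (nat_lit 0x14b2f728621fcc)
  (PL.C (nat_lit 0x1d71b5bb) (nat_lit 0x121a363d9ba235) (nat_lit 0x0)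
  (PL.C (nat_lit 0x1d7b47b9) (nat_lit 0x0) (nat_lit 0x1be48e6e354aff)
  (PL.C (nat_lit 0x1d9b32e1) (nat_lit 0x0) (nat_lit 0x2cd384774de29)
  (PL.C (nat_lit 0x1d9bb9e2) (nat_lit 0x0) (nat_lit 0x2180f104fac784)
  (PL.C (nat_lit 0x1dafa5f9) (nat_lit 0x558613e30f69b9) (nat_lit 0x0)
  (PL.C (nat_lit 0x1dbbe5eb) (nat_lit 0x196f07a55433813) (nat_lit 0x0)
  (PL.C (nat_lit 0x1ddcf98e) (nat_lit 0x6740598366113) (nat_lit 0x0)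
  (PL.C (nat_lit 0x1dde3899) (nat_lit 0x1401bf3b822ab4d) (nat_lit 0x0)
  (PL.C (nat_lit 0x1de29c63) (nat_lit 0x0) (nat_lit 0x3e8c17faf9fcc7)
  (PL.C (nat_lit 0x1deac247) (nat_lit 0xae9e73bd72d8b8) (nat_lit 0x0)
  (PL.C (nat_lit 0x1dfc0dc7) (nat_lit 0xe2e691dc1a9d54) (nat_lit 0x0)
  (PL.C (nat_lit 0x1dfd6c7d) (nat_lit 0x5c43ad959f5b9b5) (nat_lit 0x0) gp2_0_200))))))))))))))))))))

noncomputable def gp2_0_198 : PL :=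
  (PL.C (nat_lit 0x1b694789) (nat_lit 0x0) (nat_lit 0x1b6b4547297918)
  (PL.C (nat_lit 0x1b82a04a) (nat_lit 0x1396ca5fec0c7d) (nat_lit 0x0)
  (PL.C (nat_lit 0x1b8d1b16) (nat_lit 0x47c3de436c5648) (nat_lit 0x0)
  (PL.C (nat_lit 0x1b924e37) (nat_lit 0x0) (nat_lit 0x24b75564b643ef)
  (PL.C (nat_lit 0x1ba02156) (nat_lit 0x0) (nat_lit 0x2c408d17b8a9c)
  (PL.C (nat_lit 0x1bc493e1) (nat_lit 0x125f250c381c33) (nat_lit 0x0)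
  (PL.C (nat_lit 0x1bcf10d1) (nat_lit 0x0) (nat_lit 0x29d122fc0caccb6)
  (PL.C (nat_lit 0x1be3d32d) (nat_lit 0x4187c0cb47d849) (nat_lit 0x0)
  (PL.C (nat_lit 0x1bfbde5f) (nat_lit 0x0) (nat_lit 0x50e91d18851988)
  (PL.C (nat_lit 0x1c0b9f8e) (nat_lit 0x0) (nat_lit 0x2be27cc747e3da)
  (PL.C (nat_lit 0x1c0fb277) (nat_lit 0x224d918b464b10) (nat_lit 0x0)
  (PL.C (nat_lit 0x1c104782) (nat_lit 0x294287e31979df) (nat_lit 0x0)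
  (PL.C (nat_lit 0x1c2ec5db) (nat_lit 0x203691bbb68b872) (nat_lit 0x0)
  (PL.C (nat_lit 0x1c37d2a6) (nat_lit 0x0) (nat_lit 0x2cc7407f05320)
  (PL.C (nat_lit 0x1c496d82) (nat_lit 0x2e0d8b6d53243a) (nat_lit 0x0)
  (PL.C (nat_lit 0x1c5d5bd5) (nat_lit 0x0) (nat_lit 0x7fb916adb4e17)
  (PL.C (nat_lit 0x1c63d753) (nat_lit 0x0) (nat_lit 0x4401d5e9f13401)
  (PL.C (nat_lit 0x1c66ddc1) (nat_lit 0x0) (nat_lit 0x6dc228269c872c)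
  (PL.C (nat_lit 0x1c7504f7) (nat_lit 0x0) (nat_lit 0x2d409e12295a52)
  (PL.C (nat_lit 0x1c9389f9) (nat_lit 0x0) (nat_lit 0x75e67fe927e6a) gp2_0_199))))))))))))))))))))

noncomputable def gp2_0_197 : PL :=
  (PL.C (nat_lit 0x1a3ac74a) (nat_lit 0x0) (nat_lit 0x205ed607fcbc39)
  (PL.C (nat_lit 0x1a4d4289) (nat_lit 0x3d6631ac3fbdde) (nat_lit 0x0)
  (PL.C (nat_lit 0x1a51640e) (nat_lit 0x0) (nat_lit 0xea63c51c1ee7c)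
  (PL.C (nat_lit 0x1a70680d) (nat_lit 0xcb6b16b4f8727) (nat_lit 0x0)
  (PL.C (nat_lit 0x1a85cb72) (nat_lit 0x0) (nat_lit 0xd948e51531a5a)
  (PL.C (nat_lit 0x1a950cee) (nat_lit 0x0) (nat_lit 0x79ff88798bb7e9)
  (PL.C (nat_lit 0x1aa50d33) (nat_lit 0x51fa79137ee88c) (nat_lit 0x0)
  (PL.C (nat_lit 0x1aaaabcb) (nat_lit 0x2f8f1c80858fdd) (nat_lit 0x0)
  (PL.C (nat_lit 0x1acb12b2) (nat_lit 0x3d2b81cdd80f4c) (nat_lit 0x0)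
  (PL.C (nat_lit 0x1ad9f3d5) (nat_lit 0x0) (nat_lit 0x99371378e11fa)
  (PL.C (nat_lit 0x1adfc4f5) (nat_lit 0x5d44d37408c6c2) (nat_lit 0x0)
  (PL.C (nat_lit 0x1af47911) (nat_lit 0x0) (nat_lit 0x1315ca928db2d20)
  (PL.C (nat_lit 0x1af6bffb) (nat_lit 0x1206383dc94d3) (nat_lit 0x0)
  (PL.C (nat_lit 0x1b0413f5) (nat_lit 0x0) (nat_lit 0x1b3c2e27dae1c5b)
  (PL.C (nat_lit 0x1b061e3e) (nat_lit 0xf7d26144e2a83d) (nat_lit 0x0)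
  (PL.C (nat_lit 0x1b0bb5eb) (nat_lit 0x0) (nat_lit 0x124fc37e9d4815)
  (PL.C (nat_lit 0x1b2a252f) (nat_lit 0x0) (nat_lit 0x1333868ff7bf347)
  (PL.C (nat_lit 0x1b46d0cd) (nat_lit 0x62aaf7bc09547c) (nat_lit 0x0)
  (PL.C (nat_lit 0x1b4d8347) (nat_lit 0x0) (nat_lit 0x8a7d410dec0b9)
  (PL.C (nat_lit 0x1b50e89a) (nat_lit 0x0) (nat_lit 0x27e238688bb565d) gp2_0_198))))))))))))))))))))

noncomputable def gp2_0_196 : PL :=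
  (PL.C (nat_lit 0x1950f131) (nat_lit 0x0) (nat_lit 0x341c0c6c328294b)
  (PL.C (nat_lit 0x19653952) (nat_lit 0x0) (nat_lit 0x722e94196f3ef1)
  (PL.C (nat_lit 0x196aee8d) (nat_lit 0x115a7109b5b4b) (nat_lit 0x0)
  (PL.C (nat_lit 0x196f1ac3) (nat_lit 0x0) (nat_lit 0x44ce03dc7364c8)
  (PL.C (nat_lit 0x19737399) (nat_lit 0x0) (nat_lit 0x13ecd624e4f1c)
  (PL.C (nat_lit 0x198507f1) (nat_lit 0x0) (nat_lit 0x877246c5d5eb29)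
  (PL.C (nat_lit 0x198f33ce) (nat_lit 0x3337b56e4555fd) (nat_lit 0x0)
  (PL.C (nat_lit 0x199701a3) (nat_lit 0x290ac5e5d53e05c) (nat_lit 0x0)
  (PL.C (nat_lit 0x19b54ff2) (nat_lit 0x4e3608f35c1df5) (nat_lit 0x0)
  (PL.C (nat_lit 0x19b852db) (nat_lit 0x97a62792a434cc) (nat_lit 0x0)
  (PL.C (nat_lit 0x19c062cf) (nat_lit 0x0) (nat_lit 0x898bd6f9674a93)
  (PL.C (nat_lit 0x19c78742) (nat_lit 0x39d9694862521c) (nat_lit 0x0)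
  (PL.C (nat_lit 0x19e413ba) (nat_lit 0x31229dd9354536) (nat_lit 0x0)
  (PL.C (nat_lit 0x19e8808e) (nat_lit 0x0) (nat_lit 0x6c4802032e068a)
  (PL.C (nat_lit 0x19e974dd) (nat_lit 0x0) (nat_lit 0x49e1e02c7c118b)
  (PL.C (nat_lit 0x1a017806) (nat_lit 0x8b131afc727dd) (nat_lit 0x0)
  (PL.C (nat_lit 0x1a05c94a) (nat_lit 0x0) (nat_lit 0x163f8a6efbcf58)
  (PL.C (nat_lit 0x1a0edfe6) (nat_lit 0x0) (nat_lit 0x6207a822bbec7f)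
  (PL.C (nat_lit 0x1a17e362) (nat_lit 0x0) (nat_lit 0x31d0909e82c9c9)
  (PL.C (nat_lit 0x1a312b67) (nat_lit 0x0) (nat_lit 0x34871963a9190e) gp2_0_197))))))))))))))))))))

noncomputable def gp2_0_195 : PL :=
  (PL.C (nat_lit 0x18278a69) (nat_lit 0x1686a45353a435) (nat_lit 0x0)
  (PL.C (nat_lit 0x1839d52e) (nat_lit 0x496513c74fccf4) (nat_lit 0x0)
  (PL.C (nat_lit 0x1841f3f6) (nat_lit 0x9bf946534bbea) (nat_lit 0x0)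
  (PL.C (nat_lit 0x184c66dd) (nat_lit 0x0) (nat_lit 0x56a2b81a2d6b8)
  (PL.C (nat_lit 0x18768f7f) (nat_lit 0x0) (nat_lit 0xdc8ed2f8e04ea2)
  (PL.C (nat_lit 0x188428a1) (nat_lit 0x2540bfb90a985) (nat_lit 0x0)
  (PL.C (nat_lit 0x1890cbf1) (nat_lit 0x0) (nat_lit 0x240794796c4fd5)
  (PL.C (nat_lit 0x18a9e459) (nat_lit 0x36e433db58de21) (nat_lit 0x0)
  (PL.C (nat_lit 0x18b4f99f) (nat_lit 0x1113640053bd5d) (nat_lit 0x0)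
  (PL.C (nat_lit 0x18ba2f97) (nat_lit 0x23d21f8f960197) (nat_lit 0x0)
  (PL.C (nat_lit 0x18cf3b21) (nat_lit 0x146727e1499fc0) (nat_lit 0x0)
  (PL.C (nat_lit 0x18d83b3a) (nat_lit 0x1d518475b34985) (nat_lit 0x0)
  (PL.C (nat_lit 0x18eb6c29) (nat_lit 0x0) (nat_lit 0x14410882e8ba69)
  (PL.C (nat_lit 0x18f27d77) (nat_lit 0x0) (nat_lit 0x60206ef71587f)
  (PL.C (nat_lit 0x190efb76) (nat_lit 0x0) (nat_lit 0x5546db2ce15c83)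
  (PL.C (nat_lit 0x190f499d) (nat_lit 0x8aec4a253e47e2) (nat_lit 0x0)
  (PL.C (nat_lit 0x1919a0d7) (nat_lit 0x0) (nat_lit 0xe0a8a626737ef0)
  (PL.C (nat_lit 0x192db4d1) (nat_lit 0x535091e8c56f2) (nat_lit 0x0)
  (PL.C (nat_lit 0x19412fa3) (nat_lit 0x2e1e8c5d15ef08) (nat_lit 0x0)
  (PL.C (nat_lit 0x194fc923) (nat_lit 0x0) (nat_lit 0x165e4bc0bced0bc) gp2_0_196))))))))))))))))))))

noncomputable def gp2_0_194 : PL :=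
  (PL.C (nat_lit 0x172df163) (nat_lit 0x0) (nat_lit 0x1e99cf962d2dea)
  (PL.C (nat_lit 0x17464f53) (nat_lit 0x0) (nat_lit 0xafe17dbde8b7d9)
  (PL.C (nat_lit 0x174adfd3) (nat_lit 0xc1e4d5a9e61e12) (nat_lit 0x0)
  (PL.C (nat_lit 0x1759cbf6) (nat_lit 0x0) (nat_lit 0xbdae67cd9617)
  (PL.C (nat_lit 0x175a1ff7) (nat_lit 0x0) (nat_lit 0x8569e8aa359a12)
  (PL.C (nat_lit 0x1763dadd) (nat_lit 0x7b7bebc1a19a2) (nat_lit 0x0)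
  (PL.C (nat_lit 0x1778874f) (nat_lit 0x0) (nat_lit 0x1b23a38561d837)
  (PL.C (nat_lit 0x177999d5) (nat_lit 0x2720083d8c7d108) (nat_lit 0x0)
  (PL.C (nat_lit 0x1797667b) (nat_lit 0x0) (nat_lit 0x1766e4f41be9e)
  (PL.C (nat_lit 0x179a055a) (nat_lit 0x0) (nat_lit 0x326f3f3b1a3190)
  (PL.C (nat_lit 0x17b35546) (nat_lit 0x608cd5a0e161c) (nat_lit 0x0)
  (PL.C (nat_lit 0x17ba91cf) (nat_lit 0x2609510fbe0ea7e) (nat_lit 0x0)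
  (PL.C (nat_lit 0x17ca6487) (nat_lit 0x41bf893e5c86d4) (nat_lit 0x0)
  (PL.C (nat_lit 0x17ce0856) (nat_lit 0x0) (nat_lit 0x2c06038905dcfc)
  (PL.C (nat_lit 0x17d7cf96) (nat_lit 0x0) (nat_lit 0x5180357b09df3)
  (PL.C (nat_lit 0x17e7900a) (nat_lit 0x1185071c17e258) (nat_lit 0x0)
  (PL.C (nat_lit 0x17e7e609) (nat_lit 0x1173c7653b1007f) (nat_lit 0x0)
  (PL.C (nat_lit 0x17f1b7e9) (nat_lit 0x23a9ef7a33cc4b) (nat_lit 0x0)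
  (PL.C (nat_lit 0x17f9be85) (nat_lit 0x0) (nat_lit 0x46a53a2fc8ba77)
  (PL.C (nat_lit 0x1805b113) (nat_lit 0x0) (nat_lit 0x4a0b0fcab056c) gp2_0_195))))))))))))))))))))

noncomputable def gp2_0_193 : PL :=
  (PL.C (nat_lit 0x16418204) (nat_lit 0x0) (nat_lit 0x648ff5898262f)
  (PL.C (nat_lit 0x164670ff) (nat_lit 0x1f368634cb4bbb) (nat_lit 0x0)
  (PL.C (nat_lit 0x16519701) (nat_lit 0x0) (nat_lit 0x647a303095c7d7)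
  (PL.C (nat_lit 0x165b1656) (nat_lit 0x0) (nat_lit 0x2bd812fb39b260)
  (PL.C (nat_lit 0x165d1851) (nat_lit 0x940c333b03e11) (nat_lit 0x0)
  (PL.C (nat_lit 0x1674e4b2) (nat_lit 0x670ca2cd8f4908) (nat_lit 0x0)
  (PL.C (nat_lit 0x168c5a7a) (nat_lit 0x312c9ab2a2302a) (nat_lit 0x0)
  (PL.C (nat_lit 0x16a19bce) (nat_lit 0x10a5c54900c8f90) (nat_lit 0x0)
  (PL.C (nat_lit 0x16aaafe9) (nat_lit 0x1d5cede8ba5c85) (nat_lit 0x0)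
  (PL.C (nat_lit 0x16ba7465) (nat_lit 0x1a056815fa79ec) (nat_lit 0x0)
  (PL.C (nat_lit 0x16c11315) (nat_lit 0xb5278f18a99f8d) (nat_lit 0x0)
  (PL.C (nat_lit 0x16c2ff27) (nat_lit 0x0) (nat_lit 0x31d16df7fc75f)
  (PL.C (nat_lit 0x16caa04b) (nat_lit 0x0) (nat_lit 0x4203f89a2d331)
  (PL.C (nat_lit 0x16d4b0d7) (nat_lit 0x112963003d1be9d) (nat_lit 0x0)
  (PL.C (nat_lit 0x16ec8ab3) (nat_lit 0x0) (nat_lit 0x43de72d4baaf8b)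
  (PL.C (nat_lit 0x16f5f553) (nat_lit 0x0) (nat_lit 0x71a92a8c9090b)
  (PL.C (nat_lit 0x16fb153f) (nat_lit 0x0) (nat_lit 0x1587435b2a5e78)
  (PL.C (nat_lit 0x17059ad6) (nat_lit 0x1161e7ad47cfdd) (nat_lit 0x0)
  (PL.C (nat_lit 0x17152fed) (nat_lit 0x0) (nat_lit 0x1094bc2dc0c607)
  (PL.C (nat_lit 0x172bfc49) (nat_lit 0x9962cbeac158aa) (nat_lit 0x0) gp2_0_194))))))))))))))))))))

noncomputable def gp2_0_192 : PL :=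
  (PL.C (nat_lit 0x1588b47a) (nat_lit 0x43ae5864d813c) (nat_lit 0x0)
  (PL.C (nat_lit 0x1588c646) (nat_lit 0xefbd2fd73d6b2) (nat_lit 0x0)
  (PL.C (nat_lit 0x158aa246) (nat_lit 0x25b3ce09e19440) (nat_lit 0x0)
  (PL.C (nat_lit 0x158ae575) (nat_lit 0x0) (nat_lit 0x27b0a5ee6455c8)
  (PL.C (nat_lit 0x15937b86) (nat_lit 0x1340b9f8100e27) (nat_lit 0x0)
  (PL.C (nat_lit 0x159ab6ee) (nat_lit 0x0) (nat_lit 0xfbfe7364e31ea)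
  (PL.C (nat_lit 0x15a40541) (nat_lit 0xe83b8327491be) (nat_lit 0x0)
  (PL.C (nat_lit 0x15b3a73a) (nat_lit 0xb83ce2454e4c1a) (nat_lit 0x0)
  (PL.C (nat_lit 0x15ba7407) (nat_lit 0x0) (nat_lit 0x1a84b307d91c3)
  (PL.C (nat_lit 0x15bd004b) (nat_lit 0x0) (nat_lit 0x3e60cfb7577d9f)
  (PL.C (nat_lit 0x15d3b5f7) (nat_lit 0x0) (nat_lit 0x1139391aa5b414)
  (PL.C (nat_lit 0x15dd43eb) (nat_lit 0x0) (nat_lit 0x123f05eb3dd6df)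
  (PL.C (nat_lit 0x15ff41fe) (nat_lit 0x0) (nat_lit 0x140802405910cb)
  (PL.C (nat_lit 0x160448f2) (nat_lit 0x259c6d9bfd14da) (nat_lit 0x0)
  (PL.C (nat_lit 0x1606a186) (nat_lit 0x82e6474c3aa8a9) (nat_lit 0x0)
  (PL.C (nat_lit 0x16101e55) (nat_lit 0x18da4c209d61c76) (nat_lit 0x0)
  (PL.C (nat_lit 0x161c3543) (nat_lit 0x1061f4c55f00029) (nat_lit 0x0)
  (PL.C (nat_lit 0x16299627) (nat_lit 0x8e01e127708e55) (nat_lit 0x0)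
  (PL.C (nat_lit 0x162b756d) (nat_lit 0x220e8d5d04839f) (nat_lit 0x0)
  (PL.C (nat_lit 0x1640bd43) (nat_lit 0x0) (nat_lit 0x3c3d47bce093cc) gp2_0_193))))))))))))))))))))

noncomputable def gp2_0_191 : PL :=
  (PL.C (nat_lit 0x148cad3a) (nat_lit 0x10b2eee616fc7e) (nat_lit 0x0)
  (PL.C (nat_lit 0x1494d581) (nat_lit 0x3d80719bcf71bc) (nat_lit 0x0)
  (PL.C (nat_lit 0x14a693bb) (nat_lit 0x4eb152364132f1e) (nat_lit 0x0)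
  (PL.C (nat_lit 0x14bcb975) (nat_lit 0x0) (nat_lit 0xaedbea1e5bdef0)
  (PL.C (nat_lit 0x14c3ace1) (nat_lit 0x0) (nat_lit 0x15549f4796baa)
  (PL.C (nat_lit 0x14e97265) (nat_lit 0x18379815c3814e7) (nat_lit 0x0)
  (PL.C (nat_lit 0x14ed055f) (nat_lit 0xc038c2c37a25a3) (nat_lit 0x0)
  (PL.C (nat_lit 0x14f96882) (nat_lit 0x0) (nat_lit 0x11be799bf81b615)
  (PL.C (nat_lit 0x1504ac6d) (nat_lit 0x0) (nat_lit 0x32d6b52a4f9fe)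
  (PL.C (nat_lit 0x150ae1ba) (nat_lit 0x0) (nat_lit 0xdb84c39c0c0090)
  (PL.C (nat_lit 0x15134b59) (nat_lit 0x0) (nat_lit 0x5fc1f0bd338c2)
  (PL.C (nat_lit 0x151a0c83) (nat_lit 0x0) (nat_lit 0x1705bbf5e9fe6d)
  (PL.C (nat_lit 0x15232bfe) (nat_lit 0x0) (nat_lit 0x21c78ea642843)
  (PL.C (nat_lit 0x152b9f53) (nat_lit 0x0) (nat_lit 0x5571274aa461e0)
  (PL.C (nat_lit 0x1533bb51) (nat_lit 0x0) (nat_lit 0x5412f7d6dd8697)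
  (PL.C (nat_lit 0x153940f6) (nat_lit 0x395376bd721fb9) (nat_lit 0x0)
  (PL.C (nat_lit 0x1541bd1f) (nat_lit 0x0) (nat_lit 0x5eaa23a354955b)
  (PL.C (nat_lit 0x155df2ef) (nat_lit 0x0) (nat_lit 0x91142d19af59ff)
  (PL.C (nat_lit 0x156c10a1) (nat_lit 0x3f50fd1beae1cc) (nat_lit 0x0)
  (PL.C (nat_lit 0x1578630f) (nat_lit 0x159985ffe64620) (nat_lit 0x0) gp2_0_192))))))))))))))))))))

noncomputable def gp2_0_190 : PL :=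
  (PL.C (nat_lit 0x13bccc96) (nat_lit 0x399a833a43334) (nat_lit 0x0)
  (PL.C (nat_lit 0x13c54d0d) (nat_lit 0x3c7c228606386) (nat_lit 0x0)
  (PL.C (nat_lit 0x13ca6ea6) (nat_lit 0x1c73e3e4553522) (nat_lit 0x0)
  (PL.C (nat_lit 0x13ec6842) (nat_lit 0x0) (nat_lit 0x9850b2a0d7810a)
  (PL.C (nat_lit 0x13f0decb) (nat_lit 0x0) (nat_lit 0x135498b419b05c)
  (PL.C (nat_lit 0x13f1d6da) (nat_lit 0xb0307c19a739e8) (nat_lit 0x0)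
  (PL.C (nat_lit 0x140bcfcb) (nat_lit 0x0) (nat_lit 0x122289c5cadc196)
  (PL.C (nat_lit 0x14111c25) (nat_lit 0x0) (nat_lit 0x23c07bd418303a)
  (PL.C (nat_lit 0x1412cec6) (nat_lit 0x0) (nat_lit 0x1a0a580e0179d8)
  (PL.C (nat_lit 0x1418502e) (nat_lit 0x0) (nat_lit 0x3e815f14eccace)
  (PL.C (nat_lit 0x142e25ed) (nat_lit 0x0) (nat_lit 0x2386e7953b82f27)
  (PL.C (nat_lit 0x142ffebd) (nat_lit 0x0) (nat_lit 0x1f857a644d07df)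
  (PL.C (nat_lit 0x143a66cd) (nat_lit 0xfe1b72c3134aa) (nat_lit 0x0)
  (PL.C (nat_lit 0x143c524c) (nat_lit 0x78e5a170af651e) (nat_lit 0x0)
  (PL.C (nat_lit 0x143d54f3) (nat_lit 0x59647a4f5b69b) (nat_lit 0x0)
  (PL.C (nat_lit 0x144fed6a) (nat_lit 0xc0324ed35a432b) (nat_lit 0x0)
  (PL.C (nat_lit 0x145c7b9b) (nat_lit 0x0) (nat_lit 0x48b5a8c9df08ef)
  (PL.C (nat_lit 0x1465ff97) (nat_lit 0x30cc13706fee6df) (nat_lit 0x0)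
  (PL.C (nat_lit 0x1468ea54) (nat_lit 0x0) (nat_lit 0x41a82bb082f1e)
  (PL.C (nat_lit 0x1482fd11) (nat_lit 0x3e79106bc4e02d) (nat_lit 0x0) gp2_0_191))))))))))))))))))))

noncomputable def gp2_0_189 : PL :=
  (PL.C (nat_lit 0x130d06a6) (nat_lit 0x0) (nat_lit 0x207ae8ea9b340f)
  (PL.C (nat_lit 0x130d4b2f) (nat_lit 0xfc7ddde7e21a6d) (nat_lit 0x0)
  (PL.C (nat_lit 0x131e7486) (nat_lit 0x0) (nat_lit 0xc576db203c901)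
  (PL.C (nat_lit 0x1321326b) (nat_lit 0x0) (nat_lit 0x53280dcddbaa46)
  (PL.C (nat_lit 0x13225f4d) (nat_lit 0x0) (nat_lit 0x1c8573cd49556c)
  (PL.C (nat_lit 0x13261947) (nat_lit 0x0) (nat_lit 0x82e040971412c6)
  (PL.C (nat_lit 0x13290e0b) (nat_lit 0x74df2ad80f4944) (nat_lit 0x0)
  (PL.C (nat_lit 0x132faeb9) (nat_lit 0x5a856f01e9be9d) (nat_lit 0x0)
  (PL.C (nat_lit 0x133aa2a9) (nat_lit 0x34b059d8f3cd07) (nat_lit 0x0)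
  (PL.C (nat_lit 0x133d71c6) (nat_lit 0x0) (nat_lit 0x75c7c5539c5d4b)
  (PL.C (nat_lit 0x1359f6bf) (nat_lit 0x0) (nat_lit 0x885c77cc6055f)
  (PL.C (nat_lit 0x137c4661) (nat_lit 0x71e6eec9e89529) (nat_lit 0x0)
  (PL.C (nat_lit 0x138f852d) (nat_lit 0x0) (nat_lit 0x11ceb4899f3bc31)
  (PL.C (nat_lit 0x13912c2f) (nat_lit 0x0) (nat_lit 0x36b524a2f4412a)
  (PL.C (nat_lit 0x1397bb33) (nat_lit 0xe8e29f73ce3b1) (nat_lit 0x0)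
  (PL.C (nat_lit 0x13a123d2) (nat_lit 0x1c410e5fc7b86) (nat_lit 0x0)
  (PL.C (nat_lit 0x13a78526) (nat_lit 0x0) (nat_lit 0xe9da9de8afb22)
  (PL.C (nat_lit 0x13a9985f) (nat_lit 0x624c8862c8ae27) (nat_lit 0x0)
  (PL.C (nat_lit 0x13b67813) (nat_lit 0x0) (nat_lit 0x2ea55bd8ee269f3)
  (PL.C (nat_lit 0x13b96d92) (nat_lit 0x0) (nat_lit 0x2d16ab77fd22c) gp2_0_190))))))))))))))))))))

noncomputable def gp2_0_188 : PL :=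
  (PL.C (nat_lit 0x126ce613) (nat_lit 0x9f5f023caf865a) (nat_lit 0x0)
  (PL.C (nat_lit 0x1274f6d7) (nat_lit 0x33c4b915f60090) (nat_lit 0x0)
  (PL.C (nat_lit 0x128a0b36) (nat_lit 0x0) (nat_lit 0x2edd41a88d67fd5)
  (PL.C (nat_lit 0x1297e21e) (nat_lit 0xe0d335890df35a) (nat_lit 0x0)
  (PL.C (nat_lit 0x12983823) (nat_lit 0x0) (nat_lit 0xc3223e8b1a709)
  (PL.C (nat_lit 0x129fe469) (nat_lit 0x0) (nat_lit 0xe7f6be7b11a20f)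
  (PL.C (nat_lit 0x12adc20f) (nat_lit 0x1037e3a08348f7b) (nat_lit 0x0)
  (PL.C (nat_lit 0x12b82411) (nat_lit 0xa154dc7273f32) (nat_lit 0x0)
  (PL.C (nat_lit 0x12bd3e9d) (nat_lit 0xe23171a4dd78c) (nat_lit 0x0)
  (PL.C (nat_lit 0x12c1ca61) (nat_lit 0x0) (nat_lit 0x68d6417a67a74a)
  (PL.C (nat_lit 0x12c8ef8f) (nat_lit 0x0) (nat_lit 0xe91f695e63f931)
  (PL.C (nat_lit 0x12cb2d9f) (nat_lit 0x0) (nat_lit 0xa8cc10c00bd2a)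
  (PL.C (nat_lit 0x12cfe1c4) (nat_lit 0x0) (nat_lit 0x929e7ecdfe8de)
  (PL.C (nat_lit 0x12d5e82f) (nat_lit 0x5b520cddb405b) (nat_lit 0x0)
  (PL.C (nat_lit 0x12d7fc2e) (nat_lit 0x2793535f6b1460) (nat_lit 0x0)
  (PL.C (nat_lit 0x12e164a7) (nat_lit 0x4c33c7a97b517) (nat_lit 0x0)
  (PL.C (nat_lit 0x12f49829) (nat_lit 0x0) (nat_lit 0x14047366c294e4)
  (PL.C (nat_lit 0x12f7666d) (nat_lit 0x4a73369a35ef5d) (nat_lit 0x0)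
  (PL.C (nat_lit 0x12f8adfa) (nat_lit 0x0) (nat_lit 0x6ea0cae50d43a)
  (PL.C (nat_lit 0x12fcec9d) (nat_lit 0x1014b5ec0f37709) (nat_lit 0x0) gp2_0_189))))))))))))))))))))

noncomputable def gp2_0_187 : PL :=
  (PL.C (nat_lit 0x11c452d7) (nat_lit 0x0) (nat_lit 0x21957789c5c8cd)
  (PL.C (nat_lit 0x11c71d32) (nat_lit 0x7a825f661e449c) (nat_lit 0x0)
  (PL.C (nat_lit 0x11d02bcf) (nat_lit 0x0) (nat_lit 0x16653f94581e0a)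
  (PL.C (nat_lit 0x11d99d99) (nat_lit 0x0) (nat_lit 0x725b29ddf2f745)
  (PL.C (nat_lit 0x11e6a28e) (nat_lit 0x292f875829751a) (nat_lit 0x0)
  (PL.C (nat_lit 0x11ea834e) (nat_lit 0x0) (nat_lit 0x5b9fb9b3e830a7)
  (PL.C (nat_lit 0x11f850b6) (nat_lit 0x0) (nat_lit 0x1d36afb63169c08)
  (PL.C (nat_lit 0x11f9d552) (nat_lit 0x0) (nat_lit 0x1bcfff7006952b)
  (PL.C (nat_lit 0x11fa15fd) (nat_lit 0x31a954e6677b88) (nat_lit 0x0)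
  (PL.C (nat_lit 0x121c18ca) (nat_lit 0x0) (nat_lit 0x112557f6ea3d7)
  (PL.C (nat_lit 0x12235641) (nat_lit 0x0) (nat_lit 0x354b9056b6ca6)
  (PL.C (nat_lit 0x122f35de) (nat_lit 0x9c50e6f11c789d) (nat_lit 0x0)
  (PL.C (nat_lit 0x1233acda) (nat_lit 0x0) (nat_lit 0xa8756e9ca6f3f)
  (PL.C (nat_lit 0x123b83fb) (nat_lit 0x14b1c18b811950) (nat_lit 0x0)
  (PL.C (nat_lit 0x1244a405) (nat_lit 0x3b8d9a28106ff0) (nat_lit 0x0)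
  (PL.C (nat_lit 0x1245fc67) (nat_lit 0x3ff88c0d6cea74) (nat_lit 0x0)
  (PL.C (nat_lit 0x124773ff) (nat_lit 0x0) (nat_lit 0x23db18ac03aa527)
  (PL.C (nat_lit 0x1261897a) (nat_lit 0x0) (nat_lit 0x1a069e68f7f125e)
  (PL.C (nat_lit 0x1263b1ed) (nat_lit 0x0) (nat_lit 0x22e0bfc88d8821)
  (PL.C (nat_lit 0x126ac0e4) (nat_lit 0x311be182d05f) (nat_lit 0x0) gp2_0_188))))))))))))))))))))

noncomputable def gp2_0_186 : PL :=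
  (PL.C (nat_lit 0x11565004) (nat_lit 0x661091146e5f2a) (nat_lit 0x0)
  (PL.C (nat_lit 0x115930dc) (nat_lit 0x0) (nat_lit 0x7d5fcf606e740)
  (PL.C (nat_lit 0x115aa995) (nat_lit 0x0) (nat_lit 0x133dc14aeccdee)
  (PL.C (nat_lit 0x116491c5) (nat_lit 0x0) (nat_lit 0x2cf88259b01631)
  (PL.C (nat_lit 0x1166209b) (nat_lit 0x4becd3ec75b7a4) (nat_lit 0x0)
  (PL.C (nat_lit 0x116b31eb) (nat_lit 0x0) (nat_lit 0x1b0656a5092096)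
  (PL.C (nat_lit 0x116d463b) (nat_lit 0x0) (nat_lit 0x439a4830a25c7)
  (PL.C (nat_lit 0x116eb1e7) (nat_lit 0x2ebaeb47c6901e7) (nat_lit 0x0)
  (PL.C (nat_lit 0x117a3629) (nat_lit 0x0) (nat_lit 0x596ff8694a8570)
  (PL.C (nat_lit 0x117c84dc) (nat_lit 0x816cd8ed6e8430) (nat_lit 0x0)
  (PL.C (nat_lit 0x1180e803) (nat_lit 0x5bde3d88a09fa2) (nat_lit 0x0)
  (PL.C (nat_lit 0x11874225) (nat_lit 0x0) (nat_lit 0x1321b35390dd059)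
  (PL.C (nat_lit 0x1188d706) (nat_lit 0x0) (nat_lit 0x1c417fa2224847)
  (PL.C (nat_lit 0x1193adad) (nat_lit 0x7423c8946256b) (nat_lit 0x0)
  (PL.C (nat_lit 0x11a0455e) (nat_lit 0x0) (nat_lit 0x1346818a18ac11)
  (PL.C (nat_lit 0x11a724b9) (nat_lit 0x0) (nat_lit 0x2979553c3196d43)
  (PL.C (nat_lit 0x11aa291b) (nat_lit 0x27d64b431e634f) (nat_lit 0x0)
  (PL.C (nat_lit 0x11b15939) (nat_lit 0x0) (nat_lit 0x1ab2ee406c81f3b)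
  (PL.C (nat_lit 0x11b49e0a) (nat_lit 0x0) (nat_lit 0x18fd2a1ff2cb681)
  (PL.C (nat_lit 0x11c35e22) (nat_lit 0x0) (nat_lit 0x3f35466529731c) gp2_0_187))))))))))))))))))))

noncomputable def gp2_0_185 : PL :=
  (PL.C (nat_lit 0x10c92336) (nat_lit 0x0) (nat_lit 0x11849e1c4d0f63)
  (PL.C (nat_lit 0x10d61fc2) (nat_lit 0x0) (nat_lit 0x4e920f5fa30f26)
  (PL.C (nat_lit 0x10f08579) (nat_lit 0x0) (nat_lit 0x8fe58c4ecfbc1)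
  (PL.C (nat_lit 0x10f0d469) (nat_lit 0x7c5c8bb4a6eaf8) (nat_lit 0x0)
  (PL.C (nat_lit 0x10f1f45e) (nat_lit 0x0) (nat_lit 0x5d325c4fa766bd)
  (PL.C (nat_lit 0x10f4bc82) (nat_lit 0x0) (nat_lit 0x2ea5b3169cde5b)
  (PL.C (nat_lit 0x10f7a266) (nat_lit 0x167cdfd0840382) (nat_lit 0x0)
  (PL.C (nat_lit 0x10fef165) (nat_lit 0xdfbbc0b8239632) (nat_lit 0x0)
  (PL.C (nat_lit 0x11128fd7) (nat_lit 0x12bf97ec873bdc) (nat_lit 0x0)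
  (PL.C (nat_lit 0x1115d9ff) (nat_lit 0x0) (nat_lit 0x10679fae4a035c)
  (PL.C (nat_lit 0x112465b3) (nat_lit 0x0) (nat_lit 0x993df7aa43e86)
  (PL.C (nat_lit 0x11258c92) (nat_lit 0x5a8ce5e0058c89) (nat_lit 0x0)
  (PL.C (nat_lit 0x112aec8a) (nat_lit 0x118980f9e50de90) (nat_lit 0x0)
  (PL.C (nat_lit 0x11382e33) (nat_lit 0x0) (nat_lit 0x42d89f63a585450)
  (PL.C (nat_lit 0x113b8eb3) (nat_lit 0x4b32878f046ee6) (nat_lit 0x0)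
  (PL.C (nat_lit 0x114522ed) (nat_lit 0x5a56e5599a5714) (nat_lit 0x0)
  (PL.C (nat_lit 0x114800eb) (nat_lit 0x0) (nat_lit 0xcf022291ed3b6)
  (PL.C (nat_lit 0x114e09fd) (nat_lit 0x10f3ee7bf2d5ec1) (nat_lit 0x0)
  (PL.C (nat_lit 0x1150a715) (nat_lit 0xe6df1f7f24f10) (nat_lit 0x0)
  (PL.C (nat_lit 0x1151fe6b) (nat_lit 0x0) (nat_lit 0x89b8127c6609eb) gp2_0_186))))))))))))))))))))

noncomputable def gp2_0_184 : PL :=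
  (PL.C (nat_lit 0x10581b16) (nat_lit 0x0) (nat_lit 0x171f38928d4abb)
  (PL.C (nat_lit 0x105e7a7d) (nat_lit 0x0) (nat_lit 0x1c040445bd351)
  (PL.C (nat_lit 0x106087f6) (nat_lit 0x0) (nat_lit 0x1f5306398dd08d)
  (PL.C (nat_lit 0x1067f0fd) (nat_lit 0x0) (nat_lit 0xe7eebd448d6df6)
  (PL.C (nat_lit 0x106af8f2) (nat_lit 0x888edb02465c12) (nat_lit 0x0)
  (PL.C (nat_lit 0x10702703) (nat_lit 0x26703a3938014e) (nat_lit 0x0)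
  (PL.C (nat_lit 0x107142e6) (nat_lit 0x2c2f086e9b271c) (nat_lit 0x0)
  (PL.C (nat_lit 0x1072e1a5) (nat_lit 0xe4567e70bae7b1) (nat_lit 0x0)
  (PL.C (nat_lit 0x1078a66a) (nat_lit 0x1e72e1de58b796) (nat_lit 0x0)
  (PL.C (nat_lit 0x10798953) (nat_lit 0x0) (nat_lit 0xea219bb68119bb)
  (PL.C (nat_lit 0x107c1fba) (nat_lit 0x0) (nat_lit 0x2399fb5dde6582)
  (PL.C (nat_lit 0x108320a1) (nat_lit 0x1777c053fec34d) (nat_lit 0x0)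
  (PL.C (nat_lit 0x1090277c) (nat_lit 0x0) (nat_lit 0x259d0b4af2fddb)
  (PL.C (nat_lit 0x109460a5) (nat_lit 0x0) (nat_lit 0xd6b2dbdd2262e)
  (PL.C (nat_lit 0x109cf2c6) (nat_lit 0x3fc4a90ed39450) (nat_lit 0x0)
  (PL.C (nat_lit 0x10a1a8fa) (nat_lit 0x0) (nat_lit 0x6cd8494f4b06)
  (PL.C (nat_lit 0x10a4019f) (nat_lit 0xadee2565c88a70) (nat_lit 0x0)
  (PL.C (nat_lit 0x10b4a7a4) (nat_lit 0x0) (nat_lit 0x98bfb167d96f72)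
  (PL.C (nat_lit 0x10b4dbbe) (nat_lit 0x0) (nat_lit 0x255101dad1aff1)
  (PL.C (nat_lit 0x10c2433f) (nat_lit 0x0) (nat_lit 0x5328629ac54c32) gp2_0_185))))))))))))))))))))

noncomputable def gp2_0_183 : PL :=
  (PL.C (nat_lit 0xfc48c8b) (nat_lit 0xe7c8768d7b2900) (nat_lit 0x0)
  (PL.C (nat_lit 0xfcce384) (nat_lit 0x0) (nat_lit 0x35e8aae834d994)
  (PL.C (nat_lit 0xfcef745) (nat_lit 0x5a7e41158b8270) (nat_lit 0x0)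
  (PL.C (nat_lit 0xfd1b68a) (nat_lit 0x4283e990b211dec) (nat_lit 0x0)
  (PL.C (nat_lit 0xfdac451) (nat_lit 0x0) (nat_lit 0x927963ec8ac15e)
  (PL.C (nat_lit 0xfdfeb8b) (nat_lit 0x0) (nat_lit 0x35206068cd2ac7)
  (PL.C (nat_lit 0xfebc53f) (nat_lit 0x73f1876befb2f) (nat_lit 0x0)
  (PL.C (nat_lit 0xfefb55c) (nat_lit 0x0) (nat_lit 0x21ef057d3a90ae)
  (PL.C (nat_lit 0xffc1e4b) (nat_lit 0x2cea94dfb19f60) (nat_lit 0x0)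
  (PL.C (nat_lit 0x1002b6e1) (nat_lit 0x0) (nat_lit 0x9c4d91c8425813)
  (PL.C (nat_lit 0x1003cb62) (nat_lit 0x0) (nat_lit 0xf4efb60d4a6fc5)
  (PL.C (nat_lit 0x1015322b) (nat_lit 0xf60bf6e4c617db4) (nat_lit 0x0)
  (PL.C (nat_lit 0x10178f49) (nat_lit 0x197bad4110462e) (nat_lit 0x0)
  (PL.C (nat_lit 0x101a5c46) (nat_lit 0x139b109cad40ed) (nat_lit 0x0)
  (PL.C (nat_lit 0x101bf275) (nat_lit 0x66e6a034e3f4cd) (nat_lit 0x0)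
  (PL.C (nat_lit 0x1025ff57) (nat_lit 0x0) (nat_lit 0xc3c6d73e93231b)
  (PL.C (nat_lit 0x102a22a3) (nat_lit 0x0) (nat_lit 0x108ccc534dcb75f)
  (PL.C (nat_lit 0x1032ef3e) (nat_lit 0x3512aa46486ce) (nat_lit 0x0)
  (PL.C (nat_lit 0x103b05af) (nat_lit 0x27e0deba47dca9) (nat_lit 0x0)
  (PL.C (nat_lit 0x1052b075) (nat_lit 0x5fa49f54b3abf5a) (nat_lit 0x0) gp2_0_184))))))))))))))))))))

noncomputable def gp2_0_182 : PL :=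
  (PL.C (nat_lit 0xf2b620e) (nat_lit 0x55fdd0bd106c03) (nat_lit 0x0)
  (PL.C (nat_lit 0xf2caa1a) (nat_lit 0x0) (nat_lit 0x762aa4d9e16fd)
  (PL.C (nat_lit 0xf2ce0b1) (nat_lit 0x0) (nat_lit 0x26a8c909fc76184)
  (PL.C (nat_lit 0xf31c032) (nat_lit 0x41a2afe7cc9a8) (nat_lit 0x0)
  (PL.C (nat_lit 0xf384baf) (nat_lit 0x0) (nat_lit 0x1362ac38e17ac9)
  (PL.C (nat_lit 0xf45f65f) (nat_lit 0x3f0ee53ed21ffe) (nat_lit 0x0)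
  (PL.C (nat_lit 0xf520e2a) (nat_lit 0x3b1cda690d5a08) (nat_lit 0x0)
  (PL.C (nat_lit 0xf5911e4) (nat_lit 0x0) (nat_lit 0x22a969410545aa)
  (PL.C (nat_lit 0xf7136bb) (nat_lit 0x5a841600cf2ee5) (nat_lit 0x0)
  (PL.C (nat_lit 0xf73f642) (nat_lit 0x0) (nat_lit 0xd2227b9069f53)
  (PL.C (nat_lit 0xf81c675) (nat_lit 0x31c52a148caf2) (nat_lit 0x0)
  (PL.C (nat_lit 0xf8434e2) (nat_lit 0x0) (nat_lit 0xb1258711d8337)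
  (PL.C (nat_lit 0xf873fe2) (nat_lit 0x56b4858fb19628) (nat_lit 0x0)
  (PL.C (nat_lit 0xf8a3e5b) (nat_lit 0x0) (nat_lit 0xc17cd12557a080)
  (PL.C (nat_lit 0xf9132a4) (nat_lit 0x250f4beb1b0f1) (nat_lit 0x0)
  (PL.C (nat_lit 0xf97a3f9) (nat_lit 0x0) (nat_lit 0x172daab4d06a1b3)
  (PL.C (nat_lit 0xf97e73e) (nat_lit 0xe68fe660bf9e1) (nat_lit 0x0)
  (PL.C (nat_lit 0xfa5af8a) (nat_lit 0x9dd0c9cee77df) (nat_lit 0x0)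
  (PL.C (nat_lit 0xfa6668e) (nat_lit 0x7e645ac31447a8) (nat_lit 0x0)
  (PL.C (nat_lit 0xfba4452) (nat_lit 0x1033b45fd09329) (nat_lit 0x0) gp2_0_183))))))))))))))))))))

noncomputable def gp2_0_181 : PL :=
  (PL.C (nat_lit 0xeaffa47) (nat_lit 0x263dcb2dc355e6) (nat_lit 0x0)
  (PL.C (nat_lit 0xeb39575) (nat_lit 0x19d90459a30314) (nat_lit 0x0)
  (PL.C (nat_lit 0xeb5698e) (nat_lit 0x170e03cd2bc06b) (nat_lit 0x0)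
  (PL.C (nat_lit 0xec288fb) (nat_lit 0x35bb4518c027d9) (nat_lit 0x0)
  (PL.C (nat_lit 0xec6641a) (nat_lit 0x180e8b6e112ebe7) (nat_lit 0x0)
  (PL.C (nat_lit 0xec6954f) (nat_lit 0x0) (nat_lit 0x24c51810776f9c)
  (PL.C (nat_lit 0xec7a39e) (nat_lit 0x1eef3f59fd90f0) (nat_lit 0x0)
  (PL.C (nat_lit 0xed5d382) (nat_lit 0x20d4f1d34226d7) (nat_lit 0x0)
  (PL.C (nat_lit 0xed8a045) (nat_lit 0x5718e78948bb76) (nat_lit 0x0)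
  (PL.C (nat_lit 0xed9a0aa) (nat_lit 0x80e02a33a80336) (nat_lit 0x0)
  (PL.C (nat_lit 0xee10f56) (nat_lit 0x0) (nat_lit 0xa90b5daa861fa8)
  (PL.C (nat_lit 0xee9c377) (nat_lit 0x0) (nat_lit 0xeee6015b59101)
  (PL.C (nat_lit 0xeef79dd) (nat_lit 0x0) (nat_lit 0x2806a467191944)
  (PL.C (nat_lit 0xef957d3) (nat_lit 0x0) (nat_lit 0x1208795d36327b0)
  (PL.C (nat_lit 0xeff7e73) (nat_lit 0x1321c9b3689ac7) (nat_lit 0x0)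
  (PL.C (nat_lit 0xf01d97a) (nat_lit 0x169e455a30c291) (nat_lit 0x0)
  (PL.C (nat_lit 0xf048567) (nat_lit 0x0) (nat_lit 0x4357fae1bb35e8)
  (PL.C (nat_lit 0xf1177bd) (nat_lit 0x0) (nat_lit 0x1129eb1a780cbf6)
  (PL.C (nat_lit 0xf1c2505) (nat_lit 0x352d6906ddc724) (nat_lit 0x0)
  (PL.C (nat_lit 0xf1c7546) (nat_lit 0x0) (nat_lit 0xbfeaf63aa1fa4) gp2_0_182))))))))))))))))))))

noncomputable def gp2_0_180 : PL :=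
  (PL.C (nat_lit 0xe2999fb) (nat_lit 0x0) (nat_lit 0x57888d90642c51)
  (PL.C (nat_lit 0xe2bd36a) (nat_lit 0x0) (nat_lit 0xc888639392ac97)
  (PL.C (nat_lit 0xe32a673) (nat_lit 0x0) (nat_lit 0x784442b0d0543)
  (PL.C (nat_lit 0xe480b16) (nat_lit 0x683d9364ba6dc8) (nat_lit 0x0)
  (PL.C (nat_lit 0xe4cf5cd) (nat_lit 0x1584e7a71a14982) (nat_lit 0x0)
  (PL.C (nat_lit 0xe50420a) (nat_lit 0x0) (nat_lit 0x408cd17daef992)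
  (PL.C (nat_lit 0xe58dfb9) (nat_lit 0xc4d92e56cf7d54) (nat_lit 0x0)
  (PL.C (nat_lit 0xe5b22fc) (nat_lit 0x0) (nat_lit 0xe1485843246af)
  (PL.C (nat_lit 0xe696f73) (nat_lit 0x89f24b7535e5ce) (nat_lit 0x0)
  (PL.C (nat_lit 0xe6d58d6) (nat_lit 0x0) (nat_lit 0x85517aa924cea)
  (PL.C (nat_lit 0xe787dbf) (nat_lit 0x1c6aa5c420d7e64) (nat_lit 0x0)
  (PL.C (nat_lit 0xe7c4d5a) (nat_lit 0x0) (nat_lit 0x9cc17d7751752)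
  (PL.C (nat_lit 0xe7e0032) (nat_lit 0x2dc2c8dc5f8d3cf) (nat_lit 0x0)
  (PL.C (nat_lit 0xe8c0abf) (nat_lit 0x55ee7d03fe6215d) (nat_lit 0x0)
  (PL.C (nat_lit 0xe8d23fa) (nat_lit 0x7fa3e66b2d75c8) (nat_lit 0x0)
  (PL.C (nat_lit 0xe9026e1) (nat_lit 0x11f90772675d58) (nat_lit 0x0)
  (PL.C (nat_lit 0xe9efb57) (nat_lit 0x0) (nat_lit 0x13715ab6feecb4)
  (PL.C (nat_lit 0xea08a2d) (nat_lit 0x0) (nat_lit 0x5b3f1bcb94b130e)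
  (PL.C (nat_lit 0xea64ca9) (nat_lit 0x7c50f03ebe8086) (nat_lit 0x0)
  (PL.C (nat_lit 0xeaea999) (nat_lit 0x2e08bee396b4) (nat_lit 0x0) gp2_0_181))))))))))))))))))))

noncomputable def gp2_0_179 : PL :=
  (PL.C (nat_lit 0xd994109) (nat_lit 0xdb49bfaba2d3ad) (nat_lit 0x0)
  (PL.C (nat_lit 0xda11d89) (nat_lit 0xede8ef85a04366) (nat_lit 0x0)
  (PL.C (nat_lit 0xda1bcf3) (nat_lit 0x1b9ff0907994e5f) (nat_lit 0x0)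
  (PL.C (nat_lit 0xdaca8b6) (nat_lit 0x0) (nat_lit 0xae92f13c0aea24)
  (PL.C (nat_lit 0xdafbb87) (nat_lit 0x38988f1bc332a2) (nat_lit 0x0)
  (PL.C (nat_lit 0xdb88e56) (nat_lit 0x9b6b16026357fb) (nat_lit 0x0)
  (PL.C (nat_lit 0xdbdc933) (nat_lit 0x0) (nat_lit 0x58ad9183c97ae1)
  (PL.C (nat_lit 0xdc77709) (nat_lit 0x0) (nat_lit 0x395d7461f1d0c1c)
  (PL.C (nat_lit 0xdd3264e) (nat_lit 0x6a3d99f0b09a9d) (nat_lit 0x0)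
  (PL.C (nat_lit 0xdd7c896) (nat_lit 0x48763386e919be) (nat_lit 0x0)
  (PL.C (nat_lit 0xdd967b1) (nat_lit 0x1a728988a09a220) (nat_lit 0x0)
  (PL.C (nat_lit 0xdddbf0d) (nat_lit 0x0) (nat_lit 0x6f1392af902c4f)
  (PL.C (nat_lit 0xdf0f6ee) (nat_lit 0x2186036f54ec860) (nat_lit 0x0)
  (PL.C (nat_lit 0xdf358ea) (nat_lit 0xf8d98f12da9a93) (nat_lit 0x0)
  (PL.C (nat_lit 0xdf3dc77) (nat_lit 0x0) (nat_lit 0x2d4beb9d0d6fd3)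
  (PL.C (nat_lit 0xe031d9e) (nat_lit 0x4600ae1899912) (nat_lit 0x0)
  (PL.C (nat_lit 0xe0cdce6) (nat_lit 0x0) (nat_lit 0x576937b03ab41a)
  (PL.C (nat_lit 0xe10f486) (nat_lit 0x0) (nat_lit 0x121311435853853)
  (PL.C (nat_lit 0xe1a79d5) (nat_lit 0x0) (nat_lit 0x17d7dc68e20b0e1)
  (PL.C (nat_lit 0xe1d14e2) (nat_lit 0x0) (nat_lit 0x2f8b1aa1822e7c) gp2_0_180))))))))))))))))))))

noncomputable def gp2_0_178 : PL :=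
  (PL.C (nat_lit 0xd584519) (nat_lit 0xbf35e6af17ca2b) (nat_lit 0x0)
  (PL.C (nat_lit 0xd5be4c3) (nat_lit 0x0) (nat_lit 0x4897a224c87c7)
  (PL.C (nat_lit 0xd5d1cdf) (nat_lit 0x0) (nat_lit 0x98daa29d425109)
  (PL.C (nat_lit 0xd5d3532) (nat_lit 0x0) (nat_lit 0x9ac0ed3be3df04)
  (PL.C (nat_lit 0xd60bd6e) (nat_lit 0x0) (nat_lit 0x24122f94f20725)
  (PL.C (nat_lit 0xd623b55) (nat_lit 0x5f12358e55cf0c) (nat_lit 0x0)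
  (PL.C (nat_lit 0xd6694f7) (nat_lit 0x0) (nat_lit 0x32231bdec0352)
  (PL.C (nat_lit 0xd6b12db) (nat_lit 0x0) (nat_lit 0x4cfeb6cf8ecd1d)
  (PL.C (nat_lit 0xd6bbaa3) (nat_lit 0x0) (nat_lit 0x170f0e2ca22c00d7)
  (PL.C (nat_lit 0xd702eba) (nat_lit 0x0) (nat_lit 0x69d6619fb29f8)
  (PL.C (nat_lit 0xd75547e) (nat_lit 0x0) (nat_lit 0x24cdd9ac66b537)
  (PL.C (nat_lit 0xd7d33db) (nat_lit 0x0) (nat_lit 0x80ea6e90668365)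
  (PL.C (nat_lit 0xd7e38a2) (nat_lit 0x23b4b3c4a20b4f) (nat_lit 0x0)
  (PL.C (nat_lit 0xd7e62b7) (nat_lit 0xa8c8e9f25f05a3) (nat_lit 0x0)
  (PL.C (nat_lit 0xd83f425) (nat_lit 0x1e90a4842e70042) (nat_lit 0x0)
  (PL.C (nat_lit 0xd8bab55) (nat_lit 0x0) (nat_lit 0x580f6a825beead)
  (PL.C (nat_lit 0xd8dcbf6) (nat_lit 0x0) (nat_lit 0x6618b1842f55ce)
  (PL.C (nat_lit 0xd8ec3d3) (nat_lit 0x0) (nat_lit 0x3ff1159870e3fa)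
  (PL.C (nat_lit 0xd92fd12) (nat_lit 0x0) (nat_lit 0x663756ddb20bdd)
  (PL.C (nat_lit 0xd938e17) (nat_lit 0x0) (nat_lit 0x5a7a7fe13317b05) gp2_0_179))))))))))))))))))))

noncomputable def gp2_0_177 : PL :=
  (PL.C (nat_lit 0xce49e1b) (nat_lit 0x426ebfc759ab1c) (nat_lit 0x0)
  (PL.C (nat_lit 0xce8f06f) (nat_lit 0x265e61945d474c) (nat_lit 0x0)
  (PL.C (nat_lit 0xcef5f59) (nat_lit 0x5958dff0ff7357) (nat_lit 0x0)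
  (PL.C (nat_lit 0xcfd3eb7) (nat_lit 0x0) (nat_lit 0x89137dca2fd63)
  (PL.C (nat_lit 0xcff247a) (nat_lit 0x0) (nat_lit 0x12f804cc498f3a6)
  (PL.C (nat_lit 0xd0920e7) (nat_lit 0xa7e368445de7c0) (nat_lit 0x0)
  (PL.C (nat_lit 0xd0b72ca) (nat_lit 0xffa2e574b0b86) (nat_lit 0x0)
  (PL.C (nat_lit 0xd0fd222) (nat_lit 0x7d685c80ca024) (nat_lit 0x0)
  (PL.C (nat_lit 0xd157277) (nat_lit 0x3757412a4d3952) (nat_lit 0x0)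
  (PL.C (nat_lit 0xd194207) (nat_lit 0x362d205421764c) (nat_lit 0x0)
  (PL.C (nat_lit 0xd1a58c4) (nat_lit 0x0) (nat_lit 0x902781228ac73)
  (PL.C (nat_lit 0xd1b7f25) (nat_lit 0x0) (nat_lit 0xc83cbfba76ac)
  (PL.C (nat_lit 0xd1bbaea) (nat_lit 0x2d3a66022f26046) (nat_lit 0x0)
  (PL.C (nat_lit 0xd26490c) (nat_lit 0x0) (nat_lit 0x62a1c4686d039e)
  (PL.C (nat_lit 0xd288864) (nat_lit 0x10e88f9543134c) (nat_lit 0x0)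
  (PL.C (nat_lit 0xd2e335e) (nat_lit 0xbc19ccc0991c2) (nat_lit 0x0)
  (PL.C (nat_lit 0xd37b371) (nat_lit 0x1ad0f196e1528b) (nat_lit 0x0)
  (PL.C (nat_lit 0xd42b561) (nat_lit 0x0) (nat_lit 0x2ebf590564e141)
  (PL.C (nat_lit 0xd4b3f32) (nat_lit 0x0) (nat_lit 0xf580c1f707fb3)
  (PL.C (nat_lit 0xd4dc17d) (nat_lit 0x17d8d47a646a10) (nat_lit 0x0) gp2_0_178))))))))))))))))))))

noncomputable def gp2_0_176 : PL :=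
  (PL.C (nat_lit 0xc8e9aca) (nat_lit 0x322c42b4d63d2) (nat_lit 0x0)
  (PL.C (nat_lit 0xc8ffd74) (nat_lit 0x9919a4f16b723a) (nat_lit 0x0)
  (PL.C (nat_lit 0xc92fd85) (nat_lit 0x8603c3ec019c4a) (nat_lit 0x0)
  (PL.C (nat_lit 0xc96431a) (nat_lit 0x0) (nat_lit 0xc1346b73ce296)
  (PL.C (nat_lit 0xc96c993) (nat_lit 0x20f161067a3238) (nat_lit 0x0)
  (PL.C (nat_lit 0xca35c8d) (nat_lit 0x1bb84c469ad778) (nat_lit 0x0)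
  (PL.C (nat_lit 0xca3f05f) (nat_lit 0x2a75a012a3cf896) (nat_lit 0x0)
  (PL.C (nat_lit 0xca6c49d) (nat_lit 0xe519fa7f08a62) (nat_lit 0x0)
  (PL.C (nat_lit 0xca89dbe) (nat_lit 0x5c7a7158263567e) (nat_lit 0x0)
  (PL.C (nat_lit 0xcb359c4) (nat_lit 0x0) (nat_lit 0xa789702de07a7)
  (PL.C (nat_lit 0xcb918ee) (nat_lit 0x0) (nat_lit 0xa030687b1d5691)
  (PL.C (nat_lit 0xcbf7712) (nat_lit 0x0) (nat_lit 0x2774cb6e8394f0)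
  (PL.C (nat_lit 0xcc194de) (nat_lit 0x0) (nat_lit 0xe57cd8d20e1ec)
  (PL.C (nat_lit 0xcc410da) (nat_lit 0x0) (nat_lit 0x907b86616c4b2c)
  (PL.C (nat_lit 0xcc6ec0d) (nat_lit 0x40214a317a8b0bc) (nat_lit 0x0)
  (PL.C (nat_lit 0xccf7135) (nat_lit 0x391902304b0e134) (nat_lit 0x0)
  (PL.C (nat_lit 0xcd1c1c6) (nat_lit 0x4740ec8d93969b) (nat_lit 0x0)
  (PL.C (nat_lit 0xcd914ab) (nat_lit 0x747d0a673a3de) (nat_lit 0x0)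
  (PL.C (nat_lit 0xcdb8ede) (nat_lit 0x48dca721b39e10) (nat_lit 0x0)
  (PL.C (nat_lit 0xcdf547b) (nat_lit 0x35ae20546bc2971) (nat_lit 0x0) gp2_0_177))))))))))))))))))))

noncomputable def gp2_0_175 : PL :=
  (PL.C (nat_lit 0xc2fa2aa) (nat_lit 0x4edb736db0e170) (nat_lit 0x0)
  (PL.C (nat_lit 0xc34861b) (nat_lit 0x91f039a51530c) (nat_lit 0x0)
  (PL.C (nat_lit 0xc372afb) (nat_lit 0x0) (nat_lit 0x9888f2e01e29)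
  (PL.C (nat_lit 0xc40941f) (nat_lit 0x91ffcb205cdbf1) (nat_lit 0x0)
  (PL.C (nat_lit 0xc419d15) (nat_lit 0x8f35e7f072a9b5) (nat_lit 0x0)
  (PL.C (nat_lit 0xc42769e) (nat_lit 0x0) (nat_lit 0x4ed3fcc7b6d399)
  (PL.C (nat_lit 0xc47abfb) (nat_lit 0x0) (nat_lit 0x618186868581eac)
  (PL.C (nat_lit 0xc489962) (nat_lit 0x7449db051350e7) (nat_lit 0x0)
  (PL.C (nat_lit 0xc4b2425) (nat_lit 0xe9351829c757f9) (nat_lit 0x0)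
  (PL.C (nat_lit 0xc4fc8d5) (nat_lit 0x1ecf89739662910) (nat_lit 0x0)
  (PL.C (nat_lit 0xc58f9a1) (nat_lit 0x7794a8457e45d5) (nat_lit 0x0)
  (PL.C (nat_lit 0xc5fd05d) (nat_lit 0x484ba397cecaed) (nat_lit 0x0)
  (PL.C (nat_lit 0xc657ac2) (nat_lit 0x64798eaf2f235f) (nat_lit 0x0)
  (PL.C (nat_lit 0xc6a9846) (nat_lit 0x0) (nat_lit 0x2e7a4532098d823)
  (PL.C (nat_lit 0xc75ac27) (nat_lit 0x0) (nat_lit 0x726a18e8e612e)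
  (PL.C (nat_lit 0xc7ac2b6) (nat_lit 0x0) (nat_lit 0xc86a0e0a8fa15)
  (PL.C (nat_lit 0xc7e29be) (nat_lit 0x0) (nat_lit 0x499bd7b827bc64)
  (PL.C (nat_lit 0xc813196) (nat_lit 0x6b6a9e3a342339) (nat_lit 0x0)
  (PL.C (nat_lit 0xc85f50a) (nat_lit 0x0) (nat_lit 0x2ef1bad4d7f8e07)
  (PL.C (nat_lit 0xc885219) (nat_lit 0x0) (nat_lit 0xa540ed378c867a) gp2_0_176))))))))))))))))))))

noncomputable def gp2_0_174 : PL :=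
  (PL.C (nat_lit 0xbc6c612) (nat_lit 0xd80e59068ccfc9) (nat_lit 0x0)
  (PL.C (nat_lit 0xbd8373a) (nat_lit 0x0) (nat_lit 0x7f6ad5af581b99)
  (PL.C (nat_lit 0xbe7cde9) (nat_lit 0x0) (nat_lit 0x86160c4ddbb034)
  (PL.C (nat_lit 0xbe9dff7) (nat_lit 0x21d256a27bbf3) (nat_lit 0x0)
  (PL.C (nat_lit 0xbef0215) (nat_lit 0x25a4cefd15b8b54) (nat_lit 0x0)
  (PL.C (nat_lit 0xbf00427) (nat_lit 0x9490b82d945ba) (nat_lit 0x0)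
  (PL.C (nat_lit 0xbfbe38c) (nat_lit 0x3aa26ffa10240a) (nat_lit 0x0)
  (PL.C (nat_lit 0xbfe8b9d) (nat_lit 0x2513435161cfec) (nat_lit 0x0)
  (PL.C (nat_lit 0xc048c63) (nat_lit 0x0) (nat_lit 0x1624505790c0f3)
  (PL.C (nat_lit 0xc06c52b) (nat_lit 0x0) (nat_lit 0x6c4cbd07365699)
  (PL.C (nat_lit 0xc0abe53) (nat_lit 0x0) (nat_lit 0x2a01fc077d75bd)
  (PL.C (nat_lit 0xc0d2b22) (nat_lit 0x0) (nat_lit 0x2fe1d7fe1ba7a9)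
  (PL.C (nat_lit 0xc166da3) (nat_lit 0x0) (nat_lit 0xea6a16601106a4)
  (PL.C (nat_lit 0xc178ed6) (nat_lit 0xd809e711652d0d) (nat_lit 0x0)
  (PL.C (nat_lit 0xc17ee82) (nat_lit 0x0) (nat_lit 0x61b6c2bb87af1dd)
  (PL.C (nat_lit 0xc1c7a5d) (nat_lit 0x29540e579a9790) (nat_lit 0x0)
  (PL.C (nat_lit 0xc1f0845) (nat_lit 0x0) (nat_lit 0x1a0af1c38ad40f)
  (PL.C (nat_lit 0xc22733c) (nat_lit 0x0) (nat_lit 0x638119a046ba21)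
  (PL.C (nat_lit 0xc27ad52) (nat_lit 0x3833efc93021d9) (nat_lit 0x0)
  (PL.C (nat_lit 0xc2dc2ae) (nat_lit 0x630fcd797f25a4) (nat_lit 0x0) gp2_0_175))))))))))))))))))))

noncomputable def gp2_0_173 : PL :=
  (PL.C (nat_lit 0xb815b6d) (nat_lit 0x0) (nat_lit 0x1a68f6e1a4387d3)
  (PL.C (nat_lit 0xb81e1ff) (nat_lit 0x0) (nat_lit 0x12f71d973b1f705)
  (PL.C (nat_lit 0xb836c9e) (nat_lit 0x229e38bd40a0e20) (nat_lit 0x0)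
  (PL.C (nat_lit 0xb8555f2) (nat_lit 0x0) (nat_lit 0x200284666e7585)
  (PL.C (nat_lit 0xb88f543) (nat_lit 0x0) (nat_lit 0x19b9d0188a4be4)
  (PL.C (nat_lit 0xb895bfe) (nat_lit 0x0) (nat_lit 0x7e57d8acf70e75)
  (PL.C (nat_lit 0xb8b1a0e) (nat_lit 0x0) (nat_lit 0x2ca4d9b39f3b61)
  (PL.C (nat_lit 0xb8bfef2) (nat_lit 0x3325fa1a259151) (nat_lit 0x0)
  (PL.C (nat_lit 0xb8f97cd) (nat_lit 0x4d14c3f75afcbd) (nat_lit 0x0)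
  (PL.C (nat_lit 0xb98612e) (nat_lit 0x2208df5e08997a) (nat_lit 0x0)
  (PL.C (nat_lit 0xb996b12) (nat_lit 0x5ac461db13926f) (nat_lit 0x0)
  (PL.C (nat_lit 0xb998f3f) (nat_lit 0x44af243454c679) (nat_lit 0x0)
  (PL.C (nat_lit 0xb9ccbf2) (nat_lit 0xad3ef955107b1d) (nat_lit 0x0)
  (PL.C (nat_lit 0xb9e2ed2) (nat_lit 0x2a642102aa0bb5) (nat_lit 0x0)
  (PL.C (nat_lit 0xba1baed) (nat_lit 0xe1de322b277825) (nat_lit 0x0)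
  (PL.C (nat_lit 0xba6cec6) (nat_lit 0x6b4918f8ea1217) (nat_lit 0x0)
  (PL.C (nat_lit 0xbaf816e) (nat_lit 0xce44badb2d0813) (nat_lit 0x0)
  (PL.C (nat_lit 0xbb48a01) (nat_lit 0x0) (nat_lit 0x318103972448c3e)
  (PL.C (nat_lit 0xbb7c91e) (nat_lit 0x3d3abf58f56e8b) (nat_lit 0x0)
  (PL.C (nat_lit 0xbc4c326) (nat_lit 0x0) (nat_lit 0x2d552185b2c67b3) gp2_0_174))))))))))))))))))))

noncomputable def gp2_0_172 : PL :=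
  (PL.C (nat_lit 0xb1e9e51) (nat_lit 0x0) (nat_lit 0x16f31ded7759ce2)
  (PL.C (nat_lit 0xb2a8b3f) (nat_lit 0x0) (nat_lit 0x30992a4efadeb4)
  (PL.C (nat_lit 0xb30c224) (nat_lit 0x39347a193be65a) (nat_lit 0x0)
  (PL.C (nat_lit 0xb42a00f) (nat_lit 0x0) (nat_lit 0x13969e870bfccd)
  (PL.C (nat_lit 0xb448cbd) (nat_lit 0x0) (nat_lit 0x32dfd3c50747d6)
  (PL.C (nat_lit 0xb4b03a6) (nat_lit 0x1a88593aff3f6e) (nat_lit 0x0)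
  (PL.C (nat_lit 0xb4b3846) (nat_lit 0x2a290c9215dbb1) (nat_lit 0x0)
  (PL.C (nat_lit 0xb514927) (nat_lit 0x0) (nat_lit 0xc50782a5615a4)
  (PL.C (nat_lit 0xb544a6f) (nat_lit 0xae01f0af147d552) (nat_lit 0x0)
  (PL.C (nat_lit 0xb54a0ee) (nat_lit 0x13bd94aa6b4c51) (nat_lit 0x0)
  (PL.C (nat_lit 0xb5c76bb) (nat_lit 0xb5440693b84600) (nat_lit 0x0)
  (PL.C (nat_lit 0xb5ccba9) (nat_lit 0xbb0dfdd5f4628) (nat_lit 0x0)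
  (PL.C (nat_lit 0xb61b53a) (nat_lit 0x0) (nat_lit 0x10cf6b7e9a3c23f)
  (PL.C (nat_lit 0xb630a87) (nat_lit 0x11de5ad7430e9df) (nat_lit 0x0)
  (PL.C (nat_lit 0xb63e6aa) (nat_lit 0x0) (nat_lit 0x2ced922d97f217)
  (PL.C (nat_lit 0xb664219) (nat_lit 0x0) (nat_lit 0xf3f38182a7e4e)
  (PL.C (nat_lit 0xb68bd79) (nat_lit 0x0) (nat_lit 0x13bb77630bcc222)
  (PL.C (nat_lit 0xb6d9922) (nat_lit 0x1a01d7197d10ef) (nat_lit 0x0)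
  (PL.C (nat_lit 0xb717ee9) (nat_lit 0x0) (nat_lit 0x68a230442660f)
  (PL.C (nat_lit 0xb731605) (nat_lit 0xac2af4ce5d6b2c) (nat_lit 0x0) gp2_0_173))))))))))))))))))))

noncomputable def gp2_0_171 : PL :=
  (PL.C (nat_lit 0xacb4881) (nat_lit 0x0) (nat_lit 0xcdacc63b900c7f)
  (PL.C (nat_lit 0xad203ca) (nat_lit 0x405a904b9f60d9) (nat_lit 0x0)
  (PL.C (nat_lit 0xad6dc0f) (nat_lit 0x0) (nat_lit 0x3157177234eddd)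
  (PL.C (nat_lit 0xada9be5) (nat_lit 0x0) (nat_lit 0x75e2412c17d26b)
  (PL.C (nat_lit 0xaddc5a7) (nat_lit 0x0) (nat_lit 0x2f97ee47fa5c537)
  (PL.C (nat_lit 0xae56764) (nat_lit 0x5a85c0907606ed) (nat_lit 0x0)
  (PL.C (nat_lit 0xae9a6fe) (nat_lit 0x0) (nat_lit 0x4601c579d40fc)
  (PL.C (nat_lit 0xaeb507d) (nat_lit 0x0) (nat_lit 0x59f1c4765fbb18)
  (PL.C (nat_lit 0xaeff5fe) (nat_lit 0x0) (nat_lit 0x1d710eaef4be0d)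
  (PL.C (nat_lit 0xaf1fb4c) (nat_lit 0xe3ecff43412133) (nat_lit 0x0)
  (PL.C (nat_lit 0xaf28733) (nat_lit 0x29eaee9da35c1) (nat_lit 0x0)
  (PL.C (nat_lit 0xafab347) (nat_lit 0x7e52de78f132e) (nat_lit 0x0)
  (PL.C (nat_lit 0xafb199c) (nat_lit 0x8ac823048d520e) (nat_lit 0x0)
  (PL.C (nat_lit 0xafbb0e2) (nat_lit 0x2f7ecffdb398de) (nat_lit 0x0)
  (PL.C (nat_lit 0xafbd865) (nat_lit 0x5dab56fd0e36784) (nat_lit 0x0)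
  (PL.C (nat_lit 0xafd6a7c) (nat_lit 0x0) (nat_lit 0xd123d2c92103d)
  (PL.C (nat_lit 0xb08538d) (nat_lit 0x117e1cbd5703136) (nat_lit 0x0)
  (PL.C (nat_lit 0xb0b7493) (nat_lit 0x49b15fc98862c0) (nat_lit 0x0)
  (PL.C (nat_lit 0xb134c84) (nat_lit 0x5e1434af47896a) (nat_lit 0x0)
  (PL.C (nat_lit 0xb1811ce) (nat_lit 0x403ef196d97916) (nat_lit 0x0) gp2_0_172))))))))))))))))))))

noncomputable def gp2_0_170 : PL :=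
  (PL.C (nat_lit 0xa7c2d8c) (nat_lit 0x0) (nat_lit 0x1d00422cfc652)
  (PL.C (nat_lit 0xa7dfe83) (nat_lit 0x0) (nat_lit 0x15164c3f303eeb)
  (PL.C (nat_lit 0xa885b67) (nat_lit 0xf03b75a7acfd50) (nat_lit 0x0)
  (PL.C (nat_lit 0xa893f2d) (nat_lit 0x4b573b2f67c1f3) (nat_lit 0x0)
  (PL.C (nat_lit 0xa89fa2e) (nat_lit 0x24985e2061aa0b) (nat_lit 0x0)
  (PL.C (nat_lit 0xa8f09c3) (nat_lit 0x313bf08f7a078a) (nat_lit 0x0)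
  (PL.C (nat_lit 0xa91d836) (nat_lit 0x0) (nat_lit 0x4d753fa424e39b)
  (PL.C (nat_lit 0xa9547b2) (nat_lit 0x0) (nat_lit 0xd92039643b70ad)
  (PL.C (nat_lit 0xa9665bd) (nat_lit 0x0) (nat_lit 0x2a8647c8b3aad6)
  (PL.C (nat_lit 0xa9d2e2a) (nat_lit 0x3f2c939c98b2e) (nat_lit 0x0)
  (PL.C (nat_lit 0xa9d5459) (nat_lit 0x0) (nat_lit 0x1a118b25a6dbdaa)
  (PL.C (nat_lit 0xaa1c093) (nat_lit 0xdf5be58432c54) (nat_lit 0x0)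
  (PL.C (nat_lit 0xaa81432) (nat_lit 0x8da5618d056442) (nat_lit 0x0)
  (PL.C (nat_lit 0xab19acd) (nat_lit 0x40d290401a8df1) (nat_lit 0x0)
  (PL.C (nat_lit 0xab92e95) (nat_lit 0x10801b447b4dbc) (nat_lit 0x0)
  (PL.C (nat_lit 0xaba5f86) (nat_lit 0x0) (nat_lit 0x1e4f66dc8730a0)
  (PL.C (nat_lit 0xabc3d84) (nat_lit 0x0) (nat_lit 0x3803c71df2fea)
  (PL.C (nat_lit 0xabd4c4e) (nat_lit 0xc14a26838178f7) (nat_lit 0x0)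
  (PL.C (nat_lit 0xac6c1c2) (nat_lit 0x0) (nat_lit 0x2ceefcb222f395d)
  (PL.C (nat_lit 0xac92b01) (nat_lit 0x0) (nat_lit 0x1e2a93ae0a8f5d) gp2_0_171))))))))))))))))))))

noncomputable def gp2_0_169 : PL :=
  (PL.C (nat_lit 0xa2004d1) (nat_lit 0x6dccbf21b17cdc) (nat_lit 0x0)
  (PL.C (nat_lit 0xa212acc) (nat_lit 0x525776b94ce3a) (nat_lit 0x0)
  (PL.C (nat_lit 0xa2587ca) (nat_lit 0x0) (nat_lit 0x7246e0c76a3669)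
  (PL.C (nat_lit 0xa2a50df) (nat_lit 0x0) (nat_lit 0xaa1f1df7e8886d)
  (PL.C (nat_lit 0xa36b41c) (nat_lit 0x0) (nat_lit 0x8253e3d00ea9b)
  (PL.C (nat_lit 0xa396bb7) (nat_lit 0x1c4f4ebde7d141b) (nat_lit 0x0)
  (PL.C (nat_lit 0xa423c2d) (nat_lit 0x0) (nat_lit 0x3a0aeb14de0400d)
  (PL.C (nat_lit 0xa4b79d2) (nat_lit 0x6795729054ff4b) (nat_lit 0x0)
  (PL.C (nat_lit 0xa4d95c7) (nat_lit 0x0) (nat_lit 0x41671876517e8f)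
  (PL.C (nat_lit 0xa4f9775) (nat_lit 0x0) (nat_lit 0x3bf0921af1981)
  (PL.C (nat_lit 0xa54c08b) (nat_lit 0x569d4928db654b) (nat_lit 0x0)
  (PL.C (nat_lit 0xa56844e) (nat_lit 0x6476077660906) (nat_lit 0x0)
  (PL.C (nat_lit 0xa57c2db) (nat_lit 0x0) (nat_lit 0x47f62d9e0fcaba)
  (PL.C (nat_lit 0xa5aa65b) (nat_lit 0x1e99b42c8e0acd) (nat_lit 0x0)
  (PL.C (nat_lit 0xa5c2992) (nat_lit 0x0) (nat_lit 0x1435d51fab7f89c)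
  (PL.C (nat_lit 0xa60ad79) (nat_lit 0x5ce5d4d4c31ca9) (nat_lit 0x0)
  (PL.C (nat_lit 0xa6498e9) (nat_lit 0x0) (nat_lit 0x43ccc9f3813d5e)
  (PL.C (nat_lit 0xa6544d4) (nat_lit 0x1d1180ff38f3c0) (nat_lit 0x0)
  (PL.C (nat_lit 0xa6b84dd) (nat_lit 0x0) (nat_lit 0x2789f33f30265f)
  (PL.C (nat_lit 0xa76e94a) (nat_lit 0x4bdd282776e86d) (nat_lit 0x0) gp2_0_170))))))))))))))))))))

noncomputable def gp2_0_168 : PL :=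
  (PL.C (nat_lit 0x9dbce7f) (nat_lit 0x0) (nat_lit 0x4509ff7e15f98)
  (PL.C (nat_lit 0x9dc9c3b) (nat_lit 0x85a2c19d5577e9) (nat_lit 0x0)
  (PL.C (nat_lit 0x9e06349) (nat_lit 0x0) (nat_lit 0x41baa8b8b43519)
  (PL.C (nat_lit 0x9e18bc5) (nat_lit 0x12c615177d4044) (nat_lit 0x0)
  (PL.C (nat_lit 0x9e5c02e) (nat_lit 0x954ff12a6e4a0b) (nat_lit 0x0)
  (PL.C (nat_lit 0x9e66b1c) (nat_lit 0x301891d74e32e2a) (nat_lit 0x0)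
  (PL.C (nat_lit 0x9e6e9a7) (nat_lit 0x2d20559de7f369) (nat_lit 0x0)
  (PL.C (nat_lit 0x9ebde59) (nat_lit 0x448f2d7ef84d7e) (nat_lit 0x0)
  (PL.C (nat_lit 0x9f03625) (nat_lit 0x86f23081ce3f8) (nat_lit 0x0)
  (PL.C (nat_lit 0x9f12cfa) (nat_lit 0x0) (nat_lit 0x5ffe6e7a73f3b9e)
  (PL.C (nat_lit 0x9f18849) (nat_lit 0x0) (nat_lit 0x16b4cdfdedc60)
  (PL.C (nat_lit 0x9fb8fe2) (nat_lit 0x0) (nat_lit 0xfca86b10baba41)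
  (PL.C (nat_lit 0x9ffa9a2) (nat_lit 0x1b646cef571f31) (nat_lit 0x0)
  (PL.C (nat_lit 0xa03039a) (nat_lit 0x107f42456ae94f0) (nat_lit 0x0)
  (PL.C (nat_lit 0xa07539b) (nat_lit 0x90e81d00544b9b) (nat_lit 0x0)
  (PL.C (nat_lit 0xa12e729) (nat_lit 0x0) (nat_lit 0x1182888356d65be)
  (PL.C (nat_lit 0xa13c103) (nat_lit 0x116eb46fff2506) (nat_lit 0x0)
  (PL.C (nat_lit 0xa1721b7) (nat_lit 0x0) (nat_lit 0x1a89cbe7dfb0f7)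
  (PL.C (nat_lit 0xa1d6d4d) (nat_lit 0x0) (nat_lit 0x1abd75aee440022)
  (PL.C (nat_lit 0xa1dc6bc) (nat_lit 0x0) (nat_lit 0x172aff5c4c6ab) gp2_0_169))))))))))))))))))))

noncomputable def gp2_0_167 : PL :=
  (PL.C (nat_lit 0x9830271) (nat_lit 0x0) (nat_lit 0x972950a351eb2b)
  (PL.C (nat_lit 0x988a3de) (nat_lit 0x0) (nat_lit 0x2355191ff7f55b6)
  (PL.C (nat_lit 0x9909526) (nat_lit 0x0) (nat_lit 0x149b9e758de3b7a)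
  (PL.C (nat_lit 0x9977a0d) (nat_lit 0x5174ec1f02900c) (nat_lit 0x0)
  (PL.C (nat_lit 0x99b9fa2) (nat_lit 0x0) (nat_lit 0x1faff1a86d84474)
  (PL.C (nat_lit 0x9a3196d) (nat_lit 0x0) (nat_lit 0x7b53f6a90da10a)
  (PL.C (nat_lit 0x9a5a92a) (nat_lit 0xf88db1005258ea) (nat_lit 0x0)
  (PL.C (nat_lit 0x9ac3059) (nat_lit 0x0) (nat_lit 0x43107dd2ad803d)
  (PL.C (nat_lit 0x9ae0bd7) (nat_lit 0x0) (nat_lit 0x27663671c758e56)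
  (PL.C (nat_lit 0x9bf523a) (nat_lit 0x0) (nat_lit 0x2a5e0c16aa931bb)
  (PL.C (nat_lit 0x9c05c1e) (nat_lit 0xb3d41cfeb2bd14) (nat_lit 0x0)
  (PL.C (nat_lit 0x9c44223) (nat_lit 0x1be046b9f8dceee) (nat_lit 0x0)
  (PL.C (nat_lit 0x9c48f69) (nat_lit 0x244446cb8e1165d) (nat_lit 0x0)
  (PL.C (nat_lit 0x9c9c666) (nat_lit 0x0) (nat_lit 0x3ffc1768d4088)
  (PL.C (nat_lit 0x9caa6da) (nat_lit 0x4c9dff4932ee6d) (nat_lit 0x0)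
  (PL.C (nat_lit 0x9cd0e4e) (nat_lit 0x4faa72873041be) (nat_lit 0x0)
  (PL.C (nat_lit 0x9d14711) (nat_lit 0x0) (nat_lit 0xeab37e981b717c)
  (PL.C (nat_lit 0x9d630ef) (nat_lit 0x957afd91408cdc) (nat_lit 0x0)
  (PL.C (nat_lit 0x9d7b49d) (nat_lit 0x0) (nat_lit 0x25e9cbfbafa98a8)
  (PL.C (nat_lit 0x9da6d14) (nat_lit 0x657b4b1bba6d0) (nat_lit 0x0) gp2_0_168))))))))))))))))))))

noncomputable def gp2_0_166 : PL :=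
  (PL.C (nat_lit 0x93e7f5e) (nat_lit 0x0) (nat_lit 0x7a87e9c04ad96e)
  (PL.C (nat_lit 0x9414f75) (nat_lit 0x0) (nat_lit 0x2c0d34a0637773)
  (PL.C (nat_lit 0x945a2b9) (nat_lit 0x4287897e396d5e7) (nat_lit 0x0)
  (PL.C (nat_lit 0x9477439) (nat_lit 0x0) (nat_lit 0x472b00741b8ab95)
  (PL.C (nat_lit 0x94c9ca7) (nat_lit 0x0) (nat_lit 0x20fed6a8806cd1b)
  (PL.C (nat_lit 0x94e27e1) (nat_lit 0x0) (nat_lit 0xb8a1ad84a07f7e)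
  (PL.C (nat_lit 0x95167d7) (nat_lit 0x5201a33fb9bc3c) (nat_lit 0x0)
  (PL.C (nat_lit 0x952d01f) (nat_lit 0x597cefcda82bc) (nat_lit 0x0)
  (PL.C (nat_lit 0x95758ad) (nat_lit 0x17b636b473901f2) (nat_lit 0x0)
  (PL.C (nat_lit 0x9576914) (nat_lit 0x0) (nat_lit 0xcb39e677369d0)
  (PL.C (nat_lit 0x95aecaf) (nat_lit 0xaab96745276f86) (nat_lit 0x0)
  (PL.C (nat_lit 0x960a304) (nat_lit 0x262888fbcc6beca) (nat_lit 0x0)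
  (PL.C (nat_lit 0x9611ae1) (nat_lit 0x69b95662eb461b) (nat_lit 0x0)
  (PL.C (nat_lit 0x962fd55) (nat_lit 0xc41e62811dfc203) (nat_lit 0x0)
  (PL.C (nat_lit 0x96930db) (nat_lit 0x941a33735bf7c) (nat_lit 0x0)
  (PL.C (nat_lit 0x96d0e7b) (nat_lit 0x13861cd48245af) (nat_lit 0x0)
  (PL.C (nat_lit 0x970374f) (nat_lit 0x0) (nat_lit 0xb803b1fc4ec72f)
  (PL.C (nat_lit 0x9711152) (nat_lit 0x0) (nat_lit 0xe8d2d765faa515)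
  (PL.C (nat_lit 0x97719a2) (nat_lit 0x0) (nat_lit 0x45f8c81a7a3cb0)
  (PL.C (nat_lit 0x981628b) (nat_lit 0x0) (nat_lit 0x4ca876a9901ed99) gp2_0_167))))))))))))))))))))

noncomputable def gp2_0_165 : PL :=
  (PL.C (nat_lit 0x8fc9763) (nat_lit 0x0) (nat_lit 0xce3b2adc8b1da)
  (PL.C (nat_lit 0x8fe2292) (nat_lit 0x0) (nat_lit 0x3f03c43d09a74b2)
  (PL.C (nat_lit 0x8fed06c) (nat_lit 0x0) (nat_lit 0x252866886f0562)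
  (PL.C (nat_lit 0x8feec7a) (nat_lit 0x1611460f2fe6c50) (nat_lit 0x0)
  (PL.C (nat_lit 0x907c78e) (nat_lit 0x0) (nat_lit 0xb83e5161917529)
  (PL.C (nat_lit 0x90932a4) (nat_lit 0x0) (nat_lit 0xea9a4567a2cf2f)
  (PL.C (nat_lit 0x909d7e2) (nat_lit 0x0) (nat_lit 0x1feb776fe9d645)
  (PL.C (nat_lit 0x9106545) (nat_lit 0x0) (nat_lit 0x43c885f6e3bd61)
  (PL.C (nat_lit 0x910d606) (nat_lit 0x42aee189234c6b) (nat_lit 0x0)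
  (PL.C (nat_lit 0x91ca445) (nat_lit 0x0) (nat_lit 0x5fd5c2906d94da)
  (PL.C (nat_lit 0x91f0ccb) (nat_lit 0x95490c2d53782) (nat_lit 0x0)
  (PL.C (nat_lit 0x91fd25a) (nat_lit 0x0) (nat_lit 0x7d98be52717d96)
  (PL.C (nat_lit 0x928814d) (nat_lit 0x0) (nat_lit 0x19cdd9c85239e2)
  (PL.C (nat_lit 0x9297b1f) (nat_lit 0x5bf0283f041fc4) (nat_lit 0x0)
  (PL.C (nat_lit 0x9299439) (nat_lit 0x0) (nat_lit 0x7cd24dae7daa6a)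
  (PL.C (nat_lit 0x92d16b3) (nat_lit 0x13fa67edc5bed) (nat_lit 0x0)
  (PL.C (nat_lit 0x9316125) (nat_lit 0x51ab4d9d02f59f) (nat_lit 0x0)
  (PL.C (nat_lit 0x931d1a3) (nat_lit 0x0) (nat_lit 0x3ad9da07d319f9)
  (PL.C (nat_lit 0x933269d) (nat_lit 0x4780984c0c7e5) (nat_lit 0x0)
  (PL.C (nat_lit 0x93b9a76) (nat_lit 0x0) (nat_lit 0x291287b50aa380b) gp2_0_166))))))))))))))))))))

noncomputable def gp2_0_164 : PL :=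
  (PL.C (nat_lit 0x8ca103f) (nat_lit 0x135286a84330d7c) (nat_lit 0x0)
  (PL.C (nat_lit 0x8cfccf6) (nat_lit 0x0) (nat_lit 0x15927be567a737)
  (PL.C (nat_lit 0x8d06957) (nat_lit 0x0) (nat_lit 0x3776bfc9eea46)
  (PL.C (nat_lit 0x8d72396) (nat_lit 0x0) (nat_lit 0x7d484edda7862b)
  (PL.C (nat_lit 0x8db65cf) (nat_lit 0x6bdb27aaa3527c) (nat_lit 0x0)
  (PL.C (nat_lit 0x8dcd4cc) (nat_lit 0xbe1355325a91d) (nat_lit 0x0)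
  (PL.C (nat_lit 0x8de80fe) (nat_lit 0x0) (nat_lit 0x2f310791c1c4c9)
  (PL.C (nat_lit 0x8e42543) (nat_lit 0x0) (nat_lit 0x1ee295a5bc6f959)
  (PL.C (nat_lit 0x8e58366) (nat_lit 0x1864478150c92fb) (nat_lit 0x0)
  (PL.C (nat_lit 0x8e8bdea) (nat_lit 0x0) (nat_lit 0xb4b82483cc084d)
  (PL.C (nat_lit 0x8eb28f4) (nat_lit 0x0) (nat_lit 0x764c2a3bc82c11)
  (PL.C (nat_lit 0x8eb888f) (nat_lit 0x0) (nat_lit 0xa0253744d242c9)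
  (PL.C (nat_lit 0x8ec278e) (nat_lit 0x5270f607cab5b5) (nat_lit 0x0)
  (PL.C (nat_lit 0x8ef0dfa) (nat_lit 0x1fb170aaa15173) (nat_lit 0x0)
  (PL.C (nat_lit 0x8efff71) (nat_lit 0x9c9e4e43fb61d5) (nat_lit 0x0)
  (PL.C (nat_lit 0x8f20c92) (nat_lit 0x0) (nat_lit 0x4f690161ad3e86)
  (PL.C (nat_lit 0x8f5747c) (nat_lit 0x0) (nat_lit 0x160b2c9cbd3f319)
  (PL.C (nat_lit 0x8f5d97d) (nat_lit 0x0) (nat_lit 0x19ee9ee8b607363)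
  (PL.C (nat_lit 0x8f5e6ff) (nat_lit 0xde1612b292f276) (nat_lit 0x0)
  (PL.C (nat_lit 0x8f731ce) (nat_lit 0x213e82439253b7) (nat_lit 0x0) gp2_0_165))))))))))))))))))))

noncomputable def gp2_0_163 : PL :=
  (PL.C (nat_lit 0x88bd684) (nat_lit 0x0) (nat_lit 0x676ca9dd4ef89e)
  (PL.C (nat_lit 0x88c43c1) (nat_lit 0x0) (nat_lit 0x55c9b97c19eb4)
  (PL.C (nat_lit 0x88fc6a1) (nat_lit 0x441e78fcd5aac) (nat_lit 0x0)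
  (PL.C (nat_lit 0x890b872) (nat_lit 0x0) (nat_lit 0xb856dd779e6bfe)
  (PL.C (nat_lit 0x89db987) (nat_lit 0x58d89110393a64) (nat_lit 0x0)
  (PL.C (nat_lit 0x89f0003) (nat_lit 0xb5de386eb80c9e) (nat_lit 0x0)
  (PL.C (nat_lit 0x89f94e6) (nat_lit 0x0) (nat_lit 0x355164208503a8)
  (PL.C (nat_lit 0x8a182d3) (nat_lit 0x132fbcf48cdb10b) (nat_lit 0x0)
  (PL.C (nat_lit 0x8a8d47a) (nat_lit 0x0) (nat_lit 0x3ac3f27b5eb6fa)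
  (PL.C (nat_lit 0x8a8f3a1) (nat_lit 0x778c8f40720523a) (nat_lit 0x0)
  (PL.C (nat_lit 0x8ac963f) (nat_lit 0x0) (nat_lit 0x337e1495801641)
  (PL.C (nat_lit 0x8acbf8b) (nat_lit 0x0) (nat_lit 0x34610cb5cfa79f)
  (PL.C (nat_lit 0x8b0c09a) (nat_lit 0x0) (nat_lit 0x1e216ebaa5d7646)
  (PL.C (nat_lit 0x8b1ffa5) (nat_lit 0x0) (nat_lit 0x3d698fa6f6e91)
  (PL.C (nat_lit 0x8b43a09) (nat_lit 0x0) (nat_lit 0x2476accfa04cb2)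
  (PL.C (nat_lit 0x8b59205) (nat_lit 0x0) (nat_lit 0xa7753497814c7)
  (PL.C (nat_lit 0x8b8f6fa) (nat_lit 0x98cf9c6235463) (nat_lit 0x0)
  (PL.C (nat_lit 0x8bb815a) (nat_lit 0x0) (nat_lit 0x55f23ff21e3628)
  (PL.C (nat_lit 0x8bcff6e) (nat_lit 0x0) (nat_lit 0x370654dd21e067)
  (PL.C (nat_lit 0x8c97794) (nat_lit 0x0) (nat_lit 0x3ded3fa8719d8) gp2_0_164))))))))))))))))))))

noncomputable def gp2_0_162 : PL :=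
  (PL.C (nat_lit 0x8642cbc) (nat_lit 0xc14a42918c17a) (nat_lit 0x0)
  (PL.C (nat_lit 0x8648662) (nat_lit 0x1fefab37dd6ca28) (nat_lit 0x0)
  (PL.C (nat_lit 0x865584b) (nat_lit 0x0) (nat_lit 0xde6aa649665e69)
  (PL.C (nat_lit 0x867a3b9) (nat_lit 0x0) (nat_lit 0x176b045f474d2)
  (PL.C (nat_lit 0x8680cd1) (nat_lit 0x0) (nat_lit 0x319c445b00a703c)
  (PL.C (nat_lit 0x86ce85e) (nat_lit 0x3d1a61997c708d) (nat_lit 0x0)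
  (PL.C (nat_lit 0x86d4aea) (nat_lit 0x0) (nat_lit 0x4699578eb5b802)
  (PL.C (nat_lit 0x86f2dbe) (nat_lit 0x0) (nat_lit 0x1ec1dfa4354270)
  (PL.C (nat_lit 0x872feb9) (nat_lit 0x288c8a6a466298b) (nat_lit 0x0)
  (PL.C (nat_lit 0x873bc6d) (nat_lit 0x0) (nat_lit 0x32d5e4cceeaa5e)
  (PL.C (nat_lit 0x8773947) (nat_lit 0x0) (nat_lit 0x1c253daa5fa844a)
  (PL.C (nat_lit 0x87b65f4) (nat_lit 0x131a55239e468d7) (nat_lit 0x0)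
  (PL.C (nat_lit 0x87b9677) (nat_lit 0x947a9710eb6b8c) (nat_lit 0x0)
  (PL.C (nat_lit 0x87d86c1) (nat_lit 0xa8fc400d533b9a) (nat_lit 0x0)
  (PL.C (nat_lit 0x88322af) (nat_lit 0xd976d12f25903f) (nat_lit 0x0)
  (PL.C (nat_lit 0x88490d3) (nat_lit 0x0) (nat_lit 0x6d1f1966b2bdbc)
  (PL.C (nat_lit 0x8849d5e) (nat_lit 0x0) (nat_lit 0x1e7f9620d1bb9f3)
  (PL.C (nat_lit 0x886a1cf) (nat_lit 0x6249b864f80b19) (nat_lit 0x0)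
  (PL.C (nat_lit 0x889e141) (nat_lit 0x1087b22860ac340) (nat_lit 0x0)
  (PL.C (nat_lit 0x88ae631) (nat_lit 0x359419e7fc0c92) (nat_lit 0x0) gp2_0_163))))))))))))))))))))

noncomputable def gp2_0_161 : PL :=
  (PL.C (nat_lit 0x82b0d6a) (nat_lit 0x0) (nat_lit 0x2dc07cb751a281b)
  (PL.C (nat_lit 0x82bbe0e) (nat_lit 0x2f84526f13ffa1) (nat_lit 0x0)
  (PL.C (nat_lit 0x82bdb73) (nat_lit 0x937ce818a05b5) (nat_lit 0x0)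
  (PL.C (nat_lit 0x82c4f14) (nat_lit 0x0) (nat_lit 0x396fc53c7e82ef)
  (PL.C (nat_lit 0x835308e) (nat_lit 0xaee47103684bf4d) (nat_lit 0x0)
  (PL.C (nat_lit 0x83b5116) (nat_lit 0x3c613bb79475aa8) (nat_lit 0x0)
  (PL.C (nat_lit 0x83edccd) (nat_lit 0x16746c125bc4ef8) (nat_lit 0x0)
  (PL.C (nat_lit 0x83fe03e) (nat_lit 0x42e3fb9efa6af6) (nat_lit 0x0)
  (PL.C (nat_lit 0x843a72c) (nat_lit 0x5a019cac3c6b5b) (nat_lit 0x0)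
  (PL.C (nat_lit 0x8499915) (nat_lit 0x0) (nat_lit 0x710bb94f0c3dbd)
  (PL.C (nat_lit 0x84dbeeb) (nat_lit 0x3e36decd4a102) (nat_lit 0x0)
  (PL.C (nat_lit 0x850a751) (nat_lit 0x723a1357602a81) (nat_lit 0x0)
  (PL.C (nat_lit 0x851d724) (nat_lit 0x0) (nat_lit 0x15e8a2de5cb5a6)
  (PL.C (nat_lit 0x8541bd4) (nat_lit 0x0) (nat_lit 0x904d6f131fb5af)
  (PL.C (nat_lit 0x855468f) (nat_lit 0x6b72d24828ce2) (nat_lit 0x0)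
  (PL.C (nat_lit 0x859923f) (nat_lit 0x0) (nat_lit 0x4b35808b2d96e5)
  (PL.C (nat_lit 0x85ae166) (nat_lit 0x171c8e065368b4) (nat_lit 0x0)
  (PL.C (nat_lit 0x85bdc83) (nat_lit 0x0) (nat_lit 0x6fad8c31e707e4)
  (PL.C (nat_lit 0x85f11dc) (nat_lit 0x45704d8a251a2) (nat_lit 0x0)
  (PL.C (nat_lit 0x8600b7d) (nat_lit 0x997a877c6492cc) (nat_lit 0x0) gp2_0_162))))))))))))))))))))

noncomputable def gp2_0_160 : PL :=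
  (PL.C (nat_lit 0x7f5581a) (nat_lit 0x1726d38e3662c4) (nat_lit 0x0)
  (PL.C (nat_lit 0x7fe7daf) (nat_lit 0x0) (nat_lit 0xfb6c1b7a3c59af)
  (PL.C (nat_lit 0x7ff07be) (nat_lit 0x0) (nat_lit 0x1405252fd94ef31)
  (PL.C (nat_lit 0x800d1bf) (nat_lit 0x676df9145931c1) (nat_lit 0x0)
  (PL.C (nat_lit 0x8030842) (nat_lit 0x0) (nat_lit 0x99a4a0130d9fe6)
  (PL.C (nat_lit 0x8048372) (nat_lit 0x391efa4ca96387a) (nat_lit 0x0)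
  (PL.C (nat_lit 0x80627f7) (nat_lit 0x1011754bdb33b0) (nat_lit 0x0)
  (PL.C (nat_lit 0x807b805) (nat_lit 0x0) (nat_lit 0x2762b9fd24b747a)
  (PL.C (nat_lit 0x808c76c) (nat_lit 0x3aa7d66b069730a) (nat_lit 0x0)
  (PL.C (nat_lit 0x80acb77) (nat_lit 0x0) (nat_lit 0x35f0a27a4a6c5e8)
  (PL.C (nat_lit 0x80c47d6) (nat_lit 0x3325fa1a259151) (nat_lit 0x0)
  (PL.C (nat_lit 0x80ef3c2) (nat_lit 0x0) (nat_lit 0x89bc0606f988ab)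
  (PL.C (nat_lit 0x8101b99) (nat_lit 0x0) (nat_lit 0x1229c7318d69fdb)
  (PL.C (nat_lit 0x812fc3e) (nat_lit 0x0) (nat_lit 0xc751eaa44cbb1c)
  (PL.C (nat_lit 0x8136b79) (nat_lit 0x0) (nat_lit 0x3268442ecfe1d8)
  (PL.C (nat_lit 0x814b02e) (nat_lit 0x34dd10029a229) (nat_lit 0x0)
  (PL.C (nat_lit 0x81a738c) (nat_lit 0x0) (nat_lit 0xbd5060a35393c4)
  (PL.C (nat_lit 0x81d1917) (nat_lit 0x0) (nat_lit 0xd939ef4ed042f5)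
  (PL.C (nat_lit 0x8230412) (nat_lit 0x59be8452611726) (nat_lit 0x0)
  (PL.C (nat_lit 0x824c752) (nat_lit 0x76c6a768436c0) (nat_lit 0x0) gp2_0_161))))))))))))))))))))

noncomputable def gp2_0_159 : PL :=
  (PL.C (nat_lit 0x7c03c2f) (nat_lit 0x16d539907485d9) (nat_lit 0x0)
  (PL.C (nat_lit 0x7c29e79) (nat_lit 0x67a0b44ae82543d) (nat_lit 0x0)
  (PL.C (nat_lit 0x7c81e21) (nat_lit 0x0) (nat_lit 0x13061e41202a16)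
  (PL.C (nat_lit 0x7cab9dd) (nat_lit 0x36735074e11f88) (nat_lit 0x0)
  (PL.C (nat_lit 0x7cdb156) (nat_lit 0x1a194128a603e36) (nat_lit 0x0)
  (PL.C (nat_lit 0x7d540dd) (nat_lit 0x34662573353cd46) (nat_lit 0x0)
  (PL.C (nat_lit 0x7d99b83) (nat_lit 0x551c08e41104af) (nat_lit 0x0)
  (PL.C (nat_lit 0x7dae925) (nat_lit 0x0) (nat_lit 0x32c9a63dbb2b29)
  (PL.C (nat_lit 0x7dda773) (nat_lit 0x0) (nat_lit 0x2c5c963c5628f90)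
  (PL.C (nat_lit 0x7df73a5) (nat_lit 0x0) (nat_lit 0x510af4ef65bc88)
  (PL.C (nat_lit 0x7e04a67) (nat_lit 0x0) (nat_lit 0x78021e48a1202c)
  (PL.C (nat_lit 0x7e3645b) (nat_lit 0x0) (nat_lit 0xbc70486802589)
  (PL.C (nat_lit 0x7e7e52b) (nat_lit 0x0) (nat_lit 0x563bc0af89204e)
  (PL.C (nat_lit 0x7e89a75) (nat_lit 0x3e069bdfdcba87) (nat_lit 0x0)
  (PL.C (nat_lit 0x7eae825) (nat_lit 0x0) (nat_lit 0xf495cf54e5fe8e)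
  (PL.C (nat_lit 0x7ec7f69) (nat_lit 0x0) (nat_lit 0x7aa1c08abc8ac7)
  (PL.C (nat_lit 0x7f13ffa) (nat_lit 0xef3640704f23a) (nat_lit 0x0)
  (PL.C (nat_lit 0x7f1bb87) (nat_lit 0xfd4ae4d5c2b585) (nat_lit 0x0)
  (PL.C (nat_lit 0x7f4ac0e) (nat_lit 0x0) (nat_lit 0x28c6a09bdae55e2)
  (PL.C (nat_lit 0x7f4c68d) (nat_lit 0xa2ead2e87c9337) (nat_lit 0x0) gp2_0_160))))))))))))))))))))

noncomputable def gp2_0_158 : PL :=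
  (PL.C (nat_lit 0x78b861a) (nat_lit 0x0) (nat_lit 0x382106c015d9d)
  (PL.C (nat_lit 0x790693b) (nat_lit 0x834f7f440bc875) (nat_lit 0x0)
  (PL.C (nat_lit 0x792f9d2) (nat_lit 0x0) (nat_lit 0x1ce43c3ef900e01)
  (PL.C (nat_lit 0x7975c5a) (nat_lit 0xf6b51940dd77aa) (nat_lit 0x0)
  (PL.C (nat_lit 0x797ef1c) (nat_lit 0x0) (nat_lit 0x72738f2eb353e4)
  (PL.C (nat_lit 0x7998166) (nat_lit 0x0) (nat_lit 0x7f1ec770f833a9)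
  (PL.C (nat_lit 0x79e1e91) (nat_lit 0x276673eb17029aa) (nat_lit 0x0)
  (PL.C (nat_lit 0x7a0ff46) (nat_lit 0x2beb6f2d550909) (nat_lit 0x0)
  (PL.C (nat_lit 0x7a20eae) (nat_lit 0xaf677b9ad109fc) (nat_lit 0x0)
  (PL.C (nat_lit 0x7a55861) (nat_lit 0x0) (nat_lit 0x4b955b0abaf90e)
  (PL.C (nat_lit 0x7acf314) (nat_lit 0x2092cf315640ee0) (nat_lit 0x0)
  (PL.C (nat_lit 0x7ae394c) (nat_lit 0x0) (nat_lit 0xb30161f8dcd67)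
  (PL.C (nat_lit 0x7af4cc9) (nat_lit 0x0) (nat_lit 0x16717af4fba286)
  (PL.C (nat_lit 0x7b0a382) (nat_lit 0x1df228e6070183) (nat_lit 0x0)
  (PL.C (nat_lit 0x7b34947) (nat_lit 0x10a4b06120a9126) (nat_lit 0x0)
  (PL.C (nat_lit 0x7b50fde) (nat_lit 0x0) (nat_lit 0x4edf76e2b8a569)
  (PL.C (nat_lit 0x7b631d7) (nat_lit 0x0) (nat_lit 0x13b3bc225b31e86)
  (PL.C (nat_lit 0x7b9b38b) (nat_lit 0x1646454470ef77f) (nat_lit 0x0)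
  (PL.C (nat_lit 0x7baeb74) (nat_lit 0x0) (nat_lit 0xafad5310def99f)
  (PL.C (nat_lit 0x7bddd4c) (nat_lit 0x9d534764af2247) (nat_lit 0x0) gp2_0_159))))))))))))))))))))

noncomputable def gp2_0_157 : PL :=
  (PL.C (nat_lit 0x7470d4f) (nat_lit 0x10681632fa0748) (nat_lit 0x0)
  (PL.C (nat_lit 0x7478afe) (nat_lit 0x0) (nat_lit 0x13e0ce43de9c954)
  (PL.C (nat_lit 0x74b34df) (nat_lit 0x0) (nat_lit 0xa0186572238d86)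
  (PL.C (nat_lit 0x74c5a22) (nat_lit 0xdb8df0561418e2) (nat_lit 0x0)
  (PL.C (nat_lit 0x74cdf99) (nat_lit 0x556b26cf787cf4) (nat_lit 0x0)
  (PL.C (nat_lit 0x74f73e5) (nat_lit 0x6d93a69671f5141) (nat_lit 0x0)
  (PL.C (nat_lit 0x751ccda) (nat_lit 0x2aa2c5effd630) (nat_lit 0x0)
  (PL.C (nat_lit 0x75275ec) (nat_lit 0x0) (nat_lit 0xf9b9919cbe712d)
  (PL.C (nat_lit 0x752857b) (nat_lit 0x0) (nat_lit 0x359368ac0a6ae9)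
  (PL.C (nat_lit 0x75716f9) (nat_lit 0x11c163e6aa5fa3e) (nat_lit 0x0)
  (PL.C (nat_lit 0x75ae25e) (nat_lit 0xdee4ca8f10b75c) (nat_lit 0x0)
  (PL.C (nat_lit 0x75cf862) (nat_lit 0x0) (nat_lit 0x36c0fbb5753b4d)
  (PL.C (nat_lit 0x7656134) (nat_lit 0x444df3fc0db09b1) (nat_lit 0x0)
  (PL.C (nat_lit 0x76b677b) (nat_lit 0x0) (nat_lit 0x1056761c97789a7)
  (PL.C (nat_lit 0x771b22a) (nat_lit 0xd6455fbcdffca4) (nat_lit 0x0)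
  (PL.C (nat_lit 0x7751073) (nat_lit 0x284ab0d3793258d) (nat_lit 0x0)
  (PL.C (nat_lit 0x77a353d) (nat_lit 0x5d54e490e07e8) (nat_lit 0x0)
  (PL.C (nat_lit 0x781c00a) (nat_lit 0x0) (nat_lit 0x153c10ed387c0db)
  (PL.C (nat_lit 0x783087e) (nat_lit 0x891e3d35314edf) (nat_lit 0x0)
  (PL.C (nat_lit 0x78757c4) (nat_lit 0x34b00101442e2c) (nat_lit 0x0) gp2_0_158))))))))))))))))))))

noncomputable def gp2_0_156 : PL :=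
  (PL.C (nat_lit 0x7168062) (nat_lit 0x6a06a3c67fce41) (nat_lit 0x0)
  (PL.C (nat_lit 0x72111de) (nat_lit 0x0) (nat_lit 0x83d5b0a34f12c0)
  (PL.C (nat_lit 0x723eb83) (nat_lit 0x0) (nat_lit 0x321241ea717770)
  (PL.C (nat_lit 0x7261f0e) (nat_lit 0x818a0406827396) (nat_lit 0x0)
  (PL.C (nat_lit 0x729de57) (nat_lit 0x0) (nat_lit 0x2ae39d4989185)
  (PL.C (nat_lit 0x72acb85) (nat_lit 0xbe4ab37984708f) (nat_lit 0x0)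
  (PL.C (nat_lit 0x72f87ab) (nat_lit 0x32d4c187b3db14) (nat_lit 0x0)
  (PL.C (nat_lit 0x730c756) (nat_lit 0xf2143f50baf23a) (nat_lit 0x0)
  (PL.C (nat_lit 0x732233d) (nat_lit 0x0) (nat_lit 0x10e37ba9e42753d)
  (PL.C (nat_lit 0x7323056) (nat_lit 0x10710412dc81100) (nat_lit 0x0)
  (PL.C (nat_lit 0x734e4df) (nat_lit 0x0) (nat_lit 0x14ce8fd75e10f)
  (PL.C (nat_lit 0x7373c85) (nat_lit 0xcc7acf9d104c1d) (nat_lit 0x0)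
  (PL.C (nat_lit 0x739a7b1) (nat_lit 0x0) (nat_lit 0xa812b9068d75c)
  (PL.C (nat_lit 0x739e80a) (nat_lit 0x0) (nat_lit 0xf2cc8beaae0220)
  (PL.C (nat_lit 0x73a0209) (nat_lit 0x0) (nat_lit 0x1fd27986e29418bc)
  (PL.C (nat_lit 0x73c67ee) (nat_lit 0x155bf9f931eda8) (nat_lit 0x0)
  (PL.C (nat_lit 0x73f3a31) (nat_lit 0x2fb5e5fca969ad) (nat_lit 0x0)
  (PL.C (nat_lit 0x7436ab1) (nat_lit 0x0) (nat_lit 0x42e2a5493599137)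
  (PL.C (nat_lit 0x7440dc5) (nat_lit 0x0) (nat_lit 0x357eca843d3354)
  (PL.C (nat_lit 0x7466f54) (nat_lit 0x1eb201591b0238) (nat_lit 0x0) gp2_0_157))))))))))))))))))))

noncomputable def gp2_0_155 : PL :=
  (PL.C (nat_lit 0x6e14407) (nat_lit 0xd5836103189e29) (nat_lit 0x0)
  (PL.C (nat_lit 0x6e45834) (nat_lit 0x0) (nat_lit 0x65ac5ab3721f6)
  (PL.C (nat_lit 0x6e52c92) (nat_lit 0x65d3dc25bc8e46) (nat_lit 0x0)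
  (PL.C (nat_lit 0x6e5da7f) (nat_lit 0x26b127c68cb7683) (nat_lit 0x0)
  (PL.C (nat_lit 0x6e71992) (nat_lit 0x2cefb305408578) (nat_lit 0x0)
  (PL.C (nat_lit 0x6eb0b21) (nat_lit 0xe624d0720296f2) (nat_lit 0x0)
  (PL.C (nat_lit 0x6edbb46) (nat_lit 0x0) (nat_lit 0x4e4c0d155305736)
  (PL.C (nat_lit 0x6ee6891) (nat_lit 0xb6da03475541f3) (nat_lit 0x0)
  (PL.C (nat_lit 0x6f14171) (nat_lit 0x0) (nat_lit 0x961a238633fd60)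
  (PL.C (nat_lit 0x6f9f0dc) (nat_lit 0x0) (nat_lit 0xa46393f0692ebe)
  (PL.C (nat_lit 0x70394c7) (nat_lit 0x0) (nat_lit 0x5fd666eb38976)
  (PL.C (nat_lit 0x704ea55) (nat_lit 0x535819097d2e724) (nat_lit 0x0)
  (PL.C (nat_lit 0x7062a1e) (nat_lit 0x6123b245e6c67c) (nat_lit 0x0)
  (PL.C (nat_lit 0x70a0682) (nat_lit 0x0) (nat_lit 0x55bdde3a3ce304)
  (PL.C (nat_lit 0x70c717b) (nat_lit 0x0) (nat_lit 0x1c5f7e1b01b74e)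
  (PL.C (nat_lit 0x70d99b5) (nat_lit 0x296f49425e72b7) (nat_lit 0x0)
  (PL.C (nat_lit 0x70e2fcc) (nat_lit 0x21e430bd2f3532) (nat_lit 0x0)
  (PL.C (nat_lit 0x70ece4f) (nat_lit 0x0) (nat_lit 0x3fd4eb9295bb9d)
  (PL.C (nat_lit 0x70eee7e) (nat_lit 0x1758e989a6443fa) (nat_lit 0x0)
  (PL.C (nat_lit 0x713741c) (nat_lit 0x59a9920dfe83e) (nat_lit 0x0) gp2_0_156))))))))))))))))))))

noncomputable def gp2_0_154 : PL :=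
  (PL.C (nat_lit 0x6a61043) (nat_lit 0x0) (nat_lit 0x2f6bfab953bd221)
  (PL.C (nat_lit 0x6a9bef7) (nat_lit 0x461eaddb6a29f7) (nat_lit 0x0)
  (PL.C (nat_lit 0x6af8d12) (nat_lit 0x0) (nat_lit 0x10806415a626ca)
  (PL.C (nat_lit 0x6b58415) (nat_lit 0x0) (nat_lit 0x14787664decb5)
  (PL.C (nat_lit 0x6b744c6) (nat_lit 0x0) (nat_lit 0xa9f0acddd2ead2a)
  (PL.C (nat_lit 0x6b7d602) (nat_lit 0x634c2717f12733) (nat_lit 0x0)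
  (PL.C (nat_lit 0x6ba167a) (nat_lit 0x2f5aaa02da7255) (nat_lit 0x0)
  (PL.C (nat_lit 0x6be48de) (nat_lit 0x1ec170562cc227e) (nat_lit 0x0)
  (PL.C (nat_lit 0x6bf8eab) (nat_lit 0x0) (nat_lit 0x1df016bafe030a4)
  (PL.C (nat_lit 0x6c00336) (nat_lit 0x0) (nat_lit 0xf72a4634df8414)
  (PL.C (nat_lit 0x6c3afdc) (nat_lit 0x6838d60c83e9f) (nat_lit 0x0)
  (PL.C (nat_lit 0x6c54d6f) (nat_lit 0x0) (nat_lit 0x3b8f9309de436df)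
  (PL.C (nat_lit 0x6c758d9) (nat_lit 0x0) (nat_lit 0x1c5616ca5a417ca)
  (PL.C (nat_lit 0x6c9f193) (nat_lit 0x0) (nat_lit 0x233045ed24d2c9)
  (PL.C (nat_lit 0x6cc7287) (nat_lit 0x0) (nat_lit 0x11ab1a7537e4a0)
  (PL.C (nat_lit 0x6ce6dbd) (nat_lit 0xdf5d43776b0460) (nat_lit 0x0)
  (PL.C (nat_lit 0x6cff3b7) (nat_lit 0x0) (nat_lit 0x9a27a183bc383)
  (PL.C (nat_lit 0x6d0f27a) (nat_lit 0x0) (nat_lit 0x18f2db49e90ee0d)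
  (PL.C (nat_lit 0x6de63da) (nat_lit 0xa616638866f617) (nat_lit 0x0)
  (PL.C (nat_lit 0x6dfba4e) (nat_lit 0x0) (nat_lit 0x839937e56b3a44) gp2_0_155))))))))))))))))))))

noncomputable def gp2_0_153 : PL :=
  (PL.C (nat_lit 0x6830a46) (nat_lit 0x0) (nat_lit 0x5ce1d52b2ba1323)
  (PL.C (nat_lit 0x6857cf7) (nat_lit 0x31a70773ce5d79) (nat_lit 0x0)
  (PL.C (nat_lit 0x6868444) (nat_lit 0x0) (nat_lit 0xd03799762aff1)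
  (PL.C (nat_lit 0x688b434) (nat_lit 0x0) (nat_lit 0xc5d52f19ef66)
  (PL.C (nat_lit 0x68b84b6) (nat_lit 0x0) (nat_lit 0x2c2c265e2e945e)
  (PL.C (nat_lit 0x68d041d) (nat_lit 0x6da986cee44c75) (nat_lit 0x0)
  (PL.C (nat_lit 0x68ecb4a) (nat_lit 0x743efaecfb9089) (nat_lit 0x0)
  (PL.C (nat_lit 0x68fcdbe) (nat_lit 0x0) (nat_lit 0xa725a3b536a1de)
  (PL.C (nat_lit 0x69289aa) (nat_lit 0x0) (nat_lit 0x9c5514b701b11)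
  (PL.C (nat_lit 0x69312d2) (nat_lit 0x6b17b147aa65ea) (nat_lit 0x0)
  (PL.C (nat_lit 0x693dc11) (nat_lit 0x0) (nat_lit 0x8bc501a60b44f3)
  (PL.C (nat_lit 0x6959786) (nat_lit 0x0) (nat_lit 0x2531cceb3553aa)
  (PL.C (nat_lit 0x6965d2e) (nat_lit 0x2e717e7b77f5097) (nat_lit 0x0)
  (PL.C (nat_lit 0x699f11a) (nat_lit 0x139ee4f32a5bfa) (nat_lit 0x0)
  (PL.C (nat_lit 0x69cbf11) (nat_lit 0x63b56a7ac38a2ac) (nat_lit 0x0)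
  (PL.C (nat_lit 0x69d3ee6) (nat_lit 0x5fbafb2e44d50c) (nat_lit 0x0)
  (PL.C (nat_lit 0x69e9d4f) (nat_lit 0x8ba20d9f7e2750) (nat_lit 0x0)
  (PL.C (nat_lit 0x6a10586) (nat_lit 0x0) (nat_lit 0xa4d050d7cced0)
  (PL.C (nat_lit 0x6a11d5f) (nat_lit 0x0) (nat_lit 0xf6cb2875411c0a)
  (PL.C (nat_lit 0x6a55af9) (nat_lit 0x10a4b06120a9126) (nat_lit 0x0) gp2_0_154))))))))))))))))))))

noncomputable def gp2_0_152 : PL :=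
  (PL.C (nat_lit 0x64364a7) (nat_lit 0x0) (nat_lit 0x505d2340b3f4033)
  (PL.C (nat_lit 0x6462092) (nat_lit 0x1ad061fc00ea596) (nat_lit 0x0)
  (PL.C (nat_lit 0x648b452) (nat_lit 0x6af5bfe9b17f1f) (nat_lit 0x0)
  (PL.C (nat_lit 0x64acf8a) (nat_lit 0x6f77feb54fb57c) (nat_lit 0x0)
  (PL.C (nat_lit 0x64d8563) (nat_lit 0x0) (nat_lit 0x21a4d29b0e6dc1)
  (PL.C (nat_lit 0x64f666c) (nat_lit 0x0) (nat_lit 0x22990b60412ee2)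
  (PL.C (nat_lit 0x652016d) (nat_lit 0x27ec527912e3d) (nat_lit 0x0)
  (PL.C (nat_lit 0x65641b2) (nat_lit 0x0) (nat_lit 0x9f559342353aa1)
  (PL.C (nat_lit 0x65756f6) (nat_lit 0x17bafc06880a008) (nat_lit 0x0)
  (PL.C (nat_lit 0x669201b) (nat_lit 0x0) (nat_lit 0x21fb242001b074a)
  (PL.C (nat_lit 0x66a3d85) (nat_lit 0x56f3ea89a07e6) (nat_lit 0x0)
  (PL.C (nat_lit 0x66cbb9e) (nat_lit 0x0) (nat_lit 0x5d0cb8acfc0715)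
  (PL.C (nat_lit 0x66d011f) (nat_lit 0x0) (nat_lit 0xecd047ea7947)
  (PL.C (nat_lit 0x66d8c15) (nat_lit 0x0) (nat_lit 0xb0cfa7d1611ab)
  (PL.C (nat_lit 0x672cae6) (nat_lit 0x0) (nat_lit 0x345cb1801dfa34)
  (PL.C (nat_lit 0x6741d1d) (nat_lit 0x1e99b42c8e0acd) (nat_lit 0x0)
  (PL.C (nat_lit 0x679cca1) (nat_lit 0x0) (nat_lit 0x4ca68ceb144a6b6)
  (PL.C (nat_lit 0x68012a3) (nat_lit 0x0) (nat_lit 0x1e11f0ad93abad)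
  (PL.C (nat_lit 0x6823b09) (nat_lit 0x1684e5eaf77b8c) (nat_lit 0x0)
  (PL.C (nat_lit 0x682d6c2) (nat_lit 0x129ea046f81d700) (nat_lit 0x0) gp2_0_153))))))))))))))))))))

noncomputable def gp2_0_151 : PL :=
  (PL.C (nat_lit 0x621a335) (nat_lit 0x539e33769bb0927) (nat_lit 0x0)
  (PL.C (nat_lit 0x62219be) (nat_lit 0x14005169ac6835) (nat_lit 0x0)
  (PL.C (nat_lit 0x6235eab) (nat_lit 0x8e8ba80d7c5e87) (nat_lit 0x0)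
  (PL.C (nat_lit 0x624b4cb) (nat_lit 0x6bd394dd3da623) (nat_lit 0x0)
  (PL.C (nat_lit 0x628369b) (nat_lit 0x0) (nat_lit 0x53f64be28f5d89)
  (PL.C (nat_lit 0x6292e2a) (nat_lit 0xb08b58ac4d22f) (nat_lit 0x0)
  (PL.C (nat_lit 0x62a46ef) (nat_lit 0x47ece7d590fe1a8) (nat_lit 0x0)
  (PL.C (nat_lit 0x62b8a4e) (nat_lit 0x0) (nat_lit 0x4b1bef4f613a50)
  (PL.C (nat_lit 0x62bcc39) (nat_lit 0x0) (nat_lit 0x403a0aad87c642e)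
  (PL.C (nat_lit 0x631f627) (nat_lit 0xb334643ca10982) (nat_lit 0x0)
  (PL.C (nat_lit 0x6323e9d) (nat_lit 0x0) (nat_lit 0xf4945d3f2813b2)
  (PL.C (nat_lit 0x633131a) (nat_lit 0xbd4dc2ed38a61) (nat_lit 0x0)
  (PL.C (nat_lit 0x6341a96) (nat_lit 0x0) (nat_lit 0x1203e1cde6a9f91)
  (PL.C (nat_lit 0x6360de9) (nat_lit 0x7cb069119890b2) (nat_lit 0x0)
  (PL.C (nat_lit 0x636453a) (nat_lit 0x0) (nat_lit 0x213178604fda618)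
  (PL.C (nat_lit 0x637356a) (nat_lit 0x0) (nat_lit 0x837a97ea47607b)
  (PL.C (nat_lit 0x63a3b1e) (nat_lit 0x272aed532fad0bd) (nat_lit 0x0)
  (PL.C (nat_lit 0x63c9dca) (nat_lit 0x0) (nat_lit 0x1d3a567d1e7de4)
  (PL.C (nat_lit 0x63efe5d) (nat_lit 0x3af0bac124782d) (nat_lit 0x0)
  (PL.C (nat_lit 0x640bc96) (nat_lit 0x2574adc5882ab18) (nat_lit 0x0) gp2_0_152))))))))))))))))))))

noncomputable def gp2_0_150 : PL :=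
  (PL.C (nat_lit 0x5f554f6) (nat_lit 0x259040c1e7a68fb) (nat_lit 0x0)
  (PL.C (nat_lit 0x5f6b30c) (nat_lit 0x2d88158ffe28e8) (nat_lit 0x0)
  (PL.C (nat_lit 0x5f944aa) (nat_lit 0x0) (nat_lit 0x2f8360224f39342)
  (PL.C (nat_lit 0x5fa2134) (nat_lit 0x0) (nat_lit 0xf9b9919cbe712d)
  (PL.C (nat_lit 0x5fdba42) (nat_lit 0x0) (nat_lit 0x27e6b2781603f4)
  (PL.C (nat_lit 0x6020bbf) (nat_lit 0x4b573b2f67c1f3) (nat_lit 0x0)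
  (PL.C (nat_lit 0x6052fb4) (nat_lit 0x0) (nat_lit 0xaede1c5c585f1e)
  (PL.C (nat_lit 0x6068fec) (nat_lit 0x3d8283de03eca5) (nat_lit 0x0)
  (PL.C (nat_lit 0x60aee2e) (nat_lit 0x0) (nat_lit 0x694069fe417f0c)
  (PL.C (nat_lit 0x6102ecd) (nat_lit 0x0) (nat_lit 0x30d3ff70d3ee74)
  (PL.C (nat_lit 0x610d997) (nat_lit 0x3e30574a9931c0) (nat_lit 0x0)
  (PL.C (nat_lit 0x6113817) (nat_lit 0x8e32f4d43ff5ca) (nat_lit 0x0)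
  (PL.C (nat_lit 0x613182e) (nat_lit 0x0) (nat_lit 0x4b4540603c837da)
  (PL.C (nat_lit 0x614b332) (nat_lit 0x3693983b930a3a) (nat_lit 0x0)
  (PL.C (nat_lit 0x619b1ed) (nat_lit 0x609f2b6ede8b3078) (nat_lit 0x0)
  (PL.C (nat_lit 0x61b00de) (nat_lit 0x0) (nat_lit 0x517f918f768d83)
  (PL.C (nat_lit 0x61ba76a) (nat_lit 0x1a79e569ebe9087) (nat_lit 0x0)
  (PL.C (nat_lit 0x61bb826) (nat_lit 0x2582326ffe4dc4) (nat_lit 0x0)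
  (PL.C (nat_lit 0x61e0f22) (nat_lit 0x0) (nat_lit 0x21f5b7f854eee4)
  (PL.C (nat_lit 0x620eb6e) (nat_lit 0x0) (nat_lit 0x2303f54e4bbfcb2) gp2_0_151))))))))))))))))))))

noncomputable def gp2_0_149 : PL :=
  (PL.C (nat_lit 0x5d5d756) (nat_lit 0x7dfccb7d816248) (nat_lit 0x0)
  (PL.C (nat_lit 0x5d70965) (nat_lit 0x0) (nat_lit 0xdcea58d192998)
  (PL.C (nat_lit 0x5d82c8f) (nat_lit 0x0) (nat_lit 0x24a9e43a9720af)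
  (PL.C (nat_lit 0x5d9e095) (nat_lit 0x0) (nat_lit 0xac211c9dbc0555)
  (PL.C (nat_lit 0x5e0463a) (nat_lit 0x27234ac7cdf94b) (nat_lit 0x0)
  (PL.C (nat_lit 0x5e12b57) (nat_lit 0x0) (nat_lit 0xeed7e54f83541)
  (PL.C (nat_lit 0x5e4c264) (nat_lit 0x0) (nat_lit 0x185c4ffe2de58e)
  (PL.C (nat_lit 0x5e50db9) (nat_lit 0x0) (nat_lit 0x7481fa651d787a)
  (PL.C (nat_lit 0x5e77999) (nat_lit 0x0) (nat_lit 0x9f9c92f4c6ce9)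
  (PL.C (nat_lit 0x5e85666) (nat_lit 0x0) (nat_lit 0xea1345b0a39970)
  (PL.C (nat_lit 0x5e9ab54) (nat_lit 0xc3968fdb469fa1) (nat_lit 0x0)
  (PL.C (nat_lit 0x5ea120f) (nat_lit 0x0) (nat_lit 0x5578e1c98328d57)
  (PL.C (nat_lit 0x5ece069) (nat_lit 0x0) (nat_lit 0x3f102241d8d7fe)
  (PL.C (nat_lit 0x5f07e9c) (nat_lit 0x482bef42271c7b) (nat_lit 0x0)
  (PL.C (nat_lit 0x5f0ca87) (nat_lit 0x16481e3970409a5) (nat_lit 0x0)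
  (PL.C (nat_lit 0x5f25b0a) (nat_lit 0x0) (nat_lit 0x8ec4d1149b464a)
  (PL.C (nat_lit 0x5f279d9) (nat_lit 0xd03f923e8c7f67) (nat_lit 0x0)
  (PL.C (nat_lit 0x5f43549) (nat_lit 0x0) (nat_lit 0x1401122d7edd53)
  (PL.C (nat_lit 0x5f4b3fc) (nat_lit 0x0) (nat_lit 0x36bd505ff9807)
  (PL.C (nat_lit 0x5f539cb) (nat_lit 0x0) (nat_lit 0x6a2361571b125) gp2_0_150))))))))))))))))))))

noncomputable def gp2_0_148 : PL :=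
  (PL.C (nat_lit 0x5adb5e2) (nat_lit 0x0) (nat_lit 0xe34d5ad9ec16b3)
  (PL.C (nat_lit 0x5af168a) (nat_lit 0x136b4d243f407c6) (nat_lit 0x0)
  (PL.C (nat_lit 0x5af7b69) (nat_lit 0x0) (nat_lit 0x89fdc9c8bedb7b)
  (PL.C (nat_lit 0x5b140d6) (nat_lit 0x0) (nat_lit 0x2b2e1c1def35e57)
  (PL.C (nat_lit 0x5b2d7d6) (nat_lit 0x0) (nat_lit 0x27422a796d3ea6)
  (PL.C (nat_lit 0x5b52f16) (nat_lit 0x0) (nat_lit 0x5af692eb06d43)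
  (PL.C (nat_lit 0x5b5d04c) (nat_lit 0x8dd768771cc8e2) (nat_lit 0x0)
  (PL.C (nat_lit 0x5b72d6b) (nat_lit 0x3104e92900a9b72) (nat_lit 0x0)
  (PL.C (nat_lit 0x5c02ad3) (nat_lit 0x37f1c47b114fc9) (nat_lit 0x0)
  (PL.C (nat_lit 0x5c101e2) (nat_lit 0x4ad70bf5d939bfb) (nat_lit 0x0)
  (PL.C (nat_lit 0x5c21847) (nat_lit 0xaf24036bad666) (nat_lit 0x0)
  (PL.C (nat_lit 0x5c5e2fc) (nat_lit 0x0) (nat_lit 0x3231a39ddd46d0)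
  (PL.C (nat_lit 0x5c8642a) (nat_lit 0x8787ef099d7279) (nat_lit 0x0)
  (PL.C (nat_lit 0x5c87fb2) (nat_lit 0x0) (nat_lit 0x22293596e3f014b)
  (PL.C (nat_lit 0x5cd7c06) (nat_lit 0x0) (nat_lit 0x2095dba82b0f331)
  (PL.C (nat_lit 0x5cd8f79) (nat_lit 0x201e6e381818677) (nat_lit 0x0)
  (PL.C (nat_lit 0x5cec863) (nat_lit 0x7fb5183b434b56f) (nat_lit 0x0)
  (PL.C (nat_lit 0x5d2563c) (nat_lit 0x0) (nat_lit 0x155943a1280245e)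
  (PL.C (nat_lit 0x5d354f4) (nat_lit 0x0) (nat_lit 0x7842d5af58266c)
  (PL.C (nat_lit 0x5d41e9b) (nat_lit 0x0) (nat_lit 0x840f2309ab95a) gp2_0_149))))))))))))))))))))

noncomputable def gp2_0_147 : PL :=
  (PL.C (nat_lit 0x58c3cf5) (nat_lit 0x0) (nat_lit 0x8766781d7c986)
  (PL.C (nat_lit 0x58e2f0a) (nat_lit 0x1ea422eab957d2) (nat_lit 0x0)
  (PL.C (nat_lit 0x59093a3) (nat_lit 0x0) (nat_lit 0xc63b5a461dea9)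
  (PL.C (nat_lit 0x5910c2a) (nat_lit 0x0) (nat_lit 0x6429b5f6b9c9bc)
  (PL.C (nat_lit 0x591b7b1) (nat_lit 0x14378839dcebe82) (nat_lit 0x0)
  (PL.C (nat_lit 0x5929302) (nat_lit 0xef1cf51cafe098) (nat_lit 0x0)
  (PL.C (nat_lit 0x594f115) (nat_lit 0x0) (nat_lit 0x36090cee93810ac)
  (PL.C (nat_lit 0x5955cfe) (nat_lit 0x0) (nat_lit 0x1e5a027fff730)
  (PL.C (nat_lit 0x59684cb) (nat_lit 0x0) (nat_lit 0x2d65924d2a577f)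
  (PL.C (nat_lit 0x598a11b) (nat_lit 0x0) (nat_lit 0x304819252c51657)
  (PL.C (nat_lit 0x59a6d26) (nat_lit 0x0) (nat_lit 0x2bdc156d04cb73)
  (PL.C (nat_lit 0x59ab336) (nat_lit 0xa30ec08c6fae9b3) (nat_lit 0x0)
  (PL.C (nat_lit 0x59cce8f) (nat_lit 0x27e13c6990fffa) (nat_lit 0x0)
  (PL.C (nat_lit 0x59cd705) (nat_lit 0x133d153e9d7939) (nat_lit 0x0)
  (PL.C (nat_lit 0x59f73d4) (nat_lit 0x0) (nat_lit 0x8d2ba9347b164)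
  (PL.C (nat_lit 0x5a1ff26) (nat_lit 0x0) (nat_lit 0xb24fc677e0254c)
  (PL.C (nat_lit 0x5a27d9e) (nat_lit 0x0) (nat_lit 0x4880449cc46008)
  (PL.C (nat_lit 0x5a4d0da) (nat_lit 0x0) (nat_lit 0x401ab80d7cc5034)
  (PL.C (nat_lit 0x5a81e01) (nat_lit 0x46fea7082b0f8c5) (nat_lit 0x0)
  (PL.C (nat_lit 0x5acc1ca) (nat_lit 0xd603a92aaa09df) (nat_lit 0x0) gp2_0_148))))))))))))))))))))

noncomputable def gp2_0_146 : PL :=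
  (PL.C (nat_lit 0x55a7aae) (nat_lit 0x0) (nat_lit 0x7ba5023706c09b0)
  (PL.C (nat_lit 0x55f4d2c) (nat_lit 0x1a92c953ec204c5) (nat_lit 0x0)
  (PL.C (nat_lit 0x5601266) (nat_lit 0x0) (nat_lit 0x4a9a82524a3812b)
  (PL.C (nat_lit 0x56247a6) (nat_lit 0x0) (nat_lit 0x25f2c131d0f501)
  (PL.C (nat_lit 0x56ca3db) (nat_lit 0x22bb4ec54bae849) (nat_lit 0x0)
  (PL.C (nat_lit 0x56d1929) (nat_lit 0x10f6da132c847f) (nat_lit 0x0)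
  (PL.C (nat_lit 0x56eeac5) (nat_lit 0x0) (nat_lit 0x401052022b9756)
  (PL.C (nat_lit 0x5727eb4) (nat_lit 0xd6ff39501da3bd) (nat_lit 0x0)
  (PL.C (nat_lit 0x573b3d3) (nat_lit 0x37dd1b77a6f100b) (nat_lit 0x0)
  (PL.C (nat_lit 0x57770e5) (nat_lit 0x234013f394b7a1e) (nat_lit 0x0)
  (PL.C (nat_lit 0x5793f3d) (nat_lit 0x7a00f345fd59e9) (nat_lit 0x0)
  (PL.C (nat_lit 0x57e8eed) (nat_lit 0x0) (nat_lit 0x1c20e44ceebb0b)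
  (PL.C (nat_lit 0x57f3dde) (nat_lit 0x70e61594b3d92c8) (nat_lit 0x0)
  (PL.C (nat_lit 0x57fead4) (nat_lit 0x0) (nat_lit 0x16245192564c8f)
  (PL.C (nat_lit 0x5855b4d) (nat_lit 0x0) (nat_lit 0x255e05b3a13b8)
  (PL.C (nat_lit 0x5862067) (nat_lit 0x235d2ddaec558f8) (nat_lit 0x0)
  (PL.C (nat_lit 0x586660e) (nat_lit 0x60d4d0ca2d7b8b) (nat_lit 0x0)
  (PL.C (nat_lit 0x58929f2) (nat_lit 0x5450394a1fd090) (nat_lit 0x0)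
  (PL.C (nat_lit 0x58a1dbf) (nat_lit 0x39773967507dbe) (nat_lit 0x0)
  (PL.C (nat_lit 0x58b1a36) (nat_lit 0x0) (nat_lit 0x50926a4a0e032b) gp2_0_147))))))))))))))))))))

noncomputable def gp2_0_145 : PL :=
  (PL.C (nat_lit 0x53e6fa2) (nat_lit 0x0) (nat_lit 0x18c15aa8d5f3b9)
  (PL.C (nat_lit 0x53fa26e) (nat_lit 0x0) (nat_lit 0xbc0b66ac7f9526)
  (PL.C (nat_lit 0x540319a) (nat_lit 0x61f28b5a354477) (nat_lit 0x0)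
  (PL.C (nat_lit 0x542749b) (nat_lit 0x0) (nat_lit 0x1c7cc3983a134b9)
  (PL.C (nat_lit 0x5454372) (nat_lit 0x0) (nat_lit 0x8841da12627407)
  (PL.C (nat_lit 0x545bc4e) (nat_lit 0x71cca4da00f607) (nat_lit 0x0)
  (PL.C (nat_lit 0x5464113) (nat_lit 0x185c332629e5a0) (nat_lit 0x0)
  (PL.C (nat_lit 0x547456e) (nat_lit 0x9a614b09acbb05) (nat_lit 0x0)
  (PL.C (nat_lit 0x5498383) (nat_lit 0x35c75e480866f82) (nat_lit 0x0)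
  (PL.C (nat_lit 0x54b7ffc) (nat_lit 0x9c6740ae66e70) (nat_lit 0x0)
  (PL.C (nat_lit 0x54bd25a) (nat_lit 0x246efb82d0624fe) (nat_lit 0x0)
  (PL.C (nat_lit 0x54cc3b7) (nat_lit 0x0) (nat_lit 0x2d05f9d9ac5fda)
  (PL.C (nat_lit 0x54e3abc) (nat_lit 0x0) (nat_lit 0xfc9aa4f22b87c)
  (PL.C (nat_lit 0x54f67d1) (nat_lit 0x0) (nat_lit 0xfc6ff7080d3d2d)
  (PL.C (nat_lit 0x552102f) (nat_lit 0x0) (nat_lit 0x150ad3d31c1d3b3)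
  (PL.C (nat_lit 0x55453ca) (nat_lit 0x0) (nat_lit 0x2f547e1e0d45433)
  (PL.C (nat_lit 0x554afd4) (nat_lit 0x5079552ae1e8ca) (nat_lit 0x0)
  (PL.C (nat_lit 0x55519bf) (nat_lit 0x0) (nat_lit 0x4929f06716acf6)
  (PL.C (nat_lit 0x555e12a) (nat_lit 0x0) (nat_lit 0x7b9bddc0d6a927b)
  (PL.C (nat_lit 0x5596ffa) (nat_lit 0x0) (nat_lit 0x2d4b6c6c8a06def) gp2_0_146))))))))))))))))))))

noncomputable def gp2_0_144 : PL :=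
  (PL.C (nat_lit 0x516b474) (nat_lit 0xcff3991243a468) (nat_lit 0x0)
  (PL.C (nat_lit 0x518e596) (nat_lit 0xcd2e4d0dd96b40) (nat_lit 0x0)
  (PL.C (nat_lit 0x51e48c1) (nat_lit 0x2e0509f8eb43f97) (nat_lit 0x0)
  (PL.C (nat_lit 0x51f28b3) (nat_lit 0x0) (nat_lit 0x1f3535058503dcd)
  (PL.C (nat_lit 0x51f8886) (nat_lit 0x0) (nat_lit 0x2080b1e7a31db3)
  (PL.C (nat_lit 0x52230da) (nat_lit 0x0) (nat_lit 0x86693d2c25af2e)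
  (PL.C (nat_lit 0x524213a) (nat_lit 0x13657245cd51e30) (nat_lit 0x0)
  (PL.C (nat_lit 0x5265061) (nat_lit 0x0) (nat_lit 0x1e0f6662c2276588)
  (PL.C (nat_lit 0x52677b2) (nat_lit 0x0) (nat_lit 0x32e48fa2c148e4)
  (PL.C (nat_lit 0x52a2e07) (nat_lit 0xfce316a98b1edf) (nat_lit 0x0)
  (PL.C (nat_lit 0x52ad2ca) (nat_lit 0x0) (nat_lit 0x6334bbe64930ef)
  (PL.C (nat_lit 0x52c69a6) (nat_lit 0x1c9a230dec30e3c) (nat_lit 0x0)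
  (PL.C (nat_lit 0x52d04c9) (nat_lit 0xa9a1b3b805de26) (nat_lit 0x0)
  (PL.C (nat_lit 0x5301416) (nat_lit 0x0) (nat_lit 0x9d3268c507b7b9)
  (PL.C (nat_lit 0x5307027) (nat_lit 0x114cdac7355a904) (nat_lit 0x0)
  (PL.C (nat_lit 0x531d13e) (nat_lit 0x675a57f3ed1c1b) (nat_lit 0x0)
  (PL.C (nat_lit 0x53396c7) (nat_lit 0x29aa40f7ff5546) (nat_lit 0x0)
  (PL.C (nat_lit 0x5365525) (nat_lit 0x0) (nat_lit 0x131c3632145a673)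
  (PL.C (nat_lit 0x53bbd02) (nat_lit 0x20218e3dbbb9c19) (nat_lit 0x0)
  (PL.C (nat_lit 0x53c9b6e) (nat_lit 0x0) (nat_lit 0x1136ae471c9bda) gp2_0_145))))))))))))))))))))

noncomputable def gp2_0_143 : PL :=
  (PL.C (nat_lit 0x4ef010b) (nat_lit 0x0) (nat_lit 0xa681c1e0aa227e)
  (PL.C (nat_lit 0x4f3344f) (nat_lit 0x0) (nat_lit 0x114ad5d7539a7b6)
  (PL.C (nat_lit 0x4f698f3) (nat_lit 0x76d14de841501) (nat_lit 0x0)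
  (PL.C (nat_lit 0x4f8b5a2) (nat_lit 0x0) (nat_lit 0x16d9bfcdef62986)
  (PL.C (nat_lit 0x4f9e05d) (nat_lit 0x0) (nat_lit 0x91bde6234cca7b)
  (PL.C (nat_lit 0x4fc237e) (nat_lit 0x135d657dd7b16c) (nat_lit 0x0)
  (PL.C (nat_lit 0x4fe1c8b) (nat_lit 0x59b78e2fe3fdbe6) (nat_lit 0x0)
  (PL.C (nat_lit 0x502b303) (nat_lit 0x0) (nat_lit 0x683c25a1785136)
  (PL.C (nat_lit 0x503c8e3) (nat_lit 0xb03a921f776205) (nat_lit 0x0)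
  (PL.C (nat_lit 0x50534fd) (nat_lit 0x42ed203463f90d) (nat_lit 0x0)
  (PL.C (nat_lit 0x507a5e7) (nat_lit 0x2319e3e852a4a9) (nat_lit 0x0)
  (PL.C (nat_lit 0x507aebc) (nat_lit 0x0) (nat_lit 0x186e702f655b7)
  (PL.C (nat_lit 0x50812ad) (nat_lit 0x0) (nat_lit 0x1358e16a88ae2a)
  (PL.C (nat_lit 0x50af0d2) (nat_lit 0x0) (nat_lit 0x31c8c26c57f405c)
  (PL.C (nat_lit 0x50ca68c) (nat_lit 0x72c54fbc63ff2a) (nat_lit 0x0)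
  (PL.C (nat_lit 0x50deadf) (nat_lit 0x0) (nat_lit 0x2818b2877568cc)
  (PL.C (nat_lit 0x51141b1) (nat_lit 0x0) (nat_lit 0x35cbacbf45907e)
  (PL.C (nat_lit 0x511a9d9) (nat_lit 0x0) (nat_lit 0x19d20a10f0c489d)
  (PL.C (nat_lit 0x5135691) (nat_lit 0x0) (nat_lit 0x8766781d7c986)
  (PL.C (nat_lit 0x515ff84) (nat_lit 0xce9769970f375) (nat_lit 0x0) gp2_0_144))))))))))))))))))))

noncomputable def gp2_0_142 : PL :=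
  (PL.C (nat_lit 0x4d11a76) (nat_lit 0x0) (nat_lit 0x5c4967c3a08ad0)
  (PL.C (nat_lit 0x4d1455c) (nat_lit 0x0) (nat_lit 0x86eaff8068d827)
  (PL.C (nat_lit 0x4d2bf03) (nat_lit 0x116818894d8251) (nat_lit 0x0)
  (PL.C (nat_lit 0x4d2eff4) (nat_lit 0x0) (nat_lit 0x5f4378f275b289)
  (PL.C (nat_lit 0x4d32657) (nat_lit 0x0) (nat_lit 0x22412df6c4034e0)
  (PL.C (nat_lit 0x4d32d9d) (nat_lit 0xaed9808bfb45b1) (nat_lit 0x0)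
  (PL.C (nat_lit 0x4d4d176) (nat_lit 0x61f98f3e2836f1) (nat_lit 0x0)
  (PL.C (nat_lit 0x4d528fd) (nat_lit 0xde0b1ffdf3f9a) (nat_lit 0x0)
  (PL.C (nat_lit 0x4d79c76) (nat_lit 0x362f24289907054) (nat_lit 0x0)
  (PL.C (nat_lit 0x4d8092e) (nat_lit 0x3645f0788b9e56) (nat_lit 0x0)
  (PL.C (nat_lit 0x4dc5da3) (nat_lit 0x0) (nat_lit 0x1de2170a8c1f97)
  (PL.C (nat_lit 0x4dccdea) (nat_lit 0x0) (nat_lit 0x642f90f834c3e6)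
  (PL.C (nat_lit 0x4dd916c) (nat_lit 0x15e4e4b9659066) (nat_lit 0x0)
  (PL.C (nat_lit 0x4ddea66) (nat_lit 0x12faa18e923d4a) (nat_lit 0x0)
  (PL.C (nat_lit 0x4dfcf5b) (nat_lit 0x11788f644b562f) (nat_lit 0x0)
  (PL.C (nat_lit 0x4e1333c) (nat_lit 0x0) (nat_lit 0x14ed6847127480)
  (PL.C (nat_lit 0x4e1ae52) (nat_lit 0x0) (nat_lit 0x3a4eca0d704f83)
  (PL.C (nat_lit 0x4e74194) (nat_lit 0x0) (nat_lit 0x1517bbf0de7e1e5)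
  (PL.C (nat_lit 0x4e809af) (nat_lit 0x0) (nat_lit 0x2261f9de00d9223)
  (PL.C (nat_lit 0x4ed4cc1) (nat_lit 0x0) (nat_lit 0x17c014e79c4928) gp2_0_143))))))))))))))))))))

noncomputable def gp2_0_141 : PL :=
  (PL.C (nat_lit 0x4b3bbce) (nat_lit 0x0) (nat_lit 0x925d71dac2f453)
  (PL.C (nat_lit 0x4b4898a) (nat_lit 0x7188284e51f710) (nat_lit 0x0)
  (PL.C (nat_lit 0x4b69063) (nat_lit 0xb03a921f776205) (nat_lit 0x0)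
  (PL.C (nat_lit 0x4b95cc7) (nat_lit 0x0) (nat_lit 0x1c7cc3983a134b9)
  (PL.C (nat_lit 0x4b9aaec) (nat_lit 0x599498626090ff) (nat_lit 0x0)
  (PL.C (nat_lit 0x4befda5) (nat_lit 0x0) (nat_lit 0x2b2d6dd2d808bf)
  (PL.C (nat_lit 0x4c0b694) (nat_lit 0x169885be359cccd) (nat_lit 0x0)
  (PL.C (nat_lit 0x4c29d02) (nat_lit 0x0) (nat_lit 0xb144501c0b0f50)
  (PL.C (nat_lit 0x4c414b4) (nat_lit 0x6d38dbe256ad88) (nat_lit 0x0)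
  (PL.C (nat_lit 0x4c4e80d) (nat_lit 0x0) (nat_lit 0x631cc28d86e512)
  (PL.C (nat_lit 0x4c66fc5) (nat_lit 0x331e088c6cb63ba) (nat_lit 0x0)
  (PL.C (nat_lit 0x4c6943a) (nat_lit 0xb1093f7628364) (nat_lit 0x0)
  (PL.C (nat_lit 0x4c99de9) (nat_lit 0x1d57e1d481c1ac0) (nat_lit 0x0)
  (PL.C (nat_lit 0x4ca5a72) (nat_lit 0x1bb817da4887c34) (nat_lit 0x0)
  (PL.C (nat_lit 0x4cc177e) (nat_lit 0x0) (nat_lit 0x2e0cd59478f5ad2)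
  (PL.C (nat_lit 0x4cc7f8b) (nat_lit 0x0) (nat_lit 0x125ff481bea972)
  (PL.C (nat_lit 0x4cd984d) (nat_lit 0xab123ee978818a) (nat_lit 0x0)
  (PL.C (nat_lit 0x4cdedea) (nat_lit 0xb59be55566a350) (nat_lit 0x0)
  (PL.C (nat_lit 0x4cf7dae) (nat_lit 0x8932bda3757565) (nat_lit 0x0)
  (PL.C (nat_lit 0x4cfffb3) (nat_lit 0x986e243872bc9) (nat_lit 0x0) gp2_0_142))))))))))))))))))))

noncomputable def gp2_0_140 : PL :=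
  (PL.C (nat_lit 0x48cb08b) (nat_lit 0x205f539d21b910d) (nat_lit 0x0)
  (PL.C (nat_lit 0x48ef775) (nat_lit 0x118eeab7e1704a2) (nat_lit 0x0)
  (PL.C (nat_lit 0x4915105) (nat_lit 0x0) (nat_lit 0x19f634f6f84c0c9)
  (PL.C (nat_lit 0x49191a5) (nat_lit 0x3b0b39c985b7cf) (nat_lit 0x0)
  (PL.C (nat_lit 0x4943a87) (nat_lit 0x0) (nat_lit 0x111ad82f9070c45)
  (PL.C (nat_lit 0x4949d8d) (nat_lit 0x7cb94e59ed692) (nat_lit 0x0)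
  (PL.C (nat_lit 0x4962699) (nat_lit 0x0) (nat_lit 0x1d983311d45e4eb)
  (PL.C (nat_lit 0x4962d5a) (nat_lit 0x6847669deb8b04a) (nat_lit 0x0)
  (PL.C (nat_lit 0x4990323) (nat_lit 0x0) (nat_lit 0x1f870211de2fa30)
  (PL.C (nat_lit 0x49a110c) (nat_lit 0x0) (nat_lit 0x267689a2999e67)
  (PL.C (nat_lit 0x49cb216) (nat_lit 0x5d78597ae5a55c) (nat_lit 0x0)
  (PL.C (nat_lit 0x49edef1) (nat_lit 0x348058076622b8) (nat_lit 0x0)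
  (PL.C (nat_lit 0x4a5bc99) (nat_lit 0x598d0f36eeec6bc) (nat_lit 0x0)
  (PL.C (nat_lit 0x4a9be43) (nat_lit 0x0) (nat_lit 0x19705ca1f4dd569)
  (PL.C (nat_lit 0x4abb35d) (nat_lit 0x0) (nat_lit 0x9931ccaed393b0)
  (PL.C (nat_lit 0x4ad0dda) (nat_lit 0x178c9e91973ff8) (nat_lit 0x0)
  (PL.C (nat_lit 0x4adf18e) (nat_lit 0x0) (nat_lit 0x8a6067db360863)
  (PL.C (nat_lit 0x4afd07b) (nat_lit 0x8dd41871cb8df7) (nat_lit 0x0)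
  (PL.C (nat_lit 0x4b159ac) (nat_lit 0x10e44e895666c41) (nat_lit 0x0)
  (PL.C (nat_lit 0x4b2f652) (nat_lit 0x0) (nat_lit 0x236ce601056785) gp2_0_141))))))))))))))))))))

noncomputable def gp2_0_139 : PL :=
  (PL.C (nat_lit 0x47129fa) (nat_lit 0x0) (nat_lit 0x52d5f95d8e68a)
  (PL.C (nat_lit 0x476661f) (nat_lit 0x0) (nat_lit 0x611c381780df2c)
  (PL.C (nat_lit 0x478a1e1) (nat_lit 0x18dccad97e7efd) (nat_lit 0x0)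
  (PL.C (nat_lit 0x47a8eac) (nat_lit 0x29975016123ffd) (nat_lit 0x0)
  (PL.C (nat_lit 0x47b2f51) (nat_lit 0x0) (nat_lit 0x108fb99154d18)
  (PL.C (nat_lit 0x47b8cd5) (nat_lit 0x0) (nat_lit 0x925c7a0479995b)
  (PL.C (nat_lit 0x47c0efc) (nat_lit 0x0) (nat_lit 0x633173dadd0942)
  (PL.C (nat_lit 0x47d4467) (nat_lit 0x0) (nat_lit 0x14da47a4f2ee6d)
  (PL.C (nat_lit 0x47dcb2b) (nat_lit 0xd976d12f25903f) (nat_lit 0x0)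
  (PL.C (nat_lit 0x47fb472) (nat_lit 0x0) (nat_lit 0x4c78df47efa85)
  (PL.C (nat_lit 0x4800224) (nat_lit 0x12a167ebc8eef07) (nat_lit 0x0)
  (PL.C (nat_lit 0x4803ba9) (nat_lit 0x0) (nat_lit 0x1587e425a919f1d)
  (PL.C (nat_lit 0x481ddcf) (nat_lit 0x7f9b0295b03d6a) (nat_lit 0x0)
  (PL.C (nat_lit 0x4827c57) (nat_lit 0x632e8feac10ed9) (nat_lit 0x0)
  (PL.C (nat_lit 0x484e5e6) (nat_lit 0x0) (nat_lit 0x2a12be058c3b837)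
  (PL.C (nat_lit 0x4850f67) (nat_lit 0x0) (nat_lit 0x81c90d43f783f)
  (PL.C (nat_lit 0x486cbd3) (nat_lit 0x926a0ddbe5fcc0d) (nat_lit 0x0)
  (PL.C (nat_lit 0x4884c5a) (nat_lit 0x0) (nat_lit 0x366c23103de8d5)
  (PL.C (nat_lit 0x4899e7e) (nat_lit 0xcf71dbb0455a75) (nat_lit 0x0)
  (PL.C (nat_lit 0x48aa27a) (nat_lit 0x0) (nat_lit 0x9e67fe287cdc) gp2_0_140))))))))))))))))))))

noncomputable def gp2_0_138 : PL :=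
  (PL.C (nat_lit 0x4521585) (nat_lit 0x0) (nat_lit 0x3af7184f2aebc26)
  (PL.C (nat_lit 0x452ecef) (nat_lit 0x3fa34dc5528903e) (nat_lit 0x0)
  (PL.C (nat_lit 0x45561c2) (nat_lit 0x0) (nat_lit 0xbc0b66ac7f9526)
  (PL.C (nat_lit 0x456d206) (nat_lit 0x0) (nat_lit 0x3221cd7714386f1)
  (PL.C (nat_lit 0x458fdfa) (nat_lit 0x0) (nat_lit 0x26cec9f0ef95623)
  (PL.C (nat_lit 0x45d0324) (nat_lit 0x0) (nat_lit 0xe106169fb92c30)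
  (PL.C (nat_lit 0x45e02be) (nat_lit 0x0) (nat_lit 0xea082276649a3b)
  (PL.C (nat_lit 0x461b11c) (nat_lit 0x0) (nat_lit 0x3f2f213a9143ac)
  (PL.C (nat_lit 0x4620c8c) (nat_lit 0x70460e402d556c) (nat_lit 0x0)
  (PL.C (nat_lit 0x46292b6) (nat_lit 0x0) (nat_lit 0xd361aa11bad35b)
  (PL.C (nat_lit 0x4658a57) (nat_lit 0x0) (nat_lit 0x5216c0f4678274)
  (PL.C (nat_lit 0x4666279) (nat_lit 0x2c6b25b86575266) (nat_lit 0x0)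
  (PL.C (nat_lit 0x466a0bc) (nat_lit 0x0) (nat_lit 0x240fddd807328f)
  (PL.C (nat_lit 0x466f82d) (nat_lit 0x5f0f827483ad3) (nat_lit 0x0)
  (PL.C (nat_lit 0x46b5904) (nat_lit 0x0) (nat_lit 0x153fb999cd97cc)
  (PL.C (nat_lit 0x46b68ea) (nat_lit 0x983a09e3cd554e9) (nat_lit 0x0)
  (PL.C (nat_lit 0x46d8839) (nat_lit 0xb50327039afecd) (nat_lit 0x0)
  (PL.C (nat_lit 0x46e3ca6) (nat_lit 0x0) (nat_lit 0x86693d2c25af2e)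
  (PL.C (nat_lit 0x46eb582) (nat_lit 0x778cafb7d424b86) (nat_lit 0x0)
  (PL.C (nat_lit 0x4709e47) (nat_lit 0x0) (nat_lit 0x31a4501d6002103) gp2_0_139))))))))))))))))))))

noncomputable def gp2_0_137 : PL :=
  (PL.C (nat_lit 0x433ae42) (nat_lit 0xbf5a9896eef144) (nat_lit 0x0)
  (PL.C (nat_lit 0x436ab9e) (nat_lit 0x2283d13b879c24) (nat_lit 0x0)
  (PL.C (nat_lit 0x437c077) (nat_lit 0x2e251ebc3271155) (nat_lit 0x0)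
  (PL.C (nat_lit 0x43a18a9) (nat_lit 0x0) (nat_lit 0xb4a6048e60fd53)
  (PL.C (nat_lit 0x43acc4f) (nat_lit 0x0) (nat_lit 0x6639d2b54b4b3e)
  (PL.C (nat_lit 0x43c4679) (nat_lit 0x0) (nat_lit 0x1e69bc3a8c8c2e0)
  (PL.C (nat_lit 0x43ef9c3) (nat_lit 0xd738840e2b91b) (nat_lit 0x0)
  (PL.C (nat_lit 0x4409a21) (nat_lit 0x11acd2116b8d950) (nat_lit 0x0)
  (PL.C (nat_lit 0x443694f) (nat_lit 0x0) (nat_lit 0x4b74246b5fd51c)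
  (PL.C (nat_lit 0x444449b) (nat_lit 0x0) (nat_lit 0x2818b2877568cc)
  (PL.C (nat_lit 0x446d3ae) (nat_lit 0xdaa7599c8721f) (nat_lit 0x0)
  (PL.C (nat_lit 0x4471635) (nat_lit 0x0) (nat_lit 0x9af9f72eeffbff)
  (PL.C (nat_lit 0x4487d14) (nat_lit 0x0) (nat_lit 0x6ee935c16ee280)
  (PL.C (nat_lit 0x448ab6a) (nat_lit 0x0) (nat_lit 0xa3bfdf575e2458)
  (PL.C (nat_lit 0x449080e) (nat_lit 0x187560917f94e4) (nat_lit 0x0)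
  (PL.C (nat_lit 0x44bc37a) (nat_lit 0x0) (nat_lit 0xd2f8de35093a9)
  (PL.C (nat_lit 0x44c8744) (nat_lit 0x893f367cff250) (nat_lit 0x0)
  (PL.C (nat_lit 0x44d68be) (nat_lit 0x2cefb305408578) (nat_lit 0x0)
  (PL.C (nat_lit 0x44f35dd) (nat_lit 0x0) (nat_lit 0x326cff5b7a0016a)
  (PL.C (nat_lit 0x4513316) (nat_lit 0x0) (nat_lit 0x20c93d3055f6ff3) gp2_0_138))))))))))))))))))))

noncomputable def gp2_0_136 : PL :=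
  (PL.C (nat_lit 0x41b741c) (nat_lit 0x0) (nat_lit 0xfca4bdf18f3cd6)
  (PL.C (nat_lit 0x41c2f4a) (nat_lit 0x2758923aadeb614) (nat_lit 0x0)
  (PL.C (nat_lit 0x41df483) (nat_lit 0x0) (nat_lit 0x56ddbd4a1b2295c)
  (PL.C (nat_lit 0x41eb9ab) (nat_lit 0x0) (nat_lit 0x208005950e7937)
  (PL.C (nat_lit 0x4220cbc) (nat_lit 0x0) (nat_lit 0x203fd27e39c9886)
  (PL.C (nat_lit 0x422b521) (nat_lit 0x0) (nat_lit 0x20a2d7b906b5bf)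
  (PL.C (nat_lit 0x422bc64) (nat_lit 0x0) (nat_lit 0x2d2ded6ff67377)
  (PL.C (nat_lit 0x42350bb) (nat_lit 0x0) (nat_lit 0x1a689de2e17d8c)
  (PL.C (nat_lit 0x4240946) (nat_lit 0x51ee6d832299d8) (nat_lit 0x0)
  (PL.C (nat_lit 0x4244aab) (nat_lit 0x0) (nat_lit 0x15507b15ba46b86)
  (PL.C (nat_lit 0x426d214) (nat_lit 0xed6a6399ceddce5) (nat_lit 0x0)
  (PL.C (nat_lit 0x4270725) (nat_lit 0x0) (nat_lit 0x3ca26821204312e)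
  (PL.C (nat_lit 0x4281789) (nat_lit 0x84ad14f618d67f) (nat_lit 0x0)
  (PL.C (nat_lit 0x429af23) (nat_lit 0x0) (nat_lit 0x321241ea717770)
  (PL.C (nat_lit 0x42a20b1) (nat_lit 0x817bf68db4a35d) (nat_lit 0x0)
  (PL.C (nat_lit 0x42b2864) (nat_lit 0x148eb740b58226b) (nat_lit 0x0)
  (PL.C (nat_lit 0x42c6f2d) (nat_lit 0x365600149f81c) (nat_lit 0x0)
  (PL.C (nat_lit 0x42db7cb) (nat_lit 0x34bcb29389468d4) (nat_lit 0x0)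
  (PL.C (nat_lit 0x42deaed) (nat_lit 0x83ec1a43b0e406) (nat_lit 0x0)
  (PL.C (nat_lit 0x430adc3) (nat_lit 0x0) (nat_lit 0x16486044979235) gp2_0_137))))))))))))))))))))

noncomputable def gp2_0_135 : PL :=
  (PL.C (nat_lit 0x4015d2a) (nat_lit 0x6123b245e6c67c) (nat_lit 0x0)
  (PL.C (nat_lit 0x4074974) (nat_lit 0x8f0c1cd0ec4c10) (nat_lit 0x0)
  (PL.C (nat_lit 0x40ac9de) (nat_lit 0x351df7094d4d669) (nat_lit 0x0)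
  (PL.C (nat_lit 0x40b3bba) (nat_lit 0x14b8a85b5d5d640) (nat_lit 0x0)
  (PL.C (nat_lit 0x40b7aba) (nat_lit 0x37d241d9dcf66f) (nat_lit 0x0)
  (PL.C (nat_lit 0x40dcccc) (nat_lit 0x52f9ad41d448d0) (nat_lit 0x0)
  (PL.C (nat_lit 0x40df841) (nat_lit 0x0) (nat_lit 0xd75ed8d6125216)
  (PL.C (nat_lit 0x40e66db) (nat_lit 0x0) (nat_lit 0xc486676650aad5)
  (PL.C (nat_lit 0x40fffbf) (nat_lit 0x785bcd3b9ac2dc) (nat_lit 0x0)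
  (PL.C (nat_lit 0x4120094) (nat_lit 0x7fe8850d11f65) (nat_lit 0x0)
  (PL.C (nat_lit 0x4126f9c) (nat_lit 0xdc42acd2b96aaa) (nat_lit 0x0)
  (PL.C (nat_lit 0x4127ac4) (nat_lit 0x0) (nat_lit 0x10a2a2298bb25d7)
  (PL.C (nat_lit 0x412aed1) (nat_lit 0x94815213b15161f) (nat_lit 0x0)
  (PL.C (nat_lit 0x413aed3) (nat_lit 0x4f31816fe6db33) (nat_lit 0x0)
  (PL.C (nat_lit 0x415b92d) (nat_lit 0x0) (nat_lit 0x68648a89be3e7)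
  (PL.C (nat_lit 0x4166cce) (nat_lit 0x0) (nat_lit 0xaa31b08f02c73f5)
  (PL.C (nat_lit 0x416bbd4) (nat_lit 0x0) (nat_lit 0x2d96087103f789)
  (PL.C (nat_lit 0x4179472) (nat_lit 0x7608fa2945b258) (nat_lit 0x0)
  (PL.C (nat_lit 0x417d43d) (nat_lit 0x0) (nat_lit 0x31075d467597f8)
  (PL.C (nat_lit 0x41acf12) (nat_lit 0x0) (nat_lit 0x428416bd71ecbd) gp2_0_136))))))))))))))))))))

noncomputable def gp2_0_134 : PL :=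
  (PL.C (nat_lit 0x3eb2e8d) (nat_lit 0x319209b4a32898) (nat_lit 0x0)
  (PL.C (nat_lit 0x3eb723a) (nat_lit 0x0) (nat_lit 0x31346eff501fb0e)
  (PL.C (nat_lit 0x3ec52bd) (nat_lit 0x19a96e53b30f684) (nat_lit 0x0)
  (PL.C (nat_lit 0x3ed6b3d) (nat_lit 0x0) (nat_lit 0xdfed5878dd8c93)
  (PL.C (nat_lit 0x3ee0926) (nat_lit 0x0) (nat_lit 0x996f8909f0af83)
  (PL.C (nat_lit 0x3efa666) (nat_lit 0x0) (nat_lit 0x21f9aa643796ec)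
  (PL.C (nat_lit 0x3efb48f) (nat_lit 0x17240b6430e69ad) (nat_lit 0x0)
  (PL.C (nat_lit 0x3f15b91) (nat_lit 0x0) (nat_lit 0x1f0ea25ca38c1a0)
  (PL.C (nat_lit 0x3f34046) (nat_lit 0x0) (nat_lit 0x1e3f720f2758b6a)
  (PL.C (nat_lit 0x3f3d14b) (nat_lit 0x0) (nat_lit 0x2e71856901d4ed9)
  (PL.C (nat_lit 0x3f570eb) (nat_lit 0x86f23081ce3f8) (nat_lit 0x0)
  (PL.C (nat_lit 0x3f5dc5a) (nat_lit 0x7593cbeb785036f) (nat_lit 0x0)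
  (PL.C (nat_lit 0x3f6e75c) (nat_lit 0x0) (nat_lit 0x5d2be3978fcc4b)
  (PL.C (nat_lit 0x3f6fbe6) (nat_lit 0xb6dfbd8ca70f92) (nat_lit 0x0)
  (PL.C (nat_lit 0x3f82386) (nat_lit 0x1ad3df94664d6b) (nat_lit 0x0)
  (PL.C (nat_lit 0x3f8d132) (nat_lit 0x567753d2991d16) (nat_lit 0x0)
  (PL.C (nat_lit 0x3fa872f) (nat_lit 0xb670aef96f5407) (nat_lit 0x0)
  (PL.C (nat_lit 0x3fb831c) (nat_lit 0x2bbdec510653307) (nat_lit 0x0)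
  (PL.C (nat_lit 0x3fe7c2c) (nat_lit 0x1510faf1795d89) (nat_lit 0x0)
  (PL.C (nat_lit 0x3fec191) (nat_lit 0x2d16e1eadd9c7b4) (nat_lit 0x0) gp2_0_135))))))))))))))))))))

noncomputable def gp2_0_133 : PL :=
  (PL.C (nat_lit 0x3d91a09) (nat_lit 0x0) (nat_lit 0xb5cfb20870da80)
  (PL.C (nat_lit 0x3daffcc) (nat_lit 0x72c54fbc63ff2a) (nat_lit 0x0)
  (PL.C (nat_lit 0x3db15d9) (nat_lit 0x0) (nat_lit 0x1cda374e78584f0)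
  (PL.C (nat_lit 0x3dbf76f) (nat_lit 0x0) (nat_lit 0x2d65924d2a577f)
  (PL.C (nat_lit 0x3dc9755) (nat_lit 0x0) (nat_lit 0x642f856da85626)
  (PL.C (nat_lit 0x3de5fa6) (nat_lit 0x1bcad0ea353c980) (nat_lit 0x0)
  (PL.C (nat_lit 0x3de8421) (nat_lit 0x163aa92b6afc308) (nat_lit 0x0)
  (PL.C (nat_lit 0x3df3042) (nat_lit 0x0) (nat_lit 0x5dd49482bd66519)
  (PL.C (nat_lit 0x3dfeb97) (nat_lit 0x0) (nat_lit 0xd6794e722c3982)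
  (PL.C (nat_lit 0x3e01b01) (nat_lit 0x0) (nat_lit 0x357eca843d3354)
  (PL.C (nat_lit 0x3e194ef) (nat_lit 0x939b47264d35bb) (nat_lit 0x0)
  (PL.C (nat_lit 0x3e2aa6f) (nat_lit 0x4bc7a6c28356b1) (nat_lit 0x0)
  (PL.C (nat_lit 0x3e2bf12) (nat_lit 0x4cb74c7993c049) (nat_lit 0x0)
  (PL.C (nat_lit 0x3e3e4e4) (nat_lit 0x0) (nat_lit 0x1517bbf0de7e1e5)
  (PL.C (nat_lit 0x3e4287b) (nat_lit 0x0) (nat_lit 0x1d5c8dfa3e0dc255)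
  (PL.C (nat_lit 0x3e4b0ee) (nat_lit 0x0) (nat_lit 0x3d1e0632101458)
  (PL.C (nat_lit 0x3e5730a) (nat_lit 0x0) (nat_lit 0x34ee32b00d8500)
  (PL.C (nat_lit 0x3e6f7f3) (nat_lit 0x0) (nat_lit 0x8642b6281094ae)
  (PL.C (nat_lit 0x3e93973) (nat_lit 0x2a3895151a4905b) (nat_lit 0x0)
  (PL.C (nat_lit 0x3ead97c) (nat_lit 0x524c18acf104d) (nat_lit 0x0) gp2_0_134))))))))))))))))))))

noncomputable def gp2_0_132 : PL :=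
  (PL.C (nat_lit 0x3bddf0a) (nat_lit 0x1eb80f7e4e0512f) (nat_lit 0x0)
  (PL.C (nat_lit 0x3bde4ae) (nat_lit 0x3381db5e527e60) (nat_lit 0x0)
  (PL.C (nat_lit 0x3bf7ba3) (nat_lit 0x3b9665d1139fb1) (nat_lit 0x0)
  (PL.C (nat_lit 0x3c154c4) (nat_lit 0x959fe8810a8e03c) (nat_lit 0x0)
  (PL.C (nat_lit 0x3c1a914) (nat_lit 0x0) (nat_lit 0xc8de48eb3e97b3)
  (PL.C (nat_lit 0x3c27b25) (nat_lit 0x7fec77259a8c4c) (nat_lit 0x0)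
  (PL.C (nat_lit 0x3c45cdb) (nat_lit 0x0) (nat_lit 0x5c1b9fcaf8a467)
  (PL.C (nat_lit 0x3c56956) (nat_lit 0x0) (nat_lit 0x1618fbb9fe8290a8)
  (PL.C (nat_lit 0x3c6d9f5) (nat_lit 0x0) (nat_lit 0xae397f60a3098)
  (PL.C (nat_lit 0x3c791df) (nat_lit 0x12d60106339d4d4) (nat_lit 0x0)
  (PL.C (nat_lit 0x3c923ec) (nat_lit 0x0) (nat_lit 0x16028c18ef4d379)
  (PL.C (nat_lit 0x3ca5246) (nat_lit 0x5239a318dbb3a0) (nat_lit 0x0)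
  (PL.C (nat_lit 0x3cb9f91) (nat_lit 0x0) (nat_lit 0x1d73e3e4b9d3e49)
  (PL.C (nat_lit 0x3cc8fe4) (nat_lit 0x39c7bfa5611672) (nat_lit 0x0)
  (PL.C (nat_lit 0x3ccaa0d) (nat_lit 0x0) (nat_lit 0x47d529694d14a)
  (PL.C (nat_lit 0x3ce1f64) (nat_lit 0x0) (nat_lit 0x5bc3f5ea8ead0)
  (PL.C (nat_lit 0x3d2345f) (nat_lit 0x0) (nat_lit 0xccc8cfacef1162)
  (PL.C (nat_lit 0x3d571e2) (nat_lit 0x0) (nat_lit 0x4316216c5fa15)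
  (PL.C (nat_lit 0x3d6bada) (nat_lit 0x0) (nat_lit 0xe3e3105c70a911)
  (PL.C (nat_lit 0x3d72df7) (nat_lit 0x182c2235f8f05aa) (nat_lit 0x0) gp2_0_133))))))))))))))))))))

noncomputable def gp2_0_131 : PL :=
  (PL.C (nat_lit 0x3a66aeb) (nat_lit 0x3140e3b2760efa1) (nat_lit 0x0)
  (PL.C (nat_lit 0x3a7d0d9) (nat_lit 0x1d57e1d481c1ac0) (nat_lit 0x0)
  (PL.C (nat_lit 0x3a9b49e) (nat_lit 0x0) (nat_lit 0x7e47bdb3c1dcbe)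
  (PL.C (nat_lit 0x3aa3b17) (nat_lit 0x1a3838d0587abea) (nat_lit 0x0)
  (PL.C (nat_lit 0x3ae3cde) (nat_lit 0x2c43479a68f49) (nat_lit 0x0)
  (PL.C (nat_lit 0x3aeeeb4) (nat_lit 0x0) (nat_lit 0x1ed8d5122cf2cd)
  (PL.C (nat_lit 0x3b0740b) (nat_lit 0x16c0eb984365b8) (nat_lit 0x0)
  (PL.C (nat_lit 0x3b1692a) (nat_lit 0x206797238a088c) (nat_lit 0x0)
  (PL.C (nat_lit 0x3b2d34e) (nat_lit 0x5ea710a135b8a9) (nat_lit 0x0)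
  (PL.C (nat_lit 0x3b41f5c) (nat_lit 0x6258bd50f27ede) (nat_lit 0x0)
  (PL.C (nat_lit 0x3b45fb5) (nat_lit 0x0) (nat_lit 0x222a9981802c0cc)
  (PL.C (nat_lit 0x3b5b7c2) (nat_lit 0x0) (nat_lit 0x11b5fe41ef0bfc)
  (PL.C (nat_lit 0x3b6081c) (nat_lit 0x0) (nat_lit 0xfba6e195d08f60)
  (PL.C (nat_lit 0x3b67a76) (nat_lit 0x0) (nat_lit 0x7f74d348a1dd55)
  (PL.C (nat_lit 0x3b6d81d) (nat_lit 0x19d1e387ff1c1de) (nat_lit 0x0)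
  (PL.C (nat_lit 0x3b70cac) (nat_lit 0x0) (nat_lit 0xc26b3bb8b242c4)
  (PL.C (nat_lit 0x3b8955d) (nat_lit 0x0) (nat_lit 0xb78d9501691889)
  (PL.C (nat_lit 0x3bb1612) (nat_lit 0x0) (nat_lit 0x9957cdc7bc54f4d)
  (PL.C (nat_lit 0x3bc48c4) (nat_lit 0xb91e2cad703e) (nat_lit 0x0)
  (PL.C (nat_lit 0x3bd9c5d) (nat_lit 0xe3fe78261b5a91) (nat_lit 0x0) gp2_0_132))))))))))))))))))))

noncomputable def gp2_0_130 : PL :=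
  (PL.C (nat_lit 0x38a4536) (nat_lit 0x7eead5f8da88c2) (nat_lit 0x0)
  (PL.C (nat_lit 0x38ab193) (nat_lit 0x28525a11301c65) (nat_lit 0x0)
  (PL.C (nat_lit 0x38b0ffb) (nat_lit 0x1052a8e6b5065eab) (nat_lit 0x0)
  (PL.C (nat_lit 0x38c0aca) (nat_lit 0xc284aded0d275f) (nat_lit 0x0)
  (PL.C (nat_lit 0x38e112a) (nat_lit 0x0) (nat_lit 0xd4549bb32a1ea2)
  (PL.C (nat_lit 0x38e961c) (nat_lit 0xe2c1449c59d52cc) (nat_lit 0x0)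
  (PL.C (nat_lit 0x38f7a93) (nat_lit 0x69def72bfe7b8e7) (nat_lit 0x0)
  (PL.C (nat_lit 0x38facf3) (nat_lit 0x0) (nat_lit 0x66aede44a5341a)
  (PL.C (nat_lit 0x391d4bd) (nat_lit 0x0) (nat_lit 0x12aefe3102656cc)
  (PL.C (nat_lit 0x3934c1d) (nat_lit 0x1b2a1bc04885c5f) (nat_lit 0x0)
  (PL.C (nat_lit 0x3941d4b) (nat_lit 0x0) (nat_lit 0x403ad26d752abd)
  (PL.C (nat_lit 0x3947ee9) (nat_lit 0x0) (nat_lit 0x252b89011ed12ee)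
  (PL.C (nat_lit 0x3967a85) (nat_lit 0x4321dabdaefe09) (nat_lit 0x0)
  (PL.C (nat_lit 0x39dc292) (nat_lit 0x0) (nat_lit 0xc8c150170b9a496)
  (PL.C (nat_lit 0x39e10c6) (nat_lit 0x5dc3d929451dfa) (nat_lit 0x0)
  (PL.C (nat_lit 0x39f472e) (nat_lit 0x0) (nat_lit 0x337ad165e11ac)
  (PL.C (nat_lit 0x3a23921) (nat_lit 0x12cd4d72375f2d) (nat_lit 0x0)
  (PL.C (nat_lit 0x3a277e2) (nat_lit 0x4fa1fb01714ebad) (nat_lit 0x0)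
  (PL.C (nat_lit 0x3a34811) (nat_lit 0x0) (nat_lit 0x1e726d80c9bb87)
  (PL.C (nat_lit 0x3a4f5ee) (nat_lit 0x0) (nat_lit 0x1e0805a3e6a825) gp2_0_131))))))))))))))))))))

noncomputable def gp2_0_129 : PL :=
  (PL.C (nat_lit 0x377b9da) (nat_lit 0xa31ab4df362847) (nat_lit 0x0)
  (PL.C (nat_lit 0x3784545) (nat_lit 0x0) (nat_lit 0x192a206f76d16f)
  (PL.C (nat_lit 0x379b3cf) (nat_lit 0x0) (nat_lit 0x3328832fd87d243)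
  (PL.C (nat_lit 0x37ca943) (nat_lit 0x0) (nat_lit 0x7176c4b838f3804)
  (PL.C (nat_lit 0x37d28ac) (nat_lit 0x132a4964f722fa1) (nat_lit 0x0)
  (PL.C (nat_lit 0x37dbcf4) (nat_lit 0x1ed036fa78fd6f) (nat_lit 0x0)
  (PL.C (nat_lit 0x37f2dfb) (nat_lit 0x0) (nat_lit 0x116e86908ccff3)
  (PL.C (nat_lit 0x3800a09) (nat_lit 0x0) (nat_lit 0x403ad26d752abd)
  (PL.C (nat_lit 0x381337b) (nat_lit 0x95d29ed5247a2a) (nat_lit 0x0)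
  (PL.C (nat_lit 0x3815c79) (nat_lit 0x0) (nat_lit 0x7af5db59ac54a52)
  (PL.C (nat_lit 0x381a312) (nat_lit 0x0) (nat_lit 0x5069cc5bcff8d6c)
  (PL.C (nat_lit 0x382f485) (nat_lit 0x94abf8384b5457) (nat_lit 0x0)
  (PL.C (nat_lit 0x383824c) (nat_lit 0x0) (nat_lit 0xcfe352bf5b5611)
  (PL.C (nat_lit 0x3842b62) (nat_lit 0x5bcf3591635686) (nat_lit 0x0)
  (PL.C (nat_lit 0x384d8f4) (nat_lit 0x0) (nat_lit 0xe521cc8050ea)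
  (PL.C (nat_lit 0x384f5b5) (nat_lit 0x218a917d5dddb9) (nat_lit 0x0)
  (PL.C (nat_lit 0x3870237) (nat_lit 0xb9e6cead6909fc) (nat_lit 0x0)
  (PL.C (nat_lit 0x387aaa8) (nat_lit 0x0) (nat_lit 0x5a2de30e44580)
  (PL.C (nat_lit 0x388827a) (nat_lit 0x282bbe18f59b6c1) (nat_lit 0x0)
  (PL.C (nat_lit 0x389820f) (nat_lit 0x11d82eb6277f290) (nat_lit 0x0) gp2_0_130))))))))))))))))))))

noncomputable def gp2_0_128 : PL :=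
  (PL.C (nat_lit 0x357db42) (nat_lit 0x0) (nat_lit 0x533ec6a1f8d3fd)
  (PL.C (nat_lit 0x358cdfe) (nat_lit 0x51125ed99c98e5) (nat_lit 0x0)
  (PL.C (nat_lit 0x35a6e9a) (nat_lit 0x0) (nat_lit 0x2da99922f4cb9df)
  (PL.C (nat_lit 0x35ab71e) (nat_lit 0x0) (nat_lit 0xed337a15385ff)
  (PL.C (nat_lit 0x35ca08c) (nat_lit 0x2bbdec510653307) (nat_lit 0x0)
  (PL.C (nat_lit 0x35f5d95) (nat_lit 0x0) (nat_lit 0x6bb9cc161aadf54)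
  (PL.C (nat_lit 0x360d676) (nat_lit 0x0) (nat_lit 0x381ddb5ba43234)
  (PL.C (nat_lit 0x3611be6) (nat_lit 0x0) (nat_lit 0xcb93571f5003e4)
  (PL.C (nat_lit 0x36239b6) (nat_lit 0x5ea710a135b8a9) (nat_lit 0x0)
  (PL.C (nat_lit 0x365ee64) (nat_lit 0x0) (nat_lit 0x42dea12eb1327b9)
  (PL.C (nat_lit 0x3661833) (nat_lit 0x0) (nat_lit 0x64443515af5b8)
  (PL.C (nat_lit 0x36985d6) (nat_lit 0x0) (nat_lit 0xca2e15e63731b7)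
  (PL.C (nat_lit 0x36a1b22) (nat_lit 0x66e5da3c741d25) (nat_lit 0x0)
  (PL.C (nat_lit 0x36a5b04) (nat_lit 0x0) (nat_lit 0xcdc189d5a74b35)
  (PL.C (nat_lit 0x36d6b7c) (nat_lit 0x0) (nat_lit 0x3876a8c85eeda6a)
  (PL.C (nat_lit 0x36e782b) (nat_lit 0x0) (nat_lit 0xfe1cebd1a6ad13)
  (PL.C (nat_lit 0x3702fd5) (nat_lit 0xaed9808bfb45b1) (nat_lit 0x0)
  (PL.C (nat_lit 0x371e1dc) (nat_lit 0x0) (nat_lit 0xa1651a20581952)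
  (PL.C (nat_lit 0x3735886) (nat_lit 0x600b775f6b8dd6) (nat_lit 0x0)
  (PL.C (nat_lit 0x375a01a) (nat_lit 0x0) (nat_lit 0x2357f45b083bebb) gp2_0_129))))))))))))))))))))

noncomputable def gp2_0_127 : PL :=
  (PL.C (nat_lit 0x33fdf92) (nat_lit 0x9edc60cee366c8) (nat_lit 0x0)
  (PL.C (nat_lit 0x340193d) (nat_lit 0x5b23924b9bad4a) (nat_lit 0x0)
  (PL.C (nat_lit 0x341ff6b) (nat_lit 0x8ba20d9f7e2750) (nat_lit 0x0)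
  (PL.C (nat_lit 0x3442665) (nat_lit 0x0) (nat_lit 0x2eb5c8ed6955d1e)
  (PL.C (nat_lit 0x3455bca) (nat_lit 0x5476b0733cffd27) (nat_lit 0x0)
  (PL.C (nat_lit 0x348ddd6) (nat_lit 0x0) (nat_lit 0xe6774141f66f9c)
  (PL.C (nat_lit 0x348e9a7) (nat_lit 0x2801015d54cdd30f) (nat_lit 0x0)
  (PL.C (nat_lit 0x34a00b2) (nat_lit 0x0) (nat_lit 0xf31c4df2b65195)
  (PL.C (nat_lit 0x34b48ff) (nat_lit 0x366e65c76c43e4) (nat_lit 0x0)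
  (PL.C (nat_lit 0x34ccd8a) (nat_lit 0x0) (nat_lit 0x155123c6310440c)
  (PL.C (nat_lit 0x34d307f) (nat_lit 0x0) (nat_lit 0x73ce4576c594691)
  (PL.C (nat_lit 0x34ed781) (nat_lit 0x4a3328c7060b6) (nat_lit 0x0)
  (PL.C (nat_lit 0x34f10a2) (nat_lit 0x0) (nat_lit 0x839937e56b3a44)
  (PL.C (nat_lit 0x350baf1) (nat_lit 0x1f5f63b1aaf18e8) (nat_lit 0x0)
  (PL.C (nat_lit 0x351403e) (nat_lit 0x0) (nat_lit 0x12bdd6364a27838)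
  (PL.C (nat_lit 0x351d76d) (nat_lit 0x421ff0e0713908) (nat_lit 0x0)
  (PL.C (nat_lit 0x352a90b) (nat_lit 0x0) (nat_lit 0x9fe47d21ab86df)
  (PL.C (nat_lit 0x352c254) (nat_lit 0x49c338fc517f84) (nat_lit 0x0)
  (PL.C (nat_lit 0x35621b7) (nat_lit 0x32201f6769665b3) (nat_lit 0x0)
  (PL.C (nat_lit 0x3572202) (nat_lit 0x247e87b41e5831) (nat_lit 0x0) gp2_0_128))))))))))))))))))))

noncomputable def gp2_0_126 : PL :=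
  (PL.C (nat_lit 0x32f44cd) (nat_lit 0x1dc5bdac2eeb837) (nat_lit 0x0)
  (PL.C (nat_lit 0x330c79b) (nat_lit 0x2e2d4fc1bdf8a7a) (nat_lit 0x0)
  (PL.C (nat_lit 0x332ba54) (nat_lit 0x0) (nat_lit 0x1a117fef86b721a)
  (PL.C (nat_lit 0x332e335) (nat_lit 0x1068f680bb5c423) (nat_lit 0x0)
  (PL.C (nat_lit 0x332ffb2) (nat_lit 0x0) (nat_lit 0x29eea6d6b1cf20)
  (PL.C (nat_lit 0x333bade) (nat_lit 0x97ec2e5ec2723e) (nat_lit 0x0)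
  (PL.C (nat_lit 0x3343395) (nat_lit 0x0) (nat_lit 0x3101dbfae28cec)
  (PL.C (nat_lit 0x334ba3b) (nat_lit 0x27b6c076d215702) (nat_lit 0x0)
  (PL.C (nat_lit 0x334fe74) (nat_lit 0x16ff6b5cd2f96c0) (nat_lit 0x0)
  (PL.C (nat_lit 0x3354681) (nat_lit 0x0) (nat_lit 0x4b68d875303626)
  (PL.C (nat_lit 0x3355522) (nat_lit 0x1341596819cf594) (nat_lit 0x0)
  (PL.C (nat_lit 0x33611a4) (nat_lit 0x0) (nat_lit 0x85daee578e5842)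
  (PL.C (nat_lit 0x3372a02) (nat_lit 0x0) (nat_lit 0x14e6019a0f3fa1)
  (PL.C (nat_lit 0x33773be) (nat_lit 0xc1bddbffc8b83b) (nat_lit 0x0)
  (PL.C (nat_lit 0x3388ba4) (nat_lit 0x61c2b1f9cf15e7) (nat_lit 0x0)
  (PL.C (nat_lit 0x338c5fe) (nat_lit 0x5b2affe925d0d5) (nat_lit 0x0)
  (PL.C (nat_lit 0x338ff2b) (nat_lit 0x0) (nat_lit 0x57081259e7ddbb)
  (PL.C (nat_lit 0x33d93c2) (nat_lit 0x0) (nat_lit 0x425dce52b4646ae)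
  (PL.C (nat_lit 0x33dde9c) (nat_lit 0x0) (nat_lit 0x526e1c232bfee12)
  (PL.C (nat_lit 0x33e9c44) (nat_lit 0xa4fdad297d47f) (nat_lit 0x0) gp2_0_127))))))))))))))))))))

noncomputable def gp2_0_125 : PL :=
  (PL.C (nat_lit 0x318b499) (nat_lit 0xa3c07e1b3de93c) (nat_lit 0x0)
  (PL.C (nat_lit 0x3192866) (nat_lit 0x0) (nat_lit 0xcd61d50b2bb4810)
  (PL.C (nat_lit 0x31d223e) (nat_lit 0x3f14b8d88a1409) (nat_lit 0x0)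
  (PL.C (nat_lit 0x31e093c) (nat_lit 0x1100ca22840d8f) (nat_lit 0x0)
  (PL.C (nat_lit 0x31fe052) (nat_lit 0x0) (nat_lit 0x4dd6eea83c4146)
  (PL.C (nat_lit 0x31feacb) (nat_lit 0x17bc28a529be34d) (nat_lit 0x0)
  (PL.C (nat_lit 0x3209349) (nat_lit 0xb59a1e4f6b7f9) (nat_lit 0x0)
  (PL.C (nat_lit 0x321f98c) (nat_lit 0x0) (nat_lit 0x99e8db2d360e4)
  (PL.C (nat_lit 0x3227d34) (nat_lit 0x0) (nat_lit 0x458984e176dcc9)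
  (PL.C (nat_lit 0x323065c) (nat_lit 0x6bf11a24e883b3) (nat_lit 0x0)
  (PL.C (nat_lit 0x32372f1) (nat_lit 0x0) (nat_lit 0x35aebea679d7a)
  (PL.C (nat_lit 0x3246042) (nat_lit 0x0) (nat_lit 0x533ec6a1f8d3fd)
  (PL.C (nat_lit 0x325050f) (nat_lit 0x63f3c510c49d80) (nat_lit 0x0)
  (PL.C (nat_lit 0x3263dda) (nat_lit 0x0) (nat_lit 0x5069cc5bcff8d6c)
  (PL.C (nat_lit 0x3268c7d) (nat_lit 0x5f2a3683722e31) (nat_lit 0x0)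
  (PL.C (nat_lit 0x32943cf) (nat_lit 0x53939b4b3fe969) (nat_lit 0x0)
  (PL.C (nat_lit 0x329fe6e) (nat_lit 0x0) (nat_lit 0x933e1602409b3a)
  (PL.C (nat_lit 0x32c68ac) (nat_lit 0x0) (nat_lit 0xbc1fb86d2b6b7c)
  (PL.C (nat_lit 0x32ef52e) (nat_lit 0x12d75b85b5663733) (nat_lit 0x0)
  (PL.C (nat_lit 0x32f0d7c) (nat_lit 0x0) (nat_lit 0x19196c32bbfbd6) gp2_0_126))))))))))))))))))))

noncomputable def gp2_0_124 : PL :=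
  (PL.C (nat_lit 0x3024781) (nat_lit 0x158db90cd78bb65) (nat_lit 0x0)
  (PL.C (nat_lit 0x30289e3) (nat_lit 0x0) (nat_lit 0x4cc0c46d5254da)
  (PL.C (nat_lit 0x3035f9a) (nat_lit 0x0) (nat_lit 0x1b43ce1c8ac4cd)
  (PL.C (nat_lit 0x3036a71) (nat_lit 0x512b333576dc8d) (nat_lit 0x0)
  (PL.C (nat_lit 0x30487e2) (nat_lit 0x12a26db9ca4d7d54) (nat_lit 0x0)
  (PL.C (nat_lit 0x305883c) (nat_lit 0x0) (nat_lit 0x2ad2ee6f733909)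
  (PL.C (nat_lit 0x305aa4d) (nat_lit 0x0) (nat_lit 0x3f1038657d0207e)
  (PL.C (nat_lit 0x30716fc) (nat_lit 0x0) (nat_lit 0x45928fb74724fc)
  (PL.C (nat_lit 0x30875b2) (nat_lit 0x0) (nat_lit 0x114bd16e602572c)
  (PL.C (nat_lit 0x309fa4e) (nat_lit 0x2092b5aad490f61) (nat_lit 0x0)
  (PL.C (nat_lit 0x30bb66e) (nat_lit 0x8c5b3426eec7db) (nat_lit 0x0)
  (PL.C (nat_lit 0x30bc163) (nat_lit 0xd8f81d8123d5391) (nat_lit 0x0)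
  (PL.C (nat_lit 0x30d7c5a) (nat_lit 0xfb1e334b3ebd09) (nat_lit 0x0)
  (PL.C (nat_lit 0x30dbe5e) (nat_lit 0x24f917b3d76ac9) (nat_lit 0x0)
  (PL.C (nat_lit 0x30ec466) (nat_lit 0x0) (nat_lit 0x17a3a62d445c5e5)
  (PL.C (nat_lit 0x30fb89b) (nat_lit 0xbd3314be13e0b7) (nat_lit 0x0)
  (PL.C (nat_lit 0x310acc2) (nat_lit 0x3428623edc6949d) (nat_lit 0x0)
  (PL.C (nat_lit 0x3132164) (nat_lit 0x1922992a3b6d442) (nat_lit 0x0)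
  (PL.C (nat_lit 0x313dd61) (nat_lit 0x0) (nat_lit 0x41dd6b97a152dbe)
  (PL.C (nat_lit 0x3171cc9) (nat_lit 0x0) (nat_lit 0x7d3f4ea1247e9) gp2_0_125))))))))))))))))))))

noncomputable def gp2_0_123 : PL :=
  (PL.C (nat_lit 0x2ee5c3a) (nat_lit 0x0) (nat_lit 0xe77ef85567be3b)
  (PL.C (nat_lit 0x2ef501e) (nat_lit 0x991b2367a2c663) (nat_lit 0x0)
  (PL.C (nat_lit 0x2f18b8f) (nat_lit 0x217cf55c78c3498c) (nat_lit 0x0)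
  (PL.C (nat_lit 0x2f23b58) (nat_lit 0x0) (nat_lit 0x18886058af539)
  (PL.C (nat_lit 0x2f3b026) (nat_lit 0x2696b990ae60148) (nat_lit 0x0)
  (PL.C (nat_lit 0x2f560a7) (nat_lit 0xdd4c0b2fba7601) (nat_lit 0x0)
  (PL.C (nat_lit 0x2f5beda) (nat_lit 0x0) (nat_lit 0x804e0b3a06ae687)
  (PL.C (nat_lit 0x2f61bfc) (nat_lit 0x470f83bdaa7594) (nat_lit 0x0)
  (PL.C (nat_lit 0x2f909c7) (nat_lit 0x0) (nat_lit 0x1262c19652c510)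
  (PL.C (nat_lit 0x2f9996a) (nat_lit 0x0) (nat_lit 0xa76691a8073bfe)
  (PL.C (nat_lit 0x2fb1696) (nat_lit 0x0) (nat_lit 0x1f3c302ded25ce)
  (PL.C (nat_lit 0x2fb99dd) (nat_lit 0x171d1c31d500f9) (nat_lit 0x0)
  (PL.C (nat_lit 0x2fcca36) (nat_lit 0x0) (nat_lit 0x6d8da4a414c0)
  (PL.C (nat_lit 0x2fd088e) (nat_lit 0x1c1004f594a4269) (nat_lit 0x0)
  (PL.C (nat_lit 0x2fe2d9a) (nat_lit 0x0) (nat_lit 0x8c3f298ea5904d)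
  (PL.C (nat_lit 0x2fe8772) (nat_lit 0xd603a92aaa09df) (nat_lit 0x0)
  (PL.C (nat_lit 0x30027c6) (nat_lit 0x0) (nat_lit 0x211b032f69a228e)
  (PL.C (nat_lit 0x3013e8a) (nat_lit 0x17b16ebdcfe732e) (nat_lit 0x0)
  (PL.C (nat_lit 0x3016e1f) (nat_lit 0x0) (nat_lit 0x414f0b5e086504d)
  (PL.C (nat_lit 0x301a83a) (nat_lit 0xaee9e42552bba7) (nat_lit 0x0) gp2_0_124))))))))))))))))))))

noncomputable def gp2_0_122 : PL :=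
  (PL.C (nat_lit 0x2d70f59) (nat_lit 0x1f778b38178c39) (nat_lit 0x0)
  (PL.C (nat_lit 0x2d79b8a) (nat_lit 0x0) (nat_lit 0x3f44f045d98be8)
  (PL.C (nat_lit 0x2d8d0a9) (nat_lit 0x0) (nat_lit 0x14545838a2e08af)
  (PL.C (nat_lit 0x2d9e274) (nat_lit 0x97468242bdc6e) (nat_lit 0x0)
  (PL.C (nat_lit 0x2da0ece) (nat_lit 0x121d2375fcd113b) (nat_lit 0x0)
  (PL.C (nat_lit 0x2da90c5) (nat_lit 0x0) (nat_lit 0x104c20202d33c45)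
  (PL.C (nat_lit 0x2db5ab4) (nat_lit 0xee3c8da537c52) (nat_lit 0x0)
  (PL.C (nat_lit 0x2dbfcd3) (nat_lit 0x0) (nat_lit 0x55237267f0aacc)
  (PL.C (nat_lit 0x2dd2cfc) (nat_lit 0x0) (nat_lit 0x955987e72874d3)
  (PL.C (nat_lit 0x2dd6b2d) (nat_lit 0x0) (nat_lit 0x2eb5c8ed6955d1e)
  (PL.C (nat_lit 0x2de45d4) (nat_lit 0x0) (nat_lit 0x267689a2999e67)
  (PL.C (nat_lit 0x2df0ddd) (nat_lit 0x3d6e27884dceae) (nat_lit 0x0)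
  (PL.C (nat_lit 0x2df7503) (nat_lit 0x218a917d5dddb9) (nat_lit 0x0)
  (PL.C (nat_lit 0x2df793e) (nat_lit 0x0) (nat_lit 0x14cae0821d3f878)
  (PL.C (nat_lit 0x2e163ae) (nat_lit 0x1c69de35197c903) (nat_lit 0x0)
  (PL.C (nat_lit 0x2e1f34a) (nat_lit 0x0) (nat_lit 0x8e542b2eb44e273)
  (PL.C (nat_lit 0x2e48c04) (nat_lit 0x0) (nat_lit 0x8879fd1f637859)
  (PL.C (nat_lit 0x2ebbab1) (nat_lit 0xaa469adb740c19a) (nat_lit 0x0)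
  (PL.C (nat_lit 0x2ebcb68) (nat_lit 0x0) (nat_lit 0x27203e18b3ad32)
  (PL.C (nat_lit 0x2ebf9db) (nat_lit 0x14d21bd1cf686f) (nat_lit 0x0) gp2_0_123))))))))))))))))))))

noncomputable def gp2_0_121 : PL :=
  (PL.C (nat_lit 0x2c1ce16) (nat_lit 0xa7bc5fd8927a2f) (nat_lit 0x0)
  (PL.C (nat_lit 0x2c20239) (nat_lit 0x3c84c429dd03ca) (nat_lit 0x0)
  (PL.C (nat_lit 0x2c235d2) (nat_lit 0x169a0fc613812e) (nat_lit 0x0)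
  (PL.C (nat_lit 0x2c2dc72) (nat_lit 0x0) (nat_lit 0xa479412eea7ba90)
  (PL.C (nat_lit 0x2c4af6e) (nat_lit 0x0) (nat_lit 0x376e076a544bf50)
  (PL.C (nat_lit 0x2c56506) (nat_lit 0x146e32ae1c2581b) (nat_lit 0x0)
  (PL.C (nat_lit 0x2c5dc83) (nat_lit 0x1c4c3aa0c4ae66a9) (nat_lit 0x0)
  (PL.C (nat_lit 0x2c674c2) (nat_lit 0x0) (nat_lit 0xb144501c0b0f50)
  (PL.C (nat_lit 0x2c6c076) (nat_lit 0x30c5ba066b5c0e) (nat_lit 0x0)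
  (PL.C (nat_lit 0x2c84a1e) (nat_lit 0x46ff158336d078) (nat_lit 0x0)
  (PL.C (nat_lit 0x2c92532) (nat_lit 0x0) (nat_lit 0x253061a3a098511)
  (PL.C (nat_lit 0x2c978bb) (nat_lit 0x829b78230b7a099) (nat_lit 0x0)
  (PL.C (nat_lit 0x2cb1e82) (nat_lit 0x47e5ff6c57ee08) (nat_lit 0x0)
  (PL.C (nat_lit 0x2cb5015) (nat_lit 0x19e606ee5fe67a6) (nat_lit 0x0)
  (PL.C (nat_lit 0x2cf1d14) (nat_lit 0x662209a42d9c3) (nat_lit 0x0)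
  (PL.C (nat_lit 0x2d165c6) (nat_lit 0x7426a2506413c3) (nat_lit 0x0)
  (PL.C (nat_lit 0x2d1dd8a) (nat_lit 0x5dda95967541a3) (nat_lit 0x0)
  (PL.C (nat_lit 0x2d2d9a6) (nat_lit 0x0) (nat_lit 0x13d4611a6e2a57)
  (PL.C (nat_lit 0x2d4a682) (nat_lit 0x0) (nat_lit 0x1cf546b3eeec349)
  (PL.C (nat_lit 0x2d5bc16) (nat_lit 0x0) (nat_lit 0x473fa16bc4e659) gp2_0_122))))))))))))))))))))

noncomputable def gp2_0_120 : PL :=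
  (PL.C (nat_lit 0x2b2af29) (nat_lit 0x129895f68bec32) (nat_lit 0x0)
  (PL.C (nat_lit 0x2b344c9) (nat_lit 0x0) (nat_lit 0x2c9bf599b087ebc)
  (PL.C (nat_lit 0x2b3fad6) (nat_lit 0x227ce04913b0181) (nat_lit 0x0)
  (PL.C (nat_lit 0x2b408d7) (nat_lit 0x4c36469356d3b7) (nat_lit 0x0)
  (PL.C (nat_lit 0x2b44492) (nat_lit 0x26c9fa7673e48d4) (nat_lit 0x0)
  (PL.C (nat_lit 0x2b4d267) (nat_lit 0x0) (nat_lit 0xad6ea1174fe53b)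
  (PL.C (nat_lit 0x2b5552a) (nat_lit 0x1ad061fc00ea596) (nat_lit 0x0)
  (PL.C (nat_lit 0x2b55955) (nat_lit 0x0) (nat_lit 0x1ef10213b9d59a9)
  (PL.C (nat_lit 0x2b593e7) (nat_lit 0x0) (nat_lit 0xd861602dd4119)
  (PL.C (nat_lit 0x2b71f36) (nat_lit 0x24cdedd33ce68dc) (nat_lit 0x0)
  (PL.C (nat_lit 0x2b7c9e2) (nat_lit 0x741175adb759e5) (nat_lit 0x0)
  (PL.C (nat_lit 0x2b8f597) (nat_lit 0x4afe5eda4db5fb) (nat_lit 0x0)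
  (PL.C (nat_lit 0x2b9261e) (nat_lit 0x0) (nat_lit 0x134a224195172a)
  (PL.C (nat_lit 0x2ba8d7e) (nat_lit 0x3a73aa439a4ff) (nat_lit 0x0)
  (PL.C (nat_lit 0x2babdeb) (nat_lit 0x3344a212815106a) (nat_lit 0x0)
  (PL.C (nat_lit 0x2bc8a0c) (nat_lit 0x0) (nat_lit 0x3c1b86a5cd4574)
  (PL.C (nat_lit 0x2bd74dc) (nat_lit 0x353dc3c1c39e257) (nat_lit 0x0)
  (PL.C (nat_lit 0x2bea302) (nat_lit 0x0) (nat_lit 0x4927530d1dd375e)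
  (PL.C (nat_lit 0x2bf2672) (nat_lit 0x3c8dfe57f4a41c) (nat_lit 0x0)
  (PL.C (nat_lit 0x2c189a3) (nat_lit 0x15f8363f4e10225) (nat_lit 0x0) gp2_0_121))))))))))))))))))))

noncomputable def gp2_0_119 : PL :=
  (PL.C (nat_lit 0x299faa2) (nat_lit 0xe39a0cac63f71e) (nat_lit 0x0)
  (PL.C (nat_lit 0x29b7ba2) (nat_lit 0x0) (nat_lit 0x5b8e9f8e717c69d)
  (PL.C (nat_lit 0x29d2abd) (nat_lit 0x87901657724622) (nat_lit 0x0)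
  (PL.C (nat_lit 0x29d8c7e) (nat_lit 0x25f9614d46fcc20) (nat_lit 0x0)
  (PL.C (nat_lit 0x29e0b09) (nat_lit 0xdef14885ddce90) (nat_lit 0x0)
  (PL.C (nat_lit 0x29e477e) (nat_lit 0x0) (nat_lit 0x135688853ea8df)
  (PL.C (nat_lit 0x29eb0c4) (nat_lit 0x2dcdeb70b7a46f) (nat_lit 0x0)
  (PL.C (nat_lit 0x29fc444) (nat_lit 0x0) (nat_lit 0xcda1f7bae547f)
  (PL.C (nat_lit 0x2a0e7b6) (nat_lit 0x0) (nat_lit 0x241f6a2d8569162)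
  (PL.C (nat_lit 0x2a34137) (nat_lit 0x17bc28a529be34d) (nat_lit 0x0)
  (PL.C (nat_lit 0x2a3e83c) (nat_lit 0x1bf83d4ec291f87) (nat_lit 0x0)
  (PL.C (nat_lit 0x2a56d04) (nat_lit 0x0) (nat_lit 0x64b25b210e65ce4)
  (PL.C (nat_lit 0x2a5e0cc) (nat_lit 0x6622d1275282ef) (nat_lit 0x0)
  (PL.C (nat_lit 0x2a63c75) (nat_lit 0x3d6e27884dceae) (nat_lit 0x0)
  (PL.C (nat_lit 0x2a704ca) (nat_lit 0x5e4362ae56a4db9) (nat_lit 0x0)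
  (PL.C (nat_lit 0x2a81441) (nat_lit 0x0) (nat_lit 0x3e662cd116f392)
  (PL.C (nat_lit 0x2ac2af9) (nat_lit 0x8dd41871cb8df7) (nat_lit 0x0)
  (PL.C (nat_lit 0x2adeef7) (nat_lit 0x5b80484719fddc) (nat_lit 0x0)
  (PL.C (nat_lit 0x2b036c1) (nat_lit 0x0) (nat_lit 0x44ade341e60172e)
  (PL.C (nat_lit 0x2b17d47) (nat_lit 0x0) (nat_lit 0x5c4c3cce22ee93) gp2_0_120))))))))))))))))))))

noncomputable def gp2_0_118 : PL :=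
  (PL.C (nat_lit 0x28e39cf) (nat_lit 0x0) (nat_lit 0x251ca8e0248f19)
  (PL.C (nat_lit 0x28e4bec) (nat_lit 0x5ea2319a299778) (nat_lit 0x0)
  (PL.C (nat_lit 0x28f273c) (nat_lit 0xea9509d9127445) (nat_lit 0x0)
  (PL.C (nat_lit 0x28f73fa) (nat_lit 0x0) (nat_lit 0x16beca812db7e41)
  (PL.C (nat_lit 0x290bc06) (nat_lit 0x0) (nat_lit 0x369f7c67867d9b4)
  (PL.C (nat_lit 0x2923c2f) (nat_lit 0x0) (nat_lit 0x2766818e4bdf8281)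
  (PL.C (nat_lit 0x2930f8e) (nat_lit 0x0) (nat_lit 0x24c6c7ce9243655)
  (PL.C (nat_lit 0x2942b71) (nat_lit 0x0) (nat_lit 0x866eecc453e094)
  (PL.C (nat_lit 0x2943fc4) (nat_lit 0x498365261f2c7b7) (nat_lit 0x0)
  (PL.C (nat_lit 0x2945816) (nat_lit 0x0) (nat_lit 0x6eecb869311e6b)
  (PL.C (nat_lit 0x29547ba) (nat_lit 0x0) (nat_lit 0x138c76fd12f96b9)
  (PL.C (nat_lit 0x2956756) (nat_lit 0x3645f0788b9e56) (nat_lit 0x0)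
  (PL.C (nat_lit 0x2957fc1) (nat_lit 0x62d8a8b9435fc2) (nat_lit 0x0)
  (PL.C (nat_lit 0x296634a) (nat_lit 0x0) (nat_lit 0xebcb0706e96c9d)
  (PL.C (nat_lit 0x2971c4a) (nat_lit 0x2d8981713c974f) (nat_lit 0x0)
  (PL.C (nat_lit 0x2972a0c) (nat_lit 0xe9ed0c57953f16) (nat_lit 0x0)
  (PL.C (nat_lit 0x29875f4) (nat_lit 0x4d6b4f21144949) (nat_lit 0x0)
  (PL.C (nat_lit 0x298f75c) (nat_lit 0x0) (nat_lit 0x67f9abdfe0bfcb)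
  (PL.C (nat_lit 0x29914a5) (nat_lit 0x3fd782577774b79) (nat_lit 0x0)
  (PL.C (nat_lit 0x299da47) (nat_lit 0x0) (nat_lit 0x4b1e37aba9df04) gp2_0_119))))))))))))))))))))

noncomputable def gp2_0_117 : PL :=
  (PL.C (nat_lit 0x27b0e3e) (nat_lit 0x0) (nat_lit 0xcaf589ab3b5e5f)
  (PL.C (nat_lit 0x27c1c0b) (nat_lit 0x0) (nat_lit 0x6c1049b557521e2)
  (PL.C (nat_lit 0x27cee33) (nat_lit 0x0) (nat_lit 0x631cc28d86e512)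
  (PL.C (nat_lit 0x27d85d8) (nat_lit 0x3d3c6ff17cbd79) (nat_lit 0x0)
  (PL.C (nat_lit 0x27e683e) (nat_lit 0x0) (nat_lit 0x77ab52bc92b1435)
  (PL.C (nat_lit 0x27e9874) (nat_lit 0x2adacc6a9ed528) (nat_lit 0x0)
  (PL.C (nat_lit 0x27fa7c2) (nat_lit 0x983a09e3cd554e9) (nat_lit 0x0)
  (PL.C (nat_lit 0x281a76e) (nat_lit 0x10b9ff4ac894e19) (nat_lit 0x0)
  (PL.C (nat_lit 0x282c8e9) (nat_lit 0x20f9fe448e193d0) (nat_lit 0x0)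
  (PL.C (nat_lit 0x282e892) (nat_lit 0x33f8641d50b5f) (nat_lit 0x0)
  (PL.C (nat_lit 0x284914e) (nat_lit 0x43ab3b99d0d68b) (nat_lit 0x0)
  (PL.C (nat_lit 0x2850bea) (nat_lit 0x0) (nat_lit 0x33216402a2d99c)
  (PL.C (nat_lit 0x286e184) (nat_lit 0x126029e2559d163) (nat_lit 0x0)
  (PL.C (nat_lit 0x28788ed) (nat_lit 0x0) (nat_lit 0x1a81a6328324)
  (PL.C (nat_lit 0x287bfb6) (nat_lit 0x0) (nat_lit 0x119da32790c5dc3)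
  (PL.C (nat_lit 0x288715e) (nat_lit 0x0) (nat_lit 0x7935d930aa905b)
  (PL.C (nat_lit 0x28984db) (nat_lit 0x0) (nat_lit 0xfd209412e4cab7)
  (PL.C (nat_lit 0x28b31f5) (nat_lit 0x2c1add75695229f) (nat_lit 0x0)
  (PL.C (nat_lit 0x28c22ea) (nat_lit 0x0) (nat_lit 0xf3bff7370ea14f4)
  (PL.C (nat_lit 0x28d1beb) (nat_lit 0x3d92d614de1eab) (nat_lit 0x0) gp2_0_118))))))))))))))))))))

noncomputable def gp2_0_116 : PL :=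
  (PL.C (nat_lit 0x26c4fec) (nat_lit 0x724efbe1db452dc) (nat_lit 0x0)
  (PL.C (nat_lit 0x26c8011) (nat_lit 0x159116838bc1d) (nat_lit 0x0)
  (PL.C (nat_lit 0x26cdab6) (nat_lit 0x0) (nat_lit 0xac04add14bca9f)
  (PL.C (nat_lit 0x26d500d) (nat_lit 0x66de7d5fe400d) (nat_lit 0x0)
  (PL.C (nat_lit 0x26ef1f2) (nat_lit 0x25ac0e9c6ecf460) (nat_lit 0x0)
  (PL.C (nat_lit 0x26ff799) (nat_lit 0x492e4116af6a35f) (nat_lit 0x0)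
  (PL.C (nat_lit 0x2712314) (nat_lit 0xdb2bb529bba338) (nat_lit 0x0)
  (PL.C (nat_lit 0x2717cba) (nat_lit 0x0) (nat_lit 0x86acc3054f15ad)
  (PL.C (nat_lit 0x271ba41) (nat_lit 0x0) (nat_lit 0x66ab2f83b2ecfc)
  (PL.C (nat_lit 0x2722533) (nat_lit 0x0) (nat_lit 0xaaa4202ce88869)
  (PL.C (nat_lit 0x27397da) (nat_lit 0xa294c44e0e4f57) (nat_lit 0x0)
  (PL.C (nat_lit 0x2742894) (nat_lit 0x0) (nat_lit 0xcacfadf3b42ee)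
  (PL.C (nat_lit 0x275a2b2) (nat_lit 0x989827a5282049) (nat_lit 0x0)
  (PL.C (nat_lit 0x276461c) (nat_lit 0x73012e4ecc0fbe) (nat_lit 0x0)
  (PL.C (nat_lit 0x2773335) (nat_lit 0x0) (nat_lit 0x8dcec477caad6a6)
  (PL.C (nat_lit 0x2776887) (nat_lit 0x1150123a68a48) (nat_lit 0x0)
  (PL.C (nat_lit 0x27814e8) (nat_lit 0x18094fdf661109) (nat_lit 0x0)
  (PL.C (nat_lit 0x2783c2b) (nat_lit 0x0) (nat_lit 0x8e92e6eeec8e0)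
  (PL.C (nat_lit 0x2783fce) (nat_lit 0x0) (nat_lit 0x785a4516c1b5c61)
  (PL.C (nat_lit 0x279252c) (nat_lit 0x0) (nat_lit 0xb2814404c17ab) gp2_0_117))))))))))))))))))))

noncomputable def gp2_0_115 : PL :=
  (PL.C (nat_lit 0x25cb552) (nat_lit 0x6a4408c7ca8856c) (nat_lit 0x0)
  (PL.C (nat_lit 0x25d4489) (nat_lit 0x65c7b9618b4e71) (nat_lit 0x0)
  (PL.C (nat_lit 0x25d9c37) (nat_lit 0x0) (nat_lit 0x8b7d26148429c)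
  (PL.C (nat_lit 0x25e83cb) (nat_lit 0x0) (nat_lit 0x2cc864a889878ad)
  (PL.C (nat_lit 0x25eb61c) (nat_lit 0x0) (nat_lit 0xbb126b250eab39)
  (PL.C (nat_lit 0x25ed467) (nat_lit 0x968954106a9fa) (nat_lit 0x0)
  (PL.C (nat_lit 0x25fc8a2) (nat_lit 0x7085efe3cc621f) (nat_lit 0x0)
  (PL.C (nat_lit 0x261387e) (nat_lit 0xcbb95e014c315a4) (nat_lit 0x0)
  (PL.C (nat_lit 0x26232be) (nat_lit 0x0) (nat_lit 0x18698395d93a2cf)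
  (PL.C (nat_lit 0x2625d0b) (nat_lit 0x0) (nat_lit 0x2f28448bb7d43f8)
  (PL.C (nat_lit 0x262be32) (nat_lit 0x0) (nat_lit 0x10a508fc53a2957)
  (PL.C (nat_lit 0x262ff46) (nat_lit 0x0) (nat_lit 0x6f204d6f8452d7b)
  (PL.C (nat_lit 0x2640675) (nat_lit 0x2c1add75695229f) (nat_lit 0x0)
  (PL.C (nat_lit 0x26451ae) (nat_lit 0x67a267272e0355) (nat_lit 0x0)
  (PL.C (nat_lit 0x265c07d) (nat_lit 0x36606e343d1b1f) (nat_lit 0x0)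
  (PL.C (nat_lit 0x2696084) (nat_lit 0x226f6e56a91743) (nat_lit 0x0)
  (PL.C (nat_lit 0x269e95f) (nat_lit 0x0) (nat_lit 0x273cb130d0254fe)
  (PL.C (nat_lit 0x26a2f74) (nat_lit 0xe55353111e3a7) (nat_lit 0x0)
  (PL.C (nat_lit 0x26b1ea1) (nat_lit 0x163aa92b6afc308) (nat_lit 0x0)
  (PL.C (nat_lit 0x26c2616) (nat_lit 0x0) (nat_lit 0xa38fa1a692256c) gp2_0_116))))))))))))))))))))

noncomputable def gp2_0_114 : PL :=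
  (PL.C (nat_lit 0x24fd13c) (nat_lit 0xb473bd748da042) (nat_lit 0x0)
  (PL.C (nat_lit 0x2502e2e) (nat_lit 0x0) (nat_lit 0x16c43c6c018a58)
  (PL.C (nat_lit 0x250c599) (nat_lit 0x0) (nat_lit 0x116e86908ccff3)
  (PL.C (nat_lit 0x251228a) (nat_lit 0x0) (nat_lit 0x6f39f97a922b57c)
  (PL.C (nat_lit 0x2531b82) (nat_lit 0x0) (nat_lit 0x368fdcefd09400)
  (PL.C (nat_lit 0x253956f) (nat_lit 0x3423bb22be99178) (nat_lit 0x0)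
  (PL.C (nat_lit 0x254096d) (nat_lit 0x25f3b9e9e0338d2) (nat_lit 0x0)
  (PL.C (nat_lit 0x254c952) (nat_lit 0x6577f09a2cd16) (nat_lit 0x0)
  (PL.C (nat_lit 0x2555c06) (nat_lit 0x0) (nat_lit 0x10a508fc53a2957)
  (PL.C (nat_lit 0x2562252) (nat_lit 0x69044f6dfa9f0b) (nat_lit 0x0)
  (PL.C (nat_lit 0x2563da6) (nat_lit 0x0) (nat_lit 0x45e921477aff560)
  (PL.C (nat_lit 0x2573bcf) (nat_lit 0x0) (nat_lit 0x136d0535da8e4640)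
  (PL.C (nat_lit 0x2574dae) (nat_lit 0x63d03105f99f27) (nat_lit 0x0)
  (PL.C (nat_lit 0x2581cec) (nat_lit 0x808b8be43d583) (nat_lit 0x0)
  (PL.C (nat_lit 0x2587101) (nat_lit 0x8eda26715930e) (nat_lit 0x0)
  (PL.C (nat_lit 0x258a3ce) (nat_lit 0xa9bf2e57e2f2be) (nat_lit 0x0)
  (PL.C (nat_lit 0x25a017a) (nat_lit 0x0) (nat_lit 0x1028966af17cc42)
  (PL.C (nat_lit 0x25bac0a) (nat_lit 0x117c540d0ce2043) (nat_lit 0x0)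
  (PL.C (nat_lit 0x25c2e24) (nat_lit 0xa76c60d80bb2cf) (nat_lit 0x0)
  (PL.C (nat_lit 0x25c7662) (nat_lit 0x2c1a45e9a6aa79) (nat_lit 0x0) gp2_0_115))))))))))))))))))))

noncomputable def gp2_0_113 : PL :=
  (PL.C (nat_lit 0x23a922c) (nat_lit 0x0) (nat_lit 0x1eaee701917f691)
  (PL.C (nat_lit 0x23aed21) (nat_lit 0x0) (nat_lit 0x7aab9024fa89ce)
  (PL.C (nat_lit 0x23c49bc) (nat_lit 0x6a4f84c6444c459) (nat_lit 0x0)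
  (PL.C (nat_lit 0x23c664f) (nat_lit 0x0) (nat_lit 0xb76ce6a9aff0d7)
  (PL.C (nat_lit 0x23c7a14) (nat_lit 0x6a4e4741d397fb) (nat_lit 0x0)
  (PL.C (nat_lit 0x23cf8fb) (nat_lit 0x42beff21e0c9fd) (nat_lit 0x0)
  (PL.C (nat_lit 0x23d516f) (nat_lit 0x0) (nat_lit 0x25ded0b628e600)
  (PL.C (nat_lit 0x2400081) (nat_lit 0x41fdfd225ef097) (nat_lit 0x0)
  (PL.C (nat_lit 0x240bd44) (nat_lit 0x9bbbcb5042c8b10) (nat_lit 0x0)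
  (PL.C (nat_lit 0x2441022) (nat_lit 0x1e76a3730c2034) (nat_lit 0x0)
  (PL.C (nat_lit 0x246e758) (nat_lit 0x0) (nat_lit 0x7081199ffab707)
  (PL.C (nat_lit 0x2470b8d) (nat_lit 0x1558135683744d3) (nat_lit 0x0)
  (PL.C (nat_lit 0x2494b69) (nat_lit 0xd295f4f25e7075) (nat_lit 0x0)
  (PL.C (nat_lit 0x249a572) (nat_lit 0x0) (nat_lit 0x21823b492b11bd7)
  (PL.C (nat_lit 0x24aca8e) (nat_lit 0xc1bddbffc8b83b) (nat_lit 0x0)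
  (PL.C (nat_lit 0x24bebe8) (nat_lit 0x0) (nat_lit 0x5d87bd62dacb3c)
  (PL.C (nat_lit 0x24c24f1) (nat_lit 0x984a1a70e589165) (nat_lit 0x0)
  (PL.C (nat_lit 0x24da97f) (nat_lit 0x0) (nat_lit 0x27fe10c188bd65)
  (PL.C (nat_lit 0x24dd8d7) (nat_lit 0x0) (nat_lit 0x1e21451be9fb101)
  (PL.C (nat_lit 0x24e6abc) (nat_lit 0x0) (nat_lit 0x76026ed7f6ce04) gp2_0_114))))))))))))))))))))

noncomputable def gp2_0_112 : PL :=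
  (PL.C (nat_lit 0x22e6885) (nat_lit 0x0) (nat_lit 0x194e056c9ff3e04)
  (PL.C (nat_lit 0x22ee823) (nat_lit 0x0) (nat_lit 0x9857f0ee433b5b)
  (PL.C (nat_lit 0x22f23b1) (nat_lit 0x0) (nat_lit 0x2d7a371f68ee72a)
  (PL.C (nat_lit 0x22fffdd) (nat_lit 0x0) (nat_lit 0x9af9f72eeffbff)
  (PL.C (nat_lit 0x23093e4) (nat_lit 0x0) (nat_lit 0x337123911b005e)
  (PL.C (nat_lit 0x2313f8d) (nat_lit 0x145cfcfaeeb07f) (nat_lit 0x0)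
  (PL.C (nat_lit 0x23155cc) (nat_lit 0x0) (nat_lit 0x27c93ff83a7cd73)
  (PL.C (nat_lit 0x23171d3) (nat_lit 0x1cee72874f7e368) (nat_lit 0x0)
  (PL.C (nat_lit 0x23230aa) (nat_lit 0x0) (nat_lit 0x1eb7cc76dea65d6)
  (PL.C (nat_lit 0x2325873) (nat_lit 0x14746e8709f2b5) (nat_lit 0x0)
  (PL.C (nat_lit 0x23375aa) (nat_lit 0x0) (nat_lit 0x4f3df1d3f9921d5)
  (PL.C (nat_lit 0x2359eed) (nat_lit 0x0) (nat_lit 0x517f5b4b4270a9)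
  (PL.C (nat_lit 0x235d1f6) (nat_lit 0x129efd478fc6c87) (nat_lit 0x0)
  (PL.C (nat_lit 0x2362ad4) (nat_lit 0x0) (nat_lit 0x222a735afc4e1b8)
  (PL.C (nat_lit 0x2368f9e) (nat_lit 0x0) (nat_lit 0x9a095f98d49272)
  (PL.C (nat_lit 0x2372c38) (nat_lit 0x338a015002df5a) (nat_lit 0x0)
  (PL.C (nat_lit 0x2372fb5) (nat_lit 0x0) (nat_lit 0x255d72262d25f9)
  (PL.C (nat_lit 0x23783a9) (nat_lit 0x163b2b1a64dc80c) (nat_lit 0x0)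
  (PL.C (nat_lit 0x23a12c3) (nat_lit 0x0) (nat_lit 0x83d14a14ae66862)
  (PL.C (nat_lit 0x23a16ac) (nat_lit 0x0) (nat_lit 0x27fe705cbe8c1b) gp2_0_113))))))))))))))))))))

noncomputable def gp2_0_111 : PL :=
  (PL.C (nat_lit 0x21cca17) (nat_lit 0x75ee0ac525bc6a4) (nat_lit 0x0)
  (PL.C (nat_lit 0x21e9c4d) (nat_lit 0x0) (nat_lit 0xee36227add9df6b)
  (PL.C (nat_lit 0x21f8013) (nat_lit 0x874ba0fc95f6ec) (nat_lit 0x0)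
  (PL.C (nat_lit 0x2208512) (nat_lit 0x0) (nat_lit 0x2ff0b8b763185df)
  (PL.C (nat_lit 0x221ecce) (nat_lit 0x5ce3efff5f7665d) (nat_lit 0x0)
  (PL.C (nat_lit 0x221ffcc) (nat_lit 0x0) (nat_lit 0x7ffddb1b4d4c7d)
  (PL.C (nat_lit 0x2227c94) (nat_lit 0x0) (nat_lit 0x1d09658bde73b5)
  (PL.C (nat_lit 0x222cd0e) (nat_lit 0x0) (nat_lit 0x7f3292ce9a5404)
  (PL.C (nat_lit 0x22326d2) (nat_lit 0x10ffa9fb9d36fa9) (nat_lit 0x0)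
  (PL.C (nat_lit 0x2238456) (nat_lit 0xe5461ef4b46b29) (nat_lit 0x0)
  (PL.C (nat_lit 0x224702d) (nat_lit 0x0) (nat_lit 0x2c9bf599b087ebc)
  (PL.C (nat_lit 0x224c6ac) (nat_lit 0x0) (nat_lit 0x95d667e744f9bf)
  (PL.C (nat_lit 0x224f7d4) (nat_lit 0x124979be1ef7f0e) (nat_lit 0x0)
  (PL.C (nat_lit 0x225d954) (nat_lit 0x3883823b3226e7) (nat_lit 0x0)
  (PL.C (nat_lit 0x225ff72) (nat_lit 0x0) (nat_lit 0x10134eec924d3f)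
  (PL.C (nat_lit 0x2290d2c) (nat_lit 0x0) (nat_lit 0xbde251fc594c94)
  (PL.C (nat_lit 0x22a950c) (nat_lit 0x3c4ce6d5656332) (nat_lit 0x0)
  (PL.C (nat_lit 0x22abb7e) (nat_lit 0x1ac6c841b2d8eab) (nat_lit 0x0)
  (PL.C (nat_lit 0x22ba72b) (nat_lit 0x492e4116af6a35f) (nat_lit 0x0)
  (PL.C (nat_lit 0x22d6eee) (nat_lit 0x16ae146d59d48eb) (nat_lit 0x0) gp2_0_112))))))))))))))))))))

noncomputable def gp2_0_110 : PL :=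
  (PL.C (nat_lit 0x20f6886) (nat_lit 0x0) (nat_lit 0x2d32e344e2bf07)
  (PL.C (nat_lit 0x2107866) (nat_lit 0x138e9ee7222d31c) (nat_lit 0x0)
  (PL.C (nat_lit 0x2116785) (nat_lit 0x1cd47660340860a) (nat_lit 0x0)
  (PL.C (nat_lit 0x212707b) (nat_lit 0x11f03fe9d154f17) (nat_lit 0x0)
  (PL.C (nat_lit 0x21381eb) (nat_lit 0x0) (nat_lit 0x6f40f60cd56a57)
  (PL.C (nat_lit 0x2139f4b) (nat_lit 0x37147a7350672b) (nat_lit 0x0)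
  (PL.C (nat_lit 0x2140628) (nat_lit 0x0) (nat_lit 0x3bd59fd46c21e)
  (PL.C (nat_lit 0x214d4c9) (nat_lit 0x237b5874b44ddaa) (nat_lit 0x0)
  (PL.C (nat_lit 0x2154732) (nat_lit 0x27811c796e3205) (nat_lit 0x0)
  (PL.C (nat_lit 0x215b786) (nat_lit 0x0) (nat_lit 0x30ec0ed6b0fdf71)
  (PL.C (nat_lit 0x2161c65) (nat_lit 0x36f68fbddde200) (nat_lit 0x0)
  (PL.C (nat_lit 0x217016d) (nat_lit 0x0) (nat_lit 0xd9bc2b0bcc30b3)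
  (PL.C (nat_lit 0x217a1f6) (nat_lit 0x0) (nat_lit 0xb957c44f757038)
  (PL.C (nat_lit 0x218402c) (nat_lit 0x0) (nat_lit 0x1eaee701917f691)
  (PL.C (nat_lit 0x2186491) (nat_lit 0x0) (nat_lit 0x8dbc8e5577012c)
  (PL.C (nat_lit 0x218ae0a) (nat_lit 0x34e85a881c16fa) (nat_lit 0x0)
  (PL.C (nat_lit 0x219b2fe) (nat_lit 0x0) (nat_lit 0x51c99606767438)
  (PL.C (nat_lit 0x219e7f9) (nat_lit 0x53c07ff0c92040) (nat_lit 0x0)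
  (PL.C (nat_lit 0x21b828a) (nat_lit 0x1d5c5d21caee3ed) (nat_lit 0x0)
  (PL.C (nat_lit 0x21bfef4) (nat_lit 0x0) (nat_lit 0x6be095c171c016) gp2_0_111))))))))))))))))))))

noncomputable def gp2_0_109 : PL :=
  (PL.C (nat_lit 0x2023fbc) (nat_lit 0x1b5b360a8f32e8) (nat_lit 0x0)
  (PL.C (nat_lit 0x20246f6) (nat_lit 0x0) (nat_lit 0x5489ec21e2be96d)
  (PL.C (nat_lit 0x203a2f7) (nat_lit 0x5f41e60aa5a1fc1) (nat_lit 0x0)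
  (PL.C (nat_lit 0x203b028) (nat_lit 0x0) (nat_lit 0x78a44957f1f7)
  (PL.C (nat_lit 0x203c6de) (nat_lit 0x0) (nat_lit 0x5818adbbe2f1fee)
  (PL.C (nat_lit 0x204a509) (nat_lit 0x0) (nat_lit 0x38096660eb45b1)
  (PL.C (nat_lit 0x205a3cc) (nat_lit 0x0) (nat_lit 0x1fa6a0cb3461f1a)
  (PL.C (nat_lit 0x205cbf9) (nat_lit 0x0) (nat_lit 0x6b922d7a86f55e)
  (PL.C (nat_lit 0x206424f) (nat_lit 0x0) (nat_lit 0xd1ffb966b1d65a)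
  (PL.C (nat_lit 0x20745b1) (nat_lit 0xc9a6905a5de49a) (nat_lit 0x0)
  (PL.C (nat_lit 0x207cef4) (nat_lit 0x13fb61e81ca3c0) (nat_lit 0x0)
  (PL.C (nat_lit 0x207d642) (nat_lit 0x0) (nat_lit 0x1570daf59285f16c)
  (PL.C (nat_lit 0x2089cbf) (nat_lit 0x0) (nat_lit 0x1e1be700bdf2bb)
  (PL.C (nat_lit 0x2092994) (nat_lit 0x0) (nat_lit 0xcfc506b04f12c)
  (PL.C (nat_lit 0x2099d1b) (nat_lit 0x0) (nat_lit 0x58178d163928ca)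
  (PL.C (nat_lit 0x209d844) (nat_lit 0x0) (nat_lit 0x213dee68526c095)
  (PL.C (nat_lit 0x20a64e9) (nat_lit 0x8e8ba80d7c5e87) (nat_lit 0x0)
  (PL.C (nat_lit 0x20a7b12) (nat_lit 0x4e2428bf466fc8) (nat_lit 0x0)
  (PL.C (nat_lit 0x20bbe07) (nat_lit 0x31b19716db1e7) (nat_lit 0x0)
  (PL.C (nat_lit 0x20eb9bd) (nat_lit 0x0) (nat_lit 0x266449ffa591475a) gp2_0_110))))))))))))))))))))

noncomputable def gp2_0_108 : PL :=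
  (PL.C (nat_lit 0x1f57593) (nat_lit 0x0) (nat_lit 0x676f12174f348fd)
  (PL.C (nat_lit 0x1f65d0a) (nat_lit 0x1b84ba25a7d84278) (nat_lit 0x0)
  (PL.C (nat_lit 0x1f725e1) (nat_lit 0x1ffbd676c9ea044) (nat_lit 0x0)
  (PL.C (nat_lit 0x1f7cac4) (nat_lit 0xcf09798556629a) (nat_lit 0x0)
  (PL.C (nat_lit 0x1f8eb1a) (nat_lit 0x0) (nat_lit 0x359c61bbbdfc67a)
  (PL.C (nat_lit 0x1fae6f5) (nat_lit 0x0) (nat_lit 0x1c20f1011e9e4d)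
  (PL.C (nat_lit 0x1fb5bda) (nat_lit 0x0) (nat_lit 0x10229faca36871)
  (PL.C (nat_lit 0x1fbbb9c) (nat_lit 0x0) (nat_lit 0x238360e4e913679)
  (PL.C (nat_lit 0x1fc8d41) (nat_lit 0x0) (nat_lit 0xab7c3ce64f3e00)
  (PL.C (nat_lit 0x1fd113e) (nat_lit 0x44b5a1bdafc831) (nat_lit 0x0)
  (PL.C (nat_lit 0x1fddc24) (nat_lit 0x0) (nat_lit 0x4638287d18bbcb)
  (PL.C (nat_lit 0x1fe05b4) (nat_lit 0x0) (nat_lit 0x163dc6b56ac2000)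
  (PL.C (nat_lit 0x1fed84b) (nat_lit 0x0) (nat_lit 0x1df2a7c33c18439)
  (PL.C (nat_lit 0x1ff9bf9) (nat_lit 0x0) (nat_lit 0x7f9f4f7f512d80)
  (PL.C (nat_lit 0x1fffe37) (nat_lit 0x2906b8f512664c9) (nat_lit 0x0)
  (PL.C (nat_lit 0x2001a84) (nat_lit 0x0) (nat_lit 0x2e7ee0506550124)
  (PL.C (nat_lit 0x2004243) (nat_lit 0x0) (nat_lit 0x3f0450dda0175e)
  (PL.C (nat_lit 0x200d45c) (nat_lit 0x38459f9dca891dd) (nat_lit 0x0)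
  (PL.C (nat_lit 0x200edf7) (nat_lit 0x0) (nat_lit 0x325d8182e31d88)
  (PL.C (nat_lit 0x201b142) (nat_lit 0x0) (nat_lit 0x18f08ccbbdb1e5d) gp2_0_109))))))))))))))))))))

noncomputable def gp2_0_107 : PL :=
  (PL.C (nat_lit 0x1e65383) (nat_lit 0x3af0bac124782d) (nat_lit 0x0)
  (PL.C (nat_lit 0x1e696f8) (nat_lit 0x0) (nat_lit 0x1636cc17b6e4e)
  (PL.C (nat_lit 0x1e70b2e) (nat_lit 0x53f33ed3d28f51) (nat_lit 0x0)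
  (PL.C (nat_lit 0x1e794cd) (nat_lit 0x4c36469356d3b7) (nat_lit 0x0)
  (PL.C (nat_lit 0x1e7fde2) (nat_lit 0xfd61609ea5c4d) (nat_lit 0x0)
  (PL.C (nat_lit 0x1e86b11) (nat_lit 0x0) (nat_lit 0xd86dbb4f768f7c3)
  (PL.C (nat_lit 0x1e8c8a8) (nat_lit 0x0) (nat_lit 0x3db17af0f643d5)
  (PL.C (nat_lit 0x1e8f21e) (nat_lit 0x16ae146d59d48eb) (nat_lit 0x0)
  (PL.C (nat_lit 0x1ea093e) (nat_lit 0x0) (nat_lit 0x343b5ac7d00fa4)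
  (PL.C (nat_lit 0x1ea4e02) (nat_lit 0xa9bf2e57e2f2be) (nat_lit 0x0)
  (PL.C (nat_lit 0x1ea50d4) (nat_lit 0x38f9be3b599bd00) (nat_lit 0x0)
  (PL.C (nat_lit 0x1eacbd9) (nat_lit 0x0) (nat_lit 0x1da7123badce789)
  (PL.C (nat_lit 0x1eae6f9) (nat_lit 0x0) (nat_lit 0x25451acabd486e0)
  (PL.C (nat_lit 0x1ec1017) (nat_lit 0x0) (nat_lit 0x23c60f664afa42c)
  (PL.C (nat_lit 0x1ecda37) (nat_lit 0x2eabf3a93146ed7) (nat_lit 0x0)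
  (PL.C (nat_lit 0x1f27c76) (nat_lit 0xd088ed143230d38) (nat_lit 0x0)
  (PL.C (nat_lit 0x1f2a692) (nat_lit 0x72aacac608930f) (nat_lit 0x0)
  (PL.C (nat_lit 0x1f43d7c) (nat_lit 0x38fa139e32a58b) (nat_lit 0x0)
  (PL.C (nat_lit 0x1f4e014) (nat_lit 0x0) (nat_lit 0xbf94442712296)
  (PL.C (nat_lit 0x1f50c09) (nat_lit 0x0) (nat_lit 0xaaa4202ce88869) gp2_0_108))))))))))))))))))))

noncomputable def gp2_0_106 : PL :=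
  (PL.C (nat_lit 0x1da66bd) (nat_lit 0x66de7d5fe400d) (nat_lit 0x0)
  (PL.C (nat_lit 0x1dadc14) (nat_lit 0x0) (nat_lit 0x3e10c2073b66bc)
  (PL.C (nat_lit 0x1dba5d2) (nat_lit 0x85df9be08710166) (nat_lit 0x0)
  (PL.C (nat_lit 0x1dc4933) (nat_lit 0x0) (nat_lit 0x190c08d0647e919)
  (PL.C (nat_lit 0x1dce00e) (nat_lit 0x0) (nat_lit 0x1b0847823242eae)
  (PL.C (nat_lit 0x1de4caf) (nat_lit 0x15f523d97d3708) (nat_lit 0x0)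
  (PL.C (nat_lit 0x1df120d) (nat_lit 0xbc12ab8a1f4be3a) (nat_lit 0x0)
  (PL.C (nat_lit 0x1df68b8) (nat_lit 0x2c248a672af82b) (nat_lit 0x0)
  (PL.C (nat_lit 0x1e0a9e9) (nat_lit 0x0) (nat_lit 0x3341d69e5d49e4e)
  (PL.C (nat_lit 0x1e0ee84) (nat_lit 0x0) (nat_lit 0x22e76feeeb5441c)
  (PL.C (nat_lit 0x1e13b0f) (nat_lit 0x0) (nat_lit 0x3ce8b0eea254faa)
  (PL.C (nat_lit 0x1e13e5c) (nat_lit 0xa68e14d9438156) (nat_lit 0x0)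
  (PL.C (nat_lit 0x1e1f365) (nat_lit 0x3648564a4d094ca) (nat_lit 0x0)
  (PL.C (nat_lit 0x1e20511) (nat_lit 0x5a24784d6329a3) (nat_lit 0x0)
  (PL.C (nat_lit 0x1e319ac) (nat_lit 0xee493e59e301c) (nat_lit 0x0)
  (PL.C (nat_lit 0x1e331cb) (nat_lit 0xbeba52b672a2812) (nat_lit 0x0)
  (PL.C (nat_lit 0x1e49a7f) (nat_lit 0x2db8be42ce5bf1) (nat_lit 0x0)
  (PL.C (nat_lit 0x1e4b4e6) (nat_lit 0x1a4c7009c8c2014) (nat_lit 0x0)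
  (PL.C (nat_lit 0x1e5125c) (nat_lit 0x0) (nat_lit 0x21124e82ced9146)
  (PL.C (nat_lit 0x1e63c45) (nat_lit 0x41dda817112c4b3) (nat_lit 0x0) gp2_0_107))))))))))))))))))))

noncomputable def gp2_0_105 : PL :=
  (PL.C (nat_lit 0x1cfdbec) (nat_lit 0x1c653eefab5fd39) (nat_lit 0x0)
  (PL.C (nat_lit 0x1d0a3ba) (nat_lit 0xc75ca17733161a) (nat_lit 0x0)
  (PL.C (nat_lit 0x1d0c414) (nat_lit 0x0) (nat_lit 0x12d92085f02fa8)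
  (PL.C (nat_lit 0x1d0e39f) (nat_lit 0x1d06cd8449eef4c) (nat_lit 0x0)
  (PL.C (nat_lit 0x1d1d3f2) (nat_lit 0x0) (nat_lit 0xc6c040e9b5954d9)
  (PL.C (nat_lit 0x1d46cac) (nat_lit 0x0) (nat_lit 0xac7f5b8fc53e9e8)
  (PL.C (nat_lit 0x1d4c44c) (nat_lit 0x6c4107dcb6e5fa) (nat_lit 0x0)
  (PL.C (nat_lit 0x1d65bc2) (nat_lit 0x325cd1328e6514b) (nat_lit 0x0)
  (PL.C (nat_lit 0x1d68964) (nat_lit 0x0) (nat_lit 0x346abbbd1b931)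
  (PL.C (nat_lit 0x1d6ac26) (nat_lit 0xade1e81eb0f2c7) (nat_lit 0x0)
  (PL.C (nat_lit 0x1d6ce8c) (nat_lit 0x0) (nat_lit 0x585868a3823282)
  (PL.C (nat_lit 0x1d7cdef) (nat_lit 0x53939b4b3fe969) (nat_lit 0x0)
  (PL.C (nat_lit 0x1d80035) (nat_lit 0x992b930e7949ca) (nat_lit 0x0)
  (PL.C (nat_lit 0x1d874f4) (nat_lit 0x0) (nat_lit 0x4fde8ec3c36ffbe)
  (PL.C (nat_lit 0x1d8ba11) (nat_lit 0x0) (nat_lit 0x35cbacbf45907e)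
  (PL.C (nat_lit 0x1d8ee04) (nat_lit 0x6fd1910c521bcc) (nat_lit 0x0)
  (PL.C (nat_lit 0x1d905a1) (nat_lit 0x4366e84c0df05) (nat_lit 0x0)
  (PL.C (nat_lit 0x1d9a32c) (nat_lit 0x0) (nat_lit 0xbc1fb86d2b6b7c)
  (PL.C (nat_lit 0x1d9d5a4) (nat_lit 0x2b2b74c8cc5211a) (nat_lit 0x0)
  (PL.C (nat_lit 0x1d9f25f) (nat_lit 0x1cee72874f7e368) (nat_lit 0x0) gp2_0_106))))))))))))))))))))

noncomputable def gp2_0_104 : PL :=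
  (PL.C (nat_lit 0x1c6139d) (nat_lit 0x92005cc247bb72) (nat_lit 0x0)
  (PL.C (nat_lit 0x1c71a1d) (nat_lit 0x206c29066d078f1) (nat_lit 0x0)
  (PL.C (nat_lit 0x1c76943) (nat_lit 0x0) (nat_lit 0x1f9773f0c6078)
  (PL.C (nat_lit 0x1c81ca6) (nat_lit 0x0) (nat_lit 0x4dd6eea83c4146)
  (PL.C (nat_lit 0x1c882b3) (nat_lit 0x0) (nat_lit 0x2b87b977120d603)
  (PL.C (nat_lit 0x1c90233) (nat_lit 0x3195b730f243636) (nat_lit 0x0)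
  (PL.C (nat_lit 0x1c949fa) (nat_lit 0x4ce9231e607923) (nat_lit 0x0)
  (PL.C (nat_lit 0x1ca0c41) (nat_lit 0x0) (nat_lit 0x1da7123badce789)
  (PL.C (nat_lit 0x1cba8da) (nat_lit 0x0) (nat_lit 0x1c2d75d72f0b285)
  (PL.C (nat_lit 0x1cc74c6) (nat_lit 0x499f0b1be3a0c3) (nat_lit 0x0)
  (PL.C (nat_lit 0x1ccd886) (nat_lit 0x4f47d2c6598c5d) (nat_lit 0x0)
  (PL.C (nat_lit 0x1cd51e4) (nat_lit 0x0) (nat_lit 0x10749bc70514701)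
  (PL.C (nat_lit 0x1cd5b3a) (nat_lit 0xb8662033c10e44) (nat_lit 0x0)
  (PL.C (nat_lit 0x1cd830c) (nat_lit 0x9346b59bf171b5d) (nat_lit 0x0)
  (PL.C (nat_lit 0x1cde19a) (nat_lit 0x62abea53786906) (nat_lit 0x0)
  (PL.C (nat_lit 0x1ce105f) (nat_lit 0x0) (nat_lit 0x1df2a7c33c18439)
  (PL.C (nat_lit 0x1ce3b8e) (nat_lit 0x0) (nat_lit 0x3f3490673988717)
  (PL.C (nat_lit 0x1ce629a) (nat_lit 0x15f6033644cbab) (nat_lit 0x0)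
  (PL.C (nat_lit 0x1cef7a1) (nat_lit 0x171b792fdc9446c) (nat_lit 0x0)
  (PL.C (nat_lit 0x1cf6a24) (nat_lit 0x78b0469d928e763) (nat_lit 0x0) gp2_0_105))))))))))))))))))))

noncomputable def gp2_0_103 : PL :=
  (PL.C (nat_lit 0x1ba12dc) (nat_lit 0x70be18e8350529) (nat_lit 0x0)
  (PL.C (nat_lit 0x1ba1c08) (nat_lit 0x0) (nat_lit 0x141bcc498c058f)
  (PL.C (nat_lit 0x1bbe6da) (nat_lit 0x0) (nat_lit 0x3a356f9e90b117)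
  (PL.C (nat_lit 0x1bbfc6c) (nat_lit 0x1fd49911d90126a) (nat_lit 0x0)
  (PL.C (nat_lit 0x1bc3aa1) (nat_lit 0x0) (nat_lit 0xbe899ce56f1c6b)
  (PL.C (nat_lit 0x1bca371) (nat_lit 0xd8f81d8123d5391) (nat_lit 0x0)
  (PL.C (nat_lit 0x1be1c7e) (nat_lit 0xd61e86357c5269) (nat_lit 0x0)
  (PL.C (nat_lit 0x1be3b6b) (nat_lit 0x0) (nat_lit 0xa93498153c7f52)
  (PL.C (nat_lit 0x1beb206) (nat_lit 0x0) (nat_lit 0x1850c76de003d4c)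
  (PL.C (nat_lit 0x1beda54) (nat_lit 0x0) (nat_lit 0x249da31d51f1cc1)
  (PL.C (nat_lit 0x1bee659) (nat_lit 0x0) (nat_lit 0x1fa2189cd61513c)
  (PL.C (nat_lit 0x1c00d97) (nat_lit 0x0) (nat_lit 0x1c9d98893706092)
  (PL.C (nat_lit 0x1c0acd7) (nat_lit 0x47c29bd57369021) (nat_lit 0x0)
  (PL.C (nat_lit 0x1c11361) (nat_lit 0x158db90cd78bb65) (nat_lit 0x0)
  (PL.C (nat_lit 0x1c22b7a) (nat_lit 0x27811c796e3205) (nat_lit 0x0)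
  (PL.C (nat_lit 0x1c23c0f) (nat_lit 0xe9aeee97f6757) (nat_lit 0x0)
  (PL.C (nat_lit 0x1c4284e) (nat_lit 0x0) (nat_lit 0x343b5ac7d00fa4)
  (PL.C (nat_lit 0x1c4addc) (nat_lit 0x1bf83d4ec291f87) (nat_lit 0x0)
  (PL.C (nat_lit 0x1c4cc95) (nat_lit 0x0) (nat_lit 0xe42ca6301377522)
  (PL.C (nat_lit 0x1c562d6) (nat_lit 0xc34ada3be78a7) (nat_lit 0x0) gp2_0_104))))))))))))))))))))

noncomputable def gp2_0_102 : PL :=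
  (PL.C (nat_lit 0x1afd524) (nat_lit 0x0) (nat_lit 0x268189b358fc227)
  (PL.C (nat_lit 0x1b04b94) (nat_lit 0x0) (nat_lit 0x90a39bbba69e47)
  (PL.C (nat_lit 0x1b0fe13) (nat_lit 0x0) (nat_lit 0xab8c15ad1cee6d)
  (PL.C (nat_lit 0x1b2214e) (nat_lit 0x0) (nat_lit 0x3e7129221844186)
  (PL.C (nat_lit 0x1b34713) (nat_lit 0x0) (nat_lit 0x7dc4dc5115a75c7)
  (PL.C (nat_lit 0x1b367f2) (nat_lit 0x9579aa54a51d18) (nat_lit 0x0)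
  (PL.C (nat_lit 0x1b3c20d) (nat_lit 0x35b3a266e8f026) (nat_lit 0x0)
  (PL.C (nat_lit 0x1b420ed) (nat_lit 0x0) (nat_lit 0xea9104c69d8ac)
  (PL.C (nat_lit 0x1b4268a) (nat_lit 0x34090a4856dc05) (nat_lit 0x0)
  (PL.C (nat_lit 0x1b4f7fc) (nat_lit 0x9f18a295d1b34a8) (nat_lit 0x0)
  (PL.C (nat_lit 0x1b57dcb) (nat_lit 0x0) (nat_lit 0x1c20f1011e9e4d)
  (PL.C (nat_lit 0x1b5ac69) (nat_lit 0x27e1005137cd296) (nat_lit 0x0)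
  (PL.C (nat_lit 0x1b6d2ca) (nat_lit 0x0) (nat_lit 0x66a2a6dc66d3769)
  (PL.C (nat_lit 0x1b75fb4) (nat_lit 0x271521ce85e548e) (nat_lit 0x0)
  (PL.C (nat_lit 0x1b7cdf1) (nat_lit 0x41dda817112c4b3) (nat_lit 0x0)
  (PL.C (nat_lit 0x1b81cf6) (nat_lit 0x0) (nat_lit 0x10f9c90df804f95)
  (PL.C (nat_lit 0x1b8da7c) (nat_lit 0x0) (nat_lit 0x1db5b85e72ed252)
  (PL.C (nat_lit 0x1b8f07f) (nat_lit 0x66b55fc0d24cec) (nat_lit 0x0)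
  (PL.C (nat_lit 0x1b8ffd6) (nat_lit 0x0) (nat_lit 0xb65196d3aeb202)
  (PL.C (nat_lit 0x1b9a59f) (nat_lit 0x0) (nat_lit 0x77ce4f215b5411) gp2_0_103))))))))))))))))))))

noncomputable def gp2_0_101 : PL :=
  (PL.C (nat_lit 0x1a2653c) (nat_lit 0x0) (nat_lit 0x7b25a4366f96c7)
  (PL.C (nat_lit 0x1a2c5b8) (nat_lit 0x0) (nat_lit 0x6b82b0609cd1f)
  (PL.C (nat_lit 0x1a3c1cc) (nat_lit 0x0) (nat_lit 0xb5524bb8798527)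
  (PL.C (nat_lit 0x1a3de49) (nat_lit 0x12e6b269f975f0d3) (nat_lit 0x0)
  (PL.C (nat_lit 0x1a4ccce) (nat_lit 0x13d752607e14716) (nat_lit 0x0)
  (PL.C (nat_lit 0x1a4f05a) (nat_lit 0x8ce6e65579c67a) (nat_lit 0x0)
  (PL.C (nat_lit 0x1a57d72) (nat_lit 0xf2ed0b331bcb05) (nat_lit 0x0)
  (PL.C (nat_lit 0x1a600f1) (nat_lit 0x4d5a938fd1b0a2) (nat_lit 0x0)
  (PL.C (nat_lit 0x1a618c8) (nat_lit 0x173f000f52a3fd) (nat_lit 0x0)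
  (PL.C (nat_lit 0x1a75ed4) (nat_lit 0x0) (nat_lit 0xbfb4efc8f89789)
  (PL.C (nat_lit 0x1a812b2) (nat_lit 0x128ea49ed43f0d8) (nat_lit 0x0)
  (PL.C (nat_lit 0x1a99ad4) (nat_lit 0xb2d5785bc96645) (nat_lit 0x0)
  (PL.C (nat_lit 0x1a9baf8) (nat_lit 0x0) (nat_lit 0xb470a18adc728)
  (PL.C (nat_lit 0x1abc4f4) (nat_lit 0x0) (nat_lit 0xb6447ee388ad0)
  (PL.C (nat_lit 0x1ac9b0c) (nat_lit 0x7102aa106f28fb) (nat_lit 0x0)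
  (PL.C (nat_lit 0x1ad4c05) (nat_lit 0x0) (nat_lit 0xbd35c211dab7c)
  (PL.C (nat_lit 0x1adb634) (nat_lit 0x4abf979fc7dfc3) (nat_lit 0x0)
  (PL.C (nat_lit 0x1aeb981) (nat_lit 0x0) (nat_lit 0x4f19994c0bc2f8)
  (PL.C (nat_lit 0x1af143b) (nat_lit 0x70b7204c12beca7) (nat_lit 0x0)
  (PL.C (nat_lit 0x1afb09e) (nat_lit 0x328b9efd4ee040) (nat_lit 0x0) gp2_0_102))))))))))))))))))))

noncomputable def gp2_0_100 : PL :=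
  (PL.C (nat_lit 0x197d195) (nat_lit 0x13226927bdc802f) (nat_lit 0x0)
  (PL.C (nat_lit 0x197e437) (nat_lit 0x1abba3ee419904b) (nat_lit 0x0)
  (PL.C (nat_lit 0x198044e) (nat_lit 0x0) (nat_lit 0x3e7129221844186)
  (PL.C (nat_lit 0x1983674) (nat_lit 0x51558ab8a6a954) (nat_lit 0x0)
  (PL.C (nat_lit 0x1992afe) (nat_lit 0xc35f2d63ad0f7c) (nat_lit 0x0)
  (PL.C (nat_lit 0x19b2b77) (nat_lit 0x0) (nat_lit 0x31a6677240de67)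
  (PL.C (nat_lit 0x19bf0ea) (nat_lit 0x1cf9c651032b325) (nat_lit 0x0)
  (PL.C (nat_lit 0x19c4d15) (nat_lit 0x0) (nat_lit 0xc640899d92e6268)
  (PL.C (nat_lit 0x19cbf16) (nat_lit 0x0) (nat_lit 0x6eecb869311e6b)
  (PL.C (nat_lit 0x19daab6) (nat_lit 0x0) (nat_lit 0xb0580f3691601a)
  (PL.C (nat_lit 0x19de724) (nat_lit 0x38f9be3b599bd00) (nat_lit 0x0)
  (PL.C (nat_lit 0x19e355e) (nat_lit 0x0) (nat_lit 0x1233054a9da9dff)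
  (PL.C (nat_lit 0x19e4efd) (nat_lit 0x0) (nat_lit 0xee36227add9df6b)
  (PL.C (nat_lit 0x19ee7c9) (nat_lit 0x1da233232dd6e) (nat_lit 0x0)
  (PL.C (nat_lit 0x19f60b3) (nat_lit 0x0) (nat_lit 0x2da2e932bf01636)
  (PL.C (nat_lit 0x19ffa66) (nat_lit 0x0) (nat_lit 0x84e888a35397419)
  (PL.C (nat_lit 0x1a00b53) (nat_lit 0x18965c4a3a3750b) (nat_lit 0x0)
  (PL.C (nat_lit 0x1a096c7) (nat_lit 0x0) (nat_lit 0x34232f9a4ebcc9)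
  (PL.C (nat_lit 0x1a126d6) (nat_lit 0x0) (nat_lit 0x462be214c1ede03)
  (PL.C (nat_lit 0x1a16e22) (nat_lit 0x0) (nat_lit 0x17f720fa398559f) gp2_0_101))))))))))))))))))))

noncomputable def gp2_0_99 : PL :=
  (PL.C (nat_lit 0x18d0e4a) (nat_lit 0x8348ad1461dd87) (nat_lit 0x0)
  (PL.C (nat_lit 0x18d5b9e) (nat_lit 0x1738aa4061eca5c) (nat_lit 0x0)
  (PL.C (nat_lit 0x18ddb8c) (nat_lit 0x0) (nat_lit 0xae4b310f05b4dc)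
  (PL.C (nat_lit 0x18ec18c) (nat_lit 0x0) (nat_lit 0x9e5db03ced4dd7)
  (PL.C (nat_lit 0x18ed3c4) (nat_lit 0x0) (nat_lit 0xbcf23af802e7eee)
  (PL.C (nat_lit 0x18f4de5) (nat_lit 0x0) (nat_lit 0x2d3af562a05cae)
  (PL.C (nat_lit 0x1901348) (nat_lit 0x7b568ef7865b0) (nat_lit 0x0)
  (PL.C (nat_lit 0x1904b56) (nat_lit 0x175e65b3ce9587) (nat_lit 0x0)
  (PL.C (nat_lit 0x1906d34) (nat_lit 0x0) (nat_lit 0x7d79fadaeccbfc)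
  (PL.C (nat_lit 0x1919427) (nat_lit 0xa0367feab9c055e) (nat_lit 0x0)
  (PL.C (nat_lit 0x193238c) (nat_lit 0x39760ba4f7da59d7) (nat_lit 0x0)
  (PL.C (nat_lit 0x1938306) (nat_lit 0x8053c63c3c8b76) (nat_lit 0x0)
  (PL.C (nat_lit 0x1939eff) (nat_lit 0x4880e56e5a801a) (nat_lit 0x0)
  (PL.C (nat_lit 0x193bd7a) (nat_lit 0xe0c3d3d577fe) (nat_lit 0x0)
  (PL.C (nat_lit 0x1946901) (nat_lit 0x0) (nat_lit 0xf39ea28cb409b4)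
  (PL.C (nat_lit 0x1947968) (nat_lit 0x0) (nat_lit 0x361801001e3b3d)
  (PL.C (nat_lit 0x1948d9a) (nat_lit 0x49239ceb18c40c) (nat_lit 0x0)
  (PL.C (nat_lit 0x195306c) (nat_lit 0x0) (nat_lit 0x36a52ddfc2698bb)
  (PL.C (nat_lit 0x195c14d) (nat_lit 0x0) (nat_lit 0x62af025a6450cf3)
  (PL.C (nat_lit 0x196e8b2) (nat_lit 0x0) (nat_lit 0x2438c60aa2f5a69) gp2_0_100))))))))))))))))))))

noncomputable def gp2_0_98 : PL :=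
  (PL.C (nat_lit 0x17e364a) (nat_lit 0x0) (nat_lit 0x126ec77c610c15c)
  (PL.C (nat_lit 0x17e3ba9) (nat_lit 0x37d19e3447d8a7da) (nat_lit 0x0)
  (PL.C (nat_lit 0x17e50c9) (nat_lit 0x0) (nat_lit 0x12649bdc13c7604)
  (PL.C (nat_lit 0x1800056) (nat_lit 0x0) (nat_lit 0x27bc556b5aebfd8)
  (PL.C (nat_lit 0x1802d51) (nat_lit 0x0) (nat_lit 0x4927e702efa7e79)
  (PL.C (nat_lit 0x1812b1f) (nat_lit 0x0) (nat_lit 0x84a81fc93236d8)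
  (PL.C (nat_lit 0x182b56c) (nat_lit 0x71d78fd16fdc35) (nat_lit 0x0)
  (PL.C (nat_lit 0x1830b25) (nat_lit 0x1974db24cea2cd) (nat_lit 0x0)
  (PL.C (nat_lit 0x184b25e) (nat_lit 0x27fc3463bcf953a) (nat_lit 0x0)
  (PL.C (nat_lit 0x1863246) (nat_lit 0x0) (nat_lit 0x681c50aa8c48140)
  (PL.C (nat_lit 0x1866e4c) (nat_lit 0x23ec919e77dc8cc) (nat_lit 0x0)
  (PL.C (nat_lit 0x18731b4) (nat_lit 0x124979be1ef7f0e) (nat_lit 0x0)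
  (PL.C (nat_lit 0x1877e6b) (nat_lit 0x3bc2669e077f77) (nat_lit 0x0)
  (PL.C (nat_lit 0x188705b) (nat_lit 0x1d06cd8449eef4c) (nat_lit 0x0)
  (PL.C (nat_lit 0x1891baa) (nat_lit 0x0) (nat_lit 0xb4674b0a55914)
  (PL.C (nat_lit 0x1893b3a) (nat_lit 0x14b4caffb988159) (nat_lit 0x0)
  (PL.C (nat_lit 0x18ac974) (nat_lit 0x0) (nat_lit 0xed6f21369e7d60)
  (PL.C (nat_lit 0x18b2e66) (nat_lit 0x6577f09a2cd16) (nat_lit 0x0)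
  (PL.C (nat_lit 0x18b6c5c) (nat_lit 0x0) (nat_lit 0x55e28a4d787f42b)
  (PL.C (nat_lit 0x18b7f5d) (nat_lit 0x0) (nat_lit 0xd861602dd4119) gp2_0_99))))))))))))))))))))

noncomputable def gp2_0_97 : PL :=
  (PL.C (nat_lit 0x17445ae) (nat_lit 0x2c8ab446aba838) (nat_lit 0x0)
  (PL.C (nat_lit 0x1749ac2) (nat_lit 0x31082e993ff8b6) (nat_lit 0x0)
  (PL.C (nat_lit 0x174c276) (nat_lit 0x0) (nat_lit 0x1a47fae7a3b0be7)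
  (PL.C (nat_lit 0x1750ed5) (nat_lit 0x28d0e1bd1019563) (nat_lit 0x0)
  (PL.C (nat_lit 0x175553e) (nat_lit 0x121d2375fcd113b) (nat_lit 0x0)
  (PL.C (nat_lit 0x1762a5e) (nat_lit 0x0) (nat_lit 0x25f8fdbd8b44f4)
  (PL.C (nat_lit 0x1764be2) (nat_lit 0x0) (nat_lit 0x10de8e3373c084f)
  (PL.C (nat_lit 0x176cb1c) (nat_lit 0x0) (nat_lit 0x9ca3659a8a405f)
  (PL.C (nat_lit 0x176e5a2) (nat_lit 0x51a4923d12b9e3) (nat_lit 0x0)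
  (PL.C (nat_lit 0x1783ee1) (nat_lit 0x2f0c85606df66c0) (nat_lit 0x0)
  (PL.C (nat_lit 0x179149e) (nat_lit 0xc0b307102dc937) (nat_lit 0x0)
  (PL.C (nat_lit 0x17936a4) (nat_lit 0x26b52d49c01b514) (nat_lit 0x0)
  (PL.C (nat_lit 0x179b514) (nat_lit 0x0) (nat_lit 0x819a69e41f4e7d)
  (PL.C (nat_lit 0x17a1fce) (nat_lit 0x57ec975fea7d87) (nat_lit 0x0)
  (PL.C (nat_lit 0x17a57c6) (nat_lit 0x358c017a1c7e17e) (nat_lit 0x0)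
  (PL.C (nat_lit 0x17c0c82) (nat_lit 0x3cfe7f59b73b854) (nat_lit 0x0)
  (PL.C (nat_lit 0x17c9e16) (nat_lit 0x1932777192a84b1) (nat_lit 0x0)
  (PL.C (nat_lit 0x17d998a) (nat_lit 0x32d461a8bc9b3e) (nat_lit 0x0)
  (PL.C (nat_lit 0x17da6b8) (nat_lit 0x6433ca1d50cbdd) (nat_lit 0x0)
  (PL.C (nat_lit 0x17dfb52) (nat_lit 0xc388887f4c3e04) (nat_lit 0x0) gp2_0_98))))))))))))))))))))

noncomputable def gp2_0_96 : PL :=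
  (PL.C (nat_lit 0x167ac5c) (nat_lit 0xc884106705e628) (nat_lit 0x0)
  (PL.C (nat_lit 0x1685217) (nat_lit 0x15296aecaaaa315) (nat_lit 0x0)
  (PL.C (nat_lit 0x16886ba) (nat_lit 0x0) (nat_lit 0x33462dd6edbf14)
  (PL.C (nat_lit 0x16a5562) (nat_lit 0x4dd81721d9c934) (nat_lit 0x0)
  (PL.C (nat_lit 0x16b9945) (nat_lit 0xaa5a5328e14889e) (nat_lit 0x0)
  (PL.C (nat_lit 0x16bf334) (nat_lit 0x2e13e34f13bd6f0) (nat_lit 0x0)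
  (PL.C (nat_lit 0x16c88b4) (nat_lit 0x0) (nat_lit 0x3e56afcea1b1cc)
  (PL.C (nat_lit 0x16cc48c) (nat_lit 0x3e4137a2d38194c) (nat_lit 0x0)
  (PL.C (nat_lit 0x16d02e4) (nat_lit 0xcc76f5cf4805b7) (nat_lit 0x0)
  (PL.C (nat_lit 0x16d343f) (nat_lit 0xd3c975a3198d37) (nat_lit 0x0)
  (PL.C (nat_lit 0x16da01e) (nat_lit 0x4f47d2c6598c5d) (nat_lit 0x0)
  (PL.C (nat_lit 0x16dd9c8) (nat_lit 0x0) (nat_lit 0x3db17af0f643d5)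
  (PL.C (nat_lit 0x16e9cf3) (nat_lit 0x3bbf711f0bf5a3) (nat_lit 0x0)
  (PL.C (nat_lit 0x16eaa4c) (nat_lit 0x727f257c29e7c7) (nat_lit 0x0)
  (PL.C (nat_lit 0x16fd901) (nat_lit 0x9c5749ddaa9749) (nat_lit 0x0)
  (PL.C (nat_lit 0x17063f1) (nat_lit 0x1559e6fa21e0e35) (nat_lit 0x0)
  (PL.C (nat_lit 0x171d254) (nat_lit 0x11c0c69fe27de31) (nat_lit 0x0)
  (PL.C (nat_lit 0x1726f72) (nat_lit 0x0) (nat_lit 0x84e888a35397419)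
  (PL.C (nat_lit 0x1734375) (nat_lit 0x41fdfd225ef097) (nat_lit 0x0)
  (PL.C (nat_lit 0x17438bb) (nat_lit 0x0) (nat_lit 0x14d11dc09b9cc16) gp2_0_97))))))))))))))))))))

noncomputable def gp2_0_95 : PL :=
  (PL.C (nat_lit 0x15dbdb1) (nat_lit 0x20f9fe448e193d0) (nat_lit 0x0)
  (PL.C (nat_lit 0x15e3ead) (nat_lit 0x0) (nat_lit 0x77812b73b93b53)
  (PL.C (nat_lit 0x15ea4bf) (nat_lit 0x47c4b88707ca95c) (nat_lit 0x0)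
  (PL.C (nat_lit 0x15f267e) (nat_lit 0x0) (nat_lit 0x10a57aaea0393654)
  (PL.C (nat_lit 0x15f9b04) (nat_lit 0x0) (nat_lit 0x521fe03940b877)
  (PL.C (nat_lit 0x1605044) (nat_lit 0x707360e665312c) (nat_lit 0x0)
  (PL.C (nat_lit 0x160efae) (nat_lit 0x0) (nat_lit 0x4c6591f933c8f6c)
  (PL.C (nat_lit 0x161a052) (nat_lit 0xb0a350defe57e3) (nat_lit 0x0)
  (PL.C (nat_lit 0x1626a32) (nat_lit 0xa7761fe91e886) (nat_lit 0x0)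
  (PL.C (nat_lit 0x1626f2d) (nat_lit 0x0) (nat_lit 0x84415dd4a9caa2f)
  (PL.C (nat_lit 0x1633886) (nat_lit 0x0) (nat_lit 0x5b8e9f8e717c69d)
  (PL.C (nat_lit 0x16384cc) (nat_lit 0x40aaa45a956c73a) (nat_lit 0x0)
  (PL.C (nat_lit 0x16412ee) (nat_lit 0x1126926f1b19b4) (nat_lit 0x0)
  (PL.C (nat_lit 0x164ab9e) (nat_lit 0x0) (nat_lit 0xc4eeef95295612)
  (PL.C (nat_lit 0x1651431) (nat_lit 0x14ff7b0bb0e71c0) (nat_lit 0x0)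
  (PL.C (nat_lit 0x16516a4) (nat_lit 0x0) (nat_lit 0x4a7594368c3d69)
  (PL.C (nat_lit 0x165325b) (nat_lit 0x40f376b67e55fa) (nat_lit 0x0)
  (PL.C (nat_lit 0x165c95c) (nat_lit 0x6cb04daa046393) (nat_lit 0x0)
  (PL.C (nat_lit 0x1667754) (nat_lit 0x0) (nat_lit 0x231fb8ef713b3b4)
  (PL.C (nat_lit 0x1669aa6) (nat_lit 0x4d1d8f60a4c9932) (nat_lit 0x0) gp2_0_96))))))))))))))))))))

noncomputable def gp2_0_94 : PL :=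
  (PL.C (nat_lit 0x153fd35) (nat_lit 0x0) (nat_lit 0xc8e293f8742f6)
  (PL.C (nat_lit 0x1549032) (nat_lit 0x0) (nat_lit 0x2d262ffa46789ac)
  (PL.C (nat_lit 0x15512a6) (nat_lit 0x0) (nat_lit 0xf9032bed090e86)
  (PL.C (nat_lit 0x1558182) (nat_lit 0x1a57dfb8dde51f6) (nat_lit 0x0)
  (PL.C (nat_lit 0x155e2e8) (nat_lit 0x1bcf929cc2cb1e5) (nat_lit 0x0)
  (PL.C (nat_lit 0x155f3fa) (nat_lit 0x41f085a05ef2f5) (nat_lit 0x0)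
  (PL.C (nat_lit 0x156762c) (nat_lit 0x2c53e68a4cbba40) (nat_lit 0x0)
  (PL.C (nat_lit 0x1568541) (nat_lit 0x0) (nat_lit 0x62af025a6450cf3)
  (PL.C (nat_lit 0x156d528) (nat_lit 0x147b3604ee42c9) (nat_lit 0x0)
  (PL.C (nat_lit 0x157c1fa) (nat_lit 0x0) (nat_lit 0x61e31f95037abdd)
  (PL.C (nat_lit 0x1586e06) (nat_lit 0x0) (nat_lit 0x5489ec21e2be96d)
  (PL.C (nat_lit 0x15932a6) (nat_lit 0x0) (nat_lit 0x244f9ae09b59b94)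
  (PL.C (nat_lit 0x159818a) (nat_lit 0x764c70721587cb) (nat_lit 0x0)
  (PL.C (nat_lit 0x15a2e76) (nat_lit 0x113def4498007b4) (nat_lit 0x0)
  (PL.C (nat_lit 0x15a89f8) (nat_lit 0x608ec21a007ba) (nat_lit 0x0)
  (PL.C (nat_lit 0x15b132a) (nat_lit 0x424dbfe4d33588) (nat_lit 0x0)
  (PL.C (nat_lit 0x15bbe12) (nat_lit 0x0) (nat_lit 0x3f0c2bb4c04c1d)
  (PL.C (nat_lit 0x15c4346) (nat_lit 0x7608fa2945b258) (nat_lit 0x0)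
  (PL.C (nat_lit 0x15c520c) (nat_lit 0x233fc8820e1835) (nat_lit 0x0)
  (PL.C (nat_lit 0x15d295a) (nat_lit 0x4da1c640f80e24) (nat_lit 0x0) gp2_0_95))))))))))))))))))))

noncomputable def gp2_0_93 : PL :=
  (PL.C (nat_lit 0x148917a) (nat_lit 0x0) (nat_lit 0x84eeabf51a262a)
  (PL.C (nat_lit 0x148a841) (nat_lit 0x0) (nat_lit 0x1360f4e35f283c1)
  (PL.C (nat_lit 0x14a7b57) (nat_lit 0x0) (nat_lit 0x8e3d084de47adc)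
  (PL.C (nat_lit 0x14c6f0c) (nat_lit 0x5447a3de60f235) (nat_lit 0x0)
  (PL.C (nat_lit 0x14cb8bd) (nat_lit 0x1f4cfcb75737fe0) (nat_lit 0x0)
  (PL.C (nat_lit 0x14d5f43) (nat_lit 0xe9aeee97f6757) (nat_lit 0x0)
  (PL.C (nat_lit 0x14deab8) (nat_lit 0xcdf41d246e8d5) (nat_lit 0x0)
  (PL.C (nat_lit 0x14e0806) (nat_lit 0x0) (nat_lit 0x17f720fa398559f)
  (PL.C (nat_lit 0x14e1d93) (nat_lit 0xd3c975a3198d37) (nat_lit 0x0)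
  (PL.C (nat_lit 0x14e4e62) (nat_lit 0x0) (nat_lit 0x2cdc774067873b0)
  (PL.C (nat_lit 0x14f6e96) (nat_lit 0x0) (nat_lit 0xc30cba4a64a3fc)
  (PL.C (nat_lit 0x1509cbc) (nat_lit 0x17c966fe58ee89b) (nat_lit 0x0)
  (PL.C (nat_lit 0x150ee23) (nat_lit 0x1e5f515b0872ad2) (nat_lit 0x0)
  (PL.C (nat_lit 0x15127b9) (nat_lit 0x0) (nat_lit 0x465845b5ad5a6b)
  (PL.C (nat_lit 0x151ef4e) (nat_lit 0x0) (nat_lit 0xab2af4571fe78b)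
  (PL.C (nat_lit 0x1523d3c) (nat_lit 0x0) (nat_lit 0x29e32909ee324e)
  (PL.C (nat_lit 0x15308d6) (nat_lit 0x0) (nat_lit 0x265d3f0706b9b5)
  (PL.C (nat_lit 0x15360d4) (nat_lit 0xdf0e02b351a69b) (nat_lit 0x0)
  (PL.C (nat_lit 0x153e07f) (nat_lit 0x0) (nat_lit 0x4927e702efa7e79)
  (PL.C (nat_lit 0x153e818) (nat_lit 0x0) (nat_lit 0x248c8e39f06dca) gp2_0_94))))))))))))))))))))

noncomputable def gp2_0_92 : PL :=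
  (PL.C (nat_lit 0x13f615e) (nat_lit 0x13de3f6cdc655581) (nat_lit 0x0)
  (PL.C (nat_lit 0x1407146) (nat_lit 0x0) (nat_lit 0x72b22c6368296c9)
  (PL.C (nat_lit 0x140b2ed) (nat_lit 0x3cbdc4d9ff4ee72) (nat_lit 0x0)
  (PL.C (nat_lit 0x140d20a) (nat_lit 0x0) (nat_lit 0xa2898ed5a836a25)
  (PL.C (nat_lit 0x1414cee) (nat_lit 0x0) (nat_lit 0x768002795800ec4)
  (PL.C (nat_lit 0x14158b6) (nat_lit 0xb5c6a78c834812) (nat_lit 0x0)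
  (PL.C (nat_lit 0x1422132) (nat_lit 0x152e00205e54e816) (nat_lit 0x0)
  (PL.C (nat_lit 0x142aa0d) (nat_lit 0x0) (nat_lit 0xe42ca6301377522)
  (PL.C (nat_lit 0x142fb2d) (nat_lit 0x0) (nat_lit 0x103b02c707c4dc5)
  (PL.C (nat_lit 0x14311aa) (nat_lit 0x0) (nat_lit 0x956b1d798f16ba)
  (PL.C (nat_lit 0x1432344) (nat_lit 0x133eec40a3a888e) (nat_lit 0x0)
  (PL.C (nat_lit 0x144282e) (nat_lit 0x0) (nat_lit 0x138a8c11dc36bc4)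
  (PL.C (nat_lit 0x144c5c1) (nat_lit 0x0) (nat_lit 0x71cb4cce011a8c)
  (PL.C (nat_lit 0x1450dde) (nat_lit 0xb8662033c10e44) (nat_lit 0x0)
  (PL.C (nat_lit 0x14553ec) (nat_lit 0x23f4efbab66f24) (nat_lit 0x0)
  (PL.C (nat_lit 0x1459cb6) (nat_lit 0x0) (nat_lit 0x280c0c174145646b)
  (PL.C (nat_lit 0x146b0d4) (nat_lit 0x16d3bf873744a40) (nat_lit 0x0)
  (PL.C (nat_lit 0x146deac) (nat_lit 0x0) (nat_lit 0x7d79fadaeccbfc)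
  (PL.C (nat_lit 0x14744a6) (nat_lit 0x132b898bf12e8fb) (nat_lit 0x0)
  (PL.C (nat_lit 0x1480aba) (nat_lit 0x145473328827e84) (nat_lit 0x0) gp2_0_93))))))))))))))))))))

noncomputable def gp2_0_91 : PL :=
  (PL.C (nat_lit 0x134a516) (nat_lit 0x4d79e7c985a2522) (nat_lit 0x0)
  (PL.C (nat_lit 0x1353d48) (nat_lit 0x106fdd795584227) (nat_lit 0x0)
  (PL.C (nat_lit 0x135c27c) (nat_lit 0x8adf2fe901322b) (nat_lit 0x0)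
  (PL.C (nat_lit 0x1368d4c) (nat_lit 0x117d1349e46a4c2e) (nat_lit 0x0)
  (PL.C (nat_lit 0x139df08) (nat_lit 0x0) (nat_lit 0x49d1168ed52528)
  (PL.C (nat_lit 0x139f287) (nat_lit 0x728d0ba908f5a7) (nat_lit 0x0)
  (PL.C (nat_lit 0x13a894a) (nat_lit 0x1d5c5d21caee3ed) (nat_lit 0x0)
  (PL.C (nat_lit 0x13aaace) (nat_lit 0x0) (nat_lit 0xafddbe7ec9d0ce1)
  (PL.C (nat_lit 0x13b26b6) (nat_lit 0x0) (nat_lit 0x381ddb5ba43234)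
  (PL.C (nat_lit 0x13b289b) (nat_lit 0x10e9c37ab060e17) (nat_lit 0x0)
  (PL.C (nat_lit 0x13b4958) (nat_lit 0x0) (nat_lit 0x543cae4d08756)
  (PL.C (nat_lit 0x13b5916) (nat_lit 0x0) (nat_lit 0x4ef35f71372a627)
  (PL.C (nat_lit 0x13bf6ea) (nat_lit 0x0) (nat_lit 0x10de8e3373c084f)
  (PL.C (nat_lit 0x13c447e) (nat_lit 0x0) (nat_lit 0x1233054a9da9dff)
  (PL.C (nat_lit 0x13c92b8) (nat_lit 0x0) (nat_lit 0x718cc065666671)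
  (PL.C (nat_lit 0x13cccb9) (nat_lit 0x816e1e032dd645) (nat_lit 0x0)
  (PL.C (nat_lit 0x13d8622) (nat_lit 0x0) (nat_lit 0x282483004083459)
  (PL.C (nat_lit 0x13d9c25) (nat_lit 0x0) (nat_lit 0x8e474f9ea4c3d02)
  (PL.C (nat_lit 0x13deab4) (nat_lit 0xf5522f78600799) (nat_lit 0x0)
  (PL.C (nat_lit 0x13eddca) (nat_lit 0x66103d0a9abbf2) (nat_lit 0x0) gp2_0_92))))))))))))))))))))

noncomputable def gp2_0_90 : PL :=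
  (PL.C (nat_lit 0x12e41e4) (nat_lit 0x0) (nat_lit 0xc7acdf5463707f)
  (PL.C (nat_lit 0x12ea909) (nat_lit 0x0) (nat_lit 0x699f4cce8da506)
  (PL.C (nat_lit 0x12eb7be) (nat_lit 0x0) (nat_lit 0x608ca014c56165)
  (PL.C (nat_lit 0x12f66be) (nat_lit 0x1e3debb82fa637) (nat_lit 0x0)
  (PL.C (nat_lit 0x12f9b82) (nat_lit 0x0) (nat_lit 0x2a7d6f93bcb1c6)
  (PL.C (nat_lit 0x1302ab3) (nat_lit 0x0) (nat_lit 0x49ce1f6f4ae866)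
  (PL.C (nat_lit 0x1305722) (nat_lit 0x0) (nat_lit 0x4516739442f4a34)
  (PL.C (nat_lit 0x13090a7) (nat_lit 0x23bb2035568631) (nat_lit 0x0)
  (PL.C (nat_lit 0x130ac22) (nat_lit 0x0) (nat_lit 0x1f1f3ae64f5a150)
  (PL.C (nat_lit 0x130dbfc) (nat_lit 0x4c493ca430df60) (nat_lit 0x0)
  (PL.C (nat_lit 0x131eeab) (nat_lit 0x0) (nat_lit 0x3227b8f0354429)
  (PL.C (nat_lit 0x132ef19) (nat_lit 0x0) (nat_lit 0x4f19994c0bc2f8)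
  (PL.C (nat_lit 0x132f669) (nat_lit 0x6c41fbebafdd51) (nat_lit 0x0)
  (PL.C (nat_lit 0x132f884) (nat_lit 0x0) (nat_lit 0x1b0a5b758e57af)
  (PL.C (nat_lit 0x1333b04) (nat_lit 0x0) (nat_lit 0x2609b7939fb1032)
  (PL.C (nat_lit 0x133ebbc) (nat_lit 0x0) (nat_lit 0x1c3331fbfd60781)
  (PL.C (nat_lit 0x1340aea) (nat_lit 0x0) (nat_lit 0x2d262ffa46789ac)
  (PL.C (nat_lit 0x13427b4) (nat_lit 0x0) (nat_lit 0x11dfc6b3983ec62)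
  (PL.C (nat_lit 0x13441bc) (nat_lit 0xb4acef07673e60) (nat_lit 0x0)
  (PL.C (nat_lit 0x1348611) (nat_lit 0x1bc719f2507222) (nat_lit 0x0) gp2_0_91))))))))))))))))))))

noncomputable def gp2_0_89 : PL :=
  (PL.C (nat_lit 0x125f5aa) (nat_lit 0xc0dd8c0602f41d) (nat_lit 0x0)
  (PL.C (nat_lit 0x125ffe4) (nat_lit 0x0) (nat_lit 0x15a036d937271bf)
  (PL.C (nat_lit 0x1265583) (nat_lit 0x0) (nat_lit 0x1482f4c0406eb6)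
  (PL.C (nat_lit 0x1266e6a) (nat_lit 0xa83edc4046afad) (nat_lit 0x0)
  (PL.C (nat_lit 0x127ef3c) (nat_lit 0x411a843d6aba72) (nat_lit 0x0)
  (PL.C (nat_lit 0x1282716) (nat_lit 0x0) (nat_lit 0x1ea253d544ec3ea)
  (PL.C (nat_lit 0x1286cf6) (nat_lit 0x0) (nat_lit 0x1570daf59285f16c)
  (PL.C (nat_lit 0x128de25) (nat_lit 0x0) (nat_lit 0xc744cc21c545b)
  (PL.C (nat_lit 0x1296854) (nat_lit 0xc6d4b136efe952) (nat_lit 0x0)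
  (PL.C (nat_lit 0x1297cf2) (nat_lit 0x392df6f87088e25) (nat_lit 0x0)
  (PL.C (nat_lit 0x129cc04) (nat_lit 0x26d58ad2c5bb2fa) (nat_lit 0x0)
  (PL.C (nat_lit 0x129eee6) (nat_lit 0x0) (nat_lit 0x3c54f824280ce9d)
  (PL.C (nat_lit 0x12ab3ba) (nat_lit 0x1f546eda91c0199) (nat_lit 0x0)
  (PL.C (nat_lit 0x12b32a1) (nat_lit 0x69b768b963b4543) (nat_lit 0x0)
  (PL.C (nat_lit 0x12c13bf) (nat_lit 0x0) (nat_lit 0x9f042f887bf732)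
  (PL.C (nat_lit 0x12c1cfc) (nat_lit 0x40aaa45a956c73a) (nat_lit 0x0)
  (PL.C (nat_lit 0x12c280a) (nat_lit 0xfa700d4bfe9c14) (nat_lit 0x0)
  (PL.C (nat_lit 0x12cae6f) (nat_lit 0x26feaeee7e0f8e) (nat_lit 0x0)
  (PL.C (nat_lit 0x12d7034) (nat_lit 0x16d3bf873744a40) (nat_lit 0x0)
  (PL.C (nat_lit 0x12decab) (nat_lit 0xa2825cfa3a238) (nat_lit 0x0) gp2_0_90))))))))))))))))))))

noncomputable def gp2_0_88 : PL :=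
  (PL.C (nat_lit 0x11ee8bb) (nat_lit 0x206c29066d078f1) (nat_lit 0x0)
  (PL.C (nat_lit 0x11f2656) (nat_lit 0x36426a3dd27faf) (nat_lit 0x0)
  (PL.C (nat_lit 0x11f62d2) (nat_lit 0x42be75f65693be8) (nat_lit 0x0)
  (PL.C (nat_lit 0x11fcb14) (nat_lit 0x4dbce69da8ded5) (nat_lit 0x0)
  (PL.C (nat_lit 0x120a962) (nat_lit 0x1d2e96fc5518d6) (nat_lit 0x0)
  (PL.C (nat_lit 0x1212405) (nat_lit 0x0) (nat_lit 0x3341d69e5d49e4e)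
  (PL.C (nat_lit 0x121a44b) (nat_lit 0x0) (nat_lit 0x6514d72c73728a)
  (PL.C (nat_lit 0x1222f62) (nat_lit 0x1528d619d32b07e) (nat_lit 0x0)
  (PL.C (nat_lit 0x122454c) (nat_lit 0xf8e8b3567de6dd) (nat_lit 0x0)
  (PL.C (nat_lit 0x122815e) (nat_lit 0x1e41b78ed1b6d04) (nat_lit 0x0)
  (PL.C (nat_lit 0x122c09e) (nat_lit 0xcbb95e014c315a4) (nat_lit 0x0)
  (PL.C (nat_lit 0x122c45c) (nat_lit 0x2afc856521b456) (nat_lit 0x0)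
  (PL.C (nat_lit 0x123a932) (nat_lit 0x0) (nat_lit 0xab2af4571fe78b)
  (PL.C (nat_lit 0x123c846) (nat_lit 0xd75168cba18292) (nat_lit 0x0)
  (PL.C (nat_lit 0x1242cc7) (nat_lit 0x0) (nat_lit 0x26b756e8b28d654)
  (PL.C (nat_lit 0x12445f5) (nat_lit 0x0) (nat_lit 0x520887d5aaca65)
  (PL.C (nat_lit 0x124ea78) (nat_lit 0x47c3f4e212833d9) (nat_lit 0x0)
  (PL.C (nat_lit 0x12533f6) (nat_lit 0x0) (nat_lit 0x138a8c11dc36bc4)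
  (PL.C (nat_lit 0x12568a4) (nat_lit 0x0) (nat_lit 0x16c1bb75d1a8d6a)
  (PL.C (nat_lit 0x125c27d) (nat_lit 0x0) (nat_lit 0x496a6c5f9c241d) gp2_0_89))))))))))))))))))))

noncomputable def gp2_0_87 : PL :=
  (PL.C (nat_lit 0x11640db) (nat_lit 0xb9b99ee492c924) (nat_lit 0x0)
  (PL.C (nat_lit 0x116496c) (nat_lit 0x0) (nat_lit 0x43b4987a80fe18)
  (PL.C (nat_lit 0x1166f0d) (nat_lit 0x30021334a3818) (nat_lit 0x0)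
  (PL.C (nat_lit 0x116d04b) (nat_lit 0x0) (nat_lit 0x3cdfd97fb5d59f)
  (PL.C (nat_lit 0x116ee28) (nat_lit 0x0) (nat_lit 0xc9437496da476)
  (PL.C (nat_lit 0x117d688) (nat_lit 0x0) (nat_lit 0xbe2e8c05dcb2c)
  (PL.C (nat_lit 0x117e986) (nat_lit 0x0) (nat_lit 0xf23091dcf884467)
  (PL.C (nat_lit 0x118a03c) (nat_lit 0x4ce12c25d78f85) (nat_lit 0x0)
  (PL.C (nat_lit 0x118a60d) (nat_lit 0x0) (nat_lit 0x172beeead2b362)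
  (PL.C (nat_lit 0x118de71) (nat_lit 0x1f4cfcb75737fe0) (nat_lit 0x0)
  (PL.C (nat_lit 0x118fe4c) (nat_lit 0x0) (nat_lit 0x267605d89259ac)
  (PL.C (nat_lit 0x11955f6) (nat_lit 0x0) (nat_lit 0x2806d2e3cfa21f8)
  (PL.C (nat_lit 0x11997ff) (nat_lit 0x0) (nat_lit 0x6c2920fad5658e)
  (PL.C (nat_lit 0x11a3f38) (nat_lit 0x854fbe24f4558) (nat_lit 0x0)
  (PL.C (nat_lit 0x11b9f17) (nat_lit 0x69b768b963b4543) (nat_lit 0x0)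
  (PL.C (nat_lit 0x11c6bef) (nat_lit 0x73886c6f5ead) (nat_lit 0x0)
  (PL.C (nat_lit 0x11d2df8) (nat_lit 0x0) (nat_lit 0xc9437496da476)
  (PL.C (nat_lit 0x11d4506) (nat_lit 0xfc197f5f995a59) (nat_lit 0x0)
  (PL.C (nat_lit 0x11e32ae) (nat_lit 0x33fd363887e782) (nat_lit 0x0)
  (PL.C (nat_lit 0x11e7978) (nat_lit 0x7ce1c39b53430) (nat_lit 0x0) gp2_0_88))))))))))))))))))))

noncomputable def gp2_0_86 : PL :=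
  (PL.C (nat_lit 0x10f45cc) (nat_lit 0xf5e47cf0273d56) (nat_lit 0x0)
  (PL.C (nat_lit 0x10fe10e) (nat_lit 0x0) (nat_lit 0x14a629ee49971e0)
  (PL.C (nat_lit 0x10fed7a) (nat_lit 0xf238d0de948557) (nat_lit 0x0)
  (PL.C (nat_lit 0x1106101) (nat_lit 0x0) (nat_lit 0x8dbc8e5577012c)
  (PL.C (nat_lit 0x110c754) (nat_lit 0x22e9a5229c2d62) (nat_lit 0x0)
  (PL.C (nat_lit 0x1121cfa) (nat_lit 0x0) (nat_lit 0x5be9865570ed7)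
  (PL.C (nat_lit 0x112a09c) (nat_lit 0x14934c94651fd21) (nat_lit 0x0)
  (PL.C (nat_lit 0x112de0e) (nat_lit 0x0) (nat_lit 0x23a064f0dccf0d9d)
  (PL.C (nat_lit 0x1131201) (nat_lit 0x0) (nat_lit 0x1dd1cad43906a79)
  (PL.C (nat_lit 0x1131f27) (nat_lit 0x171d1c31d500f9) (nat_lit 0x0)
  (PL.C (nat_lit 0x113c724) (nat_lit 0x0) (nat_lit 0xb4d697d4753b88)
  (PL.C (nat_lit 0x113d4e9) (nat_lit 0x0) (nat_lit 0xb55533a35f250b)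
  (PL.C (nat_lit 0x1142394) (nat_lit 0x0) (nat_lit 0xfc832c493d075f)
  (PL.C (nat_lit 0x1149a86) (nat_lit 0x0) (nat_lit 0x15d28a10973491a)
  (PL.C (nat_lit 0x114eb22) (nat_lit 0x1f5278bcc927373) (nat_lit 0x0)
  (PL.C (nat_lit 0x1155ce2) (nat_lit 0x2b33f43de80d4f6) (nat_lit 0x0)
  (PL.C (nat_lit 0x115a685) (nat_lit 0x0) (nat_lit 0x2abb2cd18727e19)
  (PL.C (nat_lit 0x115b9da) (nat_lit 0x0) (nat_lit 0x4b6fc8432834382)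
  (PL.C (nat_lit 0x11619e4) (nat_lit 0x0) (nat_lit 0x55da9af9984256f)
  (PL.C (nat_lit 0x116317b) (nat_lit 0x47c4b88707ca95c) (nat_lit 0x0) gp2_0_87))))))))))))))))))))

noncomputable def gp2_0_85 : PL :=
  (PL.C (nat_lit 0x106277c) (nat_lit 0x0) (nat_lit 0x2f89f107de6f5e7)
  (PL.C (nat_lit 0x106fe93) (nat_lit 0x0) (nat_lit 0x301a1ade91e879c)
  (PL.C (nat_lit 0x10730f8) (nat_lit 0x0) (nat_lit 0xc9aeec4082a3f4)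
  (PL.C (nat_lit 0x1077444) (nat_lit 0x0) (nat_lit 0xae4b310f05b4dc)
  (PL.C (nat_lit 0x107aa3e) (nat_lit 0x15f6033644cbab) (nat_lit 0x0)
  (PL.C (nat_lit 0x1093d08) (nat_lit 0x0) (nat_lit 0xd48ce9b97f1810)
  (PL.C (nat_lit 0x10a33ee) (nat_lit 0x0) (nat_lit 0x1e3b363bfa8a53a)
  (PL.C (nat_lit 0x10adce4) (nat_lit 0x13a23d21d7f58b) (nat_lit 0x0)
  (PL.C (nat_lit 0x10af378) (nat_lit 0x0) (nat_lit 0x9fd59f36274091)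
  (PL.C (nat_lit 0x10bb81a) (nat_lit 0x4b4ff65811f7e49) (nat_lit 0x0)
  (PL.C (nat_lit 0x10c1e53) (nat_lit 0xbdad127a5c2034) (nat_lit 0x0)
  (PL.C (nat_lit 0x10d0204) (nat_lit 0x73e8e48058d057) (nat_lit 0x0)
  (PL.C (nat_lit 0x10d14aa) (nat_lit 0x2f101e19da9b6d3) (nat_lit 0x0)
  (PL.C (nat_lit 0x10d28fc) (nat_lit 0x0) (nat_lit 0x3b5dce30526223)
  (PL.C (nat_lit 0x10d7117) (nat_lit 0x5a24784d6329a3) (nat_lit 0x0)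
  (PL.C (nat_lit 0x10d9b56) (nat_lit 0x0) (nat_lit 0x16977d8964dfa39)
  (PL.C (nat_lit 0x10db3bc) (nat_lit 0x0) (nat_lit 0x167ca7cd351f11)
  (PL.C (nat_lit 0x10e2048) (nat_lit 0x0) (nat_lit 0x3a85114f6f2eced)
  (PL.C (nat_lit 0x10e80de) (nat_lit 0x4795116e26d453f) (nat_lit 0x0)
  (PL.C (nat_lit 0x10eed03) (nat_lit 0x932d3c3f61b7d2) (nat_lit 0x0) gp2_0_86))))))))))))))))))))

noncomputable def gp2_0_84 : PL :=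
  (PL.C (nat_lit 0xfecedc) (nat_lit 0x0) (nat_lit 0x99f47015cf1542)
  (PL.C (nat_lit 0xfee086) (nat_lit 0x467aa534a1bf054) (nat_lit 0x0)
  (PL.C (nat_lit 0xff1ce3) (nat_lit 0x15f523d97d3708) (nat_lit 0x0)
  (PL.C (nat_lit 0xff33bd) (nat_lit 0x34c895a18691e48) (nat_lit 0x0)
  (PL.C (nat_lit 0xffc56d) (nat_lit 0x0) (nat_lit 0x4f04157b7bb198)
  (PL.C (nat_lit 0x1001e36) (nat_lit 0xa15e2afb1365f71) (nat_lit 0x0)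
  (PL.C (nat_lit 0x100c76a) (nat_lit 0x0) (nat_lit 0x32b2509b4abe161)
  (PL.C (nat_lit 0x101ce48) (nat_lit 0x23cb4e4e90e983) (nat_lit 0x0)
  (PL.C (nat_lit 0x101f607) (nat_lit 0x18d5c183e918eb6) (nat_lit 0x0)
  (PL.C (nat_lit 0x102076e) (nat_lit 0x8805a1a690bb10) (nat_lit 0x0)
  (PL.C (nat_lit 0x1031fcd) (nat_lit 0x68e702561eb06db) (nat_lit 0x0)
  (PL.C (nat_lit 0x1032194) (nat_lit 0x23934c5e028766f) (nat_lit 0x0)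
  (PL.C (nat_lit 0x103830f) (nat_lit 0x1ffbd676c9ea044) (nat_lit 0x0)
  (PL.C (nat_lit 0x1038c93) (nat_lit 0x4e87816dc2176c) (nat_lit 0x0)
  (PL.C (nat_lit 0x1042184) (nat_lit 0x0) (nat_lit 0xcc4de811fc8957b)
  (PL.C (nat_lit 0x1042e81) (nat_lit 0x0) (nat_lit 0x770b5f854455f09)
  (PL.C (nat_lit 0x1044988) (nat_lit 0x0) (nat_lit 0x7bdc22bb42496a)
  (PL.C (nat_lit 0x1049961) (nat_lit 0x0) (nat_lit 0x3ec03008ba2202)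
  (PL.C (nat_lit 0x104fef2) (nat_lit 0x112d16c4384567a) (nat_lit 0x0)
  (PL.C (nat_lit 0x105d1af) (nat_lit 0x273980a24cfdd14) (nat_lit 0x0) gp2_0_85))))))))))))))))))))

noncomputable def gp2_0_83 : PL :=
  (PL.C (nat_lit 0xf881a4) (nat_lit 0x0) (nat_lit 0x2e5651b9d5b145f)
  (PL.C (nat_lit 0xf8b48e) (nat_lit 0x0) (nat_lit 0x1d388e9676c3a04)
  (PL.C (nat_lit 0xf8cdbd) (nat_lit 0x85f83a72ec6646) (nat_lit 0x0)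
  (PL.C (nat_lit 0xf94a43) (nat_lit 0x0) (nat_lit 0x14d11dc09b9cc16)
  (PL.C (nat_lit 0xf97194) (nat_lit 0x0) (nat_lit 0x1200a2581656a12)
  (PL.C (nat_lit 0xf987ec) (nat_lit 0xd7c5b1bf65a353) (nat_lit 0x0)
  (PL.C (nat_lit 0xf9d893) (nat_lit 0xa2825cfa3a238) (nat_lit 0x0)
  (PL.C (nat_lit 0xf9ee6c) (nat_lit 0x3d0a5c5871bf87) (nat_lit 0x0)
  (PL.C (nat_lit 0xfad496) (nat_lit 0x3f4eeeb94bae3c9) (nat_lit 0x0)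
  (PL.C (nat_lit 0xfb6314) (nat_lit 0x0) (nat_lit 0x3a49529cfa42c3)
  (PL.C (nat_lit 0xfc1534) (nat_lit 0x8dfcb65b7712b) (nat_lit 0x0)
  (PL.C (nat_lit 0xfc3a84) (nat_lit 0x0) (nat_lit 0x1284de44b3751a5)
  (PL.C (nat_lit 0xfd5dac) (nat_lit 0x0) (nat_lit 0x8551845bdc30697)
  (PL.C (nat_lit 0xfdd26b) (nat_lit 0x1625dd647afa5ca) (nat_lit 0x0)
  (PL.C (nat_lit 0xfe0c6d) (nat_lit 0x9c5749ddaa9749) (nat_lit 0x0)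
  (PL.C (nat_lit 0xfe277f) (nat_lit 0x0) (nat_lit 0xab5738a386c1595)
  (PL.C (nat_lit 0xfe665c) (nat_lit 0x9452e6abf67a42) (nat_lit 0x0)
  (PL.C (nat_lit 0xfe8b93) (nat_lit 0x0) (nat_lit 0x27fe10c188bd65)
  (PL.C (nat_lit 0xfea78c) (nat_lit 0x1c7dd099322babf) (nat_lit 0x0)
  (PL.C (nat_lit 0xfeb443) (nat_lit 0xfb8f88a7e27b1) (nat_lit 0x0) gp2_0_84))))))))))))))))))))

noncomputable def gp2_0_82 : PL :=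
  (PL.C (nat_lit 0xf04761) (nat_lit 0x0) (nat_lit 0x13312b56872e477)
  (PL.C (nat_lit 0xf0a36b) (nat_lit 0x1b3fd59d0442d3f) (nat_lit 0x0)
  (PL.C (nat_lit 0xf14265) (nat_lit 0x0) (nat_lit 0x126610356988807)
  (PL.C (nat_lit 0xf19825) (nat_lit 0x2906b8f512664c9) (nat_lit 0x0)
  (PL.C (nat_lit 0xf2662e) (nat_lit 0xba4981391b1e702) (nat_lit 0x0)
  (PL.C (nat_lit 0xf3782a) (nat_lit 0x0) (nat_lit 0x4a130235db8624)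
  (PL.C (nat_lit 0xf3c014) (nat_lit 0x0) (nat_lit 0x2609b7939fb1032)
  (PL.C (nat_lit 0xf3d09f) (nat_lit 0x1595643a3dd4e0) (nat_lit 0x0)
  (PL.C (nat_lit 0xf468a2) (nat_lit 0x2638e03562d2cf6) (nat_lit 0x0)
  (PL.C (nat_lit 0xf47188) (nat_lit 0x914a526fe81939) (nat_lit 0x0)
  (PL.C (nat_lit 0xf480b7) (nat_lit 0x69dfa43dd3418a) (nat_lit 0x0)
  (PL.C (nat_lit 0xf53b56) (nat_lit 0x1ccecc7644e5242) (nat_lit 0x0)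
  (PL.C (nat_lit 0xf597f6) (nat_lit 0x0) (nat_lit 0x635e6980839c346)
  (PL.C (nat_lit 0xf5d039) (nat_lit 0x34e691104f3f3c6) (nat_lit 0x0)
  (PL.C (nat_lit 0xf68c38) (nat_lit 0x0) (nat_lit 0x8114ccdd62641)
  (PL.C (nat_lit 0xf6a423) (nat_lit 0xd2df6426ab18826) (nat_lit 0x0)
  (PL.C (nat_lit 0xf7824e) (nat_lit 0x0) (nat_lit 0x27bc556b5aebfd8)
  (PL.C (nat_lit 0xf825d2) (nat_lit 0x3b4ed0affa4327) (nat_lit 0x0)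
  (PL.C (nat_lit 0xf82e74) (nat_lit 0x16f9328aef8322b) (nat_lit 0x0)
  (PL.C (nat_lit 0xf8672c) (nat_lit 0xe65f6eee64ef3) (nat_lit 0x0) gp2_0_83))))))))))))))))))))

noncomputable def gp2_0_81 : PL :=
  (PL.C (nat_lit 0xe97f1e) (nat_lit 0x0) (nat_lit 0x3479877a22923e3)
  (PL.C (nat_lit 0xe9c32a) (nat_lit 0x0) (nat_lit 0x868506d8db37c9)
  (PL.C (nat_lit 0xea6159) (nat_lit 0x7b1d7f7025425ed) (nat_lit 0x0)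
  (PL.C (nat_lit 0xea6758) (nat_lit 0x2a1cd7567d5bd) (nat_lit 0x0)
  (PL.C (nat_lit 0xead6a7) (nat_lit 0x0) (nat_lit 0x2da2e932bf01636)
  (PL.C (nat_lit 0xeb4a74) (nat_lit 0x0) (nat_lit 0x6c88a7028ae5456)
  (PL.C (nat_lit 0xeb5cb7) (nat_lit 0x14972cc839d96dd) (nat_lit 0x0)
  (PL.C (nat_lit 0xeb9281) (nat_lit 0x0) (nat_lit 0x10f3b7d559a761d)
  (PL.C (nat_lit 0xebab9b) (nat_lit 0x0) (nat_lit 0x1a0e7997e158484)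
  (PL.C (nat_lit 0xec46cc) (nat_lit 0x0) (nat_lit 0xaeee43cc40982a)
  (PL.C (nat_lit 0xec4a1e) (nat_lit 0xc70f4bedbdde446) (nat_lit 0x0)
  (PL.C (nat_lit 0xed61f4) (nat_lit 0x0) (nat_lit 0xf3a25645dc90dd)
  (PL.C (nat_lit 0xee0d76) (nat_lit 0x268d88ed570aeda) (nat_lit 0x0)
  (PL.C (nat_lit 0xee0f18) (nat_lit 0x35468fb8a67cfd) (nat_lit 0x0)
  (PL.C (nat_lit 0xee2192) (nat_lit 0x8aad7f434871f4) (nat_lit 0x0)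
  (PL.C (nat_lit 0xeefa38) (nat_lit 0x0) (nat_lit 0x39d4a4e2428ee61)
  (PL.C (nat_lit 0xef11c4) (nat_lit 0x0) (nat_lit 0xd8bba4c86e5e63)
  (PL.C (nat_lit 0xef3343) (nat_lit 0x6042d150240af) (nat_lit 0x0)
  (PL.C (nat_lit 0xef6bb3) (nat_lit 0x0) (nat_lit 0x84415dd4a9caa2f)
  (PL.C (nat_lit 0xf036ba) (nat_lit 0x292abb050fe3fc5) (nat_lit 0x0) gp2_0_82))))))))))))))))))))

noncomputable def gp2_0_80 : PL :=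
  (PL.C (nat_lit 0xe30acc) (nat_lit 0x0) (nat_lit 0x5ca59f738595209)
  (PL.C (nat_lit 0xe361c4) (nat_lit 0x0) (nat_lit 0x118101a4e6e891c)
  (PL.C (nat_lit 0xe3abac) (nat_lit 0x10845d48aae0b62) (nat_lit 0x0)
  (PL.C (nat_lit 0xe3bfa7) (nat_lit 0x0) (nat_lit 0x465845b5ad5a6b)
  (PL.C (nat_lit 0xe3f7fc) (nat_lit 0x37853ef5569bd) (nat_lit 0x0)
  (PL.C (nat_lit 0xe44ec8) (nat_lit 0x0) (nat_lit 0x65d728a130ff5b)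
  (PL.C (nat_lit 0xe458d6) (nat_lit 0x4795116e26d453f) (nat_lit 0x0)
  (PL.C (nat_lit 0xe52bfc) (nat_lit 0x0) (nat_lit 0x4b390955dc372f)
  (PL.C (nat_lit 0xe621c4) (nat_lit 0x0) (nat_lit 0x4d6059afb5f430e)
  (PL.C (nat_lit 0xe6565c) (nat_lit 0x0) (nat_lit 0x54ab5593580a58)
  (PL.C (nat_lit 0xe668fb) (nat_lit 0x0) (nat_lit 0x10f3b7d559a761d)
  (PL.C (nat_lit 0xe6c9a4) (nat_lit 0x6af32e723fc6bc) (nat_lit 0x0)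
  (PL.C (nat_lit 0xe728ef) (nat_lit 0xa38d57c93b356d) (nat_lit 0x0)
  (PL.C (nat_lit 0xe7621c) (nat_lit 0x26f6df3b79de6d) (nat_lit 0x0)
  (PL.C (nat_lit 0xe7d40c) (nat_lit 0x0) (nat_lit 0x3d395652e00e24)
  (PL.C (nat_lit 0xe833c5) (nat_lit 0x85f83a72ec6646) (nat_lit 0x0)
  (PL.C (nat_lit 0xe88cb7) (nat_lit 0x36f68fbddde200) (nat_lit 0x0)
  (PL.C (nat_lit 0xe8c63c) (nat_lit 0x0) (nat_lit 0xfdb6728accdfc8)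
  (PL.C (nat_lit 0xe8d84d) (nat_lit 0x0) (nat_lit 0x46a19684b9e03)
  (PL.C (nat_lit 0xe92659) (nat_lit 0x43d963c77d493a) (nat_lit 0x0) gp2_0_81))))))))))))))))))))

noncomputable def gp2_0_79 : PL :=
  (PL.C (nat_lit 0xdb1ad6) (nat_lit 0x0) (nat_lit 0x10fe59ca148dea5)
  (PL.C (nat_lit 0xdba245) (nat_lit 0x1bd7202ebea0491) (nat_lit 0x0)
  (PL.C (nat_lit 0xdc523a) (nat_lit 0x39e716cace1ee2) (nat_lit 0x0)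
  (PL.C (nat_lit 0xddd07e) (nat_lit 0x4c844d9c8ca8287) (nat_lit 0x0)
  (PL.C (nat_lit 0xde021f) (nat_lit 0x425d652e1a88c8ac) (nat_lit 0x0)
  (PL.C (nat_lit 0xde3f82) (nat_lit 0xfa700d4bfe9c14) (nat_lit 0x0)
  (PL.C (nat_lit 0xdeb004) (nat_lit 0x0) (nat_lit 0x43b4987a80fe18)
  (PL.C (nat_lit 0xdebe62) (nat_lit 0x0) (nat_lit 0x4a130235db8624)
  (PL.C (nat_lit 0xdedeec) (nat_lit 0x0) (nat_lit 0x143946483f3f7e2a)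
  (PL.C (nat_lit 0xdf16d7) (nat_lit 0xd2df6426ab18826) (nat_lit 0x0)
  (PL.C (nat_lit 0xdfaa39) (nat_lit 0x0) (nat_lit 0x37ca9cf5d0930cc)
  (PL.C (nat_lit 0xe00619) (nat_lit 0x3cbdc4d9ff4ee72) (nat_lit 0x0)
  (PL.C (nat_lit 0xe09ec2) (nat_lit 0x0) (nat_lit 0x1b3c7e0da1e555e)
  (PL.C (nat_lit 0xe0c526) (nat_lit 0x0) (nat_lit 0x32436d0f854f67d)
  (PL.C (nat_lit 0xe14a34) (nat_lit 0x0) (nat_lit 0x1a378beee0270ab)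
  (PL.C (nat_lit 0xe17e28) (nat_lit 0x0) (nat_lit 0x7561ca4f691636)
  (PL.C (nat_lit 0xe205e4) (nat_lit 0x0) (nat_lit 0xd633f748f743fd)
  (PL.C (nat_lit 0xe2153b) (nat_lit 0x0) (nat_lit 0x3a85a2f365d2ba3)
  (PL.C (nat_lit 0xe295aa) (nat_lit 0xa15e2afb1365f71) (nat_lit 0x0)
  (PL.C (nat_lit 0xe2a8ce) (nat_lit 0xc62725367f244e) (nat_lit 0x0) gp2_0_80))))))))))))))))))))

noncomputable def gp2_0_78 : PL :=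
  (PL.C (nat_lit 0xd674e1) (nat_lit 0x35b3a266e8f026) (nat_lit 0x0)
  (PL.C (nat_lit 0xd68bbb) (nat_lit 0x1bef619980b1ef1) (nat_lit 0x0)
  (PL.C (nat_lit 0xd6c0cc) (nat_lit 0xe9fe1bc52544c3b) (nat_lit 0x0)
  (PL.C (nat_lit 0xd7028f) (nat_lit 0x606dee6c7832e82) (nat_lit 0x0)
  (PL.C (nat_lit 0xd7521e) (nat_lit 0x0) (nat_lit 0xc01c35637112ed)
  (PL.C (nat_lit 0xd7611c) (nat_lit 0x0) (nat_lit 0x8d1a7fe6c1246b)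
  (PL.C (nat_lit 0xd76cd8) (nat_lit 0x6282c70ad5b84e) (nat_lit 0x0)
  (PL.C (nat_lit 0xd83c15) (nat_lit 0x0) (nat_lit 0x129c88543b539c71)
  (PL.C (nat_lit 0xd87e5d) (nat_lit 0x874ba0fc95f6ec) (nat_lit 0x0)
  (PL.C (nat_lit 0xd883d6) (nat_lit 0x0) (nat_lit 0x11a05ba7640a643)
  (PL.C (nat_lit 0xd91324) (nat_lit 0x0) (nat_lit 0x59b63060302c1c0)
  (PL.C (nat_lit 0xd9559d) (nat_lit 0x0) (nat_lit 0xa596147319aa36c)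
  (PL.C (nat_lit 0xd9c263) (nat_lit 0x0) (nat_lit 0x333c76c8c55a061)
  (PL.C (nat_lit 0xd9cb38) (nat_lit 0x9ef10684e24ade) (nat_lit 0x0)
  (PL.C (nat_lit 0xd9e9c8) (nat_lit 0x0) (nat_lit 0x9fd59f36274091)
  (PL.C (nat_lit 0xda2dc4) (nat_lit 0x0) (nat_lit 0xed3f369898c803)
  (PL.C (nat_lit 0xda60fa) (nat_lit 0x0) (nat_lit 0x52bdca6e316c3a)
  (PL.C (nat_lit 0xda7bc7) (nat_lit 0x734f4e1d29f918e) (nat_lit 0x0)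
  (PL.C (nat_lit 0xdabdc1) (nat_lit 0x0) (nat_lit 0x2ed98f08ccb06c2)
  (PL.C (nat_lit 0xdb118b) (nat_lit 0x25f3b9e9e0338d2) (nat_lit 0x0) gp2_0_79))))))))))))))))))))

noncomputable def gp2_0_77 : PL :=
  (PL.C (nat_lit 0xcf014d) (nat_lit 0x0) (nat_lit 0x4f04157b7bb198)
  (PL.C (nat_lit 0xcf65fd) (nat_lit 0x2db9ffdd03dd05e) (nat_lit 0x0)
  (PL.C (nat_lit 0xd14c5a) (nat_lit 0xeb55ce528f1db4) (nat_lit 0x0)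
  (PL.C (nat_lit 0xd1b0dc) (nat_lit 0xc884106705e628) (nat_lit 0x0)
  (PL.C (nat_lit 0xd1c734) (nat_lit 0x11d8d0ee2ef60b5f) (nat_lit 0x0)
  (PL.C (nat_lit 0xd20771) (nat_lit 0x0) (nat_lit 0x1dd1cad43906a79)
  (PL.C (nat_lit 0xd21b12) (nat_lit 0x7d04270d85465de) (nat_lit 0x0)
  (PL.C (nat_lit 0xd23b64) (nat_lit 0x0) (nat_lit 0x2f24d4ab67165a4)
  (PL.C (nat_lit 0xd2708f) (nat_lit 0x66b55fc0d24cec) (nat_lit 0x0)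
  (PL.C (nat_lit 0xd2a49c) (nat_lit 0xd7c5b1bf65a353) (nat_lit 0x0)
  (PL.C (nat_lit 0xd2d854) (nat_lit 0x0) (nat_lit 0xfc832c493d075f)
  (PL.C (nat_lit 0xd30b51) (nat_lit 0x19b2044a666e9c) (nat_lit 0x0)
  (PL.C (nat_lit 0xd32f63) (nat_lit 0xaf6773c093a189) (nat_lit 0x0)
  (PL.C (nat_lit 0xd33326) (nat_lit 0x1269152d0f9b35e) (nat_lit 0x0)
  (PL.C (nat_lit 0xd3bd6e) (nat_lit 0x0) (nat_lit 0xb160c4a9335189b)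
  (PL.C (nat_lit 0xd493dc) (nat_lit 0x0) (nat_lit 0x916fa309574560)
  (PL.C (nat_lit 0xd4eb94) (nat_lit 0xddeef4fec863414) (nat_lit 0x0)
  (PL.C (nat_lit 0xd5cc9e) (nat_lit 0x0) (nat_lit 0xf96c0145fdeec0)
  (PL.C (nat_lit 0xd5e15c) (nat_lit 0x0) (nat_lit 0x21d7bd1dd5be579)
  (PL.C (nat_lit 0xd63b24) (nat_lit 0x0) (nat_lit 0x6bbca9dabca417) gp2_0_78))))))))))))))))))))

noncomputable def gp2_0_76 : PL :=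
  (PL.C (nat_lit 0xc9cfd4) (nat_lit 0x0) (nat_lit 0x1731f3a0a57a021)
  (PL.C (nat_lit 0xca1bbf) (nat_lit 0x12e6b269f975f0d3) (nat_lit 0x0)
  (PL.C (nat_lit 0xca67ac) (nat_lit 0x0) (nat_lit 0xfb4307e1d8d35)
  (PL.C (nat_lit 0xca9803) (nat_lit 0x478ee690d6c11ea) (nat_lit 0x0)
  (PL.C (nat_lit 0xcac722) (nat_lit 0x289fdac1090d92) (nat_lit 0x0)
  (PL.C (nat_lit 0xcb0b1a) (nat_lit 0x0) (nat_lit 0xf511116959ba37)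
  (PL.C (nat_lit 0xcb1d6c) (nat_lit 0x2f5fad0b5827e01) (nat_lit 0x0)
  (PL.C (nat_lit 0xcbd6ab) (nat_lit 0x30021334a3818) (nat_lit 0x0)
  (PL.C (nat_lit 0xcbf179) (nat_lit 0x0) (nat_lit 0x2cc864a889878ad)
  (PL.C (nat_lit 0xcbf472) (nat_lit 0x3bf50228c775e5c) (nat_lit 0x0)
  (PL.C (nat_lit 0xcc9f66) (nat_lit 0x36426a3dd27faf) (nat_lit 0x0)
  (PL.C (nat_lit 0xcca446) (nat_lit 0x0) (nat_lit 0x427ceb85e4f2b8d)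
  (PL.C (nat_lit 0xcd5c9c) (nat_lit 0x0) (nat_lit 0x5ca59f738595209)
  (PL.C (nat_lit 0xcd8128) (nat_lit 0x578c4f6799b343) (nat_lit 0x0)
  (PL.C (nat_lit 0xcdaeb6) (nat_lit 0x0) (nat_lit 0x336c9321dc5c53)
  (PL.C (nat_lit 0xcdc364) (nat_lit 0x2e13e34f13bd6f0) (nat_lit 0x0)
  (PL.C (nat_lit 0xcdd15b) (nat_lit 0x0) (nat_lit 0xdb02276853c6d08)
  (PL.C (nat_lit 0xcddcbb) (nat_lit 0xe695d737ef2954) (nat_lit 0x0)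
  (PL.C (nat_lit 0xce81a8) (nat_lit 0x0) (nat_lit 0xf89cb336951aa)
  (PL.C (nat_lit 0xcedd53) (nat_lit 0x0) (nat_lit 0x9979e492e884e27) gp2_0_77))))))))))))))))))))

noncomputable def gp2_0_75 : PL :=
  (PL.C (nat_lit 0xc4499c) (nat_lit 0x0) (nat_lit 0xa194fa8ad23b44)
  (PL.C (nat_lit 0xc54a28) (nat_lit 0x0) (nat_lit 0xd1598e950c470)
  (PL.C (nat_lit 0xc56f64) (nat_lit 0x45642febabbb9d) (nat_lit 0x0)
  (PL.C (nat_lit 0xc5da7d) (nat_lit 0x0) (nat_lit 0x9a3e5cb5beb915)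
  (PL.C (nat_lit 0xc5e96e) (nat_lit 0x0) (nat_lit 0x42c5d8b98fe68b)
  (PL.C (nat_lit 0xc61263) (nat_lit 0x0) (nat_lit 0x13edfffaca8febc)
  (PL.C (nat_lit 0xc63d83) (nat_lit 0x0) (nat_lit 0x23c60f664afa42c)
  (PL.C (nat_lit 0xc6534c) (nat_lit 0x4480e94320501ad) (nat_lit 0x0)
  (PL.C (nat_lit 0xc65d33) (nat_lit 0x689b79844719fb6) (nat_lit 0x0)
  (PL.C (nat_lit 0xc69f44) (nat_lit 0x0) (nat_lit 0x11dfc6b3983ec62)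
  (PL.C (nat_lit 0xc6f147) (nat_lit 0x0) (nat_lit 0x89b7735db3e0d2)
  (PL.C (nat_lit 0xc7227c) (nat_lit 0x2291291d4e75940) (nat_lit 0x0)
  (PL.C (nat_lit 0xc77716) (nat_lit 0x7c9715dc3dccb54) (nat_lit 0x0)
  (PL.C (nat_lit 0xc7e93f) (nat_lit 0x273980a24cfdd14) (nat_lit 0x0)
  (PL.C (nat_lit 0xc80d2a) (nat_lit 0x0) (nat_lit 0x9f42d41e8ef150)
  (PL.C (nat_lit 0xc86d51) (nat_lit 0x9132a4a3b1daad) (nat_lit 0x0)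
  (PL.C (nat_lit 0xc8744a) (nat_lit 0x240ca0c510617b) (nat_lit 0x0)
  (PL.C (nat_lit 0xc8f578) (nat_lit 0x9ef10684e24ade) (nat_lit 0x0)
  (PL.C (nat_lit 0xc94872) (nat_lit 0x0) (nat_lit 0x588665565fad56)
  (PL.C (nat_lit 0xc9c606) (nat_lit 0x0) (nat_lit 0x130dbc03253228c) gp2_0_76))))))))))))))))))))

noncomputable def gp2_0_74 : PL :=
  (PL.C (nat_lit 0xbf6ee4) (nat_lit 0x0) (nat_lit 0x338bb901b34998)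
  (PL.C (nat_lit 0xbfdcb8) (nat_lit 0xc889e5999fcaa) (nat_lit 0x0)
  (PL.C (nat_lit 0xc045f3) (nat_lit 0x4d0e84bf240a69e) (nat_lit 0x0)
  (PL.C (nat_lit 0xc05631) (nat_lit 0x2969a0ac3d6abb) (nat_lit 0x0)
  (PL.C (nat_lit 0xc070ec) (nat_lit 0x0) (nat_lit 0xd1b4511d1bd150)
  (PL.C (nat_lit 0xc0c2ae) (nat_lit 0x0) (nat_lit 0x72b22c6368296c9)
  (PL.C (nat_lit 0xc11832) (nat_lit 0x3de7d8498ef91c3) (nat_lit 0x0)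
  (PL.C (nat_lit 0xc174ec) (nat_lit 0x0) (nat_lit 0xb5ae136d0e34498)
  (PL.C (nat_lit 0xc18388) (nat_lit 0xeebff12b51933) (nat_lit 0x0)
  (PL.C (nat_lit 0xc1ab94) (nat_lit 0x2a7d186dec0f046) (nat_lit 0x0)
  (PL.C (nat_lit 0xc1c4cd) (nat_lit 0xf43dd11bd3dbce) (nat_lit 0x0)
  (PL.C (nat_lit 0xc270cc) (nat_lit 0x0) (nat_lit 0x1a378beee0270ab)
  (PL.C (nat_lit 0xc28584) (nat_lit 0x96702cb580c9722) (nat_lit 0x0)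
  (PL.C (nat_lit 0xc2c115) (nat_lit 0x9216e44fbeba56) (nat_lit 0x0)
  (PL.C (nat_lit 0xc2d94e) (nat_lit 0x0) (nat_lit 0x6daefa859f87212)
  (PL.C (nat_lit 0xc39b18) (nat_lit 0x18e413786d357f) (nat_lit 0x0)
  (PL.C (nat_lit 0xc3c8af) (nat_lit 0xb658c22e86b125) (nat_lit 0x0)
  (PL.C (nat_lit 0xc3d6fe) (nat_lit 0x0) (nat_lit 0x113cbec91b81fee)
  (PL.C (nat_lit 0xc3f91c) (nat_lit 0x0) (nat_lit 0x4cbd2c762e3ae6)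
  (PL.C (nat_lit 0xc43902) (nat_lit 0x0) (nat_lit 0x5e217ce4454e4) gp2_0_75))))))))))))))))))))

noncomputable def gp2_0_73 : PL :=
  (PL.C (nat_lit 0xb96698) (nat_lit 0x0) (nat_lit 0x3e23a3a4fa56b42)
  (PL.C (nat_lit 0xb97652) (nat_lit 0x0) (nat_lit 0x868506d8db37c9)
  (PL.C (nat_lit 0xb98092) (nat_lit 0x1ae3fede40c42ee) (nat_lit 0x0)
  (PL.C (nat_lit 0xb98648) (nat_lit 0x4d992e7d9ec791) (nat_lit 0x0)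
  (PL.C (nat_lit 0xb99f5e) (nat_lit 0x3cf50b9dd54eb5) (nat_lit 0x0)
  (PL.C (nat_lit 0xb9e032) (nat_lit 0x0) (nat_lit 0x351766a0fe420f8)
  (PL.C (nat_lit 0xbb195e) (nat_lit 0x0) (nat_lit 0x65f52aac8e341d)
  (PL.C (nat_lit 0xbb3ef6) (nat_lit 0x4c844d9c8ca8287) (nat_lit 0x0)
  (PL.C (nat_lit 0xbb68db) (nat_lit 0x0) (nat_lit 0x69edcf5682ca395)
  (PL.C (nat_lit 0xbb8ea4) (nat_lit 0x0) (nat_lit 0x1647ae68c4ceb8)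
  (PL.C (nat_lit 0xbbbaaa) (nat_lit 0x0) (nat_lit 0x4de0189ce70430)
  (PL.C (nat_lit 0xbc5273) (nat_lit 0x0) (nat_lit 0x26b756e8b28d654)
  (PL.C (nat_lit 0xbc97e7) (nat_lit 0x606dee6c7832e82) (nat_lit 0x0)
  (PL.C (nat_lit 0xbccedd) (nat_lit 0x329c4690b5a2700) (nat_lit 0x0)
  (PL.C (nat_lit 0xbd14ba) (nat_lit 0x7c9715dc3dccb54) (nat_lit 0x0)
  (PL.C (nat_lit 0xbd9d4a) (nat_lit 0x0) (nat_lit 0x30527796d04b661)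
  (PL.C (nat_lit 0xbe2e04) (nat_lit 0x0) (nat_lit 0x925c3bee6228d0)
  (PL.C (nat_lit 0xbecc74) (nat_lit 0x1eeb1a6d2ea619) (nat_lit 0x0)
  (PL.C (nat_lit 0xbed967) (nat_lit 0x17b387d3037d9457) (nat_lit 0x0)
  (PL.C (nat_lit 0xbf45d2) (nat_lit 0x1e3debb82fa637) (nat_lit 0x0) gp2_0_74))))))))))))))))))))

noncomputable def gp2_0_72 : PL :=
  (PL.C (nat_lit 0xb3bce4) (nat_lit 0x0) (nat_lit 0x4ddc9462146970)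
  (PL.C (nat_lit 0xb3cd28) (nat_lit 0x49fdd270f7e034) (nat_lit 0x0)
  (PL.C (nat_lit 0xb49e02) (nat_lit 0x534399dc61a81dd) (nat_lit 0x0)
  (PL.C (nat_lit 0xb540b4) (nat_lit 0x0) (nat_lit 0x12b48d248baf2f7)
  (PL.C (nat_lit 0xb548fc) (nat_lit 0x0) (nat_lit 0x145a58dd834300d)
  (PL.C (nat_lit 0xb56c89) (nat_lit 0xb8c07fd5bdcc36) (nat_lit 0x0)
  (PL.C (nat_lit 0xb58b8b) (nat_lit 0x2899cf6e158c84) (nat_lit 0x0)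
  (PL.C (nat_lit 0xb5da38) (nat_lit 0x4f92b121b578f6) (nat_lit 0x0)
  (PL.C (nat_lit 0xb68929) (nat_lit 0x0) (nat_lit 0x65b034f8b832b8b)
  (PL.C (nat_lit 0xb6bdfc) (nat_lit 0x6c0ad2b1ce41c1) (nat_lit 0x0)
  (PL.C (nat_lit 0xb73eb4) (nat_lit 0x0) (nat_lit 0x25bef25988377e9)
  (PL.C (nat_lit 0xb76156) (nat_lit 0x0) (nat_lit 0x6a14fca8f8104)
  (PL.C (nat_lit 0xb76a1a) (nat_lit 0x44b5a1bdafc831) (nat_lit 0x0)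
  (PL.C (nat_lit 0xb776d1) (nat_lit 0x3d78f84b6ddd11b) (nat_lit 0x0)
  (PL.C (nat_lit 0xb7da18) (nat_lit 0x0) (nat_lit 0x6ceb5d9d601c54)
  (PL.C (nat_lit 0xb7e346) (nat_lit 0x42c9ddbea9bda6) (nat_lit 0x0)
  (PL.C (nat_lit 0xb817b8) (nat_lit 0x10cb21521b44aca) (nat_lit 0x0)
  (PL.C (nat_lit 0xb86704) (nat_lit 0x28ad95660946eb6) (nat_lit 0x0)
  (PL.C (nat_lit 0xb86f23) (nat_lit 0x0) (nat_lit 0xc92f8f561200dc4)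
  (PL.C (nat_lit 0xb919ae) (nat_lit 0x0) (nat_lit 0x813a5c21d275978) gp2_0_73))))))))))))))))))))

noncomputable def gp2_0_71 : PL :=
  (PL.C (nat_lit 0xadbb96) (nat_lit 0x23b8abd3d50acd) (nat_lit 0x0)
  (PL.C (nat_lit 0xadbe07) (nat_lit 0x0) (nat_lit 0xdb02276853c6d08)
  (PL.C (nat_lit 0xadff4c) (nat_lit 0x1c710a616577fa1) (nat_lit 0x0)
  (PL.C (nat_lit 0xae8bca) (nat_lit 0x0) (nat_lit 0x125fa3c04f37a03)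
  (PL.C (nat_lit 0xaee0a3) (nat_lit 0x15a568cbb3e88) (nat_lit 0x0)
  (PL.C (nat_lit 0xaf5462) (nat_lit 0x1e62747861486d6) (nat_lit 0x0)
  (PL.C (nat_lit 0xafa2d8) (nat_lit 0x0) (nat_lit 0xd48ce9b97f1810)
  (PL.C (nat_lit 0xafc6d4) (nat_lit 0xb4acef07673e60) (nat_lit 0x0)
  (PL.C (nat_lit 0xafedcb) (nat_lit 0x1bc719f2507222) (nat_lit 0x0)
  (PL.C (nat_lit 0xb06205) (nat_lit 0xcbc43057202d2) (nat_lit 0x0)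
  (PL.C (nat_lit 0xb0f823) (nat_lit 0x0) (nat_lit 0x5b18960613717a)
  (PL.C (nat_lit 0xb177f4) (nat_lit 0x281bfa9099c0f3e) (nat_lit 0x0)
  (PL.C (nat_lit 0xb1c13b) (nat_lit 0xd98ca0ebdc356e) (nat_lit 0x0)
  (PL.C (nat_lit 0xb1e898) (nat_lit 0x1fd5fd376166fb) (nat_lit 0x0)
  (PL.C (nat_lit 0xb1f3a5) (nat_lit 0x0) (nat_lit 0x1b7405178cef8f)
  (PL.C (nat_lit 0xb27abc) (nat_lit 0x6bdbf43885ac09a) (nat_lit 0x0)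
  (PL.C (nat_lit 0xb2bee2) (nat_lit 0x2941bb399ba852a) (nat_lit 0x0)
  (PL.C (nat_lit 0xb3631c) (nat_lit 0x0) (nat_lit 0x11b9ad89cdfd7bb)
  (PL.C (nat_lit 0xb370a8) (nat_lit 0x0) (nat_lit 0xeb1e5f791a11a)
  (PL.C (nat_lit 0xb3a0ba) (nat_lit 0xb5c6a78c834812) (nat_lit 0x0) gp2_0_72))))))))))))))))))))

noncomputable def gp2_0_70 : PL :=
  (PL.C (nat_lit 0xa936f2) (nat_lit 0x207ce30eb4518bf) (nat_lit 0x0)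
  (PL.C (nat_lit 0xa942ad) (nat_lit 0x0) (nat_lit 0xd8d0f20c112e33)
  (PL.C (nat_lit 0xa95d9e) (nat_lit 0x1ccecc7644e5242) (nat_lit 0x0)
  (PL.C (nat_lit 0xa96faa) (nat_lit 0x0) (nat_lit 0xf892bdac743e2e5)
  (PL.C (nat_lit 0xa9b262) (nat_lit 0x0) (nat_lit 0xb4674b0a55914)
  (PL.C (nat_lit 0xa9c508) (nat_lit 0xc795c2e0466a93) (nat_lit 0x0)
  (PL.C (nat_lit 0xa9cd82) (nat_lit 0x161a3eed8a01083) (nat_lit 0x0)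
  (PL.C (nat_lit 0xa9eb04) (nat_lit 0x320dcd6bc159317) (nat_lit 0x0)
  (PL.C (nat_lit 0xaa1342) (nat_lit 0x66103d0a9abbf2) (nat_lit 0x0)
  (PL.C (nat_lit 0xaa227e) (nat_lit 0x2c75895635bcba6) (nat_lit 0x0)
  (PL.C (nat_lit 0xaa839e) (nat_lit 0x0) (nat_lit 0xb4aa0605e5cf0d)
  (PL.C (nat_lit 0xab054f) (nat_lit 0x0) (nat_lit 0x102cbca9c6d3e34a)
  (PL.C (nat_lit 0xab2f9c) (nat_lit 0x0) (nat_lit 0x9d7df52e47a7fc)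
  (PL.C (nat_lit 0xabf95a) (nat_lit 0x0) (nat_lit 0x57a6b2f3ba52d7b)
  (PL.C (nat_lit 0xac04f4) (nat_lit 0x20d2952944e3dab) (nat_lit 0x0)
  (PL.C (nat_lit 0xac4bfb) (nat_lit 0x9216e44fbeba56) (nat_lit 0x0)
  (PL.C (nat_lit 0xacbfde) (nat_lit 0x0) (nat_lit 0x69d71104aa54275)
  (PL.C (nat_lit 0xad020a) (nat_lit 0x0) (nat_lit 0xc30cba4a64a3fc)
  (PL.C (nat_lit 0xad0862) (nat_lit 0x9d5f66f87116f1) (nat_lit 0x0)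
  (PL.C (nat_lit 0xad7456) (nat_lit 0x0) (nat_lit 0x76da10c6f3d6d85) gp2_0_71))))))))))))))))))))

noncomputable def gp2_0_69 : PL :=
  (PL.C (nat_lit 0xa24eff) (nat_lit 0x0) (nat_lit 0x6310bc1dc037ade)
  (PL.C (nat_lit 0xa2501c) (nat_lit 0xbd2712e3d8c86e) (nat_lit 0x0)
  (PL.C (nat_lit 0xa25cb5) (nat_lit 0x2969a0ac3d6abb) (nat_lit 0x0)
  (PL.C (nat_lit 0xa29321) (nat_lit 0x21582236b561b5) (nat_lit 0x0)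
  (PL.C (nat_lit 0xa2f06c) (nat_lit 0x0) (nat_lit 0x117a2494a47cc8e)
  (PL.C (nat_lit 0xa3007a) (nat_lit 0x7575b8ebe6efed6) (nat_lit 0x0)
  (PL.C (nat_lit 0xa37ce4) (nat_lit 0x98bba5ac05a8b4) (nat_lit 0x0)
  (PL.C (nat_lit 0xa3baa4) (nat_lit 0x5b623bdb42ca7b) (nat_lit 0x0)
  (PL.C (nat_lit 0xa3c839) (nat_lit 0x728d0ba908f5a7) (nat_lit 0x0)
  (PL.C (nat_lit 0xa3e026) (nat_lit 0x2d7137a6498d710) (nat_lit 0x0)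
  (PL.C (nat_lit 0xa545ab) (nat_lit 0xb658c22e86b125) (nat_lit 0x0)
  (PL.C (nat_lit 0xa5499b) (nat_lit 0x0) (nat_lit 0x60bf00e1f5d97ed)
  (PL.C (nat_lit 0xa56e8c) (nat_lit 0x0) (nat_lit 0x3797b6849398a5)
  (PL.C (nat_lit 0xa5cdb4) (nat_lit 0x340370c6601a60e) (nat_lit 0x0)
  (PL.C (nat_lit 0xa5de7e) (nat_lit 0xf55ec878c2f633) (nat_lit 0x0)
  (PL.C (nat_lit 0xa63182) (nat_lit 0x3b4ed0affa4327) (nat_lit 0x0)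
  (PL.C (nat_lit 0xa64bb8) (nat_lit 0x0) (nat_lit 0xc9aeec4082a3f4)
  (PL.C (nat_lit 0xa69062) (nat_lit 0x0) (nat_lit 0x588665565fad56)
  (PL.C (nat_lit 0xa73864) (nat_lit 0x587b962e0ba4839) (nat_lit 0x0)
  (PL.C (nat_lit 0xa7733f) (nat_lit 0x1d6f6f24cd8ac83) (nat_lit 0x0) gp2_0_70))))))))))))))))))))

noncomputable def gp2_0_68 : PL :=
  (PL.C (nat_lit 0x9bf601) (nat_lit 0x0) (nat_lit 0x2c44de4a15ab382)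
  (PL.C (nat_lit 0x9c40e6) (nat_lit 0x0) (nat_lit 0xdc1cdf92d03d07f)
  (PL.C (nat_lit 0x9c8f1a) (nat_lit 0x1f5278bcc927373) (nat_lit 0x0)
  (PL.C (nat_lit 0x9ce87a) (nat_lit 0x0) (nat_lit 0xdde6b553b4a456)
  (PL.C (nat_lit 0x9d0c56) (nat_lit 0x0) (nat_lit 0x11b115970dca33e)
  (PL.C (nat_lit 0x9d1d12) (nat_lit 0xcd2fe4f3b8ff0f) (nat_lit 0x0)
  (PL.C (nat_lit 0x9d60bf) (nat_lit 0x1d6f6f24cd8ac83) (nat_lit 0x0)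
  (PL.C (nat_lit 0x9d8488) (nat_lit 0x0) (nat_lit 0x70591fdc7a0557)
  (PL.C (nat_lit 0x9eb3a4) (nat_lit 0x0) (nat_lit 0x1f3f58a5f0a4301)
  (PL.C (nat_lit 0x9ec10c) (nat_lit 0x1a8f88d8e9fd976) (nat_lit 0x0)
  (PL.C (nat_lit 0x9ee43d) (nat_lit 0x209f701ad0bc6c5) (nat_lit 0x0)
  (PL.C (nat_lit 0x9f33c3) (nat_lit 0xfb8f88a7e27b1) (nat_lit 0x0)
  (PL.C (nat_lit 0x9f7782) (nat_lit 0x951bac19535caf) (nat_lit 0x0)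
  (PL.C (nat_lit 0x9f9d22) (nat_lit 0xc70f4bedbdde446) (nat_lit 0x0)
  (PL.C (nat_lit 0xa0247c) (nat_lit 0x25248ec96f3e4d8) (nat_lit 0x0)
  (PL.C (nat_lit 0xa02f96) (nat_lit 0x0) (nat_lit 0x31a8512d0e27586)
  (PL.C (nat_lit 0xa06cf2) (nat_lit 0x817fad693d6474d) (nat_lit 0x0)
  (PL.C (nat_lit 0xa0d6ee) (nat_lit 0x0) (nat_lit 0x204cb5673885f25)
  (PL.C (nat_lit 0xa11b43) (nat_lit 0x4139428e27413b2) (nat_lit 0x0)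
  (PL.C (nat_lit 0xa19974) (nat_lit 0x11f7aa82dbee7cdf) (nat_lit 0x0) gp2_0_69))))))))))))))))))))

noncomputable def gp2_0_67 : PL :=
  (PL.C (nat_lit 0x971b34) (nat_lit 0xa60ac93540b5f0) (nat_lit 0x0)
  (PL.C (nat_lit 0x973cb3) (nat_lit 0x0) (nat_lit 0x7931440323a6dda)
  (PL.C (nat_lit 0x975c88) (nat_lit 0x0) (nat_lit 0x1762135d9995f75)
  (PL.C (nat_lit 0x97a09d) (nat_lit 0x0) (nat_lit 0x2eced20829bb18)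
  (PL.C (nat_lit 0x97c7c8) (nat_lit 0x6edee6d9f7066a) (nat_lit 0x0)
  (PL.C (nat_lit 0x97d51a) (nat_lit 0x0) (nat_lit 0x32436d0f854f67d)
  (PL.C (nat_lit 0x97faa8) (nat_lit 0x0) (nat_lit 0x3f0caeffad9586)
  (PL.C (nat_lit 0x99266d) (nat_lit 0x0) (nat_lit 0x2f8e947a80e16ea)
  (PL.C (nat_lit 0x996bd8) (nat_lit 0x0) (nat_lit 0x36013d7df02f9db)
  (PL.C (nat_lit 0x998ee8) (nat_lit 0x0) (nat_lit 0xc2deb0ac50dd)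
  (PL.C (nat_lit 0x999b52) (nat_lit 0x0) (nat_lit 0x11b115970dca33e)
  (PL.C (nat_lit 0x9a1b4a) (nat_lit 0x13c2dec34ec465e) (nat_lit 0x0)
  (PL.C (nat_lit 0x9a4168) (nat_lit 0x0) (nat_lit 0xd49e16e38a812)
  (PL.C (nat_lit 0x9a7d51) (nat_lit 0x0) (nat_lit 0x9979e492e884e27)
  (PL.C (nat_lit 0x9acd2e) (nat_lit 0xf55ec878c2f633) (nat_lit 0x0)
  (PL.C (nat_lit 0x9b087a) (nat_lit 0x1126926f1b19b4) (nat_lit 0x0)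
  (PL.C (nat_lit 0x9b3ade) (nat_lit 0xe6be8d18157080) (nat_lit 0x0)
  (PL.C (nat_lit 0x9b6ee6) (nat_lit 0x10cbe11471f1276) (nat_lit 0x0)
  (PL.C (nat_lit 0x9baa14) (nat_lit 0x0) (nat_lit 0x3594e5b201cc48)
  (PL.C (nat_lit 0x9bb0ef) (nat_lit 0x734f4e1d29f918e) (nat_lit 0x0) gp2_0_68))))))))))))))))))))

noncomputable def gp2_0_66 : PL :=
  (PL.C (nat_lit 0x920bb2) (nat_lit 0x1738aa4061eca5c) (nat_lit 0x0)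
  (PL.C (nat_lit 0x9211e4) (nat_lit 0xf868f197e25018) (nat_lit 0x0)
  (PL.C (nat_lit 0x926c2e) (nat_lit 0x0) (nat_lit 0x7768b032523d482)
  (PL.C (nat_lit 0x92aa63) (nat_lit 0x1595643a3dd4e0) (nat_lit 0x0)
  (PL.C (nat_lit 0x92cf43) (nat_lit 0x0) (nat_lit 0x2dfb4b7651ccd9)
  (PL.C (nat_lit 0x92e17c) (nat_lit 0x0) (nat_lit 0x1721b5e67a760)
  (PL.C (nat_lit 0x93e054) (nat_lit 0x1e06ea28dc0e58a) (nat_lit 0x0)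
  (PL.C (nat_lit 0x94016a) (nat_lit 0x208b93ef546c3823) (nat_lit 0x0)
  (PL.C (nat_lit 0x941d63) (nat_lit 0x604f5f6eb2b2af) (nat_lit 0x0)
  (PL.C (nat_lit 0x947558) (nat_lit 0x4d992e7d9ec791) (nat_lit 0x0)
  (PL.C (nat_lit 0x947eec) (nat_lit 0xbd2712e3d8c86e) (nat_lit 0x0)
  (PL.C (nat_lit 0x951c26) (nat_lit 0x0) (nat_lit 0x52c28db6de415e9)
  (PL.C (nat_lit 0x955966) (nat_lit 0x0) (nat_lit 0xf96c0145fdeec0)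
  (PL.C (nat_lit 0x95bf2c) (nat_lit 0x0) (nat_lit 0x2b3663a175edd43)
  (PL.C (nat_lit 0x95d8c4) (nat_lit 0x0) (nat_lit 0x232b5dd4ab62635)
  (PL.C (nat_lit 0x95ed07) (nat_lit 0x0) (nat_lit 0x67c4657caa5602)
  (PL.C (nat_lit 0x963178) (nat_lit 0x0) (nat_lit 0x1bd2d878b7d2684)
  (PL.C (nat_lit 0x96811b) (nat_lit 0xf57226d21a6eab) (nat_lit 0x0)
  (PL.C (nat_lit 0x96ae98) (nat_lit 0x0) (nat_lit 0x12a9fac65b79a9f)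
  (PL.C (nat_lit 0x96b8d2) (nat_lit 0x3161d017f06d915) (nat_lit 0x0) gp2_0_67))))))))))))))))))))

noncomputable def gp2_0_65 : PL :=
  (PL.C (nat_lit 0x8cccc4) (nat_lit 0x18200afef4d62b1) (nat_lit 0x0)
  (PL.C (nat_lit 0x8d06e7) (nat_lit 0xd98ca0ebdc356e) (nat_lit 0x0)
  (PL.C (nat_lit 0x8d28f4) (nat_lit 0x0) (nat_lit 0x832e60b36e33c13)
  (PL.C (nat_lit 0x8db7e8) (nat_lit 0x0) (nat_lit 0xc9dd838a9cf109)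
  (PL.C (nat_lit 0x8ed218) (nat_lit 0x0) (nat_lit 0x18a3800bc5479bf)
  (PL.C (nat_lit 0x8ef896) (nat_lit 0x1e41b78ed1b6d04) (nat_lit 0x0)
  (PL.C (nat_lit 0x8f07d2) (nat_lit 0x5af083b8fba3f7) (nat_lit 0x0)
  (PL.C (nat_lit 0x8f570a) (nat_lit 0x3bc58328f6787af) (nat_lit 0x0)
  (PL.C (nat_lit 0x8f8c14) (nat_lit 0xa3c10f9be6485c) (nat_lit 0x0)
  (PL.C (nat_lit 0x8ffff7) (nat_lit 0x0) (nat_lit 0x6c2920fad5658e)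
  (PL.C (nat_lit 0x90280e) (nat_lit 0x6d66105222c23f0) (nat_lit 0x0)
  (PL.C (nat_lit 0x90543e) (nat_lit 0x4dd81721d9c934) (nat_lit 0x0)
  (PL.C (nat_lit 0x9057e4) (nat_lit 0x0) (nat_lit 0x1b7e77742e6c87a)
  (PL.C (nat_lit 0x905f19) (nat_lit 0x13d89f4e108a6) (nat_lit 0x0)
  (PL.C (nat_lit 0x90e3be) (nat_lit 0x0) (nat_lit 0x58e61c3b891e074)
  (PL.C (nat_lit 0x912c42) (nat_lit 0x0) (nat_lit 0xb4a56de30c9abc3)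
  (PL.C (nat_lit 0x9173d8) (nat_lit 0x0) (nat_lit 0x249b5867d835f13)
  (PL.C (nat_lit 0x9195fc) (nat_lit 0x0) (nat_lit 0x12f9d55326cb9ed)
  (PL.C (nat_lit 0x91a7da) (nat_lit 0x513cd14a27a0c2c) (nat_lit 0x0)
  (PL.C (nat_lit 0x91d3d6) (nat_lit 0x0) (nat_lit 0x9034b5dc3778556) gp2_0_66))))))))))))))))))))

noncomputable def gp2_0_64 : PL :=
  (PL.C (nat_lit 0x886d84) (nat_lit 0x0) (nat_lit 0xa4a88df382aaf)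
  (PL.C (nat_lit 0x88ac61) (nat_lit 0x1a4181a8589ff07) (nat_lit 0x0)
  (PL.C (nat_lit 0x88e868) (nat_lit 0x0) (nat_lit 0x1762135d9995f75)
  (PL.C (nat_lit 0x891f24) (nat_lit 0x4fafa5942ede75) (nat_lit 0x0)
  (PL.C (nat_lit 0x893dd2) (nat_lit 0xf2e3e0b9b754b53) (nat_lit 0x0)
  (PL.C (nat_lit 0x8992a7) (nat_lit 0x0) (nat_lit 0xcefb7da8295520)
  (PL.C (nat_lit 0x89e8e2) (nat_lit 0x3cb246827ca927d) (nat_lit 0x0)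
  (PL.C (nat_lit 0x8a00de) (nat_lit 0x0) (nat_lit 0xb4aa0605e5cf0d)
  (PL.C (nat_lit 0x8a43fe) (nat_lit 0x192c1a266d52db6) (nat_lit 0x0)
  (PL.C (nat_lit 0x8b0f65) (nat_lit 0x1794f4f1b33ec60) (nat_lit 0x0)
  (PL.C (nat_lit 0x8b8747) (nat_lit 0x137d3bb9cc48ebb7) (nat_lit 0x0)
  (PL.C (nat_lit 0x8b883c) (nat_lit 0x0) (nat_lit 0xee639492af7ac)
  (PL.C (nat_lit 0x8bc1d9) (nat_lit 0x0) (nat_lit 0x242bc695230992)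
  (PL.C (nat_lit 0x8c04f6) (nat_lit 0x0) (nat_lit 0x6a14fca8f8104)
  (PL.C (nat_lit 0x8c120c) (nat_lit 0x2025e9d208587f5) (nat_lit 0x0)
  (PL.C (nat_lit 0x8c2798) (nat_lit 0x0) (nat_lit 0x184b0b328f7d299)
  (PL.C (nat_lit 0x8c4b0a) (nat_lit 0xc0dd8c0602f41d) (nat_lit 0x0)
  (PL.C (nat_lit 0x8c9038) (nat_lit 0x10cb21521b44aca) (nat_lit 0x0)
  (PL.C (nat_lit 0x8cb236) (nat_lit 0xf39612431572ee) (nat_lit 0x0)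
  (PL.C (nat_lit 0x8cca42) (nat_lit 0x188c51c4209408a) (nat_lit 0x0) gp2_0_65))))))))))))))))))))

noncomputable def gp2_0_63 : PL :=
  (PL.C (nat_lit 0x84d9fb) (nat_lit 0x346832a3452947a) (nat_lit 0x0)
  (PL.C (nat_lit 0x85462a) (nat_lit 0x0) (nat_lit 0x125fa3c04f37a03)
  (PL.C (nat_lit 0x855e1c) (nat_lit 0x0) (nat_lit 0xb78fb4f0ffe43b)
  (PL.C (nat_lit 0x8586f3) (nat_lit 0xcbc43057202d2) (nat_lit 0x0)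
  (PL.C (nat_lit 0x859e36) (nat_lit 0x27948aa4a0a0ea8) (nat_lit 0x0)
  (PL.C (nat_lit 0x85a2dc) (nat_lit 0x959b5b55bcdbd) (nat_lit 0x0)
  (PL.C (nat_lit 0x86304c) (nat_lit 0x0) (nat_lit 0x640298e1108703)
  (PL.C (nat_lit 0x868404) (nat_lit 0x0) (nat_lit 0x89f6cfa205c411)
  (PL.C (nat_lit 0x86ad35) (nat_lit 0x15a568cbb3e88) (nat_lit 0x0)
  (PL.C (nat_lit 0x86bd2a) (nat_lit 0x0) (nat_lit 0xf23091dcf884467)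
  (PL.C (nat_lit 0x86efc8) (nat_lit 0x35b4538f9de223) (nat_lit 0x0)
  (PL.C (nat_lit 0x871002) (nat_lit 0x0) (nat_lit 0x71d176010f26c6b)
  (PL.C (nat_lit 0x872f6c) (nat_lit 0x2b16a928314345) (nat_lit 0x0)
  (PL.C (nat_lit 0x875cbc) (nat_lit 0x0) (nat_lit 0xc775d4183f3ef4)
  (PL.C (nat_lit 0x877197) (nat_lit 0x0) (nat_lit 0x34ad33243a0ee01)
  (PL.C (nat_lit 0x87e472) (nat_lit 0x3cf50b9dd54eb5) (nat_lit 0x0)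
  (PL.C (nat_lit 0x87f84c) (nat_lit 0x5e5fd15a3b65a5a) (nat_lit 0x0)
  (PL.C (nat_lit 0x8821ef) (nat_lit 0x16cb53ae9185260) (nat_lit 0x0)
  (PL.C (nat_lit 0x886611) (nat_lit 0x0) (nat_lit 0x51681d367ade0d)
  (PL.C (nat_lit 0x886a44) (nat_lit 0x0) (nat_lit 0x338bb901b34998) gp2_0_64))))))))))))))))))))

noncomputable def gp2_0_62 : PL :=
  (PL.C (nat_lit 0x80f259) (nat_lit 0xdfeb5f5b59ac06) (nat_lit 0x0)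
  (PL.C (nat_lit 0x812dde) (nat_lit 0x369f232060a0e44) (nat_lit 0x0)
  (PL.C (nat_lit 0x816183) (nat_lit 0x0) (nat_lit 0x20ae54834e9bbb4)
  (PL.C (nat_lit 0x81a088) (nat_lit 0x0) (nat_lit 0x1bd2d878b7d2684)
  (PL.C (nat_lit 0x81ae58) (nat_lit 0x660f57f2c3a0622) (nat_lit 0x0)
  (PL.C (nat_lit 0x81d60e) (nat_lit 0x1f056e894e11b98) (nat_lit 0x0)
  (PL.C (nat_lit 0x81e634) (nat_lit 0x0) (nat_lit 0x1a04727845ee111)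
  (PL.C (nat_lit 0x8285ca) (nat_lit 0x0) (nat_lit 0x1e49318491cfa2c)
  (PL.C (nat_lit 0x828f54) (nat_lit 0x0) (nat_lit 0x1b01ae84bc16fcb)
  (PL.C (nat_lit 0x82d0ac) (nat_lit 0x43fc1c08db9c2) (nat_lit 0x0)
  (PL.C (nat_lit 0x839f98) (nat_lit 0x150f66222f104a7) (nat_lit 0x0)
  (PL.C (nat_lit 0x83a7c5) (nat_lit 0x0) (nat_lit 0x682476e1020d33a)
  (PL.C (nat_lit 0x83e6fe) (nat_lit 0x0) (nat_lit 0x422d18130912897)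
  (PL.C (nat_lit 0x83f0f4) (nat_lit 0x0) (nat_lit 0xa1f0df478c1f9)
  (PL.C (nat_lit 0x840c42) (nat_lit 0x110d3ff4c838a15) (nat_lit 0x0)
  (PL.C (nat_lit 0x842902) (nat_lit 0x145473328827e84) (nat_lit 0x0)
  (PL.C (nat_lit 0x843788) (nat_lit 0xf50053931f857c) (nat_lit 0x0)
  (PL.C (nat_lit 0x843e22) (nat_lit 0x8e9490bb8956ad3) (nat_lit 0x0)
  (PL.C (nat_lit 0x84a0da) (nat_lit 0x0) (nat_lit 0xf6fafe14c374ce)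
  (PL.C (nat_lit 0x84c1a8) (nat_lit 0xe0bb655956785c) (nat_lit 0x0) gp2_0_63))))))))))))))))))))

noncomputable def gp2_0_61 : PL :=
  (PL.C (nat_lit 0x7cd4a4) (nat_lit 0x1e06ea28dc0e58a) (nat_lit 0x0)
  (PL.C (nat_lit 0x7cf092) (nat_lit 0x6b81372f7983515) (nat_lit 0x0)
  (PL.C (nat_lit 0x7d082f) (nat_lit 0x0) (nat_lit 0x4f9d11aeef64e54)
  (PL.C (nat_lit 0x7d0e29) (nat_lit 0x0) (nat_lit 0x31a6677240de67)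
  (PL.C (nat_lit 0x7d271c) (nat_lit 0x5b342ffd08a6ac) (nat_lit 0x0)
  (PL.C (nat_lit 0x7d60c7) (nat_lit 0x0) (nat_lit 0x1b7405178cef8f)
  (PL.C (nat_lit 0x7dba9a) (nat_lit 0x3bc58328f6787af) (nat_lit 0x0)
  (PL.C (nat_lit 0x7ddf3e) (nat_lit 0x587e7babfa81522) (nat_lit 0x0)
  (PL.C (nat_lit 0x7e346b) (nat_lit 0x6437d92484ceb97) (nat_lit 0x0)
  (PL.C (nat_lit 0x7e68dc) (nat_lit 0x0) (nat_lit 0x5318e4d09531399)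
  (PL.C (nat_lit 0x7e7395) (nat_lit 0x329c4690b5a2700) (nat_lit 0x0)
  (PL.C (nat_lit 0x7ebbc5) (nat_lit 0x0) (nat_lit 0x249867a03a977ee)
  (PL.C (nat_lit 0x7ec958) (nat_lit 0x0) (nat_lit 0xc2deb0ac50dd)
  (PL.C (nat_lit 0x7f32f8) (nat_lit 0x0) (nat_lit 0x55525e602c052e)
  (PL.C (nat_lit 0x7f3b9a) (nat_lit 0x0) (nat_lit 0x1a85855fbe33bd78)
  (PL.C (nat_lit 0x802ea2) (nat_lit 0x122824b5f1d4cd7) (nat_lit 0x0)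
  (PL.C (nat_lit 0x803976) (nat_lit 0x2e5126e992cd94) (nat_lit 0x0)
  (PL.C (nat_lit 0x804b48) (nat_lit 0x0) (nat_lit 0x11b502f37ae56bb)
  (PL.C (nat_lit 0x80bacc) (nat_lit 0x1dbf7421e693c31) (nat_lit 0x0)
  (PL.C (nat_lit 0x80eb39) (nat_lit 0x4139428e27413b2) (nat_lit 0x0) gp2_0_62))))))))))))))))))))

noncomputable def gp2_0_60 : PL :=
  (PL.C (nat_lit 0x77a070) (nat_lit 0x0) (nat_lit 0x7ef223094086)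
  (PL.C (nat_lit 0x77c07c) (nat_lit 0x0) (nat_lit 0x6bbca9dabca417)
  (PL.C (nat_lit 0x78f306) (nat_lit 0x382007265504ee3) (nat_lit 0x0)
  (PL.C (nat_lit 0x7907b2) (nat_lit 0x0) (nat_lit 0x6f4d99ec7a07d4)
  (PL.C (nat_lit 0x79b0c6) (nat_lit 0x33ad8910019c1ab) (nat_lit 0x0)
  (PL.C (nat_lit 0x79df3d) (nat_lit 0x13d89f4e108a6) (nat_lit 0x0)
  (PL.C (nat_lit 0x7a40e4) (nat_lit 0x0) (nat_lit 0x869ed0cc7b0eeaf)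
  (PL.C (nat_lit 0x7a46bc) (nat_lit 0xdf0e02b351a69b) (nat_lit 0x0)
  (PL.C (nat_lit 0x7a4f36) (nat_lit 0x17fd9cfcad6ea36) (nat_lit 0x0)
  (PL.C (nat_lit 0x7a7939) (nat_lit 0x4e87816dc2176c) (nat_lit 0x0)
  (PL.C (nat_lit 0x7a9784) (nat_lit 0x3e46f1d31b0941) (nat_lit 0x0)
  (PL.C (nat_lit 0x7aef58) (nat_lit 0x182eeb1aa66222e) (nat_lit 0x0)
  (PL.C (nat_lit 0x7af4c2) (nat_lit 0x0) (nat_lit 0x9eb466c90f0e5e0)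
  (PL.C (nat_lit 0x7b3087) (nat_lit 0x0) (nat_lit 0x7a3ad657095707)
  (PL.C (nat_lit 0x7b6674) (nat_lit 0x0) (nat_lit 0x17460b56920c95)
  (PL.C (nat_lit 0x7bab0c) (nat_lit 0x1bdd5b6ff51ee20) (nat_lit 0x0)
  (PL.C (nat_lit 0x7bbf94) (nat_lit 0x5c149c23275d42) (nat_lit 0x0)
  (PL.C (nat_lit 0x7beacc) (nat_lit 0x0) (nat_lit 0x4991e172f802a92)
  (PL.C (nat_lit 0x7c4001) (nat_lit 0x0) (nat_lit 0x2883b5c2a543f52)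
  (PL.C (nat_lit 0x7cbb94) (nat_lit 0x2f121f1f8fa704) (nat_lit 0x0) gp2_0_61))))))))))))))))))))

noncomputable def gp2_0_59 : PL :=
  (PL.C (nat_lit 0x7495c2) (nat_lit 0x555314122a603d) (nat_lit 0x0)
  (PL.C (nat_lit 0x74c337) (nat_lit 0x0) (nat_lit 0x2d221038f93097)
  (PL.C (nat_lit 0x74e2ec) (nat_lit 0x0) (nat_lit 0x854d78a0a44fd04)
  (PL.C (nat_lit 0x7506b7) (nat_lit 0x0) (nat_lit 0x2bb000f29b8536)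
  (PL.C (nat_lit 0x752f38) (nat_lit 0x578c4f6799b343) (nat_lit 0x0)
  (PL.C (nat_lit 0x754149) (nat_lit 0x484d3b0fe27fbd7) (nat_lit 0x0)
  (PL.C (nat_lit 0x754932) (nat_lit 0x0) (nat_lit 0x336c9321dc5c53)
  (PL.C (nat_lit 0x758439) (nat_lit 0x0) (nat_lit 0x8e8d3dbd1de224)
  (PL.C (nat_lit 0x7596ae) (nat_lit 0xcc545df41d4245) (nat_lit 0x0)
  (PL.C (nat_lit 0x75c8a3) (nat_lit 0x608de2a5d908ec6) (nat_lit 0x0)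
  (PL.C (nat_lit 0x75f5c1) (nat_lit 0x932d3c3f61b7d2) (nat_lit 0x0)
  (PL.C (nat_lit 0x75fac2) (nat_lit 0x315362ae89015b1) (nat_lit 0x0)
  (PL.C (nat_lit 0x7643af) (nat_lit 0x3c8c138e7b8bd84) (nat_lit 0x0)
  (PL.C (nat_lit 0x764ff8) (nat_lit 0x1884c03682f1ab8) (nat_lit 0x0)
  (PL.C (nat_lit 0x7680d2) (nat_lit 0x256831372761aaa) (nat_lit 0x0)
  (PL.C (nat_lit 0x769b10) (nat_lit 0x0) (nat_lit 0x27b68288dc3ffd)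
  (PL.C (nat_lit 0x76a26e) (nat_lit 0x0) (nat_lit 0x43d0633d937cb4)
  (PL.C (nat_lit 0x7729ec) (nat_lit 0x316a1cf829b7df6) (nat_lit 0x0)
  (PL.C (nat_lit 0x778afd) (nat_lit 0xb7649e7b8a85a73) (nat_lit 0x0)
  (PL.C (nat_lit 0x779768) (nat_lit 0x0) (nat_lit 0x34a1675df1febd5) gp2_0_60))))))))))))))))))))

noncomputable def gp2_0_58 : PL :=
  (PL.C (nat_lit 0x714758) (nat_lit 0x0) (nat_lit 0x18eb7c63965bd99)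
  (PL.C (nat_lit 0x71504d) (nat_lit 0x9132a4a3b1daad) (nat_lit 0x0)
  (PL.C (nat_lit 0x71622c) (nat_lit 0x0) (nat_lit 0x916fa309574560)
  (PL.C (nat_lit 0x716c54) (nat_lit 0x462207f20f71eec) (nat_lit 0x0)
  (PL.C (nat_lit 0x7190fd) (nat_lit 0x21582236b561b5) (nat_lit 0x0)
  (PL.C (nat_lit 0x71ad14) (nat_lit 0x0) (nat_lit 0xa3f000271d06a4)
  (PL.C (nat_lit 0x72038a) (nat_lit 0x0) (nat_lit 0xcbc7edff7d821f4)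
  (PL.C (nat_lit 0x72a63c) (nat_lit 0x6bda70a80c5135) (nat_lit 0x0)
  (PL.C (nat_lit 0x72adf8) (nat_lit 0x107c667f180043e) (nat_lit 0x0)
  (PL.C (nat_lit 0x72dd52) (nat_lit 0x1f056e894e11b98) (nat_lit 0x0)
  (PL.C (nat_lit 0x732a94) (nat_lit 0x0) (nat_lit 0x5e56e1a6aadca06)
  (PL.C (nat_lit 0x735aec) (nat_lit 0x0) (nat_lit 0xfe08e84bbb4db)
  (PL.C (nat_lit 0x735fa5) (nat_lit 0x7a5842115bbf31) (nat_lit 0x0)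
  (PL.C (nat_lit 0x737a03) (nat_lit 0x0) (nat_lit 0x13edfffaca8febc)
  (PL.C (nat_lit 0x738651) (nat_lit 0x0) (nat_lit 0xd4ce3bc4648e0c1)
  (PL.C (nat_lit 0x73a2e4) (nat_lit 0x0) (nat_lit 0x4667032602d0c9b)
  (PL.C (nat_lit 0x73c64d) (nat_lit 0x19ac32b2183ac8a) (nat_lit 0x0)
  (PL.C (nat_lit 0x73d264) (nat_lit 0x2afc856521b456) (nat_lit 0x0)
  (PL.C (nat_lit 0x73ff88) (nat_lit 0xee2170a8af2863) (nat_lit 0x0)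
  (PL.C (nat_lit 0x746f1f) (nat_lit 0x0) (nat_lit 0x174f331e1b73099a) gp2_0_59))))))))))))))))))))

noncomputable def gp2_0_57 : PL :=
  (PL.C (nat_lit 0x6c6216) (nat_lit 0x0) (nat_lit 0x7df51439529998)
  (PL.C (nat_lit 0x6ca048) (nat_lit 0x0) (nat_lit 0x22ef55f7e372a71)
  (PL.C (nat_lit 0x6caafc) (nat_lit 0x14d2819adfac5f5) (nat_lit 0x0)
  (PL.C (nat_lit 0x6cd3dd) (nat_lit 0x17b387d3037d9457) (nat_lit 0x0)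
  (PL.C (nat_lit 0x6d2718) (nat_lit 0x0) (nat_lit 0x506e0925e544452)
  (PL.C (nat_lit 0x6d3026) (nat_lit 0xeb55ce528f1db4) (nat_lit 0x0)
  (PL.C (nat_lit 0x6e2e72) (nat_lit 0x0) (nat_lit 0x1e49318491cfa2c)
  (PL.C (nat_lit 0x6e3112) (nat_lit 0x76a3c7f610f23f3) (nat_lit 0x0)
  (PL.C (nat_lit 0x6e9454) (nat_lit 0x0) (nat_lit 0x1fb579a5f0a45ab)
  (PL.C (nat_lit 0x6ecbac) (nat_lit 0x0) (nat_lit 0x3797b6849398a5)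
  (PL.C (nat_lit 0x6ed331) (nat_lit 0x0) (nat_lit 0x1ef2d1651e753b34)
  (PL.C (nat_lit 0x6ed951) (nat_lit 0x0) (nat_lit 0x5bed4cd4ca88275)
  (PL.C (nat_lit 0x6f0aec) (nat_lit 0x0) (nat_lit 0x640298e1108703)
  (PL.C (nat_lit 0x6fa22a) (nat_lit 0x0) (nat_lit 0xcc46053b6bdbbe3)
  (PL.C (nat_lit 0x70cf4c) (nat_lit 0x58c9f8355d139) (nat_lit 0x0)
  (PL.C (nat_lit 0x70d71e) (nat_lit 0x11d8048f815b27f0) (nat_lit 0x0)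
  (PL.C (nat_lit 0x70e914) (nat_lit 0x98bba5ac05a8b4) (nat_lit 0x0)
  (PL.C (nat_lit 0x70f51c) (nat_lit 0x0) (nat_lit 0xc898f94ac3ff32d)
  (PL.C (nat_lit 0x7117b3) (nat_lit 0x0) (nat_lit 0x4f9d11aeef64e54)
  (PL.C (nat_lit 0x7133ac) (nat_lit 0xdaa2235ab09d85) (nat_lit 0x0) gp2_0_58))))))))))))))))))))

noncomputable def gp2_0_56 : PL :=
  (PL.C (nat_lit 0x68be0c) (nat_lit 0x0) (nat_lit 0x1fb4f55087fa4f9)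
  (PL.C (nat_lit 0x68de1f) (nat_lit 0x0) (nat_lit 0x7d36f694a4ee81)
  (PL.C (nat_lit 0x68eb2a) (nat_lit 0x0) (nat_lit 0xcc46053b6bdbbe3)
  (PL.C (nat_lit 0x69cd18) (nat_lit 0x0) (nat_lit 0x33b0bf959c172a8)
  (PL.C (nat_lit 0x69d608) (nat_lit 0x10242f2124afbbc) (nat_lit 0x0)
  (PL.C (nat_lit 0x69ed7e) (nat_lit 0x35ca0fe3da83446) (nat_lit 0x0)
  (PL.C (nat_lit 0x6a2282) (nat_lit 0x161a3eed8a01083) (nat_lit 0x0)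
  (PL.C (nat_lit 0x6a4fac) (nat_lit 0x0) (nat_lit 0x4070b845183d730)
  (PL.C (nat_lit 0x6a8957) (nat_lit 0x15ac28e52ad33048) (nat_lit 0x0)
  (PL.C (nat_lit 0x6abea9) (nat_lit 0x0) (nat_lit 0x37ca9cf5d0930cc)
  (PL.C (nat_lit 0x6aca64) (nat_lit 0x16ab7168fd515fd) (nat_lit 0x0)
  (PL.C (nat_lit 0x6acfb9) (nat_lit 0x0) (nat_lit 0x19eedf555b55dec)
  (PL.C (nat_lit 0x6af34c) (nat_lit 0x2025e9d208587f5) (nat_lit 0x0)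
  (PL.C (nat_lit 0x6afb99) (nat_lit 0xee0c94a3620a2d) (nat_lit 0x0)
  (PL.C (nat_lit 0x6b1f75) (nat_lit 0x0) (nat_lit 0xde0bf257e1ac77)
  (PL.C (nat_lit 0x6b39f4) (nat_lit 0x0) (nat_lit 0x557a4662a56c581)
  (PL.C (nat_lit 0x6b6782) (nat_lit 0x1cac2e88b6ead560) (nat_lit 0x0)
  (PL.C (nat_lit 0x6c34aa) (nat_lit 0x0) (nat_lit 0x8eed6b9de74812c)
  (PL.C (nat_lit 0x6c3568) (nat_lit 0x3a780a4116cb26) (nat_lit 0x0)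
  (PL.C (nat_lit 0x6c3dce) (nat_lit 0x2e5126e992cd94) (nat_lit 0x0) gp2_0_57))))))))))))))))))))

noncomputable def gp2_0_55 : PL :=
  (PL.C (nat_lit 0x64e9b1) (nat_lit 0x69160115f3916dc) (nat_lit 0x0)
  (PL.C (nat_lit 0x6515be) (nat_lit 0x0) (nat_lit 0x1a626a6a805b19)
  (PL.C (nat_lit 0x6538bc) (nat_lit 0x0) (nat_lit 0x232b5dd4ab62635)
  (PL.C (nat_lit 0x66199e) (nat_lit 0x0) (nat_lit 0x880a256969f05a9)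
  (PL.C (nat_lit 0x66678c) (nat_lit 0x0) (nat_lit 0x252693e866f9ac9)
  (PL.C (nat_lit 0x66bcdc) (nat_lit 0xa394ff743d1113) (nat_lit 0x0)
  (PL.C (nat_lit 0x66c3d5) (nat_lit 0x0) (nat_lit 0x60619b0d1d66bce)
  (PL.C (nat_lit 0x66fe36) (nat_lit 0x3cb246827ca927d) (nat_lit 0x0)
  (PL.C (nat_lit 0x673374) (nat_lit 0x0) (nat_lit 0x1fb579a5f0a45ab)
  (PL.C (nat_lit 0x675afc) (nat_lit 0x0) (nat_lit 0xf3a25645dc90dd)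
  (PL.C (nat_lit 0x677c94) (nat_lit 0x1a4985bb5a24ea5) (nat_lit 0x0)
  (PL.C (nat_lit 0x6785a9) (nat_lit 0x2899cf6e158c84) (nat_lit 0x0)
  (PL.C (nat_lit 0x679f44) (nat_lit 0xcf0f927e4d4581) (nat_lit 0x0)
  (PL.C (nat_lit 0x67c6b8) (nat_lit 0x0) (nat_lit 0x185d8f7d931bf96)
  (PL.C (nat_lit 0x67cb4a) (nat_lit 0x513cd14a27a0c2c) (nat_lit 0x0)
  (PL.C (nat_lit 0x67f956) (nat_lit 0x0) (nat_lit 0xf16cff6428f748)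
  (PL.C (nat_lit 0x682b44) (nat_lit 0x0) (nat_lit 0x5f43d693b403af6)
  (PL.C (nat_lit 0x685647) (nat_lit 0x0) (nat_lit 0x2b8c996fc33c336)
  (PL.C (nat_lit 0x689afc) (nat_lit 0x0) (nat_lit 0x28399bfe08c7de7)
  (PL.C (nat_lit 0x68b2e4) (nat_lit 0x0) (nat_lit 0x252693e866f9ac9) gp2_0_56))))))))))))))))))))

noncomputable def gp2_0_54 : PL :=
  (PL.C (nat_lit 0x603f66) (nat_lit 0x184ccb09c473926) (nat_lit 0x0)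
  (PL.C (nat_lit 0x6097d4) (nat_lit 0x0) (nat_lit 0xd6be0e7240cc330)
  (PL.C (nat_lit 0x60c82c) (nat_lit 0x0) (nat_lit 0x58d6937a7aaa4fc)
  (PL.C (nat_lit 0x610ea8) (nat_lit 0x0) (nat_lit 0xe9014605c29ee9)
  (PL.C (nat_lit 0x6137e4) (nat_lit 0x0) (nat_lit 0x17460b56920c95)
  (PL.C (nat_lit 0x618555) (nat_lit 0x3467b7e3a175830) (nat_lit 0x0)
  (PL.C (nat_lit 0x619d74) (nat_lit 0x0) (nat_lit 0x1e700368fb75e3)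
  (PL.C (nat_lit 0x61df82) (nat_lit 0x0) (nat_lit 0x3354f53a318f13c)
  (PL.C (nat_lit 0x61eba8) (nat_lit 0x8569c6655b846a) (nat_lit 0x0)
  (PL.C (nat_lit 0x6249db) (nat_lit 0x4979305853e25746) (nat_lit 0x0)
  (PL.C (nat_lit 0x62ab9c) (nat_lit 0x0) (nat_lit 0xa3d65cf37157a56)
  (PL.C (nat_lit 0x62be42) (nat_lit 0x2a0d11ca05bb71) (nat_lit 0x0)
  (PL.C (nat_lit 0x62c9d3) (nat_lit 0x8c7adce9659371d) (nat_lit 0x0)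
  (PL.C (nat_lit 0x62ff48) (nat_lit 0x3a780a4116cb26) (nat_lit 0x0)
  (PL.C (nat_lit 0x634f89) (nat_lit 0x201ce15db270970) (nat_lit 0x0)
  (PL.C (nat_lit 0x63d4c8) (nat_lit 0x0) (nat_lit 0x1562198c9e82e65)
  (PL.C (nat_lit 0x63e5d8) (nat_lit 0x1022ef2a846dec5) (nat_lit 0x0)
  (PL.C (nat_lit 0x63f35a) (nat_lit 0x302fd04e157b05) (nat_lit 0x0)
  (PL.C (nat_lit 0x645612) (nat_lit 0x256de9a8f1915) (nat_lit 0x0)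
  (PL.C (nat_lit 0x64d322) (nat_lit 0x0) (nat_lit 0xe8c5050a18ea6e) gp2_0_55))))))))))))))))))))

noncomputable def gp2_0_53 : PL :=
  (PL.C (nat_lit 0x5d04da) (nat_lit 0x49b00ad375959ad) (nat_lit 0x0)
  (PL.C (nat_lit 0x5d2be6) (nat_lit 0x0) (nat_lit 0x24408ec8525c94)
  (PL.C (nat_lit 0x5d58a4) (nat_lit 0x0) (nat_lit 0x869ed0cc7b0eeaf)
  (PL.C (nat_lit 0x5d875c) (nat_lit 0x0) (nat_lit 0x4cbd2c762e3ae6)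
  (PL.C (nat_lit 0x5d8db5) (nat_lit 0x47a0fd2574cdd007) (nat_lit 0x0)
  (PL.C (nat_lit 0x5dcc24) (nat_lit 0x4a495f07750ede) (nat_lit 0x0)
  (PL.C (nat_lit 0x5ddc2c) (nat_lit 0x2c1775ecf012ad2) (nat_lit 0x0)
  (PL.C (nat_lit 0x5dddd8) (nat_lit 0x1dd2226ae52533) (nat_lit 0x0)
  (PL.C (nat_lit 0x5e049a) (nat_lit 0x256831372761aaa) (nat_lit 0x0)
  (PL.C (nat_lit 0x5f4a89) (nat_lit 0x0) (nat_lit 0x63ef7acbddaff66)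
  (PL.C (nat_lit 0x5f5064) (nat_lit 0x2a7d186dec0f046) (nat_lit 0x0)
  (PL.C (nat_lit 0x5f5a8c) (nat_lit 0x49ee7905bf471c9) (nat_lit 0x0)
  (PL.C (nat_lit 0x5f77bf) (nat_lit 0x604f5f6eb2b2af) (nat_lit 0x0)
  (PL.C (nat_lit 0x5f8f5c) (nat_lit 0x110ca184a83ac8b) (nat_lit 0x0)
  (PL.C (nat_lit 0x5fb2b8) (nat_lit 0x0) (nat_lit 0x609ad3cb05722)
  (PL.C (nat_lit 0x5fb6d1) (nat_lit 0x10a9f0df1efbd8d) (nat_lit 0x0)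
  (PL.C (nat_lit 0x5feddf) (nat_lit 0x0) (nat_lit 0x8e8d3dbd1de224)
  (PL.C (nat_lit 0x5ffffa) (nat_lit 0x0) (nat_lit 0x4de0189ce70430)
  (PL.C (nat_lit 0x601ab4) (nat_lit 0x0) (nat_lit 0x3b3c47bcb66308e)
  (PL.C (nat_lit 0x603a98) (nat_lit 0x0) (nat_lit 0xf2c4a186438e0c) gp2_0_54))))))))))))))))))))

noncomputable def gp2_0_52 : PL :=
  (PL.C (nat_lit 0x59c8ce) (nat_lit 0x555314122a603d) (nat_lit 0x0)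
  (PL.C (nat_lit 0x59eef3) (nat_lit 0x0) (nat_lit 0x27929927f9c277e)
  (PL.C (nat_lit 0x59f530) (nat_lit 0x55417ac710d9d) (nat_lit 0x0)
  (PL.C (nat_lit 0x5a0aac) (nat_lit 0x0) (nat_lit 0x5d78bbcb10ec213)
  (PL.C (nat_lit 0x5a2a5d) (nat_lit 0xa8de1488e2aea9b) (nat_lit 0x0)
  (PL.C (nat_lit 0x5a4bba) (nat_lit 0x142df27e74586032) (nat_lit 0x0)
  (PL.C (nat_lit 0x5a984c) (nat_lit 0x5c149c23275d42) (nat_lit 0x0)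
  (PL.C (nat_lit 0x5aa588) (nat_lit 0x0) (nat_lit 0x16e348d1003ef47)
  (PL.C (nat_lit 0x5ac14a) (nat_lit 0xcf1dc91b20fae3) (nat_lit 0x0)
  (PL.C (nat_lit 0x5aeeb6) (nat_lit 0x0) (nat_lit 0x7b83278a7fab08)
  (PL.C (nat_lit 0x5b1d96) (nat_lit 0x77b78c60325345) (nat_lit 0x0)
  (PL.C (nat_lit 0x5b23e7) (nat_lit 0x0) (nat_lit 0x1646f1fbbb916565)
  (PL.C (nat_lit 0x5b6a18) (nat_lit 0x95c859fa5994a4) (nat_lit 0x0)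
  (PL.C (nat_lit 0x5b7e8c) (nat_lit 0x802a665fdfa29a9) (nat_lit 0x0)
  (PL.C (nat_lit 0x5bb71a) (nat_lit 0x3c8cf6896b8d10) (nat_lit 0x0)
  (PL.C (nat_lit 0x5bde11) (nat_lit 0x0) (nat_lit 0x3a85a2f365d2ba3)
  (PL.C (nat_lit 0x5c0094) (nat_lit 0x0) (nat_lit 0xa3f000271d06a4)
  (PL.C (nat_lit 0x5c168d) (nat_lit 0x2a189fdf76d6d10) (nat_lit 0x0)
  (PL.C (nat_lit 0x5ca765) (nat_lit 0x0) (nat_lit 0x67c4657caa5602)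
  (PL.C (nat_lit 0x5cb4ee) (nat_lit 0xa96899b58a0c729) (nat_lit 0x0) gp2_0_53))))))))))))))))))))

noncomputable def gp2_0_51 : PL :=
  (PL.C (nat_lit 0x56bfe9) (nat_lit 0x0) (nat_lit 0x16dbd03b4a1cf3b)
  (PL.C (nat_lit 0x5703dc) (nat_lit 0x1802ec2d075d212) (nat_lit 0x0)
  (PL.C (nat_lit 0x570a38) (nat_lit 0x0) (nat_lit 0xdcc968b290688a)
  (PL.C (nat_lit 0x5735c8) (nat_lit 0x2634edb14fbd80) (nat_lit 0x0)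
  (PL.C (nat_lit 0x57659d) (nat_lit 0x8c7adce9659371d) (nat_lit 0x0)
  (PL.C (nat_lit 0x576cff) (nat_lit 0xb1ac7fcf783d99) (nat_lit 0x0)
  (PL.C (nat_lit 0x57c52e) (nat_lit 0x0) (nat_lit 0x393e4c1021beaa7)
  (PL.C (nat_lit 0x57ef54) (nat_lit 0x9e7849cab87752) (nat_lit 0x0)
  (PL.C (nat_lit 0x57f5f8) (nat_lit 0x1dbabc1cd23612) (nat_lit 0x0)
  (PL.C (nat_lit 0x58082c) (nat_lit 0x1bd8d8f3e51bff2) (nat_lit 0x0)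
  (PL.C (nat_lit 0x5813a3) (nat_lit 0x0) (nat_lit 0x2b8c996fc33c336)
  (PL.C (nat_lit 0x58296c) (nat_lit 0x482cf755d1dfefa) (nat_lit 0x0)
  (PL.C (nat_lit 0x586b3c) (nat_lit 0x0) (nat_lit 0x261a7b06dbccd91)
  (PL.C (nat_lit 0x589152) (nat_lit 0x7af6a9d7fe9acf8) (nat_lit 0x0)
  (PL.C (nat_lit 0x58e968) (nat_lit 0x0) (nat_lit 0x28b392092045b4)
  (PL.C (nat_lit 0x58fe21) (nat_lit 0x3496784846fa041) (nat_lit 0x0)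
  (PL.C (nat_lit 0x5904a2) (nat_lit 0xcc545df41d4245) (nat_lit 0x0)
  (PL.C (nat_lit 0x591424) (nat_lit 0xb60e95ecaa2c2a) (nat_lit 0x0)
  (PL.C (nat_lit 0x597588) (nat_lit 0x971873cfc60d2f) (nat_lit 0x0)
  (PL.C (nat_lit 0x59ad58) (nat_lit 0x2bf4762c1fff2d) (nat_lit 0x0) gp2_0_52))))))))))))))))))))

noncomputable def gp2_0_50 : PL :=
  (PL.C (nat_lit 0x535ec6) (nat_lit 0x0) (nat_lit 0x5be9865570ed7)
  (PL.C (nat_lit 0x536f68) (nat_lit 0x505cd75f1942b4) (nat_lit 0x0)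
  (PL.C (nat_lit 0x5395da) (nat_lit 0x0) (nat_lit 0x43d0633d937cb4)
  (PL.C (nat_lit 0x53d1bc) (nat_lit 0x110ca184a83ac8b) (nat_lit 0x0)
  (PL.C (nat_lit 0x53d56d) (nat_lit 0x201ce15db270970) (nat_lit 0x0)
  (PL.C (nat_lit 0x5422f2) (nat_lit 0x1411f08638d901f) (nat_lit 0x0)
  (PL.C (nat_lit 0x5445e8) (nat_lit 0x0) (nat_lit 0x2008db8cd13eacd)
  (PL.C (nat_lit 0x544d0e) (nat_lit 0x587e7babfa81522) (nat_lit 0x0)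
  (PL.C (nat_lit 0x547d2e) (nat_lit 0x0) (nat_lit 0x8b64cce45feb05c)
  (PL.C (nat_lit 0x54fb25) (nat_lit 0x19461e2d70df33) (nat_lit 0x0)
  (PL.C (nat_lit 0x55746c) (nat_lit 0x7f22974ee090867) (nat_lit 0x0)
  (PL.C (nat_lit 0x557ba4) (nat_lit 0xde6d3d12a36679) (nat_lit 0x0)
  (PL.C (nat_lit 0x558e97) (nat_lit 0x1e1683e00fadd2) (nat_lit 0x0)
  (PL.C (nat_lit 0x55b969) (nat_lit 0x19ac32b2183ac8a) (nat_lit 0x0)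
  (PL.C (nat_lit 0x55f226) (nat_lit 0x1cac2e88b6ead560) (nat_lit 0x0)
  (PL.C (nat_lit 0x55f6e6) (nat_lit 0x0) (nat_lit 0x829f08cf7091a68)
  (PL.C (nat_lit 0x561e94) (nat_lit 0xe7d7ce77e80b3b4) (nat_lit 0x0)
  (PL.C (nat_lit 0x564102) (nat_lit 0x0) (nat_lit 0x75121a8db6e0805)
  (PL.C (nat_lit 0x568eb4) (nat_lit 0x15e99e4099ff23c) (nat_lit 0x0)
  (PL.C (nat_lit 0x569978) (nat_lit 0x0) (nat_lit 0x52eb2a0ff152e44) gp2_0_51))))))))))))))))))))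

noncomputable def gp2_0_49 : PL :=
  (PL.C (nat_lit 0x50afcc) (nat_lit 0x0) (nat_lit 0x171e0ea8041d456)
  (PL.C (nat_lit 0x50bab5) (nat_lit 0x58b5cff0199ba8) (nat_lit 0x0)
  (PL.C (nat_lit 0x510a71) (nat_lit 0x11f8c57db111663) (nat_lit 0x0)
  (PL.C (nat_lit 0x512084) (nat_lit 0x0) (nat_lit 0x4e61e206de14596)
  (PL.C (nat_lit 0x513f7e) (nat_lit 0x184ccb09c473926) (nat_lit 0x0)
  (PL.C (nat_lit 0x518098) (nat_lit 0x0) (nat_lit 0x7422211498e4286)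
  (PL.C (nat_lit 0x518a24) (nat_lit 0x82bfe9729e1df22) (nat_lit 0x0)
  (PL.C (nat_lit 0x51a626) (nat_lit 0x9d5f66f87116f1) (nat_lit 0x0)
  (PL.C (nat_lit 0x51abcf) (nat_lit 0x0) (nat_lit 0x24f8581397e3313)
  (PL.C (nat_lit 0x51ba58) (nat_lit 0x5af97c5c1759d6) (nat_lit 0x0)
  (PL.C (nat_lit 0x52205a) (nat_lit 0x9fcf02cc64611c) (nat_lit 0x0)
  (PL.C (nat_lit 0x527208) (nat_lit 0x1c11a63f0977e70) (nat_lit 0x0)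
  (PL.C (nat_lit 0x527727) (nat_lit 0x494a76fc3989bb2) (nat_lit 0x0)
  (PL.C (nat_lit 0x527fb8) (nat_lit 0xa6a6051a7d648c) (nat_lit 0x0)
  (PL.C (nat_lit 0x529c88) (nat_lit 0x0) (nat_lit 0x1fe7003c23c8f58)
  (PL.C (nat_lit 0x52d556) (nat_lit 0x0) (nat_lit 0x9a9f612dd7df4e)
  (PL.C (nat_lit 0x52f887) (nat_lit 0x0) (nat_lit 0x1a66bc2b263f3e58)
  (PL.C (nat_lit 0x5327b8) (nat_lit 0x27aa67869678b34) (nat_lit 0x0)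
  (PL.C (nat_lit 0x534b0c) (nat_lit 0x0) (nat_lit 0x854d78a0a44fd04)
  (PL.C (nat_lit 0x535aca) (nat_lit 0x0) (nat_lit 0x399d5d232075678) gp2_0_50))))))))))))))))))))

noncomputable def gp2_0_48 : PL :=
  (PL.C (nat_lit 0x4d9f6a) (nat_lit 0x0) (nat_lit 0x14356e7e10dd44f2)
  (PL.C (nat_lit 0x4db92c) (nat_lit 0x0) (nat_lit 0x72f7a2bae21372)
  (PL.C (nat_lit 0x4dd77a) (nat_lit 0x7cec029e3495cf) (nat_lit 0x0)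
  (PL.C (nat_lit 0x4e047a) (nat_lit 0x6f67c710538209c) (nat_lit 0x0)
  (PL.C (nat_lit 0x4e2b86) (nat_lit 0x51f99a1956f6cd3) (nat_lit 0x0)
  (PL.C (nat_lit 0x4e30cc) (nat_lit 0x4fafa5942ede75) (nat_lit 0x0)
  (PL.C (nat_lit 0x4e5115) (nat_lit 0x0) (nat_lit 0x7d36f694a4ee81)
  (PL.C (nat_lit 0x4e5826) (nat_lit 0x1660198cbce3bd4) (nat_lit 0x0)
  (PL.C (nat_lit 0x4e6474) (nat_lit 0x590ea71655bb3e) (nat_lit 0x0)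
  (PL.C (nat_lit 0x4e85c2) (nat_lit 0x0) (nat_lit 0x4b00fbe626cdb21)
  (PL.C (nat_lit 0x4ea3d6) (nat_lit 0x534399dc61a81dd) (nat_lit 0x0)
  (PL.C (nat_lit 0x4ea72c) (nat_lit 0x2c76fa53892401b) (nat_lit 0x0)
  (PL.C (nat_lit 0x4ed7ca) (nat_lit 0x2b93b828655e765) (nat_lit 0x0)
  (PL.C (nat_lit 0x4ef949) (nat_lit 0x0) (nat_lit 0x1ef2d1651e753b34)
  (PL.C (nat_lit 0x4f008c) (nat_lit 0x1d7ca372caa3f47) (nat_lit 0x0)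
  (PL.C (nat_lit 0x4f16f4) (nat_lit 0x0) (nat_lit 0x9569e9504790d0)
  (PL.C (nat_lit 0x4f7148) (nat_lit 0x24f729bd82f8ffb) (nat_lit 0x0)
  (PL.C (nat_lit 0x4fb1fe) (nat_lit 0x0) (nat_lit 0x27c6bfade755ea6d)
  (PL.C (nat_lit 0x4fd5a8) (nat_lit 0x0) (nat_lit 0x18a3800bc5479bf)
  (PL.C (nat_lit 0x50a204) (nat_lit 0x886abed2aa62667) (nat_lit 0x0) gp2_0_49))))))))))))))))))))

noncomputable def gp2_0_47 : PL :=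
  (PL.C (nat_lit 0x49e636) (nat_lit 0x1d433eac3c51a2a) (nat_lit 0x0)
  (PL.C (nat_lit 0x4a0748) (nat_lit 0x971873cfc60d2f) (nat_lit 0x0)
  (PL.C (nat_lit 0x4a6c1c) (nat_lit 0x0) (nat_lit 0x85842a346677d33)
  (PL.C (nat_lit 0x4b2175) (nat_lit 0x0) (nat_lit 0xc16d540bd3044cd)
  (PL.C (nat_lit 0x4b3a14) (nat_lit 0x2477977184d231a7) (nat_lit 0x0)
  (PL.C (nat_lit 0x4b6522) (nat_lit 0x0) (nat_lit 0x399d5d232075678)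
  (PL.C (nat_lit 0x4b77c8) (nat_lit 0x0) (nat_lit 0x8d3bd473f26338)
  (PL.C (nat_lit 0x4b8ade) (nat_lit 0x27948aa4a0a0ea8) (nat_lit 0x0)
  (PL.C (nat_lit 0x4b96c8) (nat_lit 0x0) (nat_lit 0xc9dd838a9cf109)
  (PL.C (nat_lit 0x4bb5fe) (nat_lit 0x0) (nat_lit 0x7df51439529998)
  (PL.C (nat_lit 0x4bc8b8) (nat_lit 0x0) (nat_lit 0x1e384fbfaa8d23)
  (PL.C (nat_lit 0x4c025c) (nat_lit 0x0) (nat_lit 0x104e0e031d49cd5)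
  (PL.C (nat_lit 0x4c938c) (nat_lit 0x15e99e4099ff23c) (nat_lit 0x0)
  (PL.C (nat_lit 0x4ce748) (nat_lit 0x0) (nat_lit 0xdab6e1ab8e2a19)
  (PL.C (nat_lit 0x4cea6e) (nat_lit 0x14f1d3ae9441cb8) (nat_lit 0x0)
  (PL.C (nat_lit 0x4cefc3) (nat_lit 0x53f9dea2b1d5252) (nat_lit 0x0)
  (PL.C (nat_lit 0x4cfc02) (nat_lit 0x110d3ff4c838a15) (nat_lit 0x0)
  (PL.C (nat_lit 0x4d0436) (nat_lit 0x0) (nat_lit 0x464d102c56a4d6e)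
  (PL.C (nat_lit 0x4d2ede) (nat_lit 0x10e23111cc20872) (nat_lit 0x0)
  (PL.C (nat_lit 0x4d516d) (nat_lit 0x0) (nat_lit 0x2d221038f93097) gp2_0_48))))))))))))))))))))

noncomputable def gp2_0_46 : PL :=
  (PL.C (nat_lit 0x46ed9b) (nat_lit 0x19461e2d70df33) (nat_lit 0x0)
  (PL.C (nat_lit 0x47063a) (nat_lit 0x0) (nat_lit 0x3315b9b648bd64c)
  (PL.C (nat_lit 0x4729c6) (nat_lit 0x0) (nat_lit 0x52c28db6de415e9)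
  (PL.C (nat_lit 0x473198) (nat_lit 0x36800ec9cacc06d) (nat_lit 0x0)
  (PL.C (nat_lit 0x473526) (nat_lit 0x6d1894c04000c5a) (nat_lit 0x0)
  (PL.C (nat_lit 0x475266) (nat_lit 0x295764cecc15221) (nat_lit 0x0)
  (PL.C (nat_lit 0x476a4e) (nat_lit 0x78acf6b6fb9f1d0) (nat_lit 0x0)
  (PL.C (nat_lit 0x477bf8) (nat_lit 0x0) (nat_lit 0xdece2c28f4dc3)
  (PL.C (nat_lit 0x478911) (nat_lit 0xa8de1488e2aea9b) (nat_lit 0x0)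
  (PL.C (nat_lit 0x48231c) (nat_lit 0x0) (nat_lit 0xd5271792c2d79c0)
  (PL.C (nat_lit 0x482934) (nat_lit 0xde6d3d12a36679) (nat_lit 0x0)
  (PL.C (nat_lit 0x483933) (nat_lit 0x1e1683e00fadd2) (nat_lit 0x0)
  (PL.C (nat_lit 0x484164) (nat_lit 0x0) (nat_lit 0x87a065e091d11f)
  (PL.C (nat_lit 0x488d3e) (nat_lit 0x0) (nat_lit 0x1a85855fbe33bd78)
  (PL.C (nat_lit 0x48cac4) (nat_lit 0x0) (nat_lit 0xee639492af7ac)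
  (PL.C (nat_lit 0x48ee65) (nat_lit 0x53f9dea2b1d5252) (nat_lit 0x0)
  (PL.C (nat_lit 0x49744c) (nat_lit 0x1802ec2d075d212) (nat_lit 0x0)
  (PL.C (nat_lit 0x49760c) (nat_lit 0x24123242c859ab3) (nat_lit 0x0)
  (PL.C (nat_lit 0x49b838) (nat_lit 0x0) (nat_lit 0xdb4f46afa93082)
  (PL.C (nat_lit 0x49c6d1) (nat_lit 0x0) (nat_lit 0x10ba76503e7fd8) gp2_0_47))))))))))))))))))))

noncomputable def gp2_0_45 : PL :=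
  (PL.C (nat_lit 0x444508) (nat_lit 0x0) (nat_lit 0xf1fed8b9460a0e)
  (PL.C (nat_lit 0x447de8) (nat_lit 0x0) (nat_lit 0x1331def4c61e848)
  (PL.C (nat_lit 0x44828e) (nat_lit 0x1202e35cc90e2508) (nat_lit 0x0)
  (PL.C (nat_lit 0x44ccf8) (nat_lit 0x0) (nat_lit 0xdb4f46afa93082)
  (PL.C (nat_lit 0x44fdb8) (nat_lit 0xddf6380750ed38) (nat_lit 0x0)
  (PL.C (nat_lit 0x4503c6) (nat_lit 0x0) (nat_lit 0x6f4d99ec7a07d4)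
  (PL.C (nat_lit 0x4514d8) (nat_lit 0x0) (nat_lit 0xe52ab880373d7e)
  (PL.C (nat_lit 0x4550e4) (nat_lit 0x0) (nat_lit 0x48f56d496a879a)
  (PL.C (nat_lit 0x458eda) (nat_lit 0x0) (nat_lit 0x68df5210facf14b)
  (PL.C (nat_lit 0x45aaa9) (nat_lit 0x2134874371d5b82) (nat_lit 0x0)
  (PL.C (nat_lit 0x45bca8) (nat_lit 0x0) (nat_lit 0x129e21b57770775)
  (PL.C (nat_lit 0x45cc98) (nat_lit 0x0) (nat_lit 0xf1fed8b9460a0e)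
  (PL.C (nat_lit 0x45d408) (nat_lit 0x1592b364463ea76) (nat_lit 0x0)
  (PL.C (nat_lit 0x45e96a) (nat_lit 0x102e9e0083e12f4) (nat_lit 0x0)
  (PL.C (nat_lit 0x45f21c) (nat_lit 0x0) (nat_lit 0x85842a346677d33)
  (PL.C (nat_lit 0x468eb0) (nat_lit 0xa1fa4e526fde51) (nat_lit 0x0)
  (PL.C (nat_lit 0x469e54) (nat_lit 0xaf265c4452b5548) (nat_lit 0x0)
  (PL.C (nat_lit 0x46c1ac) (nat_lit 0xdaa2235ab09d85) (nat_lit 0x0)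
  (PL.C (nat_lit 0x46dfc8) (nat_lit 0x0) (nat_lit 0x47407ffb121fe5)
  (PL.C (nat_lit 0x46e42f) (nat_lit 0x410a7129a333694) (nat_lit 0x0) gp2_0_46))))))))))))))))))))

noncomputable def gp2_0_44 : PL :=
  (PL.C (nat_lit 0x413fac) (nat_lit 0x2e5c7b306b3ef59) (nat_lit 0x0)
  (PL.C (nat_lit 0x415a9d) (nat_lit 0x0) (nat_lit 0x24f8581397e3313)
  (PL.C (nat_lit 0x417459) (nat_lit 0x0) (nat_lit 0x2eced20829bb18)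
  (PL.C (nat_lit 0x418692) (nat_lit 0x17c37a833e4d81b8) (nat_lit 0x0)
  (PL.C (nat_lit 0x419f97) (nat_lit 0x0) (nat_lit 0xa7989242a90baa)
  (PL.C (nat_lit 0x41d42c) (nat_lit 0x9d6710be2966f6) (nat_lit 0x0)
  (PL.C (nat_lit 0x41dbe2) (nat_lit 0xc6ebe25ba5d535a) (nat_lit 0x0)
  (PL.C (nat_lit 0x423506) (nat_lit 0x0) (nat_lit 0x150d341d45ff147)
  (PL.C (nat_lit 0x425535) (nat_lit 0x0) (nat_lit 0x4ba33c55d288e8f)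
  (PL.C (nat_lit 0x42a1c7) (nat_lit 0x63215461449946) (nat_lit 0x0)
  (PL.C (nat_lit 0x42a23c) (nat_lit 0x2ab420c4a174a9) (nat_lit 0x0)
  (PL.C (nat_lit 0x42bb4d) (nat_lit 0x0) (nat_lit 0x2d812cc16b1e0a7)
  (PL.C (nat_lit 0x42e40c) (nat_lit 0x27c0145934cb8de) (nat_lit 0x0)
  (PL.C (nat_lit 0x42e763) (nat_lit 0x0) (nat_lit 0x49cb1e6e51614e4)
  (PL.C (nat_lit 0x43376c) (nat_lit 0x1da0b1ce2f8acc6) (nat_lit 0x0)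
  (PL.C (nat_lit 0x434676) (nat_lit 0x0) (nat_lit 0x25510111dad0c031)
  (PL.C (nat_lit 0x43532d) (nat_lit 0x0) (nat_lit 0x896c7ca70dff97)
  (PL.C (nat_lit 0x4363d4) (nat_lit 0x0) (nat_lit 0x1001e3a68318dae)
  (PL.C (nat_lit 0x437b28) (nat_lit 0x1022ef2a846dec5) (nat_lit 0x0)
  (PL.C (nat_lit 0x441114) (nat_lit 0x0) (nat_lit 0x652aaf801eccfbd) gp2_0_45))))))))))))))))))))

noncomputable def gp2_0_43 : PL :=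
  (PL.C (nat_lit 0x3e3b18) (nat_lit 0x0) (nat_lit 0x7422211498e4286)
  (PL.C (nat_lit 0x3e8818) (nat_lit 0x0) (nat_lit 0x12794f82c76a629)
  (PL.C (nat_lit 0x3e92c8) (nat_lit 0x2eb79ecf342ddae) (nat_lit 0x0)
  (PL.C (nat_lit 0x3eadbc) (nat_lit 0x1d7ca372caa3f47) (nat_lit 0x0)
  (PL.C (nat_lit 0x3eb1fd) (nat_lit 0x0) (nat_lit 0x19c62d611b55cb59)
  (PL.C (nat_lit 0x3edf45) (nat_lit 0x0) (nat_lit 0x15b1e02d07c3371)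
  (PL.C (nat_lit 0x3f358b) (nat_lit 0x6945a70d5129c0) (nat_lit 0x0)
  (PL.C (nat_lit 0x3f6c09) (nat_lit 0xc5225c26ae9dcf1) (nat_lit 0x0)
  (PL.C (nat_lit 0x3f8706) (nat_lit 0x0) (nat_lit 0x730a161b2b34e07)
  (PL.C (nat_lit 0x3fa52a) (nat_lit 0x2a0d11ca05bb71) (nat_lit 0x0)
  (PL.C (nat_lit 0x3fb4e8) (nat_lit 0x1d11bd1239f4347) (nat_lit 0x0)
  (PL.C (nat_lit 0x3fcf36) (nat_lit 0x464c5179b50d8d4) (nat_lit 0x0)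
  (PL.C (nat_lit 0x3ff3ea) (nat_lit 0x1660198cbce3bd4) (nat_lit 0x0)
  (PL.C (nat_lit 0x3ffffc) (nat_lit 0x5b342ffd08a6ac) (nat_lit 0x0)
  (PL.C (nat_lit 0x401a69) (nat_lit 0x10a9f0df1efbd8d) (nat_lit 0x0)
  (PL.C (nat_lit 0x402710) (nat_lit 0x0) (nat_lit 0x26fd09e4ad35e0)
  (PL.C (nat_lit 0x402a44) (nat_lit 0x31449a60d90515a) (nat_lit 0x0)
  (PL.C (nat_lit 0x406538) (nat_lit 0x0) (nat_lit 0x3fa57c11be196bc)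
  (PL.C (nat_lit 0x40b470) (nat_lit 0x0) (nat_lit 0x37fd47d92326f3)
  (PL.C (nat_lit 0x41038e) (nat_lit 0x0) (nat_lit 0x2b8689d2b2e5d62) gp2_0_44))))))))))))))))))))

noncomputable def gp2_0_42 : PL :=
  (PL.C (nat_lit 0x3c327c) (nat_lit 0x27de9722324e1571) (nat_lit 0x0)
  (PL.C (nat_lit 0x3c44eb) (nat_lit 0x63215461449946) (nat_lit 0x0)
  (PL.C (nat_lit 0x3c6315) (nat_lit 0x287496ed8ab7202) (nat_lit 0x0)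
  (PL.C (nat_lit 0x3c6588) (nat_lit 0xa6a6051a7d648c) (nat_lit 0x0)
  (PL.C (nat_lit 0x3c80dc) (nat_lit 0xe1b1ed0e4cd140) (nat_lit 0x0)
  (PL.C (nat_lit 0x3c9f24) (nat_lit 0x0) (nat_lit 0x1f0fdcf42f6ecd9)
  (PL.C (nat_lit 0x3cbe64) (nat_lit 0x19b27fbc8d945e9) (nat_lit 0x0)
  (PL.C (nat_lit 0x3cc29a) (nat_lit 0x0) (nat_lit 0x20bdebefb0dafece)
  (PL.C (nat_lit 0x3cff08) (nat_lit 0x743a7a0fb477c1a) (nat_lit 0x0)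
  (PL.C (nat_lit 0x3d24bc) (nat_lit 0x250572091f383c) (nat_lit 0x0)
  (PL.C (nat_lit 0x3d3eb6) (nat_lit 0x3161d017f06d915) (nat_lit 0x0)
  (PL.C (nat_lit 0x3d55b8) (nat_lit 0x0) (nat_lit 0x1e384fbfaa8d23)
  (PL.C (nat_lit 0x3d645e) (nat_lit 0x0) (nat_lit 0x4d813e5c9b2c241)
  (PL.C (nat_lit 0x3d90b9) (nat_lit 0x0) (nat_lit 0x1646f1fbbb916565)
  (PL.C (nat_lit 0x3dc4ee) (nat_lit 0x302fd04e157b05) (nat_lit 0x0)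
  (PL.C (nat_lit 0x3dcdf4) (nat_lit 0x5dfe4810decfe8c) (nat_lit 0x0)
  (PL.C (nat_lit 0x3de0e1) (nat_lit 0x11f8c57db111663) (nat_lit 0x0)
  (PL.C (nat_lit 0x3e033c) (nat_lit 0x0) (nat_lit 0x4d84bd78f80175c)
  (PL.C (nat_lit 0x3e1d44) (nat_lit 0xb72d3daeb52f5f) (nat_lit 0x0)
  (PL.C (nat_lit 0x3e1fcf) (nat_lit 0x0) (nat_lit 0x23c464e9ce3a5f4) gp2_0_43))))))))))))))))))))

noncomputable def gp2_0_41 : PL :=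
  (PL.C (nat_lit 0x399b2b) (nat_lit 0x494a76fc3989bb2) (nat_lit 0x0)
  (PL.C (nat_lit 0x39b478) (nat_lit 0xdd035aa44684fb) (nat_lit 0x0)
  (PL.C (nat_lit 0x39d546) (nat_lit 0x0) (nat_lit 0xa58f5ac54689c0f)
  (PL.C (nat_lit 0x3a06d0) (nat_lit 0x0) (nat_lit 0x37fd47d92326f3)
  (PL.C (nat_lit 0x3a43be) (nat_lit 0xc6ebe25ba5d535a) (nat_lit 0x0)
  (PL.C (nat_lit 0x3a48aa) (nat_lit 0xddc1822fbf807c) (nat_lit 0x0)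
  (PL.C (nat_lit 0x3a8374) (nat_lit 0x0) (nat_lit 0x1c3667086c5d6a9)
  (PL.C (nat_lit 0x3a9977) (nat_lit 0x0) (nat_lit 0x16dbd03b4a1cf3b)
  (PL.C (nat_lit 0x3ab7c2) (nat_lit 0x0) (nat_lit 0x68df5210facf14b)
  (PL.C (nat_lit 0x3ac648) (nat_lit 0x0) (nat_lit 0x431bb872dbf3c4f)
  (PL.C (nat_lit 0x3af228) (nat_lit 0x14f6a6271e49c60) (nat_lit 0x0)
  (PL.C (nat_lit 0x3b0b8c) (nat_lit 0x3a7cdfebaab6df3) (nat_lit 0x0)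
  (PL.C (nat_lit 0x3b5416) (nat_lit 0x13829099d5da948) (nat_lit 0x0)
  (PL.C (nat_lit 0x3b586c) (nat_lit 0x590ea71655bb3e) (nat_lit 0x0)
  (PL.C (nat_lit 0x3b70ed) (nat_lit 0x0) (nat_lit 0x7ec20dd818bff3)
  (PL.C (nat_lit 0x3ba3b0) (nat_lit 0xa565ef5617f1f9) (nat_lit 0x0)
  (PL.C (nat_lit 0x3bdb34) (nat_lit 0x0) (nat_lit 0x72f7a2bae21372)
  (PL.C (nat_lit 0x3bf3eb) (nat_lit 0x0) (nat_lit 0x7ec20dd818bff3)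
  (PL.C (nat_lit 0x3bf4a2) (nat_lit 0x37beb151cfc7b52) (nat_lit 0x0)
  (PL.C (nat_lit 0x3c1c3e) (nat_lit 0x0) (nat_lit 0x1a6dcb5ffc8e035) gp2_0_42))))))))))))))))))))

noncomputable def gp2_0_40 : PL :=
  (PL.C (nat_lit 0x37ab77) (nat_lit 0x0) (nat_lit 0x242bc695230992)
  (PL.C (nat_lit 0x37b93c) (nat_lit 0x0) (nat_lit 0x9569e9504790d0)
  (PL.C (nat_lit 0x37e128) (nat_lit 0x1d11bd1239f4347) (nat_lit 0x0)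
  (PL.C (nat_lit 0x37e39e) (nat_lit 0x0) (nat_lit 0x150d341d45ff147)
  (PL.C (nat_lit 0x37fec9) (nat_lit 0x0) (nat_lit 0x49cb1e6e51614e4)
  (PL.C (nat_lit 0x38174c) (nat_lit 0x0) (nat_lit 0x321f99c6b4514a5)
  (PL.C (nat_lit 0x382e75) (nat_lit 0x0) (nat_lit 0x5782355af8fb021)
  (PL.C (nat_lit 0x385374) (nat_lit 0x0) (nat_lit 0x64eaaa747e34495)
  (PL.C (nat_lit 0x387a2f) (nat_lit 0x0) (nat_lit 0x4ba33c55d288e8f)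
  (PL.C (nat_lit 0x38a76e) (nat_lit 0x394175c09741fb) (nat_lit 0x0)
  (PL.C (nat_lit 0x38f848) (nat_lit 0x185dd25ab1306da) (nat_lit 0x0)
  (PL.C (nat_lit 0x38fd18) (nat_lit 0x2fa337198049b6) (nat_lit 0x0)
  (PL.C (nat_lit 0x3909ba) (nat_lit 0x0) (nat_lit 0x2bdc06e7f9b7ac3)
  (PL.C (nat_lit 0x39167d) (nat_lit 0xd8c5da132a3f1a0) (nat_lit 0x0)
  (PL.C (nat_lit 0x392646) (nat_lit 0x10e23111cc20872) (nat_lit 0x0)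
  (PL.C (nat_lit 0x394f44) (nat_lit 0x0) (nat_lit 0xb4fb0c840bce713)
  (PL.C (nat_lit 0x395da5) (nat_lit 0xc5225c26ae9dcf1) (nat_lit 0x0)
  (PL.C (nat_lit 0x3969b8) (nat_lit 0x6fbb6ea6aa031d0) (nat_lit 0x0)
  (PL.C (nat_lit 0x3980ac) (nat_lit 0x0) (nat_lit 0x1148c97683c7f65c)
  (PL.C (nat_lit 0x39838b) (nat_lit 0xe3cdf4ce70132d) (nat_lit 0x0) gp2_0_41))))))))))))))))))))

noncomputable def gp2_0_39 : PL :=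
  (PL.C (nat_lit 0x353199) (nat_lit 0x79b0fee366b5671) (nat_lit 0x0)
  (PL.C (nat_lit 0x35c158) (nat_lit 0x238c0fea84e65d7) (nat_lit 0x0)
  (PL.C (nat_lit 0x35ca88) (nat_lit 0x1205d98815041d) (nat_lit 0x0)
  (PL.C (nat_lit 0x35d1ce) (nat_lit 0x138ec379759cbed) (nat_lit 0x0)
  (PL.C (nat_lit 0x3606f6) (nat_lit 0x252e57191471bab) (nat_lit 0x0)
  (PL.C (nat_lit 0x362a54) (nat_lit 0x31449a60d90515a) (nat_lit 0x0)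
  (PL.C (nat_lit 0x365673) (nat_lit 0x2ed388c995704227) (nat_lit 0x0)
  (PL.C (nat_lit 0x365c18) (nat_lit 0x17bd4d3f28d292f) (nat_lit 0x0)
  (PL.C (nat_lit 0x366ec4) (nat_lit 0x0) (nat_lit 0xfe08e84bbb4db)
  (PL.C (nat_lit 0x36728a) (nat_lit 0x0) (nat_lit 0xc115c62ebcd046)
  (PL.C (nat_lit 0x36c03c) (nat_lit 0x0) (nat_lit 0x5e5de483e2c9f15)
  (PL.C (nat_lit 0x36f6b0) (nat_lit 0x0) (nat_lit 0x9d12a5f5a3b1a4)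
  (PL.C (nat_lit 0x36fa1a) (nat_lit 0x87320c27bf12b15) (nat_lit 0x0)
  (PL.C (nat_lit 0x36ffd0) (nat_lit 0x0) (nat_lit 0x2c90153420d99b)
  (PL.C (nat_lit 0x3738e4) (nat_lit 0x0) (nat_lit 0x52617fae6623fba)
  (PL.C (nat_lit 0x3749cd) (nat_lit 0x0) (nat_lit 0x1149b84df91ecf2)
  (PL.C (nat_lit 0x37505a) (nat_lit 0x0) (nat_lit 0x547cee85f641b24)
  (PL.C (nat_lit 0x376fd0) (nat_lit 0x0) (nat_lit 0x562869c1d0f908)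
  (PL.C (nat_lit 0x3791dc) (nat_lit 0x0) (nat_lit 0x4c5bf49a4027695)
  (PL.C (nat_lit 0x379484) (nat_lit 0x6c0ad2b1ce41c1) (nat_lit 0x0) gp2_0_40))))))))))))))))))))

noncomputable def gp2_0_38 : PL :=
  (PL.C (nat_lit 0x3389d3) (nat_lit 0x0) (nat_lit 0x3ab1c53bd28ab1)
  (PL.C (nat_lit 0x338b9e) (nat_lit 0x7cec029e3495cf) (nat_lit 0x0)
  (PL.C (nat_lit 0x33bf9c) (nat_lit 0x566a6ff35c11f58) (nat_lit 0x0)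
  (PL.C (nat_lit 0x33d0c8) (nat_lit 0x0) (nat_lit 0xe55c42f9db6dd8)
  (PL.C (nat_lit 0x33e4fc) (nat_lit 0x0) (nat_lit 0x21c51fafd2ca586)
  (PL.C (nat_lit 0x3402fc) (nat_lit 0x0) (nat_lit 0xc918787eae9ca43)
  (PL.C (nat_lit 0x341d04) (nat_lit 0xb677dbe5c54223) (nat_lit 0x0)
  (PL.C (nat_lit 0x342088) (nat_lit 0x95c859fa5994a4) (nat_lit 0x0)
  (PL.C (nat_lit 0x34360e) (nat_lit 0x102e9e0083e12f4) (nat_lit 0x0)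
  (PL.C (nat_lit 0x343ac4) (nat_lit 0x25939e141447915) (nat_lit 0x0)
  (PL.C (nat_lit 0x3442f8) (nat_lit 0x5f6b6e834b6489) (nat_lit 0x0)
  (PL.C (nat_lit 0x34592c) (nat_lit 0x0) (nat_lit 0x321f99c6b4514a5)
  (PL.C (nat_lit 0x34714b) (nat_lit 0xc469914a164eed) (nat_lit 0x0)
  (PL.C (nat_lit 0x3482df) (nat_lit 0x2094cc376ec12ae) (nat_lit 0x0)
  (PL.C (nat_lit 0x348fdc) (nat_lit 0xb677dbe5c54223) (nat_lit 0x0)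
  (PL.C (nat_lit 0x34ab08) (nat_lit 0xbab4b1c034eb9) (nat_lit 0x0)
  (PL.C (nat_lit 0x34b9f8) (nat_lit 0x112f97861fc796) (nat_lit 0x0)
  (PL.C (nat_lit 0x34ecb1) (nat_lit 0x35ce99739b80701) (nat_lit 0x0)
  (PL.C (nat_lit 0x34f630) (nat_lit 0x320998124502b2) (nat_lit 0x0)
  (PL.C (nat_lit 0x352154) (nat_lit 0x0) (nat_lit 0x124c759083291a64) gp2_0_39))))))))))))))))))))

noncomputable def gp2_0_37 : PL :=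
  (PL.C (nat_lit 0x309eee) (nat_lit 0x0) (nat_lit 0xc20c3a4ca274f8a)
  (PL.C (nat_lit 0x311355) (nat_lit 0x0) (nat_lit 0x3d72f0a107ac6a)
  (PL.C (nat_lit 0x312f36) (nat_lit 0x65f2a13eb13e382) (nat_lit 0x0)
  (PL.C (nat_lit 0x314424) (nat_lit 0x0) (nat_lit 0x128d5cf76cbbf637)
  (PL.C (nat_lit 0x315a30) (nat_lit 0xa565ef5617f1f9) (nat_lit 0x0)
  (PL.C (nat_lit 0x317793) (nat_lit 0x0) (nat_lit 0x60619b0d1d66bce)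
  (PL.C (nat_lit 0x319d68) (nat_lit 0x0) (nat_lit 0x3f2a7ded58a74d3)
  (PL.C (nat_lit 0x32164e) (nat_lit 0x3e7b126a739adc8) (nat_lit 0x0)
  (PL.C (nat_lit 0x3226b8) (nat_lit 0xcaa26b340941391) (nat_lit 0x0)
  (PL.C (nat_lit 0x32436c) (nat_lit 0x0) (nat_lit 0x4c5bf49a4027695)
  (PL.C (nat_lit 0x325c94) (nat_lit 0xb60e95ecaa2c2a) (nat_lit 0x0)
  (PL.C (nat_lit 0x327954) (nat_lit 0x0) (nat_lit 0x87a065e091d11f)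
  (PL.C (nat_lit 0x3285d0) (nat_lit 0x42f4b3d33a58a7) (nat_lit 0x0)
  (PL.C (nat_lit 0x330d08) (nat_lit 0xdd035aa44684fb) (nat_lit 0x0)
  (PL.C (nat_lit 0x3346f4) (nat_lit 0x1a15df884194a01) (nat_lit 0x0)
  (PL.C (nat_lit 0x334a82) (nat_lit 0x0) (nat_lit 0xc20c3a4ca274f8a)
  (PL.C (nat_lit 0x3352ac) (nat_lit 0x1bd8d8f3e51bff2) (nat_lit 0x0)
  (PL.C (nat_lit 0x335824) (nat_lit 0x0) (nat_lit 0x30226ab5ce2fccd)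
  (PL.C (nat_lit 0x3367dd) (nat_lit 0x0) (nat_lit 0x896c7ca70dff97)
  (PL.C (nat_lit 0x337494) (nat_lit 0xaba278c35bac02) (nat_lit 0x0) gp2_0_38))))))))))))))))))))

noncomputable def gp2_0_36 : PL :=
  (PL.C (nat_lit 0x2e71c6) (nat_lit 0x584124ed6b99d82) (nat_lit 0x0)
  (PL.C (nat_lit 0x2e9b9c) (nat_lit 0x4a4849c814e722) (nat_lit 0x0)
  (PL.C (nat_lit 0x2ea168) (nat_lit 0x0) (nat_lit 0x3f2a7ded58a74d3)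
  (PL.C (nat_lit 0x2f1438) (nat_lit 0x5853c8faa5cbb84) (nat_lit 0x0)
  (PL.C (nat_lit 0x2f2bc8) (nat_lit 0x0) (nat_lit 0x8d3bd473f26338)
  (PL.C (nat_lit 0x2f42ca) (nat_lit 0x4c6ec05195317d6) (nat_lit 0x0)
  (PL.C (nat_lit 0x2f4912) (nat_lit 0x394175c09741fb) (nat_lit 0x0)
  (PL.C (nat_lit 0x2f597c) (nat_lit 0x0) (nat_lit 0x4d84bd78f80175c)
  (PL.C (nat_lit 0x2f6d09) (nat_lit 0x16c06677a62cf1be) (nat_lit 0x0)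
  (PL.C (nat_lit 0x2f78c4) (nat_lit 0xcea37dd3cc05752) (nat_lit 0x0)
  (PL.C (nat_lit 0x2f8c44) (nat_lit 0x54a8cc4ba3eac2a) (nat_lit 0x0)
  (PL.C (nat_lit 0x2f9c34) (nat_lit 0x0) (nat_lit 0xfa92b5a000eeb6e)
  (PL.C (nat_lit 0x2fb0b6) (nat_lit 0x0) (nat_lit 0x1a6dcb5ffc8e035)
  (PL.C (nat_lit 0x301768) (nat_lit 0x0) (nat_lit 0x3c4e5b926ac39ad)
  (PL.C (nat_lit 0x301b78) (nat_lit 0x2fa337198049b6) (nat_lit 0x0)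
  (PL.C (nat_lit 0x302622) (nat_lit 0x0) (nat_lit 0x2bdc06e7f9b7ac3)
  (PL.C (nat_lit 0x302b98) (nat_lit 0x0) (nat_lit 0x35624f64a0c074)
  (PL.C (nat_lit 0x306cf9) (nat_lit 0x0) (nat_lit 0xc16d540bd3044cd)
  (PL.C (nat_lit 0x307ed5) (nat_lit 0x0) (nat_lit 0x1149b84df91ecf2)
  (PL.C (nat_lit 0x308cf7) (nat_lit 0x3e636b92be77317) (nat_lit 0x0) gp2_0_37))))))))))))))))))))

noncomputable def gp2_0_35 : PL :=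
  (PL.C (nat_lit 0x2ba2e6) (nat_lit 0x0) (nat_lit 0x1a626a6a805b19)
  (PL.C (nat_lit 0x2baf0c) (nat_lit 0x3dc2e209d7db234) (nat_lit 0x0)
  (PL.C (nat_lit 0x2bbfba) (nat_lit 0x0) (nat_lit 0x159cb2095dcb492)
  (PL.C (nat_lit 0x2be2c8) (nat_lit 0x17dd8942d1d074) (nat_lit 0x0)
  (PL.C (nat_lit 0x2be7ec) (nat_lit 0x1dd7307cf72c09fa) (nat_lit 0x0)
  (PL.C (nat_lit 0x2bfa0d) (nat_lit 0xb0887b403c1e70) (nat_lit 0x0)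
  (PL.C (nat_lit 0x2c38ce) (nat_lit 0x246f8476c5836df) (nat_lit 0x0)
  (PL.C (nat_lit 0x2c6bda) (nat_lit 0x0) (nat_lit 0x65a6258142ff499)
  (PL.C (nat_lit 0x2c6c28) (nat_lit 0x0) (nat_lit 0x1fb5eed8a7fca9)
  (PL.C (nat_lit 0x2c7cde) (nat_lit 0x0) (nat_lit 0x8a81e794a68667a)
  (PL.C (nat_lit 0x2c9808) (nat_lit 0x0) (nat_lit 0x5781f46702a5cf)
  (PL.C (nat_lit 0x2c9a42) (nat_lit 0x0) (nat_lit 0x7d1a5097ed449fa)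
  (PL.C (nat_lit 0x2cad35) (nat_lit 0x35ce99739b80701) (nat_lit 0x0)
  (PL.C (nat_lit 0x2cd9a4) (nat_lit 0x0) (nat_lit 0x124c759083291a64)
  (PL.C (nat_lit 0x2ce21e) (nat_lit 0x303894bc661d616) (nat_lit 0x0)
  (PL.C (nat_lit 0x2ced38) (nat_lit 0x4d7ca878319be4) (nat_lit 0x0)
  (PL.C (nat_lit 0x2d60b8) (nat_lit 0x0) (nat_lit 0x3838f51a742cfba)
  (PL.C (nat_lit 0x2dc24f) (nat_lit 0x2cb779509a0c3) (nat_lit 0x0)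
  (PL.C (nat_lit 0x2e0284) (nat_lit 0x0) (nat_lit 0x171e0ea8041d456)
  (PL.C (nat_lit 0x2e5f3c) (nat_lit 0xc388828633827fc) (nat_lit 0x0) gp2_0_36))))))))))))))))))))

noncomputable def gp2_0_34 : PL :=
  (PL.C (nat_lit 0x2968d8) (nat_lit 0x1bf39ecdf44a4) (nat_lit 0x0)
  (PL.C (nat_lit 0x296a8a) (nat_lit 0x0) (nat_lit 0x4f38a61a434e85b)
  (PL.C (nat_lit 0x296d69) (nat_lit 0x5969ea5d6ae1a31) (nat_lit 0x0)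
  (PL.C (nat_lit 0x29b010) (nat_lit 0x0) (nat_lit 0x134ba7c186d3c)
  (PL.C (nat_lit 0x29b730) (nat_lit 0x339a88af2db4675) (nat_lit 0x0)
  (PL.C (nat_lit 0x29c928) (nat_lit 0xbab4b1c034eb9) (nat_lit 0x0)
  (PL.C (nat_lit 0x29cbfe) (nat_lit 0x0) (nat_lit 0x1c6a5511ebbeaffc)
  (PL.C (nat_lit 0x29ea2e) (nat_lit 0x0) (nat_lit 0x131b5ad4473e6de)
  (PL.C (nat_lit 0x2a1d8b) (nat_lit 0x58b5cff0199ba8) (nat_lit 0x0)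
  (PL.C (nat_lit 0x2a23b2) (nat_lit 0x0) (nat_lit 0xbe27f5b03da62e)
  (PL.C (nat_lit 0x2a4806) (nat_lit 0xd6879e2fcf36b73) (nat_lit 0x0)
  (PL.C (nat_lit 0x2a6e1c) (nat_lit 0x9d6710be2966f6) (nat_lit 0x0)
  (PL.C (nat_lit 0x2a8a24) (nat_lit 0x7e2a195cdc0a2b2) (nat_lit 0x0)
  (PL.C (nat_lit 0x2aa29c) (nat_lit 0x25939e141447915) (nat_lit 0x0)
  (PL.C (nat_lit 0x2aaaa8) (nat_lit 0x505cd75f1942b4) (nat_lit 0x0)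
  (PL.C (nat_lit 0x2abc46) (nat_lit 0x464c5179b50d8d4) (nat_lit 0x0)
  (PL.C (nat_lit 0x2ac6d8) (nat_lit 0x30c8ce4dbe91ede) (nat_lit 0x0)
  (PL.C (nat_lit 0x2b57b4) (nat_lit 0x0) (nat_lit 0x5d78bbcb10ec213)
  (PL.C (nat_lit 0x2b7fc8) (nat_lit 0x1df06a6ee0428d9) (nat_lit 0x0)
  (PL.C (nat_lit 0x2b91be) (nat_lit 0x0) (nat_lit 0xc115c62ebcd046) gp2_0_35))))))))))))))))))))

noncomputable def gp2_0_33 : PL :=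
  (PL.C (nat_lit 0x27b9d3) (nat_lit 0x79b0fee366b5671) (nat_lit 0x0)
  (PL.C (nat_lit 0x27e778) (nat_lit 0x0) (nat_lit 0xe55c42f9db6dd8)
  (PL.C (nat_lit 0x27f7f2) (nat_lit 0x0) (nat_lit 0x1b6ce59768e4289)
  (PL.C (nat_lit 0x27f86c) (nat_lit 0x24123242c859ab3) (nat_lit 0x0)
  (PL.C (nat_lit 0x2808ed) (nat_lit 0x0) (nat_lit 0x5782355af8fb021)
  (PL.C (nat_lit 0x2812d4) (nat_lit 0x0) (nat_lit 0x7d2930fef31ea61)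
  (PL.C (nat_lit 0x2821a8) (nat_lit 0xc3f05f68ef61317) (nat_lit 0x0)
  (PL.C (nat_lit 0x282df2) (nat_lit 0x0) (nat_lit 0x65a6258142ff499)
  (PL.C (nat_lit 0x28420e) (nat_lit 0x852e6c917ac9797) (nat_lit 0x0)
  (PL.C (nat_lit 0x2843b0) (nat_lit 0x0) (nat_lit 0x2c90153420d99b)
  (PL.C (nat_lit 0x2855e8) (nat_lit 0x0) (nat_lit 0x7282bc6897733c)
  (PL.C (nat_lit 0x286a18) (nat_lit 0x53277f2314e707) (nat_lit 0x0)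
  (PL.C (nat_lit 0x2881bc) (nat_lit 0x126669d1319346b1) (nat_lit 0x0)
  (PL.C (nat_lit 0x28c328) (nat_lit 0x3272c3b1b32a6a) (nat_lit 0x0)
  (PL.C (nat_lit 0x28e3d0) (nat_lit 0x42f4b3d33a58a7) (nat_lit 0x0)
  (PL.C (nat_lit 0x28ed94) (nat_lit 0x265a2a912f501b7) (nat_lit 0x0)
  (PL.C (nat_lit 0x290b26) (nat_lit 0x0) (nat_lit 0x20bdebefb0dafece)
  (PL.C (nat_lit 0x292df4) (nat_lit 0x2ab420c4a174a9) (nat_lit 0x0)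
  (PL.C (nat_lit 0x2933f8) (nat_lit 0x688b57b9e8ede24) (nat_lit 0x0)
  (PL.C (nat_lit 0x294096) (nat_lit 0x252e57191471bab) (nat_lit 0x0) gp2_0_34))))))))))))))))))))

noncomputable def gp2_0_32 : PL :=
  (PL.C (nat_lit 0x25fe10) (nat_lit 0xe56048719eda9) (nat_lit 0x0)
  (PL.C (nat_lit 0x26067c) (nat_lit 0x0) (nat_lit 0xe71edf22095f10)
  (PL.C (nat_lit 0x260efe) (nat_lit 0x283f9977b3eea0c) (nat_lit 0x0)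
  (PL.C (nat_lit 0x261984) (nat_lit 0xaba278c35bac02) (nat_lit 0x0)
  (PL.C (nat_lit 0x2634d8) (nat_lit 0x4c8a642ee6e3bd1) (nat_lit 0x0)
  (PL.C (nat_lit 0x263e6e) (nat_lit 0xd6879e2fcf36b73) (nat_lit 0x0)
  (PL.C (nat_lit 0x2655c8) (nat_lit 0x0) (nat_lit 0x6cef2d3d1c1519)
  (PL.C (nat_lit 0x2657b2) (nat_lit 0x1ef5e9ad9df1b69) (nat_lit 0x0)
  (PL.C (nat_lit 0x266772) (nat_lit 0x87320c27bf12b15) (nat_lit 0x0)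
  (PL.C (nat_lit 0x267850) (nat_lit 0x0) (nat_lit 0x2677f04e74e975f)
  (PL.C (nat_lit 0x26d7d4) (nat_lit 0x1dd7307cf72c09fa) (nat_lit 0x0)
  (PL.C (nat_lit 0x26db1c) (nat_lit 0x19cf6f07ed466ef) (nat_lit 0x0)
  (PL.C (nat_lit 0x26e3b9) (nat_lit 0x84a5baa637b1735) (nat_lit 0x0)
  (PL.C (nat_lit 0x2710fa) (nat_lit 0x0) (nat_lit 0xa58f5ac54689c0f)
  (PL.C (nat_lit 0x27252c) (nat_lit 0xc388828633827fc) (nat_lit 0x0)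
  (PL.C (nat_lit 0x275d08) (nat_lit 0x0) (nat_lit 0x431bb872dbf3c4f)
  (PL.C (nat_lit 0x2761a7) (nat_lit 0x863c244dda94eb) (nat_lit 0x0)
  (PL.C (nat_lit 0x278d64) (nat_lit 0x3e53d7dcd8b106c) (nat_lit 0x0)
  (PL.C (nat_lit 0x279048) (nat_lit 0x5f6b6e834b6489) (nat_lit 0x0)
  (PL.C (nat_lit 0x27a09e) (nat_lit 0x0) (nat_lit 0x1b6ce59768e4289) gp2_0_33))))))))))))))))))))

noncomputable def gp2_0_31 : PL :=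
  (PL.C (nat_lit 0x23e134) (nat_lit 0x22344c4d60c5247) (nat_lit 0x0)
  (PL.C (nat_lit 0x2404a4) (nat_lit 0x0) (nat_lit 0x1a5e6d4fd3b8c3)
  (PL.C (nat_lit 0x241c38) (nat_lit 0x30c8ce4dbe91ede) (nat_lit 0x0)
  (PL.C (nat_lit 0x2439a2) (nat_lit 0x19aef16c0d8a302) (nat_lit 0x0)
  (PL.C (nat_lit 0x2449d8) (nat_lit 0x0) (nat_lit 0xdab6e1ab8e2a19)
  (PL.C (nat_lit 0x244c5c) (nat_lit 0x5ea1fca77aff212) (nat_lit 0x0)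
  (PL.C (nat_lit 0x248028) (nat_lit 0x0) (nat_lit 0x3bd2e0f90ca413a)
  (PL.C (nat_lit 0x24a6bc) (nat_lit 0xf113b7bd5c6a901) (nat_lit 0x0)
  (PL.C (nat_lit 0x24d098) (nat_lit 0x0) (nat_lit 0x3c1a6ace83609b1)
  (PL.C (nat_lit 0x24dbde) (nat_lit 0x0) (nat_lit 0x2a0bc9b7a2ef08b)
  (PL.C (nat_lit 0x24e03c) (nat_lit 0x566a6ff35c11f58) (nat_lit 0x0)
  (PL.C (nat_lit 0x250be8) (nat_lit 0x0) (nat_lit 0x3620a88ce1d33b7)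
  (PL.C (nat_lit 0x251cfa) (nat_lit 0x0) (nat_lit 0x24408ec8525c94)
  (PL.C (nat_lit 0x252628) (nat_lit 0x112f97861fc796) (nat_lit 0x0)
  (PL.C (nat_lit 0x255486) (nat_lit 0x0) (nat_lit 0x7d1a5097ed449fa)
  (PL.C (nat_lit 0x25744e) (nat_lit 0x0) (nat_lit 0x8b65079f0ceedec)
  (PL.C (nat_lit 0x258cf8) (nat_lit 0x0) (nat_lit 0x3cfdcb2817d1a7e)
  (PL.C (nat_lit 0x25a6ca) (nat_lit 0x246f8476c5836df) (nat_lit 0x0)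
  (PL.C (nat_lit 0x25b6c9) (nat_lit 0x0) (nat_lit 0x19c62d611b55cb59)
  (PL.C (nat_lit 0x25c4f4) (nat_lit 0xbc7ea9e116f8eb) (nat_lit 0x0) gp2_0_32))))))))))))))))))))

noncomputable def gp2_0_30 : PL :=
  (PL.C (nat_lit 0x2208b0) (nat_lit 0x0) (nat_lit 0x2677f04e74e975f)
  (PL.C (nat_lit 0x22267b) (nat_lit 0xc06eb91032c3443) (nat_lit 0x0)
  (PL.C (nat_lit 0x2231ac) (nat_lit 0x0) (nat_lit 0xf0cd5be86fabb42)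
  (PL.C (nat_lit 0x22453e) (nat_lit 0x303894bc661d616) (nat_lit 0x0)
  (PL.C (nat_lit 0x224db8) (nat_lit 0x477d1a7c72c7b0) (nat_lit 0x0)
  (PL.C (nat_lit 0x225be2) (nat_lit 0x105539bb0cb8b16) (nat_lit 0x0)
  (PL.C (nat_lit 0x225d14) (nat_lit 0x0) (nat_lit 0x21c51fafd2ca586)
  (PL.C (nat_lit 0x228b30) (nat_lit 0x0) (nat_lit 0x2d2828a16b97c2)
  (PL.C (nat_lit 0x2298a8) (nat_lit 0x0) (nat_lit 0xf715a2cc65f2d9)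
  (PL.C (nat_lit 0x22aca8) (nat_lit 0x0) (nat_lit 0x20c8d2a8e03289f)
  (PL.C (nat_lit 0x22ceb4) (nat_lit 0x4a4849c814e722) (nat_lit 0x0)
  (PL.C (nat_lit 0x22d1d8) (nat_lit 0x0) (nat_lit 0xa176e77e360757)
  (PL.C (nat_lit 0x22d750) (nat_lit 0x0) (nat_lit 0x64965fbe446ca5)
  (PL.C (nat_lit 0x22f632) (nat_lit 0x0) (nat_lit 0xb68eeb50354daf)
  (PL.C (nat_lit 0x2301ea) (nat_lit 0x3a0d84bba7d6f0d) (nat_lit 0x0)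
  (PL.C (nat_lit 0x231cb0) (nat_lit 0x0) (nat_lit 0x84aee7e27bfc09)
  (PL.C (nat_lit 0x232503) (nat_lit 0x0) (nat_lit 0x15b1e02d07c3371)
  (PL.C (nat_lit 0x234876) (nat_lit 0x1684d1090c20b4f) (nat_lit 0x0)
  (PL.C (nat_lit 0x237666) (nat_lit 0x0) (nat_lit 0x7130b2a8e02fa42)
  (PL.C (nat_lit 0x23e0f5) (nat_lit 0x0) (nat_lit 0x39120e82236ac34) gp2_0_31))))))))))))))))))))

noncomputable def gp2_0_29 : PL :=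
  (PL.C (nat_lit 0x201250) (nat_lit 0xe56048719eda9) (nat_lit 0x0)
  (PL.C (nat_lit 0x20196c) (nat_lit 0x0) (nat_lit 0xe71edf22095f10)
  (PL.C (nat_lit 0x201d10) (nat_lit 0x0) (nat_lit 0xc67483fc345cfb)
  (PL.C (nat_lit 0x203d75) (nat_lit 0x2cb779509a0c3) (nat_lit 0x0)
  (PL.C (nat_lit 0x2048a6) (nat_lit 0x3e7b126a739adc8) (nat_lit 0x0)
  (PL.C (nat_lit 0x20548e) (nat_lit 0x0) (nat_lit 0x2a0bc9b7a2ef08b)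
  (PL.C (nat_lit 0x205dfa) (nat_lit 0x0) (nat_lit 0x5df0ee81b0046c0)
  (PL.C (nat_lit 0x2069f4) (nat_lit 0x0) (nat_lit 0xf0cd5be86fabb42)
  (PL.C (nat_lit 0x2073e1) (nat_lit 0x15b4282ad8227a3) (nat_lit 0x0)
  (PL.C (nat_lit 0x20841f) (nat_lit 0x3e636b92be77317) (nat_lit 0x0)
  (PL.C (nat_lit 0x2096af) (nat_lit 0x863c244dda94eb) (nat_lit 0x0)
  (PL.C (nat_lit 0x20b78e) (nat_lit 0x37a36ce9c40471d) (nat_lit 0x0)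
  (PL.C (nat_lit 0x20ca24) (nat_lit 0x0) (nat_lit 0xc918787eae9ca43)
  (PL.C (nat_lit 0x20d818) (nat_lit 0x0) (nat_lit 0x698eeb8058af69)
  (PL.C (nat_lit 0x20fa62) (nat_lit 0x1202e35cc90e2508) (nat_lit 0x0)
  (PL.C (nat_lit 0x21268b) (nat_lit 0x5969ea5d6ae1a31) (nat_lit 0x0)
  (PL.C (nat_lit 0x216434) (nat_lit 0x0) (nat_lit 0x3946e2142ef150f)
  (PL.C (nat_lit 0x218248) (nat_lit 0x0) (nat_lit 0x3620a88ce1d33b7)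
  (PL.C (nat_lit 0x21a638) (nat_lit 0x0) (nat_lit 0x35624f64a0c074)
  (PL.C (nat_lit 0x21daaf) (nat_lit 0x1e2238ac377b94c) (nat_lit 0x0) gp2_0_30))))))))))))))))))))

noncomputable def gp2_0_28 : PL :=
  (PL.C (nat_lit 0x1dc547) (nat_lit 0x0) (nat_lit 0x7dcb2b45296711)
  (PL.C (nat_lit 0x1dc8ce) (nat_lit 0x1684d1090c20b4f) (nat_lit 0x0)
  (PL.C (nat_lit 0x1dec14) (nat_lit 0x2cf22dfcffc7dcb) (nat_lit 0x0)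
  (PL.C (nat_lit 0x1e26bb) (nat_lit 0x0) (nat_lit 0x216d43e6d3ed95f)
  (PL.C (nat_lit 0x1e4989) (nat_lit 0x15b4282ad8227a3) (nat_lit 0x0)
  (PL.C (nat_lit 0x1e5523) (nat_lit 0x2134874371d5b82) (nat_lit 0x0)
  (PL.C (nat_lit 0x1e692d) (nat_lit 0x0) (nat_lit 0x216d43e6d3ed95f)
  (PL.C (nat_lit 0x1e818a) (nat_lit 0x0) (nat_lit 0x20528cf54a9563)
  (PL.C (nat_lit 0x1eac58) (nat_lit 0x1205d98815041d) (nat_lit 0x0)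
  (PL.C (nat_lit 0x1ebd57) (nat_lit 0x0) (nat_lit 0x6bddc484bc2fb09)
  (PL.C (nat_lit 0x1eea28) (nat_lit 0x6bbbe587bc14730) (nat_lit 0x0)
  (PL.C (nat_lit 0x1ef684) (nat_lit 0x0) (nat_lit 0x11e37b8d182dd12)
  (PL.C (nat_lit 0x1f1268) (nat_lit 0x0) (nat_lit 0x24c9287a473187b)
  (PL.C (nat_lit 0x1f62d0) (nat_lit 0x679a8efb5dda2dc) (nat_lit 0x0)
  (PL.C (nat_lit 0x1f860c) (nat_lit 0xbc7ea9e116f8eb) (nat_lit 0x0)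
  (PL.C (nat_lit 0x1f9e06) (nat_lit 0x13f4e7c682affafc) (nat_lit 0x0)
  (PL.C (nat_lit 0x1fa5d8) (nat_lit 0x18910a998fb0e2c) (nat_lit 0x0)
  (PL.C (nat_lit 0x1fb2d8) (nat_lit 0x2066dd604c227de) (nat_lit 0x0)
  (PL.C (nat_lit 0x1fbd78) (nat_lit 0x0) (nat_lit 0xcb4e835ca8ea938)
  (PL.C (nat_lit 0x1fcb24) (nat_lit 0x0) (nat_lit 0x7d2930fef31ea61) gp2_0_29))))))))))))))))))))

noncomputable def gp2_0_27 : PL :=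
  (PL.C (nat_lit 0x1c3d01) (nat_lit 0x410a7129a333694) (nat_lit 0x0)
  (PL.C (nat_lit 0x1c4968) (nat_lit 0x17dd8942d1d074) (nat_lit 0x0)
  (PL.C (nat_lit 0x1c5c18) (nat_lit 0x57a38d3a9332c83) (nat_lit 0x0)
  (PL.C (nat_lit 0x1c6c68) (nat_lit 0x0) (nat_lit 0xa176e77e360757)
  (PL.C (nat_lit 0x1c7d84) (nat_lit 0x7e2a195cdc0a2b2) (nat_lit 0x0)
  (PL.C (nat_lit 0x1c7f73) (nat_lit 0x0) (nat_lit 0x18f6c406d53c1b7b)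
  (PL.C (nat_lit 0x1c8490) (nat_lit 0xa81aa3f67ade95) (nat_lit 0x0)
  (PL.C (nat_lit 0x1d0bd4) (nat_lit 0x5ea1fca77aff212) (nat_lit 0x0)
  (PL.C (nat_lit 0x1d1744) (nat_lit 0x0) (nat_lit 0x1001e3a68318dae)
  (PL.C (nat_lit 0x1d2347) (nat_lit 0x0) (nat_lit 0x3ab1c53bd28ab1)
  (PL.C (nat_lit 0x1d2a7c) (nat_lit 0x0) (nat_lit 0x19a1afdec81fa26)
  (PL.C (nat_lit 0x1d4548) (nat_lit 0xce57b30491ff224) (nat_lit 0x0)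
  (PL.C (nat_lit 0x1d515e) (nat_lit 0x0) (nat_lit 0x8df900c58cf9b22)
  (PL.C (nat_lit 0x1d7b34) (nat_lit 0x737fe6381200654) (nat_lit 0x0)
  (PL.C (nat_lit 0x1d9d3c) (nat_lit 0x0) (nat_lit 0x22dfc2419a32a6c)
  (PL.C (nat_lit 0x1d9d70) (nat_lit 0x6d5c5167b11353) (nat_lit 0x0)
  (PL.C (nat_lit 0x1da894) (nat_lit 0x0) (nat_lit 0x90637e50fe2ce96)
  (PL.C (nat_lit 0x1db4d3) (nat_lit 0xb0887b403c1e70) (nat_lit 0x0)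
  (PL.C (nat_lit 0x1dbab0) (nat_lit 0x0) (nat_lit 0xcdc93aab83a744)
  (PL.C (nat_lit 0x1dbc2c) (nat_lit 0x0) (nat_lit 0x48349402c42f832) gp2_0_28))))))))))))))))))))

noncomputable def gp2_0_26 : PL :=
  (PL.C (nat_lit 0x1ab738) (nat_lit 0x0) (nat_lit 0x1ae7de004d1b3e3)
  (PL.C (nat_lit 0x1ac94c) (nat_lit 0x0) (nat_lit 0x22dfc2419a32a6c)
  (PL.C (nat_lit 0x1ad6b4) (nat_lit 0xcea37dd3cc05752) (nat_lit 0x0)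
  (PL.C (nat_lit 0x1ae3f0) (nat_lit 0x0) (nat_lit 0x7175d83cef9502)
  (PL.C (nat_lit 0x1b0128) (nat_lit 0x153a829f71e129f4) (nat_lit 0x0)
  (PL.C (nat_lit 0x1b5cc4) (nat_lit 0x126669d1319346b1) (nat_lit 0x0)
  (PL.C (nat_lit 0x1b6525) (nat_lit 0x0) (nat_lit 0x39120e82236ac34)
  (PL.C (nat_lit 0x1b72db) (nat_lit 0xe3cdf4ce70132d) (nat_lit 0x0)
  (PL.C (nat_lit 0x1b73f8) (nat_lit 0x0) (nat_lit 0x1fb5eed8a7fca9)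
  (PL.C (nat_lit 0x1b8064) (nat_lit 0x0) (nat_lit 0x1a5e6d4fd3b8c3)
  (PL.C (nat_lit 0x1b8bbf) (nat_lit 0x3b4e56df7e50d44) (nat_lit 0x0)
  (PL.C (nat_lit 0x1b9c5c) (nat_lit 0x0) (nat_lit 0x1c3667086c5d6a9)
  (PL.C (nat_lit 0x1b9e46) (nat_lit 0x0) (nat_lit 0x9df0f3be250bcfc)
  (PL.C (nat_lit 0x1bdb70) (nat_lit 0x0) (nat_lit 0x84aee7e27bfc09)
  (PL.C (nat_lit 0x1bdd54) (nat_lit 0x0) (nat_lit 0x4360df73c0a54a2)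
  (PL.C (nat_lit 0x1bf174) (nat_lit 0x0) (nat_lit 0x56cf6af925f8eeb)
  (PL.C (nat_lit 0x1bfbf7) (nat_lit 0x0) (nat_lit 0x3d72f0a107ac6a)
  (PL.C (nat_lit 0x1c13b2) (nat_lit 0x138ec379759cbed) (nat_lit 0x0)
  (PL.C (nat_lit 0x1c17cc) (nat_lit 0x0) (nat_lit 0x129ab932542d311e)
  (PL.C (nat_lit 0x1c3004) (nat_lit 0x0) (nat_lit 0x54a63f57149e798) gp2_0_27))))))))))))))))))))

noncomputable def gp2_0_25 : PL :=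
  (PL.C (nat_lit 0x197890) (nat_lit 0x0) (nat_lit 0xad36a700072690)
  (PL.C (nat_lit 0x197ef4) (nat_lit 0x0) (nat_lit 0x54a63f57149e798)
  (PL.C (nat_lit 0x19897b) (nat_lit 0x0) (nat_lit 0xb7ae13d421ab62e)
  (PL.C (nat_lit 0x198fcc) (nat_lit 0x2d8cfaa704d945a) (nat_lit 0x0)
  (PL.C (nat_lit 0x199a4c) (nat_lit 0xf113b7bd5c6a901) (nat_lit 0x0)
  (PL.C (nat_lit 0x19e538) (nat_lit 0xce57b30491ff224) (nat_lit 0x0)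
  (PL.C (nat_lit 0x19e768) (nat_lit 0xae81714bf24fa0) (nat_lit 0x0)
  (PL.C (nat_lit 0x19ed26) (nat_lit 0xa52afd98be5b2da) (nat_lit 0x0)
  (PL.C (nat_lit 0x19f2f3) (nat_lit 0x0) (nat_lit 0x6bddc484bc2fb09)
  (PL.C (nat_lit 0x1a134b) (nat_lit 0xc06eb91032c3443) (nat_lit 0x0)
  (PL.C (nat_lit 0x1a18c8) (nat_lit 0x6bbbe587bc14730) (nat_lit 0x0)
  (PL.C (nat_lit 0x1a2485) (nat_lit 0x16101d0758f7eef) (nat_lit 0x0)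
  (PL.C (nat_lit 0x1a411a) (nat_lit 0x0) (nat_lit 0xee26432a089e3c)
  (PL.C (nat_lit 0x1a6030) (nat_lit 0x0) (nat_lit 0x64965fbe446ca5)
  (PL.C (nat_lit 0x1a6b14) (nat_lit 0x0) (nat_lit 0x2b804f08bd8a787)
  (PL.C (nat_lit 0x1a6cdf) (nat_lit 0x136fb4ec2d250d82) (nat_lit 0x0)
  (PL.C (nat_lit 0x1a7be2) (nat_lit 0x0) (nat_lit 0x7130b2a8e02fa42)
  (PL.C (nat_lit 0x1a9a50) (nat_lit 0x0) (nat_lit 0x2d2828a16b97c2)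
  (PL.C (nat_lit 0x1aa54c) (nat_lit 0x0) (nat_lit 0x2b804f08bd8a787)
  (PL.C (nat_lit 0x1ab09e) (nat_lit 0x0) (nat_lit 0x8b65079f0ceedec) gp2_0_26))))))))))))))))))))

noncomputable def gp2_0_24 : PL :=
  (PL.C (nat_lit 0x180318) (nat_lit 0x0) (nat_lit 0xb9190499c76ba3)
  (PL.C (nat_lit 0x180e7f) (nat_lit 0x224b0f012863c370) (nat_lit 0x0)
  (PL.C (nat_lit 0x1812d0) (nat_lit 0xa81aa3f67ade95) (nat_lit 0x0)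
  (PL.C (nat_lit 0x18266c) (nat_lit 0x30264f9fc5ff4e97) (nat_lit 0x0)
  (PL.C (nat_lit 0x1832e8) (nat_lit 0x6be7b271003b153) (nat_lit 0x0)
  (PL.C (nat_lit 0x185570) (nat_lit 0x0) (nat_lit 0x274ed4e7a6e6272)
  (PL.C (nat_lit 0x186f28) (nat_lit 0x102f79f9f3c3267) (nat_lit 0x0)
  (PL.C (nat_lit 0x188b10) (nat_lit 0x0) (nat_lit 0x274ed4e7a6e6272)
  (PL.C (nat_lit 0x189294) (nat_lit 0x0) (nat_lit 0x418f07c9ced9de3)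
  (PL.C (nat_lit 0x18bdfc) (nat_lit 0xb72d3daeb52f5f) (nat_lit 0x0)
  (PL.C (nat_lit 0x18e304) (nat_lit 0x0) (nat_lit 0x48349402c42f832)
  (PL.C (nat_lit 0x18f834) (nat_lit 0x0) (nat_lit 0x113bc8425245fd50)
  (PL.C (nat_lit 0x1919dc) (nat_lit 0x737fe6381200654) (nat_lit 0x0)
  (PL.C (nat_lit 0x192486) (nat_lit 0x0) (nat_lit 0x1c6a5511ebbeaffc)
  (PL.C (nat_lit 0x192df8) (nat_lit 0x34886d5b239ede) (nat_lit 0x0)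
  (PL.C (nat_lit 0x194631) (nat_lit 0xe800d83f457b4ea) (nat_lit 0x0)
  (PL.C (nat_lit 0x1959a8) (nat_lit 0x37a5c72d5f129f5) (nat_lit 0x0)
  (PL.C (nat_lit 0x195f54) (nat_lit 0x0) (nat_lit 0xa1f03e7d101051a)
  (PL.C (nat_lit 0x196658) (nat_lit 0x477d1a7c72c7b0) (nat_lit 0x0)
  (PL.C (nat_lit 0x196719) (nat_lit 0xa92aac991f1c8a) (nat_lit 0x0) gp2_0_25))))))))))))))))))))

noncomputable def gp2_0_23 : PL :=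
  (PL.C (nat_lit 0x166ed0) (nat_lit 0x0) (nat_lit 0xc67483fc345cfb)
  (PL.C (nat_lit 0x167937) (nat_lit 0xa92aac991f1c8a) (nat_lit 0x0)
  (PL.C (nat_lit 0x1691ca) (nat_lit 0x3d07c2abe49d8f5) (nat_lit 0x0)
  (PL.C (nat_lit 0x16c452) (nat_lit 0x18e3232a2543eb77) (nat_lit 0x0)
  (PL.C (nat_lit 0x16cbc8) (nat_lit 0x0) (nat_lit 0xa8b450704d96cf9)
  (PL.C (nat_lit 0x16d8d4) (nat_lit 0x2cf22dfcffc7dcb) (nat_lit 0x0)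
  (PL.C (nat_lit 0x16e7ec) (nat_lit 0x213cda0aef8e412) (nat_lit 0x0)
  (PL.C (nat_lit 0x16e8b8) (nat_lit 0x0) (nat_lit 0xf715a2cc65f2d9)
  (PL.C (nat_lit 0x171070) (nat_lit 0x0) (nat_lit 0x12fe8432f620536)
  (PL.C (nat_lit 0x172f77) (nat_lit 0xdd3e3d50beff4) (nat_lit 0x0)
  (PL.C (nat_lit 0x173478) (nat_lit 0x0) (nat_lit 0x24c9287a473187b)
  (PL.C (nat_lit 0x173690) (nat_lit 0x58689b1b7be88e) (nat_lit 0x0)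
  (PL.C (nat_lit 0x174ecc) (nat_lit 0x0) (nat_lit 0x48f56d496a879a)
  (PL.C (nat_lit 0x17569c) (nat_lit 0x265a2a912f501b7) (nat_lit 0x0)
  (PL.C (nat_lit 0x176e02) (nat_lit 0x0) (nat_lit 0x131b5ad4473e6de)
  (PL.C (nat_lit 0x1785a4) (nat_lit 0x80b64a9a13506b) (nat_lit 0x0)
  (PL.C (nat_lit 0x17a444) (nat_lit 0x0) (nat_lit 0x97fc361f561dbe8)
  (PL.C (nat_lit 0x17ae07) (nat_lit 0x368a8c9ab9c848d) (nat_lit 0x0)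
  (PL.C (nat_lit 0x17eb4e) (nat_lit 0x125100ebc844f66) (nat_lit 0x0)
  (PL.C (nat_lit 0x17eb78) (nat_lit 0x16b5d3ab29d076c) (nat_lit 0x0) gp2_0_24))))))))))))))))))))

noncomputable def gp2_0_22 : PL :=
  (PL.C (nat_lit 0x14b6f0) (nat_lit 0x0) (nat_lit 0x18bd9682aae1ad8)
  (PL.C (nat_lit 0x150408) (nat_lit 0x34886d5b239ede) (nat_lit 0x0)
  (PL.C (nat_lit 0x151404) (nat_lit 0x381e9f7922c460a2) (nat_lit 0x0)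
  (PL.C (nat_lit 0x153218) (nat_lit 0x0) (nat_lit 0x1ae7de004d1b3e3)
  (PL.C (nat_lit 0x153495) (nat_lit 0x105b77ba696be64) (nat_lit 0x0)
  (PL.C (nat_lit 0x156648) (nat_lit 0x37a5c72d5f129f5) (nat_lit 0x0)
  (PL.C (nat_lit 0x157e4e) (nat_lit 0x0) (nat_lit 0x20528cf54a9563)
  (PL.C (nat_lit 0x1585c4) (nat_lit 0x0) (nat_lit 0x3946e2142ef150f)
  (PL.C (nat_lit 0x158db4) (nat_lit 0x0) (nat_lit 0x418f07c9ced9de3)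
  (PL.C (nat_lit 0x158ea7) (nat_lit 0x0) (nat_lit 0xb7ae13d421ab62e)
  (PL.C (nat_lit 0x1593fc) (nat_lit 0xd2707031b0cff8f) (nat_lit 0x0)
  (PL.C (nat_lit 0x159bf8) (nat_lit 0x0) (nat_lit 0xa8b450704d96cf9)
  (PL.C (nat_lit 0x15a296) (nat_lit 0x0) (nat_lit 0x99c6d50acce50fe)
  (PL.C (nat_lit 0x15ad6a) (nat_lit 0x0) (nat_lit 0x5df0ee81b0046c0)
  (PL.C (nat_lit 0x15b9ca) (nat_lit 0x0) (nat_lit 0xee26432a089e3c)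
  (PL.C (nat_lit 0x15cfb4) (nat_lit 0x0) (nat_lit 0x39dbb84607d60a3f)
  (PL.C (nat_lit 0x15dc18) (nat_lit 0x0) (nat_lit 0x20c8d2a8e03289f)
  (PL.C (nat_lit 0x160b1b) (nat_lit 0x0) (nat_lit 0x7dcb2b45296711)
  (PL.C (nat_lit 0x1619b2) (nat_lit 0x0) (nat_lit 0x9df0f3be250bcfc)
  (PL.C (nat_lit 0x164e9b) (nat_lit 0x0) (nat_lit 0x39b8099df294fce) gp2_0_23))))))))))))))))))))

noncomputable def gp2_0_21 : PL :=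
  (PL.C (nat_lit 0x1364d8) (nat_lit 0x4d7ca878319be4) (nat_lit 0x0)
  (PL.C (nat_lit 0x136cda) (nat_lit 0x105539bb0cb8b16) (nat_lit 0x0)
  (PL.C (nat_lit 0x1371a8) (nat_lit 0x3bbfba950d0082) (nat_lit 0x0)
  (PL.C (nat_lit 0x138b94) (nat_lit 0x0) (nat_lit 0xc8edb381c89c4d8)
  (PL.C (nat_lit 0x13a778) (nat_lit 0x1c3cc143abec940) (nat_lit 0x0)
  (PL.C (nat_lit 0x13be28) (nat_lit 0x0) (nat_lit 0xbe30e053d35de69)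
  (PL.C (nat_lit 0x13c5b8) (nat_lit 0x0) (nat_lit 0x6cef2d3d1c1519)
  (PL.C (nat_lit 0x13cde2) (nat_lit 0x0) (nat_lit 0x8df900c58cf9b22)
  (PL.C (nat_lit 0x13d2c8) (nat_lit 0x159314dc5f6945f) (nat_lit 0x0)
  (PL.C (nat_lit 0x13d8da) (nat_lit 0x0) (nat_lit 0x3365fd7a29e735)
  (PL.C (nat_lit 0x13db34) (nat_lit 0x80b64a9a13506b) (nat_lit 0x0)
  (PL.C (nat_lit 0x13f2b8) (nat_lit 0x54d31288480b15) (nat_lit 0x0)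
  (PL.C (nat_lit 0x1419d2) (nat_lit 0x0) (nat_lit 0x281090002d49121)
  (PL.C (nat_lit 0x143106) (nat_lit 0x0) (nat_lit 0x99c6d50acce50fe)
  (PL.C (nat_lit 0x1438c2) (nat_lit 0x584124ed6b99d82) (nat_lit 0x0)
  (PL.C (nat_lit 0x14461e) (nat_lit 0x0) (nat_lit 0x281090002d49121)
  (PL.C (nat_lit 0x144ebb) (nat_lit 0x0) (nat_lit 0x18f6c406d53c1b7b)
  (PL.C (nat_lit 0x14565c) (nat_lit 0x546f8b04de0c8b) (nat_lit 0x0)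
  (PL.C (nat_lit 0x147e3a) (nat_lit 0x0) (nat_lit 0xad1da330c943f0)
  (PL.C (nat_lit 0x14a458) (nat_lit 0x3efde641fd6ad5) (nat_lit 0x0) gp2_0_22))))))))))))))))))))

noncomputable def gp2_0_20 : PL :=
  (PL.C (nat_lit 0x123aad) (nat_lit 0x0) (nat_lit 0x61832860e2c59b)
  (PL.C (nat_lit 0x123dd8) (nat_lit 0x153a829f71e129f4) (nat_lit 0x0)
  (PL.C (nat_lit 0x12436e) (nat_lit 0x125100ebc844f66) (nat_lit 0x0)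
  (PL.C (nat_lit 0x124c92) (nat_lit 0x1ef5e9ad9df1b69) (nat_lit 0x0)
  (PL.C (nat_lit 0x124d50) (nat_lit 0x6d5c5167b11353) (nat_lit 0x0)
  (PL.C (nat_lit 0x125598) (nat_lit 0x0) (nat_lit 0xb9190499c76ba3)
  (PL.C (nat_lit 0x125d2a) (nat_lit 0x84e4b910dc630) (nat_lit 0x0)
  (PL.C (nat_lit 0x126513) (nat_lit 0xdd3e3d50beff4) (nat_lit 0x0)
  (PL.C (nat_lit 0x126984) (nat_lit 0x0) (nat_lit 0x1a2ff103ae9e216)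
  (PL.C (nat_lit 0x12a0f8) (nat_lit 0x0) (nat_lit 0x72d6f8737d7b2e4)
  (PL.C (nat_lit 0x12a7fa) (nat_lit 0x37a36ce9c40471d) (nat_lit 0x0)
  (PL.C (nat_lit 0x12b7cc) (nat_lit 0x22344c4d60c5247) (nat_lit 0x0)
  (PL.C (nat_lit 0x12ba88) (nat_lit 0x0) (nat_lit 0xa876ca276f078)
  (PL.C (nat_lit 0x12d356) (nat_lit 0x4c6ec05195317d6) (nat_lit 0x0)
  (PL.C (nat_lit 0x12e810) (nat_lit 0x0) (nat_lit 0x16827471f51fcf1)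
  (PL.C (nat_lit 0x12f2f0) (nat_lit 0x58689b1b7be88e) (nat_lit 0x0)
  (PL.C (nat_lit 0x12fe58) (nat_lit 0x57a38d3a9332c83) (nat_lit 0x0)
  (PL.C (nat_lit 0x12ffa2) (nat_lit 0x0) (nat_lit 0x2062eb65258b8bf)
  (PL.C (nat_lit 0x1351bf) (nat_lit 0x3ecedaf54764852) (nat_lit 0x0)
  (PL.C (nat_lit 0x135d38) (nat_lit 0x6be7b271003b153) (nat_lit 0x0) gp2_0_21))))))))))))))))))))

noncomputable def gp2_0_19 : PL :=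
  (PL.C (nat_lit 0x10dfe5) (nat_lit 0xe6fcc3806dedc3) (nat_lit 0x0)
  (PL.C (nat_lit 0x10e670) (nat_lit 0x3b1f59e911d4ecb) (nat_lit 0x0)
  (PL.C (nat_lit 0x10ea38) (nat_lit 0x6a08b8fed3e4b7e) (nat_lit 0x0)
  (PL.C (nat_lit 0x10ef66) (nat_lit 0x68e3df7d154a8c6) (nat_lit 0x0)
  (PL.C (nat_lit 0x110652) (nat_lit 0x0) (nat_lit 0x166d031da6146271)
  (PL.C (nat_lit 0x110a88) (nat_lit 0xf86ced5b51081) (nat_lit 0x0)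
  (PL.C (nat_lit 0x111188) (nat_lit 0x102f79f9f3c3267) (nat_lit 0x0)
  (PL.C (nat_lit 0x1144f0) (nat_lit 0xe10ad2f4bdf3c2) (nat_lit 0x0)
  (PL.C (nat_lit 0x1148c4) (nat_lit 0x41f5c257eb21f5c) (nat_lit 0x0)
  (PL.C (nat_lit 0x114ca2) (nat_lit 0x0) (nat_lit 0xad1da330c943f0)
  (PL.C (nat_lit 0x116232) (nat_lit 0x18e3232a2543eb77) (nat_lit 0x0)
  (PL.C (nat_lit 0x116dae) (nat_lit 0x412237c65909ae4) (nat_lit 0x0)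
  (PL.C (nat_lit 0x1180bc) (nat_lit 0x0) (nat_lit 0x8305f119ccfcd1)
  (PL.C (nat_lit 0x119cb8) (nat_lit 0x0) (nat_lit 0x27871596f6cf37c)
  (PL.C (nat_lit 0x119dea) (nat_lit 0x4a7aead0ccec083) (nat_lit 0x0)
  (PL.C (nat_lit 0x11a7ec) (nat_lit 0x0) (nat_lit 0x97fc361f561dbe8)
  (PL.C (nat_lit 0x11c388) (nat_lit 0x0) (nat_lit 0x27871596f6cf37c)
  (PL.C (nat_lit 0x11cb14) (nat_lit 0x0) (nat_lit 0x113bc8425245fd50)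
  (PL.C (nat_lit 0x11db88) (nat_lit 0x0) (nat_lit 0xbe30e053d35de69)
  (PL.C (nat_lit 0x11e478) (nat_lit 0x18910a998fb0e2c) (nat_lit 0x0) gp2_0_20))))))))))))))))))))

noncomputable def gp2_0_18 : PL :=
  (PL.C (nat_lit 0xf74fa) (nat_lit 0x0) (nat_lit 0x5f5f38338457c8)
  (PL.C (nat_lit 0xf7850) (nat_lit 0x0) (nat_lit 0x18bd9682aae1ad8)
  (PL.C (nat_lit 0xf9eac) (nat_lit 0x0) (nat_lit 0x56cf6af925f8eeb)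
  (PL.C (nat_lit 0xfc2d8) (nat_lit 0x5ace09b99f64d74) (nat_lit 0x0)
  (PL.C (nat_lit 0xfc95a) (nat_lit 0x78d488a040d4203) (nat_lit 0x0)
  (PL.C (nat_lit 0xff234) (nat_lit 0x0) (nat_lit 0x165844cae6d94966)
  (PL.C (nat_lit 0xff250) (nat_lit 0x54d0f45bf34e2) (nat_lit 0x0)
  (PL.C (nat_lit 0xff98d) (nat_lit 0x1e2238ac377b94c) (nat_lit 0x0)
  (PL.C (nat_lit 0x100210) (nat_lit 0x0) (nat_lit 0xf2512ae0dbfef9)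
  (PL.C (nat_lit 0x1009aa) (nat_lit 0x13c15477673a6424) (nat_lit 0x0)
  (PL.C (nat_lit 0x1021f0) (nat_lit 0x0) (nat_lit 0x358a5f070632406)
  (PL.C (nat_lit 0x104efb) (nat_lit 0x9e5af1751d3d3db) (nat_lit 0x0)
  (PL.C (nat_lit 0x1061b8) (nat_lit 0x0) (nat_lit 0x30b8dc8347c1b20)
  (PL.C (nat_lit 0x107ea8) (nat_lit 0x1bf39ecdf44a4) (nat_lit 0x0)
  (PL.C (nat_lit 0x109758) (nat_lit 0x159314dc5f6945f) (nat_lit 0x0)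
  (PL.C (nat_lit 0x10a578) (nat_lit 0x21f0d28e15eea1d) (nat_lit 0x0)
  (PL.C (nat_lit 0x10bbe8) (nat_lit 0x1c3cc143abec940) (nat_lit 0x0)
  (PL.C (nat_lit 0x10c304) (nat_lit 0x0) (nat_lit 0x4360df73c0a54a2)
  (PL.C (nat_lit 0x10c950) (nat_lit 0x27748c0672debc) (nat_lit 0x0)
  (PL.C (nat_lit 0x10d976) (nat_lit 0xa37c5921cd3d6ac) (nat_lit 0x0) gp2_0_19))))))))))))))))))))

noncomputable def gp2_0_17 : PL :=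
  (PL.C (nat_lit 0xe5434) (nat_lit 0x546f8b04de0c8b) (nat_lit 0x0)
  (PL.C (nat_lit 0xe5e78) (nat_lit 0x0) (nat_lit 0x30b8dc8347c1b20)
  (PL.C (nat_lit 0xe5f1a) (nat_lit 0x0) (nat_lit 0x166d031da6146271)
  (PL.C (nat_lit 0xe62a8) (nat_lit 0x0) (nat_lit 0x20c8783d624fbbd)
  (PL.C (nat_lit 0xe6c64) (nat_lit 0x0) (nat_lit 0xca6f79e68c21caa)
  (PL.C (nat_lit 0xe739c) (nat_lit 0xd2707031b0cff8f) (nat_lit 0x0)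
  (PL.C (nat_lit 0xe7bdc) (nat_lit 0x0) (nat_lit 0x8305f119ccfcd1)
  (PL.C (nat_lit 0xe8a78) (nat_lit 0x9efa15ab608c077) (nat_lit 0x0)
  (PL.C (nat_lit 0xeb212) (nat_lit 0x0) (nat_lit 0x3365fd7a29e735)
  (PL.C (nat_lit 0xebbcc) (nat_lit 0x0) (nat_lit 0x1a2ff103ae9e216)
  (PL.C (nat_lit 0xec04f) (nat_lit 0x9e5af1751d3d3db) (nat_lit 0x0)
  (PL.C (nat_lit 0xec7b1) (nat_lit 0x16101d0758f7eef) (nat_lit 0x0)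
  (PL.C (nat_lit 0xed021) (nat_lit 0x105b77ba696be64) (nat_lit 0x0)
  (PL.C (nat_lit 0xedf12) (nat_lit 0x0) (nat_lit 0x2bc66f022463ec8e)
  (PL.C (nat_lit 0xefb7a) (nat_lit 0x68e3df7d154a8c6) (nat_lit 0x0)
  (PL.C (nat_lit 0xf0bdc) (nat_lit 0x7c46fc4139db57e) (nat_lit 0x0)
  (PL.C (nat_lit 0xf1185) (nat_lit 0x0) (nat_lit 0x39b8099df294fce)
  (PL.C (nat_lit 0xf3b38) (nat_lit 0x54d31288480b15) (nat_lit 0x0)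
  (PL.C (nat_lit 0xf4548) (nat_lit 0xa57fb64b77d357) (nat_lit 0x0)
  (PL.C (nat_lit 0xf45d0) (nat_lit 0x0) (nat_lit 0x12fe8432f620536) gp2_0_18))))))))))))))))))))

noncomputable def gp2_0_16 : PL :=
  (PL.C (nat_lit 0xd1a50) (nat_lit 0x590ac474d762ba) (nat_lit 0x0)
  (PL.C (nat_lit 0xd2970) (nat_lit 0x2d639cceac3ab96) (nat_lit 0x0)
  (PL.C (nat_lit 0xd33ec) (nat_lit 0x0) (nat_lit 0xc8edb381c89c4d8)
  (PL.C (nat_lit 0xd3730) (nat_lit 0x1d6c528bdecc1f2) (nat_lit 0x0)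
  (PL.C (nat_lit 0xd3b3c) (nat_lit 0x14c385d7f47e7b8) (nat_lit 0x0)
  (PL.C (nat_lit 0xd668c) (nat_lit 0x0) (nat_lit 0x5223d9dcc3a9c6)
  (PL.C (nat_lit 0xd7604) (nat_lit 0x0) (nat_lit 0xca6f79e68c21caa)
  (PL.C (nat_lit 0xd7b2c) (nat_lit 0x0) (nat_lit 0x11e37b8d182dd12)
  (PL.C (nat_lit 0xd80bd) (nat_lit 0x368a8c9ab9c848d) (nat_lit 0x0)
  (PL.C (nat_lit 0xd8414) (nat_lit 0x0) (nat_lit 0x5223d9dcc3a9c6)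
  (PL.C (nat_lit 0xd89d2) (nat_lit 0x0) (nat_lit 0x2062eb65258b8bf)
  (PL.C (nat_lit 0xd8ee8) (nat_lit 0x5309e58131fd2f) (nat_lit 0x0)
  (PL.C (nat_lit 0xd9bf3) (nat_lit 0x0) (nat_lit 0x97d6c2af1cc3b0e)
  (PL.C (nat_lit 0xda97c) (nat_lit 0x0) (nat_lit 0x6a53045f337d39c)
  (PL.C (nat_lit 0xdadab) (nat_lit 0x0) (nat_lit 0x5be0fa75cc17089)
  (PL.C (nat_lit 0xdf8f9) (nat_lit 0x0) (nat_lit 0x2b7126eb8d0d080)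
  (PL.C (nat_lit 0xe02b0) (nat_lit 0x27748c0672debc) (nat_lit 0x0)
  (PL.C (nat_lit 0xe0d58) (nat_lit 0x19e1adedf51f2e14) (nat_lit 0x0)
  (PL.C (nat_lit 0xe230e) (nat_lit 0x0) (nat_lit 0x1b77308b8fdf014)
  (PL.C (nat_lit 0xe4430) (nat_lit 0x3b1f59e911d4ecb) (nat_lit 0x0) gp2_0_17))))))))))))))))))))

noncomputable def gp2_0_15 : PL :=
  (PL.C (nat_lit 0xc2cf4) (nat_lit 0x0) (nat_lit 0x165844cae6d94966)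
  (PL.C (nat_lit 0xc330c) (nat_lit 0x2d8cfaa704d945a) (nat_lit 0x0)
  (PL.C (nat_lit 0xc3910) (nat_lit 0x0) (nat_lit 0xf2512ae0dbfef9)
  (PL.C (nat_lit 0xc3e1c) (nat_lit 0x0) (nat_lit 0x7351e546d426f4)
  (PL.C (nat_lit 0xc4362) (nat_lit 0x0) (nat_lit 0x5f5f38338457c8)
  (PL.C (nat_lit 0xc4658) (nat_lit 0x0) (nat_lit 0x420f55189c20b6e)
  (PL.C (nat_lit 0xc6b50) (nat_lit 0x0) (nat_lit 0x146c63cb75523ff)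
  (PL.C (nat_lit 0xc6ffc) (nat_lit 0x0) (nat_lit 0x39dbb84607d60a3f)
  (PL.C (nat_lit 0xc73cb) (nat_lit 0x3ecedaf54764852) (nat_lit 0x0)
  (PL.C (nat_lit 0xc7a88) (nat_lit 0x16b5d3ab29d076c) (nat_lit 0x0)
  (PL.C (nat_lit 0xc7c05) (nat_lit 0x12f5eecb1451390) (nat_lit 0x0)
  (PL.C (nat_lit 0xca990) (nat_lit 0x0) (nat_lit 0x16827471f51fcf1)
  (PL.C (nat_lit 0xcaa6c) (nat_lit 0x0) (nat_lit 0x2bbb54660cef056)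
  (PL.C (nat_lit 0xcb859) (nat_lit 0x136fb4ec2d250d82) (nat_lit 0x0)
  (PL.C (nat_lit 0xce12a) (nat_lit 0x68ce25eabb458bf) (nat_lit 0x0)
  (PL.C (nat_lit 0xce8d0) (nat_lit 0x0) (nat_lit 0x358a5f070632406)
  (PL.C (nat_lit 0xcf33c) (nat_lit 0x213cda0aef8e412) (nat_lit 0x0)
  (PL.C (nat_lit 0xcf41d) (nat_lit 0xab42385259b7bbc) (nat_lit 0x0)
  (PL.C (nat_lit 0xcf670) (nat_lit 0x0) (nat_lit 0x9b32ac000810d8)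
  (PL.C (nat_lit 0xd07b8) (nat_lit 0xaf4619aacb2c35a) (nat_lit 0x0) gp2_0_16))))))))))))))))))))

noncomputable def gp2_0_14 : PL :=
  (PL.C (nat_lit 0xb30e0) (nat_lit 0x3894c7240e0621) (nat_lit 0x0)
  (PL.C (nat_lit 0xb3ba4) (nat_lit 0x35cc5987b60f846f) (nat_lit 0x0)
  (PL.C (nat_lit 0xb3fee) (nat_lit 0x273493987e4c312) (nat_lit 0x0)
  (PL.C (nat_lit 0xb46d0) (nat_lit 0x0) (nat_lit 0x9143f24bca2dda0)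
  (PL.C (nat_lit 0xb4a44) (nat_lit 0x3f9ee29e40fffc1) (nat_lit 0x0)
  (PL.C (nat_lit 0xb598c) (nat_lit 0x0) (nat_lit 0x29d46e66e732419d)
  (PL.C (nat_lit 0xb7cff) (nat_lit 0x0) (nat_lit 0x97d6c2af1cc3b0e)
  (PL.C (nat_lit 0xb85d8) (nat_lit 0xa011fb6a743ac0) (nat_lit 0x0)
  (PL.C (nat_lit 0xb886c) (nat_lit 0x0) (nat_lit 0x6a53045f337d39c)
  (PL.C (nat_lit 0xb9b95) (nat_lit 0x19c94f8ddc320ef2) (nat_lit 0x0)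
  (PL.C (nat_lit 0xb9e74) (nat_lit 0x4321dfa415adc39) (nat_lit 0x0)
  (PL.C (nat_lit 0xbab28) (nat_lit 0x0) (nat_lit 0x11ca4c200b6c312)
  (PL.C (nat_lit 0xbbdd0) (nat_lit 0x1c1d9e5120484d) (nat_lit 0x0)
  (PL.C (nat_lit 0xbbe9c) (nat_lit 0x0) (nat_lit 0x229cd5839e5b8537)
  (PL.C (nat_lit 0xbc548) (nat_lit 0x5ace09b99f64d74) (nat_lit 0x0)
  (PL.C (nat_lit 0xbd7b0) (nat_lit 0x1c1d9e5120484d) (nat_lit 0x0)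
  (PL.C (nat_lit 0xbdcb8) (nat_lit 0x21f0d28e15eea1d) (nat_lit 0x0)
  (PL.C (nat_lit 0xbe7b0) (nat_lit 0x2d639cceac3ab96) (nat_lit 0x0)
  (PL.C (nat_lit 0xc02f1) (nat_lit 0x1984fb32aff28b6b) (nat_lit 0x0)
  (PL.C (nat_lit 0xc271e) (nat_lit 0x0) (nat_lit 0xf00326677957d7) gp2_0_15))))))))))))))))))))

noncomputable def gp2_0_13 : PL :=
  (PL.C (nat_lit 0x9da76) (nat_lit 0x412237c65909ae4) (nat_lit 0x0)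
  (PL.C (nat_lit 0x9e016) (nat_lit 0x0) (nat_lit 0x1b77308b8fdf014)
  (PL.C (nat_lit 0x9ea0c) (nat_lit 0x0) (nat_lit 0xce59ccdc2bcad3)
  (PL.C (nat_lit 0x9fcfc) (nat_lit 0x3f9ee29e40fffc1) (nat_lit 0x0)
  (PL.C (nat_lit 0xa07e8) (nat_lit 0x14d79adbefc5e20) (nat_lit 0x0)
  (PL.C (nat_lit 0xa0bae) (nat_lit 0x0) (nat_lit 0x2bc66f022463ec8e)
  (PL.C (nat_lit 0xa2e30) (nat_lit 0x0) (nat_lit 0x34d36c04af34ba)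
  (PL.C (nat_lit 0xa3719) (nat_lit 0x0) (nat_lit 0x5be0fa75cc17089)
  (PL.C (nat_lit 0xa4dfc) (nat_lit 0x0) (nat_lit 0x44245382161c286)
  (PL.C (nat_lit 0xa69c8) (nat_lit 0x0) (nat_lit 0x72d6f8737d7b2e4)
  (PL.C (nat_lit 0xa863c) (nat_lit 0x0) (nat_lit 0x111ba3bc8b2bb76f)
  (PL.C (nat_lit 0xaa178) (nat_lit 0x0) (nat_lit 0x178e406231c40c28)
  (PL.C (nat_lit 0xaa65e) (nat_lit 0x3d07c2abe49d8f5) (nat_lit 0x0)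
  (PL.C (nat_lit 0xaa71b) (nat_lit 0x0) (nat_lit 0x4f08af9c0d46f2b)
  (PL.C (nat_lit 0xab11c) (nat_lit 0x0) (nat_lit 0xedfdafa51ec5e76)
  (PL.C (nat_lit 0xadf52) (nat_lit 0x11f5206056f588e) (nat_lit 0x0)
  (PL.C (nat_lit 0xaebd0) (nat_lit 0x0) (nat_lit 0x31d84bbbc30173b)
  (PL.C (nat_lit 0xaef51) (nat_lit 0xab42385259b7bbc) (nat_lit 0x0)
  (PL.C (nat_lit 0xb0f90) (nat_lit 0x1d6c528bdecc1f2) (nat_lit 0x0)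
  (PL.C (nat_lit 0xb27f0) (nat_lit 0x590ac474d762ba) (nat_lit 0x0) gp2_0_14))))))))))))))))))))

noncomputable def gp2_0_12 : PL :=
  (PL.C (nat_lit 0x8fcc8) (nat_lit 0x3efde641fd6ad5) (nat_lit 0x0)
  (PL.C (nat_lit 0x9007e) (nat_lit 0x78d488a040d4203) (nat_lit 0x0)
  (PL.C (nat_lit 0x902b8) (nat_lit 0x0) (nat_lit 0x19880246cc6a58e)
  (PL.C (nat_lit 0x9068c) (nat_lit 0x0) (nat_lit 0x2bbb54660cef056)
  (PL.C (nat_lit 0x909f0) (nat_lit 0x417da4ee4b41d3) (nat_lit 0x0)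
  (PL.C (nat_lit 0x912a2) (nat_lit 0x0) (nat_lit 0xb8aa40c964d957b)
  (PL.C (nat_lit 0x91ba8) (nat_lit 0x79095ce80e1e140) (nat_lit 0x0)
  (PL.C (nat_lit 0x91e72) (nat_lit 0x0) (nat_lit 0x1aa5648576e7fae)
  (PL.C (nat_lit 0x950a6) (nat_lit 0x3b668daf2c8e0f28) (nat_lit 0x0)
  (PL.C (nat_lit 0x95720) (nat_lit 0x3894c7240e0621) (nat_lit 0x0)
  (PL.C (nat_lit 0x96cb4) (nat_lit 0x0) (nat_lit 0x171b9b3c074e7e4)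
  (PL.C (nat_lit 0x98d78) (nat_lit 0x5309e58131fd2f) (nat_lit 0x0)
  (PL.C (nat_lit 0x99450) (nat_lit 0x0) (nat_lit 0x31d84bbbc30173b)
  (PL.C (nat_lit 0x994bc) (nat_lit 0x0) (nat_lit 0x29d46e66e732419d)
  (PL.C (nat_lit 0x99d98) (nat_lit 0x0) (nat_lit 0x215a25da99eb434)
  (PL.C (nat_lit 0x9a268) (nat_lit 0x0) (nat_lit 0x20c8783d624fbbd)
  (PL.C (nat_lit 0x9a7e8) (nat_lit 0x0) (nat_lit 0x11ca4c200b6c312)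
  (PL.C (nat_lit 0x9cc0c) (nat_lit 0x14c385d7f47e7b8) (nat_lit 0x0)
  (PL.C (nat_lit 0x9d288) (nat_lit 0x0) (nat_lit 0x420f55189c20b6e)
  (PL.C (nat_lit 0x9d58a) (nat_lit 0x11f5206056f588e) (nat_lit 0x0) gp2_0_13))))))))))))))))))))

noncomputable def gp2_0_11 : PL :=
  (PL.C (nat_lit 0x81df8) (nat_lit 0x0) (nat_lit 0x178e406231c40c28)
  (PL.C (nat_lit 0x82208) (nat_lit 0xf86ced5b51081) (nat_lit 0x0)
  (PL.C (nat_lit 0x82968) (nat_lit 0x0) (nat_lit 0x41ed5cef9d271ea)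
  (PL.C (nat_lit 0x82cec) (nat_lit 0x0) (nat_lit 0x44245382161c286)
  (PL.C (nat_lit 0x84aa8) (nat_lit 0x9efa15ab608c077) (nat_lit 0x0)
  (PL.C (nat_lit 0x84d32) (nat_lit 0x68ce25eabb458bf) (nat_lit 0x0)
  (PL.C (nat_lit 0x851b0) (nat_lit 0x54d0f45bf34e2) (nat_lit 0x0)
  (PL.C (nat_lit 0x852ae) (nat_lit 0x443acae79f93355) (nat_lit 0x0)
  (PL.C (nat_lit 0x85c7d) (nat_lit 0x12f5eecb1451390) (nat_lit 0x0)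
  (PL.C (nat_lit 0x87ae6) (nat_lit 0x4a7aead0ccec083) (nat_lit 0x0)
  (PL.C (nat_lit 0x88641) (nat_lit 0x0) (nat_lit 0x4f08af9c0d46f2b)
  (PL.C (nat_lit 0x8961c) (nat_lit 0x1bcb91eed4280846) (nat_lit 0x0)
  (PL.C (nat_lit 0x8a228) (nat_lit 0xa57fb64b77d357) (nat_lit 0x0)
  (PL.C (nat_lit 0x8a2be) (nat_lit 0x152481d81841e8ca) (nat_lit 0x0)
  (PL.C (nat_lit 0x8afd0) (nat_lit 0x463dd9766aabd27) (nat_lit 0x0)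
  (PL.C (nat_lit 0x8c811) (nat_lit 0x43f957bfca6c5fd) (nat_lit 0x0)
  (PL.C (nat_lit 0x8cd48) (nat_lit 0xaf4619aacb2c35a) (nat_lit 0x0)
  (PL.C (nat_lit 0x8d228) (nat_lit 0x2fa5cc45a81957) (nat_lit 0x0)
  (PL.C (nat_lit 0x8ef08) (nat_lit 0x0) (nat_lit 0x19880246cc6a58e)
  (PL.C (nat_lit 0x8f958) (nat_lit 0x0) (nat_lit 0x215a25da99eb434) gp2_0_12))))))))))))))))))))

noncomputable def gp2_0_10 : PL :=
  (PL.C (nat_lit 0x742e3) (nat_lit 0x0) (nat_lit 0x61832860e2c59b)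
  (PL.C (nat_lit 0x747e0) (nat_lit 0x96a8086f09621a) (nat_lit 0x0)
  (PL.C (nat_lit 0x74a36) (nat_lit 0x152481d81841e8ca) (nat_lit 0x0)
  (PL.C (nat_lit 0x753f9) (nat_lit 0x0) (nat_lit 0x7b834eabced76d2)
  (PL.C (nat_lit 0x77d18) (nat_lit 0x0) (nat_lit 0xb3db3982d537be)
  (PL.C (nat_lit 0x77ff4) (nat_lit 0x52f555ddcfa9584) (nat_lit 0x0)
  (PL.C (nat_lit 0x786d8) (nat_lit 0x2f28dc793613306) (nat_lit 0x0)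
  (PL.C (nat_lit 0x79108) (nat_lit 0x0) (nat_lit 0x1bd2bc102866d12)
  (PL.C (nat_lit 0x7a8aa) (nat_lit 0x0) (nat_lit 0xb8aa40c964d957b)
  (PL.C (nat_lit 0x7ae90) (nat_lit 0x2d4a89474ac2e09) (nat_lit 0x0)
  (PL.C (nat_lit 0x7b048) (nat_lit 0x79095ce80e1e140) (nat_lit 0x0)
  (PL.C (nat_lit 0x7bd0e) (nat_lit 0xfaf598a58c82ec4) (nat_lit 0x0)
  (PL.C (nat_lit 0x7c0d1) (nat_lit 0x0) (nat_lit 0x4ebb397041e4a6)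
  (PL.C (nat_lit 0x7c770) (nat_lit 0x0) (nat_lit 0x30d12c30835ece)
  (PL.C (nat_lit 0x7d1e7) (nat_lit 0x0) (nat_lit 0x4ebb397041e4a6)
  (PL.C (nat_lit 0x7d3e0) (nat_lit 0x214194a44c94) (nat_lit 0x0)
  (PL.C (nat_lit 0x7d468) (nat_lit 0x0) (nat_lit 0x2403310fa10319)
  (PL.C (nat_lit 0x7e520) (nat_lit 0x214194a44c94) (nat_lit 0x0)
  (PL.C (nat_lit 0x801f6) (nat_lit 0x0) (nat_lit 0x16e9259039fd942)
  (PL.C (nat_lit 0x81a14) (nat_lit 0x8576fe4b801ddad) (nat_lit 0x0) gp2_0_11))))))))))))))))))))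

noncomputable def gp2_0_9 : PL :=
  (PL.C (nat_lit 0x66ff0) (nat_lit 0x0) (nat_lit 0x30d12c30835ece)
  (PL.C (nat_lit 0x68808) (nat_lit 0x2fa5cc45a81957) (nat_lit 0x0)
  (PL.C (nat_lit 0x68e5c) (nat_lit 0x0) (nat_lit 0xfea84420242acd0)
  (PL.C (nat_lit 0x691a4) (nat_lit 0x4321dfa415adc39) (nat_lit 0x0)
  (PL.C (nat_lit 0x69564) (nat_lit 0x0) (nat_lit 0x171b9b3c074e7e4)
  (PL.C (nat_lit 0x69c08) (nat_lit 0x0) (nat_lit 0x15bddb7e17510c91)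
  (PL.C (nat_lit 0x6a8a8) (nat_lit 0x2f28dc793613306) (nat_lit 0x0)
  (PL.C (nat_lit 0x6aff0) (nat_lit 0x0) (nat_lit 0x226fb7e5741968d)
  (PL.C (nat_lit 0x6b274) (nat_lit 0x0) (nat_lit 0xce59ccdc2bcad3)
  (PL.C (nat_lit 0x6b481) (nat_lit 0x43f957bfca6c5fd) (nat_lit 0x0)
  (PL.C (nat_lit 0x6b8ef) (nat_lit 0x0) (nat_lit 0x371085a13bb109e)
  (PL.C (nat_lit 0x6cf66) (nat_lit 0x0) (nat_lit 0x1aa5648576e7fae)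
  (PL.C (nat_lit 0x6d96b) (nat_lit 0x1984fb32aff28b6b) (nat_lit 0x0)
  (PL.C (nat_lit 0x6dea8) (nat_lit 0x0) (nat_lit 0x728139e89e37f8)
  (PL.C (nat_lit 0x6f130) (nat_lit 0x0) (nat_lit 0x146c63cb75523ff)
  (PL.C (nat_lit 0x70428) (nat_lit 0x0) (nat_lit 0xd30f9f195301b9c)
  (PL.C (nat_lit 0x71650) (nat_lit 0x0) (nat_lit 0x9e4c44e69694250)
  (PL.C (nat_lit 0x71994) (nat_lit 0x7c46fc4139db57e) (nat_lit 0x0)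
  (PL.C (nat_lit 0x71a12) (nat_lit 0x6b487ac28fc70d5) (nat_lit 0x0)
  (PL.C (nat_lit 0x73f8c) (nat_lit 0x0) (nat_lit 0xfea84420242acd0) gp2_0_10))))))))))))))))))))

noncomputable def gp2_0_8 : PL :=
  (PL.C (nat_lit 0x5bc71) (nat_lit 0x0) (nat_lit 0xa36c61cf8ed4832)
  (PL.C (nat_lit 0x5c170) (nat_lit 0x0) (nat_lit 0x34d36c04af34ba)
  (PL.C (nat_lit 0x5dab6) (nat_lit 0x293220453c217fd) (nat_lit 0x0)
  (PL.C (nat_lit 0x5de30) (nat_lit 0x463dd9766aabd27) (nat_lit 0x0)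
  (PL.C (nat_lit 0x5e170) (nat_lit 0x0) (nat_lit 0x19aecb2d41cbb43)
  (PL.C (nat_lit 0x5f4b0) (nat_lit 0x4110033ebf9223) (nat_lit 0x0)
  (PL.C (nat_lit 0x5fb90) (nat_lit 0x16fbb4bd0f8d635) (nat_lit 0x0)
  (PL.C (nat_lit 0x60054) (nat_lit 0x0) (nat_lit 0x111ba3bc8b2bb76f)
  (PL.C (nat_lit 0x601d0) (nat_lit 0x4110033ebf9223) (nat_lit 0x0)
  (PL.C (nat_lit 0x606a0) (nat_lit 0x31c05a31af9967) (nat_lit 0x0)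
  (PL.C (nat_lit 0x60c6c) (nat_lit 0x2a6b45e81737212) (nat_lit 0x0)
  (PL.C (nat_lit 0x61270) (nat_lit 0x1e42571eef694ca) (nat_lit 0x0)
  (PL.C (nat_lit 0x6144c) (nat_lit 0x96d921f2440a39a) (nat_lit 0x0)
  (PL.C (nat_lit 0x62f9d) (nat_lit 0x533e403eb9cf07eb) (nat_lit 0x0)
  (PL.C (nat_lit 0x635c4) (nat_lit 0xa226477085d1170) (nat_lit 0x0)
  (PL.C (nat_lit 0x64878) (nat_lit 0x533ecf9674feed) (nat_lit 0x0)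
  (PL.C (nat_lit 0x65e50) (nat_lit 0x417da4ee4b41d3) (nat_lit 0x0)
  (PL.C (nat_lit 0x662e0) (nat_lit 0x96a8086f09621a) (nat_lit 0x0)
  (PL.C (nat_lit 0x66328) (nat_lit 0x0) (nat_lit 0x1bd2bc102866d12)
  (PL.C (nat_lit 0x66910) (nat_lit 0x16fbb4bd0f8d635) (nat_lit 0x0) gp2_0_9))))))))))))))))))))

noncomputable def gp2_0_7 : PL :=
  (PL.C (nat_lit 0x4fff8) (nat_lit 0x503e1ecb3673690) (nat_lit 0x0)
  (PL.C (nat_lit 0x50490) (nat_lit 0x0) (nat_lit 0x211916f0891f675)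
  (PL.C (nat_lit 0x51b1c) (nat_lit 0x2a6b45e81737212) (nat_lit 0x0)
  (PL.C (nat_lit 0x52030) (nat_lit 0x1e42571eef694ca) (nat_lit 0x0)
  (PL.C (nat_lit 0x528b4) (nat_lit 0x9b96ffd95d14b08) (nat_lit 0x0)
  (PL.C (nat_lit 0x52b36) (nat_lit 0x0) (nat_lit 0x2f6157cfa0d36df)
  (PL.C (nat_lit 0x52fa0) (nat_lit 0x5eeb796d721b89) (nat_lit 0x0)
  (PL.C (nat_lit 0x5369a) (nat_lit 0x0) (nat_lit 0x2f6157cfa0d36df)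
  (PL.C (nat_lit 0x538d1) (nat_lit 0x0) (nat_lit 0x7b834eabced76d2)
  (PL.C (nat_lit 0x556a4) (nat_lit 0x47129027bcc8e01b) (nat_lit 0x0)
  (PL.C (nat_lit 0x566b8) (nat_lit 0x47e59373b9919b4) (nat_lit 0x0)
  (PL.C (nat_lit 0x56950) (nat_lit 0x0) (nat_lit 0x9e4c44e69694250)
  (PL.C (nat_lit 0x570f0) (nat_lit 0x25535d48166bc0) (nat_lit 0x0)
  (PL.C (nat_lit 0x57348) (nat_lit 0x0) (nat_lit 0x728139e89e37f8)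
  (PL.C (nat_lit 0x588cc) (nat_lit 0x1bcb91eed4280846) (nat_lit 0x0)
  (PL.C (nat_lit 0x58c74) (nat_lit 0x762de0b72ac5b18) (nat_lit 0x0)
  (PL.C (nat_lit 0x592fe) (nat_lit 0x443acae79f93355) (nat_lit 0x0)
  (PL.C (nat_lit 0x5a744) (nat_lit 0x0) (nat_lit 0x229cd5839e5b8537)
  (PL.C (nat_lit 0x5aed6) (nat_lit 0x6b487ac28fc70d5) (nat_lit 0x0)
  (PL.C (nat_lit 0x5b968) (nat_lit 0x1513b25dfe77003b) (nat_lit 0x0) gp2_0_8))))))))))))))))))))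

noncomputable def gp2_0_6 : PL :=
  (PL.C (nat_lit 0x43050) (nat_lit 0x2288e5f4130065b) (nat_lit 0x0)
  (PL.C (nat_lit 0x43ee0) (nat_lit 0x31c05a31af9967) (nat_lit 0x0)
  (PL.C (nat_lit 0x44aa0) (nat_lit 0x5eeb796d721b89) (nat_lit 0x0)
  (PL.C (nat_lit 0x45ab0) (nat_lit 0x0) (nat_lit 0x19aecb2d41cbb43)
  (PL.C (nat_lit 0x45ee8) (nat_lit 0x0) (nat_lit 0x14a9227b8cd81bbb)
  (PL.C (nat_lit 0x46398) (nat_lit 0x533ecf9674feed) (nat_lit 0x0)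
  (PL.C (nat_lit 0x47070) (nat_lit 0x0) (nat_lit 0x211916f0891f675)
  (PL.C (nat_lit 0x476f8) (nat_lit 0x0) (nat_lit 0x15bddb7e17510c91)
  (PL.C (nat_lit 0x47856) (nat_lit 0x293220453c217fd) (nat_lit 0x0)
  (PL.C (nat_lit 0x47b4a) (nat_lit 0x0) (nat_lit 0x4c4c35349177c7b)
  (PL.C (nat_lit 0x48a44) (nat_lit 0x96d921f2440a39a) (nat_lit 0x0)
  (PL.C (nat_lit 0x490f2) (nat_lit 0x0) (nat_lit 0x16e9259039fd942)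
  (PL.C (nat_lit 0x49470) (nat_lit 0x0) (nat_lit 0x29c28bf3670a89c)
  (PL.C (nat_lit 0x4ad70) (nat_lit 0x0) (nat_lit 0x390e75560a4244)
  (PL.C (nat_lit 0x4bbb8) (nat_lit 0x14d79adbefc5e20) (nat_lit 0x0)
  (PL.C (nat_lit 0x4bc0c) (nat_lit 0x0) (nat_lit 0x106e0f6c651ea00)
  (PL.C (nat_lit 0x4d508) (nat_lit 0x0) (nat_lit 0x14a9227b8cd81bbb)
  (PL.C (nat_lit 0x4d742) (nat_lit 0x0) (nat_lit 0xf00326677957d7)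
  (PL.C (nat_lit 0x4e2a6) (nat_lit 0x0) (nat_lit 0x262dbf92472ae280)
  (PL.C (nat_lit 0x4fe10) (nat_lit 0x1281fc8798619a80) (nat_lit 0x0) gp2_0_7))))))))))))))))))))

noncomputable def gp2_0_5 : PL :=
  (PL.C (nat_lit 0x379bc) (nat_lit 0x0) (nat_lit 0x4a7140dcd4e54e6)
  (PL.C (nat_lit 0x37b36) (nat_lit 0x0) (nat_lit 0x262dbf92472ae280)
  (PL.C (nat_lit 0x397cb) (nat_lit 0x9f3c3de8c2b0071) (nat_lit 0x0)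
  (PL.C (nat_lit 0x3a0a0) (nat_lit 0x5f97bcf239fb84) (nat_lit 0x0)
  (PL.C (nat_lit 0x3a230) (nat_lit 0x0) (nat_lit 0x29c28bf3670a89c)
  (PL.C (nat_lit 0x3b088) (nat_lit 0x1513b25dfe77003b) (nat_lit 0x0)
  (PL.C (nat_lit 0x3b2f8) (nat_lit 0x965ae9a5be97086) (nat_lit 0x0)
  (PL.C (nat_lit 0x3b754) (nat_lit 0x762de0b72ac5b18) (nat_lit 0x0)
  (PL.C (nat_lit 0x3c4d8) (nat_lit 0x0) (nat_lit 0x2403310fa10319)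
  (PL.C (nat_lit 0x3c9e4) (nat_lit 0x0) (nat_lit 0x106e0f6c651ea00)
  (PL.C (nat_lit 0x3ccf3) (nat_lit 0x0) (nat_lit 0x371085a13bb109e)
  (PL.C (nat_lit 0x3d2f6) (nat_lit 0x0) (nat_lit 0x18bc1fe7acf219d9)
  (PL.C (nat_lit 0x3dfef) (nat_lit 0x0) (nat_lit 0xa36c61cf8ed4832)
  (PL.C (nat_lit 0x3e724) (nat_lit 0x1527c0833801739b) (nat_lit 0x0)
  (PL.C (nat_lit 0x3eba0) (nat_lit 0x4517401cbf3e4c) (nat_lit 0x0)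
  (PL.C (nat_lit 0x40038) (nat_lit 0x0) (nat_lit 0xd30f9f195301b9c)
  (PL.C (nat_lit 0x40848) (nat_lit 0x2fc5f98f8bb73e8) (nat_lit 0x0)
  (PL.C (nat_lit 0x40d88) (nat_lit 0x7de7079de1b8d5a) (nat_lit 0x0)
  (PL.C (nat_lit 0x41fbe) (nat_lit 0x2916792946133ed8) (nat_lit 0x0)
  (PL.C (nat_lit 0x423d8) (nat_lit 0x0) (nat_lit 0x118008e6bab9bb22) gp2_0_6))))))))))))))))))))

noncomputable def gp2_0_4 : PL :=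
  (PL.C (nat_lit 0x2e720) (nat_lit 0x4517401cbf3e4c) (nat_lit 0x0)
  (PL.C (nat_lit 0x2e9f0) (nat_lit 0x0) (nat_lit 0x5ec9d7b2cc9675c)
  (PL.C (nat_lit 0x2ed10) (nat_lit 0x2288e5f4130065b) (nat_lit 0x0)
  (PL.C (nat_lit 0x2f5a0) (nat_lit 0x7ffa49a37642f1) (nat_lit 0x0)
  (PL.C (nat_lit 0x2fae4) (nat_lit 0x1527c0833801739b) (nat_lit 0x0)
  (PL.C (nat_lit 0x2fcdc) (nat_lit 0x0) (nat_lit 0xbaba80cc322f72)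
  (PL.C (nat_lit 0x306d8) (nat_lit 0x7de7079de1b8d5a) (nat_lit 0x0)
  (PL.C (nat_lit 0x30b4c) (nat_lit 0x47129027bcc8e01b) (nat_lit 0x0)
  (PL.C (nat_lit 0x30da0) (nat_lit 0x0) (nat_lit 0x13bc0b2c6066213)
  (PL.C (nat_lit 0x316b3) (nat_lit 0x43cc73bfbe67f40) (nat_lit 0x0)
  (PL.C (nat_lit 0x327d0) (nat_lit 0x0) (nat_lit 0x226fb7e5741968d)
  (PL.C (nat_lit 0x32808) (nat_lit 0x350cbe9dbcffdc3) (nat_lit 0x0)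
  (PL.C (nat_lit 0x338b0) (nat_lit 0x0) (nat_lit 0x5ec9d7b2cc9675c)
  (PL.C (nat_lit 0x33a2c) (nat_lit 0x8576fe4b801ddad) (nat_lit 0x0)
  (PL.C (nat_lit 0x341c4) (nat_lit 0x0) (nat_lit 0x2b74062a179e5b58)
  (PL.C (nat_lit 0x354b7) (nat_lit 0x0) (nat_lit 0xdb2212e1516c98f)
  (PL.C (nat_lit 0x35550) (nat_lit 0x30856b1e67c5129) (nat_lit 0x0)
  (PL.C (nat_lit 0x35860) (nat_lit 0x7ffa49a37642f1) (nat_lit 0x0)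
  (PL.C (nat_lit 0x36768) (nat_lit 0x2fc5f98f8bb73e8) (nat_lit 0x0)
  (PL.C (nat_lit 0x37224) (nat_lit 0x0) (nat_lit 0x4a7140dcd4e54e6) gp2_0_5))))))))))))))))))))

noncomputable def gp2_0_3 : PL :=
  (PL.C (nat_lit 0x244f0) (nat_lit 0x0) (nat_lit 0x30ca03bbc38d9ae)
  (PL.C (nat_lit 0x24c18) (nat_lit 0x0) (nat_lit 0x50014faba21478f)
  (PL.C (nat_lit 0x25128) (nat_lit 0x0) (nat_lit 0x50014faba21478f)
  (PL.C (nat_lit 0x25224) (nat_lit 0x0) (nat_lit 0x2b74062a179e5b58)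
  (PL.C (nat_lit 0x26532) (nat_lit 0x1ea4abb36a811c) (nat_lit 0x0)
  (PL.C (nat_lit 0x26c20) (nat_lit 0x0) (nat_lit 0x13bc0b2c6066213)
  (PL.C (nat_lit 0x27750) (nat_lit 0x2e2235f75d577d5) (nat_lit 0x0)
  (PL.C (nat_lit 0x27a38) (nat_lit 0x965ae9a5be97086) (nat_lit 0x0)
  (PL.C (nat_lit 0x28698) (nat_lit 0x350cbe9dbcffdc3) (nat_lit 0x0)
  (PL.C (nat_lit 0x288a2) (nat_lit 0x0) (nat_lit 0x4c4c35349177c7b)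
  (PL.C (nat_lit 0x28ca4) (nat_lit 0x0) (nat_lit 0x163f11a46ea0f1e6)
  (PL.C (nat_lit 0x2954a) (nat_lit 0x0) (nat_lit 0x18bc1fe7acf219d9)
  (PL.C (nat_lit 0x29a18) (nat_lit 0xf1e770875aa9ca7) (nat_lit 0x0)
  (PL.C (nat_lit 0x2aad0) (nat_lit 0x0) (nat_lit 0x390e75560a4244)
  (PL.C (nat_lit 0x2b030) (nat_lit 0x0) (nat_lit 0x30ca03bbc38d9ae)
  (PL.C (nat_lit 0x2b3b0) (nat_lit 0x0) (nat_lit 0x30b511816ab86ea)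
  (PL.C (nat_lit 0x2bfd4) (nat_lit 0xa29b6475a3d6b48d) (nat_lit 0x0)
  (PL.C (nat_lit 0x2c290) (nat_lit 0x1acc75437d4400a) (nat_lit 0x0)
  (PL.C (nat_lit 0x2cae0) (nat_lit 0x6c3445445b87bc) (nat_lit 0x0)
  (PL.C (nat_lit 0x2cfd3) (nat_lit 0x0) (nat_lit 0xdb2212e1516c98f) gp2_0_4))))))))))))))))))))

noncomputable def gp2_0_2 : PL :=
  (PL.C (nat_lit 0x1a4e0) (nat_lit 0x0) (nat_lit 0x12a4bd6536d8838)
  (PL.C (nat_lit 0x1a6d0) (nat_lit 0x2e2235f75d577d5) (nat_lit 0x0)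
  (PL.C (nat_lit 0x1af10) (nat_lit 0x0) (nat_lit 0x1281fc18bc74b3a)
  (PL.C (nat_lit 0x1b06c) (nat_lit 0x0) (nat_lit 0xbaba80cc322f72)
  (PL.C (nat_lit 0x1b318) (nat_lit 0x4a4c6a2206e331c) (nat_lit 0x0)
  (PL.C (nat_lit 0x1b8dc) (nat_lit 0x0) (nat_lit 0x163f11a46ea0f1e6)
  (PL.C (nat_lit 0x1c2e1) (nat_lit 0x43cc73bfbe67f40) (nat_lit 0x0)
  (PL.C (nat_lit 0x1cd20) (nat_lit 0x1d0b12f2876461) (nat_lit 0x0)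
  (PL.C (nat_lit 0x1d538) (nat_lit 0x4666e428c24ecdb4) (nat_lit 0x0)
  (PL.C (nat_lit 0x1dfe2) (nat_lit 0x0) (nat_lit 0x5877d1aa0a51a7fc)
  (PL.C (nat_lit 0x1f360) (nat_lit 0x6c3445445b87bc) (nat_lit 0x0)
  (PL.C (nat_lit 0x1fc98) (nat_lit 0xf1e770875aa9ca7) (nat_lit 0x0)
  (PL.C (nat_lit 0x1fde8) (nat_lit 0x0) (nat_lit 0x39c2e85e591da07)
  (PL.C (nat_lit 0x20490) (nat_lit 0x0) (nat_lit 0x30b511816ab86ea)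
  (PL.C (nat_lit 0x20f22) (nat_lit 0x20308bf75c5b47c0) (nat_lit 0x0)
  (PL.C (nat_lit 0x21ab0) (nat_lit 0x0) (nat_lit 0x1281fc18bc74b3a)
  (PL.C (nat_lit 0x226c8) (nat_lit 0x47e59373b9919b4) (nat_lit 0x0)
  (PL.C (nat_lit 0x22bd8) (nat_lit 0x0) (nat_lit 0x32fd7ab33a1100b)
  (PL.C (nat_lit 0x2387a) (nat_lit 0x0) (nat_lit 0x5877d1aa0a51a7fc)
  (PL.C (nat_lit 0x238e0) (nat_lit 0x0) (nat_lit 0xd27cdbdd7272a2) gp2_0_3))))))))))))))))))))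

noncomputable def gp2_0_1 : PL :=
  (PL.C (nat_lit 0x11088) (nat_lit 0x0) (nat_lit 0xbba3cb2bdbf913e)
  (PL.C (nat_lit 0x119e0) (nat_lit 0x0) (nat_lit 0x12a4bd6536d8838)
  (PL.C (nat_lit 0x11f60) (nat_lit 0x0) (nat_lit 0x25fa29c9db2d0ed)
  (PL.C (nat_lit 0x12048) (nat_lit 0x0) (nat_lit 0x39c2e85e591da07)
  (PL.C (nat_lit 0x12210) (nat_lit 0x45a18f9fa36537b) (nat_lit 0x0)
  (PL.C (nat_lit 0x125e8) (nat_lit 0x4a4c6a2206e331c) (nat_lit 0x0)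
  (PL.C (nat_lit 0x12c96) (nat_lit 0x20308bf75c5b47c0) (nat_lit 0x0)
  (PL.C (nat_lit 0x138d0) (nat_lit 0x199d09c627d591ab) (nat_lit 0x0)
  (PL.C (nat_lit 0x13fec) (nat_lit 0x0) (nat_lit 0x695494030574ccb8)
  (PL.C (nat_lit 0x153f0) (nat_lit 0x38675596182074f) (nat_lit 0x0)
  (PL.C (nat_lit 0x15860) (nat_lit 0x1d0b12f2876461) (nat_lit 0x0)
  (PL.C (nat_lit 0x15f6c) (nat_lit 0x105249b58a23b4e8) (nat_lit 0x0)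
  (PL.C (nat_lit 0x16720) (nat_lit 0x0) (nat_lit 0x25fa29c9db2d0ed)
  (PL.C (nat_lit 0x17afc) (nat_lit 0x0) (nat_lit 0x695494030574ccb8)
  (PL.C (nat_lit 0x17b40) (nat_lit 0x405b6360d7283c) (nat_lit 0x0)
  (PL.C (nat_lit 0x18399) (nat_lit 0x5bec01216e6c017b) (nat_lit 0x0)
  (PL.C (nat_lit 0x18810) (nat_lit 0x1a087135455bd12) (nat_lit 0x0)
  (PL.C (nat_lit 0x18b70) (nat_lit 0x1a087135455bd12) (nat_lit 0x0)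
  (PL.C (nat_lit 0x18c18) (nat_lit 0x0) (nat_lit 0x32fd7ab33a1100b)
  (PL.C (nat_lit 0x198cc) (nat_lit 0x8243dcf09309cb9) (nat_lit 0x0) gp2_0_2))))))))))))))))))))

noncomputable def gp2_0 : PL :=
  (PL.C (nat_lit 0x50c0) (nat_lit 0xafffeddcdc2dd9) (nat_lit 0x0)
  (PL.C (nat_lit 0x5910) (nat_lit 0x4548879094acbf3) (nat_lit 0x0)
  (PL.C (nat_lit 0x7920) (nat_lit 0x0) (nat_lit 0x28ec9c20d44e9a)
  (PL.C (nat_lit 0x82a0) (nat_lit 0x0) (nat_lit 0x13e71c9e3b1f534)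
  (PL.C (nat_lit 0x8598) (nat_lit 0x0) (nat_lit 0x11360e534eb36780)
  (PL.C (nat_lit 0x9c30) (nat_lit 0x4548879094acbf3) (nat_lit 0x0)
  (PL.C (nat_lit 0xac44) (nat_lit 0xaf3ff727351051e1) (nat_lit 0x0)
  (PL.C (nat_lit 0xae40) (nat_lit 0x6312811e3ef8f5) (nat_lit 0x0)
  (PL.C (nat_lit 0xafc0) (nat_lit 0x6312811e3ef8f5) (nat_lit 0x0)
  (PL.C (nat_lit 0xb5b0) (nat_lit 0xa1336081027021b) (nat_lit 0x0)
  (PL.C (nat_lit 0xc030) (nat_lit 0x38675596182074f) (nat_lit 0x0)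
  (PL.C (nat_lit 0xc160) (nat_lit 0x0) (nat_lit 0x13e71c9e3b1f534)
  (PL.C (nat_lit 0xc3f0) (nat_lit 0x45a18f9fa36537b) (nat_lit 0x0)
  (PL.C (nat_lit 0xc864) (nat_lit 0x105249b58a23b4e8) (nat_lit 0x0)
  (PL.C (nat_lit 0xd548) (nat_lit 0x0) (nat_lit 0x3c6c4118ecf71ae8)
  (PL.C (nat_lit 0xea48) (nat_lit 0x0) (nat_lit 0x11360e534eb36780)
  (PL.C (nat_lit 0xfca8) (nat_lit 0x0) (nat_lit 0x3c6c4118ecf71ae8)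
  (PL.C (nat_lit 0x10266) (nat_lit 0x5661a58f362d3ce2) (nat_lit 0x0)
  (PL.C (nat_lit 0x10560) (nat_lit 0x0) (nat_lit 0xcdfbcf379e2d3c)
  (PL.C (nat_lit 0x107a0) (nat_lit 0x0) (nat_lit 0xcdfbcf379e2d3c) gp2_0_1))))))))))))))))))))

theorem chk2_0 : eqP (sm (pre (nat_lit 73) (grl (nat_lit 78) (nat_lit 33) (nat_lit 18889465931478580854784) (nat_lit 4) us2 cs2))) gp2_0 = true := by decide +kernel


end Pool.Agent.Work.MP_440970_an.FX.D1
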