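import Pool.Agent.Work.MP_440970_an.Bdx.B01
import Pool.Agent.Work.MP_440970_an.FX.D1.U2

/-!
# parts of the squares
-/

set_option autoImplicit false
set_option maxRecDepth 1000000

namespace Pool.Agent.Work.MP_440970_an.FX.D1

noncomputable def gp2_1_174 : PL :=
  (PL.C (nat_lit 0x401929093) (nat_lit 0x0) (nat_lit 0x2884f0da4188b)
  (PL.C (nat_lit 0x41907b845) (nat_lit 0x0) (nat_lit 0xbb66311efd11)
  (PL.C (nat_lit 0x4220f7fd3) (nat_lit 0x381fa5d569f6) (nat_lit 0x0)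
  (PL.C (nat_lit 0x42689058b) (nat_lit 0x77892b5ef8fe2) (nat_lit 0x0)
  (PL.C (nat_lit 0x4873f48fd) (nat_lit 0x4033ccc577480) (nat_lit 0x0)
  (PL.C (nat_lit 0x49169e031) (nat_lit 0x0) (nat_lit 0x84863fb23d6a)
  (PL.C (nat_lit 0x4d75864ab) (nat_lit 0x4033ccc577480) (nat_lit 0x0)
  (PL.C (nat_lit 0x4e90cb93b) (nat_lit 0x106c2e402e43c) (nat_lit 0x0)
  (PL.C (nat_lit 0x4f3b146ed) (nat_lit 0x123520216c469) (nat_lit 0x0)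
  (PL.C (nat_lit 0x4fe9aedeb) (nat_lit 0xdac2995fdc59) (nat_lit 0x0)
  (PL.C (nat_lit 0x578e22965) (nat_lit 0x0) (nat_lit 0x2884f0da4188b)
  (PL.C (nat_lit 0x5cf2c57eb) (nat_lit 0x0) (nat_lit 0x44ae3a1e390f)
  (PL.C (nat_lit 0x5ef127693) (nat_lit 0x106c2e402e43c) (nat_lit 0x0)
  (PL.C (nat_lit 0x70529c2c3) (nat_lit 0x22bc8b2d1ebab) (nat_lit 0x0)
  (PL.C (nat_lit 0x87bc4a05b) (nat_lit 0x0) (nat_lit 0x44ae3a1e390f) PL.Z)))))))))))))))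

noncomputable def gp2_1_173 : PL :=
  (PL.C (nat_lit 0x2ea5722dd) (nat_lit 0x0) (nat_lit 0x296be2e58eef)
  (PL.C (nat_lit 0x2f0c3de7b) (nat_lit 0x0) (nat_lit 0x1bee7691ac71f)
  (PL.C (nat_lit 0x2f252650f) (nat_lit 0x0) (nat_lit 0x3c7f290d68ad0)
  (PL.C (nat_lit 0x31ba5e80f) (nat_lit 0x6b8f4a6bc5c4) (nat_lit 0x0)
  (PL.C (nat_lit 0x31f6e4915) (nat_lit 0x3175381cfacbfa) (nat_lit 0x0)
  (PL.C (nat_lit 0x330e46fcd) (nat_lit 0xccabe61cfc09) (nat_lit 0x0)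
  (PL.C (nat_lit 0x331b74953) (nat_lit 0x0) (nat_lit 0x157c040051d15)
  (PL.C (nat_lit 0x331f63fd9) (nat_lit 0x18a0fe5139e0b) (nat_lit 0x0)
  (PL.C (nat_lit 0x338c14fd5) (nat_lit 0x37ec5003fb6a3) (nat_lit 0x0)
  (PL.C (nat_lit 0x3477175df) (nat_lit 0xdac2995fdc59) (nat_lit 0x0)
  (PL.C (nat_lit 0x34eab5de9) (nat_lit 0x123520216c469) (nat_lit 0x0)
  (PL.C (nat_lit 0x362e06763) (nat_lit 0x0) (nat_lit 0xd4c38c2e8ad6c)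
  (PL.C (nat_lit 0x376b453f5) (nat_lit 0x1a360e2b834f3) (nat_lit 0x0)
  (PL.C (nat_lit 0x37e5662a3) (nat_lit 0xe7a49f6c21ced) (nat_lit 0x0)
  (PL.C (nat_lit 0x387a13cdb) (nat_lit 0x23f5baaf5ed71) (nat_lit 0x0)
  (PL.C (nat_lit 0x3c17eae07) (nat_lit 0x0) (nat_lit 0xc2eb191b1812)
  (PL.C (nat_lit 0x3c7b40669) (nat_lit 0xccabe61cfc09) (nat_lit 0x0)
  (PL.C (nat_lit 0x3d3ddd92d) (nat_lit 0x0) (nat_lit 0xd4c38c2e8ad6c)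
  (PL.C (nat_lit 0x3f66b3257) (nat_lit 0x381fa5d569f6) (nat_lit 0x0)
  (PL.C (nat_lit 0x3ff26b3b1) (nat_lit 0x0) (nat_lit 0xbb66311efd11) gp2_1_174))))))))))))))))))))

noncomputable def gp2_1_172 : PL :=
  (PL.C (nat_lit 0x250218391) (nat_lit 0x0) (nat_lit 0x5dc792bfa04de)
  (PL.C (nat_lit 0x2553a6927) (nat_lit 0x6c29aa4d4a2225) (nat_lit 0x0)
  (PL.C (nat_lit 0x25a5e8a61) (nat_lit 0x0) (nat_lit 0x5dc792bfa04de)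
  (PL.C (nat_lit 0x26c3492b9) (nat_lit 0x0) (nat_lit 0xa8784f3076e98)
  (PL.C (nat_lit 0x27035c4d7) (nat_lit 0x2f531733b62c2) (nat_lit 0x0)
  (PL.C (nat_lit 0x275af29f3) (nat_lit 0x0) (nat_lit 0x2b1e01fd6c64)
  (PL.C (nat_lit 0x28e57f269) (nat_lit 0x0) (nat_lit 0x21b234ab09afb5)
  (PL.C (nat_lit 0x292686fd7) (nat_lit 0x0) (nat_lit 0xc2eb191b1812)
  (PL.C (nat_lit 0x293f9f18f) (nat_lit 0x0) (nat_lit 0x8a749f041df53)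
  (PL.C (nat_lit 0x29b56fb21) (nat_lit 0x656dae28f87f) (nat_lit 0x0)
  (PL.C (nat_lit 0x2a087c71f) (nat_lit 0x472a8eba31590) (nat_lit 0x0)
  (PL.C (nat_lit 0x2a3fce225) (nat_lit 0x0) (nat_lit 0x84863fb23d6a)
  (PL.C (nat_lit 0x2aa9a88a7) (nat_lit 0x20fab812c9ec9) (nat_lit 0x0)
  (PL.C (nat_lit 0x2adae7cad) (nat_lit 0x20a4efa6ec762) (nat_lit 0x0)
  (PL.C (nat_lit 0x2b07acee1) (nat_lit 0x29427f00497f9) (nat_lit 0x0)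
  (PL.C (nat_lit 0x2c33f43fb) (nat_lit 0x23f5baaf5ed71) (nat_lit 0x0)
  (PL.C (nat_lit 0x2c58c77ef) (nat_lit 0xe7a49f6c21ced) (nat_lit 0x0)
  (PL.C (nat_lit 0x2cba81f59) (nat_lit 0x1a360e2b834f3) (nat_lit 0x0)
  (PL.C (nat_lit 0x2d36c7e1d) (nat_lit 0x0) (nat_lit 0x8a749f041df53)
  (PL.C (nat_lit 0x2d9a6b93b) (nat_lit 0x0) (nat_lit 0x21b234ab09afb5) gp2_1_173))))))))))))))))))))

noncomputable def gp2_1_171 : PL :=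
  (PL.C (nat_lit 0x1e691e5b1) (nat_lit 0x90ca01ced7187) (nat_lit 0x0)
  (PL.C (nat_lit 0x1f04b377b) (nat_lit 0x9147eb9a50e0) (nat_lit 0x0)
  (PL.C (nat_lit 0x2013a22b1) (nat_lit 0xb1af8af6a3062) (nat_lit 0x0)
  (PL.C (nat_lit 0x205ba5db5) (nat_lit 0x25e26b849c5d) (nat_lit 0x0)
  (PL.C (nat_lit 0x20eee3873) (nat_lit 0x656dae28f87f) (nat_lit 0x0)
  (PL.C (nat_lit 0x20f9ed767) (nat_lit 0x0) (nat_lit 0x971b34deea1f1)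
  (PL.C (nat_lit 0x22239b8a5) (nat_lit 0xd9e6e114f929) (nat_lit 0x0)
  (PL.C (nat_lit 0x224b03f97) (nat_lit 0xb1af8af6a3062) (nat_lit 0x0)
  (PL.C (nat_lit 0x226ed7473) (nat_lit 0x0) (nat_lit 0x16d37bafa9745)
  (PL.C (nat_lit 0x22c86d267) (nat_lit 0x472a8eba31590) (nat_lit 0x0)
  (PL.C (nat_lit 0x2313d0c61) (nat_lit 0x2d746a11d99e2) (nat_lit 0x0)
  (PL.C (nat_lit 0x23356b965) (nat_lit 0x2f531733b62c2) (nat_lit 0x0)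
  (PL.C (nat_lit 0x234dcc5af) (nat_lit 0x13e01ac627962) (nat_lit 0x0)
  (PL.C (nat_lit 0x23611ddd7) (nat_lit 0xfc86a2ad5b3c) (nat_lit 0x0)
  (PL.C (nat_lit 0x23768d005) (nat_lit 0x9147eb9a50e0) (nat_lit 0x0)
  (PL.C (nat_lit 0x239b99399) (nat_lit 0x0) (nat_lit 0x2a52696e91542)
  (PL.C (nat_lit 0x23b62dfd5) (nat_lit 0x18a0fe5139e0b) (nat_lit 0x0)
  (PL.C (nat_lit 0x242e3dee7) (nat_lit 0x37ec5003fb6a3) (nat_lit 0x0)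
  (PL.C (nat_lit 0x247df96a1) (nat_lit 0x0) (nat_lit 0x157c040051d15)
  (PL.C (nat_lit 0x24b779dbf) (nat_lit 0x0) (nat_lit 0x43c176f67612b) gp2_1_172))))))))))))))))))))

noncomputable def gp2_1_170 : PL :=
  (PL.C (nat_lit 0x1b7dd7747) (nat_lit 0x4c745ad47cf9a) (nat_lit 0x0)
  (PL.C (nat_lit 0x1b84f0019) (nat_lit 0x0) (nat_lit 0x5b01a685da42f)
  (PL.C (nat_lit 0x1ba4b4393) (nat_lit 0x0) (nat_lit 0x1527795be5b8fe)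
  (PL.C (nat_lit 0x1bc19525f) (nat_lit 0x0) (nat_lit 0xd49901edc637d)
  (PL.C (nat_lit 0x1c11ba4f3) (nat_lit 0x0) (nat_lit 0x361e4bfa54c5c0)
  (PL.C (nat_lit 0x1c60bc91f) (nat_lit 0x0) (nat_lit 0xa8784f3076e98)
  (PL.C (nat_lit 0x1cd1973f9) (nat_lit 0x0) (nat_lit 0x2a52696e91542)
  (PL.C (nat_lit 0x1d111977f) (nat_lit 0x13e01ac627962) (nat_lit 0x0)
  (PL.C (nat_lit 0x1d22b58fd) (nat_lit 0x0) (nat_lit 0x3c7f290d68ad0)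
  (PL.C (nat_lit 0x1d46de55f) (nat_lit 0x0) (nat_lit 0x361e4bfa54c5c0)
  (PL.C (nat_lit 0x1d618b36d) (nat_lit 0x35642c609a1d7) (nat_lit 0x0)
  (PL.C (nat_lit 0x1d6690bf7) (nat_lit 0x16040a4886913a) (nat_lit 0x0)
  (PL.C (nat_lit 0x1d9d41183) (nat_lit 0x0) (nat_lit 0x1bee7691ac71f)
  (PL.C (nat_lit 0x1dcd4f6ab) (nat_lit 0x0) (nat_lit 0x16d37bafa9745)
  (PL.C (nat_lit 0x1dd74cabf) (nat_lit 0xc4bb1d6783143) (nat_lit 0x0)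
  (PL.C (nat_lit 0x1dde84225) (nat_lit 0x0) (nat_lit 0x296be2e58eef)
  (PL.C (nat_lit 0x1df9befb5) (nat_lit 0x101c0005065c52) (nat_lit 0x0)
  (PL.C (nat_lit 0x1e0efc5bd) (nat_lit 0xd9e6e114f929) (nat_lit 0x0)
  (PL.C (nat_lit 0x1e190fa09) (nat_lit 0xf57e389177d38) (nat_lit 0x0)
  (PL.C (nat_lit 0x1e622cc07) (nat_lit 0x35642c609a1d7) (nat_lit 0x0) gp2_1_171))))))))))))))))))))

noncomputable def gp2_1_169 : PL :=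
  (PL.C (nat_lit 0x18502a0c5) (nat_lit 0x0) (nat_lit 0x43c176f67612b)
  (PL.C (nat_lit 0x185893037) (nat_lit 0x0) (nat_lit 0xaa7ba149ddc2d)
  (PL.C (nat_lit 0x1874ad7dd) (nat_lit 0x0) (nat_lit 0x161a1f331870e8)
  (PL.C (nat_lit 0x18890d389) (nat_lit 0xa02e73a1dc8a5) (nat_lit 0x0)
  (PL.C (nat_lit 0x188e39ed1) (nat_lit 0x0) (nat_lit 0x291db045baef5f)
  (PL.C (nat_lit 0x18a08e92d) (nat_lit 0x0) (nat_lit 0x971b34deea1f1)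
  (PL.C (nat_lit 0x18bf1ef6f) (nat_lit 0x11ed327d363261) (nat_lit 0x0)
  (PL.C (nat_lit 0x1900f1c87) (nat_lit 0x155fefe62e6fb6) (nat_lit 0x0)
  (PL.C (nat_lit 0x191e02677) (nat_lit 0x1174de3ee980ab) (nat_lit 0x0)
  (PL.C (nat_lit 0x193b00c9d) (nat_lit 0x1a8d6ce55e33d6) (nat_lit 0x0)
  (PL.C (nat_lit 0x19555c691) (nat_lit 0x0) (nat_lit 0x24c4c3ea6b332)
  (PL.C (nat_lit 0x1962c5dcd) (nat_lit 0x0) (nat_lit 0x4806e5f94f557)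
  (PL.C (nat_lit 0x19ab058e3) (nat_lit 0x20a4efa6ec762) (nat_lit 0x0)
  (PL.C (nat_lit 0x19ae96b97) (nat_lit 0x0) (nat_lit 0x99d496deb277a)
  (PL.C (nat_lit 0x1ab909ebd) (nat_lit 0x1ed333f88e2e1) (nat_lit 0x0)
  (PL.C (nat_lit 0x1ac6d06cd) (nat_lit 0x4ff84d0c8e2de) (nat_lit 0x0)
  (PL.C (nat_lit 0x1ae76761f) (nat_lit 0x10a780f8dc7fc5) (nat_lit 0x0)
  (PL.C (nat_lit 0x1af3edb9b) (nat_lit 0x0) (nat_lit 0x109b7d862c344)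
  (PL.C (nat_lit 0x1b1cf97a1) (nat_lit 0x0) (nat_lit 0x1716fc5ef4f4cb)
  (PL.C (nat_lit 0x1b50b0949) (nat_lit 0x0) (nat_lit 0x915823cdb0d1) gp2_1_170))))))))))))))))))))

noncomputable def gp2_1_168 : PL :=
  (PL.C (nat_lit 0x16040bb8b) (nat_lit 0x3d336a537bc013) (nat_lit 0x0)
  (PL.C (nat_lit 0x16056bd9b) (nat_lit 0x0) (nat_lit 0x3127d324bcb48)
  (PL.C (nat_lit 0x161d09d95) (nat_lit 0x0) (nat_lit 0x109b7d862c344)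
  (PL.C (nat_lit 0x161ed7529) (nat_lit 0x1ca03bff472f32) (nat_lit 0x0)
  (PL.C (nat_lit 0x162870125) (nat_lit 0x0) (nat_lit 0x915823cdb0d1)
  (PL.C (nat_lit 0x1635f334d) (nat_lit 0x0) (nat_lit 0x60263024fd25d)
  (PL.C (nat_lit 0x164dc5403) (nat_lit 0x1ed333f88e2e1) (nat_lit 0x0)
  (PL.C (nat_lit 0x169a880c1) (nat_lit 0x4ff84d0c8e2de) (nat_lit 0x0)
  (PL.C (nat_lit 0x16a21b9fd) (nat_lit 0x0) (nat_lit 0xa1f0849f25cf6)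
  (PL.C (nat_lit 0x16b60acdb) (nat_lit 0x10a780f8dc7fc5) (nat_lit 0x0)
  (PL.C (nat_lit 0x16d23a6e9) (nat_lit 0x0) (nat_lit 0x229529bc335c49)
  (PL.C (nat_lit 0x16f8e4995) (nat_lit 0x4efcb6ac2555f) (nat_lit 0x0)
  (PL.C (nat_lit 0x1713691e7) (nat_lit 0x45fafea2954f8) (nat_lit 0x0)
  (PL.C (nat_lit 0x172b84803) (nat_lit 0x1025492f9e8da) (nat_lit 0x0)
  (PL.C (nat_lit 0x173a45c9b) (nat_lit 0xfc86a2ad5b3c) (nat_lit 0x0)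
  (PL.C (nat_lit 0x176d75c4d) (nat_lit 0x2d746a11d99e2) (nat_lit 0x0)
  (PL.C (nat_lit 0x17af10901) (nat_lit 0xb866d837c6f9f) (nat_lit 0x0)
  (PL.C (nat_lit 0x17d90a9f1) (nat_lit 0x29427f00497f9) (nat_lit 0x0)
  (PL.C (nat_lit 0x17fc9972f) (nat_lit 0x0) (nat_lit 0x1716fc5ef4f4cb)
  (PL.C (nat_lit 0x180d987c7) (nat_lit 0x20fab812c9ec9) (nat_lit 0x0) gp2_1_169))))))))))))))))))))

noncomputable def gp2_1_167 : PL :=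
  (PL.C (nat_lit 0x13cd6b77d) (nat_lit 0xa02e73a1dc8a5) (nat_lit 0x0)
  (PL.C (nat_lit 0x13ed6f813) (nat_lit 0xd6823df340d37) (nat_lit 0x0)
  (PL.C (nat_lit 0x140217a45) (nat_lit 0x0) (nat_lit 0x161a1f331870e8)
  (PL.C (nat_lit 0x140470451) (nat_lit 0x0) (nat_lit 0xe2acfa502a0c8)
  (PL.C (nat_lit 0x14179d915) (nat_lit 0x90ca01ced7187) (nat_lit 0x0)
  (PL.C (nat_lit 0x141959b15) (nat_lit 0x4ba29ba445165d) (nat_lit 0x0)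
  (PL.C (nat_lit 0x14285aae1) (nat_lit 0xf57e389177d38) (nat_lit 0x0)
  (PL.C (nat_lit 0x14308d267) (nat_lit 0x14a0f9d10b95fa) (nat_lit 0x0)
  (PL.C (nat_lit 0x1444a8977) (nat_lit 0xa2e78045a4d6) (nat_lit 0x0)
  (PL.C (nat_lit 0x1445a4a83) (nat_lit 0xd704c8b162a4) (nat_lit 0x0)
  (PL.C (nat_lit 0x1454c6b57) (nat_lit 0xc4bb1d6783143) (nat_lit 0x0)
  (PL.C (nat_lit 0x148d0b475) (nat_lit 0x0) (nat_lit 0x99d496deb277a)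
  (PL.C (nat_lit 0x148d43953) (nat_lit 0x0) (nat_lit 0x60263024fd25d)
  (PL.C (nat_lit 0x14ba8dfd5) (nat_lit 0x0) (nat_lit 0x3127d324bcb48)
  (PL.C (nat_lit 0x14df4ec8b) (nat_lit 0x0) (nat_lit 0x3a430509fbbe0)
  (PL.C (nat_lit 0x14f3ec3cf) (nat_lit 0x1f0752f60027f9) (nat_lit 0x0)
  (PL.C (nat_lit 0x14f5b15a5) (nat_lit 0x0) (nat_lit 0xf196f6a97b75)
  (PL.C (nat_lit 0x156e9c3e9) (nat_lit 0x0) (nat_lit 0x58f2d669ababc)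
  (PL.C (nat_lit 0x159dd740f) (nat_lit 0x175b49c600ec2) (nat_lit 0x0)
  (PL.C (nat_lit 0x15b23aab3) (nat_lit 0x101c0005065c52) (nat_lit 0x0) gp2_1_168))))))))))))))))))))

noncomputable def gp2_1_166 : PL :=
  (PL.C (nat_lit 0x1296dcb47) (nat_lit 0x0) (nat_lit 0x291db045baef5f)
  (PL.C (nat_lit 0x129bee2db) (nat_lit 0x18a30b9e87a9ef) (nat_lit 0x0)
  (PL.C (nat_lit 0x12b10e445) (nat_lit 0x0) (nat_lit 0x824661aac9c55)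
  (PL.C (nat_lit 0x12b46be79) (nat_lit 0x25e26b849c5d) (nat_lit 0x0)
  (PL.C (nat_lit 0x12bab0ed5) (nat_lit 0x0) (nat_lit 0x9c898867fde6a)
  (PL.C (nat_lit 0x12bfd3f41) (nat_lit 0x0) (nat_lit 0xaa7ba149ddc2d)
  (PL.C (nat_lit 0x12da3f3d3) (nat_lit 0x0) (nat_lit 0x824661aac9c55)
  (PL.C (nat_lit 0x12e349083) (nat_lit 0x0) (nat_lit 0x11872bc9855e4)
  (PL.C (nat_lit 0x12f3b7cd3) (nat_lit 0x1f0752f60027f9) (nat_lit 0x0)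
  (PL.C (nat_lit 0x12f56150f) (nat_lit 0x7614f65a35636) (nat_lit 0x0)
  (PL.C (nat_lit 0x12f916921) (nat_lit 0x0) (nat_lit 0x2125eea8f253d)
  (PL.C (nat_lit 0x130281bad) (nat_lit 0x0) (nat_lit 0x155f00eb22e70)
  (PL.C (nat_lit 0x130ce8b25) (nat_lit 0x0) (nat_lit 0x30fde8cbea6cf)
  (PL.C (nat_lit 0x1318734ef) (nat_lit 0xa4feb39e4fbbc) (nat_lit 0x0)
  (PL.C (nat_lit 0x131b214b1) (nat_lit 0x0) (nat_lit 0x9c898867fde6a)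
  (PL.C (nat_lit 0x132c6632b) (nat_lit 0x29da2999365b0) (nat_lit 0x0)
  (PL.C (nat_lit 0x1334466cb) (nat_lit 0x0) (nat_lit 0x2b1e01fd6c64)
  (PL.C (nat_lit 0x1391d9827) (nat_lit 0x155fefe62e6fb6) (nat_lit 0x0)
  (PL.C (nat_lit 0x13a2272eb) (nat_lit 0x11ed327d363261) (nat_lit 0x0)
  (PL.C (nat_lit 0x13c5419dd) (nat_lit 0x0) (nat_lit 0x72f02b31db49c) gp2_1_167))))))))))))))))))))

noncomputable def gp2_1_165 : PL :=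
  (PL.C (nat_lit 0x10c5acbff) (nat_lit 0x0) (nat_lit 0xf196f6a97b75)
  (PL.C (nat_lit 0x10d26819f) (nat_lit 0xd704c8b162a4) (nat_lit 0x0)
  (PL.C (nat_lit 0x10f77a429) (nat_lit 0x4ba29ba445165d) (nat_lit 0x0)
  (PL.C (nat_lit 0x111cde1cf) (nat_lit 0xd6823df340d37) (nat_lit 0x0)
  (PL.C (nat_lit 0x11266f20b) (nat_lit 0x354da85a8882b8) (nat_lit 0x0)
  (PL.C (nat_lit 0x11294805d) (nat_lit 0x87528c8278753) (nat_lit 0x0)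
  (PL.C (nat_lit 0x113cc3583) (nat_lit 0x14d7ebfd401c79) (nat_lit 0x0)
  (PL.C (nat_lit 0x1145a6173) (nat_lit 0x18b741df176d95) (nat_lit 0x0)
  (PL.C (nat_lit 0x114c3a75d) (nat_lit 0x354da85a8882b8) (nat_lit 0x0)
  (PL.C (nat_lit 0x11582c33d) (nat_lit 0xa2e78045a4d6) (nat_lit 0x0)
  (PL.C (nat_lit 0x1162bfe25) (nat_lit 0x0) (nat_lit 0x9d8e07db18e36)
  (PL.C (nat_lit 0x116c6cfff) (nat_lit 0x0) (nat_lit 0x1de1ce9d285b4)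
  (PL.C (nat_lit 0x119e959f7) (nat_lit 0x0) (nat_lit 0x629ae2d8eb94b)
  (PL.C (nat_lit 0x11b3749cb) (nat_lit 0x0) (nat_lit 0x1527795be5b8fe)
  (PL.C (nat_lit 0x11bbb5979) (nat_lit 0x7614f65a35636) (nat_lit 0x0)
  (PL.C (nat_lit 0x11d0b147e) (nat_lit 0x0) (nat_lit 0x29abff057e29d)
  (PL.C (nat_lit 0x11f7f3d12) (nat_lit 0x1a9768caf62c8) (nat_lit 0x0)
  (PL.C (nat_lit 0x121b1a2cd) (nat_lit 0x14a0f9d10b95fa) (nat_lit 0x0)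
  (PL.C (nat_lit 0x124300b0b) (nat_lit 0x0) (nat_lit 0xe2acfa502a0c8)
  (PL.C (nat_lit 0x127729865) (nat_lit 0x1f341dba30995c) (nat_lit 0x0) gp2_1_166))))))))))))))))))))

noncomputable def gp2_1_164 : PL :=
  (PL.C (nat_lit 0xfcf776e9) (nat_lit 0x0) (nat_lit 0xa1f0849f25cf6)
  (PL.C (nat_lit 0xfd20fe27) (nat_lit 0x0) (nat_lit 0xe8ddfeafa8ab1)
  (PL.C (nat_lit 0xfd4c4185) (nat_lit 0x0) (nat_lit 0x32486528be276)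
  (PL.C (nat_lit 0xfde4252b) (nat_lit 0xcccf7e2485174) (nat_lit 0x0)
  (PL.C (nat_lit 0xff1bbfcf) (nat_lit 0x48be005f3a79c) (nat_lit 0x0)
  (PL.C (nat_lit 0x10049efc3) (nat_lit 0x0) (nat_lit 0x229529bc335c49)
  (PL.C (nat_lit 0x100c17121) (nat_lit 0x49500ec9de05d) (nat_lit 0x0)
  (PL.C (nat_lit 0x1011780dd) (nat_lit 0x1532bbe5694e3) (nat_lit 0x0)
  (PL.C (nat_lit 0x1014df079) (nat_lit 0x0) (nat_lit 0x1a8c6cff52dc7)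
  (PL.C (nat_lit 0x101e9d2eb) (nat_lit 0x0) (nat_lit 0x35012df7821d7)
  (PL.C (nat_lit 0x1024045ff) (nat_lit 0x2f27935908e193) (nat_lit 0x0)
  (PL.C (nat_lit 0x102f74317) (nat_lit 0x29d6307a0af2d) (nat_lit 0x0)
  (PL.C (nat_lit 0x1034e107b) (nat_lit 0x11c1480d055168) (nat_lit 0x0)
  (PL.C (nat_lit 0x104160bfb) (nat_lit 0x0) (nat_lit 0x2f08a862d0dd79)
  (PL.C (nat_lit 0x105c3f7b5) (nat_lit 0x0) (nat_lit 0xbc97212c2aeaf)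
  (PL.C (nat_lit 0x105ffca73) (nat_lit 0x0) (nat_lit 0x650e127aab499)
  (PL.C (nat_lit 0x10721c269) (nat_lit 0x0) (nat_lit 0xd49901edc637d)
  (PL.C (nat_lit 0x10965a18f) (nat_lit 0x0) (nat_lit 0x5b01a685da42f)
  (PL.C (nat_lit 0x10b3c3191) (nat_lit 0x0) (nat_lit 0x35012df7821d7)
  (PL.C (nat_lit 0x10c44229d) (nat_lit 0xb866d837c6f9f) (nat_lit 0x0) gp2_1_165))))))))))))))))))))

noncomputable def gp2_1_163 : PL :=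
  (PL.C (nat_lit 0xe948f87f) (nat_lit 0x1f341dba30995c) (nat_lit 0x0)
  (PL.C (nat_lit 0xe9972a43) (nat_lit 0x0) (nat_lit 0xbd6a68005f99)
  (PL.C (nat_lit 0xea91af6d) (nat_lit 0x39dc454b22cc6) (nat_lit 0x0)
  (PL.C (nat_lit 0xeb54b63b) (nat_lit 0x6cca80fd16dc) (nat_lit 0x0)
  (PL.C (nat_lit 0xebe0690e) (nat_lit 0x1a9768caf62c8) (nat_lit 0x0)
  (PL.C (nat_lit 0xed16d8ab) (nat_lit 0x232f1d2b53b90) (nat_lit 0x0)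
  (PL.C (nat_lit 0xede83802) (nat_lit 0x0) (nat_lit 0x29abff057e29d)
  (PL.C (nat_lit 0xee2886d9) (nat_lit 0x0) (nat_lit 0x3849b07ebc3dda)
  (PL.C (nat_lit 0xef2153bd) (nat_lit 0x0) (nat_lit 0x554e6d27106c9)
  (PL.C (nat_lit 0xf1d3cef9) (nat_lit 0x0) (nat_lit 0x2c44557978b22a)
  (PL.C (nat_lit 0xf3feb8ed) (nat_lit 0x0) (nat_lit 0x9d8e07db18e36)
  (PL.C (nat_lit 0xf47c7ffd) (nat_lit 0x0) (nat_lit 0x629ae2d8eb94b)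
  (PL.C (nat_lit 0xf6186beb) (nat_lit 0x14d7ebfd401c79) (nat_lit 0x0)
  (PL.C (nat_lit 0xf6635143) (nat_lit 0x18a30b9e87a9ef) (nat_lit 0x0)
  (PL.C (nat_lit 0xf848c84b) (nat_lit 0x29d6307a0af2d) (nat_lit 0x0)
  (PL.C (nat_lit 0xf96762b9) (nat_lit 0x18b741df176d95) (nat_lit 0x0)
  (PL.C (nat_lit 0xf9936a3b) (nat_lit 0x139b805bca475) (nat_lit 0x0)
  (PL.C (nat_lit 0xfa6bef1d) (nat_lit 0x49500ec9de05d) (nat_lit 0x0)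
  (PL.C (nat_lit 0xfbb969ad) (nat_lit 0x0) (nat_lit 0x28ca1a74da9cda)
  (PL.C (nat_lit 0xfc3b2cbd) (nat_lit 0x0) (nat_lit 0x44fc6796a7f89f) gp2_1_164))))))))))))))))))))

noncomputable def gp2_1_162 : PL :=
  (PL.C (nat_lit 0xd760650d) (nat_lit 0x0) (nat_lit 0x24c4c3ea6b332)
  (PL.C (nat_lit 0xd76a9935) (nat_lit 0x6ac934c3f1dee) (nat_lit 0x0)
  (PL.C (nat_lit 0xd831b0fa) (nat_lit 0x3f84ba1a7640) (nat_lit 0x0)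
  (PL.C (nat_lit 0xd851a09b) (nat_lit 0x0) (nat_lit 0x6d14ea5d28f4f)
  (PL.C (nat_lit 0xd8650105) (nat_lit 0x13d575797ecb10) (nat_lit 0x0)
  (PL.C (nat_lit 0xd93b06cb) (nat_lit 0x1174de3ee980ab) (nat_lit 0x0)
  (PL.C (nat_lit 0xd95ecbb7) (nat_lit 0x6c4492ba9e29e1) (nat_lit 0x0)
  (PL.C (nat_lit 0xda41e113) (nat_lit 0x19691a082eefc4) (nat_lit 0x0)
  (PL.C (nat_lit 0xdb943a11) (nat_lit 0x175b49c600ec2) (nat_lit 0x0)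
  (PL.C (nat_lit 0xdcf88b49) (nat_lit 0x0) (nat_lit 0xe8ddfeafa8ab1)
  (PL.C (nat_lit 0xdd429c65) (nat_lit 0x0) (nat_lit 0x1c41b0036e8df5)
  (PL.C (nat_lit 0xdd781ea7) (nat_lit 0x0) (nat_lit 0x58f2d669ababc)
  (PL.C (nat_lit 0xdf920e6e) (nat_lit 0xa0a3ead943ae) (nat_lit 0x0)
  (PL.C (nat_lit 0xe1968d95) (nat_lit 0xa4feb39e4fbbc) (nat_lit 0x0)
  (PL.C (nat_lit 0xe2d46c0f) (nat_lit 0x39dc454b22cc6) (nat_lit 0x0)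
  (PL.C (nat_lit 0xe63a2e17) (nat_lit 0x0) (nat_lit 0xe67a8f1ec160)
  (PL.C (nat_lit 0xe6b0dc47) (nat_lit 0x175ae455181ab) (nat_lit 0x0)
  (PL.C (nat_lit 0xe743f07d) (nat_lit 0x1dfc10375b2fe) (nat_lit 0x0)
  (PL.C (nat_lit 0xe7d0cbf7) (nat_lit 0x1a8d6ce55e33d6) (nat_lit 0x0)
  (PL.C (nat_lit 0xe83589f1) (nat_lit 0x0) (nat_lit 0x178f292b860ef) gp2_1_163))))))))))))))))))))

noncomputable def gp2_1_161 : PL :=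
  (PL.C (nat_lit 0xcc0ba263) (nat_lit 0x7832c3b3ba940a) (nat_lit 0x0)
  (PL.C (nat_lit 0xcc23d69d) (nat_lit 0x0) (nat_lit 0x44fc6796a7f89f)
  (PL.C (nat_lit 0xce6272b1) (nat_lit 0x0) (nat_lit 0x3a430509fbbe0)
  (PL.C (nat_lit 0xcea7a02d) (nat_lit 0xe2298bd44c70) (nat_lit 0x0)
  (PL.C (nat_lit 0xd01f8ae1) (nat_lit 0x0) (nat_lit 0x6250dfa5b59056)
  (PL.C (nat_lit 0xd0431d13) (nat_lit 0x7970d3a0d66b60) (nat_lit 0x0)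
  (PL.C (nat_lit 0xd12e8349) (nat_lit 0x0) (nat_lit 0x51d8b1c4b567f)
  (PL.C (nat_lit 0xd19734b7) (nat_lit 0x29da2999365b0) (nat_lit 0x0)
  (PL.C (nat_lit 0xd1c00645) (nat_lit 0x0) (nat_lit 0xb632465661075)
  (PL.C (nat_lit 0xd2b22577) (nat_lit 0x0) (nat_lit 0x1188fe402d8b6f)
  (PL.C (nat_lit 0xd361acfb) (nat_lit 0x24b83926de75ac) (nat_lit 0x0)
  (PL.C (nat_lit 0xd3651651) (nat_lit 0x0) (nat_lit 0x155f00eb22e70)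
  (PL.C (nat_lit 0xd38e41d3) (nat_lit 0x0) (nat_lit 0x146a791e44ba04)
  (PL.C (nat_lit 0xd3e52873) (nat_lit 0x0) (nat_lit 0x4806e5f94f557)
  (PL.C (nat_lit 0xd455ae49) (nat_lit 0x423072c212d291) (nat_lit 0x0)
  (PL.C (nat_lit 0xd4ec2271) (nat_lit 0x0) (nat_lit 0x2c44557978b22a)
  (PL.C (nat_lit 0xd53380ed) (nat_lit 0x29e360300f907e) (nat_lit 0x0)
  (PL.C (nat_lit 0xd5ae2303) (nat_lit 0x0) (nat_lit 0xbc97212c2aeaf)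
  (PL.C (nat_lit 0xd5d2a859) (nat_lit 0x0) (nat_lit 0x32486528be276)
  (PL.C (nat_lit 0xd7396963) (nat_lit 0x0) (nat_lit 0x6250dfa5b59056) gp2_1_162))))))))))))))))))))

noncomputable def gp2_1_160 : PL :=
  (PL.C (nat_lit 0xbf5ff155) (nat_lit 0x0) (nat_lit 0x51d8b1c4b567f)
  (PL.C (nat_lit 0xc00f06e5) (nat_lit 0x0) (nat_lit 0x30f33456990f67)
  (PL.C (nat_lit 0xc2bd31a3) (nat_lit 0x0) (nat_lit 0x13c002edf2dfb4)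
  (PL.C (nat_lit 0xc2fe77d7) (nat_lit 0x0) (nat_lit 0x412bc58a2dddf)
  (PL.C (nat_lit 0xc3aa35b1) (nat_lit 0x773cf752fb7ee9) (nat_lit 0x0)
  (PL.C (nat_lit 0xc49d0b1b) (nat_lit 0x0) (nat_lit 0x1a73c5c09890b8)
  (PL.C (nat_lit 0xc52fd08f) (nat_lit 0xe2298bd44c70) (nat_lit 0x0)
  (PL.C (nat_lit 0xc56fe815) (nat_lit 0x107ba3f3b401de) (nat_lit 0x0)
  (PL.C (nat_lit 0xc5ea279f) (nat_lit 0x4cd8b535a30fb) (nat_lit 0x0)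
  (PL.C (nat_lit 0xc623ccaf) (nat_lit 0x882463a87e7f8) (nat_lit 0x0)
  (PL.C (nat_lit 0xc6ce9d55) (nat_lit 0xfcdec798ccc5c) (nat_lit 0x0)
  (PL.C (nat_lit 0xc760982e) (nat_lit 0x0) (nat_lit 0x1a5c8e8974c2c)
  (PL.C (nat_lit 0xc79e4e29) (nat_lit 0x22ba72897c983) (nat_lit 0x0)
  (PL.C (nat_lit 0xc7b679a1) (nat_lit 0xcccf7e2485174) (nat_lit 0x0)
  (PL.C (nat_lit 0xc81d6cf1) (nat_lit 0x0) (nat_lit 0x1a8c6cff52dc7)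
  (PL.C (nat_lit 0xc9046cdb) (nat_lit 0x87528c8278753) (nat_lit 0x0)
  (PL.C (nat_lit 0xc917f7e2) (nat_lit 0x0) (nat_lit 0x1a5c8e8974c2c)
  (PL.C (nat_lit 0xc96e9697) (nat_lit 0x0) (nat_lit 0x28ca1a74da9cda)
  (PL.C (nat_lit 0xc9d66cc7) (nat_lit 0x48be005f3a79c) (nat_lit 0x0)
  (PL.C (nat_lit 0xcb2a7d71) (nat_lit 0x139b805bca475) (nat_lit 0x0) gp2_1_161))))))))))))))))))))

noncomputable def gp2_1_159 : PL :=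
  (PL.C (nat_lit 0xb2e732aa) (nat_lit 0xa0a3ead943ae) (nat_lit 0x0)
  (PL.C (nat_lit 0xb3d2a6c1) (nat_lit 0x0) (nat_lit 0x170d79ee020531)
  (PL.C (nat_lit 0xb3f99b61) (nat_lit 0x0) (nat_lit 0x37a412e39257b2)
  (PL.C (nat_lit 0xb484420d) (nat_lit 0x2fb99676dc16a9) (nat_lit 0x0)
  (PL.C (nat_lit 0xb49381cf) (nat_lit 0x0) (nat_lit 0x1264558b5373e)
  (PL.C (nat_lit 0xb5d26eaf) (nat_lit 0x0) (nat_lit 0x2125eea8f253d)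
  (PL.C (nat_lit 0xb5d852c9) (nat_lit 0x1905a38f68486) (nat_lit 0x0)
  (PL.C (nat_lit 0xb5ebb333) (nat_lit 0x0) (nat_lit 0x76340c852553f8)
  (PL.C (nat_lit 0xb7dd7902) (nat_lit 0x115c892b57ce) (nat_lit 0x0)
  (PL.C (nat_lit 0xb8a5421b) (nat_lit 0x0) (nat_lit 0x912a40d4df4b48)
  (PL.C (nat_lit 0xb901d77e) (nat_lit 0x3f84ba1a7640) (nat_lit 0x0)
  (PL.C (nat_lit 0xb90f8407) (nat_lit 0x0) (nat_lit 0x6d14ea5d28f4f)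
  (PL.C (nat_lit 0xb972a96e) (nat_lit 0x0) (nat_lit 0x7b1fe77042f5f)
  (PL.C (nat_lit 0xb97a66a9) (nat_lit 0x0) (nat_lit 0x19e64c13862ade)
  (PL.C (nat_lit 0xba3c2acd) (nat_lit 0x0) (nat_lit 0x64c3dcd0e1595d)
  (PL.C (nat_lit 0xbaad3fad) (nat_lit 0x45fafea2954f8) (nat_lit 0x0)
  (PL.C (nat_lit 0xbd4b1f71) (nat_lit 0x16b18fbbf0a424) (nat_lit 0x0)
  (PL.C (nat_lit 0xbdacb3c1) (nat_lit 0x4368454d9751ab) (nat_lit 0x0)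
  (PL.C (nat_lit 0xbe938ddb) (nat_lit 0x14ccfccdf3f99b) (nat_lit 0x0)
  (PL.C (nat_lit 0xbeec4647) (nat_lit 0x0) (nat_lit 0x398ae92b34d6e) gp2_1_160))))))))))))))))))))

noncomputable def gp2_1_158 : PL :=
  (PL.C (nat_lit 0xaa61e423) (nat_lit 0x0) (nat_lit 0x11872bc9855e4)
  (PL.C (nat_lit 0xaa9b0057) (nat_lit 0xdd7dffaf1eb0e) (nat_lit 0x0)
  (PL.C (nat_lit 0xabaed459) (nat_lit 0xd7e83446d3aab) (nat_lit 0x0)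
  (PL.C (nat_lit 0xac396f99) (nat_lit 0x0) (nat_lit 0x2f08a862d0dd79)
  (PL.C (nat_lit 0xac60cbaf) (nat_lit 0x0) (nat_lit 0x18c2155b9399d2)
  (PL.C (nat_lit 0xac750253) (nat_lit 0x0) (nat_lit 0x1df2832dd48b28)
  (PL.C (nat_lit 0xad19aac1) (nat_lit 0x1dfc10375b2fe) (nat_lit 0x0)
  (PL.C (nat_lit 0xad292c1f) (nat_lit 0x2f4f34aa85ea20) (nat_lit 0x0)
  (PL.C (nat_lit 0xad3c1511) (nat_lit 0x0) (nat_lit 0x6d5de9de2ae7b7)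
  (PL.C (nat_lit 0xad704d3f) (nat_lit 0x1025492f9e8da) (nat_lit 0x0)
  (PL.C (nat_lit 0xadf10ed5) (nat_lit 0x0) (nat_lit 0xc04e65b3dc982)
  (PL.C (nat_lit 0xae72e7a1) (nat_lit 0x0) (nat_lit 0xbd6a68005f99)
  (PL.C (nat_lit 0xae9e4a05) (nat_lit 0x17b72619da839) (nat_lit 0x0)
  (PL.C (nat_lit 0xaea6c5a9) (nat_lit 0x751c89e981a2) (nat_lit 0x0)
  (PL.C (nat_lit 0xaeee8389) (nat_lit 0x4efcb6ac2555f) (nat_lit 0x0)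
  (PL.C (nat_lit 0xb0d2a62b) (nat_lit 0x0) (nat_lit 0x72f02b31db49c)
  (PL.C (nat_lit 0xb10fd019) (nat_lit 0x0) (nat_lit 0x35b1f4e1a5d01f)
  (PL.C (nat_lit 0xb1dc3393) (nat_lit 0x0) (nat_lit 0x18c2155b9399d2)
  (PL.C (nat_lit 0xb2706027) (nat_lit 0xdd7dffaf1eb0e) (nat_lit 0x0)
  (PL.C (nat_lit 0xb296025f) (nat_lit 0x0) (nat_lit 0x2e564b69273076) gp2_1_159))))))))))))))))))))

noncomputable def gp2_1_157 : PL :=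
  (PL.C (nat_lit 0xa2359a8d) (nat_lit 0x0) (nat_lit 0xe67a8f1ec160)
  (PL.C (nat_lit 0xa2a9d09e) (nat_lit 0x0) (nat_lit 0x7b1fe77042f5f)
  (PL.C (nat_lit 0xa2b9d7a9) (nat_lit 0x878349f684256) (nat_lit 0x0)
  (PL.C (nat_lit 0xa3476a99) (nat_lit 0x28d9dcbddd5a47) (nat_lit 0x0)
  (PL.C (nat_lit 0xa375aec3) (nat_lit 0x0) (nat_lit 0xae4de5bedafef)
  (PL.C (nat_lit 0xa3f68777) (nat_lit 0x882463a87e7f8) (nat_lit 0x0)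
  (PL.C (nat_lit 0xa41047f2) (nat_lit 0x115c892b57ce) (nat_lit 0x0)
  (PL.C (nat_lit 0xa420724f) (nat_lit 0x0) (nat_lit 0xe71951dc2b877)
  (PL.C (nat_lit 0xa463dd6f) (nat_lit 0x175ae455181ab) (nat_lit 0x0)
  (PL.C (nat_lit 0xa49af773) (nat_lit 0x0) (nat_lit 0x99aa104b5146)
  (PL.C (nat_lit 0xa5f8eec7) (nat_lit 0x2058162ddff3a3) (nat_lit 0x0)
  (PL.C (nat_lit 0xa66246d2) (nat_lit 0x2f1f861ab65d6) (nat_lit 0x0)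
  (PL.C (nat_lit 0xa7c445c5) (nat_lit 0x2524f4616964f1) (nat_lit 0x0)
  (PL.C (nat_lit 0xa7d0f11e) (nat_lit 0x0) (nat_lit 0x1cdad23f344010)
  (PL.C (nat_lit 0xa899c815) (nat_lit 0x1905a38f68486) (nat_lit 0x0)
  (PL.C (nat_lit 0xa8ed9e75) (nat_lit 0x0) (nat_lit 0x30fde8cbea6cf)
  (PL.C (nat_lit 0xa9263de1) (nat_lit 0x0) (nat_lit 0x37a412e39257b2)
  (PL.C (nat_lit 0xa942c372) (nat_lit 0x3e10800c54ee3) (nat_lit 0x0)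
  (PL.C (nat_lit 0xa9e97f2b) (nat_lit 0x0) (nat_lit 0x30f33456990f67)
  (PL.C (nat_lit 0xaa54ab77) (nat_lit 0x0) (nat_lit 0xad1015d5dfe0a) gp2_1_158))))))))))))))))))))

noncomputable def gp2_1_156 : PL :=
  (PL.C (nat_lit 0x99afe3bf) (nat_lit 0x423072c212d291) (nat_lit 0x0)
  (PL.C (nat_lit 0x9a2d4afe) (nat_lit 0x0) (nat_lit 0x1f54f2d07be3b)
  (PL.C (nat_lit 0x9ace5bf6) (nat_lit 0x0) (nat_lit 0x59ddacb629c88)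
  (PL.C (nat_lit 0x9bfd3047) (nat_lit 0x591924071c7368) (nat_lit 0x0)
  (PL.C (nat_lit 0x9c611f9e) (nat_lit 0x0) (nat_lit 0x2676baafefe01)
  (PL.C (nat_lit 0x9ca47ba9) (nat_lit 0x0) (nat_lit 0x398ae92b34d6e)
  (PL.C (nat_lit 0x9cb1408d) (nat_lit 0xfcda4e76ad62ac) (nat_lit 0x0)
  (PL.C (nat_lit 0x9d54f241) (nat_lit 0x0) (nat_lit 0x660089f5209b6)
  (PL.C (nat_lit 0x9dca64dd) (nat_lit 0x2f27935908e193) (nat_lit 0x0)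
  (PL.C (nat_lit 0x9dfdae4f) (nat_lit 0x16b18fbbf0a424) (nat_lit 0x0)
  (PL.C (nat_lit 0x9ee93553) (nat_lit 0xf31437fbf9fc63) (nat_lit 0x0)
  (PL.C (nat_lit 0x9f16520f) (nat_lit 0xa5b867bdf7f4) (nat_lit 0x0)
  (PL.C (nat_lit 0xa01d6c85) (nat_lit 0x4368454d9751ab) (nat_lit 0x0)
  (PL.C (nat_lit 0xa0276d75) (nat_lit 0x0) (nat_lit 0x2e564b69273076)
  (PL.C (nat_lit 0xa05317b1) (nat_lit 0x0) (nat_lit 0x6cdca27d1c643)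
  (PL.C (nat_lit 0xa0d3305b) (nat_lit 0x0) (nat_lit 0x178f292b860ef)
  (PL.C (nat_lit 0xa0e04c87) (nat_lit 0x14ccfccdf3f99b) (nat_lit 0x0)
  (PL.C (nat_lit 0xa12617cb) (nat_lit 0x6cca80fd16dc) (nat_lit 0x0)
  (PL.C (nat_lit 0xa1885d23) (nat_lit 0x0) (nat_lit 0x35b1f4e1a5d01f)
  (PL.C (nat_lit 0xa1c2fc05) (nat_lit 0x0) (nat_lit 0x12f70098f57ab6) gp2_1_157))))))))))))))))))))

noncomputable def gp2_1_155 : PL :=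
  (PL.C (nat_lit 0x9367b2d9) (nat_lit 0x0) (nat_lit 0x206d8c4bc02c6)
  (PL.C (nat_lit 0x936edc0d) (nat_lit 0x3dadf66534cbcb) (nat_lit 0x0)
  (PL.C (nat_lit 0x93c14741) (nat_lit 0x0) (nat_lit 0x126f67cbf635340)
  (PL.C (nat_lit 0x93d9cef7) (nat_lit 0x180262b2a01181) (nat_lit 0x0)
  (PL.C (nat_lit 0x93dceaf9) (nat_lit 0x1532bbe5694e3) (nat_lit 0x0)
  (PL.C (nat_lit 0x946bd64b) (nat_lit 0x0) (nat_lit 0x3b57c4f8653b3c)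
  (PL.C (nat_lit 0x94785ff9) (nat_lit 0x0) (nat_lit 0x11baf4e7b47aa2)
  (PL.C (nat_lit 0x9481a6a9) (nat_lit 0x64c8731974536) (nat_lit 0x0)
  (PL.C (nat_lit 0x94ce3479) (nat_lit 0x0) (nat_lit 0x682626c1322b1)
  (PL.C (nat_lit 0x9506e3f7) (nat_lit 0x0) (nat_lit 0xad39ec61b1b0cb)
  (PL.C (nat_lit 0x952d13c3) (nat_lit 0x43be2c88b929b5) (nat_lit 0x0)
  (PL.C (nat_lit 0x9576237b) (nat_lit 0x0) (nat_lit 0x1c41b0036e8df5)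
  (PL.C (nat_lit 0x95c8eb4f) (nat_lit 0x16eb9d1afadfb) (nat_lit 0x0)
  (PL.C (nat_lit 0x961c489d) (nat_lit 0x0) (nat_lit 0x35d60f5bd00ab)
  (PL.C (nat_lit 0x9738480a) (nat_lit 0x0) (nat_lit 0x2676baafefe01)
  (PL.C (nat_lit 0x97796b23) (nat_lit 0x107ba3f3b401de) (nat_lit 0x0)
  (PL.C (nat_lit 0x97cc6b85) (nat_lit 0x0) (nat_lit 0x25bceff2c88190)
  (PL.C (nat_lit 0x98625901) (nat_lit 0x28d9dcbddd5a47) (nat_lit 0x0)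
  (PL.C (nat_lit 0x991f778b) (nat_lit 0x0) (nat_lit 0xca0844de90c931)
  (PL.C (nat_lit 0x997c1eba) (nat_lit 0x0) (nat_lit 0x2aa69b168474d) gp2_1_156))))))))))))))))))))

noncomputable def gp2_1_154 : PL :=
  (PL.C (nat_lit 0x8a977007) (nat_lit 0xc4879637109d6) (nat_lit 0x0)
  (PL.C (nat_lit 0x8ae05de1) (nat_lit 0xbc9875ae983cc) (nat_lit 0x0)
  (PL.C (nat_lit 0x8b7172e5) (nat_lit 0x0) (nat_lit 0x2b3a677a4516)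
  (PL.C (nat_lit 0x8b745786) (nat_lit 0x179b71cd0a077) (nat_lit 0x0)
  (PL.C (nat_lit 0x8c0bdf11) (nat_lit 0x0) (nat_lit 0x1faff13df71740)
  (PL.C (nat_lit 0x8cf35dff) (nat_lit 0x79001efe65db7) (nat_lit 0x0)
  (PL.C (nat_lit 0x8dbacf19) (nat_lit 0x0) (nat_lit 0x6d5de9de2ae7b7)
  (PL.C (nat_lit 0x8e534529) (nat_lit 0x6ac934c3f1dee) (nat_lit 0x0)
  (PL.C (nat_lit 0x8ec9d725) (nat_lit 0x29e360300f907e) (nat_lit 0x0)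
  (PL.C (nat_lit 0x900481f3) (nat_lit 0x24b83926de75ac) (nat_lit 0x0)
  (PL.C (nat_lit 0x90366b12) (nat_lit 0xb5d844f5be715) (nat_lit 0x0)
  (PL.C (nat_lit 0x90ed597d) (nat_lit 0x3dadf66534cbcb) (nat_lit 0x0)
  (PL.C (nat_lit 0x918394ab) (nat_lit 0x0) (nat_lit 0x1188fe402d8b6f)
  (PL.C (nat_lit 0x91931609) (nat_lit 0x0) (nat_lit 0x76340c852553f8)
  (PL.C (nat_lit 0x9194a4df) (nat_lit 0x0) (nat_lit 0x660089f5209b6)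
  (PL.C (nat_lit 0x92201cdb) (nat_lit 0x0) (nat_lit 0x650e127aab499)
  (PL.C (nat_lit 0x922cbadb) (nat_lit 0x1e2402b2f381f2b) (nat_lit 0x0)
  (PL.C (nat_lit 0x92509eb1) (nat_lit 0x0) (nat_lit 0x12f70098f57ab6)
  (PL.C (nat_lit 0x9299d94f) (nat_lit 0x11c1480d055168) (nat_lit 0x0)
  (PL.C (nat_lit 0x92d576e9) (nat_lit 0x591924071c7368) (nat_lit 0x0) gp2_1_155))))))))))))))))))))

noncomputable def gp2_1_153 : PL :=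
  (PL.C (nat_lit 0x864b5c8b) (nat_lit 0x2b38d1919da15a) (nat_lit 0x0)
  (PL.C (nat_lit 0x866311d1) (nat_lit 0x0) (nat_lit 0xb980f4c55c8f)
  (PL.C (nat_lit 0x86ee5ff7) (nat_lit 0xbee8f4a0ace12) (nat_lit 0x0)
  (PL.C (nat_lit 0x86fe327b) (nat_lit 0x0) (nat_lit 0xa92e62174b201)
  (PL.C (nat_lit 0x8731e809) (nat_lit 0x0) (nat_lit 0x146a791e44ba04)
  (PL.C (nat_lit 0x8756c435) (nat_lit 0x1e9c922786e75c) (nat_lit 0x0)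
  (PL.C (nat_lit 0x8771a8f6) (nat_lit 0x2f1f861ab65d6) (nat_lit 0x0)
  (PL.C (nat_lit 0x878b38e7) (nat_lit 0x0) (nat_lit 0x432354ef30206a)
  (PL.C (nat_lit 0x87d11817) (nat_lit 0x0) (nat_lit 0xf3445c061c23f)
  (PL.C (nat_lit 0x8808e237) (nat_lit 0x0) (nat_lit 0x1de1ce9d285b4)
  (PL.C (nat_lit 0x8827af6d) (nat_lit 0x0) (nat_lit 0x3898c846fd7edc)
  (PL.C (nat_lit 0x88367b1b) (nat_lit 0x0) (nat_lit 0x99aa104b5146)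
  (PL.C (nat_lit 0x885bd6ef) (nat_lit 0x0) (nat_lit 0xb632465661075)
  (PL.C (nat_lit 0x88b5eca1) (nat_lit 0x877f46cf50b74) (nat_lit 0x0)
  (PL.C (nat_lit 0x895db60d) (nat_lit 0x343a71a3a0bbe5) (nat_lit 0x0)
  (PL.C (nat_lit 0x89d538bd) (nat_lit 0x2fb99676dc16a9) (nat_lit 0x0)
  (PL.C (nat_lit 0x89fc470f) (nat_lit 0x0) (nat_lit 0x78a1366566cb)
  (PL.C (nat_lit 0x8a006d69) (nat_lit 0x2058162ddff3a3) (nat_lit 0x0)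
  (PL.C (nat_lit 0x8a40c6c3) (nat_lit 0x0) (nat_lit 0x5c932bcad6827)
  (PL.C (nat_lit 0x8a8c6dcb) (nat_lit 0x2c94d74f394f66) (nat_lit 0x0) gp2_1_154))))))))))))))))))))

noncomputable def gp2_1_152 : PL :=
  (PL.C (nat_lit 0x7f297669) (nat_lit 0x3bc989c5419f2ee) (nat_lit 0x0)
  (PL.C (nat_lit 0x7f482eda) (nat_lit 0x41d1dc484b6ad) (nat_lit 0x0)
  (PL.C (nat_lit 0x7f954b8e) (nat_lit 0x9569247ff03c0) (nat_lit 0x0)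
  (PL.C (nat_lit 0x7fa9d721) (nat_lit 0x0) (nat_lit 0x13fbebf4227956)
  (PL.C (nat_lit 0x7fcf0611) (nat_lit 0x44fc08703f662) (nat_lit 0x0)
  (PL.C (nat_lit 0x803d34eb) (nat_lit 0x0) (nat_lit 0x13268fc4a7e945)
  (PL.C (nat_lit 0x80bc0a45) (nat_lit 0x0) (nat_lit 0x3849b07ebc3dda)
  (PL.C (nat_lit 0x80c32d17) (nat_lit 0x0) (nat_lit 0x1587ae217ea416)
  (PL.C (nat_lit 0x8236f94b) (nat_lit 0x7030c331a1ea6) (nat_lit 0x0)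
  (PL.C (nat_lit 0x839ff00e) (nat_lit 0x8cc8cfbc10e2c) (nat_lit 0x0)
  (PL.C (nat_lit 0x83add5a3) (nat_lit 0x0) (nat_lit 0xc04e65b3dc982)
  (PL.C (nat_lit 0x83f96ead) (nat_lit 0xbee8f4a0ace12) (nat_lit 0x0)
  (PL.C (nat_lit 0x8417ddca) (nat_lit 0x0) (nat_lit 0x43e56aec2fd5)
  (PL.C (nat_lit 0x84676119) (nat_lit 0xb0caa5aba6444) (nat_lit 0x0)
  (PL.C (nat_lit 0x84aba1e9) (nat_lit 0x1e9c922786e75c) (nat_lit 0x0)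
  (PL.C (nat_lit 0x84d00505) (nat_lit 0x0) (nat_lit 0x1df2832dd48b28)
  (PL.C (nat_lit 0x85245116) (nat_lit 0x3e10800c54ee3) (nat_lit 0x0)
  (PL.C (nat_lit 0x858b295f) (nat_lit 0xb0caa5aba6444) (nat_lit 0x0)
  (PL.C (nat_lit 0x863f965f) (nat_lit 0x0) (nat_lit 0x3b57c4f8653b3c)
  (PL.C (nat_lit 0x8649b9ba) (nat_lit 0x0) (nat_lit 0x1cdad23f344010) gp2_1_153))))))))))))))))))))

noncomputable def gp2_1_151 : PL :=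
  (PL.C (nat_lit 0x7978739f) (nat_lit 0xbc9875ae983cc) (nat_lit 0x0)
  (PL.C (nat_lit 0x797c0a77) (nat_lit 0x0) (nat_lit 0x35018c22f59f0)
  (PL.C (nat_lit 0x79f06cd3) (nat_lit 0x7832c3b3ba940a) (nat_lit 0x0)
  (PL.C (nat_lit 0x79fab9d1) (nat_lit 0x0) (nat_lit 0x25343b54e3dc4)
  (PL.C (nat_lit 0x7a1a35cf) (nat_lit 0x0) (nat_lit 0x37c378fb40307f)
  (PL.C (nat_lit 0x7a575231) (nat_lit 0x751c89e981a2) (nat_lit 0x0)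
  (PL.C (nat_lit 0x7a87c291) (nat_lit 0x0) (nat_lit 0x35018c22f59f0)
  (PL.C (nat_lit 0x7b274a79) (nat_lit 0x26f9d0c8fd35aa) (nat_lit 0x0)
  (PL.C (nat_lit 0x7b5fad5a) (nat_lit 0xb5d844f5be715) (nat_lit 0x0)
  (PL.C (nat_lit 0x7b64ed87) (nat_lit 0x2f4f34aa85ea20) (nat_lit 0x0)
  (PL.C (nat_lit 0x7c74db01) (nat_lit 0xd7e83446d3aab) (nat_lit 0x0)
  (PL.C (nat_lit 0x7c870b57) (nat_lit 0x0) (nat_lit 0x7eb9a8cc0d028)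
  (PL.C (nat_lit 0x7cba6e05) (nat_lit 0x0) (nat_lit 0xad39ec61b1b0cb)
  (PL.C (nat_lit 0x7ccf2313) (nat_lit 0x0) (nat_lit 0x382282cf4cebd)
  (PL.C (nat_lit 0x7d9d721d) (nat_lit 0x28c341218e672a) (nat_lit 0x0)
  (PL.C (nat_lit 0x7dc78ce9) (nat_lit 0x0) (nat_lit 0x364092ea5fc082)
  (PL.C (nat_lit 0x7dcd4c13) (nat_lit 0x0) (nat_lit 0x126f67cbf635340)
  (PL.C (nat_lit 0x7e242a33) (nat_lit 0x17b72619da839) (nat_lit 0x0)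
  (PL.C (nat_lit 0x7e3214f6) (nat_lit 0x846a8fb9e1e4b) (nat_lit 0x0)
  (PL.C (nat_lit 0x7eb775d1) (nat_lit 0x0) (nat_lit 0x2cc1840101030) gp2_1_152))))))))))))))))))))

noncomputable def gp2_1_150 : PL :=
  (PL.C (nat_lit 0x736671d6) (nat_lit 0x0) (nat_lit 0x33dd203499981)
  (PL.C (nat_lit 0x73a83779) (nat_lit 0x0) (nat_lit 0x72e0505c1a342)
  (PL.C (nat_lit 0x73e3d649) (nat_lit 0x0) (nat_lit 0xe58abc35617088)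
  (PL.C (nat_lit 0x73fe527f) (nat_lit 0x280f7a612f8e3d) (nat_lit 0x0)
  (PL.C (nat_lit 0x746986ae) (nat_lit 0x574f610990566) (nat_lit 0x0)
  (PL.C (nat_lit 0x747ab8f1) (nat_lit 0x0) (nat_lit 0x4dff3558ace4f)
  (PL.C (nat_lit 0x747eb2cd) (nat_lit 0x0) (nat_lit 0x1a73c5c09890b8)
  (PL.C (nat_lit 0x748527ef) (nat_lit 0x0) (nat_lit 0x1151b89247b33)
  (PL.C (nat_lit 0x74a717ff) (nat_lit 0x0) (nat_lit 0xbe264a76202)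
  (PL.C (nat_lit 0x750ba8c5) (nat_lit 0x7015eab1032340) (nat_lit 0x0)
  (PL.C (nat_lit 0x7585ef59) (nat_lit 0xc890e6fd99337) (nat_lit 0x0)
  (PL.C (nat_lit 0x76389115) (nat_lit 0x0) (nat_lit 0x970cd3b971016c)
  (PL.C (nat_lit 0x76c49ad1) (nat_lit 0x2524f4616964f1) (nat_lit 0x0)
  (PL.C (nat_lit 0x76cea33b) (nat_lit 0x0) (nat_lit 0x11baf4e7b47aa2)
  (PL.C (nat_lit 0x76fbfc3b) (nat_lit 0x8d46a733caef1) (nat_lit 0x0)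
  (PL.C (nat_lit 0x7723de0f) (nat_lit 0x0) (nat_lit 0x148410a8f2a0c0)
  (PL.C (nat_lit 0x775f3cb9) (nat_lit 0x43be2c88b929b5) (nat_lit 0x0)
  (PL.C (nat_lit 0x779afb47) (nat_lit 0x0) (nat_lit 0x554e6d27106c9)
  (PL.C (nat_lit 0x7862568a) (nat_lit 0x1b0750a4d3431) (nat_lit 0x0)
  (PL.C (nat_lit 0x78a28f41) (nat_lit 0x232f1d2b53b90) (nat_lit 0x0) gp2_1_151))))))))))))))))))))

noncomputable def gp2_1_149 : PL :=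
  (PL.C (nat_lit 0x6f215173) (nat_lit 0x0) (nat_lit 0x275217d2415d97)
  (PL.C (nat_lit 0x6f71ca21) (nat_lit 0x289e64a9443e7e) (nat_lit 0x0)
  (PL.C (nat_lit 0x6fdc8e25) (nat_lit 0x64c8731974536) (nat_lit 0x0)
  (PL.C (nat_lit 0x6ffe994d) (nat_lit 0x0) (nat_lit 0x6cdca27d1c643)
  (PL.C (nat_lit 0x7010fc03) (nat_lit 0x0) (nat_lit 0x5099f6abe34498)
  (PL.C (nat_lit 0x70242359) (nat_lit 0x0) (nat_lit 0x10a1532365420e)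
  (PL.C (nat_lit 0x70676217) (nat_lit 0x0) (nat_lit 0x565129543bf68)
  (PL.C (nat_lit 0x70a2e43b) (nat_lit 0xd4dffb782ab9) (nat_lit 0x0)
  (PL.C (nat_lit 0x70db43c5) (nat_lit 0x0) (nat_lit 0x2b3a677a4516)
  (PL.C (nat_lit 0x711223bf) (nat_lit 0x44fc08703f662) (nat_lit 0x0)
  (PL.C (nat_lit 0x715d89f7) (nat_lit 0x0) (nat_lit 0xa5677fcd9fdd8)
  (PL.C (nat_lit 0x71d22211) (nat_lit 0x16b91c06314e43) (nat_lit 0x0)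
  (PL.C (nat_lit 0x71d3f853) (nat_lit 0x0) (nat_lit 0x5c932bcad6827)
  (PL.C (nat_lit 0x7255853b) (nat_lit 0x7b682b6492dbd6) (nat_lit 0x0)
  (PL.C (nat_lit 0x72a688b3) (nat_lit 0x0) (nat_lit 0x70a09e5dcdf33c)
  (PL.C (nat_lit 0x72ccf6a7) (nat_lit 0x435756f768fb6c) (nat_lit 0x0)
  (PL.C (nat_lit 0x72fc1ec7) (nat_lit 0x0) (nat_lit 0x412bc58a2dddf)
  (PL.C (nat_lit 0x730eff29) (nat_lit 0x8d46a733caef1) (nat_lit 0x0)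
  (PL.C (nat_lit 0x7322a96b) (nat_lit 0x0) (nat_lit 0x9a2f7729c7556)
  (PL.C (nat_lit 0x73258027) (nat_lit 0x71dc94e39ddef5) (nat_lit 0x0) gp2_1_150))))))))))))))))))))

noncomputable def gp2_1_148 : PL :=
  (PL.C (nat_lit 0x686da7c6) (nat_lit 0x0) (nat_lit 0xa777e1fc7ec82)
  (PL.C (nat_lit 0x68dc0709) (nat_lit 0x0) (nat_lit 0xee946e56a3826)
  (PL.C (nat_lit 0x6953c98a) (nat_lit 0x8fa1e9621eff5) (nat_lit 0x0)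
  (PL.C (nat_lit 0x695ee859) (nat_lit 0x6c4492ba9e29e1) (nat_lit 0x0)
  (PL.C (nat_lit 0x69de6871) (nat_lit 0x9ced12465c358) (nat_lit 0x0)
  (PL.C (nat_lit 0x6a09e551) (nat_lit 0xa5b867bdf7f4) (nat_lit 0x0)
  (PL.C (nat_lit 0x6a2d704d) (nat_lit 0x624ad01ffd23e5) (nat_lit 0x0)
  (PL.C (nat_lit 0x6a4ff31f) (nat_lit 0xf329a2a4261da) (nat_lit 0x0)
  (PL.C (nat_lit 0x6ab0d0ad) (nat_lit 0x16b522093d8c34) (nat_lit 0x0)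
  (PL.C (nat_lit 0x6b377592) (nat_lit 0x0) (nat_lit 0x59ddacb629c88)
  (PL.C (nat_lit 0x6b6d3f4d) (nat_lit 0x0) (nat_lit 0x19e64c13862ade)
  (PL.C (nat_lit 0x6bd752ae) (nat_lit 0x9aa98c998d78) (nat_lit 0x0)
  (PL.C (nat_lit 0x6c05c661) (nat_lit 0x26f9d0c8fd35aa) (nat_lit 0x0)
  (PL.C (nat_lit 0x6c23bc5e) (nat_lit 0x0) (nat_lit 0x2aa69b168474d)
  (PL.C (nat_lit 0x6c3d75b1) (nat_lit 0x0) (nat_lit 0x382282cf4cebd)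
  (PL.C (nat_lit 0x6cf3d3d7) (nat_lit 0x0) (nat_lit 0x37c378fb40307f)
  (PL.C (nat_lit 0x6d4f04fa) (nat_lit 0x1c22bb954567) (nat_lit 0x0)
  (PL.C (nat_lit 0x6ddee149) (nat_lit 0xc6b4c43a8d9a53) (nat_lit 0x0)
  (PL.C (nat_lit 0x6debe9b7) (nat_lit 0x0) (nat_lit 0x70a09e5dcdf33c)
  (PL.C (nat_lit 0x6ee82583) (nat_lit 0x16eb9d1afadfb) (nat_lit 0x0) gp2_1_149))))))))))))))))))))

noncomputable def gp2_1_147 : PL :=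
  (PL.C (nat_lit 0x636cad71) (nat_lit 0x0) (nat_lit 0x60fd8e66d64a1d)
  (PL.C (nat_lit 0x63736282) (nat_lit 0x1359ef4a0f0940) (nat_lit 0x0)
  (PL.C (nat_lit 0x63cf031f) (nat_lit 0x0) (nat_lit 0x64c3dcd0e1595d)
  (PL.C (nat_lit 0x63db478a) (nat_lit 0xec0ebcfc501a2) (nat_lit 0x0)
  (PL.C (nat_lit 0x63df725b) (nat_lit 0x0) (nat_lit 0xf38bb38749c0d1)
  (PL.C (nat_lit 0x6447c847) (nat_lit 0x0) (nat_lit 0x56223b6e20c7d1)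
  (PL.C (nat_lit 0x646c4f8b) (nat_lit 0x0) (nat_lit 0x8f90bec309361)
  (PL.C (nat_lit 0x64aaf6a9) (nat_lit 0x0) (nat_lit 0x912a40d4df4b48)
  (PL.C (nat_lit 0x64fb9cc2) (nat_lit 0x8cc8cfbc10e2c) (nat_lit 0x0)
  (PL.C (nat_lit 0x65c1918b) (nat_lit 0xf31437fbf9fc63) (nat_lit 0x0)
  (PL.C (nat_lit 0x65ed5fb3) (nat_lit 0x414f22bde5a045) (nat_lit 0x0)
  (PL.C (nat_lit 0x6621eaa3) (nat_lit 0x1c8a181513236a) (nat_lit 0x0)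
  (PL.C (nat_lit 0x66630831) (nat_lit 0x0) (nat_lit 0x9b06877eae89a)
  (PL.C (nat_lit 0x668a405b) (nat_lit 0x4d98b8b04494f) (nat_lit 0x0)
  (PL.C (nat_lit 0x669e38b1) (nat_lit 0x406a8dc011d451) (nat_lit 0x0)
  (PL.C (nat_lit 0x66cdfe75) (nat_lit 0x0) (nat_lit 0x9a10172727052)
  (PL.C (nat_lit 0x670c46df) (nat_lit 0x2695e02d55b5d) (nat_lit 0x0)
  (PL.C (nat_lit 0x671abcc1) (nat_lit 0x13715873f353d) (nat_lit 0x0)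
  (PL.C (nat_lit 0x676a8d8f) (nat_lit 0xa4b3010845505b) (nat_lit 0x0)
  (PL.C (nat_lit 0x67d976e1) (nat_lit 0x0) (nat_lit 0x98d5b93a5e106) gp2_1_148))))))))))))))))))))

noncomputable def gp2_1_146 : PL :=
  (PL.C (nat_lit 0x602963bd) (nat_lit 0x0) (nat_lit 0x15178211c3f9e9)
  (PL.C (nat_lit 0x60840967) (nat_lit 0x1673d4142edc67) (nat_lit 0x0)
  (PL.C (nat_lit 0x60c86cbf) (nat_lit 0x7030c331a1ea6) (nat_lit 0x0)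
  (PL.C (nat_lit 0x60d3e3a3) (nat_lit 0x0) (nat_lit 0x6addd3fb969cb)
  (PL.C (nat_lit 0x60e8dd83) (nat_lit 0x0) (nat_lit 0x5841cc6fae28f7)
  (PL.C (nat_lit 0x61209b8d) (nat_lit 0x76118958297aa) (nat_lit 0x0)
  (PL.C (nat_lit 0x61338607) (nat_lit 0x25fa280f19d620) (nat_lit 0x0)
  (PL.C (nat_lit 0x61368715) (nat_lit 0x0) (nat_lit 0xca0844de90c931)
  (PL.C (nat_lit 0x618b1476) (nat_lit 0x75c423da6c6f) (nat_lit 0x0)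
  (PL.C (nat_lit 0x61b5189d) (nat_lit 0x0) (nat_lit 0x3898c846fd7edc)
  (PL.C (nat_lit 0x61d4472d) (nat_lit 0x0) (nat_lit 0x3b84e54ca3d4d3)
  (PL.C (nat_lit 0x61e5ff63) (nat_lit 0x19691a082eefc4) (nat_lit 0x0)
  (PL.C (nat_lit 0x61e776ad) (nat_lit 0x0) (nat_lit 0x78a1366566cb)
  (PL.C (nat_lit 0x61eaa2bb) (nat_lit 0x0) (nat_lit 0x151322ecff455c)
  (PL.C (nat_lit 0x61f511b9) (nat_lit 0xf3e7fd33e76dd3) (nat_lit 0x0)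
  (PL.C (nat_lit 0x624521e6) (nat_lit 0x1e7503c1b957a) (nat_lit 0x0)
  (PL.C (nat_lit 0x628c6abb) (nat_lit 0x0) (nat_lit 0xa92e62174b201)
  (PL.C (nat_lit 0x62bdbd45) (nat_lit 0x13d575797ecb10) (nat_lit 0x0)
  (PL.C (nat_lit 0x62faeaa6) (nat_lit 0x0) (nat_lit 0x77e729eb247ef)
  (PL.C (nat_lit 0x630119c6) (nat_lit 0x0) (nat_lit 0x1b759df8a7d39c) gp2_1_147))))))))))))))))))))

noncomputable def gp2_1_145 : PL :=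
  (PL.C (nat_lit 0x5bb77005) (nat_lit 0x2a4753147a579) (nat_lit 0x0)
  (PL.C (nat_lit 0x5bbe8e89) (nat_lit 0x343a71a3a0bbe5) (nat_lit 0x0)
  (PL.C (nat_lit 0x5c5921bf) (nat_lit 0x0) (nat_lit 0xb980f4c55c8f)
  (PL.C (nat_lit 0x5c64f55a) (nat_lit 0x2dde7c80c08ef1) (nat_lit 0x0)
  (PL.C (nat_lit 0x5c8cc1bb) (nat_lit 0x0) (nat_lit 0xbe264a76202)
  (PL.C (nat_lit 0x5c9c1f2d) (nat_lit 0x0) (nat_lit 0x33988024598310)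
  (PL.C (nat_lit 0x5cbc772b) (nat_lit 0x0) (nat_lit 0x9b5b95b83a03a8)
  (PL.C (nat_lit 0x5cca78d3) (nat_lit 0x0) (nat_lit 0xf3445c061c23f)
  (PL.C (nat_lit 0x5cdc8b19) (nat_lit 0x0) (nat_lit 0x5a25ef63707445)
  (PL.C (nat_lit 0x5d47bc93) (nat_lit 0x0) (nat_lit 0x96b887e9639a44)
  (PL.C (nat_lit 0x5d58b62d) (nat_lit 0x0) (nat_lit 0x72e0505c1a342)
  (PL.C (nat_lit 0x5da92f5f) (nat_lit 0x0) (nat_lit 0x165ecdaeb5d3b7)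
  (PL.C (nat_lit 0x5dcfa87f) (nat_lit 0x0) (nat_lit 0xff7a3bd924b4e)
  (PL.C (nat_lit 0x5def1a43) (nat_lit 0x6b6f7f193adc41) (nat_lit 0x0)
  (PL.C (nat_lit 0x5e99f94f) (nat_lit 0x0) (nat_lit 0xc41f3d7ffbfa14)
  (PL.C (nat_lit 0x5eaa247d) (nat_lit 0x0) (nat_lit 0x10a1532365420e)
  (PL.C (nat_lit 0x5f152467) (nat_lit 0x0) (nat_lit 0x65cf1b3e4b859)
  (PL.C (nat_lit 0x5f5748ab) (nat_lit 0x0) (nat_lit 0x24e127bec41958)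
  (PL.C (nat_lit 0x5fc556d9) (nat_lit 0x0) (nat_lit 0x384614cce1fb35)
  (PL.C (nat_lit 0x60152015) (nat_lit 0x734bc027b6d11) (nat_lit 0x0) gp2_1_146))))))))))))))))))))

noncomputable def gp2_1_144 : PL :=
  (PL.C (nat_lit 0x58603d8d) (nat_lit 0x0) (nat_lit 0x98e5a7872a2a2)
  (PL.C (nat_lit 0x586af0e5) (nat_lit 0x0) (nat_lit 0x565129543bf68)
  (PL.C (nat_lit 0x58848aed) (nat_lit 0x0) (nat_lit 0x6d2b53973db61)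
  (PL.C (nat_lit 0x58a23679) (nat_lit 0x8e138b0c98cd) (nat_lit 0x0)
  (PL.C (nat_lit 0x590770ea) (nat_lit 0xfa7b1bb2ec8c) (nat_lit 0x0)
  (PL.C (nat_lit 0x592dca33) (nat_lit 0x289e64a9443e7e) (nat_lit 0x0)
  (PL.C (nat_lit 0x595ea7f5) (nat_lit 0x0) (nat_lit 0x15264536acfd51)
  (PL.C (nat_lit 0x59976136) (nat_lit 0x0) (nat_lit 0x116518c8a1e5d8)
  (PL.C (nat_lit 0x59f43ffa) (nat_lit 0x151ceb86d681a4) (nat_lit 0x0)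
  (PL.C (nat_lit 0x59fecc52) (nat_lit 0x0) (nat_lit 0x4ca41b620ec62)
  (PL.C (nat_lit 0x5a55fe2f) (nat_lit 0x0) (nat_lit 0xffb1ff3205b162)
  (PL.C (nat_lit 0x5a5cd09a) (nat_lit 0x0) (nat_lit 0x4dd64b37486d0d)
  (PL.C (nat_lit 0x5ab6e041) (nat_lit 0x8dcc23436f40c) (nat_lit 0x0)
  (PL.C (nat_lit 0x5ac51f9e) (nat_lit 0x0) (nat_lit 0xa28185679db0e)
  (PL.C (nat_lit 0x5ac74e8f) (nat_lit 0x877f46cf50b74) (nat_lit 0x0)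
  (PL.C (nat_lit 0x5af61a3f) (nat_lit 0x2c94d74f394f66) (nat_lit 0x0)
  (PL.C (nat_lit 0x5b23f316) (nat_lit 0x0) (nat_lit 0x1373e28663e16a)
  (PL.C (nat_lit 0x5b5f1a35) (nat_lit 0x180262b2a01181) (nat_lit 0x0)
  (PL.C (nat_lit 0x5b7dbaa1) (nat_lit 0x0) (nat_lit 0x162629b00975ec)
  (PL.C (nat_lit 0x5b8f5bb9) (nat_lit 0x0) (nat_lit 0x432354ef30206a) gp2_1_145))))))))))))))))))))

noncomputable def gp2_1_143 : PL :=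
  (PL.C (nat_lit 0x54b9ee69) (nat_lit 0x0) (nat_lit 0x33988024598310)
  (PL.C (nat_lit 0x54da62c3) (nat_lit 0x927928d46b676) (nat_lit 0x0)
  (PL.C (nat_lit 0x54e6ad7d) (nat_lit 0x379143640b05eb) (nat_lit 0x0)
  (PL.C (nat_lit 0x5512718d) (nat_lit 0x15da22010233ad) (nat_lit 0x0)
  (PL.C (nat_lit 0x5534aeb6) (nat_lit 0x0) (nat_lit 0x1c3eb62962c1c5)
  (PL.C (nat_lit 0x55914419) (nat_lit 0x154314f4d0a377f) (nat_lit 0x0)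
  (PL.C (nat_lit 0x55a1c6db) (nat_lit 0x0) (nat_lit 0xc354714378002)
  (PL.C (nat_lit 0x560adfbf) (nat_lit 0x12a03b453b1537) (nat_lit 0x0)
  (PL.C (nat_lit 0x56373a6f) (nat_lit 0x12a58d3befaa222) (nat_lit 0x0)
  (PL.C (nat_lit 0x56542073) (nat_lit 0x0) (nat_lit 0x189c1b4fa0113a)
  (PL.C (nat_lit 0x56a02935) (nat_lit 0x0) (nat_lit 0x96c564a6868767)
  (PL.C (nat_lit 0x56c87d09) (nat_lit 0x1019607afd752) (nat_lit 0x0)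
  (PL.C (nat_lit 0x56fd109b) (nat_lit 0xd4dffb782ab9) (nat_lit 0x0)
  (PL.C (nat_lit 0x571a38ef) (nat_lit 0x0) (nat_lit 0xa2da002130e48)
  (PL.C (nat_lit 0x574ca60b) (nat_lit 0x0) (nat_lit 0x162629b00975ec)
  (PL.C (nat_lit 0x579f255b) (nat_lit 0x2b2c2cd2c6e8fa) (nat_lit 0x0)
  (PL.C (nat_lit 0x57b8aaab) (nat_lit 0x2bb8c816c61bd2) (nat_lit 0x0)
  (PL.C (nat_lit 0x57fb9f1e) (nat_lit 0x0) (nat_lit 0xb46f1f9144cf7)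
  (PL.C (nat_lit 0x58044a69) (nat_lit 0x0) (nat_lit 0x429e746bf8d50c)
  (PL.C (nat_lit 0x5844eb66) (nat_lit 0x0) (nat_lit 0x1e062a8615ce39) gp2_1_144))))))))))))))))))))

noncomputable def gp2_1_142 : PL :=
  (PL.C (nat_lit 0x508a6e3f) (nat_lit 0x0) (nat_lit 0x9a48cd3cf63031)
  (PL.C (nat_lit 0x5151d136) (nat_lit 0x0) (nat_lit 0x255ae1d04aa44)
  (PL.C (nat_lit 0x5166ce8a) (nat_lit 0x0) (nat_lit 0xd74781622f06e)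
  (PL.C (nat_lit 0x51bcd76f) (nat_lit 0x4dc0ec3550e7b) (nat_lit 0x0)
  (PL.C (nat_lit 0x520d9263) (nat_lit 0x6f6e81e49d7cbc) (nat_lit 0x0)
  (PL.C (nat_lit 0x521a31a6) (nat_lit 0x11ea8eff412e52) (nat_lit 0x0)
  (PL.C (nat_lit 0x527367c1) (nat_lit 0x0) (nat_lit 0x4b6ab47e235e55)
  (PL.C (nat_lit 0x52a57821) (nat_lit 0x0) (nat_lit 0xae4de5bedafef)
  (PL.C (nat_lit 0x52b0f45d) (nat_lit 0x0) (nat_lit 0x57de4e3df69604)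
  (PL.C (nat_lit 0x52c12bdd) (nat_lit 0x1673d4142edc67) (nat_lit 0x0)
  (PL.C (nat_lit 0x5304b23a) (nat_lit 0x0) (nat_lit 0xa891c9a257cbd)
  (PL.C (nat_lit 0x5319ec73) (nat_lit 0x9d239cbcec8d3) (nat_lit 0x0)
  (PL.C (nat_lit 0x53ce09f5) (nat_lit 0x101c55e247fe4c) (nat_lit 0x0)
  (PL.C (nat_lit 0x53fe7c75) (nat_lit 0x22c433df96dc71) (nat_lit 0x0)
  (PL.C (nat_lit 0x54181c22) (nat_lit 0x574f610990566) (nat_lit 0x0)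
  (PL.C (nat_lit 0x541e5349) (nat_lit 0x0) (nat_lit 0x147a7437fc8524)
  (PL.C (nat_lit 0x542d2ceb) (nat_lit 0x0) (nat_lit 0xc354714378002)
  (PL.C (nat_lit 0x5458915b) (nat_lit 0x0) (nat_lit 0x3c5e6400f5367)
  (PL.C (nat_lit 0x545f7187) (nat_lit 0x9f27c6987e116a) (nat_lit 0x0)
  (PL.C (nat_lit 0x54b79623) (nat_lit 0x1375bb5ee67567) (nat_lit 0x0) gp2_1_143))))))))))))))))))))

noncomputable def gp2_1_141 : PL :=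
  (PL.C (nat_lit 0x4e62e47b) (nat_lit 0x0) (nat_lit 0xd003efdec003c4)
  (PL.C (nat_lit 0x4e63bb3d) (nat_lit 0x1a46944b3fe3f76) (nat_lit 0x0)
  (PL.C (nat_lit 0x4eae936f) (nat_lit 0x0) (nat_lit 0x2233e5b57dcc3)
  (PL.C (nat_lit 0x4eb59fb1) (nat_lit 0x865828fed09eb7) (nat_lit 0x0)
  (PL.C (nat_lit 0x4ebe381f) (nat_lit 0x592a75eae555a) (nat_lit 0x0)
  (PL.C (nat_lit 0x4ed5f491) (nat_lit 0x22ba72897c983) (nat_lit 0x0)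
  (PL.C (nat_lit 0x4f107b1b) (nat_lit 0x1e753fc5fb508cf) (nat_lit 0x0)
  (PL.C (nat_lit 0x4f346cd2) (nat_lit 0x0) (nat_lit 0x77e729eb247ef)
  (PL.C (nat_lit 0x4f4b808f) (nat_lit 0x0) (nat_lit 0x2658ee4cc3998b)
  (PL.C (nat_lit 0x4f5f38eb) (nat_lit 0x0) (nat_lit 0xa529cf9e9aed7)
  (PL.C (nat_lit 0x4f631407) (nat_lit 0x16cc0da8fe5f45) (nat_lit 0x0)
  (PL.C (nat_lit 0x4f83b027) (nat_lit 0x4cd8b535a30fb) (nat_lit 0x0)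
  (PL.C (nat_lit 0x4f8f7523) (nat_lit 0x0) (nat_lit 0x34220549ab5a68)
  (PL.C (nat_lit 0x4f94d326) (nat_lit 0x95ff05ec63974) (nat_lit 0x0)
  (PL.C (nat_lit 0x4f9caa85) (nat_lit 0x0) (nat_lit 0x2e3e3e442b7be4)
  (PL.C (nat_lit 0x4feb4c01) (nat_lit 0x0) (nat_lit 0xbba07e82508c20)
  (PL.C (nat_lit 0x4ff20c4b) (nat_lit 0x0) (nat_lit 0xfdd4a54ca4974)
  (PL.C (nat_lit 0x503ec985) (nat_lit 0xf08fb58ad8c4f) (nat_lit 0x0)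
  (PL.C (nat_lit 0x50535969) (nat_lit 0x1a68e4c4ad47b6) (nat_lit 0x0)
  (PL.C (nat_lit 0x505fbfe5) (nat_lit 0x0) (nat_lit 0xa24586fb836f3) gp2_1_142))))))))))))))))))))

noncomputable def gp2_1_140 : PL :=
  (PL.C (nat_lit 0x4aef96ba) (nat_lit 0xa1575f9aee389) (nat_lit 0x0)
  (PL.C (nat_lit 0x4b1742d2) (nat_lit 0x4d1316c9a3c9b) (nat_lit 0x0)
  (PL.C (nat_lit 0x4b616d2a) (nat_lit 0x0) (nat_lit 0x549882e02af9cc)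
  (PL.C (nat_lit 0x4b68da93) (nat_lit 0x0) (nat_lit 0x65474787c1f70f)
  (PL.C (nat_lit 0x4c3f78bd) (nat_lit 0x71dc94e39ddef5) (nat_lit 0x0)
  (PL.C (nat_lit 0x4c41f12b) (nat_lit 0x1f472744186ac9) (nat_lit 0x0)
  (PL.C (nat_lit 0x4c50e5ab) (nat_lit 0x592a75eae555a) (nat_lit 0x0)
  (PL.C (nat_lit 0x4ca2be85) (nat_lit 0x0) (nat_lit 0x9b06877eae89a)
  (PL.C (nat_lit 0x4ca2fddb) (nat_lit 0x0) (nat_lit 0x1a1fee8f379649)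
  (PL.C (nat_lit 0x4cc9197b) (nat_lit 0x0) (nat_lit 0xe71951dc2b877)
  (PL.C (nat_lit 0x4ce2d64f) (nat_lit 0x0) (nat_lit 0x5841cc6fae28f7)
  (PL.C (nat_lit 0x4d1acfa6) (nat_lit 0x6bd64fa754428c) (nat_lit 0x0)
  (PL.C (nat_lit 0x4d3b96e5) (nat_lit 0xa4b3010845505b) (nat_lit 0x0)
  (PL.C (nat_lit 0x4d72506d) (nat_lit 0x878349f684256) (nat_lit 0x0)
  (PL.C (nat_lit 0x4d8c45f9) (nat_lit 0x734bc027b6d11) (nat_lit 0x0)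
  (PL.C (nat_lit 0x4da725f6) (nat_lit 0x2d1c1110b4ab5) (nat_lit 0x0)
  (PL.C (nat_lit 0x4dc4baaa) (nat_lit 0x388884dcb5d516) (nat_lit 0x0)
  (PL.C (nat_lit 0x4e09a657) (nat_lit 0x18438e4f971d61) (nat_lit 0x0)
  (PL.C (nat_lit 0x4e48a717) (nat_lit 0x37c6ee05e9939) (nat_lit 0x0)
  (PL.C (nat_lit 0x4e5a8b21) (nat_lit 0x0) (nat_lit 0x384614cce1fb35) gp2_1_141))))))))))))))))))))

noncomputable def gp2_1_139 : PL :=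
  (PL.C (nat_lit 0x48b04291) (nat_lit 0x0) (nat_lit 0x4d593971a38e92)
  (PL.C (nat_lit 0x48c78e6b) (nat_lit 0x1c8a181513236a) (nat_lit 0x0)
  (PL.C (nat_lit 0x48cc1a7b) (nat_lit 0x0) (nat_lit 0x15178211c3f9e9)
  (PL.C (nat_lit 0x48dff37f) (nat_lit 0x0) (nat_lit 0x5166c0bdc65532)
  (PL.C (nat_lit 0x48fc3255) (nat_lit 0x0) (nat_lit 0x1fdbafc15a7f8b)
  (PL.C (nat_lit 0x49042abb) (nat_lit 0x0) (nat_lit 0x2d58ae27d48e37)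
  (PL.C (nat_lit 0x492022c9) (nat_lit 0x30245b348e348d) (nat_lit 0x0)
  (PL.C (nat_lit 0x4921d1e5) (nat_lit 0x0) (nat_lit 0x17853e526e97e3)
  (PL.C (nat_lit 0x493fdc45) (nat_lit 0x0) (nat_lit 0x17ca79b8311a2)
  (PL.C (nat_lit 0x49507227) (nat_lit 0x0) (nat_lit 0xc32c6c0dab0daa)
  (PL.C (nat_lit 0x496c876d) (nat_lit 0x0) (nat_lit 0x24e127bec41958)
  (PL.C (nat_lit 0x499d0943) (nat_lit 0x0) (nat_lit 0xa75320768aede)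
  (PL.C (nat_lit 0x49f01902) (nat_lit 0xec0ebcfc501a2) (nat_lit 0x0)
  (PL.C (nat_lit 0x49f76207) (nat_lit 0xa590f12e78804) (nat_lit 0x0)
  (PL.C (nat_lit 0x4a37bc17) (nat_lit 0x6f6e81e49d7cbc) (nat_lit 0x0)
  (PL.C (nat_lit 0x4a4bdc16) (nat_lit 0x0) (nat_lit 0x10a109c31d585c)
  (PL.C (nat_lit 0x4a4cc3cd) (nat_lit 0x0) (nat_lit 0xaa2949b47a653)
  (PL.C (nat_lit 0x4a8754d9) (nat_lit 0x16b522093d8c34) (nat_lit 0x0)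
  (PL.C (nat_lit 0x4a93096e) (nat_lit 0x0) (nat_lit 0x1b759df8a7d39c)
  (PL.C (nat_lit 0x4a9a6281) (nat_lit 0x2c57d08d7ddb97) (nat_lit 0x0) gp2_1_140))))))))))))))))))))

noncomputable def gp2_1_138 : PL :=
  (PL.C (nat_lit 0x46dff76a) (nat_lit 0x7f6006ce68a71) (nat_lit 0x0)
  (PL.C (nat_lit 0x46e77309) (nat_lit 0x1acc400a5e7e75f) (nat_lit 0x0)
  (PL.C (nat_lit 0x471027e7) (nat_lit 0xcbcbadac019e2) (nat_lit 0x0)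
  (PL.C (nat_lit 0x47208b1e) (nat_lit 0x0) (nat_lit 0x75916607d9b8e)
  (PL.C (nat_lit 0x47337e07) (nat_lit 0x0) (nat_lit 0x9e91e224e26ae)
  (PL.C (nat_lit 0x47394be3) (nat_lit 0x9f27c6987e116a) (nat_lit 0x0)
  (PL.C (nat_lit 0x474b5bab) (nat_lit 0x1d7423db6aedfc) (nat_lit 0x0)
  (PL.C (nat_lit 0x47701c1b) (nat_lit 0x15399d48cc588d) (nat_lit 0x0)
  (PL.C (nat_lit 0x4783b3ef) (nat_lit 0x19060457f71f5ba) (nat_lit 0x0)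
  (PL.C (nat_lit 0x479da7d9) (nat_lit 0x0) (nat_lit 0x621a11ebcfd4f7)
  (PL.C (nat_lit 0x47b91693) (nat_lit 0x1ada356aad2d98) (nat_lit 0x0)
  (PL.C (nat_lit 0x47d06681) (nat_lit 0x3e5b81f234140a) (nat_lit 0x0)
  (PL.C (nat_lit 0x47e878bd) (nat_lit 0x64a3b981dd9a1) (nat_lit 0x0)
  (PL.C (nat_lit 0x4803d996) (nat_lit 0xc214ba9576685) (nat_lit 0x0)
  (PL.C (nat_lit 0x48499fbd) (nat_lit 0x0) (nat_lit 0x21dc644b48e58be)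
  (PL.C (nat_lit 0x484ff6c1) (nat_lit 0x92c385454b067) (nat_lit 0x0)
  (PL.C (nat_lit 0x485cbad3) (nat_lit 0x0) (nat_lit 0x4668f813e5e03)
  (PL.C (nat_lit 0x48972693) (nat_lit 0x2f109d6afe12fd) (nat_lit 0x0)
  (PL.C (nat_lit 0x48a28d3a) (nat_lit 0x0) (nat_lit 0x16f642d3cc0afc)
  (PL.C (nat_lit 0x48a7bd85) (nat_lit 0x27638bbe7643ea) (nat_lit 0x0) gp2_1_139))))))))))))))))))))

noncomputable def gp2_1_137 : PL :=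
  (PL.C (nat_lit 0x4376d5c5) (nat_lit 0x0) (nat_lit 0x24017163cecf680)
  (PL.C (nat_lit 0x437c88b7) (nat_lit 0x0) (nat_lit 0xa9ea0c6ca5260)
  (PL.C (nat_lit 0x43a38c37) (nat_lit 0x0) (nat_lit 0x9ad3da5433f90)
  (PL.C (nat_lit 0x43bd5059) (nat_lit 0x0) (nat_lit 0x767508cbb3f7f)
  (PL.C (nat_lit 0x43efe195) (nat_lit 0x0) (nat_lit 0x274e1a527fdae9)
  (PL.C (nat_lit 0x43f39522) (nat_lit 0x68554dcecd09b7) (nat_lit 0x0)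
  (PL.C (nat_lit 0x443b66d3) (nat_lit 0x0) (nat_lit 0x10160e82f5b1a)
  (PL.C (nat_lit 0x44420576) (nat_lit 0x0) (nat_lit 0x109927ef9ba2aa)
  (PL.C (nat_lit 0x4478c99b) (nat_lit 0x11bf31f5ac7f353) (nat_lit 0x0)
  (PL.C (nat_lit 0x4489544e) (nat_lit 0x4a5a0c8268aa99) (nat_lit 0x0)
  (PL.C (nat_lit 0x44b2d9ea) (nat_lit 0x4020e96991891) (nat_lit 0x0)
  (PL.C (nat_lit 0x44bc7dd6) (nat_lit 0x0) (nat_lit 0x17a9d83ddc67f)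
  (PL.C (nat_lit 0x44d1ef93) (nat_lit 0x0) (nat_lit 0x294d63fe8b5a79)
  (PL.C (nat_lit 0x44da196d) (nat_lit 0x1e72dfcef1af63) (nat_lit 0x0)
  (PL.C (nat_lit 0x453ba496) (nat_lit 0x3b423cf1c6419) (nat_lit 0x0)
  (PL.C (nat_lit 0x45db9611) (nat_lit 0x7b682b6492dbd6) (nat_lit 0x0)
  (PL.C (nat_lit 0x45f24acb) (nat_lit 0x101c55e247fe4c) (nat_lit 0x0)
  (PL.C (nat_lit 0x463205f1) (nat_lit 0x8dcc23436f40c) (nat_lit 0x0)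
  (PL.C (nat_lit 0x463e0543) (nat_lit 0x12a903489ad5d0) (nat_lit 0x0)
  (PL.C (nat_lit 0x465a90df) (nat_lit 0x99e4c400654fd2) (nat_lit 0x0) gp2_1_138))))))))))))))))))))

noncomputable def gp2_1_136 : PL :=
  (PL.C (nat_lit 0x41b2f1d2) (nat_lit 0x0) (nat_lit 0x4ca41b620ec62)
  (PL.C (nat_lit 0x41b5afb7) (nat_lit 0x4eda86da78745b) (nat_lit 0x0)
  (PL.C (nat_lit 0x41bf580d) (nat_lit 0x0) (nat_lit 0x22fd81386ef3da)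
  (PL.C (nat_lit 0x41e03ff3) (nat_lit 0x16cc0da8fe5f45) (nat_lit 0x0)
  (PL.C (nat_lit 0x41fa5513) (nat_lit 0x0) (nat_lit 0x10dbf4aaa2f25ac)
  (PL.C (nat_lit 0x4205db43) (nat_lit 0x35409183f9775) (nat_lit 0x0)
  (PL.C (nat_lit 0x420b3d0f) (nat_lit 0x0) (nat_lit 0x593ef474f25e3f)
  (PL.C (nat_lit 0x42248965) (nat_lit 0x0) (nat_lit 0x15e7e16304bcbe)
  (PL.C (nat_lit 0x422b95a7) (nat_lit 0x175529ae8e7a05a) (nat_lit 0x0)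
  (PL.C (nat_lit 0x422c4af1) (nat_lit 0x279373ba3e867d) (nat_lit 0x0)
  (PL.C (nat_lit 0x42503bcb) (nat_lit 0x0) (nat_lit 0x3a962344bf57de)
  (PL.C (nat_lit 0x42716c35) (nat_lit 0x865828fed09eb7) (nat_lit 0x0)
  (PL.C (nat_lit 0x4281bc7f) (nat_lit 0x0) (nat_lit 0x174a2ec6f28019)
  (PL.C (nat_lit 0x42975a65) (nat_lit 0x0) (nat_lit 0x17655ca48640a1)
  (PL.C (nat_lit 0x42be1ec7) (nat_lit 0x3235b4c0000d7e) (nat_lit 0x0)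
  (PL.C (nat_lit 0x42f2dfb2) (nat_lit 0x0) (nat_lit 0x62d56930c49ca)
  (PL.C (nat_lit 0x4303d863) (nat_lit 0x18438e4f971d61) (nat_lit 0x0)
  (PL.C (nat_lit 0x430da3a5) (nat_lit 0x0) (nat_lit 0xd3aa7d63ab74)
  (PL.C (nat_lit 0x43294eef) (nat_lit 0x0) (nat_lit 0x767508cbb3f7f)
  (PL.C (nat_lit 0x43347559) (nat_lit 0x61ba9235a99861) (nat_lit 0x0) gp2_1_137))))))))))))))))))))

noncomputable def gp2_1_135 : PL :=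
  (PL.C (nat_lit 0x3eba6047) (nat_lit 0x0) (nat_lit 0xd649ee22c6791)
  (PL.C (nat_lit 0x3ebdda6d) (nat_lit 0x2fe18db713f2c) (nat_lit 0x0)
  (PL.C (nat_lit 0x3ed0209d) (nat_lit 0x2dcb228be9f886) (nat_lit 0x0)
  (PL.C (nat_lit 0x3f06472f) (nat_lit 0xc78517888f1c0) (nat_lit 0x0)
  (PL.C (nat_lit 0x3f481e6b) (nat_lit 0x0) (nat_lit 0x59b1089d299e3)
  (PL.C (nat_lit 0x3f636d9a) (nat_lit 0x0) (nat_lit 0xdc01b9137f4ac)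
  (PL.C (nat_lit 0x3fa84e1f) (nat_lit 0x0) (nat_lit 0x5b6a5520698940)
  (PL.C (nat_lit 0x3fd83381) (nat_lit 0x0) (nat_lit 0x17655ca48640a1)
  (PL.C (nat_lit 0x3ff3b5d3) (nat_lit 0x9bb593cc172115) (nat_lit 0x0)
  (PL.C (nat_lit 0x3ff91cd1) (nat_lit 0x0) (nat_lit 0xa9ea0c6ca5260)
  (PL.C (nat_lit 0x401187d1) (nat_lit 0x0) (nat_lit 0x120645f18e6426)
  (PL.C (nat_lit 0x4064e5b7) (nat_lit 0x35409183f9775) (nat_lit 0x0)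
  (PL.C (nat_lit 0x406c2f97) (nat_lit 0x0) (nat_lit 0x96b887e9639a44)
  (PL.C (nat_lit 0x40730ced) (nat_lit 0x0) (nat_lit 0x9a48cd3cf63031)
  (PL.C (nat_lit 0x40b17c87) (nat_lit 0x225429c739b8d6) (nat_lit 0x0)
  (PL.C (nat_lit 0x40c6f635) (nat_lit 0x0) (nat_lit 0x8a2ff4b9c12552)
  (PL.C (nat_lit 0x40e761cb) (nat_lit 0x435756f768fb6c) (nat_lit 0x0)
  (PL.C (nat_lit 0x412365be) (nat_lit 0x18897b0f1f7ee8) (nat_lit 0x0)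
  (PL.C (nat_lit 0x416a2d05) (nat_lit 0x0) (nat_lit 0x1f50e53333a784f)
  (PL.C (nat_lit 0x4176699d) (nat_lit 0x16b91c06314e43) (nat_lit 0x0) gp2_1_136))))))))))))))))))))

noncomputable def gp2_1_134 : PL :=
  (PL.C (nat_lit 0x3d0a3d26) (nat_lit 0x0) (nat_lit 0x4dd64b37486d0d)
  (PL.C (nat_lit 0x3d0afb85) (nat_lit 0x0) (nat_lit 0xe8f4d0919b3f4)
  (PL.C (nat_lit 0x3d49c393) (nat_lit 0x3566ff276d14f2) (nat_lit 0x0)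
  (PL.C (nat_lit 0x3d551459) (nat_lit 0x2da998a758d5b) (nat_lit 0x0)
  (PL.C (nat_lit 0x3d5b9d63) (nat_lit 0x1b77df74fb1bfe) (nat_lit 0x0)
  (PL.C (nat_lit 0x3d8487bb) (nat_lit 0x15399d48cc588d) (nat_lit 0x0)
  (PL.C (nat_lit 0x3d9082d1) (nat_lit 0x0) (nat_lit 0x3424f326ae6405)
  (PL.C (nat_lit 0x3d90c12a) (nat_lit 0x0) (nat_lit 0x116518c8a1e5d8)
  (PL.C (nat_lit 0x3db32bd2) (nat_lit 0x7bebd26cede91d) (nat_lit 0x0)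
  (PL.C (nat_lit 0x3dbc2239) (nat_lit 0x0) (nat_lit 0x3827bea21f3c2e)
  (PL.C (nat_lit 0x3dbd6a1e) (nat_lit 0x0) (nat_lit 0x97c290ad9692)
  (PL.C (nat_lit 0x3dd0d395) (nat_lit 0x0) (nat_lit 0x15bd8b684f4ea1)
  (PL.C (nat_lit 0x3dd57e19) (nat_lit 0x0) (nat_lit 0x35d60f5bd00ab)
  (PL.C (nat_lit 0x3dea37f5) (nat_lit 0x0) (nat_lit 0x10366f511504d)
  (PL.C (nat_lit 0x3e008015) (nat_lit 0x843d71a653886b) (nat_lit 0x0)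
  (PL.C (nat_lit 0x3e3b241e) (nat_lit 0x46cade56580cb5) (nat_lit 0x0)
  (PL.C (nat_lit 0x3e46e2cb) (nat_lit 0xc0d6f869af53bf) (nat_lit 0x0)
  (PL.C (nat_lit 0x3e66fd3b) (nat_lit 0x0) (nat_lit 0x57aee06952e434)
  (PL.C (nat_lit 0x3e8ec639) (nat_lit 0xdfac8258b8f61b) (nat_lit 0x0)
  (PL.C (nat_lit 0x3ea6bcb3) (nat_lit 0x2f052c624ca41d) (nat_lit 0x0) gp2_1_135))))))))))))))))))))

noncomputable def gp2_1_133 : PL :=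
  (PL.C (nat_lit 0x3b293e3b) (nat_lit 0x3239e9f938044b) (nat_lit 0x0)
  (PL.C (nat_lit 0x3b3042c5) (nat_lit 0x83cc5fb49a5e3) (nat_lit 0x0)
  (PL.C (nat_lit 0x3b6f5f1b) (nat_lit 0x4eda86da78745b) (nat_lit 0x0)
  (PL.C (nat_lit 0x3b73dc22) (nat_lit 0x5250353b5ec9a1) (nat_lit 0x0)
  (PL.C (nat_lit 0x3bbcc113) (nat_lit 0x5c5f4db586a3f1) (nat_lit 0x0)
  (PL.C (nat_lit 0x3bdaa6ed) (nat_lit 0x0) (nat_lit 0x26342285325834)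
  (PL.C (nat_lit 0x3bfd03c3) (nat_lit 0x27638bbe7643ea) (nat_lit 0x0)
  (PL.C (nat_lit 0x3c0231c3) (nat_lit 0x8e1890c0302d4a) (nat_lit 0x0)
  (PL.C (nat_lit 0x3c2efd97) (nat_lit 0x0) (nat_lit 0x18535da353b2b6)
  (PL.C (nat_lit 0x3c4776e1) (nat_lit 0x7de843502fdc0b) (nat_lit 0x0)
  (PL.C (nat_lit 0x3c4e03c7) (nat_lit 0x0) (nat_lit 0x5166c0bdc65532)
  (PL.C (nat_lit 0x3c57ea29) (nat_lit 0x0) (nat_lit 0x358686789b7b8e)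
  (PL.C (nat_lit 0x3c5e8deb) (nat_lit 0x0) (nat_lit 0x10d3bc48339309)
  (PL.C (nat_lit 0x3c623a6b) (nat_lit 0x0) (nat_lit 0x4b4f8e722d5881)
  (PL.C (nat_lit 0x3c79ead6) (nat_lit 0x0) (nat_lit 0x4166e3400fcb3e)
  (PL.C (nat_lit 0x3c837f51) (nat_lit 0x0) (nat_lit 0x55da8f880cd)
  (PL.C (nat_lit 0x3c84df0a) (nat_lit 0x0) (nat_lit 0x1373e28663e16a)
  (PL.C (nat_lit 0x3c866fe5) (nat_lit 0x2f036181f7548d) (nat_lit 0x0)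
  (PL.C (nat_lit 0x3cb39e71) (nat_lit 0x3cf1ed3d608c43) (nat_lit 0x0)
  (PL.C (nat_lit 0x3d05a171) (nat_lit 0x0) (nat_lit 0xa04fa8a7d7b991) gp2_1_134))))))))))))))))))))

noncomputable def gp2_1_132 : PL :=
  (PL.C (nat_lit 0x39019ab3) (nat_lit 0x0) (nat_lit 0x39ab041249fab9)
  (PL.C (nat_lit 0x39168492) (nat_lit 0x0) (nat_lit 0xd0dfe129ad3d0)
  (PL.C (nat_lit 0x39190553) (nat_lit 0xe31f18b848f8b) (nat_lit 0x0)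
  (PL.C (nat_lit 0x392c28c7) (nat_lit 0x2053094f9ce29b) (nat_lit 0x0)
  (PL.C (nat_lit 0x392ec57d) (nat_lit 0x0) (nat_lit 0x3f2b3eeba23673)
  (PL.C (nat_lit 0x393ebdfd) (nat_lit 0x7147d56f92b1f) (nat_lit 0x0)
  (PL.C (nat_lit 0x394ec0db) (nat_lit 0x0) (nat_lit 0xb76daa77df229)
  (PL.C (nat_lit 0x395c952a) (nat_lit 0x0) (nat_lit 0x1462399ec7278e)
  (PL.C (nat_lit 0x39cd0747) (nat_lit 0x11bf31f5ac7f353) (nat_lit 0x0)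
  (PL.C (nat_lit 0x39dafe06) (nat_lit 0x14d56d8bddd4de) (nat_lit 0x0)
  (PL.C (nat_lit 0x39fe0b12) (nat_lit 0x49fa3620108d6) (nat_lit 0x0)
  (PL.C (nat_lit 0x3a117b4a) (nat_lit 0x0) (nat_lit 0x8fae00171cd05)
  (PL.C (nat_lit 0x3a2a7e83) (nat_lit 0x1a7fe6fa7b878c) (nat_lit 0x0)
  (PL.C (nat_lit 0x3a487a73) (nat_lit 0xcd58ec0055a6d) (nat_lit 0x0)
  (PL.C (nat_lit 0x3a6da321) (nat_lit 0x5c5f4db586a3f1) (nat_lit 0x0)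
  (PL.C (nat_lit 0x3a7b1c72) (nat_lit 0x0) (nat_lit 0xb887b7c1904d9d)
  (PL.C (nat_lit 0x3a8404ab) (nat_lit 0x0) (nat_lit 0x3088780b0b3ba4)
  (PL.C (nat_lit 0x3a9e503d) (nat_lit 0x3fb0581519341d) (nat_lit 0x0)
  (PL.C (nat_lit 0x3aaaad25) (nat_lit 0x0) (nat_lit 0x116d40bd87febf)
  (PL.C (nat_lit 0x3b1f7e1b) (nat_lit 0x1aad61d7bccd2) (nat_lit 0x0) gp2_1_133))))))))))))))))))))

noncomputable def gp2_1_131 : PL :=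
  (PL.C (nat_lit 0x373861d9) (nat_lit 0x0) (nat_lit 0x52c6b22887a990)
  (PL.C (nat_lit 0x375b3a3f) (nat_lit 0x10558bde8ac0d) (nat_lit 0x0)
  (PL.C (nat_lit 0x37669da2) (nat_lit 0x658c8b4df047d) (nat_lit 0x0)
  (PL.C (nat_lit 0x376d48bd) (nat_lit 0xcf9b17147775c9) (nat_lit 0x0)
  (PL.C (nat_lit 0x3771f75f) (nat_lit 0x0) (nat_lit 0x256e5d5b19593)
  (PL.C (nat_lit 0x37804701) (nat_lit 0xd3ef8a1cc4ca0) (nat_lit 0x0)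
  (PL.C (nat_lit 0x37af874d) (nat_lit 0x0) (nat_lit 0xbddd6300db5df)
  (PL.C (nat_lit 0x37b2129f) (nat_lit 0x0) (nat_lit 0x1c9d0a348133564)
  (PL.C (nat_lit 0x37eb4003) (nat_lit 0x0) (nat_lit 0x182e8949767b1a)
  (PL.C (nat_lit 0x37fa9637) (nat_lit 0x0) (nat_lit 0x41822119555c42)
  (PL.C (nat_lit 0x38143786) (nat_lit 0x5dfb06cc43467) (nat_lit 0x0)
  (PL.C (nat_lit 0x381e1df2) (nat_lit 0x0) (nat_lit 0xd0dfe129ad3d0)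
  (PL.C (nat_lit 0x383b0b92) (nat_lit 0x0) (nat_lit 0x159958dd3d77b3)
  (PL.C (nat_lit 0x384c36cd) (nat_lit 0x3dae9b91eccb70e) (nat_lit 0x0)
  (PL.C (nat_lit 0x387bf446) (nat_lit 0x0) (nat_lit 0x97c290ad9692)
  (PL.C (nat_lit 0x38958315) (nat_lit 0x1246e8652086400) (nat_lit 0x0)
  (PL.C (nat_lit 0x3899c8fe) (nat_lit 0x429dbf409a6210) (nat_lit 0x0)
  (PL.C (nat_lit 0x38b1d4eb) (nat_lit 0xa4e0cb603ddc5) (nat_lit 0x0)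
  (PL.C (nat_lit 0x38b6f65e) (nat_lit 0x0) (nat_lit 0xb050e7589c808)
  (PL.C (nat_lit 0x38bb3e7d) (nat_lit 0xcd58ec0055a6d) (nat_lit 0x0) gp2_1_132))))))))))))))))))))

noncomputable def gp2_1_130 : PL :=
  (PL.C (nat_lit 0x34d9525d) (nat_lit 0x0) (nat_lit 0x593ef474f25e3f)
  (PL.C (nat_lit 0x34ea25f2) (nat_lit 0x0) (nat_lit 0x9fc1dcc629c4)
  (PL.C (nat_lit 0x34f3c5a3) (nat_lit 0x23d5934f4749c6) (nat_lit 0x0)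
  (PL.C (nat_lit 0x354c0832) (nat_lit 0x0) (nat_lit 0x2242248ab769c8)
  (PL.C (nat_lit 0x358949b3) (nat_lit 0x0) (nat_lit 0x2745fb05b4e374)
  (PL.C (nat_lit 0x358ce646) (nat_lit 0x1d4eaaa1b02f6a) (nat_lit 0x0)
  (PL.C (nat_lit 0x3598e183) (nat_lit 0x0) (nat_lit 0x23034d14d568230)
  (PL.C (nat_lit 0x35c71631) (nat_lit 0x0) (nat_lit 0x11830f411a9f60d)
  (PL.C (nat_lit 0x35fc465f) (nat_lit 0x0) (nat_lit 0x16cd63f9632bf1c)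
  (PL.C (nat_lit 0x35ff4475) (nat_lit 0x5c23b15b153dd9) (nat_lit 0x0)
  (PL.C (nat_lit 0x3600d5d5) (nat_lit 0x0) (nat_lit 0x20c9f7a0f59542)
  (PL.C (nat_lit 0x3612efc1) (nat_lit 0x0) (nat_lit 0x3521e0c1b906b)
  (PL.C (nat_lit 0x36428ff7) (nat_lit 0x3bebc9ce48e340) (nat_lit 0x0)
  (PL.C (nat_lit 0x365db809) (nat_lit 0x0) (nat_lit 0x1587ae217ea416)
  (PL.C (nat_lit 0x3685e71d) (nat_lit 0x0) (nat_lit 0x8ad102c69ca168)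
  (PL.C (nat_lit 0x36d586ef) (nat_lit 0x0) (nat_lit 0x13fbebf4227956)
  (PL.C (nat_lit 0x36e24739) (nat_lit 0xdf3cf065fe264) (nat_lit 0x0)
  (PL.C (nat_lit 0x36fe9209) (nat_lit 0xb84fb45d8f7f9) (nat_lit 0x0)
  (PL.C (nat_lit 0x3721a1f3) (nat_lit 0x40325c4c8f7391) (nat_lit 0x0)
  (PL.C (nat_lit 0x3736c031) (nat_lit 0x859673bbd9092) (nat_lit 0x0) gp2_1_131))))))))))))))))))))

noncomputable def gp2_1_129 : PL :=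
  (PL.C (nat_lit 0x32a8160f) (nat_lit 0x2a7752c772b83b) (nat_lit 0x0)
  (PL.C (nat_lit 0x32e81723) (nat_lit 0x0) (nat_lit 0x189c1b4fa0113a)
  (PL.C (nat_lit 0x32f0728d) (nat_lit 0x0) (nat_lit 0x4c127e360a968c)
  (PL.C (nat_lit 0x32f92757) (nat_lit 0x2d03610b458f2d9) (nat_lit 0x0)
  (PL.C (nat_lit 0x331729ae) (nat_lit 0x0) (nat_lit 0x43a66a4223a4fb)
  (PL.C (nat_lit 0x3317b839) (nat_lit 0x2122ceabd79420) (nat_lit 0x0)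
  (PL.C (nat_lit 0x3332c4d5) (nat_lit 0x0) (nat_lit 0xbb35a217a70c0)
  (PL.C (nat_lit 0x3334481d) (nat_lit 0x0) (nat_lit 0xcee78e1a9a49da)
  (PL.C (nat_lit 0x33655611) (nat_lit 0x0) (nat_lit 0x294d63fe8b5a79)
  (PL.C (nat_lit 0x33a51f3b) (nat_lit 0x0) (nat_lit 0x22c3745dcd9a1c)
  (PL.C (nat_lit 0x33bc9b1f) (nat_lit 0x0) (nat_lit 0x7bf0729658d02)
  (PL.C (nat_lit 0x33f853d5) (nat_lit 0x635bdefd9c343) (nat_lit 0x0)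
  (PL.C (nat_lit 0x341d26dd) (nat_lit 0x0) (nat_lit 0x11de4c5029c4e4)
  (PL.C (nat_lit 0x342e9ea9) (nat_lit 0x0) (nat_lit 0x5b2f337b36bea6)
  (PL.C (nat_lit 0x344ca287) (nat_lit 0x0) (nat_lit 0x21fdb661ea3803)
  (PL.C (nat_lit 0x3456dd29) (nat_lit 0xb3a9514704655) (nat_lit 0x0)
  (PL.C (nat_lit 0x3458701f) (nat_lit 0x0) (nat_lit 0x1b52c26b26a2ca3)
  (PL.C (nat_lit 0x3474624a) (nat_lit 0x64cd1b25eed07) (nat_lit 0x0)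
  (PL.C (nat_lit 0x34ad6167) (nat_lit 0x0) (nat_lit 0x60078eea7dd642)
  (PL.C (nat_lit 0x34bf098b) (nat_lit 0x39e08f9d5d3bc8) (nat_lit 0x0) gp2_1_130))))))))))))))))))))

noncomputable def gp2_1_128 : PL :=
  (PL.C (nat_lit 0x30a4752d) (nat_lit 0x1c0757c5b34af) (nat_lit 0x0)
  (PL.C (nat_lit 0x30a8218e) (nat_lit 0x0) (nat_lit 0x12ec95cabae3ea)
  (PL.C (nat_lit 0x30ad71d2) (nat_lit 0x0) (nat_lit 0x1765ac11f0e374)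
  (PL.C (nat_lit 0x30d49123) (nat_lit 0x0) (nat_lit 0xf38bb38749c0d1)
  (PL.C (nat_lit 0x30d8a023) (nat_lit 0x13a25225595271) (nat_lit 0x0)
  (PL.C (nat_lit 0x30e04c1a) (nat_lit 0x0) (nat_lit 0xc1743e77141375)
  (PL.C (nat_lit 0x31135b82) (nat_lit 0x1d63b745190fb) (nat_lit 0x0)
  (PL.C (nat_lit 0x3119e5cf) (nat_lit 0x0) (nat_lit 0xfc0ff25655e04)
  (PL.C (nat_lit 0x3133357f) (nat_lit 0x592a5fc6e4e259) (nat_lit 0x0)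
  (PL.C (nat_lit 0x3143b343) (nat_lit 0x0) (nat_lit 0x245599c227c2d6)
  (PL.C (nat_lit 0x31861a79) (nat_lit 0x0) (nat_lit 0x5a4c10f729a0ac)
  (PL.C (nat_lit 0x31af8de6) (nat_lit 0x72a6b129c0d1c) (nat_lit 0x0)
  (PL.C (nat_lit 0x31dde967) (nat_lit 0x0) (nat_lit 0x35bf7a05969298)
  (PL.C (nat_lit 0x31f6de99) (nat_lit 0x0) (nat_lit 0x3827bea21f3c2e)
  (PL.C (nat_lit 0x320099ab) (nat_lit 0x0) (nat_lit 0x87de5fe2cfdeb4)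
  (PL.C (nat_lit 0x320f29fb) (nat_lit 0xf5248c7421791e) (nat_lit 0x0)
  (PL.C (nat_lit 0x32136489) (nat_lit 0x1528841fc00b9d) (nat_lit 0x0)
  (PL.C (nat_lit 0x323a51d9) (nat_lit 0xec546e226e860) (nat_lit 0x0)
  (PL.C (nat_lit 0x326ecabd) (nat_lit 0x1a4da62c01fc02) (nat_lit 0x0)
  (PL.C (nat_lit 0x3283821d) (nat_lit 0x0) (nat_lit 0x52458ccb447fa) gp2_1_129))))))))))))))))))))

noncomputable def gp2_1_127 : PL :=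
  (PL.C (nat_lit 0x2f344d4f) (nat_lit 0x33f066bcc986) (nat_lit 0x0)
  (PL.C (nat_lit 0x2f3c0d21) (nat_lit 0x72e4eda1f6df60) (nat_lit 0x0)
  (PL.C (nat_lit 0x2f601a9a) (nat_lit 0x27b96754dda6a) (nat_lit 0x0)
  (PL.C (nat_lit 0x2f64c59b) (nat_lit 0x21e4a1deebbb35) (nat_lit 0x0)
  (PL.C (nat_lit 0x2f77a95a) (nat_lit 0x27fe08e976f03d) (nat_lit 0x0)
  (PL.C (nat_lit 0x2f879272) (nat_lit 0x1be767df91620e) (nat_lit 0x0)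
  (PL.C (nat_lit 0x2f964887) (nat_lit 0xf313bf30d0d5d) (nat_lit 0x0)
  (PL.C (nat_lit 0x2fa9d4a7) (nat_lit 0x0) (nat_lit 0x374c7a659fcd1)
  (PL.C (nat_lit 0x2fbe6fe6) (nat_lit 0x0) (nat_lit 0x295347fdedc7a3)
  (PL.C (nat_lit 0x2fcd65a9) (nat_lit 0x0) (nat_lit 0x2d58ae27d48e37)
  (PL.C (nat_lit 0x2fd300a5) (nat_lit 0x0) (nat_lit 0x8ad102c69ca168)
  (PL.C (nat_lit 0x2fe04456) (nat_lit 0x60bebc495a0918) (nat_lit 0x0)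
  (PL.C (nat_lit 0x2fe55257) (nat_lit 0x60f5357e22de6b) (nat_lit 0x0)
  (PL.C (nat_lit 0x2ff0507e) (nat_lit 0x8f001f6f5a4e38) (nat_lit 0x0)
  (PL.C (nat_lit 0x3004f6b9) (nat_lit 0x0) (nat_lit 0xa5dac583a25e9)
  (PL.C (nat_lit 0x301f46bf) (nat_lit 0x0) (nat_lit 0xeef4ff471041e)
  (PL.C (nat_lit 0x303dd1e2) (nat_lit 0x0) (nat_lit 0xf2c6a115bc71f)
  (PL.C (nat_lit 0x3064c462) (nat_lit 0x0) (nat_lit 0x7fcaf1c437d5c0)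
  (PL.C (nat_lit 0x306fd3ae) (nat_lit 0x0) (nat_lit 0x126965ba74d2d2)
  (PL.C (nat_lit 0x307581b6) (nat_lit 0x0) (nat_lit 0xe5e476dc52e4cc) gp2_1_128))))))))))))))))))))

noncomputable def gp2_1_126 : PL :=
  (PL.C (nat_lit 0x2dc21307) (nat_lit 0x0) (nat_lit 0x60fd8e66d64a1d)
  (PL.C (nat_lit 0x2de14a62) (nat_lit 0x0) (nat_lit 0x438be4e5c3c599)
  (PL.C (nat_lit 0x2de6bb9e) (nat_lit 0x0) (nat_lit 0xc8bfcd7a3d0d)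
  (PL.C (nat_lit 0x2dec0f3d) (nat_lit 0x191760f20a3e00) (nat_lit 0x0)
  (PL.C (nat_lit 0x2e1324ab) (nat_lit 0x1452f44e1a48ec8) (nat_lit 0x0)
  (PL.C (nat_lit 0x2e40b685) (nat_lit 0x154314f4d0a377f) (nat_lit 0x0)
  (PL.C (nat_lit 0x2e549fdd) (nat_lit 0x0) (nat_lit 0x4639bfbf3c3dc4)
  (PL.C (nat_lit 0x2e6c81ed) (nat_lit 0xb4f8dd9854fede) (nat_lit 0x0)
  (PL.C (nat_lit 0x2e7c1179) (nat_lit 0x0) (nat_lit 0x5966b4e8847b)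
  (PL.C (nat_lit 0x2e8a1aff) (nat_lit 0x12f12ab69df0bd) (nat_lit 0x0)
  (PL.C (nat_lit 0x2e9beeb5) (nat_lit 0x4e0aefd015b18) (nat_lit 0x0)
  (PL.C (nat_lit 0x2ea18732) (nat_lit 0x0) (nat_lit 0x129334b1734d24)
  (PL.C (nat_lit 0x2ea5027f) (nat_lit 0x2734c27088a738) (nat_lit 0x0)
  (PL.C (nat_lit 0x2ebab97b) (nat_lit 0x0) (nat_lit 0x45816c5f9ea7c6)
  (PL.C (nat_lit 0x2ecc03f6) (nat_lit 0x0) (nat_lit 0x4166e3400fcb3e)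
  (PL.C (nat_lit 0x2ed40382) (nat_lit 0x0) (nat_lit 0x13c523d36414b0)
  (PL.C (nat_lit 0x2ed708f1) (nat_lit 0x0) (nat_lit 0x585e5422e437)
  (PL.C (nat_lit 0x2ee82f47) (nat_lit 0x1e53aed02ce893) (nat_lit 0x0)
  (PL.C (nat_lit 0x2f01e341) (nat_lit 0x0) (nat_lit 0x26e2798d8d4715b)
  (PL.C (nat_lit 0x2f2e4f31) (nat_lit 0xdd559db78be85) (nat_lit 0x0) gp2_1_127))))))))))))))))))))

noncomputable def gp2_1_125 : PL :=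
  (PL.C (nat_lit 0x2c567daa) (nat_lit 0x0) (nat_lit 0x175ea4748a8631)
  (PL.C (nat_lit 0x2c64e6ee) (nat_lit 0x0) (nat_lit 0x2a0cccb15281a9)
  (PL.C (nat_lit 0x2c6586a3) (nat_lit 0x32903aeea2d10d) (nat_lit 0x0)
  (PL.C (nat_lit 0x2c6996d3) (nat_lit 0x0) (nat_lit 0xda3988fd60eb0a)
  (PL.C (nat_lit 0x2c77c343) (nat_lit 0x0) (nat_lit 0x1fdb56f2c715a1)
  (PL.C (nat_lit 0x2c7fd12d) (nat_lit 0xc890e6fd99337) (nat_lit 0x0)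
  (PL.C (nat_lit 0x2c807bc3) (nat_lit 0x0) (nat_lit 0xaa2949b47a653)
  (PL.C (nat_lit 0x2c86aaf7) (nat_lit 0xd795065eb78457) (nat_lit 0x0)
  (PL.C (nat_lit 0x2cb3c26e) (nat_lit 0x0) (nat_lit 0x5180357b09df3)
  (PL.C (nat_lit 0x2ccb7655) (nat_lit 0x0) (nat_lit 0x482dc3560dc537)
  (PL.C (nat_lit 0x2ce1e1ab) (nat_lit 0x0) (nat_lit 0x1151b89247b33)
  (PL.C (nat_lit 0x2cfdb07a) (nat_lit 0x2d715d71999a48) (nat_lit 0x0)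
  (PL.C (nat_lit 0x2d0cc7f7) (nat_lit 0x99e4c400654fd2) (nat_lit 0x0)
  (PL.C (nat_lit 0x2d202cbf) (nat_lit 0x351c991612fec3) (nat_lit 0x0)
  (PL.C (nat_lit 0x2d476f4f) (nat_lit 0xdfac8258b8f61b) (nat_lit 0x0)
  (PL.C (nat_lit 0x2d5e18b1) (nat_lit 0x0) (nat_lit 0x45bf9284229bed)
  (PL.C (nat_lit 0x2d6e7835) (nat_lit 0x789e7200229e4e) (nat_lit 0x0)
  (PL.C (nat_lit 0x2d87b92b) (nat_lit 0x0) (nat_lit 0xc6be064ce6f81)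
  (PL.C (nat_lit 0x2d9f319b) (nat_lit 0x0) (nat_lit 0x5d4131413e2248)
  (PL.C (nat_lit 0x2da59885) (nat_lit 0x0) (nat_lit 0x70e6848d9dec7) gp2_1_126))))))))))))))))))))

noncomputable def gp2_1_124 : PL :=
  (PL.C (nat_lit 0x2aa61336) (nat_lit 0x2d715d71999a48) (nat_lit 0x0)
  (PL.C (nat_lit 0x2ab2804d) (nat_lit 0x120f9d3cf5a065) (nat_lit 0x0)
  (PL.C (nat_lit 0x2ade346f) (nat_lit 0x2e02fa63f7e5d4) (nat_lit 0x0)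
  (PL.C (nat_lit 0x2ae391f9) (nat_lit 0x0) (nat_lit 0x23034d14d568230)
  (PL.C (nat_lit 0x2aedee7a) (nat_lit 0x91486b8d340b2) (nat_lit 0x0)
  (PL.C (nat_lit 0x2b002b81) (nat_lit 0x0) (nat_lit 0x552ca67e3669a2)
  (PL.C (nat_lit 0x2b0784f3) (nat_lit 0x0) (nat_lit 0x4b4f8e722d5881)
  (PL.C (nat_lit 0x2b088b63) (nat_lit 0x5e71d067c03337) (nat_lit 0x0)
  (PL.C (nat_lit 0x2b0c2e01) (nat_lit 0x314745f0c9e07) (nat_lit 0x0)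
  (PL.C (nat_lit 0x2b2f4ece) (nat_lit 0x0) (nat_lit 0x78cb6722ca5347)
  (PL.C (nat_lit 0x2b40929b) (nat_lit 0x36e433db58de21) (nat_lit 0x0)
  (PL.C (nat_lit 0x2b41e8d1) (nat_lit 0x7de843502fdc0b) (nat_lit 0x0)
  (PL.C (nat_lit 0x2b5e3b5d) (nat_lit 0x1221d864f7bbcc7) (nat_lit 0x0)
  (PL.C (nat_lit 0x2bd4e55e) (nat_lit 0x0) (nat_lit 0x6bae7bbaf839ce)
  (PL.C (nat_lit 0x2c0338ed) (nat_lit 0x0) (nat_lit 0x71a92a8c9090b)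
  (PL.C (nat_lit 0x2c03e782) (nat_lit 0x91486b8d340b2) (nat_lit 0x0)
  (PL.C (nat_lit 0x2c077e0a) (nat_lit 0x0) (nat_lit 0x1f2901b3401487)
  (PL.C (nat_lit 0x2c2eb149) (nat_lit 0x58ad7f004b3216) (nat_lit 0x0)
  (PL.C (nat_lit 0x2c300edb) (nat_lit 0x1eef2d043907464) (nat_lit 0x0)
  (PL.C (nat_lit 0x2c357d32) (nat_lit 0x0) (nat_lit 0xcc2a6d6f3ede92) gp2_1_125))))))))))))))))))))

noncomputable def gp2_1_123 : PL :=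
  (PL.C (nat_lit 0x29849732) (nat_lit 0x5f876980f3994e) (nat_lit 0x0)
  (PL.C (nat_lit 0x298851bb) (nat_lit 0x0) (nat_lit 0x2fd40dbda83e4e)
  (PL.C (nat_lit 0x29897709) (nat_lit 0x0) (nat_lit 0xc6be064ce6f81)
  (PL.C (nat_lit 0x29963d8f) (nat_lit 0x0) (nat_lit 0x20fe72f2adfd8e1)
  (PL.C (nat_lit 0x299e40f7) (nat_lit 0x0) (nat_lit 0x1fdbafc15a7f8b)
  (PL.C (nat_lit 0x29b3b527) (nat_lit 0x11383964b2be43) (nat_lit 0x0)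
  (PL.C (nat_lit 0x29b48426) (nat_lit 0x1695ee01a935487) (nat_lit 0x0)
  (PL.C (nat_lit 0x29e015be) (nat_lit 0x0) (nat_lit 0x9dbdebb06bd4e5)
  (PL.C (nat_lit 0x29f9f811) (nat_lit 0x0) (nat_lit 0x4668f813e5e03)
  (PL.C (nat_lit 0x2a116f55) (nat_lit 0x2dcb228be9f886) (nat_lit 0x0)
  (PL.C (nat_lit 0x2a186b43) (nat_lit 0x0) (nat_lit 0x529e9805947b40)
  (PL.C (nat_lit 0x2a271ee5) (nat_lit 0x0) (nat_lit 0x81cd43eeabfb6c)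
  (PL.C (nat_lit 0x2a2d7cbd) (nat_lit 0x0) (nat_lit 0x17853e526e97e3)
  (PL.C (nat_lit 0x2a35b397) (nat_lit 0x0) (nat_lit 0x24c2af50533f56)
  (PL.C (nat_lit 0x2a53bbf9) (nat_lit 0x450ea195bab20) (nat_lit 0x0)
  (PL.C (nat_lit 0x2a666cfd) (nat_lit 0x22ddd444abdfb96) (nat_lit 0x0)
  (PL.C (nat_lit 0x2a6e2443) (nat_lit 0xc0d6f869af53bf) (nat_lit 0x0)
  (PL.C (nat_lit 0x2a902256) (nat_lit 0x0) (nat_lit 0x2a0cccb15281a9)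
  (PL.C (nat_lit 0x2a92b871) (nat_lit 0xa606ad4727fec4) (nat_lit 0x0)
  (PL.C (nat_lit 0x2aa43551) (nat_lit 0x11c3b055a18157) (nat_lit 0x0) gp2_1_124))))))))))))))))))))

noncomputable def gp2_1_122 : PL :=
  (PL.C (nat_lit 0x2801f347) (nat_lit 0x0) (nat_lit 0x70f4f26b8a4ff5)
  (PL.C (nat_lit 0x281f53ba) (nat_lit 0x57565542efd9cc) (nat_lit 0x0)
  (PL.C (nat_lit 0x282bbee3) (nat_lit 0x3feb40ca6c304) (nat_lit 0x0)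
  (PL.C (nat_lit 0x282fa496) (nat_lit 0x27c48261199a35) (nat_lit 0x0)
  (PL.C (nat_lit 0x28309c0b) (nat_lit 0x13e37e9957bac0) (nat_lit 0x0)
  (PL.C (nat_lit 0x2857aa36) (nat_lit 0x0) (nat_lit 0x2c408d17b8a9c)
  (PL.C (nat_lit 0x28599fee) (nat_lit 0x3d2b81cdd80f4c) (nat_lit 0x0)
  (PL.C (nat_lit 0x2877bef6) (nat_lit 0x35341d84680311) (nat_lit 0x0)
  (PL.C (nat_lit 0x28892d5d) (nat_lit 0x954a85ce837ceb) (nat_lit 0x0)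
  (PL.C (nat_lit 0x289aebd9) (nat_lit 0x0) (nat_lit 0x7cc26a518b4bd8)
  (PL.C (nat_lit 0x28e362e6) (nat_lit 0xdb8311fe677af) (nat_lit 0x0)
  (PL.C (nat_lit 0x28e7be42) (nat_lit 0x0) (nat_lit 0x45a684302b99e6)
  (PL.C (nat_lit 0x28f95ce7) (nat_lit 0x93fe9d2508cc1a) (nat_lit 0x0)
  (PL.C (nat_lit 0x290e7c17) (nat_lit 0x15fdcc37e72d2af) (nat_lit 0x0)
  (PL.C (nat_lit 0x290fd0a1) (nat_lit 0x0) (nat_lit 0x2edba1cb02d8ed)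
  (PL.C (nat_lit 0x292eb5bf) (nat_lit 0x191760f20a3e00) (nat_lit 0x0)
  (PL.C (nat_lit 0x29435241) (nat_lit 0x0) (nat_lit 0xa75320768aede)
  (PL.C (nat_lit 0x2943f06f) (nat_lit 0x5aa377a49718b) (nat_lit 0x0)
  (PL.C (nat_lit 0x2953a8a1) (nat_lit 0x0) (nat_lit 0x89edf9c4bf6456)
  (PL.C (nat_lit 0x29589791) (nat_lit 0x1259eed7282a1b) (nat_lit 0x0) gp2_1_123))))))))))))))))))))

noncomputable def gp2_1_121 : PL :=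
  (PL.C (nat_lit 0x26ec9117) (nat_lit 0xc5a34138ad2ffb) (nat_lit 0x0)
  (PL.C (nat_lit 0x27023409) (nat_lit 0x1804eb9b8f3050) (nat_lit 0x0)
  (PL.C (nat_lit 0x2708adef) (nat_lit 0x0) (nat_lit 0x75e67fe927e6a)
  (PL.C (nat_lit 0x2714357e) (nat_lit 0x1304d89a98eb83) (nat_lit 0x0)
  (PL.C (nat_lit 0x27164fd9) (nat_lit 0x89ccec18009618) (nat_lit 0x0)
  (PL.C (nat_lit 0x271c736e) (nat_lit 0x0) (nat_lit 0x42924c01061ccd)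
  (PL.C (nat_lit 0x2723d513) (nat_lit 0x0) (nat_lit 0x6fa02ecd1f553f)
  (PL.C (nat_lit 0x27306061) (nat_lit 0xe4d8319ef292dd) (nat_lit 0x0)
  (PL.C (nat_lit 0x273d831d) (nat_lit 0x0) (nat_lit 0x2129fe064e6207)
  (PL.C (nat_lit 0x27510351) (nat_lit 0x0) (nat_lit 0x4c59f28b7f2686)
  (PL.C (nat_lit 0x27582aef) (nat_lit 0x1804eb9b8f3050) (nat_lit 0x0)
  (PL.C (nat_lit 0x276012bb) (nat_lit 0x0) (nat_lit 0x53214be213799d)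
  (PL.C (nat_lit 0x276a5412) (nat_lit 0x0) (nat_lit 0x20ba0ab3bbf1b)
  (PL.C (nat_lit 0x277a1615) (nat_lit 0x0) (nat_lit 0x37557a10ab16ab)
  (PL.C (nat_lit 0x27ae7a05) (nat_lit 0x0) (nat_lit 0x245599c227c2d6)
  (PL.C (nat_lit 0x27d32b62) (nat_lit 0xc7f6d3c451c0f) (nat_lit 0x0)
  (PL.C (nat_lit 0x27d3f9b5) (nat_lit 0x14404d485bc2ff) (nat_lit 0x0)
  (PL.C (nat_lit 0x27df9365) (nat_lit 0x11dba5e1f29041e) (nat_lit 0x0)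
  (PL.C (nat_lit 0x27fe0282) (nat_lit 0x0) (nat_lit 0xd7fa84305a626)
  (PL.C (nat_lit 0x28017682) (nat_lit 0xf7d26144e2a83d) (nat_lit 0x0) gp2_1_122))))))))))))))))))))

noncomputable def gp2_1_120 : PL :=
  (PL.C (nat_lit 0x25b9020e) (nat_lit 0x1847f01e4b997b8) (nat_lit 0x0)
  (PL.C (nat_lit 0x25bbdb54) (nat_lit 0x7984a68b52d553) (nat_lit 0x0)
  (PL.C (nat_lit 0x25c5f71d) (nat_lit 0xf899900c10af6) (nat_lit 0x0)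
  (PL.C (nat_lit 0x25e1ff3d) (nat_lit 0xc161aa33f8235a) (nat_lit 0x0)
  (PL.C (nat_lit 0x25e94e87) (nat_lit 0x10f0464f639af) (nat_lit 0x0)
  (PL.C (nat_lit 0x260f030c) (nat_lit 0x0) (nat_lit 0x369afaf9740db)
  (PL.C (nat_lit 0x2617d5fb) (nat_lit 0x1ad368ddab41c4) (nat_lit 0x0)
  (PL.C (nat_lit 0x2629d3fe) (nat_lit 0x0) (nat_lit 0xe8923cfe67a88)
  (PL.C (nat_lit 0x262ddb7b) (nat_lit 0x83cb7b5261134) (nat_lit 0x0)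
  (PL.C (nat_lit 0x26348092) (nat_lit 0x1017ee126faade) (nat_lit 0x0)
  (PL.C (nat_lit 0x263c5467) (nat_lit 0x0) (nat_lit 0x490ebe2c0da12)
  (PL.C (nat_lit 0x2656cdb5) (nat_lit 0x0) (nat_lit 0x1162000c96fe2a)
  (PL.C (nat_lit 0x2659edc9) (nat_lit 0xb3fa6ffc931a9f2) (nat_lit 0x0)
  (PL.C (nat_lit 0x2681fe6d) (nat_lit 0x43aea635c5aa5f) (nat_lit 0x0)
  (PL.C (nat_lit 0x26830f47) (nat_lit 0x0) (nat_lit 0x35bf7a05969298)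
  (PL.C (nat_lit 0x268ff7eb) (nat_lit 0x21b1f31dd94e62) (nat_lit 0x0)
  (PL.C (nat_lit 0x2691cfcd) (nat_lit 0x3fcc3289cc304) (nat_lit 0x0)
  (PL.C (nat_lit 0x26ab4ae3) (nat_lit 0x352e172eb6a8b6) (nat_lit 0x0)
  (PL.C (nat_lit 0x26c6ff02) (nat_lit 0x0) (nat_lit 0x28a8a7af775be7)
  (PL.C (nat_lit 0x26d61d97) (nat_lit 0x0) (nat_lit 0x5cc54d166e5e6b) gp2_1_121))))))))))))))))))))

noncomputable def gp2_1_119 : PL :=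
  (PL.C (nat_lit 0x2456bfc5) (nat_lit 0x0) (nat_lit 0x61ff178824d15)
  (PL.C (nat_lit 0x245944be) (nat_lit 0x0) (nat_lit 0x486ba956f6a59d)
  (PL.C (nat_lit 0x2479a16b) (nat_lit 0x0) (nat_lit 0x79817e5ac32feb)
  (PL.C (nat_lit 0x24889d0b) (nat_lit 0x0) (nat_lit 0x1b441dc7a4941)
  (PL.C (nat_lit 0x2496da26) (nat_lit 0xab662d13b97b4) (nat_lit 0x0)
  (PL.C (nat_lit 0x249c0391) (nat_lit 0x11eb5d67b05374a) (nat_lit 0x0)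
  (PL.C (nat_lit 0x24c116a2) (nat_lit 0x6b0f59d2efbaa1) (nat_lit 0x0)
  (PL.C (nat_lit 0x24ca7c7f) (nat_lit 0x0) (nat_lit 0x5fd11b1ca837)
  (PL.C (nat_lit 0x24de93f1) (nat_lit 0x546a445a178ca8) (nat_lit 0x0)
  (PL.C (nat_lit 0x24e77c2a) (nat_lit 0xc9f2eb1a2ff01) (nat_lit 0x0)
  (PL.C (nat_lit 0x24f6a4ea) (nat_lit 0x5523803f93859) (nat_lit 0x0)
  (PL.C (nat_lit 0x25002f56) (nat_lit 0x0) (nat_lit 0x911289dc50744)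
  (PL.C (nat_lit 0x254458d7) (nat_lit 0x10f0464f639af) (nat_lit 0x0)
  (PL.C (nat_lit 0x25478002) (nat_lit 0x0) (nat_lit 0x106952627f4c70)
  (PL.C (nat_lit 0x2551b97a) (nat_lit 0x0) (nat_lit 0x78f233bec43f00)
  (PL.C (nat_lit 0x2569694c) (nat_lit 0x0) (nat_lit 0x369afaf9740db)
  (PL.C (nat_lit 0x2591080f) (nat_lit 0x0) (nat_lit 0x1be76ab43a529c)
  (PL.C (nat_lit 0x25967931) (nat_lit 0x0) (nat_lit 0x76954cc3cb6f6)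
  (PL.C (nat_lit 0x259d9f93) (nat_lit 0x635bdefd9c343) (nat_lit 0x0)
  (PL.C (nat_lit 0x25a9d981) (nat_lit 0x3a06da743202cc) (nat_lit 0x0) gp2_1_120))))))))))))))))))))

noncomputable def gp2_1_118 : PL :=
  (PL.C (nat_lit 0x238fe5cd) (nat_lit 0x0) (nat_lit 0x11a9705644ac11a)
  (PL.C (nat_lit 0x23956339) (nat_lit 0x0) (nat_lit 0x7f0562ff946247)
  (PL.C (nat_lit 0x239d850f) (nat_lit 0x0) (nat_lit 0x159401df01c19f)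
  (PL.C (nat_lit 0x23a07401) (nat_lit 0x7b7bebc1a19a2) (nat_lit 0x0)
  (PL.C (nat_lit 0x23a15095) (nat_lit 0x8eefa353db40a9) (nat_lit 0x0)
  (PL.C (nat_lit 0x23a1b233) (nat_lit 0xedf41b252f060f) (nat_lit 0x0)
  (PL.C (nat_lit 0x23b50c81) (nat_lit 0x0) (nat_lit 0x6f2686df2680fb)
  (PL.C (nat_lit 0x23b60983) (nat_lit 0x0) (nat_lit 0x9625ee808046d)
  (PL.C (nat_lit 0x23bb4102) (nat_lit 0x3410f965a52d0e) (nat_lit 0x0)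
  (PL.C (nat_lit 0x23c3b761) (nat_lit 0x0) (nat_lit 0x18c9fe75d3aae)
  (PL.C (nat_lit 0x23c6eb7f) (nat_lit 0x197a25a51aeeaea) (nat_lit 0x0)
  (PL.C (nat_lit 0x23cad3b1) (nat_lit 0x7b22984b06cf92) (nat_lit 0x0)
  (PL.C (nat_lit 0x23f037f5) (nat_lit 0x3e433f84318154) (nat_lit 0x0)
  (PL.C (nat_lit 0x24008e8e) (nat_lit 0x0) (nat_lit 0x16bbfbd7873642)
  (PL.C (nat_lit 0x240c9fd6) (nat_lit 0x0) (nat_lit 0x3a92c1ce5ae7ed)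
  (PL.C (nat_lit 0x2415c349) (nat_lit 0x605a8a0c799f9) (nat_lit 0x0)
  (PL.C (nat_lit 0x2429ef6d) (nat_lit 0x0) (nat_lit 0x14bea65c8c686a0)
  (PL.C (nat_lit 0x242c5ffa) (nat_lit 0x90538673c40416) (nat_lit 0x0)
  (PL.C (nat_lit 0x242ff06b) (nat_lit 0x0) (nat_lit 0x2fe3773376d0b0)
  (PL.C (nat_lit 0x2453ae2f) (nat_lit 0x0) (nat_lit 0xaadc2a8e5dc8db) gp2_1_119))))))))))))))))))))

noncomputable def gp2_1_117 : PL :=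
  (PL.C (nat_lit 0x22886841) (nat_lit 0xe694f8f6b80c0) (nat_lit 0x0)
  (PL.C (nat_lit 0x22a87cb3) (nat_lit 0x0) (nat_lit 0x1320c00b5e057f2)
  (PL.C (nat_lit 0x22b06865) (nat_lit 0x1a7a69e59da3331) (nat_lit 0x0)
  (PL.C (nat_lit 0x22b41aa7) (nat_lit 0x0) (nat_lit 0x513baf348dce92)
  (PL.C (nat_lit 0x22d59c6b) (nat_lit 0x4ecf9005065974) (nat_lit 0x0)
  (PL.C (nat_lit 0x22d5b935) (nat_lit 0x0) (nat_lit 0x1a99425dbe64e7)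
  (PL.C (nat_lit 0x22e1497f) (nat_lit 0x0) (nat_lit 0x84767be909ee54)
  (PL.C (nat_lit 0x22e70b95) (nat_lit 0x0) (nat_lit 0x98e5a7872a2a2)
  (PL.C (nat_lit 0x22f2be81) (nat_lit 0x0) (nat_lit 0x5b2f337b36bea6)
  (PL.C (nat_lit 0x2306b1f1) (nat_lit 0x20a7d933234) (nat_lit 0x0)
  (PL.C (nat_lit 0x231b160b) (nat_lit 0x74c61fd2851527) (nat_lit 0x0)
  (PL.C (nat_lit 0x2333f603) (nat_lit 0x2b2c2cd2c6e8fa) (nat_lit 0x0)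
  (PL.C (nat_lit 0x23392bef) (nat_lit 0x0) (nat_lit 0x26b55f4c39ef90b)
  (PL.C (nat_lit 0x233b8c3e) (nat_lit 0x11a4f1b2410730) (nat_lit 0x0)
  (PL.C (nat_lit 0x233fc2b7) (nat_lit 0x0) (nat_lit 0x7bf0729658d02)
  (PL.C (nat_lit 0x23529c87) (nat_lit 0x0) (nat_lit 0x1766e4f41be9e)
  (PL.C (nat_lit 0x2361d4c5) (nat_lit 0x0) (nat_lit 0x7c33548920d1b45)
  (PL.C (nat_lit 0x23670807) (nat_lit 0x0) (nat_lit 0x10e46217138588)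
  (PL.C (nat_lit 0x2378bff9) (nat_lit 0x605a8a0c799f9) (nat_lit 0x0)
  (PL.C (nat_lit 0x2386cb59) (nat_lit 0x0) (nat_lit 0x15aae22c77d2138) gp2_1_118))))))))))))))))))))

noncomputable def gp2_1_116 : PL :=
  (PL.C (nat_lit 0x2109f249) (nat_lit 0x0) (nat_lit 0x7ef5884683ea7)
  (PL.C (nat_lit 0x2114e3a5) (nat_lit 0xb84fb45d8f7f9) (nat_lit 0x0)
  (PL.C (nat_lit 0x211ffa51) (nat_lit 0x1f8f39a6624f94) (nat_lit 0x0)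
  (PL.C (nat_lit 0x213deb0b) (nat_lit 0x0) (nat_lit 0x262d9d12677350)
  (PL.C (nat_lit 0x213e9b9a) (nat_lit 0x44472237271c2b) (nat_lit 0x0)
  (PL.C (nat_lit 0x215f7152) (nat_lit 0xb1a689a6bf2d9b) (nat_lit 0x0)
  (PL.C (nat_lit 0x21624306) (nat_lit 0x1ef2de9e8a695d) (nat_lit 0x0)
  (PL.C (nat_lit 0x2162bb1f) (nat_lit 0x0) (nat_lit 0x5a55f8af2e7a68)
  (PL.C (nat_lit 0x2188a181) (nat_lit 0x2160440277ca9) (nat_lit 0x0)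
  (PL.C (nat_lit 0x2199ead1) (nat_lit 0x0) (nat_lit 0x1bf9549b8d91e3)
  (PL.C (nat_lit 0x21af570b) (nat_lit 0x1f5d039288c3def) (nat_lit 0x0)
  (PL.C (nat_lit 0x21bc3e39) (nat_lit 0xa998fac1ec72d7) (nat_lit 0x0)
  (PL.C (nat_lit 0x21c5640a) (nat_lit 0x0) (nat_lit 0x10636b84de3aff)
  (PL.C (nat_lit 0x21d287b7) (nat_lit 0x0) (nat_lit 0x34262d32ac68cc)
  (PL.C (nat_lit 0x220fd026) (nat_lit 0x4d3aa67ee54a6a) (nat_lit 0x0)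
  (PL.C (nat_lit 0x2221d88e) (nat_lit 0x0) (nat_lit 0x2401ea95b59414)
  (PL.C (nat_lit 0x2222dabe) (nat_lit 0x7fa04202e18406) (nat_lit 0x0)
  (PL.C (nat_lit 0x22438eb6) (nat_lit 0x0) (nat_lit 0x13c683accd9315)
  (PL.C (nat_lit 0x2246eefd) (nat_lit 0x0) (nat_lit 0x28963fc5769284)
  (PL.C (nat_lit 0x226e14d2) (nat_lit 0x0) (nat_lit 0x14a45fa5f6000ab) gp2_1_117))))))))))))))))))))

noncomputable def gp2_1_115 : PL :=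
  (PL.C (nat_lit 0x204ff369) (nat_lit 0xaead4ca96688ef) (nat_lit 0x0)
  (PL.C (nat_lit 0x205d3949) (nat_lit 0x674d0c43edb82) (nat_lit 0x0)
  (PL.C (nat_lit 0x205fdcad) (nat_lit 0x4bc09694413502) (nat_lit 0x0)
  (PL.C (nat_lit 0x20681265) (nat_lit 0xafd6667d5f0aa) (nat_lit 0x0)
  (PL.C (nat_lit 0x20754003) (nat_lit 0xe03d195a24ad59) (nat_lit 0x0)
  (PL.C (nat_lit 0x2078c6f5) (nat_lit 0x1f8f39a6624f94) (nat_lit 0x0)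
  (PL.C (nat_lit 0x2081aee1) (nat_lit 0x0) (nat_lit 0x52f767dd02eaa8)
  (PL.C (nat_lit 0x208d7ad7) (nat_lit 0x0) (nat_lit 0x6df468ae1b5261)
  (PL.C (nat_lit 0x20906ac2) (nat_lit 0x0) (nat_lit 0x24abea5142bb86)
  (PL.C (nat_lit 0x20959353) (nat_lit 0x5b520cddb405b) (nat_lit 0x0)
  (PL.C (nat_lit 0x2097288f) (nat_lit 0x41958a4ebedcdc) (nat_lit 0x0)
  (PL.C (nat_lit 0x2099f2fd) (nat_lit 0x0) (nat_lit 0x23cf4c5367e53)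
  (PL.C (nat_lit 0x20a48baf) (nat_lit 0xfdcf684b139a5) (nat_lit 0x0)
  (PL.C (nat_lit 0x20af7cb3) (nat_lit 0x1458e6cbefbb9) (nat_lit 0x0)
  (PL.C (nat_lit 0x20bbee8a) (nat_lit 0x0) (nat_lit 0x762a9cd7dca5b1)
  (PL.C (nat_lit 0x20dba5b3) (nat_lit 0x0) (nat_lit 0x8650d78897b780)
  (PL.C (nat_lit 0x20de876f) (nat_lit 0x0) (nat_lit 0x33cde359f9489)
  (PL.C (nat_lit 0x20fee2fd) (nat_lit 0x0) (nat_lit 0x852436b06c211)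
  (PL.C (nat_lit 0x210411a6) (nat_lit 0x0) (nat_lit 0x44e2439a1fcb0e)
  (PL.C (nat_lit 0x21066d6b) (nat_lit 0x15e8257fc8b7d1) (nat_lit 0x0) gp2_1_116))))))))))))))))))))

noncomputable def gp2_1_114 : PL :=
  (PL.C (nat_lit 0x1f4574da) (nat_lit 0x0) (nat_lit 0x872f79ccd12ec)
  (PL.C (nat_lit 0x1f4bdd03) (nat_lit 0x160c9386d6d5fc) (nat_lit 0x0)
  (PL.C (nat_lit 0x1f761cc3) (nat_lit 0x1c0e703a8e307e) (nat_lit 0x0)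
  (PL.C (nat_lit 0x1f78338a) (nat_lit 0x0) (nat_lit 0x3772aa12eb255c)
  (PL.C (nat_lit 0x1f7d5e16) (nat_lit 0x1fecd12efc823e) (nat_lit 0x0)
  (PL.C (nat_lit 0x1f905297) (nat_lit 0x6bb86e2476893b) (nat_lit 0x0)
  (PL.C (nat_lit 0x1fb4c1fd) (nat_lit 0xaff0c848b9e6b8) (nat_lit 0x0)
  (PL.C (nat_lit 0x1fc0e71f) (nat_lit 0x40d46f94d0ab1b) (nat_lit 0x0)
  (PL.C (nat_lit 0x1fcb3945) (nat_lit 0x1aaead6c4b8e38) (nat_lit 0x0)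
  (PL.C (nat_lit 0x1fd5e171) (nat_lit 0x791166e03ff598) (nat_lit 0x0)
  (PL.C (nat_lit 0x1fde43c6) (nat_lit 0x0) (nat_lit 0x1765ac11f0e374)
  (PL.C (nat_lit 0x1fe8313f) (nat_lit 0x50d8ca0ef7bf49) (nat_lit 0x0)
  (PL.C (nat_lit 0x1feda54d) (nat_lit 0x29912726323327) (nat_lit 0x0)
  (PL.C (nat_lit 0x2000e471) (nat_lit 0x0) (nat_lit 0x4948053c5cbd4ad)
  (PL.C (nat_lit 0x20034f26) (nat_lit 0x655440afd19327) (nat_lit 0x0)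
  (PL.C (nat_lit 0x2023371f) (nat_lit 0x0) (nat_lit 0xdca59e83669b54)
  (PL.C (nat_lit 0x202a8f59) (nat_lit 0x1cd11669ef1229) (nat_lit 0x0)
  (PL.C (nat_lit 0x203aa8a7) (nat_lit 0x426dff54000c6f) (nat_lit 0x0)
  (PL.C (nat_lit 0x204d0eb7) (nat_lit 0x143cc76716e40d) (nat_lit 0x0)
  (PL.C (nat_lit 0x204d2969) (nat_lit 0x1e75770cc13125) (nat_lit 0x0) gp2_1_115))))))))))))))))))))

noncomputable def gp2_1_113 : PL :=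
  (PL.C (nat_lit 0x1e247845) (nat_lit 0xcb6b16b4f8727) (nat_lit 0x0)
  (PL.C (nat_lit 0x1e2f9f8a) (nat_lit 0x1f344e9ef0ff228) (nat_lit 0x0)
  (PL.C (nat_lit 0x1e506c47) (nat_lit 0x17f30a8db6ae12a) (nat_lit 0x0)
  (PL.C (nat_lit 0x1e5a7b72) (nat_lit 0x336592281d0b3) (nat_lit 0x0)
  (PL.C (nat_lit 0x1e6a2112) (nat_lit 0x0) (nat_lit 0x8535ed708a254)
  (PL.C (nat_lit 0x1e6e65ae) (nat_lit 0x14898f306bd659) (nat_lit 0x0)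
  (PL.C (nat_lit 0x1e77e41f) (nat_lit 0x2d7d05b3aa603a1) (nat_lit 0x0)
  (PL.C (nat_lit 0x1e8723e1) (nat_lit 0x0) (nat_lit 0x172cef646f860c4)
  (PL.C (nat_lit 0x1e8c3557) (nat_lit 0x22b34dc9176964) (nat_lit 0x0)
  (PL.C (nat_lit 0x1e989151) (nat_lit 0x0) (nat_lit 0xddd7c799be427)
  (PL.C (nat_lit 0x1e9d5f7e) (nat_lit 0x55a92b726db54) (nat_lit 0x0)
  (PL.C (nat_lit 0x1eaa612b) (nat_lit 0x0) (nat_lit 0x89b5e934321834)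
  (PL.C (nat_lit 0x1eca6a57) (nat_lit 0x0) (nat_lit 0x185750270f7ca4a)
  (PL.C (nat_lit 0x1ee3153e) (nat_lit 0x4fef4e98d4530d) (nat_lit 0x0)
  (PL.C (nat_lit 0x1f06bcaa) (nat_lit 0x1396ca5fec0c7d) (nat_lit 0x0)
  (PL.C (nat_lit 0x1f19148f) (nat_lit 0x63efcaabb787e0) (nat_lit 0x0)
  (PL.C (nat_lit 0x1f1fa175) (nat_lit 0x5831fba3b516276) (nat_lit 0x0)
  (PL.C (nat_lit 0x1f272652) (nat_lit 0x12201fbcc1ee08) (nat_lit 0x0)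
  (PL.C (nat_lit 0x1f3a05f6) (nat_lit 0xa50c9f58d01b3) (nat_lit 0x0)
  (PL.C (nat_lit 0x1f3c3afd) (nat_lit 0x0) (nat_lit 0x9625ee808046d) gp2_1_114))))))))))))))))))))

noncomputable def gp2_1_112 : PL :=
  (PL.C (nat_lit 0x1d57efac) (nat_lit 0x0) (nat_lit 0x141daa5bc158c)
  (PL.C (nat_lit 0x1d5bcb37) (nat_lit 0x0) (nat_lit 0x4a5a44d005ec1c)
  (PL.C (nat_lit 0x1d67f2c9) (nat_lit 0x5990ccd9d72be2) (nat_lit 0x0)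
  (PL.C (nat_lit 0x1d71b5bb) (nat_lit 0xcd85614018265) (nat_lit 0x0)
  (PL.C (nat_lit 0x1d7b47b9) (nat_lit 0x0) (nat_lit 0x4670fcc1a674d)
  (PL.C (nat_lit 0x1d807245) (nat_lit 0x0) (nat_lit 0x15bd8b684f4ea1)
  (PL.C (nat_lit 0x1d96245b) (nat_lit 0x0) (nat_lit 0xddd7c799be427)
  (PL.C (nat_lit 0x1d9899f4) (nat_lit 0x0) (nat_lit 0x38a99f8199b751)
  (PL.C (nat_lit 0x1d9b32e1) (nat_lit 0x0) (nat_lit 0x2cd384774de29)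
  (PL.C (nat_lit 0x1d9bb9e2) (nat_lit 0x0) (nat_lit 0xa65941d46ca71c)
  (PL.C (nat_lit 0x1dafa5f9) (nat_lit 0x0) (nat_lit 0x1fb57334e0947e)
  (PL.C (nat_lit 0x1dbbe5eb) (nat_lit 0x5c43ad959f5b9b5) (nat_lit 0x0)
  (PL.C (nat_lit 0x1dc175d3) (nat_lit 0x3566ff276d14f2) (nat_lit 0x0)
  (PL.C (nat_lit 0x1ddcf98e) (nat_lit 0x0) (nat_lit 0xec587c748945df)
  (PL.C (nat_lit 0x1dde3899) (nat_lit 0x0) (nat_lit 0x438b6aabadc86f6)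
  (PL.C (nat_lit 0x1de29c63) (nat_lit 0x2f8f1c80858fdd) (nat_lit 0x0)
  (PL.C (nat_lit 0x1dfd6c7d) (nat_lit 0x196f07a55433813) (nat_lit 0x0)
  (PL.C (nat_lit 0x1e051bc1) (nat_lit 0x0) (nat_lit 0xaf1fc0b74595e)
  (PL.C (nat_lit 0x1e109b8b) (nat_lit 0x456a4cf65a29c) (nat_lit 0x0)
  (PL.C (nat_lit 0x1e13cfa9) (nat_lit 0x9e298d06206422) (nat_lit 0x0) gp2_1_113))))))))))))))))))))

noncomputable def gp2_1_111 : PL :=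
  (PL.C (nat_lit 0x1c6016e4) (nat_lit 0x0) (nat_lit 0x38a99f8199b751)
  (PL.C (nat_lit 0x1c66ddc1) (nat_lit 0x0) (nat_lit 0x437c7a967f42a0)
  (PL.C (nat_lit 0x1c7504f7) (nat_lit 0x224ea206b500f4) (nat_lit 0x0)
  (PL.C (nat_lit 0x1c834309) (nat_lit 0x0) (nat_lit 0x2e3197275e7f15)
  (PL.C (nat_lit 0x1c9389f9) (nat_lit 0x0) (nat_lit 0x9f292357b9b55)
  (PL.C (nat_lit 0x1c97b6a6) (nat_lit 0x252b1dfc923513) (nat_lit 0x0)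
  (PL.C (nat_lit 0x1c9e9efc) (nat_lit 0x0) (nat_lit 0x141daa5bc158c)
  (PL.C (nat_lit 0x1cadaec9) (nat_lit 0x0) (nat_lit 0x8e4de8319351f5)
  (PL.C (nat_lit 0x1cb2c956) (nat_lit 0x0) (nat_lit 0xd482c82719434)
  (PL.C (nat_lit 0x1cd3c539) (nat_lit 0x0) (nat_lit 0xcc549dd83b973d)
  (PL.C (nat_lit 0x1cd5b712) (nat_lit 0x2c2f086e9b271c) (nat_lit 0x0)
  (PL.C (nat_lit 0x1cdc2aa9) (nat_lit 0x0) (nat_lit 0x1731a505d426790)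
  (PL.C (nat_lit 0x1cf50bf3) (nat_lit 0x0) (nat_lit 0x9da8b172ed3a9c)
  (PL.C (nat_lit 0x1d052eaf) (nat_lit 0x0) (nat_lit 0x3f2ab8f9eeb1a)
  (PL.C (nat_lit 0x1d11afbd) (nat_lit 0x0) (nat_lit 0x20a3cb2de41904)
  (PL.C (nat_lit 0x1d134c3f) (nat_lit 0x0) (nat_lit 0x57d5e0f737de20)
  (PL.C (nat_lit 0x1d14245f) (nat_lit 0x0) (nat_lit 0x383f90b347c8b2)
  (PL.C (nat_lit 0x1d452299) (nat_lit 0x0) (nat_lit 0x1f0ee932b887a)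
  (PL.C (nat_lit 0x1d4872b9) (nat_lit 0x2737e5bf0e5acf) (nat_lit 0x0)
  (PL.C (nat_lit 0x1d4b9183) (nat_lit 0x28d64c535933ee1) (nat_lit 0x0) gp2_1_112))))))))))))))))))))

noncomputable def gp2_1_110 : PL :=
  (PL.C (nat_lit 0x1b8d1b16) (nat_lit 0x0) (nat_lit 0x15bafb2bb8ac95)
  (PL.C (nat_lit 0x1b924e37) (nat_lit 0x0) (nat_lit 0x13badf429a1ee39)
  (PL.C (nat_lit 0x1bb0fa06) (nat_lit 0xa50a49d3b2ca2) (nat_lit 0x0)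
  (PL.C (nat_lit 0x1bb221dd) (nat_lit 0x0) (nat_lit 0x168524afc9d8f91)
  (PL.C (nat_lit 0x1bbcbdbf) (nat_lit 0x58645bf6c1c39e) (nat_lit 0x0)
  (PL.C (nat_lit 0x1bbed5fa) (nat_lit 0x0) (nat_lit 0x12ec95cabae3ea)
  (PL.C (nat_lit 0x1bcf10d1) (nat_lit 0x0) (nat_lit 0x1bb85015b7ff894)
  (PL.C (nat_lit 0x1bdbb5fd) (nat_lit 0x4fd374d9499f56) (nat_lit 0x0)
  (PL.C (nat_lit 0x1be3d32d) (nat_lit 0x0) (nat_lit 0x35c246061042d4)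
  (PL.C (nat_lit 0x1bfbde5f) (nat_lit 0x0) (nat_lit 0x4af78a8e0c441a)
  (PL.C (nat_lit 0x1bfbfab6) (nat_lit 0x0) (nat_lit 0xf2c6a115bc71f)
  (PL.C (nat_lit 0x1c0b9f8e) (nat_lit 0x0) (nat_lit 0x3c6b6ce98bfacd)
  (PL.C (nat_lit 0x1c0fb277) (nat_lit 0x0) (nat_lit 0x55e3506ec5939a)
  (PL.C (nat_lit 0x1c104782) (nat_lit 0x0) (nat_lit 0x221b835c220400)
  (PL.C (nat_lit 0x1c191a5b) (nat_lit 0x0) (nat_lit 0x3217c6d66e7fba)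
  (PL.C (nat_lit 0x1c2ec5db) (nat_lit 0xd1acfb64c885b0) (nat_lit 0x0)
  (PL.C (nat_lit 0x1c37d2a6) (nat_lit 0x0) (nat_lit 0xbdae67cd9617)
  (PL.C (nat_lit 0x1c43fa45) (nat_lit 0x0) (nat_lit 0x204b9e3a4fb24c)
  (PL.C (nat_lit 0x1c496d82) (nat_lit 0x3179de13a07514) (nat_lit 0x0)
  (PL.C (nat_lit 0x1c5d5bd5) (nat_lit 0x69b3f4dc4d59bf) (nat_lit 0x0) gp2_1_111))))))))))))))))))))

noncomputable def gp2_1_109 : PL :=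
  (PL.C (nat_lit 0x1ae7642b) (nat_lit 0x0) (nat_lit 0x3395bee37f488a)
  (PL.C (nat_lit 0x1af47911) (nat_lit 0xe5a88b821ded19) (nat_lit 0x0)
  (PL.C (nat_lit 0x1af6bffb) (nat_lit 0x0) (nat_lit 0x31d16df7fc75f)
  (PL.C (nat_lit 0x1b0413f5) (nat_lit 0x0) (nat_lit 0x85930bf45aaa2e5)
  (PL.C (nat_lit 0x1b061e3e) (nat_lit 0x1e45121fb7d8f6) (nat_lit 0x0)
  (PL.C (nat_lit 0x1b27407d) (nat_lit 0x356fdb5bb0ce14) (nat_lit 0x0)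
  (PL.C (nat_lit 0x1b2a252f) (nat_lit 0x0) (nat_lit 0x1333868ff7bf347)
  (PL.C (nat_lit 0x1b34d783) (nat_lit 0x449d1c1d3e45d) (nat_lit 0x0)
  (PL.C (nat_lit 0x1b46d0cd) (nat_lit 0x0) (nat_lit 0x1139391aa5b414)
  (PL.C (nat_lit 0x1b4d8347) (nat_lit 0x1686a45353a435) (nat_lit 0x0)
  (PL.C (nat_lit 0x1b50e89a) (nat_lit 0x105f63e50d2b2b3) (nat_lit 0x0)
  (PL.C (nat_lit 0x1b664d4f) (nat_lit 0xc1e4d5a9e61e12) (nat_lit 0x0)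
  (PL.C (nat_lit 0x1b694789) (nat_lit 0x0) (nat_lit 0x5beb8bf24e8ef)
  (PL.C (nat_lit 0x1b6dc787) (nat_lit 0x46d1a2eb97c55a) (nat_lit 0x0)
  (PL.C (nat_lit 0x1b70cc25) (nat_lit 0x0) (nat_lit 0x5ce2536a949882)
  (PL.C (nat_lit 0x1b7277a5) (nat_lit 0x1683db0bbf85eed) (nat_lit 0x0)
  (PL.C (nat_lit 0x1b74792a) (nat_lit 0x0) (nat_lit 0x20e98e7991ffa3)
  (PL.C (nat_lit 0x1b8236d6) (nat_lit 0x1d63b745190fb) (nat_lit 0x0)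
  (PL.C (nat_lit 0x1b82a04a) (nat_lit 0x0) (nat_lit 0x9c811f02820e90)
  (PL.C (nat_lit 0x1b82ed0b) (nat_lit 0xe83b8327491be) (nat_lit 0x0) gp2_1_110))))))))))))))))))))

noncomputable def gp2_1_108 : PL :=
  (PL.C (nat_lit 0x1a05c94a) (nat_lit 0x0) (nat_lit 0x207ae8ea9b340f)
  (PL.C (nat_lit 0x1a0c8635) (nat_lit 0x0) (nat_lit 0x76d08143f5ba3)
  (PL.C (nat_lit 0x1a0edfe6) (nat_lit 0x0) (nat_lit 0x79ff88798bb7e9)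
  (PL.C (nat_lit 0x1a17e362) (nat_lit 0x0) (nat_lit 0x4aca76ba47599d)
  (PL.C (nat_lit 0x1a312b67) (nat_lit 0xcfba7ea376c5ca) (nat_lit 0x0)
  (PL.C (nat_lit 0x1a360236) (nat_lit 0x0) (nat_lit 0xb0a980eb7b2ec1)
  (PL.C (nat_lit 0x1a3ac74a) (nat_lit 0x0) (nat_lit 0x50f2779f80a063)
  (PL.C (nat_lit 0x1a45ec09) (nat_lit 0x125402a8bfcf4ac) (nat_lit 0x0)
  (PL.C (nat_lit 0x1a4d4289) (nat_lit 0x0) (nat_lit 0x109edfdbee438d)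
  (PL.C (nat_lit 0x1a51640e) (nat_lit 0x0) (nat_lit 0x3ace4f5e7c5b74)
  (PL.C (nat_lit 0x1a70680d) (nat_lit 0x17f32b5b0e9f3e) (nat_lit 0x0)
  (PL.C (nat_lit 0x1a7e091d) (nat_lit 0x52bd3ee03a041a) (nat_lit 0x0)
  (PL.C (nat_lit 0x1a8eed0f) (nat_lit 0x1cd11669ef1229) (nat_lit 0x0)
  (PL.C (nat_lit 0x1a950cee) (nat_lit 0x0) (nat_lit 0x6207a822bbec7f)
  (PL.C (nat_lit 0x1a991965) (nat_lit 0x0) (nat_lit 0x121cc357b35cb9)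
  (PL.C (nat_lit 0x1aa50d33) (nat_lit 0x25c45bf2bf34ec) (nat_lit 0x0)
  (PL.C (nat_lit 0x1aaaabcb) (nat_lit 0x0) (nat_lit 0x3e8c17faf9fcc7)
  (PL.C (nat_lit 0x1ad9f3d5) (nat_lit 0x0) (nat_lit 0x332f0e7e13378a)
  (PL.C (nat_lit 0x1adfc4f5) (nat_lit 0x83b87065830a25) (nat_lit 0x0)
  (PL.C (nat_lit 0x1ae51c24) (nat_lit 0x311be182d05f) (nat_lit 0x0) gp2_1_109))))))))))))))))))))

noncomputable def gp2_1_107 : PL :=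
  (PL.C (nat_lit 0x1919a0d7) (nat_lit 0x0) (nat_lit 0x84183e974a71aa)
  (PL.C (nat_lit 0x191be656) (nat_lit 0x0) (nat_lit 0x722e94196f3ef1)
  (PL.C (nat_lit 0x19297791) (nat_lit 0x0) (nat_lit 0x439a4830a25c7)
  (PL.C (nat_lit 0x192ea4be) (nat_lit 0x166aa198a277b8) (nat_lit 0x0)
  (PL.C (nat_lit 0x1931acb3) (nat_lit 0x25c5b99780eae4) (nat_lit 0x0)
  (PL.C (nat_lit 0x1946345a) (nat_lit 0x102cad329a3ad9) (nat_lit 0x0)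
  (PL.C (nat_lit 0x194fc923) (nat_lit 0x0) (nat_lit 0x175a5a877b1b4ff)
  (PL.C (nat_lit 0x1950f131) (nat_lit 0x168bc53b878609e) (nat_lit 0x0)
  (PL.C (nat_lit 0x196aee8d) (nat_lit 0x0) (nat_lit 0x10e8b053fa9f03)
  (PL.C (nat_lit 0x196f1ac3) (nat_lit 0x43a205dc85a471) (nat_lit 0x0)
  (PL.C (nat_lit 0x197d8d9a) (nat_lit 0x0) (nat_lit 0x1ba8e1adea0ce3)
  (PL.C (nat_lit 0x198f33ce) (nat_lit 0x0) (nat_lit 0x211795b18367f5)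
  (PL.C (nat_lit 0x199701a3) (nat_lit 0x0) (nat_lit 0x6fcfe3cdf730c7a)
  (PL.C (nat_lit 0x19acb4da) (nat_lit 0x44472237271c2b) (nat_lit 0x0)
  (PL.C (nat_lit 0x19b54ff2) (nat_lit 0x45286b1fcbe905) (nat_lit 0x0)
  (PL.C (nat_lit 0x19b852db) (nat_lit 0x0) (nat_lit 0xe35a45396174d3)
  (PL.C (nat_lit 0x19c062cf) (nat_lit 0xdd667a17cbbc5) (nat_lit 0x0)
  (PL.C (nat_lit 0x19c78742) (nat_lit 0x2179fa0e1d0829) (nat_lit 0x0)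
  (PL.C (nat_lit 0x19e413ba) (nat_lit 0x0) (nat_lit 0x154fc34b032b061)
  (PL.C (nat_lit 0x1a017806) (nat_lit 0x0) (nat_lit 0x7a027f57448479) gp2_1_108))))))))))))))))))))

noncomputable def gp2_1_106 : PL :=
  (PL.C (nat_lit 0x1886fdaa) (nat_lit 0x0) (nat_lit 0x1b91f9cc851db2)
  (PL.C (nat_lit 0x1889f171) (nat_lit 0x0) (nat_lit 0x1025bb4d071b844)
  (PL.C (nat_lit 0x188c041b) (nat_lit 0x0) (nat_lit 0x2fe8dfd5fe18c8)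
  (PL.C (nat_lit 0x1890cbf1) (nat_lit 0x0) (nat_lit 0x1c8573cd49556c)
  (PL.C (nat_lit 0x18943e6f) (nat_lit 0x0) (nat_lit 0xfd309435f43b8)
  (PL.C (nat_lit 0x18a0756b) (nat_lit 0x7bb1b3254c3af) (nat_lit 0x0)
  (PL.C (nat_lit 0x18a9e459) (nat_lit 0x28eb7cef8bf7c) (nat_lit 0x0)
  (PL.C (nat_lit 0x18b4f99f) (nat_lit 0x0) (nat_lit 0x135498b419b05c)
  (PL.C (nat_lit 0x18ba2f97) (nat_lit 0xa154dc7273f32) (nat_lit 0x0)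
  (PL.C (nat_lit 0x18c88053) (nat_lit 0x0) (nat_lit 0x7bb56f57ea8ece)
  (PL.C (nat_lit 0x18cf3b21) (nat_lit 0x1987b0356ea9b9a) (nat_lit 0x0)
  (PL.C (nat_lit 0x18d83b3a) (nat_lit 0x0) (nat_lit 0xd24d743190eac)
  (PL.C (nat_lit 0x18eb6c29) (nat_lit 0x3c7c228606386) (nat_lit 0x0)
  (PL.C (nat_lit 0x18eca3c1) (nat_lit 0xba3d844fc39e1ee) (nat_lit 0x0)
  (PL.C (nat_lit 0x18f27d77) (nat_lit 0x7423c8946256b) (nat_lit 0x0)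
  (PL.C (nat_lit 0x18ff59a7) (nat_lit 0x281b5836892a7e) (nat_lit 0x0)
  (PL.C (nat_lit 0x190d1729) (nat_lit 0x7a74c42df85146) (nat_lit 0x0)
  (PL.C (nat_lit 0x190efb76) (nat_lit 0x0) (nat_lit 0x1a5114920eb55d)
  (PL.C (nat_lit 0x190f499d) (nat_lit 0x0) (nat_lit 0x464a0f0b3a7de9)
  (PL.C (nat_lit 0x1918e2ff) (nat_lit 0x2e9cfcd51018b) (nat_lit 0x0) gp2_1_107))))))))))))))))))))

noncomputable def gp2_1_105 : PL :=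
  (PL.C (nat_lit 0x1759cbf6) (nat_lit 0x0) (nat_lit 0x2cc7407f05320)
  (PL.C (nat_lit 0x177999d5) (nat_lit 0x18da4c209d61c76) (nat_lit 0x0)
  (PL.C (nat_lit 0x178c685a) (nat_lit 0x1033b45fd09329) (nat_lit 0x0)
  (PL.C (nat_lit 0x179a055a) (nat_lit 0x169e455a30c291) (nat_lit 0x0)
  (PL.C (nat_lit 0x17b543de) (nat_lit 0x0) (nat_lit 0x31e15fc26fb97fd)
  (PL.C (nat_lit 0x17ba91cf) (nat_lit 0x0) (nat_lit 0x102c72cd6607a95)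
  (PL.C (nat_lit 0x17c04d56) (nat_lit 0xe68fe660bf9e1) (nat_lit 0x0)
  (PL.C (nat_lit 0x17cb1bb1) (nat_lit 0x0) (nat_lit 0x29e746cea968435)
  (PL.C (nat_lit 0x17ce0856) (nat_lit 0x0) (nat_lit 0x94c0d7bbae778e)
  (PL.C (nat_lit 0x17ceb102) (nat_lit 0x0) (nat_lit 0x235b02c20174dc)
  (PL.C (nat_lit 0x17d7cf96) (nat_lit 0x0) (nat_lit 0x1b6e357b6e5c3)
  (PL.C (nat_lit 0x17f1b7e9) (nat_lit 0x2327b37163f90f) (nat_lit 0x0)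
  (PL.C (nat_lit 0x17f9be85) (nat_lit 0x0) (nat_lit 0x7b17da33d0d9c)
  (PL.C (nat_lit 0x1805b113) (nat_lit 0x0) (nat_lit 0x115f654679fbbae)
  (PL.C (nat_lit 0x1811b6ed) (nat_lit 0x0) (nat_lit 0x18ce20952db36a)
  (PL.C (nat_lit 0x18278a69) (nat_lit 0x0) (nat_lit 0x8a7d410dec0b9)
  (PL.C (nat_lit 0x1839d52e) (nat_lit 0x0) (nat_lit 0x2130285832931a)
  (PL.C (nat_lit 0x1841f585) (nat_lit 0x55a6eaf4c60baf) (nat_lit 0x0)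
  (PL.C (nat_lit 0x184c66dd) (nat_lit 0x590338ec396bfe) (nat_lit 0x0)
  (PL.C (nat_lit 0x188428a1) (nat_lit 0x4c33c7a97b517) (nat_lit 0x0) gp2_1_106))))))))))))))))))))

noncomputable def gp2_1_104 : PL :=
  (PL.C (nat_lit 0x1674e4b2) (nat_lit 0x4154f58b1c5e30) (nat_lit 0x0)
  (PL.C (nat_lit 0x1682c637) (nat_lit 0x0) (nat_lit 0x2719dbea7a6bc)
  (PL.C (nat_lit 0x168c5a7a) (nat_lit 0xb05116d19e4aa) (nat_lit 0x0)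
  (PL.C (nat_lit 0x16aaafe9) (nat_lit 0x0) (nat_lit 0x10979bda27e3d0e)
  (PL.C (nat_lit 0x16b60817) (nat_lit 0x0) (nat_lit 0x262d9d12677350)
  (PL.C (nat_lit 0x16ba7465) (nat_lit 0x0) (nat_lit 0x24c51810776f9c)
  (PL.C (nat_lit 0x16c11315) (nat_lit 0x19f078a24d6a43c) (nat_lit 0x0)
  (PL.C (nat_lit 0x16c2ff27) (nat_lit 0x1206383dc94d3) (nat_lit 0x0)
  (PL.C (nat_lit 0x16caa04b) (nat_lit 0x73f1876befb2f) (nat_lit 0x0)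
  (PL.C (nat_lit 0x16d4b0d7) (nat_lit 0xe7c8768d7b2900) (nat_lit 0x0)
  (PL.C (nat_lit 0x16dd5067) (nat_lit 0xe28b808a1025c) (nat_lit 0x0)
  (PL.C (nat_lit 0x16ec8ab3) (nat_lit 0x7c50f03ebe8086) (nat_lit 0x0)
  (PL.C (nat_lit 0x16f5f553) (nat_lit 0x1cc9a737757cc9) (nat_lit 0x0)
  (PL.C (nat_lit 0x17059ad6) (nat_lit 0x2c75551bb902d2) (nat_lit 0x0)
  (PL.C (nat_lit 0x1723ad6d) (nat_lit 0x0) (nat_lit 0x5966b4e8847b)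
  (PL.C (nat_lit 0x172779e3) (nat_lit 0x61b86371720ba8) (nat_lit 0x0)
  (PL.C (nat_lit 0x172b6ef9) (nat_lit 0x1683db0bbf85eed) (nat_lit 0x0)
  (PL.C (nat_lit 0x173912f2) (nat_lit 0x0) (nat_lit 0x15cf2187e4b6a3)
  (PL.C (nat_lit 0x1740dbaa) (nat_lit 0x114201b4207f368) (nat_lit 0x0)
  (PL.C (nat_lit 0x17464f53) (nat_lit 0x0) (nat_lit 0x3c3d47bce093cc) gp2_1_105))))))))))))))))))))

noncomputable def gp2_1_103 : PL :=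
  (PL.C (nat_lit 0x15c307ca) (nat_lit 0x17b9a4253a0b69) (nat_lit 0x0)
  (PL.C (nat_lit 0x15c553f9) (nat_lit 0x46cf8869a2c342) (nat_lit 0x0)
  (PL.C (nat_lit 0x15ca5322) (nat_lit 0x7286dc2d3db8ff) (nat_lit 0x0)
  (PL.C (nat_lit 0x15d3b5f7) (nat_lit 0x62aaf7bc09547c) (nat_lit 0x0)
  (PL.C (nat_lit 0x15ff41fe) (nat_lit 0x0) (nat_lit 0xbc93e20cdc465)
  (PL.C (nat_lit 0x160448f2) (nat_lit 0xefbd2fd73d6b2) (nat_lit 0x0)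
  (PL.C (nat_lit 0x1606a186) (nat_lit 0xe0d335890df35a) (nat_lit 0x0)
  (PL.C (nat_lit 0x16101e55) (nat_lit 0x2720083d8c7d108) (nat_lit 0x0)
  (PL.C (nat_lit 0x161b7de5) (nat_lit 0x41bf893e5c86d4) (nat_lit 0x0)
  (PL.C (nat_lit 0x161c3543) (nat_lit 0x1118160876822b5) (nat_lit 0x0)
  (PL.C (nat_lit 0x16299627) (nat_lit 0x0) (nat_lit 0x138d1cf9783d0f)
  (PL.C (nat_lit 0x162b756d) (nat_lit 0x220e8d5d04839f) (nat_lit 0x0)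
  (PL.C (nat_lit 0x1632136d) (nat_lit 0x0) (nat_lit 0x1bc504f2a57e980)
  (PL.C (nat_lit 0x1640bd43) (nat_lit 0x0) (nat_lit 0xafe17dbde8b7d9)
  (PL.C (nat_lit 0x16418204) (nat_lit 0x6abec6804ee9d9) (nat_lit 0x0)
  (PL.C (nat_lit 0x164670ff) (nat_lit 0x1e5183b89586aad) (nat_lit 0x0)
  (PL.C (nat_lit 0x16519701) (nat_lit 0x0) (nat_lit 0x23ad5aee345471)
  (PL.C (nat_lit 0x165b1656) (nat_lit 0x1dd58ec0cca245) (nat_lit 0x0)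
  (PL.C (nat_lit 0x165d1851) (nat_lit 0xa6ec05bfebab56) (nat_lit 0x0)
  (PL.C (nat_lit 0x1664974d) (nat_lit 0x0) (nat_lit 0x1538f28989f3bbe) gp2_1_104))))))))))))))))))))

noncomputable def gp2_1_102 : PL :=
  (PL.C (nat_lit 0x15524409) (nat_lit 0x288e493ae3e8c0) (nat_lit 0x0)
  (PL.C (nat_lit 0x155df2ef) (nat_lit 0x0) (nat_lit 0xc27afb7eefe1bf)
  (PL.C (nat_lit 0x156ccf6a) (nat_lit 0x0) (nat_lit 0x123d996d6fd6b2b)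
  (PL.C (nat_lit 0x1571b4e6) (nat_lit 0x0) (nat_lit 0x18fd2a1ff2cb681)
  (PL.C (nat_lit 0x157223ff) (nat_lit 0x58d89110393a64) (nat_lit 0x0)
  (PL.C (nat_lit 0x1578630f) (nat_lit 0x1dd0ab135d151f) (nat_lit 0x0)
  (PL.C (nat_lit 0x1588b47a) (nat_lit 0x399c5742b35173) (nat_lit 0x0)
  (PL.C (nat_lit 0x1588c646) (nat_lit 0x259c6d9bfd14da) (nat_lit 0x0)
  (PL.C (nat_lit 0x158aa246) (nat_lit 0x7449db051350e7) (nat_lit 0x0)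
  (PL.C (nat_lit 0x158ae575) (nat_lit 0x0) (nat_lit 0x3ad9da07d319f9)
  (PL.C (nat_lit 0x15937b86) (nat_lit 0x0) (nat_lit 0x6a18b466d0f26)
  (PL.C (nat_lit 0x159ab6ee) (nat_lit 0x8246c3638beae9) (nat_lit 0x0)
  (PL.C (nat_lit 0x15a166c9) (nat_lit 0x359419e7fc0c92) (nat_lit 0x0)
  (PL.C (nat_lit 0x15a38002) (nat_lit 0x2d3a66022f26046) (nat_lit 0x0)
  (PL.C (nat_lit 0x15b3a73a) (nat_lit 0x5be338fcb9a74e) (nat_lit 0x0)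
  (PL.C (nat_lit 0x15b90ce2) (nat_lit 0x322c42b4d63d2) (nat_lit 0x0)
  (PL.C (nat_lit 0x15ba1b0a) (nat_lit 0x630fcd797f25a4) (nat_lit 0x0)
  (PL.C (nat_lit 0x15ba7407) (nat_lit 0x0) (nat_lit 0x4ab1a75b0194c3)
  (PL.C (nat_lit 0x15bcc4bd) (nat_lit 0x0) (nat_lit 0x2d8cc6d2cfb9eb)
  (PL.C (nat_lit 0x15bd004b) (nat_lit 0x0) (nat_lit 0xbf97518ae6e7d) gp2_1_103))))))))))))))))))))

noncomputable def gp2_1_101 : PL :=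
  (PL.C (nat_lit 0x14bfa26b) (nat_lit 0x0) (nat_lit 0x8724b55c1f904)
  (PL.C (nat_lit 0x14c3ace1) (nat_lit 0x5f12358e55cf0c) (nat_lit 0x0)
  (PL.C (nat_lit 0x14cc9449) (nat_lit 0x0) (nat_lit 0x2745fb05b4e374)
  (PL.C (nat_lit 0x14d2d1fe) (nat_lit 0x0) (nat_lit 0x235b02c20174dc)
  (PL.C (nat_lit 0x14dd3e02) (nat_lit 0x774d0d2520ded) (nat_lit 0x0)
  (PL.C (nat_lit 0x1504ac6d) (nat_lit 0x0) (nat_lit 0x89137dca2fd63)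
  (PL.C (nat_lit 0x1506246b) (nat_lit 0x1d98dc8b270692c) (nat_lit 0x0)
  (PL.C (nat_lit 0x150ae1ba) (nat_lit 0x0) (nat_lit 0x5b9fb9b3e830a7)
  (PL.C (nat_lit 0x15134b59) (nat_lit 0x0) (nat_lit 0x2c0d34a0637773)
  (PL.C (nat_lit 0x15196ec9) (nat_lit 0x0) (nat_lit 0x770667605933d5)
  (PL.C (nat_lit 0x151a0c83) (nat_lit 0x179c50d75112433) (nat_lit 0x0)
  (PL.C (nat_lit 0x15211f37) (nat_lit 0x0) (nat_lit 0xeba35dd771624)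
  (PL.C (nat_lit 0x15232bfe) (nat_lit 0x0) (nat_lit 0xc576db203c901)
  (PL.C (nat_lit 0x152b9f53) (nat_lit 0x0) (nat_lit 0x41baa8b8b43519)
  (PL.C (nat_lit 0x1532262e) (nat_lit 0x0) (nat_lit 0x2acb17008d7b19)
  (PL.C (nat_lit 0x1533bb51) (nat_lit 0x0) (nat_lit 0x5412f7d6dd8697)
  (PL.C (nat_lit 0x153940f6) (nat_lit 0x0) (nat_lit 0x3f35466529731c)
  (PL.C (nat_lit 0x1541bd1f) (nat_lit 0x13fa67edc5bed) (nat_lit 0x0)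
  (PL.C (nat_lit 0x1545762a) (nat_lit 0x0) (nat_lit 0x9a26dd7da3146a)
  (PL.C (nat_lit 0x154918de) (nat_lit 0x1f20bc3d1610fe) (nat_lit 0x0) gp2_1_102))))))))))))))))))))

noncomputable def gp2_1_100 : PL :=
  (PL.C (nat_lit 0x143a1943) (nat_lit 0x0) (nat_lit 0x59b1089d299e3)
  (PL.C (nat_lit 0x143a66cd) (nat_lit 0x0) (nat_lit 0x847205ce4a270d)
  (PL.C (nat_lit 0x143c524c) (nat_lit 0x5cadfd0d0caf72) (nat_lit 0x0)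
  (PL.C (nat_lit 0x143d54f3) (nat_lit 0x0) (nat_lit 0x10679fae4a035c)
  (PL.C (nat_lit 0x1447c3e3) (nat_lit 0xe6df1f7f24f10) (nat_lit 0x0)
  (PL.C (nat_lit 0x144fed6a) (nat_lit 0x44e53ea4d5dfb9) (nat_lit 0x0)
  (PL.C (nat_lit 0x1454b1f1) (nat_lit 0x0) (nat_lit 0x6d28b7b1f01969)
  (PL.C (nat_lit 0x145c7b9b) (nat_lit 0x0) (nat_lit 0x4342454d131ad6)
  (PL.C (nat_lit 0x1465b636) (nat_lit 0x52b78bcc02f8ce) (nat_lit 0x0)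
  (PL.C (nat_lit 0x1465ff97) (nat_lit 0x0) (nat_lit 0x1276e3f6c908427)
  (PL.C (nat_lit 0x1466ac65) (nat_lit 0x2fe18db713f2c) (nat_lit 0x0)
  (PL.C (nat_lit 0x1468ea54) (nat_lit 0x2e5109afd4bae5) (nat_lit 0x0)
  (PL.C (nat_lit 0x1469ef35) (nat_lit 0x0) (nat_lit 0x8fe58c4ecfbc1)
  (PL.C (nat_lit 0x147a2c59) (nat_lit 0x0) (nat_lit 0xbfb873c3057f3c)
  (PL.C (nat_lit 0x1482fd11) (nat_lit 0x3ae9c522605138) (nat_lit 0x0)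
  (PL.C (nat_lit 0x1494d581) (nat_lit 0x10751f35b10b104) (nat_lit 0x0)
  (PL.C (nat_lit 0x149f227f) (nat_lit 0x5a85f981b58636) (nat_lit 0x0)
  (PL.C (nat_lit 0x14a693bb) (nat_lit 0x2ebaeb47c6901e7) (nat_lit 0x0)
  (PL.C (nat_lit 0x14bb630a) (nat_lit 0x0) (nat_lit 0x6c4802032e068a)
  (PL.C (nat_lit 0x14bcb975) (nat_lit 0x0) (nat_lit 0x3d40e59b680199) gp2_1_101))))))))))))))))))))

noncomputable def gp2_1_99 : PL :=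
  (PL.C (nat_lit 0x13912c2f) (nat_lit 0x1ad0f196e1528b) (nat_lit 0x0)
  (PL.C (nat_lit 0x1392877a) (nat_lit 0x2dc2c8dc5f8d3cf) (nat_lit 0x0)
  (PL.C (nat_lit 0x13a123d2) (nat_lit 0x919a632d2b8b74) (nat_lit 0x0)
  (PL.C (nat_lit 0x13a78526) (nat_lit 0x45e69748900db) (nat_lit 0x0)
  (PL.C (nat_lit 0x13a9985f) (nat_lit 0x7df090f75bff32) (nat_lit 0x0)
  (PL.C (nat_lit 0x13b4e231) (nat_lit 0x535091e8c56f2) (nat_lit 0x0)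
  (PL.C (nat_lit 0x13b67813) (nat_lit 0x1f898a99a1224ab) (nat_lit 0x0)
  (PL.C (nat_lit 0x13b96d92) (nat_lit 0x5588f68382cafa) (nat_lit 0x0)
  (PL.C (nat_lit 0x13bccc96) (nat_lit 0x399a833a43334) (nat_lit 0x0)
  (PL.C (nat_lit 0x13c54d0d) (nat_lit 0x0) (nat_lit 0x14410882e8ba69)
  (PL.C (nat_lit 0x13cf7e1d) (nat_lit 0x2e1e8c5d15ef08) (nat_lit 0x0)
  (PL.C (nat_lit 0x13ec6842) (nat_lit 0x7a825f661e449c) (nat_lit 0x0)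
  (PL.C (nat_lit 0x13f0decb) (nat_lit 0x1113640053bd5d) (nat_lit 0x0)
  (PL.C (nat_lit 0x140367d6) (nat_lit 0x0) (nat_lit 0xc8fce246eba5f7)
  (PL.C (nat_lit 0x140bcfcb) (nat_lit 0x0) (nat_lit 0x4629ae9fefcdfb)
  (PL.C (nat_lit 0x1415d835) (nat_lit 0x3529bc01129026f) (nat_lit 0x0)
  (PL.C (nat_lit 0x1418502e) (nat_lit 0x0) (nat_lit 0x1346818a18ac11)
  (PL.C (nat_lit 0x1425e943) (nat_lit 0x7bb1b3254c3af) (nat_lit 0x0)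
  (PL.C (nat_lit 0x14284617) (nat_lit 0x0) (nat_lit 0xbfc47e3ab04235)
  (PL.C (nat_lit 0x142ffebd) (nat_lit 0x0) (nat_lit 0x59dedc82d8cc2c) gp2_1_100))))))))))))))))))))

noncomputable def gp2_1_98 : PL :=
  (PL.C (nat_lit 0x131e7486) (nat_lit 0x0) (nat_lit 0x21c78ea642843)
  (PL.C (nat_lit 0x131f329b) (nat_lit 0x0) (nat_lit 0x191a5552d5c399)
  (PL.C (nat_lit 0x1321326b) (nat_lit 0x0) (nat_lit 0x13bb77630bcc222)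
  (PL.C (nat_lit 0x13225f4d) (nat_lit 0x0) (nat_lit 0x240794796c4fd5)
  (PL.C (nat_lit 0x13261947) (nat_lit 0x0) (nat_lit 0x59f1c4765fbb18)
  (PL.C (nat_lit 0x13290e0b) (nat_lit 0x0) (nat_lit 0xe4b6b2139aa52a)
  (PL.C (nat_lit 0x132f0363) (nat_lit 0xdf5be58432c54) (nat_lit 0x0)
  (PL.C (nat_lit 0x132faeb9) (nat_lit 0x5bde3d88a09fa2) (nat_lit 0x0)
  (PL.C (nat_lit 0x133aa2a9) (nat_lit 0x0) (nat_lit 0x784442b0d0543)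
  (PL.C (nat_lit 0x133d71c6) (nat_lit 0x0) (nat_lit 0x12f804cc498f3a6)
  (PL.C (nat_lit 0x1345d473) (nat_lit 0x1037e3a08348f7b) (nat_lit 0x0)
  (PL.C (nat_lit 0x1349564d) (nat_lit 0xe5ca3cf43d8da) (nat_lit 0x0)
  (PL.C (nat_lit 0x1358c9ca) (nat_lit 0x1185071c17e258) (nat_lit 0x0)
  (PL.C (nat_lit 0x1359f6bf) (nat_lit 0x0) (nat_lit 0x133dc14aeccdee)
  (PL.C (nat_lit 0x1362c2ea) (nat_lit 0x2834eb6f1d39da) (nat_lit 0x0)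
  (PL.C (nat_lit 0x137c4661) (nat_lit 0x0) (nat_lit 0xaa1f1df7e8886d)
  (PL.C (nat_lit 0x137eb6b7) (nat_lit 0x0) (nat_lit 0x1731a505d426790)
  (PL.C (nat_lit 0x13836c66) (nat_lit 0x608cd5a0e161c) (nat_lit 0x0)
  (PL.C (nat_lit 0x138bb6af) (nat_lit 0x0) (nat_lit 0x43d0b6cdb4d19)
  (PL.C (nat_lit 0x138f852d) (nat_lit 0x0) (nat_lit 0x2806a467191944) gp2_1_99))))))))))))))))))))

noncomputable def gp2_1_97 : PL :=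
  (PL.C (nat_lit 0x12afbf95) (nat_lit 0xadee2565c88a70) (nat_lit 0x0)
  (PL.C (nat_lit 0x12b82411) (nat_lit 0x23d21f8f960197) (nat_lit 0x0)
  (PL.C (nat_lit 0x12bd3e9d) (nat_lit 0x31c52a148caf2) (nat_lit 0x0)
  (PL.C (nat_lit 0x12c1ca61) (nat_lit 0xad787c946b7143) (nat_lit 0x0)
  (PL.C (nat_lit 0x12c8ef8f) (nat_lit 0x0) (nat_lit 0x7745e02ff438f7)
  (PL.C (nat_lit 0x12cb2d9f) (nat_lit 0xe8b7518a7802e) (nat_lit 0x0)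
  (PL.C (nat_lit 0x12cfe1c4) (nat_lit 0x250f4beb1b0f1) (nat_lit 0x0)
  (PL.C (nat_lit 0x12d7fc2e) (nat_lit 0x0) (nat_lit 0x31d293c96d0ea7)
  (PL.C (nat_lit 0x12e0df55) (nat_lit 0x0) (nat_lit 0x575a02057478b)
  (PL.C (nat_lit 0x12e164a7) (nat_lit 0x2540bfb90a985) (nat_lit 0x0)
  (PL.C (nat_lit 0x12e73341) (nat_lit 0x0) (nat_lit 0x2db8a64838085bb)
  (PL.C (nat_lit 0x12f49829) (nat_lit 0x2844c0af1e57e3) (nat_lit 0x0)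
  (PL.C (nat_lit 0x12f7666d) (nat_lit 0x0) (nat_lit 0x12f71d973b1f705)
  (PL.C (nat_lit 0x12f8adfa) (nat_lit 0x0) (nat_lit 0xc212d5989ad1bd)
  (PL.C (nat_lit 0x12fcec9d) (nat_lit 0x5c8285648cf8e0) (nat_lit 0x0)
  (PL.C (nat_lit 0x13051935) (nat_lit 0x10801b447b4dbc) (nat_lit 0x0)
  (PL.C (nat_lit 0x130d06a6) (nat_lit 0x0) (nat_lit 0x163f8a6efbcf58)
  (PL.C (nat_lit 0x130d4b2f) (nat_lit 0x0) (nat_lit 0x618186868581eac)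
  (PL.C (nat_lit 0x1315a565) (nat_lit 0x0) (nat_lit 0x770667605933d5)
  (PL.C (nat_lit 0x131b0dc7) (nat_lit 0x0) (nat_lit 0x68a230442660f) gp2_1_98))))))))))))))))))))

noncomputable def gp2_1_96 : PL :=
  (PL.C (nat_lit 0x12235641) (nat_lit 0x119122cfed3c847) (nat_lit 0x0)
  (PL.C (nat_lit 0x1223e5c3) (nat_lit 0xe28b808a1025c) (nat_lit 0x0)
  (PL.C (nat_lit 0x122f35de) (nat_lit 0x7fa3e66b2d75c8) (nat_lit 0x0)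
  (PL.C (nat_lit 0x1233acda) (nat_lit 0x139b109cad40ed) (nat_lit 0x0)
  (PL.C (nat_lit 0x123b83fb) (nat_lit 0x0) (nat_lit 0x81da793d7132b9)
  (PL.C (nat_lit 0x1244338a) (nat_lit 0x56b4858fb19628) (nat_lit 0x0)
  (PL.C (nat_lit 0x1244a405) (nat_lit 0x607f026ae6cec) (nat_lit 0x0)
  (PL.C (nat_lit 0x124da61c) (nat_lit 0x2a3686f4cc8bc7) (nat_lit 0x0)
  (PL.C (nat_lit 0x125748b2) (nat_lit 0x0) (nat_lit 0x85517aa924cea)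
  (PL.C (nat_lit 0x1261897a) (nat_lit 0x0) (nat_lit 0x2ef1bad4d7f8e07)
  (PL.C (nat_lit 0x1263b1ed) (nat_lit 0x0) (nat_lit 0x9ce3be7222ba14)
  (PL.C (nat_lit 0x126ce613) (nat_lit 0x5f34f431291c49) (nat_lit 0x0)
  (PL.C (nat_lit 0x1274f6d7) (nat_lit 0x0) (nat_lit 0xa7753497814c7)
  (PL.C (nat_lit 0x1275fc04) (nat_lit 0xd5939e7dbc1490) (nat_lit 0x0)
  (PL.C (nat_lit 0x1276c13e) (nat_lit 0x1c8208b0e390142) (nat_lit 0x0)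
  (PL.C (nat_lit 0x128a0b36) (nat_lit 0x0) (nat_lit 0x2e7a4532098d823)
  (PL.C (nat_lit 0x1297e21e) (nat_lit 0x82e6474c3aa8a9) (nat_lit 0x0)
  (PL.C (nat_lit 0x12983823) (nat_lit 0x2e08bee396b4) (nat_lit 0x0)
  (PL.C (nat_lit 0x129fe469) (nat_lit 0x0) (nat_lit 0x370a072a139233b)
  (PL.C (nat_lit 0x12a97e39) (nat_lit 0x2d5161720313e22) (nat_lit 0x0) gp2_1_97))))))))))))))))))))

noncomputable def gp2_1_95 : PL :=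
  (PL.C (nat_lit 0x118818a3) (nat_lit 0x5df856762082e) (nat_lit 0x0)
  (PL.C (nat_lit 0x1188d706) (nat_lit 0x1144ca6acea4b) (nat_lit 0x0)
  (PL.C (nat_lit 0x118b9e19) (nat_lit 0x441e78fcd5aac) (nat_lit 0x0)
  (PL.C (nat_lit 0x118c784d) (nat_lit 0x3e36decd4a102) (nat_lit 0x0)
  (PL.C (nat_lit 0x1193adad) (nat_lit 0x0) (nat_lit 0x60206ef71587f)
  (PL.C (nat_lit 0x11a0455e) (nat_lit 0x0) (nat_lit 0x3e815f14eccace)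
  (PL.C (nat_lit 0x11a724b9) (nat_lit 0x10f3ee7bf2d5ec1) (nat_lit 0x0)
  (PL.C (nat_lit 0x11b15939) (nat_lit 0x1777c053fec34d) (nat_lit 0x0)
  (PL.C (nat_lit 0x11c35e22) (nat_lit 0x395376bd721fb9) (nat_lit 0x0)
  (PL.C (nat_lit 0x11c452d7) (nat_lit 0x54ffa89d09240c) (nat_lit 0x0)
  (PL.C (nat_lit 0x11c71d32) (nat_lit 0x0) (nat_lit 0x9850b2a0d7810a)
  (PL.C (nat_lit 0x11d02bcf) (nat_lit 0x3e8097cae14888) (nat_lit 0x0)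
  (PL.C (nat_lit 0x11d62453) (nat_lit 0x367fa04b8d1838) (nat_lit 0x0)
  (PL.C (nat_lit 0x11e6a28e) (nat_lit 0x0) (nat_lit 0x6ac7a2344acb1a)
  (PL.C (nat_lit 0x11ea834e) (nat_lit 0x0) (nat_lit 0xdb84c39c0c0090)
  (PL.C (nat_lit 0x11f850b6) (nat_lit 0x5a8ce5e0058c89) (nat_lit 0x0)
  (PL.C (nat_lit 0x11f9d552) (nat_lit 0x0) (nat_lit 0x762aa4d9e16fd)
  (PL.C (nat_lit 0x1213c0b3) (nat_lit 0x1dd8241b85b2235) (nat_lit 0x0)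
  (PL.C (nat_lit 0x121a2afe) (nat_lit 0x0) (nat_lit 0x11be799bf81b615)
  (PL.C (nat_lit 0x121c18ca) (nat_lit 0x0) (nat_lit 0x112557f6ea3d7) gp2_1_96))))))))))))))))))))

noncomputable def gp2_1_94 : PL :=
  (PL.C (nat_lit 0x112465b3) (nat_lit 0x29540e579a9790) (nat_lit 0x0)
  (PL.C (nat_lit 0x11258c92) (nat_lit 0x0) (nat_lit 0x1d36afb63169c08)
  (PL.C (nat_lit 0x112b7053) (nat_lit 0x1d4e21399a155b) (nat_lit 0x0)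
  (PL.C (nat_lit 0x113b80c9) (nat_lit 0x0) (nat_lit 0x23c07bd418303a)
  (PL.C (nat_lit 0x113b8eb3) (nat_lit 0x0) (nat_lit 0x5a7a7fe13317b05)
  (PL.C (nat_lit 0x114522ed) (nat_lit 0x52253647315568) (nat_lit 0x0)
  (PL.C (nat_lit 0x114800eb) (nat_lit 0xe519fa7f08a62) (nat_lit 0x0)
  (PL.C (nat_lit 0x114e09fd) (nat_lit 0x0) (nat_lit 0x2979553c3196d43)
  (PL.C (nat_lit 0x11565004) (nat_lit 0x816cd8ed6e8430) (nat_lit 0x0)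
  (PL.C (nat_lit 0x115930dc) (nat_lit 0x0) (nat_lit 0xa789702de07a7)
  (PL.C (nat_lit 0x115aa995) (nat_lit 0x0) (nat_lit 0x885c77cc6055f)
  (PL.C (nat_lit 0x115daece) (nat_lit 0xf146f2906f32e) (nat_lit 0x0)
  (PL.C (nat_lit 0x1166209b) (nat_lit 0x997a877c6492cc) (nat_lit 0x0)
  (PL.C (nat_lit 0x116b31eb) (nat_lit 0xc7827245d4cd12) (nat_lit 0x0)
  (PL.C (nat_lit 0x116eb1e7) (nat_lit 0x4eb152364132f1e) (nat_lit 0x0)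
  (PL.C (nat_lit 0x117a3629) (nat_lit 0x9c9e4e43fb61d5) (nat_lit 0x0)
  (PL.C (nat_lit 0x117c84dc) (nat_lit 0x661091146e5f2a) (nat_lit 0x0)
  (PL.C (nat_lit 0x1180e803) (nat_lit 0x5a856f01e9be9d) (nat_lit 0x0)
  (PL.C (nat_lit 0x11816409) (nat_lit 0x0) (nat_lit 0x3cc27fb5a14984)
  (PL.C (nat_lit 0x11874225) (nat_lit 0x0) (nat_lit 0xe1ed6065f9ece8) gp2_1_95))))))))))))))))))))

noncomputable def gp2_1_93 : PL :=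
  (PL.C (nat_lit 0x109460a5) (nat_lit 0x0) (nat_lit 0x8c1ad5cccb322)
  (PL.C (nat_lit 0x109cf2c6) (nat_lit 0xbc19ccc0991c2) (nat_lit 0x0)
  (PL.C (nat_lit 0x10a1a8fa) (nat_lit 0x3d3abf58f56e8b) (nat_lit 0x0)
  (PL.C (nat_lit 0x10a41ab5) (nat_lit 0x134e1dbaf3f9756) (nat_lit 0x0)
  (PL.C (nat_lit 0x10b364c6) (nat_lit 0x180e8b6e112ebe7) (nat_lit 0x0)
  (PL.C (nat_lit 0x10b4a7a4) (nat_lit 0x0) (nat_lit 0x98bfb167d96f72)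
  (PL.C (nat_lit 0x10b4dbbe) (nat_lit 0x6b6a9e3a342339) (nat_lit 0x0)
  (PL.C (nat_lit 0x10b92151) (nat_lit 0xae9e73bd72d8b8) (nat_lit 0x0)
  (PL.C (nat_lit 0x10bebc4d) (nat_lit 0x27d64b431e634f) (nat_lit 0x0)
  (PL.C (nat_lit 0x10c2433f) (nat_lit 0x1c23a295f0df77) (nat_lit 0x0)
  (PL.C (nat_lit 0x10c64fb6) (nat_lit 0x2a642102aa0bb5) (nat_lit 0x0)
  (PL.C (nat_lit 0x10d9783c) (nat_lit 0x0) (nat_lit 0x259d0b4af2fddb)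
  (PL.C (nat_lit 0x10f1f45e) (nat_lit 0x0) (nat_lit 0x42c2de86397da0)
  (PL.C (nat_lit 0x10f4bc82) (nat_lit 0x1b646cef571f31) (nat_lit 0x0)
  (PL.C (nat_lit 0x10fef165) (nat_lit 0x0) (nat_lit 0x9888f2e01e29)
  (PL.C (nat_lit 0x11128fd7) (nat_lit 0xa7e368445de7c0) (nat_lit 0x0)
  (PL.C (nat_lit 0x111360c1) (nat_lit 0x0) (nat_lit 0x2f80e88cafa9a3)
  (PL.C (nat_lit 0x1115d9ff) (nat_lit 0x59647a4f5b69b) (nat_lit 0x0)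
  (PL.C (nat_lit 0x111919fd) (nat_lit 0x0) (nat_lit 0x9be0a7a6915da2)
  (PL.C (nat_lit 0x111ea8af) (nat_lit 0x7962d58e253165) (nat_lit 0x0) gp2_1_94))))))))))))))))))))

noncomputable def gp2_1_92 : PL :=
  (PL.C (nat_lit 0x102a22a3) (nat_lit 0x5958dff0ff7357) (nat_lit 0x0)
  (PL.C (nat_lit 0x102ca177) (nat_lit 0x0) (nat_lit 0xa8313f78fd0d89)
  (PL.C (nat_lit 0x103053c1) (nat_lit 0x125f250c381c33) (nat_lit 0x0)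
  (PL.C (nat_lit 0x10320d5b) (nat_lit 0x0) (nat_lit 0x4e56b7d305c813)
  (PL.C (nat_lit 0x103b05af) (nat_lit 0x0) (nat_lit 0x1624505790c0f3)
  (PL.C (nat_lit 0x1052b075) (nat_lit 0xe1de322b277825) (nat_lit 0x0)
  (PL.C (nat_lit 0x10581b16) (nat_lit 0x0) (nat_lit 0xc1346b73ce296)
  (PL.C (nat_lit 0x105d5812) (nat_lit 0x0) (nat_lit 0x23aba1211f235f)
  (PL.C (nat_lit 0x105e7a7d) (nat_lit 0x0) (nat_lit 0x3157177234eddd)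
  (PL.C (nat_lit 0x106087f6) (nat_lit 0x0) (nat_lit 0xe57cd8d20e1ec)
  (PL.C (nat_lit 0x1062d44a) (nat_lit 0x0) (nat_lit 0x9ff53ad5e0e45d)
  (PL.C (nat_lit 0x1067f0fd) (nat_lit 0x15bdc438764318) (nat_lit 0x0)
  (PL.C (nat_lit 0x106af8f2) (nat_lit 0x0) (nat_lit 0x39cbd389978520)
  (PL.C (nat_lit 0x10702703) (nat_lit 0x0) (nat_lit 0x3c9d1553d6da9e)
  (PL.C (nat_lit 0x107142e6) (nat_lit 0x40ac4d97ebdbb0) (nat_lit 0x0)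
  (PL.C (nat_lit 0x1072e1a5) (nat_lit 0x0) (nat_lit 0x2a01fc077d75bd)
  (PL.C (nat_lit 0x1078a66a) (nat_lit 0x0) (nat_lit 0xf580c1f707fb3)
  (PL.C (nat_lit 0x107c1fba) (nat_lit 0x0) (nat_lit 0xc86a0e0a8fa15)
  (PL.C (nat_lit 0x108320a1) (nat_lit 0x0) (nat_lit 0x1ab2ee406c81f3b)
  (PL.C (nat_lit 0x1085aae2) (nat_lit 0x118980f9e50de90) (nat_lit 0x0) gp2_1_93))))))))))))))))))))

noncomputable def gp2_1_91 : PL :=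
  (PL.C (nat_lit 0xfd1b68a) (nat_lit 0x5c7a7158263567e) (nat_lit 0x0)
  (PL.C (nat_lit 0xfd575a5) (nat_lit 0x35d0a0ae2ed53b) (nat_lit 0x0)
  (PL.C (nat_lit 0xfd582bb) (nat_lit 0x0) (nat_lit 0x4401d5e9f13401)
  (PL.C (nat_lit 0xfd588e4) (nat_lit 0x1d1180ff38f3c0) (nat_lit 0x0)
  (PL.C (nat_lit 0xfdac451) (nat_lit 0x0) (nat_lit 0x1818f31b27cfbe3)
  (PL.C (nat_lit 0xfdd625b) (nat_lit 0xf313bf30d0d5d) (nat_lit 0x0)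
  (PL.C (nat_lit 0xfdf20ac) (nat_lit 0x0) (nat_lit 0x362a5b7886dc7c)
  (PL.C (nat_lit 0xfdfeb8b) (nat_lit 0x747d0a673a3de) (nat_lit 0x0)
  (PL.C (nat_lit 0xfe2b3af) (nat_lit 0x0) (nat_lit 0x3217c6d66e7fba)
  (PL.C (nat_lit 0xfebc53f) (nat_lit 0x0) (nat_lit 0x4203f89a2d331)
  (PL.C (nat_lit 0xff50a05) (nat_lit 0xe2e691dc1a9d54) (nat_lit 0x0)
  (PL.C (nat_lit 0x1000588d) (nat_lit 0xdd559db78be85) (nat_lit 0x0)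
  (PL.C (nat_lit 0x1002b6e1) (nat_lit 0x1b9ff0907994e5f) (nat_lit 0x0)
  (PL.C (nat_lit 0x1003cb62) (nat_lit 0x0) (nat_lit 0x229264619b12838)
  (PL.C (nat_lit 0x1005b599) (nat_lit 0x4fd374d9499f56) (nat_lit 0x0)
  (PL.C (nat_lit 0x1015322b) (nat_lit 0x55ee7d03fe6215d) (nat_lit 0x0)
  (PL.C (nat_lit 0x10178f49) (nat_lit 0x0) (nat_lit 0x1a0af1c38ad40f)
  (PL.C (nat_lit 0x101a5c46) (nat_lit 0x0) (nat_lit 0xa8756e9ca6f3f)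
  (PL.C (nat_lit 0x10214bf5) (nat_lit 0x0) (nat_lit 0x1587435b2a5e78)
  (PL.C (nat_lit 0x1025ff57) (nat_lit 0x1e90a4842e70042) (nat_lit 0x0) gp2_1_92))))))))))))))))))))

noncomputable def gp2_1_90 : PL :=
  (PL.C (nat_lit 0xf2b620e) (nat_lit 0xaf19bcbb1fb6e1) (nat_lit 0x0)
  (PL.C (nat_lit 0xf2caa1a) (nat_lit 0x0) (nat_lit 0x1bcfff7006952b)
  (PL.C (nat_lit 0xf2ce0b1) (nat_lit 0x947a9710eb6b8c) (nat_lit 0x0)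
  (PL.C (nat_lit 0xf31c032) (nat_lit 0x3f2c939c98b2e) (nat_lit 0x0)
  (PL.C (nat_lit 0xf384baf) (nat_lit 0x0) (nat_lit 0x32231bdec0352)
  (PL.C (nat_lit 0xf3e359a) (nat_lit 0x0) (nat_lit 0x61b6c2bb87af1dd)
  (PL.C (nat_lit 0xf45f65f) (nat_lit 0x186098391e53d7) (nat_lit 0x0)
  (PL.C (nat_lit 0xf5911e4) (nat_lit 0x0) (nat_lit 0xe1485843246af)
  (PL.C (nat_lit 0xf7136bb) (nat_lit 0x89f24b7535e5ce) (nat_lit 0x0)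
  (PL.C (nat_lit 0xf81c675) (nat_lit 0xe23171a4dd78c) (nat_lit 0x0)
  (PL.C (nat_lit 0xf8434e2) (nat_lit 0x20d4f1d34226d7) (nat_lit 0x0)
  (PL.C (nat_lit 0xf8a3e5b) (nat_lit 0x2e46c1fcec47ca) (nat_lit 0x0)
  (PL.C (nat_lit 0xf9132a4) (nat_lit 0x0) (nat_lit 0x929e7ecdfe8de)
  (PL.C (nat_lit 0xfa6668e) (nat_lit 0x170e03cd2bc06b) (nat_lit 0x0)
  (PL.C (nat_lit 0xfb25def) (nat_lit 0x0) (nat_lit 0x2cf88259b01631)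
  (PL.C (nat_lit 0xfb2f03c) (nat_lit 0x0) (nat_lit 0x1d00422cfc652)
  (PL.C (nat_lit 0xfc0f2dd) (nat_lit 0x0) (nat_lit 0x2640243de76b878)
  (PL.C (nat_lit 0xfc48c8b) (nat_lit 0x112963003d1be9d) (nat_lit 0x0)
  (PL.C (nat_lit 0xfc63aa9) (nat_lit 0x0) (nat_lit 0xf1bd13f4d04548)
  (PL.C (nat_lit 0xfcef745) (nat_lit 0x12c615177d4044) (nat_lit 0x0) gp2_1_91))))))))))))))))))))

noncomputable def gp2_1_89 : PL :=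
  (PL.C (nat_lit 0xeaffa47) (nat_lit 0x448f2d7ef84d7e) (nat_lit 0x0)
  (PL.C (nat_lit 0xeb39575) (nat_lit 0x7e52de78f132e) (nat_lit 0x0)
  (PL.C (nat_lit 0xeb5698e) (nat_lit 0x7e645ac31447a8) (nat_lit 0x0)
  (PL.C (nat_lit 0xeb735c3) (nat_lit 0x0) (nat_lit 0xdc8ed2f8e04ea2)
  (PL.C (nat_lit 0xec0ee8d) (nat_lit 0x0) (nat_lit 0x2a8647c8b3aad6)
  (PL.C (nat_lit 0xec288fb) (nat_lit 0xc45b32ccf05f) (nat_lit 0x0)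
  (PL.C (nat_lit 0xec6954f) (nat_lit 0x1a056815fa79ec) (nat_lit 0x0)
  (PL.C (nat_lit 0xec7a39e) (nat_lit 0x1eef3f59fd90f0) (nat_lit 0x0)
  (PL.C (nat_lit 0xed05841) (nat_lit 0x957afd91408cdc) (nat_lit 0x0)
  (PL.C (nat_lit 0xed5d382) (nat_lit 0x0) (nat_lit 0xb1258711d8337)
  (PL.C (nat_lit 0xed8a045) (nat_lit 0xe07d43bebb49a6) (nat_lit 0x0)
  (PL.C (nat_lit 0xed9a0aa) (nat_lit 0x2209c09ec04da8a) (nat_lit 0x0)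
  (PL.C (nat_lit 0xee10f56) (nat_lit 0x0) (nat_lit 0x17bb7d9a2e34e2)
  (PL.C (nat_lit 0xee9c377) (nat_lit 0x0) (nat_lit 0x5fd5c2906d94da)
  (PL.C (nat_lit 0xeef79dd) (nat_lit 0x0) (nat_lit 0x11ceb4899f3bc31)
  (PL.C (nat_lit 0xef957d3) (nat_lit 0x0) (nat_lit 0x1c253daa5fa844a)
  (PL.C (nat_lit 0xeff7e73) (nat_lit 0x0) (nat_lit 0x144dc7b3565b1e)
  (PL.C (nat_lit 0xf01d97a) (nat_lit 0x0) (nat_lit 0x326f3f3b1a3190)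
  (PL.C (nat_lit 0xf048567) (nat_lit 0x0) (nat_lit 0x142b7efaf85bb26)
  (PL.C (nat_lit 0xf1c7546) (nat_lit 0x8d196f1012237) (nat_lit 0x0) gp2_1_90))))))))))))))))))))

noncomputable def gp2_1_88 : PL :=
  (PL.C (nat_lit 0xe4cf5cd) (nat_lit 0x0) (nat_lit 0x13715ab6feecb4)
  (PL.C (nat_lit 0xe50420a) (nat_lit 0x0) (nat_lit 0x7f6ad5af581b99)
  (PL.C (nat_lit 0xe58dfb9) (nat_lit 0x24622e370793fa5) (nat_lit 0x0)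
  (PL.C (nat_lit 0xe5b22fc) (nat_lit 0x0) (nat_lit 0x22a969410545aa)
  (PL.C (nat_lit 0xe696f73) (nat_lit 0x5a841600cf2ee5) (nat_lit 0x0)
  (PL.C (nat_lit 0xe6ef4b1) (nat_lit 0x5219319961d782) (nat_lit 0x0)
  (PL.C (nat_lit 0xe73a5ab) (nat_lit 0x53990d6a969546) (nat_lit 0x0)
  (PL.C (nat_lit 0xe787dbf) (nat_lit 0x14451b5853b3e95) (nat_lit 0x0)
  (PL.C (nat_lit 0xe7b5dec) (nat_lit 0x45704d8a251a2) (nat_lit 0x0)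
  (PL.C (nat_lit 0xe7c4d5a) (nat_lit 0x0) (nat_lit 0xa6dd691406176f)
  (PL.C (nat_lit 0xe7dd87e) (nat_lit 0x10a5c54900c8f90) (nat_lit 0x0)
  (PL.C (nat_lit 0xe80d091) (nat_lit 0x2cc751d0517a51) (nat_lit 0x0)
  (PL.C (nat_lit 0xe834b23) (nat_lit 0x0) (nat_lit 0x13ecd624e4f1c)
  (PL.C (nat_lit 0xe8c0abf) (nat_lit 0xf60bf6e4c617db4) (nat_lit 0x0)
  (PL.C (nat_lit 0xe8d23fa) (nat_lit 0x9c50e6f11c789d) (nat_lit 0x0)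
  (PL.C (nat_lit 0xe9ba4b1) (nat_lit 0x18379815c3814e7) (nat_lit 0x0)
  (PL.C (nat_lit 0xe9efb57) (nat_lit 0x1584e7a71a14982) (nat_lit 0x0)
  (PL.C (nat_lit 0xea08a2d) (nat_lit 0x7794a8457e45d5) (nat_lit 0x0)
  (PL.C (nat_lit 0xea64ca9) (nat_lit 0x0) (nat_lit 0x43de72d4baaf8b)
  (PL.C (nat_lit 0xeaea999) (nat_lit 0x0) (nat_lit 0xc3223e8b1a709) gp2_1_89))))))))))))))))))))

noncomputable def gp2_1_87 : PL :=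
  (PL.C (nat_lit 0xd9bf4ce) (nat_lit 0x1a88593aff3f6e) (nat_lit 0x0)
  (PL.C (nat_lit 0xda1bcf3) (nat_lit 0x0) (nat_lit 0x9c4d91c8425813)
  (PL.C (nat_lit 0xdabea07) (nat_lit 0x0) (nat_lit 0xb13ea2bd1bc9cc)
  (PL.C (nat_lit 0xdb88e56) (nat_lit 0xcf68256484f3d) (nat_lit 0x0)
  (PL.C (nat_lit 0xdc77709) (nat_lit 0x0) (nat_lit 0x395d7461f1d0c1c)
  (PL.C (nat_lit 0xdd3264e) (nat_lit 0x0) (nat_lit 0x6d6ab26359980a)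
  (PL.C (nat_lit 0xdd516f2) (nat_lit 0x0) (nat_lit 0x1a0a580e0179d8)
  (PL.C (nat_lit 0xdd7c896) (nat_lit 0x5270f607cab5b5) (nat_lit 0x0)
  (PL.C (nat_lit 0xdd967b1) (nat_lit 0x91ffcb205cdbf1) (nat_lit 0x0)
  (PL.C (nat_lit 0xde1e154) (nat_lit 0x0) (nat_lit 0x362a5b7886dc7c)
  (PL.C (nat_lit 0xe031d9e) (nat_lit 0x0) (nat_lit 0x3ac3f27b5eb6fa)
  (PL.C (nat_lit 0xe0cdce6) (nat_lit 0x0) (nat_lit 0x4b1bef4f613a50)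
  (PL.C (nat_lit 0xe10f486) (nat_lit 0x0) (nat_lit 0x189cb3cd0f10eb7)
  (PL.C (nat_lit 0xe1d14e2) (nat_lit 0x0) (nat_lit 0x2531cceb3553aa)
  (PL.C (nat_lit 0xe22ac41) (nat_lit 0xc038c2c37a25a3) (nat_lit 0x0)
  (PL.C (nat_lit 0xe25a67b) (nat_lit 0x0) (nat_lit 0x3704c004d46cbb)
  (PL.C (nat_lit 0xe2bd36a) (nat_lit 0x0) (nat_lit 0x21f5b7f854eee4)
  (PL.C (nat_lit 0xe32a673) (nat_lit 0x34b059d8f3cd07) (nat_lit 0x0)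
  (PL.C (nat_lit 0xe36d806) (nat_lit 0x0) (nat_lit 0xd948e51531a5a)
  (PL.C (nat_lit 0xe39c18d) (nat_lit 0x1b0ddbf32062d1) (nat_lit 0x0) gp2_1_88))))))))))))))))))))

noncomputable def gp2_1_86 : PL :=
  (PL.C (nat_lit 0xd5d1cdf) (nat_lit 0x0) (nat_lit 0x43107dd2ad803d)
  (PL.C (nat_lit 0xd5d3532) (nat_lit 0x262e1784a1ce046) (nat_lit 0x0)
  (PL.C (nat_lit 0xd623b55) (nat_lit 0x0) (nat_lit 0x15549f4796baa)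
  (PL.C (nat_lit 0xd6694f7) (nat_lit 0x0) (nat_lit 0x1362ac38e17ac9)
  (PL.C (nat_lit 0xd6b12db) (nat_lit 0x0) (nat_lit 0xce3b2adc8b1da)
  (PL.C (nat_lit 0xd6bbaa3) (nat_lit 0xae01f0af147d552) (nat_lit 0x0)
  (PL.C (nat_lit 0xd6e9b82) (nat_lit 0x4ec30778aed6f2) (nat_lit 0x0)
  (PL.C (nat_lit 0xd702eba) (nat_lit 0x0) (nat_lit 0xad23d22647cbc1)
  (PL.C (nat_lit 0xd72cab5) (nat_lit 0x0) (nat_lit 0xea219bb68119bb)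
  (PL.C (nat_lit 0xd75547e) (nat_lit 0x0) (nat_lit 0x24a6b203d794b9)
  (PL.C (nat_lit 0xd7d33db) (nat_lit 0x0) (nat_lit 0x1182888356d65be)
  (PL.C (nat_lit 0xd7e38a2) (nat_lit 0x0) (nat_lit 0x2ced922d97f217)
  (PL.C (nat_lit 0xd7e62b7) (nat_lit 0x1f6b3ef7f24ff) (nat_lit 0x0)
  (PL.C (nat_lit 0xd83f425) (nat_lit 0x0) (nat_lit 0xc3c6d73e93231b)
  (PL.C (nat_lit 0xd852d42) (nat_lit 0x0) (nat_lit 0x2ca4d9b39f3b61)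
  (PL.C (nat_lit 0xd8bab55) (nat_lit 0x362d205421764c) (nat_lit 0x0)
  (PL.C (nat_lit 0xd8dcbf6) (nat_lit 0x3833efc93021d9) (nat_lit 0x0)
  (PL.C (nat_lit 0xd92fd12) (nat_lit 0x0) (nat_lit 0x1663b07b181789)
  (PL.C (nat_lit 0xd938e17) (nat_lit 0x4b32878f046ee6) (nat_lit 0x0)
  (PL.C (nat_lit 0xd992424) (nat_lit 0x0) (nat_lit 0x62a1c4686d039e) gp2_1_87))))))))))))))))))))

noncomputable def gp2_1_85 : PL :=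
  (PL.C (nat_lit 0xcfd3eb7) (nat_lit 0x0) (nat_lit 0x32d6b52a4f9fe)
  (PL.C (nat_lit 0xcff247a) (nat_lit 0x0) (nat_lit 0x75c7c5539c5d4b)
  (PL.C (nat_lit 0xd024844) (nat_lit 0x0) (nat_lit 0x35e8aae834d994)
  (PL.C (nat_lit 0xd0920e7) (nat_lit 0x12bf97ec873bdc) (nat_lit 0x0)
  (PL.C (nat_lit 0xd0b72ca) (nat_lit 0x0) (nat_lit 0x15927be567a737)
  (PL.C (nat_lit 0xd194207) (nat_lit 0x0) (nat_lit 0x580f6a825beead)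
  (PL.C (nat_lit 0xd1a58c4) (nat_lit 0x9919a4f16b723a) (nat_lit 0x0)
  (PL.C (nat_lit 0xd1b7f25) (nat_lit 0x0) (nat_lit 0xc83cbfba76ac)
  (PL.C (nat_lit 0xd234176) (nat_lit 0x0) (nat_lit 0x11849e1c4d0f63)
  (PL.C (nat_lit 0xd288864) (nat_lit 0x10e88f9543134c) (nat_lit 0x0)
  (PL.C (nat_lit 0xd2e335e) (nat_lit 0x3fc4a90ed39450) (nat_lit 0x0)
  (PL.C (nat_lit 0xd34febe) (nat_lit 0x0) (nat_lit 0x4e920f5fa30f26)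
  (PL.C (nat_lit 0xd3695b3) (nat_lit 0x217a0acdd5822de) (nat_lit 0x0)
  (PL.C (nat_lit 0xd37b371) (nat_lit 0x0) (nat_lit 0x36b524a2f4412a)
  (PL.C (nat_lit 0xd42b561) (nat_lit 0x0) (nat_lit 0x19cdd9c85239e2)
  (PL.C (nat_lit 0xd4b3f32) (nat_lit 0x1e72e1de58b796) (nat_lit 0x0)
  (PL.C (nat_lit 0xd4dc17d) (nat_lit 0x0) (nat_lit 0x43c885f6e3bd61)
  (PL.C (nat_lit 0xd4f79f7) (nat_lit 0x0) (nat_lit 0x124fc37e9d4815)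
  (PL.C (nat_lit 0xd50e50d) (nat_lit 0x0) (nat_lit 0x8569e8aa359a12)
  (PL.C (nat_lit 0xd584519) (nat_lit 0x0) (nat_lit 0x318103972448c3e) gp2_1_86))))))))))))))))))))

noncomputable def gp2_1_84 : PL :=
  (PL.C (nat_lit 0xca3f05f) (nat_lit 0x90e81d00544b9b) (nat_lit 0x0)
  (PL.C (nat_lit 0xca6c49d) (nat_lit 0x0) (nat_lit 0xcf022291ed3b6)
  (PL.C (nat_lit 0xca89dbe) (nat_lit 0x4283e990b211dec) (nat_lit 0x0)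
  (PL.C (nat_lit 0xcae10ce) (nat_lit 0x818a0406827396) (nat_lit 0x0)
  (PL.C (nat_lit 0xcb359c4) (nat_lit 0x0) (nat_lit 0x7d5fcf606e740)
  (PL.C (nat_lit 0xcb918ee) (nat_lit 0x0) (nat_lit 0x20acbe88b58f079)
  (PL.C (nat_lit 0xcbcb3da) (nat_lit 0x2beb6f2d550909) (nat_lit 0x0)
  (PL.C (nat_lit 0xcbf7712) (nat_lit 0x63a6778e3fa9c4) (nat_lit 0x0)
  (PL.C (nat_lit 0xcc194de) (nat_lit 0x0) (nat_lit 0x1f5306398dd08d)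
  (PL.C (nat_lit 0xcc410da) (nat_lit 0x0) (nat_lit 0xc39e520f98ea1f)
  (PL.C (nat_lit 0xcc6ec0d) (nat_lit 0x132fbcf48cdb10b) (nat_lit 0x0)
  (PL.C (nat_lit 0xcca0242) (nat_lit 0x6a06a3c67fce41) (nat_lit 0x0)
  (PL.C (nat_lit 0xcd1c1c6) (nat_lit 0x0) (nat_lit 0x45f8c81a7a3cb0)
  (PL.C (nat_lit 0xcd914ab) (nat_lit 0x0) (nat_lit 0x35206068cd2ac7)
  (PL.C (nat_lit 0xcdb8ede) (nat_lit 0x0) (nat_lit 0x56df2b5c20ae2b)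
  (PL.C (nat_lit 0xce49e1b) (nat_lit 0x311db5dea05f9a) (nat_lit 0x0)
  (PL.C (nat_lit 0xce5dbdc) (nat_lit 0x0) (nat_lit 0x21ef057d3a90ae)
  (PL.C (nat_lit 0xce8f06f) (nat_lit 0x0) (nat_lit 0x2a1b5c3b324874)
  (PL.C (nat_lit 0xcef5f59) (nat_lit 0x0) (nat_lit 0x108ccc534dcb75f)
  (PL.C (nat_lit 0xcf5d8a7) (nat_lit 0x0) (nat_lit 0x49e1e02c7c118b) gp2_1_85))))))))))))))))))))

noncomputable def gp2_1_83 : PL :=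
  (PL.C (nat_lit 0xc42769e) (nat_lit 0x0) (nat_lit 0x64ed3b788c2220)
  (PL.C (nat_lit 0xc47abfb) (nat_lit 0xfc7ddde7e21a6d) (nat_lit 0x0)
  (PL.C (nat_lit 0xc489962) (nat_lit 0x25b3ce09e19440) (nat_lit 0x0)
  (PL.C (nat_lit 0xc4fc8d5) (nat_lit 0x16746c125bc4ef8) (nat_lit 0x0)
  (PL.C (nat_lit 0xc57a8f3) (nat_lit 0x7c5c8bb4a6eaf8) (nat_lit 0x0)
  (PL.C (nat_lit 0xc58f9a1) (nat_lit 0x0) (nat_lit 0x5b3f1bcb94b130e)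
  (PL.C (nat_lit 0xc657ac2) (nat_lit 0x0) (nat_lit 0x3ffc1768d4088)
  (PL.C (nat_lit 0xc6a9846) (nat_lit 0x0) (nat_lit 0x2edd41a88d67fd5)
  (PL.C (nat_lit 0xc75ac27) (nat_lit 0x0) (nat_lit 0x793944ee8b4f6)
  (PL.C (nat_lit 0xc77b7c9) (nat_lit 0x738c75a5fa0ab6) (nat_lit 0x0)
  (PL.C (nat_lit 0xc79d94b) (nat_lit 0x23243e12715ca7b) (nat_lit 0x0)
  (PL.C (nat_lit 0xc7ac2b6) (nat_lit 0x0) (nat_lit 0x2399fb5dde6582)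
  (PL.C (nat_lit 0xc7e29be) (nat_lit 0x6476077660906) (nat_lit 0x0)
  (PL.C (nat_lit 0xc813196) (nat_lit 0x0) (nat_lit 0x255101dad1aff1)
  (PL.C (nat_lit 0xc85f50a) (nat_lit 0x0) (nat_lit 0x1a069e68f7f125e)
  (PL.C (nat_lit 0xc885219) (nat_lit 0x0) (nat_lit 0x1abd75aee440022)
  (PL.C (nat_lit 0xc8ffd74) (nat_lit 0x0) (nat_lit 0x902781228ac73)
  (PL.C (nat_lit 0xc96431a) (nat_lit 0x0) (nat_lit 0x171f38928d4abb)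
  (PL.C (nat_lit 0xc96c993) (nat_lit 0x0) (nat_lit 0xcdacc63b900c7f)
  (PL.C (nat_lit 0xc9b9c11) (nat_lit 0x9962cbeac158aa) (nat_lit 0x0) gp2_1_84))))))))))))))))))))

noncomputable def gp2_1_82 : PL :=
  (PL.C (nat_lit 0xbfbe38c) (nat_lit 0x0) (nat_lit 0x172aff5c4c6ab)
  (PL.C (nat_lit 0xbfe8b9d) (nat_lit 0x6dccbf21b17cdc) (nat_lit 0x0)
  (PL.C (nat_lit 0xc042111) (nat_lit 0x0) (nat_lit 0x4509ff7e15f98)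
  (PL.C (nat_lit 0xc048c63) (nat_lit 0x27e0deba47dca9) (nat_lit 0x0)
  (PL.C (nat_lit 0xc06c52b) (nat_lit 0x0) (nat_lit 0x6c4cbd07365699)
  (PL.C (nat_lit 0xc0abe53) (nat_lit 0xe4567e70bae7b1) (nat_lit 0x0)
  (PL.C (nat_lit 0xc0d2b22) (nat_lit 0x0) (nat_lit 0x2fe1d7fe1ba7a9)
  (PL.C (nat_lit 0xc126bc1) (nat_lit 0x0) (nat_lit 0x89b8127c6609eb)
  (PL.C (nat_lit 0xc166da3) (nat_lit 0x40d290401a8df1) (nat_lit 0x0)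
  (PL.C (nat_lit 0xc170b8b) (nat_lit 0x0) (nat_lit 0x25027c17f15165)
  (PL.C (nat_lit 0xc178ed6) (nat_lit 0x50e732619ee13f) (nat_lit 0x0)
  (PL.C (nat_lit 0xc1c7a5d) (nat_lit 0x0) (nat_lit 0x993df7aa43e86)
  (PL.C (nat_lit 0xc1f0845) (nat_lit 0x197bad4110462e) (nat_lit 0x0)
  (PL.C (nat_lit 0xc22733c) (nat_lit 0x0) (nat_lit 0x3803c71df2fea)
  (PL.C (nat_lit 0xc27ad52) (nat_lit 0x0) (nat_lit 0x6618b1842f55ce)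
  (PL.C (nat_lit 0xc34861b) (nat_lit 0x0) (nat_lit 0x1fa7e490ae724b)
  (PL.C (nat_lit 0xc372afb) (nat_lit 0xdfbbc0b8239632) (nat_lit 0x0)
  (PL.C (nat_lit 0xc3aa1e5) (nat_lit 0x352d6906ddc724) (nat_lit 0x0)
  (PL.C (nat_lit 0xc40941f) (nat_lit 0x1a728988a09a220) (nat_lit 0x0)
  (PL.C (nat_lit 0xc419d15) (nat_lit 0x0) (nat_lit 0xba9ba461e0ed1) gp2_1_83))))))))))))))))))))

noncomputable def gp2_1_81 : PL :=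
  (PL.C (nat_lit 0xb836c9e) (nat_lit 0xad3ef955107b1d) (nat_lit 0x0)
  (PL.C (nat_lit 0xb8555f2) (nat_lit 0x0) (nat_lit 0x1ec1dfa4354270)
  (PL.C (nat_lit 0xb895bfe) (nat_lit 0x0) (nat_lit 0x2d552185b2c67b3)
  (PL.C (nat_lit 0xb8f97cd) (nat_lit 0x0) (nat_lit 0xce073de340e661)
  (PL.C (nat_lit 0xb996b12) (nat_lit 0x0) (nat_lit 0x1e5a027fff730)
  (PL.C (nat_lit 0xb9ccbf2) (nat_lit 0x229e38bd40a0e20) (nat_lit 0x0)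
  (PL.C (nat_lit 0xba1baed) (nat_lit 0x5fa49f54b3abf5a) (nat_lit 0x0)
  (PL.C (nat_lit 0xba6cec6) (nat_lit 0x1edbaf3259056e4) (nat_lit 0x0)
  (PL.C (nat_lit 0xbab9806) (nat_lit 0x0) (nat_lit 0x41981adc215600)
  (PL.C (nat_lit 0xbaf816e) (nat_lit 0xa17b8b23ad7897) (nat_lit 0x0)
  (PL.C (nat_lit 0xbb26966) (nat_lit 0x0) (nat_lit 0x5af692eb06d43)
  (PL.C (nat_lit 0xbb2fade) (nat_lit 0x5450394a1fd090) (nat_lit 0x0)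
  (PL.C (nat_lit 0xbb48a01) (nat_lit 0xbf35e6af17ca2b) (nat_lit 0x0)
  (PL.C (nat_lit 0xbb7c91e) (nat_lit 0x0) (nat_lit 0x6cd8494f4b06)
  (PL.C (nat_lit 0xbc4c326) (nat_lit 0x0) (nat_lit 0x7e57d8acf70e75)
  (PL.C (nat_lit 0xbd725bb) (nat_lit 0x0) (nat_lit 0x1b23a38561d837)
  (PL.C (nat_lit 0xbd8373a) (nat_lit 0x0) (nat_lit 0x408cd17daef992)
  (PL.C (nat_lit 0xbe9dff7) (nat_lit 0x0) (nat_lit 0x16b4cdfdedc60)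
  (PL.C (nat_lit 0xbef0215) (nat_lit 0x11de5ad7430e9df) (nat_lit 0x0)
  (PL.C (nat_lit 0xbf00427) (nat_lit 0x116eb46fff2506) (nat_lit 0x0) gp2_1_82))))))))))))))))))))

noncomputable def gp2_1_80 : PL :=
  (PL.C (nat_lit 0xb285ef5) (nat_lit 0x0) (nat_lit 0x1e99cf962d2dea)
  (PL.C (nat_lit 0xb29d2de) (nat_lit 0xd80e59068ccfc9) (nat_lit 0x0)
  (PL.C (nat_lit 0xb2a8b3f) (nat_lit 0x0) (nat_lit 0x10cdee27569fdb)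
  (PL.C (nat_lit 0xb2c1c61) (nat_lit 0x38988f1bc332a2) (nat_lit 0x0)
  (PL.C (nat_lit 0xb43dd3d) (nat_lit 0x0) (nat_lit 0x6f1392af902c4f)
  (PL.C (nat_lit 0xb514927) (nat_lit 0x0) (nat_lit 0x9f9c92f4c6ce9)
  (PL.C (nat_lit 0xb544a6f) (nat_lit 0x0) (nat_lit 0x170f0e2ca22c00d7)
  (PL.C (nat_lit 0xb54a0ee) (nat_lit 0x76c6a768436c0) (nat_lit 0x0)
  (PL.C (nat_lit 0xb5c76bb) (nat_lit 0x0) (nat_lit 0x34610cb5cfa79f)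
  (PL.C (nat_lit 0xb5ccba9) (nat_lit 0x5174ec1f02900c) (nat_lit 0x0)
  (PL.C (nat_lit 0xb61b53a) (nat_lit 0x0) (nat_lit 0x1e216ebaa5d7646)
  (PL.C (nat_lit 0xb630a87) (nat_lit 0x25a4cefd15b8b54) (nat_lit 0x0)
  (PL.C (nat_lit 0xb63e6aa) (nat_lit 0x23b4b3c4a20b4f) (nat_lit 0x0)
  (PL.C (nat_lit 0xb68bd79) (nat_lit 0x0) (nat_lit 0x53280dcddbaa46)
  (PL.C (nat_lit 0xb69c5ca) (nat_lit 0x0) (nat_lit 0xae92f13c0aea24)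
  (PL.C (nat_lit 0xb6d9922) (nat_lit 0x0) (nat_lit 0xc751eaa44cbb1c)
  (PL.C (nat_lit 0xb724ae2) (nat_lit 0x9bf946534bbea) (nat_lit 0x0)
  (PL.C (nat_lit 0xb731605) (nat_lit 0x5bf0283f041fc4) (nat_lit 0x0)
  (PL.C (nat_lit 0xb7d0086) (nat_lit 0x0) (nat_lit 0x24122f94f20725)
  (PL.C (nat_lit 0xb81e1ff) (nat_lit 0x4a73369a35ef5d) (nat_lit 0x0) gp2_1_81))))))))))))))))))))

noncomputable def gp2_1_79 : PL :=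
  (PL.C (nat_lit 0xad0af7f) (nat_lit 0x0) (nat_lit 0x2386e7953b82f27)
  (PL.C (nat_lit 0xad203ca) (nat_lit 0x0) (nat_lit 0x99a4a0130d9fe6)
  (PL.C (nat_lit 0xad6dc0f) (nat_lit 0x0) (nat_lit 0x1c040445bd351)
  (PL.C (nat_lit 0xada9be5) (nat_lit 0x0) (nat_lit 0x6fad8c31e707e4)
  (PL.C (nat_lit 0xae56764) (nat_lit 0xc14a42918c17a) (nat_lit 0x0)
  (PL.C (nat_lit 0xae72357) (nat_lit 0x0) (nat_lit 0xa0253744d242c9)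
  (PL.C (nat_lit 0xae9a6fe) (nat_lit 0x0) (nat_lit 0xf2cc8beaae0220)
  (PL.C (nat_lit 0xaeb507d) (nat_lit 0x0) (nat_lit 0x82e040971412c6)
  (PL.C (nat_lit 0xaeff5fe) (nat_lit 0x0) (nat_lit 0x15d5ac69376883)
  (PL.C (nat_lit 0xaf0c783) (nat_lit 0x156c454e1bf4ed) (nat_lit 0x0)
  (PL.C (nat_lit 0xaf28733) (nat_lit 0x0) (nat_lit 0x710bb94f0c3dbd)
  (PL.C (nat_lit 0xafab347) (nat_lit 0x19d90459a30314) (nat_lit 0x0)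
  (PL.C (nat_lit 0xafb199c) (nat_lit 0xbe1355325a91d) (nat_lit 0x0)
  (PL.C (nat_lit 0xafd6a7c) (nat_lit 0x0) (nat_lit 0x15e8a2de5cb5a6)
  (PL.C (nat_lit 0xb06b56b) (nat_lit 0x0) (nat_lit 0x42d89f63a585450)
  (PL.C (nat_lit 0xb0b7493) (nat_lit 0x0) (nat_lit 0x13061e41202a16)
  (PL.C (nat_lit 0xb134c84) (nat_lit 0x0) (nat_lit 0x3ded3fa8719d8)
  (PL.C (nat_lit 0xb1811ce) (nat_lit 0x403ef196d97916) (nat_lit 0x0)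
  (PL.C (nat_lit 0xb261636) (nat_lit 0xb0307c19a739e8) (nat_lit 0x0)
  (PL.C (nat_lit 0xb276dbf) (nat_lit 0x9b33653fcdacbc) (nat_lit 0x0) gp2_1_80))))))))))))))))))))

noncomputable def gp2_1_78 : PL :=
  (PL.C (nat_lit 0xa56844e) (nat_lit 0x0) (nat_lit 0x499bd7b827bc64)
  (PL.C (nat_lit 0xa57c2db) (nat_lit 0x0) (nat_lit 0x8a3acb6e076024)
  (PL.C (nat_lit 0xa60ad79) (nat_lit 0x4c166b38901ef1) (nat_lit 0x0)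
  (PL.C (nat_lit 0xa6498e9) (nat_lit 0x244446cb8e1165d) (nat_lit 0x0)
  (PL.C (nat_lit 0xa6b84dd) (nat_lit 0x0) (nat_lit 0xbc70486802589)
  (PL.C (nat_lit 0xa76e94a) (nat_lit 0x0) (nat_lit 0x29d448c96e4ef3)
  (PL.C (nat_lit 0xa815c4b) (nat_lit 0x0) (nat_lit 0x319c445b00a703c)
  (PL.C (nat_lit 0xa864ead) (nat_lit 0x576f7d77f073d5) (nat_lit 0x0)
  (PL.C (nat_lit 0xa89fa2e) (nat_lit 0x2c27f89971da68c) (nat_lit 0x0)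
  (PL.C (nat_lit 0xa8e4e6e) (nat_lit 0x1c73e3e4553522) (nat_lit 0x0)
  (PL.C (nat_lit 0xa91d836) (nat_lit 0x1bd3585a2ff6445) (nat_lit 0x0)
  (PL.C (nat_lit 0xa9547b2) (nat_lit 0x2a7b1e889471f3) (nat_lit 0x0)
  (PL.C (nat_lit 0xa9d2e2a) (nat_lit 0x41a2afe7cc9a8) (nat_lit 0x0)
  (PL.C (nat_lit 0xab19acd) (nat_lit 0x0) (nat_lit 0xea6a16601106a4)
  (PL.C (nat_lit 0xaba5f86) (nat_lit 0x34dd10029a229) (nat_lit 0x0)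
  (PL.C (nat_lit 0xabc3d84) (nat_lit 0x0) (nat_lit 0x638119a046ba21)
  (PL.C (nat_lit 0xac0dd4e) (nat_lit 0x3b1cda690d5a08) (nat_lit 0x0)
  (PL.C (nat_lit 0xac6c1c2) (nat_lit 0x0) (nat_lit 0x355164208503a8)
  (PL.C (nat_lit 0xac92b01) (nat_lit 0x1c4f4ebde7d141b) (nat_lit 0x0)
  (PL.C (nat_lit 0xacb4881) (nat_lit 0x20f161067a3238) (nat_lit 0x0) gp2_1_79))))))))))))))))))))

noncomputable def gp2_1_77 : PL :=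
  (PL.C (nat_lit 0xa03039a) (nat_lit 0x107f42456ae94f0) (nat_lit 0x0)
  (PL.C (nat_lit 0xa07539b) (nat_lit 0x2a75a012a3cf896) (nat_lit 0x0)
  (PL.C (nat_lit 0xa0c7f0b) (nat_lit 0x391902304b0e134) (nat_lit 0x0)
  (PL.C (nat_lit 0xa12e729) (nat_lit 0x0) (nat_lit 0x80ea6e90668365)
  (PL.C (nat_lit 0xa13c103) (nat_lit 0x9490b82d945ba) (nat_lit 0x0)
  (PL.C (nat_lit 0xa16c303) (nat_lit 0x0) (nat_lit 0xcff596abbd9f48)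
  (PL.C (nat_lit 0xa1721b7) (nat_lit 0x0) (nat_lit 0x1c5f7e1b01b74e)
  (PL.C (nat_lit 0xa1d6d4d) (nat_lit 0x0) (nat_lit 0xa540ed378c867a)
  (PL.C (nat_lit 0xa1dc6bc) (nat_lit 0x3aa26ffa10240a) (nat_lit 0x0)
  (PL.C (nat_lit 0xa2004d1) (nat_lit 0x2513435161cfec) (nat_lit 0x0)
  (PL.C (nat_lit 0xa212acc) (nat_lit 0x59a9920dfe83e) (nat_lit 0x0)
  (PL.C (nat_lit 0xa2587ca) (nat_lit 0x1fb170aaa15173) (nat_lit 0x0)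
  (PL.C (nat_lit 0xa2a50df) (nat_lit 0x71e6eec9e89529) (nat_lit 0x0)
  (PL.C (nat_lit 0xa2db923) (nat_lit 0x0) (nat_lit 0x1a68f6e1a4387d3)
  (PL.C (nat_lit 0xa396bb7) (nat_lit 0x0) (nat_lit 0x1e2a93ae0a8f5d)
  (PL.C (nat_lit 0xa3dd27f) (nat_lit 0x11788f644b562f) (nat_lit 0x0)
  (PL.C (nat_lit 0xa49a4f5) (nat_lit 0x29aa40f7ff5546) (nat_lit 0x0)
  (PL.C (nat_lit 0xa4b79d2) (nat_lit 0x0) (nat_lit 0x1faff1a86d84474)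
  (PL.C (nat_lit 0xa546449) (nat_lit 0xde0b1ffdf3f9a) (nat_lit 0x0)
  (PL.C (nat_lit 0xa54c08b) (nat_lit 0xa2ead2e87c9337) (nat_lit 0x0) gp2_1_78))))))))))))))))))))

noncomputable def gp2_1_76 : PL :=
  (PL.C (nat_lit 0x9c48f69) (nat_lit 0x0) (nat_lit 0x43ccc9f3813d5e)
  (PL.C (nat_lit 0x9c9c666) (nat_lit 0x64798eaf2f235f) (nat_lit 0x0)
  (PL.C (nat_lit 0x9caa6da) (nat_lit 0x5fbafb2e44d50c) (nat_lit 0x0)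
  (PL.C (nat_lit 0x9cd0e4e) (nat_lit 0x2aa2c5effd630) (nat_lit 0x0)
  (PL.C (nat_lit 0x9d5f45e) (nat_lit 0x1758e989a6443fa) (nat_lit 0x0)
  (PL.C (nat_lit 0x9da6d14) (nat_lit 0x657b4b1bba6d0) (nat_lit 0x0)
  (PL.C (nat_lit 0x9dc9c3b) (nat_lit 0x85a2c19d5577e9) (nat_lit 0x0)
  (PL.C (nat_lit 0x9e03ad6) (nat_lit 0x743efaecfb9089) (nat_lit 0x0)
  (PL.C (nat_lit 0x9e06349) (nat_lit 0x0) (nat_lit 0x5571274aa461e0)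
  (PL.C (nat_lit 0x9e170b3) (nat_lit 0x0) (nat_lit 0x23db18ac03aa527)
  (PL.C (nat_lit 0x9e18bc5) (nat_lit 0x5a7e41158b8270) (nat_lit 0x0)
  (PL.C (nat_lit 0x9e554b7) (nat_lit 0x6e86488c0c907f) (nat_lit 0x0)
  (PL.C (nat_lit 0x9e5c02e) (nat_lit 0x0) (nat_lit 0x2b2e1c1def35e57)
  (PL.C (nat_lit 0x9e66b1c) (nat_lit 0x29dfeb84b5bf9ed) (nat_lit 0x0)
  (PL.C (nat_lit 0x9e6e9a7) (nat_lit 0x0) (nat_lit 0x7cd24dae7daa6a)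
  (PL.C (nat_lit 0x9ebde59) (nat_lit 0x263dcb2dc355e6) (nat_lit 0x0)
  (PL.C (nat_lit 0x9f12cfa) (nat_lit 0x0) (nat_lit 0x4b4540603c837da)
  (PL.C (nat_lit 0x9f18849) (nat_lit 0x21d256a27bbf3) (nat_lit 0x0)
  (PL.C (nat_lit 0x9fb8fe2) (nat_lit 0x0) (nat_lit 0x3276c9e812c9b40)
  (PL.C (nat_lit 0x9ffa9a2) (nat_lit 0x0) (nat_lit 0x2ea5b3169cde5b) gp2_1_77))))))))))))))))))))

noncomputable def gp2_1_75 : PL :=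
  (PL.C (nat_lit 0x96c72d6) (nat_lit 0xf8d98f12da9a93) (nat_lit 0x0)
  (PL.C (nat_lit 0x96d0e7b) (nat_lit 0x0) (nat_lit 0x2a0efdcadf64ee)
  (PL.C (nat_lit 0x970374f) (nat_lit 0x0) (nat_lit 0x14ce8fd75e10f)
  (PL.C (nat_lit 0x9744367) (nat_lit 0x0) (nat_lit 0xcc549dd83b973d)
  (PL.C (nat_lit 0x97719a2) (nat_lit 0x4740ec8d93969b) (nat_lit 0x0)
  (PL.C (nat_lit 0x97bd65e) (nat_lit 0x10b2eee616fc7e) (nat_lit 0x0)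
  (PL.C (nat_lit 0x98e6da5) (nat_lit 0x1ace22b38343b5a) (nat_lit 0x0)
  (PL.C (nat_lit 0x9909526) (nat_lit 0xf88db1005258ea) (nat_lit 0x0)
  (PL.C (nat_lit 0x9977a0d) (nat_lit 0xbb0dfdd5f4628) (nat_lit 0x0)
  (PL.C (nat_lit 0x99ab119) (nat_lit 0x0) (nat_lit 0x14787664decb5)
  (PL.C (nat_lit 0x99b9fa2) (nat_lit 0x6795729054ff4b) (nat_lit 0x0)
  (PL.C (nat_lit 0x9a26e72) (nat_lit 0x3512aa46486ce) (nat_lit 0x0)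
  (PL.C (nat_lit 0x9a5a92a) (nat_lit 0x0) (nat_lit 0x149b9e758de3b7a)
  (PL.C (nat_lit 0x9ab35b6) (nat_lit 0x0) (nat_lit 0x1b2d32fb755dfc)
  (PL.C (nat_lit 0x9ac3059) (nat_lit 0x0) (nat_lit 0x98daa29d425109)
  (PL.C (nat_lit 0x9acdcc2) (nat_lit 0x167cdfd0840382) (nat_lit 0x0)
  (PL.C (nat_lit 0x9b107a7) (nat_lit 0x3f50fd1beae1cc) (nat_lit 0x0)
  (PL.C (nat_lit 0x9bd1876) (nat_lit 0x2186036f54ec860) (nat_lit 0x0)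
  (PL.C (nat_lit 0x9bf523a) (nat_lit 0x708f2f6b29dc05) (nat_lit 0x0)
  (PL.C (nat_lit 0x9c05c1e) (nat_lit 0x3c613bb79475aa8) (nat_lit 0x0) gp2_1_76))))))))))))))))))))

noncomputable def gp2_1_74 : PL :=
  (PL.C (nat_lit 0x9299439) (nat_lit 0x2d20559de7f369) (nat_lit 0x0)
  (PL.C (nat_lit 0x92d16b3) (nat_lit 0x0) (nat_lit 0x5eaa23a354955b)
  (PL.C (nat_lit 0x931d1a3) (nat_lit 0x0) (nat_lit 0x27b0a5ee6455c8)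
  (PL.C (nat_lit 0x933269d) (nat_lit 0x4780984c0c7e5) (nat_lit 0x0)
  (PL.C (nat_lit 0x937e4ad) (nat_lit 0x597cefcda82bc) (nat_lit 0x0)
  (PL.C (nat_lit 0x93b9a76) (nat_lit 0x0) (nat_lit 0xce72a42a48ee73)
  (PL.C (nat_lit 0x93dc53f) (nat_lit 0x0) (nat_lit 0xeab37e981b717c)
  (PL.C (nat_lit 0x9414f75) (nat_lit 0x0) (nat_lit 0x5fc1f0bd338c2)
  (PL.C (nat_lit 0x9476cbb) (nat_lit 0x95490c2d53782) (nat_lit 0x0)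
  (PL.C (nat_lit 0x94c9ca7) (nat_lit 0x0) (nat_lit 0xf495cf54e5fe8e)
  (PL.C (nat_lit 0x94e27e1) (nat_lit 0x37f1c47b114fc9) (nat_lit 0x0)
  (PL.C (nat_lit 0x94ece57) (nat_lit 0x1e552f79a6e62b8) (nat_lit 0x0)
  (PL.C (nat_lit 0x95167d7) (nat_lit 0x0) (nat_lit 0x41f02df3de888c)
  (PL.C (nat_lit 0x95758ad) (nat_lit 0x288c8a6a466298b) (nat_lit 0x0)
  (PL.C (nat_lit 0x9576914) (nat_lit 0x0) (nat_lit 0x3231a39ddd46d0)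
  (PL.C (nat_lit 0x95822af) (nat_lit 0x5d54e490e07e8) (nat_lit 0x0)
  (PL.C (nat_lit 0x95aecaf) (nat_lit 0x6b040cb440ec1b) (nat_lit 0x0)
  (PL.C (nat_lit 0x95f9b51) (nat_lit 0x0) (nat_lit 0x6c88d81f99fdec)
  (PL.C (nat_lit 0x9611ae1) (nat_lit 0x551c08e41104af) (nat_lit 0x0)
  (PL.C (nat_lit 0x962fd55) (nat_lit 0x0) (nat_lit 0x21a44ea2dd218ee) gp2_1_75))))))))))))))))))))

noncomputable def gp2_1_73 : PL :=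
  (PL.C (nat_lit 0x8ef0dfa) (nat_lit 0x0) (nat_lit 0x7246e0c76a3669)
  (PL.C (nat_lit 0x8efff71) (nat_lit 0x0) (nat_lit 0x596ff8694a8570)
  (PL.C (nat_lit 0x8f20c92) (nat_lit 0x0) (nat_lit 0x27e6b2781603f4)
  (PL.C (nat_lit 0x8f467ac) (nat_lit 0xe3ecff43412133) (nat_lit 0x0)
  (PL.C (nat_lit 0x8f520ff) (nat_lit 0x0) (nat_lit 0x3ff1159870e3fa)
  (PL.C (nat_lit 0x8f5747c) (nat_lit 0x0) (nat_lit 0x396fc53c7e82ef)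
  (PL.C (nat_lit 0x8f5e6ff) (nat_lit 0x834f7f440bc875) (nat_lit 0x0)
  (PL.C (nat_lit 0x8f731ce) (nat_lit 0xe404dba214527) (nat_lit 0x0)
  (PL.C (nat_lit 0x8fc9763) (nat_lit 0x0) (nat_lit 0x4cfeb6cf8ecd1d)
  (PL.C (nat_lit 0x8fe2292) (nat_lit 0x0) (nat_lit 0x6aece8a0c943878)
  (PL.C (nat_lit 0x8fed06c) (nat_lit 0x0) (nat_lit 0x72738f2eb353e4)
  (PL.C (nat_lit 0x9013953) (nat_lit 0xdb49bfaba2d3ad) (nat_lit 0x0)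
  (PL.C (nat_lit 0x907c78e) (nat_lit 0x0) (nat_lit 0x55f23ff21e3628)
  (PL.C (nat_lit 0x90932a4) (nat_lit 0x2d49e4c44f3b6b) (nat_lit 0x0)
  (PL.C (nat_lit 0x9106545) (nat_lit 0x17d8d47a646a10) (nat_lit 0x0)
  (PL.C (nat_lit 0x912a334) (nat_lit 0x34b00101442e2c) (nat_lit 0x0)
  (PL.C (nat_lit 0x91ca445) (nat_lit 0x0) (nat_lit 0xeee6015b59101)
  (PL.C (nat_lit 0x92133bb) (nat_lit 0x1173c7653b1007f) (nat_lit 0x0)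
  (PL.C (nat_lit 0x928814d) (nat_lit 0x0) (nat_lit 0x2ebf590564e141)
  (PL.C (nat_lit 0x9297b1f) (nat_lit 0xac2af4ce5d6b2c) (nat_lit 0x0) gp2_1_74))))))))))))))))))))

noncomputable def gp2_1_72 : PL :=
  (PL.C (nat_lit 0x8a8f3a1) (nat_lit 0x0) (nat_lit 0x50f8441a3ccdee)
  (PL.C (nat_lit 0x8acbf8b) (nat_lit 0xb5440693b84600) (nat_lit 0x0)
  (PL.C (nat_lit 0x8b0c09a) (nat_lit 0x0) (nat_lit 0x10cf6b7e9a3c23f)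
  (PL.C (nat_lit 0x8b1ffa5) (nat_lit 0x6bd394dd3da623) (nat_lit 0x0)
  (PL.C (nat_lit 0x8b59205) (nat_lit 0x33c4b915f60090) (nat_lit 0x0)
  (PL.C (nat_lit 0x8bb815a) (nat_lit 0x0) (nat_lit 0xb83e5161917529)
  (PL.C (nat_lit 0x8bcff6e) (nat_lit 0x0) (nat_lit 0x370654dd21e067)
  (PL.C (nat_lit 0x8c0c301) (nat_lit 0x117e1cbd5703136) (nat_lit 0x0)
  (PL.C (nat_lit 0x8c22ba4) (nat_lit 0x39347a193be65a) (nat_lit 0x0)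
  (PL.C (nat_lit 0x8c97794) (nat_lit 0x5e1434af47896a) (nat_lit 0x0)
  (PL.C (nat_lit 0x8cfccf6) (nat_lit 0xffa2e574b0b86) (nat_lit 0x0)
  (PL.C (nat_lit 0x8d06957) (nat_lit 0x0) (nat_lit 0x17c014e79c4928)
  (PL.C (nat_lit 0x8d72396) (nat_lit 0x0) (nat_lit 0x3f85e8fe1b6b92)
  (PL.C (nat_lit 0x8dc8199) (nat_lit 0x0) (nat_lit 0x93360f286b58b6)
  (PL.C (nat_lit 0x8dcd4cc) (nat_lit 0x8ac823048d520e) (nat_lit 0x0)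
  (PL.C (nat_lit 0x8de80fe) (nat_lit 0x0) (nat_lit 0x694069fe417f0c)
  (PL.C (nat_lit 0x8e42543) (nat_lit 0x0) (nat_lit 0x28b40e4c359eb39)
  (PL.C (nat_lit 0x8e58366) (nat_lit 0x1b4f9a7553ab3b) (nat_lit 0x0)
  (PL.C (nat_lit 0x8e8bdea) (nat_lit 0x0) (nat_lit 0x345cb1801dfa34)
  (PL.C (nat_lit 0x8ec278e) (nat_lit 0x48763386e919be) (nat_lit 0x0) gp2_1_73))))))))))))))))))))

noncomputable def gp2_1_71 : PL :=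
  (PL.C (nat_lit 0x873bc6d) (nat_lit 0x0) (nat_lit 0x2365dbe29a75f0)
  (PL.C (nat_lit 0x8740b34) (nat_lit 0x6d38dbe256ad88) (nat_lit 0x0)
  (PL.C (nat_lit 0x8773947) (nat_lit 0x0) (nat_lit 0x1208795d36327b0)
  (PL.C (nat_lit 0x87b65f4) (nat_lit 0x130e33d82e255f3) (nat_lit 0x0)
  (PL.C (nat_lit 0x87b9677) (nat_lit 0x0) (nat_lit 0x26a8c909fc76184)
  (PL.C (nat_lit 0x87dcd3c) (nat_lit 0xce9769970f375) (nat_lit 0x0)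
  (PL.C (nat_lit 0x87e6e5b) (nat_lit 0x0) (nat_lit 0x19ee9ee8b607363)
  (PL.C (nat_lit 0x88490d3) (nat_lit 0x0) (nat_lit 0x580e228cd1317)
  (PL.C (nat_lit 0x8849d5e) (nat_lit 0x3e952309ae1e5a4) (nat_lit 0x0)
  (PL.C (nat_lit 0x886a1cf) (nat_lit 0x4875e57ce61f89) (nat_lit 0x0)
  (PL.C (nat_lit 0x886ac2c) (nat_lit 0x599498626090ff) (nat_lit 0x0)
  (PL.C (nat_lit 0x889e141) (nat_lit 0x2f1b08c1f941dc) (nat_lit 0x0)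
  (PL.C (nat_lit 0x88bd684) (nat_lit 0x0) (nat_lit 0x22990b60412ee2)
  (PL.C (nat_lit 0x890b872) (nat_lit 0x9b1c29bf76d44) (nat_lit 0x0)
  (PL.C (nat_lit 0x894c29b) (nat_lit 0x0) (nat_lit 0x1094bc2dc0c607)
  (PL.C (nat_lit 0x897a2ef) (nat_lit 0xede8ef85a04366) (nat_lit 0x0)
  (PL.C (nat_lit 0x89f0003) (nat_lit 0x0) (nat_lit 0xf4945d3f2813b2)
  (PL.C (nat_lit 0x89f94e6) (nat_lit 0x0) (nat_lit 0x2ceefcb222f395d)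
  (PL.C (nat_lit 0x8a182d3) (nat_lit 0x40214a317a8b0bc) (nat_lit 0x0)
  (PL.C (nat_lit 0x8a8d47a) (nat_lit 0x4600ae1899912) (nat_lit 0x0) gp2_1_72))))))))))))))))))))

noncomputable def gp2_1_70 : PL :=
  (PL.C (nat_lit 0x82c4f14) (nat_lit 0x0) (nat_lit 0x160b2c9cbd3f319)
  (PL.C (nat_lit 0x835308e) (nat_lit 0x0) (nat_lit 0x3dfe5b6eb472c85)
  (PL.C (nat_lit 0x83a70a2) (nat_lit 0x2a290c9215dbb1) (nat_lit 0x0)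
  (PL.C (nat_lit 0x83b5116) (nat_lit 0xb3d41cfeb2bd14) (nat_lit 0x0)
  (PL.C (nat_lit 0x83edccd) (nat_lit 0x1ecf89739662910) (nat_lit 0x0)
  (PL.C (nat_lit 0x843a72c) (nat_lit 0x0) (nat_lit 0xd03799762aff1)
  (PL.C (nat_lit 0x8499915) (nat_lit 0x29eaee9da35c1) (nat_lit 0x0)
  (PL.C (nat_lit 0x851d724) (nat_lit 0x0) (nat_lit 0xd123d2c92103d)
  (PL.C (nat_lit 0x8541bd4) (nat_lit 0x0) (nat_lit 0x65ac5ab3721f6)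
  (PL.C (nat_lit 0x855468f) (nat_lit 0x0) (nat_lit 0x176b045f474d2)
  (PL.C (nat_lit 0x859923f) (nat_lit 0x0) (nat_lit 0x276a7b045239ee)
  (PL.C (nat_lit 0x85ae166) (nat_lit 0x1ec170562cc227e) (nat_lit 0x0)
  (PL.C (nat_lit 0x85bdc83) (nat_lit 0x0) (nat_lit 0x75e2412c17d26b)
  (PL.C (nat_lit 0x8600b7d) (nat_lit 0x4becd3ec75b7a4) (nat_lit 0x0)
  (PL.C (nat_lit 0x8642cbc) (nat_lit 0x5a85c0907606ed) (nat_lit 0x0)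
  (PL.C (nat_lit 0x8648662) (nat_lit 0x10710412dc81100) (nat_lit 0x0)
  (PL.C (nat_lit 0x867a3b9) (nat_lit 0x6b72d24828ce2) (nat_lit 0x0)
  (PL.C (nat_lit 0x86d4aea) (nat_lit 0x0) (nat_lit 0x10806415a626ca)
  (PL.C (nat_lit 0x86f2dbe) (nat_lit 0x0) (nat_lit 0x200284666e7585)
  (PL.C (nat_lit 0x872feb9) (nat_lit 0x17b636b473901f2) (nat_lit 0x0) gp2_1_71))))))))))))))))))))

noncomputable def gp2_1_69 : PL :=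
  (PL.C (nat_lit 0x7f4c68d) (nat_lit 0x569d4928db654b) (nat_lit 0x0)
  (PL.C (nat_lit 0x7f5581a) (nat_lit 0x634c2717f12733) (nat_lit 0x0)
  (PL.C (nat_lit 0x7fa0823) (nat_lit 0x18dccad97e7efd) (nat_lit 0x0)
  (PL.C (nat_lit 0x7fe7daf) (nat_lit 0x939b47264d35bb) (nat_lit 0x0)
  (PL.C (nat_lit 0x7ff07be) (nat_lit 0x624c2abd11a263) (nat_lit 0x0)
  (PL.C (nat_lit 0x800d1bf) (nat_lit 0x676df9145931c1) (nat_lit 0x0)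
  (PL.C (nat_lit 0x802c0b6) (nat_lit 0x0) (nat_lit 0x9c5514b701b11)
  (PL.C (nat_lit 0x8030842) (nat_lit 0x405a904b9f60d9) (nat_lit 0x0)
  (PL.C (nat_lit 0x8048372) (nat_lit 0x391efa4ca96387a) (nat_lit 0x0)
  (PL.C (nat_lit 0x807b805) (nat_lit 0x2ccb42c2204a370) (nat_lit 0x0)
  (PL.C (nat_lit 0x80acb77) (nat_lit 0x0) (nat_lit 0x11a60177a7a1eaa)
  (PL.C (nat_lit 0x80ef3c2) (nat_lit 0x185adbff58e7f8) (nat_lit 0x0)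
  (PL.C (nat_lit 0x8101b99) (nat_lit 0x76cbfb0199b0d1) (nat_lit 0x0)
  (PL.C (nat_lit 0x812fc3e) (nat_lit 0x1a01d7197d10ef) (nat_lit 0x0)
  (PL.C (nat_lit 0x8136b79) (nat_lit 0x0) (nat_lit 0x4e8a35bd1607cc)
  (PL.C (nat_lit 0x814b02e) (nat_lit 0x0) (nat_lit 0x1e4f66dc8730a0)
  (PL.C (nat_lit 0x8230412) (nat_lit 0x0) (nat_lit 0x1784038298487e)
  (PL.C (nat_lit 0x824c752) (nat_lit 0x13bd94aa6b4c51) (nat_lit 0x0)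
  (PL.C (nat_lit 0x82b0d6a) (nat_lit 0x0) (nat_lit 0x83935405d8fe63)
  (PL.C (nat_lit 0x82bbe0e) (nat_lit 0x0) (nat_lit 0x7e2fc082a966d) gp2_1_70))))))))))))))))))))

noncomputable def gp2_1_68 : PL :=
  (PL.C (nat_lit 0x7c03c2f) (nat_lit 0x0) (nat_lit 0x11ab1a7537e4a0)
  (PL.C (nat_lit 0x7c29e79) (nat_lit 0x3f157292cafcc60) (nat_lit 0x0)
  (PL.C (nat_lit 0x7c2fd6f) (nat_lit 0x0) (nat_lit 0x877246c5d5eb29)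
  (PL.C (nat_lit 0x7c59773) (nat_lit 0x0) (nat_lit 0x1129eb1a780cbf6)
  (PL.C (nat_lit 0x7c81e21) (nat_lit 0x49b15fc98862c0) (nat_lit 0x0)
  (PL.C (nat_lit 0x7cab9dd) (nat_lit 0x31a70773ce5d79) (nat_lit 0x0)
  (PL.C (nat_lit 0x7cc4644) (nat_lit 0x0) (nat_lit 0x5bc3f5ea8ead0)
  (PL.C (nat_lit 0x7cded3d) (nat_lit 0xe8e29f73ce3b1) (nat_lit 0x0)
  (PL.C (nat_lit 0x7d540dd) (nat_lit 0x7a8cc05440b1ffb) (nat_lit 0x0)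
  (PL.C (nat_lit 0x7d99b83) (nat_lit 0x69b95662eb461b) (nat_lit 0x0)
  (PL.C (nat_lit 0x7dae925) (nat_lit 0x0) (nat_lit 0x9a27a183bc383)
  (PL.C (nat_lit 0x7dda773) (nat_lit 0x0) (nat_lit 0x204be06d39f5e09)
  (PL.C (nat_lit 0x7e04a67) (nat_lit 0x9d47e3d7d28edf) (nat_lit 0x0)
  (PL.C (nat_lit 0x7e3645b) (nat_lit 0x0) (nat_lit 0x2789f33f30265f)
  (PL.C (nat_lit 0x7e4c3d2) (nat_lit 0x9dd0c9cee77df) (nat_lit 0x0)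
  (PL.C (nat_lit 0x7e89a75) (nat_lit 0x632e8feac10ed9) (nat_lit 0x0)
  (PL.C (nat_lit 0x7eae825) (nat_lit 0x0) (nat_lit 0x20fed6a8806cd1b)
  (PL.C (nat_lit 0x7ec7f69) (nat_lit 0x0) (nat_lit 0xf4901e4cb9121b)
  (PL.C (nat_lit 0x7f13ffa) (nat_lit 0x0) (nat_lit 0xa4d050d7cced0)
  (PL.C (nat_lit 0x7f1bb87) (nat_lit 0x0) (nat_lit 0xf3c402923b89bc) gp2_1_69))))))))))))))))))))

noncomputable def gp2_1_67 : PL :=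
  (PL.C (nat_lit 0x7751073) (nat_lit 0xdf6106d122dc9b) (nat_lit 0x0)
  (PL.C (nat_lit 0x7799397) (nat_lit 0x313bf08f7a078a) (nat_lit 0x0)
  (PL.C (nat_lit 0x782937e) (nat_lit 0x0) (nat_lit 0x7a87e9c04ad96e)
  (PL.C (nat_lit 0x78b861a) (nat_lit 0x0) (nat_lit 0x21f9aa643796ec)
  (PL.C (nat_lit 0x790693b) (nat_lit 0xde1612b292f276) (nat_lit 0x0)
  (PL.C (nat_lit 0x792f9d2) (nat_lit 0x2e31829c8f740f) (nat_lit 0x0)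
  (PL.C (nat_lit 0x7975c5a) (nat_lit 0x0) (nat_lit 0x3831f22fe8bcd8c)
  (PL.C (nat_lit 0x797ef1c) (nat_lit 0x0) (nat_lit 0x252866886f0562)
  (PL.C (nat_lit 0x799f7df) (nat_lit 0x66e6a034e3f4cd) (nat_lit 0x0)
  (PL.C (nat_lit 0x79c8423) (nat_lit 0x0) (nat_lit 0x972950a351eb2b)
  (PL.C (nat_lit 0x79e1e91) (nat_lit 0x27773005004bb48) (nat_lit 0x0)
  (PL.C (nat_lit 0x7a20eae) (nat_lit 0x10baceb5d88484f) (nat_lit 0x0)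
  (PL.C (nat_lit 0x7a55861) (nat_lit 0x0) (nat_lit 0x13b3bc225b31e86)
  (PL.C (nat_lit 0x7a8ab04) (nat_lit 0x0) (nat_lit 0x764c2a3bc82c11)
  (PL.C (nat_lit 0x7acf314) (nat_lit 0x10cce16b6700bfb) (nat_lit 0x0)
  (PL.C (nat_lit 0x7ae394c) (nat_lit 0x0) (nat_lit 0x8d2ba9347b164)
  (PL.C (nat_lit 0x7b50fde) (nat_lit 0x1451e09139cd07) (nat_lit 0x0)
  (PL.C (nat_lit 0x7b631d7) (nat_lit 0x0) (nat_lit 0x4b955b0abaf90e)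
  (PL.C (nat_lit 0x7b9b38b) (nat_lit 0x0) (nat_lit 0x8bc501a60b44f3)
  (PL.C (nat_lit 0x7bddd4c) (nat_lit 0x278a7c26724f894) (nat_lit 0x0) gp2_1_68))))))))))))))))))))

noncomputable def gp2_1_66 : PL :=
  (PL.C (nat_lit 0x739e80a) (nat_lit 0x0) (nat_lit 0x4601c579d40fc)
  (PL.C (nat_lit 0x73c67ee) (nat_lit 0xc11347ed6add2b) (nat_lit 0x0)
  (PL.C (nat_lit 0x73f3a31) (nat_lit 0x0) (nat_lit 0x125ff481bea972)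
  (PL.C (nat_lit 0x7436ab1) (nat_lit 0x244ca0d734e5448) (nat_lit 0x0)
  (PL.C (nat_lit 0x744c23a) (nat_lit 0x0) (nat_lit 0x8ec4d1149b464a)
  (PL.C (nat_lit 0x7466f54) (nat_lit 0x0) (nat_lit 0x86eaff8068d827)
  (PL.C (nat_lit 0x7470d4f) (nat_lit 0x11c163e6aa5fa3e) (nat_lit 0x0)
  (PL.C (nat_lit 0x7478afe) (nat_lit 0x0) (nat_lit 0x160cf4331b6bf7)
  (PL.C (nat_lit 0x74b34df) (nat_lit 0x8f0f73ad631606) (nat_lit 0x0)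
  (PL.C (nat_lit 0x74c5a22) (nat_lit 0x94352abb4a353) (nat_lit 0x0)
  (PL.C (nat_lit 0x74f73e5) (nat_lit 0x415f3f3103f9c00) (nat_lit 0x0)
  (PL.C (nat_lit 0x751ccda) (nat_lit 0x4faa72873041be) (nat_lit 0x0)
  (PL.C (nat_lit 0x754f3fb) (nat_lit 0x484ba397cecaed) (nat_lit 0x0)
  (PL.C (nat_lit 0x75716f9) (nat_lit 0x10681632fa0748) (nat_lit 0x0)
  (PL.C (nat_lit 0x75a1ad9) (nat_lit 0x0) (nat_lit 0x123f05eb3dd6df)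
  (PL.C (nat_lit 0x75c91b5) (nat_lit 0x0) (nat_lit 0x3bcfaa6d50128)
  (PL.C (nat_lit 0x76b677b) (nat_lit 0x3fad03063d927b) (nat_lit 0x0)
  (PL.C (nat_lit 0x7703f4e) (nat_lit 0x0) (nat_lit 0xd2227b9069f53)
  (PL.C (nat_lit 0x771b22a) (nat_lit 0x0) (nat_lit 0x302efc3479068d)
  (PL.C (nat_lit 0x772bd96) (nat_lit 0x0) (nat_lit 0x7d98be52717d96) gp2_1_67))))))))))))))))))))

noncomputable def gp2_1_65 : PL :=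
  (PL.C (nat_lit 0x70c717b) (nat_lit 0x0) (nat_lit 0x1a89cbe7dfb0f7)
  (PL.C (nat_lit 0x70d99b5) (nat_lit 0x0) (nat_lit 0x53f64be28f5d89)
  (PL.C (nat_lit 0x70e2fcc) (nat_lit 0x75553d4018f9a6) (nat_lit 0x0)
  (PL.C (nat_lit 0x70ece4f) (nat_lit 0x0) (nat_lit 0x6a2361571b125)
  (PL.C (nat_lit 0x71309c1) (nat_lit 0x0) (nat_lit 0xc63b5a461dea9)
  (PL.C (nat_lit 0x713741c) (nat_lit 0x525776b94ce3a) (nat_lit 0x0)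
  (PL.C (nat_lit 0x72111de) (nat_lit 0x1274869bae720d) (nat_lit 0x0)
  (PL.C (nat_lit 0x7292893) (nat_lit 0x31a954e6677b88) (nat_lit 0x0)
  (PL.C (nat_lit 0x729de57) (nat_lit 0x0) (nat_lit 0x208005950e7937)
  (PL.C (nat_lit 0x72acb85) (nat_lit 0x2aea64b042e76a) (nat_lit 0x0)
  (PL.C (nat_lit 0x72b3e34) (nat_lit 0x0) (nat_lit 0x8253e3d00ea9b)
  (PL.C (nat_lit 0x72b8f07) (nat_lit 0x0) (nat_lit 0x1a118b25a6dbdaa)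
  (PL.C (nat_lit 0x72f87ab) (nat_lit 0x0) (nat_lit 0x19f846ccc86c9c0)
  (PL.C (nat_lit 0x730c756) (nat_lit 0x0) (nat_lit 0x18e1bddcf215190)
  (PL.C (nat_lit 0x732233d) (nat_lit 0x0) (nat_lit 0x2cd032c932d120)
  (PL.C (nat_lit 0x7323056) (nat_lit 0x1fefab37dd6ca28) (nat_lit 0x0)
  (PL.C (nat_lit 0x7327b4b) (nat_lit 0x2cea94dfb19f60) (nat_lit 0x0)
  (PL.C (nat_lit 0x734e4df) (nat_lit 0x0) (nat_lit 0xb803b1fc4ec72f)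
  (PL.C (nat_lit 0x7373c85) (nat_lit 0x0) (nat_lit 0xb661c072b4b2b)
  (PL.C (nat_lit 0x739a7b1) (nat_lit 0x0) (nat_lit 0x68648a89be3e7) gp2_1_66))))))))))))))))))))

noncomputable def gp2_1_64 : PL :=
  (PL.C (nat_lit 0x6c3afdc) (nat_lit 0x0) (nat_lit 0x36bd505ff9807)
  (PL.C (nat_lit 0x6c758d9) (nat_lit 0x0) (nat_lit 0x2e49fbb00f7f6b8)
  (PL.C (nat_lit 0x6c9f193) (nat_lit 0x1136bbb94d1d019) (nat_lit 0x0)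
  (PL.C (nat_lit 0x6cc7287) (nat_lit 0x16d539907485d9) (nat_lit 0x0)
  (PL.C (nat_lit 0x6ce6dbd) (nat_lit 0xb434c51f5df90e) (nat_lit 0x0)
  (PL.C (nat_lit 0x6cff3b7) (nat_lit 0x0) (nat_lit 0x32c9a63dbb2b29)
  (PL.C (nat_lit 0x6d0f27a) (nat_lit 0xf32616202a8eb7) (nat_lit 0x0)
  (PL.C (nat_lit 0x6d3e1aa) (nat_lit 0x9edc60cee366c8) (nat_lit 0x0)
  (PL.C (nat_lit 0x6db6e01) (nat_lit 0x0) (nat_lit 0x16717af4fba286)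
  (PL.C (nat_lit 0x6dbc34e) (nat_lit 0xa31ab4df362847) (nat_lit 0x0)
  (PL.C (nat_lit 0x6e14407) (nat_lit 0xb4dbba977e21aa) (nat_lit 0x0)
  (PL.C (nat_lit 0x6e2ed86) (nat_lit 0x5b2affe925d0d5) (nat_lit 0x0)
  (PL.C (nat_lit 0x6e45834) (nat_lit 0x0) (nat_lit 0x904d6f131fb5af)
  (PL.C (nat_lit 0x6e52c92) (nat_lit 0x0) (nat_lit 0x991a973de8b4d6)
  (PL.C (nat_lit 0x6eb0b21) (nat_lit 0x0) (nat_lit 0x25101cdc1d9600)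
  (PL.C (nat_lit 0x6edbb46) (nat_lit 0x0) (nat_lit 0xe95c815d89bbed)
  (PL.C (nat_lit 0x6f9f0dc) (nat_lit 0x0) (nat_lit 0xb49bf2075cae1)
  (PL.C (nat_lit 0x700e832) (nat_lit 0xa30ec08c6fae9b3) (nat_lit 0x0)
  (PL.C (nat_lit 0x70394c7) (nat_lit 0x133d153e9d7939) (nat_lit 0x0)
  (PL.C (nat_lit 0x704ea55) (nat_lit 0x535e0dd435f3979) (nat_lit 0x0) gp2_1_65))))))))))))))))))))

noncomputable def gp2_1_63 : PL :=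
  (PL.C (nat_lit 0x68d041d) (nat_lit 0x4908c887bde0c) (nat_lit 0x0)
  (PL.C (nat_lit 0x68f867f) (nat_lit 0x0) (nat_lit 0x725b29ddf2f745)
  (PL.C (nat_lit 0x691a865) (nat_lit 0x3757412a4d3952) (nat_lit 0x0)
  (PL.C (nat_lit 0x69312d2) (nat_lit 0x6b17b147aa65ea) (nat_lit 0x0)
  (PL.C (nat_lit 0x693dc11) (nat_lit 0x1646454470ef77f) (nat_lit 0x0)
  (PL.C (nat_lit 0x6959786) (nat_lit 0x0) (nat_lit 0x2f8b1aa1822e7c)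
  (PL.C (nat_lit 0x6964b22) (nat_lit 0x4edb736db0e170) (nat_lit 0x0)
  (PL.C (nat_lit 0x697a49f) (nat_lit 0x0) (nat_lit 0x57888d90642c51)
  (PL.C (nat_lit 0x699f11a) (nat_lit 0x2582326ffe4dc4) (nat_lit 0x0)
  (PL.C (nat_lit 0x69cbf11) (nat_lit 0xec7a0840aae1a0) (nat_lit 0x0)
  (PL.C (nat_lit 0x69d3ee6) (nat_lit 0x4c9dff4932ee6d) (nat_lit 0x0)
  (PL.C (nat_lit 0x6a10586) (nat_lit 0xef3640704f23a) (nat_lit 0x0)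
  (PL.C (nat_lit 0x6a3d67f) (nat_lit 0x0) (nat_lit 0x13969e870bfccd)
  (PL.C (nat_lit 0x6a61043) (nat_lit 0x0) (nat_lit 0x2f6bfab953bd221)
  (PL.C (nat_lit 0x6af8d12) (nat_lit 0x0) (nat_lit 0x4699578eb5b802)
  (PL.C (nat_lit 0x6b7d602) (nat_lit 0x1726d38e3662c4) (nat_lit 0x0)
  (PL.C (nat_lit 0x6ba167a) (nat_lit 0x0) (nat_lit 0x236ce601056785)
  (PL.C (nat_lit 0x6be48de) (nat_lit 0x171c8e065368b4) (nat_lit 0x0)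
  (PL.C (nat_lit 0x6bf8eab) (nat_lit 0x0) (nat_lit 0x1f870211de2fa30)
  (PL.C (nat_lit 0x6c00336) (nat_lit 0x19241df45c3746) (nat_lit 0x0) gp2_1_64))))))))))))))))))))

noncomputable def gp2_1_62 : PL :=
  (PL.C (nat_lit 0x63ac1ca) (nat_lit 0x135d657dd7b16c) (nat_lit 0x0)
  (PL.C (nat_lit 0x63c9dca) (nat_lit 0x1462b6ff0228c30) (nat_lit 0x0)
  (PL.C (nat_lit 0x640bc96) (nat_lit 0x4f15c0839f7fb5) (nat_lit 0x0)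
  (PL.C (nat_lit 0x64364a7) (nat_lit 0x44017d548054907) (nat_lit 0x0)
  (PL.C (nat_lit 0x648b452) (nat_lit 0x0) (nat_lit 0x28bb3f19e8b077)
  (PL.C (nat_lit 0x64acf8a) (nat_lit 0xb59be55566a350) (nat_lit 0x0)
  (PL.C (nat_lit 0x64f666c) (nat_lit 0x0) (nat_lit 0x676ca9dd4ef89e)
  (PL.C (nat_lit 0x66a3d85) (nat_lit 0x0) (nat_lit 0x81c90d43f783f)
  (PL.C (nat_lit 0x66cd9ef) (nat_lit 0x0) (nat_lit 0x32dfd3c50747d6)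
  (PL.C (nat_lit 0x66d8c15) (nat_lit 0x7cb94e59ed692) (nat_lit 0x0)
  (PL.C (nat_lit 0x671a537) (nat_lit 0x116818894d8251) (nat_lit 0x0)
  (PL.C (nat_lit 0x672cae6) (nat_lit 0x0) (nat_lit 0xb4b82483cc084d)
  (PL.C (nat_lit 0x676051a) (nat_lit 0x683d9364ba6dc8) (nat_lit 0x0)
  (PL.C (nat_lit 0x6786093) (nat_lit 0x0) (nat_lit 0x108fb99154d18)
  (PL.C (nat_lit 0x68012a3) (nat_lit 0x0) (nat_lit 0x32f90441d210db)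
  (PL.C (nat_lit 0x6823b09) (nat_lit 0x0) (nat_lit 0x1de2170a8c1f97)
  (PL.C (nat_lit 0x6857cf7) (nat_lit 0x36735074e11f88) (nat_lit 0x0)
  (PL.C (nat_lit 0x6868444) (nat_lit 0x5a019cac3c6b5b) (nat_lit 0x0)
  (PL.C (nat_lit 0x688b434) (nat_lit 0x0) (nat_lit 0x14ed6847127480)
  (PL.C (nat_lit 0x6893607) (nat_lit 0x27ec527912e3d) (nat_lit 0x0) gp2_1_63))))))))))))))))))))

noncomputable def gp2_1_61 : PL :=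
  (PL.C (nat_lit 0x61b00de) (nat_lit 0x0) (nat_lit 0x6b4ea64c4c643a)
  (PL.C (nat_lit 0x61ba76a) (nat_lit 0x137610599ac1c4) (nat_lit 0x0)
  (PL.C (nat_lit 0x61bb826) (nat_lit 0x139ee4f32a5bfa) (nat_lit 0x0)
  (PL.C (nat_lit 0x61e0f22) (nat_lit 0x0) (nat_lit 0xc888639392ac97)
  (PL.C (nat_lit 0x61e48f3) (nat_lit 0x0) (nat_lit 0x7b53f6a90da10a)
  (PL.C (nat_lit 0x621a335) (nat_lit 0x0) (nat_lit 0x23adde21ad3e61a)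
  (PL.C (nat_lit 0x62219be) (nat_lit 0x14005169ac6835) (nat_lit 0x0)
  (PL.C (nat_lit 0x624b4cb) (nat_lit 0x0) (nat_lit 0x3d698fa6f6e91)
  (PL.C (nat_lit 0x625431e) (nat_lit 0x0) (nat_lit 0x837a97ea47607b)
  (PL.C (nat_lit 0x628369b) (nat_lit 0x296f49425e72b7) (nat_lit 0x0)
  (PL.C (nat_lit 0x6292e2a) (nat_lit 0x0) (nat_lit 0x3734dbe8f3668d)
  (PL.C (nat_lit 0x62a46ef) (nat_lit 0x817bf68db4a35d) (nat_lit 0x0)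
  (PL.C (nat_lit 0x62b8a4e) (nat_lit 0x0) (nat_lit 0x576937b03ab41a)
  (PL.C (nat_lit 0x62bcc39) (nat_lit 0x0) (nat_lit 0x6f0f5c693c4767)
  (PL.C (nat_lit 0x62f9dd2) (nat_lit 0x3693983b930a3a) (nat_lit 0x0)
  (PL.C (nat_lit 0x6323e9d) (nat_lit 0xb5de386eb80c9e) (nat_lit 0x0)
  (PL.C (nat_lit 0x633131a) (nat_lit 0x0) (nat_lit 0x82d0191b0492f6)
  (PL.C (nat_lit 0x6341a96) (nat_lit 0x0) (nat_lit 0x4316216c5fa15)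
  (PL.C (nat_lit 0x636453a) (nat_lit 0x0) (nat_lit 0xc19f40c3a2c7d7)
  (PL.C (nat_lit 0x63a3b1e) (nat_lit 0x0) (nat_lit 0xc76d16e07fd21e) gp2_1_62))))))))))))))))))))

noncomputable def gp2_1_60 : PL :=
  (PL.C (nat_lit 0x5e85666) (nat_lit 0x0) (nat_lit 0x594a0c4a145f2c)
  (PL.C (nat_lit 0x5e9ab54) (nat_lit 0x8f0c1cd0ec4c10) (nat_lit 0x0)
  (PL.C (nat_lit 0x5ece069) (nat_lit 0x90bb6fdedbcd9d) (nat_lit 0x0)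
  (PL.C (nat_lit 0x5f07e9c) (nat_lit 0x893f367cff250) (nat_lit 0x0)
  (PL.C (nat_lit 0x5f43549) (nat_lit 0x2f82068be65d3) (nat_lit 0x0)
  (PL.C (nat_lit 0x5f4b3fc) (nat_lit 0x6838d60c83e9f) (nat_lit 0x0)
  (PL.C (nat_lit 0x5f539cb) (nat_lit 0x0) (nat_lit 0x3fd4eb9295bb9d)
  (PL.C (nat_lit 0x5f6b30c) (nat_lit 0x1510faf1795d89) (nat_lit 0x0)
  (PL.C (nat_lit 0x5f8c0aa) (nat_lit 0x0) (nat_lit 0x1feb776fe9d645)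
  (PL.C (nat_lit 0x5f944aa) (nat_lit 0x0) (nat_lit 0x33fae370f46a6e)
  (PL.C (nat_lit 0x5fdba42) (nat_lit 0x0) (nat_lit 0x4f690161ad3e86)
  (PL.C (nat_lit 0x600d0e2) (nat_lit 0x42aee189234c6b) (nat_lit 0x0)
  (PL.C (nat_lit 0x60189dd) (nat_lit 0x0) (nat_lit 0x86160c4ddbb034)
  (PL.C (nat_lit 0x6052fb4) (nat_lit 0x0) (nat_lit 0x155943a1280245e)
  (PL.C (nat_lit 0x60aee2e) (nat_lit 0x0) (nat_lit 0x2f310791c1c4c9)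
  (PL.C (nat_lit 0x60cda59) (nat_lit 0x11f90772675d58) (nat_lit 0x0)
  (PL.C (nat_lit 0x60d7f63) (nat_lit 0x8603c3ec019c4a) (nat_lit 0x0)
  (PL.C (nat_lit 0x610d997) (nat_lit 0x0) (nat_lit 0x5fd529e5a79f81)
  (PL.C (nat_lit 0x613182e) (nat_lit 0x0) (nat_lit 0x5ffe6e7a73f3b9e)
  (PL.C (nat_lit 0x619b1ed) (nat_lit 0x0) (nat_lit 0x5b2cb46e8824cbf) gp2_1_61))))))))))))))))))))

noncomputable def gp2_1_59 : PL :=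
  (PL.C (nat_lit 0x5b140d6) (nat_lit 0x954ff12a6e4a0b) (nat_lit 0x0)
  (PL.C (nat_lit 0x5b5d04c) (nat_lit 0x96205862b65f6) (nat_lit 0x0)
  (PL.C (nat_lit 0x5c02ad3) (nat_lit 0x0) (nat_lit 0xb8a1ad84a07f7e)
  (PL.C (nat_lit 0x5c101e2) (nat_lit 0x0) (nat_lit 0x2ac17f0cfcd704a)
  (PL.C (nat_lit 0x5c21847) (nat_lit 0x0) (nat_lit 0x2c04ac372f3aae)
  (PL.C (nat_lit 0x5c5e2fc) (nat_lit 0x0) (nat_lit 0xcb39e677369d0)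
  (PL.C (nat_lit 0x5c87fb2) (nat_lit 0x8281181b3e6759) (nat_lit 0x0)
  (PL.C (nat_lit 0x5cec863) (nat_lit 0x598d0f36eeec6bc) (nat_lit 0x0)
  (PL.C (nat_lit 0x5d2563c) (nat_lit 0x0) (nat_lit 0xaede1c5c585f1e)
  (PL.C (nat_lit 0x5d354f4) (nat_lit 0x0) (nat_lit 0x7842d5af58266c)
  (PL.C (nat_lit 0x5d41e9b) (nat_lit 0x0) (nat_lit 0x4929f06716acf6)
  (PL.C (nat_lit 0x5d5d756) (nat_lit 0x60e7ff118f5514) (nat_lit 0x0)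
  (PL.C (nat_lit 0x5d70965) (nat_lit 0x87209f5578ae4) (nat_lit 0x0)
  (PL.C (nat_lit 0x5d82c8f) (nat_lit 0x202c91a4024f65) (nat_lit 0x0)
  (PL.C (nat_lit 0x5deeba5) (nat_lit 0x0) (nat_lit 0xd75ed8d6125216)
  (PL.C (nat_lit 0x5e0463a) (nat_lit 0x0) (nat_lit 0xe6774141f66f9c)
  (PL.C (nat_lit 0x5e12b57) (nat_lit 0x0) (nat_lit 0x15892e7aa81771)
  (PL.C (nat_lit 0x5e41ca9) (nat_lit 0x0) (nat_lit 0x2d4beb9d0d6fd3)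
  (PL.C (nat_lit 0x5e50db9) (nat_lit 0x18665a9a24d413) (nat_lit 0x0)
  (PL.C (nat_lit 0x5e77999) (nat_lit 0x0) (nat_lit 0xc50782a5615a4) gp2_1_60))))))))))))))))))))

noncomputable def gp2_1_58 : PL :=
  (PL.C (nat_lit 0x58a1dbf) (nat_lit 0x2c507ffa3ad0b3) (nat_lit 0x0)
  (PL.C (nat_lit 0x58e2f0a) (nat_lit 0x0) (nat_lit 0x2bdc156d04cb73)
  (PL.C (nat_lit 0x58fe73b) (nat_lit 0x14746e8709f2b5) (nat_lit 0x0)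
  (PL.C (nat_lit 0x5910c2a) (nat_lit 0x0) (nat_lit 0x9ba1e48c6ad44a)
  (PL.C (nat_lit 0x591b7b1) (nat_lit 0x22093906ae743a6) (nat_lit 0x0)
  (PL.C (nat_lit 0x5929302) (nat_lit 0x0) (nat_lit 0x18adb3361315c5)
  (PL.C (nat_lit 0x594f115) (nat_lit 0x0) (nat_lit 0x401de264a82f61)
  (PL.C (nat_lit 0x5955cfe) (nat_lit 0x5ac461db13926f) (nat_lit 0x0)
  (PL.C (nat_lit 0x598a11b) (nat_lit 0x1da76b14fc6f522) (nat_lit 0x0)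
  (PL.C (nat_lit 0x59a6d26) (nat_lit 0x1ea422eab957d2) (nat_lit 0x0)
  (PL.C (nat_lit 0x59cce8f) (nat_lit 0x0) (nat_lit 0x29b76da5f9147)
  (PL.C (nat_lit 0x59cd705) (nat_lit 0x0) (nat_lit 0x5fd666eb38976)
  (PL.C (nat_lit 0x59f73d4) (nat_lit 0x0) (nat_lit 0xb30161f8dcd67)
  (PL.C (nat_lit 0x5a1ff26) (nat_lit 0x25d9184ca5b23eb) (nat_lit 0x0)
  (PL.C (nat_lit 0x5a27d9e) (nat_lit 0x0) (nat_lit 0x3fc195759e13ff)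
  (PL.C (nat_lit 0x5a4d0da) (nat_lit 0x0) (nat_lit 0x226988ba1b054d)
  (PL.C (nat_lit 0x5a81e01) (nat_lit 0x0) (nat_lit 0x53cb3402fa00a27)
  (PL.C (nat_lit 0x5aac7e7) (nat_lit 0x0) (nat_lit 0x961a238633fd60)
  (PL.C (nat_lit 0x5adb5e2) (nat_lit 0x0) (nat_lit 0x1c7e3fa9388753)
  (PL.C (nat_lit 0x5af168a) (nat_lit 0x2a5f8eaf0a648a) (nat_lit 0x0) gp2_1_59))))))))))))))))))))

noncomputable def gp2_1_57 : PL :=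
  (PL.C (nat_lit 0x554afd4) (nat_lit 0xf5329fc32a0f32) (nat_lit 0x0)
  (PL.C (nat_lit 0x55519bf) (nat_lit 0x0) (nat_lit 0x840f2309ab95a)
  (PL.C (nat_lit 0x555e12a) (nat_lit 0x0) (nat_lit 0x2b7eba70185f60b)
  (PL.C (nat_lit 0x5572b24) (nat_lit 0x0) (nat_lit 0x3f2f213a9143ac)
  (PL.C (nat_lit 0x55a7aae) (nat_lit 0x0) (nat_lit 0x19bc45c4a470e17)
  (PL.C (nat_lit 0x55f4d2c) (nat_lit 0x0) (nat_lit 0x4a5609c1c383fe)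
  (PL.C (nat_lit 0x5601266) (nat_lit 0x0) (nat_lit 0xd934e21be972d5)
  (PL.C (nat_lit 0x561cb55) (nat_lit 0x1bb84c469ad778) (nat_lit 0x0)
  (PL.C (nat_lit 0x56247a6) (nat_lit 0x0) (nat_lit 0x149ad51fade361)
  (PL.C (nat_lit 0x56ca3db) (nat_lit 0xd35068fa2c3ac4) (nat_lit 0x0)
  (PL.C (nat_lit 0x56d1929) (nat_lit 0x10f6da132c847f) (nat_lit 0x0)
  (PL.C (nat_lit 0x56eeac5) (nat_lit 0x0) (nat_lit 0x3101dbfae28cec)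
  (PL.C (nat_lit 0x5727eb4) (nat_lit 0x0) (nat_lit 0x3bbff33aafafd)
  (PL.C (nat_lit 0x573b3d3) (nat_lit 0x0) (nat_lit 0x3c9c0cc5c57054)
  (PL.C (nat_lit 0x57770e5) (nat_lit 0x0) (nat_lit 0x6fe6a0dea9020d4)
  (PL.C (nat_lit 0x5793f3d) (nat_lit 0x0) (nat_lit 0xe25cb9b5a076d)
  (PL.C (nat_lit 0x57e8eed) (nat_lit 0x0) (nat_lit 0x4f187b385a93d)
  (PL.C (nat_lit 0x583c01d) (nat_lit 0x0) (nat_lit 0x255d72262d25f9)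
  (PL.C (nat_lit 0x5855b4d) (nat_lit 0x3b0b39c985b7cf) (nat_lit 0x0)
  (PL.C (nat_lit 0x586660e) (nat_lit 0x83fc72379b40aa) (nat_lit 0x0) gp2_1_58))))))))))))))))))))

noncomputable def gp2_1_56 : PL :=
  (PL.C (nat_lit 0x52c69a6) (nat_lit 0xeef5d60a0659c5) (nat_lit 0x0)
  (PL.C (nat_lit 0x52d04c9) (nat_lit 0x0) (nat_lit 0xaa8e83fff0576d)
  (PL.C (nat_lit 0x5301416) (nat_lit 0x66716d0f927c6c) (nat_lit 0x0)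
  (PL.C (nat_lit 0x531d13e) (nat_lit 0x0) (nat_lit 0x26cec9f0ef95623)
  (PL.C (nat_lit 0x533f37e) (nat_lit 0x7d685c80ca024) (nat_lit 0x0)
  (PL.C (nat_lit 0x53bbd02) (nat_lit 0xa447b900668eb4) (nat_lit 0x0)
  (PL.C (nat_lit 0x53c9b6e) (nat_lit 0x0) (nat_lit 0x9e67fe287cdc)
  (PL.C (nat_lit 0x53e6fa2) (nat_lit 0x0) (nat_lit 0x869438995f46e8)
  (PL.C (nat_lit 0x540319a) (nat_lit 0x280a82f003a1795) (nat_lit 0x0)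
  (PL.C (nat_lit 0x545bc4e) (nat_lit 0xaee9e42552bba7) (nat_lit 0x0)
  (PL.C (nat_lit 0x5464113) (nat_lit 0x5f0f827483ad3) (nat_lit 0x0)
  (PL.C (nat_lit 0x547456e) (nat_lit 0x0) (nat_lit 0x1115c87f5ddc39a)
  (PL.C (nat_lit 0x5498383) (nat_lit 0x0) (nat_lit 0x2274d79fc536206)
  (PL.C (nat_lit 0x54b7ffc) (nat_lit 0x0) (nat_lit 0x153fb999cd97cc)
  (PL.C (nat_lit 0x54bd25a) (nat_lit 0x0) (nat_lit 0x112da21ab692f6a)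
  (PL.C (nat_lit 0x54e3abc) (nat_lit 0x29975016123ffd) (nat_lit 0x0)
  (PL.C (nat_lit 0x54f67d1) (nat_lit 0x0) (nat_lit 0x925c7a0479995b)
  (PL.C (nat_lit 0x5515ac2) (nat_lit 0x0) (nat_lit 0x1f3c302ded25ce)
  (PL.C (nat_lit 0x552102f) (nat_lit 0x0) (nat_lit 0x1c026e13111af9)
  (PL.C (nat_lit 0x55453ca) (nat_lit 0x0) (nat_lit 0xebcb0706e96c9d) gp2_1_57))))))))))))))))))))

noncomputable def gp2_1_55 : PL :=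
  (PL.C (nat_lit 0x4f698f3) (nat_lit 0x0) (nat_lit 0xb2c1e00332e82)
  (PL.C (nat_lit 0x4f8b5a2) (nat_lit 0x638d05b2e687bf) (nat_lit 0x0)
  (PL.C (nat_lit 0x4f9e05d) (nat_lit 0x30a1ae0bcbeb4f) (nat_lit 0x0)
  (PL.C (nat_lit 0x4fbb7ba) (nat_lit 0x0) (nat_lit 0x55bdde3a3ce304)
  (PL.C (nat_lit 0x502b303) (nat_lit 0x85b2b7ca213158) (nat_lit 0x0)
  (PL.C (nat_lit 0x5030ca5) (nat_lit 0x4287897e396d5e7) (nat_lit 0x0)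
  (PL.C (nat_lit 0x507a5e7) (nat_lit 0x0) (nat_lit 0x82061f3efc4fc3)
  (PL.C (nat_lit 0x507aebc) (nat_lit 0x0) (nat_lit 0xcda1f7bae547f)
  (PL.C (nat_lit 0x50812ad) (nat_lit 0xd149e192db872) (nat_lit 0x0)
  (PL.C (nat_lit 0x50af0d2) (nat_lit 0x0) (nat_lit 0xfa4bed068bd54)
  (PL.C (nat_lit 0x5114fea) (nat_lit 0xc14a26838178f7) (nat_lit 0x0)
  (PL.C (nat_lit 0x511a9d9) (nat_lit 0x0) (nat_lit 0xa2522e9742a0f)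
  (PL.C (nat_lit 0x511ec11) (nat_lit 0x0) (nat_lit 0x17d7dc68e20b0e1)
  (PL.C (nat_lit 0x51302c2) (nat_lit 0x17bafc06880a008) (nat_lit 0x0)
  (PL.C (nat_lit 0x516b474) (nat_lit 0x0) (nat_lit 0x6d4aa2422ed48a)
  (PL.C (nat_lit 0x518e596) (nat_lit 0x0) (nat_lit 0x688efd5dbc08fc)
  (PL.C (nat_lit 0x524213a) (nat_lit 0x0) (nat_lit 0xd1b7d4acb7bbec)
  (PL.C (nat_lit 0x5265061) (nat_lit 0x0) (nat_lit 0x1c31324206cb334)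
  (PL.C (nat_lit 0x52677b2) (nat_lit 0x0) (nat_lit 0xd361aa11bad35b)
  (PL.C (nat_lit 0x52ad2ca) (nat_lit 0x0) (nat_lit 0x366c23103de8d5) gp2_1_56))))))))))))))))))))

noncomputable def gp2_1_54 : PL :=
  (PL.C (nat_lit 0x4cc5232) (nat_lit 0x8da5618d056442) (nat_lit 0x0)
  (PL.C (nat_lit 0x4cc7f8b) (nat_lit 0x2fb5e5fca969ad) (nat_lit 0x0)
  (PL.C (nat_lit 0x4cdedea) (nat_lit 0x6f77feb54fb57c) (nat_lit 0x0)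
  (PL.C (nat_lit 0x4cf7dae) (nat_lit 0x0) (nat_lit 0xa45a2cf39feb7)
  (PL.C (nat_lit 0x4d11a76) (nat_lit 0x0) (nat_lit 0x134a224195172a)
  (PL.C (nat_lit 0x4d1455c) (nat_lit 0x1eb201591b0238) (nat_lit 0x0)
  (PL.C (nat_lit 0x4d2eff4) (nat_lit 0x0) (nat_lit 0xfae2de7adf609d)
  (PL.C (nat_lit 0x4d4d176) (nat_lit 0x0) (nat_lit 0x29eea6d6b1cf20)
  (PL.C (nat_lit 0x4d79c76) (nat_lit 0x0) (nat_lit 0x267d40f3e51b34b)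
  (PL.C (nat_lit 0x4d8817c) (nat_lit 0x0) (nat_lit 0x5d2be3978fcc4b)
  (PL.C (nat_lit 0x4dc5da3) (nat_lit 0x1684e5eaf77b8c) (nat_lit 0x0)
  (PL.C (nat_lit 0x4dccdea) (nat_lit 0x2868a730b013ae) (nat_lit 0x0)
  (PL.C (nat_lit 0x4dd916c) (nat_lit 0x0) (nat_lit 0x34bdb9cb928333)
  (PL.C (nat_lit 0x4e1333c) (nat_lit 0x0) (nat_lit 0xc5d52f19ef66)
  (PL.C (nat_lit 0x4e34d52) (nat_lit 0x42e3fb9efa6af6) (nat_lit 0x0)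
  (PL.C (nat_lit 0x4e809af) (nat_lit 0x0) (nat_lit 0x283e189c68e7c5f)
  (PL.C (nat_lit 0x4ea7e51) (nat_lit 0x0) (nat_lit 0x2f97ee47fa5c537)
  (PL.C (nat_lit 0x4ed4cc1) (nat_lit 0x0) (nat_lit 0x3776bfc9eea46)
  (PL.C (nat_lit 0x4ef010b) (nat_lit 0x0) (nat_lit 0x5132195a861764)
  (PL.C (nat_lit 0x4f4b2f9) (nat_lit 0xab123ee978818a) (nat_lit 0x0) gp2_1_55))))))))))))))))))))

noncomputable def gp2_1_53 : PL :=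
  (PL.C (nat_lit 0x4962699) (nat_lit 0x0) (nat_lit 0x54df8ceb7dec0e)
  (PL.C (nat_lit 0x4962d5a) (nat_lit 0x0) (nat_lit 0x6caeea50b0eac9)
  (PL.C (nat_lit 0x4974904) (nat_lit 0x3883823b3226e7) (nat_lit 0x0)
  (PL.C (nat_lit 0x4990323) (nat_lit 0x0) (nat_lit 0x1df016bafe030a4)
  (PL.C (nat_lit 0x49cb216) (nat_lit 0x2174c15955d152) (nat_lit 0x0)
  (PL.C (nat_lit 0x49edef1) (nat_lit 0x0) (nat_lit 0x4996a4469661a3)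
  (PL.C (nat_lit 0x4a06b6d) (nat_lit 0xb334643ca10982) (nat_lit 0x0)
  (PL.C (nat_lit 0x4a5bc99) (nat_lit 0x7fb5183b434b56f) (nat_lit 0x0)
  (PL.C (nat_lit 0x4ad0dda) (nat_lit 0x3381db5e527e60) (nat_lit 0x0)
  (PL.C (nat_lit 0x4adf18e) (nat_lit 0x342f86ec3ff7064) (nat_lit 0x0)
  (PL.C (nat_lit 0x4b2f652) (nat_lit 0x2f5aaa02da7255) (nat_lit 0x0)
  (PL.C (nat_lit 0x4b3bbce) (nat_lit 0x0) (nat_lit 0x428416bd71ecbd)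
  (PL.C (nat_lit 0x4b4898a) (nat_lit 0x567753d2991d16) (nat_lit 0x0)
  (PL.C (nat_lit 0x4b75bd6) (nat_lit 0x0) (nat_lit 0x11b5fe41ef0bfc)
  (PL.C (nat_lit 0x4befda5) (nat_lit 0x14e268e9c00d8a) (nat_lit 0x0)
  (PL.C (nat_lit 0x4c0b694) (nat_lit 0x0) (nat_lit 0xab1d0665b4c06)
  (PL.C (nat_lit 0x4c66fc5) (nat_lit 0x5f4c054f7946853) (nat_lit 0x0)
  (PL.C (nat_lit 0x4c6943a) (nat_lit 0x3c8dfe57f4a41c) (nat_lit 0x0)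
  (PL.C (nat_lit 0x4ca5a72) (nat_lit 0x0) (nat_lit 0xf8fccfb77b54d5)
  (PL.C (nat_lit 0x4cc177e) (nat_lit 0x0) (nat_lit 0x5eb3f357664c98) gp2_1_54))))))))))))))))))))

noncomputable def gp2_1_52 : PL :=
  (PL.C (nat_lit 0x47fb472) (nat_lit 0x3428623edc6949d) (nat_lit 0x0)
  (PL.C (nat_lit 0x4800224) (nat_lit 0x1b9576317d08f5) (nat_lit 0x0)
  (PL.C (nat_lit 0x4803ba9) (nat_lit 0x60ca671f61653b) (nat_lit 0x0)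
  (PL.C (nat_lit 0x481ddcf) (nat_lit 0x4f31816fe6db33) (nat_lit 0x0)
  (PL.C (nat_lit 0x4827c57) (nat_lit 0x3e069bdfdcba87) (nat_lit 0x0)
  (PL.C (nat_lit 0x484e5e6) (nat_lit 0x1f2aa9b1a2d46fd) (nat_lit 0x0)
  (PL.C (nat_lit 0x4850f67) (nat_lit 0x56f3ea89a07e6) (nat_lit 0x0)
  (PL.C (nat_lit 0x4884c5a) (nat_lit 0x0) (nat_lit 0x6334bbe64930ef)
  (PL.C (nat_lit 0x4899e7e) (nat_lit 0x2672a3775295694) (nat_lit 0x0)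
  (PL.C (nat_lit 0x48aa27a) (nat_lit 0x0) (nat_lit 0x1136ae471c9bda)
  (PL.C (nat_lit 0x48cb08b) (nat_lit 0xd738840e2b91b) (nat_lit 0x0)
  (PL.C (nat_lit 0x48d411c) (nat_lit 0x3c4ce6d5656332) (nat_lit 0x0)
  (PL.C (nat_lit 0x48ef775) (nat_lit 0x7aa35d18b1f8cc) (nat_lit 0x0)
  (PL.C (nat_lit 0x4915105) (nat_lit 0x40a75cbd850374c) (nat_lit 0x0)
  (PL.C (nat_lit 0x49191a5) (nat_lit 0x0) (nat_lit 0x255e05b3a13b8)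
  (PL.C (nat_lit 0x4924956) (nat_lit 0x0) (nat_lit 0x2080b1e7a31db3)
  (PL.C (nat_lit 0x4928234) (nat_lit 0xb473bd748da042) (nat_lit 0x0)
  (PL.C (nat_lit 0x4943a87) (nat_lit 0x0) (nat_lit 0xd7b2c4270430aa)
  (PL.C (nat_lit 0x4949d8d) (nat_lit 0x0) (nat_lit 0xb0cfa7d1611ab)
  (PL.C (nat_lit 0x495fb8d) (nat_lit 0x0) (nat_lit 0x172daab4d06a1b3) gp2_1_53))))))))))))))))))))

noncomputable def gp2_1_51 : PL :=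
  (PL.C (nat_lit 0x45b795a) (nat_lit 0x2283d13b879c24) (nat_lit 0x0)
  (PL.C (nat_lit 0x45e02be) (nat_lit 0x9975b82c569710) (nat_lit 0x0)
  (PL.C (nat_lit 0x4611aee) (nat_lit 0x98cf9c6235463) (nat_lit 0x0)
  (PL.C (nat_lit 0x4620c8c) (nat_lit 0x70460e402d556c) (nat_lit 0x0)
  (PL.C (nat_lit 0x46292b6) (nat_lit 0x0) (nat_lit 0x32e48fa2c148e4)
  (PL.C (nat_lit 0x465186a) (nat_lit 0x0) (nat_lit 0xe8d2d765faa515)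
  (PL.C (nat_lit 0x4658a57) (nat_lit 0x0) (nat_lit 0xe8f12c730dc3e9)
  (PL.C (nat_lit 0x466a0bc) (nat_lit 0x0) (nat_lit 0x10a2a2298bb25d7)
  (PL.C (nat_lit 0x466f82d) (nat_lit 0x185c332629e5a0) (nat_lit 0x0)
  (PL.C (nat_lit 0x467bda9) (nat_lit 0x0) (nat_lit 0x19b9d0188a4be4)
  (PL.C (nat_lit 0x46b5904) (nat_lit 0x9c6740ae66e70) (nat_lit 0x0)
  (PL.C (nat_lit 0x46d39aa) (nat_lit 0x0) (nat_lit 0x153c10ed387c0db)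
  (PL.C (nat_lit 0x46eb582) (nat_lit 0x778cafb7d424b86) (nat_lit 0x0)
  (PL.C (nat_lit 0x4709e47) (nat_lit 0x1f03a20d301ffce) (nat_lit 0x0)
  (PL.C (nat_lit 0x47a8eac) (nat_lit 0x0) (nat_lit 0xfc9aa4f22b87c)
  (PL.C (nat_lit 0x47b8cd5) (nat_lit 0x0) (nat_lit 0xfc6ff7080d3d2d)
  (PL.C (nat_lit 0x47c0efc) (nat_lit 0x0) (nat_lit 0x99e8db2d360e4)
  (PL.C (nat_lit 0x47d4467) (nat_lit 0x59b0f8cc8701f) (nat_lit 0x0)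
  (PL.C (nat_lit 0x47dbedd) (nat_lit 0x0) (nat_lit 0x25e9cbfbafa98a8)
  (PL.C (nat_lit 0x47f8399) (nat_lit 0x3ff88c0d6cea74) (nat_lit 0x0) gp2_1_52))))))))))))))))))))

noncomputable def gp2_1_50 : PL :=
  (PL.C (nat_lit 0x42c6f2d) (nat_lit 0x0) (nat_lit 0x7d3f4ea1247e9)
  (PL.C (nat_lit 0x42deaed) (nat_lit 0x0) (nat_lit 0x3f3cf60f5c1d8d)
  (PL.C (nat_lit 0x430adc3) (nat_lit 0x59358078fb8b42) (nat_lit 0x0)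
  (PL.C (nat_lit 0x43a18a9) (nat_lit 0x0) (nat_lit 0x4b74246b5fd51c)
  (PL.C (nat_lit 0x43acc4f) (nat_lit 0x84c4594829d27a) (nat_lit 0x0)
  (PL.C (nat_lit 0x43b17f9) (nat_lit 0x5dab56fd0e36784) (nat_lit 0x0)
  (PL.C (nat_lit 0x43c4679) (nat_lit 0x0) (nat_lit 0x1c8d5c149e5f946)
  (PL.C (nat_lit 0x43ef9c3) (nat_lit 0x205f539d21b910d) (nat_lit 0x0)
  (PL.C (nat_lit 0x4409a21) (nat_lit 0xa3374a88d4f59e) (nat_lit 0x0)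
  (PL.C (nat_lit 0x443694f) (nat_lit 0x0) (nat_lit 0xb4a6048e60fd53)
  (PL.C (nat_lit 0x446d3ae) (nat_lit 0x0) (nat_lit 0x1b43ce1c8ac4cd)
  (PL.C (nat_lit 0x448914a) (nat_lit 0x891e3d35314edf) (nat_lit 0x0)
  (PL.C (nat_lit 0x449080e) (nat_lit 0x24f917b3d76ac9) (nat_lit 0x0)
  (PL.C (nat_lit 0x44bc37a) (nat_lit 0x0) (nat_lit 0x7b673b6beabf8)
  (PL.C (nat_lit 0x44c8744) (nat_lit 0x482bef42271c7b) (nat_lit 0x0)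
  (PL.C (nat_lit 0x44f35dd) (nat_lit 0x0) (nat_lit 0x1e726d80c9bb87)
  (PL.C (nat_lit 0x4504062) (nat_lit 0x0) (nat_lit 0x6d8da4a414c0)
  (PL.C (nat_lit 0x456d206) (nat_lit 0x0) (nat_lit 0x16f6827b7f68962)
  (PL.C (nat_lit 0x458034b) (nat_lit 0x0) (nat_lit 0x4897a224c87c7)
  (PL.C (nat_lit 0x458fdfa) (nat_lit 0x675a57f3ed1c1b) (nat_lit 0x0) gp2_1_51))))))))))))))))))))

noncomputable def gp2_1_49 : PL :=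
  (PL.C (nat_lit 0x415b92d) (nat_lit 0x0) (nat_lit 0xa812b9068d75c)
  (PL.C (nat_lit 0x4166cce) (nat_lit 0x0) (nat_lit 0x1e8f9f8808d30a1)
  (PL.C (nat_lit 0x416bbd4) (nat_lit 0x0) (nat_lit 0x2d96087103f789)
  (PL.C (nat_lit 0x417d43d) (nat_lit 0x0) (nat_lit 0x48c0b6594d2f1)
  (PL.C (nat_lit 0x41acf12) (nat_lit 0x0) (nat_lit 0x925d71dac2f453)
  (PL.C (nat_lit 0x41b741c) (nat_lit 0x1b9ea751d610a6) (nat_lit 0x0)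
  (PL.C (nat_lit 0x41c2f4a) (nat_lit 0xaad3d1c5dba28b) (nat_lit 0x0)
  (PL.C (nat_lit 0x41df483) (nat_lit 0x0) (nat_lit 0x143e353270670c7)
  (PL.C (nat_lit 0x41eb9ab) (nat_lit 0x0) (nat_lit 0x2ae39d4989185)
  (PL.C (nat_lit 0x41fbe8c) (nat_lit 0x52f9ad41d448d0) (nat_lit 0x0)
  (PL.C (nat_lit 0x4220cbc) (nat_lit 0x10253ecb205f564) (nat_lit 0x0)
  (PL.C (nat_lit 0x422b521) (nat_lit 0xe3fe78261b5a91) (nat_lit 0x0)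
  (PL.C (nat_lit 0x422bc64) (nat_lit 0x5ea2319a299778) (nat_lit 0x0)
  (PL.C (nat_lit 0x4244aab) (nat_lit 0x1ab903dab5d9a7c) (nat_lit 0x0)
  (PL.C (nat_lit 0x4265d55) (nat_lit 0x35ae20546bc2971) (nat_lit 0x0)
  (PL.C (nat_lit 0x426d214) (nat_lit 0x137056f47aa98dd) (nat_lit 0x0)
  (PL.C (nat_lit 0x4270725) (nat_lit 0x0) (nat_lit 0x5850b5917e5574)
  (PL.C (nat_lit 0x4272bdc) (nat_lit 0x49c338fc517f84) (nat_lit 0x0)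
  (PL.C (nat_lit 0x42a20b1) (nat_lit 0x47ece7d590fe1a8) (nat_lit 0x0)
  (PL.C (nat_lit 0x42b2864) (nat_lit 0x5e06f0dd1580d3) (nat_lit 0x0) gp2_1_50))))))))))))))))))))

noncomputable def gp2_1_48 : PL :=
  (PL.C (nat_lit 0x3efa666) (nat_lit 0x0) (nat_lit 0x382106c015d9d)
  (PL.C (nat_lit 0x3efb48f) (nat_lit 0x0) (nat_lit 0x34028e756a94991)
  (PL.C (nat_lit 0x3f34046) (nat_lit 0x0) (nat_lit 0x4c4833f2467148)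
  (PL.C (nat_lit 0x3f3d14b) (nat_lit 0x4a3328c7060b6) (nat_lit 0x0)
  (PL.C (nat_lit 0x3f82386) (nat_lit 0x0) (nat_lit 0x569ac95beafda3)
  (PL.C (nat_lit 0x3f8d132) (nat_lit 0x7188284e51f710) (nat_lit 0x0)
  (PL.C (nat_lit 0x3fa872f) (nat_lit 0xae11349d94b59e) (nat_lit 0x0)
  (PL.C (nat_lit 0x3fb2b1c) (nat_lit 0x3d8283de03eca5) (nat_lit 0x0)
  (PL.C (nat_lit 0x3fe7c2c) (nat_lit 0x2d88158ffe28e8) (nat_lit 0x0)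
  (PL.C (nat_lit 0x4074974) (nat_lit 0xc3968fdb469fa1) (nat_lit 0x0)
  (PL.C (nat_lit 0x40b3bba) (nat_lit 0x0) (nat_lit 0x8c2fed1ee6e4fc)
  (PL.C (nat_lit 0x40e66db) (nat_lit 0x0) (nat_lit 0xe2bf5c922fc7d7)
  (PL.C (nat_lit 0x40fffbf) (nat_lit 0x0) (nat_lit 0x6f1a2a04650360)
  (PL.C (nat_lit 0x4120094) (nat_lit 0x0) (nat_lit 0x205ad84eff04f3)
  (PL.C (nat_lit 0x41254d1) (nat_lit 0x556b26cf787cf4) (nat_lit 0x0)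
  (PL.C (nat_lit 0x4126f9c) (nat_lit 0x0) (nat_lit 0x7999b602a49acc)
  (PL.C (nat_lit 0x4127ac4) (nat_lit 0x0) (nat_lit 0x240fddd807328f)
  (PL.C (nat_lit 0x412aed1) (nat_lit 0x0) (nat_lit 0x28e39c488e4878)
  (PL.C (nat_lit 0x413aed3) (nat_lit 0x7f9b0295b03d6a) (nat_lit 0x0)
  (PL.C (nat_lit 0x41430a2) (nat_lit 0x0) (nat_lit 0x5d0cb8acfc0715) gp2_1_49))))))))))))))))))))

noncomputable def gp2_1_47 : PL :=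
  (PL.C (nat_lit 0x3cf2ca3) (nat_lit 0x0) (nat_lit 0x1a81a6328324)
  (PL.C (nat_lit 0x3d571e2) (nat_lit 0x0) (nat_lit 0x1203e1cde6a9f91)
  (PL.C (nat_lit 0x3d6bada) (nat_lit 0x0) (nat_lit 0x909d036886dac3)
  (PL.C (nat_lit 0x3d72df7) (nat_lit 0x0) (nat_lit 0x1e1ae5eb638b0c4)
  (PL.C (nat_lit 0x3d91a09) (nat_lit 0x9ff39f133eb76) (nat_lit 0x0)
  (PL.C (nat_lit 0x3db15d9) (nat_lit 0x1d6db43690f8aa5) (nat_lit 0x0)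
  (PL.C (nat_lit 0x3dc60b5) (nat_lit 0x0) (nat_lit 0x22412df6c4034e0)
  (PL.C (nat_lit 0x3dc9755) (nat_lit 0x0) (nat_lit 0x642f856da85626)
  (PL.C (nat_lit 0x3df3042) (nat_lit 0x0) (nat_lit 0x9343cc56f287734)
  (PL.C (nat_lit 0x3e194ef) (nat_lit 0x0) (nat_lit 0xfb6c1b7a3c59af)
  (PL.C (nat_lit 0x3e2bf12) (nat_lit 0x0) (nat_lit 0xd4549bb32a1ea2)
  (PL.C (nat_lit 0x3e4b0ee) (nat_lit 0x15dbdbb8a2d5b2) (nat_lit 0x0)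
  (PL.C (nat_lit 0x3e5730a) (nat_lit 0x0) (nat_lit 0x4447a6809d0b5b)
  (PL.C (nat_lit 0x3e6f7f3) (nat_lit 0x0) (nat_lit 0xebabe7681f987e)
  (PL.C (nat_lit 0x3e9f26e) (nat_lit 0x227ce04913b0181) (nat_lit 0x0)
  (PL.C (nat_lit 0x3ead97c) (nat_lit 0x0) (nat_lit 0x337123911b005e)
  (PL.C (nat_lit 0x3eb2e8d) (nat_lit 0x32201f6769665b3) (nat_lit 0x0)
  (PL.C (nat_lit 0x3eb723a) (nat_lit 0x109e935725107dd) (nat_lit 0x0)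
  (PL.C (nat_lit 0x3ec52bd) (nat_lit 0x0) (nat_lit 0x1037c9a09a36b1)
  (PL.C (nat_lit 0x3ee0926) (nat_lit 0x9caf0f4bc5bae2) (nat_lit 0x0) gp2_1_48))))))))))))))))))))

noncomputable def gp2_1_46 : PL :=
  (PL.C (nat_lit 0x3b1692a) (nat_lit 0x5fec2f18b282ea) (nat_lit 0x0)
  (PL.C (nat_lit 0x3b41f5c) (nat_lit 0xb91e2cad703e) (nat_lit 0x0)
  (PL.C (nat_lit 0x3b544d2) (nat_lit 0x51a4923d12b9e3) (nat_lit 0x0)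
  (PL.C (nat_lit 0x3b6081c) (nat_lit 0x0) (nat_lit 0x44d6b8688900b2)
  (PL.C (nat_lit 0x3b67a76) (nat_lit 0x0) (nat_lit 0x8a9a23e36dc472)
  (PL.C (nat_lit 0x3b70cac) (nat_lit 0x0) (nat_lit 0x97bb1bb4a2d062)
  (PL.C (nat_lit 0x3b8955d) (nat_lit 0x16c0eb984365b8) (nat_lit 0x0)
  (PL.C (nat_lit 0x3bb1612) (nat_lit 0x1909c28db5a68c6) (nat_lit 0x0)
  (PL.C (nat_lit 0x3bc48c4) (nat_lit 0x6258bd50f27ede) (nat_lit 0x0)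
  (PL.C (nat_lit 0x3bd9c5d) (nat_lit 0x0) (nat_lit 0x20a2d7b906b5bf)
  (PL.C (nat_lit 0x3bddf0a) (nat_lit 0xf719c2758f0add) (nat_lit 0x0)
  (PL.C (nat_lit 0x3bde4ae) (nat_lit 0x178c9e91973ff8) (nat_lit 0x0)
  (PL.C (nat_lit 0x3bf7ba3) (nat_lit 0x0) (nat_lit 0x132618e4654bbbb)
  (PL.C (nat_lit 0x3c154c4) (nat_lit 0x6b3ad20d3ef9586) (nat_lit 0x0)
  (PL.C (nat_lit 0x3c1a914) (nat_lit 0x0) (nat_lit 0x70509d41cbe5e)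
  (PL.C (nat_lit 0x3c56956) (nat_lit 0x6dcfc468d987bb4) (nat_lit 0x0)
  (PL.C (nat_lit 0x3c6d9f5) (nat_lit 0x3d92d614de1eab) (nat_lit 0x0)
  (PL.C (nat_lit 0x3c923ec) (nat_lit 0x1fab27909b4367) (nat_lit 0x0)
  (PL.C (nat_lit 0x3cb3607) (nat_lit 0x4afe5eda4db5fb) (nat_lit 0x0)
  (PL.C (nat_lit 0x3cb9f91) (nat_lit 0x0) (nat_lit 0x57247fbd2692b0) gp2_1_47))))))))))))))))))))

noncomputable def gp2_1_45 : PL :=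
  (PL.C (nat_lit 0x38e112a) (nat_lit 0x4cb74c7993c049) (nat_lit 0x0)
  (PL.C (nat_lit 0x38f7218) (nat_lit 0x0) (nat_lit 0x27203e18b3ad32)
  (PL.C (nat_lit 0x38f7a93) (nat_lit 0x0) (nat_lit 0x86bd7a3d38298cb)
  (PL.C (nat_lit 0x38facf3) (nat_lit 0x5f2a3683722e31) (nat_lit 0x0)
  (PL.C (nat_lit 0x3934c1d) (nat_lit 0x12daee38a2be338) (nat_lit 0x0)
  (PL.C (nat_lit 0x3947ee9) (nat_lit 0x0) (nat_lit 0x22000ff49ff9754)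
  (PL.C (nat_lit 0x396878e) (nat_lit 0x3d1a61997c708d) (nat_lit 0x0)
  (PL.C (nat_lit 0x39e10c6) (nat_lit 0x5dc3d929451dfa) (nat_lit 0x0)
  (PL.C (nat_lit 0x39f472e) (nat_lit 0x0) (nat_lit 0x7f3292ce9a5404)
  (PL.C (nat_lit 0x3a23921) (nat_lit 0x0) (nat_lit 0xd9bc2b0bcc30b3)
  (PL.C (nat_lit 0x3a277e2) (nat_lit 0x0) (nat_lit 0x42e5b8cf412b77)
  (PL.C (nat_lit 0x3a34811) (nat_lit 0x0) (nat_lit 0x326cff5b7a0016a)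
  (PL.C (nat_lit 0x3a4f5ee) (nat_lit 0x0) (nat_lit 0x1ee8bcd6178c7ce)
  (PL.C (nat_lit 0x3a66aeb) (nat_lit 0x0) (nat_lit 0x423b320ee8dc222)
  (PL.C (nat_lit 0x3a9b49e) (nat_lit 0x0) (nat_lit 0xf638561135a716)
  (PL.C (nat_lit 0x3aa3b17) (nat_lit 0x70d2703bbb4f69) (nat_lit 0x0)
  (PL.C (nat_lit 0x3ad2abe) (nat_lit 0x57ec975fea7d87) (nat_lit 0x0)
  (PL.C (nat_lit 0x3ad63c7) (nat_lit 0x7fec77259a8c4c) (nat_lit 0x0)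
  (PL.C (nat_lit 0x3ae3cde) (nat_lit 0x86ccb166fd308e) (nat_lit 0x0)
  (PL.C (nat_lit 0x3b0740b) (nat_lit 0x0) (nat_lit 0xb78d9501691889) gp2_1_46))))))))))))))))))))

noncomputable def gp2_1_44 : PL :=
  (PL.C (nat_lit 0x371e1dc) (nat_lit 0x0) (nat_lit 0x2ad2ee6f733909)
  (PL.C (nat_lit 0x3735886) (nat_lit 0x0) (nat_lit 0x103cb56b6c9b22e)
  (PL.C (nat_lit 0x37487f1) (nat_lit 0x0) (nat_lit 0x337e1495801641)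
  (PL.C (nat_lit 0x375b06d) (nat_lit 0x0) (nat_lit 0x1f3535058503dcd)
  (PL.C (nat_lit 0x3784545) (nat_lit 0x2d871d6a6581ee) (nat_lit 0x0)
  (PL.C (nat_lit 0x379b3cf) (nat_lit 0x0) (nat_lit 0xefef04a5fab45f)
  (PL.C (nat_lit 0x37d28ac) (nat_lit 0x744dce98fb739d) (nat_lit 0x0)
  (PL.C (nat_lit 0x37dbcf4) (nat_lit 0x0) (nat_lit 0x45928fb74724fc)
  (PL.C (nat_lit 0x3815c79) (nat_lit 0xfd9e8dd20cb02f) (nat_lit 0x0)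
  (PL.C (nat_lit 0x382f485) (nat_lit 0x28525a11301c65) (nat_lit 0x0)
  (PL.C (nat_lit 0x3842b62) (nat_lit 0x712b2cbdc0c7e8) (nat_lit 0x0)
  (PL.C (nat_lit 0x384d8f4) (nat_lit 0x0) (nat_lit 0x100c41965165238)
  (PL.C (nat_lit 0x3870237) (nat_lit 0x737941b5d0cad8) (nat_lit 0x0)
  (PL.C (nat_lit 0x3872d61) (nat_lit 0x0) (nat_lit 0x58ad9183c97ae1)
  (PL.C (nat_lit 0x387aaa8) (nat_lit 0x0) (nat_lit 0x18886058af539)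
  (PL.C (nat_lit 0x3885c1d) (nat_lit 0x0) (nat_lit 0xd939ef4ed042f5)
  (PL.C (nat_lit 0x389820f) (nat_lit 0x0) (nat_lit 0x4d435923eb7329)
  (PL.C (nat_lit 0x38a4536) (nat_lit 0x1c1004f594a4269) (nat_lit 0x0)
  (PL.C (nat_lit 0x38ab193) (nat_lit 0x94abf8384b5457) (nat_lit 0x0)
  (PL.C (nat_lit 0x38b0ffb) (nat_lit 0x1218baf5bac1260) (nat_lit 0x0) gp2_1_45))))))))))))))))))))

noncomputable def gp2_1_43 : PL :=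
  (PL.C (nat_lit 0x34a00b2) (nat_lit 0x0) (nat_lit 0x32a1b431b27324)
  (PL.C (nat_lit 0x34d307f) (nat_lit 0x0) (nat_lit 0x243bb2c1b760125)
  (PL.C (nat_lit 0x34dcca6) (nat_lit 0x97ec2e5ec2723e) (nat_lit 0x0)
  (PL.C (nat_lit 0x34ed781) (nat_lit 0x0) (nat_lit 0x2e71856901d4ed9)
  (PL.C (nat_lit 0x350baf1) (nat_lit 0x62a70b834956db) (nat_lit 0x0)
  (PL.C (nat_lit 0x351403e) (nat_lit 0x8476d1bc9b3c3a) (nat_lit 0x0)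
  (PL.C (nat_lit 0x3527a7c) (nat_lit 0x10e44e895666c41) (nat_lit 0x0)
  (PL.C (nat_lit 0x352a90b) (nat_lit 0x3823668e4d29834) (nat_lit 0x0)
  (PL.C (nat_lit 0x3537eeb) (nat_lit 0x84ad14f618d67f) (nat_lit 0x0)
  (PL.C (nat_lit 0x3552915) (nat_lit 0x461eaddb6a29f7) (nat_lit 0x0)
  (PL.C (nat_lit 0x35621b7) (nat_lit 0x319209b4a32898) (nat_lit 0x0)
  (PL.C (nat_lit 0x3572202) (nat_lit 0x7c032baa6298a2) (nat_lit 0x0)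
  (PL.C (nat_lit 0x35a6e9a) (nat_lit 0x0) (nat_lit 0x1202501ee41f83)
  (PL.C (nat_lit 0x35ab71e) (nat_lit 0x2d49db145fa633) (nat_lit 0x0)
  (PL.C (nat_lit 0x35f5d95) (nat_lit 0x0) (nat_lit 0x5e95d3c1ac690f2)
  (PL.C (nat_lit 0x3611be6) (nat_lit 0x17559064e9621db) (nat_lit 0x0)
  (PL.C (nat_lit 0x365ceb9) (nat_lit 0x0) (nat_lit 0x89fdc9c8bedb7b)
  (PL.C (nat_lit 0x365ee64) (nat_lit 0x318e3cb3bd78ce) (nat_lit 0x0)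
  (PL.C (nat_lit 0x36d6b7c) (nat_lit 0x0) (nat_lit 0x74f149b166d481)
  (PL.C (nat_lit 0x36e782b) (nat_lit 0x0) (nat_lit 0x4cc0c46d5254da) gp2_1_44))))))))))))))))))))

noncomputable def gp2_1_42 : PL :=
  (PL.C (nat_lit 0x32ef52e) (nat_lit 0x0) (nat_lit 0x34edcbeb18b9df)
  (PL.C (nat_lit 0x32f0d7c) (nat_lit 0x6c4107dcb6e5fa) (nat_lit 0x0)
  (PL.C (nat_lit 0x330c79b) (nat_lit 0x68f62d1cb4de5a) (nat_lit 0x0)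
  (PL.C (nat_lit 0x332ba54) (nat_lit 0x9ae95165c7bf36) (nat_lit 0x0)
  (PL.C (nat_lit 0x332ffb2) (nat_lit 0x61f98f3e2836f1) (nat_lit 0x0)
  (PL.C (nat_lit 0x3343395) (nat_lit 0x0) (nat_lit 0x401052022b9756)
  (PL.C (nat_lit 0x334ba3b) (nat_lit 0x0) (nat_lit 0x22cec0cf28e73f)
  (PL.C (nat_lit 0x334fe74) (nat_lit 0x2cb4f05da16b7c) (nat_lit 0x0)
  (PL.C (nat_lit 0x3354681) (nat_lit 0x0) (nat_lit 0x4b68d875303626)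
  (PL.C (nat_lit 0x33611a4) (nat_lit 0x0) (nat_lit 0x12d92085f02fa8)
  (PL.C (nat_lit 0x3388ba4) (nat_lit 0x0) (nat_lit 0x7ffddb1b4d4c7d)
  (PL.C (nat_lit 0x338ff2b) (nat_lit 0x0) (nat_lit 0x4b1e37aba9df04)
  (PL.C (nat_lit 0x33d93c2) (nat_lit 0x0) (nat_lit 0x6ba819fdf3c9a5)
  (PL.C (nat_lit 0x33dde9c) (nat_lit 0x0) (nat_lit 0x14f23cd20ea036c)
  (PL.C (nat_lit 0x340193d) (nat_lit 0x0) (nat_lit 0x866eecc453e094)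
  (PL.C (nat_lit 0x34140fd) (nat_lit 0x0) (nat_lit 0x27663671c758e56)
  (PL.C (nat_lit 0x342338c) (nat_lit 0x0) (nat_lit 0x16245192564c8f)
  (PL.C (nat_lit 0x3425849) (nat_lit 0x3104e92900a9b72) (nat_lit 0x0)
  (PL.C (nat_lit 0x3455bca) (nat_lit 0x0) (nat_lit 0x5f5ec4c72666e61)
  (PL.C (nat_lit 0x348ddd6) (nat_lit 0x27234ac7cdf94b) (nat_lit 0x0) gp2_1_43))))))))))))))))))))

noncomputable def gp2_1_41 : PL :=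
  (PL.C (nat_lit 0x30bb66e) (nat_lit 0x0) (nat_lit 0x2ca4e464b0804)
  (PL.C (nat_lit 0x30c30e4) (nat_lit 0x0) (nat_lit 0xcdc189d5a74b35)
  (PL.C (nat_lit 0x30dbe5e) (nat_lit 0x187560917f94e4) (nat_lit 0x0)
  (PL.C (nat_lit 0x30ec466) (nat_lit 0x0) (nat_lit 0x43869a83f56de1)
  (PL.C (nat_lit 0x310acc2) (nat_lit 0x0) (nat_lit 0x4c78df47efa85)
  (PL.C (nat_lit 0x3132164) (nat_lit 0xa8213871a2dfa) (nat_lit 0x0)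
  (PL.C (nat_lit 0x3171cc9) (nat_lit 0x365600149f81c) (nat_lit 0x0)
  (PL.C (nat_lit 0x318b499) (nat_lit 0x0) (nat_lit 0x8535f7885f6200)
  (PL.C (nat_lit 0x3192866) (nat_lit 0x0) (nat_lit 0x23b68bce843943d)
  (PL.C (nat_lit 0x31dec2f) (nat_lit 0x0) (nat_lit 0x1a689de2e17d8c)
  (PL.C (nat_lit 0x31e093c) (nat_lit 0x2adacc6a9ed528) (nat_lit 0x0)
  (PL.C (nat_lit 0x3209349) (nat_lit 0x6ba6364c6d1b9eb) (nat_lit 0x0)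
  (PL.C (nat_lit 0x321f98c) (nat_lit 0x0) (nat_lit 0x633173dadd0942)
  (PL.C (nat_lit 0x3227d34) (nat_lit 0x0) (nat_lit 0x3c1b86a5cd4574)
  (PL.C (nat_lit 0x323065c) (nat_lit 0x6622d1275282ef) (nat_lit 0x0)
  (PL.C (nat_lit 0x32372f1) (nat_lit 0x159116838bc1d) (nat_lit 0x0)
  (PL.C (nat_lit 0x324e7e4) (nat_lit 0x0) (nat_lit 0xb2814404c17ab)
  (PL.C (nat_lit 0x325050f) (nat_lit 0x0) (nat_lit 0x182c1e4e4146cf)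
  (PL.C (nat_lit 0x3268c7d) (nat_lit 0x0) (nat_lit 0x66aede44a5341a)
  (PL.C (nat_lit 0x329fe6e) (nat_lit 0x0) (nat_lit 0xe8547fe4de9bf2) gp2_1_42))))))))))))))))))))

noncomputable def gp2_1_40 : PL :=
  (PL.C (nat_lit 0x2ee5c3a) (nat_lit 0x0) (nat_lit 0x2580254498de92f)
  (PL.C (nat_lit 0x2ef501e) (nat_lit 0x33df3ee781580b) (nat_lit 0x0)
  (PL.C (nat_lit 0x2efd3c6) (nat_lit 0x1df228e6070183) (nat_lit 0x0)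
  (PL.C (nat_lit 0x2f23b58) (nat_lit 0x0) (nat_lit 0x5a2de30e44580)
  (PL.C (nat_lit 0x2f909c7) (nat_lit 0x37147a7350672b) (nat_lit 0x0)
  (PL.C (nat_lit 0x2fd088e) (nat_lit 0x7eead5f8da88c2) (nat_lit 0x0)
  (PL.C (nat_lit 0x2fe2d9a) (nat_lit 0xd20621dad5ca4) (nat_lit 0x0)
  (PL.C (nat_lit 0x2fe7f3e) (nat_lit 0x0) (nat_lit 0xa725a3b536a1de)
  (PL.C (nat_lit 0x30027c6) (nat_lit 0xebf230d2315dd5) (nat_lit 0x0)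
  (PL.C (nat_lit 0x3013e8a) (nat_lit 0x24efafec940a38) (nat_lit 0x0)
  (PL.C (nat_lit 0x3016e1f) (nat_lit 0x27deaebc1387ae4) (nat_lit 0x0)
  (PL.C (nat_lit 0x301a83a) (nat_lit 0x71cca4da00f607) (nat_lit 0x0)
  (PL.C (nat_lit 0x30289e3) (nat_lit 0x0) (nat_lit 0xfe1cebd1a6ad13)
  (PL.C (nat_lit 0x3035f9a) (nat_lit 0xdaa7599c8721f) (nat_lit 0x0)
  (PL.C (nat_lit 0x304a751) (nat_lit 0x0) (nat_lit 0x30d3ff70d3ee74)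
  (PL.C (nat_lit 0x305883c) (nat_lit 0x0) (nat_lit 0xa1651a20581952)
  (PL.C (nat_lit 0x305aa4d) (nat_lit 0x0) (nat_lit 0x81b609041c89c4)
  (PL.C (nat_lit 0x30716fc) (nat_lit 0x1ed036fa78fd6f) (nat_lit 0x0)
  (PL.C (nat_lit 0x30875b2) (nat_lit 0x0) (nat_lit 0x1109fefc88ae9f3)
  (PL.C (nat_lit 0x309fa4e) (nat_lit 0x12d70b87825a1a8) (nat_lit 0x0) gp2_1_41))))))))))))))))))))

noncomputable def gp2_1_39 : PL :=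
  (PL.C (nat_lit 0x2c978bb) (nat_lit 0x27ab22b86892101) (nat_lit 0x0)
  (PL.C (nat_lit 0x2cb1e82) (nat_lit 0x92c5f6d44aadd) (nat_lit 0x0)
  (PL.C (nat_lit 0x2d165c6) (nat_lit 0x0) (nat_lit 0x9ec11439a3dec4)
  (PL.C (nat_lit 0x2d1dd8a) (nat_lit 0x825bfe324c8e88) (nat_lit 0x0)
  (PL.C (nat_lit 0x2d2d9a6) (nat_lit 0x1da72446c05f35a) (nat_lit 0x0)
  (PL.C (nat_lit 0x2d4a682) (nat_lit 0x0) (nat_lit 0x56089b6f9e7dd6)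
  (PL.C (nat_lit 0x2d5bc16) (nat_lit 0x17129a5db46bd59) (nat_lit 0x0)
  (PL.C (nat_lit 0x2d5d6e1) (nat_lit 0xb50327039afecd) (nat_lit 0x0)
  (PL.C (nat_lit 0x2d70f59) (nat_lit 0x0) (nat_lit 0x2586d25aa463da)
  (PL.C (nat_lit 0x2d79b8a) (nat_lit 0x14aa7e5c99c0e7) (nat_lit 0x0)
  (PL.C (nat_lit 0x2d8d0a9) (nat_lit 0x416b3a23807d063) (nat_lit 0x0)
  (PL.C (nat_lit 0x2d9e274) (nat_lit 0x1b5b360a8f32e8) (nat_lit 0x0)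
  (PL.C (nat_lit 0x2db5ab4) (nat_lit 0x0) (nat_lit 0xcfc506b04f12c)
  (PL.C (nat_lit 0x2dd2cfc) (nat_lit 0x0) (nat_lit 0x7ce0001c84ec)
  (PL.C (nat_lit 0x2df793e) (nat_lit 0xd30348d58547a6) (nat_lit 0x0)
  (PL.C (nat_lit 0x2e02aec) (nat_lit 0x0) (nat_lit 0x4638287d18bbcb)
  (PL.C (nat_lit 0x2e48c04) (nat_lit 0x0) (nat_lit 0x8e00dba96c9bb1)
  (PL.C (nat_lit 0x2e7a63c) (nat_lit 0x662209a42d9c3) (nat_lit 0x0)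
  (PL.C (nat_lit 0x2eba8e1) (nat_lit 0x8e32f4d43ff5ca) (nat_lit 0x0)
  (PL.C (nat_lit 0x2ebf9db) (nat_lit 0x629f4a73fcda4) (nat_lit 0x0) gp2_1_40))))))))))))))))))))

noncomputable def gp2_1_38 : PL :=
  (PL.C (nat_lit 0x2b6e336) (nat_lit 0x12faa18e923d4a) (nat_lit 0x0)
  (PL.C (nat_lit 0x2b71f36) (nat_lit 0x0) (nat_lit 0x7c87cee2ad7efa)
  (PL.C (nat_lit 0x2b7c9e2) (nat_lit 0x12bf5261bdb2381) (nat_lit 0x0)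
  (PL.C (nat_lit 0x2b8206c) (nat_lit 0x0) (nat_lit 0x6ee935c16ee280)
  (PL.C (nat_lit 0x2b9261e) (nat_lit 0x0) (nat_lit 0x5c4967c3a08ad0)
  (PL.C (nat_lit 0x2ba8d7e) (nat_lit 0x0) (nat_lit 0x3df604b1a9f482)
  (PL.C (nat_lit 0x2bae193) (nat_lit 0x0) (nat_lit 0x21fb242001b074a)
  (PL.C (nat_lit 0x2bc8a0c) (nat_lit 0x0) (nat_lit 0x458984e176dcc9)
  (PL.C (nat_lit 0x2bd74dc) (nat_lit 0x0) (nat_lit 0xbddc426d95b3c8)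
  (PL.C (nat_lit 0x2bea302) (nat_lit 0x0) (nat_lit 0xbb4db4736ed099)
  (PL.C (nat_lit 0x2bf2672) (nat_lit 0xb1093f7628364) (nat_lit 0x0)
  (PL.C (nat_lit 0x2c0512d) (nat_lit 0x0) (nat_lit 0x3b8f9309de436df)
  (PL.C (nat_lit 0x2c1ce16) (nat_lit 0x0) (nat_lit 0x77ab52bc92b1435)
  (PL.C (nat_lit 0x2c2dc72) (nat_lit 0xf17f9333f4a2c9) (nat_lit 0x0)
  (PL.C (nat_lit 0x2c4af6e) (nat_lit 0x0) (nat_lit 0x18e9020ad1cfcd5)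
  (PL.C (nat_lit 0x2c4c7e8) (nat_lit 0x338a015002df5a) (nat_lit 0x0)
  (PL.C (nat_lit 0x2c5dc83) (nat_lit 0xbb4c6bc901f6c66) (nat_lit 0x0)
  (PL.C (nat_lit 0x2c6c076) (nat_lit 0x2ef973b6a4efc91) (nat_lit 0x0)
  (PL.C (nat_lit 0x2c7f29d) (nat_lit 0x114cdac7355a904) (nat_lit 0x0)
  (PL.C (nat_lit 0x2c84a1e) (nat_lit 0x0) (nat_lit 0x2d32e344e2bf07) gp2_1_39))))))))))))))))))))

noncomputable def gp2_1_37 : PL :=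
  (PL.C (nat_lit 0x2972a0c) (nat_lit 0x0) (nat_lit 0xbb126b250eab39)
  (PL.C (nat_lit 0x29875f4) (nat_lit 0x0) (nat_lit 0x13a38f7bb332d7)
  (PL.C (nat_lit 0x298f75c) (nat_lit 0x0) (nat_lit 0x28a9efdbc5de7c)
  (PL.C (nat_lit 0x299da47) (nat_lit 0x0) (nat_lit 0x57081259e7ddbb)
  (PL.C (nat_lit 0x299faa2) (nat_lit 0x0) (nat_lit 0xc8e09fd869e488)
  (PL.C (nat_lit 0x29bf6f4) (nat_lit 0x0) (nat_lit 0x10749bc70514701)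
  (PL.C (nat_lit 0x29d2abd) (nat_lit 0x0) (nat_lit 0x6a19842ec96600)
  (PL.C (nat_lit 0x29d8c7e) (nat_lit 0x3b8316ab997f961) (nat_lit 0x0)
  (PL.C (nat_lit 0x29e0b09) (nat_lit 0x0) (nat_lit 0x1a53d5623588f)
  (PL.C (nat_lit 0x29eb0c4) (nat_lit 0x4334be9fb7848c) (nat_lit 0x0)
  (PL.C (nat_lit 0x29fc444) (nat_lit 0x0) (nat_lit 0x186e702f655b7)
  (PL.C (nat_lit 0x2a56d04) (nat_lit 0x0) (nat_lit 0x2adfdd42c3949a)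
  (PL.C (nat_lit 0x2a5e0cc) (nat_lit 0x6bf11a24e883b3) (nat_lit 0x0)
  (PL.C (nat_lit 0x2a704ca) (nat_lit 0x1750693d21ab5b6) (nat_lit 0x0)
  (PL.C (nat_lit 0x2a81441) (nat_lit 0x4181464284a579) (nat_lit 0x0)
  (PL.C (nat_lit 0x2ab254b) (nat_lit 0x0) (nat_lit 0x9857f0ee433b5b)
  (PL.C (nat_lit 0x2adeef7) (nat_lit 0x6e26481343e6be) (nat_lit 0x0)
  (PL.C (nat_lit 0x2b17d47) (nat_lit 0x0) (nat_lit 0xb86120a716b923)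
  (PL.C (nat_lit 0x2b44492) (nat_lit 0x0) (nat_lit 0x1c2d9f837f82add)
  (PL.C (nat_lit 0x2b4d267) (nat_lit 0x0) (nat_lit 0x327eb7618da758) gp2_1_38))))))))))))))))))))

noncomputable def gp2_1_36 : PL :=
  (PL.C (nat_lit 0x27b0e3e) (nat_lit 0xb34bdf2ea706d8) (nat_lit 0x0)
  (PL.C (nat_lit 0x27c1c0b) (nat_lit 0x0) (nat_lit 0x5667b02e1a1622)
  (PL.C (nat_lit 0x27d85d8) (nat_lit 0x18094fdf661109) (nat_lit 0x0)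
  (PL.C (nat_lit 0x27e683e) (nat_lit 0xa7bc5fd8927a2f) (nat_lit 0x0)
  (PL.C (nat_lit 0x27e9874) (nat_lit 0x1100ca22840d8f) (nat_lit 0x0)
  (PL.C (nat_lit 0x284914e) (nat_lit 0x9579aa54a51d18) (nat_lit 0x0)
  (PL.C (nat_lit 0x287795a) (nat_lit 0xc75ca17733161a) (nat_lit 0x0)
  (PL.C (nat_lit 0x287bfb6) (nat_lit 0x0) (nat_lit 0xa3e6cadf2ed603)
  (PL.C (nat_lit 0x28984db) (nat_lit 0x332f371c1aa23af) (nat_lit 0x0)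
  (PL.C (nat_lit 0x28a1dc2) (nat_lit 0x328b9efd4ee040) (nat_lit 0x0)
  (PL.C (nat_lit 0x28d1beb) (nat_lit 0x0) (nat_lit 0xae397f60a3098)
  (PL.C (nat_lit 0x28e4bec) (nat_lit 0x0) (nat_lit 0x2d2ded6ff67377)
  (PL.C (nat_lit 0x28f273c) (nat_lit 0x0) (nat_lit 0x988975e58ef84b)
  (PL.C (nat_lit 0x28f73fa) (nat_lit 0x0) (nat_lit 0x180af3a3b555b21)
  (PL.C (nat_lit 0x290bc06) (nat_lit 0x0) (nat_lit 0x218e540c8251a4c)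
  (PL.C (nat_lit 0x2923c2f) (nat_lit 0x102378ea64e3b27) (nat_lit 0x0)
  (PL.C (nat_lit 0x2930f8e) (nat_lit 0x0) (nat_lit 0x1d292871c7104d7)
  (PL.C (nat_lit 0x2942b71) (nat_lit 0x5b23924b9bad4a) (nat_lit 0x0)
  (PL.C (nat_lit 0x2957fc1) (nat_lit 0x0) (nat_lit 0x2c6a42f1d71bde)
  (PL.C (nat_lit 0x296634a) (nat_lit 0x0) (nat_lit 0x2f547e1e0d45433) gp2_1_37))))))))))))))))))))

noncomputable def gp2_1_35 : PL :=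
  (PL.C (nat_lit 0x2696084) (nat_lit 0x226f6e56a91743) (nat_lit 0x0)
  (PL.C (nat_lit 0x269e95f) (nat_lit 0x0) (nat_lit 0x713513e5f3a51e)
  (PL.C (nat_lit 0x26a2f74) (nat_lit 0x0) (nat_lit 0x3e56afcea1b1cc)
  (PL.C (nat_lit 0x26c2616) (nat_lit 0x0) (nat_lit 0xc4eeef95295612)
  (PL.C (nat_lit 0x26c4fec) (nat_lit 0x2dd69aa2a22b80) (nat_lit 0x0)
  (PL.C (nat_lit 0x26c8011) (nat_lit 0x0) (nat_lit 0x35aebea679d7a)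
  (PL.C (nat_lit 0x26cdab6) (nat_lit 0x3259ee84fd19cd) (nat_lit 0x0)
  (PL.C (nat_lit 0x26ef1f2) (nat_lit 0x1bcbce95e300252) (nat_lit 0x0)
  (PL.C (nat_lit 0x2712314) (nat_lit 0x0) (nat_lit 0x8920213638273e)
  (PL.C (nat_lit 0x2717cba) (nat_lit 0xd18022760a6701) (nat_lit 0x0)
  (PL.C (nat_lit 0x27371d4) (nat_lit 0x8dfcb65b7712b) (nat_lit 0x0)
  (PL.C (nat_lit 0x27397da) (nat_lit 0x690b305e7afec2) (nat_lit 0x0)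
  (PL.C (nat_lit 0x2742894) (nat_lit 0x2c17bce68b79fd) (nat_lit 0x0)
  (PL.C (nat_lit 0x275a2b2) (nat_lit 0x0) (nat_lit 0xb041d221bc77d0)
  (PL.C (nat_lit 0x276461c) (nat_lit 0xe7b6318cc099) (nat_lit 0x0)
  (PL.C (nat_lit 0x2773335) (nat_lit 0x0) (nat_lit 0xa3b33c0b247110)
  (PL.C (nat_lit 0x2776887) (nat_lit 0x19e70f5568abcb) (nat_lit 0x0)
  (PL.C (nat_lit 0x27814e8) (nat_lit 0x3d3c6ff17cbd79) (nat_lit 0x0)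
  (PL.C (nat_lit 0x2783c2b) (nat_lit 0x0) (nat_lit 0x6ee520b26c8b31)
  (PL.C (nat_lit 0x278d88c) (nat_lit 0x3d0a5c5871bf87) (nat_lit 0x0) gp2_1_36))))))))))))))))))))

noncomputable def gp2_1_34 : PL :=
  (PL.C (nat_lit 0x24daff6) (nat_lit 0x8787ef099d7279) (nat_lit 0x0)
  (PL.C (nat_lit 0x24e759e) (nat_lit 0x66e5da3c741d25) (nat_lit 0x0)
  (PL.C (nat_lit 0x2502e2e) (nat_lit 0x0) (nat_lit 0xf34c15189ba9c)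
  (PL.C (nat_lit 0x251228a) (nat_lit 0x1ee2f0056c0f957) (nat_lit 0x0)
  (PL.C (nat_lit 0x2563da6) (nat_lit 0x0) (nat_lit 0xef30d0cd9c1297)
  (PL.C (nat_lit 0x2573bcf) (nat_lit 0x0) (nat_lit 0x9ef88c4637f7c15)
  (PL.C (nat_lit 0x2574dae) (nat_lit 0x2c1a45e9a6aa79) (nat_lit 0x0)
  (PL.C (nat_lit 0x2581cec) (nat_lit 0xae53b7480ae0c) (nat_lit 0x0)
  (PL.C (nat_lit 0x25a017a) (nat_lit 0xcf6802ac74f2a6) (nat_lit 0x0)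
  (PL.C (nat_lit 0x25bac0a) (nat_lit 0x0) (nat_lit 0x60e583442710b1)
  (PL.C (nat_lit 0x25c2e24) (nat_lit 0x0) (nat_lit 0x163dc6b56ac2000)
  (PL.C (nat_lit 0x25c7662) (nat_lit 0x63d03105f99f27) (nat_lit 0x0)
  (PL.C (nat_lit 0x25cb552) (nat_lit 0x11aa63a75cca098) (nat_lit 0x0)
  (PL.C (nat_lit 0x25d9c37) (nat_lit 0x0) (nat_lit 0x8b7d26148429c)
  (PL.C (nat_lit 0x25eb61c) (nat_lit 0xe9ed0c57953f16) (nat_lit 0x0)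
  (PL.C (nat_lit 0x25ed467) (nat_lit 0x2cf7d8f3367125) (nat_lit 0x0)
  (PL.C (nat_lit 0x25fc8a2) (nat_lit 0x35e23ce007a19f) (nat_lit 0x0)
  (PL.C (nat_lit 0x26232be) (nat_lit 0xbc6a23775c7118) (nat_lit 0x0)
  (PL.C (nat_lit 0x262d2d1) (nat_lit 0x8eda26715930e) (nat_lit 0x0)
  (PL.C (nat_lit 0x262ff46) (nat_lit 0x0) (nat_lit 0x2934b851e2df047) gp2_1_35))))))))))))))))))))

noncomputable def gp2_1_33 : PL :=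
  (PL.C (nat_lit 0x2359eed) (nat_lit 0xe751fa2066ead3) (nat_lit 0x0)
  (PL.C (nat_lit 0x235d1f6) (nat_lit 0x0) (nat_lit 0x4afe7396bd637a)
  (PL.C (nat_lit 0x2362ad4) (nat_lit 0x0) (nat_lit 0x158ed89ecc54c1)
  (PL.C (nat_lit 0x23783a9) (nat_lit 0x1223f82b35f8a34) (nat_lit 0x0)
  (PL.C (nat_lit 0x237a9f2) (nat_lit 0x146e32ae1c2581b) (nat_lit 0x0)
  (PL.C (nat_lit 0x238c60e) (nat_lit 0x0) (nat_lit 0x52d5f95d8e68a)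
  (PL.C (nat_lit 0x23a12c3) (nat_lit 0x0) (nat_lit 0x38d707900384c93)
  (PL.C (nat_lit 0x23a16ac) (nat_lit 0x73238419f9c027) (nat_lit 0x0)
  (PL.C (nat_lit 0x23aed21) (nat_lit 0x0) (nat_lit 0x94f955a23248b3)
  (PL.C (nat_lit 0x23c0adf) (nat_lit 0x0) (nat_lit 0xac211c9dbc0555)
  (PL.C (nat_lit 0x23c49bc) (nat_lit 0x13142435f574899) (nat_lit 0x0)
  (PL.C (nat_lit 0x23c664f) (nat_lit 0x0) (nat_lit 0x8efb83e0fdaba2)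
  (PL.C (nat_lit 0x23c7a14) (nat_lit 0x789488f9c443a) (nat_lit 0x0)
  (PL.C (nat_lit 0x23d516f) (nat_lit 0xf93cbcd10eacb) (nat_lit 0x0)
  (PL.C (nat_lit 0x240bd44) (nat_lit 0x0) (nat_lit 0x262bd5d6cdc999)
  (PL.C (nat_lit 0x243df26) (nat_lit 0x5239a318dbb3a0) (nat_lit 0x0)
  (PL.C (nat_lit 0x247344b) (nat_lit 0x59b78e2fe3fdbe6) (nat_lit 0x0)
  (PL.C (nat_lit 0x2494b69) (nat_lit 0x19a79508b00ca11) (nat_lit 0x0)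
  (PL.C (nat_lit 0x249a572) (nat_lit 0x0) (nat_lit 0xb3ee4ff2e86f7d)
  (PL.C (nat_lit 0x24bebe8) (nat_lit 0x0) (nat_lit 0x78a44957f1f7) gp2_1_34))))))))))))))))))))

noncomputable def gp2_1_32 : PL :=
  (PL.C (nat_lit 0x217a1f6) (nat_lit 0x0) (nat_lit 0xb0580f3691601a)
  (PL.C (nat_lit 0x2189a98) (nat_lit 0x173f000f52a3fd) (nat_lit 0x0)
  (PL.C (nat_lit 0x218ae0a) (nat_lit 0x0) (nat_lit 0x75ed916df7fab)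
  (PL.C (nat_lit 0x219b2fe) (nat_lit 0xf831c2ca4a77f6) (nat_lit 0x0)
  (PL.C (nat_lit 0x21bfef4) (nat_lit 0x0) (nat_lit 0x39345d4f4ad921)
  (PL.C (nat_lit 0x21cca17) (nat_lit 0x0) (nat_lit 0x9923a5a69354c0)
  (PL.C (nat_lit 0x2208512) (nat_lit 0xac05713c2800ce) (nat_lit 0x0)
  (PL.C (nat_lit 0x221ffcc) (nat_lit 0x61c2b1f9cf15e7) (nat_lit 0x0)
  (PL.C (nat_lit 0x222cd0e) (nat_lit 0x0) (nat_lit 0x337ad165e11ac)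
  (PL.C (nat_lit 0x22326d2) (nat_lit 0x0) (nat_lit 0x31093ed794669c)
  (PL.C (nat_lit 0x2238456) (nat_lit 0xe5461ef4b46b29) (nat_lit 0x0)
  (PL.C (nat_lit 0x225ff72) (nat_lit 0x0) (nat_lit 0x3a356f9e90b117)
  (PL.C (nat_lit 0x2290d2c) (nat_lit 0x0) (nat_lit 0x589886cc76c776)
  (PL.C (nat_lit 0x22abb7e) (nat_lit 0x0) (nat_lit 0x10f9c90df804f95)
  (PL.C (nat_lit 0x22e6885) (nat_lit 0x22f1b939cf10d8) (nat_lit 0x0)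
  (PL.C (nat_lit 0x22f23b1) (nat_lit 0xf58f2037ef3629) (nat_lit 0x0)
  (PL.C (nat_lit 0x23093e4) (nat_lit 0x524c18acf104d) (nat_lit 0x0)
  (PL.C (nat_lit 0x23155cc) (nat_lit 0x0) (nat_lit 0x497ebd955fa270)
  (PL.C (nat_lit 0x23375aa) (nat_lit 0x6315443477a68eb) (nat_lit 0x0)
  (PL.C (nat_lit 0x233ddc4) (nat_lit 0x0) (nat_lit 0x1d09658bde73b5) gp2_1_33))))))))))))))))))))

noncomputable def gp2_1_31 : PL :=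
  (PL.C (nat_lit 0x2082098) (nat_lit 0x0) (nat_lit 0x7081199ffab707)
  (PL.C (nat_lit 0x2089cbf) (nat_lit 0x0) (nat_lit 0xc744cc21c545b)
  (PL.C (nat_lit 0x2092994) (nat_lit 0xee3c8da537c52) (nat_lit 0x0)
  (PL.C (nat_lit 0x2099d1b) (nat_lit 0x2f41aae487dfe) (nat_lit 0x0)
  (PL.C (nat_lit 0x209d844) (nat_lit 0x0) (nat_lit 0x45f3e39780724b)
  (PL.C (nat_lit 0x20a9c93) (nat_lit 0x0) (nat_lit 0x2d05f9d9ac5fda)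
  (PL.C (nat_lit 0x20af5b5) (nat_lit 0x816e1e032dd645) (nat_lit 0x0)
  (PL.C (nat_lit 0x20d1809) (nat_lit 0x0) (nat_lit 0x1482f4c0406eb6)
  (PL.C (nat_lit 0x20f6886) (nat_lit 0x46ff158336d078) (nat_lit 0x0)
  (PL.C (nat_lit 0x2107866) (nat_lit 0x0) (nat_lit 0x58b35aa96102f1)
  (PL.C (nat_lit 0x2116785) (nat_lit 0x9fc7df7a1eb47c) (nat_lit 0x0)
  (PL.C (nat_lit 0x212707b) (nat_lit 0xf551fea42dac3c) (nat_lit 0x0)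
  (PL.C (nat_lit 0x21381eb) (nat_lit 0x20c5f2e8cc72c35) (nat_lit 0x0)
  (PL.C (nat_lit 0x2139f4b) (nat_lit 0x0) (nat_lit 0x1262c19652c510)
  (PL.C (nat_lit 0x213f2ca) (nat_lit 0x169a0fc613812e) (nat_lit 0x0)
  (PL.C (nat_lit 0x2140628) (nat_lit 0x0) (nat_lit 0xb470a18adc728)
  (PL.C (nat_lit 0x214d4c9) (nat_lit 0x6bd3ca065fb2b1) (nat_lit 0x0)
  (PL.C (nat_lit 0x215a0e3) (nat_lit 0x0) (nat_lit 0xde6aa649665e69)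
  (PL.C (nat_lit 0x215b786) (nat_lit 0x0) (nat_lit 0x3c97f4048872b2)
  (PL.C (nat_lit 0x217016d) (nat_lit 0x12cd4d72375f2d) (nat_lit 0x0) gp2_1_32))))))))))))))))))))

noncomputable def gp2_1_30 : PL :=
  (PL.C (nat_lit 0x1f4e014) (nat_lit 0x1ee7387535a625) (nat_lit 0x0)
  (PL.C (nat_lit 0x1f57593) (nat_lit 0x0) (nat_lit 0x676f12174f348fd)
  (PL.C (nat_lit 0x1fb5bda) (nat_lit 0x14795e7d874955) (nat_lit 0x0)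
  (PL.C (nat_lit 0x1fe05b4) (nat_lit 0xa76c60d80bb2cf) (nat_lit 0x0)
  (PL.C (nat_lit 0x1ff9bf9) (nat_lit 0x0) (nat_lit 0x56d9fef2db0c02)
  (PL.C (nat_lit 0x2001a84) (nat_lit 0x21db47ed4d9141) (nat_lit 0x0)
  (PL.C (nat_lit 0x2004243) (nat_lit 0x38f509bb133fbd) (nat_lit 0x0)
  (PL.C (nat_lit 0x2009c07) (nat_lit 0x7cb069119890b2) (nat_lit 0x0)
  (PL.C (nat_lit 0x200d45c) (nat_lit 0x0) (nat_lit 0x162e376676b22a)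
  (PL.C (nat_lit 0x200edf7) (nat_lit 0x268a2561c5720c) (nat_lit 0x0)
  (PL.C (nat_lit 0x201b142) (nat_lit 0x0) (nat_lit 0x13d0937c9be6cf7)
  (PL.C (nat_lit 0x2023fbc) (nat_lit 0x97468242bdc6e) (nat_lit 0x0)
  (PL.C (nat_lit 0x2031a36) (nat_lit 0x351df7094d4d669) (nat_lit 0x0)
  (PL.C (nat_lit 0x203a2f7) (nat_lit 0x0) (nat_lit 0x57022fe28a3fe35)
  (PL.C (nat_lit 0x203b028) (nat_lit 0x0) (nat_lit 0x5d87bd62dacb3c)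
  (PL.C (nat_lit 0x203c6de) (nat_lit 0x0) (nat_lit 0x403c5805843fdd4)
  (PL.C (nat_lit 0x204a509) (nat_lit 0x8934999662223e) (nat_lit 0x0)
  (PL.C (nat_lit 0x205a3cc) (nat_lit 0x25132f110580e54) (nat_lit 0x0)
  (PL.C (nat_lit 0x205cbf9) (nat_lit 0x4e6fdf6d40862) (nat_lit 0x0)
  (PL.C (nat_lit 0x207cef4) (nat_lit 0xb6f601f33934f) (nat_lit 0x0) gp2_1_31))))))))))))))))))))

noncomputable def gp2_1_29 : PL :=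
  (PL.C (nat_lit 0x1e13b0f) (nat_lit 0x45286716bdb7136) (nat_lit 0x0)
  (PL.C (nat_lit 0x1e13e5c) (nat_lit 0x21dad79f83cb2f) (nat_lit 0x0)
  (PL.C (nat_lit 0x1e1f365) (nat_lit 0x95af77b057fb74) (nat_lit 0x0)
  (PL.C (nat_lit 0x1e2e49b) (nat_lit 0xb6da03475541f3) (nat_lit 0x0)
  (PL.C (nat_lit 0x1e319ac) (nat_lit 0x47e4507773bf1e) (nat_lit 0x0)
  (PL.C (nat_lit 0x1e331cb) (nat_lit 0x1a003f206eb26c8) (nat_lit 0x0)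
  (PL.C (nat_lit 0x1e3e496) (nat_lit 0x2696b990ae60148) (nat_lit 0x0)
  (PL.C (nat_lit 0x1e49a7f) (nat_lit 0x1467329da2dd17) (nat_lit 0x0)
  (PL.C (nat_lit 0x1e4b4e6) (nat_lit 0x53ce6a6fdb41db) (nat_lit 0x0)
  (PL.C (nat_lit 0x1e5125c) (nat_lit 0x0) (nat_lit 0x1bb54e40b403935)
  (PL.C (nat_lit 0x1e696f8) (nat_lit 0x147b3604ee42c9) (nat_lit 0x0)
  (PL.C (nat_lit 0x1e86b11) (nat_lit 0x0) (nat_lit 0x22f7b72bca319ce)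
  (PL.C (nat_lit 0x1eac748) (nat_lit 0x0) (nat_lit 0x248c8e39f06dca)
  (PL.C (nat_lit 0x1eae6f9) (nat_lit 0x3bbf711f0bf5a3) (nat_lit 0x0)
  (PL.C (nat_lit 0x1ec50b7) (nat_lit 0x0) (nat_lit 0x5578e1c98328d57)
  (PL.C (nat_lit 0x1ecda37) (nat_lit 0x577c7798d522a1) (nat_lit 0x0)
  (PL.C (nat_lit 0x1efc428) (nat_lit 0x2c248a672af82b) (nat_lit 0x0)
  (PL.C (nat_lit 0x1f27096) (nat_lit 0x37d241d9dcf66f) (nat_lit 0x0)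
  (PL.C (nat_lit 0x1f2a692) (nat_lit 0x5f8f1d8d8d4584) (nat_lit 0x0)
  (PL.C (nat_lit 0x1f43d7c) (nat_lit 0x0) (nat_lit 0x13f28c130d6586f) gp2_1_30))))))))))))))))))))

noncomputable def gp2_1_28 : PL :=
  (PL.C (nat_lit 0x1cd830c) (nat_lit 0x6125856e47a61a) (nat_lit 0x0)
  (PL.C (nat_lit 0x1cde19a) (nat_lit 0x0) (nat_lit 0x760272d8b711e5)
  (PL.C (nat_lit 0x1cef7a1) (nat_lit 0x0) (nat_lit 0x6b282af2138049)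
  (PL.C (nat_lit 0x1cf4224) (nat_lit 0xa4fdad297d47f) (nat_lit 0x0)
  (PL.C (nat_lit 0x1cfdbec) (nat_lit 0x1a7d7d37b7be27a) (nat_lit 0x0)
  (PL.C (nat_lit 0x1d0c414) (nat_lit 0x0) (nat_lit 0x85daee578e5842)
  (PL.C (nat_lit 0x1d46cac) (nat_lit 0x0) (nat_lit 0x18e6f70d1a33db0)
  (PL.C (nat_lit 0x1d4c44c) (nat_lit 0x0) (nat_lit 0x19196c32bbfbd6)
  (PL.C (nat_lit 0x1d68964) (nat_lit 0xb2d5785bc96645) (nat_lit 0x0)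
  (PL.C (nat_lit 0x1d80035) (nat_lit 0x29b1e8e199bc6a0) (nat_lit 0x0)
  (PL.C (nat_lit 0x1d874f4) (nat_lit 0x0) (nat_lit 0x33338bcc3957be)
  (PL.C (nat_lit 0x1d905a1) (nat_lit 0x98c6d46b48c21) (nat_lit 0x0)
  (PL.C (nat_lit 0x1d9d5a4) (nat_lit 0x0) (nat_lit 0x1cb752de20f28b)
  (PL.C (nat_lit 0x1daa1be) (nat_lit 0x0) (nat_lit 0x2357f45b083bebb)
  (PL.C (nat_lit 0x1dadc14) (nat_lit 0x0) (nat_lit 0x521fe03940b877)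
  (PL.C (nat_lit 0x1db00ef) (nat_lit 0x0) (nat_lit 0x1f9773f0c6078)
  (PL.C (nat_lit 0x1dba5d2) (nat_lit 0x4aa95133ab20bd2) (nat_lit 0x0)
  (PL.C (nat_lit 0x1dc4933) (nat_lit 0x0) (nat_lit 0x602998c3f0d887)
  (PL.C (nat_lit 0x1df120d) (nat_lit 0x1ca7e64cc2090a0) (nat_lit 0x0)
  (PL.C (nat_lit 0x1e0ee84) (nat_lit 0x0) (nat_lit 0x19e02cd4978865f) gp2_1_29))))))))))))))))))))

noncomputable def gp2_1_27 : PL :=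
  (PL.C (nat_lit 0x1b6d2ca) (nat_lit 0x0) (nat_lit 0xa3b5040d9cbfeeb)
  (PL.C (nat_lit 0x1b75fb4) (nat_lit 0x398b1bc2764d12) (nat_lit 0x0)
  (PL.C (nat_lit 0x1b81cf6) (nat_lit 0x1ac6c841b2d8eab) (nat_lit 0x0)
  (PL.C (nat_lit 0x1b8ffd6) (nat_lit 0x0) (nat_lit 0x1352b309a3bb3d4)
  (PL.C (nat_lit 0x1ba1c08) (nat_lit 0x0) (nat_lit 0x361801001e3b3d)
  (PL.C (nat_lit 0x1bbe6da) (nat_lit 0x0) (nat_lit 0x10134eec924d3f)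
  (PL.C (nat_lit 0x1bbfc6c) (nat_lit 0x1df2663d9f5598) (nat_lit 0x0)
  (PL.C (nat_lit 0x1bc3aa1) (nat_lit 0x0) (nat_lit 0x699f4cce8da506)
  (PL.C (nat_lit 0x1be1c7e) (nat_lit 0x0) (nat_lit 0x359cd2d6fb6196)
  (PL.C (nat_lit 0x1be3b6b) (nat_lit 0x0) (nat_lit 0x103b02c707c4dc5)
  (PL.C (nat_lit 0x1beb206) (nat_lit 0x0) (nat_lit 0x1d4b9a4dddf892e)
  (PL.C (nat_lit 0x1bee659) (nat_lit 0xb116891c3f793) (nat_lit 0x0)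
  (PL.C (nat_lit 0x1c00d97) (nat_lit 0x0) (nat_lit 0x9f042f887bf732)
  (PL.C (nat_lit 0x1c0acd7) (nat_lit 0x0) (nat_lit 0x1b57761d0df3dbb)
  (PL.C (nat_lit 0x1c1433b) (nat_lit 0x3fd782577774b79) (nat_lit 0x0)
  (PL.C (nat_lit 0x1c562d6) (nat_lit 0x416d189d39957d) (nat_lit 0x0)
  (PL.C (nat_lit 0x1c76e32) (nat_lit 0x31082e993ff8b6) (nat_lit 0x0)
  (PL.C (nat_lit 0x1c882b3) (nat_lit 0x95d1ff591e1537) (nat_lit 0x0)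
  (PL.C (nat_lit 0x1c949fa) (nat_lit 0xc6f5d12b1f8e91) (nat_lit 0x0)
  (PL.C (nat_lit 0x1cba8da) (nat_lit 0x6dc5210fe06e79) (nat_lit 0x0) gp2_1_28))))))))))))))))))))

noncomputable def gp2_1_26 : PL :=
  (PL.C (nat_lit 0x1a2653c) (nat_lit 0x6fc15c48370bf7) (nat_lit 0x0)
  (PL.C (nat_lit 0x1a2c5b8) (nat_lit 0x3e44ee10c7080) (nat_lit 0x0)
  (PL.C (nat_lit 0x1a3c1cc) (nat_lit 0x7c446be781435c) (nat_lit 0x0)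
  (PL.C (nat_lit 0x1a4f05a) (nat_lit 0x455301fe1c1219) (nat_lit 0x0)
  (PL.C (nat_lit 0x1a57d72) (nat_lit 0x0) (nat_lit 0x4aae2ef2d51b58)
  (PL.C (nat_lit 0x1a75ed4) (nat_lit 0x86a70ff80055be) (nat_lit 0x0)
  (PL.C (nat_lit 0x1a812b2) (nat_lit 0x0) (nat_lit 0x15f7a26dd1484d8)
  (PL.C (nat_lit 0x1a99ad4) (nat_lit 0x0) (nat_lit 0x346abbbd1b931)
  (PL.C (nat_lit 0x1a9baf8) (nat_lit 0x0) (nat_lit 0x3bd59fd46c21e)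
  (PL.C (nat_lit 0x1abe789) (nat_lit 0x0) (nat_lit 0xd1ffb966b1d65a)
  (PL.C (nat_lit 0x1adb634) (nat_lit 0xf8e8b3567de6dd) (nat_lit 0x0)
  (PL.C (nat_lit 0x1afa63c) (nat_lit 0x8adf2fe901322b) (nat_lit 0x0)
  (PL.C (nat_lit 0x1afd524) (nat_lit 0xe45d118e88f47) (nat_lit 0x0)
  (PL.C (nat_lit 0x1b0fe13) (nat_lit 0xfd8c6cdb06d) (nat_lit 0x0)
  (PL.C (nat_lit 0x1b1692c) (nat_lit 0x4dbce69da8ded5) (nat_lit 0x0)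
  (PL.C (nat_lit 0x1b34713) (nat_lit 0x0) (nat_lit 0x3ee375539c43f2e)
  (PL.C (nat_lit 0x1b367f2) (nat_lit 0x43ab3b99d0d68b) (nat_lit 0x0)
  (PL.C (nat_lit 0x1b420ed) (nat_lit 0x0) (nat_lit 0x11c46d2c3bc7e20)
  (PL.C (nat_lit 0x1b4f7fc) (nat_lit 0x0) (nat_lit 0x21b4f99997f27b6)
  (PL.C (nat_lit 0x1b5ac69) (nat_lit 0x0) (nat_lit 0x175026563e65fa) gp2_1_27))))))))))))))))))))

noncomputable def gp2_1_25 : PL :=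
  (PL.C (nat_lit 0x18b6c5c) (nat_lit 0x2d0c2ccf179caf) (nat_lit 0x0)
  (PL.C (nat_lit 0x18ed3c4) (nat_lit 0x0) (nat_lit 0x87417a4dc8a8aa)
  (PL.C (nat_lit 0x18f4de5) (nat_lit 0x2f151894d33a1c) (nat_lit 0x0)
  (PL.C (nat_lit 0x1919427) (nat_lit 0xa0367feab9c055e) (nat_lit 0x0)
  (PL.C (nat_lit 0x1920f3f) (nat_lit 0x0) (nat_lit 0x9931ccaed393b0)
  (PL.C (nat_lit 0x1929603) (nat_lit 0x3c84c429dd03ca) (nat_lit 0x0)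
  (PL.C (nat_lit 0x193238c) (nat_lit 0x18824dcaa53298f) (nat_lit 0x0)
  (PL.C (nat_lit 0x1939eff) (nat_lit 0xf506ef3c854b3b) (nat_lit 0x0)
  (PL.C (nat_lit 0x193bd7a) (nat_lit 0xe0c3d3d577fe) (nat_lit 0x0)
  (PL.C (nat_lit 0x1946901) (nat_lit 0x0) (nat_lit 0x52c9c7fdf992c5)
  (PL.C (nat_lit 0x1947968) (nat_lit 0x0) (nat_lit 0x141bcc498c058f)
  (PL.C (nat_lit 0x1948d9a) (nat_lit 0x7a3b9078944b70) (nat_lit 0x0)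
  (PL.C (nat_lit 0x195306c) (nat_lit 0x0) (nat_lit 0x40dbdc956257ae)
  (PL.C (nat_lit 0x1973736) (nat_lit 0x175e65b3ce9587) (nat_lit 0x0)
  (PL.C (nat_lit 0x197e437) (nat_lit 0xda37f57593c1f5) (nat_lit 0x0)
  (PL.C (nat_lit 0x19bf0ea) (nat_lit 0xa3f49b9dc26d6b) (nat_lit 0x0)
  (PL.C (nat_lit 0x19c4d15) (nat_lit 0x0) (nat_lit 0x3524e8ddaddaf29)
  (PL.C (nat_lit 0x19daab6) (nat_lit 0x0) (nat_lit 0xb957c44f757038)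
  (PL.C (nat_lit 0x1a00b53) (nat_lit 0x0) (nat_lit 0x29e260aec272e6)
  (PL.C (nat_lit 0x1a096c7) (nat_lit 0x9e8c2eec2d852b) (nat_lit 0x0) gp2_1_26))))))))))))))))))))

noncomputable def gp2_1_24 : PL :=
  (PL.C (nat_lit 0x179149e) (nat_lit 0x0) (nat_lit 0x57aeb7a2332a2c)
  (PL.C (nat_lit 0x17936a4) (nat_lit 0x1d2d33fd6ac552c) (nat_lit 0x0)
  (PL.C (nat_lit 0x17a57c6) (nat_lit 0x0) (nat_lit 0xcaabc6000783e2)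
  (PL.C (nat_lit 0x17a714c) (nat_lit 0x6fd1910c521bcc) (nat_lit 0x0)
  (PL.C (nat_lit 0x17ac073) (nat_lit 0x0) (nat_lit 0x131c3632145a673)
  (PL.C (nat_lit 0x17b2eb4) (nat_lit 0x470f83bdaa7594) (nat_lit 0x0)
  (PL.C (nat_lit 0x17b3f67) (nat_lit 0x0) (nat_lit 0x41dd6b97a152dbe)
  (PL.C (nat_lit 0x17c0c82) (nat_lit 0x0) (nat_lit 0x2b22c157bdb89b2)
  (PL.C (nat_lit 0x17c9e16) (nat_lit 0x284565c0bf27201) (nat_lit 0x0)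
  (PL.C (nat_lit 0x17d998a) (nat_lit 0x0) (nat_lit 0x2243f2760cddc03)
  (PL.C (nat_lit 0x17da6b8) (nat_lit 0x0) (nat_lit 0x40687bcebfe25a)
  (PL.C (nat_lit 0x17e364a) (nat_lit 0x0) (nat_lit 0x54a61e210e75d0)
  (PL.C (nat_lit 0x17e50c9) (nat_lit 0x0) (nat_lit 0x3227b8f0354429)
  (PL.C (nat_lit 0x18294c4) (nat_lit 0x126029e2559d163) (nat_lit 0x0)
  (PL.C (nat_lit 0x1830b25) (nat_lit 0x294a23fd122730) (nat_lit 0x0)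
  (PL.C (nat_lit 0x183ccdb) (nat_lit 0x4321dabdaefe09) (nat_lit 0x0)
  (PL.C (nat_lit 0x1863246) (nat_lit 0x171a5d04c4c6d49) (nat_lit 0x0)
  (PL.C (nat_lit 0x1866e4c) (nat_lit 0x0) (nat_lit 0x65a8d115f2e21b)
  (PL.C (nat_lit 0x18ac974) (nat_lit 0x0) (nat_lit 0x329b044ac6ecb2)
  (PL.C (nat_lit 0x18b5df7) (nat_lit 0xbd3314be13e0b7) (nat_lit 0x0) gp2_1_25))))))))))))))))))))

noncomputable def gp2_1_23 : PL :=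
  (PL.C (nat_lit 0x161a052) (nat_lit 0x0) (nat_lit 0x65cff16e43068f)
  (PL.C (nat_lit 0x1626a32) (nat_lit 0x0) (nat_lit 0x620a32dae07a2)
  (PL.C (nat_lit 0x162a1dc) (nat_lit 0x0) (nat_lit 0x585868a3823282)
  (PL.C (nat_lit 0x164ab9e) (nat_lit 0x0) (nat_lit 0xa38fa1a692256c)
  (PL.C (nat_lit 0x1651431) (nat_lit 0x0) (nat_lit 0x126fdc102ea66b)
  (PL.C (nat_lit 0x16516a4) (nat_lit 0x0) (nat_lit 0xb4d697d4753b88)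
  (PL.C (nat_lit 0x165c95c) (nat_lit 0x40dcb3e30a196) (nat_lit 0x0)
  (PL.C (nat_lit 0x1667754) (nat_lit 0x0) (nat_lit 0x179332b9a753cb5)
  (PL.C (nat_lit 0x1685217) (nat_lit 0x2ea869d8ca1be) (nat_lit 0x0)
  (PL.C (nat_lit 0x16886ba) (nat_lit 0x0) (nat_lit 0x31812b398aa930f)
  (PL.C (nat_lit 0x16c88b4) (nat_lit 0xe55353111e3a7) (nat_lit 0x0)
  (PL.C (nat_lit 0x16cc48c) (nat_lit 0x5a129a4575f0f4) (nat_lit 0x0)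
  (PL.C (nat_lit 0x16d02e4) (nat_lit 0xcc76f5cf4805b7) (nat_lit 0x0)
  (PL.C (nat_lit 0x16e9cf3) (nat_lit 0x0) (nat_lit 0x25451acabd486e0)
  (PL.C (nat_lit 0x16eaa4c) (nat_lit 0x411a843d6aba72) (nat_lit 0x0)
  (PL.C (nat_lit 0x17063f1) (nat_lit 0x0) (nat_lit 0x520887d5aaca65)
  (PL.C (nat_lit 0x171d254) (nat_lit 0x0) (nat_lit 0x16c1bb75d1a8d6a)
  (PL.C (nat_lit 0x17445ae) (nat_lit 0x0) (nat_lit 0x11d14772b195a2)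
  (PL.C (nat_lit 0x174c276) (nat_lit 0x2efcc5e75d38d40) (nat_lit 0x0)
  (PL.C (nat_lit 0x1750ed5) (nat_lit 0x8c4d573e22a0d3) (nat_lit 0x0) gp2_1_24))))))))))))))))))))

noncomputable def gp2_1_22 : PL :=
  (PL.C (nat_lit 0x14e4e62) (nat_lit 0x46cddeb91113704) (nat_lit 0x0)
  (PL.C (nat_lit 0x1523d3c) (nat_lit 0x0) (nat_lit 0x8753d0d0f4c9b8)
  (PL.C (nat_lit 0x15512a6) (nat_lit 0x0) (nat_lit 0x3fc443e4268833)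
  (PL.C (nat_lit 0x1558182) (nat_lit 0x53176f7e890ff9) (nat_lit 0x0)
  (PL.C (nat_lit 0x155bd5a) (nat_lit 0x51ee6d832299d8) (nat_lit 0x0)
  (PL.C (nat_lit 0x155f3fa) (nat_lit 0x0) (nat_lit 0xdf34f67d70b73)
  (PL.C (nat_lit 0x156762c) (nat_lit 0x0) (nat_lit 0xec1e1fd340d38f)
  (PL.C (nat_lit 0x156d528) (nat_lit 0x0) (nat_lit 0x1636cc17b6e4e)
  (PL.C (nat_lit 0x157c1fa) (nat_lit 0x0) (nat_lit 0x5d2e820518c6670)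
  (PL.C (nat_lit 0x15932a6) (nat_lit 0x0) (nat_lit 0x21dc4734269426f)
  (PL.C (nat_lit 0x15a89f8) (nat_lit 0x0) (nat_lit 0x8dcc8469d6459)
  (PL.C (nat_lit 0x15b132a) (nat_lit 0x0) (nat_lit 0x42c5d8b98fe68b)
  (PL.C (nat_lit 0x15bbe12) (nat_lit 0x4ee241beaaa86a) (nat_lit 0x0)
  (PL.C (nat_lit 0x15c6862) (nat_lit 0x282bbe18f59b6c1) (nat_lit 0x0)
  (PL.C (nat_lit 0x15ca3ce) (nat_lit 0x1269152d0f9b35e) (nat_lit 0x0)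
  (PL.C (nat_lit 0x15e1006) (nat_lit 0x0) (nat_lit 0x5e217ce4454e4)
  (PL.C (nat_lit 0x15e3ead) (nat_lit 0x8544073f2ea679) (nat_lit 0x0)
  (PL.C (nat_lit 0x15f9b04) (nat_lit 0x0) (nat_lit 0x3e10c2073b66bc)
  (PL.C (nat_lit 0x1605044) (nat_lit 0x57f58b92621b59) (nat_lit 0x0)
  (PL.C (nat_lit 0x160efae) (nat_lit 0x0) (nat_lit 0x49c61ac93b848b) gp2_1_23))))))))))))))))))))

noncomputable def gp2_1_21 : PL :=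
  (PL.C (nat_lit 0x13c6bd4) (nat_lit 0x0) (nat_lit 0x76026ed7f6ce04)
  (PL.C (nat_lit 0x13c92b8) (nat_lit 0x2a1cd7567d5bd) (nat_lit 0x0)
  (PL.C (nat_lit 0x13cab4a) (nat_lit 0x0) (nat_lit 0x2a7d6f93bcb1c6)
  (PL.C (nat_lit 0x13d8622) (nat_lit 0x40518d2bb1a2f7) (nat_lit 0x0)
  (PL.C (nat_lit 0x13f615e) (nat_lit 0x180f7ead2029c36) (nat_lit 0x0)
  (PL.C (nat_lit 0x140d20a) (nat_lit 0x0) (nat_lit 0x1c8812c4740a828)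
  (PL.C (nat_lit 0x1414cee) (nat_lit 0x0) (nat_lit 0x17d428b55c4d3af)
  (PL.C (nat_lit 0x1422132) (nat_lit 0x313737501309a1) (nat_lit 0x0)
  (PL.C (nat_lit 0x1429864) (nat_lit 0xcf09798556629a) (nat_lit 0x0)
  (PL.C (nat_lit 0x142fb2d) (nat_lit 0x0) (nat_lit 0xa93498153c7f52)
  (PL.C (nat_lit 0x14311aa) (nat_lit 0x0) (nat_lit 0x49e421f457bb8)
  (PL.C (nat_lit 0x1432344) (nat_lit 0x0) (nat_lit 0x382fcc6f2aa0d)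
  (PL.C (nat_lit 0x1439cd3) (nat_lit 0x19e606ee5fe67a6) (nat_lit 0x0)
  (PL.C (nat_lit 0x1459cb6) (nat_lit 0xa8fb6c20b40028) (nat_lit 0x0)
  (PL.C (nat_lit 0x14744a6) (nat_lit 0x960f451672b20e) (nat_lit 0x0)
  (PL.C (nat_lit 0x1479177) (nat_lit 0x0) (nat_lit 0x496a6c5f9c241d)
  (PL.C (nat_lit 0x148917a) (nat_lit 0x1083759097c03b1) (nat_lit 0x0)
  (PL.C (nat_lit 0x149ed4f) (nat_lit 0x0) (nat_lit 0x2f28448bb7d43f8)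
  (PL.C (nat_lit 0x14c6f0c) (nat_lit 0x1c40a1df8404a5) (nat_lit 0x0)
  (PL.C (nat_lit 0x14deab8) (nat_lit 0x0) (nat_lit 0x529d8e2ce8325) gp2_1_22))))))))))))))))))))

noncomputable def gp2_1_20 : PL :=
  (PL.C (nat_lit 0x1296854) (nat_lit 0x0) (nat_lit 0x7baf9d79b4b546)
  (PL.C (nat_lit 0x1297cf2) (nat_lit 0x0) (nat_lit 0xc01c35637112ed)
  (PL.C (nat_lit 0x129cc04) (nat_lit 0x0) (nat_lit 0xf0c23d46ccca5f)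
  (PL.C (nat_lit 0x129eee6) (nat_lit 0x0) (nat_lit 0x2df9843117b87a)
  (PL.C (nat_lit 0x12ab3ba) (nat_lit 0x0) (nat_lit 0x9f42d41e8ef150)
  (PL.C (nat_lit 0x12c13bf) (nat_lit 0x0) (nat_lit 0x1c9d98893706092)
  (PL.C (nat_lit 0x12cae6f) (nat_lit 0x6b01add3c9abe4) (nat_lit 0x0)
  (PL.C (nat_lit 0x12e41e4) (nat_lit 0x0) (nat_lit 0x36099336696f49)
  (PL.C (nat_lit 0x12ea909) (nat_lit 0x0) (nat_lit 0xbe899ce56f1c6b)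
  (PL.C (nat_lit 0x12f9ecc) (nat_lit 0xe65f6eee64ef3) (nat_lit 0x0)
  (PL.C (nat_lit 0x1302ab3) (nat_lit 0x5c66b565d6d498) (nat_lit 0x0)
  (PL.C (nat_lit 0x1305722) (nat_lit 0x0) (nat_lit 0x3343d1827ec122d)
  (PL.C (nat_lit 0x13090a7) (nat_lit 0x10e6b724685f9fe) (nat_lit 0x0)
  (PL.C (nat_lit 0x130dbfc) (nat_lit 0x1ea9f1ce0ee75c) (nat_lit 0x0)
  (PL.C (nat_lit 0x131eeab) (nat_lit 0x0) (nat_lit 0x12649bdc13c7604)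
  (PL.C (nat_lit 0x133ebbc) (nat_lit 0x0) (nat_lit 0x86a71215491540)
  (PL.C (nat_lit 0x134a516) (nat_lit 0xf6a0835d9d413b) (nat_lit 0x0)
  (PL.C (nat_lit 0x1353d48) (nat_lit 0xb5fb5236d46fbe) (nat_lit 0x0)
  (PL.C (nat_lit 0x13aaace) (nat_lit 0x0) (nat_lit 0x16e2826aebc47f8)
  (PL.C (nat_lit 0x13b5916) (nat_lit 0x17421b4b0661af5) (nat_lit 0x0) gp2_1_21))))))))))))))))))))

noncomputable def gp2_1_19 : PL :=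
  (PL.C (nat_lit 0x118a03c) (nat_lit 0x23a719980d6755) (nat_lit 0x0)
  (PL.C (nat_lit 0x118a60d) (nat_lit 0xb9b99ee492c924) (nat_lit 0x0)
  (PL.C (nat_lit 0x118fe4c) (nat_lit 0x0) (nat_lit 0x7b1ef4b23fe198)
  (PL.C (nat_lit 0x11a3f38) (nat_lit 0x0) (nat_lit 0x1437e4a2ad1084)
  (PL.C (nat_lit 0x11d4506) (nat_lit 0x0) (nat_lit 0x85cd0eed83d28e)
  (PL.C (nat_lit 0x11e7978) (nat_lit 0xeebff12b51933) (nat_lit 0x0)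
  (PL.C (nat_lit 0x11fc428) (nat_lit 0x0) (nat_lit 0xf89cb336951aa)
  (PL.C (nat_lit 0x120a962) (nat_lit 0x0) (nat_lit 0x438bd6035bd28b)
  (PL.C (nat_lit 0x120f0c8) (nat_lit 0xc889e5999fcaa) (nat_lit 0x0)
  (PL.C (nat_lit 0x1222f62) (nat_lit 0x0) (nat_lit 0x34d1817d9a81dc)
  (PL.C (nat_lit 0x122454c) (nat_lit 0x4abf979fc7dfc3) (nat_lit 0x0)
  (PL.C (nat_lit 0x123c846) (nat_lit 0x0) (nat_lit 0x7d0f7b9a2772b6)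
  (PL.C (nat_lit 0x12445f5) (nat_lit 0x1559e6fa21e0e35) (nat_lit 0x0)
  (PL.C (nat_lit 0x124ea78) (nat_lit 0x3f24ba39ed493) (nat_lit 0x0)
  (PL.C (nat_lit 0x12568a4) (nat_lit 0x11c0c69fe27de31) (nat_lit 0x0)
  (PL.C (nat_lit 0x125ffe4) (nat_lit 0xbd6007f8e83160) (nat_lit 0x0)
  (PL.C (nat_lit 0x127ef3c) (nat_lit 0x727f257c29e7c7) (nat_lit 0x0)
  (PL.C (nat_lit 0x1282716) (nat_lit 0x0) (nat_lit 0x130dbc03253228c)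
  (PL.C (nat_lit 0x12849db) (nat_lit 0x0) (nat_lit 0x71cb4cce011a8c)
  (PL.C (nat_lit 0x128de25) (nat_lit 0x0) (nat_lit 0x1e1be700bdf2bb) gp2_1_20))))))))))))))))))))

noncomputable def gp2_1_18 : PL :=
  (PL.C (nat_lit 0x10a33ee) (nat_lit 0x868ac2b6355c20) (nat_lit 0x0)
  (PL.C (nat_lit 0x10bb81a) (nat_lit 0x4b4ff65811f7e49) (nat_lit 0x0)
  (PL.C (nat_lit 0x10c0a2a) (nat_lit 0x3f14b8d88a1409) (nat_lit 0x0)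
  (PL.C (nat_lit 0x10c1e53) (nat_lit 0xbdad127a5c2034) (nat_lit 0x0)
  (PL.C (nat_lit 0x10c6402) (nat_lit 0xade1e81eb0f2c7) (nat_lit 0x0)
  (PL.C (nat_lit 0x10d14aa) (nat_lit 0xba2ec6923af6fa) (nat_lit 0x0)
  (PL.C (nat_lit 0x10d28fc) (nat_lit 0x0) (nat_lit 0x3b5dce30526223)
  (PL.C (nat_lit 0x10d9b56) (nat_lit 0x0) (nat_lit 0x87f2ed21c3468c)
  (PL.C (nat_lit 0x10db3bc) (nat_lit 0x39664cefd14c73) (nat_lit 0x0)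
  (PL.C (nat_lit 0x10e2048) (nat_lit 0x0) (nat_lit 0x6f984d3bc2dc6)
  (PL.C (nat_lit 0x10f7a24) (nat_lit 0x13a23d21d7f58b) (nat_lit 0x0)
  (PL.C (nat_lit 0x10fed7a) (nat_lit 0x19bdb80c32bd845) (nat_lit 0x0)
  (PL.C (nat_lit 0x112a09c) (nat_lit 0x0) (nat_lit 0x49a59d3e111909)
  (PL.C (nat_lit 0x112de0e) (nat_lit 0x0) (nat_lit 0x3c2abba43c256a6)
  (PL.C (nat_lit 0x113c724) (nat_lit 0x0) (nat_lit 0x4a7594368c3d69)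
  (PL.C (nat_lit 0x113d4e9) (nat_lit 0x27182b557aaa2f) (nat_lit 0x0)
  (PL.C (nat_lit 0x1155ce2) (nat_lit 0x728dcf4a657c55) (nat_lit 0x0)
  (PL.C (nat_lit 0x115b9da) (nat_lit 0x0) (nat_lit 0x4f4695211355a48)
  (PL.C (nat_lit 0x11640db) (nat_lit 0x0) (nat_lit 0x172beeead2b362)
  (PL.C (nat_lit 0x116d04b) (nat_lit 0x3d5361ec25344c) (nat_lit 0x0) gp2_1_19))))))))))))))))))))

noncomputable def gp2_1_17 : PL :=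
  (PL.C (nat_lit 0xf8b48e) (nat_lit 0x0) (nat_lit 0x1e6ac4fd89674c)
  (PL.C (nat_lit 0xfb6314) (nat_lit 0x0) (nat_lit 0x64145d9ff30b14)
  (PL.C (nat_lit 0xfc3a84) (nat_lit 0x0) (nat_lit 0x1d57a98cfcde68)
  (PL.C (nat_lit 0xfc4b88) (nat_lit 0x0) (nat_lit 0x543cae4d08756)
  (PL.C (nat_lit 0xfd5dac) (nat_lit 0x0) (nat_lit 0x39e57ff8ab240f6)
  (PL.C (nat_lit 0xfdd26b) (nat_lit 0x0) (nat_lit 0x10e9d5656e6858a)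
  (PL.C (nat_lit 0xfe277f) (nat_lit 0x1d0fe904e1fd893) (nat_lit 0x0)
  (PL.C (nat_lit 0xfe665c) (nat_lit 0x0) (nat_lit 0xe22f7b0e0ae3b2)
  (PL.C (nat_lit 0xfecedc) (nat_lit 0x0) (nat_lit 0xb2082faed83f5)
  (PL.C (nat_lit 0xfee086) (nat_lit 0x1a23c29850d7e4f) (nat_lit 0x0)
  (PL.C (nat_lit 0x101f607) (nat_lit 0x346fe86d4b4c5c) (nat_lit 0x0)
  (PL.C (nat_lit 0x102076e) (nat_lit 0x3b82e6d8bb82f4) (nat_lit 0x0)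
  (PL.C (nat_lit 0x1028892) (nat_lit 0x67a267272e0355) (nat_lit 0x0)
  (PL.C (nat_lit 0x1031fcd) (nat_lit 0x9db6548be93e4c9) (nat_lit 0x0)
  (PL.C (nat_lit 0x1042184) (nat_lit 0xee6d1125a3556c) (nat_lit 0x0)
  (PL.C (nat_lit 0x1042e81) (nat_lit 0x2635ca683382963) (nat_lit 0x0)
  (PL.C (nat_lit 0x1044988) (nat_lit 0x1604fa1a114a0f) (nat_lit 0x0)
  (PL.C (nat_lit 0x1049961) (nat_lit 0x19a387289592e9) (nat_lit 0x0)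
  (PL.C (nat_lit 0x10793fa) (nat_lit 0x4e2428bf466fc8) (nat_lit 0x0)
  (PL.C (nat_lit 0x10917c5) (nat_lit 0x0) (nat_lit 0x44ade341e60172e) gp2_1_18))))))))))))))))))))

noncomputable def gp2_1_16 : PL :=
  (PL.C (nat_lit 0xeb5cb7) (nat_lit 0x9c82492ce993f5) (nat_lit 0x0)
  (PL.C (nat_lit 0xebab9b) (nat_lit 0x0) (nat_lit 0x58d2ab36443f40)
  (PL.C (nat_lit 0xec46cc) (nat_lit 0x0) (nat_lit 0x248b60ea263dc)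
  (PL.C (nat_lit 0xec6be8) (nat_lit 0x0) (nat_lit 0x49d1168ed52528)
  (PL.C (nat_lit 0xed8cfd) (nat_lit 0x0) (nat_lit 0x104c20202d33c45)
  (PL.C (nat_lit 0xee0d76) (nat_lit 0x14258195a73fef3) (nat_lit 0x0)
  (PL.C (nat_lit 0xee0f18) (nat_lit 0x0) (nat_lit 0x6ceb5d9d601c54)
  (PL.C (nat_lit 0xeefa38) (nat_lit 0x0) (nat_lit 0x12004ba6862c52)
  (PL.C (nat_lit 0xef3343) (nat_lit 0x0) (nat_lit 0xcefb7da8295520)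
  (PL.C (nat_lit 0xf036ba) (nat_lit 0x0) (nat_lit 0x12e86a152eaa8b)
  (PL.C (nat_lit 0xf04761) (nat_lit 0x120495c4585c8e) (nat_lit 0x0)
  (PL.C (nat_lit 0xf0a36b) (nat_lit 0x0) (nat_lit 0xa56122253e1f28)
  (PL.C (nat_lit 0xf14265) (nat_lit 0x0) (nat_lit 0x3c6b5868a4263f)
  (PL.C (nat_lit 0xf468a2) (nat_lit 0x0) (nat_lit 0x9ac62580a791ed)
  (PL.C (nat_lit 0xf47188) (nat_lit 0x0) (nat_lit 0xd1598e950c470)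
  (PL.C (nat_lit 0xf597f6) (nat_lit 0x0) (nat_lit 0x19218605c990dc9)
  (PL.C (nat_lit 0xf5d039) (nat_lit 0x3bd08f3bc37f8e1) (nat_lit 0x0)
  (PL.C (nat_lit 0xf68c38) (nat_lit 0x18e413786d357f) (nat_lit 0x0)
  (PL.C (nat_lit 0xf82e74) (nat_lit 0xaba8ceac3735d7) (nat_lit 0x0)
  (PL.C (nat_lit 0xf881a4) (nat_lit 0x0) (nat_lit 0x1339f4e08be188) gp2_1_17))))))))))))))))))))

noncomputable def gp2_1_15 : PL :=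
  (PL.C (nat_lit 0xdba245) (nat_lit 0x459fdbff2d681) (nat_lit 0x0)
  (PL.C (nat_lit 0xdbf38a) (nat_lit 0x0) (nat_lit 0x2438c60aa2f5a69)
  (PL.C (nat_lit 0xde021f) (nat_lit 0x0) (nat_lit 0x5560c76c9e58d12)
  (PL.C (nat_lit 0xdfc799) (nat_lit 0x1dc5bdac2eeb837) (nat_lit 0x0)
  (PL.C (nat_lit 0xe17e28) (nat_lit 0x196aaf4dfad4f) (nat_lit 0x0)
  (PL.C (nat_lit 0xe361c4) (nat_lit 0x0) (nat_lit 0xc34b6b98c04936)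
  (PL.C (nat_lit 0xe3abac) (nat_lit 0x2825f2b899d31f) (nat_lit 0x0)
  (PL.C (nat_lit 0xe3f7fc) (nat_lit 0x1b72c67dd93c5c) (nat_lit 0x0)
  (PL.C (nat_lit 0xe52bfc) (nat_lit 0x0) (nat_lit 0x33de67b730c706f)
  (PL.C (nat_lit 0xe621c4) (nat_lit 0x0) (nat_lit 0x87a4149e24e261)
  (PL.C (nat_lit 0xe7621c) (nat_lit 0x0) (nat_lit 0xa1f0df478c1f9)
  (PL.C (nat_lit 0xe7d40c) (nat_lit 0x612e460d967d48) (nat_lit 0x0)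
  (PL.C (nat_lit 0xe86d34) (nat_lit 0x18200afef4d62b1) (nat_lit 0x0)
  (PL.C (nat_lit 0xe8d84d) (nat_lit 0x402c8006531d7a) (nat_lit 0x0)
  (PL.C (nat_lit 0xe92659) (nat_lit 0x5fb3f401bdec33) (nat_lit 0x0)
  (PL.C (nat_lit 0xe96004) (nat_lit 0x43fc1c08db9c2) (nat_lit 0x0)
  (PL.C (nat_lit 0xe97f1e) (nat_lit 0x0) (nat_lit 0x337bcac0e3674f)
  (PL.C (nat_lit 0xea6159) (nat_lit 0x8b7fd771e2ac5b7) (nat_lit 0x0)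
  (PL.C (nat_lit 0xea6758) (nat_lit 0x0) (nat_lit 0x718cc065666671)
  (PL.C (nat_lit 0xeb4a74) (nat_lit 0x0) (nat_lit 0x50de6ffd176ebb9) gp2_1_16))))))))))))))))))))

noncomputable def gp2_1_14 : PL :=
  (PL.C (nat_lit 0xcb0b1a) (nat_lit 0x0) (nat_lit 0x55518d7b3fb7a9)
  (PL.C (nat_lit 0xcbf472) (nat_lit 0x24a965a42b21047) (nat_lit 0x0)
  (PL.C (nat_lit 0xcddcbb) (nat_lit 0x1794f4f1b33ec60) (nat_lit 0x0)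
  (PL.C (nat_lit 0xd1c734) (nat_lit 0x0) (nat_lit 0x5bbda44a8bbf31)
  (PL.C (nat_lit 0xd23b64) (nat_lit 0x250b9b7eb173ac8) (nat_lit 0x0)
  (PL.C (nat_lit 0xd31cdc) (nat_lit 0x0) (nat_lit 0xfb4307e1d8d35)
  (PL.C (nat_lit 0xd4eb94) (nat_lit 0x7010d312317bcc) (nat_lit 0x0)
  (PL.C (nat_lit 0xd5e15c) (nat_lit 0x0) (nat_lit 0x16ba3b2eb8cc225)
  (PL.C (nat_lit 0xd68bbb) (nat_lit 0x131d23c6ed447cf) (nat_lit 0x0)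
  (PL.C (nat_lit 0xd6c0cc) (nat_lit 0x0) (nat_lit 0x50e199539c9c5b)
  (PL.C (nat_lit 0xd7521e) (nat_lit 0x392df6f87088e25) (nat_lit 0x0)
  (PL.C (nat_lit 0xd7611c) (nat_lit 0xb801602a1d5ee) (nat_lit 0x0)
  (PL.C (nat_lit 0xd7bde2) (nat_lit 0x0) (nat_lit 0x1b0847823242eae)
  (PL.C (nat_lit 0xd91324) (nat_lit 0x32795bbed4aac60) (nat_lit 0x0)
  (PL.C (nat_lit 0xd9559d) (nat_lit 0x80660a671f389f) (nat_lit 0x0)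
  (PL.C (nat_lit 0xd9c263) (nat_lit 0x0) (nat_lit 0x1d991e544b79545)
  (PL.C (nat_lit 0xda2dc4) (nat_lit 0x0) (nat_lit 0x4c91fd0a3e44c5)
  (PL.C (nat_lit 0xda3eb3) (nat_lit 0x19b2044a666e9c) (nat_lit 0x0)
  (PL.C (nat_lit 0xda60fa) (nat_lit 0x0) (nat_lit 0xc10e222386b3b4)
  (PL.C (nat_lit 0xdabdc1) (nat_lit 0x41e623745888a9) (nat_lit 0x0) gp2_1_15))))))))))))))))))))

noncomputable def gp2_1_13 : PL :=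
  (PL.C (nat_lit 0xbb68db) (nat_lit 0x39d3b477f0e1bf9) (nat_lit 0x0)
  (PL.C (nat_lit 0xbe2e04) (nat_lit 0x3db0e65b0a1e78) (nat_lit 0x0)
  (PL.C (nat_lit 0xc070ec) (nat_lit 0x0) (nat_lit 0x47fa62bdb72ad)
  (PL.C (nat_lit 0xc174ec) (nat_lit 0x0) (nat_lit 0x988f0e779202f5)
  (PL.C (nat_lit 0xc18388) (nat_lit 0x7ce1c39b53430) (nat_lit 0x0)
  (PL.C (nat_lit 0xc28584) (nat_lit 0x63d25943da9b5c) (nat_lit 0x0)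
  (PL.C (nat_lit 0xc2d94e) (nat_lit 0x0) (nat_lit 0xed0f500ada5efd)
  (PL.C (nat_lit 0xc39b18) (nat_lit 0x0) (nat_lit 0x8114ccdd62641)
  (PL.C (nat_lit 0xc54a28) (nat_lit 0x914a526fe81939) (nat_lit 0x0)
  (PL.C (nat_lit 0xc56f64) (nat_lit 0x0) (nat_lit 0x89f6cfa205c411)
  (PL.C (nat_lit 0xc58692) (nat_lit 0x0) (nat_lit 0x11a05ba7640a643)
  (PL.C (nat_lit 0xc5da7d) (nat_lit 0x1068058a16e9666) (nat_lit 0x0)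
  (PL.C (nat_lit 0xc5e96e) (nat_lit 0x424dbfe4d33588) (nat_lit 0x0)
  (PL.C (nat_lit 0xc6534c) (nat_lit 0xa3c10f9be6485c) (nat_lit 0x0)
  (PL.C (nat_lit 0xc6f147) (nat_lit 0x0) (nat_lit 0x17002d156a5e2f2)
  (PL.C (nat_lit 0xc7227c) (nat_lit 0x0) (nat_lit 0xb78fb4f0ffe43b)
  (PL.C (nat_lit 0xc80d2a) (nat_lit 0x1f546eda91c0199) (nat_lit 0x0)
  (PL.C (nat_lit 0xc8744a) (nat_lit 0x0) (nat_lit 0x849940d9d5c2e0)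
  (PL.C (nat_lit 0xc9c606) (nat_lit 0x0) (nat_lit 0x1ea253d544ec3ea)
  (PL.C (nat_lit 0xcac722) (nat_lit 0x20ff305ada9331) (nat_lit 0x0) gp2_1_14))))))))))))))))))))

noncomputable def gp2_1_12 : PL :=
  (PL.C (nat_lit 0xacbfde) (nat_lit 0x0) (nat_lit 0x2f6a8d5bc937302)
  (PL.C (nat_lit 0xad7456) (nat_lit 0x0) (nat_lit 0x1e5c28bc076688f)
  (PL.C (nat_lit 0xadbb96) (nat_lit 0x10505e7481d138) (nat_lit 0x0)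
  (PL.C (nat_lit 0xafb7fc) (nat_lit 0x233fc8820e1835) (nat_lit 0x0)
  (PL.C (nat_lit 0xb177f4) (nat_lit 0x919ad56f85f78) (nat_lit 0x0)
  (PL.C (nat_lit 0xb27abc) (nat_lit 0x6bdbf43885ac09a) (nat_lit 0x0)
  (PL.C (nat_lit 0xb2bee2) (nat_lit 0x15d387b867ff32a) (nat_lit 0x0)
  (PL.C (nat_lit 0xb3631c) (nat_lit 0x0) (nat_lit 0x7c5ea650512bbd)
  (PL.C (nat_lit 0xb370a8) (nat_lit 0x0) (nat_lit 0xeb1e5f791a11a)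
  (PL.C (nat_lit 0xb3b659) (nat_lit 0x4d5a938fd1b0a2) (nat_lit 0x0)
  (PL.C (nat_lit 0xb3cd28) (nat_lit 0x594deb0bd98c2) (nat_lit 0x0)
  (PL.C (nat_lit 0xb4fc18) (nat_lit 0x1fd5fd376166fb) (nat_lit 0x0)
  (PL.C (nat_lit 0xb68929) (nat_lit 0x0) (nat_lit 0xc418504afd070e6)
  (PL.C (nat_lit 0xb73eb4) (nat_lit 0x0) (nat_lit 0x17de247d349d77)
  (PL.C (nat_lit 0xb776d1) (nat_lit 0xf958c73b62d583) (nat_lit 0x0)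
  (PL.C (nat_lit 0xb7da18) (nat_lit 0x35468fb8a67cfd) (nat_lit 0x0)
  (PL.C (nat_lit 0xb7e346) (nat_lit 0x0) (nat_lit 0x8e2c6f3db9ec4)
  (PL.C (nat_lit 0xb98092) (nat_lit 0x0) (nat_lit 0xb76a052d168dad)
  (PL.C (nat_lit 0xb9e032) (nat_lit 0x4c4ef0a2df6a97) (nat_lit 0x0)
  (PL.C (nat_lit 0xbb195e) (nat_lit 0x15ccb136383e95e) (nat_lit 0x0) gp2_1_13))))))))))))))))))))

noncomputable def gp2_1_11 : PL :=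
  (PL.C (nat_lit 0x9d8488) (nat_lit 0x0) (nat_lit 0x371ff7e0f6390)
  (PL.C (nat_lit 0x9e5dfe) (nat_lit 0x53f33ed3d28f51) (nat_lit 0x0)
  (PL.C (nat_lit 0x9eb3a4) (nat_lit 0x5bfc0b71d93f89) (nat_lit 0x0)
  (PL.C (nat_lit 0x9f7782) (nat_lit 0x3c8cf6896b8d10) (nat_lit 0x0)
  (PL.C (nat_lit 0xa0247c) (nat_lit 0x0) (nat_lit 0x191426b6cb6e69)
  (PL.C (nat_lit 0xa02f96) (nat_lit 0x0) (nat_lit 0x302a0e43c45ad54)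
  (PL.C (nat_lit 0xa06cf2) (nat_lit 0x0) (nat_lit 0x47b865bb81e16f)
  (PL.C (nat_lit 0xa0d6ee) (nat_lit 0xd4f3713a6352c) (nat_lit 0x0)
  (PL.C (nat_lit 0xa24eff) (nat_lit 0x0) (nat_lit 0x3a7ef7aee77efef)
  (PL.C (nat_lit 0xa2f06c) (nat_lit 0x0) (nat_lit 0x222eea588f403a)
  (PL.C (nat_lit 0xa3baa4) (nat_lit 0x0) (nat_lit 0x20ad3a3a25484b4)
  (PL.C (nat_lit 0xa3e026) (nat_lit 0x154d3e500d064d8) (nat_lit 0x0)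
  (PL.C (nat_lit 0xa5cdb4) (nat_lit 0x0) (nat_lit 0x4a3c3bb07f280d)
  (PL.C (nat_lit 0xa936f2) (nat_lit 0x2ca0ac51f078073) (nat_lit 0x0)
  (PL.C (nat_lit 0xa942ad) (nat_lit 0x0) (nat_lit 0x2720240378fbfce)
  (PL.C (nat_lit 0xa96faa) (nat_lit 0x4731f90340eca4a) (nat_lit 0x0)
  (PL.C (nat_lit 0xa9eb04) (nat_lit 0x1460597ca56662d) (nat_lit 0x0)
  (PL.C (nat_lit 0xabf95a) (nat_lit 0x19112fffb3ef7b) (nat_lit 0x0)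
  (PL.C (nat_lit 0xac04f4) (nat_lit 0x0) (nat_lit 0x454c49012b82ec)
  (PL.C (nat_lit 0xac5b0c) (nat_lit 0x51558ab8a6a954) (nat_lit 0x0) gp2_1_12))))))))))))))))))))

noncomputable def gp2_1_10 : PL :=
  (PL.C (nat_lit 0x91d3d6) (nat_lit 0xefa59ba6502bde) (nat_lit 0x0)
  (PL.C (nat_lit 0x926c2e) (nat_lit 0x2153103e9329682) (nat_lit 0x0)
  (PL.C (nat_lit 0x92a25c) (nat_lit 0xf5e47cf0273d56) (nat_lit 0x0)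
  (PL.C (nat_lit 0x92cf43) (nat_lit 0x0) (nat_lit 0xf312d42dc8bb10)
  (PL.C (nat_lit 0x9318bd) (nat_lit 0x0) (nat_lit 0x84a81fc93236d8)
  (PL.C (nat_lit 0x94016a) (nat_lit 0x0) (nat_lit 0x62ddedcaac235f9)
  (PL.C (nat_lit 0x95f781) (nat_lit 0x0) (nat_lit 0x1360f4e35f283c1)
  (PL.C (nat_lit 0x96811b) (nat_lit 0x16cb53ae9185260) (nat_lit 0x0)
  (PL.C (nat_lit 0x97c7c8) (nat_lit 0x0) (nat_lit 0xc5c1fcf214e1c)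
  (PL.C (nat_lit 0x97faa8) (nat_lit 0x0) (nat_lit 0x1645af607e6fa8)
  (PL.C (nat_lit 0x996bd8) (nat_lit 0x0) (nat_lit 0x82266270a27167)
  (PL.C (nat_lit 0x9a4168) (nat_lit 0x1dbabc1cd23612) (nat_lit 0x0)
  (PL.C (nat_lit 0x9af378) (nat_lit 0x1dd2226ae52533) (nat_lit 0x0)
  (PL.C (nat_lit 0x9b3ade) (nat_lit 0x2c12df2b6ee5fa) (nat_lit 0x0)
  (PL.C (nat_lit 0x9b6ee6) (nat_lit 0x2f6fdaedcd33e8) (nat_lit 0x0)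
  (PL.C (nat_lit 0x9b9558) (nat_lit 0x2634edb14fbd80) (nat_lit 0x0)
  (PL.C (nat_lit 0x9baa14) (nat_lit 0x0) (nat_lit 0x6bfead19585e94)
  (PL.C (nat_lit 0x9c40e6) (nat_lit 0x42db41325cb1b08) (nat_lit 0x0)
  (PL.C (nat_lit 0x9ce87a) (nat_lit 0x0) (nat_lit 0xd5e12b8669b108)
  (PL.C (nat_lit 0x9d1d12) (nat_lit 0x0) (nat_lit 0xe57c6d0b13bd21) gp2_1_11))))))))))))))))))))

noncomputable def gp2_1_9 : PL :=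
  (PL.C (nat_lit 0x868404) (nat_lit 0x45642febabbb9d) (nat_lit 0x0)
  (PL.C (nat_lit 0x872f6c) (nat_lit 0x0) (nat_lit 0x4621049dbf9af4)
  (PL.C (nat_lit 0x875cbc) (nat_lit 0x0) (nat_lit 0x63d2fe307bb403)
  (PL.C (nat_lit 0x87f84c) (nat_lit 0x0) (nat_lit 0x17f1aa71d4a6116)
  (PL.C (nat_lit 0x8821ef) (nat_lit 0xf57226d21a6eab) (nat_lit 0x0)
  (PL.C (nat_lit 0x886611) (nat_lit 0x0) (nat_lit 0x111643e88c1d039)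
  (PL.C (nat_lit 0x88ac61) (nat_lit 0x0) (nat_lit 0x13a387647b6bd7d)
  (PL.C (nat_lit 0x893dd2) (nat_lit 0x38250785181b609) (nat_lit 0x0)
  (PL.C (nat_lit 0x8992a7) (nat_lit 0x6042d150240af) (nat_lit 0x0)
  (PL.C (nat_lit 0x8b0f65) (nat_lit 0xe695d737ef2954) (nat_lit 0x0)
  (PL.C (nat_lit 0x8c2798) (nat_lit 0x0) (nat_lit 0x12844b039ecfd)
  (PL.C (nat_lit 0x8cbde8) (nat_lit 0x35b4538f9de223) (nat_lit 0x0)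
  (PL.C (nat_lit 0x8f07d2) (nat_lit 0x399fe67dbbf3fd2) (nat_lit 0x0)
  (PL.C (nat_lit 0x8f8c14) (nat_lit 0x4480e94320501ad) (nat_lit 0x0)
  (PL.C (nat_lit 0x8fd3ec) (nat_lit 0xf5522f78600799) (nat_lit 0x0)
  (PL.C (nat_lit 0x90e3be) (nat_lit 0x0) (nat_lit 0x2404b2b79f7c133)
  (PL.C (nat_lit 0x912c42) (nat_lit 0x1f6f3460115d5af) (nat_lit 0x0)
  (PL.C (nat_lit 0x9173d8) (nat_lit 0x0) (nat_lit 0x132f833932851)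
  (PL.C (nat_lit 0x917f22) (nat_lit 0xf39612431572ee) (nat_lit 0x0)
  (PL.C (nat_lit 0x9195fc) (nat_lit 0x0) (nat_lit 0x807d931954b5de) gp2_1_10))))))))))))))))))))

noncomputable def gp2_1_8 : PL :=
  (PL.C (nat_lit 0x7b3087) (nat_lit 0x0) (nat_lit 0x20e0085d34ae84b)
  (PL.C (nat_lit 0x7bab0c) (nat_lit 0x0) (nat_lit 0x5031a33932f8d2)
  (PL.C (nat_lit 0x7beacc) (nat_lit 0x0) (nat_lit 0x987035d9d2e907)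
  (PL.C (nat_lit 0x7cbb94) (nat_lit 0x13e91f4a68f4e4a) (nat_lit 0x0)
  (PL.C (nat_lit 0x7cf092) (nat_lit 0x0) (nat_lit 0x4d1ec2b7183ae3f)
  (PL.C (nat_lit 0x7ebbc5) (nat_lit 0x0) (nat_lit 0xaf62cda4649efc)
  (PL.C (nat_lit 0x804b48) (nat_lit 0x0) (nat_lit 0xf4f7d2e0943e4)
  (PL.C (nat_lit 0x80f259) (nat_lit 0xdfeb5f5b59ac06) (nat_lit 0x0)
  (PL.C (nat_lit 0x81ae58) (nat_lit 0x0) (nat_lit 0x1d046c891b8a20)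
  (PL.C (nat_lit 0x81e634) (nat_lit 0x0) (nat_lit 0xf2a4042b2d928)
  (PL.C (nat_lit 0x839f98) (nat_lit 0x2bf4762c1fff2d) (nat_lit 0x0)
  (PL.C (nat_lit 0x83af0c) (nat_lit 0x0) (nat_lit 0x1b7e77742e6c87a)
  (PL.C (nat_lit 0x83e6fe) (nat_lit 0x0) (nat_lit 0x4fd372dbe02f6)
  (PL.C (nat_lit 0x83f0f4) (nat_lit 0x26f6df3b79de6d) (nat_lit 0x0)
  (PL.C (nat_lit 0x843788) (nat_lit 0x0) (nat_lit 0x609ad3cb05722)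
  (PL.C (nat_lit 0x84a0da) (nat_lit 0xdeae75fd68b6bc) (nat_lit 0x0)
  (PL.C (nat_lit 0x84c1a8) (nat_lit 0x0) (nat_lit 0x28b392092045b4)
  (PL.C (nat_lit 0x84d9fb) (nat_lit 0x343346e101f0b3c) (nat_lit 0x0)
  (PL.C (nat_lit 0x855e1c) (nat_lit 0x2291291d4e75940) (nat_lit 0x0)
  (PL.C (nat_lit 0x85a2dc) (nat_lit 0x0) (nat_lit 0x17c78efbfb36dde) gp2_1_9))))))))))))))))))))

noncomputable def gp2_1_7 : PL :=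
  (PL.C (nat_lit 0x70f51c) (nat_lit 0x456a989755cb71a) (nat_lit 0x0)
  (PL.C (nat_lit 0x714758) (nat_lit 0x0) (nat_lit 0x1edc3b9274bba5)
  (PL.C (nat_lit 0x72a63c) (nat_lit 0x0) (nat_lit 0x8a4a741107c718)
  (PL.C (nat_lit 0x72adf8) (nat_lit 0x0) (nat_lit 0x4030a5113999ab)
  (PL.C (nat_lit 0x732a94) (nat_lit 0x0) (nat_lit 0x8886dcaebadac0)
  (PL.C (nat_lit 0x735fa5) (nat_lit 0x0) (nat_lit 0xdf6d193dcf31bb)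
  (PL.C (nat_lit 0x738651) (nat_lit 0x0) (nat_lit 0x2dfd8ed808b0289)
  (PL.C (nat_lit 0x73a2e4) (nat_lit 0x0) (nat_lit 0x126f905477d9861)
  (PL.C (nat_lit 0x754149) (nat_lit 0x7ad1c4649669f0) (nat_lit 0x0)
  (PL.C (nat_lit 0x75c8a3) (nat_lit 0x3a9f67eabc5cd1) (nat_lit 0x0)
  (PL.C (nat_lit 0x7643af) (nat_lit 0x136e43c7b05a843) (nat_lit 0x0)
  (PL.C (nat_lit 0x764ff8) (nat_lit 0x0) (nat_lit 0x55d51bdc8f88a)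
  (PL.C (nat_lit 0x7729ec) (nat_lit 0xb96f6a812b6d5c) (nat_lit 0x0)
  (PL.C (nat_lit 0x779768) (nat_lit 0xf0a7c855e792d) (nat_lit 0x0)
  (PL.C (nat_lit 0x77a070) (nat_lit 0x0) (nat_lit 0x7ef223094086)
  (PL.C (nat_lit 0x77cee6) (nat_lit 0x0) (nat_lit 0x2806d2e3cfa21f8)
  (PL.C (nat_lit 0x78a810) (nat_lit 0x0) (nat_lit 0x27b68288dc3ffd)
  (PL.C (nat_lit 0x79b0c6) (nat_lit 0x39b887422126245) (nat_lit 0x0)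
  (PL.C (nat_lit 0x7a4f36) (nat_lit 0x0) (nat_lit 0x5d57846bb99d5f)
  (PL.C (nat_lit 0x7a9784) (nat_lit 0x0) (nat_lit 0x3fb90d3182b0a1) gp2_1_8))))))))))))))))))))

noncomputable def gp2_1_6 : PL :=
  (PL.C (nat_lit 0x62ab9c) (nat_lit 0x8ee5aeb4c6c3b5) (nat_lit 0x0)
  (PL.C (nat_lit 0x63fa56) (nat_lit 0x0) (nat_lit 0x10fe59ca148dea5)
  (PL.C (nat_lit 0x645612) (nat_lit 0x101ac583f2ca6f2) (nat_lit 0x0)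
  (PL.C (nat_lit 0x64e9b1) (nat_lit 0x4e4e9d6596f4397) (nat_lit 0x0)
  (PL.C (nat_lit 0x677c94) (nat_lit 0x22784a60b530fc) (nat_lit 0x0)
  (PL.C (nat_lit 0x679f44) (nat_lit 0x0) (nat_lit 0x2b7a930a10346e)
  (PL.C (nat_lit 0x682b44) (nat_lit 0x0) (nat_lit 0x79b78dde2869d0)
  (PL.C (nat_lit 0x689afc) (nat_lit 0x0) (nat_lit 0x2fcc7a36d25f5c)
  (PL.C (nat_lit 0x68be0c) (nat_lit 0x34be28d54ff157) (nat_lit 0x0)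
  (PL.C (nat_lit 0x6a4fac) (nat_lit 0x250572091f383c) (nat_lit 0x0)
  (PL.C (nat_lit 0x6a8957) (nat_lit 0x0) (nat_lit 0x22eed2b5e8a4491)
  (PL.C (nat_lit 0x6aca64) (nat_lit 0x0) (nat_lit 0xe72fd4e8ec1d6c)
  (PL.C (nat_lit 0x6afb99) (nat_lit 0x0) (nat_lit 0x354c14cda43df7)
  (PL.C (nat_lit 0x6b1f75) (nat_lit 0x0) (nat_lit 0x1ac87c625abc469)
  (PL.C (nat_lit 0x6b39f4) (nat_lit 0x758d49c6d006c) (nat_lit 0x0)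
  (PL.C (nat_lit 0x6c34aa) (nat_lit 0x12029caabeadf85) (nat_lit 0x0)
  (PL.C (nat_lit 0x6ca048) (nat_lit 0x0) (nat_lit 0x1bf31f32df5cf3)
  (PL.C (nat_lit 0x6d2718) (nat_lit 0x0) (nat_lit 0x27d20ea0c0e9f2)
  (PL.C (nat_lit 0x70cf4c) (nat_lit 0x0) (nat_lit 0xde48444bc42f9c)
  (PL.C (nat_lit 0x70d71e) (nat_lit 0x255edeef2fd3842) (nat_lit 0x0) gp2_1_7))))))))))))))))))))

noncomputable def gp2_1_5 : PL :=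
  (PL.C (nat_lit 0x589152) (nat_lit 0x139de6e38abbddb) (nat_lit 0x0)
  (PL.C (nat_lit 0x58e968) (nat_lit 0xe0bb655956785c) (nat_lit 0x0)
  (PL.C (nat_lit 0x59ad58) (nat_lit 0x150f66222f104a7) (nat_lit 0x0)
  (PL.C (nat_lit 0x59eef3) (nat_lit 0x0) (nat_lit 0x392c67b9fc1706f)
  (PL.C (nat_lit 0x5aa588) (nat_lit 0x0) (nat_lit 0x3f5f74bbd689f7)
  (PL.C (nat_lit 0x5ac14a) (nat_lit 0x34e56dbe9ac524) (nat_lit 0x0)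
  (PL.C (nat_lit 0x5aeeb6) (nat_lit 0x0) (nat_lit 0x17bf8f7d5627ef1)
  (PL.C (nat_lit 0x5b1d96) (nat_lit 0x6dfa4025e3cab91) (nat_lit 0x0)
  (PL.C (nat_lit 0x5b7e8c) (nat_lit 0x0) (nat_lit 0xe27566ec7f8dae)
  (PL.C (nat_lit 0x5bb71a) (nat_lit 0x951bac19535caf) (nat_lit 0x0)
  (PL.C (nat_lit 0x5cb4ee) (nat_lit 0x81a04e894563a33) (nat_lit 0x0)
  (PL.C (nat_lit 0x5dd3f0) (nat_lit 0x55417ac710d9d) (nat_lit 0x0)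
  (PL.C (nat_lit 0x5f5a8c) (nat_lit 0xe8d1d284c5d670) (nat_lit 0x0)
  (PL.C (nat_lit 0x5fb2b8) (nat_lit 0xf50053931f857c) (nat_lit 0x0)
  (PL.C (nat_lit 0x6097d4) (nat_lit 0x27c27532e7c4bf) (nat_lit 0x0)
  (PL.C (nat_lit 0x60ff6c) (nat_lit 0x4a495f07750ede) (nat_lit 0x0)
  (PL.C (nat_lit 0x610ea8) (nat_lit 0xc37dd5332365f) (nat_lit 0x0)
  (PL.C (nat_lit 0x618555) (nat_lit 0x13272ead354b9ba) (nat_lit 0x0)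
  (PL.C (nat_lit 0x61df82) (nat_lit 0x0) (nat_lit 0x2e7d6a36a0f319e)
  (PL.C (nat_lit 0x62107e) (nat_lit 0x0) (nat_lit 0x32b2509b4abe161) gp2_1_6))))))))))))))))))))

noncomputable def gp2_1_4 : PL :=
  (PL.C (nat_lit 0x4d0436) (nat_lit 0x0) (nat_lit 0x857addd326dd486)
  (PL.C (nat_lit 0x4e2b86) (nat_lit 0x14c338ae094898a) (nat_lit 0x0)
  (PL.C (nat_lit 0x4e85c2) (nat_lit 0x5f12ec6c5fa6b40) (nat_lit 0x0)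
  (PL.C (nat_lit 0x4ed7ca) (nat_lit 0x3b291a9efae0ef8) (nat_lit 0x0)
  (PL.C (nat_lit 0x4f7148) (nat_lit 0x0) (nat_lit 0x1921fdd973f909)
  (PL.C (nat_lit 0x4fdf44) (nat_lit 0x0) (nat_lit 0x1647ae68c4ceb8)
  (PL.C (nat_lit 0x512084) (nat_lit 0x13259a4a27b1508) (nat_lit 0x0)
  (PL.C (nat_lit 0x518a24) (nat_lit 0x0) (nat_lit 0x39d5223bd8d6bb)
  (PL.C (nat_lit 0x51ba58) (nat_lit 0x2a704a09442a94) (nat_lit 0x0)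
  (PL.C (nat_lit 0x52205a) (nat_lit 0x0) (nat_lit 0x13a6e63fa3c406a)
  (PL.C (nat_lit 0x527208) (nat_lit 0xda2d9d0d5325bd) (nat_lit 0x0)
  (PL.C (nat_lit 0x529c88) (nat_lit 0x0) (nat_lit 0x21db50ad75b75)
  (PL.C (nat_lit 0x52f887) (nat_lit 0x317890d0acc34be) (nat_lit 0x0)
  (PL.C (nat_lit 0x5327b8) (nat_lit 0x20a188948318f9) (nat_lit 0x0)
  (PL.C (nat_lit 0x547d2e) (nat_lit 0x35aa77af5faab3) (nat_lit 0x0)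
  (PL.C (nat_lit 0x55f6e6) (nat_lit 0x0) (nat_lit 0x2f7a4d649549764)
  (PL.C (nat_lit 0x57ca08) (nat_lit 0x0) (nat_lit 0xf2c4a186438e0c)
  (PL.C (nat_lit 0x57ef54) (nat_lit 0x0) (nat_lit 0xa8c2d2a9f0a201)
  (PL.C (nat_lit 0x57f5f8) (nat_lit 0x0) (nat_lit 0xd49e16e38a812)
  (PL.C (nat_lit 0x586b3c) (nat_lit 0x9b16843a8d19ef) (nat_lit 0x0) gp2_1_5))))))))))))))))))))

noncomputable def gp2_1_3 : PL :=
  (PL.C (nat_lit 0x42a6e4) (nat_lit 0xf868f197e25018) (nat_lit 0x0)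
  (PL.C (nat_lit 0x42bb4d) (nat_lit 0xcd2d83e1c824f3) (nat_lit 0x0)
  (PL.C (nat_lit 0x42dcb3) (nat_lit 0x2db9ffdd03dd05e) (nat_lit 0x0)
  (PL.C (nat_lit 0x42e40c) (nat_lit 0x0) (nat_lit 0x104e73e3f4eaafc)
  (PL.C (nat_lit 0x434676) (nat_lit 0x0) (nat_lit 0x275be9c0c852a3c)
  (PL.C (nat_lit 0x442aaf) (nat_lit 0x0) (nat_lit 0x5b18960613717a)
  (PL.C (nat_lit 0x44fdb8) (nat_lit 0x102b38a15e3b2b) (nat_lit 0x0)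
  (PL.C (nat_lit 0x4514d8) (nat_lit 0x0) (nat_lit 0x4df336cc2aaaca)
  (PL.C (nat_lit 0x45bca8) (nat_lit 0x0) (nat_lit 0x2c3f7d727126f0)
  (PL.C (nat_lit 0x45d408) (nat_lit 0x0) (nat_lit 0x2463114f166fa1)
  (PL.C (nat_lit 0x46dfc8) (nat_lit 0x3272c3b1b32a6a) (nat_lit 0x0)
  (PL.C (nat_lit 0x47063a) (nat_lit 0x7cc5c489be52ff9) (nat_lit 0x0)
  (PL.C (nat_lit 0x473198) (nat_lit 0x4a72f0485343f8) (nat_lit 0x0)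
  (PL.C (nat_lit 0x475266) (nat_lit 0xec8a25788efcc2) (nat_lit 0x0)
  (PL.C (nat_lit 0x476a4e) (nat_lit 0x8ffc3b7cc8b58e) (nat_lit 0x0)
  (PL.C (nat_lit 0x477bf8) (nat_lit 0x43cd1bb1d40de0) (nat_lit 0x0)
  (PL.C (nat_lit 0x48231c) (nat_lit 0xe53073b087b4f) (nat_lit 0x0)
  (PL.C (nat_lit 0x49c6d1) (nat_lit 0x0) (nat_lit 0x1af58aa25d055e)
  (PL.C (nat_lit 0x4b3a14) (nat_lit 0x366ffb0ad7be3ca) (nat_lit 0x0)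
  (PL.C (nat_lit 0x4cea6e) (nat_lit 0x28f6049afab750b) (nat_lit 0x0) gp2_1_4))))))))))))))))))))

noncomputable def gp2_1_2 : PL :=
  (PL.C (nat_lit 0x385374) (nat_lit 0x0) (nat_lit 0x40050ba098b28)
  (PL.C (nat_lit 0x394f44) (nat_lit 0x0) (nat_lit 0x1534d72b0bc8e3d)
  (PL.C (nat_lit 0x3a86b0) (nat_lit 0x0) (nat_lit 0x26fd09e4ad35e0)
  (PL.C (nat_lit 0x3af228) (nat_lit 0x0) (nat_lit 0x1aa23d7c97218b)
  (PL.C (nat_lit 0x3b0b8c) (nat_lit 0xdb0176a2729107) (nat_lit 0x0)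
  (PL.C (nat_lit 0x3bf4a2) (nat_lit 0x3ee516a4412a8a1) (nat_lit 0x0)
  (PL.C (nat_lit 0x3c6315) (nat_lit 0x0) (nat_lit 0x42637642e60cfee)
  (PL.C (nat_lit 0x3c80dc) (nat_lit 0x95681a45b13ca2) (nat_lit 0x0)
  (PL.C (nat_lit 0x3c9f24) (nat_lit 0x0) (nat_lit 0x35f4dc24af2d83c)
  (PL.C (nat_lit 0x3cbe64) (nat_lit 0x0) (nat_lit 0x4dffe21ade7ff4)
  (PL.C (nat_lit 0x3cff08) (nat_lit 0x0) (nat_lit 0x83f006e096b3c0)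
  (PL.C (nat_lit 0x3d24bc) (nat_lit 0x0) (nat_lit 0x4070b845183d730)
  (PL.C (nat_lit 0x3dcdf4) (nat_lit 0x1404c7e038d9d6f) (nat_lit 0x0)
  (PL.C (nat_lit 0x3e1fcf) (nat_lit 0x0) (nat_lit 0x446011f733d2d46)
  (PL.C (nat_lit 0x3f358b) (nat_lit 0x0) (nat_lit 0x6281a7459f9ac35)
  (PL.C (nat_lit 0x406538) (nat_lit 0x357207f5355d0f) (nat_lit 0x0)
  (PL.C (nat_lit 0x40aa48) (nat_lit 0x0) (nat_lit 0x12794f82c76a629)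
  (PL.C (nat_lit 0x41038e) (nat_lit 0x0) (nat_lit 0x464aec2e5c40f09)
  (PL.C (nat_lit 0x413fac) (nat_lit 0x0) (nat_lit 0x26240715fcaf6c8)
  (PL.C (nat_lit 0x416054) (nat_lit 0x0) (nat_lit 0x9d7df52e47a7fc) gp2_1_3))))))))))))))))))))

noncomputable def gp2_1_1 : PL :=
  (PL.C (nat_lit 0x2a23b2) (nat_lit 0x2925be07402c058) (nat_lit 0x0)
  (PL.C (nat_lit 0x2b1c30) (nat_lit 0x0) (nat_lit 0x134ba7c186d3c)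
  (PL.C (nat_lit 0x2b7fc8) (nat_lit 0x1d36d35f6fbdb8c) (nat_lit 0x0)
  (PL.C (nat_lit 0x2c7cde) (nat_lit 0x156fcd06efa5e75) (nat_lit 0x0)
  (PL.C (nat_lit 0x2c9322) (nat_lit 0x192c1a266d52db6) (nat_lit 0x0)
  (PL.C (nat_lit 0x2c9808) (nat_lit 0x0) (nat_lit 0x6e685b9e64b6)
  (PL.C (nat_lit 0x2d71ca) (nat_lit 0x315362ae89015b1) (nat_lit 0x0)
  (PL.C (nat_lit 0x2f8c44) (nat_lit 0x33c1f2870677a3d) (nat_lit 0x0)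
  (PL.C (nat_lit 0x2f9c34) (nat_lit 0xa6c13ce59cf08e) (nat_lit 0x0)
  (PL.C (nat_lit 0x312f36) (nat_lit 0x97525d1a243d1a) (nat_lit 0x0)
  (PL.C (nat_lit 0x3226b8) (nat_lit 0x0) (nat_lit 0x6b20bcb19e007a)
  (PL.C (nat_lit 0x3346f4) (nat_lit 0x3a99499a4ff230) (nat_lit 0x0)
  (PL.C (nat_lit 0x335824) (nat_lit 0x1fd45cb2b0e5ff8) (nat_lit 0x0)
  (PL.C (nat_lit 0x34714b) (nat_lit 0x0) (nat_lit 0x388b775eb71026f)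
  (PL.C (nat_lit 0x3482df) (nat_lit 0x983d3a80815a62) (nat_lit 0x0)
  (PL.C (nat_lit 0x365c18) (nat_lit 0xa0851b885ddab) (nat_lit 0x0)
  (PL.C (nat_lit 0x36c03c) (nat_lit 0xbfc64d57ca5f5b) (nat_lit 0x0)
  (PL.C (nat_lit 0x36f6b0) (nat_lit 0x8c6677c15c798) (nat_lit 0x0)
  (PL.C (nat_lit 0x37505a) (nat_lit 0x0) (nat_lit 0xeed9f95b17929ce)
  (PL.C (nat_lit 0x376fd0) (nat_lit 0x0) (nat_lit 0x3e23d4b7bcf104) gp2_1_2))))))))))))))))))))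

noncomputable def gp2_1 : PL :=
  (PL.C (nat_lit 0x12ba88) (nat_lit 0x0) (nat_lit 0x5f077edde1bef1)
  (PL.C (nat_lit 0x14a816) (nat_lit 0x0) (nat_lit 0x730a161b2b34e07)
  (PL.C (nat_lit 0x1ae3f0) (nat_lit 0x0) (nat_lit 0x5c53626e941242)
  (PL.C (nat_lit 0x1c17cc) (nat_lit 0xd5c3ae7713ae7) (nat_lit 0x0)
  (PL.C (nat_lit 0x1da894) (nat_lit 0x0) (nat_lit 0x842919173e527c6)
  (PL.C (nat_lit 0x1e4bdc) (nat_lit 0x2c76fa53892401b) (nat_lit 0x0)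
  (PL.C (nat_lit 0x1efc21) (nat_lit 0x0) (nat_lit 0x63ef7acbddaff66)
  (PL.C (nat_lit 0x1fb2d8) (nat_lit 0x325328a38c3df9) (nat_lit 0x0)
  (PL.C (nat_lit 0x1fbd78) (nat_lit 0x0) (nat_lit 0x7da1186dd75812)
  (PL.C (nat_lit 0x22f632) (nat_lit 0x0) (nat_lit 0x3ade1413f3a999)
  (PL.C (nat_lit 0x2301ea) (nat_lit 0x0) (nat_lit 0x878ec318430314e)
  (PL.C (nat_lit 0x248028) (nat_lit 0x0) (nat_lit 0x4789d576bc877)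
  (PL.C (nat_lit 0x258cf8) (nat_lit 0x4c4d60da3a4ac4) (nat_lit 0x0)
  (PL.C (nat_lit 0x2634d8) (nat_lit 0x0) (nat_lit 0xe061e0dd51ecb)
  (PL.C (nat_lit 0x28420e) (nat_lit 0x0) (nat_lit 0x1815d7d13ac8b3d)
  (PL.C (nat_lit 0x2855e8) (nat_lit 0x1a925fa5f668b7) (nat_lit 0x0)
  (PL.C (nat_lit 0x286a18) (nat_lit 0x0) (nat_lit 0x1d474633d026ea)
  (PL.C (nat_lit 0x28c328) (nat_lit 0x0) (nat_lit 0x47407ffb121fe5)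
  (PL.C (nat_lit 0x2933f8) (nat_lit 0x37021e7c21ea36) (nat_lit 0x0)
  (PL.C (nat_lit 0x296a8a) (nat_lit 0x15fa5a0a218fdb4) (nat_lit 0x0) gp2_1_1))))))))))))))))))))

theorem chk2_1 : eqP (sm (suf (nat_lit 73) (grl (nat_lit 78) (nat_lit 33) (nat_lit 18889465931478580854784) (nat_lit 4) us2 cs2))) gp2_1 = true := by decide +kernel


end Pool.Agent.Work.MP_440970_an.FX.D1
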