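import Pool.Agent.Work.MP_440970_an.Bdx.B01
import Pool.Agent.Work.MP_440970_an.FX.D1.U3

/-!
# parts of the squares
-/

set_option autoImplicit false
set_option maxRecDepth 1000000

namespace Pool.Agent.Work.MP_440970_an.FX.D1

noncomputable def gp3_0_236 : PL :=
  (PL.C (nat_lit 0xaef5c3eaf) (nat_lit 0x9975cf164d8f) (nat_lit 0x0)
  (PL.C (nat_lit 0xfdb5395e7) (nat_lit 0x1634901d4384) (nat_lit 0x0) PL.Z))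

noncomputable def gp3_0_235 : PL :=
  (PL.C (nat_lit 0x506dc74c5) (nat_lit 0xf16c89234d6) (nat_lit 0x0)
  (PL.C (nat_lit 0x53978745d) (nat_lit 0x0) (nat_lit 0x5caf639d94e32)
  (PL.C (nat_lit 0x544fbe0fb) (nat_lit 0x199531047fcace) (nat_lit 0x0)
  (PL.C (nat_lit 0x55098aced) (nat_lit 0x0) (nat_lit 0x5caf639d94e32)
  (PL.C (nat_lit 0x578e22965) (nat_lit 0x23db75ab70524) (nat_lit 0x0)
  (PL.C (nat_lit 0x5c5fe2555) (nat_lit 0x1466163d93578) (nat_lit 0x0)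
  (PL.C (nat_lit 0x5cf2c57eb) (nat_lit 0x41ef34acc82e) (nat_lit 0x0)
  (PL.C (nat_lit 0x5d2b73e43) (nat_lit 0x0) (nat_lit 0x860de81ec2cde)
  (PL.C (nat_lit 0x5ef127693) (nat_lit 0x947a4cf98db1) (nat_lit 0x0)
  (PL.C (nat_lit 0x66206f579) (nat_lit 0x0) (nat_lit 0x860de81ec2cde)
  (PL.C (nat_lit 0x67017e9ff) (nat_lit 0x1466163d93578) (nat_lit 0x0)
  (PL.C (nat_lit 0x6c9de3601) (nat_lit 0x7c888c3bc0ef) (nat_lit 0x0)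
  (PL.C (nat_lit 0x70db51411) (nat_lit 0x597ed58aaa8b0) (nat_lit 0x0)
  (PL.C (nat_lit 0x7427b3a89) (nat_lit 0x7c888c3bc0ef) (nat_lit 0x0)
  (PL.C (nat_lit 0x87bc4a05b) (nat_lit 0x41ef34acc82e) (nat_lit 0x0)
  (PL.C (nat_lit 0x8f34f386b) (nat_lit 0x13901183dced) (nat_lit 0x0)
  (PL.C (nat_lit 0x90708a5fd) (nat_lit 0x0) (nat_lit 0xd4c14008c7e4)
  (PL.C (nat_lit 0x9417cd981) (nat_lit 0x0) (nat_lit 0xd4c14008c7e4)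
  (PL.C (nat_lit 0x955e28fb7) (nat_lit 0x13901183dced) (nat_lit 0x0)
  (PL.C (nat_lit 0xa3a7082d9) (nat_lit 0x9975cf164d8f) (nat_lit 0x0) gp3_0_236))))))))))))))))))))

noncomputable def gp3_0_234 : PL :=
  (PL.C (nat_lit 0x3e24cef55) (nat_lit 0x194211232c201) (nat_lit 0x0)
  (PL.C (nat_lit 0x3e8b881fb) (nat_lit 0x76cce46392c0) (nat_lit 0x0)
  (PL.C (nat_lit 0x3f66b3257) (nat_lit 0x0) (nat_lit 0xe4e89ba328e7c)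
  (PL.C (nat_lit 0x3ff26b3b1) (nat_lit 0x27271f784f98b) (nat_lit 0x0)
  (PL.C (nat_lit 0x401929093) (nat_lit 0x23db75ab70524) (nat_lit 0x0)
  (PL.C (nat_lit 0x4118119a5) (nat_lit 0xf16c89234d6) (nat_lit 0x0)
  (PL.C (nat_lit 0x41907b845) (nat_lit 0x27271f784f98b) (nat_lit 0x0)
  (PL.C (nat_lit 0x41a784b73) (nat_lit 0x0) (nat_lit 0x32f74b00248a)
  (PL.C (nat_lit 0x4220f7fd3) (nat_lit 0x0) (nat_lit 0xe4e89ba328e7c)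
  (PL.C (nat_lit 0x425d38a89) (nat_lit 0x623682b913bb) (nat_lit 0x0)
  (PL.C (nat_lit 0x44a0e265b) (nat_lit 0x623682b913bb) (nat_lit 0x0)
  (PL.C (nat_lit 0x460ffd33f) (nat_lit 0x51acc8ac08fc8) (nat_lit 0x0)
  (PL.C (nat_lit 0x4873f48fd) (nat_lit 0x61a5cb10ba6a) (nat_lit 0x0)
  (PL.C (nat_lit 0x49169e031) (nat_lit 0x45a1dc7da5aa) (nat_lit 0x0)
  (PL.C (nat_lit 0x4d75864ab) (nat_lit 0x61a5cb10ba6a) (nat_lit 0x0)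
  (PL.C (nat_lit 0x4e90cb93b) (nat_lit 0x947a4cf98db1) (nat_lit 0x0)
  (PL.C (nat_lit 0x4f3b146ed) (nat_lit 0x0) (nat_lit 0x26ad868202c1f)
  (PL.C (nat_lit 0x4fbe0c3e3) (nat_lit 0x0) (nat_lit 0x32f74b00248a)
  (PL.C (nat_lit 0x4fe9aedeb) (nat_lit 0x387c741555e1) (nat_lit 0x0)
  (PL.C (nat_lit 0x501a18e41) (nat_lit 0x51acc8ac08fc8) (nat_lit 0x0) gp3_0_235))))))))))))))))))))

noncomputable def gp3_0_233 : PL :=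
  (PL.C (nat_lit 0x2d36c7e1d) (nat_lit 0x0) (nat_lit 0x72ae076121b67)
  (PL.C (nat_lit 0x2d6603e11) (nat_lit 0x547d95df60b86) (nat_lit 0x0)
  (PL.C (nat_lit 0x2d9a6b93b) (nat_lit 0x0) (nat_lit 0x1411711b8f229)
  (PL.C (nat_lit 0x2dc7d650b) (nat_lit 0x0) (nat_lit 0x197a89463ddf)
  (PL.C (nat_lit 0x2dca0faa7) (nat_lit 0x0) (nat_lit 0x422c1b11a6f55)
  (PL.C (nat_lit 0x2f252650f) (nat_lit 0x2a6cb54776ac3) (nat_lit 0x0)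
  (PL.C (nat_lit 0x2f53b6b83) (nat_lit 0x15860540c1669) (nat_lit 0x0)
  (PL.C (nat_lit 0x315f0a42f) (nat_lit 0x76cce46392c0) (nat_lit 0x0)
  (PL.C (nat_lit 0x31ba5e80f) (nat_lit 0xe689174d91e76) (nat_lit 0x0)
  (PL.C (nat_lit 0x31f6e4915) (nat_lit 0x85cffd1887a38) (nat_lit 0x0)
  (PL.C (nat_lit 0x331f63fd9) (nat_lit 0x10323ddb4975b) (nat_lit 0x0)
  (PL.C (nat_lit 0x3477175df) (nat_lit 0x387c741555e1) (nat_lit 0x0)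
  (PL.C (nat_lit 0x34eab5de9) (nat_lit 0x0) (nat_lit 0x26ad868202c1f)
  (PL.C (nat_lit 0x362e06763) (nat_lit 0x5b31cd261cac9) (nat_lit 0x0)
  (PL.C (nat_lit 0x36fdc5ccb) (nat_lit 0x0) (nat_lit 0x2867c535b0a5e)
  (PL.C (nat_lit 0x373d40439) (nat_lit 0xbac278345e18) (nat_lit 0x0)
  (PL.C (nat_lit 0x376b453f5) (nat_lit 0x0) (nat_lit 0x75fc96db56b75)
  (PL.C (nat_lit 0x3776f569d) (nat_lit 0x173395dde5480) (nat_lit 0x0)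
  (PL.C (nat_lit 0x37e5662a3) (nat_lit 0x16e0a54ffea1e) (nat_lit 0x0)
  (PL.C (nat_lit 0x3d3ddd92d) (nat_lit 0x5b31cd261cac9) (nat_lit 0x0) gp3_0_234))))))))))))))))))))

noncomputable def gp3_0_232 : PL :=
  (PL.C (nat_lit 0x272d33819) (nat_lit 0x0) (nat_lit 0x197a89463ddf)
  (PL.C (nat_lit 0x275af29f3) (nat_lit 0x3a931a21bf2c) (nat_lit 0x0)
  (PL.C (nat_lit 0x27caf435d) (nat_lit 0x194211232c201) (nat_lit 0x0)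
  (PL.C (nat_lit 0x28e57f269) (nat_lit 0x0) (nat_lit 0x1411711b8f229)
  (PL.C (nat_lit 0x293f9f18f) (nat_lit 0x0) (nat_lit 0x72ae076121b67)
  (PL.C (nat_lit 0x29b56fb21) (nat_lit 0x0) (nat_lit 0x1fa5dfa825e0b)
  (PL.C (nat_lit 0x29fd09c9b) (nat_lit 0x173395dde5480) (nat_lit 0x0)
  (PL.C (nat_lit 0x2a087c71f) (nat_lit 0x6667f15362945) (nat_lit 0x0)
  (PL.C (nat_lit 0x2a3fce225) (nat_lit 0x45a1dc7da5aa) (nat_lit 0x0)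
  (PL.C (nat_lit 0x2a5991c4d) (nat_lit 0x0) (nat_lit 0x2867c535b0a5e)
  (PL.C (nat_lit 0x2aa9a88a7) (nat_lit 0x0) (nat_lit 0x31be018aaf88a)
  (PL.C (nat_lit 0x2acec68b7) (nat_lit 0x15860540c1669) (nat_lit 0x0)
  (PL.C (nat_lit 0x2adae7cad) (nat_lit 0xfcb86e7cd550) (nat_lit 0x0)
  (PL.C (nat_lit 0x2b07acee1) (nat_lit 0x579ccd40d7db) (nat_lit 0x0)
  (PL.C (nat_lit 0x2b21bea23) (nat_lit 0x6939335692c17) (nat_lit 0x0)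
  (PL.C (nat_lit 0x2b77a0c9d) (nat_lit 0x5d866ef990f09) (nat_lit 0x0)
  (PL.C (nat_lit 0x2c58c77ef) (nat_lit 0x16e0a54ffea1e) (nat_lit 0x0)
  (PL.C (nat_lit 0x2cba81f59) (nat_lit 0x0) (nat_lit 0x75fc96db56b75)
  (PL.C (nat_lit 0x2d02d2af7) (nat_lit 0x0) (nat_lit 0x13f9b61d9333b)
  (PL.C (nat_lit 0x2d317b381) (nat_lit 0xbac278345e18) (nat_lit 0x0) gp3_0_233))))))))))))))))))))

noncomputable def gp3_0_231 : PL :=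
  (PL.C (nat_lit 0x226ed7473) (nat_lit 0x46814de1964fe) (nat_lit 0x0)
  (PL.C (nat_lit 0x22c86d267) (nat_lit 0x6667f15362945) (nat_lit 0x0)
  (PL.C (nat_lit 0x2313d0c61) (nat_lit 0x0) (nat_lit 0x1c419d36f9f50)
  (PL.C (nat_lit 0x23356b965) (nat_lit 0x153c7b209b195) (nat_lit 0x0)
  (PL.C (nat_lit 0x234dcc5af) (nat_lit 0x54b9a6c050fcc) (nat_lit 0x0)
  (PL.C (nat_lit 0x23768d005) (nat_lit 0x0) (nat_lit 0x13a2c362ad)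
  (PL.C (nat_lit 0x239b99399) (nat_lit 0x0) (nat_lit 0xf1b99866f965f)
  (PL.C (nat_lit 0x23b62dfd5) (nat_lit 0x10323ddb4975b) (nat_lit 0x0)
  (PL.C (nat_lit 0x24b779dbf) (nat_lit 0x14531526e35ac) (nat_lit 0x0)
  (PL.C (nat_lit 0x24f42b231) (nat_lit 0xb0bcc4ec6934) (nat_lit 0x0)
  (PL.C (nat_lit 0x250218391) (nat_lit 0x0) (nat_lit 0x1812688a7563c)
  (PL.C (nat_lit 0x2553a6927) (nat_lit 0x9629877d70fa0) (nat_lit 0x0)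
  (PL.C (nat_lit 0x25a5e8a61) (nat_lit 0x0) (nat_lit 0x1812688a7563c)
  (PL.C (nat_lit 0x25ff0ef13) (nat_lit 0x0) (nat_lit 0x422c1b11a6f55)
  (PL.C (nat_lit 0x2652cac15) (nat_lit 0x547d95df60b86) (nat_lit 0x0)
  (PL.C (nat_lit 0x26a73f183) (nat_lit 0x0) (nat_lit 0x13f9b61d9333b)
  (PL.C (nat_lit 0x26bcdac8f) (nat_lit 0x76406af44df45) (nat_lit 0x0)
  (PL.C (nat_lit 0x26c3492b9) (nat_lit 0x0) (nat_lit 0x2e8e6642079d7)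
  (PL.C (nat_lit 0x27035c4d7) (nat_lit 0x153c7b209b195) (nat_lit 0x0)
  (PL.C (nat_lit 0x271238db9) (nat_lit 0x76406af44df45) (nat_lit 0x0) gp3_0_232))))))))))))))))))))

noncomputable def gp3_0_230 : PL :=
  (PL.C (nat_lit 0x1d87cc0b5) (nat_lit 0x0) (nat_lit 0x193d688955702)
  (PL.C (nat_lit 0x1dbe8510b) (nat_lit 0x62532130d4da6) (nat_lit 0x0)
  (PL.C (nat_lit 0x1dcd4f6ab) (nat_lit 0x46814de1964fe) (nat_lit 0x0)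
  (PL.C (nat_lit 0x1dd74cabf) (nat_lit 0x0) (nat_lit 0xee957ee2df91a)
  (PL.C (nat_lit 0x1df9befb5) (nat_lit 0x5920d2a860296) (nat_lit 0x0)
  (PL.C (nat_lit 0x1e0efc5bd) (nat_lit 0x0) (nat_lit 0x2c4cf94601ca1)
  (PL.C (nat_lit 0x1e190fa09) (nat_lit 0x6366c0397af1b) (nat_lit 0x0)
  (PL.C (nat_lit 0x1e2a5f927) (nat_lit 0xb0bcc4ec6934) (nat_lit 0x0)
  (PL.C (nat_lit 0x1e622cc07) (nat_lit 0x0) (nat_lit 0xdd36c1227b33a)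
  (PL.C (nat_lit 0x1e85398b2) (nat_lit 0x0) (nat_lit 0x109cad59daed)
  (PL.C (nat_lit 0x1f04b377b) (nat_lit 0x0) (nat_lit 0x13a2c362ad)
  (PL.C (nat_lit 0x1fd8b8e91) (nat_lit 0x6939335692c17) (nat_lit 0x0)
  (PL.C (nat_lit 0x2013a22b1) (nat_lit 0x5eb9b143c5f21) (nat_lit 0x0)
  (PL.C (nat_lit 0x20eee3873) (nat_lit 0x0) (nat_lit 0x1fa5dfa825e0b)
  (PL.C (nat_lit 0x20f9ed767) (nat_lit 0x86333d7912a29) (nat_lit 0x0)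
  (PL.C (nat_lit 0x2176480df) (nat_lit 0x3da185a657b88) (nat_lit 0x0)
  (PL.C (nat_lit 0x21a2a2d8d) (nat_lit 0x5d866ef990f09) (nat_lit 0x0)
  (PL.C (nat_lit 0x21ad98111) (nat_lit 0x0) (nat_lit 0x5f187ec139f6)
  (PL.C (nat_lit 0x22239b8a5) (nat_lit 0x0) (nat_lit 0x2c4cf94601ca1)
  (PL.C (nat_lit 0x224b03f97) (nat_lit 0x5eb9b143c5f21) (nat_lit 0x0) gp3_0_231))))))))))))))))))))

noncomputable def gp3_0_229 : PL :=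
  (PL.C (nat_lit 0x18bf1ef6f) (nat_lit 0x671ee20a26afd) (nat_lit 0x0)
  (PL.C (nat_lit 0x1962c5dcd) (nat_lit 0x2c15b6f2d45a1) (nat_lit 0x0)
  (PL.C (nat_lit 0x197bd88a9) (nat_lit 0x7b4d081fd83dd) (nat_lit 0x0)
  (PL.C (nat_lit 0x19ab058e3) (nat_lit 0xfcb86e7cd550) (nat_lit 0x0)
  (PL.C (nat_lit 0x19ae96b97) (nat_lit 0x2651a673290a3) (nat_lit 0x0)
  (PL.C (nat_lit 0x1a1e22566) (nat_lit 0x0) (nat_lit 0x109cad59daed)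
  (PL.C (nat_lit 0x1ab909ebd) (nat_lit 0x2499404e9719e) (nat_lit 0x0)
  (PL.C (nat_lit 0x1ac6d06cd) (nat_lit 0xe0f67a6a0820b) (nat_lit 0x0)
  (PL.C (nat_lit 0x1ae76761f) (nat_lit 0x0) (nat_lit 0x8ae001f4a0761)
  (PL.C (nat_lit 0x1af3edb9b) (nat_lit 0x0) (nat_lit 0xe88e5f9058b0)
  (PL.C (nat_lit 0x1b0441f51) (nat_lit 0x0) (nat_lit 0x193d688955702)
  (PL.C (nat_lit 0x1b1cf97a1) (nat_lit 0x0) (nat_lit 0x8c5f4f425b779)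
  (PL.C (nat_lit 0x1c11ba4f3) (nat_lit 0x0) (nat_lit 0x40c0ac54a533e)
  (PL.C (nat_lit 0x1c60bc91f) (nat_lit 0x0) (nat_lit 0x2e8e6642079d7)
  (PL.C (nat_lit 0x1cd1973f9) (nat_lit 0x0) (nat_lit 0xf1b99866f965f)
  (PL.C (nat_lit 0x1d111977f) (nat_lit 0x54b9a6c050fcc) (nat_lit 0x0)
  (PL.C (nat_lit 0x1d22b58fd) (nat_lit 0x2a6cb54776ac3) (nat_lit 0x0)
  (PL.C (nat_lit 0x1d46de55f) (nat_lit 0x0) (nat_lit 0x40c0ac54a533e)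
  (PL.C (nat_lit 0x1d618b36d) (nat_lit 0x0) (nat_lit 0xdd36c1227b33a)
  (PL.C (nat_lit 0x1d6690bf7) (nat_lit 0x16cd0a80cc4a5e) (nat_lit 0x0) gp3_0_230))))))))))))))))))))

noncomputable def gp3_0_228 : PL :=
  (PL.C (nat_lit 0x167104aa1) (nat_lit 0x0) (nat_lit 0x5f187ec139f6)
  (PL.C (nat_lit 0x169a880c1) (nat_lit 0xe0f67a6a0820b) (nat_lit 0x0)
  (PL.C (nat_lit 0x16a21b9fd) (nat_lit 0x56a37a3b89406) (nat_lit 0x0)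
  (PL.C (nat_lit 0x16b60acdb) (nat_lit 0x0) (nat_lit 0x8ae001f4a0761)
  (PL.C (nat_lit 0x16f8e4995) (nat_lit 0x0) (nat_lit 0x64a46fbdaf26b)
  (PL.C (nat_lit 0x1713691e7) (nat_lit 0x57408d29dcbea) (nat_lit 0x0)
  (PL.C (nat_lit 0x172b84803) (nat_lit 0x21af95b0b42e) (nat_lit 0x0)
  (PL.C (nat_lit 0x17398e089) (nat_lit 0x0) (nat_lit 0x382de6223dd1e)
  (PL.C (nat_lit 0x17415bdd9) (nat_lit 0x0) (nat_lit 0x4a0fe47bb22cc)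
  (PL.C (nat_lit 0x1767ccbb7) (nat_lit 0x736288898ec7d) (nat_lit 0x0)
  (PL.C (nat_lit 0x176d75c4d) (nat_lit 0x0) (nat_lit 0x1c419d36f9f50)
  (PL.C (nat_lit 0x17d90a9f1) (nat_lit 0x579ccd40d7db) (nat_lit 0x0)
  (PL.C (nat_lit 0x17fc9972f) (nat_lit 0x0) (nat_lit 0x8c5f4f425b779)
  (PL.C (nat_lit 0x180d987c7) (nat_lit 0x0) (nat_lit 0x31be018aaf88a)
  (PL.C (nat_lit 0x18502a0c5) (nat_lit 0x14531526e35ac) (nat_lit 0x0)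
  (PL.C (nat_lit 0x185893037) (nat_lit 0x1d5362bdfeb58c) (nat_lit 0x0)
  (PL.C (nat_lit 0x1874ad7dd) (nat_lit 0x0) (nat_lit 0x8f47f357f0a41)
  (PL.C (nat_lit 0x18890d389) (nat_lit 0x0) (nat_lit 0x74bcbd784bf1c)
  (PL.C (nat_lit 0x188e39ed1) (nat_lit 0x0) (nat_lit 0x14e231709d3d78)
  (PL.C (nat_lit 0x18a08e92d) (nat_lit 0x86333d7912a29) (nat_lit 0x0) gp3_0_229))))))))))))))))))))

noncomputable def gp3_0_227 : PL :=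
  (PL.C (nat_lit 0x1445a4a83) (nat_lit 0x217b5330b3692) (nat_lit 0x0)
  (PL.C (nat_lit 0x1454c6b57) (nat_lit 0x0) (nat_lit 0xee957ee2df91a)
  (PL.C (nat_lit 0x1475a5959) (nat_lit 0x0) (nat_lit 0x74579a12356d0)
  (PL.C (nat_lit 0x148adaeaf) (nat_lit 0x62532130d4da6) (nat_lit 0x0)
  (PL.C (nat_lit 0x148d0b475) (nat_lit 0x2651a673290a3) (nat_lit 0x0)
  (PL.C (nat_lit 0x148d43953) (nat_lit 0x4926430153eb0) (nat_lit 0x0)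
  (PL.C (nat_lit 0x14a2bbf1f) (nat_lit 0x1dc0990a89891d) (nat_lit 0x0)
  (PL.C (nat_lit 0x14ba8dfd5) (nat_lit 0x0) (nat_lit 0xc29c7d3c0fa97)
  (PL.C (nat_lit 0x14d035aa9) (nat_lit 0x0) (nat_lit 0x74579a12356d0)
  (PL.C (nat_lit 0x14dbd844d) (nat_lit 0x0) (nat_lit 0x5da090011c75b)
  (PL.C (nat_lit 0x14df4ec8b) (nat_lit 0x1718efba78a5d) (nat_lit 0x0)
  (PL.C (nat_lit 0x14f3ec3cf) (nat_lit 0x0) (nat_lit 0x2068317ccff72e)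
  (PL.C (nat_lit 0x14f5b15a5) (nat_lit 0x0) (nat_lit 0x2ed9f2360dccc)
  (PL.C (nat_lit 0x1509cfd8b) (nat_lit 0x0) (nat_lit 0x127da55aa281ab)
  (PL.C (nat_lit 0x15b23aab3) (nat_lit 0x5920d2a860296) (nat_lit 0x0)
  (PL.C (nat_lit 0x16056bd9b) (nat_lit 0x0) (nat_lit 0xc29c7d3c0fa97)
  (PL.C (nat_lit 0x161d09d95) (nat_lit 0x0) (nat_lit 0xe88e5f9058b0)
  (PL.C (nat_lit 0x161ed7529) (nat_lit 0x9533653a007156) (nat_lit 0x0)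
  (PL.C (nat_lit 0x1635f334d) (nat_lit 0x4926430153eb0) (nat_lit 0x0)
  (PL.C (nat_lit 0x164dc5403) (nat_lit 0x2499404e9719e) (nat_lit 0x0) gp3_0_228))))))))))))))))))))

noncomputable def gp3_0_226 : PL :=
  (PL.C (nat_lit 0x12f3b7cd3) (nat_lit 0x0) (nat_lit 0x2068317ccff72e)
  (PL.C (nat_lit 0x12f56150f) (nat_lit 0x0) (nat_lit 0x2c4ba8d72d7a7)
  (PL.C (nat_lit 0x130281bad) (nat_lit 0x0) (nat_lit 0x22f8b1fc4f4c)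
  (PL.C (nat_lit 0x130c6498b) (nat_lit 0x369b5835486b) (nat_lit 0x0)
  (PL.C (nat_lit 0x1318734ef) (nat_lit 0x0) (nat_lit 0xdb06a8f527ba6)
  (PL.C (nat_lit 0x131b214b1) (nat_lit 0x3362f2a533b2a) (nat_lit 0x0)
  (PL.C (nat_lit 0x132c6632b) (nat_lit 0x14caab98b0e8d) (nat_lit 0x0)
  (PL.C (nat_lit 0x1334466cb) (nat_lit 0x3a931a21bf2c) (nat_lit 0x0)
  (PL.C (nat_lit 0x137542f99) (nat_lit 0x7b4d081fd83dd) (nat_lit 0x0)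
  (PL.C (nat_lit 0x13a2272eb) (nat_lit 0x671ee20a26afd) (nat_lit 0x0)
  (PL.C (nat_lit 0x13afdd5ce) (nat_lit 0x0) (nat_lit 0x1b46c99e6422)
  (PL.C (nat_lit 0x13c5419dd) (nat_lit 0xb7f0a0077d25e) (nat_lit 0x0)
  (PL.C (nat_lit 0x13cd6b77d) (nat_lit 0x0) (nat_lit 0x74bcbd784bf1c)
  (PL.C (nat_lit 0x13ed6f813) (nat_lit 0x4345e15aa01a1) (nat_lit 0x0)
  (PL.C (nat_lit 0x140217a45) (nat_lit 0x0) (nat_lit 0x8f47f357f0a41)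
  (PL.C (nat_lit 0x140470451) (nat_lit 0x0) (nat_lit 0x3a8db98ceb2980)
  (PL.C (nat_lit 0x141959b15) (nat_lit 0x0) (nat_lit 0x1b07312f1efe09)
  (PL.C (nat_lit 0x14285aae1) (nat_lit 0x6366c0397af1b) (nat_lit 0x0)
  (PL.C (nat_lit 0x14308d267) (nat_lit 0x0) (nat_lit 0xb70f6b1840869)
  (PL.C (nat_lit 0x1444a8977) (nat_lit 0xfe6aa2909cf8) (nat_lit 0x0) gp3_0_227))))))))))))))))))))

noncomputable def gp3_0_225 : PL :=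
  (PL.C (nat_lit 0x1162bfe25) (nat_lit 0x0) (nat_lit 0x78845548f3ea3)
  (PL.C (nat_lit 0x119ba9441) (nat_lit 0x0) (nat_lit 0x127da55aa281ab)
  (PL.C (nat_lit 0x119e959f7) (nat_lit 0x0) (nat_lit 0x422c826a99931)
  (PL.C (nat_lit 0x11bbb5979) (nat_lit 0x0) (nat_lit 0x2c4ba8d72d7a7)
  (PL.C (nat_lit 0x11c276ef7) (nat_lit 0x0) (nat_lit 0x5da090011c75b)
  (PL.C (nat_lit 0x11d0b147e) (nat_lit 0x0) (nat_lit 0x113f3a315a8c3)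
  (PL.C (nat_lit 0x11f39d955) (nat_lit 0x3c83881de0887e) (nat_lit 0x0)
  (PL.C (nat_lit 0x11f7f3d12) (nat_lit 0x0) (nat_lit 0x14856e3f3c30)
  (PL.C (nat_lit 0x1202d6a36) (nat_lit 0x0) (nat_lit 0x1b46c99e6422)
  (PL.C (nat_lit 0x12049cf3d) (nat_lit 0xc304d6891630) (nat_lit 0x0)
  (PL.C (nat_lit 0x12166f013) (nat_lit 0x3da185a657b88) (nat_lit 0x0)
  (PL.C (nat_lit 0x121b1a2cd) (nat_lit 0x0) (nat_lit 0xb70f6b1840869)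
  (PL.C (nat_lit 0x124300b0b) (nat_lit 0x0) (nat_lit 0x3a8db98ceb2980)
  (PL.C (nat_lit 0x127729865) (nat_lit 0x7eaf0d232105f) (nat_lit 0x0)
  (PL.C (nat_lit 0x1296dcb47) (nat_lit 0x0) (nat_lit 0x14e231709d3d78)
  (PL.C (nat_lit 0x129bee2db) (nat_lit 0xc90383de5a) (nat_lit 0x0)
  (PL.C (nat_lit 0x12a188cc9) (nat_lit 0x369b5835486b) (nat_lit 0x0)
  (PL.C (nat_lit 0x12bab0ed5) (nat_lit 0x3362f2a533b2a) (nat_lit 0x0)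
  (PL.C (nat_lit 0x12bfd3f41) (nat_lit 0x1d5362bdfeb58c) (nat_lit 0x0)
  (PL.C (nat_lit 0x12e349083) (nat_lit 0x0) (nat_lit 0xc1e85e0f2a5e) gp3_0_226))))))))))))))))))))

noncomputable def gp3_0_224 : PL :=
  (PL.C (nat_lit 0x100c17121) (nat_lit 0x8d7508356a3e3) (nat_lit 0x0)
  (PL.C (nat_lit 0x1011780dd) (nat_lit 0x0) (nat_lit 0x75908226e3eda)
  (PL.C (nat_lit 0x101e9d2eb) (nat_lit 0x33eb5d206ca3b) (nat_lit 0x0)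
  (PL.C (nat_lit 0x1024045ff) (nat_lit 0x0) (nat_lit 0x21db7d2ca9be53)
  (PL.C (nat_lit 0x102f74317) (nat_lit 0x0) (nat_lit 0xb15f071b112fc)
  (PL.C (nat_lit 0x1034e107b) (nat_lit 0x11f7877353741) (nat_lit 0x0)
  (PL.C (nat_lit 0x104160bfb) (nat_lit 0x0) (nat_lit 0x19a110a78b582b)
  (PL.C (nat_lit 0x104427fc1) (nat_lit 0x0) (nat_lit 0x725147eaa71a6)
  (PL.C (nat_lit 0x105c3f7b5) (nat_lit 0x0) (nat_lit 0x116806006533fa)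
  (PL.C (nat_lit 0x108685303) (nat_lit 0x3482a52496fb21) (nat_lit 0x0)
  (PL.C (nat_lit 0x10b3c3191) (nat_lit 0x33eb5d206ca3b) (nat_lit 0x0)
  (PL.C (nat_lit 0x10c5acbff) (nat_lit 0x0) (nat_lit 0x2ed9f2360dccc)
  (PL.C (nat_lit 0x10d26819f) (nat_lit 0x217b5330b3692) (nat_lit 0x0)
  (PL.C (nat_lit 0x10f77a429) (nat_lit 0x0) (nat_lit 0x1b07312f1efe09)
  (PL.C (nat_lit 0x111cde1cf) (nat_lit 0x4345e15aa01a1) (nat_lit 0x0)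
  (PL.C (nat_lit 0x11266f20b) (nat_lit 0x454cac4c7db108) (nat_lit 0x0)
  (PL.C (nat_lit 0x113cc3583) (nat_lit 0x0) (nat_lit 0x2d57934867903)
  (PL.C (nat_lit 0x1145a6173) (nat_lit 0x0) (nat_lit 0x1577aed7f5fe)
  (PL.C (nat_lit 0x114c3a75d) (nat_lit 0x454cac4c7db108) (nat_lit 0x0)
  (PL.C (nat_lit 0x11582c33d) (nat_lit 0xfe6aa2909cf8) (nat_lit 0x0) gp3_0_225))))))))))))))))))))

noncomputable def gp3_0_223 : PL :=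
  (PL.C (nat_lit 0xea91af6d) (nat_lit 0x0) (nat_lit 0x2042c6a9b2538)
  (PL.C (nat_lit 0xebe0690e) (nat_lit 0x0) (nat_lit 0x14856e3f3c30)
  (PL.C (nat_lit 0xede83802) (nat_lit 0x0) (nat_lit 0x113f3a315a8c3)
  (PL.C (nat_lit 0xf1d3cef9) (nat_lit 0x13a41ecf90c4d5) (nat_lit 0x0)
  (PL.C (nat_lit 0xf3feb8ed) (nat_lit 0x0) (nat_lit 0x78845548f3ea3)
  (PL.C (nat_lit 0xf47c7ffd) (nat_lit 0x0) (nat_lit 0x422c826a99931)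
  (PL.C (nat_lit 0xf49ecee3) (nat_lit 0x736288898ec7d) (nat_lit 0x0)
  (PL.C (nat_lit 0xf6186beb) (nat_lit 0x0) (nat_lit 0x2d57934867903)
  (PL.C (nat_lit 0xf6635143) (nat_lit 0xc90383de5a) (nat_lit 0x0)
  (PL.C (nat_lit 0xf848c84b) (nat_lit 0x0) (nat_lit 0xb15f071b112fc)
  (PL.C (nat_lit 0xf96762b9) (nat_lit 0x0) (nat_lit 0x1577aed7f5fe)
  (PL.C (nat_lit 0xfa6bef1d) (nat_lit 0x8d7508356a3e3) (nat_lit 0x0)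
  (PL.C (nat_lit 0xfbb969ad) (nat_lit 0x116d0e79a326a5) (nat_lit 0x0)
  (PL.C (nat_lit 0xfc3b2cbd) (nat_lit 0x0) (nat_lit 0x21650e3591326)
  (PL.C (nat_lit 0xfcf776e9) (nat_lit 0x56a37a3b89406) (nat_lit 0x0)
  (PL.C (nat_lit 0xfd20fe27) (nat_lit 0x305830ee3f646) (nat_lit 0x0)
  (PL.C (nat_lit 0xfd4c4185) (nat_lit 0x3cba4bd816eee) (nat_lit 0x0)
  (PL.C (nat_lit 0xfde4252b) (nat_lit 0x0) (nat_lit 0x37aa9533afd43)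
  (PL.C (nat_lit 0xff1bbfcf) (nat_lit 0x87ff0aa070dc) (nat_lit 0x0)
  (PL.C (nat_lit 0x100420441) (nat_lit 0x0) (nat_lit 0xa691c53d37f36) gp3_0_224))))))))))))))))))))

noncomputable def gp3_0_222 : PL :=
  (PL.C (nat_lit 0xd455ae49) (nat_lit 0x0) (nat_lit 0x1e41889f4e8d5b)
  (PL.C (nat_lit 0xd4ec2271) (nat_lit 0x13a41ecf90c4d5) (nat_lit 0x0)
  (PL.C (nat_lit 0xd53380ed) (nat_lit 0x34d6c9ffe1d567) (nat_lit 0x0)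
  (PL.C (nat_lit 0xd5ae2303) (nat_lit 0x0) (nat_lit 0x116806006533fa)
  (PL.C (nat_lit 0xd5d2a859) (nat_lit 0x3cba4bd816eee) (nat_lit 0x0)
  (PL.C (nat_lit 0xd7396963) (nat_lit 0x0) (nat_lit 0x39699d4bf724bf)
  (PL.C (nat_lit 0xd831b0fa) (nat_lit 0x219239ccfad33) (nat_lit 0x0)
  (PL.C (nat_lit 0xd851a09b) (nat_lit 0x575545f4d809) (nat_lit 0x0)
  (PL.C (nat_lit 0xdcf88b49) (nat_lit 0x305830ee3f646) (nat_lit 0x0)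
  (PL.C (nat_lit 0xdd429c65) (nat_lit 0x218182a1b83e57) (nat_lit 0x0)
  (PL.C (nat_lit 0xdf920e6e) (nat_lit 0xb86efb26f210) (nat_lit 0x0)
  (PL.C (nat_lit 0xe1968d95) (nat_lit 0x0) (nat_lit 0xdb06a8f527ba6)
  (PL.C (nat_lit 0xe2d46c0f) (nat_lit 0x0) (nat_lit 0x2042c6a9b2538)
  (PL.C (nat_lit 0xe63a2e17) (nat_lit 0x189df07669490) (nat_lit 0x0)
  (PL.C (nat_lit 0xe6b0dc47) (nat_lit 0xcee7e48cf6b0) (nat_lit 0x0)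
  (PL.C (nat_lit 0xe743f07d) (nat_lit 0x0) (nat_lit 0x5af0af242ded7)
  (PL.C (nat_lit 0xe79c869f) (nat_lit 0x0) (nat_lit 0x382de6223dd1e)
  (PL.C (nat_lit 0xe83589f1) (nat_lit 0x0) (nat_lit 0x169a17940c9a6)
  (PL.C (nat_lit 0xe948f87f) (nat_lit 0x7eaf0d232105f) (nat_lit 0x0)
  (PL.C (nat_lit 0xe9972a43) (nat_lit 0x763596410b5d4) (nat_lit 0x0) gp3_0_223))))))))))))))))))))

noncomputable def gp3_0_221 : PL :=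
  (PL.C (nat_lit 0xc6ce9d55) (nat_lit 0x9ea6dcecb4da) (nat_lit 0x0)
  (PL.C (nat_lit 0xc79e4e29) (nat_lit 0x0) (nat_lit 0xd6a3b9204e58)
  (PL.C (nat_lit 0xc7b679a1) (nat_lit 0x0) (nat_lit 0x37aa9533afd43)
  (PL.C (nat_lit 0xc85a79eb) (nat_lit 0x0) (nat_lit 0x13ce6a02454017)
  (PL.C (nat_lit 0xc96e9697) (nat_lit 0x116d0e79a326a5) (nat_lit 0x0)
  (PL.C (nat_lit 0xc9a5a8c5) (nat_lit 0x0) (nat_lit 0x3958eca520b16)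
  (PL.C (nat_lit 0xc9d66cc7) (nat_lit 0x87ff0aa070dc) (nat_lit 0x0)
  (PL.C (nat_lit 0xcb2edbb2) (nat_lit 0x0) (nat_lit 0x2116b1f51d9c2)
  (PL.C (nat_lit 0xcc23d69d) (nat_lit 0x0) (nat_lit 0x21650e3591326)
  (PL.C (nat_lit 0xce6272b1) (nat_lit 0x1718efba78a5d) (nat_lit 0x0)
  (PL.C (nat_lit 0xcea7a02d) (nat_lit 0x0) (nat_lit 0x2f0f17214d85a)
  (PL.C (nat_lit 0xd01f8ae1) (nat_lit 0x0) (nat_lit 0x39699d4bf724bf)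
  (PL.C (nat_lit 0xd12e8349) (nat_lit 0xaf3885f9de955) (nat_lit 0x0)
  (PL.C (nat_lit 0xd19734b7) (nat_lit 0x14caab98b0e8d) (nat_lit 0x0)
  (PL.C (nat_lit 0xd1c00645) (nat_lit 0x436b4017adf99) (nat_lit 0x0)
  (PL.C (nat_lit 0xd2b22577) (nat_lit 0x0) (nat_lit 0x86e4f4eb267b5)
  (PL.C (nat_lit 0xd361acfb) (nat_lit 0x0) (nat_lit 0x3c15ae7604545)
  (PL.C (nat_lit 0xd3651651) (nat_lit 0x0) (nat_lit 0x22f8b1fc4f4c)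
  (PL.C (nat_lit 0xd38e41d3) (nat_lit 0xca0ef176e7e2f) (nat_lit 0x0)
  (PL.C (nat_lit 0xd3e52873) (nat_lit 0x2c15b6f2d45a1) (nat_lit 0x0) gp3_0_222))))))))))))))))))))

noncomputable def gp3_0_220 : PL :=
  (PL.C (nat_lit 0xb5ebb333) (nat_lit 0x0) (nat_lit 0x30e5935f4c6f50)
  (PL.C (nat_lit 0xb7dd7902) (nat_lit 0x2698b10e6b0ec) (nat_lit 0x0)
  (PL.C (nat_lit 0xb901d77e) (nat_lit 0x219239ccfad33) (nat_lit 0x0)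
  (PL.C (nat_lit 0xb90f8407) (nat_lit 0x575545f4d809) (nat_lit 0x0)
  (PL.C (nat_lit 0xb972a96e) (nat_lit 0x0) (nat_lit 0x5c3c33e0163e2)
  (PL.C (nat_lit 0xbaad3fad) (nat_lit 0x57408d29dcbea) (nat_lit 0x0)
  (PL.C (nat_lit 0xbd4b1f71) (nat_lit 0x0) (nat_lit 0x187ad60de63fe0)
  (PL.C (nat_lit 0xbe938ddb) (nat_lit 0x30246641a14e9a) (nat_lit 0x0)
  (PL.C (nat_lit 0xbeec4647) (nat_lit 0x554c3d1594d73) (nat_lit 0x0)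
  (PL.C (nat_lit 0xbf5ff155) (nat_lit 0xaf3885f9de955) (nat_lit 0x0)
  (PL.C (nat_lit 0xc00f06e5) (nat_lit 0xe7851e749c08d) (nat_lit 0x0)
  (PL.C (nat_lit 0xc2bd31a3) (nat_lit 0x32827dbf1e16f3) (nat_lit 0x0)
  (PL.C (nat_lit 0xc2fe77d7) (nat_lit 0x5c1f6f0b0378f) (nat_lit 0x0)
  (PL.C (nat_lit 0xc3aa35b1) (nat_lit 0x0) (nat_lit 0x29e4ff59690b24)
  (PL.C (nat_lit 0xc5296d39) (nat_lit 0x0) (nat_lit 0x4a0fe47bb22cc)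
  (PL.C (nat_lit 0xc52fd08f) (nat_lit 0x0) (nat_lit 0x2f0f17214d85a)
  (PL.C (nat_lit 0xc56fe815) (nat_lit 0x0) (nat_lit 0x10a5baf2daeab2)
  (PL.C (nat_lit 0xc5ea279f) (nat_lit 0x0) (nat_lit 0x48b52e08d5a84)
  (PL.C (nat_lit 0xc623ccaf) (nat_lit 0x0) (nat_lit 0x28a029fa91ab)
  (PL.C (nat_lit 0xc6bb0886) (nat_lit 0x0) (nat_lit 0x2116b1f51d9c2) gp3_0_221))))))))))))))))))))

noncomputable def gp3_0_219 : PL :=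
  (PL.C (nat_lit 0xac750253) (nat_lit 0x1e103343f499db) (nat_lit 0x0)
  (PL.C (nat_lit 0xad19aac1) (nat_lit 0x0) (nat_lit 0x5af0af242ded7)
  (PL.C (nat_lit 0xad292c1f) (nat_lit 0x53386a6c4cb0f) (nat_lit 0x0)
  (PL.C (nat_lit 0xad704d3f) (nat_lit 0x21af95b0b42e) (nat_lit 0x0)
  (PL.C (nat_lit 0xadf10ed5) (nat_lit 0x0) (nat_lit 0x84fc85ab90d88)
  (PL.C (nat_lit 0xae72e7a1) (nat_lit 0x763596410b5d4) (nat_lit 0x0)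
  (PL.C (nat_lit 0xae9e4a05) (nat_lit 0xed1e7d21126b) (nat_lit 0x0)
  (PL.C (nat_lit 0xaea6c5a9) (nat_lit 0x0) (nat_lit 0x22c7ef0c6da7b)
  (PL.C (nat_lit 0xaeee8389) (nat_lit 0x0) (nat_lit 0x64a46fbdaf26b)
  (PL.C (nat_lit 0xaf4b686b) (nat_lit 0x233fc7e9c2b830) (nat_lit 0x0)
  (PL.C (nat_lit 0xb0d2a62b) (nat_lit 0xb7f0a0077d25e) (nat_lit 0x0)
  (PL.C (nat_lit 0xb10fd019) (nat_lit 0x4b9efc8ae78f7b) (nat_lit 0x0)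
  (PL.C (nat_lit 0xb1dc3393) (nat_lit 0x0) (nat_lit 0x1c3ef192ee0bdc)
  (PL.C (nat_lit 0xb2706027) (nat_lit 0x11390e378887f) (nat_lit 0x0)
  (PL.C (nat_lit 0xb296025f) (nat_lit 0x0) (nat_lit 0x213d29e0cdc893)
  (PL.C (nat_lit 0xb2e732aa) (nat_lit 0xb86efb26f210) (nat_lit 0x0)
  (PL.C (nat_lit 0xb3d2a6c1) (nat_lit 0x1d8c86e8fff04) (nat_lit 0x0)
  (PL.C (nat_lit 0xb3f99b61) (nat_lit 0x5069a1ce779fe) (nat_lit 0x0)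
  (PL.C (nat_lit 0xb484420d) (nat_lit 0x68b76281e47cb9) (nat_lit 0x0)
  (PL.C (nat_lit 0xb49381cf) (nat_lit 0x0) (nat_lit 0x21e6d58993107) gp3_0_220))))))))))))))))))))

noncomputable def gp3_0_218 : PL :=
  (PL.C (nat_lit 0xa2359a8d) (nat_lit 0x189df07669490) (nat_lit 0x0)
  (PL.C (nat_lit 0xa2a9d09e) (nat_lit 0x0) (nat_lit 0x5c3c33e0163e2)
  (PL.C (nat_lit 0xa2b9d7a9) (nat_lit 0x0) (nat_lit 0x652c9dd872087)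
  (PL.C (nat_lit 0xa3476a99) (nat_lit 0x0) (nat_lit 0x45ac98ea3b358f)
  (PL.C (nat_lit 0xa3f68777) (nat_lit 0x0) (nat_lit 0x28a029fa91ab)
  (PL.C (nat_lit 0xa41047f2) (nat_lit 0x2698b10e6b0ec) (nat_lit 0x0)
  (PL.C (nat_lit 0xa463dd6f) (nat_lit 0xcee7e48cf6b0) (nat_lit 0x0)
  (PL.C (nat_lit 0xa483e16d) (nat_lit 0x0) (nat_lit 0x189ce70b3d52f)
  (PL.C (nat_lit 0xa49af773) (nat_lit 0x7f59ab546724e) (nat_lit 0x0)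
  (PL.C (nat_lit 0xa6a739a9) (nat_lit 0x0) (nat_lit 0x725147eaa71a6)
  (PL.C (nat_lit 0xa7d0f11e) (nat_lit 0x70eced23b3486) (nat_lit 0x0)
  (PL.C (nat_lit 0xa9263de1) (nat_lit 0x5069a1ce779fe) (nat_lit 0x0)
  (PL.C (nat_lit 0xa942c372) (nat_lit 0x0) (nat_lit 0x59f1471ef903)
  (PL.C (nat_lit 0xa9e97f2b) (nat_lit 0xe7851e749c08d) (nat_lit 0x0)
  (PL.C (nat_lit 0xaa54ab77) (nat_lit 0x357f97fe4a506) (nat_lit 0x0)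
  (PL.C (nat_lit 0xaa61e423) (nat_lit 0x0) (nat_lit 0xc1e85e0f2a5e)
  (PL.C (nat_lit 0xaa9b0057) (nat_lit 0x11390e378887f) (nat_lit 0x0)
  (PL.C (nat_lit 0xabaed459) (nat_lit 0x0) (nat_lit 0x62d7d80ac5f15)
  (PL.C (nat_lit 0xac396f99) (nat_lit 0x0) (nat_lit 0x19a110a78b582b)
  (PL.C (nat_lit 0xac60cbaf) (nat_lit 0x0) (nat_lit 0x1c3ef192ee0bdc) gp3_0_219))))))))))))))))))))

noncomputable def gp3_0_217 : PL :=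
  (PL.C (nat_lit 0x99018a85) (nat_lit 0xc6721460a2f8c) (nat_lit 0x0)
  (PL.C (nat_lit 0x997c1eba) (nat_lit 0x0) (nat_lit 0x15d7ce3fbed77)
  (PL.C (nat_lit 0x99afe3bf) (nat_lit 0x0) (nat_lit 0x1e41889f4e8d5b)
  (PL.C (nat_lit 0x9a2d4afe) (nat_lit 0x0) (nat_lit 0x12a4e044789b9)
  (PL.C (nat_lit 0x9aa8fedf) (nat_lit 0x45ab2190be86b) (nat_lit 0x0)
  (PL.C (nat_lit 0x9ace5bf6) (nat_lit 0x8c4f0b1f57d6) (nat_lit 0x0)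
  (PL.C (nat_lit 0x9b3b6f97) (nat_lit 0x34376fe0a5cf7) (nat_lit 0x0)
  (PL.C (nat_lit 0x9bfd3047) (nat_lit 0x65147ce7f8a8) (nat_lit 0x0)
  (PL.C (nat_lit 0x9c611f9e) (nat_lit 0x0) (nat_lit 0x3123df3865c0)
  (PL.C (nat_lit 0x9ca47ba9) (nat_lit 0x554c3d1594d73) (nat_lit 0x0)
  (PL.C (nat_lit 0x9d54f241) (nat_lit 0x743d5ca7fb3fd) (nat_lit 0x0)
  (PL.C (nat_lit 0x9dca64dd) (nat_lit 0x0) (nat_lit 0x21db7d2ca9be53)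
  (PL.C (nat_lit 0x9dfdae4f) (nat_lit 0x0) (nat_lit 0x187ad60de63fe0)
  (PL.C (nat_lit 0x9f16520f) (nat_lit 0x0) (nat_lit 0x9450736cec4b7)
  (PL.C (nat_lit 0xa0276d75) (nat_lit 0x0) (nat_lit 0x213d29e0cdc893)
  (PL.C (nat_lit 0xa05317b1) (nat_lit 0x0) (nat_lit 0x22976ce974e5d4)
  (PL.C (nat_lit 0xa0d3305b) (nat_lit 0x0) (nat_lit 0x169a17940c9a6)
  (PL.C (nat_lit 0xa0e04c87) (nat_lit 0x30246641a14e9a) (nat_lit 0x0)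
  (PL.C (nat_lit 0xa1885d23) (nat_lit 0x4b9efc8ae78f7b) (nat_lit 0x0)
  (PL.C (nat_lit 0xa1c2fc05) (nat_lit 0x7d72cf9bde1bc) (nat_lit 0x0) gp3_0_218))))))))))))))))))))

noncomputable def gp3_0_216 : PL :=
  (PL.C (nat_lit 0x92d576e9) (nat_lit 0x65147ce7f8a8) (nat_lit 0x0)
  (PL.C (nat_lit 0x9367b2d9) (nat_lit 0x170a746b881a4) (nat_lit 0x0)
  (PL.C (nat_lit 0x936edc0d) (nat_lit 0x20fb8ac1eb08eb) (nat_lit 0x0)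
  (PL.C (nat_lit 0x93c14741) (nat_lit 0x911874c4d94d02) (nat_lit 0x0)
  (PL.C (nat_lit 0x93dceaf9) (nat_lit 0x0) (nat_lit 0x75908226e3eda)
  (PL.C (nat_lit 0x946bd64b) (nat_lit 0x37269784513155) (nat_lit 0x0)
  (PL.C (nat_lit 0x94785ff9) (nat_lit 0x1e155f7cfd7ab4) (nat_lit 0x0)
  (PL.C (nat_lit 0x9481a6a9) (nat_lit 0x23cfbe25cbb44) (nat_lit 0x0)
  (PL.C (nat_lit 0x94ce3479) (nat_lit 0x0) (nat_lit 0xbde0fa792fc5)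
  (PL.C (nat_lit 0x9506e3f7) (nat_lit 0x0) (nat_lit 0xd6515790f8ecaf)
  (PL.C (nat_lit 0x952d13c3) (nat_lit 0x0) (nat_lit 0x71e94a7f771b6)
  (PL.C (nat_lit 0x95663821) (nat_lit 0x0) (nat_lit 0xa691c53d37f36)
  (PL.C (nat_lit 0x956dcb97) (nat_lit 0x170a746b881a4) (nat_lit 0x0)
  (PL.C (nat_lit 0x9576237b) (nat_lit 0x218182a1b83e57) (nat_lit 0x0)
  (PL.C (nat_lit 0x95c8eb4f) (nat_lit 0x0) (nat_lit 0x3c75cd371d6f6)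
  (PL.C (nat_lit 0x9738480a) (nat_lit 0x0) (nat_lit 0x3123df3865c0)
  (PL.C (nat_lit 0x97796b23) (nat_lit 0x0) (nat_lit 0x10a5baf2daeab2)
  (PL.C (nat_lit 0x97b33c23) (nat_lit 0xc6721460a2f8c) (nat_lit 0x0)
  (PL.C (nat_lit 0x97cc6b85) (nat_lit 0x0) (nat_lit 0x10617d020eb1b1)
  (PL.C (nat_lit 0x98625901) (nat_lit 0x0) (nat_lit 0x45ac98ea3b358f) gp3_0_217))))))))))))))))))))

noncomputable def gp3_0_215 : PL :=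
  (PL.C (nat_lit 0x8a40c6c3) (nat_lit 0x0) (nat_lit 0x377b149bbf7f3)
  (PL.C (nat_lit 0x8ae05de1) (nat_lit 0x0) (nat_lit 0x24af99de21cd20)
  (PL.C (nat_lit 0x8b0eea9d) (nat_lit 0x42f69ad2e29f3) (nat_lit 0x0)
  (PL.C (nat_lit 0x8b1336d7) (nat_lit 0x233fc7e9c2b830) (nat_lit 0x0)
  (PL.C (nat_lit 0x8b7172e5) (nat_lit 0x0) (nat_lit 0x822bbdc16b644)
  (PL.C (nat_lit 0x8b745786) (nat_lit 0x12e2b8a8609642) (nat_lit 0x0)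
  (PL.C (nat_lit 0x8c0bdf11) (nat_lit 0x1bc6785498959b) (nat_lit 0x0)
  (PL.C (nat_lit 0x8c23cea3) (nat_lit 0x0) (nat_lit 0x2e0dc7d9f2cb9a)
  (PL.C (nat_lit 0x8cf35dff) (nat_lit 0x0) (nat_lit 0x8813545b7b91f)
  (PL.C (nat_lit 0x8e5f8f29) (nat_lit 0x0) (nat_lit 0x14e19a782335a6)
  (PL.C (nat_lit 0x8ec9d725) (nat_lit 0x34d6c9ffe1d567) (nat_lit 0x0)
  (PL.C (nat_lit 0x900481f3) (nat_lit 0x0) (nat_lit 0x3c15ae7604545)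
  (PL.C (nat_lit 0x90366b12) (nat_lit 0x0) (nat_lit 0x5e5af9a1d1264)
  (PL.C (nat_lit 0x90ed597d) (nat_lit 0x20fb8ac1eb08eb) (nat_lit 0x0)
  (PL.C (nat_lit 0x918394ab) (nat_lit 0x0) (nat_lit 0x86e4f4eb267b5)
  (PL.C (nat_lit 0x91931609) (nat_lit 0x0) (nat_lit 0x30e5935f4c6f50)
  (PL.C (nat_lit 0x9194a4df) (nat_lit 0x743d5ca7fb3fd) (nat_lit 0x0)
  (PL.C (nat_lit 0x922cbadb) (nat_lit 0x0) (nat_lit 0x6551f82f695c28)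
  (PL.C (nat_lit 0x92509eb1) (nat_lit 0x7d72cf9bde1bc) (nat_lit 0x0)
  (PL.C (nat_lit 0x9299d94f) (nat_lit 0x11f7877353741) (nat_lit 0x0) gp3_0_216))))))))))))))))))))

noncomputable def gp3_0_214 : PL :=
  (PL.C (nat_lit 0x8417ddca) (nat_lit 0x0) (nat_lit 0xed466393141df)
  (PL.C (nat_lit 0x84676119) (nat_lit 0x0) (nat_lit 0x2973be752335bc)
  (PL.C (nat_lit 0x84aba1e9) (nat_lit 0x0) (nat_lit 0x1294beec4c531a)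
  (PL.C (nat_lit 0x84d00505) (nat_lit 0x1e103343f499db) (nat_lit 0x0)
  (PL.C (nat_lit 0x85245116) (nat_lit 0x0) (nat_lit 0x59f1471ef903)
  (PL.C (nat_lit 0x858b295f) (nat_lit 0x0) (nat_lit 0x2973be752335bc)
  (PL.C (nat_lit 0x863f965f) (nat_lit 0x37269784513155) (nat_lit 0x0)
  (PL.C (nat_lit 0x8649b9ba) (nat_lit 0x70eced23b3486) (nat_lit 0x0)
  (PL.C (nat_lit 0x864b5c8b) (nat_lit 0xa6db4f31cf2b5) (nat_lit 0x0)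
  (PL.C (nat_lit 0x86ee5ff7) (nat_lit 0x0) (nat_lit 0x266a8cd69a794)
  (PL.C (nat_lit 0x8731e809) (nat_lit 0xca0ef176e7e2f) (nat_lit 0x0)
  (PL.C (nat_lit 0x8756c435) (nat_lit 0x0) (nat_lit 0x1294beec4c531a)
  (PL.C (nat_lit 0x878b38e7) (nat_lit 0x88630cbbf28e2) (nat_lit 0x0)
  (PL.C (nat_lit 0x87d11817) (nat_lit 0x0) (nat_lit 0x15c6cddd306ed6)
  (PL.C (nat_lit 0x8827af6d) (nat_lit 0x0) (nat_lit 0x1883c5824d8bf1)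
  (PL.C (nat_lit 0x88367b1b) (nat_lit 0x7f59ab546724e) (nat_lit 0x0)
  (PL.C (nat_lit 0x885bd6ef) (nat_lit 0x436b4017adf99) (nat_lit 0x0)
  (PL.C (nat_lit 0x88b5eca1) (nat_lit 0x0) (nat_lit 0x6dd115b87740a)
  (PL.C (nat_lit 0x895db60d) (nat_lit 0x2b5f684f2d3ee) (nat_lit 0x0)
  (PL.C (nat_lit 0x89d538bd) (nat_lit 0x68b76281e47cb9) (nat_lit 0x0) gp3_0_215))))))))))))))))))))

noncomputable def gp3_0_213 : PL :=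
  (PL.C (nat_lit 0x7c74db01) (nat_lit 0x0) (nat_lit 0x62d7d80ac5f15)
  (PL.C (nat_lit 0x7c870b57) (nat_lit 0x0) (nat_lit 0x4ef2269b0280b)
  (PL.C (nat_lit 0x7cba6e05) (nat_lit 0x0) (nat_lit 0xd6515790f8ecaf)
  (PL.C (nat_lit 0x7d7f0069) (nat_lit 0xbbf7def46b9c6) (nat_lit 0x0)
  (PL.C (nat_lit 0x7d9d721d) (nat_lit 0xa6db4f31cf2b5) (nat_lit 0x0)
  (PL.C (nat_lit 0x7dc78ce9) (nat_lit 0x1a0cde71923ad1) (nat_lit 0x0)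
  (PL.C (nat_lit 0x7dcd4c13) (nat_lit 0x911874c4d94d02) (nat_lit 0x0)
  (PL.C (nat_lit 0x7e242a33) (nat_lit 0xed1e7d21126b) (nat_lit 0x0)
  (PL.C (nat_lit 0x7e3214f6) (nat_lit 0x0) (nat_lit 0x20c6c422795ab7)
  (PL.C (nat_lit 0x7e4e7227) (nat_lit 0x1757bd2a6ff3b) (nat_lit 0x0)
  (PL.C (nat_lit 0x7f297669) (nat_lit 0x73f88f7f186172) (nat_lit 0x0)
  (PL.C (nat_lit 0x7f482eda) (nat_lit 0x3b337dc67fd25) (nat_lit 0x0)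
  (PL.C (nat_lit 0x7f954b8e) (nat_lit 0x12e2b8a8609642) (nat_lit 0x0)
  (PL.C (nat_lit 0x7fcf0611) (nat_lit 0x0) (nat_lit 0xa8069bb0257d)
  (PL.C (nat_lit 0x8236f94b) (nat_lit 0x504cfb54218a) (nat_lit 0x0)
  (PL.C (nat_lit 0x828ea89b) (nat_lit 0x45ab2190be86b) (nat_lit 0x0)
  (PL.C (nat_lit 0x838be17d) (nat_lit 0xc304d6891630) (nat_lit 0x0)
  (PL.C (nat_lit 0x839ff00e) (nat_lit 0x0) (nat_lit 0x837529b37ce8b)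
  (PL.C (nat_lit 0x83add5a3) (nat_lit 0x0) (nat_lit 0x84fc85ab90d88)
  (PL.C (nat_lit 0x83f96ead) (nat_lit 0x0) (nat_lit 0x266a8cd69a794) gp3_0_214))))))))))))))))))))

noncomputable def gp3_0_212 : PL :=
  (PL.C (nat_lit 0x73e3d649) (nat_lit 0x0) (nat_lit 0xdae7eb8d1919b0)
  (PL.C (nat_lit 0x746986ae) (nat_lit 0x1b38f7de8f915) (nat_lit 0x0)
  (PL.C (nat_lit 0x747ab8f1) (nat_lit 0xdbd7079ea13b8) (nat_lit 0x0)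
  (PL.C (nat_lit 0x74a717ff) (nat_lit 0x6626a39d73cf3) (nat_lit 0x0)
  (PL.C (nat_lit 0x76389115) (nat_lit 0x0) (nat_lit 0x21ae4d7653fb10)
  (PL.C (nat_lit 0x76cea33b) (nat_lit 0x1e155f7cfd7ab4) (nat_lit 0x0)
  (PL.C (nat_lit 0x76fbfc3b) (nat_lit 0x0) (nat_lit 0xf77eff98f7b2e)
  (PL.C (nat_lit 0x7723de0f) (nat_lit 0x8e4bf522f1da9) (nat_lit 0x0)
  (PL.C (nat_lit 0x775f3cb9) (nat_lit 0x0) (nat_lit 0x71e94a7f771b6)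
  (PL.C (nat_lit 0x782f6b8d) (nat_lit 0x0) (nat_lit 0x14e19a782335a6)
  (PL.C (nat_lit 0x7862568a) (nat_lit 0x2d2a5b7276fa2) (nat_lit 0x0)
  (PL.C (nat_lit 0x7978739f) (nat_lit 0x0) (nat_lit 0x24af99de21cd20)
  (PL.C (nat_lit 0x797c0a77) (nat_lit 0x266fccb76592f6) (nat_lit 0x0)
  (PL.C (nat_lit 0x79fab9d1) (nat_lit 0x0) (nat_lit 0x21e6d58993107)
  (PL.C (nat_lit 0x7a1a35cf) (nat_lit 0x826690daa09b3) (nat_lit 0x0)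
  (PL.C (nat_lit 0x7a575231) (nat_lit 0x0) (nat_lit 0x22c7ef0c6da7b)
  (PL.C (nat_lit 0x7a87c291) (nat_lit 0x266fccb76592f6) (nat_lit 0x0)
  (PL.C (nat_lit 0x7b274a79) (nat_lit 0x0) (nat_lit 0x21f56fde8d819d)
  (PL.C (nat_lit 0x7b5fad5a) (nat_lit 0x0) (nat_lit 0x5e5af9a1d1264)
  (PL.C (nat_lit 0x7b64ed87) (nat_lit 0x53386a6c4cb0f) (nat_lit 0x0) gp3_0_213))))))))))))))))))))

noncomputable def gp3_0_211 : PL :=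
  (PL.C (nat_lit 0x6fdc8e25) (nat_lit 0x23cfbe25cbb44) (nat_lit 0x0)
  (PL.C (nat_lit 0x6ffe994d) (nat_lit 0x0) (nat_lit 0x22976ce974e5d4)
  (PL.C (nat_lit 0x7010fc03) (nat_lit 0x894924b7c6677b) (nat_lit 0x0)
  (PL.C (nat_lit 0x70a2e43b) (nat_lit 0x919b81260034b) (nat_lit 0x0)
  (PL.C (nat_lit 0x70db43c5) (nat_lit 0x0) (nat_lit 0x822bbdc16b644)
  (PL.C (nat_lit 0x711223bf) (nat_lit 0x0) (nat_lit 0xa8069bb0257d)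
  (PL.C (nat_lit 0x711bb0f5) (nat_lit 0x19a6518947d69) (nat_lit 0x0)
  (PL.C (nat_lit 0x715d89f7) (nat_lit 0x0) (nat_lit 0xbde0fa792fc5)
  (PL.C (nat_lit 0x71739e05) (nat_lit 0x0) (nat_lit 0x5b72104c54257e)
  (PL.C (nat_lit 0x71d22211) (nat_lit 0x0) (nat_lit 0x15b54e038940fa)
  (PL.C (nat_lit 0x71d3f853) (nat_lit 0x0) (nat_lit 0x377b149bbf7f3)
  (PL.C (nat_lit 0x7255853b) (nat_lit 0x0) (nat_lit 0x7224cf503c414c)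
  (PL.C (nat_lit 0x72a688b3) (nat_lit 0x465cf70a04714a) (nat_lit 0x0)
  (PL.C (nat_lit 0x72ccf6a7) (nat_lit 0x26ef366143f3c0) (nat_lit 0x0)
  (PL.C (nat_lit 0x72fc1ec7) (nat_lit 0x5c1f6f0b0378f) (nat_lit 0x0)
  (PL.C (nat_lit 0x730eff29) (nat_lit 0x0) (nat_lit 0xf77eff98f7b2e)
  (PL.C (nat_lit 0x7322a96b) (nat_lit 0x303b6ce4230a23) (nat_lit 0x0)
  (PL.C (nat_lit 0x736671d6) (nat_lit 0x0) (nat_lit 0x12a4e044789b9)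
  (PL.C (nat_lit 0x73a83779) (nat_lit 0x0) (nat_lit 0x1593e9c3d7fad6)
  (PL.C (nat_lit 0x73bb6aff) (nat_lit 0x43749a5d97a8a) (nat_lit 0x0) gp3_0_212))))))))))))))))))))

noncomputable def gp3_0_210 : PL :=
  (PL.C (nat_lit 0x68dc0709) (nat_lit 0x159800432dbb03) (nat_lit 0x0)
  (PL.C (nat_lit 0x6953c98a) (nat_lit 0x0) (nat_lit 0x20c6c422795ab7)
  (PL.C (nat_lit 0x6a09e551) (nat_lit 0x0) (nat_lit 0x9450736cec4b7)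
  (PL.C (nat_lit 0x6a2d704d) (nat_lit 0x0) (nat_lit 0x47409cc3ae5d2d)
  (PL.C (nat_lit 0x6a4ff31f) (nat_lit 0x0) (nat_lit 0x4045f0647afd1)
  (PL.C (nat_lit 0x6ab0d0ad) (nat_lit 0x2e6754a52fe38) (nat_lit 0x0)
  (PL.C (nat_lit 0x6b0ccadf) (nat_lit 0x0) (nat_lit 0x6a630c9925d4e)
  (PL.C (nat_lit 0x6b377592) (nat_lit 0x8c4f0b1f57d6) (nat_lit 0x0)
  (PL.C (nat_lit 0x6bd752ae) (nat_lit 0x0) (nat_lit 0x45680984d3efd)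
  (PL.C (nat_lit 0x6be1f2e1) (nat_lit 0x0) (nat_lit 0x3401a43ffeefe4)
  (PL.C (nat_lit 0x6c05c661) (nat_lit 0x0) (nat_lit 0x21f56fde8d819d)
  (PL.C (nat_lit 0x6c23bc5e) (nat_lit 0x0) (nat_lit 0x15d7ce3fbed77)
  (PL.C (nat_lit 0x6c94472f) (nat_lit 0x0) (nat_lit 0x56f8730deeaa5)
  (PL.C (nat_lit 0x6cf3d3d7) (nat_lit 0x826690daa09b3) (nat_lit 0x0)
  (PL.C (nat_lit 0x6d4f04fa) (nat_lit 0x0) (nat_lit 0xed466393141df)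
  (PL.C (nat_lit 0x6debe9b7) (nat_lit 0x465cf70a04714a) (nat_lit 0x0)
  (PL.C (nat_lit 0x6ee82583) (nat_lit 0x0) (nat_lit 0x3c75cd371d6f6)
  (PL.C (nat_lit 0x6f215173) (nat_lit 0x0) (nat_lit 0x10617d020eb1b1)
  (PL.C (nat_lit 0x6f30e9ad) (nat_lit 0x0) (nat_lit 0x3958eca520b16)
  (PL.C (nat_lit 0x6f71ca21) (nat_lit 0x16d0090a772d1a) (nat_lit 0x0) gp3_0_211))))))))))))))))))))

noncomputable def gp3_0_209 : PL :=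
  (PL.C (nat_lit 0x61d4472d) (nat_lit 0x894924b7c6677b) (nat_lit 0x0)
  (PL.C (nat_lit 0x61f511b9) (nat_lit 0x35f836543b0e29) (nat_lit 0x0)
  (PL.C (nat_lit 0x624521e6) (nat_lit 0x1a552ac584f76) (nat_lit 0x0)
  (PL.C (nat_lit 0x62faeaa6) (nat_lit 0x1bcfcec00c3ee1) (nat_lit 0x0)
  (PL.C (nat_lit 0x630119c6) (nat_lit 0x3f6f42dd63098) (nat_lit 0x0)
  (PL.C (nat_lit 0x63736282) (nat_lit 0x0) (nat_lit 0x1517e1a33f51af)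
  (PL.C (nat_lit 0x639e87ba) (nat_lit 0x1a552ac584f76) (nat_lit 0x0)
  (PL.C (nat_lit 0x63db478a) (nat_lit 0x0) (nat_lit 0x77c32ed10f067)
  (PL.C (nat_lit 0x646c4f8b) (nat_lit 0x31935d9fb3f735) (nat_lit 0x0)
  (PL.C (nat_lit 0x64fb9cc2) (nat_lit 0x0) (nat_lit 0x837529b37ce8b)
  (PL.C (nat_lit 0x65ed5fb3) (nat_lit 0x0) (nat_lit 0x1e188df46d50de)
  (PL.C (nat_lit 0x66630831) (nat_lit 0x16cea65e0db3c8) (nat_lit 0x0)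
  (PL.C (nat_lit 0x668a405b) (nat_lit 0x0) (nat_lit 0x189ce70b3d52f)
  (PL.C (nat_lit 0x669e38b1) (nat_lit 0x0) (nat_lit 0x42750cefc17854)
  (PL.C (nat_lit 0x66cdfe75) (nat_lit 0xe355802ca2a7e) (nat_lit 0x0)
  (PL.C (nat_lit 0x670c46df) (nat_lit 0x10c6a5ded255d5) (nat_lit 0x0)
  (PL.C (nat_lit 0x671abcc1) (nat_lit 0x1757bd2a6ff3b) (nat_lit 0x0)
  (PL.C (nat_lit 0x676a8d8f) (nat_lit 0x11b34c06565b83) (nat_lit 0x0)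
  (PL.C (nat_lit 0x67d976e1) (nat_lit 0x31935d9fb3f735) (nat_lit 0x0)
  (PL.C (nat_lit 0x686da7c6) (nat_lit 0x3b337dc67fd25) (nat_lit 0x0) gp3_0_210))))))))))))))))))))

noncomputable def gp3_0_208 : PL :=
  (PL.C (nat_lit 0x5d58b62d) (nat_lit 0x0) (nat_lit 0x1593e9c3d7fad6)
  (PL.C (nat_lit 0x5da92f5f) (nat_lit 0x3aea870d217bfc) (nat_lit 0x0)
  (PL.C (nat_lit 0x5dcfa87f) (nat_lit 0x1d8c86e8fff04) (nat_lit 0x0)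
  (PL.C (nat_lit 0x5def1a43) (nat_lit 0x0) (nat_lit 0x47409cc3ae5d2d)
  (PL.C (nat_lit 0x5e63ae61) (nat_lit 0x896c86460e334d) (nat_lit 0x0)
  (PL.C (nat_lit 0x5e99f94f) (nat_lit 0x0) (nat_lit 0xdae7eb8d1919b0)
  (PL.C (nat_lit 0x5f152467) (nat_lit 0x10c6a5ded255d5) (nat_lit 0x0)
  (PL.C (nat_lit 0x5f5748ab) (nat_lit 0x10fd762758b166) (nat_lit 0x0)
  (PL.C (nat_lit 0x5fc556d9) (nat_lit 0xc64a8fce526ac) (nat_lit 0x0)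
  (PL.C (nat_lit 0x60152015) (nat_lit 0x21cdb7f1b5cf15) (nat_lit 0x0)
  (PL.C (nat_lit 0x602963bd) (nat_lit 0x0) (nat_lit 0xcd42911759f01)
  (PL.C (nat_lit 0x60840967) (nat_lit 0x0) (nat_lit 0x6f307903008f4)
  (PL.C (nat_lit 0x60c86cbf) (nat_lit 0x504cfb54218a) (nat_lit 0x0)
  (PL.C (nat_lit 0x60d3e3a3) (nat_lit 0x0) (nat_lit 0x103c7efd2a40f1)
  (PL.C (nat_lit 0x60e8dd83) (nat_lit 0xf87c3bf6243fb) (nat_lit 0x0)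
  (PL.C (nat_lit 0x61209b8d) (nat_lit 0x0) (nat_lit 0x8813545b7b91f)
  (PL.C (nat_lit 0x61338607) (nat_lit 0x13171dc0be6090) (nat_lit 0x0)
  (PL.C (nat_lit 0x613bbc0d) (nat_lit 0xd3394941e133) (nat_lit 0x0)
  (PL.C (nat_lit 0x618b1476) (nat_lit 0x0) (nat_lit 0x45680984d3efd)
  (PL.C (nat_lit 0x61b5189d) (nat_lit 0x0) (nat_lit 0x1883c5824d8bf1) gp3_0_209))))))))))))))))))))

noncomputable def gp3_0_207 : PL :=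
  (PL.C (nat_lit 0x58a23679) (nat_lit 0x0) (nat_lit 0xdb6fca10e421)
  (PL.C (nat_lit 0x590770ea) (nat_lit 0x0) (nat_lit 0xf5015d4765d52)
  (PL.C (nat_lit 0x592dca33) (nat_lit 0x16d0090a772d1a) (nat_lit 0x0)
  (PL.C (nat_lit 0x599e7777) (nat_lit 0x0) (nat_lit 0x13ce6a02454017)
  (PL.C (nat_lit 0x59f43ffa) (nat_lit 0x0) (nat_lit 0xd3305ea9be550)
  (PL.C (nat_lit 0x5a5cd09a) (nat_lit 0x3cc638e91802) (nat_lit 0x0)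
  (PL.C (nat_lit 0x5ab6e041) (nat_lit 0xa67a17c088547) (nat_lit 0x0)
  (PL.C (nat_lit 0x5ac51f9e) (nat_lit 0x0) (nat_lit 0x1725da163276e8)
  (PL.C (nat_lit 0x5ac74e8f) (nat_lit 0x0) (nat_lit 0x6dd115b87740a)
  (PL.C (nat_lit 0x5b23f316) (nat_lit 0x0) (nat_lit 0x2cef408c209cf)
  (PL.C (nat_lit 0x5b7dbaa1) (nat_lit 0x2769a55730525) (nat_lit 0x0)
  (PL.C (nat_lit 0x5b8f5bb9) (nat_lit 0x88630cbbf28e2) (nat_lit 0x0)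
  (PL.C (nat_lit 0x5bb77005) (nat_lit 0x6d7ddaea8e4c) (nat_lit 0x0)
  (PL.C (nat_lit 0x5bbe8e89) (nat_lit 0x2b5f684f2d3ee) (nat_lit 0x0)
  (PL.C (nat_lit 0x5c33e79f) (nat_lit 0x4128391ac01db2) (nat_lit 0x0)
  (PL.C (nat_lit 0x5c8cc1bb) (nat_lit 0x6626a39d73cf3) (nat_lit 0x0)
  (PL.C (nat_lit 0x5c9c1f2d) (nat_lit 0x2728aeaf72fd5) (nat_lit 0x0)
  (PL.C (nat_lit 0x5cbc772b) (nat_lit 0x0) (nat_lit 0x21ae4d7653fb10)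
  (PL.C (nat_lit 0x5cca78d3) (nat_lit 0x0) (nat_lit 0x15c6cddd306ed6)
  (PL.C (nat_lit 0x5cdc8b19) (nat_lit 0x492715764a5e2f) (nat_lit 0x0) gp3_0_208))))))))))))))))))))

noncomputable def gp3_0_206 : PL :=
  (PL.C (nat_lit 0x5458915b) (nat_lit 0x2cd58650d6626) (nat_lit 0x0)
  (PL.C (nat_lit 0x54b79623) (nat_lit 0x4ef5cb348e6de2) (nat_lit 0x0)
  (PL.C (nat_lit 0x54b9ee69) (nat_lit 0x2728aeaf72fd5) (nat_lit 0x0)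
  (PL.C (nat_lit 0x54da62c3) (nat_lit 0x9ea6dcecb4da) (nat_lit 0x0)
  (PL.C (nat_lit 0x5512718d) (nat_lit 0x0) (nat_lit 0x11603d2b006fcf)
  (PL.C (nat_lit 0x5534aeb6) (nat_lit 0x0) (nat_lit 0x61ab5abb950557)
  (PL.C (nat_lit 0x560adfbf) (nat_lit 0x0) (nat_lit 0x11603d2b006fcf)
  (PL.C (nat_lit 0x56542073) (nat_lit 0x0) (nat_lit 0x1877336154eff8)
  (PL.C (nat_lit 0x56a02935) (nat_lit 0x2a1cdcf77763c1d) (nat_lit 0x0)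
  (PL.C (nat_lit 0x56c87d09) (nat_lit 0x2cd58650d6626) (nat_lit 0x0)
  (PL.C (nat_lit 0x56fd109b) (nat_lit 0x919b81260034b) (nat_lit 0x0)
  (PL.C (nat_lit 0x571a38ef) (nat_lit 0x1ad2522a685c35) (nat_lit 0x0)
  (PL.C (nat_lit 0x574ca60b) (nat_lit 0x2769a55730525) (nat_lit 0x0)
  (PL.C (nat_lit 0x579f255b) (nat_lit 0xa21e4870c8a99) (nat_lit 0x0)
  (PL.C (nat_lit 0x57b8aaab) (nat_lit 0x83dd3355122f3) (nat_lit 0x0)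
  (PL.C (nat_lit 0x57c7a8d1) (nat_lit 0x26a238627a285d) (nat_lit 0x0)
  (PL.C (nat_lit 0x57fb9f1e) (nat_lit 0x0) (nat_lit 0xd3305ea9be550)
  (PL.C (nat_lit 0x5844eb66) (nat_lit 0x0) (nat_lit 0xf5015d4765d52)
  (PL.C (nat_lit 0x58848aed) (nat_lit 0x159800432dbb03) (nat_lit 0x0)
  (PL.C (nat_lit 0x5895c827) (nat_lit 0x1b87df0e561479) (nat_lit 0x0) gp3_0_207))))))))))))))))))))

noncomputable def gp3_0_205 : PL :=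
  (PL.C (nat_lit 0x50535969) (nat_lit 0x2d91fc522a02f2) (nat_lit 0x0)
  (PL.C (nat_lit 0x505fbfe5) (nat_lit 0x357f97fe4a506) (nat_lit 0x0)
  (PL.C (nat_lit 0x508a6e3f) (nat_lit 0x8cb6c717111dc1) (nat_lit 0x0)
  (PL.C (nat_lit 0x50f34ad7) (nat_lit 0x3ee8453c13f73) (nat_lit 0x0)
  (PL.C (nat_lit 0x5151d136) (nat_lit 0x2d2a5b7276fa2) (nat_lit 0x0)
  (PL.C (nat_lit 0x5166ce8a) (nat_lit 0x8188e981ac916) (nat_lit 0x0)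
  (PL.C (nat_lit 0x51bcd76f) (nat_lit 0x0) (nat_lit 0xddcf413f3f7c3)
  (PL.C (nat_lit 0x520d9263) (nat_lit 0x0) (nat_lit 0x490f742c033e40)
  (PL.C (nat_lit 0x521a31a6) (nat_lit 0x1f517ceaf303e) (nat_lit 0x0)
  (PL.C (nat_lit 0x52b0f45d) (nat_lit 0x0) (nat_lit 0x741471da00514e)
  (PL.C (nat_lit 0x52c12bdd) (nat_lit 0x0) (nat_lit 0x6f307903008f4)
  (PL.C (nat_lit 0x5304b23a) (nat_lit 0x0) (nat_lit 0x29623f5ad9677)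
  (PL.C (nat_lit 0x5319ec73) (nat_lit 0xbbf7def46b9c6) (nat_lit 0x0)
  (PL.C (nat_lit 0x53962865) (nat_lit 0x435849c25509a) (nat_lit 0x0)
  (PL.C (nat_lit 0x53aa0046) (nat_lit 0x0) (nat_lit 0x2d88ca9270a15)
  (PL.C (nat_lit 0x53ce09f5) (nat_lit 0x0) (nat_lit 0x1247e273ad2526)
  (PL.C (nat_lit 0x53fe7c75) (nat_lit 0x993766cac6628) (nat_lit 0x0)
  (PL.C (nat_lit 0x54181c22) (nat_lit 0x1b38f7de8f915) (nat_lit 0x0)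
  (PL.C (nat_lit 0x541e5349) (nat_lit 0xdbd7079ea13b8) (nat_lit 0x0)
  (PL.C (nat_lit 0x54344c1a) (nat_lit 0x575d8a2512692) (nat_lit 0x0) gp3_0_206))))))))))))))))))))

noncomputable def gp3_0_204 : PL :=
  (PL.C (nat_lit 0x4e09a657) (nat_lit 0xa036975f7454) (nat_lit 0x0)
  (PL.C (nat_lit 0x4e48a717) (nat_lit 0x1bc6785498959b) (nat_lit 0x0)
  (PL.C (nat_lit 0x4e5a8b21) (nat_lit 0xc64a8fce526ac) (nat_lit 0x0)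
  (PL.C (nat_lit 0x4e62e47b) (nat_lit 0x0) (nat_lit 0x741471da00514e)
  (PL.C (nat_lit 0x4e63bb3d) (nat_lit 0x0) (nat_lit 0x1049ecd9d2f0d03)
  (PL.C (nat_lit 0x4eae936f) (nat_lit 0x0) (nat_lit 0x4ef2269b0280b)
  (PL.C (nat_lit 0x4eb59fb1) (nat_lit 0x0) (nat_lit 0x7ee7d8dd6d5a3)
  (PL.C (nat_lit 0x4ed5f491) (nat_lit 0x0) (nat_lit 0xd6a3b9204e58)
  (PL.C (nat_lit 0x4f107b1b) (nat_lit 0x0) (nat_lit 0x298acf81e5c506)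
  (PL.C (nat_lit 0x4f346cd2) (nat_lit 0x1bcfcec00c3ee1) (nat_lit 0x0)
  (PL.C (nat_lit 0x4f4b808f) (nat_lit 0x1a0cde71923ad1) (nat_lit 0x0)
  (PL.C (nat_lit 0x4f5f38eb) (nat_lit 0x0) (nat_lit 0x7e2b380a453d)
  (PL.C (nat_lit 0x4f631407) (nat_lit 0x7e5119270e50) (nat_lit 0x0)
  (PL.C (nat_lit 0x4f83b027) (nat_lit 0x0) (nat_lit 0x48b52e08d5a84)
  (PL.C (nat_lit 0x4f8f7523) (nat_lit 0x14b34c58b72e44) (nat_lit 0x0)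
  (PL.C (nat_lit 0x4f94d326) (nat_lit 0x0) (nat_lit 0x1517e1a33f51af)
  (PL.C (nat_lit 0x4fade9a5) (nat_lit 0x0) (nat_lit 0x20615d6c15496c)
  (PL.C (nat_lit 0x4feb4c01) (nat_lit 0x3db2a0ea807597) (nat_lit 0x0)
  (PL.C (nat_lit 0x4ff20c4b) (nat_lit 0x2e7095d46e43a9) (nat_lit 0x0)
  (PL.C (nat_lit 0x503ec985) (nat_lit 0x0) (nat_lit 0x47e46cc0c1c720) gp3_0_205))))))))))))))))))))

noncomputable def gp3_0_203 : PL :=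
  (PL.C (nat_lit 0x4ac79503) (nat_lit 0x0) (nat_lit 0x4d1adee971b639)
  (PL.C (nat_lit 0x4ae0a5b7) (nat_lit 0x0) (nat_lit 0x1da8d34919826c)
  (PL.C (nat_lit 0x4ae2f625) (nat_lit 0x0) (nat_lit 0x20615d6c15496c)
  (PL.C (nat_lit 0x4b1742d2) (nat_lit 0xb3b0ff39ef288) (nat_lit 0x0)
  (PL.C (nat_lit 0x4b616d2a) (nat_lit 0x0) (nat_lit 0x61ab5abb950557)
  (PL.C (nat_lit 0x4b67cb4e) (nat_lit 0x0) (nat_lit 0x3c1706387cd2)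
  (PL.C (nat_lit 0x4b68da93) (nat_lit 0x1dff604afa2321) (nat_lit 0x0)
  (PL.C (nat_lit 0x4b75be09) (nat_lit 0x0) (nat_lit 0x47153783a51b60)
  (PL.C (nat_lit 0x4bc06007) (nat_lit 0x0) (nat_lit 0x2e0dc7d9f2cb9a)
  (PL.C (nat_lit 0x4ca2be85) (nat_lit 0x16cea65e0db3c8) (nat_lit 0x0)
  (PL.C (nat_lit 0x4ca99bdb) (nat_lit 0x0) (nat_lit 0x5961c1298e342a)
  (PL.C (nat_lit 0x4ce2d64f) (nat_lit 0xf87c3bf6243fb) (nat_lit 0x0)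
  (PL.C (nat_lit 0x4d1acfa6) (nat_lit 0x8b9612de61eb23) (nat_lit 0x0)
  (PL.C (nat_lit 0x4d279caa) (nat_lit 0x1ffef056242b4) (nat_lit 0x0)
  (PL.C (nat_lit 0x4d3b96e5) (nat_lit 0x11b34c06565b83) (nat_lit 0x0)
  (PL.C (nat_lit 0x4d72506d) (nat_lit 0x0) (nat_lit 0x652c9dd872087)
  (PL.C (nat_lit 0x4d8c45f9) (nat_lit 0x21cdb7f1b5cf15) (nat_lit 0x0)
  (PL.C (nat_lit 0x4da725f6) (nat_lit 0x51b71a7d3c42c) (nat_lit 0x0)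
  (PL.C (nat_lit 0x4dc4baaa) (nat_lit 0x0) (nat_lit 0x33b5c807733e88)
  (PL.C (nat_lit 0x4e00314d) (nat_lit 0x38540418235e9) (nat_lit 0x0) gp3_0_204))))))))))))))))))))

noncomputable def gp3_0_202 : PL :=
  (PL.C (nat_lit 0x484ff6c1) (nat_lit 0x0) (nat_lit 0x93773b7cb85d1)
  (PL.C (nat_lit 0x48972693) (nat_lit 0x83dd3355122f3) (nat_lit 0x0)
  (PL.C (nat_lit 0x48a28d3a) (nat_lit 0x8188e981ac916) (nat_lit 0x0)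
  (PL.C (nat_lit 0x48a7bd85) (nat_lit 0xc4fb0382b1b3) (nat_lit 0x0)
  (PL.C (nat_lit 0x48cc1a7b) (nat_lit 0x0) (nat_lit 0xcd42911759f01)
  (PL.C (nat_lit 0x48dff37f) (nat_lit 0x0) (nat_lit 0x2cf5340dda4e6a)
  (PL.C (nat_lit 0x48f5a94b) (nat_lit 0x38540418235e9) (nat_lit 0x0)
  (PL.C (nat_lit 0x48fc3255) (nat_lit 0xd35268e2841ce) (nat_lit 0x0)
  (PL.C (nat_lit 0x492022c9) (nat_lit 0x0) (nat_lit 0x42750cefc17854)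
  (PL.C (nat_lit 0x4921d1e5) (nat_lit 0x0) (nat_lit 0x1d1348c0d9e0c1)
  (PL.C (nat_lit 0x49507227) (nat_lit 0x2e3cdfea14316) (nat_lit 0x0)
  (PL.C (nat_lit 0x496c876d) (nat_lit 0x10fd762758b166) (nat_lit 0x0)
  (PL.C (nat_lit 0x499d0943) (nat_lit 0x20bedefe80798) (nat_lit 0x0)
  (PL.C (nat_lit 0x49e26d99) (nat_lit 0x72bd8d4a9a3e) (nat_lit 0x0)
  (PL.C (nat_lit 0x49f01902) (nat_lit 0x0) (nat_lit 0x77c32ed10f067)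
  (PL.C (nat_lit 0x49f76207) (nat_lit 0x1588741f4f8a5) (nat_lit 0x0)
  (PL.C (nat_lit 0x4a37bc17) (nat_lit 0x0) (nat_lit 0x490f742c033e40)
  (PL.C (nat_lit 0x4a4bdc16) (nat_lit 0xabca296b56490) (nat_lit 0x0)
  (PL.C (nat_lit 0x4a8754d9) (nat_lit 0x2e6754a52fe38) (nat_lit 0x0)
  (PL.C (nat_lit 0x4a93096e) (nat_lit 0x3f6f42dd63098) (nat_lit 0x0) gp3_0_203))))))))))))))))))))

noncomputable def gp3_0_201 : PL :=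
  (PL.C (nat_lit 0x453ba496) (nat_lit 0x1c67eafec3bd22) (nat_lit 0x0)
  (PL.C (nat_lit 0x45db9611) (nat_lit 0x0) (nat_lit 0x7224cf503c414c)
  (PL.C (nat_lit 0x45f24acb) (nat_lit 0x0) (nat_lit 0x1247e273ad2526)
  (PL.C (nat_lit 0x463205f1) (nat_lit 0xa67a17c088547) (nat_lit 0x0)
  (PL.C (nat_lit 0x463e0543) (nat_lit 0x26a238627a285d) (nat_lit 0x0)
  (PL.C (nat_lit 0x464cd0f1) (nat_lit 0x2c1424036a13cb) (nat_lit 0x0)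
  (PL.C (nat_lit 0x46dff76a) (nat_lit 0x127f4994a39de6) (nat_lit 0x0)
  (PL.C (nat_lit 0x46e77309) (nat_lit 0x0) (nat_lit 0x298acf81e5c506)
  (PL.C (nat_lit 0x471027e7) (nat_lit 0x63d0ca79912d) (nat_lit 0x0)
  (PL.C (nat_lit 0x47208b1e) (nat_lit 0x0) (nat_lit 0x2a5da079dcb68)
  (PL.C (nat_lit 0x47337e07) (nat_lit 0xe355802ca2a7e) (nat_lit 0x0)
  (PL.C (nat_lit 0x474b5bab) (nat_lit 0x0) (nat_lit 0x1358e1832b4625)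
  (PL.C (nat_lit 0x47701c1b) (nat_lit 0x0) (nat_lit 0x60642a35e4c39)
  (PL.C (nat_lit 0x4783b3ef) (nat_lit 0x0) (nat_lit 0x1049ecd9d2f0d03)
  (PL.C (nat_lit 0x479da7d9) (nat_lit 0x54fc9581d592f5) (nat_lit 0x0)
  (PL.C (nat_lit 0x47b91693) (nat_lit 0x42f69ad2e29f3) (nat_lit 0x0)
  (PL.C (nat_lit 0x47d06681) (nat_lit 0x0) (nat_lit 0x1e188df46d50de)
  (PL.C (nat_lit 0x47e878bd) (nat_lit 0x0) (nat_lit 0x13d4e0ff62e3c9)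
  (PL.C (nat_lit 0x4803d996) (nat_lit 0x1f517ceaf303e) (nat_lit 0x0)
  (PL.C (nat_lit 0x48499fbd) (nat_lit 0x0) (nat_lit 0xf780f2f723fc80) gp3_0_202))))))))))))))))))))

noncomputable def gp3_0_200 : PL :=
  (PL.C (nat_lit 0x42f2dfb2) (nat_lit 0x1c67eafec3bd22) (nat_lit 0x0)
  (PL.C (nat_lit 0x4303d863) (nat_lit 0xa036975f7454) (nat_lit 0x0)
  (PL.C (nat_lit 0x430da3a5) (nat_lit 0x0) (nat_lit 0x17becf156090)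
  (PL.C (nat_lit 0x43294eef) (nat_lit 0x6a7cbf2056f107) (nat_lit 0x0)
  (PL.C (nat_lit 0x4376d5c5) (nat_lit 0x0) (nat_lit 0xf780f2f723fc80)
  (PL.C (nat_lit 0x437c88b7) (nat_lit 0xdea11db3a1e12) (nat_lit 0x0)
  (PL.C (nat_lit 0x4393279b) (nat_lit 0x1edc816b33257d) (nat_lit 0x0)
  (PL.C (nat_lit 0x43a38c37) (nat_lit 0x0) (nat_lit 0xec3db18abc9f1)
  (PL.C (nat_lit 0x43bd5059) (nat_lit 0x6a7cbf2056f107) (nat_lit 0x0)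
  (PL.C (nat_lit 0x43cc798b) (nat_lit 0x43749a5d97a8a) (nat_lit 0x0)
  (PL.C (nat_lit 0x43ec16b9) (nat_lit 0x0) (nat_lit 0x7e2b380a453d)
  (PL.C (nat_lit 0x43efe195) (nat_lit 0x8e4bf522f1da9) (nat_lit 0x0)
  (PL.C (nat_lit 0x43f39522) (nat_lit 0x0) (nat_lit 0x1b9497c4f07301)
  (PL.C (nat_lit 0x44420576) (nat_lit 0x37ffdebedcc97) (nat_lit 0x0)
  (PL.C (nat_lit 0x4478c99b) (nat_lit 0x1f21e4dd247111) (nat_lit 0x0)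
  (PL.C (nat_lit 0x4489544e) (nat_lit 0x19e7a1d36aa18) (nat_lit 0x0)
  (PL.C (nat_lit 0x44b2d9ea) (nat_lit 0xbbebef7d10465) (nat_lit 0x0)
  (PL.C (nat_lit 0x44bc7dd6) (nat_lit 0x575d8a2512692) (nat_lit 0x0)
  (PL.C (nat_lit 0x44d1ef93) (nat_lit 0x4143c6ff2f9571) (nat_lit 0x0)
  (PL.C (nat_lit 0x44da196d) (nat_lit 0x0) (nat_lit 0x4045f0647afd1) gp3_0_201))))))))))))))))))))

noncomputable def gp3_0_199 : PL :=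
  (PL.C (nat_lit 0x40b71287) (nat_lit 0x1cade2c83b1802b) (nat_lit 0x0)
  (PL.C (nat_lit 0x40c6f635) (nat_lit 0x54fc9581d592f5) (nat_lit 0x0)
  (PL.C (nat_lit 0x40d27d5e) (nat_lit 0x3a503eee1c42e) (nat_lit 0x0)
  (PL.C (nat_lit 0x40e761cb) (nat_lit 0x26ef366143f3c0) (nat_lit 0x0)
  (PL.C (nat_lit 0x412365be) (nat_lit 0x0) (nat_lit 0x1725da163276e8)
  (PL.C (nat_lit 0x416a2d05) (nat_lit 0x0) (nat_lit 0x7da3a8315916ff)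
  (PL.C (nat_lit 0x4176699d) (nat_lit 0x0) (nat_lit 0x15b54e038940fa)
  (PL.C (nat_lit 0x41bf580d) (nat_lit 0x1039eb0761a019) (nat_lit 0x0)
  (PL.C (nat_lit 0x41e03ff3) (nat_lit 0x7e5119270e50) (nat_lit 0x0)
  (PL.C (nat_lit 0x41fa5513) (nat_lit 0x0) (nat_lit 0xb516961c4eab49)
  (PL.C (nat_lit 0x4205db43) (nat_lit 0x0) (nat_lit 0x104baa758fa0c)
  (PL.C (nat_lit 0x420b3d0f) (nat_lit 0x20fe7e3fce0d51) (nat_lit 0x0)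
  (PL.C (nat_lit 0x42248965) (nat_lit 0x0) (nat_lit 0x5b72104c54257e)
  (PL.C (nat_lit 0x422b95a7) (nat_lit 0x35f836543b0e29) (nat_lit 0x0)
  (PL.C (nat_lit 0x422c4af1) (nat_lit 0x4ef5cb348e6de2) (nat_lit 0x0)
  (PL.C (nat_lit 0x42503bcb) (nat_lit 0x0) (nat_lit 0x53a4a29433ef1e)
  (PL.C (nat_lit 0x42716c35) (nat_lit 0x0) (nat_lit 0x7ee7d8dd6d5a3)
  (PL.C (nat_lit 0x4281bc7f) (nat_lit 0x1ad2522a685c35) (nat_lit 0x0)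
  (PL.C (nat_lit 0x42975a65) (nat_lit 0x6fcdc1922cc6d) (nat_lit 0x0)
  (PL.C (nat_lit 0x42be1ec7) (nat_lit 0x993766cac6628) (nat_lit 0x0) gp3_0_200))))))))))))))))))))

noncomputable def gp3_0_198 : PL :=
  (PL.C (nat_lit 0x3dbc2239) (nat_lit 0x336411f955e0c4) (nat_lit 0x0)
  (PL.C (nat_lit 0x3dbd6a1e) (nat_lit 0x93e69e6eba8c0) (nat_lit 0x0)
  (PL.C (nat_lit 0x3dd0d395) (nat_lit 0x150683cd0190b9) (nat_lit 0x0)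
  (PL.C (nat_lit 0x3dea37f5) (nat_lit 0x0) (nat_lit 0xdb6fca10e421)
  (PL.C (nat_lit 0x3e3b241e) (nat_lit 0x8b9612de61eb23) (nat_lit 0x0)
  (PL.C (nat_lit 0x3e46e2cb) (nat_lit 0x0) (nat_lit 0x99f81c200d672f)
  (PL.C (nat_lit 0x3e51399d) (nat_lit 0x1428ff270b999c) (nat_lit 0x0)
  (PL.C (nat_lit 0x3e66fd3b) (nat_lit 0x0) (nat_lit 0xa6c741109ffbaf)
  (PL.C (nat_lit 0x3e8ec639) (nat_lit 0x0) (nat_lit 0x23d428f37b1523)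
  (PL.C (nat_lit 0x3ea6bcb3) (nat_lit 0x13171dc0be6090) (nat_lit 0x0)
  (PL.C (nat_lit 0x3eb83c33) (nat_lit 0x6b4a5eff7996e) (nat_lit 0x0)
  (PL.C (nat_lit 0x3ed0209d) (nat_lit 0x1f972b81812fc) (nat_lit 0x0)
  (PL.C (nat_lit 0x3f374779) (nat_lit 0x896c86460e334d) (nat_lit 0x0)
  (PL.C (nat_lit 0x3f636d9a) (nat_lit 0xbbebef7d10465) (nat_lit 0x0)
  (PL.C (nat_lit 0x3fa84e1f) (nat_lit 0x0) (nat_lit 0x3536ae522ac304)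
  (PL.C (nat_lit 0x3fd83381) (nat_lit 0x6fcdc1922cc6d) (nat_lit 0x0)
  (PL.C (nat_lit 0x3ff91cd1) (nat_lit 0xdea11db3a1e12) (nat_lit 0x0)
  (PL.C (nat_lit 0x401187d1) (nat_lit 0x0) (nat_lit 0x2605e23aeb5c4a)
  (PL.C (nat_lit 0x4064e5b7) (nat_lit 0x0) (nat_lit 0x104baa758fa0c)
  (PL.C (nat_lit 0x40730ced) (nat_lit 0x8cb6c717111dc1) (nat_lit 0x0) gp3_0_199))))))))))))))))))))

noncomputable def gp3_0_197 : PL :=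
  (PL.C (nat_lit 0x3bdaa6ed) (nat_lit 0x3aea870d217bfc) (nat_lit 0x0)
  (PL.C (nat_lit 0x3bfd03c3) (nat_lit 0xc4fb0382b1b3) (nat_lit 0x0)
  (PL.C (nat_lit 0x3c0231c3) (nat_lit 0x0) (nat_lit 0x1879c570725423)
  (PL.C (nat_lit 0x3c2efd97) (nat_lit 0x0) (nat_lit 0x13d4e0ff62e3c9)
  (PL.C (nat_lit 0x3c4e03c7) (nat_lit 0x0) (nat_lit 0x2cf5340dda4e6a)
  (PL.C (nat_lit 0x3c57ea29) (nat_lit 0x328a53fd1e0320) (nat_lit 0x0)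
  (PL.C (nat_lit 0x3c5e8deb) (nat_lit 0x492715764a5e2f) (nat_lit 0x0)
  (PL.C (nat_lit 0x3c79ead6) (nat_lit 0x0) (nat_lit 0x5b9ee0247494af)
  (PL.C (nat_lit 0x3c84df0a) (nat_lit 0x0) (nat_lit 0x2cef408c209cf)
  (PL.C (nat_lit 0x3cb39e71) (nat_lit 0x0) (nat_lit 0x1358e1832b4625)
  (PL.C (nat_lit 0x3d05a171) (nat_lit 0x3db2a0ea807597) (nat_lit 0x0)
  (PL.C (nat_lit 0x3d0a3d26) (nat_lit 0x3cc638e91802) (nat_lit 0x0)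
  (PL.C (nat_lit 0x3d0afb85) (nat_lit 0x0) (nat_lit 0xec3db18abc9f1)
  (PL.C (nat_lit 0x3d16deef) (nat_lit 0x21551d1d818e04) (nat_lit 0x0)
  (PL.C (nat_lit 0x3d49c393) (nat_lit 0x0) (nat_lit 0x31d0c40a1d5b22)
  (PL.C (nat_lit 0x3d551459) (nat_lit 0x63d0ca79912d) (nat_lit 0x0)
  (PL.C (nat_lit 0x3d5b9d63) (nat_lit 0xd03a9ce2fdb10) (nat_lit 0x0)
  (PL.C (nat_lit 0x3d8487bb) (nat_lit 0x0) (nat_lit 0x60642a35e4c39)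
  (PL.C (nat_lit 0x3d9082d1) (nat_lit 0x0) (nat_lit 0x38a80b77bdf2c8)
  (PL.C (nat_lit 0x3db32bd2) (nat_lit 0x0) (nat_lit 0x33b5c807733e88) gp3_0_198))))))))))))))))))))

noncomputable def gp3_0_196 : PL :=
  (PL.C (nat_lit 0x393ebdfd) (nat_lit 0x0) (nat_lit 0x9a85f301a059f)
  (PL.C (nat_lit 0x394ec0db) (nat_lit 0x3ee8453c13f73) (nat_lit 0x0)
  (PL.C (nat_lit 0x395c952a) (nat_lit 0x0) (nat_lit 0xa3587537d5c46)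
  (PL.C (nat_lit 0x39a46d3d) (nat_lit 0x170729ba1ca55) (nat_lit 0x0)
  (PL.C (nat_lit 0x39cd0747) (nat_lit 0x1f21e4dd247111) (nat_lit 0x0)
  (PL.C (nat_lit 0x39dafe06) (nat_lit 0x0) (nat_lit 0x37e79ec6f93e)
  (PL.C (nat_lit 0x39fe0b12) (nat_lit 0xb3b0ff39ef288) (nat_lit 0x0)
  (PL.C (nat_lit 0x3a117b4a) (nat_lit 0xf175cf40b56fe) (nat_lit 0x0)
  (PL.C (nat_lit 0x3a173403) (nat_lit 0x0) (nat_lit 0x4041b0d34edbc6)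
  (PL.C (nat_lit 0x3a2a7e83) (nat_lit 0x4aa2cd1226983) (nat_lit 0x0)
  (PL.C (nat_lit 0x3a6da321) (nat_lit 0x0) (nat_lit 0x92127a3300ec)
  (PL.C (nat_lit 0x3a7b1c72) (nat_lit 0x0) (nat_lit 0xf71cb654f7b34)
  (PL.C (nat_lit 0x3a851b36) (nat_lit 0x55f852fa42de6) (nat_lit 0x0)
  (PL.C (nat_lit 0x3a9e503d) (nat_lit 0x0) (nat_lit 0x39c1982b0ebab4)
  (PL.C (nat_lit 0x3aaaad25) (nat_lit 0x0) (nat_lit 0x2475142b0cbb2)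
  (PL.C (nat_lit 0x3b1f7e1b) (nat_lit 0x0) (nat_lit 0x39c1982b0ebab4)
  (PL.C (nat_lit 0x3b3042c5) (nat_lit 0x0) (nat_lit 0xcddacce4ae91)
  (PL.C (nat_lit 0x3b73dc22) (nat_lit 0xabca296b56490) (nat_lit 0x0)
  (PL.C (nat_lit 0x3bbcc113) (nat_lit 0x0) (nat_lit 0x92127a3300ec)
  (PL.C (nat_lit 0x3bcb37f3) (nat_lit 0x34376fe0a5cf7) (nat_lit 0x0) gp3_0_197))))))))))))))))))))

noncomputable def gp3_0_195 : PL :=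
  (PL.C (nat_lit 0x375b3a3f) (nat_lit 0x9d870b6fd8619) (nat_lit 0x0)
  (PL.C (nat_lit 0x37669da2) (nat_lit 0x0) (nat_lit 0x2d88ca9270a15)
  (PL.C (nat_lit 0x3771f75f) (nat_lit 0xd3394941e133) (nat_lit 0x0)
  (PL.C (nat_lit 0x37804701) (nat_lit 0x0) (nat_lit 0x2475142b0cbb2)
  (PL.C (nat_lit 0x378f68cd) (nat_lit 0x0) (nat_lit 0xc457a5fb57fa4)
  (PL.C (nat_lit 0x37af874d) (nat_lit 0x1ecb0097658384) (nat_lit 0x0)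
  (PL.C (nat_lit 0x37b2129f) (nat_lit 0x0) (nat_lit 0x7da3a8315916ff)
  (PL.C (nat_lit 0x37deb14e) (nat_lit 0x0) (nat_lit 0xf6fee3fa5eb7d)
  (PL.C (nat_lit 0x37eb4003) (nat_lit 0x34d19ff6adeb98) (nat_lit 0x0)
  (PL.C (nat_lit 0x37fa9637) (nat_lit 0x4aa2cd1226983) (nat_lit 0x0)
  (PL.C (nat_lit 0x38143786) (nat_lit 0x51b71a7d3c42c) (nat_lit 0x0)
  (PL.C (nat_lit 0x383b0b92) (nat_lit 0x0) (nat_lit 0x37e79ec6f93e)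
  (PL.C (nat_lit 0x384c36cd) (nat_lit 0x44f69e9c5a0a52c) (nat_lit 0x0)
  (PL.C (nat_lit 0x387bf446) (nat_lit 0x93e69e6eba8c0) (nat_lit 0x0)
  (PL.C (nat_lit 0x38958315) (nat_lit 0x0) (nat_lit 0x490e39c182c50f)
  (PL.C (nat_lit 0x38b1d4eb) (nat_lit 0x0) (nat_lit 0x47e46cc0c1c720)
  (PL.C (nat_lit 0x38b6f65e) (nat_lit 0x0) (nat_lit 0xa3587537d5c46)
  (PL.C (nat_lit 0x39190553) (nat_lit 0x0) (nat_lit 0x93773b7cb85d1)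
  (PL.C (nat_lit 0x392c28c7) (nat_lit 0x0) (nat_lit 0x435d25cb339563)
  (PL.C (nat_lit 0x392ec57d) (nat_lit 0x14b34c58b72e44) (nat_lit 0x0) gp3_0_196))))))))))))))))))))

noncomputable def gp3_0_194 : PL :=
  (PL.C (nat_lit 0x342e9ea9) (nat_lit 0x0) (nat_lit 0x378ce457acdae)
  (PL.C (nat_lit 0x344ca287) (nat_lit 0x0) (nat_lit 0x2605e23aeb5c4a)
  (PL.C (nat_lit 0x3474624a) (nat_lit 0x0) (nat_lit 0x29623f5ad9677)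
  (PL.C (nat_lit 0x34ad6167) (nat_lit 0x7354016166847d) (nat_lit 0x0)
  (PL.C (nat_lit 0x34bf098b) (nat_lit 0x16a037c38ce231a) (nat_lit 0x0)
  (PL.C (nat_lit 0x34d9525d) (nat_lit 0x20fe7e3fce0d51) (nat_lit 0x0)
  (PL.C (nat_lit 0x34ea25f2) (nat_lit 0x0) (nat_lit 0x118ae337d67ad)
  (PL.C (nat_lit 0x354c0832) (nat_lit 0x1980f7deb1c04f) (nat_lit 0x0)
  (PL.C (nat_lit 0x358ce646) (nat_lit 0x0) (nat_lit 0x1de8d2d9ec19d4)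
  (PL.C (nat_lit 0x3598e183) (nat_lit 0x0) (nat_lit 0x1ca37c5c284376)
  (PL.C (nat_lit 0x35f7873a) (nat_lit 0x4b798932810d5) (nat_lit 0x0)
  (PL.C (nat_lit 0x3600d5d5) (nat_lit 0x2e7095d46e43a9) (nat_lit 0x0)
  (PL.C (nat_lit 0x3612efc1) (nat_lit 0x168f0d267d9866) (nat_lit 0x0)
  (PL.C (nat_lit 0x36428ff7) (nat_lit 0x2d91fc522a02f2) (nat_lit 0x0)
  (PL.C (nat_lit 0x3685e71d) (nat_lit 0x0) (nat_lit 0x25ece44085e66c)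
  (PL.C (nat_lit 0x36a130e3) (nat_lit 0x0) (nat_lit 0x5961c1298e342a)
  (PL.C (nat_lit 0x36e24739) (nat_lit 0x0) (nat_lit 0x207f6e0ece1dee)
  (PL.C (nat_lit 0x3721a1f3) (nat_lit 0xa5f86b6ba61eb) (nat_lit 0x0)
  (PL.C (nat_lit 0x3736c031) (nat_lit 0x0) (nat_lit 0x4d1adee971b639)
  (PL.C (nat_lit 0x373861d9) (nat_lit 0x0) (nat_lit 0xb516961c4eab49) gp3_0_195))))))))))))))))))))

noncomputable def gp3_0_193 : PL :=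
  (PL.C (nat_lit 0x32136489) (nat_lit 0x0) (nat_lit 0xf3bf2acc9f5aa)
  (PL.C (nat_lit 0x32453234) (nat_lit 0x29fcf237c57d3) (nat_lit 0x0)
  (PL.C (nat_lit 0x325056f3) (nat_lit 0x37ce62a009068) (nat_lit 0x0)
  (PL.C (nat_lit 0x326ecabd) (nat_lit 0x0) (nat_lit 0x160217fb34bf5a)
  (PL.C (nat_lit 0x3283821d) (nat_lit 0x0) (nat_lit 0xddcf413f3f7c3)
  (PL.C (nat_lit 0x328a98c3) (nat_lit 0x0) (nat_lit 0x56f8730deeaa5)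
  (PL.C (nat_lit 0x32a8160f) (nat_lit 0x0) (nat_lit 0x128f2e56d9f551)
  (PL.C (nat_lit 0x32d33683) (nat_lit 0x6ff52aca6b59d5) (nat_lit 0x0)
  (PL.C (nat_lit 0x32e81723) (nat_lit 0x0) (nat_lit 0x1877336154eff8)
  (PL.C (nat_lit 0x32f0728d) (nat_lit 0x7354016166847d) (nat_lit 0x0)
  (PL.C (nat_lit 0x331729ae) (nat_lit 0x37ffdebedcc97) (nat_lit 0x0)
  (PL.C (nat_lit 0x3332c4d5) (nat_lit 0x494850e3d6c86) (nat_lit 0x0)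
  (PL.C (nat_lit 0x3334481d) (nat_lit 0x2ed1ce9dab0a6) (nat_lit 0x0)
  (PL.C (nat_lit 0x33655611) (nat_lit 0x4143c6ff2f9571) (nat_lit 0x0)
  (PL.C (nat_lit 0x3391a4eb) (nat_lit 0x0) (nat_lit 0x69e68da7526108)
  (PL.C (nat_lit 0x33a51f3b) (nat_lit 0x41c7c64456e5d8) (nat_lit 0x0)
  (PL.C (nat_lit 0x33bc9b1f) (nat_lit 0x0) (nat_lit 0xcf8f81d0583)
  (PL.C (nat_lit 0x33f853d5) (nat_lit 0x0) (nat_lit 0x21a21c94fdc7b5)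
  (PL.C (nat_lit 0x340020de) (nat_lit 0x59409467c50c9) (nat_lit 0x0)
  (PL.C (nat_lit 0x341d26dd) (nat_lit 0x0) (nat_lit 0xcddacce4ae91) gp3_0_194))))))))))))))))))))

noncomputable def gp3_0_192 : PL :=
  (PL.C (nat_lit 0x2ff0507e) (nat_lit 0x0) (nat_lit 0x10107eed6a714d)
  (PL.C (nat_lit 0x3004f6b9) (nat_lit 0x0) (nat_lit 0x128f2e56d9f551)
  (PL.C (nat_lit 0x3064c462) (nat_lit 0x0) (nat_lit 0xf71cb654f7b34)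
  (PL.C (nat_lit 0x306fd3ae) (nat_lit 0x0) (nat_lit 0x21e9c44c438de6)
  (PL.C (nat_lit 0x308866ad) (nat_lit 0x4576d229f75b6) (nat_lit 0x0)
  (PL.C (nat_lit 0x30a3c632) (nat_lit 0x59409467c50c9) (nat_lit 0x0)
  (PL.C (nat_lit 0x30a8218e) (nat_lit 0x125f19a55f23ea) (nat_lit 0x0)
  (PL.C (nat_lit 0x30d8a023) (nat_lit 0xac629ee20cf430) (nat_lit 0x0)
  (PL.C (nat_lit 0x30e04c1a) (nat_lit 0xc6fff16f45f92) (nat_lit 0x0)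
  (PL.C (nat_lit 0x31135b82) (nat_lit 0x9aef5e6bee8bd) (nat_lit 0x0)
  (PL.C (nat_lit 0x3119e5cf) (nat_lit 0x0) (nat_lit 0x53a4a29433ef1e)
  (PL.C (nat_lit 0x31419e66) (nat_lit 0x0) (nat_lit 0x869859c5f6b80)
  (PL.C (nat_lit 0x3143b343) (nat_lit 0x159345ed556f5b) (nat_lit 0x0)
  (PL.C (nat_lit 0x31861a79) (nat_lit 0x1039eb0761a019) (nat_lit 0x0)
  (PL.C (nat_lit 0x31a5cb7d) (nat_lit 0xa3bbfbe2d1880a) (nat_lit 0x0)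
  (PL.C (nat_lit 0x31af8de6) (nat_lit 0x0) (nat_lit 0x2a5da079dcb68)
  (PL.C (nat_lit 0x31dde967) (nat_lit 0x35c6b32a600f45) (nat_lit 0x0)
  (PL.C (nat_lit 0x31f6de99) (nat_lit 0x336411f955e0c4) (nat_lit 0x0)
  (PL.C (nat_lit 0x320099ab) (nat_lit 0x76342424ca06be) (nat_lit 0x0)
  (PL.C (nat_lit 0x320f29fb) (nat_lit 0x0) (nat_lit 0x490e39c182c50f) gp3_0_193))))))))))))))))))))

noncomputable def gp3_0_191 : PL :=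
  (PL.C (nat_lit 0x2e9beeb5) (nat_lit 0x1b87df0e561479) (nat_lit 0x0)
  (PL.C (nat_lit 0x2ea18732) (nat_lit 0x0) (nat_lit 0xf6fee3fa5eb7d)
  (PL.C (nat_lit 0x2ea5027f) (nat_lit 0xd161df3ad767a7) (nat_lit 0x0)
  (PL.C (nat_lit 0x2ebab97b) (nat_lit 0x0) (nat_lit 0x14f72ab7a5198)
  (PL.C (nat_lit 0x2ecc03f6) (nat_lit 0x0) (nat_lit 0x5b9ee0247494af)
  (PL.C (nat_lit 0x2ed40382) (nat_lit 0x55f852fa42de6) (nat_lit 0x0)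
  (PL.C (nat_lit 0x2ed708f1) (nat_lit 0x494850e3d6c86) (nat_lit 0x0)
  (PL.C (nat_lit 0x2ee82f47) (nat_lit 0x72bd8d4a9a3e) (nat_lit 0x0)
  (PL.C (nat_lit 0x2f01e341) (nat_lit 0x1ee61b1fd124d3) (nat_lit 0x0)
  (PL.C (nat_lit 0x2f2e4f31) (nat_lit 0x11fd51b5673fc) (nat_lit 0x0)
  (PL.C (nat_lit 0x2f344d4f) (nat_lit 0x168f0d267d9866) (nat_lit 0x0)
  (PL.C (nat_lit 0x2f3c0d21) (nat_lit 0x0) (nat_lit 0xab37913751d56)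
  (PL.C (nat_lit 0x2f441fd3) (nat_lit 0x1d53b8601c3ac0) (nat_lit 0x0)
  (PL.C (nat_lit 0x2f601a9a) (nat_lit 0x17dcfb6671573e) (nat_lit 0x0)
  (PL.C (nat_lit 0x2f77a95a) (nat_lit 0x19e7a1d36aa18) (nat_lit 0x0)
  (PL.C (nat_lit 0x2f879272) (nat_lit 0x0) (nat_lit 0x2f9cabbebcbea9)
  (PL.C (nat_lit 0x2fa9d4a7) (nat_lit 0x310af3e25d407c) (nat_lit 0x0)
  (PL.C (nat_lit 0x2fbe6fe6) (nat_lit 0x60787cc3f41ec7) (nat_lit 0x0)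
  (PL.C (nat_lit 0x2fd300a5) (nat_lit 0x0) (nat_lit 0x25ece44085e66c)
  (PL.C (nat_lit 0x2fe04456) (nat_lit 0x0) (nat_lit 0x1b9497c4f07301) gp3_0_192))))))))))))))))))))

noncomputable def gp3_0_190 : PL :=
  (PL.C (nat_lit 0x2c64e6ee) (nat_lit 0x503544e4c8729) (nat_lit 0x0)
  (PL.C (nat_lit 0x2c6996d3) (nat_lit 0x2e3cdfea14316) (nat_lit 0x0)
  (PL.C (nat_lit 0x2c77c343) (nat_lit 0x328a53fd1e0320) (nat_lit 0x0)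
  (PL.C (nat_lit 0x2c86aaf7) (nat_lit 0x0) (nat_lit 0xdb51a5fddd0a27)
  (PL.C (nat_lit 0x2cb3c26e) (nat_lit 0x3f11d1e804316) (nat_lit 0x0)
  (PL.C (nat_lit 0x2cfdb07a) (nat_lit 0x5f88026a87173) (nat_lit 0x0)
  (PL.C (nat_lit 0x2d0cc512) (nat_lit 0x18c4e4461dfa41) (nat_lit 0x0)
  (PL.C (nat_lit 0x2d202cbf) (nat_lit 0x2348ccfec1eeeb) (nat_lit 0x0)
  (PL.C (nat_lit 0x2d32fbb2) (nat_lit 0x1ffef056242b4) (nat_lit 0x0)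
  (PL.C (nat_lit 0x2d476f4f) (nat_lit 0x0) (nat_lit 0x23d428f37b1523)
  (PL.C (nat_lit 0x2d480f26) (nat_lit 0x0) (nat_lit 0x118ae337d67ad)
  (PL.C (nat_lit 0x2d87b92b) (nat_lit 0xcf495af8faae) (nat_lit 0x0)
  (PL.C (nat_lit 0x2d9f319b) (nat_lit 0x0) (nat_lit 0x21bddec6d0e32)
  (PL.C (nat_lit 0x2da59885) (nat_lit 0x34d19ff6adeb98) (nat_lit 0x0)
  (PL.C (nat_lit 0x2de14a62) (nat_lit 0x0) (nat_lit 0x1d2a975a2fa2c7)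
  (PL.C (nat_lit 0x2de6bb9e) (nat_lit 0x127f4994a39de6) (nat_lit 0x0)
  (PL.C (nat_lit 0x2dec0f3d) (nat_lit 0xe64843a4e5581) (nat_lit 0x0)
  (PL.C (nat_lit 0x2e549fdd) (nat_lit 0x28d6f8567bd37) (nat_lit 0x0)
  (PL.C (nat_lit 0x2e7c1179) (nat_lit 0x0) (nat_lit 0x1016228f3ad193)
  (PL.C (nat_lit 0x2e8a1aff) (nat_lit 0x0) (nat_lit 0x8f9cbb171dbbd) gp3_0_191))))))))))))))))))))

noncomputable def gp3_0_189 : PL :=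
  (PL.C (nat_lit 0x2aa43551) (nat_lit 0x0) (nat_lit 0x103c7efd2a40f1)
  (PL.C (nat_lit 0x2aa61336) (nat_lit 0x5f88026a87173) (nat_lit 0x0)
  (PL.C (nat_lit 0x2ab2804d) (nat_lit 0x0) (nat_lit 0x435d25cb339563)
  (PL.C (nat_lit 0x2ae391f9) (nat_lit 0x0) (nat_lit 0x1ca37c5c284376)
  (PL.C (nat_lit 0x2ae77dcf) (nat_lit 0x0) (nat_lit 0xb958b47ab14419)
  (PL.C (nat_lit 0x2aedee7a) (nat_lit 0x86b45afb7025) (nat_lit 0x0)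
  (PL.C (nat_lit 0x2b002b81) (nat_lit 0x0) (nat_lit 0xa6c741109ffbaf)
  (PL.C (nat_lit 0x2b088b63) (nat_lit 0x0) (nat_lit 0x14c2c571b0e2a25)
  (PL.C (nat_lit 0x2b0c2e01) (nat_lit 0x382592a53e0a13) (nat_lit 0x0)
  (PL.C (nat_lit 0x2b2f4ece) (nat_lit 0x60787cc3f41ec7) (nat_lit 0x0)
  (PL.C (nat_lit 0x2b40929b) (nat_lit 0x0) (nat_lit 0x12717a8f5de953)
  (PL.C (nat_lit 0x2b5e3b5d) (nat_lit 0x2e92185df868179) (nat_lit 0x0)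
  (PL.C (nat_lit 0x2b96b225) (nat_lit 0x13a0a33b576f66) (nat_lit 0x0)
  (PL.C (nat_lit 0x2bd4e55e) (nat_lit 0xab313a195479b) (nat_lit 0x0)
  (PL.C (nat_lit 0x2c0338ed) (nat_lit 0x0) (nat_lit 0x131fd4fa12d8f)
  (PL.C (nat_lit 0x2c03e782) (nat_lit 0x86b45afb7025) (nat_lit 0x0)
  (PL.C (nat_lit 0x2c077e0a) (nat_lit 0x0) (nat_lit 0x2e1ac87cc508b5)
  (PL.C (nat_lit 0x2c2eb149) (nat_lit 0x0) (nat_lit 0x3ca50a15b335d6)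
  (PL.C (nat_lit 0x2c357d32) (nat_lit 0x0) (nat_lit 0x4e6e1b776c4452)
  (PL.C (nat_lit 0x2c567daa) (nat_lit 0xf175cf40b56fe) (nat_lit 0x0) gp3_0_190))))))))))))))))))))

noncomputable def gp3_0_188 : PL :=
  (PL.C (nat_lit 0x2953a8a1) (nat_lit 0x2ed1ce9dab0a6) (nat_lit 0x0)
  (PL.C (nat_lit 0x29849732) (nat_lit 0x426c053a92e310) (nat_lit 0x0)
  (PL.C (nat_lit 0x29897709) (nat_lit 0xcf495af8faae) (nat_lit 0x0)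
  (PL.C (nat_lit 0x298b7bbe) (nat_lit 0x0) (nat_lit 0x4afaab452ec69)
  (PL.C (nat_lit 0x29963d8f) (nat_lit 0x1ee61b1fd124d3) (nat_lit 0x0)
  (PL.C (nat_lit 0x299e40f7) (nat_lit 0xd35268e2841ce) (nat_lit 0x0)
  (PL.C (nat_lit 0x29b3b527) (nat_lit 0x1588741f4f8a5) (nat_lit 0x0)
  (PL.C (nat_lit 0x29b48426) (nat_lit 0x86ca620936ab2) (nat_lit 0x0)
  (PL.C (nat_lit 0x29d02822) (nat_lit 0x1149fa39d669eb) (nat_lit 0x0)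
  (PL.C (nat_lit 0x29e015be) (nat_lit 0x0) (nat_lit 0x6724d36a964931)
  (PL.C (nat_lit 0x29e90c31) (nat_lit 0xa3bbfbe2d1880a) (nat_lit 0x0)
  (PL.C (nat_lit 0x2a116f55) (nat_lit 0x1f972b81812fc) (nat_lit 0x0)
  (PL.C (nat_lit 0x2a186b43) (nat_lit 0x0) (nat_lit 0x21bddec6d0e32)
  (PL.C (nat_lit 0x2a271ee5) (nat_lit 0x0) (nat_lit 0x3536ae522ac304)
  (PL.C (nat_lit 0x2a2d7cbd) (nat_lit 0x0) (nat_lit 0x1d1348c0d9e0c1)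
  (PL.C (nat_lit 0x2a35b397) (nat_lit 0x0) (nat_lit 0x63d626554bdcbb)
  (PL.C (nat_lit 0x2a53bbf9) (nat_lit 0x0) (nat_lit 0x8fb6c26639c9b)
  (PL.C (nat_lit 0x2a6e2443) (nat_lit 0x0) (nat_lit 0x99f81c200d672f)
  (PL.C (nat_lit 0x2a902256) (nat_lit 0x503544e4c8729) (nat_lit 0x0)
  (PL.C (nat_lit 0x2a92b871) (nat_lit 0x0) (nat_lit 0x1f93cbdf02810c) gp3_0_189))))))))))))))))))))

noncomputable def gp3_0_187 : PL :=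
  (PL.C (nat_lit 0x27d32b62) (nat_lit 0xcb2f30e8b33b) (nat_lit 0x0)
  (PL.C (nat_lit 0x27d3f9b5) (nat_lit 0x4fa9d00cea824) (nat_lit 0x0)
  (PL.C (nat_lit 0x27df9365) (nat_lit 0x42392373373e80) (nat_lit 0x0)
  (PL.C (nat_lit 0x27fe0282) (nat_lit 0x0) (nat_lit 0x21e9c44c438de6)
  (PL.C (nat_lit 0x28017682) (nat_lit 0x4bec54c5ecb77d) (nat_lit 0x0)
  (PL.C (nat_lit 0x281f53ba) (nat_lit 0x0) (nat_lit 0x10107eed6a714d)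
  (PL.C (nat_lit 0x28441529) (nat_lit 0xe424c25e55922) (nat_lit 0x0)
  (PL.C (nat_lit 0x2852d34f) (nat_lit 0x78867c3e5794a) (nat_lit 0x0)
  (PL.C (nat_lit 0x2877bef6) (nat_lit 0x0) (nat_lit 0x2f9cabbebcbea9)
  (PL.C (nat_lit 0x28892d5d) (nat_lit 0x0) (nat_lit 0x1879c570725423)
  (PL.C (nat_lit 0x289aebd9) (nat_lit 0x3d25c0e5505cf8) (nat_lit 0x0)
  (PL.C (nat_lit 0x28a1dc7b) (nat_lit 0x0) (nat_lit 0x3870bda9dad240)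
  (PL.C (nat_lit 0x28bc64d9) (nat_lit 0x0) (nat_lit 0x3401a43ffeefe4)
  (PL.C (nat_lit 0x28e362e6) (nat_lit 0x17dcfb6671573e) (nat_lit 0x0)
  (PL.C (nat_lit 0x28e7be42) (nat_lit 0x0) (nat_lit 0x4e0449d0c25048)
  (PL.C (nat_lit 0x28f95ce7) (nat_lit 0x41c7c64456e5d8) (nat_lit 0x0)
  (PL.C (nat_lit 0x292eb5bf) (nat_lit 0xe64843a4e5581) (nat_lit 0x0)
  (PL.C (nat_lit 0x29435241) (nat_lit 0x20bedefe80798) (nat_lit 0x0)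
  (PL.C (nat_lit 0x2943f06f) (nat_lit 0x0) (nat_lit 0x8f9cbb171dbbd)
  (PL.C (nat_lit 0x2947a2b1) (nat_lit 0x0) (nat_lit 0x5e595b9486471c) gp3_0_188))))))))))))))))))))

noncomputable def gp3_0_186 : PL :=
  (PL.C (nat_lit 0x2681fe6d) (nat_lit 0x0) (nat_lit 0xeab16ff4c25c5e)
  (PL.C (nat_lit 0x26830f47) (nat_lit 0x35c6b32a600f45) (nat_lit 0x0)
  (PL.C (nat_lit 0x268ff7eb) (nat_lit 0x39723838ebca11) (nat_lit 0x0)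
  (PL.C (nat_lit 0x2691cfcd) (nat_lit 0x0) (nat_lit 0x6a630c9925d4e)
  (PL.C (nat_lit 0x26ab4ae3) (nat_lit 0x28d6f8567bd37) (nat_lit 0x0)
  (PL.C (nat_lit 0x26c6ff02) (nat_lit 0x5b3726d0a33154) (nat_lit 0x0)
  (PL.C (nat_lit 0x26d61d97) (nat_lit 0x0) (nat_lit 0x91604b22c11801)
  (PL.C (nat_lit 0x26dcc0d5) (nat_lit 0x0) (nat_lit 0x2647b0bf9530c7)
  (PL.C (nat_lit 0x26ec9117) (nat_lit 0x79ec9910bebea) (nat_lit 0x0)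
  (PL.C (nat_lit 0x26f3c216) (nat_lit 0xcb2f30e8b33b) (nat_lit 0x0)
  (PL.C (nat_lit 0x2708adef) (nat_lit 0x0) (nat_lit 0x9eb432ecb6851)
  (PL.C (nat_lit 0x2714357e) (nat_lit 0x0) (nat_lit 0x3d01cc884ef77e)
  (PL.C (nat_lit 0x27164fd9) (nat_lit 0x42392373373e80) (nat_lit 0x0)
  (PL.C (nat_lit 0x271c736e) (nat_lit 0x0) (nat_lit 0x1c79133f3a537d)
  (PL.C (nat_lit 0x273d831d) (nat_lit 0x0) (nat_lit 0x30ca636f1769ed)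
  (PL.C (nat_lit 0x276012bb) (nat_lit 0xd161df3ad767a7) (nat_lit 0x0)
  (PL.C (nat_lit 0x276a5412) (nat_lit 0x0) (nat_lit 0x3d01cc884ef77e)
  (PL.C (nat_lit 0x277a1615) (nat_lit 0x0) (nat_lit 0x94ec15a0e9dc0)
  (PL.C (nat_lit 0x27ae7a05) (nat_lit 0x159345ed556f5b) (nat_lit 0x0)
  (PL.C (nat_lit 0x27c8b12b) (nat_lit 0x49663e201426e7) (nat_lit 0x0) gp3_0_187))))))))))))))))))))

noncomputable def gp3_0_185 : PL :=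
  (PL.C (nat_lit 0x24de93f1) (nat_lit 0x0) (nat_lit 0x39b3a4bfbb7f27)
  (PL.C (nat_lit 0x24e77c2a) (nat_lit 0x0) (nat_lit 0x66db6040cac1)
  (PL.C (nat_lit 0x24f6a4ea) (nat_lit 0x3a503eee1c42e) (nat_lit 0x0)
  (PL.C (nat_lit 0x25002f56) (nat_lit 0x0) (nat_lit 0x1c79133f3a537d)
  (PL.C (nat_lit 0x250a45de) (nat_lit 0x0) (nat_lit 0x11a92295cd6a5b)
  (PL.C (nat_lit 0x254458d7) (nat_lit 0x0) (nat_lit 0x23c5933a1ac66)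
  (PL.C (nat_lit 0x25478002) (nat_lit 0x2341671bf3951a) (nat_lit 0x0)
  (PL.C (nat_lit 0x2551b97a) (nat_lit 0x5b3726d0a33154) (nat_lit 0x0)
  (PL.C (nat_lit 0x25967931) (nat_lit 0x5fea7b2d560d15) (nat_lit 0x0)
  (PL.C (nat_lit 0x259d9f93) (nat_lit 0x0) (nat_lit 0x21a21c94fdc7b5)
  (PL.C (nat_lit 0x25a9d981) (nat_lit 0x0) (nat_lit 0x75fde9084ff98)
  (PL.C (nat_lit 0x25b9020e) (nat_lit 0x0) (nat_lit 0x7cb936a664f13b)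
  (PL.C (nat_lit 0x25c5f71d) (nat_lit 0x1edc816b33257d) (nat_lit 0x0)
  (PL.C (nat_lit 0x25e94e87) (nat_lit 0x0) (nat_lit 0x23c5933a1ac66)
  (PL.C (nat_lit 0x2617d5fb) (nat_lit 0x0) (nat_lit 0x75fde9084ff98)
  (PL.C (nat_lit 0x2629d3fe) (nat_lit 0x312d8a2a2fbe7) (nat_lit 0x0)
  (PL.C (nat_lit 0x262ddb7b) (nat_lit 0x0) (nat_lit 0x11217cf8616648)
  (PL.C (nat_lit 0x26348092) (nat_lit 0x4b798932810d5) (nat_lit 0x0)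
  (PL.C (nat_lit 0x263c5467) (nat_lit 0x6b4a5eff7996e) (nat_lit 0x0)
  (PL.C (nat_lit 0x2656cdb5) (nat_lit 0x0) (nat_lit 0x14f72ab7a5198) gp3_0_186))))))))))))))))))))

noncomputable def gp3_0_184 : PL :=
  (PL.C (nat_lit 0x23c3b761) (nat_lit 0x0) (nat_lit 0x17becf156090)
  (PL.C (nat_lit 0x23c6eb7f) (nat_lit 0x0) (nat_lit 0xa6842872f6dd0)
  (PL.C (nat_lit 0x23db580f) (nat_lit 0x0) (nat_lit 0x19c92a5222f97)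
  (PL.C (nat_lit 0x23f037f5) (nat_lit 0x0) (nat_lit 0x11217cf8616648)
  (PL.C (nat_lit 0x24008e8e) (nat_lit 0x1980f7deb1c04f) (nat_lit 0x0)
  (PL.C (nat_lit 0x240c9fd6) (nat_lit 0xd30ef05dee77e) (nat_lit 0x0)
  (PL.C (nat_lit 0x2415c349) (nat_lit 0x77230c2d6f9a4) (nat_lit 0x0)
  (PL.C (nat_lit 0x2429ef6d) (nat_lit 0x36ffe337c68bb0) (nat_lit 0x0)
  (PL.C (nat_lit 0x242c5ffa) (nat_lit 0x0) (nat_lit 0x1de8d2d9ec19d4)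
  (PL.C (nat_lit 0x2437c74b) (nat_lit 0x78867c3e5794a) (nat_lit 0x0)
  (PL.C (nat_lit 0x2453ae2f) (nat_lit 0x181aaf94247e573) (nat_lit 0x0)
  (PL.C (nat_lit 0x2456bfc5) (nat_lit 0x1e434f05548988) (nat_lit 0x0)
  (PL.C (nat_lit 0x245944be) (nat_lit 0x1ce7a94c326025) (nat_lit 0x0)
  (PL.C (nat_lit 0x2462edf1) (nat_lit 0x18f9ee87be606f) (nat_lit 0x0)
  (PL.C (nat_lit 0x2479a16b) (nat_lit 0x0) (nat_lit 0x5f296259b7b44e)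
  (PL.C (nat_lit 0x24889d0b) (nat_lit 0x6d7ddaea8e4c) (nat_lit 0x0)
  (PL.C (nat_lit 0x2496da26) (nat_lit 0x0) (nat_lit 0x1523af5ed34c03)
  (PL.C (nat_lit 0x249c0391) (nat_lit 0x0) (nat_lit 0xb1a1b3ce8f7ffc)
  (PL.C (nat_lit 0x24c116a2) (nat_lit 0x11c2602d7f1b6c) (nat_lit 0x0)
  (PL.C (nat_lit 0x24ca7c7f) (nat_lit 0x0) (nat_lit 0xc457a5fb57fa4) gp3_0_185))))))))))))))))))))

noncomputable def gp3_0_183 : PL :=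
  (PL.C (nat_lit 0x22f2be81) (nat_lit 0x0) (nat_lit 0x378ce457acdae)
  (PL.C (nat_lit 0x2306b1f1) (nat_lit 0x0) (nat_lit 0x8fb6c26639c9b)
  (PL.C (nat_lit 0x231b160b) (nat_lit 0x1ecb0097658384) (nat_lit 0x0)
  (PL.C (nat_lit 0x2333f603) (nat_lit 0xa21e4870c8a99) (nat_lit 0x0)
  (PL.C (nat_lit 0x23392bef) (nat_lit 0x0) (nat_lit 0x1dd41a7b2e6f187)
  (PL.C (nat_lit 0x233b8c3e) (nat_lit 0x0) (nat_lit 0x2e1ac87cc508b5)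
  (PL.C (nat_lit 0x233fc2b7) (nat_lit 0x0) (nat_lit 0xcf8f81d0583)
  (PL.C (nat_lit 0x23529c87) (nat_lit 0x0) (nat_lit 0x35f4616d3fbfe)
  (PL.C (nat_lit 0x23670807) (nat_lit 0x0) (nat_lit 0x6bbcd1dfd98da)
  (PL.C (nat_lit 0x2378bff9) (nat_lit 0x77230c2d6f9a4) (nat_lit 0x0)
  (PL.C (nat_lit 0x2386cb59) (nat_lit 0x51baa3468aac06) (nat_lit 0x0)
  (PL.C (nat_lit 0x238cffe9) (nat_lit 0x0) (nat_lit 0x73ca0f1cb15f)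
  (PL.C (nat_lit 0x238fe5cd) (nat_lit 0x9feaf5d0ca2dff) (nat_lit 0x0)
  (PL.C (nat_lit 0x23956339) (nat_lit 0x1dff604afa2321) (nat_lit 0x0)
  (PL.C (nat_lit 0x239d850f) (nat_lit 0x0) (nat_lit 0x69e68da7526108)
  (PL.C (nat_lit 0x23a15095) (nat_lit 0x0) (nat_lit 0xdb51a5fddd0a27)
  (PL.C (nat_lit 0x23a1b233) (nat_lit 0x0) (nat_lit 0xeab16ff4c25c5e)
  (PL.C (nat_lit 0x23b50c81) (nat_lit 0x355e676674698f) (nat_lit 0x0)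
  (PL.C (nat_lit 0x23b60983) (nat_lit 0x0) (nat_lit 0x1013d7dbb8642e)
  (PL.C (nat_lit 0x23bb4102) (nat_lit 0x0) (nat_lit 0x34dc8d1c7ab4af) gp3_0_184))))))))))))))))))))

noncomputable def gp3_0_182 : PL :=
  (PL.C (nat_lit 0x218e32b7) (nat_lit 0x21969cf8c15b96) (nat_lit 0x0)
  (PL.C (nat_lit 0x2199ead1) (nat_lit 0x0) (nat_lit 0x9a17ab29c336)
  (PL.C (nat_lit 0x21af570b) (nat_lit 0xac2adf05a63fda) (nat_lit 0x0)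
  (PL.C (nat_lit 0x21bc3e39) (nat_lit 0x0) (nat_lit 0x3ca50a15b335d6)
  (PL.C (nat_lit 0x21c5640a) (nat_lit 0x0) (nat_lit 0x3bbe577137e20d)
  (PL.C (nat_lit 0x21d287b7) (nat_lit 0x3fc19e9f748edd) (nat_lit 0x0)
  (PL.C (nat_lit 0x21f269b5) (nat_lit 0x0) (nat_lit 0xf3679a98d35ec)
  (PL.C (nat_lit 0x220a12cb) (nat_lit 0x0) (nat_lit 0xb958b47ab14419)
  (PL.C (nat_lit 0x2221d88e) (nat_lit 0x1824e3b7d84da) (nat_lit 0x0)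
  (PL.C (nat_lit 0x2222dabe) (nat_lit 0x77be3ab9fe2bfb) (nat_lit 0x0)
  (PL.C (nat_lit 0x22438eb6) (nat_lit 0x0) (nat_lit 0x1d2a975a2fa2c7)
  (PL.C (nat_lit 0x2246eefd) (nat_lit 0x0) (nat_lit 0x7e34763ae828f3)
  (PL.C (nat_lit 0x226e14d2) (nat_lit 0x0) (nat_lit 0x2697bf6ed76902)
  (PL.C (nat_lit 0x226eb749) (nat_lit 0x0) (nat_lit 0x47153783a51b60)
  (PL.C (nat_lit 0x22886841) (nat_lit 0x0) (nat_lit 0xcc4b586599513)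
  (PL.C (nat_lit 0x22aac094) (nat_lit 0x327836601c073) (nat_lit 0x0)
  (PL.C (nat_lit 0x22b41aa7) (nat_lit 0x0) (nat_lit 0xb1a1b3ce8f7ffc)
  (PL.C (nat_lit 0x22d59c6b) (nat_lit 0xa5f86b6ba61eb) (nat_lit 0x0)
  (PL.C (nat_lit 0x22d8bb35) (nat_lit 0x13853bb47bce561) (nat_lit 0x0)
  (PL.C (nat_lit 0x22e1497f) (nat_lit 0x0) (nat_lit 0x1f7fddb5b82ef3) gp3_0_183))))))))))))))))))))

noncomputable def gp3_0_181 : PL :=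
  (PL.C (nat_lit 0x208d7ad7) (nat_lit 0x0) (nat_lit 0x1f7fddb5b82ef3)
  (PL.C (nat_lit 0x20906ac2) (nat_lit 0x0) (nat_lit 0x5a059a234be00c)
  (PL.C (nat_lit 0x2099f2fd) (nat_lit 0x0) (nat_lit 0x1da8d34919826c)
  (PL.C (nat_lit 0x20a48baf) (nat_lit 0x0) (nat_lit 0x207f6e0ece1dee)
  (PL.C (nat_lit 0x20af7cb3) (nat_lit 0x0) (nat_lit 0x15847b162c6631)
  (PL.C (nat_lit 0x20bbee8a) (nat_lit 0x0) (nat_lit 0x4e6e1b776c4452)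
  (PL.C (nat_lit 0x20dba5b3) (nat_lit 0x181aaf94247e573) (nat_lit 0x0)
  (PL.C (nat_lit 0x20de876f) (nat_lit 0x1a546506831355) (nat_lit 0x0)
  (PL.C (nat_lit 0x20fee2fd) (nat_lit 0x0) (nat_lit 0xab37913751d56)
  (PL.C (nat_lit 0x210411a6) (nat_lit 0xab313a195479b) (nat_lit 0x0)
  (PL.C (nat_lit 0x21066d6b) (nat_lit 0x0) (nat_lit 0xec366d4c80187)
  (PL.C (nat_lit 0x2109f249) (nat_lit 0xb83b685bb48bed) (nat_lit 0x0)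
  (PL.C (nat_lit 0x211ffa51) (nat_lit 0x0) (nat_lit 0x13610ba5f69481)
  (PL.C (nat_lit 0x21266dd3) (nat_lit 0x238f341c17d252) (nat_lit 0x0)
  (PL.C (nat_lit 0x213deb0b) (nat_lit 0xda5d4dd02648f) (nat_lit 0x0)
  (PL.C (nat_lit 0x213e9b9a) (nat_lit 0x9a375f206bf123) (nat_lit 0x0)
  (PL.C (nat_lit 0x215f7152) (nat_lit 0x0) (nat_lit 0x7cb936a664f13b)
  (PL.C (nat_lit 0x21624306) (nat_lit 0x0) (nat_lit 0x940c4c4ab1ada)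
  (PL.C (nat_lit 0x2188a181) (nat_lit 0x0) (nat_lit 0x2d97dc42c8b5e8)
  (PL.C (nat_lit 0x218ae4a2) (nat_lit 0x1c26175b24cea6) (nat_lit 0x0) gp3_0_182))))))))))))))))))))

noncomputable def gp3_0_180 : PL :=
  (PL.C (nat_lit 0x1fb4c1fd) (nat_lit 0x0) (nat_lit 0x3a4caf95a2afad)
  (PL.C (nat_lit 0x1fc0e71f) (nat_lit 0x0) (nat_lit 0x38a80b77bdf2c8)
  (PL.C (nat_lit 0x1fcb3945) (nat_lit 0x2348ccfec1eeeb) (nat_lit 0x0)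
  (PL.C (nat_lit 0x1fd5e171) (nat_lit 0x0) (nat_lit 0x19ca98aad25895)
  (PL.C (nat_lit 0x1fe2006e) (nat_lit 0x1ce7a94c326025) (nat_lit 0x0)
  (PL.C (nat_lit 0x1fe8313f) (nat_lit 0xac629ee20cf430) (nat_lit 0x0)
  (PL.C (nat_lit 0x1feda54d) (nat_lit 0x1d53b8601c3ac0) (nat_lit 0x0)
  (PL.C (nat_lit 0x20034f26) (nat_lit 0x0) (nat_lit 0x3bbe577137e20d)
  (PL.C (nat_lit 0x2023371f) (nat_lit 0x0) (nat_lit 0x91604b22c11801)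
  (PL.C (nat_lit 0x202a8f59) (nat_lit 0x0) (nat_lit 0xde3dd13732ba2)
  (PL.C (nat_lit 0x203aa8a7) (nat_lit 0x0) (nat_lit 0x1f93cbdf02810c)
  (PL.C (nat_lit 0x204d0eb7) (nat_lit 0x0) (nat_lit 0xcc4b586599513)
  (PL.C (nat_lit 0x204d2969) (nat_lit 0x0) (nat_lit 0xec366d4c80187)
  (PL.C (nat_lit 0x204ff369) (nat_lit 0x0) (nat_lit 0x136715091b7830)
  (PL.C (nat_lit 0x205aef1e) (nat_lit 0xe2b1f46c64040) (nat_lit 0x0)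
  (PL.C (nat_lit 0x205d3949) (nat_lit 0x9d870b6fd8619) (nat_lit 0x0)
  (PL.C (nat_lit 0x20681265) (nat_lit 0x0) (nat_lit 0x15847b162c6631)
  (PL.C (nat_lit 0x206d2ecc) (nat_lit 0x327836601c073) (nat_lit 0x0)
  (PL.C (nat_lit 0x2078c6f5) (nat_lit 0x0) (nat_lit 0x13610ba5f69481)
  (PL.C (nat_lit 0x2081aee1) (nat_lit 0x0) (nat_lit 0x63d626554bdcbb) gp3_0_181))))))))))))))))))))

noncomputable def gp3_0_179 : PL :=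
  (PL.C (nat_lit 0x1eaa612b) (nat_lit 0x79ec9910bebea) (nat_lit 0x0)
  (PL.C (nat_lit 0x1ebeb419) (nat_lit 0x1a546506831355) (nat_lit 0x0)
  (PL.C (nat_lit 0x1eca6a57) (nat_lit 0x36ffe337c68bb0) (nat_lit 0x0)
  (PL.C (nat_lit 0x1ed14e85) (nat_lit 0x1428ff270b999c) (nat_lit 0x0)
  (PL.C (nat_lit 0x1ed303d7) (nat_lit 0x0) (nat_lit 0x16784bafa9839d)
  (PL.C (nat_lit 0x1ee3153e) (nat_lit 0x1e1bd4905cc2f) (nat_lit 0x0)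
  (PL.C (nat_lit 0x1f06bcaa) (nat_lit 0x0) (nat_lit 0xbe3a04292a62a)
  (PL.C (nat_lit 0x1f19148f) (nat_lit 0x0) (nat_lit 0x2647b0bf9530c7)
  (PL.C (nat_lit 0x1f1fa175) (nat_lit 0x0) (nat_lit 0x91103a7bf35124)
  (PL.C (nat_lit 0x1f272652) (nat_lit 0x0) (nat_lit 0x13c399959a5319)
  (PL.C (nat_lit 0x1f3a05f6) (nat_lit 0x1824e3b7d84da) (nat_lit 0x0)
  (PL.C (nat_lit 0x1f3c3afd) (nat_lit 0x0) (nat_lit 0x1013d7dbb8642e)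
  (PL.C (nat_lit 0x1f4574da) (nat_lit 0x0) (nat_lit 0x869859c5f6b80)
  (PL.C (nat_lit 0x1f479229) (nat_lit 0x0) (nat_lit 0x7fc2173ea8e71)
  (PL.C (nat_lit 0x1f4bdd03) (nat_lit 0x0) (nat_lit 0x9a85f301a059f)
  (PL.C (nat_lit 0x1f761cc3) (nat_lit 0x0) (nat_lit 0x5dcf02c64fb89)
  (PL.C (nat_lit 0x1f78338a) (nat_lit 0xd30ef05dee77e) (nat_lit 0x0)
  (PL.C (nat_lit 0x1f7d5e16) (nat_lit 0x16b5614b9ca329) (nat_lit 0x0)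
  (PL.C (nat_lit 0x1f82bfe2) (nat_lit 0x5645cca90e166) (nat_lit 0x0)
  (PL.C (nat_lit 0x1f905297) (nat_lit 0x42e1a9685313a5) (nat_lit 0x0) gp3_0_180))))))))))))))))))))

noncomputable def gp3_0_178 : PL :=
  (PL.C (nat_lit 0x1dc175d3) (nat_lit 0x0) (nat_lit 0x31d0c40a1d5b22)
  (PL.C (nat_lit 0x1de29c63) (nat_lit 0x2240abaeee5f39) (nat_lit 0x0)
  (PL.C (nat_lit 0x1deac247) (nat_lit 0x0) (nat_lit 0x89666215ffe712)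
  (PL.C (nat_lit 0x1dfc0dc7) (nat_lit 0x0) (nat_lit 0x6c84dfe381fed)
  (PL.C (nat_lit 0x1dfd6c7d) (nat_lit 0x239adaa22e52d51) (nat_lit 0x0)
  (PL.C (nat_lit 0x1e051bc1) (nat_lit 0x0) (nat_lit 0xee3d38860a51f)
  (PL.C (nat_lit 0x1e109b8b) (nat_lit 0x21551d1d818e04) (nat_lit 0x0)
  (PL.C (nat_lit 0x1e13cfa9) (nat_lit 0x16a037c38ce231a) (nat_lit 0x0)
  (PL.C (nat_lit 0x1e15732a) (nat_lit 0x0) (nat_lit 0x440643bd20410a)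
  (PL.C (nat_lit 0x1e1c3629) (nat_lit 0x37c446be6919e) (nat_lit 0x0)
  (PL.C (nat_lit 0x1e247845) (nat_lit 0x0) (nat_lit 0x40b796e070e491)
  (PL.C (nat_lit 0x1e2f9f8a) (nat_lit 0x86ca620936ab2) (nat_lit 0x0)
  (PL.C (nat_lit 0x1e506c47) (nat_lit 0x0) (nat_lit 0xa0b1bc470b794d)
  (PL.C (nat_lit 0x1e5a7b72) (nat_lit 0x0) (nat_lit 0x4d18101931f6)
  (PL.C (nat_lit 0x1e6a2112) (nat_lit 0x0) (nat_lit 0x21ddd0e6900c0c)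
  (PL.C (nat_lit 0x1e6e65ae) (nat_lit 0x2341671bf3951a) (nat_lit 0x0)
  (PL.C (nat_lit 0x1e77e41f) (nat_lit 0x0) (nat_lit 0x857b005b1bd37)
  (PL.C (nat_lit 0x1e8723e1) (nat_lit 0x0) (nat_lit 0x5f296259b7b44e)
  (PL.C (nat_lit 0x1e989151) (nat_lit 0x28dcff593d0b7) (nat_lit 0x0)
  (PL.C (nat_lit 0x1e9d5f7e) (nat_lit 0x25e52da0de5309) (nat_lit 0x0) gp3_0_179))))))))))))))))))))

noncomputable def gp3_0_177 : PL :=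
  (PL.C (nat_lit 0x1cb2c956) (nat_lit 0x19808f75aa209e) (nat_lit 0x0)
  (PL.C (nat_lit 0x1cbc0937) (nat_lit 0x6ff52aca6b59d5) (nat_lit 0x0)
  (PL.C (nat_lit 0x1cd5b712) (nat_lit 0x0) (nat_lit 0xff49a7027b0ed)
  (PL.C (nat_lit 0x1cdc2aa9) (nat_lit 0x0) (nat_lit 0x2687d229a6beb7)
  (PL.C (nat_lit 0x1d052eaf) (nat_lit 0x0) (nat_lit 0x19c92a5222f97)
  (PL.C (nat_lit 0x1d0f216e) (nat_lit 0x1b08b7efa7bb91) (nat_lit 0x0)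
  (PL.C (nat_lit 0x1d14245f) (nat_lit 0x1e434f05548988) (nat_lit 0x0)
  (PL.C (nat_lit 0x1d452299) (nat_lit 0x0) (nat_lit 0x73ca0f1cb15f)
  (PL.C (nat_lit 0x1d4b9183) (nat_lit 0x2e92185df868179) (nat_lit 0x0)
  (PL.C (nat_lit 0x1d57efac) (nat_lit 0x0) (nat_lit 0x1839439ef7d9c)
  (PL.C (nat_lit 0x1d5bcb37) (nat_lit 0x0) (nat_lit 0x8d2525395ad85d)
  (PL.C (nat_lit 0x1d6a7cc9) (nat_lit 0x13853bb47bce561) (nat_lit 0x0)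
  (PL.C (nat_lit 0x1d71b5bb) (nat_lit 0x39723838ebca11) (nat_lit 0x0)
  (PL.C (nat_lit 0x1d7b47b9) (nat_lit 0x0) (nat_lit 0x45a22fa90a5ebe)
  (PL.C (nat_lit 0x1d807245) (nat_lit 0x150683cd0190b9) (nat_lit 0x0)
  (PL.C (nat_lit 0x1d96245b) (nat_lit 0x28dcff593d0b7) (nat_lit 0x0)
  (PL.C (nat_lit 0x1d9899f4) (nat_lit 0x50cc02932be3e) (nat_lit 0x0)
  (PL.C (nat_lit 0x1d9bb9e2) (nat_lit 0xc6fff16f45f92) (nat_lit 0x0)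
  (PL.C (nat_lit 0x1dafa5f9) (nat_lit 0x0) (nat_lit 0x2c0ef4382cce9)
  (PL.C (nat_lit 0x1dbbe5eb) (nat_lit 0x239adaa22e52d51) (nat_lit 0x0) gp3_0_178))))))))))))))))))))

noncomputable def gp3_0_176 : PL :=
  (PL.C (nat_lit 0x1bc493e1) (nat_lit 0x3d579e28609338) (nat_lit 0x0)
  (PL.C (nat_lit 0x1bcf10d1) (nat_lit 0x0) (nat_lit 0x1407b07a2353203)
  (PL.C (nat_lit 0x1bdbb5fd) (nat_lit 0x144999987a513c) (nat_lit 0x0)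
  (PL.C (nat_lit 0x1be3d32d) (nat_lit 0xb83b685bb48bed) (nat_lit 0x0)
  (PL.C (nat_lit 0x1bfbde5f) (nat_lit 0x0) (nat_lit 0x83b8d35449348b)
  (PL.C (nat_lit 0x1c0b9f8e) (nat_lit 0x0) (nat_lit 0x6724d36a964931)
  (PL.C (nat_lit 0x1c0fb277) (nat_lit 0x0) (nat_lit 0x2bb1a293f83953)
  (PL.C (nat_lit 0x1c104782) (nat_lit 0x0) (nat_lit 0x21ddd0e6900c0c)
  (PL.C (nat_lit 0x1c191a5b) (nat_lit 0x0) (nat_lit 0x102f77ccf095d6)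
  (PL.C (nat_lit 0x1c37d2a6) (nat_lit 0x0) (nat_lit 0x2e7149811776)
  (PL.C (nat_lit 0x1c43fa45) (nat_lit 0x0) (nat_lit 0x45a22fa90a5ebe)
  (PL.C (nat_lit 0x1c496d82) (nat_lit 0x426c053a92e310) (nat_lit 0x0)
  (PL.C (nat_lit 0x1c5d5bd5) (nat_lit 0x0) (nat_lit 0x288bbd7e19baaf)
  (PL.C (nat_lit 0x1c6016e4) (nat_lit 0x50cc02932be3e) (nat_lit 0x0)
  (PL.C (nat_lit 0x1c66ddc1) (nat_lit 0x7bfd0f98f5b288) (nat_lit 0x0)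
  (PL.C (nat_lit 0x1c7504f7) (nat_lit 0x0) (nat_lit 0xee3d38860a51f)
  (PL.C (nat_lit 0x1c9389f9) (nat_lit 0x0) (nat_lit 0x9eb432ecb6851)
  (PL.C (nat_lit 0x1c97b6a6) (nat_lit 0x0) (nat_lit 0x34dc8d1c7ab4af)
  (PL.C (nat_lit 0x1c9e9efc) (nat_lit 0x0) (nat_lit 0x1839439ef7d9c)
  (PL.C (nat_lit 0x1cadaec9) (nat_lit 0x0) (nat_lit 0x3a4caf95a2afad) gp3_0_177))))))))))))))))))))

noncomputable def gp3_0_175 : PL :=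
  (PL.C (nat_lit 0x1b27407d) (nat_lit 0x0) (nat_lit 0x5dcf02c64fb89)
  (PL.C (nat_lit 0x1b2a252f) (nat_lit 0x0) (nat_lit 0x106cb13650e611e)
  (PL.C (nat_lit 0x1b2dd39d) (nat_lit 0x435849c25509a) (nat_lit 0x0)
  (PL.C (nat_lit 0x1b34d783) (nat_lit 0x0) (nat_lit 0x160217fb34bf5a)
  (PL.C (nat_lit 0x1b46d0cd) (nat_lit 0x1e09fa0bcc2656) (nat_lit 0x0)
  (PL.C (nat_lit 0x1b4d8347) (nat_lit 0x0) (nat_lit 0x35de719dd62dfa)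
  (PL.C (nat_lit 0x1b50e89a) (nat_lit 0x0) (nat_lit 0x2697bf6ed76902)
  (PL.C (nat_lit 0x1b5e09a9) (nat_lit 0x101bbc88d0a8ed) (nat_lit 0x0)
  (PL.C (nat_lit 0x1b694789) (nat_lit 0x0) (nat_lit 0x30ca636f1769ed)
  (PL.C (nat_lit 0x1b6dc787) (nat_lit 0x75443941342ffb) (nat_lit 0x0)
  (PL.C (nat_lit 0x1b70cc25) (nat_lit 0x76342424ca06be) (nat_lit 0x0)
  (PL.C (nat_lit 0x1b74792a) (nat_lit 0x25e52da0de5309) (nat_lit 0x0)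
  (PL.C (nat_lit 0x1b8236d6) (nat_lit 0x9aef5e6bee8bd) (nat_lit 0x0)
  (PL.C (nat_lit 0x1b82a04a) (nat_lit 0x0) (nat_lit 0xbe3a04292a62a)
  (PL.C (nat_lit 0x1b8d1b16) (nat_lit 0x77be3ab9fe2bfb) (nat_lit 0x0)
  (PL.C (nat_lit 0x1b924e37) (nat_lit 0x1d54dda1808afb) (nat_lit 0x0)
  (PL.C (nat_lit 0x1bb0fa06) (nat_lit 0x0) (nat_lit 0x4d18101931f6)
  (PL.C (nat_lit 0x1bb221dd) (nat_lit 0x0) (nat_lit 0x6a1742290e4eb6)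
  (PL.C (nat_lit 0x1bbcbdbf) (nat_lit 0x0) (nat_lit 0x14c2c571b0e2a25)
  (PL.C (nat_lit 0x1bbed5fa) (nat_lit 0x125f19a55f23ea) (nat_lit 0x0) gp3_0_176))))))))))))))))))))

noncomputable def gp3_0_174 : PL :=
  (PL.C (nat_lit 0x1a05c94a) (nat_lit 0x815fe2606e87f) (nat_lit 0x0)
  (PL.C (nat_lit 0x1a0c8635) (nat_lit 0x13a0a33b576f66) (nat_lit 0x0)
  (PL.C (nat_lit 0x1a0edfe6) (nat_lit 0x0) (nat_lit 0x9968689d5b86b)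
  (PL.C (nat_lit 0x1a220fe7) (nat_lit 0x31e4b5ca7a1f43) (nat_lit 0x0)
  (PL.C (nat_lit 0x1a45ec09) (nat_lit 0x0) (nat_lit 0x39b3a4bfbb7f27)
  (PL.C (nat_lit 0x1a4d4289) (nat_lit 0x8543653273a739) (nat_lit 0x0)
  (PL.C (nat_lit 0x1a51640e) (nat_lit 0x0) (nat_lit 0x244a765dfdd796)
  (PL.C (nat_lit 0x1a70680d) (nat_lit 0x0) (nat_lit 0x40b796e070e491)
  (PL.C (nat_lit 0x1a85cb72) (nat_lit 0x2cdd0ee410450d) (nat_lit 0x0)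
  (PL.C (nat_lit 0x1a8eed0f) (nat_lit 0x0) (nat_lit 0xde3dd13732ba2)
  (PL.C (nat_lit 0x1a950cee) (nat_lit 0x0) (nat_lit 0x9968689d5b86b)
  (PL.C (nat_lit 0x1aa50d33) (nat_lit 0x0) (nat_lit 0x19ca98aad25895)
  (PL.C (nat_lit 0x1aaaabcb) (nat_lit 0x2240abaeee5f39) (nat_lit 0x0)
  (PL.C (nat_lit 0x1abbbc57) (nat_lit 0x5d8344510f5c25) (nat_lit 0x0)
  (PL.C (nat_lit 0x1ad9f3d5) (nat_lit 0x0) (nat_lit 0x2d47b27b9f476b)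
  (PL.C (nat_lit 0x1adfc4f5) (nat_lit 0x42e1a9685313a5) (nat_lit 0x0)
  (PL.C (nat_lit 0x1ae7642b) (nat_lit 0x0) (nat_lit 0x2bb1a293f83953)
  (PL.C (nat_lit 0x1af47911) (nat_lit 0x283e98cec65287) (nat_lit 0x0)
  (PL.C (nat_lit 0x1af6bffb) (nat_lit 0x0) (nat_lit 0x1e494d45f8869)
  (PL.C (nat_lit 0x1b061e3e) (nat_lit 0x4bec54c5ecb77d) (nat_lit 0x0) gp3_0_175))))))))))))))))))))

noncomputable def gp3_0_173 : PL :=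
  (PL.C (nat_lit 0x192ea4be) (nat_lit 0x18c4e4461dfa41) (nat_lit 0x0)
  (PL.C (nat_lit 0x19412fa3) (nat_lit 0x0) (nat_lit 0x1d5ce5862d3ee4)
  (PL.C (nat_lit 0x1946345a) (nat_lit 0x46c14a3b4492e) (nat_lit 0x0)
  (PL.C (nat_lit 0x194fc923) (nat_lit 0x5eeb20be929b4) (nat_lit 0x0)
  (PL.C (nat_lit 0x1950f131) (nat_lit 0x0) (nat_lit 0x1dd41a7b2e6f187)
  (PL.C (nat_lit 0x19653952) (nat_lit 0x4230f530b2348e) (nat_lit 0x0)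
  (PL.C (nat_lit 0x196aee8d) (nat_lit 0x236b76414aa790) (nat_lit 0x0)
  (PL.C (nat_lit 0x196f1ac3) (nat_lit 0x0) (nat_lit 0x139bf0db12261b)
  (PL.C (nat_lit 0x19737399) (nat_lit 0x4a835d36a11a99) (nat_lit 0x0)
  (PL.C (nat_lit 0x197d8d9a) (nat_lit 0x1149fa39d669eb) (nat_lit 0x0)
  (PL.C (nat_lit 0x198f33ce) (nat_lit 0x0) (nat_lit 0x13c399959a5319)
  (PL.C (nat_lit 0x199701a3) (nat_lit 0x0) (nat_lit 0xa0b1bc470b794d)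
  (PL.C (nat_lit 0x19acb4da) (nat_lit 0x9a375f206bf123) (nat_lit 0x0)
  (PL.C (nat_lit 0x19b54ff2) (nat_lit 0x4bc94a7edd73a7) (nat_lit 0x0)
  (PL.C (nat_lit 0x19b77d8d) (nat_lit 0x4576d229f75b6) (nat_lit 0x0)
  (PL.C (nat_lit 0x19b852db) (nat_lit 0x283e98cec65287) (nat_lit 0x0)
  (PL.C (nat_lit 0x19c062cf) (nat_lit 0x342c29ab7d6d21) (nat_lit 0x0)
  (PL.C (nat_lit 0x19c78742) (nat_lit 0x1e1bd4905cc2f) (nat_lit 0x0)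
  (PL.C (nat_lit 0x19e413ba) (nat_lit 0x0) (nat_lit 0xdd68e13f11e6cd)
  (PL.C (nat_lit 0x19e8808e) (nat_lit 0x0) (nat_lit 0x1acf91da5668de) gp3_0_174))))))))))))))))))))

noncomputable def gp3_0_172 : PL :=
  (PL.C (nat_lit 0x188c041b) (nat_lit 0x382592a53e0a13) (nat_lit 0x0)
  (PL.C (nat_lit 0x1890cbf1) (nat_lit 0x0) (nat_lit 0x1e0b2b3d1bf842)
  (PL.C (nat_lit 0x18943e6f) (nat_lit 0x236b76414aa790) (nat_lit 0x0)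
  (PL.C (nat_lit 0x18a0756b) (nat_lit 0x0) (nat_lit 0x2e14d868a3d4ed)
  (PL.C (nat_lit 0x18a9e459) (nat_lit 0x0) (nat_lit 0x12717a8f5de953)
  (PL.C (nat_lit 0x18b4f99f) (nat_lit 0x0) (nat_lit 0xe0252d52d102f)
  (PL.C (nat_lit 0x18ba2f97) (nat_lit 0x0) (nat_lit 0x1996398b709195)
  (PL.C (nat_lit 0x18c88053) (nat_lit 0x342c29ab7d6d21) (nat_lit 0x0)
  (PL.C (nat_lit 0x18d4e7ad) (nat_lit 0x0) (nat_lit 0x5e595b9486471c)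
  (PL.C (nat_lit 0x18d83b3a) (nat_lit 0x46c14a3b4492e) (nat_lit 0x0)
  (PL.C (nat_lit 0x18eb6c29) (nat_lit 0x0) (nat_lit 0x37f6ebb99c1653)
  (PL.C (nat_lit 0x18f27d77) (nat_lit 0x0) (nat_lit 0x83c4abb5a0463)
  (PL.C (nat_lit 0x190d1729) (nat_lit 0x0) (nat_lit 0x510dd800acf6c0)
  (PL.C (nat_lit 0x190efb76) (nat_lit 0x3451cb8733ac3c) (nat_lit 0x0)
  (PL.C (nat_lit 0x190f499d) (nat_lit 0x13df30b7f398c2) (nat_lit 0x0)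
  (PL.C (nat_lit 0x1918e2ff) (nat_lit 0xe424c25e55922) (nat_lit 0x0)
  (PL.C (nat_lit 0x1919a0d7) (nat_lit 0x51baa3468aac06) (nat_lit 0x0)
  (PL.C (nat_lit 0x191be656) (nat_lit 0x4230f530b2348e) (nat_lit 0x0)
  (PL.C (nat_lit 0x19297791) (nat_lit 0x65d706d2d35ca) (nat_lit 0x0)
  (PL.C (nat_lit 0x192db4d1) (nat_lit 0x202f51434a84c) (nat_lit 0x0) gp3_0_173))))))))))))))))))))

noncomputable def gp3_0_171 : PL :=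
  (PL.C (nat_lit 0x177999d5) (nat_lit 0xf222dbc1a6fb6f) (nat_lit 0x0)
  (PL.C (nat_lit 0x178c685a) (nat_lit 0x0) (nat_lit 0xb29c22589c2a4)
  (PL.C (nat_lit 0x1797667b) (nat_lit 0x0) (nat_lit 0x35f4616d3fbfe)
  (PL.C (nat_lit 0x179a055a) (nat_lit 0x73ddde46e2b38) (nat_lit 0x0)
  (PL.C (nat_lit 0x17b35546) (nat_lit 0x0) (nat_lit 0xbe8510fa8d02)
  (PL.C (nat_lit 0x17b543de) (nat_lit 0xa7bce95f483dee) (nat_lit 0x0)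
  (PL.C (nat_lit 0x17ba91cf) (nat_lit 0x0) (nat_lit 0xbc6580630df1bd)
  (PL.C (nat_lit 0x17ce0856) (nat_lit 0x172cf59887f8d1) (nat_lit 0x0)
  (PL.C (nat_lit 0x17ceb102) (nat_lit 0x0) (nat_lit 0x6a823a71d16d7)
  (PL.C (nat_lit 0x17d7cf96) (nat_lit 0x3f11d1e804316) (nat_lit 0x0)
  (PL.C (nat_lit 0x17e7900a) (nat_lit 0x0) (nat_lit 0x7eab8c0ad65e4)
  (PL.C (nat_lit 0x17f1b7e9) (nat_lit 0x75443941342ffb) (nat_lit 0x0)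
  (PL.C (nat_lit 0x17f9be85) (nat_lit 0x0) (nat_lit 0x13f1966627eb0a5)
  (PL.C (nat_lit 0x1805b113) (nat_lit 0x9feaf5d0ca2dff) (nat_lit 0x0)
  (PL.C (nat_lit 0x18278a69) (nat_lit 0x0) (nat_lit 0x35de719dd62dfa)
  (PL.C (nat_lit 0x1839d52e) (nat_lit 0xb43a5992b2ea0) (nat_lit 0x0)
  (PL.C (nat_lit 0x1841f3f6) (nat_lit 0x22774e8c787db3) (nat_lit 0x0)
  (PL.C (nat_lit 0x184c66dd) (nat_lit 0x643caad0d15119) (nat_lit 0x0)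
  (PL.C (nat_lit 0x188428a1) (nat_lit 0x5110828cad34) (nat_lit 0x0)
  (PL.C (nat_lit 0x1886fdaa) (nat_lit 0x0) (nat_lit 0x11a92295cd6a5b) gp3_0_172))))))))))))))))))))

noncomputable def gp3_0_170 : PL :=
  (PL.C (nat_lit 0x16ba7465) (nat_lit 0xf2f11df3a303b) (nat_lit 0x0)
  (PL.C (nat_lit 0x16c11315) (nat_lit 0x0) (nat_lit 0x857b005b1bd37)
  (PL.C (nat_lit 0x16c2ff27) (nat_lit 0x0) (nat_lit 0x1e494d45f8869)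
  (PL.C (nat_lit 0x16caa04b) (nat_lit 0x0) (nat_lit 0x1674fbde47329)
  (PL.C (nat_lit 0x16dd5067) (nat_lit 0x41ac85d16a8552) (nat_lit 0x0)
  (PL.C (nat_lit 0x16ec8ab3) (nat_lit 0x0) (nat_lit 0x3389fe1aec89a5)
  (PL.C (nat_lit 0x16f5f553) (nat_lit 0x0) (nat_lit 0x131fd4fa12d8f)
  (PL.C (nat_lit 0x16fb153f) (nat_lit 0x0) (nat_lit 0x160b70048f0528)
  (PL.C (nat_lit 0x17059ad6) (nat_lit 0x0) (nat_lit 0x199a77e133085c)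
  (PL.C (nat_lit 0x171a300d) (nat_lit 0x0) (nat_lit 0x8ad69e223744ac)
  (PL.C (nat_lit 0x1723ad6d) (nat_lit 0x0) (nat_lit 0x1016228f3ad193)
  (PL.C (nat_lit 0x172779e3) (nat_lit 0x0) (nat_lit 0x288bbd7e19baaf)
  (PL.C (nat_lit 0x172bfc49) (nat_lit 0x453862442c4bc5) (nat_lit 0x0)
  (PL.C (nat_lit 0x172df163) (nat_lit 0x19a0ac766f582e) (nat_lit 0x0)
  (PL.C (nat_lit 0x173912f2) (nat_lit 0x11c2602d7f1b6c) (nat_lit 0x0)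
  (PL.C (nat_lit 0x1740dbaa) (nat_lit 0x0) (nat_lit 0xda676070623774)
  (PL.C (nat_lit 0x17464f53) (nat_lit 0x0) (nat_lit 0x36decc3d468bfe)
  (PL.C (nat_lit 0x1759cbf6) (nat_lit 0x0) (nat_lit 0x2e7149811776)
  (PL.C (nat_lit 0x175a1ff7) (nat_lit 0x4efd10f676e2f46) (nat_lit 0x0)
  (PL.C (nat_lit 0x1778874f) (nat_lit 0x13591a67d5f65b) (nat_lit 0x0) gp3_0_171))))))))))))))))))))

noncomputable def gp3_0_169 : PL :=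
  (PL.C (nat_lit 0x160448f2) (nat_lit 0x0) (nat_lit 0x104fe4852577ee)
  (PL.C (nat_lit 0x1606a186) (nat_lit 0x0) (nat_lit 0xcf1d9a19342f21)
  (PL.C (nat_lit 0x16101e55) (nat_lit 0xf222dbc1a6fb6f) (nat_lit 0x0)
  (PL.C (nat_lit 0x16299627) (nat_lit 0x0) (nat_lit 0x510dd800acf6c0)
  (PL.C (nat_lit 0x162b756d) (nat_lit 0x53d4ee8ce0b394) (nat_lit 0x0)
  (PL.C (nat_lit 0x1640bd43) (nat_lit 0x0) (nat_lit 0x36decc3d468bfe)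
  (PL.C (nat_lit 0x16418204) (nat_lit 0x0) (nat_lit 0x9ff128c314882)
  (PL.C (nat_lit 0x164670ff) (nat_lit 0x0) (nat_lit 0x6ac3310978c0e)
  (PL.C (nat_lit 0x16519701) (nat_lit 0x355e676674698f) (nat_lit 0x0)
  (PL.C (nat_lit 0x165b1656) (nat_lit 0x1bdecfae8e0380) (nat_lit 0x0)
  (PL.C (nat_lit 0x165c986c) (nat_lit 0x3bced28e26fc46) (nat_lit 0x0)
  (PL.C (nat_lit 0x165ecc7a) (nat_lit 0x4c221596d245c) (nat_lit 0x0)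
  (PL.C (nat_lit 0x1664974d) (nat_lit 0x40815db316d4de) (nat_lit 0x0)
  (PL.C (nat_lit 0x1674e4b2) (nat_lit 0x0) (nat_lit 0xc30e5e17c64912)
  (PL.C (nat_lit 0x1682c637) (nat_lit 0x0) (nat_lit 0x6bbcd1dfd98da)
  (PL.C (nat_lit 0x168c5a7a) (nat_lit 0x1e3aa97ed4cb24) (nat_lit 0x0)
  (PL.C (nat_lit 0x16912df3) (nat_lit 0x326ed92fcfa0650) (nat_lit 0x0)
  (PL.C (nat_lit 0x16a19bce) (nat_lit 0x9df252d10d3732) (nat_lit 0x0)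
  (PL.C (nat_lit 0x16aaafe9) (nat_lit 0x510b5be32284b0) (nat_lit 0x0)
  (PL.C (nat_lit 0x16b60817) (nat_lit 0xda5d4dd02648f) (nat_lit 0x0) gp3_0_170))))))))))))))))))))

noncomputable def gp3_0_168 : PL :=
  (PL.C (nat_lit 0x155df2ef) (nat_lit 0x40815db316d4de) (nat_lit 0x0)
  (PL.C (nat_lit 0x156c10a1) (nat_lit 0x2e9a867d4082be) (nat_lit 0x0)
  (PL.C (nat_lit 0x156ccf6a) (nat_lit 0x0) (nat_lit 0xdd68e13f11e6cd)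
  (PL.C (nat_lit 0x1571b4e6) (nat_lit 0x67e3e7d6628639) (nat_lit 0x0)
  (PL.C (nat_lit 0x157223ff) (nat_lit 0x0) (nat_lit 0x239824182cdf64)
  (PL.C (nat_lit 0x1578630f) (nat_lit 0x4ea49ecb90d467) (nat_lit 0x0)
  (PL.C (nat_lit 0x1588b47a) (nat_lit 0x0) (nat_lit 0x199a77e133085c)
  (PL.C (nat_lit 0x1588c646) (nat_lit 0x0) (nat_lit 0x104fe4852577ee)
  (PL.C (nat_lit 0x158aa246) (nat_lit 0x409589509b7199) (nat_lit 0x0)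
  (PL.C (nat_lit 0x15937b86) (nat_lit 0x0) (nat_lit 0x66db6040cac1)
  (PL.C (nat_lit 0x159ab6ee) (nat_lit 0x0) (nat_lit 0x4564b324684d8b)
  (PL.C (nat_lit 0x15b3a73a) (nat_lit 0x0) (nat_lit 0xda676070623774)
  (PL.C (nat_lit 0x15bcc4bd) (nat_lit 0x0) (nat_lit 0xf3679a98d35ec)
  (PL.C (nat_lit 0x15bd004b) (nat_lit 0x0) (nat_lit 0x8d2525395ad85d)
  (PL.C (nat_lit 0x15c307ca) (nat_lit 0x0) (nat_lit 0x1523af5ed34c03)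
  (PL.C (nat_lit 0x15ca5322) (nat_lit 0x0) (nat_lit 0x4564b324684d8b)
  (PL.C (nat_lit 0x15d3b5f7) (nat_lit 0x1e09fa0bcc2656) (nat_lit 0x0)
  (PL.C (nat_lit 0x15dd43eb) (nat_lit 0x51ba10e7e7e328) (nat_lit 0x0)
  (PL.C (nat_lit 0x15e10091) (nat_lit 0x0) (nat_lit 0x1fc9ad595d159)
  (PL.C (nat_lit 0x15ff41fe) (nat_lit 0x16b5614b9ca329) (nat_lit 0x0) gp3_0_169))))))))))))))))))))

noncomputable def gp3_0_167 : PL :=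
  (PL.C (nat_lit 0x14bcb975) (nat_lit 0x510b5be32284b0) (nat_lit 0x0)
  (PL.C (nat_lit 0x14bfa26b) (nat_lit 0x37c446be6919e) (nat_lit 0x0)
  (PL.C (nat_lit 0x14c3ace1) (nat_lit 0x0) (nat_lit 0xafb6168e06a22f)
  (PL.C (nat_lit 0x14d2d1fe) (nat_lit 0x0) (nat_lit 0x6a823a71d16d7)
  (PL.C (nat_lit 0x14dd3e02) (nat_lit 0x312d8a2a2fbe7) (nat_lit 0x0)
  (PL.C (nat_lit 0x14e97265) (nat_lit 0x10fb61915d26da4) (nat_lit 0x0)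
  (PL.C (nat_lit 0x14ed055f) (nat_lit 0x0) (nat_lit 0xaa01c7eefc4b95)
  (PL.C (nat_lit 0x14f96882) (nat_lit 0x82986427965) (nat_lit 0x0)
  (PL.C (nat_lit 0x1504ac6d) (nat_lit 0x0) (nat_lit 0x192e317f98231c)
  (PL.C (nat_lit 0x150ae1ba) (nat_lit 0x7d1bbc3159d4d4) (nat_lit 0x0)
  (PL.C (nat_lit 0x15196ec9) (nat_lit 0x187f2e25588f43) (nat_lit 0x0)
  (PL.C (nat_lit 0x15211f37) (nat_lit 0x0) (nat_lit 0x13d274c982b5)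
  (PL.C (nat_lit 0x15232bfe) (nat_lit 0x44257bec65b1a) (nat_lit 0x0)
  (PL.C (nat_lit 0x1532262e) (nat_lit 0x0) (nat_lit 0x440643bd20410a)
  (PL.C (nat_lit 0x1533bb51) (nat_lit 0x22d4ddb88d916b2) (nat_lit 0x0)
  (PL.C (nat_lit 0x153940f6) (nat_lit 0x0) (nat_lit 0x3dbbd2c0a2f7a1)
  (PL.C (nat_lit 0x1541bd1f) (nat_lit 0xaf0d16cee6ddd) (nat_lit 0x0)
  (PL.C (nat_lit 0x1545762a) (nat_lit 0x0) (nat_lit 0x5a059a234be00c)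
  (PL.C (nat_lit 0x154918de) (nat_lit 0x5645cca90e166) (nat_lit 0x0)
  (PL.C (nat_lit 0x15524409) (nat_lit 0x49663e201426e7) (nat_lit 0x0) gp3_0_168))))))))))))))))))))

noncomputable def gp3_0_166 : PL :=
  (PL.C (nat_lit 0x14111c25) (nat_lit 0x773a1d887419) (nat_lit 0x0)
  (PL.C (nat_lit 0x1412cec6) (nat_lit 0x420a653b514020) (nat_lit 0x0)
  (PL.C (nat_lit 0x1418502e) (nat_lit 0x6e288da374e0e2) (nat_lit 0x0)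
  (PL.C (nat_lit 0x1425e943) (nat_lit 0x0) (nat_lit 0x2e14d868a3d4ed)
  (PL.C (nat_lit 0x14284617) (nat_lit 0x0) (nat_lit 0x1db15cc8de47f3)
  (PL.C (nat_lit 0x142ffebd) (nat_lit 0x0) (nat_lit 0x94ec15a0e9dc0)
  (PL.C (nat_lit 0x143c524c) (nat_lit 0x0) (nat_lit 0x25320b40673c6b)
  (PL.C (nat_lit 0x143d54f3) (nat_lit 0x829b9f4ade226) (nat_lit 0x0)
  (PL.C (nat_lit 0x1447c3e3) (nat_lit 0xf6d312e0b2d17) (nat_lit 0x0)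
  (PL.C (nat_lit 0x144fed6a) (nat_lit 0x0) (nat_lit 0x1776ceb276a05a1)
  (PL.C (nat_lit 0x1454b1f1) (nat_lit 0x0) (nat_lit 0x13c0fb2fad66ea)
  (PL.C (nat_lit 0x1465b636) (nat_lit 0x194c510a372352) (nat_lit 0x0)
  (PL.C (nat_lit 0x1468ea54) (nat_lit 0x1da22a7cea30e6) (nat_lit 0x0)
  (PL.C (nat_lit 0x1468f161) (nat_lit 0x1ca7003022e8) (nat_lit 0x0)
  (PL.C (nat_lit 0x1469ef35) (nat_lit 0x0) (nat_lit 0x18a4fb349aef9)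
  (PL.C (nat_lit 0x1482fd11) (nat_lit 0x0) (nat_lit 0x4e1e8c5805d71c)
  (PL.C (nat_lit 0x148b89ae) (nat_lit 0x0) (nat_lit 0x4afaab452ec69)
  (PL.C (nat_lit 0x148cad3a) (nat_lit 0x0) (nat_lit 0x1f6b516956ae03)
  (PL.C (nat_lit 0x1494d581) (nat_lit 0xac2adf05a63fda) (nat_lit 0x0)
  (PL.C (nat_lit 0x14bb630a) (nat_lit 0x0) (nat_lit 0x1acf91da5668de) gp3_0_167))))))))))))))))))))

noncomputable def gp3_0_165 : PL :=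
  (PL.C (nat_lit 0x13807f01) (nat_lit 0x3e1abde3560dde) (nat_lit 0x0)
  (PL.C (nat_lit 0x13836c66) (nat_lit 0x0) (nat_lit 0xbe8510fa8d02)
  (PL.C (nat_lit 0x138bb6af) (nat_lit 0x0) (nat_lit 0x9a17ab29c336)
  (PL.C (nat_lit 0x138f852d) (nat_lit 0x0) (nat_lit 0x2dc19b9d72b1b26)
  (PL.C (nat_lit 0x13912c2f) (nat_lit 0xaf55b05627ce1) (nat_lit 0x0)
  (PL.C (nat_lit 0x1392877a) (nat_lit 0x0) (nat_lit 0xab3d5d9ee55fa5)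
  (PL.C (nat_lit 0x1397bb33) (nat_lit 0x0) (nat_lit 0x823550db2b2d)
  (PL.C (nat_lit 0x13a123d2) (nat_lit 0x4bc94a7edd73a7) (nat_lit 0x0)
  (PL.C (nat_lit 0x13a78526) (nat_lit 0x0) (nat_lit 0x466d238c1c1549)
  (PL.C (nat_lit 0x13b4e231) (nat_lit 0x202f51434a84c) (nat_lit 0x0)
  (PL.C (nat_lit 0x13b67813) (nat_lit 0x0) (nat_lit 0x2604663b615ddba)
  (PL.C (nat_lit 0x13b96d92) (nat_lit 0x194c510a372352) (nat_lit 0x0)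
  (PL.C (nat_lit 0x13c54d0d) (nat_lit 0x0) (nat_lit 0x37f6ebb99c1653)
  (PL.C (nat_lit 0x13ca6ea6) (nat_lit 0x62152a08ce9f5) (nat_lit 0x0)
  (PL.C (nat_lit 0x13cf7e1d) (nat_lit 0x0) (nat_lit 0x1d5ce5862d3ee4)
  (PL.C (nat_lit 0x13ec6842) (nat_lit 0x1fad8447c2b9e3) (nat_lit 0x0)
  (PL.C (nat_lit 0x13f0decb) (nat_lit 0x0) (nat_lit 0xe0252d52d102f)
  (PL.C (nat_lit 0x13f1d6da) (nat_lit 0x0) (nat_lit 0xa14cb597b067d5)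
  (PL.C (nat_lit 0x140367d6) (nat_lit 0x45b86892a97a66) (nat_lit 0x0)
  (PL.C (nat_lit 0x140bcfcb) (nat_lit 0x0) (nat_lit 0x6a1742290e4eb6) gp3_0_166))))))))))))))))))))

noncomputable def gp3_0_164 : PL :=
  (PL.C (nat_lit 0x12f8adfa) (nat_lit 0x45b86892a97a66) (nat_lit 0x0)
  (PL.C (nat_lit 0x12fcec9d) (nat_lit 0x0) (nat_lit 0xbc6580630df1bd)
  (PL.C (nat_lit 0x13051935) (nat_lit 0x0) (nat_lit 0x6c02dad9a8511)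
  (PL.C (nat_lit 0x130cd6ff) (nat_lit 0x5d8344510f5c25) (nat_lit 0x0)
  (PL.C (nat_lit 0x130d06a6) (nat_lit 0x815fe2606e87f) (nat_lit 0x0)
  (PL.C (nat_lit 0x1315a565) (nat_lit 0x187f2e25588f43) (nat_lit 0x0)
  (PL.C (nat_lit 0x131e7486) (nat_lit 0x44257bec65b1a) (nat_lit 0x0)
  (PL.C (nat_lit 0x131f329b) (nat_lit 0x3fc19e9f748edd) (nat_lit 0x0)
  (PL.C (nat_lit 0x1321326b) (nat_lit 0x0) (nat_lit 0xc37725b930afb)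
  (PL.C (nat_lit 0x13225f4d) (nat_lit 0x0) (nat_lit 0x1e0b2b3d1bf842)
  (PL.C (nat_lit 0x13261947) (nat_lit 0x0) (nat_lit 0x46762a0613d178)
  (PL.C (nat_lit 0x13290e0b) (nat_lit 0x0) (nat_lit 0x7e34763ae828f3)
  (PL.C (nat_lit 0x132faeb9) (nat_lit 0x0) (nat_lit 0xa83033faf671dd)
  (PL.C (nat_lit 0x133aa2a9) (nat_lit 0x0) (nat_lit 0x654f46d737e1b)
  (PL.C (nat_lit 0x133d71c6) (nat_lit 0x0) (nat_lit 0x7b80d8d1d5c515)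
  (PL.C (nat_lit 0x1349564d) (nat_lit 0x0) (nat_lit 0x2d97dc42c8b5e8)
  (PL.C (nat_lit 0x1358c9ca) (nat_lit 0x0) (nat_lit 0x7eab8c0ad65e4)
  (PL.C (nat_lit 0x1359f6bf) (nat_lit 0x3ac6776cfcb002) (nat_lit 0x0)
  (PL.C (nat_lit 0x1362c2ea) (nat_lit 0xb43a5992b2ea0) (nat_lit 0x0)
  (PL.C (nat_lit 0x137eb6b7) (nat_lit 0x0) (nat_lit 0x2687d229a6beb7) gp3_0_165))))))))))))))))))))

noncomputable def gp3_0_163 : PL :=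
  (PL.C (nat_lit 0x1274f6d7) (nat_lit 0x0) (nat_lit 0x28e6bf13fb8293)
  (PL.C (nat_lit 0x1275fc04) (nat_lit 0x0) (nat_lit 0x25320b40673c6b)
  (PL.C (nat_lit 0x1276c13e) (nat_lit 0x3dcbd5e9bc700a) (nat_lit 0x0)
  (PL.C (nat_lit 0x12842dd7) (nat_lit 0x0) (nat_lit 0x4041b0d34edbc6)
  (PL.C (nat_lit 0x128a0b36) (nat_lit 0x0) (nat_lit 0x633654618b035f)
  (PL.C (nat_lit 0x1297e21e) (nat_lit 0x0) (nat_lit 0xcf1d9a19342f21)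
  (PL.C (nat_lit 0x12983823) (nat_lit 0xc6a8e314de51a) (nat_lit 0x0)
  (PL.C (nat_lit 0x129fe469) (nat_lit 0x0) (nat_lit 0x1407b07a2353203)
  (PL.C (nat_lit 0x12afbf95) (nat_lit 0x0) (nat_lit 0xa578f6ee76ef62)
  (PL.C (nat_lit 0x12b82411) (nat_lit 0x0) (nat_lit 0x1996398b709195)
  (PL.C (nat_lit 0x12bd3e9d) (nat_lit 0x52d65c1a9b05d8) (nat_lit 0x0)
  (PL.C (nat_lit 0x12c1ca61) (nat_lit 0x13df30b7f398c2) (nat_lit 0x0)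
  (PL.C (nat_lit 0x12c3787f) (nat_lit 0x0) (nat_lit 0x1d5f0432771d7f)
  (PL.C (nat_lit 0x12c8ef8f) (nat_lit 0x1d54dda1808afb) (nat_lit 0x0)
  (PL.C (nat_lit 0x12cfe1c4) (nat_lit 0x2b988ee04371a) (nat_lit 0x0)
  (PL.C (nat_lit 0x12d7fc2e) (nat_lit 0x0) (nat_lit 0x466d238c1c1549)
  (PL.C (nat_lit 0x12e164a7) (nat_lit 0x5110828cad34) (nat_lit 0x0)
  (PL.C (nat_lit 0x12e73341) (nat_lit 0x5eeb20be929b4) (nat_lit 0x0)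
  (PL.C (nat_lit 0x12f49829) (nat_lit 0x4fa9d00cea824) (nat_lit 0x0)
  (PL.C (nat_lit 0x12f7666d) (nat_lit 0x4a1e44997c53c2) (nat_lit 0x0) gp3_0_164))))))))))))))))))))

noncomputable def gp3_0_162 : PL :=
  (PL.C (nat_lit 0x11d62453) (nat_lit 0xd6e0a9909ebe9) (nat_lit 0x0)
  (PL.C (nat_lit 0x11d99d99) (nat_lit 0x1f80829acdd3fb) (nat_lit 0x0)
  (PL.C (nat_lit 0x11e6a28e) (nat_lit 0x13868756c18192) (nat_lit 0x0)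
  (PL.C (nat_lit 0x11ea834e) (nat_lit 0x7d1bbc3159d4d4) (nat_lit 0x0)
  (PL.C (nat_lit 0x11f850b6) (nat_lit 0x1f4d2ee68536f37) (nat_lit 0x0)
  (PL.C (nat_lit 0x11f9d552) (nat_lit 0x0) (nat_lit 0x7c7e74047e3)
  (PL.C (nat_lit 0x12117dc5) (nat_lit 0x20c55bc90b0b84) (nat_lit 0x0)
  (PL.C (nat_lit 0x121a2afe) (nat_lit 0x82986427965) (nat_lit 0x0)
  (PL.C (nat_lit 0x121c18ca) (nat_lit 0xab0c121e9c1388) (nat_lit 0x0)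
  (PL.C (nat_lit 0x12235641) (nat_lit 0x42d66aba887f12) (nat_lit 0x0)
  (PL.C (nat_lit 0x1223e5c3) (nat_lit 0x41ac85d16a8552) (nat_lit 0x0)
  (PL.C (nat_lit 0x122f35de) (nat_lit 0x0) (nat_lit 0x33f24d9dc9494f)
  (PL.C (nat_lit 0x1233acda) (nat_lit 0x0) (nat_lit 0x2c81cfe70e9387)
  (PL.C (nat_lit 0x123b83fb) (nat_lit 0x0) (nat_lit 0x13c0fb2fad66ea)
  (PL.C (nat_lit 0x124773ff) (nat_lit 0x0) (nat_lit 0x10db8d92074eaa9)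
  (PL.C (nat_lit 0x124da61c) (nat_lit 0x1da22a7cea30e6) (nat_lit 0x0)
  (PL.C (nat_lit 0x12543181) (nat_lit 0x3e1abde3560dde) (nat_lit 0x0)
  (PL.C (nat_lit 0x1261897a) (nat_lit 0x0) (nat_lit 0x3a048008d72bd2)
  (PL.C (nat_lit 0x1263b1ed) (nat_lit 0x0) (nat_lit 0x1db15cc8de47f3)
  (PL.C (nat_lit 0x126ce613) (nat_lit 0x0) (nat_lit 0x136715091b7830) gp3_0_163))))))))))))))))))))

noncomputable def gp3_0_161 : PL :=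
  (PL.C (nat_lit 0x116491c5) (nat_lit 0xc0609aceda219) (nat_lit 0x0)
  (PL.C (nat_lit 0x1166209b) (nat_lit 0x0) (nat_lit 0x51c0f82821c7a)
  (PL.C (nat_lit 0x116b31eb) (nat_lit 0x464b3032c31149) (nat_lit 0x0)
  (PL.C (nat_lit 0x116c0a9a) (nat_lit 0x250c2634b3476) (nat_lit 0x0)
  (PL.C (nat_lit 0x116d463b) (nat_lit 0x65d706d2d35ca) (nat_lit 0x0)
  (PL.C (nat_lit 0x1177390b) (nat_lit 0x1ca7003022e8) (nat_lit 0x0)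
  (PL.C (nat_lit 0x1180e803) (nat_lit 0x0) (nat_lit 0xa83033faf671dd)
  (PL.C (nat_lit 0x11816409) (nat_lit 0x0) (nat_lit 0x2d47b27b9f476b)
  (PL.C (nat_lit 0x11874225) (nat_lit 0x1506a0dadae1701) (nat_lit 0x0)
  (PL.C (nat_lit 0x118818a3) (nat_lit 0x170729ba1ca55) (nat_lit 0x0)
  (PL.C (nat_lit 0x1188d706) (nat_lit 0x24ca022ce39572) (nat_lit 0x0)
  (PL.C (nat_lit 0x1193adad) (nat_lit 0x0) (nat_lit 0x83c4abb5a0463)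
  (PL.C (nat_lit 0x11a0455e) (nat_lit 0x6e288da374e0e2) (nat_lit 0x0)
  (PL.C (nat_lit 0x11a724b9) (nat_lit 0x0) (nat_lit 0x2047e9bb02816b7)
  (PL.C (nat_lit 0x11aa291b) (nat_lit 0x0) (nat_lit 0x24acabd82742b3)
  (PL.C (nat_lit 0x11b15939) (nat_lit 0x0) (nat_lit 0x26d0762154ec553)
  (PL.C (nat_lit 0x11b49e0a) (nat_lit 0x67e3e7d6628639) (nat_lit 0x0)
  (PL.C (nat_lit 0x11c35e22) (nat_lit 0x0) (nat_lit 0x3dbbd2c0a2f7a1)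
  (PL.C (nat_lit 0x11c452d7) (nat_lit 0x4ea49ecb90d467) (nat_lit 0x0)
  (PL.C (nat_lit 0x11c71d32) (nat_lit 0x1fad8447c2b9e3) (nat_lit 0x0) gp3_0_162))))))))))))))))))))

noncomputable def gp3_0_160 : PL :=
  (PL.C (nat_lit 0x10f7a266) (nat_lit 0x4a6c4637662353) (nat_lit 0x0)
  (PL.C (nat_lit 0x10fef165) (nat_lit 0xd645784a2dd12) (nat_lit 0x0)
  (PL.C (nat_lit 0x11128fd7) (nat_lit 0x0) (nat_lit 0x93603eb79ed17f)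
  (PL.C (nat_lit 0x1115d9ff) (nat_lit 0x829b9f4ade226) (nat_lit 0x0)
  (PL.C (nat_lit 0x111919fd) (nat_lit 0x0) (nat_lit 0x83b8d35449348b)
  (PL.C (nat_lit 0x111ea8af) (nat_lit 0x0) (nat_lit 0x4e1e8c5805d71c)
  (PL.C (nat_lit 0x112465b3) (nat_lit 0x6ec1f82909ce8a) (nat_lit 0x0)
  (PL.C (nat_lit 0x1124fe5e) (nat_lit 0xe2b1f46c64040) (nat_lit 0x0)
  (PL.C (nat_lit 0x11258c92) (nat_lit 0x1f4d2ee68536f37) (nat_lit 0x0)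
  (PL.C (nat_lit 0x112aec8a) (nat_lit 0x0) (nat_lit 0x6ec2a1abd24a26)
  (PL.C (nat_lit 0x112b7053) (nat_lit 0x18f9ee87be606f) (nat_lit 0x0)
  (PL.C (nat_lit 0x113b80c9) (nat_lit 0x773a1d887419) (nat_lit 0x0)
  (PL.C (nat_lit 0x114522ed) (nat_lit 0x464b3032c31149) (nat_lit 0x0)
  (PL.C (nat_lit 0x114800eb) (nat_lit 0x182a165895bc93) (nat_lit 0x0)
  (PL.C (nat_lit 0x114e09fd) (nat_lit 0x0) (nat_lit 0x2047e9bb02816b7)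
  (PL.C (nat_lit 0x1150a715) (nat_lit 0xf6d312e0b2d17) (nat_lit 0x0)
  (PL.C (nat_lit 0x1151fe6b) (nat_lit 0x2fc053dfe7b01) (nat_lit 0x0)
  (PL.C (nat_lit 0x115930dc) (nat_lit 0xe056250a8a364) (nat_lit 0x0)
  (PL.C (nat_lit 0x115aa995) (nat_lit 0x3ac6776cfcb002) (nat_lit 0x0)
  (PL.C (nat_lit 0x115daece) (nat_lit 0x1b08b7efa7bb91) (nat_lit 0x0) gp3_0_161))))))))))))))))))))

noncomputable def gp3_0_159 : PL :=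
  (PL.C (nat_lit 0x109460a5) (nat_lit 0x207ac7ba197945) (nat_lit 0x0)
  (PL.C (nat_lit 0x109cf2c6) (nat_lit 0x0) (nat_lit 0x3e1084869fbcdb)
  (PL.C (nat_lit 0x10a1a8fa) (nat_lit 0x0) (nat_lit 0xf5c78eed3ff6e)
  (PL.C (nat_lit 0x10a4019f) (nat_lit 0x0) (nat_lit 0xa578f6ee76ef62)
  (PL.C (nat_lit 0x10a41ab5) (nat_lit 0x65c76e7c4489ce) (nat_lit 0x0)
  (PL.C (nat_lit 0x10b364c6) (nat_lit 0x56f963a54ec1ea) (nat_lit 0x0)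
  (PL.C (nat_lit 0x10b4a7a4) (nat_lit 0x884a112240dd22) (nat_lit 0x0)
  (PL.C (nat_lit 0x10b4dbbe) (nat_lit 0x390d0bb3ec5316) (nat_lit 0x0)
  (PL.C (nat_lit 0x10b92151) (nat_lit 0x0) (nat_lit 0x89666215ffe712)
  (PL.C (nat_lit 0x10bebc4d) (nat_lit 0x0) (nat_lit 0x24acabd82742b3)
  (PL.C (nat_lit 0x10c2433f) (nat_lit 0x0) (nat_lit 0x1d2cd69dab70b2b)
  (PL.C (nat_lit 0x10c64fb6) (nat_lit 0x0) (nat_lit 0x56299f7f8d095)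
  (PL.C (nat_lit 0x10c92336) (nat_lit 0x90c8f433af42c) (nat_lit 0x0)
  (PL.C (nat_lit 0x10d61fc2) (nat_lit 0x0) (nat_lit 0x2193e6fd883105)
  (PL.C (nat_lit 0x10d7c4db) (nat_lit 0xc90fcb514b2c2) (nat_lit 0x0)
  (PL.C (nat_lit 0x10d9783c) (nat_lit 0x0) (nat_lit 0x7b0e99d5b4da9)
  (PL.C (nat_lit 0x10f08579) (nat_lit 0x0) (nat_lit 0x18a4fb349aef9)
  (PL.C (nat_lit 0x10f0d469) (nat_lit 0x0) (nat_lit 0x1de12d3a6a7f81)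
  (PL.C (nat_lit 0x10f1f45e) (nat_lit 0x47660c91dffd86) (nat_lit 0x0)
  (PL.C (nat_lit 0x10f4bc82) (nat_lit 0x0) (nat_lit 0x14ab10bb1c3551) gp3_0_160))))))))))))))))))))

noncomputable def gp3_0_158 : PL :=
  (PL.C (nat_lit 0x103053c1) (nat_lit 0x3d579e28609338) (nat_lit 0x0)
  (PL.C (nat_lit 0x10320d5b) (nat_lit 0x0) (nat_lit 0x13f1966627eb0a5)
  (PL.C (nat_lit 0x1032ef3e) (nat_lit 0x0) (nat_lit 0x9455ac5e676fe)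
  (PL.C (nat_lit 0x103b05af) (nat_lit 0x28d5a96a885466) (nat_lit 0x0)
  (PL.C (nat_lit 0x1052b075) (nat_lit 0x0) (nat_lit 0xaa8b6f58b3960d4)
  (PL.C (nat_lit 0x10581b16) (nat_lit 0xf41cf8bbbd331) (nat_lit 0x0)
  (PL.C (nat_lit 0x105d5812) (nat_lit 0x19808f75aa209e) (nat_lit 0x0)
  (PL.C (nat_lit 0x105e7a7d) (nat_lit 0x0) (nat_lit 0x698d5d8c0ae30)
  (PL.C (nat_lit 0x106087f6) (nat_lit 0x0) (nat_lit 0x46ff0fe7e52319)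
  (PL.C (nat_lit 0x1062d44a) (nat_lit 0x47660c91dffd86) (nat_lit 0x0)
  (PL.C (nat_lit 0x1067f0fd) (nat_lit 0x9974fe191a40c6) (nat_lit 0x0)
  (PL.C (nat_lit 0x106af8f2) (nat_lit 0x0) (nat_lit 0x4c11f3c671ef32)
  (PL.C (nat_lit 0x10702703) (nat_lit 0x207ac7ba197945) (nat_lit 0x0)
  (PL.C (nat_lit 0x107142e6) (nat_lit 0x0) (nat_lit 0xff49a7027b0ed)
  (PL.C (nat_lit 0x1078a66a) (nat_lit 0x0) (nat_lit 0x24ea7804fed6cc)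
  (PL.C (nat_lit 0x10798953) (nat_lit 0x0) (nat_lit 0x18932ae4be9bd9)
  (PL.C (nat_lit 0x107c1fba) (nat_lit 0x0) (nat_lit 0x215efa41046223)
  (PL.C (nat_lit 0x108320a1) (nat_lit 0x0) (nat_lit 0x26d0762154ec553)
  (PL.C (nat_lit 0x1085aae2) (nat_lit 0x0) (nat_lit 0x6ec2a1abd24a26)
  (PL.C (nat_lit 0x1090277c) (nat_lit 0x0) (nat_lit 0x7b0e99d5b4da9) gp3_0_159))))))))))))))))))))

noncomputable def gp3_0_157 : PL :=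
  (PL.C (nat_lit 0xfd6e0bb) (nat_lit 0x12ed25467f8b5a5) (nat_lit 0x0)
  (PL.C (nat_lit 0xfdac451) (nat_lit 0x1506a0dadae1701) (nat_lit 0x0)
  (PL.C (nat_lit 0xfdf20ac) (nat_lit 0x9d2d37121b406) (nat_lit 0x0)
  (PL.C (nat_lit 0xfdfeb8b) (nat_lit 0x0) (nat_lit 0xbb8e801955bfc)
  (PL.C (nat_lit 0xfe2b3af) (nat_lit 0x0) (nat_lit 0x102f77ccf095d6)
  (PL.C (nat_lit 0xfebc53f) (nat_lit 0x0) (nat_lit 0x1674fbde47329)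
  (PL.C (nat_lit 0xfefb55c) (nat_lit 0x0) (nat_lit 0x2f652df1c6cc1)
  (PL.C (nat_lit 0xff50a05) (nat_lit 0x0) (nat_lit 0x6c84dfe381fed)
  (PL.C (nat_lit 0xffc1e4b) (nat_lit 0x0) (nat_lit 0x15c69a2bc70f0a)
  (PL.C (nat_lit 0x1000588d) (nat_lit 0x11fd51b5673fc) (nat_lit 0x0)
  (PL.C (nat_lit 0x1002b6e1) (nat_lit 0x2448d1436cbf05d) (nat_lit 0x0)
  (PL.C (nat_lit 0x1003cb62) (nat_lit 0xa7bce95f483dee) (nat_lit 0x0)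
  (PL.C (nat_lit 0x1005b599) (nat_lit 0x144999987a513c) (nat_lit 0x0)
  (PL.C (nat_lit 0x10178f49) (nat_lit 0x0) (nat_lit 0x176c5994d9cb67)
  (PL.C (nat_lit 0x101a5c46) (nat_lit 0x0) (nat_lit 0x2c81cfe70e9387)
  (PL.C (nat_lit 0x101bf275) (nat_lit 0x0) (nat_lit 0xad37d1a80242c7)
  (PL.C (nat_lit 0x10214bf5) (nat_lit 0x0) (nat_lit 0x160b70048f0528)
  (PL.C (nat_lit 0x1025ff57) (nat_lit 0x11764f6ad7f3ac) (nat_lit 0x0)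
  (PL.C (nat_lit 0x102a22a3) (nat_lit 0x1b0dd3b4829694) (nat_lit 0x0)
  (PL.C (nat_lit 0x102ca177) (nat_lit 0x3d25c0e5505cf8) (nat_lit 0x0) gp3_0_158))))))))))))))))))))

noncomputable def gp3_0_156 : PL :=
  (PL.C (nat_lit 0xf520e2a) (nat_lit 0x0) (nat_lit 0x18c26394ee4dc)
  (PL.C (nat_lit 0xf5911e4) (nat_lit 0x0) (nat_lit 0x1908a20e73cb58)
  (PL.C (nat_lit 0xf7136bb) (nat_lit 0x0) (nat_lit 0x90fed67cb4e3b3)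
  (PL.C (nat_lit 0xf73f642) (nat_lit 0x19f86f6d2fcc42) (nat_lit 0x0)
  (PL.C (nat_lit 0xf78f145) (nat_lit 0x0) (nat_lit 0x8ad69e223744ac)
  (PL.C (nat_lit 0xf81c675) (nat_lit 0x52d65c1a9b05d8) (nat_lit 0x0)
  (PL.C (nat_lit 0xf8434e2) (nat_lit 0x0) (nat_lit 0x11a14016dcaa6b1)
  (PL.C (nat_lit 0xf8a3e5b) (nat_lit 0x9ed3b7303a450f) (nat_lit 0x0)
  (PL.C (nat_lit 0xf9132a4) (nat_lit 0x2b988ee04371a) (nat_lit 0x0)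
  (PL.C (nat_lit 0xfa5af8a) (nat_lit 0x0) (nat_lit 0x256d3c1868f23b)
  (PL.C (nat_lit 0xfa6668e) (nat_lit 0x538c2f7b9ca201) (nat_lit 0x0)
  (PL.C (nat_lit 0xfa6b067) (nat_lit 0x0) (nat_lit 0x3870bda9dad240)
  (PL.C (nat_lit 0xfb25def) (nat_lit 0xc0609aceda219) (nat_lit 0x0)
  (PL.C (nat_lit 0xfb2f03c) (nat_lit 0x0) (nat_lit 0xc7e8eb0493e43)
  (PL.C (nat_lit 0xfba4452) (nat_lit 0x0) (nat_lit 0xb29c22589c2a4)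
  (PL.C (nat_lit 0xfc63aa9) (nat_lit 0x0) (nat_lit 0x2604663b615ddba)
  (PL.C (nat_lit 0xfcce384) (nat_lit 0x0) (nat_lit 0x18b234f9de969)
  (PL.C (nat_lit 0xfcef745) (nat_lit 0x1e6cc5180242bb) (nat_lit 0x0)
  (PL.C (nat_lit 0xfd1b68a) (nat_lit 0x318016270e59f76) (nat_lit 0x0)
  (PL.C (nat_lit 0xfd575a5) (nat_lit 0x0) (nat_lit 0x2c0ef4382cce9) gp3_0_157))))))))))))))))))))

noncomputable def gp3_0_155 : PL :=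
  (PL.C (nat_lit 0xec7a39e) (nat_lit 0x61dbbbeeba7c4e) (nat_lit 0x0)
  (PL.C (nat_lit 0xed5d382) (nat_lit 0x0) (nat_lit 0x11a14016dcaa6b1)
  (PL.C (nat_lit 0xed8a045) (nat_lit 0xc54cd103e65ae1) (nat_lit 0x0)
  (PL.C (nat_lit 0xed9a0aa) (nat_lit 0x0) (nat_lit 0xacf875c5fce180)
  (PL.C (nat_lit 0xee10f56) (nat_lit 0x172cf59887f8d1) (nat_lit 0x0)
  (PL.C (nat_lit 0xee9c377) (nat_lit 0xa086a64de73f7) (nat_lit 0x0)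
  (PL.C (nat_lit 0xeef79dd) (nat_lit 0x0) (nat_lit 0x2dc19b9d72b1b26)
  (PL.C (nat_lit 0xef957d3) (nat_lit 0x0) (nat_lit 0x87ad34ba6c8c37)
  (PL.C (nat_lit 0xeff7e73) (nat_lit 0x0) (nat_lit 0x139bf0db12261b)
  (PL.C (nat_lit 0xf01d97a) (nat_lit 0x73ddde46e2b38) (nat_lit 0x0)
  (PL.C (nat_lit 0xf048567) (nat_lit 0x170a8e86ea060ac) (nat_lit 0x0)
  (PL.C (nat_lit 0xf1177bd) (nat_lit 0x0) (nat_lit 0x7ccd63d9286900)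
  (PL.C (nat_lit 0xf1c2505) (nat_lit 0x0) (nat_lit 0x25c790f0ff0126)
  (PL.C (nat_lit 0xf1c7546) (nat_lit 0x0) (nat_lit 0x6902c2bfefcdd)
  (PL.C (nat_lit 0xf2b620e) (nat_lit 0x0) (nat_lit 0x1776ceb276a05a1)
  (PL.C (nat_lit 0xf2caa1a) (nat_lit 0x0) (nat_lit 0x7c7e74047e3)
  (PL.C (nat_lit 0xf31c032) (nat_lit 0x0) (nat_lit 0x2099985b536da)
  (PL.C (nat_lit 0xf384baf) (nat_lit 0x233362c003855) (nat_lit 0x0)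
  (PL.C (nat_lit 0xf3e359a) (nat_lit 0x0) (nat_lit 0x4519f9ccaca4b8)
  (PL.C (nat_lit 0xf45f65f) (nat_lit 0xcae788baf73271) (nat_lit 0x0) gp3_0_156))))))))))))))))))))

noncomputable def gp3_0_154 : PL :=
  (PL.C (nat_lit 0xe6ef4b1) (nat_lit 0x238f341c17d252) (nat_lit 0x0)
  (PL.C (nat_lit 0xe73a5ab) (nat_lit 0x643caad0d15119) (nat_lit 0x0)
  (PL.C (nat_lit 0xe787dbf) (nat_lit 0x0) (nat_lit 0x75f577500c02f9)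
  (PL.C (nat_lit 0xe7dd87e) (nat_lit 0x9df252d10d3732) (nat_lit 0x0)
  (PL.C (nat_lit 0xe7e0032) (nat_lit 0x0) (nat_lit 0xab3d5d9ee55fa5)
  (PL.C (nat_lit 0xe80d091) (nat_lit 0x8543653273a739) (nat_lit 0x0)
  (PL.C (nat_lit 0xe834b23) (nat_lit 0x4a835d36a11a99) (nat_lit 0x0)
  (PL.C (nat_lit 0xe8d23fa) (nat_lit 0x0) (nat_lit 0x33f24d9dc9494f)
  (PL.C (nat_lit 0xe9ba4b1) (nat_lit 0x10fb61915d26da4) (nat_lit 0x0)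
  (PL.C (nat_lit 0xe9efb57) (nat_lit 0x196bab41eb1538) (nat_lit 0x0)
  (PL.C (nat_lit 0xea08a2d) (nat_lit 0x0) (nat_lit 0x105d265eea0f1c6)
  (PL.C (nat_lit 0xea64ca9) (nat_lit 0x0) (nat_lit 0x3389fe1aec89a5)
  (PL.C (nat_lit 0xeaea999) (nat_lit 0xc6a8e314de51a) (nat_lit 0x0)
  (PL.C (nat_lit 0xeaffa47) (nat_lit 0x0) (nat_lit 0x24d3b6e3bbb2f)
  (PL.C (nat_lit 0xeb39575) (nat_lit 0x1cd5698d16c5e8) (nat_lit 0x0)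
  (PL.C (nat_lit 0xeb5698e) (nat_lit 0x538c2f7b9ca201) (nat_lit 0x0)
  (PL.C (nat_lit 0xebc7b5b) (nat_lit 0x0) (nat_lit 0x21f1fafeae3688)
  (PL.C (nat_lit 0xec288fb) (nat_lit 0xd6e0a9909ebe9) (nat_lit 0x0)
  (PL.C (nat_lit 0xec6641a) (nat_lit 0x56f963a54ec1ea) (nat_lit 0x0)
  (PL.C (nat_lit 0xec6954f) (nat_lit 0xf2f11df3a303b) (nat_lit 0x0) gp3_0_155))))))))))))))))))))

noncomputable def gp3_0_153 : PL :=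
  (PL.C (nat_lit 0xdf0f6ee) (nat_lit 0x708d8fd7d50918) (nat_lit 0x0)
  (PL.C (nat_lit 0xdf358ea) (nat_lit 0x0) (nat_lit 0xc929b4c49a1e4d)
  (PL.C (nat_lit 0xe020c6b) (nat_lit 0x21969cf8c15b96) (nat_lit 0x0)
  (PL.C (nat_lit 0xe031d9e) (nat_lit 0x0) (nat_lit 0x201a185d2e328b)
  (PL.C (nat_lit 0xe10f486) (nat_lit 0x0) (nat_lit 0x929cb71b14b093)
  (PL.C (nat_lit 0xe125755) (nat_lit 0x0) (nat_lit 0x297326ca29596)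
  (PL.C (nat_lit 0xe22ac41) (nat_lit 0x0) (nat_lit 0xaa01c7eefc4b95)
  (PL.C (nat_lit 0xe25a67b) (nat_lit 0x0) (nat_lit 0x1d2cd69dab70b2b)
  (PL.C (nat_lit 0xe2999fb) (nat_lit 0x0) (nat_lit 0x525bee34ef256d)
  (PL.C (nat_lit 0xe2bd36a) (nat_lit 0xcaa73e0e89594) (nat_lit 0x0)
  (PL.C (nat_lit 0xe32a673) (nat_lit 0x0) (nat_lit 0x654f46d737e1b)
  (PL.C (nat_lit 0xe36d806) (nat_lit 0x2cdd0ee410450d) (nat_lit 0x0)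
  (PL.C (nat_lit 0xe39c18d) (nat_lit 0x0) (nat_lit 0x16784bafa9839d)
  (PL.C (nat_lit 0xe480b16) (nat_lit 0x5c826955a136ef) (nat_lit 0x0)
  (PL.C (nat_lit 0xe4cf5cd) (nat_lit 0x196bab41eb1538) (nat_lit 0x0)
  (PL.C (nat_lit 0xe50420a) (nat_lit 0x1791bba185962a) (nat_lit 0x0)
  (PL.C (nat_lit 0xe58dfb9) (nat_lit 0x0) (nat_lit 0x75f577500c02f9)
  (PL.C (nat_lit 0xe5b22fc) (nat_lit 0x0) (nat_lit 0x1908a20e73cb58)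
  (PL.C (nat_lit 0xe6516a5) (nat_lit 0x0) (nat_lit 0x36310471fcde6)
  (PL.C (nat_lit 0xe696f73) (nat_lit 0x0) (nat_lit 0x90fed67cb4e3b3) gp3_0_154))))))))))))))))))))

noncomputable def gp3_0_152 : PL :=
  (PL.C (nat_lit 0xd8bab55) (nat_lit 0x0) (nat_lit 0x11685d608ef656)
  (PL.C (nat_lit 0xd8dcbf6) (nat_lit 0x0) (nat_lit 0x1299f7ced7dd64)
  (PL.C (nat_lit 0xd8ec3d3) (nat_lit 0x0) (nat_lit 0xb55bf633cb6d)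
  (PL.C (nat_lit 0xd992424) (nat_lit 0x0) (nat_lit 0x10c620270681d)
  (PL.C (nat_lit 0xd994109) (nat_lit 0x0) (nat_lit 0x54a101cca843d8)
  (PL.C (nat_lit 0xd9b4b96) (nat_lit 0x584133f24e96) (nat_lit 0x0)
  (PL.C (nat_lit 0xd9bf4ce) (nat_lit 0x658fdc4fef32d) (nat_lit 0x0)
  (PL.C (nat_lit 0xda11d89) (nat_lit 0x0) (nat_lit 0x14e7845e4c5861)
  (PL.C (nat_lit 0xda1bcf3) (nat_lit 0x2448d1436cbf05d) (nat_lit 0x0)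
  (PL.C (nat_lit 0xdabea07) (nat_lit 0x7bfd0f98f5b288) (nat_lit 0x0)
  (PL.C (nat_lit 0xdaca8b6) (nat_lit 0x0) (nat_lit 0xe114857f4b079)
  (PL.C (nat_lit 0xdafbb87) (nat_lit 0x0) (nat_lit 0x34f0bec2571236)
  (PL.C (nat_lit 0xdb88e56) (nat_lit 0x0) (nat_lit 0xc30e5e17c64912)
  (PL.C (nat_lit 0xdc77709) (nat_lit 0x19e883d179b01fbb) (nat_lit 0x0)
  (PL.C (nat_lit 0xdd3264e) (nat_lit 0x0) (nat_lit 0x6902c2bfefcdd)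
  (PL.C (nat_lit 0xdd516f2) (nat_lit 0x420a653b514020) (nat_lit 0x0)
  (PL.C (nat_lit 0xdd7c896) (nat_lit 0x0) (nat_lit 0xa0649801948514)
  (PL.C (nat_lit 0xdd967b1) (nat_lit 0x0) (nat_lit 0xa40505a61c34b1)
  (PL.C (nat_lit 0xdddbf0d) (nat_lit 0x0) (nat_lit 0x10cb8785d79d43)
  (PL.C (nat_lit 0xde1e154) (nat_lit 0x9d2d37121b406) (nat_lit 0x0) gp3_0_153))))))))))))))))))))

noncomputable def gp3_0_151 : PL :=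
  (PL.C (nat_lit 0xd4b3f32) (nat_lit 0x0) (nat_lit 0x24ea7804fed6cc)
  (PL.C (nat_lit 0xd4dc17d) (nat_lit 0x0) (nat_lit 0x4ca8894ca7c1f)
  (PL.C (nat_lit 0xd50e50d) (nat_lit 0x4efd10f676e2f46) (nat_lit 0x0)
  (PL.C (nat_lit 0xd584519) (nat_lit 0x19170273de1b6ff) (nat_lit 0x0)
  (PL.C (nat_lit 0xd5d1cdf) (nat_lit 0x0) (nat_lit 0x1e645f8279206)
  (PL.C (nat_lit 0xd5d3532) (nat_lit 0x3dcbd5e9bc700a) (nat_lit 0x0)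
  (PL.C (nat_lit 0xd5ef2e7) (nat_lit 0x0) (nat_lit 0x1d5f0432771d7f)
  (PL.C (nat_lit 0xd60bd6e) (nat_lit 0x0) (nat_lit 0x39c19bee93822)
  (PL.C (nat_lit 0xd623b55) (nat_lit 0x0) (nat_lit 0xafb6168e06a22f)
  (PL.C (nat_lit 0xd6694f7) (nat_lit 0x233362c003855) (nat_lit 0x0)
  (PL.C (nat_lit 0xd6b12db) (nat_lit 0x1f26150a029ef) (nat_lit 0x0)
  (PL.C (nat_lit 0xd6e9b82) (nat_lit 0x0) (nat_lit 0x4c11f3c671ef32)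
  (PL.C (nat_lit 0xd702eba) (nat_lit 0x897baa65d4d6b9) (nat_lit 0x0)
  (PL.C (nat_lit 0xd72cab5) (nat_lit 0x0) (nat_lit 0x18932ae4be9bd9)
  (PL.C (nat_lit 0xd75547e) (nat_lit 0x0) (nat_lit 0x244a765dfdd796)
  (PL.C (nat_lit 0xd7d33db) (nat_lit 0x0) (nat_lit 0x49b8f8a08b20fce)
  (PL.C (nat_lit 0xd7e38a2) (nat_lit 0x0) (nat_lit 0x45f64a63efe414)
  (PL.C (nat_lit 0xd7e62b7) (nat_lit 0x0) (nat_lit 0x23684889b6f7d2)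
  (PL.C (nat_lit 0xd83f425) (nat_lit 0x11764f6ad7f3ac) (nat_lit 0x0)
  (PL.C (nat_lit 0xd852d42) (nat_lit 0x3562d619d7394a) (nat_lit 0x0) gp3_0_152))))))))))))))))))))

noncomputable def gp3_0_150 : PL :=
  (PL.C (nat_lit 0xce8f06f) (nat_lit 0x0) (nat_lit 0xaa4172de09bfed)
  (PL.C (nat_lit 0xcef5f59) (nat_lit 0x1b0dd3b4829694) (nat_lit 0x0)
  (PL.C (nat_lit 0xcfd3eb7) (nat_lit 0x0) (nat_lit 0x192e317f98231c)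
  (PL.C (nat_lit 0xcff247a) (nat_lit 0x0) (nat_lit 0x7b80d8d1d5c515)
  (PL.C (nat_lit 0xd024844) (nat_lit 0x0) (nat_lit 0x18b234f9de969)
  (PL.C (nat_lit 0xd0920e7) (nat_lit 0x0) (nat_lit 0x93603eb79ed17f)
  (PL.C (nat_lit 0xd0b72ca) (nat_lit 0x1d8e1c2478cbc5) (nat_lit 0x0)
  (PL.C (nat_lit 0xd0fa719) (nat_lit 0x101bbc88d0a8ed) (nat_lit 0x0)
  (PL.C (nat_lit 0xd0fd222) (nat_lit 0x209fdf9767808) (nat_lit 0x0)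
  (PL.C (nat_lit 0xd157277) (nat_lit 0x1ab5f8fdfb3057) (nat_lit 0x0)
  (PL.C (nat_lit 0xd194207) (nat_lit 0x0) (nat_lit 0x11685d608ef656)
  (PL.C (nat_lit 0xd1a58c4) (nat_lit 0x0) (nat_lit 0x49826c4cd5ec2e)
  (PL.C (nat_lit 0xd1b7f25) (nat_lit 0xb61d9282ce10fe) (nat_lit 0x0)
  (PL.C (nat_lit 0xd234176) (nat_lit 0x90c8f433af42c) (nat_lit 0x0)
  (PL.C (nat_lit 0xd26490c) (nat_lit 0x0) (nat_lit 0x10c620270681d)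
  (PL.C (nat_lit 0xd2a4fdf) (nat_lit 0xda25b7579dc23) (nat_lit 0x0)
  (PL.C (nat_lit 0xd2e335e) (nat_lit 0x0) (nat_lit 0x3e1084869fbcdb)
  (PL.C (nat_lit 0xd34febe) (nat_lit 0x0) (nat_lit 0x2193e6fd883105)
  (PL.C (nat_lit 0xd37b371) (nat_lit 0xaf55b05627ce1) (nat_lit 0x0)
  (PL.C (nat_lit 0xd42b561) (nat_lit 0x0) (nat_lit 0x7b1176ef68c51) gp3_0_151))))))))))))))))))))

noncomputable def gp3_0_149 : PL :=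
  (PL.C (nat_lit 0xc92fd85) (nat_lit 0x25d4295357ca9c1) (nat_lit 0x0)
  (PL.C (nat_lit 0xc96431a) (nat_lit 0xf41cf8bbbd331) (nat_lit 0x0)
  (PL.C (nat_lit 0xc96c993) (nat_lit 0x0) (nat_lit 0x9a568eb2de901a)
  (PL.C (nat_lit 0xc9b9c11) (nat_lit 0x453862442c4bc5) (nat_lit 0x0)
  (PL.C (nat_lit 0xca35c8d) (nat_lit 0x0) (nat_lit 0x4059ef2a511f4)
  (PL.C (nat_lit 0xca3f05f) (nat_lit 0xbcd71e8505fbe3) (nat_lit 0x0)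
  (PL.C (nat_lit 0xca6c49d) (nat_lit 0x182a165895bc93) (nat_lit 0x0)
  (PL.C (nat_lit 0xca89dbe) (nat_lit 0x318016270e59f76) (nat_lit 0x0)
  (PL.C (nat_lit 0xcae10ce) (nat_lit 0x0) (nat_lit 0x10ad99edc3a585)
  (PL.C (nat_lit 0xcb359c4) (nat_lit 0xe056250a8a364) (nat_lit 0x0)
  (PL.C (nat_lit 0xcb918ee) (nat_lit 0x0) (nat_lit 0x929cb71b14b093)
  (PL.C (nat_lit 0xcbf7712) (nat_lit 0x1e3aa97ed4cb24) (nat_lit 0x0)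
  (PL.C (nat_lit 0xcc194de) (nat_lit 0x0) (nat_lit 0x46ff0fe7e52319)
  (PL.C (nat_lit 0xcc410da) (nat_lit 0x5723fd7ed958b5) (nat_lit 0x0)
  (PL.C (nat_lit 0xcc6ec0d) (nat_lit 0x0) (nat_lit 0x15c5c69985e7879)
  (PL.C (nat_lit 0xcd1c1c6) (nat_lit 0x1ac5d39ec35d48) (nat_lit 0x0)
  (PL.C (nat_lit 0xcd914ab) (nat_lit 0x0) (nat_lit 0xbb8e801955bfc)
  (PL.C (nat_lit 0xcdb8ede) (nat_lit 0x1bdecfae8e0380) (nat_lit 0x0)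
  (PL.C (nat_lit 0xce49e1b) (nat_lit 0xa04f9daa724a38) (nat_lit 0x0)
  (PL.C (nat_lit 0xce5dbdc) (nat_lit 0x0) (nat_lit 0x2f652df1c6cc1) gp3_0_150))))))))))))))))))))

noncomputable def gp3_0_148 : PL :=
  (PL.C (nat_lit 0xc3aa1e5) (nat_lit 0x0) (nat_lit 0x25c790f0ff0126)
  (PL.C (nat_lit 0xc40941f) (nat_lit 0x0) (nat_lit 0xa40505a61c34b1)
  (PL.C (nat_lit 0xc419d15) (nat_lit 0x0) (nat_lit 0x8d83c392573c6)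
  (PL.C (nat_lit 0xc42769e) (nat_lit 0x897baa65d4d6b9) (nat_lit 0x0)
  (PL.C (nat_lit 0xc489962) (nat_lit 0x409589509b7199) (nat_lit 0x0)
  (PL.C (nat_lit 0xc4fc8d5) (nat_lit 0x4cf4a9718fb751) (nat_lit 0x0)
  (PL.C (nat_lit 0xc57a8f3) (nat_lit 0x0) (nat_lit 0x1de12d3a6a7f81)
  (PL.C (nat_lit 0xc58f9a1) (nat_lit 0x0) (nat_lit 0x105d265eea0f1c6)
  (PL.C (nat_lit 0xc5fd05d) (nat_lit 0x0) (nat_lit 0x7a1c796ae07588)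
  (PL.C (nat_lit 0xc657ac2) (nat_lit 0xe7adf400184a6) (nat_lit 0x0)
  (PL.C (nat_lit 0xc6a9846) (nat_lit 0x0) (nat_lit 0x633654618b035f)
  (PL.C (nat_lit 0xc709007) (nat_lit 0x59bed5bdec9cfd) (nat_lit 0x0)
  (PL.C (nat_lit 0xc75ac27) (nat_lit 0x0) (nat_lit 0x13d274c982b5)
  (PL.C (nat_lit 0xc77b7c9) (nat_lit 0xa04f9daa724a38) (nat_lit 0x0)
  (PL.C (nat_lit 0xc7ac2b6) (nat_lit 0x0) (nat_lit 0x215efa41046223)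
  (PL.C (nat_lit 0xc7e29be) (nat_lit 0x4c48e2d306bd07) (nat_lit 0x0)
  (PL.C (nat_lit 0xc813196) (nat_lit 0x390d0bb3ec5316) (nat_lit 0x0)
  (PL.C (nat_lit 0xc85f50a) (nat_lit 0x0) (nat_lit 0x3a048008d72bd2)
  (PL.C (nat_lit 0xc885219) (nat_lit 0x10d7f8528b47f33) (nat_lit 0x0)
  (PL.C (nat_lit 0xc8ffd74) (nat_lit 0x0) (nat_lit 0x49826c4cd5ec2e) gp3_0_149))))))))))))))))))))

noncomputable def gp3_0_147 : PL :=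
  (PL.C (nat_lit 0xbf00427) (nat_lit 0x31df93fc5c882a) (nat_lit 0x0)
  (PL.C (nat_lit 0xbfbe38c) (nat_lit 0x405bb17ecfb78) (nat_lit 0x0)
  (PL.C (nat_lit 0xbfe8b9d) (nat_lit 0x2b3a219b36edd) (nat_lit 0x0)
  (PL.C (nat_lit 0xc042111) (nat_lit 0x20c72bdc1cce4) (nat_lit 0x0)
  (PL.C (nat_lit 0xc048c63) (nat_lit 0x28d5a96a885466) (nat_lit 0x0)
  (PL.C (nat_lit 0xc06c52b) (nat_lit 0x68e5cd5e4cfa86) (nat_lit 0x0)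
  (PL.C (nat_lit 0xc0b68b3) (nat_lit 0xda25b7579dc23) (nat_lit 0x0)
  (PL.C (nat_lit 0xc0ba92e) (nat_lit 0x183c5edde7bd18) (nat_lit 0x0)
  (PL.C (nat_lit 0xc126bc1) (nat_lit 0x2fc053dfe7b01) (nat_lit 0x0)
  (PL.C (nat_lit 0xc166da3) (nat_lit 0x342a004678f8f0) (nat_lit 0x0)
  (PL.C (nat_lit 0xc178ed6) (nat_lit 0xd089104a94312e) (nat_lit 0x0)
  (PL.C (nat_lit 0xc17ee82) (nat_lit 0x0) (nat_lit 0x4519f9ccaca4b8)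
  (PL.C (nat_lit 0xc1c7a5d) (nat_lit 0x6ec1f82909ce8a) (nat_lit 0x0)
  (PL.C (nat_lit 0xc1f0845) (nat_lit 0x0) (nat_lit 0x176c5994d9cb67)
  (PL.C (nat_lit 0xc22733c) (nat_lit 0x381f3324fedb50) (nat_lit 0x0)
  (PL.C (nat_lit 0xc26c9f9) (nat_lit 0x1dd040f407d33be) (nat_lit 0x0)
  (PL.C (nat_lit 0xc27ad52) (nat_lit 0x0) (nat_lit 0x1299f7ced7dd64)
  (PL.C (nat_lit 0xc2fa2aa) (nat_lit 0x20f1968520e4651) (nat_lit 0x0)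
  (PL.C (nat_lit 0xc34861b) (nat_lit 0x0) (nat_lit 0x69ab9e0aa8dbc1)
  (PL.C (nat_lit 0xc372afb) (nat_lit 0xd645784a2dd12) (nat_lit 0x0) gp3_0_148))))))))))))))))))))

noncomputable def gp3_0_146 : PL :=
  (PL.C (nat_lit 0xb8b1a0e) (nat_lit 0x3562d619d7394a) (nat_lit 0x0)
  (PL.C (nat_lit 0xb8bfef2) (nat_lit 0xcb46711c19cd3) (nat_lit 0x0)
  (PL.C (nat_lit 0xb8f97cd) (nat_lit 0x266b2ea11f1860) (nat_lit 0x0)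
  (PL.C (nat_lit 0xb98612e) (nat_lit 0x125552405a3bf9) (nat_lit 0x0)
  (PL.C (nat_lit 0xb996b12) (nat_lit 0x19a030897be8e0) (nat_lit 0x0)
  (PL.C (nat_lit 0xb9ccbf2) (nat_lit 0x1940707a2c441d6) (nat_lit 0x0)
  (PL.C (nat_lit 0xb9e2ed2) (nat_lit 0x0) (nat_lit 0x56299f7f8d095)
  (PL.C (nat_lit 0xba1baed) (nat_lit 0x0) (nat_lit 0xaa8b6f58b3960d4)
  (PL.C (nat_lit 0xba4d0b2) (nat_lit 0x584133f24e96) (nat_lit 0x0)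
  (PL.C (nat_lit 0xbab9806) (nat_lit 0x13868756c18192) (nat_lit 0x0)
  (PL.C (nat_lit 0xbaf816e) (nat_lit 0x9bc46fade64903) (nat_lit 0x0)
  (PL.C (nat_lit 0xbb07ee3) (nat_lit 0x31e4b5ca7a1f43) (nat_lit 0x0)
  (PL.C (nat_lit 0xbb48a01) (nat_lit 0x19170273de1b6ff) (nat_lit 0x0)
  (PL.C (nat_lit 0xbb7c91e) (nat_lit 0x0) (nat_lit 0xf5c78eed3ff6e)
  (PL.C (nat_lit 0xbc4c326) (nat_lit 0x0) (nat_lit 0x1a37f7d4eba2f2c)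
  (PL.C (nat_lit 0xbc6c612) (nat_lit 0x0) (nat_lit 0x36165011a64416)
  (PL.C (nat_lit 0xbd725bb) (nat_lit 0x13591a67d5f65b) (nat_lit 0x0)
  (PL.C (nat_lit 0xbd8373a) (nat_lit 0x1791bba185962a) (nat_lit 0x0)
  (PL.C (nat_lit 0xbe9dff7) (nat_lit 0x0) (nat_lit 0x293ef9375158c)
  (PL.C (nat_lit 0xbef0215) (nat_lit 0xa80d57e4789486) (nat_lit 0x0) gp3_0_147))))))))))))))))))))

noncomputable def gp3_0_145 : PL :=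
  (PL.C (nat_lit 0xb4b03a6) (nat_lit 0x658fdc4fef32d) (nat_lit 0x0)
  (PL.C (nat_lit 0xb4b3846) (nat_lit 0x17ac702e7fa6d9) (nat_lit 0x0)
  (PL.C (nat_lit 0xb514927) (nat_lit 0x0) (nat_lit 0x823522cba34b3)
  (PL.C (nat_lit 0xb54a0ee) (nat_lit 0x1327e0cad343c7) (nat_lit 0x0)
  (PL.C (nat_lit 0xb5c76bb) (nat_lit 0x1b004ec8088f03) (nat_lit 0x0)
  (PL.C (nat_lit 0xb61b53a) (nat_lit 0x6db9021d6acbcc) (nat_lit 0x0)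
  (PL.C (nat_lit 0xb630a87) (nat_lit 0xa80d57e4789486) (nat_lit 0x0)
  (PL.C (nat_lit 0xb63e6aa) (nat_lit 0x0) (nat_lit 0x45f64a63efe414)
  (PL.C (nat_lit 0xb68bd79) (nat_lit 0x0) (nat_lit 0xc37725b930afb)
  (PL.C (nat_lit 0xb69c5ca) (nat_lit 0x0) (nat_lit 0xe114857f4b079)
  (PL.C (nat_lit 0xb6d9922) (nat_lit 0x7a30639fdd6334) (nat_lit 0x0)
  (PL.C (nat_lit 0xb724ae2) (nat_lit 0x22774e8c787db3) (nat_lit 0x0)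
  (PL.C (nat_lit 0xb731605) (nat_lit 0x0) (nat_lit 0x2c8df8fca58933)
  (PL.C (nat_lit 0xb7d0086) (nat_lit 0x0) (nat_lit 0x39c19bee93822)
  (PL.C (nat_lit 0xb815b6d) (nat_lit 0x393df580bf321a) (nat_lit 0x0)
  (PL.C (nat_lit 0xb81e1ff) (nat_lit 0x4a1e44997c53c2) (nat_lit 0x0)
  (PL.C (nat_lit 0xb836c9e) (nat_lit 0x1940707a2c441d6) (nat_lit 0x0)
  (PL.C (nat_lit 0xb8555f2) (nat_lit 0x1c69146a1f709c) (nat_lit 0x0)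
  (PL.C (nat_lit 0xb88f543) (nat_lit 0x2ece2c1b83702c) (nat_lit 0x0)
  (PL.C (nat_lit 0xb895bfe) (nat_lit 0x0) (nat_lit 0x1a37f7d4eba2f2c) gp3_0_146))))))))))))))))))))

noncomputable def gp3_0_144 : PL :=
  (PL.C (nat_lit 0xaeff5fe) (nat_lit 0x6601858baa0f4f) (nat_lit 0x0)
  (PL.C (nat_lit 0xaf1fb4c) (nat_lit 0x0) (nat_lit 0x1d4c5a284548ec)
  (PL.C (nat_lit 0xaf28733) (nat_lit 0x0) (nat_lit 0xcc8a320956e47)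
  (PL.C (nat_lit 0xafab347) (nat_lit 0x1cd5698d16c5e8) (nat_lit 0x0)
  (PL.C (nat_lit 0xafb199c) (nat_lit 0x0) (nat_lit 0x1a82e609660c11)
  (PL.C (nat_lit 0xafbb0e2) (nat_lit 0x556d80c3a596f) (nat_lit 0x0)
  (PL.C (nat_lit 0xafd6a7c) (nat_lit 0x0) (nat_lit 0x10a93ccd9d200)
  (PL.C (nat_lit 0xb08538d) (nat_lit 0x271133a6b68f9b) (nat_lit 0x0)
  (PL.C (nat_lit 0xb0b7493) (nat_lit 0x0) (nat_lit 0x3f46a3ebc33357)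
  (PL.C (nat_lit 0xb134c84) (nat_lit 0x0) (nat_lit 0x135f06c6f16caa)
  (PL.C (nat_lit 0xb1811ce) (nat_lit 0x0) (nat_lit 0x1ec2e0beca6abe)
  (PL.C (nat_lit 0xb261636) (nat_lit 0x0) (nat_lit 0xa14cb597b067d5)
  (PL.C (nat_lit 0xb285ef5) (nat_lit 0x19a0ac766f582e) (nat_lit 0x0)
  (PL.C (nat_lit 0xb29d2de) (nat_lit 0x0) (nat_lit 0x36165011a64416)
  (PL.C (nat_lit 0xb2a8b3f) (nat_lit 0x0) (nat_lit 0x3da2dd496927e3)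
  (PL.C (nat_lit 0xb2c1c61) (nat_lit 0x0) (nat_lit 0x34f0bec2571236)
  (PL.C (nat_lit 0xb30c224) (nat_lit 0x0) (nat_lit 0xb9f27d8b6a5a8)
  (PL.C (nat_lit 0xb42a00f) (nat_lit 0x193014b05125aeb) (nat_lit 0x0)
  (PL.C (nat_lit 0xb43dd3d) (nat_lit 0x0) (nat_lit 0x10cb8785d79d43)
  (PL.C (nat_lit 0xb448cbd) (nat_lit 0x0) (nat_lit 0x5173e1642dd2fe) gp3_0_145))))))))))))))))))))

noncomputable def gp3_0_143 : PL :=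
  (PL.C (nat_lit 0xa91d836) (nat_lit 0x9bc46fade64903) (nat_lit 0x0)
  (PL.C (nat_lit 0xa9547b2) (nat_lit 0x2e2e65ec693be6) (nat_lit 0x0)
  (PL.C (nat_lit 0xa9d2e2a) (nat_lit 0x0) (nat_lit 0x2099985b536da)
  (PL.C (nat_lit 0xa9d5459) (nat_lit 0x0) (nat_lit 0x5727f3b865a160)
  (PL.C (nat_lit 0xaa81432) (nat_lit 0x0) (nat_lit 0x2d9b421f3f7c6a)
  (PL.C (nat_lit 0xab19acd) (nat_lit 0x342a004678f8f0) (nat_lit 0x0)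
  (PL.C (nat_lit 0xab92e95) (nat_lit 0x0) (nat_lit 0x6c02dad9a8511)
  (PL.C (nat_lit 0xaba5f86) (nat_lit 0x0) (nat_lit 0x2a853af4d74ea8)
  (PL.C (nat_lit 0xabc3d84) (nat_lit 0x381f3324fedb50) (nat_lit 0x0)
  (PL.C (nat_lit 0xabd4c4e) (nat_lit 0x0) (nat_lit 0x100b939d78c1766)
  (PL.C (nat_lit 0xac0dd4e) (nat_lit 0x0) (nat_lit 0x18c26394ee4dc)
  (PL.C (nat_lit 0xac6c1c2) (nat_lit 0xa007f4ed8bf33b) (nat_lit 0x0)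
  (PL.C (nat_lit 0xac92b01) (nat_lit 0x0) (nat_lit 0xa261bcd9c935ea)
  (PL.C (nat_lit 0xacb4881) (nat_lit 0x0) (nat_lit 0x9a568eb2de901a)
  (PL.C (nat_lit 0xad203ca) (nat_lit 0x974075b01dda00) (nat_lit 0x0)
  (PL.C (nat_lit 0xad6dc0f) (nat_lit 0x0) (nat_lit 0x698d5d8c0ae30)
  (PL.C (nat_lit 0xada9be5) (nat_lit 0x0) (nat_lit 0x4971d424fe9339)
  (PL.C (nat_lit 0xae56764) (nat_lit 0x0) (nat_lit 0xf72719b5415dc)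
  (PL.C (nat_lit 0xae9a6fe) (nat_lit 0x0) (nat_lit 0x5cea80f470b14d)
  (PL.C (nat_lit 0xaeb507d) (nat_lit 0x0) (nat_lit 0x46762a0613d178) gp3_0_144))))))))))))))))))))

noncomputable def gp3_0_142 : PL :=
  (PL.C (nat_lit 0xa4b79d2) (nat_lit 0x0) (nat_lit 0x11057f3db56fd3)
  (PL.C (nat_lit 0xa4d95c7) (nat_lit 0x0) (nat_lit 0x3da2dd496927e3)
  (PL.C (nat_lit 0xa4f9775) (nat_lit 0x3068a3c421c7c8) (nat_lit 0x0)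
  (PL.C (nat_lit 0xa54c08b) (nat_lit 0x0) (nat_lit 0x759c7f26e9db37)
  (PL.C (nat_lit 0xa56844e) (nat_lit 0x4c48e2d306bd07) (nat_lit 0x0)
  (PL.C (nat_lit 0xa57c2db) (nat_lit 0x9974fe191a40c6) (nat_lit 0x0)
  (PL.C (nat_lit 0xa5aa65b) (nat_lit 0x129f50f9948381) (nat_lit 0x0)
  (PL.C (nat_lit 0xa5c2992) (nat_lit 0x2c52b0e84306b9) (nat_lit 0x0)
  (PL.C (nat_lit 0xa6498e9) (nat_lit 0x0) (nat_lit 0x132a6a26557822)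
  (PL.C (nat_lit 0xa6b84dd) (nat_lit 0x2219b2cbaf2b62) (nat_lit 0x0)
  (PL.C (nat_lit 0xa76e94a) (nat_lit 0x125552405a3bf9) (nat_lit 0x0)
  (PL.C (nat_lit 0xa7c2d8c) (nat_lit 0x0) (nat_lit 0xc7e8eb0493e43)
  (PL.C (nat_lit 0xa804463) (nat_lit 0x1436573a43ed99c) (nat_lit 0x0)
  (PL.C (nat_lit 0xa815c4b) (nat_lit 0x105835d2f6aed87) (nat_lit 0x0)
  (PL.C (nat_lit 0xa864ead) (nat_lit 0xcae788baf73271) (nat_lit 0x0)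
  (PL.C (nat_lit 0xa885b67) (nat_lit 0x11df0331794788b) (nat_lit 0x0)
  (PL.C (nat_lit 0xa893f2d) (nat_lit 0x1947508a2c17cd) (nat_lit 0x0)
  (PL.C (nat_lit 0xa89fa2e) (nat_lit 0x0) (nat_lit 0x59599196f0d7e7)
  (PL.C (nat_lit 0xa8e4e6e) (nat_lit 0x62152a08ce9f5) (nat_lit 0x0)
  (PL.C (nat_lit 0xa8f09c3) (nat_lit 0x0) (nat_lit 0xdc264a5b0f3bb) gp3_0_143))))))))))))))))))))

noncomputable def gp3_0_141 : PL :=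
  (PL.C (nat_lit 0x9f03625) (nat_lit 0x0) (nat_lit 0x21842d9be5e205)
  (PL.C (nat_lit 0x9f12cfa) (nat_lit 0x0) (nat_lit 0x6981fb61f5ba15)
  (PL.C (nat_lit 0x9f18849) (nat_lit 0x0) (nat_lit 0x293ef9375158c)
  (PL.C (nat_lit 0x9fb8fe2) (nat_lit 0x0) (nat_lit 0xc99165211c011e)
  (PL.C (nat_lit 0x9ffa9a2) (nat_lit 0x0) (nat_lit 0x14ab10bb1c3551)
  (PL.C (nat_lit 0xa03039a) (nat_lit 0x71a8f5dc2b1106) (nat_lit 0x0)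
  (PL.C (nat_lit 0xa07539b) (nat_lit 0xbcd71e8505fbe3) (nat_lit 0x0)
  (PL.C (nat_lit 0xa12e729) (nat_lit 0x0) (nat_lit 0x49b8f8a08b20fce)
  (PL.C (nat_lit 0xa13c103) (nat_lit 0x31df93fc5c882a) (nat_lit 0x0)
  (PL.C (nat_lit 0xa1721b7) (nat_lit 0x4709e64d64a27e) (nat_lit 0x0)
  (PL.C (nat_lit 0xa1d6d4d) (nat_lit 0x10d7f8528b47f33) (nat_lit 0x0)
  (PL.C (nat_lit 0xa1dc6bc) (nat_lit 0x405bb17ecfb78) (nat_lit 0x0)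
  (PL.C (nat_lit 0xa2004d1) (nat_lit 0x2b3a219b36edd) (nat_lit 0x0)
  (PL.C (nat_lit 0xa212acc) (nat_lit 0x501730b6c824) (nat_lit 0x0)
  (PL.C (nat_lit 0xa2587ca) (nat_lit 0x0) (nat_lit 0x77dfc12043c3b)
  (PL.C (nat_lit 0xa2db923) (nat_lit 0x393df580bf321a) (nat_lit 0x0)
  (PL.C (nat_lit 0xa36b41c) (nat_lit 0xc8e764dea089b) (nat_lit 0x0)
  (PL.C (nat_lit 0xa396bb7) (nat_lit 0x0) (nat_lit 0xa261bcd9c935ea)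
  (PL.C (nat_lit 0xa3dd27f) (nat_lit 0x0) (nat_lit 0x11352757d75a15)
  (PL.C (nat_lit 0xa41fd9d) (nat_lit 0x1dd040f407d33be) (nat_lit 0x0) gp3_0_142))))))))))))))))))))

noncomputable def gp3_0_140 : PL :=
  (PL.C (nat_lit 0x9baa62f) (nat_lit 0x0) (nat_lit 0x595c85d685008)
  (PL.C (nat_lit 0x9bd1876) (nat_lit 0x708d8fd7d50918) (nat_lit 0x0)
  (PL.C (nat_lit 0x9bf523a) (nat_lit 0x0) (nat_lit 0x19dffd23ed85a3)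
  (PL.C (nat_lit 0x9c05c1e) (nat_lit 0x0) (nat_lit 0x15d105130a8b310)
  (PL.C (nat_lit 0x9c44223) (nat_lit 0x0) (nat_lit 0x9d34a039230a96)
  (PL.C (nat_lit 0x9c48f69) (nat_lit 0x0) (nat_lit 0x132a6a26557822)
  (PL.C (nat_lit 0x9c9c666) (nat_lit 0xe7adf400184a6) (nat_lit 0x0)
  (PL.C (nat_lit 0x9caa6da) (nat_lit 0x0) (nat_lit 0x7afd4fd9d37a51)
  (PL.C (nat_lit 0x9cd0e4e) (nat_lit 0x0) (nat_lit 0x1d4aa01b925225)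
  (PL.C (nat_lit 0x9d14711) (nat_lit 0x0) (nat_lit 0x39ca6ba635d2f)
  (PL.C (nat_lit 0x9d7b49d) (nat_lit 0x0) (nat_lit 0x17d37563492b694)
  (PL.C (nat_lit 0x9da6d14) (nat_lit 0x947f15a74ac97d) (nat_lit 0x0)
  (PL.C (nat_lit 0x9dbce7f) (nat_lit 0x20c72bdc1cce4) (nat_lit 0x0)
  (PL.C (nat_lit 0x9dc9c3b) (nat_lit 0x5dc0f2ea2f5d9e) (nat_lit 0x0)
  (PL.C (nat_lit 0x9e170b3) (nat_lit 0x0) (nat_lit 0x10db8d92074eaa9)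
  (PL.C (nat_lit 0x9e18bc5) (nat_lit 0x1e6cc5180242bb) (nat_lit 0x0)
  (PL.C (nat_lit 0x9e5c02e) (nat_lit 0x2933ef68d1e34d) (nat_lit 0x0)
  (PL.C (nat_lit 0x9e66b1c) (nat_lit 0x0) (nat_lit 0xcaea37d9b2bafc)
  (PL.C (nat_lit 0x9e6e9a7) (nat_lit 0x19f94746dfac37) (nat_lit 0x0)
  (PL.C (nat_lit 0x9ebde59) (nat_lit 0x0) (nat_lit 0x24d3b6e3bbb2f) gp3_0_141))))))))))))))))))))

noncomputable def gp3_0_139 : PL :=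
  (PL.C (nat_lit 0x9618f8e) (nat_lit 0x270111fb703613) (nat_lit 0x0)
  (PL.C (nat_lit 0x96c72d6) (nat_lit 0x0) (nat_lit 0xc929b4c49a1e4d)
  (PL.C (nat_lit 0x96d0e7b) (nat_lit 0x0) (nat_lit 0x69ab9e0aa8dbc1)
  (PL.C (nat_lit 0x970374f) (nat_lit 0x0) (nat_lit 0x908ef89a75d060)
  (PL.C (nat_lit 0x9711152) (nat_lit 0x0) (nat_lit 0x4ec7aea847fd35)
  (PL.C (nat_lit 0x97719a2) (nat_lit 0x1ac5d39ec35d48) (nat_lit 0x0)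
  (PL.C (nat_lit 0x97bd65e) (nat_lit 0x0) (nat_lit 0x1f6b516956ae03)
  (PL.C (nat_lit 0x981628b) (nat_lit 0x0) (nat_lit 0x68a089335730b2)
  (PL.C (nat_lit 0x9830271) (nat_lit 0x0) (nat_lit 0x9f9596847f779c)
  (PL.C (nat_lit 0x988a3de) (nat_lit 0x0) (nat_lit 0x19dffd23ed85a3)
  (PL.C (nat_lit 0x9909526) (nat_lit 0x784c71f86dd24b) (nat_lit 0x0)
  (PL.C (nat_lit 0x99ab119) (nat_lit 0x2e90497fc257e6) (nat_lit 0x0)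
  (PL.C (nat_lit 0x99b9fa2) (nat_lit 0x0) (nat_lit 0x11057f3db56fd3)
  (PL.C (nat_lit 0x9a26e72) (nat_lit 0x0) (nat_lit 0x9455ac5e676fe)
  (PL.C (nat_lit 0x9a3196d) (nat_lit 0x0) (nat_lit 0x1407e917d6c973)
  (PL.C (nat_lit 0x9a5a92a) (nat_lit 0x784c71f86dd24b) (nat_lit 0x0)
  (PL.C (nat_lit 0x9ab35b6) (nat_lit 0x24ca022ce39572) (nat_lit 0x0)
  (PL.C (nat_lit 0x9ac3059) (nat_lit 0x0) (nat_lit 0x1e645f8279206)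
  (PL.C (nat_lit 0x9acdcc2) (nat_lit 0x4a6c4637662353) (nat_lit 0x0)
  (PL.C (nat_lit 0x9b107a7) (nat_lit 0x2e9a867d4082be) (nat_lit 0x0) gp3_0_140))))))))))))))))))))

noncomputable def gp3_0_138 : PL :=
  (PL.C (nat_lit 0x9299439) (nat_lit 0x19f94746dfac37) (nat_lit 0x0)
  (PL.C (nat_lit 0x92d16b3) (nat_lit 0xaf0d16cee6ddd) (nat_lit 0x0)
  (PL.C (nat_lit 0x9316125) (nat_lit 0x0) (nat_lit 0x4254ece786a451)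
  (PL.C (nat_lit 0x933269d) (nat_lit 0x8154431e6c1294) (nat_lit 0x0)
  (PL.C (nat_lit 0x937e4ad) (nat_lit 0x0) (nat_lit 0x1c23dd99d6eb2a)
  (PL.C (nat_lit 0x93b9a76) (nat_lit 0x21fd6d5f6d475c5) (nat_lit 0x0)
  (PL.C (nat_lit 0x93dc53f) (nat_lit 0x0) (nat_lit 0x39ca6ba635d2f)
  (PL.C (nat_lit 0x93e7f5e) (nat_lit 0x0) (nat_lit 0x11e7698d5ba3ae)
  (PL.C (nat_lit 0x9476cbb) (nat_lit 0x142e50e05a8f7) (nat_lit 0x0)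
  (PL.C (nat_lit 0x94c9ca7) (nat_lit 0x0) (nat_lit 0xd21657f4bc66f3)
  (PL.C (nat_lit 0x94e27e1) (nat_lit 0xaf480212203fb9) (nat_lit 0x0)
  (PL.C (nat_lit 0x95167d7) (nat_lit 0x0) (nat_lit 0x94fb6c796b4554)
  (PL.C (nat_lit 0x952d01f) (nat_lit 0x0) (nat_lit 0x1c23dd99d6eb2a)
  (PL.C (nat_lit 0x956b2f2) (nat_lit 0x4c221596d245c) (nat_lit 0x0)
  (PL.C (nat_lit 0x95758ad) (nat_lit 0x2f9b246c0dde37) (nat_lit 0x0)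
  (PL.C (nat_lit 0x9576914) (nat_lit 0x162940c85ecc8) (nat_lit 0x0)
  (PL.C (nat_lit 0x95822af) (nat_lit 0xcd46f3e61a747) (nat_lit 0x0)
  (PL.C (nat_lit 0x95aecaf) (nat_lit 0x42d66aba887f12) (nat_lit 0x0)
  (PL.C (nat_lit 0x960a304) (nat_lit 0x4cb1d0701c736d) (nat_lit 0x0)
  (PL.C (nat_lit 0x9611ae1) (nat_lit 0x0) (nat_lit 0x132a9a671601431) gp3_0_139))))))))))))))))))))

noncomputable def gp3_0_137 : PL :=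
  (PL.C (nat_lit 0x8f5d97d) (nat_lit 0x0) (nat_lit 0x3011513b10628d7)
  (PL.C (nat_lit 0x8f5e6ff) (nat_lit 0x0) (nat_lit 0x28ef24e7a355ca)
  (PL.C (nat_lit 0x8f731ce) (nat_lit 0x556d80c3a596f) (nat_lit 0x0)
  (PL.C (nat_lit 0x8fc9763) (nat_lit 0x1f26150a029ef) (nat_lit 0x0)
  (PL.C (nat_lit 0x8fe2292) (nat_lit 0x0) (nat_lit 0x189c8c8def3038)
  (PL.C (nat_lit 0x8fed06c) (nat_lit 0x96122136ca3b0) (nat_lit 0x0)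
  (PL.C (nat_lit 0x8feec7a) (nat_lit 0x0) (nat_lit 0x19bb792a4e60a8)
  (PL.C (nat_lit 0x9013953) (nat_lit 0x0) (nat_lit 0x54a101cca843d8)
  (PL.C (nat_lit 0x907c78e) (nat_lit 0x0) (nat_lit 0x184d30cf2bc13c0)
  (PL.C (nat_lit 0x90932a4) (nat_lit 0x0) (nat_lit 0x2d7457a332bc)
  (PL.C (nat_lit 0x909d7e2) (nat_lit 0x0) (nat_lit 0x5051ab4c8fcebb)
  (PL.C (nat_lit 0x9106545) (nat_lit 0x0) (nat_lit 0x4ca8894ca7c1f)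
  (PL.C (nat_lit 0x910d606) (nat_lit 0x0) (nat_lit 0x98e911a1f63bcd)
  (PL.C (nat_lit 0x9123264) (nat_lit 0x12f9202ab63c6) (nat_lit 0x0)
  (PL.C (nat_lit 0x912a334) (nat_lit 0x0) (nat_lit 0xd27eb0b04c59b)
  (PL.C (nat_lit 0x91ca445) (nat_lit 0xa086a64de73f7) (nat_lit 0x0)
  (PL.C (nat_lit 0x91f0ccb) (nat_lit 0x142e50e05a8f7) (nat_lit 0x0)
  (PL.C (nat_lit 0x91fd25a) (nat_lit 0x0) (nat_lit 0x2d7009980bdbbe)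
  (PL.C (nat_lit 0x928814d) (nat_lit 0x0) (nat_lit 0x7b1176ef68c51)
  (PL.C (nat_lit 0x9297b1f) (nat_lit 0x0) (nat_lit 0x2c8df8fca58933) gp3_0_138))))))))))))))))))))

noncomputable def gp3_0_136 : PL :=
  (PL.C (nat_lit 0x8c22ba4) (nat_lit 0x0) (nat_lit 0xb9f27d8b6a5a8)
  (PL.C (nat_lit 0x8c6dfea) (nat_lit 0x12c7d0e366711c) (nat_lit 0x0)
  (PL.C (nat_lit 0x8c97794) (nat_lit 0x0) (nat_lit 0x135f06c6f16caa)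
  (PL.C (nat_lit 0x8ca103f) (nat_lit 0x0) (nat_lit 0x3a8a97b83e114de)
  (PL.C (nat_lit 0x8cfccf6) (nat_lit 0x1d8e1c2478cbc5) (nat_lit 0x0)
  (PL.C (nat_lit 0x8d06957) (nat_lit 0x3389204e960274) (nat_lit 0x0)
  (PL.C (nat_lit 0x8d72396) (nat_lit 0x0) (nat_lit 0x19d96ca2506b98)
  (PL.C (nat_lit 0x8dc8199) (nat_lit 0x9ed3b7303a450f) (nat_lit 0x0)
  (PL.C (nat_lit 0x8dcd4cc) (nat_lit 0x0) (nat_lit 0x1a82e609660c11)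
  (PL.C (nat_lit 0x8de80fe) (nat_lit 0x2f39692104b5f) (nat_lit 0x0)
  (PL.C (nat_lit 0x8e42543) (nat_lit 0x1d1a1bfbdbaa7a0) (nat_lit 0x0)
  (PL.C (nat_lit 0x8e58366) (nat_lit 0x0) (nat_lit 0x57c5559f65a4c4)
  (PL.C (nat_lit 0x8e8bdea) (nat_lit 0x0) (nat_lit 0x19565aba06b4ab)
  (PL.C (nat_lit 0x8eb28f4) (nat_lit 0x0) (nat_lit 0x1d289ea67953d)
  (PL.C (nat_lit 0x8ec278e) (nat_lit 0x0) (nat_lit 0xa0649801948514)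
  (PL.C (nat_lit 0x8ef0dfa) (nat_lit 0x0) (nat_lit 0x77dfc12043c3b)
  (PL.C (nat_lit 0x8f20c92) (nat_lit 0x0) (nat_lit 0x1f74498294598e)
  (PL.C (nat_lit 0x8f467ac) (nat_lit 0x0) (nat_lit 0x1d4c5a284548ec)
  (PL.C (nat_lit 0x8f520ff) (nat_lit 0x0) (nat_lit 0xb55bf633cb6d)
  (PL.C (nat_lit 0x8f5747c) (nat_lit 0x459db9ec30a3b4) (nat_lit 0x0) gp3_0_137))))))))))))))))))))

noncomputable def gp3_0_135 : PL :=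
  (PL.C (nat_lit 0x88bd684) (nat_lit 0x20e0c4de248ae2) (nat_lit 0x0)
  (PL.C (nat_lit 0x88c43c1) (nat_lit 0x12d057a0cb7d24) (nat_lit 0x0)
  (PL.C (nat_lit 0x890b872) (nat_lit 0x2e2e65ec693be6) (nat_lit 0x0)
  (PL.C (nat_lit 0x897a2ef) (nat_lit 0x0) (nat_lit 0x14e7845e4c5861)
  (PL.C (nat_lit 0x89db987) (nat_lit 0x0) (nat_lit 0x239824182cdf64)
  (PL.C (nat_lit 0x89f0003) (nat_lit 0x38af11969c54326) (nat_lit 0x0)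
  (PL.C (nat_lit 0x89f94e6) (nat_lit 0xa007f4ed8bf33b) (nat_lit 0x0)
  (PL.C (nat_lit 0x8a182d3) (nat_lit 0x0) (nat_lit 0x15c5c69985e7879)
  (PL.C (nat_lit 0x8a8bed1) (nat_lit 0x0) (nat_lit 0x36310471fcde6)
  (PL.C (nat_lit 0x8a8d47a) (nat_lit 0x0) (nat_lit 0x201a185d2e328b)
  (PL.C (nat_lit 0x8ac963f) (nat_lit 0x0) (nat_lit 0x95d2b42547f878)
  (PL.C (nat_lit 0x8acbf8b) (nat_lit 0x1b004ec8088f03) (nat_lit 0x0)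
  (PL.C (nat_lit 0x8b0c09a) (nat_lit 0x6db9021d6acbcc) (nat_lit 0x0)
  (PL.C (nat_lit 0x8b1ffa5) (nat_lit 0x0) (nat_lit 0x960a89b35f2a00)
  (PL.C (nat_lit 0x8b43a09) (nat_lit 0x0) (nat_lit 0xb3a2c3e2793d82)
  (PL.C (nat_lit 0x8b59205) (nat_lit 0x0) (nat_lit 0x28e6bf13fb8293)
  (PL.C (nat_lit 0x8b8f6fa) (nat_lit 0x0) (nat_lit 0x274fee7a17ff8c)
  (PL.C (nat_lit 0x8bb815a) (nat_lit 0x0) (nat_lit 0x184d30cf2bc13c0)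
  (PL.C (nat_lit 0x8bcff6e) (nat_lit 0xc000e83db5b5e0) (nat_lit 0x0)
  (PL.C (nat_lit 0x8c0c301) (nat_lit 0x271133a6b68f9b) (nat_lit 0x0) gp3_0_136))))))))))))))))))))

noncomputable def gp3_0_134 : PL :=
  (PL.C (nat_lit 0x8642cbc) (nat_lit 0x0) (nat_lit 0xf72719b5415dc)
  (PL.C (nat_lit 0x8648662) (nat_lit 0xcb3652e0fd0597) (nat_lit 0x0)
  (PL.C (nat_lit 0x8680cd1) (nat_lit 0x105835d2f6aed87) (nat_lit 0x0)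
  (PL.C (nat_lit 0x86aa079) (nat_lit 0x0) (nat_lit 0x7fc2173ea8e71)
  (PL.C (nat_lit 0x86ce85e) (nat_lit 0x0) (nat_lit 0x7a7c232d8d169)
  (PL.C (nat_lit 0x86d4aea) (nat_lit 0xeb27a7d3372ee9) (nat_lit 0x0)
  (PL.C (nat_lit 0x86f2dbe) (nat_lit 0x1c69146a1f709c) (nat_lit 0x0)
  (PL.C (nat_lit 0x872feb9) (nat_lit 0x2f9b246c0dde37) (nat_lit 0x0)
  (PL.C (nat_lit 0x873bc6d) (nat_lit 0x0) (nat_lit 0x80ddc9d2008c7)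
  (PL.C (nat_lit 0x8740b34) (nat_lit 0x0) (nat_lit 0x8e978bc0383a6)
  (PL.C (nat_lit 0x8773947) (nat_lit 0x0) (nat_lit 0x87ad34ba6c8c37)
  (PL.C (nat_lit 0x87b65f4) (nat_lit 0x4cb1d0701c736d) (nat_lit 0x0)
  (PL.C (nat_lit 0x87dfee1) (nat_lit 0x205c585c1af9ce) (nat_lit 0x0)
  (PL.C (nat_lit 0x87e6e5b) (nat_lit 0x0) (nat_lit 0x3011513b10628d7)
  (PL.C (nat_lit 0x88322af) (nat_lit 0x0) (nat_lit 0x144096022eed33)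
  (PL.C (nat_lit 0x88490d3) (nat_lit 0x289903d8d06eaf) (nat_lit 0x0)
  (PL.C (nat_lit 0x8849d5e) (nat_lit 0x0) (nat_lit 0x78204caaa8861d5)
  (PL.C (nat_lit 0x886a1cf) (nat_lit 0x0) (nat_lit 0x23684889b6f7d2)
  (PL.C (nat_lit 0x8876551) (nat_lit 0x0) (nat_lit 0x3e09f40edc5b0c)
  (PL.C (nat_lit 0x889e141) (nat_lit 0xc54cd103e65ae1) (nat_lit 0x0) gp3_0_135))))))))))))))))))))

noncomputable def gp3_0_133 : PL :=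
  (PL.C (nat_lit 0x824c752) (nat_lit 0x1327e0cad343c7) (nat_lit 0x0)
  (PL.C (nat_lit 0x82b0d6a) (nat_lit 0x21fd6d5f6d475c5) (nat_lit 0x0)
  (PL.C (nat_lit 0x82bbe0e) (nat_lit 0x9af8c855ed590) (nat_lit 0x0)
  (PL.C (nat_lit 0x82c4f14) (nat_lit 0x459db9ec30a3b4) (nat_lit 0x0)
  (PL.C (nat_lit 0x835308e) (nat_lit 0x271d0b5be69f16) (nat_lit 0x0)
  (PL.C (nat_lit 0x83a70a2) (nat_lit 0x17ac702e7fa6d9) (nat_lit 0x0)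
  (PL.C (nat_lit 0x83b5116) (nat_lit 0x0) (nat_lit 0x15d105130a8b310)
  (PL.C (nat_lit 0x83edccd) (nat_lit 0x4cf4a9718fb751) (nat_lit 0x0)
  (PL.C (nat_lit 0x83fe03e) (nat_lit 0x0) (nat_lit 0xb867a676a592d1)
  (PL.C (nat_lit 0x843a72c) (nat_lit 0x0) (nat_lit 0x3fb26fdb50690)
  (PL.C (nat_lit 0x8499915) (nat_lit 0x0) (nat_lit 0xcc8a320956e47)
  (PL.C (nat_lit 0x84e5b1b) (nat_lit 0x205c585c1af9ce) (nat_lit 0x0)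
  (PL.C (nat_lit 0x850a751) (nat_lit 0x147d31564d0bf7) (nat_lit 0x0)
  (PL.C (nat_lit 0x851d724) (nat_lit 0x0) (nat_lit 0x10a93ccd9d200)
  (PL.C (nat_lit 0x8541bd4) (nat_lit 0x0) (nat_lit 0x454f65553f5bb)
  (PL.C (nat_lit 0x854d0af) (nat_lit 0x1436573a43ed99c) (nat_lit 0x0)
  (PL.C (nat_lit 0x859923f) (nat_lit 0x289903d8d06eaf) (nat_lit 0x0)
  (PL.C (nat_lit 0x85ae166) (nat_lit 0x0) (nat_lit 0x4132be9677fc07)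
  (PL.C (nat_lit 0x85bdc83) (nat_lit 0x0) (nat_lit 0x4971d424fe9339)
  (PL.C (nat_lit 0x8600b7d) (nat_lit 0x0) (nat_lit 0x51c0f82821c7a) gp3_0_134))))))))))))))))))))

noncomputable def gp3_0_132 : PL :=
  (PL.C (nat_lit 0x7f5581a) (nat_lit 0x6360039ed1779) (nat_lit 0x0)
  (PL.C (nat_lit 0x7fe7daf) (nat_lit 0x0) (nat_lit 0x679af3a19edb4c)
  (PL.C (nat_lit 0x7ff07be) (nat_lit 0x60e390e603f324) (nat_lit 0x0)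
  (PL.C (nat_lit 0x800d1bf) (nat_lit 0xf4f3dfb1718ed4) (nat_lit 0x0)
  (PL.C (nat_lit 0x802c0b6) (nat_lit 0x150edc5e08544) (nat_lit 0x0)
  (PL.C (nat_lit 0x8030842) (nat_lit 0x974075b01dda00) (nat_lit 0x0)
  (PL.C (nat_lit 0x8048372) (nat_lit 0xa0040c7fcf460) (nat_lit 0x0)
  (PL.C (nat_lit 0x80627f7) (nat_lit 0x0) (nat_lit 0x94fb6c796b4554)
  (PL.C (nat_lit 0x8079b22) (nat_lit 0x12c7d0e366711c) (nat_lit 0x0)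
  (PL.C (nat_lit 0x807b805) (nat_lit 0x0) (nat_lit 0x250fc4e7a6c2329)
  (PL.C (nat_lit 0x80acb77) (nat_lit 0x1d1a1bfbdbaa7a0) (nat_lit 0x0)
  (PL.C (nat_lit 0x80c47d6) (nat_lit 0xcb46711c19cd3) (nat_lit 0x0)
  (PL.C (nat_lit 0x80ef3c2) (nat_lit 0x4bb770cce194dc) (nat_lit 0x0)
  (PL.C (nat_lit 0x8101b99) (nat_lit 0x0) (nat_lit 0x9025f890b5b732)
  (PL.C (nat_lit 0x812fc3e) (nat_lit 0x7a30639fdd6334) (nat_lit 0x0)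
  (PL.C (nat_lit 0x8136b79) (nat_lit 0x266b2ea11f1860) (nat_lit 0x0)
  (PL.C (nat_lit 0x814b02e) (nat_lit 0x0) (nat_lit 0x2a853af4d74ea8)
  (PL.C (nat_lit 0x81a738c) (nat_lit 0x0) (nat_lit 0x2d7457a332bc)
  (PL.C (nat_lit 0x81d1917) (nat_lit 0x0) (nat_lit 0x4479cebeb71f46)
  (PL.C (nat_lit 0x8230412) (nat_lit 0x0) (nat_lit 0x79dade3c4c14a5) gp3_0_133))))))))))))))))))))

noncomputable def gp3_0_131 : PL :=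
  (PL.C (nat_lit 0x7c335cc) (nat_lit 0x12f9202ab63c6) (nat_lit 0x0)
  (PL.C (nat_lit 0x7c59773) (nat_lit 0x0) (nat_lit 0x7ccd63d9286900)
  (PL.C (nat_lit 0x7c81e21) (nat_lit 0x0) (nat_lit 0x3f46a3ebc33357)
  (PL.C (nat_lit 0x7cab9dd) (nat_lit 0x0) (nat_lit 0x52c0cda798a371)
  (PL.C (nat_lit 0x7caff42) (nat_lit 0x250c2634b3476) (nat_lit 0x0)
  (PL.C (nat_lit 0x7cdb156) (nat_lit 0x0) (nat_lit 0x57c5559f65a4c4)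
  (PL.C (nat_lit 0x7cded3d) (nat_lit 0x0) (nat_lit 0x823550db2b2d)
  (PL.C (nat_lit 0x7d99b83) (nat_lit 0x0) (nat_lit 0x132a9a671601431)
  (PL.C (nat_lit 0x7dae925) (nat_lit 0x20a422ed3dae1c) (nat_lit 0x0)
  (PL.C (nat_lit 0x7dda773) (nat_lit 0x0) (nat_lit 0x68a089335730b2)
  (PL.C (nat_lit 0x7df73a5) (nat_lit 0x0) (nat_lit 0xad08996ed0ef5)
  (PL.C (nat_lit 0x7e04a67) (nat_lit 0x2232b37f3c0de7) (nat_lit 0x0)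
  (PL.C (nat_lit 0x7e3645b) (nat_lit 0x2219b2cbaf2b62) (nat_lit 0x0)
  (PL.C (nat_lit 0x7e4c3d2) (nat_lit 0x0) (nat_lit 0x256d3c1868f23b)
  (PL.C (nat_lit 0x7e7e52b) (nat_lit 0x0) (nat_lit 0x80ddc9d2008c7)
  (PL.C (nat_lit 0x7e89a75) (nat_lit 0x0) (nat_lit 0x6ec7d32a8f21c)
  (PL.C (nat_lit 0x7eae825) (nat_lit 0x0) (nat_lit 0xd21657f4bc66f3)
  (PL.C (nat_lit 0x7f13ffa) (nat_lit 0x0) (nat_lit 0x74b30fdfc1ce2)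
  (PL.C (nat_lit 0x7f4ac0e) (nat_lit 0x0) (nat_lit 0x442bc441556302)
  (PL.C (nat_lit 0x7f4c68d) (nat_lit 0x0) (nat_lit 0x759c7f26e9db37) gp3_0_132))))))))))))))))))))

noncomputable def gp3_0_130 : PL :=
  (PL.C (nat_lit 0x7975c5a) (nat_lit 0x0) (nat_lit 0x442bc441556302)
  (PL.C (nat_lit 0x797ef1c) (nat_lit 0x96122136ca3b0) (nat_lit 0x0)
  (PL.C (nat_lit 0x799f7df) (nat_lit 0x0) (nat_lit 0xad37d1a80242c7)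
  (PL.C (nat_lit 0x79c8423) (nat_lit 0x0) (nat_lit 0x9f9596847f779c)
  (PL.C (nat_lit 0x79e1e91) (nat_lit 0x0) (nat_lit 0x9f8c564fbb7474)
  (PL.C (nat_lit 0x7a20eae) (nat_lit 0x0) (nat_lit 0x1dfc1117b418940)
  (PL.C (nat_lit 0x7a55861) (nat_lit 0x364da1f50b46b4) (nat_lit 0x0)
  (PL.C (nat_lit 0x7a8ab04) (nat_lit 0x0) (nat_lit 0x1d289ea67953d)
  (PL.C (nat_lit 0x7acf314) (nat_lit 0xce5f4edaf253a8) (nat_lit 0x0)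
  (PL.C (nat_lit 0x7ae394c) (nat_lit 0x0) (nat_lit 0xe1821a54e79a4)
  (PL.C (nat_lit 0x7af4cc9) (nat_lit 0x4edec5850ff48) (nat_lit 0x0)
  (PL.C (nat_lit 0x7b0a382) (nat_lit 0x38ff10bf9bb352) (nat_lit 0x0)
  (PL.C (nat_lit 0x7b34947) (nat_lit 0x0) (nat_lit 0x94343cc3a6b865)
  (PL.C (nat_lit 0x7b50fde) (nat_lit 0x0) (nat_lit 0x26c487541af5d)
  (PL.C (nat_lit 0x7b631d7) (nat_lit 0x364da1f50b46b4) (nat_lit 0x0)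
  (PL.C (nat_lit 0x7b9b38b) (nat_lit 0x0) (nat_lit 0xaa2e47c943b420)
  (PL.C (nat_lit 0x7baeb74) (nat_lit 0x9a5c4da76f5fb) (nat_lit 0x0)
  (PL.C (nat_lit 0x7bddd4c) (nat_lit 0xce5f4edaf253a8) (nat_lit 0x0)
  (PL.C (nat_lit 0x7c03c2f) (nat_lit 0x4769d5cb6b5926) (nat_lit 0x0)
  (PL.C (nat_lit 0x7c29e79) (nat_lit 0x0) (nat_lit 0x30a5ae39cc13c0a) gp3_0_131))))))))))))))))))))

noncomputable def gp3_0_129 : PL :=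
  (PL.C (nat_lit 0x75a1ad9) (nat_lit 0x51ba10e7e7e328) (nat_lit 0x0)
  (PL.C (nat_lit 0x75ae25e) (nat_lit 0x1ce06d8feed825) (nat_lit 0x0)
  (PL.C (nat_lit 0x75c91b5) (nat_lit 0x0) (nat_lit 0xaa4172de09bfed)
  (PL.C (nat_lit 0x75cf862) (nat_lit 0x0) (nat_lit 0x134d69c665036)
  (PL.C (nat_lit 0x7656134) (nat_lit 0xd7e504fb2df0a) (nat_lit 0x0)
  (PL.C (nat_lit 0x76b677b) (nat_lit 0x0) (nat_lit 0x35735590ab32bfc)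
  (PL.C (nat_lit 0x7703f4e) (nat_lit 0x19f86f6d2fcc42) (nat_lit 0x0)
  (PL.C (nat_lit 0x771b22a) (nat_lit 0x0) (nat_lit 0xfecee3b733ebb)
  (PL.C (nat_lit 0x772bd96) (nat_lit 0x0) (nat_lit 0x2d7009980bdbbe)
  (PL.C (nat_lit 0x7751073) (nat_lit 0x0) (nat_lit 0xfe1edbeff79981)
  (PL.C (nat_lit 0x7799397) (nat_lit 0x0) (nat_lit 0xdc264a5b0f3bb)
  (PL.C (nat_lit 0x77a353d) (nat_lit 0xcd46f3e61a747) (nat_lit 0x0)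
  (PL.C (nat_lit 0x781c00a) (nat_lit 0x274b875d11472e1) (nat_lit 0x0)
  (PL.C (nat_lit 0x782937e) (nat_lit 0x0) (nat_lit 0x11e7698d5ba3ae)
  (PL.C (nat_lit 0x783087e) (nat_lit 0x71c0ec91eebee) (nat_lit 0x0)
  (PL.C (nat_lit 0x78757c4) (nat_lit 0x0) (nat_lit 0xd27eb0b04c59b)
  (PL.C (nat_lit 0x78b861a) (nat_lit 0x0) (nat_lit 0x52eb97285fb94)
  (PL.C (nat_lit 0x790693b) (nat_lit 0x0) (nat_lit 0x28ef24e7a355ca)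
  (PL.C (nat_lit 0x792f9d2) (nat_lit 0x0) (nat_lit 0x8cdc8c2dda95d6)
  (PL.C (nat_lit 0x793b8df) (nat_lit 0x0) (nat_lit 0x9122a5cc9aa690) gp3_0_130))))))))))))))))))))

noncomputable def gp3_0_128 : PL :=
  (PL.C (nat_lit 0x7332055) (nat_lit 0x0) (nat_lit 0x3e09f40edc5b0c)
  (PL.C (nat_lit 0x734e4df) (nat_lit 0x0) (nat_lit 0x908ef89a75d060)
  (PL.C (nat_lit 0x7373c85) (nat_lit 0x0) (nat_lit 0x5403ccd51e965c)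
  (PL.C (nat_lit 0x739a7b1) (nat_lit 0xe20c4a71c8cd3) (nat_lit 0x0)
  (PL.C (nat_lit 0x739e80a) (nat_lit 0x0) (nat_lit 0x5cea80f470b14d)
  (PL.C (nat_lit 0x73c67ee) (nat_lit 0x0) (nat_lit 0x89f6e75b7613b0)
  (PL.C (nat_lit 0x73f3a31) (nat_lit 0x11cafe8c27a894) (nat_lit 0x0)
  (PL.C (nat_lit 0x7436ab1) (nat_lit 0x0) (nat_lit 0x36959b81365e4a8)
  (PL.C (nat_lit 0x7440dc5) (nat_lit 0x27d93df0429fa5) (nat_lit 0x0)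
  (PL.C (nat_lit 0x7466f54) (nat_lit 0x0) (nat_lit 0xc032f56473ff5)
  (PL.C (nat_lit 0x7470d4f) (nat_lit 0x68cc72361b3dcc) (nat_lit 0x0)
  (PL.C (nat_lit 0x7478afe) (nat_lit 0x5723fd7ed958b5) (nat_lit 0x0)
  (PL.C (nat_lit 0x74b34df) (nat_lit 0x122324bc0cd50a2) (nat_lit 0x0)
  (PL.C (nat_lit 0x74c5a22) (nat_lit 0x20089cdbf7ccaa) (nat_lit 0x0)
  (PL.C (nat_lit 0x74cdf99) (nat_lit 0x6de3ffbd9ff33) (nat_lit 0x0)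
  (PL.C (nat_lit 0x751ccda) (nat_lit 0x0) (nat_lit 0x1d4aa01b925225)
  (PL.C (nat_lit 0x75275ec) (nat_lit 0x0) (nat_lit 0x665ef353af516)
  (PL.C (nat_lit 0x752857b) (nat_lit 0x0) (nat_lit 0x7e3046b654143c)
  (PL.C (nat_lit 0x754f3fb) (nat_lit 0x0) (nat_lit 0x7a1c796ae07588)
  (PL.C (nat_lit 0x75716f9) (nat_lit 0x68cc72361b3dcc) (nat_lit 0x0) gp3_0_129))))))))))))))))))))

noncomputable def gp3_0_127 : PL :=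
  (PL.C (nat_lit 0x7062a1e) (nat_lit 0x214443c3475303) (nat_lit 0x0)
  (PL.C (nat_lit 0x7086dab) (nat_lit 0x59bed5bdec9cfd) (nat_lit 0x0)
  (PL.C (nat_lit 0x70a0682) (nat_lit 0x0) (nat_lit 0xc08f2aaaafa14d)
  (PL.C (nat_lit 0x70c717b) (nat_lit 0x4709e64d64a27e) (nat_lit 0x0)
  (PL.C (nat_lit 0x70d99b5) (nat_lit 0x121077c6e6b6e26) (nat_lit 0x0)
  (PL.C (nat_lit 0x70e2fcc) (nat_lit 0x0) (nat_lit 0xa807028e6ee22)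
  (PL.C (nat_lit 0x70ece4f) (nat_lit 0x33842b0ed6421b) (nat_lit 0x0)
  (PL.C (nat_lit 0x713741c) (nat_lit 0x501730b6c824) (nat_lit 0x0)
  (PL.C (nat_lit 0x71d38e9) (nat_lit 0x0) (nat_lit 0x1fc9ad595d159)
  (PL.C (nat_lit 0x72111de) (nat_lit 0x4bb770cce194dc) (nat_lit 0x0)
  (PL.C (nat_lit 0x723eb83) (nat_lit 0x0) (nat_lit 0x432d580b9e3e6)
  (PL.C (nat_lit 0x7261f0e) (nat_lit 0x0) (nat_lit 0x10ad99edc3a585)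
  (PL.C (nat_lit 0x729de57) (nat_lit 0x0) (nat_lit 0x1a16c3c968d938)
  (PL.C (nat_lit 0x72b3e34) (nat_lit 0xc8e764dea089b) (nat_lit 0x0)
  (PL.C (nat_lit 0x72b8f07) (nat_lit 0x0) (nat_lit 0x5727f3b865a160)
  (PL.C (nat_lit 0x72f87ab) (nat_lit 0xb83a60bb343b0e) (nat_lit 0x0)
  (PL.C (nat_lit 0x730c756) (nat_lit 0x5928c604ad888aa) (nat_lit 0x0)
  (PL.C (nat_lit 0x732233d) (nat_lit 0x21ae4b691003fd) (nat_lit 0x0)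
  (PL.C (nat_lit 0x7323056) (nat_lit 0xcb3652e0fd0597) (nat_lit 0x0)
  (PL.C (nat_lit 0x7327b4b) (nat_lit 0x0) (nat_lit 0x15c69a2bc70f0a) gp3_0_128))))))))))))))))))))

noncomputable def gp3_0_126 : PL :=
  (PL.C (nat_lit 0x6c9f193) (nat_lit 0x11df0331794788b) (nat_lit 0x0)
  (PL.C (nat_lit 0x6cc7287) (nat_lit 0x4769d5cb6b5926) (nat_lit 0x0)
  (PL.C (nat_lit 0x6ce6dbd) (nat_lit 0x0) (nat_lit 0x525b559b3b7dd)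
  (PL.C (nat_lit 0x6cff3b7) (nat_lit 0x20a422ed3dae1c) (nat_lit 0x0)
  (PL.C (nat_lit 0x6d0f27a) (nat_lit 0x5928c604ad888aa) (nat_lit 0x0)
  (PL.C (nat_lit 0x6d3e1aa) (nat_lit 0x0) (nat_lit 0xd13303537ecac)
  (PL.C (nat_lit 0x6db6e01) (nat_lit 0x4edec5850ff48) (nat_lit 0x0)
  (PL.C (nat_lit 0x6de63da) (nat_lit 0x0) (nat_lit 0xfecee3b733ebb)
  (PL.C (nat_lit 0x6dfba4e) (nat_lit 0x97dbf6db1c8f50) (nat_lit 0x0)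
  (PL.C (nat_lit 0x6e14407) (nat_lit 0x7b7e4fa2da116cf) (nat_lit 0x0)
  (PL.C (nat_lit 0x6e45834) (nat_lit 0x0) (nat_lit 0x454f65553f5bb)
  (PL.C (nat_lit 0x6e52c92) (nat_lit 0x6601858baa0f4f) (nat_lit 0x0)
  (PL.C (nat_lit 0x6e71992) (nat_lit 0x17f4a48fd6ca0b) (nat_lit 0x0)
  (PL.C (nat_lit 0x6eb0b21) (nat_lit 0x0) (nat_lit 0x5403ccd51e965c)
  (PL.C (nat_lit 0x6edbb46) (nat_lit 0x0) (nat_lit 0x1504d1d3e01b164)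
  (PL.C (nat_lit 0x6f14171) (nat_lit 0x70446c2d25ba50) (nat_lit 0x0)
  (PL.C (nat_lit 0x6f9f0dc) (nat_lit 0x9a5c4da76f5fb) (nat_lit 0x0)
  (PL.C (nat_lit 0x700e832) (nat_lit 0x8787f647efa2ac) (nat_lit 0x0)
  (PL.C (nat_lit 0x70394c7) (nat_lit 0x2309f21fabc4c9) (nat_lit 0x0)
  (PL.C (nat_lit 0x704ea55) (nat_lit 0x0) (nat_lit 0x30a5ae39cc13c0a) gp3_0_127))))))))))))))))))))

noncomputable def gp3_0_125 : PL :=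
  (PL.C (nat_lit 0x699f11a) (nat_lit 0x0) (nat_lit 0x8f43545bdf7db)
  (PL.C (nat_lit 0x69d3ee6) (nat_lit 0x0) (nat_lit 0x7afd4fd9d37a51)
  (PL.C (nat_lit 0x6a10586) (nat_lit 0x0) (nat_lit 0x74b30fdfc1ce2)
  (PL.C (nat_lit 0x6a11d5f) (nat_lit 0x18bb3d2e9debf77) (nat_lit 0x0)
  (PL.C (nat_lit 0x6a3d67f) (nat_lit 0x193014b05125aeb) (nat_lit 0x0)
  (PL.C (nat_lit 0x6a55af9) (nat_lit 0x0) (nat_lit 0x94343cc3a6b865)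
  (PL.C (nat_lit 0x6a61043) (nat_lit 0x210022420f080b8) (nat_lit 0x0)
  (PL.C (nat_lit 0x6a9bef7) (nat_lit 0x0) (nat_lit 0x1ee7e9ae14a8cc)
  (PL.C (nat_lit 0x6af8d12) (nat_lit 0xeb27a7d3372ee9) (nat_lit 0x0)
  (PL.C (nat_lit 0x6b2c3b5) (nat_lit 0x9856418ab41b3c) (nat_lit 0x0)
  (PL.C (nat_lit 0x6b58415) (nat_lit 0x2e90497fc257e6) (nat_lit 0x0)
  (PL.C (nat_lit 0x6b744c6) (nat_lit 0x0) (nat_lit 0x189c8c8def3038)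
  (PL.C (nat_lit 0x6b7d602) (nat_lit 0x6360039ed1779) (nat_lit 0x0)
  (PL.C (nat_lit 0x6ba167a) (nat_lit 0xa41df6de955f19) (nat_lit 0x0)
  (PL.C (nat_lit 0x6be48de) (nat_lit 0x0) (nat_lit 0x4132be9677fc07)
  (PL.C (nat_lit 0x6bf8eab) (nat_lit 0x0) (nat_lit 0x2cd191d3bf90dc)
  (PL.C (nat_lit 0x6c00336) (nat_lit 0x60e390e603f324) (nat_lit 0x0)
  (PL.C (nat_lit 0x6c3afdc) (nat_lit 0x0) (nat_lit 0xc477d8fd94d62)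
  (PL.C (nat_lit 0x6c54d6f) (nat_lit 0x97693e44d361d9) (nat_lit 0x0)
  (PL.C (nat_lit 0x6c758d9) (nat_lit 0xca434cdaa289a7) (nat_lit 0x0) gp3_0_126))))))))))))))))))))

noncomputable def gp3_0_124 : PL :=
  (PL.C (nat_lit 0x68012a3) (nat_lit 0x0) (nat_lit 0xad08996ed0ef5)
  (PL.C (nat_lit 0x6823b09) (nat_lit 0xd0c78aaef3e476) (nat_lit 0x0)
  (PL.C (nat_lit 0x682d6c2) (nat_lit 0x0) (nat_lit 0x1d1ff7102798ea)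
  (PL.C (nat_lit 0x6830a46) (nat_lit 0x0) (nat_lit 0x1504d1d3e01b164)
  (PL.C (nat_lit 0x6857cf7) (nat_lit 0x0) (nat_lit 0x52c0cda798a371)
  (PL.C (nat_lit 0x6868444) (nat_lit 0x0) (nat_lit 0x3fb26fdb50690)
  (PL.C (nat_lit 0x688b434) (nat_lit 0xd0598c805548a) (nat_lit 0x0)
  (PL.C (nat_lit 0x6893607) (nat_lit 0x11a32bb4e1b9d6) (nat_lit 0x0)
  (PL.C (nat_lit 0x68b0a4b) (nat_lit 0x0) (nat_lit 0x11764898ad816c)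
  (PL.C (nat_lit 0x68b84b6) (nat_lit 0x0) (nat_lit 0x9376523a06833)
  (PL.C (nat_lit 0x68d041d) (nat_lit 0x147d31564d0bf7) (nat_lit 0x0)
  (PL.C (nat_lit 0x68f867f) (nat_lit 0x1f80829acdd3fb) (nat_lit 0x0)
  (PL.C (nat_lit 0x68fcdbe) (nat_lit 0x25d9260901eabe8) (nat_lit 0x0)
  (PL.C (nat_lit 0x691a865) (nat_lit 0x1ab5f8fdfb3057) (nat_lit 0x0)
  (PL.C (nat_lit 0x69289aa) (nat_lit 0x150edc5e08544) (nat_lit 0x0)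
  (PL.C (nat_lit 0x69312d2) (nat_lit 0x0) (nat_lit 0x34b9146d60b454)
  (PL.C (nat_lit 0x693dc11) (nat_lit 0x0) (nat_lit 0xaa2e47c943b420)
  (PL.C (nat_lit 0x6964b22) (nat_lit 0x20f1968520e4651) (nat_lit 0x0)
  (PL.C (nat_lit 0x6965d2e) (nat_lit 0x0) (nat_lit 0x59599196f0d7e7)
  (PL.C (nat_lit 0x697a49f) (nat_lit 0x0) (nat_lit 0x525bee34ef256d) gp3_0_125))))))))))))))))))))

noncomputable def gp3_0_123 : PL :=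
  (PL.C (nat_lit 0x648b452) (nat_lit 0x0) (nat_lit 0x79dade3c4c14a5)
  (PL.C (nat_lit 0x64acf8a) (nat_lit 0x0) (nat_lit 0xcd8255f22ef89d)
  (PL.C (nat_lit 0x64d8563) (nat_lit 0x0) (nat_lit 0x11a7d0ba0376f0)
  (PL.C (nat_lit 0x64f666c) (nat_lit 0x20e0c4de248ae2) (nat_lit 0x0)
  (PL.C (nat_lit 0x652016d) (nat_lit 0x11a32bb4e1b9d6) (nat_lit 0x0)
  (PL.C (nat_lit 0x65641b2) (nat_lit 0x0) (nat_lit 0x2a8b54a3af87a34)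
  (PL.C (nat_lit 0x65756f6) (nat_lit 0x0) (nat_lit 0xf585a308b10b7d)
  (PL.C (nat_lit 0x65e05a5) (nat_lit 0x20c55bc90b0b84) (nat_lit 0x0)
  (PL.C (nat_lit 0x66a3d85) (nat_lit 0x0) (nat_lit 0x8a865c0ff05d)
  (PL.C (nat_lit 0x66cbb9e) (nat_lit 0x0) (nat_lit 0x94258084795ba0)
  (PL.C (nat_lit 0x66cd9ef) (nat_lit 0x0) (nat_lit 0x5173e1642dd2fe)
  (PL.C (nat_lit 0x66d011f) (nat_lit 0x9e1ef36ca2e2ea) (nat_lit 0x0)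
  (PL.C (nat_lit 0x66d8c15) (nat_lit 0x151e860a77fc2f) (nat_lit 0x0)
  (PL.C (nat_lit 0x671a537) (nat_lit 0x1816c8ca20899d) (nat_lit 0x0)
  (PL.C (nat_lit 0x672cae6) (nat_lit 0x0) (nat_lit 0x19565aba06b4ab)
  (PL.C (nat_lit 0x6741d1d) (nat_lit 0x129f50f9948381) (nat_lit 0x0)
  (PL.C (nat_lit 0x676051a) (nat_lit 0x5c826955a136ef) (nat_lit 0x0)
  (PL.C (nat_lit 0x6786093) (nat_lit 0x8832e50556328) (nat_lit 0x0)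
  (PL.C (nat_lit 0x679cca1) (nat_lit 0x0) (nat_lit 0xa71c30c377863)
  (PL.C (nat_lit 0x67c6eca) (nat_lit 0xa97ec273e31ce) (nat_lit 0x0) gp3_0_124))))))))))))))))))))

noncomputable def gp3_0_122 : PL :=
  (PL.C (nat_lit 0x621a335) (nat_lit 0x606eba9909915a5) (nat_lit 0x0)
  (PL.C (nat_lit 0x62219be) (nat_lit 0xd1ae575530802c) (nat_lit 0x0)
  (PL.C (nat_lit 0x624b4cb) (nat_lit 0x0) (nat_lit 0x960a89b35f2a00)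
  (PL.C (nat_lit 0x625431e) (nat_lit 0x10c963004697dd) (nat_lit 0x0)
  (PL.C (nat_lit 0x628369b) (nat_lit 0x121077c6e6b6e26) (nat_lit 0x0)
  (PL.C (nat_lit 0x6292e2a) (nat_lit 0x0) (nat_lit 0x9376523a06833)
  (PL.C (nat_lit 0x62a46ef) (nat_lit 0x23dc6a9a111089b) (nat_lit 0x0)
  (PL.C (nat_lit 0x62f9dd2) (nat_lit 0x0) (nat_lit 0x2d1059ffd4a7e)
  (PL.C (nat_lit 0x631f627) (nat_lit 0xa44addfe63fc6) (nat_lit 0x0)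
  (PL.C (nat_lit 0x6323e9d) (nat_lit 0x38af11969c54326) (nat_lit 0x0)
  (PL.C (nat_lit 0x633131a) (nat_lit 0x0) (nat_lit 0x61fcf6c0c1e17c)
  (PL.C (nat_lit 0x6341a96) (nat_lit 0x12418611d36d55e) (nat_lit 0x0)
  (PL.C (nat_lit 0x6360de9) (nat_lit 0x0) (nat_lit 0x26908a6c24253e)
  (PL.C (nat_lit 0x636453a) (nat_lit 0x0) (nat_lit 0x9e89f3d52cc8bc)
  (PL.C (nat_lit 0x637356a) (nat_lit 0x10c963004697dd) (nat_lit 0x0)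
  (PL.C (nat_lit 0x63a3b1e) (nat_lit 0x0) (nat_lit 0x3048e7fca644f70)
  (PL.C (nat_lit 0x63ac1ca) (nat_lit 0xdd6d99f9f5498) (nat_lit 0x0)
  (PL.C (nat_lit 0x63c9dca) (nat_lit 0xd089104a94312e) (nat_lit 0x0)
  (PL.C (nat_lit 0x640bc96) (nat_lit 0x0) (nat_lit 0x7aeb068f69972d)
  (PL.C (nat_lit 0x64364a7) (nat_lit 0x0) (nat_lit 0x35735590ab32bfc) gp3_0_123))))))))))))))))))))

noncomputable def gp3_0_121 : PL :=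
  (PL.C (nat_lit 0x5fa2134) (nat_lit 0x0) (nat_lit 0x665ef353af516)
  (PL.C (nat_lit 0x5fdba42) (nat_lit 0x0) (nat_lit 0x1f74498294598e)
  (PL.C (nat_lit 0x600d0e2) (nat_lit 0x0) (nat_lit 0x98e911a1f63bcd)
  (PL.C (nat_lit 0x6020bbf) (nat_lit 0x1947508a2c17cd) (nat_lit 0x0)
  (PL.C (nat_lit 0x6052fb4) (nat_lit 0x0) (nat_lit 0x16b281cc6acc8e8)
  (PL.C (nat_lit 0x6068fec) (nat_lit 0x0) (nat_lit 0x5b2651e7de218a)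
  (PL.C (nat_lit 0x60aee2e) (nat_lit 0x2f39692104b5f) (nat_lit 0x0)
  (PL.C (nat_lit 0x60c2198) (nat_lit 0x68af56ad1e93) (nat_lit 0x0)
  (PL.C (nat_lit 0x60d7f63) (nat_lit 0x25d4295357ca9c1) (nat_lit 0x0)
  (PL.C (nat_lit 0x6102ecd) (nat_lit 0xfa2a755078b2ea) (nat_lit 0x0)
  (PL.C (nat_lit 0x610d997) (nat_lit 0x0) (nat_lit 0x11a7d0ba0376f0)
  (PL.C (nat_lit 0x6113817) (nat_lit 0x0) (nat_lit 0x36828e9aa22784)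
  (PL.C (nat_lit 0x613182e) (nat_lit 0x0) (nat_lit 0x6981fb61f5ba15)
  (PL.C (nat_lit 0x614b332) (nat_lit 0x0) (nat_lit 0x2d1059ffd4a7e)
  (PL.C (nat_lit 0x61b00de) (nat_lit 0x0) (nat_lit 0x19d96ca2506b98)
  (PL.C (nat_lit 0x61ba76a) (nat_lit 0x0) (nat_lit 0x1dfc1117b418940)
  (PL.C (nat_lit 0x61bb826) (nat_lit 0x0) (nat_lit 0x8f43545bdf7db)
  (PL.C (nat_lit 0x61e0f22) (nat_lit 0xcaa73e0e89594) (nat_lit 0x0)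
  (PL.C (nat_lit 0x61e48f3) (nat_lit 0x0) (nat_lit 0x1407e917d6c973)
  (PL.C (nat_lit 0x620eb6e) (nat_lit 0x3f4f72362b9ab) (nat_lit 0x0) gp3_0_122))))))))))))))))))))

noncomputable def gp3_0_120 : PL :=
  (PL.C (nat_lit 0x5d82c8f) (nat_lit 0x146d321588bff7) (nat_lit 0x0)
  (PL.C (nat_lit 0x5d9ea9c) (nat_lit 0xf110fa7a4b45d) (nat_lit 0x0)
  (PL.C (nat_lit 0x5e0463a) (nat_lit 0x0) (nat_lit 0x6827b0b7bbd408)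
  (PL.C (nat_lit 0x5e12b57) (nat_lit 0x0) (nat_lit 0xb3a2c3e2793d82)
  (PL.C (nat_lit 0x5e4c264) (nat_lit 0x1e907eae169de6) (nat_lit 0x0)
  (PL.C (nat_lit 0x5e50db9) (nat_lit 0x169e88bb73538f) (nat_lit 0x0)
  (PL.C (nat_lit 0x5e77999) (nat_lit 0x0) (nat_lit 0x823522cba34b3)
  (PL.C (nat_lit 0x5e85666) (nat_lit 0x2c52b0e84306b9) (nat_lit 0x0)
  (PL.C (nat_lit 0x5e9ab54) (nat_lit 0x0) (nat_lit 0x185988df103649)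
  (PL.C (nat_lit 0x5ece069) (nat_lit 0x0) (nat_lit 0x4254ece786a451)
  (PL.C (nat_lit 0x5efd797) (nat_lit 0x0) (nat_lit 0x21f1fafeae3688)
  (PL.C (nat_lit 0x5f07e9c) (nat_lit 0x0) (nat_lit 0x9bfab163e644e)
  (PL.C (nat_lit 0x5f0ca87) (nat_lit 0x804cb18c41e9bd) (nat_lit 0x0)
  (PL.C (nat_lit 0x5f279d9) (nat_lit 0x0) (nat_lit 0xff33625e50749)
  (PL.C (nat_lit 0x5f43549) (nat_lit 0x122324bc0cd50a2) (nat_lit 0x0)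
  (PL.C (nat_lit 0x5f4b3fc) (nat_lit 0x0) (nat_lit 0xc477d8fd94d62)
  (PL.C (nat_lit 0x5f539cb) (nat_lit 0x33842b0ed6421b) (nat_lit 0x0)
  (PL.C (nat_lit 0x5f6b30c) (nat_lit 0x0) (nat_lit 0x66680b75b423bb)
  (PL.C (nat_lit 0x5f8c0aa) (nat_lit 0x0) (nat_lit 0x5051ab4c8fcebb)
  (PL.C (nat_lit 0x5f944aa) (nat_lit 0xb68ae62ac78c8b) (nat_lit 0x0) gp3_0_121))))))))))))))))))))

noncomputable def gp3_0_119 : PL :=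
  (PL.C (nat_lit 0x5adb5e2) (nat_lit 0x0) (nat_lit 0x10d28e5bd01af9)
  (PL.C (nat_lit 0x5af168a) (nat_lit 0x0) (nat_lit 0x19bb792a4e60a8)
  (PL.C (nat_lit 0x5af7b69) (nat_lit 0x18802aa11f79e2c) (nat_lit 0x0)
  (PL.C (nat_lit 0x5b140d6) (nat_lit 0x2933ef68d1e34d) (nat_lit 0x0)
  (PL.C (nat_lit 0x5b2d7d6) (nat_lit 0xd13b3ee54040b) (nat_lit 0x0)
  (PL.C (nat_lit 0x5b5d04c) (nat_lit 0x0) (nat_lit 0xa807028e6ee22)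
  (PL.C (nat_lit 0x5b72d6b) (nat_lit 0x0) (nat_lit 0xed7964b6c1537)
  (PL.C (nat_lit 0x5c02ad3) (nat_lit 0xaf480212203fb9) (nat_lit 0x0)
  (PL.C (nat_lit 0x5c101e2) (nat_lit 0x0) (nat_lit 0x78204caaa8861d5)
  (PL.C (nat_lit 0x5c21847) (nat_lit 0x67cb8016302f3) (nat_lit 0x0)
  (PL.C (nat_lit 0x5c5e2fc) (nat_lit 0x162940c85ecc8) (nat_lit 0x0)
  (PL.C (nat_lit 0x5c8642a) (nat_lit 0x0) (nat_lit 0x96ca0346047168)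
  (PL.C (nat_lit 0x5c87fb2) (nat_lit 0x0) (nat_lit 0x8cdc8c2dda95d6)
  (PL.C (nat_lit 0x5cd7c06) (nat_lit 0xe59d6ca96fa8a4) (nat_lit 0x0)
  (PL.C (nat_lit 0x5cec863) (nat_lit 0x0) (nat_lit 0x3474ad787044f56)
  (PL.C (nat_lit 0x5d2563c) (nat_lit 0x0) (nat_lit 0x16b281cc6acc8e8)
  (PL.C (nat_lit 0x5d354f4) (nat_lit 0x19fb32495c75bbc) (nat_lit 0x0)
  (PL.C (nat_lit 0x5d41e9b) (nat_lit 0x0) (nat_lit 0x4b2124c0d349cd)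
  (PL.C (nat_lit 0x5d5d756) (nat_lit 0x1ce06d8feed825) (nat_lit 0x0)
  (PL.C (nat_lit 0x5d70965) (nat_lit 0x12d057a0cb7d24) (nat_lit 0x0) gp3_0_120))))))))))))))))))))

noncomputable def gp3_0_118 : PL :=
  (PL.C (nat_lit 0x5899212) (nat_lit 0x5209cfcc411346) (nat_lit 0x0)
  (PL.C (nat_lit 0x58b1a36) (nat_lit 0x22e458d1b49ae) (nat_lit 0x0)
  (PL.C (nat_lit 0x58c3cf5) (nat_lit 0x50e27894da8ebd) (nat_lit 0x0)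
  (PL.C (nat_lit 0x5910c2a) (nat_lit 0x0) (nat_lit 0x10d28e5bd01af9)
  (PL.C (nat_lit 0x591b7b1) (nat_lit 0x0) (nat_lit 0xfe1edbeff79981)
  (PL.C (nat_lit 0x5929302) (nat_lit 0x0) (nat_lit 0x89f6e75b7613b0)
  (PL.C (nat_lit 0x5955cfe) (nat_lit 0x19a030897be8e0) (nat_lit 0x0)
  (PL.C (nat_lit 0x598a11b) (nat_lit 0x1c19955d78a390e) (nat_lit 0x0)
  (PL.C (nat_lit 0x59ab336) (nat_lit 0x8787f647efa2ac) (nat_lit 0x0)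
  (PL.C (nat_lit 0x59cce8f) (nat_lit 0x2232b37f3c0de7) (nat_lit 0x0)
  (PL.C (nat_lit 0x59cd705) (nat_lit 0x2309f21fabc4c9) (nat_lit 0x0)
  (PL.C (nat_lit 0x59f73d4) (nat_lit 0x0) (nat_lit 0xe1821a54e79a4)
  (PL.C (nat_lit 0x5a1ff26) (nat_lit 0x0) (nat_lit 0x3048e7fca644f70)
  (PL.C (nat_lit 0x5a27d9e) (nat_lit 0x0) (nat_lit 0x221ed343807730)
  (PL.C (nat_lit 0x5a4d0da) (nat_lit 0x0) (nat_lit 0xc99165211c011e)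
  (PL.C (nat_lit 0x5a78749) (nat_lit 0xec593f73cd2a29) (nat_lit 0x0)
  (PL.C (nat_lit 0x5a81e01) (nat_lit 0x0) (nat_lit 0x2b28329820ed873)
  (PL.C (nat_lit 0x5a95496) (nat_lit 0x5209cfcc411346) (nat_lit 0x0)
  (PL.C (nat_lit 0x5aac7e7) (nat_lit 0x70446c2d25ba50) (nat_lit 0x0)
  (PL.C (nat_lit 0x5acc1ca) (nat_lit 0x0) (nat_lit 0x6ec22a09aabf23) gp3_0_119))))))))))))))))))))

noncomputable def gp3_0_117 : PL :=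
  (PL.C (nat_lit 0x5596ffa) (nat_lit 0x0) (nat_lit 0x9e89f3d52cc8bc)
  (PL.C (nat_lit 0x55a676c) (nat_lit 0xf110fa7a4b45d) (nat_lit 0x0)
  (PL.C (nat_lit 0x55a7aae) (nat_lit 0x0) (nat_lit 0x14cab4a9958f1e7)
  (PL.C (nat_lit 0x55f4d2c) (nat_lit 0x0) (nat_lit 0x968169f75bbe15)
  (PL.C (nat_lit 0x5601266) (nat_lit 0x0) (nat_lit 0x12aed3f3204c101)
  (PL.C (nat_lit 0x561cb55) (nat_lit 0x0) (nat_lit 0x4059ef2a511f4)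
  (PL.C (nat_lit 0x56247a6) (nat_lit 0x0) (nat_lit 0x26c487541af5d)
  (PL.C (nat_lit 0x56ca3db) (nat_lit 0x606eba9909915a5) (nat_lit 0x0)
  (PL.C (nat_lit 0x56d1929) (nat_lit 0x157ae5d7f59a098) (nat_lit 0x0)
  (PL.C (nat_lit 0x56eeac5) (nat_lit 0x2614dc48d7a2b6) (nat_lit 0x0)
  (PL.C (nat_lit 0x5727eb4) (nat_lit 0x159f162eca590) (nat_lit 0x0)
  (PL.C (nat_lit 0x573b3d3) (nat_lit 0x0) (nat_lit 0x81ede8c98bc8aa)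
  (PL.C (nat_lit 0x57770e5) (nat_lit 0x0) (nat_lit 0xa71c30c377863)
  (PL.C (nat_lit 0x57e8eed) (nat_lit 0x67cb8016302f3) (nat_lit 0x0)
  (PL.C (nat_lit 0x57f3dde) (nat_lit 0x271d0b5be69f16) (nat_lit 0x0)
  (PL.C (nat_lit 0x57fead4) (nat_lit 0x0) (nat_lit 0xb1c7dec5b5109)
  (PL.C (nat_lit 0x583c01d) (nat_lit 0x6f73fb759fc9) (nat_lit 0x0)
  (PL.C (nat_lit 0x5855b4d) (nat_lit 0x9fbb25cc76865) (nat_lit 0x0)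
  (PL.C (nat_lit 0x585feb7) (nat_lit 0x28c0dc558008643) (nat_lit 0x0)
  (PL.C (nat_lit 0x586660e) (nat_lit 0x20089cdbf7ccaa) (nat_lit 0x0) gp3_0_118))))))))))))))))))))

noncomputable def gp3_0_116 : PL :=
  (PL.C (nat_lit 0x53e6fa2) (nat_lit 0x0) (nat_lit 0x2a8b54a3af87a34)
  (PL.C (nat_lit 0x53fa26e) (nat_lit 0x0) (nat_lit 0x2e83858565c895)
  (PL.C (nat_lit 0x540319a) (nat_lit 0xd9fe7130908989) (nat_lit 0x0)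
  (PL.C (nat_lit 0x542749b) (nat_lit 0x0) (nat_lit 0x35ee0e96260d08)
  (PL.C (nat_lit 0x5454372) (nat_lit 0x0) (nat_lit 0x221ed343807730)
  (PL.C (nat_lit 0x545bc4e) (nat_lit 0x0) (nat_lit 0x3bbd7151e73334)
  (PL.C (nat_lit 0x5464113) (nat_lit 0x0) (nat_lit 0x2d40a8178b1569)
  (PL.C (nat_lit 0x547456e) (nat_lit 0x0) (nat_lit 0x61fcf6c0c1e17c)
  (PL.C (nat_lit 0x5498383) (nat_lit 0x0) (nat_lit 0x3a8a97b83e114de)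
  (PL.C (nat_lit 0x54b7ffc) (nat_lit 0x0) (nat_lit 0x5322fd9a3043f)
  (PL.C (nat_lit 0x54cc3b7) (nat_lit 0x0) (nat_lit 0x1aa827c7d368eee)
  (PL.C (nat_lit 0x54e3abc) (nat_lit 0x7e65ddb88b9f49) (nat_lit 0x0)
  (PL.C (nat_lit 0x54f67d1) (nat_lit 0xb6fd5b8e72bf3d) (nat_lit 0x0)
  (PL.C (nat_lit 0x55039ad) (nat_lit 0x0) (nat_lit 0x297326ca29596)
  (PL.C (nat_lit 0x552102f) (nat_lit 0xb83a60bb343b0e) (nat_lit 0x0)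
  (PL.C (nat_lit 0x55453ca) (nat_lit 0x0) (nat_lit 0x79e076a2ba5dd0)
  (PL.C (nat_lit 0x554afd4) (nat_lit 0x0) (nat_lit 0x6b53567fed502a)
  (PL.C (nat_lit 0x55519bf) (nat_lit 0x0) (nat_lit 0x4b2124c0d349cd)
  (PL.C (nat_lit 0x555e12a) (nat_lit 0x0) (nat_lit 0x1991b8c8c006538)
  (PL.C (nat_lit 0x5572b24) (nat_lit 0x110818c019989) (nat_lit 0x0) gp3_0_117))))))))))))))))))))

noncomputable def gp3_0_115 : PL :=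
  (PL.C (nat_lit 0x51302c2) (nat_lit 0x0) (nat_lit 0xf585a308b10b7d)
  (PL.C (nat_lit 0x5135691) (nat_lit 0x50e27894da8ebd) (nat_lit 0x0)
  (PL.C (nat_lit 0x516b474) (nat_lit 0x2d091f68052d33) (nat_lit 0x0)
  (PL.C (nat_lit 0x518e596) (nat_lit 0x134b4abac7f0059) (nat_lit 0x0)
  (PL.C (nat_lit 0x51e48c1) (nat_lit 0x699f82db025797) (nat_lit 0x0)
  (PL.C (nat_lit 0x51f28b3) (nat_lit 0x0) (nat_lit 0x117963907a83265)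
  (PL.C (nat_lit 0x51f8886) (nat_lit 0x0) (nat_lit 0x8b0d5eff55c0)
  (PL.C (nat_lit 0x52230da) (nat_lit 0x881a46deac83e4) (nat_lit 0x0)
  (PL.C (nat_lit 0x524213a) (nat_lit 0x134b4abac7f0059) (nat_lit 0x0)
  (PL.C (nat_lit 0x52677b2) (nat_lit 0x0) (nat_lit 0xc62a66e87a0c7e)
  (PL.C (nat_lit 0x52ad2ca) (nat_lit 0x864bcaede20ec8) (nat_lit 0x0)
  (PL.C (nat_lit 0x52c69a6) (nat_lit 0x0) (nat_lit 0xf959b4f86c5d58)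
  (PL.C (nat_lit 0x52cce88) (nat_lit 0x68af56ad1e93) (nat_lit 0x0)
  (PL.C (nat_lit 0x52d04c9) (nat_lit 0x9e1ef36ca2e2ea) (nat_lit 0x0)
  (PL.C (nat_lit 0x5301416) (nat_lit 0x0) (nat_lit 0x134d69c665036)
  (PL.C (nat_lit 0x5307027) (nat_lit 0x116845a460eca2d) (nat_lit 0x0)
  (PL.C (nat_lit 0x531d13e) (nat_lit 0x18285d89df47aa) (nat_lit 0x0)
  (PL.C (nat_lit 0x533f37e) (nat_lit 0x209fdf9767808) (nat_lit 0x0)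
  (PL.C (nat_lit 0x53bbd02) (nat_lit 0x0) (nat_lit 0x7aeb068f69972d)
  (PL.C (nat_lit 0x53c9b6e) (nat_lit 0x437c4ebea883bd) (nat_lit 0x0) gp3_0_116))))))))))))))))))))

noncomputable def gp3_0_114 : PL :=
  (PL.C (nat_lit 0x4e809af) (nat_lit 0xca434cdaa289a7) (nat_lit 0x0)
  (PL.C (nat_lit 0x4ed4cc1) (nat_lit 0x3389204e960274) (nat_lit 0x0)
  (PL.C (nat_lit 0x4ef010b) (nat_lit 0x3f605ca20d0b10) (nat_lit 0x0)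
  (PL.C (nat_lit 0x4f3344f) (nat_lit 0x16c91237232aaf) (nat_lit 0x0)
  (PL.C (nat_lit 0x4f698f3) (nat_lit 0x3068a3c421c7c8) (nat_lit 0x0)
  (PL.C (nat_lit 0x4f8b5a2) (nat_lit 0x0) (nat_lit 0x644acaaec097d1)
  (PL.C (nat_lit 0x4f9e05d) (nat_lit 0x0) (nat_lit 0x1f1176c25de9d3)
  (PL.C (nat_lit 0x4fbb7ba) (nat_lit 0x0) (nat_lit 0xc08f2aaaafa14d)
  (PL.C (nat_lit 0x4fc237e) (nat_lit 0xdd6d99f9f5498) (nat_lit 0x0)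
  (PL.C (nat_lit 0x502b303) (nat_lit 0x839d11dd4c41ce) (nat_lit 0x0)
  (PL.C (nat_lit 0x503c8e3) (nat_lit 0x0) (nat_lit 0x164a8c899628a)
  (PL.C (nat_lit 0x50534fd) (nat_lit 0x0) (nat_lit 0xb646952ae873a6)
  (PL.C (nat_lit 0x507a5e7) (nat_lit 0x3a85d7b9c76748) (nat_lit 0x0)
  (PL.C (nat_lit 0x507aebc) (nat_lit 0xe6ba693a5e92) (nat_lit 0x0)
  (PL.C (nat_lit 0x50812ad) (nat_lit 0xa719b93544cbb) (nat_lit 0x0)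
  (PL.C (nat_lit 0x50af0d2) (nat_lit 0xb68ae62ac78c8b) (nat_lit 0x0)
  (PL.C (nat_lit 0x50ca68c) (nat_lit 0x1bfdd64790e4e6) (nat_lit 0x0)
  (PL.C (nat_lit 0x50d25ea) (nat_lit 0x0) (nat_lit 0xab3e4fd5ac90f)
  (PL.C (nat_lit 0x5114fea) (nat_lit 0x0) (nat_lit 0x100b939d78c1766)
  (PL.C (nat_lit 0x511a9d9) (nat_lit 0x0) (nat_lit 0x1f8028ba5ed9c3) gp3_0_115))))))))))))))))))))

noncomputable def gp3_0_113 : PL :=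
  (PL.C (nat_lit 0x4cdedea) (nat_lit 0x0) (nat_lit 0xcd8255f22ef89d)
  (PL.C (nat_lit 0x4cf7dae) (nat_lit 0x0) (nat_lit 0xbc50ee886b6951)
  (PL.C (nat_lit 0x4d11a76) (nat_lit 0x0) (nat_lit 0x324b717289e44b)
  (PL.C (nat_lit 0x4d1455c) (nat_lit 0x0) (nat_lit 0xc032f56473ff5)
  (PL.C (nat_lit 0x4d2bf03) (nat_lit 0x1816c8ca20899d) (nat_lit 0x0)
  (PL.C (nat_lit 0x4d2eff4) (nat_lit 0x82d041695a9702) (nat_lit 0x0)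
  (PL.C (nat_lit 0x4d32657) (nat_lit 0x0) (nat_lit 0x13388db6274f082)
  (PL.C (nat_lit 0x4d32d9d) (nat_lit 0x0) (nat_lit 0x12d13bf5d491ba)
  (PL.C (nat_lit 0x4d4d176) (nat_lit 0x4623a7d7d56489) (nat_lit 0x0)
  (PL.C (nat_lit 0x4d79c76) (nat_lit 0x0) (nat_lit 0x2925d260fd9c8e7)
  (PL.C (nat_lit 0x4d8092e) (nat_lit 0x330bfe81559fd4) (nat_lit 0x0)
  (PL.C (nat_lit 0x4dc5da3) (nat_lit 0xd0c78aaef3e476) (nat_lit 0x0)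
  (PL.C (nat_lit 0x4dccdea) (nat_lit 0x45f9ee86ecc0c1) (nat_lit 0x0)
  (PL.C (nat_lit 0x4dd916c) (nat_lit 0x0) (nat_lit 0x290abef4d3daa9)
  (PL.C (nat_lit 0x4ddea66) (nat_lit 0x21c3877b18e4df) (nat_lit 0x0)
  (PL.C (nat_lit 0x4dfcf5b) (nat_lit 0x0) (nat_lit 0x11352757d75a15)
  (PL.C (nat_lit 0x4e1333c) (nat_lit 0xd0598c805548a) (nat_lit 0x0)
  (PL.C (nat_lit 0x4e1ae52) (nat_lit 0x0) (nat_lit 0xc016a70a85b308)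
  (PL.C (nat_lit 0x4e34d52) (nat_lit 0x0) (nat_lit 0xb867a676a592d1)
  (PL.C (nat_lit 0x4e74194) (nat_lit 0xf3bb4d2bda306) (nat_lit 0x0) gp3_0_114))))))))))))))))))))

noncomputable def gp3_0_112 : PL :=
  (PL.C (nat_lit 0x4ad0dda) (nat_lit 0x22c84259e47cf) (nat_lit 0x0)
  (PL.C (nat_lit 0x4adf18e) (nat_lit 0x0) (nat_lit 0xf959b4f86c5d58)
  (PL.C (nat_lit 0x4afd07b) (nat_lit 0x4d67f7cb0a1699) (nat_lit 0x0)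
  (PL.C (nat_lit 0x4b159ac) (nat_lit 0xd6b22ad35a77d) (nat_lit 0x0)
  (PL.C (nat_lit 0x4b2f652) (nat_lit 0xa41df6de955f19) (nat_lit 0x0)
  (PL.C (nat_lit 0x4b3bbce) (nat_lit 0x0) (nat_lit 0x3e970aaa25bd5f)
  (PL.C (nat_lit 0x4b4898a) (nat_lit 0x0) (nat_lit 0x9ce0253054d7c2)
  (PL.C (nat_lit 0x4b69063) (nat_lit 0x0) (nat_lit 0x164a8c899628a)
  (PL.C (nat_lit 0x4b95cc7) (nat_lit 0x0) (nat_lit 0x35ee0e96260d08)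
  (PL.C (nat_lit 0x4befda5) (nat_lit 0x19b60b39eb5dc3) (nat_lit 0x0)
  (PL.C (nat_lit 0x4c0b694) (nat_lit 0x0) (nat_lit 0x968169f75bbe15)
  (PL.C (nat_lit 0x4c29d02) (nat_lit 0x0) (nat_lit 0x228e27c89ded04)
  (PL.C (nat_lit 0x4c414b4) (nat_lit 0x0) (nat_lit 0x8e978bc0383a6)
  (PL.C (nat_lit 0x4c66fc5) (nat_lit 0x0) (nat_lit 0x128eaf7d8fefd9a)
  (PL.C (nat_lit 0x4c6943a) (nat_lit 0x0) (nat_lit 0x1ffa48fe12b3d4)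
  (PL.C (nat_lit 0x4c99de9) (nat_lit 0x38c76a4857eaee3) (nat_lit 0x0)
  (PL.C (nat_lit 0x4ca5a72) (nat_lit 0x0) (nat_lit 0x9532a06d2acf48)
  (PL.C (nat_lit 0x4cc177e) (nat_lit 0xeee0d948900a2) (nat_lit 0x0)
  (PL.C (nat_lit 0x4cc5232) (nat_lit 0x0) (nat_lit 0x2d9b421f3f7c6a)
  (PL.C (nat_lit 0x4cc7f8b) (nat_lit 0x11cafe8c27a894) (nat_lit 0x0) gp3_0_113))))))))))))))))))))

noncomputable def gp3_0_111 : PL :=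
  (PL.C (nat_lit 0x486cbd3) (nat_lit 0x0) (nat_lit 0x128eaf7d8fefd9a)
  (PL.C (nat_lit 0x4884c5a) (nat_lit 0x864bcaede20ec8) (nat_lit 0x0)
  (PL.C (nat_lit 0x4899e7e) (nat_lit 0x141b9176bdf3bb3) (nat_lit 0x0)
  (PL.C (nat_lit 0x48aa27a) (nat_lit 0x437c4ebea883bd) (nat_lit 0x0)
  (PL.C (nat_lit 0x48cb08b) (nat_lit 0x19ac28267e833d9) (nat_lit 0x0)
  (PL.C (nat_lit 0x48d411c) (nat_lit 0x0) (nat_lit 0x7b65c2a29b0d9)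
  (PL.C (nat_lit 0x48ef775) (nat_lit 0x0) (nat_lit 0x525b559b3b7dd)
  (PL.C (nat_lit 0x49191a5) (nat_lit 0x9fbb25cc76865) (nat_lit 0x0)
  (PL.C (nat_lit 0x4924956) (nat_lit 0x0) (nat_lit 0x8b0d5eff55c0)
  (PL.C (nat_lit 0x4943a87) (nat_lit 0x0) (nat_lit 0x36959b81365e4a8)
  (PL.C (nat_lit 0x4949d8d) (nat_lit 0x151e860a77fc2f) (nat_lit 0x0)
  (PL.C (nat_lit 0x4962699) (nat_lit 0x9efa0bfdc87d29) (nat_lit 0x0)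
  (PL.C (nat_lit 0x4962d5a) (nat_lit 0x0) (nat_lit 0x280894f02e09ea6)
  (PL.C (nat_lit 0x4990323) (nat_lit 0x0) (nat_lit 0x2cd191d3bf90dc)
  (PL.C (nat_lit 0x49a110c) (nat_lit 0x0) (nat_lit 0x21ec8ee855621)
  (PL.C (nat_lit 0x49cb216) (nat_lit 0x0) (nat_lit 0xbc50ee886b6951)
  (PL.C (nat_lit 0x4a06b6d) (nat_lit 0xa44addfe63fc6) (nat_lit 0x0)
  (PL.C (nat_lit 0x4a5bc99) (nat_lit 0x0) (nat_lit 0x3474ad787044f56)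
  (PL.C (nat_lit 0x4a9a1d3) (nat_lit 0x0) (nat_lit 0x11764898ad816c)
  (PL.C (nat_lit 0x4abb35d) (nat_lit 0xc2daa923c9ec0) (nat_lit 0x0) gp3_0_112))))))))))))))))))))

noncomputable def gp3_0_110 : PL :=
  (PL.C (nat_lit 0x46d39aa) (nat_lit 0x274b875d11472e1) (nat_lit 0x0)
  (PL.C (nat_lit 0x46d8839) (nat_lit 0x0) (nat_lit 0x8628bdbb70db7e)
  (PL.C (nat_lit 0x46e3ca6) (nat_lit 0x881a46deac83e4) (nat_lit 0x0)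
  (PL.C (nat_lit 0x46eb582) (nat_lit 0x4304127dfea8574) (nat_lit 0x0)
  (PL.C (nat_lit 0x4709e47) (nat_lit 0x1c19955d78a390e) (nat_lit 0x0)
  (PL.C (nat_lit 0x47129fa) (nat_lit 0x0) (nat_lit 0x5af84cfa9548d0)
  (PL.C (nat_lit 0x476661f) (nat_lit 0x0) (nat_lit 0x1f1176c25de9d3)
  (PL.C (nat_lit 0x47a8eac) (nat_lit 0x7e65ddb88b9f49) (nat_lit 0x0)
  (PL.C (nat_lit 0x47b2f51) (nat_lit 0x8832e50556328) (nat_lit 0x0)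
  (PL.C (nat_lit 0x47b8cd5) (nat_lit 0xb6fd5b8e72bf3d) (nat_lit 0x0)
  (PL.C (nat_lit 0x47c0efc) (nat_lit 0xae5549c7b8cf67) (nat_lit 0x0)
  (PL.C (nat_lit 0x47dbedd) (nat_lit 0x0) (nat_lit 0x17d37563492b694)
  (PL.C (nat_lit 0x47dcb2b) (nat_lit 0x0) (nat_lit 0x144096022eed33)
  (PL.C (nat_lit 0x47fb472) (nat_lit 0x6c31fe1bd759fc) (nat_lit 0x0)
  (PL.C (nat_lit 0x4800224) (nat_lit 0x0) (nat_lit 0x6b53567fed502a)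
  (PL.C (nat_lit 0x4803ba9) (nat_lit 0x3f605ca20d0b10) (nat_lit 0x0)
  (PL.C (nat_lit 0x481ddcf) (nat_lit 0x0) (nat_lit 0x6f44216a0b92b3)
  (PL.C (nat_lit 0x4827c57) (nat_lit 0x0) (nat_lit 0x6ec7d32a8f21c)
  (PL.C (nat_lit 0x484e5e6) (nat_lit 0x0) (nat_lit 0x24aa932f279c9e)
  (PL.C (nat_lit 0x4850f67) (nat_lit 0x0) (nat_lit 0x8a865c0ff05d) gp3_0_111))))))))))))))))))))

noncomputable def gp3_0_109 : PL :=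
  (PL.C (nat_lit 0x4513316) (nat_lit 0xc96d240acad923) (nat_lit 0x0)
  (PL.C (nat_lit 0x4521585) (nat_lit 0x0) (nat_lit 0x1d3a39e503a4541)
  (PL.C (nat_lit 0x452ecef) (nat_lit 0x13258fa8bd5c0e1) (nat_lit 0x0)
  (PL.C (nat_lit 0x45561c2) (nat_lit 0x0) (nat_lit 0x2e83858565c895)
  (PL.C (nat_lit 0x456d206) (nat_lit 0x1cdf83b7eb2a526) (nat_lit 0x0)
  (PL.C (nat_lit 0x458fdfa) (nat_lit 0x18285d89df47aa) (nat_lit 0x0)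
  (PL.C (nat_lit 0x45b795a) (nat_lit 0x1f140858530a3c) (nat_lit 0x0)
  (PL.C (nat_lit 0x45d0324) (nat_lit 0x15cbc6d759182e) (nat_lit 0x0)
  (PL.C (nat_lit 0x45e02be) (nat_lit 0x22e458d1b49ae) (nat_lit 0x0)
  (PL.C (nat_lit 0x4611aee) (nat_lit 0x0) (nat_lit 0x274fee7a17ff8c)
  (PL.C (nat_lit 0x461b11c) (nat_lit 0x110818c019989) (nat_lit 0x0)
  (PL.C (nat_lit 0x4620c8c) (nat_lit 0x10edb4130b6e041) (nat_lit 0x0)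
  (PL.C (nat_lit 0x46292b6) (nat_lit 0x0) (nat_lit 0xc62a66e87a0c7e)
  (PL.C (nat_lit 0x465186a) (nat_lit 0x0) (nat_lit 0x4ec7aea847fd35)
  (PL.C (nat_lit 0x4658a57) (nat_lit 0x21ae4b691003fd) (nat_lit 0x0)
  (PL.C (nat_lit 0x466a0bc) (nat_lit 0x2ccb0d014ded1) (nat_lit 0x0)
  (PL.C (nat_lit 0x466f82d) (nat_lit 0x0) (nat_lit 0x2d40a8178b1569)
  (PL.C (nat_lit 0x467bda9) (nat_lit 0x2ece2c1b83702c) (nat_lit 0x0)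
  (PL.C (nat_lit 0x46b5904) (nat_lit 0x0) (nat_lit 0x5322fd9a3043f)
  (PL.C (nat_lit 0x46b68ea) (nat_lit 0xda3afc2d6ef2ac) (nat_lit 0x0) gp3_0_110))))))))))))))))))))

noncomputable def gp3_0_108 : PL :=
  (PL.C (nat_lit 0x430adc3) (nat_lit 0x0) (nat_lit 0xb646952ae873a6)
  (PL.C (nat_lit 0x433ae42) (nat_lit 0x2162fc1f14408e) (nat_lit 0x0)
  (PL.C (nat_lit 0x436ab9e) (nat_lit 0x1f140858530a3c) (nat_lit 0x0)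
  (PL.C (nat_lit 0x43a18a9) (nat_lit 0x65cdcbc2e6ab1b) (nat_lit 0x0)
  (PL.C (nat_lit 0x43acc4f) (nat_lit 0x0) (nat_lit 0x2ae1b9984b1416)
  (PL.C (nat_lit 0x43c4679) (nat_lit 0x0) (nat_lit 0x1d3a39e503a4541)
  (PL.C (nat_lit 0x43eae6e) (nat_lit 0x183c5edde7bd18) (nat_lit 0x0)
  (PL.C (nat_lit 0x43ef9c3) (nat_lit 0x19ac28267e833d9) (nat_lit 0x0)
  (PL.C (nat_lit 0x4409a21) (nat_lit 0x0) (nat_lit 0x9d34a039230a96)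
  (PL.C (nat_lit 0x443694f) (nat_lit 0x65cdcbc2e6ab1b) (nat_lit 0x0)
  (PL.C (nat_lit 0x446d3ae) (nat_lit 0x3486439a9c8e2) (nat_lit 0x0)
  (PL.C (nat_lit 0x4487d14) (nat_lit 0x0) (nat_lit 0x51ea2ad78cdf4b)
  (PL.C (nat_lit 0x448914a) (nat_lit 0x71c0ec91eebee) (nat_lit 0x0)
  (PL.C (nat_lit 0x448ab6a) (nat_lit 0x0) (nat_lit 0x6288978d31330c)
  (PL.C (nat_lit 0x449080e) (nat_lit 0xd55359a9e39e6) (nat_lit 0x0)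
  (PL.C (nat_lit 0x44bc37a) (nat_lit 0x1f45fae4395cd2) (nat_lit 0x0)
  (PL.C (nat_lit 0x44c8744) (nat_lit 0x0) (nat_lit 0x9bfab163e644e)
  (PL.C (nat_lit 0x44d68be) (nat_lit 0x17f4a48fd6ca0b) (nat_lit 0x0)
  (PL.C (nat_lit 0x44f35dd) (nat_lit 0x0) (nat_lit 0xb6d7f02934ef16)
  (PL.C (nat_lit 0x4504062) (nat_lit 0x619fe5405a859) (nat_lit 0x0) gp3_0_109))))))))))))))))))))

noncomputable def gp3_0_107 : PL :=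
  (PL.C (nat_lit 0x41b741c) (nat_lit 0x15cbc6d759182e) (nat_lit 0x0)
  (PL.C (nat_lit 0x41c2f4a) (nat_lit 0x0) (nat_lit 0x2b6eab80845faae)
  (PL.C (nat_lit 0x41df483) (nat_lit 0xfd510056cf8fd5) (nat_lit 0x0)
  (PL.C (nat_lit 0x41eb9ab) (nat_lit 0x0) (nat_lit 0x1a16c3c968d938)
  (PL.C (nat_lit 0x41fbe8c) (nat_lit 0x0) (nat_lit 0x2a60e1bf9dc77)
  (PL.C (nat_lit 0x4220cbc) (nat_lit 0x0) (nat_lit 0x515721586df1f4)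
  (PL.C (nat_lit 0x422b521) (nat_lit 0x2a8e16a56cad4e) (nat_lit 0x0)
  (PL.C (nat_lit 0x422bc64) (nat_lit 0x2069c519936f7) (nat_lit 0x0)
  (PL.C (nat_lit 0x42350bb) (nat_lit 0x626930ed3338f) (nat_lit 0x0)
  (PL.C (nat_lit 0x4240946) (nat_lit 0x0) (nat_lit 0x44811de05da378)
  (PL.C (nat_lit 0x4244aab) (nat_lit 0x0) (nat_lit 0x250fc4e7a6c2329)
  (PL.C (nat_lit 0x426d214) (nat_lit 0x0) (nat_lit 0x6b10e457df2cc0)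
  (PL.C (nat_lit 0x4270725) (nat_lit 0x0) (nat_lit 0x2866ed91bda8d4b)
  (PL.C (nat_lit 0x4272bdc) (nat_lit 0x12e4d334e961c1) (nat_lit 0x0)
  (PL.C (nat_lit 0x4281789) (nat_lit 0x0) (nat_lit 0x17bfeb94817724)
  (PL.C (nat_lit 0x429af23) (nat_lit 0x0) (nat_lit 0x432d580b9e3e6)
  (PL.C (nat_lit 0x42a20b1) (nat_lit 0x23dc6a9a111089b) (nat_lit 0x0)
  (PL.C (nat_lit 0x42b2864) (nat_lit 0x0) (nat_lit 0x6524f1b0066527)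
  (PL.C (nat_lit 0x42c6f2d) (nat_lit 0x0) (nat_lit 0x25d3f1d8f43678)
  (PL.C (nat_lit 0x42db7cb) (nat_lit 0x0) (nat_lit 0x166da9c2e764928) gp3_0_108))))))))))))))))))))

noncomputable def gp3_0_106 : PL :=
  (PL.C (nat_lit 0x4015d2a) (nat_lit 0x214443c3475303) (nat_lit 0x0)
  (PL.C (nat_lit 0x4074974) (nat_lit 0x0) (nat_lit 0x185988df103649)
  (PL.C (nat_lit 0x40ac9de) (nat_lit 0x13da045bb0d2ba5) (nat_lit 0x0)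
  (PL.C (nat_lit 0x40b3bba) (nat_lit 0x2162fc1f14408e) (nat_lit 0x0)
  (PL.C (nat_lit 0x40b7aba) (nat_lit 0xaa5d8623eef86c) (nat_lit 0x0)
  (PL.C (nat_lit 0x40dcccc) (nat_lit 0x0) (nat_lit 0x2a60e1bf9dc77)
  (PL.C (nat_lit 0x40e66db) (nat_lit 0x0) (nat_lit 0x1f8028ba5ed9c3)
  (PL.C (nat_lit 0x4120094) (nat_lit 0x1e907eae169de6) (nat_lit 0x0)
  (PL.C (nat_lit 0x41254d1) (nat_lit 0x6de3ffbd9ff33) (nat_lit 0x0)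
  (PL.C (nat_lit 0x4126f9c) (nat_lit 0x2d091f68052d33) (nat_lit 0x0)
  (PL.C (nat_lit 0x4127ac4) (nat_lit 0x2ccb0d014ded1) (nat_lit 0x0)
  (PL.C (nat_lit 0x412aed1) (nat_lit 0x0) (nat_lit 0xb0ac0c8afdc90a)
  (PL.C (nat_lit 0x413aed3) (nat_lit 0x0) (nat_lit 0x6f44216a0b92b3)
  (PL.C (nat_lit 0x41430a2) (nat_lit 0x0) (nat_lit 0x94258084795ba0)
  (PL.C (nat_lit 0x414773d) (nat_lit 0x0) (nat_lit 0x816e516e6946c9)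
  (PL.C (nat_lit 0x415b92d) (nat_lit 0xe20c4a71c8cd3) (nat_lit 0x0)
  (PL.C (nat_lit 0x4166cce) (nat_lit 0xdeeafb11465ce) (nat_lit 0x0)
  (PL.C (nat_lit 0x416bbd4) (nat_lit 0xfb84c96a926c50) (nat_lit 0x0)
  (PL.C (nat_lit 0x417d43d) (nat_lit 0x0) (nat_lit 0x7e3046b654143c)
  (PL.C (nat_lit 0x41acf12) (nat_lit 0x0) (nat_lit 0x3e970aaa25bd5f) gp3_0_107))))))))))))))))))))

noncomputable def gp3_0_105 : PL :=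
  (PL.C (nat_lit 0x3ead97c) (nat_lit 0x172353c265fadd) (nat_lit 0x0)
  (PL.C (nat_lit 0x3eb2e8d) (nat_lit 0x0) (nat_lit 0x17d443152ca4b75)
  (PL.C (nat_lit 0x3eb723a) (nat_lit 0xe59d6ca96fa8a4) (nat_lit 0x0)
  (PL.C (nat_lit 0x3ec52bd) (nat_lit 0x7b7e4fa2da116cf) (nat_lit 0x0)
  (PL.C (nat_lit 0x3ed6b3d) (nat_lit 0xf07796abfa3081) (nat_lit 0x0)
  (PL.C (nat_lit 0x3ee0926) (nat_lit 0x0) (nat_lit 0x815480034d936)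
  (PL.C (nat_lit 0x3efa666) (nat_lit 0x0) (nat_lit 0x52eb97285fb94)
  (PL.C (nat_lit 0x3f15b91) (nat_lit 0x0) (nat_lit 0x193b248b0e0b6b)
  (PL.C (nat_lit 0x3f34046) (nat_lit 0x3f4f72362b9ab) (nat_lit 0x0)
  (PL.C (nat_lit 0x3f3d14b) (nat_lit 0x0) (nat_lit 0x40f458e90a7cd77)
  (PL.C (nat_lit 0x3f570eb) (nat_lit 0x0) (nat_lit 0x21842d9be5e205)
  (PL.C (nat_lit 0x3f5dc5a) (nat_lit 0x26d0a37962cabc) (nat_lit 0x0)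
  (PL.C (nat_lit 0x3f6fbe6) (nat_lit 0x0) (nat_lit 0xb5e5c61f61cd9)
  (PL.C (nat_lit 0x3f82386) (nat_lit 0x45f9ee86ecc0c1) (nat_lit 0x0)
  (PL.C (nat_lit 0x3f8d132) (nat_lit 0x0) (nat_lit 0x9ce0253054d7c2)
  (PL.C (nat_lit 0x3fa872f) (nat_lit 0x804cb18c41e9bd) (nat_lit 0x0)
  (PL.C (nat_lit 0x3fb2b1c) (nat_lit 0x0) (nat_lit 0x5b2651e7de218a)
  (PL.C (nat_lit 0x3fb831c) (nat_lit 0x0) (nat_lit 0x297ddf2576d939)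
  (PL.C (nat_lit 0x3fe7c2c) (nat_lit 0x0) (nat_lit 0x66680b75b423bb)
  (PL.C (nat_lit 0x3fec191) (nat_lit 0x0) (nat_lit 0x2712df1cd38a8f1) gp3_0_106))))))))))))))))))))

noncomputable def gp3_0_104 : PL :=
  (PL.C (nat_lit 0x3d571e2) (nat_lit 0x12418611d36d55e) (nat_lit 0x0)
  (PL.C (nat_lit 0x3d6bada) (nat_lit 0x3f9683de4ed8ce) (nat_lit 0x0)
  (PL.C (nat_lit 0x3d72df7) (nat_lit 0x3a85d7b9c76748) (nat_lit 0x0)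
  (PL.C (nat_lit 0x3d91a09) (nat_lit 0x0) (nat_lit 0x9025f890b5b732)
  (PL.C (nat_lit 0x3daffcc) (nat_lit 0x1bfdd64790e4e6) (nat_lit 0x0)
  (PL.C (nat_lit 0x3dc60b5) (nat_lit 0x0) (nat_lit 0x13388db6274f082)
  (PL.C (nat_lit 0x3de8421) (nat_lit 0x0) (nat_lit 0xc1f2faa00257a)
  (PL.C (nat_lit 0x3df3042) (nat_lit 0x80e7f4c8c308f7c) (nat_lit 0x0)
  (PL.C (nat_lit 0x3dfeb97) (nat_lit 0x0) (nat_lit 0x1607c74675a456)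
  (PL.C (nat_lit 0x3e01b01) (nat_lit 0x27d93df0429fa5) (nat_lit 0x0)
  (PL.C (nat_lit 0x3e073df) (nat_lit 0x1d4c6cdd3c77fe4) (nat_lit 0x0)
  (PL.C (nat_lit 0x3e194ef) (nat_lit 0x0) (nat_lit 0x679af3a19edb4c)
  (PL.C (nat_lit 0x3e2aa6f) (nat_lit 0x0) (nat_lit 0x19217227fbeda)
  (PL.C (nat_lit 0x3e2bf12) (nat_lit 0x0) (nat_lit 0x3b2f287a461511)
  (PL.C (nat_lit 0x3e3e4e4) (nat_lit 0xf3bb4d2bda306) (nat_lit 0x0)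
  (PL.C (nat_lit 0x3e4b0ee) (nat_lit 0xd13b3ee54040b) (nat_lit 0x0)
  (PL.C (nat_lit 0x3e5730a) (nat_lit 0x34bbf3ed401fe9) (nat_lit 0x0)
  (PL.C (nat_lit 0x3e69c68) (nat_lit 0x3a0057cddc5af) (nat_lit 0x0)
  (PL.C (nat_lit 0x3e6f7f3) (nat_lit 0x0) (nat_lit 0x96d2ba0a9ea81f)
  (PL.C (nat_lit 0x3e93973) (nat_lit 0xd5080c838ac3af) (nat_lit 0x0) gp3_0_105))))))))))))))))))))

noncomputable def gp3_0_103 : PL :=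
  (PL.C (nat_lit 0x3bb1612) (nat_lit 0x0) (nat_lit 0x1dd3b33e94b02d9)
  (PL.C (nat_lit 0x3bd9c5d) (nat_lit 0x2a8e16a56cad4e) (nat_lit 0x0)
  (PL.C (nat_lit 0x3bddf0a) (nat_lit 0xd9fe7130908989) (nat_lit 0x0)
  (PL.C (nat_lit 0x3bde4ae) (nat_lit 0x22c84259e47cf) (nat_lit 0x0)
  (PL.C (nat_lit 0x3bf7ba3) (nat_lit 0x18bb3d2e9debf77) (nat_lit 0x0)
  (PL.C (nat_lit 0x3c154c4) (nat_lit 0x0) (nat_lit 0x6b10e457df2cc0)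
  (PL.C (nat_lit 0x3c1a914) (nat_lit 0x0) (nat_lit 0xd4011221a4396)
  (PL.C (nat_lit 0x3c45cdb) (nat_lit 0x169e88bb73538f) (nat_lit 0x0)
  (PL.C (nat_lit 0x3c56956) (nat_lit 0x14c678e786eab13) (nat_lit 0x0)
  (PL.C (nat_lit 0x3c63864) (nat_lit 0x475f2d40911d3c) (nat_lit 0x0)
  (PL.C (nat_lit 0x3c6d9f5) (nat_lit 0x270a03540cc3b2) (nat_lit 0x0)
  (PL.C (nat_lit 0x3c791df) (nat_lit 0x1906ecd636fdc1) (nat_lit 0x0)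
  (PL.C (nat_lit 0x3c923ec) (nat_lit 0x1e803bb4eea0bc) (nat_lit 0x0)
  (PL.C (nat_lit 0x3c97621) (nat_lit 0xec593f73cd2a29) (nat_lit 0x0)
  (PL.C (nat_lit 0x3ca5246) (nat_lit 0x0) (nat_lit 0x3f138ec2d04c20d)
  (PL.C (nat_lit 0x3cb9f91) (nat_lit 0x9efa0bfdc87d29) (nat_lit 0x0)
  (PL.C (nat_lit 0x3cc8fe4) (nat_lit 0x0) (nat_lit 0x31ef0cb3e7d1f3)
  (PL.C (nat_lit 0x3ccaa0d) (nat_lit 0x146d321588bff7) (nat_lit 0x0)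
  (PL.C (nat_lit 0x3d2345f) (nat_lit 0x0) (nat_lit 0x2b28329820ed873)
  (PL.C (nat_lit 0x3d36037) (nat_lit 0xc90fcb514b2c2) (nat_lit 0x0) gp3_0_104))))))))))))))))))))

noncomputable def gp3_0_102 : PL :=
  (PL.C (nat_lit 0x39f472e) (nat_lit 0x71bfcf2b844a3c) (nat_lit 0x0)
  (PL.C (nat_lit 0x3a23921) (nat_lit 0x0) (nat_lit 0xbfe07bf11206a8)
  (PL.C (nat_lit 0x3a277e2) (nat_lit 0x5159758af52ec6) (nat_lit 0x0)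
  (PL.C (nat_lit 0x3a34811) (nat_lit 0x0) (nat_lit 0xb6d7f02934ef16)
  (PL.C (nat_lit 0x3a4f5ee) (nat_lit 0xc96d240acad923) (nat_lit 0x0)
  (PL.C (nat_lit 0x3a66aeb) (nat_lit 0x0) (nat_lit 0x4911adff9d1b2a8)
  (PL.C (nat_lit 0x3a7d0d9) (nat_lit 0x38c76a4857eaee3) (nat_lit 0x0)
  (PL.C (nat_lit 0x3a9b49e) (nat_lit 0x3f9683de4ed8ce) (nat_lit 0x0)
  (PL.C (nat_lit 0x3aa3b17) (nat_lit 0x20ba814a1ef33b) (nat_lit 0x0)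
  (PL.C (nat_lit 0x3ad2abe) (nat_lit 0x0) (nat_lit 0x8287ff38b98d3)
  (PL.C (nat_lit 0x3ae3cde) (nat_lit 0x7a0bd8caa1e9e8) (nat_lit 0x0)
  (PL.C (nat_lit 0x3aeeeb4) (nat_lit 0x0) (nat_lit 0x290abef4d3daa9)
  (PL.C (nat_lit 0x3b0740b) (nat_lit 0x0) (nat_lit 0x5a60a4df90a2db)
  (PL.C (nat_lit 0x3b10c0c) (nat_lit 0x475f2d40911d3c) (nat_lit 0x0)
  (PL.C (nat_lit 0x3b2d34e) (nat_lit 0x8355dc74751fd6) (nat_lit 0x0)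
  (PL.C (nat_lit 0x3b45fb5) (nat_lit 0x1449e95bce44acc) (nat_lit 0x0)
  (PL.C (nat_lit 0x3b6081c) (nat_lit 0x1e803bb4eea0bc) (nat_lit 0x0)
  (PL.C (nat_lit 0x3b67a76) (nat_lit 0x0) (nat_lit 0x644acaaec097d1)
  (PL.C (nat_lit 0x3b70cac) (nat_lit 0x82d041695a9702) (nat_lit 0x0)
  (PL.C (nat_lit 0x3b8955d) (nat_lit 0x0) (nat_lit 0x5a60a4df90a2db) gp3_0_103))))))))))))))))))))

noncomputable def gp3_0_101 : PL :=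
  (PL.C (nat_lit 0x388827a) (nat_lit 0xfb9d152188b202) (nat_lit 0x0)
  (PL.C (nat_lit 0x389820f) (nat_lit 0x0) (nat_lit 0xff33625e50749)
  (PL.C (nat_lit 0x38a4536) (nat_lit 0x0) (nat_lit 0x11550fd2ee87b03)
  (PL.C (nat_lit 0x38ab193) (nat_lit 0x47bd0b2e311282) (nat_lit 0x0)
  (PL.C (nat_lit 0x38ad11e) (nat_lit 0x270111fb703613) (nat_lit 0x0)
  (PL.C (nat_lit 0x38b0ffb) (nat_lit 0x1786fa5a8b8b874) (nat_lit 0x0)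
  (PL.C (nat_lit 0x38c0aca) (nat_lit 0x0) (nat_lit 0x9532a06d2acf48)
  (PL.C (nat_lit 0x38e112a) (nat_lit 0x0) (nat_lit 0x3b2f287a461511)
  (PL.C (nat_lit 0x38e961c) (nat_lit 0x6fa08a740014495) (nat_lit 0x0)
  (PL.C (nat_lit 0x38f7218) (nat_lit 0x128f13d9cda49) (nat_lit 0x0)
  (PL.C (nat_lit 0x38facf3) (nat_lit 0x7c69d5af88aacc) (nat_lit 0x0)
  (PL.C (nat_lit 0x3919a48) (nat_lit 0x3a0057cddc5af) (nat_lit 0x0)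
  (PL.C (nat_lit 0x391d4bd) (nat_lit 0x0) (nat_lit 0x11ecb6f7afe70d4)
  (PL.C (nat_lit 0x3934c1d) (nat_lit 0x699f82db025797) (nat_lit 0x0)
  (PL.C (nat_lit 0x3941d4b) (nat_lit 0x25e54d7e19c932) (nat_lit 0x0)
  (PL.C (nat_lit 0x3947ee9) (nat_lit 0x0) (nat_lit 0x331d14c801e7ea9)
  (PL.C (nat_lit 0x3967a85) (nat_lit 0x0) (nat_lit 0xd464854c92bd4)
  (PL.C (nat_lit 0x396878e) (nat_lit 0x0) (nat_lit 0x7a7c232d8d169)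
  (PL.C (nat_lit 0x39dc292) (nat_lit 0xdeeafb11465ce) (nat_lit 0x0)
  (PL.C (nat_lit 0x39e10c6) (nat_lit 0xdf0c2432eb5398) (nat_lit 0x0) gp3_0_102))))))))))))))))))))

noncomputable def gp3_0_100 : PL :=
  (PL.C (nat_lit 0x375a01a) (nat_lit 0x150b23190b90b7f) (nat_lit 0x0)
  (PL.C (nat_lit 0x375b06d) (nat_lit 0x0) (nat_lit 0x117963907a83265)
  (PL.C (nat_lit 0x3784545) (nat_lit 0x7e37b86454297) (nat_lit 0x0)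
  (PL.C (nat_lit 0x379b3cf) (nat_lit 0x0) (nat_lit 0x2866ed91bda8d4b)
  (PL.C (nat_lit 0x37ca943) (nat_lit 0x12652b80084c843) (nat_lit 0x0)
  (PL.C (nat_lit 0x37d28ac) (nat_lit 0x0) (nat_lit 0x6524f1b0066527)
  (PL.C (nat_lit 0x37dbcf4) (nat_lit 0x0) (nat_lit 0x1e94e06f3eeaa3)
  (PL.C (nat_lit 0x37f2dfb) (nat_lit 0x0) (nat_lit 0x34588f9f6c0c)
  (PL.C (nat_lit 0x3800a09) (nat_lit 0x25e54d7e19c932) (nat_lit 0x0)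
  (PL.C (nat_lit 0x381337b) (nat_lit 0x0) (nat_lit 0x3d5ceb8640bafc)
  (PL.C (nat_lit 0x3815c79) (nat_lit 0xfd510056cf8fd5) (nat_lit 0x0)
  (PL.C (nat_lit 0x381a312) (nat_lit 0x0) (nat_lit 0xfe007522de3ba6)
  (PL.C (nat_lit 0x382f485) (nat_lit 0x47bd0b2e311282) (nat_lit 0x0)
  (PL.C (nat_lit 0x383824c) (nat_lit 0x0) (nat_lit 0xd4011221a4396)
  (PL.C (nat_lit 0x3842b62) (nat_lit 0x0) (nat_lit 0x56930783edc19a)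
  (PL.C (nat_lit 0x384d8f4) (nat_lit 0x0) (nat_lit 0x515721586df1f4)
  (PL.C (nat_lit 0x384f5b5) (nat_lit 0x0) (nat_lit 0x383ea7dbb3bcd)
  (PL.C (nat_lit 0x3870237) (nat_lit 0x1906ecd636fdc1) (nat_lit 0x0)
  (PL.C (nat_lit 0x387aaa8) (nat_lit 0x0) (nat_lit 0x2fe92fc51abf6)
  (PL.C (nat_lit 0x3885c1d) (nat_lit 0x0) (nat_lit 0x4479cebeb71f46) gp3_0_101))))))))))))))))))))

noncomputable def gp3_0_99 : PL :=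
  (PL.C (nat_lit 0x357db42) (nat_lit 0x174a8a8b6943cc) (nat_lit 0x0)
  (PL.C (nat_lit 0x358cdfe) (nat_lit 0x0) (nat_lit 0x2945041cfadc11)
  (PL.C (nat_lit 0x35a6e9a) (nat_lit 0x19855e27e0f128d) (nat_lit 0x0)
  (PL.C (nat_lit 0x35ab71e) (nat_lit 0x0) (nat_lit 0x48087ad8b15fa)
  (PL.C (nat_lit 0x35ca08c) (nat_lit 0x0) (nat_lit 0x297ddf2576d939)
  (PL.C (nat_lit 0x35f5d95) (nat_lit 0xfb9d6436cdf59c9) (nat_lit 0x0)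
  (PL.C (nat_lit 0x3611be6) (nat_lit 0x1bda1322d313043) (nat_lit 0x0)
  (PL.C (nat_lit 0x36239b6) (nat_lit 0x8355dc74751fd6) (nat_lit 0x0)
  (PL.C (nat_lit 0x365ceb9) (nat_lit 0x18802aa11f79e2c) (nat_lit 0x0)
  (PL.C (nat_lit 0x365ee64) (nat_lit 0x640c29cf1a82d9) (nat_lit 0x0)
  (PL.C (nat_lit 0x3661833) (nat_lit 0xa719b93544cbb) (nat_lit 0x0)
  (PL.C (nat_lit 0x36985d6) (nat_lit 0x0) (nat_lit 0x14d23b53a6fa180)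
  (PL.C (nat_lit 0x36a1b22) (nat_lit 0x0) (nat_lit 0x12089290c515856)
  (PL.C (nat_lit 0x36a5b04) (nat_lit 0x0) (nat_lit 0x3c9a9e6163b6a)
  (PL.C (nat_lit 0x36d6b7c) (nat_lit 0x640c29cf1a82d9) (nat_lit 0x0)
  (PL.C (nat_lit 0x36e782b) (nat_lit 0x0) (nat_lit 0x528e6260ed22ac)
  (PL.C (nat_lit 0x3702fd5) (nat_lit 0x0) (nat_lit 0x12d13bf5d491ba)
  (PL.C (nat_lit 0x371e1dc) (nat_lit 0x8adc5ef86ace96) (nat_lit 0x0)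
  (PL.C (nat_lit 0x3735886) (nat_lit 0x0) (nat_lit 0x6288978d31330c)
  (PL.C (nat_lit 0x37487f1) (nat_lit 0x0) (nat_lit 0x95d2b42547f878) gp3_0_100))))))))))))))))))))

noncomputable def gp3_0_98 : PL :=
  (PL.C (nat_lit 0x342338c) (nat_lit 0x0) (nat_lit 0xb1c7dec5b5109)
  (PL.C (nat_lit 0x3425849) (nat_lit 0x0) (nat_lit 0xed7964b6c1537)
  (PL.C (nat_lit 0x3442665) (nat_lit 0x0) (nat_lit 0xa2db4054f9e483)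
  (PL.C (nat_lit 0x3455bca) (nat_lit 0x0) (nat_lit 0x24aa932f279c9e)
  (PL.C (nat_lit 0x348ddd6) (nat_lit 0x0) (nat_lit 0x6827b0b7bbd408)
  (PL.C (nat_lit 0x34a00b2) (nat_lit 0x0) (nat_lit 0x8e87ec6ef1b56a)
  (PL.C (nat_lit 0x34b48ff) (nat_lit 0x45e6833b053705) (nat_lit 0x0)
  (PL.C (nat_lit 0x34ccd8a) (nat_lit 0x0) (nat_lit 0x3dfe70cd045d98)
  (PL.C (nat_lit 0x34d307f) (nat_lit 0x0) (nat_lit 0x43ab98fa067a4c7)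
  (PL.C (nat_lit 0x34ed781) (nat_lit 0x0) (nat_lit 0x40f458e90a7cd77)
  (PL.C (nat_lit 0x34f10a2) (nat_lit 0x97dbf6db1c8f50) (nat_lit 0x0)
  (PL.C (nat_lit 0x350baf1) (nat_lit 0x1137b4885e6f672) (nat_lit 0x0)
  (PL.C (nat_lit 0x351403e) (nat_lit 0x0) (nat_lit 0x22477122b20098)
  (PL.C (nat_lit 0x351d76d) (nat_lit 0x1f61a0774acee8e) (nat_lit 0x0)
  (PL.C (nat_lit 0x3527a7c) (nat_lit 0xd6b22ad35a77d) (nat_lit 0x0)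
  (PL.C (nat_lit 0x352c254) (nat_lit 0x12e4d334e961c1) (nat_lit 0x0)
  (PL.C (nat_lit 0x3537eeb) (nat_lit 0x0) (nat_lit 0x17bfeb94817724)
  (PL.C (nat_lit 0x3552915) (nat_lit 0x0) (nat_lit 0x1ee7e9ae14a8cc)
  (PL.C (nat_lit 0x35621b7) (nat_lit 0x0) (nat_lit 0x17d443152ca4b75)
  (PL.C (nat_lit 0x3572202) (nat_lit 0x102f8cc2dc14d05) (nat_lit 0x0) gp3_0_99))))))))))))))))))))

noncomputable def gp3_0_97 : PL :=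
  (PL.C (nat_lit 0x32f0d7c) (nat_lit 0x0) (nat_lit 0x2d4ddeaa3de44d)
  (PL.C (nat_lit 0x330c79b) (nat_lit 0x0) (nat_lit 0x166da9c2e764928)
  (PL.C (nat_lit 0x3326065) (nat_lit 0x9856418ab41b3c) (nat_lit 0x0)
  (PL.C (nat_lit 0x332ba54) (nat_lit 0x43ba81576a8e9e) (nat_lit 0x0)
  (PL.C (nat_lit 0x332e335) (nat_lit 0x34a4ea6735eb64) (nat_lit 0x0)
  (PL.C (nat_lit 0x332ffb2) (nat_lit 0x4623a7d7d56489) (nat_lit 0x0)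
  (PL.C (nat_lit 0x3343395) (nat_lit 0x2614dc48d7a2b6) (nat_lit 0x0)
  (PL.C (nat_lit 0x334ba3b) (nat_lit 0x1137b4885e6f672) (nat_lit 0x0)
  (PL.C (nat_lit 0x334fe74) (nat_lit 0x0) (nat_lit 0xaab015707d33fa)
  (PL.C (nat_lit 0x3354681) (nat_lit 0x1dfb28e7511702a) (nat_lit 0x0)
  (PL.C (nat_lit 0x33611a4) (nat_lit 0x0) (nat_lit 0x8ce74762877b6a)
  (PL.C (nat_lit 0x3372a02) (nat_lit 0x1f45fae4395cd2) (nat_lit 0x0)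
  (PL.C (nat_lit 0x33773be) (nat_lit 0x8c21dd1c54bc1) (nat_lit 0x0)
  (PL.C (nat_lit 0x3388ba4) (nat_lit 0x78a3eef290b734) (nat_lit 0x0)
  (PL.C (nat_lit 0x338ff2b) (nat_lit 0xf0684e934178d) (nat_lit 0x0)
  (PL.C (nat_lit 0x33d93c2) (nat_lit 0x1cdf83b7eb2a526) (nat_lit 0x0)
  (PL.C (nat_lit 0x33dde9c) (nat_lit 0x0) (nat_lit 0x958cabc16e1ac4)
  (PL.C (nat_lit 0x33e9c44) (nat_lit 0x1824c8d5a43dc7) (nat_lit 0x0)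
  (PL.C (nat_lit 0x33fdf92) (nat_lit 0x0) (nat_lit 0xd13303537ecac)
  (PL.C (nat_lit 0x340193d) (nat_lit 0x92d102b5e3b9d0) (nat_lit 0x0) gp3_0_98))))))))))))))))))))

noncomputable def gp3_0_96 : PL :=
  (PL.C (nat_lit 0x3171cc9) (nat_lit 0x0) (nat_lit 0x25d3f1d8f43678)
  (PL.C (nat_lit 0x318b499) (nat_lit 0x0) (nat_lit 0x2ae1b9984b1416)
  (PL.C (nat_lit 0x3192866) (nat_lit 0x80e7f4c8c308f7c) (nat_lit 0x0)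
  (PL.C (nat_lit 0x31d223e) (nat_lit 0x92091c7c7b9ba) (nat_lit 0x0)
  (PL.C (nat_lit 0x31dec2f) (nat_lit 0x626930ed3338f) (nat_lit 0x0)
  (PL.C (nat_lit 0x31e093c) (nat_lit 0x0) (nat_lit 0x7f31658177fb1)
  (PL.C (nat_lit 0x31fe052) (nat_lit 0xec64808235b1ff) (nat_lit 0x0)
  (PL.C (nat_lit 0x3209349) (nat_lit 0x0) (nat_lit 0x5bdd953a907d35b)
  (PL.C (nat_lit 0x321f98c) (nat_lit 0xae5549c7b8cf67) (nat_lit 0x0)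
  (PL.C (nat_lit 0x3227d34) (nat_lit 0x0) (nat_lit 0xe36c02bcfcfcc8)
  (PL.C (nat_lit 0x323065c) (nat_lit 0x0) (nat_lit 0x2ad418010203e4)
  (PL.C (nat_lit 0x32372f1) (nat_lit 0x0) (nat_lit 0x5ac8f35704ec2)
  (PL.C (nat_lit 0x3246042) (nat_lit 0x174a8a8b6943cc) (nat_lit 0x0)
  (PL.C (nat_lit 0x325050f) (nat_lit 0x0) (nat_lit 0x19217227fbeda)
  (PL.C (nat_lit 0x3263dda) (nat_lit 0x0) (nat_lit 0xfe007522de3ba6)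
  (PL.C (nat_lit 0x3268c7d) (nat_lit 0x7c69d5af88aacc) (nat_lit 0x0)
  (PL.C (nat_lit 0x326d09f) (nat_lit 0x0) (nat_lit 0xb7bd99f337040)
  (PL.C (nat_lit 0x329fe6e) (nat_lit 0x43b4e4b5ee4257) (nat_lit 0x0)
  (PL.C (nat_lit 0x32c68ac) (nat_lit 0x0) (nat_lit 0x4568b99c26777e)
  (PL.C (nat_lit 0x32ef52e) (nat_lit 0x1c410bfb4ab1ef8) (nat_lit 0x0) gp3_0_97))))))))))))))))))))

noncomputable def gp3_0_95 : PL :=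
  (PL.C (nat_lit 0x3035f9a) (nat_lit 0x3486439a9c8e2) (nat_lit 0x0)
  (PL.C (nat_lit 0x3036a71) (nat_lit 0x27fd387dcf223ff) (nat_lit 0x0)
  (PL.C (nat_lit 0x30487e2) (nat_lit 0x1c410bfb4ab1ef8) (nat_lit 0x0)
  (PL.C (nat_lit 0x304a751) (nat_lit 0xfa2a755078b2ea) (nat_lit 0x0)
  (PL.C (nat_lit 0x305883c) (nat_lit 0x8adc5ef86ace96) (nat_lit 0x0)
  (PL.C (nat_lit 0x305aa4d) (nat_lit 0x0) (nat_lit 0x331d14c801e7ea9)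
  (PL.C (nat_lit 0x30716fc) (nat_lit 0x0) (nat_lit 0x1e94e06f3eeaa3)
  (PL.C (nat_lit 0x30875b2) (nat_lit 0x0) (nat_lit 0x2389e11fd76aa40)
  (PL.C (nat_lit 0x309fa4e) (nat_lit 0x141b9176bdf3bb3) (nat_lit 0x0)
  (PL.C (nat_lit 0x30b703b) (nat_lit 0x0) (nat_lit 0x340f3ae7812fd2)
  (PL.C (nat_lit 0x30bb66e) (nat_lit 0x7a0bd8caa1e9e8) (nat_lit 0x0)
  (PL.C (nat_lit 0x30bc163) (nat_lit 0x264dea6987510f5) (nat_lit 0x0)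
  (PL.C (nat_lit 0x30c30e4) (nat_lit 0x0) (nat_lit 0x3c9a9e6163b6a)
  (PL.C (nat_lit 0x30d7c5a) (nat_lit 0x0) (nat_lit 0x2925d260fd9c8e7)
  (PL.C (nat_lit 0x30dbe5e) (nat_lit 0xd55359a9e39e6) (nat_lit 0x0)
  (PL.C (nat_lit 0x30ec466) (nat_lit 0xec82f59175101e) (nat_lit 0x0)
  (PL.C (nat_lit 0x30fb89b) (nat_lit 0x34754a236b8ee35) (nat_lit 0x0)
  (PL.C (nat_lit 0x310acc2) (nat_lit 0x6c31fe1bd759fc) (nat_lit 0x0)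
  (PL.C (nat_lit 0x3132164) (nat_lit 0x0) (nat_lit 0xaab015707d33fa)
  (PL.C (nat_lit 0x313dd61) (nat_lit 0x182d2b303f92155) (nat_lit 0x0) gp3_0_96))))))))))))))))))))

noncomputable def gp3_0_94 : PL :=
  (PL.C (nat_lit 0x2ee5c3a) (nat_lit 0xeee0d948900a2) (nat_lit 0x0)
  (PL.C (nat_lit 0x2ef501e) (nat_lit 0x0) (nat_lit 0x56930783edc19a)
  (PL.C (nat_lit 0x2efd3c6) (nat_lit 0x38ff10bf9bb352) (nat_lit 0x0)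
  (PL.C (nat_lit 0x2f18b8f) (nat_lit 0x0) (nat_lit 0x2e1e92dffd1d804)
  (PL.C (nat_lit 0x2f23b58) (nat_lit 0x0) (nat_lit 0x2fe92fc51abf6)
  (PL.C (nat_lit 0x2f3b026) (nat_lit 0x0) (nat_lit 0x8a2d6c243e32e1)
  (PL.C (nat_lit 0x2f560a7) (nat_lit 0x74bb6f34eee3d8) (nat_lit 0x0)
  (PL.C (nat_lit 0x2f5beda) (nat_lit 0x0) (nat_lit 0x1dd3b33e94b02d9)
  (PL.C (nat_lit 0x2f61bfc) (nat_lit 0x8556ee564aa826) (nat_lit 0x0)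
  (PL.C (nat_lit 0x2f909c7) (nat_lit 0x0) (nat_lit 0x3020652963f428)
  (PL.C (nat_lit 0x2f961c5) (nat_lit 0x5983605843558f) (nat_lit 0x0)
  (PL.C (nat_lit 0x2f9996a) (nat_lit 0x0) (nat_lit 0x22477122b20098)
  (PL.C (nat_lit 0x2fcca36) (nat_lit 0x619fe5405a859) (nat_lit 0x0)
  (PL.C (nat_lit 0x2fd088e) (nat_lit 0x0) (nat_lit 0x11550fd2ee87b03)
  (PL.C (nat_lit 0x2fe7f3e) (nat_lit 0x25d9260901eabe8) (nat_lit 0x0)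
  (PL.C (nat_lit 0x2fe8772) (nat_lit 0x0) (nat_lit 0x6ec22a09aabf23)
  (PL.C (nat_lit 0x30027c6) (nat_lit 0x0) (nat_lit 0x8e87ec6ef1b56a)
  (PL.C (nat_lit 0x3013e8a) (nat_lit 0x0) (nat_lit 0x8fc32c6bd75e18)
  (PL.C (nat_lit 0x301a83a) (nat_lit 0x0) (nat_lit 0x3bbd7151e73334)
  (PL.C (nat_lit 0x30289e3) (nat_lit 0x0) (nat_lit 0x528e6260ed22ac) gp3_0_95))))))))))))))))))))

noncomputable def gp3_0_93 : PL :=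
  (PL.C (nat_lit 0x2d9e274) (nat_lit 0x0) (nat_lit 0xc3e9034eac411)
  (PL.C (nat_lit 0x2da90c5) (nat_lit 0x0) (nat_lit 0x195ba6bb48766a9)
  (PL.C (nat_lit 0x2db5ab4) (nat_lit 0x3d69641a7db328) (nat_lit 0x0)
  (PL.C (nat_lit 0x2dbfcd3) (nat_lit 0x0) (nat_lit 0x194cfadb8c7ae1)
  (PL.C (nat_lit 0x2dd2cfc) (nat_lit 0x1a684672388871) (nat_lit 0x0)
  (PL.C (nat_lit 0x2dd6b2d) (nat_lit 0x0) (nat_lit 0xa2db4054f9e483)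
  (PL.C (nat_lit 0x2de45d4) (nat_lit 0x0) (nat_lit 0x21ec8ee855621)
  (PL.C (nat_lit 0x2df0ddd) (nat_lit 0x0) (nat_lit 0xbf786af50278)
  (PL.C (nat_lit 0x2df7503) (nat_lit 0x0) (nat_lit 0x383ea7dbb3bcd)
  (PL.C (nat_lit 0x2df793e) (nat_lit 0x0) (nat_lit 0x7758c4bbcdc88e1)
  (PL.C (nat_lit 0x2e02aec) (nat_lit 0x37255e88a3b0b) (nat_lit 0x0)
  (PL.C (nat_lit 0x2e163ae) (nat_lit 0x0) (nat_lit 0x171bcb166262b2e)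
  (PL.C (nat_lit 0x2e1f34a) (nat_lit 0x6df4b8b65a2357) (nat_lit 0x0)
  (PL.C (nat_lit 0x2e48c04) (nat_lit 0x53b9fbb7cde712) (nat_lit 0x0)
  (PL.C (nat_lit 0x2e4eb4b) (nat_lit 0x0) (nat_lit 0x595c85d685008)
  (PL.C (nat_lit 0x2e7a63c) (nat_lit 0x1477db14fc5bd6) (nat_lit 0x0)
  (PL.C (nat_lit 0x2eba8e1) (nat_lit 0x0) (nat_lit 0x36828e9aa22784)
  (PL.C (nat_lit 0x2ebbab1) (nat_lit 0x6b56a2377f7c7c) (nat_lit 0x0)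
  (PL.C (nat_lit 0x2ebcb68) (nat_lit 0x128f13d9cda49) (nat_lit 0x0)
  (PL.C (nat_lit 0x2ebf9db) (nat_lit 0x2cff20f657c073) (nat_lit 0x0) gp3_0_94))))))))))))))))))))

noncomputable def gp3_0_92 : PL :=
  (PL.C (nat_lit 0x2c4c7e8) (nat_lit 0x0) (nat_lit 0x52ec0c5dc93d)
  (PL.C (nat_lit 0x2c56506) (nat_lit 0x0) (nat_lit 0x27a739a50df8c2)
  (PL.C (nat_lit 0x2c674c2) (nat_lit 0x0) (nat_lit 0x228e27c89ded04)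
  (PL.C (nat_lit 0x2c6c076) (nat_lit 0x0) (nat_lit 0x2b6eab80845faae)
  (PL.C (nat_lit 0x2c7f29d) (nat_lit 0x116845a460eca2d) (nat_lit 0x0)
  (PL.C (nat_lit 0x2c84a1e) (nat_lit 0x0) (nat_lit 0x836ae7c037950d)
  (PL.C (nat_lit 0x2c92532) (nat_lit 0x0) (nat_lit 0x5b8cbd6e0fe503)
  (PL.C (nat_lit 0x2c978bb) (nat_lit 0x6b56a2377f7c7c) (nat_lit 0x0)
  (PL.C (nat_lit 0x2cb1e82) (nat_lit 0x0) (nat_lit 0x2945041cfadc11)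
  (PL.C (nat_lit 0x2cb5015) (nat_lit 0x0) (nat_lit 0x3f9be1eac1278f)
  (PL.C (nat_lit 0x2cf1d14) (nat_lit 0x1477db14fc5bd6) (nat_lit 0x0)
  (PL.C (nat_lit 0x2d165c6) (nat_lit 0x2db3c2b9ca6f62) (nat_lit 0x0)
  (PL.C (nat_lit 0x2d1dd8a) (nat_lit 0x82390775436b83) (nat_lit 0x0)
  (PL.C (nat_lit 0x2d2d9a6) (nat_lit 0x0) (nat_lit 0x171bcb166262b2e)
  (PL.C (nat_lit 0x2d4a682) (nat_lit 0x0) (nat_lit 0x2389e11fd76aa40)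
  (PL.C (nat_lit 0x2d5bc16) (nat_lit 0x0) (nat_lit 0x1d1ff7102798ea)
  (PL.C (nat_lit 0x2d5d6e1) (nat_lit 0x0) (nat_lit 0x8628bdbb70db7e)
  (PL.C (nat_lit 0x2d70f59) (nat_lit 0x0) (nat_lit 0xd5e49a7571bca)
  (PL.C (nat_lit 0x2d79b8a) (nat_lit 0x2db3c2b9ca6f62) (nat_lit 0x0)
  (PL.C (nat_lit 0x2d8d0a9) (nat_lit 0x0) (nat_lit 0x2712df1cd38a8f1) gp3_0_93))))))))))))))))))))

noncomputable def gp3_0_91 : PL :=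
  (PL.C (nat_lit 0x2b593e7) (nat_lit 0x0) (nat_lit 0x67a1cd2c01ef9)
  (PL.C (nat_lit 0x2b6e336) (nat_lit 0x21c3877b18e4df) (nat_lit 0x0)
  (PL.C (nat_lit 0x2b71f36) (nat_lit 0x28b7eb0e55335e) (nat_lit 0x0)
  (PL.C (nat_lit 0x2b7c9e2) (nat_lit 0x0) (nat_lit 0x8fc32c6bd75e18)
  (PL.C (nat_lit 0x2b8206c) (nat_lit 0x0) (nat_lit 0x51ea2ad78cdf4b)
  (PL.C (nat_lit 0x2b84f7e) (nat_lit 0x74fa50d6056a2) (nat_lit 0x0)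
  (PL.C (nat_lit 0x2b9261e) (nat_lit 0x0) (nat_lit 0x324b717289e44b)
  (PL.C (nat_lit 0x2ba8d7e) (nat_lit 0x0) (nat_lit 0xc016a70a85b308)
  (PL.C (nat_lit 0x2babdeb) (nat_lit 0x4f235278c7c4be) (nat_lit 0x0)
  (PL.C (nat_lit 0x2bc8a0c) (nat_lit 0x0) (nat_lit 0xe36c02bcfcfcc8)
  (PL.C (nat_lit 0x2bd74dc) (nat_lit 0x0) (nat_lit 0x219c30ffaca6164)
  (PL.C (nat_lit 0x2bea302) (nat_lit 0x1c99f7f9484600e) (nat_lit 0x0)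
  (PL.C (nat_lit 0x2bf2672) (nat_lit 0x0) (nat_lit 0x1ffa48fe12b3d4)
  (PL.C (nat_lit 0x2c0512d) (nat_lit 0x97693e44d361d9) (nat_lit 0x0)
  (PL.C (nat_lit 0x2c189a3) (nat_lit 0x8ca8fa4d8bf8e0) (nat_lit 0x0)
  (PL.C (nat_lit 0x2c1ce16) (nat_lit 0x0) (nat_lit 0x6ba9426e96c4e3)
  (PL.C (nat_lit 0x2c20239) (nat_lit 0x0) (nat_lit 0x7e711117ee9f37)
  (PL.C (nat_lit 0x2c235d2) (nat_lit 0x1626d83736bbea) (nat_lit 0x0)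
  (PL.C (nat_lit 0x2c2dc72) (nat_lit 0x0) (nat_lit 0x14cab4a9958f1e7)
  (PL.C (nat_lit 0x2c4af6e) (nat_lit 0x0) (nat_lit 0x19f6efa3408d89a) gp3_0_92))))))))))))))))))))

noncomputable def gp3_0_90 : PL :=
  (PL.C (nat_lit 0x29e0b09) (nat_lit 0x74bb6f34eee3d8) (nat_lit 0x0)
  (PL.C (nat_lit 0x29e477e) (nat_lit 0x1f523913483ee24) (nat_lit 0x0)
  (PL.C (nat_lit 0x29eb0c4) (nat_lit 0x310ded92b1bf11) (nat_lit 0x0)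
  (PL.C (nat_lit 0x29fc444) (nat_lit 0xe6ba693a5e92) (nat_lit 0x0)
  (PL.C (nat_lit 0x2a0e7b6) (nat_lit 0x2d8e7bcf2bb2d9) (nat_lit 0x0)
  (PL.C (nat_lit 0x2a3e83c) (nat_lit 0x14ba69f9c55f74) (nat_lit 0x0)
  (PL.C (nat_lit 0x2a56d04) (nat_lit 0x0) (nat_lit 0x958cabc16e1ac4)
  (PL.C (nat_lit 0x2a5e0cc) (nat_lit 0x0) (nat_lit 0x2ad418010203e4)
  (PL.C (nat_lit 0x2a63c75) (nat_lit 0x0) (nat_lit 0xbf786af50278)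
  (PL.C (nat_lit 0x2a704ca) (nat_lit 0x26d0a37962cabc) (nat_lit 0x0)
  (PL.C (nat_lit 0x2a81441) (nat_lit 0x5810ebec15542c) (nat_lit 0x0)
  (PL.C (nat_lit 0x2ac2af9) (nat_lit 0x4d67f7cb0a1699) (nat_lit 0x0)
  (PL.C (nat_lit 0x2adeef7) (nat_lit 0x72d2b2fe26091) (nat_lit 0x0)
  (PL.C (nat_lit 0x2b17d47) (nat_lit 0x16c91237232aaf) (nat_lit 0x0)
  (PL.C (nat_lit 0x2b2af29) (nat_lit 0x0) (nat_lit 0x1870ec8e05f8dd)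
  (PL.C (nat_lit 0x2b344c9) (nat_lit 0x514bd7aa0cabb1) (nat_lit 0x0)
  (PL.C (nat_lit 0x2b408d7) (nat_lit 0x12ba41f3338797) (nat_lit 0x0)
  (PL.C (nat_lit 0x2b44492) (nat_lit 0x1bda1322d313043) (nat_lit 0x0)
  (PL.C (nat_lit 0x2b4d267) (nat_lit 0xf07796abfa3081) (nat_lit 0x0)
  (PL.C (nat_lit 0x2b55955) (nat_lit 0x0) (nat_lit 0x1372c5de602d8c7) gp3_0_91))))))))))))))))))))

noncomputable def gp3_0_89 : PL :=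
  (PL.C (nat_lit 0x28f273c) (nat_lit 0x0) (nat_lit 0x2ba73b6543ece0)
  (PL.C (nat_lit 0x28f73fa) (nat_lit 0x19855e27e0f128d) (nat_lit 0x0)
  (PL.C (nat_lit 0x290bc06) (nat_lit 0x0) (nat_lit 0x12aed3f3204c101)
  (PL.C (nat_lit 0x2923c2f) (nat_lit 0xc18e14ecccf0f4c) (nat_lit 0x0)
  (PL.C (nat_lit 0x2942b71) (nat_lit 0x92d102b5e3b9d0) (nat_lit 0x0)
  (PL.C (nat_lit 0x2945816) (nat_lit 0x0) (nat_lit 0x716e6d4c640cff)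
  (PL.C (nat_lit 0x29547ba) (nat_lit 0x0) (nat_lit 0x6866f7e44dd77f)
  (PL.C (nat_lit 0x2956756) (nat_lit 0x330bfe81559fd4) (nat_lit 0x0)
  (PL.C (nat_lit 0x2957fc1) (nat_lit 0x45e6833b053705) (nat_lit 0x0)
  (PL.C (nat_lit 0x296634a) (nat_lit 0x0) (nat_lit 0x79e076a2ba5dd0)
  (PL.C (nat_lit 0x2971c4a) (nat_lit 0xda5598597c1f6) (nat_lit 0x0)
  (PL.C (nat_lit 0x2972a0c) (nat_lit 0x65fe250517b9d7) (nat_lit 0x0)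
  (PL.C (nat_lit 0x29875f4) (nat_lit 0x0) (nat_lit 0x31ef0cb3e7d1f3)
  (PL.C (nat_lit 0x298f75c) (nat_lit 0x6551db2e7cc074) (nat_lit 0x0)
  (PL.C (nat_lit 0x29914a5) (nat_lit 0x12a338842fc41e0) (nat_lit 0x0)
  (PL.C (nat_lit 0x299da47) (nat_lit 0xf0684e934178d) (nat_lit 0x0)
  (PL.C (nat_lit 0x299faa2) (nat_lit 0x0) (nat_lit 0xc3d90929f97aa8)
  (PL.C (nat_lit 0x29b7ba2) (nat_lit 0x0) (nat_lit 0x274e1ab5cb2093)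
  (PL.C (nat_lit 0x29d2abd) (nat_lit 0x839d11dd4c41ce) (nat_lit 0x0)
  (PL.C (nat_lit 0x29d8c7e) (nat_lit 0x0) (nat_lit 0x280894f02e09ea6) gp3_0_90))))))))))))))))))))

noncomputable def gp3_0_88 : PL :=
  (PL.C (nat_lit 0x2783c2b) (nat_lit 0x2127ee359fb8f7) (nat_lit 0x0)
  (PL.C (nat_lit 0x2783fce) (nat_lit 0x0) (nat_lit 0x17db37af8c4be7b)
  (PL.C (nat_lit 0x27b0e3e) (nat_lit 0x0) (nat_lit 0xca63a17364e554)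
  (PL.C (nat_lit 0x27c1c0b) (nat_lit 0x12652b80084c843) (nat_lit 0x0)
  (PL.C (nat_lit 0x27e683e) (nat_lit 0x0) (nat_lit 0x6ba9426e96c4e3)
  (PL.C (nat_lit 0x27e9874) (nat_lit 0x0) (nat_lit 0x7f31658177fb1)
  (PL.C (nat_lit 0x27fa7c2) (nat_lit 0xda3afc2d6ef2ac) (nat_lit 0x0)
  (PL.C (nat_lit 0x282b999) (nat_lit 0x5983605843558f) (nat_lit 0x0)
  (PL.C (nat_lit 0x282e892) (nat_lit 0x0) (nat_lit 0x815480034d936)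
  (PL.C (nat_lit 0x2842598) (nat_lit 0x1a60af9dde771a) (nat_lit 0x0)
  (PL.C (nat_lit 0x284914e) (nat_lit 0x5ab4d1a33bb206) (nat_lit 0x0)
  (PL.C (nat_lit 0x2850bea) (nat_lit 0x0) (nat_lit 0x301991658a1b90)
  (PL.C (nat_lit 0x286e184) (nat_lit 0x4ad1af3f46174a) (nat_lit 0x0)
  (PL.C (nat_lit 0x287bfb6) (nat_lit 0xec82f59175101e) (nat_lit 0x0)
  (PL.C (nat_lit 0x288715e) (nat_lit 0x34bbf3ed401fe9) (nat_lit 0x0)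
  (PL.C (nat_lit 0x28b31f5) (nat_lit 0x0) (nat_lit 0x1baf2224498a39)
  (PL.C (nat_lit 0x28c22ea) (nat_lit 0x14c678e786eab13) (nat_lit 0x0)
  (PL.C (nat_lit 0x28d1beb) (nat_lit 0x270a03540cc3b2) (nat_lit 0x0)
  (PL.C (nat_lit 0x28e39cf) (nat_lit 0x225b99df4e022d) (nat_lit 0x0)
  (PL.C (nat_lit 0x28e4bec) (nat_lit 0x2069c519936f7) (nat_lit 0x0) gp3_0_89))))))))))))))))))))

noncomputable def gp3_0_87 : PL :=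
  (PL.C (nat_lit 0x269e95f) (nat_lit 0x5813321c266b292) (nat_lit 0x0)
  (PL.C (nat_lit 0x26a2f74) (nat_lit 0x9e22fc494ebc75) (nat_lit 0x0)
  (PL.C (nat_lit 0x26a48c3) (nat_lit 0x0) (nat_lit 0x9122a5cc9aa690)
  (PL.C (nat_lit 0x26b1ea1) (nat_lit 0x0) (nat_lit 0xc1f2faa00257a)
  (PL.C (nat_lit 0x26c2616) (nat_lit 0x9f4f0648c0d992) (nat_lit 0x0)
  (PL.C (nat_lit 0x26c4fec) (nat_lit 0x0) (nat_lit 0xb8c69be77662e6)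
  (PL.C (nat_lit 0x26c8011) (nat_lit 0x0) (nat_lit 0x5ac8f35704ec2)
  (PL.C (nat_lit 0x26cdab6) (nat_lit 0x0) (nat_lit 0x7758c4bbcdc88e1)
  (PL.C (nat_lit 0x26d500d) (nat_lit 0x386106afff3148) (nat_lit 0x0)
  (PL.C (nat_lit 0x26ef1f2) (nat_lit 0x0) (nat_lit 0x2218e4c2225aed5)
  (PL.C (nat_lit 0x26ff799) (nat_lit 0x0) (nat_lit 0x9f25589a99567b)
  (PL.C (nat_lit 0x2712314) (nat_lit 0x0) (nat_lit 0x2ba73b6543ece0)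
  (PL.C (nat_lit 0x2717cba) (nat_lit 0xa9c8c137254052) (nat_lit 0x0)
  (PL.C (nat_lit 0x271ba41) (nat_lit 0x0) (nat_lit 0x6efb90b71ce67c)
  (PL.C (nat_lit 0x27371d4) (nat_lit 0xa390b1647000) (nat_lit 0x0)
  (PL.C (nat_lit 0x2742894) (nat_lit 0x3697ace620be1e) (nat_lit 0x0)
  (PL.C (nat_lit 0x275a2b2) (nat_lit 0x0) (nat_lit 0xca63a17364e554)
  (PL.C (nat_lit 0x2760808) (nat_lit 0x1a60af9dde771a) (nat_lit 0x0)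
  (PL.C (nat_lit 0x2773335) (nat_lit 0x0) (nat_lit 0x43ab98fa067a4c7)
  (PL.C (nat_lit 0x2776887) (nat_lit 0x2cff20f657c073) (nat_lit 0x0) gp3_0_88))))))))))))))))))))

noncomputable def gp3_0_86 : PL :=
  (PL.C (nat_lit 0x2574dae) (nat_lit 0x1db555e6f77935) (nat_lit 0x0)
  (PL.C (nat_lit 0x2581cec) (nat_lit 0x0) (nat_lit 0x3073856e09510e)
  (PL.C (nat_lit 0x258a3ce) (nat_lit 0x21294be19ae2d) (nat_lit 0x0)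
  (PL.C (nat_lit 0x25a017a) (nat_lit 0x0) (nat_lit 0x301991658a1b90)
  (PL.C (nat_lit 0x25bac0a) (nat_lit 0x0) (nat_lit 0xb5e5c61f61cd9)
  (PL.C (nat_lit 0x25c2e24) (nat_lit 0x8625abdfd4afcb) (nat_lit 0x0)
  (PL.C (nat_lit 0x25c7662) (nat_lit 0x1db555e6f77935) (nat_lit 0x0)
  (PL.C (nat_lit 0x25cb552) (nat_lit 0x5a57eff372bf7c4) (nat_lit 0x0)
  (PL.C (nat_lit 0x25eb61c) (nat_lit 0x65fe250517b9d7) (nat_lit 0x0)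
  (PL.C (nat_lit 0x25ed467) (nat_lit 0x0) (nat_lit 0x203fbd2b37a22a)
  (PL.C (nat_lit 0x25fc8a2) (nat_lit 0x1f77162da040c6f) (nat_lit 0x0)
  (PL.C (nat_lit 0x261387e) (nat_lit 0x0) (nat_lit 0x45493f51262c3a)
  (PL.C (nat_lit 0x26232be) (nat_lit 0x0) (nat_lit 0x14d23b53a6fa180)
  (PL.C (nat_lit 0x2625d0b) (nat_lit 0x1580a0f9518073c) (nat_lit 0x0)
  (PL.C (nat_lit 0x262be32) (nat_lit 0x4ac1667ceba569) (nat_lit 0x0)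
  (PL.C (nat_lit 0x262ff46) (nat_lit 0x0) (nat_lit 0x32e286deb0227c2)
  (PL.C (nat_lit 0x2640675) (nat_lit 0x0) (nat_lit 0x1baf2224498a39)
  (PL.C (nat_lit 0x26451ae) (nat_lit 0x0) (nat_lit 0x49ec3e6bde811a)
  (PL.C (nat_lit 0x265c07d) (nat_lit 0x0) (nat_lit 0x203fbd2b37a22a)
  (PL.C (nat_lit 0x2696084) (nat_lit 0x1515d575b4c35e5) (nat_lit 0x0) gp3_0_87))))))))))))))))))))

noncomputable def gp3_0_85 : PL :=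
  (PL.C (nat_lit 0x246e758) (nat_lit 0x13738589fc0553) (nat_lit 0x0)
  (PL.C (nat_lit 0x2470b8d) (nat_lit 0x0) (nat_lit 0xa23c9afdf378b7)
  (PL.C (nat_lit 0x2494b69) (nat_lit 0x3e28b49aa641387) (nat_lit 0x0)
  (PL.C (nat_lit 0x249a572) (nat_lit 0x101ed1d96ea699) (nat_lit 0x0)
  (PL.C (nat_lit 0x24aca8e) (nat_lit 0x8c21dd1c54bc1) (nat_lit 0x0)
  (PL.C (nat_lit 0x24bebe8) (nat_lit 0x3e731150978fb4) (nat_lit 0x0)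
  (PL.C (nat_lit 0x24daff6) (nat_lit 0x0) (nat_lit 0x96ca0346047168)
  (PL.C (nat_lit 0x24dd8d7) (nat_lit 0x0) (nat_lit 0xe3bcdc72202cdb)
  (PL.C (nat_lit 0x24e6abc) (nat_lit 0xb7e526008038d) (nat_lit 0x0)
  (PL.C (nat_lit 0x24e759e) (nat_lit 0x0) (nat_lit 0x12089290c515856)
  (PL.C (nat_lit 0x2502e2e) (nat_lit 0xc1fe37264b9f3) (nat_lit 0x0)
  (PL.C (nat_lit 0x250c599) (nat_lit 0x0) (nat_lit 0x34588f9f6c0c)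
  (PL.C (nat_lit 0x251228a) (nat_lit 0x0) (nat_lit 0x19f6efa3408d89a)
  (PL.C (nat_lit 0x2531b82) (nat_lit 0x0) (nat_lit 0xded099b90c86c)
  (PL.C (nat_lit 0x253956f) (nat_lit 0x0) (nat_lit 0x2f198c470b7109)
  (PL.C (nat_lit 0x254096d) (nat_lit 0x1e56efb268e3492) (nat_lit 0x0)
  (PL.C (nat_lit 0x254c952) (nat_lit 0x0) (nat_lit 0x16f6644076560)
  (PL.C (nat_lit 0x2555c06) (nat_lit 0x4ac1667ceba569) (nat_lit 0x0)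
  (PL.C (nat_lit 0x2562252) (nat_lit 0x857fd2e4dcdd6) (nat_lit 0x0)
  (PL.C (nat_lit 0x2563da6) (nat_lit 0x1c99f7f9484600e) (nat_lit 0x0) gp3_0_86))))))))))))))))))))

noncomputable def gp3_0_84 : PL :=
  (PL.C (nat_lit 0x2362ad4) (nat_lit 0x0) (nat_lit 0x21b53078665fcc)
  (PL.C (nat_lit 0x2368f9e) (nat_lit 0x1882aeadd0c1139) (nat_lit 0x0)
  (PL.C (nat_lit 0x2372c38) (nat_lit 0x0) (nat_lit 0x52ec0c5dc93d)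
  (PL.C (nat_lit 0x2372fb5) (nat_lit 0x6f73fb759fc9) (nat_lit 0x0)
  (PL.C (nat_lit 0x23783a9) (nat_lit 0xcb34c1732d129a) (nat_lit 0x0)
  (PL.C (nat_lit 0x237a9f2) (nat_lit 0x0) (nat_lit 0x27a739a50df8c2)
  (PL.C (nat_lit 0x238c60e) (nat_lit 0x0) (nat_lit 0x5af84cfa9548d0)
  (PL.C (nat_lit 0x23a12c3) (nat_lit 0x281df52f09d21b) (nat_lit 0x0)
  (PL.C (nat_lit 0x23a16ac) (nat_lit 0x0) (nat_lit 0x142a9ad2a5a72d)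
  (PL.C (nat_lit 0x23a922c) (nat_lit 0xf871811e6035c) (nat_lit 0x0)
  (PL.C (nat_lit 0x23aed21) (nat_lit 0x0) (nat_lit 0x4911adff9d1b2a8)
  (PL.C (nat_lit 0x23c49bc) (nat_lit 0x1de9af0d05a2252) (nat_lit 0x0)
  (PL.C (nat_lit 0x23c664f) (nat_lit 0x0) (nat_lit 0x224655859c4cac)
  (PL.C (nat_lit 0x23c7a14) (nat_lit 0x0) (nat_lit 0x54a47254d093d)
  (PL.C (nat_lit 0x23cf8fb) (nat_lit 0x0) (nat_lit 0x574f43ce45c7c3)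
  (PL.C (nat_lit 0x23d516f) (nat_lit 0x19b60b39eb5dc3) (nat_lit 0x0)
  (PL.C (nat_lit 0x2400081) (nat_lit 0x0) (nat_lit 0x14dffeb47f901c)
  (PL.C (nat_lit 0x240bd44) (nat_lit 0x0) (nat_lit 0x89ba3ffcc6d154)
  (PL.C (nat_lit 0x243df26) (nat_lit 0x0) (nat_lit 0x3f138ec2d04c20d)
  (PL.C (nat_lit 0x2441022) (nat_lit 0x0) (nat_lit 0x48087ad8b15fa) gp3_0_85))))))))))))))))))))

noncomputable def gp3_0_83 : PL :=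
  (PL.C (nat_lit 0x224c6ac) (nat_lit 0x1a684672388871) (nat_lit 0x0)
  (PL.C (nat_lit 0x224f7d4) (nat_lit 0x0) (nat_lit 0x14cfa63dae5a15)
  (PL.C (nat_lit 0x225ff72) (nat_lit 0xa02c6ec48cc808) (nat_lit 0x0)
  (PL.C (nat_lit 0x2290d2c) (nat_lit 0x53b9fbb7cde712) (nat_lit 0x0)
  (PL.C (nat_lit 0x22a950c) (nat_lit 0x0) (nat_lit 0x7b65c2a29b0d9)
  (PL.C (nat_lit 0x22abb7e) (nat_lit 0x233c044645ce4c1) (nat_lit 0x0)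
  (PL.C (nat_lit 0x22ba72b) (nat_lit 0x0) (nat_lit 0x9f25589a99567b)
  (PL.C (nat_lit 0x22c63a7) (nat_lit 0x0) (nat_lit 0x10adc8569d4aa5)
  (PL.C (nat_lit 0x22d6eee) (nat_lit 0x0) (nat_lit 0x190d2156ad6114)
  (PL.C (nat_lit 0x22e6885) (nat_lit 0x0) (nat_lit 0x96d2ba0a9ea81f)
  (PL.C (nat_lit 0x22f23b1) (nat_lit 0x0) (nat_lit 0xe3bcdc72202cdb)
  (PL.C (nat_lit 0x23093e4) (nat_lit 0x172353c265fadd) (nat_lit 0x0)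
  (PL.C (nat_lit 0x2313f8d) (nat_lit 0x7e37b86454297) (nat_lit 0x0)
  (PL.C (nat_lit 0x23155cc) (nat_lit 0x3d98fd75166ab3) (nat_lit 0x0)
  (PL.C (nat_lit 0x23171d3) (nat_lit 0x32fe30ee3ee844) (nat_lit 0x0)
  (PL.C (nat_lit 0x23230aa) (nat_lit 0x27090f3240f5ba) (nat_lit 0x0)
  (PL.C (nat_lit 0x2326797) (nat_lit 0x14afdb81b338f5) (nat_lit 0x0)
  (PL.C (nat_lit 0x23375aa) (nat_lit 0x0) (nat_lit 0x310d1ce8ca51505)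
  (PL.C (nat_lit 0x2359eed) (nat_lit 0x0) (nat_lit 0x3d5ceb8640bafc)
  (PL.C (nat_lit 0x235d1f6) (nat_lit 0x0) (nat_lit 0xebddf33866ccb) gp3_0_84))))))))))))))))))))

noncomputable def gp3_0_82 : PL :=
  (PL.C (nat_lit 0x214d4c9) (nat_lit 0xd5080c838ac3af) (nat_lit 0x0)
  (PL.C (nat_lit 0x215b786) (nat_lit 0x1848587e7acfaec) (nat_lit 0x0)
  (PL.C (nat_lit 0x2161c65) (nat_lit 0x3a24977ffdd039) (nat_lit 0x0)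
  (PL.C (nat_lit 0x217016d) (nat_lit 0x0) (nat_lit 0xbfe07bf11206a8)
  (PL.C (nat_lit 0x217a1f6) (nat_lit 0x608b899939c066) (nat_lit 0x0)
  (PL.C (nat_lit 0x218402c) (nat_lit 0xf871811e6035c) (nat_lit 0x0)
  (PL.C (nat_lit 0x218ae0a) (nat_lit 0xda5598597c1f6) (nat_lit 0x0)
  (PL.C (nat_lit 0x219b2fe) (nat_lit 0x1f77162da040c6f) (nat_lit 0x0)
  (PL.C (nat_lit 0x219e06a) (nat_lit 0x0) (nat_lit 0x102dd10e6b1f00)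
  (PL.C (nat_lit 0x219e7f9) (nat_lit 0x1258b23b421e76e) (nat_lit 0x0)
  (PL.C (nat_lit 0x21bfef4) (nat_lit 0x268a3ee9893d44) (nat_lit 0x0)
  (PL.C (nat_lit 0x21cca17) (nat_lit 0x0) (nat_lit 0x5bdd953a907d35b)
  (PL.C (nat_lit 0x21f8013) (nat_lit 0x0) (nat_lit 0x3ff0bf21f4dc89)
  (PL.C (nat_lit 0x2208512) (nat_lit 0x0) (nat_lit 0x5b8cbd6e0fe503)
  (PL.C (nat_lit 0x221ecce) (nat_lit 0x5522639971020e) (nat_lit 0x0)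
  (PL.C (nat_lit 0x221ffcc) (nat_lit 0x78a3eef290b734) (nat_lit 0x0)
  (PL.C (nat_lit 0x222cd0e) (nat_lit 0x71bfcf2b844a3c) (nat_lit 0x0)
  (PL.C (nat_lit 0x22326d2) (nat_lit 0x0) (nat_lit 0xebddf33866ccb)
  (PL.C (nat_lit 0x2238456) (nat_lit 0x320eaaec55a401a) (nat_lit 0x0)
  (PL.C (nat_lit 0x224702d) (nat_lit 0x514bd7aa0cabb1) (nat_lit 0x0) gp3_0_83))))))))))))))))))))

noncomputable def gp3_0_81 : PL :=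
  (PL.C (nat_lit 0x20745b1) (nat_lit 0x72d2b2fe26091) (nat_lit 0x0)
  (PL.C (nat_lit 0x207cef4) (nat_lit 0x3697ace620be1e) (nat_lit 0x0)
  (PL.C (nat_lit 0x207d642) (nat_lit 0x118602321bd9522) (nat_lit 0x0)
  (PL.C (nat_lit 0x2082098) (nat_lit 0x13738589fc0553) (nat_lit 0x0)
  (PL.C (nat_lit 0x2086e21) (nat_lit 0x0) (nat_lit 0x10adc8569d4aa5)
  (PL.C (nat_lit 0x2089cbf) (nat_lit 0x35e7bd62425dcb) (nat_lit 0x0)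
  (PL.C (nat_lit 0x2092994) (nat_lit 0x3d69641a7db328) (nat_lit 0x0)
  (PL.C (nat_lit 0x2099d1b) (nat_lit 0x0) (nat_lit 0x194cfadb8c7ae1)
  (PL.C (nat_lit 0x209d844) (nat_lit 0x149003e0a7f6265) (nat_lit 0x0)
  (PL.C (nat_lit 0x20a7b12) (nat_lit 0x1c3205411a6880c) (nat_lit 0x0)
  (PL.C (nat_lit 0x20a9c93) (nat_lit 0x0) (nat_lit 0x1aa827c7d368eee)
  (PL.C (nat_lit 0x20bbe07) (nat_lit 0x5810ebec15542c) (nat_lit 0x0)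
  (PL.C (nat_lit 0x20eb9bd) (nat_lit 0xc18e14ecccf0f4c) (nat_lit 0x0)
  (PL.C (nat_lit 0x20f6886) (nat_lit 0x0) (nat_lit 0x836ae7c037950d)
  (PL.C (nat_lit 0x2107866) (nat_lit 0x82390775436b83) (nat_lit 0x0)
  (PL.C (nat_lit 0x2116785) (nat_lit 0x3e28b49aa641387) (nat_lit 0x0)
  (PL.C (nat_lit 0x212707b) (nat_lit 0x20ba814a1ef33b) (nat_lit 0x0)
  (PL.C (nat_lit 0x2139f4b) (nat_lit 0x0) (nat_lit 0x3020652963f428)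
  (PL.C (nat_lit 0x213f2ca) (nat_lit 0x1626d83736bbea) (nat_lit 0x0)
  (PL.C (nat_lit 0x2140628) (nat_lit 0x0) (nat_lit 0x218edb40766e3) gp3_0_82))))))))))))))))))))

noncomputable def gp3_0_80 : PL :=
  (PL.C (nat_lit 0x1fbbb9c) (nat_lit 0x0) (nat_lit 0x21b53078665fcc)
  (PL.C (nat_lit 0x1fc8d41) (nat_lit 0x0) (nat_lit 0xa237a35881959)
  (PL.C (nat_lit 0x1fddc24) (nat_lit 0x37255e88a3b0b) (nat_lit 0x0)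
  (PL.C (nat_lit 0x1fe05b4) (nat_lit 0x8625abdfd4afcb) (nat_lit 0x0)
  (PL.C (nat_lit 0x1ff9bf9) (nat_lit 0x0) (nat_lit 0x1607c74675a456)
  (PL.C (nat_lit 0x2001a84) (nat_lit 0x3d98fd75166ab3) (nat_lit 0x0)
  (PL.C (nat_lit 0x2004243) (nat_lit 0x0) (nat_lit 0xd5e49a7571bca)
  (PL.C (nat_lit 0x2009c07) (nat_lit 0x0) (nat_lit 0x26908a6c24253e)
  (PL.C (nat_lit 0x200d45c) (nat_lit 0x0) (nat_lit 0xc924f7a4b319e1)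
  (PL.C (nat_lit 0x200edf7) (nat_lit 0x0) (nat_lit 0x9a509bf02c14a)
  (PL.C (nat_lit 0x201b142) (nat_lit 0x101ed1d96ea699) (nat_lit 0x0)
  (PL.C (nat_lit 0x2023fbc) (nat_lit 0x0) (nat_lit 0xc3e9034eac411)
  (PL.C (nat_lit 0x20246f6) (nat_lit 0x1bc693cb811aad5) (nat_lit 0x0)
  (PL.C (nat_lit 0x2031a36) (nat_lit 0x13da045bb0d2ba5) (nat_lit 0x0)
  (PL.C (nat_lit 0x203a2f7) (nat_lit 0x0) (nat_lit 0x130714eed6c9926)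
  (PL.C (nat_lit 0x203b028) (nat_lit 0x3e731150978fb4) (nat_lit 0x0)
  (PL.C (nat_lit 0x203c6de) (nat_lit 0x0) (nat_lit 0x32e286deb0227c2)
  (PL.C (nat_lit 0x204a509) (nat_lit 0x27fd387dcf223ff) (nat_lit 0x0)
  (PL.C (nat_lit 0x205a3cc) (nat_lit 0x0) (nat_lit 0x150668540841617)
  (PL.C (nat_lit 0x205cbf9) (nat_lit 0x0) (nat_lit 0x6efb90b71ce67c) gp3_0_81))))))))))))))))))))

noncomputable def gp3_0_79 : PL :=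
  (PL.C (nat_lit 0x1ea093e) (nat_lit 0x6d5ebf2e7e0374) (nat_lit 0x0)
  (PL.C (nat_lit 0x1ea4e02) (nat_lit 0x21294be19ae2d) (nat_lit 0x0)
  (PL.C (nat_lit 0x1ea50d4) (nat_lit 0x0) (nat_lit 0x1f427aad1b93db)
  (PL.C (nat_lit 0x1eac748) (nat_lit 0x44f803e3fb44) (nat_lit 0x0)
  (PL.C (nat_lit 0x1eae6f9) (nat_lit 0x0) (nat_lit 0x179736d368d5e6a)
  (PL.C (nat_lit 0x1ec1017) (nat_lit 0x0) (nat_lit 0x1a7484abcac822f)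
  (PL.C (nat_lit 0x1ecda37) (nat_lit 0x0) (nat_lit 0x2f198c470b7109)
  (PL.C (nat_lit 0x1edf232) (nat_lit 0xa97ec273e31ce) (nat_lit 0x0)
  (PL.C (nat_lit 0x1efc428) (nat_lit 0x0) (nat_lit 0x53452dc9ff9bc)
  (PL.C (nat_lit 0x1f27096) (nat_lit 0xaa5d8623eef86c) (nat_lit 0x0)
  (PL.C (nat_lit 0x1f27c76) (nat_lit 0x336b04b015b13db) (nat_lit 0x0)
  (PL.C (nat_lit 0x1f2a692) (nat_lit 0x0) (nat_lit 0x22a2fdd87a426c)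
  (PL.C (nat_lit 0x1f43d7c) (nat_lit 0x43ba81576a8e9e) (nat_lit 0x0)
  (PL.C (nat_lit 0x1f4e014) (nat_lit 0x0) (nat_lit 0x3073856e09510e)
  (PL.C (nat_lit 0x1f57593) (nat_lit 0x806e7120dd8860f) (nat_lit 0x0)
  (PL.C (nat_lit 0x1f65d0a) (nat_lit 0x1be2468c60e0a36) (nat_lit 0x0)
  (PL.C (nat_lit 0x1f725e1) (nat_lit 0xe26757823c716c) (nat_lit 0x0)
  (PL.C (nat_lit 0x1f7cac4) (nat_lit 0x0) (nat_lit 0x1fb5c03ce53064d)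
  (PL.C (nat_lit 0x1f8eb1a) (nat_lit 0xd4d5e47963715f) (nat_lit 0x0)
  (PL.C (nat_lit 0x1fb5bda) (nat_lit 0x3393b070c2155e) (nat_lit 0x0) gp3_0_80))))))))))))))))))))

noncomputable def gp3_0_78 : PL :=
  (PL.C (nat_lit 0x1e0a9e9) (nat_lit 0x71b2b5ae21f45d) (nat_lit 0x0)
  (PL.C (nat_lit 0x1e0ee84) (nat_lit 0x4f310c5b1194bb) (nat_lit 0x0)
  (PL.C (nat_lit 0x1e13b0f) (nat_lit 0x0) (nat_lit 0x130714eed6c9926)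
  (PL.C (nat_lit 0x1e13e5c) (nat_lit 0xbf12a4d1045d8) (nat_lit 0x0)
  (PL.C (nat_lit 0x1e1f365) (nat_lit 0x13258fa8bd5c0e1) (nat_lit 0x0)
  (PL.C (nat_lit 0x1e20511) (nat_lit 0x0) (nat_lit 0xe0b82c83a5b9a)
  (PL.C (nat_lit 0x1e319ac) (nat_lit 0x0) (nat_lit 0x150668540841617)
  (PL.C (nat_lit 0x1e331cb) (nat_lit 0x0) (nat_lit 0xfe37dd402be43)
  (PL.C (nat_lit 0x1e3e496) (nat_lit 0x0) (nat_lit 0x8a2d6c243e32e1)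
  (PL.C (nat_lit 0x1e49a7f) (nat_lit 0x1f61a0774acee8e) (nat_lit 0x0)
  (PL.C (nat_lit 0x1e4b4e6) (nat_lit 0x0) (nat_lit 0xe85e66431a5285)
  (PL.C (nat_lit 0x1e5125c) (nat_lit 0x4f310c5b1194bb) (nat_lit 0x0)
  (PL.C (nat_lit 0x1e63c45) (nat_lit 0x0) (nat_lit 0x2576f29bc872d5)
  (PL.C (nat_lit 0x1e696f8) (nat_lit 0x37a4133e531f8) (nat_lit 0x0)
  (PL.C (nat_lit 0x1e70b2e) (nat_lit 0x0) (nat_lit 0x2ad68d2b1d4371)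
  (PL.C (nat_lit 0x1e794cd) (nat_lit 0x12ba41f3338797) (nat_lit 0x0)
  (PL.C (nat_lit 0x1e7fde2) (nat_lit 0x0) (nat_lit 0x3261dd9ddc00e6)
  (PL.C (nat_lit 0x1e86b11) (nat_lit 0x0) (nat_lit 0x4a695408bacd879)
  (PL.C (nat_lit 0x1e8c8a8) (nat_lit 0x0) (nat_lit 0xc171b9551b264)
  (PL.C (nat_lit 0x1e8f21e) (nat_lit 0x0) (nat_lit 0x190d2156ad6114) gp3_0_79))))))))))))))))))))

noncomputable def gp3_0_77 : PL :=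
  (PL.C (nat_lit 0x1d68964) (nat_lit 0x12fea822e65c73d) (nat_lit 0x0)
  (PL.C (nat_lit 0x1d6ac26) (nat_lit 0x0) (nat_lit 0x4503d18076351c)
  (PL.C (nat_lit 0x1d6ce8c) (nat_lit 0x12590c4c3a6c06) (nat_lit 0x0)
  (PL.C (nat_lit 0x1d80035) (nat_lit 0x4f235278c7c4be) (nat_lit 0x0)
  (PL.C (nat_lit 0x1d874f4) (nat_lit 0x0) (nat_lit 0x23e3f822e27a42a)
  (PL.C (nat_lit 0x1d8ee04) (nat_lit 0x60ee8853580103) (nat_lit 0x0)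
  (PL.C (nat_lit 0x1d905a1) (nat_lit 0x0) (nat_lit 0xc5b19c6065468f)
  (PL.C (nat_lit 0x1d9a32c) (nat_lit 0x0) (nat_lit 0x4568b99c26777e)
  (PL.C (nat_lit 0x1d9d5a4) (nat_lit 0x0) (nat_lit 0x219c30ffaca6164)
  (PL.C (nat_lit 0x1d9f25f) (nat_lit 0x32fe30ee3ee844) (nat_lit 0x0)
  (PL.C (nat_lit 0x1da66bd) (nat_lit 0x386106afff3148) (nat_lit 0x0)
  (PL.C (nat_lit 0x1daa1be) (nat_lit 0x150b23190b90b7f) (nat_lit 0x0)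
  (PL.C (nat_lit 0x1dadc14) (nat_lit 0x1a9daaeb8ddb) (nat_lit 0x0)
  (PL.C (nat_lit 0x1db00ef) (nat_lit 0x0) (nat_lit 0x27e3481ee86dc2)
  (PL.C (nat_lit 0x1dba5d2) (nat_lit 0x336b04b015b13db) (nat_lit 0x0)
  (PL.C (nat_lit 0x1dc4933) (nat_lit 0x0) (nat_lit 0x193b248b0e0b6b)
  (PL.C (nat_lit 0x1dce00e) (nat_lit 0x0) (nat_lit 0x80b1068c1a0d8b)
  (PL.C (nat_lit 0x1de4caf) (nat_lit 0x0) (nat_lit 0x40f9fea3d1809)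
  (PL.C (nat_lit 0x1df120d) (nat_lit 0x0) (nat_lit 0xfe37dd402be43)
  (PL.C (nat_lit 0x1df68b8) (nat_lit 0x0) (nat_lit 0x53452dc9ff9bc) gp3_0_78))))))))))))))))))))

noncomputable def gp3_0_76 : PL :=
  (PL.C (nat_lit 0x1c949fa) (nat_lit 0x0) (nat_lit 0x214aa7214f035a)
  (PL.C (nat_lit 0x1cba8da) (nat_lit 0x0) (nat_lit 0x3dfe70cd045d98)
  (PL.C (nat_lit 0x1cbeac5) (nat_lit 0x1079d62202380) (nat_lit 0x0)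
  (PL.C (nat_lit 0x1cc74c6) (nat_lit 0x1db0fb36cce00) (nat_lit 0x0)
  (PL.C (nat_lit 0x1ccd886) (nat_lit 0xb5d27cb6dd045e) (nat_lit 0x0)
  (PL.C (nat_lit 0x1cd5b3a) (nat_lit 0x0) (nat_lit 0x3a46eead6ded40)
  (PL.C (nat_lit 0x1cd830c) (nat_lit 0x0) (nat_lit 0x89ba3ffcc6d154)
  (PL.C (nat_lit 0x1cde19a) (nat_lit 0x1f523913483ee24) (nat_lit 0x0)
  (PL.C (nat_lit 0x1ce3b8e) (nat_lit 0x405e366ecf8c2b) (nat_lit 0x0)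
  (PL.C (nat_lit 0x1ce629a) (nat_lit 0x0) (nat_lit 0x28d4647df32177)
  (PL.C (nat_lit 0x1cef7a1) (nat_lit 0x34a4ea6735eb64) (nat_lit 0x0)
  (PL.C (nat_lit 0x1cf4224) (nat_lit 0x1824c8d5a43dc7) (nat_lit 0x0)
  (PL.C (nat_lit 0x1cf6a24) (nat_lit 0x1c2e4c52f632e6) (nat_lit 0x0)
  (PL.C (nat_lit 0x1cfdbec) (nat_lit 0x0) (nat_lit 0xc924f7a4b319e1)
  (PL.C (nat_lit 0x1d0c414) (nat_lit 0x0) (nat_lit 0x8ce74762877b6a)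
  (PL.C (nat_lit 0x1d0e39f) (nat_lit 0x30dccd22768eab2) (nat_lit 0x0)
  (PL.C (nat_lit 0x1d1d3f2) (nat_lit 0x2329af937db8258) (nat_lit 0x0)
  (PL.C (nat_lit 0x1d46cac) (nat_lit 0x19c7993e2729647) (nat_lit 0x0)
  (PL.C (nat_lit 0x1d4c44c) (nat_lit 0x0) (nat_lit 0x2d4ddeaa3de44d)
  (PL.C (nat_lit 0x1d65bc2) (nat_lit 0x3b3f1436a32939) (nat_lit 0x0) gp3_0_77))))))))))))))))))))

noncomputable def gp3_0_75 : PL :=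
  (PL.C (nat_lit 0x1bc3aa1) (nat_lit 0x0) (nat_lit 0x10e43194f162a13)
  (PL.C (nat_lit 0x1bca371) (nat_lit 0x264dea6987510f5) (nat_lit 0x0)
  (PL.C (nat_lit 0x1be1c7e) (nat_lit 0x102f8cc2dc14d05) (nat_lit 0x0)
  (PL.C (nat_lit 0x1be3b6b) (nat_lit 0x0) (nat_lit 0x3935ca52d4e4bd)
  (PL.C (nat_lit 0x1beb206) (nat_lit 0xd4d5e47963715f) (nat_lit 0x0)
  (PL.C (nat_lit 0x1beda54) (nat_lit 0x0) (nat_lit 0x48a757a31a407)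
  (PL.C (nat_lit 0x1bee659) (nat_lit 0x0) (nat_lit 0x1372c5de602d8c7)
  (PL.C (nat_lit 0x1c00d97) (nat_lit 0x0) (nat_lit 0x250311f47a96906)
  (PL.C (nat_lit 0x1c1433b) (nat_lit 0x12a338842fc41e0) (nat_lit 0x0)
  (PL.C (nat_lit 0x1c23c0f) (nat_lit 0x2166590c9e0627) (nat_lit 0x0)
  (PL.C (nat_lit 0x1c4284e) (nat_lit 0x6d5ebf2e7e0374) (nat_lit 0x0)
  (PL.C (nat_lit 0x1c4addc) (nat_lit 0x14ba69f9c55f74) (nat_lit 0x0)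
  (PL.C (nat_lit 0x1c562d6) (nat_lit 0x0) (nat_lit 0xbb601b700278ff)
  (PL.C (nat_lit 0x1c6139d) (nat_lit 0xb3b2182faec216) (nat_lit 0x0)
  (PL.C (nat_lit 0x1c71a1d) (nat_lit 0x745dc2c49e51f3) (nat_lit 0x0)
  (PL.C (nat_lit 0x1c76943) (nat_lit 0x0) (nat_lit 0x27e3481ee86dc2)
  (PL.C (nat_lit 0x1c7fde3) (nat_lit 0x1079d62202380) (nat_lit 0x0)
  (PL.C (nat_lit 0x1c81ca6) (nat_lit 0xec64808235b1ff) (nat_lit 0x0)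
  (PL.C (nat_lit 0x1c882b3) (nat_lit 0x1449e95bce44acc) (nat_lit 0x0)
  (PL.C (nat_lit 0x1c90233) (nat_lit 0x0) (nat_lit 0x9e63ec895b3433) gp3_0_76))))))))))))))))))))

noncomputable def gp3_0_74 : PL :=
  (PL.C (nat_lit 0x1b0fe13) (nat_lit 0x0) (nat_lit 0xa237a35881959)
  (PL.C (nat_lit 0x1b2214e) (nat_lit 0x0) (nat_lit 0xd9f2044b0fda84)
  (PL.C (nat_lit 0x1b34713) (nat_lit 0x281df52f09d21b) (nat_lit 0x0)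
  (PL.C (nat_lit 0x1b367f2) (nat_lit 0x5ab4d1a33bb206) (nat_lit 0x0)
  (PL.C (nat_lit 0x1b420ed) (nat_lit 0x0) (nat_lit 0x11ecb6f7afe70d4)
  (PL.C (nat_lit 0x1b4268a) (nat_lit 0x466c612f945111) (nat_lit 0x0)
  (PL.C (nat_lit 0x1b4f7fc) (nat_lit 0x1de9af0d05a2252) (nat_lit 0x0)
  (PL.C (nat_lit 0x1b5ac69) (nat_lit 0x0) (nat_lit 0x15ab560a416012)
  (PL.C (nat_lit 0x1b6d2ca) (nat_lit 0x0) (nat_lit 0x4119dd1b48c62f5)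
  (PL.C (nat_lit 0x1b7cdf1) (nat_lit 0x0) (nat_lit 0x2576f29bc872d5)
  (PL.C (nat_lit 0x1b81cf6) (nat_lit 0x233c044645ce4c1) (nat_lit 0x0)
  (PL.C (nat_lit 0x1b8aa0f) (nat_lit 0x0) (nat_lit 0x340f3ae7812fd2)
  (PL.C (nat_lit 0x1b8da7c) (nat_lit 0x0) (nat_lit 0xfa88140c3d6b1)
  (PL.C (nat_lit 0x1b8f07f) (nat_lit 0x0) (nat_lit 0xe56183e6c90b6)
  (PL.C (nat_lit 0x1b8ffd6) (nat_lit 0x27090f3240f5ba) (nat_lit 0x0)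
  (PL.C (nat_lit 0x1b9a59f) (nat_lit 0x2127ee359fb8f7) (nat_lit 0x0)
  (PL.C (nat_lit 0x1ba12dc) (nat_lit 0x215339548a68b6) (nat_lit 0x0)
  (PL.C (nat_lit 0x1ba1c08) (nat_lit 0x0) (nat_lit 0x9fc8c6f1909c5)
  (PL.C (nat_lit 0x1bbe6da) (nat_lit 0xa02c6ec48cc808) (nat_lit 0x0)
  (PL.C (nat_lit 0x1bbfc6c) (nat_lit 0x0) (nat_lit 0x70c35e5f072bbc) gp3_0_75))))))))))))))))))))

noncomputable def gp3_0_73 : PL :=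
  (PL.C (nat_lit 0x1a00b53) (nat_lit 0x8ca8fa4d8bf8e0) (nat_lit 0x0)
  (PL.C (nat_lit 0x1a096c7) (nat_lit 0x0) (nat_lit 0xc186fc83095e32)
  (PL.C (nat_lit 0x1a126d6) (nat_lit 0x0) (nat_lit 0x28c8b6decc58b57)
  (PL.C (nat_lit 0x1a2c5b8) (nat_lit 0x0) (nat_lit 0x24798cc0965)
  (PL.C (nat_lit 0x1a3c1cc) (nat_lit 0x0) (nat_lit 0x46a55a45a83e89)
  (PL.C (nat_lit 0x1a3de49) (nat_lit 0x2fe04ad63c2c9d3) (nat_lit 0x0)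
  (PL.C (nat_lit 0x1a4ccce) (nat_lit 0x0) (nat_lit 0x310d1ce8ca51505)
  (PL.C (nat_lit 0x1a4f05a) (nat_lit 0x0) (nat_lit 0x22a2fdd87a426c)
  (PL.C (nat_lit 0x1a57d72) (nat_lit 0x0) (nat_lit 0x66bb10555c636a)
  (PL.C (nat_lit 0x1a600f1) (nat_lit 0x0) (nat_lit 0xb7b8e7aec52279)
  (PL.C (nat_lit 0x1a75ed4) (nat_lit 0x0) (nat_lit 0x46a55a45a83e89)
  (PL.C (nat_lit 0x1a812b2) (nat_lit 0x0) (nat_lit 0xded099b90c86c)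
  (PL.C (nat_lit 0x1a99ad4) (nat_lit 0x12fea822e65c73d) (nat_lit 0x0)
  (PL.C (nat_lit 0x1a9baf8) (nat_lit 0x0) (nat_lit 0x218edb40766e3)
  (PL.C (nat_lit 0x1ac9b0c) (nat_lit 0x310ded92b1bf11) (nat_lit 0x0)
  (PL.C (nat_lit 0x1ad4c05) (nat_lit 0x0) (nat_lit 0x9a509bf02c14a)
  (PL.C (nat_lit 0x1adb634) (nat_lit 0x0) (nat_lit 0x8646598315ac26)
  (PL.C (nat_lit 0x1af143b) (nat_lit 0x0) (nat_lit 0x2b88536a8d4b608)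
  (PL.C (nat_lit 0x1afd524) (nat_lit 0x149003e0a7f6265) (nat_lit 0x0)
  (PL.C (nat_lit 0x1b04b94) (nat_lit 0x6551db2e7cc074) (nat_lit 0x0) gp3_0_74))))))))))))))))))))

noncomputable def gp3_0_72 : PL :=
  (PL.C (nat_lit 0x1947968) (nat_lit 0x0) (nat_lit 0x9fc8c6f1909c5)
  (PL.C (nat_lit 0x1948d9a) (nat_lit 0x0) (nat_lit 0x9081e98f064c5f)
  (PL.C (nat_lit 0x195306c) (nat_lit 0x288602ee8666bb2) (nat_lit 0x0)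
  (PL.C (nat_lit 0x195c14d) (nat_lit 0xe386f762401084) (nat_lit 0x0)
  (PL.C (nat_lit 0x196e8b2) (nat_lit 0x0) (nat_lit 0x4f9ac1b344ff1e3)
  (PL.C (nat_lit 0x197d195) (nat_lit 0x0) (nat_lit 0x41f1c1a1b01ed7)
  (PL.C (nat_lit 0x197e437) (nat_lit 0xcb34c1732d129a) (nat_lit 0x0)
  (PL.C (nat_lit 0x198044e) (nat_lit 0x0) (nat_lit 0xd9f2044b0fda84)
  (PL.C (nat_lit 0x1983674) (nat_lit 0x178eab358f16c1) (nat_lit 0x0)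
  (PL.C (nat_lit 0x1992afe) (nat_lit 0x0) (nat_lit 0x9081e98f064c5f)
  (PL.C (nat_lit 0x19bf0ea) (nat_lit 0x1c579b1ba377934) (nat_lit 0x0)
  (PL.C (nat_lit 0x19c3082) (nat_lit 0x0) (nat_lit 0xab3e4fd5ac90f)
  (PL.C (nat_lit 0x19c4d15) (nat_lit 0x0) (nat_lit 0x4a695408bacd879)
  (PL.C (nat_lit 0x19cbf16) (nat_lit 0x0) (nat_lit 0x716e6d4c640cff)
  (PL.C (nat_lit 0x19daab6) (nat_lit 0x608b899939c066) (nat_lit 0x0)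
  (PL.C (nat_lit 0x19de724) (nat_lit 0x0) (nat_lit 0x1f427aad1b93db)
  (PL.C (nat_lit 0x19e355e) (nat_lit 0xe6e103d63f8b40) (nat_lit 0x0)
  (PL.C (nat_lit 0x19ee7c9) (nat_lit 0x0) (nat_lit 0xb8eeec21c058)
  (PL.C (nat_lit 0x19f60b3) (nat_lit 0x0) (nat_lit 0x112e8e653959d9b)
  (PL.C (nat_lit 0x19ffa66) (nat_lit 0x0) (nat_lit 0x7fae9f02259f22) gp3_0_73))))))))))))))))))))

noncomputable def gp3_0_71 : PL :=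
  (PL.C (nat_lit 0x188705b) (nat_lit 0x30dccd22768eab2) (nat_lit 0x0)
  (PL.C (nat_lit 0x1893b3a) (nat_lit 0x1a6af79b313e42) (nat_lit 0x0)
  (PL.C (nat_lit 0x18ac974) (nat_lit 0x25240386778a12) (nat_lit 0x0)
  (PL.C (nat_lit 0x18b2e66) (nat_lit 0x0) (nat_lit 0x16f6644076560)
  (PL.C (nat_lit 0x18b5df7) (nat_lit 0x34754a236b8ee35) (nat_lit 0x0)
  (PL.C (nat_lit 0x18b6c5c) (nat_lit 0x0) (nat_lit 0x23e3f822e27a42a)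
  (PL.C (nat_lit 0x18b7f5d) (nat_lit 0x0) (nat_lit 0x67a1cd2c01ef9)
  (PL.C (nat_lit 0x18d0e4a) (nat_lit 0x0) (nat_lit 0x1531af9fe081c4)
  (PL.C (nat_lit 0x18ddb8c) (nat_lit 0x0) (nat_lit 0xb36c4fb4ae66f)
  (PL.C (nat_lit 0x18ec18c) (nat_lit 0x1df5d519015329) (nat_lit 0x0)
  (PL.C (nat_lit 0x18ed3c4) (nat_lit 0x19c7993e2729647) (nat_lit 0x0)
  (PL.C (nat_lit 0x18f4de5) (nat_lit 0x0) (nat_lit 0xb8eeec21c058)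
  (PL.C (nat_lit 0x1901348) (nat_lit 0x0) (nat_lit 0x13b6e7eb9f50ab)
  (PL.C (nat_lit 0x1906d34) (nat_lit 0x21714cccb89814) (nat_lit 0x0)
  (PL.C (nat_lit 0x1919427) (nat_lit 0x31e3d9f51bdf098) (nat_lit 0x0)
  (PL.C (nat_lit 0x1920f3f) (nat_lit 0xc2daa923c9ec0) (nat_lit 0x0)
  (PL.C (nat_lit 0x1929603) (nat_lit 0x0) (nat_lit 0x7e711117ee9f37)
  (PL.C (nat_lit 0x193238c) (nat_lit 0x1b8bfe066d8b352) (nat_lit 0x0)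
  (PL.C (nat_lit 0x1939eff) (nat_lit 0x0) (nat_lit 0x85bcbfcd4798b5)
  (PL.C (nat_lit 0x1946901) (nat_lit 0x0) (nat_lit 0x224655859c4cac) gp3_0_72))))))))))))))))))))

noncomputable def gp3_0_70 : PL :=
  (PL.C (nat_lit 0x17b3f67) (nat_lit 0x182d2b303f92155) (nat_lit 0x0)
  (PL.C (nat_lit 0x17c0c82) (nat_lit 0x0) (nat_lit 0x28396093e523dd6)
  (PL.C (nat_lit 0x17c9e16) (nat_lit 0x0) (nat_lit 0x2218e4c2225aed5)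
  (PL.C (nat_lit 0x17d998a) (nat_lit 0x0) (nat_lit 0x22a7eac74b9d14)
  (PL.C (nat_lit 0x17da6b8) (nat_lit 0xb1efd030d915) (nat_lit 0x0)
  (PL.C (nat_lit 0x17dfb52) (nat_lit 0x0) (nat_lit 0x177db0026c84e32)
  (PL.C (nat_lit 0x17e364a) (nat_lit 0x43b4e4b5ee4257) (nat_lit 0x0)
  (PL.C (nat_lit 0x17e50c9) (nat_lit 0x1ba1f3274751484) (nat_lit 0x0)
  (PL.C (nat_lit 0x1800056) (nat_lit 0x0) (nat_lit 0x3f5222a3ee0ae0)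
  (PL.C (nat_lit 0x1802d51) (nat_lit 0x0) (nat_lit 0x765838b7c8cc2c)
  (PL.C (nat_lit 0x1812b1f) (nat_lit 0x0) (nat_lit 0x698d9f06a2ed94)
  (PL.C (nat_lit 0x18294c4) (nat_lit 0x4ad1af3f46174a) (nat_lit 0x0)
  (PL.C (nat_lit 0x182b56c) (nat_lit 0x0) (nat_lit 0x54a47254d093d)
  (PL.C (nat_lit 0x1830b25) (nat_lit 0x0) (nat_lit 0x574f43ce45c7c3)
  (PL.C (nat_lit 0x183ccdb) (nat_lit 0x0) (nat_lit 0xd464854c92bd4)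
  (PL.C (nat_lit 0x184b25e) (nat_lit 0x6421144e6e0f16) (nat_lit 0x0)
  (PL.C (nat_lit 0x1863246) (nat_lit 0x42c82f24f4663d9) (nat_lit 0x0)
  (PL.C (nat_lit 0x1866e4c) (nat_lit 0x0) (nat_lit 0xfc1e1d7901497c)
  (PL.C (nat_lit 0x18731b4) (nat_lit 0x0) (nat_lit 0x14cfa63dae5a15)
  (PL.C (nat_lit 0x1877e6b) (nat_lit 0x0) (nat_lit 0x10ca2c9d53a229) gp3_0_71))))))))))))))))))))

noncomputable def gp3_0_69 : PL :=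
  (PL.C (nat_lit 0x17063f1) (nat_lit 0x0) (nat_lit 0x16c7a8e4cca9ac)
  (PL.C (nat_lit 0x171d254) (nat_lit 0x192b6cd0c1802ed) (nat_lit 0x0)
  (PL.C (nat_lit 0x1726f72) (nat_lit 0x0) (nat_lit 0x7fae9f02259f22)
  (PL.C (nat_lit 0x172ed1a) (nat_lit 0x0) (nat_lit 0x2f4507684d5cf5)
  (PL.C (nat_lit 0x1734375) (nat_lit 0x0) (nat_lit 0x14dffeb47f901c)
  (PL.C (nat_lit 0x17438bb) (nat_lit 0x0) (nat_lit 0x2ff1daba8c615)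
  (PL.C (nat_lit 0x17445ae) (nat_lit 0x0) (nat_lit 0xc3d90929f97aa8)
  (PL.C (nat_lit 0x174c276) (nat_lit 0x1a6af79b313e42) (nat_lit 0x0)
  (PL.C (nat_lit 0x1750ed5) (nat_lit 0x0) (nat_lit 0x9e63ec895b3433)
  (PL.C (nat_lit 0x1762a5e) (nat_lit 0xc1fe37264b9f3) (nat_lit 0x0)
  (PL.C (nat_lit 0x1764be2) (nat_lit 0xe8b1ea15a76ce5) (nat_lit 0x0)
  (PL.C (nat_lit 0x176cb1c) (nat_lit 0x1d1dcb257e1572) (nat_lit 0x0)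
  (PL.C (nat_lit 0x1783ee1) (nat_lit 0x0) (nat_lit 0xf4fd68b7ad5000)
  (PL.C (nat_lit 0x179149e) (nat_lit 0x857fd2e4dcdd6) (nat_lit 0x0)
  (PL.C (nat_lit 0x17936a4) (nat_lit 0x4bd78f94123cbe) (nat_lit 0x0)
  (PL.C (nat_lit 0x179b514) (nat_lit 0x9d29e6b5b0d68d) (nat_lit 0x0)
  (PL.C (nat_lit 0x17a1fce) (nat_lit 0x0) (nat_lit 0x8287ff38b98d3)
  (PL.C (nat_lit 0x17a57c6) (nat_lit 0x335b80a0b2fe679) (nat_lit 0x0)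
  (PL.C (nat_lit 0x17a714c) (nat_lit 0x60ee8853580103) (nat_lit 0x0)
  (PL.C (nat_lit 0x17b2eb4) (nat_lit 0x8556ee564aa826) (nat_lit 0x0) gp3_0_70))))))))))))))))))))

noncomputable def gp3_0_68 : PL :=
  (PL.C (nat_lit 0x16516a4) (nat_lit 0x934268090326ae) (nat_lit 0x0)
  (PL.C (nat_lit 0x165325b) (nat_lit 0x587363471ede6c) (nat_lit 0x0)
  (PL.C (nat_lit 0x165c95c) (nat_lit 0x215339548a68b6) (nat_lit 0x0)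
  (PL.C (nat_lit 0x1661ecf) (nat_lit 0x0) (nat_lit 0xac71271443ec7b)
  (PL.C (nat_lit 0x1667754) (nat_lit 0x288602ee8666bb2) (nat_lit 0x0)
  (PL.C (nat_lit 0x166959c) (nat_lit 0x0) (nat_lit 0x25cf6aff69411a)
  (PL.C (nat_lit 0x1669aa6) (nat_lit 0x0) (nat_lit 0x5af9d197adf6ed)
  (PL.C (nat_lit 0x166e519) (nat_lit 0x9379c28ed2fbdc) (nat_lit 0x0)
  (PL.C (nat_lit 0x1685217) (nat_lit 0x0) (nat_lit 0xa23c9afdf378b7)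
  (PL.C (nat_lit 0x16886ba) (nat_lit 0x1848587e7acfaec) (nat_lit 0x0)
  (PL.C (nat_lit 0x16a5562) (nat_lit 0x9e8d101f0cf60) (nat_lit 0x0)
  (PL.C (nat_lit 0x16bf334) (nat_lit 0x3296b3c3e25619) (nat_lit 0x0)
  (PL.C (nat_lit 0x16c88b4) (nat_lit 0x9e22fc494ebc75) (nat_lit 0x0)
  (PL.C (nat_lit 0x16cc48c) (nat_lit 0x4bd78f94123cbe) (nat_lit 0x0)
  (PL.C (nat_lit 0x16d02e4) (nat_lit 0x2243e8d84915e8f) (nat_lit 0x0)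
  (PL.C (nat_lit 0x16d343f) (nat_lit 0x37102a454a3ae) (nat_lit 0x0)
  (PL.C (nat_lit 0x16da01e) (nat_lit 0xb5d27cb6dd045e) (nat_lit 0x0)
  (PL.C (nat_lit 0x16dd9c8) (nat_lit 0x0) (nat_lit 0xc171b9551b264)
  (PL.C (nat_lit 0x16e9cf3) (nat_lit 0x0) (nat_lit 0x179736d368d5e6a)
  (PL.C (nat_lit 0x16eaa4c) (nat_lit 0x0) (nat_lit 0xae3b338016442d) gp3_0_69))))))))))))))))))))

noncomputable def gp3_0_67 : PL :=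
  (PL.C (nat_lit 0x15af416) (nat_lit 0x0) (nat_lit 0x2f4507684d5cf5)
  (PL.C (nat_lit 0x15b132a) (nat_lit 0x8ed4253ca57f54) (nat_lit 0x0)
  (PL.C (nat_lit 0x15bbe12) (nat_lit 0x0) (nat_lit 0x3261dd9ddc00e6)
  (PL.C (nat_lit 0x15c520c) (nat_lit 0x1a9f6eb3b591287) (nat_lit 0x0)
  (PL.C (nat_lit 0x15c6862) (nat_lit 0xfb9d152188b202) (nat_lit 0x0)
  (PL.C (nat_lit 0x15d295a) (nat_lit 0x0) (nat_lit 0xbb601b700278ff)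
  (PL.C (nat_lit 0x15e3ead) (nat_lit 0x0) (nat_lit 0xc5b19c6065468f)
  (PL.C (nat_lit 0x15ea4bf) (nat_lit 0x3644afc0a513691) (nat_lit 0x0)
  (PL.C (nat_lit 0x15f267e) (nat_lit 0x0) (nat_lit 0x4119dd1b48c62f5)
  (PL.C (nat_lit 0x15f9b04) (nat_lit 0x1a9daaeb8ddb) (nat_lit 0x0)
  (PL.C (nat_lit 0x1605044) (nat_lit 0xbf12a4d1045d8) (nat_lit 0x0)
  (PL.C (nat_lit 0x160efae) (nat_lit 0x42c82f24f4663d9) (nat_lit 0x0)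
  (PL.C (nat_lit 0x161a052) (nat_lit 0xa9c8c137254052) (nat_lit 0x0)
  (PL.C (nat_lit 0x1626a32) (nat_lit 0x3393b070c2155e) (nat_lit 0x0)
  (PL.C (nat_lit 0x1626f2d) (nat_lit 0x0) (nat_lit 0xbef20827ebaf848)
  (PL.C (nat_lit 0x162a1dc) (nat_lit 0x12590c4c3a6c06) (nat_lit 0x0)
  (PL.C (nat_lit 0x1633886) (nat_lit 0x0) (nat_lit 0x274e1ab5cb2093)
  (PL.C (nat_lit 0x16412ee) (nat_lit 0x1c854c41d11447) (nat_lit 0x0)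
  (PL.C (nat_lit 0x164ab9e) (nat_lit 0x9f4f0648c0d992) (nat_lit 0x0)
  (PL.C (nat_lit 0x1651431) (nat_lit 0x0) (nat_lit 0x85bcbfcd4798b5) gp3_0_68))))))))))))))))))))

noncomputable def gp3_0_66 : PL :=
  (PL.C (nat_lit 0x150ee23) (nat_lit 0x382cc1b2b6566e0) (nat_lit 0x0)
  (PL.C (nat_lit 0x1523d3c) (nat_lit 0x15fc43bb1ca1e4) (nat_lit 0x0)
  (PL.C (nat_lit 0x15308d6) (nat_lit 0x0) (nat_lit 0x7a348c14fe5fe5)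
  (PL.C (nat_lit 0x153e07f) (nat_lit 0x0) (nat_lit 0x765838b7c8cc2c)
  (PL.C (nat_lit 0x153e818) (nat_lit 0x44f803e3fb44) (nat_lit 0x0)
  (PL.C (nat_lit 0x153fd35) (nat_lit 0x92c92a6a72528d) (nat_lit 0x0)
  (PL.C (nat_lit 0x15512a6) (nat_lit 0x0) (nat_lit 0x6866f7e44dd77f)
  (PL.C (nat_lit 0x1558182) (nat_lit 0x0) (nat_lit 0xe85e66431a5285)
  (PL.C (nat_lit 0x155bd5a) (nat_lit 0x0) (nat_lit 0x44811de05da378)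
  (PL.C (nat_lit 0x155e2e8) (nat_lit 0x0) (nat_lit 0x45a9971e26d860)
  (PL.C (nat_lit 0x155f3fa) (nat_lit 0x0) (nat_lit 0x280b6c9e9e515b)
  (PL.C (nat_lit 0x156762c) (nat_lit 0x0) (nat_lit 0xfc1e1d7901497c)
  (PL.C (nat_lit 0x1568541) (nat_lit 0xe386f762401084) (nat_lit 0x0)
  (PL.C (nat_lit 0x156d528) (nat_lit 0x37a4133e531f8) (nat_lit 0x0)
  (PL.C (nat_lit 0x157c1fa) (nat_lit 0x0) (nat_lit 0x29082fe796e80c3)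
  (PL.C (nat_lit 0x1586e06) (nat_lit 0x1bc693cb811aad5) (nat_lit 0x0)
  (PL.C (nat_lit 0x15932a6) (nat_lit 0x0) (nat_lit 0x28c8b6decc58b57)
  (PL.C (nat_lit 0x15a152b) (nat_lit 0x14204d96c23f8c9) (nat_lit 0x0)
  (PL.C (nat_lit 0x15a2e76) (nat_lit 0x0) (nat_lit 0x214aa7214f035a)
  (PL.C (nat_lit 0x15a89f8) (nat_lit 0x0) (nat_lit 0x24798cc0965) gp3_0_67))))))))))))))))))))

noncomputable def gp3_0_65 : PL :=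
  (PL.C (nat_lit 0x144282e) (nat_lit 0x1501b5b798504e) (nat_lit 0x0)
  (PL.C (nat_lit 0x144c5c1) (nat_lit 0x2867fde4aba66b) (nat_lit 0x0)
  (PL.C (nat_lit 0x1450dde) (nat_lit 0x0) (nat_lit 0x3a46eead6ded40)
  (PL.C (nat_lit 0x14553ec) (nat_lit 0x36ab1a8cb51fed) (nat_lit 0x0)
  (PL.C (nat_lit 0x1459cb6) (nat_lit 0x0) (nat_lit 0x44f3b836904f3d5)
  (PL.C (nat_lit 0x146b0d4) (nat_lit 0x1b337e97dea956) (nat_lit 0x0)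
  (PL.C (nat_lit 0x146deac) (nat_lit 0x21714cccb89814) (nat_lit 0x0)
  (PL.C (nat_lit 0x14744a6) (nat_lit 0x0) (nat_lit 0x27a79c30c6c5ea8)
  (PL.C (nat_lit 0x148917a) (nat_lit 0x0) (nat_lit 0x1531af9fe081c4)
  (PL.C (nat_lit 0x148a841) (nat_lit 0x525ade47cbef8f9) (nat_lit 0x0)
  (PL.C (nat_lit 0x149ed4f) (nat_lit 0x1580a0f9518073c) (nat_lit 0x0)
  (PL.C (nat_lit 0x14a7b57) (nat_lit 0x7aa26066391a42) (nat_lit 0x0)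
  (PL.C (nat_lit 0x14c6f0c) (nat_lit 0xb4df0ef8a6e97) (nat_lit 0x0)
  (PL.C (nat_lit 0x14cb8bd) (nat_lit 0x16b0da7f022e3a) (nat_lit 0x0)
  (PL.C (nat_lit 0x14d5f43) (nat_lit 0x2166590c9e0627) (nat_lit 0x0)
  (PL.C (nat_lit 0x14deab8) (nat_lit 0x0) (nat_lit 0x13b6e7eb9f50ab)
  (PL.C (nat_lit 0x14e1d93) (nat_lit 0x37102a454a3ae) (nat_lit 0x0)
  (PL.C (nat_lit 0x14e4e62) (nat_lit 0x401a0ff9d3a696) (nat_lit 0x0)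
  (PL.C (nat_lit 0x14f6e96) (nat_lit 0x4907c8d1967386) (nat_lit 0x0)
  (PL.C (nat_lit 0x1509cbc) (nat_lit 0x0) (nat_lit 0x67f9976c45d581) gp3_0_66))))))))))))))))))))

noncomputable def gp3_0_64 : PL :=
  (PL.C (nat_lit 0x13c447e) (nat_lit 0xe6e103d63f8b40) (nat_lit 0x0)
  (PL.C (nat_lit 0x13c6bd4) (nat_lit 0xb7e526008038d) (nat_lit 0x0)
  (PL.C (nat_lit 0x13c92b8) (nat_lit 0x4d6938b193a82a) (nat_lit 0x0)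
  (PL.C (nat_lit 0x13cab4a) (nat_lit 0x0) (nat_lit 0x4b6e7759115ee7)
  (PL.C (nat_lit 0x13d8622) (nat_lit 0x2d8e7bcf2bb2d9) (nat_lit 0x0)
  (PL.C (nat_lit 0x13d9c25) (nat_lit 0xde8446abd9bd7a) (nat_lit 0x0)
  (PL.C (nat_lit 0x13deab4) (nat_lit 0x0) (nat_lit 0x7a16710ebdb086)
  (PL.C (nat_lit 0x13eddca) (nat_lit 0x0) (nat_lit 0x5c134eaa4fd4b)
  (PL.C (nat_lit 0x13f615e) (nat_lit 0x0) (nat_lit 0x2637c718709225f)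
  (PL.C (nat_lit 0x1407146) (nat_lit 0x0) (nat_lit 0xcc1f50dd1cb6c0)
  (PL.C (nat_lit 0x140b2ed) (nat_lit 0x2653216b5241567) (nat_lit 0x0)
  (PL.C (nat_lit 0x140d20a) (nat_lit 0x0) (nat_lit 0x29082fe796e80c3)
  (PL.C (nat_lit 0x1414cee) (nat_lit 0x6df4b8b65a2357) (nat_lit 0x0)
  (PL.C (nat_lit 0x14158b6) (nat_lit 0x0) (nat_lit 0x1819df52d379f6)
  (PL.C (nat_lit 0x1422132) (nat_lit 0x0) (nat_lit 0x2637c718709225f)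
  (PL.C (nat_lit 0x1429864) (nat_lit 0x0) (nat_lit 0x1fb5c03ce53064d)
  (PL.C (nat_lit 0x142fb2d) (nat_lit 0x0) (nat_lit 0x3935ca52d4e4bd)
  (PL.C (nat_lit 0x14311aa) (nat_lit 0x1882aeadd0c1139) (nat_lit 0x0)
  (PL.C (nat_lit 0x1432344) (nat_lit 0x0) (nat_lit 0x2aa6ce6546d08)
  (PL.C (nat_lit 0x1439cd3) (nat_lit 0x0) (nat_lit 0x3f9be1eac1278f) gp3_0_65))))))))))))))))))))

noncomputable def gp3_0_63 : PL :=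
  (PL.C (nat_lit 0x130ac22) (nat_lit 0x0) (nat_lit 0xe160123944600c)
  (PL.C (nat_lit 0x130dbfc) (nat_lit 0x3cbd951b92f194) (nat_lit 0x0)
  (PL.C (nat_lit 0x131eeab) (nat_lit 0x1ba1f3274751484) (nat_lit 0x0)
  (PL.C (nat_lit 0x132f669) (nat_lit 0x0) (nat_lit 0x1890dd80ee6c641)
  (PL.C (nat_lit 0x132f884) (nat_lit 0x0) (nat_lit 0xffab26fc72a88)
  (PL.C (nat_lit 0x1333b04) (nat_lit 0x19e2662cd03017) (nat_lit 0x0)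
  (PL.C (nat_lit 0x133ebbc) (nat_lit 0x0) (nat_lit 0x48a757a31a407)
  (PL.C (nat_lit 0x13427b4) (nat_lit 0x0) (nat_lit 0x17455008251aabd)
  (PL.C (nat_lit 0x13441bc) (nat_lit 0x0) (nat_lit 0x341b174a40a6f3)
  (PL.C (nat_lit 0x1348611) (nat_lit 0x388307a7408c9b) (nat_lit 0x0)
  (PL.C (nat_lit 0x134a516) (nat_lit 0x5522639971020e) (nat_lit 0x0)
  (PL.C (nat_lit 0x1353d48) (nat_lit 0x0) (nat_lit 0x45a9971e26d860)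
  (PL.C (nat_lit 0x1368d4c) (nat_lit 0x15dd511d731454c) (nat_lit 0x0)
  (PL.C (nat_lit 0x139df08) (nat_lit 0x0) (nat_lit 0x4e1953b1fc73a)
  (PL.C (nat_lit 0x139f287) (nat_lit 0x12222342267528) (nat_lit 0x0)
  (PL.C (nat_lit 0x13aaace) (nat_lit 0x2329af937db8258) (nat_lit 0x0)
  (PL.C (nat_lit 0x13b289b) (nat_lit 0xf9178911c80bb) (nat_lit 0x0)
  (PL.C (nat_lit 0x13b4958) (nat_lit 0x12c88061dcb51f) (nat_lit 0x0)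
  (PL.C (nat_lit 0x13b5916) (nat_lit 0xd06d3f2b467232) (nat_lit 0x0)
  (PL.C (nat_lit 0x13bf6ea) (nat_lit 0xe8b1ea15a76ce5) (nat_lit 0x0) gp3_0_64))))))))))))))))))))

noncomputable def gp3_0_62 : PL :=
  (PL.C (nat_lit 0x128de25) (nat_lit 0x35e7bd62425dcb) (nat_lit 0x0)
  (PL.C (nat_lit 0x1296854) (nat_lit 0x0) (nat_lit 0x142a9ad2a5a72d)
  (PL.C (nat_lit 0x1297cf2) (nat_lit 0x0) (nat_lit 0x7bc7ecb9e77302)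
  (PL.C (nat_lit 0x129cc04) (nat_lit 0x0) (nat_lit 0x67f9976c45d581)
  (PL.C (nat_lit 0x129eee6) (nat_lit 0x405e366ecf8c2b) (nat_lit 0x0)
  (PL.C (nat_lit 0x12ab3ba) (nat_lit 0x0) (nat_lit 0x329d1a8e08d64fd)
  (PL.C (nat_lit 0x12b32a1) (nat_lit 0x0) (nat_lit 0xedd1e4ac809bce)
  (PL.C (nat_lit 0x12c13bf) (nat_lit 0x0) (nat_lit 0x250311f47a96906)
  (PL.C (nat_lit 0x12c280a) (nat_lit 0x0) (nat_lit 0x96bf569a605e5c)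
  (PL.C (nat_lit 0x12cae6f) (nat_lit 0xb3b2182faec216) (nat_lit 0x0)
  (PL.C (nat_lit 0x12d7034) (nat_lit 0x1b337e97dea956) (nat_lit 0x0)
  (PL.C (nat_lit 0x12decab) (nat_lit 0x39167725da06fd) (nat_lit 0x0)
  (PL.C (nat_lit 0x12e41e4) (nat_lit 0x581d31cd0547dc) (nat_lit 0x0)
  (PL.C (nat_lit 0x12ea909) (nat_lit 0x0) (nat_lit 0x10e43194f162a13)
  (PL.C (nat_lit 0x12eb7be) (nat_lit 0xd66318a98232ab) (nat_lit 0x0)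
  (PL.C (nat_lit 0x12f66be) (nat_lit 0x2c8b99d58201646) (nat_lit 0x0)
  (PL.C (nat_lit 0x12f9b82) (nat_lit 0x0) (nat_lit 0x4b6e7759115ee7)
  (PL.C (nat_lit 0x1302ab3) (nat_lit 0x0) (nat_lit 0x1870ec8e05f8dd)
  (PL.C (nat_lit 0x1305722) (nat_lit 0x0) (nat_lit 0x17db37af8c4be7b)
  (PL.C (nat_lit 0x13090a7) (nat_lit 0x0) (nat_lit 0x41f1c1a1b01ed7) gp3_0_63))))))))))))))))))))

noncomputable def gp3_0_61 : PL :=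
  (PL.C (nat_lit 0x11ee8bb) (nat_lit 0x745dc2c49e51f3) (nat_lit 0x0)
  (PL.C (nat_lit 0x11f62d2) (nat_lit 0x0) (nat_lit 0xf00abf6a850ead)
  (PL.C (nat_lit 0x120a962) (nat_lit 0x0) (nat_lit 0x7a348c14fe5fe5)
  (PL.C (nat_lit 0x1212405) (nat_lit 0x71b2b5ae21f45d) (nat_lit 0x0)
  (PL.C (nat_lit 0x121a44b) (nat_lit 0x3d9ffa265aa452) (nat_lit 0x0)
  (PL.C (nat_lit 0x1222f62) (nat_lit 0x0) (nat_lit 0x28396093e523dd6)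
  (PL.C (nat_lit 0x122454c) (nat_lit 0x0) (nat_lit 0x8646598315ac26)
  (PL.C (nat_lit 0x122c09e) (nat_lit 0x0) (nat_lit 0x45493f51262c3a)
  (PL.C (nat_lit 0x122c45c) (nat_lit 0x0) (nat_lit 0xd1adb714c2718)
  (PL.C (nat_lit 0x123c846) (nat_lit 0x0) (nat_lit 0x71ea905b7574846)
  (PL.C (nat_lit 0x12445f5) (nat_lit 0x0) (nat_lit 0x16c7a8e4cca9ac)
  (PL.C (nat_lit 0x12533f6) (nat_lit 0x1501b5b798504e) (nat_lit 0x0)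
  (PL.C (nat_lit 0x12568a4) (nat_lit 0x192b6cd0c1802ed) (nat_lit 0x0)
  (PL.C (nat_lit 0x125f5aa) (nat_lit 0x0) (nat_lit 0x1debbf00766907)
  (PL.C (nat_lit 0x125ffe4) (nat_lit 0x1d1dcb257e1572) (nat_lit 0x0)
  (PL.C (nat_lit 0x1266e6a) (nat_lit 0x0) (nat_lit 0x66bb10555c636a)
  (PL.C (nat_lit 0x127ef3c) (nat_lit 0x0) (nat_lit 0xae3b338016442d)
  (PL.C (nat_lit 0x1282716) (nat_lit 0x43d062051817be) (nat_lit 0x0)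
  (PL.C (nat_lit 0x12849db) (nat_lit 0x2867fde4aba66b) (nat_lit 0x0)
  (PL.C (nat_lit 0x1286cf6) (nat_lit 0x118602321bd9522) (nat_lit 0x0) gp3_0_62))))))))))))))))))))

noncomputable def gp3_0_60 : PL :=
  (PL.C (nat_lit 0x114eb22) (nat_lit 0x2263c83fc7b964) (nat_lit 0x0)
  (PL.C (nat_lit 0x1155ce2) (nat_lit 0x3b3f1436a32939) (nat_lit 0x0)
  (PL.C (nat_lit 0x115a685) (nat_lit 0x0) (nat_lit 0x57d096c56cd7f2)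
  (PL.C (nat_lit 0x115b9da) (nat_lit 0x0) (nat_lit 0x17ddcd1c6494174)
  (PL.C (nat_lit 0x11619e4) (nat_lit 0x0) (nat_lit 0x23d95342f8564d1)
  (PL.C (nat_lit 0x116317b) (nat_lit 0x3644afc0a513691) (nat_lit 0x0)
  (PL.C (nat_lit 0x1166f0d) (nat_lit 0x10a9d48ad6f83d) (nat_lit 0x0)
  (PL.C (nat_lit 0x116d04b) (nat_lit 0x0) (nat_lit 0x122c02ed96ffc11)
  (PL.C (nat_lit 0x117d688) (nat_lit 0x17c04e7089f3c1) (nat_lit 0x0)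
  (PL.C (nat_lit 0x117e986) (nat_lit 0x0) (nat_lit 0x6fd7e4c5e8b17)
  (PL.C (nat_lit 0x118a03c) (nat_lit 0xb4df0ef8a6e97) (nat_lit 0x0)
  (PL.C (nat_lit 0x118de71) (nat_lit 0x16b0da7f022e3a) (nat_lit 0x0)
  (PL.C (nat_lit 0x118fe4c) (nat_lit 0x0) (nat_lit 0x481a885ca32407)
  (PL.C (nat_lit 0x11909cd) (nat_lit 0x0) (nat_lit 0x816e516e6946c9)
  (PL.C (nat_lit 0x11955f6) (nat_lit 0x0) (nat_lit 0x11196689142866c)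
  (PL.C (nat_lit 0x11a3f38) (nat_lit 0x17c04e7089f3c1) (nat_lit 0x0)
  (PL.C (nat_lit 0x11b9f17) (nat_lit 0x0) (nat_lit 0xedd1e4ac809bce)
  (PL.C (nat_lit 0x11c6bef) (nat_lit 0x0) (nat_lit 0x122c02ed96ffc11)
  (PL.C (nat_lit 0x11e32ae) (nat_lit 0x0) (nat_lit 0x280b6c9e9e515b)
  (PL.C (nat_lit 0x11e7978) (nat_lit 0x0) (nat_lit 0x203a6972bc84bd) gp3_0_61))))))))))))))))))))

noncomputable def gp3_0_59 : PL :=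
  (PL.C (nat_lit 0x10c0a2a) (nat_lit 0x92091c7c7b9ba) (nat_lit 0x0)
  (PL.C (nat_lit 0x10c1e53) (nat_lit 0x6f53c21685a584) (nat_lit 0x0)
  (PL.C (nat_lit 0x10c6402) (nat_lit 0x0) (nat_lit 0x4503d18076351c)
  (PL.C (nat_lit 0x10d14aa) (nat_lit 0x0) (nat_lit 0x3f8cbc89258588)
  (PL.C (nat_lit 0x10d7117) (nat_lit 0x0) (nat_lit 0xe0b82c83a5b9a)
  (PL.C (nat_lit 0x10d9b56) (nat_lit 0x0) (nat_lit 0x22a7eac74b9d14)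
  (PL.C (nat_lit 0x10db3bc) (nat_lit 0x1c70b88ccf8126) (nat_lit 0x0)
  (PL.C (nat_lit 0x10e2048) (nat_lit 0x0) (nat_lit 0xca679bede1986e)
  (PL.C (nat_lit 0x10e80de) (nat_lit 0x9d07413bf14282) (nat_lit 0x0)
  (PL.C (nat_lit 0x10eed03) (nat_lit 0x31d46e6dc1bf300) (nat_lit 0x0)
  (PL.C (nat_lit 0x10f45cc) (nat_lit 0x5d0632b61fd35b) (nat_lit 0x0)
  (PL.C (nat_lit 0x10fe10e) (nat_lit 0x0) (nat_lit 0x9e42075a19a008)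
  (PL.C (nat_lit 0x10fed7a) (nat_lit 0x335b80a0b2fe679) (nat_lit 0x0)
  (PL.C (nat_lit 0x110c754) (nat_lit 0x1c70b88ccf8126) (nat_lit 0x0)
  (PL.C (nat_lit 0x112a09c) (nat_lit 0x4b83d11a37b2770) (nat_lit 0x0)
  (PL.C (nat_lit 0x112de0e) (nat_lit 0x0) (nat_lit 0x44f3b836904f3d5)
  (PL.C (nat_lit 0x113c724) (nat_lit 0x934268090326ae) (nat_lit 0x0)
  (PL.C (nat_lit 0x113d4e9) (nat_lit 0x7aa26066391a42) (nat_lit 0x0)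
  (PL.C (nat_lit 0x1142394) (nat_lit 0x87a28e1132de13) (nat_lit 0x0)
  (PL.C (nat_lit 0x1149a86) (nat_lit 0x4f0656b9f650de) (nat_lit 0x0) gp3_0_60))))))))))))))))))))

noncomputable def gp3_0_58 : PL :=
  (PL.C (nat_lit 0x1031fcd) (nat_lit 0x4c6cd495c9664d2) (nat_lit 0x0)
  (PL.C (nat_lit 0x1032194) (nat_lit 0x1129969ba22a5f0) (nat_lit 0x0)
  (PL.C (nat_lit 0x103830f) (nat_lit 0xe26757823c716c) (nat_lit 0x0)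
  (PL.C (nat_lit 0x1038c93) (nat_lit 0xd40760f00101d) (nat_lit 0x0)
  (PL.C (nat_lit 0x1042184) (nat_lit 0x377f93d3e9e1adc) (nat_lit 0x0)
  (PL.C (nat_lit 0x1042e81) (nat_lit 0x0) (nat_lit 0x1dfb0b79829ed55)
  (PL.C (nat_lit 0x1044988) (nat_lit 0x0) (nat_lit 0x38790e53cb45b)
  (PL.C (nat_lit 0x1049961) (nat_lit 0x225b99df4e022d) (nat_lit 0x0)
  (PL.C (nat_lit 0x104fef2) (nat_lit 0x0) (nat_lit 0xc88314b0cb58e9)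
  (PL.C (nat_lit 0x105d1af) (nat_lit 0x1251e7167ecd05) (nat_lit 0x0)
  (PL.C (nat_lit 0x106277c) (nat_lit 0x1b4a714cbed6fb) (nat_lit 0x0)
  (PL.C (nat_lit 0x106fe93) (nat_lit 0x0) (nat_lit 0x8cfa6c783591c2b)
  (PL.C (nat_lit 0x10730f8) (nat_lit 0x7a4cc39aa52e7) (nat_lit 0x0)
  (PL.C (nat_lit 0x1077444) (nat_lit 0x0) (nat_lit 0xb36c4fb4ae66f)
  (PL.C (nat_lit 0x10793fa) (nat_lit 0x1c3205411a6880c) (nat_lit 0x0)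
  (PL.C (nat_lit 0x107aa3e) (nat_lit 0x0) (nat_lit 0x28d4647df32177)
  (PL.C (nat_lit 0x1093d08) (nat_lit 0x0) (nat_lit 0x32d8741e00472)
  (PL.C (nat_lit 0x10a33ee) (nat_lit 0x4f0656b9f650de) (nat_lit 0x0)
  (PL.C (nat_lit 0x10af378) (nat_lit 0xb489c2a0faa27) (nat_lit 0x0)
  (PL.C (nat_lit 0x10bb81a) (nat_lit 0x0) (nat_lit 0xa0fa34b8dd5176) gp3_0_59))))))))))))))))))))

noncomputable def gp3_0_57 : PL :=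
  (PL.C (nat_lit 0xfc1534) (nat_lit 0xa390b1647000) (nat_lit 0x0)
  (PL.C (nat_lit 0xfc3a84) (nat_lit 0x92974b52c2d8dc) (nat_lit 0x0)
  (PL.C (nat_lit 0xfc4b88) (nat_lit 0x12c88061dcb51f) (nat_lit 0x0)
  (PL.C (nat_lit 0xfd5dac) (nat_lit 0x0) (nat_lit 0xd65e8bd2e2f706)
  (PL.C (nat_lit 0xfdd26b) (nat_lit 0x1258b23b421e76e) (nat_lit 0x0)
  (PL.C (nat_lit 0xfe277f) (nat_lit 0xde8446abd9bd7a) (nat_lit 0x0)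
  (PL.C (nat_lit 0xfe665c) (nat_lit 0xe653d4be0022d9) (nat_lit 0x0)
  (PL.C (nat_lit 0xfea78c) (nat_lit 0x0) (nat_lit 0x1a05415decf853e)
  (PL.C (nat_lit 0xfeb443) (nat_lit 0x1abab0e7857985) (nat_lit 0x0)
  (PL.C (nat_lit 0xfecedc) (nat_lit 0x268a3ee9893d44) (nat_lit 0x0)
  (PL.C (nat_lit 0xfee086) (nat_lit 0x464c71ab8a03577) (nat_lit 0x0)
  (PL.C (nat_lit 0xff1ce3) (nat_lit 0x0) (nat_lit 0x40f9fea3d1809)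
  (PL.C (nat_lit 0xff33bd) (nat_lit 0x0) (nat_lit 0xae33927e717116)
  (PL.C (nat_lit 0xffc56d) (nat_lit 0x1318de66f698cf) (nat_lit 0x0)
  (PL.C (nat_lit 0x1001e36) (nat_lit 0x364db8e7028e7de) (nat_lit 0x0)
  (PL.C (nat_lit 0x100c76a) (nat_lit 0x58663d7778ee4e) (nat_lit 0x0)
  (PL.C (nat_lit 0x101ce48) (nat_lit 0xb1efd030d915) (nat_lit 0x0)
  (PL.C (nat_lit 0x101f607) (nat_lit 0x197eaae1d24c2ae) (nat_lit 0x0)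
  (PL.C (nat_lit 0x102076e) (nat_lit 0x0) (nat_lit 0x177db0026c84e32)
  (PL.C (nat_lit 0x1028892) (nat_lit 0x0) (nat_lit 0x49ec3e6bde811a) gp3_0_58))))))))))))))))))))

noncomputable def gp3_0_56 : PL :=
  (PL.C (nat_lit 0xf3782a) (nat_lit 0x0) (nat_lit 0x3a663e269ada1c)
  (PL.C (nat_lit 0xf3c014) (nat_lit 0x19e2662cd03017) (nat_lit 0x0)
  (PL.C (nat_lit 0xf468a2) (nat_lit 0x0) (nat_lit 0x27a79c30c6c5ea8)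
  (PL.C (nat_lit 0xf47188) (nat_lit 0x149949524fc0f3e) (nat_lit 0x0)
  (PL.C (nat_lit 0xf480b7) (nat_lit 0x0) (nat_lit 0x344a48104833698)
  (PL.C (nat_lit 0xf597f6) (nat_lit 0x0) (nat_lit 0x1036e5b4cc83e76)
  (PL.C (nat_lit 0xf5d039) (nat_lit 0x0) (nat_lit 0x2b88536a8d4b608)
  (PL.C (nat_lit 0xf68c38) (nat_lit 0x0) (nat_lit 0x33169014740a81)
  (PL.C (nat_lit 0xf748bc) (nat_lit 0x0) (nat_lit 0x4f6d76f0c83a35)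
  (PL.C (nat_lit 0xf7824e) (nat_lit 0x0) (nat_lit 0x3f5222a3ee0ae0)
  (PL.C (nat_lit 0xf825d2) (nat_lit 0x72ba6d2fe2467d) (nat_lit 0x0)
  (PL.C (nat_lit 0xf82e74) (nat_lit 0x0) (nat_lit 0x70c35e5f072bbc)
  (PL.C (nat_lit 0xf881a4) (nat_lit 0x1b4a714cbed6fb) (nat_lit 0x0)
  (PL.C (nat_lit 0xf8b48e) (nat_lit 0x0) (nat_lit 0xe160123944600c)
  (PL.C (nat_lit 0xf94a43) (nat_lit 0x0) (nat_lit 0x2ff1daba8c615)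
  (PL.C (nat_lit 0xf97194) (nat_lit 0x25240386778a12) (nat_lit 0x0)
  (PL.C (nat_lit 0xf987ec) (nat_lit 0x0) (nat_lit 0x1301cb6eaa729e)
  (PL.C (nat_lit 0xf9d893) (nat_lit 0x39167725da06fd) (nat_lit 0x0)
  (PL.C (nat_lit 0xfad496) (nat_lit 0x152d56af54bd0) (nat_lit 0x0)
  (PL.C (nat_lit 0xfb6314) (nat_lit 0x1df5d519015329) (nat_lit 0x0) gp3_0_57))))))))))))))))))))

noncomputable def gp3_0_55 : PL :=
  (PL.C (nat_lit 0xeb5cb7) (nat_lit 0x382cc1b2b6566e0) (nat_lit 0x0)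
  (PL.C (nat_lit 0xebab9b) (nat_lit 0x2f198867fa2db58) (nat_lit 0x0)
  (PL.C (nat_lit 0xec46cc) (nat_lit 0x15fc43bb1ca1e4) (nat_lit 0x0)
  (PL.C (nat_lit 0xec4a1e) (nat_lit 0x0) (nat_lit 0x5bafe0d497de9ee)
  (PL.C (nat_lit 0xec6be8) (nat_lit 0x0) (nat_lit 0x4e1953b1fc73a)
  (PL.C (nat_lit 0xed61f4) (nat_lit 0x17340064392822) (nat_lit 0x0)
  (PL.C (nat_lit 0xed8cfd) (nat_lit 0x0) (nat_lit 0x195ba6bb48766a9)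
  (PL.C (nat_lit 0xee0d76) (nat_lit 0x0) (nat_lit 0x3f8cbc89258588)
  (PL.C (nat_lit 0xee0f18) (nat_lit 0x0) (nat_lit 0x250dd08240b694)
  (PL.C (nat_lit 0xee2192) (nat_lit 0x8820bfadd8791a) (nat_lit 0x0)
  (PL.C (nat_lit 0xeefa38) (nat_lit 0x0) (nat_lit 0xca679bede1986e)
  (PL.C (nat_lit 0xef0e68) (nat_lit 0x0) (nat_lit 0x83a23d3cb6844)
  (PL.C (nat_lit 0xef11c4) (nat_lit 0x2aa8e63597bf0) (nat_lit 0x0)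
  (PL.C (nat_lit 0xef3343) (nat_lit 0x0) (nat_lit 0x5595d93341485a)
  (PL.C (nat_lit 0xef4366) (nat_lit 0x10305568d429cfa) (nat_lit 0x0)
  (PL.C (nat_lit 0xef6bb3) (nat_lit 0x0) (nat_lit 0xbef20827ebaf848)
  (PL.C (nat_lit 0xf036ba) (nat_lit 0x6421144e6e0f16) (nat_lit 0x0)
  (PL.C (nat_lit 0xf04761) (nat_lit 0x12ece63a94d4d21) (nat_lit 0x0)
  (PL.C (nat_lit 0xf0a36b) (nat_lit 0xf9178911c80bb) (nat_lit 0x0)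
  (PL.C (nat_lit 0xf14265) (nat_lit 0xf210d3e63d46fd) (nat_lit 0x0) gp3_0_56))))))))))))))))))))

noncomputable def gp3_0_54 : PL :=
  (PL.C (nat_lit 0xe3f7fc) (nat_lit 0x1414abadcb83ff) (nat_lit 0x0)
  (PL.C (nat_lit 0xe44ec8) (nat_lit 0x0) (nat_lit 0x38790e53cb45b)
  (PL.C (nat_lit 0xe458d6) (nat_lit 0x9d07413bf14282) (nat_lit 0x0)
  (PL.C (nat_lit 0xe52bfc) (nat_lit 0x1416c7f05b55c14) (nat_lit 0x0)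
  (PL.C (nat_lit 0xe621c4) (nat_lit 0x0) (nat_lit 0x23d95342f8564d1)
  (PL.C (nat_lit 0xe6c9a4) (nat_lit 0x3cbd951b92f194) (nat_lit 0x0)
  (PL.C (nat_lit 0xe728ef) (nat_lit 0x0) (nat_lit 0x25f866322e6b3b)
  (PL.C (nat_lit 0xe74d64) (nat_lit 0x0) (nat_lit 0x4f6d76f0c83a35)
  (PL.C (nat_lit 0xe7621c) (nat_lit 0x3f0c7219a1452b) (nat_lit 0x0)
  (PL.C (nat_lit 0xe7d40c) (nat_lit 0x36ab1a8cb51fed) (nat_lit 0x0)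
  (PL.C (nat_lit 0xe88cb7) (nat_lit 0x3a24977ffdd039) (nat_lit 0x0)
  (PL.C (nat_lit 0xe8c63c) (nat_lit 0x581d31cd0547dc) (nat_lit 0x0)
  (PL.C (nat_lit 0xe8d84d) (nat_lit 0x0) (nat_lit 0x10ca2c9d53a229)
  (PL.C (nat_lit 0xe92659) (nat_lit 0x0) (nat_lit 0x25f866322e6b3b)
  (PL.C (nat_lit 0xe97f1e) (nat_lit 0xd06d3f2b467232) (nat_lit 0x0)
  (PL.C (nat_lit 0xe9c32a) (nat_lit 0x233f9bab13c30a0) (nat_lit 0x0)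
  (PL.C (nat_lit 0xea6159) (nat_lit 0x4c6cd495c9664d2) (nat_lit 0x0)
  (PL.C (nat_lit 0xea6758) (nat_lit 0x4d6938b193a82a) (nat_lit 0x0)
  (PL.C (nat_lit 0xead6a7) (nat_lit 0x0) (nat_lit 0x112e8e653959d9b)
  (PL.C (nat_lit 0xeb4a74) (nat_lit 0x377f93d3e9e1adc) (nat_lit 0x0) gp3_0_55))))))))))))))))))))

noncomputable def gp3_0_53 : PL :=
  (PL.C (nat_lit 0xdb118b) (nat_lit 0x1e56efb268e3492) (nat_lit 0x0)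
  (PL.C (nat_lit 0xdb1ad6) (nat_lit 0x6c5631c73c91d52) (nat_lit 0x0)
  (PL.C (nat_lit 0xdba245) (nat_lit 0x197eaae1d24c2ae) (nat_lit 0x0)
  (PL.C (nat_lit 0xdbf38a) (nat_lit 0x0) (nat_lit 0x4f9ac1b344ff1e3)
  (PL.C (nat_lit 0xdc523a) (nat_lit 0x0) (nat_lit 0x4f623d3616318c)
  (PL.C (nat_lit 0xddd07e) (nat_lit 0x0) (nat_lit 0x27033e83cf3731)
  (PL.C (nat_lit 0xde021f) (nat_lit 0x1bac643191a83b5e) (nat_lit 0x0)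
  (PL.C (nat_lit 0xde3f82) (nat_lit 0x0) (nat_lit 0x96bf569a605e5c)
  (PL.C (nat_lit 0xdebe62) (nat_lit 0x0) (nat_lit 0x3a663e269ada1c)
  (PL.C (nat_lit 0xdedeec) (nat_lit 0x25e6d283ec249ac) (nat_lit 0x0)
  (PL.C (nat_lit 0xdfaa39) (nat_lit 0x0) (nat_lit 0x1b4f76c2ba15b40)
  (PL.C (nat_lit 0xe00619) (nat_lit 0x2653216b5241567) (nat_lit 0x0)
  (PL.C (nat_lit 0xe09ec2) (nat_lit 0x1aad9a0714b25ea) (nat_lit 0x0)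
  (PL.C (nat_lit 0xe17e28) (nat_lit 0x0) (nat_lit 0x968904a6210e4)
  (PL.C (nat_lit 0xe205e4) (nat_lit 0x8353224c80943) (nat_lit 0x0)
  (PL.C (nat_lit 0xe2153b) (nat_lit 0x0) (nat_lit 0x1ef01d1f60dc7de)
  (PL.C (nat_lit 0xe295aa) (nat_lit 0x364db8e7028e7de) (nat_lit 0x0)
  (PL.C (nat_lit 0xe2a8ce) (nat_lit 0x55f59dc5d2ae52) (nat_lit 0x0)
  (PL.C (nat_lit 0xe361c4) (nat_lit 0x0) (nat_lit 0xfa88140c3d6b1)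
  (PL.C (nat_lit 0xe3abac) (nat_lit 0x0) (nat_lit 0x2aa6ce6546d08) gp3_0_54))))))))))))))))))))

noncomputable def gp3_0_52 : PL :=
  (PL.C (nat_lit 0xd63b24) (nat_lit 0x0) (nat_lit 0x675a990bd1cff4)
  (PL.C (nat_lit 0xd68bbb) (nat_lit 0x0) (nat_lit 0xf4fd68b7ad5000)
  (PL.C (nat_lit 0xd6c0cc) (nat_lit 0x0) (nat_lit 0xdcd17fe9a71ebc)
  (PL.C (nat_lit 0xd7028f) (nat_lit 0x0) (nat_lit 0x17d85b8302af361)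
  (PL.C (nat_lit 0xd7521e) (nat_lit 0x0) (nat_lit 0x7bc7ecb9e77302)
  (PL.C (nat_lit 0xd7611c) (nat_lit 0x9d29e6b5b0d68d) (nat_lit 0x0)
  (PL.C (nat_lit 0xd76cd8) (nat_lit 0x0) (nat_lit 0x198752995eca1c)
  (PL.C (nat_lit 0xd7bde2) (nat_lit 0x0) (nat_lit 0x80b1068c1a0d8b)
  (PL.C (nat_lit 0xd83c15) (nat_lit 0x2d156964bfd429) (nat_lit 0x0)
  (PL.C (nat_lit 0xd87e5d) (nat_lit 0x0) (nat_lit 0x3ff0bf21f4dc89)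
  (PL.C (nat_lit 0xd883d6) (nat_lit 0x7e23e2c317ca70) (nat_lit 0x0)
  (PL.C (nat_lit 0xd91324) (nat_lit 0x0) (nat_lit 0x3f588947f0ccaf7)
  (PL.C (nat_lit 0xd9559d) (nat_lit 0x0) (nat_lit 0xc51a72de7df32f)
  (PL.C (nat_lit 0xd9c263) (nat_lit 0x0) (nat_lit 0x1dfb0b79829ed55)
  (PL.C (nat_lit 0xd9cb38) (nat_lit 0x0) (nat_lit 0x42a279c72db84f)
  (PL.C (nat_lit 0xd9e9c8) (nat_lit 0xb489c2a0faa27) (nat_lit 0x0)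
  (PL.C (nat_lit 0xda2dc4) (nat_lit 0x0) (nat_lit 0x8080440100b41f)
  (PL.C (nat_lit 0xda3eb3) (nat_lit 0x0) (nat_lit 0x27169b7b7fffb4)
  (PL.C (nat_lit 0xda7bc7) (nat_lit 0x0) (nat_lit 0x149cb7fdd32525b)
  (PL.C (nat_lit 0xdabdc1) (nat_lit 0x0) (nat_lit 0x57d096c56cd7f2) gp3_0_53))))))))))))))))))))

noncomputable def gp3_0_51 : PL :=
  (PL.C (nat_lit 0xcdc364) (nat_lit 0x3296b3c3e25619) (nat_lit 0x0)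
  (PL.C (nat_lit 0xcddcbb) (nat_lit 0x0) (nat_lit 0x2dd375b32ecfe8a)
  (PL.C (nat_lit 0xcedd53) (nat_lit 0x1b93b0de86f14a6) (nat_lit 0x0)
  (PL.C (nat_lit 0xcf014d) (nat_lit 0x1318de66f698cf) (nat_lit 0x0)
  (PL.C (nat_lit 0xcf65fd) (nat_lit 0x0) (nat_lit 0x1c3bbabb8ca1cb)
  (PL.C (nat_lit 0xd14c5a) (nat_lit 0x467a4f7223491f) (nat_lit 0x0)
  (PL.C (nat_lit 0xd1c734) (nat_lit 0x15dd511d731454c) (nat_lit 0x0)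
  (PL.C (nat_lit 0xd21b12) (nat_lit 0x35eec8273f90e5) (nat_lit 0x0)
  (PL.C (nat_lit 0xd23b64) (nat_lit 0x0) (nat_lit 0x71b0c113b38fd8)
  (PL.C (nat_lit 0xd2708f) (nat_lit 0x0) (nat_lit 0xe56183e6c90b6)
  (PL.C (nat_lit 0xd2a49c) (nat_lit 0x0) (nat_lit 0x1301cb6eaa729e)
  (PL.C (nat_lit 0xd2d854) (nat_lit 0x87a28e1132de13) (nat_lit 0x0)
  (PL.C (nat_lit 0xd30b51) (nat_lit 0x0) (nat_lit 0x27169b7b7fffb4)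
  (PL.C (nat_lit 0xd31cdc) (nat_lit 0x0) (nat_lit 0x820362a8f28c70)
  (PL.C (nat_lit 0xd35031) (nat_lit 0x7d93f4d68f3e438) (nat_lit 0x0)
  (PL.C (nat_lit 0xd3bd6e) (nat_lit 0x21b4a993dd8018f) (nat_lit 0x0)
  (PL.C (nat_lit 0xd493dc) (nat_lit 0x0) (nat_lit 0x172bbd6a8e9e05)
  (PL.C (nat_lit 0xd4eb94) (nat_lit 0x0) (nat_lit 0xdcd17fe9a71ebc)
  (PL.C (nat_lit 0xd5cc9e) (nat_lit 0xac82338e1258f2) (nat_lit 0x0)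
  (PL.C (nat_lit 0xd5e15c) (nat_lit 0x1416c7f05b55c14) (nat_lit 0x0) gp3_0_52))))))))))))))))))))

noncomputable def gp3_0_50 : PL :=
  (PL.C (nat_lit 0xc7e93f) (nat_lit 0x1251e7167ecd05) (nat_lit 0x0)
  (PL.C (nat_lit 0xc80d2a) (nat_lit 0x0) (nat_lit 0x329d1a8e08d64fd)
  (PL.C (nat_lit 0xc86d51) (nat_lit 0x145400bd298472) (nat_lit 0x0)
  (PL.C (nat_lit 0xc8744a) (nat_lit 0xd66318a98232ab) (nat_lit 0x0)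
  (PL.C (nat_lit 0xc8f578) (nat_lit 0x0) (nat_lit 0x42a279c72db84f)
  (PL.C (nat_lit 0xc94872) (nat_lit 0x72bca909afc69a) (nat_lit 0x0)
  (PL.C (nat_lit 0xc9c606) (nat_lit 0x43d062051817be) (nat_lit 0x0)
  (PL.C (nat_lit 0xc9cfd4) (nat_lit 0x883b72d1698ee7) (nat_lit 0x0)
  (PL.C (nat_lit 0xca1bbf) (nat_lit 0x2fe04ad63c2c9d3) (nat_lit 0x0)
  (PL.C (nat_lit 0xca67ac) (nat_lit 0x0) (nat_lit 0x820362a8f28c70)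
  (PL.C (nat_lit 0xca9803) (nat_lit 0x0) (nat_lit 0x4d5fd0e3319246)
  (PL.C (nat_lit 0xcac722) (nat_lit 0x1db0fb36cce00) (nat_lit 0x0)
  (PL.C (nat_lit 0xcb0b1a) (nat_lit 0x0) (nat_lit 0x9e42075a19a008)
  (PL.C (nat_lit 0xcb1d6c) (nat_lit 0x0) (nat_lit 0x9c084e4fcb6449)
  (PL.C (nat_lit 0xcbd6ab) (nat_lit 0x10a9d48ad6f83d) (nat_lit 0x0)
  (PL.C (nat_lit 0xcbf472) (nat_lit 0x464c71ab8a03577) (nat_lit 0x0)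
  (PL.C (nat_lit 0xcc35d5) (nat_lit 0x0) (nat_lit 0xac71271443ec7b)
  (PL.C (nat_lit 0xcca446) (nat_lit 0x144e7068380b06c) (nat_lit 0x0)
  (PL.C (nat_lit 0xcd8128) (nat_lit 0x0) (nat_lit 0x2cc5a92baab6a)
  (PL.C (nat_lit 0xcdaeb6) (nat_lit 0x0) (nat_lit 0x6850fed3a5928) gp3_0_51))))))))))))))))))))

noncomputable def gp3_0_49 : PL :=
  (PL.C (nat_lit 0xc11832) (nat_lit 0x0) (nat_lit 0x15629b1004080eb)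
  (PL.C (nat_lit 0xc174ec) (nat_lit 0x0) (nat_lit 0xd65e8bd2e2f706)
  (PL.C (nat_lit 0xc18388) (nat_lit 0x0) (nat_lit 0x203a6972bc84bd)
  (PL.C (nat_lit 0xc28584) (nat_lit 0x28d767105deb45e) (nat_lit 0x0)
  (PL.C (nat_lit 0xc2d94e) (nat_lit 0x0) (nat_lit 0x1036e5b4cc83e76)
  (PL.C (nat_lit 0xc39b18) (nat_lit 0x0) (nat_lit 0x33169014740a81)
  (PL.C (nat_lit 0xc3f91c) (nat_lit 0x15ee635698a77d) (nat_lit 0x0)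
  (PL.C (nat_lit 0xc4499c) (nat_lit 0x0) (nat_lit 0x481a885ca32407)
  (PL.C (nat_lit 0xc54a28) (nat_lit 0x149949524fc0f3e) (nat_lit 0x0)
  (PL.C (nat_lit 0xc56f64) (nat_lit 0x0) (nat_lit 0x991041c4fd7f70)
  (PL.C (nat_lit 0xc58692) (nat_lit 0x7e23e2c317ca70) (nat_lit 0x0)
  (PL.C (nat_lit 0xc5da7d) (nat_lit 0x0) (nat_lit 0x1890dd80ee6c641)
  (PL.C (nat_lit 0xc5e96e) (nat_lit 0x8ed4253ca57f54) (nat_lit 0x0)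
  (PL.C (nat_lit 0xc63d83) (nat_lit 0x0) (nat_lit 0x1a7484abcac822f)
  (PL.C (nat_lit 0xc6534c) (nat_lit 0x2a86a38c3c2833) (nat_lit 0x0)
  (PL.C (nat_lit 0xc65d33) (nat_lit 0x0) (nat_lit 0xf88aeb5785684)
  (PL.C (nat_lit 0xc69f44) (nat_lit 0x0) (nat_lit 0x17455008251aabd)
  (PL.C (nat_lit 0xc6f147) (nat_lit 0x2f198867fa2db58) (nat_lit 0x0)
  (PL.C (nat_lit 0xc7227c) (nat_lit 0x0) (nat_lit 0x1be648537b61bc4)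
  (PL.C (nat_lit 0xc77716) (nat_lit 0xbac87f3389ce9f) (nat_lit 0x0) gp3_0_50))))))))))))))))))))

noncomputable def gp3_0_48 : PL :=
  (PL.C (nat_lit 0xb919ae) (nat_lit 0x0) (nat_lit 0x14c6ac40370c471)
  (PL.C (nat_lit 0xb96698) (nat_lit 0x0) (nat_lit 0x54c8b897861c88)
  (PL.C (nat_lit 0xb97652) (nat_lit 0x233f9bab13c30a0) (nat_lit 0x0)
  (PL.C (nat_lit 0xb99f5e) (nat_lit 0x15909353ae37b9) (nat_lit 0x0)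
  (PL.C (nat_lit 0xb9e032) (nat_lit 0x0) (nat_lit 0x260e3d472b4dd97)
  (PL.C (nat_lit 0xbb3ef6) (nat_lit 0x0) (nat_lit 0x27033e83cf3731)
  (PL.C (nat_lit 0xbb5bde) (nat_lit 0x74fa50d6056a2) (nat_lit 0x0)
  (PL.C (nat_lit 0xbb68db) (nat_lit 0x0) (nat_lit 0x8cfa6c783591c2b)
  (PL.C (nat_lit 0xbb8ea4) (nat_lit 0x0) (nat_lit 0xa7806dd366d494)
  (PL.C (nat_lit 0xbc97e7) (nat_lit 0x0) (nat_lit 0x17d85b8302af361)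
  (PL.C (nat_lit 0xbccedd) (nat_lit 0x3f6fd5c5969a7c6) (nat_lit 0x0)
  (PL.C (nat_lit 0xbd14ba) (nat_lit 0xbac87f3389ce9f) (nat_lit 0x0)
  (PL.C (nat_lit 0xbd9d4a) (nat_lit 0x0) (nat_lit 0x260e3d472b4dd97)
  (PL.C (nat_lit 0xbecc74) (nat_lit 0x1414abadcb83ff) (nat_lit 0x0)
  (PL.C (nat_lit 0xbed967) (nat_lit 0x0) (nat_lit 0x2e454f584fe99f)
  (PL.C (nat_lit 0xbf45d2) (nat_lit 0x2c8b99d58201646) (nat_lit 0x0)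
  (PL.C (nat_lit 0xc045f3) (nat_lit 0x9c3e39a920459c) (nat_lit 0x0)
  (PL.C (nat_lit 0xc05631) (nat_lit 0x0) (nat_lit 0x5890c815bf08)
  (PL.C (nat_lit 0xc070ec) (nat_lit 0x8353224c80943) (nat_lit 0x0)
  (PL.C (nat_lit 0xc0c2ae) (nat_lit 0x0) (nat_lit 0xcc1f50dd1cb6c0) gp3_0_49))))))))))))))))))))

noncomputable def gp3_0_47 : PL :=
  (PL.C (nat_lit 0xb1f3a5) (nat_lit 0x0) (nat_lit 0xd6822b3ebceaf)
  (PL.C (nat_lit 0xb27abc) (nat_lit 0x48124f9fb6d824c) (nat_lit 0x0)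
  (PL.C (nat_lit 0xb2bee2) (nat_lit 0x26542a8a4ef29c) (nat_lit 0x0)
  (PL.C (nat_lit 0xb3631c) (nat_lit 0x0) (nat_lit 0x601409da4f54bf)
  (PL.C (nat_lit 0xb3a0ba) (nat_lit 0x0) (nat_lit 0x1819df52d379f6)
  (PL.C (nat_lit 0xb3b659) (nat_lit 0x0) (nat_lit 0xb7b8e7aec52279)
  (PL.C (nat_lit 0xb3bce4) (nat_lit 0xe653d4be0022d9) (nat_lit 0x0)
  (PL.C (nat_lit 0xb3cd28) (nat_lit 0x10c42f0d8f3034) (nat_lit 0x0)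
  (PL.C (nat_lit 0xb540b4) (nat_lit 0x0) (nat_lit 0x87cfe0f1e800e5)
  (PL.C (nat_lit 0xb548fc) (nat_lit 0x92974b52c2d8dc) (nat_lit 0x0)
  (PL.C (nat_lit 0xb56c89) (nat_lit 0xab0438597fe8fb) (nat_lit 0x0)
  (PL.C (nat_lit 0xb5da38) (nat_lit 0x10c42f0d8f3034) (nat_lit 0x0)
  (PL.C (nat_lit 0xb68929) (nat_lit 0x2d156964bfd429) (nat_lit 0x0)
  (PL.C (nat_lit 0xb73eb4) (nat_lit 0x0) (nat_lit 0x3f588947f0ccaf7)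
  (PL.C (nat_lit 0xb776d1) (nat_lit 0x9c3e39a920459c) (nat_lit 0x0)
  (PL.C (nat_lit 0xb7da18) (nat_lit 0x0) (nat_lit 0x250dd08240b694)
  (PL.C (nat_lit 0xb7e346) (nat_lit 0x0) (nat_lit 0x4f623d3616318c)
  (PL.C (nat_lit 0xb817b8) (nat_lit 0x0) (nat_lit 0x2d8c666fc4dc98)
  (PL.C (nat_lit 0xb86704) (nat_lit 0x0) (nat_lit 0x1df06e23372547)
  (PL.C (nat_lit 0xb86f23) (nat_lit 0x311707043b04644) (nat_lit 0x0) gp3_0_48))))))))))))))))))))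

noncomputable def gp3_0_46 : PL :=
  (PL.C (nat_lit 0xab054f) (nat_lit 0x0) (nat_lit 0x32384330efcba5f)
  (PL.C (nat_lit 0xab2f9c) (nat_lit 0x0) (nat_lit 0x1a8c1c436b3973)
  (PL.C (nat_lit 0xabf95a) (nat_lit 0x0) (nat_lit 0x123aa895a87924a)
  (PL.C (nat_lit 0xac04f4) (nat_lit 0x0) (nat_lit 0x1a05415decf853e)
  (PL.C (nat_lit 0xac5b0c) (nat_lit 0x178eab358f16c1) (nat_lit 0x0)
  (PL.C (nat_lit 0xacbfde) (nat_lit 0x0) (nat_lit 0x883a4967c283132)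
  (PL.C (nat_lit 0xad020a) (nat_lit 0x4907c8d1967386) (nat_lit 0x0)
  (PL.C (nat_lit 0xad0862) (nat_lit 0x0) (nat_lit 0x1b50a3189bc1b0)
  (PL.C (nat_lit 0xad7456) (nat_lit 0x0) (nat_lit 0xd54ee062d622da)
  (PL.C (nat_lit 0xadbb96) (nat_lit 0x466c612f945111) (nat_lit 0x0)
  (PL.C (nat_lit 0xadff4c) (nat_lit 0x0) (nat_lit 0xb2683dcab8b963)
  (PL.C (nat_lit 0xae8bca) (nat_lit 0x51b81afe1f4f94) (nat_lit 0x0)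
  (PL.C (nat_lit 0xaee0a3) (nat_lit 0x0) (nat_lit 0x16399800c44459)
  (PL.C (nat_lit 0xaf5462) (nat_lit 0x0) (nat_lit 0x2c27e1029138baf)
  (PL.C (nat_lit 0xafa2d8) (nat_lit 0x0) (nat_lit 0x32d8741e00472)
  (PL.C (nat_lit 0xafb7fc) (nat_lit 0x1a9f6eb3b591287) (nat_lit 0x0)
  (PL.C (nat_lit 0xafc6d4) (nat_lit 0x0) (nat_lit 0x341b174a40a6f3)
  (PL.C (nat_lit 0xafedcb) (nat_lit 0x388307a7408c9b) (nat_lit 0x0)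
  (PL.C (nat_lit 0xb0f823) (nat_lit 0x0) (nat_lit 0x20f1c390467fd45)
  (PL.C (nat_lit 0xb177f4) (nat_lit 0x0) (nat_lit 0x1df06e23372547) gp3_0_47))))))))))))))))))))

noncomputable def gp3_0_45 : PL :=
  (PL.C (nat_lit 0xa3c839) (nat_lit 0x12222342267528) (nat_lit 0x0)
  (PL.C (nat_lit 0xa3e026) (nat_lit 0x0) (nat_lit 0xf00abf6a850ead)
  (PL.C (nat_lit 0xa4db28) (nat_lit 0x0) (nat_lit 0x3ce6aff04e3239)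
  (PL.C (nat_lit 0xa5499b) (nat_lit 0x0) (nat_lit 0x169693a560fe05)
  (PL.C (nat_lit 0xa56e8c) (nat_lit 0x2c3b58add5cd61) (nat_lit 0x0)
  (PL.C (nat_lit 0xa5cdb4) (nat_lit 0x0) (nat_lit 0x9c084e4fcb6449)
  (PL.C (nat_lit 0xa63182) (nat_lit 0x72ba6d2fe2467d) (nat_lit 0x0)
  (PL.C (nat_lit 0xa64bb8) (nat_lit 0x7a4cc39aa52e7) (nat_lit 0x0)
  (PL.C (nat_lit 0xa69062) (nat_lit 0x72bca909afc69a) (nat_lit 0x0)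
  (PL.C (nat_lit 0xa73864) (nat_lit 0xa7a8eb0eae7ff4) (nat_lit 0x0)
  (PL.C (nat_lit 0xa7733f) (nat_lit 0xd855f93be04af1) (nat_lit 0x0)
  (PL.C (nat_lit 0xa936f2) (nat_lit 0x0) (nat_lit 0x5af9d197adf6ed)
  (PL.C (nat_lit 0xa942ad) (nat_lit 0x0) (nat_lit 0x252efcb39fd9eb0)
  (PL.C (nat_lit 0xa96faa) (nat_lit 0x21b4a993dd8018f) (nat_lit 0x0)
  (PL.C (nat_lit 0xa9c508) (nat_lit 0x0) (nat_lit 0x17829ff03dedd80)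
  (PL.C (nat_lit 0xa9cd82) (nat_lit 0x9381c560f2ca10) (nat_lit 0x0)
  (PL.C (nat_lit 0xa9eb04) (nat_lit 0xbe325af0996fc25) (nat_lit 0x0)
  (PL.C (nat_lit 0xaa1342) (nat_lit 0x0) (nat_lit 0x5c134eaa4fd4b)
  (PL.C (nat_lit 0xaa227e) (nat_lit 0x556851cf24365a) (nat_lit 0x0)
  (PL.C (nat_lit 0xaa839e) (nat_lit 0x67a180377c4896) (nat_lit 0x0) gp3_0_46))))))))))))))))))))

noncomputable def gp3_0_44 : PL :=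
  (PL.C (nat_lit 0x9e5dfe) (nat_lit 0x0) (nat_lit 0x2ad68d2b1d4371)
  (PL.C (nat_lit 0x9eb3a4) (nat_lit 0x0) (nat_lit 0x601409da4f54bf)
  (PL.C (nat_lit 0x9ec10c) (nat_lit 0xb164652019422a) (nat_lit 0x0)
  (PL.C (nat_lit 0x9f33c3) (nat_lit 0x1abab0e7857985) (nat_lit 0x0)
  (PL.C (nat_lit 0x9f5ef0) (nat_lit 0x0) (nat_lit 0x72aec057e518)
  (PL.C (nat_lit 0x9f7782) (nat_lit 0x0) (nat_lit 0xa1a058296f75d0)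
  (PL.C (nat_lit 0x9f8244) (nat_lit 0x1a41518e14bea53) (nat_lit 0x0)
  (PL.C (nat_lit 0x9f9d22) (nat_lit 0x0) (nat_lit 0x5bafe0d497de9ee)
  (PL.C (nat_lit 0xa0247c) (nat_lit 0x1129969ba22a5f0) (nat_lit 0x0)
  (PL.C (nat_lit 0xa02f96) (nat_lit 0x2708af21a4758b8) (nat_lit 0x0)
  (PL.C (nat_lit 0xa06cf2) (nat_lit 0x35eec8273f90e5) (nat_lit 0x0)
  (PL.C (nat_lit 0xa0d6ee) (nat_lit 0x238d7377b15d2f6) (nat_lit 0x0)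
  (PL.C (nat_lit 0xa11b43) (nat_lit 0x0) (nat_lit 0xc0c9f0df7be46d9)
  (PL.C (nat_lit 0xa24eff) (nat_lit 0x0) (nat_lit 0xc51a72de7df32f)
  (PL.C (nat_lit 0xa2501c) (nat_lit 0x0) (nat_lit 0xb5dc3d932377f4)
  (PL.C (nat_lit 0xa25cb5) (nat_lit 0x0) (nat_lit 0x5890c815bf08)
  (PL.C (nat_lit 0xa29321) (nat_lit 0x0) (nat_lit 0x24daa10dbdc65f)
  (PL.C (nat_lit 0xa2f06c) (nat_lit 0x0) (nat_lit 0x8080440100b41f)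
  (PL.C (nat_lit 0xa3007a) (nat_lit 0x0) (nat_lit 0x467c60a63187bf2)
  (PL.C (nat_lit 0xa3baa4) (nat_lit 0x0) (nat_lit 0x14af3080a599ce6) gp3_0_45))))))))))))))))))))

noncomputable def gp3_0_43 : PL :=
  (PL.C (nat_lit 0x97c7c8) (nat_lit 0x0) (nat_lit 0x198752995eca1c)
  (PL.C (nat_lit 0x97faa8) (nat_lit 0x0) (nat_lit 0x131eeaabed2636)
  (PL.C (nat_lit 0x99266d) (nat_lit 0x1a5c022d5118a86) (nat_lit 0x0)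
  (PL.C (nat_lit 0x996bd8) (nat_lit 0x0) (nat_lit 0x54c8b897861c88)
  (PL.C (nat_lit 0x9a1b4a) (nat_lit 0x0) (nat_lit 0xf7de49a4109fbd)
  (PL.C (nat_lit 0x9a3398) (nat_lit 0x0) (nat_lit 0x3ce6aff04e3239)
  (PL.C (nat_lit 0x9a4168) (nat_lit 0x5cfc4506a009b0) (nat_lit 0x0)
  (PL.C (nat_lit 0x9a7d51) (nat_lit 0x1b93b0de86f14a6) (nat_lit 0x0)
  (PL.C (nat_lit 0x9b087a) (nat_lit 0x1c854c41d11447) (nat_lit 0x0)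
  (PL.C (nat_lit 0x9b3ade) (nat_lit 0x0) (nat_lit 0xc88314b0cb58e9)
  (PL.C (nat_lit 0x9b6ee6) (nat_lit 0x0) (nat_lit 0xf7de49a4109fbd)
  (PL.C (nat_lit 0x9baa14) (nat_lit 0x0) (nat_lit 0x71b0c113b38fd8)
  (PL.C (nat_lit 0x9bb0ef) (nat_lit 0x0) (nat_lit 0x149cb7fdd32525b)
  (PL.C (nat_lit 0x9bf601) (nat_lit 0xe7fd9e2d7490a) (nat_lit 0x0)
  (PL.C (nat_lit 0x9c40e6) (nat_lit 0x0) (nat_lit 0x883a4967c283132)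
  (PL.C (nat_lit 0x9c8f1a) (nat_lit 0x2263c83fc7b964) (nat_lit 0x0)
  (PL.C (nat_lit 0x9ce87a) (nat_lit 0x1aad9a0714b25ea) (nat_lit 0x0)
  (PL.C (nat_lit 0x9d1d12) (nat_lit 0x0) (nat_lit 0x46128a099690343)
  (PL.C (nat_lit 0x9d60bf) (nat_lit 0xd855f93be04af1) (nat_lit 0x0)
  (PL.C (nat_lit 0x9d8488) (nat_lit 0x0) (nat_lit 0x968904a6210e4) gp3_0_44))))))))))))))))))))

noncomputable def gp3_0_42 : PL :=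
  (PL.C (nat_lit 0x917f22) (nat_lit 0x0) (nat_lit 0xeb871cb570524a)
  (PL.C (nat_lit 0x91a7da) (nat_lit 0x12ace16b47ba879) (nat_lit 0x0)
  (PL.C (nat_lit 0x91d3d6) (nat_lit 0x0) (nat_lit 0x14c6ac40370c471)
  (PL.C (nat_lit 0x9211e4) (nat_lit 0x1edd2a81efb35cc) (nat_lit 0x0)
  (PL.C (nat_lit 0x926c2e) (nat_lit 0x0) (nat_lit 0x123aa895a87924a)
  (PL.C (nat_lit 0x92a25c) (nat_lit 0x5d0632b61fd35b) (nat_lit 0x0)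
  (PL.C (nat_lit 0x92cf43) (nat_lit 0x12ece63a94d4d21) (nat_lit 0x0)
  (PL.C (nat_lit 0x92e17c) (nat_lit 0x0) (nat_lit 0x4a1e82e7b76b27)
  (PL.C (nat_lit 0x9318bd) (nat_lit 0x0) (nat_lit 0x698d9f06a2ed94)
  (PL.C (nat_lit 0x93e054) (nat_lit 0x11121ec30c0d2f2) (nat_lit 0x0)
  (PL.C (nat_lit 0x94016a) (nat_lit 0x257e9c3b0de9eb2e) (nat_lit 0x0)
  (PL.C (nat_lit 0x947eec) (nat_lit 0x0) (nat_lit 0xb5dc3d932377f4)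
  (PL.C (nat_lit 0x955966) (nat_lit 0xac82338e1258f2) (nat_lit 0x0)
  (PL.C (nat_lit 0x95bf2c) (nat_lit 0x15820fd18d9bec9) (nat_lit 0x0)
  (PL.C (nat_lit 0x95ed07) (nat_lit 0x404527d84b1db7) (nat_lit 0x0)
  (PL.C (nat_lit 0x95f781) (nat_lit 0x525ade47cbef8f9) (nat_lit 0x0)
  (PL.C (nat_lit 0x96811b) (nat_lit 0xd64f3726fcec3d) (nat_lit 0x0)
  (PL.C (nat_lit 0x96ae98) (nat_lit 0x0) (nat_lit 0x10199f1cb847bd)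
  (PL.C (nat_lit 0x971b34) (nat_lit 0xa1e99e441e1fa3) (nat_lit 0x0)
  (PL.C (nat_lit 0x973cb3) (nat_lit 0x14b0c3c1f06ff13) (nat_lit 0x0) gp3_0_43))))))))))))))))))))

noncomputable def gp3_0_41 : PL :=
  (PL.C (nat_lit 0x8c120c) (nat_lit 0x0) (nat_lit 0x3899260af5817cb)
  (PL.C (nat_lit 0x8c2798) (nat_lit 0x683ae5abaaa929) (nat_lit 0x0)
  (PL.C (nat_lit 0x8c4b0a) (nat_lit 0x0) (nat_lit 0x1debbf00766907)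
  (PL.C (nat_lit 0x8c9038) (nat_lit 0x0) (nat_lit 0x2d8c666fc4dc98)
  (PL.C (nat_lit 0x8cb236) (nat_lit 0x0) (nat_lit 0xeb871cb570524a)
  (PL.C (nat_lit 0x8cbde8) (nat_lit 0x0) (nat_lit 0x43f161fcb860a5)
  (PL.C (nat_lit 0x8d28f4) (nat_lit 0x0) (nat_lit 0x4351dd195e2d4d)
  (PL.C (nat_lit 0x8db7e8) (nat_lit 0x0) (nat_lit 0x1180d5a17af24d)
  (PL.C (nat_lit 0x8ed218) (nat_lit 0x3d3d7b6ac3793) (nat_lit 0x0)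
  (PL.C (nat_lit 0x8f07d2) (nat_lit 0x152d56af54bd0) (nat_lit 0x0)
  (PL.C (nat_lit 0x8f570a) (nat_lit 0x0) (nat_lit 0x17042831364d818)
  (PL.C (nat_lit 0x8f8c14) (nat_lit 0x2a86a38c3c2833) (nat_lit 0x0)
  (PL.C (nat_lit 0x8fd3ec) (nat_lit 0x0) (nat_lit 0x7a16710ebdb086)
  (PL.C (nat_lit 0x90280e) (nat_lit 0x0) (nat_lit 0x211913e023bdf52)
  (PL.C (nat_lit 0x90543e) (nat_lit 0x9e8d101f0cf60) (nat_lit 0x0)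
  (PL.C (nat_lit 0x9057e4) (nat_lit 0x0) (nat_lit 0x5618490d520879)
  (PL.C (nat_lit 0x905f19) (nat_lit 0x18ccfd3d301f3e) (nat_lit 0x0)
  (PL.C (nat_lit 0x90e3be) (nat_lit 0x0) (nat_lit 0x32ab20d32f11525)
  (PL.C (nat_lit 0x912c42) (nat_lit 0x0) (nat_lit 0xd54ee062d622da)
  (PL.C (nat_lit 0x9173d8) (nat_lit 0x0) (nat_lit 0x7c375ed656ad3d) gp3_0_42))))))))))))))))))))

noncomputable def gp3_0_40 : PL :=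
  (PL.C (nat_lit 0x871002) (nat_lit 0x33b0c0be4e8067b) (nat_lit 0x0)
  (PL.C (nat_lit 0x872f6c) (nat_lit 0x0) (nat_lit 0xffab26fc72a88)
  (PL.C (nat_lit 0x875cbc) (nat_lit 0x0) (nat_lit 0x87cfe0f1e800e5)
  (PL.C (nat_lit 0x877197) (nat_lit 0x0) (nat_lit 0x252efcb39fd9eb0)
  (PL.C (nat_lit 0x87e472) (nat_lit 0x15909353ae37b9) (nat_lit 0x0)
  (PL.C (nat_lit 0x87f84c) (nat_lit 0xbe325af0996fc25) (nat_lit 0x0)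
  (PL.C (nat_lit 0x8821ef) (nat_lit 0xd64f3726fcec3d) (nat_lit 0x0)
  (PL.C (nat_lit 0x886611) (nat_lit 0xf210d3e63d46fd) (nat_lit 0x0)
  (PL.C (nat_lit 0x886d84) (nat_lit 0x0) (nat_lit 0x67a711a935f6c)
  (PL.C (nat_lit 0x88ac61) (nat_lit 0x0) (nat_lit 0x344a48104833698)
  (PL.C (nat_lit 0x891f24) (nat_lit 0x0) (nat_lit 0x2bbd0c6738d98c)
  (PL.C (nat_lit 0x893dd2) (nat_lit 0x0) (nat_lit 0x173f0c5fef1fe65c)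
  (PL.C (nat_lit 0x8992a7) (nat_lit 0x0) (nat_lit 0x5595d93341485a)
  (PL.C (nat_lit 0x89e8e2) (nat_lit 0x1e293b3159a9ac6) (nat_lit 0x0)
  (PL.C (nat_lit 0x8a00de) (nat_lit 0x67a180377c4896) (nat_lit 0x0)
  (PL.C (nat_lit 0x8a43fe) (nat_lit 0x7131827ec2e89d) (nat_lit 0x0)
  (PL.C (nat_lit 0x8b0f65) (nat_lit 0x0) (nat_lit 0x2dd375b32ecfe8a)
  (PL.C (nat_lit 0x8b8747) (nat_lit 0x0) (nat_lit 0x38152bf6688e2f2)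
  (PL.C (nat_lit 0x8b883c) (nat_lit 0x543d33acdf5d90) (nat_lit 0x0)
  (PL.C (nat_lit 0x8bc1d9) (nat_lit 0x0) (nat_lit 0x20634901c913fd) gp3_0_41))))))))))))))))))))

noncomputable def gp3_0_39 : PL :=
  (PL.C (nat_lit 0x81e634) (nat_lit 0x0) (nat_lit 0x14af3080a599ce6)
  (PL.C (nat_lit 0x839f98) (nat_lit 0xc5e16daa508b7b) (nat_lit 0x0)
  (PL.C (nat_lit 0x83a7c5) (nat_lit 0x18e5087ea84cdb3) (nat_lit 0x0)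
  (PL.C (nat_lit 0x83af0c) (nat_lit 0x0) (nat_lit 0x5618490d520879)
  (PL.C (nat_lit 0x83e6fe) (nat_lit 0x144e7068380b06c) (nat_lit 0x0)
  (PL.C (nat_lit 0x83f0f4) (nat_lit 0x3f0c7219a1452b) (nat_lit 0x0)
  (PL.C (nat_lit 0x843788) (nat_lit 0x12ae33a480c4e7) (nat_lit 0x0)
  (PL.C (nat_lit 0x843e22) (nat_lit 0x8a64878ee239d2) (nat_lit 0x0)
  (PL.C (nat_lit 0x84a0da) (nat_lit 0x0) (nat_lit 0x46128a099690343)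
  (PL.C (nat_lit 0x84c1a8) (nat_lit 0x337b54125bf4d7) (nat_lit 0x0)
  (PL.C (nat_lit 0x84d9fb) (nat_lit 0x0) (nat_lit 0xf88aeb5785684)
  (PL.C (nat_lit 0x85462a) (nat_lit 0x51b81afe1f4f94) (nat_lit 0x0)
  (PL.C (nat_lit 0x855e1c) (nat_lit 0x0) (nat_lit 0x1be648537b61bc4)
  (PL.C (nat_lit 0x859e36) (nat_lit 0x4ca9919421b7d8) (nat_lit 0x0)
  (PL.C (nat_lit 0x85a2dc) (nat_lit 0x883b72d1698ee7) (nat_lit 0x0)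
  (PL.C (nat_lit 0x86304c) (nat_lit 0x4d81481d3668c1) (nat_lit 0x0)
  (PL.C (nat_lit 0x868404) (nat_lit 0x0) (nat_lit 0x991041c4fd7f70)
  (PL.C (nat_lit 0x86ad35) (nat_lit 0x0) (nat_lit 0x16399800c44459)
  (PL.C (nat_lit 0x86bd2a) (nat_lit 0x0) (nat_lit 0x6fd7e4c5e8b17)
  (PL.C (nat_lit 0x86efc8) (nat_lit 0x0) (nat_lit 0x43f161fcb860a5) gp3_0_40))))))))))))))))))))

noncomputable def gp3_0_38 : PL :=
  (PL.C (nat_lit 0x7c4001) (nat_lit 0x6f8e734b3f3fc4) (nat_lit 0x0)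
  (PL.C (nat_lit 0x7cd4a4) (nat_lit 0x11121ec30c0d2f2) (nat_lit 0x0)
  (PL.C (nat_lit 0x7cf092) (nat_lit 0x0) (nat_lit 0x2c27e1029138baf)
  (PL.C (nat_lit 0x7d60c7) (nat_lit 0x0) (nat_lit 0xd6822b3ebceaf)
  (PL.C (nat_lit 0x7dba9a) (nat_lit 0x0) (nat_lit 0x17042831364d818)
  (PL.C (nat_lit 0x7ddf3e) (nat_lit 0x0) (nat_lit 0xcd37a39df3fc08)
  (PL.C (nat_lit 0x7e346b) (nat_lit 0x0) (nat_lit 0x1503d32a4cac829)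
  (PL.C (nat_lit 0x7e68dc) (nat_lit 0x0) (nat_lit 0x22f97b66659198d)
  (PL.C (nat_lit 0x7e7395) (nat_lit 0x3f6fd5c5969a7c6) (nat_lit 0x0)
  (PL.C (nat_lit 0x7ebbc5) (nat_lit 0x1a5c022d5118a86) (nat_lit 0x0)
  (PL.C (nat_lit 0x7f32f8) (nat_lit 0x0) (nat_lit 0x131eeaabed2636)
  (PL.C (nat_lit 0x7f3b9a) (nat_lit 0x30a06342aacf7f1) (nat_lit 0x0)
  (PL.C (nat_lit 0x7fbea3) (nat_lit 0x14afdb81b338f5) (nat_lit 0x0)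
  (PL.C (nat_lit 0x802ea2) (nat_lit 0x11edd27cc24f0af) (nat_lit 0x0)
  (PL.C (nat_lit 0x803976) (nat_lit 0x3e2c3f553f4d) (nat_lit 0x0)
  (PL.C (nat_lit 0x804b48) (nat_lit 0x0) (nat_lit 0x10199f1cb847bd)
  (PL.C (nat_lit 0x80bacc) (nat_lit 0x19bad7f53fe418) (nat_lit 0x0)
  (PL.C (nat_lit 0x80eb39) (nat_lit 0x0) (nat_lit 0xc0c9f0df7be46d9)
  (PL.C (nat_lit 0x816183) (nat_lit 0x8eb1ae98f71c89) (nat_lit 0x0)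
  (PL.C (nat_lit 0x81ae58) (nat_lit 0x184486276fd0806) (nat_lit 0x0) gp3_0_39))))))))))))))))))))

noncomputable def gp3_0_37 : PL :=
  (PL.C (nat_lit 0x7643af) (nat_lit 0x0) (nat_lit 0xb61877ecc9e42a)
  (PL.C (nat_lit 0x764ff8) (nat_lit 0x38ff606dbfac24) (nat_lit 0x0)
  (PL.C (nat_lit 0x76a26e) (nat_lit 0x0) (nat_lit 0x590e833685c847)
  (PL.C (nat_lit 0x7729ec) (nat_lit 0x2481ee2121eb494) (nat_lit 0x0)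
  (PL.C (nat_lit 0x778afd) (nat_lit 0x0) (nat_lit 0x70e0acac0cd976c)
  (PL.C (nat_lit 0x779768) (nat_lit 0x0) (nat_lit 0x20896b9f576a8e)
  (PL.C (nat_lit 0x77c07c) (nat_lit 0x0) (nat_lit 0x675a990bd1cff4)
  (PL.C (nat_lit 0x77cee6) (nat_lit 0x0) (nat_lit 0x11196689142866c)
  (PL.C (nat_lit 0x78f306) (nat_lit 0x0) (nat_lit 0xfdc13b6c3cd07)
  (PL.C (nat_lit 0x79b0c6) (nat_lit 0x0) (nat_lit 0x211913e023bdf52)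
  (PL.C (nat_lit 0x79df3d) (nat_lit 0x18ccfd3d301f3e) (nat_lit 0x0)
  (PL.C (nat_lit 0x7a4f36) (nat_lit 0x11edd27cc24f0af) (nat_lit 0x0)
  (PL.C (nat_lit 0x7a7939) (nat_lit 0xd40760f00101d) (nat_lit 0x0)
  (PL.C (nat_lit 0x7a9784) (nat_lit 0x0) (nat_lit 0x4a1e82e7b76b27)
  (PL.C (nat_lit 0x7aef58) (nat_lit 0x38ff606dbfac24) (nat_lit 0x0)
  (PL.C (nat_lit 0x7af4c2) (nat_lit 0x0) (nat_lit 0x7081ef6cb218aa)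
  (PL.C (nat_lit 0x7b3087) (nat_lit 0x6f8e734b3f3fc4) (nat_lit 0x0)
  (PL.C (nat_lit 0x7b6674) (nat_lit 0x0) (nat_lit 0xbc76617f1fc27e)
  (PL.C (nat_lit 0x7bbf94) (nat_lit 0x3b92bc823ac614) (nat_lit 0x0)
  (PL.C (nat_lit 0x7beacc) (nat_lit 0x0) (nat_lit 0x22f97b66659198d) gp3_0_38))))))))))))))))))))

noncomputable def gp3_0_36 : PL :=
  (PL.C (nat_lit 0x732a94) (nat_lit 0x0) (nat_lit 0x17a1204c2e6d7f)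
  (PL.C (nat_lit 0x735aec) (nat_lit 0x0) (nat_lit 0x38eb86ebc50acc)
  (PL.C (nat_lit 0x735fa5) (nat_lit 0x3d9ffa265aa452) (nat_lit 0x0)
  (PL.C (nat_lit 0x738651) (nat_lit 0x0) (nat_lit 0x32384330efcba5f)
  (PL.C (nat_lit 0x73a2e4) (nat_lit 0x129d8a711413f32) (nat_lit 0x0)
  (PL.C (nat_lit 0x73c64d) (nat_lit 0x0) (nat_lit 0x6a36cb34bc499f)
  (PL.C (nat_lit 0x73d264) (nat_lit 0x0) (nat_lit 0xd1adb714c2718)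
  (PL.C (nat_lit 0x73ff88) (nat_lit 0x0) (nat_lit 0x4ed432cdf4cf68)
  (PL.C (nat_lit 0x746f1f) (nat_lit 0x0) (nat_lit 0x3f1c3b1d948e656)
  (PL.C (nat_lit 0x7495c2) (nat_lit 0x8c652d30d1bfc5) (nat_lit 0x0)
  (PL.C (nat_lit 0x74c337) (nat_lit 0x1a436d152e85a1) (nat_lit 0x0)
  (PL.C (nat_lit 0x74e2ec) (nat_lit 0x0) (nat_lit 0x20b5a43f7dacbe1)
  (PL.C (nat_lit 0x7506b7) (nat_lit 0xc5c6b32e811771) (nat_lit 0x0)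
  (PL.C (nat_lit 0x752f38) (nat_lit 0x0) (nat_lit 0x2cc5a92baab6a)
  (PL.C (nat_lit 0x754149) (nat_lit 0x0) (nat_lit 0xb61877ecc9e42a)
  (PL.C (nat_lit 0x754932) (nat_lit 0x0) (nat_lit 0x6850fed3a5928)
  (PL.C (nat_lit 0x758439) (nat_lit 0x9197407bccf340) (nat_lit 0x0)
  (PL.C (nat_lit 0x75c8a3) (nat_lit 0x0) (nat_lit 0x1503d32a4cac829)
  (PL.C (nat_lit 0x75f5c1) (nat_lit 0x31d46e6dc1bf300) (nat_lit 0x0)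
  (PL.C (nat_lit 0x75fac2) (nat_lit 0x1f25659c160199f) (nat_lit 0x0) gp3_0_37))))))))))))))))))))

noncomputable def gp3_0_35 : PL :=
  (PL.C (nat_lit 0x6d3026) (nat_lit 0x467a4f7223491f) (nat_lit 0x0)
  (PL.C (nat_lit 0x6de770) (nat_lit 0x7e630c952150b) (nat_lit 0x0)
  (PL.C (nat_lit 0x6e3112) (nat_lit 0x118f5202ffc2a06) (nat_lit 0x0)
  (PL.C (nat_lit 0x6ecbac) (nat_lit 0x2c3b58add5cd61) (nat_lit 0x0)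
  (PL.C (nat_lit 0x6ed951) (nat_lit 0x9bb5e333d6032f8) (nat_lit 0x0)
  (PL.C (nat_lit 0x6f0aec) (nat_lit 0x4d81481d3668c1) (nat_lit 0x0)
  (PL.C (nat_lit 0x6fa22a) (nat_lit 0xcd0f579ba72054) (nat_lit 0x0)
  (PL.C (nat_lit 0x70cf4c) (nat_lit 0x2aa8e63597bf0) (nat_lit 0x0)
  (PL.C (nat_lit 0x70d71e) (nat_lit 0xa7de54749beab6) (nat_lit 0x0)
  (PL.C (nat_lit 0x70f51c) (nat_lit 0x0) (nat_lit 0x4351dd195e2d4d)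
  (PL.C (nat_lit 0x7133ac) (nat_lit 0x66eaf95c50f2d6) (nat_lit 0x0)
  (PL.C (nat_lit 0x714758) (nat_lit 0x20e1cd1d3ed1328) (nat_lit 0x0)
  (PL.C (nat_lit 0x71504d) (nat_lit 0x145400bd298472) (nat_lit 0x0)
  (PL.C (nat_lit 0x71622c) (nat_lit 0x0) (nat_lit 0x172bbd6a8e9e05)
  (PL.C (nat_lit 0x716c54) (nat_lit 0x0) (nat_lit 0x863098e923c22c)
  (PL.C (nat_lit 0x7190fd) (nat_lit 0x0) (nat_lit 0x24daa10dbdc65f)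
  (PL.C (nat_lit 0x71ad14) (nat_lit 0x910ee71cce08a6) (nat_lit 0x0)
  (PL.C (nat_lit 0x72038a) (nat_lit 0x0) (nat_lit 0x1ed7a466d5b7096)
  (PL.C (nat_lit 0x72a63c) (nat_lit 0x49450b8d26f47) (nat_lit 0x0)
  (PL.C (nat_lit 0x72adf8) (nat_lit 0x0) (nat_lit 0x17829ff03dedd80) gp3_0_36))))))))))))))))))))

noncomputable def gp3_0_34 : PL :=
  (PL.C (nat_lit 0x6a2282) (nat_lit 0x9381c560f2ca10) (nat_lit 0x0)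
  (PL.C (nat_lit 0x6a4fac) (nat_lit 0xf36092a9b95cb) (nat_lit 0x0)
  (PL.C (nat_lit 0x6a56d8) (nat_lit 0x1d6b31d7257ea76) (nat_lit 0x0)
  (PL.C (nat_lit 0x6a8957) (nat_lit 0x0) (nat_lit 0x38152bf6688e2f2)
  (PL.C (nat_lit 0x6abea9) (nat_lit 0x0) (nat_lit 0x1b4f76c2ba15b40)
  (PL.C (nat_lit 0x6aca64) (nat_lit 0x1ce0391318e0748) (nat_lit 0x0)
  (PL.C (nat_lit 0x6acfb9) (nat_lit 0x17a09978dbfd199) (nat_lit 0x0)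
  (PL.C (nat_lit 0x6af34c) (nat_lit 0x0) (nat_lit 0x3899260af5817cb)
  (PL.C (nat_lit 0x6afb99) (nat_lit 0xab0438597fe8fb) (nat_lit 0x0)
  (PL.C (nat_lit 0x6b1f75) (nat_lit 0x69c435aacde97c6) (nat_lit 0x0)
  (PL.C (nat_lit 0x6b39f4) (nat_lit 0x71e53f0a52d1b3) (nat_lit 0x0)
  (PL.C (nat_lit 0x6b6782) (nat_lit 0x0) (nat_lit 0x27c44b511eac87d)
  (PL.C (nat_lit 0x6c34aa) (nat_lit 0x0) (nat_lit 0x32ab20d32f11525)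
  (PL.C (nat_lit 0x6c3568) (nat_lit 0x0) (nat_lit 0xc5e749f94c8431)
  (PL.C (nat_lit 0x6c3dce) (nat_lit 0x3e2c3f553f4d) (nat_lit 0x0)
  (PL.C (nat_lit 0x6c6216) (nat_lit 0x0) (nat_lit 0xbbfcd91627c4c)
  (PL.C (nat_lit 0x6ca048) (nat_lit 0x0) (nat_lit 0x7c375ed656ad3d)
  (PL.C (nat_lit 0x6caafc) (nat_lit 0x1db262eddacbae) (nat_lit 0x0)
  (PL.C (nat_lit 0x6cd3dd) (nat_lit 0x0) (nat_lit 0x2e454f584fe99f)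
  (PL.C (nat_lit 0x6d2718) (nat_lit 0x0) (nat_lit 0xc6f439ab4b6b81) gp3_0_35))))))))))))))))))))

noncomputable def gp3_0_33 : PL :=
  (PL.C (nat_lit 0x64d322) (nat_lit 0x10b501f780d8218) (nat_lit 0x0)
  (PL.C (nat_lit 0x64e9b1) (nat_lit 0x0) (nat_lit 0x70e0acac0cd976c)
  (PL.C (nat_lit 0x65aa77) (nat_lit 0x0) (nat_lit 0x2348299af46fa73)
  (PL.C (nat_lit 0x66199e) (nat_lit 0x0) (nat_lit 0x15705e099bd9747)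
  (PL.C (nat_lit 0x66bcdc) (nat_lit 0x0) (nat_lit 0xd1e0014444488c)
  (PL.C (nat_lit 0x66c3d5) (nat_lit 0x8acd3a2efa9af0f) (nat_lit 0x0)
  (PL.C (nat_lit 0x66cd10) (nat_lit 0x7e630c952150b) (nat_lit 0x0)
  (PL.C (nat_lit 0x66fe36) (nat_lit 0x1e293b3159a9ac6) (nat_lit 0x0)
  (PL.C (nat_lit 0x675afc) (nat_lit 0x17340064392822) (nat_lit 0x0)
  (PL.C (nat_lit 0x677c94) (nat_lit 0x0) (nat_lit 0xb2683dcab8b963)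
  (PL.C (nat_lit 0x679f44) (nat_lit 0x0) (nat_lit 0xd1e0014444488c)
  (PL.C (nat_lit 0x67c6b8) (nat_lit 0x683ae5abaaa929) (nat_lit 0x0)
  (PL.C (nat_lit 0x67cb4a) (nat_lit 0x12ace16b47ba879) (nat_lit 0x0)
  (PL.C (nat_lit 0x67f956) (nat_lit 0x0) (nat_lit 0x15450e3946722a)
  (PL.C (nat_lit 0x682b44) (nat_lit 0x0) (nat_lit 0x17a1204c2e6d7f)
  (PL.C (nat_lit 0x689afc) (nat_lit 0x15820fd18d9bec9) (nat_lit 0x0)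
  (PL.C (nat_lit 0x68be0c) (nat_lit 0x0) (nat_lit 0x28f6d10ba5b9301)
  (PL.C (nat_lit 0x68eb2a) (nat_lit 0xcd0f579ba72054) (nat_lit 0x0)
  (PL.C (nat_lit 0x69cd18) (nat_lit 0x0) (nat_lit 0x20896b9f576a8e)
  (PL.C (nat_lit 0x69d608) (nat_lit 0x9db68db9ef63b2) (nat_lit 0x0) gp3_0_34))))))))))))))))))))

noncomputable def gp3_0_32 : PL :=
  (PL.C (nat_lit 0x603a98) (nat_lit 0x0) (nat_lit 0xc0709c22e609e0)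
  (PL.C (nat_lit 0x603f66) (nat_lit 0x0) (nat_lit 0xd39107b26d9052)
  (PL.C (nat_lit 0x6097d4) (nat_lit 0x0) (nat_lit 0x3ed0aab87ad5f81)
  (PL.C (nat_lit 0x60c82c) (nat_lit 0x129d8a711413f32) (nat_lit 0x0)
  (PL.C (nat_lit 0x60ff6c) (nat_lit 0x0) (nat_lit 0x1647250876e5933)
  (PL.C (nat_lit 0x6137e4) (nat_lit 0x0) (nat_lit 0xbc76617f1fc27e)
  (PL.C (nat_lit 0x618555) (nat_lit 0x0) (nat_lit 0x4d5fd0e3319246)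
  (PL.C (nat_lit 0x619d74) (nat_lit 0x49450b8d26f47) (nat_lit 0x0)
  (PL.C (nat_lit 0x61df82) (nat_lit 0x2708af21a4758b8) (nat_lit 0x0)
  (PL.C (nat_lit 0x61eba8) (nat_lit 0x3572cfbfaba3cb) (nat_lit 0x0)
  (PL.C (nat_lit 0x62107e) (nat_lit 0x58663d7778ee4e) (nat_lit 0x0)
  (PL.C (nat_lit 0x6249db) (nat_lit 0x205ade4f3a3a2050) (nat_lit 0x0)
  (PL.C (nat_lit 0x62ab9c) (nat_lit 0x1284c2f7273cb204) (nat_lit 0x0)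
  (PL.C (nat_lit 0x62c9d3) (nat_lit 0x322a1b5e608b5d5) (nat_lit 0x0)
  (PL.C (nat_lit 0x62ff48) (nat_lit 0x0) (nat_lit 0xc5e749f94c8431)
  (PL.C (nat_lit 0x634f89) (nat_lit 0x0) (nat_lit 0x2e12d21357ee1ec)
  (PL.C (nat_lit 0x63d4c8) (nat_lit 0x9a7a06b0c71726) (nat_lit 0x0)
  (PL.C (nat_lit 0x63f35a) (nat_lit 0x58c18d93dfcc78) (nat_lit 0x0)
  (PL.C (nat_lit 0x63fa56) (nat_lit 0x6c5631c73c91d52) (nat_lit 0x0)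
  (PL.C (nat_lit 0x645612) (nat_lit 0x2b6ec088f466992) (nat_lit 0x0) gp3_0_33))))))))))))))))))))

noncomputable def gp3_0_31 : PL :=
  (PL.C (nat_lit 0x5b6a18) (nat_lit 0x0) (nat_lit 0x536064853a9f1b)
  (PL.C (nat_lit 0x5b7e8c) (nat_lit 0x0) (nat_lit 0x501972ba3a310c9)
  (PL.C (nat_lit 0x5bb71a) (nat_lit 0x0) (nat_lit 0xa1a058296f75d0)
  (PL.C (nat_lit 0x5bde11) (nat_lit 0x0) (nat_lit 0x1ef01d1f60dc7de)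
  (PL.C (nat_lit 0x5c0094) (nat_lit 0x910ee71cce08a6) (nat_lit 0x0)
  (PL.C (nat_lit 0x5c168d) (nat_lit 0x0) (nat_lit 0x4d3f33cffbdb2e9)
  (PL.C (nat_lit 0x5ca765) (nat_lit 0x404527d84b1db7) (nat_lit 0x0)
  (PL.C (nat_lit 0x5cb4ee) (nat_lit 0x0) (nat_lit 0x173f0c5fef1fe65c)
  (PL.C (nat_lit 0x5d04da) (nat_lit 0x16738b62792509a) (nat_lit 0x0)
  (PL.C (nat_lit 0x5d2be6) (nat_lit 0x0) (nat_lit 0x53dad068b6d5fe)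
  (PL.C (nat_lit 0x5d875c) (nat_lit 0x15ee635698a77d) (nat_lit 0x0)
  (PL.C (nat_lit 0x5dcc24) (nat_lit 0x0) (nat_lit 0x1647250876e5933)
  (PL.C (nat_lit 0x5dd3f0) (nat_lit 0x4417291f6b299) (nat_lit 0x0)
  (PL.C (nat_lit 0x5de8dd) (nat_lit 0x0) (nat_lit 0x4d84c2b0d90949)
  (PL.C (nat_lit 0x5f4a89) (nat_lit 0x0) (nat_lit 0x275e2c2fc06a5cf)
  (PL.C (nat_lit 0x5f5a8c) (nat_lit 0xa7a8eb0eae7ff4) (nat_lit 0x0)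
  (PL.C (nat_lit 0x5f8f5c) (nat_lit 0x0) (nat_lit 0x17ba1ad3ec5a32c)
  (PL.C (nat_lit 0x5fb2b8) (nat_lit 0x12ae33a480c4e7) (nat_lit 0x0)
  (PL.C (nat_lit 0x5feddf) (nat_lit 0x9197407bccf340) (nat_lit 0x0)
  (PL.C (nat_lit 0x601ab4) (nat_lit 0x123f868c9d7acd4) (nat_lit 0x0) gp3_0_32))))))))))))))))))))

noncomputable def gp3_0_30 : PL :=
  (PL.C (nat_lit 0x57f5f8) (nat_lit 0x5cfc4506a009b0) (nat_lit 0x0)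
  (PL.C (nat_lit 0x58296c) (nat_lit 0x0) (nat_lit 0x1e060ebff6227b4)
  (PL.C (nat_lit 0x586b3c) (nat_lit 0x0) (nat_lit 0x28f6d10ba5b9301)
  (PL.C (nat_lit 0x589152) (nat_lit 0x8a64878ee239d2) (nat_lit 0x0)
  (PL.C (nat_lit 0x58e968) (nat_lit 0x337b54125bf4d7) (nat_lit 0x0)
  (PL.C (nat_lit 0x591424) (nat_lit 0x0) (nat_lit 0x214030bae79ad2)
  (PL.C (nat_lit 0x597588) (nat_lit 0x0) (nat_lit 0x10da6f0719a9f1)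
  (PL.C (nat_lit 0x59ad58) (nat_lit 0xc5e16daa508b7b) (nat_lit 0x0)
  (PL.C (nat_lit 0x59c8ce) (nat_lit 0x8c652d30d1bfc5) (nat_lit 0x0)
  (PL.C (nat_lit 0x59eef3) (nat_lit 0x0) (nat_lit 0x169693a560fe05)
  (PL.C (nat_lit 0x59f530) (nat_lit 0x4417291f6b299) (nat_lit 0x0)
  (PL.C (nat_lit 0x5a0aac) (nat_lit 0x3154efff93321d) (nat_lit 0x0)
  (PL.C (nat_lit 0x5a2a5d) (nat_lit 0x0) (nat_lit 0x315609e40c5606)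
  (PL.C (nat_lit 0x5a4bba) (nat_lit 0xa7de54749beab6) (nat_lit 0x0)
  (PL.C (nat_lit 0x5a984c) (nat_lit 0x3b92bc823ac614) (nat_lit 0x0)
  (PL.C (nat_lit 0x5aa588) (nat_lit 0x20e1cd1d3ed1328) (nat_lit 0x0)
  (PL.C (nat_lit 0x5ac14a) (nat_lit 0x2b6ec088f466992) (nat_lit 0x0)
  (PL.C (nat_lit 0x5aeeb6) (nat_lit 0x238d7377b15d2f6) (nat_lit 0x0)
  (PL.C (nat_lit 0x5b1d96) (nat_lit 0x0) (nat_lit 0x467c60a63187bf2)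
  (PL.C (nat_lit 0x5b23e7) (nat_lit 0x0) (nat_lit 0x56772afdcd64f7) gp3_0_31))))))))))))))))))))

noncomputable def gp3_0_29 : PL :=
  (PL.C (nat_lit 0x53d1bc) (nat_lit 0x0) (nat_lit 0x17ba1ad3ec5a32c)
  (PL.C (nat_lit 0x53d56d) (nat_lit 0x0) (nat_lit 0x2e12d21357ee1ec)
  (PL.C (nat_lit 0x5422f2) (nat_lit 0x0) (nat_lit 0x448401fe3be2df2)
  (PL.C (nat_lit 0x5445e8) (nat_lit 0x0) (nat_lit 0x6e6122b30a973a)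
  (PL.C (nat_lit 0x544d0e) (nat_lit 0x0) (nat_lit 0xcd37a39df3fc08)
  (PL.C (nat_lit 0x547d2e) (nat_lit 0x0) (nat_lit 0x15705e099bd9747)
  (PL.C (nat_lit 0x54fb25) (nat_lit 0x0) (nat_lit 0x1b77a3cdc84d1d)
  (PL.C (nat_lit 0x55746c) (nat_lit 0x697b8203b60aa4) (nat_lit 0x0)
  (PL.C (nat_lit 0x557ba4) (nat_lit 0x0) (nat_lit 0x380ad67d04817b)
  (PL.C (nat_lit 0x55b969) (nat_lit 0x0) (nat_lit 0x6a36cb34bc499f)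
  (PL.C (nat_lit 0x55ea59) (nat_lit 0x0) (nat_lit 0x4d84c2b0d90949)
  (PL.C (nat_lit 0x55f226) (nat_lit 0x0) (nat_lit 0x27c44b511eac87d)
  (PL.C (nat_lit 0x564102) (nat_lit 0xff35672a88c149) (nat_lit 0x0)
  (PL.C (nat_lit 0x569978) (nat_lit 0x0) (nat_lit 0xc6f439ab4b6b81)
  (PL.C (nat_lit 0x56bfe9) (nat_lit 0xcdb13f48fe965d0) (nat_lit 0x0)
  (PL.C (nat_lit 0x57659d) (nat_lit 0x322a1b5e608b5d5) (nat_lit 0x0)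
  (PL.C (nat_lit 0x576cff) (nat_lit 0x1036409fb5199c) (nat_lit 0x0)
  (PL.C (nat_lit 0x57c52e) (nat_lit 0x0) (nat_lit 0xa1aa60f74790e)
  (PL.C (nat_lit 0x57ca08) (nat_lit 0x0) (nat_lit 0xc0709c22e609e0)
  (PL.C (nat_lit 0x57ef54) (nat_lit 0x0) (nat_lit 0x67a711a935f6c) gp3_0_30))))))))))))))))))))

noncomputable def gp3_0_28 : PL :=
  (PL.C (nat_lit 0x4f7148) (nat_lit 0xd62a2b022a0de8) (nat_lit 0x0)
  (PL.C (nat_lit 0x4fb1fe) (nat_lit 0x0) (nat_lit 0x1c0c0e200941381)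
  (PL.C (nat_lit 0x4fd5a8) (nat_lit 0x3d3d7b6ac3793) (nat_lit 0x0)
  (PL.C (nat_lit 0x4fdf44) (nat_lit 0x0) (nat_lit 0xa7806dd366d494)
  (PL.C (nat_lit 0x50a204) (nat_lit 0x5042ac5278e625) (nat_lit 0x0)
  (PL.C (nat_lit 0x50bab5) (nat_lit 0x0) (nat_lit 0x22e2d4bb92b3c2)
  (PL.C (nat_lit 0x510a71) (nat_lit 0x0) (nat_lit 0x26d2785847940dc)
  (PL.C (nat_lit 0x512084) (nat_lit 0x123f868c9d7acd4) (nat_lit 0x0)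
  (PL.C (nat_lit 0x513f7e) (nat_lit 0x0) (nat_lit 0xd39107b26d9052)
  (PL.C (nat_lit 0x518a24) (nat_lit 0x697b8203b60aa4) (nat_lit 0x0)
  (PL.C (nat_lit 0x51a626) (nat_lit 0x0) (nat_lit 0x1b50a3189bc1b0)
  (PL.C (nat_lit 0x51ba58) (nat_lit 0x3572cfbfaba3cb) (nat_lit 0x0)
  (PL.C (nat_lit 0x52205a) (nat_lit 0x166885072e76bef) (nat_lit 0x0)
  (PL.C (nat_lit 0x527727) (nat_lit 0x18a12ec77fc5624) (nat_lit 0x0)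
  (PL.C (nat_lit 0x527fb8) (nat_lit 0x0) (nat_lit 0xc831b66b81a9e)
  (PL.C (nat_lit 0x529c88) (nat_lit 0x0) (nat_lit 0x6e6122b30a973a)
  (PL.C (nat_lit 0x52d556) (nat_lit 0x166885072e76bef) (nat_lit 0x0)
  (PL.C (nat_lit 0x52f887) (nat_lit 0x0) (nat_lit 0x3f1c3b1d948e656)
  (PL.C (nat_lit 0x534b0c) (nat_lit 0x0) (nat_lit 0x20b5a43f7dacbe1)
  (PL.C (nat_lit 0x5395da) (nat_lit 0x0) (nat_lit 0x590e833685c847) gp3_0_29))))))))))))))))))))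

noncomputable def gp3_0_27 : PL :=
  (PL.C (nat_lit 0x4bb5fe) (nat_lit 0x0) (nat_lit 0xbbfcd91627c4c)
  (PL.C (nat_lit 0x4bc8b8) (nat_lit 0x125407553e42b9) (nat_lit 0x0)
  (PL.C (nat_lit 0x4c025c) (nat_lit 0x0) (nat_lit 0xf1ff72c8cfc39e)
  (PL.C (nat_lit 0x4ce748) (nat_lit 0x0) (nat_lit 0x77b375005804d)
  (PL.C (nat_lit 0x4cea6e) (nat_lit 0x0) (nat_lit 0x15629b1004080eb)
  (PL.C (nat_lit 0x4cefc3) (nat_lit 0x0) (nat_lit 0x14f2d15be6c24e5)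
  (PL.C (nat_lit 0x4d0436) (nat_lit 0x0) (nat_lit 0x1ed7a466d5b7096)
  (PL.C (nat_lit 0x4d2ede) (nat_lit 0x0) (nat_lit 0x3a9e44975da260)
  (PL.C (nat_lit 0x4d516d) (nat_lit 0x1a436d152e85a1) (nat_lit 0x0)
  (PL.C (nat_lit 0x4d9f6a) (nat_lit 0x0) (nat_lit 0x15ffb1d4e62f204)
  (PL.C (nat_lit 0x4db92c) (nat_lit 0x4b710b1285bb5e) (nat_lit 0x0)
  (PL.C (nat_lit 0x4dd77a) (nat_lit 0x9f14b0ee52ac8d) (nat_lit 0x0)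
  (PL.C (nat_lit 0x4e047a) (nat_lit 0x3f27eaa301e953d) (nat_lit 0x0)
  (PL.C (nat_lit 0x4e2b86) (nat_lit 0x0) (nat_lit 0x101f122421bf2c8)
  (PL.C (nat_lit 0x4e30cc) (nat_lit 0x0) (nat_lit 0x2bbd0c6738d98c)
  (PL.C (nat_lit 0x4e5826) (nat_lit 0xe71fe4073123fd) (nat_lit 0x0)
  (PL.C (nat_lit 0x4e85c2) (nat_lit 0x0) (nat_lit 0x448401fe3be2df2)
  (PL.C (nat_lit 0x4ea72c) (nat_lit 0x0) (nat_lit 0xa21477004b8278)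
  (PL.C (nat_lit 0x4ed7ca) (nat_lit 0x0) (nat_lit 0x101f122421bf2c8)
  (PL.C (nat_lit 0x4f16f4) (nat_lit 0x5342b28dc593e3) (nat_lit 0x0) gp3_0_28))))))))))))))))))))

noncomputable def gp3_0_26 : PL :=
  (PL.C (nat_lit 0x473526) (nat_lit 0xb1d69e628774da) (nat_lit 0x0)
  (PL.C (nat_lit 0x475266) (nat_lit 0x0) (nat_lit 0xfdc13b6c3cd07)
  (PL.C (nat_lit 0x476a4e) (nat_lit 0x35f80a1d705a8fa) (nat_lit 0x0)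
  (PL.C (nat_lit 0x477bf8) (nat_lit 0x0) (nat_lit 0x3a00858f669f80)
  (PL.C (nat_lit 0x478911) (nat_lit 0x0) (nat_lit 0x315609e40c5606)
  (PL.C (nat_lit 0x48231c) (nat_lit 0x0) (nat_lit 0x3ed0aab87ad5f81)
  (PL.C (nat_lit 0x482934) (nat_lit 0x0) (nat_lit 0x380ad67d04817b)
  (PL.C (nat_lit 0x484164) (nat_lit 0x3f03eb86653c91) (nat_lit 0x0)
  (PL.C (nat_lit 0x488d3e) (nat_lit 0x30a06342aacf7f1) (nat_lit 0x0)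
  (PL.C (nat_lit 0x48cac4) (nat_lit 0x543d33acdf5d90) (nat_lit 0x0)
  (PL.C (nat_lit 0x48ee65) (nat_lit 0x0) (nat_lit 0x14f2d15be6c24e5)
  (PL.C (nat_lit 0x49c6d1) (nat_lit 0xc5c6b32e811771) (nat_lit 0x0)
  (PL.C (nat_lit 0x49e636) (nat_lit 0x19b3527c03fad0b) (nat_lit 0x0)
  (PL.C (nat_lit 0x4a0748) (nat_lit 0x0) (nat_lit 0x10da6f0719a9f1)
  (PL.C (nat_lit 0x4a6c1c) (nat_lit 0x0) (nat_lit 0x6f746144ed0087)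
  (PL.C (nat_lit 0x4b2175) (nat_lit 0x0) (nat_lit 0xd163c0d6054df3)
  (PL.C (nat_lit 0x4b3a14) (nat_lit 0x0) (nat_lit 0x7bbee7b6effd100)
  (PL.C (nat_lit 0x4b77c8) (nat_lit 0x7fa343783d5146) (nat_lit 0x0)
  (PL.C (nat_lit 0x4b8ade) (nat_lit 0x4ca9919421b7d8) (nat_lit 0x0)
  (PL.C (nat_lit 0x4b96c8) (nat_lit 0x0) (nat_lit 0x1180d5a17af24d) gp3_0_27))))))))))))))))))))

noncomputable def gp3_0_25 : PL :=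
  (PL.C (nat_lit 0x42e763) (nat_lit 0x0) (nat_lit 0x1185e602894a7dd)
  (PL.C (nat_lit 0x43376c) (nat_lit 0x1677da05b40c4da) (nat_lit 0x0)
  (PL.C (nat_lit 0x434676) (nat_lit 0x0) (nat_lit 0x1c0c0e200941381)
  (PL.C (nat_lit 0x441114) (nat_lit 0x0) (nat_lit 0x1b6eef0cb60d5d7)
  (PL.C (nat_lit 0x442aaf) (nat_lit 0x0) (nat_lit 0x20f1c390467fd45)
  (PL.C (nat_lit 0x447de8) (nat_lit 0x0) (nat_lit 0x703a8cfd65ea18)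
  (PL.C (nat_lit 0x44fdb8) (nat_lit 0x0) (nat_lit 0x4ed432cdf4cf68)
  (PL.C (nat_lit 0x4514d8) (nat_lit 0x0) (nat_lit 0x703a8cfd65ea18)
  (PL.C (nat_lit 0x45aaa9) (nat_lit 0x0) (nat_lit 0x15cef361f4c6e2)
  (PL.C (nat_lit 0x45bca8) (nat_lit 0x9a7a06b0c71726) (nat_lit 0x0)
  (PL.C (nat_lit 0x45d408) (nat_lit 0x0) (nat_lit 0x20fd2171852d4ba)
  (PL.C (nat_lit 0x45f21c) (nat_lit 0x0) (nat_lit 0x6f746144ed0087)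
  (PL.C (nat_lit 0x468eb0) (nat_lit 0x6c0431e2dc8a0) (nat_lit 0x0)
  (PL.C (nat_lit 0x46c1ac) (nat_lit 0x66eaf95c50f2d6) (nat_lit 0x0)
  (PL.C (nat_lit 0x46dfc8) (nat_lit 0x0) (nat_lit 0x2a8c82ffb07291)
  (PL.C (nat_lit 0x46e42f) (nat_lit 0x158a54e3382e3f3) (nat_lit 0x0)
  (PL.C (nat_lit 0x46e490) (nat_lit 0x1868507f5eb1941) (nat_lit 0x0)
  (PL.C (nat_lit 0x46ed9b) (nat_lit 0x0) (nat_lit 0x1b77a3cdc84d1d)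
  (PL.C (nat_lit 0x47063a) (nat_lit 0x16738b62792509a) (nat_lit 0x0)
  (PL.C (nat_lit 0x473198) (nat_lit 0x0) (nat_lit 0x48af164b3304a6) gp3_0_26))))))))))))))))))))

noncomputable def gp3_0_24 : PL :=
  (PL.C (nat_lit 0x3f8706) (nat_lit 0x0) (nat_lit 0x25e48be7f49a0e9)
  (PL.C (nat_lit 0x3fb4e8) (nat_lit 0xe817d417dd4a26) (nat_lit 0x0)
  (PL.C (nat_lit 0x3ff3ea) (nat_lit 0xe71fe4073123fd) (nat_lit 0x0)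
  (PL.C (nat_lit 0x402710) (nat_lit 0x0) (nat_lit 0xc6cf73eafe6ea8)
  (PL.C (nat_lit 0x402a44) (nat_lit 0x0) (nat_lit 0x2f0dbcede72185)
  (PL.C (nat_lit 0x406538) (nat_lit 0x18a224e90b512bd) (nat_lit 0x0)
  (PL.C (nat_lit 0x40aa48) (nat_lit 0x0) (nat_lit 0x166cff3b4afce1f)
  (PL.C (nat_lit 0x41038e) (nat_lit 0x33b0c0be4e8067b) (nat_lit 0x0)
  (PL.C (nat_lit 0x413fac) (nat_lit 0x1ce0391318e0748) (nat_lit 0x0)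
  (PL.C (nat_lit 0x416054) (nat_lit 0x0) (nat_lit 0x1a8c1c436b3973)
  (PL.C (nat_lit 0x418692) (nat_lit 0x2f6686eca4dcfd2) (nat_lit 0x0)
  (PL.C (nat_lit 0x419f97) (nat_lit 0x185433886a62f4a) (nat_lit 0x0)
  (PL.C (nat_lit 0x41dbe2) (nat_lit 0x3a1cb052401604e) (nat_lit 0x0)
  (PL.C (nat_lit 0x423506) (nat_lit 0x32fc68455d69ba) (nat_lit 0x0)
  (PL.C (nat_lit 0x425535) (nat_lit 0x0) (nat_lit 0xffe7ce263392a5)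
  (PL.C (nat_lit 0x42a23c) (nat_lit 0x16cdd6390cad6f9) (nat_lit 0x0)
  (PL.C (nat_lit 0x42a6e4) (nat_lit 0x1edd2a81efb35cc) (nat_lit 0x0)
  (PL.C (nat_lit 0x42bb4d) (nat_lit 0x8eb1ae98f71c89) (nat_lit 0x0)
  (PL.C (nat_lit 0x42dcb3) (nat_lit 0x0) (nat_lit 0x1c3bbabb8ca1cb)
  (PL.C (nat_lit 0x42e40c) (nat_lit 0x1c52d3336d5ce77) (nat_lit 0x0) gp3_0_25))))))))))))))))))))

noncomputable def gp3_0_23 : PL :=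
  (PL.C (nat_lit 0x3c9f24) (nat_lit 0x71e53f0a52d1b3) (nat_lit 0x0)
  (PL.C (nat_lit 0x3cbe64) (nat_lit 0x1db262eddacbae) (nat_lit 0x0)
  (PL.C (nat_lit 0x3cc29a) (nat_lit 0x0) (nat_lit 0x6147bb281ce7ebc)
  (PL.C (nat_lit 0x3cff08) (nat_lit 0x0) (nat_lit 0x54c17117aa0c5b3)
  (PL.C (nat_lit 0x3d24bc) (nat_lit 0xf36092a9b95cb) (nat_lit 0x0)
  (PL.C (nat_lit 0x3d55b8) (nat_lit 0x125407553e42b9) (nat_lit 0x0)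
  (PL.C (nat_lit 0x3d645e) (nat_lit 0x0) (nat_lit 0x198fb3e822a56b1)
  (PL.C (nat_lit 0x3d90b9) (nat_lit 0x0) (nat_lit 0x56772afdcd64f7)
  (PL.C (nat_lit 0x3dc4ee) (nat_lit 0x58c18d93dfcc78) (nat_lit 0x0)
  (PL.C (nat_lit 0x3dcdf4) (nat_lit 0x0) (nat_lit 0x501972ba3a310c9)
  (PL.C (nat_lit 0x3de0e1) (nat_lit 0x0) (nat_lit 0x26d2785847940dc)
  (PL.C (nat_lit 0x3e033c) (nat_lit 0x0) (nat_lit 0xc86dac17723981)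
  (PL.C (nat_lit 0x3e1d44) (nat_lit 0x0) (nat_lit 0x701642366ac5d5)
  (PL.C (nat_lit 0x3e1fcf) (nat_lit 0x18e5087ea84cdb3) (nat_lit 0x0)
  (PL.C (nat_lit 0x3e8818) (nat_lit 0x0) (nat_lit 0x166cff3b4afce1f)
  (PL.C (nat_lit 0x3e9b3e) (nat_lit 0x0) (nat_lit 0xb48ff90189a243)
  (PL.C (nat_lit 0x3eb1fd) (nat_lit 0x0) (nat_lit 0x1541127b6ebca8d)
  (PL.C (nat_lit 0x3edf45) (nat_lit 0x0) (nat_lit 0x740ff723130b92)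
  (PL.C (nat_lit 0x3f358b) (nat_lit 0x9bb5e333d6032f8) (nat_lit 0x0)
  (PL.C (nat_lit 0x3f6c09) (nat_lit 0x2f8618db1063d8f) (nat_lit 0x0) gp3_0_24))))))))))))))))))))

noncomputable def gp3_0_22 : PL :=
  (PL.C (nat_lit 0x3980ac) (nat_lit 0x0) (nat_lit 0x4a101184f2a9e3)
  (PL.C (nat_lit 0x39838b) (nat_lit 0x5311b8ac9959d8) (nat_lit 0x0)
  (PL.C (nat_lit 0x399b2b) (nat_lit 0x18a12ec77fc5624) (nat_lit 0x0)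
  (PL.C (nat_lit 0x39d546) (nat_lit 0x1aab59fb111d8b) (nat_lit 0x0)
  (PL.C (nat_lit 0x3a43be) (nat_lit 0x3a1cb052401604e) (nat_lit 0x0)
  (PL.C (nat_lit 0x3a48aa) (nat_lit 0x47560a56453c8e) (nat_lit 0x0)
  (PL.C (nat_lit 0x3a8374) (nat_lit 0x0) (nat_lit 0x2c23ca354aa2a7)
  (PL.C (nat_lit 0x3a86b0) (nat_lit 0x0) (nat_lit 0xc6cf73eafe6ea8)
  (PL.C (nat_lit 0x3a9977) (nat_lit 0xcdb13f48fe965d0) (nat_lit 0x0)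
  (PL.C (nat_lit 0x3ac648) (nat_lit 0x0) (nat_lit 0x8a5d745e81b650)
  (PL.C (nat_lit 0x3af228) (nat_lit 0x0) (nat_lit 0x20fd2171852d4ba)
  (PL.C (nat_lit 0x3b0b8c) (nat_lit 0x0) (nat_lit 0x1e060ebff6227b4)
  (PL.C (nat_lit 0x3ba3b0) (nat_lit 0x0) (nat_lit 0x64cc14b144ac4)
  (PL.C (nat_lit 0x3bdb34) (nat_lit 0x4b710b1285bb5e) (nat_lit 0x0)
  (PL.C (nat_lit 0x3bf4a2) (nat_lit 0x118f5202ffc2a06) (nat_lit 0x0)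
  (PL.C (nat_lit 0x3c1c3e) (nat_lit 0x4c8f3aaa3abc81) (nat_lit 0x0)
  (PL.C (nat_lit 0x3c327c) (nat_lit 0x0) (nat_lit 0x7bbee7b6effd100)
  (PL.C (nat_lit 0x3c6315) (nat_lit 0x17a09978dbfd199) (nat_lit 0x0)
  (PL.C (nat_lit 0x3c6588) (nat_lit 0x0) (nat_lit 0xc831b66b81a9e)
  (PL.C (nat_lit 0x3c80dc) (nat_lit 0x1c52d3336d5ce77) (nat_lit 0x0) gp3_0_23))))))))))))))))))))

noncomputable def gp3_0_21 : PL :=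
  (PL.C (nat_lit 0x36fa1a) (nat_lit 0x0) (nat_lit 0x5b7c2a82ed31ea)
  (PL.C (nat_lit 0x36ffd0) (nat_lit 0x0) (nat_lit 0xde91bb1cac0c4)
  (PL.C (nat_lit 0x3738e4) (nat_lit 0x13c045b73c0e69d) (nat_lit 0x0)
  (PL.C (nat_lit 0x37505a) (nat_lit 0x0) (nat_lit 0x15ffb1d4e62f204)
  (PL.C (nat_lit 0x37ab77) (nat_lit 0x0) (nat_lit 0x20634901c913fd)
  (PL.C (nat_lit 0x37b93c) (nat_lit 0x5342b28dc593e3) (nat_lit 0x0)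
  (PL.C (nat_lit 0x37e128) (nat_lit 0xe817d417dd4a26) (nat_lit 0x0)
  (PL.C (nat_lit 0x37e39e) (nat_lit 0x32fc68455d69ba) (nat_lit 0x0)
  (PL.C (nat_lit 0x37fec9) (nat_lit 0x0) (nat_lit 0x1185e602894a7dd)
  (PL.C (nat_lit 0x38174c) (nat_lit 0x0) (nat_lit 0x1ba206b80461a38)
  (PL.C (nat_lit 0x385374) (nat_lit 0x0) (nat_lit 0x1b6eef0cb60d5d7)
  (PL.C (nat_lit 0x387a2f) (nat_lit 0x0) (nat_lit 0xffe7ce263392a5)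
  (PL.C (nat_lit 0x38a76e) (nat_lit 0x0) (nat_lit 0x36de863958aff6)
  (PL.C (nat_lit 0x38f848) (nat_lit 0x0) (nat_lit 0x64869d6dddc35f)
  (PL.C (nat_lit 0x38fd18) (nat_lit 0x4f2111850210f1) (nat_lit 0x0)
  (PL.C (nat_lit 0x39167d) (nat_lit 0x67b1b7de6be24de) (nat_lit 0x0)
  (PL.C (nat_lit 0x392646) (nat_lit 0x0) (nat_lit 0x3a9e44975da260)
  (PL.C (nat_lit 0x3946e6) (nat_lit 0x0) (nat_lit 0xb48ff90189a243)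
  (PL.C (nat_lit 0x395da5) (nat_lit 0x2f8618db1063d8f) (nat_lit 0x0)
  (PL.C (nat_lit 0x397a5b) (nat_lit 0x0) (nat_lit 0x2348299af46fa73) gp3_0_22))))))))))))))))))))

noncomputable def gp3_0_20 : PL :=
  (PL.C (nat_lit 0x341d04) (nat_lit 0x1e19586e60b9daa) (nat_lit 0x0)
  (PL.C (nat_lit 0x342088) (nat_lit 0x0) (nat_lit 0x536064853a9f1b)
  (PL.C (nat_lit 0x343ac4) (nat_lit 0x1d43df4d99a030a) (nat_lit 0x0)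
  (PL.C (nat_lit 0x34592c) (nat_lit 0x0) (nat_lit 0x1ba206b80461a38)
  (PL.C (nat_lit 0x34714b) (nat_lit 0xe7fd9e2d7490a) (nat_lit 0x0)
  (PL.C (nat_lit 0x3482df) (nat_lit 0x0) (nat_lit 0x4d3f33cffbdb2e9)
  (PL.C (nat_lit 0x348fdc) (nat_lit 0x1e19586e60b9daa) (nat_lit 0x0)
  (PL.C (nat_lit 0x34b9f8) (nat_lit 0x6157cb9ca8cbd5) (nat_lit 0x0)
  (PL.C (nat_lit 0x34ecb1) (nat_lit 0x0) (nat_lit 0x5a96a8056204036)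
  (PL.C (nat_lit 0x34f630) (nat_lit 0xaf50c9368b177d) (nat_lit 0x0)
  (PL.C (nat_lit 0x352154) (nat_lit 0x0) (nat_lit 0x4d760b0615fbc92)
  (PL.C (nat_lit 0x353199) (nat_lit 0x0) (nat_lit 0x23228bb24a65cab)
  (PL.C (nat_lit 0x35c158) (nat_lit 0x9b44ade2b44b16) (nat_lit 0x0)
  (PL.C (nat_lit 0x35d1ce) (nat_lit 0x0) (nat_lit 0x7a956d403408da)
  (PL.C (nat_lit 0x3606f6) (nat_lit 0x0) (nat_lit 0x278d5e001c0eb38)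
  (PL.C (nat_lit 0x362a54) (nat_lit 0x0) (nat_lit 0x2f0dbcede72185)
  (PL.C (nat_lit 0x365673) (nat_lit 0x1bee26a1e71c8a6) (nat_lit 0x0)
  (PL.C (nat_lit 0x365c18) (nat_lit 0x0) (nat_lit 0x64869d6dddc35f)
  (PL.C (nat_lit 0x366ec4) (nat_lit 0x0) (nat_lit 0x38eb86ebc50acc)
  (PL.C (nat_lit 0x36c03c) (nat_lit 0x13c045b73c0e69d) (nat_lit 0x0) gp3_0_21))))))))))))))))))))

noncomputable def gp3_0_19 : PL :=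
  (PL.C (nat_lit 0x311355) (nat_lit 0x82d2402690ed67b) (nat_lit 0x0)
  (PL.C (nat_lit 0x312f36) (nat_lit 0x3f27eaa301e953d) (nat_lit 0x0)
  (PL.C (nat_lit 0x314424) (nat_lit 0x5cc68be1a39f12f) (nat_lit 0x0)
  (PL.C (nat_lit 0x315a30) (nat_lit 0x0) (nat_lit 0x64cc14b144ac4)
  (PL.C (nat_lit 0x317793) (nat_lit 0x8acd3a2efa9af0f) (nat_lit 0x0)
  (PL.C (nat_lit 0x319d68) (nat_lit 0x1becf617b61419) (nat_lit 0x0)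
  (PL.C (nat_lit 0x32164e) (nat_lit 0x410729c140aa85b) (nat_lit 0x0)
  (PL.C (nat_lit 0x3226b8) (nat_lit 0x0) (nat_lit 0xe959e58a3b5041)
  (PL.C (nat_lit 0x325c94) (nat_lit 0x0) (nat_lit 0x214030bae79ad2)
  (PL.C (nat_lit 0x327954) (nat_lit 0x3f03eb86653c91) (nat_lit 0x0)
  (PL.C (nat_lit 0x3285d0) (nat_lit 0x0) (nat_lit 0x1b4925f4e77687)
  (PL.C (nat_lit 0x3346f4) (nat_lit 0x19bad7f53fe418) (nat_lit 0x0)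
  (PL.C (nat_lit 0x334a82) (nat_lit 0x729ae95d1011049) (nat_lit 0x0)
  (PL.C (nat_lit 0x335824) (nat_lit 0x0) (nat_lit 0xf1ff72c8cfc39e)
  (PL.C (nat_lit 0x337494) (nat_lit 0x0) (nat_lit 0x350b444cdefc37)
  (PL.C (nat_lit 0x338b9e) (nat_lit 0x9f14b0ee52ac8d) (nat_lit 0x0)
  (PL.C (nat_lit 0x33bf9c) (nat_lit 0x0) (nat_lit 0x172db249ba4a3f4)
  (PL.C (nat_lit 0x33d0c8) (nat_lit 0x0) (nat_lit 0x12773bf68f4fed)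
  (PL.C (nat_lit 0x33e4fc) (nat_lit 0xc58063e1dccffc) (nat_lit 0x0)
  (PL.C (nat_lit 0x3402fc) (nat_lit 0x3daa8c46479a931) (nat_lit 0x0) gp3_0_20))))))))))))))))))))

noncomputable def gp3_0_18 : PL :=
  (PL.C (nat_lit 0x2d60b8) (nat_lit 0x11260e6c8c970e6) (nat_lit 0x0)
  (PL.C (nat_lit 0x2d71ca) (nat_lit 0x1f25659c160199f) (nat_lit 0x0)
  (PL.C (nat_lit 0x2dc24f) (nat_lit 0x63e00f6eda6f4) (nat_lit 0x0)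
  (PL.C (nat_lit 0x2e71c6) (nat_lit 0xbf8c4ec2f45a8b) (nat_lit 0x0)
  (PL.C (nat_lit 0x2ea168) (nat_lit 0x1becf617b61419) (nat_lit 0x0)
  (PL.C (nat_lit 0x2eb61b) (nat_lit 0x877635f059ee597) (nat_lit 0x0)
  (PL.C (nat_lit 0x2f2bc8) (nat_lit 0x7fa343783d5146) (nat_lit 0x0)
  (PL.C (nat_lit 0x2f42ca) (nat_lit 0x14ac4be374caa84) (nat_lit 0x0)
  (PL.C (nat_lit 0x2f4912) (nat_lit 0x0) (nat_lit 0x36de863958aff6)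
  (PL.C (nat_lit 0x2f597c) (nat_lit 0x0) (nat_lit 0xc86dac17723981)
  (PL.C (nat_lit 0x2f78c4) (nat_lit 0x193bc185926f1aa) (nat_lit 0x0)
  (PL.C (nat_lit 0x2f8c44) (nat_lit 0x5042ac5278e625) (nat_lit 0x0)
  (PL.C (nat_lit 0x2f9c34) (nat_lit 0x48364e1484820e6) (nat_lit 0x0)
  (PL.C (nat_lit 0x2fb0b6) (nat_lit 0x4c8f3aaa3abc81) (nat_lit 0x0)
  (PL.C (nat_lit 0x301768) (nat_lit 0x18a224e90b512bd) (nat_lit 0x0)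
  (PL.C (nat_lit 0x301b78) (nat_lit 0x4f2111850210f1) (nat_lit 0x0)
  (PL.C (nat_lit 0x302b98) (nat_lit 0x6670a8334c5fe2) (nat_lit 0x0)
  (PL.C (nat_lit 0x306cf9) (nat_lit 0x0) (nat_lit 0xd163c0d6054df3)
  (PL.C (nat_lit 0x308cf7) (nat_lit 0x0) (nat_lit 0xe4a71fea8c25c6)
  (PL.C (nat_lit 0x309eee) (nat_lit 0x729ae95d1011049) (nat_lit 0x0) gp3_0_19))))))))))))))))))))

noncomputable def gp3_0_17 : PL :=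
  (PL.C (nat_lit 0x2a1d8b) (nat_lit 0x0) (nat_lit 0x22e2d4bb92b3c2)
  (PL.C (nat_lit 0x2a23b2) (nat_lit 0x19b3527c03fad0b) (nat_lit 0x0)
  (PL.C (nat_lit 0x2a4806) (nat_lit 0x2327b1423f29666) (nat_lit 0x0)
  (PL.C (nat_lit 0x2aa29c) (nat_lit 0x1d43df4d99a030a) (nat_lit 0x0)
  (PL.C (nat_lit 0x2ac6d8) (nat_lit 0x0) (nat_lit 0x7537067ebebec)
  (PL.C (nat_lit 0x2b1c30) (nat_lit 0x0) (nat_lit 0x29108159055f64)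
  (PL.C (nat_lit 0x2b57b4) (nat_lit 0x3154efff93321d) (nat_lit 0x0)
  (PL.C (nat_lit 0x2b7fc8) (nat_lit 0x0) (nat_lit 0x48af164b3304a6)
  (PL.C (nat_lit 0x2baf0c) (nat_lit 0x830d788e52b8716) (nat_lit 0x0)
  (PL.C (nat_lit 0x2bbfba) (nat_lit 0x18a9d38d4ff350c) (nat_lit 0x0)
  (PL.C (nat_lit 0x2be7ec) (nat_lit 0x461c87d1d02971c) (nat_lit 0x0)
  (PL.C (nat_lit 0x2c38ce) (nat_lit 0x0) (nat_lit 0x10667e1241dacc3)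
  (PL.C (nat_lit 0x2c6c28) (nat_lit 0xf20eb1b3ce4d13) (nat_lit 0x0)
  (PL.C (nat_lit 0x2c7cde) (nat_lit 0xff35672a88c149) (nat_lit 0x0)
  (PL.C (nat_lit 0x2c9322) (nat_lit 0x7131827ec2e89d) (nat_lit 0x0)
  (PL.C (nat_lit 0x2c9808) (nat_lit 0x0) (nat_lit 0xc8e5fde193225a)
  (PL.C (nat_lit 0x2c9a42) (nat_lit 0x0) (nat_lit 0x160eba5baad14c1)
  (PL.C (nat_lit 0x2cad35) (nat_lit 0x0) (nat_lit 0x5a96a8056204036)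
  (PL.C (nat_lit 0x2cd9a4) (nat_lit 0x0) (nat_lit 0x4d760b0615fbc92)
  (PL.C (nat_lit 0x2d2427) (nat_lit 0x1dc315627c50fc8) (nat_lit 0x0) gp3_0_18))))))))))))))))))))

noncomputable def gp3_0_16 : PL :=
  (PL.C (nat_lit 0x2821a8) (nat_lit 0x0) (nat_lit 0xe959e58a3b5041)
  (PL.C (nat_lit 0x28420e) (nat_lit 0xb1d69e628774da) (nat_lit 0x0)
  (PL.C (nat_lit 0x2843b0) (nat_lit 0x0) (nat_lit 0xde91bb1cac0c4)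
  (PL.C (nat_lit 0x2855e8) (nat_lit 0x0) (nat_lit 0xc8e5fde193225a)
  (PL.C (nat_lit 0x286a18) (nat_lit 0x0) (nat_lit 0x3a00858f669f80)
  (PL.C (nat_lit 0x2881bc) (nat_lit 0x0) (nat_lit 0x798650a5df13969)
  (PL.C (nat_lit 0x28c328) (nat_lit 0x0) (nat_lit 0x2a8c82ffb07291)
  (PL.C (nat_lit 0x28e3d0) (nat_lit 0x0) (nat_lit 0x1b4925f4e77687)
  (PL.C (nat_lit 0x28ed94) (nat_lit 0x0) (nat_lit 0xa17b1ad0045607)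
  (PL.C (nat_lit 0x290b26) (nat_lit 0x0) (nat_lit 0x6147bb281ce7ebc)
  (PL.C (nat_lit 0x292df4) (nat_lit 0x16cdd6390cad6f9) (nat_lit 0x0)
  (PL.C (nat_lit 0x2933f8) (nat_lit 0x0) (nat_lit 0x54c17117aa0c5b3)
  (PL.C (nat_lit 0x294096) (nat_lit 0x0) (nat_lit 0x278d5e001c0eb38)
  (PL.C (nat_lit 0x2968d8) (nat_lit 0xd0c9e3335fd3c) (nat_lit 0x0)
  (PL.C (nat_lit 0x296a8a) (nat_lit 0x0) (nat_lit 0xa1aa60f74790e)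
  (PL.C (nat_lit 0x296d69) (nat_lit 0x573839a6ce9b82) (nat_lit 0x0)
  (PL.C (nat_lit 0x29b010) (nat_lit 0x0) (nat_lit 0x29108159055f64)
  (PL.C (nat_lit 0x29bcd4) (nat_lit 0x0) (nat_lit 0xb845934d467229)
  (PL.C (nat_lit 0x29cbfe) (nat_lit 0x0) (nat_lit 0x16a1b9f10d3b604)
  (PL.C (nat_lit 0x29ea2e) (nat_lit 0x0) (nat_lit 0x817bd9c17a20da) gp3_0_17))))))))))))))))))))

noncomputable def gp3_0_15 : PL :=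
  (PL.C (nat_lit 0x258cf8) (nat_lit 0x11260e6c8c970e6) (nat_lit 0x0)
  (PL.C (nat_lit 0x25a6ca) (nat_lit 0x0) (nat_lit 0x10667e1241dacc3)
  (PL.C (nat_lit 0x25b6c9) (nat_lit 0x0) (nat_lit 0x1541127b6ebca8d)
  (PL.C (nat_lit 0x25c4f4) (nat_lit 0x0) (nat_lit 0xbcd702994814a9)
  (PL.C (nat_lit 0x25fe10) (nat_lit 0x19b390371fd3e6) (nat_lit 0x0)
  (PL.C (nat_lit 0x260efe) (nat_lit 0x6bc68ac3d260832) (nat_lit 0x0)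
  (PL.C (nat_lit 0x261984) (nat_lit 0x0) (nat_lit 0x350b444cdefc37)
  (PL.C (nat_lit 0x262f44) (nat_lit 0x0) (nat_lit 0xb845934d467229)
  (PL.C (nat_lit 0x263e6e) (nat_lit 0x2327b1423f29666) (nat_lit 0x0)
  (PL.C (nat_lit 0x2655c8) (nat_lit 0x3c777dcffce44e) (nat_lit 0x0)
  (PL.C (nat_lit 0x2657b2) (nat_lit 0x0) (nat_lit 0xe1fae9747d81af)
  (PL.C (nat_lit 0x266772) (nat_lit 0x0) (nat_lit 0x5b7c2a82ed31ea)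
  (PL.C (nat_lit 0x26d7d4) (nat_lit 0x461c87d1d02971c) (nat_lit 0x0)
  (PL.C (nat_lit 0x26db1c) (nat_lit 0x563b027ea2e25a) (nat_lit 0x0)
  (PL.C (nat_lit 0x2710fa) (nat_lit 0x1aab59fb111d8b) (nat_lit 0x0)
  (PL.C (nat_lit 0x275d08) (nat_lit 0x0) (nat_lit 0x8a5d745e81b650)
  (PL.C (nat_lit 0x2761a7) (nat_lit 0x0) (nat_lit 0x76ac38b5822120)
  (PL.C (nat_lit 0x27b9d3) (nat_lit 0x0) (nat_lit 0x23228bb24a65cab)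
  (PL.C (nat_lit 0x27e778) (nat_lit 0x0) (nat_lit 0x12773bf68f4fed)
  (PL.C (nat_lit 0x2812d4) (nat_lit 0x0) (nat_lit 0x276ee9dc20cba12) gp3_0_16))))))))))))))))))))

noncomputable def gp3_0_14 : PL :=
  (PL.C (nat_lit 0x2298a8) (nat_lit 0x11960476252b031) (nat_lit 0x0)
  (PL.C (nat_lit 0x22aca8) (nat_lit 0x101d7348e61526f) (nat_lit 0x0)
  (PL.C (nat_lit 0x22d1d8) (nat_lit 0x84f19ea7e3a11f) (nat_lit 0x0)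
  (PL.C (nat_lit 0x22f632) (nat_lit 0x0) (nat_lit 0x15450e3946722a)
  (PL.C (nat_lit 0x2301ea) (nat_lit 0x0) (nat_lit 0x198fb3e822a56b1)
  (PL.C (nat_lit 0x232503) (nat_lit 0x0) (nat_lit 0x740ff723130b92)
  (PL.C (nat_lit 0x234876) (nat_lit 0x0) (nat_lit 0x4e3207d92df823d)
  (PL.C (nat_lit 0x237666) (nat_lit 0x0) (nat_lit 0x30fcdc5a276ef9b)
  (PL.C (nat_lit 0x23e134) (nat_lit 0x0) (nat_lit 0xb6cd0605c056a3)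
  (PL.C (nat_lit 0x2404a4) (nat_lit 0x0) (nat_lit 0x179c22ffba7d262)
  (PL.C (nat_lit 0x241c38) (nat_lit 0x0) (nat_lit 0x7537067ebebec)
  (PL.C (nat_lit 0x2439a2) (nat_lit 0x0) (nat_lit 0x481ee375c623d60)
  (PL.C (nat_lit 0x2449d8) (nat_lit 0x0) (nat_lit 0x77b375005804d)
  (PL.C (nat_lit 0x248028) (nat_lit 0x286ad1bdfa38d2b) (nat_lit 0x0)
  (PL.C (nat_lit 0x24a6bc) (nat_lit 0x95e22ceeccdb78) (nat_lit 0x0)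
  (PL.C (nat_lit 0x24d098) (nat_lit 0x286ad1bdfa38d2b) (nat_lit 0x0)
  (PL.C (nat_lit 0x24e03c) (nat_lit 0x0) (nat_lit 0x172db249ba4a3f4)
  (PL.C (nat_lit 0x251cfa) (nat_lit 0x0) (nat_lit 0x53dad068b6d5fe)
  (PL.C (nat_lit 0x252628) (nat_lit 0x6157cb9ca8cbd5) (nat_lit 0x0)
  (PL.C (nat_lit 0x255486) (nat_lit 0x0) (nat_lit 0x160eba5baad14c1) gp3_0_15))))))))))))))))))))

noncomputable def gp3_0_13 : PL :=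
  (PL.C (nat_lit 0x1fcb24) (nat_lit 0x0) (nat_lit 0x276ee9dc20cba12)
  (PL.C (nat_lit 0x201250) (nat_lit 0x19b390371fd3e6) (nat_lit 0x0)
  (PL.C (nat_lit 0x201d10) (nat_lit 0x1fa594bd796627) (nat_lit 0x0)
  (PL.C (nat_lit 0x203d75) (nat_lit 0x63e00f6eda6f4) (nat_lit 0x0)
  (PL.C (nat_lit 0x2048a6) (nat_lit 0x410729c140aa85b) (nat_lit 0x0)
  (PL.C (nat_lit 0x205dfa) (nat_lit 0x0) (nat_lit 0x18576e8e47bd1e2)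
  (PL.C (nat_lit 0x2069f4) (nat_lit 0x3c4cd0f0c569411) (nat_lit 0x0)
  (PL.C (nat_lit 0x20841f) (nat_lit 0x0) (nat_lit 0xe4a71fea8c25c6)
  (PL.C (nat_lit 0x2096af) (nat_lit 0x0) (nat_lit 0x76ac38b5822120)
  (PL.C (nat_lit 0x20b78e) (nat_lit 0x90f700f67bf5561) (nat_lit 0x0)
  (PL.C (nat_lit 0x20ca24) (nat_lit 0x3daa8c46479a931) (nat_lit 0x0)
  (PL.C (nat_lit 0x20d818) (nat_lit 0xb5ef3cd124c235) (nat_lit 0x0)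
  (PL.C (nat_lit 0x21268b) (nat_lit 0x573839a6ce9b82) (nat_lit 0x0)
  (PL.C (nat_lit 0x21a638) (nat_lit 0x6670a8334c5fe2) (nat_lit 0x0)
  (PL.C (nat_lit 0x21daaf) (nat_lit 0x0) (nat_lit 0x615c8b8bcef59c)
  (PL.C (nat_lit 0x22267b) (nat_lit 0x12c4f16b1cd206b) (nat_lit 0x0)
  (PL.C (nat_lit 0x2231ac) (nat_lit 0x3c4cd0f0c569411) (nat_lit 0x0)
  (PL.C (nat_lit 0x224db8) (nat_lit 0x7d8c7e159fbb74) (nat_lit 0x0)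
  (PL.C (nat_lit 0x225d14) (nat_lit 0xc58063e1dccffc) (nat_lit 0x0)
  (PL.C (nat_lit 0x228b30) (nat_lit 0x0) (nat_lit 0x2ced9f6b20eacc) gp3_0_14))))))))))))))))))))

noncomputable def gp3_0_12 : PL :=
  (PL.C (nat_lit 0x1d2a7c) (nat_lit 0x19bd1733c161f29) (nat_lit 0x0)
  (PL.C (nat_lit 0x1d4548) (nat_lit 0x0) (nat_lit 0x26696c20c156b8a)
  (PL.C (nat_lit 0x1d7b34) (nat_lit 0x1221c8434ae62c1) (nat_lit 0x0)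
  (PL.C (nat_lit 0x1d9d70) (nat_lit 0x0) (nat_lit 0x613649b9ce099c)
  (PL.C (nat_lit 0x1da894) (nat_lit 0x0) (nat_lit 0x4a101184f2a9e3)
  (PL.C (nat_lit 0x1dbab0) (nat_lit 0x0) (nat_lit 0xd196d7e8da9d0d)
  (PL.C (nat_lit 0x1dbc2c) (nat_lit 0x0) (nat_lit 0x3a9c4fa71c13ee0)
  (PL.C (nat_lit 0x1dc8ce) (nat_lit 0x0) (nat_lit 0x4e3207d92df823d)
  (PL.C (nat_lit 0x1e26bb) (nat_lit 0x7ef441a08997bb) (nat_lit 0x0)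
  (PL.C (nat_lit 0x1e4bdc) (nat_lit 0x0) (nat_lit 0xa21477004b8278)
  (PL.C (nat_lit 0x1e5523) (nat_lit 0x0) (nat_lit 0x15cef361f4c6e2)
  (PL.C (nat_lit 0x1e692d) (nat_lit 0x7ef441a08997bb) (nat_lit 0x0)
  (PL.C (nat_lit 0x1e818a) (nat_lit 0x34a6bc93d659d2) (nat_lit 0x0)
  (PL.C (nat_lit 0x1ebd57) (nat_lit 0x0) (nat_lit 0x2d7302212248845)
  (PL.C (nat_lit 0x1ef684) (nat_lit 0x0) (nat_lit 0xcd958109242204)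
  (PL.C (nat_lit 0x1efc21) (nat_lit 0x0) (nat_lit 0x275e2c2fc06a5cf)
  (PL.C (nat_lit 0x1f860c) (nat_lit 0x0) (nat_lit 0xbcd702994814a9)
  (PL.C (nat_lit 0x1fa5d8) (nat_lit 0x4df8de3ffc3e93) (nat_lit 0x0)
  (PL.C (nat_lit 0x1fb2d8) (nat_lit 0x9b44ade2b44b16) (nat_lit 0x0)
  (PL.C (nat_lit 0x1fbd78) (nat_lit 0x32257044658caa6) (nat_lit 0x0) gp3_0_13))))))))))))))))))))

noncomputable def gp3_0_11 : PL :=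
  (PL.C (nat_lit 0x1ab738) (nat_lit 0x0) (nat_lit 0xcc21d2464771e9)
  (PL.C (nat_lit 0x1ad6b4) (nat_lit 0x193bc185926f1aa) (nat_lit 0x0)
  (PL.C (nat_lit 0x1ae3f0) (nat_lit 0x0) (nat_lit 0xd196d7e8da9d0d)
  (PL.C (nat_lit 0x1b0128) (nat_lit 0x0) (nat_lit 0xd2df6e2a0f9d76)
  (PL.C (nat_lit 0x1b5cc4) (nat_lit 0x0) (nat_lit 0x798650a5df13969)
  (PL.C (nat_lit 0x1b72db) (nat_lit 0x5311b8ac9959d8) (nat_lit 0x0)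
  (PL.C (nat_lit 0x1b73f8) (nat_lit 0xf20eb1b3ce4d13) (nat_lit 0x0)
  (PL.C (nat_lit 0x1b8064) (nat_lit 0x0) (nat_lit 0x179c22ffba7d262)
  (PL.C (nat_lit 0x1b9c5c) (nat_lit 0x0) (nat_lit 0x2c23ca354aa2a7)
  (PL.C (nat_lit 0x1b9e46) (nat_lit 0x0) (nat_lit 0x4aab963ba9ae90b)
  (PL.C (nat_lit 0x1bd338) (nat_lit 0x0) (nat_lit 0xa464b5f4820d2b)
  (PL.C (nat_lit 0x1bf174) (nat_lit 0x4545eadbc1ad04) (nat_lit 0x0)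
  (PL.C (nat_lit 0x1bfbf7) (nat_lit 0x82d2402690ed67b) (nat_lit 0x0)
  (PL.C (nat_lit 0x1c13b2) (nat_lit 0x0) (nat_lit 0x7a956d403408da)
  (PL.C (nat_lit 0x1c17cc) (nat_lit 0x5cc68be1a39f12f) (nat_lit 0x0)
  (PL.C (nat_lit 0x1c3004) (nat_lit 0xa496b99f5dbfbc) (nat_lit 0x0)
  (PL.C (nat_lit 0x1c3d01) (nat_lit 0x158a54e3382e3f3) (nat_lit 0x0)
  (PL.C (nat_lit 0x1c6c68) (nat_lit 0x84f19ea7e3a11f) (nat_lit 0x0)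
  (PL.C (nat_lit 0x1c7f73) (nat_lit 0x0) (nat_lit 0xd62fe10efc5e1d9)
  (PL.C (nat_lit 0x1c8490) (nat_lit 0x27ee47781bc7d9) (nat_lit 0x0) gp3_0_12))))))))))))))))))))

noncomputable def gp3_0_10 : PL :=
  (PL.C (nat_lit 0x18e304) (nat_lit 0x0) (nat_lit 0x3a9c4fa71c13ee0)
  (PL.C (nat_lit 0x1919dc) (nat_lit 0x1221c8434ae62c1) (nat_lit 0x0)
  (PL.C (nat_lit 0x192486) (nat_lit 0x0) (nat_lit 0x16a1b9f10d3b604)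
  (PL.C (nat_lit 0x192df8) (nat_lit 0x0) (nat_lit 0x155556802e83b6)
  (PL.C (nat_lit 0x195f54) (nat_lit 0x2315e5bd4812e4c6) (nat_lit 0x0)
  (PL.C (nat_lit 0x196658) (nat_lit 0x7d8c7e159fbb74) (nat_lit 0x0)
  (PL.C (nat_lit 0x1974d8) (nat_lit 0x0) (nat_lit 0xa464b5f4820d2b)
  (PL.C (nat_lit 0x197ef4) (nat_lit 0xa496b99f5dbfbc) (nat_lit 0x0)
  (PL.C (nat_lit 0x198fcc) (nat_lit 0x11994bd65e74303) (nat_lit 0x0)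
  (PL.C (nat_lit 0x199a4c) (nat_lit 0x95e22ceeccdb78) (nat_lit 0x0)
  (PL.C (nat_lit 0x19e538) (nat_lit 0x0) (nat_lit 0x26696c20c156b8a)
  (PL.C (nat_lit 0x19e768) (nat_lit 0x53539ac49b545a) (nat_lit 0x0)
  (PL.C (nat_lit 0x19f2f3) (nat_lit 0x0) (nat_lit 0x2d7302212248845)
  (PL.C (nat_lit 0x1a134b) (nat_lit 0x12c4f16b1cd206b) (nat_lit 0x0)
  (PL.C (nat_lit 0x1a2485) (nat_lit 0x444a519cc5d76) (nat_lit 0x0)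
  (PL.C (nat_lit 0x1a411a) (nat_lit 0x0) (nat_lit 0x23d87e4bd97614a)
  (PL.C (nat_lit 0x1a6cdf) (nat_lit 0x2f0960fea3afc2d) (nat_lit 0x0)
  (PL.C (nat_lit 0x1a7be2) (nat_lit 0x0) (nat_lit 0x30fcdc5a276ef9b)
  (PL.C (nat_lit 0x1a9a50) (nat_lit 0x0) (nat_lit 0x2ced9f6b20eacc)
  (PL.C (nat_lit 0x1aa2d9) (nat_lit 0x877635f059ee597) (nat_lit 0x0) gp3_0_11))))))))))))))))))))

noncomputable def gp3_0_9 : PL :=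
  (PL.C (nat_lit 0x167b1d) (nat_lit 0x2d8c0e4044f62d) (nat_lit 0x0)
  (PL.C (nat_lit 0x1691ca) (nat_lit 0x0) (nat_lit 0x16a321b4e45fc8b)
  (PL.C (nat_lit 0x16c452) (nat_lit 0x37238452d6790f5) (nat_lit 0x0)
  (PL.C (nat_lit 0x16cbc8) (nat_lit 0x15088166d1550f7) (nat_lit 0x0)
  (PL.C (nat_lit 0x16e8b8) (nat_lit 0x11960476252b031) (nat_lit 0x0)
  (PL.C (nat_lit 0x171070) (nat_lit 0x0) (nat_lit 0x223d5cda334c26)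
  (PL.C (nat_lit 0x173690) (nat_lit 0xc5691d19478a) (nat_lit 0x0)
  (PL.C (nat_lit 0x17569c) (nat_lit 0x0) (nat_lit 0xa17b1ad0045607)
  (PL.C (nat_lit 0x176e02) (nat_lit 0x0) (nat_lit 0x817bd9c17a20da)
  (PL.C (nat_lit 0x1785a4) (nat_lit 0x0) (nat_lit 0x243aa55636d3f7e)
  (PL.C (nat_lit 0x17a444) (nat_lit 0x0) (nat_lit 0x2a96ae43da9a907)
  (PL.C (nat_lit 0x17eb78) (nat_lit 0x0) (nat_lit 0x6707317d32124d)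
  (PL.C (nat_lit 0x180318) (nat_lit 0x0) (nat_lit 0x11b085d81d663c0)
  (PL.C (nat_lit 0x180e7f) (nat_lit 0x1ee36e54dddf0c27) (nat_lit 0x0)
  (PL.C (nat_lit 0x1812d0) (nat_lit 0x27ee47781bc7d9) (nat_lit 0x0)
  (PL.C (nat_lit 0x18266c) (nat_lit 0x0) (nat_lit 0x7d1c552491a30de)
  (PL.C (nat_lit 0x185570) (nat_lit 0xac083c981e60b7) (nat_lit 0x0)
  (PL.C (nat_lit 0x186f28) (nat_lit 0x0) (nat_lit 0x18ce783eacff689)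
  (PL.C (nat_lit 0x188b10) (nat_lit 0xac083c981e60b7) (nat_lit 0x0)
  (PL.C (nat_lit 0x18bdfc) (nat_lit 0x0) (nat_lit 0x701642366ac5d5) gp3_0_10))))))))))))))))))))

noncomputable def gp3_0_8 : PL :=
  (PL.C (nat_lit 0x1419d2) (nat_lit 0x0) (nat_lit 0xfbc9eb77077eab)
  (PL.C (nat_lit 0x1438c2) (nat_lit 0xbf8c4ec2f45a8b) (nat_lit 0x0)
  (PL.C (nat_lit 0x14461e) (nat_lit 0x0) (nat_lit 0xfbc9eb77077eab)
  (PL.C (nat_lit 0x144ebb) (nat_lit 0x0) (nat_lit 0xd62fe10efc5e1d9)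
  (PL.C (nat_lit 0x14565c) (nat_lit 0x0) (nat_lit 0x16b11289ec1016)
  (PL.C (nat_lit 0x147e3a) (nat_lit 0x0) (nat_lit 0x1cc9a06a1d867aa8)
  (PL.C (nat_lit 0x14a816) (nat_lit 0x0) (nat_lit 0x25e48be7f49a0e9)
  (PL.C (nat_lit 0x150408) (nat_lit 0x0) (nat_lit 0x155556802e83b6)
  (PL.C (nat_lit 0x153218) (nat_lit 0x0) (nat_lit 0xcc21d2464771e9)
  (PL.C (nat_lit 0x153495) (nat_lit 0x16cb01d41f3a0be) (nat_lit 0x0)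
  (PL.C (nat_lit 0x157e4e) (nat_lit 0x34a6bc93d659d2) (nat_lit 0x0)
  (PL.C (nat_lit 0x1593fc) (nat_lit 0x1aa745a28fd0348) (nat_lit 0x0)
  (PL.C (nat_lit 0x159bf8) (nat_lit 0x15088166d1550f7) (nat_lit 0x0)
  (PL.C (nat_lit 0x15ad6a) (nat_lit 0x0) (nat_lit 0x18576e8e47bd1e2)
  (PL.C (nat_lit 0x15b9ca) (nat_lit 0x0) (nat_lit 0x23d87e4bd97614a)
  (PL.C (nat_lit 0x15cfb4) (nat_lit 0x50f4c24e1f92b96) (nat_lit 0x0)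
  (PL.C (nat_lit 0x15dc18) (nat_lit 0x101d7348e61526f) (nat_lit 0x0)
  (PL.C (nat_lit 0x1619b2) (nat_lit 0x0) (nat_lit 0x4aab963ba9ae90b)
  (PL.C (nat_lit 0x164e9b) (nat_lit 0x0) (nat_lit 0x1b0d91fded28773)
  (PL.C (nat_lit 0x166ed0) (nat_lit 0x1fa594bd796627) (nat_lit 0x0) gp3_0_9))))))))))))))))))))

noncomputable def gp3_0_7 : PL :=
  (PL.C (nat_lit 0x11e478) (nat_lit 0x4df8de3ffc3e93) (nat_lit 0x0)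
  (PL.C (nat_lit 0x123aad) (nat_lit 0x0) (nat_lit 0x127b0f2c0aab83)
  (PL.C (nat_lit 0x123dd8) (nat_lit 0x0) (nat_lit 0xd2df6e2a0f9d76)
  (PL.C (nat_lit 0x124c92) (nat_lit 0x0) (nat_lit 0xe1fae9747d81af)
  (PL.C (nat_lit 0x124d50) (nat_lit 0x0) (nat_lit 0x613649b9ce099c)
  (PL.C (nat_lit 0x125598) (nat_lit 0x0) (nat_lit 0x11b085d81d663c0)
  (PL.C (nat_lit 0x126984) (nat_lit 0xe3241506fcf7fb1) (nat_lit 0x0)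
  (PL.C (nat_lit 0x128cd0) (nat_lit 0x0) (nat_lit 0x589428a02f8456)
  (PL.C (nat_lit 0x12a0f8) (nat_lit 0x160074a3d1a07ee) (nat_lit 0x0)
  (PL.C (nat_lit 0x12a7fa) (nat_lit 0x90f700f67bf5561) (nat_lit 0x0)
  (PL.C (nat_lit 0x12b7cc) (nat_lit 0x0) (nat_lit 0xb6cd0605c056a3)
  (PL.C (nat_lit 0x12ba88) (nat_lit 0xb5ef3cd124c235) (nat_lit 0x0)
  (PL.C (nat_lit 0x12d356) (nat_lit 0x14ac4be374caa84) (nat_lit 0x0)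
  (PL.C (nat_lit 0x12f2f0) (nat_lit 0xc5691d19478a) (nat_lit 0x0)
  (PL.C (nat_lit 0x12ffa2) (nat_lit 0x0) (nat_lit 0x3ef07bb540badc4)
  (PL.C (nat_lit 0x1371a8) (nat_lit 0x0) (nat_lit 0x7a78c8cb424584)
  (PL.C (nat_lit 0x13a778) (nat_lit 0xfeb5e60bee2749) (nat_lit 0x0)
  (PL.C (nat_lit 0x13c5b8) (nat_lit 0x3c777dcffce44e) (nat_lit 0x0)
  (PL.C (nat_lit 0x13d2c8) (nat_lit 0x0) (nat_lit 0x15abed81b5943a)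
  (PL.C (nat_lit 0x13db34) (nat_lit 0x0) (nat_lit 0x243aa55636d3f7e) gp3_0_8))))))))))))))))))))

noncomputable def gp3_0_6 : PL :=
  (PL.C (nat_lit 0xf9eac) (nat_lit 0x4545eadbc1ad04) (nat_lit 0x0)
  (PL.C (nat_lit 0xfc2d8) (nat_lit 0x0) (nat_lit 0x1ec2439f3a67403)
  (PL.C (nat_lit 0xff250) (nat_lit 0x0) (nat_lit 0x1b6670e140e65f)
  (PL.C (nat_lit 0xff98d) (nat_lit 0x0) (nat_lit 0x615c8b8bcef59c)
  (PL.C (nat_lit 0x100210) (nat_lit 0x16f390c321ff0e9) (nat_lit 0x0)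
  (PL.C (nat_lit 0x1009aa) (nat_lit 0x15e31cc8b7cd494) (nat_lit 0x0)
  (PL.C (nat_lit 0x107ea8) (nat_lit 0xd0c9e3335fd3c) (nat_lit 0x0)
  (PL.C (nat_lit 0x109758) (nat_lit 0x0) (nat_lit 0x15abed81b5943a)
  (PL.C (nat_lit 0x10bbe8) (nat_lit 0xfeb5e60bee2749) (nat_lit 0x0)
  (PL.C (nat_lit 0x10c950) (nat_lit 0x0) (nat_lit 0x12edb2fc76fa0a)
  (PL.C (nat_lit 0x10ea38) (nat_lit 0x4b27821d5fa9cc2) (nat_lit 0x0)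
  (PL.C (nat_lit 0x10f890) (nat_lit 0x0) (nat_lit 0x589428a02f8456)
  (PL.C (nat_lit 0x111188) (nat_lit 0x0) (nat_lit 0x18ce783eacff689)
  (PL.C (nat_lit 0x1144f0) (nat_lit 0x0) (nat_lit 0x4818cab80e1198)
  (PL.C (nat_lit 0x114ca2) (nat_lit 0x0) (nat_lit 0x1cc9a06a1d867aa8)
  (PL.C (nat_lit 0x116232) (nat_lit 0x37238452d6790f5) (nat_lit 0x0)
  (PL.C (nat_lit 0x116dae) (nat_lit 0x0) (nat_lit 0x16f44d6c5586ecb)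
  (PL.C (nat_lit 0x1180bc) (nat_lit 0x0) (nat_lit 0x436007e6f55eac2)
  (PL.C (nat_lit 0x119dea) (nat_lit 0x9bac8fad53ff0b5) (nat_lit 0x0)
  (PL.C (nat_lit 0x11a7ec) (nat_lit 0x0) (nat_lit 0x2a96ae43da9a907) gp3_0_7))))))))))))))))))))

noncomputable def gp3_0_5 : PL :=
  (PL.C (nat_lit 0xd8414) (nat_lit 0x126f05259644f12) (nat_lit 0x0)
  (PL.C (nat_lit 0xd89d2) (nat_lit 0x0) (nat_lit 0x3ef07bb540badc4)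
  (PL.C (nat_lit 0xd8ee8) (nat_lit 0x0) (nat_lit 0x148f80d5f2489a)
  (PL.C (nat_lit 0xda97c) (nat_lit 0x0) (nat_lit 0xed69a17f2b2cb94)
  (PL.C (nat_lit 0xdf8f9) (nat_lit 0x1a943051fe593213) (nat_lit 0x0)
  (PL.C (nat_lit 0xe02b0) (nat_lit 0x0) (nat_lit 0x12edb2fc76fa0a)
  (PL.C (nat_lit 0xe230e) (nat_lit 0x325288ff2324ce1) (nat_lit 0x0)
  (PL.C (nat_lit 0xe5434) (nat_lit 0x0) (nat_lit 0x16b11289ec1016)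
  (PL.C (nat_lit 0xe62a8) (nat_lit 0xc981e0e7c59ea) (nat_lit 0x0)
  (PL.C (nat_lit 0xe739c) (nat_lit 0x1aa745a28fd0348) (nat_lit 0x0)
  (PL.C (nat_lit 0xe7bdc) (nat_lit 0x0) (nat_lit 0x436007e6f55eac2)
  (PL.C (nat_lit 0xe8a78) (nat_lit 0x3e45d5a8f2a9b3) (nat_lit 0x0)
  (PL.C (nat_lit 0xebbcc) (nat_lit 0xe3241506fcf7fb1) (nat_lit 0x0)
  (PL.C (nat_lit 0xec7b1) (nat_lit 0x444a519cc5d76) (nat_lit 0x0)
  (PL.C (nat_lit 0xed021) (nat_lit 0x16cb01d41f3a0be) (nat_lit 0x0)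
  (PL.C (nat_lit 0xedf12) (nat_lit 0x0) (nat_lit 0xa8b737a943dc94b)
  (PL.C (nat_lit 0xefcbe) (nat_lit 0x761fa6afbbf946) (nat_lit 0x0)
  (PL.C (nat_lit 0xf0bdc) (nat_lit 0x0) (nat_lit 0x1f3273466d15ee7)
  (PL.C (nat_lit 0xf1185) (nat_lit 0x0) (nat_lit 0x1b0d91fded28773)
  (PL.C (nat_lit 0xf45d0) (nat_lit 0x0) (nat_lit 0x223d5cda334c26) gp3_0_6))))))))))))))))))))

noncomputable def gp3_0_4 : PL :=
  (PL.C (nat_lit 0xb9e74) (nat_lit 0x1caaa4a85eca72d) (nat_lit 0x0)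
  (PL.C (nat_lit 0xbab28) (nat_lit 0x0) (nat_lit 0x49c7c83ce331c03)
  (PL.C (nat_lit 0xbbe9c) (nat_lit 0x21f65d3a917bba3) (nat_lit 0x0)
  (PL.C (nat_lit 0xbc548) (nat_lit 0x0) (nat_lit 0x1ec2439f3a67403)
  (PL.C (nat_lit 0xc02f1) (nat_lit 0x0) (nat_lit 0x243311dd95cc010)
  (PL.C (nat_lit 0xc271e) (nat_lit 0x0) (nat_lit 0xed13c510245e82)
  (PL.C (nat_lit 0xc330c) (nat_lit 0x11994bd65e74303) (nat_lit 0x0)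
  (PL.C (nat_lit 0xc3910) (nat_lit 0x16f390c321ff0e9) (nat_lit 0x0)
  (PL.C (nat_lit 0xc4658) (nat_lit 0x10690d5c113f384) (nat_lit 0x0)
  (PL.C (nat_lit 0xc5de0) (nat_lit 0x1dcc4c73a70360) (nat_lit 0x0)
  (PL.C (nat_lit 0xc6b50) (nat_lit 0x197a0ea262ffb3) (nat_lit 0x0)
  (PL.C (nat_lit 0xc6ffc) (nat_lit 0x50f4c24e1f92b96) (nat_lit 0x0)
  (PL.C (nat_lit 0xc7a88) (nat_lit 0x0) (nat_lit 0x6707317d32124d)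
  (PL.C (nat_lit 0xcb859) (nat_lit 0x2f0960fea3afc2d) (nat_lit 0x0)
  (PL.C (nat_lit 0xcf41d) (nat_lit 0x6ed7c2174e6626c) (nat_lit 0x0)
  (PL.C (nat_lit 0xcf670) (nat_lit 0x8d403a06d736aa) (nat_lit 0x0)
  (PL.C (nat_lit 0xd1a50) (nat_lit 0x8d0132258900dc) (nat_lit 0x0)
  (PL.C (nat_lit 0xd3730) (nat_lit 0x0) (nat_lit 0x14de2f0767d1754)
  (PL.C (nat_lit 0xd668c) (nat_lit 0x126f05259644f12) (nat_lit 0x0)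
  (PL.C (nat_lit 0xd7b2c) (nat_lit 0x0) (nat_lit 0xcd958109242204) gp3_0_5))))))))))))))))))))

noncomputable def gp3_0_3 : PL :=
  (PL.C (nat_lit 0x98d78) (nat_lit 0x0) (nat_lit 0x148f80d5f2489a)
  (PL.C (nat_lit 0x9a268) (nat_lit 0xc981e0e7c59ea) (nat_lit 0x0)
  (PL.C (nat_lit 0x9a7e8) (nat_lit 0x0) (nat_lit 0x49c7c83ce331c03)
  (PL.C (nat_lit 0x9d288) (nat_lit 0x10690d5c113f384) (nat_lit 0x0)
  (PL.C (nat_lit 0x9da76) (nat_lit 0x0) (nat_lit 0x16f44d6c5586ecb)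
  (PL.C (nat_lit 0x9e016) (nat_lit 0x325288ff2324ce1) (nat_lit 0x0)
  (PL.C (nat_lit 0x9ea0c) (nat_lit 0x0) (nat_lit 0x70d9040799efc52)
  (PL.C (nat_lit 0x9fdd4) (nat_lit 0x10917a105127c69) (nat_lit 0x0)
  (PL.C (nat_lit 0xa07e8) (nat_lit 0x0) (nat_lit 0xda65f911c2d135)
  (PL.C (nat_lit 0xa0bae) (nat_lit 0x0) (nat_lit 0xa8b737a943dc94b)
  (PL.C (nat_lit 0xa69c8) (nat_lit 0x160074a3d1a07ee) (nat_lit 0x0)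
  (PL.C (nat_lit 0xaa65e) (nat_lit 0x0) (nat_lit 0x16a321b4e45fc8b)
  (PL.C (nat_lit 0xab11c) (nat_lit 0x145a6762adaf423) (nat_lit 0x0)
  (PL.C (nat_lit 0xaef51) (nat_lit 0x6ed7c2174e6626c) (nat_lit 0x0)
  (PL.C (nat_lit 0xb0f90) (nat_lit 0x0) (nat_lit 0x14de2f0767d1754)
  (PL.C (nat_lit 0xb27f0) (nat_lit 0x8d0132258900dc) (nat_lit 0x0)
  (PL.C (nat_lit 0xb30e0) (nat_lit 0x0) (nat_lit 0x86a40d70322e6)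
  (PL.C (nat_lit 0xb46d0) (nat_lit 0x2b6ae6b39de8950) (nat_lit 0x0)
  (PL.C (nat_lit 0xb5060) (nat_lit 0x1dcc4c73a70360) (nat_lit 0x0)
  (PL.C (nat_lit 0xb886c) (nat_lit 0x0) (nat_lit 0xed69a17f2b2cb94) gp3_0_4))))))))))))))))))))

noncomputable def gp3_0_2 : PL :=
  (PL.C (nat_lit 0x6d96b) (nat_lit 0x0) (nat_lit 0x243311dd95cc010)
  (PL.C (nat_lit 0x6f130) (nat_lit 0x197a0ea262ffb3) (nat_lit 0x0)
  (PL.C (nat_lit 0x71994) (nat_lit 0x0) (nat_lit 0x1f3273466d15ee7)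
  (PL.C (nat_lit 0x742e3) (nat_lit 0x0) (nat_lit 0x127b0f2c0aab83)
  (PL.C (nat_lit 0x74a36) (nat_lit 0x15400675388beb3) (nat_lit 0x0)
  (PL.C (nat_lit 0x7b048) (nat_lit 0x0) (nat_lit 0x7a14c0de101a303)
  (PL.C (nat_lit 0x7c770) (nat_lit 0x2b118ce0519b95) (nat_lit 0x0)
  (PL.C (nat_lit 0x801f6) (nat_lit 0x0) (nat_lit 0x3bfc05189bacffb)
  (PL.C (nat_lit 0x81a14) (nat_lit 0x0) (nat_lit 0x1429e768a8109e8)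
  (PL.C (nat_lit 0x84aa8) (nat_lit 0x3e45d5a8f2a9b3) (nat_lit 0x0)
  (PL.C (nat_lit 0x851b0) (nat_lit 0x0) (nat_lit 0x1b6670e140e65f)
  (PL.C (nat_lit 0x87ae6) (nat_lit 0x9bac8fad53ff0b5) (nat_lit 0x0)
  (PL.C (nat_lit 0x8a2be) (nat_lit 0x15400675388beb3) (nat_lit 0x0)
  (PL.C (nat_lit 0x8ef08) (nat_lit 0x9ce72d2ebaa44) (nat_lit 0x0)
  (PL.C (nat_lit 0x902b8) (nat_lit 0x9ce72d2ebaa44) (nat_lit 0x0)
  (PL.C (nat_lit 0x909f0) (nat_lit 0xacc5764f6a3f7) (nat_lit 0x0)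
  (PL.C (nat_lit 0x91ba8) (nat_lit 0x0) (nat_lit 0x7a14c0de101a303)
  (PL.C (nat_lit 0x950a6) (nat_lit 0x8ef098e70b2073e) (nat_lit 0x0)
  (PL.C (nat_lit 0x95720) (nat_lit 0x0) (nat_lit 0x86a40d70322e6)
  (PL.C (nat_lit 0x96cb4) (nat_lit 0x5502af1a5471dec) (nat_lit 0x0) gp3_0_3))))))))))))))))))))

noncomputable def gp3_0_1 : PL :=
  (PL.C (nat_lit 0x52030) (nat_lit 0x0) (nat_lit 0x2d665acc6351591)
  (PL.C (nat_lit 0x52fa0) (nat_lit 0x0) (nat_lit 0x3c45013266ff62)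
  (PL.C (nat_lit 0x556a4) (nat_lit 0x0) (nat_lit 0x63582765aa640ba)
  (PL.C (nat_lit 0x566b8) (nat_lit 0x0) (nat_lit 0x696024b3edbaf1)
  (PL.C (nat_lit 0x5a744) (nat_lit 0x21f65d3a917bba3) (nat_lit 0x0)
  (PL.C (nat_lit 0x5e353) (nat_lit 0xe13b4c40647cdfe) (nat_lit 0x0)
  (PL.C (nat_lit 0x5f4b0) (nat_lit 0x0) (nat_lit 0x120407df83ec52d)
  (PL.C (nat_lit 0x601d0) (nat_lit 0x0) (nat_lit 0x120407df83ec52d)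
  (PL.C (nat_lit 0x606a0) (nat_lit 0x0) (nat_lit 0x21b7805d23a79c)
  (PL.C (nat_lit 0x61270) (nat_lit 0x0) (nat_lit 0x2d665acc6351591)
  (PL.C (nat_lit 0x635c4) (nat_lit 0x16d1c02c47a34b84) (nat_lit 0x0)
  (PL.C (nat_lit 0x64878) (nat_lit 0x25091d382915b09) (nat_lit 0x0)
  (PL.C (nat_lit 0x65e50) (nat_lit 0xacc5764f6a3f7) (nat_lit 0x0)
  (PL.C (nat_lit 0x66ff0) (nat_lit 0x2b118ce0519b95) (nat_lit 0x0)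
  (PL.C (nat_lit 0x691a4) (nat_lit 0x1caaa4a85eca72d) (nat_lit 0x0)
  (PL.C (nat_lit 0x69564) (nat_lit 0x5502af1a5471dec) (nat_lit 0x0)
  (PL.C (nat_lit 0x69c08) (nat_lit 0x0) (nat_lit 0x9028f939331d6c)
  (PL.C (nat_lit 0x6a938) (nat_lit 0xf8cdf5f4978d74) (nat_lit 0x0)
  (PL.C (nat_lit 0x6aff0) (nat_lit 0xf0e0b2f84269e) (nat_lit 0x0)
  (PL.C (nat_lit 0x6b274) (nat_lit 0x0) (nat_lit 0x70d9040799efc52) gp3_0_2))))))))))))))))))))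

noncomputable def gp3_0 : PL :=
  (PL.C (nat_lit 0x1f360) (nat_lit 0x53e7d1a870fe35) (nat_lit 0x0)
  (PL.C (nat_lit 0x1f940) (nat_lit 0xca655f1ac054a) (nat_lit 0x0)
  (PL.C (nat_lit 0x226c8) (nat_lit 0x0) (nat_lit 0x696024b3edbaf1)
  (PL.C (nat_lit 0x2c290) (nat_lit 0x574dff44e7ff959) (nat_lit 0x0)
  (PL.C (nat_lit 0x2cae0) (nat_lit 0x53e7d1a870fe35) (nat_lit 0x0)
  (PL.C (nat_lit 0x2ed10) (nat_lit 0x6e239439a94028) (nat_lit 0x0)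
  (PL.C (nat_lit 0x2f5e0) (nat_lit 0x0) (nat_lit 0x255c75baecb560)
  (PL.C (nat_lit 0x30b4c) (nat_lit 0x0) (nat_lit 0x63582765aa640ba)
  (PL.C (nat_lit 0x327d0) (nat_lit 0xf0e0b2f84269e) (nat_lit 0x0)
  (PL.C (nat_lit 0x33a2c) (nat_lit 0x0) (nat_lit 0x1429e768a8109e8)
  (PL.C (nat_lit 0x423d8) (nat_lit 0x9253c457074050) (nat_lit 0x0)
  (PL.C (nat_lit 0x43050) (nat_lit 0x6e239439a94028) (nat_lit 0x0)
  (PL.C (nat_lit 0x43ee0) (nat_lit 0x0) (nat_lit 0x21b7805d23a79c)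
  (PL.C (nat_lit 0x44aa0) (nat_lit 0x0) (nat_lit 0x3c45013266ff62)
  (PL.C (nat_lit 0x46398) (nat_lit 0x25091d382915b09) (nat_lit 0x0)
  (PL.C (nat_lit 0x470d0) (nat_lit 0xb270991760e20b) (nat_lit 0x0)
  (PL.C (nat_lit 0x476f8) (nat_lit 0x0) (nat_lit 0x9028f939331d6c)
  (PL.C (nat_lit 0x490f2) (nat_lit 0x0) (nat_lit 0x3bfc05189bacffb)
  (PL.C (nat_lit 0x4bbb8) (nat_lit 0x0) (nat_lit 0xda65f911c2d135)
  (PL.C (nat_lit 0x4d742) (nat_lit 0x0) (nat_lit 0xed13c510245e82) gp3_0_1))))))))))))))))))))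

theorem chk3_0 : eqP (sm (grl (nat_lit 78) (nat_lit 33) (nat_lit 18889465931478580854784) (nat_lit 4) us3 cs3)) gp3_0 = true := by decide +kernel


end Pool.Agent.Work.MP_440970_an.FX.D1
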