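import Pool.Agent.Work.MP_440970_an.FX.Prog

/-!
# Data of the certificate, `p = 13 / 35`: block 7
-/

set_option autoImplicit false
set_option maxRecDepth 1000000

namespace Pool.Agent.Work.MP_440970_an.FX.D1

noncomputable def cs7 : NL :=
  (NL.C (nat_lit 0xd622)
  (NL.C (nat_lit 0x6662)
  (NL.C (nat_lit 0xd660)
  (NL.C (nat_lit 0xd661)
  (NL.C (nat_lit 0xd642)
  (NL.C (nat_lit 0xb662)
  (NL.C (nat_lit 0x6664)
  (NL.C (nat_lit 0xd644)
  (NL.C (nat_lit 0xb664)
  (NL.C (nat_lit 0x9666) NL.Z))))))))))

noncomputable def us7_1 : NL :=
  (NL.C (nat_lit 0x7ffe735dc000000000020015e60d000000000008000000000000000000200000000000000000008000000000000000000200000000000000000008000000000000000000200000000000000000008000000000000000000200000000)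
  (NL.C (nat_lit 0x80069a9d80000000000200000000000000000008000000000000000000200000000000000000008000000000000000000200000000000000000008000000000000000000200000000000000000008000000000000000000200000000) NL.Z))

noncomputable def us7 : NL :=
  (NL.C (nat_lit 0x7ff962fc4000000000020024cb20000000000007ffa067a400000000001ffc7c071000000000007ff197e5800000000002006e73da0000000000080040d92c00000000001fff7e18e000000000007fa725a840000000000200f4cb0f)
  (NL.C (nat_lit 0x8000cd04000000000002001f1260000000000007ff7e880400000000001ffdaa44f000000000008028573e800000000001ff994243000000000008002a7574000000000020002ac7000000000000801eeb1940000000000200000000)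
  (NL.C (nat_lit 0x7fffaa34000000000001fff4ece9000000000008002109ac00000000001ffa5ee39000000000008002b6be800000000001ffef69db000000000008000cf22400000000002003fea4a000000000008000000000000000000200000000)
  (NL.C (nat_lit 0x7feb16edc00000000002001fd4bf000000000008000bcd4c00000000001ffe518e1000000000007ffcbaaf80000000000200016de800000000000800db40f80000000000200000000000000000008000000000000000000200000000)
  (NL.C (nat_lit 0x800292df400000000001ff89289000000000000801c5240800000000001fed6fbd8000000000007fe49d3c800000000002013734d4000000000008000000000000000000200000000000000000008000000000000000000200000000)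
  (NL.C (nat_lit 0x7ffb393c800000000002001f01cc000000000007ffcc62dc00000000001ff355d80000000000008025b32800000000000200000000000000000008000000000000000000200000000000000000008000000000000000000200000000)
  (NL.C (nat_lit 0x7fff5812000000000002005ccc3e000000000007ff3e992c0000000000200909571000000000008000000000000000000200000000000000000008000000000000000000200000000000000000008000000000000000000200000000)
  (NL.C (nat_lit 0x80005d02400000000001ffa436db00000000000801b6805c0000000000200000000000000000008000000000000000000200000000000000000008000000000000000000200000000000000000008000000000000000000200000000) us7_1))))))))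

theorem gok7 : gok (nat_lit 78) (nat_lit 33) (nat_lit 18889465931478580854784) us7 cs7 = true := by decide +kernel

end Pool.Agent.Work.MP_440970_an.FX.D1
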