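import Pool.Agent.Work.MP_440970_an.FX.Prog

/-!
# Data of the certificate, `p = 13 / 35`: block 8
-/

set_option autoImplicit false
set_option maxRecDepth 1000000

namespace Pool.Agent.Work.MP_440970_an.FX.D1

noncomputable def cs8 : NL :=
  (NL.C (nat_lit 0xd662)
  (NL.C (nat_lit 0x6666)
  (NL.C (nat_lit 0xd664)
  (NL.C (nat_lit 0xb666) NL.Z))))

noncomputable def us8 : NL :=
  (NL.C (nat_lit 0x7ff86b2fc00000000002002079a5000000000007fe5a539c00000000002004a0e7e)
  (NL.C (nat_lit 0x8009367ac00000000001ffe83c1c000000000008009289480000000000200000000)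
  (NL.C (nat_lit 0x7ff7b719800000000002002d6885000000000008000000000000000000200000000)
  (NL.C (nat_lit 0x8002de4a80000000000200000000000000000008000000000000000000200000000) NL.Z))))

theorem gok8 : gok (nat_lit 78) (nat_lit 33) (nat_lit 18889465931478580854784) us8 cs8 = true := by decide +kernel

end Pool.Agent.Work.MP_440970_an.FX.D1
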