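import Pool.Agent.Work.MP_440970_an.FX.Prog

/-!
# Data of the certificate, `p = 13 / 35`: block 9
-/

set_option autoImplicit false
set_option maxRecDepth 1000000

namespace Pool.Agent.Work.MP_440970_an.FX.D1

noncomputable def cs9 : NL :=
  (NL.C (nat_lit 0xd666) NL.Z)

noncomputable def us9 : NL :=
  (NL.C (nat_lit 0x200045da3) NL.Z)

theorem gok9 : gok (nat_lit 78) (nat_lit 33) (nat_lit 18889465931478580854784) us9 cs9 = true := by decide +kernel

end Pool.Agent.Work.MP_440970_an.FX.D1
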