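import Pool.Agent.Work.MP_440970_an.Bdx.B01
import Pool.Agent.Work.MP_440970_an.FX.D1.U4
import Pool.Agent.Work.MP_440970_an.FX.D1.U5
import Pool.Agent.Work.MP_440970_an.FX.D1.U6
import Pool.Agent.Work.MP_440970_an.FX.D1.U7
import Pool.Agent.Work.MP_440970_an.FX.D1.U8
import Pool.Agent.Work.MP_440970_an.FX.D1.U9

/-!
# parts of the squares
-/

set_option autoImplicit false
set_option maxRecDepth 1000000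

namespace Pool.Agent.Work.MP_440970_an.FX.D1

noncomputable def gp4_0_159 : PL :=
  (PL.C (nat_lit 0xbe7016ebf) (nat_lit 0xe8b02cd55a8d) (nat_lit 0x0)
  (PL.C (nat_lit 0xc013c3609) (nat_lit 0x0) (nat_lit 0x449de87c9bf3) PL.Z))

noncomputable def gp4_0_158 : PL :=
  (PL.C (nat_lit 0x4873f48fd) (nat_lit 0xc2552ded6f89) (nat_lit 0x0)
  (PL.C (nat_lit 0x4d75864ab) (nat_lit 0xc2552ded6f89) (nat_lit 0x0)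
  (PL.C (nat_lit 0x4fbe0c3e3) (nat_lit 0x0) (nat_lit 0x319eb8cd91f1)
  (PL.C (nat_lit 0x501a18e41) (nat_lit 0x0) (nat_lit 0x82a4f5819298)
  (PL.C (nat_lit 0x506dc74c5) (nat_lit 0x11730d1b3f6) (nat_lit 0x0)
  (PL.C (nat_lit 0x53978745d) (nat_lit 0x0) (nat_lit 0x15cfd3208ccc5)
  (PL.C (nat_lit 0x544fbe0fb) (nat_lit 0xc9319c0da7b2) (nat_lit 0x0)
  (PL.C (nat_lit 0x55098aced) (nat_lit 0x0) (nat_lit 0x15cfd3208ccc5)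
  (PL.C (nat_lit 0x577f9bd43) (nat_lit 0x5fb7ab34c732) (nat_lit 0x0)
  (PL.C (nat_lit 0x58406e865) (nat_lit 0x5fb7ab34c732) (nat_lit 0x0)
  (PL.C (nat_lit 0x5c5fe2555) (nat_lit 0x0) (nat_lit 0x20d6d1088ac)
  (PL.C (nat_lit 0x5d2b73e43) (nat_lit 0xfba8b0b03dee) (nat_lit 0x0)
  (PL.C (nat_lit 0x66206f579) (nat_lit 0xfba8b0b03dee) (nat_lit 0x0)
  (PL.C (nat_lit 0x67017e9ff) (nat_lit 0x0) (nat_lit 0x20d6d1088ac)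
  (PL.C (nat_lit 0x70529c2c3) (nat_lit 0x991b2f6509bf) (nat_lit 0x0)
  (PL.C (nat_lit 0x8f34f386b) (nat_lit 0x0) (nat_lit 0x76628b3e60cb)
  (PL.C (nat_lit 0x90708a5fd) (nat_lit 0x1e7e03f709c8) (nat_lit 0x0)
  (PL.C (nat_lit 0x9417cd981) (nat_lit 0x1e7e03f709c8) (nat_lit 0x0)
  (PL.C (nat_lit 0x955e28fb7) (nat_lit 0x0) (nat_lit 0x76628b3e60cb)
  (PL.C (nat_lit 0xbccfff6b9) (nat_lit 0x0) (nat_lit 0x449de87c9bf3) gp4_0_159))))))))))))))))))))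

noncomputable def gp4_0_157 : PL :=
  (PL.C (nat_lit 0x31ba5e80f) (nat_lit 0x1377d70dc55d6) (nat_lit 0x0)
  (PL.C (nat_lit 0x31f6e4915) (nat_lit 0xf289b0fbc7bdf) (nat_lit 0x0)
  (PL.C (nat_lit 0x330e46fcd) (nat_lit 0x6acec6bedfb) (nat_lit 0x0)
  (PL.C (nat_lit 0x331b74953) (nat_lit 0x59482474461e) (nat_lit 0x0)
  (PL.C (nat_lit 0x338c14fd5) (nat_lit 0x1761806d0d66) (nat_lit 0x0)
  (PL.C (nat_lit 0x36fdc5ccb) (nat_lit 0x62da4d1d63f8) (nat_lit 0x0)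
  (PL.C (nat_lit 0x373d40439) (nat_lit 0x1b95e843ceb07) (nat_lit 0x0)
  (PL.C (nat_lit 0x376b453f5) (nat_lit 0x0) (nat_lit 0x2f5b63cee29)
  (PL.C (nat_lit 0x3776f569d) (nat_lit 0x0) (nat_lit 0x476e6006697b)
  (PL.C (nat_lit 0x37e5662a3) (nat_lit 0x0) (nat_lit 0x116eef4cf7425)
  (PL.C (nat_lit 0x3c7b40669) (nat_lit 0x6acec6bedfb) (nat_lit 0x0)
  (PL.C (nat_lit 0x3f66b3257) (nat_lit 0x0) (nat_lit 0x115bc205a93cf)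
  (PL.C (nat_lit 0x3ff26b3b1) (nat_lit 0xb9a4cbd80e40) (nat_lit 0x0)
  (PL.C (nat_lit 0x4118119a5) (nat_lit 0x11730d1b3f6) (nat_lit 0x0)
  (PL.C (nat_lit 0x41907b845) (nat_lit 0xb9a4cbd80e40) (nat_lit 0x0)
  (PL.C (nat_lit 0x41a784b73) (nat_lit 0x0) (nat_lit 0x319eb8cd91f1)
  (PL.C (nat_lit 0x4220f7fd3) (nat_lit 0x0) (nat_lit 0x115bc205a93cf)
  (PL.C (nat_lit 0x425d38a89) (nat_lit 0x0) (nat_lit 0x27bf6e1e5b9d)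
  (PL.C (nat_lit 0x44a0e265b) (nat_lit 0x0) (nat_lit 0x27bf6e1e5b9d)
  (PL.C (nat_lit 0x460ffd33f) (nat_lit 0x0) (nat_lit 0x82a4f5819298) gp4_0_158))))))))))))))))))))

noncomputable def gp4_0_156 : PL :=
  (PL.C (nat_lit 0x27035c4d7) (nat_lit 0x0) (nat_lit 0x162dfe73cac9c)
  (PL.C (nat_lit 0x271238db9) (nat_lit 0x0) (nat_lit 0x53b6af92fc331)
  (PL.C (nat_lit 0x288c4e751) (nat_lit 0x2b09cf3c8ba95) (nat_lit 0x0)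
  (PL.C (nat_lit 0x28e57f269) (nat_lit 0x0) (nat_lit 0x7e5f74b5128e2)
  (PL.C (nat_lit 0x293f9f18f) (nat_lit 0x0) (nat_lit 0xd5c68ada0f8a2)
  (PL.C (nat_lit 0x29b56fb21) (nat_lit 0x215037c32211) (nat_lit 0x0)
  (PL.C (nat_lit 0x29fd09c9b) (nat_lit 0x0) (nat_lit 0x476e6006697b)
  (PL.C (nat_lit 0x2a087c71f) (nat_lit 0x19f9f856bb719) (nat_lit 0x0)
  (PL.C (nat_lit 0x2a5991c4d) (nat_lit 0x62da4d1d63f8) (nat_lit 0x0)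
  (PL.C (nat_lit 0x2acec68b7) (nat_lit 0x48907d37fd370) (nat_lit 0x0)
  (PL.C (nat_lit 0x2b21bea23) (nat_lit 0x0) (nat_lit 0x2ac10b6a0539f)
  (PL.C (nat_lit 0x2c58c77ef) (nat_lit 0x0) (nat_lit 0x116eef4cf7425)
  (PL.C (nat_lit 0x2cba81f59) (nat_lit 0x0) (nat_lit 0x2f5b63cee29)
  (PL.C (nat_lit 0x2d02d2af7) (nat_lit 0x0) (nat_lit 0x239e7f180b9d9)
  (PL.C (nat_lit 0x2d317b381) (nat_lit 0x1b95e843ceb07) (nat_lit 0x0)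
  (PL.C (nat_lit 0x2d36c7e1d) (nat_lit 0x0) (nat_lit 0xd5c68ada0f8a2)
  (PL.C (nat_lit 0x2d6603e11) (nat_lit 0x1912c392cf605) (nat_lit 0x0)
  (PL.C (nat_lit 0x2d9a6b93b) (nat_lit 0x0) (nat_lit 0x7e5f74b5128e2)
  (PL.C (nat_lit 0x2dca0faa7) (nat_lit 0x0) (nat_lit 0x1e5dc0b8e44b)
  (PL.C (nat_lit 0x2f53b6b83) (nat_lit 0x48907d37fd370) (nat_lit 0x0) gp4_0_157))))))))))))))))))))

noncomputable def gp4_0_155 : PL :=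
  (PL.C (nat_lit 0x1fd8b8e91) (nat_lit 0x0) (nat_lit 0x2ac10b6a0539f)
  (PL.C (nat_lit 0x2013a22b1) (nat_lit 0x3bcfbeaf4fd7f) (nat_lit 0x0)
  (PL.C (nat_lit 0x20eee3873) (nat_lit 0x215037c32211) (nat_lit 0x0)
  (PL.C (nat_lit 0x22239b8a5) (nat_lit 0x0) (nat_lit 0x9ec8e46727be)
  (PL.C (nat_lit 0x224b03f97) (nat_lit 0x3bcfbeaf4fd7f) (nat_lit 0x0)
  (PL.C (nat_lit 0x226ed7473) (nat_lit 0x0) (nat_lit 0x11e4de88378d)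
  (PL.C (nat_lit 0x22c86d267) (nat_lit 0x19f9f856bb719) (nat_lit 0x0)
  (PL.C (nat_lit 0x23356b965) (nat_lit 0x0) (nat_lit 0x162dfe73cac9c)
  (PL.C (nat_lit 0x234dcc5af) (nat_lit 0x0) (nat_lit 0x37e321f8612)
  (PL.C (nat_lit 0x23768d005) (nat_lit 0x4044af9640476) (nat_lit 0x0)
  (PL.C (nat_lit 0x239b99399) (nat_lit 0x481cb3384acb6) (nat_lit 0x0)
  (PL.C (nat_lit 0x242e3dee7) (nat_lit 0x1761806d0d66) (nat_lit 0x0)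
  (PL.C (nat_lit 0x247df96a1) (nat_lit 0x59482474461e) (nat_lit 0x0)
  (PL.C (nat_lit 0x24f42b231) (nat_lit 0x0) (nat_lit 0x25da1f7637195)
  (PL.C (nat_lit 0x2553a6927) (nat_lit 0x261f31ebe2b95e) (nat_lit 0x0)
  (PL.C (nat_lit 0x25ff0ef13) (nat_lit 0x0) (nat_lit 0x1e5dc0b8e44b)
  (PL.C (nat_lit 0x2652cac15) (nat_lit 0x1912c392cf605) (nat_lit 0x0)
  (PL.C (nat_lit 0x26a73f183) (nat_lit 0x0) (nat_lit 0x239e7f180b9d9)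
  (PL.C (nat_lit 0x26bcdac8f) (nat_lit 0x0) (nat_lit 0x53b6af92fc331)
  (PL.C (nat_lit 0x26c3492b9) (nat_lit 0x0) (nat_lit 0x3db2177ff15b) gp4_0_156))))))))))))))))))))

noncomputable def gp4_0_154 : PL :=
  (PL.C (nat_lit 0x1b1cf97a1) (nat_lit 0xf615ccae5050) (nat_lit 0x0)
  (PL.C (nat_lit 0x1b7dd7747) (nat_lit 0x29fea016efc8f) (nat_lit 0x0)
  (PL.C (nat_lit 0x1b84f0019) (nat_lit 0x152b17e351ea9) (nat_lit 0x0)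
  (PL.C (nat_lit 0x1ba4b4393) (nat_lit 0x3c6387b861d7c) (nat_lit 0x0)
  (PL.C (nat_lit 0x1bc19525f) (nat_lit 0x0) (nat_lit 0x1826eecb58db9)
  (PL.C (nat_lit 0x1c11ba4f3) (nat_lit 0x0) (nat_lit 0x1383840c780d14)
  (PL.C (nat_lit 0x1c60bc91f) (nat_lit 0x0) (nat_lit 0x3db2177ff15b)
  (PL.C (nat_lit 0x1cd1973f9) (nat_lit 0x481cb3384acb6) (nat_lit 0x0)
  (PL.C (nat_lit 0x1d111977f) (nat_lit 0x0) (nat_lit 0x37e321f8612)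
  (PL.C (nat_lit 0x1d46de55f) (nat_lit 0x0) (nat_lit 0x1383840c780d14)
  (PL.C (nat_lit 0x1d618b36d) (nat_lit 0x3feb1792ea6e0) (nat_lit 0x0)
  (PL.C (nat_lit 0x1dbe8510b) (nat_lit 0x1cf833db190ad) (nat_lit 0x0)
  (PL.C (nat_lit 0x1dcd4f6ab) (nat_lit 0x0) (nat_lit 0x11e4de88378d)
  (PL.C (nat_lit 0x1dd74cabf) (nat_lit 0x708bd60801a2) (nat_lit 0x0)
  (PL.C (nat_lit 0x1df9befb5) (nat_lit 0x0) (nat_lit 0x520a0efdb8ec9)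
  (PL.C (nat_lit 0x1e0efc5bd) (nat_lit 0x0) (nat_lit 0x9ec8e46727be)
  (PL.C (nat_lit 0x1e190fa09) (nat_lit 0xed1acb05c449) (nat_lit 0x0)
  (PL.C (nat_lit 0x1e2a5f927) (nat_lit 0x0) (nat_lit 0x25da1f7637195)
  (PL.C (nat_lit 0x1e622cc07) (nat_lit 0x3feb1792ea6e0) (nat_lit 0x0)
  (PL.C (nat_lit 0x1f04b377b) (nat_lit 0x4044af9640476) (nat_lit 0x0) gp4_0_155))))))))))))))))))))

noncomputable def gp4_0_153 : PL :=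
  (PL.C (nat_lit 0x161d09d95) (nat_lit 0x22866aeca6ab) (nat_lit 0x0)
  (PL.C (nat_lit 0x1635f334d) (nat_lit 0x191452c803eb1) (nat_lit 0x0)
  (PL.C (nat_lit 0x164dc5403) (nat_lit 0x0) (nat_lit 0x6fa011d2d472)
  (PL.C (nat_lit 0x169a880c1) (nat_lit 0x0) (nat_lit 0x1d306d756823d)
  (PL.C (nat_lit 0x16a21b9fd) (nat_lit 0x0) (nat_lit 0xa89c5f966beb)
  (PL.C (nat_lit 0x16b60acdb) (nat_lit 0x347286f97a7be) (nat_lit 0x0)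
  (PL.C (nat_lit 0x16d23a6e9) (nat_lit 0x0) (nat_lit 0x9a79f717afe66)
  (PL.C (nat_lit 0x17398e089) (nat_lit 0x4015c08b936) (nat_lit 0x0)
  (PL.C (nat_lit 0x17af10901) (nat_lit 0x1f811aa20b107) (nat_lit 0x0)
  (PL.C (nat_lit 0x17fc9972f) (nat_lit 0xf615ccae5050) (nat_lit 0x0)
  (PL.C (nat_lit 0x185893037) (nat_lit 0x0) (nat_lit 0xf1902eed254b3)
  (PL.C (nat_lit 0x188e39ed1) (nat_lit 0x0) (nat_lit 0xa47e10c56d94c)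
  (PL.C (nat_lit 0x18bf1ef6f) (nat_lit 0x85ea5f24837d5) (nat_lit 0x0)
  (PL.C (nat_lit 0x1900f1c87) (nat_lit 0x1b09c21effd83) (nat_lit 0x0)
  (PL.C (nat_lit 0x197bd88a9) (nat_lit 0x1ee9b6793cc64) (nat_lit 0x0)
  (PL.C (nat_lit 0x19ae96b97) (nat_lit 0x0) (nat_lit 0x10b9226a9dd78)
  (PL.C (nat_lit 0x1ab909ebd) (nat_lit 0x0) (nat_lit 0x6fa011d2d472)
  (PL.C (nat_lit 0x1ac6d06cd) (nat_lit 0x0) (nat_lit 0x1d306d756823d)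
  (PL.C (nat_lit 0x1ae76761f) (nat_lit 0x347286f97a7be) (nat_lit 0x0)
  (PL.C (nat_lit 0x1af3edb9b) (nat_lit 0x22866aeca6ab) (nat_lit 0x0) gp4_0_154))))))))))))))))))))

noncomputable def gp4_0_152 : PL :=
  (PL.C (nat_lit 0x141959b15) (nat_lit 0x2f078621b0540a) (nat_lit 0x0)
  (PL.C (nat_lit 0x14285aae1) (nat_lit 0xed1acb05c449) (nat_lit 0x0)
  (PL.C (nat_lit 0x1454c6b57) (nat_lit 0x708bd60801a2) (nat_lit 0x0)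
  (PL.C (nat_lit 0x1475a5959) (nat_lit 0x1a8da47b3d468) (nat_lit 0x0)
  (PL.C (nat_lit 0x148adaeaf) (nat_lit 0x1cf833db190ad) (nat_lit 0x0)
  (PL.C (nat_lit 0x148d0b475) (nat_lit 0x0) (nat_lit 0x10b9226a9dd78)
  (PL.C (nat_lit 0x148d43953) (nat_lit 0x191452c803eb1) (nat_lit 0x0)
  (PL.C (nat_lit 0x14a2bbf1f) (nat_lit 0x0) (nat_lit 0x584c5d0791000)
  (PL.C (nat_lit 0x14ba8dfd5) (nat_lit 0x0) (nat_lit 0x9c03e7822be76)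
  (PL.C (nat_lit 0x14d035aa9) (nat_lit 0x1a8da47b3d468) (nat_lit 0x0)
  (PL.C (nat_lit 0x14dbd844d) (nat_lit 0x0) (nat_lit 0x6e4c0178cb56d)
  (PL.C (nat_lit 0x14df4ec8b) (nat_lit 0x4c55c6cffb8d) (nat_lit 0x0)
  (PL.C (nat_lit 0x14f3ec3cf) (nat_lit 0x197e023261c4aa) (nat_lit 0x0)
  (PL.C (nat_lit 0x14f5b15a5) (nat_lit 0x6cb3c271d2d6) (nat_lit 0x0)
  (PL.C (nat_lit 0x1509cfd8b) (nat_lit 0x0) (nat_lit 0x35eff954b09c)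
  (PL.C (nat_lit 0x156e9c3e9) (nat_lit 0x135b7f321223e) (nat_lit 0x0)
  (PL.C (nat_lit 0x159dd740f) (nat_lit 0x77c66bef7ee6) (nat_lit 0x0)
  (PL.C (nat_lit 0x15b23aab3) (nat_lit 0x0) (nat_lit 0x520a0efdb8ec9)
  (PL.C (nat_lit 0x16040bb8b) (nat_lit 0xf5d5c3ab0b720) (nat_lit 0x0)
  (PL.C (nat_lit 0x16056bd9b) (nat_lit 0x0) (nat_lit 0x9c03e7822be76) gp4_0_153))))))))))))))))))))

noncomputable def gp4_0_151 : PL :=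
  (PL.C (nat_lit 0x11c276ef7) (nat_lit 0x0) (nat_lit 0x6e4c0178cb56d)
  (PL.C (nat_lit 0x11d0b147e) (nat_lit 0x0) (nat_lit 0x13117779d55b)
  (PL.C (nat_lit 0x11f39d955) (nat_lit 0x64d946ab15088) (nat_lit 0x0)
  (PL.C (nat_lit 0x11f7f3d12) (nat_lit 0x0) (nat_lit 0x54c9fa86c256)
  (PL.C (nat_lit 0x127729865) (nat_lit 0x6874f73f4c70c) (nat_lit 0x0)
  (PL.C (nat_lit 0x1296dcb47) (nat_lit 0x0) (nat_lit 0xa47e10c56d94c)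
  (PL.C (nat_lit 0x129bee2db) (nat_lit 0x2aeb66de0eb0b) (nat_lit 0x0)
  (PL.C (nat_lit 0x12b10e445) (nat_lit 0x441829e1812e) (nat_lit 0x0)
  (PL.C (nat_lit 0x12bab0ed5) (nat_lit 0x241a6674c345) (nat_lit 0x0)
  (PL.C (nat_lit 0x12bfd3f41) (nat_lit 0x0) (nat_lit 0xf1902eed254b3)
  (PL.C (nat_lit 0x12da3f3d3) (nat_lit 0x441829e1812e) (nat_lit 0x0)
  (PL.C (nat_lit 0x12f3b7cd3) (nat_lit 0x197e023261c4aa) (nat_lit 0x0)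
  (PL.C (nat_lit 0x12f56150f) (nat_lit 0x0) (nat_lit 0x3e2519d93f14)
  (PL.C (nat_lit 0x130281bad) (nat_lit 0x0) (nat_lit 0x2d791788dde7)
  (PL.C (nat_lit 0x1318734ef) (nat_lit 0x0) (nat_lit 0x2825c3ebc21d4)
  (PL.C (nat_lit 0x131b214b1) (nat_lit 0x241a6674c345) (nat_lit 0x0)
  (PL.C (nat_lit 0x132c6632b) (nat_lit 0x0) (nat_lit 0x12026647bfeab)
  (PL.C (nat_lit 0x137542f99) (nat_lit 0x1ee9b6793cc64) (nat_lit 0x0)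
  (PL.C (nat_lit 0x1391d9827) (nat_lit 0x1b09c21effd83) (nat_lit 0x0)
  (PL.C (nat_lit 0x13a2272eb) (nat_lit 0x85ea5f24837d5) (nat_lit 0x0) gp4_0_152))))))))))))))))))))

noncomputable def gp4_0_150 : PL :=
  (PL.C (nat_lit 0x102f74317) (nat_lit 0x8957751e0db47) (nat_lit 0x0)
  (PL.C (nat_lit 0x1034e107b) (nat_lit 0x5b2d7b58a9db) (nat_lit 0x0)
  (PL.C (nat_lit 0x104160bfb) (nat_lit 0x0) (nat_lit 0x95d33ef00bf8)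
  (PL.C (nat_lit 0x105c3f7b5) (nat_lit 0x0) (nat_lit 0x52241b6c627c9)
  (PL.C (nat_lit 0x10721c269) (nat_lit 0x0) (nat_lit 0x1826eecb58db9)
  (PL.C (nat_lit 0x10965a18f) (nat_lit 0x152b17e351ea9) (nat_lit 0x0)
  (PL.C (nat_lit 0x10b3c3191) (nat_lit 0x0) (nat_lit 0x2cee7a7c12e6b)
  (PL.C (nat_lit 0x10c44229d) (nat_lit 0x1f811aa20b107) (nat_lit 0x0)
  (PL.C (nat_lit 0x10c5acbff) (nat_lit 0x6cb3c271d2d6) (nat_lit 0x0)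
  (PL.C (nat_lit 0x10f77a429) (nat_lit 0x2f078621b0540a) (nat_lit 0x0)
  (PL.C (nat_lit 0x11266f20b) (nat_lit 0x0) (nat_lit 0x15831e4df8eb8f)
  (PL.C (nat_lit 0x11294805d) (nat_lit 0x1f6c54f26a5a4) (nat_lit 0x0)
  (PL.C (nat_lit 0x113cc3583) (nat_lit 0x0) (nat_lit 0xda27dda786f2)
  (PL.C (nat_lit 0x1145a6173) (nat_lit 0x1afae8c7d4f52) (nat_lit 0x0)
  (PL.C (nat_lit 0x114c3a75d) (nat_lit 0x0) (nat_lit 0x15831e4df8eb8f)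
  (PL.C (nat_lit 0x1162bfe25) (nat_lit 0x24cbce7f0f8fb) (nat_lit 0x0)
  (PL.C (nat_lit 0x119ba9441) (nat_lit 0x0) (nat_lit 0x35eff954b09c)
  (PL.C (nat_lit 0x119e959f7) (nat_lit 0x0) (nat_lit 0x1988d5b2a2c22)
  (PL.C (nat_lit 0x11b3749cb) (nat_lit 0x3c6387b861d7c) (nat_lit 0x0)
  (PL.C (nat_lit 0x11bbb5979) (nat_lit 0x0) (nat_lit 0x3e2519d93f14) gp4_0_151))))))))))))))))))))

noncomputable def gp4_0_149 : PL :=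
  (PL.C (nat_lit 0xef2153bd) (nat_lit 0x0) (nat_lit 0x19ee87d04669b)
  (PL.C (nat_lit 0xf1d3cef9) (nat_lit 0x0) (nat_lit 0x160ddb1cf1189b)
  (PL.C (nat_lit 0xf3feb8ed) (nat_lit 0x24cbce7f0f8fb) (nat_lit 0x0)
  (PL.C (nat_lit 0xf47c7ffd) (nat_lit 0x0) (nat_lit 0x1988d5b2a2c22)
  (PL.C (nat_lit 0xf6186beb) (nat_lit 0x0) (nat_lit 0xda27dda786f2)
  (PL.C (nat_lit 0xf6635143) (nat_lit 0x2aeb66de0eb0b) (nat_lit 0x0)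
  (PL.C (nat_lit 0xf848c84b) (nat_lit 0x8957751e0db47) (nat_lit 0x0)
  (PL.C (nat_lit 0xf96762b9) (nat_lit 0x1afae8c7d4f52) (nat_lit 0x0)
  (PL.C (nat_lit 0xf9936a3b) (nat_lit 0x0) (nat_lit 0x4b4e74e2c603)
  (PL.C (nat_lit 0xfa6bef1d) (nat_lit 0x118ce514044a) (nat_lit 0x0)
  (PL.C (nat_lit 0xfbb969ad) (nat_lit 0x0) (nat_lit 0x5e809a8a4582)
  (PL.C (nat_lit 0xfc3b2cbd) (nat_lit 0x0) (nat_lit 0x7006122376e5b)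
  (PL.C (nat_lit 0xfcf776e9) (nat_lit 0x0) (nat_lit 0xa89c5f966beb)
  (PL.C (nat_lit 0xfd20fe27) (nat_lit 0x0) (nat_lit 0x734d1cdc333b)
  (PL.C (nat_lit 0x100420441) (nat_lit 0x0) (nat_lit 0x27f8ee9d6a617)
  (PL.C (nat_lit 0x10049efc3) (nat_lit 0x0) (nat_lit 0x9a79f717afe66)
  (PL.C (nat_lit 0x100c17121) (nat_lit 0x118ce514044a) (nat_lit 0x0)
  (PL.C (nat_lit 0x1011780dd) (nat_lit 0x0) (nat_lit 0x47e268b8219)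
  (PL.C (nat_lit 0x101e9d2eb) (nat_lit 0x0) (nat_lit 0x2cee7a7c12e6b)
  (PL.C (nat_lit 0x1024045ff) (nat_lit 0xe3b94181b251) (nat_lit 0x0) gp4_0_150))))))))))))))))))))

noncomputable def gp4_0_148 : PL :=
  (PL.C (nat_lit 0xd76a9935) (nat_lit 0x2c1f82ea00405) (nat_lit 0x0)
  (PL.C (nat_lit 0xdb943a11) (nat_lit 0x77c66bef7ee6) (nat_lit 0x0)
  (PL.C (nat_lit 0xdcf88b49) (nat_lit 0x0) (nat_lit 0x734d1cdc333b)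
  (PL.C (nat_lit 0xdd429c65) (nat_lit 0x0) (nat_lit 0x21ae20d223063)
  (PL.C (nat_lit 0xdd781ea7) (nat_lit 0x135b7f321223e) (nat_lit 0x0)
  (PL.C (nat_lit 0xdf920e6e) (nat_lit 0xefc690e883c) (nat_lit 0x0)
  (PL.C (nat_lit 0xe1968d95) (nat_lit 0x0) (nat_lit 0x2825c3ebc21d4)
  (PL.C (nat_lit 0xe2d46c0f) (nat_lit 0x1e45266d13c0) (nat_lit 0x0)
  (PL.C (nat_lit 0xe63a2e17) (nat_lit 0x0) (nat_lit 0x878ca0746a03)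
  (PL.C (nat_lit 0xe6b0dc47) (nat_lit 0xde20b1cacc71) (nat_lit 0x0)
  (PL.C (nat_lit 0xe743f07d) (nat_lit 0x4a3c725da497) (nat_lit 0x0)
  (PL.C (nat_lit 0xe79c869f) (nat_lit 0x4015c08b936) (nat_lit 0x0)
  (PL.C (nat_lit 0xe83589f1) (nat_lit 0x196fa8def230) (nat_lit 0x0)
  (PL.C (nat_lit 0xe948f87f) (nat_lit 0x6874f73f4c70c) (nat_lit 0x0)
  (PL.C (nat_lit 0xe9972a43) (nat_lit 0x887dd482ff47) (nat_lit 0x0)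
  (PL.C (nat_lit 0xea91af6d) (nat_lit 0x1e45266d13c0) (nat_lit 0x0)
  (PL.C (nat_lit 0xebe0690e) (nat_lit 0x0) (nat_lit 0x54c9fa86c256)
  (PL.C (nat_lit 0xed16d8ab) (nat_lit 0x1b1a6f841a450) (nat_lit 0x0)
  (PL.C (nat_lit 0xede83802) (nat_lit 0x0) (nat_lit 0x13117779d55b)
  (PL.C (nat_lit 0xee2886d9) (nat_lit 0x1ebc8740e26bf) (nat_lit 0x0) gp4_0_149))))))))))))))))))))

noncomputable def gp4_0_147 : PL :=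
  (PL.C (nat_lit 0xc760982e) (nat_lit 0x0) (nat_lit 0x8a86d78c1ad5)
  (PL.C (nat_lit 0xc9046cdb) (nat_lit 0x1f6c54f26a5a4) (nat_lit 0x0)
  (PL.C (nat_lit 0xc917f7e2) (nat_lit 0x0) (nat_lit 0x8a86d78c1ad5)
  (PL.C (nat_lit 0xc96e9697) (nat_lit 0x0) (nat_lit 0x5e809a8a4582)
  (PL.C (nat_lit 0xcb2a7d71) (nat_lit 0x0) (nat_lit 0x4b4e74e2c603)
  (PL.C (nat_lit 0xcc0ba263) (nat_lit 0x3d21c15efee13) (nat_lit 0x0)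
  (PL.C (nat_lit 0xcc23d69d) (nat_lit 0x0) (nat_lit 0x7006122376e5b)
  (PL.C (nat_lit 0xce6272b1) (nat_lit 0x4c55c6cffb8d) (nat_lit 0x0)
  (PL.C (nat_lit 0xcea7a02d) (nat_lit 0x0) (nat_lit 0xe080666e5b3e)
  (PL.C (nat_lit 0xd01f8ae1) (nat_lit 0x3682e5be4a706) (nat_lit 0x0)
  (PL.C (nat_lit 0xd0431d13) (nat_lit 0x152521494a4b81) (nat_lit 0x0)
  (PL.C (nat_lit 0xd12e8349) (nat_lit 0x0) (nat_lit 0x3bfc1bc0c07f2)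
  (PL.C (nat_lit 0xd19734b7) (nat_lit 0x0) (nat_lit 0x12026647bfeab)
  (PL.C (nat_lit 0xd1c00645) (nat_lit 0x6e0e34f066118) (nat_lit 0x0)
  (PL.C (nat_lit 0xd3651651) (nat_lit 0x0) (nat_lit 0x2d791788dde7)
  (PL.C (nat_lit 0xd38e41d3) (nat_lit 0x44905c97972c5) (nat_lit 0x0)
  (PL.C (nat_lit 0xd4ec2271) (nat_lit 0x0) (nat_lit 0x160ddb1cf1189b)
  (PL.C (nat_lit 0xd53380ed) (nat_lit 0x0) (nat_lit 0x45e37fd522b5c)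
  (PL.C (nat_lit 0xd5ae2303) (nat_lit 0x0) (nat_lit 0x52241b6c627c9)
  (PL.C (nat_lit 0xd7396963) (nat_lit 0x3682e5be4a706) (nat_lit 0x0) gp4_0_148))))))))))))))))))))

noncomputable def gp4_0_146 : PL :=
  (PL.C (nat_lit 0xb3f99b61) (nat_lit 0xae301009d5042) (nat_lit 0x0)
  (PL.C (nat_lit 0xb484420d) (nat_lit 0x0) (nat_lit 0x632f7f771866a)
  (PL.C (nat_lit 0xb49381cf) (nat_lit 0x68b40f52bb37) (nat_lit 0x0)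
  (PL.C (nat_lit 0xb5d852c9) (nat_lit 0x1c64bd5de925b) (nat_lit 0x0)
  (PL.C (nat_lit 0xb5ebb333) (nat_lit 0x0) (nat_lit 0x39cbff2cc0cd3)
  (PL.C (nat_lit 0xb7dd7902) (nat_lit 0x0) (nat_lit 0x1b5cef5c8d50)
  (PL.C (nat_lit 0xb8a5421b) (nat_lit 0x0) (nat_lit 0x3398fc6ff36f6)
  (PL.C (nat_lit 0xb972a96e) (nat_lit 0x1fbfe11746ebb) (nat_lit 0x0)
  (PL.C (nat_lit 0xb97a66a9) (nat_lit 0xfc7cb47e96d32) (nat_lit 0x0)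
  (PL.C (nat_lit 0xba3c2acd) (nat_lit 0x538059c0a97a) (nat_lit 0x0)
  (PL.C (nat_lit 0xbd4b1f71) (nat_lit 0xeead290cd6e8) (nat_lit 0x0)
  (PL.C (nat_lit 0xbdacb3c1) (nat_lit 0xbd3c0995b2cf7) (nat_lit 0x0)
  (PL.C (nat_lit 0xbf5ff155) (nat_lit 0x0) (nat_lit 0x3bfc1bc0c07f2)
  (PL.C (nat_lit 0xc00f06e5) (nat_lit 0x0) (nat_lit 0x546085130b79a)
  (PL.C (nat_lit 0xc2bd31a3) (nat_lit 0x0) (nat_lit 0x42ab9fea5594a)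
  (PL.C (nat_lit 0xc2fe77d7) (nat_lit 0x0) (nat_lit 0x26a62f3501ef)
  (PL.C (nat_lit 0xc3aa35b1) (nat_lit 0x13163f581fc9d2) (nat_lit 0x0)
  (PL.C (nat_lit 0xc49d0b1b) (nat_lit 0x0) (nat_lit 0xd95bde529b079)
  (PL.C (nat_lit 0xc52fd08f) (nat_lit 0x0) (nat_lit 0xe080666e5b3e)
  (PL.C (nat_lit 0xc623ccaf) (nat_lit 0x54ac9371dfb) (nat_lit 0x0) gp4_0_147))))))))))))))))))))

noncomputable def gp4_0_145 : PL :=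
  (PL.C (nat_lit 0xa3f68777) (nat_lit 0x54ac9371dfb) (nat_lit 0x0)
  (PL.C (nat_lit 0xa41047f2) (nat_lit 0x0) (nat_lit 0x1b5cef5c8d50)
  (PL.C (nat_lit 0xa463dd6f) (nat_lit 0xde20b1cacc71) (nat_lit 0x0)
  (PL.C (nat_lit 0xa483e16d) (nat_lit 0x0) (nat_lit 0x277e7186efb37)
  (PL.C (nat_lit 0xa49af773) (nat_lit 0x318195d25267a) (nat_lit 0x0)
  (PL.C (nat_lit 0xa5f8eec7) (nat_lit 0x0) (nat_lit 0xf39b921d0d98a)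
  (PL.C (nat_lit 0xa66246d2) (nat_lit 0x0) (nat_lit 0x51a664735b4e)
  (PL.C (nat_lit 0xa7c445c5) (nat_lit 0xd192548b66ab9) (nat_lit 0x0)
  (PL.C (nat_lit 0xa7d0f11e) (nat_lit 0x0) (nat_lit 0x38b4b28734c7)
  (PL.C (nat_lit 0xa899c815) (nat_lit 0x1c64bd5de925b) (nat_lit 0x0)
  (PL.C (nat_lit 0xa9263de1) (nat_lit 0xae301009d5042) (nat_lit 0x0)
  (PL.C (nat_lit 0xa9e97f2b) (nat_lit 0x0) (nat_lit 0x546085130b79a)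
  (PL.C (nat_lit 0xac396f99) (nat_lit 0x0) (nat_lit 0x95d33ef00bf8)
  (PL.C (nat_lit 0xad19aac1) (nat_lit 0x4a3c725da497) (nat_lit 0x0)
  (PL.C (nat_lit 0xad292c1f) (nat_lit 0x0) (nat_lit 0x11624868ea6198)
  (PL.C (nat_lit 0xae72e7a1) (nat_lit 0x887dd482ff47) (nat_lit 0x0)
  (PL.C (nat_lit 0xb10fd019) (nat_lit 0x0) (nat_lit 0x1fa96bb2521e7)
  (PL.C (nat_lit 0xb296025f) (nat_lit 0x0) (nat_lit 0xc2b4858547b36)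
  (PL.C (nat_lit 0xb2e732aa) (nat_lit 0xefc690e883c) (nat_lit 0x0)
  (PL.C (nat_lit 0xb3d2a6c1) (nat_lit 0x0) (nat_lit 0x3ba5cf35e68e) gp4_0_146))))))))))))))))))))

noncomputable def gp4_0_144 : PL :=
  (PL.C (nat_lit 0x991f778b) (nat_lit 0x0) (nat_lit 0x278ae9a1a50f93)
  (PL.C (nat_lit 0x997c1eba) (nat_lit 0x0) (nat_lit 0xc18ad30e5366)
  (PL.C (nat_lit 0x9a2d4afe) (nat_lit 0x0) (nat_lit 0x1afda312987ec)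
  (PL.C (nat_lit 0x9aa8fedf) (nat_lit 0x0) (nat_lit 0x1b53dbfe28cad)
  (PL.C (nat_lit 0x9ace5bf6) (nat_lit 0x4df4dca67c20) (nat_lit 0x0)
  (PL.C (nat_lit 0x9c611f9e) (nat_lit 0x953cebcd95a5) (nat_lit 0x0)
  (PL.C (nat_lit 0x9cb1408d) (nat_lit 0xa17de2bc5f7f4) (nat_lit 0x0)
  (PL.C (nat_lit 0x9dca64dd) (nat_lit 0xe3b94181b251) (nat_lit 0x0)
  (PL.C (nat_lit 0x9dfdae4f) (nat_lit 0xeead290cd6e8) (nat_lit 0x0)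
  (PL.C (nat_lit 0x9ee93553) (nat_lit 0x7afa620b292ae) (nat_lit 0x0)
  (PL.C (nat_lit 0x9f16520f) (nat_lit 0x0) (nat_lit 0x26e6355dd4589)
  (PL.C (nat_lit 0xa01d6c85) (nat_lit 0xbd3c0995b2cf7) (nat_lit 0x0)
  (PL.C (nat_lit 0xa0276d75) (nat_lit 0x0) (nat_lit 0xc2b4858547b36)
  (PL.C (nat_lit 0xa05317b1) (nat_lit 0xb78afc656a1b9) (nat_lit 0x0)
  (PL.C (nat_lit 0xa0d3305b) (nat_lit 0x196fa8def230) (nat_lit 0x0)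
  (PL.C (nat_lit 0xa1885d23) (nat_lit 0x0) (nat_lit 0x1fa96bb2521e7)
  (PL.C (nat_lit 0xa1c2fc05) (nat_lit 0x961ef018c8769) (nat_lit 0x0)
  (PL.C (nat_lit 0xa2359a8d) (nat_lit 0x0) (nat_lit 0x878ca0746a03)
  (PL.C (nat_lit 0xa2a9d09e) (nat_lit 0x1fbfe11746ebb) (nat_lit 0x0)
  (PL.C (nat_lit 0xa3476a99) (nat_lit 0x0) (nat_lit 0xbf74c6fa8fa98) gp4_0_145))))))))))))))))))))

noncomputable def gp4_0_143 : PL :=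
  (PL.C (nat_lit 0x91931609) (nat_lit 0x0) (nat_lit 0x39cbff2cc0cd3)
  (PL.C (nat_lit 0x922cbadb) (nat_lit 0x6aeaa43b013f3e) (nat_lit 0x0)
  (PL.C (nat_lit 0x92509eb1) (nat_lit 0x961ef018c8769) (nat_lit 0x0)
  (PL.C (nat_lit 0x9299d94f) (nat_lit 0x5b2d7b58a9db) (nat_lit 0x0)
  (PL.C (nat_lit 0x93c14741) (nat_lit 0x0) (nat_lit 0x2223dc4cf759a4)
  (PL.C (nat_lit 0x93d9cef7) (nat_lit 0x473dfb3b13e99) (nat_lit 0x0)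
  (PL.C (nat_lit 0x93dceaf9) (nat_lit 0x0) (nat_lit 0x47e268b8219)
  (PL.C (nat_lit 0x94785ff9) (nat_lit 0x0) (nat_lit 0x1651cd35f2ba)
  (PL.C (nat_lit 0x9481a6a9) (nat_lit 0x0) (nat_lit 0x1cf6f9c1b63f4)
  (PL.C (nat_lit 0x94ce3479) (nat_lit 0xe093cc1ef800) (nat_lit 0x0)
  (PL.C (nat_lit 0x9506e3f7) (nat_lit 0x48284e2123408) (nat_lit 0x0)
  (PL.C (nat_lit 0x952d13c3) (nat_lit 0x325ed0a5b2798) (nat_lit 0x0)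
  (PL.C (nat_lit 0x95663821) (nat_lit 0x0) (nat_lit 0x27f8ee9d6a617)
  (PL.C (nat_lit 0x9576237b) (nat_lit 0x0) (nat_lit 0x21ae20d223063)
  (PL.C (nat_lit 0x95c8eb4f) (nat_lit 0x0) (nat_lit 0xc58e0d060abb)
  (PL.C (nat_lit 0x9738480a) (nat_lit 0x953cebcd95a5) (nat_lit 0x0)
  (PL.C (nat_lit 0x97b33c23) (nat_lit 0x0) (nat_lit 0x1502432ad5ed3)
  (PL.C (nat_lit 0x97cc6b85) (nat_lit 0x0) (nat_lit 0x3b735b1fb1d2a)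
  (PL.C (nat_lit 0x98625901) (nat_lit 0x0) (nat_lit 0xbf74c6fa8fa98)
  (PL.C (nat_lit 0x99018a85) (nat_lit 0x0) (nat_lit 0x1502432ad5ed3) gp4_0_144))))))))))))))))))))

noncomputable def gp4_0_142 : PL :=
  (PL.C (nat_lit 0x86fe327b) (nat_lit 0x0) (nat_lit 0x5af9068f16d75)
  (PL.C (nat_lit 0x8731e809) (nat_lit 0x44905c97972c5) (nat_lit 0x0)
  (PL.C (nat_lit 0x8756c435) (nat_lit 0x47fa3388f94b3) (nat_lit 0x0)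
  (PL.C (nat_lit 0x8771a8f6) (nat_lit 0x0) (nat_lit 0x51a664735b4e)
  (PL.C (nat_lit 0x878b38e7) (nat_lit 0x2b68da5293ef7) (nat_lit 0x0)
  (PL.C (nat_lit 0x87d11817) (nat_lit 0x87644266b308c) (nat_lit 0x0)
  (PL.C (nat_lit 0x88367b1b) (nat_lit 0x318195d25267a) (nat_lit 0x0)
  (PL.C (nat_lit 0x885bd6ef) (nat_lit 0x6e0e34f066118) (nat_lit 0x0)
  (PL.C (nat_lit 0x89d538bd) (nat_lit 0x0) (nat_lit 0x632f7f771866a)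
  (PL.C (nat_lit 0x8a006d69) (nat_lit 0x0) (nat_lit 0xf39b921d0d98a)
  (PL.C (nat_lit 0x8a40c6c3) (nat_lit 0x11fafc38ca27d) (nat_lit 0x0)
  (PL.C (nat_lit 0x8a977007) (nat_lit 0x6f1a79a778ab6) (nat_lit 0x0)
  (PL.C (nat_lit 0x8ae05de1) (nat_lit 0x0) (nat_lit 0x32ecad6b0b327)
  (PL.C (nat_lit 0x8b0eea9d) (nat_lit 0x0) (nat_lit 0x3ec8f2e8de4c3)
  (PL.C (nat_lit 0x8b7172e5) (nat_lit 0x0) (nat_lit 0x34ecf295fda74)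
  (PL.C (nat_lit 0x8b745786) (nat_lit 0x0) (nat_lit 0x44e54837c936e)
  (PL.C (nat_lit 0x8c0bdf11) (nat_lit 0x156ece0e9d0c8) (nat_lit 0x0)
  (PL.C (nat_lit 0x8cf35dff) (nat_lit 0x0) (nat_lit 0x80f60df38e20)
  (PL.C (nat_lit 0x8e534529) (nat_lit 0x2c1f82ea00405) (nat_lit 0x0)
  (PL.C (nat_lit 0x8ec9d725) (nat_lit 0x0) (nat_lit 0x45e37fd522b5c) gp4_0_143))))))))))))))))))))

noncomputable def gp4_0_141 : PL :=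
  (PL.C (nat_lit 0x7e3214f6) (nat_lit 0x536edf748b21c) (nat_lit 0x0)
  (PL.C (nat_lit 0x7e4e7227) (nat_lit 0x0) (nat_lit 0x362f3ba726b3a)
  (PL.C (nat_lit 0x7f297669) (nat_lit 0x69b94443323e83) (nat_lit 0x0)
  (PL.C (nat_lit 0x7f954b8e) (nat_lit 0x0) (nat_lit 0x44e54837c936e)
  (PL.C (nat_lit 0x7fa9d721) (nat_lit 0x0) (nat_lit 0x642f03a3b28b)
  (PL.C (nat_lit 0x7fcf0611) (nat_lit 0x0) (nat_lit 0x1b2ff7464c3d2)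
  (PL.C (nat_lit 0x803d34eb) (nat_lit 0x571772a2ed556) (nat_lit 0x0)
  (PL.C (nat_lit 0x80bc0a45) (nat_lit 0x1ebc8740e26bf) (nat_lit 0x0)
  (PL.C (nat_lit 0x80c32d17) (nat_lit 0x1e773b30d0a64) (nat_lit 0x0)
  (PL.C (nat_lit 0x8236f94b) (nat_lit 0xb271e06305826) (nat_lit 0x0)
  (PL.C (nat_lit 0x828ea89b) (nat_lit 0x0) (nat_lit 0x1b53dbfe28cad)
  (PL.C (nat_lit 0x83f96ead) (nat_lit 0x0) (nat_lit 0xa337d44dae08)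
  (PL.C (nat_lit 0x8417ddca) (nat_lit 0x0) (nat_lit 0xa7782fe19210)
  (PL.C (nat_lit 0x84676119) (nat_lit 0x0) (nat_lit 0xb06724eddacf0)
  (PL.C (nat_lit 0x84aba1e9) (nat_lit 0x47fa3388f94b3) (nat_lit 0x0)
  (PL.C (nat_lit 0x858b295f) (nat_lit 0x0) (nat_lit 0xb06724eddacf0)
  (PL.C (nat_lit 0x8649b9ba) (nat_lit 0x0) (nat_lit 0x38b4b28734c7)
  (PL.C (nat_lit 0x864b5c8b) (nat_lit 0x73fe010694fc) (nat_lit 0x0)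
  (PL.C (nat_lit 0x866311d1) (nat_lit 0x0) (nat_lit 0x1d8f5d5bf6284)
  (PL.C (nat_lit 0x86ee5ff7) (nat_lit 0x0) (nat_lit 0xa337d44dae08) gp4_0_142))))))))))))))))))))

noncomputable def gp4_0_140 : PL :=
  (PL.C (nat_lit 0x76cea33b) (nat_lit 0x0) (nat_lit 0x1651cd35f2ba)
  (PL.C (nat_lit 0x76fbfc3b) (nat_lit 0x41e77ed464626) (nat_lit 0x0)
  (PL.C (nat_lit 0x7723de0f) (nat_lit 0xfc2e5db7c8c9) (nat_lit 0x0)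
  (PL.C (nat_lit 0x775f3cb9) (nat_lit 0x325ed0a5b2798) (nat_lit 0x0)
  (PL.C (nat_lit 0x779afb47) (nat_lit 0x0) (nat_lit 0x19ee87d04669b)
  (PL.C (nat_lit 0x7862568a) (nat_lit 0x126495926d2f0) (nat_lit 0x0)
  (PL.C (nat_lit 0x78a28f41) (nat_lit 0x1b1a6f841a450) (nat_lit 0x0)
  (PL.C (nat_lit 0x7978739f) (nat_lit 0x0) (nat_lit 0x32ecad6b0b327)
  (PL.C (nat_lit 0x79f06cd3) (nat_lit 0x3d21c15efee13) (nat_lit 0x0)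
  (PL.C (nat_lit 0x79fab9d1) (nat_lit 0x68b40f52bb37) (nat_lit 0x0)
  (PL.C (nat_lit 0x7a1a35cf) (nat_lit 0x0) (nat_lit 0x3790f6b397d3b)
  (PL.C (nat_lit 0x7b274a79) (nat_lit 0x17b3690fd8a79) (nat_lit 0x0)
  (PL.C (nat_lit 0x7b64ed87) (nat_lit 0x0) (nat_lit 0x11624868ea6198)
  (PL.C (nat_lit 0x7c870b57) (nat_lit 0x0) (nat_lit 0xf3a54e63a36f)
  (PL.C (nat_lit 0x7cba6e05) (nat_lit 0x48284e2123408) (nat_lit 0x0)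
  (PL.C (nat_lit 0x7ccf2313) (nat_lit 0xd37b7fc9b4de) (nat_lit 0x0)
  (PL.C (nat_lit 0x7d7f0069) (nat_lit 0x9af7aec5cdf8) (nat_lit 0x0)
  (PL.C (nat_lit 0x7d9d721d) (nat_lit 0x73fe010694fc) (nat_lit 0x0)
  (PL.C (nat_lit 0x7dc78ce9) (nat_lit 0x7e52672c139a) (nat_lit 0x0)
  (PL.C (nat_lit 0x7dcd4c13) (nat_lit 0x0) (nat_lit 0x2223dc4cf759a4) gp4_0_141))))))))))))))))))))

noncomputable def gp4_0_139 : PL :=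
  (PL.C (nat_lit 0x70242359) (nat_lit 0x8e4eb5f6e3627) (nat_lit 0x0)
  (PL.C (nat_lit 0x70a2e43b) (nat_lit 0x0) (nat_lit 0x64377721ab39)
  (PL.C (nat_lit 0x70db43c5) (nat_lit 0x0) (nat_lit 0x34ecf295fda74)
  (PL.C (nat_lit 0x711223bf) (nat_lit 0x0) (nat_lit 0x1b2ff7464c3d2)
  (PL.C (nat_lit 0x715d89f7) (nat_lit 0xe093cc1ef800) (nat_lit 0x0)
  (PL.C (nat_lit 0x71d3f853) (nat_lit 0x11fafc38ca27d) (nat_lit 0x0)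
  (PL.C (nat_lit 0x72a688b3) (nat_lit 0x0) (nat_lit 0x1d233bbf8bf434)
  (PL.C (nat_lit 0x72ccf6a7) (nat_lit 0x8e4ae1b17c53c) (nat_lit 0x0)
  (PL.C (nat_lit 0x72fc1ec7) (nat_lit 0x0) (nat_lit 0x26a62f3501ef)
  (PL.C (nat_lit 0x730eff29) (nat_lit 0x41e77ed464626) (nat_lit 0x0)
  (PL.C (nat_lit 0x73258027) (nat_lit 0xeeedb444d5323) (nat_lit 0x0)
  (PL.C (nat_lit 0x736671d6) (nat_lit 0x0) (nat_lit 0x1afda312987ec)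
  (PL.C (nat_lit 0x73a83779) (nat_lit 0x0) (nat_lit 0x45a1cea0a80dc)
  (PL.C (nat_lit 0x73bb6aff) (nat_lit 0x5f3a7ff5796d) (nat_lit 0x0)
  (PL.C (nat_lit 0x73e3d649) (nat_lit 0x0) (nat_lit 0x1fb38027046276)
  (PL.C (nat_lit 0x73fe527f) (nat_lit 0x200ae6db8763d) (nat_lit 0x0)
  (PL.C (nat_lit 0x747eb2cd) (nat_lit 0x0) (nat_lit 0xd95bde529b079)
  (PL.C (nat_lit 0x74a717ff) (nat_lit 0x0) (nat_lit 0xe5fda2cdb103)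
  (PL.C (nat_lit 0x76389115) (nat_lit 0x0) (nat_lit 0x6bf9b0ca1afa0)
  (PL.C (nat_lit 0x76c49ad1) (nat_lit 0xd192548b66ab9) (nat_lit 0x0) gp4_0_140))))))))))))))))))))

noncomputable def gp4_0_138 : PL :=
  (PL.C (nat_lit 0x69de6871) (nat_lit 0x0) (nat_lit 0xbdea4244cd326)
  (PL.C (nat_lit 0x6a09e551) (nat_lit 0x0) (nat_lit 0x26e6355dd4589)
  (PL.C (nat_lit 0x6a2d704d) (nat_lit 0x4959d203b7d20) (nat_lit 0x0)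
  (PL.C (nat_lit 0x6ab0d0ad) (nat_lit 0x0) (nat_lit 0x13712e8ef316a)
  (PL.C (nat_lit 0x6b377592) (nat_lit 0x4df4dca67c20) (nat_lit 0x0)
  (PL.C (nat_lit 0x6b6d3f4d) (nat_lit 0xfc7cb47e96d32) (nat_lit 0x0)
  (PL.C (nat_lit 0x6bd752ae) (nat_lit 0x2735fe1c3c41c) (nat_lit 0x0)
  (PL.C (nat_lit 0x6c05c661) (nat_lit 0x17b3690fd8a79) (nat_lit 0x0)
  (PL.C (nat_lit 0x6c23bc5e) (nat_lit 0x0) (nat_lit 0xc18ad30e5366)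
  (PL.C (nat_lit 0x6c3d75b1) (nat_lit 0xd37b7fc9b4de) (nat_lit 0x0)
  (PL.C (nat_lit 0x6cf3d3d7) (nat_lit 0x0) (nat_lit 0x3790f6b397d3b)
  (PL.C (nat_lit 0x6d4f04fa) (nat_lit 0x0) (nat_lit 0xa7782fe19210)
  (PL.C (nat_lit 0x6ddee149) (nat_lit 0x60101e72e8149) (nat_lit 0x0)
  (PL.C (nat_lit 0x6debe9b7) (nat_lit 0x0) (nat_lit 0x1d233bbf8bf434)
  (PL.C (nat_lit 0x6ee82583) (nat_lit 0x0) (nat_lit 0xc58e0d060abb)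
  (PL.C (nat_lit 0x6f215173) (nat_lit 0x0) (nat_lit 0x3b735b1fb1d2a)
  (PL.C (nat_lit 0x6f71ca21) (nat_lit 0xc6cc155a69d6e) (nat_lit 0x0)
  (PL.C (nat_lit 0x6fdc8e25) (nat_lit 0x0) (nat_lit 0x1cf6f9c1b63f4)
  (PL.C (nat_lit 0x6ffe994d) (nat_lit 0xb78afc656a1b9) (nat_lit 0x0)
  (PL.C (nat_lit 0x7010fc03) (nat_lit 0xff62613fd28d) (nat_lit 0x0) gp4_0_139))))))))))))))))))))

noncomputable def gp4_0_137 : PL :=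
  (PL.C (nat_lit 0x62faeaa6) (nat_lit 0x0) (nat_lit 0x105074e2adce2)
  (PL.C (nat_lit 0x630119c6) (nat_lit 0x0) (nat_lit 0x17f3251a4276a)
  (PL.C (nat_lit 0x636cad71) (nat_lit 0x1abbf99d70628) (nat_lit 0x0)
  (PL.C (nat_lit 0x63736282) (nat_lit 0xa98d369a84747) (nat_lit 0x0)
  (PL.C (nat_lit 0x63cf031f) (nat_lit 0x538059c0a97a) (nat_lit 0x0)
  (PL.C (nat_lit 0x63db478a) (nat_lit 0x25883332ca9e9) (nat_lit 0x0)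
  (PL.C (nat_lit 0x63df725b) (nat_lit 0x0) (nat_lit 0x223512b1f03937)
  (PL.C (nat_lit 0x6447c847) (nat_lit 0x0) (nat_lit 0x4a883b9aa029e)
  (PL.C (nat_lit 0x646c4f8b) (nat_lit 0x4096077b331a2) (nat_lit 0x0)
  (PL.C (nat_lit 0x64aaf6a9) (nat_lit 0x0) (nat_lit 0x3398fc6ff36f6)
  (PL.C (nat_lit 0x65c1918b) (nat_lit 0x7afa620b292ae) (nat_lit 0x0)
  (PL.C (nat_lit 0x65ed5fb3) (nat_lit 0x23e42e78fea9a) (nat_lit 0x0)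
  (PL.C (nat_lit 0x6621eaa3) (nat_lit 0x0) (nat_lit 0x492f160dff30d)
  (PL.C (nat_lit 0x668a405b) (nat_lit 0x0) (nat_lit 0x277e7186efb37)
  (PL.C (nat_lit 0x670c46df) (nat_lit 0x34b5953499a38) (nat_lit 0x0)
  (PL.C (nat_lit 0x671abcc1) (nat_lit 0x0) (nat_lit 0x362f3ba726b3a)
  (PL.C (nat_lit 0x676a8d8f) (nat_lit 0x4fd6dcf8686f8) (nat_lit 0x0)
  (PL.C (nat_lit 0x67d976e1) (nat_lit 0x4096077b331a2) (nat_lit 0x0)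
  (PL.C (nat_lit 0x68dc0709) (nat_lit 0x1d063e53810c2) (nat_lit 0x0)
  (PL.C (nat_lit 0x6953c98a) (nat_lit 0x536edf748b21c) (nat_lit 0x0) gp4_0_138))))))))))))))))))))

noncomputable def gp4_0_136 : PL :=
  (PL.C (nat_lit 0x5d58b62d) (nat_lit 0x0) (nat_lit 0x45a1cea0a80dc)
  (PL.C (nat_lit 0x5dcfa87f) (nat_lit 0x0) (nat_lit 0x3ba5cf35e68e)
  (PL.C (nat_lit 0x5def1a43) (nat_lit 0x4959d203b7d20) (nat_lit 0x0)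
  (PL.C (nat_lit 0x5e99f94f) (nat_lit 0x0) (nat_lit 0x1fb38027046276)
  (PL.C (nat_lit 0x5eaa247d) (nat_lit 0x8e4eb5f6e3627) (nat_lit 0x0)
  (PL.C (nat_lit 0x5f152467) (nat_lit 0x34b5953499a38) (nat_lit 0x0)
  (PL.C (nat_lit 0x5f5748ab) (nat_lit 0x4a2bced32bfbf) (nat_lit 0x0)
  (PL.C (nat_lit 0x602963bd) (nat_lit 0xf8918f4d7f33) (nat_lit 0x0)
  (PL.C (nat_lit 0x60c86cbf) (nat_lit 0xb271e06305826) (nat_lit 0x0)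
  (PL.C (nat_lit 0x60d3e3a3) (nat_lit 0x0) (nat_lit 0xbffb64064c83)
  (PL.C (nat_lit 0x60e8dd83) (nat_lit 0x0) (nat_lit 0x1687368b72b494)
  (PL.C (nat_lit 0x61209b8d) (nat_lit 0x0) (nat_lit 0x80f60df38e20)
  (PL.C (nat_lit 0x61338607) (nat_lit 0x8b1e404a0822b) (nat_lit 0x0)
  (PL.C (nat_lit 0x61368715) (nat_lit 0x0) (nat_lit 0x278ae9a1a50f93)
  (PL.C (nat_lit 0x613bbc0d) (nat_lit 0xd9720c2dacc2) (nat_lit 0x0)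
  (PL.C (nat_lit 0x618b1476) (nat_lit 0x2735fe1c3c41c) (nat_lit 0x0)
  (PL.C (nat_lit 0x61d4472d) (nat_lit 0xff62613fd28d) (nat_lit 0x0)
  (PL.C (nat_lit 0x61eaa2bb) (nat_lit 0x5921ddf88d236) (nat_lit 0x0)
  (PL.C (nat_lit 0x61f511b9) (nat_lit 0x1deb93dba7963c) (nat_lit 0x0)
  (PL.C (nat_lit 0x628c6abb) (nat_lit 0x0) (nat_lit 0x5af9068f16d75) gp4_0_137))))))))))))))))))))

noncomputable def gp4_0_135 : PL :=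
  (PL.C (nat_lit 0x58848aed) (nat_lit 0x1d063e53810c2) (nat_lit 0x0)
  (PL.C (nat_lit 0x5895c827) (nat_lit 0x87756b7bfe52) (nat_lit 0x0)
  (PL.C (nat_lit 0x58a23679) (nat_lit 0x6e48071756a) (nat_lit 0x0)
  (PL.C (nat_lit 0x590770ea) (nat_lit 0x0) (nat_lit 0x2a3ab5d561b8)
  (PL.C (nat_lit 0x592dca33) (nat_lit 0xc6cc155a69d6e) (nat_lit 0x0)
  (PL.C (nat_lit 0x595ea7f5) (nat_lit 0x0) (nat_lit 0x137eb6b4fa9f38)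
  (PL.C (nat_lit 0x59976136) (nat_lit 0x16d3a09c0cee1) (nat_lit 0x0)
  (PL.C (nat_lit 0x59f43ffa) (nat_lit 0x4e9dd66a246ba) (nat_lit 0x0)
  (PL.C (nat_lit 0x59fecc52) (nat_lit 0x0) (nat_lit 0x744f41647a2f3)
  (PL.C (nat_lit 0x5a55fe2f) (nat_lit 0xb108dc1656f99) (nat_lit 0x0)
  (PL.C (nat_lit 0x5a5cd09a) (nat_lit 0x0) (nat_lit 0xb572c2c8250d)
  (PL.C (nat_lit 0x5b5f1a35) (nat_lit 0x473dfb3b13e99) (nat_lit 0x0)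
  (PL.C (nat_lit 0x5b7dbaa1) (nat_lit 0x33794be17ce98) (nat_lit 0x0)
  (PL.C (nat_lit 0x5b8f5bb9) (nat_lit 0x2b68da5293ef7) (nat_lit 0x0)
  (PL.C (nat_lit 0x5c5921bf) (nat_lit 0x0) (nat_lit 0x1d8f5d5bf6284)
  (PL.C (nat_lit 0x5c64f55a) (nat_lit 0x60c795a0445be) (nat_lit 0x0)
  (PL.C (nat_lit 0x5c8cc1bb) (nat_lit 0x0) (nat_lit 0xe5fda2cdb103)
  (PL.C (nat_lit 0x5c9c1f2d) (nat_lit 0x0) (nat_lit 0x68d9536580f19)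
  (PL.C (nat_lit 0x5cbc772b) (nat_lit 0x0) (nat_lit 0x6bf9b0ca1afa0)
  (PL.C (nat_lit 0x5cca78d3) (nat_lit 0x87644266b308c) (nat_lit 0x0) gp4_0_136))))))))))))))))))))

noncomputable def gp4_0_134 : PL :=
  (PL.C (nat_lit 0x53ce09f5) (nat_lit 0x0) (nat_lit 0x288760145dda0)
  (PL.C (nat_lit 0x542d2ceb) (nat_lit 0x0) (nat_lit 0x1e1a8070da86)
  (PL.C (nat_lit 0x54344c1a) (nat_lit 0x0) (nat_lit 0x2f28c20a0c074)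
  (PL.C (nat_lit 0x545f7187) (nat_lit 0xe2d0a07fff23f) (nat_lit 0x0)
  (PL.C (nat_lit 0x54b9ee69) (nat_lit 0x0) (nat_lit 0x68d9536580f19)
  (PL.C (nat_lit 0x54e6ad7d) (nat_lit 0x0) (nat_lit 0x1199902290b10)
  (PL.C (nat_lit 0x5512718d) (nat_lit 0xb8b615abd707) (nat_lit 0x0)
  (PL.C (nat_lit 0x5534aeb6) (nat_lit 0x0) (nat_lit 0x379c86d70a93)
  (PL.C (nat_lit 0x55914419) (nat_lit 0x0) (nat_lit 0xda75fddf89659)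
  (PL.C (nat_lit 0x55a1c6db) (nat_lit 0x0) (nat_lit 0x1e1a8070da86)
  (PL.C (nat_lit 0x560adfbf) (nat_lit 0xb8b615abd707) (nat_lit 0x0)
  (PL.C (nat_lit 0x56373a6f) (nat_lit 0x3f9c23aaff458e) (nat_lit 0x0)
  (PL.C (nat_lit 0x56542073) (nat_lit 0x0) (nat_lit 0xdd143638d540)
  (PL.C (nat_lit 0x56fd109b) (nat_lit 0x0) (nat_lit 0x64377721ab39)
  (PL.C (nat_lit 0x571a38ef) (nat_lit 0x34908571b30f6) (nat_lit 0x0)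
  (PL.C (nat_lit 0x574ca60b) (nat_lit 0x33794be17ce98) (nat_lit 0x0)
  (PL.C (nat_lit 0x57b8aaab) (nat_lit 0x13f0287476f5e) (nat_lit 0x0)
  (PL.C (nat_lit 0x57c7a8d1) (nat_lit 0x0) (nat_lit 0x1a0a5d7391e54)
  (PL.C (nat_lit 0x57fb9f1e) (nat_lit 0x4e9dd66a246ba) (nat_lit 0x0)
  (PL.C (nat_lit 0x5844eb66) (nat_lit 0x0) (nat_lit 0x2a3ab5d561b8) gp4_0_135))))))))))))))))))))

noncomputable def gp4_0_133 : PL :=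
  (PL.C (nat_lit 0x4f346cd2) (nat_lit 0x0) (nat_lit 0x105074e2adce2)
  (PL.C (nat_lit 0x4f4b808f) (nat_lit 0x7e52672c139a) (nat_lit 0x0)
  (PL.C (nat_lit 0x4f8f7523) (nat_lit 0x55e4f95b8528f) (nat_lit 0x0)
  (PL.C (nat_lit 0x4f94d326) (nat_lit 0xa98d369a84747) (nat_lit 0x0)
  (PL.C (nat_lit 0x4f9caa85) (nat_lit 0x0) (nat_lit 0x2b0e25bc18f63)
  (PL.C (nat_lit 0x4ff20c4b) (nat_lit 0x0) (nat_lit 0x9d99a758aa8d)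
  (PL.C (nat_lit 0x503ec985) (nat_lit 0x0) (nat_lit 0x16ffe9cc0ede9f)
  (PL.C (nat_lit 0x50535969) (nat_lit 0x0) (nat_lit 0xf7a539641509e)
  (PL.C (nat_lit 0x508a6e3f) (nat_lit 0x0) (nat_lit 0x10bf5a6b226b61)
  (PL.C (nat_lit 0x50f34ad7) (nat_lit 0x3b7929a1c7f6e) (nat_lit 0x0)
  (PL.C (nat_lit 0x5151d136) (nat_lit 0x126495926d2f0) (nat_lit 0x0)
  (PL.C (nat_lit 0x5166ce8a) (nat_lit 0x0) (nat_lit 0x482af55c3cff4)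
  (PL.C (nat_lit 0x51bcd76f) (nat_lit 0x0) (nat_lit 0x5d6491ca941f7)
  (PL.C (nat_lit 0x520d9263) (nat_lit 0x0) (nat_lit 0x23fa2182ed1ff4)
  (PL.C (nat_lit 0x521a31a6) (nat_lit 0x0) (nat_lit 0x13d65a6da35fd8)
  (PL.C (nat_lit 0x527367c1) (nat_lit 0x67bb9f7d5ebdb7) (nat_lit 0x0)
  (PL.C (nat_lit 0x52b0f45d) (nat_lit 0x1c2ad7d3d9989) (nat_lit 0x0)
  (PL.C (nat_lit 0x5304b23a) (nat_lit 0x8ec7c2d9e47e) (nat_lit 0x0)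
  (PL.C (nat_lit 0x5319ec73) (nat_lit 0x9af7aec5cdf8) (nat_lit 0x0)
  (PL.C (nat_lit 0x53aa0046) (nat_lit 0x2cc90f8ecb47f) (nat_lit 0x0) gp4_0_134))))))))))))))))))))

noncomputable def gp4_0_132 : PL :=
  (PL.C (nat_lit 0x4a4bdc16) (nat_lit 0x114b01cab6da5e) (nat_lit 0x0)
  (PL.C (nat_lit 0x4a8754d9) (nat_lit 0x0) (nat_lit 0x13712e8ef316a)
  (PL.C (nat_lit 0x4a93096e) (nat_lit 0x0) (nat_lit 0x17f3251a4276a)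
  (PL.C (nat_lit 0x4ac79503) (nat_lit 0x991de0781b208) (nat_lit 0x0)
  (PL.C (nat_lit 0x4ae0a5b7) (nat_lit 0x0) (nat_lit 0x1ab561f707ab4)
  (PL.C (nat_lit 0x4b1742d2) (nat_lit 0x0) (nat_lit 0x1c9d4b6d4a3b3)
  (PL.C (nat_lit 0x4b616d2a) (nat_lit 0x0) (nat_lit 0x379c86d70a93)
  (PL.C (nat_lit 0x4b68da93) (nat_lit 0x204418b7a9d36) (nat_lit 0x0)
  (PL.C (nat_lit 0x4c3f78bd) (nat_lit 0xeeedb444d5323) (nat_lit 0x0)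
  (PL.C (nat_lit 0x4c41f12b) (nat_lit 0x0) (nat_lit 0x32b27385dff98)
  (PL.C (nat_lit 0x4ca2fddb) (nat_lit 0x5921ddf88d236) (nat_lit 0x0)
  (PL.C (nat_lit 0x4ce2d64f) (nat_lit 0x0) (nat_lit 0x1687368b72b494)
  (PL.C (nat_lit 0x4d1acfa6) (nat_lit 0x4325a9d2d969) (nat_lit 0x0)
  (PL.C (nat_lit 0x4d279caa) (nat_lit 0x0) (nat_lit 0x2c86e46d9064d)
  (PL.C (nat_lit 0x4d3b96e5) (nat_lit 0x4fd6dcf8686f8) (nat_lit 0x0)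
  (PL.C (nat_lit 0x4dc4baaa) (nat_lit 0x1f15371f76e98) (nat_lit 0x0)
  (PL.C (nat_lit 0x4e48a717) (nat_lit 0x156ece0e9d0c8) (nat_lit 0x0)
  (PL.C (nat_lit 0x4e62e47b) (nat_lit 0x1c2ad7d3d9989) (nat_lit 0x0)
  (PL.C (nat_lit 0x4eae936f) (nat_lit 0x0) (nat_lit 0xf3a54e63a36f)
  (PL.C (nat_lit 0x4eb59fb1) (nat_lit 0x0) (nat_lit 0xf3f16c0ebf4cd) gp4_0_133))))))))))))))))))))

noncomputable def gp4_0_131 : PL :=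
  (PL.C (nat_lit 0x47701c1b) (nat_lit 0x0) (nat_lit 0x695a650aa46e)
  (PL.C (nat_lit 0x479da7d9) (nat_lit 0x0) (nat_lit 0x1074a673bf7e8f)
  (PL.C (nat_lit 0x47b91693) (nat_lit 0x0) (nat_lit 0x3ec8f2e8de4c3)
  (PL.C (nat_lit 0x47d06681) (nat_lit 0x23e42e78fea9a) (nat_lit 0x0)
  (PL.C (nat_lit 0x47e878bd) (nat_lit 0xfe85ae76123) (nat_lit 0x0)
  (PL.C (nat_lit 0x4803d996) (nat_lit 0x0) (nat_lit 0x13d65a6da35fd8)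
  (PL.C (nat_lit 0x484ff6c1) (nat_lit 0x0) (nat_lit 0x11a29aa8191f6)
  (PL.C (nat_lit 0x485cbad3) (nat_lit 0x0) (nat_lit 0x321bddc25f3a)
  (PL.C (nat_lit 0x48972693) (nat_lit 0x13f0287476f5e) (nat_lit 0x0)
  (PL.C (nat_lit 0x48a28d3a) (nat_lit 0x0) (nat_lit 0x482af55c3cff4)
  (PL.C (nat_lit 0x48a7bd85) (nat_lit 0x0) (nat_lit 0x7bbfe28f92a86)
  (PL.C (nat_lit 0x48b04291) (nat_lit 0x0) (nat_lit 0x20a6ab76e4d7d)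
  (PL.C (nat_lit 0x48c78e6b) (nat_lit 0x0) (nat_lit 0x492f160dff30d)
  (PL.C (nat_lit 0x48cc1a7b) (nat_lit 0xf8918f4d7f33) (nat_lit 0x0)
  (PL.C (nat_lit 0x48dff37f) (nat_lit 0x1039e57d59029f) (nat_lit 0x0)
  (PL.C (nat_lit 0x48fc3255) (nat_lit 0x0) (nat_lit 0x49539db60237)
  (PL.C (nat_lit 0x4921d1e5) (nat_lit 0x4e7997e46fe74) (nat_lit 0x0)
  (PL.C (nat_lit 0x496c876d) (nat_lit 0x4a2bced32bfbf) (nat_lit 0x0)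
  (PL.C (nat_lit 0x49f01902) (nat_lit 0x25883332ca9e9) (nat_lit 0x0)
  (PL.C (nat_lit 0x4a37bc17) (nat_lit 0x0) (nat_lit 0x23fa2182ed1ff4) gp4_0_132))))))))))))))))))))

noncomputable def gp4_0_130 : PL :=
  (PL.C (nat_lit 0x43a38c37) (nat_lit 0x4a56637bec63c) (nat_lit 0x0)
  (PL.C (nat_lit 0x43bd5059) (nat_lit 0x903d31df3d3fe4) (nat_lit 0x0)
  (PL.C (nat_lit 0x43cc798b) (nat_lit 0x5f3a7ff5796d) (nat_lit 0x0)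
  (PL.C (nat_lit 0x43efe195) (nat_lit 0xfc2e5db7c8c9) (nat_lit 0x0)
  (PL.C (nat_lit 0x43f39522) (nat_lit 0x320b97577e0db) (nat_lit 0x0)
  (PL.C (nat_lit 0x4478c99b) (nat_lit 0x0) (nat_lit 0x31c725fe6f54d5)
  (PL.C (nat_lit 0x44b2d9ea) (nat_lit 0x79eff66e07dd) (nat_lit 0x0)
  (PL.C (nat_lit 0x44bc7dd6) (nat_lit 0x0) (nat_lit 0x2f28c20a0c074)
  (PL.C (nat_lit 0x44d1ef93) (nat_lit 0x0) (nat_lit 0x262ffb5cec015)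
  (PL.C (nat_lit 0x450d43e1) (nat_lit 0x8f558cbb443f7) (nat_lit 0x0)
  (PL.C (nat_lit 0x453ba496) (nat_lit 0x0) (nat_lit 0x2029cb4c42075)
  (PL.C (nat_lit 0x4599f085) (nat_lit 0x0) (nat_lit 0x3d909308209401)
  (PL.C (nat_lit 0x45f24acb) (nat_lit 0x0) (nat_lit 0x288760145dda0)
  (PL.C (nat_lit 0x463e0543) (nat_lit 0x0) (nat_lit 0x1a0a5d7391e54)
  (PL.C (nat_lit 0x464cd0f1) (nat_lit 0x0) (nat_lit 0x17d4140f42d066)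
  (PL.C (nat_lit 0x465a90df) (nat_lit 0xa128d7b2e0dc8) (nat_lit 0x0)
  (PL.C (nat_lit 0x471027e7) (nat_lit 0x0) (nat_lit 0xedf57de53e94)
  (PL.C (nat_lit 0x47208b1e) (nat_lit 0xbf546835e634) (nat_lit 0x0)
  (PL.C (nat_lit 0x47394be3) (nat_lit 0xe2d0a07fff23f) (nat_lit 0x0)
  (PL.C (nat_lit 0x474b5bab) (nat_lit 0x0) (nat_lit 0xc9ba2e791c34a) gp4_0_131))))))))))))))))))))

noncomputable def gp4_0_129 : PL :=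
  (PL.C (nat_lit 0x40b17c87) (nat_lit 0x200ae6db8763d) (nat_lit 0x0)
  (PL.C (nat_lit 0x40c6f635) (nat_lit 0x0) (nat_lit 0x1074a673bf7e8f)
  (PL.C (nat_lit 0x40d27d5e) (nat_lit 0x0) (nat_lit 0x199281e9110ba)
  (PL.C (nat_lit 0x40e761cb) (nat_lit 0x8e4ae1b17c53c) (nat_lit 0x0)
  (PL.C (nat_lit 0x41b2f1d2) (nat_lit 0x0) (nat_lit 0x744f41647a2f3)
  (PL.C (nat_lit 0x41b5afb7) (nat_lit 0x16223f6858533c) (nat_lit 0x0)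
  (PL.C (nat_lit 0x41bf580d) (nat_lit 0x0) (nat_lit 0x2fcf6152e0919)
  (PL.C (nat_lit 0x4205db43) (nat_lit 0xbb50df6c5287) (nat_lit 0x0)
  (PL.C (nat_lit 0x420b3d0f) (nat_lit 0xab7825d31263) (nat_lit 0x0)
  (PL.C (nat_lit 0x422b95a7) (nat_lit 0x1deb93dba7963c) (nat_lit 0x0)
  (PL.C (nat_lit 0x42503bcb) (nat_lit 0x26a701f6c3587b) (nat_lit 0x0)
  (PL.C (nat_lit 0x42716c35) (nat_lit 0x0) (nat_lit 0xf3f16c0ebf4cd)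
  (PL.C (nat_lit 0x4281bc7f) (nat_lit 0x34908571b30f6) (nat_lit 0x0)
  (PL.C (nat_lit 0x42975a65) (nat_lit 0x0) (nat_lit 0x4c1566cc5a01)
  (PL.C (nat_lit 0x42f2dfb2) (nat_lit 0x0) (nat_lit 0x2029cb4c42075)
  (PL.C (nat_lit 0x430da3a5) (nat_lit 0x0) (nat_lit 0xaa27ed507633)
  (PL.C (nat_lit 0x43294eef) (nat_lit 0x903d31df3d3fe4) (nat_lit 0x0)
  (PL.C (nat_lit 0x43347559) (nat_lit 0x0) (nat_lit 0x1bb97ce59edf7d)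
  (PL.C (nat_lit 0x437c88b7) (nat_lit 0x33cc7046f4aa) (nat_lit 0x0)
  (PL.C (nat_lit 0x4393279b) (nat_lit 0x0) (nat_lit 0x116c28343d6ce) gp4_0_130))))))))))))))))))))

noncomputable def gp4_0_128 : PL :=
  (PL.C (nat_lit 0x3dd0d395) (nat_lit 0x78eb87a7d8558) (nat_lit 0x0)
  (PL.C (nat_lit 0x3dea37f5) (nat_lit 0x6e48071756a) (nat_lit 0x0)
  (PL.C (nat_lit 0x3e008015) (nat_lit 0x0) (nat_lit 0x3495ac0e0f1d31)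
  (PL.C (nat_lit 0x3e3b241e) (nat_lit 0x4325a9d2d969) (nat_lit 0x0)
  (PL.C (nat_lit 0x3e46e2cb) (nat_lit 0x0) (nat_lit 0x584f44b36a1bc)
  (PL.C (nat_lit 0x3e51399d) (nat_lit 0x11b7b7633984e) (nat_lit 0x0)
  (PL.C (nat_lit 0x3e66fd3b) (nat_lit 0x0) (nat_lit 0xb4ddcf50c36ff)
  (PL.C (nat_lit 0x3e75401d) (nat_lit 0x8a6dd2742541) (nat_lit 0x0)
  (PL.C (nat_lit 0x3e8ec639) (nat_lit 0x0) (nat_lit 0x16954488b05424)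
  (PL.C (nat_lit 0x3ea6bcb3) (nat_lit 0x8b1e404a0822b) (nat_lit 0x0)
  (PL.C (nat_lit 0x3eba6047) (nat_lit 0x0) (nat_lit 0x137eb6b4fa9f38)
  (PL.C (nat_lit 0x3ed0209d) (nat_lit 0x0) (nat_lit 0xf2d9250371c3)
  (PL.C (nat_lit 0x3f636d9a) (nat_lit 0x79eff66e07dd) (nat_lit 0x0)
  (PL.C (nat_lit 0x3fa84e1f) (nat_lit 0x926aa2fba88bf) (nat_lit 0x0)
  (PL.C (nat_lit 0x3fd83381) (nat_lit 0x0) (nat_lit 0x4c1566cc5a01)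
  (PL.C (nat_lit 0x3ff3b5d3) (nat_lit 0x0) (nat_lit 0x32b27385dff98)
  (PL.C (nat_lit 0x3ff91cd1) (nat_lit 0x33cc7046f4aa) (nat_lit 0x0)
  (PL.C (nat_lit 0x401187d1) (nat_lit 0xd77601623548a) (nat_lit 0x0)
  (PL.C (nat_lit 0x4064e5b7) (nat_lit 0xbb50df6c5287) (nat_lit 0x0)
  (PL.C (nat_lit 0x40730ced) (nat_lit 0x0) (nat_lit 0x10bf5a6b226b61) gp4_0_129))))))))))))))))))))

noncomputable def gp4_0_127 : PL :=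
  (PL.C (nat_lit 0x3b293e3b) (nat_lit 0x17c2812af07ce) (nat_lit 0x0)
  (PL.C (nat_lit 0x3b3042c5) (nat_lit 0x0) (nat_lit 0x6541274c548da)
  (PL.C (nat_lit 0x3b6f5f1b) (nat_lit 0x16223f6858533c) (nat_lit 0x0)
  (PL.C (nat_lit 0x3b73dc22) (nat_lit 0x114b01cab6da5e) (nat_lit 0x0)
  (PL.C (nat_lit 0x3bfd03c3) (nat_lit 0x0) (nat_lit 0x7bbfe28f92a86)
  (PL.C (nat_lit 0x3c0231c3) (nat_lit 0xeb56824dbd867) (nat_lit 0x0)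
  (PL.C (nat_lit 0x3c2efd97) (nat_lit 0xfe85ae76123) (nat_lit 0x0)
  (PL.C (nat_lit 0x3c4e03c7) (nat_lit 0x1039e57d59029f) (nat_lit 0x0)
  (PL.C (nat_lit 0x3c57ea29) (nat_lit 0x1038c4bab744a8) (nat_lit 0x0)
  (PL.C (nat_lit 0x3c623a6b) (nat_lit 0x0) (nat_lit 0x4f76634fe5f94)
  (PL.C (nat_lit 0x3cb39e71) (nat_lit 0x0) (nat_lit 0xc9ba2e791c34a)
  (PL.C (nat_lit 0x3d0a3d26) (nat_lit 0x0) (nat_lit 0xb572c2c8250d)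
  (PL.C (nat_lit 0x3d0afb85) (nat_lit 0x4a56637bec63c) (nat_lit 0x0)
  (PL.C (nat_lit 0x3d551459) (nat_lit 0x0) (nat_lit 0xedf57de53e94)
  (PL.C (nat_lit 0x3d5b9d63) (nat_lit 0x16ddc2dfa09cb8) (nat_lit 0x0)
  (PL.C (nat_lit 0x3d8487bb) (nat_lit 0x0) (nat_lit 0x695a650aa46e)
  (PL.C (nat_lit 0x3d90c12a) (nat_lit 0x16d3a09c0cee1) (nat_lit 0x0)
  (PL.C (nat_lit 0x3db32bd2) (nat_lit 0x1f15371f76e98) (nat_lit 0x0)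
  (PL.C (nat_lit 0x3dbc2239) (nat_lit 0x0) (nat_lit 0x1ab9d92eac613e)
  (PL.C (nat_lit 0x3dbd6a1e) (nat_lit 0x421da2054df6f) (nat_lit 0x0) gp4_0_128))))))))))))))))))))

noncomputable def gp4_0_126 : PL :=
  (PL.C (nat_lit 0x38b6f65e) (nat_lit 0x634f86c77130a) (nat_lit 0x0)
  (PL.C (nat_lit 0x38bb3e7d) (nat_lit 0x10a3a651c7e6d) (nat_lit 0x0)
  (PL.C (nat_lit 0x39019ab3) (nat_lit 0xe5f1c499a7952) (nat_lit 0x0)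
  (PL.C (nat_lit 0x39168492) (nat_lit 0x0) (nat_lit 0xd4c24802db5b)
  (PL.C (nat_lit 0x39190553) (nat_lit 0x0) (nat_lit 0x11a29aa8191f6)
  (PL.C (nat_lit 0x392c28c7) (nat_lit 0x305ef7299557a) (nat_lit 0x0)
  (PL.C (nat_lit 0x392ec57d) (nat_lit 0x55e4f95b8528f) (nat_lit 0x0)
  (PL.C (nat_lit 0x394ec0db) (nat_lit 0x3b7929a1c7f6e) (nat_lit 0x0)
  (PL.C (nat_lit 0x395c952a) (nat_lit 0x634f86c77130a) (nat_lit 0x0)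
  (PL.C (nat_lit 0x39cd0747) (nat_lit 0x0) (nat_lit 0x31c725fe6f54d5)
  (PL.C (nat_lit 0x39fe0b12) (nat_lit 0x0) (nat_lit 0x1c9d4b6d4a3b3)
  (PL.C (nat_lit 0x3a117b4a) (nat_lit 0x2daf718f9299d) (nat_lit 0x0)
  (PL.C (nat_lit 0x3a2a7e83) (nat_lit 0x13d04240ed0c5) (nat_lit 0x0)
  (PL.C (nat_lit 0x3a487a73) (nat_lit 0x10a3a651c7e6d) (nat_lit 0x0)
  (PL.C (nat_lit 0x3a7b1c72) (nat_lit 0x0) (nat_lit 0x10e17ee4a5cab9)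
  (PL.C (nat_lit 0x3a8404ab) (nat_lit 0x571772a2ed556) (nat_lit 0x0)
  (PL.C (nat_lit 0x3a851b36) (nat_lit 0xacae04aa3954) (nat_lit 0x0)
  (PL.C (nat_lit 0x3a9e503d) (nat_lit 0x4bc359240b6e1) (nat_lit 0x0)
  (PL.C (nat_lit 0x3aaaad25) (nat_lit 0x0) (nat_lit 0x23a3538263756)
  (PL.C (nat_lit 0x3b1f7e1b) (nat_lit 0x4bc359240b6e1) (nat_lit 0x0) gp4_0_127))))))))))))))))))))

noncomputable def gp4_0_125 : PL :=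
  (PL.C (nat_lit 0x36428ff7) (nat_lit 0x0) (nat_lit 0xf7a539641509e)
  (PL.C (nat_lit 0x365db809) (nat_lit 0x1e773b30d0a64) (nat_lit 0x0)
  (PL.C (nat_lit 0x3685e71d) (nat_lit 0x0) (nat_lit 0xb59c38473c005)
  (PL.C (nat_lit 0x36d586ef) (nat_lit 0x0) (nat_lit 0x642f03a3b28b)
  (PL.C (nat_lit 0x36e24739) (nat_lit 0x775f337a521d9) (nat_lit 0x0)
  (PL.C (nat_lit 0x36fe9209) (nat_lit 0x0) (nat_lit 0x784cd21709593)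
  (PL.C (nat_lit 0x3736c031) (nat_lit 0x991de0781b208) (nat_lit 0x0)
  (PL.C (nat_lit 0x37669da2) (nat_lit 0x2cc90f8ecb47f) (nat_lit 0x0)
  (PL.C (nat_lit 0x376d48bd) (nat_lit 0x60101e72e8149) (nat_lit 0x0)
  (PL.C (nat_lit 0x3771f75f) (nat_lit 0xd9720c2dacc2) (nat_lit 0x0)
  (PL.C (nat_lit 0x37804701) (nat_lit 0x0) (nat_lit 0x23a3538263756)
  (PL.C (nat_lit 0x37af874d) (nat_lit 0x0) (nat_lit 0x70365b556fe6)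
  (PL.C (nat_lit 0x37deb14e) (nat_lit 0x0) (nat_lit 0x89a75824219e3)
  (PL.C (nat_lit 0x37eb4003) (nat_lit 0x12a9af40b8d8) (nat_lit 0x0)
  (PL.C (nat_lit 0x37fa9637) (nat_lit 0x13d04240ed0c5) (nat_lit 0x0)
  (PL.C (nat_lit 0x381e1df2) (nat_lit 0x0) (nat_lit 0xd4c24802db5b)
  (PL.C (nat_lit 0x387bf446) (nat_lit 0x421da2054df6f) (nat_lit 0x0)
  (PL.C (nat_lit 0x38958315) (nat_lit 0x16014c7598a29) (nat_lit 0x0)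
  (PL.C (nat_lit 0x3899c8fe) (nat_lit 0x11c232fb2bdb4) (nat_lit 0x0)
  (PL.C (nat_lit 0x38b1d4eb) (nat_lit 0x0) (nat_lit 0x16ffe9cc0ede9f) gp4_0_126))))))))))))))))))))

noncomputable def gp4_0_124 : PL :=
  (PL.C (nat_lit 0x342e9ea9) (nat_lit 0x0) (nat_lit 0xb790bcb52492c)
  (PL.C (nat_lit 0x344ca287) (nat_lit 0xd77601623548a) (nat_lit 0x0)
  (PL.C (nat_lit 0x3456dd29) (nat_lit 0x1b2ad1a5d2d755) (nat_lit 0x0)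
  (PL.C (nat_lit 0x3458701f) (nat_lit 0x0) (nat_lit 0x3d909308209401)
  (PL.C (nat_lit 0x3474624a) (nat_lit 0x8ec7c2d9e47e) (nat_lit 0x0)
  (PL.C (nat_lit 0x34ad6167) (nat_lit 0x0) (nat_lit 0x32e58005e0cd49)
  (PL.C (nat_lit 0x34b96b51) (nat_lit 0x46fa6ea3fd712) (nat_lit 0x0)
  (PL.C (nat_lit 0x34bf098b) (nat_lit 0x98414e17a3c4c) (nat_lit 0x0)
  (PL.C (nat_lit 0x34d9525d) (nat_lit 0xab7825d31263) (nat_lit 0x0)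
  (PL.C (nat_lit 0x34f3c5a3) (nat_lit 0x0) (nat_lit 0xbdea4244cd326)
  (PL.C (nat_lit 0x354c0832) (nat_lit 0x7faa7926537bf) (nat_lit 0x0)
  (PL.C (nat_lit 0x358949b3) (nat_lit 0x0) (nat_lit 0x6165c6d2c9e5)
  (PL.C (nat_lit 0x358ce646) (nat_lit 0x0) (nat_lit 0xd6c24376ea8c6)
  (PL.C (nat_lit 0x3598e183) (nat_lit 0x0) (nat_lit 0xb593f50c0d09a)
  (PL.C (nat_lit 0x35c71631) (nat_lit 0x0) (nat_lit 0x28b00e98609ba)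
  (PL.C (nat_lit 0x35f7873a) (nat_lit 0x32c1e15388413) (nat_lit 0x0)
  (PL.C (nat_lit 0x35fc465f) (nat_lit 0xb108dc1656f99) (nat_lit 0x0)
  (PL.C (nat_lit 0x35ff4475) (nat_lit 0x1f16031fb2086) (nat_lit 0x0)
  (PL.C (nat_lit 0x3600d5d5) (nat_lit 0x0) (nat_lit 0x9d99a758aa8d)
  (PL.C (nat_lit 0x3612efc1) (nat_lit 0x0) (nat_lit 0x1b5f6f468451a) gp4_0_125))))))))))))))))))))

noncomputable def gp4_0_123 : PL :=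
  (PL.C (nat_lit 0x30d49123) (nat_lit 0x0) (nat_lit 0x223512b1f03937)
  (PL.C (nat_lit 0x3119e5cf) (nat_lit 0x26a701f6c3587b) (nat_lit 0x0)
  (PL.C (nat_lit 0x3133357f) (nat_lit 0x0) (nat_lit 0x1bb97ce59edf7d)
  (PL.C (nat_lit 0x3143b343) (nat_lit 0x3aab033245e46) (nat_lit 0x0)
  (PL.C (nat_lit 0x31861a79) (nat_lit 0x0) (nat_lit 0x2fcf6152e0919)
  (PL.C (nat_lit 0x31af8de6) (nat_lit 0xbf546835e634) (nat_lit 0x0)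
  (PL.C (nat_lit 0x31dde967) (nat_lit 0x0) (nat_lit 0xfc3ce0f1d90bf)
  (PL.C (nat_lit 0x31f6de99) (nat_lit 0x0) (nat_lit 0x1ab9d92eac613e)
  (PL.C (nat_lit 0x320f29fb) (nat_lit 0x16014c7598a29) (nat_lit 0x0)
  (PL.C (nat_lit 0x32136489) (nat_lit 0x2ed6c696044e4) (nat_lit 0x0)
  (PL.C (nat_lit 0x3283821d) (nat_lit 0x0) (nat_lit 0x5d6491ca941f7)
  (PL.C (nat_lit 0x32a8160f) (nat_lit 0x1318ee6753977c) (nat_lit 0x0)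
  (PL.C (nat_lit 0x32e81723) (nat_lit 0x0) (nat_lit 0xdd143638d540)
  (PL.C (nat_lit 0x32f0728d) (nat_lit 0x0) (nat_lit 0x32e58005e0cd49)
  (PL.C (nat_lit 0x32f92757) (nat_lit 0x5574d3f996bc01) (nat_lit 0x0)
  (PL.C (nat_lit 0x3332c4d5) (nat_lit 0x0) (nat_lit 0xfda45aa521d8)
  (PL.C (nat_lit 0x3334481d) (nat_lit 0x0) (nat_lit 0xc75db095ec9f4)
  (PL.C (nat_lit 0x33655611) (nat_lit 0x0) (nat_lit 0x262ffb5cec015)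
  (PL.C (nat_lit 0x33a51f3b) (nat_lit 0x33554bb5495afd) (nat_lit 0x0)
  (PL.C (nat_lit 0x341d26dd) (nat_lit 0x0) (nat_lit 0x6541274c548da) gp4_0_124))))))))))))))))))))

noncomputable def gp4_0_122 : PL :=
  (PL.C (nat_lit 0x2f01e341) (nat_lit 0x0) (nat_lit 0x1056fde1a4a75b)
  (PL.C (nat_lit 0x2f344d4f) (nat_lit 0x0) (nat_lit 0x1b5f6f468451a)
  (PL.C (nat_lit 0x2f3c0d21) (nat_lit 0x0) (nat_lit 0x1b7de8751a65a)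
  (PL.C (nat_lit 0x2f441fd3) (nat_lit 0x0) (nat_lit 0x4ed632ee14856)
  (PL.C (nat_lit 0x2f601a9a) (nat_lit 0x8fe4c1bda29f4) (nat_lit 0x0)
  (PL.C (nat_lit 0x2f879272) (nat_lit 0x5881abe7c0e03) (nat_lit 0x0)
  (PL.C (nat_lit 0x2fa9d4a7) (nat_lit 0x0) (nat_lit 0x7d0b784fec9d6)
  (PL.C (nat_lit 0x2fbe6fe6) (nat_lit 0x0) (nat_lit 0x118ce63002fb93)
  (PL.C (nat_lit 0x2fd300a5) (nat_lit 0x0) (nat_lit 0xb59c38473c005)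
  (PL.C (nat_lit 0x2fe04456) (nat_lit 0x320b97577e0db) (nat_lit 0x0)
  (PL.C (nat_lit 0x2ff0507e) (nat_lit 0x0) (nat_lit 0xaea3c0c4b482)
  (PL.C (nat_lit 0x3004f6b9) (nat_lit 0x1318ee6753977c) (nat_lit 0x0)
  (PL.C (nat_lit 0x301f46bf) (nat_lit 0x0) (nat_lit 0x1967b7b80945aa)
  (PL.C (nat_lit 0x303dd1e2) (nat_lit 0x0) (nat_lit 0x5633e11e8cac)
  (PL.C (nat_lit 0x3064c462) (nat_lit 0x0) (nat_lit 0x10e17ee4a5cab9)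
  (PL.C (nat_lit 0x306fd3ae) (nat_lit 0x0) (nat_lit 0x5fee9cc8c91de)
  (PL.C (nat_lit 0x307581b6) (nat_lit 0x127c27cd3e9c01) (nat_lit 0x0)
  (PL.C (nat_lit 0x308866ad) (nat_lit 0x0) (nat_lit 0xe52ffbf1a1e1)
  (PL.C (nat_lit 0x30a4752d) (nat_lit 0x32d01809c5faa6) (nat_lit 0x0)
  (PL.C (nat_lit 0x30a8218e) (nat_lit 0x0) (nat_lit 0x1485d4f66d9b6) gp4_0_123))))))))))))))))))))

noncomputable def gp4_0_121 : PL :=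
  (PL.C (nat_lit 0x2d202cbf) (nat_lit 0x0) (nat_lit 0x8a99ff84e27e1)
  (PL.C (nat_lit 0x2d32fbb2) (nat_lit 0x0) (nat_lit 0x2c86e46d9064d)
  (PL.C (nat_lit 0x2d476f4f) (nat_lit 0x0) (nat_lit 0x16954488b05424)
  (PL.C (nat_lit 0x2d5e18b1) (nat_lit 0x0) (nat_lit 0x4a883b9aa029e)
  (PL.C (nat_lit 0x2d6e7835) (nat_lit 0xc49411feca6b4) (nat_lit 0x0)
  (PL.C (nat_lit 0x2d87b92b) (nat_lit 0x0) (nat_lit 0x63e3abf804139)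
  (PL.C (nat_lit 0x2d9f319b) (nat_lit 0x0) (nat_lit 0x2eaa0518d955c)
  (PL.C (nat_lit 0x2da59885) (nat_lit 0x12a9af40b8d8) (nat_lit 0x0)
  (PL.C (nat_lit 0x2dc21307) (nat_lit 0x1abbf99d70628) (nat_lit 0x0)
  (PL.C (nat_lit 0x2de14a62) (nat_lit 0x0) (nat_lit 0x75b3f1b831148)
  (PL.C (nat_lit 0x2dec0f3d) (nat_lit 0x0) (nat_lit 0x3aec0ac56d66d)
  (PL.C (nat_lit 0x2e1324ab) (nat_lit 0x0) (nat_lit 0x4187fccf07b1)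
  (PL.C (nat_lit 0x2e40b685) (nat_lit 0x0) (nat_lit 0xda75fddf89659)
  (PL.C (nat_lit 0x2e549fdd) (nat_lit 0x24ef9853a2c1d) (nat_lit 0x0)
  (PL.C (nat_lit 0x2e6c81ed) (nat_lit 0x2571b9d76c133d) (nat_lit 0x0)
  (PL.C (nat_lit 0x2e7c1179) (nat_lit 0x0) (nat_lit 0x6ea5bb4e67eb4)
  (PL.C (nat_lit 0x2e9beeb5) (nat_lit 0x87756b7bfe52) (nat_lit 0x0)
  (PL.C (nat_lit 0x2ea18732) (nat_lit 0x0) (nat_lit 0x89a75824219e3)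
  (PL.C (nat_lit 0x2ed40382) (nat_lit 0xacae04aa3954) (nat_lit 0x0)
  (PL.C (nat_lit 0x2ed708f1) (nat_lit 0x0) (nat_lit 0xfda45aa521d8) gp4_0_122))))))))))))))))))))

noncomputable def gp4_0_120 : PL :=
  (PL.C (nat_lit 0x2b40929b) (nat_lit 0x929491ef8176d) (nat_lit 0x0)
  (PL.C (nat_lit 0x2b5e3b5d) (nat_lit 0x34c46d22e6789e) (nat_lit 0x0)
  (PL.C (nat_lit 0x2b96b225) (nat_lit 0x8d040629e3273) (nat_lit 0x0)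
  (PL.C (nat_lit 0x2bd4e55e) (nat_lit 0xacdc95fe2a0b3) (nat_lit 0x0)
  (PL.C (nat_lit 0x2c0338ed) (nat_lit 0x0) (nat_lit 0xa40ed9647289)
  (PL.C (nat_lit 0x2c03e782) (nat_lit 0x109238ba1b7d4) (nat_lit 0x0)
  (PL.C (nat_lit 0x2c077e0a) (nat_lit 0x57331592ccb9b) (nat_lit 0x0)
  (PL.C (nat_lit 0x2c2eb149) (nat_lit 0x0) (nat_lit 0x8003e082ddb5)
  (PL.C (nat_lit 0x2c300edb) (nat_lit 0x67bb9f7d5ebdb7) (nat_lit 0x0)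
  (PL.C (nat_lit 0x2c357d32) (nat_lit 0x2fd808d9456f85) (nat_lit 0x0)
  (PL.C (nat_lit 0x2c567daa) (nat_lit 0x2daf718f9299d) (nat_lit 0x0)
  (PL.C (nat_lit 0x2c64e6ee) (nat_lit 0x0) (nat_lit 0x233dcf884f464)
  (PL.C (nat_lit 0x2c6586a3) (nat_lit 0x0) (nat_lit 0x15acd744263b4c)
  (PL.C (nat_lit 0x2c77c343) (nat_lit 0x1038c4bab744a8) (nat_lit 0x0)
  (PL.C (nat_lit 0x2c86aaf7) (nat_lit 0x0) (nat_lit 0x76e043d0f8a71)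
  (PL.C (nat_lit 0x2cb3c26e) (nat_lit 0x0) (nat_lit 0x48c6a12eabd5)
  (PL.C (nat_lit 0x2ccb7655) (nat_lit 0x0) (nat_lit 0x20a6ab76e4d7d)
  (PL.C (nat_lit 0x2cfdb07a) (nat_lit 0x10018ecbb87e6) (nat_lit 0x0)
  (PL.C (nat_lit 0x2d0cc512) (nat_lit 0x1a9c7d67d6aa8) (nat_lit 0x0)
  (PL.C (nat_lit 0x2d0cc7f7) (nat_lit 0xa128d7b2e0dc8) (nat_lit 0x0) gp4_0_121))))))))))))))))))))

noncomputable def gp4_0_119 : PL :=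
  (PL.C (nat_lit 0x29b48426) (nat_lit 0x23c3714df7edb1) (nat_lit 0x0)
  (PL.C (nat_lit 0x29e015be) (nat_lit 0x33b9c528930aa) (nat_lit 0x0)
  (PL.C (nat_lit 0x29f9f811) (nat_lit 0x0) (nat_lit 0x321bddc25f3a)
  (PL.C (nat_lit 0x2a116f55) (nat_lit 0x0) (nat_lit 0xf2d9250371c3)
  (PL.C (nat_lit 0x2a186b43) (nat_lit 0x0) (nat_lit 0x2eaa0518d955c)
  (PL.C (nat_lit 0x2a271ee5) (nat_lit 0x926aa2fba88bf) (nat_lit 0x0)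
  (PL.C (nat_lit 0x2a2d7cbd) (nat_lit 0x4e7997e46fe74) (nat_lit 0x0)
  (PL.C (nat_lit 0x2a53bbf9) (nat_lit 0x165d310355c2c) (nat_lit 0x0)
  (PL.C (nat_lit 0x2a6e2443) (nat_lit 0x0) (nat_lit 0x584f44b36a1bc)
  (PL.C (nat_lit 0x2a902256) (nat_lit 0x0) (nat_lit 0x233dcf884f464)
  (PL.C (nat_lit 0x2aa43551) (nat_lit 0x0) (nat_lit 0xbffb64064c83)
  (PL.C (nat_lit 0x2aa61336) (nat_lit 0x10018ecbb87e6) (nat_lit 0x0)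
  (PL.C (nat_lit 0x2ab2804d) (nat_lit 0x305ef7299557a) (nat_lit 0x0)
  (PL.C (nat_lit 0x2ade346f) (nat_lit 0x0) (nat_lit 0x194afc1255a81d)
  (PL.C (nat_lit 0x2ae391f9) (nat_lit 0x0) (nat_lit 0xb593f50c0d09a)
  (PL.C (nat_lit 0x2aedee7a) (nat_lit 0x109238ba1b7d4) (nat_lit 0x0)
  (PL.C (nat_lit 0x2b002b81) (nat_lit 0x0) (nat_lit 0xb4ddcf50c36ff)
  (PL.C (nat_lit 0x2b0784f3) (nat_lit 0x0) (nat_lit 0x4f76634fe5f94)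
  (PL.C (nat_lit 0x2b0c2e01) (nat_lit 0x2006ffe5de0a5) (nat_lit 0x0)
  (PL.C (nat_lit 0x2b2f4ece) (nat_lit 0x0) (nat_lit 0x118ce63002fb93) gp4_0_120))))))))))))))))))))

noncomputable def gp4_0_118 : PL :=
  (PL.C (nat_lit 0x27fe0282) (nat_lit 0x0) (nat_lit 0x5fee9cc8c91de)
  (PL.C (nat_lit 0x28017682) (nat_lit 0x0) (nat_lit 0x3300f99a9b000c)
  (PL.C (nat_lit 0x281f53ba) (nat_lit 0x0) (nat_lit 0xaea3c0c4b482)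
  (PL.C (nat_lit 0x28441529) (nat_lit 0x24615fba0781b) (nat_lit 0x0)
  (PL.C (nat_lit 0x2877bef6) (nat_lit 0x5881abe7c0e03) (nat_lit 0x0)
  (PL.C (nat_lit 0x28892d5d) (nat_lit 0xeb56824dbd867) (nat_lit 0x0)
  (PL.C (nat_lit 0x289aebd9) (nat_lit 0x0) (nat_lit 0x10b1f537cd4c9)
  (PL.C (nat_lit 0x28e362e6) (nat_lit 0x8fe4c1bda29f4) (nat_lit 0x0)
  (PL.C (nat_lit 0x28e7be42) (nat_lit 0x0) (nat_lit 0x62beec32408d4)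
  (PL.C (nat_lit 0x28f95ce7) (nat_lit 0x33554bb5495afd) (nat_lit 0x0)
  (PL.C (nat_lit 0x290e7c17) (nat_lit 0x1b2ad1a5d2d755) (nat_lit 0x0)
  (PL.C (nat_lit 0x290fd0a1) (nat_lit 0x0) (nat_lit 0x3517542d50538a)
  (PL.C (nat_lit 0x292eb5bf) (nat_lit 0x0) (nat_lit 0x3aec0ac56d66d)
  (PL.C (nat_lit 0x2953a8a1) (nat_lit 0x0) (nat_lit 0xc75db095ec9f4)
  (PL.C (nat_lit 0x29849732) (nat_lit 0xccd551db9ff79) (nat_lit 0x0)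
  (PL.C (nat_lit 0x298851bb) (nat_lit 0x0) (nat_lit 0x2b0e25bc18f63)
  (PL.C (nat_lit 0x29897709) (nat_lit 0x0) (nat_lit 0x63e3abf804139)
  (PL.C (nat_lit 0x298b7bbe) (nat_lit 0x0) (nat_lit 0x3efa08e167335)
  (PL.C (nat_lit 0x29963d8f) (nat_lit 0x0) (nat_lit 0x1056fde1a4a75b)
  (PL.C (nat_lit 0x299e40f7) (nat_lit 0x0) (nat_lit 0x49539db60237) gp4_0_119))))))))))))))))))))

noncomputable def gp4_0_117 : PL :=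
  (PL.C (nat_lit 0x2617d5fb) (nat_lit 0x0) (nat_lit 0x1aa79f4fc90fb)
  (PL.C (nat_lit 0x26348092) (nat_lit 0x32c1e15388413) (nat_lit 0x0)
  (PL.C (nat_lit 0x2659edc9) (nat_lit 0x991446c29e1e04) (nat_lit 0x0)
  (PL.C (nat_lit 0x26830f47) (nat_lit 0x0) (nat_lit 0xfc3ce0f1d90bf)
  (PL.C (nat_lit 0x268ff7eb) (nat_lit 0x346acb3e3e271) (nat_lit 0x0)
  (PL.C (nat_lit 0x26ab4ae3) (nat_lit 0x24ef9853a2c1d) (nat_lit 0x0)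
  (PL.C (nat_lit 0x26c6ff02) (nat_lit 0x0) (nat_lit 0x22d8557ddaa6ba)
  (PL.C (nat_lit 0x26d61d97) (nat_lit 0x0) (nat_lit 0xc74beabfcb9d9)
  (PL.C (nat_lit 0x27023409) (nat_lit 0x0) (nat_lit 0x80dadc334d03)
  (PL.C (nat_lit 0x2708adef) (nat_lit 0x0) (nat_lit 0x38e24a5a10e85)
  (PL.C (nat_lit 0x2714357e) (nat_lit 0x3680b2f33b11c) (nat_lit 0x0)
  (PL.C (nat_lit 0x27164fd9) (nat_lit 0x6fbfa79ef9507) (nat_lit 0x0)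
  (PL.C (nat_lit 0x271c736e) (nat_lit 0x0) (nat_lit 0x212b07023d340)
  (PL.C (nat_lit 0x2723d513) (nat_lit 0x0) (nat_lit 0x3c914208a8838)
  (PL.C (nat_lit 0x27306061) (nat_lit 0x2571b9d76c133d) (nat_lit 0x0)
  (PL.C (nat_lit 0x273d831d) (nat_lit 0xec8c23b8e68a4) (nat_lit 0x0)
  (PL.C (nat_lit 0x27582aef) (nat_lit 0x0) (nat_lit 0x80dadc334d03)
  (PL.C (nat_lit 0x276a5412) (nat_lit 0x3680b2f33b11c) (nat_lit 0x0)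
  (PL.C (nat_lit 0x27ae7a05) (nat_lit 0x3aab033245e46) (nat_lit 0x0)
  (PL.C (nat_lit 0x27df9365) (nat_lit 0x6fbfa79ef9507) (nat_lit 0x0) gp4_0_118))))))))))))))))))))

noncomputable def gp4_0_116 : PL :=
  (PL.C (nat_lit 0x245944be) (nat_lit 0x0) (nat_lit 0x3a44384fec420)
  (PL.C (nat_lit 0x2462edf1) (nat_lit 0x0) (nat_lit 0x4fccf1c2c0bb3)
  (PL.C (nat_lit 0x2479a16b) (nat_lit 0x0) (nat_lit 0x35f71971909728)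
  (PL.C (nat_lit 0x2496da26) (nat_lit 0x0) (nat_lit 0x3c91b05f827e6)
  (PL.C (nat_lit 0x249c0391) (nat_lit 0x1443622f74b340) (nat_lit 0x0)
  (PL.C (nat_lit 0x24de93f1) (nat_lit 0x0) (nat_lit 0x1216d184113712)
  (PL.C (nat_lit 0x24f6a4ea) (nat_lit 0x0) (nat_lit 0x199281e9110ba)
  (PL.C (nat_lit 0x25002f56) (nat_lit 0x0) (nat_lit 0x212b07023d340)
  (PL.C (nat_lit 0x252e8703) (nat_lit 0x0) (nat_lit 0x34e0b026e9fc2)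
  (PL.C (nat_lit 0x25478002) (nat_lit 0x0) (nat_lit 0x1e1a2fa1ae8cc)
  (PL.C (nat_lit 0x2551b97a) (nat_lit 0x0) (nat_lit 0x22d8557ddaa6ba)
  (PL.C (nat_lit 0x2569694c) (nat_lit 0x15cdd1e36449f) (nat_lit 0x0)
  (PL.C (nat_lit 0x257a466f) (nat_lit 0x8ef5fb100d1fa9) (nat_lit 0x0)
  (PL.C (nat_lit 0x25967931) (nat_lit 0x1de41fbd3acc34) (nat_lit 0x0)
  (PL.C (nat_lit 0x25a9d981) (nat_lit 0x0) (nat_lit 0x1aa79f4fc90fb)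
  (PL.C (nat_lit 0x25b9020e) (nat_lit 0x1e656ef6407749) (nat_lit 0x0)
  (PL.C (nat_lit 0x25bbdb54) (nat_lit 0x0) (nat_lit 0x4a8c8417295c8)
  (PL.C (nat_lit 0x25c5f71d) (nat_lit 0x0) (nat_lit 0x116c28343d6ce)
  (PL.C (nat_lit 0x25e1ff3d) (nat_lit 0x0) (nat_lit 0x40809a55d192cc)
  (PL.C (nat_lit 0x260f030c) (nat_lit 0x15cdd1e36449f) (nat_lit 0x0) gp4_0_117))))))))))))))))))))

noncomputable def gp4_0_115 : PL :=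
  (PL.C (nat_lit 0x233b8c3e) (nat_lit 0x57331592ccb9b) (nat_lit 0x0)
  (PL.C (nat_lit 0x23529c87) (nat_lit 0x126f584a4ed5) (nat_lit 0x0)
  (PL.C (nat_lit 0x2361d4c5) (nat_lit 0x0) (nat_lit 0x22af8d609e298c)
  (PL.C (nat_lit 0x23670807) (nat_lit 0x1c043a120db1) (nat_lit 0x0)
  (PL.C (nat_lit 0x238cffe9) (nat_lit 0x40328ee52e6e) (nat_lit 0x0)
  (PL.C (nat_lit 0x238fe5cd) (nat_lit 0x0) (nat_lit 0x1d9fa9f9783a0c)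
  (PL.C (nat_lit 0x23956339) (nat_lit 0x204418b7a9d36) (nat_lit 0x0)
  (PL.C (nat_lit 0x23a15095) (nat_lit 0x0) (nat_lit 0x76e043d0f8a71)
  (PL.C (nat_lit 0x23b50c81) (nat_lit 0x0) (nat_lit 0xfc9563541524b)
  (PL.C (nat_lit 0x23b60983) (nat_lit 0x448f969468753) (nat_lit 0x0)
  (PL.C (nat_lit 0x23bb4102) (nat_lit 0x7e60efe30ec8f) (nat_lit 0x0)
  (PL.C (nat_lit 0x23c3b761) (nat_lit 0x0) (nat_lit 0xaa27ed507633)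
  (PL.C (nat_lit 0x23c6eb7f) (nat_lit 0x40a3cae7f41bf1) (nat_lit 0x0)
  (PL.C (nat_lit 0x23db580f) (nat_lit 0xf67dc3f120c6) (nat_lit 0x0)
  (PL.C (nat_lit 0x24008e8e) (nat_lit 0x7faa7926537bf) (nat_lit 0x0)
  (PL.C (nat_lit 0x240c9fd6) (nat_lit 0x0) (nat_lit 0x3fbb0b6749788)
  (PL.C (nat_lit 0x2429ef6d) (nat_lit 0xbddc7cda8c3b7) (nat_lit 0x0)
  (PL.C (nat_lit 0x242c5ffa) (nat_lit 0x0) (nat_lit 0xd6c24376ea8c6)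
  (PL.C (nat_lit 0x242ff06b) (nat_lit 0x0) (nat_lit 0x1b79cda4835cb8)
  (PL.C (nat_lit 0x2456bfc5) (nat_lit 0x331ef57ac3354) (nat_lit 0x0) gp4_0_116))))))))))))))))))))

noncomputable def gp4_0_114 : PL :=
  (PL.C (nat_lit 0x218e32b7) (nat_lit 0x367a2776bcaa7) (nat_lit 0x0)
  (PL.C (nat_lit 0x2199ead1) (nat_lit 0x74f16ac3baad5) (nat_lit 0x0)
  (PL.C (nat_lit 0x21af570b) (nat_lit 0x432a0214bb3c1) (nat_lit 0x0)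
  (PL.C (nat_lit 0x21bc3e39) (nat_lit 0x0) (nat_lit 0x8003e082ddb5)
  (PL.C (nat_lit 0x21c5640a) (nat_lit 0x185d3010715e3e) (nat_lit 0x0)
  (PL.C (nat_lit 0x21d287b7) (nat_lit 0x0) (nat_lit 0x83275afb0680e)
  (PL.C (nat_lit 0x21f269b5) (nat_lit 0xb33e9abc9542b) (nat_lit 0x0)
  (PL.C (nat_lit 0x2221d88e) (nat_lit 0x5d26fc7455a06) (nat_lit 0x0)
  (PL.C (nat_lit 0x2222dabe) (nat_lit 0x0) (nat_lit 0x41be88ab65600)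
  (PL.C (nat_lit 0x22438eb6) (nat_lit 0x0) (nat_lit 0x75b3f1b831148)
  (PL.C (nat_lit 0x2246eefd) (nat_lit 0x0) (nat_lit 0x1c9f6af292b7a)
  (PL.C (nat_lit 0x226e14d2) (nat_lit 0x0) (nat_lit 0x404582ee64133b)
  (PL.C (nat_lit 0x22886841) (nat_lit 0x4250f41a7a4d3) (nat_lit 0x0)
  (PL.C (nat_lit 0x22a87cb3) (nat_lit 0x0) (nat_lit 0x3495ac0e0f1d31)
  (PL.C (nat_lit 0x22b41aa7) (nat_lit 0x1443622f74b340) (nat_lit 0x0)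
  (PL.C (nat_lit 0x22d5b935) (nat_lit 0x46fa6ea3fd712) (nat_lit 0x0)
  (PL.C (nat_lit 0x22e1497f) (nat_lit 0xf394923fc8986) (nat_lit 0x0)
  (PL.C (nat_lit 0x22f2be81) (nat_lit 0x0) (nat_lit 0xb790bcb52492c)
  (PL.C (nat_lit 0x2306b1f1) (nat_lit 0x165d310355c2c) (nat_lit 0x0)
  (PL.C (nat_lit 0x231b160b) (nat_lit 0x0) (nat_lit 0x70365b556fe6) gp4_0_115))))))))))))))))))))

noncomputable def gp4_0_113 : PL :=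
  (PL.C (nat_lit 0x20681265) (nat_lit 0x8aad38a66009f) (nat_lit 0x0)
  (PL.C (nat_lit 0x2078c6f5) (nat_lit 0x0) (nat_lit 0x88d2a79211698)
  (PL.C (nat_lit 0x208d7ad7) (nat_lit 0xf394923fc8986) (nat_lit 0x0)
  (PL.C (nat_lit 0x2099f2fd) (nat_lit 0x0) (nat_lit 0x1ab561f707ab4)
  (PL.C (nat_lit 0x20a48baf) (nat_lit 0x775f337a521d9) (nat_lit 0x0)
  (PL.C (nat_lit 0x20af7cb3) (nat_lit 0x8aad38a66009f) (nat_lit 0x0)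
  (PL.C (nat_lit 0x20bbee8a) (nat_lit 0x2fd808d9456f85) (nat_lit 0x0)
  (PL.C (nat_lit 0x20de876f) (nat_lit 0x3c1f25ac7982e) (nat_lit 0x0)
  (PL.C (nat_lit 0x20fee2fd) (nat_lit 0x0) (nat_lit 0x1b7de8751a65a)
  (PL.C (nat_lit 0x210411a6) (nat_lit 0xacdc95fe2a0b3) (nat_lit 0x0)
  (PL.C (nat_lit 0x21066d6b) (nat_lit 0x0) (nat_lit 0xa39979f4c2495)
  (PL.C (nat_lit 0x2109f249) (nat_lit 0x0) (nat_lit 0x794295f6fdc64)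
  (PL.C (nat_lit 0x2114e3a5) (nat_lit 0x0) (nat_lit 0x784cd21709593)
  (PL.C (nat_lit 0x211ffa51) (nat_lit 0x0) (nat_lit 0x88d2a79211698)
  (PL.C (nat_lit 0x213deb0b) (nat_lit 0xfa242a6698da5) (nat_lit 0x0)
  (PL.C (nat_lit 0x213e9b9a) (nat_lit 0x0) (nat_lit 0x23dcc145869be9)
  (PL.C (nat_lit 0x215f7152) (nat_lit 0x1e656ef6407749) (nat_lit 0x0)
  (PL.C (nat_lit 0x21624306) (nat_lit 0x2987075110daa) (nat_lit 0x0)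
  (PL.C (nat_lit 0x2162bb1f) (nat_lit 0x23c577985bab24) (nat_lit 0x0)
  (PL.C (nat_lit 0x2188a181) (nat_lit 0x0) (nat_lit 0x2c3d55588b293) gp4_0_114))))))))))))))))))))

noncomputable def gp4_0_112 : PL :=
  (PL.C (nat_lit 0x1f1fa175) (nat_lit 0xa4c0741c964586) (nat_lit 0x0)
  (PL.C (nat_lit 0x1f3a05f6) (nat_lit 0x5d26fc7455a06) (nat_lit 0x0)
  (PL.C (nat_lit 0x1f3c3afd) (nat_lit 0x448f969468753) (nat_lit 0x0)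
  (PL.C (nat_lit 0x1f78338a) (nat_lit 0x0) (nat_lit 0x3fbb0b6749788)
  (PL.C (nat_lit 0x1f7d5e16) (nat_lit 0x0) (nat_lit 0x2d20f12616bff)
  (PL.C (nat_lit 0x1f82bfe2) (nat_lit 0x0) (nat_lit 0x132234ab9e4527)
  (PL.C (nat_lit 0x1f905297) (nat_lit 0x0) (nat_lit 0xa03a4e2b359bf)
  (PL.C (nat_lit 0x1fcb3945) (nat_lit 0x0) (nat_lit 0x8a99ff84e27e1)
  (PL.C (nat_lit 0x1fd5e171) (nat_lit 0x0) (nat_lit 0x60d3a24b72651)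
  (PL.C (nat_lit 0x1fe2006e) (nat_lit 0x0) (nat_lit 0x3a44384fec420)
  (PL.C (nat_lit 0x1feda54d) (nat_lit 0x0) (nat_lit 0x4ed632ee14856)
  (PL.C (nat_lit 0x1ffa9ef1) (nat_lit 0x0) (nat_lit 0x2110e98ccfafa8)
  (PL.C (nat_lit 0x2000e471) (nat_lit 0x0) (nat_lit 0x252af417b4a1f2)
  (PL.C (nat_lit 0x20034f26) (nat_lit 0x185d3010715e3e) (nat_lit 0x0)
  (PL.C (nat_lit 0x2023371f) (nat_lit 0x0) (nat_lit 0xc74beabfcb9d9)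
  (PL.C (nat_lit 0x204d0eb7) (nat_lit 0x4250f41a7a4d3) (nat_lit 0x0)
  (PL.C (nat_lit 0x204d2969) (nat_lit 0x0) (nat_lit 0xa39979f4c2495)
  (PL.C (nat_lit 0x204ff369) (nat_lit 0x16e5fecd3aaa02) (nat_lit 0x0)
  (PL.C (nat_lit 0x205aef1e) (nat_lit 0x0) (nat_lit 0x7f3b99164fbf0)
  (PL.C (nat_lit 0x205fdcad) (nat_lit 0xc49411feca6b4) (nat_lit 0x0) gp4_0_113))))))))))))))))))))

noncomputable def gp4_0_111 : PL :=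
  (PL.C (nat_lit 0x1dfc0dc7) (nat_lit 0x0) (nat_lit 0x6e56233540416)
  (PL.C (nat_lit 0x1e051bc1) (nat_lit 0x0) (nat_lit 0x100324ea21a6bb)
  (PL.C (nat_lit 0x1e13cfa9) (nat_lit 0x98414e17a3c4c) (nat_lit 0x0)
  (PL.C (nat_lit 0x1e15732a) (nat_lit 0x16b3ae439052b2) (nat_lit 0x0)
  (PL.C (nat_lit 0x1e1c3629) (nat_lit 0x3ba1ca946a2d5) (nat_lit 0x0)
  (PL.C (nat_lit 0x1e247845) (nat_lit 0x48c4a1565a3df4) (nat_lit 0x0)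
  (PL.C (nat_lit 0x1e2f9f8a) (nat_lit 0x23c3714df7edb1) (nat_lit 0x0)
  (PL.C (nat_lit 0x1e5a7b72) (nat_lit 0x0) (nat_lit 0x83b41d3b03c96)
  (PL.C (nat_lit 0x1e6a2112) (nat_lit 0x2a082b0292641) (nat_lit 0x0)
  (PL.C (nat_lit 0x1e6e65ae) (nat_lit 0x0) (nat_lit 0x1e1a2fa1ae8cc)
  (PL.C (nat_lit 0x1e77e41f) (nat_lit 0x0) (nat_lit 0x41b92f18e36c89)
  (PL.C (nat_lit 0x1e8723e1) (nat_lit 0x0) (nat_lit 0x35f71971909728)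
  (PL.C (nat_lit 0x1e8c3557) (nat_lit 0x211e7d0d72308) (nat_lit 0x0)
  (PL.C (nat_lit 0x1e989151) (nat_lit 0x2cdd678b0ea7b) (nat_lit 0x0)
  (PL.C (nat_lit 0x1e9d5f7e) (nat_lit 0x0) (nat_lit 0x678559d2abbab)
  (PL.C (nat_lit 0x1eb21839) (nat_lit 0x194647551ee65) (nat_lit 0x0)
  (PL.C (nat_lit 0x1ebeb419) (nat_lit 0x3c1f25ac7982e) (nat_lit 0x0)
  (PL.C (nat_lit 0x1eca6a57) (nat_lit 0xbddc7cda8c3b7) (nat_lit 0x0)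
  (PL.C (nat_lit 0x1ed14e85) (nat_lit 0x11b7b7633984e) (nat_lit 0x0)
  (PL.C (nat_lit 0x1ee3153e) (nat_lit 0x0) (nat_lit 0xd18049dd652d1) gp4_0_112))))))))))))))))))))

noncomputable def gp4_0_110 : PL :=
  (PL.C (nat_lit 0x1cdc2aa9) (nat_lit 0x9612025116a48) (nat_lit 0x0)
  (PL.C (nat_lit 0x1cf50bf3) (nat_lit 0x122224d2b214d6) (nat_lit 0x0)
  (PL.C (nat_lit 0x1d052eaf) (nat_lit 0xf67dc3f120c6) (nat_lit 0x0)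
  (PL.C (nat_lit 0x1d0f216e) (nat_lit 0xfc554594243c6) (nat_lit 0x0)
  (PL.C (nat_lit 0x1d11afbd) (nat_lit 0x0) (nat_lit 0x3517542d50538a)
  (PL.C (nat_lit 0x1d14245f) (nat_lit 0x331ef57ac3354) (nat_lit 0x0)
  (PL.C (nat_lit 0x1d452299) (nat_lit 0x40328ee52e6e) (nat_lit 0x0)
  (PL.C (nat_lit 0x1d4b9183) (nat_lit 0x34c46d22e6789e) (nat_lit 0x0)
  (PL.C (nat_lit 0x1d57efac) (nat_lit 0x0) (nat_lit 0x19f5acb66b580)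
  (PL.C (nat_lit 0x1d5bcb37) (nat_lit 0x0) (nat_lit 0xbd9b9f1aada67)
  (PL.C (nat_lit 0x1d67f2c9) (nat_lit 0x8a6dd2742541) (nat_lit 0x0)
  (PL.C (nat_lit 0x1d71b5bb) (nat_lit 0x346acb3e3e271) (nat_lit 0x0)
  (PL.C (nat_lit 0x1d7b47b9) (nat_lit 0x0) (nat_lit 0x1a813e584303b9)
  (PL.C (nat_lit 0x1d807245) (nat_lit 0x78eb87a7d8558) (nat_lit 0x0)
  (PL.C (nat_lit 0x1d96245b) (nat_lit 0x2cdd678b0ea7b) (nat_lit 0x0)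
  (PL.C (nat_lit 0x1d9899f4) (nat_lit 0x451bbf18337b5) (nat_lit 0x0)
  (PL.C (nat_lit 0x1d9b32e1) (nat_lit 0xa9d0a78baa165) (nat_lit 0x0)
  (PL.C (nat_lit 0x1ddcf98e) (nat_lit 0x127c27cd3e9c01) (nat_lit 0x0)
  (PL.C (nat_lit 0x1dde3899) (nat_lit 0x0) (nat_lit 0x252af417b4a1f2)
  (PL.C (nat_lit 0x1de29c63) (nat_lit 0x0) (nat_lit 0x528ed92f48479) gp4_0_111))))))))))))))))))))

noncomputable def gp4_0_109 : PL :=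
  (PL.C (nat_lit 0x1bfbfab6) (nat_lit 0x0) (nat_lit 0x5633e11e8cac)
  (PL.C (nat_lit 0x1c0b9f8e) (nat_lit 0x33b9c528930aa) (nat_lit 0x0)
  (PL.C (nat_lit 0x1c0fb277) (nat_lit 0x0) (nat_lit 0x30dea2dee03f87)
  (PL.C (nat_lit 0x1c104782) (nat_lit 0x2a082b0292641) (nat_lit 0x0)
  (PL.C (nat_lit 0x1c191a5b) (nat_lit 0x0) (nat_lit 0x21bbb4c36166)
  (PL.C (nat_lit 0x1c2ec5db) (nat_lit 0x0) (nat_lit 0x127e47d35acc04)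
  (PL.C (nat_lit 0x1c37d2a6) (nat_lit 0xe3f58e805d2c) (nat_lit 0x0)
  (PL.C (nat_lit 0x1c43fa45) (nat_lit 0x0) (nat_lit 0x1a813e584303b9)
  (PL.C (nat_lit 0x1c496d82) (nat_lit 0xccd551db9ff79) (nat_lit 0x0)
  (PL.C (nat_lit 0x1c5d5bd5) (nat_lit 0x0) (nat_lit 0x1cbd8c5a246189)
  (PL.C (nat_lit 0x1c6016e4) (nat_lit 0x451bbf18337b5) (nat_lit 0x0)
  (PL.C (nat_lit 0x1c63d753) (nat_lit 0xa99a30fbf87e) (nat_lit 0x0)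
  (PL.C (nat_lit 0x1c66ddc1) (nat_lit 0x5ad012fb8665a) (nat_lit 0x0)
  (PL.C (nat_lit 0x1c7504f7) (nat_lit 0x0) (nat_lit 0x100324ea21a6bb)
  (PL.C (nat_lit 0x1c834309) (nat_lit 0x0) (nat_lit 0x1967b7b80945aa)
  (PL.C (nat_lit 0x1c9389f9) (nat_lit 0x0) (nat_lit 0x38e24a5a10e85)
  (PL.C (nat_lit 0x1c97b6a6) (nat_lit 0x7e60efe30ec8f) (nat_lit 0x0)
  (PL.C (nat_lit 0x1c9e9efc) (nat_lit 0x0) (nat_lit 0x19f5acb66b580)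
  (PL.C (nat_lit 0x1cb2c956) (nat_lit 0x657b8647f8016) (nat_lit 0x0)
  (PL.C (nat_lit 0x1cd5b712) (nat_lit 0x2552a4f040fbc) (nat_lit 0x0) gp4_0_110))))))))))))))))))))

noncomputable def gp4_0_108 : PL :=
  (PL.C (nat_lit 0x1ae7642b) (nat_lit 0x0) (nat_lit 0x30dea2dee03f87)
  (PL.C (nat_lit 0x1af47911) (nat_lit 0x0) (nat_lit 0x9f2effa9a8e09)
  (PL.C (nat_lit 0x1af6bffb) (nat_lit 0x0) (nat_lit 0x13ef19a7b7f8c)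
  (PL.C (nat_lit 0x1b0413f5) (nat_lit 0x0) (nat_lit 0x22af8d609e298c)
  (PL.C (nat_lit 0x1b061e3e) (nat_lit 0x0) (nat_lit 0x3300f99a9b000c)
  (PL.C (nat_lit 0x1b2a252f) (nat_lit 0x35293637da6bc6) (nat_lit 0x0)
  (PL.C (nat_lit 0x1b46d0cd) (nat_lit 0x113f3ccd0c9550) (nat_lit 0x0)
  (PL.C (nat_lit 0x1b4d8347) (nat_lit 0x0) (nat_lit 0x4283db1e392ed)
  (PL.C (nat_lit 0x1b50e89a) (nat_lit 0x0) (nat_lit 0x404582ee64133b)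
  (PL.C (nat_lit 0x1b694789) (nat_lit 0xec8c23b8e68a4) (nat_lit 0x0)
  (PL.C (nat_lit 0x1b6dc787) (nat_lit 0x21ead137cd94a1) (nat_lit 0x0)
  (PL.C (nat_lit 0x1b7277a5) (nat_lit 0x13e9e59fd9b302) (nat_lit 0x0)
  (PL.C (nat_lit 0x1b74792a) (nat_lit 0x0) (nat_lit 0x678559d2abbab)
  (PL.C (nat_lit 0x1b8d1b16) (nat_lit 0x0) (nat_lit 0x41be88ab65600)
  (PL.C (nat_lit 0x1b924e37) (nat_lit 0x0) (nat_lit 0x250c9ce9d1d90a)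
  (PL.C (nat_lit 0x1bb0fa06) (nat_lit 0x0) (nat_lit 0x83b41d3b03c96)
  (PL.C (nat_lit 0x1bb221dd) (nat_lit 0x96c0d9cf58b66) (nat_lit 0x0)
  (PL.C (nat_lit 0x1bbed5fa) (nat_lit 0x0) (nat_lit 0x1485d4f66d9b6)
  (PL.C (nat_lit 0x1bcf10d1) (nat_lit 0x0) (nat_lit 0x48f49f4e14099c)
  (PL.C (nat_lit 0x1be3d32d) (nat_lit 0x0) (nat_lit 0x794295f6fdc64) gp4_0_109))))))))))))))))))))

noncomputable def gp4_0_107 : PL :=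
  (PL.C (nat_lit 0x19c78742) (nat_lit 0x0) (nat_lit 0xd18049dd652d1)
  (PL.C (nat_lit 0x19e413ba) (nat_lit 0xd1e888e7d7494) (nat_lit 0x0)
  (PL.C (nat_lit 0x19e974dd) (nat_lit 0x94e44391e0feb) (nat_lit 0x0)
  (PL.C (nat_lit 0x1a017806) (nat_lit 0x0) (nat_lit 0x7182c597acb74)
  (PL.C (nat_lit 0x1a05c94a) (nat_lit 0x0) (nat_lit 0x7ea6d2b4dd9f0)
  (PL.C (nat_lit 0x1a0c8635) (nat_lit 0x8d040629e3273) (nat_lit 0x0)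
  (PL.C (nat_lit 0x1a0edfe6) (nat_lit 0xb3b13737a64a) (nat_lit 0x0)
  (PL.C (nat_lit 0x1a17e362) (nat_lit 0x0) (nat_lit 0x1187126a397b8)
  (PL.C (nat_lit 0x1a220fe7) (nat_lit 0x0) (nat_lit 0x65c02719817ae)
  (PL.C (nat_lit 0x1a312b67) (nat_lit 0x18af68aed6b286) (nat_lit 0x0)
  (PL.C (nat_lit 0x1a3ac74a) (nat_lit 0x0) (nat_lit 0x7182c597acb74)
  (PL.C (nat_lit 0x1a45ec09) (nat_lit 0x0) (nat_lit 0x1216d184113712)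
  (PL.C (nat_lit 0x1a70680d) (nat_lit 0x48c4a1565a3df4) (nat_lit 0x0)
  (PL.C (nat_lit 0x1a7e091d) (nat_lit 0x211e7d0d72308) (nat_lit 0x0)
  (PL.C (nat_lit 0x1a950cee) (nat_lit 0xb3b13737a64a) (nat_lit 0x0)
  (PL.C (nat_lit 0x1a991965) (nat_lit 0x8f558cbb443f7) (nat_lit 0x0)
  (PL.C (nat_lit 0x1aa50d33) (nat_lit 0x0) (nat_lit 0x60d3a24b72651)
  (PL.C (nat_lit 0x1aaaabcb) (nat_lit 0x0) (nat_lit 0x528ed92f48479)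
  (PL.C (nat_lit 0x1ad9f3d5) (nat_lit 0xa60f1c21bcb67) (nat_lit 0x0)
  (PL.C (nat_lit 0x1adfc4f5) (nat_lit 0x0) (nat_lit 0xa03a4e2b359bf) gp4_0_108))))))))))))))))))))

noncomputable def gp4_0_106 : PL :=
  (PL.C (nat_lit 0x18eb6c29) (nat_lit 0x2f396b80e12ea) (nat_lit 0x0)
  (PL.C (nat_lit 0x18eca3c1) (nat_lit 0x7de029d0e97782) (nat_lit 0x0)
  (PL.C (nat_lit 0x18f27d77) (nat_lit 0x49f193610bcc4) (nat_lit 0x0)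
  (PL.C (nat_lit 0x18ff59a7) (nat_lit 0x0) (nat_lit 0x15f3aef5dfff9a)
  (PL.C (nat_lit 0x190d1729) (nat_lit 0x0) (nat_lit 0x257451f7fa69b5)
  (PL.C (nat_lit 0x190efb76) (nat_lit 0x2f7985db6492c6) (nat_lit 0x0)
  (PL.C (nat_lit 0x1918e2ff) (nat_lit 0x24615fba0781b) (nat_lit 0x0)
  (PL.C (nat_lit 0x191be656) (nat_lit 0x0) (nat_lit 0x129cb4cda87566)
  (PL.C (nat_lit 0x192ea4be) (nat_lit 0x1a9c7d67d6aa8) (nat_lit 0x0)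
  (PL.C (nat_lit 0x1931acb3) (nat_lit 0x17c2812af07ce) (nat_lit 0x0)
  (PL.C (nat_lit 0x194fc923) (nat_lit 0x0) (nat_lit 0x592bf41fc9622)
  (PL.C (nat_lit 0x19653952) (nat_lit 0x0) (nat_lit 0x129cb4cda87566)
  (PL.C (nat_lit 0x196aee8d) (nat_lit 0x0) (nat_lit 0x5b41414158d9f)
  (PL.C (nat_lit 0x196f1ac3) (nat_lit 0x6c897710e4cef) (nat_lit 0x0)
  (PL.C (nat_lit 0x19737399) (nat_lit 0x435ac5912ea99) (nat_lit 0x0)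
  (PL.C (nat_lit 0x19acb4da) (nat_lit 0x0) (nat_lit 0x23dcc145869be9)
  (PL.C (nat_lit 0x19b54ff2) (nat_lit 0x165416a7962140) (nat_lit 0x0)
  (PL.C (nat_lit 0x19b77d8d) (nat_lit 0x0) (nat_lit 0xe52ffbf1a1e1)
  (PL.C (nat_lit 0x19b852db) (nat_lit 0x0) (nat_lit 0x9f2effa9a8e09)
  (PL.C (nat_lit 0x19c062cf) (nat_lit 0x0) (nat_lit 0x8944c75ea6230) gp4_0_107))))))))))))))))))))

noncomputable def gp4_0_105 : PL :=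
  (PL.C (nat_lit 0x17f1b7e9) (nat_lit 0x21ead137cd94a1) (nat_lit 0x0)
  (PL.C (nat_lit 0x17f9be85) (nat_lit 0x0) (nat_lit 0x6ded8f661f8d8)
  (PL.C (nat_lit 0x1805b113) (nat_lit 0x0) (nat_lit 0x1d9fa9f9783a0c)
  (PL.C (nat_lit 0x1811b6ed) (nat_lit 0xe5f1c499a7952) (nat_lit 0x0)
  (PL.C (nat_lit 0x18278a69) (nat_lit 0x0) (nat_lit 0x4283db1e392ed)
  (PL.C (nat_lit 0x1839d52e) (nat_lit 0x8152b0f48616e) (nat_lit 0x0)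
  (PL.C (nat_lit 0x1841f3f6) (nat_lit 0x19da2d4e23959) (nat_lit 0x0)
  (PL.C (nat_lit 0x1841f585) (nat_lit 0x0) (nat_lit 0x2110e98ccfafa8)
  (PL.C (nat_lit 0x184c66dd) (nat_lit 0x0) (nat_lit 0x10be86f7e036e1)
  (PL.C (nat_lit 0x18768f7f) (nat_lit 0x3647e102304e9) (nat_lit 0x0)
  (PL.C (nat_lit 0x188428a1) (nat_lit 0x205322418fd90) (nat_lit 0x0)
  (PL.C (nat_lit 0x1889f171) (nat_lit 0x32d01809c5faa6) (nat_lit 0x0)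
  (PL.C (nat_lit 0x188c041b) (nat_lit 0x2006ffe5de0a5) (nat_lit 0x0)
  (PL.C (nat_lit 0x1890cbf1) (nat_lit 0x0) (nat_lit 0x29dd7916a717f)
  (PL.C (nat_lit 0x18943e6f) (nat_lit 0x0) (nat_lit 0x5b41414158d9f)
  (PL.C (nat_lit 0x18a9e459) (nat_lit 0x929491ef8176d) (nat_lit 0x0)
  (PL.C (nat_lit 0x18b4f99f) (nat_lit 0x0) (nat_lit 0x4cb9d0a1adabc)
  (PL.C (nat_lit 0x18ba2f97) (nat_lit 0x0) (nat_lit 0x37c9d75eb638e)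
  (PL.C (nat_lit 0x18c88053) (nat_lit 0x0) (nat_lit 0x8944c75ea6230)
  (PL.C (nat_lit 0x18cf3b21) (nat_lit 0xded35a9b7fd4) (nat_lit 0x0) gp4_0_106))))))))))))))))))))

noncomputable def gp4_0_104 : PL :=
  (PL.C (nat_lit 0x172df163) (nat_lit 0x1ee4303ff6801) (nat_lit 0x0)
  (PL.C (nat_lit 0x1740dbaa) (nat_lit 0x64c6e28470333) (nat_lit 0x0)
  (PL.C (nat_lit 0x17464f53) (nat_lit 0xcc6b10c20baed) (nat_lit 0x0)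
  (PL.C (nat_lit 0x1759cbf6) (nat_lit 0xe3f58e805d2c) (nat_lit 0x0)
  (PL.C (nat_lit 0x175a1ff7) (nat_lit 0x10b989f950d595) (nat_lit 0x0)
  (PL.C (nat_lit 0x1778874f) (nat_lit 0x8e523d41bb216) (nat_lit 0x0)
  (PL.C (nat_lit 0x177999d5) (nat_lit 0x4bc9b23a774f99) (nat_lit 0x0)
  (PL.C (nat_lit 0x178c685a) (nat_lit 0x5d9385c21adf7) (nat_lit 0x0)
  (PL.C (nat_lit 0x1797667b) (nat_lit 0x126f584a4ed5) (nat_lit 0x0)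
  (PL.C (nat_lit 0x179a055a) (nat_lit 0x576ab301877a) (nat_lit 0x0)
  (PL.C (nat_lit 0x17b35546) (nat_lit 0x1208e0841d51) (nat_lit 0x0)
  (PL.C (nat_lit 0x17b543de) (nat_lit 0x0) (nat_lit 0x31ab10a1f07af1)
  (PL.C (nat_lit 0x17ba91cf) (nat_lit 0xda665a2e80bc4) (nat_lit 0x0)
  (PL.C (nat_lit 0x17ca6487) (nat_lit 0x37fae39bf5c56) (nat_lit 0x0)
  (PL.C (nat_lit 0x17cb1bb1) (nat_lit 0x8ef5fb100d1fa9) (nat_lit 0x0)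
  (PL.C (nat_lit 0x17ce0856) (nat_lit 0x523c8e36fa204) (nat_lit 0x0)
  (PL.C (nat_lit 0x17ceb102) (nat_lit 0x1c077c0e5e9a4) (nat_lit 0x0)
  (PL.C (nat_lit 0x17d7cf96) (nat_lit 0x0) (nat_lit 0x48c6a12eabd5)
  (PL.C (nat_lit 0x17e7900a) (nat_lit 0x69d3bd0988b4) (nat_lit 0x0)
  (PL.C (nat_lit 0x17e7e609) (nat_lit 0x0) (nat_lit 0xcf2bfcb9e3fee) gp4_0_105))))))))))))))))))))

noncomputable def gp4_0_103 : PL :=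
  (PL.C (nat_lit 0x165d1851) (nat_lit 0x0) (nat_lit 0x1b79cda4835cb8)
  (PL.C (nat_lit 0x165ecc7a) (nat_lit 0x0) (nat_lit 0x52befb818fa0c)
  (PL.C (nat_lit 0x1664974d) (nat_lit 0x0) (nat_lit 0x2e02288fb8c09)
  (PL.C (nat_lit 0x1674e4b2) (nat_lit 0x36eb1b674c0167) (nat_lit 0x0)
  (PL.C (nat_lit 0x1682c637) (nat_lit 0x1c043a120db1) (nat_lit 0x0)
  (PL.C (nat_lit 0x168c5a7a) (nat_lit 0x0) (nat_lit 0x2feea1f74a8a)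
  (PL.C (nat_lit 0x16a19bce) (nat_lit 0x224c1aff0eb0) (nat_lit 0x0)
  (PL.C (nat_lit 0x16aaafe9) (nat_lit 0x2dd95f684f4a2) (nat_lit 0x0)
  (PL.C (nat_lit 0x16b60817) (nat_lit 0xfa242a6698da5) (nat_lit 0x0)
  (PL.C (nat_lit 0x16c11315) (nat_lit 0x0) (nat_lit 0x41b92f18e36c89)
  (PL.C (nat_lit 0x16c2ff27) (nat_lit 0x0) (nat_lit 0x13ef19a7b7f8c)
  (PL.C (nat_lit 0x16caa04b) (nat_lit 0x6a042454b) (nat_lit 0x0)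
  (PL.C (nat_lit 0x16dd5067) (nat_lit 0x0) (nat_lit 0x19e62515bf54e7)
  (PL.C (nat_lit 0x16f5f553) (nat_lit 0x0) (nat_lit 0xa40ed9647289)
  (PL.C (nat_lit 0x16fb153f) (nat_lit 0x0) (nat_lit 0x2580964b830b8)
  (PL.C (nat_lit 0x17059ad6) (nat_lit 0x28f5616c265be) (nat_lit 0x0)
  (PL.C (nat_lit 0x17152fed) (nat_lit 0xbd457da2dd88) (nat_lit 0x0)
  (PL.C (nat_lit 0x1723ad6d) (nat_lit 0x0) (nat_lit 0x6ea5bb4e67eb4)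
  (PL.C (nat_lit 0x172779e3) (nat_lit 0x0) (nat_lit 0x1cbd8c5a246189)
  (PL.C (nat_lit 0x172b6ef9) (nat_lit 0x13e9e59fd9b302) (nat_lit 0x0) gp4_0_104))))))))))))))))))))

noncomputable def gp4_0_102 : PL :=
  (PL.C (nat_lit 0x15b3a73a) (nat_lit 0x64c6e28470333) (nat_lit 0x0)
  (PL.C (nat_lit 0x15bcc4bd) (nat_lit 0xb33e9abc9542b) (nat_lit 0x0)
  (PL.C (nat_lit 0x15bd004b) (nat_lit 0x0) (nat_lit 0xbd9b9f1aada67)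
  (PL.C (nat_lit 0x15c307ca) (nat_lit 0x0) (nat_lit 0x3c91b05f827e6)
  (PL.C (nat_lit 0x15ca5322) (nat_lit 0x638d37f3298f3) (nat_lit 0x0)
  (PL.C (nat_lit 0x15d3b5f7) (nat_lit 0x113f3ccd0c9550) (nat_lit 0x0)
  (PL.C (nat_lit 0x15ff41fe) (nat_lit 0x0) (nat_lit 0x2d20f12616bff)
  (PL.C (nat_lit 0x160448f2) (nat_lit 0x0) (nat_lit 0x53b9faa7b4289)
  (PL.C (nat_lit 0x1606a186) (nat_lit 0x79daddf82145d) (nat_lit 0x0)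
  (PL.C (nat_lit 0x16101e55) (nat_lit 0x4bc9b23a774f99) (nat_lit 0x0)
  (PL.C (nat_lit 0x161b7de5) (nat_lit 0x37fae39bf5c56) (nat_lit 0x0)
  (PL.C (nat_lit 0x161c3543) (nat_lit 0x0) (nat_lit 0x1911b37fa04c93)
  (PL.C (nat_lit 0x16299627) (nat_lit 0x0) (nat_lit 0x257451f7fa69b5)
  (PL.C (nat_lit 0x162b756d) (nat_lit 0x18bee4aebb2aac) (nat_lit 0x0)
  (PL.C (nat_lit 0x1632136d) (nat_lit 0x0) (nat_lit 0x28b00e98609ba)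
  (PL.C (nat_lit 0x1640bd43) (nat_lit 0xcc6b10c20baed) (nat_lit 0x0)
  (PL.C (nat_lit 0x16418204) (nat_lit 0x28cac73ac5a2c) (nat_lit 0x0)
  (PL.C (nat_lit 0x164670ff) (nat_lit 0x2ea0ca6d0bf277) (nat_lit 0x0)
  (PL.C (nat_lit 0x16519701) (nat_lit 0x0) (nat_lit 0xfc9563541524b)
  (PL.C (nat_lit 0x165b1656) (nat_lit 0x0) (nat_lit 0x661dbee4a9f9f) gp4_0_103))))))))))))))))))))

noncomputable def gp4_0_101 : PL :=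
  (PL.C (nat_lit 0x14cc9449) (nat_lit 0x0) (nat_lit 0x6165c6d2c9e5)
  (PL.C (nat_lit 0x14d2d1fe) (nat_lit 0x1c077c0e5e9a4) (nat_lit 0x0)
  (PL.C (nat_lit 0x14e97265) (nat_lit 0x5e25ce353beacb) (nat_lit 0x0)
  (PL.C (nat_lit 0x1504ac6d) (nat_lit 0x0) (nat_lit 0x1fbac6d74a2c7)
  (PL.C (nat_lit 0x1506246b) (nat_lit 0x0) (nat_lit 0x4187fccf07b1)
  (PL.C (nat_lit 0x150ae1ba) (nat_lit 0x0) (nat_lit 0xcc2695d244837)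
  (PL.C (nat_lit 0x15134b59) (nat_lit 0x6a9dd832a166b) (nat_lit 0x0)
  (PL.C (nat_lit 0x15196ec9) (nat_lit 0x1dc87907ef11b0) (nat_lit 0x0)
  (PL.C (nat_lit 0x151a0c83) (nat_lit 0x5b723b857fd919) (nat_lit 0x0)
  (PL.C (nat_lit 0x15211f37) (nat_lit 0x0) (nat_lit 0x2d3484e143a08)
  (PL.C (nat_lit 0x1532262e) (nat_lit 0x16b3ae439052b2) (nat_lit 0x0)
  (PL.C (nat_lit 0x153940f6) (nat_lit 0x0) (nat_lit 0xb8e56c1f7950f)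
  (PL.C (nat_lit 0x154918de) (nat_lit 0x0) (nat_lit 0x132234ab9e4527)
  (PL.C (nat_lit 0x155df2ef) (nat_lit 0x0) (nat_lit 0x2e02288fb8c09)
  (PL.C (nat_lit 0x156ccf6a) (nat_lit 0xd1e888e7d7494) (nat_lit 0x0)
  (PL.C (nat_lit 0x1578630f) (nat_lit 0x0) (nat_lit 0xae0a57626adc5)
  (PL.C (nat_lit 0x1588b47a) (nat_lit 0x28f5616c265be) (nat_lit 0x0)
  (PL.C (nat_lit 0x1588c646) (nat_lit 0x0) (nat_lit 0x53b9faa7b4289)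
  (PL.C (nat_lit 0x158aa246) (nat_lit 0x0) (nat_lit 0xa7f1ef01fbbd6)
  (PL.C (nat_lit 0x159ab6ee) (nat_lit 0x638d37f3298f3) (nat_lit 0x0) gp4_0_102))))))))))))))))))))

noncomputable def gp4_0_100 : PL :=
  (PL.C (nat_lit 0x1418502e) (nat_lit 0x3df817712e6b48) (nat_lit 0x0)
  (PL.C (nat_lit 0x14284617) (nat_lit 0x0) (nat_lit 0x9936d3211cab6)
  (PL.C (nat_lit 0x142e25ed) (nat_lit 0x0) (nat_lit 0x2945a11814174d)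
  (PL.C (nat_lit 0x143c524c) (nat_lit 0x30fc7f11ddb50) (nat_lit 0x0)
  (PL.C (nat_lit 0x143d54f3) (nat_lit 0x12b0cec237601c) (nat_lit 0x0)
  (PL.C (nat_lit 0x1447c3e3) (nat_lit 0x0) (nat_lit 0x114081be34108)
  (PL.C (nat_lit 0x144fed6a) (nat_lit 0x0) (nat_lit 0x128df1db369d35)
  (PL.C (nat_lit 0x145c7b9b) (nat_lit 0x0) (nat_lit 0x3c914208a8838)
  (PL.C (nat_lit 0x1465b636) (nat_lit 0x439aee11c3d9f) (nat_lit 0x0)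
  (PL.C (nat_lit 0x1465ff97) (nat_lit 0x702d3f7e5a4613) (nat_lit 0x0)
  (PL.C (nat_lit 0x1468ea54) (nat_lit 0x622919c60df50) (nat_lit 0x0)
  (PL.C (nat_lit 0x147a2c59) (nat_lit 0x0) (nat_lit 0x40809a55d192cc)
  (PL.C (nat_lit 0x1482fd11) (nat_lit 0x20508eadc91b06) (nat_lit 0x0)
  (PL.C (nat_lit 0x148b89ae) (nat_lit 0x0) (nat_lit 0x3efa08e167335)
  (PL.C (nat_lit 0x1494d581) (nat_lit 0x432a0214bb3c1) (nat_lit 0x0)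
  (PL.C (nat_lit 0x149f227f) (nat_lit 0x1f16031fb2086) (nat_lit 0x0)
  (PL.C (nat_lit 0x14a693bb) (nat_lit 0x770060a1154c94) (nat_lit 0x0)
  (PL.C (nat_lit 0x14bcb975) (nat_lit 0x2dd95f684f4a2) (nat_lit 0x0)
  (PL.C (nat_lit 0x14bfa26b) (nat_lit 0x3ba1ca946a2d5) (nat_lit 0x0)
  (PL.C (nat_lit 0x14c3ace1) (nat_lit 0x5bd879c2dde8f) (nat_lit 0x0) gp4_0_101))))))))))))))))))))

noncomputable def gp4_0_99 : PL :=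
  (PL.C (nat_lit 0x1362c2ea) (nat_lit 0x8152b0f48616e) (nat_lit 0x0)
  (PL.C (nat_lit 0x137c4661) (nat_lit 0xd6d9ea6e6567a) (nat_lit 0x0)
  (PL.C (nat_lit 0x137eb6b7) (nat_lit 0x9612025116a48) (nat_lit 0x0)
  (PL.C (nat_lit 0x13836c66) (nat_lit 0x1208e0841d51) (nat_lit 0x0)
  (PL.C (nat_lit 0x138bb6af) (nat_lit 0x74f16ac3baad5) (nat_lit 0x0)
  (PL.C (nat_lit 0x13912c2f) (nat_lit 0x0) (nat_lit 0x101ee12ca8dc)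
  (PL.C (nat_lit 0x1392877a) (nat_lit 0x30d26700b6787f) (nat_lit 0x0)
  (PL.C (nat_lit 0x1397bb33) (nat_lit 0x0) (nat_lit 0x26a32a614e435)
  (PL.C (nat_lit 0x13a123d2) (nat_lit 0x165416a7962140) (nat_lit 0x0)
  (PL.C (nat_lit 0x13a78526) (nat_lit 0x0) (nat_lit 0x19e4c8059271ae)
  (PL.C (nat_lit 0x13b67813) (nat_lit 0x0) (nat_lit 0x2835bcef43dd1d)
  (PL.C (nat_lit 0x13b96d92) (nat_lit 0x439aee11c3d9f) (nat_lit 0x0)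
  (PL.C (nat_lit 0x13bccc96) (nat_lit 0x10d1e57ce4d008) (nat_lit 0x0)
  (PL.C (nat_lit 0x13c54d0d) (nat_lit 0x2f396b80e12ea) (nat_lit 0x0)
  (PL.C (nat_lit 0x13ec6842) (nat_lit 0xa39aa4cc6be12) (nat_lit 0x0)
  (PL.C (nat_lit 0x13f0decb) (nat_lit 0x0) (nat_lit 0x4cb9d0a1adabc)
  (PL.C (nat_lit 0x140367d6) (nat_lit 0x0) (nat_lit 0x65e45dc2c282a)
  (PL.C (nat_lit 0x140bcfcb) (nat_lit 0x96c0d9cf58b66) (nat_lit 0x0)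
  (PL.C (nat_lit 0x1412cec6) (nat_lit 0x77648aa9ef2a6) (nat_lit 0x0)
  (PL.C (nat_lit 0x1415d835) (nat_lit 0x0) (nat_lit 0x15acd744263b4c) gp4_0_100))))))))))))))))))))

noncomputable def gp4_0_98 : PL :=
  (PL.C (nat_lit 0x12c8ef8f) (nat_lit 0x0) (nat_lit 0x250c9ce9d1d90a)
  (PL.C (nat_lit 0x12cfe1c4) (nat_lit 0x190d0c6d0bff8) (nat_lit 0x0)
  (PL.C (nat_lit 0x12d7fc2e) (nat_lit 0x0) (nat_lit 0x19e4c8059271ae)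
  (PL.C (nat_lit 0x12e0df55) (nat_lit 0x0) (nat_lit 0x194afc1255a81d)
  (PL.C (nat_lit 0x12e164a7) (nat_lit 0x205322418fd90) (nat_lit 0x0)
  (PL.C (nat_lit 0x12e73341) (nat_lit 0x0) (nat_lit 0x592bf41fc9622)
  (PL.C (nat_lit 0x12f8adfa) (nat_lit 0x0) (nat_lit 0x65e45dc2c282a)
  (PL.C (nat_lit 0x12fcec9d) (nat_lit 0xda665a2e80bc4) (nat_lit 0x0)
  (PL.C (nat_lit 0x13051935) (nat_lit 0xcb15e98f8bae) (nat_lit 0x0)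
  (PL.C (nat_lit 0x130d06a6) (nat_lit 0x0) (nat_lit 0x7ea6d2b4dd9f0)
  (PL.C (nat_lit 0x130d4b2f) (nat_lit 0x0) (nat_lit 0x9a40b15ed68f9)
  (PL.C (nat_lit 0x1315a565) (nat_lit 0x1dc87907ef11b0) (nat_lit 0x0)
  (PL.C (nat_lit 0x131f329b) (nat_lit 0x0) (nat_lit 0x83275afb0680e)
  (PL.C (nat_lit 0x13225f4d) (nat_lit 0x0) (nat_lit 0x29dd7916a717f)
  (PL.C (nat_lit 0x13261947) (nat_lit 0x0) (nat_lit 0x14e43ee0418b24)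
  (PL.C (nat_lit 0x13290e0b) (nat_lit 0x0) (nat_lit 0x1c9f6af292b7a)
  (PL.C (nat_lit 0x133aa2a9) (nat_lit 0x0) (nat_lit 0x55462d32c2b09)
  (PL.C (nat_lit 0x133d71c6) (nat_lit 0x1b0de428704a47) (nat_lit 0x0)
  (PL.C (nat_lit 0x1349564d) (nat_lit 0x0) (nat_lit 0x2c3d55588b293)
  (PL.C (nat_lit 0x1358c9ca) (nat_lit 0x69d3bd0988b4) (nat_lit 0x0) gp4_0_99))))))))))))))))))))

noncomputable def gp4_0_97 : PL :=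
  (PL.C (nat_lit 0x12235641) (nat_lit 0x0) (nat_lit 0x20ec8ab91c0268)
  (PL.C (nat_lit 0x1223e5c3) (nat_lit 0x0) (nat_lit 0x19e62515bf54e7)
  (PL.C (nat_lit 0x122f35de) (nat_lit 0x0) (nat_lit 0x3fb0755b1b6f1d)
  (PL.C (nat_lit 0x1233acda) (nat_lit 0x0) (nat_lit 0xbfb45a2bed6f9)
  (PL.C (nat_lit 0x124773ff) (nat_lit 0x0) (nat_lit 0xfb3a6007315c3)
  (PL.C (nat_lit 0x124da61c) (nat_lit 0x622919c60df50) (nat_lit 0x0)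
  (PL.C (nat_lit 0x1261897a) (nat_lit 0x26469d7072f634) (nat_lit 0x0)
  (PL.C (nat_lit 0x1263b1ed) (nat_lit 0x0) (nat_lit 0x9936d3211cab6)
  (PL.C (nat_lit 0x126ce613) (nat_lit 0x16e5fecd3aaa02) (nat_lit 0x0)
  (PL.C (nat_lit 0x1274f6d7) (nat_lit 0x658ae62ade52) (nat_lit 0x0)
  (PL.C (nat_lit 0x1275fc04) (nat_lit 0x30fc7f11ddb50) (nat_lit 0x0)
  (PL.C (nat_lit 0x1276c13e) (nat_lit 0x33ead62bb941ba) (nat_lit 0x0)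
  (PL.C (nat_lit 0x128a0b36) (nat_lit 0x0) (nat_lit 0x4852ae2bd37285)
  (PL.C (nat_lit 0x1297e21e) (nat_lit 0x79daddf82145d) (nat_lit 0x0)
  (PL.C (nat_lit 0x12983823) (nat_lit 0x41f77d52e75fe) (nat_lit 0x0)
  (PL.C (nat_lit 0x129fe469) (nat_lit 0x0) (nat_lit 0x48f49f4e14099c)
  (PL.C (nat_lit 0x12a97e39) (nat_lit 0x0) (nat_lit 0x127e47d35acc04)
  (PL.C (nat_lit 0x12afbf95) (nat_lit 0xa3297f51ee8b2) (nat_lit 0x0)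
  (PL.C (nat_lit 0x12b82411) (nat_lit 0x0) (nat_lit 0x37c9d75eb638e)
  (PL.C (nat_lit 0x12bd3e9d) (nat_lit 0x1f9ddc03d6a5e) (nat_lit 0x0) gp4_0_98))))))))))))))))))))

noncomputable def gp4_0_96 : PL :=
  (PL.C (nat_lit 0x116eb1e7) (nat_lit 0x770060a1154c94) (nat_lit 0x0)
  (PL.C (nat_lit 0x117c84dc) (nat_lit 0x293d60a165e7d) (nat_lit 0x0)
  (PL.C (nat_lit 0x11816409) (nat_lit 0xa60f1c21bcb67) (nat_lit 0x0)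
  (PL.C (nat_lit 0x11874225) (nat_lit 0x0) (nat_lit 0x35343b7875c1d5)
  (PL.C (nat_lit 0x1193adad) (nat_lit 0x49f193610bcc4) (nat_lit 0x0)
  (PL.C (nat_lit 0x11a0455e) (nat_lit 0x3df817712e6b48) (nat_lit 0x0)
  (PL.C (nat_lit 0x11a724b9) (nat_lit 0x0) (nat_lit 0x20f84522a2a468)
  (PL.C (nat_lit 0x11c35e22) (nat_lit 0x0) (nat_lit 0xb8e56c1f7950f)
  (PL.C (nat_lit 0x11c452d7) (nat_lit 0x0) (nat_lit 0xae0a57626adc5)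
  (PL.C (nat_lit 0x11c71d32) (nat_lit 0xa39aa4cc6be12) (nat_lit 0x0)
  (PL.C (nat_lit 0x11d02bcf) (nat_lit 0x0) (nat_lit 0x15f3aef5dfff9a)
  (PL.C (nat_lit 0x11d62453) (nat_lit 0x10dbbc4fffb6a8) (nat_lit 0x0)
  (PL.C (nat_lit 0x11e6a28e) (nat_lit 0x0) (nat_lit 0x8f155064d7372)
  (PL.C (nat_lit 0x11ea834e) (nat_lit 0x0) (nat_lit 0xcc2695d244837)
  (PL.C (nat_lit 0x11f850b6) (nat_lit 0x12b016eec80f0c) (nat_lit 0x0)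
  (PL.C (nat_lit 0x11f9d552) (nat_lit 0x0) (nat_lit 0x380aa4a3416e3)
  (PL.C (nat_lit 0x11fa15fd) (nat_lit 0x0) (nat_lit 0x3515881ad78b0)
  (PL.C (nat_lit 0x12117dc5) (nat_lit 0x0) (nat_lit 0x4d7f3fe122e51)
  (PL.C (nat_lit 0x1213c0b3) (nat_lit 0x7cc0648e47540) (nat_lit 0x0)
  (PL.C (nat_lit 0x121c18ca) (nat_lit 0x0) (nat_lit 0x4bcfbf4839001c) gp4_0_97))))))))))))))))))))

noncomputable def gp4_0_95 : PL :=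
  (PL.C (nat_lit 0x1115d9ff) (nat_lit 0x12b0cec237601c) (nat_lit 0x0)
  (PL.C (nat_lit 0x111ea8af) (nat_lit 0x20508eadc91b06) (nat_lit 0x0)
  (PL.C (nat_lit 0x112465b3) (nat_lit 0x0) (nat_lit 0x170439b591c10)
  (PL.C (nat_lit 0x1124fe5e) (nat_lit 0x0) (nat_lit 0x7f3b99164fbf0)
  (PL.C (nat_lit 0x11258c92) (nat_lit 0x12b016eec80f0c) (nat_lit 0x0)
  (PL.C (nat_lit 0x112aec8a) (nat_lit 0x91b8bb6633595) (nat_lit 0x0)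
  (PL.C (nat_lit 0x112b7053) (nat_lit 0x0) (nat_lit 0x4fccf1c2c0bb3)
  (PL.C (nat_lit 0x11382e33) (nat_lit 0x0) (nat_lit 0x1a4ff333f18ac7)
  (PL.C (nat_lit 0x113b8eb3) (nat_lit 0x0) (nat_lit 0xe1058639ef716)
  (PL.C (nat_lit 0x114522ed) (nat_lit 0x0) (nat_lit 0x2b5ec4ff09f3b7)
  (PL.C (nat_lit 0x114800eb) (nat_lit 0x320dbd7dd2c30) (nat_lit 0x0)
  (PL.C (nat_lit 0x114e09fd) (nat_lit 0x0) (nat_lit 0x20f84522a2a468)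
  (PL.C (nat_lit 0x1150a715) (nat_lit 0x0) (nat_lit 0x114081be34108)
  (PL.C (nat_lit 0x11565004) (nat_lit 0x293d60a165e7d) (nat_lit 0x0)
  (PL.C (nat_lit 0x115930dc) (nat_lit 0x0) (nat_lit 0x8d46638c80c01)
  (PL.C (nat_lit 0x115daece) (nat_lit 0xfc554594243c6) (nat_lit 0x0)
  (PL.C (nat_lit 0x116491c5) (nat_lit 0x0) (nat_lit 0x2c896e57fd41)
  (PL.C (nat_lit 0x1166209b) (nat_lit 0x0) (nat_lit 0x72fc9cdbd1993)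
  (PL.C (nat_lit 0x116b31eb) (nat_lit 0x0) (nat_lit 0x2b5ec4ff09f3b7)
  (PL.C (nat_lit 0x116c0a9a) (nat_lit 0x1438e32987fde8) (nat_lit 0x0) gp4_0_96))))))))))))))))))))

noncomputable def gp4_0_94 : PL :=
  (PL.C (nat_lit 0x1067f0fd) (nat_lit 0xbcc15d98dac2d) (nat_lit 0x0)
  (PL.C (nat_lit 0x10702703) (nat_lit 0x14fd6d7094a1a0) (nat_lit 0x0)
  (PL.C (nat_lit 0x107142e6) (nat_lit 0x2552a4f040fbc) (nat_lit 0x0)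
  (PL.C (nat_lit 0x1072e1a5) (nat_lit 0x0) (nat_lit 0x38b409800fb7b)
  (PL.C (nat_lit 0x1078a66a) (nat_lit 0x0) (nat_lit 0x5259c310055e0)
  (PL.C (nat_lit 0x10798953) (nat_lit 0x0) (nat_lit 0x1a86b6044500e)
  (PL.C (nat_lit 0x107c1fba) (nat_lit 0x0) (nat_lit 0x90ae273f4cd4d)
  (PL.C (nat_lit 0x1085aae2) (nat_lit 0x91b8bb6633595) (nat_lit 0x0)
  (PL.C (nat_lit 0x109460a5) (nat_lit 0x14fd6d7094a1a0) (nat_lit 0x0)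
  (PL.C (nat_lit 0x109cf2c6) (nat_lit 0x4bfba7dba4a16) (nat_lit 0x0)
  (PL.C (nat_lit 0x10a1a8fa) (nat_lit 0xc787ab574c7e) (nat_lit 0x0)
  (PL.C (nat_lit 0x10a4019f) (nat_lit 0xa3297f51ee8b2) (nat_lit 0x0)
  (PL.C (nat_lit 0x10a41ab5) (nat_lit 0x13d089807e3004) (nat_lit 0x0)
  (PL.C (nat_lit 0x10b364c6) (nat_lit 0x1d965a14750df5) (nat_lit 0x0)
  (PL.C (nat_lit 0x10b4a7a4) (nat_lit 0x0) (nat_lit 0x3c46dfa9344c1c)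
  (PL.C (nat_lit 0x10c2433f) (nat_lit 0x0) (nat_lit 0x15559aa26c7c40)
  (PL.C (nat_lit 0x10f1f45e) (nat_lit 0x0) (nat_lit 0x76dfcfe384eb9)
  (PL.C (nat_lit 0x10f4bc82) (nat_lit 0x16db55a3edc17) (nat_lit 0x0)
  (PL.C (nat_lit 0x10f7a266) (nat_lit 0x23e9d02f3865f) (nat_lit 0x0)
  (PL.C (nat_lit 0x10fef165) (nat_lit 0x0) (nat_lit 0x764e9c0e68889) gp4_0_95))))))))))))))))))))

noncomputable def gp4_0_93 : PL :=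
  (PL.C (nat_lit 0xfdfeb8b) (nat_lit 0x0) (nat_lit 0x30149f633ab97)
  (PL.C (nat_lit 0xfe2b3af) (nat_lit 0x0) (nat_lit 0x21bbb4c36166)
  (PL.C (nat_lit 0xfebc53f) (nat_lit 0x6a042454b) (nat_lit 0x0)
  (PL.C (nat_lit 0xfefb55c) (nat_lit 0x0) (nat_lit 0x3809d577f0123)
  (PL.C (nat_lit 0xff50a05) (nat_lit 0x0) (nat_lit 0x6e56233540416)
  (PL.C (nat_lit 0x1003cb62) (nat_lit 0x0) (nat_lit 0x31ab10a1f07af1)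
  (PL.C (nat_lit 0x1015322b) (nat_lit 0x10aef7ac2fd15d) (nat_lit 0x0)
  (PL.C (nat_lit 0x10178f49) (nat_lit 0x0) (nat_lit 0x3ef04ae314fc4)
  (PL.C (nat_lit 0x101a5c46) (nat_lit 0x0) (nat_lit 0xbfb45a2bed6f9)
  (PL.C (nat_lit 0x10214bf5) (nat_lit 0x0) (nat_lit 0x2580964b830b8)
  (PL.C (nat_lit 0x102a22a3) (nat_lit 0x0) (nat_lit 0xbaee0a9ac6468)
  (PL.C (nat_lit 0x102ca177) (nat_lit 0x0) (nat_lit 0x10b1f537cd4c9)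
  (PL.C (nat_lit 0x10320d5b) (nat_lit 0x0) (nat_lit 0x6ded8f661f8d8)
  (PL.C (nat_lit 0x1032ef3e) (nat_lit 0xfab463d09d523) (nat_lit 0x0)
  (PL.C (nat_lit 0x103b05af) (nat_lit 0x0) (nat_lit 0x12597a51519059)
  (PL.C (nat_lit 0x10581b16) (nat_lit 0x0) (nat_lit 0x4702dd37d5cf4)
  (PL.C (nat_lit 0x105d5812) (nat_lit 0x657b8647f8016) (nat_lit 0x0)
  (PL.C (nat_lit 0x105e7a7d) (nat_lit 0x0) (nat_lit 0x171046bd5db00)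
  (PL.C (nat_lit 0x106087f6) (nat_lit 0x0) (nat_lit 0x50367cca71f6d)
  (PL.C (nat_lit 0x1062d44a) (nat_lit 0x0) (nat_lit 0x76dfcfe384eb9) gp4_0_94))))))))))))))))))))

noncomputable def gp4_0_92 : PL :=
  (PL.C (nat_lit 0xf5911e4) (nat_lit 0x0) (nat_lit 0x7685bd69b74b9)
  (PL.C (nat_lit 0xf73f642) (nat_lit 0x0) (nat_lit 0x4bb393e23a439)
  (PL.C (nat_lit 0xf81c675) (nat_lit 0x1f9ddc03d6a5e) (nat_lit 0x0)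
  (PL.C (nat_lit 0xf8434e2) (nat_lit 0x849eb6eca8aae) (nat_lit 0x0)
  (PL.C (nat_lit 0xf8a3e5b) (nat_lit 0x0) (nat_lit 0x112975a6cd8240)
  (PL.C (nat_lit 0xf9132a4) (nat_lit 0x190d0c6d0bff8) (nat_lit 0x0)
  (PL.C (nat_lit 0xf97a3f9) (nat_lit 0x0) (nat_lit 0x43ddcc9aaf536)
  (PL.C (nat_lit 0xfa5af8a) (nat_lit 0x137ed0eba449c8) (nat_lit 0x0)
  (PL.C (nat_lit 0xfa6668e) (nat_lit 0x0) (nat_lit 0x7b8341ca85fabd)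
  (PL.C (nat_lit 0xfb25def) (nat_lit 0x0) (nat_lit 0x2c896e57fd41)
  (PL.C (nat_lit 0xfb2f03c) (nat_lit 0x2f90a24fefc2a) (nat_lit 0x0)
  (PL.C (nat_lit 0xfba4452) (nat_lit 0x5d9385c21adf7) (nat_lit 0x0)
  (PL.C (nat_lit 0xfc0f2dd) (nat_lit 0x23c577985bab24) (nat_lit 0x0)
  (PL.C (nat_lit 0xfc63aa9) (nat_lit 0x0) (nat_lit 0x2835bcef43dd1d)
  (PL.C (nat_lit 0xfcce384) (nat_lit 0x0) (nat_lit 0x7d993beea23c)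
  (PL.C (nat_lit 0xfcef745) (nat_lit 0x0) (nat_lit 0xcabfc30cf75f5)
  (PL.C (nat_lit 0xfd1b68a) (nat_lit 0x75dbfe83de9323) (nat_lit 0x0)
  (PL.C (nat_lit 0xfd582bb) (nat_lit 0xa99a30fbf87e) (nat_lit 0x0)
  (PL.C (nat_lit 0xfdac451) (nat_lit 0x0) (nat_lit 0x35343b7875c1d5)
  (PL.C (nat_lit 0xfdf20ac) (nat_lit 0x0) (nat_lit 0x52d2e98c2fef9) gp4_0_93))))))))))))))))))))

noncomputable def gp4_0_91 : PL :=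
  (PL.C (nat_lit 0xec7a39e) (nat_lit 0x1b37fa0d3cc0a8) (nat_lit 0x0)
  (PL.C (nat_lit 0xed5d382) (nat_lit 0x849eb6eca8aae) (nat_lit 0x0)
  (PL.C (nat_lit 0xed8a045) (nat_lit 0x216e19d83930a) (nat_lit 0x0)
  (PL.C (nat_lit 0xed9a0aa) (nat_lit 0x5d3530ce4ad462) (nat_lit 0x0)
  (PL.C (nat_lit 0xee10f56) (nat_lit 0x523c8e36fa204) (nat_lit 0x0)
  (PL.C (nat_lit 0xee9c377) (nat_lit 0x0) (nat_lit 0x1d4be4c07922c7)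
  (PL.C (nat_lit 0xef957d3) (nat_lit 0x265300a4c59166) (nat_lit 0x0)
  (PL.C (nat_lit 0xeff7e73) (nat_lit 0x6c897710e4cef) (nat_lit 0x0)
  (PL.C (nat_lit 0xf01d97a) (nat_lit 0x576ab301877a) (nat_lit 0x0)
  (PL.C (nat_lit 0xf048567) (nat_lit 0x0) (nat_lit 0x197faae09ffd0c)
  (PL.C (nat_lit 0xf1c2505) (nat_lit 0x13c2f770cb8396) (nat_lit 0x0)
  (PL.C (nat_lit 0xf1c7546) (nat_lit 0x0) (nat_lit 0x129824443f3113)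
  (PL.C (nat_lit 0xf2b620e) (nat_lit 0x0) (nat_lit 0x128df1db369d35)
  (PL.C (nat_lit 0xf2caa1a) (nat_lit 0x0) (nat_lit 0x380aa4a3416e3)
  (PL.C (nat_lit 0xf2ce0b1) (nat_lit 0x0) (nat_lit 0x3bd8b681fdb05e)
  (PL.C (nat_lit 0xf31c032) (nat_lit 0x0) (nat_lit 0xea2c0a23b04a)
  (PL.C (nat_lit 0xf384baf) (nat_lit 0x0) (nat_lit 0x1a4079225c3dd6)
  (PL.C (nat_lit 0xf3e359a) (nat_lit 0x0) (nat_lit 0x3f5828096e419e)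
  (PL.C (nat_lit 0xf45f65f) (nat_lit 0x0) (nat_lit 0xcf80407142344)
  (PL.C (nat_lit 0xf520e2a) (nat_lit 0x0) (nat_lit 0x6c9a7900d80ed) gp4_0_92))))))))))))))))))))

noncomputable def gp4_0_90 : PL :=
  (PL.C (nat_lit 0xe32a673) (nat_lit 0x0) (nat_lit 0x55462d32c2b09)
  (PL.C (nat_lit 0xe50420a) (nat_lit 0x0) (nat_lit 0x22001b2acd8fd1)
  (PL.C (nat_lit 0xe58dfb9) (nat_lit 0x90f2b7522268d) (nat_lit 0x0)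
  (PL.C (nat_lit 0xe5b22fc) (nat_lit 0x0) (nat_lit 0x7685bd69b74b9)
  (PL.C (nat_lit 0xe73a5ab) (nat_lit 0x0) (nat_lit 0x10be86f7e036e1)
  (PL.C (nat_lit 0xe787dbf) (nat_lit 0x90f2b7522268d) (nat_lit 0x0)
  (PL.C (nat_lit 0xe7dd87e) (nat_lit 0x224c1aff0eb0) (nat_lit 0x0)
  (PL.C (nat_lit 0xe7e0032) (nat_lit 0x30d26700b6787f) (nat_lit 0x0)
  (PL.C (nat_lit 0xe834b23) (nat_lit 0x435ac5912ea99) (nat_lit 0x0)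
  (PL.C (nat_lit 0xe8c0abf) (nat_lit 0x10aef7ac2fd15d) (nat_lit 0x0)
  (PL.C (nat_lit 0xe8d23fa) (nat_lit 0x0) (nat_lit 0x3fb0755b1b6f1d)
  (PL.C (nat_lit 0xe9ba4b1) (nat_lit 0x5e25ce353beacb) (nat_lit 0x0)
  (PL.C (nat_lit 0xea08a2d) (nat_lit 0x2dcefe43331c6) (nat_lit 0x0)
  (PL.C (nat_lit 0xeaea999) (nat_lit 0x41f77d52e75fe) (nat_lit 0x0)
  (PL.C (nat_lit 0xeaffa47) (nat_lit 0xa0ebf4e4a07f2) (nat_lit 0x0)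
  (PL.C (nat_lit 0xeb39575) (nat_lit 0x0) (nat_lit 0x6032e008b6c2d)
  (PL.C (nat_lit 0xeb5698e) (nat_lit 0x0) (nat_lit 0x7b8341ca85fabd)
  (PL.C (nat_lit 0xeb735c3) (nat_lit 0x3647e102304e9) (nat_lit 0x0)
  (PL.C (nat_lit 0xec288fb) (nat_lit 0x10dbbc4fffb6a8) (nat_lit 0x0)
  (PL.C (nat_lit 0xec6641a) (nat_lit 0x1d965a14750df5) (nat_lit 0x0) gp4_0_91))))))))))))))))))))

noncomputable def gp4_0_89 : PL :=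
  (PL.C (nat_lit 0xda11d89) (nat_lit 0xc7b78808e9e78) (nat_lit 0x0)
  (PL.C (nat_lit 0xdabea07) (nat_lit 0x5ad012fb8665a) (nat_lit 0x0)
  (PL.C (nat_lit 0xdaca8b6) (nat_lit 0xdb54bc8c28995) (nat_lit 0x0)
  (PL.C (nat_lit 0xdafbb87) (nat_lit 0x791de623bb7f6) (nat_lit 0x0)
  (PL.C (nat_lit 0xdb88e56) (nat_lit 0x36eb1b674c0167) (nat_lit 0x0)
  (PL.C (nat_lit 0xdd3264e) (nat_lit 0x0) (nat_lit 0x129824443f3113)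
  (PL.C (nat_lit 0xdd516f2) (nat_lit 0x77648aa9ef2a6) (nat_lit 0x0)
  (PL.C (nat_lit 0xdd7c896) (nat_lit 0x7902012d7c4ed) (nat_lit 0x0)
  (PL.C (nat_lit 0xdd967b1) (nat_lit 0x30a1c52418ed4b) (nat_lit 0x0)
  (PL.C (nat_lit 0xdddbf0d) (nat_lit 0x0) (nat_lit 0xda5c2cee9b4f)
  (PL.C (nat_lit 0xde1e154) (nat_lit 0x0) (nat_lit 0x52d2e98c2fef9)
  (PL.C (nat_lit 0xdf0f6ee) (nat_lit 0x0) (nat_lit 0x159c9cedb3f2ac)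
  (PL.C (nat_lit 0xdf3dc77) (nat_lit 0x0) (nat_lit 0xcd22206a7da87)
  (PL.C (nat_lit 0xe020c6b) (nat_lit 0x367a2776bcaa7) (nat_lit 0x0)
  (PL.C (nat_lit 0xe031d9e) (nat_lit 0x0) (nat_lit 0x3a1c28276405f)
  (PL.C (nat_lit 0xe0cdce6) (nat_lit 0x0) (nat_lit 0xd379505aee54)
  (PL.C (nat_lit 0xe10f486) (nat_lit 0x0) (nat_lit 0x2aa5e29d4d9756)
  (PL.C (nat_lit 0xe125755) (nat_lit 0x180421054ca1d8) (nat_lit 0x0)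
  (PL.C (nat_lit 0xe1a79d5) (nat_lit 0x0) (nat_lit 0x6dea9025a1fa6)
  (PL.C (nat_lit 0xe25a67b) (nat_lit 0x0) (nat_lit 0x15559aa26c7c40) gp4_0_90))))))))))))))))))))

noncomputable def gp4_0_88 : PL :=
  (PL.C (nat_lit 0xd3695b3) (nat_lit 0x0) (nat_lit 0x1911b37fa04c93)
  (PL.C (nat_lit 0xd37b371) (nat_lit 0x0) (nat_lit 0x101ee12ca8dc)
  (PL.C (nat_lit 0xd4b3f32) (nat_lit 0x0) (nat_lit 0x5259c310055e0)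
  (PL.C (nat_lit 0xd4dc17d) (nat_lit 0x0) (nat_lit 0x7ec2682e5ab4a)
  (PL.C (nat_lit 0xd50e50d) (nat_lit 0x10b989f950d595) (nat_lit 0x0)
  (PL.C (nat_lit 0xd584519) (nat_lit 0x0) (nat_lit 0x8be4d8505c08ea)
  (PL.C (nat_lit 0xd5d3532) (nat_lit 0x33ead62bb941ba) (nat_lit 0x0)
  (PL.C (nat_lit 0xd623b55) (nat_lit 0x5bd879c2dde8f) (nat_lit 0x0)
  (PL.C (nat_lit 0xd6694f7) (nat_lit 0x0) (nat_lit 0x1a4079225c3dd6)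
  (PL.C (nat_lit 0xd6b12db) (nat_lit 0x0) (nat_lit 0xbfa8c2872482)
  (PL.C (nat_lit 0xd6bbaa3) (nat_lit 0x0) (nat_lit 0x69e0579cbbce17)
  (PL.C (nat_lit 0xd702eba) (nat_lit 0x0) (nat_lit 0x1f97302b301cbc)
  (PL.C (nat_lit 0xd72cab5) (nat_lit 0x0) (nat_lit 0x1a86b6044500e)
  (PL.C (nat_lit 0xd7d33db) (nat_lit 0x0) (nat_lit 0x10747797f54f86)
  (PL.C (nat_lit 0xd7e38a2) (nat_lit 0x24139bb46ddcb7) (nat_lit 0x0)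
  (PL.C (nat_lit 0xd852d42) (nat_lit 0x1de80d2bc6d2) (nat_lit 0x0)
  (PL.C (nat_lit 0xd8bab55) (nat_lit 0xd0e30f0e3fd14) (nat_lit 0x0)
  (PL.C (nat_lit 0xd92fd12) (nat_lit 0x0) (nat_lit 0x1187126a397b8)
  (PL.C (nat_lit 0xd938e17) (nat_lit 0x0) (nat_lit 0xe1058639ef716)
  (PL.C (nat_lit 0xd992424) (nat_lit 0x0) (nat_lit 0x2b5d202f7f6db) gp4_0_89))))))))))))))))))))

noncomputable def gp4_0_87 : PL :=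
  (PL.C (nat_lit 0xcd1c1c6) (nat_lit 0x0) (nat_lit 0xab74512db6e71)
  (PL.C (nat_lit 0xcd914ab) (nat_lit 0x0) (nat_lit 0x30149f633ab97)
  (PL.C (nat_lit 0xcdb8ede) (nat_lit 0x0) (nat_lit 0x661dbee4a9f9f)
  (PL.C (nat_lit 0xcdf547b) (nat_lit 0x571b1fecde9d2) (nat_lit 0x0)
  (PL.C (nat_lit 0xce49e1b) (nat_lit 0x0) (nat_lit 0x2bff3727686c8)
  (PL.C (nat_lit 0xce5dbdc) (nat_lit 0x0) (nat_lit 0x3809d577f0123)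
  (PL.C (nat_lit 0xce8f06f) (nat_lit 0x0) (nat_lit 0x97f8e9fa6a198)
  (PL.C (nat_lit 0xcef5f59) (nat_lit 0x0) (nat_lit 0xbaee0a9ac6468)
  (PL.C (nat_lit 0xcf5d8a7) (nat_lit 0x94e44391e0feb) (nat_lit 0x0)
  (PL.C (nat_lit 0xcfd3eb7) (nat_lit 0x0) (nat_lit 0x1fbac6d74a2c7)
  (PL.C (nat_lit 0xcff247a) (nat_lit 0x1b0de428704a47) (nat_lit 0x0)
  (PL.C (nat_lit 0xd024844) (nat_lit 0x0) (nat_lit 0x7d993beea23c)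
  (PL.C (nat_lit 0xd0b72ca) (nat_lit 0x25b4da3eb6c3e) (nat_lit 0x0)
  (PL.C (nat_lit 0xd0fd222) (nat_lit 0x0) (nat_lit 0x5ea6cc5ed6384)
  (PL.C (nat_lit 0xd157277) (nat_lit 0x0) (nat_lit 0x1bc3e90827013)
  (PL.C (nat_lit 0xd194207) (nat_lit 0xd0e30f0e3fd14) (nat_lit 0x0)
  (PL.C (nat_lit 0xd1a58c4) (nat_lit 0x3f75377d89ec33) (nat_lit 0x0)
  (PL.C (nat_lit 0xd26490c) (nat_lit 0x0) (nat_lit 0x2b5d202f7f6db)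
  (PL.C (nat_lit 0xd288864) (nat_lit 0x1582e1eec92491) (nat_lit 0x0)
  (PL.C (nat_lit 0xd2e335e) (nat_lit 0x4bfba7dba4a16) (nat_lit 0x0) gp4_0_88))))))))))))))))))))

noncomputable def gp4_0_86 : PL :=
  (PL.C (nat_lit 0xc7ac2b6) (nat_lit 0x0) (nat_lit 0x90ae273f4cd4d)
  (PL.C (nat_lit 0xc7e29be) (nat_lit 0x91432c354ac6c) (nat_lit 0x0)
  (PL.C (nat_lit 0xc85f50a) (nat_lit 0x26469d7072f634) (nat_lit 0x0)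
  (PL.C (nat_lit 0xc885219) (nat_lit 0x192040e6d506b2) (nat_lit 0x0)
  (PL.C (nat_lit 0xc8ffd74) (nat_lit 0x3f75377d89ec33) (nat_lit 0x0)
  (PL.C (nat_lit 0xc92fd85) (nat_lit 0x0) (nat_lit 0x9f9c25c6cc07b)
  (PL.C (nat_lit 0xc96431a) (nat_lit 0x0) (nat_lit 0x4702dd37d5cf4)
  (PL.C (nat_lit 0xc96c993) (nat_lit 0x0) (nat_lit 0x339f64adac2d78)
  (PL.C (nat_lit 0xca35c8d) (nat_lit 0x0) (nat_lit 0x59588df7e56d)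
  (PL.C (nat_lit 0xca3f05f) (nat_lit 0x0) (nat_lit 0x14f716bf0dfa67)
  (PL.C (nat_lit 0xca6c49d) (nat_lit 0x320dbd7dd2c30) (nat_lit 0x0)
  (PL.C (nat_lit 0xca89dbe) (nat_lit 0x75dbfe83de9323) (nat_lit 0x0)
  (PL.C (nat_lit 0xcae10ce) (nat_lit 0x64a9675a5e7e3) (nat_lit 0x0)
  (PL.C (nat_lit 0xcb359c4) (nat_lit 0x0) (nat_lit 0x8d46638c80c01)
  (PL.C (nat_lit 0xcb918ee) (nat_lit 0x0) (nat_lit 0x2aa5e29d4d9756)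
  (PL.C (nat_lit 0xcbf7712) (nat_lit 0x0) (nat_lit 0x2feea1f74a8a)
  (PL.C (nat_lit 0xcc194de) (nat_lit 0x0) (nat_lit 0x50367cca71f6d)
  (PL.C (nat_lit 0xcc410da) (nat_lit 0x0) (nat_lit 0x27f16cc414c4cf)
  (PL.C (nat_lit 0xcc6ec0d) (nat_lit 0x0) (nat_lit 0x62df51a72b517f)
  (PL.C (nat_lit 0xccf7135) (nat_lit 0x266fb308cb1eeb) (nat_lit 0x0) gp4_0_87))))))))))))))))))))

noncomputable def gp4_0_85 : PL :=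
  (PL.C (nat_lit 0xc1c7a5d) (nat_lit 0x0) (nat_lit 0x170439b591c10)
  (PL.C (nat_lit 0xc1f0845) (nat_lit 0x0) (nat_lit 0x3ef04ae314fc4)
  (PL.C (nat_lit 0xc22733c) (nat_lit 0x0) (nat_lit 0x16c940fcd485af)
  (PL.C (nat_lit 0xc2fa2aa) (nat_lit 0xb850cb6c791b1) (nat_lit 0x0)
  (PL.C (nat_lit 0xc34861b) (nat_lit 0x0) (nat_lit 0x8d325e96c0518)
  (PL.C (nat_lit 0xc372afb) (nat_lit 0x0) (nat_lit 0x764e9c0e68889)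
  (PL.C (nat_lit 0xc3aa1e5) (nat_lit 0x13c2f770cb8396) (nat_lit 0x0)
  (PL.C (nat_lit 0xc40941f) (nat_lit 0x30a1c52418ed4b) (nat_lit 0x0)
  (PL.C (nat_lit 0xc419d15) (nat_lit 0x1fd0b57b5ff28) (nat_lit 0x0)
  (PL.C (nat_lit 0xc42769e) (nat_lit 0x0) (nat_lit 0x1f97302b301cbc)
  (PL.C (nat_lit 0xc47abfb) (nat_lit 0x0) (nat_lit 0x9a40b15ed68f9)
  (PL.C (nat_lit 0xc489962) (nat_lit 0x0) (nat_lit 0xa7f1ef01fbbd6)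
  (PL.C (nat_lit 0xc4fc8d5) (nat_lit 0x2a271dd6cfeeb4) (nat_lit 0x0)
  (PL.C (nat_lit 0xc58f9a1) (nat_lit 0x2dcefe43331c6) (nat_lit 0x0)
  (PL.C (nat_lit 0xc5fd05d) (nat_lit 0x1a8692c65d217) (nat_lit 0x0)
  (PL.C (nat_lit 0xc657ac2) (nat_lit 0x2d85441f7d06d) (nat_lit 0x0)
  (PL.C (nat_lit 0xc6a9846) (nat_lit 0x0) (nat_lit 0x4852ae2bd37285)
  (PL.C (nat_lit 0xc75ac27) (nat_lit 0x0) (nat_lit 0x2d3484e143a08)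
  (PL.C (nat_lit 0xc77b7c9) (nat_lit 0x0) (nat_lit 0x2bff3727686c8)
  (PL.C (nat_lit 0xc79d94b) (nat_lit 0x38e88a8c4002fd) (nat_lit 0x0) gp4_0_86))))))))))))))))))))

noncomputable def gp4_0_84 : PL :=
  (PL.C (nat_lit 0xbaf816e) (nat_lit 0x37b68f88b0942) (nat_lit 0x0)
  (PL.C (nat_lit 0xbb07ee3) (nat_lit 0x0) (nat_lit 0x65c02719817ae)
  (PL.C (nat_lit 0xbb48a01) (nat_lit 0x0) (nat_lit 0x8be4d8505c08ea)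
  (PL.C (nat_lit 0xbb7c91e) (nat_lit 0xc787ab574c7e) (nat_lit 0x0)
  (PL.C (nat_lit 0xbc4c326) (nat_lit 0x0) (nat_lit 0x293393c7187c9c)
  (PL.C (nat_lit 0xbd725bb) (nat_lit 0x8e523d41bb216) (nat_lit 0x0)
  (PL.C (nat_lit 0xbd8373a) (nat_lit 0x0) (nat_lit 0x22001b2acd8fd1)
  (PL.C (nat_lit 0xbe7cde9) (nat_lit 0x0) (nat_lit 0x27e51370cf6b6)
  (PL.C (nat_lit 0xbe9dff7) (nat_lit 0x148048e71ea1c) (nat_lit 0x0)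
  (PL.C (nat_lit 0xbef0215) (nat_lit 0x0) (nat_lit 0x9140c44533053)
  (PL.C (nat_lit 0xbf00427) (nat_lit 0xd8563e45485fb) (nat_lit 0x0)
  (PL.C (nat_lit 0xbfbe38c) (nat_lit 0x7848ce56fa481) (nat_lit 0x0)
  (PL.C (nat_lit 0xbfe8b9d) (nat_lit 0x0) (nat_lit 0x112e41438c0894)
  (PL.C (nat_lit 0xc048c63) (nat_lit 0x0) (nat_lit 0x12597a51519059)
  (PL.C (nat_lit 0xc0abe53) (nat_lit 0x0) (nat_lit 0x38b409800fb7b)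
  (PL.C (nat_lit 0xc0ba92e) (nat_lit 0x0) (nat_lit 0x7162b2d27e1c8)
  (PL.C (nat_lit 0xc0d2b22) (nat_lit 0x0) (nat_lit 0x16dbc487e232b2)
  (PL.C (nat_lit 0xc170b8b) (nat_lit 0x0) (nat_lit 0x34e0b026e9fc2)
  (PL.C (nat_lit 0xc178ed6) (nat_lit 0x0) (nat_lit 0x3542a0c9947ecb)
  (PL.C (nat_lit 0xc17ee82) (nat_lit 0x0) (nat_lit 0x3f5828096e419e) gp4_0_85))))))))))))))))))))

noncomputable def gp4_0_83 : PL :=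
  (PL.C (nat_lit 0xb544a6f) (nat_lit 0x0) (nat_lit 0x69e0579cbbce17)
  (PL.C (nat_lit 0xb54a0ee) (nat_lit 0x2be61cdf74f5b) (nat_lit 0x0)
  (PL.C (nat_lit 0xb5c76bb) (nat_lit 0xc2b62059b50f7) (nat_lit 0x0)
  (PL.C (nat_lit 0xb5ccba9) (nat_lit 0x9b3732a43c730) (nat_lit 0x0)
  (PL.C (nat_lit 0xb630a87) (nat_lit 0x0) (nat_lit 0x9140c44533053)
  (PL.C (nat_lit 0xb63e6aa) (nat_lit 0x24139bb46ddcb7) (nat_lit 0x0)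
  (PL.C (nat_lit 0xb69c5ca) (nat_lit 0xdb54bc8c28995) (nat_lit 0x0)
  (PL.C (nat_lit 0xb6d9922) (nat_lit 0x131550a13e3f6) (nat_lit 0x0)
  (PL.C (nat_lit 0xb724ae2) (nat_lit 0x19da2d4e23959) (nat_lit 0x0)
  (PL.C (nat_lit 0xb731605) (nat_lit 0x0) (nat_lit 0x265b6b24167225)
  (PL.C (nat_lit 0xb815b6d) (nat_lit 0x0) (nat_lit 0x4f032958aba14)
  (PL.C (nat_lit 0xb836c9e) (nat_lit 0x2b10b4978cf95c) (nat_lit 0x0)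
  (PL.C (nat_lit 0xb8555f2) (nat_lit 0xe72c625db8bb) (nat_lit 0x0)
  (PL.C (nat_lit 0xb895bfe) (nat_lit 0x0) (nat_lit 0x293393c7187c9c)
  (PL.C (nat_lit 0xb8b1a0e) (nat_lit 0x1de80d2bc6d2) (nat_lit 0x0)
  (PL.C (nat_lit 0xb8f97cd) (nat_lit 0x1422d8929c578e) (nat_lit 0x0)
  (PL.C (nat_lit 0xb98612e) (nat_lit 0x0) (nat_lit 0x196d654aa9ffc)
  (PL.C (nat_lit 0xb996b12) (nat_lit 0x0) (nat_lit 0xbdcdc445be2ca)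
  (PL.C (nat_lit 0xb9ccbf2) (nat_lit 0x2b10b4978cf95c) (nat_lit 0x0)
  (PL.C (nat_lit 0xbab9806) (nat_lit 0x0) (nat_lit 0x8f155064d7372) gp4_0_84))))))))))))))))))))

noncomputable def gp4_0_82 : PL :=
  (PL.C (nat_lit 0xaeb507d) (nat_lit 0x0) (nat_lit 0x14e43ee0418b24)
  (PL.C (nat_lit 0xaeff5fe) (nat_lit 0xb1c61dbfdb3c6) (nat_lit 0x0)
  (PL.C (nat_lit 0xaf0c783) (nat_lit 0x194647551ee65) (nat_lit 0x0)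
  (PL.C (nat_lit 0xafab347) (nat_lit 0x0) (nat_lit 0x6032e008b6c2d)
  (PL.C (nat_lit 0xafb199c) (nat_lit 0x6d532bd0567cf) (nat_lit 0x0)
  (PL.C (nat_lit 0xafbb0e2) (nat_lit 0x87be27512f30e) (nat_lit 0x0)
  (PL.C (nat_lit 0xafbd865) (nat_lit 0x167d8e40a0a68) (nat_lit 0x0)
  (PL.C (nat_lit 0xafd6a7c) (nat_lit 0x992bf5cf15694) (nat_lit 0x0)
  (PL.C (nat_lit 0xb06b56b) (nat_lit 0x0) (nat_lit 0x1a4ff333f18ac7)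
  (PL.C (nat_lit 0xb0b7493) (nat_lit 0x6ebe1aa4fd3c2) (nat_lit 0x0)
  (PL.C (nat_lit 0xb134c84) (nat_lit 0x8d59ac68b3592) (nat_lit 0x0)
  (PL.C (nat_lit 0xb1811ce) (nat_lit 0x1544d0936e9d12) (nat_lit 0x0)
  (PL.C (nat_lit 0xb1e9e51) (nat_lit 0x0) (nat_lit 0x29be956fedfad2)
  (PL.C (nat_lit 0xb276dbf) (nat_lit 0x18af68aed6b286) (nat_lit 0x0)
  (PL.C (nat_lit 0xb285ef5) (nat_lit 0x1ee4303ff6801) (nat_lit 0x0)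
  (PL.C (nat_lit 0xb2a8b3f) (nat_lit 0x7178caed07bd1) (nat_lit 0x0)
  (PL.C (nat_lit 0xb2c1c61) (nat_lit 0x791de623bb7f6) (nat_lit 0x0)
  (PL.C (nat_lit 0xb42a00f) (nat_lit 0x979a6b64a4ced) (nat_lit 0x0)
  (PL.C (nat_lit 0xb43dd3d) (nat_lit 0x0) (nat_lit 0xda5c2cee9b4f)
  (PL.C (nat_lit 0xb514927) (nat_lit 0xadd115b989cfe) (nat_lit 0x0) gp4_0_83))))))))))))))))))))

noncomputable def gp4_0_81 : PL :=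
  (PL.C (nat_lit 0xa89fa2e) (nat_lit 0x231940a6e2f23f) (nat_lit 0x0)
  (PL.C (nat_lit 0xa8f09c3) (nat_lit 0x111804e13c5a78) (nat_lit 0x0)
  (PL.C (nat_lit 0xa91d836) (nat_lit 0x37b68f88b0942) (nat_lit 0x0)
  (PL.C (nat_lit 0xa9547b2) (nat_lit 0x0) (nat_lit 0x2488123cf0b62)
  (PL.C (nat_lit 0xa9d2e2a) (nat_lit 0x0) (nat_lit 0xea2c0a23b04a)
  (PL.C (nat_lit 0xa9d5459) (nat_lit 0x0) (nat_lit 0x1149c8ee90398d)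
  (PL.C (nat_lit 0xab92e95) (nat_lit 0xcb15e98f8bae) (nat_lit 0x0)
  (PL.C (nat_lit 0xaba5f86) (nat_lit 0x3f4f09a48a76d) (nat_lit 0x0)
  (PL.C (nat_lit 0xabc3d84) (nat_lit 0x0) (nat_lit 0x16c940fcd485af)
  (PL.C (nat_lit 0xac0dd4e) (nat_lit 0x0) (nat_lit 0x6c9a7900d80ed)
  (PL.C (nat_lit 0xac6c1c2) (nat_lit 0x906ee422175f1) (nat_lit 0x0)
  (PL.C (nat_lit 0xac92b01) (nat_lit 0x3683a66a5aab68) (nat_lit 0x0)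
  (PL.C (nat_lit 0xacb4881) (nat_lit 0x0) (nat_lit 0x339f64adac2d78)
  (PL.C (nat_lit 0xad0af7f) (nat_lit 0x0) (nat_lit 0x2945a11814174d)
  (PL.C (nat_lit 0xad203ca) (nat_lit 0x0) (nat_lit 0xf192e911151a7)
  (PL.C (nat_lit 0xad6dc0f) (nat_lit 0x0) (nat_lit 0x171046bd5db00)
  (PL.C (nat_lit 0xada9be5) (nat_lit 0x2847c36d5e22e2) (nat_lit 0x0)
  (PL.C (nat_lit 0xaddc5a7) (nat_lit 0x24619d21479ff2) (nat_lit 0x0)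
  (PL.C (nat_lit 0xae56764) (nat_lit 0x0) (nat_lit 0x6c7c5ebba31ef)
  (PL.C (nat_lit 0xae9a6fe) (nat_lit 0x4ec54bb652ce6) (nat_lit 0x0) gp4_0_82))))))))))))))))))))

noncomputable def gp4_0_80 : PL :=
  (PL.C (nat_lit 0xa2587ca) (nat_lit 0x0) (nat_lit 0xd54fc107266e1)
  (PL.C (nat_lit 0xa2a50df) (nat_lit 0xd6d9ea6e6567a) (nat_lit 0x0)
  (PL.C (nat_lit 0xa2db923) (nat_lit 0x0) (nat_lit 0x4f032958aba14)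
  (PL.C (nat_lit 0xa36b41c) (nat_lit 0x0) (nat_lit 0x41fc00ad7fae4)
  (PL.C (nat_lit 0xa396bb7) (nat_lit 0x3683a66a5aab68) (nat_lit 0x0)
  (PL.C (nat_lit 0xa3dd27f) (nat_lit 0x0) (nat_lit 0xa6cf47078da3)
  (PL.C (nat_lit 0xa423c2d) (nat_lit 0x5bb4f7e28e495) (nat_lit 0x0)
  (PL.C (nat_lit 0xa4d95c7) (nat_lit 0x7178caed07bd1) (nat_lit 0x0)
  (PL.C (nat_lit 0xa4f9775) (nat_lit 0xa6cace0c66837) (nat_lit 0x0)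
  (PL.C (nat_lit 0xa56844e) (nat_lit 0x91432c354ac6c) (nat_lit 0x0)
  (PL.C (nat_lit 0xa57c2db) (nat_lit 0xbcc15d98dac2d) (nat_lit 0x0)
  (PL.C (nat_lit 0xa5aa65b) (nat_lit 0x0) (nat_lit 0x25feaf9717ea)
  (PL.C (nat_lit 0xa5c2992) (nat_lit 0x0) (nat_lit 0x169b0efab8d715)
  (PL.C (nat_lit 0xa6498e9) (nat_lit 0x28a85ec2b15c08) (nat_lit 0x0)
  (PL.C (nat_lit 0xa76e94a) (nat_lit 0x0) (nat_lit 0x196d654aa9ffc)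
  (PL.C (nat_lit 0xa7c2d8c) (nat_lit 0x2f90a24fefc2a) (nat_lit 0x0)
  (PL.C (nat_lit 0xa7dfe83) (nat_lit 0x0) (nat_lit 0x70346f1a38720)
  (PL.C (nat_lit 0xa815c4b) (nat_lit 0x0) (nat_lit 0x87f3f933750b2b)
  (PL.C (nat_lit 0xa864ead) (nat_lit 0x0) (nat_lit 0xcf80407142344)
  (PL.C (nat_lit 0xa893f2d) (nat_lit 0x0) (nat_lit 0x33b3c5a1da1af) gp4_0_81))))))))))))))))))))

noncomputable def gp4_0_79 : PL :=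
  (PL.C (nat_lit 0x9e18bc5) (nat_lit 0x0) (nat_lit 0xcabfc30cf75f5)
  (PL.C (nat_lit 0x9e5c02e) (nat_lit 0x0) (nat_lit 0x47fd62581fdbc5)
  (PL.C (nat_lit 0x9e66b1c) (nat_lit 0x755468af79a7bb) (nat_lit 0x0)
  (PL.C (nat_lit 0x9e6e9a7) (nat_lit 0x1d987b2b738a66) (nat_lit 0x0)
  (PL.C (nat_lit 0x9ebde59) (nat_lit 0xa0ebf4e4a07f2) (nat_lit 0x0)
  (PL.C (nat_lit 0x9f12cfa) (nat_lit 0x0) (nat_lit 0x6486ab07ebdcbb)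
  (PL.C (nat_lit 0x9f18849) (nat_lit 0x148048e71ea1c) (nat_lit 0x0)
  (PL.C (nat_lit 0x9fb8fe2) (nat_lit 0xa00d7a10220309) (nat_lit 0x0)
  (PL.C (nat_lit 0x9ffa9a2) (nat_lit 0x16db55a3edc17) (nat_lit 0x0)
  (PL.C (nat_lit 0xa03039a) (nat_lit 0x0) (nat_lit 0x308e79234653c)
  (PL.C (nat_lit 0xa07539b) (nat_lit 0x0) (nat_lit 0x14f716bf0dfa67)
  (PL.C (nat_lit 0xa0c7f0b) (nat_lit 0x266fb308cb1eeb) (nat_lit 0x0)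
  (PL.C (nat_lit 0xa12e729) (nat_lit 0x0) (nat_lit 0x10747797f54f86)
  (PL.C (nat_lit 0xa13c103) (nat_lit 0xd8563e45485fb) (nat_lit 0x0)
  (PL.C (nat_lit 0xa16c303) (nat_lit 0x122224d2b214d6) (nat_lit 0x0)
  (PL.C (nat_lit 0xa1721b7) (nat_lit 0x0) (nat_lit 0x2aeee7be462d4)
  (PL.C (nat_lit 0xa1d6d4d) (nat_lit 0x192040e6d506b2) (nat_lit 0x0)
  (PL.C (nat_lit 0xa1dc6bc) (nat_lit 0x7848ce56fa481) (nat_lit 0x0)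
  (PL.C (nat_lit 0xa2004d1) (nat_lit 0x0) (nat_lit 0x112e41438c0894)
  (PL.C (nat_lit 0xa212acc) (nat_lit 0x0) (nat_lit 0x2d9a46b3c22fe) gp4_0_80))))))))))))))))))))

noncomputable def gp4_0_78 : PL :=
  (PL.C (nat_lit 0x98e6da5) (nat_lit 0xded35a9b7fd4) (nat_lit 0x0)
  (PL.C (nat_lit 0x9909526) (nat_lit 0x124aec8b3793ea) (nat_lit 0x0)
  (PL.C (nat_lit 0x9977a0d) (nat_lit 0x9b3732a43c730) (nat_lit 0x0)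
  (PL.C (nat_lit 0x99ab119) (nat_lit 0x0) (nat_lit 0x1c65e9a82bf06)
  (PL.C (nat_lit 0x9a26e72) (nat_lit 0xfab463d09d523) (nat_lit 0x0)
  (PL.C (nat_lit 0x9a3196d) (nat_lit 0x0) (nat_lit 0x10148725c1f504)
  (PL.C (nat_lit 0x9a5a92a) (nat_lit 0x124aec8b3793ea) (nat_lit 0x0)
  (PL.C (nat_lit 0x9acdcc2) (nat_lit 0x23e9d02f3865f) (nat_lit 0x0)
  (PL.C (nat_lit 0x9ae0bd7) (nat_lit 0x0) (nat_lit 0x2910c79aa1fd4)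
  (PL.C (nat_lit 0x9baa62f) (nat_lit 0x0) (nat_lit 0x221353eb6171b)
  (PL.C (nat_lit 0x9bd1876) (nat_lit 0x0) (nat_lit 0x159c9cedb3f2ac)
  (PL.C (nat_lit 0x9c05c1e) (nat_lit 0x8ca37444bd982) (nat_lit 0x0)
  (PL.C (nat_lit 0x9c44223) (nat_lit 0x1cdc88b3b9e7f8) (nat_lit 0x0)
  (PL.C (nat_lit 0x9c48f69) (nat_lit 0x28a85ec2b15c08) (nat_lit 0x0)
  (PL.C (nat_lit 0x9c9c666) (nat_lit 0x2d85441f7d06d) (nat_lit 0x0)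
  (PL.C (nat_lit 0x9caa6da) (nat_lit 0x1298d3bf7c0e9e) (nat_lit 0x0)
  (PL.C (nat_lit 0x9cd0e4e) (nat_lit 0xb3f6281da8934) (nat_lit 0x0)
  (PL.C (nat_lit 0x9d7b49d) (nat_lit 0x8c8102b1e481b) (nat_lit 0x0)
  (PL.C (nat_lit 0x9da6d14) (nat_lit 0x0) (nat_lit 0x3d0ada3618ed78)
  (PL.C (nat_lit 0x9e170b3) (nat_lit 0x0) (nat_lit 0xfb3a6007315c3) gp4_0_79))))))))))))))))))))

noncomputable def gp4_0_77 : PL :=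
  (PL.C (nat_lit 0x945a2b9) (nat_lit 0x5a5c2c1bf67f74) (nat_lit 0x0)
  (PL.C (nat_lit 0x9477439) (nat_lit 0x1c1e12f2056645) (nat_lit 0x0)
  (PL.C (nat_lit 0x94c9ca7) (nat_lit 0x0) (nat_lit 0x39b829a5b66177)
  (PL.C (nat_lit 0x94e27e1) (nat_lit 0xfe056be289b41) (nat_lit 0x0)
  (PL.C (nat_lit 0x94ece57) (nat_lit 0x702d3f7e5a4613) (nat_lit 0x0)
  (PL.C (nat_lit 0x95167d7) (nat_lit 0x0) (nat_lit 0x14cc7a052c8db9)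
  (PL.C (nat_lit 0x952d01f) (nat_lit 0x37a66954a6084) (nat_lit 0x0)
  (PL.C (nat_lit 0x956b2f2) (nat_lit 0x0) (nat_lit 0x52befb818fa0c)
  (PL.C (nat_lit 0x95758ad) (nat_lit 0x17e2380057a49e) (nat_lit 0x0)
  (PL.C (nat_lit 0x9576914) (nat_lit 0x0) (nat_lit 0x2d1dcf9cd7b1a)
  (PL.C (nat_lit 0x95822af) (nat_lit 0xe5cc79b676aa) (nat_lit 0x0)
  (PL.C (nat_lit 0x95aecaf) (nat_lit 0x0) (nat_lit 0x20ec8ab91c0268)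
  (PL.C (nat_lit 0x960a304) (nat_lit 0xa667876ac90e7) (nat_lit 0x0)
  (PL.C (nat_lit 0x9611ae1) (nat_lit 0x1209030ded59ad) (nat_lit 0x0)
  (PL.C (nat_lit 0x9618f8e) (nat_lit 0x87b954b99f40) (nat_lit 0x0)
  (PL.C (nat_lit 0x962fd55) (nat_lit 0xe699e893c3c9b3) (nat_lit 0x0)
  (PL.C (nat_lit 0x96d0e7b) (nat_lit 0x0) (nat_lit 0x8d325e96c0518)
  (PL.C (nat_lit 0x970374f) (nat_lit 0x0) (nat_lit 0x2a781ff3dd93b)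
  (PL.C (nat_lit 0x97719a2) (nat_lit 0x0) (nat_lit 0xab74512db6e71)
  (PL.C (nat_lit 0x981628b) (nat_lit 0x5eb1f852e6e4c1) (nat_lit 0x0) gp4_0_78))))))))))))))))))))

noncomputable def gp4_0_76 : PL :=
  (PL.C (nat_lit 0x8f20c92) (nat_lit 0x0) (nat_lit 0x25d0fe17a189)
  (PL.C (nat_lit 0x8f5747c) (nat_lit 0x0) (nat_lit 0x2b17351af272e6)
  (PL.C (nat_lit 0x8f5d97d) (nat_lit 0x0) (nat_lit 0x1c2846fd841421)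
  (PL.C (nat_lit 0x8f5e6ff) (nat_lit 0x0) (nat_lit 0x821e9215e0ef)
  (PL.C (nat_lit 0x8f731ce) (nat_lit 0x87be27512f30e) (nat_lit 0x0)
  (PL.C (nat_lit 0x8fc9763) (nat_lit 0x0) (nat_lit 0xbfa8c2872482)
  (PL.C (nat_lit 0x8fe2292) (nat_lit 0x364cbf86bc2959) (nat_lit 0x0)
  (PL.C (nat_lit 0x8fed06c) (nat_lit 0x0) (nat_lit 0x32b5557b62d55a)
  (PL.C (nat_lit 0x907c78e) (nat_lit 0x0) (nat_lit 0x22a294eb4b1650)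
  (PL.C (nat_lit 0x9106545) (nat_lit 0x0) (nat_lit 0x7ec2682e5ab4a)
  (PL.C (nat_lit 0x91ca445) (nat_lit 0x0) (nat_lit 0x1d4be4c07922c7)
  (PL.C (nat_lit 0x91fd25a) (nat_lit 0x21842f583cb63) (nat_lit 0x0)
  (PL.C (nat_lit 0x92133bb) (nat_lit 0x0) (nat_lit 0xcf2bfcb9e3fee)
  (PL.C (nat_lit 0x9297b1f) (nat_lit 0x0) (nat_lit 0x265b6b24167225)
  (PL.C (nat_lit 0x9299439) (nat_lit 0x1d987b2b738a66) (nat_lit 0x0)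
  (PL.C (nat_lit 0x933269d) (nat_lit 0x0) (nat_lit 0x5ed1769c4a7a8)
  (PL.C (nat_lit 0x937e4ad) (nat_lit 0x37a66954a6084) (nat_lit 0x0)
  (PL.C (nat_lit 0x93b9a76) (nat_lit 0x0) (nat_lit 0xd3d2b3a1fc496)
  (PL.C (nat_lit 0x93e7f5e) (nat_lit 0x0) (nat_lit 0x84db53b0853b4)
  (PL.C (nat_lit 0x9414f75) (nat_lit 0x6a9dd832a166b) (nat_lit 0x0) gp4_0_77))))))))))))))))))))

noncomputable def gp4_0_75 : PL :=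
  (PL.C (nat_lit 0x897a2ef) (nat_lit 0xc7b78808e9e78) (nat_lit 0x0)
  (PL.C (nat_lit 0x89f94e6) (nat_lit 0x906ee422175f1) (nat_lit 0x0)
  (PL.C (nat_lit 0x8a182d3) (nat_lit 0x0) (nat_lit 0x62df51a72b517f)
  (PL.C (nat_lit 0x8a8d47a) (nat_lit 0x0) (nat_lit 0x3a1c28276405f)
  (PL.C (nat_lit 0x8a8f3a1) (nat_lit 0x6b90b9601c0188) (nat_lit 0x0)
  (PL.C (nat_lit 0x8acbf8b) (nat_lit 0xc2b62059b50f7) (nat_lit 0x0)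
  (PL.C (nat_lit 0x8b43a09) (nat_lit 0x0) (nat_lit 0x1a082143a5a7f2)
  (PL.C (nat_lit 0x8b59205) (nat_lit 0x658ae62ade52) (nat_lit 0x0)
  (PL.C (nat_lit 0x8b8f6fa) (nat_lit 0xca5cb21d54a7d) (nat_lit 0x0)
  (PL.C (nat_lit 0x8bb815a) (nat_lit 0x0) (nat_lit 0x22a294eb4b1650)
  (PL.C (nat_lit 0x8c97794) (nat_lit 0x8d59ac68b3592) (nat_lit 0x0)
  (PL.C (nat_lit 0x8cfccf6) (nat_lit 0x25b4da3eb6c3e) (nat_lit 0x0)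
  (PL.C (nat_lit 0x8d06957) (nat_lit 0x7270168d12609) (nat_lit 0x0)
  (PL.C (nat_lit 0x8db65cf) (nat_lit 0x17332b1b4cd738) (nat_lit 0x0)
  (PL.C (nat_lit 0x8dc8199) (nat_lit 0x0) (nat_lit 0x112975a6cd8240)
  (PL.C (nat_lit 0x8dcd4cc) (nat_lit 0x6d532bd0567cf) (nat_lit 0x0)
  (PL.C (nat_lit 0x8de80fe) (nat_lit 0x0) (nat_lit 0x7cbf83849b04c)
  (PL.C (nat_lit 0x8e58366) (nat_lit 0x0) (nat_lit 0x12b156300970ab)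
  (PL.C (nat_lit 0x8ec278e) (nat_lit 0x7902012d7c4ed) (nat_lit 0x0)
  (PL.C (nat_lit 0x8ef0dfa) (nat_lit 0x0) (nat_lit 0xd54fc107266e1) gp4_0_76))))))))))))))))))))

noncomputable def gp4_0_74 : PL :=
  (PL.C (nat_lit 0x867a3b9) (nat_lit 0x0) (nat_lit 0x72801748cdccc)
  (PL.C (nat_lit 0x8680cd1) (nat_lit 0x0) (nat_lit 0x87f3f933750b2b)
  (PL.C (nat_lit 0x86ce85e) (nat_lit 0x0) (nat_lit 0x4ae6b5869784d)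
  (PL.C (nat_lit 0x86d4aea) (nat_lit 0x0) (nat_lit 0x7764a33f782dba)
  (PL.C (nat_lit 0x86f2dbe) (nat_lit 0xe72c625db8bb) (nat_lit 0x0)
  (PL.C (nat_lit 0x872feb9) (nat_lit 0x17e2380057a49e) (nat_lit 0x0)
  (PL.C (nat_lit 0x873bc6d) (nat_lit 0x0) (nat_lit 0x2b02d443c9ca2)
  (PL.C (nat_lit 0x8740b34) (nat_lit 0x0) (nat_lit 0xc2d84a6440109)
  (PL.C (nat_lit 0x8773947) (nat_lit 0x265300a4c59166) (nat_lit 0x0)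
  (PL.C (nat_lit 0x87b65f4) (nat_lit 0xa667876ac90e7) (nat_lit 0x0)
  (PL.C (nat_lit 0x87b9677) (nat_lit 0x0) (nat_lit 0x3bd8b681fdb05e)
  (PL.C (nat_lit 0x87e6e5b) (nat_lit 0x0) (nat_lit 0x1c2846fd841421)
  (PL.C (nat_lit 0x88322af) (nat_lit 0x0) (nat_lit 0x23eaac2867edd)
  (PL.C (nat_lit 0x88490d3) (nat_lit 0x9534538c3c63b) (nat_lit 0x0)
  (PL.C (nat_lit 0x8849d5e) (nat_lit 0x6f50fe9e16d767) (nat_lit 0x0)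
  (PL.C (nat_lit 0x889e141) (nat_lit 0x216e19d83930a) (nat_lit 0x0)
  (PL.C (nat_lit 0x88bd684) (nat_lit 0x4417dcb75149e) (nat_lit 0x0)
  (PL.C (nat_lit 0x88c43c1) (nat_lit 0x0) (nat_lit 0xa3e830d89f365)
  (PL.C (nat_lit 0x890b872) (nat_lit 0x0) (nat_lit 0x2488123cf0b62)
  (PL.C (nat_lit 0x894c29b) (nat_lit 0xbd457da2dd88) (nat_lit 0x0) gp4_0_75))))))))))))))))))))

noncomputable def gp4_0_73 : PL :=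
  (PL.C (nat_lit 0x8230412) (nat_lit 0x0) (nat_lit 0x1716479d100472)
  (PL.C (nat_lit 0x824c752) (nat_lit 0x2be61cdf74f5b) (nat_lit 0x0)
  (PL.C (nat_lit 0x82b0d6a) (nat_lit 0x0) (nat_lit 0xd3d2b3a1fc496)
  (PL.C (nat_lit 0x82bbe0e) (nat_lit 0x0) (nat_lit 0x331b611da1ebe)
  (PL.C (nat_lit 0x82bdb73) (nat_lit 0x18aaa2cdba245e) (nat_lit 0x0)
  (PL.C (nat_lit 0x82c4f14) (nat_lit 0x0) (nat_lit 0x2b17351af272e6)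
  (PL.C (nat_lit 0x835308e) (nat_lit 0x1a34c9f5558a1b) (nat_lit 0x0)
  (PL.C (nat_lit 0x83b5116) (nat_lit 0x8ca37444bd982) (nat_lit 0x0)
  (PL.C (nat_lit 0x83edccd) (nat_lit 0x2a271dd6cfeeb4) (nat_lit 0x0)
  (PL.C (nat_lit 0x83fe03e) (nat_lit 0x0) (nat_lit 0x1398a6f1f139f9)
  (PL.C (nat_lit 0x843a72c) (nat_lit 0x0) (nat_lit 0x9e92ef037ffe1)
  (PL.C (nat_lit 0x851d724) (nat_lit 0x992bf5cf15694) (nat_lit 0x0)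
  (PL.C (nat_lit 0x8541bd4) (nat_lit 0x0) (nat_lit 0x8abb9fcc74373)
  (PL.C (nat_lit 0x855468f) (nat_lit 0x0) (nat_lit 0x72801748cdccc)
  (PL.C (nat_lit 0x859923f) (nat_lit 0x9534538c3c63b) (nat_lit 0x0)
  (PL.C (nat_lit 0x85ae166) (nat_lit 0x170b69a4f2f6e5) (nat_lit 0x0)
  (PL.C (nat_lit 0x85bdc83) (nat_lit 0x2847c36d5e22e2) (nat_lit 0x0)
  (PL.C (nat_lit 0x8600b7d) (nat_lit 0x0) (nat_lit 0x72fc9cdbd1993)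
  (PL.C (nat_lit 0x8642cbc) (nat_lit 0x0) (nat_lit 0x6c7c5ebba31ef)
  (PL.C (nat_lit 0x8648662) (nat_lit 0x0) (nat_lit 0x2e10656af169be) gp4_0_74))))))))))))))))))))

noncomputable def gp4_0_72 : PL :=
  (PL.C (nat_lit 0x7e04a67) (nat_lit 0x0) (nat_lit 0x39185c81dd07c)
  (PL.C (nat_lit 0x7e4c3d2) (nat_lit 0x137ed0eba449c8) (nat_lit 0x0)
  (PL.C (nat_lit 0x7e7e52b) (nat_lit 0x0) (nat_lit 0x2b02d443c9ca2)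
  (PL.C (nat_lit 0x7e89a75) (nat_lit 0x28be87329e00b9) (nat_lit 0x0)
  (PL.C (nat_lit 0x7eae825) (nat_lit 0x0) (nat_lit 0x39b829a5b66177)
  (PL.C (nat_lit 0x7ec7f69) (nat_lit 0x0) (nat_lit 0x29be956fedfad2)
  (PL.C (nat_lit 0x7f13ffa) (nat_lit 0xee2919d4043e) (nat_lit 0x0)
  (PL.C (nat_lit 0x7f4ac0e) (nat_lit 0x391575118dd783) (nat_lit 0x0)
  (PL.C (nat_lit 0x7f5581a) (nat_lit 0x265376d98d1aae) (nat_lit 0x0)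
  (PL.C (nat_lit 0x7fe7daf) (nat_lit 0x0) (nat_lit 0x21274eaebf5370)
  (PL.C (nat_lit 0x7ff07be) (nat_lit 0x0) (nat_lit 0x4234375b2f1d7f)
  (PL.C (nat_lit 0x800d1bf) (nat_lit 0x85d917478abf5c) (nat_lit 0x0)
  (PL.C (nat_lit 0x8030842) (nat_lit 0x0) (nat_lit 0xf192e911151a7)
  (PL.C (nat_lit 0x80627f7) (nat_lit 0x0) (nat_lit 0x14cc7a052c8db9)
  (PL.C (nat_lit 0x807b805) (nat_lit 0x0) (nat_lit 0x1d3549c3ee620a)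
  (PL.C (nat_lit 0x808c76c) (nat_lit 0xa5fee1c938248) (nat_lit 0x0)
  (PL.C (nat_lit 0x8101b99) (nat_lit 0x0) (nat_lit 0x2c1aa381d39f8e)
  (PL.C (nat_lit 0x812fc3e) (nat_lit 0x131550a13e3f6) (nat_lit 0x0)
  (PL.C (nat_lit 0x8136b79) (nat_lit 0x1422d8929c578e) (nat_lit 0x0)
  (PL.C (nat_lit 0x814b02e) (nat_lit 0x3f4f09a48a76d) (nat_lit 0x0) gp4_0_73))))))))))))))))))))

noncomputable def gp4_0_71 : PL :=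
  (PL.C (nat_lit 0x79e1e91) (nat_lit 0x7020799349134b) (nat_lit 0x0)
  (PL.C (nat_lit 0x7a20eae) (nat_lit 0xff8897d8684c2) (nat_lit 0x0)
  (PL.C (nat_lit 0x7a55861) (nat_lit 0x28415bc08547a9) (nat_lit 0x0)
  (PL.C (nat_lit 0x7acf314) (nat_lit 0x0) (nat_lit 0x1c3244e4a3b76f)
  (PL.C (nat_lit 0x7ae394c) (nat_lit 0x27675e46c560f) (nat_lit 0x0)
  (PL.C (nat_lit 0x7b50fde) (nat_lit 0x12f2bc22558c3c) (nat_lit 0x0)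
  (PL.C (nat_lit 0x7b631d7) (nat_lit 0x28415bc08547a9) (nat_lit 0x0)
  (PL.C (nat_lit 0x7b9b38b) (nat_lit 0x0) (nat_lit 0x4c96dbc53e574)
  (PL.C (nat_lit 0x7baeb74) (nat_lit 0x0) (nat_lit 0x23671a6b345e0)
  (PL.C (nat_lit 0x7bddd4c) (nat_lit 0x0) (nat_lit 0x1c3244e4a3b76f)
  (PL.C (nat_lit 0x7c03c2f) (nat_lit 0x0) (nat_lit 0xa19ad3689ba00)
  (PL.C (nat_lit 0x7c81e21) (nat_lit 0x6ebe1aa4fd3c2) (nat_lit 0x0)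
  (PL.C (nat_lit 0x7cab9dd) (nat_lit 0x0) (nat_lit 0x2cdbcfa041550)
  (PL.C (nat_lit 0x7caff42) (nat_lit 0x1438e32987fde8) (nat_lit 0x0)
  (PL.C (nat_lit 0x7cdb156) (nat_lit 0x0) (nat_lit 0x12b156300970ab)
  (PL.C (nat_lit 0x7cded3d) (nat_lit 0x0) (nat_lit 0x26a32a614e435)
  (PL.C (nat_lit 0x7d540dd) (nat_lit 0x0) (nat_lit 0x56fee77c36e480)
  (PL.C (nat_lit 0x7d99b83) (nat_lit 0x1209030ded59ad) (nat_lit 0x0)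
  (PL.C (nat_lit 0x7dae925) (nat_lit 0x0) (nat_lit 0x5a85a92c38f5d)
  (PL.C (nat_lit 0x7dda773) (nat_lit 0x5eb1f852e6e4c1) (nat_lit 0x0) gp4_0_72))))))))))))))))))))

noncomputable def gp4_0_70 : PL :=
  (PL.C (nat_lit 0x751ccda) (nat_lit 0xb3f6281da8934) (nat_lit 0x0)
  (PL.C (nat_lit 0x75275ec) (nat_lit 0x0) (nat_lit 0x7eb41ba0ac311)
  (PL.C (nat_lit 0x754f3fb) (nat_lit 0x1a8692c65d217) (nat_lit 0x0)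
  (PL.C (nat_lit 0x75c91b5) (nat_lit 0x0) (nat_lit 0x97f8e9fa6a198)
  (PL.C (nat_lit 0x75cf862) (nat_lit 0x28e5500b8cf269) (nat_lit 0x0)
  (PL.C (nat_lit 0x7656134) (nat_lit 0x355622c3125a27) (nat_lit 0x0)
  (PL.C (nat_lit 0x7703f4e) (nat_lit 0x0) (nat_lit 0x4bb393e23a439)
  (PL.C (nat_lit 0x771b22a) (nat_lit 0xc0a5e0de6326a) (nat_lit 0x0)
  (PL.C (nat_lit 0x772bd96) (nat_lit 0x21842f583cb63) (nat_lit 0x0)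
  (PL.C (nat_lit 0x7751073) (nat_lit 0x17eb8f6f57b934) (nat_lit 0x0)
  (PL.C (nat_lit 0x7799397) (nat_lit 0x111804e13c5a78) (nat_lit 0x0)
  (PL.C (nat_lit 0x77a353d) (nat_lit 0xe5cc79b676aa) (nat_lit 0x0)
  (PL.C (nat_lit 0x781c00a) (nat_lit 0x0) (nat_lit 0x58d012f2b98191)
  (PL.C (nat_lit 0x782937e) (nat_lit 0x0) (nat_lit 0x84db53b0853b4)
  (PL.C (nat_lit 0x78b861a) (nat_lit 0x53c07d3d1293f) (nat_lit 0x0)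
  (PL.C (nat_lit 0x790693b) (nat_lit 0x0) (nat_lit 0x821e9215e0ef)
  (PL.C (nat_lit 0x792f9d2) (nat_lit 0x0) (nat_lit 0x149e7a31293970)
  (PL.C (nat_lit 0x793b8df) (nat_lit 0x0) (nat_lit 0x29f742422c3f)
  (PL.C (nat_lit 0x7975c5a) (nat_lit 0x391575118dd783) (nat_lit 0x0)
  (PL.C (nat_lit 0x797ef1c) (nat_lit 0x0) (nat_lit 0x32b5557b62d55a) gp4_0_71))))))))))))))))))))

noncomputable def gp4_0_69 : PL :=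
  (PL.C (nat_lit 0x7261f0e) (nat_lit 0x64a9675a5e7e3) (nat_lit 0x0)
  (PL.C (nat_lit 0x7292893) (nat_lit 0x0) (nat_lit 0x3515881ad78b0)
  (PL.C (nat_lit 0x729de57) (nat_lit 0x0) (nat_lit 0xf7454b1b1dbf)
  (PL.C (nat_lit 0x72b3e34) (nat_lit 0x0) (nat_lit 0x41fc00ad7fae4)
  (PL.C (nat_lit 0x72b8f07) (nat_lit 0x0) (nat_lit 0x1149c8ee90398d)
  (PL.C (nat_lit 0x72f87ab) (nat_lit 0x0) (nat_lit 0x6da0ffb2b2dfdc)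
  (PL.C (nat_lit 0x730c756) (nat_lit 0x0) (nat_lit 0x33a165761e8d7a)
  (PL.C (nat_lit 0x7323056) (nat_lit 0x0) (nat_lit 0x2e10656af169be)
  (PL.C (nat_lit 0x734e4df) (nat_lit 0x0) (nat_lit 0x2a781ff3dd93b)
  (PL.C (nat_lit 0x7373c85) (nat_lit 0x1089721051d2ab) (nat_lit 0x0)
  (PL.C (nat_lit 0x739a7b1) (nat_lit 0x0) (nat_lit 0xcf7503193e18)
  (PL.C (nat_lit 0x739e80a) (nat_lit 0x4ec54bb652ce6) (nat_lit 0x0)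
  (PL.C (nat_lit 0x73a0209) (nat_lit 0x0) (nat_lit 0x47f581fbee6b49)
  (PL.C (nat_lit 0x73c67ee) (nat_lit 0x4a0aea9b0c53b5) (nat_lit 0x0)
  (PL.C (nat_lit 0x73f3a31) (nat_lit 0xde8334a66b908) (nat_lit 0x0)
  (PL.C (nat_lit 0x7436ab1) (nat_lit 0x0) (nat_lit 0x30dd04b9c92e97)
  (PL.C (nat_lit 0x7466f54) (nat_lit 0x0) (nat_lit 0x11926ef17033e1)
  (PL.C (nat_lit 0x7478afe) (nat_lit 0x0) (nat_lit 0x27f16cc414c4cf)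
  (PL.C (nat_lit 0x74b34df) (nat_lit 0x0) (nat_lit 0x17d188fac3915a)
  (PL.C (nat_lit 0x74f73e5) (nat_lit 0x0) (nat_lit 0x56fee77c36e480) gp4_0_70))))))))))))))))))))

noncomputable def gp4_0_68 : PL :=
  (PL.C (nat_lit 0x6d3e1aa) (nat_lit 0x0) (nat_lit 0x15cc89cde2f698)
  (PL.C (nat_lit 0x6de63da) (nat_lit 0xc0a5e0de6326a) (nat_lit 0x0)
  (PL.C (nat_lit 0x6dfba4e) (nat_lit 0x15f6fddf265a00) (nat_lit 0x0)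
  (PL.C (nat_lit 0x6e14407) (nat_lit 0x26303a7b8618ca) (nat_lit 0x0)
  (PL.C (nat_lit 0x6e45834) (nat_lit 0x0) (nat_lit 0x8abb9fcc74373)
  (PL.C (nat_lit 0x6e52c92) (nat_lit 0xb1c61dbfdb3c6) (nat_lit 0x0)
  (PL.C (nat_lit 0x6e5da7f) (nat_lit 0x0) (nat_lit 0x389a6f01cea8fd)
  (PL.C (nat_lit 0x6e71992) (nat_lit 0x0) (nat_lit 0x2da61d219e560)
  (PL.C (nat_lit 0x6eb0b21) (nat_lit 0x1089721051d2ab) (nat_lit 0x0)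
  (PL.C (nat_lit 0x6edbb46) (nat_lit 0x25fbf536dac1f2) (nat_lit 0x0)
  (PL.C (nat_lit 0x6f14171) (nat_lit 0x0) (nat_lit 0xf578a647cd5d7)
  (PL.C (nat_lit 0x6f9f0dc) (nat_lit 0x0) (nat_lit 0x23671a6b345e0)
  (PL.C (nat_lit 0x700e832) (nat_lit 0x43b97aa1052e81) (nat_lit 0x0)
  (PL.C (nat_lit 0x70394c7) (nat_lit 0x7275354e64ae5) (nat_lit 0x0)
  (PL.C (nat_lit 0x7062a1e) (nat_lit 0x25458a1f9fb19) (nat_lit 0x0)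
  (PL.C (nat_lit 0x70a0682) (nat_lit 0x0) (nat_lit 0xfc331105129a3)
  (PL.C (nat_lit 0x70c717b) (nat_lit 0x0) (nat_lit 0x2aeee7be462d4)
  (PL.C (nat_lit 0x70d99b5) (nat_lit 0x0) (nat_lit 0x1ff4b1ff85abf3)
  (PL.C (nat_lit 0x70e2fcc) (nat_lit 0x27c76c8645333c) (nat_lit 0x0)
  (PL.C (nat_lit 0x713741c) (nat_lit 0x0) (nat_lit 0x2d9a46b3c22fe) gp4_0_69))))))))))))))))))))

noncomputable def gp4_0_67 : PL :=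
  (PL.C (nat_lit 0x69d3ee6) (nat_lit 0x1298d3bf7c0e9e) (nat_lit 0x0)
  (PL.C (nat_lit 0x6a10586) (nat_lit 0xee2919d4043e) (nat_lit 0x0)
  (PL.C (nat_lit 0x6a11d5f) (nat_lit 0x66df944e5024e) (nat_lit 0x0)
  (PL.C (nat_lit 0x6a3d67f) (nat_lit 0x979a6b64a4ced) (nat_lit 0x0)
  (PL.C (nat_lit 0x6a61043) (nat_lit 0x0) (nat_lit 0x8f2d9a766a576)
  (PL.C (nat_lit 0x6a9bef7) (nat_lit 0x4a26c7465d7f7) (nat_lit 0x0)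
  (PL.C (nat_lit 0x6af8d12) (nat_lit 0x0) (nat_lit 0x7764a33f782dba)
  (PL.C (nat_lit 0x6b58415) (nat_lit 0x0) (nat_lit 0x1c65e9a82bf06)
  (PL.C (nat_lit 0x6b744c6) (nat_lit 0x364cbf86bc2959) (nat_lit 0x0)
  (PL.C (nat_lit 0x6b7d602) (nat_lit 0x265376d98d1aae) (nat_lit 0x0)
  (PL.C (nat_lit 0x6ba167a) (nat_lit 0x5bdba5fd4dd1b) (nat_lit 0x0)
  (PL.C (nat_lit 0x6be48de) (nat_lit 0x170b69a4f2f6e5) (nat_lit 0x0)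
  (PL.C (nat_lit 0x6bf8eab) (nat_lit 0x0) (nat_lit 0x1634ccca4a5bb9)
  (PL.C (nat_lit 0x6c00336) (nat_lit 0x0) (nat_lit 0x4234375b2f1d7f)
  (PL.C (nat_lit 0x6c3afdc) (nat_lit 0x43dc3b1225c7ca) (nat_lit 0x0)
  (PL.C (nat_lit 0x6c758d9) (nat_lit 0x9f3a4c1c2d8c20) (nat_lit 0x0)
  (PL.C (nat_lit 0x6cc7287) (nat_lit 0x0) (nat_lit 0xa19ad3689ba00)
  (PL.C (nat_lit 0x6ce6dbd) (nat_lit 0x167a668f75639e) (nat_lit 0x0)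
  (PL.C (nat_lit 0x6cff3b7) (nat_lit 0x0) (nat_lit 0x5a85a92c38f5d)
  (PL.C (nat_lit 0x6d0f27a) (nat_lit 0x0) (nat_lit 0x33a165761e8d7a) gp4_0_68))))))))))))))))))))

noncomputable def gp4_0_66 : PL :=
  (PL.C (nat_lit 0x669201b) (nat_lit 0x0) (nat_lit 0x1d77634decf510)
  (PL.C (nat_lit 0x66a3d85) (nat_lit 0x1cdcaf08a55c7) (nat_lit 0x0)
  (PL.C (nat_lit 0x66cbb9e) (nat_lit 0x0) (nat_lit 0x149ec45da9879c)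
  (PL.C (nat_lit 0x66d011f) (nat_lit 0x0) (nat_lit 0xf5adb03415766)
  (PL.C (nat_lit 0x66d8c15) (nat_lit 0xe0ff0b796f0ce) (nat_lit 0x0)
  (PL.C (nat_lit 0x6741d1d) (nat_lit 0x0) (nat_lit 0x25feaf9717ea)
  (PL.C (nat_lit 0x67c6eca) (nat_lit 0x23d56f07d0710) (nat_lit 0x0)
  (PL.C (nat_lit 0x682d6c2) (nat_lit 0x0) (nat_lit 0x1aa8fd9efb64a)
  (PL.C (nat_lit 0x6830a46) (nat_lit 0x25fbf536dac1f2) (nat_lit 0x0)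
  (PL.C (nat_lit 0x6857cf7) (nat_lit 0x0) (nat_lit 0x2cdbcfa041550)
  (PL.C (nat_lit 0x6868444) (nat_lit 0x0) (nat_lit 0x9e92ef037ffe1)
  (PL.C (nat_lit 0x688b434) (nat_lit 0x450ecaaa486b5) (nat_lit 0x0)
  (PL.C (nat_lit 0x6893607) (nat_lit 0x6c11762ab2238) (nat_lit 0x0)
  (PL.C (nat_lit 0x68fcdbe) (nat_lit 0x144a3b1b2f9843) (nat_lit 0x0)
  (PL.C (nat_lit 0x691a865) (nat_lit 0x0) (nat_lit 0x1bc3e90827013)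
  (PL.C (nat_lit 0x693dc11) (nat_lit 0x0) (nat_lit 0x4c96dbc53e574)
  (PL.C (nat_lit 0x6964b22) (nat_lit 0xb850cb6c791b1) (nat_lit 0x0)
  (PL.C (nat_lit 0x6965d2e) (nat_lit 0x231940a6e2f23f) (nat_lit 0x0)
  (PL.C (nat_lit 0x699f11a) (nat_lit 0x25917fe355c9f2) (nat_lit 0x0)
  (PL.C (nat_lit 0x69cbf11) (nat_lit 0x6b90b9601c0188) (nat_lit 0x0) gp4_0_67))))))))))))))))))))

noncomputable def gp4_0_65 : PL :=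
  (PL.C (nat_lit 0x628369b) (nat_lit 0x0) (nat_lit 0x1ff4b1ff85abf3)
  (PL.C (nat_lit 0x62a46ef) (nat_lit 0x2376d5904c7bd7) (nat_lit 0x0)
  (PL.C (nat_lit 0x62b8a4e) (nat_lit 0x0) (nat_lit 0xd379505aee54)
  (PL.C (nat_lit 0x62bcc39) (nat_lit 0x1c1e12f2056645) (nat_lit 0x0)
  (PL.C (nat_lit 0x631f627) (nat_lit 0xf66916f9c7aea) (nat_lit 0x0)
  (PL.C (nat_lit 0x633131a) (nat_lit 0x5f2e6fe6eb37b8) (nat_lit 0x0)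
  (PL.C (nat_lit 0x6341a96) (nat_lit 0x40906758bae19) (nat_lit 0x0)
  (PL.C (nat_lit 0x636453a) (nat_lit 0x0) (nat_lit 0x10f7981b1f07ee)
  (PL.C (nat_lit 0x637356a) (nat_lit 0x0) (nat_lit 0x114b04c9e9e86d)
  (PL.C (nat_lit 0x63a3b1e) (nat_lit 0x0) (nat_lit 0xada0dc9ecb503)
  (PL.C (nat_lit 0x63ac1ca) (nat_lit 0x6c842388ad36) (nat_lit 0x0)
  (PL.C (nat_lit 0x63c9dca) (nat_lit 0x0) (nat_lit 0x3542a0c9947ecb)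
  (PL.C (nat_lit 0x640bc96) (nat_lit 0x77283c2b86b65) (nat_lit 0x0)
  (PL.C (nat_lit 0x648b452) (nat_lit 0x0) (nat_lit 0x1716479d100472)
  (PL.C (nat_lit 0x64acf8a) (nat_lit 0x0) (nat_lit 0x3fd6dfdd3c90)
  (PL.C (nat_lit 0x64d8563) (nat_lit 0x0) (nat_lit 0x35b045feff51f6)
  (PL.C (nat_lit 0x64f666c) (nat_lit 0x4417dcb75149e) (nat_lit 0x0)
  (PL.C (nat_lit 0x652016d) (nat_lit 0x6c11762ab2238) (nat_lit 0x0)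
  (PL.C (nat_lit 0x65641b2) (nat_lit 0x0) (nat_lit 0x1daab20cf24ea3)
  (PL.C (nat_lit 0x65e05a5) (nat_lit 0x0) (nat_lit 0x4d7f3fe122e51) gp4_0_66))))))))))))))))))))

noncomputable def gp4_0_64 : PL :=
  (PL.C (nat_lit 0x5f4b3fc) (nat_lit 0x43dc3b1225c7ca) (nat_lit 0x0)
  (PL.C (nat_lit 0x5f6b30c) (nat_lit 0x7b3a4874b84d4) (nat_lit 0x0)
  (PL.C (nat_lit 0x5f944aa) (nat_lit 0x0) (nat_lit 0x43f87b379b5b85)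
  (PL.C (nat_lit 0x5fa2134) (nat_lit 0x0) (nat_lit 0x7eb41ba0ac311)
  (PL.C (nat_lit 0x5fdba42) (nat_lit 0x0) (nat_lit 0x25d0fe17a189)
  (PL.C (nat_lit 0x60189dd) (nat_lit 0x0) (nat_lit 0x27e51370cf6b6)
  (PL.C (nat_lit 0x6020bbf) (nat_lit 0x0) (nat_lit 0x33b3c5a1da1af)
  (PL.C (nat_lit 0x6052fb4) (nat_lit 0x154634db3e035c) (nat_lit 0x0)
  (PL.C (nat_lit 0x60aee2e) (nat_lit 0x0) (nat_lit 0x7cbf83849b04c)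
  (PL.C (nat_lit 0x60d7f63) (nat_lit 0x0) (nat_lit 0x9f9c25c6cc07b)
  (PL.C (nat_lit 0x6102ecd) (nat_lit 0xc34f853678428) (nat_lit 0x0)
  (PL.C (nat_lit 0x610d997) (nat_lit 0x0) (nat_lit 0x35b045feff51f6)
  (PL.C (nat_lit 0x613182e) (nat_lit 0x0) (nat_lit 0x6486ab07ebdcbb)
  (PL.C (nat_lit 0x619b1ed) (nat_lit 0x2360b6c4dd7ea13) (nat_lit 0x0)
  (PL.C (nat_lit 0x61ba76a) (nat_lit 0xff8897d8684c2) (nat_lit 0x0)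
  (PL.C (nat_lit 0x61bb826) (nat_lit 0x25917fe355c9f2) (nat_lit 0x0)
  (PL.C (nat_lit 0x61e48f3) (nat_lit 0x0) (nat_lit 0x10148725c1f504)
  (PL.C (nat_lit 0x621a335) (nat_lit 0x0) (nat_lit 0x3e8bb25ed644f4)
  (PL.C (nat_lit 0x62219be) (nat_lit 0x0) (nat_lit 0x18452656bd5cac)
  (PL.C (nat_lit 0x625431e) (nat_lit 0x0) (nat_lit 0x114b04c9e9e86d) gp4_0_65))))))))))))))))))))

noncomputable def gp4_0_63 : PL :=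
  (PL.C (nat_lit 0x5c02ad3) (nat_lit 0xfe056be289b41) (nat_lit 0x0)
  (PL.C (nat_lit 0x5c101e2) (nat_lit 0x6f50fe9e16d767) (nat_lit 0x0)
  (PL.C (nat_lit 0x5c5e2fc) (nat_lit 0x0) (nat_lit 0x2d1dcf9cd7b1a)
  (PL.C (nat_lit 0x5c87fb2) (nat_lit 0x0) (nat_lit 0x149e7a31293970)
  (PL.C (nat_lit 0x5cd7c06) (nat_lit 0x0) (nat_lit 0x12510e533ec940)
  (PL.C (nat_lit 0x5cec863) (nat_lit 0x760bc7a7691c31) (nat_lit 0x0)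
  (PL.C (nat_lit 0x5d2563c) (nat_lit 0x154634db3e035c) (nat_lit 0x0)
  (PL.C (nat_lit 0x5d41e9b) (nat_lit 0x0) (nat_lit 0xb2722ebf94cef)
  (PL.C (nat_lit 0x5d70965) (nat_lit 0x0) (nat_lit 0xa3e830d89f365)
  (PL.C (nat_lit 0x5d82c8f) (nat_lit 0x1125b461f08d32) (nat_lit 0x0)
  (PL.C (nat_lit 0x5d9e095) (nat_lit 0x0) (nat_lit 0xdfec9b4d86339)
  (PL.C (nat_lit 0x5e0463a) (nat_lit 0x0) (nat_lit 0x441711da048c5)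
  (PL.C (nat_lit 0x5e12b57) (nat_lit 0x0) (nat_lit 0x1a082143a5a7f2)
  (PL.C (nat_lit 0x5e41ca9) (nat_lit 0x0) (nat_lit 0xcd22206a7da87)
  (PL.C (nat_lit 0x5e77999) (nat_lit 0xadd115b989cfe) (nat_lit 0x0)
  (PL.C (nat_lit 0x5e85666) (nat_lit 0x0) (nat_lit 0x169b0efab8d715)
  (PL.C (nat_lit 0x5e9ab54) (nat_lit 0x0) (nat_lit 0xbebf8a1b6b1d3)
  (PL.C (nat_lit 0x5ea120f) (nat_lit 0x0) (nat_lit 0x45cb987b60045)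
  (PL.C (nat_lit 0x5f279d9) (nat_lit 0x0) (nat_lit 0xa9d937dc3c650)
  (PL.C (nat_lit 0x5f43549) (nat_lit 0x0) (nat_lit 0x17d188fac3915a) gp4_0_64))))))))))))))))))))

noncomputable def gp4_0_62 : PL :=
  (PL.C (nat_lit 0x594f115) (nat_lit 0x5bb4f7e28e495) (nat_lit 0x0)
  (PL.C (nat_lit 0x5955cfe) (nat_lit 0x0) (nat_lit 0xbdcdc445be2ca)
  (PL.C (nat_lit 0x598a11b) (nat_lit 0x0) (nat_lit 0xeb33deead19bd)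
  (PL.C (nat_lit 0x59a6d26) (nat_lit 0x0) (nat_lit 0x9ae3ef202f0b3)
  (PL.C (nat_lit 0x59ab336) (nat_lit 0x43b97aa1052e81) (nat_lit 0x0)
  (PL.C (nat_lit 0x59cce8f) (nat_lit 0x0) (nat_lit 0x39185c81dd07c)
  (PL.C (nat_lit 0x59cd705) (nat_lit 0x7275354e64ae5) (nat_lit 0x0)
  (PL.C (nat_lit 0x59f73d4) (nat_lit 0x27675e46c560f) (nat_lit 0x0)
  (PL.C (nat_lit 0x5a1ff26) (nat_lit 0x0) (nat_lit 0xada0dc9ecb503)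
  (PL.C (nat_lit 0x5a27d9e) (nat_lit 0x0) (nat_lit 0x31cffd40b6624)
  (PL.C (nat_lit 0x5a4d0da) (nat_lit 0xa00d7a10220309) (nat_lit 0x0)
  (PL.C (nat_lit 0x5a81e01) (nat_lit 0xaf430e92381630) (nat_lit 0x0)
  (PL.C (nat_lit 0x5aac7e7) (nat_lit 0x0) (nat_lit 0xf578a647cd5d7)
  (PL.C (nat_lit 0x5acc1ca) (nat_lit 0x0) (nat_lit 0xd345ebb40d868)
  (PL.C (nat_lit 0x5adb5e2) (nat_lit 0xd8a8cbccf83ad) (nat_lit 0x0)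
  (PL.C (nat_lit 0x5af7b69) (nat_lit 0x24983ee9643fd7) (nat_lit 0x0)
  (PL.C (nat_lit 0x5b140d6) (nat_lit 0x0) (nat_lit 0x47fd62581fdbc5)
  (PL.C (nat_lit 0x5b2d7d6) (nat_lit 0x0) (nat_lit 0xeb1ad88ab7c70)
  (PL.C (nat_lit 0x5b5d04c) (nat_lit 0x27c76c8645333c) (nat_lit 0x0)
  (PL.C (nat_lit 0x5b72d6b) (nat_lit 0xf9d91f860ab1f) (nat_lit 0x0) gp4_0_63))))))))))))))))))))

noncomputable def gp4_0_61 : PL :=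
  (PL.C (nat_lit 0x5596ffa) (nat_lit 0x0) (nat_lit 0x10f7981b1f07ee)
  (PL.C (nat_lit 0x55a7aae) (nat_lit 0x0) (nat_lit 0x3dd84b02cca53d)
  (PL.C (nat_lit 0x5601266) (nat_lit 0x0) (nat_lit 0x18e688ffb822b5)
  (PL.C (nat_lit 0x561cb55) (nat_lit 0x0) (nat_lit 0x59588df7e56d)
  (PL.C (nat_lit 0x56247a6) (nat_lit 0x12f2bc22558c3c) (nat_lit 0x0)
  (PL.C (nat_lit 0x56ca3db) (nat_lit 0x0) (nat_lit 0x3e8bb25ed644f4)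
  (PL.C (nat_lit 0x56d1929) (nat_lit 0xa8402e07a10c4) (nat_lit 0x0)
  (PL.C (nat_lit 0x56eeac5) (nat_lit 0x0) (nat_lit 0x6c7e9f33efa73)
  (PL.C (nat_lit 0x5727eb4) (nat_lit 0x11ab9f33d7e866) (nat_lit 0x0)
  (PL.C (nat_lit 0x573b3d3) (nat_lit 0xa9fe1b75eb1e87) (nat_lit 0x0)
  (PL.C (nat_lit 0x5793f3d) (nat_lit 0x17332b1b4cd738) (nat_lit 0x0)
  (PL.C (nat_lit 0x57f3dde) (nat_lit 0x1a34c9f5558a1b) (nat_lit 0x0)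
  (PL.C (nat_lit 0x57fead4) (nat_lit 0x0) (nat_lit 0x84dbd9dff5929)
  (PL.C (nat_lit 0x583c01d) (nat_lit 0x0) (nat_lit 0x14abf099e6aa0)
  (PL.C (nat_lit 0x5855b4d) (nat_lit 0x1a1bb3336e3b9) (nat_lit 0x0)
  (PL.C (nat_lit 0x58c3cf5) (nat_lit 0x0) (nat_lit 0x22a08b0b2a3855)
  (PL.C (nat_lit 0x58e2f0a) (nat_lit 0x0) (nat_lit 0x9ae3ef202f0b3)
  (PL.C (nat_lit 0x5910c2a) (nat_lit 0xd8a8cbccf83ad) (nat_lit 0x0)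
  (PL.C (nat_lit 0x591b7b1) (nat_lit 0x17eb8f6f57b934) (nat_lit 0x0)
  (PL.C (nat_lit 0x5929302) (nat_lit 0x4a0aea9b0c53b5) (nat_lit 0x0) gp4_0_62))))))))))))))))))))

noncomputable def gp4_0_60 : PL :=
  (PL.C (nat_lit 0x531d13e) (nat_lit 0x0) (nat_lit 0x95f871a1ead3)
  (PL.C (nat_lit 0x533f37e) (nat_lit 0x0) (nat_lit 0x5ea6cc5ed6384)
  (PL.C (nat_lit 0x53bbd02) (nat_lit 0x77283c2b86b65) (nat_lit 0x0)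
  (PL.C (nat_lit 0x53c9b6e) (nat_lit 0x0) (nat_lit 0xa24b5e6a53d52)
  (PL.C (nat_lit 0x53e6fa2) (nat_lit 0x0) (nat_lit 0x1daab20cf24ea3)
  (PL.C (nat_lit 0x540319a) (nat_lit 0x3ce1737803c25c) (nat_lit 0x0)
  (PL.C (nat_lit 0x542749b) (nat_lit 0xc581c4a223521) (nat_lit 0x0)
  (PL.C (nat_lit 0x5454372) (nat_lit 0x0) (nat_lit 0x31cffd40b6624)
  (PL.C (nat_lit 0x545bc4e) (nat_lit 0x39d3ed334ada1) (nat_lit 0x0)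
  (PL.C (nat_lit 0x5464113) (nat_lit 0x0) (nat_lit 0x5358320ea76a7)
  (PL.C (nat_lit 0x547456e) (nat_lit 0x5f2e6fe6eb37b8) (nat_lit 0x0)
  (PL.C (nat_lit 0x54b7ffc) (nat_lit 0x65ea79f50ef96) (nat_lit 0x0)
  (PL.C (nat_lit 0x54cc3b7) (nat_lit 0x0) (nat_lit 0x11bfa20f3757e)
  (PL.C (nat_lit 0x54e3abc) (nat_lit 0x0) (nat_lit 0x328f1ed873ad39)
  (PL.C (nat_lit 0x55039ad) (nat_lit 0x180421054ca1d8) (nat_lit 0x0)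
  (PL.C (nat_lit 0x552102f) (nat_lit 0x0) (nat_lit 0x6da0ffb2b2dfdc)
  (PL.C (nat_lit 0x55453ca) (nat_lit 0x0) (nat_lit 0x1b0dd71527f609)
  (PL.C (nat_lit 0x554afd4) (nat_lit 0x0) (nat_lit 0x1bdf6de2f6cc10)
  (PL.C (nat_lit 0x55519bf) (nat_lit 0x0) (nat_lit 0xb2722ebf94cef)
  (PL.C (nat_lit 0x555e12a) (nat_lit 0x0) (nat_lit 0x81826774221aec) gp4_0_61))))))))))))))))))))

noncomputable def gp4_0_59 : PL :=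
  (PL.C (nat_lit 0x507a5e7) (nat_lit 0x0) (nat_lit 0x1a33f5346fcb10)
  (PL.C (nat_lit 0x507aebc) (nat_lit 0x0) (nat_lit 0xae9410c657452)
  (PL.C (nat_lit 0x50812ad) (nat_lit 0x1ed77be526e69) (nat_lit 0x0)
  (PL.C (nat_lit 0x50af0d2) (nat_lit 0x0) (nat_lit 0x43f87b379b5b85)
  (PL.C (nat_lit 0x50ca68c) (nat_lit 0x2e8bf439ff564) (nat_lit 0x0)
  (PL.C (nat_lit 0x50d25ea) (nat_lit 0x0) (nat_lit 0x7e28cf57d425c)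
  (PL.C (nat_lit 0x50deadf) (nat_lit 0x0) (nat_lit 0x3712972172a9e6)
  (PL.C (nat_lit 0x511ec11) (nat_lit 0x0) (nat_lit 0x6dea9025a1fa6)
  (PL.C (nat_lit 0x5135691) (nat_lit 0x0) (nat_lit 0x22a08b0b2a3855)
  (PL.C (nat_lit 0x516b474) (nat_lit 0x0) (nat_lit 0x423d0d478e067)
  (PL.C (nat_lit 0x518e596) (nat_lit 0x5092dc23a63fa) (nat_lit 0x0)
  (PL.C (nat_lit 0x51e48c1) (nat_lit 0x1e54cdc294c2c7) (nat_lit 0x0)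
  (PL.C (nat_lit 0x524213a) (nat_lit 0x5092dc23a63fa) (nat_lit 0x0)
  (PL.C (nat_lit 0x5265061) (nat_lit 0x0) (nat_lit 0x47f581fbee6b49)
  (PL.C (nat_lit 0x52677b2) (nat_lit 0x0) (nat_lit 0xcce2b2cf39563)
  (PL.C (nat_lit 0x52a2e07) (nat_lit 0x1d2ba74698bf79) (nat_lit 0x0)
  (PL.C (nat_lit 0x52ad2ca) (nat_lit 0x0) (nat_lit 0x1281f20584a7ff)
  (PL.C (nat_lit 0x52d04c9) (nat_lit 0x0) (nat_lit 0xf5adb03415766)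
  (PL.C (nat_lit 0x5301416) (nat_lit 0x28e5500b8cf269) (nat_lit 0x0)
  (PL.C (nat_lit 0x5307027) (nat_lit 0x1adf256f22e59d) (nat_lit 0x0) gp4_0_60))))))))))))))))))))

noncomputable def gp4_0_58 : PL :=
  (PL.C (nat_lit 0x4d32657) (nat_lit 0x0) (nat_lit 0x22c1f8f086b818)
  (PL.C (nat_lit 0x4d32d9d) (nat_lit 0x0) (nat_lit 0x3fb35a0a8790d)
  (PL.C (nat_lit 0x4d4d176) (nat_lit 0x154a74b03d7e51) (nat_lit 0x0)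
  (PL.C (nat_lit 0x4d79c76) (nat_lit 0x4dad6c82a5f347) (nat_lit 0x0)
  (PL.C (nat_lit 0x4dccdea) (nat_lit 0x0) (nat_lit 0x265dbff920cfb9)
  (PL.C (nat_lit 0x4dfcf5b) (nat_lit 0x0) (nat_lit 0xa6cf47078da3)
  (PL.C (nat_lit 0x4e1333c) (nat_lit 0x450ecaaa486b5) (nat_lit 0x0)
  (PL.C (nat_lit 0x4e34d52) (nat_lit 0x0) (nat_lit 0x1398a6f1f139f9)
  (PL.C (nat_lit 0x4e809af) (nat_lit 0x9f3a4c1c2d8c20) (nat_lit 0x0)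
  (PL.C (nat_lit 0x4ea7e51) (nat_lit 0x24619d21479ff2) (nat_lit 0x0)
  (PL.C (nat_lit 0x4ed4cc1) (nat_lit 0x7270168d12609) (nat_lit 0x0)
  (PL.C (nat_lit 0x4ef010b) (nat_lit 0x0) (nat_lit 0x20e51d9128f028)
  (PL.C (nat_lit 0x4f698f3) (nat_lit 0xa6cace0c66837) (nat_lit 0x0)
  (PL.C (nat_lit 0x4f8b5a2) (nat_lit 0xc58b796aac3d8) (nat_lit 0x0)
  (PL.C (nat_lit 0x4fbb7ba) (nat_lit 0x0) (nat_lit 0xfc331105129a3)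
  (PL.C (nat_lit 0x4fc237e) (nat_lit 0x6c842388ad36) (nat_lit 0x0)
  (PL.C (nat_lit 0x4fe1c8b) (nat_lit 0x4300d9e3aa3c7f) (nat_lit 0x0)
  (PL.C (nat_lit 0x502b303) (nat_lit 0x87cc4265dfe05) (nat_lit 0x0)
  (PL.C (nat_lit 0x5030ca5) (nat_lit 0x5a5c2c1bf67f74) (nat_lit 0x0)
  (PL.C (nat_lit 0x50534fd) (nat_lit 0x137e58fcf5c3cb) (nat_lit 0x0) gp4_0_59))))))))))))))))))))

noncomputable def gp4_0_57 : PL :=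
  (PL.C (nat_lit 0x4a5bc99) (nat_lit 0x760bc7a7691c31) (nat_lit 0x0)
  (PL.C (nat_lit 0x4a9be43) (nat_lit 0x0) (nat_lit 0x25d4967b5ace23)
  (PL.C (nat_lit 0x4ad0dda) (nat_lit 0x16e41f9c061726) (nat_lit 0x0)
  (PL.C (nat_lit 0x4afd07b) (nat_lit 0x666874fed3bda) (nat_lit 0x0)
  (PL.C (nat_lit 0x4b159ac) (nat_lit 0x0) (nat_lit 0x402ccbb2296b1)
  (PL.C (nat_lit 0x4b2f652) (nat_lit 0x5bdba5fd4dd1b) (nat_lit 0x0)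
  (PL.C (nat_lit 0x4b3bbce) (nat_lit 0x11f1bed07f1d4) (nat_lit 0x0)
  (PL.C (nat_lit 0x4b95cc7) (nat_lit 0xc581c4a223521) (nat_lit 0x0)
  (PL.C (nat_lit 0x4befda5) (nat_lit 0x197d7830817de6) (nat_lit 0x0)
  (PL.C (nat_lit 0x4c414b4) (nat_lit 0x0) (nat_lit 0xc2d84a6440109)
  (PL.C (nat_lit 0x4c4e80d) (nat_lit 0x0) (nat_lit 0xaa3d13a75537e)
  (PL.C (nat_lit 0x4c66fc5) (nat_lit 0x1bca529e425092) (nat_lit 0x0)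
  (PL.C (nat_lit 0x4c6943a) (nat_lit 0x0) (nat_lit 0x544ec4fdc8f53)
  (PL.C (nat_lit 0x4ca5a72) (nat_lit 0x6824cc33ba651) (nat_lit 0x0)
  (PL.C (nat_lit 0x4cc7f8b) (nat_lit 0xde8334a66b908) (nat_lit 0x0)
  (PL.C (nat_lit 0x4cdedea) (nat_lit 0x0) (nat_lit 0x3fd6dfdd3c90)
  (PL.C (nat_lit 0x4cf7dae) (nat_lit 0x12b953148a3700) (nat_lit 0x0)
  (PL.C (nat_lit 0x4d11a76) (nat_lit 0x0) (nat_lit 0x2d8b722e04563)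
  (PL.C (nat_lit 0x4d1455c) (nat_lit 0x0) (nat_lit 0x11926ef17033e1)
  (PL.C (nat_lit 0x4d2eff4) (nat_lit 0x3a50e9e796dac3) (nat_lit 0x0) gp4_0_58))))))))))))))))))))

noncomputable def gp4_0_56 : PL :=
  (PL.C (nat_lit 0x4850f67) (nat_lit 0x1cdcaf08a55c7) (nat_lit 0x0)
  (PL.C (nat_lit 0x486cbd3) (nat_lit 0x1bca529e425092) (nat_lit 0x0)
  (PL.C (nat_lit 0x4884c5a) (nat_lit 0x0) (nat_lit 0x1281f20584a7ff)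
  (PL.C (nat_lit 0x4899e7e) (nat_lit 0xe12c6f05905c09) (nat_lit 0x0)
  (PL.C (nat_lit 0x48aa27a) (nat_lit 0x0) (nat_lit 0xa24b5e6a53d52)
  (PL.C (nat_lit 0x48cb08b) (nat_lit 0x4fbd871d8f60c9) (nat_lit 0x0)
  (PL.C (nat_lit 0x48d411c) (nat_lit 0xc21b3efa34694) (nat_lit 0x0)
  (PL.C (nat_lit 0x48ef775) (nat_lit 0x167a668f75639e) (nat_lit 0x0)
  (PL.C (nat_lit 0x4915105) (nat_lit 0x0) (nat_lit 0x389a6f01cea8fd)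
  (PL.C (nat_lit 0x49191a5) (nat_lit 0x1a1bb3336e3b9) (nat_lit 0x0)
  (PL.C (nat_lit 0x4943a87) (nat_lit 0x0) (nat_lit 0x30dd04b9c92e97)
  (PL.C (nat_lit 0x4949d8d) (nat_lit 0xe0ff0b796f0ce) (nat_lit 0x0)
  (PL.C (nat_lit 0x495fb8d) (nat_lit 0x0) (nat_lit 0x43ddcc9aaf536)
  (PL.C (nat_lit 0x4962699) (nat_lit 0x0) (nat_lit 0x11ee66a45db144)
  (PL.C (nat_lit 0x4962d5a) (nat_lit 0x0) (nat_lit 0xa680e51d32cabe)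
  (PL.C (nat_lit 0x4990323) (nat_lit 0x0) (nat_lit 0x1634ccca4a5bb9)
  (PL.C (nat_lit 0x49a110c) (nat_lit 0x13093eade36d8) (nat_lit 0x0)
  (PL.C (nat_lit 0x49cb216) (nat_lit 0x12b953148a3700) (nat_lit 0x0)
  (PL.C (nat_lit 0x49edef1) (nat_lit 0x0) (nat_lit 0x70346f1a38720)
  (PL.C (nat_lit 0x4a06b6d) (nat_lit 0xf66916f9c7aea) (nat_lit 0x0) gp4_0_57))))))))))))))))))))

noncomputable def gp4_0_55 : PL :=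
  (PL.C (nat_lit 0x46292b6) (nat_lit 0x0) (nat_lit 0xcce2b2cf39563)
  (PL.C (nat_lit 0x4666279) (nat_lit 0x0) (nat_lit 0x432d2ed0b059a)
  (PL.C (nat_lit 0x466a0bc) (nat_lit 0x26b8ad5546f065) (nat_lit 0x0)
  (PL.C (nat_lit 0x466f82d) (nat_lit 0x0) (nat_lit 0x5358320ea76a7)
  (PL.C (nat_lit 0x46b5904) (nat_lit 0x65ea79f50ef96) (nat_lit 0x0)
  (PL.C (nat_lit 0x46b68ea) (nat_lit 0x237e26214bdd8c) (nat_lit 0x0)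
  (PL.C (nat_lit 0x46d39aa) (nat_lit 0x0) (nat_lit 0x58d012f2b98191)
  (PL.C (nat_lit 0x46d8839) (nat_lit 0x23979dd7fbf9f7) (nat_lit 0x0)
  (PL.C (nat_lit 0x46eb582) (nat_lit 0xafcc7baf5699da) (nat_lit 0x0)
  (PL.C (nat_lit 0x4709e47) (nat_lit 0x0) (nat_lit 0xeb33deead19bd)
  (PL.C (nat_lit 0x47129fa) (nat_lit 0x0) (nat_lit 0x19b4a74e91851c)
  (PL.C (nat_lit 0x47a8eac) (nat_lit 0x0) (nat_lit 0x328f1ed873ad39)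
  (PL.C (nat_lit 0x47c0efc) (nat_lit 0x0) (nat_lit 0x95c63efcc1a95)
  (PL.C (nat_lit 0x47dbedd) (nat_lit 0x8c8102b1e481b) (nat_lit 0x0)
  (PL.C (nat_lit 0x47dcb2b) (nat_lit 0x0) (nat_lit 0x23eaac2867edd)
  (PL.C (nat_lit 0x47fb472) (nat_lit 0x0) (nat_lit 0x28612ebab10516)
  (PL.C (nat_lit 0x4800224) (nat_lit 0x0) (nat_lit 0x1bdf6de2f6cc10)
  (PL.C (nat_lit 0x4803ba9) (nat_lit 0x0) (nat_lit 0x20e51d9128f028)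
  (PL.C (nat_lit 0x4827c57) (nat_lit 0x28be87329e00b9) (nat_lit 0x0)
  (PL.C (nat_lit 0x484e5e6) (nat_lit 0x867e2f8cbcd3a0) (nat_lit 0x0) gp4_0_56))))))))))))))))))))

noncomputable def gp4_0_54 : PL :=
  (PL.C (nat_lit 0x43a18a9) (nat_lit 0x34ef91f1c52b6e) (nat_lit 0x0)
  (PL.C (nat_lit 0x43acc4f) (nat_lit 0x0) (nat_lit 0x70263eae1194)
  (PL.C (nat_lit 0x43b17f9) (nat_lit 0x167d8e40a0a68) (nat_lit 0x0)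
  (PL.C (nat_lit 0x43c4679) (nat_lit 0x0) (nat_lit 0x1f8a65274131ce)
  (PL.C (nat_lit 0x43eae6e) (nat_lit 0x0) (nat_lit 0x7162b2d27e1c8)
  (PL.C (nat_lit 0x43ef9c3) (nat_lit 0x4fbd871d8f60c9) (nat_lit 0x0)
  (PL.C (nat_lit 0x4409a21) (nat_lit 0x1cdc88b3b9e7f8) (nat_lit 0x0)
  (PL.C (nat_lit 0x443694f) (nat_lit 0x34ef91f1c52b6e) (nat_lit 0x0)
  (PL.C (nat_lit 0x444449b) (nat_lit 0x0) (nat_lit 0x3712972172a9e6)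
  (PL.C (nat_lit 0x446d3ae) (nat_lit 0x0) (nat_lit 0x8fc18e8a8597)
  (PL.C (nat_lit 0x4487d14) (nat_lit 0x12389473a2aa4e) (nat_lit 0x0)
  (PL.C (nat_lit 0x448ab6a) (nat_lit 0x0) (nat_lit 0x27db379ada8fb4)
  (PL.C (nat_lit 0x449080e) (nat_lit 0x15e26a793a20c1) (nat_lit 0x0)
  (PL.C (nat_lit 0x44d68be) (nat_lit 0x0) (nat_lit 0x2da61d219e560)
  (PL.C (nat_lit 0x44f35dd) (nat_lit 0x0) (nat_lit 0x32a8925b2974c7)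
  (PL.C (nat_lit 0x4521585) (nat_lit 0x0) (nat_lit 0x1f8a65274131ce)
  (PL.C (nat_lit 0x452ecef) (nat_lit 0xd15a4d9f6f3f5) (nat_lit 0x0)
  (PL.C (nat_lit 0x458fdfa) (nat_lit 0x0) (nat_lit 0x95f871a1ead3)
  (PL.C (nat_lit 0x45b795a) (nat_lit 0x731382019873b) (nat_lit 0x0)
  (PL.C (nat_lit 0x4611aee) (nat_lit 0xca5cb21d54a7d) (nat_lit 0x0) gp4_0_55))))))))))))))))))))

noncomputable def gp4_0_53 : PL :=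
  (PL.C (nat_lit 0x4166cce) (nat_lit 0x8e2464bc75767) (nat_lit 0x0)
  (PL.C (nat_lit 0x416bbd4) (nat_lit 0x0) (nat_lit 0x393f25c4c104c)
  (PL.C (nat_lit 0x41acf12) (nat_lit 0x11f1bed07f1d4) (nat_lit 0x0)
  (PL.C (nat_lit 0x41c2f4a) (nat_lit 0x136982b0986895) (nat_lit 0x0)
  (PL.C (nat_lit 0x41df483) (nat_lit 0x0) (nat_lit 0x42015aabeaf2f2)
  (PL.C (nat_lit 0x41eb9ab) (nat_lit 0x0) (nat_lit 0xf7454b1b1dbf)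
  (PL.C (nat_lit 0x4220cbc) (nat_lit 0x0) (nat_lit 0x3f8951614f66ab)
  (PL.C (nat_lit 0x422bc64) (nat_lit 0x92fe5891bc978) (nat_lit 0x0)
  (PL.C (nat_lit 0x4244aab) (nat_lit 0x0) (nat_lit 0x1d3549c3ee620a)
  (PL.C (nat_lit 0x4265d55) (nat_lit 0x571b1fecde9d2) (nat_lit 0x0)
  (PL.C (nat_lit 0x426d214) (nat_lit 0x767a773ca16156) (nat_lit 0x0)
  (PL.C (nat_lit 0x4270725) (nat_lit 0x0) (nat_lit 0x28f40e1925735)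
  (PL.C (nat_lit 0x4272bdc) (nat_lit 0x2ce7bea1d7992) (nat_lit 0x0)
  (PL.C (nat_lit 0x42a20b1) (nat_lit 0x2376d5904c7bd7) (nat_lit 0x0)
  (PL.C (nat_lit 0x42b2864) (nat_lit 0x0) (nat_lit 0xea9aa21ad188a)
  (PL.C (nat_lit 0x42c6f2d) (nat_lit 0x15c016a504a087) (nat_lit 0x0)
  (PL.C (nat_lit 0x430adc3) (nat_lit 0x137e58fcf5c3cb) (nat_lit 0x0)
  (PL.C (nat_lit 0x433ae42) (nat_lit 0x0) (nat_lit 0x17b18885ed4372)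
  (PL.C (nat_lit 0x436ab9e) (nat_lit 0x731382019873b) (nat_lit 0x0)
  (PL.C (nat_lit 0x437c077) (nat_lit 0x0) (nat_lit 0x2ad8b96eba3e6c) gp4_0_54))))))))))))))))))))

noncomputable def gp4_0_52 : PL :=
  (PL.C (nat_lit 0x3ead97c) (nat_lit 0x0) (nat_lit 0x31c9a24366fc7d)
  (PL.C (nat_lit 0x3eb723a) (nat_lit 0x0) (nat_lit 0x12510e533ec940)
  (PL.C (nat_lit 0x3ec52bd) (nat_lit 0x26303a7b8618ca) (nat_lit 0x0)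
  (PL.C (nat_lit 0x3ed6b3d) (nat_lit 0x0) (nat_lit 0xb3ef7edf55c1f)
  (PL.C (nat_lit 0x3efa666) (nat_lit 0x53c07d3d1293f) (nat_lit 0x0)
  (PL.C (nat_lit 0x3efb48f) (nat_lit 0xca4d8ea8b8ec6d) (nat_lit 0x0)
  (PL.C (nat_lit 0x3f6fbe6) (nat_lit 0x13408f9d97c4d0) (nat_lit 0x0)
  (PL.C (nat_lit 0x3f82386) (nat_lit 0x0) (nat_lit 0x265dbff920cfb9)
  (PL.C (nat_lit 0x3fb831c) (nat_lit 0x0) (nat_lit 0x22458bdc64bd1c)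
  (PL.C (nat_lit 0x3fe7c2c) (nat_lit 0x7b3a4874b84d4) (nat_lit 0x0)
  (PL.C (nat_lit 0x4015d2a) (nat_lit 0x25458a1f9fb19) (nat_lit 0x0)
  (PL.C (nat_lit 0x4074974) (nat_lit 0x0) (nat_lit 0xbebf8a1b6b1d3)
  (PL.C (nat_lit 0x40ac9de) (nat_lit 0x1dfc1d3ff94923) (nat_lit 0x0)
  (PL.C (nat_lit 0x40b3bba) (nat_lit 0x0) (nat_lit 0x17b18885ed4372)
  (PL.C (nat_lit 0x4126f9c) (nat_lit 0x0) (nat_lit 0x423d0d478e067)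
  (PL.C (nat_lit 0x4127ac4) (nat_lit 0x26b8ad5546f065) (nat_lit 0x0)
  (PL.C (nat_lit 0x412aed1) (nat_lit 0xe1c936d8249555) (nat_lit 0x0)
  (PL.C (nat_lit 0x41430a2) (nat_lit 0x0) (nat_lit 0x149ec45da9879c)
  (PL.C (nat_lit 0x414773d) (nat_lit 0x0) (nat_lit 0x2dca5d0429524)
  (PL.C (nat_lit 0x415b92d) (nat_lit 0x0) (nat_lit 0xcf7503193e18) gp4_0_53))))))))))))))))))))

noncomputable def gp4_0_51 : PL :=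
  (PL.C (nat_lit 0x3cc8fe4) (nat_lit 0x0) (nat_lit 0x9e971eb431c77)
  (PL.C (nat_lit 0x3ccaa0d) (nat_lit 0x1125b461f08d32) (nat_lit 0x0)
  (PL.C (nat_lit 0x3d2345f) (nat_lit 0xaf430e92381630) (nat_lit 0x0)
  (PL.C (nat_lit 0x3d571e2) (nat_lit 0x40906758bae19) (nat_lit 0x0)
  (PL.C (nat_lit 0x3d72df7) (nat_lit 0x0) (nat_lit 0x1a33f5346fcb10)
  (PL.C (nat_lit 0x3d91a09) (nat_lit 0x0) (nat_lit 0x2c1aa381d39f8e)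
  (PL.C (nat_lit 0x3daffcc) (nat_lit 0x2e8bf439ff564) (nat_lit 0x0)
  (PL.C (nat_lit 0x3db15d9) (nat_lit 0x18aaa2cdba245e) (nat_lit 0x0)
  (PL.C (nat_lit 0x3dc60b5) (nat_lit 0x0) (nat_lit 0x22c1f8f086b818)
  (PL.C (nat_lit 0x3dc9755) (nat_lit 0x22c8028b42bb0c) (nat_lit 0x0)
  (PL.C (nat_lit 0x3de8421) (nat_lit 0x20a2b6135c8276) (nat_lit 0x0)
  (PL.C (nat_lit 0x3df3042) (nat_lit 0x0) (nat_lit 0xa263606f498c22)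
  (PL.C (nat_lit 0x3e194ef) (nat_lit 0x0) (nat_lit 0x21274eaebf5370)
  (PL.C (nat_lit 0x3e2aa6f) (nat_lit 0x0) (nat_lit 0x56edcbb557004)
  (PL.C (nat_lit 0x3e2bf12) (nat_lit 0x0) (nat_lit 0x1a902122963742)
  (PL.C (nat_lit 0x3e4287b) (nat_lit 0x1de4844c3e60d0) (nat_lit 0x0)
  (PL.C (nat_lit 0x3e4b0ee) (nat_lit 0x0) (nat_lit 0xeb1ad88ab7c70)
  (PL.C (nat_lit 0x3e5730a) (nat_lit 0x234eb2cf90ed6a) (nat_lit 0x0)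
  (PL.C (nat_lit 0x3e6f7f3) (nat_lit 0x0) (nat_lit 0x181cbf1d8b5fce)
  (PL.C (nat_lit 0x3e93973) (nat_lit 0x0) (nat_lit 0x1b624eab54ed9e) gp4_0_52))))))))))))))))))))

noncomputable def gp4_0_50 : PL :=
  (PL.C (nat_lit 0x3ae3cde) (nat_lit 0x0) (nat_lit 0xf70fcee6a4c98)
  (PL.C (nat_lit 0x3b2d34e) (nat_lit 0x0) (nat_lit 0x23e6d9eaee47a9)
  (PL.C (nat_lit 0x3b41f5c) (nat_lit 0x0) (nat_lit 0x48b0df571fcfc)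
  (PL.C (nat_lit 0x3b45fb5) (nat_lit 0x0) (nat_lit 0x65e6db5c96d980)
  (PL.C (nat_lit 0x3b6081c) (nat_lit 0x0) (nat_lit 0x36f96e4881c50)
  (PL.C (nat_lit 0x3b67a76) (nat_lit 0xc58b796aac3d8) (nat_lit 0x0)
  (PL.C (nat_lit 0x3b6d81d) (nat_lit 0x29fb0342ee7810) (nat_lit 0x0)
  (PL.C (nat_lit 0x3b70cac) (nat_lit 0x3a50e9e796dac3) (nat_lit 0x0)
  (PL.C (nat_lit 0x3bb1612) (nat_lit 0x0) (nat_lit 0xe83e66da340619)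
  (PL.C (nat_lit 0x3bc48c4) (nat_lit 0x0) (nat_lit 0x48b0df571fcfc)
  (PL.C (nat_lit 0x3bddf0a) (nat_lit 0x3ce1737803c25c) (nat_lit 0x0)
  (PL.C (nat_lit 0x3bde4ae) (nat_lit 0x16e41f9c061726) (nat_lit 0x0)
  (PL.C (nat_lit 0x3bf7ba3) (nat_lit 0x66df944e5024e) (nat_lit 0x0)
  (PL.C (nat_lit 0x3c154c4) (nat_lit 0x767a773ca16156) (nat_lit 0x0)
  (PL.C (nat_lit 0x3c1a914) (nat_lit 0x0) (nat_lit 0x2845e5d161aeb)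
  (PL.C (nat_lit 0x3c56956) (nat_lit 0x0) (nat_lit 0x120a47580e0bfc5)
  (PL.C (nat_lit 0x3c6d9f5) (nat_lit 0x0) (nat_lit 0xaeeca9a90c04a)
  (PL.C (nat_lit 0x3c923ec) (nat_lit 0x0) (nat_lit 0x36f96e4881c50)
  (PL.C (nat_lit 0x3ca5246) (nat_lit 0x0) (nat_lit 0x25cc773b7d59d4)
  (PL.C (nat_lit 0x3cb9f91) (nat_lit 0x0) (nat_lit 0x11ee66a45db144) gp4_0_51))))))))))))))))))))

noncomputable def gp4_0_49 : PL :=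
  (PL.C (nat_lit 0x38b0ffb) (nat_lit 0x184166949e3aaf3) (nat_lit 0x0)
  (PL.C (nat_lit 0x38c0aca) (nat_lit 0x6824cc33ba651) (nat_lit 0x0)
  (PL.C (nat_lit 0x38e112a) (nat_lit 0x0) (nat_lit 0x1a902122963742)
  (PL.C (nat_lit 0x38e961c) (nat_lit 0x0) (nat_lit 0x573e3215438e0)
  (PL.C (nat_lit 0x38f7a93) (nat_lit 0xca4d8ea8b8ec6d) (nat_lit 0x0)
  (PL.C (nat_lit 0x38facf3) (nat_lit 0x5f4d29aacde8d) (nat_lit 0x0)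
  (PL.C (nat_lit 0x391d4bd) (nat_lit 0x0) (nat_lit 0x4e5b1b8ffeeeb)
  (PL.C (nat_lit 0x3934c1d) (nat_lit 0x1e54cdc294c2c7) (nat_lit 0x0)
  (PL.C (nat_lit 0x3947ee9) (nat_lit 0x0) (nat_lit 0x4b3b8a899a1025)
  (PL.C (nat_lit 0x3967a85) (nat_lit 0x0) (nat_lit 0x2bb6e8861fbff)
  (PL.C (nat_lit 0x396878e) (nat_lit 0x0) (nat_lit 0x4ae6b5869784d)
  (PL.C (nat_lit 0x39dc292) (nat_lit 0x8e2464bc75767) (nat_lit 0x0)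
  (PL.C (nat_lit 0x39e10c6) (nat_lit 0x34df8783b59918) (nat_lit 0x0)
  (PL.C (nat_lit 0x39f472e) (nat_lit 0x0) (nat_lit 0x28a761ed7ce6f)
  (PL.C (nat_lit 0x3a23921) (nat_lit 0x29f73343f7847d) (nat_lit 0x0)
  (PL.C (nat_lit 0x3a277e2) (nat_lit 0x9b873c4782c0ae) (nat_lit 0x0)
  (PL.C (nat_lit 0x3a34811) (nat_lit 0x0) (nat_lit 0x32a8925b2974c7)
  (PL.C (nat_lit 0x3a66aeb) (nat_lit 0x0) (nat_lit 0xc5261b9e034db)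
  (PL.C (nat_lit 0x3aa3b17) (nat_lit 0x5472aab9626118) (nat_lit 0x0)
  (PL.C (nat_lit 0x3ad2abe) (nat_lit 0x0) (nat_lit 0x53a2a371c7252) gp4_0_50))))))))))))))))))))

noncomputable def gp4_0_48 : PL :=
  (PL.C (nat_lit 0x36d6b7c) (nat_lit 0x4bae33c2aeea3) (nat_lit 0x0)
  (PL.C (nat_lit 0x3702fd5) (nat_lit 0x0) (nat_lit 0x3fb35a0a8790d)
  (PL.C (nat_lit 0x371e1dc) (nat_lit 0x0) (nat_lit 0x2188e410774dff)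
  (PL.C (nat_lit 0x3735886) (nat_lit 0x0) (nat_lit 0x27db379ada8fb4)
  (PL.C (nat_lit 0x375a01a) (nat_lit 0x3c3d84eea9bf91) (nat_lit 0x0)
  (PL.C (nat_lit 0x379b3cf) (nat_lit 0x0) (nat_lit 0x28f40e1925735)
  (PL.C (nat_lit 0x37d28ac) (nat_lit 0x0) (nat_lit 0xea9aa21ad188a)
  (PL.C (nat_lit 0x37dbcf4) (nat_lit 0xa2f539595cd3) (nat_lit 0x0)
  (PL.C (nat_lit 0x3815c79) (nat_lit 0x0) (nat_lit 0x42015aabeaf2f2)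
  (PL.C (nat_lit 0x381a312) (nat_lit 0x0) (nat_lit 0x86afd79fd4d1f)
  (PL.C (nat_lit 0x382f485) (nat_lit 0x0) (nat_lit 0x6e797340ea99f)
  (PL.C (nat_lit 0x383824c) (nat_lit 0x0) (nat_lit 0x2845e5d161aeb)
  (PL.C (nat_lit 0x3842b62) (nat_lit 0x0) (nat_lit 0x6205b4d4dd6d1)
  (PL.C (nat_lit 0x384d8f4) (nat_lit 0x0) (nat_lit 0x3f8951614f66ab)
  (PL.C (nat_lit 0x384f5b5) (nat_lit 0x1ca6e9e0847a2) (nat_lit 0x0)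
  (PL.C (nat_lit 0x387aaa8) (nat_lit 0x1b6b0fd695682) (nat_lit 0x0)
  (PL.C (nat_lit 0x388827a) (nat_lit 0x0) (nat_lit 0x76817918874ab)
  (PL.C (nat_lit 0x389820f) (nat_lit 0x0) (nat_lit 0xa9d937dc3c650)
  (PL.C (nat_lit 0x38ab193) (nat_lit 0x0) (nat_lit 0x6e797340ea99f)
  (PL.C (nat_lit 0x38ad11e) (nat_lit 0x87b954b99f40) (nat_lit 0x0) gp4_0_49))))))))))))))))))))

noncomputable def gp4_0_47 : PL :=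
  (PL.C (nat_lit 0x34a00b2) (nat_lit 0x0) (nat_lit 0x7a1a9233d53a3a)
  (PL.C (nat_lit 0x34b48ff) (nat_lit 0x0) (nat_lit 0x9f25111d2ca13)
  (PL.C (nat_lit 0x34d307f) (nat_lit 0x0) (nat_lit 0x5c373cb19dff93)
  (PL.C (nat_lit 0x34f10a2) (nat_lit 0x15f6fddf265a00) (nat_lit 0x0)
  (PL.C (nat_lit 0x350baf1) (nat_lit 0x0) (nat_lit 0x163fa70f171942)
  (PL.C (nat_lit 0x351d76d) (nat_lit 0x6cb93147e9d85) (nat_lit 0x0)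
  (PL.C (nat_lit 0x3527a7c) (nat_lit 0x0) (nat_lit 0x402ccbb2296b1)
  (PL.C (nat_lit 0x352a90b) (nat_lit 0x0) (nat_lit 0x2ad8b96eba3e6c)
  (PL.C (nat_lit 0x352c254) (nat_lit 0x2ce7bea1d7992) (nat_lit 0x0)
  (PL.C (nat_lit 0x3552915) (nat_lit 0x4a26c7465d7f7) (nat_lit 0x0)
  (PL.C (nat_lit 0x3572202) (nat_lit 0xcc6d352b8fa5b) (nat_lit 0x0)
  (PL.C (nat_lit 0x358cdfe) (nat_lit 0x36f887bf1179ad) (nat_lit 0x0)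
  (PL.C (nat_lit 0x35a6e9a) (nat_lit 0x0) (nat_lit 0x1f5f6044ad6433)
  (PL.C (nat_lit 0x35ab71e) (nat_lit 0xd876a4d4972ff) (nat_lit 0x0)
  (PL.C (nat_lit 0x35ca08c) (nat_lit 0x0) (nat_lit 0x22458bdc64bd1c)
  (PL.C (nat_lit 0x36239b6) (nat_lit 0x0) (nat_lit 0x23e6d9eaee47a9)
  (PL.C (nat_lit 0x365ceb9) (nat_lit 0x24983ee9643fd7) (nat_lit 0x0)
  (PL.C (nat_lit 0x365ee64) (nat_lit 0x4bae33c2aeea3) (nat_lit 0x0)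
  (PL.C (nat_lit 0x3661833) (nat_lit 0x1ed77be526e69) (nat_lit 0x0)
  (PL.C (nat_lit 0x36985d6) (nat_lit 0x0) (nat_lit 0x1cb2e0ae743904) gp4_0_48))))))))))))))))))))

noncomputable def gp4_0_46 : PL :=
  (PL.C (nat_lit 0x32ef52e) (nat_lit 0xd0f16f6e4da0d3) (nat_lit 0x0)
  (PL.C (nat_lit 0x32f0d7c) (nat_lit 0x0) (nat_lit 0x8034787f201f2)
  (PL.C (nat_lit 0x332ffb2) (nat_lit 0x154a74b03d7e51) (nat_lit 0x0)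
  (PL.C (nat_lit 0x3343395) (nat_lit 0x0) (nat_lit 0x6c7e9f33efa73)
  (PL.C (nat_lit 0x334ba3b) (nat_lit 0x0) (nat_lit 0x163fa70f171942)
  (PL.C (nat_lit 0x334fe74) (nat_lit 0x1d4bab6134a97e) (nat_lit 0x0)
  (PL.C (nat_lit 0x33611a4) (nat_lit 0x0) (nat_lit 0xa9c640900673a)
  (PL.C (nat_lit 0x33773be) (nat_lit 0x0) (nat_lit 0x904b9fec93936)
  (PL.C (nat_lit 0x3388ba4) (nat_lit 0x0) (nat_lit 0x1a1f01a76884bc)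
  (PL.C (nat_lit 0x338ff2b) (nat_lit 0x0) (nat_lit 0x19195f82fd04ce)
  (PL.C (nat_lit 0x33dde9c) (nat_lit 0x36069509b1568a) (nat_lit 0x0)
  (PL.C (nat_lit 0x33fdf92) (nat_lit 0x0) (nat_lit 0x15cc89cde2f698)
  (PL.C (nat_lit 0x340193d) (nat_lit 0xd6c11cbba5012) (nat_lit 0x0)
  (PL.C (nat_lit 0x34140fd) (nat_lit 0x0) (nat_lit 0x2910c79aa1fd4)
  (PL.C (nat_lit 0x342338c) (nat_lit 0x0) (nat_lit 0x84dbd9dff5929)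
  (PL.C (nat_lit 0x3425849) (nat_lit 0xf9d91f860ab1f) (nat_lit 0x0)
  (PL.C (nat_lit 0x3442665) (nat_lit 0x0) (nat_lit 0x565947a764a6cc)
  (PL.C (nat_lit 0x3455bca) (nat_lit 0x867e2f8cbcd3a0) (nat_lit 0x0)
  (PL.C (nat_lit 0x348ddd6) (nat_lit 0x0) (nat_lit 0x441711da048c5)
  (PL.C (nat_lit 0x348e9a7) (nat_lit 0x56fa3068c71ed0) (nat_lit 0x0) gp4_0_47))))))))))))))))))))

noncomputable def gp4_0_45 : PL :=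
  (PL.C (nat_lit 0x30bc163) (nat_lit 0x4d99a95f19653d) (nat_lit 0x0)
  (PL.C (nat_lit 0x30d7c5a) (nat_lit 0x4dad6c82a5f347) (nat_lit 0x0)
  (PL.C (nat_lit 0x30dbe5e) (nat_lit 0x15e26a793a20c1) (nat_lit 0x0)
  (PL.C (nat_lit 0x30ec466) (nat_lit 0x0) (nat_lit 0x14e62fec2c1b6a)
  (PL.C (nat_lit 0x30fb89b) (nat_lit 0x2d262750f2ab39) (nat_lit 0x0)
  (PL.C (nat_lit 0x310acc2) (nat_lit 0x0) (nat_lit 0x28612ebab10516)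
  (PL.C (nat_lit 0x3132164) (nat_lit 0x1d4bab6134a97e) (nat_lit 0x0)
  (PL.C (nat_lit 0x3171cc9) (nat_lit 0x15c016a504a087) (nat_lit 0x0)
  (PL.C (nat_lit 0x318b499) (nat_lit 0x0) (nat_lit 0x70263eae1194)
  (PL.C (nat_lit 0x3192866) (nat_lit 0x0) (nat_lit 0xa263606f498c22)
  (PL.C (nat_lit 0x31e093c) (nat_lit 0x8853adbe96d79) (nat_lit 0x0)
  (PL.C (nat_lit 0x31fe052) (nat_lit 0x1310aee59e00bc) (nat_lit 0x0)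
  (PL.C (nat_lit 0x3209349) (nat_lit 0x0) (nat_lit 0x3ee8fe350f1b89)
  (PL.C (nat_lit 0x321f98c) (nat_lit 0x0) (nat_lit 0x95c63efcc1a95)
  (PL.C (nat_lit 0x3227d34) (nat_lit 0x18ab599cc15211) (nat_lit 0x0)
  (PL.C (nat_lit 0x32372f1) (nat_lit 0x0) (nat_lit 0x192a7ab4442766)
  (PL.C (nat_lit 0x325050f) (nat_lit 0x0) (nat_lit 0x56edcbb557004)
  (PL.C (nat_lit 0x3263dda) (nat_lit 0x0) (nat_lit 0x86afd79fd4d1f)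
  (PL.C (nat_lit 0x3268c7d) (nat_lit 0x5f4d29aacde8d) (nat_lit 0x0)
  (PL.C (nat_lit 0x329fe6e) (nat_lit 0x0) (nat_lit 0xbb0ee49b6237) gp4_0_46))))))))))))))))))))

noncomputable def gp4_0_44 : PL :=
  (PL.C (nat_lit 0x2f23b58) (nat_lit 0x1b6b0fd695682) (nat_lit 0x0)
  (PL.C (nat_lit 0x2f3b026) (nat_lit 0x0) (nat_lit 0x36808ba04ee554)
  (PL.C (nat_lit 0x2f5beda) (nat_lit 0x0) (nat_lit 0xe83e66da340619)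
  (PL.C (nat_lit 0x2f61bfc) (nat_lit 0x0) (nat_lit 0x105593556ad29b)
  (PL.C (nat_lit 0x2f909c7) (nat_lit 0x0) (nat_lit 0xbedf12c5b96f)
  (PL.C (nat_lit 0x2fe7f3e) (nat_lit 0x144a3b1b2f9843) (nat_lit 0x0)
  (PL.C (nat_lit 0x2fe8772) (nat_lit 0x0) (nat_lit 0xd345ebb40d868)
  (PL.C (nat_lit 0x30027c6) (nat_lit 0x0) (nat_lit 0x7a1a9233d53a3a)
  (PL.C (nat_lit 0x3016e1f) (nat_lit 0x0) (nat_lit 0x25d4967b5ace23)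
  (PL.C (nat_lit 0x301a83a) (nat_lit 0x39d3ed334ada1) (nat_lit 0x0)
  (PL.C (nat_lit 0x3035f9a) (nat_lit 0x0) (nat_lit 0x8fc18e8a8597)
  (PL.C (nat_lit 0x3036a71) (nat_lit 0x0) (nat_lit 0x6fa82602965d5c)
  (PL.C (nat_lit 0x30487e2) (nat_lit 0xd0f16f6e4da0d3) (nat_lit 0x0)
  (PL.C (nat_lit 0x304a751) (nat_lit 0xc34f853678428) (nat_lit 0x0)
  (PL.C (nat_lit 0x305883c) (nat_lit 0x0) (nat_lit 0x2188e410774dff)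
  (PL.C (nat_lit 0x305aa4d) (nat_lit 0x0) (nat_lit 0x4b3b8a899a1025)
  (PL.C (nat_lit 0x30716fc) (nat_lit 0xa2f539595cd3) (nat_lit 0x0)
  (PL.C (nat_lit 0x30875b2) (nat_lit 0x0) (nat_lit 0x802a5a5e8df795)
  (PL.C (nat_lit 0x309fa4e) (nat_lit 0xe12c6f05905c09) (nat_lit 0x0)
  (PL.C (nat_lit 0x30bb66e) (nat_lit 0x0) (nat_lit 0xf70fcee6a4c98) gp4_0_45))))))))))))))))))))

noncomputable def gp4_0_43 : PL :=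
  (PL.C (nat_lit 0x2d2d9a6) (nat_lit 0xb576c80e0dd25) (nat_lit 0x0)
  (PL.C (nat_lit 0x2d4a682) (nat_lit 0x0) (nat_lit 0x802a5a5e8df795)
  (PL.C (nat_lit 0x2d5bc16) (nat_lit 0x0) (nat_lit 0x1aa8fd9efb64a)
  (PL.C (nat_lit 0x2d5d6e1) (nat_lit 0x23979dd7fbf9f7) (nat_lit 0x0)
  (PL.C (nat_lit 0x2d70f59) (nat_lit 0x0) (nat_lit 0x572305eb353e3)
  (PL.C (nat_lit 0x2d79b8a) (nat_lit 0x0) (nat_lit 0xa3395c6cdb2d9)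
  (PL.C (nat_lit 0x2d9e274) (nat_lit 0x750533f9d07ff) (nat_lit 0x0)
  (PL.C (nat_lit 0x2db5ab4) (nat_lit 0x7e4e4d7a3f8ea) (nat_lit 0x0)
  (PL.C (nat_lit 0x2dd6b2d) (nat_lit 0x0) (nat_lit 0x565947a764a6cc)
  (PL.C (nat_lit 0x2de45d4) (nat_lit 0x13093eade36d8) (nat_lit 0x0)
  (PL.C (nat_lit 0x2df0ddd) (nat_lit 0x0) (nat_lit 0x11a999ba6dd6a2)
  (PL.C (nat_lit 0x2df7503) (nat_lit 0x1ca6e9e0847a2) (nat_lit 0x0)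
  (PL.C (nat_lit 0x2df793e) (nat_lit 0x378a8cb99663fa) (nat_lit 0x0)
  (PL.C (nat_lit 0x2e163ae) (nat_lit 0xb576c80e0dd25) (nat_lit 0x0)
  (PL.C (nat_lit 0x2e1f34a) (nat_lit 0x1b5450bb5a7edd) (nat_lit 0x0)
  (PL.C (nat_lit 0x2e4eb4b) (nat_lit 0x0) (nat_lit 0x221353eb6171b)
  (PL.C (nat_lit 0x2e7a63c) (nat_lit 0x17c8e6e3e92ba) (nat_lit 0x0)
  (PL.C (nat_lit 0x2ebbab1) (nat_lit 0x2ac22ea2ff068e) (nat_lit 0x0)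
  (PL.C (nat_lit 0x2ebf9db) (nat_lit 0x15a9305e1170a2) (nat_lit 0x0)
  (PL.C (nat_lit 0x2ef501e) (nat_lit 0x0) (nat_lit 0x6205b4d4dd6d1) gp4_0_44))))))))))))))))))))

noncomputable def gp4_0_42 : PL :=
  (PL.C (nat_lit 0x2b9261e) (nat_lit 0x0) (nat_lit 0x2d8b722e04563)
  (PL.C (nat_lit 0x2bae193) (nat_lit 0x0) (nat_lit 0x1d77634decf510)
  (PL.C (nat_lit 0x2bc8a0c) (nat_lit 0x18ab599cc15211) (nat_lit 0x0)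
  (PL.C (nat_lit 0x2bd74dc) (nat_lit 0x991697867ee9d) (nat_lit 0x0)
  (PL.C (nat_lit 0x2bea302) (nat_lit 0x0) (nat_lit 0x6233546640c3b4)
  (PL.C (nat_lit 0x2bf2672) (nat_lit 0x0) (nat_lit 0x544ec4fdc8f53)
  (PL.C (nat_lit 0x2c189a3) (nat_lit 0x36c59362a635a2) (nat_lit 0x0)
  (PL.C (nat_lit 0x2c2dc72) (nat_lit 0x0) (nat_lit 0x3dd84b02cca53d)
  (PL.C (nat_lit 0x2c4af6e) (nat_lit 0x0) (nat_lit 0x7d7535db858ffb)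
  (PL.C (nat_lit 0x2c4c7e8) (nat_lit 0x0) (nat_lit 0xaa1aaab18458)
  (PL.C (nat_lit 0x2c5dc83) (nat_lit 0x56fa3068c71ed0) (nat_lit 0x0)
  (PL.C (nat_lit 0x2c6c076) (nat_lit 0x136982b0986895) (nat_lit 0x0)
  (PL.C (nat_lit 0x2c7f29d) (nat_lit 0x1adf256f22e59d) (nat_lit 0x0)
  (PL.C (nat_lit 0x2c84a1e) (nat_lit 0x33aa6da92a9eab) (nat_lit 0x0)
  (PL.C (nat_lit 0x2c978bb) (nat_lit 0x2ac22ea2ff068e) (nat_lit 0x0)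
  (PL.C (nat_lit 0x2cb1e82) (nat_lit 0x36f887bf1179ad) (nat_lit 0x0)
  (PL.C (nat_lit 0x2cb5015) (nat_lit 0xb8e0b32a82316) (nat_lit 0x0)
  (PL.C (nat_lit 0x2cf1d14) (nat_lit 0x17c8e6e3e92ba) (nat_lit 0x0)
  (PL.C (nat_lit 0x2d165c6) (nat_lit 0x0) (nat_lit 0xa3395c6cdb2d9)
  (PL.C (nat_lit 0x2d1dd8a) (nat_lit 0x0) (nat_lit 0x44a9ce59f1815) gp4_0_43))))))))))))))))))))

noncomputable def gp4_0_41 : PL :=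
  (PL.C (nat_lit 0x299da47) (nat_lit 0x0) (nat_lit 0x19195f82fd04ce)
  (PL.C (nat_lit 0x299faa2) (nat_lit 0x18e2411132d47) (nat_lit 0x0)
  (PL.C (nat_lit 0x29b7ba2) (nat_lit 0x19b2b9230a5b6a) (nat_lit 0x0)
  (PL.C (nat_lit 0x29d2abd) (nat_lit 0x87cc4265dfe05) (nat_lit 0x0)
  (PL.C (nat_lit 0x29d8c7e) (nat_lit 0x0) (nat_lit 0xa680e51d32cabe)
  (PL.C (nat_lit 0x29e477e) (nat_lit 0x0) (nat_lit 0xe9ae278bb4c1d)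
  (PL.C (nat_lit 0x29fc444) (nat_lit 0x0) (nat_lit 0xae9410c657452)
  (PL.C (nat_lit 0x2a56d04) (nat_lit 0x36069509b1568a) (nat_lit 0x0)
  (PL.C (nat_lit 0x2a63c75) (nat_lit 0x0) (nat_lit 0x11a999ba6dd6a2)
  (PL.C (nat_lit 0x2a81441) (nat_lit 0x0) (nat_lit 0x61c55ec7acc4)
  (PL.C (nat_lit 0x2ac2af9) (nat_lit 0x666874fed3bda) (nat_lit 0x0)
  (PL.C (nat_lit 0x2b036c1) (nat_lit 0x0) (nat_lit 0x1ca77b2507b800)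
  (PL.C (nat_lit 0x2b2af29) (nat_lit 0x0) (nat_lit 0x69673ead6dfd0)
  (PL.C (nat_lit 0x2b408d7) (nat_lit 0x7cdf8021ec78a) (nat_lit 0x0)
  (PL.C (nat_lit 0x2b4d267) (nat_lit 0x0) (nat_lit 0xb3ef7edf55c1f)
  (PL.C (nat_lit 0x2b55955) (nat_lit 0x0) (nat_lit 0x2203fb7af66a02)
  (PL.C (nat_lit 0x2b593e7) (nat_lit 0x542a7d78ae88e) (nat_lit 0x0)
  (PL.C (nat_lit 0x2b71f36) (nat_lit 0x4a7aa1510aa2fe) (nat_lit 0x0)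
  (PL.C (nat_lit 0x2b8206c) (nat_lit 0x12389473a2aa4e) (nat_lit 0x0)
  (PL.C (nat_lit 0x2b84f7e) (nat_lit 0xee6a79313dfd) (nat_lit 0x0) gp4_0_42))))))))))))))))))))

noncomputable def gp4_0_40 : PL :=
  (PL.C (nat_lit 0x287bfb6) (nat_lit 0x0) (nat_lit 0x14e62fec2c1b6a)
  (PL.C (nat_lit 0x288715e) (nat_lit 0x234eb2cf90ed6a) (nat_lit 0x0)
  (PL.C (nat_lit 0x28b31f5) (nat_lit 0x1864b18c8a4a60) (nat_lit 0x0)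
  (PL.C (nat_lit 0x28c22ea) (nat_lit 0x0) (nat_lit 0x120a47580e0bfc5)
  (PL.C (nat_lit 0x28d1beb) (nat_lit 0x0) (nat_lit 0xaeeca9a90c04a)
  (PL.C (nat_lit 0x28e39cf) (nat_lit 0x7f583347b37e6) (nat_lit 0x0)
  (PL.C (nat_lit 0x28e4bec) (nat_lit 0x92fe5891bc978) (nat_lit 0x0)
  (PL.C (nat_lit 0x28f73fa) (nat_lit 0x0) (nat_lit 0x1f5f6044ad6433)
  (PL.C (nat_lit 0x290bc06) (nat_lit 0x0) (nat_lit 0x18e688ffb822b5)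
  (PL.C (nat_lit 0x2923c2f) (nat_lit 0x0) (nat_lit 0xe3c351cbd23b)
  (PL.C (nat_lit 0x2930f8e) (nat_lit 0x0) (nat_lit 0x3143abfe5c77e8)
  (PL.C (nat_lit 0x2942b71) (nat_lit 0xd6c11cbba5012) (nat_lit 0x0)
  (PL.C (nat_lit 0x2945816) (nat_lit 0x99aa409d61105) (nat_lit 0x0)
  (PL.C (nat_lit 0x2957fc1) (nat_lit 0x0) (nat_lit 0x9f25111d2ca13)
  (PL.C (nat_lit 0x296634a) (nat_lit 0x0) (nat_lit 0x1b0dd71527f609)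
  (PL.C (nat_lit 0x2971c4a) (nat_lit 0x0) (nat_lit 0x17646a93321ff8)
  (PL.C (nat_lit 0x2972a0c) (nat_lit 0x0) (nat_lit 0x14d08a4e32891c)
  (PL.C (nat_lit 0x29875f4) (nat_lit 0x0) (nat_lit 0x9e971eb431c77)
  (PL.C (nat_lit 0x298f75c) (nat_lit 0xf16cebc4d653d) (nat_lit 0x0)
  (PL.C (nat_lit 0x29914a5) (nat_lit 0x11a59a8a37c114) (nat_lit 0x0) gp4_0_41))))))))))))))))))))

noncomputable def gp4_0_39 : PL :=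
  (PL.C (nat_lit 0x26c4fec) (nat_lit 0xada81319c76576) (nat_lit 0x0)
  (PL.C (nat_lit 0x26c8011) (nat_lit 0x0) (nat_lit 0x192a7ab4442766)
  (PL.C (nat_lit 0x26cdab6) (nat_lit 0x378a8cb99663fa) (nat_lit 0x0)
  (PL.C (nat_lit 0x26ef1f2) (nat_lit 0x0) (nat_lit 0x1fac06ade4a569)
  (PL.C (nat_lit 0x26ff799) (nat_lit 0x0) (nat_lit 0x57567d3c0adb26)
  (PL.C (nat_lit 0x2717cba) (nat_lit 0x0) (nat_lit 0x4468a05971c905)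
  (PL.C (nat_lit 0x271ba41) (nat_lit 0x0) (nat_lit 0x1da50cbe241013)
  (PL.C (nat_lit 0x27371d4) (nat_lit 0x77926705400ed) (nat_lit 0x0)
  (PL.C (nat_lit 0x2742894) (nat_lit 0x11140162b7419a) (nat_lit 0x0)
  (PL.C (nat_lit 0x2773335) (nat_lit 0x0) (nat_lit 0x5c373cb19dff93)
  (PL.C (nat_lit 0x2776887) (nat_lit 0x15a9305e1170a2) (nat_lit 0x0)
  (PL.C (nat_lit 0x27814e8) (nat_lit 0x0) (nat_lit 0x1309e41e38d580)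
  (PL.C (nat_lit 0x2783c2b) (nat_lit 0x0) (nat_lit 0xec186be01bd7e)
  (PL.C (nat_lit 0x2783fce) (nat_lit 0x4477bbaf600881) (nat_lit 0x0)
  (PL.C (nat_lit 0x27cee33) (nat_lit 0x0) (nat_lit 0xaa3d13a75537e)
  (PL.C (nat_lit 0x27d85d8) (nat_lit 0x0) (nat_lit 0x1309e41e38d580)
  (PL.C (nat_lit 0x27e9874) (nat_lit 0x8853adbe96d79) (nat_lit 0x0)
  (PL.C (nat_lit 0x27fa7c2) (nat_lit 0x237e26214bdd8c) (nat_lit 0x0)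
  (PL.C (nat_lit 0x284914e) (nat_lit 0x0) (nat_lit 0x7fe4e730e851e)
  (PL.C (nat_lit 0x286e184) (nat_lit 0x0) (nat_lit 0x643aa375d2c2) gp4_0_40))))))))))))))))))))

noncomputable def gp4_0_38 : PL :=
  (PL.C (nat_lit 0x258a3ce) (nat_lit 0xcafe77f2a3fc) (nat_lit 0x0)
  (PL.C (nat_lit 0x25bac0a) (nat_lit 0x13408f9d97c4d0) (nat_lit 0x0)
  (PL.C (nat_lit 0x25c7662) (nat_lit 0x0) (nat_lit 0x936d964913323)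
  (PL.C (nat_lit 0x25cb552) (nat_lit 0x0) (nat_lit 0x10d816041b38c46)
  (PL.C (nat_lit 0x25d9c37) (nat_lit 0x143092c1e4d25b) (nat_lit 0x0)
  (PL.C (nat_lit 0x25eb61c) (nat_lit 0x0) (nat_lit 0x14d08a4e32891c)
  (PL.C (nat_lit 0x25ed467) (nat_lit 0x83436e28ade6f) (nat_lit 0x0)
  (PL.C (nat_lit 0x25fc8a2) (nat_lit 0x29744812feac46) (nat_lit 0x0)
  (PL.C (nat_lit 0x261387e) (nat_lit 0x0) (nat_lit 0xaee73f5602d8e)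
  (PL.C (nat_lit 0x26232be) (nat_lit 0x0) (nat_lit 0x1cb2e0ae743904)
  (PL.C (nat_lit 0x2625d0b) (nat_lit 0x0) (nat_lit 0x71acd8f6453ec8)
  (PL.C (nat_lit 0x262ff46) (nat_lit 0x0) (nat_lit 0x293b9841caa65c)
  (PL.C (nat_lit 0x2640675) (nat_lit 0x1864b18c8a4a60) (nat_lit 0x0)
  (PL.C (nat_lit 0x26451ae) (nat_lit 0x41ef08d03ecc4) (nat_lit 0x0)
  (PL.C (nat_lit 0x265c07d) (nat_lit 0x83436e28ade6f) (nat_lit 0x0)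
  (PL.C (nat_lit 0x2696084) (nat_lit 0x0) (nat_lit 0x318f02fe3cd316)
  (PL.C (nat_lit 0x26a2f74) (nat_lit 0x91a241a61f510) (nat_lit 0x0)
  (PL.C (nat_lit 0x26a48c3) (nat_lit 0x0) (nat_lit 0x29f742422c3f)
  (PL.C (nat_lit 0x26b1ea1) (nat_lit 0x20a2b6135c8276) (nat_lit 0x0)
  (PL.C (nat_lit 0x26c2616) (nat_lit 0xe4a526508f2ad) (nat_lit 0x0) gp4_0_39))))))))))))))))))))

noncomputable def gp4_0_37 : PL :=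
  (PL.C (nat_lit 0x23c0adf) (nat_lit 0x0) (nat_lit 0xdfec9b4d86339)
  (PL.C (nat_lit 0x23c49bc) (nat_lit 0x45d0e305b40eff) (nat_lit 0x0)
  (PL.C (nat_lit 0x23c664f) (nat_lit 0x1366844dd65360) (nat_lit 0x0)
  (PL.C (nat_lit 0x23c7a14) (nat_lit 0x10c03455a75878) (nat_lit 0x0)
  (PL.C (nat_lit 0x23d516f) (nat_lit 0x197d7830817de6) (nat_lit 0x0)
  (PL.C (nat_lit 0x243df26) (nat_lit 0x0) (nat_lit 0x25cc773b7d59d4)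
  (PL.C (nat_lit 0x2441022) (nat_lit 0xd876a4d4972ff) (nat_lit 0x0)
  (PL.C (nat_lit 0x2470b8d) (nat_lit 0x0) (nat_lit 0x29615acb4734)
  (PL.C (nat_lit 0x247344b) (nat_lit 0x4300d9e3aa3c7f) (nat_lit 0x0)
  (PL.C (nat_lit 0x2494b69) (nat_lit 0x14577d776a535c) (nat_lit 0x0)
  (PL.C (nat_lit 0x24aca8e) (nat_lit 0x0) (nat_lit 0x904b9fec93936)
  (PL.C (nat_lit 0x24bebe8) (nat_lit 0x162318a0d313ed) (nat_lit 0x0)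
  (PL.C (nat_lit 0x24c24f1) (nat_lit 0x545e9f0b59efe1) (nat_lit 0x0)
  (PL.C (nat_lit 0x24e6abc) (nat_lit 0x0) (nat_lit 0x2bc2d067f5253f)
  (PL.C (nat_lit 0x251228a) (nat_lit 0x0) (nat_lit 0x7d7535db858ffb)
  (PL.C (nat_lit 0x253956f) (nat_lit 0x29352eba22939a) (nat_lit 0x0)
  (PL.C (nat_lit 0x2563da6) (nat_lit 0x0) (nat_lit 0x6233546640c3b4)
  (PL.C (nat_lit 0x2573bcf) (nat_lit 0x1de4844c3e60d0) (nat_lit 0x0)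
  (PL.C (nat_lit 0x2574dae) (nat_lit 0x0) (nat_lit 0x936d964913323)
  (PL.C (nat_lit 0x2581cec) (nat_lit 0x0) (nat_lit 0xf01bbbc07d669) gp4_0_38))))))))))))))))))))

noncomputable def gp4_0_36 : PL :=
  (PL.C (nat_lit 0x224f7d4) (nat_lit 0x0) (nat_lit 0xd13cf50836939)
  (PL.C (nat_lit 0x225ff72) (nat_lit 0x17d70672d47aff) (nat_lit 0x0)
  (PL.C (nat_lit 0x22a950c) (nat_lit 0xc21b3efa34694) (nat_lit 0x0)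
  (PL.C (nat_lit 0x22abb7e) (nat_lit 0x1414d120d5ddb4) (nat_lit 0x0)
  (PL.C (nat_lit 0x22ba72b) (nat_lit 0x0) (nat_lit 0x57567d3c0adb26)
  (PL.C (nat_lit 0x22d6eee) (nat_lit 0x0) (nat_lit 0x156d01b7fda4c7)
  (PL.C (nat_lit 0x22e6885) (nat_lit 0x0) (nat_lit 0x181cbf1d8b5fce)
  (PL.C (nat_lit 0x23093e4) (nat_lit 0x0) (nat_lit 0x31c9a24366fc7d)
  (PL.C (nat_lit 0x23155cc) (nat_lit 0x0) (nat_lit 0x7acb200edc885e)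
  (PL.C (nat_lit 0x23171d3) (nat_lit 0x4013be883d4da0) (nat_lit 0x0)
  (PL.C (nat_lit 0x23230aa) (nat_lit 0x0) (nat_lit 0x1054d25595a1f3)
  (PL.C (nat_lit 0x23375aa) (nat_lit 0x36edc39b2e9561) (nat_lit 0x0)
  (PL.C (nat_lit 0x235d1f6) (nat_lit 0x12f2799f799113) (nat_lit 0x0)
  (PL.C (nat_lit 0x2368f9e) (nat_lit 0x0) (nat_lit 0x1cdeeb8b08c3f8)
  (PL.C (nat_lit 0x2372c38) (nat_lit 0x0) (nat_lit 0xaa1aaab18458)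
  (PL.C (nat_lit 0x2372fb5) (nat_lit 0x0) (nat_lit 0x14abf099e6aa0)
  (PL.C (nat_lit 0x23783a9) (nat_lit 0x0) (nat_lit 0xdbb580a90c77a)
  (PL.C (nat_lit 0x238c60e) (nat_lit 0x0) (nat_lit 0x19b4a74e91851c)
  (PL.C (nat_lit 0x23a16ac) (nat_lit 0xc3953d065b778) (nat_lit 0x0)
  (PL.C (nat_lit 0x23aed21) (nat_lit 0x0) (nat_lit 0xc5261b9e034db) gp4_0_37))))))))))))))))))))

noncomputable def gp4_0_35 : PL :=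
  (PL.C (nat_lit 0x20f6886) (nat_lit 0x33aa6da92a9eab) (nat_lit 0x0)
  (PL.C (nat_lit 0x2107866) (nat_lit 0x0) (nat_lit 0x44a9ce59f1815)
  (PL.C (nat_lit 0x2116785) (nat_lit 0x14577d776a535c) (nat_lit 0x0)
  (PL.C (nat_lit 0x212707b) (nat_lit 0x5472aab9626118) (nat_lit 0x0)
  (PL.C (nat_lit 0x21381eb) (nat_lit 0x29fb0342ee7810) (nat_lit 0x0)
  (PL.C (nat_lit 0x2139f4b) (nat_lit 0x0) (nat_lit 0xbedf12c5b96f)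
  (PL.C (nat_lit 0x2140628) (nat_lit 0x0) (nat_lit 0x1c33c0ddc01d5a)
  (PL.C (nat_lit 0x214d4c9) (nat_lit 0x0) (nat_lit 0x1b624eab54ed9e)
  (PL.C (nat_lit 0x215b786) (nat_lit 0x0) (nat_lit 0x77a8c5c2e267da)
  (PL.C (nat_lit 0x217016d) (nat_lit 0x29f73343f7847d) (nat_lit 0x0)
  (PL.C (nat_lit 0x217a1f6) (nat_lit 0x0) (nat_lit 0x1bacba287a223f)
  (PL.C (nat_lit 0x218ae0a) (nat_lit 0x0) (nat_lit 0x17646a93321ff8)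
  (PL.C (nat_lit 0x219b2fe) (nat_lit 0x29744812feac46) (nat_lit 0x0)
  (PL.C (nat_lit 0x219e7f9) (nat_lit 0x9f3d6ff3186d5) (nat_lit 0x0)
  (PL.C (nat_lit 0x21bfef4) (nat_lit 0x1c8dc7325350cb) (nat_lit 0x0)
  (PL.C (nat_lit 0x21cca17) (nat_lit 0x0) (nat_lit 0x3ee8fe350f1b89)
  (PL.C (nat_lit 0x21e9c4d) (nat_lit 0x0) (nat_lit 0x38c475b115d17c)
  (PL.C (nat_lit 0x221ffcc) (nat_lit 0x0) (nat_lit 0x1a1f01a76884bc)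
  (PL.C (nat_lit 0x222cd0e) (nat_lit 0x0) (nat_lit 0x28a761ed7ce6f)
  (PL.C (nat_lit 0x22326d2) (nat_lit 0x12f2799f799113) (nat_lit 0x0) gp4_0_36))))))))))))))))))))

noncomputable def gp4_0_34 : PL :=
  (PL.C (nat_lit 0x1fffe37) (nat_lit 0x0) (nat_lit 0xc3acc54a72256)
  (PL.C (nat_lit 0x2001a84) (nat_lit 0x0) (nat_lit 0x7acb200edc885e)
  (PL.C (nat_lit 0x2004243) (nat_lit 0x0) (nat_lit 0x572305eb353e3)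
  (PL.C (nat_lit 0x2023fbc) (nat_lit 0x750533f9d07ff) (nat_lit 0x0)
  (PL.C (nat_lit 0x20246f6) (nat_lit 0x0) (nat_lit 0x1a05e40ab17c4d)
  (PL.C (nat_lit 0x2031a36) (nat_lit 0x1dfc1d3ff94923) (nat_lit 0x0)
  (PL.C (nat_lit 0x203b028) (nat_lit 0x162318a0d313ed) (nat_lit 0x0)
  (PL.C (nat_lit 0x203c6de) (nat_lit 0x0) (nat_lit 0x293b9841caa65c)
  (PL.C (nat_lit 0x204a509) (nat_lit 0x0) (nat_lit 0x6fa82602965d5c)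
  (PL.C (nat_lit 0x205a3cc) (nat_lit 0x0) (nat_lit 0x1d83f1f8f252f9)
  (PL.C (nat_lit 0x205cbf9) (nat_lit 0x0) (nat_lit 0x1da50cbe241013)
  (PL.C (nat_lit 0x207cef4) (nat_lit 0x11140162b7419a) (nat_lit 0x0)
  (PL.C (nat_lit 0x207d642) (nat_lit 0x0) (nat_lit 0xacdfe19194305)
  (PL.C (nat_lit 0x2089cbf) (nat_lit 0x6e8071ce1bc35) (nat_lit 0x0)
  (PL.C (nat_lit 0x2092994) (nat_lit 0x7e4e4d7a3f8ea) (nat_lit 0x0)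
  (PL.C (nat_lit 0x209d844) (nat_lit 0xc539b65322b5) (nat_lit 0x0)
  (PL.C (nat_lit 0x20a7b12) (nat_lit 0x0) (nat_lit 0x2795734d62efd6)
  (PL.C (nat_lit 0x20a9c93) (nat_lit 0x0) (nat_lit 0x11bfa20f3757e)
  (PL.C (nat_lit 0x20bbe07) (nat_lit 0x0) (nat_lit 0x61c55ec7acc4)
  (PL.C (nat_lit 0x20eb9bd) (nat_lit 0x0) (nat_lit 0xe3c351cbd23b) gp4_0_35))))))))))))))))))))

noncomputable def gp4_0_33 : PL :=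
  (PL.C (nat_lit 0x1e696f8) (nat_lit 0x16f5133381dac6) (nat_lit 0x0)
  (PL.C (nat_lit 0x1e794cd) (nat_lit 0x7cdf8021ec78a) (nat_lit 0x0)
  (PL.C (nat_lit 0x1e86b11) (nat_lit 0x0) (nat_lit 0x26eca9fcc1a0f4)
  (PL.C (nat_lit 0x1e8f21e) (nat_lit 0x0) (nat_lit 0x156d01b7fda4c7)
  (PL.C (nat_lit 0x1ea093e) (nat_lit 0x0) (nat_lit 0x2b48af7528dfa0)
  (PL.C (nat_lit 0x1ea4e02) (nat_lit 0xcafe77f2a3fc) (nat_lit 0x0)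
  (PL.C (nat_lit 0x1ea50d4) (nat_lit 0x0) (nat_lit 0x1d55a96de1756c)
  (PL.C (nat_lit 0x1eacbd9) (nat_lit 0x0) (nat_lit 0xa94eb8be807baa)
  (PL.C (nat_lit 0x1eae6f9) (nat_lit 0x0) (nat_lit 0x5db616b8d3d3a9)
  (PL.C (nat_lit 0x1ec50b7) (nat_lit 0x0) (nat_lit 0x45cb987b60045)
  (PL.C (nat_lit 0x1ecda37) (nat_lit 0x29352eba22939a) (nat_lit 0x0)
  (PL.C (nat_lit 0x1edf232) (nat_lit 0x23d56f07d0710) (nat_lit 0x0)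
  (PL.C (nat_lit 0x1efc428) (nat_lit 0x11540d609cfd46) (nat_lit 0x0)
  (PL.C (nat_lit 0x1f27c76) (nat_lit 0x0) (nat_lit 0x2ac85429b09b25)
  (PL.C (nat_lit 0x1f2a692) (nat_lit 0x229d655baaca15) (nat_lit 0x0)
  (PL.C (nat_lit 0x1f4e014) (nat_lit 0x0) (nat_lit 0xf01bbbc07d669)
  (PL.C (nat_lit 0x1f57593) (nat_lit 0x0) (nat_lit 0x40dd6fb7dd8044)
  (PL.C (nat_lit 0x1f725e1) (nat_lit 0x0) (nat_lit 0x68d7ba74e7ceb)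
  (PL.C (nat_lit 0x1f7cac4) (nat_lit 0xd495cfa239cc5) (nat_lit 0x0)
  (PL.C (nat_lit 0x1fb5bda) (nat_lit 0x0) (nat_lit 0x12dd12557b7171) gp4_0_34))))))))))))))))))))

noncomputable def gp4_0_32 : PL :=
  (PL.C (nat_lit 0x1d65bc2) (nat_lit 0x98e39f18ca626) (nat_lit 0x0)
  (PL.C (nat_lit 0x1d874f4) (nat_lit 0x0) (nat_lit 0x4e513df87b1e29)
  (PL.C (nat_lit 0x1d9d5a4) (nat_lit 0x991697867ee9d) (nat_lit 0x0)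
  (PL.C (nat_lit 0x1d9f25f) (nat_lit 0x4013be883d4da0) (nat_lit 0x0)
  (PL.C (nat_lit 0x1daa1be) (nat_lit 0x3c3d84eea9bf91) (nat_lit 0x0)
  (PL.C (nat_lit 0x1dadc14) (nat_lit 0x0) (nat_lit 0x3f40006d6f22d)
  (PL.C (nat_lit 0x1db00ef) (nat_lit 0x0) (nat_lit 0xcf7aabb145c22)
  (PL.C (nat_lit 0x1dba5d2) (nat_lit 0x0) (nat_lit 0x2ac85429b09b25)
  (PL.C (nat_lit 0x1dce00e) (nat_lit 0x0) (nat_lit 0x15a6d3201ce02c)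
  (PL.C (nat_lit 0x1df120d) (nat_lit 0x927b3fc634f955) (nat_lit 0x0)
  (PL.C (nat_lit 0x1df68b8) (nat_lit 0x11540d609cfd46) (nat_lit 0x0)
  (PL.C (nat_lit 0x1e0ee84) (nat_lit 0x0) (nat_lit 0x18be4ce92e1ac6)
  (PL.C (nat_lit 0x1e13e5c) (nat_lit 0x0) (nat_lit 0x2527fff95532d)
  (PL.C (nat_lit 0x1e1f365) (nat_lit 0xd15a4d9f6f3f5) (nat_lit 0x0)
  (PL.C (nat_lit 0x1e319ac) (nat_lit 0x0) (nat_lit 0x1d83f1f8f252f9)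
  (PL.C (nat_lit 0x1e331cb) (nat_lit 0x927b3fc634f955) (nat_lit 0x0)
  (PL.C (nat_lit 0x1e3e496) (nat_lit 0x0) (nat_lit 0x36808ba04ee554)
  (PL.C (nat_lit 0x1e49a7f) (nat_lit 0x6cb93147e9d85) (nat_lit 0x0)
  (PL.C (nat_lit 0x1e4b4e6) (nat_lit 0x11b30cc6c03a9a) (nat_lit 0x0)
  (PL.C (nat_lit 0x1e5125c) (nat_lit 0x0) (nat_lit 0x18be4ce92e1ac6) gp4_0_33))))))))))))))))))))

noncomputable def gp4_0_31 : PL :=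
  (PL.C (nat_lit 0x1c23c0f) (nat_lit 0x1decb848412ff) (nat_lit 0x0)
  (PL.C (nat_lit 0x1c4284e) (nat_lit 0x0) (nat_lit 0x2b48af7528dfa0)
  (PL.C (nat_lit 0x1c4cc95) (nat_lit 0x0) (nat_lit 0x440664d13a1519)
  (PL.C (nat_lit 0x1c562d6) (nat_lit 0x12b4c0148a0862) (nat_lit 0x0)
  (PL.C (nat_lit 0x1c6139d) (nat_lit 0x24989be78e2eca) (nat_lit 0x0)
  (PL.C (nat_lit 0x1c71a1d) (nat_lit 0x0) (nat_lit 0x2002ec563d153)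
  (PL.C (nat_lit 0x1c76943) (nat_lit 0x0) (nat_lit 0xcf7aabb145c22)
  (PL.C (nat_lit 0x1c81ca6) (nat_lit 0x1310aee59e00bc) (nat_lit 0x0)
  (PL.C (nat_lit 0x1c882b3) (nat_lit 0x0) (nat_lit 0x65e6db5c96d980)
  (PL.C (nat_lit 0x1c90233) (nat_lit 0x31804dc432fd0f) (nat_lit 0x0)
  (PL.C (nat_lit 0x1ca0c41) (nat_lit 0x0) (nat_lit 0xa94eb8be807baa)
  (PL.C (nat_lit 0x1cc74c6) (nat_lit 0x0) (nat_lit 0x6344dce6cfc09)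
  (PL.C (nat_lit 0x1cd5b3a) (nat_lit 0x991666166de08) (nat_lit 0x0)
  (PL.C (nat_lit 0x1cde19a) (nat_lit 0x0) (nat_lit 0xe9ae278bb4c1d)
  (PL.C (nat_lit 0x1ce3b8e) (nat_lit 0x0) (nat_lit 0x3a939e806a20bc)
  (PL.C (nat_lit 0x1ce629a) (nat_lit 0x169c6612e7d29d) (nat_lit 0x0)
  (PL.C (nat_lit 0x1cf6a24) (nat_lit 0xd3a911bb7fed3f) (nat_lit 0x0)
  (PL.C (nat_lit 0x1d0c414) (nat_lit 0x0) (nat_lit 0xa9c640900673a)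
  (PL.C (nat_lit 0x1d46cac) (nat_lit 0x35df357302775c) (nat_lit 0x0)
  (PL.C (nat_lit 0x1d4c44c) (nat_lit 0x0) (nat_lit 0x8034787f201f2) gp4_0_32))))))))))))))))))))

noncomputable def gp4_0_30 : PL :=
  (PL.C (nat_lit 0x1b420ed) (nat_lit 0x0) (nat_lit 0x4e5b1b8ffeeeb)
  (PL.C (nat_lit 0x1b4268a) (nat_lit 0x1a69b9394505d8) (nat_lit 0x0)
  (PL.C (nat_lit 0x1b4f7fc) (nat_lit 0x45d0e305b40eff) (nat_lit 0x0)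
  (PL.C (nat_lit 0x1b6d2ca) (nat_lit 0x0) (nat_lit 0x17370e0f1d121ee)
  (PL.C (nat_lit 0x1b75fb4) (nat_lit 0x15a6219a1ffeda) (nat_lit 0x0)
  (PL.C (nat_lit 0x1b81cf6) (nat_lit 0x1414d120d5ddb4) (nat_lit 0x0)
  (PL.C (nat_lit 0x1b8ffd6) (nat_lit 0x0) (nat_lit 0x1054d25595a1f3)
  (PL.C (nat_lit 0x1b9a59f) (nat_lit 0x0) (nat_lit 0xec186be01bd7e)
  (PL.C (nat_lit 0x1ba12dc) (nat_lit 0xe05c65071a3bb) (nat_lit 0x0)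
  (PL.C (nat_lit 0x1ba1c08) (nat_lit 0x0) (nat_lit 0x16b48330faa565)
  (PL.C (nat_lit 0x1bbe6da) (nat_lit 0x17d70672d47aff) (nat_lit 0x0)
  (PL.C (nat_lit 0x1bbfc6c) (nat_lit 0x396aaacebe3d79) (nat_lit 0x0)
  (PL.C (nat_lit 0x1bc3aa1) (nat_lit 0x0) (nat_lit 0xaf5c727161fc9)
  (PL.C (nat_lit 0x1bca371) (nat_lit 0x4d99a95f19653d) (nat_lit 0x0)
  (PL.C (nat_lit 0x1be1c7e) (nat_lit 0xcc6d352b8fa5b) (nat_lit 0x0)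
  (PL.C (nat_lit 0x1beda54) (nat_lit 0x12d7f03f3493b) (nat_lit 0x0)
  (PL.C (nat_lit 0x1bee659) (nat_lit 0x0) (nat_lit 0x2203fb7af66a02)
  (PL.C (nat_lit 0x1c00d97) (nat_lit 0x0) (nat_lit 0x2754600c6e8997)
  (PL.C (nat_lit 0x1c0acd7) (nat_lit 0x0) (nat_lit 0x432d2ed0b059a)
  (PL.C (nat_lit 0x1c1433b) (nat_lit 0x11a59a8a37c114) (nat_lit 0x0) gp4_0_31))))))))))))))))))))

noncomputable def gp4_0_29 : PL :=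
  (PL.C (nat_lit 0x19de724) (nat_lit 0x0) (nat_lit 0x1d55a96de1756c)
  (PL.C (nat_lit 0x19e4efd) (nat_lit 0x0) (nat_lit 0x38c475b115d17c)
  (PL.C (nat_lit 0x19f60b3) (nat_lit 0x24905c3f4406a3) (nat_lit 0x0)
  (PL.C (nat_lit 0x19ffa66) (nat_lit 0x0) (nat_lit 0x896661dd207a18)
  (PL.C (nat_lit 0x1a00b53) (nat_lit 0x36c59362a635a2) (nat_lit 0x0)
  (PL.C (nat_lit 0x1a096c7) (nat_lit 0x0) (nat_lit 0x1ab3b7507bfc20)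
  (PL.C (nat_lit 0x1a126d6) (nat_lit 0x0) (nat_lit 0x25afae9f872698)
  (PL.C (nat_lit 0x1a2c5b8) (nat_lit 0x1ebd7366add61) (nat_lit 0x0)
  (PL.C (nat_lit 0x1a3de49) (nat_lit 0x0) (nat_lit 0x248c2e8ccd977f)
  (PL.C (nat_lit 0x1a4ccce) (nat_lit 0x36edc39b2e9561) (nat_lit 0x0)
  (PL.C (nat_lit 0x1a4f05a) (nat_lit 0x229d655baaca15) (nat_lit 0x0)
  (PL.C (nat_lit 0x1a57d72) (nat_lit 0x0) (nat_lit 0xbc3ecdcabf62)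
  (PL.C (nat_lit 0x1a600f1) (nat_lit 0x0) (nat_lit 0x10d4848237256)
  (PL.C (nat_lit 0x1a9baf8) (nat_lit 0x0) (nat_lit 0x1c33c0ddc01d5a)
  (PL.C (nat_lit 0x1adb634) (nat_lit 0x0) (nat_lit 0x20da7594e069d3)
  (PL.C (nat_lit 0x1af143b) (nat_lit 0xdc3cfe759b4588) (nat_lit 0x0)
  (PL.C (nat_lit 0x1afd524) (nat_lit 0xc539b65322b5) (nat_lit 0x0)
  (PL.C (nat_lit 0x1b04b94) (nat_lit 0xf16cebc4d653d) (nat_lit 0x0)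
  (PL.C (nat_lit 0x1b2214e) (nat_lit 0x0) (nat_lit 0x1436f373822e8c)
  (PL.C (nat_lit 0x1b367f2) (nat_lit 0x0) (nat_lit 0x7fe4e730e851e) gp4_0_30))))))))))))))))))))

noncomputable def gp4_0_28 : PL :=
  (PL.C (nat_lit 0x18b7f5d) (nat_lit 0x542a7d78ae88e) (nat_lit 0x0)
  (PL.C (nat_lit 0x18d0e4a) (nat_lit 0x5a548e7d63a088) (nat_lit 0x0)
  (PL.C (nat_lit 0x18ed3c4) (nat_lit 0x35df357302775c) (nat_lit 0x0)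
  (PL.C (nat_lit 0x1901348) (nat_lit 0x205b2ca1d23211) (nat_lit 0x0)
  (PL.C (nat_lit 0x1906d34) (nat_lit 0x0) (nat_lit 0x21a1a2b9361e6)
  (PL.C (nat_lit 0x193238c) (nat_lit 0x1ce34593edf0ebf) (nat_lit 0x0)
  (PL.C (nat_lit 0x193bd7a) (nat_lit 0x1b8ba707b02d70) (nat_lit 0x0)
  (PL.C (nat_lit 0x1946901) (nat_lit 0x1366844dd65360) (nat_lit 0x0)
  (PL.C (nat_lit 0x1947968) (nat_lit 0x0) (nat_lit 0x16b48330faa565)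
  (PL.C (nat_lit 0x1948d9a) (nat_lit 0xa6e8330fa3c9a) (nat_lit 0x0)
  (PL.C (nat_lit 0x195306c) (nat_lit 0x0) (nat_lit 0x486d353f8be8c8)
  (PL.C (nat_lit 0x196e8b2) (nat_lit 0x9e0c79ad8312a0) (nat_lit 0x0)
  (PL.C (nat_lit 0x197e437) (nat_lit 0x0) (nat_lit 0xdbb580a90c77a)
  (PL.C (nat_lit 0x198044e) (nat_lit 0x0) (nat_lit 0x1436f373822e8c)
  (PL.C (nat_lit 0x1983674) (nat_lit 0x0) (nat_lit 0x43a40041cf5db)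
  (PL.C (nat_lit 0x1992afe) (nat_lit 0xa6e8330fa3c9a) (nat_lit 0x0)
  (PL.C (nat_lit 0x19c3082) (nat_lit 0x0) (nat_lit 0x7e28cf57d425c)
  (PL.C (nat_lit 0x19c4d15) (nat_lit 0x0) (nat_lit 0x26eca9fcc1a0f4)
  (PL.C (nat_lit 0x19cbf16) (nat_lit 0x99aa409d61105) (nat_lit 0x0)
  (PL.C (nat_lit 0x19daab6) (nat_lit 0x0) (nat_lit 0x1bacba287a223f) gp4_0_29))))))))))))))))))))

noncomputable def gp4_0_27 : PL :=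
  (PL.C (nat_lit 0x17a1fce) (nat_lit 0x0) (nat_lit 0x53a2a371c7252)
  (PL.C (nat_lit 0x17a57c6) (nat_lit 0x2c0a42f18de77a) (nat_lit 0x0)
  (PL.C (nat_lit 0x17b2eb4) (nat_lit 0x0) (nat_lit 0x105593556ad29b)
  (PL.C (nat_lit 0x17c9e16) (nat_lit 0x0) (nat_lit 0x1fac06ade4a569)
  (PL.C (nat_lit 0x17d998a) (nat_lit 0x5a49fe03164626) (nat_lit 0x0)
  (PL.C (nat_lit 0x17da6b8) (nat_lit 0x0) (nat_lit 0x188faf0a17526a)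
  (PL.C (nat_lit 0x17e364a) (nat_lit 0x0) (nat_lit 0xbb0ee49b6237)
  (PL.C (nat_lit 0x17e3ba9) (nat_lit 0x21ab29550b4d923) (nat_lit 0x0)
  (PL.C (nat_lit 0x17e50c9) (nat_lit 0x0) (nat_lit 0x5e70990a9a685c)
  (PL.C (nat_lit 0x1802d51) (nat_lit 0x4b7a250468aa48) (nat_lit 0x0)
  (PL.C (nat_lit 0x1812b1f) (nat_lit 0x0) (nat_lit 0x3a35e63b576c0)
  (PL.C (nat_lit 0x18294c4) (nat_lit 0x0) (nat_lit 0x643aa375d2c2)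
  (PL.C (nat_lit 0x182b56c) (nat_lit 0x10c03455a75878) (nat_lit 0x0)
  (PL.C (nat_lit 0x183ccdb) (nat_lit 0x0) (nat_lit 0x2bb6e8861fbff)
  (PL.C (nat_lit 0x184b25e) (nat_lit 0x0) (nat_lit 0xb2d828def8775)
  (PL.C (nat_lit 0x1863246) (nat_lit 0x0) (nat_lit 0x13723bbcba3bd55)
  (PL.C (nat_lit 0x18731b4) (nat_lit 0x0) (nat_lit 0xd13cf50836939)
  (PL.C (nat_lit 0x1877e6b) (nat_lit 0x0) (nat_lit 0xc760b17f0963a)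
  (PL.C (nat_lit 0x18b5df7) (nat_lit 0x2d262750f2ab39) (nat_lit 0x0)
  (PL.C (nat_lit 0x18b6c5c) (nat_lit 0x0) (nat_lit 0x4e513df87b1e29) gp4_0_28))))))))))))))))))))

noncomputable def gp4_0_26 : PL :=
  (PL.C (nat_lit 0x16516a4) (nat_lit 0x225d2f27bd46c) (nat_lit 0x0)
  (PL.C (nat_lit 0x165325b) (nat_lit 0x1562952a01ca24) (nat_lit 0x0)
  (PL.C (nat_lit 0x165c95c) (nat_lit 0xe05c65071a3bb) (nat_lit 0x0)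
  (PL.C (nat_lit 0x1667754) (nat_lit 0x0) (nat_lit 0x486d353f8be8c8)
  (PL.C (nat_lit 0x1669aa6) (nat_lit 0x125f98efc24af0) (nat_lit 0x0)
  (PL.C (nat_lit 0x1685217) (nat_lit 0x0) (nat_lit 0x29615acb4734)
  (PL.C (nat_lit 0x16886ba) (nat_lit 0x0) (nat_lit 0x77a8c5c2e267da)
  (PL.C (nat_lit 0x16c88b4) (nat_lit 0x91a241a61f510) (nat_lit 0x0)
  (PL.C (nat_lit 0x16cc48c) (nat_lit 0x2ae3e9074ba46e) (nat_lit 0x0)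
  (PL.C (nat_lit 0x16d343f) (nat_lit 0xfdb63eccc7a7e) (nat_lit 0x0)
  (PL.C (nat_lit 0x16e9cf3) (nat_lit 0x0) (nat_lit 0x5db616b8d3d3a9)
  (PL.C (nat_lit 0x16eaa4c) (nat_lit 0x1ba7ebb184e353) (nat_lit 0x0)
  (PL.C (nat_lit 0x171d254) (nat_lit 0x0) (nat_lit 0x2e074cf35b11eb)
  (PL.C (nat_lit 0x1726f72) (nat_lit 0x0) (nat_lit 0x896661dd207a18)
  (PL.C (nat_lit 0x17445ae) (nat_lit 0x18e2411132d47) (nat_lit 0x0)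
  (PL.C (nat_lit 0x1750ed5) (nat_lit 0x31804dc432fd0f) (nat_lit 0x0)
  (PL.C (nat_lit 0x1764be2) (nat_lit 0x7c5710468a697) (nat_lit 0x0)
  (PL.C (nat_lit 0x176cb1c) (nat_lit 0x0) (nat_lit 0x55bd4c07686f4)
  (PL.C (nat_lit 0x17936a4) (nat_lit 0x2ae3e9074ba46e) (nat_lit 0x0)
  (PL.C (nat_lit 0x179b514) (nat_lit 0x0) (nat_lit 0x8eb75658047f0) gp4_0_27))))))))))))))))))))

noncomputable def gp4_0_25 : PL :=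
  (PL.C (nat_lit 0x153fd35) (nat_lit 0x4f0dc6cbab72e) (nat_lit 0x0)
  (PL.C (nat_lit 0x1558182) (nat_lit 0x11b30cc6c03a9a) (nat_lit 0x0)
  (PL.C (nat_lit 0x156d528) (nat_lit 0x16f5133381dac6) (nat_lit 0x0)
  (PL.C (nat_lit 0x1586e06) (nat_lit 0x0) (nat_lit 0x1a05e40ab17c4d)
  (PL.C (nat_lit 0x15932a6) (nat_lit 0x0) (nat_lit 0x25afae9f872698)
  (PL.C (nat_lit 0x15a89f8) (nat_lit 0x1ebd7366add61) (nat_lit 0x0)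
  (PL.C (nat_lit 0x15b132a) (nat_lit 0x0) (nat_lit 0x55576a2db4b2c)
  (PL.C (nat_lit 0x15c520c) (nat_lit 0x0) (nat_lit 0xa46db7f327c8d)
  (PL.C (nat_lit 0x15c6862) (nat_lit 0x0) (nat_lit 0x76817918874ab)
  (PL.C (nat_lit 0x15d295a) (nat_lit 0x12b4c0148a0862) (nat_lit 0x0)
  (PL.C (nat_lit 0x15ea4bf) (nat_lit 0x0) (nat_lit 0x506f87a09d6f5)
  (PL.C (nat_lit 0x15f267e) (nat_lit 0x0) (nat_lit 0x17370e0f1d121ee)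
  (PL.C (nat_lit 0x15f9b04) (nat_lit 0x0) (nat_lit 0x3f40006d6f22d)
  (PL.C (nat_lit 0x1605044) (nat_lit 0x0) (nat_lit 0x2527fff95532d)
  (PL.C (nat_lit 0x160efae) (nat_lit 0x0) (nat_lit 0x13723bbcba3bd55)
  (PL.C (nat_lit 0x161a052) (nat_lit 0x0) (nat_lit 0x4468a05971c905)
  (PL.C (nat_lit 0x1626a32) (nat_lit 0x0) (nat_lit 0x12dd12557b7171)
  (PL.C (nat_lit 0x1626f2d) (nat_lit 0x0) (nat_lit 0x4460ffd77e75c3)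
  (PL.C (nat_lit 0x1633886) (nat_lit 0x19b2b9230a5b6a) (nat_lit 0x0)
  (PL.C (nat_lit 0x164ab9e) (nat_lit 0xe4a526508f2ad) (nat_lit 0x0) gp4_0_26))))))))))))))))))))

noncomputable def gp4_0_24 : PL :=
  (PL.C (nat_lit 0x1432344) (nat_lit 0x15f0b02b3a6806) (nat_lit 0x0)
  (PL.C (nat_lit 0x1439cd3) (nat_lit 0xb8e0b32a82316) (nat_lit 0x0)
  (PL.C (nat_lit 0x1450dde) (nat_lit 0x991666166de08) (nat_lit 0x0)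
  (PL.C (nat_lit 0x1459cb6) (nat_lit 0x0) (nat_lit 0x2595ba0dabd36d9)
  (PL.C (nat_lit 0x146b0d4) (nat_lit 0x0) (nat_lit 0x188f0fefd1e7f4)
  (PL.C (nat_lit 0x146deac) (nat_lit 0x0) (nat_lit 0x21a1a2b9361e6)
  (PL.C (nat_lit 0x14744a6) (nat_lit 0x5cae9cbfa03194) (nat_lit 0x0)
  (PL.C (nat_lit 0x148917a) (nat_lit 0x5a548e7d63a088) (nat_lit 0x0)
  (PL.C (nat_lit 0x148a841) (nat_lit 0x20d2de14abe8ab) (nat_lit 0x0)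
  (PL.C (nat_lit 0x149ed4f) (nat_lit 0x0) (nat_lit 0x71acd8f6453ec8)
  (PL.C (nat_lit 0x14a7b57) (nat_lit 0x0) (nat_lit 0xa006b0fc14430)
  (PL.C (nat_lit 0x14c6f0c) (nat_lit 0x0) (nat_lit 0x141b1928c753ee)
  (PL.C (nat_lit 0x14d5f43) (nat_lit 0x1decb848412ff) (nat_lit 0x0)
  (PL.C (nat_lit 0x14deab8) (nat_lit 0x205b2ca1d23211) (nat_lit 0x0)
  (PL.C (nat_lit 0x14e1d93) (nat_lit 0xfdb63eccc7a7e) (nat_lit 0x0)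
  (PL.C (nat_lit 0x14e4e62) (nat_lit 0x856f0ce2b358d4) (nat_lit 0x0)
  (PL.C (nat_lit 0x14f6e96) (nat_lit 0xd21dfb906f304) (nat_lit 0x0)
  (PL.C (nat_lit 0x150ee23) (nat_lit 0x3decffaf38e44a) (nat_lit 0x0)
  (PL.C (nat_lit 0x1523d3c) (nat_lit 0x6f6d5c5c2cf4c) (nat_lit 0x0)
  (PL.C (nat_lit 0x153e07f) (nat_lit 0x4b7a250468aa48) (nat_lit 0x0) gp4_0_25))))))))))))))))))))

noncomputable def gp4_0_23 : PL :=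
  (PL.C (nat_lit 0x130ac22) (nat_lit 0x0) (nat_lit 0x14a263a66993d8)
  (PL.C (nat_lit 0x131eeab) (nat_lit 0x0) (nat_lit 0x5e70990a9a685c)
  (PL.C (nat_lit 0x132f884) (nat_lit 0x1630a6eb231a6) (nat_lit 0x0)
  (PL.C (nat_lit 0x133ebbc) (nat_lit 0x12d7f03f3493b) (nat_lit 0x0)
  (PL.C (nat_lit 0x13427b4) (nat_lit 0x0) (nat_lit 0x65a8d17a87fdc1)
  (PL.C (nat_lit 0x13441bc) (nat_lit 0x13dded0fd22633) (nat_lit 0x0)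
  (PL.C (nat_lit 0x139f287) (nat_lit 0x0) (nat_lit 0x126116fb5aa6fc)
  (PL.C (nat_lit 0x13b289b) (nat_lit 0x1bd52f1de9a478) (nat_lit 0x0)
  (PL.C (nat_lit 0x13bf6ea) (nat_lit 0x7c5710468a697) (nat_lit 0x0)
  (PL.C (nat_lit 0x13c6bd4) (nat_lit 0x0) (nat_lit 0x2bc2d067f5253f)
  (PL.C (nat_lit 0x13c92b8) (nat_lit 0x0) (nat_lit 0x43f64857ab32b3)
  (PL.C (nat_lit 0x13cab4a) (nat_lit 0x0) (nat_lit 0x136f9b47865699)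
  (PL.C (nat_lit 0x13deab4) (nat_lit 0x0) (nat_lit 0x81c271f083e5f)
  (PL.C (nat_lit 0x13f615e) (nat_lit 0x751c146b9075ba) (nat_lit 0x0)
  (PL.C (nat_lit 0x140b2ed) (nat_lit 0x35289da6a7120a) (nat_lit 0x0)
  (PL.C (nat_lit 0x1414cee) (nat_lit 0x1b5450bb5a7edd) (nat_lit 0x0)
  (PL.C (nat_lit 0x1422132) (nat_lit 0x751c146b9075ba) (nat_lit 0x0)
  (PL.C (nat_lit 0x1429864) (nat_lit 0xd495cfa239cc5) (nat_lit 0x0)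
  (PL.C (nat_lit 0x142aa0d) (nat_lit 0x0) (nat_lit 0x440664d13a1519)
  (PL.C (nat_lit 0x14311aa) (nat_lit 0x0) (nat_lit 0x1cdeeb8b08c3f8) gp4_0_24))))))))))))))))))))

noncomputable def gp4_0_22 : PL :=
  (PL.C (nat_lit 0x1266e6a) (nat_lit 0x0) (nat_lit 0xbc3ecdcabf62)
  (PL.C (nat_lit 0x127ef3c) (nat_lit 0x1ba7ebb184e353) (nat_lit 0x0)
  (PL.C (nat_lit 0x1282716) (nat_lit 0x402f2c4a0de577) (nat_lit 0x0)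
  (PL.C (nat_lit 0x1286cf6) (nat_lit 0x0) (nat_lit 0xacdfe19194305)
  (PL.C (nat_lit 0x128de25) (nat_lit 0x6e8071ce1bc35) (nat_lit 0x0)
  (PL.C (nat_lit 0x1296854) (nat_lit 0xc3953d065b778) (nat_lit 0x0)
  (PL.C (nat_lit 0x129eee6) (nat_lit 0x0) (nat_lit 0x3a939e806a20bc)
  (PL.C (nat_lit 0x12ab3ba) (nat_lit 0x0) (nat_lit 0x1ba8ee0a0af8e7)
  (PL.C (nat_lit 0x12b32a1) (nat_lit 0x88d2b3cc05cf58) (nat_lit 0x0)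
  (PL.C (nat_lit 0x12c13bf) (nat_lit 0x0) (nat_lit 0x2754600c6e8997)
  (PL.C (nat_lit 0x12c280a) (nat_lit 0x0) (nat_lit 0x1252b0bd4988b6)
  (PL.C (nat_lit 0x12cae6f) (nat_lit 0x24989be78e2eca) (nat_lit 0x0)
  (PL.C (nat_lit 0x12d7034) (nat_lit 0x0) (nat_lit 0x188f0fefd1e7f4)
  (PL.C (nat_lit 0x12e41e4) (nat_lit 0x0) (nat_lit 0x380fa407ba9f2e)
  (PL.C (nat_lit 0x12ea909) (nat_lit 0x0) (nat_lit 0xaf5c727161fc9)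
  (PL.C (nat_lit 0x12eb7be) (nat_lit 0x33413fdca1fd7f) (nat_lit 0x0)
  (PL.C (nat_lit 0x12f66be) (nat_lit 0x72b9ca0ef9c492) (nat_lit 0x0)
  (PL.C (nat_lit 0x12f9b82) (nat_lit 0x0) (nat_lit 0x136f9b47865699)
  (PL.C (nat_lit 0x1302ab3) (nat_lit 0x0) (nat_lit 0x69673ead6dfd0)
  (PL.C (nat_lit 0x1305722) (nat_lit 0x4477bbaf600881) (nat_lit 0x0) gp4_0_23))))))))))))))))))))

noncomputable def gp4_0_21 : PL :=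
  (PL.C (nat_lit 0x11640db) (nat_lit 0x0) (nat_lit 0x59bf9bd6f55dc)
  (PL.C (nat_lit 0x116d04b) (nat_lit 0x1aca0ec230e513) (nat_lit 0x0)
  (PL.C (nat_lit 0x117e986) (nat_lit 0x24118fb5506c46) (nat_lit 0x0)
  (PL.C (nat_lit 0x118a03c) (nat_lit 0x0) (nat_lit 0x141b1928c753ee)
  (PL.C (nat_lit 0x118a60d) (nat_lit 0x0) (nat_lit 0x59bf9bd6f55dc)
  (PL.C (nat_lit 0x118fe4c) (nat_lit 0x2f1ed3e578c78) (nat_lit 0x0)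
  (PL.C (nat_lit 0x11909cd) (nat_lit 0x0) (nat_lit 0x2dca5d0429524)
  (PL.C (nat_lit 0x11955f6) (nat_lit 0x26eb8c2ad0aa) (nat_lit 0x0)
  (PL.C (nat_lit 0x11b9f17) (nat_lit 0x88d2b3cc05cf58) (nat_lit 0x0)
  (PL.C (nat_lit 0x11c6bef) (nat_lit 0x1aca0ec230e513) (nat_lit 0x0)
  (PL.C (nat_lit 0x11e7978) (nat_lit 0x378b87ac3d83cd) (nat_lit 0x0)
  (PL.C (nat_lit 0x11ee8bb) (nat_lit 0x0) (nat_lit 0x2002ec563d153)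
  (PL.C (nat_lit 0x11f62d2) (nat_lit 0x8ed7e5adf45a35) (nat_lit 0x0)
  (PL.C (nat_lit 0x121a44b) (nat_lit 0x0) (nat_lit 0x56d2c2ebecf29)
  (PL.C (nat_lit 0x122454c) (nat_lit 0x0) (nat_lit 0x20da7594e069d3)
  (PL.C (nat_lit 0x122c09e) (nat_lit 0x0) (nat_lit 0xaee73f5602d8e)
  (PL.C (nat_lit 0x122c45c) (nat_lit 0x0) (nat_lit 0x8e886c89d8382)
  (PL.C (nat_lit 0x124ea78) (nat_lit 0x0) (nat_lit 0x10eb72f408563e)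
  (PL.C (nat_lit 0x12568a4) (nat_lit 0x0) (nat_lit 0x2e074cf35b11eb)
  (PL.C (nat_lit 0x125ffe4) (nat_lit 0x0) (nat_lit 0x55bd4c07686f4) gp4_0_22))))))))))))))))))))

noncomputable def gp4_0_20 : PL :=
  (PL.C (nat_lit 0x106fe93) (nat_lit 0x5dabc5a356c7f2) (nat_lit 0x0)
  (PL.C (nat_lit 0x10793fa) (nat_lit 0x0) (nat_lit 0x2795734d62efd6)
  (PL.C (nat_lit 0x107aa3e) (nat_lit 0x169c6612e7d29d) (nat_lit 0x0)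
  (PL.C (nat_lit 0x10917c5) (nat_lit 0x0) (nat_lit 0x1ca77b2507b800)
  (PL.C (nat_lit 0x10af378) (nat_lit 0x16f455f998c19) (nat_lit 0x0)
  (PL.C (nat_lit 0x10d28fc) (nat_lit 0x605457e042425) (nat_lit 0x0)
  (PL.C (nat_lit 0x10d9b56) (nat_lit 0x5a49fe03164626) (nat_lit 0x0)
  (PL.C (nat_lit 0x10db3bc) (nat_lit 0x0) (nat_lit 0x7d9bbf642fde2)
  (PL.C (nat_lit 0x10e2048) (nat_lit 0x428cf5c0621c9) (nat_lit 0x0)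
  (PL.C (nat_lit 0x10f45cc) (nat_lit 0x0) (nat_lit 0x20f2be52312232)
  (PL.C (nat_lit 0x10fed7a) (nat_lit 0x2c0a42f18de77a) (nat_lit 0x0)
  (PL.C (nat_lit 0x110c754) (nat_lit 0x0) (nat_lit 0x7d9bbf642fde2)
  (PL.C (nat_lit 0x112de0e) (nat_lit 0x0) (nat_lit 0x2595ba0dabd36d9)
  (PL.C (nat_lit 0x113c724) (nat_lit 0x225d2f27bd46c) (nat_lit 0x0)
  (PL.C (nat_lit 0x113d4e9) (nat_lit 0x0) (nat_lit 0xa006b0fc14430)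
  (PL.C (nat_lit 0x114eb22) (nat_lit 0x12e5583069ba48) (nat_lit 0x0)
  (PL.C (nat_lit 0x1155ce2) (nat_lit 0x98e39f18ca626) (nat_lit 0x0)
  (PL.C (nat_lit 0x115b9da) (nat_lit 0x59753e4d1e634) (nat_lit 0x0)
  (PL.C (nat_lit 0x11619e4) (nat_lit 0x0) (nat_lit 0x34df5e7283b73b)
  (PL.C (nat_lit 0x116317b) (nat_lit 0x0) (nat_lit 0x506f87a09d6f5) gp4_0_21))))))))))))))))))))

noncomputable def gp4_0_19 : PL :=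
  (PL.C (nat_lit 0xf987ec) (nat_lit 0x262c0315e3f1fc) (nat_lit 0x0)
  (PL.C (nat_lit 0xfc1534) (nat_lit 0x77926705400ed) (nat_lit 0x0)
  (PL.C (nat_lit 0xfc3a84) (nat_lit 0x0) (nat_lit 0x2abc898849fcd2)
  (PL.C (nat_lit 0xfdd26b) (nat_lit 0x9f3d6ff3186d5) (nat_lit 0x0)
  (PL.C (nat_lit 0xfe665c) (nat_lit 0x38d7a6b89de1cd) (nat_lit 0x0)
  (PL.C (nat_lit 0xfecedc) (nat_lit 0x1c8dc7325350cb) (nat_lit 0x0)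
  (PL.C (nat_lit 0xfee086) (nat_lit 0xfe54856720a5a0) (nat_lit 0x0)
  (PL.C (nat_lit 0xff33bd) (nat_lit 0xa906dcbc700903) (nat_lit 0x0)
  (PL.C (nat_lit 0xffc56d) (nat_lit 0x0) (nat_lit 0x1d1588fce757b)
  (PL.C (nat_lit 0x1001e36) (nat_lit 0x0) (nat_lit 0x59ac04cbdce283)
  (PL.C (nat_lit 0x100c76a) (nat_lit 0x236fab2593a22) (nat_lit 0x0)
  (PL.C (nat_lit 0x101ce48) (nat_lit 0x0) (nat_lit 0x188faf0a17526a)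
  (PL.C (nat_lit 0x101f607) (nat_lit 0x0) (nat_lit 0x783ddcd051ffe9)
  (PL.C (nat_lit 0x1028892) (nat_lit 0x41ef08d03ecc4) (nat_lit 0x0)
  (PL.C (nat_lit 0x1032194) (nat_lit 0x0) (nat_lit 0x98bb8b8dfb81)
  (PL.C (nat_lit 0x103830f) (nat_lit 0x0) (nat_lit 0x68d7ba74e7ceb)
  (PL.C (nat_lit 0x1042184) (nat_lit 0x0) (nat_lit 0x8025aebc13a84)
  (PL.C (nat_lit 0x1042e81) (nat_lit 0x0) (nat_lit 0x547d23886a4942)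
  (PL.C (nat_lit 0x1049961) (nat_lit 0x7f583347b37e6) (nat_lit 0x0)
  (PL.C (nat_lit 0x104fef2) (nat_lit 0x0) (nat_lit 0x4e1b5cab77d1e) gp4_0_20))))))))))))))))))))

noncomputable def gp4_0_18 : PL :=
  (PL.C (nat_lit 0xec4a1e) (nat_lit 0x0) (nat_lit 0xc60e59da78b086)
  (PL.C (nat_lit 0xee0f18) (nat_lit 0x48673925ed6566) (nat_lit 0x0)
  (PL.C (nat_lit 0xee2192) (nat_lit 0x2599ee9295cca4) (nat_lit 0x0)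
  (PL.C (nat_lit 0xeefa38) (nat_lit 0x428cf5c0621c9) (nat_lit 0x0)
  (PL.C (nat_lit 0xef11c4) (nat_lit 0x6b92572e863da) (nat_lit 0x0)
  (PL.C (nat_lit 0xef3343) (nat_lit 0xb8cdd702c20cf) (nat_lit 0x0)
  (PL.C (nat_lit 0xef6bb3) (nat_lit 0x0) (nat_lit 0x4460ffd77e75c3)
  (PL.C (nat_lit 0xf036ba) (nat_lit 0x0) (nat_lit 0xb2d828def8775)
  (PL.C (nat_lit 0xf0a36b) (nat_lit 0x1bd52f1de9a478) (nat_lit 0x0)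
  (PL.C (nat_lit 0xf14265) (nat_lit 0x287051be81a87e) (nat_lit 0x0)
  (PL.C (nat_lit 0xf19825) (nat_lit 0x0) (nat_lit 0xc3acc54a72256)
  (PL.C (nat_lit 0xf3782a) (nat_lit 0x0) (nat_lit 0x4376a2a6ee02d)
  (PL.C (nat_lit 0xf468a2) (nat_lit 0x5cae9cbfa03194) (nat_lit 0x0)
  (PL.C (nat_lit 0xf47188) (nat_lit 0x0) (nat_lit 0x172862de0ec773)
  (PL.C (nat_lit 0xf480b7) (nat_lit 0x2508c42d2d736d) (nat_lit 0x0)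
  (PL.C (nat_lit 0xf5d039) (nat_lit 0xdc3cfe759b4588) (nat_lit 0x0)
  (PL.C (nat_lit 0xf68c38) (nat_lit 0x0) (nat_lit 0xfb01d2002a51)
  (PL.C (nat_lit 0xf6a423) (nat_lit 0x45d16309db9846) (nat_lit 0x0)
  (PL.C (nat_lit 0xf82e74) (nat_lit 0x396aaacebe3d79) (nat_lit 0x0)
  (PL.C (nat_lit 0xf8b48e) (nat_lit 0x0) (nat_lit 0x14a263a66993d8) gp4_0_19))))))))))))))))))))

noncomputable def gp4_0_17 : PL :=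
  (PL.C (nat_lit 0xde3f82) (nat_lit 0x0) (nat_lit 0x1252b0bd4988b6)
  (PL.C (nat_lit 0xdebe62) (nat_lit 0x0) (nat_lit 0x4376a2a6ee02d)
  (PL.C (nat_lit 0xdedeec) (nat_lit 0x0) (nat_lit 0x2fd379e3a82326)
  (PL.C (nat_lit 0xdf16d7) (nat_lit 0x45d16309db9846) (nat_lit 0x0)
  (PL.C (nat_lit 0xe00619) (nat_lit 0x35289da6a7120a) (nat_lit 0x0)
  (PL.C (nat_lit 0xe09ec2) (nat_lit 0x61bd2886980850) (nat_lit 0x0)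
  (PL.C (nat_lit 0xe17e28) (nat_lit 0x1a44ecc0ffc5e1) (nat_lit 0x0)
  (PL.C (nat_lit 0xe295aa) (nat_lit 0x0) (nat_lit 0x59ac04cbdce283)
  (PL.C (nat_lit 0xe2a8ce) (nat_lit 0x3878fc7e7e21c) (nat_lit 0x0)
  (PL.C (nat_lit 0xe3abac) (nat_lit 0x15f0b02b3a6806) (nat_lit 0x0)
  (PL.C (nat_lit 0xe621c4) (nat_lit 0x0) (nat_lit 0x34df5e7283b73b)
  (PL.C (nat_lit 0xe7621c) (nat_lit 0x0) (nat_lit 0x1d26d1116068a9)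
  (PL.C (nat_lit 0xe8c63c) (nat_lit 0x0) (nat_lit 0x380fa407ba9f2e)
  (PL.C (nat_lit 0xe8d84d) (nat_lit 0x0) (nat_lit 0xc760b17f0963a)
  (PL.C (nat_lit 0xe9c32a) (nat_lit 0x16bd521ad76454) (nat_lit 0x0)
  (PL.C (nat_lit 0xea6758) (nat_lit 0x0) (nat_lit 0x43f64857ab32b3)
  (PL.C (nat_lit 0xead6a7) (nat_lit 0x24905c3f4406a3) (nat_lit 0x0)
  (PL.C (nat_lit 0xeb4a74) (nat_lit 0x0) (nat_lit 0x8025aebc13a84)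
  (PL.C (nat_lit 0xeb5cb7) (nat_lit 0x3decffaf38e44a) (nat_lit 0x0)
  (PL.C (nat_lit 0xec46cc) (nat_lit 0x6f6d5c5c2cf4c) (nat_lit 0x0) gp4_0_18))))))))))))))))))))

noncomputable def gp4_0_16 : PL :=
  (PL.C (nat_lit 0xd2a49c) (nat_lit 0x262c0315e3f1fc) (nat_lit 0x0)
  (PL.C (nat_lit 0xd30b51) (nat_lit 0x8aacd4a20c853) (nat_lit 0x0)
  (PL.C (nat_lit 0xd31cdc) (nat_lit 0x23a708de87db82) (nat_lit 0x0)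
  (PL.C (nat_lit 0xd4eb94) (nat_lit 0xbed328dd851b85) (nat_lit 0x0)
  (PL.C (nat_lit 0xd5cc9e) (nat_lit 0x0) (nat_lit 0x5c23db63f6478f)
  (PL.C (nat_lit 0xd6c0cc) (nat_lit 0xbed328dd851b85) (nat_lit 0x0)
  (PL.C (nat_lit 0xd7611c) (nat_lit 0x0) (nat_lit 0x8eb75658047f0)
  (PL.C (nat_lit 0xd76cd8) (nat_lit 0x0) (nat_lit 0x3f82a900e8a76b)
  (PL.C (nat_lit 0xd7bde2) (nat_lit 0x0) (nat_lit 0x15a6d3201ce02c)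
  (PL.C (nat_lit 0xd91324) (nat_lit 0x128f7683b4635b6) (nat_lit 0x0)
  (PL.C (nat_lit 0xd9c263) (nat_lit 0x0) (nat_lit 0x547d23886a4942)
  (PL.C (nat_lit 0xd9cb38) (nat_lit 0xae6f1006bdde) (nat_lit 0x0)
  (PL.C (nat_lit 0xd9e9c8) (nat_lit 0x16f455f998c19) (nat_lit 0x0)
  (PL.C (nat_lit 0xda2dc4) (nat_lit 0x36e0ee6cd60ffe) (nat_lit 0x0)
  (PL.C (nat_lit 0xda3eb3) (nat_lit 0x8aacd4a20c853) (nat_lit 0x0)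
  (PL.C (nat_lit 0xdb1ad6) (nat_lit 0x0) (nat_lit 0x12db1c031f3010)
  (PL.C (nat_lit 0xdba245) (nat_lit 0x0) (nat_lit 0x783ddcd051ffe9)
  (PL.C (nat_lit 0xdbf38a) (nat_lit 0x9e0c79ad8312a0) (nat_lit 0x0)
  (PL.C (nat_lit 0xdc523a) (nat_lit 0x0) (nat_lit 0x48e100087871b)
  (PL.C (nat_lit 0xde021f) (nat_lit 0x3910f3436a1e9cf) (nat_lit 0x0) gp4_0_17))))))))))))))))))))

noncomputable def gp4_0_15 : PL :=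
  (PL.C (nat_lit 0xc69f44) (nat_lit 0x0) (nat_lit 0x65a8d17a87fdc1)
  (PL.C (nat_lit 0xc7227c) (nat_lit 0x3bc79114c1ceaa) (nat_lit 0x0)
  (PL.C (nat_lit 0xc77716) (nat_lit 0x18b004890828f3a) (nat_lit 0x0)
  (PL.C (nat_lit 0xc80d2a) (nat_lit 0x0) (nat_lit 0x1ba8ee0a0af8e7)
  (PL.C (nat_lit 0xc8744a) (nat_lit 0x33413fdca1fd7f) (nat_lit 0x0)
  (PL.C (nat_lit 0xc8f578) (nat_lit 0xae6f1006bdde) (nat_lit 0x0)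
  (PL.C (nat_lit 0xc9c606) (nat_lit 0x402f2c4a0de577) (nat_lit 0x0)
  (PL.C (nat_lit 0xc9cfd4) (nat_lit 0xd7b22cf22fbc0) (nat_lit 0x0)
  (PL.C (nat_lit 0xca1bbf) (nat_lit 0x0) (nat_lit 0x248c2e8ccd977f)
  (PL.C (nat_lit 0xca67ac) (nat_lit 0x23a708de87db82) (nat_lit 0x0)
  (PL.C (nat_lit 0xcac722) (nat_lit 0x0) (nat_lit 0x6344dce6cfc09)
  (PL.C (nat_lit 0xcb1d6c) (nat_lit 0x18af5f94e3aed7) (nat_lit 0x0)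
  (PL.C (nat_lit 0xcbf472) (nat_lit 0xfe54856720a5a0) (nat_lit 0x0)
  (PL.C (nat_lit 0xcd8128) (nat_lit 0x0) (nat_lit 0x923c739511bac)
  (PL.C (nat_lit 0xcdd15b) (nat_lit 0x0) (nat_lit 0xae4e5d0f4953dc)
  (PL.C (nat_lit 0xcddcbb) (nat_lit 0x0) (nat_lit 0x3a878120684556)
  (PL.C (nat_lit 0xcedd53) (nat_lit 0x0) (nat_lit 0xa389d7b97d6832)
  (PL.C (nat_lit 0xcf014d) (nat_lit 0x0) (nat_lit 0x1d1588fce757b)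
  (PL.C (nat_lit 0xd14c5a) (nat_lit 0x0) (nat_lit 0x1937f0894adb7c)
  (PL.C (nat_lit 0xd21b12) (nat_lit 0xce060fbecf98a3) (nat_lit 0x0) gp4_0_16))))))))))))))))))))

noncomputable def gp4_0_14 : PL :=
  (PL.C (nat_lit 0xb97652) (nat_lit 0x16bd521ad76454) (nat_lit 0x0)
  (PL.C (nat_lit 0xb98092) (nat_lit 0x0) (nat_lit 0xb40878f0256f2)
  (PL.C (nat_lit 0xb9e032) (nat_lit 0x0) (nat_lit 0xa59d0a50f6326)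
  (PL.C (nat_lit 0xbb195e) (nat_lit 0x0) (nat_lit 0xb40878f0256f2)
  (PL.C (nat_lit 0xbb5bde) (nat_lit 0xee6a79313dfd) (nat_lit 0x0)
  (PL.C (nat_lit 0xbb68db) (nat_lit 0x5dabc5a356c7f2) (nat_lit 0x0)
  (PL.C (nat_lit 0xbb8ea4) (nat_lit 0x0) (nat_lit 0x6e15ca175d4e8)
  (PL.C (nat_lit 0xbccedd) (nat_lit 0x36378e7e67a14) (nat_lit 0x0)
  (PL.C (nat_lit 0xbd14ba) (nat_lit 0x18b004890828f3a) (nat_lit 0x0)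
  (PL.C (nat_lit 0xbd9d4a) (nat_lit 0x0) (nat_lit 0xa59d0a50f6326)
  (PL.C (nat_lit 0xbed967) (nat_lit 0x7b7ea5c29df69) (nat_lit 0x0)
  (PL.C (nat_lit 0xbf45d2) (nat_lit 0x72b9ca0ef9c492) (nat_lit 0x0)
  (PL.C (nat_lit 0xc05631) (nat_lit 0xb1c5ab7d30023) (nat_lit 0x0)
  (PL.C (nat_lit 0xc11832) (nat_lit 0x0) (nat_lit 0x917c107d225f4)
  (PL.C (nat_lit 0xc18388) (nat_lit 0x378b87ac3d83cd) (nat_lit 0x0)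
  (PL.C (nat_lit 0xc39b18) (nat_lit 0x0) (nat_lit 0xfb01d2002a51)
  (PL.C (nat_lit 0xc4499c) (nat_lit 0x2f1ed3e578c78) (nat_lit 0x0)
  (PL.C (nat_lit 0xc54a28) (nat_lit 0x0) (nat_lit 0x172862de0ec773)
  (PL.C (nat_lit 0xc56f64) (nat_lit 0x0) (nat_lit 0x6a712f874bfaed)
  (PL.C (nat_lit 0xc5e96e) (nat_lit 0x0) (nat_lit 0x55576a2db4b2c) gp4_0_15))))))))))))))))))))

noncomputable def gp4_0_13 : PL :=
  (PL.C (nat_lit 0xad7456) (nat_lit 0x4e7d25952c64d) (nat_lit 0x0)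
  (PL.C (nat_lit 0xadbb96) (nat_lit 0x1a69b9394505d8) (nat_lit 0x0)
  (PL.C (nat_lit 0xadbe07) (nat_lit 0x0) (nat_lit 0xae4e5d0f4953dc)
  (PL.C (nat_lit 0xadff4c) (nat_lit 0x1f47014aa9309d) (nat_lit 0x0)
  (PL.C (nat_lit 0xaf5462) (nat_lit 0x640d6eae4bafb0) (nat_lit 0x0)
  (PL.C (nat_lit 0xafb7fc) (nat_lit 0x0) (nat_lit 0xa46db7f327c8d)
  (PL.C (nat_lit 0xafc6d4) (nat_lit 0x13dded0fd22633) (nat_lit 0x0)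
  (PL.C (nat_lit 0xb0f823) (nat_lit 0x4351739b4ca1b) (nat_lit 0x0)
  (PL.C (nat_lit 0xb1f3a5) (nat_lit 0x0) (nat_lit 0x62dfad0d41216)
  (PL.C (nat_lit 0xb370a8) (nat_lit 0x0) (nat_lit 0x1e70beb15b213c)
  (PL.C (nat_lit 0xb3b659) (nat_lit 0x0) (nat_lit 0x10d4848237256)
  (PL.C (nat_lit 0xb3bce4) (nat_lit 0x38d7a6b89de1cd) (nat_lit 0x0)
  (PL.C (nat_lit 0xb3cd28) (nat_lit 0x6cc5b5a674dda) (nat_lit 0x0)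
  (PL.C (nat_lit 0xb548fc) (nat_lit 0x0) (nat_lit 0x2abc898849fcd2)
  (PL.C (nat_lit 0xb56c89) (nat_lit 0x0) (nat_lit 0xc3742b88ef870)
  (PL.C (nat_lit 0xb5da38) (nat_lit 0x6cc5b5a674dda) (nat_lit 0x0)
  (PL.C (nat_lit 0xb73eb4) (nat_lit 0x128f7683b4635b6) (nat_lit 0x0)
  (PL.C (nat_lit 0xb7da18) (nat_lit 0x48673925ed6566) (nat_lit 0x0)
  (PL.C (nat_lit 0xb7e346) (nat_lit 0x0) (nat_lit 0x48e100087871b)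
  (PL.C (nat_lit 0xb96698) (nat_lit 0x0) (nat_lit 0xbfdad3a8bc671) gp4_0_14))))))))))))))))))))

noncomputable def gp4_0_12 : PL :=
  (PL.C (nat_lit 0x9f9d22) (nat_lit 0x0) (nat_lit 0xc60e59da78b086)
  (PL.C (nat_lit 0xa0247c) (nat_lit 0x0) (nat_lit 0x98bb8b8dfb81)
  (PL.C (nat_lit 0xa06cf2) (nat_lit 0xce060fbecf98a3) (nat_lit 0x0)
  (PL.C (nat_lit 0xa0d6ee) (nat_lit 0x3335921475d0f3) (nat_lit 0x0)
  (PL.C (nat_lit 0xa11b43) (nat_lit 0x1a5e73251f77848) (nat_lit 0x0)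
  (PL.C (nat_lit 0xa2501c) (nat_lit 0x0) (nat_lit 0x4125e209bcb8e7)
  (PL.C (nat_lit 0xa25cb5) (nat_lit 0xb1c5ab7d30023) (nat_lit 0x0)
  (PL.C (nat_lit 0xa2f06c) (nat_lit 0x36e0ee6cd60ffe) (nat_lit 0x0)
  (PL.C (nat_lit 0xa3007a) (nat_lit 0x2026759678f4af) (nat_lit 0x0)
  (PL.C (nat_lit 0xa3c839) (nat_lit 0x0) (nat_lit 0x126116fb5aa6fc)
  (PL.C (nat_lit 0xa3e026) (nat_lit 0x8ed7e5adf45a35) (nat_lit 0x0)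
  (PL.C (nat_lit 0xa5cdb4) (nat_lit 0x18af5f94e3aed7) (nat_lit 0x0)
  (PL.C (nat_lit 0xa936f2) (nat_lit 0x125f98efc24af0) (nat_lit 0x0)
  (PL.C (nat_lit 0xa9eb04) (nat_lit 0x0) (nat_lit 0x84c2f5944b48de)
  (PL.C (nat_lit 0xaa227e) (nat_lit 0x16f85357e1a6e0) (nat_lit 0x0)
  (PL.C (nat_lit 0xaa839e) (nat_lit 0x296e0030b9daf) (nat_lit 0x0)
  (PL.C (nat_lit 0xab2f9c) (nat_lit 0x0) (nat_lit 0x24804be6f3002)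
  (PL.C (nat_lit 0xabf95a) (nat_lit 0x470d4e7607e277) (nat_lit 0x0)
  (PL.C (nat_lit 0xac5b0c) (nat_lit 0x0) (nat_lit 0x43a40041cf5db)
  (PL.C (nat_lit 0xad020a) (nat_lit 0xd21dfb906f304) (nat_lit 0x0) gp4_0_13))))))))))))))))))))

noncomputable def gp4_0_11 : PL :=
  (PL.C (nat_lit 0x92a25c) (nat_lit 0x0) (nat_lit 0x20f2be52312232)
  (PL.C (nat_lit 0x92e17c) (nat_lit 0x7da00e18c9290) (nat_lit 0x0)
  (PL.C (nat_lit 0x9318bd) (nat_lit 0x0) (nat_lit 0x3a35e63b576c0)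
  (PL.C (nat_lit 0x94016a) (nat_lit 0x0) (nat_lit 0x8a7e08d93b2194)
  (PL.C (nat_lit 0x947eec) (nat_lit 0x0) (nat_lit 0x4125e209bcb8e7)
  (PL.C (nat_lit 0x955966) (nat_lit 0x0) (nat_lit 0x5c23db63f6478f)
  (PL.C (nat_lit 0x95bf2c) (nat_lit 0x0) (nat_lit 0x39360109cf2420)
  (PL.C (nat_lit 0x95f781) (nat_lit 0x20d2de14abe8ab) (nat_lit 0x0)
  (PL.C (nat_lit 0x971b34) (nat_lit 0x0) (nat_lit 0xd9c243189437a)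
  (PL.C (nat_lit 0x97c7c8) (nat_lit 0x0) (nat_lit 0x3f82a900e8a76b)
  (PL.C (nat_lit 0x99266d) (nat_lit 0x2bf1529fcbbb0f) (nat_lit 0x0)
  (PL.C (nat_lit 0x996bd8) (nat_lit 0x0) (nat_lit 0xbfdad3a8bc671)
  (PL.C (nat_lit 0x9a4168) (nat_lit 0x2a2157d1348266) (nat_lit 0x0)
  (PL.C (nat_lit 0x9a7d51) (nat_lit 0x0) (nat_lit 0xa389d7b97d6832)
  (PL.C (nat_lit 0x9b3ade) (nat_lit 0x0) (nat_lit 0x4e1b5cab77d1e)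
  (PL.C (nat_lit 0x9c8f1a) (nat_lit 0x12e5583069ba48) (nat_lit 0x0)
  (PL.C (nat_lit 0x9ce87a) (nat_lit 0x61bd2886980850) (nat_lit 0x0)
  (PL.C (nat_lit 0x9d8488) (nat_lit 0x1a44ecc0ffc5e1) (nat_lit 0x0)
  (PL.C (nat_lit 0x9ec10c) (nat_lit 0x0) (nat_lit 0x30af1229623e2)
  (PL.C (nat_lit 0x9f7782) (nat_lit 0x0) (nat_lit 0x8e7863373719f) gp4_0_12))))))))))))))))))))

noncomputable def gp4_0_10 : PL :=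
  (PL.C (nat_lit 0x86efc8) (nat_lit 0x2ef1ccefcb0023) (nat_lit 0x0)
  (PL.C (nat_lit 0x872f6c) (nat_lit 0x1630a6eb231a6) (nat_lit 0x0)
  (PL.C (nat_lit 0x87f84c) (nat_lit 0x0) (nat_lit 0x84c2f5944b48de)
  (PL.C (nat_lit 0x886611) (nat_lit 0x287051be81a87e) (nat_lit 0x0)
  (PL.C (nat_lit 0x88ac61) (nat_lit 0x2508c42d2d736d) (nat_lit 0x0)
  (PL.C (nat_lit 0x893dd2) (nat_lit 0x908df7d89c2c7d) (nat_lit 0x0)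
  (PL.C (nat_lit 0x8992a7) (nat_lit 0xb8cdd702c20cf) (nat_lit 0x0)
  (PL.C (nat_lit 0x89e8e2) (nat_lit 0x0) (nat_lit 0x243fb04e91eccd)
  (PL.C (nat_lit 0x8a00de) (nat_lit 0x296e0030b9daf) (nat_lit 0x0)
  (PL.C (nat_lit 0x8b0f65) (nat_lit 0x0) (nat_lit 0x3a878120684556)
  (PL.C (nat_lit 0x8b883c) (nat_lit 0x0) (nat_lit 0x564e01c2f2f6)
  (PL.C (nat_lit 0x8c120c) (nat_lit 0x704db99fd798d4) (nat_lit 0x0)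
  (PL.C (nat_lit 0x8cb236) (nat_lit 0x0) (nat_lit 0x2c2317bb6924d1)
  (PL.C (nat_lit 0x8cbde8) (nat_lit 0x2ef1ccefcb0023) (nat_lit 0x0)
  (PL.C (nat_lit 0x8fd3ec) (nat_lit 0x0) (nat_lit 0x81c271f083e5f)
  (PL.C (nat_lit 0x912c42) (nat_lit 0x4e7d25952c64d) (nat_lit 0x0)
  (PL.C (nat_lit 0x9173d8) (nat_lit 0x0) (nat_lit 0x45c95f6d167604)
  (PL.C (nat_lit 0x917f22) (nat_lit 0x0) (nat_lit 0x2c2317bb6924d1)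
  (PL.C (nat_lit 0x9211e4) (nat_lit 0x0) (nat_lit 0x2b38d53c8c00)
  (PL.C (nat_lit 0x926c2e) (nat_lit 0x470d4e7607e277) (nat_lit 0x0) gp4_0_11))))))))))))))))))))

noncomputable def gp4_0_9 : PL :=
  (PL.C (nat_lit 0x7cbb94) (nat_lit 0x1ea91a109c44f5) (nat_lit 0x0)
  (PL.C (nat_lit 0x7cf092) (nat_lit 0x640d6eae4bafb0) (nat_lit 0x0)
  (PL.C (nat_lit 0x7d60c7) (nat_lit 0x0) (nat_lit 0x62dfad0d41216)
  (PL.C (nat_lit 0x7ddf3e) (nat_lit 0x0) (nat_lit 0x11b789fa1d61c8)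
  (PL.C (nat_lit 0x7e68dc) (nat_lit 0x0) (nat_lit 0x6859e7288a5794)
  (PL.C (nat_lit 0x7e7395) (nat_lit 0x36378e7e67a14) (nat_lit 0x0)
  (PL.C (nat_lit 0x7ebbc5) (nat_lit 0x2bf1529fcbbb0f) (nat_lit 0x0)
  (PL.C (nat_lit 0x7f3b9a) (nat_lit 0x723fea544774d2) (nat_lit 0x0)
  (PL.C (nat_lit 0x803976) (nat_lit 0x22311fca3ed033) (nat_lit 0x0)
  (PL.C (nat_lit 0x80bacc) (nat_lit 0x10be321a5a87c) (nat_lit 0x0)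
  (PL.C (nat_lit 0x80eb39) (nat_lit 0x1a5e73251f77848) (nat_lit 0x0)
  (PL.C (nat_lit 0x80f259) (nat_lit 0x91dba7c4fa7898) (nat_lit 0x0)
  (PL.C (nat_lit 0x839f98) (nat_lit 0x30495556a56267) (nat_lit 0x0)
  (PL.C (nat_lit 0x83a7c5) (nat_lit 0x0) (nat_lit 0x147b73f5879550)
  (PL.C (nat_lit 0x83f0f4) (nat_lit 0x0) (nat_lit 0x1d26d1116068a9)
  (PL.C (nat_lit 0x84c1a8) (nat_lit 0x0) (nat_lit 0x19f091bbd6832a)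
  (PL.C (nat_lit 0x855e1c) (nat_lit 0x3bc79114c1ceaa) (nat_lit 0x0)
  (PL.C (nat_lit 0x85a2dc) (nat_lit 0xd7b22cf22fbc0) (nat_lit 0x0)
  (PL.C (nat_lit 0x868404) (nat_lit 0x0) (nat_lit 0x6a712f874bfaed)
  (PL.C (nat_lit 0x86bd2a) (nat_lit 0x24118fb5506c46) (nat_lit 0x0) gp4_0_10))))))))))))))))))))

noncomputable def gp4_0_8 : PL :=
  (PL.C (nat_lit 0x71ad14) (nat_lit 0x2d8c41149af6a6) (nat_lit 0x0)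
  (PL.C (nat_lit 0x72a63c) (nat_lit 0x0) (nat_lit 0xbe758bb0edc893)
  (PL.C (nat_lit 0x735fa5) (nat_lit 0x0) (nat_lit 0x56d2c2ebecf29)
  (PL.C (nat_lit 0x73a2e4) (nat_lit 0x0) (nat_lit 0xeeda0cd6e499c5)
  (PL.C (nat_lit 0x73d264) (nat_lit 0x0) (nat_lit 0x8e886c89d8382)
  (PL.C (nat_lit 0x73ff88) (nat_lit 0x0) (nat_lit 0x2848a87541dc2c)
  (PL.C (nat_lit 0x74e2ec) (nat_lit 0x0) (nat_lit 0x1517deb31c3c264)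
  (PL.C (nat_lit 0x752f38) (nat_lit 0x0) (nat_lit 0x923c739511bac)
  (PL.C (nat_lit 0x754149) (nat_lit 0x8a76f221db378a) (nat_lit 0x0)
  (PL.C (nat_lit 0x758439) (nat_lit 0x0) (nat_lit 0x2b813edda721b2)
  (PL.C (nat_lit 0x75fac2) (nat_lit 0x0) (nat_lit 0x3e22cd179e752)
  (PL.C (nat_lit 0x7643af) (nat_lit 0x8a76f221db378a) (nat_lit 0x0)
  (PL.C (nat_lit 0x76a26e) (nat_lit 0x70f068c3e5342) (nat_lit 0x0)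
  (PL.C (nat_lit 0x778afd) (nat_lit 0x0) (nat_lit 0xf35e9941ad0caa)
  (PL.C (nat_lit 0x77a070) (nat_lit 0x5ffa89da6ce4df) (nat_lit 0x0)
  (PL.C (nat_lit 0x77cee6) (nat_lit 0x26eb8c2ad0aa) (nat_lit 0x0)
  (PL.C (nat_lit 0x78f306) (nat_lit 0x0) (nat_lit 0x2568cf406cde6c)
  (PL.C (nat_lit 0x7a9784) (nat_lit 0x7da00e18c9290) (nat_lit 0x0)
  (PL.C (nat_lit 0x7bab0c) (nat_lit 0x1ea91a109c44f5) (nat_lit 0x0)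
  (PL.C (nat_lit 0x7beacc) (nat_lit 0x0) (nat_lit 0x6859e7288a5794) gp4_0_9))))))))))))))))))))

noncomputable def gp4_0_7 : PL :=
  (PL.C (nat_lit 0x66199e) (nat_lit 0x0) (nat_lit 0x3555ece6cd9ec)
  (PL.C (nat_lit 0x66fe36) (nat_lit 0x0) (nat_lit 0x243fb04e91eccd)
  (PL.C (nat_lit 0x677c94) (nat_lit 0x1f47014aa9309d) (nat_lit 0x0)
  (PL.C (nat_lit 0x689afc) (nat_lit 0x0) (nat_lit 0x39360109cf2420)
  (PL.C (nat_lit 0x69d608) (nat_lit 0x0) (nat_lit 0x434c83937e45ac)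
  (PL.C (nat_lit 0x6a4fac) (nat_lit 0x0) (nat_lit 0x2eff4caedeeb10)
  (PL.C (nat_lit 0x6af34c) (nat_lit 0x704db99fd798d4) (nat_lit 0x0)
  (PL.C (nat_lit 0x6afb99) (nat_lit 0x0) (nat_lit 0xc3742b88ef870)
  (PL.C (nat_lit 0x6b39f4) (nat_lit 0x35aa6c5404c6d4) (nat_lit 0x0)
  (PL.C (nat_lit 0x6b6782) (nat_lit 0x46732af61b6e3) (nat_lit 0x0)
  (PL.C (nat_lit 0x6c3568) (nat_lit 0x14619f80a9d869) (nat_lit 0x0)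
  (PL.C (nat_lit 0x6c3dce) (nat_lit 0x22311fca3ed033) (nat_lit 0x0)
  (PL.C (nat_lit 0x6ca048) (nat_lit 0x0) (nat_lit 0x45c95f6d167604)
  (PL.C (nat_lit 0x6caafc) (nat_lit 0xd01c0b54132c) (nat_lit 0x0)
  (PL.C (nat_lit 0x6cd3dd) (nat_lit 0x7b7ea5c29df69) (nat_lit 0x0)
  (PL.C (nat_lit 0x6d3026) (nat_lit 0x0) (nat_lit 0x1937f0894adb7c)
  (PL.C (nat_lit 0x6ed951) (nat_lit 0x0) (nat_lit 0xbb299d504c204)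
  (PL.C (nat_lit 0x70cf4c) (nat_lit 0x6b92572e863da) (nat_lit 0x0)
  (PL.C (nat_lit 0x714758) (nat_lit 0x0) (nat_lit 0x13d7af5836f29e)
  (PL.C (nat_lit 0x716c54) (nat_lit 0x5bd64c2d37588f) (nat_lit 0x0) gp4_0_8))))))))))))))))))))

noncomputable def gp4_0_6 : PL :=
  (PL.C (nat_lit 0x5aeeb6) (nat_lit 0x3335921475d0f3) (nat_lit 0x0)
  (PL.C (nat_lit 0x5b1d96) (nat_lit 0x2026759678f4af) (nat_lit 0x0)
  (PL.C (nat_lit 0x5b7e8c) (nat_lit 0x0) (nat_lit 0x28f5a1f6e7893e)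
  (PL.C (nat_lit 0x5bb71a) (nat_lit 0x0) (nat_lit 0x8e7863373719f)
  (PL.C (nat_lit 0x5c0094) (nat_lit 0x2d8c41149af6a6) (nat_lit 0x0)
  (PL.C (nat_lit 0x5cb4ee) (nat_lit 0x908df7d89c2c7d) (nat_lit 0x0)
  (PL.C (nat_lit 0x5d8db5) (nat_lit 0x4ae5fe6642dd24) (nat_lit 0x0)
  (PL.C (nat_lit 0x5dcc24) (nat_lit 0x1885f21dcd498a) (nat_lit 0x0)
  (PL.C (nat_lit 0x5dd3f0) (nat_lit 0x0) (nat_lit 0x60737f4a69867c)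
  (PL.C (nat_lit 0x5feddf) (nat_lit 0x0) (nat_lit 0x2b813edda721b2)
  (PL.C (nat_lit 0x60c82c) (nat_lit 0x0) (nat_lit 0xeeda0cd6e499c5)
  (PL.C (nat_lit 0x60ff6c) (nat_lit 0x1885f21dcd498a) (nat_lit 0x0)
  (PL.C (nat_lit 0x619d74) (nat_lit 0x0) (nat_lit 0xbe758bb0edc893)
  (PL.C (nat_lit 0x61eba8) (nat_lit 0x0) (nat_lit 0xed45a5fc24b0f)
  (PL.C (nat_lit 0x62107e) (nat_lit 0x236fab2593a22) (nat_lit 0x0)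
  (PL.C (nat_lit 0x62ab9c) (nat_lit 0x4796f70fba43f6b) (nat_lit 0x0)
  (PL.C (nat_lit 0x62ff48) (nat_lit 0x14619f80a9d869) (nat_lit 0x0)
  (PL.C (nat_lit 0x63d4c8) (nat_lit 0x0) (nat_lit 0x26749728acc5c)
  (PL.C (nat_lit 0x63fa56) (nat_lit 0x0) (nat_lit 0x12db1c031f3010)
  (PL.C (nat_lit 0x64e9b1) (nat_lit 0x0) (nat_lit 0xf35e9941ad0caa) gp4_0_7))))))))))))))))))))

noncomputable def gp4_0_5 : PL :=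
  (PL.C (nat_lit 0x527208) (nat_lit 0x0) (nat_lit 0x47c9ba1f9667a8)
  (PL.C (nat_lit 0x527727) (nat_lit 0x42beaaf106fcc4) (nat_lit 0x0)
  (PL.C (nat_lit 0x529c88) (nat_lit 0x133a3d8005ff5) (nat_lit 0x0)
  (PL.C (nat_lit 0x5327b8) (nat_lit 0x0) (nat_lit 0x47c9ba1f9667a8)
  (PL.C (nat_lit 0x534b0c) (nat_lit 0x0) (nat_lit 0x1517deb31c3c264)
  (PL.C (nat_lit 0x5395da) (nat_lit 0x70f068c3e5342) (nat_lit 0x0)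
  (PL.C (nat_lit 0x5445e8) (nat_lit 0x133a3d8005ff5) (nat_lit 0x0)
  (PL.C (nat_lit 0x544d0e) (nat_lit 0x0) (nat_lit 0x11b789fa1d61c8)
  (PL.C (nat_lit 0x547d2e) (nat_lit 0x0) (nat_lit 0x3555ece6cd9ec)
  (PL.C (nat_lit 0x557ba4) (nat_lit 0x0) (nat_lit 0xbcbbd0add7b65)
  (PL.C (nat_lit 0x55f226) (nat_lit 0x46732af61b6e3) (nat_lit 0x0)
  (PL.C (nat_lit 0x55f6e6) (nat_lit 0x0) (nat_lit 0xdf9f89ebbe0a06)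
  (PL.C (nat_lit 0x56bfe9) (nat_lit 0x0) (nat_lit 0x9be5b4afb67168)
  (PL.C (nat_lit 0x576cff) (nat_lit 0x2a55537fed3382) (nat_lit 0x0)
  (PL.C (nat_lit 0x57c52e) (nat_lit 0x0) (nat_lit 0x1bf0e3ddf7b976)
  (PL.C (nat_lit 0x57f5f8) (nat_lit 0x2a2157d1348266) (nat_lit 0x0)
  (PL.C (nat_lit 0x58e968) (nat_lit 0x0) (nat_lit 0x19f091bbd6832a)
  (PL.C (nat_lit 0x59ad58) (nat_lit 0x30495556a56267) (nat_lit 0x0)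
  (PL.C (nat_lit 0x59f530) (nat_lit 0x0) (nat_lit 0x60737f4a69867c)
  (PL.C (nat_lit 0x5aa588) (nat_lit 0x0) (nat_lit 0x13d7af5836f29e) gp4_0_6))))))))))))))))))))

noncomputable def gp4_0_4 : PL :=
  (PL.C (nat_lit 0x45bca8) (nat_lit 0x0) (nat_lit 0x26749728acc5c)
  (PL.C (nat_lit 0x468eb0) (nat_lit 0x652d133b3b8105) (nat_lit 0x0)
  (PL.C (nat_lit 0x46dfc8) (nat_lit 0x2ec0d496176941) (nat_lit 0x0)
  (PL.C (nat_lit 0x475266) (nat_lit 0x0) (nat_lit 0x2568cf406cde6c)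
  (PL.C (nat_lit 0x477bf8) (nat_lit 0x0) (nat_lit 0x3534864ff6667c)
  (PL.C (nat_lit 0x482934) (nat_lit 0x0) (nat_lit 0xbcbbd0add7b65)
  (PL.C (nat_lit 0x488d3e) (nat_lit 0x723fea544774d2) (nat_lit 0x0)
  (PL.C (nat_lit 0x48cac4) (nat_lit 0x0) (nat_lit 0x564e01c2f2f6)
  (PL.C (nat_lit 0x49e636) (nat_lit 0x0) (nat_lit 0x7f52fe87254134)
  (PL.C (nat_lit 0x4bc8b8) (nat_lit 0x3e20fe1f6b3417) (nat_lit 0x0)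
  (PL.C (nat_lit 0x4cea6e) (nat_lit 0x0) (nat_lit 0x917c107d225f4)
  (PL.C (nat_lit 0x4e2b86) (nat_lit 0x5b10e48166e0a6) (nat_lit 0x0)
  (PL.C (nat_lit 0x4e5826) (nat_lit 0x0) (nat_lit 0x3a20fda0f849bb)
  (PL.C (nat_lit 0x4ea72c) (nat_lit 0x0) (nat_lit 0x75695fd253477)
  (PL.C (nat_lit 0x4ed7ca) (nat_lit 0x5b10e48166e0a6) (nat_lit 0x0)
  (PL.C (nat_lit 0x4f16f4) (nat_lit 0x43fb8368f64401) (nat_lit 0x0)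
  (PL.C (nat_lit 0x4fb1fe) (nat_lit 0x0) (nat_lit 0x16bd2050c68ecb6)
  (PL.C (nat_lit 0x4fdf44) (nat_lit 0x0) (nat_lit 0x6e15ca175d4e8)
  (PL.C (nat_lit 0x50a204) (nat_lit 0x180b1e5bca9df) (nat_lit 0x0)
  (PL.C (nat_lit 0x51ba58) (nat_lit 0x0) (nat_lit 0xed45a5fc24b0f) gp4_0_5))))))))))))))))))))

noncomputable def gp4_0_3 : PL :=
  (PL.C (nat_lit 0x3a48aa) (nat_lit 0x6cd7ed05b2542c) (nat_lit 0x0)
  (PL.C (nat_lit 0x3a8374) (nat_lit 0x12f2730649e95) (nat_lit 0x0)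
  (PL.C (nat_lit 0x3a9977) (nat_lit 0x0) (nat_lit 0x9be5b4afb67168)
  (PL.C (nat_lit 0x3c9f24) (nat_lit 0x35aa6c5404c6d4) (nat_lit 0x0)
  (PL.C (nat_lit 0x3cbe64) (nat_lit 0xd01c0b54132c) (nat_lit 0x0)
  (PL.C (nat_lit 0x3cff08) (nat_lit 0x0) (nat_lit 0x308a58a224acc7)
  (PL.C (nat_lit 0x3d24bc) (nat_lit 0x0) (nat_lit 0x2eff4caedeeb10)
  (PL.C (nat_lit 0x3d55b8) (nat_lit 0x3e20fe1f6b3417) (nat_lit 0x0)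
  (PL.C (nat_lit 0x3dcdf4) (nat_lit 0x0) (nat_lit 0x28f5a1f6e7893e)
  (PL.C (nat_lit 0x3e1fcf) (nat_lit 0x0) (nat_lit 0x147b73f5879550)
  (PL.C (nat_lit 0x3e8818) (nat_lit 0x5ed6a4110051cf) (nat_lit 0x0)
  (PL.C (nat_lit 0x3f358b) (nat_lit 0x0) (nat_lit 0xbb299d504c204)
  (PL.C (nat_lit 0x3ff3ea) (nat_lit 0x0) (nat_lit 0x3a20fda0f849bb)
  (PL.C (nat_lit 0x40aa48) (nat_lit 0x5ed6a4110051cf) (nat_lit 0x0)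
  (PL.C (nat_lit 0x416054) (nat_lit 0x0) (nat_lit 0x24804be6f3002)
  (PL.C (nat_lit 0x42a6e4) (nat_lit 0x0) (nat_lit 0x2b38d53c8c00)
  (PL.C (nat_lit 0x434676) (nat_lit 0x0) (nat_lit 0x16bd2050c68ecb6)
  (PL.C (nat_lit 0x441114) (nat_lit 0x0) (nat_lit 0xf3fe7f98bfa2d5)
  (PL.C (nat_lit 0x442aaf) (nat_lit 0x4351739b4ca1b) (nat_lit 0x0)
  (PL.C (nat_lit 0x44fdb8) (nat_lit 0x0) (nat_lit 0x2848a87541dc2c) gp4_0_4))))))))))))))))))))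

noncomputable def gp4_0_2 : PL :=
  (PL.C (nat_lit 0x301b78) (nat_lit 0x0) (nat_lit 0x44e928fc5fe22a)
  (PL.C (nat_lit 0x314424) (nat_lit 0xda6e5dfc8317ac) (nat_lit 0x0)
  (PL.C (nat_lit 0x3285d0) (nat_lit 0x0) (nat_lit 0x1c75ce20466e36)
  (PL.C (nat_lit 0x3346f4) (nat_lit 0x10be321a5a87c) (nat_lit 0x0)
  (PL.C (nat_lit 0x341d04) (nat_lit 0x3105a02ba2a6ba) (nat_lit 0x0)
  (PL.C (nat_lit 0x343ac4) (nat_lit 0x3d69ffd698c91a) (nat_lit 0x0)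
  (PL.C (nat_lit 0x348fdc) (nat_lit 0x3105a02ba2a6ba) (nat_lit 0x0)
  (PL.C (nat_lit 0x34b9f8) (nat_lit 0x0) (nat_lit 0xca7abcfc9e154)
  (PL.C (nat_lit 0x352154) (nat_lit 0x0) (nat_lit 0x2b4eca67ee343df)
  (PL.C (nat_lit 0x35c158) (nat_lit 0x492a9213ddfc0e) (nat_lit 0x0)
  (PL.C (nat_lit 0x365673) (nat_lit 0x34035cf96188bac) (nat_lit 0x0)
  (PL.C (nat_lit 0x36f6b0) (nat_lit 0x5d40495eedc4ff) (nat_lit 0x0)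
  (PL.C (nat_lit 0x36fa1a) (nat_lit 0x829c976dd50056) (nat_lit 0x0)
  (PL.C (nat_lit 0x376fd0) (nat_lit 0x5d40495eedc4ff) (nat_lit 0x0)
  (PL.C (nat_lit 0x37b93c) (nat_lit 0x43fb8368f64401) (nat_lit 0x0)
  (PL.C (nat_lit 0x385374) (nat_lit 0x0) (nat_lit 0xf3fe7f98bfa2d5)
  (PL.C (nat_lit 0x38fd18) (nat_lit 0x0) (nat_lit 0x44e928fc5fe22a)
  (PL.C (nat_lit 0x394f44) (nat_lit 0x77869bc9d7688b) (nat_lit 0x0)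
  (PL.C (nat_lit 0x399b2b) (nat_lit 0x42beaaf106fcc4) (nat_lit 0x0)
  (PL.C (nat_lit 0x39d546) (nat_lit 0x0) (nat_lit 0x2b83dde9d1e450) gp4_0_3))))))))))))))))))))

noncomputable def gp4_0_1 : PL :=
  (PL.C (nat_lit 0x252628) (nat_lit 0x0) (nat_lit 0xca7abcfc9e154)
  (PL.C (nat_lit 0x258cf8) (nat_lit 0x284012b727e86) (nat_lit 0x0)
  (PL.C (nat_lit 0x25fe10) (nat_lit 0x1e92d200295c30) (nat_lit 0x0)
  (PL.C (nat_lit 0x2634d8) (nat_lit 0x0) (nat_lit 0x77d8b6b62aaa8c)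
  (PL.C (nat_lit 0x266772) (nat_lit 0x829c976dd50056) (nat_lit 0x0)
  (PL.C (nat_lit 0x26db1c) (nat_lit 0x5ecff2b66e9188) (nat_lit 0x0)
  (PL.C (nat_lit 0x2710fa) (nat_lit 0x0) (nat_lit 0x2b83dde9d1e450)
  (PL.C (nat_lit 0x286a18) (nat_lit 0x0) (nat_lit 0x3534864ff6667c)
  (PL.C (nat_lit 0x28c328) (nat_lit 0x2ec0d496176941) (nat_lit 0x0)
  (PL.C (nat_lit 0x28e3d0) (nat_lit 0x0) (nat_lit 0x1c75ce20466e36)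
  (PL.C (nat_lit 0x2933f8) (nat_lit 0x0) (nat_lit 0x308a58a224acc7)
  (PL.C (nat_lit 0x296a8a) (nat_lit 0x0) (nat_lit 0x1bf0e3ddf7b976)
  (PL.C (nat_lit 0x29b010) (nat_lit 0x0) (nat_lit 0x5f3ece01592052)
  (PL.C (nat_lit 0x2a23b2) (nat_lit 0x0) (nat_lit 0x7f52fe87254134)
  (PL.C (nat_lit 0x2aa29c) (nat_lit 0x3d69ffd698c91a) (nat_lit 0x0)
  (PL.C (nat_lit 0x2b1c30) (nat_lit 0x0) (nat_lit 0x5f3ece01592052)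
  (PL.C (nat_lit 0x2cd9a4) (nat_lit 0x0) (nat_lit 0x2b4eca67ee343df)
  (PL.C (nat_lit 0x2d60b8) (nat_lit 0x284012b727e86) (nat_lit 0x0)
  (PL.C (nat_lit 0x2d71ca) (nat_lit 0x0) (nat_lit 0x3e22cd179e752)
  (PL.C (nat_lit 0x2f8c44) (nat_lit 0x180b1e5bca9df) (nat_lit 0x0) gp4_0_2))))))))))))))))))))

noncomputable def gp4_0 : PL :=
  (PL.C (nat_lit 0x111188) (nat_lit 0x1133985b40dc9b) (nat_lit 0x0)
  (PL.C (nat_lit 0x1144f0) (nat_lit 0xd79a81b1614aa) (nat_lit 0x0)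
  (PL.C (nat_lit 0x12ba88) (nat_lit 0x0) (nat_lit 0x248991cabd432b)
  (PL.C (nat_lit 0x12f2f0) (nat_lit 0x0) (nat_lit 0x231e24d571d699)
  (PL.C (nat_lit 0x173690) (nat_lit 0x0) (nat_lit 0x231e24d571d699)
  (PL.C (nat_lit 0x18266c) (nat_lit 0x27dbd285e2c4871) (nat_lit 0x0)
  (PL.C (nat_lit 0x186f28) (nat_lit 0x1133985b40dc9b) (nat_lit 0x0)
  (PL.C (nat_lit 0x197890) (nat_lit 0x6bc8325ca9864a) (nat_lit 0x0)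
  (PL.C (nat_lit 0x199a4c) (nat_lit 0x7ecd284a32821c) (nat_lit 0x0)
  (PL.C (nat_lit 0x19e768) (nat_lit 0x0) (nat_lit 0x3455002622ebea)
  (PL.C (nat_lit 0x1b9c5c) (nat_lit 0x12f2730649e95) (nat_lit 0x0)
  (PL.C (nat_lit 0x1c17cc) (nat_lit 0xda6e5dfc8317ac) (nat_lit 0x0)
  (PL.C (nat_lit 0x1c6c68) (nat_lit 0x62214ca223b3ae) (nat_lit 0x0)
  (PL.C (nat_lit 0x1e4bdc) (nat_lit 0x0) (nat_lit 0x75695fd253477)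
  (PL.C (nat_lit 0x1fb2d8) (nat_lit 0x492a9213ddfc0e) (nat_lit 0x0)
  (PL.C (nat_lit 0x201250) (nat_lit 0x1e92d200295c30) (nat_lit 0x0)
  (PL.C (nat_lit 0x20d818) (nat_lit 0x0) (nat_lit 0x248991cabd432b)
  (PL.C (nat_lit 0x22d1d8) (nat_lit 0x62214ca223b3ae) (nat_lit 0x0)
  (PL.C (nat_lit 0x2439a2) (nat_lit 0x131956bfefe5aec) (nat_lit 0x0)
  (PL.C (nat_lit 0x24a6bc) (nat_lit 0x7ecd284a32821c) (nat_lit 0x0) gp4_0_1))))))))))))))))))))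

theorem chk4_0 : eqP (sm (grl (nat_lit 78) (nat_lit 33) (nat_lit 18889465931478580854784) (nat_lit 4) us4 cs4)) gp4_0 = true := by decide +kernel

noncomputable def gp5_0_73 : PL :=
  (PL.C (nat_lit 0x5c5fe2555) (nat_lit 0x0) (nat_lit 0x2df127061d3c)
  (PL.C (nat_lit 0x5ef127693) (nat_lit 0x199a15f864d5) (nat_lit 0x0)
  (PL.C (nat_lit 0x67017e9ff) (nat_lit 0x0) (nat_lit 0x2df127061d3c)
  (PL.C (nat_lit 0x70529c2c3) (nat_lit 0x9d5cfcd2846) (nat_lit 0x0)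
  (PL.C (nat_lit 0x70db51411) (nat_lit 0x5950d8abd214) (nat_lit 0x0)
  (PL.C (nat_lit 0x8f34f386b) (nat_lit 0x0) (nat_lit 0x5f8eaa5eb28)
  (PL.C (nat_lit 0x955e28fb7) (nat_lit 0x0) (nat_lit 0x5f8eaa5eb28)
  (PL.C (nat_lit 0xa3a7082d9) (nat_lit 0xf447f1adf01) (nat_lit 0x0)
  (PL.C (nat_lit 0xaef5c3eaf) (nat_lit 0xf447f1adf01) (nat_lit 0x0)
  (PL.C (nat_lit 0xfdb5395e7) (nat_lit 0x4cf11fe1b9d) (nat_lit 0x0) PL.Z))))))))))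

noncomputable def gp5_0_72 : PL :=
  (PL.C (nat_lit 0x34eab5de9) (nat_lit 0xf4f747bbd5) (nat_lit 0x0)
  (PL.C (nat_lit 0x362e06763) (nat_lit 0x48e86ff65c9a) (nat_lit 0x0)
  (PL.C (nat_lit 0x3776f569d) (nat_lit 0x0) (nat_lit 0x5a5dd299cb5)
  (PL.C (nat_lit 0x37e5662a3) (nat_lit 0x0) (nat_lit 0xfaa76366f98)
  (PL.C (nat_lit 0x387a13cdb) (nat_lit 0x0) (nat_lit 0xc1d9e3a6518)
  (PL.C (nat_lit 0x3c7b40669) (nat_lit 0x169c821e6b76) (nat_lit 0x0)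
  (PL.C (nat_lit 0x3d3ddd92d) (nat_lit 0x48e86ff65c9a) (nat_lit 0x0)
  (PL.C (nat_lit 0x3f66b3257) (nat_lit 0x0) (nat_lit 0xf39766564c15)
  (PL.C (nat_lit 0x401929093) (nat_lit 0x0) (nat_lit 0x964e1c0d682)
  (PL.C (nat_lit 0x4118119a5) (nat_lit 0x0) (nat_lit 0x7db34217c9e)
  (PL.C (nat_lit 0x4220f7fd3) (nat_lit 0x0) (nat_lit 0xf39766564c15)
  (PL.C (nat_lit 0x425d38a89) (nat_lit 0xa8384f724a4) (nat_lit 0x0)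
  (PL.C (nat_lit 0x44a0e265b) (nat_lit 0xa8384f724a4) (nat_lit 0x0)
  (PL.C (nat_lit 0x4873f48fd) (nat_lit 0x1f01c7bc5ee9) (nat_lit 0x0)
  (PL.C (nat_lit 0x4d75864ab) (nat_lit 0x1f01c7bc5ee9) (nat_lit 0x0)
  (PL.C (nat_lit 0x4e90cb93b) (nat_lit 0x199a15f864d5) (nat_lit 0x0)
  (PL.C (nat_lit 0x4f3b146ed) (nat_lit 0xf4f747bbd5) (nat_lit 0x0)
  (PL.C (nat_lit 0x506dc74c5) (nat_lit 0x0) (nat_lit 0x7db34217c9e)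
  (PL.C (nat_lit 0x544fbe0fb) (nat_lit 0x122e7f2e87fc0) (nat_lit 0x0)
  (PL.C (nat_lit 0x578e22965) (nat_lit 0x0) (nat_lit 0x964e1c0d682) gp5_0_73))))))))))))))))))))

noncomputable def gp5_0_71 : PL :=
  (PL.C (nat_lit 0x26bcdac8f) (nat_lit 0x10d3d70bef2e4) (nat_lit 0x0)
  (PL.C (nat_lit 0x26c3492b9) (nat_lit 0x0) (nat_lit 0xe9076336c9f8)
  (PL.C (nat_lit 0x27035c4d7) (nat_lit 0x900012c03679) (nat_lit 0x0)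
  (PL.C (nat_lit 0x271238db9) (nat_lit 0x10d3d70bef2e4) (nat_lit 0x0)
  (PL.C (nat_lit 0x29b56fb21) (nat_lit 0x1748e6ff9d4a) (nat_lit 0x0)
  (PL.C (nat_lit 0x29fd09c9b) (nat_lit 0x0) (nat_lit 0x5a5dd299cb5)
  (PL.C (nat_lit 0x2a087c71f) (nat_lit 0x156e0c01b0f36) (nat_lit 0x0)
  (PL.C (nat_lit 0x2aa9a88a7) (nat_lit 0x186472527b98) (nat_lit 0x0)
  (PL.C (nat_lit 0x2acec68b7) (nat_lit 0x0) (nat_lit 0x1889521200ed)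
  (PL.C (nat_lit 0x2c33f43fb) (nat_lit 0x0) (nat_lit 0xc1d9e3a6518)
  (PL.C (nat_lit 0x2c58c77ef) (nat_lit 0x0) (nat_lit 0xfaa76366f98)
  (PL.C (nat_lit 0x2d6603e11) (nat_lit 0x5a62dff75fe9) (nat_lit 0x0)
  (PL.C (nat_lit 0x2ea5722dd) (nat_lit 0x0) (nat_lit 0xda15f02b9aa)
  (PL.C (nat_lit 0x2f252650f) (nat_lit 0x0) (nat_lit 0x251352619791)
  (PL.C (nat_lit 0x2f53b6b83) (nat_lit 0x0) (nat_lit 0x1889521200ed)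
  (PL.C (nat_lit 0x31ba5e80f) (nat_lit 0x1894111fe81d3) (nat_lit 0x0)
  (PL.C (nat_lit 0x330e46fcd) (nat_lit 0x169c821e6b76) (nat_lit 0x0)
  (PL.C (nat_lit 0x331b74953) (nat_lit 0x0) (nat_lit 0xd224b39fad4)
  (PL.C (nat_lit 0x331f63fd9) (nat_lit 0xb77f41e2696) (nat_lit 0x0)
  (PL.C (nat_lit 0x338c14fd5) (nat_lit 0x0) (nat_lit 0x984062b4d96) gp5_0_72))))))))))))))))))))

noncomputable def gp5_0_70 : PL :=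
  (PL.C (nat_lit 0x1d87cc0b5) (nat_lit 0x0) (nat_lit 0x4d55668225f)
  (PL.C (nat_lit 0x1dde84225) (nat_lit 0x0) (nat_lit 0xda15f02b9aa)
  (PL.C (nat_lit 0x1e0efc5bd) (nat_lit 0x0) (nat_lit 0x3c620e2963eb)
  (PL.C (nat_lit 0x1e190fa09) (nat_lit 0x7a183eb485fd) (nat_lit 0x0)
  (PL.C (nat_lit 0x1e2a5f927) (nat_lit 0x0) (nat_lit 0xae3a4875e4b)
  (PL.C (nat_lit 0x1e622cc07) (nat_lit 0x0) (nat_lit 0xb915bf065277)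
  (PL.C (nat_lit 0x1e691e5b1) (nat_lit 0x0) (nat_lit 0xe468b9c96aea)
  (PL.C (nat_lit 0x20eee3873) (nat_lit 0x1748e6ff9d4a) (nat_lit 0x0)
  (PL.C (nat_lit 0x20f9ed767) (nat_lit 0x274974814157) (nat_lit 0x0)
  (PL.C (nat_lit 0x22239b8a5) (nat_lit 0x0) (nat_lit 0x3c620e2963eb)
  (PL.C (nat_lit 0x22c86d267) (nat_lit 0x156e0c01b0f36) (nat_lit 0x0)
  (PL.C (nat_lit 0x2313d0c61) (nat_lit 0x2c3869de1f45) (nat_lit 0x0)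
  (PL.C (nat_lit 0x23356b965) (nat_lit 0x900012c03679) (nat_lit 0x0)
  (PL.C (nat_lit 0x239b99399) (nat_lit 0x0) (nat_lit 0x1e09afe1a349)
  (PL.C (nat_lit 0x23b62dfd5) (nat_lit 0xb77f41e2696) (nat_lit 0x0)
  (PL.C (nat_lit 0x242e3dee7) (nat_lit 0x0) (nat_lit 0x984062b4d96)
  (PL.C (nat_lit 0x247df96a1) (nat_lit 0x0) (nat_lit 0xd224b39fad4)
  (PL.C (nat_lit 0x24b779dbf) (nat_lit 0x0) (nat_lit 0x18be48384f7d)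
  (PL.C (nat_lit 0x24f42b231) (nat_lit 0x0) (nat_lit 0xae3a4875e4b)
  (PL.C (nat_lit 0x2652cac15) (nat_lit 0x5a62dff75fe9) (nat_lit 0x0) gp5_0_71))))))))))))))))))))

noncomputable def gp5_0_69 : PL :=
  (PL.C (nat_lit 0x180d987c7) (nat_lit 0x186472527b98) (nat_lit 0x0)
  (PL.C (nat_lit 0x18502a0c5) (nat_lit 0x0) (nat_lit 0x18be48384f7d)
  (PL.C (nat_lit 0x18890d389) (nat_lit 0x8bea349d292b) (nat_lit 0x0)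
  (PL.C (nat_lit 0x18a08e92d) (nat_lit 0x274974814157) (nat_lit 0x0)
  (PL.C (nat_lit 0x191e02677) (nat_lit 0x0) (nat_lit 0xd90203a61946)
  (PL.C (nat_lit 0x1962c5dcd) (nat_lit 0x0) (nat_lit 0x121e1e67e80f)
  (PL.C (nat_lit 0x197bd88a9) (nat_lit 0x5c250d2bf52) (nat_lit 0x0)
  (PL.C (nat_lit 0x19ae96b97) (nat_lit 0x6af6438d3efe) (nat_lit 0x0)
  (PL.C (nat_lit 0x1ab909ebd) (nat_lit 0x1d3409f2bc2) (nat_lit 0x0)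
  (PL.C (nat_lit 0x1ac6d06cd) (nat_lit 0xda6326b80800) (nat_lit 0x0)
  (PL.C (nat_lit 0x1b0441f51) (nat_lit 0x0) (nat_lit 0x4d55668225f)
  (PL.C (nat_lit 0x1b1cf97a1) (nat_lit 0x0) (nat_lit 0x1a439bcb39e9c)
  (PL.C (nat_lit 0x1b7dd7747) (nat_lit 0x0) (nat_lit 0x1e77ef15ebd8)
  (PL.C (nat_lit 0x1b84f0019) (nat_lit 0x8e849647ed81) (nat_lit 0x0)
  (PL.C (nat_lit 0x1bc19525f) (nat_lit 0x0) (nat_lit 0x21eeb6c0423a7)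
  (PL.C (nat_lit 0x1c60bc91f) (nat_lit 0x0) (nat_lit 0xe9076336c9f8)
  (PL.C (nat_lit 0x1cd1973f9) (nat_lit 0x0) (nat_lit 0x1e09afe1a349)
  (PL.C (nat_lit 0x1d22b58fd) (nat_lit 0x0) (nat_lit 0x251352619791)
  (PL.C (nat_lit 0x1d618b36d) (nat_lit 0x0) (nat_lit 0xb915bf065277)
  (PL.C (nat_lit 0x1d6690bf7) (nat_lit 0x4111bd1fe3f67) (nat_lit 0x0) gp5_0_70))))))))))))))))))))

noncomputable def gp5_0_68 : PL :=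
  (PL.C (nat_lit 0x13cd6b77d) (nat_lit 0x8bea349d292b) (nat_lit 0x0)
  (PL.C (nat_lit 0x140470451) (nat_lit 0x0) (nat_lit 0x23f4d4c6acee1)
  (PL.C (nat_lit 0x14179d915) (nat_lit 0x0) (nat_lit 0xe468b9c96aea)
  (PL.C (nat_lit 0x14285aae1) (nat_lit 0x7a183eb485fd) (nat_lit 0x0)
  (PL.C (nat_lit 0x148d0b475) (nat_lit 0x6af6438d3efe) (nat_lit 0x0)
  (PL.C (nat_lit 0x14a2bbf1f) (nat_lit 0x44fd2a15967c3) (nat_lit 0x0)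
  (PL.C (nat_lit 0x14dbd844d) (nat_lit 0x0) (nat_lit 0x6eea646a40b1)
  (PL.C (nat_lit 0x14df4ec8b) (nat_lit 0x147de4a33991d) (nat_lit 0x0)
  (PL.C (nat_lit 0x14f5b15a5) (nat_lit 0x2015a443dd4) (nat_lit 0x0)
  (PL.C (nat_lit 0x1509cfd8b) (nat_lit 0x0) (nat_lit 0x3cce52158d10d)
  (PL.C (nat_lit 0x156e9c3e9) (nat_lit 0x0) (nat_lit 0x251a14b6e8b6)
  (PL.C (nat_lit 0x159dd740f) (nat_lit 0x15d1098325471) (nat_lit 0x0)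
  (PL.C (nat_lit 0x161ed7529) (nat_lit 0x75409769cba12) (nat_lit 0x0)
  (PL.C (nat_lit 0x164dc5403) (nat_lit 0x1d3409f2bc2) (nat_lit 0x0)
  (PL.C (nat_lit 0x169a880c1) (nat_lit 0xda6326b80800) (nat_lit 0x0)
  (PL.C (nat_lit 0x16a21b9fd) (nat_lit 0xb4235767cf36) (nat_lit 0x0)
  (PL.C (nat_lit 0x16f8e4995) (nat_lit 0x1657ee1b9b65) (nat_lit 0x0)
  (PL.C (nat_lit 0x176d75c4d) (nat_lit 0x2c3869de1f45) (nat_lit 0x0)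
  (PL.C (nat_lit 0x17af10901) (nat_lit 0x0) (nat_lit 0xa3158f2a9961)
  (PL.C (nat_lit 0x17fc9972f) (nat_lit 0x0) (nat_lit 0x1a439bcb39e9c) gp5_0_69))))))))))))))))))))

noncomputable def gp5_0_67 : PL :=
  (PL.C (nat_lit 0x113cc3583) (nat_lit 0x0) (nat_lit 0x5d4a197435fd)
  (PL.C (nat_lit 0x1162bfe25) (nat_lit 0x1b2b460b7f9b) (nat_lit 0x0)
  (PL.C (nat_lit 0x119ba9441) (nat_lit 0x0) (nat_lit 0x3cce52158d10d)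
  (PL.C (nat_lit 0x119e959f7) (nat_lit 0x0) (nat_lit 0xfeda2950a9b0)
  (PL.C (nat_lit 0x11bbb5979) (nat_lit 0x0) (nat_lit 0x558950a78ad)
  (PL.C (nat_lit 0x11c276ef7) (nat_lit 0x0) (nat_lit 0x6eea646a40b1)
  (PL.C (nat_lit 0x11d0b147e) (nat_lit 0x0) (nat_lit 0x4b94f66fc45)
  (PL.C (nat_lit 0x11f39d955) (nat_lit 0x9453d5d3edaf6) (nat_lit 0x0)
  (PL.C (nat_lit 0x1202d6a36) (nat_lit 0xe7821a4cc9d) (nat_lit 0x0)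
  (PL.C (nat_lit 0x124300b0b) (nat_lit 0x0) (nat_lit 0x23f4d4c6acee1)
  (PL.C (nat_lit 0x12a188cc9) (nat_lit 0x5779d3608041) (nat_lit 0x0)
  (PL.C (nat_lit 0x12bab0ed5) (nat_lit 0xe3fa038d7883) (nat_lit 0x0)
  (PL.C (nat_lit 0x12e349083) (nat_lit 0xa9d6a788a3b2) (nat_lit 0x0)
  (PL.C (nat_lit 0x12f56150f) (nat_lit 0x0) (nat_lit 0x558950a78ad)
  (PL.C (nat_lit 0x130c6498b) (nat_lit 0x5779d3608041) (nat_lit 0x0)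
  (PL.C (nat_lit 0x131b214b1) (nat_lit 0xe3fa038d7883) (nat_lit 0x0)
  (PL.C (nat_lit 0x132c6632b) (nat_lit 0x1edcc6aa5ab33) (nat_lit 0x0)
  (PL.C (nat_lit 0x137542f99) (nat_lit 0x5c250d2bf52) (nat_lit 0x0)
  (PL.C (nat_lit 0x13afdd5ce) (nat_lit 0xe7821a4cc9d) (nat_lit 0x0)
  (PL.C (nat_lit 0x13c5419dd) (nat_lit 0x40f0ace749c9) (nat_lit 0x0) gp5_0_68))))))))))))))))))))

noncomputable def gp5_0_66 : PL :=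
  (PL.C (nat_lit 0xef2153bd) (nat_lit 0x0) (nat_lit 0xc4f68d98b627)
  (PL.C (nat_lit 0xf3feb8ed) (nat_lit 0x1b2b460b7f9b) (nat_lit 0x0)
  (PL.C (nat_lit 0xf47c7ffd) (nat_lit 0x0) (nat_lit 0xfeda2950a9b0)
  (PL.C (nat_lit 0xf6186beb) (nat_lit 0x0) (nat_lit 0x5d4a197435fd)
  (PL.C (nat_lit 0xf848c84b) (nat_lit 0x0) (nat_lit 0x369ea37f86aa1)
  (PL.C (nat_lit 0xfbb969ad) (nat_lit 0x6a2e27541e26) (nat_lit 0x0)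
  (PL.C (nat_lit 0xfcf776e9) (nat_lit 0xb4235767cf36) (nat_lit 0x0)
  (PL.C (nat_lit 0xfd20fe27) (nat_lit 0x4239ae8a47463) (nat_lit 0x0)
  (PL.C (nat_lit 0xfd4c4185) (nat_lit 0xedbb39441052) (nat_lit 0x0)
  (PL.C (nat_lit 0xff1bbfcf) (nat_lit 0x0) (nat_lit 0x138dfbbd8c7)
  (PL.C (nat_lit 0x102f74317) (nat_lit 0x0) (nat_lit 0x369ea37f86aa1)
  (PL.C (nat_lit 0x1034e107b) (nat_lit 0x0) (nat_lit 0x169862d063745)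
  (PL.C (nat_lit 0x104160bfb) (nat_lit 0x0) (nat_lit 0x2c4358d46eb2e)
  (PL.C (nat_lit 0x105c3f7b5) (nat_lit 0x0) (nat_lit 0x51cd383397dc1)
  (PL.C (nat_lit 0x105ffca73) (nat_lit 0x0) (nat_lit 0x676b3b579ca3)
  (PL.C (nat_lit 0x10721c269) (nat_lit 0x0) (nat_lit 0x21eeb6c0423a7)
  (PL.C (nat_lit 0x108685303) (nat_lit 0x137f10080ebad) (nat_lit 0x0)
  (PL.C (nat_lit 0x10965a18f) (nat_lit 0x8e849647ed81) (nat_lit 0x0)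
  (PL.C (nat_lit 0x10c44229d) (nat_lit 0x0) (nat_lit 0xa3158f2a9961)
  (PL.C (nat_lit 0x10c5acbff) (nat_lit 0x2015a443dd4) (nat_lit 0x0) gp5_0_67))))))))))))))))))))

noncomputable def gp5_0_65 : PL :=
  (PL.C (nat_lit 0xcea7a02d) (nat_lit 0x0) (nat_lit 0x30b799a894d9)
  (PL.C (nat_lit 0xd12e8349) (nat_lit 0x0) (nat_lit 0x3592d8cad741)
  (PL.C (nat_lit 0xd19734b7) (nat_lit 0x1edcc6aa5ab33) (nat_lit 0x0)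
  (PL.C (nat_lit 0xd361acfb) (nat_lit 0x0) (nat_lit 0x3c2cf1e4df0b)
  (PL.C (nat_lit 0xd3e52873) (nat_lit 0x0) (nat_lit 0x121e1e67e80f)
  (PL.C (nat_lit 0xd5ae2303) (nat_lit 0x0) (nat_lit 0x51cd383397dc1)
  (PL.C (nat_lit 0xd5d2a859) (nat_lit 0xedbb39441052) (nat_lit 0x0)
  (PL.C (nat_lit 0xd851a09b) (nat_lit 0x2cec0595c28b) (nat_lit 0x0)
  (PL.C (nat_lit 0xd8650105) (nat_lit 0x0) (nat_lit 0x25fb2ebbc7c23)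
  (PL.C (nat_lit 0xd93b06cb) (nat_lit 0x0) (nat_lit 0xd90203a61946)
  (PL.C (nat_lit 0xdb943a11) (nat_lit 0x15d1098325471) (nat_lit 0x0)
  (PL.C (nat_lit 0xdcf88b49) (nat_lit 0x4239ae8a47463) (nat_lit 0x0)
  (PL.C (nat_lit 0xdd429c65) (nat_lit 0x1faf0d03ff3ff) (nat_lit 0x0)
  (PL.C (nat_lit 0xdd781ea7) (nat_lit 0x0) (nat_lit 0x251a14b6e8b6)
  (PL.C (nat_lit 0xdf920e6e) (nat_lit 0xaf3e2e400d) (nat_lit 0x0)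
  (PL.C (nat_lit 0xe63a2e17) (nat_lit 0x83580b2fee8) (nat_lit 0x0)
  (PL.C (nat_lit 0xe6b0dc47) (nat_lit 0x0) (nat_lit 0x1d50a1a6e1498)
  (PL.C (nat_lit 0xe9972a43) (nat_lit 0xea55cd098a86) (nat_lit 0x0)
  (PL.C (nat_lit 0xed16d8ab) (nat_lit 0xc968b3d45ecc) (nat_lit 0x0)
  (PL.C (nat_lit 0xede83802) (nat_lit 0x0) (nat_lit 0x4b94f66fc45) gp5_0_66))))))))))))))))))))

noncomputable def gp5_0_64 : PL :=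
  (PL.C (nat_lit 0xb7dd7902) (nat_lit 0x0) (nat_lit 0x870a6004c34a)
  (PL.C (nat_lit 0xb8a5421b) (nat_lit 0x853fc6e36177) (nat_lit 0x0)
  (PL.C (nat_lit 0xb90f8407) (nat_lit 0x2cec0595c28b) (nat_lit 0x0)
  (PL.C (nat_lit 0xb972a96e) (nat_lit 0x7f4d194ba6cd) (nat_lit 0x0)
  (PL.C (nat_lit 0xba3c2acd) (nat_lit 0x45735227772c4) (nat_lit 0x0)
  (PL.C (nat_lit 0xbd4b1f71) (nat_lit 0x0) (nat_lit 0x6dc43df743dd)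
  (PL.C (nat_lit 0xbe938ddb) (nat_lit 0x4c9577f5853d1) (nat_lit 0x0)
  (PL.C (nat_lit 0xbf5ff155) (nat_lit 0x0) (nat_lit 0x3592d8cad741)
  (PL.C (nat_lit 0xc2bd31a3) (nat_lit 0xc7bf2ee850d46) (nat_lit 0x0)
  (PL.C (nat_lit 0xc2fe77d7) (nat_lit 0x217d22e73fabf) (nat_lit 0x0)
  (PL.C (nat_lit 0xc52fd08f) (nat_lit 0x0) (nat_lit 0x30b799a894d9)
  (PL.C (nat_lit 0xc56fe815) (nat_lit 0x0) (nat_lit 0x37ee192d6240)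
  (PL.C (nat_lit 0xc5ea279f) (nat_lit 0x0) (nat_lit 0x1044882d0953)
  (PL.C (nat_lit 0xc623ccaf) (nat_lit 0x441f41d4ad44) (nat_lit 0x0)
  (PL.C (nat_lit 0xc6bb0886) (nat_lit 0x96805d6b194e) (nat_lit 0x0)
  (PL.C (nat_lit 0xc96e9697) (nat_lit 0x6a2e27541e26) (nat_lit 0x0)
  (PL.C (nat_lit 0xc9d66cc7) (nat_lit 0x0) (nat_lit 0x138dfbbd8c7)
  (PL.C (nat_lit 0xcb2edbb2) (nat_lit 0x96805d6b194e) (nat_lit 0x0)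
  (PL.C (nat_lit 0xcc0ba263) (nat_lit 0x1f2041cdc4509) (nat_lit 0x0)
  (PL.C (nat_lit 0xce6272b1) (nat_lit 0x147de4a33991d) (nat_lit 0x0) gp5_0_65))))))))))))))))))))

noncomputable def gp5_0_63 : PL :=
  (PL.C (nat_lit 0xa2a9d09e) (nat_lit 0x7f4d194ba6cd) (nat_lit 0x0)
  (PL.C (nat_lit 0xa2b9d7a9) (nat_lit 0x2703d85e20300) (nat_lit 0x0)
  (PL.C (nat_lit 0xa3f68777) (nat_lit 0x441f41d4ad44) (nat_lit 0x0)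
  (PL.C (nat_lit 0xa41047f2) (nat_lit 0x0) (nat_lit 0x870a6004c34a)
  (PL.C (nat_lit 0xa463dd6f) (nat_lit 0x0) (nat_lit 0x1d50a1a6e1498)
  (PL.C (nat_lit 0xa49af773) (nat_lit 0x2a11cb7371422) (nat_lit 0x0)
  (PL.C (nat_lit 0xa7d0f11e) (nat_lit 0x0) (nat_lit 0x5792e421e894)
  (PL.C (nat_lit 0xaa54ab77) (nat_lit 0x1af0c815aaeb) (nat_lit 0x0)
  (PL.C (nat_lit 0xaa61e423) (nat_lit 0xa9d6a788a3b2) (nat_lit 0x0)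
  (PL.C (nat_lit 0xaa9b0057) (nat_lit 0x0) (nat_lit 0x28b2e5b949f7)
  (PL.C (nat_lit 0xac396f99) (nat_lit 0x0) (nat_lit 0x2c4358d46eb2e)
  (PL.C (nat_lit 0xac750253) (nat_lit 0x202de4e50328f) (nat_lit 0x0)
  (PL.C (nat_lit 0xae72e7a1) (nat_lit 0xea55cd098a86) (nat_lit 0x0)
  (PL.C (nat_lit 0xaeee8389) (nat_lit 0x1657ee1b9b65) (nat_lit 0x0)
  (PL.C (nat_lit 0xb0d2a62b) (nat_lit 0x40f0ace749c9) (nat_lit 0x0)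
  (PL.C (nat_lit 0xb2706027) (nat_lit 0x0) (nat_lit 0x28b2e5b949f7)
  (PL.C (nat_lit 0xb2e732aa) (nat_lit 0xaf3e2e400d) (nat_lit 0x0)
  (PL.C (nat_lit 0xb3d2a6c1) (nat_lit 0xd1dcf7835d15) (nat_lit 0x0)
  (PL.C (nat_lit 0xb49381cf) (nat_lit 0x0) (nat_lit 0x6515fad2215)
  (PL.C (nat_lit 0xb5ebb333) (nat_lit 0x0) (nat_lit 0x30c216ee70ba2) gp5_0_64))))))))))))))))))))

noncomputable def gp5_0_62 : PL :=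
  (PL.C (nat_lit 0x92509eb1) (nat_lit 0x0) (nat_lit 0xaac33610e7bc)
  (PL.C (nat_lit 0x9299d94f) (nat_lit 0x0) (nat_lit 0x169862d063745)
  (PL.C (nat_lit 0x946bd64b) (nat_lit 0x3de79d4a89440) (nat_lit 0x0)
  (PL.C (nat_lit 0x94785ff9) (nat_lit 0xa0e328f0bf4c) (nat_lit 0x0)
  (PL.C (nat_lit 0x9481a6a9) (nat_lit 0x522eda17e799) (nat_lit 0x0)
  (PL.C (nat_lit 0x952d13c3) (nat_lit 0x74d697ab8126) (nat_lit 0x0)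
  (PL.C (nat_lit 0x9576237b) (nat_lit 0x1faf0d03ff3ff) (nat_lit 0x0)
  (PL.C (nat_lit 0x95c8eb4f) (nat_lit 0x43502b7d14b9) (nat_lit 0x0)
  (PL.C (nat_lit 0x97796b23) (nat_lit 0x0) (nat_lit 0x37ee192d6240)
  (PL.C (nat_lit 0x97b33c23) (nat_lit 0x1fb09db41c35b) (nat_lit 0x0)
  (PL.C (nat_lit 0x97cc6b85) (nat_lit 0x0) (nat_lit 0x8ce38e88ec61b)
  (PL.C (nat_lit 0x99018a85) (nat_lit 0x1fb09db41c35b) (nat_lit 0x0)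
  (PL.C (nat_lit 0x997c1eba) (nat_lit 0x6da5ff7f72b) (nat_lit 0x0)
  (PL.C (nat_lit 0x9aa8fedf) (nat_lit 0x0) (nat_lit 0x18f8e3a1edf13)
  (PL.C (nat_lit 0x9d54f241) (nat_lit 0x5cada190e335) (nat_lit 0x0)
  (PL.C (nat_lit 0x9dfdae4f) (nat_lit 0x0) (nat_lit 0x6dc43df743dd)
  (PL.C (nat_lit 0x9ee93553) (nat_lit 0x0) (nat_lit 0x477b820c43b11)
  (PL.C (nat_lit 0xa0e04c87) (nat_lit 0x4c9577f5853d1) (nat_lit 0x0)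
  (PL.C (nat_lit 0xa1c2fc05) (nat_lit 0x0) (nat_lit 0xaac33610e7bc)
  (PL.C (nat_lit 0xa2359a8d) (nat_lit 0x83580b2fee8) (nat_lit 0x0) gp5_0_63))))))))))))))))))))

noncomputable def gp5_0_61 : PL :=
  (PL.C (nat_lit 0x8417ddca) (nat_lit 0x0) (nat_lit 0xd1924a80823)
  (PL.C (nat_lit 0x84676119) (nat_lit 0x0) (nat_lit 0x1a69b21e9356c)
  (PL.C (nat_lit 0x84d00505) (nat_lit 0x202de4e50328f) (nat_lit 0x0)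
  (PL.C (nat_lit 0x858b295f) (nat_lit 0x0) (nat_lit 0x1a69b21e9356c)
  (PL.C (nat_lit 0x863f965f) (nat_lit 0x3de79d4a89440) (nat_lit 0x0)
  (PL.C (nat_lit 0x8649b9ba) (nat_lit 0x0) (nat_lit 0x5792e421e894)
  (PL.C (nat_lit 0x86fe327b) (nat_lit 0x0) (nat_lit 0x64440e419a4e)
  (PL.C (nat_lit 0x878b38e7) (nat_lit 0x2c7bf02910402) (nat_lit 0x0)
  (PL.C (nat_lit 0x88367b1b) (nat_lit 0x2a11cb7371422) (nat_lit 0x0)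
  (PL.C (nat_lit 0x895db60d) (nat_lit 0xcba387ad9ba7) (nat_lit 0x0)
  (PL.C (nat_lit 0x8b7172e5) (nat_lit 0x8bb9dee5c263) (nat_lit 0x0)
  (PL.C (nat_lit 0x8b745786) (nat_lit 0x0) (nat_lit 0xc2b2bcb80180)
  (PL.C (nat_lit 0x8c0bdf11) (nat_lit 0x0) (nat_lit 0x4d71623f61b26)
  (PL.C (nat_lit 0x8cf35dff) (nat_lit 0x37b8349b4aa2) (nat_lit 0x0)
  (PL.C (nat_lit 0x8e5f8f29) (nat_lit 0x0) (nat_lit 0x1aaca731b6861)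
  (PL.C (nat_lit 0x900481f3) (nat_lit 0x0) (nat_lit 0x3c2cf1e4df0b)
  (PL.C (nat_lit 0x90366b12) (nat_lit 0x20143cbc85b1) (nat_lit 0x0)
  (PL.C (nat_lit 0x91931609) (nat_lit 0x0) (nat_lit 0x30c216ee70ba2)
  (PL.C (nat_lit 0x9194a4df) (nat_lit 0x5cada190e335) (nat_lit 0x0)
  (PL.C (nat_lit 0x92201cdb) (nat_lit 0x0) (nat_lit 0x676b3b579ca3) gp5_0_62))))))))))))))))))))

noncomputable def gp5_0_60 : PL :=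
  (PL.C (nat_lit 0x7723de0f) (nat_lit 0x40eaac0d2cc0) (nat_lit 0x0)
  (PL.C (nat_lit 0x775f3cb9) (nat_lit 0x74d697ab8126) (nat_lit 0x0)
  (PL.C (nat_lit 0x779afb47) (nat_lit 0x0) (nat_lit 0xc4f68d98b627)
  (PL.C (nat_lit 0x782f6b8d) (nat_lit 0x0) (nat_lit 0x1aaca731b6861)
  (PL.C (nat_lit 0x7862568a) (nat_lit 0xa0588156114) (nat_lit 0x0)
  (PL.C (nat_lit 0x78a28f41) (nat_lit 0xc968b3d45ecc) (nat_lit 0x0)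
  (PL.C (nat_lit 0x797c0a77) (nat_lit 0x11a038c5d0b9) (nat_lit 0x0)
  (PL.C (nat_lit 0x79f06cd3) (nat_lit 0x1f2041cdc4509) (nat_lit 0x0)
  (PL.C (nat_lit 0x79fab9d1) (nat_lit 0x0) (nat_lit 0x6515fad2215)
  (PL.C (nat_lit 0x7a87c291) (nat_lit 0x11a038c5d0b9) (nat_lit 0x0)
  (PL.C (nat_lit 0x7b274a79) (nat_lit 0x0) (nat_lit 0x3bb5becd1a78b)
  (PL.C (nat_lit 0x7b5fad5a) (nat_lit 0x20143cbc85b1) (nat_lit 0x0)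
  (PL.C (nat_lit 0x7dc78ce9) (nat_lit 0x0) (nat_lit 0x113fcb6c4da8)
  (PL.C (nat_lit 0x7e3214f6) (nat_lit 0x0) (nat_lit 0x2277fc754764)
  (PL.C (nat_lit 0x7f954b8e) (nat_lit 0x0) (nat_lit 0xc2b2bcb80180)
  (PL.C (nat_lit 0x7fa9d721) (nat_lit 0x0) (nat_lit 0x9ade4f4828ca)
  (PL.C (nat_lit 0x7fcf0611) (nat_lit 0x7c518dfda352) (nat_lit 0x0)
  (PL.C (nat_lit 0x80c32d17) (nat_lit 0x0) (nat_lit 0x6ea4f19ae2ab)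
  (PL.C (nat_lit 0x828ea89b) (nat_lit 0x0) (nat_lit 0x18f8e3a1edf13)
  (PL.C (nat_lit 0x839ff00e) (nat_lit 0x0) (nat_lit 0x5aa1c1e89c3a) gp5_0_61))))))))))))))))))))

noncomputable def gp5_0_59 : PL :=
  (PL.C (nat_lit 0x6ddee149) (nat_lit 0x6b2254c68001b) (nat_lit 0x0)
  (PL.C (nat_lit 0x6ee82583) (nat_lit 0x43502b7d14b9) (nat_lit 0x0)
  (PL.C (nat_lit 0x6f215173) (nat_lit 0x0) (nat_lit 0x8ce38e88ec61b)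
  (PL.C (nat_lit 0x6f71ca21) (nat_lit 0x1295df5ab5f87) (nat_lit 0x0)
  (PL.C (nat_lit 0x6fdc8e25) (nat_lit 0x522eda17e799) (nat_lit 0x0)
  (PL.C (nat_lit 0x70a2e43b) (nat_lit 0x0) (nat_lit 0x270b7129ba6a)
  (PL.C (nat_lit 0x70db43c5) (nat_lit 0x8bb9dee5c263) (nat_lit 0x0)
  (PL.C (nat_lit 0x711223bf) (nat_lit 0x7c518dfda352) (nat_lit 0x0)
  (PL.C (nat_lit 0x711bb0f5) (nat_lit 0x0) (nat_lit 0xb6e830437dc)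
  (PL.C (nat_lit 0x71d22211) (nat_lit 0x0) (nat_lit 0xc614bdefcfe3)
  (PL.C (nat_lit 0x72fc1ec7) (nat_lit 0x217d22e73fabf) (nat_lit 0x0)
  (PL.C (nat_lit 0x730eff29) (nat_lit 0x0) (nat_lit 0x146a2698231c1)
  (PL.C (nat_lit 0x7322a96b) (nat_lit 0x743f167a57f6d) (nat_lit 0x0)
  (PL.C (nat_lit 0x73a83779) (nat_lit 0xc18e8acc1a30) (nat_lit 0x0)
  (PL.C (nat_lit 0x747ab8f1) (nat_lit 0x2d69182a4d6d) (nat_lit 0x0)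
  (PL.C (nat_lit 0x748527ef) (nat_lit 0x2ee930c82c81c) (nat_lit 0x0)
  (PL.C (nat_lit 0x74a717ff) (nat_lit 0x0) (nat_lit 0xaaa553497546)
  (PL.C (nat_lit 0x76389115) (nat_lit 0x2a2bd053096d7) (nat_lit 0x0)
  (PL.C (nat_lit 0x76cea33b) (nat_lit 0xa0e328f0bf4c) (nat_lit 0x0)
  (PL.C (nat_lit 0x76fbfc3b) (nat_lit 0x0) (nat_lit 0x146a2698231c1) gp5_0_60))))))))))))))))))))

noncomputable def gp5_0_58 : PL :=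
  (PL.C (nat_lit 0x63cf031f) (nat_lit 0x45735227772c4) (nat_lit 0x0)
  (PL.C (nat_lit 0x63db478a) (nat_lit 0x3340de1f7faac) (nat_lit 0x0)
  (PL.C (nat_lit 0x6447c847) (nat_lit 0x0) (nat_lit 0xef0eff59e241)
  (PL.C (nat_lit 0x646c4f8b) (nat_lit 0xd9294ebb0303) (nat_lit 0x0)
  (PL.C (nat_lit 0x64aaf6a9) (nat_lit 0x853fc6e36177) (nat_lit 0x0)
  (PL.C (nat_lit 0x64fb9cc2) (nat_lit 0x0) (nat_lit 0x5aa1c1e89c3a)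
  (PL.C (nat_lit 0x65c1918b) (nat_lit 0x0) (nat_lit 0x477b820c43b11)
  (PL.C (nat_lit 0x65ed5fb3) (nat_lit 0x0) (nat_lit 0x2c29bc458d673)
  (PL.C (nat_lit 0x669e38b1) (nat_lit 0x0) (nat_lit 0x833026748a2)
  (PL.C (nat_lit 0x670c46df) (nat_lit 0x1a71852aa8783) (nat_lit 0x0)
  (PL.C (nat_lit 0x67d976e1) (nat_lit 0xd9294ebb0303) (nat_lit 0x0)
  (PL.C (nat_lit 0x68dc0709) (nat_lit 0x15e0d3f511936) (nat_lit 0x0)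
  (PL.C (nat_lit 0x6953c98a) (nat_lit 0x0) (nat_lit 0x2277fc754764)
  (PL.C (nat_lit 0x6a2d704d) (nat_lit 0x0) (nat_lit 0x6ea7ace0b6098)
  (PL.C (nat_lit 0x6a4ff31f) (nat_lit 0x0) (nat_lit 0x21e971ae429f)
  (PL.C (nat_lit 0x6ab0d0ad) (nat_lit 0x0) (nat_lit 0x2623bb3a70c3)
  (PL.C (nat_lit 0x6bd752ae) (nat_lit 0x5cc97adc6ad) (nat_lit 0x0)
  (PL.C (nat_lit 0x6c05c661) (nat_lit 0x0) (nat_lit 0x3bb5becd1a78b)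
  (PL.C (nat_lit 0x6c23bc5e) (nat_lit 0x6da5ff7f72b) (nat_lit 0x0)
  (PL.C (nat_lit 0x6d4f04fa) (nat_lit 0x0) (nat_lit 0xd1924a80823) gp5_0_59))))))))))))))))))))

noncomputable def gp5_0_57 : PL :=
  (PL.C (nat_lit 0x5c8cc1bb) (nat_lit 0x0) (nat_lit 0xaaa553497546)
  (PL.C (nat_lit 0x5c9c1f2d) (nat_lit 0x0) (nat_lit 0xdb4deb5b78f3)
  (PL.C (nat_lit 0x5cbc772b) (nat_lit 0x2a2bd053096d7) (nat_lit 0x0)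
  (PL.C (nat_lit 0x5cdc8b19) (nat_lit 0x246f3b1ff6ce9) (nat_lit 0x0)
  (PL.C (nat_lit 0x5d58b62d) (nat_lit 0xc18e8acc1a30) (nat_lit 0x0)
  (PL.C (nat_lit 0x5dcfa87f) (nat_lit 0xd1dcf7835d15) (nat_lit 0x0)
  (PL.C (nat_lit 0x5def1a43) (nat_lit 0x0) (nat_lit 0x6ea7ace0b6098)
  (PL.C (nat_lit 0x5f152467) (nat_lit 0x1a71852aa8783) (nat_lit 0x0)
  (PL.C (nat_lit 0x60152015) (nat_lit 0x2918c711f41f6) (nat_lit 0x0)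
  (PL.C (nat_lit 0x60d3e3a3) (nat_lit 0x8d2133e1665a) (nat_lit 0x0)
  (PL.C (nat_lit 0x61209b8d) (nat_lit 0x37b8349b4aa2) (nat_lit 0x0)
  (PL.C (nat_lit 0x613bbc0d) (nat_lit 0x0) (nat_lit 0x164de7b02b5a)
  (PL.C (nat_lit 0x618b1476) (nat_lit 0x5cc97adc6ad) (nat_lit 0x0)
  (PL.C (nat_lit 0x61f511b9) (nat_lit 0x75128613362e6) (nat_lit 0x0)
  (PL.C (nat_lit 0x628c6abb) (nat_lit 0x0) (nat_lit 0x64440e419a4e)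
  (PL.C (nat_lit 0x62bdbd45) (nat_lit 0x0) (nat_lit 0x25fb2ebbc7c23)
  (PL.C (nat_lit 0x62faeaa6) (nat_lit 0x103427cb4f7ab) (nat_lit 0x0)
  (PL.C (nat_lit 0x630119c6) (nat_lit 0x7fb92d596c25) (nat_lit 0x0)
  (PL.C (nat_lit 0x636cad71) (nat_lit 0x0) (nat_lit 0x76168a8680bf3)
  (PL.C (nat_lit 0x63736282) (nat_lit 0x7b174fc6020) (nat_lit 0x0) gp5_0_58))))))))))))))))))))

noncomputable def gp5_0_56 : PL :=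
  (PL.C (nat_lit 0x5512718d) (nat_lit 0x0) (nat_lit 0xe66aeae46409)
  (PL.C (nat_lit 0x5534aeb6) (nat_lit 0x0) (nat_lit 0x56190476c5d82)
  (PL.C (nat_lit 0x55914419) (nat_lit 0x85b6c8bb3b915) (nat_lit 0x0)
  (PL.C (nat_lit 0x560adfbf) (nat_lit 0x0) (nat_lit 0xe66aeae46409)
  (PL.C (nat_lit 0x56a02935) (nat_lit 0x316d8c54450608) (nat_lit 0x0)
  (PL.C (nat_lit 0x56fd109b) (nat_lit 0x0) (nat_lit 0x270b7129ba6a)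
  (PL.C (nat_lit 0x571a38ef) (nat_lit 0x8651735650b9) (nat_lit 0x0)
  (PL.C (nat_lit 0x579f255b) (nat_lit 0x0) (nat_lit 0x2c1f40046b38c)
  (PL.C (nat_lit 0x57b8aaab) (nat_lit 0x28cf0c109ca22) (nat_lit 0x0)
  (PL.C (nat_lit 0x5844eb66) (nat_lit 0x0) (nat_lit 0x216f017c240b7)
  (PL.C (nat_lit 0x58848aed) (nat_lit 0x15e0d3f511936) (nat_lit 0x0)
  (PL.C (nat_lit 0x58a23679) (nat_lit 0x0) (nat_lit 0x29a569b5a55e)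
  (PL.C (nat_lit 0x590770ea) (nat_lit 0x0) (nat_lit 0x216f017c240b7)
  (PL.C (nat_lit 0x592dca33) (nat_lit 0x1295df5ab5f87) (nat_lit 0x0)
  (PL.C (nat_lit 0x59fecc52) (nat_lit 0x0) (nat_lit 0x7918645ea6a)
  (PL.C (nat_lit 0x5a5cd09a) (nat_lit 0x0) (nat_lit 0x474d6fe9f66b3)
  (PL.C (nat_lit 0x5ab6e041) (nat_lit 0x3b9c329df5c4) (nat_lit 0x0)
  (PL.C (nat_lit 0x5b8f5bb9) (nat_lit 0x2c7bf02910402) (nat_lit 0x0)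
  (PL.C (nat_lit 0x5bb77005) (nat_lit 0x0) (nat_lit 0x22b4068990da)
  (PL.C (nat_lit 0x5bbe8e89) (nat_lit 0xcba387ad9ba7) (nat_lit 0x0) gp5_0_57))))))))))))))))))))

noncomputable def gp5_0_55 : PL :=
  (PL.C (nat_lit 0x4e00314d) (nat_lit 0x0) (nat_lit 0x163206f1d32b)
  (PL.C (nat_lit 0x4e48a717) (nat_lit 0x0) (nat_lit 0x4d71623f61b26)
  (PL.C (nat_lit 0x4e62e47b) (nat_lit 0x935e6f6705eb) (nat_lit 0x0)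
  (PL.C (nat_lit 0x4e63bb3d) (nat_lit 0x0) (nat_lit 0x92a5f494cb64e)
  (PL.C (nat_lit 0x4f346cd2) (nat_lit 0x103427cb4f7ab) (nat_lit 0x0)
  (PL.C (nat_lit 0x4f4b808f) (nat_lit 0x0) (nat_lit 0x113fcb6c4da8)
  (PL.C (nat_lit 0x4f83b027) (nat_lit 0x0) (nat_lit 0x1044882d0953)
  (PL.C (nat_lit 0x4f94d326) (nat_lit 0x7b174fc6020) (nat_lit 0x0)
  (PL.C (nat_lit 0x4feb4c01) (nat_lit 0x210024fa5f306) (nat_lit 0x0)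
  (PL.C (nat_lit 0x4ff20c4b) (nat_lit 0x17be5f60a2521) (nat_lit 0x0)
  (PL.C (nat_lit 0x50535969) (nat_lit 0x0) (nat_lit 0x4111bf663f30d)
  (PL.C (nat_lit 0x505fbfe5) (nat_lit 0x1af0c815aaeb) (nat_lit 0x0)
  (PL.C (nat_lit 0x5151d136) (nat_lit 0xa0588156114) (nat_lit 0x0)
  (PL.C (nat_lit 0x51bcd76f) (nat_lit 0x0) (nat_lit 0x597740311afe6)
  (PL.C (nat_lit 0x521a31a6) (nat_lit 0x288dc1e24eb96) (nat_lit 0x0)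
  (PL.C (nat_lit 0x52b0f45d) (nat_lit 0x935e6f6705eb) (nat_lit 0x0)
  (PL.C (nat_lit 0x53ce09f5) (nat_lit 0x0) (nat_lit 0x3f59601d4a1e)
  (PL.C (nat_lit 0x541e5349) (nat_lit 0x2d69182a4d6d) (nat_lit 0x0)
  (PL.C (nat_lit 0x54b79623) (nat_lit 0xd7a799841ad9) (nat_lit 0x0)
  (PL.C (nat_lit 0x54b9ee69) (nat_lit 0x0) (nat_lit 0xdb4deb5b78f3) gp5_0_56))))))))))))))))))))

noncomputable def gp5_0_54 : PL :=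
  (PL.C (nat_lit 0x48972693) (nat_lit 0x28cf0c109ca22) (nat_lit 0x0)
  (PL.C (nat_lit 0x48b04291) (nat_lit 0xa60703413419) (nat_lit 0x0)
  (PL.C (nat_lit 0x48f5a94b) (nat_lit 0x0) (nat_lit 0x163206f1d32b)
  (PL.C (nat_lit 0x48fc3255) (nat_lit 0x69d61e4278ad3) (nat_lit 0x0)
  (PL.C (nat_lit 0x492022c9) (nat_lit 0x0) (nat_lit 0x833026748a2)
  (PL.C (nat_lit 0x49f01902) (nat_lit 0x3340de1f7faac) (nat_lit 0x0)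
  (PL.C (nat_lit 0x49f76207) (nat_lit 0x49af48f9076d3) (nat_lit 0x0)
  (PL.C (nat_lit 0x4a4bdc16) (nat_lit 0x0) (nat_lit 0x1751992cbf6b7)
  (PL.C (nat_lit 0x4a8754d9) (nat_lit 0x0) (nat_lit 0x2623bb3a70c3)
  (PL.C (nat_lit 0x4a93096e) (nat_lit 0x7fb92d596c25) (nat_lit 0x0)
  (PL.C (nat_lit 0x4b1742d2) (nat_lit 0x0) (nat_lit 0x37d92cdcbbb95)
  (PL.C (nat_lit 0x4b616d2a) (nat_lit 0x0) (nat_lit 0x56190476c5d82)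
  (PL.C (nat_lit 0x4b67cb4e) (nat_lit 0x0) (nat_lit 0x1a580af53544)
  (PL.C (nat_lit 0x4b68da93) (nat_lit 0x403b2b0a2be1e) (nat_lit 0x0)
  (PL.C (nat_lit 0x4ca99bdb) (nat_lit 0x0) (nat_lit 0x17c54a7120699)
  (PL.C (nat_lit 0x4d1acfa6) (nat_lit 0x5c054c49d2a26) (nat_lit 0x0)
  (PL.C (nat_lit 0x4d72506d) (nat_lit 0x2703d85e20300) (nat_lit 0x0)
  (PL.C (nat_lit 0x4d8c45f9) (nat_lit 0x2918c711f41f6) (nat_lit 0x0)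
  (PL.C (nat_lit 0x4da725f6) (nat_lit 0x432bbf4b323d) (nat_lit 0x0)
  (PL.C (nat_lit 0x4dc4baaa) (nat_lit 0x149d9715dfa6e) (nat_lit 0x0) gp5_0_55))))))))))))))))))))

noncomputable def gp5_0_53 : PL :=
  (PL.C (nat_lit 0x42f2dfb2) (nat_lit 0x2588b0a1b87a4) (nat_lit 0x0)
  (PL.C (nat_lit 0x4376d5c5) (nat_lit 0x0) (nat_lit 0x9eb590346d4b2)
  (PL.C (nat_lit 0x437c88b7) (nat_lit 0xad2437db2b68) (nat_lit 0x0)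
  (PL.C (nat_lit 0x43efe195) (nat_lit 0x40eaac0d2cc0) (nat_lit 0x0)
  (PL.C (nat_lit 0x43f39522) (nat_lit 0x3e9de1d8b571f) (nat_lit 0x0)
  (PL.C (nat_lit 0x44b2d9ea) (nat_lit 0x350cad2db2e1e) (nat_lit 0x0)
  (PL.C (nat_lit 0x44d1ef93) (nat_lit 0x24506b3d7b4c) (nat_lit 0x0)
  (PL.C (nat_lit 0x44da196d) (nat_lit 0x0) (nat_lit 0x21e971ae429f)
  (PL.C (nat_lit 0x453ba496) (nat_lit 0x2588b0a1b87a4) (nat_lit 0x0)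
  (PL.C (nat_lit 0x45f24acb) (nat_lit 0x0) (nat_lit 0x3f59601d4a1e)
  (PL.C (nat_lit 0x463205f1) (nat_lit 0x3b9c329df5c4) (nat_lit 0x0)
  (PL.C (nat_lit 0x464cd0f1) (nat_lit 0x4689a6c663113) (nat_lit 0x0)
  (PL.C (nat_lit 0x46dff76a) (nat_lit 0xeb3491405713) (nat_lit 0x0)
  (PL.C (nat_lit 0x47208b1e) (nat_lit 0x0) (nat_lit 0x1ec2850dbf4f)
  (PL.C (nat_lit 0x474b5bab) (nat_lit 0x20272cbecd12) (nat_lit 0x0)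
  (PL.C (nat_lit 0x4783b3ef) (nat_lit 0x0) (nat_lit 0x92a5f494cb64e)
  (PL.C (nat_lit 0x47d06681) (nat_lit 0x0) (nat_lit 0x2c29bc458d673)
  (PL.C (nat_lit 0x47e878bd) (nat_lit 0x0) (nat_lit 0xe52de8ecb532)
  (PL.C (nat_lit 0x4803d996) (nat_lit 0x288dc1e24eb96) (nat_lit 0x0)
  (PL.C (nat_lit 0x48499fbd) (nat_lit 0x0) (nat_lit 0x9eb590346d4b2) gp5_0_54))))))))))))))))))))

noncomputable def gp5_0_52 : PL :=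
  (PL.C (nat_lit 0x3e8ec639) (nat_lit 0xba2fa6f4d988) (nat_lit 0x0)
  (PL.C (nat_lit 0x3eb83c33) (nat_lit 0x0) (nat_lit 0x4a8749d7c977)
  (PL.C (nat_lit 0x3ebdda6d) (nat_lit 0x0) (nat_lit 0x131be2375e701)
  (PL.C (nat_lit 0x3ed0209d) (nat_lit 0x0) (nat_lit 0x60fd50a6d2710)
  (PL.C (nat_lit 0x3f636d9a) (nat_lit 0x350cad2db2e1e) (nat_lit 0x0)
  (PL.C (nat_lit 0x3fa84e1f) (nat_lit 0x0) (nat_lit 0x2224a23ceda79)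
  (PL.C (nat_lit 0x3fd83381) (nat_lit 0x0) (nat_lit 0x2e7a84a23556)
  (PL.C (nat_lit 0x3ff91cd1) (nat_lit 0xad2437db2b68) (nat_lit 0x0)
  (PL.C (nat_lit 0x401187d1) (nat_lit 0x0) (nat_lit 0x22a554098db1b)
  (PL.C (nat_lit 0x40b71287) (nat_lit 0x1807ffe787f601) (nat_lit 0x0)
  (PL.C (nat_lit 0x40d27d5e) (nat_lit 0xda4c6e3bebf) (nat_lit 0x0)
  (PL.C (nat_lit 0x416a2d05) (nat_lit 0x0) (nat_lit 0x17547ac5a2c95e)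
  (PL.C (nat_lit 0x4176699d) (nat_lit 0x0) (nat_lit 0xc614bdefcfe3)
  (PL.C (nat_lit 0x41b2f1d2) (nat_lit 0x0) (nat_lit 0x7918645ea6a)
  (PL.C (nat_lit 0x41fa5513) (nat_lit 0x0) (nat_lit 0x259b8d479a6be)
  (PL.C (nat_lit 0x422b95a7) (nat_lit 0x75128613362e6) (nat_lit 0x0)
  (PL.C (nat_lit 0x422c4af1) (nat_lit 0xd7a799841ad9) (nat_lit 0x0)
  (PL.C (nat_lit 0x42503bcb) (nat_lit 0x0) (nat_lit 0x75545143795b)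
  (PL.C (nat_lit 0x4281bc7f) (nat_lit 0x8651735650b9) (nat_lit 0x0)
  (PL.C (nat_lit 0x42975a65) (nat_lit 0x0) (nat_lit 0x2e7a84a23556) gp5_0_53))))))))))))))))))))

noncomputable def gp5_0_51 : PL :=
  (PL.C (nat_lit 0x39fe0b12) (nat_lit 0x0) (nat_lit 0x37d92cdcbbb95)
  (PL.C (nat_lit 0x3a117b4a) (nat_lit 0x0) (nat_lit 0x1d14b9472e4db)
  (PL.C (nat_lit 0x3a2a7e83) (nat_lit 0x0) (nat_lit 0x310e74efe8dda)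
  (PL.C (nat_lit 0x3a7b1c72) (nat_lit 0x0) (nat_lit 0x1f925c53877df)
  (PL.C (nat_lit 0x3b293e3b) (nat_lit 0x0) (nat_lit 0xa4d6d4a99ad)
  (PL.C (nat_lit 0x3b73dc22) (nat_lit 0x0) (nat_lit 0x1751992cbf6b7)
  (PL.C (nat_lit 0x3c0231c3) (nat_lit 0x0) (nat_lit 0x3ed74445c38bd)
  (PL.C (nat_lit 0x3c2efd97) (nat_lit 0x0) (nat_lit 0xe52de8ecb532)
  (PL.C (nat_lit 0x3c5e8deb) (nat_lit 0x246f3b1ff6ce9) (nat_lit 0x0)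
  (PL.C (nat_lit 0x3c79ead6) (nat_lit 0x0) (nat_lit 0x2bd60e0256acb)
  (PL.C (nat_lit 0x3cb39e71) (nat_lit 0x20272cbecd12) (nat_lit 0x0)
  (PL.C (nat_lit 0x3d05a171) (nat_lit 0x210024fa5f306) (nat_lit 0x0)
  (PL.C (nat_lit 0x3d0a3d26) (nat_lit 0x0) (nat_lit 0x474d6fe9f66b3)
  (PL.C (nat_lit 0x3d49c393) (nat_lit 0x0) (nat_lit 0x19153006e236c)
  (PL.C (nat_lit 0x3d5b9d63) (nat_lit 0x5f7a3f2fd7bb6) (nat_lit 0x0)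
  (PL.C (nat_lit 0x3db32bd2) (nat_lit 0x149d9715dfa6e) (nat_lit 0x0)
  (PL.C (nat_lit 0x3dbd6a1e) (nat_lit 0x0) (nat_lit 0x321bb44253f7d)
  (PL.C (nat_lit 0x3dea37f5) (nat_lit 0x0) (nat_lit 0x29a569b5a55e)
  (PL.C (nat_lit 0x3e3b241e) (nat_lit 0x5c054c49d2a26) (nat_lit 0x0)
  (PL.C (nat_lit 0x3e46e2cb) (nat_lit 0x0) (nat_lit 0x6a5af1faf62a6) gp5_0_52))))))))))))))))))))

noncomputable def gp5_0_50 : PL :=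
  (PL.C (nat_lit 0x36428ff7) (nat_lit 0x0) (nat_lit 0x4111bf663f30d)
  (PL.C (nat_lit 0x365db809) (nat_lit 0x0) (nat_lit 0x6ea4f19ae2ab)
  (PL.C (nat_lit 0x36a130e3) (nat_lit 0x0) (nat_lit 0x17c54a7120699)
  (PL.C (nat_lit 0x36d586ef) (nat_lit 0x0) (nat_lit 0x9ade4f4828ca)
  (PL.C (nat_lit 0x36e24739) (nat_lit 0x0) (nat_lit 0x5b1733822dd69)
  (PL.C (nat_lit 0x373861d9) (nat_lit 0x0) (nat_lit 0x259b8d479a6be)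
  (PL.C (nat_lit 0x376d48bd) (nat_lit 0x6b2254c68001b) (nat_lit 0x0)
  (PL.C (nat_lit 0x3771f75f) (nat_lit 0x0) (nat_lit 0x164de7b02b5a)
  (PL.C (nat_lit 0x37b2129f) (nat_lit 0x0) (nat_lit 0x17547ac5a2c95e)
  (PL.C (nat_lit 0x37deb14e) (nat_lit 0x1a5c3324f29a5) (nat_lit 0x0)
  (PL.C (nat_lit 0x37eb4003) (nat_lit 0xc59c93b7b2c8) (nat_lit 0x0)
  (PL.C (nat_lit 0x37fa9637) (nat_lit 0x0) (nat_lit 0x310e74efe8dda)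
  (PL.C (nat_lit 0x38143786) (nat_lit 0x432bbf4b323d) (nat_lit 0x0)
  (PL.C (nat_lit 0x384c36cd) (nat_lit 0x37518db7fe0356) (nat_lit 0x0)
  (PL.C (nat_lit 0x387bf446) (nat_lit 0x0) (nat_lit 0x321bb44253f7d)
  (PL.C (nat_lit 0x38958315) (nat_lit 0x0) (nat_lit 0x44b98af4faeb7)
  (PL.C (nat_lit 0x38b6f65e) (nat_lit 0x0) (nat_lit 0x6c90c0c0d2949)
  (PL.C (nat_lit 0x392c28c7) (nat_lit 0x1b0495e0ba987) (nat_lit 0x0)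
  (PL.C (nat_lit 0x393ebdfd) (nat_lit 0x0) (nat_lit 0x8fed40ad16b1)
  (PL.C (nat_lit 0x395c952a) (nat_lit 0x0) (nat_lit 0x6c90c0c0d2949) gp5_0_51))))))))))))))))))))

noncomputable def gp5_0_49 : PL :=
  (PL.C (nat_lit 0x32136489) (nat_lit 0x4b1d5898f32a) (nat_lit 0x0)
  (PL.C (nat_lit 0x32453234) (nat_lit 0x0) (nat_lit 0x5866c7e959c)
  (PL.C (nat_lit 0x325056f3) (nat_lit 0x3aa80ad6a33b5) (nat_lit 0x0)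
  (PL.C (nat_lit 0x3283821d) (nat_lit 0x0) (nat_lit 0x597740311afe6)
  (PL.C (nat_lit 0x32a8160f) (nat_lit 0x124243791601a) (nat_lit 0x0)
  (PL.C (nat_lit 0x3332c4d5) (nat_lit 0xa756a85e96d1) (nat_lit 0x0)
  (PL.C (nat_lit 0x3334481d) (nat_lit 0x37e541d59007) (nat_lit 0x0)
  (PL.C (nat_lit 0x33655611) (nat_lit 0x24506b3d7b4c) (nat_lit 0x0)
  (PL.C (nat_lit 0x33a51f3b) (nat_lit 0x3321bdb900ef2) (nat_lit 0x0)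
  (PL.C (nat_lit 0x33bc9b1f) (nat_lit 0x0) (nat_lit 0x48de73fd22720)
  (PL.C (nat_lit 0x340020de) (nat_lit 0x0) (nat_lit 0x3eb5f065e10b)
  (PL.C (nat_lit 0x344ca287) (nat_lit 0x0) (nat_lit 0x22a554098db1b)
  (PL.C (nat_lit 0x34bf098b) (nat_lit 0x518338bcfda68) (nat_lit 0x0)
  (PL.C (nat_lit 0x354c0832) (nat_lit 0x0) (nat_lit 0xd7b38915f1e9)
  (PL.C (nat_lit 0x358949b3) (nat_lit 0x0) (nat_lit 0xcc54f5c3f801)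
  (PL.C (nat_lit 0x358ce646) (nat_lit 0x0) (nat_lit 0x5fe9a0d809827)
  (PL.C (nat_lit 0x3598e183) (nat_lit 0xb68835a05c51a) (nat_lit 0x0)
  (PL.C (nat_lit 0x35ff4475) (nat_lit 0x3e1dc92651292) (nat_lit 0x0)
  (PL.C (nat_lit 0x3600d5d5) (nat_lit 0x17be5f60a2521) (nat_lit 0x0)
  (PL.C (nat_lit 0x3612efc1) (nat_lit 0xf67602592a5d) (nat_lit 0x0) gp5_0_50))))))))))))))))))))

noncomputable def gp5_0_48 : PL :=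
  (PL.C (nat_lit 0x2ecc03f6) (nat_lit 0x0) (nat_lit 0x2bd60e0256acb)
  (PL.C (nat_lit 0x2ed708f1) (nat_lit 0xa756a85e96d1) (nat_lit 0x0)
  (PL.C (nat_lit 0x2f2e4f31) (nat_lit 0x101ad0d0490ef) (nat_lit 0x0)
  (PL.C (nat_lit 0x2f344d4f) (nat_lit 0xf67602592a5d) (nat_lit 0x0)
  (PL.C (nat_lit 0x2f3c0d21) (nat_lit 0x92fe1d9d11c33) (nat_lit 0x0)
  (PL.C (nat_lit 0x2f879272) (nat_lit 0x179077830d5a0) (nat_lit 0x0)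
  (PL.C (nat_lit 0x2fa9d4a7) (nat_lit 0x53cff86c28653) (nat_lit 0x0)
  (PL.C (nat_lit 0x2fe04456) (nat_lit 0x3e9de1d8b571f) (nat_lit 0x0)
  (PL.C (nat_lit 0x2ff0507e) (nat_lit 0x25277c7f375b) (nat_lit 0x0)
  (PL.C (nat_lit 0x3004f6b9) (nat_lit 0x124243791601a) (nat_lit 0x0)
  (PL.C (nat_lit 0x3064c462) (nat_lit 0x0) (nat_lit 0x1f925c53877df)
  (PL.C (nat_lit 0x307581b6) (nat_lit 0x0) (nat_lit 0x2bfad4090d7a6)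
  (PL.C (nat_lit 0x30a3c632) (nat_lit 0x0) (nat_lit 0x3eb5f065e10b)
  (PL.C (nat_lit 0x30a8218e) (nat_lit 0x754c6b537b53) (nat_lit 0x0)
  (PL.C (nat_lit 0x30d8a023) (nat_lit 0x0) (nat_lit 0x65178d4257c6)
  (PL.C (nat_lit 0x3119e5cf) (nat_lit 0x0) (nat_lit 0x75545143795b)
  (PL.C (nat_lit 0x31af8de6) (nat_lit 0x0) (nat_lit 0x1ec2850dbf4f)
  (PL.C (nat_lit 0x31dde967) (nat_lit 0x0) (nat_lit 0x48c72ae25b5d3)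
  (PL.C (nat_lit 0x320099ab) (nat_lit 0xccfe5ac108ca) (nat_lit 0x0)
  (PL.C (nat_lit 0x320f29fb) (nat_lit 0x0) (nat_lit 0x44b98af4faeb7) gp5_0_49))))))))))))))))))))

noncomputable def gp5_0_47 : PL :=
  (PL.C (nat_lit 0x2c567daa) (nat_lit 0x0) (nat_lit 0x1d14b9472e4db)
  (PL.C (nat_lit 0x2c64e6ee) (nat_lit 0x38e27efada70) (nat_lit 0x0)
  (PL.C (nat_lit 0x2c86aaf7) (nat_lit 0x33ef447f99f5c) (nat_lit 0x0)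
  (PL.C (nat_lit 0x2ccb7655) (nat_lit 0xa60703413419) (nat_lit 0x0)
  (PL.C (nat_lit 0x2ce1e1ab) (nat_lit 0x2ee930c82c81c) (nat_lit 0x0)
  (PL.C (nat_lit 0x2cfdb07a) (nat_lit 0x264aaba150295) (nat_lit 0x0)
  (PL.C (nat_lit 0x2d202cbf) (nat_lit 0x3e7c31eaf17cb) (nat_lit 0x0)
  (PL.C (nat_lit 0x2d476f4f) (nat_lit 0xba2fa6f4d988) (nat_lit 0x0)
  (PL.C (nat_lit 0x2d5e18b1) (nat_lit 0x0) (nat_lit 0xef0eff59e241)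
  (PL.C (nat_lit 0x2d87b92b) (nat_lit 0x0) (nat_lit 0x227a22d6ba305)
  (PL.C (nat_lit 0x2d9f319b) (nat_lit 0x0) (nat_lit 0x2f713269946f8)
  (PL.C (nat_lit 0x2da59885) (nat_lit 0xc59c93b7b2c8) (nat_lit 0x0)
  (PL.C (nat_lit 0x2dc21307) (nat_lit 0x0) (nat_lit 0x76168a8680bf3)
  (PL.C (nat_lit 0x2de14a62) (nat_lit 0x0) (nat_lit 0x83408521e3a3)
  (PL.C (nat_lit 0x2de6bb9e) (nat_lit 0xeb3491405713) (nat_lit 0x0)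
  (PL.C (nat_lit 0x2e1324ab) (nat_lit 0x8b3602a2804ec) (nat_lit 0x0)
  (PL.C (nat_lit 0x2e40b685) (nat_lit 0x85b6c8bb3b915) (nat_lit 0x0)
  (PL.C (nat_lit 0x2e549fdd) (nat_lit 0x884097420cb46) (nat_lit 0x0)
  (PL.C (nat_lit 0x2ea18732) (nat_lit 0x1a5c3324f29a5) (nat_lit 0x0)
  (PL.C (nat_lit 0x2ea5027f) (nat_lit 0xaf88590af626c) (nat_lit 0x0) gp5_0_48))))))))))))))))))))

noncomputable def gp5_0_46 : PL :=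
  (PL.C (nat_lit 0x29b3b527) (nat_lit 0x49af48f9076d3) (nat_lit 0x0)
  (PL.C (nat_lit 0x29b48426) (nat_lit 0x852a8b6ce2b0a) (nat_lit 0x0)
  (PL.C (nat_lit 0x29d02822) (nat_lit 0x4113b78e6063) (nat_lit 0x0)
  (PL.C (nat_lit 0x29e015be) (nat_lit 0x0) (nat_lit 0x213ced6e9926)
  (PL.C (nat_lit 0x2a116f55) (nat_lit 0x0) (nat_lit 0x60fd50a6d2710)
  (PL.C (nat_lit 0x2a186b43) (nat_lit 0x0) (nat_lit 0x2f713269946f8)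
  (PL.C (nat_lit 0x2a271ee5) (nat_lit 0x0) (nat_lit 0x2224a23ceda79)
  (PL.C (nat_lit 0x2a35b397) (nat_lit 0x2a203d41239b2) (nat_lit 0x0)
  (PL.C (nat_lit 0x2a53bbf9) (nat_lit 0x218070fc6793) (nat_lit 0x0)
  (PL.C (nat_lit 0x2a6e2443) (nat_lit 0x0) (nat_lit 0x6a5af1faf62a6)
  (PL.C (nat_lit 0x2a902256) (nat_lit 0x38e27efada70) (nat_lit 0x0)
  (PL.C (nat_lit 0x2aa43551) (nat_lit 0x8d2133e1665a) (nat_lit 0x0)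
  (PL.C (nat_lit 0x2aa61336) (nat_lit 0x264aaba150295) (nat_lit 0x0)
  (PL.C (nat_lit 0x2ab2804d) (nat_lit 0x1b0495e0ba987) (nat_lit 0x0)
  (PL.C (nat_lit 0x2ae391f9) (nat_lit 0xb68835a05c51a) (nat_lit 0x0)
  (PL.C (nat_lit 0x2b088b63) (nat_lit 0x0) (nat_lit 0x66081b0a0aef7)
  (PL.C (nat_lit 0x2b0c2e01) (nat_lit 0x1194fd7d272f0) (nat_lit 0x0)
  (PL.C (nat_lit 0x2b40929b) (nat_lit 0x125fa60dbcdc1) (nat_lit 0x0)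
  (PL.C (nat_lit 0x2c0338ed) (nat_lit 0xe143a382f742) (nat_lit 0x0)
  (PL.C (nat_lit 0x2c357d32) (nat_lit 0x41734553be181) (nat_lit 0x0) gp5_0_47))))))))))))))))))))

noncomputable def gp5_0_45 : PL :=
  (PL.C (nat_lit 0x26d61d97) (nat_lit 0x0) (nat_lit 0x56cd69f0560ba)
  (PL.C (nat_lit 0x26ec9117) (nat_lit 0x0) (nat_lit 0x423ecd2e569a9)
  (PL.C (nat_lit 0x2708adef) (nat_lit 0x0) (nat_lit 0xc986ffaef5b)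
  (PL.C (nat_lit 0x27164fd9) (nat_lit 0x0) (nat_lit 0x5662b80c7880f)
  (PL.C (nat_lit 0x2723d513) (nat_lit 0x1b71990bd7d37) (nat_lit 0x0)
  (PL.C (nat_lit 0x276012bb) (nat_lit 0xaf88590af626c) (nat_lit 0x0)
  (PL.C (nat_lit 0x27d3f9b5) (nat_lit 0x264b7263a590) (nat_lit 0x0)
  (PL.C (nat_lit 0x27df9365) (nat_lit 0x0) (nat_lit 0x5662b80c7880f)
  (PL.C (nat_lit 0x28017682) (nat_lit 0x23462f5b5d6f1) (nat_lit 0x0)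
  (PL.C (nat_lit 0x281f53ba) (nat_lit 0x25277c7f375b) (nat_lit 0x0)
  (PL.C (nat_lit 0x2877bef6) (nat_lit 0x179077830d5a0) (nat_lit 0x0)
  (PL.C (nat_lit 0x28892d5d) (nat_lit 0x0) (nat_lit 0x3ed74445c38bd)
  (PL.C (nat_lit 0x289aebd9) (nat_lit 0x0) (nat_lit 0x2d73596a4123f)
  (PL.C (nat_lit 0x28e7be42) (nat_lit 0x0) (nat_lit 0x26b147c3dba06)
  (PL.C (nat_lit 0x28f95ce7) (nat_lit 0x3321bdb900ef2) (nat_lit 0x0)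
  (PL.C (nat_lit 0x2947a2b1) (nat_lit 0x0) (nat_lit 0x2874f52b3362)
  (PL.C (nat_lit 0x2953a8a1) (nat_lit 0x37e541d59007) (nat_lit 0x0)
  (PL.C (nat_lit 0x29849732) (nat_lit 0x0) (nat_lit 0x1baaae7eb3d71)
  (PL.C (nat_lit 0x29897709) (nat_lit 0x0) (nat_lit 0x227a22d6ba305)
  (PL.C (nat_lit 0x299e40f7) (nat_lit 0x69d61e4278ad3) (nat_lit 0x0) gp5_0_46))))))))))))))))))))

noncomputable def gp5_0_44 : PL :=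
  (PL.C (nat_lit 0x24008e8e) (nat_lit 0x0) (nat_lit 0xd7b38915f1e9)
  (PL.C (nat_lit 0x240c9fd6) (nat_lit 0x0) (nat_lit 0x1cbd6a0e84a34)
  (PL.C (nat_lit 0x242c5ffa) (nat_lit 0x0) (nat_lit 0x5fe9a0d809827)
  (PL.C (nat_lit 0x2453ae2f) (nat_lit 0x48f4f28c487f6) (nat_lit 0x0)
  (PL.C (nat_lit 0x2456bfc5) (nat_lit 0x29e063e635b12) (nat_lit 0x0)
  (PL.C (nat_lit 0x24889d0b) (nat_lit 0x0) (nat_lit 0x22b4068990da)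
  (PL.C (nat_lit 0x2496da26) (nat_lit 0x0) (nat_lit 0x1a7d854689af)
  (PL.C (nat_lit 0x24f6a4ea) (nat_lit 0xda4c6e3bebf) (nat_lit 0x0)
  (PL.C (nat_lit 0x25478002) (nat_lit 0x0) (nat_lit 0x1620a1130a5bd)
  (PL.C (nat_lit 0x2551b97a) (nat_lit 0x0) (nat_lit 0x382fe62669e6)
  (PL.C (nat_lit 0x25967931) (nat_lit 0xa827d1e2b5f18) (nat_lit 0x0)
  (PL.C (nat_lit 0x25a9d981) (nat_lit 0x0) (nat_lit 0x1c87ef4b6a1c)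
  (PL.C (nat_lit 0x25b9020e) (nat_lit 0x16c10cff30af2) (nat_lit 0x0)
  (PL.C (nat_lit 0x2617d5fb) (nat_lit 0x0) (nat_lit 0x1c87ef4b6a1c)
  (PL.C (nat_lit 0x2629d3fe) (nat_lit 0x0) (nat_lit 0x1c93b140ddb73)
  (PL.C (nat_lit 0x263c5467) (nat_lit 0x0) (nat_lit 0x4a8749d7c977)
  (PL.C (nat_lit 0x2681fe6d) (nat_lit 0x0) (nat_lit 0xe27e19a9d666)
  (PL.C (nat_lit 0x26830f47) (nat_lit 0x0) (nat_lit 0x48c72ae25b5d3)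
  (PL.C (nat_lit 0x26ab4ae3) (nat_lit 0x884097420cb46) (nat_lit 0x0)
  (PL.C (nat_lit 0x26c6ff02) (nat_lit 0x0) (nat_lit 0x382fe62669e6) gp5_0_45))))))))))))))))))))

noncomputable def gp5_0_43 : PL :=
  (PL.C (nat_lit 0x2221d88e) (nat_lit 0x106727c1dcac8) (nat_lit 0x0)
  (PL.C (nat_lit 0x2222dabe) (nat_lit 0x0) (nat_lit 0x1d93efe3be6c)
  (PL.C (nat_lit 0x22438eb6) (nat_lit 0x0) (nat_lit 0x83408521e3a3)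
  (PL.C (nat_lit 0x2246eefd) (nat_lit 0x0) (nat_lit 0x3613ed83f09e9)
  (PL.C (nat_lit 0x226e14d2) (nat_lit 0x0) (nat_lit 0x4d758c7c82dca)
  (PL.C (nat_lit 0x22aac094) (nat_lit 0x0) (nat_lit 0x4b53e40af78)
  (PL.C (nat_lit 0x22d8bb35) (nat_lit 0x6fddde81d2562) (nat_lit 0x0)
  (PL.C (nat_lit 0x2306b1f1) (nat_lit 0x218070fc6793) (nat_lit 0x0)
  (PL.C (nat_lit 0x2333f603) (nat_lit 0x0) (nat_lit 0x2c1f40046b38c)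
  (PL.C (nat_lit 0x23392bef) (nat_lit 0x0) (nat_lit 0xa426200b78d8e)
  (PL.C (nat_lit 0x233fc2b7) (nat_lit 0x0) (nat_lit 0x48de73fd22720)
  (PL.C (nat_lit 0x23529c87) (nat_lit 0x1df40556d925) (nat_lit 0x0)
  (PL.C (nat_lit 0x2386cb59) (nat_lit 0x1d7466b2b6c3d) (nat_lit 0x0)
  (PL.C (nat_lit 0x23956339) (nat_lit 0x403b2b0a2be1e) (nat_lit 0x0)
  (PL.C (nat_lit 0x23a15095) (nat_lit 0x33ef447f99f5c) (nat_lit 0x0)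
  (PL.C (nat_lit 0x23a1b233) (nat_lit 0x0) (nat_lit 0xe27e19a9d666)
  (PL.C (nat_lit 0x23b50c81) (nat_lit 0x3e6a4101f1e0) (nat_lit 0x0)
  (PL.C (nat_lit 0x23b60983) (nat_lit 0xecb96d242fb8) (nat_lit 0x0)
  (PL.C (nat_lit 0x23bb4102) (nat_lit 0x6ce6b157c0225) (nat_lit 0x0)
  (PL.C (nat_lit 0x23db580f) (nat_lit 0x10cabb274a46) (nat_lit 0x0) gp5_0_44))))))))))))))))))))

noncomputable def gp5_0_42 : PL :=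
  (PL.C (nat_lit 0x2023371f) (nat_lit 0x0) (nat_lit 0x56cd69f0560ba)
  (PL.C (nat_lit 0x204ff369) (nat_lit 0xb5a3f2baa7f3) (nat_lit 0x0)
  (PL.C (nat_lit 0x20681265) (nat_lit 0x0) (nat_lit 0x17912fecdae57)
  (PL.C (nat_lit 0x206d2ecc) (nat_lit 0x0) (nat_lit 0x4b53e40af78)
  (PL.C (nat_lit 0x2081aee1) (nat_lit 0x2a203d41239b2) (nat_lit 0x0)
  (PL.C (nat_lit 0x20906ac2) (nat_lit 0x0) (nat_lit 0x10f8636c3dd6c)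
  (PL.C (nat_lit 0x20a48baf) (nat_lit 0x0) (nat_lit 0x5b1733822dd69)
  (PL.C (nat_lit 0x20af7cb3) (nat_lit 0x0) (nat_lit 0x17912fecdae57)
  (PL.C (nat_lit 0x20bbee8a) (nat_lit 0x41734553be181) (nat_lit 0x0)
  (PL.C (nat_lit 0x20dba5b3) (nat_lit 0x48f4f28c487f6) (nat_lit 0x0)
  (PL.C (nat_lit 0x20fee2fd) (nat_lit 0x92fe1d9d11c33) (nat_lit 0x0)
  (PL.C (nat_lit 0x2109f249) (nat_lit 0x2f3f2f10de89b) (nat_lit 0x0)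
  (PL.C (nat_lit 0x213e9b9a) (nat_lit 0x53236f237422d) (nat_lit 0x0)
  (PL.C (nat_lit 0x215f7152) (nat_lit 0x16c10cff30af2) (nat_lit 0x0)
  (PL.C (nat_lit 0x21624306) (nat_lit 0x0) (nat_lit 0x1fce8d0dfaa8)
  (PL.C (nat_lit 0x2188a181) (nat_lit 0x9d57ddbba94c) (nat_lit 0x0)
  (PL.C (nat_lit 0x218ae4a2) (nat_lit 0x51553b23615cc) (nat_lit 0x0)
  (PL.C (nat_lit 0x21af570b) (nat_lit 0x0) (nat_lit 0x3967cfb9ac6a1)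
  (PL.C (nat_lit 0x21c5640a) (nat_lit 0x18e88f92d774) (nat_lit 0x0)
  (PL.C (nat_lit 0x21d287b7) (nat_lit 0x4d23dfe939874) (nat_lit 0x0) gp5_0_43))))))))))))))))))))

noncomputable def gp5_0_41 : PL :=
  (PL.C (nat_lit 0x1e1c3629) (nat_lit 0x0) (nat_lit 0x107c89cc0344b)
  (PL.C (nat_lit 0x1e247845) (nat_lit 0x0) (nat_lit 0x11681011c5fc54)
  (PL.C (nat_lit 0x1e2f9f8a) (nat_lit 0x852a8b6ce2b0a) (nat_lit 0x0)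
  (PL.C (nat_lit 0x1e506c47) (nat_lit 0x0) (nat_lit 0xe20ef4dfb6ed)
  (PL.C (nat_lit 0x1e5a7b72) (nat_lit 0x0) (nat_lit 0x2c58adf60925b)
  (PL.C (nat_lit 0x1e6a2112) (nat_lit 0x0) (nat_lit 0x12ccb64e1f4f2)
  (PL.C (nat_lit 0x1e6e65ae) (nat_lit 0x0) (nat_lit 0x1620a1130a5bd)
  (PL.C (nat_lit 0x1e77e41f) (nat_lit 0x3f2f339540368) (nat_lit 0x0)
  (PL.C (nat_lit 0x1e989151) (nat_lit 0x0) (nat_lit 0x1ccd210753bc)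
  (PL.C (nat_lit 0x1eaa612b) (nat_lit 0x0) (nat_lit 0x423ecd2e569a9)
  (PL.C (nat_lit 0x1ed303d7) (nat_lit 0x0) (nat_lit 0xb53c17bd5660)
  (PL.C (nat_lit 0x1ee3153e) (nat_lit 0x0) (nat_lit 0x1b6fd1885db94)
  (PL.C (nat_lit 0x1f3a05f6) (nat_lit 0x106727c1dcac8) (nat_lit 0x0)
  (PL.C (nat_lit 0x1f3c3afd) (nat_lit 0xecb96d242fb8) (nat_lit 0x0)
  (PL.C (nat_lit 0x1f4bdd03) (nat_lit 0x0) (nat_lit 0x8fed40ad16b1)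
  (PL.C (nat_lit 0x1f78338a) (nat_lit 0x0) (nat_lit 0x1cbd6a0e84a34)
  (PL.C (nat_lit 0x1f7d5e16) (nat_lit 0x0) (nat_lit 0x297ec32b739c2)
  (PL.C (nat_lit 0x1fcb3945) (nat_lit 0x3e7c31eaf17cb) (nat_lit 0x0)
  (PL.C (nat_lit 0x1fe8313f) (nat_lit 0x0) (nat_lit 0x65178d4257c6)
  (PL.C (nat_lit 0x20034f26) (nat_lit 0x18e88f92d774) (nat_lit 0x0) gp5_0_42))))))))))))))))))))

noncomputable def gp5_0_40 : PL :=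
  (PL.C (nat_lit 0x1c66ddc1) (nat_lit 0x0) (nat_lit 0x247903c00142b)
  (PL.C (nat_lit 0x1c9389f9) (nat_lit 0x0) (nat_lit 0xc986ffaef5b)
  (PL.C (nat_lit 0x1c97b6a6) (nat_lit 0x6ce6b157c0225) (nat_lit 0x0)
  (PL.C (nat_lit 0x1cb2c956) (nat_lit 0x1f665f8e2da2b) (nat_lit 0x0)
  (PL.C (nat_lit 0x1cd3c539) (nat_lit 0x0) (nat_lit 0x2a267296e60b)
  (PL.C (nat_lit 0x1cd5b712) (nat_lit 0x0) (nat_lit 0x3a95387ffe891)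
  (PL.C (nat_lit 0x1cdc2aa9) (nat_lit 0x0) (nat_lit 0x845e034df1e55)
  (PL.C (nat_lit 0x1d052eaf) (nat_lit 0x10cabb274a46) (nat_lit 0x0)
  (PL.C (nat_lit 0x1d134c3f) (nat_lit 0x0) (nat_lit 0x20eb0fbef96f0)
  (PL.C (nat_lit 0x1d14245f) (nat_lit 0x29e063e635b12) (nat_lit 0x0)
  (PL.C (nat_lit 0x1d6a7cc9) (nat_lit 0x6fddde81d2562) (nat_lit 0x0)
  (PL.C (nat_lit 0x1d7b47b9) (nat_lit 0x0) (nat_lit 0x4ca3bbc86e0a3)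
  (PL.C (nat_lit 0x1d96245b) (nat_lit 0x0) (nat_lit 0x1ccd210753bc)
  (PL.C (nat_lit 0x1d9899f4) (nat_lit 0x0) (nat_lit 0x146567b5df74)
  (PL.C (nat_lit 0x1dbbe5eb) (nat_lit 0x8883b41f00f19) (nat_lit 0x0)
  (PL.C (nat_lit 0x1dc175d3) (nat_lit 0x0) (nat_lit 0x19153006e236c)
  (PL.C (nat_lit 0x1ddcf98e) (nat_lit 0x0) (nat_lit 0x2bfad4090d7a6)
  (PL.C (nat_lit 0x1dfd6c7d) (nat_lit 0x8883b41f00f19) (nat_lit 0x0)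
  (PL.C (nat_lit 0x1e13cfa9) (nat_lit 0x518338bcfda68) (nat_lit 0x0)
  (PL.C (nat_lit 0x1e15732a) (nat_lit 0x83d853895510) (nat_lit 0x0) gp5_0_41))))))))))))))))))))

noncomputable def gp5_0_39 : PL :=
  (PL.C (nat_lit 0x1af47911) (nat_lit 0x0) (nat_lit 0x103b62b66de02)
  (PL.C (nat_lit 0x1af6bffb) (nat_lit 0x0) (nat_lit 0x9f2259ae2dac)
  (PL.C (nat_lit 0x1b061e3e) (nat_lit 0x23462f5b5d6f1) (nat_lit 0x0)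
  (PL.C (nat_lit 0x1b46d0cd) (nat_lit 0x0) (nat_lit 0x98544f376c53b)
  (PL.C (nat_lit 0x1b50e89a) (nat_lit 0x0) (nat_lit 0x4d758c7c82dca)
  (PL.C (nat_lit 0x1b70cc25) (nat_lit 0xccfe5ac108ca) (nat_lit 0x0)
  (PL.C (nat_lit 0x1b8d1b16) (nat_lit 0x0) (nat_lit 0x1d93efe3be6c)
  (PL.C (nat_lit 0x1b924e37) (nat_lit 0xbedd2d1a3299f) (nat_lit 0x0)
  (PL.C (nat_lit 0x1bb0fa06) (nat_lit 0x0) (nat_lit 0x2c58adf60925b)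
  (PL.C (nat_lit 0x1bbcbdbf) (nat_lit 0x0) (nat_lit 0x66081b0a0aef7)
  (PL.C (nat_lit 0x1bbed5fa) (nat_lit 0x754c6b537b53) (nat_lit 0x0)
  (PL.C (nat_lit 0x1bcf10d1) (nat_lit 0x0) (nat_lit 0x74192394845b0)
  (PL.C (nat_lit 0x1bdbb5fd) (nat_lit 0x0) (nat_lit 0x19936eeef2a7)
  (PL.C (nat_lit 0x1be3d32d) (nat_lit 0x2f3f2f10de89b) (nat_lit 0x0)
  (PL.C (nat_lit 0x1c0b9f8e) (nat_lit 0x0) (nat_lit 0x213ced6e9926)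
  (PL.C (nat_lit 0x1c104782) (nat_lit 0x0) (nat_lit 0x12ccb64e1f4f2)
  (PL.C (nat_lit 0x1c37d2a6) (nat_lit 0x0) (nat_lit 0x1d2ef14b27b8)
  (PL.C (nat_lit 0x1c43fa45) (nat_lit 0x0) (nat_lit 0x4ca3bbc86e0a3)
  (PL.C (nat_lit 0x1c496d82) (nat_lit 0x0) (nat_lit 0x1baaae7eb3d71)
  (PL.C (nat_lit 0x1c6016e4) (nat_lit 0x0) (nat_lit 0x146567b5df74) gp5_0_40))))))))))))))))))))

noncomputable def gp5_0_38 : PL :=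
  (PL.C (nat_lit 0x1919a0d7) (nat_lit 0x1d7466b2b6c3d) (nat_lit 0x0)
  (PL.C (nat_lit 0x191be656) (nat_lit 0x5b0bd3bc5069) (nat_lit 0x0)
  (PL.C (nat_lit 0x1931acb3) (nat_lit 0x0) (nat_lit 0xa4d6d4a99ad)
  (PL.C (nat_lit 0x1950f131) (nat_lit 0x0) (nat_lit 0xa426200b78d8e)
  (PL.C (nat_lit 0x19653952) (nat_lit 0x5b0bd3bc5069) (nat_lit 0x0)
  (PL.C (nat_lit 0x196aee8d) (nat_lit 0x27c265b3aad24) (nat_lit 0x0)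
  (PL.C (nat_lit 0x196f1ac3) (nat_lit 0x0) (nat_lit 0x20e52afbf5724)
  (PL.C (nat_lit 0x197d8d9a) (nat_lit 0x4113b78e6063) (nat_lit 0x0)
  (PL.C (nat_lit 0x199701a3) (nat_lit 0x0) (nat_lit 0xe20ef4dfb6ed)
  (PL.C (nat_lit 0x19acb4da) (nat_lit 0x53236f237422d) (nat_lit 0x0)
  (PL.C (nat_lit 0x19b852db) (nat_lit 0x0) (nat_lit 0x103b62b66de02)
  (PL.C (nat_lit 0x19c78742) (nat_lit 0x0) (nat_lit 0x1b6fd1885db94)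
  (PL.C (nat_lit 0x19e413ba) (nat_lit 0x0) (nat_lit 0xaf74a2f45cbed)
  (PL.C (nat_lit 0x1a05c94a) (nat_lit 0x24dca659b531) (nat_lit 0x0)
  (PL.C (nat_lit 0x1a0edfe6) (nat_lit 0x0) (nat_lit 0xc0b284342f140)
  (PL.C (nat_lit 0x1a17e362) (nat_lit 0x68ed9ca6429e9) (nat_lit 0x0)
  (PL.C (nat_lit 0x1a4d4289) (nat_lit 0x0) (nat_lit 0x13f2e1a206a31)
  (PL.C (nat_lit 0x1a70680d) (nat_lit 0x0) (nat_lit 0x11681011c5fc54)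
  (PL.C (nat_lit 0x1a950cee) (nat_lit 0x0) (nat_lit 0xc0b284342f140)
  (PL.C (nat_lit 0x1ad9f3d5) (nat_lit 0x0) (nat_lit 0x1dfda98166fc2) gp5_0_39))))))))))))))))))))

noncomputable def gp5_0_37 : PL :=
  (PL.C (nat_lit 0x1759cbf6) (nat_lit 0x0) (nat_lit 0x1d2ef14b27b8)
  (PL.C (nat_lit 0x177999d5) (nat_lit 0x1484f393049b7a) (nat_lit 0x0)
  (PL.C (nat_lit 0x178c685a) (nat_lit 0x0) (nat_lit 0x19613afea151)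
  (PL.C (nat_lit 0x1797667b) (nat_lit 0x1df40556d925) (nat_lit 0x0)
  (PL.C (nat_lit 0x17ba91cf) (nat_lit 0x0) (nat_lit 0x20c6fe94ba27dc)
  (PL.C (nat_lit 0x17ce0856) (nat_lit 0x481bf8bea9629) (nat_lit 0x0)
  (PL.C (nat_lit 0x17ceb102) (nat_lit 0x0) (nat_lit 0x5f60548577f5)
  (PL.C (nat_lit 0x17e7900a) (nat_lit 0x0) (nat_lit 0x10b935919a487)
  (PL.C (nat_lit 0x17f9be85) (nat_lit 0x0) (nat_lit 0x1e7e4eda04483)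
  (PL.C (nat_lit 0x1839d52e) (nat_lit 0x435402ab25b1e) (nat_lit 0x0)
  (PL.C (nat_lit 0x184c66dd) (nat_lit 0x0) (nat_lit 0x16b02495f1549)
  (PL.C (nat_lit 0x188428a1) (nat_lit 0x15588073eb0ea) (nat_lit 0x0)
  (PL.C (nat_lit 0x188c041b) (nat_lit 0x1194fd7d272f0) (nat_lit 0x0)
  (PL.C (nat_lit 0x1890cbf1) (nat_lit 0x0) (nat_lit 0x1a3185f62c06)
  (PL.C (nat_lit 0x18943e6f) (nat_lit 0x27c265b3aad24) (nat_lit 0x0)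
  (PL.C (nat_lit 0x18a9e459) (nat_lit 0x125fa60dbcdc1) (nat_lit 0x0)
  (PL.C (nat_lit 0x18cf3b21) (nat_lit 0x0) (nat_lit 0x49205dd96b6e5)
  (PL.C (nat_lit 0x18d4e7ad) (nat_lit 0x0) (nat_lit 0x2874f52b3362)
  (PL.C (nat_lit 0x18f27d77) (nat_lit 0x5225018d31cc0) (nat_lit 0x0)
  (PL.C (nat_lit 0x190efb76) (nat_lit 0x33638f43d42be) (nat_lit 0x0) gp5_0_38))))))))))))))))))))

noncomputable def gp5_0_36 : PL :=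
  (PL.C (nat_lit 0x15ff41fe) (nat_lit 0x0) (nat_lit 0x297ec32b739c2)
  (PL.C (nat_lit 0x1606a186) (nat_lit 0x0) (nat_lit 0x61c46eb75ca8e)
  (PL.C (nat_lit 0x16101e55) (nat_lit 0x1484f393049b7a) (nat_lit 0x0)
  (PL.C (nat_lit 0x162b756d) (nat_lit 0x4ff2a675e2f28) (nat_lit 0x0)
  (PL.C (nat_lit 0x1640bd43) (nat_lit 0xed9a8100113) (nat_lit 0x0)
  (PL.C (nat_lit 0x16418204) (nat_lit 0x15b014541bfa) (nat_lit 0x0)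
  (PL.C (nat_lit 0x16519701) (nat_lit 0x3e6a4101f1e0) (nat_lit 0x0)
  (PL.C (nat_lit 0x165b1656) (nat_lit 0x13ac761a02bef) (nat_lit 0x0)
  (PL.C (nat_lit 0x165c986c) (nat_lit 0x9810336f86e46) (nat_lit 0x0)
  (PL.C (nat_lit 0x1674e4b2) (nat_lit 0x0) (nat_lit 0x526ff307ca013)
  (PL.C (nat_lit 0x168c5a7a) (nat_lit 0x1569361d27fb1) (nat_lit 0x0)
  (PL.C (nat_lit 0x16aaafe9) (nat_lit 0x0) (nat_lit 0x106c312c8373f9)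
  (PL.C (nat_lit 0x16ba7465) (nat_lit 0x2435e0a57ecde) (nat_lit 0x0)
  (PL.C (nat_lit 0x16c11315) (nat_lit 0x3f2f339540368) (nat_lit 0x0)
  (PL.C (nat_lit 0x16c2ff27) (nat_lit 0x0) (nat_lit 0x9f2259ae2dac)
  (PL.C (nat_lit 0x16caa04b) (nat_lit 0x0) (nat_lit 0x885fa5168ac9)
  (PL.C (nat_lit 0x16f5f553) (nat_lit 0xe143a382f742) (nat_lit 0x0)
  (PL.C (nat_lit 0x172bfc49) (nat_lit 0xd571499aff26) (nat_lit 0x0)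
  (PL.C (nat_lit 0x172df163) (nat_lit 0xcade542eef8d) (nat_lit 0x0)
  (PL.C (nat_lit 0x17464f53) (nat_lit 0xed9a8100113) (nat_lit 0x0) gp5_0_37))))))))))))))))))))

noncomputable def gp5_0_35 : PL :=
  (PL.C (nat_lit 0x14cc9449) (nat_lit 0x0) (nat_lit 0xcc54f5c3f801)
  (PL.C (nat_lit 0x14d2d1fe) (nat_lit 0x0) (nat_lit 0x5f60548577f5)
  (PL.C (nat_lit 0x14dd3e02) (nat_lit 0x0) (nat_lit 0x1c93b140ddb73)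
  (PL.C (nat_lit 0x14e97265) (nat_lit 0x61c680626f723) (nat_lit 0x0)
  (PL.C (nat_lit 0x1504ac6d) (nat_lit 0x22de93c3471e3) (nat_lit 0x0)
  (PL.C (nat_lit 0x1506246b) (nat_lit 0x8b3602a2804ec) (nat_lit 0x0)
  (PL.C (nat_lit 0x15134b59) (nat_lit 0x0) (nat_lit 0x17d30a4e548d8)
  (PL.C (nat_lit 0x15196ec9) (nat_lit 0x1bbd84dfac8df) (nat_lit 0x0)
  (PL.C (nat_lit 0x1532262e) (nat_lit 0x83d853895510) (nat_lit 0x0)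
  (PL.C (nat_lit 0x1533bb51) (nat_lit 0x229b83f817b74c) (nat_lit 0x0)
  (PL.C (nat_lit 0x1545762a) (nat_lit 0x0) (nat_lit 0x10f8636c3dd6c)
  (PL.C (nat_lit 0x156ccf6a) (nat_lit 0x0) (nat_lit 0xaf74a2f45cbed)
  (PL.C (nat_lit 0x157223ff) (nat_lit 0x0) (nat_lit 0x25240958bd90d)
  (PL.C (nat_lit 0x1578630f) (nat_lit 0xa3d7f03eae9f5) (nat_lit 0x0)
  (PL.C (nat_lit 0x158aa246) (nat_lit 0x0) (nat_lit 0xa0ab30b5d570b)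
  (PL.C (nat_lit 0x159ab6ee) (nat_lit 0x0) (nat_lit 0x342a0e6652e05)
  (PL.C (nat_lit 0x15c307ca) (nat_lit 0x0) (nat_lit 0x1a7d854689af)
  (PL.C (nat_lit 0x15ca5322) (nat_lit 0x0) (nat_lit 0x342a0e6652e05)
  (PL.C (nat_lit 0x15d3b5f7) (nat_lit 0x0) (nat_lit 0x98544f376c53b)
  (PL.C (nat_lit 0x15dd43eb) (nat_lit 0x1c38fbdb577fa) (nat_lit 0x0) gp5_0_36))))))))))))))))))))

noncomputable def gp5_0_34 : PL :=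
  (PL.C (nat_lit 0x137eb6b7) (nat_lit 0x0) (nat_lit 0x845e034df1e55)
  (PL.C (nat_lit 0x138f852d) (nat_lit 0x2826ec55ef2f) (nat_lit 0x0)
  (PL.C (nat_lit 0x13912c2f) (nat_lit 0x0) (nat_lit 0x610525fc4b43)
  (PL.C (nat_lit 0x13a78526) (nat_lit 0x0) (nat_lit 0x1d6054d44ff6c)
  (PL.C (nat_lit 0x13b96d92) (nat_lit 0xdaa7381fa19c) (nat_lit 0x0)
  (PL.C (nat_lit 0x1412cec6) (nat_lit 0x46cd179494ae) (nat_lit 0x0)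
  (PL.C (nat_lit 0x1418502e) (nat_lit 0x81d63104a295d) (nat_lit 0x0)
  (PL.C (nat_lit 0x143c524c) (nat_lit 0x0) (nat_lit 0x7348c523ff2e2)
  (PL.C (nat_lit 0x143d54f3) (nat_lit 0x5806ddfda0224) (nat_lit 0x0)
  (PL.C (nat_lit 0x1447c3e3) (nat_lit 0x2b9bda4ee821) (nat_lit 0x0)
  (PL.C (nat_lit 0x144fed6a) (nat_lit 0x6570eab4a402a) (nat_lit 0x0)
  (PL.C (nat_lit 0x145c7b9b) (nat_lit 0x1b71990bd7d37) (nat_lit 0x0)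
  (PL.C (nat_lit 0x1465b636) (nat_lit 0xdaa7381fa19c) (nat_lit 0x0)
  (PL.C (nat_lit 0x1466ac65) (nat_lit 0x0) (nat_lit 0x131be2375e701)
  (PL.C (nat_lit 0x1482fd11) (nat_lit 0x24e25b12971a6) (nat_lit 0x0)
  (PL.C (nat_lit 0x148cad3a) (nat_lit 0x0) (nat_lit 0x3e5e6063d28d)
  (PL.C (nat_lit 0x1494d581) (nat_lit 0x0) (nat_lit 0x3967cfb9ac6a1)
  (PL.C (nat_lit 0x149f227f) (nat_lit 0x3e1dc92651292) (nat_lit 0x0)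
  (PL.C (nat_lit 0x14bcb975) (nat_lit 0x0) (nat_lit 0x106c312c8373f9)
  (PL.C (nat_lit 0x14bfa26b) (nat_lit 0x0) (nat_lit 0x107c89cc0344b) gp5_0_35))))))))))))))))))))

noncomputable def gp5_0_33 : PL :=
  (PL.C (nat_lit 0x12c8ef8f) (nat_lit 0xbedd2d1a3299f) (nat_lit 0x0)
  (PL.C (nat_lit 0x12cfe1c4) (nat_lit 0x0) (nat_lit 0x3648cd8ac26a)
  (PL.C (nat_lit 0x12d7fc2e) (nat_lit 0x0) (nat_lit 0x1d6054d44ff6c)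
  (PL.C (nat_lit 0x12e164a7) (nat_lit 0x15588073eb0ea) (nat_lit 0x0)
  (PL.C (nat_lit 0x12f49829) (nat_lit 0x264b7263a590) (nat_lit 0x0)
  (PL.C (nat_lit 0x12f7666d) (nat_lit 0x49c49183513ff) (nat_lit 0x0)
  (PL.C (nat_lit 0x12fcec9d) (nat_lit 0x0) (nat_lit 0x20c6fe94ba27dc)
  (PL.C (nat_lit 0x13051935) (nat_lit 0x0) (nat_lit 0x31585d762b42)
  (PL.C (nat_lit 0x130d06a6) (nat_lit 0x24dca659b531) (nat_lit 0x0)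
  (PL.C (nat_lit 0x1315a565) (nat_lit 0x1bbd84dfac8df) (nat_lit 0x0)
  (PL.C (nat_lit 0x131f329b) (nat_lit 0x4d23dfe939874) (nat_lit 0x0)
  (PL.C (nat_lit 0x1321326b) (nat_lit 0x7e05b5d28652) (nat_lit 0x0)
  (PL.C (nat_lit 0x13225f4d) (nat_lit 0x0) (nat_lit 0x1a3185f62c06)
  (PL.C (nat_lit 0x13290e0b) (nat_lit 0x0) (nat_lit 0x3613ed83f09e9)
  (PL.C (nat_lit 0x132faeb9) (nat_lit 0x0) (nat_lit 0x1215985b427f1e)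
  (PL.C (nat_lit 0x133aa2a9) (nat_lit 0x2814927aa3b0a) (nat_lit 0x0)
  (PL.C (nat_lit 0x133d71c6) (nat_lit 0x0) (nat_lit 0x62053a85132ab)
  (PL.C (nat_lit 0x1349564d) (nat_lit 0x9d57ddbba94c) (nat_lit 0x0)
  (PL.C (nat_lit 0x1358c9ca) (nat_lit 0x0) (nat_lit 0x10b935919a487)
  (PL.C (nat_lit 0x1362c2ea) (nat_lit 0x435402ab25b1e) (nat_lit 0x0) gp5_0_34))))))))))))))))))))

noncomputable def gp5_0_32 : PL :=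
  (PL.C (nat_lit 0x11816409) (nat_lit 0x0) (nat_lit 0x1dfda98166fc2)
  (PL.C (nat_lit 0x1188d706) (nat_lit 0x0) (nat_lit 0x1d45e45d41af4)
  (PL.C (nat_lit 0x1193adad) (nat_lit 0x5225018d31cc0) (nat_lit 0x0)
  (PL.C (nat_lit 0x11a0455e) (nat_lit 0x81d63104a295d) (nat_lit 0x0)
  (PL.C (nat_lit 0x11a724b9) (nat_lit 0x0) (nat_lit 0x6559e55fdc2f)
  (PL.C (nat_lit 0x11b15939) (nat_lit 0x0) (nat_lit 0x5abbcb0f2f44a)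
  (PL.C (nat_lit 0x11c452d7) (nat_lit 0xa3d7f03eae9f5) (nat_lit 0x0)
  (PL.C (nat_lit 0x11e6a28e) (nat_lit 0x2effc3a02d4) (nat_lit 0x0)
  (PL.C (nat_lit 0x11f850b6) (nat_lit 0x1598616ee3df0) (nat_lit 0x0)
  (PL.C (nat_lit 0x11f9d552) (nat_lit 0x2a28e5a7660c2) (nat_lit 0x0)
  (PL.C (nat_lit 0x12235641) (nat_lit 0x6895fee50f1bf) (nat_lit 0x0)
  (PL.C (nat_lit 0x122f35de) (nat_lit 0x0) (nat_lit 0x5497f09250d82)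
  (PL.C (nat_lit 0x1261897a) (nat_lit 0x0) (nat_lit 0xbba019088e7ad)
  (PL.C (nat_lit 0x126ce613) (nat_lit 0xb5a3f2baa7f3) (nat_lit 0x0)
  (PL.C (nat_lit 0x1274f6d7) (nat_lit 0xbf2f35da622b7) (nat_lit 0x0)
  (PL.C (nat_lit 0x1275fc04) (nat_lit 0x0) (nat_lit 0x7348c523ff2e2)
  (PL.C (nat_lit 0x128a0b36) (nat_lit 0x49e42a801c761) (nat_lit 0x0)
  (PL.C (nat_lit 0x1297e21e) (nat_lit 0x0) (nat_lit 0x61c46eb75ca8e)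
  (PL.C (nat_lit 0x129fe469) (nat_lit 0x0) (nat_lit 0x74192394845b0)
  (PL.C (nat_lit 0x12c3787f) (nat_lit 0x0) (nat_lit 0x2ba91ae8b39a7) gp5_0_33))))))))))))))))))))

noncomputable def gp5_0_31 : PL :=
  (PL.C (nat_lit 0x106087f6) (nat_lit 0x0) (nat_lit 0x92d326390d44)
  (PL.C (nat_lit 0x1062d44a) (nat_lit 0x3ff5b59b59b01) (nat_lit 0x0)
  (PL.C (nat_lit 0x1067f0fd) (nat_lit 0x612b390f4c314) (nat_lit 0x0)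
  (PL.C (nat_lit 0x107142e6) (nat_lit 0x0) (nat_lit 0x3a95387ffe891)
  (PL.C (nat_lit 0x10798953) (nat_lit 0x7d5401422b27) (nat_lit 0x0)
  (PL.C (nat_lit 0x108320a1) (nat_lit 0x0) (nat_lit 0x5abbcb0f2f44a)
  (PL.C (nat_lit 0x10a1a8fa) (nat_lit 0xa16e3ec5aded) (nat_lit 0x0)
  (PL.C (nat_lit 0x10b4a7a4) (nat_lit 0x142528e9971e03) (nat_lit 0x0)
  (PL.C (nat_lit 0x10f1f45e) (nat_lit 0x3ff5b59b59b01) (nat_lit 0x0)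
  (PL.C (nat_lit 0x10f4bc82) (nat_lit 0x0) (nat_lit 0xcd99be281bf6)
  (PL.C (nat_lit 0x1115d9ff) (nat_lit 0x5806ddfda0224) (nat_lit 0x0)
  (PL.C (nat_lit 0x111ea8af) (nat_lit 0x24e25b12971a6) (nat_lit 0x0)
  (PL.C (nat_lit 0x11258c92) (nat_lit 0x1598616ee3df0) (nat_lit 0x0)
  (PL.C (nat_lit 0x114522ed) (nat_lit 0x492b4a1765fc9) (nat_lit 0x0)
  (PL.C (nat_lit 0x114e09fd) (nat_lit 0x0) (nat_lit 0x6559e55fdc2f)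
  (PL.C (nat_lit 0x1150a715) (nat_lit 0x2b9bda4ee821) (nat_lit 0x0)
  (PL.C (nat_lit 0x115930dc) (nat_lit 0x154c681a9d7c) (nat_lit 0x0)
  (PL.C (nat_lit 0x1166209b) (nat_lit 0x1c938e712b01c) (nat_lit 0x0)
  (PL.C (nat_lit 0x116b31eb) (nat_lit 0x492b4a1765fc9) (nat_lit 0x0)
  (PL.C (nat_lit 0x1180e803) (nat_lit 0x0) (nat_lit 0x1215985b427f1e) gp5_0_32))))))))))))))))))))

noncomputable def gp5_0_30 : PL :=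
  (PL.C (nat_lit 0xfb2f03c) (nat_lit 0x0) (nat_lit 0xa62cccc00fc)
  (PL.C (nat_lit 0xfba4452) (nat_lit 0x0) (nat_lit 0x19613afea151)
  (PL.C (nat_lit 0xfd1b68a) (nat_lit 0xd5197e7f369a7) (nat_lit 0x0)
  (PL.C (nat_lit 0xfd6e0bb) (nat_lit 0x41757e28998587) (nat_lit 0x0)
  (PL.C (nat_lit 0xfdf20ac) (nat_lit 0xf67f12ec5b1c) (nat_lit 0x0)
  (PL.C (nat_lit 0xfdfeb8b) (nat_lit 0x0) (nat_lit 0x472230240f05e)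
  (PL.C (nat_lit 0xfebc53f) (nat_lit 0x0) (nat_lit 0x885fa5168ac9)
  (PL.C (nat_lit 0xfefb55c) (nat_lit 0x4177fd274293) (nat_lit 0x0)
  (PL.C (nat_lit 0x1000588d) (nat_lit 0x101ad0d0490ef) (nat_lit 0x0)
  (PL.C (nat_lit 0x1002b6e1) (nat_lit 0x0) (nat_lit 0x327c79eba71366)
  (PL.C (nat_lit 0x1005b599) (nat_lit 0x0) (nat_lit 0x19936eeef2a7)
  (PL.C (nat_lit 0x1025ff57) (nat_lit 0x0) (nat_lit 0x2e183cd9d6c1e)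
  (PL.C (nat_lit 0x102ca177) (nat_lit 0x0) (nat_lit 0x2d73596a4123f)
  (PL.C (nat_lit 0x10320d5b) (nat_lit 0x0) (nat_lit 0x1e7e4eda04483)
  (PL.C (nat_lit 0x1032ef3e) (nat_lit 0x75eee1d1b1d7a) (nat_lit 0x0)
  (PL.C (nat_lit 0x103b05af) (nat_lit 0x0) (nat_lit 0x556db13b9eeca)
  (PL.C (nat_lit 0x1052b075) (nat_lit 0x0) (nat_lit 0xe8704243bfa3b)
  (PL.C (nat_lit 0x10581b16) (nat_lit 0x8ff6b6da926f7) (nat_lit 0x0)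
  (PL.C (nat_lit 0x105d5812) (nat_lit 0x1f665f8e2da2b) (nat_lit 0x0)
  (PL.C (nat_lit 0x105e7a7d) (nat_lit 0x0) (nat_lit 0x73dc398f3353) gp5_0_31))))))))))))))))))))

noncomputable def gp5_0_29 : PL :=
  (PL.C (nat_lit 0xeb5698e) (nat_lit 0x67d2c531459a) (nat_lit 0x0)
  (PL.C (nat_lit 0xec6954f) (nat_lit 0x2435e0a57ecde) (nat_lit 0x0)
  (PL.C (nat_lit 0xec7a39e) (nat_lit 0x2bab060aaba2c) (nat_lit 0x0)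
  (PL.C (nat_lit 0xed5d382) (nat_lit 0x0) (nat_lit 0x1b12a1b2784a)
  (PL.C (nat_lit 0xed8a045) (nat_lit 0x0) (nat_lit 0x27603e3e84e6b)
  (PL.C (nat_lit 0xee10f56) (nat_lit 0x481bf8bea9629) (nat_lit 0x0)
  (PL.C (nat_lit 0xeef79dd) (nat_lit 0x2826ec55ef2f) (nat_lit 0x0)
  (PL.C (nat_lit 0xef957d3) (nat_lit 0x14b0c41673723) (nat_lit 0x0)
  (PL.C (nat_lit 0xeff7e73) (nat_lit 0x0) (nat_lit 0x20e52afbf5724)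
  (PL.C (nat_lit 0xf048567) (nat_lit 0x7f5cfc6636e8a) (nat_lit 0x0)
  (PL.C (nat_lit 0xf1c7546) (nat_lit 0x0) (nat_lit 0x7b415aee9e132)
  (PL.C (nat_lit 0xf2b620e) (nat_lit 0x6570eab4a402a) (nat_lit 0x0)
  (PL.C (nat_lit 0xf2caa1a) (nat_lit 0x2a28e5a7660c2) (nat_lit 0x0)
  (PL.C (nat_lit 0xf31c032) (nat_lit 0x349ee6930f98c) (nat_lit 0x0)
  (PL.C (nat_lit 0xf384baf) (nat_lit 0x0) (nat_lit 0x4044d1bb0d728)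
  (PL.C (nat_lit 0xf73f642) (nat_lit 0x21caff6093b7) (nat_lit 0x0)
  (PL.C (nat_lit 0xf8434e2) (nat_lit 0x0) (nat_lit 0x1b12a1b2784a)
  (PL.C (nat_lit 0xf8a3e5b) (nat_lit 0x4eaafa6a0602c) (nat_lit 0x0)
  (PL.C (nat_lit 0xf9132a4) (nat_lit 0x0) (nat_lit 0x3648cd8ac26a)
  (PL.C (nat_lit 0xfa6668e) (nat_lit 0x67d2c531459a) (nat_lit 0x0) gp5_0_30))))))))))))))))))))

noncomputable def gp5_0_28 : PL :=
  (PL.C (nat_lit 0xdafbb87) (nat_lit 0x0) (nat_lit 0x37815ac2070d)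
  (PL.C (nat_lit 0xdb88e56) (nat_lit 0x0) (nat_lit 0x526ff307ca013)
  (PL.C (nat_lit 0xdc77709) (nat_lit 0x91a5350eacd2b2) (nat_lit 0x0)
  (PL.C (nat_lit 0xdd3264e) (nat_lit 0x0) (nat_lit 0x7b415aee9e132)
  (PL.C (nat_lit 0xdd516f2) (nat_lit 0x46cd179494ae) (nat_lit 0x0)
  (PL.C (nat_lit 0xdd967b1) (nat_lit 0x0) (nat_lit 0xaa4c2dbe1b202)
  (PL.C (nat_lit 0xde1e154) (nat_lit 0xf67f12ec5b1c) (nat_lit 0x0)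
  (PL.C (nat_lit 0xdf0f6ee) (nat_lit 0x0) (nat_lit 0x8fa1b1365335c)
  (PL.C (nat_lit 0xe031d9e) (nat_lit 0x0) (nat_lit 0x34aa515c0088b)
  (PL.C (nat_lit 0xe0cdce6) (nat_lit 0x0) (nat_lit 0x20285e302c92f)
  (PL.C (nat_lit 0xe10f486) (nat_lit 0x0) (nat_lit 0xb8590d0c802cc)
  (PL.C (nat_lit 0xe2999fb) (nat_lit 0x0) (nat_lit 0x1ae2864349958)
  (PL.C (nat_lit 0xe32a673) (nat_lit 0x2814927aa3b0a) (nat_lit 0x0)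
  (PL.C (nat_lit 0xe39c18d) (nat_lit 0x0) (nat_lit 0xb53c17bd5660)
  (PL.C (nat_lit 0xe50420a) (nat_lit 0x1459c564ae116) (nat_lit 0x0)
  (PL.C (nat_lit 0xe73a5ab) (nat_lit 0x0) (nat_lit 0x16b02495f1549)
  (PL.C (nat_lit 0xe80d091) (nat_lit 0x0) (nat_lit 0x13f2e1a206a31)
  (PL.C (nat_lit 0xe8d23fa) (nat_lit 0x0) (nat_lit 0x5497f09250d82)
  (PL.C (nat_lit 0xe9ba4b1) (nat_lit 0x61c680626f723) (nat_lit 0x0)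
  (PL.C (nat_lit 0xeaffa47) (nat_lit 0x5804bf8f5010a) (nat_lit 0x0) gp5_0_29))))))))))))))))))))

noncomputable def gp5_0_27 : PL :=
  (PL.C (nat_lit 0xd0b72ca) (nat_lit 0x1150d7fe1d3c2) (nat_lit 0x0)
  (PL.C (nat_lit 0xd157277) (nat_lit 0x0) (nat_lit 0xf8393d66b603)
  (PL.C (nat_lit 0xd194207) (nat_lit 0x40bb5754e755) (nat_lit 0x0)
  (PL.C (nat_lit 0xd1a58c4) (nat_lit 0x0) (nat_lit 0xa5305067c7268)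
  (PL.C (nat_lit 0xd26490c) (nat_lit 0x0) (nat_lit 0x7b8e50c73896)
  (PL.C (nat_lit 0xd2a4fdf) (nat_lit 0x0) (nat_lit 0x1816dfd652561)
  (PL.C (nat_lit 0xd37b371) (nat_lit 0x0) (nat_lit 0x610525fc4b43)
  (PL.C (nat_lit 0xd5be4c3) (nat_lit 0x1d14a8ee08ccf) (nat_lit 0x0)
  (PL.C (nat_lit 0xd5ef2e7) (nat_lit 0x0) (nat_lit 0x2ba91ae8b39a7)
  (PL.C (nat_lit 0xd6694f7) (nat_lit 0x0) (nat_lit 0x4044d1bb0d728)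
  (PL.C (nat_lit 0xd72cab5) (nat_lit 0x7d5401422b27) (nat_lit 0x0)
  (PL.C (nat_lit 0xd7e38a2) (nat_lit 0x0) (nat_lit 0xe3f0efca672df)
  (PL.C (nat_lit 0xd83f425) (nat_lit 0x0) (nat_lit 0x2e183cd9d6c1e)
  (PL.C (nat_lit 0xd852d42) (nat_lit 0x6126044ddeb) (nat_lit 0x0)
  (PL.C (nat_lit 0xd8bab55) (nat_lit 0x40bb5754e755) (nat_lit 0x0)
  (PL.C (nat_lit 0xd92fd12) (nat_lit 0x68ed9ca6429e9) (nat_lit 0x0)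
  (PL.C (nat_lit 0xd992424) (nat_lit 0x0) (nat_lit 0x7b8e50c73896)
  (PL.C (nat_lit 0xda1bcf3) (nat_lit 0x0) (nat_lit 0x327c79eba71366)
  (PL.C (nat_lit 0xdabea07) (nat_lit 0x0) (nat_lit 0x247903c00142b)
  (PL.C (nat_lit 0xdaca8b6) (nat_lit 0xcd93d2ab2be87) (nat_lit 0x0) gp5_0_28))))))))))))))))))))

noncomputable def gp5_0_26 : PL :=
  (PL.C (nat_lit 0xc85f50a) (nat_lit 0x0) (nat_lit 0xbba019088e7ad)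
  (PL.C (nat_lit 0xc885219) (nat_lit 0x2013c91a7bb4) (nat_lit 0x0)
  (PL.C (nat_lit 0xc8ffd74) (nat_lit 0x0) (nat_lit 0xa5305067c7268)
  (PL.C (nat_lit 0xc96431a) (nat_lit 0x8ff6b6da926f7) (nat_lit 0x0)
  (PL.C (nat_lit 0xc9b9c11) (nat_lit 0xd571499aff26) (nat_lit 0x0)
  (PL.C (nat_lit 0xca3f05f) (nat_lit 0x0) (nat_lit 0x5ae0bbc61fcd9)
  (PL.C (nat_lit 0xca89dbe) (nat_lit 0xd5197e7f369a7) (nat_lit 0x0)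
  (PL.C (nat_lit 0xcae10ce) (nat_lit 0x9970c9375e1) (nat_lit 0x0)
  (PL.C (nat_lit 0xcb359c4) (nat_lit 0x154c681a9d7c) (nat_lit 0x0)
  (PL.C (nat_lit 0xcb918ee) (nat_lit 0x0) (nat_lit 0xb8590d0c802cc)
  (PL.C (nat_lit 0xcbf7712) (nat_lit 0x1569361d27fb1) (nat_lit 0x0)
  (PL.C (nat_lit 0xcc194de) (nat_lit 0x0) (nat_lit 0x92d326390d44)
  (PL.C (nat_lit 0xcc6ec0d) (nat_lit 0x87ed2462c8fe6) (nat_lit 0x0)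
  (PL.C (nat_lit 0xcd1c1c6) (nat_lit 0x3f4e286ff2356) (nat_lit 0x0)
  (PL.C (nat_lit 0xcd914ab) (nat_lit 0x0) (nat_lit 0x472230240f05e)
  (PL.C (nat_lit 0xcdb8ede) (nat_lit 0x13ac761a02bef) (nat_lit 0x0)
  (PL.C (nat_lit 0xce5dbdc) (nat_lit 0x4177fd274293) (nat_lit 0x0)
  (PL.C (nat_lit 0xce8f06f) (nat_lit 0x1783b25ea4bd8) (nat_lit 0x0)
  (PL.C (nat_lit 0xcfd3eb7) (nat_lit 0x22de93c3471e3) (nat_lit 0x0)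
  (PL.C (nat_lit 0xcff247a) (nat_lit 0x0) (nat_lit 0x62053a85132ab) gp5_0_27))))))))))))))))))))

noncomputable def gp5_0_25 : PL :=
  (PL.C (nat_lit 0xb8b1a0e) (nat_lit 0x6126044ddeb) (nat_lit 0x0)
  (PL.C (nat_lit 0xb8f97cd) (nat_lit 0x799734bfa7924) (nat_lit 0x0)
  (PL.C (nat_lit 0xb996b12) (nat_lit 0x440c9e00ac439) (nat_lit 0x0)
  (PL.C (nat_lit 0xb9ccbf2) (nat_lit 0xa8a0e2e526f19) (nat_lit 0x0)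
  (PL.C (nat_lit 0xba1baed) (nat_lit 0x0) (nat_lit 0xe8704243bfa3b)
  (PL.C (nat_lit 0xbab9806) (nat_lit 0x2effc3a02d4) (nat_lit 0x0)
  (PL.C (nat_lit 0xbb7c91e) (nat_lit 0xa16e3ec5aded) (nat_lit 0x0)
  (PL.C (nat_lit 0xbc4c326) (nat_lit 0x0) (nat_lit 0x11b474e9e96f73)
  (PL.C (nat_lit 0xbd8373a) (nat_lit 0x1459c564ae116) (nat_lit 0x0)
  (PL.C (nat_lit 0xbe9dff7) (nat_lit 0x8bc2330a9ed2) (nat_lit 0x0)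
  (PL.C (nat_lit 0xbf00427) (nat_lit 0x671933cf7c19f) (nat_lit 0x0)
  (PL.C (nat_lit 0xbfbe38c) (nat_lit 0x0) (nat_lit 0x3d79196d69a2)
  (PL.C (nat_lit 0xc048c63) (nat_lit 0x0) (nat_lit 0x556db13b9eeca)
  (PL.C (nat_lit 0xc0b68b3) (nat_lit 0x0) (nat_lit 0x1816dfd652561)
  (PL.C (nat_lit 0xc178ed6) (nat_lit 0x7f6c01657b017) (nat_lit 0x0)
  (PL.C (nat_lit 0xc34861b) (nat_lit 0x0) (nat_lit 0x88107bd98399c)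
  (PL.C (nat_lit 0xc40941f) (nat_lit 0x0) (nat_lit 0xaa4c2dbe1b202)
  (PL.C (nat_lit 0xc419d15) (nat_lit 0x0) (nat_lit 0x18a26f9c3cac)
  (PL.C (nat_lit 0xc489962) (nat_lit 0x0) (nat_lit 0xa0ab30b5d570b)
  (PL.C (nat_lit 0xc6a9846) (nat_lit 0x49e42a801c761) (nat_lit 0x0) gp5_0_26))))))))))))))))))))

noncomputable def gp5_0_24 : PL :=
  (PL.C (nat_lit 0xac92b01) (nat_lit 0x2471c441328d4) (nat_lit 0x0)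
  (PL.C (nat_lit 0xad203ca) (nat_lit 0x0) (nat_lit 0x243994fb81021)
  (PL.C (nat_lit 0xad6dc0f) (nat_lit 0x0) (nat_lit 0x73dc398f3353)
  (PL.C (nat_lit 0xae56764) (nat_lit 0x948e42e08c7f) (nat_lit 0x0)
  (PL.C (nat_lit 0xae9a6fe) (nat_lit 0x360a5c3b7a8da) (nat_lit 0x0)
  (PL.C (nat_lit 0xaeff5fe) (nat_lit 0x637971e2ec406) (nat_lit 0x0)
  (PL.C (nat_lit 0xafbb0e2) (nat_lit 0x720b159daae5) (nat_lit 0x0)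
  (PL.C (nat_lit 0xb0b7493) (nat_lit 0x21e5f452b7d6f) (nat_lit 0x0)
  (PL.C (nat_lit 0xb285ef5) (nat_lit 0xcade542eef8d) (nat_lit 0x0)
  (PL.C (nat_lit 0xb2a8b3f) (nat_lit 0x0) (nat_lit 0x3e3f02e866140)
  (PL.C (nat_lit 0xb2c1c61) (nat_lit 0x0) (nat_lit 0x37815ac2070d)
  (PL.C (nat_lit 0xb42a00f) (nat_lit 0x0) (nat_lit 0x96c815b680f0)
  (PL.C (nat_lit 0xb514927) (nat_lit 0x0) (nat_lit 0xe2630e1a1d7a)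
  (PL.C (nat_lit 0xb5c76bb) (nat_lit 0x166ced532a571) (nat_lit 0x0)
  (PL.C (nat_lit 0xb63e6aa) (nat_lit 0x0) (nat_lit 0xe3f0efca672df)
  (PL.C (nat_lit 0xb68bd79) (nat_lit 0x7e05b5d28652) (nat_lit 0x0)
  (PL.C (nat_lit 0xb69c5ca) (nat_lit 0xcd93d2ab2be87) (nat_lit 0x0)
  (PL.C (nat_lit 0xb81e1ff) (nat_lit 0x49c49183513ff) (nat_lit 0x0)
  (PL.C (nat_lit 0xb836c9e) (nat_lit 0xa8a0e2e526f19) (nat_lit 0x0)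
  (PL.C (nat_lit 0xb895bfe) (nat_lit 0x0) (nat_lit 0x11b474e9e96f73) gp5_0_25))))))))))))))))))))

noncomputable def gp5_0_23 : PL :=
  (PL.C (nat_lit 0xa03039a) (nat_lit 0xa561cc0d084b4) (nat_lit 0x0)
  (PL.C (nat_lit 0xa07539b) (nat_lit 0x0) (nat_lit 0x5ae0bbc61fcd9)
  (PL.C (nat_lit 0xa13c103) (nat_lit 0x671933cf7c19f) (nat_lit 0x0)
  (PL.C (nat_lit 0xa1d6d4d) (nat_lit 0x2013c91a7bb4) (nat_lit 0x0)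
  (PL.C (nat_lit 0xa1dc6bc) (nat_lit 0x0) (nat_lit 0x3d79196d69a2)
  (PL.C (nat_lit 0xa212acc) (nat_lit 0x0) (nat_lit 0x2a9a3d7a46df)
  (PL.C (nat_lit 0xa2587ca) (nat_lit 0x2922c483e8e6) (nat_lit 0x0)
  (PL.C (nat_lit 0xa396bb7) (nat_lit 0x2471c441328d4) (nat_lit 0x0)
  (PL.C (nat_lit 0xa3dd27f) (nat_lit 0x0) (nat_lit 0x6b48e0cc639f)
  (PL.C (nat_lit 0xa4d95c7) (nat_lit 0x0) (nat_lit 0x3e3f02e866140)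
  (PL.C (nat_lit 0xa54c08b) (nat_lit 0x8f5ea8e4168c) (nat_lit 0x0)
  (PL.C (nat_lit 0xa57c2db) (nat_lit 0x612b390f4c314) (nat_lit 0x0)
  (PL.C (nat_lit 0xa5aa65b) (nat_lit 0x0) (nat_lit 0xc2e2f8e54cbc)
  (PL.C (nat_lit 0xa5c2992) (nat_lit 0x2f70f025d5552) (nat_lit 0x0)
  (PL.C (nat_lit 0xa7c2d8c) (nat_lit 0x0) (nat_lit 0xa62cccc00fc)
  (PL.C (nat_lit 0xa885b67) (nat_lit 0x26e114228add8) (nat_lit 0x0)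
  (PL.C (nat_lit 0xa893f2d) (nat_lit 0x1873a7a49ae7c) (nat_lit 0x0)
  (PL.C (nat_lit 0xa9547b2) (nat_lit 0x0) (nat_lit 0x12bfab5bac155)
  (PL.C (nat_lit 0xa9d2e2a) (nat_lit 0x349ee6930f98c) (nat_lit 0x0)
  (PL.C (nat_lit 0xab92e95) (nat_lit 0x0) (nat_lit 0x31585d762b42) gp5_0_24))))))))))))))))))))

noncomputable def gp5_0_22 : PL :=
  (PL.C (nat_lit 0x9611ae1) (nat_lit 0x0) (nat_lit 0x3a87e2851b26b)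
  (PL.C (nat_lit 0x96d0e7b) (nat_lit 0x0) (nat_lit 0x88107bd98399c)
  (PL.C (nat_lit 0x9711152) (nat_lit 0x0) (nat_lit 0x10bcc273452d3)
  (PL.C (nat_lit 0x9744367) (nat_lit 0x0) (nat_lit 0x2a267296e60b)
  (PL.C (nat_lit 0x97719a2) (nat_lit 0x3f4e286ff2356) (nat_lit 0x0)
  (PL.C (nat_lit 0x97bd65e) (nat_lit 0x0) (nat_lit 0x3e5e6063d28d)
  (PL.C (nat_lit 0x981628b) (nat_lit 0x0) (nat_lit 0x3333c0948052e)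
  (PL.C (nat_lit 0x98e6da5) (nat_lit 0x0) (nat_lit 0x49205dd96b6e5)
  (PL.C (nat_lit 0x9a26e72) (nat_lit 0x75eee1d1b1d7a) (nat_lit 0x0)
  (PL.C (nat_lit 0x9ab35b6) (nat_lit 0x0) (nat_lit 0x1d45e45d41af4)
  (PL.C (nat_lit 0x9bd1876) (nat_lit 0x0) (nat_lit 0x8fa1b1365335c)
  (PL.C (nat_lit 0x9c44223) (nat_lit 0x0) (nat_lit 0x1d7e5cc580511)
  (PL.C (nat_lit 0x9caa6da) (nat_lit 0x0) (nat_lit 0x16f2bf699f98a)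
  (PL.C (nat_lit 0x9da6d14) (nat_lit 0xc5aedbe263c35) (nat_lit 0x0)
  (PL.C (nat_lit 0x9e5c02e) (nat_lit 0x0) (nat_lit 0x912fede15f755)
  (PL.C (nat_lit 0x9ebde59) (nat_lit 0x5804bf8f5010a) (nat_lit 0x0)
  (PL.C (nat_lit 0x9f03625) (nat_lit 0x0) (nat_lit 0x446769dc26c03)
  (PL.C (nat_lit 0x9f18849) (nat_lit 0x8bc2330a9ed2) (nat_lit 0x0)
  (PL.C (nat_lit 0x9fb8fe2) (nat_lit 0x0) (nat_lit 0x10a5f69544f0f1)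
  (PL.C (nat_lit 0x9ffa9a2) (nat_lit 0x0) (nat_lit 0xcd99be281bf6) gp5_0_23))))))))))))))))))))

noncomputable def gp5_0_21 : PL :=
  (PL.C (nat_lit 0x8d06957) (nat_lit 0x17a7b6c319a9f) (nat_lit 0x0)
  (PL.C (nat_lit 0x8dc8199) (nat_lit 0x4eaafa6a0602c) (nat_lit 0x0)
  (PL.C (nat_lit 0x8e42543) (nat_lit 0x453e855edaf6a) (nat_lit 0x0)
  (PL.C (nat_lit 0x8ef0dfa) (nat_lit 0x2922c483e8e6) (nat_lit 0x0)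
  (PL.C (nat_lit 0x8f731ce) (nat_lit 0x720b159daae5) (nat_lit 0x0)
  (PL.C (nat_lit 0x8fed06c) (nat_lit 0x0) (nat_lit 0x30bdd4a7f75d1)
  (PL.C (nat_lit 0x907c78e) (nat_lit 0x1f4d99953adec) (nat_lit 0x0)
  (PL.C (nat_lit 0x91fd25a) (nat_lit 0x0) (nat_lit 0x15e53b1c00065)
  (PL.C (nat_lit 0x933269d) (nat_lit 0x2af5751ec09166) (nat_lit 0x0)
  (PL.C (nat_lit 0x937e4ad) (nat_lit 0x0) (nat_lit 0x1cb53dbdc0981)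
  (PL.C (nat_lit 0x93b9a76) (nat_lit 0x0) (nat_lit 0x6fe2722287823)
  (PL.C (nat_lit 0x9414f75) (nat_lit 0x0) (nat_lit 0x17d30a4e548d8)
  (PL.C (nat_lit 0x94c9ca7) (nat_lit 0x0) (nat_lit 0x1857bb99cf1c4d)
  (PL.C (nat_lit 0x95167d7) (nat_lit 0x451ade5bd45d0) (nat_lit 0x0)
  (PL.C (nat_lit 0x952d01f) (nat_lit 0x0) (nat_lit 0x1cb53dbdc0981)
  (PL.C (nat_lit 0x9576914) (nat_lit 0x4815fd363ec8) (nat_lit 0x0)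
  (PL.C (nat_lit 0x95822af) (nat_lit 0x0) (nat_lit 0x448fc8b041d5)
  (PL.C (nat_lit 0x95aecaf) (nat_lit 0x6895fee50f1bf) (nat_lit 0x0)
  (PL.C (nat_lit 0x95f9b51) (nat_lit 0x0) (nat_lit 0x20eb0fbef96f0)
  (PL.C (nat_lit 0x960a304) (nat_lit 0x120e61c68fe0c) (nat_lit 0x0) gp5_0_22))))))))))))))))))))

noncomputable def gp5_0_20 : PL :=
  (PL.C (nat_lit 0x8773947) (nat_lit 0x14b0c41673723) (nat_lit 0x0)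
  (PL.C (nat_lit 0x87b65f4) (nat_lit 0x120e61c68fe0c) (nat_lit 0x0)
  (PL.C (nat_lit 0x8849d5e) (nat_lit 0x0) (nat_lit 0x8f1d7975a510d)
  (PL.C (nat_lit 0x8876551) (nat_lit 0x0) (nat_lit 0x1dde8295e2a15)
  (PL.C (nat_lit 0x889e141) (nat_lit 0x0) (nat_lit 0x27603e3e84e6b)
  (PL.C (nat_lit 0x88bd684) (nat_lit 0x0) (nat_lit 0x2433b626adf36)
  (PL.C (nat_lit 0x88c43c1) (nat_lit 0x1441c45a504a7) (nat_lit 0x0)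
  (PL.C (nat_lit 0x890b872) (nat_lit 0x0) (nat_lit 0x12bfab5bac155)
  (PL.C (nat_lit 0x89db987) (nat_lit 0x0) (nat_lit 0x25240958bd90d)
  (PL.C (nat_lit 0x89f0003) (nat_lit 0x0) (nat_lit 0x8b398b2a70aaf)
  (PL.C (nat_lit 0x8a182d3) (nat_lit 0x87ed2462c8fe6) (nat_lit 0x0)
  (PL.C (nat_lit 0x8a8d47a) (nat_lit 0x0) (nat_lit 0x34aa515c0088b)
  (PL.C (nat_lit 0x8acbf8b) (nat_lit 0x166ced532a571) (nat_lit 0x0)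
  (PL.C (nat_lit 0x8b1ffa5) (nat_lit 0x0) (nat_lit 0x18576b32d17bc)
  (PL.C (nat_lit 0x8b59205) (nat_lit 0xbf2f35da622b7) (nat_lit 0x0)
  (PL.C (nat_lit 0x8b8f6fa) (nat_lit 0x0) (nat_lit 0x30af300ce5024)
  (PL.C (nat_lit 0x8bb815a) (nat_lit 0x1f4d99953adec) (nat_lit 0x0)
  (PL.C (nat_lit 0x8c6dfea) (nat_lit 0x0) (nat_lit 0x1e5d0cfafa64d)
  (PL.C (nat_lit 0x8ca103f) (nat_lit 0x3e1439694d504) (nat_lit 0x0)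
  (PL.C (nat_lit 0x8cfccf6) (nat_lit 0x1150d7fe1d3c2) (nat_lit 0x0) gp5_0_21))))))))))))))))))))

noncomputable def gp5_0_19 : PL :=
  (PL.C (nat_lit 0x7eae825) (nat_lit 0x0) (nat_lit 0x1857bb99cf1c4d)
  (PL.C (nat_lit 0x7f13ffa) (nat_lit 0xcdfad36d564b) (nat_lit 0x0)
  (PL.C (nat_lit 0x7f4c68d) (nat_lit 0x8f5ea8e4168c) (nat_lit 0x0)
  (PL.C (nat_lit 0x7f5581a) (nat_lit 0x149ab8decd289) (nat_lit 0x0)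
  (PL.C (nat_lit 0x7fe7daf) (nat_lit 0x0) (nat_lit 0x9159f1c31f6da)
  (PL.C (nat_lit 0x800d1bf) (nat_lit 0x49e3187f3f1a6b) (nat_lit 0x0)
  (PL.C (nat_lit 0x8030842) (nat_lit 0x0) (nat_lit 0x243994fb81021)
  (PL.C (nat_lit 0x80627f7) (nat_lit 0x451ade5bd45d0) (nat_lit 0x0)
  (PL.C (nat_lit 0x8079b22) (nat_lit 0x0) (nat_lit 0x1e5d0cfafa64d)
  (PL.C (nat_lit 0x80acb77) (nat_lit 0x453e855edaf6a) (nat_lit 0x0)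
  (PL.C (nat_lit 0x8101b99) (nat_lit 0xa61449cad22a) (nat_lit 0x0)
  (PL.C (nat_lit 0x8136b79) (nat_lit 0x799734bfa7924) (nat_lit 0x0)
  (PL.C (nat_lit 0x8230412) (nat_lit 0x15acb692a4a89) (nat_lit 0x0)
  (PL.C (nat_lit 0x82b0d6a) (nat_lit 0x0) (nat_lit 0x6fe2722287823)
  (PL.C (nat_lit 0x82bbe0e) (nat_lit 0xf1a2b343398a) (nat_lit 0x0)
  (PL.C (nat_lit 0x85ae166) (nat_lit 0x0) (nat_lit 0x5ad9a81d51c08)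
  (PL.C (nat_lit 0x8600b7d) (nat_lit 0x1c938e712b01c) (nat_lit 0x0)
  (PL.C (nat_lit 0x8642cbc) (nat_lit 0x948e42e08c7f) (nat_lit 0x0)
  (PL.C (nat_lit 0x86d4aea) (nat_lit 0xbe69c4ba9b782) (nat_lit 0x0)
  (PL.C (nat_lit 0x8740b34) (nat_lit 0x49c0f740fb50) (nat_lit 0x0) gp5_0_20))))))))))))))))))))

noncomputable def gp5_0_18 : PL :=
  (PL.C (nat_lit 0x75a1ad9) (nat_lit 0x1c38fbdb577fa) (nat_lit 0x0)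
  (PL.C (nat_lit 0x75c91b5) (nat_lit 0x1783b25ea4bd8) (nat_lit 0x0)
  (PL.C (nat_lit 0x75cf862) (nat_lit 0x5de39e1399efd) (nat_lit 0x0)
  (PL.C (nat_lit 0x76b677b) (nat_lit 0x0) (nat_lit 0x13405204dfc929)
  (PL.C (nat_lit 0x7703f4e) (nat_lit 0x21caff6093b7) (nat_lit 0x0)
  (PL.C (nat_lit 0x771b22a) (nat_lit 0x0) (nat_lit 0x1610b40a644a9)
  (PL.C (nat_lit 0x772bd96) (nat_lit 0x0) (nat_lit 0x15e53b1c00065)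
  (PL.C (nat_lit 0x7751073) (nat_lit 0x0) (nat_lit 0xbd710caa98bfb)
  (PL.C (nat_lit 0x77a353d) (nat_lit 0x0) (nat_lit 0x448fc8b041d5)
  (PL.C (nat_lit 0x781c00a) (nat_lit 0xd15ff068cbeeb) (nat_lit 0x0)
  (PL.C (nat_lit 0x78b861a) (nat_lit 0x0) (nat_lit 0x1270b6deb39cf)
  (PL.C (nat_lit 0x792f9d2) (nat_lit 0x20940270029d4) (nat_lit 0x0)
  (PL.C (nat_lit 0x797ef1c) (nat_lit 0x0) (nat_lit 0x30bdd4a7f75d1)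
  (PL.C (nat_lit 0x7acf314) (nat_lit 0x131b259a5e2c3a) (nat_lit 0x0)
  (PL.C (nat_lit 0x7b50fde) (nat_lit 0x0) (nat_lit 0x9a7e19564645)
  (PL.C (nat_lit 0x7bddd4c) (nat_lit 0x131b259a5e2c3a) (nat_lit 0x0)
  (PL.C (nat_lit 0x7c81e21) (nat_lit 0x21e5f452b7d6f) (nat_lit 0x0)
  (PL.C (nat_lit 0x7d99b83) (nat_lit 0x0) (nat_lit 0x3a87e2851b26b)
  (PL.C (nat_lit 0x7dda773) (nat_lit 0x0) (nat_lit 0x3333c0948052e)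
  (PL.C (nat_lit 0x7e89a75) (nat_lit 0x5c0f020c725c) (nat_lit 0x0) gp5_0_19))))))))))))))))))))

noncomputable def gp5_0_17 : PL :=
  (PL.C (nat_lit 0x6d3e1aa) (nat_lit 0x0) (nat_lit 0x332bf9fdbb009)
  (PL.C (nat_lit 0x6de63da) (nat_lit 0x0) (nat_lit 0x1610b40a644a9)
  (PL.C (nat_lit 0x6e14407) (nat_lit 0x21d6ca8acf7f63) (nat_lit 0x0)
  (PL.C (nat_lit 0x6e52c92) (nat_lit 0x637971e2ec406) (nat_lit 0x0)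
  (PL.C (nat_lit 0x6e71992) (nat_lit 0x7d811b525d3e) (nat_lit 0x0)
  (PL.C (nat_lit 0x6eb0b21) (nat_lit 0x0) (nat_lit 0x4ecc13dd69762)
  (PL.C (nat_lit 0x7062a1e) (nat_lit 0x588e74b8dc92) (nat_lit 0x0)
  (PL.C (nat_lit 0x70d99b5) (nat_lit 0x202c52b44b8c5) (nat_lit 0x0)
  (PL.C (nat_lit 0x70e2fcc) (nat_lit 0x0) (nat_lit 0x12c3f19ac14fc)
  (PL.C (nat_lit 0x713741c) (nat_lit 0x0) (nat_lit 0x2a9a3d7a46df)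
  (PL.C (nat_lit 0x7261f0e) (nat_lit 0x9970c9375e1) (nat_lit 0x0)
  (PL.C (nat_lit 0x730c756) (nat_lit 0x13a9095b100e2b) (nat_lit 0x0)
  (PL.C (nat_lit 0x7332055) (nat_lit 0x0) (nat_lit 0x1dde8295e2a15)
  (PL.C (nat_lit 0x7373c85) (nat_lit 0x0) (nat_lit 0x4ecc13dd69762)
  (PL.C (nat_lit 0x739e80a) (nat_lit 0x360a5c3b7a8da) (nat_lit 0x0)
  (PL.C (nat_lit 0x7466f54) (nat_lit 0x0) (nat_lit 0x6b7207b8959b)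
  (PL.C (nat_lit 0x7470d4f) (nat_lit 0x252d5439f35941) (nat_lit 0x0)
  (PL.C (nat_lit 0x74b34df) (nat_lit 0x0) (nat_lit 0x851d4fd8284aa)
  (PL.C (nat_lit 0x75275ec) (nat_lit 0x46907b136819) (nat_lit 0x0)
  (PL.C (nat_lit 0x75716f9) (nat_lit 0x252d5439f35941) (nat_lit 0x0) gp5_0_18))))))))))))))))))))

noncomputable def gp5_0_16 : PL :=
  (PL.C (nat_lit 0x648b452) (nat_lit 0x15acb692a4a89) (nat_lit 0x0)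
  (PL.C (nat_lit 0x64f666c) (nat_lit 0x0) (nat_lit 0x2433b626adf36)
  (PL.C (nat_lit 0x65641b2) (nat_lit 0x0) (nat_lit 0x1635aba71add16)
  (PL.C (nat_lit 0x66a3d85) (nat_lit 0x0) (nat_lit 0xb4aa0900baa4)
  (PL.C (nat_lit 0x66d8c15) (nat_lit 0x0) (nat_lit 0x9358055908ee)
  (PL.C (nat_lit 0x6741d1d) (nat_lit 0x0) (nat_lit 0xc2e2f8e54cbc)
  (PL.C (nat_lit 0x682d6c2) (nat_lit 0x0) (nat_lit 0x5144d5d04144b)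
  (PL.C (nat_lit 0x691a865) (nat_lit 0x0) (nat_lit 0xf8393d66b603)
  (PL.C (nat_lit 0x697a49f) (nat_lit 0x0) (nat_lit 0x1ae2864349958)
  (PL.C (nat_lit 0x69d3ee6) (nat_lit 0x0) (nat_lit 0x16f2bf699f98a)
  (PL.C (nat_lit 0x6a10586) (nat_lit 0xcdfad36d564b) (nat_lit 0x0)
  (PL.C (nat_lit 0x6a3d67f) (nat_lit 0x0) (nat_lit 0x96c815b680f0)
  (PL.C (nat_lit 0x6af8d12) (nat_lit 0xbe69c4ba9b782) (nat_lit 0x0)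
  (PL.C (nat_lit 0x6b7d602) (nat_lit 0x149ab8decd289) (nat_lit 0x0)
  (PL.C (nat_lit 0x6be48de) (nat_lit 0x0) (nat_lit 0x5ad9a81d51c08)
  (PL.C (nat_lit 0x6bf8eab) (nat_lit 0x813645eb92be9) (nat_lit 0x0)
  (PL.C (nat_lit 0x6c3afdc) (nat_lit 0x1d722f6c20ba8) (nat_lit 0x0)
  (PL.C (nat_lit 0x6c9f193) (nat_lit 0x26e114228add8) (nat_lit 0x0)
  (PL.C (nat_lit 0x6ce6dbd) (nat_lit 0xa4b618087c825) (nat_lit 0x0)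
  (PL.C (nat_lit 0x6d0f27a) (nat_lit 0x13a9095b100e2b) (nat_lit 0x0) gp5_0_17))))))))))))))))))))

noncomputable def gp5_0_15 : PL :=
  (PL.C (nat_lit 0x5f279d9) (nat_lit 0x0) (nat_lit 0xa2592e3135c3)
  (PL.C (nat_lit 0x5f43549) (nat_lit 0x0) (nat_lit 0x851d4fd8284aa)
  (PL.C (nat_lit 0x5f4b3fc) (nat_lit 0x1d722f6c20ba8) (nat_lit 0x0)
  (PL.C (nat_lit 0x5fa2134) (nat_lit 0x46907b136819) (nat_lit 0x0)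
  (PL.C (nat_lit 0x6020bbf) (nat_lit 0x1873a7a49ae7c) (nat_lit 0x0)
  (PL.C (nat_lit 0x6052fb4) (nat_lit 0x0) (nat_lit 0xacb05cfcfa0f6)
  (PL.C (nat_lit 0x6102ecd) (nat_lit 0x0) (nat_lit 0x9be22f312100)
  (PL.C (nat_lit 0x62219be) (nat_lit 0xe55ff9d70b07a) (nat_lit 0x0)
  (PL.C (nat_lit 0x624b4cb) (nat_lit 0x0) (nat_lit 0x18576b32d17bc)
  (PL.C (nat_lit 0x625431e) (nat_lit 0x15d95b6d16bd1) (nat_lit 0x0)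
  (PL.C (nat_lit 0x628369b) (nat_lit 0x202c52b44b8c5) (nat_lit 0x0)
  (PL.C (nat_lit 0x62b8a4e) (nat_lit 0x0) (nat_lit 0x20285e302c92f)
  (PL.C (nat_lit 0x6323e9d) (nat_lit 0x0) (nat_lit 0x8b398b2a70aaf)
  (PL.C (nat_lit 0x633131a) (nat_lit 0x0) (nat_lit 0x6e80a028c4300)
  (PL.C (nat_lit 0x636453a) (nat_lit 0x0) (nat_lit 0x2aa3d69cedd5b)
  (PL.C (nat_lit 0x637356a) (nat_lit 0x15d95b6d16bd1) (nat_lit 0x0)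
  (PL.C (nat_lit 0x63ac1ca) (nat_lit 0x3eeb1e242bae) (nat_lit 0x0)
  (PL.C (nat_lit 0x63c9dca) (nat_lit 0x7f6c01657b017) (nat_lit 0x0)
  (PL.C (nat_lit 0x640bc96) (nat_lit 0x0) (nat_lit 0xe318217fc320d)
  (PL.C (nat_lit 0x64364a7) (nat_lit 0x0) (nat_lit 0x13405204dfc929) gp5_0_16))))))))))))))))))))

noncomputable def gp5_0_14 : PL :=
  (PL.C (nat_lit 0x5727eb4) (nat_lit 0x0) (nat_lit 0x6d053cdd8d32)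
  (PL.C (nat_lit 0x583c01d) (nat_lit 0x6181ef87436b) (nat_lit 0x0)
  (PL.C (nat_lit 0x5855b4d) (nat_lit 0x0) (nat_lit 0x13865ce05a9bb)
  (PL.C (nat_lit 0x58c3cf5) (nat_lit 0x0) (nat_lit 0x572465aa035ca)
  (PL.C (nat_lit 0x591b7b1) (nat_lit 0x0) (nat_lit 0xbd710caa98bfb)
  (PL.C (nat_lit 0x5955cfe) (nat_lit 0x440c9e00ac439) (nat_lit 0x0)
  (PL.C (nat_lit 0x5a4d0da) (nat_lit 0x0) (nat_lit 0x10a5f69544f0f1)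
  (PL.C (nat_lit 0x5b140d6) (nat_lit 0x0) (nat_lit 0x912fede15f755)
  (PL.C (nat_lit 0x5b2d7d6) (nat_lit 0x1c25089303081) (nat_lit 0x0)
  (PL.C (nat_lit 0x5b5d04c) (nat_lit 0x0) (nat_lit 0x12c3f19ac14fc)
  (PL.C (nat_lit 0x5c101e2) (nat_lit 0x0) (nat_lit 0x8f1d7975a510d)
  (PL.C (nat_lit 0x5c5e2fc) (nat_lit 0x4815fd363ec8) (nat_lit 0x0)
  (PL.C (nat_lit 0x5c87fb2) (nat_lit 0x20940270029d4) (nat_lit 0x0)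
  (PL.C (nat_lit 0x5cec863) (nat_lit 0x55bd0f51ccaac) (nat_lit 0x0)
  (PL.C (nat_lit 0x5d2563c) (nat_lit 0x0) (nat_lit 0xacb05cfcfa0f6)
  (PL.C (nat_lit 0x5d70965) (nat_lit 0x1441c45a504a7) (nat_lit 0x0)
  (PL.C (nat_lit 0x5d9ea9c) (nat_lit 0x0) (nat_lit 0x2fe1b060e090c)
  (PL.C (nat_lit 0x5e0463a) (nat_lit 0x4d89dbf259f6c) (nat_lit 0x0)
  (PL.C (nat_lit 0x5e77999) (nat_lit 0x0) (nat_lit 0xe2630e1a1d7a)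
  (PL.C (nat_lit 0x5e85666) (nat_lit 0x2f70f025d5552) (nat_lit 0x0) gp5_0_15))))))))))))))))))))

noncomputable def gp5_0_13 : PL :=
  (PL.C (nat_lit 0x507aebc) (nat_lit 0x6278a489dc3) (nat_lit 0x0)
  (PL.C (nat_lit 0x50812ad) (nat_lit 0x0) (nat_lit 0xf4f3049c57ad)
  (PL.C (nat_lit 0x50ca68c) (nat_lit 0x1837cc73afddf) (nat_lit 0x0)
  (PL.C (nat_lit 0x5135691) (nat_lit 0x0) (nat_lit 0x572465aa035ca)
  (PL.C (nat_lit 0x51e48c1) (nat_lit 0xbdcf3ca660d2) (nat_lit 0x0)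
  (PL.C (nat_lit 0x5301416) (nat_lit 0x5de39e1399efd) (nat_lit 0x0)
  (PL.C (nat_lit 0x53bbd02) (nat_lit 0x0) (nat_lit 0xe318217fc320d)
  (PL.C (nat_lit 0x53e6fa2) (nat_lit 0x0) (nat_lit 0x1635aba71add16)
  (PL.C (nat_lit 0x545bc4e) (nat_lit 0x0) (nat_lit 0x2f8a06bcdfbef)
  (PL.C (nat_lit 0x547456e) (nat_lit 0x0) (nat_lit 0x6e80a028c4300)
  (PL.C (nat_lit 0x5498383) (nat_lit 0x3e1439694d504) (nat_lit 0x0)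
  (PL.C (nat_lit 0x54b7ffc) (nat_lit 0x0) (nat_lit 0xe2451c7fb595)
  (PL.C (nat_lit 0x54e3abc) (nat_lit 0x58629c01763ed) (nat_lit 0x0)
  (PL.C (nat_lit 0x55453ca) (nat_lit 0x67355098bb86d) (nat_lit 0x0)
  (PL.C (nat_lit 0x555e12a) (nat_lit 0x0) (nat_lit 0x1c2b64f8f773bc)
  (PL.C (nat_lit 0x5596ffa) (nat_lit 0x0) (nat_lit 0x2aa3d69cedd5b)
  (PL.C (nat_lit 0x55a676c) (nat_lit 0x0) (nat_lit 0x2fe1b060e090c)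
  (PL.C (nat_lit 0x5601266) (nat_lit 0x7565fb3dd0cb3) (nat_lit 0x0)
  (PL.C (nat_lit 0x56247a6) (nat_lit 0x0) (nat_lit 0x9a7e19564645)
  (PL.C (nat_lit 0x56d1929) (nat_lit 0x1858573c2f7d31) (nat_lit 0x0) gp5_0_14))))))))))))))))))))

noncomputable def gp5_0_12 : PL :=
  (PL.C (nat_lit 0x48ef775) (nat_lit 0xa4b618087c825) (nat_lit 0x0)
  (PL.C (nat_lit 0x49191a5) (nat_lit 0x0) (nat_lit 0x13865ce05a9bb)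
  (PL.C (nat_lit 0x4949d8d) (nat_lit 0x0) (nat_lit 0x9358055908ee)
  (PL.C (nat_lit 0x4962d5a) (nat_lit 0x0) (nat_lit 0xdab8d95e5d054)
  (PL.C (nat_lit 0x4990323) (nat_lit 0x813645eb92be9) (nat_lit 0x0)
  (PL.C (nat_lit 0x49a110c) (nat_lit 0xe29b98a61c00) (nat_lit 0x0)
  (PL.C (nat_lit 0x49cb216) (nat_lit 0x0) (nat_lit 0x10e8a6c09b3bfc)
  (PL.C (nat_lit 0x4a5bc99) (nat_lit 0x55bd0f51ccaac) (nat_lit 0x0)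
  (PL.C (nat_lit 0x4b3bbce) (nat_lit 0x46d102d13f047) (nat_lit 0x0)
  (PL.C (nat_lit 0x4befda5) (nat_lit 0x0) (nat_lit 0x2cd89c9ea85b3)
  (PL.C (nat_lit 0x4c414b4) (nat_lit 0x49c0f740fb50) (nat_lit 0x0)
  (PL.C (nat_lit 0x4c99de9) (nat_lit 0x8358a3c75aef1) (nat_lit 0x0)
  (PL.C (nat_lit 0x4cf7dae) (nat_lit 0x0) (nat_lit 0x10e8a6c09b3bfc)
  (PL.C (nat_lit 0x4d1455c) (nat_lit 0x0) (nat_lit 0x6b7207b8959b)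
  (PL.C (nat_lit 0x4dccdea) (nat_lit 0x14911da8497ea7) (nat_lit 0x0)
  (PL.C (nat_lit 0x4dfcf5b) (nat_lit 0x0) (nat_lit 0x6b48e0cc639f)
  (PL.C (nat_lit 0x4ed4cc1) (nat_lit 0x17a7b6c319a9f) (nat_lit 0x0)
  (PL.C (nat_lit 0x4f8b5a2) (nat_lit 0x76d688435355) (nat_lit 0x0)
  (PL.C (nat_lit 0x4fc237e) (nat_lit 0x3eeb1e242bae) (nat_lit 0x0)
  (PL.C (nat_lit 0x50534fd) (nat_lit 0x0) (nat_lit 0x36c8133441d36) gp5_0_13))))))))))))))))))))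

noncomputable def gp5_0_11 : PL :=
  (PL.C (nat_lit 0x43a18a9) (nat_lit 0x169b34922b69de) (nat_lit 0x0)
  (PL.C (nat_lit 0x43c4679) (nat_lit 0x0) (nat_lit 0x513365aa2ef11)
  (PL.C (nat_lit 0x4409a21) (nat_lit 0x0) (nat_lit 0x1d7e5cc580511)
  (PL.C (nat_lit 0x443694f) (nat_lit 0x169b34922b69de) (nat_lit 0x0)
  (PL.C (nat_lit 0x446d3ae) (nat_lit 0x3a634bac414a3) (nat_lit 0x0)
  (PL.C (nat_lit 0x449080e) (nat_lit 0x0) (nat_lit 0x1e2376f567ba7)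
  (PL.C (nat_lit 0x44d68be) (nat_lit 0x7d811b525d3e) (nat_lit 0x0)
  (PL.C (nat_lit 0x44f35dd) (nat_lit 0x0) (nat_lit 0x956cba69e8a00)
  (PL.C (nat_lit 0x4521585) (nat_lit 0x0) (nat_lit 0x513365aa2ef11)
  (PL.C (nat_lit 0x458034b) (nat_lit 0x1d14a8ee08ccf) (nat_lit 0x0)
  (PL.C (nat_lit 0x4611aee) (nat_lit 0x0) (nat_lit 0x30af300ce5024)
  (PL.C (nat_lit 0x465186a) (nat_lit 0x0) (nat_lit 0x10bcc273452d3)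
  (PL.C (nat_lit 0x46b5904) (nat_lit 0x0) (nat_lit 0xe2451c7fb595)
  (PL.C (nat_lit 0x46d39aa) (nat_lit 0xd15ff068cbeeb) (nat_lit 0x0)
  (PL.C (nat_lit 0x47a8eac) (nat_lit 0x58629c01763ed) (nat_lit 0x0)
  (PL.C (nat_lit 0x47fb472) (nat_lit 0x0) (nat_lit 0xda2f966480b35)
  (PL.C (nat_lit 0x4827c57) (nat_lit 0x5c0f020c725c) (nat_lit 0x0)
  (PL.C (nat_lit 0x4850f67) (nat_lit 0x0) (nat_lit 0xb4aa0900baa4)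
  (PL.C (nat_lit 0x4899e7e) (nat_lit 0x787339b784e57) (nat_lit 0x0)
  (PL.C (nat_lit 0x48d411c) (nat_lit 0x358b2a503d6) (nat_lit 0x0) gp5_0_12))))))))))))))))))))

noncomputable def gp5_0_10 : PL :=
  (PL.C (nat_lit 0x3e4b0ee) (nat_lit 0x1c25089303081) (nat_lit 0x0)
  (PL.C (nat_lit 0x3e69c68) (nat_lit 0x74d6206f496) (nat_lit 0x0)
  (PL.C (nat_lit 0x3ead97c) (nat_lit 0x0) (nat_lit 0x4f7f3dd1887a)
  (PL.C (nat_lit 0x3eb2e8d) (nat_lit 0x0) (nat_lit 0x3b69dab3da816c)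
  (PL.C (nat_lit 0x3ec52bd) (nat_lit 0x21d6ca8acf7f63) (nat_lit 0x0)
  (PL.C (nat_lit 0x3ed6b3d) (nat_lit 0x0) (nat_lit 0x510e3d779ef1c)
  (PL.C (nat_lit 0x3efa666) (nat_lit 0x0) (nat_lit 0x1270b6deb39cf)
  (PL.C (nat_lit 0x3f3d14b) (nat_lit 0x0) (nat_lit 0x167197afa963b2)
  (PL.C (nat_lit 0x3f570eb) (nat_lit 0x0) (nat_lit 0x446769dc26c03)
  (PL.C (nat_lit 0x3f6fbe6) (nat_lit 0x3185597b2957) (nat_lit 0x0)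
  (PL.C (nat_lit 0x3f82386) (nat_lit 0x14911da8497ea7) (nat_lit 0x0)
  (PL.C (nat_lit 0x3fec191) (nat_lit 0x0) (nat_lit 0x47315acec4620)
  (PL.C (nat_lit 0x4015d2a) (nat_lit 0x588e74b8dc92) (nat_lit 0x0)
  (PL.C (nat_lit 0x40ac9de) (nat_lit 0x0) (nat_lit 0x350dfc9a13c72)
  (PL.C (nat_lit 0x416bbd4) (nat_lit 0x1554003fb83d9c) (nat_lit 0x0)
  (PL.C (nat_lit 0x41acf12) (nat_lit 0x46d102d13f047) (nat_lit 0x0)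
  (PL.C (nat_lit 0x4220cbc) (nat_lit 0x0) (nat_lit 0x9e9b3e6715657)
  (PL.C (nat_lit 0x4272bdc) (nat_lit 0x0) (nat_lit 0x16131c1f7f7e3)
  (PL.C (nat_lit 0x42b2864) (nat_lit 0x0) (nat_lit 0x75ff3ea1ee9cc)
  (PL.C (nat_lit 0x430adc3) (nat_lit 0x0) (nat_lit 0x36c8133441d36) gp5_0_11))))))))))))))))))))

noncomputable def gp5_0_9 : PL :=
  (PL.C (nat_lit 0x38e961c) (nat_lit 0x3ffcdac3c791be) (nat_lit 0x0)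
  (PL.C (nat_lit 0x3919a48) (nat_lit 0x74d6206f496) (nat_lit 0x0)
  (PL.C (nat_lit 0x3934c1d) (nat_lit 0xbdcf3ca660d2) (nat_lit 0x0)
  (PL.C (nat_lit 0x39e10c6) (nat_lit 0x6ceba7a53eef4) (nat_lit 0x0)
  (PL.C (nat_lit 0x3a23921) (nat_lit 0x0) (nat_lit 0x811f7eb0a85b9)
  (PL.C (nat_lit 0x3a34811) (nat_lit 0x0) (nat_lit 0x956cba69e8a00)
  (PL.C (nat_lit 0x3a7d0d9) (nat_lit 0x8358a3c75aef1) (nat_lit 0x0)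
  (PL.C (nat_lit 0x3aa3b17) (nat_lit 0x0) (nat_lit 0x6377279f4e787)
  (PL.C (nat_lit 0x3ad2abe) (nat_lit 0x10669db2111f8) (nat_lit 0x0)
  (PL.C (nat_lit 0x3ae3cde) (nat_lit 0x0) (nat_lit 0x4af1fdd7f540c)
  (PL.C (nat_lit 0x3b2d34e) (nat_lit 0x0) (nat_lit 0x3d80d4026255a)
  (PL.C (nat_lit 0x3b45fb5) (nat_lit 0x0) (nat_lit 0x7ad43cbc0c5a7)
  (PL.C (nat_lit 0x3b67a76) (nat_lit 0x76d688435355) (nat_lit 0x0)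
  (PL.C (nat_lit 0x3cc8fe4) (nat_lit 0x0) (nat_lit 0x575d0cb42d8c)
  (PL.C (nat_lit 0x3d91a09) (nat_lit 0xa61449cad22a) (nat_lit 0x0)
  (PL.C (nat_lit 0x3daffcc) (nat_lit 0x1837cc73afddf) (nat_lit 0x0)
  (PL.C (nat_lit 0x3df3042) (nat_lit 0xc346289d2a2fb) (nat_lit 0x0)
  (PL.C (nat_lit 0x3e073df) (nat_lit 0x1bb943c7a7b231) (nat_lit 0x0)
  (PL.C (nat_lit 0x3e194ef) (nat_lit 0x0) (nat_lit 0x9159f1c31f6da)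
  (PL.C (nat_lit 0x3e2aa6f) (nat_lit 0xed2466af0b60) (nat_lit 0x0) gp5_0_10))))))))))))))))))))

noncomputable def gp5_0_8 : PL :=
  (PL.C (nat_lit 0x329fe6e) (nat_lit 0x0) (nat_lit 0x58354025ca781)
  (PL.C (nat_lit 0x334ba3b) (nat_lit 0x0) (nat_lit 0xa7b4c312f900)
  (PL.C (nat_lit 0x334fe74) (nat_lit 0x0) (nat_lit 0x10b4eeb2d3a71d)
  (PL.C (nat_lit 0x33dde9c) (nat_lit 0x0) (nat_lit 0x116bca257a1476)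
  (PL.C (nat_lit 0x33fdf92) (nat_lit 0x0) (nat_lit 0x332bf9fdbb009)
  (PL.C (nat_lit 0x348ddd6) (nat_lit 0x4d89dbf259f6c) (nat_lit 0x0)
  (PL.C (nat_lit 0x34ed781) (nat_lit 0x0) (nat_lit 0x167197afa963b2)
  (PL.C (nat_lit 0x350baf1) (nat_lit 0x0) (nat_lit 0xa7b4c312f900)
  (PL.C (nat_lit 0x352c254) (nat_lit 0x0) (nat_lit 0x16131c1f7f7e3)
  (PL.C (nat_lit 0x35621b7) (nat_lit 0x0) (nat_lit 0x3b69dab3da816c)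
  (PL.C (nat_lit 0x358cdfe) (nat_lit 0x6082d9352c211) (nat_lit 0x0)
  (PL.C (nat_lit 0x35ab71e) (nat_lit 0x0) (nat_lit 0x156f12d2f9599)
  (PL.C (nat_lit 0x35f5d95) (nat_lit 0xd826c89242df0b) (nat_lit 0x0)
  (PL.C (nat_lit 0x36239b6) (nat_lit 0x0) (nat_lit 0x3d80d4026255a)
  (PL.C (nat_lit 0x3661833) (nat_lit 0x0) (nat_lit 0xf4f3049c57ad)
  (PL.C (nat_lit 0x36985d6) (nat_lit 0xd8a3a2da8685) (nat_lit 0x0)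
  (PL.C (nat_lit 0x37d28ac) (nat_lit 0x0) (nat_lit 0x75ff3ea1ee9cc)
  (PL.C (nat_lit 0x384d8f4) (nat_lit 0x0) (nat_lit 0x9e9b3e6715657)
  (PL.C (nat_lit 0x387aaa8) (nat_lit 0x5417189af292) (nat_lit 0x0)
  (PL.C (nat_lit 0x389820f) (nat_lit 0x0) (nat_lit 0xa2592e3135c3) gp5_0_9))))))))))))))))))))

noncomputable def gp5_0_7 : PL :=
  (PL.C (nat_lit 0x2db5ab4) (nat_lit 0xa76b2fc56837) (nat_lit 0x0)
  (PL.C (nat_lit 0x2de45d4) (nat_lit 0xe29b98a61c00) (nat_lit 0x0)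
  (PL.C (nat_lit 0x2df793e) (nat_lit 0x0) (nat_lit 0x383e77a8572f38)
  (PL.C (nat_lit 0x2e163ae) (nat_lit 0x0) (nat_lit 0x40fc1bfdcf69a)
  (PL.C (nat_lit 0x2ebf9db) (nat_lit 0x43f53f00ed4d5) (nat_lit 0x0)
  (PL.C (nat_lit 0x2f23b58) (nat_lit 0x5417189af292) (nat_lit 0x0)
  (PL.C (nat_lit 0x2f909c7) (nat_lit 0xdff8cd55c762) (nat_lit 0x0)
  (PL.C (nat_lit 0x301a83a) (nat_lit 0x0) (nat_lit 0x2f8a06bcdfbef)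
  (PL.C (nat_lit 0x3035f9a) (nat_lit 0x3a634bac414a3) (nat_lit 0x0)
  (PL.C (nat_lit 0x304a751) (nat_lit 0x0) (nat_lit 0x9be22f312100)
  (PL.C (nat_lit 0x309fa4e) (nat_lit 0x787339b784e57) (nat_lit 0x0)
  (PL.C (nat_lit 0x30bb66e) (nat_lit 0x0) (nat_lit 0x4af1fdd7f540c)
  (PL.C (nat_lit 0x30dbe5e) (nat_lit 0x0) (nat_lit 0x1e2376f567ba7)
  (PL.C (nat_lit 0x310acc2) (nat_lit 0x0) (nat_lit 0xda2f966480b35)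
  (PL.C (nat_lit 0x3132164) (nat_lit 0x0) (nat_lit 0x10b4eeb2d3a71d)
  (PL.C (nat_lit 0x3192866) (nat_lit 0xc346289d2a2fb) (nat_lit 0x0)
  (PL.C (nat_lit 0x3209349) (nat_lit 0x1acc20fe83986b) (nat_lit 0x0)
  (PL.C (nat_lit 0x3227d34) (nat_lit 0x0) (nat_lit 0x312247d39c641)
  (PL.C (nat_lit 0x325050f) (nat_lit 0xed2466af0b60) (nat_lit 0x0)
  (PL.C (nat_lit 0x326d09f) (nat_lit 0xf334f16fdb05) (nat_lit 0x0) gp5_0_8))))))))))))))))))))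

noncomputable def gp5_0_6 : PL :=
  (PL.C (nat_lit 0x296634a) (nat_lit 0x67355098bb86d) (nat_lit 0x0)
  (PL.C (nat_lit 0x2971c4a) (nat_lit 0x0) (nat_lit 0x353f2f00ed3b)
  (PL.C (nat_lit 0x29875f4) (nat_lit 0x0) (nat_lit 0x575d0cb42d8c)
  (PL.C (nat_lit 0x29d8c7e) (nat_lit 0x0) (nat_lit 0xdab8d95e5d054)
  (PL.C (nat_lit 0x29e477e) (nat_lit 0xa0990d3796879) (nat_lit 0x0)
  (PL.C (nat_lit 0x29fc444) (nat_lit 0x6278a489dc3) (nat_lit 0x0)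
  (PL.C (nat_lit 0x2a56d04) (nat_lit 0x0) (nat_lit 0x116bca257a1476)
  (PL.C (nat_lit 0x2b408d7) (nat_lit 0x406fd6bca81ac) (nat_lit 0x0)
  (PL.C (nat_lit 0x2b4d267) (nat_lit 0x0) (nat_lit 0x510e3d779ef1c)
  (PL.C (nat_lit 0x2b593e7) (nat_lit 0xa37376c1648f) (nat_lit 0x0)
  (PL.C (nat_lit 0x2bc8a0c) (nat_lit 0x0) (nat_lit 0x312247d39c641)
  (PL.C (nat_lit 0x2c189a3) (nat_lit 0x0) (nat_lit 0x4750defc7312)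
  (PL.C (nat_lit 0x2c4c7e8) (nat_lit 0xcedb0b95a64) (nat_lit 0x0)
  (PL.C (nat_lit 0x2cb1e82) (nat_lit 0x6082d9352c211) (nat_lit 0x0)
  (PL.C (nat_lit 0x2d165c6) (nat_lit 0x1292949730f7a4) (nat_lit 0x0)
  (PL.C (nat_lit 0x2d2d9a6) (nat_lit 0x0) (nat_lit 0x40fc1bfdcf69a)
  (PL.C (nat_lit 0x2d5bc16) (nat_lit 0x0) (nat_lit 0x5144d5d04144b)
  (PL.C (nat_lit 0x2d79b8a) (nat_lit 0x1292949730f7a4) (nat_lit 0x0)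
  (PL.C (nat_lit 0x2d8d0a9) (nat_lit 0x0) (nat_lit 0x47315acec4620)
  (PL.C (nat_lit 0x2d9e274) (nat_lit 0x0) (nat_lit 0x4e91f416d33c) gp5_0_7))))))))))))))))))))

noncomputable def gp5_0_5 : PL :=
  (PL.C (nat_lit 0x23093e4) (nat_lit 0x0) (nat_lit 0x4f7f3dd1887a)
  (PL.C (nat_lit 0x235d1f6) (nat_lit 0x2b69e9520a23c) (nat_lit 0x0)
  (PL.C (nat_lit 0x2372c38) (nat_lit 0xcedb0b95a64) (nat_lit 0x0)
  (PL.C (nat_lit 0x2372fb5) (nat_lit 0x6181ef87436b) (nat_lit 0x0)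
  (PL.C (nat_lit 0x23c7a14) (nat_lit 0x0) (nat_lit 0x6de2bfa8898e)
  (PL.C (nat_lit 0x23d516f) (nat_lit 0x0) (nat_lit 0x2cd89c9ea85b3)
  (PL.C (nat_lit 0x2441022) (nat_lit 0x0) (nat_lit 0x156f12d2f9599)
  (PL.C (nat_lit 0x253956f) (nat_lit 0x0) (nat_lit 0x115599e958e769)
  (PL.C (nat_lit 0x25bac0a) (nat_lit 0x3185597b2957) (nat_lit 0x0)
  (PL.C (nat_lit 0x26232be) (nat_lit 0xd8a3a2da8685) (nat_lit 0x0)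
  (PL.C (nat_lit 0x2696084) (nat_lit 0x2257190ad498ac) (nat_lit 0x0)
  (PL.C (nat_lit 0x26c2616) (nat_lit 0x51c94272218f2) (nat_lit 0x0)
  (PL.C (nat_lit 0x26cdab6) (nat_lit 0x0) (nat_lit 0x383e77a8572f38)
  (PL.C (nat_lit 0x2717cba) (nat_lit 0x0) (nat_lit 0x4276616951d67)
  (PL.C (nat_lit 0x27371d4) (nat_lit 0x310f5eac3552) (nat_lit 0x0)
  (PL.C (nat_lit 0x2742894) (nat_lit 0x0) (nat_lit 0x604e0b29327bf)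
  (PL.C (nat_lit 0x2776887) (nat_lit 0x43f53f00ed4d5) (nat_lit 0x0)
  (PL.C (nat_lit 0x2783fce) (nat_lit 0x6ea5f5a3be71e) (nat_lit 0x0)
  (PL.C (nat_lit 0x28e39cf) (nat_lit 0xfeb988d11f84) (nat_lit 0x0)
  (PL.C (nat_lit 0x290bc06) (nat_lit 0x7565fb3dd0cb3) (nat_lit 0x0) gp5_0_6))))))))))))))))))))

noncomputable def gp5_0_4 : PL :=
  (PL.C (nat_lit 0x1e794cd) (nat_lit 0x406fd6bca81ac) (nat_lit 0x0)
  (PL.C (nat_lit 0x1ea50d4) (nat_lit 0x0) (nat_lit 0xbdcf3b14cc052)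
  (PL.C (nat_lit 0x1ecda37) (nat_lit 0x0) (nat_lit 0x115599e958e769)
  (PL.C (nat_lit 0x1f2a692) (nat_lit 0x0) (nat_lit 0x1ff9ec7e8b245)
  (PL.C (nat_lit 0x1f57593) (nat_lit 0x396b4050ff8ec7) (nat_lit 0x0)
  (PL.C (nat_lit 0x1fb5bda) (nat_lit 0x6ad4ce7fecb18) (nat_lit 0x0)
  (PL.C (nat_lit 0x2023fbc) (nat_lit 0x0) (nat_lit 0x4e91f416d33c)
  (PL.C (nat_lit 0x2031a36) (nat_lit 0x0) (nat_lit 0x350dfc9a13c72)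
  (PL.C (nat_lit 0x207cef4) (nat_lit 0x0) (nat_lit 0x604e0b29327bf)
  (PL.C (nat_lit 0x2092994) (nat_lit 0xa76b2fc56837) (nat_lit 0x0)
  (PL.C (nat_lit 0x212707b) (nat_lit 0x0) (nat_lit 0x6377279f4e787)
  (PL.C (nat_lit 0x2139f4b) (nat_lit 0xdff8cd55c762) (nat_lit 0x0)
  (PL.C (nat_lit 0x215b786) (nat_lit 0x0) (nat_lit 0x1d1f2075f91b72)
  (PL.C (nat_lit 0x217016d) (nat_lit 0x0) (nat_lit 0x811f7eb0a85b9)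
  (PL.C (nat_lit 0x218ae0a) (nat_lit 0x0) (nat_lit 0x353f2f00ed3b)
  (PL.C (nat_lit 0x219e06a) (nat_lit 0xf622236c9626) (nat_lit 0x0)
  (PL.C (nat_lit 0x21bfef4) (nat_lit 0x0) (nat_lit 0x17b90700ad4e4)
  (PL.C (nat_lit 0x21cca17) (nat_lit 0x1acc20fe83986b) (nat_lit 0x0)
  (PL.C (nat_lit 0x22326d2) (nat_lit 0x2b69e9520a23c) (nat_lit 0x0)
  (PL.C (nat_lit 0x22a950c) (nat_lit 0x358b2a503d6) (nat_lit 0x0) gp5_0_5))))))))))))))))))))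

noncomputable def gp5_0_3 : PL :=
  (PL.C (nat_lit 0x19de724) (nat_lit 0x0) (nat_lit 0xbdcf3b14cc052)
  (PL.C (nat_lit 0x1a00b53) (nat_lit 0x0) (nat_lit 0x4750defc7312)
  (PL.C (nat_lit 0x1a2c5b8) (nat_lit 0x0) (nat_lit 0xec264f9a2573)
  (PL.C (nat_lit 0x1a4f05a) (nat_lit 0x0) (nat_lit 0x1ff9ec7e8b245)
  (PL.C (nat_lit 0x1af143b) (nat_lit 0x0) (nat_lit 0xb4ba5b6446638)
  (PL.C (nat_lit 0x1b4268a) (nat_lit 0x1453817c82161) (nat_lit 0x0)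
  (PL.C (nat_lit 0x1ba12dc) (nat_lit 0x0) (nat_lit 0xf3574413851f)
  (PL.C (nat_lit 0x1beda54) (nat_lit 0x0) (nat_lit 0x10184e44fa58a)
  (PL.C (nat_lit 0x1c7fde3) (nat_lit 0x112a7b9d1b8658) (nat_lit 0x0)
  (PL.C (nat_lit 0x1c882b3) (nat_lit 0x0) (nat_lit 0x7ad43cbc0c5a7)
  (PL.C (nat_lit 0x1c90233) (nat_lit 0x0) (nat_lit 0x870fa3df22e9a)
  (PL.C (nat_lit 0x1cbeac5) (nat_lit 0x112a7b9d1b8658) (nat_lit 0x0)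
  (PL.C (nat_lit 0x1cd5b3a) (nat_lit 0x0) (nat_lit 0x17a21d67121e2)
  (PL.C (nat_lit 0x1cde19a) (nat_lit 0xa0990d3796879) (nat_lit 0x0)
  (PL.C (nat_lit 0x1ce629a) (nat_lit 0x552e7fc6ba52) (nat_lit 0x0)
  (PL.C (nat_lit 0x1d0e39f) (nat_lit 0x0) (nat_lit 0x4587061427c359)
  (PL.C (nat_lit 0x1d65bc2) (nat_lit 0x27c3e46e1c0d1) (nat_lit 0x0)
  (PL.C (nat_lit 0x1e0ee84) (nat_lit 0x83eb15a3d68a5) (nat_lit 0x0)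
  (PL.C (nat_lit 0x1e5125c) (nat_lit 0x83eb15a3d68a5) (nat_lit 0x0)
  (PL.C (nat_lit 0x1e696f8) (nat_lit 0x0) (nat_lit 0x1b86903feb1f) gp5_0_4))))))))))))))))))))

noncomputable def gp5_0_2 : PL :=
  (PL.C (nat_lit 0x1523d3c) (nat_lit 0x83842e97277fa) (nat_lit 0x0)
  (PL.C (nat_lit 0x153fd35) (nat_lit 0xd638f0b3c84c2) (nat_lit 0x0)
  (PL.C (nat_lit 0x156d528) (nat_lit 0x0) (nat_lit 0x1b86903feb1f)
  (PL.C (nat_lit 0x15a89f8) (nat_lit 0x0) (nat_lit 0xec264f9a2573)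
  (PL.C (nat_lit 0x161a052) (nat_lit 0x0) (nat_lit 0x4276616951d67)
  (PL.C (nat_lit 0x1626a32) (nat_lit 0x6ad4ce7fecb18) (nat_lit 0x0)
  (PL.C (nat_lit 0x164ab9e) (nat_lit 0x51c94272218f2) (nat_lit 0x0)
  (PL.C (nat_lit 0x165c95c) (nat_lit 0x0) (nat_lit 0xf3574413851f)
  (PL.C (nat_lit 0x166959c) (nat_lit 0x56de8b172a668) (nat_lit 0x0)
  (PL.C (nat_lit 0x16886ba) (nat_lit 0x0) (nat_lit 0x1d1f2075f91b72)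
  (PL.C (nat_lit 0x16cc48c) (nat_lit 0x0) (nat_lit 0xbadb34415f6f2)
  (PL.C (nat_lit 0x1750ed5) (nat_lit 0x0) (nat_lit 0x870fa3df22e9a)
  (PL.C (nat_lit 0x17936a4) (nat_lit 0x0) (nat_lit 0xbadb34415f6f2)
  (PL.C (nat_lit 0x17a1fce) (nat_lit 0x10669db2111f8) (nat_lit 0x0)
  (PL.C (nat_lit 0x17da6b8) (nat_lit 0x6c3ff2ed1a61) (nat_lit 0x0)
  (PL.C (nat_lit 0x17e364a) (nat_lit 0x0) (nat_lit 0x58354025ca781)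
  (PL.C (nat_lit 0x182b56c) (nat_lit 0x0) (nat_lit 0x6de2bfa8898e)
  (PL.C (nat_lit 0x188705b) (nat_lit 0x0) (nat_lit 0x4587061427c359)
  (PL.C (nat_lit 0x18b7f5d) (nat_lit 0xa37376c1648f) (nat_lit 0x0)
  (PL.C (nat_lit 0x18d0e4a) (nat_lit 0x5196039ce205a) (nat_lit 0x0) gp5_0_3))))))))))))))))))))

noncomputable def gp5_0_1 : PL :=
  (PL.C (nat_lit 0xf5d039) (nat_lit 0x0) (nat_lit 0xb4ba5b6446638)
  (PL.C (nat_lit 0xf8b48e) (nat_lit 0x4e48045462c94) (nat_lit 0x0)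
  (PL.C (nat_lit 0xfc1534) (nat_lit 0x310f5eac3552) (nat_lit 0x0)
  (PL.C (nat_lit 0xfecedc) (nat_lit 0x0) (nat_lit 0x17b90700ad4e4)
  (PL.C (nat_lit 0x101ce48) (nat_lit 0x6c3ff2ed1a61) (nat_lit 0x0)
  (PL.C (nat_lit 0x1049961) (nat_lit 0xfeb988d11f84) (nat_lit 0x0)
  (PL.C (nat_lit 0x107aa3e) (nat_lit 0x552e7fc6ba52) (nat_lit 0x0)
  (PL.C (nat_lit 0x1155ce2) (nat_lit 0x27c3e46e1c0d1) (nat_lit 0x0)
  (PL.C (nat_lit 0x118a03c) (nat_lit 0x33b3ed483a84c) (nat_lit 0x0)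
  (PL.C (nat_lit 0x11f62d2) (nat_lit 0x9501dffb5663e) (nat_lit 0x0)
  (PL.C (nat_lit 0x122c45c) (nat_lit 0x9714d8114a3b) (nat_lit 0x0)
  (PL.C (nat_lit 0x1305722) (nat_lit 0x6ea5f5a3be71e) (nat_lit 0x0)
  (PL.C (nat_lit 0x130ac22) (nat_lit 0x4e48045462c94) (nat_lit 0x0)
  (PL.C (nat_lit 0x133ebbc) (nat_lit 0x0) (nat_lit 0x10184e44fa58a)
  (PL.C (nat_lit 0x13441bc) (nat_lit 0x0) (nat_lit 0x1310869bd5cd3)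
  (PL.C (nat_lit 0x140b2ed) (nat_lit 0x8cd726f2b59b7) (nat_lit 0x0)
  (PL.C (nat_lit 0x1450dde) (nat_lit 0x0) (nat_lit 0x17a21d67121e2)
  (PL.C (nat_lit 0x148917a) (nat_lit 0x5196039ce205a) (nat_lit 0x0)
  (PL.C (nat_lit 0x14c6f0c) (nat_lit 0x33b3ed483a84c) (nat_lit 0x0)
  (PL.C (nat_lit 0x14e4e62) (nat_lit 0x104c643ff0bf6e) (nat_lit 0x0) gp5_0_2))))))))))))))))))))

noncomputable def gp5_0 : PL :=
  (PL.C (nat_lit 0x73d264) (nat_lit 0x9714d8114a3b) (nat_lit 0x0)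
  (PL.C (nat_lit 0x752f38) (nat_lit 0x0) (nat_lit 0x333a578e79fd)
  (PL.C (nat_lit 0x955966) (nat_lit 0x0) (nat_lit 0x2c7ac401c0360)
  (PL.C (nat_lit 0x971b34) (nat_lit 0x5d6cd088cbec1) (nat_lit 0x0)
  (PL.C (nat_lit 0x9d8488) (nat_lit 0x46109be53326) (nat_lit 0x0)
  (PL.C (nat_lit 0x9f5ef0) (nat_lit 0x6a68d68165a4) (nat_lit 0x0)
  (PL.C (nat_lit 0xa3e026) (nat_lit 0x9501dffb5663e) (nat_lit 0x0)
  (PL.C (nat_lit 0xa5cdb4) (nat_lit 0x0) (nat_lit 0x9b6e24b50f479)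
  (PL.C (nat_lit 0xadbb96) (nat_lit 0x1453817c82161) (nat_lit 0x0)
  (PL.C (nat_lit 0xafc6d4) (nat_lit 0x0) (nat_lit 0x1310869bd5cd3)
  (PL.C (nat_lit 0xcb1d6c) (nat_lit 0x0) (nat_lit 0x9b6e24b50f479)
  (PL.C (nat_lit 0xcd8128) (nat_lit 0x0) (nat_lit 0x333a578e79fd)
  (PL.C (nat_lit 0xd35031) (nat_lit 0x21984724a91fa9) (nat_lit 0x0)
  (PL.C (nat_lit 0xd5cc9e) (nat_lit 0x0) (nat_lit 0x2c7ac401c0360)
  (PL.C (nat_lit 0xdedeec) (nat_lit 0x243f90cca98d2e) (nat_lit 0x0)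
  (PL.C (nat_lit 0xe00619) (nat_lit 0x8cd726f2b59b7) (nat_lit 0x0)
  (PL.C (nat_lit 0xe17e28) (nat_lit 0x46109be53326) (nat_lit 0x0)
  (PL.C (nat_lit 0xe2a8ce) (nat_lit 0x0) (nat_lit 0x1247d2ece8080)
  (PL.C (nat_lit 0xec46cc) (nat_lit 0x83842e97277fa) (nat_lit 0x0)
  (PL.C (nat_lit 0xef0e68) (nat_lit 0x0) (nat_lit 0xc74a21cf1482) gp5_0_1))))))))))))))))))))

theorem chk5_0 : eqP (sm (grl (nat_lit 78) (nat_lit 33) (nat_lit 18889465931478580854784) (nat_lit 4) us5 cs5)) gp5_0 = true := by decide +kernel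

noncomputable def gp6_0_24 : PL :=
  (PL.C (nat_lit 0x376b453f5) (nat_lit 0x427691c9ff15) (nat_lit 0x0)
  (PL.C (nat_lit 0x3c7b40669) (nat_lit 0x97bf6bd75a9) (nat_lit 0x0)
  (PL.C (nat_lit 0x3d3ddd92d) (nat_lit 0x0) (nat_lit 0x549a25d05e30)
  (PL.C (nat_lit 0x3e24cef55) (nat_lit 0xf012b1193a) (nat_lit 0x0)
  (PL.C (nat_lit 0x401929093) (nat_lit 0x0) (nat_lit 0x137247032b6f)
  (PL.C (nat_lit 0x42689058b) (nat_lit 0x44fb34063dd2) (nat_lit 0x0)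
  (PL.C (nat_lit 0x4e90cb93b) (nat_lit 0x138e5eb70d03) (nat_lit 0x0)
  (PL.C (nat_lit 0x4f3b146ed) (nat_lit 0x0) (nat_lit 0x2b08b59b67)
  (PL.C (nat_lit 0x578e22965) (nat_lit 0x0) (nat_lit 0x137247032b6f)
  (PL.C (nat_lit 0x5ef127693) (nat_lit 0x138e5eb70d03) (nat_lit 0x0)
  (PL.C (nat_lit 0x70529c2c3) (nat_lit 0x1010e63f8abf) (nat_lit 0x0) PL.Z)))))))))))

noncomputable def gp6_0_23 : PL :=
  (PL.C (nat_lit 0x1f04b377b) (nat_lit 0x90c68e2509cb) (nat_lit 0x0)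
  (PL.C (nat_lit 0x20f9ed767) (nat_lit 0x32d606030d69) (nat_lit 0x0)
  (PL.C (nat_lit 0x2176480df) (nat_lit 0x138d00847542) (nat_lit 0x0)
  (PL.C (nat_lit 0x21a2a2d8d) (nat_lit 0x0) (nat_lit 0x14db8290c48e)
  (PL.C (nat_lit 0x23768d005) (nat_lit 0x90c68e2509cb) (nat_lit 0x0)
  (PL.C (nat_lit 0x23b62dfd5) (nat_lit 0x13a3d16c921) (nat_lit 0x0)
  (PL.C (nat_lit 0x24b779dbf) (nat_lit 0xe86334697ae) (nat_lit 0x0)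
  (PL.C (nat_lit 0x2553a6927) (nat_lit 0x280eca36648f8) (nat_lit 0x0)
  (PL.C (nat_lit 0x27caf435d) (nat_lit 0xf012b1193a) (nat_lit 0x0)
  (PL.C (nat_lit 0x293f9f18f) (nat_lit 0x0) (nat_lit 0x1bffcf8bb2e77)
  (PL.C (nat_lit 0x2aa9a88a7) (nat_lit 0x0) (nat_lit 0x4ced98faabde)
  (PL.C (nat_lit 0x2b77a0c9d) (nat_lit 0x0) (nat_lit 0x14db8290c48e)
  (PL.C (nat_lit 0x2cba81f59) (nat_lit 0x427691c9ff15) (nat_lit 0x0)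
  (PL.C (nat_lit 0x2d36c7e1d) (nat_lit 0x0) (nat_lit 0x1bffcf8bb2e77)
  (PL.C (nat_lit 0x2f252650f) (nat_lit 0x1e31387ed2a2) (nat_lit 0x0)
  (PL.C (nat_lit 0x31f6e4915) (nat_lit 0x2aa201b45c3a8) (nat_lit 0x0)
  (PL.C (nat_lit 0x330e46fcd) (nat_lit 0x97bf6bd75a9) (nat_lit 0x0)
  (PL.C (nat_lit 0x331f63fd9) (nat_lit 0x13a3d16c921) (nat_lit 0x0)
  (PL.C (nat_lit 0x34eab5de9) (nat_lit 0x0) (nat_lit 0x2b08b59b67)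
  (PL.C (nat_lit 0x362e06763) (nat_lit 0x0) (nat_lit 0x549a25d05e30) gp6_0_24))))))))))))))))))))

noncomputable def gp6_0_22 : PL :=
  (PL.C (nat_lit 0x14f5b15a5) (nat_lit 0x1ab6b4f24b1) (nat_lit 0x0)
  (PL.C (nat_lit 0x16040bb8b) (nat_lit 0x11a95a2b76a65) (nat_lit 0x0)
  (PL.C (nat_lit 0x1635f334d) (nat_lit 0x0) (nat_lit 0xeaf0f28c8d0)
  (PL.C (nat_lit 0x164dc5403) (nat_lit 0xc1cda22c27b) (nat_lit 0x0)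
  (PL.C (nat_lit 0x16b60acdb) (nat_lit 0x24361a67b94b) (nat_lit 0x0)
  (PL.C (nat_lit 0x16f8e4995) (nat_lit 0x0) (nat_lit 0xce3d60c4670)
  (PL.C (nat_lit 0x1767ccbb7) (nat_lit 0x0) (nat_lit 0x40544b5f1b2f)
  (PL.C (nat_lit 0x180d987c7) (nat_lit 0x0) (nat_lit 0x4ced98faabde)
  (PL.C (nat_lit 0x18502a0c5) (nat_lit 0xe86334697ae) (nat_lit 0x0)
  (PL.C (nat_lit 0x185893037) (nat_lit 0x3f5c2b50834d) (nat_lit 0x0)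
  (PL.C (nat_lit 0x18a08e92d) (nat_lit 0x32d606030d69) (nat_lit 0x0)
  (PL.C (nat_lit 0x1962c5dcd) (nat_lit 0x22d363ec38d1) (nat_lit 0x0)
  (PL.C (nat_lit 0x19ae96b97) (nat_lit 0x3a9ec15c91c0) (nat_lit 0x0)
  (PL.C (nat_lit 0x1ab909ebd) (nat_lit 0xc1cda22c27b) (nat_lit 0x0)
  (PL.C (nat_lit 0x1ae76761f) (nat_lit 0x24361a67b94b) (nat_lit 0x0)
  (PL.C (nat_lit 0x1b7dd7747) (nat_lit 0x1dee691a7927) (nat_lit 0x0)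
  (PL.C (nat_lit 0x1c11ba4f3) (nat_lit 0x0) (nat_lit 0x172c0041f48d2)
  (PL.C (nat_lit 0x1d22b58fd) (nat_lit 0x1e31387ed2a2) (nat_lit 0x0)
  (PL.C (nat_lit 0x1d46de55f) (nat_lit 0x0) (nat_lit 0x172c0041f48d2)
  (PL.C (nat_lit 0x1dd74cabf) (nat_lit 0x0) (nat_lit 0x42fb76407437) gp6_0_23))))))))))))))))))))

noncomputable def gp6_0_21 : PL :=
  (PL.C (nat_lit 0x10b3c3191) (nat_lit 0x1eca8ecd23f2) (nat_lit 0x0)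
  (PL.C (nat_lit 0x10c5acbff) (nat_lit 0x1ab6b4f24b1) (nat_lit 0x0)
  (PL.C (nat_lit 0x10f77a429) (nat_lit 0x1a8d5348f470d) (nat_lit 0x0)
  (PL.C (nat_lit 0x11266f20b) (nat_lit 0x1acf170515042) (nat_lit 0x0)
  (PL.C (nat_lit 0x114c3a75d) (nat_lit 0x1acf170515042) (nat_lit 0x0)
  (PL.C (nat_lit 0x1162bfe25) (nat_lit 0x0) (nat_lit 0x73894678e2f7)
  (PL.C (nat_lit 0x11d0b147e) (nat_lit 0x0) (nat_lit 0x7314b1b237)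
  (PL.C (nat_lit 0x12049cf3d) (nat_lit 0x69b73cf10e6) (nat_lit 0x0)
  (PL.C (nat_lit 0x12166f013) (nat_lit 0x138d00847542) (nat_lit 0x0)
  (PL.C (nat_lit 0x12b10e445) (nat_lit 0x0) (nat_lit 0x206c671a72f7)
  (PL.C (nat_lit 0x12bfd3f41) (nat_lit 0x3f5c2b50834d) (nat_lit 0x0)
  (PL.C (nat_lit 0x12da3f3d3) (nat_lit 0x0) (nat_lit 0x206c671a72f7)
  (PL.C (nat_lit 0x12f3b7cd3) (nat_lit 0x28d4e7645d0) (nat_lit 0x0)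
  (PL.C (nat_lit 0x1318734ef) (nat_lit 0x1198aff50457f) (nat_lit 0x0)
  (PL.C (nat_lit 0x13c5419dd) (nat_lit 0x0) (nat_lit 0x442bc60cd83b)
  (PL.C (nat_lit 0x141959b15) (nat_lit 0x1a8d5348f470d) (nat_lit 0x0)
  (PL.C (nat_lit 0x1454c6b57) (nat_lit 0x0) (nat_lit 0x42fb76407437)
  (PL.C (nat_lit 0x148d0b475) (nat_lit 0x3a9ec15c91c0) (nat_lit 0x0)
  (PL.C (nat_lit 0x148d43953) (nat_lit 0x0) (nat_lit 0xeaf0f28c8d0)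
  (PL.C (nat_lit 0x14f3ec3cf) (nat_lit 0x28d4e7645d0) (nat_lit 0x0) gp6_0_22))))))))))))))))))))

noncomputable def gp6_0_20 : PL :=
  (PL.C (nat_lit 0xd01f8ae1) (nat_lit 0x0) (nat_lit 0x1532b555194c8)
  (PL.C (nat_lit 0xd12e8349) (nat_lit 0x0) (nat_lit 0xa4a353d499af)
  (PL.C (nat_lit 0xd1c00645) (nat_lit 0x0) (nat_lit 0x940d95e48724)
  (PL.C (nat_lit 0xd3e52873) (nat_lit 0x22d363ec38d1) (nat_lit 0x0)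
  (PL.C (nat_lit 0xd4ec2271) (nat_lit 0x0) (nat_lit 0x194e4493f9f20)
  (PL.C (nat_lit 0xd7396963) (nat_lit 0x0) (nat_lit 0x1532b555194c8)
  (PL.C (nat_lit 0xdd429c65) (nat_lit 0x2166f78150f7) (nat_lit 0x0)
  (PL.C (nat_lit 0xdf920e6e) (nat_lit 0x120ba03b6bb) (nat_lit 0x0)
  (PL.C (nat_lit 0xe1968d95) (nat_lit 0x1198aff50457f) (nat_lit 0x0)
  (PL.C (nat_lit 0xe2d46c0f) (nat_lit 0x134c1b09cb3c) (nat_lit 0x0)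
  (PL.C (nat_lit 0xe63a2e17) (nat_lit 0xe1325005b9e) (nat_lit 0x0)
  (PL.C (nat_lit 0xea91af6d) (nat_lit 0x134c1b09cb3c) (nat_lit 0x0)
  (PL.C (nat_lit 0xede83802) (nat_lit 0x0) (nat_lit 0x7314b1b237)
  (PL.C (nat_lit 0xf1d3cef9) (nat_lit 0x0) (nat_lit 0x194e4493f9f20)
  (PL.C (nat_lit 0xf3feb8ed) (nat_lit 0x0) (nat_lit 0x73894678e2f7)
  (PL.C (nat_lit 0xf49ecee3) (nat_lit 0x0) (nat_lit 0x40544b5f1b2f)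
  (PL.C (nat_lit 0xfbb969ad) (nat_lit 0x1a2b4249e847) (nat_lit 0x0)
  (PL.C (nat_lit 0xfc3b2cbd) (nat_lit 0x0) (nat_lit 0x2ed792c23e437)
  (PL.C (nat_lit 0x1011780dd) (nat_lit 0x1b53da988eea) (nat_lit 0x0)
  (PL.C (nat_lit 0x101e9d2eb) (nat_lit 0x1eca8ecd23f2) (nat_lit 0x0) gp6_0_21))))))))))))))))))))

noncomputable def gp6_0_19 : PL :=
  (PL.C (nat_lit 0xad292c1f) (nat_lit 0xe27fde8a0a1b) (nat_lit 0x0)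
  (PL.C (nat_lit 0xaeee8389) (nat_lit 0x0) (nat_lit 0xce3d60c4670)
  (PL.C (nat_lit 0xb0d2a62b) (nat_lit 0x0) (nat_lit 0x442bc60cd83b)
  (PL.C (nat_lit 0xb10fd019) (nat_lit 0x0) (nat_lit 0x2c0fc621af34a)
  (PL.C (nat_lit 0xb2e732aa) (nat_lit 0x120ba03b6bb) (nat_lit 0x0)
  (PL.C (nat_lit 0xb484420d) (nat_lit 0x20f96e18db6cf) (nat_lit 0x0)
  (PL.C (nat_lit 0xb49381cf) (nat_lit 0x158e7bf9d52d) (nat_lit 0x0)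
  (PL.C (nat_lit 0xb972a96e) (nat_lit 0x994228aacd22) (nat_lit 0x0)
  (PL.C (nat_lit 0xbd4b1f71) (nat_lit 0x5b9c137c7131) (nat_lit 0x0)
  (PL.C (nat_lit 0xbdacb3c1) (nat_lit 0x238fded10a425) (nat_lit 0x0)
  (PL.C (nat_lit 0xbf5ff155) (nat_lit 0x0) (nat_lit 0xa4a353d499af)
  (PL.C (nat_lit 0xc3aa35b1) (nat_lit 0x330c894bb2c42) (nat_lit 0x0)
  (PL.C (nat_lit 0xc56fe815) (nat_lit 0x157c3657624) (nat_lit 0x0)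
  (PL.C (nat_lit 0xc5ea279f) (nat_lit 0x0) (nat_lit 0x1faa6faecd66)
  (PL.C (nat_lit 0xc623ccaf) (nat_lit 0xbc9f44d6bb6) (nat_lit 0x0)
  (PL.C (nat_lit 0xc760982e) (nat_lit 0x0) (nat_lit 0x30935f6bda7b)
  (PL.C (nat_lit 0xc917f7e2) (nat_lit 0x0) (nat_lit 0x30935f6bda7b)
  (PL.C (nat_lit 0xc96e9697) (nat_lit 0x1a2b4249e847) (nat_lit 0x0)
  (PL.C (nat_lit 0xc9a5a8c5) (nat_lit 0x0) (nat_lit 0x6dea236f1e20)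
  (PL.C (nat_lit 0xcc23d69d) (nat_lit 0x0) (nat_lit 0x2ed792c23e437) gp6_0_20))))))))))))))))))))

noncomputable def gp6_0_18 : PL :=
  (PL.C (nat_lit 0x94785ff9) (nat_lit 0x0) (nat_lit 0x1d71a545a93a)
  (PL.C (nat_lit 0x9506e3f7) (nat_lit 0x0) (nat_lit 0x19530eed42f44)
  (PL.C (nat_lit 0x9576237b) (nat_lit 0x2166f78150f7) (nat_lit 0x0)
  (PL.C (nat_lit 0x95c8eb4f) (nat_lit 0x32c59acf0789) (nat_lit 0x0)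
  (PL.C (nat_lit 0x9738480a) (nat_lit 0x34dc9254fa3e) (nat_lit 0x0)
  (PL.C (nat_lit 0x97796b23) (nat_lit 0x157c3657624) (nat_lit 0x0)
  (PL.C (nat_lit 0x98625901) (nat_lit 0x44512b29fafb) (nat_lit 0x0)
  (PL.C (nat_lit 0x997c1eba) (nat_lit 0x0) (nat_lit 0x7ebe0ab4686)
  (PL.C (nat_lit 0x9b3b6f97) (nat_lit 0x39b6d9037eb2) (nat_lit 0x0)
  (PL.C (nat_lit 0x9c611f9e) (nat_lit 0x34dc9254fa3e) (nat_lit 0x0)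
  (PL.C (nat_lit 0x9dfdae4f) (nat_lit 0x5b9c137c7131) (nat_lit 0x0)
  (PL.C (nat_lit 0xa01d6c85) (nat_lit 0x238fded10a425) (nat_lit 0x0)
  (PL.C (nat_lit 0xa1885d23) (nat_lit 0x0) (nat_lit 0x2c0fc621af34a)
  (PL.C (nat_lit 0xa2359a8d) (nat_lit 0xe1325005b9e) (nat_lit 0x0)
  (PL.C (nat_lit 0xa2a9d09e) (nat_lit 0x994228aacd22) (nat_lit 0x0)
  (PL.C (nat_lit 0xa3476a99) (nat_lit 0x44512b29fafb) (nat_lit 0x0)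
  (PL.C (nat_lit 0xa3f68777) (nat_lit 0xbc9f44d6bb6) (nat_lit 0x0)
  (PL.C (nat_lit 0xa483e16d) (nat_lit 0x9e0fc965d9a2) (nat_lit 0x0)
  (PL.C (nat_lit 0xa7d0f11e) (nat_lit 0x0) (nat_lit 0x9086cc7bb1ef)
  (PL.C (nat_lit 0xaa54ab77) (nat_lit 0x2f78366dd89e) (nat_lit 0x0) gp6_0_19))))))))))))))))))))

noncomputable def gp6_0_17 : PL :=
  (PL.C (nat_lit 0x7e3214f6) (nat_lit 0x8e77936fcbd3) (nat_lit 0x0)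
  (PL.C (nat_lit 0x7e4e7227) (nat_lit 0x486c76e5d92c) (nat_lit 0x0)
  (PL.C (nat_lit 0x7f297669) (nat_lit 0xdda1313fdf85a) (nat_lit 0x0)
  (PL.C (nat_lit 0x7f954b8e) (nat_lit 0x0) (nat_lit 0xae3e68a0a323)
  (PL.C (nat_lit 0x7fcf0611) (nat_lit 0x3d50da1ad93e) (nat_lit 0x0)
  (PL.C (nat_lit 0x8236f94b) (nat_lit 0x0) (nat_lit 0x887788373713)
  (PL.C (nat_lit 0x838be17d) (nat_lit 0x69b73cf10e6) (nat_lit 0x0)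
  (PL.C (nat_lit 0x839ff00e) (nat_lit 0x31370503cf25) (nat_lit 0x0)
  (PL.C (nat_lit 0x8417ddca) (nat_lit 0x11f48980bb07) (nat_lit 0x0)
  (PL.C (nat_lit 0x8649b9ba) (nat_lit 0x0) (nat_lit 0x9086cc7bb1ef)
  (PL.C (nat_lit 0x878b38e7) (nat_lit 0x0) (nat_lit 0xd59048f05a66)
  (PL.C (nat_lit 0x87d11817) (nat_lit 0x0) (nat_lit 0x74d96848d520)
  (PL.C (nat_lit 0x885bd6ef) (nat_lit 0x0) (nat_lit 0x940d95e48724)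
  (PL.C (nat_lit 0x89d538bd) (nat_lit 0x20f96e18db6cf) (nat_lit 0x0)
  (PL.C (nat_lit 0x8a977007) (nat_lit 0x0) (nat_lit 0x74f84266b736)
  (PL.C (nat_lit 0x8ae05de1) (nat_lit 0xaa8c39f42923) (nat_lit 0x0)
  (PL.C (nat_lit 0x8b745786) (nat_lit 0x0) (nat_lit 0xae3e68a0a323)
  (PL.C (nat_lit 0x922cbadb) (nat_lit 0xcdc5140f68476) (nat_lit 0x0)
  (PL.C (nat_lit 0x93c14741) (nat_lit 0x0) (nat_lit 0x4462dea5e6e4e)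
  (PL.C (nat_lit 0x93dceaf9) (nat_lit 0x1b53da988eea) (nat_lit 0x0) gp6_0_18))))))))))))))))))))

noncomputable def gp6_0_16 : PL :=
  (PL.C (nat_lit 0x6c94472f) (nat_lit 0xf9963e74858) (nat_lit 0x0)
  (PL.C (nat_lit 0x6d4f04fa) (nat_lit 0x11f48980bb07) (nat_lit 0x0)
  (PL.C (nat_lit 0x6debe9b7) (nat_lit 0x0) (nat_lit 0x5fe9785e4cd28)
  (PL.C (nat_lit 0x6ee82583) (nat_lit 0x32c59acf0789) (nat_lit 0x0)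
  (PL.C (nat_lit 0x6f30e9ad) (nat_lit 0x0) (nat_lit 0x6dea236f1e20)
  (PL.C (nat_lit 0x7010fc03) (nat_lit 0x880de57fcafa) (nat_lit 0x0)
  (PL.C (nat_lit 0x70a2e43b) (nat_lit 0x0) (nat_lit 0x884d5a0c8f49)
  (PL.C (nat_lit 0x711223bf) (nat_lit 0x3d50da1ad93e) (nat_lit 0x0)
  (PL.C (nat_lit 0x72a688b3) (nat_lit 0x0) (nat_lit 0x5fe9785e4cd28)
  (PL.C (nat_lit 0x73a83779) (nat_lit 0x0) (nat_lit 0x5dd184d6bb64)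
  (PL.C (nat_lit 0x73e3d649) (nat_lit 0x0) (nat_lit 0x4c2f14aed7ff9)
  (PL.C (nat_lit 0x74a717ff) (nat_lit 0x718f73fe81b0) (nat_lit 0x0)
  (PL.C (nat_lit 0x76cea33b) (nat_lit 0x0) (nat_lit 0x1d71a545a93a)
  (PL.C (nat_lit 0x7723de0f) (nat_lit 0x4843bde7a0fb) (nat_lit 0x0)
  (PL.C (nat_lit 0x7862568a) (nat_lit 0x0) (nat_lit 0xe49ab8c58c6)
  (PL.C (nat_lit 0x7978739f) (nat_lit 0xaa8c39f42923) (nat_lit 0x0)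
  (PL.C (nat_lit 0x79fab9d1) (nat_lit 0x158e7bf9d52d) (nat_lit 0x0)
  (PL.C (nat_lit 0x7b64ed87) (nat_lit 0xe27fde8a0a1b) (nat_lit 0x0)
  (PL.C (nat_lit 0x7cba6e05) (nat_lit 0x0) (nat_lit 0x19530eed42f44)
  (PL.C (nat_lit 0x7dcd4c13) (nat_lit 0x0) (nat_lit 0x4462dea5e6e4e) gp6_0_17))))))))))))))))))))

noncomputable def gp6_0_15 : PL :=
  (PL.C (nat_lit 0x5d58b62d) (nat_lit 0x0) (nat_lit 0x5dd184d6bb64)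
  (PL.C (nat_lit 0x5e99f94f) (nat_lit 0x0) (nat_lit 0x4c2f14aed7ff9)
  (PL.C (nat_lit 0x5f152467) (nat_lit 0x0) (nat_lit 0xf3f6679bd931)
  (PL.C (nat_lit 0x5f5748ab) (nat_lit 0xb5f1f714af9) (nat_lit 0x0)
  (PL.C (nat_lit 0x60c86cbf) (nat_lit 0x0) (nat_lit 0x887788373713)
  (PL.C (nat_lit 0x61338607) (nat_lit 0x0) (nat_lit 0x146d47bc3bb9b)
  (PL.C (nat_lit 0x613bbc0d) (nat_lit 0xe2af4980c5b) (nat_lit 0x0)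
  (PL.C (nat_lit 0x61d4472d) (nat_lit 0x880de57fcafa) (nat_lit 0x0)
  (PL.C (nat_lit 0x62faeaa6) (nat_lit 0x0) (nat_lit 0x28a7c94a4233)
  (PL.C (nat_lit 0x63db478a) (nat_lit 0x0) (nat_lit 0x38304b6abef)
  (PL.C (nat_lit 0x64fb9cc2) (nat_lit 0x31370503cf25) (nat_lit 0x0)
  (PL.C (nat_lit 0x65ed5fb3) (nat_lit 0xbca390ada973) (nat_lit 0x0)
  (PL.C (nat_lit 0x6621eaa3) (nat_lit 0x16eecfdf4e7e) (nat_lit 0x0)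
  (PL.C (nat_lit 0x668a405b) (nat_lit 0x9e0fc965d9a2) (nat_lit 0x0)
  (PL.C (nat_lit 0x670c46df) (nat_lit 0x0) (nat_lit 0xf3f6679bd931)
  (PL.C (nat_lit 0x671abcc1) (nat_lit 0x486c76e5d92c) (nat_lit 0x0)
  (PL.C (nat_lit 0x6953c98a) (nat_lit 0x8e77936fcbd3) (nat_lit 0x0)
  (PL.C (nat_lit 0x6a4ff31f) (nat_lit 0x16e3d1453ed3) (nat_lit 0x0)
  (PL.C (nat_lit 0x6ab0d0ad) (nat_lit 0x32efa4cf0024) (nat_lit 0x0)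
  (PL.C (nat_lit 0x6c23bc5e) (nat_lit 0x0) (nat_lit 0x7ebe0ab4686) gp6_0_16))))))))))))))))))))

noncomputable def gp6_0_14 : PL :=
  (PL.C (nat_lit 0x505fbfe5) (nat_lit 0x2f78366dd89e) (nat_lit 0x0)
  (PL.C (nat_lit 0x5151d136) (nat_lit 0x0) (nat_lit 0xe49ab8c58c6)
  (PL.C (nat_lit 0x520d9263) (nat_lit 0x0) (nat_lit 0xa1ff82dc4f42)
  (PL.C (nat_lit 0x53962865) (nat_lit 0x3dfbf197560) (nat_lit 0x0)
  (PL.C (nat_lit 0x54344c1a) (nat_lit 0x0) (nat_lit 0x2771422ee200)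
  (PL.C (nat_lit 0x54e6ad7d) (nat_lit 0x14281b8c831d4) (nat_lit 0x0)
  (PL.C (nat_lit 0x5512718d) (nat_lit 0x8bdcd86095cc) (nat_lit 0x0)
  (PL.C (nat_lit 0x5534aeb6) (nat_lit 0x0) (nat_lit 0x47473032f783)
  (PL.C (nat_lit 0x560adfbf) (nat_lit 0x8bdcd86095cc) (nat_lit 0x0)
  (PL.C (nat_lit 0x56373a6f) (nat_lit 0x8d69b212a53c5) (nat_lit 0x0)
  (PL.C (nat_lit 0x56fd109b) (nat_lit 0x0) (nat_lit 0x884d5a0c8f49)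
  (PL.C (nat_lit 0x57b8aaab) (nat_lit 0x0) (nat_lit 0xd43058cd95b6)
  (PL.C (nat_lit 0x5895c827) (nat_lit 0x0) (nat_lit 0x2d2e8c7f5a78)
  (PL.C (nat_lit 0x5a5cd09a) (nat_lit 0x0) (nat_lit 0x13374f2d3bad9)
  (PL.C (nat_lit 0x5ab6e041) (nat_lit 0x26abf38ccd78) (nat_lit 0x0)
  (PL.C (nat_lit 0x5b8f5bb9) (nat_lit 0x0) (nat_lit 0xd59048f05a66)
  (PL.C (nat_lit 0x5bb77005) (nat_lit 0x0) (nat_lit 0x8e4432ad284)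
  (PL.C (nat_lit 0x5c64f55a) (nat_lit 0x7d45e8631ba2) (nat_lit 0x0)
  (PL.C (nat_lit 0x5c8cc1bb) (nat_lit 0x718f73fe81b0) (nat_lit 0x0)
  (PL.C (nat_lit 0x5cca78d3) (nat_lit 0x0) (nat_lit 0x74d96848d520) gp6_0_15))))))))))))))))))))

noncomputable def gp6_0_13 : PL :=
  (PL.C (nat_lit 0x47d06681) (nat_lit 0xbca390ada973) (nat_lit 0x0)
  (PL.C (nat_lit 0x48972693) (nat_lit 0x0) (nat_lit 0xd43058cd95b6)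
  (PL.C (nat_lit 0x48c78e6b) (nat_lit 0x16eecfdf4e7e) (nat_lit 0x0)
  (PL.C (nat_lit 0x48fc3255) (nat_lit 0x122ddc3bd0c73) (nat_lit 0x0)
  (PL.C (nat_lit 0x4921d1e5) (nat_lit 0x6c9b89ee5f78) (nat_lit 0x0)
  (PL.C (nat_lit 0x496c876d) (nat_lit 0xb5f1f714af9) (nat_lit 0x0)
  (PL.C (nat_lit 0x49f01902) (nat_lit 0x0) (nat_lit 0x38304b6abef)
  (PL.C (nat_lit 0x4a37bc17) (nat_lit 0x0) (nat_lit 0xa1ff82dc4f42)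
  (PL.C (nat_lit 0x4a8754d9) (nat_lit 0x32efa4cf0024) (nat_lit 0x0)
  (PL.C (nat_lit 0x4ac79503) (nat_lit 0x0) (nat_lit 0x3be9cb4cb8e6)
  (PL.C (nat_lit 0x4b1742d2) (nat_lit 0x189202601252) (nat_lit 0x0)
  (PL.C (nat_lit 0x4b616d2a) (nat_lit 0x0) (nat_lit 0x47473032f783)
  (PL.C (nat_lit 0x4d1acfa6) (nat_lit 0x45e9ebb0517b) (nat_lit 0x0)
  (PL.C (nat_lit 0x4dc4baaa) (nat_lit 0x12af714406476) (nat_lit 0x0)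
  (PL.C (nat_lit 0x4eb59fb1) (nat_lit 0x281f6c7da012c) (nat_lit 0x0)
  (PL.C (nat_lit 0x4f346cd2) (nat_lit 0x0) (nat_lit 0x28a7c94a4233)
  (PL.C (nat_lit 0x4f83b027) (nat_lit 0x0) (nat_lit 0x1faa6faecd66)
  (PL.C (nat_lit 0x4f8f7523) (nat_lit 0x12057ceb3da36) (nat_lit 0x0)
  (PL.C (nat_lit 0x4ff20c4b) (nat_lit 0x0) (nat_lit 0x1efb9455b23b)
  (PL.C (nat_lit 0x503ec985) (nat_lit 0x5ac1f52995db) (nat_lit 0x0) gp6_0_14))))))))))))))))))))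

noncomputable def gp6_0_12 : PL :=
  (PL.C (nat_lit 0x3ed0209d) (nat_lit 0x0) (nat_lit 0x19a52f10bd4ca)
  (PL.C (nat_lit 0x3f636d9a) (nat_lit 0x2df2f71444a) (nat_lit 0x0)
  (PL.C (nat_lit 0x3fd83381) (nat_lit 0x0) (nat_lit 0xb72521e2b7d0)
  (PL.C (nat_lit 0x3ff91cd1) (nat_lit 0x0) (nat_lit 0x221f35586d21)
  (PL.C (nat_lit 0x40d27d5e) (nat_lit 0x396c2fc208c) (nat_lit 0x0)
  (PL.C (nat_lit 0x42716c35) (nat_lit 0x281f6c7da012c) (nat_lit 0x0)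
  (PL.C (nat_lit 0x42975a65) (nat_lit 0x0) (nat_lit 0xb72521e2b7d0)
  (PL.C (nat_lit 0x43294eef) (nat_lit 0x5daa90c44b812) (nat_lit 0x0)
  (PL.C (nat_lit 0x437c88b7) (nat_lit 0x0) (nat_lit 0x221f35586d21)
  (PL.C (nat_lit 0x43bd5059) (nat_lit 0x5daa90c44b812) (nat_lit 0x0)
  (PL.C (nat_lit 0x43efe195) (nat_lit 0x4843bde7a0fb) (nat_lit 0x0)
  (PL.C (nat_lit 0x43f39522) (nat_lit 0x148d0963cde77) (nat_lit 0x0)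
  (PL.C (nat_lit 0x4478c99b) (nat_lit 0x0) (nat_lit 0x323718701ec)
  (PL.C (nat_lit 0x44b2d9ea) (nat_lit 0x2df2f71444a) (nat_lit 0x0)
  (PL.C (nat_lit 0x44bc7dd6) (nat_lit 0x0) (nat_lit 0x2771422ee200)
  (PL.C (nat_lit 0x44d1ef93) (nat_lit 0x0) (nat_lit 0x1600df0b8932)
  (PL.C (nat_lit 0x44da196d) (nat_lit 0x16e3d1453ed3) (nat_lit 0x0)
  (PL.C (nat_lit 0x463205f1) (nat_lit 0x26abf38ccd78) (nat_lit 0x0)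
  (PL.C (nat_lit 0x46dff76a) (nat_lit 0x70d3041a64e1) (nat_lit 0x0)
  (PL.C (nat_lit 0x47208b1e) (nat_lit 0x0) (nat_lit 0x1646bb0c4102) gp6_0_13))))))))))))))))))))

noncomputable def gp6_0_11 : PL :=
  (PL.C (nat_lit 0x3899c8fe) (nat_lit 0x9f07b29ce996) (nat_lit 0x0)
  (PL.C (nat_lit 0x38b1d4eb) (nat_lit 0x5ac1f52995db) (nat_lit 0x0)
  (PL.C (nat_lit 0x38b6f65e) (nat_lit 0x0) (nat_lit 0x1bf1845c4b44)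
  (PL.C (nat_lit 0x392ec57d) (nat_lit 0x12057ceb3da36) (nat_lit 0x0)
  (PL.C (nat_lit 0x393ebdfd) (nat_lit 0x0) (nat_lit 0xbdc6339634d4)
  (PL.C (nat_lit 0x395c952a) (nat_lit 0x0) (nat_lit 0x1bf1845c4b44)
  (PL.C (nat_lit 0x39cd0747) (nat_lit 0x0) (nat_lit 0x323718701ec)
  (PL.C (nat_lit 0x39fe0b12) (nat_lit 0x189202601252) (nat_lit 0x0)
  (PL.C (nat_lit 0x3a7b1c72) (nat_lit 0x0) (nat_lit 0x1fcaa973e63d4)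
  (PL.C (nat_lit 0x3b3042c5) (nat_lit 0x0) (nat_lit 0x37b42b80bda64)
  (PL.C (nat_lit 0x3bcb37f3) (nat_lit 0x39b6d9037eb2) (nat_lit 0x0)
  (PL.C (nat_lit 0x3c57ea29) (nat_lit 0x5043be035246) (nat_lit 0x0)
  (PL.C (nat_lit 0x3c79ead6) (nat_lit 0x0) (nat_lit 0x28e13033b630)
  (PL.C (nat_lit 0x3d0a3d26) (nat_lit 0x0) (nat_lit 0x13374f2d3bad9)
  (PL.C (nat_lit 0x3db32bd2) (nat_lit 0x12af714406476) (nat_lit 0x0)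
  (PL.C (nat_lit 0x3dbc2239) (nat_lit 0x0) (nat_lit 0x10ec04cac3090)
  (PL.C (nat_lit 0x3e3b241e) (nat_lit 0x45e9ebb0517b) (nat_lit 0x0)
  (PL.C (nat_lit 0x3e46e2cb) (nat_lit 0xc98be1b2c14a) (nat_lit 0x0)
  (PL.C (nat_lit 0x3e66fd3b) (nat_lit 0x0) (nat_lit 0x420e8f9606664)
  (PL.C (nat_lit 0x3ea6bcb3) (nat_lit 0x0) (nat_lit 0x146d47bc3bb9b) gp6_0_12))))))))))))))))))))

noncomputable def gp6_0_10 : PL :=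
  (PL.C (nat_lit 0x2fe04456) (nat_lit 0x148d0963cde77) (nat_lit 0x0)
  (PL.C (nat_lit 0x3064c462) (nat_lit 0x0) (nat_lit 0x1fcaa973e63d4)
  (PL.C (nat_lit 0x30a8218e) (nat_lit 0xc3e64c87058) (nat_lit 0x0)
  (PL.C (nat_lit 0x30d8a023) (nat_lit 0x973e97393b24) (nat_lit 0x0)
  (PL.C (nat_lit 0x31af8de6) (nat_lit 0x0) (nat_lit 0x1646bb0c4102)
  (PL.C (nat_lit 0x31f6de99) (nat_lit 0x0) (nat_lit 0x10ec04cac3090)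
  (PL.C (nat_lit 0x32136489) (nat_lit 0x1177af0231d1c) (nat_lit 0x0)
  (PL.C (nat_lit 0x328a98c3) (nat_lit 0xf9963e74858) (nat_lit 0x0)
  (PL.C (nat_lit 0x32f0728d) (nat_lit 0x0) (nat_lit 0x30b7421f72d15)
  (PL.C (nat_lit 0x3332c4d5) (nat_lit 0x0) (nat_lit 0xd7cff1cedb06)
  (PL.C (nat_lit 0x33655611) (nat_lit 0x0) (nat_lit 0x1600df0b8932)
  (PL.C (nat_lit 0x341d26dd) (nat_lit 0x0) (nat_lit 0x37b42b80bda64)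
  (PL.C (nat_lit 0x34ad6167) (nat_lit 0x0) (nat_lit 0x30b7421f72d15)
  (PL.C (nat_lit 0x354c0832) (nat_lit 0x0) (nat_lit 0x9a90a1dac888)
  (PL.C (nat_lit 0x3598e183) (nat_lit 0x0) (nat_lit 0x16f8fa7603120)
  (PL.C (nat_lit 0x3600d5d5) (nat_lit 0x0) (nat_lit 0x1efb9455b23b)
  (PL.C (nat_lit 0x36e24739) (nat_lit 0x0) (nat_lit 0xf085dfd02c18)
  (PL.C (nat_lit 0x36fe9209) (nat_lit 0x0) (nat_lit 0x57f9d85cd2d0)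
  (PL.C (nat_lit 0x3736c031) (nat_lit 0x0) (nat_lit 0x3be9cb4cb8e6)
  (PL.C (nat_lit 0x3771f75f) (nat_lit 0xe2af4980c5b) (nat_lit 0x0) gp6_0_11))))))))))))))))))))

noncomputable def gp6_0_9 : PL :=
  (PL.C (nat_lit 0x2a116f55) (nat_lit 0x0) (nat_lit 0x19a52f10bd4ca)
  (PL.C (nat_lit 0x2a2d7cbd) (nat_lit 0x6c9b89ee5f78) (nat_lit 0x0)
  (PL.C (nat_lit 0x2a6e2443) (nat_lit 0xc98be1b2c14a) (nat_lit 0x0)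
  (PL.C (nat_lit 0x2a902256) (nat_lit 0x0) (nat_lit 0xb2adc81155fd)
  (PL.C (nat_lit 0x2aa61336) (nat_lit 0x224a609fb1e8) (nat_lit 0x0)
  (PL.C (nat_lit 0x2ae391f9) (nat_lit 0x0) (nat_lit 0x16f8fa7603120)
  (PL.C (nat_lit 0x2b002b81) (nat_lit 0x0) (nat_lit 0x420e8f9606664)
  (PL.C (nat_lit 0x2b0c2e01) (nat_lit 0xd63b4c2aa8dc) (nat_lit 0x0)
  (PL.C (nat_lit 0x2c2eb149) (nat_lit 0x208f47811a5fe) (nat_lit 0x0)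
  (PL.C (nat_lit 0x2c64e6ee) (nat_lit 0x0) (nat_lit 0xb2adc81155fd)
  (PL.C (nat_lit 0x2c77c343) (nat_lit 0x5043be035246) (nat_lit 0x0)
  (PL.C (nat_lit 0x2cfdb07a) (nat_lit 0x224a609fb1e8) (nat_lit 0x0)
  (PL.C (nat_lit 0x2de14a62) (nat_lit 0x2b4c9aca9821) (nat_lit 0x0)
  (PL.C (nat_lit 0x2de6bb9e) (nat_lit 0x70d3041a64e1) (nat_lit 0x0)
  (PL.C (nat_lit 0x2e549fdd) (nat_lit 0x0) (nat_lit 0x10dd5dc89093f)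
  (PL.C (nat_lit 0x2e6c81ed) (nat_lit 0x4ffacc5bf227e) (nat_lit 0x0)
  (PL.C (nat_lit 0x2e9beeb5) (nat_lit 0x0) (nat_lit 0x2d2e8c7f5a78)
  (PL.C (nat_lit 0x2ecc03f6) (nat_lit 0x0) (nat_lit 0x28e13033b630)
  (PL.C (nat_lit 0x2ed708f1) (nat_lit 0x0) (nat_lit 0xd7cff1cedb06)
  (PL.C (nat_lit 0x2f3c0d21) (nat_lit 0xc7db22f74d59) (nat_lit 0x0) gp6_0_10))))))))))))))))))))

noncomputable def gp6_0_8 : PL :=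
  (PL.C (nat_lit 0x24008e8e) (nat_lit 0x0) (nat_lit 0x9a90a1dac888)
  (PL.C (nat_lit 0x2429ef6d) (nat_lit 0x0) (nat_lit 0x5d67235c2af97)
  (PL.C (nat_lit 0x2456bfc5) (nat_lit 0x0) (nat_lit 0x86d7c552545b)
  (PL.C (nat_lit 0x2479a16b) (nat_lit 0x0) (nat_lit 0x51f8f61056880)
  (PL.C (nat_lit 0x24889d0b) (nat_lit 0x0) (nat_lit 0x8e4432ad284)
  (PL.C (nat_lit 0x2496da26) (nat_lit 0x1739f391af3c) (nat_lit 0x0)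
  (PL.C (nat_lit 0x24de93f1) (nat_lit 0x20d7d47fe63cb) (nat_lit 0x0)
  (PL.C (nat_lit 0x24f6a4ea) (nat_lit 0x396c2fc208c) (nat_lit 0x0)
  (PL.C (nat_lit 0x25bbdb54) (nat_lit 0x1c06238cad7d8) (nat_lit 0x0)
  (PL.C (nat_lit 0x2629d3fe) (nat_lit 0x0) (nat_lit 0xac1165f908a8)
  (PL.C (nat_lit 0x26ab4ae3) (nat_lit 0x0) (nat_lit 0x10dd5dc89093f)
  (PL.C (nat_lit 0x27023409) (nat_lit 0xfe553b6b4b7d) (nat_lit 0x0)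
  (PL.C (nat_lit 0x27164fd9) (nat_lit 0x16c0edefdb494) (nat_lit 0x0)
  (PL.C (nat_lit 0x27306061) (nat_lit 0x4ffacc5bf227e) (nat_lit 0x0)
  (PL.C (nat_lit 0x27582aef) (nat_lit 0xfe553b6b4b7d) (nat_lit 0x0)
  (PL.C (nat_lit 0x27df9365) (nat_lit 0x16c0edefdb494) (nat_lit 0x0)
  (PL.C (nat_lit 0x28441529) (nat_lit 0x0) (nat_lit 0x86a02d49c4f0)
  (PL.C (nat_lit 0x29849732) (nat_lit 0x0) (nat_lit 0x1e7774d0a0588)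
  (PL.C (nat_lit 0x299e40f7) (nat_lit 0x122ddc3bd0c73) (nat_lit 0x0)
  (PL.C (nat_lit 0x29e015be) (nat_lit 0x65da39887f68) (nat_lit 0x0) gp6_0_9))))))))))))))))))))

noncomputable def gp6_0_7 : PL :=
  (PL.C (nat_lit 0x1f1fa175) (nat_lit 0x1c208c4a5ffccc) (nat_lit 0x0)
  (PL.C (nat_lit 0x1f3a05f6) (nat_lit 0x31ee76e2dbab) (nat_lit 0x0)
  (PL.C (nat_lit 0x1f4bdd03) (nat_lit 0x0) (nat_lit 0xbdc6339634d4)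
  (PL.C (nat_lit 0x1f7d5e16) (nat_lit 0x0) (nat_lit 0x8c2a65bd9122)
  (PL.C (nat_lit 0x1fe8313f) (nat_lit 0x973e97393b24) (nat_lit 0x0)
  (PL.C (nat_lit 0x20906ac2) (nat_lit 0x0) (nat_lit 0xd33187c9b3aa)
  (PL.C (nat_lit 0x20a48baf) (nat_lit 0x0) (nat_lit 0xf085dfd02c18)
  (PL.C (nat_lit 0x20fee2fd) (nat_lit 0xc7db22f74d59) (nat_lit 0x0)
  (PL.C (nat_lit 0x2114e3a5) (nat_lit 0x0) (nat_lit 0x57f9d85cd2d0)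
  (PL.C (nat_lit 0x213deb0b) (nat_lit 0x1313135d335e0) (nat_lit 0x0)
  (PL.C (nat_lit 0x21624306) (nat_lit 0xea362a4daa5e) (nat_lit 0x0)
  (PL.C (nat_lit 0x2188a181) (nat_lit 0x0) (nat_lit 0x4e0bec12e91)
  (PL.C (nat_lit 0x2199ead1) (nat_lit 0x4e2d5e9903b8) (nat_lit 0x0)
  (PL.C (nat_lit 0x21bc3e39) (nat_lit 0x208f47811a5fe) (nat_lit 0x0)
  (PL.C (nat_lit 0x21d287b7) (nat_lit 0x199baef1cb500) (nat_lit 0x0)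
  (PL.C (nat_lit 0x2221d88e) (nat_lit 0x31ee76e2dbab) (nat_lit 0x0)
  (PL.C (nat_lit 0x22438eb6) (nat_lit 0x2b4c9aca9821) (nat_lit 0x0)
  (PL.C (nat_lit 0x23bb4102) (nat_lit 0x2e9756985a9c4) (nat_lit 0x0)
  (PL.C (nat_lit 0x23c6eb7f) (nat_lit 0xb0fc4ce79cd13) (nat_lit 0x0)
  (PL.C (nat_lit 0x23db580f) (nat_lit 0x0) (nat_lit 0x1f79e6cbdf96) gp6_0_8))))))))))))))))))))

noncomputable def gp6_0_6 : PL :=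
  (PL.C (nat_lit 0x1b2dd39d) (nat_lit 0x3dfbf197560) (nat_lit 0x0)
  (PL.C (nat_lit 0x1b6dc787) (nat_lit 0x88ca023082b4) (nat_lit 0x0)
  (PL.C (nat_lit 0x1bbed5fa) (nat_lit 0xc3e64c87058) (nat_lit 0x0)
  (PL.C (nat_lit 0x1c0b9f8e) (nat_lit 0x65da39887f68) (nat_lit 0x0)
  (PL.C (nat_lit 0x1c0fb277) (nat_lit 0x0) (nat_lit 0x78ca2a4af87a6)
  (PL.C (nat_lit 0x1c496d82) (nat_lit 0x0) (nat_lit 0x1e7774d0a0588)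
  (PL.C (nat_lit 0x1c5d5bd5) (nat_lit 0x0) (nat_lit 0x718d58e788454)
  (PL.C (nat_lit 0x1c6016e4) (nat_lit 0x0) (nat_lit 0x19bdc706820ef)
  (PL.C (nat_lit 0x1c97b6a6) (nat_lit 0x2e9756985a9c4) (nat_lit 0x0)
  (PL.C (nat_lit 0x1cb2c956) (nat_lit 0x6adddc2091ba) (nat_lit 0x0)
  (PL.C (nat_lit 0x1cdc2aa9) (nat_lit 0x2acbe4ea8a0e) (nat_lit 0x0)
  (PL.C (nat_lit 0x1d052eaf) (nat_lit 0x0) (nat_lit 0x1f79e6cbdf96)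
  (PL.C (nat_lit 0x1d14245f) (nat_lit 0x0) (nat_lit 0x86d7c552545b)
  (PL.C (nat_lit 0x1d96245b) (nat_lit 0x0) (nat_lit 0xa4662769c24e)
  (PL.C (nat_lit 0x1d9899f4) (nat_lit 0x0) (nat_lit 0x19bdc706820ef)
  (PL.C (nat_lit 0x1e8723e1) (nat_lit 0x0) (nat_lit 0x51f8f61056880)
  (PL.C (nat_lit 0x1e989151) (nat_lit 0x0) (nat_lit 0xa4662769c24e)
  (PL.C (nat_lit 0x1eca6a57) (nat_lit 0x0) (nat_lit 0x5d67235c2af97)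
  (PL.C (nat_lit 0x1ed303d7) (nat_lit 0x0) (nat_lit 0x4a1d14c7bde0)
  (PL.C (nat_lit 0x1ee3153e) (nat_lit 0x3f72346ebd14) (nat_lit 0x0) gp6_0_7))))))))))))))))))))

noncomputable def gp6_0_5 : PL :=
  (PL.C (nat_lit 0x16c2ff27) (nat_lit 0x75ea9ad11b5c) (nat_lit 0x0)
  (PL.C (nat_lit 0x172779e3) (nat_lit 0x0) (nat_lit 0x718d58e788454)
  (PL.C (nat_lit 0x172df163) (nat_lit 0x4ebecfea5280) (nat_lit 0x0)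
  (PL.C (nat_lit 0x17e7900a) (nat_lit 0xa091530e3be9) (nat_lit 0x0)
  (PL.C (nat_lit 0x17f1b7e9) (nat_lit 0x88ca023082b4) (nat_lit 0x0)
  (PL.C (nat_lit 0x1839d52e) (nat_lit 0x9df5f9aba2b0) (nat_lit 0x0)
  (PL.C (nat_lit 0x188c041b) (nat_lit 0xd63b4c2aa8dc) (nat_lit 0x0)
  (PL.C (nat_lit 0x18f27d77) (nat_lit 0x5f6fbbe9b579) (nat_lit 0x0)
  (PL.C (nat_lit 0x18ff59a7) (nat_lit 0x0) (nat_lit 0xf9ffdc7a50e0)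
  (PL.C (nat_lit 0x1918e2ff) (nat_lit 0x0) (nat_lit 0x86a02d49c4f0)
  (PL.C (nat_lit 0x196f1ac3) (nat_lit 0x0) (nat_lit 0x11c8ec6db4c98)
  (PL.C (nat_lit 0x19c78742) (nat_lit 0x3f72346ebd14) (nat_lit 0x0)
  (PL.C (nat_lit 0x1a017806) (nat_lit 0x0) (nat_lit 0xaf651c16d94a)
  (PL.C (nat_lit 0x1a0edfe6) (nat_lit 0x0) (nat_lit 0x195b944792fe9)
  (PL.C (nat_lit 0x1a3ac74a) (nat_lit 0x0) (nat_lit 0xaf651c16d94a)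
  (PL.C (nat_lit 0x1a45ec09) (nat_lit 0x20d7d47fe63cb) (nat_lit 0x0)
  (PL.C (nat_lit 0x1a4d4289) (nat_lit 0xacbb9bd83ec4) (nat_lit 0x0)
  (PL.C (nat_lit 0x1a950cee) (nat_lit 0x0) (nat_lit 0x195b944792fe9)
  (PL.C (nat_lit 0x1ae7642b) (nat_lit 0x0) (nat_lit 0x78ca2a4af87a6)
  (PL.C (nat_lit 0x1af6bffb) (nat_lit 0x75ea9ad11b5c) (nat_lit 0x0) gp6_0_6))))))))))))))))))))

noncomputable def gp6_0_4 : PL :=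
  (PL.C (nat_lit 0x133d71c6) (nat_lit 0x0) (nat_lit 0x7661b14a2c96)
  (PL.C (nat_lit 0x1349564d) (nat_lit 0x0) (nat_lit 0x4e0bec12e91)
  (PL.C (nat_lit 0x1358c9ca) (nat_lit 0xa091530e3be9) (nat_lit 0x0)
  (PL.C (nat_lit 0x1362c2ea) (nat_lit 0x9df5f9aba2b0) (nat_lit 0x0)
  (PL.C (nat_lit 0x137eb6b7) (nat_lit 0x2acbe4ea8a0e) (nat_lit 0x0)
  (PL.C (nat_lit 0x138bb6af) (nat_lit 0x4e2d5e9903b8) (nat_lit 0x0)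
  (PL.C (nat_lit 0x13912c2f) (nat_lit 0x0) (nat_lit 0xe958a553b464)
  (PL.C (nat_lit 0x13b96d92) (nat_lit 0x7c709435610a) (nat_lit 0x0)
  (PL.C (nat_lit 0x1465b636) (nat_lit 0x7c709435610a) (nat_lit 0x0)
  (PL.C (nat_lit 0x148cad3a) (nat_lit 0x0) (nat_lit 0x154bdad3c618)
  (PL.C (nat_lit 0x14dd3e02) (nat_lit 0x0) (nat_lit 0xac1165f908a8)
  (PL.C (nat_lit 0x151a0c83) (nat_lit 0xe4c0c150fd978) (nat_lit 0x0)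
  (PL.C (nat_lit 0x1545762a) (nat_lit 0x0) (nat_lit 0xd33187c9b3aa)
  (PL.C (nat_lit 0x1578630f) (nat_lit 0x0) (nat_lit 0x16aca4b0a815b)
  (PL.C (nat_lit 0x15c307ca) (nat_lit 0x1739f391af3c) (nat_lit 0x0)
  (PL.C (nat_lit 0x15ff41fe) (nat_lit 0x0) (nat_lit 0x8c2a65bd9122)
  (PL.C (nat_lit 0x16418204) (nat_lit 0x2232bede47e3b) (nat_lit 0x0)
  (PL.C (nat_lit 0x165b1656) (nat_lit 0xeb4403c24d6e) (nat_lit 0x0)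
  (PL.C (nat_lit 0x168c5a7a) (nat_lit 0x1df72dcefd75) (nat_lit 0x0)
  (PL.C (nat_lit 0x16b60817) (nat_lit 0x1313135d335e0) (nat_lit 0x0) gp6_0_5))))))))))))))))))))

noncomputable def gp6_0_3 : PL :=
  (PL.C (nat_lit 0xf45f65f) (nat_lit 0x0) (nat_lit 0x81f379a34ae8)
  (PL.C (nat_lit 0xf73f642) (nat_lit 0x0) (nat_lit 0xe8cf671c50)
  (PL.C (nat_lit 0xf8a3e5b) (nat_lit 0xd689b79381f2) (nat_lit 0x0)
  (PL.C (nat_lit 0xfefb55c) (nat_lit 0x0) (nat_lit 0xa8eb5fa13527)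
  (PL.C (nat_lit 0x105d5812) (nat_lit 0x6adddc2091ba) (nat_lit 0x0)
  (PL.C (nat_lit 0x10702703) (nat_lit 0x4ff733cb8bb52) (nat_lit 0x0)
  (PL.C (nat_lit 0x10798953) (nat_lit 0x0) (nat_lit 0x274947575d6b3)
  (PL.C (nat_lit 0x109460a5) (nat_lit 0x4ff733cb8bb52) (nat_lit 0x0)
  (PL.C (nat_lit 0x10a1a8fa) (nat_lit 0x0) (nat_lit 0x44480988c698)
  (PL.C (nat_lit 0x10c2433f) (nat_lit 0x0) (nat_lit 0x50b6de4c560c5)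
  (PL.C (nat_lit 0x10f4bc82) (nat_lit 0x1072bb7b4f76) (nat_lit 0x0)
  (PL.C (nat_lit 0x11565004) (nat_lit 0x1b4f97fb95828) (nat_lit 0x0)
  (PL.C (nat_lit 0x117c84dc) (nat_lit 0x1b4f97fb95828) (nat_lit 0x0)
  (PL.C (nat_lit 0x1188d706) (nat_lit 0x0) (nat_lit 0x1d7de412faea2)
  (PL.C (nat_lit 0x1193adad) (nat_lit 0x5f6fbbe9b579) (nat_lit 0x0)
  (PL.C (nat_lit 0x11c452d7) (nat_lit 0x0) (nat_lit 0x16aca4b0a815b)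
  (PL.C (nat_lit 0x11d02bcf) (nat_lit 0x0) (nat_lit 0xf9ffdc7a50e0)
  (PL.C (nat_lit 0x11f9d552) (nat_lit 0x0) (nat_lit 0x87a73db3bfcf)
  (PL.C (nat_lit 0x1213c0b3) (nat_lit 0x430e72a9fa127) (nat_lit 0x0)
  (PL.C (nat_lit 0x131f329b) (nat_lit 0x199baef1cb500) (nat_lit 0x0) gp6_0_4))))))))))))))))))))

noncomputable def gp6_0_2 : PL :=
  (PL.C (nat_lit 0xc419d15) (nat_lit 0x30428b77cc756) (nat_lit 0x0)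
  (PL.C (nat_lit 0xc77b7c9) (nat_lit 0x0) (nat_lit 0x5e052b8ef793c)
  (PL.C (nat_lit 0xcbf7712) (nat_lit 0x1df72dcefd75) (nat_lit 0x0)
  (PL.C (nat_lit 0xcdb8ede) (nat_lit 0xeb4403c24d6e) (nat_lit 0x0)
  (PL.C (nat_lit 0xce49e1b) (nat_lit 0x0) (nat_lit 0x5e052b8ef793c)
  (PL.C (nat_lit 0xce5dbdc) (nat_lit 0x0) (nat_lit 0xa8eb5fa13527)
  (PL.C (nat_lit 0xcff247a) (nat_lit 0x0) (nat_lit 0x7661b14a2c96)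
  (PL.C (nat_lit 0xd0b72ca) (nat_lit 0x7956869ead5e) (nat_lit 0x0)
  (PL.C (nat_lit 0xd26490c) (nat_lit 0x0) (nat_lit 0x1788d10c11254)
  (PL.C (nat_lit 0xd37b371) (nat_lit 0x0) (nat_lit 0xe958a553b464)
  (PL.C (nat_lit 0xd72cab5) (nat_lit 0x0) (nat_lit 0x274947575d6b3)
  (PL.C (nat_lit 0xd992424) (nat_lit 0x0) (nat_lit 0x1788d10c11254)
  (PL.C (nat_lit 0xe25a67b) (nat_lit 0x0) (nat_lit 0x50b6de4c560c5)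
  (PL.C (nat_lit 0xe2999fb) (nat_lit 0x0) (nat_lit 0xd35cfd7f88b0)
  (PL.C (nat_lit 0xe39c18d) (nat_lit 0x0) (nat_lit 0x4a1d14c7bde0)
  (PL.C (nat_lit 0xe50420a) (nat_lit 0x0) (nat_lit 0xe6495fb6ffab)
  (PL.C (nat_lit 0xe80d091) (nat_lit 0xacbb9bd83ec4) (nat_lit 0x0)
  (PL.C (nat_lit 0xeff7e73) (nat_lit 0x0) (nat_lit 0x11c8ec6db4c98)
  (PL.C (nat_lit 0xf1c2505) (nat_lit 0x0) (nat_lit 0x885c6aeb0ad0)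
  (PL.C (nat_lit 0xf2caa1a) (nat_lit 0x0) (nat_lit 0x87a73db3bfcf) gp6_0_3))))))))))))))))))))

noncomputable def gp6_0_1 : PL :=
  (PL.C (nat_lit 0x8dc8199) (nat_lit 0xd689b79381f2) (nat_lit 0x0)
  (PL.C (nat_lit 0x8f731ce) (nat_lit 0x348a4481a2ae9) (nat_lit 0x0)
  (PL.C (nat_lit 0x9711152) (nat_lit 0x3c2b8d424f00) (nat_lit 0x0)
  (PL.C (nat_lit 0x97bd65e) (nat_lit 0x0) (nat_lit 0x154bdad3c618)
  (PL.C (nat_lit 0x9977a0d) (nat_lit 0x15db37cc590a0) (nat_lit 0x0)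
  (PL.C (nat_lit 0x9ab35b6) (nat_lit 0x0) (nat_lit 0x1d7de412faea2)
  (PL.C (nat_lit 0x9ffa9a2) (nat_lit 0x1072bb7b4f76) (nat_lit 0x0)
  (PL.C (nat_lit 0xa1dc6bc) (nat_lit 0xcec9570c044c) (nat_lit 0x0)
  (PL.C (nat_lit 0xa5c2992) (nat_lit 0xc0a0b668c880) (nat_lit 0x0)
  (PL.C (nat_lit 0xa864ead) (nat_lit 0x0) (nat_lit 0x81f379a34ae8)
  (PL.C (nat_lit 0xa893f2d) (nat_lit 0xb92205622fb0) (nat_lit 0x0)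
  (PL.C (nat_lit 0xafbb0e2) (nat_lit 0x348a4481a2ae9) (nat_lit 0x0)
  (PL.C (nat_lit 0xb285ef5) (nat_lit 0x4ebecfea5280) (nat_lit 0x0)
  (PL.C (nat_lit 0xb5ccba9) (nat_lit 0x15db37cc590a0) (nat_lit 0x0)
  (PL.C (nat_lit 0xb8f97cd) (nat_lit 0x8f94ba0a8022) (nat_lit 0x0)
  (PL.C (nat_lit 0xbb7c91e) (nat_lit 0x0) (nat_lit 0x44480988c698)
  (PL.C (nat_lit 0xbd8373a) (nat_lit 0x0) (nat_lit 0xe6495fb6ffab)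
  (PL.C (nat_lit 0xbfbe38c) (nat_lit 0xcec9570c044c) (nat_lit 0x0)
  (PL.C (nat_lit 0xc0d2b22) (nat_lit 0x0) (nat_lit 0x4f6a2cf911cd6)
  (PL.C (nat_lit 0xc3aa1e5) (nat_lit 0x0) (nat_lit 0x885c6aeb0ad0) gp6_0_2))))))))))))))))))))

noncomputable def gp6_0 : PL :=
  (PL.C (nat_lit 0x4015d2a) (nat_lit 0x0) (nat_lit 0x64cc567cb358)
  (PL.C (nat_lit 0x465186a) (nat_lit 0x3c2b8d424f00) (nat_lit 0x0)
  (PL.C (nat_lit 0x52a2e07) (nat_lit 0x2cc4b9c8a8240) (nat_lit 0x0)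
  (PL.C (nat_lit 0x56247a6) (nat_lit 0xb1dbc4a24979) (nat_lit 0x0)
  (PL.C (nat_lit 0x5727eb4) (nat_lit 0x1a65b644eb912) (nat_lit 0x0)
  (PL.C (nat_lit 0x5aac7e7) (nat_lit 0x0) (nat_lit 0x48c1b078f9118)
  (PL.C (nat_lit 0x5e85666) (nat_lit 0xc0a0b668c880) (nat_lit 0x0)
  (PL.C (nat_lit 0x5fa2134) (nat_lit 0x0) (nat_lit 0x207ef9a751a51)
  (PL.C (nat_lit 0x6020bbf) (nat_lit 0xb92205622fb0) (nat_lit 0x0)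
  (PL.C (nat_lit 0x697a49f) (nat_lit 0x0) (nat_lit 0xd35cfd7f88b0)
  (PL.C (nat_lit 0x6f14171) (nat_lit 0x0) (nat_lit 0x48c1b078f9118)
  (PL.C (nat_lit 0x7062a1e) (nat_lit 0x0) (nat_lit 0x64cc567cb358)
  (PL.C (nat_lit 0x75275ec) (nat_lit 0x0) (nat_lit 0x207ef9a751a51)
  (PL.C (nat_lit 0x7703f4e) (nat_lit 0x0) (nat_lit 0xe8cf671c50)
  (PL.C (nat_lit 0x79e1e91) (nat_lit 0xcfd0e6ed3cb51) (nat_lit 0x0)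
  (PL.C (nat_lit 0x7b50fde) (nat_lit 0xb1dbc4a24979) (nat_lit 0x0)
  (PL.C (nat_lit 0x808c76c) (nat_lit 0x3f0c2401a4bc5) (nat_lit 0x0)
  (PL.C (nat_lit 0x8136b79) (nat_lit 0x8f94ba0a8022) (nat_lit 0x0)
  (PL.C (nat_lit 0x82bbe0e) (nat_lit 0x0) (nat_lit 0x1f517f5d82714)
  (PL.C (nat_lit 0x8cfccf6) (nat_lit 0x7956869ead5e) (nat_lit 0x0) gp6_0_1))))))))))))))))))))

theorem chk6_0 : eqP (sm (grl (nat_lit 78) (nat_lit 33) (nat_lit 18889465931478580854784) (nat_lit 4) us6 cs6)) gp6_0 = true := by decide +kernel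

noncomputable def gp7_0_4 : PL :=
  (PL.C (nat_lit 0x239b99399) (nat_lit 0x0) (nat_lit 0x8c2b7b43e3f5)
  (PL.C (nat_lit 0x2652cac15) (nat_lit 0x4e53032fdf6c) (nat_lit 0x0)
  (PL.C (nat_lit 0x26bcdac8f) (nat_lit 0x99ae9c48bf5e) (nat_lit 0x0)
  (PL.C (nat_lit 0x271238db9) (nat_lit 0x99ae9c48bf5e) (nat_lit 0x0)
  (PL.C (nat_lit 0x2a5991c4d) (nat_lit 0x0) (nat_lit 0x377cc6db7ce)
  (PL.C (nat_lit 0x2acec68b7) (nat_lit 0x104d955e9bb8) (nat_lit 0x0)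
  (PL.C (nat_lit 0x2b21bea23) (nat_lit 0x0) (nat_lit 0x907153274a)
  (PL.C (nat_lit 0x2d6603e11) (nat_lit 0x4e53032fdf6c) (nat_lit 0x0)
  (PL.C (nat_lit 0x2f53b6b83) (nat_lit 0x104d955e9bb8) (nat_lit 0x0)
  (PL.C (nat_lit 0x31ba5e80f) (nat_lit 0x717b3915b293) (nat_lit 0x0)
  (PL.C (nat_lit 0x36fdc5ccb) (nat_lit 0x0) (nat_lit 0x377cc6db7ce)
  (PL.C (nat_lit 0x3f66b3257) (nat_lit 0x0) (nat_lit 0x765684992d65)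
  (PL.C (nat_lit 0x4220f7fd3) (nat_lit 0x0) (nat_lit 0x765684992d65)
  (PL.C (nat_lit 0x460ffd33f) (nat_lit 0x7b1a163628d) (nat_lit 0x0)
  (PL.C (nat_lit 0x501a18e41) (nat_lit 0x7b1a163628d) (nat_lit 0x0)
  (PL.C (nat_lit 0x544fbe0fb) (nat_lit 0x8cd76de4a128) (nat_lit 0x0)
  (PL.C (nat_lit 0x5d2b73e43) (nat_lit 0x0) (nat_lit 0x16d9cc56ccb1)
  (PL.C (nat_lit 0x66206f579) (nat_lit 0x0) (nat_lit 0x16d9cc56ccb1)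
  (PL.C (nat_lit 0x70db51411) (nat_lit 0x22dbfe3fc7c5) (nat_lit 0x0) PL.Z)))))))))))))))))))

noncomputable def gp7_0_3 : PL :=
  (PL.C (nat_lit 0x137542f99) (nat_lit 0x2646002682e1) (nat_lit 0x0)
  (PL.C (nat_lit 0x13afdd5ce) (nat_lit 0x89a775e3ce) (nat_lit 0x0)
  (PL.C (nat_lit 0x14a2bbf1f) (nat_lit 0xfb840dc389f4) (nat_lit 0x0)
  (PL.C (nat_lit 0x14dbd844d) (nat_lit 0x0) (nat_lit 0x599aee7c4cc)
  (PL.C (nat_lit 0x14f5b15a5) (nat_lit 0x0) (nat_lit 0x21e8f2cce03)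
  (PL.C (nat_lit 0x1509cfd8b) (nat_lit 0x0) (nat_lit 0x2412119cc100)
  (PL.C (nat_lit 0x164dc5403) (nat_lit 0xa4b3e1dea33) (nat_lit 0x0)
  (PL.C (nat_lit 0x169a880c1) (nat_lit 0x8be00d2cd016) (nat_lit 0x0)
  (PL.C (nat_lit 0x17398e089) (nat_lit 0x0) (nat_lit 0x194b99e0b1e1)
  (PL.C (nat_lit 0x197bd88a9) (nat_lit 0x2646002682e1) (nat_lit 0x0)
  (PL.C (nat_lit 0x1ab909ebd) (nat_lit 0xa4b3e1dea33) (nat_lit 0x0)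
  (PL.C (nat_lit 0x1ac6d06cd) (nat_lit 0x8be00d2cd016) (nat_lit 0x0)
  (PL.C (nat_lit 0x1b0441f51) (nat_lit 0x0) (nat_lit 0x1377e44d72f3)
  (PL.C (nat_lit 0x1cd1973f9) (nat_lit 0x0) (nat_lit 0x8c2b7b43e3f5)
  (PL.C (nat_lit 0x1d618b36d) (nat_lit 0x0) (nat_lit 0x8dc56442d1c7)
  (PL.C (nat_lit 0x1d87cc0b5) (nat_lit 0x0) (nat_lit 0x1377e44d72f3)
  (PL.C (nat_lit 0x1e0efc5bd) (nat_lit 0x0) (nat_lit 0x46e60ee62724)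
  (PL.C (nat_lit 0x1e622cc07) (nat_lit 0x0) (nat_lit 0x8dc56442d1c7)
  (PL.C (nat_lit 0x1fd8b8e91) (nat_lit 0x0) (nat_lit 0x907153274a)
  (PL.C (nat_lit 0x22239b8a5) (nat_lit 0x0) (nat_lit 0x46e60ee62724) gp7_0_4))))))))))))))))))))

noncomputable def gp7_0_2 : PL :=
  (PL.C (nat_lit 0xc623ccaf) (nat_lit 0x0) (nat_lit 0xc029714f633)
  (PL.C (nat_lit 0xd19734b7) (nat_lit 0x232ec9ba46e0) (nat_lit 0x0)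
  (PL.C (nat_lit 0xd5ae2303) (nat_lit 0x0) (nat_lit 0x16ca8668a0a8e)
  (PL.C (nat_lit 0xdcf88b49) (nat_lit 0x118af2b167ee) (nat_lit 0x0)
  (PL.C (nat_lit 0xdf920e6e) (nat_lit 0x27b6672b59c) (nat_lit 0x0)
  (PL.C (nat_lit 0xe63a2e17) (nat_lit 0x6094c2bf92) (nat_lit 0x0)
  (PL.C (nat_lit 0xe6b0dc47) (nat_lit 0x0) (nat_lit 0x16da42c6b859)
  (PL.C (nat_lit 0xe79c869f) (nat_lit 0x0) (nat_lit 0x194b99e0b1e1)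
  (PL.C (nat_lit 0xede83802) (nat_lit 0x0) (nat_lit 0x39b7bcf34e6)
  (PL.C (nat_lit 0xf848c84b) (nat_lit 0x0) (nat_lit 0xdf90efb2ee60)
  (PL.C (nat_lit 0xfd20fe27) (nat_lit 0x118af2b167ee) (nat_lit 0x0)
  (PL.C (nat_lit 0x102f74317) (nat_lit 0x0) (nat_lit 0xdf90efb2ee60)
  (PL.C (nat_lit 0x105c3f7b5) (nat_lit 0x0) (nat_lit 0x16ca8668a0a8e)
  (PL.C (nat_lit 0x10c5acbff) (nat_lit 0x0) (nat_lit 0x21e8f2cce03)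
  (PL.C (nat_lit 0x119ba9441) (nat_lit 0x0) (nat_lit 0x2412119cc100)
  (PL.C (nat_lit 0x11c276ef7) (nat_lit 0x0) (nat_lit 0x599aee7c4cc)
  (PL.C (nat_lit 0x11d0b147e) (nat_lit 0x0) (nat_lit 0x39b7bcf34e6)
  (PL.C (nat_lit 0x11f39d955) (nat_lit 0x27efbb8da42d5) (nat_lit 0x0)
  (PL.C (nat_lit 0x1202d6a36) (nat_lit 0x89a775e3ce) (nat_lit 0x0)
  (PL.C (nat_lit 0x132c6632b) (nat_lit 0x232ec9ba46e0) (nat_lit 0x0) gp7_0_3))))))))))))))))))))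

noncomputable def gp7_0_1 : PL :=
  (PL.C (nat_lit 0x70db43c5) (nat_lit 0x0) (nat_lit 0x371a9a9c7436)
  (PL.C (nat_lit 0x711bb0f5) (nat_lit 0xd3e7df63e17) (nat_lit 0x0)
  (PL.C (nat_lit 0x730eff29) (nat_lit 0x0) (nat_lit 0xcafa77a23f77)
  (PL.C (nat_lit 0x76fbfc3b) (nat_lit 0x0) (nat_lit 0xcafa77a23f77)
  (PL.C (nat_lit 0x7862568a) (nat_lit 0x0) (nat_lit 0x8b7929f5a76)
  (PL.C (nat_lit 0x79fab9d1) (nat_lit 0x2d4c36f2e98) (nat_lit 0x0)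
  (PL.C (nat_lit 0x828ea89b) (nat_lit 0x3c0b13db243c) (nat_lit 0x0)
  (PL.C (nat_lit 0x8417ddca) (nat_lit 0x0) (nat_lit 0x151802a00348)
  (PL.C (nat_lit 0x8b7172e5) (nat_lit 0x0) (nat_lit 0x371a9a9c7436)
  (PL.C (nat_lit 0x8cf35dff) (nat_lit 0x0) (nat_lit 0x35c931fe1e61)
  (PL.C (nat_lit 0x97b33c23) (nat_lit 0x9df5816ba7f8) (nat_lit 0x0)
  (PL.C (nat_lit 0x99018a85) (nat_lit 0x9df5816ba7f8) (nat_lit 0x0)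
  (PL.C (nat_lit 0x997c1eba) (nat_lit 0x6391b9c50d8) (nat_lit 0x0)
  (PL.C (nat_lit 0x9aa8fedf) (nat_lit 0x3c0b13db243c) (nat_lit 0x0)
  (PL.C (nat_lit 0xa2359a8d) (nat_lit 0x6094c2bf92) (nat_lit 0x0)
  (PL.C (nat_lit 0xa3f68777) (nat_lit 0x0) (nat_lit 0xc029714f633)
  (PL.C (nat_lit 0xa463dd6f) (nat_lit 0x0) (nat_lit 0x16da42c6b859)
  (PL.C (nat_lit 0xb2e732aa) (nat_lit 0x27b6672b59c) (nat_lit 0x0)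
  (PL.C (nat_lit 0xb49381cf) (nat_lit 0x2d4c36f2e98) (nat_lit 0x0)
  (PL.C (nat_lit 0xc2bd31a3) (nat_lit 0x1d44a10afc656) (nat_lit 0x0) gp7_0_2))))))))))))))))))))

noncomputable def gp7_0 : PL :=
  (PL.C (nat_lit 0x24f6a4ea) (nat_lit 0x0) (nat_lit 0x7c375462eae)
  (PL.C (nat_lit 0x2fa9d4a7) (nat_lit 0xea13b5a8cae1) (nat_lit 0x0)
  (PL.C (nat_lit 0x31af8de6) (nat_lit 0xc90364f567e) (nat_lit 0x0)
  (PL.C (nat_lit 0x32453234) (nat_lit 0x103e377cf928) (nat_lit 0x0)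
  (PL.C (nat_lit 0x344ca287) (nat_lit 0x0) (nat_lit 0x153da57ed8191)
  (PL.C (nat_lit 0x3771f75f) (nat_lit 0xf809b7ca765) (nat_lit 0x0)
  (PL.C (nat_lit 0x401187d1) (nat_lit 0x0) (nat_lit 0x153da57ed8191)
  (PL.C (nat_lit 0x40d27d5e) (nat_lit 0x0) (nat_lit 0x7c375462eae)
  (PL.C (nat_lit 0x464cd0f1) (nat_lit 0x2292c85fef11a) (nat_lit 0x0)
  (PL.C (nat_lit 0x47208b1e) (nat_lit 0xc90364f567e) (nat_lit 0x0)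
  (PL.C (nat_lit 0x4a8754d9) (nat_lit 0x0) (nat_lit 0x116134b05724)
  (PL.C (nat_lit 0x4b67cb4e) (nat_lit 0xcf3a502dc8) (nat_lit 0x0)
  (PL.C (nat_lit 0x5151d136) (nat_lit 0x0) (nat_lit 0x8b7929f5a76)
  (PL.C (nat_lit 0x58848aed) (nat_lit 0x699e081ea7c6) (nat_lit 0x0)
  (PL.C (nat_lit 0x61209b8d) (nat_lit 0x0) (nat_lit 0x35c931fe1e61)
  (PL.C (nat_lit 0x613bbc0d) (nat_lit 0xf809b7ca765) (nat_lit 0x0)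
  (PL.C (nat_lit 0x68dc0709) (nat_lit 0x699e081ea7c6) (nat_lit 0x0)
  (PL.C (nat_lit 0x6ab0d0ad) (nat_lit 0x0) (nat_lit 0x116134b05724)
  (PL.C (nat_lit 0x6c23bc5e) (nat_lit 0x6391b9c50d8) (nat_lit 0x0)
  (PL.C (nat_lit 0x6d4f04fa) (nat_lit 0x0) (nat_lit 0x151802a00348) gp7_0_1))))))))))))))))))))

theorem chk7_0 : eqP (sm (grl (nat_lit 78) (nat_lit 33) (nat_lit 18889465931478580854784) (nat_lit 4) us7 cs7)) gp7_0 = true := by decide +kernel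

noncomputable def gp8_0 : PL :=
  (PL.C (nat_lit 0x1b7dd7747) (nat_lit 0x156c61aa0604) (nat_lit 0x0)
  (PL.C (nat_lit 0x1e2a5f927) (nat_lit 0x0) (nat_lit 0x1e7eecf8144e)
  (PL.C (nat_lit 0x24f42b231) (nat_lit 0x0) (nat_lit 0x1e7eecf8144e)
  (PL.C (nat_lit 0x288c4e751) (nat_lit 0x30a7154bcab5) (nat_lit 0x0)
  (PL.C (nat_lit 0x330e46fcd) (nat_lit 0x9650054e536) (nat_lit 0x0)
  (PL.C (nat_lit 0x3c7b40669) (nat_lit 0x9650054e536) (nat_lit 0x0)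
  (PL.C (nat_lit 0x4118119a5) (nat_lit 0x0) (nat_lit 0x8c5c84487fe)
  (PL.C (nat_lit 0x425d38a89) (nat_lit 0x0) (nat_lit 0x10c61853df25)
  (PL.C (nat_lit 0x44a0e265b) (nat_lit 0x0) (nat_lit 0x10c61853df25)
  (PL.C (nat_lit 0x506dc74c5) (nat_lit 0x0) (nat_lit 0x8c5c84487fe)
  (PL.C (nat_lit 0x577f9bd43) (nat_lit 0x11c2d82bcf9f) (nat_lit 0x0)
  (PL.C (nat_lit 0x58406e865) (nat_lit 0x11c2d82bcf9f) (nat_lit 0x0)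
  (PL.C (nat_lit 0x70529c2c3) (nat_lit 0xe615558dc82) (nat_lit 0x0)
  (PL.C (nat_lit 0x8f34f386b) (nat_lit 0x0) (nat_lit 0xd2561b28733)
  (PL.C (nat_lit 0x955e28fb7) (nat_lit 0x0) (nat_lit 0xd2561b28733)
  (PL.C (nat_lit 0xbe7016ebf) (nat_lit 0xdb37783a7c2) (nat_lit 0x0) PL.Z))))))))))))))))

theorem chk8_0 : eqP (sm (grl (nat_lit 78) (nat_lit 33) (nat_lit 18889465931478580854784) (nat_lit 4) us8 cs8)) gp8_0 = true := by decide +kernel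

noncomputable def gp9_0 : PL :=
  (PL.C (nat_lit 0xfdb5395e7) (nat_lit 0x130f57d5c9) (nat_lit 0x0) PL.Z)

theorem chk9_0 : eqP (sm (grl (nat_lit 78) (nat_lit 33) (nat_lit 18889465931478580854784) (nat_lit 4) us9 cs9)) gp9_0 = true := by decide +kernel


end Pool.Agent.Work.MP_440970_an.FX.D1
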