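import Pool.Agent.Work.MP_440970_an.FX.Prog

/-!
# Data of the certificate, `p = 13 / 35`: polynomials and items
-/

set_option autoImplicit false
set_option maxRecDepth 1000000

namespace Pool.Agent.Work.MP_440970_an.FX.D1

noncomputable def qN : PL :=
  (PL.C (nat_lit 0x0) (nat_lit 0x10) (nat_lit 0x0)
  (PL.C (nat_lit 0x10) (nat_lit 0x6) (nat_lit 0x0)
  (PL.C (nat_lit 0x11) (nat_lit 0x6) (nat_lit 0x0)
  (PL.C (nat_lit 0x32) (nat_lit 0x14) (nat_lit 0x0)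
  (PL.C (nat_lit 0x52) (nat_lit 0x3) (nat_lit 0x0)
  (PL.C (nat_lit 0x43) (nat_lit 0x3) (nat_lit 0x0)
  (PL.C (nat_lit 0x54) (nat_lit 0x8) (nat_lit 0x0)
  (PL.C (nat_lit 0x76) (nat_lit 0x2) (nat_lit 0x0) PL.Z))))))))

noncomputable def qP_2 : PL :=
  (PL.C (nat_lit 0x7632) (nat_lit 0xf8355220) (nat_lit 0x0)
  (PL.C (nat_lit 0x5544) (nat_lit 0xaa1a3420) (nat_lit 0x0)
  (PL.C (nat_lit 0x7652) (nat_lit 0x231b8c80) (nat_lit 0x0)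
  (PL.C (nat_lit 0x7643) (nat_lit 0x231b8c80) (nat_lit 0x0)
  (PL.C (nat_lit 0x7654) (nat_lit 0x575de7e0) (nat_lit 0x0)
  (PL.C (nat_lit 0x7766) (nat_lit 0xb3f3620) (nat_lit 0x0) PL.Z))))))

noncomputable def qP_1 : PL :=
  (PL.C (nat_lit 0x7221) (nat_lit 0x0) (nat_lit 0x280de80)
  (PL.C (nat_lit 0x6330) (nat_lit 0x0) (nat_lit 0x5527ce0)
  (PL.C (nat_lit 0x7610) (nat_lit 0x3e56ec60) (nat_lit 0x0)
  (PL.C (nat_lit 0x7420) (nat_lit 0x6dcd60) (nat_lit 0x0)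
  (PL.C (nat_lit 0x5322) (nat_lit 0x17fb723e0) (nat_lit 0x0)
  (PL.C (nat_lit 0x6331) (nat_lit 0x0) (nat_lit 0x280de80)
  (PL.C (nat_lit 0x4332) (nat_lit 0x17fb723e0) (nat_lit 0x0)
  (PL.C (nat_lit 0x7611) (nat_lit 0x40f7d600) (nat_lit 0x0)
  (PL.C (nat_lit 0x6530) (nat_lit 0x6dcd60) (nat_lit 0x0)
  (PL.C (nat_lit 0x7421) (nat_lit 0x1b81040) (nat_lit 0x0)
  (PL.C (nat_lit 0x5522) (nat_lit 0x1b76c300) (nat_lit 0x0)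
  (PL.C (nat_lit 0x7440) (nat_lit 0xa4eac0) (nat_lit 0x0)
  (PL.C (nat_lit 0x6531) (nat_lit 0x1b81040) (nat_lit 0x0)
  (PL.C (nat_lit 0x5432) (nat_lit 0x40e74e8e0) (nat_lit 0x0)
  (PL.C (nat_lit 0x6550) (nat_lit 0xa4eac0) (nat_lit 0x0)
  (PL.C (nat_lit 0x4433) (nat_lit 0x1b76c300) (nat_lit 0x0)
  (PL.C (nat_lit 0x7441) (nat_lit 0x0) (nat_lit 0x3567e0)
  (PL.C (nat_lit 0x6551) (nat_lit 0x0) (nat_lit 0x3567e0)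
  (PL.C (nat_lit 0x5542) (nat_lit 0x85a6b8c0) (nat_lit 0x0)
  (PL.C (nat_lit 0x5443) (nat_lit 0x85a6b8c0) (nat_lit 0x0) qP_2))))))))))))))))))))

noncomputable def qP : PL :=
  (PL.C (nat_lit 0x0) (nat_lit 0x3651b64e0) (nat_lit 0x0)
  (PL.C (nat_lit 0x1000) (nat_lit 0x25e52eee0) (nat_lit 0x0)
  (PL.C (nat_lit 0x1100) (nat_lit 0x2b5add920) (nat_lit 0x0)
  (PL.C (nat_lit 0x1110) (nat_lit 0xbbae6300) (nat_lit 0x0)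
  (PL.C (nat_lit 0x1111) (nat_lit 0x5d19ec60) (nat_lit 0x0)
  (PL.C (nat_lit 0x3200) (nat_lit 0x874f23240) (nat_lit 0x0)
  (PL.C (nat_lit 0x3210) (nat_lit 0x2da3df4a0) (nat_lit 0x0)
  (PL.C (nat_lit 0x5200) (nat_lit 0x135fe6600) (nat_lit 0x0)
  (PL.C (nat_lit 0x4300) (nat_lit 0x135fe6600) (nat_lit 0x0)
  (PL.C (nat_lit 0x3211) (nat_lit 0x2e5f836c0) (nat_lit 0x0)
  (PL.C (nat_lit 0x5210) (nat_lit 0x68db0480) (nat_lit 0x0)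
  (PL.C (nat_lit 0x4310) (nat_lit 0x68db0480) (nat_lit 0x0)
  (PL.C (nat_lit 0x5400) (nat_lit 0x31572f020) (nat_lit 0x0)
  (PL.C (nat_lit 0x5211) (nat_lit 0x66847220) (nat_lit 0x0)
  (PL.C (nat_lit 0x4311) (nat_lit 0x66847220) (nat_lit 0x0)
  (PL.C (nat_lit 0x5410) (nat_lit 0xf9f4a5c0) (nat_lit 0x0)
  (PL.C (nat_lit 0x7220) (nat_lit 0x0) (nat_lit 0x5527ce0)
  (PL.C (nat_lit 0x3322) (nat_lit 0x5316948e0) (nat_lit 0x0)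
  (PL.C (nat_lit 0x5411) (nat_lit 0xfbd39720) (nat_lit 0x0)
  (PL.C (nat_lit 0x7600) (nat_lit 0xc5707ea0) (nat_lit 0x0) qP_1))))))))))))))))))))

noncomputable def qR_9 : PL :=
  (PL.C (nat_lit 0x776654) (nat_lit 0x0) (nat_lit 0x14e1b400)
  (PL.C (nat_lit 0x777666) (nat_lit 0x0) (nat_lit 0x48d19a0) PL.Z))

noncomputable def qR_8 : PL :=
  (PL.C (nat_lit 0x776440) (nat_lit 0x0) (nat_lit 0x150a2f480)
  (PL.C (nat_lit 0x766531) (nat_lit 0x0) (nat_lit 0xd64cf640)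
  (PL.C (nat_lit 0x554443) (nat_lit 0x0) (nat_lit 0x2c4ced580)
  (PL.C (nat_lit 0x765432) (nat_lit 0x0) (nat_lit 0x3050fcf00)
  (PL.C (nat_lit 0x766550) (nat_lit 0x0) (nat_lit 0x150a2f480)
  (PL.C (nat_lit 0x764433) (nat_lit 0x2b2672a0) (nat_lit 0x0)
  (PL.C (nat_lit 0x776441) (nat_lit 0x0) (nat_lit 0x9a50e20)
  (PL.C (nat_lit 0x665533) (nat_lit 0x137810e60) (nat_lit 0x0)
  (PL.C (nat_lit 0x774442) (nat_lit 0xe670dbe0) (nat_lit 0x0)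
  (PL.C (nat_lit 0x766551) (nat_lit 0x0) (nat_lit 0x9a50e20)
  (PL.C (nat_lit 0x555444) (nat_lit 0x0) (nat_lit 0xac39a920)
  (PL.C (nat_lit 0x765542) (nat_lit 0x0) (nat_lit 0xcf1ef300)
  (PL.C (nat_lit 0x765443) (nat_lit 0x0) (nat_lit 0xcf1ef300)
  (PL.C (nat_lit 0x776632) (nat_lit 0xfb7cdc0) (nat_lit 0x0)
  (PL.C (nat_lit 0x665553) (nat_lit 0xe670dbe0) (nat_lit 0x0)
  (PL.C (nat_lit 0x774444) (nat_lit 0x1bfc100) (nat_lit 0x0)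
  (PL.C (nat_lit 0x765544) (nat_lit 0x0) (nat_lit 0x54113d80)
  (PL.C (nat_lit 0x776652) (nat_lit 0x0) (nat_lit 0x314528c0)
  (PL.C (nat_lit 0x776643) (nat_lit 0x0) (nat_lit 0x314528c0)
  (PL.C (nat_lit 0x665555) (nat_lit 0x1bfc100) (nat_lit 0x0) qR_9))))))))))))))))))))

noncomputable def qR_7 : PL :=
  (PL.C (nat_lit 0x776610) (nat_lit 0x152c3b1a0) (nat_lit 0x0)
  (PL.C (nat_lit 0x754440) (nat_lit 0x0) (nat_lit 0x1a8006f00)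
  (PL.C (nat_lit 0x655431) (nat_lit 0x3ceb1f900) (nat_lit 0x0)
  (PL.C (nat_lit 0x776420) (nat_lit 0x0) (nat_lit 0x6c65a240)
  (PL.C (nat_lit 0x663333) (nat_lit 0x18ac5a540) (nat_lit 0x0)
  (PL.C (nat_lit 0x554432) (nat_lit 0x0) (nat_lit 0x14240930c0)
  (PL.C (nat_lit 0x765322) (nat_lit 0x130336d60) (nat_lit 0x0)
  (PL.C (nat_lit 0x766331) (nat_lit 0x0) (nat_lit 0x780046a0)
  (PL.C (nat_lit 0x655540) (nat_lit 0x0) (nat_lit 0x1a8006f00)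
  (PL.C (nat_lit 0x544433) (nat_lit 0xd7750b20) (nat_lit 0x0)
  (PL.C (nat_lit 0x764332) (nat_lit 0x130336d60) (nat_lit 0x0)
  (PL.C (nat_lit 0x776611) (nat_lit 0x5a4f240) (nat_lit 0x0)
  (PL.C (nat_lit 0x754441) (nat_lit 0xe26e2fc0) (nat_lit 0x0)
  (PL.C (nat_lit 0x766530) (nat_lit 0x0) (nat_lit 0x6c65a240)
  (PL.C (nat_lit 0x776421) (nat_lit 0x0) (nat_lit 0xd64cf640)
  (PL.C (nat_lit 0x774422) (nat_lit 0x137810e60) (nat_lit 0x0)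
  (PL.C (nat_lit 0x655541) (nat_lit 0xe26e2fc0) (nat_lit 0x0)
  (PL.C (nat_lit 0x665333) (nat_lit 0x4e9add20) (nat_lit 0x0)
  (PL.C (nat_lit 0x555442) (nat_lit 0x0) (nat_lit 0x2c4ced580)
  (PL.C (nat_lit 0x765522) (nat_lit 0x2b2672a0) (nat_lit 0x0) qR_8))))))))))))))))))))

noncomputable def qR_6 : PL :=
  (PL.C (nat_lit 0x754420) (nat_lit 0x85a949000) (nat_lit 0x0)
  (PL.C (nat_lit 0x655321) (nat_lit 0x2ef72f8c0) (nat_lit 0x0)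
  (PL.C (nat_lit 0x776220) (nat_lit 0x0) (nat_lit 0xf7899160)
  (PL.C (nat_lit 0x554322) (nat_lit 0x0) (nat_lit 0xa1781cec0)
  (PL.C (nat_lit 0x744430) (nat_lit 0x12ee179c0) (nat_lit 0x0)
  (PL.C (nat_lit 0x654331) (nat_lit 0x1a2610aa0) (nat_lit 0x0)
  (PL.C (nat_lit 0x655520) (nat_lit 0x12ee179c0) (nat_lit 0x0)
  (PL.C (nat_lit 0x544332) (nat_lit 0x0) (nat_lit 0xa1781cec0)
  (PL.C (nat_lit 0x763322) (nat_lit 0x0) (nat_lit 0x1b4a5ad60)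
  (PL.C (nat_lit 0x765411) (nat_lit 0x0) (nat_lit 0x17d3faba0)
  (PL.C (nat_lit 0x776600) (nat_lit 0x0) (nat_lit 0x1164f8f00)
  (PL.C (nat_lit 0x655430) (nat_lit 0x85a949000) (nat_lit 0x0)
  (PL.C (nat_lit 0x754421) (nat_lit 0x3ceb1f900) (nat_lit 0x0)
  (PL.C (nat_lit 0x444333) (nat_lit 0x859e9aa0) (nat_lit 0x0)
  (PL.C (nat_lit 0x776221) (nat_lit 0x0) (nat_lit 0x780046a0)
  (PL.C (nat_lit 0x774222) (nat_lit 0x4e9add20) (nat_lit 0x0)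
  (PL.C (nat_lit 0x744431) (nat_lit 0x1547038c0) (nat_lit 0x0)
  (PL.C (nat_lit 0x766330) (nat_lit 0x0) (nat_lit 0xf7899160)
  (PL.C (nat_lit 0x655521) (nat_lit 0x1547038c0) (nat_lit 0x0)
  (PL.C (nat_lit 0x555422) (nat_lit 0xd7750b20) (nat_lit 0x0) qR_7))))))))))))))))))))

noncomputable def qR_5 : PL :=
  (PL.C (nat_lit 0x643330) (nat_lit 0x44c7fc880) (nat_lit 0x0)
  (PL.C (nat_lit 0x754220) (nat_lit 0x6e3f359a0) (nat_lit 0x0)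
  (PL.C (nat_lit 0x553222) (nat_lit 0x0) (nat_lit 0x22020c0c0)
  (PL.C (nat_lit 0x764310) (nat_lit 0x0) (nat_lit 0x2e1f9d060)
  (PL.C (nat_lit 0x744320) (nat_lit 0x37b245300) (nat_lit 0x0)
  (PL.C (nat_lit 0x653321) (nat_lit 0x518b6e5a0) (nat_lit 0x0)
  (PL.C (nat_lit 0x543322) (nat_lit 0x0) (nat_lit 0x1e9199f160)
  (PL.C (nat_lit 0x554411) (nat_lit 0x0) (nat_lit 0x23ae8580)
  (PL.C (nat_lit 0x765400) (nat_lit 0x0) (nat_lit 0x9f74f6040)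
  (PL.C (nat_lit 0x765211) (nat_lit 0x0) (nat_lit 0x2bc3163c0)
  (PL.C (nat_lit 0x643331) (nat_lit 0x0) (nat_lit 0x79f34ca0)
  (PL.C (nat_lit 0x655320) (nat_lit 0x37b245300) (nat_lit 0x0)
  (PL.C (nat_lit 0x754221) (nat_lit 0x1a2610aa0) (nat_lit 0x0)
  (PL.C (nat_lit 0x443332) (nat_lit 0x0) (nat_lit 0x22020c0c0)
  (PL.C (nat_lit 0x764311) (nat_lit 0x0) (nat_lit 0x2bc3163c0)
  (PL.C (nat_lit 0x772222) (nat_lit 0x18ac5a540) (nat_lit 0x0)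
  (PL.C (nat_lit 0x654330) (nat_lit 0x6e3f359a0) (nat_lit 0x0)
  (PL.C (nat_lit 0x744321) (nat_lit 0x2ef72f8c0) (nat_lit 0x0)
  (PL.C (nat_lit 0x555222) (nat_lit 0x859e9aa0) (nat_lit 0x0)
  (PL.C (nat_lit 0x765410) (nat_lit 0x0) (nat_lit 0x2206a3d40) qR_6))))))))))))))))))))

noncomputable def qR_4 : PL :=
  (PL.C (nat_lit 0x752220) (nat_lit 0x44c7fc880) (nat_lit 0x0)
  (PL.C (nat_lit 0x744111) (nat_lit 0xcc326a00) (nat_lit 0x0)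
  (PL.C (nat_lit 0x544310) (nat_lit 0x452ce58a0) (nat_lit 0x0)
  (PL.C (nat_lit 0x763210) (nat_lit 0x0) (nat_lit 0x1756877e0)
  (PL.C (nat_lit 0x743220) (nat_lit 0x8966b0b40) (nat_lit 0x0)
  (PL.C (nat_lit 0x655111) (nat_lit 0xcc326a00) (nat_lit 0x0)
  (PL.C (nat_lit 0x533222) (nat_lit 0x0) (nat_lit 0xa5f208fb4)
  (PL.C (nat_lit 0x554400) (nat_lit 0x0) (nat_lit 0x94c25df00)
  (PL.C (nat_lit 0x554211) (nat_lit 0x0) (nat_lit 0x165211c20)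
  (PL.C (nat_lit 0x765200) (nat_lit 0x0) (nat_lit 0x6fa856d20)
  (PL.C (nat_lit 0x633321) (nat_lit 0x144c98200) (nat_lit 0x0)
  (PL.C (nat_lit 0x752221) (nat_lit 0x0) (nat_lit 0x79f34ca0)
  (PL.C (nat_lit 0x433322) (nat_lit 0x0) (nat_lit 0xa5f208fb4)
  (PL.C (nat_lit 0x544311) (nat_lit 0x0) (nat_lit 0x165211c20)
  (PL.C (nat_lit 0x764300) (nat_lit 0x0) (nat_lit 0x6fa856d20)
  (PL.C (nat_lit 0x763211) (nat_lit 0x0) (nat_lit 0x4c04bd380)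
  (PL.C (nat_lit 0x653320) (nat_lit 0x8966b0b40) (nat_lit 0x0)
  (PL.C (nat_lit 0x743221) (nat_lit 0x518b6e5a0) (nat_lit 0x0)
  (PL.C (nat_lit 0x554410) (nat_lit 0x0) (nat_lit 0x4add60ea0)
  (PL.C (nat_lit 0x765210) (nat_lit 0x0) (nat_lit 0x2e1f9d060) qR_5))))))))))))))))))))

noncomputable def qR_3 : PL :=
  (PL.C (nat_lit 0x744100) (nat_lit 0x58048820) (nat_lit 0x0)
  (PL.C (nat_lit 0x653110) (nat_lit 0x7c2a859c0) (nat_lit 0x0)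
  (PL.C (nat_lit 0x742111) (nat_lit 0x117bab7c0) (nat_lit 0x0)
  (PL.C (nat_lit 0x543210) (nat_lit 0x0) (nat_lit 0x617dfb2a0)
  (PL.C (nat_lit 0x732220) (nat_lit 0x356bfc710) (nat_lit 0x0)
  (PL.C (nat_lit 0x655100) (nat_lit 0x58048820) (nat_lit 0x0)
  (PL.C (nat_lit 0x443310) (nat_lit 0x71ad7e6c0) (nat_lit 0x0)
  (PL.C (nat_lit 0x554200) (nat_lit 0x0) (nat_lit 0x8bea3acc0)
  (PL.C (nat_lit 0x552211) (nat_lit 0x25136ea40) (nat_lit 0x0)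
  (PL.C (nat_lit 0x744110) (nat_lit 0xa38e8b60) (nat_lit 0x0)
  (PL.C (nat_lit 0x653111) (nat_lit 0x117bab7c0) (nat_lit 0x0)
  (PL.C (nat_lit 0x333222) (nat_lit 0x0) (nat_lit 0x1a865c5620)
  (PL.C (nat_lit 0x544300) (nat_lit 0x0) (nat_lit 0x8bea3acc0)
  (PL.C (nat_lit 0x543211) (nat_lit 0x0) (nat_lit 0x19fb9e83a0)
  (PL.C (nat_lit 0x763200) (nat_lit 0x0) (nat_lit 0xac28a6a20)
  (PL.C (nat_lit 0x732221) (nat_lit 0x144c98200) (nat_lit 0x0)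
  (PL.C (nat_lit 0x655110) (nat_lit 0xa38e8b60) (nat_lit 0x0)
  (PL.C (nat_lit 0x443311) (nat_lit 0x25136ea40) (nat_lit 0x0)
  (PL.C (nat_lit 0x554210) (nat_lit 0x452ce58a0) (nat_lit 0x0)
  (PL.C (nat_lit 0x633320) (nat_lit 0x356bfc710) (nat_lit 0x0) qR_4))))))))))))))))))))

noncomputable def qR_2 : PL :=
  (PL.C (nat_lit 0x761100) (nat_lit 0x0) (nat_lit 0x92537edc0)
  (PL.C (nat_lit 0x653000) (nat_lit 0x79190e820) (nat_lit 0x0)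
  (PL.C (nat_lit 0x742100) (nat_lit 0xb4c6ca1e0) (nat_lit 0x0)
  (PL.C (nat_lit 0x722111) (nat_lit 0x0) (nat_lit 0x12f6138e0)
  (PL.C (nat_lit 0x532210) (nat_lit 0x86f347840) (nat_lit 0x0)
  (PL.C (nat_lit 0x633110) (nat_lit 0x0) (nat_lit 0x103f0dc60)
  (PL.C (nat_lit 0x433210) (nat_lit 0x86f347840) (nat_lit 0x0)
  (PL.C (nat_lit 0x552200) (nat_lit 0x0) (nat_lit 0x3cc62aa0)
  (PL.C (nat_lit 0x761110) (nat_lit 0x0) (nat_lit 0x35eb33240)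
  (PL.C (nat_lit 0x744000) (nat_lit 0x0) (nat_lit 0x122a17d40)
  (PL.C (nat_lit 0x653100) (nat_lit 0xb4c6ca1e0) (nat_lit 0x0)
  (PL.C (nat_lit 0x742110) (nat_lit 0x7c2a859c0) (nat_lit 0x0)
  (PL.C (nat_lit 0x543200) (nat_lit 0x0) (nat_lit 0x36716bfb00)
  (PL.C (nat_lit 0x532211) (nat_lit 0x0) (nat_lit 0x878149080)
  (PL.C (nat_lit 0x633111) (nat_lit 0x0) (nat_lit 0x12f6138e0)
  (PL.C (nat_lit 0x655000) (nat_lit 0x0) (nat_lit 0x122a17d40)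
  (PL.C (nat_lit 0x443300) (nat_lit 0x0) (nat_lit 0x3cc62aa0)
  (PL.C (nat_lit 0x433211) (nat_lit 0x0) (nat_lit 0x878149080)
  (PL.C (nat_lit 0x552210) (nat_lit 0x71ad7e6c0) (nat_lit 0x0)
  (PL.C (nat_lit 0x761111) (nat_lit 0x0) (nat_lit 0x12a94e3c0) qR_3))))))))))))))))))))

noncomputable def qR_1 : PL :=
  (PL.C (nat_lit 0x521110) (nat_lit 0x4bceb81e0) (nat_lit 0x0)
  (PL.C (nat_lit 0x722000) (nat_lit 0x3034f70d0) (nat_lit 0x0)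
  (PL.C (nat_lit 0x431110) (nat_lit 0x4bceb81e0) (nat_lit 0x0)
  (PL.C (nat_lit 0x332200) (nat_lit 0x0) (nat_lit 0x3b3a31ca20)
  (PL.C (nat_lit 0x541100) (nat_lit 0x0) (nat_lit 0xba7a9bfc0)
  (PL.C (nat_lit 0x760000) (nat_lit 0x0) (nat_lit 0x841d4ee20)
  (PL.C (nat_lit 0x521111) (nat_lit 0x0) (nat_lit 0x5c4e8de0)
  (PL.C (nat_lit 0x722100) (nat_lit 0x47ef36ec0) (nat_lit 0x0)
  (PL.C (nat_lit 0x431111) (nat_lit 0x0) (nat_lit 0x5c4e8de0)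
  (PL.C (nat_lit 0x633000) (nat_lit 0x3034f70d0) (nat_lit 0x0)
  (PL.C (nat_lit 0x332210) (nat_lit 0x0) (nat_lit 0x15dac10d28)
  (PL.C (nat_lit 0x541110) (nat_lit 0x0) (nat_lit 0x329da0580)
  (PL.C (nat_lit 0x761000) (nat_lit 0x0) (nat_lit 0x7fa115920)
  (PL.C (nat_lit 0x742000) (nat_lit 0x79190e820) (nat_lit 0x0)
  (PL.C (nat_lit 0x722110) (nat_lit 0x0) (nat_lit 0x103f0dc60)
  (PL.C (nat_lit 0x532200) (nat_lit 0x0) (nat_lit 0x6565e48c4)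
  (PL.C (nat_lit 0x633100) (nat_lit 0x47ef36ec0) (nat_lit 0x0)
  (PL.C (nat_lit 0x433200) (nat_lit 0x0) (nat_lit 0x6565e48c4)
  (PL.C (nat_lit 0x332211) (nat_lit 0x0) (nat_lit 0x1c32642460)
  (PL.C (nat_lit 0x541111) (nat_lit 0xa4f20360) (nat_lit 0x0) qR_2))))))))))))))))))))

noncomputable def qR : PL :=
  (PL.C (nat_lit 0x0) (nat_lit 0x0) (nat_lit 0xb8ba591a0)
  (PL.C (nat_lit 0x100000) (nat_lit 0x0) (nat_lit 0x258aba8e2)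
  (PL.C (nat_lit 0x110000) (nat_lit 0x0) (nat_lit 0x1d51ac260)
  (PL.C (nat_lit 0x111000) (nat_lit 0x0) (nat_lit 0x57697100)
  (PL.C (nat_lit 0x111100) (nat_lit 0x0) (nat_lit 0x3170c3d60)
  (PL.C (nat_lit 0x111110) (nat_lit 0x0) (nat_lit 0xc2fb2940)
  (PL.C (nat_lit 0x320000) (nat_lit 0x0) (nat_lit 0x2cd67bb288)
  (PL.C (nat_lit 0x111111) (nat_lit 0x356a7040) (nat_lit 0x0)
  (PL.C (nat_lit 0x321000) (nat_lit 0x0) (nat_lit 0x106866e5a8)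
  (PL.C (nat_lit 0x520000) (nat_lit 0x0) (nat_lit 0x20290475)
  (PL.C (nat_lit 0x430000) (nat_lit 0x0) (nat_lit 0x20290475)
  (PL.C (nat_lit 0x321100) (nat_lit 0x0) (nat_lit 0x2179f220c0)
  (PL.C (nat_lit 0x521000) (nat_lit 0xadde5d520) (nat_lit 0x0)
  (PL.C (nat_lit 0x431000) (nat_lit 0xadde5d520) (nat_lit 0x0)
  (PL.C (nat_lit 0x321110) (nat_lit 0x0) (nat_lit 0x72758d440)
  (PL.C (nat_lit 0x540000) (nat_lit 0x0) (nat_lit 0xf3ad96860)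
  (PL.C (nat_lit 0x521100) (nat_lit 0x5130c6580) (nat_lit 0x0)
  (PL.C (nat_lit 0x431100) (nat_lit 0x5130c6580) (nat_lit 0x0)
  (PL.C (nat_lit 0x321111) (nat_lit 0x0) (nat_lit 0x921770d60)
  (PL.C (nat_lit 0x541000) (nat_lit 0x0) (nat_lit 0x88cae1020) qR_1))))))))))))))))))))

noncomputable def qS_8 : PL :=
  (PL.C (nat_lit 0x776641) (nat_lit 0x0) (nat_lit 0x160b1100)
  (PL.C (nat_lit 0x754444) (nat_lit 0xcb6b5140) (nat_lit 0x0)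
  (PL.C (nat_lit 0x776442) (nat_lit 0x0) (nat_lit 0x4baa7bc0)
  (PL.C (nat_lit 0x655544) (nat_lit 0x8bb6e820) (nat_lit 0x0)
  (PL.C (nat_lit 0x766552) (nat_lit 0x0) (nat_lit 0xac586c20)
  (PL.C (nat_lit 0x766543) (nat_lit 0x0) (nat_lit 0x1efb6580)
  (PL.C (nat_lit 0x776444) (nat_lit 0xf8fa480) (nat_lit 0x0)
  (PL.C (nat_lit 0x766554) (nat_lit 0x0) (nat_lit 0x2219eb60)
  (PL.C (nat_lit 0x776663) (nat_lit 0x0) (nat_lit 0x177fa0)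
  (PL.C (nat_lit 0x776665) (nat_lit 0x0) (nat_lit 0x555e7e0) PL.Z))))))))))

noncomputable def qS_7 : PL :=
  (PL.C (nat_lit 0x744432) (nat_lit 0x2a42c76c0) (nat_lit 0x0)
  (PL.C (nat_lit 0x655522) (nat_lit 0x0) (nat_lit 0x1e9fb9ba0)
  (PL.C (nat_lit 0x765440) (nat_lit 0x0) (nat_lit 0x1251740)
  (PL.C (nat_lit 0x665531) (nat_lit 0x0) (nat_lit 0x256978080)
  (PL.C (nat_lit 0x776620) (nat_lit 0x99cc6fc0) (nat_lit 0x0)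
  (PL.C (nat_lit 0x655432) (nat_lit 0x0) (nat_lit 0x9786cb5c0)
  (PL.C (nat_lit 0x665550) (nat_lit 0x2355f2b20) (nat_lit 0x0)
  (PL.C (nat_lit 0x654433) (nat_lit 0x139adc200) (nat_lit 0x0)
  (PL.C (nat_lit 0x766332) (nat_lit 0x0) (nat_lit 0x1b93c9aa0)
  (PL.C (nat_lit 0x765441) (nat_lit 0x0) (nat_lit 0x170851080)
  (PL.C (nat_lit 0x776621) (nat_lit 0xbb372f60) (nat_lit 0x0)
  (PL.C (nat_lit 0x754442) (nat_lit 0x0) (nat_lit 0x353cfd7c0)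
  (PL.C (nat_lit 0x776422) (nat_lit 0x73f65720) (nat_lit 0x0)
  (PL.C (nat_lit 0x665551) (nat_lit 0x0) (nat_lit 0x41cde2e0)
  (PL.C (nat_lit 0x744443) (nat_lit 0x30ebb45c0) (nat_lit 0x0)
  (PL.C (nat_lit 0x655542) (nat_lit 0x0) (nat_lit 0x44e8b28e0)
  (PL.C (nat_lit 0x776640) (nat_lit 0x0) (nat_lit 0x6fb62500)
  (PL.C (nat_lit 0x655443) (nat_lit 0x2a4171a00) (nat_lit 0x0)
  (PL.C (nat_lit 0x766532) (nat_lit 0x0) (nat_lit 0x1ba32b2a0)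
  (PL.C (nat_lit 0x766433) (nat_lit 0x0) (nat_lit 0x20059220) qS_8))))))))))))))))))))

noncomputable def qS_6 : PL :=
  (PL.C (nat_lit 0x766311) (nat_lit 0x201ab8300) (nat_lit 0x0)
  (PL.C (nat_lit 0x544431) (nat_lit 0x496a1a0a0) (nat_lit 0x0)
  (PL.C (nat_lit 0x665330) (nat_lit 0x25d7fdfa0) (nat_lit 0x0)
  (PL.C (nat_lit 0x764321) (nat_lit 0x0) (nat_lit 0x4bbabed60)
  (PL.C (nat_lit 0x744322) (nat_lit 0x3177e5080) (nat_lit 0x0)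
  (PL.C (nat_lit 0x766510) (nat_lit 0x0) (nat_lit 0x2fd9d6fc0)
  (PL.C (nat_lit 0x554440) (nat_lit 0x14165580) (nat_lit 0x0)
  (PL.C (nat_lit 0x765420) (nat_lit 0x511d481c0) (nat_lit 0x0)
  (PL.C (nat_lit 0x655322) (nat_lit 0x0) (nat_lit 0xa6f8879c0)
  (PL.C (nat_lit 0x764430) (nat_lit 0x38f4a7760) (nat_lit 0x0)
  (PL.C (nat_lit 0x665331) (nat_lit 0x0) (nat_lit 0x176beb140)
  (PL.C (nat_lit 0x654332) (nat_lit 0x0) (nat_lit 0xd3e0d7460)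
  (PL.C (nat_lit 0x766511) (nat_lit 0x2348d640) (nat_lit 0x0)
  (PL.C (nat_lit 0x554441) (nat_lit 0xf032f780) (nat_lit 0x0)
  (PL.C (nat_lit 0x665530) (nat_lit 0x4859f9000) (nat_lit 0x0)
  (PL.C (nat_lit 0x765421) (nat_lit 0x539aa71a0) (nat_lit 0x0)
  (PL.C (nat_lit 0x644333) (nat_lit 0x0) (nat_lit 0xec252fa0)
  (PL.C (nat_lit 0x754422) (nat_lit 0x0) (nat_lit 0x276fa3660)
  (PL.C (nat_lit 0x776222) (nat_lit 0x0) (nat_lit 0x6525ad40)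
  (PL.C (nat_lit 0x764431) (nat_lit 0x0) (nat_lit 0x580e25100) qS_7))))))))))))))))))))

noncomputable def qS_5 : PL :=
  (PL.C (nat_lit 0x544321) (nat_lit 0x0) (nat_lit 0x3f79e0c00)
  (PL.C (nat_lit 0x763221) (nat_lit 0x10300bfa0) (nat_lit 0x0)
  (PL.C (nat_lit 0x743222) (nat_lit 0x3f14615a0) (nat_lit 0x0)
  (PL.C (nat_lit 0x655410) (nat_lit 0x48ff9c520) (nat_lit 0x0)
  (PL.C (nat_lit 0x444331) (nat_lit 0x13831efa0) (nat_lit 0x0)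
  (PL.C (nat_lit 0x663330) (nat_lit 0x277fd1fa0) (nat_lit 0x0)
  (PL.C (nat_lit 0x554420) (nat_lit 0x0) (nat_lit 0x2c0b8ef80)
  (PL.C (nat_lit 0x765220) (nat_lit 0x54d4adba0) (nat_lit 0x0)
  (PL.C (nat_lit 0x744411) (nat_lit 0x6aab01c0) (nat_lit 0x0)
  (PL.C (nat_lit 0x766310) (nat_lit 0x0) (nat_lit 0x3f6c6b700)
  (PL.C (nat_lit 0x544430) (nat_lit 0xc1044ae00) (nat_lit 0x0)
  (PL.C (nat_lit 0x764320) (nat_lit 0x30ef0ada0) (nat_lit 0x0)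
  (PL.C (nat_lit 0x653322) (nat_lit 0x0) (nat_lit 0x124d358360)
  (PL.C (nat_lit 0x655411) (nat_lit 0x0) (nat_lit 0x72ea7500)
  (PL.C (nat_lit 0x766500) (nat_lit 0x8d540dc0) (nat_lit 0x0)
  (PL.C (nat_lit 0x663331) (nat_lit 0x12b775480) (nat_lit 0x0)
  (PL.C (nat_lit 0x554421) (nat_lit 0x0) (nat_lit 0x462cfa2e0)
  (PL.C (nat_lit 0x765221) (nat_lit 0x3d64983e0) (nat_lit 0x0)
  (PL.C (nat_lit 0x643332) (nat_lit 0x0) (nat_lit 0x53983fde0)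
  (PL.C (nat_lit 0x754222) (nat_lit 0x5f3ccc60) (nat_lit 0x0) qS_6))))))))))))))))))))

noncomputable def qS_4 : PL :=
  (PL.C (nat_lit 0x543221) (nat_lit 0x0) (nat_lit 0x148ffb0a60)
  (PL.C (nat_lit 0x643311) (nat_lit 0x0) (nat_lit 0x296346a00)
  (PL.C (nat_lit 0x655210) (nat_lit 0x6cc99c0) (nat_lit 0x0)
  (PL.C (nat_lit 0x443321) (nat_lit 0x40ccaf20) (nat_lit 0x0)
  (PL.C (nat_lit 0x554220) (nat_lit 0x0) (nat_lit 0xa35ff980)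
  (PL.C (nat_lit 0x764111) (nat_lit 0x0) (nat_lit 0xc31e3200)
  (PL.C (nat_lit 0x744400) (nat_lit 0x4c98e300) (nat_lit 0x0)
  (PL.C (nat_lit 0x654310) (nat_lit 0x0) (nat_lit 0x5fbed7640)
  (PL.C (nat_lit 0x744211) (nat_lit 0x0) (nat_lit 0x33f0e2ee0)
  (PL.C (nat_lit 0x544320) (nat_lit 0xc49ced7e0) (nat_lit 0x0)
  (PL.C (nat_lit 0x763220) (nat_lit 0x1aa0c3cc0) (nat_lit 0x0)
  (PL.C (nat_lit 0x655400) (nat_lit 0xa633c86c0) (nat_lit 0x0)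
  (PL.C (nat_lit 0x655211) (nat_lit 0x0) (nat_lit 0x3cab845c0)
  (PL.C (nat_lit 0x444330) (nat_lit 0x2ac903ae0) (nat_lit 0x0)
  (PL.C (nat_lit 0x554221) (nat_lit 0x0) (nat_lit 0x376ffe640)
  (PL.C (nat_lit 0x633322) (nat_lit 0x0) (nat_lit 0x9143fa760)
  (PL.C (nat_lit 0x744410) (nat_lit 0x2557b6220) (nat_lit 0x0)
  (PL.C (nat_lit 0x654311) (nat_lit 0x0) (nat_lit 0x5512d7ca0)
  (PL.C (nat_lit 0x766300) (nat_lit 0x4b4fe840) (nat_lit 0x0)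
  (PL.C (nat_lit 0x752222) (nat_lit 0x0) (nat_lit 0x391dbff80) qS_5))))))))))))))))))))

noncomputable def qS_3 : PL :=
  (PL.C (nat_lit 0x532221) (nat_lit 0x0) (nat_lit 0x945616360)
  (PL.C (nat_lit 0x643300) (nat_lit 0x34fd62480) (nat_lit 0x0)
  (PL.C (nat_lit 0x633211) (nat_lit 0x0) (nat_lit 0xa7eccec40)
  (PL.C (nat_lit 0x433221) (nat_lit 0x0) (nat_lit 0x113ed6caa0)
  (PL.C (nat_lit 0x552220) (nat_lit 0x0) (nat_lit 0xb03028100)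
  (PL.C (nat_lit 0x544111) (nat_lit 0xb5f11660) (nat_lit 0x0)
  (PL.C (nat_lit 0x764100) (nat_lit 0x0) (nat_lit 0x8e4cb600)
  (PL.C (nat_lit 0x762111) (nat_lit 0x470c2fc80) (nat_lit 0x0)
  (PL.C (nat_lit 0x744200) (nat_lit 0x0) (nat_lit 0x54269a40)
  (PL.C (nat_lit 0x653210) (nat_lit 0x0) (nat_lit 0xa548f5300)
  (PL.C (nat_lit 0x742211) (nat_lit 0x0) (nat_lit 0xe98743a0)
  (PL.C (nat_lit 0x543220) (nat_lit 0x70a1e77e0) (nat_lit 0x0)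
  (PL.C (nat_lit 0x643310) (nat_lit 0x0) (nat_lit 0x3b7d44620)
  (PL.C (nat_lit 0x655200) (nat_lit 0x3bfc96220) (nat_lit 0x0)
  (PL.C (nat_lit 0x443320) (nat_lit 0x1340c939e0) (nat_lit 0x0)
  (PL.C (nat_lit 0x552221) (nat_lit 0x0) (nat_lit 0x33cf447c0)
  (PL.C (nat_lit 0x764110) (nat_lit 0x0) (nat_lit 0x4d5d0bcc0)
  (PL.C (nat_lit 0x654300) (nat_lit 0xd900ac600) (nat_lit 0x0)
  (PL.C (nat_lit 0x744210) (nat_lit 0x0) (nat_lit 0x1bed603c0)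
  (PL.C (nat_lit 0x653211) (nat_lit 0x0) (nat_lit 0xc07b3a020) qS_4))))))))))))))))))))

noncomputable def qS_2 : PL :=
  (PL.C (nat_lit 0x762000) (nat_lit 0x3ecdfdd20) (nat_lit 0x0)
  (PL.C (nat_lit 0x722210) (nat_lit 0x62de082a0) (nat_lit 0x0)
  (PL.C (nat_lit 0x443110) (nat_lit 0xc43f99e40) (nat_lit 0x0)
  (PL.C (nat_lit 0x633200) (nat_lit 0x0) (nat_lit 0x80c791850)
  (PL.C (nat_lit 0x651111) (nat_lit 0x0) (nat_lit 0x5cb73ac0)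
  (PL.C (nat_lit 0x332221) (nat_lit 0x0) (nat_lit 0x11950c3040)
  (PL.C (nat_lit 0x544100) (nat_lit 0xa330af0e0) (nat_lit 0x0)
  (PL.C (nat_lit 0x542111) (nat_lit 0x0) (nat_lit 0x7b6a42dc0)
  (PL.C (nat_lit 0x762100) (nat_lit 0x6863a1060) (nat_lit 0x0)
  (PL.C (nat_lit 0x742200) (nat_lit 0x0) (nat_lit 0x352540560)
  (PL.C (nat_lit 0x722211) (nat_lit 0x52b129aa0) (nat_lit 0x0)
  (PL.C (nat_lit 0x532220) (nat_lit 0x0) (nat_lit 0x18d7b1ec8)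
  (PL.C (nat_lit 0x443111) (nat_lit 0x1c32604c0) (nat_lit 0x0)
  (PL.C (nat_lit 0x633210) (nat_lit 0x0) (nat_lit 0x11aae0fea0)
  (PL.C (nat_lit 0x433220) (nat_lit 0x50afd0778) (nat_lit 0x0)
  (PL.C (nat_lit 0x544110) (nat_lit 0x45630cd20) (nat_lit 0x0)
  (PL.C (nat_lit 0x764000) (nat_lit 0x6b68b440) (nat_lit 0x0)
  (PL.C (nat_lit 0x762110) (nat_lit 0x528e579a0) (nat_lit 0x0)
  (PL.C (nat_lit 0x653200) (nat_lit 0x0) (nat_lit 0x53e85bae0)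
  (PL.C (nat_lit 0x742210) (nat_lit 0x0) (nat_lit 0x23860a380) qS_3))))))))))))))))))))

noncomputable def qS_1 : PL :=
  (PL.C (nat_lit 0x522100) (nat_lit 0x0) (nat_lit 0xcb3bd6f40)
  (PL.C (nat_lit 0x631100) (nat_lit 0x0) (nat_lit 0xc9402a1c0)
  (PL.C (nat_lit 0x432100) (nat_lit 0xe0e9a8dc0) (nat_lit 0x0)
  (PL.C (nat_lit 0x322111) (nat_lit 0x0) (nat_lit 0xb53e86760)
  (PL.C (nat_lit 0x651000) (nat_lit 0x9d9575160) (nat_lit 0x0)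
  (PL.C (nat_lit 0x542000) (nat_lit 0x20d737120) (nat_lit 0x0)
  (PL.C (nat_lit 0x522110) (nat_lit 0x0) (nat_lit 0x9f3784860)
  (PL.C (nat_lit 0x631110) (nat_lit 0x0) (nat_lit 0xab5032860)
  (PL.C (nat_lit 0x443000) (nat_lit 0x114c929980) (nat_lit 0x0)
  (PL.C (nat_lit 0x432110) (nat_lit 0x2bbc8b6e0) (nat_lit 0x0)
  (PL.C (nat_lit 0x651100) (nat_lit 0x76db21b40) (nat_lit 0x0)
  (PL.C (nat_lit 0x542100) (nat_lit 0x81f465f60) (nat_lit 0x0)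
  (PL.C (nat_lit 0x522111) (nat_lit 0x0) (nat_lit 0x494361ee0)
  (PL.C (nat_lit 0x631111) (nat_lit 0x0) (nat_lit 0x1ede05f80)
  (PL.C (nat_lit 0x443100) (nat_lit 0x12239a44a0) (nat_lit 0x0)
  (PL.C (nat_lit 0x432111) (nat_lit 0x0) (nat_lit 0x6cdc61aa0)
  (PL.C (nat_lit 0x651110) (nat_lit 0x475d0b00) (nat_lit 0x0)
  (PL.C (nat_lit 0x332220) (nat_lit 0x8336242c0) (nat_lit 0x0)
  (PL.C (nat_lit 0x544000) (nat_lit 0x4b96894e0) (nat_lit 0x0)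
  (PL.C (nat_lit 0x542110) (nat_lit 0x0) (nat_lit 0x7d1bacf60) qS_2))))))))))))))))))))

noncomputable def qS : PL :=
  (PL.C (nat_lit 0x200000) (nat_lit 0x58cc7dd00) (nat_lit 0x0)
  (PL.C (nat_lit 0x210000) (nat_lit 0x0) (nat_lit 0xd23b9a5c0)
  (PL.C (nat_lit 0x400000) (nat_lit 0xbb7420320) (nat_lit 0x0)
  (PL.C (nat_lit 0x211000) (nat_lit 0x0) (nat_lit 0xffbc4eb80)
  (PL.C (nat_lit 0x410000) (nat_lit 0x1258f39de0) (nat_lit 0x0)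
  (PL.C (nat_lit 0x211100) (nat_lit 0x0) (nat_lit 0x7798bfb20)
  (PL.C (nat_lit 0x411000) (nat_lit 0xe6fd656a0) (nat_lit 0x0)
  (PL.C (nat_lit 0x211110) (nat_lit 0x0) (nat_lit 0x60682a120)
  (PL.C (nat_lit 0x411100) (nat_lit 0x825c611a0) (nat_lit 0x0)
  (PL.C (nat_lit 0x211111) (nat_lit 0x0) (nat_lit 0x25262d780)
  (PL.C (nat_lit 0x322000) (nat_lit 0xd7f7ba340) (nat_lit 0x0)
  (PL.C (nat_lit 0x411110) (nat_lit 0x1d6e7c200) (nat_lit 0x0)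
  (PL.C (nat_lit 0x630000) (nat_lit 0x0) (nat_lit 0x37a50b9b8)
  (PL.C (nat_lit 0x322100) (nat_lit 0x0) (nat_lit 0x1d39649280)
  (PL.C (nat_lit 0x522000) (nat_lit 0x0) (nat_lit 0x1c4487c18)
  (PL.C (nat_lit 0x411111) (nat_lit 0x1e650180) (nat_lit 0x0)
  (PL.C (nat_lit 0x631000) (nat_lit 0x0) (nat_lit 0xdb686a420)
  (PL.C (nat_lit 0x432000) (nat_lit 0x1482de3548) (nat_lit 0x0)
  (PL.C (nat_lit 0x322110) (nat_lit 0x0) (nat_lit 0x775d93420)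
  (PL.C (nat_lit 0x650000) (nat_lit 0x6c2b278c0) (nat_lit 0x0) qS_1))))))))))))))))))))

noncomputable def its1_85 : IL :=
  (IL.C (nat_lit 0) (nat_lit 0x490cebd5f6) (nat_lit 0xa766) (nat_lit 0xa766)
  (IL.C (nat_lit 2) (nat_lit 0x1900698) (nat_lit 0xa766) (nat_lit 0xd776)
  (IL.C (nat_lit 0) (nat_lit 0x5477763504) (nat_lit 0xd774) (nat_lit 0xd774)
  (IL.C (nat_lit 1) (nat_lit 0x5fe594) (nat_lit 0xd774) (nat_lit 0xe665)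
  (IL.C (nat_lit 1) (nat_lit 0x4a965a6) (nat_lit 0xd774) (nat_lit 0xc766)
  (IL.C (nat_lit 2) (nat_lit 0x1a4108c) (nat_lit 0xd774) (nat_lit 0xb776)
  (IL.C (nat_lit 0) (nat_lit 0x4bbd67502e) (nat_lit 0xc766) (nat_lit 0xc766)
  (IL.C (nat_lit 2) (nat_lit 0x22dc8a) (nat_lit 0xc766) (nat_lit 0xb776)
  (IL.C (nat_lit 0) (nat_lit 0x2270b4469a) (nat_lit 0xd776) (nat_lit 0xd776) IL.Z)))))))))

noncomputable def its1_84 : IL :=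
  (IL.C (nat_lit 1) (nat_lit 0xa479632) (nat_lit 0x8764) (nat_lit 0xd776)
  (IL.C (nat_lit 2) (nat_lit 0x25153dc) (nat_lit 0x8764) (nat_lit 0xc665)
  (IL.C (nat_lit 2) (nat_lit 0x9f72a1e) (nat_lit 0x8764) (nat_lit 0xb765)
  (IL.C (nat_lit 0) (nat_lit 0x251a04cad4a) (nat_lit 0xc663) (nat_lit 0xc663)
  (IL.C (nat_lit 1) (nat_lit 0xe5f2a62) (nat_lit 0xc663) (nat_lit 0xc665)
  (IL.C (nat_lit 2) (nat_lit 0xf49c2f0) (nat_lit 0xc663) (nat_lit 0xb763)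
  (IL.C (nat_lit 2) (nat_lit 0x10d1d3da) (nat_lit 0xc663) (nat_lit 0xb765)
  (IL.C (nat_lit 2) (nat_lit 0x2a6af9a) (nat_lit 0xb763) (nat_lit 0xc665)
  (IL.C (nat_lit 1) (nat_lit 0x1723097c) (nat_lit 0xc644) (nat_lit 0xa665)
  (IL.C (nat_lit 2) (nat_lit 0x44bef62) (nat_lit 0xc644) (nat_lit 0xb655)
  (IL.C (nat_lit 1) (nat_lit 0x7a45260) (nat_lit 0xb744) (nat_lit 0xa665)
  (IL.C (nat_lit 2) (nat_lit 0x9a1fdb8) (nat_lit 0xb744) (nat_lit 0xb655)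
  (IL.C (nat_lit 2) (nat_lit 0x762f26c) (nat_lit 0x8665) (nat_lit 0xd744)
  (IL.C (nat_lit 0) (nat_lit 0xf7f0e81a78) (nat_lit 0xe644) (nat_lit 0xe644)
  (IL.C (nat_lit 1) (nat_lit 0x24dd9fc) (nat_lit 0xe644) (nat_lit 0xc665)
  (IL.C (nat_lit 1) (nat_lit 0x3db7e8a) (nat_lit 0xe644) (nat_lit 0xb765)
  (IL.C (nat_lit 2) (nat_lit 0x71255dc) (nat_lit 0xe644) (nat_lit 0xd754)
  (IL.C (nat_lit 1) (nat_lit 0x3c6a462) (nat_lit 0xd744) (nat_lit 0xd655)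
  (IL.C (nat_lit 0) (nat_lit 0x2928f2f8770) (nat_lit 0xc654) (nat_lit 0xc654)
  (IL.C (nat_lit 1) (nat_lit 0x1931a9e) (nat_lit 0xc654) (nat_lit 0xb754)
  (IL.C (nat_lit 1) (nat_lit 0x256f7d0) (nat_lit 0xc654) (nat_lit 0xa764)
  (IL.C (nat_lit 2) (nat_lit 0x6adb494) (nat_lit 0xc654) (nat_lit 0x9765)
  (IL.C (nat_lit 2) (nat_lit 0x3c80bca) (nat_lit 0x9764) (nat_lit 0xa665)
  (IL.C (nat_lit 2) (nat_lit 0x2c2d0a6) (nat_lit 0x9764) (nat_lit 0xd765)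
  (IL.C (nat_lit 0) (nat_lit 0x10d67212680) (nat_lit 0x7766) (nat_lit 0x7766)
  (IL.C (nat_lit 1) (nat_lit 0x9356b6e) (nat_lit 0x7766) (nat_lit 0xd774)
  (IL.C (nat_lit 1) (nat_lit 0x4a1f222) (nat_lit 0x7766) (nat_lit 0xc766)
  (IL.C (nat_lit 2) (nat_lit 0xda32ea) (nat_lit 0x7766) (nat_lit 0xa764)
  (IL.C (nat_lit 0) (nat_lit 0x1d195640812) (nat_lit 0xa764) (nat_lit 0xa764)
  (IL.C (nat_lit 2) (nat_lit 0x72db852) (nat_lit 0xa764) (nat_lit 0x9765)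
  (IL.C (nat_lit 2) (nat_lit 0xf19deb6) (nat_lit 0xa764) (nat_lit 0xd774)
  (IL.C (nat_lit 2) (nat_lit 0x12d53dd4) (nat_lit 0xa764) (nat_lit 0xe665)
  (IL.C (nat_lit 2) (nat_lit 0x438a82) (nat_lit 0xa764) (nat_lit 0xc766)
  (IL.C (nat_lit 2) (nat_lit 0x2687666) (nat_lit 0xa764) (nat_lit 0xb776)
  (IL.C (nat_lit 1) (nat_lit 0xd95bcc4) (nat_lit 0xd754) (nat_lit 0xb765)
  (IL.C (nat_lit 2) (nat_lit 0xb20f5a) (nat_lit 0xd754) (nat_lit 0xc665)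
  (IL.C (nat_lit 0) (nat_lit 0x21b0c44498) (nat_lit 0x8766) (nat_lit 0x8766)
  (IL.C (nat_lit 1) (nat_lit 0x2233228) (nat_lit 0xe664) (nat_lit 0xd765)
  (IL.C (nat_lit 0) (nat_lit 0x123dd272198) (nat_lit 0xc665) (nat_lit 0xc665)
  (IL.C (nat_lit 1) (nat_lit 0x2597696) (nat_lit 0xc665) (nat_lit 0xb765) its1_85))))))))))))))))))))))))))))))))))))))))

noncomputable def its1_83 : IL :=
  (IL.C (nat_lit 2) (nat_lit 0x1341b8b8) (nat_lit 0xe444) (nat_lit 0xb754)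
  (IL.C (nat_lit 2) (nat_lit 0x184d4e8e) (nat_lit 0xe444) (nat_lit 0xa764)
  (IL.C (nat_lit 2) (nat_lit 0x4532994) (nat_lit 0xe444) (nat_lit 0x9765)
  (IL.C (nat_lit 1) (nat_lit 0x8dde70a) (nat_lit 0xa663) (nat_lit 0xb744)
  (IL.C (nat_lit 1) (nat_lit 0x10bcc438) (nat_lit 0xd743) (nat_lit 0x9655)
  (IL.C (nat_lit 1) (nat_lit 0x5d9d6d8) (nat_lit 0xd743) (nat_lit 0xb763)
  (IL.C (nat_lit 2) (nat_lit 0x11508fe4) (nat_lit 0xd743) (nat_lit 0x7665)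
  (IL.C (nat_lit 2) (nat_lit 0x28b11e16) (nat_lit 0xd743) (nat_lit 0xc663)
  (IL.C (nat_lit 2) (nat_lit 0xbe3e5fe) (nat_lit 0xd743) (nat_lit 0xc665)
  (IL.C (nat_lit 2) (nat_lit 0x140c8a8a) (nat_lit 0xd743) (nat_lit 0xb765)
  (IL.C (nat_lit 0) (nat_lit 0x2e06feaf5e8) (nat_lit 0x9744) (nat_lit 0x9744)
  (IL.C (nat_lit 1) (nat_lit 0x30fd4002) (nat_lit 0x9744) (nat_lit 0x7665)
  (IL.C (nat_lit 1) (nat_lit 0x1a1a3954) (nat_lit 0x9744) (nat_lit 0xa654)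
  (IL.C (nat_lit 2) (nat_lit 0xc536e74) (nat_lit 0x9744) (nat_lit 0x9655)
  (IL.C (nat_lit 1) (nat_lit 0xbce7c00) (nat_lit 0xd544) (nat_lit 0x7666)
  (IL.C (nat_lit 1) (nat_lit 0x939b85e) (nat_lit 0xd544) (nat_lit 0x9665)
  (IL.C (nat_lit 1) (nat_lit 0x15c1883e) (nat_lit 0xe662) (nat_lit 0x9764)
  (IL.C (nat_lit 1) (nat_lit 0x2cfaf6a) (nat_lit 0xe662) (nat_lit 0xa665)
  (IL.C (nat_lit 1) (nat_lit 0x452bc98) (nat_lit 0xe662) (nat_lit 0xd765)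
  (IL.C (nat_lit 2) (nat_lit 0x1764746) (nat_lit 0xe662) (nat_lit 0xd763)
  (IL.C (nat_lit 0) (nat_lit 0x55a012f1ffe) (nat_lit 0x7665) (nat_lit 0x7665)
  (IL.C (nat_lit 1) (nat_lit 0x2b7cd01c) (nat_lit 0x7665) (nat_lit 0xa654)
  (IL.C (nat_lit 1) (nat_lit 0x42ceef38) (nat_lit 0x7665) (nat_lit 0xb763)
  (IL.C (nat_lit 1) (nat_lit 0xea9ac8a) (nat_lit 0x7665) (nat_lit 0xc665)
  (IL.C (nat_lit 2) (nat_lit 0x26ac5946) (nat_lit 0x7665) (nat_lit 0xc663)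
  (IL.C (nat_lit 2) (nat_lit 0x4eaab5c) (nat_lit 0xa654) (nat_lit 0x9655)
  (IL.C (nat_lit 0) (nat_lit 0x98157e3ce6) (nat_lit 0xd772) (nat_lit 0xd772)
  (IL.C (nat_lit 1) (nat_lit 0x27d06f0) (nat_lit 0xd772) (nat_lit 0xe665)
  (IL.C (nat_lit 2) (nat_lit 0x99bd60) (nat_lit 0xd772) (nat_lit 0xe663)
  (IL.C (nat_lit 2) (nat_lit 0x142f961e) (nat_lit 0xd772) (nat_lit 0x7766)
  (IL.C (nat_lit 2) (nat_lit 0x61f2f9c) (nat_lit 0xd772) (nat_lit 0xa764)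
  (IL.C (nat_lit 2) (nat_lit 0x3e91282) (nat_lit 0xd772) (nat_lit 0x9765)
  (IL.C (nat_lit 2) (nat_lit 0x15d4b3c) (nat_lit 0xd772) (nat_lit 0xd774)
  (IL.C (nat_lit 2) (nat_lit 0x316e470) (nat_lit 0xd772) (nat_lit 0xc766)
  (IL.C (nat_lit 2) (nat_lit 0x47adf44) (nat_lit 0xd772) (nat_lit 0xb776)
  (IL.C (nat_lit 2) (nat_lit 0x103d8d0) (nat_lit 0xd554) (nat_lit 0xb655)
  (IL.C (nat_lit 2) (nat_lit 0xbf1eeee) (nat_lit 0xd554) (nat_lit 0xa665)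
  (IL.C (nat_lit 0) (nat_lit 0xdba5b4df32) (nat_lit 0x8764) (nat_lit 0x8764)
  (IL.C (nat_lit 1) (nat_lit 0xcdd9fca) (nat_lit 0x8764) (nat_lit 0xe644)
  (IL.C (nat_lit 1) (nat_lit 0x9fda33c) (nat_lit 0x8764) (nat_lit 0xa766) its1_84))))))))))))))))))))))))))))))))))))))))

noncomputable def its1_82 : IL :=
  (IL.C (nat_lit 2) (nat_lit 0x17bbe500) (nat_lit 0xa544) (nat_lit 0x8655)
  (IL.C (nat_lit 2) (nat_lit 0xc187d28) (nat_lit 0xa544) (nat_lit 0xb754)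
  (IL.C (nat_lit 1) (nat_lit 0xdec90ac) (nat_lit 0x6655) (nat_lit 0xd554)
  (IL.C (nat_lit 1) (nat_lit 0x1b140a2) (nat_lit 0x6655) (nat_lit 0xb744)
  (IL.C (nat_lit 0) (nat_lit 0x2889ffd4a2a) (nat_lit 0xa762) (nat_lit 0xa762)
  (IL.C (nat_lit 1) (nat_lit 0x21ad5ec) (nat_lit 0xa762) (nat_lit 0xd772)
  (IL.C (nat_lit 1) (nat_lit 0x2e2a8e) (nat_lit 0xa762) (nat_lit 0xb776)
  (IL.C (nat_lit 2) (nat_lit 0x69dfe3e) (nat_lit 0xa762) (nat_lit 0x9763)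
  (IL.C (nat_lit 2) (nat_lit 0x1268a9d6) (nat_lit 0xa762) (nat_lit 0xe663)
  (IL.C (nat_lit 2) (nat_lit 0x21544558) (nat_lit 0xa762) (nat_lit 0xc654)
  (IL.C (nat_lit 2) (nat_lit 0x311677ce) (nat_lit 0xa762) (nat_lit 0xb754)
  (IL.C (nat_lit 2) (nat_lit 0x635a0c0) (nat_lit 0xa762) (nat_lit 0x7766)
  (IL.C (nat_lit 2) (nat_lit 0x2199be3a) (nat_lit 0xa762) (nat_lit 0xa764)
  (IL.C (nat_lit 2) (nat_lit 0x70c6fd0) (nat_lit 0xa762) (nat_lit 0x9765)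
  (IL.C (nat_lit 2) (nat_lit 0xbbf79e0) (nat_lit 0xa762) (nat_lit 0xc766)
  (IL.C (nat_lit 0) (nat_lit 0x16eb4cfc44c) (nat_lit 0x8744) (nat_lit 0x8744)
  (IL.C (nat_lit 1) (nat_lit 0xca9b936) (nat_lit 0x8744) (nat_lit 0xd555)
  (IL.C (nat_lit 1) (nat_lit 0x41809fc) (nat_lit 0x8744) (nat_lit 0x7766)
  (IL.C (nat_lit 2) (nat_lit 0x1a539430) (nat_lit 0x8744) (nat_lit 0xe444)
  (IL.C (nat_lit 2) (nat_lit 0x7d45778) (nat_lit 0x8744) (nat_lit 0x8655)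
  (IL.C (nat_lit 2) (nat_lit 0xbb94eda) (nat_lit 0x8744) (nat_lit 0xc654)
  (IL.C (nat_lit 2) (nat_lit 0x173fbffc) (nat_lit 0x8744) (nat_lit 0xb754)
  (IL.C (nat_lit 2) (nat_lit 0x6e2cab8) (nat_lit 0x8744) (nat_lit 0xa764)
  (IL.C (nat_lit 2) (nat_lit 0x7f09a7c) (nat_lit 0x8744) (nat_lit 0x9765)
  (IL.C (nat_lit 1) (nat_lit 0x7b2722f8) (nat_lit 0xd752) (nat_lit 0x7665)
  (IL.C (nat_lit 1) (nat_lit 0xb7d4852) (nat_lit 0xd752) (nat_lit 0xa654)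
  (IL.C (nat_lit 1) (nat_lit 0x66aa7bc) (nat_lit 0xd752) (nat_lit 0xc663)
  (IL.C (nat_lit 1) (nat_lit 0xada4e7c) (nat_lit 0xd752) (nat_lit 0x9655)
  (IL.C (nat_lit 2) (nat_lit 0x873cdd2) (nat_lit 0xd752) (nat_lit 0xd743)
  (IL.C (nat_lit 2) (nat_lit 0x1c85b5a8) (nat_lit 0xd752) (nat_lit 0x9744)
  (IL.C (nat_lit 2) (nat_lit 0x1b106a48) (nat_lit 0xd752) (nat_lit 0xb763)
  (IL.C (nat_lit 2) (nat_lit 0x16660ecc) (nat_lit 0xd752) (nat_lit 0xe644)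
  (IL.C (nat_lit 2) (nat_lit 0x21c3bb0) (nat_lit 0xd752) (nat_lit 0xc665)
  (IL.C (nat_lit 2) (nat_lit 0x1716c958) (nat_lit 0xd752) (nat_lit 0xb765)
  (IL.C (nat_lit 0) (nat_lit 0xe8ca9eeeb0) (nat_lit 0xc444) (nat_lit 0xc444)
  (IL.C (nat_lit 2) (nat_lit 0x9e1c758) (nat_lit 0xc444) (nat_lit 0xb554)
  (IL.C (nat_lit 0) (nat_lit 0x11fdc064eec) (nat_lit 0xe444) (nat_lit 0xe444)
  (IL.C (nat_lit 1) (nat_lit 0xf91c00) (nat_lit 0xe444) (nat_lit 0xd555)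
  (IL.C (nat_lit 1) (nat_lit 0x14997ff4) (nat_lit 0xe444) (nat_lit 0xc654)
  (IL.C (nat_lit 1) (nat_lit 0x20b490de) (nat_lit 0xe444) (nat_lit 0x7766) its1_83))))))))))))))))))))))))))))))))))))))))

noncomputable def its1_81 : IL :=
  (IL.C (nat_lit 2) (nat_lit 0x2652d354) (nat_lit 0xe642) (nat_lit 0xe644)
  (IL.C (nat_lit 2) (nat_lit 0x41cc990) (nat_lit 0xe642) (nat_lit 0xd754)
  (IL.C (nat_lit 2) (nat_lit 0x1a944230) (nat_lit 0xe642) (nat_lit 0xb765)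
  (IL.C (nat_lit 1) (nat_lit 0x19825c3c) (nat_lit 0x9653) (nat_lit 0xd743)
  (IL.C (nat_lit 2) (nat_lit 0x355b643a) (nat_lit 0x9653) (nat_lit 0xd752)
  (IL.C (nat_lit 1) (nat_lit 0x3174ec0e) (nat_lit 0xd742) (nat_lit 0x8663)
  (IL.C (nat_lit 1) (nat_lit 0x643138a) (nat_lit 0xd742) (nat_lit 0xd655)
  (IL.C (nat_lit 2) (nat_lit 0x2db37fe) (nat_lit 0xd742) (nat_lit 0xd653)
  (IL.C (nat_lit 0) (nat_lit 0xc4d9fcae9de) (nat_lit 0xc652) (nat_lit 0xc652)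
  (IL.C (nat_lit 1) (nat_lit 0x285da5bc) (nat_lit 0xc652) (nat_lit 0xb752)
  (IL.C (nat_lit 1) (nat_lit 0xaf92eb88) (nat_lit 0xc652) (nat_lit 0x7654)
  (IL.C (nat_lit 1) (nat_lit 0x1c6a3d82) (nat_lit 0xc652) (nat_lit 0xc643)
  (IL.C (nat_lit 1) (nat_lit 0x1b61e842) (nat_lit 0xc652) (nat_lit 0xb743)
  (IL.C (nat_lit 1) (nat_lit 0x18899a5c) (nat_lit 0xc652) (nat_lit 0xc654)
  (IL.C (nat_lit 1) (nat_lit 0x1d89b716) (nat_lit 0xc652) (nat_lit 0xb754)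
  (IL.C (nat_lit 2) (nat_lit 0x98285c) (nat_lit 0xc652) (nat_lit 0xa762)
  (IL.C (nat_lit 2) (nat_lit 0x54daba4a) (nat_lit 0xc652) (nat_lit 0x9763)
  (IL.C (nat_lit 1) (nat_lit 0x7fc52e) (nat_lit 0x9544) (nat_lit 0xb655)
  (IL.C (nat_lit 2) (nat_lit 0x3fc2f132) (nat_lit 0xb752) (nat_lit 0x7654)
  (IL.C (nat_lit 2) (nat_lit 0x4aad9570) (nat_lit 0xb752) (nat_lit 0xa762)
  (IL.C (nat_lit 2) (nat_lit 0x87d8356) (nat_lit 0xb752) (nat_lit 0xc643)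
  (IL.C (nat_lit 2) (nat_lit 0x2ff05df8) (nat_lit 0xb752) (nat_lit 0x9763)
  (IL.C (nat_lit 2) (nat_lit 0x275784aa) (nat_lit 0xb752) (nat_lit 0xc654)
  (IL.C (nat_lit 0) (nat_lit 0xcfeda4a681c) (nat_lit 0x7654) (nat_lit 0x7654)
  (IL.C (nat_lit 1) (nat_lit 0x8555e5a8) (nat_lit 0x7654) (nat_lit 0xc654)
  (IL.C (nat_lit 2) (nat_lit 0x405c917a) (nat_lit 0x7654) (nat_lit 0x8744)
  (IL.C (nat_lit 2) (nat_lit 0x3c137ec0) (nat_lit 0x7654) (nat_lit 0xe444)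
  (IL.C (nat_lit 2) (nat_lit 0x100f1bc) (nat_lit 0x8663) (nat_lit 0xd744)
  (IL.C (nat_lit 1) (nat_lit 0xb2cd988) (nat_lit 0x9762) (nat_lit 0xa663)
  (IL.C (nat_lit 1) (nat_lit 0x173dbf0e) (nat_lit 0x9762) (nat_lit 0xb744)
  (IL.C (nat_lit 1) (nat_lit 0x10373a76) (nat_lit 0x9762) (nat_lit 0xd763)
  (IL.C (nat_lit 1) (nat_lit 0x20664a96) (nat_lit 0x9762) (nat_lit 0xb655)
  (IL.C (nat_lit 1) (nat_lit 0xcd63550) (nat_lit 0x9762) (nat_lit 0xa665)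
  (IL.C (nat_lit 2) (nat_lit 0x3c3a5ea) (nat_lit 0x9762) (nat_lit 0xc644)
  (IL.C (nat_lit 0) (nat_lit 0x1af8e951c54) (nat_lit 0xa544) (nat_lit 0xa544)
  (IL.C (nat_lit 1) (nat_lit 0xe16ab4e) (nat_lit 0xa544) (nat_lit 0x9554)
  (IL.C (nat_lit 1) (nat_lit 0x5897be0) (nat_lit 0xa544) (nat_lit 0xd555)
  (IL.C (nat_lit 1) (nat_lit 0xa1a0e96) (nat_lit 0xa544) (nat_lit 0xc654)
  (IL.C (nat_lit 2) (nat_lit 0x704f62a) (nat_lit 0xa544) (nat_lit 0x8744)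
  (IL.C (nat_lit 2) (nat_lit 0x14d7826e) (nat_lit 0xa544) (nat_lit 0xe444) its1_82))))))))))))))))))))))))))))))))))))))))

noncomputable def its1_80 : IL :=
  (IL.C (nat_lit 2) (nat_lit 0x184360f8) (nat_lit 0x8762) (nat_lit 0xe644)
  (IL.C (nat_lit 2) (nat_lit 0x11b613a4) (nat_lit 0x8762) (nat_lit 0xb765)
  (IL.C (nat_lit 2) (nat_lit 0x192d0d0) (nat_lit 0x8762) (nat_lit 0xd776)
  (IL.C (nat_lit 1) (nat_lit 0x2a2c75c) (nat_lit 0xc642) (nat_lit 0x6655)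
  (IL.C (nat_lit 1) (nat_lit 0x118f702c) (nat_lit 0xc642) (nat_lit 0xa663)
  (IL.C (nat_lit 2) (nat_lit 0x14c2241e) (nat_lit 0xc642) (nat_lit 0xb653)
  (IL.C (nat_lit 2) (nat_lit 0xfdf9b88) (nat_lit 0xc642) (nat_lit 0xb655)
  (IL.C (nat_lit 0) (nat_lit 0x41a34e20cdc) (nat_lit 0x7663) (nat_lit 0x7663)
  (IL.C (nat_lit 1) (nat_lit 0x102cb1ec) (nat_lit 0x7663) (nat_lit 0xd752)
  (IL.C (nat_lit 1) (nat_lit 0x52fa0c4) (nat_lit 0x7663) (nat_lit 0xd743)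
  (IL.C (nat_lit 1) (nat_lit 0x11a96420) (nat_lit 0x7663) (nat_lit 0x7665)
  (IL.C (nat_lit 2) (nat_lit 0x27ba56ba) (nat_lit 0x7663) (nat_lit 0xe642)
  (IL.C (nat_lit 2) (nat_lit 0x222e671e) (nat_lit 0x7663) (nat_lit 0xc663)
  (IL.C (nat_lit 1) (nat_lit 0x2c874cf8) (nat_lit 0xb742) (nat_lit 0x6655)
  (IL.C (nat_lit 1) (nat_lit 0x28200514) (nat_lit 0xb742) (nat_lit 0xb653)
  (IL.C (nat_lit 1) (nat_lit 0xe3e3436) (nat_lit 0xb742) (nat_lit 0xb655)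
  (IL.C (nat_lit 2) (nat_lit 0x43fd582) (nat_lit 0xb742) (nat_lit 0xa663)
  (IL.C (nat_lit 1) (nat_lit 0x23c9a63a) (nat_lit 0x7644) (nat_lit 0xb655)
  (IL.C (nat_lit 2) (nat_lit 0xbdaa2f8) (nat_lit 0x7644) (nat_lit 0x6655)
  (IL.C (nat_lit 1) (nat_lit 0x59524a8c) (nat_lit 0xa643) (nat_lit 0xd752)
  (IL.C (nat_lit 1) (nat_lit 0x35035a06) (nat_lit 0xa643) (nat_lit 0x7665)
  (IL.C (nat_lit 2) (nat_lit 0x199cb3cc) (nat_lit 0xa643) (nat_lit 0x9653)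
  (IL.C (nat_lit 2) (nat_lit 0x12cac1de) (nat_lit 0xa643) (nat_lit 0x9655)
  (IL.C (nat_lit 0) (nat_lit 0x160e9790a4) (nat_lit 0xe661) (nat_lit 0xe661)
  (IL.C (nat_lit 1) (nat_lit 0x4dbc4a) (nat_lit 0xe661) (nat_lit 0xd776)
  (IL.C (nat_lit 1) (nat_lit 0x69635fc) (nat_lit 0xa444) (nat_lit 0xb655)
  (IL.C (nat_lit 1) (nat_lit 0x1c0501c2) (nat_lit 0xd543) (nat_lit 0xb653)
  (IL.C (nat_lit 2) (nat_lit 0x6aee2db4) (nat_lit 0xd543) (nat_lit 0x6655)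
  (IL.C (nat_lit 2) (nat_lit 0x9ce06e2) (nat_lit 0xd543) (nat_lit 0xb655)
  (IL.C (nat_lit 0) (nat_lit 0x50d6f1ca39a) (nat_lit 0xe642) (nat_lit 0xe642)
  (IL.C (nat_lit 1) (nat_lit 0x20aac9b8) (nat_lit 0xe642) (nat_lit 0xd752)
  (IL.C (nat_lit 1) (nat_lit 0xb3a57c4) (nat_lit 0xe642) (nat_lit 0xd743)
  (IL.C (nat_lit 1) (nat_lit 0x7594210) (nat_lit 0xe642) (nat_lit 0x7665)
  (IL.C (nat_lit 1) (nat_lit 0x1bc69d96) (nat_lit 0xe642) (nat_lit 0x9655)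
  (IL.C (nat_lit 1) (nat_lit 0x2431e414) (nat_lit 0xe642) (nat_lit 0xc665)
  (IL.C (nat_lit 2) (nat_lit 0x41fbc1f2) (nat_lit 0xe642) (nat_lit 0x9653)
  (IL.C (nat_lit 2) (nat_lit 0x2da15ada) (nat_lit 0xe642) (nat_lit 0x9744)
  (IL.C (nat_lit 2) (nat_lit 0xe21557a) (nat_lit 0xe642) (nat_lit 0xa654)
  (IL.C (nat_lit 2) (nat_lit 0x5265a3e) (nat_lit 0xe642) (nat_lit 0xc663)
  (IL.C (nat_lit 2) (nat_lit 0x2f8a9b14) (nat_lit 0xe642) (nat_lit 0xb763) its1_81))))))))))))))))))))))))))))))))))))))))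

noncomputable def its1_79 : IL :=
  (IL.C (nat_lit 2) (nat_lit 0x70ab2b5a) (nat_lit 0xb552) (nat_lit 0xa654)
  (IL.C (nat_lit 2) (nat_lit 0x216dc90e) (nat_lit 0xb552) (nat_lit 0x9655)
  (IL.C (nat_lit 1) (nat_lit 0x694f165e) (nat_lit 0x6554) (nat_lit 0xa652)
  (IL.C (nat_lit 1) (nat_lit 0x1c464e64) (nat_lit 0xa652) (nat_lit 0x9653)
  (IL.C (nat_lit 1) (nat_lit 0xbe9c64c) (nat_lit 0xa652) (nat_lit 0xd743)
  (IL.C (nat_lit 1) (nat_lit 0x15625686) (nat_lit 0xa652) (nat_lit 0x7665)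
  (IL.C (nat_lit 1) (nat_lit 0x17e75ba) (nat_lit 0xa652) (nat_lit 0x9655)
  (IL.C (nat_lit 2) (nat_lit 0x5ac28112) (nat_lit 0xa652) (nat_lit 0xa643)
  (IL.C (nat_lit 2) (nat_lit 0x951b0c2) (nat_lit 0xa652) (nat_lit 0x9744)
  (IL.C (nat_lit 0) (nat_lit 0xab5bc933b4) (nat_lit 0xc661) (nat_lit 0xc661)
  (IL.C (nat_lit 1) (nat_lit 0xc220194) (nat_lit 0xc661) (nat_lit 0xe664)
  (IL.C (nat_lit 2) (nat_lit 0xa77f852) (nat_lit 0xc661) (nat_lit 0xb761)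
  (IL.C (nat_lit 2) (nat_lit 0x136d25a) (nat_lit 0xc661) (nat_lit 0xe662)
  (IL.C (nat_lit 2) (nat_lit 0x2639bc8) (nat_lit 0xc661) (nat_lit 0xd763)
  (IL.C (nat_lit 2) (nat_lit 0x12d243c) (nat_lit 0xc661) (nat_lit 0xd765)
  (IL.C (nat_lit 0) (nat_lit 0x11c7e6c08ba) (nat_lit 0x8544) (nat_lit 0x8544)
  (IL.C (nat_lit 1) (nat_lit 0x1c26f646) (nat_lit 0x8544) (nat_lit 0xc444)
  (IL.C (nat_lit 1) (nat_lit 0x1d000fae) (nat_lit 0xd552) (nat_lit 0x7644)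
  (IL.C (nat_lit 1) (nat_lit 0x7d0da1a) (nat_lit 0xd552) (nat_lit 0xd543)
  (IL.C (nat_lit 1) (nat_lit 0x14ac8384) (nat_lit 0xd552) (nat_lit 0x9544)
  (IL.C (nat_lit 1) (nat_lit 0x2339c1c4) (nat_lit 0xd552) (nat_lit 0x8654)
  (IL.C (nat_lit 1) (nat_lit 0x2a9e332) (nat_lit 0xd552) (nat_lit 0xb653)
  (IL.C (nat_lit 2) (nat_lit 0x17b805c) (nat_lit 0xd552) (nat_lit 0xa444)
  (IL.C (nat_lit 2) (nat_lit 0xbc1ce048) (nat_lit 0xd552) (nat_lit 0x6655)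
  (IL.C (nat_lit 2) (nat_lit 0x11cfa1ce) (nat_lit 0xd552) (nat_lit 0xc644)
  (IL.C (nat_lit 2) (nat_lit 0x8b9e170) (nat_lit 0xd552) (nat_lit 0xb744)
  (IL.C (nat_lit 2) (nat_lit 0x590a8a5a) (nat_lit 0xd552) (nat_lit 0xb655)
  (IL.C (nat_lit 1) (nat_lit 0x2c8cd2f6) (nat_lit 0xd443) (nat_lit 0xb652)
  (IL.C (nat_lit 1) (nat_lit 0x944afc6) (nat_lit 0xb543) (nat_lit 0x9655)
  (IL.C (nat_lit 0) (nat_lit 0x19d8afda63c) (nat_lit 0x8762) (nat_lit 0x8762)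
  (IL.C (nat_lit 1) (nat_lit 0xd4b6ca4) (nat_lit 0x8762) (nat_lit 0x7663)
  (IL.C (nat_lit 1) (nat_lit 0x308b0140) (nat_lit 0x8762) (nat_lit 0xd743)
  (IL.C (nat_lit 1) (nat_lit 0xe31f6fe) (nat_lit 0x8762) (nat_lit 0x8764)
  (IL.C (nat_lit 1) (nat_lit 0x176d4a2e) (nat_lit 0x8762) (nat_lit 0xb763)
  (IL.C (nat_lit 1) (nat_lit 0x27920408) (nat_lit 0x8762) (nat_lit 0xd754)
  (IL.C (nat_lit 1) (nat_lit 0x6b8b494) (nat_lit 0x8762) (nat_lit 0xc665)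
  (IL.C (nat_lit 1) (nat_lit 0xeb19f9a) (nat_lit 0x8762) (nat_lit 0xa766)
  (IL.C (nat_lit 2) (nat_lit 0xad12120) (nat_lit 0x8762) (nat_lit 0xe642)
  (IL.C (nat_lit 2) (nat_lit 0x263264c4) (nat_lit 0x8762) (nat_lit 0x7665)
  (IL.C (nat_lit 2) (nat_lit 0x2274ba90) (nat_lit 0x8762) (nat_lit 0xc663) its1_80))))))))))))))))))))))))))))))))))))))))

noncomputable def its1_78 : IL :=
  (IL.C (nat_lit 2) (nat_lit 0xf045d44) (nat_lit 0x9761) (nat_lit 0x8762)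
  (IL.C (nat_lit 2) (nat_lit 0xce1017e) (nat_lit 0x9761) (nat_lit 0xc663)
  (IL.C (nat_lit 2) (nat_lit 0x12c91690) (nat_lit 0x9761) (nat_lit 0xe644)
  (IL.C (nat_lit 2) (nat_lit 0xf0c0f0a) (nat_lit 0x9761) (nat_lit 0xd754)
  (IL.C (nat_lit 2) (nat_lit 0x1a133a) (nat_lit 0x9761) (nat_lit 0xa766)
  (IL.C (nat_lit 2) (nat_lit 0x842b4ca) (nat_lit 0x9761) (nat_lit 0xd776)
  (IL.C (nat_lit 0) (nat_lit 0x6b10bac7424) (nat_lit 0xe442) (nat_lit 0xe442)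
  (IL.C (nat_lit 1) (nat_lit 0x5a4a3a4) (nat_lit 0xe442) (nat_lit 0xc652)
  (IL.C (nat_lit 1) (nat_lit 0x2ffa0c18) (nat_lit 0xe442) (nat_lit 0xb743)
  (IL.C (nat_lit 1) (nat_lit 0x201a2548) (nat_lit 0xe442) (nat_lit 0xe444)
  (IL.C (nat_lit 1) (nat_lit 0x8596e44) (nat_lit 0xe442) (nat_lit 0x8655)
  (IL.C (nat_lit 1) (nat_lit 0x14fd7416) (nat_lit 0xe442) (nat_lit 0xc654)
  (IL.C (nat_lit 2) (nat_lit 0xeac5c82) (nat_lit 0xe442) (nat_lit 0xb752)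
  (IL.C (nat_lit 2) (nat_lit 0x2dc83ef6) (nat_lit 0xe442) (nat_lit 0x7654)
  (IL.C (nat_lit 2) (nat_lit 0x8124cde) (nat_lit 0xe442) (nat_lit 0xa544)
  (IL.C (nat_lit 2) (nat_lit 0x71f6f80) (nat_lit 0xe442) (nat_lit 0xd553)
  (IL.C (nat_lit 2) (nat_lit 0x315c4c18) (nat_lit 0xe442) (nat_lit 0x8744)
  (IL.C (nat_lit 2) (nat_lit 0x20ca1fcc) (nat_lit 0xe442) (nat_lit 0xc643)
  (IL.C (nat_lit 2) (nat_lit 0x4b1498c) (nat_lit 0xe442) (nat_lit 0x9554)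
  (IL.C (nat_lit 2) (nat_lit 0x63ba08a) (nat_lit 0xe442) (nat_lit 0xd555)
  (IL.C (nat_lit 2) (nat_lit 0x19ec4026) (nat_lit 0xe442) (nat_lit 0xb754)
  (IL.C (nat_lit 1) (nat_lit 0xa0721c5a) (nat_lit 0xd732) (nat_lit 0x7663)
  (IL.C (nat_lit 1) (nat_lit 0x126dafec) (nat_lit 0xd732) (nat_lit 0xc663)
  (IL.C (nat_lit 1) (nat_lit 0x363992e) (nat_lit 0xd732) (nat_lit 0xb763)
  (IL.C (nat_lit 1) (nat_lit 0x6dcc1c8c) (nat_lit 0x8643) (nat_lit 0xd552)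
  (IL.C (nat_lit 0) (nat_lit 0x1051624bedf2) (nat_lit 0x9742) (nat_lit 0x9742)
  (IL.C (nat_lit 1) (nat_lit 0x5098ab2) (nat_lit 0x9742) (nat_lit 0x9653)
  (IL.C (nat_lit 1) (nat_lit 0x2c77ef8a) (nat_lit 0x9742) (nat_lit 0x7665)
  (IL.C (nat_lit 2) (nat_lit 0x9ff2e6) (nat_lit 0x9742) (nat_lit 0xa652)
  (IL.C (nat_lit 2) (nat_lit 0x143a2726) (nat_lit 0x9742) (nat_lit 0xa643)
  (IL.C (nat_lit 2) (nat_lit 0x36746df8) (nat_lit 0x9742) (nat_lit 0xe642)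
  (IL.C (nat_lit 2) (nat_lit 0x344a7062) (nat_lit 0x9742) (nat_lit 0xd752)
  (IL.C (nat_lit 2) (nat_lit 0x25b0151e) (nat_lit 0x9742) (nat_lit 0xd743)
  (IL.C (nat_lit 2) (nat_lit 0x10216412) (nat_lit 0x9742) (nat_lit 0x9744)
  (IL.C (nat_lit 2) (nat_lit 0x31f35ba) (nat_lit 0x9742) (nat_lit 0xa654)
  (IL.C (nat_lit 2) (nat_lit 0x6f73f5a) (nat_lit 0x9742) (nat_lit 0x9655)
  (IL.C (nat_lit 1) (nat_lit 0x4d6fa9ea) (nat_lit 0xb552) (nat_lit 0x8544)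
  (IL.C (nat_lit 1) (nat_lit 0x12e295a0) (nat_lit 0xb552) (nat_lit 0xb543)
  (IL.C (nat_lit 2) (nat_lit 0xa0e1264) (nat_lit 0xb552) (nat_lit 0xc444)
  (IL.C (nat_lit 2) (nat_lit 0x1502ac0) (nat_lit 0xb552) (nat_lit 0x9744) its1_79))))))))))))))))))))))))))))))))))))))))

noncomputable def its1_77 : IL :=
  (IL.C (nat_lit 2) (nat_lit 0x2c0f3a16) (nat_lit 0xc442) (nat_lit 0xb543)
  (IL.C (nat_lit 2) (nat_lit 0x1d991944) (nat_lit 0xc442) (nat_lit 0x9744)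
  (IL.C (nat_lit 2) (nat_lit 0x88e4f16) (nat_lit 0xc442) (nat_lit 0xb554)
  (IL.C (nat_lit 2) (nat_lit 0x929b294) (nat_lit 0xc442) (nat_lit 0xa654)
  (IL.C (nat_lit 0) (nat_lit 0x16686a62fe96) (nat_lit 0x7444) (nat_lit 0x7444)
  (IL.C (nat_lit 1) (nat_lit 0xcc70a872) (nat_lit 0x7444) (nat_lit 0x9742)
  (IL.C (nat_lit 1) (nat_lit 0x78ebe10) (nat_lit 0x7444) (nat_lit 0xa652)
  (IL.C (nat_lit 1) (nat_lit 0x20d6f4b4) (nat_lit 0x7444) (nat_lit 0xa643)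
  (IL.C (nat_lit 1) (nat_lit 0x22156f60) (nat_lit 0x7444) (nat_lit 0x9653)
  (IL.C (nat_lit 1) (nat_lit 0x214edca8) (nat_lit 0x7444) (nat_lit 0x9744)
  (IL.C (nat_lit 1) (nat_lit 0x31564988) (nat_lit 0x7444) (nat_lit 0xa654)
  (IL.C (nat_lit 2) (nat_lit 0x5196cd2) (nat_lit 0x7444) (nat_lit 0x6554)
  (IL.C (nat_lit 2) (nat_lit 0x2a810be4) (nat_lit 0x7444) (nat_lit 0x9655)
  (IL.C (nat_lit 1) (nat_lit 0x20eb26d8) (nat_lit 0x8652) (nat_lit 0x7644)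
  (IL.C (nat_lit 1) (nat_lit 0x52ac9fc2) (nat_lit 0x8652) (nat_lit 0xc644)
  (IL.C (nat_lit 1) (nat_lit 0xe65ce6e) (nat_lit 0x8652) (nat_lit 0xb744)
  (IL.C (nat_lit 1) (nat_lit 0x153d7b92) (nat_lit 0x8652) (nat_lit 0x9764)
  (IL.C (nat_lit 2) (nat_lit 0x3f302c68) (nat_lit 0x8652) (nat_lit 0x8643)
  (IL.C (nat_lit 2) (nat_lit 0x3ef12f8) (nat_lit 0x8652) (nat_lit 0xd543)
  (IL.C (nat_lit 2) (nat_lit 0x11447762) (nat_lit 0x8652) (nat_lit 0xa663)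
  (IL.C (nat_lit 1) (nat_lit 0x7b83c350) (nat_lit 0x6653) (nat_lit 0xb742)
  (IL.C (nat_lit 0) (nat_lit 0xa6583e0934) (nat_lit 0xe641) (nat_lit 0xe641)
  (IL.C (nat_lit 1) (nat_lit 0x8c2b3e6) (nat_lit 0xe641) (nat_lit 0xd751)
  (IL.C (nat_lit 1) (nat_lit 0x19984836) (nat_lit 0xe641) (nat_lit 0xd772)
  (IL.C (nat_lit 1) (nat_lit 0x8279f2) (nat_lit 0xe641) (nat_lit 0x7766)
  (IL.C (nat_lit 1) (nat_lit 0x6bef7b8) (nat_lit 0xe641) (nat_lit 0xd774)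
  (IL.C (nat_lit 2) (nat_lit 0x42dd406) (nat_lit 0xe641) (nat_lit 0xe663)
  (IL.C (nat_lit 2) (nat_lit 0x16fde7a) (nat_lit 0xe641) (nat_lit 0xe665)
  (IL.C (nat_lit 1) (nat_lit 0xfeae5b6) (nat_lit 0xa661) (nat_lit 0xd744)
  (IL.C (nat_lit 1) (nat_lit 0xd68f3a8) (nat_lit 0xd741) (nat_lit 0xb761)
  (IL.C (nat_lit 2) (nat_lit 0x10946fea) (nat_lit 0xd741) (nat_lit 0xc661)
  (IL.C (nat_lit 2) (nat_lit 0x8d20678) (nat_lit 0xd741) (nat_lit 0xe662)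
  (IL.C (nat_lit 0) (nat_lit 0x22def0a238) (nat_lit 0xe660) (nat_lit 0xe660)
  (IL.C (nat_lit 2) (nat_lit 0x7215442) (nat_lit 0xe660) (nat_lit 0xa766)
  (IL.C (nat_lit 2) (nat_lit 0x104ec9c) (nat_lit 0xe660) (nat_lit 0xd776)
  (IL.C (nat_lit 0) (nat_lit 0xd25006f4e0) (nat_lit 0x9761) (nat_lit 0x9761)
  (IL.C (nat_lit 1) (nat_lit 0x2d9313c) (nat_lit 0x9761) (nat_lit 0x8764)
  (IL.C (nat_lit 1) (nat_lit 0x36c5d4c) (nat_lit 0x9761) (nat_lit 0xb763)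
  (IL.C (nat_lit 1) (nat_lit 0x9cbe752) (nat_lit 0x9761) (nat_lit 0xc665)
  (IL.C (nat_lit 1) (nat_lit 0x667586) (nat_lit 0x9761) (nat_lit 0xb765) its1_78))))))))))))))))))))))))))))))))))))))))

noncomputable def its1_76 : IL :=
  (IL.C (nat_lit 1) (nat_lit 0x1f96ca80) (nat_lit 0x8742) (nat_lit 0xd553)
  (IL.C (nat_lit 1) (nat_lit 0xefb31ec) (nat_lit 0x8742) (nat_lit 0xb743)
  (IL.C (nat_lit 1) (nat_lit 0x2022028) (nat_lit 0x8742) (nat_lit 0x9763)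
  (IL.C (nat_lit 1) (nat_lit 0x1d5638c) (nat_lit 0x8742) (nat_lit 0xc654)
  (IL.C (nat_lit 1) (nat_lit 0xe0c120a) (nat_lit 0x8742) (nat_lit 0xb754)
  (IL.C (nat_lit 2) (nat_lit 0x1f1313c) (nat_lit 0x8742) (nat_lit 0xc632)
  (IL.C (nat_lit 2) (nat_lit 0xcc8b1ac) (nat_lit 0x8742) (nat_lit 0xb752)
  (IL.C (nat_lit 2) (nat_lit 0x575b8) (nat_lit 0x8742) (nat_lit 0x8744)
  (IL.C (nat_lit 2) (nat_lit 0x20171290) (nat_lit 0x8742) (nat_lit 0xc643)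
  (IL.C (nat_lit 2) (nat_lit 0x6f5142c) (nat_lit 0x8742) (nat_lit 0x8655)
  (IL.C (nat_lit 2) (nat_lit 0x3521c106) (nat_lit 0x8742) (nat_lit 0xa764)
  (IL.C (nat_lit 2) (nat_lit 0x1d07997c) (nat_lit 0x8742) (nat_lit 0x9765)
  (IL.C (nat_lit 1) (nat_lit 0x1de953ea) (nat_lit 0x9633) (nat_lit 0xa652)
  (IL.C (nat_lit 2) (nat_lit 0x129dc19a) (nat_lit 0x9633) (nat_lit 0xd732)
  (IL.C (nat_lit 2) (nat_lit 0x4ff543ae) (nat_lit 0x9633) (nat_lit 0xe642)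
  (IL.C (nat_lit 2) (nat_lit 0x296a6f46) (nat_lit 0x9633) (nat_lit 0xd752)
  (IL.C (nat_lit 2) (nat_lit 0x1c3a4d4a) (nat_lit 0x9633) (nat_lit 0xd743)
  (IL.C (nat_lit 2) (nat_lit 0x2104ddce) (nat_lit 0x9633) (nat_lit 0x7665)
  (IL.C (nat_lit 0) (nat_lit 0x8b4d24a1ba4) (nat_lit 0xc632) (nat_lit 0xc632)
  (IL.C (nat_lit 1) (nat_lit 0x9578f80) (nat_lit 0xc632) (nat_lit 0xc652)
  (IL.C (nat_lit 1) (nat_lit 0x12fbe692) (nat_lit 0xc632) (nat_lit 0xa762)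
  (IL.C (nat_lit 1) (nat_lit 0x22d90ed6) (nat_lit 0xc632) (nat_lit 0xb743)
  (IL.C (nat_lit 2) (nat_lit 0x9010820) (nat_lit 0xc632) (nat_lit 0xb732)
  (IL.C (nat_lit 2) (nat_lit 0xede6f6e) (nat_lit 0xc632) (nat_lit 0xb752)
  (IL.C (nat_lit 2) (nat_lit 0x2150f550) (nat_lit 0xc632) (nat_lit 0x9763)
  (IL.C (nat_lit 1) (nat_lit 0x5baf29a) (nat_lit 0x9552) (nat_lit 0xa443)
  (IL.C (nat_lit 1) (nat_lit 0x5b1c7fa) (nat_lit 0x9552) (nat_lit 0xe442)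
  (IL.C (nat_lit 1) (nat_lit 0xfe03a66) (nat_lit 0x9552) (nat_lit 0xd553)
  (IL.C (nat_lit 1) (nat_lit 0xea30364) (nat_lit 0x9552) (nat_lit 0xb743)
  (IL.C (nat_lit 2) (nat_lit 0x12712a04) (nat_lit 0x9552) (nat_lit 0xa544)
  (IL.C (nat_lit 2) (nat_lit 0xb6512e0) (nat_lit 0x9552) (nat_lit 0xc643)
  (IL.C (nat_lit 1) (nat_lit 0x2ad5b176) (nat_lit 0xb651) (nat_lit 0xd742)
  (IL.C (nat_lit 1) (nat_lit 0x5f99a6a) (nat_lit 0x9443) (nat_lit 0xd552)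
  (IL.C (nat_lit 2) (nat_lit 0x9cf67c9a) (nat_lit 0x9443) (nat_lit 0x6653)
  (IL.C (nat_lit 2) (nat_lit 0x33c17332) (nat_lit 0x9443) (nat_lit 0xb653)
  (IL.C (nat_lit 0) (nat_lit 0xb7995573cfe) (nat_lit 0xc442) (nat_lit 0xc442)
  (IL.C (nat_lit 1) (nat_lit 0x2a2546ce) (nat_lit 0xc442) (nat_lit 0xc444)
  (IL.C (nat_lit 1) (nat_lit 0x1bc33b26) (nat_lit 0xc442) (nat_lit 0x9655)
  (IL.C (nat_lit 2) (nat_lit 0x2d9aaeee) (nat_lit 0xc442) (nat_lit 0xb552)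
  (IL.C (nat_lit 2) (nat_lit 0x23d553a4) (nat_lit 0xc442) (nat_lit 0x8544) its1_77))))))))))))))))))))))))))))))))))))))))

noncomputable def its1_75 : IL :=
  (IL.C (nat_lit 2) (nat_lit 0x9d9572) (nat_lit 0xa542) (nat_lit 0xb743)
  (IL.C (nat_lit 0) (nat_lit 0x76823fce32) (nat_lit 0x8761) (nat_lit 0x8761)
  (IL.C (nat_lit 1) (nat_lit 0xfcc3d6) (nat_lit 0x8761) (nat_lit 0xe641)
  (IL.C (nat_lit 1) (nat_lit 0x14e3a86c) (nat_lit 0x8761) (nat_lit 0x7766)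
  (IL.C (nat_lit 1) (nat_lit 0x5aa524a) (nat_lit 0x8761) (nat_lit 0xc766)
  (IL.C (nat_lit 2) (nat_lit 0x4ea7438) (nat_lit 0x8761) (nat_lit 0xd772)
  (IL.C (nat_lit 2) (nat_lit 0xf20c5a8) (nat_lit 0x8761) (nat_lit 0xd774)
  (IL.C (nat_lit 0) (nat_lit 0x275a8955484) (nat_lit 0xc641) (nat_lit 0xc641)
  (IL.C (nat_lit 1) (nat_lit 0x1d6efb0a) (nat_lit 0xc641) (nat_lit 0xd752)
  (IL.C (nat_lit 1) (nat_lit 0x3931bb2a) (nat_lit 0xc641) (nat_lit 0xc663)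
  (IL.C (nat_lit 1) (nat_lit 0x78122da) (nat_lit 0xc641) (nat_lit 0xb763)
  (IL.C (nat_lit 1) (nat_lit 0x191ac72e) (nat_lit 0xc641) (nat_lit 0xb765)
  (IL.C (nat_lit 2) (nat_lit 0x1a867848) (nat_lit 0xc641) (nat_lit 0xb741)
  (IL.C (nat_lit 2) (nat_lit 0x2ab83bbc) (nat_lit 0xc641) (nat_lit 0xe642)
  (IL.C (nat_lit 2) (nat_lit 0x26ce548) (nat_lit 0xc641) (nat_lit 0xd743)
  (IL.C (nat_lit 2) (nat_lit 0xb4e148) (nat_lit 0xc641) (nat_lit 0xc665)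
  (IL.C (nat_lit 1) (nat_lit 0xc712d54) (nat_lit 0xd433) (nat_lit 0x8652)
  (IL.C (nat_lit 1) (nat_lit 0x1053b4c8a) (nat_lit 0xd433) (nat_lit 0x6653)
  (IL.C (nat_lit 1) (nat_lit 0x2ac77e7a) (nat_lit 0xd433) (nat_lit 0xb653)
  (IL.C (nat_lit 2) (nat_lit 0x3eb8187c) (nat_lit 0xd433) (nat_lit 0xb633)
  (IL.C (nat_lit 2) (nat_lit 0x793bdaa) (nat_lit 0xd433) (nat_lit 0xd552)
  (IL.C (nat_lit 2) (nat_lit 0x413d0c6) (nat_lit 0xd433) (nat_lit 0x6655)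
  (IL.C (nat_lit 1) (nat_lit 0x33550fd4) (nat_lit 0xb741) (nat_lit 0xd752)
  (IL.C (nat_lit 2) (nat_lit 0x856350e) (nat_lit 0xb741) (nat_lit 0xc663)
  (IL.C (nat_lit 2) (nat_lit 0x89dd254) (nat_lit 0xb741) (nat_lit 0xc665)
  (IL.C (nat_lit 0) (nat_lit 0x10d42214996) (nat_lit 0xc660) (nat_lit 0xc660)
  (IL.C (nat_lit 1) (nat_lit 0xc69f2a8) (nat_lit 0xc660) (nat_lit 0xd763)
  (IL.C (nat_lit 1) (nat_lit 0x13cfff7c) (nat_lit 0xc660) (nat_lit 0xd765)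
  (IL.C (nat_lit 2) (nat_lit 0x144a100c) (nat_lit 0xc660) (nat_lit 0xb760)
  (IL.C (nat_lit 2) (nat_lit 0x16394f10) (nat_lit 0xc660) (nat_lit 0xc661)
  (IL.C (nat_lit 2) (nat_lit 0x20f90ea6) (nat_lit 0xc660) (nat_lit 0xb761)
  (IL.C (nat_lit 2) (nat_lit 0x205f80d2) (nat_lit 0xc660) (nat_lit 0xe662)
  (IL.C (nat_lit 2) (nat_lit 0x8113aee) (nat_lit 0xc660) (nat_lit 0xe664)
  (IL.C (nat_lit 0) (nat_lit 0x668049754b8) (nat_lit 0x8742) (nat_lit 0x8742)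
  (IL.C (nat_lit 1) (nat_lit 0x3d36129c) (nat_lit 0x8742) (nat_lit 0xb732)
  (IL.C (nat_lit 1) (nat_lit 0x246bd3d4) (nat_lit 0x8742) (nat_lit 0xe442)
  (IL.C (nat_lit 1) (nat_lit 0xc5d926) (nat_lit 0x8742) (nat_lit 0x8653)
  (IL.C (nat_lit 1) (nat_lit 0x63ad161e) (nat_lit 0x8742) (nat_lit 0xc652)
  (IL.C (nat_lit 1) (nat_lit 0x26d0f372) (nat_lit 0x8742) (nat_lit 0x7654)
  (IL.C (nat_lit 1) (nat_lit 0x1a38a1e6) (nat_lit 0x8742) (nat_lit 0xa762) its1_76))))))))))))))))))))))))))))))))))))))))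

noncomputable def its1_74 : IL :=
  (IL.C (nat_lit 1) (nat_lit 0x9ff0b7bc) (nat_lit 0x9542) (nat_lit 0x6653)
  (IL.C (nat_lit 1) (nat_lit 0x6b5eeaea) (nat_lit 0x9542) (nat_lit 0xb653)
  (IL.C (nat_lit 0) (nat_lit 0x1b36750a635e) (nat_lit 0x7652) (nat_lit 0x7652)
  (IL.C (nat_lit 1) (nat_lit 0x35fa9968) (nat_lit 0x7652) (nat_lit 0xa443)
  (IL.C (nat_lit 1) (nat_lit 0xe018c88) (nat_lit 0x7652) (nat_lit 0x8653)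
  (IL.C (nat_lit 1) (nat_lit 0xa41c613a) (nat_lit 0x7652) (nat_lit 0xc643)
  (IL.C (nat_lit 2) (nat_lit 0x86cdf47e) (nat_lit 0x7652) (nat_lit 0xa542)
  (IL.C (nat_lit 2) (nat_lit 0x1bc433ee) (nat_lit 0x7652) (nat_lit 0x8742)
  (IL.C (nat_lit 2) (nat_lit 0x4a36e9d0) (nat_lit 0x7652) (nat_lit 0x7643)
  (IL.C (nat_lit 2) (nat_lit 0x11042cbfe) (nat_lit 0x7652) (nat_lit 0x9543)
  (IL.C (nat_lit 2) (nat_lit 0x213ebcae) (nat_lit 0x7652) (nat_lit 0xc652)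
  (IL.C (nat_lit 2) (nat_lit 0x963833c4) (nat_lit 0x7652) (nat_lit 0x7654)
  (IL.C (nat_lit 2) (nat_lit 0x2dd3c322) (nat_lit 0x7652) (nat_lit 0xb743)
  (IL.C (nat_lit 0) (nat_lit 0x17851dfeac6) (nat_lit 0xd551) (nat_lit 0xd551)
  (IL.C (nat_lit 1) (nat_lit 0x1b471788) (nat_lit 0xd551) (nat_lit 0xb741)
  (IL.C (nat_lit 1) (nat_lit 0x1911156) (nat_lit 0xd551) (nat_lit 0xe642)
  (IL.C (nat_lit 1) (nat_lit 0x250aff6) (nat_lit 0xd551) (nat_lit 0x9655)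
  (IL.C (nat_lit 1) (nat_lit 0x277afc8) (nat_lit 0xd551) (nat_lit 0xe644)
  (IL.C (nat_lit 1) (nat_lit 0x17254d36) (nat_lit 0xd551) (nat_lit 0xb765)
  (IL.C (nat_lit 2) (nat_lit 0x9561632) (nat_lit 0xd551) (nat_lit 0xc641)
  (IL.C (nat_lit 2) (nat_lit 0x21da6c2a) (nat_lit 0xd551) (nat_lit 0x7444)
  (IL.C (nat_lit 2) (nat_lit 0x1180836c2) (nat_lit 0xd551) (nat_lit 0x6554)
  (IL.C (nat_lit 2) (nat_lit 0x1beb4680) (nat_lit 0xd551) (nat_lit 0xd752)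
  (IL.C (nat_lit 2) (nat_lit 0xac32dca) (nat_lit 0xd551) (nat_lit 0xd743)
  (IL.C (nat_lit 2) (nat_lit 0x7f4048c) (nat_lit 0xd551) (nat_lit 0x9744)
  (IL.C (nat_lit 2) (nat_lit 0x3c32c8ca) (nat_lit 0xd551) (nat_lit 0x7665)
  (IL.C (nat_lit 2) (nat_lit 0xba99250) (nat_lit 0xd551) (nat_lit 0xa654)
  (IL.C (nat_lit 2) (nat_lit 0xd699428) (nat_lit 0xd551) (nat_lit 0xd754)
  (IL.C (nat_lit 2) (nat_lit 0x986a86e) (nat_lit 0xd551) (nat_lit 0xc665)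
  (IL.C (nat_lit 0) (nat_lit 0x137a825c1cfe) (nat_lit 0xa542) (nat_lit 0xa542)
  (IL.C (nat_lit 1) (nat_lit 0x40ea782a) (nat_lit 0xa542) (nat_lit 0xe442)
  (IL.C (nat_lit 1) (nat_lit 0x6560b1ac) (nat_lit 0xa542) (nat_lit 0xa544)
  (IL.C (nat_lit 1) (nat_lit 0x12aa6d6) (nat_lit 0xa542) (nat_lit 0xc643)
  (IL.C (nat_lit 2) (nat_lit 0x3b0b52fe) (nat_lit 0xa542) (nat_lit 0x9552)
  (IL.C (nat_lit 2) (nat_lit 0x28335518) (nat_lit 0xa542) (nat_lit 0xa443)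
  (IL.C (nat_lit 2) (nat_lit 0x38f5dbc2) (nat_lit 0xa542) (nat_lit 0x9543)
  (IL.C (nat_lit 2) (nat_lit 0xa952743e) (nat_lit 0xa542) (nat_lit 0xc652)
  (IL.C (nat_lit 2) (nat_lit 0x91c70dc4) (nat_lit 0xa542) (nat_lit 0xb752)
  (IL.C (nat_lit 2) (nat_lit 0xc43fc9c) (nat_lit 0xa542) (nat_lit 0xd553)
  (IL.C (nat_lit 2) (nat_lit 0xbb14e2a) (nat_lit 0xa542) (nat_lit 0x9554) its1_75))))))))))))))))))))))))))))))))))))))))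

noncomputable def its1_73 : IL :=
  (IL.C (nat_lit 1) (nat_lit 0x81d9194) (nat_lit 0x8443) (nat_lit 0x9633)
  (IL.C (nat_lit 1) (nat_lit 0x1f757a48) (nat_lit 0x8443) (nat_lit 0xb552)
  (IL.C (nat_lit 1) (nat_lit 0x49d77e64) (nat_lit 0x8443) (nat_lit 0x9653)
  (IL.C (nat_lit 1) (nat_lit 0x3a53ce12) (nat_lit 0x8443) (nat_lit 0x9655)
  (IL.C (nat_lit 2) (nat_lit 0x3edfba98) (nat_lit 0x8443) (nat_lit 0xa652)
  (IL.C (nat_lit 1) (nat_lit 0x36da5e62) (nat_lit 0xd532) (nat_lit 0x9443)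
  (IL.C (nat_lit 1) (nat_lit 0x3891ab1c) (nat_lit 0xd532) (nat_lit 0x6653)
  (IL.C (nat_lit 1) (nat_lit 0x277fe7e8) (nat_lit 0xd532) (nat_lit 0x8643)
  (IL.C (nat_lit 1) (nat_lit 0x1058cb062) (nat_lit 0xd532) (nat_lit 0x7644)
  (IL.C (nat_lit 1) (nat_lit 0xb25e00a2) (nat_lit 0xd532) (nat_lit 0x6655)
  (IL.C (nat_lit 1) (nat_lit 0x2ecef6fc) (nat_lit 0xd532) (nat_lit 0xb653)
  (IL.C (nat_lit 2) (nat_lit 0xa44d648) (nat_lit 0xd532) (nat_lit 0xd433)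
  (IL.C (nat_lit 2) (nat_lit 0x1918d320) (nat_lit 0xd532) (nat_lit 0xb633)
  (IL.C (nat_lit 1) (nat_lit 0x90764226) (nat_lit 0xb433) (nat_lit 0x9633)
  (IL.C (nat_lit 1) (nat_lit 0x33bda64e) (nat_lit 0xb433) (nat_lit 0xa652)
  (IL.C (nat_lit 2) (nat_lit 0x114c1500) (nat_lit 0xb433) (nat_lit 0xb552)
  (IL.C (nat_lit 2) (nat_lit 0x22438abc) (nat_lit 0xb433) (nat_lit 0x9653)
  (IL.C (nat_lit 0) (nat_lit 0x2982e77bbae) (nat_lit 0xe622) (nat_lit 0xe622)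
  (IL.C (nat_lit 1) (nat_lit 0x168cea06) (nat_lit 0xe622) (nat_lit 0x7663)
  (IL.C (nat_lit 1) (nat_lit 0x15974ba) (nat_lit 0xe622) (nat_lit 0xe642)
  (IL.C (nat_lit 1) (nat_lit 0x185ec714) (nat_lit 0xe622) (nat_lit 0xd743)
  (IL.C (nat_lit 1) (nat_lit 0x4979bd0) (nat_lit 0xe622) (nat_lit 0xc663)
  (IL.C (nat_lit 2) (nat_lit 0x2a55f0a6) (nat_lit 0xe622) (nat_lit 0x9633)
  (IL.C (nat_lit 2) (nat_lit 0xc658b1c) (nat_lit 0xe622) (nat_lit 0xd732)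
  (IL.C (nat_lit 2) (nat_lit 0x3a592b5e) (nat_lit 0xe622) (nat_lit 0x8762)
  (IL.C (nat_lit 2) (nat_lit 0x10861756) (nat_lit 0xe622) (nat_lit 0xd752)
  (IL.C (nat_lit 2) (nat_lit 0xa96e458) (nat_lit 0xe622) (nat_lit 0xb763)
  (IL.C (nat_lit 1) (nat_lit 0x99cf296) (nat_lit 0xd722) (nat_lit 0xd633)
  (IL.C (nat_lit 1) (nat_lit 0x10fd41a6) (nat_lit 0xd722) (nat_lit 0x8663)
  (IL.C (nat_lit 1) (nat_lit 0x17075e36) (nat_lit 0xd722) (nat_lit 0xd653)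
  (IL.C (nat_lit 0) (nat_lit 0xfe5220d2e12) (nat_lit 0x5544) (nat_lit 0x5544)
  (IL.C (nat_lit 1) (nat_lit 0xe0280406) (nat_lit 0x5544) (nat_lit 0xa542)
  (IL.C (nat_lit 1) (nat_lit 0x3b522186) (nat_lit 0x5544) (nat_lit 0x9552)
  (IL.C (nat_lit 1) (nat_lit 0x5ca7b472) (nat_lit 0x5544) (nat_lit 0xe442)
  (IL.C (nat_lit 1) (nat_lit 0x48f8c5f0) (nat_lit 0x5544) (nat_lit 0xc652)
  (IL.C (nat_lit 1) (nat_lit 0x684c6444) (nat_lit 0x5544) (nat_lit 0xc654)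
  (IL.C (nat_lit 2) (nat_lit 0xbb79f60a) (nat_lit 0x5544) (nat_lit 0xb752)
  (IL.C (nat_lit 2) (nat_lit 0x657bef36) (nat_lit 0x5544) (nat_lit 0xa544)
  (IL.C (nat_lit 2) (nat_lit 0x1471fa62) (nat_lit 0x5544) (nat_lit 0x8744)
  (IL.C (nat_lit 2) (nat_lit 0xe39b8b4) (nat_lit 0x5544) (nat_lit 0xe444) its1_74))))))))))))))))))))))))))))))))))))))))

noncomputable def its1_72 : IL :=
  (IL.C (nat_lit 1) (nat_lit 0x17f174f0) (nat_lit 0x9741) (nat_lit 0x9765)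
  (IL.C (nat_lit 2) (nat_lit 0x1223a490) (nat_lit 0x9741) (nat_lit 0x9552)
  (IL.C (nat_lit 2) (nat_lit 0x1b5ce99a) (nat_lit 0x9741) (nat_lit 0xc652)
  (IL.C (nat_lit 2) (nat_lit 0xce351d4) (nat_lit 0x9741) (nat_lit 0xb752)
  (IL.C (nat_lit 2) (nat_lit 0x2cbe606e) (nat_lit 0x9741) (nat_lit 0x7654)
  (IL.C (nat_lit 2) (nat_lit 0x1f97b1c6) (nat_lit 0x9741) (nat_lit 0x9763)
  (IL.C (nat_lit 2) (nat_lit 0x107d41c0) (nat_lit 0x9741) (nat_lit 0xb754)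
  (IL.C (nat_lit 1) (nat_lit 0x1270d9e6) (nat_lit 0xa632) (nat_lit 0xb433)
  (IL.C (nat_lit 1) (nat_lit 0x139d33b2) (nat_lit 0xa632) (nat_lit 0x7663)
  (IL.C (nat_lit 1) (nat_lit 0x7cea4ea) (nat_lit 0xa632) (nat_lit 0x9653)
  (IL.C (nat_lit 1) (nat_lit 0x38c97192) (nat_lit 0xa632) (nat_lit 0xd743)
  (IL.C (nat_lit 1) (nat_lit 0x7398000a) (nat_lit 0xa632) (nat_lit 0x7665)
  (IL.C (nat_lit 2) (nat_lit 0x5a0f6a1e) (nat_lit 0xa632) (nat_lit 0x8443)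
  (IL.C (nat_lit 2) (nat_lit 0x360a09a) (nat_lit 0xa632) (nat_lit 0x9633)
  (IL.C (nat_lit 1) (nat_lit 0xb055c76) (nat_lit 0xd541) (nat_lit 0xb651)
  (IL.C (nat_lit 0) (nat_lit 0x2016176c750) (nat_lit 0x9760) (nat_lit 0x9760)
  (IL.C (nat_lit 1) (nat_lit 0x58195990) (nat_lit 0x9760) (nat_lit 0xe642)
  (IL.C (nat_lit 1) (nat_lit 0x32a7228) (nat_lit 0x9760) (nat_lit 0xd752)
  (IL.C (nat_lit 1) (nat_lit 0x1796f026) (nat_lit 0x9760) (nat_lit 0xd743)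
  (IL.C (nat_lit 1) (nat_lit 0x2bc663cc) (nat_lit 0x9760) (nat_lit 0xa654)
  (IL.C (nat_lit 1) (nat_lit 0x1b52d3c) (nat_lit 0x9760) (nat_lit 0xa766)
  (IL.C (nat_lit 2) (nat_lit 0x23067ca0) (nat_lit 0x9760) (nat_lit 0xe622)
  (IL.C (nat_lit 2) (nat_lit 0x3036e6f6) (nat_lit 0x9760) (nat_lit 0xc641)
  (IL.C (nat_lit 2) (nat_lit 0x63c7698e) (nat_lit 0x9760) (nat_lit 0xb741)
  (IL.C (nat_lit 2) (nat_lit 0x13ea0abe) (nat_lit 0x9760) (nat_lit 0x9761)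
  (IL.C (nat_lit 2) (nat_lit 0x54f89076) (nat_lit 0x9760) (nat_lit 0xd732)
  (IL.C (nat_lit 2) (nat_lit 0x61b9242) (nat_lit 0x9760) (nat_lit 0x8762)
  (IL.C (nat_lit 2) (nat_lit 0x1914d58c) (nat_lit 0x9760) (nat_lit 0x9744)
  (IL.C (nat_lit 2) (nat_lit 0x4cd5bfe) (nat_lit 0x9760) (nat_lit 0x7665)
  (IL.C (nat_lit 2) (nat_lit 0x11dad00e) (nat_lit 0x9760) (nat_lit 0xc663)
  (IL.C (nat_lit 2) (nat_lit 0xbbd494e) (nat_lit 0x9760) (nat_lit 0xb763)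
  (IL.C (nat_lit 2) (nat_lit 0x17a2d76) (nat_lit 0x9760) (nat_lit 0xc665)
  (IL.C (nat_lit 2) (nat_lit 0x122a3064) (nat_lit 0x9760) (nat_lit 0xb765)
  (IL.C (nat_lit 1) (nat_lit 0x358c1136) (nat_lit 0xa442) (nat_lit 0x6653)
  (IL.C (nat_lit 1) (nat_lit 0x169a2178) (nat_lit 0xa442) (nat_lit 0xb653)
  (IL.C (nat_lit 2) (nat_lit 0x2b32986) (nat_lit 0xa442) (nat_lit 0x9651)
  (IL.C (nat_lit 1) (nat_lit 0x6f3ee1ca) (nat_lit 0x9651) (nat_lit 0xb742)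
  (IL.C (nat_lit 1) (nat_lit 0x2cf6f49e) (nat_lit 0x9651) (nat_lit 0xd543)
  (IL.C (nat_lit 1) (nat_lit 0x4a74386) (nat_lit 0x9651) (nat_lit 0xb744)
  (IL.C (nat_lit 2) (nat_lit 0x13635d94) (nat_lit 0x9651) (nat_lit 0xd552) its1_73))))))))))))))))))))))))))))))))))))))))

noncomputable def its1_71 : IL :=
  (IL.C (nat_lit 0) (nat_lit 0x187f6af7450) (nat_lit 0xe640) (nat_lit 0xe640)
  (IL.C (nat_lit 1) (nat_lit 0x3cf0608a) (nat_lit 0xe640) (nat_lit 0x8744)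
  (IL.C (nat_lit 1) (nat_lit 0xb979346) (nat_lit 0xe640) (nat_lit 0xd555)
  (IL.C (nat_lit 1) (nat_lit 0x3d299822) (nat_lit 0xe640) (nat_lit 0xc654)
  (IL.C (nat_lit 1) (nat_lit 0x73c4c810) (nat_lit 0xe640) (nat_lit 0x7766)
  (IL.C (nat_lit 1) (nat_lit 0x1a752ad6) (nat_lit 0xe640) (nat_lit 0xa764)
  (IL.C (nat_lit 1) (nat_lit 0x568be8ba) (nat_lit 0xe640) (nat_lit 0x9765)
  (IL.C (nat_lit 2) (nat_lit 0x65deb82) (nat_lit 0xe640) (nat_lit 0xd750)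
  (IL.C (nat_lit 2) (nat_lit 0xaec9e44) (nat_lit 0xe640) (nat_lit 0xe444)
  (IL.C (nat_lit 2) (nat_lit 0x1027fdee) (nat_lit 0xe640) (nat_lit 0x8655)
  (IL.C (nat_lit 2) (nat_lit 0x61f55f4) (nat_lit 0xe640) (nat_lit 0xd772)
  (IL.C (nat_lit 2) (nat_lit 0x215eeeb2) (nat_lit 0xe640) (nat_lit 0xe663)
  (IL.C (nat_lit 2) (nat_lit 0x1e46955a) (nat_lit 0xe640) (nat_lit 0xb754)
  (IL.C (nat_lit 2) (nat_lit 0x356d08) (nat_lit 0xe640) (nat_lit 0xd774)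
  (IL.C (nat_lit 2) (nat_lit 0x59d3bbc) (nat_lit 0xe640) (nat_lit 0xe665)
  (IL.C (nat_lit 1) (nat_lit 0x66e86288) (nat_lit 0x7642) (nat_lit 0xb653)
  (IL.C (nat_lit 2) (nat_lit 0xfe775d4) (nat_lit 0x7642) (nat_lit 0x6653)
  (IL.C (nat_lit 2) (nat_lit 0x645f23a) (nat_lit 0x7642) (nat_lit 0x6655)
  (IL.C (nat_lit 1) (nat_lit 0xd87b9d4) (nat_lit 0xa660) (nat_lit 0xd722)
  (IL.C (nat_lit 2) (nat_lit 0x1f892538) (nat_lit 0xa660) (nat_lit 0xd742)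
  (IL.C (nat_lit 1) (nat_lit 0x5561a28) (nat_lit 0xd740) (nat_lit 0xc660)
  (IL.C (nat_lit 1) (nat_lit 0x16a84498) (nat_lit 0xd740) (nat_lit 0xb760)
  (IL.C (nat_lit 1) (nat_lit 0x338cb51a) (nat_lit 0xd740) (nat_lit 0xa665)
  (IL.C (nat_lit 2) (nat_lit 0xafe211e) (nat_lit 0xd740) (nat_lit 0xe662)
  (IL.C (nat_lit 2) (nat_lit 0x7dd39ae) (nat_lit 0xd740) (nat_lit 0xb655)
  (IL.C (nat_lit 0) (nat_lit 0x35bcf8977de) (nat_lit 0x9741) (nat_lit 0x9741)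
  (IL.C (nat_lit 1) (nat_lit 0x27bf3da0) (nat_lit 0x9741) (nat_lit 0x5544)
  (IL.C (nat_lit 1) (nat_lit 0x8ccb220) (nat_lit 0x9741) (nat_lit 0xa651)
  (IL.C (nat_lit 1) (nat_lit 0x28d000e6) (nat_lit 0x9741) (nat_lit 0xa542)
  (IL.C (nat_lit 1) (nat_lit 0x949dac3c) (nat_lit 0x9741) (nat_lit 0x8742)
  (IL.C (nat_lit 1) (nat_lit 0xb483684) (nat_lit 0x9741) (nat_lit 0xa443)
  (IL.C (nat_lit 1) (nat_lit 0x5f8bac4) (nat_lit 0x9741) (nat_lit 0xe442)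
  (IL.C (nat_lit 1) (nat_lit 0x1add2c0c) (nat_lit 0x9741) (nat_lit 0x9543)
  (IL.C (nat_lit 1) (nat_lit 0x3aad6e2a) (nat_lit 0x9741) (nat_lit 0x8653)
  (IL.C (nat_lit 1) (nat_lit 0x1dc14812) (nat_lit 0x9741) (nat_lit 0xa762)
  (IL.C (nat_lit 1) (nat_lit 0x1a30585c) (nat_lit 0x9741) (nat_lit 0xd553)
  (IL.C (nat_lit 1) (nat_lit 0x27a91674) (nat_lit 0x9741) (nat_lit 0xc643)
  (IL.C (nat_lit 1) (nat_lit 0x3d8505f6) (nat_lit 0x9741) (nat_lit 0xb743)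
  (IL.C (nat_lit 1) (nat_lit 0x4dba800) (nat_lit 0x9741) (nat_lit 0xc654)
  (IL.C (nat_lit 1) (nat_lit 0x17651078) (nat_lit 0x9741) (nat_lit 0xa764) its1_72))))))))))))))))))))))))))))))))))))))))

noncomputable def its1_70 : IL :=
  (IL.C (nat_lit 2) (nat_lit 0x69d30618) (nat_lit 0x8542) (nat_lit 0xa643)
  (IL.C (nat_lit 2) (nat_lit 0x612026de) (nat_lit 0x8542) (nat_lit 0x9744)
  (IL.C (nat_lit 2) (nat_lit 0x172e8102) (nat_lit 0x8542) (nat_lit 0xa654)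
  (IL.C (nat_lit 0) (nat_lit 0x30732172048) (nat_lit 0x7661) (nat_lit 0x7661)
  (IL.C (nat_lit 1) (nat_lit 0x4ce876c4) (nat_lit 0x7661) (nat_lit 0xd740)
  (IL.C (nat_lit 1) (nat_lit 0x28ca3954) (nat_lit 0x7661) (nat_lit 0x9762)
  (IL.C (nat_lit 1) (nat_lit 0x17632372) (nat_lit 0x7661) (nat_lit 0xc644)
  (IL.C (nat_lit 2) (nat_lit 0x53277fbc) (nat_lit 0x7661) (nat_lit 0xa641)
  (IL.C (nat_lit 2) (nat_lit 0xb17b334) (nat_lit 0x7661) (nat_lit 0xb744)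
  (IL.C (nat_lit 2) (nat_lit 0x601bc54) (nat_lit 0x7661) (nat_lit 0x9764)
  (IL.C (nat_lit 1) (nat_lit 0x60bff5a4) (nat_lit 0xb532) (nat_lit 0x8443)
  (IL.C (nat_lit 1) (nat_lit 0x1ac40fea) (nat_lit 0xb532) (nat_lit 0xb433)
  (IL.C (nat_lit 1) (nat_lit 0x184833bc) (nat_lit 0xb532) (nat_lit 0xa643)
  (IL.C (nat_lit 2) (nat_lit 0x2b931e04) (nat_lit 0xb532) (nat_lit 0x6543)
  (IL.C (nat_lit 2) (nat_lit 0x43373b60) (nat_lit 0xb532) (nat_lit 0x9633)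
  (IL.C (nat_lit 2) (nat_lit 0x8f7ab31e) (nat_lit 0xb532) (nat_lit 0x7444)
  (IL.C (nat_lit 2) (nat_lit 0x1a1188760) (nat_lit 0xb532) (nat_lit 0x6554)
  (IL.C (nat_lit 2) (nat_lit 0x6cfc9738) (nat_lit 0xb532) (nat_lit 0x9653)
  (IL.C (nat_lit 1) (nat_lit 0x16f29638a) (nat_lit 0x5444) (nat_lit 0xd532)
  (IL.C (nat_lit 1) (nat_lit 0x167da5d6) (nat_lit 0x5444) (nat_lit 0xb655)
  (IL.C (nat_lit 2) (nat_lit 0x148d75c8) (nat_lit 0x5444) (nat_lit 0x9651)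
  (IL.C (nat_lit 2) (nat_lit 0x3e8a5dc6) (nat_lit 0x5444) (nat_lit 0xd552)
  (IL.C (nat_lit 2) (nat_lit 0x27a1a252) (nat_lit 0x5444) (nat_lit 0xb653)
  (IL.C (nat_lit 1) (nat_lit 0xa56a24ac) (nat_lit 0xa641) (nat_lit 0x8652)
  (IL.C (nat_lit 1) (nat_lit 0x4eb5a8bc) (nat_lit 0xa641) (nat_lit 0xd552)
  (IL.C (nat_lit 1) (nat_lit 0x4a00bfac) (nat_lit 0xa641) (nat_lit 0x9762)
  (IL.C (nat_lit 1) (nat_lit 0x581f824) (nat_lit 0xa641) (nat_lit 0x6655)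
  (IL.C (nat_lit 1) (nat_lit 0x7c6ca3c) (nat_lit 0xa641) (nat_lit 0xb655)
  (IL.C (nat_lit 2) (nat_lit 0xb2c1978) (nat_lit 0xa641) (nat_lit 0x9651)
  (IL.C (nat_lit 2) (nat_lit 0x111488b8) (nat_lit 0xa641) (nat_lit 0xb653)
  (IL.C (nat_lit 1) (nat_lit 0x51a0e84) (nat_lit 0xc622) (nat_lit 0xb633)
  (IL.C (nat_lit 2) (nat_lit 0x34f78560) (nat_lit 0xc622) (nat_lit 0xd433)
  (IL.C (nat_lit 2) (nat_lit 0x42f9110e) (nat_lit 0xc622) (nat_lit 0x8643)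
  (IL.C (nat_lit 2) (nat_lit 0x847b080) (nat_lit 0xc622) (nat_lit 0xb653)
  (IL.C (nat_lit 2) (nat_lit 0x306b1e4) (nat_lit 0xc622) (nat_lit 0xa663)
  (IL.C (nat_lit 1) (nat_lit 0x31bb328a) (nat_lit 0xb722) (nat_lit 0x8643)
  (IL.C (nat_lit 2) (nat_lit 0x51154b2) (nat_lit 0xb722) (nat_lit 0xd433)
  (IL.C (nat_lit 2) (nat_lit 0xe3c31d6) (nat_lit 0xb722) (nat_lit 0xb633)
  (IL.C (nat_lit 2) (nat_lit 0x1c90b61a) (nat_lit 0xb722) (nat_lit 0xb653)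
  (IL.C (nat_lit 2) (nat_lit 0x13367664) (nat_lit 0xb722) (nat_lit 0xa663) its1_71))))))))))))))))))))))))))))))))))))))))

noncomputable def its1_69 : IL :=
  (IL.C (nat_lit 2) (nat_lit 0x1671df18) (nat_lit 0x8651) (nat_lit 0x8762)
  (IL.C (nat_lit 2) (nat_lit 0x71cb538e) (nat_lit 0x8651) (nat_lit 0xd752)
  (IL.C (nat_lit 2) (nat_lit 0x25484bca) (nat_lit 0x8651) (nat_lit 0xa654)
  (IL.C (nat_lit 2) (nat_lit 0x20c727b6) (nat_lit 0x8651) (nat_lit 0xc663)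
  (IL.C (nat_lit 2) (nat_lit 0x1336650c) (nat_lit 0x8651) (nat_lit 0xe644)
  (IL.C (nat_lit 0) (nat_lit 0x5385e35bede) (nat_lit 0xc640) (nat_lit 0xc640)
  (IL.C (nat_lit 1) (nat_lit 0x2f42d82c) (nat_lit 0xc640) (nat_lit 0xb740)
  (IL.C (nat_lit 1) (nat_lit 0x217f5748) (nat_lit 0xc640) (nat_lit 0x9760)
  (IL.C (nat_lit 1) (nat_lit 0x18af1df0) (nat_lit 0xc640) (nat_lit 0xd752)
  (IL.C (nat_lit 1) (nat_lit 0x8947754) (nat_lit 0xc640) (nat_lit 0x9744)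
  (IL.C (nat_lit 1) (nat_lit 0x160986f0) (nat_lit 0xc640) (nat_lit 0x9655)
  (IL.C (nat_lit 1) (nat_lit 0x7b8277a) (nat_lit 0xc640) (nat_lit 0xb765)
  (IL.C (nat_lit 2) (nat_lit 0x87517c7c) (nat_lit 0xc640) (nat_lit 0xe642)
  (IL.C (nat_lit 2) (nat_lit 0x3af75d4) (nat_lit 0xc640) (nat_lit 0xd743)
  (IL.C (nat_lit 2) (nat_lit 0x9026430) (nat_lit 0xc640) (nat_lit 0x7665)
  (IL.C (nat_lit 2) (nat_lit 0x25523ee6) (nat_lit 0xc640) (nat_lit 0xa654)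
  (IL.C (nat_lit 2) (nat_lit 0x553b086) (nat_lit 0xc640) (nat_lit 0xc663)
  (IL.C (nat_lit 2) (nat_lit 0x3465103c) (nat_lit 0xc640) (nat_lit 0xb763)
  (IL.C (nat_lit 2) (nat_lit 0x18239390) (nat_lit 0xc640) (nat_lit 0xc665)
  (IL.C (nat_lit 1) (nat_lit 0x1479608e) (nat_lit 0xb740) (nat_lit 0x9760)
  (IL.C (nat_lit 1) (nat_lit 0x27228d08) (nat_lit 0xb740) (nat_lit 0xd752)
  (IL.C (nat_lit 1) (nat_lit 0x1b1646) (nat_lit 0xb740) (nat_lit 0xc663)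
  (IL.C (nat_lit 1) (nat_lit 0x14915508) (nat_lit 0xb740) (nat_lit 0x9655)
  (IL.C (nat_lit 2) (nat_lit 0x4d9b0d22) (nat_lit 0xb740) (nat_lit 0x7665)
  (IL.C (nat_lit 2) (nat_lit 0x47d92a) (nat_lit 0xb740) (nat_lit 0xc665)
  (IL.C (nat_lit 1) (nat_lit 0xf822b1a) (nat_lit 0xd441) (nat_lit 0x6665)
  (IL.C (nat_lit 1) (nat_lit 0xed5669c) (nat_lit 0xd441) (nat_lit 0xb665)
  (IL.C (nat_lit 2) (nat_lit 0x3094df94) (nat_lit 0xb541) (nat_lit 0xd552)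
  (IL.C (nat_lit 1) (nat_lit 0x31ad5fba) (nat_lit 0xb650) (nat_lit 0xd742)
  (IL.C (nat_lit 0) (nat_lit 0xb7b6f708344) (nat_lit 0x8542) (nat_lit 0x8542)
  (IL.C (nat_lit 1) (nat_lit 0x24170784) (nat_lit 0x8542) (nat_lit 0x8443)
  (IL.C (nat_lit 1) (nat_lit 0x29f879bc) (nat_lit 0x8542) (nat_lit 0xc442)
  (IL.C (nat_lit 1) (nat_lit 0x57f019a4) (nat_lit 0x8542) (nat_lit 0x9742)
  (IL.C (nat_lit 1) (nat_lit 0xc5161f1c) (nat_lit 0x8542) (nat_lit 0x6554)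
  (IL.C (nat_lit 1) (nat_lit 0x15fbc280) (nat_lit 0x8542) (nat_lit 0x8544)
  (IL.C (nat_lit 1) (nat_lit 0x25b3c534) (nat_lit 0x8542) (nat_lit 0x9653)
  (IL.C (nat_lit 1) (nat_lit 0x649de1e) (nat_lit 0x8542) (nat_lit 0x9655)
  (IL.C (nat_lit 2) (nat_lit 0x137cd2bc) (nat_lit 0x8542) (nat_lit 0x9633)
  (IL.C (nat_lit 2) (nat_lit 0x32cf28b8) (nat_lit 0x8542) (nat_lit 0x7444)
  (IL.C (nat_lit 2) (nat_lit 0x1fef38bc) (nat_lit 0x8542) (nat_lit 0xb543) its1_70))))))))))))))))))))))))))))))))))))))))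

noncomputable def its1_68 : IL :=
  (IL.C (nat_lit 1) (nat_lit 0x1d7c8dc8) (nat_lit 0xd550) (nat_lit 0xa654)
  (IL.C (nat_lit 1) (nat_lit 0x27ca1d96) (nat_lit 0xd550) (nat_lit 0x9655)
  (IL.C (nat_lit 2) (nat_lit 0x4ce7e992) (nat_lit 0xd550) (nat_lit 0x8651)
  (IL.C (nat_lit 2) (nat_lit 0x1aa75e2c) (nat_lit 0xd550) (nat_lit 0xc640)
  (IL.C (nat_lit 2) (nat_lit 0x127cea4) (nat_lit 0xd550) (nat_lit 0xe642)
  (IL.C (nat_lit 2) (nat_lit 0x1b49d17c) (nat_lit 0xd550) (nat_lit 0xd752)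
  (IL.C (nat_lit 1) (nat_lit 0x2d9d4556) (nat_lit 0x4444) (nat_lit 0xb652)
  (IL.C (nat_lit 0) (nat_lit 0xe1bfffc168) (nat_lit 0x8760) (nat_lit 0x8760)
  (IL.C (nat_lit 1) (nat_lit 0x38a411e6) (nat_lit 0x8760) (nat_lit 0xe640)
  (IL.C (nat_lit 1) (nat_lit 0x1ca4f0be) (nat_lit 0x8760) (nat_lit 0x8761)
  (IL.C (nat_lit 1) (nat_lit 0xe7ba7d2) (nat_lit 0x8760) (nat_lit 0x8744)
  (IL.C (nat_lit 1) (nat_lit 0x8e32836) (nat_lit 0x8760) (nat_lit 0x7766)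
  (IL.C (nat_lit 1) (nat_lit 0x356babc4) (nat_lit 0x8760) (nat_lit 0xa764)
  (IL.C (nat_lit 1) (nat_lit 0x4b6c0dc) (nat_lit 0x8760) (nat_lit 0xd774)
  (IL.C (nat_lit 1) (nat_lit 0x35fb030) (nat_lit 0x8760) (nat_lit 0xc766)
  (IL.C (nat_lit 2) (nat_lit 0xb35696e) (nat_lit 0x8760) (nat_lit 0xd772)
  (IL.C (nat_lit 0) (nat_lit 0x1c94185db76) (nat_lit 0xc441) (nat_lit 0xc441)
  (IL.C (nat_lit 1) (nat_lit 0x9159b4c2) (nat_lit 0xc441) (nat_lit 0x5544)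
  (IL.C (nat_lit 1) (nat_lit 0x329b37e2) (nat_lit 0xc441) (nat_lit 0xe442)
  (IL.C (nat_lit 1) (nat_lit 0x35614ca) (nat_lit 0xc441) (nat_lit 0xa544)
  (IL.C (nat_lit 1) (nat_lit 0x28bae168) (nat_lit 0xc441) (nat_lit 0xe444)
  (IL.C (nat_lit 1) (nat_lit 0x65809ba) (nat_lit 0xc441) (nat_lit 0xb754)
  (IL.C (nat_lit 2) (nat_lit 0xa0d5a16) (nat_lit 0xc441) (nat_lit 0xb551)
  (IL.C (nat_lit 2) (nat_lit 0x203a3ec4) (nat_lit 0xc441) (nat_lit 0xd553)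
  (IL.C (nat_lit 2) (nat_lit 0x1df78b2c) (nat_lit 0xc441) (nat_lit 0x9554)
  (IL.C (nat_lit 2) (nat_lit 0x8595cd8) (nat_lit 0xc441) (nat_lit 0xd555)
  (IL.C (nat_lit 2) (nat_lit 0x13d6132c) (nat_lit 0xc441) (nat_lit 0xc654)
  (IL.C (nat_lit 0) (nat_lit 0x1fb839aae48) (nat_lit 0x8651) (nat_lit 0x8651)
  (IL.C (nat_lit 1) (nat_lit 0x1f8810ec) (nat_lit 0x8651) (nat_lit 0xb741)
  (IL.C (nat_lit 1) (nat_lit 0x16d9f478) (nat_lit 0x8651) (nat_lit 0xe642)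
  (IL.C (nat_lit 1) (nat_lit 0x354f3a5c) (nat_lit 0x8651) (nat_lit 0xd743)
  (IL.C (nat_lit 1) (nat_lit 0x520b11c) (nat_lit 0x8651) (nat_lit 0x9744)
  (IL.C (nat_lit 1) (nat_lit 0x17a00b4e) (nat_lit 0x8651) (nat_lit 0x7665)
  (IL.C (nat_lit 1) (nat_lit 0x1b57b9aa) (nat_lit 0x8651) (nat_lit 0x8764)
  (IL.C (nat_lit 1) (nat_lit 0x1c21e28c) (nat_lit 0x8651) (nat_lit 0xb763)
  (IL.C (nat_lit 1) (nat_lit 0x2d5700a) (nat_lit 0x8651) (nat_lit 0xd754)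
  (IL.C (nat_lit 1) (nat_lit 0x14aab406) (nat_lit 0x8651) (nat_lit 0xc665)
  (IL.C (nat_lit 2) (nat_lit 0x423c8bd2) (nat_lit 0x8651) (nat_lit 0x9760)
  (IL.C (nat_lit 2) (nat_lit 0x50813b8e) (nat_lit 0x8651) (nat_lit 0xd551)
  (IL.C (nat_lit 2) (nat_lit 0xda381aa) (nat_lit 0x8651) (nat_lit 0xc641) its1_69))))))))))))))))))))))))))))))))))))))))

noncomputable def its1_67 : IL :=
  (IL.C (nat_lit 1) (nat_lit 0x188ae1de) (nat_lit 0xb631) (nat_lit 0xd722)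
  (IL.C (nat_lit 1) (nat_lit 0xf7271c8) (nat_lit 0xb631) (nat_lit 0xd742)
  (IL.C (nat_lit 0) (nat_lit 0xc592707783e) (nat_lit 0x9722) (nat_lit 0x9722)
  (IL.C (nat_lit 1) (nat_lit 0x1b056d2c) (nat_lit 0x9722) (nat_lit 0x8542)
  (IL.C (nat_lit 1) (nat_lit 0x340683ba) (nat_lit 0x9722) (nat_lit 0xb433)
  (IL.C (nat_lit 1) (nat_lit 0x1521b8aa) (nat_lit 0x9722) (nat_lit 0xe622)
  (IL.C (nat_lit 1) (nat_lit 0x10361684) (nat_lit 0x9722) (nat_lit 0x9633)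
  (IL.C (nat_lit 1) (nat_lit 0x273e04cc) (nat_lit 0x9722) (nat_lit 0xa652)
  (IL.C (nat_lit 1) (nat_lit 0x491be0aa) (nat_lit 0x9722) (nat_lit 0x7663)
  (IL.C (nat_lit 1) (nat_lit 0x34913e0e) (nat_lit 0x9722) (nat_lit 0xa643)
  (IL.C (nat_lit 1) (nat_lit 0x47b4de36) (nat_lit 0x9722) (nat_lit 0xe642)
  (IL.C (nat_lit 1) (nat_lit 0x11997154) (nat_lit 0x9722) (nat_lit 0x9653)
  (IL.C (nat_lit 1) (nat_lit 0x369c9eaa) (nat_lit 0x9722) (nat_lit 0xd752)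
  (IL.C (nat_lit 1) (nat_lit 0x53603324) (nat_lit 0x9722) (nat_lit 0x7665)
  (IL.C (nat_lit 2) (nat_lit 0x978f7a6) (nat_lit 0x9722) (nat_lit 0xa632)
  (IL.C (nat_lit 2) (nat_lit 0x11e00a98) (nat_lit 0x9722) (nat_lit 0x8443)
  (IL.C (nat_lit 2) (nat_lit 0x2dcc154) (nat_lit 0x9722) (nat_lit 0xd732)
  (IL.C (nat_lit 2) (nat_lit 0x3b839b3a) (nat_lit 0x9722) (nat_lit 0x9742)
  (IL.C (nat_lit 2) (nat_lit 0x1511b4e0) (nat_lit 0x9722) (nat_lit 0xd743)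
  (IL.C (nat_lit 2) (nat_lit 0x3c2081f4) (nat_lit 0xd522) (nat_lit 0x4444)
  (IL.C (nat_lit 2) (nat_lit 0x3c545084) (nat_lit 0xd522) (nat_lit 0x6643)
  (IL.C (nat_lit 2) (nat_lit 0x5f69e7a8) (nat_lit 0xd522) (nat_lit 0x6654)
  (IL.C (nat_lit 2) (nat_lit 0x98282be) (nat_lit 0xd522) (nat_lit 0xb643)
  (IL.C (nat_lit 1) (nat_lit 0x9ccb412) (nat_lit 0x6633) (nat_lit 0xd532)
  (IL.C (nat_lit 2) (nat_lit 0x17e20c28) (nat_lit 0x6633) (nat_lit 0xb722)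
  (IL.C (nat_lit 2) (nat_lit 0x2f9e3e8c) (nat_lit 0x6633) (nat_lit 0xd433)
  (IL.C (nat_lit 2) (nat_lit 0xc6e6c60) (nat_lit 0x6633) (nat_lit 0xb742)
  (IL.C (nat_lit 1) (nat_lit 0xbdc3ce20) (nat_lit 0x6552) (nat_lit 0xb433)
  (IL.C (nat_lit 2) (nat_lit 0x4aace5f0) (nat_lit 0x6552) (nat_lit 0x6543)
  (IL.C (nat_lit 2) (nat_lit 0x1136d48ba) (nat_lit 0x6552) (nat_lit 0x8443)
  (IL.C (nat_lit 2) (nat_lit 0x1306cfee) (nat_lit 0x6552) (nat_lit 0x7444)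
  (IL.C (nat_lit 0) (nat_lit 0x353aabbc974) (nat_lit 0xd550) (nat_lit 0xd550)
  (IL.C (nat_lit 1) (nat_lit 0x32f57df4) (nat_lit 0xd550) (nat_lit 0xb740)
  (IL.C (nat_lit 1) (nat_lit 0x9a083a8) (nat_lit 0xd550) (nat_lit 0x9760)
  (IL.C (nat_lit 1) (nat_lit 0x222c5350) (nat_lit 0xd550) (nat_lit 0xd551)
  (IL.C (nat_lit 1) (nat_lit 0x2f845ea) (nat_lit 0xd550) (nat_lit 0x7444)
  (IL.C (nat_lit 1) (nat_lit 0xabe02572) (nat_lit 0xd550) (nat_lit 0x6554)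
  (IL.C (nat_lit 1) (nat_lit 0x22682800) (nat_lit 0xd550) (nat_lit 0xd743)
  (IL.C (nat_lit 1) (nat_lit 0xbd95a10) (nat_lit 0xd550) (nat_lit 0x9744)
  (IL.C (nat_lit 1) (nat_lit 0x1dbc6a5fe) (nat_lit 0xd550) (nat_lit 0x7665) its1_68))))))))))))))))))))))))))))))))))))))))

noncomputable def its1_66 : IL :=
  (IL.C (nat_lit 1) (nat_lit 0x513ff20) (nat_lit 0xd721) (nat_lit 0x7661)
  (IL.C (nat_lit 1) (nat_lit 0x4d35fe16) (nat_lit 0xd721) (nat_lit 0xa641)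
  (IL.C (nat_lit 1) (nat_lit 0x51a7c80c) (nat_lit 0xd721) (nat_lit 0x9651)
  (IL.C (nat_lit 1) (nat_lit 0x786855a) (nat_lit 0xd721) (nat_lit 0xa663)
  (IL.C (nat_lit 1) (nat_lit 0x144108d0) (nat_lit 0xd721) (nat_lit 0x9764)
  (IL.C (nat_lit 2) (nat_lit 0x287058c) (nat_lit 0xd721) (nat_lit 0xc661)
  (IL.C (nat_lit 2) (nat_lit 0x25389fe8) (nat_lit 0xd721) (nat_lit 0xb761)
  (IL.C (nat_lit 2) (nat_lit 0x5f33c2a) (nat_lit 0xd721) (nat_lit 0xa665)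
  (IL.C (nat_lit 1) (nat_lit 0x460c366c) (nat_lit 0xd540) (nat_lit 0xa660)
  (IL.C (nat_lit 2) (nat_lit 0x350fcd2) (nat_lit 0xd540) (nat_lit 0xb650)
  (IL.C (nat_lit 1) (nat_lit 0x960a7e) (nat_lit 0x9541) (nat_lit 0xd551)
  (IL.C (nat_lit 2) (nat_lit 0xe5c1dcc) (nat_lit 0x9541) (nat_lit 0xd550)
  (IL.C (nat_lit 2) (nat_lit 0x2ec647a2) (nat_lit 0x9541) (nat_lit 0xb552)
  (IL.C (nat_lit 1) (nat_lit 0x4bb9476) (nat_lit 0x9650) (nat_lit 0xa442)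
  (IL.C (nat_lit 1) (nat_lit 0x330f664) (nat_lit 0x9650) (nat_lit 0xd552)
  (IL.C (nat_lit 1) (nat_lit 0x2f77780c) (nat_lit 0x9650) (nat_lit 0xb742)
  (IL.C (nat_lit 2) (nat_lit 0x6b8265f4) (nat_lit 0x9650) (nat_lit 0x5444)
  (IL.C (nat_lit 2) (nat_lit 0xa4c66290) (nat_lit 0x9650) (nat_lit 0xd532)
  (IL.C (nat_lit 2) (nat_lit 0x6e6613e) (nat_lit 0x9650) (nat_lit 0xd433)
  (IL.C (nat_lit 2) (nat_lit 0x86ddf62e) (nat_lit 0x9650) (nat_lit 0xd543)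
  (IL.C (nat_lit 0) (nat_lit 0xa2252830c56) (nat_lit 0xe422) (nat_lit 0xe422)
  (IL.C (nat_lit 1) (nat_lit 0x68637c24) (nat_lit 0xe422) (nat_lit 0x7652)
  (IL.C (nat_lit 1) (nat_lit 0x3a0c65d8) (nat_lit 0xe422) (nat_lit 0x8742)
  (IL.C (nat_lit 1) (nat_lit 0x36136ee) (nat_lit 0xe422) (nat_lit 0xc632)
  (IL.C (nat_lit 1) (nat_lit 0x34b82268) (nat_lit 0xe422) (nat_lit 0xa443)
  (IL.C (nat_lit 1) (nat_lit 0x28b5a3d8) (nat_lit 0xe422) (nat_lit 0x8653)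
  (IL.C (nat_lit 2) (nat_lit 0xcff521f2) (nat_lit 0xe422) (nat_lit 0x5544)
  (IL.C (nat_lit 2) (nat_lit 0x80bddb70) (nat_lit 0xe422) (nat_lit 0xa542)
  (IL.C (nat_lit 2) (nat_lit 0x141ed096) (nat_lit 0xe422) (nat_lit 0x9552)
  (IL.C (nat_lit 2) (nat_lit 0x2cc71bdc) (nat_lit 0xe422) (nat_lit 0xb732)
  (IL.C (nat_lit 2) (nat_lit 0xb9baaf8) (nat_lit 0xe422) (nat_lit 0x7643)
  (IL.C (nat_lit 2) (nat_lit 0x140509aa) (nat_lit 0xe422) (nat_lit 0xd533)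
  (IL.C (nat_lit 2) (nat_lit 0x2585ec74) (nat_lit 0xe422) (nat_lit 0xe442)
  (IL.C (nat_lit 2) (nat_lit 0x16de3668) (nat_lit 0xe422) (nat_lit 0x9543)
  (IL.C (nat_lit 2) (nat_lit 0x4144526c) (nat_lit 0xe422) (nat_lit 0xc652)
  (IL.C (nat_lit 2) (nat_lit 0x3f3e3656) (nat_lit 0xe422) (nat_lit 0xb752)
  (IL.C (nat_lit 2) (nat_lit 0x6a23bd6e) (nat_lit 0xe422) (nat_lit 0x7654)
  (IL.C (nat_lit 2) (nat_lit 0x14dc1564) (nat_lit 0xe422) (nat_lit 0xd553)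
  (IL.C (nat_lit 2) (nat_lit 0x14539428) (nat_lit 0xe422) (nat_lit 0xc643)
  (IL.C (nat_lit 2) (nat_lit 0x89c78c8) (nat_lit 0xe422) (nat_lit 0xb743) its1_67))))))))))))))))))))))))))))))))))))))))

noncomputable def its1_65 : IL :=
  (IL.C (nat_lit 0) (nat_lit 0x1fa977bf620) (nat_lit 0xe621) (nat_lit 0xe621)
  (IL.C (nat_lit 1) (nat_lit 0x1965d420) (nat_lit 0xe621) (nat_lit 0xe640)
  (IL.C (nat_lit 1) (nat_lit 0x9a74a72) (nat_lit 0xe621) (nat_lit 0xa651)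
  (IL.C (nat_lit 1) (nat_lit 0x25aa9a4) (nat_lit 0xe621) (nat_lit 0xd772)
  (IL.C (nat_lit 1) (nat_lit 0x70631d8) (nat_lit 0xe621) (nat_lit 0xe663)
  (IL.C (nat_lit 1) (nat_lit 0x2590c1f0) (nat_lit 0xe621) (nat_lit 0xa764)
  (IL.C (nat_lit 2) (nat_lit 0x10caaf4) (nat_lit 0xe621) (nat_lit 0xd731)
  (IL.C (nat_lit 2) (nat_lit 0x46deb216) (nat_lit 0xe621) (nat_lit 0x9741)
  (IL.C (nat_lit 2) (nat_lit 0x15e1b1f6) (nat_lit 0xe621) (nat_lit 0xd750)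
  (IL.C (nat_lit 2) (nat_lit 0xcf680fc) (nat_lit 0xe621) (nat_lit 0xe641)
  (IL.C (nat_lit 2) (nat_lit 0xcd6791c) (nat_lit 0xe621) (nat_lit 0xd751)
  (IL.C (nat_lit 2) (nat_lit 0xc0a52f6) (nat_lit 0xe621) (nat_lit 0xa762)
  (IL.C (nat_lit 2) (nat_lit 0x748a944) (nat_lit 0xe621) (nat_lit 0x9763)
  (IL.C (nat_lit 2) (nat_lit 0x44409fa4) (nat_lit 0xe621) (nat_lit 0x7766)
  (IL.C (nat_lit 2) (nat_lit 0x15b1f66a) (nat_lit 0xe621) (nat_lit 0x9765)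
  (IL.C (nat_lit 1) (nat_lit 0xf2abb6dc) (nat_lit 0xb522) (nat_lit 0x6544)
  (IL.C (nat_lit 1) (nat_lit 0xb00a962) (nat_lit 0xb522) (nat_lit 0x9643)
  (IL.C (nat_lit 2) (nat_lit 0xd7530078) (nat_lit 0xb522) (nat_lit 0x6443)
  (IL.C (nat_lit 0) (nat_lit 0x9154256fa5a) (nat_lit 0x9740) (nat_lit 0x9740)
  (IL.C (nat_lit 1) (nat_lit 0x3b898c24) (nat_lit 0x9740) (nat_lit 0xa650)
  (IL.C (nat_lit 1) (nat_lit 0x17a6a958) (nat_lit 0x9740) (nat_lit 0x9741)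
  (IL.C (nat_lit 1) (nat_lit 0xebbc118) (nat_lit 0x9740) (nat_lit 0x5544)
  (IL.C (nat_lit 1) (nat_lit 0xe747d72) (nat_lit 0x9740) (nat_lit 0xa651)
  (IL.C (nat_lit 1) (nat_lit 0x2d05b4ee) (nat_lit 0x9740) (nat_lit 0xa542)
  (IL.C (nat_lit 1) (nat_lit 0x7995596e) (nat_lit 0x9740) (nat_lit 0x8742)
  (IL.C (nat_lit 1) (nat_lit 0x1836d4ce) (nat_lit 0x9740) (nat_lit 0xd533)
  (IL.C (nat_lit 1) (nat_lit 0x10968e1a) (nat_lit 0x9740) (nat_lit 0x9543)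
  (IL.C (nat_lit 1) (nat_lit 0xeddaf76) (nat_lit 0x9740) (nat_lit 0x8653)
  (IL.C (nat_lit 1) (nat_lit 0xe183544) (nat_lit 0x9740) (nat_lit 0xa762)
  (IL.C (nat_lit 1) (nat_lit 0x285d463e) (nat_lit 0x9740) (nat_lit 0xd553)
  (IL.C (nat_lit 2) (nat_lit 0x24e1a46a) (nat_lit 0x9740) (nat_lit 0xe422)
  (IL.C (nat_lit 2) (nat_lit 0x6505853c) (nat_lit 0x9740) (nat_lit 0x9552)
  (IL.C (nat_lit 2) (nat_lit 0x35d50688) (nat_lit 0x9740) (nat_lit 0xa443)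
  (IL.C (nat_lit 2) (nat_lit 0x4ca3831e) (nat_lit 0x9740) (nat_lit 0xe442)
  (IL.C (nat_lit 2) (nat_lit 0x1b4060d0) (nat_lit 0x9740) (nat_lit 0xc652)
  (IL.C (nat_lit 2) (nat_lit 0x161ad84e) (nat_lit 0x9740) (nat_lit 0xb752)
  (IL.C (nat_lit 2) (nat_lit 0x1805e20c) (nat_lit 0x9740) (nat_lit 0x7654)
  (IL.C (nat_lit 2) (nat_lit 0x1731f560) (nat_lit 0x9740) (nat_lit 0xc643)
  (IL.C (nat_lit 2) (nat_lit 0x11c4d5de) (nat_lit 0x9740) (nat_lit 0xb743)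
  (IL.C (nat_lit 2) (nat_lit 0x2a88eca4) (nat_lit 0x9740) (nat_lit 0x9763) its1_66))))))))))))))))))))))))))))))))))))))))

noncomputable def its1_64 : IL :=
  (IL.C (nat_lit 2) (nat_lit 0x3294bb54) (nat_lit 0xc422) (nat_lit 0x9653)
  (IL.C (nat_lit 0) (nat_lit 0xe8a66cee5c0) (nat_lit 0x7632) (nat_lit 0x7632)
  (IL.C (nat_lit 1) (nat_lit 0xa1e1a27a) (nat_lit 0x7632) (nat_lit 0xe422)
  (IL.C (nat_lit 1) (nat_lit 0x61ebeac4) (nat_lit 0x7632) (nat_lit 0x7652)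
  (IL.C (nat_lit 1) (nat_lit 0x83075e2) (nat_lit 0x7632) (nat_lit 0x8742)
  (IL.C (nat_lit 1) (nat_lit 0x5c899b08) (nat_lit 0x7632) (nat_lit 0xb752)
  (IL.C (nat_lit 2) (nat_lit 0x88c1ee0) (nat_lit 0x7632) (nat_lit 0xc632)
  (IL.C (nat_lit 2) (nat_lit 0x9bec5c62) (nat_lit 0x7632) (nat_lit 0xc652)
  (IL.C (nat_lit 0) (nat_lit 0x5fd4a3f3b1fc) (nat_lit 0x7442) (nat_lit 0x7442)
  (IL.C (nat_lit 1) (nat_lit 0x1185cb84) (nat_lit 0x7442) (nat_lit 0x6552)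
  (IL.C (nat_lit 1) (nat_lit 0x274b5318e) (nat_lit 0x7442) (nat_lit 0x8542)
  (IL.C (nat_lit 1) (nat_lit 0x55358e14) (nat_lit 0x7442) (nat_lit 0x6543)
  (IL.C (nat_lit 2) (nat_lit 0xc91b852e) (nat_lit 0x7442) (nat_lit 0x8443)
  (IL.C (nat_lit 2) (nat_lit 0x1e781390) (nat_lit 0x7442) (nat_lit 0x7444)
  (IL.C (nat_lit 2) (nat_lit 0xa60f9196) (nat_lit 0x7442) (nat_lit 0x6554)
  (IL.C (nat_lit 1) (nat_lit 0x2a8b2496) (nat_lit 0xa640) (nat_lit 0x8652)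
  (IL.C (nat_lit 1) (nat_lit 0x5f80b26) (nat_lit 0xa640) (nat_lit 0xd552)
  (IL.C (nat_lit 1) (nat_lit 0x3336d38c) (nat_lit 0xa640) (nat_lit 0x9762)
  (IL.C (nat_lit 2) (nat_lit 0xacc8990) (nat_lit 0xa640) (nat_lit 0x9650)
  (IL.C (nat_lit 2) (nat_lit 0x4fb9294e) (nat_lit 0xa640) (nat_lit 0x9651)
  (IL.C (nat_lit 2) (nat_lit 0x5c98dca4) (nat_lit 0xa640) (nat_lit 0xd532)
  (IL.C (nat_lit 2) (nat_lit 0x50a5dffe) (nat_lit 0xa640) (nat_lit 0x6655)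
  (IL.C (nat_lit 2) (nat_lit 0x38653f08) (nat_lit 0xa640) (nat_lit 0xb653)
  (IL.C (nat_lit 0) (nat_lit 0x676da266048) (nat_lit 0xd531) (nat_lit 0xd531)
  (IL.C (nat_lit 1) (nat_lit 0xd5bfa3e) (nat_lit 0xd531) (nat_lit 0xd550)
  (IL.C (nat_lit 1) (nat_lit 0x12aece8) (nat_lit 0xd531) (nat_lit 0xe642)
  (IL.C (nat_lit 2) (nat_lit 0x22e7ccb4) (nat_lit 0xd531) (nat_lit 0x8651)
  (IL.C (nat_lit 2) (nat_lit 0x4014d5e0) (nat_lit 0xd531) (nat_lit 0xc640)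
  (IL.C (nat_lit 2) (nat_lit 0x16119cba) (nat_lit 0xd531) (nat_lit 0xb740)
  (IL.C (nat_lit 2) (nat_lit 0x162cf476) (nat_lit 0xd531) (nat_lit 0xd551)
  (IL.C (nat_lit 2) (nat_lit 0x20774920) (nat_lit 0xd531) (nat_lit 0xc641)
  (IL.C (nat_lit 2) (nat_lit 0x12db563e) (nat_lit 0xd531) (nat_lit 0xb741)
  (IL.C (nat_lit 2) (nat_lit 0x183783d6) (nat_lit 0xd531) (nat_lit 0xd752)
  (IL.C (nat_lit 2) (nat_lit 0xa205c14) (nat_lit 0xd531) (nat_lit 0xd743)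
  (IL.C (nat_lit 2) (nat_lit 0x13c4fe43e) (nat_lit 0xd531) (nat_lit 0x7665)
  (IL.C (nat_lit 1) (nat_lit 0x1c85e376) (nat_lit 0xa432) (nat_lit 0x9532)
  (IL.C (nat_lit 1) (nat_lit 0xd062ba08) (nat_lit 0xa432) (nat_lit 0x7652)
  (IL.C (nat_lit 1) (nat_lit 0x1954262c) (nat_lit 0xa432) (nat_lit 0x9552)
  (IL.C (nat_lit 2) (nat_lit 0x1208e60) (nat_lit 0xa432) (nat_lit 0xe422)
  (IL.C (nat_lit 2) (nat_lit 0x843ff16) (nat_lit 0xa432) (nat_lit 0xd533) its1_65))))))))))))))))))))))))))))))))))))))))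

noncomputable def its1_63 : IL :=
  (IL.C (nat_lit 0) (nat_lit 0x430806268a4) (nat_lit 0x7660) (nat_lit 0x7660)
  (IL.C (nat_lit 1) (nat_lit 0xb6b56df0) (nat_lit 0x7660) (nat_lit 0xd721)
  (IL.C (nat_lit 1) (nat_lit 0xa658a3c) (nat_lit 0x7660) (nat_lit 0x7661)
  (IL.C (nat_lit 2) (nat_lit 0x74a4c3b4) (nat_lit 0x7660) (nat_lit 0x8632)
  (IL.C (nat_lit 2) (nat_lit 0x81723fe) (nat_lit 0x7660) (nat_lit 0xc622)
  (IL.C (nat_lit 2) (nat_lit 0x413cae9e) (nat_lit 0x7660) (nat_lit 0xb722)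
  (IL.C (nat_lit 2) (nat_lit 0x57c5ebaa) (nat_lit 0x7660) (nat_lit 0xd740)
  (IL.C (nat_lit 2) (nat_lit 0x2f79af48) (nat_lit 0x7660) (nat_lit 0xc660)
  (IL.C (nat_lit 2) (nat_lit 0xc3d162) (nat_lit 0x7660) (nat_lit 0x9762)
  (IL.C (nat_lit 2) (nat_lit 0xcbb521e) (nat_lit 0x9432) (nat_lit 0x6653)
  (IL.C (nat_lit 0) (nat_lit 0x1fa7be4f3c0) (nat_lit 0xa441) (nat_lit 0xa441)
  (IL.C (nat_lit 1) (nat_lit 0x76bde484) (nat_lit 0xa441) (nat_lit 0xd550)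
  (IL.C (nat_lit 1) (nat_lit 0x1e3b0618) (nat_lit 0xa441) (nat_lit 0xd551)
  (IL.C (nat_lit 1) (nat_lit 0x1049fc80) (nat_lit 0xa441) (nat_lit 0xb552)
  (IL.C (nat_lit 1) (nat_lit 0x3c6545a2) (nat_lit 0xa441) (nat_lit 0xb543)
  (IL.C (nat_lit 1) (nat_lit 0x19738b50) (nat_lit 0xa441) (nat_lit 0xa654)
  (IL.C (nat_lit 2) (nat_lit 0x13ade116) (nat_lit 0xa441) (nat_lit 0x9541)
  (IL.C (nat_lit 2) (nat_lit 0x2e49bfba) (nat_lit 0xa441) (nat_lit 0xc442)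
  (IL.C (nat_lit 2) (nat_lit 0x1ec6256) (nat_lit 0xa441) (nat_lit 0x9744)
  (IL.C (nat_lit 2) (nat_lit 0x19e4befe) (nat_lit 0xa441) (nat_lit 0x9655)
  (IL.C (nat_lit 2) (nat_lit 0x2eaa3e98) (nat_lit 0x6651) (nat_lit 0xd540)
  (IL.C (nat_lit 2) (nat_lit 0x1749124c) (nat_lit 0x6651) (nat_lit 0xd541)
  (IL.C (nat_lit 0) (nat_lit 0x13915144fd8c) (nat_lit 0xc422) (nat_lit 0xc422)
  (IL.C (nat_lit 1) (nat_lit 0x2653047e) (nat_lit 0xc422) (nat_lit 0x7442)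
  (IL.C (nat_lit 1) (nat_lit 0xa802279c) (nat_lit 0xc422) (nat_lit 0x6552)
  (IL.C (nat_lit 1) (nat_lit 0x1463e87c) (nat_lit 0xc422) (nat_lit 0x8542)
  (IL.C (nat_lit 1) (nat_lit 0x3343c89a) (nat_lit 0xc422) (nat_lit 0xb532)
  (IL.C (nat_lit 1) (nat_lit 0x64afe86) (nat_lit 0xc422) (nat_lit 0xa632)
  (IL.C (nat_lit 1) (nat_lit 0x611a0c2) (nat_lit 0xc422) (nat_lit 0x8443)
  (IL.C (nat_lit 1) (nat_lit 0x33304182) (nat_lit 0xc422) (nat_lit 0xb433)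
  (IL.C (nat_lit 1) (nat_lit 0x556254ae) (nat_lit 0xc422) (nat_lit 0x7444)
  (IL.C (nat_lit 1) (nat_lit 0x47c7b78e) (nat_lit 0xc422) (nat_lit 0x9742)
  (IL.C (nat_lit 1) (nat_lit 0x9b3481d8) (nat_lit 0xc422) (nat_lit 0x6554)
  (IL.C (nat_lit 1) (nat_lit 0xaccc3208) (nat_lit 0xc422) (nat_lit 0xa652)
  (IL.C (nat_lit 2) (nat_lit 0x389aed80) (nat_lit 0xc422) (nat_lit 0x6543)
  (IL.C (nat_lit 2) (nat_lit 0x348d748a) (nat_lit 0xc422) (nat_lit 0x9633)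
  (IL.C (nat_lit 2) (nat_lit 0x248c2908) (nat_lit 0xc422) (nat_lit 0xc442)
  (IL.C (nat_lit 2) (nat_lit 0x72c8970) (nat_lit 0xc422) (nat_lit 0xb552)
  (IL.C (nat_lit 2) (nat_lit 0x5a4cd68) (nat_lit 0xc422) (nat_lit 0xb543)
  (IL.C (nat_lit 2) (nat_lit 0xf1bff20) (nat_lit 0xc422) (nat_lit 0xa643) its1_64))))))))))))))))))))))))))))))))))))))))

noncomputable def its1_62 : IL :=
  (IL.C (nat_lit 2) (nat_lit 0xae14e8a) (nat_lit 0xc621) (nat_lit 0xd531)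
  (IL.C (nat_lit 2) (nat_lit 0x1974fc06) (nat_lit 0xc621) (nat_lit 0xc641)
  (IL.C (nat_lit 2) (nat_lit 0x1177beae) (nat_lit 0xc621) (nat_lit 0xb741)
  (IL.C (nat_lit 2) (nat_lit 0x1d28be84) (nat_lit 0xc621) (nat_lit 0xe642)
  (IL.C (nat_lit 2) (nat_lit 0x120aef2e) (nat_lit 0xc621) (nat_lit 0xd743)
  (IL.C (nat_lit 2) (nat_lit 0x22ad5280) (nat_lit 0xc621) (nat_lit 0x7665)
  (IL.C (nat_lit 2) (nat_lit 0x35f5ed7e) (nat_lit 0xd332) (nat_lit 0x7660)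
  (IL.C (nat_lit 2) (nat_lit 0x3dcca2b4) (nat_lit 0xd332) (nat_lit 0x6633)
  (IL.C (nat_lit 2) (nat_lit 0x1f37582a) (nat_lit 0xd332) (nat_lit 0xb633)
  (IL.C (nat_lit 1) (nat_lit 0x54db87ae) (nat_lit 0xb721) (nat_lit 0x7641)
  (IL.C (nat_lit 1) (nat_lit 0xfcf5cde) (nat_lit 0xb721) (nat_lit 0xd531)
  (IL.C (nat_lit 1) (nat_lit 0x14b8314e) (nat_lit 0xb721) (nat_lit 0xc640)
  (IL.C (nat_lit 1) (nat_lit 0x307c2012) (nat_lit 0xb721) (nat_lit 0xd743)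
  (IL.C (nat_lit 1) (nat_lit 0xba4d5e46) (nat_lit 0xb721) (nat_lit 0x7665)
  (IL.C (nat_lit 1) (nat_lit 0x9af1966) (nat_lit 0xb721) (nat_lit 0xc663)
  (IL.C (nat_lit 2) (nat_lit 0xfc66946) (nat_lit 0xb721) (nat_lit 0xc641)
  (IL.C (nat_lit 2) (nat_lit 0x75eef610) (nat_lit 0xb721) (nat_lit 0x7663)
  (IL.C (nat_lit 1) (nat_lit 0x362a38a8) (nat_lit 0xb540) (nat_lit 0x9650)
  (IL.C (nat_lit 1) (nat_lit 0x6bcfe890) (nat_lit 0xb540) (nat_lit 0x9651)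
  (IL.C (nat_lit 2) (nat_lit 0x1cb12700) (nat_lit 0xb540) (nat_lit 0xd552)
  (IL.C (nat_lit 2) (nat_lit 0x31070d26) (nat_lit 0xb540) (nat_lit 0x6655)
  (IL.C (nat_lit 0) (nat_lit 0x1022a16c1f7c) (nat_lit 0x7641) (nat_lit 0x7641)
  (IL.C (nat_lit 1) (nat_lit 0x60b4dcac) (nat_lit 0x7641) (nat_lit 0xd531)
  (IL.C (nat_lit 1) (nat_lit 0x75d207f0) (nat_lit 0x7641) (nat_lit 0xd550)
  (IL.C (nat_lit 1) (nat_lit 0xf1ed92fe) (nat_lit 0x7641) (nat_lit 0xa652)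
  (IL.C (nat_lit 2) (nat_lit 0x3311fe50) (nat_lit 0x7641) (nat_lit 0xd551)
  (IL.C (nat_lit 2) (nat_lit 0xbdfd7cc2) (nat_lit 0x7641) (nat_lit 0x7444)
  (IL.C (nat_lit 2) (nat_lit 0xf820de1a) (nat_lit 0x7641) (nat_lit 0x9742)
  (IL.C (nat_lit 2) (nat_lit 0x28782620) (nat_lit 0x7641) (nat_lit 0x9653)
  (IL.C (nat_lit 2) (nat_lit 0x2b1fd60) (nat_lit 0x7641) (nat_lit 0x7665)
  (IL.C (nat_lit 2) (nat_lit 0x77660944) (nat_lit 0x9640) (nat_lit 0xd522)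
  (IL.C (nat_lit 0) (nat_lit 0x4ba9f4333f2) (nat_lit 0x8722) (nat_lit 0x8722)
  (IL.C (nat_lit 1) (nat_lit 0x99c4752) (nat_lit 0x8722) (nat_lit 0x7632)
  (IL.C (nat_lit 1) (nat_lit 0x22fcc8c) (nat_lit 0x8722) (nat_lit 0x8742)
  (IL.C (nat_lit 1) (nat_lit 0x1e359916) (nat_lit 0x8722) (nat_lit 0xc632)
  (IL.C (nat_lit 1) (nat_lit 0x241e0998) (nat_lit 0x8722) (nat_lit 0xb732)
  (IL.C (nat_lit 1) (nat_lit 0x1b327a16) (nat_lit 0x8722) (nat_lit 0xa762)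
  (IL.C (nat_lit 1) (nat_lit 0x4b53cac) (nat_lit 0x8722) (nat_lit 0x9763)
  (IL.C (nat_lit 2) (nat_lit 0x136a887a) (nat_lit 0x8722) (nat_lit 0x8633)
  (IL.C (nat_lit 2) (nat_lit 0x7478ccc) (nat_lit 0x8722) (nat_lit 0x8653) its1_63))))))))))))))))))))))))))))))))))))))))

noncomputable def its1_61 : IL :=
  (IL.C (nat_lit 1) (nat_lit 0x3403421e) (nat_lit 0x8650) (nat_lit 0xb721)
  (IL.C (nat_lit 1) (nat_lit 0x36c38c48) (nat_lit 0x8650) (nat_lit 0xd550)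
  (IL.C (nat_lit 1) (nat_lit 0x3bdd8908) (nat_lit 0x8650) (nat_lit 0xb740)
  (IL.C (nat_lit 1) (nat_lit 0x358232b4) (nat_lit 0x8650) (nat_lit 0xc641)
  (IL.C (nat_lit 1) (nat_lit 0x5c29e40c) (nat_lit 0x8650) (nat_lit 0xb741)
  (IL.C (nat_lit 1) (nat_lit 0x29057ab6) (nat_lit 0x8650) (nat_lit 0xe642)
  (IL.C (nat_lit 1) (nat_lit 0x2b84c656) (nat_lit 0x8650) (nat_lit 0x7665)
  (IL.C (nat_lit 1) (nat_lit 0x3868a5c0) (nat_lit 0x8650) (nat_lit 0xb763)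
  (IL.C (nat_lit 1) (nat_lit 0x4bf4c6b4) (nat_lit 0x8650) (nat_lit 0xc665)
  (IL.C (nat_lit 2) (nat_lit 0x8dbdfcfa) (nat_lit 0x8650) (nat_lit 0xc621)
  (IL.C (nat_lit 2) (nat_lit 0xb7629da6) (nat_lit 0x8650) (nat_lit 0xd531)
  (IL.C (nat_lit 2) (nat_lit 0x674e3b5a) (nat_lit 0x8650) (nat_lit 0x8651)
  (IL.C (nat_lit 2) (nat_lit 0x122ac94c) (nat_lit 0x8650) (nat_lit 0xc640)
  (IL.C (nat_lit 2) (nat_lit 0x202a9c40) (nat_lit 0x8650) (nat_lit 0x9760)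
  (IL.C (nat_lit 2) (nat_lit 0x2cb09690) (nat_lit 0x8650) (nat_lit 0x8762)
  (IL.C (nat_lit 2) (nat_lit 0x25d3b31a) (nat_lit 0x8650) (nat_lit 0xd752)
  (IL.C (nat_lit 2) (nat_lit 0x1ff72c2) (nat_lit 0x8650) (nat_lit 0xd743)
  (IL.C (nat_lit 2) (nat_lit 0xaa9cb40) (nat_lit 0x8650) (nat_lit 0x9744)
  (IL.C (nat_lit 2) (nat_lit 0x3c0ee9a6) (nat_lit 0x8650) (nat_lit 0xa654)
  (IL.C (nat_lit 2) (nat_lit 0x2199b62e) (nat_lit 0x8650) (nat_lit 0xc663)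
  (IL.C (nat_lit 1) (nat_lit 0xa5d3338) (nat_lit 0x9631) (nat_lit 0xb722)
  (IL.C (nat_lit 1) (nat_lit 0x69ee3c68) (nat_lit 0x9631) (nat_lit 0xd532)
  (IL.C (nat_lit 1) (nat_lit 0x36229ca0) (nat_lit 0x9631) (nat_lit 0xb742)
  (IL.C (nat_lit 1) (nat_lit 0xa38dadc) (nat_lit 0x9631) (nat_lit 0xd543)
  (IL.C (nat_lit 2) (nat_lit 0xe9d8c5a) (nat_lit 0x9631) (nat_lit 0xd721)
  (IL.C (nat_lit 2) (nat_lit 0x5ca6f62a) (nat_lit 0x9631) (nat_lit 0xd433)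
  (IL.C (nat_lit 2) (nat_lit 0x13d5b7fe) (nat_lit 0x9631) (nat_lit 0xd552)
  (IL.C (nat_lit 1) (nat_lit 0x478fb392) (nat_lit 0xd440) (nat_lit 0x9660)
  (IL.C (nat_lit 1) (nat_lit 0x6e857acc) (nat_lit 0xd440) (nat_lit 0x6665)
  (IL.C (nat_lit 0) (nat_lit 0x80167602706) (nat_lit 0xc621) (nat_lit 0xc621)
  (IL.C (nat_lit 1) (nat_lit 0x22506452) (nat_lit 0xc621) (nat_lit 0xb721)
  (IL.C (nat_lit 1) (nat_lit 0xac929208) (nat_lit 0xc621) (nat_lit 0x7641)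
  (IL.C (nat_lit 1) (nat_lit 0x394fecc) (nat_lit 0xc621) (nat_lit 0xc640)
  (IL.C (nat_lit 1) (nat_lit 0x3beb174a) (nat_lit 0xc621) (nat_lit 0xb740)
  (IL.C (nat_lit 1) (nat_lit 0x38bd41d4) (nat_lit 0xc621) (nat_lit 0xe622)
  (IL.C (nat_lit 1) (nat_lit 0x2ce1869a) (nat_lit 0xc621) (nat_lit 0xd732)
  (IL.C (nat_lit 1) (nat_lit 0x456ef8bc) (nat_lit 0xc621) (nat_lit 0x7663)
  (IL.C (nat_lit 1) (nat_lit 0x64ec8b36) (nat_lit 0xc621) (nat_lit 0xd752)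
  (IL.C (nat_lit 1) (nat_lit 0x344d8d08) (nat_lit 0xc621) (nat_lit 0xc663)
  (IL.C (nat_lit 1) (nat_lit 0x1817f34) (nat_lit 0xc621) (nat_lit 0xb763) its1_62))))))))))))))))))))))))))))))))))))))))

noncomputable def its1_60 : IL :=
  (IL.C (nat_lit 2) (nat_lit 0x15e8f3c) (nat_lit 0x8541) (nat_lit 0xc654)
  (IL.C (nat_lit 0) (nat_lit 0x63c047abb68) (nat_lit 0xc440) (nat_lit 0xc440)
  (IL.C (nat_lit 1) (nat_lit 0x2bdcc2be) (nat_lit 0xc440) (nat_lit 0x9740)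
  (IL.C (nat_lit 1) (nat_lit 0x31a358fc) (nat_lit 0xc440) (nat_lit 0xa650)
  (IL.C (nat_lit 1) (nat_lit 0x2ba2feaa) (nat_lit 0xc440) (nat_lit 0xc441)
  (IL.C (nat_lit 1) (nat_lit 0x8cc24362) (nat_lit 0xc440) (nat_lit 0x5544)
  (IL.C (nat_lit 1) (nat_lit 0x2a35c160) (nat_lit 0xc440) (nat_lit 0xa651)
  (IL.C (nat_lit 1) (nat_lit 0x23e140c) (nat_lit 0xc440) (nat_lit 0xc652)
  (IL.C (nat_lit 1) (nat_lit 0x11c002722) (nat_lit 0xc440) (nat_lit 0x7654)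
  (IL.C (nat_lit 1) (nat_lit 0x1081387e) (nat_lit 0xc440) (nat_lit 0xa544)
  (IL.C (nat_lit 1) (nat_lit 0x1b5fd00c) (nat_lit 0xc440) (nat_lit 0x9554)
  (IL.C (nat_lit 1) (nat_lit 0x1bb768c) (nat_lit 0xc440) (nat_lit 0xe444)
  (IL.C (nat_lit 2) (nat_lit 0x19131b62) (nat_lit 0xc440) (nat_lit 0xb550)
  (IL.C (nat_lit 2) (nat_lit 0x18cc69f6) (nat_lit 0xc440) (nat_lit 0x9741)
  (IL.C (nat_lit 2) (nat_lit 0x170ed396) (nat_lit 0xc440) (nat_lit 0xb551)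
  (IL.C (nat_lit 2) (nat_lit 0x8fc21b6) (nat_lit 0xc440) (nat_lit 0xe442)
  (IL.C (nat_lit 2) (nat_lit 0xc38911e) (nat_lit 0xc440) (nat_lit 0xb752)
  (IL.C (nat_lit 2) (nat_lit 0x5c315fc4) (nat_lit 0xc440) (nat_lit 0xd553)
  (IL.C (nat_lit 2) (nat_lit 0xc00f8d2) (nat_lit 0xc440) (nat_lit 0xc643)
  (IL.C (nat_lit 2) (nat_lit 0x4d9edeb0) (nat_lit 0xc440) (nat_lit 0xb743)
  (IL.C (nat_lit 2) (nat_lit 0x1635986) (nat_lit 0xc440) (nat_lit 0xd555)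
  (IL.C (nat_lit 2) (nat_lit 0x2b7eccb2) (nat_lit 0xc440) (nat_lit 0xc654)
  (IL.C (nat_lit 2) (nat_lit 0x29c4a210) (nat_lit 0xc440) (nat_lit 0xb754)
  (IL.C (nat_lit 2) (nat_lit 0xaca6149c) (nat_lit 0xd431) (nat_lit 0x6651)
  (IL.C (nat_lit 2) (nat_lit 0xfd95c58) (nat_lit 0xd431) (nat_lit 0xb631)
  (IL.C (nat_lit 2) (nat_lit 0x20ed5808) (nat_lit 0xd431) (nat_lit 0xb650)
  (IL.C (nat_lit 2) (nat_lit 0x194f5d36) (nat_lit 0xd431) (nat_lit 0xb651)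
  (IL.C (nat_lit 0) (nat_lit 0x1b2a7f6e7ca8) (nat_lit 0xa522) (nat_lit 0xa522)
  (IL.C (nat_lit 1) (nat_lit 0xd53b226) (nat_lit 0xa522) (nat_lit 0xe422)
  (IL.C (nat_lit 1) (nat_lit 0xa7b752c) (nat_lit 0xa522) (nat_lit 0x9532)
  (IL.C (nat_lit 1) (nat_lit 0x34831894) (nat_lit 0xa522) (nat_lit 0x7643)
  (IL.C (nat_lit 2) (nat_lit 0x56f4e4ba) (nat_lit 0xa522) (nat_lit 0xa432)
  (IL.C (nat_lit 2) (nat_lit 0x19df5d18) (nat_lit 0xa522) (nat_lit 0x9433)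
  (IL.C (nat_lit 2) (nat_lit 0xce29c30a) (nat_lit 0xa522) (nat_lit 0x7652)
  (IL.C (nat_lit 2) (nat_lit 0x9ab2f8c2) (nat_lit 0xa522) (nat_lit 0xa542)
  (IL.C (nat_lit 2) (nat_lit 0x26a97c08) (nat_lit 0xa522) (nat_lit 0x9552)
  (IL.C (nat_lit 2) (nat_lit 0xe129200) (nat_lit 0xa522) (nat_lit 0xa443)
  (IL.C (nat_lit 2) (nat_lit 0x212441ba) (nat_lit 0xa522) (nat_lit 0xd533)
  (IL.C (nat_lit 2) (nat_lit 0x3f1d7500) (nat_lit 0xa522) (nat_lit 0x9543)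
  (IL.C (nat_lit 0) (nat_lit 0x52867ad8660) (nat_lit 0x8650) (nat_lit 0x8650) its1_61))))))))))))))))))))))))))))))))))))))))

noncomputable def its1_59 : IL :=
  (IL.C (nat_lit 1) (nat_lit 0x593c15f6) (nat_lit 0xb431) (nat_lit 0x9631)
  (IL.C (nat_lit 1) (nat_lit 0x15019474) (nat_lit 0xb431) (nat_lit 0x9651)
  (IL.C (nat_lit 1) (nat_lit 0xa8ca248) (nat_lit 0xb431) (nat_lit 0xd532)
  (IL.C (nat_lit 1) (nat_lit 0x7b881aa0) (nat_lit 0xb431) (nat_lit 0x6653)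
  (IL.C (nat_lit 2) (nat_lit 0x23c2bcd6) (nat_lit 0xb431) (nat_lit 0xd552)
  (IL.C (nat_lit 2) (nat_lit 0x2ff360bc) (nat_lit 0xb431) (nat_lit 0x6655)
  (IL.C (nat_lit 1) (nat_lit 0x11132196) (nat_lit 0xb630) (nat_lit 0xd742)
  (IL.C (nat_lit 2) (nat_lit 0x178d6b0c) (nat_lit 0xb630) (nat_lit 0xd722)
  (IL.C (nat_lit 1) (nat_lit 0x83a54130) (nat_lit 0x8432) (nat_lit 0x9633)
  (IL.C (nat_lit 1) (nat_lit 0xdc8bf1c) (nat_lit 0xb332) (nat_lit 0x9633)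
  (IL.C (nat_lit 1) (nat_lit 0x68837874) (nat_lit 0x6433) (nat_lit 0x6552)
  (IL.C (nat_lit 2) (nat_lit 0xbaccf2fa) (nat_lit 0x6433) (nat_lit 0xb532)
  (IL.C (nat_lit 0) (nat_lit 0x7c52de289fc4) (nat_lit 0x5542) (nat_lit 0x5542)
  (IL.C (nat_lit 1) (nat_lit 0x42442c88) (nat_lit 0x5542) (nat_lit 0xa432)
  (IL.C (nat_lit 1) (nat_lit 0x5e8ce5b8) (nat_lit 0x5542) (nat_lit 0x9433)
  (IL.C (nat_lit 1) (nat_lit 0x65fcd5e0) (nat_lit 0x5542) (nat_lit 0x5544)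
  (IL.C (nat_lit 1) (nat_lit 0x2086e58c) (nat_lit 0x5542) (nat_lit 0xa542)
  (IL.C (nat_lit 1) (nat_lit 0xcce24978) (nat_lit 0x5542) (nat_lit 0xa443)
  (IL.C (nat_lit 2) (nat_lit 0x1301385e6) (nat_lit 0x5542) (nat_lit 0xa522)
  (IL.C (nat_lit 2) (nat_lit 0xc6b99a6) (nat_lit 0x5542) (nat_lit 0x5443)
  (IL.C (nat_lit 2) (nat_lit 0x162c05f12) (nat_lit 0x5542) (nat_lit 0xe422)
  (IL.C (nat_lit 2) (nat_lit 0x7fd65408) (nat_lit 0x5542) (nat_lit 0xd533)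
  (IL.C (nat_lit 2) (nat_lit 0xbab9df12) (nat_lit 0x5542) (nat_lit 0x9543)
  (IL.C (nat_lit 1) (nat_lit 0x514bfe3a) (nat_lit 0x4443) (nat_lit 0x9522)
  (IL.C (nat_lit 1) (nat_lit 0x12976d798) (nat_lit 0x4443) (nat_lit 0xd532)
  (IL.C (nat_lit 1) (nat_lit 0x18b41a9a) (nat_lit 0x9522) (nat_lit 0xd433)
  (IL.C (nat_lit 1) (nat_lit 0x6d4409da) (nat_lit 0x9522) (nat_lit 0x6653)
  (IL.C (nat_lit 0) (nat_lit 0x205154a0bfc) (nat_lit 0x8541) (nat_lit 0x8541)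
  (IL.C (nat_lit 1) (nat_lit 0x2d038db8) (nat_lit 0x8541) (nat_lit 0xc440)
  (IL.C (nat_lit 1) (nat_lit 0xd6764b6) (nat_lit 0x8541) (nat_lit 0xc441)
  (IL.C (nat_lit 1) (nat_lit 0xc6f1d3c) (nat_lit 0x8541) (nat_lit 0x9741)
  (IL.C (nat_lit 1) (nat_lit 0x731bffc8) (nat_lit 0x8541) (nat_lit 0x5544)
  (IL.C (nat_lit 1) (nat_lit 0x7201e4e6) (nat_lit 0x8541) (nat_lit 0xa542)
  (IL.C (nat_lit 1) (nat_lit 0x160c0aca) (nat_lit 0x8541) (nat_lit 0x8742)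
  (IL.C (nat_lit 1) (nat_lit 0x196d386) (nat_lit 0x8541) (nat_lit 0x8744)
  (IL.C (nat_lit 2) (nat_lit 0x441a8488) (nat_lit 0x8541) (nat_lit 0x9552)
  (IL.C (nat_lit 2) (nat_lit 0x2b69d034) (nat_lit 0x8541) (nat_lit 0xe442)
  (IL.C (nat_lit 2) (nat_lit 0x27bcad38) (nat_lit 0x8541) (nat_lit 0x7654)
  (IL.C (nat_lit 2) (nat_lit 0x2064f7dc) (nat_lit 0x8541) (nat_lit 0xa544)
  (IL.C (nat_lit 2) (nat_lit 0x1bec0514) (nat_lit 0x8541) (nat_lit 0xe444) its1_60))))))))))))))))))))))))))))))))))))))))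

noncomputable def its1_58 : IL :=
  (IL.C (nat_lit 2) (nat_lit 0x1a26569e) (nat_lit 0x8631) (nat_lit 0xc663)
  (IL.C (nat_lit 0) (nat_lit 0x9a4e88fd630) (nat_lit 0x9721) (nat_lit 0x9721)
  (IL.C (nat_lit 1) (nat_lit 0x1fe15060) (nat_lit 0x9721) (nat_lit 0xa631)
  (IL.C (nat_lit 1) (nat_lit 0x1ac076) (nat_lit 0x9721) (nat_lit 0xe621)
  (IL.C (nat_lit 1) (nat_lit 0x1b533558) (nat_lit 0x9721) (nat_lit 0xa650)
  (IL.C (nat_lit 1) (nat_lit 0x23a4e1c8) (nat_lit 0x9721) (nat_lit 0xd731)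
  (IL.C (nat_lit 1) (nat_lit 0x111712c2) (nat_lit 0x9721) (nat_lit 0xa651)
  (IL.C (nat_lit 1) (nat_lit 0xdafb8a8) (nat_lit 0x9721) (nat_lit 0xc632)
  (IL.C (nat_lit 1) (nat_lit 0x5c20d114) (nat_lit 0x9721) (nat_lit 0xb732)
  (IL.C (nat_lit 1) (nat_lit 0x24b5452a) (nat_lit 0x9721) (nat_lit 0xd533)
  (IL.C (nat_lit 1) (nat_lit 0x3513e422) (nat_lit 0x9721) (nat_lit 0xe442)
  (IL.C (nat_lit 1) (nat_lit 0x2a0ccfa8) (nat_lit 0x9721) (nat_lit 0x8653)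
  (IL.C (nat_lit 1) (nat_lit 0x2ffdc76) (nat_lit 0x9721) (nat_lit 0xb752)
  (IL.C (nat_lit 1) (nat_lit 0x518b33b0) (nat_lit 0x9721) (nat_lit 0xa762)
  (IL.C (nat_lit 1) (nat_lit 0x155a8070) (nat_lit 0x9721) (nat_lit 0xc643)
  (IL.C (nat_lit 1) (nat_lit 0x2afab618) (nat_lit 0x9721) (nat_lit 0xb743)
  (IL.C (nat_lit 2) (nat_lit 0x460342a8) (nat_lit 0x9721) (nat_lit 0x9740)
  (IL.C (nat_lit 2) (nat_lit 0x2deb0486) (nat_lit 0x9721) (nat_lit 0xe422)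
  (IL.C (nat_lit 2) (nat_lit 0xc0d28d6) (nat_lit 0x9721) (nat_lit 0x9741)
  (IL.C (nat_lit 2) (nat_lit 0x9ec15ab8) (nat_lit 0x9721) (nat_lit 0x8742)
  (IL.C (nat_lit 2) (nat_lit 0x4666bc5e) (nat_lit 0x9721) (nat_lit 0xc652)
  (IL.C (nat_lit 2) (nat_lit 0x1a1f9c42) (nat_lit 0x9721) (nat_lit 0xd553)
  (IL.C (nat_lit 2) (nat_lit 0x518c2fc6) (nat_lit 0x9721) (nat_lit 0x9763)
  (IL.C (nat_lit 2) (nat_lit 0x27881ec0) (nat_lit 0x9540) (nat_lit 0xd550)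
  (IL.C (nat_lit 2) (nat_lit 0x6565c2fc) (nat_lit 0x9540) (nat_lit 0xb552)
  (IL.C (nat_lit 1) (nat_lit 0x9b689480) (nat_lit 0x8441) (nat_lit 0xd721)
  (IL.C (nat_lit 1) (nat_lit 0x23138da0) (nat_lit 0x8441) (nat_lit 0x7661)
  (IL.C (nat_lit 1) (nat_lit 0x25d8da86) (nat_lit 0x8441) (nat_lit 0x8652)
  (IL.C (nat_lit 1) (nat_lit 0x3f4ade8c) (nat_lit 0x8441) (nat_lit 0xd552)
  (IL.C (nat_lit 1) (nat_lit 0xf559460) (nat_lit 0x8441) (nat_lit 0xb655)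
  (IL.C (nat_lit 2) (nat_lit 0x400e221a) (nat_lit 0x8441) (nat_lit 0x9651)
  (IL.C (nat_lit 2) (nat_lit 0x516ec99e) (nat_lit 0x8441) (nat_lit 0x6655)
  (IL.C (nat_lit 1) (nat_lit 0x265bf04c) (nat_lit 0xd521) (nat_lit 0xd431)
  (IL.C (nat_lit 1) (nat_lit 0x28d44d40) (nat_lit 0xd521) (nat_lit 0xb650)
  (IL.C (nat_lit 1) (nat_lit 0x13e5bc6c) (nat_lit 0xd521) (nat_lit 0xb651)
  (IL.C (nat_lit 1) (nat_lit 0x2f7ae210) (nat_lit 0xd521) (nat_lit 0x7664)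
  (IL.C (nat_lit 2) (nat_lit 0x566a10cc) (nat_lit 0xd521) (nat_lit 0x8640)
  (IL.C (nat_lit 2) (nat_lit 0x76725b00) (nat_lit 0xd521) (nat_lit 0x6651)
  (IL.C (nat_lit 2) (nat_lit 0xf85736) (nat_lit 0xd521) (nat_lit 0xb631)
  (IL.C (nat_lit 2) (nat_lit 0x19022b22) (nat_lit 0xa422) (nat_lit 0x6653) its1_59))))))))))))))))))))))))))))))))))))))))

noncomputable def its1_57 : IL :=
  (IL.C (nat_lit 2) (nat_lit 0x468ab5fa) (nat_lit 0xa621) (nat_lit 0x8643)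
  (IL.C (nat_lit 2) (nat_lit 0x347f478c) (nat_lit 0xa621) (nat_lit 0xb653)
  (IL.C (nat_lit 0) (nat_lit 0x1e1b35776c8) (nat_lit 0xe620) (nat_lit 0xe620)
  (IL.C (nat_lit 1) (nat_lit 0xa50b1c8) (nat_lit 0xe620) (nat_lit 0xd730)
  (IL.C (nat_lit 1) (nat_lit 0xaf122b2) (nat_lit 0xe620) (nat_lit 0xe621)
  (IL.C (nat_lit 1) (nat_lit 0x1d232e82) (nat_lit 0xe620) (nat_lit 0x8760)
  (IL.C (nat_lit 1) (nat_lit 0xd5af896) (nat_lit 0xe620) (nat_lit 0xd750)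
  (IL.C (nat_lit 2) (nat_lit 0x1177fbae) (nat_lit 0xe620) (nat_lit 0xd731)
  (IL.C (nat_lit 2) (nat_lit 0x14294d18) (nat_lit 0xe620) (nat_lit 0xe640)
  (IL.C (nat_lit 2) (nat_lit 0x112eac2) (nat_lit 0xe620) (nat_lit 0xd772)
  (IL.C (nat_lit 2) (nat_lit 0xf275d6c) (nat_lit 0xe620) (nat_lit 0xe663)
  (IL.C (nat_lit 2) (nat_lit 0x2d85cd34) (nat_lit 0xe620) (nat_lit 0x7766)
  (IL.C (nat_lit 1) (nat_lit 0x4bfa3878) (nat_lit 0x7622) (nat_lit 0x7660)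
  (IL.C (nat_lit 1) (nat_lit 0x2bc40c8c) (nat_lit 0x7622) (nat_lit 0x6653)
  (IL.C (nat_lit 1) (nat_lit 0x55756f8) (nat_lit 0x7622) (nat_lit 0xb633)
  (IL.C (nat_lit 1) (nat_lit 0x4d2fd930) (nat_lit 0x7622) (nat_lit 0xb653)
  (IL.C (nat_lit 2) (nat_lit 0x3e9164e2) (nat_lit 0x7622) (nat_lit 0x6633)
  (IL.C (nat_lit 2) (nat_lit 0x61de7720) (nat_lit 0x7622) (nat_lit 0xd433)
  (IL.C (nat_lit 2) (nat_lit 0x1a3effd2) (nat_lit 0x7622) (nat_lit 0x8643)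
  (IL.C (nat_lit 1) (nat_lit 0x25117e4) (nat_lit 0xd720) (nat_lit 0xc660)
  (IL.C (nat_lit 2) (nat_lit 0x364408b2) (nat_lit 0xd720) (nat_lit 0x7660)
  (IL.C (nat_lit 2) (nat_lit 0x39938488) (nat_lit 0xd720) (nat_lit 0xb760)
  (IL.C (nat_lit 0) (nat_lit 0x5056c8f435c) (nat_lit 0x8631) (nat_lit 0x8631)
  (IL.C (nat_lit 1) (nat_lit 0x24b80204) (nat_lit 0x8631) (nat_lit 0x8650)
  (IL.C (nat_lit 1) (nat_lit 0x32acaef2) (nat_lit 0x8631) (nat_lit 0xb721)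
  (IL.C (nat_lit 1) (nat_lit 0x2c4a198a) (nat_lit 0x8631) (nat_lit 0xd531)
  (IL.C (nat_lit 1) (nat_lit 0x2fcef3aa) (nat_lit 0x8631) (nat_lit 0x9722)
  (IL.C (nat_lit 1) (nat_lit 0xa2afce02) (nat_lit 0x8631) (nat_lit 0x8651)
  (IL.C (nat_lit 1) (nat_lit 0x1f73c0e8) (nat_lit 0x8631) (nat_lit 0xb741)
  (IL.C (nat_lit 1) (nat_lit 0x3db6fc6) (nat_lit 0x8631) (nat_lit 0xd732)
  (IL.C (nat_lit 1) (nat_lit 0x4f74ccac) (nat_lit 0x8631) (nat_lit 0xd743)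
  (IL.C (nat_lit 2) (nat_lit 0x505e9390) (nat_lit 0x8631) (nat_lit 0xc621)
  (IL.C (nat_lit 2) (nat_lit 0xfd7c88a) (nat_lit 0x8631) (nat_lit 0xa632)
  (IL.C (nat_lit 2) (nat_lit 0x2348272e) (nat_lit 0x8631) (nat_lit 0xe622)
  (IL.C (nat_lit 2) (nat_lit 0x5c7df094) (nat_lit 0x8631) (nat_lit 0xc641)
  (IL.C (nat_lit 2) (nat_lit 0xefe8a12) (nat_lit 0x8631) (nat_lit 0x8762)
  (IL.C (nat_lit 2) (nat_lit 0x64da18a6) (nat_lit 0x8631) (nat_lit 0x7663)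
  (IL.C (nat_lit 2) (nat_lit 0x39bf4dd0) (nat_lit 0x8631) (nat_lit 0xe642)
  (IL.C (nat_lit 2) (nat_lit 0x12fa4f74) (nat_lit 0x8631) (nat_lit 0xd752)
  (IL.C (nat_lit 2) (nat_lit 0x4945595a) (nat_lit 0x8631) (nat_lit 0x7665) its1_58))))))))))))))))))))))))))))))))))))))))

noncomputable def its1_56 : IL :=
  (IL.C (nat_lit 2) (nat_lit 0x32358bbe) (nat_lit 0xa440) (nat_lit 0x9744)
  (IL.C (nat_lit 2) (nat_lit 0x22ea97bc) (nat_lit 0xa440) (nat_lit 0xa654)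
  (IL.C (nat_lit 2) (nat_lit 0x31b659e0) (nat_lit 0xa440) (nat_lit 0x9655)
  (IL.C (nat_lit 2) (nat_lit 0xaf93850) (nat_lit 0x6650) (nat_lit 0xb522)
  (IL.C (nat_lit 2) (nat_lit 0x4b21c9e4) (nat_lit 0x6650) (nat_lit 0xb432)
  (IL.C (nat_lit 1) (nat_lit 0x181258856) (nat_lit 0x6532) (nat_lit 0x6433)
  (IL.C (nat_lit 2) (nat_lit 0x3e42b366) (nat_lit 0x6532) (nat_lit 0x8443)
  (IL.C (nat_lit 2) (nat_lit 0x40e70a08) (nat_lit 0x6532) (nat_lit 0xb433)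
  (IL.C (nat_lit 0) (nat_lit 0x89ebf8c5aca) (nat_lit 0xd530) (nat_lit 0xd530)
  (IL.C (nat_lit 1) (nat_lit 0x342e128a) (nat_lit 0xd530) (nat_lit 0xb332)
  (IL.C (nat_lit 1) (nat_lit 0x2399c18) (nat_lit 0xd530) (nat_lit 0xb721)
  (IL.C (nat_lit 1) (nat_lit 0xfe36817c) (nat_lit 0xd530) (nat_lit 0x7641)
  (IL.C (nat_lit 1) (nat_lit 0x1be7cb2a) (nat_lit 0xd530) (nat_lit 0xd531)
  (IL.C (nat_lit 1) (nat_lit 0x2766e15a) (nat_lit 0xd530) (nat_lit 0xb740)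
  (IL.C (nat_lit 1) (nat_lit 0x3d453136) (nat_lit 0xd530) (nat_lit 0x8443)
  (IL.C (nat_lit 1) (nat_lit 0x19e2baac) (nat_lit 0xd530) (nat_lit 0xe622)
  (IL.C (nat_lit 1) (nat_lit 0x19038fae) (nat_lit 0xd530) (nat_lit 0xc442)
  (IL.C (nat_lit 1) (nat_lit 0x1ba80cfc) (nat_lit 0xd530) (nat_lit 0xd732)
  (IL.C (nat_lit 1) (nat_lit 0x1a52f8b6) (nat_lit 0xd530) (nat_lit 0xb552)
  (IL.C (nat_lit 1) (nat_lit 0x15e0d63c) (nat_lit 0xd530) (nat_lit 0xe642)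
  (IL.C (nat_lit 1) (nat_lit 0x151cc272) (nat_lit 0xd530) (nat_lit 0xd752)
  (IL.C (nat_lit 1) (nat_lit 0xefc8690) (nat_lit 0xd530) (nat_lit 0xd743)
  (IL.C (nat_lit 1) (nat_lit 0x897a4916) (nat_lit 0xd530) (nat_lit 0x7665)
  (IL.C (nat_lit 2) (nat_lit 0x6a427a98) (nat_lit 0xd530) (nat_lit 0x9540)
  (IL.C (nat_lit 2) (nat_lit 0x95d3704) (nat_lit 0xd530) (nat_lit 0x8650)
  (IL.C (nat_lit 2) (nat_lit 0x1a50007e) (nat_lit 0xd530) (nat_lit 0xc621)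
  (IL.C (nat_lit 2) (nat_lit 0x48cc8dac) (nat_lit 0xd530) (nat_lit 0xc640)
  (IL.C (nat_lit 2) (nat_lit 0x53996a30) (nat_lit 0xd530) (nat_lit 0x8542)
  (IL.C (nat_lit 2) (nat_lit 0xf7a5a306) (nat_lit 0xd530) (nat_lit 0x7444)
  (IL.C (nat_lit 2) (nat_lit 0xeb29d092) (nat_lit 0xd530) (nat_lit 0x6554)
  (IL.C (nat_lit 2) (nat_lit 0x4e08d672) (nat_lit 0xd530) (nat_lit 0xb543)
  (IL.C (nat_lit 1) (nat_lit 0x2ee4596c) (nat_lit 0xa621) (nat_lit 0x9631)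
  (IL.C (nat_lit 1) (nat_lit 0xf3d7fee) (nat_lit 0xa621) (nat_lit 0x9651)
  (IL.C (nat_lit 1) (nat_lit 0x74a36cc) (nat_lit 0xa621) (nat_lit 0xb633)
  (IL.C (nat_lit 1) (nat_lit 0x50900928) (nat_lit 0xa621) (nat_lit 0xd543)
  (IL.C (nat_lit 2) (nat_lit 0xecbcf06) (nat_lit 0xa621) (nat_lit 0xb431)
  (IL.C (nat_lit 2) (nat_lit 0x128c93c6e) (nat_lit 0xa621) (nat_lit 0x7660)
  (IL.C (nat_lit 2) (nat_lit 0x72a69d30) (nat_lit 0xa621) (nat_lit 0x9650)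
  (IL.C (nat_lit 2) (nat_lit 0x4aee7caa) (nat_lit 0xa621) (nat_lit 0x7661)
  (IL.C (nat_lit 2) (nat_lit 0x1f74946c) (nat_lit 0xa621) (nat_lit 0xd433) its1_57))))))))))))))))))))))))))))))))))))))))

noncomputable def its1_55 : IL :=
  (IL.C (nat_lit 1) (nat_lit 0xc08b6c1c) (nat_lit 0xb521) (nat_lit 0x5444)
  (IL.C (nat_lit 1) (nat_lit 0x4f52ff02) (nat_lit 0xb521) (nat_lit 0xa641)
  (IL.C (nat_lit 1) (nat_lit 0x2db6bf18) (nat_lit 0xb521) (nat_lit 0x9651)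
  (IL.C (nat_lit 1) (nat_lit 0x290a02c6) (nat_lit 0xb521) (nat_lit 0xd433)
  (IL.C (nat_lit 1) (nat_lit 0xd4c89f6) (nat_lit 0xb521) (nat_lit 0xd543)
  (IL.C (nat_lit 1) (nat_lit 0x108664b00) (nat_lit 0xb521) (nat_lit 0x6655)
  (IL.C (nat_lit 1) (nat_lit 0x25c30f6a) (nat_lit 0xb521) (nat_lit 0xc644)
  (IL.C (nat_lit 1) (nat_lit 0x3b5f2fc0) (nat_lit 0xb521) (nat_lit 0xb744)
  (IL.C (nat_lit 2) (nat_lit 0xef58fd0) (nat_lit 0xb521) (nat_lit 0x8441)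
  (IL.C (nat_lit 2) (nat_lit 0x3d97a3b6) (nat_lit 0xb521) (nat_lit 0x9443)
  (IL.C (nat_lit 2) (nat_lit 0x2babad54) (nat_lit 0xb521) (nat_lit 0x6653)
  (IL.C (nat_lit 2) (nat_lit 0x6e381652) (nat_lit 0xb521) (nat_lit 0x7644)
  (IL.C (nat_lit 1) (nat_lit 0x1563b14da) (nat_lit 0x6541) (nat_lit 0x9522)
  (IL.C (nat_lit 2) (nat_lit 0x82dc46b4) (nat_lit 0x6541) (nat_lit 0xd532)
  (IL.C (nat_lit 2) (nat_lit 0x1da793810) (nat_lit 0x6541) (nat_lit 0xd552)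
  (IL.C (nat_lit 0) (nat_lit 0x309d615a4e) (nat_lit 0xd711) (nat_lit 0xd711)
  (IL.C (nat_lit 1) (nat_lit 0x1000628a) (nat_lit 0xd711) (nat_lit 0xe660)
  (IL.C (nat_lit 1) (nat_lit 0x268cb20) (nat_lit 0xd711) (nat_lit 0xa766)
  (IL.C (nat_lit 1) (nat_lit 0x79041f6) (nat_lit 0x9621) (nat_lit 0xd443)
  (IL.C (nat_lit 0) (nat_lit 0xb7151b3ddcc) (nat_lit 0x8522) (nat_lit 0x8522)
  (IL.C (nat_lit 1) (nat_lit 0x38779284) (nat_lit 0x8522) (nat_lit 0x8432)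
  (IL.C (nat_lit 1) (nat_lit 0x61837170) (nat_lit 0x8522) (nat_lit 0xc422)
  (IL.C (nat_lit 1) (nat_lit 0x56540df8) (nat_lit 0x8522) (nat_lit 0xb532)
  (IL.C (nat_lit 1) (nat_lit 0x441c404) (nat_lit 0x8522) (nat_lit 0x8443)
  (IL.C (nat_lit 1) (nat_lit 0xaacf960) (nat_lit 0x8522) (nat_lit 0xb433)
  (IL.C (nat_lit 1) (nat_lit 0x1d49ccce) (nat_lit 0x8522) (nat_lit 0x9633)
  (IL.C (nat_lit 2) (nat_lit 0x5d6f9c06) (nat_lit 0x8522) (nat_lit 0x9722)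
  (IL.C (nat_lit 2) (nat_lit 0x61fdb2ca) (nat_lit 0x8522) (nat_lit 0x8542)
  (IL.C (nat_lit 2) (nat_lit 0x518306b4) (nat_lit 0x8522) (nat_lit 0xa632)
  (IL.C (nat_lit 0) (nat_lit 0x897d764a368) (nat_lit 0xa440) (nat_lit 0xa440)
  (IL.C (nat_lit 1) (nat_lit 0x4c3babe) (nat_lit 0xa440) (nat_lit 0x9540)
  (IL.C (nat_lit 1) (nat_lit 0x3f0ff842) (nat_lit 0xa440) (nat_lit 0xd550)
  (IL.C (nat_lit 1) (nat_lit 0x65b70afe) (nat_lit 0xa440) (nat_lit 0x8443)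
  (IL.C (nat_lit 1) (nat_lit 0x4a5f358) (nat_lit 0xa440) (nat_lit 0xc442)
  (IL.C (nat_lit 1) (nat_lit 0x4e49f03a) (nat_lit 0xa440) (nat_lit 0xb552)
  (IL.C (nat_lit 1) (nat_lit 0x66423bb6) (nat_lit 0xa440) (nat_lit 0xb543)
  (IL.C (nat_lit 2) (nat_lit 0x6d51844c) (nat_lit 0xa440) (nat_lit 0xd530)
  (IL.C (nat_lit 2) (nat_lit 0x153805de) (nat_lit 0xa440) (nat_lit 0xa441)
  (IL.C (nat_lit 2) (nat_lit 0x258cbb74) (nat_lit 0xa440) (nat_lit 0x9541)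
  (IL.C (nat_lit 2) (nat_lit 0x626b73fe) (nat_lit 0xa440) (nat_lit 0x8542) its1_56))))))))))))))))))))))))))))))))))))))))

noncomputable def its1_54 : IL :=
  (IL.C (nat_lit 2) (nat_lit 0x12ba47e) (nat_lit 0x9630) (nat_lit 0xb742)
  (IL.C (nat_lit 0) (nat_lit 0x6bb62b9f6f2) (nat_lit 0xc620) (nat_lit 0xc620)
  (IL.C (nat_lit 1) (nat_lit 0x305c7eb8) (nat_lit 0xc620) (nat_lit 0xd530)
  (IL.C (nat_lit 1) (nat_lit 0x17cbb2da) (nat_lit 0xc620) (nat_lit 0xc621)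
  (IL.C (nat_lit 1) (nat_lit 0xba84b5e) (nat_lit 0xc620) (nat_lit 0xb721)
  (IL.C (nat_lit 1) (nat_lit 0x6422d9a6) (nat_lit 0xc620) (nat_lit 0xb740)
  (IL.C (nat_lit 1) (nat_lit 0x990e41c) (nat_lit 0xc620) (nat_lit 0xe622)
  (IL.C (nat_lit 1) (nat_lit 0x1fb66d08) (nat_lit 0xc620) (nat_lit 0xc663)
  (IL.C (nat_lit 2) (nat_lit 0xb48d798) (nat_lit 0xc620) (nat_lit 0xb720)
  (IL.C (nat_lit 2) (nat_lit 0x2d03a1f4) (nat_lit 0xc620) (nat_lit 0xc640)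
  (IL.C (nat_lit 2) (nat_lit 0x29e2ed62) (nat_lit 0xc620) (nat_lit 0xd732)
  (IL.C (nat_lit 2) (nat_lit 0x1436434e) (nat_lit 0xc620) (nat_lit 0xe642)
  (IL.C (nat_lit 2) (nat_lit 0x38f5442a) (nat_lit 0xc620) (nat_lit 0xd752)
  (IL.C (nat_lit 2) (nat_lit 0xa068e7e) (nat_lit 0xc620) (nat_lit 0xd743)
  (IL.C (nat_lit 2) (nat_lit 0x62c5815c) (nat_lit 0xc620) (nat_lit 0x7665)
  (IL.C (nat_lit 2) (nat_lit 0x10f1d7e6) (nat_lit 0xc620) (nat_lit 0xb763)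
  (IL.C (nat_lit 1) (nat_lit 0x1d9a1cc) (nat_lit 0xb720) (nat_lit 0xd530)
  (IL.C (nat_lit 1) (nat_lit 0xe86e3d5c) (nat_lit 0xb720) (nat_lit 0x7665)
  (IL.C (nat_lit 2) (nat_lit 0x65af7e8) (nat_lit 0xb720) (nat_lit 0xc640)
  (IL.C (nat_lit 2) (nat_lit 0x3704c664) (nat_lit 0xb720) (nat_lit 0xd743)
  (IL.C (nat_lit 2) (nat_lit 0x9816b26) (nat_lit 0xb720) (nat_lit 0xc663)
  (IL.C (nat_lit 2) (nat_lit 0x9ea9f630) (nat_lit 0xd421) (nat_lit 0x6665)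
  (IL.C (nat_lit 0) (nat_lit 0x20101574d426) (nat_lit 0x7640) (nat_lit 0x7640)
  (IL.C (nat_lit 1) (nat_lit 0xeceec1fa) (nat_lit 0x7640) (nat_lit 0x6532)
  (IL.C (nat_lit 1) (nat_lit 0x19fd5d88e) (nat_lit 0x7640) (nat_lit 0xd530)
  (IL.C (nat_lit 1) (nat_lit 0xa970114e) (nat_lit 0x7640) (nat_lit 0x8650)
  (IL.C (nat_lit 1) (nat_lit 0x891f13ce) (nat_lit 0x7640) (nat_lit 0x7442)
  (IL.C (nat_lit 1) (nat_lit 0x67893722) (nat_lit 0x7640) (nat_lit 0x6552)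
  (IL.C (nat_lit 1) (nat_lit 0x74355ee8) (nat_lit 0x7640) (nat_lit 0xc640)
  (IL.C (nat_lit 1) (nat_lit 0x809c56ce) (nat_lit 0x7640) (nat_lit 0x9742)
  (IL.C (nat_lit 1) (nat_lit 0x132e7186c) (nat_lit 0x7640) (nat_lit 0xa652)
  (IL.C (nat_lit 2) (nat_lit 0xce8cc476) (nat_lit 0x7640) (nat_lit 0x7641)
  (IL.C (nat_lit 2) (nat_lit 0x62cfe97c) (nat_lit 0x7640) (nat_lit 0xc422)
  (IL.C (nat_lit 2) (nat_lit 0x375f9c7a) (nat_lit 0x7640) (nat_lit 0xb532)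
  (IL.C (nat_lit 2) (nat_lit 0xbadfc904) (nat_lit 0x7640) (nat_lit 0x7444)
  (IL.C (nat_lit 2) (nat_lit 0x5bb923c6) (nat_lit 0x7640) (nat_lit 0x9653)
  (IL.C (nat_lit 2) (nat_lit 0x56168b6e) (nat_lit 0x7640) (nat_lit 0x7665)
  (IL.C (nat_lit 1) (nat_lit 0x72f8e546) (nat_lit 0xb521) (nat_lit 0x6541)
  (IL.C (nat_lit 1) (nat_lit 0x28fd1ec0) (nat_lit 0xb521) (nat_lit 0xb431)
  (IL.C (nat_lit 1) (nat_lit 0x4e4d4cfc) (nat_lit 0xb521) (nat_lit 0x9631) its1_55))))))))))))))))))))))))))))))))))))))))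

noncomputable def its1_53 : IL :=
  (IL.C (nat_lit 2) (nat_lit 0x62275b5e) (nat_lit 0xc421) (nat_lit 0x6551)
  (IL.C (nat_lit 2) (nat_lit 0x60244898) (nat_lit 0xc421) (nat_lit 0x8541)
  (IL.C (nat_lit 2) (nat_lit 0xac60fd0) (nat_lit 0xc421) (nat_lit 0xb531)
  (IL.C (nat_lit 2) (nat_lit 0x2a6a0a74) (nat_lit 0xc421) (nat_lit 0xa631)
  (IL.C (nat_lit 2) (nat_lit 0x33d064ee) (nat_lit 0xc421) (nat_lit 0xe422)
  (IL.C (nat_lit 2) (nat_lit 0x2833e506) (nat_lit 0xc421) (nat_lit 0xc441)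
  (IL.C (nat_lit 2) (nat_lit 0xbb776b66) (nat_lit 0xc421) (nat_lit 0x9741)
  (IL.C (nat_lit 2) (nat_lit 0x11835402a) (nat_lit 0xc421) (nat_lit 0x5544)
  (IL.C (nat_lit 2) (nat_lit 0x8978d6ae) (nat_lit 0xc421) (nat_lit 0xa651)
  (IL.C (nat_lit 2) (nat_lit 0x8d0fff08) (nat_lit 0xc421) (nat_lit 0xa542)
  (IL.C (nat_lit 2) (nat_lit 0x46dbeec4) (nat_lit 0xc421) (nat_lit 0x9552)
  (IL.C (nat_lit 2) (nat_lit 0x2908a76e) (nat_lit 0xc421) (nat_lit 0xc643)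
  (IL.C (nat_lit 2) (nat_lit 0x53bc9ef6) (nat_lit 0xc421) (nat_lit 0xb743)
  (IL.C (nat_lit 2) (nat_lit 0x2e50a4e4) (nat_lit 0xc421) (nat_lit 0xc654)
  (IL.C (nat_lit 0) (nat_lit 0x1d8bfbb80d2a) (nat_lit 0x7441) (nat_lit 0x7441)
  (IL.C (nat_lit 1) (nat_lit 0x1a3fbea8) (nat_lit 0x7441) (nat_lit 0x6551)
  (IL.C (nat_lit 1) (nat_lit 0x6e736dc6) (nat_lit 0x7441) (nat_lit 0xa522)
  (IL.C (nat_lit 1) (nat_lit 0x132055ca0) (nat_lit 0x7441) (nat_lit 0x5443)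
  (IL.C (nat_lit 1) (nat_lit 0x2a3bfc01c) (nat_lit 0x7441) (nat_lit 0xa432)
  (IL.C (nat_lit 1) (nat_lit 0x1603414c0) (nat_lit 0x7441) (nat_lit 0xe422)
  (IL.C (nat_lit 1) (nat_lit 0x128221052) (nat_lit 0x7441) (nat_lit 0x9532)
  (IL.C (nat_lit 1) (nat_lit 0x9b213740) (nat_lit 0x7441) (nat_lit 0x9433)
  (IL.C (nat_lit 1) (nat_lit 0x281bd202) (nat_lit 0x7441) (nat_lit 0xa651)
  (IL.C (nat_lit 1) (nat_lit 0x1203b6120) (nat_lit 0x7441) (nat_lit 0x7643)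
  (IL.C (nat_lit 1) (nat_lit 0x658dfa08) (nat_lit 0x7441) (nat_lit 0xe442)
  (IL.C (nat_lit 1) (nat_lit 0x26a71d5c) (nat_lit 0x7441) (nat_lit 0xb754)
  (IL.C (nat_lit 2) (nat_lit 0xde1c2e9e) (nat_lit 0x7441) (nat_lit 0x5542)
  (IL.C (nat_lit 2) (nat_lit 0x5aef1932) (nat_lit 0x7441) (nat_lit 0x8541)
  (IL.C (nat_lit 2) (nat_lit 0x1bc04b8e) (nat_lit 0x7441) (nat_lit 0x9741)
  (IL.C (nat_lit 2) (nat_lit 0x1366dfd6) (nat_lit 0x7441) (nat_lit 0x7652)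
  (IL.C (nat_lit 2) (nat_lit 0x268e65dc) (nat_lit 0x7441) (nat_lit 0xd533)
  (IL.C (nat_lit 2) (nat_lit 0xced7d4f0) (nat_lit 0x7441) (nat_lit 0xd553)
  (IL.C (nat_lit 2) (nat_lit 0x4bb23cf4) (nat_lit 0x7441) (nat_lit 0xc654)
  (IL.C (nat_lit 1) (nat_lit 0x90260a4) (nat_lit 0x9630) (nat_lit 0xa422)
  (IL.C (nat_lit 1) (nat_lit 0x3bc64e9e) (nat_lit 0x9630) (nat_lit 0xd532)
  (IL.C (nat_lit 1) (nat_lit 0x1e2e2c80) (nat_lit 0x9630) (nat_lit 0xd433)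
  (IL.C (nat_lit 2) (nat_lit 0x161b0c48) (nat_lit 0x9630) (nat_lit 0xb521)
  (IL.C (nat_lit 2) (nat_lit 0xad169a) (nat_lit 0x9630) (nat_lit 0xb431)
  (IL.C (nat_lit 2) (nat_lit 0x355e5a14) (nat_lit 0x9630) (nat_lit 0xd332)
  (IL.C (nat_lit 2) (nat_lit 0x40b9ad48) (nat_lit 0x9630) (nat_lit 0xb722) its1_54))))))))))))))))))))))))))))))))))))))))

noncomputable def its1_52 : IL :=
  (IL.C (nat_lit 2) (nat_lit 0x13629ec4) (nat_lit 0xb322) (nat_lit 0xd430)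
  (IL.C (nat_lit 0) (nat_lit 0x6a1521c0e9e) (nat_lit 0x8540) (nat_lit 0x8540)
  (IL.C (nat_lit 1) (nat_lit 0x1c767b6dc) (nat_lit 0x8540) (nat_lit 0x7441)
  (IL.C (nat_lit 1) (nat_lit 0x2352cd6c) (nat_lit 0x8540) (nat_lit 0xc440)
  (IL.C (nat_lit 1) (nat_lit 0xa1f7e104) (nat_lit 0x8540) (nat_lit 0x8742)
  (IL.C (nat_lit 1) (nat_lit 0x9a692f1e) (nat_lit 0x8540) (nat_lit 0xc652)
  (IL.C (nat_lit 1) (nat_lit 0x503b0922) (nat_lit 0x8540) (nat_lit 0xb752)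
  (IL.C (nat_lit 1) (nat_lit 0xe6ad86c) (nat_lit 0x8540) (nat_lit 0xc654)
  (IL.C (nat_lit 2) (nat_lit 0xb760ce) (nat_lit 0x8540) (nat_lit 0x8541)
  (IL.C (nat_lit 2) (nat_lit 0x50fd9b2) (nat_lit 0x8540) (nat_lit 0x9740)
  (IL.C (nat_lit 2) (nat_lit 0x282e0472) (nat_lit 0x8540) (nat_lit 0x9741)
  (IL.C (nat_lit 2) (nat_lit 0xf389856) (nat_lit 0x8540) (nat_lit 0x5544)
  (IL.C (nat_lit 2) (nat_lit 0x37e392fe) (nat_lit 0x8540) (nat_lit 0xe442)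
  (IL.C (nat_lit 2) (nat_lit 0x59e3ece6) (nat_lit 0x8540) (nat_lit 0x7654)
  (IL.C (nat_lit 2) (nat_lit 0x344bfb0e) (nat_lit 0x8540) (nat_lit 0xa544)
  (IL.C (nat_lit 2) (nat_lit 0x3ae36d6) (nat_lit 0x8540) (nat_lit 0x8744)
  (IL.C (nat_lit 2) (nat_lit 0x172f47a2) (nat_lit 0x8540) (nat_lit 0xe444)
  (IL.C (nat_lit 1) (nat_lit 0x3177aada) (nat_lit 0xd430) (nat_lit 0xb631)
  (IL.C (nat_lit 1) (nat_lit 0xaff530c) (nat_lit 0xd430) (nat_lit 0xb650)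
  (IL.C (nat_lit 2) (nat_lit 0x83e3c02) (nat_lit 0xd430) (nat_lit 0x6650)
  (IL.C (nat_lit 2) (nat_lit 0x2c6ff2ae) (nat_lit 0xd430) (nat_lit 0xb630)
  (IL.C (nat_lit 2) (nat_lit 0x6f66280a) (nat_lit 0xd430) (nat_lit 0x6651)
  (IL.C (nat_lit 1) (nat_lit 0x1f65a6fa) (nat_lit 0x9431) (nat_lit 0xb532)
  (IL.C (nat_lit 1) (nat_lit 0x60df00e) (nat_lit 0x9431) (nat_lit 0xa652)
  (IL.C (nat_lit 2) (nat_lit 0x946f694) (nat_lit 0x9431) (nat_lit 0xa632)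
  (IL.C (nat_lit 0) (nat_lit 0x102b0d3bc692) (nat_lit 0xc421) (nat_lit 0xc421)
  (IL.C (nat_lit 1) (nat_lit 0xae17d68) (nat_lit 0xc421) (nat_lit 0x7441)
  (IL.C (nat_lit 1) (nat_lit 0x8d227870) (nat_lit 0xc421) (nat_lit 0x9721)
  (IL.C (nat_lit 1) (nat_lit 0x39c5114e) (nat_lit 0xc421) (nat_lit 0xb551)
  (IL.C (nat_lit 1) (nat_lit 0xf0843b5c) (nat_lit 0xc421) (nat_lit 0x7652)
  (IL.C (nat_lit 1) (nat_lit 0x146a621a) (nat_lit 0xc421) (nat_lit 0x7643)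
  (IL.C (nat_lit 1) (nat_lit 0x2372815a) (nat_lit 0xc421) (nat_lit 0xa443)
  (IL.C (nat_lit 1) (nat_lit 0x36e98fd8) (nat_lit 0xc421) (nat_lit 0xd533)
  (IL.C (nat_lit 1) (nat_lit 0x1fae5fac) (nat_lit 0xc421) (nat_lit 0xe442)
  (IL.C (nat_lit 1) (nat_lit 0x2488d5e0) (nat_lit 0xc421) (nat_lit 0x9543)
  (IL.C (nat_lit 1) (nat_lit 0x64152984) (nat_lit 0xc421) (nat_lit 0xc652)
  (IL.C (nat_lit 1) (nat_lit 0x68c0880c) (nat_lit 0xc421) (nat_lit 0xb752)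
  (IL.C (nat_lit 1) (nat_lit 0x1763d65d8) (nat_lit 0xc421) (nat_lit 0x7654)
  (IL.C (nat_lit 1) (nat_lit 0x3cdbd52c) (nat_lit 0xc421) (nat_lit 0xd553)
  (IL.C (nat_lit 1) (nat_lit 0x151ee94) (nat_lit 0xc421) (nat_lit 0xb754) its1_53))))))))))))))))))))))))))))))))))))))))

noncomputable def its1_51 : IL :=
  (IL.C (nat_lit 2) (nat_lit 0x688cb828) (nat_lit 0xb430) (nat_lit 0xd532)
  (IL.C (nat_lit 2) (nat_lit 0x1013ead76) (nat_lit 0xb430) (nat_lit 0x6655)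
  (IL.C (nat_lit 1) (nat_lit 0x1d0448e8) (nat_lit 0x8621) (nat_lit 0xd431)
  (IL.C (nat_lit 0) (nat_lit 0x2fb06138a1c) (nat_lit 0xe222) (nat_lit 0xe222)
  (IL.C (nat_lit 1) (nat_lit 0x229813ac) (nat_lit 0xe222) (nat_lit 0x8722)
  (IL.C (nat_lit 1) (nat_lit 0x279ec80) (nat_lit 0xe222) (nat_lit 0xd333)
  (IL.C (nat_lit 1) (nat_lit 0x27be6a20) (nat_lit 0xe222) (nat_lit 0xc632)
  (IL.C (nat_lit 2) (nat_lit 0x32c70620) (nat_lit 0xe222) (nat_lit 0x7632)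
  (IL.C (nat_lit 2) (nat_lit 0x14cd92a8) (nat_lit 0xe222) (nat_lit 0xe422)
  (IL.C (nat_lit 2) (nat_lit 0x4db1c54) (nat_lit 0xe222) (nat_lit 0x8633)
  (IL.C (nat_lit 2) (nat_lit 0x2adb0cb4) (nat_lit 0xe222) (nat_lit 0xb732)
  (IL.C (nat_lit 2) (nat_lit 0x4c22e1a) (nat_lit 0xe222) (nat_lit 0xd533)
  (IL.C (nat_lit 1) (nat_lit 0x5b01b2da) (nat_lit 0x6631) (nat_lit 0xd521)
  (IL.C (nat_lit 1) (nat_lit 0x60c759ca) (nat_lit 0x6631) (nat_lit 0xb522)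
  (IL.C (nat_lit 2) (nat_lit 0x3b6563d0) (nat_lit 0x6631) (nat_lit 0xb322)
  (IL.C (nat_lit 2) (nat_lit 0x7a54eab4) (nat_lit 0x6631) (nat_lit 0xd431)
  (IL.C (nat_lit 2) (nat_lit 0xab861038) (nat_lit 0x6631) (nat_lit 0xb432)
  (IL.C (nat_lit 2) (nat_lit 0x765c9ea4) (nat_lit 0x6631) (nat_lit 0xd742)
  (IL.C (nat_lit 2) (nat_lit 0x6ae1d2e) (nat_lit 0x6441) (nat_lit 0xd522)
  (IL.C (nat_lit 0) (nat_lit 0xf61c44ea28) (nat_lit 0xc611) (nat_lit 0xc611)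
  (IL.C (nat_lit 2) (nat_lit 0x50cc37e) (nat_lit 0xc611) (nat_lit 0xb711)
  (IL.C (nat_lit 2) (nat_lit 0xd6adea0) (nat_lit 0xc611) (nat_lit 0xe621)
  (IL.C (nat_lit 2) (nat_lit 0x1a7c113e) (nat_lit 0xc611) (nat_lit 0x8760)
  (IL.C (nat_lit 2) (nat_lit 0x13d19d4c) (nat_lit 0xc611) (nat_lit 0xd731)
  (IL.C (nat_lit 2) (nat_lit 0x8d834a0) (nat_lit 0xc611) (nat_lit 0x7766)
  (IL.C (nat_lit 0) (nat_lit 0x388993d35b6) (nat_lit 0xd331) (nat_lit 0xd331)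
  (IL.C (nat_lit 1) (nat_lit 0x25dcb9ea) (nat_lit 0xd331) (nat_lit 0xc621)
  (IL.C (nat_lit 1) (nat_lit 0xa0d5a00) (nat_lit 0xd331) (nat_lit 0xd531)
  (IL.C (nat_lit 1) (nat_lit 0x10ffb022) (nat_lit 0xd331) (nat_lit 0x9722)
  (IL.C (nat_lit 1) (nat_lit 0xa7b15900) (nat_lit 0xd331) (nat_lit 0x7663)
  (IL.C (nat_lit 1) (nat_lit 0x204b54a) (nat_lit 0xd331) (nat_lit 0xe642)
  (IL.C (nat_lit 1) (nat_lit 0x609309e) (nat_lit 0xd331) (nat_lit 0xd752)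
  (IL.C (nat_lit 1) (nat_lit 0x34af6c8) (nat_lit 0xd331) (nat_lit 0xd743)
  (IL.C (nat_lit 2) (nat_lit 0x647e2064) (nat_lit 0xd331) (nat_lit 0x8631)
  (IL.C (nat_lit 2) (nat_lit 0x5d220972) (nat_lit 0xd331) (nat_lit 0xb332)
  (IL.C (nat_lit 2) (nat_lit 0x1d788414) (nat_lit 0xd331) (nat_lit 0xb721)
  (IL.C (nat_lit 2) (nat_lit 0x366c794a) (nat_lit 0xd331) (nat_lit 0xa632)
  (IL.C (nat_lit 2) (nat_lit 0x10b3aad4) (nat_lit 0xd331) (nat_lit 0xe622)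
  (IL.C (nat_lit 2) (nat_lit 0x3bfb640c) (nat_lit 0xd331) (nat_lit 0x9633)
  (IL.C (nat_lit 2) (nat_lit 0x8227f76) (nat_lit 0xd331) (nat_lit 0xd732) its1_52))))))))))))))))))))))))))))))))))))))))

noncomputable def its1_50 : IL :=
  (IL.C (nat_lit 2) (nat_lit 0x2461679c) (nat_lit 0x9720) (nat_lit 0xa522)
  (IL.C (nat_lit 2) (nat_lit 0x4bba2392) (nat_lit 0x9720) (nat_lit 0x7632)
  (IL.C (nat_lit 2) (nat_lit 0x2157392e) (nat_lit 0x9720) (nat_lit 0xa432)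
  (IL.C (nat_lit 2) (nat_lit 0x16739b8c) (nat_lit 0x9720) (nat_lit 0x9740)
  (IL.C (nat_lit 2) (nat_lit 0x66794d74) (nat_lit 0x9720) (nat_lit 0x9532)
  (IL.C (nat_lit 2) (nat_lit 0x20bf19b4) (nat_lit 0x9720) (nat_lit 0xd333)
  (IL.C (nat_lit 2) (nat_lit 0x71fe6516) (nat_lit 0x9720) (nat_lit 0xc632)
  (IL.C (nat_lit 2) (nat_lit 0x366a493e) (nat_lit 0x9720) (nat_lit 0xb732)
  (IL.C (nat_lit 2) (nat_lit 0x4463e6e4) (nat_lit 0x9720) (nat_lit 0xc652)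
  (IL.C (nat_lit 2) (nat_lit 0x34498294) (nat_lit 0x9720) (nat_lit 0xb752)
  (IL.C (nat_lit 2) (nat_lit 0xff8eb78) (nat_lit 0x9720) (nat_lit 0x9763)
  (IL.C (nat_lit 1) (nat_lit 0x1c2d46ca) (nat_lit 0x8440) (nat_lit 0x9650)
  (IL.C (nat_lit 1) (nat_lit 0xd233f60) (nat_lit 0x8440) (nat_lit 0xd552)
  (IL.C (nat_lit 1) (nat_lit 0xd86090e) (nat_lit 0x8440) (nat_lit 0xb655)
  (IL.C (nat_lit 2) (nat_lit 0x1050e97e) (nat_lit 0x8440) (nat_lit 0x9651)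
  (IL.C (nat_lit 2) (nat_lit 0x477682f6) (nat_lit 0x8440) (nat_lit 0x8652)
  (IL.C (nat_lit 2) (nat_lit 0x614293e) (nat_lit 0x8440) (nat_lit 0x6655)
  (IL.C (nat_lit 2) (nat_lit 0x5e629406) (nat_lit 0x8440) (nat_lit 0xb653)
  (IL.C (nat_lit 1) (nat_lit 0x45d417a0) (nat_lit 0xd520) (nat_lit 0x9440)
  (IL.C (nat_lit 1) (nat_lit 0x19812c566) (nat_lit 0xd520) (nat_lit 0x6650)
  (IL.C (nat_lit 1) (nat_lit 0x4f1cc010) (nat_lit 0xd520) (nat_lit 0xb630)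
  (IL.C (nat_lit 1) (nat_lit 0x14e6b72e) (nat_lit 0xd520) (nat_lit 0xd431)
  (IL.C (nat_lit 1) (nat_lit 0x6e8de1c6) (nat_lit 0xd520) (nat_lit 0xb631)
  (IL.C (nat_lit 1) (nat_lit 0x41013f66) (nat_lit 0xd520) (nat_lit 0xb650)
  (IL.C (nat_lit 1) (nat_lit 0xc5468078) (nat_lit 0xd520) (nat_lit 0x6544)
  (IL.C (nat_lit 1) (nat_lit 0x926b63a4) (nat_lit 0xd520) (nat_lit 0x7664)
  (IL.C (nat_lit 2) (nat_lit 0x10bbc0ee) (nat_lit 0xd520) (nat_lit 0xd430)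
  (IL.C (nat_lit 2) (nat_lit 0x1154c948) (nat_lit 0xd520) (nat_lit 0x8640)
  (IL.C (nat_lit 2) (nat_lit 0x6ecf757e) (nat_lit 0xd520) (nat_lit 0x6651)
  (IL.C (nat_lit 2) (nat_lit 0x1b1a1956) (nat_lit 0xd520) (nat_lit 0xb443)
  (IL.C (nat_lit 2) (nat_lit 0x160dba1e) (nat_lit 0xd520) (nat_lit 0xd633)
  (IL.C (nat_lit 1) (nat_lit 0x82ac708) (nat_lit 0x9521) (nat_lit 0x9431)
  (IL.C (nat_lit 1) (nat_lit 0x35fd03a8) (nat_lit 0x9521) (nat_lit 0xb433)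
  (IL.C (nat_lit 1) (nat_lit 0x64d98a) (nat_lit 0x9521) (nat_lit 0x9633)
  (IL.C (nat_lit 1) (nat_lit 0xb1e3db56) (nat_lit 0x9521) (nat_lit 0x7444)
  (IL.C (nat_lit 1) (nat_lit 0x9dd32fda) (nat_lit 0x9521) (nat_lit 0x6554)
  (IL.C (nat_lit 2) (nat_lit 0x26206998) (nat_lit 0x9521) (nat_lit 0x7640)
  (IL.C (nat_lit 2) (nat_lit 0xd8cd832) (nat_lit 0x9521) (nat_lit 0xa643)
  (IL.C (nat_lit 1) (nat_lit 0xb63cabc) (nat_lit 0xb430) (nat_lit 0x9630)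
  (IL.C (nat_lit 1) (nat_lit 0xd912e64) (nat_lit 0xb430) (nat_lit 0xc622) its1_51))))))))))))))))))))))))))))))))))))))))

noncomputable def its1_49 : IL :=
  (IL.C (nat_lit 1) (nat_lit 0x3204f588) (nat_lit 0x8630) (nat_lit 0xc621)
  (IL.C (nat_lit 1) (nat_lit 0x464450e4) (nat_lit 0x8630) (nat_lit 0xb721)
  (IL.C (nat_lit 1) (nat_lit 0x5d4a1d40) (nat_lit 0x8630) (nat_lit 0xd531)
  (IL.C (nat_lit 1) (nat_lit 0xc8e1a7a) (nat_lit 0x8630) (nat_lit 0x9722)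
  (IL.C (nat_lit 1) (nat_lit 0x7b5aff84) (nat_lit 0x8630) (nat_lit 0xc640)
  (IL.C (nat_lit 1) (nat_lit 0x11783ea2) (nat_lit 0x8630) (nat_lit 0xb740)
  (IL.C (nat_lit 1) (nat_lit 0x642bb30c) (nat_lit 0x8630) (nat_lit 0x8542)
  (IL.C (nat_lit 1) (nat_lit 0x6cc1d774) (nat_lit 0x8630) (nat_lit 0xd732)
  (IL.C (nat_lit 1) (nat_lit 0x2a4f5bd2) (nat_lit 0x8630) (nat_lit 0x8762)
  (IL.C (nat_lit 1) (nat_lit 0x17a4fa9e) (nat_lit 0x8630) (nat_lit 0xe642)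
  (IL.C (nat_lit 1) (nat_lit 0x4ca41894) (nat_lit 0x8630) (nat_lit 0xd752)
  (IL.C (nat_lit 2) (nat_lit 0x1e32777c) (nat_lit 0x8630) (nat_lit 0xc620)
  (IL.C (nat_lit 2) (nat_lit 0x6558a5a) (nat_lit 0x8630) (nat_lit 0xb720)
  (IL.C (nat_lit 2) (nat_lit 0x5f2d73b6) (nat_lit 0x8630) (nat_lit 0x8522)
  (IL.C (nat_lit 2) (nat_lit 0x8abe08b0) (nat_lit 0x8630) (nat_lit 0xd530)
  (IL.C (nat_lit 2) (nat_lit 0x4d11c8d0) (nat_lit 0x8630) (nat_lit 0x8631)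
  (IL.C (nat_lit 2) (nat_lit 0x1b28dc8) (nat_lit 0x8630) (nat_lit 0x8650)
  (IL.C (nat_lit 2) (nat_lit 0xdd34d51c) (nat_lit 0x8630) (nat_lit 0x7641)
  (IL.C (nat_lit 2) (nat_lit 0x5170b970) (nat_lit 0x8630) (nat_lit 0xa632)
  (IL.C (nat_lit 2) (nat_lit 0x1af20254) (nat_lit 0x8630) (nat_lit 0xe622)
  (IL.C (nat_lit 2) (nat_lit 0xb4fa0e98) (nat_lit 0x8630) (nat_lit 0x9742)
  (IL.C (nat_lit 2) (nat_lit 0x31242f86) (nat_lit 0x8630) (nat_lit 0xa652)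
  (IL.C (nat_lit 2) (nat_lit 0x76e1c042) (nat_lit 0x8630) (nat_lit 0xa643)
  (IL.C (nat_lit 2) (nat_lit 0x5e6cd1a4) (nat_lit 0x8630) (nat_lit 0xd743)
  (IL.C (nat_lit 2) (nat_lit 0x6ac014) (nat_lit 0x8630) (nat_lit 0x7665)
  (IL.C (nat_lit 2) (nat_lit 0x21d0bb8e) (nat_lit 0x8630) (nat_lit 0xc663)
  (IL.C (nat_lit 0) (nat_lit 0xcc7b571b2b8) (nat_lit 0x9720) (nat_lit 0x9720)
  (IL.C (nat_lit 1) (nat_lit 0x5b51e8d0) (nat_lit 0x9720) (nat_lit 0xa630)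
  (IL.C (nat_lit 1) (nat_lit 0x295b634) (nat_lit 0x9720) (nat_lit 0x9721)
  (IL.C (nat_lit 1) (nat_lit 0x392bc392) (nat_lit 0x9720) (nat_lit 0xb531)
  (IL.C (nat_lit 1) (nat_lit 0x18e1e850) (nat_lit 0x9720) (nat_lit 0xa631)
  (IL.C (nat_lit 1) (nat_lit 0x35fe4322) (nat_lit 0x9720) (nat_lit 0xe422)
  (IL.C (nat_lit 1) (nat_lit 0x545580ea) (nat_lit 0x9720) (nat_lit 0xa650)
  (IL.C (nat_lit 1) (nat_lit 0x856e2de) (nat_lit 0x9720) (nat_lit 0x9433)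
  (IL.C (nat_lit 1) (nat_lit 0x17070174) (nat_lit 0x9720) (nat_lit 0xd533)
  (IL.C (nat_lit 1) (nat_lit 0x3241d510) (nat_lit 0x9720) (nat_lit 0xa762)
  (IL.C (nat_lit 1) (nat_lit 0x9922f36a) (nat_lit 0x9720) (nat_lit 0xc643)
  (IL.C (nat_lit 1) (nat_lit 0x404da2b0) (nat_lit 0x9720) (nat_lit 0xb743)
  (IL.C (nat_lit 2) (nat_lit 0x2edb6b4a) (nat_lit 0x9720) (nat_lit 0xe222)
  (IL.C (nat_lit 2) (nat_lit 0x1c9bac2e) (nat_lit 0x9720) (nat_lit 0xc421) its1_50))))))))))))))))))))))))))))))))))))))))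

noncomputable def its1_48 : IL :=
  (IL.C (nat_lit 1) (nat_lit 0x1a51de0c6) (nat_lit 0x7422) (nat_lit 0xc422)
  (IL.C (nat_lit 1) (nat_lit 0xd1448af8) (nat_lit 0x7422) (nat_lit 0x7442)
  (IL.C (nat_lit 1) (nat_lit 0x11fd1f424) (nat_lit 0x7422) (nat_lit 0xb433)
  (IL.C (nat_lit 2) (nat_lit 0x145fc1b80) (nat_lit 0x7422) (nat_lit 0x7640)
  (IL.C (nat_lit 2) (nat_lit 0x3c993afe) (nat_lit 0x7422) (nat_lit 0x6532)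
  (IL.C (nat_lit 2) (nat_lit 0x2d051996) (nat_lit 0x7422) (nat_lit 0x6552)
  (IL.C (nat_lit 2) (nat_lit 0x56540a84) (nat_lit 0x7422) (nat_lit 0x8542)
  (IL.C (nat_lit 2) (nat_lit 0x85ade71c) (nat_lit 0x7422) (nat_lit 0xb532)
  (IL.C (nat_lit 2) (nat_lit 0x134dc509c) (nat_lit 0x7422) (nat_lit 0x6543)
  (IL.C (nat_lit 2) (nat_lit 0x83952744) (nat_lit 0x7422) (nat_lit 0x8443)
  (IL.C (nat_lit 1) (nat_lit 0x417aaf44) (nat_lit 0xa620) (nat_lit 0x9630)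
  (IL.C (nat_lit 1) (nat_lit 0x340ea79c) (nat_lit 0xa620) (nat_lit 0x9631)
  (IL.C (nat_lit 1) (nat_lit 0x139e1e42) (nat_lit 0xa620) (nat_lit 0x6633)
  (IL.C (nat_lit 1) (nat_lit 0x62a3f2ca) (nat_lit 0xa620) (nat_lit 0xb633)
  (IL.C (nat_lit 1) (nat_lit 0x1225d3e0) (nat_lit 0xa620) (nat_lit 0xb653)
  (IL.C (nat_lit 2) (nat_lit 0x8fd0edf2) (nat_lit 0xa620) (nat_lit 0xb430)
  (IL.C (nat_lit 2) (nat_lit 0x4f983b0a) (nat_lit 0xa620) (nat_lit 0xb431)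
  (IL.C (nat_lit 2) (nat_lit 0xcdb4f496) (nat_lit 0xa620) (nat_lit 0x7660)
  (IL.C (nat_lit 2) (nat_lit 0x6dce4312) (nat_lit 0xa620) (nat_lit 0x9650)
  (IL.C (nat_lit 2) (nat_lit 0x2c670c0a) (nat_lit 0xa620) (nat_lit 0xd433)
  (IL.C (nat_lit 2) (nat_lit 0x3a361a7c) (nat_lit 0xd222) (nat_lit 0x6660)
  (IL.C (nat_lit 0) (nat_lit 0xdacd5b2df8c) (nat_lit 0xa322) (nat_lit 0xa322)
  (IL.C (nat_lit 1) (nat_lit 0x44817996) (nat_lit 0xa322) (nat_lit 0x9720)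
  (IL.C (nat_lit 1) (nat_lit 0x377a0bde) (nat_lit 0xa322) (nat_lit 0xb531)
  (IL.C (nat_lit 1) (nat_lit 0x22956f4e) (nat_lit 0xa322) (nat_lit 0xa631)
  (IL.C (nat_lit 1) (nat_lit 0x8c925206) (nat_lit 0xa322) (nat_lit 0xe422)
  (IL.C (nat_lit 1) (nat_lit 0x35d51c2c) (nat_lit 0xa322) (nat_lit 0xd533)
  (IL.C (nat_lit 1) (nat_lit 0x9d8f36d6) (nat_lit 0xa322) (nat_lit 0xb752)
  (IL.C (nat_lit 2) (nat_lit 0x2b3f0f40) (nat_lit 0xa322) (nat_lit 0xe222)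
  (IL.C (nat_lit 2) (nat_lit 0x3c5fcfc4) (nat_lit 0xa322) (nat_lit 0xc421)
  (IL.C (nat_lit 2) (nat_lit 0x1e856db0) (nat_lit 0xa322) (nat_lit 0x9332)
  (IL.C (nat_lit 2) (nat_lit 0x61db2d4) (nat_lit 0xa322) (nat_lit 0xa630)
  (IL.C (nat_lit 2) (nat_lit 0x54b2b542) (nat_lit 0xa322) (nat_lit 0x9721)
  (IL.C (nat_lit 2) (nat_lit 0x494dc250) (nat_lit 0xa322) (nat_lit 0xa522)
  (IL.C (nat_lit 2) (nat_lit 0x1b322fbe) (nat_lit 0xa322) (nat_lit 0x7632)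
  (IL.C (nat_lit 2) (nat_lit 0xcefa8de) (nat_lit 0xa322) (nat_lit 0x9532)
  (IL.C (nat_lit 2) (nat_lit 0x17bfd7bc) (nat_lit 0xa322) (nat_lit 0xd333)
  (IL.C (nat_lit 2) (nat_lit 0x28affaa) (nat_lit 0xa322) (nat_lit 0x9433)
  (IL.C (nat_lit 0) (nat_lit 0x66adf65fa3a) (nat_lit 0x8630) (nat_lit 0x8630)
  (IL.C (nat_lit 1) (nat_lit 0x66cd94f2) (nat_lit 0x8630) (nat_lit 0x7640) its1_49))))))))))))))))))))))))))))))))))))))))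

noncomputable def its1_47 : IL :=
  (IL.C (nat_lit 1) (nat_lit 0xf902f7a) (nat_lit 0xd511) (nat_lit 0x8441)
  (IL.C (nat_lit 1) (nat_lit 0x1a787e) (nat_lit 0xd511) (nat_lit 0xb761)
  (IL.C (nat_lit 2) (nat_lit 0x209f446e) (nat_lit 0xd511) (nat_lit 0xd721)
  (IL.C (nat_lit 2) (nat_lit 0x37993976) (nat_lit 0xd511) (nat_lit 0x7661)
  (IL.C (nat_lit 2) (nat_lit 0x81e29fa) (nat_lit 0xd511) (nat_lit 0xd741)
  (IL.C (nat_lit 2) (nat_lit 0x1a58904) (nat_lit 0xd511) (nat_lit 0xc661)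
  (IL.C (nat_lit 1) (nat_lit 0x8598341a) (nat_lit 0x9322) (nat_lit 0xb430)
  (IL.C (nat_lit 1) (nat_lit 0x630fb918) (nat_lit 0x9322) (nat_lit 0xb431)
  (IL.C (nat_lit 1) (nat_lit 0x1db944da) (nat_lit 0x9322) (nat_lit 0xd433)
  (IL.C (nat_lit 2) (nat_lit 0x43f10da0) (nat_lit 0x9322) (nat_lit 0x6633)
  (IL.C (nat_lit 0) (nat_lit 0x18396c2fbcb6) (nat_lit 0xa421) (nat_lit 0xa421)
  (IL.C (nat_lit 1) (nat_lit 0x65de37fe) (nat_lit 0xa421) (nat_lit 0x9521)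
  (IL.C (nat_lit 1) (nat_lit 0x80eac08) (nat_lit 0xa421) (nat_lit 0x9431)
  (IL.C (nat_lit 1) (nat_lit 0xe081e48) (nat_lit 0xa421) (nat_lit 0xc422)
  (IL.C (nat_lit 1) (nat_lit 0x8415d0e) (nat_lit 0xa421) (nat_lit 0xb433)
  (IL.C (nat_lit 1) (nat_lit 0x7091b6f6) (nat_lit 0xa421) (nat_lit 0x9742)
  (IL.C (nat_lit 1) (nat_lit 0xfcd631fe) (nat_lit 0xa421) (nat_lit 0x6554)
  (IL.C (nat_lit 1) (nat_lit 0x7918b8e0) (nat_lit 0xa421) (nat_lit 0xa652)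
  (IL.C (nat_lit 1) (nat_lit 0x32d4578a) (nat_lit 0xa421) (nat_lit 0xa643)
  (IL.C (nat_lit 1) (nat_lit 0x21acb60c) (nat_lit 0xa421) (nat_lit 0x9653)
  (IL.C (nat_lit 2) (nat_lit 0x121ffd296) (nat_lit 0xa421) (nat_lit 0x7640)
  (IL.C (nat_lit 2) (nat_lit 0x6081b496) (nat_lit 0xa421) (nat_lit 0x9722)
  (IL.C (nat_lit 2) (nat_lit 0x33f6c150) (nat_lit 0xa421) (nat_lit 0xb532)
  (IL.C (nat_lit 2) (nat_lit 0x3861ca8) (nat_lit 0xa421) (nat_lit 0xa632)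
  (IL.C (nat_lit 2) (nat_lit 0x2e40bbc0) (nat_lit 0xa421) (nat_lit 0x9633)
  (IL.C (nat_lit 2) (nat_lit 0xf4691c2) (nat_lit 0xa421) (nat_lit 0x7444)
  (IL.C (nat_lit 0) (nat_lit 0x9f7a2ef8736) (nat_lit 0xc222) (nat_lit 0xc222)
  (IL.C (nat_lit 1) (nat_lit 0x12661fe2) (nat_lit 0xc222) (nat_lit 0xb532)
  (IL.C (nat_lit 1) (nat_lit 0x2261f28) (nat_lit 0xc222) (nat_lit 0xb433)
  (IL.C (nat_lit 1) (nat_lit 0x489936e) (nat_lit 0xc222) (nat_lit 0x9633)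
  (IL.C (nat_lit 2) (nat_lit 0x1d506184) (nat_lit 0xc222) (nat_lit 0xd331)
  (IL.C (nat_lit 2) (nat_lit 0x376c9e4e) (nat_lit 0xc222) (nat_lit 0x8522)
  (IL.C (nat_lit 2) (nat_lit 0x1cc8da56) (nat_lit 0xc222) (nat_lit 0xd530)
  (IL.C (nat_lit 2) (nat_lit 0x598cf6ec) (nat_lit 0xc222) (nat_lit 0x8432)
  (IL.C (nat_lit 2) (nat_lit 0x20ffeafa) (nat_lit 0xc222) (nat_lit 0xb332)
  (IL.C (nat_lit 2) (nat_lit 0x15679b16) (nat_lit 0xc222) (nat_lit 0xc422)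
  (IL.C (nat_lit 2) (nat_lit 0x96a1042) (nat_lit 0xc222) (nat_lit 0x9722)
  (IL.C (nat_lit 2) (nat_lit 0x199a0784) (nat_lit 0xc222) (nat_lit 0xa632)
  (IL.C (nat_lit 0) (nat_lit 0x7a0627b75910) (nat_lit 0x7422) (nat_lit 0x7422)
  (IL.C (nat_lit 1) (nat_lit 0xb9f3532e) (nat_lit 0x7422) (nat_lit 0x6433) its1_48))))))))))))))))))))))))))))))))))))))))

noncomputable def its1_46 : IL :=
  (IL.C (nat_lit 1) (nat_lit 0x5de989c4) (nat_lit 0x7621) (nat_lit 0x7640)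
  (IL.C (nat_lit 1) (nat_lit 0xaa99708) (nat_lit 0x7621) (nat_lit 0x8631)
  (IL.C (nat_lit 1) (nat_lit 0x2edc2174) (nat_lit 0x7621) (nat_lit 0xc621)
  (IL.C (nat_lit 1) (nat_lit 0x5ecc679c) (nat_lit 0x7621) (nat_lit 0x7641)
  (IL.C (nat_lit 1) (nat_lit 0x1ee5a61ac) (nat_lit 0x7621) (nat_lit 0xc422)
  (IL.C (nat_lit 1) (nat_lit 0x13682c57e) (nat_lit 0x7621) (nat_lit 0x9722)
  (IL.C (nat_lit 1) (nat_lit 0x79880972) (nat_lit 0x7621) (nat_lit 0x7663)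
  (IL.C (nat_lit 1) (nat_lit 0x6025a86) (nat_lit 0x7621) (nat_lit 0xa643)
  (IL.C (nat_lit 1) (nat_lit 0xd626962) (nat_lit 0x7621) (nat_lit 0x9653)
  (IL.C (nat_lit 1) (nat_lit 0x52775038) (nat_lit 0x7621) (nat_lit 0xd743)
  (IL.C (nat_lit 1) (nat_lit 0x23f39256) (nat_lit 0x7621) (nat_lit 0x7665)
  (IL.C (nat_lit 2) (nat_lit 0x9d670d70) (nat_lit 0x7621) (nat_lit 0x8630)
  (IL.C (nat_lit 2) (nat_lit 0x4d179380) (nat_lit 0x7621) (nat_lit 0xd331)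
  (IL.C (nat_lit 2) (nat_lit 0xe39651ca) (nat_lit 0x7621) (nat_lit 0x9431)
  (IL.C (nat_lit 2) (nat_lit 0x550269c0) (nat_lit 0x7621) (nat_lit 0xd531)
  (IL.C (nat_lit 2) (nat_lit 0x184df3590) (nat_lit 0x7621) (nat_lit 0xb433)
  (IL.C (nat_lit 2) (nat_lit 0xd6300ca6) (nat_lit 0x7621) (nat_lit 0x9633)
  (IL.C (nat_lit 2) (nat_lit 0x4b5592e0) (nat_lit 0x7621) (nat_lit 0x9742)
  (IL.C (nat_lit 2) (nat_lit 0xa0557ea6) (nat_lit 0x7621) (nat_lit 0xe642)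
  (IL.C (nat_lit 1) (nat_lit 0x2bff6c4a) (nat_lit 0x6540) (nat_lit 0x9522)
  (IL.C (nat_lit 1) (nat_lit 0x9b9bdbde) (nat_lit 0x6540) (nat_lit 0xd532)
  (IL.C (nat_lit 0) (nat_lit 0x120947f0d6e) (nat_lit 0xd710) (nat_lit 0xd710)
  (IL.C (nat_lit 1) (nat_lit 0x5021852) (nat_lit 0xd710) (nat_lit 0xd551)
  (IL.C (nat_lit 1) (nat_lit 0xde6df52) (nat_lit 0xd710) (nat_lit 0xe660)
  (IL.C (nat_lit 1) (nat_lit 0x178cd6e0) (nat_lit 0xd710) (nat_lit 0x9761)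
  (IL.C (nat_lit 1) (nat_lit 0x421a2e14) (nat_lit 0xd710) (nat_lit 0x8762)
  (IL.C (nat_lit 1) (nat_lit 0x643663bc) (nat_lit 0xd710) (nat_lit 0x8764)
  (IL.C (nat_lit 1) (nat_lit 0x4c234c8) (nat_lit 0xd710) (nat_lit 0xc663)
  (IL.C (nat_lit 1) (nat_lit 0x12cea700) (nat_lit 0xd710) (nat_lit 0xb765)
  (IL.C (nat_lit 1) (nat_lit 0x1afa4a6) (nat_lit 0xd710) (nat_lit 0xa766)
  (IL.C (nat_lit 1) (nat_lit 0x13996bc) (nat_lit 0xd710) (nat_lit 0xd776)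
  (IL.C (nat_lit 2) (nat_lit 0xb8d2b5e) (nat_lit 0xd710) (nat_lit 0xd711)
  (IL.C (nat_lit 2) (nat_lit 0x654f7b6) (nat_lit 0xd710) (nat_lit 0x8651)
  (IL.C (nat_lit 2) (nat_lit 0x13d1af50) (nat_lit 0xd710) (nat_lit 0x9760)
  (IL.C (nat_lit 2) (nat_lit 0x2c55d6f2) (nat_lit 0xd710) (nat_lit 0xb763)
  (IL.C (nat_lit 2) (nat_lit 0x3b83d9a) (nat_lit 0xd710) (nat_lit 0xe644)
  (IL.C (nat_lit 2) (nat_lit 0x22c390c8) (nat_lit 0xd710) (nat_lit 0xd754)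
  (IL.C (nat_lit 2) (nat_lit 0x2fef5e98) (nat_lit 0xd710) (nat_lit 0xc665)
  (IL.C (nat_lit 2) (nat_lit 0x50dcc8d8) (nat_lit 0x5432) (nat_lit 0xe422)
  (IL.C (nat_lit 0) (nat_lit 0xd40f84f4c6) (nat_lit 0xd511) (nat_lit 0xd511) its1_47))))))))))))))))))))))))))))))))))))))))

noncomputable def its1_45 : IL :=
  (IL.C (nat_lit 2) (nat_lit 0x5d00d22e) (nat_lit 0x5441) (nat_lit 0xc422)
  (IL.C (nat_lit 2) (nat_lit 0x20183dcbe) (nat_lit 0x5441) (nat_lit 0xb532)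
  (IL.C (nat_lit 2) (nat_lit 0xd48ec926) (nat_lit 0x5441) (nat_lit 0xd551)
  (IL.C (nat_lit 2) (nat_lit 0x6f3a6984) (nat_lit 0xd420) (nat_lit 0x6665)
  (IL.C (nat_lit 0) (nat_lit 0x171b1837e54) (nat_lit 0xa611) (nat_lit 0xa611)
  (IL.C (nat_lit 1) (nat_lit 0x172ac4b4) (nat_lit 0xa611) (nat_lit 0xd710)
  (IL.C (nat_lit 1) (nat_lit 0x2265e990) (nat_lit 0xa611) (nat_lit 0x8631)
  (IL.C (nat_lit 1) (nat_lit 0x3a15149e) (nat_lit 0xa611) (nat_lit 0xc621)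
  (IL.C (nat_lit 1) (nat_lit 0x30b08930) (nat_lit 0xa611) (nat_lit 0x9760)
  (IL.C (nat_lit 1) (nat_lit 0x10f309aa) (nat_lit 0xa611) (nat_lit 0xd551)
  (IL.C (nat_lit 1) (nat_lit 0x1aa0d95a) (nat_lit 0xa611) (nat_lit 0xc663)
  (IL.C (nat_lit 1) (nat_lit 0x12894dd0) (nat_lit 0xa611) (nat_lit 0xb763)
  (IL.C (nat_lit 1) (nat_lit 0x8030130) (nat_lit 0xa611) (nat_lit 0xb765)
  (IL.C (nat_lit 2) (nat_lit 0x1529a602) (nat_lit 0xa611) (nat_lit 0xb721)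
  (IL.C (nat_lit 2) (nat_lit 0x1fee6e36) (nat_lit 0xa611) (nat_lit 0x8651)
  (IL.C (nat_lit 2) (nat_lit 0xb404524) (nat_lit 0xa611) (nat_lit 0xc641)
  (IL.C (nat_lit 2) (nat_lit 0x16121f12) (nat_lit 0xa611) (nat_lit 0xb741)
  (IL.C (nat_lit 2) (nat_lit 0x32f58c4) (nat_lit 0xa611) (nat_lit 0x9761)
  (IL.C (nat_lit 2) (nat_lit 0x1041be80) (nat_lit 0xa611) (nat_lit 0x8762)
  (IL.C (nat_lit 2) (nat_lit 0x166bb5c0) (nat_lit 0xa611) (nat_lit 0x8764)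
  (IL.C (nat_lit 2) (nat_lit 0xa36f810) (nat_lit 0xa611) (nat_lit 0xe644)
  (IL.C (nat_lit 2) (nat_lit 0x178834a) (nat_lit 0xa611) (nat_lit 0xd754)
  (IL.C (nat_lit 2) (nat_lit 0xe77b054) (nat_lit 0xa611) (nat_lit 0xc665)
  (IL.C (nat_lit 1) (nat_lit 0xf436da1a) (nat_lit 0x9421) (nat_lit 0x6631)
  (IL.C (nat_lit 1) (nat_lit 0xa61dcf58) (nat_lit 0x9421) (nat_lit 0x6650)
  (IL.C (nat_lit 1) (nat_lit 0x37a0647c) (nat_lit 0xb520) (nat_lit 0xb430)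
  (IL.C (nat_lit 1) (nat_lit 0x6310f196) (nat_lit 0xb520) (nat_lit 0x6541)
  (IL.C (nat_lit 1) (nat_lit 0x3e4a97f8) (nat_lit 0xb520) (nat_lit 0xd433)
  (IL.C (nat_lit 1) (nat_lit 0x420dff4) (nat_lit 0xb520) (nat_lit 0x9443)
  (IL.C (nat_lit 1) (nat_lit 0x2f7cb484) (nat_lit 0xb520) (nat_lit 0xb633)
  (IL.C (nat_lit 1) (nat_lit 0x1ba3dea2) (nat_lit 0xb520) (nat_lit 0x7644)
  (IL.C (nat_lit 2) (nat_lit 0xa9e46f9a) (nat_lit 0xb520) (nat_lit 0x6540)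
  (IL.C (nat_lit 2) (nat_lit 0xd775806) (nat_lit 0xb520) (nat_lit 0x8440)
  (IL.C (nat_lit 2) (nat_lit 0x5c04e448) (nat_lit 0xb520) (nat_lit 0x9630)
  (IL.C (nat_lit 2) (nat_lit 0x2e79b3ce) (nat_lit 0xb520) (nat_lit 0xb431)
  (IL.C (nat_lit 2) (nat_lit 0x68c96550) (nat_lit 0xb520) (nat_lit 0x5444)
  (IL.C (nat_lit 2) (nat_lit 0x1c1feb50) (nat_lit 0xb520) (nat_lit 0x6655)
  (IL.C (nat_lit 0) (nat_lit 0x172fa2e1b4cc) (nat_lit 0x7621) (nat_lit 0x7621)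
  (IL.C (nat_lit 1) (nat_lit 0x23ff1043e) (nat_lit 0x7621) (nat_lit 0xa421)
  (IL.C (nat_lit 1) (nat_lit 0xbcb3d542) (nat_lit 0x7621) (nat_lit 0xc222) its1_46))))))))))))))))))))))))))))))))))))))))

noncomputable def its1_44 : IL :=
  (IL.C (nat_lit 1) (nat_lit 0x4d0f4a4e) (nat_lit 0xc420) (nat_lit 0x9543)
  (IL.C (nat_lit 1) (nat_lit 0x41ac833e) (nat_lit 0xc420) (nat_lit 0xc652)
  (IL.C (nat_lit 2) (nat_lit 0x17bb63710) (nat_lit 0xc420) (nat_lit 0x7440)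
  (IL.C (nat_lit 2) (nat_lit 0xa3a7697a) (nat_lit 0xc420) (nat_lit 0x6550)
  (IL.C (nat_lit 2) (nat_lit 0x2427e090) (nat_lit 0xc420) (nat_lit 0x8540)
  (IL.C (nat_lit 2) (nat_lit 0x3730062) (nat_lit 0xc420) (nat_lit 0xc421)
  (IL.C (nat_lit 2) (nat_lit 0x217bdda4) (nat_lit 0xc420) (nat_lit 0x9332)
  (IL.C (nat_lit 2) (nat_lit 0xd75f4fa0) (nat_lit 0xc420) (nat_lit 0x6551)
  (IL.C (nat_lit 2) (nat_lit 0x14e24786) (nat_lit 0xc420) (nat_lit 0xb531)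
  (IL.C (nat_lit 2) (nat_lit 0x59b01e0) (nat_lit 0xc420) (nat_lit 0xe422)
  (IL.C (nat_lit 2) (nat_lit 0x4154e53a) (nat_lit 0xc420) (nat_lit 0x5544)
  (IL.C (nat_lit 2) (nat_lit 0x4d2c279c) (nat_lit 0xc420) (nat_lit 0xc632)
  (IL.C (nat_lit 2) (nat_lit 0x6d339fac) (nat_lit 0xc420) (nat_lit 0x9552)
  (IL.C (nat_lit 2) (nat_lit 0x8bf7eb4) (nat_lit 0xc420) (nat_lit 0xb752)
  (IL.C (nat_lit 2) (nat_lit 0x673e3b90) (nat_lit 0xc420) (nat_lit 0x7654)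
  (IL.C (nat_lit 2) (nat_lit 0x2d2ad55a) (nat_lit 0xc420) (nat_lit 0xc643)
  (IL.C (nat_lit 2) (nat_lit 0x4b0087b8) (nat_lit 0xc420) (nat_lit 0xb743)
  (IL.C (nat_lit 1) (nat_lit 0xc3edd47c) (nat_lit 0xd321) (nat_lit 0x6631)
  (IL.C (nat_lit 2) (nat_lit 0x2ff682a) (nat_lit 0xd321) (nat_lit 0xb631)
  (IL.C (nat_lit 0) (nat_lit 0x40b83100f122) (nat_lit 0x7440) (nat_lit 0x7440)
  (IL.C (nat_lit 1) (nat_lit 0x17a48bde) (nat_lit 0x7440) (nat_lit 0x6550)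
  (IL.C (nat_lit 1) (nat_lit 0xe7f786d6) (nat_lit 0x7440) (nat_lit 0x8540)
  (IL.C (nat_lit 1) (nat_lit 0xd2639bf6) (nat_lit 0x7440) (nat_lit 0xc440)
  (IL.C (nat_lit 1) (nat_lit 0xc96a83a6) (nat_lit 0x7440) (nat_lit 0xa522)
  (IL.C (nat_lit 1) (nat_lit 0x12f0d21a) (nat_lit 0x7440) (nat_lit 0xb550)
  (IL.C (nat_lit 1) (nat_lit 0x1a69cdc08) (nat_lit 0x7440) (nat_lit 0x9532)
  (IL.C (nat_lit 1) (nat_lit 0x75a4e308) (nat_lit 0x7440) (nat_lit 0xd533)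
  (IL.C (nat_lit 2) (nat_lit 0xfcb3ff40) (nat_lit 0x7440) (nat_lit 0x7441)
  (IL.C (nat_lit 2) (nat_lit 0xba84a676) (nat_lit 0x7440) (nat_lit 0x6551)
  (IL.C (nat_lit 2) (nat_lit 0x12c3077ce) (nat_lit 0x7440) (nat_lit 0x5542)
  (IL.C (nat_lit 2) (nat_lit 0xe5cee946) (nat_lit 0x7440) (nat_lit 0x5443)
  (IL.C (nat_lit 2) (nat_lit 0x7dd8fd50) (nat_lit 0x7440) (nat_lit 0xa432)
  (IL.C (nat_lit 2) (nat_lit 0x25f1da2) (nat_lit 0x7440) (nat_lit 0xe422)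
  (IL.C (nat_lit 2) (nat_lit 0x156c83704) (nat_lit 0x7440) (nat_lit 0x9433)
  (IL.C (nat_lit 0) (nat_lit 0x184e23a27a0e) (nat_lit 0x5441) (nat_lit 0x5441)
  (IL.C (nat_lit 1) (nat_lit 0x16c49f1d6) (nat_lit 0x5441) (nat_lit 0x9521)
  (IL.C (nat_lit 1) (nat_lit 0x56708f98) (nat_lit 0x5441) (nat_lit 0xd550)
  (IL.C (nat_lit 1) (nat_lit 0x2c588a6) (nat_lit 0x5441) (nat_lit 0x7444)
  (IL.C (nat_lit 2) (nat_lit 0x174abd7e) (nat_lit 0x5441) (nat_lit 0xa421)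
  (IL.C (nat_lit 2) (nat_lit 0x23b66bd5a) (nat_lit 0x5441) (nat_lit 0xd530) its1_45))))))))))))))))))))))))))))))))))))))))

noncomputable def its1_43 : IL :=
  (IL.C (nat_lit 1) (nat_lit 0x3e73bd58) (nat_lit 0x8521) (nat_lit 0xd533)
  (IL.C (nat_lit 1) (nat_lit 0x792bda08) (nat_lit 0x8521) (nat_lit 0xe442)
  (IL.C (nat_lit 1) (nat_lit 0x260c8fc6) (nat_lit 0x8521) (nat_lit 0x9543)
  (IL.C (nat_lit 1) (nat_lit 0x25bf62e78) (nat_lit 0x8521) (nat_lit 0x7654)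
  (IL.C (nat_lit 1) (nat_lit 0x263ede) (nat_lit 0x8521) (nat_lit 0xb743)
  (IL.C (nat_lit 1) (nat_lit 0x24e10eb8) (nat_lit 0x8521) (nat_lit 0xb754)
  (IL.C (nat_lit 2) (nat_lit 0x815b01c2) (nat_lit 0x8521) (nat_lit 0x9720)
  (IL.C (nat_lit 2) (nat_lit 0x36de7f6e) (nat_lit 0x8521) (nat_lit 0xc421)
  (IL.C (nat_lit 2) (nat_lit 0x59b406e2) (nat_lit 0x8521) (nat_lit 0x7441)
  (IL.C (nat_lit 2) (nat_lit 0x87803f7c) (nat_lit 0x8521) (nat_lit 0x9332)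
  (IL.C (nat_lit 2) (nat_lit 0x11296963c) (nat_lit 0x8521) (nat_lit 0xa630)
  (IL.C (nat_lit 2) (nat_lit 0x3230325e) (nat_lit 0x8521) (nat_lit 0x6551)
  (IL.C (nat_lit 2) (nat_lit 0x4c69419c) (nat_lit 0x8521) (nat_lit 0x5542)
  (IL.C (nat_lit 2) (nat_lit 0x860df876) (nat_lit 0x8521) (nat_lit 0xa631)
  (IL.C (nat_lit 2) (nat_lit 0x92264c) (nat_lit 0x8521) (nat_lit 0xe422)
  (IL.C (nat_lit 2) (nat_lit 0x48e366d2) (nat_lit 0x8521) (nat_lit 0xa650)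
  (IL.C (nat_lit 2) (nat_lit 0x7b24dfd8) (nat_lit 0x8521) (nat_lit 0x9433)
  (IL.C (nat_lit 2) (nat_lit 0x24eb6c82) (nat_lit 0x8521) (nat_lit 0x9741)
  (IL.C (nat_lit 2) (nat_lit 0x13f760f90) (nat_lit 0x8521) (nat_lit 0x7652)
  (IL.C (nat_lit 2) (nat_lit 0x5cd84254) (nat_lit 0x8521) (nat_lit 0xa542)
  (IL.C (nat_lit 2) (nat_lit 0xd343d64) (nat_lit 0x8521) (nat_lit 0x8742)
  (IL.C (nat_lit 2) (nat_lit 0xd16a4a5c) (nat_lit 0x8521) (nat_lit 0xc632)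
  (IL.C (nat_lit 2) (nat_lit 0x149b61de) (nat_lit 0x8521) (nat_lit 0xa443)
  (IL.C (nat_lit 2) (nat_lit 0x45596c50) (nat_lit 0x8521) (nat_lit 0x8653)
  (IL.C (nat_lit 2) (nat_lit 0x1229f1f16) (nat_lit 0x8521) (nat_lit 0xc652)
  (IL.C (nat_lit 2) (nat_lit 0x26e1c1f6) (nat_lit 0x8521) (nat_lit 0xd553)
  (IL.C (nat_lit 2) (nat_lit 0xa6410fc2) (nat_lit 0x8521) (nat_lit 0xc643)
  (IL.C (nat_lit 2) (nat_lit 0x2e39c5aa) (nat_lit 0x8521) (nat_lit 0xc654)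
  (IL.C (nat_lit 0) (nat_lit 0x117e9e4e326a) (nat_lit 0xc420) (nat_lit 0xc420)
  (IL.C (nat_lit 1) (nat_lit 0x12c9a30) (nat_lit 0xc420) (nat_lit 0xa322)
  (IL.C (nat_lit 1) (nat_lit 0xccba528) (nat_lit 0xc420) (nat_lit 0x9720)
  (IL.C (nat_lit 1) (nat_lit 0x4d5be866) (nat_lit 0xc420) (nat_lit 0xb530)
  (IL.C (nat_lit 1) (nat_lit 0xa411348) (nat_lit 0xc420) (nat_lit 0x7441)
  (IL.C (nat_lit 1) (nat_lit 0xa0991e8) (nat_lit 0xc420) (nat_lit 0xa630)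
  (IL.C (nat_lit 1) (nat_lit 0x6985224) (nat_lit 0xc420) (nat_lit 0xc440)
  (IL.C (nat_lit 1) (nat_lit 0x465d718a) (nat_lit 0xc420) (nat_lit 0xb550)
  (IL.C (nat_lit 1) (nat_lit 0x45964cac) (nat_lit 0xc420) (nat_lit 0xa542)
  (IL.C (nat_lit 1) (nat_lit 0x559014ac) (nat_lit 0xc420) (nat_lit 0xb732)
  (IL.C (nat_lit 1) (nat_lit 0x3adc65f6) (nat_lit 0xc420) (nat_lit 0xa443)
  (IL.C (nat_lit 1) (nat_lit 0x9c96cb2) (nat_lit 0xc420) (nat_lit 0xd533) its1_44))))))))))))))))))))))))))))))))))))))))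

noncomputable def its1_42 : IL :=
  (IL.C (nat_lit 1) (nat_lit 0x13263a710) (nat_lit 0x5522) (nat_lit 0x8431)
  (IL.C (nat_lit 1) (nat_lit 0x7fbe5626) (nat_lit 0x5522) (nat_lit 0xa522)
  (IL.C (nat_lit 1) (nat_lit 0x1a042c946) (nat_lit 0x5522) (nat_lit 0x9532)
  (IL.C (nat_lit 2) (nat_lit 0x1185b57c2) (nat_lit 0x5522) (nat_lit 0x8521)
  (IL.C (nat_lit 2) (nat_lit 0x37e2399a) (nat_lit 0x5522) (nat_lit 0x4433)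
  (IL.C (nat_lit 2) (nat_lit 0x5b81251e) (nat_lit 0x5522) (nat_lit 0x5542)
  (IL.C (nat_lit 2) (nat_lit 0x7be802b2) (nat_lit 0x5522) (nat_lit 0x5443)
  (IL.C (nat_lit 2) (nat_lit 0xd264ebd6) (nat_lit 0x5522) (nat_lit 0xa432)
  (IL.C (nat_lit 2) (nat_lit 0xe040aa0c) (nat_lit 0x5522) (nat_lit 0xe422)
  (IL.C (nat_lit 2) (nat_lit 0x2b2709cc) (nat_lit 0x5522) (nat_lit 0x9433)
  (IL.C (nat_lit 2) (nat_lit 0x24fe4dea) (nat_lit 0x5522) (nat_lit 0xd533)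
  (IL.C (nat_lit 1) (nat_lit 0xaedc02) (nat_lit 0xd411) (nat_lit 0xb611)
  (IL.C (nat_lit 2) (nat_lit 0x8cdc668) (nat_lit 0xd411) (nat_lit 0x7666)
  (IL.C (nat_lit 0) (nat_lit 0x144a7639296) (nat_lit 0xb511) (nat_lit 0xb511)
  (IL.C (nat_lit 1) (nat_lit 0x15ddd686) (nat_lit 0xb511) (nat_lit 0xa611)
  (IL.C (nat_lit 1) (nat_lit 0x1503e728) (nat_lit 0xb511) (nat_lit 0xd551)
  (IL.C (nat_lit 2) (nat_lit 0x82cb7ec) (nat_lit 0xb511) (nat_lit 0x8651)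
  (IL.C (nat_lit 2) (nat_lit 0xf090b40) (nat_lit 0xb511) (nat_lit 0xc641)
  (IL.C (nat_lit 2) (nat_lit 0x1c00af42) (nat_lit 0xb511) (nat_lit 0xb741)
  (IL.C (nat_lit 1) (nat_lit 0x1e61caa6) (nat_lit 0x9611) (nat_lit 0xd541)
  (IL.C (nat_lit 1) (nat_lit 0xa42f54) (nat_lit 0x9611) (nat_lit 0xd744)
  (IL.C (nat_lit 1) (nat_lit 0x923b3ae0) (nat_lit 0x9430) (nat_lit 0x7621)
  (IL.C (nat_lit 1) (nat_lit 0x334917f8) (nat_lit 0x9430) (nat_lit 0xb532)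
  (IL.C (nat_lit 1) (nat_lit 0x2472a708) (nat_lit 0x9430) (nat_lit 0xa652)
  (IL.C (nat_lit 0) (nat_lit 0xd2689c830ac) (nat_lit 0x8521) (nat_lit 0x8521)
  (IL.C (nat_lit 1) (nat_lit 0x9e1bde6) (nat_lit 0x8521) (nat_lit 0x8431)
  (IL.C (nat_lit 1) (nat_lit 0x296e977a) (nat_lit 0x8521) (nat_lit 0xa322)
  (IL.C (nat_lit 1) (nat_lit 0xa4ae15b0) (nat_lit 0x8521) (nat_lit 0x8540)
  (IL.C (nat_lit 1) (nat_lit 0x21218f4) (nat_lit 0x8521) (nat_lit 0x9721)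
  (IL.C (nat_lit 1) (nat_lit 0x3f37cb74) (nat_lit 0x8521) (nat_lit 0x8541)
  (IL.C (nat_lit 1) (nat_lit 0x31af734) (nat_lit 0x8521) (nat_lit 0xa522)
  (IL.C (nat_lit 1) (nat_lit 0x66357dc2) (nat_lit 0x8521) (nat_lit 0xb531)
  (IL.C (nat_lit 1) (nat_lit 0x138f2c9fc) (nat_lit 0x8521) (nat_lit 0x5443)
  (IL.C (nat_lit 1) (nat_lit 0xace0b162) (nat_lit 0x8521) (nat_lit 0x7632)
  (IL.C (nat_lit 1) (nat_lit 0x23593e34) (nat_lit 0x8521) (nat_lit 0xa432)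
  (IL.C (nat_lit 1) (nat_lit 0xd9b50dc) (nat_lit 0x8521) (nat_lit 0x9740)
  (IL.C (nat_lit 1) (nat_lit 0x906446ee) (nat_lit 0x8521) (nat_lit 0x5544)
  (IL.C (nat_lit 1) (nat_lit 0x709aca16) (nat_lit 0x8521) (nat_lit 0xa651)
  (IL.C (nat_lit 1) (nat_lit 0x179f170a) (nat_lit 0x8521) (nat_lit 0xb732)
  (IL.C (nat_lit 1) (nat_lit 0x7ed5f474) (nat_lit 0x8521) (nat_lit 0x7643) its1_43))))))))))))))))))))))))))))))))))))))))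

noncomputable def its1_41 : IL :=
  (IL.C (nat_lit 1) (nat_lit 0x129c59f8) (nat_lit 0x8322) (nat_lit 0x8631)
  (IL.C (nat_lit 1) (nat_lit 0x21d6f720) (nat_lit 0x8322) (nat_lit 0xd531)
  (IL.C (nat_lit 1) (nat_lit 0x128958b0) (nat_lit 0x8322) (nat_lit 0x9633)
  (IL.C (nat_lit 1) (nat_lit 0x38f551c6) (nat_lit 0x8322) (nat_lit 0xe642)
  (IL.C (nat_lit 1) (nat_lit 0x91eb98a) (nat_lit 0x8322) (nat_lit 0xd743)
  (IL.C (nat_lit 2) (nat_lit 0x301c7474) (nat_lit 0x8322) (nat_lit 0x7621)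
  (IL.C (nat_lit 2) (nat_lit 0x2948448e) (nat_lit 0x8322) (nat_lit 0x8630)
  (IL.C (nat_lit 2) (nat_lit 0x1d2e0606) (nat_lit 0x8322) (nat_lit 0xd331)
  (IL.C (nat_lit 2) (nat_lit 0xd33551e) (nat_lit 0x8322) (nat_lit 0xc621)
  (IL.C (nat_lit 2) (nat_lit 0x166561aa) (nat_lit 0x8322) (nat_lit 0x9722)
  (IL.C (nat_lit 1) (nat_lit 0xdbc37e7e) (nat_lit 0x6630) (nat_lit 0xb522)
  (IL.C (nat_lit 2) (nat_lit 0x4391ebb6) (nat_lit 0x6630) (nat_lit 0xb322)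
  (IL.C (nat_lit 2) (nat_lit 0xc525b76c) (nat_lit 0x6630) (nat_lit 0xb432)
  (IL.C (nat_lit 2) (nat_lit 0x875c61f0) (nat_lit 0x6630) (nat_lit 0xd742)
  (IL.C (nat_lit 2) (nat_lit 0x18bf17b7a) (nat_lit 0x6440) (nat_lit 0xd522)
  (IL.C (nat_lit 1) (nat_lit 0xbed0380) (nat_lit 0x6332) (nat_lit 0xd331)
  (IL.C (nat_lit 1) (nat_lit 0x4a2a8df8) (nat_lit 0x6332) (nat_lit 0xa643)
  (IL.C (nat_lit 2) (nat_lit 0xfc6608da) (nat_lit 0x6332) (nat_lit 0x7640)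
  (IL.C (nat_lit 2) (nat_lit 0x56f2d832) (nat_lit 0x6332) (nat_lit 0x8443)
  (IL.C (nat_lit 2) (nat_lit 0x11597aae0) (nat_lit 0x6332) (nat_lit 0xb433)
  (IL.C (nat_lit 0) (nat_lit 0x353468b3ca0) (nat_lit 0xc610) (nat_lit 0xc610)
  (IL.C (nat_lit 1) (nat_lit 0x2efc9b98) (nat_lit 0xc610) (nat_lit 0xb710)
  (IL.C (nat_lit 1) (nat_lit 0xa091da6) (nat_lit 0xc610) (nat_lit 0xc611)
  (IL.C (nat_lit 1) (nat_lit 0x4a112a6) (nat_lit 0xc610) (nat_lit 0xb711)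
  (IL.C (nat_lit 1) (nat_lit 0x44d8e3da) (nat_lit 0xc610) (nat_lit 0xe640)
  (IL.C (nat_lit 1) (nat_lit 0xecd0d32) (nat_lit 0xc610) (nat_lit 0xa651)
  (IL.C (nat_lit 1) (nat_lit 0x2df6496c) (nat_lit 0xc610) (nat_lit 0xc654)
  (IL.C (nat_lit 1) (nat_lit 0x26f6dba6) (nat_lit 0xc610) (nat_lit 0xb754)
  (IL.C (nat_lit 2) (nat_lit 0x8cc364a) (nat_lit 0xc610) (nat_lit 0xe621)
  (IL.C (nat_lit 2) (nat_lit 0x6db6684) (nat_lit 0xc610) (nat_lit 0xd731)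
  (IL.C (nat_lit 2) (nat_lit 0x8e92280) (nat_lit 0xc610) (nat_lit 0x9741)
  (IL.C (nat_lit 2) (nat_lit 0x7d4f306) (nat_lit 0xc610) (nat_lit 0xd750)
  (IL.C (nat_lit 2) (nat_lit 0x75c8fa72) (nat_lit 0xc610) (nat_lit 0xa762)
  (IL.C (nat_lit 2) (nat_lit 0x675cb12e) (nat_lit 0xc610) (nat_lit 0x9763)
  (IL.C (nat_lit 2) (nat_lit 0x5861463c) (nat_lit 0xc610) (nat_lit 0x7766)
  (IL.C (nat_lit 0) (nat_lit 0x27e50f6bb30) (nat_lit 0xd330) (nat_lit 0xd330)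
  (IL.C (nat_lit 1) (nat_lit 0x6212e2c) (nat_lit 0xd330) (nat_lit 0xe622)
  (IL.C (nat_lit 1) (nat_lit 0x7834af0) (nat_lit 0xd330) (nat_lit 0xd732)
  (IL.C (nat_lit 0) (nat_lit 0xac55dbe855a2) (nat_lit 0x5522) (nat_lit 0x5522)
  (IL.C (nat_lit 1) (nat_lit 0x150d8026) (nat_lit 0x5522) (nat_lit 0x5432) its1_42))))))))))))))))))))))))))))))))))))))))

noncomputable def its1_40 : IL :=
  (IL.C (nat_lit 1) (nat_lit 0x420d2c86) (nat_lit 0x8611) (nat_lit 0xe662)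
  (IL.C (nat_lit 2) (nat_lit 0x3d1328e) (nat_lit 0x8611) (nat_lit 0xd511)
  (IL.C (nat_lit 2) (nat_lit 0xb13e726) (nat_lit 0x8611) (nat_lit 0xd741)
  (IL.C (nat_lit 1) (nat_lit 0x428762) (nat_lit 0xb411) (nat_lit 0x9611)
  (IL.C (nat_lit 1) (nat_lit 0xee17764) (nat_lit 0x9520) (nat_lit 0x9430)
  (IL.C (nat_lit 1) (nat_lit 0x35c987e4) (nat_lit 0x9520) (nat_lit 0x9431)
  (IL.C (nat_lit 1) (nat_lit 0x551f64b4) (nat_lit 0x9520) (nat_lit 0x7640)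
  (IL.C (nat_lit 1) (nat_lit 0x3b8716e6) (nat_lit 0x9520) (nat_lit 0xb433)
  (IL.C (nat_lit 1) (nat_lit 0x974bf5e) (nat_lit 0x9520) (nat_lit 0x7444)
  (IL.C (nat_lit 2) (nat_lit 0x85d82404) (nat_lit 0x9520) (nat_lit 0x5441)
  (IL.C (nat_lit 2) (nat_lit 0x2453c7f6) (nat_lit 0x9520) (nat_lit 0x6554)
  (IL.C (nat_lit 2) (nat_lit 0x75aefc0) (nat_lit 0x9520) (nat_lit 0xa643)
  (IL.C (nat_lit 1) (nat_lit 0x2de8750a) (nat_lit 0x8421) (nat_lit 0x9631)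
  (IL.C (nat_lit 1) (nat_lit 0x7f450fdc) (nat_lit 0x8421) (nat_lit 0x6653)
  (IL.C (nat_lit 1) (nat_lit 0x26ed7720) (nat_lit 0x8421) (nat_lit 0xb653)
  (IL.C (nat_lit 1) (nat_lit 0xc9fc766) (nat_lit 0x8421) (nat_lit 0xb655)
  (IL.C (nat_lit 2) (nat_lit 0x47cecdf6) (nat_lit 0x8421) (nat_lit 0x9630)
  (IL.C (nat_lit 2) (nat_lit 0x9dd26810) (nat_lit 0x8421) (nat_lit 0x9650)
  (IL.C (nat_lit 2) (nat_lit 0x3b49ee26) (nat_lit 0x8421) (nat_lit 0x6633)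
  (IL.C (nat_lit 2) (nat_lit 0xa45e97c6) (nat_lit 0x8421) (nat_lit 0x9651)
  (IL.C (nat_lit 2) (nat_lit 0x30c1b14a) (nat_lit 0x8421) (nat_lit 0xb633)
  (IL.C (nat_lit 2) (nat_lit 0x801498f4) (nat_lit 0x8421) (nat_lit 0x6655)
  (IL.C (nat_lit 1) (nat_lit 0xf7d50d0) (nat_lit 0xa222) (nat_lit 0xb430)
  (IL.C (nat_lit 1) (nat_lit 0x19a3fc86) (nat_lit 0xa222) (nat_lit 0xb431)
  (IL.C (nat_lit 1) (nat_lit 0x796d74) (nat_lit 0xa222) (nat_lit 0x9631)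
  (IL.C (nat_lit 2) (nat_lit 0x1b92eb48) (nat_lit 0xa222) (nat_lit 0x9630)
  (IL.C (nat_lit 2) (nat_lit 0x26bff40a) (nat_lit 0xa222) (nat_lit 0x6633)
  (IL.C (nat_lit 2) (nat_lit 0x1287bdcc) (nat_lit 0xa222) (nat_lit 0xd433)
  (IL.C (nat_lit 1) (nat_lit 0x1d2e9276) (nat_lit 0xb321) (nat_lit 0x9630)
  (IL.C (nat_lit 2) (nat_lit 0x1490725a) (nat_lit 0xb321) (nat_lit 0x9631)
  (IL.C (nat_lit 2) (nat_lit 0xb2e6920) (nat_lit 0xb321) (nat_lit 0xd433)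
  (IL.C (nat_lit 1) (nat_lit 0x1698a25a) (nat_lit 0x8620) (nat_lit 0xd430)
  (IL.C (nat_lit 1) (nat_lit 0x29c1c1a4) (nat_lit 0x8620) (nat_lit 0xd431)
  (IL.C (nat_lit 1) (nat_lit 0xf125d6ac) (nat_lit 0x6431) (nat_lit 0x9522)
  (IL.C (nat_lit 1) (nat_lit 0x3c73f056) (nat_lit 0x6431) (nat_lit 0xd532)
  (IL.C (nat_lit 1) (nat_lit 0xd33fc8c2) (nat_lit 0x4441) (nat_lit 0xb522)
  (IL.C (nat_lit 2) (nat_lit 0x1004537f4) (nat_lit 0x4441) (nat_lit 0xd520)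
  (IL.C (nat_lit 0) (nat_lit 0x70eb94643d8) (nat_lit 0x8322) (nat_lit 0x8322)
  (IL.C (nat_lit 1) (nat_lit 0x162be20a) (nat_lit 0x8322) (nat_lit 0xc222)
  (IL.C (nat_lit 1) (nat_lit 0x40e3b084) (nat_lit 0x8322) (nat_lit 0x8522) its1_41))))))))))))))))))))))))))))))))))))))))

noncomputable def its1_39 : IL :=
  (IL.C (nat_lit 1) (nat_lit 0x1504bee6) (nat_lit 0xd700) (nat_lit 0x9760)
  (IL.C (nat_lit 1) (nat_lit 0x6611842) (nat_lit 0xd700) (nat_lit 0xe660)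
  (IL.C (nat_lit 1) (nat_lit 0xa87ca06) (nat_lit 0xd700) (nat_lit 0xa766)
  (IL.C (nat_lit 2) (nat_lit 0x6320fc02) (nat_lit 0x6521) (nat_lit 0x6431)
  (IL.C (nat_lit 2) (nat_lit 0x35d28472) (nat_lit 0x6521) (nat_lit 0x4443)
  (IL.C (nat_lit 2) (nat_lit 0x23d5ccba) (nat_lit 0x6521) (nat_lit 0xd433)
  (IL.C (nat_lit 0) (nat_lit 0x2a0c19e36b2) (nat_lit 0xd510) (nat_lit 0xd510)
  (IL.C (nat_lit 1) (nat_lit 0x6bd2eb4e) (nat_lit 0xd510) (nat_lit 0x8441)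
  (IL.C (nat_lit 1) (nat_lit 0x39083bb8) (nat_lit 0xd510) (nat_lit 0xb541)
  (IL.C (nat_lit 1) (nat_lit 0x35b6b31a) (nat_lit 0xd510) (nat_lit 0xa641)
  (IL.C (nat_lit 1) (nat_lit 0x14f92576) (nat_lit 0xd510) (nat_lit 0x9651)
  (IL.C (nat_lit 1) (nat_lit 0x5e6e89c) (nat_lit 0xd510) (nat_lit 0xc644)
  (IL.C (nat_lit 1) (nat_lit 0x2d05327a) (nat_lit 0xd510) (nat_lit 0xb744)
  (IL.C (nat_lit 2) (nat_lit 0x28f3ec7c) (nat_lit 0xd510) (nat_lit 0xd721)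
  (IL.C (nat_lit 2) (nat_lit 0x3efd5f1c) (nat_lit 0xd510) (nat_lit 0x7661)
  (IL.C (nat_lit 2) (nat_lit 0xc8d5964) (nat_lit 0xd510) (nat_lit 0xd740)
  (IL.C (nat_lit 2) (nat_lit 0x14e6a952) (nat_lit 0xd510) (nat_lit 0x9764)
  (IL.C (nat_lit 2) (nat_lit 0x5a333bd8) (nat_lit 0xd510) (nat_lit 0xb655)
  (IL.C (nat_lit 2) (nat_lit 0x507071de) (nat_lit 0xd510) (nat_lit 0xa665)
  (IL.C (nat_lit 0) (nat_lit 0x18ed04be9104) (nat_lit 0xa420) (nat_lit 0xa420)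
  (IL.C (nat_lit 1) (nat_lit 0x6d9249ce) (nat_lit 0xa420) (nat_lit 0x9520)
  (IL.C (nat_lit 1) (nat_lit 0x2368bf278) (nat_lit 0xa420) (nat_lit 0x7621)
  (IL.C (nat_lit 1) (nat_lit 0x85c4b502) (nat_lit 0xa420) (nat_lit 0xa421)
  (IL.C (nat_lit 1) (nat_lit 0x59259926) (nat_lit 0xa420) (nat_lit 0x9521)
  (IL.C (nat_lit 1) (nat_lit 0x372c7eba) (nat_lit 0xa420) (nat_lit 0x9431)
  (IL.C (nat_lit 1) (nat_lit 0x64b458ec) (nat_lit 0xa420) (nat_lit 0xc422)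
  (IL.C (nat_lit 1) (nat_lit 0x5afc8194) (nat_lit 0xa420) (nat_lit 0xa643)
  (IL.C (nat_lit 1) (nat_lit 0xa098404) (nat_lit 0xa420) (nat_lit 0x9653)
  (IL.C (nat_lit 2) (nat_lit 0x641abd70) (nat_lit 0xa420) (nat_lit 0x9430)
  (IL.C (nat_lit 2) (nat_lit 0x100cd5836) (nat_lit 0xa420) (nat_lit 0x7640)
  (IL.C (nat_lit 2) (nat_lit 0x2feaa81c) (nat_lit 0xa420) (nat_lit 0xb532)
  (IL.C (nat_lit 2) (nat_lit 0x55f31d38) (nat_lit 0xa420) (nat_lit 0xb433)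
  (IL.C (nat_lit 2) (nat_lit 0x8812e414) (nat_lit 0xa420) (nat_lit 0x7444)
  (IL.C (nat_lit 2) (nat_lit 0x1c727de2) (nat_lit 0xa420) (nat_lit 0x9742)
  (IL.C (nat_lit 2) (nat_lit 0x15df1526) (nat_lit 0xa420) (nat_lit 0x6554)
  (IL.C (nat_lit 2) (nat_lit 0x49c63fce) (nat_lit 0xa420) (nat_lit 0xa652)
  (IL.C (nat_lit 0) (nat_lit 0x7b38230daa) (nat_lit 0x8611) (nat_lit 0x8611)
  (IL.C (nat_lit 1) (nat_lit 0xbdbead0) (nat_lit 0x8611) (nat_lit 0xd721)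
  (IL.C (nat_lit 1) (nat_lit 0x1a47ef04) (nat_lit 0x8611) (nat_lit 0x7661)
  (IL.C (nat_lit 1) (nat_lit 0x16195c82) (nat_lit 0x8611) (nat_lit 0xc661) its1_40))))))))))))))))))))))))))))))))))))))))

noncomputable def its1_38 : IL :=
  (IL.C (nat_lit 2) (nat_lit 0x1f14ffbe2) (nat_lit 0x5440) (nat_lit 0xa420)
  (IL.C (nat_lit 2) (nat_lit 0x1e3192f06) (nat_lit 0x5440) (nat_lit 0xd530)
  (IL.C (nat_lit 2) (nat_lit 0x1c707222) (nat_lit 0x5440) (nat_lit 0xb532)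
  (IL.C (nat_lit 0) (nat_lit 0x51a07396d0e) (nat_lit 0xa610) (nat_lit 0xa610)
  (IL.C (nat_lit 1) (nat_lit 0x63fce42) (nat_lit 0xa610) (nat_lit 0xa611)
  (IL.C (nat_lit 1) (nat_lit 0x2dfe6842) (nat_lit 0xa610) (nat_lit 0x8650)
  (IL.C (nat_lit 1) (nat_lit 0x2ced2e1a) (nat_lit 0xa610) (nat_lit 0xd531)
  (IL.C (nat_lit 1) (nat_lit 0x4144ab62) (nat_lit 0xa610) (nat_lit 0x9760)
  (IL.C (nat_lit 1) (nat_lit 0x8cd5b610) (nat_lit 0xa610) (nat_lit 0xd732)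
  (IL.C (nat_lit 1) (nat_lit 0x9973a79c) (nat_lit 0xa610) (nat_lit 0xd752)
  (IL.C (nat_lit 1) (nat_lit 0x2692b220) (nat_lit 0xa610) (nat_lit 0x7665)
  (IL.C (nat_lit 2) (nat_lit 0x6219f120) (nat_lit 0xa610) (nat_lit 0x8630)
  (IL.C (nat_lit 2) (nat_lit 0x60db6dd8) (nat_lit 0xa610) (nat_lit 0xc620)
  (IL.C (nat_lit 2) (nat_lit 0x7f4e9036) (nat_lit 0xa610) (nat_lit 0xb720)
  (IL.C (nat_lit 2) (nat_lit 0x12ca763e) (nat_lit 0xa610) (nat_lit 0x8631)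
  (IL.C (nat_lit 2) (nat_lit 0x309c642c) (nat_lit 0xa610) (nat_lit 0xc621)
  (IL.C (nat_lit 2) (nat_lit 0x3a5cbafa) (nat_lit 0xa610) (nat_lit 0xb721)
  (IL.C (nat_lit 2) (nat_lit 0x20a24fc8) (nat_lit 0xa610) (nat_lit 0xc640)
  (IL.C (nat_lit 2) (nat_lit 0x7b400b74) (nat_lit 0xa610) (nat_lit 0xb740)
  (IL.C (nat_lit 2) (nat_lit 0x3a776040) (nat_lit 0xa610) (nat_lit 0xe622)
  (IL.C (nat_lit 2) (nat_lit 0x563eb8a6) (nat_lit 0xa610) (nat_lit 0xe642)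
  (IL.C (nat_lit 2) (nat_lit 0x288fffd6) (nat_lit 0xa610) (nat_lit 0xd743)
  (IL.C (nat_lit 1) (nat_lit 0x8eb93122) (nat_lit 0x9420) (nat_lit 0x6650)
  (IL.C (nat_lit 2) (nat_lit 0xda9e969a) (nat_lit 0x9420) (nat_lit 0x6631)
  (IL.C (nat_lit 1) (nat_lit 0xc01be310) (nat_lit 0xd221) (nat_lit 0x6663)
  (IL.C (nat_lit 0) (nat_lit 0xff4379af0c6) (nat_lit 0x7620) (nat_lit 0x7620)
  (IL.C (nat_lit 1) (nat_lit 0x1d6478f6) (nat_lit 0x7620) (nat_lit 0x7621)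
  (IL.C (nat_lit 1) (nat_lit 0x8dee28c0) (nat_lit 0x7620) (nat_lit 0xc222)
  (IL.C (nat_lit 1) (nat_lit 0xd456dc4) (nat_lit 0x7620) (nat_lit 0x8630)
  (IL.C (nat_lit 1) (nat_lit 0xc67fd440) (nat_lit 0x7620) (nat_lit 0x7640)
  (IL.C (nat_lit 1) (nat_lit 0xc9e6fb08) (nat_lit 0x7620) (nat_lit 0xc422)
  (IL.C (nat_lit 1) (nat_lit 0x1796f86b8) (nat_lit 0x7620) (nat_lit 0xa643)
  (IL.C (nat_lit 1) (nat_lit 0x14c54a9a6) (nat_lit 0x7620) (nat_lit 0x9653)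
  (IL.C (nat_lit 1) (nat_lit 0x122a31c4) (nat_lit 0x7620) (nat_lit 0xd743)
  (IL.C (nat_lit 2) (nat_lit 0x58ff1a3a) (nat_lit 0x7620) (nat_lit 0xb433)
  (IL.C (nat_lit 2) (nat_lit 0xc1aa74f6) (nat_lit 0x7620) (nat_lit 0x9742)
  (IL.C (nat_lit 2) (nat_lit 0x136888f42) (nat_lit 0x7620) (nat_lit 0xe642)
  (IL.C (nat_lit 2) (nat_lit 0x263f1700) (nat_lit 0x7620) (nat_lit 0x7665)
  (IL.C (nat_lit 0) (nat_lit 0x54d6f9991a) (nat_lit 0xd700) (nat_lit 0xd700)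
  (IL.C (nat_lit 1) (nat_lit 0x461dfae) (nat_lit 0xd700) (nat_lit 0xd710) its1_39))))))))))))))))))))))))))))))))))))))))

noncomputable def its1_37 : IL :=
  (IL.C (nat_lit 1) (nat_lit 0x18ce4ab6) (nat_lit 0xc221) (nat_lit 0xa322)
  (IL.C (nat_lit 1) (nat_lit 0x1be81ffe) (nat_lit 0xc221) (nat_lit 0xb331)
  (IL.C (nat_lit 1) (nat_lit 0xaa8534e) (nat_lit 0xc221) (nat_lit 0xc421)
  (IL.C (nat_lit 1) (nat_lit 0x35bec270) (nat_lit 0xc221) (nat_lit 0xa630)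
  (IL.C (nat_lit 1) (nat_lit 0x4adcb86) (nat_lit 0xc221) (nat_lit 0x9721)
  (IL.C (nat_lit 1) (nat_lit 0x4a0a868c) (nat_lit 0xc221) (nat_lit 0xa631)
  (IL.C (nat_lit 1) (nat_lit 0x373d7206) (nat_lit 0xc221) (nat_lit 0xc632)
  (IL.C (nat_lit 1) (nat_lit 0x606674c) (nat_lit 0xc221) (nat_lit 0xb732)
  (IL.C (nat_lit 1) (nat_lit 0x10f8087c) (nat_lit 0xc221) (nat_lit 0xd533)
  (IL.C (nat_lit 1) (nat_lit 0x39a20d5e) (nat_lit 0xc221) (nat_lit 0xc652)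
  (IL.C (nat_lit 1) (nat_lit 0x3a08ee66) (nat_lit 0xc221) (nat_lit 0xb752)
  (IL.C (nat_lit 1) (nat_lit 0x6db07de2) (nat_lit 0xc221) (nat_lit 0xc643)
  (IL.C (nat_lit 2) (nat_lit 0x1bfb666a) (nat_lit 0xc221) (nat_lit 0x9720)
  (IL.C (nat_lit 2) (nat_lit 0x285b801c) (nat_lit 0xc221) (nat_lit 0xb530)
  (IL.C (nat_lit 2) (nat_lit 0x1babcf92) (nat_lit 0xc221) (nat_lit 0x9332)
  (IL.C (nat_lit 2) (nat_lit 0x1683f2fc) (nat_lit 0xc221) (nat_lit 0xb531)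
  (IL.C (nat_lit 2) (nat_lit 0x388eae86) (nat_lit 0xc221) (nat_lit 0xe422)
  (IL.C (nat_lit 2) (nat_lit 0x2d881872) (nat_lit 0xc221) (nat_lit 0xb743)
  (IL.C (nat_lit 0) (nat_lit 0x655444d61e50) (nat_lit 0x7421) (nat_lit 0x7421)
  (IL.C (nat_lit 1) (nat_lit 0x299784f2) (nat_lit 0x7421) (nat_lit 0x6531)
  (IL.C (nat_lit 1) (nat_lit 0xc4a0c6cc) (nat_lit 0x7421) (nat_lit 0x7441)
  (IL.C (nat_lit 1) (nat_lit 0xdccf94f0) (nat_lit 0x7421) (nat_lit 0xa522)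
  (IL.C (nat_lit 1) (nat_lit 0x15debb820) (nat_lit 0x7421) (nat_lit 0x5443)
  (IL.C (nat_lit 1) (nat_lit 0x1a9c5f7cc) (nat_lit 0x7421) (nat_lit 0xa432)
  (IL.C (nat_lit 1) (nat_lit 0x7070a00) (nat_lit 0x7421) (nat_lit 0x9433)
  (IL.C (nat_lit 1) (nat_lit 0x21fabe64) (nat_lit 0x7421) (nat_lit 0x7643)
  (IL.C (nat_lit 2) (nat_lit 0x90048d2) (nat_lit 0x7421) (nat_lit 0x8521)
  (IL.C (nat_lit 2) (nat_lit 0x254b6ac18) (nat_lit 0x7421) (nat_lit 0x8431)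
  (IL.C (nat_lit 2) (nat_lit 0x1edd24b6) (nat_lit 0x7421) (nat_lit 0x6551)
  (IL.C (nat_lit 2) (nat_lit 0x174a5efa6) (nat_lit 0x7421) (nat_lit 0x5542)
  (IL.C (nat_lit 2) (nat_lit 0x117ce38ba) (nat_lit 0x7421) (nat_lit 0xe422)
  (IL.C (nat_lit 2) (nat_lit 0x1775c703e) (nat_lit 0x7421) (nat_lit 0x9532)
  (IL.C (nat_lit 2) (nat_lit 0xc7c3dee2) (nat_lit 0x7421) (nat_lit 0x7652)
  (IL.C (nat_lit 2) (nat_lit 0x92d379ac) (nat_lit 0x7421) (nat_lit 0xd533)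
  (IL.C (nat_lit 0) (nat_lit 0x2442181a4ace) (nat_lit 0x5440) (nat_lit 0x5440)
  (IL.C (nat_lit 1) (nat_lit 0xfa30ab8a) (nat_lit 0x5440) (nat_lit 0x9520)
  (IL.C (nat_lit 1) (nat_lit 0x460500fa) (nat_lit 0x5440) (nat_lit 0x5441)
  (IL.C (nat_lit 1) (nat_lit 0x2c3e81b7e) (nat_lit 0x5440) (nat_lit 0xa421)
  (IL.C (nat_lit 1) (nat_lit 0x1261cfb48) (nat_lit 0x5440) (nat_lit 0xc422)
  (IL.C (nat_lit 1) (nat_lit 0x84a221a0) (nat_lit 0x5440) (nat_lit 0x7444) its1_38))))))))))))))))))))))))))))))))))))))))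

noncomputable def its1_36 : IL :=
  (IL.C (nat_lit 2) (nat_lit 0x6cf5aad6) (nat_lit 0x8520) (nat_lit 0xa650)
  (IL.C (nat_lit 2) (nat_lit 0x35b8a286) (nat_lit 0x8520) (nat_lit 0x9433)
  (IL.C (nat_lit 2) (nat_lit 0x1a075f6b6) (nat_lit 0x8520) (nat_lit 0x5544)
  (IL.C (nat_lit 2) (nat_lit 0x12296b932) (nat_lit 0x8520) (nat_lit 0x7652)
  (IL.C (nat_lit 2) (nat_lit 0x880befe4) (nat_lit 0x8520) (nat_lit 0xa542)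
  (IL.C (nat_lit 2) (nat_lit 0x4e180264) (nat_lit 0x8520) (nat_lit 0x8742)
  (IL.C (nat_lit 2) (nat_lit 0x3ccd1002) (nat_lit 0x8520) (nat_lit 0xb732)
  (IL.C (nat_lit 2) (nat_lit 0xfa598d3c) (nat_lit 0x8520) (nat_lit 0x7643)
  (IL.C (nat_lit 2) (nat_lit 0x9fbf2836) (nat_lit 0x8520) (nat_lit 0xc652)
  (IL.C (nat_lit 2) (nat_lit 0x786161b0) (nat_lit 0x8520) (nat_lit 0x7654)
  (IL.C (nat_lit 2) (nat_lit 0x25cdbb44) (nat_lit 0x8520) (nat_lit 0xb743)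
  (IL.C (nat_lit 2) (nat_lit 0x4015ab14) (nat_lit 0x9321) (nat_lit 0xd331)
  (IL.C (nat_lit 0) (nat_lit 0x2546e57ad9e) (nat_lit 0xa411) (nat_lit 0xa411)
  (IL.C (nat_lit 1) (nat_lit 0xcbf57c4) (nat_lit 0xa411) (nat_lit 0x9511)
  (IL.C (nat_lit 1) (nat_lit 0x31cc4e8c) (nat_lit 0xa411) (nat_lit 0xb531)
  (IL.C (nat_lit 1) (nat_lit 0x5dd2404) (nat_lit 0xa411) (nat_lit 0xe621)
  (IL.C (nat_lit 1) (nat_lit 0x33fc192) (nat_lit 0xa411) (nat_lit 0xc441)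
  (IL.C (nat_lit 1) (nat_lit 0x218c2b7a) (nat_lit 0xa411) (nat_lit 0xd731)
  (IL.C (nat_lit 1) (nat_lit 0x3226ece8) (nat_lit 0xa411) (nat_lit 0xa651)
  (IL.C (nat_lit 1) (nat_lit 0x2c4779a6) (nat_lit 0xa411) (nat_lit 0xa542)
  (IL.C (nat_lit 1) (nat_lit 0x1ff1215c) (nat_lit 0xa411) (nat_lit 0x9552)
  (IL.C (nat_lit 1) (nat_lit 0x9ecc7ef8) (nat_lit 0xa411) (nat_lit 0xe442)
  (IL.C (nat_lit 1) (nat_lit 0x3b44a7a) (nat_lit 0xa411) (nat_lit 0xd553)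
  (IL.C (nat_lit 1) (nat_lit 0x5444778) (nat_lit 0xa411) (nat_lit 0xc654)
  (IL.C (nat_lit 1) (nat_lit 0x55bdcf0) (nat_lit 0xa411) (nat_lit 0xb754)
  (IL.C (nat_lit 2) (nat_lit 0x1e9b3af6) (nat_lit 0xa411) (nat_lit 0x8521)
  (IL.C (nat_lit 2) (nat_lit 0x9d763f6a) (nat_lit 0xa411) (nat_lit 0x8431)
  (IL.C (nat_lit 2) (nat_lit 0x577258f4) (nat_lit 0xa411) (nat_lit 0x8540)
  (IL.C (nat_lit 2) (nat_lit 0x9f84562) (nat_lit 0xa411) (nat_lit 0xc421)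
  (IL.C (nat_lit 2) (nat_lit 0x482eae52) (nat_lit 0xa411) (nat_lit 0x8541)
  (IL.C (nat_lit 2) (nat_lit 0x2e72f04a) (nat_lit 0xa411) (nat_lit 0xc440)
  (IL.C (nat_lit 2) (nat_lit 0x823120c6) (nat_lit 0xa411) (nat_lit 0xb550)
  (IL.C (nat_lit 2) (nat_lit 0x37b86a) (nat_lit 0xa411) (nat_lit 0x9741)
  (IL.C (nat_lit 2) (nat_lit 0x28b63ad6) (nat_lit 0xa411) (nat_lit 0xb551)
  (IL.C (nat_lit 2) (nat_lit 0x5018a332) (nat_lit 0xa411) (nat_lit 0x5544)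
  (IL.C (nat_lit 2) (nat_lit 0x308eb2b4) (nat_lit 0xa411) (nat_lit 0x9543)
  (IL.C (nat_lit 0) (nat_lit 0x9afe7976812) (nat_lit 0xc221) (nat_lit 0xc221)
  (IL.C (nat_lit 1) (nat_lit 0x82e6c7bc) (nat_lit 0xc221) (nat_lit 0x8521)
  (IL.C (nat_lit 1) (nat_lit 0x6b7e1568) (nat_lit 0xc221) (nat_lit 0xc420)
  (IL.C (nat_lit 1) (nat_lit 0x365bc7b8) (nat_lit 0xc221) (nat_lit 0x8431) its1_37))))))))))))))))))))))))))))))))))))))))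

noncomputable def its1_35 : IL :=
  (IL.C (nat_lit 1) (nat_lit 0x8e53b1a) (nat_lit 0x9610) (nat_lit 0xd521)
  (IL.C (nat_lit 1) (nat_lit 0x6e24c3ea) (nat_lit 0x9610) (nat_lit 0xd431)
  (IL.C (nat_lit 1) (nat_lit 0x58537ef2) (nat_lit 0x9610) (nat_lit 0xd742)
  (IL.C (nat_lit 2) (nat_lit 0x1da8b4ba) (nat_lit 0x9610) (nat_lit 0xd520)
  (IL.C (nat_lit 2) (nat_lit 0x3aa70a3e) (nat_lit 0x9610) (nat_lit 0xd722)
  (IL.C (nat_lit 0) (nat_lit 0x1497ea782ac2) (nat_lit 0x8520) (nat_lit 0x8520)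
  (IL.C (nat_lit 1) (nat_lit 0x15c2a8966) (nat_lit 0x8520) (nat_lit 0xc221)
  (IL.C (nat_lit 1) (nat_lit 0x1dd36d694) (nat_lit 0x8520) (nat_lit 0x7421)
  (IL.C (nat_lit 1) (nat_lit 0xaae5738) (nat_lit 0x8520) (nat_lit 0x5522)
  (IL.C (nat_lit 1) (nat_lit 0x2afdbf2f8) (nat_lit 0x8520) (nat_lit 0x6531)
  (IL.C (nat_lit 1) (nat_lit 0xfce1439a) (nat_lit 0x8520) (nat_lit 0xa322)
  (IL.C (nat_lit 1) (nat_lit 0x940a27b2) (nat_lit 0x8520) (nat_lit 0x6550)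
  (IL.C (nat_lit 1) (nat_lit 0x6f99360e) (nat_lit 0x8520) (nat_lit 0xc421)
  (IL.C (nat_lit 1) (nat_lit 0x85889fe) (nat_lit 0x8520) (nat_lit 0x9332)
  (IL.C (nat_lit 1) (nat_lit 0x153d1f0da) (nat_lit 0x8520) (nat_lit 0x6551)
  (IL.C (nat_lit 1) (nat_lit 0x7f2b5f98) (nat_lit 0x8520) (nat_lit 0xb531)
  (IL.C (nat_lit 1) (nat_lit 0x11e8ba70) (nat_lit 0x8520) (nat_lit 0x5443)
  (IL.C (nat_lit 1) (nat_lit 0x23c28720) (nat_lit 0x8520) (nat_lit 0xa432)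
  (IL.C (nat_lit 1) (nat_lit 0x54b203ec) (nat_lit 0x8520) (nat_lit 0xe422)
  (IL.C (nat_lit 1) (nat_lit 0x1023dc38) (nat_lit 0x8520) (nat_lit 0xc632)
  (IL.C (nat_lit 1) (nat_lit 0x6aff0342) (nat_lit 0x8520) (nat_lit 0xa443)
  (IL.C (nat_lit 1) (nat_lit 0x84d895a) (nat_lit 0x8520) (nat_lit 0xd533)
  (IL.C (nat_lit 1) (nat_lit 0x123084ce) (nat_lit 0x8520) (nat_lit 0x9543)
  (IL.C (nat_lit 1) (nat_lit 0x5e7faac2) (nat_lit 0x8520) (nat_lit 0xc643)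
  (IL.C (nat_lit 2) (nat_lit 0x47cb2420) (nat_lit 0x8520) (nat_lit 0x8430)
  (IL.C (nat_lit 2) (nat_lit 0x4df6214a) (nat_lit 0x8520) (nat_lit 0x8521)
  (IL.C (nat_lit 2) (nat_lit 0x2f6390d6) (nat_lit 0x8520) (nat_lit 0xc420)
  (IL.C (nat_lit 2) (nat_lit 0x115fbcd2c) (nat_lit 0x8520) (nat_lit 0x7440)
  (IL.C (nat_lit 2) (nat_lit 0x35a7342e) (nat_lit 0x8520) (nat_lit 0x8431)
  (IL.C (nat_lit 2) (nat_lit 0x61223d20) (nat_lit 0x8520) (nat_lit 0xb331)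
  (IL.C (nat_lit 2) (nat_lit 0xa7290de2) (nat_lit 0x8520) (nat_lit 0x9720)
  (IL.C (nat_lit 2) (nat_lit 0x45dafc48) (nat_lit 0x8520) (nat_lit 0x4433)
  (IL.C (nat_lit 2) (nat_lit 0x3cd2bc0a) (nat_lit 0x8520) (nat_lit 0x8540)
  (IL.C (nat_lit 2) (nat_lit 0x4ecae9f6) (nat_lit 0x8520) (nat_lit 0xb530)
  (IL.C (nat_lit 2) (nat_lit 0xced3803a) (nat_lit 0x8520) (nat_lit 0x7441)
  (IL.C (nat_lit 2) (nat_lit 0x1c27f968) (nat_lit 0x8520) (nat_lit 0xa630)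
  (IL.C (nat_lit 2) (nat_lit 0x1c6c4f668) (nat_lit 0x8520) (nat_lit 0x5542)
  (IL.C (nat_lit 2) (nat_lit 0x4e36032e) (nat_lit 0x8520) (nat_lit 0xa522)
  (IL.C (nat_lit 2) (nat_lit 0x1e03c642) (nat_lit 0x8520) (nat_lit 0x7632)
  (IL.C (nat_lit 2) (nat_lit 0x15f79118) (nat_lit 0x8520) (nat_lit 0x9740) its1_36))))))))))))))))))))))))))))))))))))))))

noncomputable def its1_34 : IL :=
  (IL.C (nat_lit 1) (nat_lit 0x8cf20406) (nat_lit 0x8222) (nat_lit 0x6631)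
  (IL.C (nat_lit 1) (nat_lit 0x46d3b3ae) (nat_lit 0x8222) (nat_lit 0xd431)
  (IL.C (nat_lit 1) (nat_lit 0x6d95fae) (nat_lit 0x8222) (nat_lit 0xb631)
  (IL.C (nat_lit 1) (nat_lit 0x2b66da4e) (nat_lit 0x8222) (nat_lit 0xd653)
  (IL.C (nat_lit 0) (nat_lit 0x7bec47bc170) (nat_lit 0xb510) (nat_lit 0xb510)
  (IL.C (nat_lit 1) (nat_lit 0xe1166a3c) (nat_lit 0xb510) (nat_lit 0xa610)
  (IL.C (nat_lit 1) (nat_lit 0x10507f068) (nat_lit 0xb510) (nat_lit 0x5441)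
  (IL.C (nat_lit 1) (nat_lit 0x971fb26) (nat_lit 0xb510) (nat_lit 0xa440)
  (IL.C (nat_lit 1) (nat_lit 0x213c8438) (nat_lit 0xb510) (nat_lit 0xc621)
  (IL.C (nat_lit 1) (nat_lit 0x4c9bfeea) (nat_lit 0xb510) (nat_lit 0x7641)
  (IL.C (nat_lit 1) (nat_lit 0x3bf19f88) (nat_lit 0xb510) (nat_lit 0xd550)
  (IL.C (nat_lit 1) (nat_lit 0x1f428248) (nat_lit 0xb510) (nat_lit 0xc640)
  (IL.C (nat_lit 1) (nat_lit 0x7e79418) (nat_lit 0xb510) (nat_lit 0xb740)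
  (IL.C (nat_lit 1) (nat_lit 0x5d92e7b8) (nat_lit 0xb510) (nat_lit 0x8542)
  (IL.C (nat_lit 1) (nat_lit 0x462812c) (nat_lit 0xb510) (nat_lit 0x8443)
  (IL.C (nat_lit 1) (nat_lit 0x4facc1dc) (nat_lit 0xb510) (nat_lit 0xc442)
  (IL.C (nat_lit 1) (nat_lit 0xe3c1404) (nat_lit 0xb510) (nat_lit 0x6554)
  (IL.C (nat_lit 2) (nat_lit 0x3c27ef28) (nat_lit 0xb510) (nat_lit 0x5440)
  (IL.C (nat_lit 2) (nat_lit 0xee18bc3c) (nat_lit 0xb510) (nat_lit 0x8630)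
  (IL.C (nat_lit 2) (nat_lit 0x1b971ecc) (nat_lit 0xb510) (nat_lit 0xc620)
  (IL.C (nat_lit 2) (nat_lit 0xe4c9ed6) (nat_lit 0xb510) (nat_lit 0xb720)
  (IL.C (nat_lit 2) (nat_lit 0x2ce1aba0) (nat_lit 0xb510) (nat_lit 0x7640)
  (IL.C (nat_lit 2) (nat_lit 0x4888be68) (nat_lit 0xb510) (nat_lit 0xd530)
  (IL.C (nat_lit 2) (nat_lit 0x73b13fc) (nat_lit 0xb510) (nat_lit 0x9540)
  (IL.C (nat_lit 2) (nat_lit 0x56f7c116) (nat_lit 0xb510) (nat_lit 0xb721)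
  (IL.C (nat_lit 2) (nat_lit 0x53c00354) (nat_lit 0xb510) (nat_lit 0xd531)
  (IL.C (nat_lit 2) (nat_lit 0x2818da18) (nat_lit 0xb510) (nat_lit 0x7444)
  (IL.C (nat_lit 2) (nat_lit 0x4412b8c0) (nat_lit 0xb510) (nat_lit 0xb552)
  (IL.C (nat_lit 2) (nat_lit 0x53548a88) (nat_lit 0xb510) (nat_lit 0x7665)
  (IL.C (nat_lit 0) (nat_lit 0x5870ca9fd12) (nat_lit 0x7611) (nat_lit 0x7611)
  (IL.C (nat_lit 1) (nat_lit 0x5f301492) (nat_lit 0x7611) (nat_lit 0xc610)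
  (IL.C (nat_lit 1) (nat_lit 0x7981b5ce) (nat_lit 0x7611) (nat_lit 0xc611)
  (IL.C (nat_lit 1) (nat_lit 0xaace25bc) (nat_lit 0x7611) (nat_lit 0xe621)
  (IL.C (nat_lit 1) (nat_lit 0xec4a988e) (nat_lit 0x7611) (nat_lit 0x8742)
  (IL.C (nat_lit 1) (nat_lit 0x82a607c8) (nat_lit 0x7611) (nat_lit 0xc654)
  (IL.C (nat_lit 2) (nat_lit 0x588901e) (nat_lit 0x7611) (nat_lit 0x9721)
  (IL.C (nat_lit 2) (nat_lit 0x69113c22) (nat_lit 0x7611) (nat_lit 0x8541)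
  (IL.C (nat_lit 2) (nat_lit 0x81b694c8) (nat_lit 0x7611) (nat_lit 0x9740)
  (IL.C (nat_lit 2) (nat_lit 0x3ffae786) (nat_lit 0x7611) (nat_lit 0x9741)
  (IL.C (nat_lit 1) (nat_lit 0xf5b73b4) (nat_lit 0x9610) (nat_lit 0xd430) its1_35))))))))))))))))))))))))))))))))))))))))

noncomputable def its1_33 : IL :=
  (IL.C (nat_lit 2) (nat_lit 0x516d1d9e) (nat_lit 0x4431) (nat_lit 0xb532)
  (IL.C (nat_lit 1) (nat_lit 0x4f05c8e) (nat_lit 0xb320) (nat_lit 0x9630)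
  (IL.C (nat_lit 2) (nat_lit 0x1abe0daa) (nat_lit 0x6611) (nat_lit 0xd410)
  (IL.C (nat_lit 2) (nat_lit 0x6878276c) (nat_lit 0x6611) (nat_lit 0xd411)
  (IL.C (nat_lit 1) (nat_lit 0x5b964aac) (nat_lit 0x6430) (nat_lit 0xb520)
  (IL.C (nat_lit 1) (nat_lit 0xfd9183ba) (nat_lit 0x6430) (nat_lit 0xd532)
  (IL.C (nat_lit 2) (nat_lit 0x3c754162) (nat_lit 0x6430) (nat_lit 0x9522)
  (IL.C (nat_lit 2) (nat_lit 0x595c5652) (nat_lit 0x4440) (nat_lit 0xd520)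
  (IL.C (nat_lit 2) (nat_lit 0x90102f2a) (nat_lit 0x4440) (nat_lit 0xb522)
  (IL.C (nat_lit 0) (nat_lit 0x1c7b23f5a1a) (nat_lit 0xd311) (nat_lit 0xd311)
  (IL.C (nat_lit 1) (nat_lit 0x43585dd8) (nat_lit 0xd311) (nat_lit 0xd510)
  (IL.C (nat_lit 1) (nat_lit 0x7ac4c54) (nat_lit 0xd311) (nat_lit 0xd511)
  (IL.C (nat_lit 1) (nat_lit 0x3af64090) (nat_lit 0xd311) (nat_lit 0x8441)
  (IL.C (nat_lit 2) (nat_lit 0x6df5d0) (nat_lit 0xd311) (nat_lit 0x9411)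
  (IL.C (nat_lit 2) (nat_lit 0xf6734b8) (nat_lit 0xd311) (nat_lit 0x8611)
  (IL.C (nat_lit 2) (nat_lit 0xb8db25c) (nat_lit 0xd311) (nat_lit 0xd721)
  (IL.C (nat_lit 2) (nat_lit 0x3a7146fa) (nat_lit 0xd311) (nat_lit 0xb541)
  (IL.C (nat_lit 0) (nat_lit 0x4058b9309cc) (nat_lit 0xc600) (nat_lit 0xc600)
  (IL.C (nat_lit 1) (nat_lit 0x135dfe3b6) (nat_lit 0xc600) (nat_lit 0x7611)
  (IL.C (nat_lit 1) (nat_lit 0xfed2a66) (nat_lit 0xc600) (nat_lit 0xc610)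
  (IL.C (nat_lit 1) (nat_lit 0x340df48) (nat_lit 0xc600) (nat_lit 0xe222)
  (IL.C (nat_lit 1) (nat_lit 0x519af3e) (nat_lit 0xc600) (nat_lit 0xd333)
  (IL.C (nat_lit 2) (nat_lit 0x291f181e) (nat_lit 0xc600) (nat_lit 0xb700)
  (IL.C (nat_lit 2) (nat_lit 0x203cb884) (nat_lit 0xc600) (nat_lit 0xb710)
  (IL.C (nat_lit 2) (nat_lit 0x5525979e) (nat_lit 0xc600) (nat_lit 0xe620)
  (IL.C (nat_lit 2) (nat_lit 0x38aad724) (nat_lit 0xc600) (nat_lit 0xd730)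
  (IL.C (nat_lit 2) (nat_lit 0x1d7c71be) (nat_lit 0xc600) (nat_lit 0xe621)
  (IL.C (nat_lit 2) (nat_lit 0x3d10be8a) (nat_lit 0xc600) (nat_lit 0xd731)
  (IL.C (nat_lit 2) (nat_lit 0x13f77d3e) (nat_lit 0xc600) (nat_lit 0xe640)
  (IL.C (nat_lit 2) (nat_lit 0xfd93f80) (nat_lit 0xc600) (nat_lit 0xd750)
  (IL.C (nat_lit 2) (nat_lit 0x309b9154) (nat_lit 0xc600) (nat_lit 0xa762)
  (IL.C (nat_lit 2) (nat_lit 0x2973e28a) (nat_lit 0xc600) (nat_lit 0x9763)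
  (IL.C (nat_lit 1) (nat_lit 0xce740a8) (nat_lit 0xd410) (nat_lit 0xb610)
  (IL.C (nat_lit 1) (nat_lit 0x2b8226c2) (nat_lit 0xd410) (nat_lit 0x9665)
  (IL.C (nat_lit 1) (nat_lit 0x209d6b40) (nat_lit 0x9411) (nat_lit 0xb521)
  (IL.C (nat_lit 2) (nat_lit 0x3e4957a8) (nat_lit 0x9411) (nat_lit 0xd510)
  (IL.C (nat_lit 2) (nat_lit 0x38ad826) (nat_lit 0x9411) (nat_lit 0xd511)
  (IL.C (nat_lit 2) (nat_lit 0x2716898) (nat_lit 0x9411) (nat_lit 0xd721)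
  (IL.C (nat_lit 2) (nat_lit 0x2f489d68) (nat_lit 0x9411) (nat_lit 0xd552)
  (IL.C (nat_lit 2) (nat_lit 0x4065050) (nat_lit 0x9411) (nat_lit 0xb655) its1_34))))))))))))))))))))))))))))))))))))))))

noncomputable def its1_32 : IL :=
  (IL.C (nat_lit 1) (nat_lit 0x585aa562) (nat_lit 0x7222) (nat_lit 0xd331)
  (IL.C (nat_lit 1) (nat_lit 0x83b069e8) (nat_lit 0x7222) (nat_lit 0x7640)
  (IL.C (nat_lit 1) (nat_lit 0x64d3bb12) (nat_lit 0x7222) (nat_lit 0x8432)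
  (IL.C (nat_lit 1) (nat_lit 0x8edacd94) (nat_lit 0x7222) (nat_lit 0x6433)
  (IL.C (nat_lit 1) (nat_lit 0x73347e02) (nat_lit 0x7222) (nat_lit 0xc422)
  (IL.C (nat_lit 1) (nat_lit 0x88a95f34) (nat_lit 0x7222) (nat_lit 0x8542)
  (IL.C (nat_lit 1) (nat_lit 0x4ecaedba) (nat_lit 0x7222) (nat_lit 0x8443)
  (IL.C (nat_lit 1) (nat_lit 0x22d53ace) (nat_lit 0x7222) (nat_lit 0xb433)
  (IL.C (nat_lit 1) (nat_lit 0x8225beb0) (nat_lit 0x7222) (nat_lit 0xa643)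
  (IL.C (nat_lit 2) (nat_lit 0x4bb2d650) (nat_lit 0x7222) (nat_lit 0x7620)
  (IL.C (nat_lit 2) (nat_lit 0x1a71c2da) (nat_lit 0x7222) (nat_lit 0x6332)
  (IL.C (nat_lit 2) (nat_lit 0x5bf71086) (nat_lit 0x7222) (nat_lit 0x7621)
  (IL.C (nat_lit 2) (nat_lit 0x29070abc) (nat_lit 0x7222) (nat_lit 0xc222)
  (IL.C (nat_lit 2) (nat_lit 0x3d80f15c) (nat_lit 0x7222) (nat_lit 0x8522)
  (IL.C (nat_lit 2) (nat_lit 0x681a6a60) (nat_lit 0x7222) (nat_lit 0x6532)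
  (IL.C (nat_lit 2) (nat_lit 0x7077428) (nat_lit 0x7222) (nat_lit 0xb332)
  (IL.C (nat_lit 2) (nat_lit 0x95b094e2) (nat_lit 0x7222) (nat_lit 0xb532)
  (IL.C (nat_lit 2) (nat_lit 0x7845565c) (nat_lit 0x7222) (nat_lit 0x9742)
  (IL.C (nat_lit 2) (nat_lit 0x14d03fbc) (nat_lit 0x7222) (nat_lit 0xa652)
  (IL.C (nat_lit 2) (nat_lit 0x42ba1d56) (nat_lit 0x7222) (nat_lit 0x9653)
  (IL.C (nat_lit 0) (nat_lit 0x5a641b2fd92) (nat_lit 0x8321) (nat_lit 0x8321)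
  (IL.C (nat_lit 1) (nat_lit 0x8c2925ec) (nat_lit 0x8321) (nat_lit 0x7611)
  (IL.C (nat_lit 1) (nat_lit 0x21004570) (nat_lit 0x8321) (nat_lit 0xc221)
  (IL.C (nat_lit 1) (nat_lit 0x310fb49e) (nat_lit 0x8321) (nat_lit 0x8742)
  (IL.C (nat_lit 2) (nat_lit 0xce4bf0d4) (nat_lit 0x8321) (nat_lit 0x8521)
  (IL.C (nat_lit 2) (nat_lit 0xa4b36282) (nat_lit 0x8321) (nat_lit 0x9721)
  (IL.C (nat_lit 1) (nat_lit 0xa4e0919c) (nat_lit 0xb410) (nat_lit 0x8620)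
  (IL.C (nat_lit 1) (nat_lit 0x13bd633e) (nat_lit 0xb410) (nat_lit 0xd521)
  (IL.C (nat_lit 1) (nat_lit 0x799d5376) (nat_lit 0xb410) (nat_lit 0x6651)
  (IL.C (nat_lit 2) (nat_lit 0x252657e8) (nat_lit 0xb410) (nat_lit 0xd520)
  (IL.C (nat_lit 2) (nat_lit 0xcb57f38a) (nat_lit 0xb410) (nat_lit 0x6650)
  (IL.C (nat_lit 2) (nat_lit 0x5a328b6a) (nat_lit 0xb600) (nat_lit 0xd322)
  (IL.C (nat_lit 1) (nat_lit 0x5014fd64) (nat_lit 0x8420) (nat_lit 0x9650)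
  (IL.C (nat_lit 1) (nat_lit 0xb11ec76c) (nat_lit 0x8420) (nat_lit 0x6653)
  (IL.C (nat_lit 2) (nat_lit 0x8944d032) (nat_lit 0x8420) (nat_lit 0x9630)
  (IL.C (nat_lit 2) (nat_lit 0x83ea74b2) (nat_lit 0x8420) (nat_lit 0x6633)
  (IL.C (nat_lit 2) (nat_lit 0x5423ee54) (nat_lit 0x8420) (nat_lit 0xb633)
  (IL.C (nat_lit 2) (nat_lit 0x11bae6a4) (nat_lit 0x8420) (nat_lit 0x6655)
  (IL.C (nat_lit 2) (nat_lit 0x1237fe26) (nat_lit 0x8420) (nat_lit 0xb653)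
  (IL.C (nat_lit 2) (nat_lit 0x14197ad6) (nat_lit 0x4431) (nat_lit 0x6532) its1_33))))))))))))))))))))))))))))))))))))))))

noncomputable def its1_31 : IL :=
  (IL.C (nat_lit 1) (nat_lit 0x103b82fe8) (nat_lit 0x5322) (nat_lit 0x9433)
  (IL.C (nat_lit 2) (nat_lit 0x470a7720) (nat_lit 0x5322) (nat_lit 0x4332)
  (IL.C (nat_lit 2) (nat_lit 0x15efdae86) (nat_lit 0x5322) (nat_lit 0x8430)
  (IL.C (nat_lit 2) (nat_lit 0x112674b1e) (nat_lit 0x5322) (nat_lit 0x5522)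
  (IL.C (nat_lit 2) (nat_lit 0x64573f40) (nat_lit 0x5322) (nat_lit 0x8431)
  (IL.C (nat_lit 2) (nat_lit 0x43e6024c) (nat_lit 0x5322) (nat_lit 0xa322)
  (IL.C (nat_lit 2) (nat_lit 0x43075226) (nat_lit 0x5322) (nat_lit 0xe222)
  (IL.C (nat_lit 2) (nat_lit 0x60a77e80) (nat_lit 0x5322) (nat_lit 0x9332)
  (IL.C (nat_lit 2) (nat_lit 0x8e85db14) (nat_lit 0x5322) (nat_lit 0xa522)
  (IL.C (nat_lit 2) (nat_lit 0x132e8104) (nat_lit 0x5322) (nat_lit 0xd333)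
  (IL.C (nat_lit 2) (nat_lit 0x69f51a38) (nat_lit 0x5322) (nat_lit 0xd533)
  (IL.C (nat_lit 0) (nat_lit 0x9ac44ea6ae) (nat_lit 0x8411) (nat_lit 0x8411)
  (IL.C (nat_lit 1) (nat_lit 0x1344223c) (nat_lit 0x8411) (nat_lit 0x8651)
  (IL.C (nat_lit 2) (nat_lit 0x95e9a90) (nat_lit 0x8411) (nat_lit 0xa611)
  (IL.C (nat_lit 0) (nat_lit 0x6f6f0d2996a) (nat_lit 0xa221) (nat_lit 0xa221)
  (IL.C (nat_lit 2) (nat_lit 0x60ec5d46) (nat_lit 0xa221) (nat_lit 0x8322)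
  (IL.C (nat_lit 2) (nat_lit 0x188a6a9a) (nat_lit 0xa221) (nat_lit 0xd331)
  (IL.C (nat_lit 0) (nat_lit 0x47898ed6e40) (nat_lit 0xb311) (nat_lit 0xb311)
  (IL.C (nat_lit 1) (nat_lit 0x294fc06e) (nat_lit 0xb311) (nat_lit 0xb510)
  (IL.C (nat_lit 1) (nat_lit 0xc6934a6) (nat_lit 0xb311) (nat_lit 0xb511)
  (IL.C (nat_lit 1) (nat_lit 0x24717dea) (nat_lit 0xb311) (nat_lit 0xd331)
  (IL.C (nat_lit 1) (nat_lit 0x21e60b30) (nat_lit 0xb311) (nat_lit 0xd531)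
  (IL.C (nat_lit 1) (nat_lit 0x58a0fd8) (nat_lit 0xb311) (nat_lit 0xc641)
  (IL.C (nat_lit 2) (nat_lit 0x480f4bd2) (nat_lit 0xb311) (nat_lit 0xa611)
  (IL.C (nat_lit 2) (nat_lit 0x76439e2) (nat_lit 0xb311) (nat_lit 0xc621)
  (IL.C (nat_lit 2) (nat_lit 0x4f30ed8) (nat_lit 0xb311) (nat_lit 0xb721)
  (IL.C (nat_lit 2) (nat_lit 0x9de625e) (nat_lit 0xb311) (nat_lit 0xb741)
  (IL.C (nat_lit 0) (nat_lit 0x2287e2e29a4) (nat_lit 0x8610) (nat_lit 0x8610)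
  (IL.C (nat_lit 1) (nat_lit 0xcb09f6e) (nat_lit 0x8610) (nat_lit 0x8611)
  (IL.C (nat_lit 1) (nat_lit 0x6edfff7e) (nat_lit 0x8610) (nat_lit 0x8441)
  (IL.C (nat_lit 1) (nat_lit 0x5e565ce) (nat_lit 0x8610) (nat_lit 0xd721)
  (IL.C (nat_lit 1) (nat_lit 0x1b17e364) (nat_lit 0x8610) (nat_lit 0xd740)
  (IL.C (nat_lit 2) (nat_lit 0xfb53ffde) (nat_lit 0x8610) (nat_lit 0xd510)
  (IL.C (nat_lit 2) (nat_lit 0x4802da06) (nat_lit 0x8610) (nat_lit 0x7661)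
  (IL.C (nat_lit 2) (nat_lit 0x17f61906) (nat_lit 0x8610) (nat_lit 0xa641)
  (IL.C (nat_lit 2) (nat_lit 0x1ef2c0cc) (nat_lit 0x8610) (nat_lit 0xc660)
  (IL.C (nat_lit 2) (nat_lit 0x3fbe9b60) (nat_lit 0x8610) (nat_lit 0x9762)
  (IL.C (nat_lit 0) (nat_lit 0x2326fd1a45a6) (nat_lit 0x7222) (nat_lit 0x7222)
  (IL.C (nat_lit 1) (nat_lit 0x20a4f3c) (nat_lit 0x7222) (nat_lit 0x8322)
  (IL.C (nat_lit 1) (nat_lit 0x5d838a50) (nat_lit 0x7222) (nat_lit 0x7422) its1_32))))))))))))))))))))))))))))))))))))))))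

noncomputable def its1_30 : IL :=
  (IL.C (nat_lit 2) (nat_lit 0xa74d83a) (nat_lit 0xa600) (nat_lit 0xe622)
  (IL.C (nat_lit 2) (nat_lit 0x58a2d962) (nat_lit 0xa600) (nat_lit 0xe642)
  (IL.C (nat_lit 0) (nat_lit 0xc737896f1810) (nat_lit 0x5421) (nat_lit 0x5421)
  (IL.C (nat_lit 1) (nat_lit 0x17f107f9e) (nat_lit 0x5421) (nat_lit 0x6433)
  (IL.C (nat_lit 1) (nat_lit 0xd200cdec) (nat_lit 0x5421) (nat_lit 0xc422)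
  (IL.C (nat_lit 1) (nat_lit 0x5f9a4a4e) (nat_lit 0x5421) (nat_lit 0xb433)
  (IL.C (nat_lit 2) (nat_lit 0x19581a392) (nat_lit 0x5421) (nat_lit 0x4431)
  (IL.C (nat_lit 2) (nat_lit 0xc19dd1ae) (nat_lit 0x5421) (nat_lit 0x7422)
  (IL.C (nat_lit 1) (nat_lit 0x128e9d9e6) (nat_lit 0x6520) (nat_lit 0x6430)
  (IL.C (nat_lit 1) (nat_lit 0x2c3941d92) (nat_lit 0x6520) (nat_lit 0x6431)
  (IL.C (nat_lit 1) (nat_lit 0xa4aed964) (nat_lit 0x6520) (nat_lit 0xd433)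
  (IL.C (nat_lit 2) (nat_lit 0x99adc262) (nat_lit 0x6520) (nat_lit 0xb430)
  (IL.C (nat_lit 2) (nat_lit 0x2913c9fa) (nat_lit 0x6520) (nat_lit 0x4443)
  (IL.C (nat_lit 0) (nat_lit 0x37d91f211ee) (nat_lit 0xd500) (nat_lit 0xd500)
  (IL.C (nat_lit 1) (nat_lit 0x25b4aaf8) (nat_lit 0xd500) (nat_lit 0xb320)
  (IL.C (nat_lit 1) (nat_lit 0x19198a3e) (nat_lit 0xd500) (nat_lit 0xd510)
  (IL.C (nat_lit 1) (nat_lit 0x44e19c68) (nat_lit 0xd500) (nat_lit 0x6541)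
  (IL.C (nat_lit 1) (nat_lit 0x35012f4c) (nat_lit 0xd500) (nat_lit 0xd720)
  (IL.C (nat_lit 1) (nat_lit 0x12901cb8) (nat_lit 0xd500) (nat_lit 0xd332)
  (IL.C (nat_lit 1) (nat_lit 0xb26d9ec) (nat_lit 0xd500) (nat_lit 0xb540)
  (IL.C (nat_lit 1) (nat_lit 0xc00d996c) (nat_lit 0xd500) (nat_lit 0x5444)
  (IL.C (nat_lit 1) (nat_lit 0x282883ec) (nat_lit 0xd500) (nat_lit 0x7644)
  (IL.C (nat_lit 1) (nat_lit 0x140e2065a) (nat_lit 0xd500) (nat_lit 0x6655)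
  (IL.C (nat_lit 2) (nat_lit 0x12390c022) (nat_lit 0xd500) (nat_lit 0x6540)
  (IL.C (nat_lit 2) (nat_lit 0x139e66a) (nat_lit 0xd500) (nat_lit 0x8440)
  (IL.C (nat_lit 2) (nat_lit 0x11f86d9ec) (nat_lit 0xd500) (nat_lit 0x7660)
  (IL.C (nat_lit 2) (nat_lit 0x970536a4) (nat_lit 0xd500) (nat_lit 0xa640)
  (IL.C (nat_lit 2) (nat_lit 0x41e4eef4) (nat_lit 0xd500) (nat_lit 0xd721)
  (IL.C (nat_lit 2) (nat_lit 0x658b4596) (nat_lit 0xd500) (nat_lit 0x9650)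
  (IL.C (nat_lit 2) (nat_lit 0xb6b96348) (nat_lit 0xd500) (nat_lit 0x7661)
  (IL.C (nat_lit 2) (nat_lit 0x680696f8) (nat_lit 0xd500) (nat_lit 0xa641)
  (IL.C (nat_lit 2) (nat_lit 0xf13ec6) (nat_lit 0xd500) (nat_lit 0xd740)
  (IL.C (nat_lit 2) (nat_lit 0xb3d78548) (nat_lit 0xd500) (nat_lit 0x9651)
  (IL.C (nat_lit 2) (nat_lit 0x1238a0f4) (nat_lit 0xd500) (nat_lit 0xd552)
  (IL.C (nat_lit 0) (nat_lit 0x62435df3f4ac) (nat_lit 0x5322) (nat_lit 0x5322)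
  (IL.C (nat_lit 1) (nat_lit 0x211e1b0ee) (nat_lit 0x5322) (nat_lit 0x8520)
  (IL.C (nat_lit 1) (nat_lit 0x2bf6f01e) (nat_lit 0x5322) (nat_lit 0x8521)
  (IL.C (nat_lit 1) (nat_lit 0xf2d13a9c) (nat_lit 0x5322) (nat_lit 0x4433)
  (IL.C (nat_lit 1) (nat_lit 0x265cb4a) (nat_lit 0x5322) (nat_lit 0xa432)
  (IL.C (nat_lit 1) (nat_lit 0xfc343654) (nat_lit 0x5322) (nat_lit 0xe422) its1_31))))))))))))))))))))))))))))))))))))))))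

noncomputable def its1_29 : IL :=
  (IL.C (nat_lit 2) (nat_lit 0x225127fe) (nat_lit 0xc220) (nat_lit 0xb331)
  (IL.C (nat_lit 2) (nat_lit 0x6f1085e) (nat_lit 0xc220) (nat_lit 0xe222)
  (IL.C (nat_lit 2) (nat_lit 0x1ff67b74) (nat_lit 0xc220) (nat_lit 0xb530)
  (IL.C (nat_lit 2) (nat_lit 0x2f7c623e) (nat_lit 0xc220) (nat_lit 0xd333)
  (IL.C (nat_lit 0) (nat_lit 0x6fc731cd6c94) (nat_lit 0x7420) (nat_lit 0x7420)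
  (IL.C (nat_lit 1) (nat_lit 0x14daac574) (nat_lit 0x7420) (nat_lit 0x4332)
  (IL.C (nat_lit 1) (nat_lit 0x3e8a555e) (nat_lit 0x7420) (nat_lit 0x6530)
  (IL.C (nat_lit 1) (nat_lit 0x1a11bd232) (nat_lit 0x7420) (nat_lit 0x6531)
  (IL.C (nat_lit 1) (nat_lit 0x8950f7a) (nat_lit 0x7420) (nat_lit 0x6550)
  (IL.C (nat_lit 1) (nat_lit 0x3e2edad8) (nat_lit 0x7420) (nat_lit 0xb530)
  (IL.C (nat_lit 1) (nat_lit 0x5f70023c) (nat_lit 0x7420) (nat_lit 0x5542)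
  (IL.C (nat_lit 1) (nat_lit 0xcdb667a0) (nat_lit 0x7420) (nat_lit 0x9433)
  (IL.C (nat_lit 2) (nat_lit 0x9406dd5e) (nat_lit 0x7420) (nat_lit 0x5322)
  (IL.C (nat_lit 2) (nat_lit 0x13862c5ca) (nat_lit 0x7420) (nat_lit 0x8520)
  (IL.C (nat_lit 2) (nat_lit 0x217faced6) (nat_lit 0x7420) (nat_lit 0x7421)
  (IL.C (nat_lit 2) (nat_lit 0x70ead060) (nat_lit 0x7420) (nat_lit 0x8430)
  (IL.C (nat_lit 2) (nat_lit 0x19c9f11be) (nat_lit 0x7420) (nat_lit 0xc420)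
  (IL.C (nat_lit 2) (nat_lit 0x15697c996) (nat_lit 0x7420) (nat_lit 0x7440)
  (IL.C (nat_lit 2) (nat_lit 0xce647dc8) (nat_lit 0x7420) (nat_lit 0xa522)
  (IL.C (nat_lit 2) (nat_lit 0x72734474) (nat_lit 0x7420) (nat_lit 0x5443)
  (IL.C (nat_lit 2) (nat_lit 0x1468372d8) (nat_lit 0x7420) (nat_lit 0xa432)
  (IL.C (nat_lit 2) (nat_lit 0x1299a363c) (nat_lit 0x7420) (nat_lit 0xe422)
  (IL.C (nat_lit 2) (nat_lit 0x14eb29d18) (nat_lit 0x7420) (nat_lit 0x9532)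
  (IL.C (nat_lit 2) (nat_lit 0x6dcd1b68) (nat_lit 0x7420) (nat_lit 0xd533)
  (IL.C (nat_lit 0) (nat_lit 0x4a85c82baf6) (nat_lit 0xa600) (nat_lit 0xa600)
  (IL.C (nat_lit 1) (nat_lit 0x1d036a02) (nat_lit 0xa600) (nat_lit 0xd330)
  (IL.C (nat_lit 1) (nat_lit 0x450c259a) (nat_lit 0xa600) (nat_lit 0x8630)
  (IL.C (nat_lit 1) (nat_lit 0x15b231c6) (nat_lit 0xa600) (nat_lit 0xc620)
  (IL.C (nat_lit 1) (nat_lit 0x8f064a8) (nat_lit 0xa600) (nat_lit 0xb720)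
  (IL.C (nat_lit 1) (nat_lit 0x2610a226) (nat_lit 0xa600) (nat_lit 0xb740)
  (IL.C (nat_lit 1) (nat_lit 0x55465118) (nat_lit 0xa600) (nat_lit 0xd732)
  (IL.C (nat_lit 1) (nat_lit 0x832d43b0) (nat_lit 0xa600) (nat_lit 0xd752)
  (IL.C (nat_lit 1) (nat_lit 0x27587b0c) (nat_lit 0xa600) (nat_lit 0xd743)
  (IL.C (nat_lit 1) (nat_lit 0x211a90ec) (nat_lit 0xa600) (nat_lit 0x7665)
  (IL.C (nat_lit 2) (nat_lit 0x27405352) (nat_lit 0xa600) (nat_lit 0xa610)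
  (IL.C (nat_lit 2) (nat_lit 0x149c98a4) (nat_lit 0xa600) (nat_lit 0xd700)
  (IL.C (nat_lit 2) (nat_lit 0x5715ef2) (nat_lit 0xa600) (nat_lit 0xd530)
  (IL.C (nat_lit 2) (nat_lit 0x5fbedc76) (nat_lit 0xa600) (nat_lit 0x8650)
  (IL.C (nat_lit 2) (nat_lit 0x5e5e182e) (nat_lit 0xa600) (nat_lit 0xc640)
  (IL.C (nat_lit 2) (nat_lit 0x1cb9619e) (nat_lit 0xa600) (nat_lit 0x9760) its1_30))))))))))))))))))))))))))))))))))))))))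

noncomputable def its1_28 : IL :=
  (IL.C (nat_lit 1) (nat_lit 0x4943c7d4) (nat_lit 0xa410) (nat_lit 0x9552)
  (IL.C (nat_lit 1) (nat_lit 0x17de1d08) (nat_lit 0xa410) (nat_lit 0xe442)
  (IL.C (nat_lit 1) (nat_lit 0x3df5e10) (nat_lit 0xa410) (nat_lit 0xc652)
  (IL.C (nat_lit 2) (nat_lit 0x83e65260) (nat_lit 0xa410) (nat_lit 0x8520)
  (IL.C (nat_lit 2) (nat_lit 0xd3fdcf8) (nat_lit 0xa410) (nat_lit 0x9511)
  (IL.C (nat_lit 2) (nat_lit 0x243f04ac) (nat_lit 0xa410) (nat_lit 0x8430)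
  (IL.C (nat_lit 2) (nat_lit 0x1aaa5b70e) (nat_lit 0xa410) (nat_lit 0x7440)
  (IL.C (nat_lit 2) (nat_lit 0x91ea53cc) (nat_lit 0xa410) (nat_lit 0x8431)
  (IL.C (nat_lit 2) (nat_lit 0xb0fbe40e) (nat_lit 0xa410) (nat_lit 0xa322)
  (IL.C (nat_lit 2) (nat_lit 0x30531d08) (nat_lit 0xa410) (nat_lit 0x9720)
  (IL.C (nat_lit 2) (nat_lit 0x81c00ac) (nat_lit 0xa410) (nat_lit 0x6550)
  (IL.C (nat_lit 2) (nat_lit 0x6364ea50) (nat_lit 0xa410) (nat_lit 0x8540)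
  (IL.C (nat_lit 2) (nat_lit 0xa0052f98) (nat_lit 0xa410) (nat_lit 0xb530)
  (IL.C (nat_lit 2) (nat_lit 0x7f6ce532) (nat_lit 0xa410) (nat_lit 0xc421)
  (IL.C (nat_lit 2) (nat_lit 0xda9abad2) (nat_lit 0xa410) (nat_lit 0x9332)
  (IL.C (nat_lit 2) (nat_lit 0xb226fed6) (nat_lit 0xa410) (nat_lit 0xa630)
  (IL.C (nat_lit 2) (nat_lit 0xbc74965e) (nat_lit 0xa410) (nat_lit 0xb531)
  (IL.C (nat_lit 2) (nat_lit 0x16394a76) (nat_lit 0xa410) (nat_lit 0xa631)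
  (IL.C (nat_lit 2) (nat_lit 0x5294d9b6) (nat_lit 0xa410) (nat_lit 0x9740)
  (IL.C (nat_lit 2) (nat_lit 0x6d0abe22) (nat_lit 0xa410) (nat_lit 0xa650)
  (IL.C (nat_lit 2) (nat_lit 0x96239c38) (nat_lit 0xa410) (nat_lit 0x5544)
  (IL.C (nat_lit 2) (nat_lit 0x8de0642) (nat_lit 0xa410) (nat_lit 0xd533)
  (IL.C (nat_lit 2) (nat_lit 0x381d6c6c) (nat_lit 0xa410) (nat_lit 0x9543)
  (IL.C (nat_lit 2) (nat_lit 0x1620ab7e) (nat_lit 0xa410) (nat_lit 0xb752)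
  (IL.C (nat_lit 2) (nat_lit 0x45ac77ae) (nat_lit 0xa410) (nat_lit 0x7654)
  (IL.C (nat_lit 2) (nat_lit 0x782e2836) (nat_lit 0xa410) (nat_lit 0xd553)
  (IL.C (nat_lit 2) (nat_lit 0x3414a3a) (nat_lit 0xa410) (nat_lit 0xc643)
  (IL.C (nat_lit 2) (nat_lit 0x56bdd394) (nat_lit 0xa410) (nat_lit 0xb743)
  (IL.C (nat_lit 0) (nat_lit 0x895c28e117c) (nat_lit 0xc220) (nat_lit 0xc220)
  (IL.C (nat_lit 1) (nat_lit 0x6b3b03a) (nat_lit 0xc220) (nat_lit 0xc600)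
  (IL.C (nat_lit 1) (nat_lit 0x15c80274) (nat_lit 0xc220) (nat_lit 0xb700)
  (IL.C (nat_lit 1) (nat_lit 0x23c9c4a4) (nat_lit 0xc220) (nat_lit 0x8520)
  (IL.C (nat_lit 1) (nat_lit 0x2595d4fc) (nat_lit 0xc220) (nat_lit 0xc420)
  (IL.C (nat_lit 1) (nat_lit 0xeeea758) (nat_lit 0xc220) (nat_lit 0x9720)
  (IL.C (nat_lit 1) (nat_lit 0x2ada43d4) (nat_lit 0xc220) (nat_lit 0xa630)
  (IL.C (nat_lit 1) (nat_lit 0x664f03bc) (nat_lit 0xc220) (nat_lit 0xc632)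
  (IL.C (nat_lit 1) (nat_lit 0x1dafa8f4) (nat_lit 0xc220) (nat_lit 0xb732)
  (IL.C (nat_lit 2) (nat_lit 0x2390c2d4) (nat_lit 0xc220) (nat_lit 0xc221)
  (IL.C (nat_lit 2) (nat_lit 0x6106e88a) (nat_lit 0xc220) (nat_lit 0x8430)
  (IL.C (nat_lit 2) (nat_lit 0x1587bf06) (nat_lit 0xc220) (nat_lit 0xb330) its1_29))))))))))))))))))))))))))))))))))))))))

noncomputable def its1_27 : IL :=
  (IL.C (nat_lit 2) (nat_lit 0x29ffd1ac) (nat_lit 0x7610) (nat_lit 0x8540)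
  (IL.C (nat_lit 2) (nat_lit 0x16e3c48b8) (nat_lit 0x7610) (nat_lit 0xe422)
  (IL.C (nat_lit 2) (nat_lit 0x5b8814c8) (nat_lit 0x7610) (nat_lit 0xc632)
  (IL.C (nat_lit 1) (nat_lit 0x5188e534) (nat_lit 0x9600) (nat_lit 0xd742)
  (IL.C (nat_lit 2) (nat_lit 0x6c676f4) (nat_lit 0x9600) (nat_lit 0xd320)
  (IL.C (nat_lit 2) (nat_lit 0x1a7df1dc) (nat_lit 0x9600) (nat_lit 0xd520)
  (IL.C (nat_lit 2) (nat_lit 0x5d4e8512) (nat_lit 0x9600) (nat_lit 0xd430)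
  (IL.C (nat_lit 2) (nat_lit 0x48b8e918) (nat_lit 0x9600) (nat_lit 0xd722)
  (IL.C (nat_lit 0) (nat_lit 0x1340c63b0c50) (nat_lit 0x6511) (nat_lit 0x6511)
  (IL.C (nat_lit 1) (nat_lit 0xf9c677be) (nat_lit 0x6511) (nat_lit 0x7640)
  (IL.C (nat_lit 1) (nat_lit 0x1113828f2) (nat_lit 0x6511) (nat_lit 0xd530)
  (IL.C (nat_lit 1) (nat_lit 0x8e1e080c) (nat_lit 0x6511) (nat_lit 0xc621)
  (IL.C (nat_lit 1) (nat_lit 0xe49d4278) (nat_lit 0x6511) (nat_lit 0xb721)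
  (IL.C (nat_lit 1) (nat_lit 0x173804d68) (nat_lit 0x6511) (nat_lit 0xc422)
  (IL.C (nat_lit 1) (nat_lit 0x48a7772) (nat_lit 0x6511) (nat_lit 0xb532)
  (IL.C (nat_lit 1) (nat_lit 0x114420828) (nat_lit 0x6511) (nat_lit 0xa652)
  (IL.C (nat_lit 2) (nat_lit 0xc1ef503c) (nat_lit 0x6511) (nat_lit 0xb510)
  (IL.C (nat_lit 2) (nat_lit 0x7e7f49d2) (nat_lit 0x6511) (nat_lit 0x7621)
  (IL.C (nat_lit 2) (nat_lit 0x156cc6cc6) (nat_lit 0x6511) (nat_lit 0xa421)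
  (IL.C (nat_lit 2) (nat_lit 0x10fb5e224) (nat_lit 0x6511) (nat_lit 0x9521)
  (IL.C (nat_lit 2) (nat_lit 0x47211b00) (nat_lit 0x6511) (nat_lit 0x9431)
  (IL.C (nat_lit 2) (nat_lit 0x6fdd14c8) (nat_lit 0x6511) (nat_lit 0x7641)
  (IL.C (nat_lit 2) (nat_lit 0xa9714e26) (nat_lit 0x6511) (nat_lit 0xd550)
  (IL.C (nat_lit 2) (nat_lit 0xbd28b48c) (nat_lit 0x6511) (nat_lit 0xb433)
  (IL.C (nat_lit 2) (nat_lit 0xb8091904) (nat_lit 0x6511) (nat_lit 0xd551)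
  (IL.C (nat_lit 2) (nat_lit 0x298a5066) (nat_lit 0x6511) (nat_lit 0x9742)
  (IL.C (nat_lit 2) (nat_lit 0x1996a75d2) (nat_lit 0x6511) (nat_lit 0xa643)
  (IL.C (nat_lit 1) (nat_lit 0xb362b2c2) (nat_lit 0x9320) (nat_lit 0xd530)
  (IL.C (nat_lit 0) (nat_lit 0x10602d856fe6) (nat_lit 0xa410) (nat_lit 0xa410)
  (IL.C (nat_lit 1) (nat_lit 0x4ab5dafc) (nat_lit 0xa410) (nat_lit 0x9510)
  (IL.C (nat_lit 1) (nat_lit 0x620a3740) (nat_lit 0xa410) (nat_lit 0xa411)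
  (IL.C (nat_lit 1) (nat_lit 0x5488cb96) (nat_lit 0xa410) (nat_lit 0x8521)
  (IL.C (nat_lit 1) (nat_lit 0x4abd6580) (nat_lit 0xa410) (nat_lit 0xc420)
  (IL.C (nat_lit 1) (nat_lit 0x8530f8e2) (nat_lit 0xa410) (nat_lit 0x7441)
  (IL.C (nat_lit 1) (nat_lit 0x403c8b98) (nat_lit 0xa410) (nat_lit 0x9721)
  (IL.C (nat_lit 1) (nat_lit 0x5e040770) (nat_lit 0xa410) (nat_lit 0x6551)
  (IL.C (nat_lit 1) (nat_lit 0x1160102e) (nat_lit 0xa410) (nat_lit 0xe422)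
  (IL.C (nat_lit 1) (nat_lit 0x453638ee) (nat_lit 0xa410) (nat_lit 0x9741)
  (IL.C (nat_lit 1) (nat_lit 0xd078d3c0) (nat_lit 0xa410) (nat_lit 0xa651)
  (IL.C (nat_lit 1) (nat_lit 0x7cd84dec) (nat_lit 0xa410) (nat_lit 0xa542) its1_28))))))))))))))))))))))))))))))))))))))))

noncomputable def its1_26 : IL :=
  (IL.C (nat_lit 2) (nat_lit 0x52c236d0) (nat_lit 0xd310) (nat_lit 0x9630)
  (IL.C (nat_lit 2) (nat_lit 0x3734b05e) (nat_lit 0xd310) (nat_lit 0xa621)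
  (IL.C (nat_lit 2) (nat_lit 0x15905f488) (nat_lit 0xd310) (nat_lit 0x7622)
  (IL.C (nat_lit 2) (nat_lit 0xecfb3d2) (nat_lit 0xd310) (nat_lit 0xd332)
  (IL.C (nat_lit 2) (nat_lit 0x4bdf5252) (nat_lit 0xd310) (nat_lit 0x7660)
  (IL.C (nat_lit 2) (nat_lit 0x657235a8) (nat_lit 0xd310) (nat_lit 0x8632)
  (IL.C (nat_lit 2) (nat_lit 0x1025195c) (nat_lit 0xd310) (nat_lit 0xd532)
  (IL.C (nat_lit 2) (nat_lit 0x4b80efe) (nat_lit 0xb220) (nat_lit 0xd400)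
  (IL.C (nat_lit 1) (nat_lit 0x10871780) (nat_lit 0xd400) (nat_lit 0xb600)
  (IL.C (nat_lit 2) (nat_lit 0x8ef2413e) (nat_lit 0xd400) (nat_lit 0x6611)
  (IL.C (nat_lit 2) (nat_lit 0xc52e65c) (nat_lit 0xd400) (nat_lit 0xb610)
  (IL.C (nat_lit 1) (nat_lit 0x3baef1e8) (nat_lit 0x9410) (nat_lit 0xa620)
  (IL.C (nat_lit 1) (nat_lit 0xa8e4c2e2) (nat_lit 0x9410) (nat_lit 0xa621)
  (IL.C (nat_lit 1) (nat_lit 0x242fd8a6) (nat_lit 0x9410) (nat_lit 0xd532)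
  (IL.C (nat_lit 1) (nat_lit 0x69259912) (nat_lit 0x9410) (nat_lit 0xd552)
  (IL.C (nat_lit 1) (nat_lit 0x7d21ee94) (nat_lit 0x9410) (nat_lit 0xb653)
  (IL.C (nat_lit 2) (nat_lit 0x1c9ee64a) (nat_lit 0x9410) (nat_lit 0xd500)
  (IL.C (nat_lit 2) (nat_lit 0x490eb410) (nat_lit 0x9410) (nat_lit 0xa222)
  (IL.C (nat_lit 2) (nat_lit 0x3f98d022) (nat_lit 0x9410) (nat_lit 0xb520)
  (IL.C (nat_lit 2) (nat_lit 0x460308fa) (nat_lit 0x9410) (nat_lit 0xb521)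
  (IL.C (nat_lit 2) (nat_lit 0x4f775fd4) (nat_lit 0x9410) (nat_lit 0x6655)
  (IL.C (nat_lit 0) (nat_lit 0x40b740b0c48) (nat_lit 0xb500) (nat_lit 0xb500)
  (IL.C (nat_lit 1) (nat_lit 0x2bb41316) (nat_lit 0xb500) (nat_lit 0xb720)
  (IL.C (nat_lit 1) (nat_lit 0x57fa6c2c) (nat_lit 0xb500) (nat_lit 0xd530)
  (IL.C (nat_lit 1) (nat_lit 0x1d8f6f68) (nat_lit 0xb500) (nat_lit 0xc640)
  (IL.C (nat_lit 2) (nat_lit 0x4e190fc6) (nat_lit 0xb500) (nat_lit 0xa600)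
  (IL.C (nat_lit 2) (nat_lit 0xc8f804e) (nat_lit 0xb500) (nat_lit 0xb510)
  (IL.C (nat_lit 2) (nat_lit 0x28bc3052) (nat_lit 0xb500) (nat_lit 0xc620)
  (IL.C (nat_lit 2) (nat_lit 0xa7cbb9c) (nat_lit 0xb500) (nat_lit 0xb740)
  (IL.C (nat_lit 1) (nat_lit 0xf47c786) (nat_lit 0xd211) (nat_lit 0xb441)
  (IL.C (nat_lit 2) (nat_lit 0x2ff7664a) (nat_lit 0xd211) (nat_lit 0xb611)
  (IL.C (nat_lit 0) (nat_lit 0x919b22d441a) (nat_lit 0x7610) (nat_lit 0x7610)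
  (IL.C (nat_lit 1) (nat_lit 0x11cbf0bd2) (nat_lit 0x7610) (nat_lit 0xc221)
  (IL.C (nat_lit 1) (nat_lit 0x16257e498) (nat_lit 0x7610) (nat_lit 0x8521)
  (IL.C (nat_lit 1) (nat_lit 0x1a15ed68) (nat_lit 0x7610) (nat_lit 0x9721)
  (IL.C (nat_lit 1) (nat_lit 0x46230952) (nat_lit 0x7610) (nat_lit 0x9740)
  (IL.C (nat_lit 1) (nat_lit 0x15d6733f8) (nat_lit 0x7610) (nat_lit 0xc652)
  (IL.C (nat_lit 1) (nat_lit 0x5d6f1618) (nat_lit 0x7610) (nat_lit 0xb752)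
  (IL.C (nat_lit 2) (nat_lit 0x3d83f6dc) (nat_lit 0x7610) (nat_lit 0xc600)
  (IL.C (nat_lit 2) (nat_lit 0x7c00ff6a) (nat_lit 0x7610) (nat_lit 0x7611) its1_27))))))))))))))))))))))))))))))))))))))))

noncomputable def its1_25 : IL :=
  (IL.C (nat_lit 2) (nat_lit 0x4e4d1d1e) (nat_lit 0x8320) (nat_lit 0x7632)
  (IL.C (nat_lit 2) (nat_lit 0x3f773b38) (nat_lit 0x8320) (nat_lit 0xe422)
  (IL.C (nat_lit 2) (nat_lit 0x483e41a8) (nat_lit 0x8320) (nat_lit 0x8742)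
  (IL.C (nat_lit 1) (nat_lit 0x3cc1ba94) (nat_lit 0x5222) (nat_lit 0xd433)
  (IL.C (nat_lit 2) (nat_lit 0x65588d70) (nat_lit 0x5222) (nat_lit 0x6430)
  (IL.C (nat_lit 1) (nat_lit 0xa584ec2) (nat_lit 0xb400) (nat_lit 0x9600)
  (IL.C (nat_lit 1) (nat_lit 0xc2e777a) (nat_lit 0xb400) (nat_lit 0xd520)
  (IL.C (nat_lit 2) (nat_lit 0xc511136) (nat_lit 0xb211) (nat_lit 0x9611)
  (IL.C (nat_lit 2) (nat_lit 0x93174c) (nat_lit 0xb211) (nat_lit 0xd431)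
  (IL.C (nat_lit 1) (nat_lit 0x1cc05eb7a) (nat_lit 0x6411) (nat_lit 0xb522)
  (IL.C (nat_lit 2) (nat_lit 0x1f6fed776) (nat_lit 0x6411) (nat_lit 0xd520)
  (IL.C (nat_lit 1) (nat_lit 0x747fe77a) (nat_lit 0x4430) (nat_lit 0xb532)
  (IL.C (nat_lit 2) (nat_lit 0x2f41c814) (nat_lit 0x4430) (nat_lit 0x6532)
  (IL.C (nat_lit 1) (nat_lit 0x51c2560e) (nat_lit 0x8221) (nat_lit 0xd310)
  (IL.C (nat_lit 1) (nat_lit 0x851d55e) (nat_lit 0x8221) (nat_lit 0x9631)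
  (IL.C (nat_lit 1) (nat_lit 0x401afd2c) (nat_lit 0x8221) (nat_lit 0x8643)
  (IL.C (nat_lit 2) (nat_lit 0x1006e4e92) (nat_lit 0x6610) (nat_lit 0xd400)
  (IL.C (nat_lit 2) (nat_lit 0xd482d9f6) (nat_lit 0x6610) (nat_lit 0xb221)
  (IL.C (nat_lit 2) (nat_lit 0x2004cc35a) (nat_lit 0x6610) (nat_lit 0xd522)
  (IL.C (nat_lit 2) (nat_lit 0x151078370) (nat_lit 0x6610) (nat_lit 0xd432)
  (IL.C (nat_lit 2) (nat_lit 0x24bb2a84e) (nat_lit 0x6321) (nat_lit 0xd310)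
  (IL.C (nat_lit 2) (nat_lit 0x6d63c27e) (nat_lit 0x6321) (nat_lit 0xd433)
  (IL.C (nat_lit 0) (nat_lit 0x4d3a09c38f4) (nat_lit 0xd310) (nat_lit 0xd310)
  (IL.C (nat_lit 1) (nat_lit 0x31b16b06) (nat_lit 0xd310) (nat_lit 0xd500)
  (IL.C (nat_lit 1) (nat_lit 0x8a33aca) (nat_lit 0xd310) (nat_lit 0xd311)
  (IL.C (nat_lit 1) (nat_lit 0x245b80ce) (nat_lit 0xd310) (nat_lit 0xd510)
  (IL.C (nat_lit 1) (nat_lit 0x66dffd0) (nat_lit 0xd310) (nat_lit 0xd720)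
  (IL.C (nat_lit 1) (nat_lit 0x485296be) (nat_lit 0xd310) (nat_lit 0x9631)
  (IL.C (nat_lit 1) (nat_lit 0x114e4218) (nat_lit 0xd310) (nat_lit 0xd721)
  (IL.C (nat_lit 1) (nat_lit 0xb459e25a) (nat_lit 0xd310) (nat_lit 0x6633)
  (IL.C (nat_lit 1) (nat_lit 0x137e0022a) (nat_lit 0xd310) (nat_lit 0x7661)
  (IL.C (nat_lit 1) (nat_lit 0x8f7afe4) (nat_lit 0xd310) (nat_lit 0xc622)
  (IL.C (nat_lit 1) (nat_lit 0x118db4f6) (nat_lit 0xd310) (nat_lit 0xb722)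
  (IL.C (nat_lit 1) (nat_lit 0x49f30a28) (nat_lit 0xd310) (nat_lit 0xb633)
  (IL.C (nat_lit 2) (nat_lit 0x66745ffe) (nat_lit 0xd310) (nat_lit 0x8610)
  (IL.C (nat_lit 2) (nat_lit 0x6fc2b8) (nat_lit 0xd310) (nat_lit 0xb320)
  (IL.C (nat_lit 2) (nat_lit 0x11780638) (nat_lit 0xd310) (nat_lit 0xa222)
  (IL.C (nat_lit 2) (nat_lit 0x16fdf7ee) (nat_lit 0xd310) (nat_lit 0xb321)
  (IL.C (nat_lit 2) (nat_lit 0xa2c018a) (nat_lit 0xd310) (nat_lit 0x9322)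
  (IL.C (nat_lit 2) (nat_lit 0x2177363c) (nat_lit 0xd310) (nat_lit 0xa620) its1_26))))))))))))))))))))))))))))))))))))))))

noncomputable def its1_24 : IL :=
  (IL.C (nat_lit 2) (nat_lit 0x5e72d642) (nat_lit 0x8410) (nat_lit 0xd531)
  (IL.C (nat_lit 0) (nat_lit 0xa8489097fc8) (nat_lit 0xa220) (nat_lit 0xa220)
  (IL.C (nat_lit 1) (nat_lit 0x5a292b56) (nat_lit 0xa220) (nat_lit 0xd530)
  (IL.C (nat_lit 1) (nat_lit 0xabdc346) (nat_lit 0xa220) (nat_lit 0xb332)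
  (IL.C (nat_lit 2) (nat_lit 0x15949258) (nat_lit 0xa220) (nat_lit 0x9320)
  (IL.C (nat_lit 2) (nat_lit 0x27c528fa) (nat_lit 0xa220) (nat_lit 0xc222)
  (IL.C (nat_lit 0) (nat_lit 0x6a6d09a30a0) (nat_lit 0xb310) (nat_lit 0xb310)
  (IL.C (nat_lit 1) (nat_lit 0x1ee8bf18) (nat_lit 0xb310) (nat_lit 0xb500)
  (IL.C (nat_lit 1) (nat_lit 0x5d4eafc0) (nat_lit 0xb310) (nat_lit 0xb311)
  (IL.C (nat_lit 1) (nat_lit 0x22816472) (nat_lit 0xb310) (nat_lit 0xb510)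
  (IL.C (nat_lit 1) (nat_lit 0x6b212e8e) (nat_lit 0xb310) (nat_lit 0xc620)
  (IL.C (nat_lit 1) (nat_lit 0x31fa5e0) (nat_lit 0xb310) (nat_lit 0xb720)
  (IL.C (nat_lit 1) (nat_lit 0x67b38568) (nat_lit 0xb310) (nat_lit 0xc621)
  (IL.C (nat_lit 1) (nat_lit 0x47fae6ec) (nat_lit 0xb310) (nat_lit 0xd531)
  (IL.C (nat_lit 2) (nat_lit 0x5090ff04) (nat_lit 0xb310) (nat_lit 0xd530)
  (IL.C (nat_lit 2) (nat_lit 0x1af63070) (nat_lit 0xb310) (nat_lit 0xb721)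
  (IL.C (nat_lit 0) (nat_lit 0x24499e5a5f4) (nat_lit 0x8600) (nat_lit 0x8600)
  (IL.C (nat_lit 1) (nat_lit 0x151eaa8) (nat_lit 0x8600) (nat_lit 0xd500)
  (IL.C (nat_lit 1) (nat_lit 0x37730102) (nat_lit 0x8600) (nat_lit 0xd720)
  (IL.C (nat_lit 1) (nat_lit 0x2f8543fc) (nat_lit 0x8600) (nat_lit 0xd721)
  (IL.C (nat_lit 2) (nat_lit 0x96d01b9e) (nat_lit 0x8600) (nat_lit 0xd310)
  (IL.C (nat_lit 2) (nat_lit 0x58fe769e) (nat_lit 0x8600) (nat_lit 0x8610)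
  (IL.C (nat_lit 2) (nat_lit 0xb7dad7f0) (nat_lit 0x8600) (nat_lit 0xd510)
  (IL.C (nat_lit 2) (nat_lit 0x2e00e084) (nat_lit 0x8600) (nat_lit 0x7660)
  (IL.C (nat_lit 2) (nat_lit 0x15a9210e) (nat_lit 0x8600) (nat_lit 0x7661)
  (IL.C (nat_lit 2) (nat_lit 0x230eba4) (nat_lit 0x8600) (nat_lit 0xd740)
  (IL.C (nat_lit 2) (nat_lit 0x7a658f6) (nat_lit 0x8600) (nat_lit 0xc660)
  (IL.C (nat_lit 2) (nat_lit 0x3f175cf0) (nat_lit 0x8600) (nat_lit 0x9762)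
  (IL.C (nat_lit 0) (nat_lit 0x747c2254eca) (nat_lit 0x8320) (nat_lit 0x8320)
  (IL.C (nat_lit 1) (nat_lit 0x58c0240a) (nat_lit 0x8320) (nat_lit 0xc221)
  (IL.C (nat_lit 1) (nat_lit 0x91de44a0) (nat_lit 0x8320) (nat_lit 0xc632)
  (IL.C (nat_lit 2) (nat_lit 0x1692c63ee) (nat_lit 0x8320) (nat_lit 0x7610)
  (IL.C (nat_lit 2) (nat_lit 0xb5d049c) (nat_lit 0x8320) (nat_lit 0xc220)
  (IL.C (nat_lit 2) (nat_lit 0x43700ab2) (nat_lit 0x8320) (nat_lit 0x5322)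
  (IL.C (nat_lit 2) (nat_lit 0xc2d4816) (nat_lit 0x8320) (nat_lit 0xc600)
  (IL.C (nat_lit 2) (nat_lit 0x2d869090) (nat_lit 0x8320) (nat_lit 0x8520)
  (IL.C (nat_lit 2) (nat_lit 0x64b9c08e) (nat_lit 0x8320) (nat_lit 0x8521)
  (IL.C (nat_lit 2) (nat_lit 0x72ddc76) (nat_lit 0x8320) (nat_lit 0xa322)
  (IL.C (nat_lit 2) (nat_lit 0x5f29909a) (nat_lit 0x8320) (nat_lit 0x9720)
  (IL.C (nat_lit 2) (nat_lit 0x1281e804) (nat_lit 0x8320) (nat_lit 0xe222) its1_25))))))))))))))))))))))))))))))))))))))))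

noncomputable def its1_23 : IL :=
  (IL.C (nat_lit 1) (nat_lit 0x77af734) (nat_lit 0x7221) (nat_lit 0x5322)
  (IL.C (nat_lit 1) (nat_lit 0x9bbe9098) (nat_lit 0x7221) (nat_lit 0x4332)
  (IL.C (nat_lit 1) (nat_lit 0xb8376094) (nat_lit 0x7221) (nat_lit 0x8520)
  (IL.C (nat_lit 1) (nat_lit 0x8929c188) (nat_lit 0x7221) (nat_lit 0x9332)
  (IL.C (nat_lit 1) (nat_lit 0x6a224452) (nat_lit 0x7221) (nat_lit 0xa630)
  (IL.C (nat_lit 1) (nat_lit 0xd19c7124) (nat_lit 0x7221) (nat_lit 0xa432)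
  (IL.C (nat_lit 1) (nat_lit 0xa6faf236) (nat_lit 0x7221) (nat_lit 0x9532)
  (IL.C (nat_lit 1) (nat_lit 0x4c38d5ec) (nat_lit 0x7221) (nat_lit 0x7643)
  (IL.C (nat_lit 1) (nat_lit 0xc33291ba) (nat_lit 0x7221) (nat_lit 0xd533)
  (IL.C (nat_lit 2) (nat_lit 0x17711460) (nat_lit 0x7221) (nat_lit 0x6331)
  (IL.C (nat_lit 2) (nat_lit 0xfc794ce2) (nat_lit 0x7221) (nat_lit 0x6530)
  (IL.C (nat_lit 2) (nat_lit 0x26c1304c) (nat_lit 0x7221) (nat_lit 0x7421)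
  (IL.C (nat_lit 2) (nat_lit 0xccc435e4) (nat_lit 0x7221) (nat_lit 0x8430)
  (IL.C (nat_lit 2) (nat_lit 0xc1a2b468) (nat_lit 0x7221) (nat_lit 0x8521)
  (IL.C (nat_lit 2) (nat_lit 0x1d6479f3c) (nat_lit 0x7221) (nat_lit 0x6531)
  (IL.C (nat_lit 2) (nat_lit 0x57caaf9c) (nat_lit 0x7221) (nat_lit 0x8431)
  (IL.C (nat_lit 2) (nat_lit 0x6a786e52) (nat_lit 0x7221) (nat_lit 0xa322)
  (IL.C (nat_lit 2) (nat_lit 0x220af810) (nat_lit 0x7221) (nat_lit 0x9720)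
  (IL.C (nat_lit 2) (nat_lit 0x246d9fc2e) (nat_lit 0x7221) (nat_lit 0xa522)
  (IL.C (nat_lit 2) (nat_lit 0x23128b57e) (nat_lit 0x7221) (nat_lit 0xe422)
  (IL.C (nat_lit 2) (nat_lit 0x86cd6e2a) (nat_lit 0x7221) (nat_lit 0x9433)
  (IL.C (nat_lit 2) (nat_lit 0x76fc184) (nat_lit 0x7221) (nat_lit 0x7652)
  (IL.C (nat_lit 0) (nat_lit 0x8bda591901e8) (nat_lit 0x5420) (nat_lit 0x5420)
  (IL.C (nat_lit 1) (nat_lit 0x2c3e4564) (nat_lit 0x5420) (nat_lit 0x5421)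
  (IL.C (nat_lit 1) (nat_lit 0x2ae992be) (nat_lit 0x5420) (nat_lit 0x4431)
  (IL.C (nat_lit 1) (nat_lit 0x1aa1f5834) (nat_lit 0x5420) (nat_lit 0x7422)
  (IL.C (nat_lit 2) (nat_lit 0xaf457944) (nat_lit 0x5420) (nat_lit 0x4430)
  (IL.C (nat_lit 2) (nat_lit 0x121300e6e) (nat_lit 0x5420) (nat_lit 0x6433)
  (IL.C (nat_lit 2) (nat_lit 0x73557602) (nat_lit 0x5420) (nat_lit 0xc422)
  (IL.C (nat_lit 2) (nat_lit 0x1ad9a8b0) (nat_lit 0x5420) (nat_lit 0xb433)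
  (IL.C (nat_lit 1) (nat_lit 0x316b141a) (nat_lit 0x9220) (nat_lit 0xd430)
  (IL.C (nat_lit 0) (nat_lit 0x619efd61dbc) (nat_lit 0x8410) (nat_lit 0x8410)
  (IL.C (nat_lit 1) (nat_lit 0x3ebdb03a) (nat_lit 0x8410) (nat_lit 0xb510)
  (IL.C (nat_lit 1) (nat_lit 0x8994cdbe) (nat_lit 0x8410) (nat_lit 0x8650)
  (IL.C (nat_lit 1) (nat_lit 0xa3893eea) (nat_lit 0x8410) (nat_lit 0xc621)
  (IL.C (nat_lit 1) (nat_lit 0x253f5bbe) (nat_lit 0x8410) (nat_lit 0x7641)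
  (IL.C (nat_lit 1) (nat_lit 0x23a356be) (nat_lit 0x8410) (nat_lit 0xd550)
  (IL.C (nat_lit 1) (nat_lit 0x5615b45e) (nat_lit 0x8410) (nat_lit 0xc640)
  (IL.C (nat_lit 1) (nat_lit 0x78712302) (nat_lit 0x8410) (nat_lit 0x7665)
  (IL.C (nat_lit 2) (nat_lit 0x7d36db50) (nat_lit 0x8410) (nat_lit 0xb721) its1_24))))))))))))))))))))))))))))))))))))))))

noncomputable def its1_22 : IL :=
  (IL.C (nat_lit 2) (nat_lit 0x11a1c00) (nat_lit 0xa400) (nat_lit 0x9720)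
  (IL.C (nat_lit 2) (nat_lit 0x38610da0) (nat_lit 0xa400) (nat_lit 0xb530)
  (IL.C (nat_lit 2) (nat_lit 0x3b87269c) (nat_lit 0xa400) (nat_lit 0xa630)
  (IL.C (nat_lit 2) (nat_lit 0x4bd92e9c) (nat_lit 0xa400) (nat_lit 0xc440)
  (IL.C (nat_lit 2) (nat_lit 0x2d61fa52) (nat_lit 0xa400) (nat_lit 0x9740)
  (IL.C (nat_lit 2) (nat_lit 0xfbdf5ba) (nat_lit 0xa400) (nat_lit 0xe422)
  (IL.C (nat_lit 2) (nat_lit 0x349f0bc8) (nat_lit 0xa400) (nat_lit 0xa650)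
  (IL.C (nat_lit 2) (nat_lit 0x9f861862) (nat_lit 0xa400) (nat_lit 0x5544)
  (IL.C (nat_lit 2) (nat_lit 0x6e677172) (nat_lit 0xa400) (nat_lit 0x9543)
  (IL.C (nat_lit 2) (nat_lit 0x548ece9a) (nat_lit 0xa400) (nat_lit 0xc643)
  (IL.C (nat_lit 0) (nat_lit 0x9707d94f768) (nat_lit 0xa211) (nat_lit 0xa211)
  (IL.C (nat_lit 1) (nat_lit 0x2ee5716) (nat_lit 0xa211) (nat_lit 0x9510)
  (IL.C (nat_lit 1) (nat_lit 0x288f8bc8) (nat_lit 0xa211) (nat_lit 0x8321)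
  (IL.C (nat_lit 1) (nat_lit 0x1b854b06) (nat_lit 0xa211) (nat_lit 0x9511)
  (IL.C (nat_lit 1) (nat_lit 0x561bd598) (nat_lit 0xa211) (nat_lit 0x8521)
  (IL.C (nat_lit 1) (nat_lit 0xab0658b0) (nat_lit 0xa211) (nat_lit 0x8431)
  (IL.C (nat_lit 1) (nat_lit 0xd702d62) (nat_lit 0xa211) (nat_lit 0xb331)
  (IL.C (nat_lit 1) (nat_lit 0x17b0a684) (nat_lit 0xa211) (nat_lit 0xc421)
  (IL.C (nat_lit 1) (nat_lit 0x3bb051d8) (nat_lit 0xa211) (nat_lit 0x9721)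
  (IL.C (nat_lit 1) (nat_lit 0x282d52a0) (nat_lit 0xa211) (nat_lit 0xa522)
  (IL.C (nat_lit 1) (nat_lit 0x41deaf16) (nat_lit 0xa211) (nat_lit 0xb531)
  (IL.C (nat_lit 1) (nat_lit 0x2bbe2c36) (nat_lit 0xa211) (nat_lit 0xa631)
  (IL.C (nat_lit 1) (nat_lit 0x2c49e34) (nat_lit 0xa211) (nat_lit 0x9433)
  (IL.C (nat_lit 1) (nat_lit 0xc0588c8) (nat_lit 0xa211) (nat_lit 0xd533)
  (IL.C (nat_lit 1) (nat_lit 0x383b99b8) (nat_lit 0xa211) (nat_lit 0xe442)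
  (IL.C (nat_lit 1) (nat_lit 0x2570c598) (nat_lit 0xa211) (nat_lit 0xd553)
  (IL.C (nat_lit 2) (nat_lit 0x8f248a1a) (nat_lit 0xa211) (nat_lit 0x8320)
  (IL.C (nat_lit 2) (nat_lit 0x2161806) (nat_lit 0xa211) (nat_lit 0x9311)
  (IL.C (nat_lit 2) (nat_lit 0x4fd3f3e2) (nat_lit 0xa211) (nat_lit 0xa410)
  (IL.C (nat_lit 2) (nat_lit 0x47f09c24) (nat_lit 0xa211) (nat_lit 0xa411)
  (IL.C (nat_lit 2) (nat_lit 0x94c4158) (nat_lit 0xa211) (nat_lit 0xc221)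
  (IL.C (nat_lit 2) (nat_lit 0x387af4a2) (nat_lit 0xa211) (nat_lit 0x9332)
  (IL.C (nat_lit 2) (nat_lit 0x8d4d4da) (nat_lit 0xa211) (nat_lit 0xe621)
  (IL.C (nat_lit 2) (nat_lit 0x41457ef6) (nat_lit 0xa211) (nat_lit 0xe422)
  (IL.C (nat_lit 2) (nat_lit 0x86b2c4a6) (nat_lit 0xa211) (nat_lit 0x9532)
  (IL.C (nat_lit 2) (nat_lit 0x133d54c2) (nat_lit 0xa211) (nat_lit 0xd731)
  (IL.C (nat_lit 2) (nat_lit 0x9ed6b2) (nat_lit 0xa211) (nat_lit 0x9741)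
  (IL.C (nat_lit 2) (nat_lit 0x5cc367fa) (nat_lit 0xa211) (nat_lit 0xa651)
  (IL.C (nat_lit 0) (nat_lit 0x4db3d2fa2f52) (nat_lit 0x7221) (nat_lit 0x7221)
  (IL.C (nat_lit 1) (nat_lit 0xf5795d40) (nat_lit 0x7221) (nat_lit 0x7420) its1_23))))))))))))))))))))))))))))))))))))))))

noncomputable def its1_21 : IL :=
  (IL.C (nat_lit 1) (nat_lit 0xcfbf9604) (nat_lit 0x6510) (nat_lit 0xa420)
  (IL.C (nat_lit 1) (nat_lit 0xf6010c1a) (nat_lit 0x6510) (nat_lit 0x9431)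
  (IL.C (nat_lit 2) (nat_lit 0x702bf922) (nat_lit 0x6510) (nat_lit 0x5420)
  (IL.C (nat_lit 2) (nat_lit 0x17ac388b2) (nat_lit 0x6510) (nat_lit 0x4430)
  (IL.C (nat_lit 2) (nat_lit 0x78429d54) (nat_lit 0x6510) (nat_lit 0x6511)
  (IL.C (nat_lit 2) (nat_lit 0x1894a5fdc) (nat_lit 0x6510) (nat_lit 0x5421)
  (IL.C (nat_lit 2) (nat_lit 0x2ddf244ca) (nat_lit 0x6510) (nat_lit 0x9520)
  (IL.C (nat_lit 2) (nat_lit 0x683d3f8) (nat_lit 0x6510) (nat_lit 0x9430)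
  (IL.C (nat_lit 2) (nat_lit 0xeb1122fe) (nat_lit 0x6510) (nat_lit 0xa421)
  (IL.C (nat_lit 2) (nat_lit 0xb50e0e84) (nat_lit 0x6510) (nat_lit 0x9521)
  (IL.C (nat_lit 2) (nat_lit 0x1d3cba62) (nat_lit 0x6510) (nat_lit 0x7640)
  (IL.C (nat_lit 2) (nat_lit 0x6892e18) (nat_lit 0x6510) (nat_lit 0xd530)
  (IL.C (nat_lit 2) (nat_lit 0xc4b86c12) (nat_lit 0x6510) (nat_lit 0xc422)
  (IL.C (nat_lit 2) (nat_lit 0x24fe0b54) (nat_lit 0x6510) (nat_lit 0x7442)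
  (IL.C (nat_lit 2) (nat_lit 0x272959ee) (nat_lit 0x6510) (nat_lit 0x6552)
  (IL.C (nat_lit 2) (nat_lit 0x19dbe5c50) (nat_lit 0x6510) (nat_lit 0xb532)
  (IL.C (nat_lit 2) (nat_lit 0x5130e2b2) (nat_lit 0x6510) (nat_lit 0xb433)
  (IL.C (nat_lit 0) (nat_lit 0xb1012d06838) (nat_lit 0xa400) (nat_lit 0xa400)
  (IL.C (nat_lit 1) (nat_lit 0x17e58ce) (nat_lit 0xa400) (nat_lit 0x8320)
  (IL.C (nat_lit 1) (nat_lit 0xf8eda06) (nat_lit 0xa400) (nat_lit 0xa410)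
  (IL.C (nat_lit 1) (nat_lit 0x70fd2b00) (nat_lit 0xa400) (nat_lit 0xc220)
  (IL.C (nat_lit 1) (nat_lit 0x2b365f86) (nat_lit 0xa400) (nat_lit 0x9510)
  (IL.C (nat_lit 1) (nat_lit 0x2d152e7a) (nat_lit 0xa400) (nat_lit 0xb330)
  (IL.C (nat_lit 1) (nat_lit 0x432d80e6) (nat_lit 0xa400) (nat_lit 0x6550)
  (IL.C (nat_lit 1) (nat_lit 0x1a5c6f38) (nat_lit 0xa400) (nat_lit 0x8540)
  (IL.C (nat_lit 1) (nat_lit 0x5c21c59e) (nat_lit 0xa400) (nat_lit 0x9332)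
  (IL.C (nat_lit 1) (nat_lit 0x30f5d8a4) (nat_lit 0xa400) (nat_lit 0xb550)
  (IL.C (nat_lit 1) (nat_lit 0xcf332fa) (nat_lit 0xa400) (nat_lit 0xa542)
  (IL.C (nat_lit 1) (nat_lit 0x521ef436) (nat_lit 0xa400) (nat_lit 0x9552)
  (IL.C (nat_lit 1) (nat_lit 0x9ae21bd6) (nat_lit 0xa400) (nat_lit 0xd533)
  (IL.C (nat_lit 1) (nat_lit 0x55cf8cd8) (nat_lit 0xa400) (nat_lit 0xc652)
  (IL.C (nat_lit 1) (nat_lit 0x2cbb1384) (nat_lit 0xa400) (nat_lit 0xb752)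
  (IL.C (nat_lit 1) (nat_lit 0x1307c3846) (nat_lit 0xa400) (nat_lit 0x7654)
  (IL.C (nat_lit 1) (nat_lit 0x33e58b48) (nat_lit 0xa400) (nat_lit 0xb743)
  (IL.C (nat_lit 2) (nat_lit 0xc8362ce) (nat_lit 0xa400) (nat_lit 0x9500)
  (IL.C (nat_lit 2) (nat_lit 0x1ee24ad4) (nat_lit 0xa400) (nat_lit 0x8520)
  (IL.C (nat_lit 2) (nat_lit 0x7839f868) (nat_lit 0xa400) (nat_lit 0x8430)
  (IL.C (nat_lit 2) (nat_lit 0x11682776) (nat_lit 0xa400) (nat_lit 0xc420)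
  (IL.C (nat_lit 2) (nat_lit 0x40c20694) (nat_lit 0xa400) (nat_lit 0x7440)
  (IL.C (nat_lit 2) (nat_lit 0x5bd7ef9c) (nat_lit 0xa400) (nat_lit 0xa322) its1_22))))))))))))))))))))))))))))))))))))))))

noncomputable def its1_20 : IL :=
  (IL.C (nat_lit 2) (nat_lit 0x13cfce148) (nat_lit 0x5411) (nat_lit 0xa522)
  (IL.C (nat_lit 2) (nat_lit 0xd4877760) (nat_lit 0x5411) (nat_lit 0xe422)
  (IL.C (nat_lit 2) (nat_lit 0x9e606166) (nat_lit 0x5411) (nat_lit 0x9741)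
  (IL.C (nat_lit 2) (nat_lit 0x5601e170) (nat_lit 0x5411) (nat_lit 0xc654)
  (IL.C (nat_lit 1) (nat_lit 0x8321b3da) (nat_lit 0xd210) (nat_lit 0x6610)
  (IL.C (nat_lit 1) (nat_lit 0x17d4fcd6) (nat_lit 0xd210) (nat_lit 0xb600)
  (IL.C (nat_lit 1) (nat_lit 0x451bd4be) (nat_lit 0xd210) (nat_lit 0xb610)
  (IL.C (nat_lit 2) (nat_lit 0xfb32c2d2) (nat_lit 0xd210) (nat_lit 0x6611)
  (IL.C (nat_lit 0) (nat_lit 0xb21da619ac8) (nat_lit 0x7600) (nat_lit 0x7600)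
  (IL.C (nat_lit 1) (nat_lit 0x423633f0) (nat_lit 0x7600) (nat_lit 0xa400)
  (IL.C (nat_lit 1) (nat_lit 0x418517f2) (nat_lit 0x7600) (nat_lit 0x8320)
  (IL.C (nat_lit 1) (nat_lit 0x43470e7c) (nat_lit 0x7600) (nat_lit 0xc220)
  (IL.C (nat_lit 1) (nat_lit 0x78500846) (nat_lit 0x7600) (nat_lit 0xc221)
  (IL.C (nat_lit 1) (nat_lit 0x493f1d5c) (nat_lit 0x7600) (nat_lit 0xc420)
  (IL.C (nat_lit 1) (nat_lit 0x5ee6ea7e) (nat_lit 0x7600) (nat_lit 0xe222)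
  (IL.C (nat_lit 1) (nat_lit 0x393649c4) (nat_lit 0x7600) (nat_lit 0x8540)
  (IL.C (nat_lit 1) (nat_lit 0xb7ebbaaa) (nat_lit 0x7600) (nat_lit 0xe422)
  (IL.C (nat_lit 1) (nat_lit 0xbe597636) (nat_lit 0x7600) (nat_lit 0xc652)
  (IL.C (nat_lit 1) (nat_lit 0x7a66a5c4) (nat_lit 0x7600) (nat_lit 0xb752)
  (IL.C (nat_lit 2) (nat_lit 0x53885f4c) (nat_lit 0x7600) (nat_lit 0x7610)
  (IL.C (nat_lit 2) (nat_lit 0xe0ef8c3c) (nat_lit 0x7600) (nat_lit 0xa410)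
  (IL.C (nat_lit 2) (nat_lit 0x57b13e28) (nat_lit 0x7600) (nat_lit 0xc600)
  (IL.C (nat_lit 2) (nat_lit 0x19a24a50) (nat_lit 0x7600) (nat_lit 0x8520)
  (IL.C (nat_lit 2) (nat_lit 0xf2576b2) (nat_lit 0x7600) (nat_lit 0x8521)
  (IL.C (nat_lit 2) (nat_lit 0xc35aa550) (nat_lit 0x7600) (nat_lit 0x9720)
  (IL.C (nat_lit 2) (nat_lit 0x97cb73c0) (nat_lit 0x7600) (nat_lit 0xc421)
  (IL.C (nat_lit 2) (nat_lit 0x5588fac0) (nat_lit 0x7600) (nat_lit 0xe620)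
  (IL.C (nat_lit 2) (nat_lit 0x50e21002) (nat_lit 0x7600) (nat_lit 0x9721)
  (IL.C (nat_lit 2) (nat_lit 0x4a2b3b42) (nat_lit 0x7600) (nat_lit 0xc440)
  (IL.C (nat_lit 2) (nat_lit 0x1264a46a4) (nat_lit 0x7600) (nat_lit 0x9740)
  (IL.C (nat_lit 2) (nat_lit 0x370d5c22) (nat_lit 0x7600) (nat_lit 0xc632)
  (IL.C (nat_lit 1) (nat_lit 0x3acea9d6) (nat_lit 0x9211) (nat_lit 0xd310)
  (IL.C (nat_lit 1) (nat_lit 0x8fee4a) (nat_lit 0x9211) (nat_lit 0xa641)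
  (IL.C (nat_lit 1) (nat_lit 0x26204cba) (nat_lit 0x9211) (nat_lit 0xd433)
  (IL.C (nat_lit 1) (nat_lit 0x2e2c3ee0) (nat_lit 0x9211) (nat_lit 0xd543)
  (IL.C (nat_lit 2) (nat_lit 0xdf452b4) (nat_lit 0x9211) (nat_lit 0xd311)
  (IL.C (nat_lit 2) (nat_lit 0x1f65df98) (nat_lit 0x9211) (nat_lit 0xb431)
  (IL.C (nat_lit 0) (nat_lit 0x6230f4bdcd26) (nat_lit 0x6510) (nat_lit 0x6510)
  (IL.C (nat_lit 1) (nat_lit 0xa90a14b6) (nat_lit 0x6510) (nat_lit 0x4431)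
  (IL.C (nat_lit 1) (nat_lit 0x3e764120) (nat_lit 0x6510) (nat_lit 0xb510) its1_21))))))))))))))))))))))))))))))))))))))))

noncomputable def its1_19 : IL :=
  (IL.C (nat_lit 1) (nat_lit 0x86e99826) (nat_lit 0x6600) (nat_lit 0xb440)
  (IL.C (nat_lit 1) (nat_lit 0x73f01c1c) (nat_lit 0x6600) (nat_lit 0xd522)
  (IL.C (nat_lit 1) (nat_lit 0x6246422e) (nat_lit 0x6600) (nat_lit 0xd432)
  (IL.C (nat_lit 2) (nat_lit 0x43b82664) (nat_lit 0x6600) (nat_lit 0xd400)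
  (IL.C (nat_lit 2) (nat_lit 0x22291e4e) (nat_lit 0x6600) (nat_lit 0xb221)
  (IL.C (nat_lit 2) (nat_lit 0x27a9f22a) (nat_lit 0x6600) (nat_lit 0xb420)
  (IL.C (nat_lit 2) (nat_lit 0x471e13d8) (nat_lit 0x6600) (nat_lit 0xd322)
  (IL.C (nat_lit 0) (nat_lit 0x611d847c40) (nat_lit 0xd111) (nat_lit 0xd111)
  (IL.C (nat_lit 1) (nat_lit 0x33f5abe) (nat_lit 0xd111) (nat_lit 0x9611)
  (IL.C (nat_lit 1) (nat_lit 0x44398ee) (nat_lit 0xd111) (nat_lit 0xa661)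
  (IL.C (nat_lit 1) (nat_lit 0x127d0832) (nat_lit 0xd111) (nat_lit 0x9766)
  (IL.C (nat_lit 1) (nat_lit 0x19638ce) (nat_lit 0xd111) (nat_lit 0xe666)
  (IL.C (nat_lit 2) (nat_lit 0xe261680a) (nat_lit 0x6320) (nat_lit 0xd310)
  (IL.C (nat_lit 2) (nat_lit 0xde6a3aae) (nat_lit 0x6320) (nat_lit 0xd433)
  (IL.C (nat_lit 0) (nat_lit 0x10825273a0c) (nat_lit 0xd300) (nat_lit 0xd300)
  (IL.C (nat_lit 1) (nat_lit 0x116bef3a) (nat_lit 0xd300) (nat_lit 0xd720)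
  (IL.C (nat_lit 2) (nat_lit 0x30841258) (nat_lit 0xd300) (nat_lit 0x8600)
  (IL.C (nat_lit 2) (nat_lit 0x7b0af7e) (nat_lit 0xd300) (nat_lit 0xd500)
  (IL.C (nat_lit 1) (nat_lit 0x1901f40) (nat_lit 0x9400) (nat_lit 0xb320)
  (IL.C (nat_lit 1) (nat_lit 0x28520f8) (nat_lit 0x9400) (nat_lit 0xb520)
  (IL.C (nat_lit 1) (nat_lit 0x3f5efb48) (nat_lit 0x9400) (nat_lit 0xa620)
  (IL.C (nat_lit 1) (nat_lit 0x6c4bce5a) (nat_lit 0x9400) (nat_lit 0xd532)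
  (IL.C (nat_lit 1) (nat_lit 0x19679d82) (nat_lit 0x9400) (nat_lit 0xb653)
  (IL.C (nat_lit 2) (nat_lit 0x15636d60) (nat_lit 0x9400) (nat_lit 0xd500)
  (IL.C (nat_lit 2) (nat_lit 0x5ff62496) (nat_lit 0x9400) (nat_lit 0xa222)
  (IL.C (nat_lit 2) (nat_lit 0x3195bfbc) (nat_lit 0x9400) (nat_lit 0x6655)
  (IL.C (nat_lit 0) (nat_lit 0x19b5b2990b4a) (nat_lit 0x5411) (nat_lit 0x5411)
  (IL.C (nat_lit 1) (nat_lit 0x702f6444) (nat_lit 0x5411) (nat_lit 0x8520)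
  (IL.C (nat_lit 1) (nat_lit 0xa04f46fe) (nat_lit 0x5411) (nat_lit 0xa411)
  (IL.C (nat_lit 1) (nat_lit 0x1749c2346) (nat_lit 0x5411) (nat_lit 0x8540)
  (IL.C (nat_lit 1) (nat_lit 0x614d3406) (nat_lit 0x5411) (nat_lit 0x7441)
  (IL.C (nat_lit 1) (nat_lit 0x1ef79d85a) (nat_lit 0x5411) (nat_lit 0x5542)
  (IL.C (nat_lit 1) (nat_lit 0xf3bbaec4) (nat_lit 0x5411) (nat_lit 0xa432)
  (IL.C (nat_lit 1) (nat_lit 0xa074ca14) (nat_lit 0x5411) (nat_lit 0xc441)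
  (IL.C (nat_lit 1) (nat_lit 0x13da06264) (nat_lit 0x5411) (nat_lit 0xe442)
  (IL.C (nat_lit 2) (nat_lit 0x98e72e4a) (nat_lit 0x5411) (nat_lit 0xa410)
  (IL.C (nat_lit 2) (nat_lit 0xa8064bd8) (nat_lit 0x5411) (nat_lit 0x8521)
  (IL.C (nat_lit 2) (nat_lit 0x62722f58) (nat_lit 0x5411) (nat_lit 0xc420)
  (IL.C (nat_lit 2) (nat_lit 0xe6800e8) (nat_lit 0x5411) (nat_lit 0xc421)
  (IL.C (nat_lit 2) (nat_lit 0x5a8dc9fc) (nat_lit 0x5411) (nat_lit 0x8541) its1_20))))))))))))))))))))))))))))))))))))))))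

noncomputable def its1_18 : IL :=
  (IL.C (nat_lit 1) (nat_lit 0x1fa9fe6f6) (nat_lit 0x6311) (nat_lit 0x9431)
  (IL.C (nat_lit 1) (nat_lit 0xa0829014) (nat_lit 0x6311) (nat_lit 0xb332)
  (IL.C (nat_lit 1) (nat_lit 0xc50bf086) (nat_lit 0x6311) (nat_lit 0xb721)
  (IL.C (nat_lit 1) (nat_lit 0xcf6b9f6c) (nat_lit 0x6311) (nat_lit 0xc422)
  (IL.C (nat_lit 1) (nat_lit 0x8e411eee) (nat_lit 0x6311) (nat_lit 0x9722)
  (IL.C (nat_lit 1) (nat_lit 0x160518a1c) (nat_lit 0x6311) (nat_lit 0xb433)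
  (IL.C (nat_lit 2) (nat_lit 0x1719be894) (nat_lit 0x6311) (nat_lit 0x6510)
  (IL.C (nat_lit 2) (nat_lit 0x1ab4f87a) (nat_lit 0x6311) (nat_lit 0x6511)
  (IL.C (nat_lit 2) (nat_lit 0x1866e696c) (nat_lit 0x6311) (nat_lit 0xa420)
  (IL.C (nat_lit 2) (nat_lit 0x8bea174e) (nat_lit 0x6311) (nat_lit 0x8322)
  (IL.C (nat_lit 2) (nat_lit 0xdf6796a0) (nat_lit 0x6311) (nat_lit 0x9430)
  (IL.C (nat_lit 2) (nat_lit 0x602d15fe) (nat_lit 0x6311) (nat_lit 0x7621)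
  (IL.C (nat_lit 2) (nat_lit 0x8130af6a) (nat_lit 0x6311) (nat_lit 0xc222)
  (IL.C (nat_lit 2) (nat_lit 0xc107ad66) (nat_lit 0x6311) (nat_lit 0xd331)
  (IL.C (nat_lit 2) (nat_lit 0x681a1aa2) (nat_lit 0x6311) (nat_lit 0x7640)
  (IL.C (nat_lit 2) (nat_lit 0x1b5b8ba8) (nat_lit 0x6311) (nat_lit 0xc621)
  (IL.C (nat_lit 2) (nat_lit 0x1d5888fc6) (nat_lit 0x6311) (nat_lit 0xb532)
  (IL.C (nat_lit 2) (nat_lit 0x53b6ee34) (nat_lit 0x6311) (nat_lit 0xa632)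
  (IL.C (nat_lit 1) (nat_lit 0x12cfcf364) (nat_lit 0x4411) (nat_lit 0xb520)
  (IL.C (nat_lit 1) (nat_lit 0xce438d12) (nat_lit 0x4411) (nat_lit 0xb521)
  (IL.C (nat_lit 1) (nat_lit 0x11a14602) (nat_lit 0x4411) (nat_lit 0x9522)
  (IL.C (nat_lit 1) (nat_lit 0x127ec7020) (nat_lit 0x4411) (nat_lit 0xd532)
  (IL.C (nat_lit 1) (nat_lit 0x3341c928) (nat_lit 0x4411) (nat_lit 0xb655)
  (IL.C (nat_lit 2) (nat_lit 0x5a91880c) (nat_lit 0x4411) (nat_lit 0xd500)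
  (IL.C (nat_lit 2) (nat_lit 0x1a4040ea) (nat_lit 0x4411) (nat_lit 0x9651)
  (IL.C (nat_lit 2) (nat_lit 0x1bfb46304) (nat_lit 0x4411) (nat_lit 0xd552)
  (IL.C (nat_lit 1) (nat_lit 0x4dc063f2) (nat_lit 0xb210) (nat_lit 0xd430)
  (IL.C (nat_lit 1) (nat_lit 0x20050eb8) (nat_lit 0xb210) (nat_lit 0xd431)
  (IL.C (nat_lit 1) (nat_lit 0x2ade8fc2) (nat_lit 0x6410) (nat_lit 0xd520)
  (IL.C (nat_lit 1) (nat_lit 0x1ad159c8e) (nat_lit 0x6410) (nat_lit 0xb522)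
  (IL.C (nat_lit 1) (nat_lit 0x6c5bcd08) (nat_lit 0x8220) (nat_lit 0xd310)
  (IL.C (nat_lit 1) (nat_lit 0x22e8624c) (nat_lit 0x8220) (nat_lit 0x9630)
  (IL.C (nat_lit 1) (nat_lit 0xb7415968) (nat_lit 0x8220) (nat_lit 0x9631)
  (IL.C (nat_lit 1) (nat_lit 0x2a19d5ee) (nat_lit 0x8220) (nat_lit 0xd433)
  (IL.C (nat_lit 1) (nat_lit 0x3d369310) (nat_lit 0x8220) (nat_lit 0xb633)
  (IL.C (nat_lit 2) (nat_lit 0x42474b36) (nat_lit 0x8220) (nat_lit 0x9400)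
  (IL.C (nat_lit 2) (nat_lit 0xacdd8c0) (nat_lit 0x8220) (nat_lit 0x6633)
  (IL.C (nat_lit 1) (nat_lit 0xd793ac2c) (nat_lit 0x6600) (nat_lit 0xd210)
  (IL.C (nat_lit 1) (nat_lit 0x14dd00a4) (nat_lit 0x6600) (nat_lit 0xb220)
  (IL.C (nat_lit 1) (nat_lit 0x14ac62e2c) (nat_lit 0x6600) (nat_lit 0xb421) its1_19))))))))))))))))))))))))))))))))))))))))

noncomputable def its1_17 : IL :=
  (IL.C (nat_lit 2) (nat_lit 0x36ac5176) (nat_lit 0x5221) (nat_lit 0x4321)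
  (IL.C (nat_lit 2) (nat_lit 0x1931b930e) (nat_lit 0x5221) (nat_lit 0x4431)
  (IL.C (nat_lit 2) (nat_lit 0x1dec4fe66) (nat_lit 0x5221) (nat_lit 0x7422)
  (IL.C (nat_lit 2) (nat_lit 0x28f81804) (nat_lit 0x5221) (nat_lit 0x6433)
  (IL.C (nat_lit 2) (nat_lit 0x51cb2276) (nat_lit 0x5221) (nat_lit 0xc422)
  (IL.C (nat_lit 0) (nat_lit 0xa2d8f98df8) (nat_lit 0xb111) (nat_lit 0xb111)
  (IL.C (nat_lit 1) (nat_lit 0x23cd74dc) (nat_lit 0xb111) (nat_lit 0x9211)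
  (IL.C (nat_lit 1) (nat_lit 0xe21a7b0) (nat_lit 0xb111) (nat_lit 0x8611)
  (IL.C (nat_lit 1) (nat_lit 0xfbca088) (nat_lit 0xb111) (nat_lit 0x8441)
  (IL.C (nat_lit 2) (nat_lit 0x109cef6e) (nat_lit 0xb111) (nat_lit 0xd311)
  (IL.C (nat_lit 2) (nat_lit 0x14bd30e6) (nat_lit 0xb111) (nat_lit 0x9411)
  (IL.C (nat_lit 2) (nat_lit 0x6af842c) (nat_lit 0xb111) (nat_lit 0xd511)
  (IL.C (nat_lit 0) (nat_lit 0x4c76b30a32a) (nat_lit 0x8400) (nat_lit 0x8400)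
  (IL.C (nat_lit 1) (nat_lit 0x69f287ea) (nat_lit 0x8400) (nat_lit 0xa600)
  (IL.C (nat_lit 1) (nat_lit 0x18619ce8) (nat_lit 0x8400) (nat_lit 0x8650)
  (IL.C (nat_lit 2) (nat_lit 0x20de9e12) (nat_lit 0x8400) (nat_lit 0xb500)
  (IL.C (nat_lit 2) (nat_lit 0x210f36e) (nat_lit 0x8400) (nat_lit 0x8630)
  (IL.C (nat_lit 2) (nat_lit 0x84cca3a) (nat_lit 0x8400) (nat_lit 0xc620)
  (IL.C (nat_lit 2) (nat_lit 0x6a8b5732) (nat_lit 0x8400) (nat_lit 0xb720)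
  (IL.C (nat_lit 2) (nat_lit 0x6813fec4) (nat_lit 0x8400) (nat_lit 0xd530)
  (IL.C (nat_lit 2) (nat_lit 0x18687340) (nat_lit 0x8400) (nat_lit 0xc640)
  (IL.C (nat_lit 0) (nat_lit 0x4c57018efaa) (nat_lit 0x8211) (nat_lit 0x8211)
  (IL.C (nat_lit 1) (nat_lit 0x2b15274c) (nat_lit 0x8211) (nat_lit 0x8411)
  (IL.C (nat_lit 1) (nat_lit 0x9d3410c) (nat_lit 0x8211) (nat_lit 0xb511)
  (IL.C (nat_lit 1) (nat_lit 0x2593287c) (nat_lit 0x8211) (nat_lit 0xd331)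
  (IL.C (nat_lit 1) (nat_lit 0x5ec9cdca) (nat_lit 0x8211) (nat_lit 0xc621)
  (IL.C (nat_lit 1) (nat_lit 0x1346baf6) (nat_lit 0x8211) (nat_lit 0xd531)
  (IL.C (nat_lit 1) (nat_lit 0x58ef25bc) (nat_lit 0x8211) (nat_lit 0xc641)
  (IL.C (nat_lit 1) (nat_lit 0x2ffbfca6) (nat_lit 0x8211) (nat_lit 0xb741)
  (IL.C (nat_lit 2) (nat_lit 0x1dea7df0) (nat_lit 0x8211) (nat_lit 0xb311)
  (IL.C (nat_lit 2) (nat_lit 0x50fa113e) (nat_lit 0x8211) (nat_lit 0xa611)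
  (IL.C (nat_lit 2) (nat_lit 0x1058478e) (nat_lit 0x8211) (nat_lit 0x8631)
  (IL.C (nat_lit 2) (nat_lit 0x151d2976) (nat_lit 0x8211) (nat_lit 0x8651)
  (IL.C (nat_lit 0) (nat_lit 0x227c9de1332) (nat_lit 0xb300) (nat_lit 0xb300)
  (IL.C (nat_lit 1) (nat_lit 0x4615938) (nat_lit 0xb300) (nat_lit 0xb500)
  (IL.C (nat_lit 1) (nat_lit 0x10cf1f0) (nat_lit 0xb300) (nat_lit 0xd330)
  (IL.C (nat_lit 0) (nat_lit 0x46d0bf3de34e) (nat_lit 0x6311) (nat_lit 0x6311)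
  (IL.C (nat_lit 1) (nat_lit 0xd396f6ac) (nat_lit 0x6311) (nat_lit 0x9520)
  (IL.C (nat_lit 1) (nat_lit 0x140addc2a) (nat_lit 0x6311) (nat_lit 0xa421)
  (IL.C (nat_lit 1) (nat_lit 0x13f965d62) (nat_lit 0x6311) (nat_lit 0x9521) its1_18))))))))))))))))))))))))))))))))))))))))

noncomputable def its1_16 : IL :=
  (IL.C (nat_lit 2) (nat_lit 0x56a19e58) (nat_lit 0xa210) (nat_lit 0x8320)
  (IL.C (nat_lit 2) (nat_lit 0x3b4db438) (nat_lit 0xa210) (nat_lit 0x9311)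
  (IL.C (nat_lit 2) (nat_lit 0xecf70ea) (nat_lit 0xa210) (nat_lit 0xa410)
  (IL.C (nat_lit 2) (nat_lit 0x4e9ec86c) (nat_lit 0xa210) (nat_lit 0x9510)
  (IL.C (nat_lit 2) (nat_lit 0x6b0d7bf6) (nat_lit 0xa210) (nat_lit 0xc221)
  (IL.C (nat_lit 2) (nat_lit 0x64535c) (nat_lit 0xa210) (nat_lit 0x8430)
  (IL.C (nat_lit 2) (nat_lit 0x2848a99c) (nat_lit 0xa210) (nat_lit 0x8521)
  (IL.C (nat_lit 2) (nat_lit 0x4e15209c) (nat_lit 0xa210) (nat_lit 0xa322)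
  (IL.C (nat_lit 2) (nat_lit 0x4715353a) (nat_lit 0xa210) (nat_lit 0x9720)
  (IL.C (nat_lit 2) (nat_lit 0xb0d33da) (nat_lit 0xa210) (nat_lit 0xb530)
  (IL.C (nat_lit 2) (nat_lit 0x63b9c660) (nat_lit 0xa210) (nat_lit 0xc421)
  (IL.C (nat_lit 2) (nat_lit 0x21b69998) (nat_lit 0xa210) (nat_lit 0x9332)
  (IL.C (nat_lit 0) (nat_lit 0x3d593e89b9e6) (nat_lit 0x7220) (nat_lit 0x7220)
  (IL.C (nat_lit 1) (nat_lit 0xdc29b16) (nat_lit 0x7220) (nat_lit 0x6330)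
  (IL.C (nat_lit 1) (nat_lit 0xc9118900) (nat_lit 0x7220) (nat_lit 0x7420)
  (IL.C (nat_lit 1) (nat_lit 0x3d66adc2) (nat_lit 0x7220) (nat_lit 0x5322)
  (IL.C (nat_lit 1) (nat_lit 0x107d30156) (nat_lit 0x7220) (nat_lit 0x6331)
  (IL.C (nat_lit 1) (nat_lit 0x6cf4b3a4) (nat_lit 0x7220) (nat_lit 0x6530)
  (IL.C (nat_lit 1) (nat_lit 0xe44aa54c) (nat_lit 0x7220) (nat_lit 0x8430)
  (IL.C (nat_lit 1) (nat_lit 0x361a5742) (nat_lit 0x7220) (nat_lit 0xa322)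
  (IL.C (nat_lit 1) (nat_lit 0x78eff328) (nat_lit 0x7220) (nat_lit 0xa630)
  (IL.C (nat_lit 1) (nat_lit 0x11c882470) (nat_lit 0x7220) (nat_lit 0xa522)
  (IL.C (nat_lit 1) (nat_lit 0xc441e50a) (nat_lit 0x7220) (nat_lit 0x9532)
  (IL.C (nat_lit 1) (nat_lit 0x5debc854) (nat_lit 0x7220) (nat_lit 0x9433)
  (IL.C (nat_lit 2) (nat_lit 0x121d5b7ee) (nat_lit 0x7220) (nat_lit 0x7221)
  (IL.C (nat_lit 2) (nat_lit 0x54eeae70) (nat_lit 0x7220) (nat_lit 0x8320)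
  (IL.C (nat_lit 2) (nat_lit 0x4181d8ae) (nat_lit 0x7220) (nat_lit 0x4332)
  (IL.C (nat_lit 2) (nat_lit 0x13c67f1f6) (nat_lit 0x7220) (nat_lit 0x8520)
  (IL.C (nat_lit 2) (nat_lit 0xdf31e6c0) (nat_lit 0x7220) (nat_lit 0x9720)
  (IL.C (nat_lit 2) (nat_lit 0x6dd1a16a) (nat_lit 0x7220) (nat_lit 0xe222)
  (IL.C (nat_lit 2) (nat_lit 0x5459bf56) (nat_lit 0x7220) (nat_lit 0x9332)
  (IL.C (nat_lit 2) (nat_lit 0x1a9de3c0) (nat_lit 0x7220) (nat_lit 0xa432)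
  (IL.C (nat_lit 2) (nat_lit 0x1a60cd32) (nat_lit 0x7220) (nat_lit 0xe422)
  (IL.C (nat_lit 2) (nat_lit 0x482a69e6) (nat_lit 0x7220) (nat_lit 0xd333)
  (IL.C (nat_lit 2) (nat_lit 0x30d7ef1a) (nat_lit 0x7220) (nat_lit 0xd533)
  (IL.C (nat_lit 0) (nat_lit 0xda5bf120c8e6) (nat_lit 0x5221) (nat_lit 0x5221)
  (IL.C (nat_lit 1) (nat_lit 0x6a6866ea) (nat_lit 0x5221) (nat_lit 0x5421)
  (IL.C (nat_lit 1) (nat_lit 0x1b35b8bc8) (nat_lit 0x5221) (nat_lit 0x6532)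
  (IL.C (nat_lit 1) (nat_lit 0x17f90144a) (nat_lit 0x5221) (nat_lit 0xb532)
  (IL.C (nat_lit 1) (nat_lit 0xbaa330a0) (nat_lit 0x5221) (nat_lit 0xb433) its1_17))))))))))))))))))))))))))))))))))))))))

noncomputable def its1_15 : IL :=
  (IL.C (nat_lit 0) (nat_lit 0x379ff3a719c6) (nat_lit 0x5410) (nat_lit 0x5410)
  (IL.C (nat_lit 1) (nat_lit 0x6aa2bce2) (nat_lit 0x5410) (nat_lit 0x5411)
  (IL.C (nat_lit 1) (nat_lit 0x1dbce1f20) (nat_lit 0x5410) (nat_lit 0xa410)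
  (IL.C (nat_lit 1) (nat_lit 0x1557b152c) (nat_lit 0x5410) (nat_lit 0x8540)
  (IL.C (nat_lit 1) (nat_lit 0x92854356) (nat_lit 0x5410) (nat_lit 0x7441)
  (IL.C (nat_lit 1) (nat_lit 0x15cca0e60) (nat_lit 0x5410) (nat_lit 0x5542)
  (IL.C (nat_lit 1) (nat_lit 0x1d0eec3b0) (nat_lit 0x5410) (nat_lit 0xa522)
  (IL.C (nat_lit 1) (nat_lit 0x397754a88) (nat_lit 0x5410) (nat_lit 0xa432)
  (IL.C (nat_lit 2) (nat_lit 0x310da0f9e) (nat_lit 0x5410) (nat_lit 0x8520)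
  (IL.C (nat_lit 2) (nat_lit 0xf0a604fe) (nat_lit 0x5410) (nat_lit 0xc420)
  (IL.C (nat_lit 2) (nat_lit 0x1507207bc) (nat_lit 0x5410) (nat_lit 0x7440)
  (IL.C (nat_lit 2) (nat_lit 0x3f8ba904c) (nat_lit 0x5410) (nat_lit 0xe422)
  (IL.C (nat_lit 1) (nat_lit 0x31a6b152) (nat_lit 0xd200) (nat_lit 0x6600)
  (IL.C (nat_lit 1) (nat_lit 0x24fa6c0) (nat_lit 0xd200) (nat_lit 0xb600)
  (IL.C (nat_lit 1) (nat_lit 0x4cc3a798) (nat_lit 0x9210) (nat_lit 0xd310)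
  (IL.C (nat_lit 1) (nat_lit 0xa5e12dde) (nat_lit 0x9210) (nat_lit 0xb430)
  (IL.C (nat_lit 1) (nat_lit 0x4c63b99e) (nat_lit 0x9210) (nat_lit 0xd433)
  (IL.C (nat_lit 2) (nat_lit 0x92cbe06) (nat_lit 0x9210) (nat_lit 0xb431)
  (IL.C (nat_lit 0) (nat_lit 0xbf217e11cf8) (nat_lit 0x6500) (nat_lit 0x6500)
  (IL.C (nat_lit 1) (nat_lit 0x4b9779b2) (nat_lit 0x6500) (nat_lit 0xd530)
  (IL.C (nat_lit 2) (nat_lit 0x115d43e0c) (nat_lit 0x6500) (nat_lit 0xb510)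
  (IL.C (nat_lit 2) (nat_lit 0x686b68de) (nat_lit 0x6500) (nat_lit 0x7640)
  (IL.C (nat_lit 0) (nat_lit 0xc0e6621f762) (nat_lit 0xa210) (nat_lit 0xa210)
  (IL.C (nat_lit 1) (nat_lit 0xa06bd70a) (nat_lit 0xa210) (nat_lit 0x7600)
  (IL.C (nat_lit 1) (nat_lit 0x34a97ebe) (nat_lit 0xa210) (nat_lit 0xa400)
  (IL.C (nat_lit 1) (nat_lit 0x7d627668) (nat_lit 0xa210) (nat_lit 0xa211)
  (IL.C (nat_lit 1) (nat_lit 0x22ba4b98) (nat_lit 0xa210) (nat_lit 0xc220)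
  (IL.C (nat_lit 1) (nat_lit 0x9fb6fd62) (nat_lit 0xa210) (nat_lit 0x8520)
  (IL.C (nat_lit 1) (nat_lit 0x7a569120) (nat_lit 0xa210) (nat_lit 0xb330)
  (IL.C (nat_lit 1) (nat_lit 0xd96e1be) (nat_lit 0xa210) (nat_lit 0xc420)
  (IL.C (nat_lit 1) (nat_lit 0x30abbbc0) (nat_lit 0xa210) (nat_lit 0x8431)
  (IL.C (nat_lit 1) (nat_lit 0x2ab28a88) (nat_lit 0xa210) (nat_lit 0xb331)
  (IL.C (nat_lit 1) (nat_lit 0x8658c122) (nat_lit 0xa210) (nat_lit 0xa630)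
  (IL.C (nat_lit 1) (nat_lit 0x1da91c0) (nat_lit 0xa210) (nat_lit 0x9721)
  (IL.C (nat_lit 1) (nat_lit 0x6f20e82c) (nat_lit 0xa210) (nat_lit 0xb531)
  (IL.C (nat_lit 1) (nat_lit 0xcecd8f8c) (nat_lit 0xa210) (nat_lit 0xa631)
  (IL.C (nat_lit 1) (nat_lit 0x3180aa42) (nat_lit 0xa210) (nat_lit 0xe422)
  (IL.C (nat_lit 1) (nat_lit 0x50334da0) (nat_lit 0xa210) (nat_lit 0xd533)
  (IL.C (nat_lit 2) (nat_lit 0x69f47f12) (nat_lit 0xa210) (nat_lit 0x9310)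
  (IL.C (nat_lit 2) (nat_lit 0x2430aa0) (nat_lit 0xa210) (nat_lit 0x9500) its1_16))))))))))))))))))))))))))))))))))))))))

noncomputable def its1_14 : IL :=
  (IL.C (nat_lit 2) (nat_lit 0x100b531a) (nat_lit 0x8210) (nat_lit 0x8322)
  (IL.C (nat_lit 2) (nat_lit 0xe4de1318) (nat_lit 0x8210) (nat_lit 0x7621)
  (IL.C (nat_lit 2) (nat_lit 0x65c0feb2) (nat_lit 0x8210) (nat_lit 0xc620)
  (IL.C (nat_lit 2) (nat_lit 0xe58f8d2e) (nat_lit 0x8210) (nat_lit 0xd530)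
  (IL.C (nat_lit 2) (nat_lit 0xe3392d5a) (nat_lit 0x8210) (nat_lit 0xc621)
  (IL.C (nat_lit 2) (nat_lit 0x1515ba9e) (nat_lit 0x8210) (nat_lit 0xd531)
  (IL.C (nat_lit 2) (nat_lit 0xfac08d1a) (nat_lit 0x8210) (nat_lit 0x9722)
  (IL.C (nat_lit 0) (nat_lit 0x2b82fab8348c) (nat_lit 0x6310) (nat_lit 0x6310)
  (IL.C (nat_lit 1) (nat_lit 0x17dea39dc) (nat_lit 0x6310) (nat_lit 0x6510)
  (IL.C (nat_lit 1) (nat_lit 0x1d9b2fe34) (nat_lit 0x6310) (nat_lit 0x9520)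
  (IL.C (nat_lit 1) (nat_lit 0x2e3282e32) (nat_lit 0x6310) (nat_lit 0x7640)
  (IL.C (nat_lit 1) (nat_lit 0x10b87489e) (nat_lit 0x6310) (nat_lit 0xd530)
  (IL.C (nat_lit 1) (nat_lit 0x8f4476a2) (nat_lit 0x6310) (nat_lit 0xb332)
  (IL.C (nat_lit 2) (nat_lit 0x730ccaee) (nat_lit 0x6310) (nat_lit 0x6311)
  (IL.C (nat_lit 2) (nat_lit 0x14374abaa) (nat_lit 0x6310) (nat_lit 0xa420)
  (IL.C (nat_lit 2) (nat_lit 0xdb8e77ca) (nat_lit 0x6310) (nat_lit 0x9430)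
  (IL.C (nat_lit 2) (nat_lit 0x2159c190e) (nat_lit 0x6310) (nat_lit 0x7621)
  (IL.C (nat_lit 2) (nat_lit 0x7d6ecba4) (nat_lit 0x6310) (nat_lit 0xc222)
  (IL.C (nat_lit 2) (nat_lit 0x65788f2a) (nat_lit 0x6310) (nat_lit 0xc422)
  (IL.C (nat_lit 2) (nat_lit 0x87bd2d68) (nat_lit 0x6310) (nat_lit 0xb532)
  (IL.C (nat_lit 2) (nat_lit 0x54a6e1a8) (nat_lit 0x6310) (nat_lit 0xb433)
  (IL.C (nat_lit 1) (nat_lit 0x6f772222) (nat_lit 0x4410) (nat_lit 0x9522)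
  (IL.C (nat_lit 2) (nat_lit 0x10fc591e) (nat_lit 0x4410) (nat_lit 0xd500)
  (IL.C (nat_lit 2) (nat_lit 0x1e406f8f6) (nat_lit 0x4410) (nat_lit 0xb520)
  (IL.C (nat_lit 2) (nat_lit 0x4e6f7dea) (nat_lit 0x4410) (nat_lit 0xd532)
  (IL.C (nat_lit 2) (nat_lit 0x319910e8) (nat_lit 0x6400) (nat_lit 0xd520)
  (IL.C (nat_lit 0) (nat_lit 0x16d06eca2dc) (nat_lit 0xd110) (nat_lit 0xd110)
  (IL.C (nat_lit 1) (nat_lit 0x343daba) (nat_lit 0xd110) (nat_lit 0xd111)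
  (IL.C (nat_lit 1) (nat_lit 0x28a1dbf6) (nat_lit 0xd110) (nat_lit 0xb411)
  (IL.C (nat_lit 1) (nat_lit 0x184f4140) (nat_lit 0xd110) (nat_lit 0x9611)
  (IL.C (nat_lit 1) (nat_lit 0x4449fb0a) (nat_lit 0xd110) (nat_lit 0xa660)
  (IL.C (nat_lit 1) (nat_lit 0x595444e) (nat_lit 0xd110) (nat_lit 0xd541)
  (IL.C (nat_lit 1) (nat_lit 0x126e5832) (nat_lit 0xd110) (nat_lit 0xb651)
  (IL.C (nat_lit 1) (nat_lit 0x2cf0570) (nat_lit 0xd110) (nat_lit 0xc664)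
  (IL.C (nat_lit 1) (nat_lit 0x28541d32) (nat_lit 0xd110) (nat_lit 0xb764)
  (IL.C (nat_lit 2) (nat_lit 0x253844c2) (nat_lit 0xd110) (nat_lit 0x8641)
  (IL.C (nat_lit 0) (nat_lit 0x52e1ed9a2c) (nat_lit 0x9111) (nat_lit 0x9111)
  (IL.C (nat_lit 1) (nat_lit 0x31fc09e) (nat_lit 0x9111) (nat_lit 0x8411)
  (IL.C (nat_lit 1) (nat_lit 0x8302c24) (nat_lit 0x9111) (nat_lit 0xa611)
  (IL.C (nat_lit 2) (nat_lit 0x23f80eec) (nat_lit 0x9111) (nat_lit 0x8211) its1_15))))))))))))))))))))))))))))))))))))))))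

noncomputable def its1_13 : IL :=
  (IL.C (nat_lit 1) (nat_lit 0x232a3b58) (nat_lit 0xa200) (nat_lit 0xc600)
  (IL.C (nat_lit 1) (nat_lit 0x511c8ea) (nat_lit 0xa200) (nat_lit 0xb700)
  (IL.C (nat_lit 1) (nat_lit 0x216a80a8) (nat_lit 0xa200) (nat_lit 0xb330)
  (IL.C (nat_lit 1) (nat_lit 0x3b518df0) (nat_lit 0xa200) (nat_lit 0x9720)
  (IL.C (nat_lit 1) (nat_lit 0xf894ac2) (nat_lit 0xa200) (nat_lit 0xe222)
  (IL.C (nat_lit 1) (nat_lit 0x889da5c) (nat_lit 0xa200) (nat_lit 0xd333)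
  (IL.C (nat_lit 2) (nat_lit 0x2042a1a4) (nat_lit 0xa200) (nat_lit 0x7600)
  (IL.C (nat_lit 2) (nat_lit 0x81de0d8) (nat_lit 0xa200) (nat_lit 0xa400)
  (IL.C (nat_lit 2) (nat_lit 0x2266241e) (nat_lit 0xa200) (nat_lit 0x8320)
  (IL.C (nat_lit 2) (nat_lit 0x15928d12) (nat_lit 0xa200) (nat_lit 0xa630)
  (IL.C (nat_lit 0) (nat_lit 0xd88a78680) (nat_lit 0x8111) (nat_lit 0x8111)
  (IL.C (nat_lit 0) (nat_lit 0x5628d0ddb230) (nat_lit 0x5220) (nat_lit 0x5220)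
  (IL.C (nat_lit 1) (nat_lit 0xdf36a532) (nat_lit 0x5220) (nat_lit 0xc222)
  (IL.C (nat_lit 1) (nat_lit 0x3433d638) (nat_lit 0x5220) (nat_lit 0xc422)
  (IL.C (nat_lit 1) (nat_lit 0x7365b8e8) (nat_lit 0x5220) (nat_lit 0xb433)
  (IL.C (nat_lit 2) (nat_lit 0xb8413668) (nat_lit 0x5220) (nat_lit 0xb332)
  (IL.C (nat_lit 2) (nat_lit 0x5ed2545c) (nat_lit 0x5220) (nat_lit 0xb532)
  (IL.C (nat_lit 0) (nat_lit 0x31cca59e26e) (nat_lit 0xb110) (nat_lit 0xb110)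
  (IL.C (nat_lit 1) (nat_lit 0xe5654ee) (nat_lit 0xb110) (nat_lit 0xb111)
  (IL.C (nat_lit 1) (nat_lit 0x12318716) (nat_lit 0xb110) (nat_lit 0xd310)
  (IL.C (nat_lit 1) (nat_lit 0x7e389b0) (nat_lit 0xb110) (nat_lit 0xd500)
  (IL.C (nat_lit 1) (nat_lit 0x13bea722) (nat_lit 0xb110) (nat_lit 0xd311)
  (IL.C (nat_lit 1) (nat_lit 0x3819577c) (nat_lit 0xb110) (nat_lit 0xd510)
  (IL.C (nat_lit 1) (nat_lit 0x5bd0866) (nat_lit 0xb110) (nat_lit 0xb541)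
  (IL.C (nat_lit 1) (nat_lit 0xa131de14) (nat_lit 0xb110) (nat_lit 0xa641)
  (IL.C (nat_lit 1) (nat_lit 0x6312db26) (nat_lit 0xb110) (nat_lit 0x9651)
  (IL.C (nat_lit 2) (nat_lit 0x1edf67ae) (nat_lit 0xb110) (nat_lit 0x9411)
  (IL.C (nat_lit 2) (nat_lit 0x50f85b5c) (nat_lit 0xb110) (nat_lit 0x8441)
  (IL.C (nat_lit 2) (nat_lit 0x1e7d7180) (nat_lit 0xb110) (nat_lit 0xd721)
  (IL.C (nat_lit 2) (nat_lit 0x174c4d8) (nat_lit 0xb110) (nat_lit 0xc644)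
  (IL.C (nat_lit 2) (nat_lit 0x132b5ca6) (nat_lit 0xb110) (nat_lit 0xb744)
  (IL.C (nat_lit 0) (nat_lit 0x7496bc80478) (nat_lit 0x8210) (nat_lit 0x8210)
  (IL.C (nat_lit 1) (nat_lit 0xe6d56342) (nat_lit 0x8210) (nat_lit 0x6500)
  (IL.C (nat_lit 1) (nat_lit 0x3c5267d2) (nat_lit 0x8210) (nat_lit 0xb310)
  (IL.C (nat_lit 1) (nat_lit 0x529ef9e6) (nat_lit 0x8210) (nat_lit 0x7222)
  (IL.C (nat_lit 1) (nat_lit 0xc06dd4) (nat_lit 0x8210) (nat_lit 0x8630)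
  (IL.C (nat_lit 1) (nat_lit 0x17e3a938) (nat_lit 0x8210) (nat_lit 0x8631)
  (IL.C (nat_lit 2) (nat_lit 0x1bfc155de) (nat_lit 0x8210) (nat_lit 0x6310)
  (IL.C (nat_lit 2) (nat_lit 0x9220eff8) (nat_lit 0x8210) (nat_lit 0x6311)
  (IL.C (nat_lit 2) (nat_lit 0xd4d84b12) (nat_lit 0x8210) (nat_lit 0xb510) its1_14))))))))))))))))))))))))))))))))))))))))

noncomputable def its1_12 : IL :=
  (IL.C (nat_lit 1) (nat_lit 0x20641d33c) (nat_lit 0x5400) (nat_lit 0xa432)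
  (IL.C (nat_lit 1) (nat_lit 0x22e640eec) (nat_lit 0x5400) (nat_lit 0xe422)
  (IL.C (nat_lit 2) (nat_lit 0x31338116) (nat_lit 0x5400) (nat_lit 0x5410)
  (IL.C (nat_lit 2) (nat_lit 0x86853424) (nat_lit 0x5400) (nat_lit 0xa410)
  (IL.C (nat_lit 2) (nat_lit 0x1b28f9bdc) (nat_lit 0x5400) (nat_lit 0x8520)
  (IL.C (nat_lit 2) (nat_lit 0x15539f7b8) (nat_lit 0x5400) (nat_lit 0xc420)
  (IL.C (nat_lit 2) (nat_lit 0xfe351a2a) (nat_lit 0x5400) (nat_lit 0x5542)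
  (IL.C (nat_lit 2) (nat_lit 0xfe74e28c) (nat_lit 0x5400) (nat_lit 0xa522)
  (IL.C (nat_lit 1) (nat_lit 0x8bdfb2) (nat_lit 0x9200) (nat_lit 0xd300)
  (IL.C (nat_lit 1) (nat_lit 0x49c5ee6c) (nat_lit 0x9200) (nat_lit 0xd310)
  (IL.C (nat_lit 2) (nat_lit 0x18691826) (nat_lit 0x9200) (nat_lit 0xd500)
  (IL.C (nat_lit 0) (nat_lit 0x74ef99d72d98) (nat_lit 0x5211) (nat_lit 0x5211)
  (IL.C (nat_lit 1) (nat_lit 0x75917514) (nat_lit 0x5211) (nat_lit 0x5410)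
  (IL.C (nat_lit 1) (nat_lit 0x4bae7c52) (nat_lit 0x5211) (nat_lit 0x5411)
  (IL.C (nat_lit 1) (nat_lit 0x7320a0fa) (nat_lit 0x5211) (nat_lit 0x6530)
  (IL.C (nat_lit 1) (nat_lit 0x1fb2ed516) (nat_lit 0x5211) (nat_lit 0x8430)
  (IL.C (nat_lit 1) (nat_lit 0x18a6d6bb0) (nat_lit 0x5211) (nat_lit 0x6531)
  (IL.C (nat_lit 1) (nat_lit 0x28d15b5c2) (nat_lit 0x5211) (nat_lit 0x8431)
  (IL.C (nat_lit 1) (nat_lit 0x40f4d960) (nat_lit 0x5211) (nat_lit 0xb531)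
  (IL.C (nat_lit 1) (nat_lit 0x1750288e2) (nat_lit 0x5211) (nat_lit 0xa432)
  (IL.C (nat_lit 1) (nat_lit 0x255f3112) (nat_lit 0x5211) (nat_lit 0xd533)
  (IL.C (nat_lit 2) (nat_lit 0x17c75b2d2) (nat_lit 0x5211) (nat_lit 0x4311)
  (IL.C (nat_lit 2) (nat_lit 0x248a69736) (nat_lit 0x5211) (nat_lit 0x7420)
  (IL.C (nat_lit 2) (nat_lit 0x49fc1100) (nat_lit 0x5211) (nat_lit 0x8520)
  (IL.C (nat_lit 2) (nat_lit 0x2b6966ee2) (nat_lit 0x5211) (nat_lit 0x7421)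
  (IL.C (nat_lit 2) (nat_lit 0xd1f0d590) (nat_lit 0x5211) (nat_lit 0x8521)
  (IL.C (nat_lit 2) (nat_lit 0x12b8fc93c) (nat_lit 0x5211) (nat_lit 0xc420)
  (IL.C (nat_lit 2) (nat_lit 0xe23e8e7e) (nat_lit 0x5211) (nat_lit 0xb530)
  (IL.C (nat_lit 2) (nat_lit 0x12601a316) (nat_lit 0x5211) (nat_lit 0xc421)
  (IL.C (nat_lit 2) (nat_lit 0x38e0c110) (nat_lit 0x5211) (nat_lit 0x7441)
  (IL.C (nat_lit 2) (nat_lit 0xfc5dcc5e) (nat_lit 0x5211) (nat_lit 0x6551)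
  (IL.C (nat_lit 2) (nat_lit 0xacd29542) (nat_lit 0x5211) (nat_lit 0xa522)
  (IL.C (nat_lit 2) (nat_lit 0xccf35f86) (nat_lit 0x5211) (nat_lit 0xe422)
  (IL.C (nat_lit 2) (nat_lit 0x75685f16) (nat_lit 0x5211) (nat_lit 0x9433)
  (IL.C (nat_lit 0) (nat_lit 0x7089629437e) (nat_lit 0xa200) (nat_lit 0xa200)
  (IL.C (nat_lit 1) (nat_lit 0xda28330) (nat_lit 0xa200) (nat_lit 0x9300)
  (IL.C (nat_lit 1) (nat_lit 0x38aa9a74) (nat_lit 0xa200) (nat_lit 0xa210)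
  (IL.C (nat_lit 1) (nat_lit 0x25f25f9c) (nat_lit 0xa200) (nat_lit 0x9310)
  (IL.C (nat_lit 1) (nat_lit 0x15c69442) (nat_lit 0xa200) (nat_lit 0x9500)
  (IL.C (nat_lit 1) (nat_lit 0x44ce406) (nat_lit 0xa200) (nat_lit 0xc220) its1_13))))))))))))))))))))))))))))))))))))))))

noncomputable def its1_11 : IL :=
  (IL.C (nat_lit 2) (nat_lit 0xbff865c6) (nat_lit 0x6300) (nat_lit 0x9742)
  (IL.C (nat_lit 2) (nat_lit 0xb07b63e) (nat_lit 0x6300) (nat_lit 0xa652)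
  (IL.C (nat_lit 1) (nat_lit 0x4c4c2102) (nat_lit 0x4400) (nat_lit 0xb520)
  (IL.C (nat_lit 1) (nat_lit 0x3998ae78) (nat_lit 0x4400) (nat_lit 0x9522)
  (IL.C (nat_lit 2) (nat_lit 0x1020a720) (nat_lit 0x4400) (nat_lit 0xd500)
  (IL.C (nat_lit 2) (nat_lit 0x7e8bdeaa) (nat_lit 0x4400) (nat_lit 0xd532)
  (IL.C (nat_lit 1) (nat_lit 0x1af4afb4c) (nat_lit 0x6210) (nat_lit 0xd430)
  (IL.C (nat_lit 0) (nat_lit 0x1d9d28cf04e) (nat_lit 0xd100) (nat_lit 0xd100)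
  (IL.C (nat_lit 1) (nat_lit 0xb09346c) (nat_lit 0xd100) (nat_lit 0xb200)
  (IL.C (nat_lit 1) (nat_lit 0xd75796) (nat_lit 0xd100) (nat_lit 0x9600)
  (IL.C (nat_lit 1) (nat_lit 0x1bec17f0) (nat_lit 0xd100) (nat_lit 0xd320)
  (IL.C (nat_lit 1) (nat_lit 0x55600fee) (nat_lit 0xd100) (nat_lit 0x9611)
  (IL.C (nat_lit 2) (nat_lit 0x4adc574) (nat_lit 0xd100) (nat_lit 0xd110)
  (IL.C (nat_lit 2) (nat_lit 0x24a3f58c) (nat_lit 0xd100) (nat_lit 0x9610)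
  (IL.C (nat_lit 2) (nat_lit 0x318be1c) (nat_lit 0xd100) (nat_lit 0xa660)
  (IL.C (nat_lit 0) (nat_lit 0x51ce274aa6c) (nat_lit 0x9110) (nat_lit 0x9110)
  (IL.C (nat_lit 1) (nat_lit 0x65dc076c) (nat_lit 0x9110) (nat_lit 0xb310)
  (IL.C (nat_lit 1) (nat_lit 0x52202a20) (nat_lit 0x9110) (nat_lit 0xb311)
  (IL.C (nat_lit 1) (nat_lit 0x302ccfe2) (nat_lit 0x9110) (nat_lit 0xa610)
  (IL.C (nat_lit 1) (nat_lit 0x21ca39e0) (nat_lit 0x9110) (nat_lit 0xa611)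
  (IL.C (nat_lit 1) (nat_lit 0x41a90a64) (nat_lit 0x9110) (nat_lit 0xb721)
  (IL.C (nat_lit 1) (nat_lit 0x5fd6663e) (nat_lit 0x9110) (nat_lit 0xb740)
  (IL.C (nat_lit 2) (nat_lit 0xbaed024) (nat_lit 0x9110) (nat_lit 0x9111)
  (IL.C (nat_lit 2) (nat_lit 0x7b9d0230) (nat_lit 0x9110) (nat_lit 0xb510)
  (IL.C (nat_lit 2) (nat_lit 0x5e5a9c3e) (nat_lit 0x9110) (nat_lit 0xc621)
  (IL.C (nat_lit 2) (nat_lit 0x354074d4) (nat_lit 0x9110) (nat_lit 0xd531)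
  (IL.C (nat_lit 2) (nat_lit 0x3025d23c) (nat_lit 0x9110) (nat_lit 0xd550)
  (IL.C (nat_lit 0) (nat_lit 0x42762f94c366) (nat_lit 0x3221) (nat_lit 0x3221)
  (IL.C (nat_lit 1) (nat_lit 0x5bd36814) (nat_lit 0x3221) (nat_lit 0xd331)
  (IL.C (nat_lit 1) (nat_lit 0xbde1a386) (nat_lit 0x3221) (nat_lit 0x8522)
  (IL.C (nat_lit 2) (nat_lit 0x190d0a34) (nat_lit 0x3221) (nat_lit 0x7222)
  (IL.C (nat_lit 2) (nat_lit 0x593e28d8) (nat_lit 0x3221) (nat_lit 0x8322)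
  (IL.C (nat_lit 2) (nat_lit 0x59640ca2) (nat_lit 0x3221) (nat_lit 0xc222)
  (IL.C (nat_lit 2) (nat_lit 0x1455ed82c) (nat_lit 0x3221) (nat_lit 0xc422)
  (IL.C (nat_lit 2) (nat_lit 0x7301dc2e) (nat_lit 0x3221) (nat_lit 0xb433)
  (IL.C (nat_lit 0) (nat_lit 0x26beafc559e6) (nat_lit 0x5400) (nat_lit 0x5400)
  (IL.C (nat_lit 1) (nat_lit 0x6d7e4562) (nat_lit 0x5400) (nat_lit 0xa400)
  (IL.C (nat_lit 1) (nat_lit 0x1810524d6) (nat_lit 0x5400) (nat_lit 0x7440)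
  (IL.C (nat_lit 1) (nat_lit 0xe0432c10) (nat_lit 0x5400) (nat_lit 0x8540)
  (IL.C (nat_lit 1) (nat_lit 0x673765d4) (nat_lit 0x5400) (nat_lit 0xc440) its1_12))))))))))))))))))))))))))))))))))))))))

noncomputable def its1_10 : IL :=
  (IL.C (nat_lit 2) (nat_lit 0x2405a12e) (nat_lit 0x6111) (nat_lit 0xd500)
  (IL.C (nat_lit 2) (nat_lit 0x7c848f14) (nat_lit 0x6111) (nat_lit 0x8421)
  (IL.C (nat_lit 2) (nat_lit 0x47a04842) (nat_lit 0x6111) (nat_lit 0xd511)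
  (IL.C (nat_lit 2) (nat_lit 0x117a2fa0) (nat_lit 0x6111) (nat_lit 0x8440)
  (IL.C (nat_lit 2) (nat_lit 0x4e922c84) (nat_lit 0x6111) (nat_lit 0xa640)
  (IL.C (nat_lit 2) (nat_lit 0x5c232350) (nat_lit 0x6111) (nat_lit 0xd721)
  (IL.C (nat_lit 2) (nat_lit 0x1d05e3ec) (nat_lit 0x6111) (nat_lit 0xa641)
  (IL.C (nat_lit 2) (nat_lit 0x4b9fcaf6) (nat_lit 0x6111) (nat_lit 0xd543)
  (IL.C (nat_lit 2) (nat_lit 0x88531658) (nat_lit 0x6111) (nat_lit 0xc644)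
  (IL.C (nat_lit 2) (nat_lit 0x54303076) (nat_lit 0x6111) (nat_lit 0xb744)
  (IL.C (nat_lit 0) (nat_lit 0x3fed8fe0fd4) (nat_lit 0x8200) (nat_lit 0x8200)
  (IL.C (nat_lit 1) (nat_lit 0x530821b0) (nat_lit 0x8200) (nat_lit 0x6300)
  (IL.C (nat_lit 1) (nat_lit 0x16b69b68) (nat_lit 0x8200) (nat_lit 0xb300)
  (IL.C (nat_lit 1) (nat_lit 0x1268cf82) (nat_lit 0x8200) (nat_lit 0xb500)
  (IL.C (nat_lit 1) (nat_lit 0x17edcd70) (nat_lit 0x8200) (nat_lit 0xa600)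
  (IL.C (nat_lit 1) (nat_lit 0x3f16a294) (nat_lit 0x8200) (nat_lit 0xd330)
  (IL.C (nat_lit 1) (nat_lit 0x138f0a36) (nat_lit 0x8200) (nat_lit 0xd530)
  (IL.C (nat_lit 2) (nat_lit 0x310ff7a2) (nat_lit 0x8200) (nat_lit 0x8400)
  (IL.C (nat_lit 2) (nat_lit 0x16179a2) (nat_lit 0x8200) (nat_lit 0x8630)
  (IL.C (nat_lit 2) (nat_lit 0x6d376e16) (nat_lit 0x8200) (nat_lit 0xe622)
  (IL.C (nat_lit 0) (nat_lit 0x130aef00cf18) (nat_lit 0x6300) (nat_lit 0x6300)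
  (IL.C (nat_lit 1) (nat_lit 0xf17cff54) (nat_lit 0x6300) (nat_lit 0x6310)
  (IL.C (nat_lit 1) (nat_lit 0x3c6f699c) (nat_lit 0x6300) (nat_lit 0x7620)
  (IL.C (nat_lit 1) (nat_lit 0x731b99e2) (nat_lit 0x6300) (nat_lit 0x9520)
  (IL.C (nat_lit 1) (nat_lit 0xac102168) (nat_lit 0x6300) (nat_lit 0xd330)
  (IL.C (nat_lit 1) (nat_lit 0x5ec9e804) (nat_lit 0x6300) (nat_lit 0xc222)
  (IL.C (nat_lit 1) (nat_lit 0x167538a2c) (nat_lit 0x6300) (nat_lit 0x7640)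
  (IL.C (nat_lit 1) (nat_lit 0x233d6334) (nat_lit 0x6300) (nat_lit 0xd530)
  (IL.C (nat_lit 1) (nat_lit 0x3fec254a) (nat_lit 0x6300) (nat_lit 0xb332)
  (IL.C (nat_lit 1) (nat_lit 0x81a8c570) (nat_lit 0x6300) (nat_lit 0xb433)
  (IL.C (nat_lit 1) (nat_lit 0xa912e352) (nat_lit 0x6300) (nat_lit 0xa643)
  (IL.C (nat_lit 2) (nat_lit 0xe5a0464e) (nat_lit 0x6300) (nat_lit 0x8210)
  (IL.C (nat_lit 2) (nat_lit 0x1d17a330) (nat_lit 0x6300) (nat_lit 0xb300)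
  (IL.C (nat_lit 2) (nat_lit 0x4f41d36a) (nat_lit 0x6300) (nat_lit 0xa220)
  (IL.C (nat_lit 2) (nat_lit 0x41de1b0e) (nat_lit 0x6300) (nat_lit 0x9320)
  (IL.C (nat_lit 2) (nat_lit 0x5601e0c4) (nat_lit 0x6300) (nat_lit 0xa420)
  (IL.C (nat_lit 2) (nat_lit 0x15c464bc0) (nat_lit 0x6300) (nat_lit 0x9430)
  (IL.C (nat_lit 2) (nat_lit 0xb5304608) (nat_lit 0x6300) (nat_lit 0x7621)
  (IL.C (nat_lit 2) (nat_lit 0x13e95890) (nat_lit 0x6300) (nat_lit 0xc422)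
  (IL.C (nat_lit 2) (nat_lit 0x164b67d24) (nat_lit 0x6300) (nat_lit 0xb532) its1_11))))))))))))))))))))))))))))))))))))))))

noncomputable def its1_9 : IL :=
  (IL.C (nat_lit 0) (nat_lit 0x5ca52dc83aa) (nat_lit 0x8110) (nat_lit 0x8110)
  (IL.C (nat_lit 1) (nat_lit 0x32556f70) (nat_lit 0x8110) (nat_lit 0x8111)
  (IL.C (nat_lit 1) (nat_lit 0x1e08a472) (nat_lit 0x8110) (nat_lit 0x7610)
  (IL.C (nat_lit 1) (nat_lit 0x7e02c344) (nat_lit 0x8110) (nat_lit 0xa410)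
  (IL.C (nat_lit 1) (nat_lit 0xcb009402) (nat_lit 0x8110) (nat_lit 0x7611)
  (IL.C (nat_lit 1) (nat_lit 0x3183a0fa) (nat_lit 0x8110) (nat_lit 0xa411)
  (IL.C (nat_lit 1) (nat_lit 0x318b8c1a) (nat_lit 0x8110) (nat_lit 0xc221)
  (IL.C (nat_lit 1) (nat_lit 0x9ea77052) (nat_lit 0x8110) (nat_lit 0xc610)
  (IL.C (nat_lit 1) (nat_lit 0x428584d2) (nat_lit 0x8110) (nat_lit 0x8521)
  (IL.C (nat_lit 1) (nat_lit 0x9b54e874) (nat_lit 0x8110) (nat_lit 0xc611)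
  (IL.C (nat_lit 1) (nat_lit 0x88f20712) (nat_lit 0x8110) (nat_lit 0x8541)
  (IL.C (nat_lit 1) (nat_lit 0x57ee4b68) (nat_lit 0x8110) (nat_lit 0xe621)
  (IL.C (nat_lit 1) (nat_lit 0x8cbb0a2) (nat_lit 0x8110) (nat_lit 0x9741)
  (IL.C (nat_lit 1) (nat_lit 0x5de20ee0) (nat_lit 0x8110) (nat_lit 0xc654)
  (IL.C (nat_lit 2) (nat_lit 0x6e9aad42) (nat_lit 0x8110) (nat_lit 0xa211)
  (IL.C (nat_lit 2) (nat_lit 0x60184e6c) (nat_lit 0x8110) (nat_lit 0x8321)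
  (IL.C (nat_lit 2) (nat_lit 0x1feb3f24) (nat_lit 0x8110) (nat_lit 0xc600)
  (IL.C (nat_lit 2) (nat_lit 0x25884d14) (nat_lit 0x8110) (nat_lit 0xc421)
  (IL.C (nat_lit 2) (nat_lit 0xad7a5918) (nat_lit 0x8110) (nat_lit 0x9721)
  (IL.C (nat_lit 2) (nat_lit 0xdd55b5b0) (nat_lit 0x8110) (nat_lit 0x9740)
  (IL.C (nat_lit 2) (nat_lit 0x435ce27c) (nat_lit 0x8110) (nat_lit 0x8742)
  (IL.C (nat_lit 0) (nat_lit 0x2da5d33c278) (nat_lit 0xb100) (nat_lit 0xb100)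
  (IL.C (nat_lit 1) (nat_lit 0x6af93b9a) (nat_lit 0xb100) (nat_lit 0x9200)
  (IL.C (nat_lit 1) (nat_lit 0x1e7686d6) (nat_lit 0xb100) (nat_lit 0xd310)
  (IL.C (nat_lit 1) (nat_lit 0xfc4369c) (nat_lit 0xb100) (nat_lit 0xd500)
  (IL.C (nat_lit 1) (nat_lit 0x1430863c) (nat_lit 0xb100) (nat_lit 0xb320)
  (IL.C (nat_lit 2) (nat_lit 0xf63a690) (nat_lit 0xb100) (nat_lit 0xb110)
  (IL.C (nat_lit 0) (nat_lit 0x6fee034128a) (nat_lit 0x6111) (nat_lit 0x6111)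
  (IL.C (nat_lit 1) (nat_lit 0x528161f6) (nat_lit 0x6111) (nat_lit 0x8221)
  (IL.C (nat_lit 1) (nat_lit 0x11b79aad0) (nat_lit 0x6111) (nat_lit 0xd310)
  (IL.C (nat_lit 1) (nat_lit 0x8a5341aa) (nat_lit 0x6111) (nat_lit 0x9410)
  (IL.C (nat_lit 1) (nat_lit 0x27f88638) (nat_lit 0x6111) (nat_lit 0xd510)
  (IL.C (nat_lit 1) (nat_lit 0x9cac74a) (nat_lit 0x6111) (nat_lit 0x8611)
  (IL.C (nat_lit 1) (nat_lit 0xd25baadc) (nat_lit 0x6111) (nat_lit 0xa621)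
  (IL.C (nat_lit 1) (nat_lit 0x28d61b46) (nat_lit 0x6111) (nat_lit 0x8441)
  (IL.C (nat_lit 1) (nat_lit 0xa57be9da) (nat_lit 0x6111) (nat_lit 0xd532)
  (IL.C (nat_lit 1) (nat_lit 0x3c92a206) (nat_lit 0x6111) (nat_lit 0xd433)
  (IL.C (nat_lit 1) (nat_lit 0x225db71ce) (nat_lit 0x6111) (nat_lit 0x8652)
  (IL.C (nat_lit 1) (nat_lit 0x143c461c4) (nat_lit 0x6111) (nat_lit 0xd552)
  (IL.C (nat_lit 2) (nat_lit 0x1c8953fc) (nat_lit 0x6111) (nat_lit 0x9211) its1_10))))))))))))))))))))))))))))))))))))))))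

noncomputable def its1_8 : IL :=
  (IL.C (nat_lit 2) (nat_lit 0x117b68882) (nat_lit 0x3211) (nat_lit 0x5322)
  (IL.C (nat_lit 2) (nat_lit 0x5a4d119e) (nat_lit 0x3211) (nat_lit 0x8520)
  (IL.C (nat_lit 2) (nat_lit 0x226bd9ef2) (nat_lit 0x3211) (nat_lit 0x7421)
  (IL.C (nat_lit 2) (nat_lit 0x1495380e6) (nat_lit 0x3211) (nat_lit 0x8521)
  (IL.C (nat_lit 2) (nat_lit 0x2d627daa) (nat_lit 0x3211) (nat_lit 0xa322)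
  (IL.C (nat_lit 1) (nat_lit 0xf002fb6e) (nat_lit 0x6200) (nat_lit 0xd430)
  (IL.C (nat_lit 0) (nat_lit 0x1af9ce96cc) (nat_lit 0xd000) (nat_lit 0xd000)
  (IL.C (nat_lit 2) (nat_lit 0x63d9ea0) (nat_lit 0xd000) (nat_lit 0xd100)
  (IL.C (nat_lit 0) (nat_lit 0x64d10dcdb00) (nat_lit 0x9100) (nat_lit 0x9100)
  (IL.C (nat_lit 1) (nat_lit 0x14b7bb06) (nat_lit 0x9100) (nat_lit 0x9110)
  (IL.C (nat_lit 1) (nat_lit 0xd4c4e7d0) (nat_lit 0x9100) (nat_lit 0xb310)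
  (IL.C (nat_lit 1) (nat_lit 0x505d782e) (nat_lit 0x9100) (nat_lit 0xb500)
  (IL.C (nat_lit 1) (nat_lit 0x3865f66a) (nat_lit 0x9100) (nat_lit 0xb510)
  (IL.C (nat_lit 1) (nat_lit 0x4a8b994) (nat_lit 0x9100) (nat_lit 0xa610)
  (IL.C (nat_lit 1) (nat_lit 0x8a6083c2) (nat_lit 0x9100) (nat_lit 0xb720)
  (IL.C (nat_lit 1) (nat_lit 0x12249992) (nat_lit 0x9100) (nat_lit 0xd530)
  (IL.C (nat_lit 1) (nat_lit 0x7559db76) (nat_lit 0x9100) (nat_lit 0xc640)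
  (IL.C (nat_lit 1) (nat_lit 0x308eea2e) (nat_lit 0x9100) (nat_lit 0xb740)
  (IL.C (nat_lit 2) (nat_lit 0x3bca2120) (nat_lit 0x9100) (nat_lit 0xa600)
  (IL.C (nat_lit 2) (nat_lit 0x177887ec) (nat_lit 0x9100) (nat_lit 0xc620)
  (IL.C (nat_lit 2) (nat_lit 0xa599d298) (nat_lit 0x9100) (nat_lit 0xc621)
  (IL.C (nat_lit 2) (nat_lit 0x282c886) (nat_lit 0x9100) (nat_lit 0xb721)
  (IL.C (nat_lit 2) (nat_lit 0x7d32cbca) (nat_lit 0x9100) (nat_lit 0xd531)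
  (IL.C (nat_lit 2) (nat_lit 0xa4fee408) (nat_lit 0x9100) (nat_lit 0xe642)
  (IL.C (nat_lit 0) (nat_lit 0x14c896a2a7da2) (nat_lit 0x5210) (nat_lit 0x5210)
  (IL.C (nat_lit 1) (nat_lit 0x78d7e5e2) (nat_lit 0x5210) (nat_lit 0x5410)
  (IL.C (nat_lit 1) (nat_lit 0x2eba14d9c) (nat_lit 0x5210) (nat_lit 0x6530)
  (IL.C (nat_lit 1) (nat_lit 0x100bc9c74) (nat_lit 0x5210) (nat_lit 0x8430)
  (IL.C (nat_lit 1) (nat_lit 0x371f198a) (nat_lit 0x5210) (nat_lit 0x4433)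
  (IL.C (nat_lit 1) (nat_lit 0xa80f4216) (nat_lit 0x5210) (nat_lit 0xe422)
  (IL.C (nat_lit 1) (nat_lit 0x8c21c144) (nat_lit 0x5210) (nat_lit 0x9433)
  (IL.C (nat_lit 2) (nat_lit 0x284467dc) (nat_lit 0x5210) (nat_lit 0x4310)
  (IL.C (nat_lit 2) (nat_lit 0xc266e18e) (nat_lit 0x5210) (nat_lit 0x5211)
  (IL.C (nat_lit 2) (nat_lit 0x1f5fa7108) (nat_lit 0x5210) (nat_lit 0x4311)
  (IL.C (nat_lit 2) (nat_lit 0x2706e2314) (nat_lit 0x5210) (nat_lit 0x7420)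
  (IL.C (nat_lit 2) (nat_lit 0x1078dfd28) (nat_lit 0x5210) (nat_lit 0x8520)
  (IL.C (nat_lit 2) (nat_lit 0x128f3c1f6) (nat_lit 0x5210) (nat_lit 0x5522)
  (IL.C (nat_lit 2) (nat_lit 0x431183ca2) (nat_lit 0x5210) (nat_lit 0xa522)
  (IL.C (nat_lit 2) (nat_lit 0x280640f02) (nat_lit 0x5210) (nat_lit 0xa432)
  (IL.C (nat_lit 2) (nat_lit 0x2d7dc264) (nat_lit 0x5210) (nat_lit 0xd533) its1_9))))))))))))))))))))))))))))))))))))))))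

noncomputable def its1_7 : IL :=
  (IL.C (nat_lit 1) (nat_lit 0xa47bb402) (nat_lit 0x4111) (nat_lit 0xd531)
  (IL.C (nat_lit 2) (nat_lit 0xcf7cd712) (nat_lit 0x4111) (nat_lit 0xa421)
  (IL.C (nat_lit 2) (nat_lit 0x22762f3a) (nat_lit 0x4111) (nat_lit 0x9521)
  (IL.C (nat_lit 2) (nat_lit 0xb19e1464) (nat_lit 0x4111) (nat_lit 0xc621)
  (IL.C (nat_lit 2) (nat_lit 0xa4a4a96) (nat_lit 0x4111) (nat_lit 0xd550)
  (IL.C (nat_lit 2) (nat_lit 0x34ecafb4) (nat_lit 0x4111) (nat_lit 0xd551)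
  (IL.C (nat_lit 0) (nat_lit 0xe05c3943af4) (nat_lit 0x6110) (nat_lit 0x6110)
  (IL.C (nat_lit 1) (nat_lit 0x4368c712) (nat_lit 0x6110) (nat_lit 0x6111)
  (IL.C (nat_lit 1) (nat_lit 0x4e5a178a) (nat_lit 0x6110) (nat_lit 0x9210)
  (IL.C (nat_lit 1) (nat_lit 0x161735820) (nat_lit 0x6110) (nat_lit 0x9211)
  (IL.C (nat_lit 1) (nat_lit 0xab731d04) (nat_lit 0x6110) (nat_lit 0x8420)
  (IL.C (nat_lit 1) (nat_lit 0x1b308ec8) (nat_lit 0x6110) (nat_lit 0xa222)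
  (IL.C (nat_lit 1) (nat_lit 0x18152ff46) (nat_lit 0x6110) (nat_lit 0xa620)
  (IL.C (nat_lit 1) (nat_lit 0x18276ac5a) (nat_lit 0x6110) (nat_lit 0x8440)
  (IL.C (nat_lit 1) (nat_lit 0x1a380c4a) (nat_lit 0x6110) (nat_lit 0xa621)
  (IL.C (nat_lit 1) (nat_lit 0xf0647cfa) (nat_lit 0x6110) (nat_lit 0xb431)
  (IL.C (nat_lit 1) (nat_lit 0x8039f5d4) (nat_lit 0x6110) (nat_lit 0xa640)
  (IL.C (nat_lit 1) (nat_lit 0x1bb2f2ec0) (nat_lit 0x6110) (nat_lit 0xd532)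
  (IL.C (nat_lit 1) (nat_lit 0x11b32a682) (nat_lit 0x6110) (nat_lit 0xd433)
  (IL.C (nat_lit 1) (nat_lit 0x742aba42) (nat_lit 0x6110) (nat_lit 0xc642)
  (IL.C (nat_lit 1) (nat_lit 0x36d9df6c) (nat_lit 0x6110) (nat_lit 0xb742)
  (IL.C (nat_lit 2) (nat_lit 0x80f87fe) (nat_lit 0x6110) (nat_lit 0x9400)
  (IL.C (nat_lit 2) (nat_lit 0x2d117ddc) (nat_lit 0x6110) (nat_lit 0xd310)
  (IL.C (nat_lit 2) (nat_lit 0x1af9a389c) (nat_lit 0x6110) (nat_lit 0x9410)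
  (IL.C (nat_lit 2) (nat_lit 0x70a18a3a) (nat_lit 0x6110) (nat_lit 0xd500)
  (IL.C (nat_lit 2) (nat_lit 0x1cef96d5e) (nat_lit 0x6110) (nat_lit 0x8421)
  (IL.C (nat_lit 2) (nat_lit 0xb41b12e2) (nat_lit 0x6110) (nat_lit 0xb321)
  (IL.C (nat_lit 2) (nat_lit 0x2240af9f4) (nat_lit 0x6110) (nat_lit 0xb520)
  (IL.C (nat_lit 2) (nat_lit 0x967fae88) (nat_lit 0x6110) (nat_lit 0x9322)
  (IL.C (nat_lit 2) (nat_lit 0x12c14cbc8) (nat_lit 0x6110) (nat_lit 0xb430)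
  (IL.C (nat_lit 2) (nat_lit 0x83f2f726) (nat_lit 0x6110) (nat_lit 0xb521)
  (IL.C (nat_lit 0) (nat_lit 0x62084c282908) (nat_lit 0x3211) (nat_lit 0x3211)
  (IL.C (nat_lit 1) (nat_lit 0x95437c8e) (nat_lit 0x3211) (nat_lit 0x5211)
  (IL.C (nat_lit 1) (nat_lit 0x13d80b976) (nat_lit 0x3211) (nat_lit 0xa211)
  (IL.C (nat_lit 1) (nat_lit 0x13d7b705c) (nat_lit 0x3211) (nat_lit 0x8320)
  (IL.C (nat_lit 1) (nat_lit 0xd83bee80) (nat_lit 0x3211) (nat_lit 0xa522)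
  (IL.C (nat_lit 1) (nat_lit 0x12ca5b0e6) (nat_lit 0x3211) (nat_lit 0xa432)
  (IL.C (nat_lit 1) (nat_lit 0x3fc4e056) (nat_lit 0x3211) (nat_lit 0xe422)
  (IL.C (nat_lit 2) (nat_lit 0xb51a09a4) (nat_lit 0x3211) (nat_lit 0xa210)
  (IL.C (nat_lit 2) (nat_lit 0x168d2a952) (nat_lit 0x3211) (nat_lit 0x7221) its1_8))))))))))))))))))))))))))))))))))))))))

noncomputable def its1_6 : IL :=
  (IL.C (nat_lit 2) (nat_lit 0x15e6b6a84) (nat_lit 0x5200) (nat_lit 0xa322)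
  (IL.C (nat_lit 2) (nat_lit 0xa6cad86c) (nat_lit 0x5200) (nat_lit 0xe222)
  (IL.C (nat_lit 2) (nat_lit 0x2ac6febe) (nat_lit 0x5200) (nat_lit 0xa522)
  (IL.C (nat_lit 2) (nat_lit 0x1b0cdfb32) (nat_lit 0x5200) (nat_lit 0xa432)
  (IL.C (nat_lit 2) (nat_lit 0x13d3c2978) (nat_lit 0x5200) (nat_lit 0x9433)
  (IL.C (nat_lit 0) (nat_lit 0x65a90183a62) (nat_lit 0x8100) (nat_lit 0x8100)
  (IL.C (nat_lit 1) (nat_lit 0x674f5e18) (nat_lit 0x8100) (nat_lit 0xa200)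
  (IL.C (nat_lit 1) (nat_lit 0x1b8306d2) (nat_lit 0x8100) (nat_lit 0xa210)
  (IL.C (nat_lit 1) (nat_lit 0x637b46c2) (nat_lit 0x8100) (nat_lit 0x5411)
  (IL.C (nat_lit 1) (nat_lit 0x1823b496) (nat_lit 0x8100) (nat_lit 0x7600)
  (IL.C (nat_lit 1) (nat_lit 0x19c79ab6) (nat_lit 0x8100) (nat_lit 0xa410)
  (IL.C (nat_lit 1) (nat_lit 0xa92635dc) (nat_lit 0x8100) (nat_lit 0xc220)
  (IL.C (nat_lit 1) (nat_lit 0x2582baaa) (nat_lit 0x8100) (nat_lit 0x8521)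
  (IL.C (nat_lit 1) (nat_lit 0x52a0534c) (nat_lit 0x8100) (nat_lit 0x8540)
  (IL.C (nat_lit 1) (nat_lit 0x84c7c15a) (nat_lit 0x8100) (nat_lit 0x8742)
  (IL.C (nat_lit 2) (nat_lit 0x77e72bc) (nat_lit 0x8100) (nat_lit 0x8110)
  (IL.C (nat_lit 2) (nat_lit 0xf8ff38bc) (nat_lit 0x8100) (nat_lit 0xa400)
  (IL.C (nat_lit 2) (nat_lit 0xff4ddb48) (nat_lit 0x8100) (nat_lit 0xa211)
  (IL.C (nat_lit 2) (nat_lit 0x6cd94c0a) (nat_lit 0x8100) (nat_lit 0x8320)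
  (IL.C (nat_lit 2) (nat_lit 0x95910da4) (nat_lit 0x8100) (nat_lit 0x7610)
  (IL.C (nat_lit 2) (nat_lit 0x78ffe802) (nat_lit 0x8100) (nat_lit 0xc600)
  (IL.C (nat_lit 2) (nat_lit 0xcf744c88) (nat_lit 0x8100) (nat_lit 0x8520)
  (IL.C (nat_lit 2) (nat_lit 0xd32b7788) (nat_lit 0x8100) (nat_lit 0xc420)
  (IL.C (nat_lit 2) (nat_lit 0x6756eb6e) (nat_lit 0x8100) (nat_lit 0x9720)
  (IL.C (nat_lit 2) (nat_lit 0xfc6e34dc) (nat_lit 0x8100) (nat_lit 0x9721)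
  (IL.C (nat_lit 2) (nat_lit 0x1d83317e) (nat_lit 0x8100) (nat_lit 0xc440)
  (IL.C (nat_lit 2) (nat_lit 0x5d6aacd4) (nat_lit 0x8100) (nat_lit 0x9740)
  (IL.C (nat_lit 2) (nat_lit 0xed246094) (nat_lit 0x8100) (nat_lit 0xe442)
  (IL.C (nat_lit 0) (nat_lit 0x2d65c75720) (nat_lit 0xb000) (nat_lit 0xb000)
  (IL.C (nat_lit 1) (nat_lit 0x15a398a) (nat_lit 0xb000) (nat_lit 0xd500)
  (IL.C (nat_lit 2) (nat_lit 0x5b6055e) (nat_lit 0xb000) (nat_lit 0xb100)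
  (IL.C (nat_lit 2) (nat_lit 0xb3be396) (nat_lit 0xb000) (nat_lit 0xd300)
  (IL.C (nat_lit 0) (nat_lit 0xb3ce16122aa) (nat_lit 0x4111) (nat_lit 0x4111)
  (IL.C (nat_lit 1) (nat_lit 0x1c6a030e) (nat_lit 0x4111) (nat_lit 0x9100)
  (IL.C (nat_lit 1) (nat_lit 0x48d76f8a) (nat_lit 0x4111) (nat_lit 0x8210)
  (IL.C (nat_lit 1) (nat_lit 0xb2e8b008) (nat_lit 0x4111) (nat_lit 0x8410)
  (IL.C (nat_lit 1) (nat_lit 0x49ba21ce) (nat_lit 0x4111) (nat_lit 0x6511)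
  (IL.C (nat_lit 1) (nat_lit 0x9f7050e4) (nat_lit 0x4111) (nat_lit 0xb510)
  (IL.C (nat_lit 1) (nat_lit 0x74e9aec8) (nat_lit 0x4111) (nat_lit 0xd530)
  (IL.C (nat_lit 1) (nat_lit 0x13ecb198a) (nat_lit 0x4111) (nat_lit 0xb721) its1_7))))))))))))))))))))))))))))))))))))))))

noncomputable def its1_5 : IL :=
  (IL.C (nat_lit 2) (nat_lit 0x642d1594) (nat_lit 0x3210) (nat_lit 0x5200)
  (IL.C (nat_lit 2) (nat_lit 0x181b0989a) (nat_lit 0x3210) (nat_lit 0x5210)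
  (IL.C (nat_lit 2) (nat_lit 0x389726f22) (nat_lit 0x3210) (nat_lit 0x5211)
  (IL.C (nat_lit 2) (nat_lit 0x54936602) (nat_lit 0x3210) (nat_lit 0x7221)
  (IL.C (nat_lit 2) (nat_lit 0x7f4eb1ec) (nat_lit 0x3210) (nat_lit 0x8320)
  (IL.C (nat_lit 2) (nat_lit 0x1198d2a40) (nat_lit 0x3210) (nat_lit 0x5322)
  (IL.C (nat_lit 2) (nat_lit 0x24f7bce4e) (nat_lit 0x3210) (nat_lit 0x8520)
  (IL.C (nat_lit 2) (nat_lit 0xed5bc350) (nat_lit 0x3210) (nat_lit 0xe222)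
  (IL.C (nat_lit 2) (nat_lit 0x248a835b8) (nat_lit 0x3210) (nat_lit 0xa432)
  (IL.C (nat_lit 1) (nat_lit 0x93d52b06) (nat_lit 0x2211) (nat_lit 0xd310)
  (IL.C (nat_lit 1) (nat_lit 0x6a29735c) (nat_lit 0x2211) (nat_lit 0xd433)
  (IL.C (nat_lit 2) (nat_lit 0x673fa92e) (nat_lit 0x2211) (nat_lit 0x6431)
  (IL.C (nat_lit 0) (nat_lit 0x5acc92b13a) (nat_lit 0x9000) (nat_lit 0x9000)
  (IL.C (nat_lit 1) (nat_lit 0x11e4c6e2) (nat_lit 0x9000) (nat_lit 0x9100)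
  (IL.C (nat_lit 1) (nat_lit 0x10227136) (nat_lit 0x9000) (nat_lit 0xa600)
  (IL.C (nat_lit 1) (nat_lit 0x794c72a) (nat_lit 0x9000) (nat_lit 0xd700)
  (IL.C (nat_lit 2) (nat_lit 0x67c53b2) (nat_lit 0x9000) (nat_lit 0xb300)
  (IL.C (nat_lit 2) (nat_lit 0x1c4657b2) (nat_lit 0x9000) (nat_lit 0xb500)
  (IL.C (nat_lit 0) (nat_lit 0x67511732c800) (nat_lit 0x5200) (nat_lit 0x5200)
  (IL.C (nat_lit 1) (nat_lit 0x5fb5ffc0) (nat_lit 0x5200) (nat_lit 0x4300)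
  (IL.C (nat_lit 1) (nat_lit 0x1a0df6484) (nat_lit 0x5200) (nat_lit 0x5210)
  (IL.C (nat_lit 1) (nat_lit 0x6b22a09c) (nat_lit 0x5200) (nat_lit 0x5400)
  (IL.C (nat_lit 1) (nat_lit 0x846a869c) (nat_lit 0x5200) (nat_lit 0x8320)
  (IL.C (nat_lit 1) (nat_lit 0x19b40bc08) (nat_lit 0x5200) (nat_lit 0x4332)
  (IL.C (nat_lit 1) (nat_lit 0x70598a5c) (nat_lit 0x5200) (nat_lit 0x8430)
  (IL.C (nat_lit 1) (nat_lit 0x14337951c) (nat_lit 0x5200) (nat_lit 0x6550)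
  (IL.C (nat_lit 1) (nat_lit 0x425cba94) (nat_lit 0x5200) (nat_lit 0x4433)
  (IL.C (nat_lit 1) (nat_lit 0x1dd8cb77a) (nat_lit 0x5200) (nat_lit 0x9332)
  (IL.C (nat_lit 1) (nat_lit 0x5924ca78) (nat_lit 0x5200) (nat_lit 0xe422)
  (IL.C (nat_lit 1) (nat_lit 0x8e48c4a8) (nat_lit 0x5200) (nat_lit 0xd333)
  (IL.C (nat_lit 1) (nat_lit 0x6d0b7164) (nat_lit 0x5200) (nat_lit 0xd533)
  (IL.C (nat_lit 2) (nat_lit 0x122ce5fec) (nat_lit 0x5200) (nat_lit 0x4310)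
  (IL.C (nat_lit 2) (nat_lit 0x9a66fba4) (nat_lit 0x5200) (nat_lit 0x5410)
  (IL.C (nat_lit 2) (nat_lit 0x6232c84) (nat_lit 0x5200) (nat_lit 0x7220)
  (IL.C (nat_lit 2) (nat_lit 0x6c8bb604) (nat_lit 0x5200) (nat_lit 0x6330)
  (IL.C (nat_lit 2) (nat_lit 0x13147bb7a) (nat_lit 0x5200) (nat_lit 0x7420)
  (IL.C (nat_lit 2) (nat_lit 0xae6e9bbc) (nat_lit 0x5200) (nat_lit 0x8520)
  (IL.C (nat_lit 2) (nat_lit 0x210f6ea2) (nat_lit 0x5200) (nat_lit 0x6530)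
  (IL.C (nat_lit 2) (nat_lit 0x6fccc8a6) (nat_lit 0x5200) (nat_lit 0x5522)
  (IL.C (nat_lit 2) (nat_lit 0x10d4380a) (nat_lit 0x5200) (nat_lit 0x7440) its1_6))))))))))))))))))))))))))))))))))))))))

noncomputable def its1_4 : IL :=
  (IL.C (nat_lit 2) (nat_lit 0x1a9faad9e) (nat_lit 0x2111) (nat_lit 0xd531)
  (IL.C (nat_lit 2) (nat_lit 0x15b533e40) (nat_lit 0x2111) (nat_lit 0x9722)
  (IL.C (nat_lit 0) (nat_lit 0x7c38abb2fc) (nat_lit 0x6000) (nat_lit 0x6000)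
  (IL.C (nat_lit 1) (nat_lit 0x16a5bd9e) (nat_lit 0x6000) (nat_lit 0xd500)
  (IL.C (nat_lit 2) (nat_lit 0x29bb5ea) (nat_lit 0x6000) (nat_lit 0xb000)
  (IL.C (nat_lit 2) (nat_lit 0x4a60108) (nat_lit 0x6000) (nat_lit 0x9200)
  (IL.C (nat_lit 2) (nat_lit 0x1d3dbe2) (nat_lit 0x6000) (nat_lit 0xd300)
  (IL.C (nat_lit 2) (nat_lit 0x2d3ea8e0) (nat_lit 0x6000) (nat_lit 0x8600)
  (IL.C (nat_lit 1) (nat_lit 0x125c6d23a) (nat_lit 0x2210) (nat_lit 0xd310)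
  (IL.C (nat_lit 1) (nat_lit 0x13d8c0244) (nat_lit 0x2210) (nat_lit 0x6430)
  (IL.C (nat_lit 2) (nat_lit 0xa2ead824) (nat_lit 0x2210) (nat_lit 0x6431)
  (IL.C (nat_lit 2) (nat_lit 0x2964320e) (nat_lit 0x2210) (nat_lit 0x9630)
  (IL.C (nat_lit 2) (nat_lit 0xe7a27428) (nat_lit 0x2210) (nat_lit 0xd433)
  (IL.C (nat_lit 0) (nat_lit 0x6134527166) (nat_lit 0x8000) (nat_lit 0x8000)
  (IL.C (nat_lit 1) (nat_lit 0x1cb6a850) (nat_lit 0x8000) (nat_lit 0xc600)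
  (IL.C (nat_lit 2) (nat_lit 0x147b8ccc) (nat_lit 0x8000) (nat_lit 0x8100)
  (IL.C (nat_lit 2) (nat_lit 0x17e1662a) (nat_lit 0x8000) (nat_lit 0xa200)
  (IL.C (nat_lit 2) (nat_lit 0x3e94d0f0) (nat_lit 0x8000) (nat_lit 0xa400)
  (IL.C (nat_lit 0) (nat_lit 0x11021d365380) (nat_lit 0x4110) (nat_lit 0x4110)
  (IL.C (nat_lit 1) (nat_lit 0x5440b346) (nat_lit 0x4110) (nat_lit 0x4111)
  (IL.C (nat_lit 1) (nat_lit 0xfb289dde) (nat_lit 0x4110) (nat_lit 0xb510)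
  (IL.C (nat_lit 1) (nat_lit 0x11c33c6b6) (nat_lit 0x4110) (nat_lit 0xd530)
  (IL.C (nat_lit 2) (nat_lit 0x44c74fd0) (nat_lit 0x4110) (nat_lit 0x6511)
  (IL.C (nat_lit 2) (nat_lit 0x919e99ca) (nat_lit 0x4110) (nat_lit 0xa421)
  (IL.C (nat_lit 2) (nat_lit 0xb2cb9524) (nat_lit 0x4110) (nat_lit 0x9521)
  (IL.C (nat_lit 0) (nat_lit 0x73b71f27a14) (nat_lit 0x6100) (nat_lit 0x6100)
  (IL.C (nat_lit 1) (nat_lit 0x1382c15f6) (nat_lit 0x6100) (nat_lit 0xd310)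
  (IL.C (nat_lit 1) (nat_lit 0xf80178ce) (nat_lit 0x6100) (nat_lit 0xd500)
  (IL.C (nat_lit 1) (nat_lit 0x1d1ff52e) (nat_lit 0x6100) (nat_lit 0x8440)
  (IL.C (nat_lit 0) (nat_lit 0x9881dca6ac16) (nat_lit 0x3210) (nat_lit 0x3210)
  (IL.C (nat_lit 1) (nat_lit 0x6b8fdbb4) (nat_lit 0x3210) (nat_lit 0x3211)
  (IL.C (nat_lit 1) (nat_lit 0x64e2e472) (nat_lit 0x3210) (nat_lit 0x7220)
  (IL.C (nat_lit 1) (nat_lit 0x2080a9f84) (nat_lit 0x3210) (nat_lit 0x7420)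
  (IL.C (nat_lit 1) (nat_lit 0x10ecc12f4) (nat_lit 0x3210) (nat_lit 0x7421)
  (IL.C (nat_lit 1) (nat_lit 0x1038a1cfc) (nat_lit 0x3210) (nat_lit 0x5522)
  (IL.C (nat_lit 1) (nat_lit 0x33ad61f2) (nat_lit 0x3210) (nat_lit 0x5432)
  (IL.C (nat_lit 1) (nat_lit 0x52912b16) (nat_lit 0x3210) (nat_lit 0xa322)
  (IL.C (nat_lit 1) (nat_lit 0x2e56dd06a) (nat_lit 0x3210) (nat_lit 0x9720)
  (IL.C (nat_lit 1) (nat_lit 0x4484df5e8) (nat_lit 0x3210) (nat_lit 0xa522)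
  (IL.C (nat_lit 1) (nat_lit 0xcbdd8dea) (nat_lit 0x3210) (nat_lit 0xe422) its1_5))))))))))))))))))))))))))))))))))))))))

noncomputable def its1_3 : IL :=
  (IL.C (nat_lit 2) (nat_lit 0x1ec79d32) (nat_lit 0x2110) (nat_lit 0x2111)
  (IL.C (nat_lit 2) (nat_lit 0x1b4c2d24e) (nat_lit 0x2110) (nat_lit 0x8210)
  (IL.C (nat_lit 2) (nat_lit 0x494b4804) (nat_lit 0x2110) (nat_lit 0x6311)
  (IL.C (nat_lit 2) (nat_lit 0x28a762d44) (nat_lit 0x2110) (nat_lit 0xa420)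
  (IL.C (nat_lit 2) (nat_lit 0xbdba3f9e) (nat_lit 0x2110) (nat_lit 0xc222)
  (IL.C (nat_lit 2) (nat_lit 0x7454152e) (nat_lit 0x2110) (nat_lit 0xb433)
  (IL.C (nat_lit 0) (nat_lit 0x323c2342d290) (nat_lit 0x4100) (nat_lit 0x4100)
  (IL.C (nat_lit 1) (nat_lit 0xdc885834) (nat_lit 0x4100) (nat_lit 0x6511)
  (IL.C (nat_lit 1) (nat_lit 0x29f98124) (nat_lit 0x4100) (nat_lit 0x9520)
  (IL.C (nat_lit 1) (nat_lit 0x12e0c2be) (nat_lit 0x4100) (nat_lit 0x9521)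
  (IL.C (nat_lit 1) (nat_lit 0x13dc0e5a6) (nat_lit 0x4100) (nat_lit 0xd530)
  (IL.C (nat_lit 2) (nat_lit 0x1de30fdc2) (nat_lit 0x4100) (nat_lit 0x2111)
  (IL.C (nat_lit 2) (nat_lit 0x69c3bf14) (nat_lit 0x4100) (nat_lit 0x6510)
  (IL.C (nat_lit 2) (nat_lit 0x14696c58) (nat_lit 0x4100) (nat_lit 0xb510)
  (IL.C (nat_lit 2) (nat_lit 0x1e12874aa) (nat_lit 0x4100) (nat_lit 0xa420)
  (IL.C (nat_lit 2) (nat_lit 0xf588e322) (nat_lit 0x4100) (nat_lit 0xa421)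
  (IL.C (nat_lit 2) (nat_lit 0x492e1ac6) (nat_lit 0x4100) (nat_lit 0x7640)
  (IL.C (nat_lit 2) (nat_lit 0x2ac533b02) (nat_lit 0x4100) (nat_lit 0xc422)
  (IL.C (nat_lit 2) (nat_lit 0xd81f16d6) (nat_lit 0x4100) (nat_lit 0xb532)
  (IL.C (nat_lit 0) (nat_lit 0x2d3e10ca16e8) (nat_lit 0x2111) (nat_lit 0x2111)
  (IL.C (nat_lit 1) (nat_lit 0xb95bad1a) (nat_lit 0x2111) (nat_lit 0x6311)
  (IL.C (nat_lit 1) (nat_lit 0x135e249f2) (nat_lit 0x2111) (nat_lit 0xb310)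
  (IL.C (nat_lit 1) (nat_lit 0x142f48b8) (nat_lit 0x2111) (nat_lit 0x8322)
  (IL.C (nat_lit 1) (nat_lit 0x1ac2bb17e) (nat_lit 0x2111) (nat_lit 0xa421)
  (IL.C (nat_lit 1) (nat_lit 0x56d26950) (nat_lit 0x2111) (nat_lit 0xc222)
  (IL.C (nat_lit 1) (nat_lit 0x5808c3c) (nat_lit 0x2111) (nat_lit 0xd331)
  (IL.C (nat_lit 1) (nat_lit 0x11cc6c898) (nat_lit 0x2111) (nat_lit 0x9431)
  (IL.C (nat_lit 1) (nat_lit 0x15346a404) (nat_lit 0x2111) (nat_lit 0xc621)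
  (IL.C (nat_lit 1) (nat_lit 0x21e165608) (nat_lit 0x2111) (nat_lit 0xc422)
  (IL.C (nat_lit 1) (nat_lit 0x3ea14ae) (nat_lit 0x2111) (nat_lit 0xb433)
  (IL.C (nat_lit 1) (nat_lit 0xc13fcd30) (nat_lit 0x2111) (nat_lit 0x9633)
  (IL.C (nat_lit 2) (nat_lit 0xdcb40000) (nat_lit 0x2111) (nat_lit 0x4110)
  (IL.C (nat_lit 2) (nat_lit 0x87ff0ebe) (nat_lit 0x2111) (nat_lit 0x4111)
  (IL.C (nat_lit 2) (nat_lit 0x16e9b17a4) (nat_lit 0x2111) (nat_lit 0x8210)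
  (IL.C (nat_lit 2) (nat_lit 0x1c0866acc) (nat_lit 0x2111) (nat_lit 0x6510)
  (IL.C (nat_lit 2) (nat_lit 0x1141d5eba) (nat_lit 0x2111) (nat_lit 0x6511)
  (IL.C (nat_lit 2) (nat_lit 0x44c87554) (nat_lit 0x2111) (nat_lit 0xb510)
  (IL.C (nat_lit 2) (nat_lit 0x287109a74) (nat_lit 0x2111) (nat_lit 0xa420)
  (IL.C (nat_lit 2) (nat_lit 0x1957b1396) (nat_lit 0x2111) (nat_lit 0x9430)
  (IL.C (nat_lit 2) (nat_lit 0x15c57d06a) (nat_lit 0x2111) (nat_lit 0xd530) its1_4))))))))))))))))))))))))))))))))))))))))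

noncomputable def its1_2 : IL :=
  (IL.C (nat_lit 2) (nat_lit 0x867b1810) (nat_lit 0x1111) (nat_lit 0xc611)
  (IL.C (nat_lit 2) (nat_lit 0xdf7a8d6) (nat_lit 0x1111) (nat_lit 0xc421)
  (IL.C (nat_lit 2) (nat_lit 0x58861fae) (nat_lit 0x1111) (nat_lit 0x8541)
  (IL.C (nat_lit 2) (nat_lit 0x4362adfe) (nat_lit 0x1111) (nat_lit 0xe621)
  (IL.C (nat_lit 2) (nat_lit 0x2401ccd0) (nat_lit 0x1111) (nat_lit 0x9741)
  (IL.C (nat_lit 2) (nat_lit 0x14f5483e4) (nat_lit 0x1111) (nat_lit 0xc654)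
  (IL.C (nat_lit 0) (nat_lit 0x1414e232b89c) (nat_lit 0x4000) (nat_lit 0x4000)
  (IL.C (nat_lit 1) (nat_lit 0xbe59ca4) (nat_lit 0x4000) (nat_lit 0x8200)
  (IL.C (nat_lit 1) (nat_lit 0x3efe1a22) (nat_lit 0x4000) (nat_lit 0x8400)
  (IL.C (nat_lit 1) (nat_lit 0xbde5495c) (nat_lit 0x4000) (nat_lit 0xa220)
  (IL.C (nat_lit 1) (nat_lit 0x68b095bc) (nat_lit 0x4000) (nat_lit 0xa600)
  (IL.C (nat_lit 1) (nat_lit 0x4b2b5a12) (nat_lit 0x4000) (nat_lit 0xb510)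
  (IL.C (nat_lit 1) (nat_lit 0x121f45da6) (nat_lit 0x4000) (nat_lit 0xa420)
  (IL.C (nat_lit 1) (nat_lit 0x5807bb30) (nat_lit 0x4000) (nat_lit 0xc222)
  (IL.C (nat_lit 1) (nat_lit 0x3eab8a66) (nat_lit 0x4000) (nat_lit 0x8630)
  (IL.C (nat_lit 1) (nat_lit 0xe4afa1ee) (nat_lit 0x4000) (nat_lit 0xc620)
  (IL.C (nat_lit 1) (nat_lit 0x72b4c1fa) (nat_lit 0x4000) (nat_lit 0xb720)
  (IL.C (nat_lit 1) (nat_lit 0x5f9b545a) (nat_lit 0x4000) (nat_lit 0x8650)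
  (IL.C (nat_lit 1) (nat_lit 0x79892152) (nat_lit 0x4000) (nat_lit 0xc422)
  (IL.C (nat_lit 1) (nat_lit 0x38b7d838) (nat_lit 0x4000) (nat_lit 0xc640)
  (IL.C (nat_lit 1) (nat_lit 0x8921bd5e) (nat_lit 0x4000) (nat_lit 0xb532)
  (IL.C (nat_lit 1) (nat_lit 0xbc509388) (nat_lit 0x4000) (nat_lit 0x9742)
  (IL.C (nat_lit 1) (nat_lit 0x1b154b596) (nat_lit 0x4000) (nat_lit 0xa652)
  (IL.C (nat_lit 1) (nat_lit 0x78e6372e) (nat_lit 0x4000) (nat_lit 0x9653)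
  (IL.C (nat_lit 2) (nat_lit 0x16085d0) (nat_lit 0x4000) (nat_lit 0x9000)
  (IL.C (nat_lit 2) (nat_lit 0x48c772d8) (nat_lit 0x4000) (nat_lit 0x6300)
  (IL.C (nat_lit 2) (nat_lit 0x8a3bdcb6) (nat_lit 0x4000) (nat_lit 0x6500)
  (IL.C (nat_lit 2) (nat_lit 0x4bc5dfc8) (nat_lit 0x4000) (nat_lit 0xb300)
  (IL.C (nat_lit 2) (nat_lit 0x66266d1e) (nat_lit 0x4000) (nat_lit 0xb500)
  (IL.C (nat_lit 2) (nat_lit 0x6e8824e0) (nat_lit 0x4000) (nat_lit 0x9320)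
  (IL.C (nat_lit 2) (nat_lit 0x117e39f2) (nat_lit 0x4000) (nat_lit 0x7620)
  (IL.C (nat_lit 2) (nat_lit 0xec575dda) (nat_lit 0x4000) (nat_lit 0x9520)
  (IL.C (nat_lit 2) (nat_lit 0x7342b3c2) (nat_lit 0x4000) (nat_lit 0xd330)
  (IL.C (nat_lit 2) (nat_lit 0x66e1bbfc) (nat_lit 0x4000) (nat_lit 0xd530)
  (IL.C (nat_lit 2) (nat_lit 0x16975dd2c) (nat_lit 0x4000) (nat_lit 0xb332)
  (IL.C (nat_lit 0) (nat_lit 0x60915a37668e) (nat_lit 0x2110) (nat_lit 0x2110)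
  (IL.C (nat_lit 1) (nat_lit 0x1928015ca) (nat_lit 0x2110) (nat_lit 0x6510)
  (IL.C (nat_lit 1) (nat_lit 0x1658353c) (nat_lit 0x2110) (nat_lit 0x9430)
  (IL.C (nat_lit 1) (nat_lit 0xc68e6a80) (nat_lit 0x2110) (nat_lit 0xc422)
  (IL.C (nat_lit 2) (nat_lit 0x121c3b37e) (nat_lit 0x2110) (nat_lit 0x4100) its1_3))))))))))))))))))))))))))))))))))))))))

noncomputable def its1_1 : IL :=
  (IL.C (nat_lit 1) (nat_lit 0x28d562d6a) (nat_lit 0x1100) (nat_lit 0x8540)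
  (IL.C (nat_lit 1) (nat_lit 0x2af753e4) (nat_lit 0x1100) (nat_lit 0xc632)
  (IL.C (nat_lit 2) (nat_lit 0x8e5ec7da) (nat_lit 0x1100) (nat_lit 0x8110)
  (IL.C (nat_lit 2) (nat_lit 0x91d2c094) (nat_lit 0x1100) (nat_lit 0xa211)
  (IL.C (nat_lit 2) (nat_lit 0x17f1795d6) (nat_lit 0x1100) (nat_lit 0x8320)
  (IL.C (nat_lit 2) (nat_lit 0x8d6dfd6c) (nat_lit 0x1100) (nat_lit 0xa410)
  (IL.C (nat_lit 2) (nat_lit 0x5d32fce0) (nat_lit 0x1100) (nat_lit 0xc600)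
  (IL.C (nat_lit 2) (nat_lit 0x76fbba50) (nat_lit 0x1100) (nat_lit 0x8520)
  (IL.C (nat_lit 2) (nat_lit 0xa08a3226) (nat_lit 0x1100) (nat_lit 0xc610)
  (IL.C (nat_lit 2) (nat_lit 0x81430822) (nat_lit 0x1100) (nat_lit 0x8521)
  (IL.C (nat_lit 2) (nat_lit 0x1f891096a) (nat_lit 0x1100) (nat_lit 0xc421)
  (IL.C (nat_lit 2) (nat_lit 0xa7e9f3e2) (nat_lit 0x1100) (nat_lit 0xe422)
  (IL.C (nat_lit 0) (nat_lit 0x266b571b7f8) (nat_lit 0x1110) (nat_lit 0x1110)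
  (IL.C (nat_lit 2) (nat_lit 0xb5f84a) (nat_lit 0x1110) (nat_lit 0x1111)
  (IL.C (nat_lit 0) (nat_lit 0x4bbd07cfbe56) (nat_lit 0x2100) (nat_lit 0x2100)
  (IL.C (nat_lit 1) (nat_lit 0x1391423c) (nat_lit 0x2100) (nat_lit 0x2110)
  (IL.C (nat_lit 1) (nat_lit 0x12ec0c68c) (nat_lit 0x2100) (nat_lit 0x4100)
  (IL.C (nat_lit 1) (nat_lit 0x1634cc950) (nat_lit 0x2100) (nat_lit 0x6310)
  (IL.C (nat_lit 1) (nat_lit 0x86cf3cc2) (nat_lit 0x2100) (nat_lit 0x6311)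
  (IL.C (nat_lit 1) (nat_lit 0x14cbcef52) (nat_lit 0x2100) (nat_lit 0xc222)
  (IL.C (nat_lit 1) (nat_lit 0x20177a00e) (nat_lit 0x2100) (nat_lit 0x7640)
  (IL.C (nat_lit 1) (nat_lit 0x1f8eda80a) (nat_lit 0x2100) (nat_lit 0xc422)
  (IL.C (nat_lit 1) (nat_lit 0x14ef3138) (nat_lit 0x2100) (nat_lit 0xb433)
  (IL.C (nat_lit 2) (nat_lit 0x30da5e) (nat_lit 0x2100) (nat_lit 0x6510)
  (IL.C (nat_lit 2) (nat_lit 0x1028b5bc6) (nat_lit 0x2100) (nat_lit 0xa420)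
  (IL.C (nat_lit 2) (nat_lit 0x16cf12132) (nat_lit 0x2100) (nat_lit 0x9430)
  (IL.C (nat_lit 0) (nat_lit 0x51d1039a364) (nat_lit 0x1111) (nat_lit 0x1111)
  (IL.C (nat_lit 1) (nat_lit 0x4cb7980a) (nat_lit 0x1111) (nat_lit 0x8100)
  (IL.C (nat_lit 1) (nat_lit 0xa6672fba) (nat_lit 0x1111) (nat_lit 0xa210)
  (IL.C (nat_lit 1) (nat_lit 0x7932217c) (nat_lit 0x1111) (nat_lit 0xa211)
  (IL.C (nat_lit 1) (nat_lit 0x8702154) (nat_lit 0x1111) (nat_lit 0xc600)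
  (IL.C (nat_lit 1) (nat_lit 0xb6f7792) (nat_lit 0x1111) (nat_lit 0xa411)
  (IL.C (nat_lit 1) (nat_lit 0x80ea3502) (nat_lit 0x1111) (nat_lit 0xc441)
  (IL.C (nat_lit 2) (nat_lit 0xd95508c) (nat_lit 0x1111) (nat_lit 0x8110)
  (IL.C (nat_lit 2) (nat_lit 0x3b4f75dc) (nat_lit 0x1111) (nat_lit 0x8111)
  (IL.C (nat_lit 2) (nat_lit 0x4d66ae4c) (nat_lit 0x1111) (nat_lit 0xa410)
  (IL.C (nat_lit 2) (nat_lit 0x25626746) (nat_lit 0x1111) (nat_lit 0x8321)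
  (IL.C (nat_lit 2) (nat_lit 0x4e1a887e) (nat_lit 0x1111) (nat_lit 0xc221)
  (IL.C (nat_lit 2) (nat_lit 0x59e0f506) (nat_lit 0x1111) (nat_lit 0xc610)
  (IL.C (nat_lit 2) (nat_lit 0xe9038f0) (nat_lit 0x1111) (nat_lit 0x8521) its1_2))))))))))))))))))))))))))))))))))))))))

noncomputable def its1 : IL :=
  (IL.C (nat_lit 0) (nat_lit 0x18ca5b88bdc6) (nat_lit 0x1000) (nat_lit 0x1000)
  (IL.C (nat_lit 1) (nat_lit 0x52f1f688) (nat_lit 0x1000) (nat_lit 0x1100)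
  (IL.C (nat_lit 1) (nat_lit 0xd6dd410) (nat_lit 0x1000) (nat_lit 0x8000)
  (IL.C (nat_lit 1) (nat_lit 0xa7ac0f40) (nat_lit 0x1000) (nat_lit 0x8100)
  (IL.C (nat_lit 1) (nat_lit 0x1b59e33fc) (nat_lit 0x1000) (nat_lit 0xa210)
  (IL.C (nat_lit 1) (nat_lit 0x6d96d95a) (nat_lit 0x1000) (nat_lit 0x7220)
  (IL.C (nat_lit 1) (nat_lit 0x6913e35e) (nat_lit 0x1000) (nat_lit 0x5411)
  (IL.C (nat_lit 1) (nat_lit 0xdc2fcaee) (nat_lit 0x1000) (nat_lit 0x8320)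
  (IL.C (nat_lit 1) (nat_lit 0xdbad79e0) (nat_lit 0x1000) (nat_lit 0xc600)
  (IL.C (nat_lit 1) (nat_lit 0x1ee654a82) (nat_lit 0x1000) (nat_lit 0x8520)
  (IL.C (nat_lit 1) (nat_lit 0x20166bee6) (nat_lit 0x1000) (nat_lit 0xc221)
  (IL.C (nat_lit 1) (nat_lit 0x7f9b13ca) (nat_lit 0x1000) (nat_lit 0xc420)
  (IL.C (nat_lit 1) (nat_lit 0x73fe429a) (nat_lit 0x1000) (nat_lit 0x9720)
  (IL.C (nat_lit 1) (nat_lit 0x97ebd1d2) (nat_lit 0x1000) (nat_lit 0xe620)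
  (IL.C (nat_lit 1) (nat_lit 0x9465436e) (nat_lit 0x1000) (nat_lit 0x9740)
  (IL.C (nat_lit 1) (nat_lit 0x10a29f4fc) (nat_lit 0x1000) (nat_lit 0xe422)
  (IL.C (nat_lit 1) (nat_lit 0x56a56e4) (nat_lit 0x1000) (nat_lit 0xc632)
  (IL.C (nat_lit 1) (nat_lit 0x5d8bc3f6) (nat_lit 0x1000) (nat_lit 0xb752)
  (IL.C (nat_lit 2) (nat_lit 0xe6387f82) (nat_lit 0x1000) (nat_lit 0x1111)
  (IL.C (nat_lit 2) (nat_lit 0x925bf250) (nat_lit 0x1000) (nat_lit 0x5200)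
  (IL.C (nat_lit 2) (nat_lit 0x1847e820) (nat_lit 0x1000) (nat_lit 0x5400)
  (IL.C (nat_lit 2) (nat_lit 0x3641e0a8) (nat_lit 0x1000) (nat_lit 0xa200)
  (IL.C (nat_lit 2) (nat_lit 0x1343e7e6) (nat_lit 0x1000) (nat_lit 0x7600)
  (IL.C (nat_lit 2) (nat_lit 0x66fa16d2) (nat_lit 0x1000) (nat_lit 0xa400)
  (IL.C (nat_lit 2) (nat_lit 0x134ac15ba) (nat_lit 0x1000) (nat_lit 0xa410)
  (IL.C (nat_lit 2) (nat_lit 0xa71bbb8a) (nat_lit 0x1000) (nat_lit 0xc220)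
  (IL.C (nat_lit 2) (nat_lit 0x14b795ff4) (nat_lit 0x1000) (nat_lit 0x7420)
  (IL.C (nat_lit 2) (nat_lit 0xbed56b4a) (nat_lit 0x1000) (nat_lit 0x7440)
  (IL.C (nat_lit 2) (nat_lit 0x7979ee84) (nat_lit 0x1000) (nat_lit 0xa322)
  (IL.C (nat_lit 2) (nat_lit 0x23315bde) (nat_lit 0x1000) (nat_lit 0xe222)
  (IL.C (nat_lit 2) (nat_lit 0xb623fb56) (nat_lit 0x1000) (nat_lit 0x8540)
  (IL.C (nat_lit 2) (nat_lit 0x153d8b1b0) (nat_lit 0x1000) (nat_lit 0xc421)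
  (IL.C (nat_lit 2) (nat_lit 0x254b503ba) (nat_lit 0x1000) (nat_lit 0xc652)
  (IL.C (nat_lit 0) (nat_lit 0xfca292c4e2a) (nat_lit 0x1100) (nat_lit 0x1100)
  (IL.C (nat_lit 1) (nat_lit 0xce2eb20) (nat_lit 0x1100) (nat_lit 0x8100)
  (IL.C (nat_lit 1) (nat_lit 0x19eabb332) (nat_lit 0x1100) (nat_lit 0xa210)
  (IL.C (nat_lit 1) (nat_lit 0x3fe3f3e2) (nat_lit 0x1100) (nat_lit 0x7610)
  (IL.C (nat_lit 1) (nat_lit 0x94a57700) (nat_lit 0x1100) (nat_lit 0xc221)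
  (IL.C (nat_lit 1) (nat_lit 0x316484b54) (nat_lit 0x1100) (nat_lit 0xa322)
  (IL.C (nat_lit 1) (nat_lit 0xae00632a) (nat_lit 0x1100) (nat_lit 0x9720) its1_1))))))))))))))))))))))))))))))))))))))))

/-- the factor -/
def c1 : ℕ := nat_lit 500

end Pool.Agent.Work.MP_440970_an.FX.D1
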