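import Pool.Agent.Work.MP_440970_an.FX.D1.Data

/-!
# first part of the form
-/

set_option autoImplicit false
set_option maxRecDepth 1000000

namespace Pool.Agent.Work.MP_440970_an.FX.D1

noncomputable def lm1_245 : PL :=
  (PL.C (nat_lit 0x58406e865) (nat_lit 0x8d39f87e8f00) (nat_lit 0x0)
  (PL.C (nat_lit 0x5c5fe2555) (nat_lit 0x896555d52c00) (nat_lit 0x0)
  (PL.C (nat_lit 0x5d2b73e43) (nat_lit 0x112caabaa5800) (nat_lit 0x0)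
  (PL.C (nat_lit 0x5ef127693) (nat_lit 0x0) (nat_lit 0x896555d52c00)
  (PL.C (nat_lit 0x66206f579) (nat_lit 0x112caabaa5800) (nat_lit 0x0)
  (PL.C (nat_lit 0x67017e9ff) (nat_lit 0x896555d52c00) (nat_lit 0x0)
  (PL.C (nat_lit 0x70529c2c3) (nat_lit 0x10ad333a20500) (nat_lit 0x0)
  (PL.C (nat_lit 0x70db51411) (nat_lit 0x225955754b00) (nat_lit 0x0)
  (PL.C (nat_lit 0x8f34f386b) (nat_lit 0x896555d52c00) (nat_lit 0x0)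
  (PL.C (nat_lit 0x955e28fb7) (nat_lit 0x896555d52c00) (nat_lit 0x0)
  (PL.C (nat_lit 0xa3a7082d9) (nat_lit 0x0) (nat_lit 0x225955754b00)
  (PL.C (nat_lit 0xaef5c3eaf) (nat_lit 0x0) (nat_lit 0x225955754b00)
  (PL.C (nat_lit 0xbccfff6b9) (nat_lit 0x225955754b00) (nat_lit 0x0)
  (PL.C (nat_lit 0xbe7016ebf) (nat_lit 0x44b2aaea9600) (nat_lit 0x0)
  (PL.C (nat_lit 0xc013c3609) (nat_lit 0x225955754b00) (nat_lit 0x0)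
  (PL.C (nat_lit 0xfdb5395e7) (nat_lit 0x225955754b00) (nat_lit 0x0) PL.Z))))))))))))))))

noncomputable def lm1_244 : PL :=
  (PL.C (nat_lit 0x362e06763) (nat_lit 0x896555d52c00) (nat_lit 0x0)
  (PL.C (nat_lit 0x36fdc5ccb) (nat_lit 0x670c005fe100) (nat_lit 0x0)
  (PL.C (nat_lit 0x373d40439) (nat_lit 0x225955754b000) (nat_lit 0x0)
  (PL.C (nat_lit 0x3776f569d) (nat_lit 0x3386002ff080) (nat_lit 0x0)
  (PL.C (nat_lit 0x37e5662a3) (nat_lit 0x0) (nat_lit 0x225955754b000)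
  (PL.C (nat_lit 0x3c7b40669) (nat_lit 0x6b38aae10c00) (nat_lit 0x0)
  (PL.C (nat_lit 0x3d3ddd92d) (nat_lit 0x896555d52c00) (nat_lit 0x0)
  (PL.C (nat_lit 0x3f66b3257) (nat_lit 0x42b4cce881400) (nat_lit 0x0)
  (PL.C (nat_lit 0x4118119a5) (nat_lit 0x3386002ff080) (nat_lit 0x0)
  (PL.C (nat_lit 0x4220f7fd3) (nat_lit 0x42b4cce881400) (nat_lit 0x0)
  (PL.C (nat_lit 0x425d38a89) (nat_lit 0x35c4d330d900) (nat_lit 0x0)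
  (PL.C (nat_lit 0x44a0e265b) (nat_lit 0x35c4d330d900) (nat_lit 0x0)
  (PL.C (nat_lit 0x4873f48fd) (nat_lit 0x0) (nat_lit 0x10ad333a20500)
  (PL.C (nat_lit 0x4d75864ab) (nat_lit 0x0) (nat_lit 0x10ad333a20500)
  (PL.C (nat_lit 0x4e90cb93b) (nat_lit 0x0) (nat_lit 0x896555d52c00)
  (PL.C (nat_lit 0x506dc74c5) (nat_lit 0x3386002ff080) (nat_lit 0x0)
  (PL.C (nat_lit 0x53978745d) (nat_lit 0x10ad333a20500) (nat_lit 0x0)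
  (PL.C (nat_lit 0x544fbe0fb) (nat_lit 0x43b3bbe98ba00) (nat_lit 0x0)
  (PL.C (nat_lit 0x55098aced) (nat_lit 0x10ad333a20500) (nat_lit 0x0)
  (PL.C (nat_lit 0x577f9bd43) (nat_lit 0x8d39f87e8f00) (nat_lit 0x0) lm1_245))))))))))))))))))))

noncomputable def lm1_243 : PL :=
  (PL.C (nat_lit 0x288c4e751) (nat_lit 0x910e9b27f200) (nat_lit 0x0)
  (PL.C (nat_lit 0x28e57f269) (nat_lit 0x42b4cce881400) (nat_lit 0x0)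
  (PL.C (nat_lit 0x293f9f18f) (nat_lit 0x856999d102800) (nat_lit 0x0)
  (PL.C (nat_lit 0x29b56fb21) (nat_lit 0x0) (nat_lit 0x6b38aae10c00)
  (PL.C (nat_lit 0x29fd09c9b) (nat_lit 0x3386002ff080) (nat_lit 0x0)
  (PL.C (nat_lit 0x2a087c71f) (nat_lit 0x0) (nat_lit 0x42b4cce881400)
  (PL.C (nat_lit 0x2a5991c4d) (nat_lit 0x670c005fe100) (nat_lit 0x0)
  (PL.C (nat_lit 0x2acec68b7) (nat_lit 0x1ff230ec96300) (nat_lit 0x0)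
  (PL.C (nat_lit 0x2c58c77ef) (nat_lit 0x0) (nat_lit 0x225955754b000)
  (PL.C (nat_lit 0x2d02d2af7) (nat_lit 0x6b38aae10c00) (nat_lit 0x0)
  (PL.C (nat_lit 0x2d317b381) (nat_lit 0x225955754b000) (nat_lit 0x0)
  (PL.C (nat_lit 0x2d36c7e1d) (nat_lit 0x856999d102800) (nat_lit 0x0)
  (PL.C (nat_lit 0x2d6603e11) (nat_lit 0x1a4895681da00) (nat_lit 0x0)
  (PL.C (nat_lit 0x2d9a6b93b) (nat_lit 0x42b4cce881400) (nat_lit 0x0)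
  (PL.C (nat_lit 0x2dca0faa7) (nat_lit 0x6b38aae10c00) (nat_lit 0x0)
  (PL.C (nat_lit 0x2f53b6b83) (nat_lit 0x1ff230ec96300) (nat_lit 0x0)
  (PL.C (nat_lit 0x31ba5e80f) (nat_lit 0x2078177219b00) (nat_lit 0x0)
  (PL.C (nat_lit 0x31f6e4915) (nat_lit 0x555fde24b6500) (nat_lit 0x0)
  (PL.C (nat_lit 0x330e46fcd) (nat_lit 0x6b38aae10c00) (nat_lit 0x0)
  (PL.C (nat_lit 0x331f63fd9) (nat_lit 0x0) (nat_lit 0x3386002ff080) lm1_244))))))))))))))))))))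

noncomputable def lm1_242 : PL :=
  (PL.C (nat_lit 0x2013a22b1) (nat_lit 0x0) (nat_lit 0x2078177219b00)
  (PL.C (nat_lit 0x20eee3873) (nat_lit 0x0) (nat_lit 0x6b38aae10c00)
  (PL.C (nat_lit 0x20f9ed767) (nat_lit 0x3386002ff080) (nat_lit 0x0)
  (PL.C (nat_lit 0x22239b8a5) (nat_lit 0x1ace2ab843000) (nat_lit 0x0)
  (PL.C (nat_lit 0x224b03f97) (nat_lit 0x0) (nat_lit 0x2078177219b00)
  (PL.C (nat_lit 0x22c86d267) (nat_lit 0x0) (nat_lit 0x42b4cce881400)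
  (PL.C (nat_lit 0x23356b965) (nat_lit 0x0) (nat_lit 0x6b38aae10c00)
  (PL.C (nat_lit 0x239b99399) (nat_lit 0x33d1f78f73780) (nat_lit 0x0)
  (PL.C (nat_lit 0x23b62dfd5) (nat_lit 0x0) (nat_lit 0x3386002ff080)
  (PL.C (nat_lit 0x24b779dbf) (nat_lit 0x0) (nat_lit 0x68c773e4e00)
  (PL.C (nat_lit 0x24f42b231) (nat_lit 0x157873a2e8780) (nat_lit 0x0)
  (PL.C (nat_lit 0x250218391) (nat_lit 0x2078177219b00) (nat_lit 0x0)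
  (PL.C (nat_lit 0x2553a6927) (nat_lit 0x14bc3628638600) (nat_lit 0x0)
  (PL.C (nat_lit 0x25a5e8a61) (nat_lit 0x2078177219b00) (nat_lit 0x0)
  (PL.C (nat_lit 0x25ff0ef13) (nat_lit 0x6b38aae10c00) (nat_lit 0x0)
  (PL.C (nat_lit 0x2652cac15) (nat_lit 0x1a4895681da00) (nat_lit 0x0)
  (PL.C (nat_lit 0x26a73f183) (nat_lit 0x6b38aae10c00) (nat_lit 0x0)
  (PL.C (nat_lit 0x26bcdac8f) (nat_lit 0x807a0cb584a00) (nat_lit 0x0)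
  (PL.C (nat_lit 0x27035c4d7) (nat_lit 0x0) (nat_lit 0x6b38aae10c00)
  (PL.C (nat_lit 0x271238db9) (nat_lit 0x807a0cb584a00) (nat_lit 0x0) lm1_243))))))))))))))))))))

noncomputable def lm1_241 : PL :=
  (PL.C (nat_lit 0x18a08e92d) (nat_lit 0x3386002ff080) (nat_lit 0x0)
  (PL.C (nat_lit 0x18bf1ef6f) (nat_lit 0x0) (nat_lit 0x10ad333a205000)
  (PL.C (nat_lit 0x197bd88a9) (nat_lit 0x0) (nat_lit 0x83b04570b100)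
  (PL.C (nat_lit 0x19ae96b97) (nat_lit 0x0) (nat_lit 0xd7134cc36400)
  (PL.C (nat_lit 0x1ac6d06cd) (nat_lit 0x1982e664da200) (nat_lit 0x0)
  (PL.C (nat_lit 0x1ae76761f) (nat_lit 0x20768ac609000) (nat_lit 0x0)
  (PL.C (nat_lit 0x1b0441f51) (nat_lit 0xce1800bfc200) (nat_lit 0x0)
  (PL.C (nat_lit 0x1b1cf97a1) (nat_lit 0x42b4cce881400) (nat_lit 0x0)
  (PL.C (nat_lit 0x1b7dd7747) (nat_lit 0x2f60c1888eb00) (nat_lit 0x0)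
  (PL.C (nat_lit 0x1c11ba4f3) (nat_lit 0x81e05dc866c00) (nat_lit 0x0)
  (PL.C (nat_lit 0x1cd1973f9) (nat_lit 0x33d1f78f73780) (nat_lit 0x0)
  (PL.C (nat_lit 0x1d46de55f) (nat_lit 0x81e05dc866c00) (nat_lit 0x0)
  (PL.C (nat_lit 0x1d618b36d) (nat_lit 0x19e96addd0200) (nat_lit 0x0)
  (PL.C (nat_lit 0x1d6690bf7) (nat_lit 0x225955754b000) (nat_lit 0x0)
  (PL.C (nat_lit 0x1d87cc0b5) (nat_lit 0xce1800bfc200) (nat_lit 0x0)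
  (PL.C (nat_lit 0x1dbe8510b) (nat_lit 0x19c30017f8400) (nat_lit 0x0)
  (PL.C (nat_lit 0x1e0efc5bd) (nat_lit 0x1ace2ab843000) (nat_lit 0x0)
  (PL.C (nat_lit 0x1e190fa09) (nat_lit 0x0) (nat_lit 0x19c30017f8400)
  (PL.C (nat_lit 0x1e2a5f927) (nat_lit 0x157873a2e8780) (nat_lit 0x0)
  (PL.C (nat_lit 0x1e622cc07) (nat_lit 0x19e96addd0200) (nat_lit 0x0) lm1_242))))))))))))))))))))

noncomputable def lm1_240 : PL :=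
  (PL.C (nat_lit 0x14ba8dfd5) (nat_lit 0x1ace2ab843000) (nat_lit 0x0)
  (PL.C (nat_lit 0x14d035aa9) (nat_lit 0x2f60c1888eb00) (nat_lit 0x0)
  (PL.C (nat_lit 0x14dbd844d) (nat_lit 0xa4a7e6f6c6500) (nat_lit 0x0)
  (PL.C (nat_lit 0x14f3ec3cf) (nat_lit 0x1b239f4c769600) (nat_lit 0x0)
  (PL.C (nat_lit 0x14f5b15a5) (nat_lit 0x0) (nat_lit 0xa31af60500)
  (PL.C (nat_lit 0x1509cfd8b) (nat_lit 0x53d08c37b8c80) (nat_lit 0x0)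
  (PL.C (nat_lit 0x156e9c3e9) (nat_lit 0x0) (nat_lit 0x178dcf97800)
  (PL.C (nat_lit 0x159dd740f) (nat_lit 0x0) (nat_lit 0x1baab9f2b000)
  (PL.C (nat_lit 0x16056bd9b) (nat_lit 0x1ace2ab843000) (nat_lit 0x0)
  (PL.C (nat_lit 0x161ed7529) (nat_lit 0x2361e7eb623b00) (nat_lit 0x0)
  (PL.C (nat_lit 0x1635f334d) (nat_lit 0x359c557086000) (nat_lit 0x0)
  (PL.C (nat_lit 0x169a880c1) (nat_lit 0x1982e664da200) (nat_lit 0x0)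
  (PL.C (nat_lit 0x16a21b9fd) (nat_lit 0x0) (nat_lit 0x33d1f78f73780)
  (PL.C (nat_lit 0x16b60acdb) (nat_lit 0x20768ac609000) (nat_lit 0x0)
  (PL.C (nat_lit 0x17af10901) (nat_lit 0x68c773e4e00) (nat_lit 0x0)
  (PL.C (nat_lit 0x17fc9972f) (nat_lit 0x42b4cce881400) (nat_lit 0x0)
  (PL.C (nat_lit 0x18502a0c5) (nat_lit 0x0) (nat_lit 0x68c773e4e00)
  (PL.C (nat_lit 0x185893037) (nat_lit 0x67a3ef1ee6f00) (nat_lit 0x0)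
  (PL.C (nat_lit 0x1874ad7dd) (nat_lit 0x10ad333a205000) (nat_lit 0x0)
  (PL.C (nat_lit 0x188e39ed1) (nat_lit 0x33d1f78f73780) (nat_lit 0x0) lm1_241))))))))))))))))))))

noncomputable def lm1_239 : PL :=
  (PL.C (nat_lit 0x12f56150f) (nat_lit 0x0) (nat_lit 0x2f60c1888eb00)
  (PL.C (nat_lit 0x130c6498b) (nat_lit 0x0) (nat_lit 0xce1800bfc200)
  (PL.C (nat_lit 0x131b214b1) (nat_lit 0x0) (nat_lit 0x1ace2ab843000)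
  (PL.C (nat_lit 0x132c6632b) (nat_lit 0xa0d500519200) (nat_lit 0x0)
  (PL.C (nat_lit 0x137542f99) (nat_lit 0x0) (nat_lit 0x83b04570b100)
  (PL.C (nat_lit 0x13a2272eb) (nat_lit 0x0) (nat_lit 0x10ad333a205000)
  (PL.C (nat_lit 0x13afdd5ce) (nat_lit 0x670c005fe100) (nat_lit 0x0)
  (PL.C (nat_lit 0x13c5419dd) (nat_lit 0x1fd7d2ec2100) (nat_lit 0x0)
  (PL.C (nat_lit 0x13ed6f813) (nat_lit 0x1982e664da200) (nat_lit 0x0)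
  (PL.C (nat_lit 0x140217a45) (nat_lit 0x10ad333a205000) (nat_lit 0x0)
  (PL.C (nat_lit 0x140470451) (nat_lit 0x103c0bb90cd800) (nat_lit 0x0)
  (PL.C (nat_lit 0x141959b15) (nat_lit 0x1024dab0782200) (nat_lit 0x0)
  (PL.C (nat_lit 0x14285aae1) (nat_lit 0x0) (nat_lit 0x19c30017f8400)
  (PL.C (nat_lit 0x14308d267) (nat_lit 0x81e05dc866c00) (nat_lit 0x0)
  (PL.C (nat_lit 0x1445a4a83) (nat_lit 0x1982e664da200) (nat_lit 0x0)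
  (PL.C (nat_lit 0x1475a5959) (nat_lit 0x2f60c1888eb00) (nat_lit 0x0)
  (PL.C (nat_lit 0x148adaeaf) (nat_lit 0x19c30017f8400) (nat_lit 0x0)
  (PL.C (nat_lit 0x148d0b475) (nat_lit 0x0) (nat_lit 0xd7134cc36400)
  (PL.C (nat_lit 0x148d43953) (nat_lit 0x359c557086000) (nat_lit 0x0)
  (PL.C (nat_lit 0x14a2bbf1f) (nat_lit 0x639613159bec0) (nat_lit 0x0) lm1_240))))))))))))))))))))

noncomputable def lm1_238 : PL :=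
  (PL.C (nat_lit 0x11266f20b) (nat_lit 0x25cd48e6a23600) (nat_lit 0x0)
  (PL.C (nat_lit 0x1145a6173) (nat_lit 0x0) (nat_lit 0x1982e664da200)
  (PL.C (nat_lit 0x114c3a75d) (nat_lit 0x25cd48e6a23600) (nat_lit 0x0)
  (PL.C (nat_lit 0x1162bfe25) (nat_lit 0x3386002ff0800) (nat_lit 0x0)
  (PL.C (nat_lit 0x119ba9441) (nat_lit 0x53d08c37b8c80) (nat_lit 0x0)
  (PL.C (nat_lit 0x11bbb5979) (nat_lit 0x0) (nat_lit 0x2f60c1888eb00)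
  (PL.C (nat_lit 0x11c276ef7) (nat_lit 0xa4a7e6f6c6500) (nat_lit 0x0)
  (PL.C (nat_lit 0x11f39d955) (nat_lit 0xab3f6a5339b40) (nat_lit 0x0)
  (PL.C (nat_lit 0x1202d6a36) (nat_lit 0x670c005fe100) (nat_lit 0x0)
  (PL.C (nat_lit 0x121b1a2cd) (nat_lit 0x81e05dc866c00) (nat_lit 0x0)
  (PL.C (nat_lit 0x124300b0b) (nat_lit 0x103c0bb90cd800) (nat_lit 0x0)
  (PL.C (nat_lit 0x127729865) (nat_lit 0x0) (nat_lit 0x1982e664da200)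
  (PL.C (nat_lit 0x1296dcb47) (nat_lit 0x33d1f78f73780) (nat_lit 0x0)
  (PL.C (nat_lit 0x129bee2db) (nat_lit 0x0) (nat_lit 0x81e05dc866c00)
  (PL.C (nat_lit 0x12a188cc9) (nat_lit 0x0) (nat_lit 0xce1800bfc200)
  (PL.C (nat_lit 0x12b10e445) (nat_lit 0x19c30017f8400) (nat_lit 0x0)
  (PL.C (nat_lit 0x12bab0ed5) (nat_lit 0x0) (nat_lit 0x1ace2ab843000)
  (PL.C (nat_lit 0x12bfd3f41) (nat_lit 0x67a3ef1ee6f00) (nat_lit 0x0)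
  (PL.C (nat_lit 0x12da3f3d3) (nat_lit 0x19c30017f8400) (nat_lit 0x0)
  (PL.C (nat_lit 0x12f3b7cd3) (nat_lit 0x1b239f4c769600) (nat_lit 0x0) lm1_239))))))))))))))))))))

noncomputable def lm1_237 : PL :=
  (PL.C (nat_lit 0xf848c84b) (nat_lit 0xc790562753e00) (nat_lit 0x0)
  (PL.C (nat_lit 0xf96762b9) (nat_lit 0x0) (nat_lit 0x1982e664da200)
  (PL.C (nat_lit 0xf9936a3b) (nat_lit 0x0) (nat_lit 0xa31af60500)
  (PL.C (nat_lit 0xfbb969ad) (nat_lit 0x0) (nat_lit 0x14635ec0a00)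
  (PL.C (nat_lit 0xfc3b2cbd) (nat_lit 0x96bfbcbe8f080) (nat_lit 0x0)
  (PL.C (nat_lit 0xfcf776e9) (nat_lit 0x0) (nat_lit 0x33d1f78f73780)
  (PL.C (nat_lit 0xfd20fe27) (nat_lit 0xe95c86725980) (nat_lit 0x0)
  (PL.C (nat_lit 0xfd4c4185) (nat_lit 0xce1800bfc200) (nat_lit 0x0)
  (PL.C (nat_lit 0xfde4252b) (nat_lit 0x0) (nat_lit 0xa31af60500)
  (PL.C (nat_lit 0x100420441) (nat_lit 0x4d490047e8c0) (nat_lit 0x0)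
  (PL.C (nat_lit 0x102f74317) (nat_lit 0xc790562753e00) (nat_lit 0x0)
  (PL.C (nat_lit 0x1034e107b) (nat_lit 0x0) (nat_lit 0x4d490047e8c0)
  (PL.C (nat_lit 0x104160bfb) (nat_lit 0x0) (nat_lit 0x559b3dc56b00)
  (PL.C (nat_lit 0x105c3f7b5) (nat_lit 0xb1a1ed8b0ce00) (nat_lit 0x0)
  (PL.C (nat_lit 0x108685303) (nat_lit 0x2078177219b000) (nat_lit 0x0)
  (PL.C (nat_lit 0x10c44229d) (nat_lit 0x68c773e4e00) (nat_lit 0x0)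
  (PL.C (nat_lit 0x10c5acbff) (nat_lit 0x0) (nat_lit 0xa31af60500)
  (PL.C (nat_lit 0x10d26819f) (nat_lit 0x1982e664da200) (nat_lit 0x0)
  (PL.C (nat_lit 0x10f77a429) (nat_lit 0x1024dab0782200) (nat_lit 0x0)
  (PL.C (nat_lit 0x111cde1cf) (nat_lit 0x1982e664da200) (nat_lit 0x0) lm1_238))))))))))))))))))))

noncomputable def lm1_236 : PL :=
  (PL.C (nat_lit 0xd2b22577) (nat_lit 0x13357119a8fc00) (nat_lit 0x0)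
  (PL.C (nat_lit 0xd38e41d3) (nat_lit 0xa0d500519200) (nat_lit 0x0)
  (PL.C (nat_lit 0xd4ec2271) (nat_lit 0x660b999368800) (nat_lit 0x0)
  (PL.C (nat_lit 0xd53380ed) (nat_lit 0x0) (nat_lit 0x13357119a8fc00)
  (PL.C (nat_lit 0xd5ae2303) (nat_lit 0xb1a1ed8b0ce00) (nat_lit 0x0)
  (PL.C (nat_lit 0xd5d2a859) (nat_lit 0xce1800bfc200) (nat_lit 0x0)
  (PL.C (nat_lit 0xd7396963) (nat_lit 0x2d076255a9100) (nat_lit 0x0)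
  (PL.C (nat_lit 0xd851a09b) (nat_lit 0xa31af60500) (nat_lit 0x0)
  (PL.C (nat_lit 0xdb943a11) (nat_lit 0x0) (nat_lit 0x1baab9f2b000)
  (PL.C (nat_lit 0xdcf88b49) (nat_lit 0xe95c86725980) (nat_lit 0x0)
  (PL.C (nat_lit 0xdd429c65) (nat_lit 0x0) (nat_lit 0x5aec425836380)
  (PL.C (nat_lit 0xdd781ea7) (nat_lit 0x0) (nat_lit 0x178dcf97800)
  (PL.C (nat_lit 0xdf920e6e) (nat_lit 0x1f7ab51d200) (nat_lit 0x0)
  (PL.C (nat_lit 0xe6b0dc47) (nat_lit 0x53e07d1b8800) (nat_lit 0x0)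
  (PL.C (nat_lit 0xe743f07d) (nat_lit 0xa31af60500) (nat_lit 0x0)
  (PL.C (nat_lit 0xe948f87f) (nat_lit 0x0) (nat_lit 0x1982e664da200)
  (PL.C (nat_lit 0xe9972a43) (nat_lit 0x33d1f78f73780) (nat_lit 0x0)
  (PL.C (nat_lit 0xf1d3cef9) (nat_lit 0x660b999368800) (nat_lit 0x0)
  (PL.C (nat_lit 0xf3feb8ed) (nat_lit 0x3386002ff0800) (nat_lit 0x0)
  (PL.C (nat_lit 0xf6635143) (nat_lit 0x0) (nat_lit 0x81e05dc866c00) lm1_237))))))))))))))))))))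

noncomputable def lm1_235 : PL :=
  (PL.C (nat_lit 0xc2fe77d7) (nat_lit 0x0) (nat_lit 0xa0d500519200)
  (PL.C (nat_lit 0xc3aa35b1) (nat_lit 0x3909e1918bc80) (nat_lit 0x0)
  (PL.C (nat_lit 0xc52fd08f) (nat_lit 0x1ace2ab843000) (nat_lit 0x0)
  (PL.C (nat_lit 0xc56fe815) (nat_lit 0x0) (nat_lit 0x28c6bd81400)
  (PL.C (nat_lit 0xc623ccaf) (nat_lit 0x3cccd06b6c80) (nat_lit 0x0)
  (PL.C (nat_lit 0xc6bb0886) (nat_lit 0x0) (nat_lit 0x670c005fe100)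
  (PL.C (nat_lit 0xc760982e) (nat_lit 0xce1800bfc200) (nat_lit 0x0)
  (PL.C (nat_lit 0xc7b679a1) (nat_lit 0x0) (nat_lit 0xa31af60500)
  (PL.C (nat_lit 0xc917f7e2) (nat_lit 0xce1800bfc200) (nat_lit 0x0)
  (PL.C (nat_lit 0xc96e9697) (nat_lit 0x0) (nat_lit 0x14635ec0a00)
  (PL.C (nat_lit 0xcb2a7d71) (nat_lit 0x0) (nat_lit 0xa31af60500)
  (PL.C (nat_lit 0xcb2edbb2) (nat_lit 0x0) (nat_lit 0x670c005fe100)
  (PL.C (nat_lit 0xcc0ba263) (nat_lit 0x0) (nat_lit 0x1fd7d2ec2100)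
  (PL.C (nat_lit 0xcc23d69d) (nat_lit 0x96bfbcbe8f080) (nat_lit 0x0)
  (PL.C (nat_lit 0xcea7a02d) (nat_lit 0x1ace2ab843000) (nat_lit 0x0)
  (PL.C (nat_lit 0xd01f8ae1) (nat_lit 0x2d076255a9100) (nat_lit 0x0)
  (PL.C (nat_lit 0xd0431d13) (nat_lit 0x10ad333a205000) (nat_lit 0x0)
  (PL.C (nat_lit 0xd12e8349) (nat_lit 0x640f335cc1e00) (nat_lit 0x0)
  (PL.C (nat_lit 0xd19734b7) (nat_lit 0xa0d500519200) (nat_lit 0x0)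
  (PL.C (nat_lit 0xd1c00645) (nat_lit 0x141aa00a32400) (nat_lit 0x0) lm1_236))))))))))))))))))))

noncomputable def lm1_234 : PL :=
  (PL.C (nat_lit 0xaf4b686b) (nat_lit 0x0) (nat_lit 0x2078177219b000)
  (PL.C (nat_lit 0xb0d2a62b) (nat_lit 0x1fd7d2ec2100) (nat_lit 0x0)
  (PL.C (nat_lit 0xb10fd019) (nat_lit 0x18f20ac4ea7c00) (nat_lit 0x0)
  (PL.C (nat_lit 0xb1dc3393) (nat_lit 0x6b38aae10c000) (nat_lit 0x0)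
  (PL.C (nat_lit 0xb296025f) (nat_lit 0xc790562753e00) (nat_lit 0x0)
  (PL.C (nat_lit 0xb2e732aa) (nat_lit 0x1f7ab51d200) (nat_lit 0x0)
  (PL.C (nat_lit 0xb3f99b61) (nat_lit 0x0) (nat_lit 0x6b38aae10c000)
  (PL.C (nat_lit 0xb484420d) (nat_lit 0x13603b7ff7a700) (nat_lit 0x0)
  (PL.C (nat_lit 0xb49381cf) (nat_lit 0x53ffce0f600) (nat_lit 0x0)
  (PL.C (nat_lit 0xb5ebb333) (nat_lit 0x0) (nat_lit 0x66028da7ad000)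
  (PL.C (nat_lit 0xb8a5421b) (nat_lit 0x0) (nat_lit 0xc1f4cd903100)
  (PL.C (nat_lit 0xb90f8407) (nat_lit 0xa31af60500) (nat_lit 0x0)
  (PL.C (nat_lit 0xb972a96e) (nat_lit 0x19c30017f8400) (nat_lit 0x0)
  (PL.C (nat_lit 0xb97a66a9) (nat_lit 0x0) (nat_lit 0x5e373e5e000)
  (PL.C (nat_lit 0xba3c2acd) (nat_lit 0x0) (nat_lit 0x4c6834bd2200)
  (PL.C (nat_lit 0xbd4b1f71) (nat_lit 0x0) (nat_lit 0x28c6bd81400)
  (PL.C (nat_lit 0xbe938ddb) (nat_lit 0x1b812a2e075e00) (nat_lit 0x0)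
  (PL.C (nat_lit 0xbf5ff155) (nat_lit 0x640f335cc1e00) (nat_lit 0x0)
  (PL.C (nat_lit 0xc00f06e5) (nat_lit 0x81e05dc866c00) (nat_lit 0x0)
  (PL.C (nat_lit 0xc2bd31a3) (nat_lit 0xc6386dd17dd00) (nat_lit 0x0) lm1_235))))))))))))))))))))

noncomputable def lm1_233 : PL :=
  (PL.C (nat_lit 0xa3f68777) (nat_lit 0x3cccd06b6c80) (nat_lit 0x0)
  (PL.C (nat_lit 0xa463dd6f) (nat_lit 0x53e07d1b8800) (nat_lit 0x0)
  (PL.C (nat_lit 0xa49af773) (nat_lit 0x0) (nat_lit 0xc790562753e00)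
  (PL.C (nat_lit 0xa66246d2) (nat_lit 0x1f7ab51d200) (nat_lit 0x0)
  (PL.C (nat_lit 0xa7c445c5) (nat_lit 0x4fb7c9df8b00) (nat_lit 0x0)
  (PL.C (nat_lit 0xa7d0f11e) (nat_lit 0x3ef56a3a400) (nat_lit 0x0)
  (PL.C (nat_lit 0xa9263de1) (nat_lit 0x0) (nat_lit 0x6b38aae10c000)
  (PL.C (nat_lit 0xa942c372) (nat_lit 0x1f7ab51d200) (nat_lit 0x0)
  (PL.C (nat_lit 0xa9e97f2b) (nat_lit 0x81e05dc866c00) (nat_lit 0x0)
  (PL.C (nat_lit 0xaa54ab77) (nat_lit 0x0) (nat_lit 0x30cd1f525b80)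
  (PL.C (nat_lit 0xabaed459) (nat_lit 0x53e07d1b8800) (nat_lit 0x0)
  (PL.C (nat_lit 0xac396f99) (nat_lit 0x0) (nat_lit 0x559b3dc56b00)
  (PL.C (nat_lit 0xac60cbaf) (nat_lit 0x6b38aae10c000) (nat_lit 0x0)
  (PL.C (nat_lit 0xac750253) (nat_lit 0x12d7f797d1e100) (nat_lit 0x0)
  (PL.C (nat_lit 0xad19aac1) (nat_lit 0xa31af60500) (nat_lit 0x0)
  (PL.C (nat_lit 0xad292c1f) (nat_lit 0x32b14fb7d5800) (nat_lit 0x0)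
  (PL.C (nat_lit 0xad3c1511) (nat_lit 0x2078177219b000) (nat_lit 0x0)
  (PL.C (nat_lit 0xadf10ed5) (nat_lit 0x96bfbcbe8f080) (nat_lit 0x0)
  (PL.C (nat_lit 0xae72e7a1) (nat_lit 0x33d1f78f73780) (nat_lit 0x0)
  (PL.C (nat_lit 0xaea6c5a9) (nat_lit 0x53e07d1b8800) (nat_lit 0x0) lm1_234))))))))))))))))))))

noncomputable def lm1_232 : PL :=
  (PL.C (nat_lit 0x97796b23) (nat_lit 0x0) (nat_lit 0x28c6bd81400)
  (PL.C (nat_lit 0x97b33c23) (nat_lit 0xdce407d74c540) (nat_lit 0x0)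
  (PL.C (nat_lit 0x98625901) (nat_lit 0x12c8299456c280) (nat_lit 0x0)
  (PL.C (nat_lit 0x99018a85) (nat_lit 0xdce407d74c540) (nat_lit 0x0)
  (PL.C (nat_lit 0x991f778b) (nat_lit 0x0) (nat_lit 0x1566cf715ac00)
  (PL.C (nat_lit 0x9a2d4afe) (nat_lit 0x0) (nat_lit 0x1f7ab51d200)
  (PL.C (nat_lit 0x9aa8fedf) (nat_lit 0xa71acc5cb30c0) (nat_lit 0x0)
  (PL.C (nat_lit 0x9bfd3047) (nat_lit 0x660b999368800) (nat_lit 0x0)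
  (PL.C (nat_lit 0x9cb1408d) (nat_lit 0x40f02ee4336000) (nat_lit 0x0)
  (PL.C (nat_lit 0x9d54f241) (nat_lit 0xcc173326d1000) (nat_lit 0x0)
  (PL.C (nat_lit 0x9dfdae4f) (nat_lit 0x0) (nat_lit 0x28c6bd81400)
  (PL.C (nat_lit 0x9ee93553) (nat_lit 0x0) (nat_lit 0xcc46cd06500)
  (PL.C (nat_lit 0x9f16520f) (nat_lit 0x0) (nat_lit 0x53e07d1b8800)
  (PL.C (nat_lit 0xa0276d75) (nat_lit 0xc790562753e00) (nat_lit 0x0)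
  (PL.C (nat_lit 0xa05317b1) (nat_lit 0x0) (nat_lit 0x96bfbcbe8f080)
  (PL.C (nat_lit 0xa0e04c87) (nat_lit 0x1b812a2e075e00) (nat_lit 0x0)
  (PL.C (nat_lit 0xa1885d23) (nat_lit 0x18f20ac4ea7c00) (nat_lit 0x0)
  (PL.C (nat_lit 0xa1c2fc05) (nat_lit 0x3386002ff0800) (nat_lit 0x0)
  (PL.C (nat_lit 0xa2a9d09e) (nat_lit 0x19c30017f8400) (nat_lit 0x0)
  (PL.C (nat_lit 0xa3476a99) (nat_lit 0x12c8299456c280) (nat_lit 0x0) lm1_233))))))))))))))))))))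

noncomputable def lm1_231 : PL :=
  (PL.C (nat_lit 0x8e5f8f29) (nat_lit 0x25afef2fa3c200) (nat_lit 0x0)
  (PL.C (nat_lit 0x8ec9d725) (nat_lit 0x0) (nat_lit 0x13357119a8fc00)
  (PL.C (nat_lit 0x90366b12) (nat_lit 0x0) (nat_lit 0x1f7ab51d200)
  (PL.C (nat_lit 0x90ed597d) (nat_lit 0xc6386dd17dd00) (nat_lit 0x0)
  (PL.C (nat_lit 0x918394ab) (nat_lit 0x13357119a8fc00) (nat_lit 0x0)
  (PL.C (nat_lit 0x91931609) (nat_lit 0x0) (nat_lit 0x66028da7ad000)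
  (PL.C (nat_lit 0x9194a4df) (nat_lit 0xcc173326d1000) (nat_lit 0x0)
  (PL.C (nat_lit 0x922cbadb) (nat_lit 0x4f86d279778540) (nat_lit 0x0)
  (PL.C (nat_lit 0x92509eb1) (nat_lit 0x3386002ff0800) (nat_lit 0x0)
  (PL.C (nat_lit 0x9299d94f) (nat_lit 0x0) (nat_lit 0x4d490047e8c0)
  (PL.C (nat_lit 0x92d576e9) (nat_lit 0x660b999368800) (nat_lit 0x0)
  (PL.C (nat_lit 0x936edc0d) (nat_lit 0xc6386dd17dd00) (nat_lit 0x0)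
  (PL.C (nat_lit 0x93c14741) (nat_lit 0x54a76163762300) (nat_lit 0x0)
  (PL.C (nat_lit 0x946bd64b) (nat_lit 0x7a7b42975e2700) (nat_lit 0x0)
  (PL.C (nat_lit 0x94ce3479) (nat_lit 0x0) (nat_lit 0x53e07d1b8800)
  (PL.C (nat_lit 0x9506e3f7) (nat_lit 0x2e523a1f47d400) (nat_lit 0x0)
  (PL.C (nat_lit 0x952d13c3) (nat_lit 0x0) (nat_lit 0xa31af60500)
  (PL.C (nat_lit 0x95663821) (nat_lit 0x4d490047e8c0) (nat_lit 0x0)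
  (PL.C (nat_lit 0x9576237b) (nat_lit 0x0) (nat_lit 0x5aec425836380)
  (PL.C (nat_lit 0x95c8eb4f) (nat_lit 0x13524011fa300) (nat_lit 0x0) lm1_232))))))))))))))))))))

noncomputable def lm1_230 : PL :=
  (PL.C (nat_lit 0x866311d1) (nat_lit 0x53ffce0f600) (nat_lit 0x0)
  (PL.C (nat_lit 0x86ee5ff7) (nat_lit 0x0) (nat_lit 0x640f335cc1e00)
  (PL.C (nat_lit 0x86fe327b) (nat_lit 0x0) (nat_lit 0x518d7b02800)
  (PL.C (nat_lit 0x8731e809) (nat_lit 0xa0d500519200) (nat_lit 0x0)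
  (PL.C (nat_lit 0x8756c435) (nat_lit 0x0) (nat_lit 0x660b999368800)
  (PL.C (nat_lit 0x8771a8f6) (nat_lit 0x1f7ab51d200) (nat_lit 0x0)
  (PL.C (nat_lit 0x878b38e7) (nat_lit 0xa7ff9c1ec00) (nat_lit 0x0)
  (PL.C (nat_lit 0x87d11817) (nat_lit 0x3b3c78de29300) (nat_lit 0x0)
  (PL.C (nat_lit 0x8827af6d) (nat_lit 0x0) (nat_lit 0x28c6bd81400)
  (PL.C (nat_lit 0x88367b1b) (nat_lit 0x0) (nat_lit 0xc790562753e00)
  (PL.C (nat_lit 0x885bd6ef) (nat_lit 0x141aa00a32400) (nat_lit 0x0)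
  (PL.C (nat_lit 0x88b5eca1) (nat_lit 0x53ffce0f600) (nat_lit 0x0)
  (PL.C (nat_lit 0x89d538bd) (nat_lit 0x13603b7ff7a700) (nat_lit 0x0)
  (PL.C (nat_lit 0x8a977007) (nat_lit 0x34f5bd2f75a00) (nat_lit 0x0)
  (PL.C (nat_lit 0x8b1336d7) (nat_lit 0x0) (nat_lit 0x2078177219b000)
  (PL.C (nat_lit 0x8b7172e5) (nat_lit 0x4711224cd6080) (nat_lit 0x0)
  (PL.C (nat_lit 0x8b745786) (nat_lit 0x320799ae60f00) (nat_lit 0x0)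
  (PL.C (nat_lit 0x8c0bdf11) (nat_lit 0x166796bcfb100) (nat_lit 0x0)
  (PL.C (nat_lit 0x8cf35dff) (nat_lit 0x43db084f52780) (nat_lit 0x0)
  (PL.C (nat_lit 0x8dbacf19) (nat_lit 0x2078177219b000) (nat_lit 0x0) lm1_231))))))))))))))))))))

noncomputable def lm1_229 : PL :=
  (PL.C (nat_lit 0x7dc78ce9) (nat_lit 0xa0d500519200) (nat_lit 0x0)
  (PL.C (nat_lit 0x7dcd4c13) (nat_lit 0x54a76163762300) (nat_lit 0x0)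
  (PL.C (nat_lit 0x7e3214f6) (nat_lit 0x7dead474800) (nat_lit 0x0)
  (PL.C (nat_lit 0x7f297669) (nat_lit 0x4a08cd835cfdc0) (nat_lit 0x0)
  (PL.C (nat_lit 0x7f954b8e) (nat_lit 0x320799ae60f00) (nat_lit 0x0)
  (PL.C (nat_lit 0x7fcf0611) (nat_lit 0x105d022b9a980) (nat_lit 0x0)
  (PL.C (nat_lit 0x8236f94b) (nat_lit 0x14f81f46e2000) (nat_lit 0x0)
  (PL.C (nat_lit 0x828ea89b) (nat_lit 0xa71acc5cb30c0) (nat_lit 0x0)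
  (PL.C (nat_lit 0x839ff00e) (nat_lit 0x7dead474800) (nat_lit 0x0)
  (PL.C (nat_lit 0x83add5a3) (nat_lit 0x96bfbcbe8f080) (nat_lit 0x0)
  (PL.C (nat_lit 0x83f96ead) (nat_lit 0x0) (nat_lit 0x640f335cc1e00)
  (PL.C (nat_lit 0x8417ddca) (nat_lit 0x25498828edc00) (nat_lit 0x0)
  (PL.C (nat_lit 0x84676119) (nat_lit 0xc81e66b983c00) (nat_lit 0x0)
  (PL.C (nat_lit 0x84aba1e9) (nat_lit 0x0) (nat_lit 0x660b999368800)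
  (PL.C (nat_lit 0x84d00505) (nat_lit 0x12d7f797d1e100) (nat_lit 0x0)
  (PL.C (nat_lit 0x85245116) (nat_lit 0x1f7ab51d200) (nat_lit 0x0)
  (PL.C (nat_lit 0x858b295f) (nat_lit 0xc81e66b983c00) (nat_lit 0x0)
  (PL.C (nat_lit 0x863f965f) (nat_lit 0x7a7b42975e2700) (nat_lit 0x0)
  (PL.C (nat_lit 0x8649b9ba) (nat_lit 0x3ef56a3a400) (nat_lit 0x0)
  (PL.C (nat_lit 0x864b5c8b) (nat_lit 0x0) (nat_lit 0xc6386dd17dd00) lm1_230))))))))))))))))))))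

noncomputable def lm1_228 : PL :=
  (PL.C (nat_lit 0x76c49ad1) (nat_lit 0x4fb7c9df8b00) (nat_lit 0x0)
  (PL.C (nat_lit 0x76fbfc3b) (nat_lit 0x95b60bf7be600) (nat_lit 0x0)
  (PL.C (nat_lit 0x7723de0f) (nat_lit 0x0) (nat_lit 0x2034ad745cb40)
  (PL.C (nat_lit 0x775f3cb9) (nat_lit 0x0) (nat_lit 0xa31af60500)
  (PL.C (nat_lit 0x782f6b8d) (nat_lit 0x25afef2fa3c200) (nat_lit 0x0)
  (PL.C (nat_lit 0x7862568a) (nat_lit 0x14f58332900) (nat_lit 0x0)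
  (PL.C (nat_lit 0x797c0a77) (nat_lit 0x3877edfa5ebd00) (nat_lit 0x0)
  (PL.C (nat_lit 0x79f06cd3) (nat_lit 0x0) (nat_lit 0x1fd7d2ec2100)
  (PL.C (nat_lit 0x79fab9d1) (nat_lit 0x53ffce0f600) (nat_lit 0x0)
  (PL.C (nat_lit 0x7a1a35cf) (nat_lit 0x0) (nat_lit 0x28c6bd81400)
  (PL.C (nat_lit 0x7a575231) (nat_lit 0x53e07d1b8800) (nat_lit 0x0)
  (PL.C (nat_lit 0x7a87c291) (nat_lit 0x3877edfa5ebd00) (nat_lit 0x0)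
  (PL.C (nat_lit 0x7b274a79) (nat_lit 0x18feb3ff805000) (nat_lit 0x0)
  (PL.C (nat_lit 0x7b5fad5a) (nat_lit 0x0) (nat_lit 0x1f7ab51d200)
  (PL.C (nat_lit 0x7b64ed87) (nat_lit 0x32b14fb7d5800) (nat_lit 0x0)
  (PL.C (nat_lit 0x7c74db01) (nat_lit 0x53e07d1b8800) (nat_lit 0x0)
  (PL.C (nat_lit 0x7c870b57) (nat_lit 0x0) (nat_lit 0x53ffce0f600)
  (PL.C (nat_lit 0x7cba6e05) (nat_lit 0x2e523a1f47d400) (nat_lit 0x0)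
  (PL.C (nat_lit 0x7d7f0069) (nat_lit 0x28c6bd81400) (nat_lit 0x0)
  (PL.C (nat_lit 0x7d9d721d) (nat_lit 0x0) (nat_lit 0xc6386dd17dd00) lm1_229))))))))))))))))))))

noncomputable def lm1_227 : PL :=
  (PL.C (nat_lit 0x6ffe994d) (nat_lit 0x0) (nat_lit 0x96bfbcbe8f080)
  (PL.C (nat_lit 0x7010fc03) (nat_lit 0x4344371bc1780) (nat_lit 0x0)
  (PL.C (nat_lit 0x70242359) (nat_lit 0xcf47de3dcde00) (nat_lit 0x0)
  (PL.C (nat_lit 0x70a2e43b) (nat_lit 0x2835401464800) (nat_lit 0x0)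
  (PL.C (nat_lit 0x70db43c5) (nat_lit 0x4711224cd6080) (nat_lit 0x0)
  (PL.C (nat_lit 0x711223bf) (nat_lit 0x105d022b9a980) (nat_lit 0x0)
  (PL.C (nat_lit 0x711bb0f5) (nat_lit 0xc66ae8fa9000) (nat_lit 0x0)
  (PL.C (nat_lit 0x715d89f7) (nat_lit 0x0) (nat_lit 0x53e07d1b8800)
  (PL.C (nat_lit 0x71739e05) (nat_lit 0x75f0336b91b40) (nat_lit 0x0)
  (PL.C (nat_lit 0x72a688b3) (nat_lit 0x33f2610dd3e700) (nat_lit 0x0)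
  (PL.C (nat_lit 0x72ccf6a7) (nat_lit 0x0) (nat_lit 0x75f0336b91b40)
  (PL.C (nat_lit 0x72fc1ec7) (nat_lit 0x0) (nat_lit 0xa0d500519200)
  (PL.C (nat_lit 0x730eff29) (nat_lit 0x95b60bf7be600) (nat_lit 0x0)
  (PL.C (nat_lit 0x7322a96b) (nat_lit 0x4d490047e8c0) (nat_lit 0x0)
  (PL.C (nat_lit 0x736671d6) (nat_lit 0x0) (nat_lit 0x1f7ab51d200)
  (PL.C (nat_lit 0x73a83779) (nat_lit 0x591b8636b00) (nat_lit 0x0)
  (PL.C (nat_lit 0x73e3d649) (nat_lit 0x1592ce17ef6900) (nat_lit 0x0)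
  (PL.C (nat_lit 0x747ab8f1) (nat_lit 0x0) (nat_lit 0x53ffce0f600)
  (PL.C (nat_lit 0x74a717ff) (nat_lit 0xf8c4fa111d00) (nat_lit 0x0)
  (PL.C (nat_lit 0x76389115) (nat_lit 0x0) (nat_lit 0x1496717ae7900) lm1_228))))))))))))))))))))

noncomputable def lm1_226 : PL :=
  (PL.C (nat_lit 0x65ed5fb3) (nat_lit 0x14fff383d800) (nat_lit 0x0)
  (PL.C (nat_lit 0x669e38b1) (nat_lit 0x55a887fa81800) (nat_lit 0x0)
  (PL.C (nat_lit 0x670c46df) (nat_lit 0x2835401464800) (nat_lit 0x0)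
  (PL.C (nat_lit 0x676a8d8f) (nat_lit 0x96bfbcbe8f080) (nat_lit 0x0)
  (PL.C (nat_lit 0x67d976e1) (nat_lit 0x28c6bd81400) (nat_lit 0x0)
  (PL.C (nat_lit 0x68dc0709) (nat_lit 0x493e57af8a500) (nat_lit 0x0)
  (PL.C (nat_lit 0x6953c98a) (nat_lit 0x7dead474800) (nat_lit 0x0)
  (PL.C (nat_lit 0x6a09e551) (nat_lit 0x0) (nat_lit 0x53e07d1b8800)
  (PL.C (nat_lit 0x6a2d704d) (nat_lit 0xc790562753e00) (nat_lit 0x0)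
  (PL.C (nat_lit 0x6a4ff31f) (nat_lit 0x140b4b12d080) (nat_lit 0x0)
  (PL.C (nat_lit 0x6ab0d0ad) (nat_lit 0x0) (nat_lit 0x1a646e3e8d880)
  (PL.C (nat_lit 0x6b6d3f4d) (nat_lit 0x0) (nat_lit 0x5e373e5e000)
  (PL.C (nat_lit 0x6bd752ae) (nat_lit 0x19c30017f8400) (nat_lit 0x0)
  (PL.C (nat_lit 0x6c05c661) (nat_lit 0x18feb3ff805000) (nat_lit 0x0)
  (PL.C (nat_lit 0x6cf3d3d7) (nat_lit 0x0) (nat_lit 0x28c6bd81400)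
  (PL.C (nat_lit 0x6d4f04fa) (nat_lit 0x25498828edc00) (nat_lit 0x0)
  (PL.C (nat_lit 0x6ddee149) (nat_lit 0x30cd1f525b80) (nat_lit 0x0)
  (PL.C (nat_lit 0x6debe9b7) (nat_lit 0x33f2610dd3e700) (nat_lit 0x0)
  (PL.C (nat_lit 0x6ee82583) (nat_lit 0x13524011fa300) (nat_lit 0x0)
  (PL.C (nat_lit 0x6f71ca21) (nat_lit 0x0) (nat_lit 0xa31af605000) lm1_227))))))))))))))))))))

noncomputable def lm1_225 : PL :=
  (PL.C (nat_lit 0x60e8dd83) (nat_lit 0x0) (nat_lit 0x3467698b1b4000)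
  (PL.C (nat_lit 0x61209b8d) (nat_lit 0x43db084f52780) (nat_lit 0x0)
  (PL.C (nat_lit 0x61338607) (nat_lit 0x324e1c5164300) (nat_lit 0x0)
  (PL.C (nat_lit 0x61368715) (nat_lit 0x0) (nat_lit 0x1566cf715ac00)
  (PL.C (nat_lit 0x613bbc0d) (nat_lit 0x0) (nat_lit 0x7a543883c00)
  (PL.C (nat_lit 0x618b1476) (nat_lit 0x19c30017f8400) (nat_lit 0x0)
  (PL.C (nat_lit 0x61b5189d) (nat_lit 0x0) (nat_lit 0x28c6bd81400)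
  (PL.C (nat_lit 0x61d4472d) (nat_lit 0x4344371bc1780) (nat_lit 0x0)
  (PL.C (nat_lit 0x61f511b9) (nat_lit 0x0) (nat_lit 0x2f55bcb33f3f00)
  (PL.C (nat_lit 0x628c6abb) (nat_lit 0x0) (nat_lit 0x518d7b02800)
  (PL.C (nat_lit 0x636cad71) (nat_lit 0x0) (nat_lit 0x1062f67915d00)
  (PL.C (nat_lit 0x63736282) (nat_lit 0x1f7ab51d200) (nat_lit 0x0)
  (PL.C (nat_lit 0x63cf031f) (nat_lit 0x0) (nat_lit 0x4c6834bd2200)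
  (PL.C (nat_lit 0x63db478a) (nat_lit 0x9a92008fd180) (nat_lit 0x0)
  (PL.C (nat_lit 0x63df725b) (nat_lit 0x0) (nat_lit 0x30a0881b6f800)
  (PL.C (nat_lit 0x6447c847) (nat_lit 0x0) (nat_lit 0x199a028789980)
  (PL.C (nat_lit 0x646c4f8b) (nat_lit 0x28c6bd81400) (nat_lit 0x0)
  (PL.C (nat_lit 0x64aaf6a9) (nat_lit 0x0) (nat_lit 0xc1f4cd903100)
  (PL.C (nat_lit 0x64fb9cc2) (nat_lit 0x7dead474800) (nat_lit 0x0)
  (PL.C (nat_lit 0x65c1918b) (nat_lit 0x0) (nat_lit 0xcc46cd06500) lm1_226))))))))))))))))))))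

noncomputable def lm1_224 : PL :=
  (PL.C (nat_lit 0x5c33e79f) (nat_lit 0x2078177219b000) (nat_lit 0x0)
  (PL.C (nat_lit 0x5c5921bf) (nat_lit 0x53ffce0f600) (nat_lit 0x0)
  (PL.C (nat_lit 0x5c64f55a) (nat_lit 0x1a7ade97bad00) (nat_lit 0x0)
  (PL.C (nat_lit 0x5c8cc1bb) (nat_lit 0xf8c4fa111d00) (nat_lit 0x0)
  (PL.C (nat_lit 0x5c9c1f2d) (nat_lit 0xc2d08cac9a200) (nat_lit 0x0)
  (PL.C (nat_lit 0x5cbc772b) (nat_lit 0x0) (nat_lit 0x1496717ae7900)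
  (PL.C (nat_lit 0x5cca78d3) (nat_lit 0x3b3c78de29300) (nat_lit 0x0)
  (PL.C (nat_lit 0x5cdc8b19) (nat_lit 0x7678f1bc52600) (nat_lit 0x0)
  (PL.C (nat_lit 0x5d47bc93) (nat_lit 0x31dcf7fa6d6400) (nat_lit 0x0)
  (PL.C (nat_lit 0x5d58b62d) (nat_lit 0x591b8636b00) (nat_lit 0x0)
  (PL.C (nat_lit 0x5da92f5f) (nat_lit 0x3b3c78de29300) (nat_lit 0x0)
  (PL.C (nat_lit 0x5def1a43) (nat_lit 0xc790562753e00) (nat_lit 0x0)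
  (PL.C (nat_lit 0x5e63ae61) (nat_lit 0x0) (nat_lit 0x31dcf7fa6d6400)
  (PL.C (nat_lit 0x5e99f94f) (nat_lit 0x1592ce17ef6900) (nat_lit 0x0)
  (PL.C (nat_lit 0x5eaa247d) (nat_lit 0xcf47de3dcde00) (nat_lit 0x0)
  (PL.C (nat_lit 0x5f152467) (nat_lit 0x2835401464800) (nat_lit 0x0)
  (PL.C (nat_lit 0x5f5748ab) (nat_lit 0x8e224499ac100) (nat_lit 0x0)
  (PL.C (nat_lit 0x5fc556d9) (nat_lit 0x3467698b1b4000) (nat_lit 0x0)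
  (PL.C (nat_lit 0x602963bd) (nat_lit 0x4711224cd6080) (nat_lit 0x0)
  (PL.C (nat_lit 0x60c86cbf) (nat_lit 0x14f81f46e2000) (nat_lit 0x0) lm1_225))))))))))))))))))))

noncomputable def lm1_223 : PL :=
  (PL.C (nat_lit 0x574ca60b) (nat_lit 0x660b999368800) (nat_lit 0x0)
  (PL.C (nat_lit 0x57b8aaab) (nat_lit 0x22a5e649f9e00) (nat_lit 0x0)
  (PL.C (nat_lit 0x57fb9f1e) (nat_lit 0x0) (nat_lit 0x320799ae60f00)
  (PL.C (nat_lit 0x5844eb66) (nat_lit 0x640f335cc1e00) (nat_lit 0x0)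
  (PL.C (nat_lit 0x58848aed) (nat_lit 0x493e57af8a500) (nat_lit 0x0)
  (PL.C (nat_lit 0x58a23679) (nat_lit 0x0) (nat_lit 0x4711224cd6080)
  (PL.C (nat_lit 0x590770ea) (nat_lit 0x640f335cc1e00) (nat_lit 0x0)
  (PL.C (nat_lit 0x592dca33) (nat_lit 0x0) (nat_lit 0xa31af605000)
  (PL.C (nat_lit 0x59976136) (nat_lit 0x14f58332900) (nat_lit 0x0)
  (PL.C (nat_lit 0x59f43ffa) (nat_lit 0x0) (nat_lit 0x320799ae60f00)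
  (PL.C (nat_lit 0x59fecc52) (nat_lit 0xfbd5a8e9000) (nat_lit 0x0)
  (PL.C (nat_lit 0x5a55fe2f) (nat_lit 0x0) (nat_lit 0x46e4ca2107500)
  (PL.C (nat_lit 0x5a5cd09a) (nat_lit 0x29eb0665200) (nat_lit 0x0)
  (PL.C (nat_lit 0x5ab6e041) (nat_lit 0x1abcb8953500) (nat_lit 0x0)
  (PL.C (nat_lit 0x5ac51f9e) (nat_lit 0x7dead474800) (nat_lit 0x0)
  (PL.C (nat_lit 0x5ac74e8f) (nat_lit 0x53ffce0f600) (nat_lit 0x0)
  (PL.C (nat_lit 0x5b23f316) (nat_lit 0x14f58332900) (nat_lit 0x0)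
  (PL.C (nat_lit 0x5b7dbaa1) (nat_lit 0x660b999368800) (nat_lit 0x0)
  (PL.C (nat_lit 0x5b8f5bb9) (nat_lit 0xa7ff9c1ec00) (nat_lit 0x0)
  (PL.C (nat_lit 0x5bb77005) (nat_lit 0x2a910714fb00) (nat_lit 0x0) lm1_224))))))))))))))))))))

noncomputable def lm1_222 : PL :=
  (PL.C (nat_lit 0x52b0f45d) (nat_lit 0x0) (nat_lit 0x39b9f66ebf100)
  (PL.C (nat_lit 0x5304b23a) (nat_lit 0x0) (nat_lit 0x14f58332900)
  (PL.C (nat_lit 0x5319ec73) (nat_lit 0x28c6bd81400) (nat_lit 0x0)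
  (PL.C (nat_lit 0x53aa0046) (nat_lit 0x0) (nat_lit 0x7dead474800)
  (PL.C (nat_lit 0x53fe7c75) (nat_lit 0x14f81f46e2000) (nat_lit 0x0)
  (PL.C (nat_lit 0x541e5349) (nat_lit 0x0) (nat_lit 0x53ffce0f600)
  (PL.C (nat_lit 0x542d2ceb) (nat_lit 0xc66ae8fa9000) (nat_lit 0x0)
  (PL.C (nat_lit 0x545f7187) (nat_lit 0x4b5fde5f478400) (nat_lit 0x0)
  (PL.C (nat_lit 0x54b79623) (nat_lit 0x29f03e8dc4000) (nat_lit 0x0)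
  (PL.C (nat_lit 0x54b9ee69) (nat_lit 0xc2d08cac9a200) (nat_lit 0x0)
  (PL.C (nat_lit 0x54e6ad7d) (nat_lit 0x18cd5d1f52000) (nat_lit 0x0)
  (PL.C (nat_lit 0x5512718d) (nat_lit 0x0) (nat_lit 0xf4a8710780)
  (PL.C (nat_lit 0x5534aeb6) (nat_lit 0x0) (nat_lit 0x1b34a08fc5100)
  (PL.C (nat_lit 0x55914419) (nat_lit 0x0) (nat_lit 0x195a2872d3c80)
  (PL.C (nat_lit 0x55a1c6db) (nat_lit 0xc66ae8fa9000) (nat_lit 0x0)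
  (PL.C (nat_lit 0x560adfbf) (nat_lit 0x0) (nat_lit 0xf4a8710780)
  (PL.C (nat_lit 0x56542073) (nat_lit 0x0) (nat_lit 0x3b3c78de29300)
  (PL.C (nat_lit 0x56a02935) (nat_lit 0x79e3105ba77380) (nat_lit 0x0)
  (PL.C (nat_lit 0x56fd109b) (nat_lit 0x2835401464800) (nat_lit 0x0)
  (PL.C (nat_lit 0x571a38ef) (nat_lit 0x13524011fa300) (nat_lit 0x0) lm1_223))))))))))))))))))))

noncomputable def lm1_221 : PL :=
  (PL.C (nat_lit 0x4eae936f) (nat_lit 0x0) (nat_lit 0x53ffce0f600)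
  (PL.C (nat_lit 0x4eb59fb1) (nat_lit 0x1bdd5309a12700) (nat_lit 0x0)
  (PL.C (nat_lit 0x4ebe381f) (nat_lit 0x1982e664da2000) (nat_lit 0x0)
  (PL.C (nat_lit 0x4f107b1b) (nat_lit 0x33f2610dd3e700) (nat_lit 0x0)
  (PL.C (nat_lit 0x4f4b808f) (nat_lit 0xa0d500519200) (nat_lit 0x0)
  (PL.C (nat_lit 0x4f631407) (nat_lit 0x493e57af8a500) (nat_lit 0x0)
  (PL.C (nat_lit 0x4f8f7523) (nat_lit 0x1bc409de30b700) (nat_lit 0x0)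
  (PL.C (nat_lit 0x4f94d326) (nat_lit 0x1f7ab51d200) (nat_lit 0x0)
  (PL.C (nat_lit 0x4fade9a5) (nat_lit 0x0) (nat_lit 0x1982e664da2000)
  (PL.C (nat_lit 0x4feb4c01) (nat_lit 0xba652f31a18800) (nat_lit 0x0)
  (PL.C (nat_lit 0x503ec985) (nat_lit 0xc2b5294079f40) (nat_lit 0x0)
  (PL.C (nat_lit 0x50535969) (nat_lit 0x53ffce0f600) (nat_lit 0x0)
  (PL.C (nat_lit 0x505fbfe5) (nat_lit 0x0) (nat_lit 0x30cd1f525b80)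
  (PL.C (nat_lit 0x508a6e3f) (nat_lit 0x0) (nat_lit 0x9eb6b9e549800)
  (PL.C (nat_lit 0x50f34ad7) (nat_lit 0x0) (nat_lit 0x28c6bd81400)
  (PL.C (nat_lit 0x5151d136) (nat_lit 0x14f58332900) (nat_lit 0x0)
  (PL.C (nat_lit 0x5166ce8a) (nat_lit 0x7dead474800) (nat_lit 0x0)
  (PL.C (nat_lit 0x520d9263) (nat_lit 0x2d3308234b6c80) (nat_lit 0x0)
  (PL.C (nat_lit 0x521a31a6) (nat_lit 0xc91a3c626cc00) (nat_lit 0x0)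
  (PL.C (nat_lit 0x527367c1) (nat_lit 0x5197cd296a380) (nat_lit 0x0) lm1_222))))))))))))))))))))

noncomputable def lm1_220 : PL :=
  (PL.C (nat_lit 0x4a8754d9) (nat_lit 0x0) (nat_lit 0x1a646e3e8d880)
  (PL.C (nat_lit 0x4ae2f625) (nat_lit 0x0) (nat_lit 0x1982e664da2000)
  (PL.C (nat_lit 0x4b1742d2) (nat_lit 0x141aa00a32400) (nat_lit 0x0)
  (PL.C (nat_lit 0x4b616d2a) (nat_lit 0x0) (nat_lit 0x1b34a08fc5100)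
  (PL.C (nat_lit 0x4b67cb4e) (nat_lit 0xbe63c8785100) (nat_lit 0x0)
  (PL.C (nat_lit 0x4b68da93) (nat_lit 0x10989f47a0e80) (nat_lit 0x0)
  (PL.C (nat_lit 0x4c41f12b) (nat_lit 0x14731cc384500) (nat_lit 0x0)
  (PL.C (nat_lit 0x4c50e5ab) (nat_lit 0x1982e664da2000) (nat_lit 0x0)
  (PL.C (nat_lit 0x4ca99bdb) (nat_lit 0xecf1e378a4c00) (nat_lit 0x0)
  (PL.C (nat_lit 0x4ce2d64f) (nat_lit 0x0) (nat_lit 0x3467698b1b4000)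
  (PL.C (nat_lit 0x4d1acfa6) (nat_lit 0x1233555016400) (nat_lit 0x0)
  (PL.C (nat_lit 0x4d3b96e5) (nat_lit 0x96bfbcbe8f080) (nat_lit 0x0)
  (PL.C (nat_lit 0x4da725f6) (nat_lit 0x0) (nat_lit 0x14f58332900)
  (PL.C (nat_lit 0x4dc4baaa) (nat_lit 0xa75975f3cd400) (nat_lit 0x0)
  (PL.C (nat_lit 0x4e00314d) (nat_lit 0x0) (nat_lit 0xc66ae8fa9000)
  (PL.C (nat_lit 0x4e09a657) (nat_lit 0x493e57af8a500) (nat_lit 0x0)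
  (PL.C (nat_lit 0x4e48a717) (nat_lit 0x166796bcfb100) (nat_lit 0x0)
  (PL.C (nat_lit 0x4e5a8b21) (nat_lit 0x3467698b1b4000) (nat_lit 0x0)
  (PL.C (nat_lit 0x4e62e47b) (nat_lit 0x0) (nat_lit 0x39b9f66ebf100)
  (PL.C (nat_lit 0x4e63bb3d) (nat_lit 0x67e4c21ba7ce00) (nat_lit 0x0) lm1_221))))))))))))))))))))

noncomputable def lm1_219 : PL :=
  (PL.C (nat_lit 0x484ff6c1) (nat_lit 0x0) (nat_lit 0x493e57af8a500)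
  (PL.C (nat_lit 0x485cbad3) (nat_lit 0x0) (nat_lit 0x7a543883c00)
  (PL.C (nat_lit 0x48972693) (nat_lit 0x22a5e649f9e00) (nat_lit 0x0)
  (PL.C (nat_lit 0x48a28d3a) (nat_lit 0x7dead474800) (nat_lit 0x0)
  (PL.C (nat_lit 0x48a7bd85) (nat_lit 0x0) (nat_lit 0x2835401464800)
  (PL.C (nat_lit 0x48b04291) (nat_lit 0x28169625a100) (nat_lit 0x0)
  (PL.C (nat_lit 0x48cc1a7b) (nat_lit 0x4711224cd6080) (nat_lit 0x0)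
  (PL.C (nat_lit 0x48dff37f) (nat_lit 0x0) (nat_lit 0x33f2610dd3e700)
  (PL.C (nat_lit 0x48f5a94b) (nat_lit 0x0) (nat_lit 0xc66ae8fa9000)
  (PL.C (nat_lit 0x48fc3255) (nat_lit 0x0) (nat_lit 0xf4a87107800)
  (PL.C (nat_lit 0x49042abb) (nat_lit 0x0) (nat_lit 0xa31af605000)
  (PL.C (nat_lit 0x492022c9) (nat_lit 0x55a887fa81800) (nat_lit 0x0)
  (PL.C (nat_lit 0x4921d1e5) (nat_lit 0x7dd0bba94c00) (nat_lit 0x0)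
  (PL.C (nat_lit 0x49507227) (nat_lit 0x140b4b12d080) (nat_lit 0x0)
  (PL.C (nat_lit 0x496c876d) (nat_lit 0x8e224499ac100) (nat_lit 0x0)
  (PL.C (nat_lit 0x499d0943) (nat_lit 0x0) (nat_lit 0x7a543883c00)
  (PL.C (nat_lit 0x49e26d99) (nat_lit 0xa31af605000) (nat_lit 0x0)
  (PL.C (nat_lit 0x49f01902) (nat_lit 0x9a92008fd180) (nat_lit 0x0)
  (PL.C (nat_lit 0x4a37bc17) (nat_lit 0x2d3308234b6c80) (nat_lit 0x0)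
  (PL.C (nat_lit 0x4a4bdc16) (nat_lit 0x1f7ab51d2000) (nat_lit 0x0) lm1_220))))))))))))))))))))

noncomputable def lm1_218 : PL :=
  (PL.C (nat_lit 0x44d1ef93) (nat_lit 0x9b37241000580) (nat_lit 0x0)
  (PL.C (nat_lit 0x44da196d) (nat_lit 0x140b4b12d080) (nat_lit 0x0)
  (PL.C (nat_lit 0x453ba496) (nat_lit 0x0) (nat_lit 0x7dead474800)
  (PL.C (nat_lit 0x4599f085) (nat_lit 0x0) (nat_lit 0x5259c5eb9e400)
  (PL.C (nat_lit 0x463205f1) (nat_lit 0x1abcb8953500) (nat_lit 0x0)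
  (PL.C (nat_lit 0x464cd0f1) (nat_lit 0x192966140b9200) (nat_lit 0x0)
  (PL.C (nat_lit 0x465a90df) (nat_lit 0x0) (nat_lit 0x909a5b604880)
  (PL.C (nat_lit 0x46dff76a) (nat_lit 0x830e1c75f00) (nat_lit 0x0)
  (PL.C (nat_lit 0x46e77309) (nat_lit 0x33f2610dd3e700) (nat_lit 0x0)
  (PL.C (nat_lit 0x471027e7) (nat_lit 0x0) (nat_lit 0x2835401464800)
  (PL.C (nat_lit 0x47208b1e) (nat_lit 0x0) (nat_lit 0x40b964d75100)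
  (PL.C (nat_lit 0x47394be3) (nat_lit 0x4b5fde5f478400) (nat_lit 0x0)
  (PL.C (nat_lit 0x474b5bab) (nat_lit 0x506a8028c9000) (nat_lit 0x0)
  (PL.C (nat_lit 0x47701c1b) (nat_lit 0x0) (nat_lit 0x14f81f46e2000)
  (PL.C (nat_lit 0x4783b3ef) (nat_lit 0x67e4c21ba7ce00) (nat_lit 0x0)
  (PL.C (nat_lit 0x479da7d9) (nat_lit 0x1901406b586400) (nat_lit 0x0)
  (PL.C (nat_lit 0x47d06681) (nat_lit 0x14fff383d800) (nat_lit 0x0)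
  (PL.C (nat_lit 0x47e878bd) (nat_lit 0x506a8028c9000) (nat_lit 0x0)
  (PL.C (nat_lit 0x4803d996) (nat_lit 0xc91a3c626cc00) (nat_lit 0x0)
  (PL.C (nat_lit 0x48499fbd) (nat_lit 0x9cc754910f9480) (nat_lit 0x0) lm1_219))))))))))))))))))))

noncomputable def lm1_217 : PL :=
  (PL.C (nat_lit 0x42248965) (nat_lit 0x75f0336b91b40) (nat_lit 0x0)
  (PL.C (nat_lit 0x422b95a7) (nat_lit 0x0) (nat_lit 0x2f55bcb33f3f00)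
  (PL.C (nat_lit 0x422c4af1) (nat_lit 0x29f03e8dc4000) (nat_lit 0x0)
  (PL.C (nat_lit 0x42503bcb) (nat_lit 0x1398bcbcd2fd00) (nat_lit 0x0)
  (PL.C (nat_lit 0x42716c35) (nat_lit 0x1bdd5309a12700) (nat_lit 0x0)
  (PL.C (nat_lit 0x4281bc7f) (nat_lit 0x13524011fa300) (nat_lit 0x0)
  (PL.C (nat_lit 0x42975a65) (nat_lit 0x319aba3ea4000) (nat_lit 0x0)
  (PL.C (nat_lit 0x42be1ec7) (nat_lit 0x14f81f46e2000) (nat_lit 0x0)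
  (PL.C (nat_lit 0x42f2dfb2) (nat_lit 0x0) (nat_lit 0x7dead474800)
  (PL.C (nat_lit 0x4303d863) (nat_lit 0x493e57af8a500) (nat_lit 0x0)
  (PL.C (nat_lit 0x430da3a5) (nat_lit 0x7a543883c00) (nat_lit 0x0)
  (PL.C (nat_lit 0x43294eef) (nat_lit 0xbe96b02dcea300) (nat_lit 0x0)
  (PL.C (nat_lit 0x4376d5c5) (nat_lit 0x9cc754910f9480) (nat_lit 0x0)
  (PL.C (nat_lit 0x4393279b) (nat_lit 0x0) (nat_lit 0x140b4b12d080)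
  (PL.C (nat_lit 0x43a38c37) (nat_lit 0x0) (nat_lit 0x493e57af8a500)
  (PL.C (nat_lit 0x43bd5059) (nat_lit 0xbe96b02dcea300) (nat_lit 0x0)
  (PL.C (nat_lit 0x43efe195) (nat_lit 0x0) (nat_lit 0x2034ad745cb40)
  (PL.C (nat_lit 0x43f39522) (nat_lit 0x53d60cca400) (nat_lit 0x0)
  (PL.C (nat_lit 0x4478c99b) (nat_lit 0x8045209930c440) (nat_lit 0x0)
  (PL.C (nat_lit 0x44b2d9ea) (nat_lit 0x141aa00a32400) (nat_lit 0x0) lm1_218))))))))))))))))))))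

noncomputable def lm1_216 : PL :=
  (PL.C (nat_lit 0x3f374779) (nat_lit 0x0) (nat_lit 0x31dcf7fa6d6400)
  (PL.C (nat_lit 0x3f636d9a) (nat_lit 0x141aa00a32400) (nat_lit 0x0)
  (PL.C (nat_lit 0x3fa84e1f) (nat_lit 0x0) (nat_lit 0x11c8f26497500)
  (PL.C (nat_lit 0x3fd83381) (nat_lit 0x319aba3ea4000) (nat_lit 0x0)
  (PL.C (nat_lit 0x3ff3b5d3) (nat_lit 0x14731cc384500) (nat_lit 0x0)
  (PL.C (nat_lit 0x401187d1) (nat_lit 0x1e5629527b9b80) (nat_lit 0x0)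
  (PL.C (nat_lit 0x406c2f97) (nat_lit 0x31dcf7fa6d6400) (nat_lit 0x0)
  (PL.C (nat_lit 0x40730ced) (nat_lit 0x0) (nat_lit 0x9eb6b9e549800)
  (PL.C (nat_lit 0x40b71287) (nat_lit 0xddeb7de92d04c0) (nat_lit 0x0)
  (PL.C (nat_lit 0x40c6f635) (nat_lit 0x1901406b586400) (nat_lit 0x0)
  (PL.C (nat_lit 0x40d27d5e) (nat_lit 0x0) (nat_lit 0x10412490bd00)
  (PL.C (nat_lit 0x40e761cb) (nat_lit 0x0) (nat_lit 0x75f0336b91b40)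
  (PL.C (nat_lit 0x412365be) (nat_lit 0x7dead474800) (nat_lit 0x0)
  (PL.C (nat_lit 0x416a2d05) (nat_lit 0xaa606cd4b11100) (nat_lit 0x0)
  (PL.C (nat_lit 0x41b2f1d2) (nat_lit 0xfbd5a8e9000) (nat_lit 0x0)
  (PL.C (nat_lit 0x41b5afb7) (nat_lit 0xb4d85593d1e400) (nat_lit 0x0)
  (PL.C (nat_lit 0x41bf580d) (nat_lit 0x14fff383d800) (nat_lit 0x0)
  (PL.C (nat_lit 0x41e03ff3) (nat_lit 0x493e57af8a500) (nat_lit 0x0)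
  (PL.C (nat_lit 0x41fa5513) (nat_lit 0x691ef373eba480) (nat_lit 0x0)
  (PL.C (nat_lit 0x420b3d0f) (nat_lit 0x0) (nat_lit 0x14635ec0a000) lm1_217))))))))))))))))))))

noncomputable def lm1_215 : PL :=
  (PL.C (nat_lit 0x3d05a171) (nat_lit 0xba652f31a18800) (nat_lit 0x0)
  (PL.C (nat_lit 0x3d0a3d26) (nat_lit 0x29eb0665200) (nat_lit 0x0)
  (PL.C (nat_lit 0x3d0afb85) (nat_lit 0x0) (nat_lit 0x493e57af8a500)
  (PL.C (nat_lit 0x3d16deef) (nat_lit 0xf13f807a5b00) (nat_lit 0x0)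
  (PL.C (nat_lit 0x3d551459) (nat_lit 0x0) (nat_lit 0x2835401464800)
  (PL.C (nat_lit 0x3d5b9d63) (nat_lit 0x293cea74220000) (nat_lit 0x0)
  (PL.C (nat_lit 0x3d8487bb) (nat_lit 0x0) (nat_lit 0x14f81f46e2000)
  (PL.C (nat_lit 0x3d90c12a) (nat_lit 0x14f58332900) (nat_lit 0x0)
  (PL.C (nat_lit 0x3db32bd2) (nat_lit 0xa75975f3cd400) (nat_lit 0x0)
  (PL.C (nat_lit 0x3dbc2239) (nat_lit 0x24e4e037865f80) (nat_lit 0x0)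
  (PL.C (nat_lit 0x3dbd6a1e) (nat_lit 0x616846564d100) (nat_lit 0x0)
  (PL.C (nat_lit 0x3dd0d395) (nat_lit 0x0) (nat_lit 0xf13f807a5b00)
  (PL.C (nat_lit 0x3dea37f5) (nat_lit 0x0) (nat_lit 0x4711224cd6080)
  (PL.C (nat_lit 0x3e3b241e) (nat_lit 0x1233555016400) (nat_lit 0x0)
  (PL.C (nat_lit 0x3e46e2cb) (nat_lit 0xc95f0a670600) (nat_lit 0x0)
  (PL.C (nat_lit 0x3e66fd3b) (nat_lit 0xfeb9ebf012800) (nat_lit 0x0)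
  (PL.C (nat_lit 0x3e8ec639) (nat_lit 0x0) (nat_lit 0x2bc0a27d5d00)
  (PL.C (nat_lit 0x3ea6bcb3) (nat_lit 0x324e1c5164300) (nat_lit 0x0)
  (PL.C (nat_lit 0x3eb83c33) (nat_lit 0x7a543883c00) (nat_lit 0x0)
  (PL.C (nat_lit 0x3ed0209d) (nat_lit 0x0) (nat_lit 0x574894c9b3940) lm1_216))))))))))))))))))))

noncomputable def lm1_214 : PL :=
  (PL.C (nat_lit 0x3a7b1c72) (nat_lit 0x10b0a2130fde00) (nat_lit 0x0)
  (PL.C (nat_lit 0x3a9e503d) (nat_lit 0x18644344f39400) (nat_lit 0x0)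
  (PL.C (nat_lit 0x3aaaad25) (nat_lit 0x0) (nat_lit 0xf4a8710780)
  (PL.C (nat_lit 0x3b1f7e1b) (nat_lit 0x18644344f39400) (nat_lit 0x0)
  (PL.C (nat_lit 0x3b293e3b) (nat_lit 0x0) (nat_lit 0x2a910714fb00)
  (PL.C (nat_lit 0x3b3042c5) (nat_lit 0x12cd66a78be000) (nat_lit 0x0)
  (PL.C (nat_lit 0x3b6f5f1b) (nat_lit 0xb4d85593d1e400) (nat_lit 0x0)
  (PL.C (nat_lit 0x3b73dc22) (nat_lit 0x1f7ab51d2000) (nat_lit 0x0)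
  (PL.C (nat_lit 0x3bbcc113) (nat_lit 0x0) (nat_lit 0xc373a7a29f200)
  (PL.C (nat_lit 0x3bdaa6ed) (nat_lit 0x3b3c78de29300) (nat_lit 0x0)
  (PL.C (nat_lit 0x3bfd03c3) (nat_lit 0x0) (nat_lit 0x2835401464800)
  (PL.C (nat_lit 0x3c0231c3) (nat_lit 0x502d2c4b4200) (nat_lit 0x0)
  (PL.C (nat_lit 0x3c2efd97) (nat_lit 0x506a8028c9000) (nat_lit 0x0)
  (PL.C (nat_lit 0x3c4e03c7) (nat_lit 0x0) (nat_lit 0x33f2610dd3e700)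
  (PL.C (nat_lit 0x3c57ea29) (nat_lit 0x14c04ba7b7580) (nat_lit 0x0)
  (PL.C (nat_lit 0x3c5e8deb) (nat_lit 0x7678f1bc52600) (nat_lit 0x0)
  (PL.C (nat_lit 0x3c623a6b) (nat_lit 0x2835401464800) (nat_lit 0x0)
  (PL.C (nat_lit 0x3c79ead6) (nat_lit 0x0) (nat_lit 0xeafa77ef5080)
  (PL.C (nat_lit 0x3c84df0a) (nat_lit 0x14f58332900) (nat_lit 0x0)
  (PL.C (nat_lit 0x3cb39e71) (nat_lit 0x506a8028c9000) (nat_lit 0x0) lm1_215))))))))))))))))))))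

noncomputable def lm1_213 : PL :=
  (PL.C (nat_lit 0x38143786) (nat_lit 0x0) (nat_lit 0x14f58332900)
  (PL.C (nat_lit 0x381e1df2) (nat_lit 0xbe63c8785100) (nat_lit 0x0)
  (PL.C (nat_lit 0x384c36cd) (nat_lit 0xdf74d2138e0140) (nat_lit 0x0)
  (PL.C (nat_lit 0x387bf446) (nat_lit 0x616846564d100) (nat_lit 0x0)
  (PL.C (nat_lit 0x38958315) (nat_lit 0x7a370901c1a00) (nat_lit 0x0)
  (PL.C (nat_lit 0x3899c8fe) (nat_lit 0x17cc790f0a200) (nat_lit 0x0)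
  (PL.C (nat_lit 0x38b1d4eb) (nat_lit 0xc2b5294079f40) (nat_lit 0x0)
  (PL.C (nat_lit 0x38b6f65e) (nat_lit 0x2f380fabb00) (nat_lit 0x0)
  (PL.C (nat_lit 0x39168492) (nat_lit 0xbe63c8785100) (nat_lit 0x0)
  (PL.C (nat_lit 0x39190553) (nat_lit 0x0) (nat_lit 0x493e57af8a500)
  (PL.C (nat_lit 0x392c28c7) (nat_lit 0x4711224cd6080) (nat_lit 0x0)
  (PL.C (nat_lit 0x392ec57d) (nat_lit 0x1bc409de30b700) (nat_lit 0x0)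
  (PL.C (nat_lit 0x393ebdfd) (nat_lit 0x0) (nat_lit 0x16b512cf7f00)
  (PL.C (nat_lit 0x394ec0db) (nat_lit 0x0) (nat_lit 0x28c6bd81400)
  (PL.C (nat_lit 0x395c952a) (nat_lit 0x2f380fabb00) (nat_lit 0x0)
  (PL.C (nat_lit 0x39cd0747) (nat_lit 0x8045209930c440) (nat_lit 0x0)
  (PL.C (nat_lit 0x39fe0b12) (nat_lit 0x141aa00a32400) (nat_lit 0x0)
  (PL.C (nat_lit 0x3a117b4a) (nat_lit 0x9a92008fd180) (nat_lit 0x0)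
  (PL.C (nat_lit 0x3a2a7e83) (nat_lit 0xa0b66b4371100) (nat_lit 0x0)
  (PL.C (nat_lit 0x3a6da321) (nat_lit 0x0) (nat_lit 0xc373a7a29f200) lm1_214))))))))))))))))))))

noncomputable def lm1_212 : PL :=
  (PL.C (nat_lit 0x358ce646) (nat_lit 0x14f58332900) (nat_lit 0x0)
  (PL.C (nat_lit 0x3598e183) (nat_lit 0x6c4151c16980) (nat_lit 0x0)
  (PL.C (nat_lit 0x35c71631) (nat_lit 0x0) (nat_lit 0x53bacd29dbd80)
  (PL.C (nat_lit 0x35f7873a) (nat_lit 0x7dead474800) (nat_lit 0x0)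
  (PL.C (nat_lit 0x35fc465f) (nat_lit 0x0) (nat_lit 0x46e4ca2107500)
  (PL.C (nat_lit 0x35ff4475) (nat_lit 0x1ee7850adbc0) (nat_lit 0x0)
  (PL.C (nat_lit 0x3612efc1) (nat_lit 0xf4a8710780) (nat_lit 0x0)
  (PL.C (nat_lit 0x36428ff7) (nat_lit 0x53ffce0f600) (nat_lit 0x0)
  (PL.C (nat_lit 0x3685e71d) (nat_lit 0x30b4232b268800) (nat_lit 0x0)
  (PL.C (nat_lit 0x36a130e3) (nat_lit 0xecf1e378a4c00) (nat_lit 0x0)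
  (PL.C (nat_lit 0x36e24739) (nat_lit 0x0) (nat_lit 0x1e950e20f000)
  (PL.C (nat_lit 0x373861d9) (nat_lit 0x691ef373eba480) (nat_lit 0x0)
  (PL.C (nat_lit 0x37669da2) (nat_lit 0x0) (nat_lit 0x7dead474800)
  (PL.C (nat_lit 0x376d48bd) (nat_lit 0x30cd1f525b80) (nat_lit 0x0)
  (PL.C (nat_lit 0x3771f75f) (nat_lit 0x0) (nat_lit 0x7a543883c00)
  (PL.C (nat_lit 0x37804701) (nat_lit 0x0) (nat_lit 0xf4a8710780)
  (PL.C (nat_lit 0x37af874d) (nat_lit 0x3b3c78de29300) (nat_lit 0x0)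
  (PL.C (nat_lit 0x37b2129f) (nat_lit 0xaa606cd4b11100) (nat_lit 0x0)
  (PL.C (nat_lit 0x37eb4003) (nat_lit 0x0) (nat_lit 0x14fff383d800)
  (PL.C (nat_lit 0x37fa9637) (nat_lit 0xa0b66b4371100) (nat_lit 0x0) lm1_213))))))))))))))))))))

noncomputable def lm1_211 : PL :=
  (PL.C (nat_lit 0x32a8160f) (nat_lit 0x0) (nat_lit 0x3d2a1c41e00)
  (PL.C (nat_lit 0x32d33683) (nat_lit 0x0) (nat_lit 0x1cf117e967b4c0)
  (PL.C (nat_lit 0x32e81723) (nat_lit 0x0) (nat_lit 0x3b3c78de29300)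
  (PL.C (nat_lit 0x32f0728d) (nat_lit 0x2683642a78d880) (nat_lit 0x0)
  (PL.C (nat_lit 0x32f92757) (nat_lit 0x36bfc4bf47cb40) (nat_lit 0x0)
  (PL.C (nat_lit 0x3332c4d5) (nat_lit 0x11c44893358200) (nat_lit 0x0)
  (PL.C (nat_lit 0x3334481d) (nat_lit 0x0) (nat_lit 0x61a61c903c00)
  (PL.C (nat_lit 0x33655611) (nat_lit 0x9b37241000580) (nat_lit 0x0)
  (PL.C (nat_lit 0x3391a4eb) (nat_lit 0x2479d0a6e55f00) (nat_lit 0x0)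
  (PL.C (nat_lit 0x33a51f3b) (nat_lit 0x7dce093996800) (nat_lit 0x0)
  (PL.C (nat_lit 0x340020de) (nat_lit 0x0) (nat_lit 0xbe63c8785100)
  (PL.C (nat_lit 0x341d26dd) (nat_lit 0x12cd66a78be000) (nat_lit 0x0)
  (PL.C (nat_lit 0x342e9ea9) (nat_lit 0x0) (nat_lit 0x2479d0a6e55f00)
  (PL.C (nat_lit 0x344ca287) (nat_lit 0x1e5629527b9b80) (nat_lit 0x0)
  (PL.C (nat_lit 0x3458701f) (nat_lit 0x0) (nat_lit 0x5259c5eb9e400)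
  (PL.C (nat_lit 0x3474624a) (nat_lit 0x0) (nat_lit 0x14f58332900)
  (PL.C (nat_lit 0x34ad6167) (nat_lit 0x2683642a78d880) (nat_lit 0x0)
  (PL.C (nat_lit 0x34bf098b) (nat_lit 0x0) (nat_lit 0x20dabbdb946500)
  (PL.C (nat_lit 0x34d9525d) (nat_lit 0x0) (nat_lit 0x14635ec0a000)
  (PL.C (nat_lit 0x358949b3) (nat_lit 0x0) (nat_lit 0x4228e84d8700) lm1_212))))))))))))))))))))

noncomputable def lm1_210 : PL :=
  (PL.C (nat_lit 0x30ad71d2) (nat_lit 0x1f7ab51d2000) (nat_lit 0x0)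
  (PL.C (nat_lit 0x30d49123) (nat_lit 0x0) (nat_lit 0x30a0881b6f800)
  (PL.C (nat_lit 0x30d8a023) (nat_lit 0xfd69d7ad1d00) (nat_lit 0x0)
  (PL.C (nat_lit 0x30e04c1a) (nat_lit 0x830e1c75f00) (nat_lit 0x0)
  (PL.C (nat_lit 0x31135b82) (nat_lit 0x0) (nat_lit 0x10412490bd00)
  (PL.C (nat_lit 0x3119e5cf) (nat_lit 0x1398bcbcd2fd00) (nat_lit 0x0)
  (PL.C (nat_lit 0x31419e66) (nat_lit 0x0) (nat_lit 0x1f7ab51d2000)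
  (PL.C (nat_lit 0x3143b343) (nat_lit 0x14f81f46e2000) (nat_lit 0x0)
  (PL.C (nat_lit 0x31861a79) (nat_lit 0x14fff383d800) (nat_lit 0x0)
  (PL.C (nat_lit 0x31a5cb7d) (nat_lit 0x25afef2fa3c200) (nat_lit 0x0)
  (PL.C (nat_lit 0x31af8de6) (nat_lit 0x0) (nat_lit 0x40b964d75100)
  (PL.C (nat_lit 0x31dde967) (nat_lit 0x9911665d1cc00) (nat_lit 0x0)
  (PL.C (nat_lit 0x31f6de99) (nat_lit 0x24e4e037865f80) (nat_lit 0x0)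
  (PL.C (nat_lit 0x320099ab) (nat_lit 0xfba177529800) (nat_lit 0x0)
  (PL.C (nat_lit 0x320f29fb) (nat_lit 0x7a370901c1a00) (nat_lit 0x0)
  (PL.C (nat_lit 0x32136489) (nat_lit 0x30118fe942300) (nat_lit 0x0)
  (PL.C (nat_lit 0x323a51d9) (nat_lit 0x1cf117e967b4c0) (nat_lit 0x0)
  (PL.C (nat_lit 0x32453234) (nat_lit 0x25afec938f700) (nat_lit 0x0)
  (PL.C (nat_lit 0x325056f3) (nat_lit 0x59afaed791c00) (nat_lit 0x0)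
  (PL.C (nat_lit 0x326ecabd) (nat_lit 0x7dd0bba94c00) (nat_lit 0x0) lm1_211))))))))))))))))))))

noncomputable def lm1_209 : PL :=
  (PL.C (nat_lit 0x2ee82f47) (nat_lit 0xa31af605000) (nat_lit 0x0)
  (PL.C (nat_lit 0x2f01e341) (nat_lit 0x33f2610dd3e700) (nat_lit 0x0)
  (PL.C (nat_lit 0x2f344d4f) (nat_lit 0xf4a8710780) (nat_lit 0x0)
  (PL.C (nat_lit 0x2f3c0d21) (nat_lit 0x0) (nat_lit 0xbf67b9f5a8080)
  (PL.C (nat_lit 0x2f601a9a) (nat_lit 0x0) (nat_lit 0x141aa00a32400)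
  (PL.C (nat_lit 0x2f879272) (nat_lit 0x2835401464800) (nat_lit 0x0)
  (PL.C (nat_lit 0x2fa9d4a7) (nat_lit 0xfdc1fe428dd00) (nat_lit 0x0)
  (PL.C (nat_lit 0x2fbe6fe6) (nat_lit 0xc89c518df8400) (nat_lit 0x0)
  (PL.C (nat_lit 0x2fcd65a9) (nat_lit 0x0) (nat_lit 0xa31af605000)
  (PL.C (nat_lit 0x2fd300a5) (nat_lit 0x30b4232b268800) (nat_lit 0x0)
  (PL.C (nat_lit 0x2fe04456) (nat_lit 0x53d60cca400) (nat_lit 0x0)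
  (PL.C (nat_lit 0x2ff0507e) (nat_lit 0x2835401464800) (nat_lit 0x0)
  (PL.C (nat_lit 0x3004f6b9) (nat_lit 0x0) (nat_lit 0x3d2a1c41e00)
  (PL.C (nat_lit 0x303dd1e2) (nat_lit 0x0) (nat_lit 0x10412490bd00)
  (PL.C (nat_lit 0x3064c462) (nat_lit 0x10b0a2130fde00) (nat_lit 0x0)
  (PL.C (nat_lit 0x306fd3ae) (nat_lit 0x0) (nat_lit 0x141aa00a32400)
  (PL.C (nat_lit 0x307581b6) (nat_lit 0x1061c38ebe00) (nat_lit 0x0)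
  (PL.C (nat_lit 0x30a3c632) (nat_lit 0x0) (nat_lit 0xbe63c8785100)
  (PL.C (nat_lit 0x30a4752d) (nat_lit 0x0) (nat_lit 0x5224792bf8280)
  (PL.C (nat_lit 0x30a8218e) (nat_lit 0x0) (nat_lit 0x208249217a00) lm1_210))))))))))))))))))))

noncomputable def lm1_208 : PL :=
  (PL.C (nat_lit 0x2ccb7655) (nat_lit 0x28169625a100) (nat_lit 0x0)
  (PL.C (nat_lit 0x2d0cc512) (nat_lit 0x0) (nat_lit 0x830e1c75f00)
  (PL.C (nat_lit 0x2d0cc7f7) (nat_lit 0x0) (nat_lit 0x909a5b604880)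
  (PL.C (nat_lit 0x2d476f4f) (nat_lit 0x0) (nat_lit 0x2bc0a27d5d00)
  (PL.C (nat_lit 0x2d5e18b1) (nat_lit 0x0) (nat_lit 0x199a028789980)
  (PL.C (nat_lit 0x2d6e7835) (nat_lit 0x1d9e3c6f149800) (nat_lit 0x0)
  (PL.C (nat_lit 0x2d87b92b) (nat_lit 0x6335747d48000) (nat_lit 0x0)
  (PL.C (nat_lit 0x2d9f319b) (nat_lit 0x9911665d1cc00) (nat_lit 0x0)
  (PL.C (nat_lit 0x2da59885) (nat_lit 0x0) (nat_lit 0x14fff383d800)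
  (PL.C (nat_lit 0x2dc21307) (nat_lit 0x0) (nat_lit 0x1062f67915d00)
  (PL.C (nat_lit 0x2de14a62) (nat_lit 0x4474f1362e780) (nat_lit 0x0)
  (PL.C (nat_lit 0x2de6bb9e) (nat_lit 0x830e1c75f00) (nat_lit 0x0)
  (PL.C (nat_lit 0x2dec0f3d) (nat_lit 0x319aba3ea4000) (nat_lit 0x0)
  (PL.C (nat_lit 0x2e1324ab) (nat_lit 0x0) (nat_lit 0x1172440e4f940)
  (PL.C (nat_lit 0x2e40b685) (nat_lit 0x0) (nat_lit 0x195a2872d3c80)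
  (PL.C (nat_lit 0x2e549fdd) (nat_lit 0x7dffb517100) (nat_lit 0x0)
  (PL.C (nat_lit 0x2e7c1179) (nat_lit 0x0) (nat_lit 0x7dd0bba94c00)
  (PL.C (nat_lit 0x2ea5027f) (nat_lit 0x29fef5a2585f00) (nat_lit 0x0)
  (PL.C (nat_lit 0x2ecc03f6) (nat_lit 0x0) (nat_lit 0xeafa77ef5080)
  (PL.C (nat_lit 0x2ed708f1) (nat_lit 0x11c44893358200) (nat_lit 0x0) lm1_209))))))))))))))))))))

noncomputable def lm1_207 : PL :=
  (PL.C (nat_lit 0x2ae77dcf) (nat_lit 0x0) (nat_lit 0xd95a9a9d216800)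
  (PL.C (nat_lit 0x2b002b81) (nat_lit 0xfeb9ebf012800) (nat_lit 0x0)
  (PL.C (nat_lit 0x2b0784f3) (nat_lit 0x2835401464800) (nat_lit 0x0)
  (PL.C (nat_lit 0x2b088b63) (nat_lit 0x57a7d96b7b9c80) (nat_lit 0x0)
  (PL.C (nat_lit 0x2b2f4ece) (nat_lit 0xc89c518df8400) (nat_lit 0x0)
  (PL.C (nat_lit 0x2b40929b) (nat_lit 0x0) (nat_lit 0x7a543883c00)
  (PL.C (nat_lit 0x2b5e3b5d) (nat_lit 0x0) (nat_lit 0x601dcf47044180)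
  (PL.C (nat_lit 0x2b96b225) (nat_lit 0x140b4b12d080) (nat_lit 0x0)
  (PL.C (nat_lit 0x2bd4e55e) (nat_lit 0x53d60cca400) (nat_lit 0x0)
  (PL.C (nat_lit 0x2c077e0a) (nat_lit 0x3ef56a3a4000) (nat_lit 0x0)
  (PL.C (nat_lit 0x2c2eb149) (nat_lit 0x0) (nat_lit 0xca5b8d9352480)
  (PL.C (nat_lit 0x2c300edb) (nat_lit 0x5197cd296a380) (nat_lit 0x0)
  (PL.C (nat_lit 0x2c357d32) (nat_lit 0x9c1d92c7eee80) (nat_lit 0x0)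
  (PL.C (nat_lit 0x2c567daa) (nat_lit 0x9a92008fd180) (nat_lit 0x0)
  (PL.C (nat_lit 0x2c64e6ee) (nat_lit 0x2f98f21e14400) (nat_lit 0x0)
  (PL.C (nat_lit 0x2c6586a3) (nat_lit 0x63fddf39fc380) (nat_lit 0x0)
  (PL.C (nat_lit 0x2c6996d3) (nat_lit 0x140b4b12d080) (nat_lit 0x0)
  (PL.C (nat_lit 0x2c77c343) (nat_lit 0x14c04ba7b7580) (nat_lit 0x0)
  (PL.C (nat_lit 0x2c86aaf7) (nat_lit 0x0) (nat_lit 0x26fb5183fd4fc0)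
  (PL.C (nat_lit 0x2cb3c26e) (nat_lit 0x10412490bd00) (nat_lit 0x0) lm1_208))))))))))))))))))))

noncomputable def lm1_206 : PL :=
  (PL.C (nat_lit 0x29897709) (nat_lit 0x6335747d48000) (nat_lit 0x0)
  (PL.C (nat_lit 0x29963d8f) (nat_lit 0x33f2610dd3e700) (nat_lit 0x0)
  (PL.C (nat_lit 0x299e40f7) (nat_lit 0x0) (nat_lit 0xf4a87107800)
  (PL.C (nat_lit 0x29b48426) (nat_lit 0x5642a6639f680) (nat_lit 0x0)
  (PL.C (nat_lit 0x29d02822) (nat_lit 0x10412490bd00) (nat_lit 0x0)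
  (PL.C (nat_lit 0x29e015be) (nat_lit 0x2dc78bc2d7800) (nat_lit 0x0)
  (PL.C (nat_lit 0x29e90c31) (nat_lit 0x25afef2fa3c200) (nat_lit 0x0)
  (PL.C (nat_lit 0x29f9f811) (nat_lit 0x0) (nat_lit 0x7a543883c00)
  (PL.C (nat_lit 0x2a116f55) (nat_lit 0x0) (nat_lit 0x574894c9b3940)
  (PL.C (nat_lit 0x2a186b43) (nat_lit 0x9911665d1cc00) (nat_lit 0x0)
  (PL.C (nat_lit 0x2a271ee5) (nat_lit 0x0) (nat_lit 0x11c8f26497500)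
  (PL.C (nat_lit 0x2a2d7cbd) (nat_lit 0x7dd0bba94c00) (nat_lit 0x0)
  (PL.C (nat_lit 0x2a35b397) (nat_lit 0x49c9c06f0cbf00) (nat_lit 0x0)
  (PL.C (nat_lit 0x2a53bbf9) (nat_lit 0x0) (nat_lit 0x319aba3ea4000)
  (PL.C (nat_lit 0x2a666cfd) (nat_lit 0xd95a9a9d216800) (nat_lit 0x0)
  (PL.C (nat_lit 0x2a6e2443) (nat_lit 0xc95f0a670600) (nat_lit 0x0)
  (PL.C (nat_lit 0x2a902256) (nat_lit 0x2f98f21e14400) (nat_lit 0x0)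
  (PL.C (nat_lit 0x2a92b871) (nat_lit 0x24e4e037865f80) (nat_lit 0x0)
  (PL.C (nat_lit 0x2ab2804d) (nat_lit 0x4711224cd6080) (nat_lit 0x0)
  (PL.C (nat_lit 0x2ae391f9) (nat_lit 0x6c4151c16980) (nat_lit 0x0) lm1_207))))))))))))))))))))

noncomputable def lm1_205 : PL :=
  (PL.C (nat_lit 0x27c8b12b) (nat_lit 0x0) (nat_lit 0x4c5a8a872400)
  (PL.C (nat_lit 0x27d32b62) (nat_lit 0x0) (nat_lit 0x5f709b047b100)
  (PL.C (nat_lit 0x27df9365) (nat_lit 0x2eb5f30c3dc00) (nat_lit 0x0)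
  (PL.C (nat_lit 0x27fe0282) (nat_lit 0x0) (nat_lit 0x141aa00a32400)
  (PL.C (nat_lit 0x28017682) (nat_lit 0x20c3871d7c00) (nat_lit 0x0)
  (PL.C (nat_lit 0x281f53ba) (nat_lit 0x2835401464800) (nat_lit 0x0)
  (PL.C (nat_lit 0x2852d34f) (nat_lit 0x0) (nat_lit 0x53e07d1b88000)
  (PL.C (nat_lit 0x2877bef6) (nat_lit 0x2835401464800) (nat_lit 0x0)
  (PL.C (nat_lit 0x28892d5d) (nat_lit 0x502d2c4b4200) (nat_lit 0x0)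
  (PL.C (nat_lit 0x289aebd9) (nat_lit 0x0) (nat_lit 0x28145a123680)
  (PL.C (nat_lit 0x28e362e6) (nat_lit 0x0) (nat_lit 0x141aa00a32400)
  (PL.C (nat_lit 0x28e7be42) (nat_lit 0x2ece46747d200) (nat_lit 0x0)
  (PL.C (nat_lit 0x28f95ce7) (nat_lit 0x7dce093996800) (nat_lit 0x0)
  (PL.C (nat_lit 0x290fd0a1) (nat_lit 0x0) (nat_lit 0x6600e0ed480)
  (PL.C (nat_lit 0x2917de21) (nat_lit 0x53e07d1b88000) (nat_lit 0x0)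
  (PL.C (nat_lit 0x292eb5bf) (nat_lit 0x319aba3ea4000) (nat_lit 0x0)
  (PL.C (nat_lit 0x29435241) (nat_lit 0x0) (nat_lit 0x7a543883c00)
  (PL.C (nat_lit 0x2947a2b1) (nat_lit 0x1f742eea53000) (nat_lit 0x0)
  (PL.C (nat_lit 0x2953a8a1) (nat_lit 0x0) (nat_lit 0x61a61c903c00)
  (PL.C (nat_lit 0x29849732) (nat_lit 0x60798bb47200) (nat_lit 0x0) lm1_206))))))))))))))))))))

noncomputable def lm1_204 : PL :=
  (PL.C (nat_lit 0x268ff7eb) (nat_lit 0x1383bcc94f2500) (nat_lit 0x0)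
  (PL.C (nat_lit 0x26ab4ae3) (nat_lit 0x7dffb517100) (nat_lit 0x0)
  (PL.C (nat_lit 0x26c6ff02) (nat_lit 0x50c8f04820600) (nat_lit 0x0)
  (PL.C (nat_lit 0x26d61d97) (nat_lit 0x2a62c7fd22680) (nat_lit 0x0)
  (PL.C (nat_lit 0x26dcc0d5) (nat_lit 0x0) (nat_lit 0xa31af605000)
  (PL.C (nat_lit 0x26ec9117) (nat_lit 0x29e91a6ef4ee80) (nat_lit 0x0)
  (PL.C (nat_lit 0x26f3c216) (nat_lit 0x0) (nat_lit 0x5f709b047b100)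
  (PL.C (nat_lit 0x27023409) (nat_lit 0x57f3379643800) (nat_lit 0x0)
  (PL.C (nat_lit 0x2708adef) (nat_lit 0x0) (nat_lit 0x3d2a1c41e00)
  (PL.C (nat_lit 0x2714357e) (nat_lit 0xc0d8e15ac8200) (nat_lit 0x0)
  (PL.C (nat_lit 0x27164fd9) (nat_lit 0x2eb5f30c3dc00) (nat_lit 0x0)
  (PL.C (nat_lit 0x271c736e) (nat_lit 0x2f380fabb00) (nat_lit 0x0)
  (PL.C (nat_lit 0x2723d513) (nat_lit 0x0) (nat_lit 0x2d6a259efe00)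
  (PL.C (nat_lit 0x273d831d) (nat_lit 0x0) (nat_lit 0x24e4e037865f80)
  (PL.C (nat_lit 0x27510351) (nat_lit 0x4c5a8a872400) (nat_lit 0x0)
  (PL.C (nat_lit 0x27582aef) (nat_lit 0x57f3379643800) (nat_lit 0x0)
  (PL.C (nat_lit 0x276012bb) (nat_lit 0x29fef5a2585f00) (nat_lit 0x0)
  (PL.C (nat_lit 0x276a5412) (nat_lit 0xc0d8e15ac8200) (nat_lit 0x0)
  (PL.C (nat_lit 0x277a1615) (nat_lit 0x0) (nat_lit 0x16b512cf7f00)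
  (PL.C (nat_lit 0x27ae7a05) (nat_lit 0x14f81f46e2000) (nat_lit 0x0) lm1_205))))))))))))))))))))

noncomputable def lm1_203 : PL :=
  (PL.C (nat_lit 0x25002f56) (nat_lit 0x2f380fabb00) (nat_lit 0x0)
  (PL.C (nat_lit 0x254458d7) (nat_lit 0x30118fe942300) (nat_lit 0x0)
  (PL.C (nat_lit 0x25478002) (nat_lit 0x0) (nat_lit 0x53d60cca400)
  (PL.C (nat_lit 0x2551b97a) (nat_lit 0x50c8f04820600) (nat_lit 0x0)
  (PL.C (nat_lit 0x2569694c) (nat_lit 0x25afec938f700) (nat_lit 0x0)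
  (PL.C (nat_lit 0x257a466f) (nat_lit 0x0) (nat_lit 0x660573cab8980)
  (PL.C (nat_lit 0x25967931) (nat_lit 0x1268e08cd14600) (nat_lit 0x0)
  (PL.C (nat_lit 0x25b9020e) (nat_lit 0x0) (nat_lit 0x74808b5734800)
  (PL.C (nat_lit 0x25bbdb54) (nat_lit 0x4b5fd9271ee00) (nat_lit 0x0)
  (PL.C (nat_lit 0x25c5f71d) (nat_lit 0x0) (nat_lit 0x140b4b12d080)
  (PL.C (nat_lit 0x25e1ff3d) (nat_lit 0x0) (nat_lit 0x9a4cd0a65a380)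
  (PL.C (nat_lit 0x25e94e87) (nat_lit 0x30118fe942300) (nat_lit 0x0)
  (PL.C (nat_lit 0x260f030c) (nat_lit 0x25afec938f700) (nat_lit 0x0)
  (PL.C (nat_lit 0x2629d3fe) (nat_lit 0x0) (nat_lit 0x3f0d8df63680)
  (PL.C (nat_lit 0x262ddb7b) (nat_lit 0x12cd66a78be000) (nat_lit 0x0)
  (PL.C (nat_lit 0x26348092) (nat_lit 0x7dead474800) (nat_lit 0x0)
  (PL.C (nat_lit 0x263c5467) (nat_lit 0x7a543883c00) (nat_lit 0x0)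
  (PL.C (nat_lit 0x2659edc9) (nat_lit 0x1bbd6fbd25a0980) (nat_lit 0x0)
  (PL.C (nat_lit 0x2681fe6d) (nat_lit 0x259acd4f17c000) (nat_lit 0x0)
  (PL.C (nat_lit 0x26830f47) (nat_lit 0x9911665d1cc00) (nat_lit 0x0) lm1_204))))))))))))))))))))

noncomputable def lm1_202 : PL :=
  (PL.C (nat_lit 0x23bb4102) (nat_lit 0x5e15df0a05200) (nat_lit 0x0)
  (PL.C (nat_lit 0x23c3b761) (nat_lit 0x7a543883c00) (nat_lit 0x0)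
  (PL.C (nat_lit 0x23c6eb7f) (nat_lit 0x2661daff85cac0) (nat_lit 0x0)
  (PL.C (nat_lit 0x23cad3b1) (nat_lit 0x53e07d1b88000) (nat_lit 0x0)
  (PL.C (nat_lit 0x23db580f) (nat_lit 0x129a05d77d800) (nat_lit 0x0)
  (PL.C (nat_lit 0x23f037f5) (nat_lit 0x12cd66a78be000) (nat_lit 0x0)
  (PL.C (nat_lit 0x240c9fd6) (nat_lit 0x0) (nat_lit 0x2f380fabb00)
  (PL.C (nat_lit 0x2415c349) (nat_lit 0xfdc1fe428dd00) (nat_lit 0x0)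
  (PL.C (nat_lit 0x2429ef6d) (nat_lit 0xd51fd06896f540) (nat_lit 0x0)
  (PL.C (nat_lit 0x242c5ffa) (nat_lit 0x14f58332900) (nat_lit 0x0)
  (PL.C (nat_lit 0x2437c74b) (nat_lit 0x0) (nat_lit 0x53e07d1b88000)
  (PL.C (nat_lit 0x2453ae2f) (nat_lit 0x237e2f081eae000) (nat_lit 0x0)
  (PL.C (nat_lit 0x245944be) (nat_lit 0x185a1195934400) (nat_lit 0x0)
  (PL.C (nat_lit 0x2462edf1) (nat_lit 0x16b512cf7f00) (nat_lit 0x0)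
  (PL.C (nat_lit 0x2479a16b) (nat_lit 0x6373b37672a500) (nat_lit 0x0)
  (PL.C (nat_lit 0x24889d0b) (nat_lit 0x2a910714fb00) (nat_lit 0x0)
  (PL.C (nat_lit 0x2496da26) (nat_lit 0x0) (nat_lit 0x41049242f400)
  (PL.C (nat_lit 0x249c0391) (nat_lit 0x0) (nat_lit 0xb2b088b8e5980)
  (PL.C (nat_lit 0x24de93f1) (nat_lit 0x31186e17bba200) (nat_lit 0x0)
  (PL.C (nat_lit 0x24f6a4ea) (nat_lit 0x0) (nat_lit 0x10412490bd00) lm1_203))))))))))))))))))))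

noncomputable def lm1_201 : PL :=
  (PL.C (nat_lit 0x22b06865) (nat_lit 0xd95a9a9d216800) (nat_lit 0x0)
  (PL.C (nat_lit 0x22b41aa7) (nat_lit 0x0) (nat_lit 0xb2b088b8e5980)
  (PL.C (nat_lit 0x22d8bb35) (nat_lit 0x99212c32ed5a80) (nat_lit 0x0)
  (PL.C (nat_lit 0x22e1497f) (nat_lit 0xa0c5b5ca81880) (nat_lit 0x0)
  (PL.C (nat_lit 0x22f2be81) (nat_lit 0x0) (nat_lit 0x2479d0a6e55f00)
  (PL.C (nat_lit 0x2306b1f1) (nat_lit 0x0) (nat_lit 0x319aba3ea4000)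
  (PL.C (nat_lit 0x231b160b) (nat_lit 0x3b3c78de29300) (nat_lit 0x0)
  (PL.C (nat_lit 0x23392bef) (nat_lit 0x6ada98a226c700) (nat_lit 0x0)
  (PL.C (nat_lit 0x233b8c3e) (nat_lit 0x3ef56a3a4000) (nat_lit 0x0)
  (PL.C (nat_lit 0x2361d4c5) (nat_lit 0x19425f1eb3c6980) (nat_lit 0x0)
  (PL.C (nat_lit 0x23670807) (nat_lit 0x0) (nat_lit 0x1e950e20f000)
  (PL.C (nat_lit 0x2378bff9) (nat_lit 0xfdc1fe428dd00) (nat_lit 0x0)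
  (PL.C (nat_lit 0x2386cb59) (nat_lit 0x36aa95baaa2040) (nat_lit 0x0)
  (PL.C (nat_lit 0x238fe5cd) (nat_lit 0xa05a58968400) (nat_lit 0x0)
  (PL.C (nat_lit 0x23956339) (nat_lit 0x10989f47a0e80) (nat_lit 0x0)
  (PL.C (nat_lit 0x239d850f) (nat_lit 0x2479d0a6e55f00) (nat_lit 0x0)
  (PL.C (nat_lit 0x23a15095) (nat_lit 0x0) (nat_lit 0x26fb5183fd4fc0)
  (PL.C (nat_lit 0x23a1b233) (nat_lit 0x259acd4f17c000) (nat_lit 0x0)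
  (PL.C (nat_lit 0x23b50c81) (nat_lit 0x387d3e5a78c00) (nat_lit 0x0)
  (PL.C (nat_lit 0x23b60983) (nat_lit 0x0) (nat_lit 0x3d2a1c41e00) lm1_202))))))))))))))))))))

noncomputable def lm1_200 : PL :=
  (PL.C (nat_lit 0x213deb0b) (nat_lit 0x6ddd83874f780) (nat_lit 0x0)
  (PL.C (nat_lit 0x213e9b9a) (nat_lit 0x4c88b32e8e600) (nat_lit 0x0)
  (PL.C (nat_lit 0x215f7152) (nat_lit 0x0) (nat_lit 0x74808b5734800)
  (PL.C (nat_lit 0x21624306) (nat_lit 0x2fb6244169a00) (nat_lit 0x0)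
  (PL.C (nat_lit 0x2188a181) (nat_lit 0x466b6d508b00) (nat_lit 0x0)
  (PL.C (nat_lit 0x218ae4a2) (nat_lit 0x592f3ccf6dd00) (nat_lit 0x0)
  (PL.C (nat_lit 0x2199ead1) (nat_lit 0x3aa25d94a2980) (nat_lit 0x0)
  (PL.C (nat_lit 0x21af570b) (nat_lit 0x2ef7bd80ce180) (nat_lit 0x0)
  (PL.C (nat_lit 0x21bc3e39) (nat_lit 0x0) (nat_lit 0xca5b8d9352480)
  (PL.C (nat_lit 0x21c5640a) (nat_lit 0xbce03eaec00) (nat_lit 0x0)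
  (PL.C (nat_lit 0x21d287b7) (nat_lit 0x0) (nat_lit 0x232fee88cb9c0)
  (PL.C (nat_lit 0x21f269b5) (nat_lit 0x0) (nat_lit 0x73c8102da400)
  (PL.C (nat_lit 0x220a12cb) (nat_lit 0x0) (nat_lit 0xd95a9a9d216800)
  (PL.C (nat_lit 0x2221d88e) (nat_lit 0x8e224499ac100) (nat_lit 0x0)
  (PL.C (nat_lit 0x2222dabe) (nat_lit 0x0) (nat_lit 0x21bc209482e00)
  (PL.C (nat_lit 0x22438eb6) (nat_lit 0x4474f1362e780) (nat_lit 0x0)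
  (PL.C (nat_lit 0x2246eefd) (nat_lit 0x0) (nat_lit 0x14d170c689e00)
  (PL.C (nat_lit 0x226e14d2) (nat_lit 0x4452b022b48c00) (nat_lit 0x0)
  (PL.C (nat_lit 0x22886841) (nat_lit 0x0) (nat_lit 0x30118fe942300)
  (PL.C (nat_lit 0x22aac094) (nat_lit 0x0) (nat_lit 0x25afec938f700) lm1_201))))))))))))))))))))

noncomputable def lm1_199 : PL :=
  (PL.C (nat_lit 0x204d0eb7) (nat_lit 0x0) (nat_lit 0x30118fe942300)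
  (PL.C (nat_lit 0x204d2969) (nat_lit 0x0) (nat_lit 0x11c44893358200)
  (PL.C (nat_lit 0x204ff369) (nat_lit 0x0) (nat_lit 0x5ad44b3dfc00)
  (PL.C (nat_lit 0x205fdcad) (nat_lit 0x1d9e3c6f149800) (nat_lit 0x0)
  (PL.C (nat_lit 0x20681265) (nat_lit 0x238891266b0400) (nat_lit 0x0)
  (PL.C (nat_lit 0x206d2ecc) (nat_lit 0x0) (nat_lit 0x25afec938f700)
  (PL.C (nat_lit 0x2078c6f5) (nat_lit 0x0) (nat_lit 0x12cd66a78be000)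
  (PL.C (nat_lit 0x2081aee1) (nat_lit 0x49c9c06f0cbf00) (nat_lit 0x0)
  (PL.C (nat_lit 0x208d7ad7) (nat_lit 0xa0c5b5ca81880) (nat_lit 0x0)
  (PL.C (nat_lit 0x20906ac2) (nat_lit 0x0) (nat_lit 0x1d1881cdece80)
  (PL.C (nat_lit 0x20a48baf) (nat_lit 0x0) (nat_lit 0x1e950e20f000)
  (PL.C (nat_lit 0x20af7cb3) (nat_lit 0x238891266b0400) (nat_lit 0x0)
  (PL.C (nat_lit 0x20bbee8a) (nat_lit 0x9c1d92c7eee80) (nat_lit 0x0)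
  (PL.C (nat_lit 0x20dba5b3) (nat_lit 0x237e2f081eae000) (nat_lit 0x0)
  (PL.C (nat_lit 0x20de876f) (nat_lit 0x0) (nat_lit 0xfdc1fe428dd00)
  (PL.C (nat_lit 0x20fee2fd) (nat_lit 0x0) (nat_lit 0xbf67b9f5a8080)
  (PL.C (nat_lit 0x210411a6) (nat_lit 0x53d60cca400) (nat_lit 0x0)
  (PL.C (nat_lit 0x21066d6b) (nat_lit 0x0) (nat_lit 0x11c44893358200)
  (PL.C (nat_lit 0x2109f249) (nat_lit 0x23c8317f2fe940) (nat_lit 0x0)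
  (PL.C (nat_lit 0x211ffa51) (nat_lit 0x0) (nat_lit 0x12cd66a78be000) lm1_200))))))))))))))))))))

noncomputable def lm1_198 : PL :=
  (PL.C (nat_lit 0x1f1fa175) (nat_lit 0x184c340f6a302c0) (nat_lit 0x0)
  (PL.C (nat_lit 0x1f3a05f6) (nat_lit 0x8e224499ac100) (nat_lit 0x0)
  (PL.C (nat_lit 0x1f3c3afd) (nat_lit 0x0) (nat_lit 0x3d2a1c41e00)
  (PL.C (nat_lit 0x1f4574da) (nat_lit 0x0) (nat_lit 0x1f7ab51d2000)
  (PL.C (nat_lit 0x1f4bdd03) (nat_lit 0x0) (nat_lit 0x16b512cf7f00)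
  (PL.C (nat_lit 0x1f761cc3) (nat_lit 0x0) (nat_lit 0x998bba95a0800)
  (PL.C (nat_lit 0x1f78338a) (nat_lit 0x0) (nat_lit 0x2f380fabb00)
  (PL.C (nat_lit 0x1f7d5e16) (nat_lit 0x49354c812f480) (nat_lit 0x0)
  (PL.C (nat_lit 0x1f905297) (nat_lit 0x12ce2cfd943800) (nat_lit 0x0)
  (PL.C (nat_lit 0x1fb4c1fd) (nat_lit 0x30b4232b268800) (nat_lit 0x0)
  (PL.C (nat_lit 0x1fd5e171) (nat_lit 0x1329d20f2bd400) (nat_lit 0x0)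
  (PL.C (nat_lit 0x1fde43c6) (nat_lit 0x1f7ab51d2000) (nat_lit 0x0)
  (PL.C (nat_lit 0x1fe2006e) (nat_lit 0x185a1195934400) (nat_lit 0x0)
  (PL.C (nat_lit 0x1fe8313f) (nat_lit 0xfd69d7ad1d00) (nat_lit 0x0)
  (PL.C (nat_lit 0x1ffa9ef1) (nat_lit 0x0) (nat_lit 0x1ff0890ba9980)
  (PL.C (nat_lit 0x2000e471) (nat_lit 0x15054d1d3cdb400) (nat_lit 0x0)
  (PL.C (nat_lit 0x20034f26) (nat_lit 0xbce03eaec00) (nat_lit 0x0)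
  (PL.C (nat_lit 0x2023371f) (nat_lit 0x2a62c7fd22680) (nat_lit 0x0)
  (PL.C (nat_lit 0x202a8f59) (nat_lit 0x0) (nat_lit 0x93d1697c26c00)
  (PL.C (nat_lit 0x203aa8a7) (nat_lit 0x24e4e037865f80) (nat_lit 0x0) lm1_199))))))))))))))))))))

noncomputable def lm1_197 : PL :=
  (PL.C (nat_lit 0x1e051bc1) (nat_lit 0x0) (nat_lit 0x7a543883c00)
  (PL.C (nat_lit 0x1e109b8b) (nat_lit 0xf13f807a5b00) (nat_lit 0x0)
  (PL.C (nat_lit 0x1e13cfa9) (nat_lit 0x0) (nat_lit 0x20dabbdb946500)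
  (PL.C (nat_lit 0x1e1c3629) (nat_lit 0x1e950e20f000) (nat_lit 0x0)
  (PL.C (nat_lit 0x1e247845) (nat_lit 0x4ae5e045625600) (nat_lit 0x0)
  (PL.C (nat_lit 0x1e2f9f8a) (nat_lit 0x5642a6639f680) (nat_lit 0x0)
  (PL.C (nat_lit 0x1e506c47) (nat_lit 0x20dfe77aa2ede40) (nat_lit 0x0)
  (PL.C (nat_lit 0x1e5a7b72) (nat_lit 0x5f31e43c28800) (nat_lit 0x0)
  (PL.C (nat_lit 0x1e6a2112) (nat_lit 0x4c88b32e8e600) (nat_lit 0x0)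
  (PL.C (nat_lit 0x1e6e65ae) (nat_lit 0x0) (nat_lit 0x53d60cca400)
  (PL.C (nat_lit 0x1e77e41f) (nat_lit 0x51b8b0dd1b6c80) (nat_lit 0x0)
  (PL.C (nat_lit 0x1e8723e1) (nat_lit 0x6373b37672a500) (nat_lit 0x0)
  (PL.C (nat_lit 0x1e989151) (nat_lit 0x11ac7026dc100) (nat_lit 0x0)
  (PL.C (nat_lit 0x1e9d5f7e) (nat_lit 0x2f98f21e14400) (nat_lit 0x0)
  (PL.C (nat_lit 0x1eaa612b) (nat_lit 0x29e91a6ef4ee80) (nat_lit 0x0)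
  (PL.C (nat_lit 0x1ebeb419) (nat_lit 0x0) (nat_lit 0xfdc1fe428dd00)
  (PL.C (nat_lit 0x1eca6a57) (nat_lit 0xd51fd06896f540) (nat_lit 0x0)
  (PL.C (nat_lit 0x1ed303d7) (nat_lit 0x0) (nat_lit 0xb77e54c5a00)
  (PL.C (nat_lit 0x1ee3153e) (nat_lit 0x1f7044cbd80) (nat_lit 0x0)
  (PL.C (nat_lit 0x1f19148f) (nat_lit 0x0) (nat_lit 0xa31af605000) lm1_198))))))))))))))))))))

noncomputable def lm1_196 : PL :=
  (PL.C (nat_lit 0x1d0f216e) (nat_lit 0x830e1c75f00) (nat_lit 0x0)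
  (PL.C (nat_lit 0x1d11afbd) (nat_lit 0x0) (nat_lit 0x6600e0ed480)
  (PL.C (nat_lit 0x1d134c3f) (nat_lit 0x0) (nat_lit 0x10c6b7fcebd80)
  (PL.C (nat_lit 0x1d4872b9) (nat_lit 0x1cf117e967b4c0) (nat_lit 0x0)
  (PL.C (nat_lit 0x1d4b9183) (nat_lit 0x0) (nat_lit 0x601dcf47044180)
  (PL.C (nat_lit 0x1d5bcb37) (nat_lit 0x3887e6c775a300) (nat_lit 0x0)
  (PL.C (nat_lit 0x1d6a7cc9) (nat_lit 0x99212c32ed5a80) (nat_lit 0x0)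
  (PL.C (nat_lit 0x1d71b5bb) (nat_lit 0x1383bcc94f2500) (nat_lit 0x0)
  (PL.C (nat_lit 0x1d7b47b9) (nat_lit 0xc0463fa508c00) (nat_lit 0x0)
  (PL.C (nat_lit 0x1d807245) (nat_lit 0x0) (nat_lit 0xf13f807a5b00)
  (PL.C (nat_lit 0x1d96245b) (nat_lit 0x11ac7026dc100) (nat_lit 0x0)
  (PL.C (nat_lit 0x1d9899f4) (nat_lit 0x96bfb24e3dc00) (nat_lit 0x0)
  (PL.C (nat_lit 0x1d9b32e1) (nat_lit 0x4d490047e8c00) (nat_lit 0x0)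
  (PL.C (nat_lit 0x1d9bb9e2) (nat_lit 0x830e1c75f00) (nat_lit 0x0)
  (PL.C (nat_lit 0x1dbbe5eb) (nat_lit 0x2254367cc0ab380) (nat_lit 0x0)
  (PL.C (nat_lit 0x1ddcf98e) (nat_lit 0x1061c38ebe00) (nat_lit 0x0)
  (PL.C (nat_lit 0x1dde3899) (nat_lit 0x15054d1d3cdb400) (nat_lit 0x0)
  (PL.C (nat_lit 0x1de29c63) (nat_lit 0x7dffb517100) (nat_lit 0x0)
  (PL.C (nat_lit 0x1dfc0dc7) (nat_lit 0x7dd0bba94c00) (nat_lit 0x0)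
  (PL.C (nat_lit 0x1dfd6c7d) (nat_lit 0x2254367cc0ab380) (nat_lit 0x0) lm1_197))))))))))))))))))))

noncomputable def lm1_195 : PL :=
  (PL.C (nat_lit 0x1c0b9f8e) (nat_lit 0x2dc78bc2d7800) (nat_lit 0x0)
  (PL.C (nat_lit 0x1c0fb277) (nat_lit 0x464e57c9186b80) (nat_lit 0x0)
  (PL.C (nat_lit 0x1c104782) (nat_lit 0x4c88b32e8e600) (nat_lit 0x0)
  (PL.C (nat_lit 0x1c191a5b) (nat_lit 0x0) (nat_lit 0x6a99b373410c0)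
  (PL.C (nat_lit 0x1c37d2a6) (nat_lit 0x0) (nat_lit 0x2f98f21e14400)
  (PL.C (nat_lit 0x1c43fa45) (nat_lit 0xc0463fa508c00) (nat_lit 0x0)
  (PL.C (nat_lit 0x1c496d82) (nat_lit 0x60798bb47200) (nat_lit 0x0)
  (PL.C (nat_lit 0x1c5d5bd5) (nat_lit 0x8853c60ce93000) (nat_lit 0x0)
  (PL.C (nat_lit 0x1c6016e4) (nat_lit 0x96bfb24e3dc00) (nat_lit 0x0)
  (PL.C (nat_lit 0x1c66ddc1) (nat_lit 0x0) (nat_lit 0x706cce3c3a740)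
  (PL.C (nat_lit 0x1c7504f7) (nat_lit 0x0) (nat_lit 0x7a543883c00)
  (PL.C (nat_lit 0x1c9389f9) (nat_lit 0x0) (nat_lit 0x3d2a1c41e00)
  (PL.C (nat_lit 0x1c97b6a6) (nat_lit 0x5e15df0a05200) (nat_lit 0x0)
  (PL.C (nat_lit 0x1cadaec9) (nat_lit 0x30b4232b268800) (nat_lit 0x0)
  (PL.C (nat_lit 0x1cbc0937) (nat_lit 0x0) (nat_lit 0x1cf117e967b4c0)
  (PL.C (nat_lit 0x1cd3c539) (nat_lit 0x0) (nat_lit 0x14c450a6e3600)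
  (PL.C (nat_lit 0x1cd5b712) (nat_lit 0x0) (nat_lit 0x10412490bd00)
  (PL.C (nat_lit 0x1cdc2aa9) (nat_lit 0x14dee86fc7d80) (nat_lit 0x0)
  (PL.C (nat_lit 0x1cf50bf3) (nat_lit 0x0) (nat_lit 0x291eabc902780)
  (PL.C (nat_lit 0x1d052eaf) (nat_lit 0x129a05d77d800) (nat_lit 0x0) lm1_196))))))))))))))))))))

noncomputable def lm1_194 : PL :=
  (PL.C (nat_lit 0x1b46d0cd) (nat_lit 0x1e10f09c38c0) (nat_lit 0x0)
  (PL.C (nat_lit 0x1b4d8347) (nat_lit 0x319aba3ea4000) (nat_lit 0x0)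
  (PL.C (nat_lit 0x1b50e89a) (nat_lit 0x4452b022b48c00) (nat_lit 0x0)
  (PL.C (nat_lit 0x1b5e09a9) (nat_lit 0x0) (nat_lit 0x784ee43790c80)
  (PL.C (nat_lit 0x1b694789) (nat_lit 0x0) (nat_lit 0x24e4e037865f80)
  (PL.C (nat_lit 0x1b6dc787) (nat_lit 0xe88e50ea4f080) (nat_lit 0x0)
  (PL.C (nat_lit 0x1b70cc25) (nat_lit 0xfba177529800) (nat_lit 0x0)
  (PL.C (nat_lit 0x1b7277a5) (nat_lit 0x12b58813afdd00) (nat_lit 0x0)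
  (PL.C (nat_lit 0x1b74792a) (nat_lit 0x2f98f21e14400) (nat_lit 0x0)
  (PL.C (nat_lit 0x1b8236d6) (nat_lit 0x0) (nat_lit 0x10412490bd00)
  (PL.C (nat_lit 0x1b8d1b16) (nat_lit 0x0) (nat_lit 0x21bc209482e00)
  (PL.C (nat_lit 0x1b924e37) (nat_lit 0x1261f52636d00) (nat_lit 0x0)
  (PL.C (nat_lit 0x1bb0fa06) (nat_lit 0x5f31e43c28800) (nat_lit 0x0)
  (PL.C (nat_lit 0x1bb221dd) (nat_lit 0x0) (nat_lit 0x534076e34c200)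
  (PL.C (nat_lit 0x1bbcbdbf) (nat_lit 0x57a7d96b7b9c80) (nat_lit 0x0)
  (PL.C (nat_lit 0x1bbed5fa) (nat_lit 0x0) (nat_lit 0x208249217a00)
  (PL.C (nat_lit 0x1bc493e1) (nat_lit 0x6a99b373410c0) (nat_lit 0x0)
  (PL.C (nat_lit 0x1bcf10d1) (nat_lit 0x0) (nat_lit 0x2f69e8f2cb9c00)
  (PL.C (nat_lit 0x1be3d32d) (nat_lit 0x23c8317f2fe940) (nat_lit 0x0)
  (PL.C (nat_lit 0x1bfbfab6) (nat_lit 0x0) (nat_lit 0x10412490bd00) lm1_195))))))))))))))))))))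

noncomputable def lm1_193 : PL :=
  (PL.C (nat_lit 0x1a4d4289) (nat_lit 0xc6bce39d2d00) (nat_lit 0x0)
  (PL.C (nat_lit 0x1a51640e) (nat_lit 0x0) (nat_lit 0x3f0d8df63680)
  (PL.C (nat_lit 0x1a70680d) (nat_lit 0x4ae5e045625600) (nat_lit 0x0)
  (PL.C (nat_lit 0x1a85cb72) (nat_lit 0x0) (nat_lit 0x2c918b086800)
  (PL.C (nat_lit 0x1a8eed0f) (nat_lit 0x0) (nat_lit 0x93d1697c26c00)
  (PL.C (nat_lit 0x1a950cee) (nat_lit 0x547b604ae2980) (nat_lit 0x0)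
  (PL.C (nat_lit 0x1aa50d33) (nat_lit 0x1329d20f2bd400) (nat_lit 0x0)
  (PL.C (nat_lit 0x1aaaabcb) (nat_lit 0x7dffb517100) (nat_lit 0x0)
  (PL.C (nat_lit 0x1abbbc57) (nat_lit 0xecf1e378a4c00) (nat_lit 0x0)
  (PL.C (nat_lit 0x1ad9f3d5) (nat_lit 0x1f742eea53000) (nat_lit 0x0)
  (PL.C (nat_lit 0x1adfc4f5) (nat_lit 0x12ce2cfd943800) (nat_lit 0x0)
  (PL.C (nat_lit 0x1ae7642b) (nat_lit 0x464e57c9186b80) (nat_lit 0x0)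
  (PL.C (nat_lit 0x1af47911) (nat_lit 0x295268a7f5d80) (nat_lit 0x0)
  (PL.C (nat_lit 0x1af6bffb) (nat_lit 0x139188febeb00) (nat_lit 0x0)
  (PL.C (nat_lit 0x1b0413f5) (nat_lit 0x19425f1eb3c6980) (nat_lit 0x0)
  (PL.C (nat_lit 0x1b061e3e) (nat_lit 0x20c3871d7c00) (nat_lit 0x0)
  (PL.C (nat_lit 0x1b0bb5eb) (nat_lit 0x784ee43790c80) (nat_lit 0x0)
  (PL.C (nat_lit 0x1b27407d) (nat_lit 0x0) (nat_lit 0x998bba95a0800)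
  (PL.C (nat_lit 0x1b2a252f) (nat_lit 0xaa9ea1f6182400) (nat_lit 0x0)
  (PL.C (nat_lit 0x1b34d783) (nat_lit 0x7dd0bba94c00) (nat_lit 0x0) lm1_194))))))))))))))))))))

noncomputable def lm1_192 : PL :=
  (PL.C (nat_lit 0x196aee8d) (nat_lit 0x0) (nat_lit 0x7dffb517100)
  (PL.C (nat_lit 0x196f1ac3) (nat_lit 0x0) (nat_lit 0x5d910aa324a80)
  (PL.C (nat_lit 0x197d8d9a) (nat_lit 0x10412490bd00) (nat_lit 0x0)
  (PL.C (nat_lit 0x199701a3) (nat_lit 0x20dfe77aa2ede40) (nat_lit 0x0)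
  (PL.C (nat_lit 0x19acb4da) (nat_lit 0x4c88b32e8e600) (nat_lit 0x0)
  (PL.C (nat_lit 0x19b54ff2) (nat_lit 0x9bc9bcbb24a80) (nat_lit 0x0)
  (PL.C (nat_lit 0x19b852db) (nat_lit 0x295268a7f5d80) (nat_lit 0x0)
  (PL.C (nat_lit 0x19c062cf) (nat_lit 0x26445997473000) (nat_lit 0x0)
  (PL.C (nat_lit 0x19c78742) (nat_lit 0x1f7044cbd80) (nat_lit 0x0)
  (PL.C (nat_lit 0x19e413ba) (nat_lit 0x206fa35bf66600) (nat_lit 0x0)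
  (PL.C (nat_lit 0x19e8808e) (nat_lit 0x1f7ab51d2000) (nat_lit 0x0)
  (PL.C (nat_lit 0x1a017806) (nat_lit 0x6f5b0ab61c300) (nat_lit 0x0)
  (PL.C (nat_lit 0x1a05c94a) (nat_lit 0x9e4b308dd00) (nat_lit 0x0)
  (PL.C (nat_lit 0x1a0c8635) (nat_lit 0x140b4b12d080) (nat_lit 0x0)
  (PL.C (nat_lit 0x1a0edfe6) (nat_lit 0x547b604ae2980) (nat_lit 0x0)
  (PL.C (nat_lit 0x1a17e362) (nat_lit 0x0) (nat_lit 0x7e1b1bec6d00)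
  (PL.C (nat_lit 0x1a312b67) (nat_lit 0x0) (nat_lit 0xe08f4723e580)
  (PL.C (nat_lit 0x1a360236) (nat_lit 0x2c918b086800) (nat_lit 0x0)
  (PL.C (nat_lit 0x1a3ac74a) (nat_lit 0x6f5b0ab61c300) (nat_lit 0x0)
  (PL.C (nat_lit 0x1a45ec09) (nat_lit 0x31186e17bba200) (nat_lit 0x0) lm1_193))))))))))))))))))))

noncomputable def lm1_191 : PL :=
  (PL.C (nat_lit 0x18a0756b) (nat_lit 0xc6a81316d1e00) (nat_lit 0x0)
  (PL.C (nat_lit 0x18a9e459) (nat_lit 0x0) (nat_lit 0x7a543883c00)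
  (PL.C (nat_lit 0x18b4f99f) (nat_lit 0x0) (nat_lit 0x7a543883c00)
  (PL.C (nat_lit 0x18ba2f97) (nat_lit 0x129a05d77d800) (nat_lit 0x0)
  (PL.C (nat_lit 0x18c88053) (nat_lit 0x26445997473000) (nat_lit 0x0)
  (PL.C (nat_lit 0x18cf3b21) (nat_lit 0x0) (nat_lit 0x22c7b7f332880)
  (PL.C (nat_lit 0x18d4e7ad) (nat_lit 0x1f742eea53000) (nat_lit 0x0)
  (PL.C (nat_lit 0x18d83b3a) (nat_lit 0x2fb6244169a00) (nat_lit 0x0)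
  (PL.C (nat_lit 0x18eb6c29) (nat_lit 0x0) (nat_lit 0xc6e53d3313c00)
  (PL.C (nat_lit 0x18eca3c1) (nat_lit 0xfbc6ba079ef000) (nat_lit 0x0)
  (PL.C (nat_lit 0x18f27d77) (nat_lit 0x0) (nat_lit 0xb77e54c5a00)
  (PL.C (nat_lit 0x190d1729) (nat_lit 0xb0a3464b8ff80) (nat_lit 0x0)
  (PL.C (nat_lit 0x190efb76) (nat_lit 0x11dd010fb24400) (nat_lit 0x0)
  (PL.C (nat_lit 0x1919a0d7) (nat_lit 0x36aa95baaa2040) (nat_lit 0x0)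
  (PL.C (nat_lit 0x192db4d1) (nat_lit 0x3d2a1c41e00) (nat_lit 0x0)
  (PL.C (nat_lit 0x192ea4be) (nat_lit 0x0) (nat_lit 0x830e1c75f00)
  (PL.C (nat_lit 0x1931acb3) (nat_lit 0x0) (nat_lit 0x2a910714fb00)
  (PL.C (nat_lit 0x1946345a) (nat_lit 0x2fb6244169a00) (nat_lit 0x0)
  (PL.C (nat_lit 0x194fc923) (nat_lit 0x24e4e037865f80) (nat_lit 0x0)
  (PL.C (nat_lit 0x1950f131) (nat_lit 0x6ada98a226c700) (nat_lit 0x0) lm1_192))))))))))))))))))))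

noncomputable def lm1_190 : PL :=
  (PL.C (nat_lit 0x179a055a) (nat_lit 0x0) (nat_lit 0x41049242f400)
  (PL.C (nat_lit 0x17b543de) (nat_lit 0x41870e3af800) (nat_lit 0x0)
  (PL.C (nat_lit 0x17ba91cf) (nat_lit 0x234e556fe9f80) (nat_lit 0x0)
  (PL.C (nat_lit 0x17cb1bb1) (nat_lit 0x0) (nat_lit 0x660573cab8980)
  (PL.C (nat_lit 0x17ce0856) (nat_lit 0x16075dc6ece00) (nat_lit 0x0)
  (PL.C (nat_lit 0x17ceb102) (nat_lit 0x9e4b308dd00) (nat_lit 0x0)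
  (PL.C (nat_lit 0x17d7cf96) (nat_lit 0x10412490bd00) (nat_lit 0x0)
  (PL.C (nat_lit 0x17e7900a) (nat_lit 0x11d95acb47980) (nat_lit 0x0)
  (PL.C (nat_lit 0x17e7e609) (nat_lit 0xedfd866e3bc0) (nat_lit 0x0)
  (PL.C (nat_lit 0x17f1b7e9) (nat_lit 0xe88e50ea4f080) (nat_lit 0x0)
  (PL.C (nat_lit 0x17f9be85) (nat_lit 0x0) (nat_lit 0x871882ba2cbdc0)
  (PL.C (nat_lit 0x1805b113) (nat_lit 0xa05a58968400) (nat_lit 0x0)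
  (PL.C (nat_lit 0x18278a69) (nat_lit 0x319aba3ea4000) (nat_lit 0x0)
  (PL.C (nat_lit 0x1841f3f6) (nat_lit 0x3f0d8df63680) (nat_lit 0x0)
  (PL.C (nat_lit 0x1841f585) (nat_lit 0x0) (nat_lit 0x1ff0890ba9980)
  (PL.C (nat_lit 0x18768f7f) (nat_lit 0x3ee85dd4a6000) (nat_lit 0x0)
  (PL.C (nat_lit 0x188428a1) (nat_lit 0x25340baefb000) (nat_lit 0x0)
  (PL.C (nat_lit 0x1889f171) (nat_lit 0x0) (nat_lit 0x5224792bf8280)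
  (PL.C (nat_lit 0x1890cbf1) (nat_lit 0x1f742eea53000) (nat_lit 0x0)
  (PL.C (nat_lit 0x18943e6f) (nat_lit 0x0) (nat_lit 0x7dffb517100) lm1_191))))))))))))))))))))

noncomputable def lm1_189 : PL :=
  (PL.C (nat_lit 0x16ba7465) (nat_lit 0xdbbb070e9ef00) (nat_lit 0x0)
  (PL.C (nat_lit 0x16c11315) (nat_lit 0x51b8b0dd1b6c80) (nat_lit 0x0)
  (PL.C (nat_lit 0x16c2ff27) (nat_lit 0x139188febeb00) (nat_lit 0x0)
  (PL.C (nat_lit 0x16caa04b) (nat_lit 0x0) (nat_lit 0x129a05d77d800)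
  (PL.C (nat_lit 0x16d4b0d7) (nat_lit 0xe17f1272d75880) (nat_lit 0x0)
  (PL.C (nat_lit 0x16dd5067) (nat_lit 0xa98b1ff489a00) (nat_lit 0x0)
  (PL.C (nat_lit 0x16ec8ab3) (nat_lit 0x6ddd83874f780) (nat_lit 0x0)
  (PL.C (nat_lit 0x16fb153f) (nat_lit 0x0) (nat_lit 0xf4a87107800)
  (PL.C (nat_lit 0x17059ad6) (nat_lit 0x0) (nat_lit 0x2fb6244169a00)
  (PL.C (nat_lit 0x171a300d) (nat_lit 0x0) (nat_lit 0xe17f1272d75880)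
  (PL.C (nat_lit 0x1723ad6d) (nat_lit 0x0) (nat_lit 0x7dd0bba94c00)
  (PL.C (nat_lit 0x172779e3) (nat_lit 0x8853c60ce93000) (nat_lit 0x0)
  (PL.C (nat_lit 0x172b6ef9) (nat_lit 0x12b58813afdd00) (nat_lit 0x0)
  (PL.C (nat_lit 0x172bfc49) (nat_lit 0xc89c5d63ffc00) (nat_lit 0x0)
  (PL.C (nat_lit 0x1740dbaa) (nat_lit 0x5099b83874b00) (nat_lit 0x0)
  (PL.C (nat_lit 0x17464f53) (nat_lit 0x0) (nat_lit 0x105162b7e7d80)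
  (PL.C (nat_lit 0x1759cbf6) (nat_lit 0x0) (nat_lit 0x2f98f21e14400)
  (PL.C (nat_lit 0x175a1ff7) (nat_lit 0x0) (nat_lit 0x6430d7f1d3f780)
  (PL.C (nat_lit 0x1778874f) (nat_lit 0x0) (nat_lit 0x16b512cf7f00)
  (PL.C (nat_lit 0x177999d5) (nat_lit 0xa804b82b12300) (nat_lit 0x0) lm1_190))))))))))))))))))))

noncomputable def lm1_188 : PL :=
  (PL.C (nat_lit 0x160448f2) (nat_lit 0x0) (nat_lit 0x8e224499ac100)
  (PL.C (nat_lit 0x1606a186) (nat_lit 0xc4925639dcf00) (nat_lit 0x0)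
  (PL.C (nat_lit 0x16101e55) (nat_lit 0xa804b82b12300) (nat_lit 0x0)
  (PL.C (nat_lit 0x161c3543) (nat_lit 0x0) (nat_lit 0x3c300ef16d80)
  (PL.C (nat_lit 0x16299627) (nat_lit 0xb0a3464b8ff80) (nat_lit 0x0)
  (PL.C (nat_lit 0x1632136d) (nat_lit 0x0) (nat_lit 0x53bacd29dbd80)
  (PL.C (nat_lit 0x1640bd43) (nat_lit 0x0) (nat_lit 0x105162b7e7d80)
  (PL.C (nat_lit 0x16418204) (nat_lit 0x96b09bf8c3b00) (nat_lit 0x0)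
  (PL.C (nat_lit 0x164670ff) (nat_lit 0x41542960aed700) (nat_lit 0x0)
  (PL.C (nat_lit 0x16519701) (nat_lit 0x387d3e5a78c00) (nat_lit 0x0)
  (PL.C (nat_lit 0x165b1656) (nat_lit 0x8f53ff50d100) (nat_lit 0x0)
  (PL.C (nat_lit 0x165c986c) (nat_lit 0x39022ca589a00) (nat_lit 0x0)
  (PL.C (nat_lit 0x1664974d) (nat_lit 0x12cd66a78be000) (nat_lit 0x0)
  (PL.C (nat_lit 0x1674e4b2) (nat_lit 0x567c5c3f70f80) (nat_lit 0x0)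
  (PL.C (nat_lit 0x1682c637) (nat_lit 0x0) (nat_lit 0x1e950e20f000)
  (PL.C (nat_lit 0x168c5a7a) (nat_lit 0x2e3de80dd780) (nat_lit 0x0)
  (PL.C (nat_lit 0x16912df3) (nat_lit 0xddeb7de92d04c0) (nat_lit 0x0)
  (PL.C (nat_lit 0x16a19bce) (nat_lit 0x3a77f48d0da00) (nat_lit 0x0)
  (PL.C (nat_lit 0x16aaafe9) (nat_lit 0x4a55292e8f2e00) (nat_lit 0x0)
  (PL.C (nat_lit 0x16b60817) (nat_lit 0x6ddd83874f780) (nat_lit 0x0) lm1_189))))))))))))))))))))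

noncomputable def lm1_187 : PL :=
  (PL.C (nat_lit 0x1545762a) (nat_lit 0x0) (nat_lit 0x1d1881cdece80)
  (PL.C (nat_lit 0x15524409) (nat_lit 0x0) (nat_lit 0x4c5a8a872400)
  (PL.C (nat_lit 0x155df2ef) (nat_lit 0x12cd66a78be000) (nat_lit 0x0)
  (PL.C (nat_lit 0x156c10a1) (nat_lit 0x3cc35aa1c340) (nat_lit 0x0)
  (PL.C (nat_lit 0x156ccf6a) (nat_lit 0x206fa35bf66600) (nat_lit 0x0)
  (PL.C (nat_lit 0x1571b4e6) (nat_lit 0x0) (nat_lit 0x4b395afb65600)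
  (PL.C (nat_lit 0x1578630f) (nat_lit 0x273460745f700) (nat_lit 0x0)
  (PL.C (nat_lit 0x1588b47a) (nat_lit 0x0) (nat_lit 0x2fb6244169a00)
  (PL.C (nat_lit 0x1588c646) (nat_lit 0x0) (nat_lit 0x8e224499ac100)
  (PL.C (nat_lit 0x158aa246) (nat_lit 0x0) (nat_lit 0xfc3637d8da00)
  (PL.C (nat_lit 0x159ab6ee) (nat_lit 0x11c44893358200) (nat_lit 0x0)
  (PL.C (nat_lit 0x15b3a73a) (nat_lit 0x5099b83874b00) (nat_lit 0x0)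
  (PL.C (nat_lit 0x15ba7407) (nat_lit 0x4c5a8a872400) (nat_lit 0x0)
  (PL.C (nat_lit 0x15bcc4bd) (nat_lit 0x0) (nat_lit 0x73c8102da400)
  (PL.C (nat_lit 0x15bd004b) (nat_lit 0x3887e6c775a300) (nat_lit 0x0)
  (PL.C (nat_lit 0x15c307ca) (nat_lit 0x0) (nat_lit 0x41049242f400)
  (PL.C (nat_lit 0x15ca5322) (nat_lit 0x11c44893358200) (nat_lit 0x0)
  (PL.C (nat_lit 0x15d3b5f7) (nat_lit 0x1e10f09c38c0) (nat_lit 0x0)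
  (PL.C (nat_lit 0x15dd43eb) (nat_lit 0x18096115a2200) (nat_lit 0x0)
  (PL.C (nat_lit 0x15ff41fe) (nat_lit 0x49354c812f480) (nat_lit 0x0) lm1_188))))))))))))))))))))

noncomputable def lm1_186 : PL :=
  (PL.C (nat_lit 0x14bcb975) (nat_lit 0x4a55292e8f2e00) (nat_lit 0x0)
  (PL.C (nat_lit 0x14bfa26b) (nat_lit 0x1e950e20f000) (nat_lit 0x0)
  (PL.C (nat_lit 0x14c3ace1) (nat_lit 0x3a668f3c87c00) (nat_lit 0x0)
  (PL.C (nat_lit 0x14cc9449) (nat_lit 0x0) (nat_lit 0x4228e84d8700)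
  (PL.C (nat_lit 0x14d2d1fe) (nat_lit 0x9e4b308dd00) (nat_lit 0x0)
  (PL.C (nat_lit 0x14dd3e02) (nat_lit 0x0) (nat_lit 0x3f0d8df63680)
  (PL.C (nat_lit 0x14e97265) (nat_lit 0x0) (nat_lit 0x100e43b44c5e80)
  (PL.C (nat_lit 0x14ed055f) (nat_lit 0x502d2c4b4200) (nat_lit 0x0)
  (PL.C (nat_lit 0x14f96882) (nat_lit 0x0) (nat_lit 0x4b0ef2b130e00)
  (PL.C (nat_lit 0x1504ac6d) (nat_lit 0x1f7fed45c400) (nat_lit 0x0)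
  (PL.C (nat_lit 0x1506246b) (nat_lit 0x0) (nat_lit 0x1172440e4f940)
  (PL.C (nat_lit 0x150ae1ba) (nat_lit 0x97c20e29f3c00) (nat_lit 0x0)
  (PL.C (nat_lit 0x15134b59) (nat_lit 0x0) (nat_lit 0x16efca98b400)
  (PL.C (nat_lit 0x15196ec9) (nat_lit 0x164ed3c5a7aa00) (nat_lit 0x0)
  (PL.C (nat_lit 0x15211f37) (nat_lit 0x0) (nat_lit 0x6ddd83874f780)
  (PL.C (nat_lit 0x15232bfe) (nat_lit 0x185a1195934400) (nat_lit 0x0)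
  (PL.C (nat_lit 0x152b9f53) (nat_lit 0x0) (nat_lit 0x3cc35aa1c340)
  (PL.C (nat_lit 0x1533bb51) (nat_lit 0x1d2f565290fe80) (nat_lit 0x0)
  (PL.C (nat_lit 0x153940f6) (nat_lit 0x9797a5dfbf400) (nat_lit 0x0)
  (PL.C (nat_lit 0x1541bd1f) (nat_lit 0x0) (nat_lit 0xb77e54c5a00) lm1_187))))))))))))))))))))

noncomputable def lm1_185 : PL :=
  (PL.C (nat_lit 0x1418502e) (nat_lit 0x256efe2ff93500) (nat_lit 0x0)
  (PL.C (nat_lit 0x1425e943) (nat_lit 0xc6a81316d1e00) (nat_lit 0x0)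
  (PL.C (nat_lit 0x14284617) (nat_lit 0x17f97d6d90a000) (nat_lit 0x0)
  (PL.C (nat_lit 0x142e25ed) (nat_lit 0x0) (nat_lit 0x6df32eb10a780)
  (PL.C (nat_lit 0x142ffebd) (nat_lit 0x0) (nat_lit 0x16b512cf7f00)
  (PL.C (nat_lit 0x143c524c) (nat_lit 0x12d7f649c7b800) (nat_lit 0x0)
  (PL.C (nat_lit 0x143d54f3) (nat_lit 0x718b295b73600) (nat_lit 0x0)
  (PL.C (nat_lit 0x144fed6a) (nat_lit 0x1e3cedf0d13d80) (nat_lit 0x0)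
  (PL.C (nat_lit 0x1454b1f1) (nat_lit 0xc0463fa508c00) (nat_lit 0x0)
  (PL.C (nat_lit 0x145c7b9b) (nat_lit 0x0) (nat_lit 0x2d6a259efe00)
  (PL.C (nat_lit 0x1465b636) (nat_lit 0x25fc8ba07ca80) (nat_lit 0x0)
  (PL.C (nat_lit 0x1465ff97) (nat_lit 0x0) (nat_lit 0x46b7b8a6532c0)
  (PL.C (nat_lit 0x1468ea54) (nat_lit 0x96bfb24e3dc00) (nat_lit 0x0)
  (PL.C (nat_lit 0x1469ef35) (nat_lit 0x139188febeb00) (nat_lit 0x0)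
  (PL.C (nat_lit 0x147a2c59) (nat_lit 0x0) (nat_lit 0x9a4cd0a65a380)
  (PL.C (nat_lit 0x148cad3a) (nat_lit 0x0) (nat_lit 0x1861b6d91b80)
  (PL.C (nat_lit 0x1494d581) (nat_lit 0x2ef7bd80ce180) (nat_lit 0x0)
  (PL.C (nat_lit 0x149f227f) (nat_lit 0x1ee7850adbc0) (nat_lit 0x0)
  (PL.C (nat_lit 0x14a693bb) (nat_lit 0x132425865dab500) (nat_lit 0x0)
  (PL.C (nat_lit 0x14bb630a) (nat_lit 0x1f7ab51d2000) (nat_lit 0x0) lm1_186))))))))))))))))))))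

noncomputable def lm1_184 : PL :=
  (PL.C (nat_lit 0x137eb6b7) (nat_lit 0x14dee86fc7d80) (nat_lit 0x0)
  (PL.C (nat_lit 0x13807f01) (nat_lit 0x0) (nat_lit 0x4d2cdd8cd4b000)
  (PL.C (nat_lit 0x138bb6af) (nat_lit 0x3aa25d94a2980) (nat_lit 0x0)
  (PL.C (nat_lit 0x138f852d) (nat_lit 0x19a19c1b03ac100) (nat_lit 0x0)
  (PL.C (nat_lit 0x1392877a) (nat_lit 0x1c43f363bad180) (nat_lit 0x0)
  (PL.C (nat_lit 0x1397bb33) (nat_lit 0xb77e54c5a00) (nat_lit 0x0)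
  (PL.C (nat_lit 0x13a123d2) (nat_lit 0x9bc9bcbb24a80) (nat_lit 0x0)
  (PL.C (nat_lit 0x13a78526) (nat_lit 0xbed89105a6800) (nat_lit 0x0)
  (PL.C (nat_lit 0x13b4e231) (nat_lit 0x3d2a1c41e00) (nat_lit 0x0)
  (PL.C (nat_lit 0x13b67813) (nat_lit 0x0) (nat_lit 0x9e036f5d0f3ac0)
  (PL.C (nat_lit 0x13b96d92) (nat_lit 0x25fc8ba07ca80) (nat_lit 0x0)
  (PL.C (nat_lit 0x13bccc96) (nat_lit 0x4d490047e8c00) (nat_lit 0x0)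
  (PL.C (nat_lit 0x13c54d0d) (nat_lit 0x0) (nat_lit 0xc6e53d3313c00)
  (PL.C (nat_lit 0x13ec6842) (nat_lit 0x1f7044cbd80) (nat_lit 0x0)
  (PL.C (nat_lit 0x13f0decb) (nat_lit 0x0) (nat_lit 0x7a543883c00)
  (PL.C (nat_lit 0x140367d6) (nat_lit 0x179c07d5d800) (nat_lit 0x0)
  (PL.C (nat_lit 0x140bcfcb) (nat_lit 0x0) (nat_lit 0x534076e34c200)
  (PL.C (nat_lit 0x14111c25) (nat_lit 0x139188febeb00) (nat_lit 0x0)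
  (PL.C (nat_lit 0x1412cec6) (nat_lit 0x41049242f400) (nat_lit 0x0)
  (PL.C (nat_lit 0x1415d835) (nat_lit 0x63fddf39fc380) (nat_lit 0x0) lm1_185))))))))))))))))))))

noncomputable def lm1_183 : PL :=
  (PL.C (nat_lit 0x12f7666d) (nat_lit 0x15c14bcc6d0300) (nat_lit 0x0)
  (PL.C (nat_lit 0x12f8adfa) (nat_lit 0x179c07d5d800) (nat_lit 0x0)
  (PL.C (nat_lit 0x12fcec9d) (nat_lit 0x234e556fe9f80) (nat_lit 0x0)
  (PL.C (nat_lit 0x130cd6ff) (nat_lit 0xecf1e378a4c00) (nat_lit 0x0)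
  (PL.C (nat_lit 0x130d06a6) (nat_lit 0x9e4b308dd00) (nat_lit 0x0)
  (PL.C (nat_lit 0x130d4b2f) (nat_lit 0x12ad04547f5bf80) (nat_lit 0x0)
  (PL.C (nat_lit 0x1315a565) (nat_lit 0x164ed3c5a7aa00) (nat_lit 0x0)
  (PL.C (nat_lit 0x131e7486) (nat_lit 0x185a1195934400) (nat_lit 0x0)
  (PL.C (nat_lit 0x131f329b) (nat_lit 0x0) (nat_lit 0x232fee88cb9c0)
  (PL.C (nat_lit 0x1321326b) (nat_lit 0x90abb7efd8d40) (nat_lit 0x0)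
  (PL.C (nat_lit 0x13225f4d) (nat_lit 0x1f742eea53000) (nat_lit 0x0)
  (PL.C (nat_lit 0x13261947) (nat_lit 0x0) (nat_lit 0xb5a8967bf800)
  (PL.C (nat_lit 0x13290e0b) (nat_lit 0x0) (nat_lit 0x14d170c689e00)
  (PL.C (nat_lit 0x132faeb9) (nat_lit 0x8c9caf9230d700) (nat_lit 0x0)
  (PL.C (nat_lit 0x133aa2a9) (nat_lit 0x1f7fed45c400) (nat_lit 0x0)
  (PL.C (nat_lit 0x133d71c6) (nat_lit 0x17a932f2877680) (nat_lit 0x0)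
  (PL.C (nat_lit 0x1345d473) (nat_lit 0x4d2cdd8cd4b000) (nat_lit 0x0)
  (PL.C (nat_lit 0x1349564d) (nat_lit 0x466b6d508b00) (nat_lit 0x0)
  (PL.C (nat_lit 0x1358c9ca) (nat_lit 0x11d95acb47980) (nat_lit 0x0)
  (PL.C (nat_lit 0x1359f6bf) (nat_lit 0x464e57c9186b80) (nat_lit 0x0) lm1_184))))))))))))))))))))

noncomputable def lm1_182 : PL :=
  (PL.C (nat_lit 0x1261897a) (nat_lit 0x0) (nat_lit 0xe040bb54f5600)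
  (PL.C (nat_lit 0x1263b1ed) (nat_lit 0x17f97d6d90a000) (nat_lit 0x0)
  (PL.C (nat_lit 0x126ce613) (nat_lit 0x0) (nat_lit 0x5ad44b3dfc00)
  (PL.C (nat_lit 0x1274f6d7) (nat_lit 0x0) (nat_lit 0x1a8bd7a81c180)
  (PL.C (nat_lit 0x1275fc04) (nat_lit 0x12d7f649c7b800) (nat_lit 0x0)
  (PL.C (nat_lit 0x1276c13e) (nat_lit 0x53fcda0840f00) (nat_lit 0x0)
  (PL.C (nat_lit 0x128a0b36) (nat_lit 0x24985afb0f8300) (nat_lit 0x0)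
  (PL.C (nat_lit 0x1297e21e) (nat_lit 0xc4925639dcf00) (nat_lit 0x0)
  (PL.C (nat_lit 0x12983823) (nat_lit 0x0) (nat_lit 0x139188febeb00)
  (PL.C (nat_lit 0x129fe469) (nat_lit 0x0) (nat_lit 0x2f69e8f2cb9c00)
  (PL.C (nat_lit 0x12adc20f) (nat_lit 0x4d2cdd8cd4b000) (nat_lit 0x0)
  (PL.C (nat_lit 0x12afbf95) (nat_lit 0x0) (nat_lit 0x341f846682080)
  (PL.C (nat_lit 0x12b82411) (nat_lit 0x129a05d77d800) (nat_lit 0x0)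
  (PL.C (nat_lit 0x12bd3e9d) (nat_lit 0x0) (nat_lit 0xc0463fa508c00)
  (PL.C (nat_lit 0x12c3787f) (nat_lit 0x1c3419fb51d000) (nat_lit 0x0)
  (PL.C (nat_lit 0x12c8ef8f) (nat_lit 0x1261f52636d00) (nat_lit 0x0)
  (PL.C (nat_lit 0x12cfe1c4) (nat_lit 0x0) (nat_lit 0x96bfb24e3dc00)
  (PL.C (nat_lit 0x12d7fc2e) (nat_lit 0xbed89105a6800) (nat_lit 0x0)
  (PL.C (nat_lit 0x12e164a7) (nat_lit 0x25340baefb000) (nat_lit 0x0)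
  (PL.C (nat_lit 0x12e73341) (nat_lit 0x24e4e037865f80) (nat_lit 0x0) lm1_183))))))))))))))))))))

noncomputable def lm1_181 : PL :=
  (PL.C (nat_lit 0x11b49e0a) (nat_lit 0x0) (nat_lit 0x4b395afb65600)
  (PL.C (nat_lit 0x11c35e22) (nat_lit 0x9797a5dfbf400) (nat_lit 0x0)
  (PL.C (nat_lit 0x11c452d7) (nat_lit 0x273460745f700) (nat_lit 0x0)
  (PL.C (nat_lit 0x11c71d32) (nat_lit 0x1f7044cbd80) (nat_lit 0x0)
  (PL.C (nat_lit 0x11d62453) (nat_lit 0x0) (nat_lit 0x464e57c9186b80)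
  (PL.C (nat_lit 0x11e6a28e) (nat_lit 0xfba177529800) (nat_lit 0x0)
  (PL.C (nat_lit 0x11ea834e) (nat_lit 0x97c20e29f3c00) (nat_lit 0x0)
  (PL.C (nat_lit 0x11f850b6) (nat_lit 0x0) (nat_lit 0xd6d071d50700)
  (PL.C (nat_lit 0x11f9d552) (nat_lit 0x1403ca5864c00) (nat_lit 0x0)
  (PL.C (nat_lit 0x1213c0b3) (nat_lit 0x8073506d2ab00) (nat_lit 0x0)
  (PL.C (nat_lit 0x121a2afe) (nat_lit 0x0) (nat_lit 0x4b0ef2b130e00)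
  (PL.C (nat_lit 0x121c18ca) (nat_lit 0x0) (nat_lit 0x278c460af46600)
  (PL.C (nat_lit 0x12235641) (nat_lit 0x5c30a5516300) (nat_lit 0x0)
  (PL.C (nat_lit 0x1223e5c3) (nat_lit 0xa98b1ff489a00) (nat_lit 0x0)
  (PL.C (nat_lit 0x122f35de) (nat_lit 0xc4952ab0e80) (nat_lit 0x0)
  (PL.C (nat_lit 0x1233acda) (nat_lit 0x2f98f21e14400) (nat_lit 0x0)
  (PL.C (nat_lit 0x123b83fb) (nat_lit 0xc0463fa508c00) (nat_lit 0x0)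
  (PL.C (nat_lit 0x124773ff) (nat_lit 0x0) (nat_lit 0x8a97f44f56980)
  (PL.C (nat_lit 0x124da61c) (nat_lit 0x96bfb24e3dc00) (nat_lit 0x0)
  (PL.C (nat_lit 0x12543181) (nat_lit 0x0) (nat_lit 0x4d2cdd8cd4b000) lm1_182))))))))))))))))))))

noncomputable def lm1_180 : PL :=
  (PL.C (nat_lit 0x114e09fd) (nat_lit 0x75f16c9f9d80) (nat_lit 0x0)
  (PL.C (nat_lit 0x1151fe6b) (nat_lit 0x0) (nat_lit 0x271972728f000)
  (PL.C (nat_lit 0x11565004) (nat_lit 0xa563a6b47e400) (nat_lit 0x0)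
  (PL.C (nat_lit 0x115930dc) (nat_lit 0x5e701f57600) (nat_lit 0x0)
  (PL.C (nat_lit 0x115aa995) (nat_lit 0x464e57c9186b80) (nat_lit 0x0)
  (PL.C (nat_lit 0x115daece) (nat_lit 0x830e1c75f00) (nat_lit 0x0)
  (PL.C (nat_lit 0x116491c5) (nat_lit 0x0) (nat_lit 0x139188febeb00)
  (PL.C (nat_lit 0x1166209b) (nat_lit 0x0) (nat_lit 0x2ddf95316800)
  (PL.C (nat_lit 0x116b31eb) (nat_lit 0x35806cd9f01d00) (nat_lit 0x0)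
  (PL.C (nat_lit 0x116eb1e7) (nat_lit 0x132425865dab500) (nat_lit 0x0)
  (PL.C (nat_lit 0x117c84dc) (nat_lit 0xa563a6b47e400) (nat_lit 0x0)
  (PL.C (nat_lit 0x1180e803) (nat_lit 0x8c9caf9230d700) (nat_lit 0x0)
  (PL.C (nat_lit 0x11816409) (nat_lit 0x1f742eea53000) (nat_lit 0x0)
  (PL.C (nat_lit 0x11874225) (nat_lit 0x4ade004a10e500) (nat_lit 0x0)
  (PL.C (nat_lit 0x1188d706) (nat_lit 0x0) (nat_lit 0x10a1961399b00)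
  (PL.C (nat_lit 0x1193adad) (nat_lit 0x0) (nat_lit 0xb77e54c5a00)
  (PL.C (nat_lit 0x11a0455e) (nat_lit 0x256efe2ff93500) (nat_lit 0x0)
  (PL.C (nat_lit 0x11a724b9) (nat_lit 0x75f16c9f9d80) (nat_lit 0x0)
  (PL.C (nat_lit 0x11aa291b) (nat_lit 0x0) (nat_lit 0x3d2a1c41e00)
  (PL.C (nat_lit 0x11b15939) (nat_lit 0x157558ffdc86500) (nat_lit 0x0) lm1_181))))))))))))))))))))

noncomputable def lm1_179 : PL :=
  (PL.C (nat_lit 0x10b4a7a4) (nat_lit 0x38860012a7e600) (nat_lit 0x0)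
  (PL.C (nat_lit 0x10bebc4d) (nat_lit 0x0) (nat_lit 0x3d2a1c41e00)
  (PL.C (nat_lit 0x10c2433f) (nat_lit 0xf71c9dc9468040) (nat_lit 0x0)
  (PL.C (nat_lit 0x10c92336) (nat_lit 0x0) (nat_lit 0x9e4b308dd00)
  (PL.C (nat_lit 0x10d9783c) (nat_lit 0x96b09bf8c3b00) (nat_lit 0x0)
  (PL.C (nat_lit 0x10f08579) (nat_lit 0x139188febeb00) (nat_lit 0x0)
  (PL.C (nat_lit 0x10f0d469) (nat_lit 0x0) (nat_lit 0x1f8b1eb4ebb40)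
  (PL.C (nat_lit 0x10f1f45e) (nat_lit 0x0) (nat_lit 0x1f7044cbd80)
  (PL.C (nat_lit 0x10f4bc82) (nat_lit 0x0) (nat_lit 0x25394c39e4500)
  (PL.C (nat_lit 0x10fef165) (nat_lit 0x468da15ce2000) (nat_lit 0x0)
  (PL.C (nat_lit 0x11128fd7) (nat_lit 0x3887e6c775a300) (nat_lit 0x0)
  (PL.C (nat_lit 0x1115d9ff) (nat_lit 0x718b295b73600) (nat_lit 0x0)
  (PL.C (nat_lit 0x112465b3) (nat_lit 0x3eff4d9f3eb40) (nat_lit 0x0)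
  (PL.C (nat_lit 0x11258c92) (nat_lit 0x0) (nat_lit 0xd6d071d50700)
  (PL.C (nat_lit 0x112aec8a) (nat_lit 0x13222ccba39800) (nat_lit 0x0)
  (PL.C (nat_lit 0x112b7053) (nat_lit 0x16b512cf7f00) (nat_lit 0x0)
  (PL.C (nat_lit 0x11382e33) (nat_lit 0x0) (nat_lit 0x173f5ce2391d00)
  (PL.C (nat_lit 0x113b80c9) (nat_lit 0x139188febeb00) (nat_lit 0x0)
  (PL.C (nat_lit 0x113b8eb3) (nat_lit 0xacb07698889c00) (nat_lit 0x0)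
  (PL.C (nat_lit 0x114522ed) (nat_lit 0x35806cd9f01d00) (nat_lit 0x0) lm1_180))))))))))))))))))))

noncomputable def lm1_178 : PL :=
  (PL.C (nat_lit 0x10581b16) (nat_lit 0x23b2b5968f300) (nat_lit 0x0)
  (PL.C (nat_lit 0x105e7a7d) (nat_lit 0x0) (nat_lit 0x2dd877c19080)
  (PL.C (nat_lit 0x106087f6) (nat_lit 0xfba177529800) (nat_lit 0x0)
  (PL.C (nat_lit 0x1062d44a) (nat_lit 0x0) (nat_lit 0x1f7044cbd80)
  (PL.C (nat_lit 0x1067f0fd) (nat_lit 0x2064e17d336380) (nat_lit 0x0)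
  (PL.C (nat_lit 0x106af8f2) (nat_lit 0xbdc57d47c3300) (nat_lit 0x0)
  (PL.C (nat_lit 0x10702703) (nat_lit 0x6e61415ea1c240) (nat_lit 0x0)
  (PL.C (nat_lit 0x107142e6) (nat_lit 0x0) (nat_lit 0x10412490bd00)
  (PL.C (nat_lit 0x1078a66a) (nat_lit 0x13c96611ba00) (nat_lit 0x0)
  (PL.C (nat_lit 0x10798953) (nat_lit 0x6e80130146c00) (nat_lit 0x0)
  (PL.C (nat_lit 0x107c1fba) (nat_lit 0x11d95acb47980) (nat_lit 0x0)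
  (PL.C (nat_lit 0x108320a1) (nat_lit 0x157558ffdc86500) (nat_lit 0x0)
  (PL.C (nat_lit 0x1085aae2) (nat_lit 0x13222ccba39800) (nat_lit 0x0)
  (PL.C (nat_lit 0x1090277c) (nat_lit 0x96b09bf8c3b00) (nat_lit 0x0)
  (PL.C (nat_lit 0x109460a5) (nat_lit 0x6e61415ea1c240) (nat_lit 0x0)
  (PL.C (nat_lit 0x109cf2c6) (nat_lit 0x0) (nat_lit 0xbd27321735600)
  (PL.C (nat_lit 0x10a1a8fa) (nat_lit 0x0) (nat_lit 0x1861b6d91b80)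
  (PL.C (nat_lit 0x10a4019f) (nat_lit 0x0) (nat_lit 0x341f846682080)
  (PL.C (nat_lit 0x10a41ab5) (nat_lit 0x30118fe9423000) (nat_lit 0x0)
  (PL.C (nat_lit 0x10b364c6) (nat_lit 0x0) (nat_lit 0x11bda192126300) lm1_179))))))))))))))))))))

noncomputable def lm1_177 : PL :=
  (PL.C (nat_lit 0xfdac451) (nat_lit 0x4ade004a10e500) (nat_lit 0x0)
  (PL.C (nat_lit 0xfdf20ac) (nat_lit 0x5e701f57600) (nat_lit 0x0)
  (PL.C (nat_lit 0xfdfeb8b) (nat_lit 0x96607bd8de080) (nat_lit 0x0)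
  (PL.C (nat_lit 0xfe2b3af) (nat_lit 0x0) (nat_lit 0x6a99b373410c0)
  (PL.C (nat_lit 0xfebc53f) (nat_lit 0x0) (nat_lit 0x129a05d77d800)
  (PL.C (nat_lit 0xfefb55c) (nat_lit 0x3887e2dd57280) (nat_lit 0x0)
  (PL.C (nat_lit 0xff50a05) (nat_lit 0x7dd0bba94c00) (nat_lit 0x0)
  (PL.C (nat_lit 0x1002b6e1) (nat_lit 0x3cadf01079ee700) (nat_lit 0x0)
  (PL.C (nat_lit 0x1003cb62) (nat_lit 0x41870e3af800) (nat_lit 0x0)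
  (PL.C (nat_lit 0x1015322b) (nat_lit 0x6298656a86df380) (nat_lit 0x0)
  (PL.C (nat_lit 0x10178f49) (nat_lit 0x0) (nat_lit 0xb77e54c5a00)
  (PL.C (nat_lit 0x101a5c46) (nat_lit 0x2f98f21e14400) (nat_lit 0x0)
  (PL.C (nat_lit 0x10214bf5) (nat_lit 0x0) (nat_lit 0xf4a87107800)
  (PL.C (nat_lit 0x1025ff57) (nat_lit 0x20597252fc171c0) (nat_lit 0x0)
  (PL.C (nat_lit 0x102a22a3) (nat_lit 0x3c21e1387180) (nat_lit 0x0)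
  (PL.C (nat_lit 0x102ca177) (nat_lit 0x0) (nat_lit 0x28145a123680)
  (PL.C (nat_lit 0x103053c1) (nat_lit 0x6a99b373410c0) (nat_lit 0x0)
  (PL.C (nat_lit 0x10320d5b) (nat_lit 0x0) (nat_lit 0x871882ba2cbdc0)
  (PL.C (nat_lit 0x103b05af) (nat_lit 0x1a8f7d12378f00) (nat_lit 0x0)
  (PL.C (nat_lit 0x1052b075) (nat_lit 0x17ba2c46641e980) (nat_lit 0x0) lm1_178))))))))))))))))))))

noncomputable def lm1_176 : PL :=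
  (PL.C (nat_lit 0xf384baf) (nat_lit 0x4e4623fafac00) (nat_lit 0x0)
  (PL.C (nat_lit 0xf3e359a) (nat_lit 0x81be8d6fd99800) (nat_lit 0x0)
  (PL.C (nat_lit 0xf45f65f) (nat_lit 0x2ff9d735c18280) (nat_lit 0x0)
  (PL.C (nat_lit 0xf520e2a) (nat_lit 0x2792cc237400) (nat_lit 0x0)
  (PL.C (nat_lit 0xf5911e4) (nat_lit 0x0) (nat_lit 0x96b09bf8c3b00)
  (PL.C (nat_lit 0xf7136bb) (nat_lit 0x26445997473000) (nat_lit 0x0)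
  (PL.C (nat_lit 0xf78f145) (nat_lit 0x0) (nat_lit 0xe17f1272d75880)
  (PL.C (nat_lit 0xf81c675) (nat_lit 0x0) (nat_lit 0xc0463fa508c00)
  (PL.C (nat_lit 0xf8434e2) (nat_lit 0x0) (nat_lit 0x23224a67e6cc0)
  (PL.C (nat_lit 0xf8a3e5b) (nat_lit 0x0) (nat_lit 0xfd3bbe2566e00)
  (PL.C (nat_lit 0xf9132a4) (nat_lit 0x0) (nat_lit 0x96bfb24e3dc00)
  (PL.C (nat_lit 0xf97a3f9) (nat_lit 0x0) (nat_lit 0x59451862d2280)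
  (PL.C (nat_lit 0xfa5af8a) (nat_lit 0x0) (nat_lit 0x3f0d8df63680)
  (PL.C (nat_lit 0xfa6668e) (nat_lit 0x144d2b20213200) (nat_lit 0x0)
  (PL.C (nat_lit 0xfb25def) (nat_lit 0x0) (nat_lit 0x139188febeb00)
  (PL.C (nat_lit 0xfc48c8b) (nat_lit 0xe17f1272d75880) (nat_lit 0x0)
  (PL.C (nat_lit 0xfc63aa9) (nat_lit 0x0) (nat_lit 0x9e036f5d0f3ac0)
  (PL.C (nat_lit 0xfcef745) (nat_lit 0x1636ad534f7200) (nat_lit 0x0)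
  (PL.C (nat_lit 0xfd1b68a) (nat_lit 0x276ded9bdcdfc0) (nat_lit 0x0)
  (PL.C (nat_lit 0xfd6e0bb) (nat_lit 0x15090af77ab3d40) (nat_lit 0x0) lm1_177))))))))))))))))))))

noncomputable def lm1_175 : PL :=
  (PL.C (nat_lit 0xeb735c3) (nat_lit 0x3ee85dd4a6000) (nat_lit 0x0)
  (PL.C (nat_lit 0xebc7b5b) (nat_lit 0x0) (nat_lit 0xbcb9197df200)
  (PL.C (nat_lit 0xec288fb) (nat_lit 0x0) (nat_lit 0x464e57c9186b80)
  (PL.C (nat_lit 0xec6641a) (nat_lit 0x0) (nat_lit 0x11bda192126300)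
  (PL.C (nat_lit 0xec6954f) (nat_lit 0xdbbb070e9ef00) (nat_lit 0x0)
  (PL.C (nat_lit 0xed5d382) (nat_lit 0x0) (nat_lit 0x23224a67e6cc0)
  (PL.C (nat_lit 0xed8a045) (nat_lit 0x18b5bdb8c4b00) (nat_lit 0x0)
  (PL.C (nat_lit 0xed9a0aa) (nat_lit 0x404d8e95e96e00) (nat_lit 0x0)
  (PL.C (nat_lit 0xee10f56) (nat_lit 0x16075dc6ece00) (nat_lit 0x0)
  (PL.C (nat_lit 0xee9c377) (nat_lit 0x0) (nat_lit 0x40a2d28bd8e00)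
  (PL.C (nat_lit 0xeef79dd) (nat_lit 0x19a19c1b03ac100) (nat_lit 0x0)
  (PL.C (nat_lit 0xef957d3) (nat_lit 0x0) (nat_lit 0x2ae593cab953c0)
  (PL.C (nat_lit 0xeff7e73) (nat_lit 0x0) (nat_lit 0x5d910aa324a80)
  (PL.C (nat_lit 0xf01d97a) (nat_lit 0x0) (nat_lit 0x41049242f400)
  (PL.C (nat_lit 0xf048567) (nat_lit 0x4bb49690d46580) (nat_lit 0x0)
  (PL.C (nat_lit 0xf1c2505) (nat_lit 0x17ca2fd63d4b80) (nat_lit 0x0)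
  (PL.C (nat_lit 0xf1c7546) (nat_lit 0x252a9497479700) (nat_lit 0x0)
  (PL.C (nat_lit 0xf2b620e) (nat_lit 0x1e3cedf0d13d80) (nat_lit 0x0)
  (PL.C (nat_lit 0xf2caa1a) (nat_lit 0x1403ca5864c00) (nat_lit 0x0)
  (PL.C (nat_lit 0xf31c032) (nat_lit 0x0) (nat_lit 0x11d95acb47980) lm1_176))))))))))))))))))))

noncomputable def lm1_174 : PL :=
  (PL.C (nat_lit 0xe58dfb9) (nat_lit 0x946b528292d400) (nat_lit 0x0)
  (PL.C (nat_lit 0xe5b22fc) (nat_lit 0x0) (nat_lit 0x96b09bf8c3b00)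
  (PL.C (nat_lit 0xe6516a5) (nat_lit 0x1f742eea53000) (nat_lit 0x0)
  (PL.C (nat_lit 0xe696f73) (nat_lit 0x26445997473000) (nat_lit 0x0)
  (PL.C (nat_lit 0xe787dbf) (nat_lit 0x946b528292d400) (nat_lit 0x0)
  (PL.C (nat_lit 0xe7c4d5a) (nat_lit 0x2c918b086800) (nat_lit 0x0)
  (PL.C (nat_lit 0xe7dd87e) (nat_lit 0x3a77f48d0da00) (nat_lit 0x0)
  (PL.C (nat_lit 0xe7e0032) (nat_lit 0x1c43f363bad180) (nat_lit 0x0)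
  (PL.C (nat_lit 0xe80d091) (nat_lit 0xc6bce39d2d00) (nat_lit 0x0)
  (PL.C (nat_lit 0xe8c0abf) (nat_lit 0x6298656a86df380) (nat_lit 0x0)
  (PL.C (nat_lit 0xe8d23fa) (nat_lit 0xc4952ab0e80) (nat_lit 0x0)
  (PL.C (nat_lit 0xe9026e1) (nat_lit 0xbcb9197df200) (nat_lit 0x0)
  (PL.C (nat_lit 0xe9ba4b1) (nat_lit 0x0) (nat_lit 0x100e43b44c5e80)
  (PL.C (nat_lit 0xe9efb57) (nat_lit 0x0) (nat_lit 0x4a16295403a600)
  (PL.C (nat_lit 0xea08a2d) (nat_lit 0x1126648279ca700) (nat_lit 0x0)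
  (PL.C (nat_lit 0xea64ca9) (nat_lit 0x6ddd83874f780) (nat_lit 0x0)
  (PL.C (nat_lit 0xeaea999) (nat_lit 0x0) (nat_lit 0x139188febeb00)
  (PL.C (nat_lit 0xeaffa47) (nat_lit 0x0) (nat_lit 0x220f9c373e80)
  (PL.C (nat_lit 0xeb39575) (nat_lit 0x129a05d77d800) (nat_lit 0x0)
  (PL.C (nat_lit 0xeb5698e) (nat_lit 0x144d2b20213200) (nat_lit 0x0) lm1_175))))))))))))))))))))

noncomputable def lm1_173 : PL :=
  (PL.C (nat_lit 0xdd967b1) (nat_lit 0x36df0d053bf600) (nat_lit 0x0)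
  (PL.C (nat_lit 0xdddbf0d) (nat_lit 0x7dd0bba94c000) (nat_lit 0x0)
  (PL.C (nat_lit 0xde1e154) (nat_lit 0x5e701f57600) (nat_lit 0x0)
  (PL.C (nat_lit 0xdf0f6ee) (nat_lit 0x1aab7938c48200) (nat_lit 0x0)
  (PL.C (nat_lit 0xdf358ea) (nat_lit 0x20c3871d7c00) (nat_lit 0x0)
  (PL.C (nat_lit 0xe031d9e) (nat_lit 0x179c07d5d800) (nat_lit 0x0)
  (PL.C (nat_lit 0xe0cdce6) (nat_lit 0x0) (nat_lit 0x30c36db23700)
  (PL.C (nat_lit 0xe10f486) (nat_lit 0x2828f3741aaf00) (nat_lit 0x0)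
  (PL.C (nat_lit 0xe1a79d5) (nat_lit 0x0) (nat_lit 0x6b1aa3b12fa00)
  (PL.C (nat_lit 0xe1d14e2) (nat_lit 0x0) (nat_lit 0xefece52dcb80)
  (PL.C (nat_lit 0xe22ac41) (nat_lit 0x502d2c4b4200) (nat_lit 0x0)
  (PL.C (nat_lit 0xe25a67b) (nat_lit 0xf71c9dc9468040) (nat_lit 0x0)
  (PL.C (nat_lit 0xe2999fb) (nat_lit 0x0) (nat_lit 0xca7b6f45e600)
  (PL.C (nat_lit 0xe2bd36a) (nat_lit 0x0) (nat_lit 0x1861b6d91b80)
  (PL.C (nat_lit 0xe32a673) (nat_lit 0x1f7fed45c400) (nat_lit 0x0)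
  (PL.C (nat_lit 0xe36d806) (nat_lit 0x0) (nat_lit 0x2c918b086800)
  (PL.C (nat_lit 0xe39c18d) (nat_lit 0x0) (nat_lit 0xb77e54c5a00)
  (PL.C (nat_lit 0xe480b16) (nat_lit 0xefece52dcb80) (nat_lit 0x0)
  (PL.C (nat_lit 0xe4cf5cd) (nat_lit 0x0) (nat_lit 0x4a16295403a600)
  (PL.C (nat_lit 0xe50420a) (nat_lit 0x2e245d693ce880) (nat_lit 0x0) lm1_174))))))))))))))))))))

noncomputable def lm1_172 : PL :=
  (PL.C (nat_lit 0xd75547e) (nat_lit 0x0) (nat_lit 0x3f0d8df63680)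
  (PL.C (nat_lit 0xd7d33db) (nat_lit 0x8640f812a4b880) (nat_lit 0x0)
  (PL.C (nat_lit 0xd7e38a2) (nat_lit 0x6f6cffdde7e00) (nat_lit 0x0)
  (PL.C (nat_lit 0xd83f425) (nat_lit 0x20597252fc171c0) (nat_lit 0x0)
  (PL.C (nat_lit 0xd8bab55) (nat_lit 0x4b10d38821900) (nat_lit 0x0)
  (PL.C (nat_lit 0xd8dcbf6) (nat_lit 0xbed89105a6800) (nat_lit 0x0)
  (PL.C (nat_lit 0xd8ec3d3) (nat_lit 0x0) (nat_lit 0x1f7fed45c400)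
  (PL.C (nat_lit 0xd92fd12) (nat_lit 0x0) (nat_lit 0x7e1b1bec6d00)
  (PL.C (nat_lit 0xd938e17) (nat_lit 0xacb07698889c00) (nat_lit 0x0)
  (PL.C (nat_lit 0xd992424) (nat_lit 0x34d04425c1980) (nat_lit 0x0)
  (PL.C (nat_lit 0xd9bf4ce) (nat_lit 0x1403ca5864c00) (nat_lit 0x0)
  (PL.C (nat_lit 0xda11d89) (nat_lit 0x6ddd83874f780) (nat_lit 0x0)
  (PL.C (nat_lit 0xda1bcf3) (nat_lit 0x3cadf01079ee700) (nat_lit 0x0)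
  (PL.C (nat_lit 0xdabea07) (nat_lit 0x0) (nat_lit 0x706cce3c3a740)
  (PL.C (nat_lit 0xdafbb87) (nat_lit 0xb77e54c5a00) (nat_lit 0x0)
  (PL.C (nat_lit 0xdb88e56) (nat_lit 0x567c5c3f70f80) (nat_lit 0x0)
  (PL.C (nat_lit 0xdc77709) (nat_lit 0x75b996b93c411c0) (nat_lit 0x0)
  (PL.C (nat_lit 0xdd3264e) (nat_lit 0x252a9497479700) (nat_lit 0x0)
  (PL.C (nat_lit 0xdd516f2) (nat_lit 0x41049242f400) (nat_lit 0x0)
  (PL.C (nat_lit 0xdd7c896) (nat_lit 0x1a17a6eb1c200) (nat_lit 0x0) lm1_173))))))))))))))))))))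

noncomputable def lm1_171 : PL :=
  (PL.C (nat_lit 0xd2e335e) (nat_lit 0x0) (nat_lit 0xbd27321735600)
  (PL.C (nat_lit 0xd3695b3) (nat_lit 0x0) (nat_lit 0x3c300ef16d80)
  (PL.C (nat_lit 0xd42b561) (nat_lit 0x92d82fe78fc00) (nat_lit 0x0)
  (PL.C (nat_lit 0xd4b3f32) (nat_lit 0x13c96611ba00) (nat_lit 0x0)
  (PL.C (nat_lit 0xd4dc17d) (nat_lit 0x3effda8b8800) (nat_lit 0x0)
  (PL.C (nat_lit 0xd4f79f7) (nat_lit 0x784ee43790c80) (nat_lit 0x0)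
  (PL.C (nat_lit 0xd50e50d) (nat_lit 0x0) (nat_lit 0x6430d7f1d3f780)
  (PL.C (nat_lit 0xd584519) (nat_lit 0x137ae4652f76a00) (nat_lit 0x0)
  (PL.C (nat_lit 0xd5be4c3) (nat_lit 0x0) (nat_lit 0xeedfce0a9e00)
  (PL.C (nat_lit 0xd5d1cdf) (nat_lit 0x0) (nat_lit 0xf4a87107800)
  (PL.C (nat_lit 0xd5d3532) (nat_lit 0x53fcda0840f00) (nat_lit 0x0)
  (PL.C (nat_lit 0xd5ef2e7) (nat_lit 0x1c3419fb51d000) (nat_lit 0x0)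
  (PL.C (nat_lit 0xd60bd6e) (nat_lit 0x1403ca5864c00) (nat_lit 0x0)
  (PL.C (nat_lit 0xd623b55) (nat_lit 0x3a668f3c87c00) (nat_lit 0x0)
  (PL.C (nat_lit 0xd6694f7) (nat_lit 0x4e4623fafac00) (nat_lit 0x0)
  (PL.C (nat_lit 0xd6b12db) (nat_lit 0x0) (nat_lit 0x90e0311333800)
  (PL.C (nat_lit 0xd6bbaa3) (nat_lit 0x2e27e55f8895d80) (nat_lit 0x0)
  (PL.C (nat_lit 0xd6e9b82) (nat_lit 0xbdc57d47c3300) (nat_lit 0x0)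
  (PL.C (nat_lit 0xd702eba) (nat_lit 0x1802a4ecd84400) (nat_lit 0x0)
  (PL.C (nat_lit 0xd72cab5) (nat_lit 0x6e80130146c00) (nat_lit 0x0) lm1_172))))))))))))))))))))

noncomputable def lm1_170 : PL :=
  (PL.C (nat_lit 0xcd1c1c6) (nat_lit 0x179c07d5d800) (nat_lit 0x0)
  (PL.C (nat_lit 0xcd914ab) (nat_lit 0x96607bd8de080) (nat_lit 0x0)
  (PL.C (nat_lit 0xcdb8ede) (nat_lit 0x8f53ff50d100) (nat_lit 0x0)
  (PL.C (nat_lit 0xcdf547b) (nat_lit 0x5c639be4d3640) (nat_lit 0x0)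
  (PL.C (nat_lit 0xce49e1b) (nat_lit 0x4d44dcb5295800) (nat_lit 0x0)
  (PL.C (nat_lit 0xce5dbdc) (nat_lit 0x3887e2dd57280) (nat_lit 0x0)
  (PL.C (nat_lit 0xce8f06f) (nat_lit 0x0) (nat_lit 0x2dc1178658e1c0)
  (PL.C (nat_lit 0xcef5f59) (nat_lit 0x3c21e1387180) (nat_lit 0x0)
  (PL.C (nat_lit 0xcfd3eb7) (nat_lit 0x1f7fed45c400) (nat_lit 0x0)
  (PL.C (nat_lit 0xcff247a) (nat_lit 0x17a932f2877680) (nat_lit 0x0)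
  (PL.C (nat_lit 0xd0920e7) (nat_lit 0x3887e6c775a300) (nat_lit 0x0)
  (PL.C (nat_lit 0xd0fa719) (nat_lit 0x0) (nat_lit 0x784ee43790c80)
  (PL.C (nat_lit 0xd0fd222) (nat_lit 0x1861b6d91b80) (nat_lit 0x0)
  (PL.C (nat_lit 0xd194207) (nat_lit 0x4b10d38821900) (nat_lit 0x0)
  (PL.C (nat_lit 0xd1a58c4) (nat_lit 0x25ac26fe30ec00) (nat_lit 0x0)
  (PL.C (nat_lit 0xd1b7f25) (nat_lit 0x31ec61d271b400) (nat_lit 0x0)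
  (PL.C (nat_lit 0xd234176) (nat_lit 0x0) (nat_lit 0x9e4b308dd00)
  (PL.C (nat_lit 0xd26490c) (nat_lit 0x34d04425c1980) (nat_lit 0x0)
  (PL.C (nat_lit 0xd288864) (nat_lit 0x13524011fa300) (nat_lit 0x0)
  (PL.C (nat_lit 0xd2a4fdf) (nat_lit 0x4a68175df6000) (nat_lit 0x0) lm1_171))))))))))))))))))))

noncomputable def lm1_169 : PL :=
  (PL.C (nat_lit 0xc77b7c9) (nat_lit 0x4d44dcb5295800) (nat_lit 0x0)
  (PL.C (nat_lit 0xc79d94b) (nat_lit 0x6a99b373410c0) (nat_lit 0x0)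
  (PL.C (nat_lit 0xc7ac2b6) (nat_lit 0x11d95acb47980) (nat_lit 0x0)
  (PL.C (nat_lit 0xc7e29be) (nat_lit 0x0) (nat_lit 0xbed89105a6800)
  (PL.C (nat_lit 0xc85f50a) (nat_lit 0x0) (nat_lit 0xe040bb54f5600)
  (PL.C (nat_lit 0xc885219) (nat_lit 0x0) (nat_lit 0x839b51141480)
  (PL.C (nat_lit 0xc8ffd74) (nat_lit 0x25ac26fe30ec00) (nat_lit 0x0)
  (PL.C (nat_lit 0xc92fd85) (nat_lit 0x0) (nat_lit 0x25e9b41b618800)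
  (PL.C (nat_lit 0xc96431a) (nat_lit 0x23b2b5968f300) (nat_lit 0x0)
  (PL.C (nat_lit 0xc96c993) (nat_lit 0x0) (nat_lit 0xc6d2f8f900a00)
  (PL.C (nat_lit 0xc9b9c11) (nat_lit 0xc89c5d63ffc00) (nat_lit 0x0)
  (PL.C (nat_lit 0xca35c8d) (nat_lit 0x0) (nat_lit 0xb77e54c5a00)
  (PL.C (nat_lit 0xca3f05f) (nat_lit 0xc2e6cd1a5e600) (nat_lit 0x0)
  (PL.C (nat_lit 0xca89dbe) (nat_lit 0x276ded9bdcdfc0) (nat_lit 0x0)
  (PL.C (nat_lit 0xcb359c4) (nat_lit 0x5e701f57600) (nat_lit 0x0)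
  (PL.C (nat_lit 0xcb918ee) (nat_lit 0x2828f3741aaf00) (nat_lit 0x0)
  (PL.C (nat_lit 0xcbf7712) (nat_lit 0x2e3de80dd780) (nat_lit 0x0)
  (PL.C (nat_lit 0xcc194de) (nat_lit 0xfba177529800) (nat_lit 0x0)
  (PL.C (nat_lit 0xcc410da) (nat_lit 0x0) (nat_lit 0x1f86c6fb1b400)
  (PL.C (nat_lit 0xcc6ec0d) (nat_lit 0x7620418445040) (nat_lit 0x0) lm1_170))))))))))))))))))))

noncomputable def lm1_168 : PL :=
  (PL.C (nat_lit 0xc26c9f9) (nat_lit 0x99212c32ed5a80) (nat_lit 0x0)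
  (PL.C (nat_lit 0xc27ad52) (nat_lit 0xbed89105a6800) (nat_lit 0x0)
  (PL.C (nat_lit 0xc2fa2aa) (nat_lit 0x660b9beb19fc0) (nat_lit 0x0)
  (PL.C (nat_lit 0xc34861b) (nat_lit 0x1b7760e1d3de00) (nat_lit 0x0)
  (PL.C (nat_lit 0xc372afb) (nat_lit 0x468da15ce2000) (nat_lit 0x0)
  (PL.C (nat_lit 0xc3aa1e5) (nat_lit 0x17ca2fd63d4b80) (nat_lit 0x0)
  (PL.C (nat_lit 0xc40941f) (nat_lit 0x36df0d053bf600) (nat_lit 0x0)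
  (PL.C (nat_lit 0xc419d15) (nat_lit 0x8da084875f200) (nat_lit 0x0)
  (PL.C (nat_lit 0xc42769e) (nat_lit 0x1802a4ecd84400) (nat_lit 0x0)
  (PL.C (nat_lit 0xc47abfb) (nat_lit 0x12ad04547f5bf80) (nat_lit 0x0)
  (PL.C (nat_lit 0xc489962) (nat_lit 0x0) (nat_lit 0xfc3637d8da00)
  (PL.C (nat_lit 0xc4b2425) (nat_lit 0x52ceb1351d6d40) (nat_lit 0x0)
  (PL.C (nat_lit 0xc4fc8d5) (nat_lit 0x0) (nat_lit 0x3c3fcc11764040)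
  (PL.C (nat_lit 0xc57a8f3) (nat_lit 0x0) (nat_lit 0x1f8b1eb4ebb40)
  (PL.C (nat_lit 0xc58f9a1) (nat_lit 0x1126648279ca700) (nat_lit 0x0)
  (PL.C (nat_lit 0xc5fd05d) (nat_lit 0x7843c270e300) (nat_lit 0x0)
  (PL.C (nat_lit 0xc657ac2) (nat_lit 0x0) (nat_lit 0x1403ca5864c00)
  (PL.C (nat_lit 0xc6a9846) (nat_lit 0x24985afb0f8300) (nat_lit 0x0)
  (PL.C (nat_lit 0xc709007) (nat_lit 0x0) (nat_lit 0x52ceb1351d6d40)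
  (PL.C (nat_lit 0xc75ac27) (nat_lit 0x0) (nat_lit 0x6ddd83874f780) lm1_169))))))))))))))))))))

noncomputable def lm1_167 : PL :=
  (PL.C (nat_lit 0xbb7c91e) (nat_lit 0x0) (nat_lit 0x1861b6d91b80)
  (PL.C (nat_lit 0xbc4c326) (nat_lit 0x146f3dbdb05800) (nat_lit 0x0)
  (PL.C (nat_lit 0xbc6c612) (nat_lit 0xbce03eaec00) (nat_lit 0x0)
  (PL.C (nat_lit 0xbd725bb) (nat_lit 0x0) (nat_lit 0x16b512cf7f00)
  (PL.C (nat_lit 0xbd8373a) (nat_lit 0x2e245d693ce880) (nat_lit 0x0)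
  (PL.C (nat_lit 0xbe7cde9) (nat_lit 0x145801e0d7700) (nat_lit 0x0)
  (PL.C (nat_lit 0xbef0215) (nat_lit 0x12dbf8bdf82380) (nat_lit 0x0)
  (PL.C (nat_lit 0xbfbe38c) (nat_lit 0x3b2beabd41000) (nat_lit 0x0)
  (PL.C (nat_lit 0xbfe8b9d) (nat_lit 0x199a1383505b00) (nat_lit 0x0)
  (PL.C (nat_lit 0xc048c63) (nat_lit 0x1a8f7d12378f00) (nat_lit 0x0)
  (PL.C (nat_lit 0xc06c52b) (nat_lit 0xfa131c5f29a200) (nat_lit 0x0)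
  (PL.C (nat_lit 0xc0b68b3) (nat_lit 0x4a68175df6000) (nat_lit 0x0)
  (PL.C (nat_lit 0xc0d2b22) (nat_lit 0xb3a9a47749b00) (nat_lit 0x0)
  (PL.C (nat_lit 0xc126bc1) (nat_lit 0x0) (nat_lit 0x271972728f000)
  (PL.C (nat_lit 0xc166da3) (nat_lit 0xbf51973401400) (nat_lit 0x0)
  (PL.C (nat_lit 0xc178ed6) (nat_lit 0x345b852147780) (nat_lit 0x0)
  (PL.C (nat_lit 0xc17ee82) (nat_lit 0x81be8d6fd99800) (nat_lit 0x0)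
  (PL.C (nat_lit 0xc1c7a5d) (nat_lit 0x3eff4d9f3eb40) (nat_lit 0x0)
  (PL.C (nat_lit 0xc1f0845) (nat_lit 0x0) (nat_lit 0xb77e54c5a00)
  (PL.C (nat_lit 0xc22733c) (nat_lit 0x96bfb24e3dc00) (nat_lit 0x0) lm1_168))))))))))))))))))))

noncomputable def lm1_166 : PL :=
  (PL.C (nat_lit 0xb664219) (nat_lit 0x0) (nat_lit 0x4fef3168a680)
  (PL.C (nat_lit 0xb68bd79) (nat_lit 0x90abb7efd8d40) (nat_lit 0x0)
  (PL.C (nat_lit 0xb6d9922) (nat_lit 0x1f2d5ad2d1780) (nat_lit 0x0)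
  (PL.C (nat_lit 0xb724ae2) (nat_lit 0x3f0d8df63680) (nat_lit 0x0)
  (PL.C (nat_lit 0xb731605) (nat_lit 0x0) (nat_lit 0x449b1b7628200)
  (PL.C (nat_lit 0xb7d0086) (nat_lit 0x1403ca5864c00) (nat_lit 0x0)
  (PL.C (nat_lit 0xb815b6d) (nat_lit 0x464e57c9186b80) (nat_lit 0x0)
  (PL.C (nat_lit 0xb81e1ff) (nat_lit 0x15c14bcc6d0300) (nat_lit 0x0)
  (PL.C (nat_lit 0xb836c9e) (nat_lit 0x4f2ed1481abc00) (nat_lit 0x0)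
  (PL.C (nat_lit 0xb88f543) (nat_lit 0x4fef3168a680) (nat_lit 0x0)
  (PL.C (nat_lit 0xb895bfe) (nat_lit 0x146f3dbdb05800) (nat_lit 0x0)
  (PL.C (nat_lit 0xb8bfef2) (nat_lit 0x0) (nat_lit 0x1ffb3c05e6800)
  (PL.C (nat_lit 0xb8f97cd) (nat_lit 0x0) (nat_lit 0x1e55ed1d501f80)
  (PL.C (nat_lit 0xb98612e) (nat_lit 0x0) (nat_lit 0x1403ca5864c00)
  (PL.C (nat_lit 0xb996b12) (nat_lit 0x0) (nat_lit 0x6186db646e00)
  (PL.C (nat_lit 0xb9ccbf2) (nat_lit 0x4f2ed1481abc00) (nat_lit 0x0)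
  (PL.C (nat_lit 0xba1baed) (nat_lit 0x17ba2c46641e980) (nat_lit 0x0)
  (PL.C (nat_lit 0xbab9806) (nat_lit 0xfba177529800) (nat_lit 0x0)
  (PL.C (nat_lit 0xbaf816e) (nat_lit 0x256d072bac7780) (nat_lit 0x0)
  (PL.C (nat_lit 0xbb48a01) (nat_lit 0x137ae4652f76a00) (nat_lit 0x0) lm1_167))))))))))))))))))))

noncomputable def lm1_165 : PL :=
  (PL.C (nat_lit 0xb134c84) (nat_lit 0x0) (nat_lit 0x25a41e8fa48400)
  (PL.C (nat_lit 0xb1811ce) (nat_lit 0x2fb6244169a000) (nat_lit 0x0)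
  (PL.C (nat_lit 0xb1e9e51) (nat_lit 0x386833f6a3a000) (nat_lit 0x0)
  (PL.C (nat_lit 0xb276dbf) (nat_lit 0x0) (nat_lit 0xe08f4723e580)
  (PL.C (nat_lit 0xb29d2de) (nat_lit 0xbce03eaec00) (nat_lit 0x0)
  (PL.C (nat_lit 0xb2a8b3f) (nat_lit 0x1b7760e1d3de00) (nat_lit 0x0)
  (PL.C (nat_lit 0xb2c1c61) (nat_lit 0xb77e54c5a00) (nat_lit 0x0)
  (PL.C (nat_lit 0xb30c224) (nat_lit 0x0) (nat_lit 0x5e701f57600)
  (PL.C (nat_lit 0xb42a00f) (nat_lit 0x0) (nat_lit 0xdfeb6ea353100)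
  (PL.C (nat_lit 0xb43dd3d) (nat_lit 0x7dd0bba94c000) (nat_lit 0x0)
  (PL.C (nat_lit 0xb448cbd) (nat_lit 0x0) (nat_lit 0x5ad44b3dfc00)
  (PL.C (nat_lit 0xb4b03a6) (nat_lit 0x1403ca5864c00) (nat_lit 0x0)
  (PL.C (nat_lit 0xb4b3846) (nat_lit 0x0) (nat_lit 0xf73435da7f80)
  (PL.C (nat_lit 0xb514927) (nat_lit 0x0) (nat_lit 0x2ddf95316800)
  (PL.C (nat_lit 0xb544a6f) (nat_lit 0x2e27e55f8895d80) (nat_lit 0x0)
  (PL.C (nat_lit 0xb54a0ee) (nat_lit 0x2fb5537b10000) (nat_lit 0x0)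
  (PL.C (nat_lit 0xb5c76bb) (nat_lit 0x0) (nat_lit 0x88edd51732b00)
  (PL.C (nat_lit 0xb61b53a) (nat_lit 0x1c43f363bad180) (nat_lit 0x0)
  (PL.C (nat_lit 0xb630a87) (nat_lit 0x12dbf8bdf82380) (nat_lit 0x0)
  (PL.C (nat_lit 0xb63e6aa) (nat_lit 0x6f6cffdde7e00) (nat_lit 0x0) lm1_166))))))))))))))))))))

noncomputable def lm1_164 : PL :=
  (PL.C (nat_lit 0xacb4881) (nat_lit 0x0) (nat_lit 0xc6d2f8f900a00)
  (PL.C (nat_lit 0xad0af7f) (nat_lit 0x0) (nat_lit 0x6df32eb10a780)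
  (PL.C (nat_lit 0xad203ca) (nat_lit 0xd227300b5ea80) (nat_lit 0x0)
  (PL.C (nat_lit 0xad6dc0f) (nat_lit 0x0) (nat_lit 0x2dd877c19080)
  (PL.C (nat_lit 0xada9be5) (nat_lit 0x134a0f3032d100) (nat_lit 0x0)
  (PL.C (nat_lit 0xaddc5a7) (nat_lit 0x0) (nat_lit 0x896987ca3f300)
  (PL.C (nat_lit 0xae56764) (nat_lit 0x710fc5baae500) (nat_lit 0x0)
  (PL.C (nat_lit 0xae72357) (nat_lit 0x30118fe9423000) (nat_lit 0x0)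
  (PL.C (nat_lit 0xae9a6fe) (nat_lit 0x0) (nat_lit 0x102af87050480)
  (PL.C (nat_lit 0xaeb507d) (nat_lit 0x0) (nat_lit 0xb5a8967bf800)
  (PL.C (nat_lit 0xaeff5fe) (nat_lit 0x1149f64fc0ff80) (nat_lit 0x0)
  (PL.C (nat_lit 0xaf1fb4c) (nat_lit 0x25aa059199fa00) (nat_lit 0x0)
  (PL.C (nat_lit 0xaf28733) (nat_lit 0x96607bd8de080) (nat_lit 0x0)
  (PL.C (nat_lit 0xafab347) (nat_lit 0x129a05d77d800) (nat_lit 0x0)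
  (PL.C (nat_lit 0xafb199c) (nat_lit 0xbce03eaec00) (nat_lit 0x0)
  (PL.C (nat_lit 0xafbb0e2) (nat_lit 0x91af41d1e8e00) (nat_lit 0x0)
  (PL.C (nat_lit 0xafbd865) (nat_lit 0x0) (nat_lit 0x47b9e1cb33b40)
  (PL.C (nat_lit 0xafd6a7c) (nat_lit 0x3887e2dd57280) (nat_lit 0x0)
  (PL.C (nat_lit 0xb06b56b) (nat_lit 0x0) (nat_lit 0x173f5ce2391d00)
  (PL.C (nat_lit 0xb08538d) (nat_lit 0x0) (nat_lit 0x30118fe9423000) lm1_165))))))))))))))))))))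

noncomputable def lm1_163 : PL :=
  (PL.C (nat_lit 0xa60ad79) (nat_lit 0x1356d791fb37e00) (nat_lit 0x0)
  (PL.C (nat_lit 0xa6498e9) (nat_lit 0x1d7c5b27e7600) (nat_lit 0x0)
  (PL.C (nat_lit 0xa6b84dd) (nat_lit 0x17ca2fd63d4b80) (nat_lit 0x0)
  (PL.C (nat_lit 0xa76e94a) (nat_lit 0x0) (nat_lit 0x1403ca5864c00)
  (PL.C (nat_lit 0xa804463) (nat_lit 0x0) (nat_lit 0x1356d791fb37e00)
  (PL.C (nat_lit 0xa815c4b) (nat_lit 0x0) (nat_lit 0x55cd3667ffd00)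
  (PL.C (nat_lit 0xa864ead) (nat_lit 0x2ff9d735c18280) (nat_lit 0x0)
  (PL.C (nat_lit 0xa885b67) (nat_lit 0x50261c4d13af80) (nat_lit 0x0)
  (PL.C (nat_lit 0xa89fa2e) (nat_lit 0xb1b56a9a7b900) (nat_lit 0x0)
  (PL.C (nat_lit 0xa8f09c3) (nat_lit 0xce44cb40ce80) (nat_lit 0x0)
  (PL.C (nat_lit 0xa91d836) (nat_lit 0x256d072bac7780) (nat_lit 0x0)
  (PL.C (nat_lit 0xa9547b2) (nat_lit 0x97a05fc3b1700) (nat_lit 0x0)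
  (PL.C (nat_lit 0xa9d2e2a) (nat_lit 0x0) (nat_lit 0x11d95acb47980)
  (PL.C (nat_lit 0xa9d5459) (nat_lit 0x0) (nat_lit 0x2576e21306ea280)
  (PL.C (nat_lit 0xab19acd) (nat_lit 0xbf51973401400) (nat_lit 0x0)
  (PL.C (nat_lit 0xaba5f86) (nat_lit 0x0) (nat_lit 0x1861b6d91b80)
  (PL.C (nat_lit 0xabc3d84) (nat_lit 0x96bfb24e3dc00) (nat_lit 0x0)
  (PL.C (nat_lit 0xac0dd4e) (nat_lit 0x2792cc237400) (nat_lit 0x0)
  (PL.C (nat_lit 0xac6c1c2) (nat_lit 0x1892a5561d00) (nat_lit 0x0)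
  (PL.C (nat_lit 0xac92b01) (nat_lit 0x4273ca4f3f8c0) (nat_lit 0x0) lm1_164))))))))))))))))))))

noncomputable def lm1_162 : PL :=
  (PL.C (nat_lit 0xa16c303) (nat_lit 0x0) (nat_lit 0x291eabc902780)
  (PL.C (nat_lit 0xa1721b7) (nat_lit 0x0) (nat_lit 0x96607bd8de080)
  (PL.C (nat_lit 0xa1d6d4d) (nat_lit 0x0) (nat_lit 0x839b51141480)
  (PL.C (nat_lit 0xa1dc6bc) (nat_lit 0x3b2beabd41000) (nat_lit 0x0)
  (PL.C (nat_lit 0xa2004d1) (nat_lit 0x199a1383505b00) (nat_lit 0x0)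
  (PL.C (nat_lit 0xa212acc) (nat_lit 0x0) (nat_lit 0x3887e2dd57280)
  (PL.C (nat_lit 0xa2587ca) (nat_lit 0x500f296193000) (nat_lit 0x0)
  (PL.C (nat_lit 0xa2db923) (nat_lit 0x464e57c9186b80) (nat_lit 0x0)
  (PL.C (nat_lit 0xa36b41c) (nat_lit 0x179c07d5d800) (nat_lit 0x0)
  (PL.C (nat_lit 0xa396bb7) (nat_lit 0x4273ca4f3f8c0) (nat_lit 0x0)
  (PL.C (nat_lit 0xa41fd9d) (nat_lit 0x99212c32ed5a80) (nat_lit 0x0)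
  (PL.C (nat_lit 0xa423c2d) (nat_lit 0x5d24fe1644ae80) (nat_lit 0x0)
  (PL.C (nat_lit 0xa4b79d2) (nat_lit 0x13222ccba39800) (nat_lit 0x0)
  (PL.C (nat_lit 0xa4d95c7) (nat_lit 0x1b7760e1d3de00) (nat_lit 0x0)
  (PL.C (nat_lit 0xa4f9775) (nat_lit 0x0) (nat_lit 0x5bbf2a62d000)
  (PL.C (nat_lit 0xa54c08b) (nat_lit 0x2f945fac7a9700) (nat_lit 0x0)
  (PL.C (nat_lit 0xa56844e) (nat_lit 0x0) (nat_lit 0xbed89105a6800)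
  (PL.C (nat_lit 0xa57c2db) (nat_lit 0x2064e17d336380) (nat_lit 0x0)
  (PL.C (nat_lit 0xa5aa65b) (nat_lit 0x0) (nat_lit 0x2ddf95316800)
  (PL.C (nat_lit 0xa5c2992) (nat_lit 0x0) (nat_lit 0x127915f849400) lm1_163))))))))))))))))))))

noncomputable def lm1_161 : PL :=
  (PL.C (nat_lit 0x9c48f69) (nat_lit 0x1d7c5b27e7600) (nat_lit 0x0)
  (PL.C (nat_lit 0x9c9c666) (nat_lit 0x0) (nat_lit 0x1403ca5864c00)
  (PL.C (nat_lit 0x9caa6da) (nat_lit 0x0) (nat_lit 0x5e9454f151c0)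
  (PL.C (nat_lit 0x9cd0e4e) (nat_lit 0x11d95acb47980) (nat_lit 0x0)
  (PL.C (nat_lit 0x9d14711) (nat_lit 0x4e4623fafac00) (nat_lit 0x0)
  (PL.C (nat_lit 0x9d7b49d) (nat_lit 0x0) (nat_lit 0xabc2ebf608d80)
  (PL.C (nat_lit 0x9dc9c3b) (nat_lit 0xa93154933e2c00) (nat_lit 0x0)
  (PL.C (nat_lit 0x9e06349) (nat_lit 0x0) (nat_lit 0x3cc35aa1c340)
  (PL.C (nat_lit 0x9e170b3) (nat_lit 0x0) (nat_lit 0x8a97f44f56980)
  (PL.C (nat_lit 0x9e18bc5) (nat_lit 0x1636ad534f7200) (nat_lit 0x0)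
  (PL.C (nat_lit 0x9e5c02e) (nat_lit 0x0) (nat_lit 0xb3c89f7155e00)
  (PL.C (nat_lit 0x9e66b1c) (nat_lit 0x5e2c4fb75d4800) (nat_lit 0x0)
  (PL.C (nat_lit 0x9e6e9a7) (nat_lit 0x9c3088cb92b00) (nat_lit 0x0)
  (PL.C (nat_lit 0x9ebde59) (nat_lit 0x0) (nat_lit 0x220f9c373e80)
  (PL.C (nat_lit 0x9f12cfa) (nat_lit 0x0) (nat_lit 0x146c050231bf00)
  (PL.C (nat_lit 0x9fb8fe2) (nat_lit 0x0) (nat_lit 0x98578548b9740)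
  (PL.C (nat_lit 0x9ffa9a2) (nat_lit 0x0) (nat_lit 0x25394c39e4500)
  (PL.C (nat_lit 0xa03039a) (nat_lit 0x24230d2112e100) (nat_lit 0x0)
  (PL.C (nat_lit 0xa07539b) (nat_lit 0xc2e6cd1a5e600) (nat_lit 0x0)
  (PL.C (nat_lit 0xa12e729) (nat_lit 0x8640f812a4b880) (nat_lit 0x0) lm1_162))))))))))))))))))))

noncomputable def lm1_160 : PL :=
  (PL.C (nat_lit 0x9711152) (nat_lit 0x0) (nat_lit 0x1ac8257c27b80)
  (PL.C (nat_lit 0x9744367) (nat_lit 0x0) (nat_lit 0x14c450a6e3600)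
  (PL.C (nat_lit 0x97719a2) (nat_lit 0x179c07d5d800) (nat_lit 0x0)
  (PL.C (nat_lit 0x97bd65e) (nat_lit 0x0) (nat_lit 0x1861b6d91b80)
  (PL.C (nat_lit 0x981628b) (nat_lit 0x44ee333b04780) (nat_lit 0x0)
  (PL.C (nat_lit 0x9830271) (nat_lit 0x1e10f09c38c0) (nat_lit 0x0)
  (PL.C (nat_lit 0x988a3de) (nat_lit 0x0) (nat_lit 0x251adc74e1ab00)
  (PL.C (nat_lit 0x98e6da5) (nat_lit 0x0) (nat_lit 0x22c7b7f332880)
  (PL.C (nat_lit 0x9909526) (nat_lit 0x4a45710c294200) (nat_lit 0x0)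
  (PL.C (nat_lit 0x99ab119) (nat_lit 0x0) (nat_lit 0x17ca2fd63d4b80)
  (PL.C (nat_lit 0x99b9fa2) (nat_lit 0x13222ccba39800) (nat_lit 0x0)
  (PL.C (nat_lit 0x9a3196d) (nat_lit 0x0) (nat_lit 0xb761df064200)
  (PL.C (nat_lit 0x9a5a92a) (nat_lit 0x4a45710c294200) (nat_lit 0x0)
  (PL.C (nat_lit 0x9ab35b6) (nat_lit 0x0) (nat_lit 0x10a1961399b00)
  (PL.C (nat_lit 0x9ac3059) (nat_lit 0x0) (nat_lit 0xf4a87107800)
  (PL.C (nat_lit 0x9b107a7) (nat_lit 0x3cc35aa1c340) (nat_lit 0x0)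
  (PL.C (nat_lit 0x9bd1876) (nat_lit 0x1aab7938c48200) (nat_lit 0x0)
  (PL.C (nat_lit 0x9bf523a) (nat_lit 0x0) (nat_lit 0x251adc74e1ab00)
  (PL.C (nat_lit 0x9c05c1e) (nat_lit 0x384793b27c7c00) (nat_lit 0x0)
  (PL.C (nat_lit 0x9c44223) (nat_lit 0x23382bdbc9880) (nat_lit 0x0) lm1_161))))))))))))))))))))

noncomputable def lm1_159 : PL :=
  (PL.C (nat_lit 0x93b9a76) (nat_lit 0x0) (nat_lit 0x118184d93a8b80)
  (PL.C (nat_lit 0x93dc53f) (nat_lit 0x4e4623fafac00) (nat_lit 0x0)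
  (PL.C (nat_lit 0x93e7f5e) (nat_lit 0x3ee85dd4a6000) (nat_lit 0x0)
  (PL.C (nat_lit 0x9414f75) (nat_lit 0x0) (nat_lit 0x16efca98b400)
  (PL.C (nat_lit 0x945a2b9) (nat_lit 0x0) (nat_lit 0x18d85b38832c80)
  (PL.C (nat_lit 0x9476cbb) (nat_lit 0x8da084875f200) (nat_lit 0x0)
  (PL.C (nat_lit 0x9477439) (nat_lit 0x1c62d19d117400) (nat_lit 0x0)
  (PL.C (nat_lit 0x94c9ca7) (nat_lit 0x3c2f53a4442600) (nat_lit 0x0)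
  (PL.C (nat_lit 0x94ece57) (nat_lit 0x0) (nat_lit 0x46b7b8a6532c0)
  (PL.C (nat_lit 0x95167d7) (nat_lit 0x0) (nat_lit 0x591682a8d80)
  (PL.C (nat_lit 0x95758ad) (nat_lit 0xcca26c641fff00) (nat_lit 0x0)
  (PL.C (nat_lit 0x9576914) (nat_lit 0x3ee08997b00) (nat_lit 0x0)
  (PL.C (nat_lit 0x95aecaf) (nat_lit 0x5c30a5516300) (nat_lit 0x0)
  (PL.C (nat_lit 0x95f9b51) (nat_lit 0x0) (nat_lit 0x10c6b7fcebd80)
  (PL.C (nat_lit 0x960a304) (nat_lit 0x2d09aef2700a80) (nat_lit 0x0)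
  (PL.C (nat_lit 0x9611ae1) (nat_lit 0x22377967971780) (nat_lit 0x0)
  (PL.C (nat_lit 0x962fd55) (nat_lit 0x2a1215eef567a80) (nat_lit 0x0)
  (PL.C (nat_lit 0x96c72d6) (nat_lit 0x20c3871d7c00) (nat_lit 0x0)
  (PL.C (nat_lit 0x96d0e7b) (nat_lit 0x1b7760e1d3de00) (nat_lit 0x0)
  (PL.C (nat_lit 0x970374f) (nat_lit 0x1a9af4f783e900) (nat_lit 0x0) lm1_160))))))))))))))))))))

noncomputable def lm1_158 : PL :=
  (PL.C (nat_lit 0x8f5e6ff) (nat_lit 0x25981ef6378200) (nat_lit 0x0)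
  (PL.C (nat_lit 0x8f731ce) (nat_lit 0x91af41d1e8e00) (nat_lit 0x0)
  (PL.C (nat_lit 0x8fc9763) (nat_lit 0x0) (nat_lit 0x90e0311333800)
  (PL.C (nat_lit 0x8fe2292) (nat_lit 0xb154407b94900) (nat_lit 0x0)
  (PL.C (nat_lit 0x8fed06c) (nat_lit 0x1587760efdea00) (nat_lit 0x0)
  (PL.C (nat_lit 0x907c78e) (nat_lit 0x2864e16eb2e80) (nat_lit 0x0)
  (PL.C (nat_lit 0x90932a4) (nat_lit 0x25ac26fe30ec00) (nat_lit 0x0)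
  (PL.C (nat_lit 0x909d7e2) (nat_lit 0x0) (nat_lit 0x179c07d5d800)
  (PL.C (nat_lit 0x9106545) (nat_lit 0x3effda8b8800) (nat_lit 0x0)
  (PL.C (nat_lit 0x912a334) (nat_lit 0x3b2beabd41000) (nat_lit 0x0)
  (PL.C (nat_lit 0x91ca445) (nat_lit 0x0) (nat_lit 0x40a2d28bd8e00)
  (PL.C (nat_lit 0x91f0ccb) (nat_lit 0x8da084875f200) (nat_lit 0x0)
  (PL.C (nat_lit 0x91fd25a) (nat_lit 0x1861b6d91b80) (nat_lit 0x0)
  (PL.C (nat_lit 0x92133bb) (nat_lit 0xedfd866e3bc0) (nat_lit 0x0)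
  (PL.C (nat_lit 0x928814d) (nat_lit 0x92d82fe78fc00) (nat_lit 0x0)
  (PL.C (nat_lit 0x9297b1f) (nat_lit 0x0) (nat_lit 0x449b1b7628200)
  (PL.C (nat_lit 0x9299439) (nat_lit 0x9c3088cb92b00) (nat_lit 0x0)
  (PL.C (nat_lit 0x92d16b3) (nat_lit 0x0) (nat_lit 0xb77e54c5a00)
  (PL.C (nat_lit 0x9316125) (nat_lit 0x1636ad534f7200) (nat_lit 0x0)
  (PL.C (nat_lit 0x933269d) (nat_lit 0x1372811d1fa800) (nat_lit 0x0) lm1_159))))))))))))))))))))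

noncomputable def lm1_157 : PL :=
  (PL.C (nat_lit 0x8c6dfea) (nat_lit 0x6c9976dc19600) (nat_lit 0x0)
  (PL.C (nat_lit 0x8c97794) (nat_lit 0x0) (nat_lit 0x25a41e8fa48400)
  (PL.C (nat_lit 0x8ca103f) (nat_lit 0x5181065e1bd3c0) (nat_lit 0x0)
  (PL.C (nat_lit 0x8d06957) (nat_lit 0x16bfc44efaf80) (nat_lit 0x0)
  (PL.C (nat_lit 0x8d72396) (nat_lit 0x8d5115dcdf400) (nat_lit 0x0)
  (PL.C (nat_lit 0x8dc8199) (nat_lit 0x0) (nat_lit 0xfd3bbe2566e00)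
  (PL.C (nat_lit 0x8dcd4cc) (nat_lit 0xbce03eaec00) (nat_lit 0x0)
  (PL.C (nat_lit 0x8de80fe) (nat_lit 0x2f380fabb000) (nat_lit 0x0)
  (PL.C (nat_lit 0x8e42543) (nat_lit 0x1365b24594d3e00) (nat_lit 0x0)
  (PL.C (nat_lit 0x8e58366) (nat_lit 0x9bd723297bb500) (nat_lit 0x0)
  (PL.C (nat_lit 0x8e8bdea) (nat_lit 0x2792cc237400) (nat_lit 0x0)
  (PL.C (nat_lit 0x8eb28f4) (nat_lit 0x3b2beabd41000) (nat_lit 0x0)
  (PL.C (nat_lit 0x8eb888f) (nat_lit 0x30118fe9423000) (nat_lit 0x0)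
  (PL.C (nat_lit 0x8ec278e) (nat_lit 0x1a17a6eb1c200) (nat_lit 0x0)
  (PL.C (nat_lit 0x8ef0dfa) (nat_lit 0x500f296193000) (nat_lit 0x0)
  (PL.C (nat_lit 0x8f20c92) (nat_lit 0x0) (nat_lit 0x8bd7555f81c00)
  (PL.C (nat_lit 0x8f467ac) (nat_lit 0x25aa059199fa00) (nat_lit 0x0)
  (PL.C (nat_lit 0x8f520ff) (nat_lit 0x0) (nat_lit 0x1f7fed45c400)
  (PL.C (nat_lit 0x8f5747c) (nat_lit 0x4b6fea0437b000) (nat_lit 0x0)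
  (PL.C (nat_lit 0x8f5d97d) (nat_lit 0x0) (nat_lit 0x3a6ac498dec2c0) lm1_158))))))))))))))))))))

noncomputable def lm1_156 : PL :=
  (PL.C (nat_lit 0x889e141) (nat_lit 0x18b5bdb8c4b00) (nat_lit 0x0)
  (PL.C (nat_lit 0x88bd684) (nat_lit 0x3ee08997b00) (nat_lit 0x0)
  (PL.C (nat_lit 0x88c43c1) (nat_lit 0x1d5a4d7e1e080) (nat_lit 0x0)
  (PL.C (nat_lit 0x890b872) (nat_lit 0x97a05fc3b1700) (nat_lit 0x0)
  (PL.C (nat_lit 0x897a2ef) (nat_lit 0x6ddd83874f780) (nat_lit 0x0)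
  (PL.C (nat_lit 0x89f0003) (nat_lit 0x1307a2e3a87b540) (nat_lit 0x0)
  (PL.C (nat_lit 0x89f94e6) (nat_lit 0x1892a5561d00) (nat_lit 0x0)
  (PL.C (nat_lit 0x8a182d3) (nat_lit 0x7620418445040) (nat_lit 0x0)
  (PL.C (nat_lit 0x8a8bed1) (nat_lit 0x1f742eea53000) (nat_lit 0x0)
  (PL.C (nat_lit 0x8a8d47a) (nat_lit 0x179c07d5d800) (nat_lit 0x0)
  (PL.C (nat_lit 0x8a8f3a1) (nat_lit 0x867005dd341fa00) (nat_lit 0x0)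
  (PL.C (nat_lit 0x8acbf8b) (nat_lit 0x0) (nat_lit 0x88edd51732b00)
  (PL.C (nat_lit 0x8b0c09a) (nat_lit 0x1c43f363bad180) (nat_lit 0x0)
  (PL.C (nat_lit 0x8b1ffa5) (nat_lit 0x80e0f03389d5c0) (nat_lit 0x0)
  (PL.C (nat_lit 0x8b43a09) (nat_lit 0x0) (nat_lit 0x441f386e7d00)
  (PL.C (nat_lit 0x8b59205) (nat_lit 0x0) (nat_lit 0x1a8bd7a81c180)
  (PL.C (nat_lit 0x8bb815a) (nat_lit 0x2864e16eb2e80) (nat_lit 0x0)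
  (PL.C (nat_lit 0x8bcff6e) (nat_lit 0x316befca4dc400) (nat_lit 0x0)
  (PL.C (nat_lit 0x8c0c301) (nat_lit 0x0) (nat_lit 0x30118fe9423000)
  (PL.C (nat_lit 0x8c22ba4) (nat_lit 0x0) (nat_lit 0x5e701f57600) lm1_157))))))))))))))))))))

noncomputable def lm1_155 : PL :=
  (PL.C (nat_lit 0x85bdc83) (nat_lit 0x134a0f3032d100) (nat_lit 0x0)
  (PL.C (nat_lit 0x8600b7d) (nat_lit 0x0) (nat_lit 0x2ddf95316800)
  (PL.C (nat_lit 0x8642cbc) (nat_lit 0x710fc5baae500) (nat_lit 0x0)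
  (PL.C (nat_lit 0x8648662) (nat_lit 0x0) (nat_lit 0x722e911693b00)
  (PL.C (nat_lit 0x865584b) (nat_lit 0x0) (nat_lit 0x1f2678fa55100)
  (PL.C (nat_lit 0x867a3b9) (nat_lit 0x94d02ebbec000) (nat_lit 0x0)
  (PL.C (nat_lit 0x8680cd1) (nat_lit 0x0) (nat_lit 0x55cd3667ffd00)
  (PL.C (nat_lit 0x86ce85e) (nat_lit 0x0) (nat_lit 0x1861b6d91b80)
  (PL.C (nat_lit 0x86d4aea) (nat_lit 0xbdad1a5dd5a740) (nat_lit 0x0)
  (PL.C (nat_lit 0x872feb9) (nat_lit 0xcca26c641fff00) (nat_lit 0x0)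
  (PL.C (nat_lit 0x873bc6d) (nat_lit 0x0) (nat_lit 0x8da084875f200)
  (PL.C (nat_lit 0x8773947) (nat_lit 0x0) (nat_lit 0x2ae593cab953c0)
  (PL.C (nat_lit 0x87b65f4) (nat_lit 0x2d09aef2700a80) (nat_lit 0x0)
  (PL.C (nat_lit 0x87d86c1) (nat_lit 0x1356d791fb37e00) (nat_lit 0x0)
  (PL.C (nat_lit 0x87dfee1) (nat_lit 0x0) (nat_lit 0x4a68175df6000)
  (PL.C (nat_lit 0x87e6e5b) (nat_lit 0x0) (nat_lit 0x3a6ac498dec2c0)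
  (PL.C (nat_lit 0x88322af) (nat_lit 0x2f2e465f7c800) (nat_lit 0x0)
  (PL.C (nat_lit 0x88490d3) (nat_lit 0x0) (nat_lit 0x4e4623fafac00)
  (PL.C (nat_lit 0x8849d5e) (nat_lit 0xb0e0d07bcb0ec0) (nat_lit 0x0)
  (PL.C (nat_lit 0x8876551) (nat_lit 0x697583ada4a140) (nat_lit 0x0) lm1_156))))))))))))))))))))

noncomputable def lm1_154 : PL :=
  (PL.C (nat_lit 0x8230412) (nat_lit 0xdbbb070e9ef00) (nat_lit 0x0)
  (PL.C (nat_lit 0x824c752) (nat_lit 0x2fb5537b10000) (nat_lit 0x0)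
  (PL.C (nat_lit 0x82b0d6a) (nat_lit 0x0) (nat_lit 0x118184d93a8b80)
  (PL.C (nat_lit 0x82bbe0e) (nat_lit 0x8b63727928700) (nat_lit 0x0)
  (PL.C (nat_lit 0x82c4f14) (nat_lit 0x4b6fea0437b000) (nat_lit 0x0)
  (PL.C (nat_lit 0x835308e) (nat_lit 0x9b5559ed03a100) (nat_lit 0x0)
  (PL.C (nat_lit 0x83a70a2) (nat_lit 0x0) (nat_lit 0xf73435da7f80)
  (PL.C (nat_lit 0x83b5116) (nat_lit 0x384793b27c7c00) (nat_lit 0x0)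
  (PL.C (nat_lit 0x83edccd) (nat_lit 0x0) (nat_lit 0x3c3fcc11764040)
  (PL.C (nat_lit 0x83fe03e) (nat_lit 0x6d472be4ab80) (nat_lit 0x0)
  (PL.C (nat_lit 0x843a72c) (nat_lit 0x0) (nat_lit 0x3b2beabd41000)
  (PL.C (nat_lit 0x8499915) (nat_lit 0x96607bd8de080) (nat_lit 0x0)
  (PL.C (nat_lit 0x84e5b1b) (nat_lit 0x0) (nat_lit 0x4a68175df6000)
  (PL.C (nat_lit 0x850a751) (nat_lit 0x7dd0bba94c000) (nat_lit 0x0)
  (PL.C (nat_lit 0x851d724) (nat_lit 0x3887e2dd57280) (nat_lit 0x0)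
  (PL.C (nat_lit 0x8541bd4) (nat_lit 0x0) (nat_lit 0x25ac26fe30ec00)
  (PL.C (nat_lit 0x854d0af) (nat_lit 0x0) (nat_lit 0x1356d791fb37e00)
  (PL.C (nat_lit 0x855468f) (nat_lit 0x94d02ebbec000) (nat_lit 0x0)
  (PL.C (nat_lit 0x859923f) (nat_lit 0x0) (nat_lit 0x4e4623fafac00)
  (PL.C (nat_lit 0x85ae166) (nat_lit 0x0) (nat_lit 0x58a3879716ec0) lm1_155))))))))))))))))))))

noncomputable def lm1_153 : PL :=
  (PL.C (nat_lit 0x7ec7f69) (nat_lit 0x386833f6a3a000) (nat_lit 0x0)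
  (PL.C (nat_lit 0x7f4ac0e) (nat_lit 0x0) (nat_lit 0x8c0eb712a4380)
  (PL.C (nat_lit 0x7f4c68d) (nat_lit 0x2f945fac7a9700) (nat_lit 0x0)
  (PL.C (nat_lit 0x7fe7daf) (nat_lit 0x0) (nat_lit 0x373224eeeb100)
  (PL.C (nat_lit 0x7ff07be) (nat_lit 0x1940e212cfc800) (nat_lit 0x0)
  (PL.C (nat_lit 0x800d1bf) (nat_lit 0x731c43d62a89c0) (nat_lit 0x0)
  (PL.C (nat_lit 0x8030842) (nat_lit 0xd227300b5ea80) (nat_lit 0x0)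
  (PL.C (nat_lit 0x8048372) (nat_lit 0x0) (nat_lit 0x7bdadab0d5c500)
  (PL.C (nat_lit 0x80627f7) (nat_lit 0x0) (nat_lit 0x591682a8d80)
  (PL.C (nat_lit 0x8079b22) (nat_lit 0x6c9976dc19600) (nat_lit 0x0)
  (PL.C (nat_lit 0x807b805) (nat_lit 0x0) (nat_lit 0x43c6f233ed780)
  (PL.C (nat_lit 0x808c76c) (nat_lit 0xb4079b1abec00) (nat_lit 0x0)
  (PL.C (nat_lit 0x80acb77) (nat_lit 0x1365b24594d3e00) (nat_lit 0x0)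
  (PL.C (nat_lit 0x80c47d6) (nat_lit 0x0) (nat_lit 0x1ffb3c05e6800)
  (PL.C (nat_lit 0x80ef3c2) (nat_lit 0xc151bdc7ddc00) (nat_lit 0x0)
  (PL.C (nat_lit 0x8101b99) (nat_lit 0x0) (nat_lit 0x90ecd912288c0)
  (PL.C (nat_lit 0x812fc3e) (nat_lit 0x1f2d5ad2d1780) (nat_lit 0x0)
  (PL.C (nat_lit 0x8136b79) (nat_lit 0x0) (nat_lit 0x1e55ed1d501f80)
  (PL.C (nat_lit 0x814b02e) (nat_lit 0x0) (nat_lit 0x1861b6d91b80)
  (PL.C (nat_lit 0x81a738c) (nat_lit 0x25ac26fe30ec00) (nat_lit 0x0) lm1_154))))))))))))))))))))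

noncomputable def lm1_152 : PL :=
  (PL.C (nat_lit 0x7b50fde) (nat_lit 0x0) (nat_lit 0x155d76c083f00)
  (PL.C (nat_lit 0x7b631d7) (nat_lit 0x79817d6f0d6000) (nat_lit 0x0)
  (PL.C (nat_lit 0x7b9b38b) (nat_lit 0x374a80ee0a8c00) (nat_lit 0x0)
  (PL.C (nat_lit 0x7baeb74) (nat_lit 0x0) (nat_lit 0x3b2beabd41000)
  (PL.C (nat_lit 0x7bddd4c) (nat_lit 0x6f157ce9916a00) (nat_lit 0x0)
  (PL.C (nat_lit 0x7c03c2f) (nat_lit 0x129a05d77d8000) (nat_lit 0x0)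
  (PL.C (nat_lit 0x7c29e79) (nat_lit 0x137ae4652f76a00) (nat_lit 0x0)
  (PL.C (nat_lit 0x7cab9dd) (nat_lit 0x36e2f1caad9280) (nat_lit 0x0)
  (PL.C (nat_lit 0x7cdb156) (nat_lit 0x9bd723297bb500) (nat_lit 0x0)
  (PL.C (nat_lit 0x7cded3d) (nat_lit 0xb77e54c5a00) (nat_lit 0x0)
  (PL.C (nat_lit 0x7d540dd) (nat_lit 0x6877c174f14e680) (nat_lit 0x0)
  (PL.C (nat_lit 0x7d99b83) (nat_lit 0x22377967971780) (nat_lit 0x0)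
  (PL.C (nat_lit 0x7dda773) (nat_lit 0x44ee333b04780) (nat_lit 0x0)
  (PL.C (nat_lit 0x7df73a5) (nat_lit 0x0) (nat_lit 0x1bd3200c36ae00)
  (PL.C (nat_lit 0x7e04a67) (nat_lit 0x53d2e29dcbf600) (nat_lit 0x0)
  (PL.C (nat_lit 0x7e3645b) (nat_lit 0x17ca2fd63d4b80) (nat_lit 0x0)
  (PL.C (nat_lit 0x7e4c3d2) (nat_lit 0x0) (nat_lit 0x3f0d8df63680)
  (PL.C (nat_lit 0x7e7e52b) (nat_lit 0x0) (nat_lit 0x8da084875f200)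
  (PL.C (nat_lit 0x7e89a75) (nat_lit 0x0) (nat_lit 0x1133d7f28700)
  (PL.C (nat_lit 0x7eae825) (nat_lit 0x3c2f53a4442600) (nat_lit 0x0) lm1_153))))))))))))))))))))

noncomputable def lm1_151 : PL :=
  (PL.C (nat_lit 0x7751073) (nat_lit 0xd4c486302e9500) (nat_lit 0x0)
  (PL.C (nat_lit 0x7799397) (nat_lit 0xce44cb40ce80) (nat_lit 0x0)
  (PL.C (nat_lit 0x781c00a) (nat_lit 0x582c8e97c3a00) (nat_lit 0x0)
  (PL.C (nat_lit 0x782937e) (nat_lit 0x3ee85dd4a6000) (nat_lit 0x0)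
  (PL.C (nat_lit 0x783087e) (nat_lit 0x0) (nat_lit 0xfc3637d8da00)
  (PL.C (nat_lit 0x78757c4) (nat_lit 0x3b2beabd41000) (nat_lit 0x0)
  (PL.C (nat_lit 0x78b861a) (nat_lit 0x0) (nat_lit 0x7876a5fd2200)
  (PL.C (nat_lit 0x790693b) (nat_lit 0x25981ef6378200) (nat_lit 0x0)
  (PL.C (nat_lit 0x792f9d2) (nat_lit 0x0) (nat_lit 0x5219824d25900)
  (PL.C (nat_lit 0x7975c5a) (nat_lit 0x0) (nat_lit 0x8c0eb712a4380)
  (PL.C (nat_lit 0x797ef1c) (nat_lit 0x1587760efdea00) (nat_lit 0x0)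
  (PL.C (nat_lit 0x7998166) (nat_lit 0x0) (nat_lit 0xc01b3055bfc0)
  (PL.C (nat_lit 0x79c8423) (nat_lit 0x1e10f09c38c0) (nat_lit 0x0)
  (PL.C (nat_lit 0x79e1e91) (nat_lit 0x178ee0811599800) (nat_lit 0x0)
  (PL.C (nat_lit 0x7a20eae) (nat_lit 0x0) (nat_lit 0x29b2dc0ec9100)
  (PL.C (nat_lit 0x7a55861) (nat_lit 0x79817d6f0d6000) (nat_lit 0x0)
  (PL.C (nat_lit 0x7a8ab04) (nat_lit 0x3b2beabd41000) (nat_lit 0x0)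
  (PL.C (nat_lit 0x7acf314) (nat_lit 0x6f157ce9916a00) (nat_lit 0x0)
  (PL.C (nat_lit 0x7b0a382) (nat_lit 0xc01b3055bfc0) (nat_lit 0x0)
  (PL.C (nat_lit 0x7b34947) (nat_lit 0x0) (nat_lit 0x1b6b90e8d9b480) lm1_152))))))))))))))))))))

noncomputable def lm1_150 : PL :=
  (PL.C (nat_lit 0x7436ab1) (nat_lit 0x674610989a7d00) (nat_lit 0x0)
  (PL.C (nat_lit 0x744c23a) (nat_lit 0x2fb6244169a000) (nat_lit 0x0)
  (PL.C (nat_lit 0x7466f54) (nat_lit 0x0) (nat_lit 0xc1720a9400)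
  (PL.C (nat_lit 0x7470d4f) (nat_lit 0x44ac9b226149100) (nat_lit 0x0)
  (PL.C (nat_lit 0x7478afe) (nat_lit 0x0) (nat_lit 0x1f86c6fb1b400)
  (PL.C (nat_lit 0x74b34df) (nat_lit 0x222554657b1500) (nat_lit 0x0)
  (PL.C (nat_lit 0x74c5a22) (nat_lit 0x97a05fc3b1700) (nat_lit 0x0)
  (PL.C (nat_lit 0x74cdf99) (nat_lit 0x2ddf95316800) (nat_lit 0x0)
  (PL.C (nat_lit 0x74f73e5) (nat_lit 0x6877c174f14e680) (nat_lit 0x0)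
  (PL.C (nat_lit 0x751ccda) (nat_lit 0x11d95acb47980) (nat_lit 0x0)
  (PL.C (nat_lit 0x75275ec) (nat_lit 0x176e4227785700) (nat_lit 0x0)
  (PL.C (nat_lit 0x754f3fb) (nat_lit 0x7843c270e300) (nat_lit 0x0)
  (PL.C (nat_lit 0x75716f9) (nat_lit 0x44ac9b226149100) (nat_lit 0x0)
  (PL.C (nat_lit 0x75a1ad9) (nat_lit 0x18096115a2200) (nat_lit 0x0)
  (PL.C (nat_lit 0x75ae25e) (nat_lit 0x0) (nat_lit 0x2fb6244169a000)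
  (PL.C (nat_lit 0x75c91b5) (nat_lit 0x0) (nat_lit 0x2dc1178658e1c0)
  (PL.C (nat_lit 0x7656134) (nat_lit 0x96b09bf8c3b000) (nat_lit 0x0)
  (PL.C (nat_lit 0x76b677b) (nat_lit 0x8616ebd16a34c00) (nat_lit 0x0)
  (PL.C (nat_lit 0x771b22a) (nat_lit 0xdbbb070e9ef00) (nat_lit 0x0)
  (PL.C (nat_lit 0x772bd96) (nat_lit 0x1861b6d91b80) (nat_lit 0x0) lm1_151))))))))))))))))))))

noncomputable def lm1_149 : PL :=
  (PL.C (nat_lit 0x70e2fcc) (nat_lit 0x1ceb894ea29880) (nat_lit 0x0)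
  (PL.C (nat_lit 0x70ece4f) (nat_lit 0x13ba797d851000) (nat_lit 0x0)
  (PL.C (nat_lit 0x713741c) (nat_lit 0x0) (nat_lit 0x3887e2dd57280)
  (PL.C (nat_lit 0x72111de) (nat_lit 0xc151bdc7ddc00) (nat_lit 0x0)
  (PL.C (nat_lit 0x723eb83) (nat_lit 0x1ec5021652c00) (nat_lit 0x0)
  (PL.C (nat_lit 0x729de57) (nat_lit 0x0) (nat_lit 0x5bbf2a62d000)
  (PL.C (nat_lit 0x72acb85) (nat_lit 0x52ceb1351d6d40) (nat_lit 0x0)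
  (PL.C (nat_lit 0x72b3e34) (nat_lit 0x179c07d5d800) (nat_lit 0x0)
  (PL.C (nat_lit 0x72b8f07) (nat_lit 0x0) (nat_lit 0x2576e21306ea280)
  (PL.C (nat_lit 0x72f87ab) (nat_lit 0xdd5d414d263d00) (nat_lit 0x0)
  (PL.C (nat_lit 0x730c756) (nat_lit 0xe3fc8539a9d40) (nat_lit 0x0)
  (PL.C (nat_lit 0x732233d) (nat_lit 0x7843c270e300) (nat_lit 0x0)
  (PL.C (nat_lit 0x7323056) (nat_lit 0x0) (nat_lit 0x722e911693b00)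
  (PL.C (nat_lit 0x7332055) (nat_lit 0x697583ada4a140) (nat_lit 0x0)
  (PL.C (nat_lit 0x734e4df) (nat_lit 0x1a9af4f783e900) (nat_lit 0x0)
  (PL.C (nat_lit 0x7373c85) (nat_lit 0x253dc5f9b9a880) (nat_lit 0x0)
  (PL.C (nat_lit 0x739a7b1) (nat_lit 0x0) (nat_lit 0x21a2fb6969400)
  (PL.C (nat_lit 0x739e80a) (nat_lit 0x0) (nat_lit 0x102af87050480)
  (PL.C (nat_lit 0x73a0209) (nat_lit 0x2da6d895c8e5dc0) (nat_lit 0x0)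
  (PL.C (nat_lit 0x73c67ee) (nat_lit 0x13527c17cd8e00) (nat_lit 0x0) lm1_150))))))))))))))))))))

noncomputable def lm1_148 : PL :=
  (PL.C (nat_lit 0x6cc7287) (nat_lit 0x129a05d77d8000) (nat_lit 0x0)
  (PL.C (nat_lit 0x6ce6dbd) (nat_lit 0x0) (nat_lit 0x7aa4c9ac29f280)
  (PL.C (nat_lit 0x6d0f27a) (nat_lit 0xe3fc8539a9d40) (nat_lit 0x0)
  (PL.C (nat_lit 0x6de63da) (nat_lit 0xdbbb070e9ef00) (nat_lit 0x0)
  (PL.C (nat_lit 0x6dfba4e) (nat_lit 0x0) (nat_lit 0xc30db6c8dc00)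
  (PL.C (nat_lit 0x6e14407) (nat_lit 0x0) (nat_lit 0x76df21a08a7240)
  (PL.C (nat_lit 0x6e45834) (nat_lit 0x0) (nat_lit 0x25ac26fe30ec00)
  (PL.C (nat_lit 0x6e52c92) (nat_lit 0x1149f64fc0ff80) (nat_lit 0x0)
  (PL.C (nat_lit 0x6e71992) (nat_lit 0x0) (nat_lit 0x7876a5fd2200)
  (PL.C (nat_lit 0x6eb0b21) (nat_lit 0x253dc5f9b9a880) (nat_lit 0x0)
  (PL.C (nat_lit 0x6edbb46) (nat_lit 0x51bcf6f6c16000) (nat_lit 0x0)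
  (PL.C (nat_lit 0x6ee6891) (nat_lit 0x240e11a073300) (nat_lit 0x0)
  (PL.C (nat_lit 0x6f14171) (nat_lit 0xa26b60634cac80) (nat_lit 0x0)
  (PL.C (nat_lit 0x6f9f0dc) (nat_lit 0x0) (nat_lit 0x3b2beabd41000)
  (PL.C (nat_lit 0x700e832) (nat_lit 0x37e4a695790b00) (nat_lit 0x0)
  (PL.C (nat_lit 0x704ea55) (nat_lit 0x137ae4652f76a00) (nat_lit 0x0)
  (PL.C (nat_lit 0x7086dab) (nat_lit 0x0) (nat_lit 0x52ceb1351d6d40)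
  (PL.C (nat_lit 0x70a0682) (nat_lit 0x0) (nat_lit 0x42ef91ed73f80)
  (PL.C (nat_lit 0x70c717b) (nat_lit 0x0) (nat_lit 0x96607bd8de080)
  (PL.C (nat_lit 0x70d99b5) (nat_lit 0x37487c9f88b80) (nat_lit 0x0) lm1_149))))))))))))))))))))

noncomputable def lm1_147 : PL :=
  (PL.C (nat_lit 0x69cbf11) (nat_lit 0x867005dd341fa00) (nat_lit 0x0)
  (PL.C (nat_lit 0x69d3ee6) (nat_lit 0x0) (nat_lit 0x5e9454f151c0)
  (PL.C (nat_lit 0x69e9d4f) (nat_lit 0xa4cc454af7340) (nat_lit 0x0)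
  (PL.C (nat_lit 0x6a11d5f) (nat_lit 0x0) (nat_lit 0x501041374751c0)
  (PL.C (nat_lit 0x6a3d67f) (nat_lit 0x0) (nat_lit 0xdfeb6ea353100)
  (PL.C (nat_lit 0x6a55af9) (nat_lit 0x0) (nat_lit 0x1b6b90e8d9b480)
  (PL.C (nat_lit 0x6a61043) (nat_lit 0x343553c24e2cd80) (nat_lit 0x0)
  (PL.C (nat_lit 0x6a9bef7) (nat_lit 0x0) (nat_lit 0x883e70dcfa00)
  (PL.C (nat_lit 0x6af8d12) (nat_lit 0xbdad1a5dd5a740) (nat_lit 0x0)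
  (PL.C (nat_lit 0x6b2c3b5) (nat_lit 0x0) (nat_lit 0xa4cc454af7340)
  (PL.C (nat_lit 0x6b58415) (nat_lit 0x0) (nat_lit 0x17ca2fd63d4b80)
  (PL.C (nat_lit 0x6b744c6) (nat_lit 0xb154407b94900) (nat_lit 0x0)
  (PL.C (nat_lit 0x6ba167a) (nat_lit 0x0) (nat_lit 0x97a05fc3b1700)
  (PL.C (nat_lit 0x6be48de) (nat_lit 0x0) (nat_lit 0x58a3879716ec0)
  (PL.C (nat_lit 0x6bf8eab) (nat_lit 0x0) (nat_lit 0x3cfe2ec66a380)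
  (PL.C (nat_lit 0x6c00336) (nat_lit 0x1940e212cfc800) (nat_lit 0x0)
  (PL.C (nat_lit 0x6c3afdc) (nat_lit 0xecafaaf504000) (nat_lit 0x0)
  (PL.C (nat_lit 0x6c54d6f) (nat_lit 0x0) (nat_lit 0xb81910b57c640)
  (PL.C (nat_lit 0x6c758d9) (nat_lit 0x0) (nat_lit 0x106e0d18a53180)
  (PL.C (nat_lit 0x6c9f193) (nat_lit 0x50261c4d13af80) (nat_lit 0x0) lm1_148))))))))))))))))))))

noncomputable def lm1_146 : PL :=
  (PL.C (nat_lit 0x676051a) (nat_lit 0xefece52dcb80) (nat_lit 0x0)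
  (PL.C (nat_lit 0x679cca1) (nat_lit 0x232e7411cac5840) (nat_lit 0x0)
  (PL.C (nat_lit 0x68012a3) (nat_lit 0x0) (nat_lit 0x1bd3200c36ae00)
  (PL.C (nat_lit 0x6823b09) (nat_lit 0x9e40772a4f080) (nat_lit 0x0)
  (PL.C (nat_lit 0x682d6c2) (nat_lit 0x303336bfaa600) (nat_lit 0x0)
  (PL.C (nat_lit 0x6830a46) (nat_lit 0x51bcf6f6c16000) (nat_lit 0x0)
  (PL.C (nat_lit 0x6857cf7) (nat_lit 0x36e2f1caad9280) (nat_lit 0x0)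
  (PL.C (nat_lit 0x6868444) (nat_lit 0x0) (nat_lit 0x3b2beabd41000)
  (PL.C (nat_lit 0x688b434) (nat_lit 0x3887e2dd57280) (nat_lit 0x0)
  (PL.C (nat_lit 0x68b0a4b) (nat_lit 0x1c3419fb51d000) (nat_lit 0x0)
  (PL.C (nat_lit 0x68b84b6) (nat_lit 0x500f296193000) (nat_lit 0x0)
  (PL.C (nat_lit 0x68d041d) (nat_lit 0x7dd0bba94c000) (nat_lit 0x0)
  (PL.C (nat_lit 0x68fcdbe) (nat_lit 0x3d02379808ac0) (nat_lit 0x0)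
  (PL.C (nat_lit 0x69312d2) (nat_lit 0xa87a7d438d0c00) (nat_lit 0x0)
  (PL.C (nat_lit 0x693dc11) (nat_lit 0x374a80ee0a8c00) (nat_lit 0x0)
  (PL.C (nat_lit 0x6959786) (nat_lit 0x0) (nat_lit 0xefece52dcb80)
  (PL.C (nat_lit 0x6964b22) (nat_lit 0x660b9beb19fc0) (nat_lit 0x0)
  (PL.C (nat_lit 0x6965d2e) (nat_lit 0xb1b56a9a7b900) (nat_lit 0x0)
  (PL.C (nat_lit 0x697a49f) (nat_lit 0x0) (nat_lit 0xca7b6f45e600)
  (PL.C (nat_lit 0x699f11a) (nat_lit 0xa10bc38bfab80) (nat_lit 0x0) lm1_147))))))))))))))))))))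

noncomputable def lm1_145 : PL :=
  (PL.C (nat_lit 0x6323e9d) (nat_lit 0x1307a2e3a87b540) (nat_lit 0x0)
  (PL.C (nat_lit 0x633131a) (nat_lit 0x4cdf4625e4c400) (nat_lit 0x0)
  (PL.C (nat_lit 0x6360de9) (nat_lit 0x1133d7f28700) (nat_lit 0x0)
  (PL.C (nat_lit 0x636453a) (nat_lit 0x41df0cf31a380) (nat_lit 0x0)
  (PL.C (nat_lit 0x63a3b1e) (nat_lit 0x17edb5309412780) (nat_lit 0x0)
  (PL.C (nat_lit 0x63c9dca) (nat_lit 0x345b852147780) (nat_lit 0x0)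
  (PL.C (nat_lit 0x640bc96) (nat_lit 0x2c0322c8763bc0) (nat_lit 0x0)
  (PL.C (nat_lit 0x64364a7) (nat_lit 0x8616ebd16a34c00) (nat_lit 0x0)
  (PL.C (nat_lit 0x648b452) (nat_lit 0xdbbb070e9ef00) (nat_lit 0x0)
  (PL.C (nat_lit 0x64acf8a) (nat_lit 0xd3ad4b78f0600) (nat_lit 0x0)
  (PL.C (nat_lit 0x64d8563) (nat_lit 0x70d067ed474000) (nat_lit 0x0)
  (PL.C (nat_lit 0x64f666c) (nat_lit 0x3ee08997b00) (nat_lit 0x0)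
  (PL.C (nat_lit 0x65641b2) (nat_lit 0xc10c8e295ca780) (nat_lit 0x0)
  (PL.C (nat_lit 0x65756f6) (nat_lit 0xc4952ab0e80) (nat_lit 0x0)
  (PL.C (nat_lit 0x669201b) (nat_lit 0x0) (nat_lit 0x1f2678fa55100)
  (PL.C (nat_lit 0x66cbb9e) (nat_lit 0x0) (nat_lit 0x40abe1c141200)
  (PL.C (nat_lit 0x66cd9ef) (nat_lit 0x0) (nat_lit 0x5ad44b3dfc00)
  (PL.C (nat_lit 0x66d011f) (nat_lit 0x609e3e681db00) (nat_lit 0x0)
  (PL.C (nat_lit 0x672cae6) (nat_lit 0x2792cc237400) (nat_lit 0x0)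
  (PL.C (nat_lit 0x6741d1d) (nat_lit 0x0) (nat_lit 0x2ddf95316800) lm1_146))))))))))))))))))))

noncomputable def lm1_144 : PL :=
  (PL.C (nat_lit 0x613182e) (nat_lit 0x0) (nat_lit 0x146c050231bf00)
  (PL.C (nat_lit 0x614b332) (nat_lit 0x8b63727928700) (nat_lit 0x0)
  (PL.C (nat_lit 0x619b1ed) (nat_lit 0xc0aa9f422aeb880) (nat_lit 0x0)
  (PL.C (nat_lit 0x61b00de) (nat_lit 0x8d5115dcdf400) (nat_lit 0x0)
  (PL.C (nat_lit 0x61ba76a) (nat_lit 0x0) (nat_lit 0x29b2dc0ec9100)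
  (PL.C (nat_lit 0x61bb826) (nat_lit 0xa10bc38bfab80) (nat_lit 0x0)
  (PL.C (nat_lit 0x61e0f22) (nat_lit 0x0) (nat_lit 0x1861b6d91b80)
  (PL.C (nat_lit 0x61e48f3) (nat_lit 0x0) (nat_lit 0xb761df064200)
  (PL.C (nat_lit 0x620eb6e) (nat_lit 0xb1b56a9a7b900) (nat_lit 0x0)
  (PL.C (nat_lit 0x621a335) (nat_lit 0xd68f41664c4100) (nat_lit 0x0)
  (PL.C (nat_lit 0x62219be) (nat_lit 0x1318ced233c440) (nat_lit 0x0)
  (PL.C (nat_lit 0x6235eab) (nat_lit 0x0) (nat_lit 0x1133d7f28700)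
  (PL.C (nat_lit 0x624b4cb) (nat_lit 0x80e0f03389d5c0) (nat_lit 0x0)
  (PL.C (nat_lit 0x628369b) (nat_lit 0x37487c9f88b80) (nat_lit 0x0)
  (PL.C (nat_lit 0x6292e2a) (nat_lit 0x500f296193000) (nat_lit 0x0)
  (PL.C (nat_lit 0x62a46ef) (nat_lit 0x0) (nat_lit 0x188ff5058c2d80)
  (PL.C (nat_lit 0x62b8a4e) (nat_lit 0x0) (nat_lit 0x30c36db23700)
  (PL.C (nat_lit 0x62bcc39) (nat_lit 0x1c62d19d117400) (nat_lit 0x0)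
  (PL.C (nat_lit 0x62f9dd2) (nat_lit 0x8b63727928700) (nat_lit 0x0)
  (PL.C (nat_lit 0x631f627) (nat_lit 0x17ca2fd63d4b80) (nat_lit 0x0) lm1_145))))))))))))))))))))

noncomputable def lm1_143 : PL :=
  (PL.C (nat_lit 0x5f07e9c) (nat_lit 0x179c07d5d800) (nat_lit 0x0)
  (PL.C (nat_lit 0x5f0ca87) (nat_lit 0x0) (nat_lit 0x379eb4edb05400)
  (PL.C (nat_lit 0x5f25b0a) (nat_lit 0x2fb6244169a000) (nat_lit 0x0)
  (PL.C (nat_lit 0x5f43549) (nat_lit 0x222554657b1500) (nat_lit 0x0)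
  (PL.C (nat_lit 0x5f4b3fc) (nat_lit 0xecafaaf504000) (nat_lit 0x0)
  (PL.C (nat_lit 0x5f539cb) (nat_lit 0x13ba797d851000) (nat_lit 0x0)
  (PL.C (nat_lit 0x5f6b30c) (nat_lit 0x0) (nat_lit 0x1c3c155d789e00)
  (PL.C (nat_lit 0x5f8c0aa) (nat_lit 0x0) (nat_lit 0x179c07d5d800)
  (PL.C (nat_lit 0x5f944aa) (nat_lit 0x25e817f0ec5c00) (nat_lit 0x0)
  (PL.C (nat_lit 0x5fa2134) (nat_lit 0x176e4227785700) (nat_lit 0x0)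
  (PL.C (nat_lit 0x5fdba42) (nat_lit 0x0) (nat_lit 0x8bd7555f81c00)
  (PL.C (nat_lit 0x60189dd) (nat_lit 0x145801e0d7700) (nat_lit 0x0)
  (PL.C (nat_lit 0x6052fb4) (nat_lit 0x9e0ee27aa4380) (nat_lit 0x0)
  (PL.C (nat_lit 0x6068fec) (nat_lit 0x0) (nat_lit 0x3ee08997b00)
  (PL.C (nat_lit 0x60aee2e) (nat_lit 0x2f380fabb000) (nat_lit 0x0)
  (PL.C (nat_lit 0x60cda59) (nat_lit 0xbcb9197df200) (nat_lit 0x0)
  (PL.C (nat_lit 0x60d7f63) (nat_lit 0x0) (nat_lit 0x25e9b41b618800)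
  (PL.C (nat_lit 0x6102ecd) (nat_lit 0x0) (nat_lit 0x1e9ea05b15f00)
  (PL.C (nat_lit 0x610d997) (nat_lit 0x70d067ed474000) (nat_lit 0x0)
  (PL.C (nat_lit 0x6113817) (nat_lit 0x0) (nat_lit 0x2ddf95316800) lm1_144))))))))))))))))))))

noncomputable def lm1_142 : PL :=
  (PL.C (nat_lit 0x5cec863) (nat_lit 0x2bd3f5de9846c0) (nat_lit 0x0)
  (PL.C (nat_lit 0x5d2563c) (nat_lit 0x9e0ee27aa4380) (nat_lit 0x0)
  (PL.C (nat_lit 0x5d354f4) (nat_lit 0x2f115964419d00) (nat_lit 0x0)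
  (PL.C (nat_lit 0x5d41e9b) (nat_lit 0x120695f778d200) (nat_lit 0x0)
  (PL.C (nat_lit 0x5d5d756) (nat_lit 0x0) (nat_lit 0x2fb6244169a000)
  (PL.C (nat_lit 0x5d70965) (nat_lit 0x1d5a4d7e1e080) (nat_lit 0x0)
  (PL.C (nat_lit 0x5d82c8f) (nat_lit 0x2f3cb5afe2100) (nat_lit 0x0)
  (PL.C (nat_lit 0x5d9e095) (nat_lit 0x0) (nat_lit 0x27d1c37c2a240)
  (PL.C (nat_lit 0x5d9ea9c) (nat_lit 0x105d2410bebd00) (nat_lit 0x0)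
  (PL.C (nat_lit 0x5deeba5) (nat_lit 0x379eb4edb05400) (nat_lit 0x0)
  (PL.C (nat_lit 0x5e0463a) (nat_lit 0xfe55b9e5ea80) (nat_lit 0x0)
  (PL.C (nat_lit 0x5e12b57) (nat_lit 0x0) (nat_lit 0x441f386e7d00)
  (PL.C (nat_lit 0x5e4c264) (nat_lit 0x1c400366121900) (nat_lit 0x0)
  (PL.C (nat_lit 0x5e50db9) (nat_lit 0x1d5a4d7e1e080) (nat_lit 0x0)
  (PL.C (nat_lit 0x5e77999) (nat_lit 0x0) (nat_lit 0x2ddf95316800)
  (PL.C (nat_lit 0x5e85666) (nat_lit 0x0) (nat_lit 0x127915f849400)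
  (PL.C (nat_lit 0x5e9ab54) (nat_lit 0x7dc1132f600) (nat_lit 0x0)
  (PL.C (nat_lit 0x5ea120f) (nat_lit 0x0) (nat_lit 0x108fb84ce6d080)
  (PL.C (nat_lit 0x5ece069) (nat_lit 0x1636ad534f7200) (nat_lit 0x0)
  (PL.C (nat_lit 0x5efd797) (nat_lit 0x0) (nat_lit 0xbcb9197df200) lm1_143))))))))))))))))))))

noncomputable def lm1_141 : PL :=
  (PL.C (nat_lit 0x5a1ff26) (nat_lit 0x17edb5309412780) (nat_lit 0x0)
  (PL.C (nat_lit 0x5a27d9e) (nat_lit 0x0) (nat_lit 0x8b63727928700)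
  (PL.C (nat_lit 0x5a4d0da) (nat_lit 0x0) (nat_lit 0x98578548b9740)
  (PL.C (nat_lit 0x5a78749) (nat_lit 0x0) (nat_lit 0xc89e430699cf40)
  (PL.C (nat_lit 0x5a81e01) (nat_lit 0x0) (nat_lit 0x24d288024d9640)
  (PL.C (nat_lit 0x5a95496) (nat_lit 0x0) (nat_lit 0x6c9976dc19600)
  (PL.C (nat_lit 0x5aac7e7) (nat_lit 0xa26b60634cac80) (nat_lit 0x0)
  (PL.C (nat_lit 0x5acc1ca) (nat_lit 0x1797232fbe400) (nat_lit 0x0)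
  (PL.C (nat_lit 0x5adb5e2) (nat_lit 0x0) (nat_lit 0x500f296193000)
  (PL.C (nat_lit 0x5af7b69) (nat_lit 0x4847ec91efe80) (nat_lit 0x0)
  (PL.C (nat_lit 0x5b140d6) (nat_lit 0x0) (nat_lit 0xb3c89f7155e00)
  (PL.C (nat_lit 0x5b2d7d6) (nat_lit 0x1e05af8497200) (nat_lit 0x0)
  (PL.C (nat_lit 0x5b5d04c) (nat_lit 0x1ceb894ea29880) (nat_lit 0x0)
  (PL.C (nat_lit 0x5b72d6b) (nat_lit 0x0) (nat_lit 0x18585f179417a40)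
  (PL.C (nat_lit 0x5c101e2) (nat_lit 0xb0e0d07bcb0ec0) (nat_lit 0x0)
  (PL.C (nat_lit 0x5c21847) (nat_lit 0x4dea64d097f00) (nat_lit 0x0)
  (PL.C (nat_lit 0x5c5e2fc) (nat_lit 0x3ee08997b00) (nat_lit 0x0)
  (PL.C (nat_lit 0x5c87fb2) (nat_lit 0x0) (nat_lit 0x5219824d25900)
  (PL.C (nat_lit 0x5cd7c06) (nat_lit 0x0) (nat_lit 0xbd28a9e2a380)
  (PL.C (nat_lit 0x5cd8f79) (nat_lit 0x791fc4a9fbfc00) (nat_lit 0x0) lm1_142))))))))))))))))))))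

noncomputable def lm1_140 : PL :=
  (PL.C (nat_lit 0x57f3dde) (nat_lit 0x9b5559ed03a100) (nat_lit 0x0)
  (PL.C (nat_lit 0x57fead4) (nat_lit 0x1892a5561d00) (nat_lit 0x0)
  (PL.C (nat_lit 0x5855b4d) (nat_lit 0x17bbd468a9000) (nat_lit 0x0)
  (PL.C (nat_lit 0x585feb7) (nat_lit 0x15090af77ab3d40) (nat_lit 0x0)
  (PL.C (nat_lit 0x5862067) (nat_lit 0xaa50e9ae68b80) (nat_lit 0x0)
  (PL.C (nat_lit 0x586660e) (nat_lit 0x97a05fc3b1700) (nat_lit 0x0)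
  (PL.C (nat_lit 0x5899212) (nat_lit 0x0) (nat_lit 0x6c9976dc19600)
  (PL.C (nat_lit 0x58b1a36) (nat_lit 0x3ee85dd4a6000) (nat_lit 0x0)
  (PL.C (nat_lit 0x58c3cf5) (nat_lit 0x5f28bf58f52e00) (nat_lit 0x0)
  (PL.C (nat_lit 0x58e2f0a) (nat_lit 0xd932edb832c00) (nat_lit 0x0)
  (PL.C (nat_lit 0x5910c2a) (nat_lit 0x0) (nat_lit 0x500f296193000)
  (PL.C (nat_lit 0x591b7b1) (nat_lit 0xd4c486302e9500) (nat_lit 0x0)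
  (PL.C (nat_lit 0x5929302) (nat_lit 0x13527c17cd8e00) (nat_lit 0x0)
  (PL.C (nat_lit 0x594f115) (nat_lit 0x5d24fe1644ae80) (nat_lit 0x0)
  (PL.C (nat_lit 0x5955cfe) (nat_lit 0x0) (nat_lit 0x6186db646e00)
  (PL.C (nat_lit 0x59684cb) (nat_lit 0xc89e430699cf40) (nat_lit 0x0)
  (PL.C (nat_lit 0x598a11b) (nat_lit 0x11ec76f1b08a40) (nat_lit 0x0)
  (PL.C (nat_lit 0x59a6d26) (nat_lit 0xd932edb832c00) (nat_lit 0x0)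
  (PL.C (nat_lit 0x59ab336) (nat_lit 0x37e4a695790b00) (nat_lit 0x0)
  (PL.C (nat_lit 0x59cce8f) (nat_lit 0x53d2e29dcbf600) (nat_lit 0x0) lm1_141))))))))))))))))))))

noncomputable def lm1_139 : PL :=
  (PL.C (nat_lit 0x54cc3b7) (nat_lit 0x72dcf5daaa80) (nat_lit 0x0)
  (PL.C (nat_lit 0x54f67d1) (nat_lit 0x8496c44f59cc00) (nat_lit 0x0)
  (PL.C (nat_lit 0x552102f) (nat_lit 0xdd5d414d263d00) (nat_lit 0x0)
  (PL.C (nat_lit 0x55453ca) (nat_lit 0x0) (nat_lit 0xbc626d5546500)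
  (PL.C (nat_lit 0x554afd4) (nat_lit 0x23bbae1c691000) (nat_lit 0x0)
  (PL.C (nat_lit 0x55519bf) (nat_lit 0x120695f778d200) (nat_lit 0x0)
  (PL.C (nat_lit 0x555e12a) (nat_lit 0xba2ed159b60e40) (nat_lit 0x0)
  (PL.C (nat_lit 0x5596ffa) (nat_lit 0x41df0cf31a380) (nat_lit 0x0)
  (PL.C (nat_lit 0x55a676c) (nat_lit 0x105d2410bebd00) (nat_lit 0x0)
  (PL.C (nat_lit 0x55a7aae) (nat_lit 0x0) (nat_lit 0x2350d4ce0bc680)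
  (PL.C (nat_lit 0x55f4d2c) (nat_lit 0x25c3c30606c400) (nat_lit 0x0)
  (PL.C (nat_lit 0x5601266) (nat_lit 0x0) (nat_lit 0x8917c9bb7de80)
  (PL.C (nat_lit 0x561cb55) (nat_lit 0x0) (nat_lit 0xb77e54c5a00)
  (PL.C (nat_lit 0x56247a6) (nat_lit 0x0) (nat_lit 0x155d76c083f00)
  (PL.C (nat_lit 0x56ca3db) (nat_lit 0xd68f41664c4100) (nat_lit 0x0)
  (PL.C (nat_lit 0x56eeac5) (nat_lit 0x0) (nat_lit 0x1d5a4d7e1e080)
  (PL.C (nat_lit 0x5727eb4) (nat_lit 0x19d3e98fa7a600) (nat_lit 0x0)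
  (PL.C (nat_lit 0x573b3d3) (nat_lit 0x76f09cd41e8600) (nat_lit 0x0)
  (PL.C (nat_lit 0x57770e5) (nat_lit 0x232e7411cac5840) (nat_lit 0x0)
  (PL.C (nat_lit 0x57e8eed) (nat_lit 0x4dea64d097f00) (nat_lit 0x0) lm1_140))))))))))))))))))))

noncomputable def lm1_138 : PL :=
  (PL.C (nat_lit 0x51f28b3) (nat_lit 0x0) (nat_lit 0x220f9c373e80)
  (PL.C (nat_lit 0x52230da) (nat_lit 0x0) (nat_lit 0xdb8bdea76d2c0)
  (PL.C (nat_lit 0x524213a) (nat_lit 0x9cc112273a3300) (nat_lit 0x0)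
  (PL.C (nat_lit 0x5265061) (nat_lit 0x2da6d895c8e5dc0) (nat_lit 0x0)
  (PL.C (nat_lit 0x52677b2) (nat_lit 0x1c3a6e989cba00) (nat_lit 0x0)
  (PL.C (nat_lit 0x52ad2ca) (nat_lit 0x1b265db7065800) (nat_lit 0x0)
  (PL.C (nat_lit 0x52c69a6) (nat_lit 0x9bd723297bb500) (nat_lit 0x0)
  (PL.C (nat_lit 0x52d04c9) (nat_lit 0x609e3e681db00) (nat_lit 0x0)
  (PL.C (nat_lit 0x5307027) (nat_lit 0x56b2c601c6540) (nat_lit 0x0)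
  (PL.C (nat_lit 0x531d13e) (nat_lit 0x1b746e5b60c1c0) (nat_lit 0x0)
  (PL.C (nat_lit 0x533f37e) (nat_lit 0x1861b6d91b80) (nat_lit 0x0)
  (PL.C (nat_lit 0x53bbd02) (nat_lit 0x2c0322c8763bc0) (nat_lit 0x0)
  (PL.C (nat_lit 0x53e6fa2) (nat_lit 0xc10c8e295ca780) (nat_lit 0x0)
  (PL.C (nat_lit 0x53fa26e) (nat_lit 0x0) (nat_lit 0xe7ebe27b2cb00)
  (PL.C (nat_lit 0x540319a) (nat_lit 0x21ca99668820c0) (nat_lit 0x0)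
  (PL.C (nat_lit 0x542749b) (nat_lit 0x0) (nat_lit 0x1645a0aa3600)
  (PL.C (nat_lit 0x5454372) (nat_lit 0x0) (nat_lit 0x8b63727928700)
  (PL.C (nat_lit 0x545bc4e) (nat_lit 0x0) (nat_lit 0x24929245a940)
  (PL.C (nat_lit 0x547456e) (nat_lit 0x4cdf4625e4c400) (nat_lit 0x0)
  (PL.C (nat_lit 0x5498383) (nat_lit 0x5181065e1bd3c0) (nat_lit 0x0) lm1_139))))))))))))))))))))

noncomputable def lm1_137 : PL :=
  (PL.C (nat_lit 0x4f4b2f9) (nat_lit 0x139188febeb000) (nat_lit 0x0)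
  (PL.C (nat_lit 0x4f698f3) (nat_lit 0x0) (nat_lit 0x5bbf2a62d000)
  (PL.C (nat_lit 0x4f8b5a2) (nat_lit 0x5d2f5162744b00) (nat_lit 0x0)
  (PL.C (nat_lit 0x4f9e05d) (nat_lit 0x253dc5f9b9a880) (nat_lit 0x0)
  (PL.C (nat_lit 0x4fbb7ba) (nat_lit 0x0) (nat_lit 0x42ef91ed73f80)
  (PL.C (nat_lit 0x4fe1c8b) (nat_lit 0x0) (nat_lit 0x1278d923545ec0)
  (PL.C (nat_lit 0x5030ca5) (nat_lit 0x0) (nat_lit 0x18d85b38832c80)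
  (PL.C (nat_lit 0x503c8e3) (nat_lit 0x0) (nat_lit 0x139188febeb000)
  (PL.C (nat_lit 0x507a5e7) (nat_lit 0x61f0faa6856580) (nat_lit 0x0)
  (PL.C (nat_lit 0x507aebc) (nat_lit 0x0) (nat_lit 0x30c36db23700)
  (PL.C (nat_lit 0x50af0d2) (nat_lit 0x25e817f0ec5c00) (nat_lit 0x0)
  (PL.C (nat_lit 0x50ca68c) (nat_lit 0x0) (nat_lit 0x8af16b5127400)
  (PL.C (nat_lit 0x50deadf) (nat_lit 0xd2eb075b494280) (nat_lit 0x0)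
  (PL.C (nat_lit 0x511a9d9) (nat_lit 0x0) (nat_lit 0x16d868fc608200)
  (PL.C (nat_lit 0x511ec11) (nat_lit 0x0) (nat_lit 0x6b1aa3b12fa00)
  (PL.C (nat_lit 0x51302c2) (nat_lit 0xc4952ab0e80) (nat_lit 0x0)
  (PL.C (nat_lit 0x5135691) (nat_lit 0x5f28bf58f52e00) (nat_lit 0x0)
  (PL.C (nat_lit 0x516b474) (nat_lit 0x0) (nat_lit 0x9ca710a6c3a00)
  (PL.C (nat_lit 0x518e596) (nat_lit 0x9cc112273a3300) (nat_lit 0x0)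
  (PL.C (nat_lit 0x51e48c1) (nat_lit 0x0) (nat_lit 0x6c5e24c0c7ec00) lm1_138))))))))))))))))))))

noncomputable def lm1_136 : PL :=
  (PL.C (nat_lit 0x4cf7dae) (nat_lit 0x24b93796938e00) (nat_lit 0x0)
  (PL.C (nat_lit 0x4d11a76) (nat_lit 0x0) (nat_lit 0x29d4dcf08fa40)
  (PL.C (nat_lit 0x4d1455c) (nat_lit 0x0) (nat_lit 0xc1720a9400)
  (PL.C (nat_lit 0x4d2eff4) (nat_lit 0x39e6cabfab1d00) (nat_lit 0x0)
  (PL.C (nat_lit 0x4d32657) (nat_lit 0x0) (nat_lit 0x148ed27d7ffdbc0)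
  (PL.C (nat_lit 0x4d32d9d) (nat_lit 0x756935f878200) (nat_lit 0x0)
  (PL.C (nat_lit 0x4d79c76) (nat_lit 0xdef818acb7600) (nat_lit 0x0)
  (PL.C (nat_lit 0x4d8817c) (nat_lit 0x96b09bf8c3b000) (nat_lit 0x0)
  (PL.C (nat_lit 0x4dc5da3) (nat_lit 0x9e40772a4f080) (nat_lit 0x0)
  (PL.C (nat_lit 0x4dccdea) (nat_lit 0x228cd9b6572a80) (nat_lit 0x0)
  (PL.C (nat_lit 0x4dd916c) (nat_lit 0x1ceb894ea29880) (nat_lit 0x0)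
  (PL.C (nat_lit 0x4ddea66) (nat_lit 0x7876a5fd2200) (nat_lit 0x0)
  (PL.C (nat_lit 0x4e1333c) (nat_lit 0x3887e2dd57280) (nat_lit 0x0)
  (PL.C (nat_lit 0x4e34d52) (nat_lit 0x6d472be4ab80) (nat_lit 0x0)
  (PL.C (nat_lit 0x4e74194) (nat_lit 0x0) (nat_lit 0x96b09bf8c3b000)
  (PL.C (nat_lit 0x4e809af) (nat_lit 0x0) (nat_lit 0x106e0d18a53180)
  (PL.C (nat_lit 0x4ea7e51) (nat_lit 0x0) (nat_lit 0x896987ca3f300)
  (PL.C (nat_lit 0x4ed4cc1) (nat_lit 0x16bfc44efaf80) (nat_lit 0x0)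
  (PL.C (nat_lit 0x4ef010b) (nat_lit 0x4aaacbd75bf700) (nat_lit 0x0)
  (PL.C (nat_lit 0x4f3344f) (nat_lit 0x2f2e465f7c800) (nat_lit 0x0) lm1_137))))))))))))))))))))

noncomputable def lm1_135 : PL :=
  (PL.C (nat_lit 0x4a9a1d3) (nat_lit 0x1c3419fb51d000) (nat_lit 0x0)
  (PL.C (nat_lit 0x4a9be43) (nat_lit 0x406d41a867e5480) (nat_lit 0x0)
  (PL.C (nat_lit 0x4adf18e) (nat_lit 0x9bd723297bb500) (nat_lit 0x0)
  (PL.C (nat_lit 0x4afd07b) (nat_lit 0x0) (nat_lit 0x2267afe50e00)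
  (PL.C (nat_lit 0x4b159ac) (nat_lit 0x0) (nat_lit 0x2c02df5c35d80)
  (PL.C (nat_lit 0x4b2f652) (nat_lit 0x0) (nat_lit 0x97a05fc3b1700)
  (PL.C (nat_lit 0x4b3bbce) (nat_lit 0x1c9d1c4931500) (nat_lit 0x0)
  (PL.C (nat_lit 0x4b4898a) (nat_lit 0x138a4eba779600) (nat_lit 0x0)
  (PL.C (nat_lit 0x4b69063) (nat_lit 0x0) (nat_lit 0x139188febeb000)
  (PL.C (nat_lit 0x4b95cc7) (nat_lit 0x0) (nat_lit 0x1645a0aa3600)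
  (PL.C (nat_lit 0x4befda5) (nat_lit 0x224f42839380) (nat_lit 0x0)
  (PL.C (nat_lit 0x4c0b694) (nat_lit 0x25c3c30606c400) (nat_lit 0x0)
  (PL.C (nat_lit 0x4c29d02) (nat_lit 0x224d7290bd840) (nat_lit 0x0)
  (PL.C (nat_lit 0x4c66fc5) (nat_lit 0x0) (nat_lit 0x10adeee4a93a80)
  (PL.C (nat_lit 0x4c6943a) (nat_lit 0x0) (nat_lit 0xf0ed4bfa4400)
  (PL.C (nat_lit 0x4c99de9) (nat_lit 0x0) (nat_lit 0x411b5b4ef02700)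
  (PL.C (nat_lit 0x4ca5a72) (nat_lit 0x6eaea0a6931e80) (nat_lit 0x0)
  (PL.C (nat_lit 0x4cc177e) (nat_lit 0x6d472be4ab80) (nat_lit 0x0)
  (PL.C (nat_lit 0x4cd984d) (nat_lit 0x139188febeb000) (nat_lit 0x0)
  (PL.C (nat_lit 0x4cdedea) (nat_lit 0xd3ad4b78f0600) (nat_lit 0x0) lm1_136))))))))))))))))))))

noncomputable def lm1_134 : PL :=
  (PL.C (nat_lit 0x4800224) (nat_lit 0x23bbae1c691000) (nat_lit 0x0)
  (PL.C (nat_lit 0x4803ba9) (nat_lit 0x4aaacbd75bf700) (nat_lit 0x0)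
  (PL.C (nat_lit 0x481ddcf) (nat_lit 0x129a05d77d8000) (nat_lit 0x0)
  (PL.C (nat_lit 0x4827c57) (nat_lit 0x0) (nat_lit 0x1133d7f28700)
  (PL.C (nat_lit 0x484e5e6) (nat_lit 0x0) (nat_lit 0xfcfe2174c7100)
  (PL.C (nat_lit 0x486cbd3) (nat_lit 0x0) (nat_lit 0x10adeee4a93a80)
  (PL.C (nat_lit 0x4884c5a) (nat_lit 0x1b265db7065800) (nat_lit 0x0)
  (PL.C (nat_lit 0x4899e7e) (nat_lit 0x372ef9bc195fc0) (nat_lit 0x0)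
  (PL.C (nat_lit 0x48cb08b) (nat_lit 0x904ceeea687480) (nat_lit 0x0)
  (PL.C (nat_lit 0x48ef775) (nat_lit 0x0) (nat_lit 0x7aa4c9ac29f280)
  (PL.C (nat_lit 0x49191a5) (nat_lit 0x17bbd468a9000) (nat_lit 0x0)
  (PL.C (nat_lit 0x4943a87) (nat_lit 0x674610989a7d00) (nat_lit 0x0)
  (PL.C (nat_lit 0x495fb8d) (nat_lit 0x0) (nat_lit 0x59451862d2280)
  (PL.C (nat_lit 0x4962699) (nat_lit 0x0) (nat_lit 0x253dc5f9b9a880)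
  (PL.C (nat_lit 0x4962d5a) (nat_lit 0x25753bd8aa9340) (nat_lit 0x0)
  (PL.C (nat_lit 0x4990323) (nat_lit 0x0) (nat_lit 0x3cfe2ec66a380)
  (PL.C (nat_lit 0x49a110c) (nat_lit 0x0) (nat_lit 0x30c36db23700)
  (PL.C (nat_lit 0x49cb216) (nat_lit 0x24b93796938e00) (nat_lit 0x0)
  (PL.C (nat_lit 0x4a06b6d) (nat_lit 0x17ca2fd63d4b80) (nat_lit 0x0)
  (PL.C (nat_lit 0x4a5bc99) (nat_lit 0x2bd3f5de9846c0) (nat_lit 0x0) lm1_135))))))))))))))))))))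

noncomputable def lm1_133 : PL :=
  (PL.C (nat_lit 0x4620c8c) (nat_lit 0x13fa4c521b5d300) (nat_lit 0x0)
  (PL.C (nat_lit 0x46292b6) (nat_lit 0x1c3a6e989cba00) (nat_lit 0x0)
  (PL.C (nat_lit 0x465186a) (nat_lit 0x0) (nat_lit 0x1ac8257c27b80)
  (PL.C (nat_lit 0x4658a57) (nat_lit 0x7843c270e300) (nat_lit 0x0)
  (PL.C (nat_lit 0x466a0bc) (nat_lit 0x1d9ecfe190b100) (nat_lit 0x0)
  (PL.C (nat_lit 0x467bda9) (nat_lit 0x4fef3168a680) (nat_lit 0x0)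
  (PL.C (nat_lit 0x46b68ea) (nat_lit 0x3e0c597b17ab00) (nat_lit 0x0)
  (PL.C (nat_lit 0x46d39aa) (nat_lit 0x582c8e97c3a00) (nat_lit 0x0)
  (PL.C (nat_lit 0x46d8839) (nat_lit 0x0) (nat_lit 0x287a66de3600)
  (PL.C (nat_lit 0x46e3ca6) (nat_lit 0x0) (nat_lit 0xdb8bdea76d2c0)
  (PL.C (nat_lit 0x46eb582) (nat_lit 0x1aa9131e616080) (nat_lit 0x0)
  (PL.C (nat_lit 0x4709e47) (nat_lit 0x11ec76f1b08a40) (nat_lit 0x0)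
  (PL.C (nat_lit 0x47129fa) (nat_lit 0x0) (nat_lit 0x1be708c33c400)
  (PL.C (nat_lit 0x476661f) (nat_lit 0x253dc5f9b9a880) (nat_lit 0x0)
  (PL.C (nat_lit 0x47b8cd5) (nat_lit 0x8496c44f59cc00) (nat_lit 0x0)
  (PL.C (nat_lit 0x47c0efc) (nat_lit 0x0) (nat_lit 0x1ceb894ea29880)
  (PL.C (nat_lit 0x47d4467) (nat_lit 0x0) (nat_lit 0x4fef3168a680)
  (PL.C (nat_lit 0x47dbedd) (nat_lit 0x0) (nat_lit 0xabc2ebf608d80)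
  (PL.C (nat_lit 0x47dcb2b) (nat_lit 0x2f2e465f7c800) (nat_lit 0x0)
  (PL.C (nat_lit 0x47fb472) (nat_lit 0x0) (nat_lit 0xa3f5ac3776980) lm1_134))))))))))))))))))))

noncomputable def lm1_132 : PL :=
  (PL.C (nat_lit 0x43c4679) (nat_lit 0x37bce31deac00) (nat_lit 0x0)
  (PL.C (nat_lit 0x43ef9c3) (nat_lit 0x904ceeea687480) (nat_lit 0x0)
  (PL.C (nat_lit 0x4409a21) (nat_lit 0x23382bdbc9880) (nat_lit 0x0)
  (PL.C (nat_lit 0x443694f) (nat_lit 0x6710b675c29400) (nat_lit 0x0)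
  (PL.C (nat_lit 0x444449b) (nat_lit 0xd2eb075b494280) (nat_lit 0x0)
  (PL.C (nat_lit 0x4487d14) (nat_lit 0x0) (nat_lit 0x305c82a5000)
  (PL.C (nat_lit 0x448914a) (nat_lit 0x0) (nat_lit 0xfc3637d8da00)
  (PL.C (nat_lit 0x448ab6a) (nat_lit 0x0) (nat_lit 0x174660ba27100)
  (PL.C (nat_lit 0x44c8744) (nat_lit 0x179c07d5d800) (nat_lit 0x0)
  (PL.C (nat_lit 0x44d68be) (nat_lit 0x0) (nat_lit 0x7876a5fd2200)
  (PL.C (nat_lit 0x44f35dd) (nat_lit 0x603064fb80ad40) (nat_lit 0x0)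
  (PL.C (nat_lit 0x4513316) (nat_lit 0xf2d4c7b154600) (nat_lit 0x0)
  (PL.C (nat_lit 0x4521585) (nat_lit 0x37bce31deac00) (nat_lit 0x0)
  (PL.C (nat_lit 0x452ecef) (nat_lit 0x0) (nat_lit 0x46caff0264880)
  (PL.C (nat_lit 0x45561c2) (nat_lit 0x0) (nat_lit 0xe7ebe27b2cb00)
  (PL.C (nat_lit 0x456d206) (nat_lit 0x9d8761b927700) (nat_lit 0x0)
  (PL.C (nat_lit 0x458034b) (nat_lit 0x0) (nat_lit 0xeedfce0a9e00)
  (PL.C (nat_lit 0x458fdfa) (nat_lit 0x1b746e5b60c1c0) (nat_lit 0x0)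
  (PL.C (nat_lit 0x45d0324) (nat_lit 0xecafaaf504000) (nat_lit 0x0)
  (PL.C (nat_lit 0x45e02be) (nat_lit 0x3ee85dd4a6000) (nat_lit 0x0) lm1_133))))))))))))))))))))

noncomputable def lm1_131 : PL :=
  (PL.C (nat_lit 0x41df483) (nat_lit 0x10676863b1b1e00) (nat_lit 0x0)
  (PL.C (nat_lit 0x41eb9ab) (nat_lit 0x0) (nat_lit 0x5bbf2a62d000)
  (PL.C (nat_lit 0x41fbe8c) (nat_lit 0x19d3e98fa7a600) (nat_lit 0x0)
  (PL.C (nat_lit 0x4220cbc) (nat_lit 0xa89092de80d400) (nat_lit 0x0)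
  (PL.C (nat_lit 0x422b521) (nat_lit 0x1aada2d3300d700) (nat_lit 0x0)
  (PL.C (nat_lit 0x4240946) (nat_lit 0x24929245a940) (nat_lit 0x0)
  (PL.C (nat_lit 0x4244aab) (nat_lit 0x0) (nat_lit 0x43c6f233ed780)
  (PL.C (nat_lit 0x4265d55) (nat_lit 0x5c639be4d3640) (nat_lit 0x0)
  (PL.C (nat_lit 0x426d214) (nat_lit 0x1afb6a792096680) (nat_lit 0x0)
  (PL.C (nat_lit 0x4270725) (nat_lit 0x92bce7a1d41d80) (nat_lit 0x0)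
  (PL.C (nat_lit 0x4281789) (nat_lit 0x0) (nat_lit 0x16efca98b400)
  (PL.C (nat_lit 0x429af23) (nat_lit 0x1ec5021652c00) (nat_lit 0x0)
  (PL.C (nat_lit 0x42a20b1) (nat_lit 0x0) (nat_lit 0x188ff5058c2d80)
  (PL.C (nat_lit 0x42b2864) (nat_lit 0x4fcb10a4299e40) (nat_lit 0x0)
  (PL.C (nat_lit 0x42c6f2d) (nat_lit 0x6f9c230cf1000) (nat_lit 0x0)
  (PL.C (nat_lit 0x42db7cb) (nat_lit 0xdd5d414d263d00) (nat_lit 0x0)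
  (PL.C (nat_lit 0x433ae42) (nat_lit 0x386833f6a3a000) (nat_lit 0x0)
  (PL.C (nat_lit 0x437c077) (nat_lit 0x1b6f37111303f80) (nat_lit 0x0)
  (PL.C (nat_lit 0x43a18a9) (nat_lit 0x6710b675c29400) (nat_lit 0x0)
  (PL.C (nat_lit 0x43b17f9) (nat_lit 0x0) (nat_lit 0x47b9e1cb33b40) lm1_132))))))))))))))))))))

noncomputable def lm1_130 : PL :=
  (PL.C (nat_lit 0x40ac9de) (nat_lit 0x4a25841c1bc00) (nat_lit 0x0)
  (PL.C (nat_lit 0x40b3bba) (nat_lit 0x386833f6a3a000) (nat_lit 0x0)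
  (PL.C (nat_lit 0x40b7aba) (nat_lit 0x0) (nat_lit 0x6186db646e00)
  (PL.C (nat_lit 0x40dcccc) (nat_lit 0x19d3e98fa7a600) (nat_lit 0x0)
  (PL.C (nat_lit 0x40df841) (nat_lit 0x379eb4edb05400) (nat_lit 0x0)
  (PL.C (nat_lit 0x40e66db) (nat_lit 0x0) (nat_lit 0x16d868fc608200)
  (PL.C (nat_lit 0x4120094) (nat_lit 0x1c400366121900) (nat_lit 0x0)
  (PL.C (nat_lit 0x41254d1) (nat_lit 0x2ddf95316800) (nat_lit 0x0)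
  (PL.C (nat_lit 0x4126f9c) (nat_lit 0x0) (nat_lit 0x9ca710a6c3a00)
  (PL.C (nat_lit 0x4127ac4) (nat_lit 0x1d9ecfe190b100) (nat_lit 0x0)
  (PL.C (nat_lit 0x412aed1) (nat_lit 0xa31023833b72c0) (nat_lit 0x0)
  (PL.C (nat_lit 0x413aed3) (nat_lit 0x129a05d77d8000) (nat_lit 0x0)
  (PL.C (nat_lit 0x41430a2) (nat_lit 0x0) (nat_lit 0x40abe1c141200)
  (PL.C (nat_lit 0x415b92d) (nat_lit 0x0) (nat_lit 0x21a2fb6969400)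
  (PL.C (nat_lit 0x4166cce) (nat_lit 0x0) (nat_lit 0x62def3c53d2c00)
  (PL.C (nat_lit 0x416bbd4) (nat_lit 0x38f490640f77c0) (nat_lit 0x0)
  (PL.C (nat_lit 0x4179472) (nat_lit 0x0) (nat_lit 0x24929245a940)
  (PL.C (nat_lit 0x41acf12) (nat_lit 0x1c9d1c4931500) (nat_lit 0x0)
  (PL.C (nat_lit 0x41b741c) (nat_lit 0xecafaaf504000) (nat_lit 0x0)
  (PL.C (nat_lit 0x41c2f4a) (nat_lit 0x0) (nat_lit 0x235c87261629c0) lm1_131))))))))))))))))))))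

noncomputable def lm1_129 : PL :=
  (PL.C (nat_lit 0x3ead97c) (nat_lit 0x385f72049700) (nat_lit 0x0)
  (PL.C (nat_lit 0x3eb2e8d) (nat_lit 0x44725e2cd745920) (nat_lit 0x0)
  (PL.C (nat_lit 0x3eb723a) (nat_lit 0x0) (nat_lit 0xbd28a9e2a380)
  (PL.C (nat_lit 0x3ec52bd) (nat_lit 0x0) (nat_lit 0x76df21a08a7240)
  (PL.C (nat_lit 0x3ed6b3d) (nat_lit 0xd462bf0b6ac00) (nat_lit 0x0)
  (PL.C (nat_lit 0x3ee0926) (nat_lit 0x1e05af8497200) (nat_lit 0x0)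
  (PL.C (nat_lit 0x3efa666) (nat_lit 0x0) (nat_lit 0x7876a5fd2200)
  (PL.C (nat_lit 0x3efb48f) (nat_lit 0xb7f6811087a4480) (nat_lit 0x0)
  (PL.C (nat_lit 0x3f34046) (nat_lit 0xb1b56a9a7b900) (nat_lit 0x0)
  (PL.C (nat_lit 0x3f3d14b) (nat_lit 0x1e968e97f5d6760) (nat_lit 0x0)
  (PL.C (nat_lit 0x3f5dc5a) (nat_lit 0x0) (nat_lit 0x37cc658973f800)
  (PL.C (nat_lit 0x3f6e75c) (nat_lit 0x96b09bf8c3b000) (nat_lit 0x0)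
  (PL.C (nat_lit 0x3f82386) (nat_lit 0x228cd9b6572a80) (nat_lit 0x0)
  (PL.C (nat_lit 0x3f8d132) (nat_lit 0x138a4eba779600) (nat_lit 0x0)
  (PL.C (nat_lit 0x3fa872f) (nat_lit 0x0) (nat_lit 0x379eb4edb05400)
  (PL.C (nat_lit 0x3fb2b1c) (nat_lit 0x0) (nat_lit 0x3ee08997b00)
  (PL.C (nat_lit 0x3fb831c) (nat_lit 0x73ae253a8a6200) (nat_lit 0x0)
  (PL.C (nat_lit 0x3fe7c2c) (nat_lit 0x0) (nat_lit 0x1c3c155d789e00)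
  (PL.C (nat_lit 0x3fec191) (nat_lit 0x2eac98d2d6f7400) (nat_lit 0x0)
  (PL.C (nat_lit 0x4074974) (nat_lit 0x7dc1132f600) (nat_lit 0x0) lm1_130))))))))))))))))))))

noncomputable def lm1_128 : PL :=
  (PL.C (nat_lit 0x3d91a09) (nat_lit 0x0) (nat_lit 0x90ecd912288c0)
  (PL.C (nat_lit 0x3daffcc) (nat_lit 0x0) (nat_lit 0x8af16b5127400)
  (PL.C (nat_lit 0x3dbf76f) (nat_lit 0xc89e430699cf40) (nat_lit 0x0)
  (PL.C (nat_lit 0x3dc60b5) (nat_lit 0x0) (nat_lit 0x148ed27d7ffdbc0)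
  (PL.C (nat_lit 0x3dc9755) (nat_lit 0x20fb34d8595000) (nat_lit 0x0)
  (PL.C (nat_lit 0x3de5fa6) (nat_lit 0x78c45902236c00) (nat_lit 0x0)
  (PL.C (nat_lit 0x3de8421) (nat_lit 0x29331152bdcd00) (nat_lit 0x0)
  (PL.C (nat_lit 0x3df3042) (nat_lit 0x7116cc4463a2c0) (nat_lit 0x0)
  (PL.C (nat_lit 0x3dfeb97) (nat_lit 0x0) (nat_lit 0x883e70dcfa00)
  (PL.C (nat_lit 0x3e073df) (nat_lit 0x23af47c15bf140) (nat_lit 0x0)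
  (PL.C (nat_lit 0x3e194ef) (nat_lit 0x0) (nat_lit 0x373224eeeb100)
  (PL.C (nat_lit 0x3e2aa6f) (nat_lit 0xd470c6cb0eb00) (nat_lit 0x0)
  (PL.C (nat_lit 0x3e2bf12) (nat_lit 0x1ae79894440500) (nat_lit 0x0)
  (PL.C (nat_lit 0x3e3e4e4) (nat_lit 0x0) (nat_lit 0x96b09bf8c3b000)
  (PL.C (nat_lit 0x3e4287b) (nat_lit 0x118c84168a86700) (nat_lit 0x0)
  (PL.C (nat_lit 0x3e4b0ee) (nat_lit 0x1e05af8497200) (nat_lit 0x0)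
  (PL.C (nat_lit 0x3e5730a) (nat_lit 0x1dedb589e5c00) (nat_lit 0x0)
  (PL.C (nat_lit 0x3e69c68) (nat_lit 0x710fc5baae500) (nat_lit 0x0)
  (PL.C (nat_lit 0x3e93973) (nat_lit 0x16c1fad611f400) (nat_lit 0x0)
  (PL.C (nat_lit 0x3e9f26e) (nat_lit 0x37cc658973f800) (nat_lit 0x0) lm1_129))))))))))))))))))))

noncomputable def lm1_127 : PL :=
  (PL.C (nat_lit 0x3bc48c4) (nat_lit 0x20ba48217d7a00) (nat_lit 0x0)
  (PL.C (nat_lit 0x3bd9c5d) (nat_lit 0x1aada2d3300d700) (nat_lit 0x0)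
  (PL.C (nat_lit 0x3bddf0a) (nat_lit 0x21ca99668820c0) (nat_lit 0x0)
  (PL.C (nat_lit 0x3bf7ba3) (nat_lit 0x0) (nat_lit 0x501041374751c0)
  (PL.C (nat_lit 0x3c154c4) (nat_lit 0x1afb6a792096680) (nat_lit 0x0)
  (PL.C (nat_lit 0x3c1a914) (nat_lit 0x0) (nat_lit 0x19d3e98fa7a600)
  (PL.C (nat_lit 0x3c27b25) (nat_lit 0x0) (nat_lit 0x120695f778d200)
  (PL.C (nat_lit 0x3c45cdb) (nat_lit 0x1d5a4d7e1e080) (nat_lit 0x0)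
  (PL.C (nat_lit 0x3c56956) (nat_lit 0x1363d34ea8a9600) (nat_lit 0x0)
  (PL.C (nat_lit 0x3c63864) (nat_lit 0x0) (nat_lit 0x105d2410bebd00)
  (PL.C (nat_lit 0x3c791df) (nat_lit 0x70d067ed474000) (nat_lit 0x0)
  (PL.C (nat_lit 0x3c923ec) (nat_lit 0x0) (nat_lit 0xecafaaf504000)
  (PL.C (nat_lit 0x3c97621) (nat_lit 0x0) (nat_lit 0xc89e430699cf40)
  (PL.C (nat_lit 0x3ca5246) (nat_lit 0x0) (nat_lit 0x8ef48e0176a80)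
  (PL.C (nat_lit 0x3cb9f91) (nat_lit 0x0) (nat_lit 0x253dc5f9b9a880)
  (PL.C (nat_lit 0x3cc8fe4) (nat_lit 0x58c1e01be1800) (nat_lit 0x0)
  (PL.C (nat_lit 0x3ccaa0d) (nat_lit 0x2f3cb5afe2100) (nat_lit 0x0)
  (PL.C (nat_lit 0x3d2345f) (nat_lit 0x0) (nat_lit 0x24d288024d9640)
  (PL.C (nat_lit 0x3d6bada) (nat_lit 0x50fc9a2a67b80) (nat_lit 0x0)
  (PL.C (nat_lit 0x3d72df7) (nat_lit 0x61f0faa6856580) (nat_lit 0x0) lm1_128))))))))))))))))))))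

noncomputable def lm1_126 : PL :=
  (PL.C (nat_lit 0x3a277e2) (nat_lit 0x76a8aba0f0ff80) (nat_lit 0x0)
  (PL.C (nat_lit 0x3a34811) (nat_lit 0x603064fb80ad40) (nat_lit 0x0)
  (PL.C (nat_lit 0x3a4f5ee) (nat_lit 0xf2d4c7b154600) (nat_lit 0x0)
  (PL.C (nat_lit 0x3a66aeb) (nat_lit 0x0) (nat_lit 0x1eb61a70a0f000)
  (PL.C (nat_lit 0x3a7d0d9) (nat_lit 0x0) (nat_lit 0x411b5b4ef02700)
  (PL.C (nat_lit 0x3a9b49e) (nat_lit 0x50fc9a2a67b80) (nat_lit 0x0)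
  (PL.C (nat_lit 0x3aa3b17) (nat_lit 0x0) (nat_lit 0x2e9241269b1f40)
  (PL.C (nat_lit 0x3ad63c7) (nat_lit 0x0) (nat_lit 0x120695f778d200)
  (PL.C (nat_lit 0x3ae3cde) (nat_lit 0xf8d2f808c5680) (nat_lit 0x0)
  (PL.C (nat_lit 0x3aeeeb4) (nat_lit 0x1ceb894ea29880) (nat_lit 0x0)
  (PL.C (nat_lit 0x3b0740b) (nat_lit 0x240d2beef1a400) (nat_lit 0x0)
  (PL.C (nat_lit 0x3b10c0c) (nat_lit 0x0) (nat_lit 0x105d2410bebd00)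
  (PL.C (nat_lit 0x3b2d34e) (nat_lit 0x2f945fac7a9700) (nat_lit 0x0)
  (PL.C (nat_lit 0x3b41f5c) (nat_lit 0x20ba48217d7a00) (nat_lit 0x0)
  (PL.C (nat_lit 0x3b45fb5) (nat_lit 0x0) (nat_lit 0x37877d5704cc00)
  (PL.C (nat_lit 0x3b6081c) (nat_lit 0x0) (nat_lit 0xecafaaf504000)
  (PL.C (nat_lit 0x3b67a76) (nat_lit 0x5d2f5162744b00) (nat_lit 0x0)
  (PL.C (nat_lit 0x3b70cac) (nat_lit 0x39e6cabfab1d00) (nat_lit 0x0)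
  (PL.C (nat_lit 0x3b8955d) (nat_lit 0x240d2beef1a400) (nat_lit 0x0)
  (PL.C (nat_lit 0x3bb1612) (nat_lit 0x322d91541fb2200) (nat_lit 0x0) lm1_127))))))))))))))))))))

noncomputable def lm1_125 : PL :=
  (PL.C (nat_lit 0x3870237) (nat_lit 0x70d067ed474000) (nat_lit 0x0)
  (PL.C (nat_lit 0x388827a) (nat_lit 0x77ab4b7f7c180) (nat_lit 0x0)
  (PL.C (nat_lit 0x38a4536) (nat_lit 0x8536b644c38000) (nat_lit 0x0)
  (PL.C (nat_lit 0x38ab193) (nat_lit 0xbe62b289dce300) (nat_lit 0x0)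
  (PL.C (nat_lit 0x38b0ffb) (nat_lit 0x215635484ee4c80) (nat_lit 0x0)
  (PL.C (nat_lit 0x38c0aca) (nat_lit 0x6eaea0a6931e80) (nat_lit 0x0)
  (PL.C (nat_lit 0x38e112a) (nat_lit 0x1ae79894440500) (nat_lit 0x0)
  (PL.C (nat_lit 0x38e961c) (nat_lit 0xd4fb73274214c0) (nat_lit 0x0)
  (PL.C (nat_lit 0x38f7a93) (nat_lit 0xb7f6811087a4480) (nat_lit 0x0)
  (PL.C (nat_lit 0x38facf3) (nat_lit 0x524ecc807f600) (nat_lit 0x0)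
  (PL.C (nat_lit 0x3919a48) (nat_lit 0x710fc5baae500) (nat_lit 0x0)
  (PL.C (nat_lit 0x391d4bd) (nat_lit 0x0) (nat_lit 0x1ca5ba76154580)
  (PL.C (nat_lit 0x3934c1d) (nat_lit 0x0) (nat_lit 0x6c5e24c0c7ec00)
  (PL.C (nat_lit 0x3941d4b) (nat_lit 0x0) (nat_lit 0x5f39f330e7b500)
  (PL.C (nat_lit 0x3947ee9) (nat_lit 0x27ef03274f7c340) (nat_lit 0x0)
  (PL.C (nat_lit 0x3967a85) (nat_lit 0x0) (nat_lit 0x44cf5fca1c00)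
  (PL.C (nat_lit 0x396878e) (nat_lit 0x0) (nat_lit 0x1861b6d91b80)
  (PL.C (nat_lit 0x39dc292) (nat_lit 0x0) (nat_lit 0x62def3c53d2c00)
  (PL.C (nat_lit 0x39f472e) (nat_lit 0x0) (nat_lit 0x1e05af8497200)
  (PL.C (nat_lit 0x3a23921) (nat_lit 0x0) (nat_lit 0x24116a18bc900) lm1_126))))))))))))))))))))

noncomputable def lm1_124 : PL :=
  (PL.C (nat_lit 0x365ee64) (nat_lit 0xfe89de94bfa800) (nat_lit 0x0)
  (PL.C (nat_lit 0x36985d6) (nat_lit 0x4647f1850fa780) (nat_lit 0x0)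
  (PL.C (nat_lit 0x36a1b22) (nat_lit 0x0) (nat_lit 0x5e9454f151c0)
  (PL.C (nat_lit 0x36d6b7c) (nat_lit 0xfe89de94bfa800) (nat_lit 0x0)
  (PL.C (nat_lit 0x36e782b) (nat_lit 0x481a57dde34800) (nat_lit 0x0)
  (PL.C (nat_lit 0x3702fd5) (nat_lit 0x756935f878200) (nat_lit 0x0)
  (PL.C (nat_lit 0x371e1dc) (nat_lit 0x41749042faf400) (nat_lit 0x0)
  (PL.C (nat_lit 0x3735886) (nat_lit 0x0) (nat_lit 0x174660ba27100)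
  (PL.C (nat_lit 0x375a01a) (nat_lit 0x2754f9d102340) (nat_lit 0x0)
  (PL.C (nat_lit 0x375b06d) (nat_lit 0x0) (nat_lit 0x220f9c373e80)
  (PL.C (nat_lit 0x379b3cf) (nat_lit 0x92bce7a1d41d80) (nat_lit 0x0)
  (PL.C (nat_lit 0x37ca943) (nat_lit 0x13a68e90b5c77c0) (nat_lit 0x0)
  (PL.C (nat_lit 0x37d28ac) (nat_lit 0x4fcb10a4299e40) (nat_lit 0x0)
  (PL.C (nat_lit 0x3800a09) (nat_lit 0x0) (nat_lit 0x5f39f330e7b500)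
  (PL.C (nat_lit 0x381337b) (nat_lit 0x11e26831c4080) (nat_lit 0x0)
  (PL.C (nat_lit 0x3815c79) (nat_lit 0x10676863b1b1e00) (nat_lit 0x0)
  (PL.C (nat_lit 0x381a312) (nat_lit 0x1077c33cc68e00) (nat_lit 0x0)
  (PL.C (nat_lit 0x382f485) (nat_lit 0xbe62b289dce300) (nat_lit 0x0)
  (PL.C (nat_lit 0x383824c) (nat_lit 0x0) (nat_lit 0x19d3e98fa7a600)
  (PL.C (nat_lit 0x384d8f4) (nat_lit 0xa89092de80d400) (nat_lit 0x0) lm1_125))))))))))))))))))))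

noncomputable def lm1_123 : PL :=
  (PL.C (nat_lit 0x34ccd8a) (nat_lit 0x1797232fbe400) (nat_lit 0x0)
  (PL.C (nat_lit 0x34d307f) (nat_lit 0x388156c7a98d280) (nat_lit 0x0)
  (PL.C (nat_lit 0x34dcca6) (nat_lit 0x1403ca5864c000) (nat_lit 0x0)
  (PL.C (nat_lit 0x34ed781) (nat_lit 0x1e968e97f5d6760) (nat_lit 0x0)
  (PL.C (nat_lit 0x34f10a2) (nat_lit 0x0) (nat_lit 0xc30db6c8dc00)
  (PL.C (nat_lit 0x350baf1) (nat_lit 0x1e5d8fe6f57480) (nat_lit 0x0)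
  (PL.C (nat_lit 0x351403e) (nat_lit 0x24b93796938e00) (nat_lit 0x0)
  (PL.C (nat_lit 0x351d76d) (nat_lit 0x0) (nat_lit 0x8b57d383b6000)
  (PL.C (nat_lit 0x3527a7c) (nat_lit 0x0) (nat_lit 0x2c02df5c35d80)
  (PL.C (nat_lit 0x352a90b) (nat_lit 0x1b6f37111303f80) (nat_lit 0x0)
  (PL.C (nat_lit 0x3537eeb) (nat_lit 0x0) (nat_lit 0x16efca98b400)
  (PL.C (nat_lit 0x3552915) (nat_lit 0x0) (nat_lit 0x883e70dcfa00)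
  (PL.C (nat_lit 0x35621b7) (nat_lit 0x44725e2cd745920) (nat_lit 0x0)
  (PL.C (nat_lit 0x357db42) (nat_lit 0x0) (nat_lit 0x1403ca5864c000)
  (PL.C (nat_lit 0x35a6e9a) (nat_lit 0xdf590c71ae9a00) (nat_lit 0x0)
  (PL.C (nat_lit 0x35ca08c) (nat_lit 0x73ae253a8a6200) (nat_lit 0x0)
  (PL.C (nat_lit 0x35f5d95) (nat_lit 0xda4e7a96a431040) (nat_lit 0x0)
  (PL.C (nat_lit 0x3611be6) (nat_lit 0xeca9ca76a000) (nat_lit 0x0)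
  (PL.C (nat_lit 0x36239b6) (nat_lit 0x2f945fac7a9700) (nat_lit 0x0)
  (PL.C (nat_lit 0x365ceb9) (nat_lit 0x4847ec91efe80) (nat_lit 0x0) lm1_124))))))))))))))))))))

noncomputable def lm1_122 : PL :=
  (PL.C (nat_lit 0x333bade) (nat_lit 0x1403ca5864c000) (nat_lit 0x0)
  (PL.C (nat_lit 0x3343395) (nat_lit 0x0) (nat_lit 0x1d5a4d7e1e080)
  (PL.C (nat_lit 0x334ba3b) (nat_lit 0x1e5d8fe6f57480) (nat_lit 0x0)
  (PL.C (nat_lit 0x334fe74) (nat_lit 0x6cdbc4405cb000) (nat_lit 0x0)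
  (PL.C (nat_lit 0x3354681) (nat_lit 0x6c5823ff74d000) (nat_lit 0x0)
  (PL.C (nat_lit 0x33611a4) (nat_lit 0x0) (nat_lit 0x5ae44202499c0)
  (PL.C (nat_lit 0x33773be) (nat_lit 0x7816be125c800) (nat_lit 0x0)
  (PL.C (nat_lit 0x338ff2b) (nat_lit 0x0) (nat_lit 0xb755f3f40a00)
  (PL.C (nat_lit 0x33d93c2) (nat_lit 0x9d8761b927700) (nat_lit 0x0)
  (PL.C (nat_lit 0x33dde9c) (nat_lit 0x5e1a4ab7bf8e00) (nat_lit 0x0)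
  (PL.C (nat_lit 0x33e9c44) (nat_lit 0x30c36db23700) (nat_lit 0x0)
  (PL.C (nat_lit 0x340193d) (nat_lit 0x5379f26363600) (nat_lit 0x0)
  (PL.C (nat_lit 0x341ff6b) (nat_lit 0xa4cc454af7340) (nat_lit 0x0)
  (PL.C (nat_lit 0x342338c) (nat_lit 0x1892a5561d00) (nat_lit 0x0)
  (PL.C (nat_lit 0x3425849) (nat_lit 0x0) (nat_lit 0x18585f179417a40)
  (PL.C (nat_lit 0x3442665) (nat_lit 0x1a5d60eb6928500) (nat_lit 0x0)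
  (PL.C (nat_lit 0x3455bca) (nat_lit 0x0) (nat_lit 0xfcfe2174c7100)
  (PL.C (nat_lit 0x348ddd6) (nat_lit 0xfe55b9e5ea80) (nat_lit 0x0)
  (PL.C (nat_lit 0x348e9a7) (nat_lit 0x124bfedd5d761000) (nat_lit 0x0)
  (PL.C (nat_lit 0x34a00b2) (nat_lit 0x4995d938e7e000) (nat_lit 0x0) lm1_123))))))))))))))))))))

noncomputable def lm1_121 : PL :=
  (PL.C (nat_lit 0x3209349) (nat_lit 0x0) (nat_lit 0x1887f0d0067280)
  (PL.C (nat_lit 0x321f98c) (nat_lit 0x0) (nat_lit 0x1ceb894ea29880)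
  (PL.C (nat_lit 0x3227d34) (nat_lit 0x3f833fdd6a880) (nat_lit 0x0)
  (PL.C (nat_lit 0x323065c) (nat_lit 0x11e6f6b93f3600) (nat_lit 0x0)
  (PL.C (nat_lit 0x32372f1) (nat_lit 0x756935f878200) (nat_lit 0x0)
  (PL.C (nat_lit 0x3246042) (nat_lit 0x0) (nat_lit 0x1403ca5864c000)
  (PL.C (nat_lit 0x325050f) (nat_lit 0xd470c6cb0eb00) (nat_lit 0x0)
  (PL.C (nat_lit 0x3263dda) (nat_lit 0x1077c33cc68e00) (nat_lit 0x0)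
  (PL.C (nat_lit 0x3268c7d) (nat_lit 0x524ecc807f600) (nat_lit 0x0)
  (PL.C (nat_lit 0x326d09f) (nat_lit 0x11c56a4005100) (nat_lit 0x0)
  (PL.C (nat_lit 0x32943cf) (nat_lit 0x156f9efbdc52c0) (nat_lit 0x0)
  (PL.C (nat_lit 0x329fe6e) (nat_lit 0x4f6269f21c80) (nat_lit 0x0)
  (PL.C (nat_lit 0x32c68ac) (nat_lit 0x57d80b27262c0) (nat_lit 0x0)
  (PL.C (nat_lit 0x32ef52e) (nat_lit 0x2e15e00bff1c00) (nat_lit 0x0)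
  (PL.C (nat_lit 0x32f0d7c) (nat_lit 0x0) (nat_lit 0x6186db646e00)
  (PL.C (nat_lit 0x32f44cd) (nat_lit 0x18c2b591e700) (nat_lit 0x0)
  (PL.C (nat_lit 0x330c79b) (nat_lit 0xdd5d414d263d00) (nat_lit 0x0)
  (PL.C (nat_lit 0x3326065) (nat_lit 0x0) (nat_lit 0xa4cc454af7340)
  (PL.C (nat_lit 0x332ba54) (nat_lit 0x1892a5561d00) (nat_lit 0x0)
  (PL.C (nat_lit 0x332e335) (nat_lit 0x0) (nat_lit 0x156f9efbdc52c0) lm1_122))))))))))))))))))))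

noncomputable def lm1_120 : PL :=
  (PL.C (nat_lit 0x3036a71) (nat_lit 0x0) (nat_lit 0x1ab023e359744c0)
  (PL.C (nat_lit 0x30487e2) (nat_lit 0x2e15e00bff1c00) (nat_lit 0x0)
  (PL.C (nat_lit 0x304a751) (nat_lit 0x0) (nat_lit 0x1e9ea05b15f00)
  (PL.C (nat_lit 0x305883c) (nat_lit 0x41749042faf400) (nat_lit 0x0)
  (PL.C (nat_lit 0x305aa4d) (nat_lit 0x27ef03274f7c340) (nat_lit 0x0)
  (PL.C (nat_lit 0x30875b2) (nat_lit 0xc87466af77a800) (nat_lit 0x0)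
  (PL.C (nat_lit 0x309fa4e) (nat_lit 0x372ef9bc195fc0) (nat_lit 0x0)
  (PL.C (nat_lit 0x30b703b) (nat_lit 0x0) (nat_lit 0x23af47c15bf140)
  (PL.C (nat_lit 0x30bb66e) (nat_lit 0xf8d2f808c5680) (nat_lit 0x0)
  (PL.C (nat_lit 0x30bc163) (nat_lit 0x0) (nat_lit 0xdc642c6bc12900)
  (PL.C (nat_lit 0x30d7c5a) (nat_lit 0xdef818acb7600) (nat_lit 0x0)
  (PL.C (nat_lit 0x30ec466) (nat_lit 0x0) (nat_lit 0x24b93796938e00)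
  (PL.C (nat_lit 0x30fb89b) (nat_lit 0x4861e132b7a80) (nat_lit 0x0)
  (PL.C (nat_lit 0x310acc2) (nat_lit 0x0) (nat_lit 0xa3f5ac3776980)
  (PL.C (nat_lit 0x3132164) (nat_lit 0x6cdbc4405cb000) (nat_lit 0x0)
  (PL.C (nat_lit 0x313dd61) (nat_lit 0x0) (nat_lit 0x4a37a3eaa976c0)
  (PL.C (nat_lit 0x3171cc9) (nat_lit 0x6f9c230cf1000) (nat_lit 0x0)
  (PL.C (nat_lit 0x3192866) (nat_lit 0x7116cc4463a2c0) (nat_lit 0x0)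
  (PL.C (nat_lit 0x31fe052) (nat_lit 0x0) (nat_lit 0x4925248b5280)
  (PL.C (nat_lit 0x31feacb) (nat_lit 0x5efea559224a00) (nat_lit 0x0) lm1_121))))))))))))))))))))

noncomputable def lm1_119 : PL :=
  (PL.C (nat_lit 0x2ee5c3a) (nat_lit 0x6d472be4ab80) (nat_lit 0x0)
  (PL.C (nat_lit 0x2efd3c6) (nat_lit 0xc01b3055bfc0) (nat_lit 0x0)
  (PL.C (nat_lit 0x2f18b8f) (nat_lit 0x88ecd7d74e41780) (nat_lit 0x0)
  (PL.C (nat_lit 0x2f3b026) (nat_lit 0x0) (nat_lit 0x149ce9606b800)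
  (PL.C (nat_lit 0x2f560a7) (nat_lit 0x256d05dda24e80) (nat_lit 0x0)
  (PL.C (nat_lit 0x2f5beda) (nat_lit 0x322d91541fb2200) (nat_lit 0x0)
  (PL.C (nat_lit 0x2f61bfc) (nat_lit 0x0) (nat_lit 0xbd28a9e2a380)
  (PL.C (nat_lit 0x2f909c7) (nat_lit 0x0) (nat_lit 0x99e9168848e00)
  (PL.C (nat_lit 0x2f961c5) (nat_lit 0x697583ada4a140) (nat_lit 0x0)
  (PL.C (nat_lit 0x2f9996a) (nat_lit 0x24b93796938e00) (nat_lit 0x0)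
  (PL.C (nat_lit 0x2fd088e) (nat_lit 0x8536b644c38000) (nat_lit 0x0)
  (PL.C (nat_lit 0x2fe2d9a) (nat_lit 0x0) (nat_lit 0xc01b3055bfc0)
  (PL.C (nat_lit 0x2fe7f3e) (nat_lit 0x3d02379808ac0) (nat_lit 0x0)
  (PL.C (nat_lit 0x2fe8772) (nat_lit 0x1797232fbe400) (nat_lit 0x0)
  (PL.C (nat_lit 0x30027c6) (nat_lit 0x4995d938e7e000) (nat_lit 0x0)
  (PL.C (nat_lit 0x3013e8a) (nat_lit 0x1b265db7065800) (nat_lit 0x0)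
  (PL.C (nat_lit 0x3016e1f) (nat_lit 0x406d41a867e5480) (nat_lit 0x0)
  (PL.C (nat_lit 0x301a83a) (nat_lit 0x0) (nat_lit 0x24929245a940)
  (PL.C (nat_lit 0x3024781) (nat_lit 0x23af47c15bf140) (nat_lit 0x0)
  (PL.C (nat_lit 0x30289e3) (nat_lit 0x481a57dde34800) (nat_lit 0x0) lm1_120))))))))))))))))))))

noncomputable def lm1_118 : PL :=
  (PL.C (nat_lit 0x2c978bb) (nat_lit 0x50b9f9071b5700) (nat_lit 0x0)
  (PL.C (nat_lit 0x2cb5015) (nat_lit 0x2ab377175d540) (nat_lit 0x0)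
  (PL.C (nat_lit 0x2d165c6) (nat_lit 0xa2416033f02400) (nat_lit 0x0)
  (PL.C (nat_lit 0x2d2d9a6) (nat_lit 0x41242000932f80) (nat_lit 0x0)
  (PL.C (nat_lit 0x2d4a682) (nat_lit 0xc87466af77a800) (nat_lit 0x0)
  (PL.C (nat_lit 0x2d5bc16) (nat_lit 0x303336bfaa600) (nat_lit 0x0)
  (PL.C (nat_lit 0x2d5d6e1) (nat_lit 0x0) (nat_lit 0x287a66de3600)
  (PL.C (nat_lit 0x2d79b8a) (nat_lit 0xa2416033f02400) (nat_lit 0x0)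
  (PL.C (nat_lit 0x2d8d0a9) (nat_lit 0x2eac98d2d6f7400) (nat_lit 0x0)
  (PL.C (nat_lit 0x2da90c5) (nat_lit 0x0) (nat_lit 0x699e517ac6b00)
  (PL.C (nat_lit 0x2dbfcd3) (nat_lit 0x1a78b856ee2400) (nat_lit 0x0)
  (PL.C (nat_lit 0x2dd6b2d) (nat_lit 0x1a5d60eb6928500) (nat_lit 0x0)
  (PL.C (nat_lit 0x2de45d4) (nat_lit 0x0) (nat_lit 0x30c36db23700)
  (PL.C (nat_lit 0x2df0ddd) (nat_lit 0x756935f878200) (nat_lit 0x0)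
  (PL.C (nat_lit 0x2df793e) (nat_lit 0x7a702e880d1000) (nat_lit 0x0)
  (PL.C (nat_lit 0x2e163ae) (nat_lit 0x41242000932f80) (nat_lit 0x0)
  (PL.C (nat_lit 0x2e1f34a) (nat_lit 0x0) (nat_lit 0x1f66e992a6ea80)
  (PL.C (nat_lit 0x2e48c04) (nat_lit 0x1cfb4171088480) (nat_lit 0x0)
  (PL.C (nat_lit 0x2eba8e1) (nat_lit 0x0) (nat_lit 0x2ddf95316800)
  (PL.C (nat_lit 0x2ebbab1) (nat_lit 0x50b9f9071b5700) (nat_lit 0x0) lm1_119))))))))))))))))))))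

noncomputable def lm1_117 : PL :=
  (PL.C (nat_lit 0x2b9261e) (nat_lit 0x0) (nat_lit 0x29d4dcf08fa40)
  (PL.C (nat_lit 0x2babdeb) (nat_lit 0x0) (nat_lit 0xa62c06c8546180)
  (PL.C (nat_lit 0x2bae193) (nat_lit 0x0) (nat_lit 0x1f2678fa55100)
  (PL.C (nat_lit 0x2bc8a0c) (nat_lit 0x3f833fdd6a880) (nat_lit 0x0)
  (PL.C (nat_lit 0x2bd74dc) (nat_lit 0x0) (nat_lit 0x618b225e4e2c40)
  (PL.C (nat_lit 0x2bea302) (nat_lit 0x12341c2434d2900) (nat_lit 0x0)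
  (PL.C (nat_lit 0x2bf2672) (nat_lit 0x0) (nat_lit 0xf0ed4bfa4400)
  (PL.C (nat_lit 0x2c0512d) (nat_lit 0x0) (nat_lit 0xb81910b57c640)
  (PL.C (nat_lit 0x2c189a3) (nat_lit 0x0) (nat_lit 0x29e02825a85780)
  (PL.C (nat_lit 0x2c1ce16) (nat_lit 0x3152fc0d572bb80) (nat_lit 0x0)
  (PL.C (nat_lit 0x2c20239) (nat_lit 0x0) (nat_lit 0x1133d7f28700)
  (PL.C (nat_lit 0x2c2dc72) (nat_lit 0x0) (nat_lit 0x2350d4ce0bc680)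
  (PL.C (nat_lit 0x2c4af6e) (nat_lit 0xa3ff179e9d98c0) (nat_lit 0x0)
  (PL.C (nat_lit 0x2c56506) (nat_lit 0x2fe44ce8d400) (nat_lit 0x0)
  (PL.C (nat_lit 0x2c5dc83) (nat_lit 0x124bfedd5d761000) (nat_lit 0x0)
  (PL.C (nat_lit 0x2c674c2) (nat_lit 0x224d7290bd840) (nat_lit 0x0)
  (PL.C (nat_lit 0x2c6c076) (nat_lit 0x0) (nat_lit 0x235c87261629c0)
  (PL.C (nat_lit 0x2c7f29d) (nat_lit 0x56b2c601c6540) (nat_lit 0x0)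
  (PL.C (nat_lit 0x2c84a1e) (nat_lit 0xa2e6324a26100) (nat_lit 0x0)
  (PL.C (nat_lit 0x2c92532) (nat_lit 0x6eaea0a6931e80) (nat_lit 0x0) lm1_118))))))))))))))))))))

noncomputable def lm1_116 : PL :=
  (PL.C (nat_lit 0x2a3e83c) (nat_lit 0x0) (nat_lit 0xac305fb7d3c400)
  (PL.C (nat_lit 0x2a56d04) (nat_lit 0x5e1a4ab7bf8e00) (nat_lit 0x0)
  (PL.C (nat_lit 0x2a5e0cc) (nat_lit 0x11e6f6b93f3600) (nat_lit 0x0)
  (PL.C (nat_lit 0x2a63c75) (nat_lit 0x756935f878200) (nat_lit 0x0)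
  (PL.C (nat_lit 0x2a704ca) (nat_lit 0x0) (nat_lit 0x37cc658973f800)
  (PL.C (nat_lit 0x2a81441) (nat_lit 0x1a49497997ba00) (nat_lit 0x0)
  (PL.C (nat_lit 0x2ab254b) (nat_lit 0x9c4dab466e2400) (nat_lit 0x0)
  (PL.C (nat_lit 0x2ac2af9) (nat_lit 0x0) (nat_lit 0x2267afe50e00)
  (PL.C (nat_lit 0x2adeef7) (nat_lit 0xd470c6cb0eb00) (nat_lit 0x0)
  (PL.C (nat_lit 0x2b036c1) (nat_lit 0x0) (nat_lit 0x1f8480c104fc00)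
  (PL.C (nat_lit 0x2b17d47) (nat_lit 0x2f2e465f7c800) (nat_lit 0x0)
  (PL.C (nat_lit 0x2b344c9) (nat_lit 0x0) (nat_lit 0x9c4dab466e2400)
  (PL.C (nat_lit 0x2b3fad6) (nat_lit 0x37cc658973f800) (nat_lit 0x0)
  (PL.C (nat_lit 0x2b44492) (nat_lit 0xeca9ca76a000) (nat_lit 0x0)
  (PL.C (nat_lit 0x2b4d267) (nat_lit 0xd462bf0b6ac00) (nat_lit 0x0)
  (PL.C (nat_lit 0x2b55955) (nat_lit 0x7a6668074600) (nat_lit 0x0)
  (PL.C (nat_lit 0x2b6e336) (nat_lit 0x7876a5fd2200) (nat_lit 0x0)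
  (PL.C (nat_lit 0x2b71f36) (nat_lit 0xa11be754a6da80) (nat_lit 0x0)
  (PL.C (nat_lit 0x2b7c9e2) (nat_lit 0x1b265db7065800) (nat_lit 0x0)
  (PL.C (nat_lit 0x2b8206c) (nat_lit 0x0) (nat_lit 0x305c82a5000) lm1_117))))))))))))))))))))

noncomputable def lm1_115 : PL :=
  (PL.C (nat_lit 0x2930f8e) (nat_lit 0x3a3fbe70773a00) (nat_lit 0x0)
  (PL.C (nat_lit 0x2942b71) (nat_lit 0x5379f26363600) (nat_lit 0x0)
  (PL.C (nat_lit 0x2943fc4) (nat_lit 0xa8f42928f22300) (nat_lit 0x0)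
  (PL.C (nat_lit 0x2945816) (nat_lit 0x149988a95ee680) (nat_lit 0x0)
  (PL.C (nat_lit 0x29547ba) (nat_lit 0x0) (nat_lit 0x1be708c33c400)
  (PL.C (nat_lit 0x296634a) (nat_lit 0x0) (nat_lit 0xbc626d5546500)
  (PL.C (nat_lit 0x2971c4a) (nat_lit 0xd1152bb5bca80) (nat_lit 0x0)
  (PL.C (nat_lit 0x2972a0c) (nat_lit 0x417461498d3000) (nat_lit 0x0)
  (PL.C (nat_lit 0x29875f4) (nat_lit 0x58c1e01be1800) (nat_lit 0x0)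
  (PL.C (nat_lit 0x298f75c) (nat_lit 0xa552e4cb35400) (nat_lit 0x0)
  (PL.C (nat_lit 0x29914a5) (nat_lit 0x0) (nat_lit 0x2fb17b0652e13c0)
  (PL.C (nat_lit 0x299da47) (nat_lit 0x0) (nat_lit 0xb755f3f40a00)
  (PL.C (nat_lit 0x29b7ba2) (nat_lit 0x0) (nat_lit 0xdf45c8f0d1b80)
  (PL.C (nat_lit 0x29bf6f4) (nat_lit 0xac305fb7d3c400) (nat_lit 0x0)
  (PL.C (nat_lit 0x29d8c7e) (nat_lit 0x25753bd8aa9340) (nat_lit 0x0)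
  (PL.C (nat_lit 0x29e0b09) (nat_lit 0x256d05dda24e80) (nat_lit 0x0)
  (PL.C (nat_lit 0x29e477e) (nat_lit 0xd80394114fc00) (nat_lit 0x0)
  (PL.C (nat_lit 0x29eb0c4) (nat_lit 0x58c1e01be1800) (nat_lit 0x0)
  (PL.C (nat_lit 0x29fc444) (nat_lit 0x0) (nat_lit 0x30c36db23700)
  (PL.C (nat_lit 0x2a34137) (nat_lit 0x5efea559224a00) (nat_lit 0x0) lm1_116))))))))))))))))))))

noncomputable def lm1_114 : PL :=
  (PL.C (nat_lit 0x27d85d8) (nat_lit 0xe21f8b755ca00) (nat_lit 0x0)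
  (PL.C (nat_lit 0x27e683e) (nat_lit 0x3152fc0d572bb80) (nat_lit 0x0)
  (PL.C (nat_lit 0x27fa7c2) (nat_lit 0x3e0c597b17ab00) (nat_lit 0x0)
  (PL.C (nat_lit 0x281a76e) (nat_lit 0x0) (nat_lit 0x1ae79894440500)
  (PL.C (nat_lit 0x282b999) (nat_lit 0x697583ada4a140) (nat_lit 0x0)
  (PL.C (nat_lit 0x282c8e9) (nat_lit 0xa09d64ec5ba380) (nat_lit 0x0)
  (PL.C (nat_lit 0x282e892) (nat_lit 0x1e05af8497200) (nat_lit 0x0)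
  (PL.C (nat_lit 0x2842598) (nat_lit 0x0) (nat_lit 0x710fc5baae500)
  (PL.C (nat_lit 0x2850bea) (nat_lit 0x386833f6a3a000) (nat_lit 0x0)
  (PL.C (nat_lit 0x286e184) (nat_lit 0x0) (nat_lit 0x5acf7c8a10280)
  (PL.C (nat_lit 0x287bfb6) (nat_lit 0x0) (nat_lit 0x24b93796938e00)
  (PL.C (nat_lit 0x288715e) (nat_lit 0x1dedb589e5c00) (nat_lit 0x0)
  (PL.C (nat_lit 0x28984db) (nat_lit 0xaa50e9ae68b80) (nat_lit 0x0)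
  (PL.C (nat_lit 0x28b31f5) (nat_lit 0xde6deab3adbc0) (nat_lit 0x0)
  (PL.C (nat_lit 0x28c22ea) (nat_lit 0x1363d34ea8a9600) (nat_lit 0x0)
  (PL.C (nat_lit 0x28e39cf) (nat_lit 0x0) (nat_lit 0x1e057c4f81580)
  (PL.C (nat_lit 0x28f273c) (nat_lit 0xed3d532407100) (nat_lit 0x0)
  (PL.C (nat_lit 0x28f73fa) (nat_lit 0xdf590c71ae9a00) (nat_lit 0x0)
  (PL.C (nat_lit 0x290bc06) (nat_lit 0x0) (nat_lit 0x8917c9bb7de80)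
  (PL.C (nat_lit 0x2923c2f) (nat_lit 0x0) (nat_lit 0x591e56ea685840) lm1_115))))))))))))))))))))

noncomputable def lm1_113 : PL :=
  (PL.C (nat_lit 0x26c4fec) (nat_lit 0x3f13d0f5f84080) (nat_lit 0x0)
  (PL.C (nat_lit 0x26c8011) (nat_lit 0x756935f878200) (nat_lit 0x0)
  (PL.C (nat_lit 0x26cdab6) (nat_lit 0x7a702e880d1000) (nat_lit 0x0)
  (PL.C (nat_lit 0x26d500d) (nat_lit 0x6f9c230cf1000) (nat_lit 0x0)
  (PL.C (nat_lit 0x26ef1f2) (nat_lit 0x0) (nat_lit 0x2adffa60f2b380)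
  (PL.C (nat_lit 0x26ff799) (nat_lit 0xd7871827c3c0) (nat_lit 0x0)
  (PL.C (nat_lit 0x2712314) (nat_lit 0xed3d532407100) (nat_lit 0x0)
  (PL.C (nat_lit 0x2717cba) (nat_lit 0x0) (nat_lit 0x4d02edc201e00)
  (PL.C (nat_lit 0x271ba41) (nat_lit 0x435141c77a600) (nat_lit 0x0)
  (PL.C (nat_lit 0x2722533) (nat_lit 0x0) (nat_lit 0x16efca98b400)
  (PL.C (nat_lit 0x27397da) (nat_lit 0x0) (nat_lit 0x1ae79894440500)
  (PL.C (nat_lit 0x2742894) (nat_lit 0xfaa9d45c22a80) (nat_lit 0x0)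
  (PL.C (nat_lit 0x275a2b2) (nat_lit 0x35cf3128880a00) (nat_lit 0x0)
  (PL.C (nat_lit 0x2760808) (nat_lit 0x0) (nat_lit 0x710fc5baae500)
  (PL.C (nat_lit 0x2773335) (nat_lit 0x388156c7a98d280) (nat_lit 0x0)
  (PL.C (nat_lit 0x27814e8) (nat_lit 0xe21f8b755ca00) (nat_lit 0x0)
  (PL.C (nat_lit 0x2783c2b) (nat_lit 0x0) (nat_lit 0xd470c6cb0eb00)
  (PL.C (nat_lit 0x2783fce) (nat_lit 0x0) (nat_lit 0x16f5f1f4793cc0)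
  (PL.C (nat_lit 0x27b0e3e) (nat_lit 0x35cf3128880a00) (nat_lit 0x0)
  (PL.C (nat_lit 0x27c1c0b) (nat_lit 0x13a68e90b5c77c0) (nat_lit 0x0) lm1_114))))))))))))))))))))

noncomputable def lm1_112 : PL :=
  (PL.C (nat_lit 0x2587101) (nat_lit 0x11c56a4005100) (nat_lit 0x0)
  (PL.C (nat_lit 0x25a017a) (nat_lit 0x386833f6a3a000) (nat_lit 0x0)
  (PL.C (nat_lit 0x25c2e24) (nat_lit 0xf5b5ec0dcf7600) (nat_lit 0x0)
  (PL.C (nat_lit 0x25c7662) (nat_lit 0x5f4d51eb3ad740) (nat_lit 0x0)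
  (PL.C (nat_lit 0x25cb552) (nat_lit 0x39233a8eb928d00) (nat_lit 0x0)
  (PL.C (nat_lit 0x25d9c37) (nat_lit 0x238ad4800a200) (nat_lit 0x0)
  (PL.C (nat_lit 0x25eb61c) (nat_lit 0x417461498d3000) (nat_lit 0x0)
  (PL.C (nat_lit 0x25fc8a2) (nat_lit 0x201d9e2ebab80) (nat_lit 0x0)
  (PL.C (nat_lit 0x261387e) (nat_lit 0x1acd8e65414700) (nat_lit 0x0)
  (PL.C (nat_lit 0x26232be) (nat_lit 0x4647f1850fa780) (nat_lit 0x0)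
  (PL.C (nat_lit 0x2625d0b) (nat_lit 0x0) (nat_lit 0x61525eb8466c0)
  (PL.C (nat_lit 0x262be32) (nat_lit 0x0) (nat_lit 0x2fb8f23ec04040)
  (PL.C (nat_lit 0x262d2d1) (nat_lit 0x11c56a4005100) (nat_lit 0x0)
  (PL.C (nat_lit 0x262ff46) (nat_lit 0xc3de17bd5d6ac0) (nat_lit 0x0)
  (PL.C (nat_lit 0x2640675) (nat_lit 0xde6deab3adbc0) (nat_lit 0x0)
  (PL.C (nat_lit 0x26451ae) (nat_lit 0x0) (nat_lit 0xb4b1f8fbb300)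
  (PL.C (nat_lit 0x269e95f) (nat_lit 0x3041f3e1dd1f980) (nat_lit 0x0)
  (PL.C (nat_lit 0x26a2f74) (nat_lit 0x0) (nat_lit 0x58c1e01be1800)
  (PL.C (nat_lit 0x26b1ea1) (nat_lit 0x29331152bdcd00) (nat_lit 0x0)
  (PL.C (nat_lit 0x26c2616) (nat_lit 0x0) (nat_lit 0x5522f3db778c0) lm1_113))))))))))))))))))))

noncomputable def lm1_111 : PL :=
  (PL.C (nat_lit 0x240bd44) (nat_lit 0x0) (nat_lit 0x22d03b531f8200)
  (PL.C (nat_lit 0x243df26) (nat_lit 0x0) (nat_lit 0x8ef48e0176a80)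
  (PL.C (nat_lit 0x247344b) (nat_lit 0x0) (nat_lit 0x1278d923545ec0)
  (PL.C (nat_lit 0x2494b69) (nat_lit 0x193ffdd5129ce80) (nat_lit 0x0)
  (PL.C (nat_lit 0x249a572) (nat_lit 0x6b9e6251101400) (nat_lit 0x0)
  (PL.C (nat_lit 0x24aca8e) (nat_lit 0x7816be125c800) (nat_lit 0x0)
  (PL.C (nat_lit 0x24bebe8) (nat_lit 0x1c43f16eab9400) (nat_lit 0x0)
  (PL.C (nat_lit 0x24c24f1) (nat_lit 0x475e8f82b7e280) (nat_lit 0x0)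
  (PL.C (nat_lit 0x24dd8d7) (nat_lit 0x0) (nat_lit 0x149c81f675a340)
  (PL.C (nat_lit 0x24e6abc) (nat_lit 0xe05b9d027e00) (nat_lit 0x0)
  (PL.C (nat_lit 0x24e759e) (nat_lit 0x0) (nat_lit 0x5e9454f151c0)
  (PL.C (nat_lit 0x251228a) (nat_lit 0xa3ff179e9d98c0) (nat_lit 0x0)
  (PL.C (nat_lit 0x2531b82) (nat_lit 0x3c5a9573267b00) (nat_lit 0x0)
  (PL.C (nat_lit 0x253956f) (nat_lit 0x0) (nat_lit 0xebad90b0b7900)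
  (PL.C (nat_lit 0x254096d) (nat_lit 0x895b58d5a2680) (nat_lit 0x0)
  (PL.C (nat_lit 0x2555c06) (nat_lit 0x0) (nat_lit 0x2fb8f23ec04040)
  (PL.C (nat_lit 0x2562252) (nat_lit 0x0) (nat_lit 0x17f9fab1600)
  (PL.C (nat_lit 0x2563da6) (nat_lit 0x12341c2434d2900) (nat_lit 0x0)
  (PL.C (nat_lit 0x2573bcf) (nat_lit 0x118c84168a86700) (nat_lit 0x0)
  (PL.C (nat_lit 0x2574dae) (nat_lit 0x5f4d51eb3ad740) (nat_lit 0x0) lm1_112))))))))))))))))))))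

noncomputable def lm1_110 : PL :=
  (PL.C (nat_lit 0x23155cc) (nat_lit 0xd9bd6d8d9f9880) (nat_lit 0x0)
  (PL.C (nat_lit 0x23171d3) (nat_lit 0x37dca8f6967cc0) (nat_lit 0x0)
  (PL.C (nat_lit 0x23375aa) (nat_lit 0x12554572fe17980) (nat_lit 0x0)
  (PL.C (nat_lit 0x233ddc4) (nat_lit 0x3b2beabd410000) (nat_lit 0x0)
  (PL.C (nat_lit 0x2359eed) (nat_lit 0x11e26831c4080) (nat_lit 0x0)
  (PL.C (nat_lit 0x235d1f6) (nat_lit 0x1ddf85c18d1c80) (nat_lit 0x0)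
  (PL.C (nat_lit 0x2362ad4) (nat_lit 0x6cdbc4405cb000) (nat_lit 0x0)
  (PL.C (nat_lit 0x2368f9e) (nat_lit 0x0) (nat_lit 0x97933e7d74e00)
  (PL.C (nat_lit 0x23783a9) (nat_lit 0x552c624c82cf00) (nat_lit 0x0)
  (PL.C (nat_lit 0x237a9f2) (nat_lit 0x2fe44ce8d400) (nat_lit 0x0)
  (PL.C (nat_lit 0x238c60e) (nat_lit 0x0) (nat_lit 0x1be708c33c400)
  (PL.C (nat_lit 0x23a12c3) (nat_lit 0x2314b292e786b00) (nat_lit 0x0)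
  (PL.C (nat_lit 0x23a922c) (nat_lit 0x0) (nat_lit 0x3b2beabd410000)
  (PL.C (nat_lit 0x23aed21) (nat_lit 0x0) (nat_lit 0x1eb61a70a0f000)
  (PL.C (nat_lit 0x23c0adf) (nat_lit 0x0) (nat_lit 0x27d1c37c2a240)
  (PL.C (nat_lit 0x23c49bc) (nat_lit 0x16dcffe7328b580) (nat_lit 0x0)
  (PL.C (nat_lit 0x23c664f) (nat_lit 0x25427e389cf040) (nat_lit 0x0)
  (PL.C (nat_lit 0x23cf8fb) (nat_lit 0xbcff8fa29800) (nat_lit 0x0)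
  (PL.C (nat_lit 0x23d516f) (nat_lit 0x224f42839380) (nat_lit 0x0)
  (PL.C (nat_lit 0x2400081) (nat_lit 0x29331152bdcd00) (nat_lit 0x0) lm1_111))))))))))))))))))))

noncomputable def lm1_109 : PL :=
  (PL.C (nat_lit 0x21bfef4) (nat_lit 0x61c74ae74280) (nat_lit 0x0)
  (PL.C (nat_lit 0x21cca17) (nat_lit 0x0) (nat_lit 0x1887f0d0067280)
  (PL.C (nat_lit 0x21e9c4d) (nat_lit 0x943db5b1b97ab00) (nat_lit 0x0)
  (PL.C (nat_lit 0x2208512) (nat_lit 0x6eaea0a6931e80) (nat_lit 0x0)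
  (PL.C (nat_lit 0x221ecce) (nat_lit 0x0) (nat_lit 0x15b874db7e6a80)
  (PL.C (nat_lit 0x2227c94) (nat_lit 0x3b2beabd410000) (nat_lit 0x0)
  (PL.C (nat_lit 0x222cd0e) (nat_lit 0x0) (nat_lit 0x1e05af8497200)
  (PL.C (nat_lit 0x22326d2) (nat_lit 0x1ddf85c18d1c80) (nat_lit 0x0)
  (PL.C (nat_lit 0x2238456) (nat_lit 0x6c4613f64fc240) (nat_lit 0x0)
  (PL.C (nat_lit 0x224702d) (nat_lit 0x0) (nat_lit 0x9c4dab466e2400)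
  (PL.C (nat_lit 0x224f7d4) (nat_lit 0x16307806f86000) (nat_lit 0x0)
  (PL.C (nat_lit 0x225ff72) (nat_lit 0x0) (nat_lit 0x7e7556a2ef00)
  (PL.C (nat_lit 0x2290d2c) (nat_lit 0x1cfb4171088480) (nat_lit 0x0)
  (PL.C (nat_lit 0x22abb7e) (nat_lit 0x3db648ab8e6b00) (nat_lit 0x0)
  (PL.C (nat_lit 0x22ba72b) (nat_lit 0xd7871827c3c0) (nat_lit 0x0)
  (PL.C (nat_lit 0x22c63a7) (nat_lit 0x0) (nat_lit 0x11c56a4005100)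
  (PL.C (nat_lit 0x22d6eee) (nat_lit 0xd2eb075b494280) (nat_lit 0x0)
  (PL.C (nat_lit 0x22ee823) (nat_lit 0x9c4dab466e2400) (nat_lit 0x0)
  (PL.C (nat_lit 0x22f23b1) (nat_lit 0x0) (nat_lit 0x149c81f675a340)
  (PL.C (nat_lit 0x23093e4) (nat_lit 0x385f72049700) (nat_lit 0x0) lm1_110))))))))))))))))))))

noncomputable def lm1_108 : PL :=
  (PL.C (nat_lit 0x20a9c93) (nat_lit 0x72dcf5daaa80) (nat_lit 0x0)
  (PL.C (nat_lit 0x20bbe07) (nat_lit 0x1a49497997ba00) (nat_lit 0x0)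
  (PL.C (nat_lit 0x20eb9bd) (nat_lit 0x0) (nat_lit 0x591e56ea685840)
  (PL.C (nat_lit 0x20f6886) (nat_lit 0xa2e6324a26100) (nat_lit 0x0)
  (PL.C (nat_lit 0x2116785) (nat_lit 0x193ffdd5129ce80) (nat_lit 0x0)
  (PL.C (nat_lit 0x212707b) (nat_lit 0x0) (nat_lit 0x2e9241269b1f40)
  (PL.C (nat_lit 0x2139f4b) (nat_lit 0x0) (nat_lit 0x99e9168848e00)
  (PL.C (nat_lit 0x214d4c9) (nat_lit 0x16c1fad611f400) (nat_lit 0x0)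
  (PL.C (nat_lit 0x2154732) (nat_lit 0x5f4e9e53d72400) (nat_lit 0x0)
  (PL.C (nat_lit 0x215a0e3) (nat_lit 0x0) (nat_lit 0x1f2678fa55100)
  (PL.C (nat_lit 0x215b786) (nat_lit 0x1c50d4ed79be700) (nat_lit 0x0)
  (PL.C (nat_lit 0x2161c65) (nat_lit 0x0) (nat_lit 0x44cf5fca1c00)
  (PL.C (nat_lit 0x217016d) (nat_lit 0x0) (nat_lit 0x24116a18bc900)
  (PL.C (nat_lit 0x217a1f6) (nat_lit 0xb2cb590e98900) (nat_lit 0x0)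
  (PL.C (nat_lit 0x218402c) (nat_lit 0x0) (nat_lit 0x3b2beabd410000)
  (PL.C (nat_lit 0x2186491) (nat_lit 0x26476202192b80) (nat_lit 0x0)
  (PL.C (nat_lit 0x218ae0a) (nat_lit 0xd1152bb5bca80) (nat_lit 0x0)
  (PL.C (nat_lit 0x219b2fe) (nat_lit 0x201d9e2ebab80) (nat_lit 0x0)
  (PL.C (nat_lit 0x219e06a) (nat_lit 0x23d315f2a8800) (nat_lit 0x0)
  (PL.C (nat_lit 0x21b828a) (nat_lit 0x15b874db7e6a80) (nat_lit 0x0) lm1_109))))))))))))))))))))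

noncomputable def lm1_107 : PL :=
  (PL.C (nat_lit 0x200d45c) (nat_lit 0x41749042faf400) (nat_lit 0x0)
  (PL.C (nat_lit 0x200edf7) (nat_lit 0xead26bf0f0400) (nat_lit 0x0)
  (PL.C (nat_lit 0x201b142) (nat_lit 0x6b9e6251101400) (nat_lit 0x0)
  (PL.C (nat_lit 0x20246f6) (nat_lit 0x23ab29b52499940) (nat_lit 0x0)
  (PL.C (nat_lit 0x2031a36) (nat_lit 0x4a25841c1bc00) (nat_lit 0x0)
  (PL.C (nat_lit 0x203a2f7) (nat_lit 0x1fa487b2078d900) (nat_lit 0x0)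
  (PL.C (nat_lit 0x203b028) (nat_lit 0x1c43f16eab9400) (nat_lit 0x0)
  (PL.C (nat_lit 0x203c6de) (nat_lit 0xc3de17bd5d6ac0) (nat_lit 0x0)
  (PL.C (nat_lit 0x204a509) (nat_lit 0x0) (nat_lit 0x1ab023e359744c0)
  (PL.C (nat_lit 0x205a3cc) (nat_lit 0x1373d1712b1b400) (nat_lit 0x0)
  (PL.C (nat_lit 0x205cbf9) (nat_lit 0x435141c77a600) (nat_lit 0x0)
  (PL.C (nat_lit 0x206424f) (nat_lit 0x0) (nat_lit 0x756935f878200)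
  (PL.C (nat_lit 0x20745b1) (nat_lit 0xd470c6cb0eb00) (nat_lit 0x0)
  (PL.C (nat_lit 0x207cef4) (nat_lit 0xfaa9d45c22a80) (nat_lit 0x0)
  (PL.C (nat_lit 0x207d642) (nat_lit 0x8548f4a24a3e80) (nat_lit 0x0)
  (PL.C (nat_lit 0x2086e21) (nat_lit 0x0) (nat_lit 0x11c56a4005100)
  (PL.C (nat_lit 0x2099d1b) (nat_lit 0x1a78b856ee2400) (nat_lit 0x0)
  (PL.C (nat_lit 0x209d844) (nat_lit 0x0) (nat_lit 0x6cdbc4405cb000)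
  (PL.C (nat_lit 0x20a64e9) (nat_lit 0x0) (nat_lit 0x1133d7f28700)
  (PL.C (nat_lit 0x20a7b12) (nat_lit 0x0) (nat_lit 0x437c406743780) lm1_108))))))))))))))))))))

noncomputable def lm1_106 : PL :=
  (PL.C (nat_lit 0x1ec50b7) (nat_lit 0x0) (nat_lit 0x108fb84ce6d080)
  (PL.C (nat_lit 0x1ecda37) (nat_lit 0x0) (nat_lit 0xebad90b0b7900)
  (PL.C (nat_lit 0x1f27096) (nat_lit 0x0) (nat_lit 0x6186db646e00)
  (PL.C (nat_lit 0x1f27c76) (nat_lit 0x0) (nat_lit 0x19c15349d93380)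
  (PL.C (nat_lit 0x1f43d7c) (nat_lit 0x1892a5561d00) (nat_lit 0x0)
  (PL.C (nat_lit 0x1f50c09) (nat_lit 0x0) (nat_lit 0x16efca98b400)
  (PL.C (nat_lit 0x1f57593) (nat_lit 0xe5bb30c9eda800) (nat_lit 0x0)
  (PL.C (nat_lit 0x1f65d0a) (nat_lit 0x0) (nat_lit 0x217d9f6fa722600)
  (PL.C (nat_lit 0x1f725e1) (nat_lit 0x0) (nat_lit 0x15b0e42c51e380)
  (PL.C (nat_lit 0x1f7cac4) (nat_lit 0x0) (nat_lit 0xee001b9b09600)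
  (PL.C (nat_lit 0x1f8eb1a) (nat_lit 0x24dca1a2545200) (nat_lit 0x0)
  (PL.C (nat_lit 0x1fae6f5) (nat_lit 0x0) (nat_lit 0x756935f878200)
  (PL.C (nat_lit 0x1fb5bda) (nat_lit 0x0) (nat_lit 0x99bc7c70e5b80)
  (PL.C (nat_lit 0x1fbbb9c) (nat_lit 0x6cdbc4405cb000) (nat_lit 0x0)
  (PL.C (nat_lit 0x1fc8d41) (nat_lit 0xead26bf0f0400) (nat_lit 0x0)
  (PL.C (nat_lit 0x1fe05b4) (nat_lit 0xf5b5ec0dcf7600) (nat_lit 0x0)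
  (PL.C (nat_lit 0x1fed84b) (nat_lit 0x481a57dde34800) (nat_lit 0x0)
  (PL.C (nat_lit 0x1ff9bf9) (nat_lit 0x0) (nat_lit 0x883e70dcfa00)
  (PL.C (nat_lit 0x2001a84) (nat_lit 0xd9bd6d8d9f9880) (nat_lit 0x0)
  (PL.C (nat_lit 0x2009c07) (nat_lit 0x1133d7f28700) (nat_lit 0x0) lm1_107))))))))))))))))))))

noncomputable def lm1_105 : PL :=
  (PL.C (nat_lit 0x1e0a9e9) (nat_lit 0x32443c9e9f7e40) (nat_lit 0x0)
  (PL.C (nat_lit 0x1e0ee84) (nat_lit 0x938376e9d5b980) (nat_lit 0x0)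
  (PL.C (nat_lit 0x1e13b0f) (nat_lit 0x1fa487b2078d900) (nat_lit 0x0)
  (PL.C (nat_lit 0x1e1f365) (nat_lit 0x0) (nat_lit 0x46caff0264880)
  (PL.C (nat_lit 0x1e2e49b) (nat_lit 0x240e11a073300) (nat_lit 0x0)
  (PL.C (nat_lit 0x1e319ac) (nat_lit 0x1373d1712b1b400) (nat_lit 0x0)
  (PL.C (nat_lit 0x1e331cb) (nat_lit 0x29c8b59e91c1480) (nat_lit 0x0)
  (PL.C (nat_lit 0x1e3e496) (nat_lit 0x0) (nat_lit 0x149ce9606b800)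
  (PL.C (nat_lit 0x1e49a7f) (nat_lit 0x0) (nat_lit 0x8b57d383b6000)
  (PL.C (nat_lit 0x1e5125c) (nat_lit 0x938376e9d5b980) (nat_lit 0x0)
  (PL.C (nat_lit 0x1e63c45) (nat_lit 0x1a5d60eb6928500) (nat_lit 0x0)
  (PL.C (nat_lit 0x1e70b2e) (nat_lit 0x0) (nat_lit 0x1620b9ba6e8c0)
  (PL.C (nat_lit 0x1e7fde2) (nat_lit 0x1ace695a2ab000) (nat_lit 0x0)
  (PL.C (nat_lit 0x1e86b11) (nat_lit 0x33b53dab589a040) (nat_lit 0x0)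
  (PL.C (nat_lit 0x1e8f21e) (nat_lit 0xd2eb075b494280) (nat_lit 0x0)
  (PL.C (nat_lit 0x1ea093e) (nat_lit 0xb2cb590e98900) (nat_lit 0x0)
  (PL.C (nat_lit 0x1ea50d4) (nat_lit 0xae30fb366f0480) (nat_lit 0x0)
  (PL.C (nat_lit 0x1eacbd9) (nat_lit 0x676a3deaad93100) (nat_lit 0x0)
  (PL.C (nat_lit 0x1eae6f9) (nat_lit 0x330e9888ff1600) (nat_lit 0x0)
  (PL.C (nat_lit 0x1ec1017) (nat_lit 0x0) (nat_lit 0x2dedf088a0e80) lm1_106))))))))))))))))))))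

noncomputable def lm1_104 : PL :=
  (PL.C (nat_lit 0x1d46cac) (nat_lit 0x2a9bfa2ab9f1f00) (nat_lit 0x0)
  (PL.C (nat_lit 0x1d4c44c) (nat_lit 0x0) (nat_lit 0x6186db646e00)
  (PL.C (nat_lit 0x1d65bc2) (nat_lit 0xa7465c4832e0) (nat_lit 0x0)
  (PL.C (nat_lit 0x1d68964) (nat_lit 0x3bd6781ec3d9a00) (nat_lit 0x0)
  (PL.C (nat_lit 0x1d6ac26) (nat_lit 0x0) (nat_lit 0x24929245a940)
  (PL.C (nat_lit 0x1d7cdef) (nat_lit 0x156f9efbdc52c0) (nat_lit 0x0)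
  (PL.C (nat_lit 0x1d80035) (nat_lit 0x0) (nat_lit 0xa62c06c8546180)
  (PL.C (nat_lit 0x1d874f4) (nat_lit 0x15008acff7aee40) (nat_lit 0x0)
  (PL.C (nat_lit 0x1d8ee04) (nat_lit 0x411824db5b00) (nat_lit 0x0)
  (PL.C (nat_lit 0x1d905a1) (nat_lit 0x38642e71534300) (nat_lit 0x0)
  (PL.C (nat_lit 0x1d9a32c) (nat_lit 0x57d80b27262c0) (nat_lit 0x0)
  (PL.C (nat_lit 0x1d9d5a4) (nat_lit 0x0) (nat_lit 0x618b225e4e2c40)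
  (PL.C (nat_lit 0x1d9f25f) (nat_lit 0x37dca8f6967cc0) (nat_lit 0x0)
  (PL.C (nat_lit 0x1da66bd) (nat_lit 0x6f9c230cf1000) (nat_lit 0x0)
  (PL.C (nat_lit 0x1daa1be) (nat_lit 0x2754f9d102340) (nat_lit 0x0)
  (PL.C (nat_lit 0x1dadc14) (nat_lit 0x188bb6191e1b80) (nat_lit 0x0)
  (PL.C (nat_lit 0x1db00ef) (nat_lit 0x4715a90014400) (nat_lit 0x0)
  (PL.C (nat_lit 0x1dba5d2) (nat_lit 0x0) (nat_lit 0x19c15349d93380)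
  (PL.C (nat_lit 0x1dce00e) (nat_lit 0x2bb0a3ea151c0) (nat_lit 0x0)
  (PL.C (nat_lit 0x1df120d) (nat_lit 0x29c8b59e91c1480) (nat_lit 0x0) lm1_105))))))))))))))))))))

noncomputable def lm1_103 : PL :=
  (PL.C (nat_lit 0x1c81ca6) (nat_lit 0x0) (nat_lit 0x4925248b5280)
  (PL.C (nat_lit 0x1c882b3) (nat_lit 0x0) (nat_lit 0x37877d5704cc00)
  (PL.C (nat_lit 0x1c90233) (nat_lit 0x5d3b7c3d2a0b00) (nat_lit 0x0)
  (PL.C (nat_lit 0x1c949fa) (nat_lit 0xd1152bb5bca80) (nat_lit 0x0)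
  (PL.C (nat_lit 0x1ca0c41) (nat_lit 0x676a3deaad93100) (nat_lit 0x0)
  (PL.C (nat_lit 0x1cba8da) (nat_lit 0x1797232fbe400) (nat_lit 0x0)
  (PL.C (nat_lit 0x1cbeac5) (nat_lit 0x109f4571c9041c0) (nat_lit 0x0)
  (PL.C (nat_lit 0x1ccd886) (nat_lit 0x0) (nat_lit 0x9a664a3b740000)
  (PL.C (nat_lit 0x1cd51e4) (nat_lit 0xac305fb7d3c400) (nat_lit 0x0)
  (PL.C (nat_lit 0x1cd830c) (nat_lit 0x0) (nat_lit 0x22d03b531f8200)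
  (PL.C (nat_lit 0x1cde19a) (nat_lit 0xd80394114fc00) (nat_lit 0x0)
  (PL.C (nat_lit 0x1ce105f) (nat_lit 0x481a57dde34800) (nat_lit 0x0)
  (PL.C (nat_lit 0x1ce3b8e) (nat_lit 0xfac48b4be5880) (nat_lit 0x0)
  (PL.C (nat_lit 0x1cef7a1) (nat_lit 0x0) (nat_lit 0x156f9efbdc52c0)
  (PL.C (nat_lit 0x1cf4224) (nat_lit 0x30c36db23700) (nat_lit 0x0)
  (PL.C (nat_lit 0x1cf6a24) (nat_lit 0x1ded05ef766a4c0) (nat_lit 0x0)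
  (PL.C (nat_lit 0x1cfdbec) (nat_lit 0x41749042faf400) (nat_lit 0x0)
  (PL.C (nat_lit 0x1d0c414) (nat_lit 0x0) (nat_lit 0x5ae44202499c0)
  (PL.C (nat_lit 0x1d0e39f) (nat_lit 0x61bee3e2bf13500) (nat_lit 0x0)
  (PL.C (nat_lit 0x1d1d3f2) (nat_lit 0x0) (nat_lit 0xc2d84e9340d6c0) lm1_104))))))))))))))))))))

noncomputable def lm1_102 : PL :=
  (PL.C (nat_lit 0x1bbe6da) (nat_lit 0x0) (nat_lit 0x7e7556a2ef00)
  (PL.C (nat_lit 0x1bc3aa1) (nat_lit 0x0) (nat_lit 0x8cf128071600)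
  (PL.C (nat_lit 0x1bca371) (nat_lit 0x0) (nat_lit 0xdc642c6bc12900)
  (PL.C (nat_lit 0x1be3b6b) (nat_lit 0x0) (nat_lit 0x3f06a9e598b00)
  (PL.C (nat_lit 0x1beb206) (nat_lit 0x24dca1a2545200) (nat_lit 0x0)
  (PL.C (nat_lit 0x1beda54) (nat_lit 0x2292934ab88200) (nat_lit 0x0)
  (PL.C (nat_lit 0x1bee659) (nat_lit 0x7a6668074600) (nat_lit 0x0)
  (PL.C (nat_lit 0x1c00d97) (nat_lit 0x0) (nat_lit 0x24cd9ae0497600)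
  (PL.C (nat_lit 0x1c11361) (nat_lit 0x23af47c15bf140) (nat_lit 0x0)
  (PL.C (nat_lit 0x1c1433b) (nat_lit 0x0) (nat_lit 0x2fb17b0652e13c0)
  (PL.C (nat_lit 0x1c22b7a) (nat_lit 0x5f4e9e53d72400) (nat_lit 0x0)
  (PL.C (nat_lit 0x1c23c0f) (nat_lit 0x8ebd1f056fc500) (nat_lit 0x0)
  (PL.C (nat_lit 0x1c4284e) (nat_lit 0xb2cb590e98900) (nat_lit 0x0)
  (PL.C (nat_lit 0x1c4addc) (nat_lit 0x0) (nat_lit 0xac305fb7d3c400)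
  (PL.C (nat_lit 0x1c4cc95) (nat_lit 0xbb38c850d84aac0) (nat_lit 0x0)
  (PL.C (nat_lit 0x1c562d6) (nat_lit 0x196df37dbbe200) (nat_lit 0x0)
  (PL.C (nat_lit 0x1c71a1d) (nat_lit 0x14507eea2e30100) (nat_lit 0x0)
  (PL.C (nat_lit 0x1c76943) (nat_lit 0x4715a90014400) (nat_lit 0x0)
  (PL.C (nat_lit 0x1c76e32) (nat_lit 0x9a664a3b740000) (nat_lit 0x0)
  (PL.C (nat_lit 0x1c7fde3) (nat_lit 0x109f4571c9041c0) (nat_lit 0x0) lm1_103))))))))))))))))))))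

noncomputable def lm1_101 : PL :=
  (PL.C (nat_lit 0x1b04b94) (nat_lit 0xa552e4cb35400) (nat_lit 0x0)
  (PL.C (nat_lit 0x1b0fe13) (nat_lit 0xead26bf0f0400) (nat_lit 0x0)
  (PL.C (nat_lit 0x1b2214e) (nat_lit 0x10abd6939173340) (nat_lit 0x0)
  (PL.C (nat_lit 0x1b34713) (nat_lit 0x2314b292e786b00) (nat_lit 0x0)
  (PL.C (nat_lit 0x1b3c20d) (nat_lit 0x2c07743d2d0c0) (nat_lit 0x0)
  (PL.C (nat_lit 0x1b420ed) (nat_lit 0x0) (nat_lit 0x1ca5ba76154580)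
  (PL.C (nat_lit 0x1b4268a) (nat_lit 0x0) (nat_lit 0x1f72b19d16b80)
  (PL.C (nat_lit 0x1b4f7fc) (nat_lit 0x16dcffe7328b580) (nat_lit 0x0)
  (PL.C (nat_lit 0x1b57dcb) (nat_lit 0x0) (nat_lit 0x756935f878200)
  (PL.C (nat_lit 0x1b5ac69) (nat_lit 0x11aa1faad021600) (nat_lit 0x0)
  (PL.C (nat_lit 0x1b6d2ca) (nat_lit 0x1a2b09ddc314240) (nat_lit 0x0)
  (PL.C (nat_lit 0x1b75fb4) (nat_lit 0x52e67085d4a100) (nat_lit 0x0)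
  (PL.C (nat_lit 0x1b7cdf1) (nat_lit 0x1a5d60eb6928500) (nat_lit 0x0)
  (PL.C (nat_lit 0x1b81cf6) (nat_lit 0x3db648ab8e6b00) (nat_lit 0x0)
  (PL.C (nat_lit 0x1b8aa0f) (nat_lit 0x0) (nat_lit 0x23af47c15bf140)
  (PL.C (nat_lit 0x1b8da7c) (nat_lit 0x0) (nat_lit 0xbd28a9e2a380)
  (PL.C (nat_lit 0x1b8f07f) (nat_lit 0x0) (nat_lit 0x2c07743d2d0c0)
  (PL.C (nat_lit 0x1b9a59f) (nat_lit 0x0) (nat_lit 0xd470c6cb0eb00)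
  (PL.C (nat_lit 0x1ba12dc) (nat_lit 0x26bdde577b7900) (nat_lit 0x0)
  (PL.C (nat_lit 0x1ba1c08) (nat_lit 0x1c411d3ea4b100) (nat_lit 0x0) lm1_102))))))))))))))))))))

noncomputable def lm1_100 : PL :=
  (PL.C (nat_lit 0x1a096c7) (nat_lit 0x1e041dba9627480) (nat_lit 0x0)
  (PL.C (nat_lit 0x1a126d6) (nat_lit 0x32b76d9dd11380) (nat_lit 0x0)
  (PL.C (nat_lit 0x1a16e22) (nat_lit 0x2fe44ce8d400) (nat_lit 0x0)
  (PL.C (nat_lit 0x1a2653c) (nat_lit 0x0) (nat_lit 0x417461498d3000)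
  (PL.C (nat_lit 0x1a2c5b8) (nat_lit 0x2582b8ef545100) (nat_lit 0x0)
  (PL.C (nat_lit 0x1a3c1cc) (nat_lit 0x82e8c2931a6000) (nat_lit 0x0)
  (PL.C (nat_lit 0x1a3de49) (nat_lit 0x0) (nat_lit 0x99918ae2c4e800)
  (PL.C (nat_lit 0x1a4ccce) (nat_lit 0x12554572fe17980) (nat_lit 0x0)
  (PL.C (nat_lit 0x1a57d72) (nat_lit 0x0) (nat_lit 0xd1152bb5bca80)
  (PL.C (nat_lit 0x1a600f1) (nat_lit 0x0) (nat_lit 0x2de8cd6ab4e80)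
  (PL.C (nat_lit 0x1a75ed4) (nat_lit 0x82e8c2931a6000) (nat_lit 0x0)
  (PL.C (nat_lit 0x1a812b2) (nat_lit 0x3c5a9573267b00) (nat_lit 0x0)
  (PL.C (nat_lit 0x1a99ad4) (nat_lit 0x3bd6781ec3d9a00) (nat_lit 0x0)
  (PL.C (nat_lit 0x1abc4f4) (nat_lit 0x0) (nat_lit 0x417461498d3000)
  (PL.C (nat_lit 0x1abe789) (nat_lit 0x0) (nat_lit 0x756935f878200)
  (PL.C (nat_lit 0x1ac9b0c) (nat_lit 0x58c1e01be1800) (nat_lit 0x0)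
  (PL.C (nat_lit 0x1ad4c05) (nat_lit 0xead26bf0f0400) (nat_lit 0x0)
  (PL.C (nat_lit 0x1aeb981) (nat_lit 0x132224f766a200) (nat_lit 0x0)
  (PL.C (nat_lit 0x1af143b) (nat_lit 0x0) (nat_lit 0x13f54cffc14bc00)
  (PL.C (nat_lit 0x1afd524) (nat_lit 0x0) (nat_lit 0x6cdbc4405cb000) lm1_101))))))))))))))))))))

noncomputable def lm1_99 : PL :=
  (PL.C (nat_lit 0x1947968) (nat_lit 0x1c411d3ea4b100) (nat_lit 0x0)
  (PL.C (nat_lit 0x195306c) (nat_lit 0xb42d6767dce00) (nat_lit 0x0)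
  (PL.C (nat_lit 0x195c14d) (nat_lit 0xb1c27f80e3ee040) (nat_lit 0x0)
  (PL.C (nat_lit 0x196e8b2) (nat_lit 0x0) (nat_lit 0xd36d53f73d40)
  (PL.C (nat_lit 0x1973736) (nat_lit 0x23d315f2a8800) (nat_lit 0x0)
  (PL.C (nat_lit 0x197d195) (nat_lit 0xd023d0ce6cf00) (nat_lit 0x0)
  (PL.C (nat_lit 0x197e437) (nat_lit 0x552c624c82cf00) (nat_lit 0x0)
  (PL.C (nat_lit 0x198044e) (nat_lit 0x10abd6939173340) (nat_lit 0x0)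
  (PL.C (nat_lit 0x1983674) (nat_lit 0x0) (nat_lit 0x4925248b5280)
  (PL.C (nat_lit 0x19bf0ea) (nat_lit 0x30036c5c0a8c900) (nat_lit 0x0)
  (PL.C (nat_lit 0x19c4d15) (nat_lit 0x33b53dab589a040) (nat_lit 0x0)
  (PL.C (nat_lit 0x19cbf16) (nat_lit 0x149988a95ee680) (nat_lit 0x0)
  (PL.C (nat_lit 0x19daab6) (nat_lit 0xb2cb590e98900) (nat_lit 0x0)
  (PL.C (nat_lit 0x19de724) (nat_lit 0xae30fb366f0480) (nat_lit 0x0)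
  (PL.C (nat_lit 0x19e355e) (nat_lit 0xa2e6324a26100) (nat_lit 0x0)
  (PL.C (nat_lit 0x19e4efd) (nat_lit 0x943db5b1b97ab00) (nat_lit 0x0)
  (PL.C (nat_lit 0x19ee7c9) (nat_lit 0x1d5a4d7e1e0800) (nat_lit 0x0)
  (PL.C (nat_lit 0x19f60b3) (nat_lit 0x0) (nat_lit 0x14a0dd7b7cd4000)
  (PL.C (nat_lit 0x19ffa66) (nat_lit 0x8a0b1fd1a9ac0) (nat_lit 0x0)
  (PL.C (nat_lit 0x1a00b53) (nat_lit 0x0) (nat_lit 0x29e02825a85780) lm1_100))))))))))))))))))))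

noncomputable def lm1_98 : PL :=
  (PL.C (nat_lit 0x183ccdb) (nat_lit 0x0) (nat_lit 0x44cf5fca1c00)
  (PL.C (nat_lit 0x1863246) (nat_lit 0x38d657576db4980) (nat_lit 0x0)
  (PL.C (nat_lit 0x1866e4c) (nat_lit 0x105d1852634c000) (nat_lit 0x0)
  (PL.C (nat_lit 0x18731b4) (nat_lit 0x16307806f86000) (nat_lit 0x0)
  (PL.C (nat_lit 0x188705b) (nat_lit 0x61bee3e2bf13500) (nat_lit 0x0)
  (PL.C (nat_lit 0x1893b3a) (nat_lit 0x0) (nat_lit 0xe14e1386c6c40)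
  (PL.C (nat_lit 0x18b5df7) (nat_lit 0x4861e132b7a80) (nat_lit 0x0)
  (PL.C (nat_lit 0x18b6c5c) (nat_lit 0x15008acff7aee40) (nat_lit 0x0)
  (PL.C (nat_lit 0x18d0e4a) (nat_lit 0xfba2b26e9d2be0) (nat_lit 0x0)
  (PL.C (nat_lit 0x18d5b9e) (nat_lit 0x0) (nat_lit 0x31c69fd614c80)
  (PL.C (nat_lit 0x18ec18c) (nat_lit 0x4c9104af53c00) (nat_lit 0x0)
  (PL.C (nat_lit 0x18ed3c4) (nat_lit 0x2a9bfa2ab9f1f00) (nat_lit 0x0)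
  (PL.C (nat_lit 0x18f4de5) (nat_lit 0x1d5a4d7e1e0800) (nat_lit 0x0)
  (PL.C (nat_lit 0x1904b56) (nat_lit 0x23d315f2a8800) (nat_lit 0x0)
  (PL.C (nat_lit 0x1919427) (nat_lit 0x307178e57377ec0) (nat_lit 0x0)
  (PL.C (nat_lit 0x1929603) (nat_lit 0x0) (nat_lit 0x1133d7f28700)
  (PL.C (nat_lit 0x193238c) (nat_lit 0x43aa867ae3422c0) (nat_lit 0x0)
  (PL.C (nat_lit 0x1939eff) (nat_lit 0x1513e366c4c800) (nat_lit 0x0)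
  (PL.C (nat_lit 0x193bd7a) (nat_lit 0x47a62be551000) (nat_lit 0x0)
  (PL.C (nat_lit 0x1946901) (nat_lit 0x25427e389cf040) (nat_lit 0x0) lm1_99))))))))))))))))))))

noncomputable def lm1_97 : PL :=
  (PL.C (nat_lit 0x1783ee1) (nat_lit 0x0) (nat_lit 0x72377996941380)
  (PL.C (nat_lit 0x179149e) (nat_lit 0x0) (nat_lit 0x17f9fab1600)
  (PL.C (nat_lit 0x17936a4) (nat_lit 0x4dee4cdd14f580) (nat_lit 0x0)
  (PL.C (nat_lit 0x179b514) (nat_lit 0x0) (nat_lit 0x2177673d420f80)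
  (PL.C (nat_lit 0x17a57c6) (nat_lit 0x593eca8d7b8a00) (nat_lit 0x0)
  (PL.C (nat_lit 0x17a714c) (nat_lit 0x411824db5b00) (nat_lit 0x0)
  (PL.C (nat_lit 0x17b2eb4) (nat_lit 0x0) (nat_lit 0xbd28a9e2a380)
  (PL.C (nat_lit 0x17b3f67) (nat_lit 0x0) (nat_lit 0x4a37a3eaa976c0)
  (PL.C (nat_lit 0x17c0c82) (nat_lit 0x3b00f4090cc2200) (nat_lit 0x0)
  (PL.C (nat_lit 0x17c9e16) (nat_lit 0x0) (nat_lit 0x2adffa60f2b380)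
  (PL.C (nat_lit 0x17d998a) (nat_lit 0x25eca030043980) (nat_lit 0x0)
  (PL.C (nat_lit 0x17dfb52) (nat_lit 0xec27f6d45c00) (nat_lit 0x0)
  (PL.C (nat_lit 0x17e364a) (nat_lit 0x4f6269f21c80) (nat_lit 0x0)
  (PL.C (nat_lit 0x17e3ba9) (nat_lit 0x1f8d3e8a5fb0ae80) (nat_lit 0x0)
  (PL.C (nat_lit 0x17e50c9) (nat_lit 0xfdb93f701880) (nat_lit 0x0)
  (PL.C (nat_lit 0x1800056) (nat_lit 0x149988a95ee680) (nat_lit 0x0)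
  (PL.C (nat_lit 0x1802d51) (nat_lit 0x1d6e107e747ee80) (nat_lit 0x0)
  (PL.C (nat_lit 0x1812b1f) (nat_lit 0x0) (nat_lit 0x74de8301af8c0)
  (PL.C (nat_lit 0x18294c4) (nat_lit 0x0) (nat_lit 0x5acf7c8a10280)
  (PL.C (nat_lit 0x1830b25) (nat_lit 0xbcff8fa29800) (nat_lit 0x0) lm1_98))))))))))))))))))))

noncomputable def lm1_96 : PL :=
  (PL.C (nat_lit 0x16b9945) (nat_lit 0x2610f1a9a9686c0) (nat_lit 0x0)
  (PL.C (nat_lit 0x16bf334) (nat_lit 0x0) (nat_lit 0x4191c5fcec44c0)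
  (PL.C (nat_lit 0x16c88b4) (nat_lit 0x0) (nat_lit 0x58c1e01be1800)
  (PL.C (nat_lit 0x16cc48c) (nat_lit 0x4dee4cdd14f580) (nat_lit 0x0)
  (PL.C (nat_lit 0x16d02e4) (nat_lit 0x1ff32a21906ec0) (nat_lit 0x0)
  (PL.C (nat_lit 0x16d343f) (nat_lit 0x351c31b2c3ac00) (nat_lit 0x0)
  (PL.C (nat_lit 0x16da01e) (nat_lit 0x0) (nat_lit 0x9a664a3b740000)
  (PL.C (nat_lit 0x16e9cf3) (nat_lit 0x330e9888ff1600) (nat_lit 0x0)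
  (PL.C (nat_lit 0x16eaa4c) (nat_lit 0xae5db27d00) (nat_lit 0x0)
  (PL.C (nat_lit 0x16fd901) (nat_lit 0x6cf8daa95a28c0) (nat_lit 0x0)
  (PL.C (nat_lit 0x17063f1) (nat_lit 0x10d45071de9800) (nat_lit 0x0)
  (PL.C (nat_lit 0x171d254) (nat_lit 0x3eab2374bb2700) (nat_lit 0x0)
  (PL.C (nat_lit 0x1726f72) (nat_lit 0x8a0b1fd1a9ac0) (nat_lit 0x0)
  (PL.C (nat_lit 0x172ed1a) (nat_lit 0x0) (nat_lit 0x23d315f2a8800)
  (PL.C (nat_lit 0x1734375) (nat_lit 0x29331152bdcd00) (nat_lit 0x0)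
  (PL.C (nat_lit 0x17438bb) (nat_lit 0x0) (nat_lit 0x6cf8daa95a28c0)
  (PL.C (nat_lit 0x1749ac2) (nat_lit 0x9a664a3b740000) (nat_lit 0x0)
  (PL.C (nat_lit 0x174c276) (nat_lit 0x0) (nat_lit 0xe14e1386c6c40)
  (PL.C (nat_lit 0x1750ed5) (nat_lit 0x5d3b7c3d2a0b00) (nat_lit 0x0)
  (PL.C (nat_lit 0x1764be2) (nat_lit 0x3715d361dd5500) (nat_lit 0x0) lm1_97))))))))))))))))))))

noncomputable def lm1_95 : PL :=
  (PL.C (nat_lit 0x15ea4bf) (nat_lit 0x0) (nat_lit 0x35b1aee15fe200)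
  (PL.C (nat_lit 0x15f267e) (nat_lit 0x1a2b09ddc314240) (nat_lit 0x0)
  (PL.C (nat_lit 0x15f9b04) (nat_lit 0x188bb6191e1b80) (nat_lit 0x0)
  (PL.C (nat_lit 0x160efae) (nat_lit 0x38d657576db4980) (nat_lit 0x0)
  (PL.C (nat_lit 0x161a052) (nat_lit 0x0) (nat_lit 0x4d02edc201e00)
  (PL.C (nat_lit 0x1626a32) (nat_lit 0x0) (nat_lit 0x99bc7c70e5b80)
  (PL.C (nat_lit 0x1626f2d) (nat_lit 0x0) (nat_lit 0x100d6a4827890c0)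
  (PL.C (nat_lit 0x1633886) (nat_lit 0x0) (nat_lit 0xdf45c8f0d1b80)
  (PL.C (nat_lit 0x16384cc) (nat_lit 0x8207c6d3451400) (nat_lit 0x0)
  (PL.C (nat_lit 0x16412ee) (nat_lit 0x0) (nat_lit 0xb4b1f8fbb300)
  (PL.C (nat_lit 0x164ab9e) (nat_lit 0x0) (nat_lit 0x5522f3db778c0)
  (PL.C (nat_lit 0x1651431) (nat_lit 0x1513e366c4c800) (nat_lit 0x0)
  (PL.C (nat_lit 0x16516a4) (nat_lit 0x19f12df78b4400) (nat_lit 0x0)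
  (PL.C (nat_lit 0x165c95c) (nat_lit 0x26bdde577b7900) (nat_lit 0x0)
  (PL.C (nat_lit 0x1661ecf) (nat_lit 0x0) (nat_lit 0xf3a11094f302c0)
  (PL.C (nat_lit 0x1667754) (nat_lit 0xb42d6767dce00) (nat_lit 0x0)
  (PL.C (nat_lit 0x166959c) (nat_lit 0x8468caa15d300) (nat_lit 0x0)
  (PL.C (nat_lit 0x166e519) (nat_lit 0x1d035f673c9100) (nat_lit 0x0)
  (PL.C (nat_lit 0x167ac5c) (nat_lit 0x4191c5fcec44c0) (nat_lit 0x0)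
  (PL.C (nat_lit 0x16886ba) (nat_lit 0x1c50d4ed79be700) (nat_lit 0x0) lm1_96))))))))))))))))))))

noncomputable def lm1_94 : PL :=
  (PL.C (nat_lit 0x155bd5a) (nat_lit 0x24929245a940) (nat_lit 0x0)
  (PL.C (nat_lit 0x155e2e8) (nat_lit 0x1c43f16eab9400) (nat_lit 0x0)
  (PL.C (nat_lit 0x155f3fa) (nat_lit 0x16596b21d31200) (nat_lit 0x0)
  (PL.C (nat_lit 0x156762c) (nat_lit 0x105d1852634c000) (nat_lit 0x0)
  (PL.C (nat_lit 0x1568541) (nat_lit 0xb1c27f80e3ee040) (nat_lit 0x0)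
  (PL.C (nat_lit 0x157c1fa) (nat_lit 0x2e036b45fc2e480) (nat_lit 0x0)
  (PL.C (nat_lit 0x1586e06) (nat_lit 0x23ab29b52499940) (nat_lit 0x0)
  (PL.C (nat_lit 0x15932a6) (nat_lit 0x32b76d9dd11380) (nat_lit 0x0)
  (PL.C (nat_lit 0x159818a) (nat_lit 0x0) (nat_lit 0xb2cb590e98900)
  (PL.C (nat_lit 0x15a152b) (nat_lit 0x23af47c15bf140) (nat_lit 0x0)
  (PL.C (nat_lit 0x15a2e76) (nat_lit 0xd1152bb5bca80) (nat_lit 0x0)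
  (PL.C (nat_lit 0x15a89f8) (nat_lit 0x2582b8ef545100) (nat_lit 0x0)
  (PL.C (nat_lit 0x15af416) (nat_lit 0x0) (nat_lit 0x23d315f2a8800)
  (PL.C (nat_lit 0x15bbe12) (nat_lit 0x1ace695a2ab000) (nat_lit 0x0)
  (PL.C (nat_lit 0x15c4346) (nat_lit 0x0) (nat_lit 0x24929245a940)
  (PL.C (nat_lit 0x15c520c) (nat_lit 0x0) (nat_lit 0x380136e941380)
  (PL.C (nat_lit 0x15c6862) (nat_lit 0x77ab4b7f7c180) (nat_lit 0x0)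
  (PL.C (nat_lit 0x15d295a) (nat_lit 0x196df37dbbe200) (nat_lit 0x0)
  (PL.C (nat_lit 0x15dbdb1) (nat_lit 0xa09d64ec5ba380) (nat_lit 0x0)
  (PL.C (nat_lit 0x15e3ead) (nat_lit 0x38642e71534300) (nat_lit 0x0) lm1_95))))))))))))))))))))

noncomputable def lm1_93 : PL :=
  (PL.C (nat_lit 0x1479177) (nat_lit 0x4715a90014400) (nat_lit 0x0)
  (PL.C (nat_lit 0x1480aba) (nat_lit 0x6f38462a29a00) (nat_lit 0x0)
  (PL.C (nat_lit 0x148917a) (nat_lit 0xfba2b26e9d2be0) (nat_lit 0x0)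
  (PL.C (nat_lit 0x148a841) (nat_lit 0x0) (nat_lit 0x3b6e2d678d840)
  (PL.C (nat_lit 0x149ed4f) (nat_lit 0x0) (nat_lit 0x61525eb8466c0)
  (PL.C (nat_lit 0x14cb8bd) (nat_lit 0x114859738242d80) (nat_lit 0x0)
  (PL.C (nat_lit 0x14d5f43) (nat_lit 0x8ebd1f056fc500) (nat_lit 0x0)
  (PL.C (nat_lit 0x14e0806) (nat_lit 0x2fe44ce8d400) (nat_lit 0x0)
  (PL.C (nat_lit 0x14e1d93) (nat_lit 0x351c31b2c3ac00) (nat_lit 0x0)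
  (PL.C (nat_lit 0x14e4e62) (nat_lit 0x176283f57471400) (nat_lit 0x0)
  (PL.C (nat_lit 0x14f6e96) (nat_lit 0x0) (nat_lit 0x1d40366245c400)
  (PL.C (nat_lit 0x1509cbc) (nat_lit 0x6ce1a94d42e880) (nat_lit 0x0)
  (PL.C (nat_lit 0x150ee23) (nat_lit 0x0) (nat_lit 0x18f6545a36a480)
  (PL.C (nat_lit 0x15127b9) (nat_lit 0xbcff8fa29800) (nat_lit 0x0)
  (PL.C (nat_lit 0x151ef4e) (nat_lit 0x0) (nat_lit 0xb2cb590e98900)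
  (PL.C (nat_lit 0x1523d3c) (nat_lit 0x0) (nat_lit 0x1a4cd8b3b5cc80)
  (PL.C (nat_lit 0x15308d6) (nat_lit 0x16596b21d31200) (nat_lit 0x0)
  (PL.C (nat_lit 0x153e07f) (nat_lit 0x1d6e107e747ee80) (nat_lit 0x0)
  (PL.C (nat_lit 0x1549032) (nat_lit 0x6b9e6251101400) (nat_lit 0x0)
  (PL.C (nat_lit 0x15512a6) (nat_lit 0x0) (nat_lit 0x1be708c33c400) lm1_94))))))))))))))))))))

noncomputable def lm1_92 : PL :=
  (PL.C (nat_lit 0x13cab4a) (nat_lit 0x8f4c57caa2000) (nat_lit 0x0)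
  (PL.C (nat_lit 0x13d9c25) (nat_lit 0x0) (nat_lit 0x8cc5622dc0aa80)
  (PL.C (nat_lit 0x13deab4) (nat_lit 0x1dbac56a3ec80) (nat_lit 0x0)
  (PL.C (nat_lit 0x13f615e) (nat_lit 0x3806bed9ddb5cc0) (nat_lit 0x0)
  (PL.C (nat_lit 0x1407146) (nat_lit 0x0) (nat_lit 0x36c2d08044e40)
  (PL.C (nat_lit 0x140b2ed) (nat_lit 0x0) (nat_lit 0x9733095c7a7300)
  (PL.C (nat_lit 0x140d20a) (nat_lit 0x2e036b45fc2e480) (nat_lit 0x0)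
  (PL.C (nat_lit 0x1414cee) (nat_lit 0x0) (nat_lit 0x1f66e992a6ea80)
  (PL.C (nat_lit 0x1422132) (nat_lit 0x3806bed9ddb5cc0) (nat_lit 0x0)
  (PL.C (nat_lit 0x1429864) (nat_lit 0x0) (nat_lit 0xee001b9b09600)
  (PL.C (nat_lit 0x142aa0d) (nat_lit 0xbb38c850d84aac0) (nat_lit 0x0)
  (PL.C (nat_lit 0x142fb2d) (nat_lit 0x0) (nat_lit 0x3f06a9e598b00)
  (PL.C (nat_lit 0x14311aa) (nat_lit 0x0) (nat_lit 0x97933e7d74e00)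
  (PL.C (nat_lit 0x1439cd3) (nat_lit 0x2ab377175d540) (nat_lit 0x0)
  (PL.C (nat_lit 0x144282e) (nat_lit 0xd2eb075b494280) (nat_lit 0x0)
  (PL.C (nat_lit 0x144c5c1) (nat_lit 0x8e2b520028800) (nat_lit 0x0)
  (PL.C (nat_lit 0x14553ec) (nat_lit 0x2f53d473e88800) (nat_lit 0x0)
  (PL.C (nat_lit 0x1459cb6) (nat_lit 0x42afd3d8c990c00) (nat_lit 0x0)
  (PL.C (nat_lit 0x146b0d4) (nat_lit 0x19f12df78b4400) (nat_lit 0x0)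
  (PL.C (nat_lit 0x14744a6) (nat_lit 0x54f5840602f380) (nat_lit 0x0) lm1_93))))))))))))))))))))

noncomputable def lm1_91 : PL :=
  (PL.C (nat_lit 0x131eeab) (nat_lit 0xfdb93f701880) (nat_lit 0x0)
  (PL.C (nat_lit 0x132ef19) (nat_lit 0x132224f766a200) (nat_lit 0x0)
  (PL.C (nat_lit 0x132f669) (nat_lit 0xe9284fa1278500) (nat_lit 0x0)
  (PL.C (nat_lit 0x1333b04) (nat_lit 0x0) (nat_lit 0x1c99f89086b2000)
  (PL.C (nat_lit 0x133ebbc) (nat_lit 0x2292934ab88200) (nat_lit 0x0)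
  (PL.C (nat_lit 0x1340aea) (nat_lit 0x6b9e6251101400) (nat_lit 0x0)
  (PL.C (nat_lit 0x13427b4) (nat_lit 0x46b5fdcb5be300) (nat_lit 0x0)
  (PL.C (nat_lit 0x1348611) (nat_lit 0x0) (nat_lit 0x1133d7f287000)
  (PL.C (nat_lit 0x134a516) (nat_lit 0x0) (nat_lit 0x15b874db7e6a80)
  (PL.C (nat_lit 0x1353d48) (nat_lit 0x1c43f16eab9400) (nat_lit 0x0)
  (PL.C (nat_lit 0x1368d4c) (nat_lit 0x0) (nat_lit 0x19c55cfa80c4d40)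
  (PL.C (nat_lit 0x13a894a) (nat_lit 0x15b874db7e6a80) (nat_lit 0x0)
  (PL.C (nat_lit 0x13aaace) (nat_lit 0x0) (nat_lit 0xc2d84e9340d6c0)
  (PL.C (nat_lit 0x13b289b) (nat_lit 0x0) (nat_lit 0x882ffbe894dd00)
  (PL.C (nat_lit 0x13b4958) (nat_lit 0x11b505e06200) (nat_lit 0x0)
  (PL.C (nat_lit 0x13b5916) (nat_lit 0x550e3b220c2b80) (nat_lit 0x0)
  (PL.C (nat_lit 0x13bf6ea) (nat_lit 0x3715d361dd5500) (nat_lit 0x0)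
  (PL.C (nat_lit 0x13c447e) (nat_lit 0xa2e6324a26100) (nat_lit 0x0)
  (PL.C (nat_lit 0x13c6bd4) (nat_lit 0xe05b9d027e00) (nat_lit 0x0)
  (PL.C (nat_lit 0x13c92b8) (nat_lit 0xa997a89805780) (nat_lit 0x0) lm1_92))))))))))))))))))))

noncomputable def lm1_90 : PL :=
  (PL.C (nat_lit 0x1286cf6) (nat_lit 0x8548f4a24a3e80) (nat_lit 0x0)
  (PL.C (nat_lit 0x1297cf2) (nat_lit 0x0) (nat_lit 0x8937bebee8880)
  (PL.C (nat_lit 0x129cc04) (nat_lit 0x6ce1a94d42e880) (nat_lit 0x0)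
  (PL.C (nat_lit 0x129eee6) (nat_lit 0xfac48b4be5880) (nat_lit 0x0)
  (PL.C (nat_lit 0x12ab3ba) (nat_lit 0x0) (nat_lit 0x14c462c0b3d840)
  (PL.C (nat_lit 0x12b32a1) (nat_lit 0x0) (nat_lit 0xb0b279f8fca00)
  (PL.C (nat_lit 0x12c13bf) (nat_lit 0x0) (nat_lit 0x24cd9ae0497600)
  (PL.C (nat_lit 0x12c1cfc) (nat_lit 0x8207c6d3451400) (nat_lit 0x0)
  (PL.C (nat_lit 0x12c280a) (nat_lit 0x475e8f82b7e280) (nat_lit 0x0)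
  (PL.C (nat_lit 0x12d7034) (nat_lit 0x19f12df78b4400) (nat_lit 0x0)
  (PL.C (nat_lit 0x12decab) (nat_lit 0x0) (nat_lit 0x4715a90014400)
  (PL.C (nat_lit 0x12e41e4) (nat_lit 0x4d32978a6b9f80) (nat_lit 0x0)
  (PL.C (nat_lit 0x12ea909) (nat_lit 0x0) (nat_lit 0x8cf128071600)
  (PL.C (nat_lit 0x12f66be) (nat_lit 0x7c6a642b3da420) (nat_lit 0x0)
  (PL.C (nat_lit 0x12f9b82) (nat_lit 0x8f4c57caa2000) (nat_lit 0x0)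
  (PL.C (nat_lit 0x12f9ecc) (nat_lit 0x1c99f89086b2000) (nat_lit 0x0)
  (PL.C (nat_lit 0x1305722) (nat_lit 0x0) (nat_lit 0x16f5f1f4793cc0)
  (PL.C (nat_lit 0x13090a7) (nat_lit 0xd023d0ce6cf00) (nat_lit 0x0)
  (PL.C (nat_lit 0x130ac22) (nat_lit 0x5f301881088580) (nat_lit 0x0)
  (PL.C (nat_lit 0x130dbfc) (nat_lit 0x26bdde577b7900) (nat_lit 0x0) lm1_91))))))))))))))))))))

noncomputable def lm1_89 : PL :=
  (PL.C (nat_lit 0x11f2656) (nat_lit 0x134cfd7904e800) (nat_lit 0x0)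
  (PL.C (nat_lit 0x11f62d2) (nat_lit 0x0) (nat_lit 0x1d5ce6d188f400)
  (PL.C (nat_lit 0x120a962) (nat_lit 0x16596b21d31200) (nat_lit 0x0)
  (PL.C (nat_lit 0x1212405) (nat_lit 0x32443c9e9f7e40) (nat_lit 0x0)
  (PL.C (nat_lit 0x1222f62) (nat_lit 0x3b00f4090cc2200) (nat_lit 0x0)
  (PL.C (nat_lit 0x122815e) (nat_lit 0x2d088746e2b00) (nat_lit 0x0)
  (PL.C (nat_lit 0x122c09e) (nat_lit 0x1acd8e65414700) (nat_lit 0x0)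
  (PL.C (nat_lit 0x123a932) (nat_lit 0x0) (nat_lit 0xb2cb590e98900)
  (PL.C (nat_lit 0x123c846) (nat_lit 0x1b8f48cac2e0300) (nat_lit 0x0)
  (PL.C (nat_lit 0x1242cc7) (nat_lit 0x230426da76f1510) (nat_lit 0x0)
  (PL.C (nat_lit 0x12445f5) (nat_lit 0x10d45071de9800) (nat_lit 0x0)
  (PL.C (nat_lit 0x124ea78) (nat_lit 0x1f02af41d7ac00) (nat_lit 0x0)
  (PL.C (nat_lit 0x12533f6) (nat_lit 0xd2eb075b494280) (nat_lit 0x0)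
  (PL.C (nat_lit 0x12568a4) (nat_lit 0x3eab2374bb2700) (nat_lit 0x0)
  (PL.C (nat_lit 0x125c27d) (nat_lit 0x4715a90014400) (nat_lit 0x0)
  (PL.C (nat_lit 0x125f5aa) (nat_lit 0x0) (nat_lit 0x2d088746e2b00)
  (PL.C (nat_lit 0x1266e6a) (nat_lit 0x0) (nat_lit 0xd1152bb5bca80)
  (PL.C (nat_lit 0x127ef3c) (nat_lit 0xae5db27d00) (nat_lit 0x0)
  (PL.C (nat_lit 0x1282716) (nat_lit 0x0) (nat_lit 0x5a90ae54cec00)
  (PL.C (nat_lit 0x12849db) (nat_lit 0x8e2b520028800) (nat_lit 0x0) lm1_90))))))))))))))))))))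

noncomputable def lm1_88 : PL :=
  (PL.C (nat_lit 0x115b9da) (nat_lit 0xc6a1906cd1c800) (nat_lit 0x0)
  (PL.C (nat_lit 0x11619e4) (nat_lit 0x398bdfd2057400) (nat_lit 0x0)
  (PL.C (nat_lit 0x116317b) (nat_lit 0x0) (nat_lit 0x35b1aee15fe200)
  (PL.C (nat_lit 0x11640db) (nat_lit 0x13602df2b06600) (nat_lit 0x0)
  (PL.C (nat_lit 0x116496c) (nat_lit 0x411824db5b00) (nat_lit 0x0)
  (PL.C (nat_lit 0x116d04b) (nat_lit 0x117c8a3fa2380) (nat_lit 0x0)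
  (PL.C (nat_lit 0x116ee28) (nat_lit 0x0) (nat_lit 0x1c411d3ea4b100)
  (PL.C (nat_lit 0x117d688) (nat_lit 0x38823a7d496200) (nat_lit 0x0)
  (PL.C (nat_lit 0x117e986) (nat_lit 0x0) (nat_lit 0x381d9c1feb1340)
  (PL.C (nat_lit 0x118a60d) (nat_lit 0x13602df2b06600) (nat_lit 0x0)
  (PL.C (nat_lit 0x118de71) (nat_lit 0x114859738242d80) (nat_lit 0x0)
  (PL.C (nat_lit 0x118fe4c) (nat_lit 0x0) (nat_lit 0x26bdde577b7900)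
  (PL.C (nat_lit 0x11955f6) (nat_lit 0x0) (nat_lit 0xa7355428f2b80)
  (PL.C (nat_lit 0x11a3f38) (nat_lit 0x38823a7d496200) (nat_lit 0x0)
  (PL.C (nat_lit 0x11b9f17) (nat_lit 0x0) (nat_lit 0xb0b279f8fca00)
  (PL.C (nat_lit 0x11c6bef) (nat_lit 0x117c8a3fa2380) (nat_lit 0x0)
  (PL.C (nat_lit 0x11d2df8) (nat_lit 0x0) (nat_lit 0x1c411d3ea4b100)
  (PL.C (nat_lit 0x11d4506) (nat_lit 0x0) (nat_lit 0xb2cb590e98900)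
  (PL.C (nat_lit 0x11e32ae) (nat_lit 0x16596b21d31200) (nat_lit 0x0)
  (PL.C (nat_lit 0x11ee8bb) (nat_lit 0x14507eea2e30100) (nat_lit 0x0) lm1_89))))))))))))))))))))

noncomputable def lm1_87 : PL :=
  (PL.C (nat_lit 0x10d14aa) (nat_lit 0x0) (nat_lit 0x177846c5536d80)
  (PL.C (nat_lit 0x10d28fc) (nat_lit 0x108d19542ba600) (nat_lit 0x0)
  (PL.C (nat_lit 0x10d9b56) (nat_lit 0x25eca030043980) (nat_lit 0x0)
  (PL.C (nat_lit 0x10e2048) (nat_lit 0x0) (nat_lit 0x1b9bac28400480)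
  (PL.C (nat_lit 0x10e80de) (nat_lit 0x16d84276d9892c0) (nat_lit 0x0)
  (PL.C (nat_lit 0x10eed03) (nat_lit 0x0) (nat_lit 0x19a0c37f46800)
  (PL.C (nat_lit 0x10f45cc) (nat_lit 0x0) (nat_lit 0x1e25bc6f3ee580)
  (PL.C (nat_lit 0x10f7a24) (nat_lit 0x8468caa15d300) (nat_lit 0x0)
  (PL.C (nat_lit 0x10fe10e) (nat_lit 0xc5ca0c2601780) (nat_lit 0x0)
  (PL.C (nat_lit 0x10fed7a) (nat_lit 0x593eca8d7b8a00) (nat_lit 0x0)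
  (PL.C (nat_lit 0x1106101) (nat_lit 0x26476202192b80) (nat_lit 0x0)
  (PL.C (nat_lit 0x112a09c) (nat_lit 0x42d207bb4a40e80) (nat_lit 0x0)
  (PL.C (nat_lit 0x112de0e) (nat_lit 0x42afd3d8c990c00) (nat_lit 0x0)
  (PL.C (nat_lit 0x1131201) (nat_lit 0x38642e71534300) (nat_lit 0x0)
  (PL.C (nat_lit 0x113c724) (nat_lit 0x19f12df78b4400) (nat_lit 0x0)
  (PL.C (nat_lit 0x1142394) (nat_lit 0x188bb6191e1b80) (nat_lit 0x0)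
  (PL.C (nat_lit 0x1149a86) (nat_lit 0x2cb2d643a62400) (nat_lit 0x0)
  (PL.C (nat_lit 0x114eb22) (nat_lit 0x6c0903b8b846c0) (nat_lit 0x0)
  (PL.C (nat_lit 0x1155ce2) (nat_lit 0xa7465c4832e0) (nat_lit 0x0)
  (PL.C (nat_lit 0x115a685) (nat_lit 0x802d61b5a12b00) (nat_lit 0x0) lm1_88))))))))))))))))))))

noncomputable def lm1_86 : PL :=
  (PL.C (nat_lit 0x100c76a) (nat_lit 0x0) (nat_lit 0x76598c85a8340)
  (PL.C (nat_lit 0x101f607) (nat_lit 0x2adf4e594cdc200) (nat_lit 0x0)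
  (PL.C (nat_lit 0x102076e) (nat_lit 0xec27f6d45c00) (nat_lit 0x0)
  (PL.C (nat_lit 0x1028892) (nat_lit 0x0) (nat_lit 0xb4b1f8fbb300)
  (PL.C (nat_lit 0x1031fcd) (nat_lit 0x8961f91021e6800) (nat_lit 0x0)
  (PL.C (nat_lit 0x103830f) (nat_lit 0x0) (nat_lit 0x15b0e42c51e380)
  (PL.C (nat_lit 0x1042184) (nat_lit 0x26e3a697a15d400) (nat_lit 0x0)
  (PL.C (nat_lit 0x1042e81) (nat_lit 0x152aa0a9183c2c0) (nat_lit 0x0)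
  (PL.C (nat_lit 0x1044988) (nat_lit 0x710474fa92c400) (nat_lit 0x0)
  (PL.C (nat_lit 0x1049961) (nat_lit 0x0) (nat_lit 0x1e057c4f81580)
  (PL.C (nat_lit 0x105d1af) (nat_lit 0x8ebd1f056fc500) (nat_lit 0x0)
  (PL.C (nat_lit 0x106277c) (nat_lit 0x0) (nat_lit 0x1254b4a4112000)
  (PL.C (nat_lit 0x106fe93) (nat_lit 0x11ace0bbc4f6940) (nat_lit 0x0)
  (PL.C (nat_lit 0x10793fa) (nat_lit 0x0) (nat_lit 0x437c406743780)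
  (PL.C (nat_lit 0x10917c5) (nat_lit 0x0) (nat_lit 0x1f8480c104fc00)
  (PL.C (nat_lit 0x10a33ee) (nat_lit 0x2cb2d643a62400) (nat_lit 0x0)
  (PL.C (nat_lit 0x10adce4) (nat_lit 0x8468caa15d300) (nat_lit 0x0)
  (PL.C (nat_lit 0x10bb81a) (nat_lit 0x543d34f41864000) (nat_lit 0x0)
  (PL.C (nat_lit 0x10c1e53) (nat_lit 0x11c56a40051000) (nat_lit 0x0)
  (PL.C (nat_lit 0x10c6402) (nat_lit 0x0) (nat_lit 0x24929245a940) lm1_87))))))))))))))))))))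

noncomputable def lm1_85 : PL :=
  (PL.C (nat_lit 0xf8b48e) (nat_lit 0x5f301881088580) (nat_lit 0x0)
  (PL.C (nat_lit 0xf8cdbd) (nat_lit 0x1d5a4d7e1e0800) (nat_lit 0x0)
  (PL.C (nat_lit 0xf94a43) (nat_lit 0x0) (nat_lit 0x6cf8daa95a28c0)
  (PL.C (nat_lit 0xf987ec) (nat_lit 0xa349a6608b0800) (nat_lit 0x0)
  (PL.C (nat_lit 0xf9d893) (nat_lit 0x0) (nat_lit 0x4715a90014400)
  (PL.C (nat_lit 0xfad496) (nat_lit 0x0) (nat_lit 0x9a3957037208c0)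
  (PL.C (nat_lit 0xfb6314) (nat_lit 0x4c9104af53c00) (nat_lit 0x0)
  (PL.C (nat_lit 0xfc3a84) (nat_lit 0xdf8c95859fd300) (nat_lit 0x0)
  (PL.C (nat_lit 0xfc4b88) (nat_lit 0x11b505e06200) (nat_lit 0x0)
  (PL.C (nat_lit 0xfd5dac) (nat_lit 0x657e583cdf30900) (nat_lit 0x0)
  (PL.C (nat_lit 0xfe0c6d) (nat_lit 0x6cf8daa95a28c0) (nat_lit 0x0)
  (PL.C (nat_lit 0xfe277f) (nat_lit 0x0) (nat_lit 0x8cc5622dc0aa80)
  (PL.C (nat_lit 0xfe665c) (nat_lit 0x5b3696577fc7c0) (nat_lit 0x0)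
  (PL.C (nat_lit 0xfea78c) (nat_lit 0x5e684b1a6a00) (nat_lit 0x0)
  (PL.C (nat_lit 0xfeb443) (nat_lit 0xb01dd0f4b4300) (nat_lit 0x0)
  (PL.C (nat_lit 0xfecedc) (nat_lit 0x61c74ae74280) (nat_lit 0x0)
  (PL.C (nat_lit 0xfee086) (nat_lit 0x21dcdc0cdd9640) (nat_lit 0x0)
  (PL.C (nat_lit 0xff33bd) (nat_lit 0x13ea92a3096080) (nat_lit 0x0)
  (PL.C (nat_lit 0xffc56d) (nat_lit 0x1aa81f6007980) (nat_lit 0x0)
  (PL.C (nat_lit 0x1001e36) (nat_lit 0x0) (nat_lit 0x20dc6b5992a560) lm1_86))))))))))))))))))))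

noncomputable def lm1_84 : PL :=
  (PL.C (nat_lit 0xef6bb3) (nat_lit 0x0) (nat_lit 0x100d6a4827890c0)
  (PL.C (nat_lit 0xf04761) (nat_lit 0x541240f93b600) (nat_lit 0x0)
  (PL.C (nat_lit 0xf0a36b) (nat_lit 0x0) (nat_lit 0x882ffbe894dd00)
  (PL.C (nat_lit 0xf14265) (nat_lit 0x0) (nat_lit 0xdf82000044400)
  (PL.C (nat_lit 0xf2662e) (nat_lit 0x25f1ade6c01ee80) (nat_lit 0x0)
  (PL.C (nat_lit 0xf3782a) (nat_lit 0x4ed363c6d10000) (nat_lit 0x0)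
  (PL.C (nat_lit 0xf3c014) (nat_lit 0x0) (nat_lit 0x1c99f89086b2000)
  (PL.C (nat_lit 0xf3d09f) (nat_lit 0x271fa0e4d20a840) (nat_lit 0x0)
  (PL.C (nat_lit 0xf468a2) (nat_lit 0x54f5840602f380) (nat_lit 0x0)
  (PL.C (nat_lit 0xf47188) (nat_lit 0xf49ddbe37600) (nat_lit 0x0)
  (PL.C (nat_lit 0xf53b56) (nat_lit 0x6b5b1e4f4c7f00) (nat_lit 0x0)
  (PL.C (nat_lit 0xf597f6) (nat_lit 0xcaddb677444e00) (nat_lit 0x0)
  (PL.C (nat_lit 0xf5d039) (nat_lit 0x0) (nat_lit 0x13f54cffc14bc00)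
  (PL.C (nat_lit 0xf68c38) (nat_lit 0x96ff819934ba00) (nat_lit 0x0)
  (PL.C (nat_lit 0xf6a423) (nat_lit 0x2898f87c5e41110) (nat_lit 0x0)
  (PL.C (nat_lit 0xf748bc) (nat_lit 0x0) (nat_lit 0x8468caa15d300)
  (PL.C (nat_lit 0xf7824e) (nat_lit 0x149988a95ee680) (nat_lit 0x0)
  (PL.C (nat_lit 0xf825d2) (nat_lit 0x0) (nat_lit 0x6b5b1e4f4c7f00)
  (PL.C (nat_lit 0xf8672c) (nat_lit 0x1c99f89086b2000) (nat_lit 0x0)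
  (PL.C (nat_lit 0xf881a4) (nat_lit 0x0) (nat_lit 0x1254b4a4112000) lm1_85))))))))))))))))))))

noncomputable def lm1_83 : PL :=
  (PL.C (nat_lit 0xe92659) (nat_lit 0x6a386365875800) (nat_lit 0x0)
  (PL.C (nat_lit 0xe97f1e) (nat_lit 0x550e3b220c2b80) (nat_lit 0x0)
  (PL.C (nat_lit 0xe9c32a) (nat_lit 0x45040f9bb5176c0) (nat_lit 0x0)
  (PL.C (nat_lit 0xea6159) (nat_lit 0x8961f91021e6800) (nat_lit 0x0)
  (PL.C (nat_lit 0xea6758) (nat_lit 0xa997a89805780) (nat_lit 0x0)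
  (PL.C (nat_lit 0xead6a7) (nat_lit 0x0) (nat_lit 0x14a0dd7b7cd4000)
  (PL.C (nat_lit 0xeb4a74) (nat_lit 0x26e3a697a15d400) (nat_lit 0x0)
  (PL.C (nat_lit 0xeb5cb7) (nat_lit 0x0) (nat_lit 0x18f6545a36a480)
  (PL.C (nat_lit 0xeb9281) (nat_lit 0x0) (nat_lit 0x351c31b2c3ac00)
  (PL.C (nat_lit 0xebab9b) (nat_lit 0xe79c830ff12400) (nat_lit 0x0)
  (PL.C (nat_lit 0xec46cc) (nat_lit 0x0) (nat_lit 0x1a4cd8b3b5cc80)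
  (PL.C (nat_lit 0xec4a1e) (nat_lit 0x775a77c73988140) (nat_lit 0x0)
  (PL.C (nat_lit 0xed61f4) (nat_lit 0x0) (nat_lit 0x4925248b5280)
  (PL.C (nat_lit 0xed8cfd) (nat_lit 0x0) (nat_lit 0x699e517ac6b00)
  (PL.C (nat_lit 0xee0d76) (nat_lit 0x0) (nat_lit 0x177846c5536d80)
  (PL.C (nat_lit 0xee0f18) (nat_lit 0xb183c037c3000) (nat_lit 0x0)
  (PL.C (nat_lit 0xeefa38) (nat_lit 0x0) (nat_lit 0x1b9bac28400480)
  (PL.C (nat_lit 0xef0e68) (nat_lit 0x73bc298baed00) (nat_lit 0x0)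
  (PL.C (nat_lit 0xef3343) (nat_lit 0x75ba1cc29100) (nat_lit 0x0)
  (PL.C (nat_lit 0xef4366) (nat_lit 0x38ea4253522c00) (nat_lit 0x0) lm1_84))))))))))))))))))))

noncomputable def lm1_82 : PL :=
  (PL.C (nat_lit 0xe205e4) (nat_lit 0x33e25bef168800) (nat_lit 0x0)
  (PL.C (nat_lit 0xe2153b) (nat_lit 0x0) (nat_lit 0x141ac92713a280)
  (PL.C (nat_lit 0xe295aa) (nat_lit 0x0) (nat_lit 0x20dc6b5992a560)
  (PL.C (nat_lit 0xe30acc) (nat_lit 0x105d1852634c000) (nat_lit 0x0)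
  (PL.C (nat_lit 0xe361c4) (nat_lit 0x0) (nat_lit 0xbd28a9e2a380)
  (PL.C (nat_lit 0xe3bfa7) (nat_lit 0xbcff8fa29800) (nat_lit 0x0)
  (PL.C (nat_lit 0xe3f7fc) (nat_lit 0x33e25bef168800) (nat_lit 0x0)
  (PL.C (nat_lit 0xe44ec8) (nat_lit 0x710474fa92c400) (nat_lit 0x0)
  (PL.C (nat_lit 0xe458d6) (nat_lit 0x16d84276d9892c0) (nat_lit 0x0)
  (PL.C (nat_lit 0xe52bfc) (nat_lit 0x502a7986b94a400) (nat_lit 0x0)
  (PL.C (nat_lit 0xe621c4) (nat_lit 0x398bdfd2057400) (nat_lit 0x0)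
  (PL.C (nat_lit 0xe6565c) (nat_lit 0x0) (nat_lit 0x19f12df78b4400)
  (PL.C (nat_lit 0xe668fb) (nat_lit 0x0) (nat_lit 0x351c31b2c3ac00)
  (PL.C (nat_lit 0xe6c9a4) (nat_lit 0x26bdde577b7900) (nat_lit 0x0)
  (PL.C (nat_lit 0xe728ef) (nat_lit 0x6a386365875800) (nat_lit 0x0)
  (PL.C (nat_lit 0xe74d64) (nat_lit 0x0) (nat_lit 0x8468caa15d300)
  (PL.C (nat_lit 0xe7d40c) (nat_lit 0x2f53d473e88800) (nat_lit 0x0)
  (PL.C (nat_lit 0xe833c5) (nat_lit 0x1d5a4d7e1e0800) (nat_lit 0x0)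
  (PL.C (nat_lit 0xe88cb7) (nat_lit 0x0) (nat_lit 0x44cf5fca1c00)
  (PL.C (nat_lit 0xe8c63c) (nat_lit 0x4d32978a6b9f80) (nat_lit 0x0) lm1_83))))))))))))))))))))

noncomputable def lm1_81 : PL :=
  (PL.C (nat_lit 0xda7bc7) (nat_lit 0x3279b5e05cbf880) (nat_lit 0x0)
  (PL.C (nat_lit 0xdabdc1) (nat_lit 0x802d61b5a12b00) (nat_lit 0x0)
  (PL.C (nat_lit 0xdb118b) (nat_lit 0x895b58d5a2680) (nat_lit 0x0)
  (PL.C (nat_lit 0xdb1ad6) (nat_lit 0x1255b341347680) (nat_lit 0x0)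
  (PL.C (nat_lit 0xdba245) (nat_lit 0x2adf4e594cdc200) (nat_lit 0x0)
  (PL.C (nat_lit 0xdbf38a) (nat_lit 0x0) (nat_lit 0xd36d53f73d40)
  (PL.C (nat_lit 0xddd07e) (nat_lit 0x112f7ec0eb1de00) (nat_lit 0x0)
  (PL.C (nat_lit 0xde021f) (nat_lit 0xa51806f2c087740) (nat_lit 0x0)
  (PL.C (nat_lit 0xde3f82) (nat_lit 0x475e8f82b7e280) (nat_lit 0x0)
  (PL.C (nat_lit 0xdeb004) (nat_lit 0x411824db5b00) (nat_lit 0x0)
  (PL.C (nat_lit 0xdebe62) (nat_lit 0x4ed363c6d10000) (nat_lit 0x0)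
  (PL.C (nat_lit 0xdedeec) (nat_lit 0x1627e2599ca2600) (nat_lit 0x0)
  (PL.C (nat_lit 0xdf16d7) (nat_lit 0x2898f87c5e41110) (nat_lit 0x0)
  (PL.C (nat_lit 0xdfaa39) (nat_lit 0x0) (nat_lit 0x3ed03c387c8340)
  (PL.C (nat_lit 0xdfc799) (nat_lit 0x18c2b591e700) (nat_lit 0x0)
  (PL.C (nat_lit 0xe00619) (nat_lit 0x0) (nat_lit 0x9733095c7a7300)
  (PL.C (nat_lit 0xe09ec2) (nat_lit 0x0) (nat_lit 0x5158b97fc7780)
  (PL.C (nat_lit 0xe0c526) (nat_lit 0xec27f6d45c00) (nat_lit 0x0)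
  (PL.C (nat_lit 0xe14a34) (nat_lit 0x0) (nat_lit 0x19f12df78b4400)
  (PL.C (nat_lit 0xe17e28) (nat_lit 0x0) (nat_lit 0x1a6e385d2c380) lm1_82))))))))))))))))))))

noncomputable def lm1_80 : PL :=
  (PL.C (nat_lit 0xd3bd6e) (nat_lit 0x0) (nat_lit 0x92890a56848740)
  (PL.C (nat_lit 0xd4eb94) (nat_lit 0x4d507bf9ae0f700) (nat_lit 0x0)
  (PL.C (nat_lit 0xd5cc9e) (nat_lit 0x0) (nat_lit 0x3737fce0f4500)
  (PL.C (nat_lit 0xd5e15c) (nat_lit 0x502a7986b94a400) (nat_lit 0x0)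
  (PL.C (nat_lit 0xd674e1) (nat_lit 0x2c07743d2d0c0) (nat_lit 0x0)
  (PL.C (nat_lit 0xd68bbb) (nat_lit 0x0) (nat_lit 0x72377996941380)
  (PL.C (nat_lit 0xd6c0cc) (nat_lit 0x4d507bf9ae0f700) (nat_lit 0x0)
  (PL.C (nat_lit 0xd7028f) (nat_lit 0xdf72a3da59f300) (nat_lit 0x0)
  (PL.C (nat_lit 0xd7521e) (nat_lit 0x0) (nat_lit 0x8937bebee8880)
  (PL.C (nat_lit 0xd7611c) (nat_lit 0x0) (nat_lit 0x2177673d420f80)
  (PL.C (nat_lit 0xd7bde2) (nat_lit 0x2bb0a3ea151c0) (nat_lit 0x0)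
  (PL.C (nat_lit 0xd83c15) (nat_lit 0x6780cf0a33b5000) (nat_lit 0x0)
  (PL.C (nat_lit 0xd883d6) (nat_lit 0x11e98af9544000) (nat_lit 0x0)
  (PL.C (nat_lit 0xd91324) (nat_lit 0x5e918f914f052c0) (nat_lit 0x0)
  (PL.C (nat_lit 0xd9559d) (nat_lit 0xe3a28a1afcca80) (nat_lit 0x0)
  (PL.C (nat_lit 0xd9c263) (nat_lit 0x152aa0a9183c2c0) (nat_lit 0x0)
  (PL.C (nat_lit 0xd9cb38) (nat_lit 0xb183c037c3000) (nat_lit 0x0)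
  (PL.C (nat_lit 0xda2dc4) (nat_lit 0xc23341f7e38080) (nat_lit 0x0)
  (PL.C (nat_lit 0xda3eb3) (nat_lit 0x1d186a21dde80) (nat_lit 0x0)
  (PL.C (nat_lit 0xda60fa) (nat_lit 0x8f4c57caa2000) (nat_lit 0x0) lm1_81))))))))))))))))))))

noncomputable def lm1_79 : PL :=
  (PL.C (nat_lit 0xcd5c9c) (nat_lit 0x105d1852634c000) (nat_lit 0x0)
  (PL.C (nat_lit 0xcdaeb6) (nat_lit 0x0) (nat_lit 0x35c66a3830400)
  (PL.C (nat_lit 0xcdc364) (nat_lit 0x0) (nat_lit 0x4191c5fcec44c0)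
  (PL.C (nat_lit 0xcdd15b) (nat_lit 0x18613c7ed8794160) (nat_lit 0x0)
  (PL.C (nat_lit 0xcddcbb) (nat_lit 0x4f53bd2665500) (nat_lit 0x0)
  (PL.C (nat_lit 0xcedd53) (nat_lit 0x4641d3f78521600) (nat_lit 0x0)
  (PL.C (nat_lit 0xcf014d) (nat_lit 0x1aa81f6007980) (nat_lit 0x0)
  (PL.C (nat_lit 0xcf65fd) (nat_lit 0x0) (nat_lit 0x2d083a7742040)
  (PL.C (nat_lit 0xd1b0dc) (nat_lit 0x4191c5fcec44c0) (nat_lit 0x0)
  (PL.C (nat_lit 0xd1c734) (nat_lit 0x0) (nat_lit 0x19c55cfa80c4d40)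
  (PL.C (nat_lit 0xd20771) (nat_lit 0x38642e71534300) (nat_lit 0x0)
  (PL.C (nat_lit 0xd21b12) (nat_lit 0x1cb07eab391880) (nat_lit 0x0)
  (PL.C (nat_lit 0xd23b64) (nat_lit 0xc9f349cc80d800) (nat_lit 0x0)
  (PL.C (nat_lit 0xd2708f) (nat_lit 0x0) (nat_lit 0x2c07743d2d0c0)
  (PL.C (nat_lit 0xd2a49c) (nat_lit 0xa349a6608b0800) (nat_lit 0x0)
  (PL.C (nat_lit 0xd2d854) (nat_lit 0x188bb6191e1b80) (nat_lit 0x0)
  (PL.C (nat_lit 0xd30b51) (nat_lit 0x1d186a21dde80) (nat_lit 0x0)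
  (PL.C (nat_lit 0xd31cdc) (nat_lit 0x211a32a8574c00) (nat_lit 0x0)
  (PL.C (nat_lit 0xd32f63) (nat_lit 0x1be708c33c4000) (nat_lit 0x0)
  (PL.C (nat_lit 0xd35031) (nat_lit 0x6ab0d9fb141a400) (nat_lit 0x0) lm1_80))))))))))))))))))))

noncomputable def lm1_78 : PL :=
  (PL.C (nat_lit 0xc65d33) (nat_lit 0x0) (nat_lit 0x5d89b33e271900)
  (PL.C (nat_lit 0xc69f44) (nat_lit 0x46b5fdcb5be300) (nat_lit 0x0)
  (PL.C (nat_lit 0xc6f147) (nat_lit 0xe79c830ff12400) (nat_lit 0x0)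
  (PL.C (nat_lit 0xc7227c) (nat_lit 0x0) (nat_lit 0x5b042add7add40)
  (PL.C (nat_lit 0xc77716) (nat_lit 0xb021bc7794bc80) (nat_lit 0x0)
  (PL.C (nat_lit 0xc7e93f) (nat_lit 0x8ebd1f056fc500) (nat_lit 0x0)
  (PL.C (nat_lit 0xc80d2a) (nat_lit 0x0) (nat_lit 0x14c462c0b3d840)
  (PL.C (nat_lit 0xc86d51) (nat_lit 0x0) (nat_lit 0x13ea92a3096080)
  (PL.C (nat_lit 0xc8f578) (nat_lit 0xb183c037c3000) (nat_lit 0x0)
  (PL.C (nat_lit 0xc94872) (nat_lit 0x0) (nat_lit 0x8f4c57caa2000)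
  (PL.C (nat_lit 0xc9c606) (nat_lit 0x0) (nat_lit 0x5a90ae54cec00)
  (PL.C (nat_lit 0xca1bbf) (nat_lit 0x0) (nat_lit 0x99918ae2c4e800)
  (PL.C (nat_lit 0xca67ac) (nat_lit 0x211a32a8574c00) (nat_lit 0x0)
  (PL.C (nat_lit 0xca9803) (nat_lit 0x0) (nat_lit 0xe1f1e403c4200)
  (PL.C (nat_lit 0xcb0b1a) (nat_lit 0xc5ca0c2601780) (nat_lit 0x0)
  (PL.C (nat_lit 0xcb1d6c) (nat_lit 0x105aa3f62a3c6c0) (nat_lit 0x0)
  (PL.C (nat_lit 0xcbf472) (nat_lit 0x21dcdc0cdd9640) (nat_lit 0x0)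
  (PL.C (nat_lit 0xcc35d5) (nat_lit 0x0) (nat_lit 0xf3a11094f302c0)
  (PL.C (nat_lit 0xcc9f66) (nat_lit 0x134cfd7904e800) (nat_lit 0x0)
  (PL.C (nat_lit 0xcca446) (nat_lit 0x169a1affdd0ef80) (nat_lit 0x0) lm1_79))))))))))))))))))))

noncomputable def lm1_77 : PL :=
  (PL.C (nat_lit 0xc0c2ae) (nat_lit 0x0) (nat_lit 0x36c2d08044e40)
  (PL.C (nat_lit 0xc174ec) (nat_lit 0x657e583cdf30900) (nat_lit 0x0)
  (PL.C (nat_lit 0xc1ab94) (nat_lit 0x8522d029d2400) (nat_lit 0x0)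
  (PL.C (nat_lit 0xc1c4cd) (nat_lit 0x246c7126a60b800) (nat_lit 0x0)
  (PL.C (nat_lit 0xc270cc) (nat_lit 0x0) (nat_lit 0x19f12df78b4400)
  (PL.C (nat_lit 0xc28584) (nat_lit 0x29f02a832a77a00) (nat_lit 0x0)
  (PL.C (nat_lit 0xc2c115) (nat_lit 0x4715a90014400) (nat_lit 0x0)
  (PL.C (nat_lit 0xc2d94e) (nat_lit 0xcaddb677444e00) (nat_lit 0x0)
  (PL.C (nat_lit 0xc39b18) (nat_lit 0x96ff819934ba00) (nat_lit 0x0)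
  (PL.C (nat_lit 0xc3c8af) (nat_lit 0xdca8ee418db0c0) (nat_lit 0x0)
  (PL.C (nat_lit 0xc3d6fe) (nat_lit 0x8f4c57caa2000) (nat_lit 0x0)
  (PL.C (nat_lit 0xc3f91c) (nat_lit 0x0) (nat_lit 0x8522d029d2400)
  (PL.C (nat_lit 0xc4499c) (nat_lit 0x0) (nat_lit 0x26bdde577b7900)
  (PL.C (nat_lit 0xc54a28) (nat_lit 0xf49ddbe37600) (nat_lit 0x0)
  (PL.C (nat_lit 0xc56f64) (nat_lit 0x0) (nat_lit 0x950b3f746eb00)
  (PL.C (nat_lit 0xc58692) (nat_lit 0x11e98af9544000) (nat_lit 0x0)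
  (PL.C (nat_lit 0xc5da7d) (nat_lit 0xe9284fa1278500) (nat_lit 0x0)
  (PL.C (nat_lit 0xc61263) (nat_lit 0x13ea92a3096080) (nat_lit 0x0)
  (PL.C (nat_lit 0xc63d83) (nat_lit 0x0) (nat_lit 0x2dedf088a0e80)
  (PL.C (nat_lit 0xc6534c) (nat_lit 0x0) (nat_lit 0x309ddca849180) lm1_78))))))))))))))))))))

noncomputable def lm1_76 : PL :=
  (PL.C (nat_lit 0xb97652) (nat_lit 0x45040f9bb5176c0) (nat_lit 0x0)
  (PL.C (nat_lit 0xb98092) (nat_lit 0x36a1c50d848000) (nat_lit 0x0)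
  (PL.C (nat_lit 0xb98648) (nat_lit 0x11b505e06200) (nat_lit 0x0)
  (PL.C (nat_lit 0xb9e032) (nat_lit 0x104878b6932b00) (nat_lit 0x0)
  (PL.C (nat_lit 0xbb195e) (nat_lit 0x36a1c50d848000) (nat_lit 0x0)
  (PL.C (nat_lit 0xbb3ef6) (nat_lit 0x112f7ec0eb1de00) (nat_lit 0x0)
  (PL.C (nat_lit 0xbb68db) (nat_lit 0x11ace0bbc4f6940) (nat_lit 0x0)
  (PL.C (nat_lit 0xbb8ea4) (nat_lit 0x0) (nat_lit 0x5058707477280)
  (PL.C (nat_lit 0xbc5273) (nat_lit 0x230426da76f1510) (nat_lit 0x0)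
  (PL.C (nat_lit 0xbc97e7) (nat_lit 0xdf72a3da59f300) (nat_lit 0x0)
  (PL.C (nat_lit 0xbccedd) (nat_lit 0x0) (nat_lit 0x272e46b027b0180)
  (PL.C (nat_lit 0xbd14ba) (nat_lit 0xb021bc7794bc80) (nat_lit 0x0)
  (PL.C (nat_lit 0xbd9d4a) (nat_lit 0x104878b6932b00) (nat_lit 0x0)
  (PL.C (nat_lit 0xbe2e04) (nat_lit 0x0) (nat_lit 0x19f12df78b4400)
  (PL.C (nat_lit 0xbecc74) (nat_lit 0x33e25bef168800) (nat_lit 0x0)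
  (PL.C (nat_lit 0xbed967) (nat_lit 0x0) (nat_lit 0x4f035d4475b16c0)
  (PL.C (nat_lit 0xbf45d2) (nat_lit 0x7c6a642b3da420) (nat_lit 0x0)
  (PL.C (nat_lit 0xbf6ee4) (nat_lit 0x19235c6cf02800) (nat_lit 0x0)
  (PL.C (nat_lit 0xc045f3) (nat_lit 0x12906529eb1280) (nat_lit 0x0)
  (PL.C (nat_lit 0xc070ec) (nat_lit 0x33e25bef168800) (nat_lit 0x0) lm1_77))))))))))))))))))))

noncomputable def lm1_75 : PL :=
  (PL.C (nat_lit 0xb3631c) (nat_lit 0x94f58d783a080) (nat_lit 0x0)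
  (PL.C (nat_lit 0xb370a8) (nat_lit 0xe77853175da00) (nat_lit 0x0)
  (PL.C (nat_lit 0xb3b659) (nat_lit 0x0) (nat_lit 0x2de8cd6ab4e80)
  (PL.C (nat_lit 0xb3bce4) (nat_lit 0x5b3696577fc7c0) (nat_lit 0x0)
  (PL.C (nat_lit 0xb49e02) (nat_lit 0x0) (nat_lit 0x43721971d9f40)
  (PL.C (nat_lit 0xb4fc18) (nat_lit 0x73bc298baed00) (nat_lit 0x0)
  (PL.C (nat_lit 0xb540b4) (nat_lit 0x2674b932f02680) (nat_lit 0x0)
  (PL.C (nat_lit 0xb548fc) (nat_lit 0xdf8c95859fd300) (nat_lit 0x0)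
  (PL.C (nat_lit 0xb56c89) (nat_lit 0x0) (nat_lit 0xa4da62890e180)
  (PL.C (nat_lit 0xb58b8b) (nat_lit 0x0) (nat_lit 0x1133d7f287000)
  (PL.C (nat_lit 0xb68929) (nat_lit 0x6780cf0a33b5000) (nat_lit 0x0)
  (PL.C (nat_lit 0xb73eb4) (nat_lit 0x5e918f914f052c0) (nat_lit 0x0)
  (PL.C (nat_lit 0xb76156) (nat_lit 0x550e3b220c2b80) (nat_lit 0x0)
  (PL.C (nat_lit 0xb776d1) (nat_lit 0x12906529eb1280) (nat_lit 0x0)
  (PL.C (nat_lit 0xb7da18) (nat_lit 0xb183c037c3000) (nat_lit 0x0)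
  (PL.C (nat_lit 0xb817b8) (nat_lit 0xa997a89805780) (nat_lit 0x0)
  (PL.C (nat_lit 0xb86704) (nat_lit 0x67c4b7de2d1000) (nat_lit 0x0)
  (PL.C (nat_lit 0xb86f23) (nat_lit 0xf7244bc0f1c0200) (nat_lit 0x0)
  (PL.C (nat_lit 0xb919ae) (nat_lit 0xa59a86c7489480) (nat_lit 0x0)
  (PL.C (nat_lit 0xb96698) (nat_lit 0x94b3a519bcbb80) (nat_lit 0x0) lm1_76))))))))))))))))))))

noncomputable def lm1_74 : PL :=
  (PL.C (nat_lit 0xac4bfb) (nat_lit 0x4715a90014400) (nat_lit 0x0)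
  (PL.C (nat_lit 0xac5b0c) (nat_lit 0x0) (nat_lit 0x4925248b5280)
  (PL.C (nat_lit 0xacbfde) (nat_lit 0x10cd37c7cab62e00) (nat_lit 0x0)
  (PL.C (nat_lit 0xad020a) (nat_lit 0x0) (nat_lit 0x1d40366245c400)
  (PL.C (nat_lit 0xad7456) (nat_lit 0x19c08f43fd02bc0) (nat_lit 0x0)
  (PL.C (nat_lit 0xadbb96) (nat_lit 0x0) (nat_lit 0x1f72b19d16b80)
  (PL.C (nat_lit 0xadbe07) (nat_lit 0x18613c7ed8794160) (nat_lit 0x0)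
  (PL.C (nat_lit 0xae8bca) (nat_lit 0x475e8f82b7e280) (nat_lit 0x0)
  (PL.C (nat_lit 0xaee0a3) (nat_lit 0x35503ec00f300) (nat_lit 0x0)
  (PL.C (nat_lit 0xaf5462) (nat_lit 0x13b3b442f97f780) (nat_lit 0x0)
  (PL.C (nat_lit 0xafaa81) (nat_lit 0x11c56a40051000) (nat_lit 0x0)
  (PL.C (nat_lit 0xafb7fc) (nat_lit 0x0) (nat_lit 0x380136e941380)
  (PL.C (nat_lit 0xafedcb) (nat_lit 0x0) (nat_lit 0x1133d7f287000)
  (PL.C (nat_lit 0xb06205) (nat_lit 0x1aa81f6007980) (nat_lit 0x0)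
  (PL.C (nat_lit 0xb0f823) (nat_lit 0x0) (nat_lit 0xab2f67c369f40)
  (PL.C (nat_lit 0xb177f4) (nat_lit 0x67c4b7de2d1000) (nat_lit 0x0)
  (PL.C (nat_lit 0xb1c13b) (nat_lit 0x0) (nat_lit 0x11c56a40051000)
  (PL.C (nat_lit 0xb1e898) (nat_lit 0x73bc298baed00) (nat_lit 0x0)
  (PL.C (nat_lit 0xb27abc) (nat_lit 0x6d01efa66e27b00) (nat_lit 0x0)
  (PL.C (nat_lit 0xb2bee2) (nat_lit 0x23d315f2a88000) (nat_lit 0x0) lm1_75))))))))))))))))))))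

noncomputable def lm1_73 : PL :=
  (PL.C (nat_lit 0xa5499b) (nat_lit 0x24a20fac53f480) (nat_lit 0x0)
  (PL.C (nat_lit 0xa56e8c) (nat_lit 0x0) (nat_lit 0x13e411fbe78ec00)
  (PL.C (nat_lit 0xa5cdb4) (nat_lit 0x105aa3f62a3c6c0) (nat_lit 0x0)
  (PL.C (nat_lit 0xa5de7e) (nat_lit 0x2cb2d643a62400) (nat_lit 0x0)
  (PL.C (nat_lit 0xa63182) (nat_lit 0x0) (nat_lit 0x6b5b1e4f4c7f00)
  (PL.C (nat_lit 0xa69062) (nat_lit 0x0) (nat_lit 0x8f4c57caa2000)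
  (PL.C (nat_lit 0xa73864) (nat_lit 0x0) (nat_lit 0x12e3547c0ab3d00)
  (PL.C (nat_lit 0xa7733f) (nat_lit 0x45f228fe88e00) (nat_lit 0x0)
  (PL.C (nat_lit 0xa942ad) (nat_lit 0x0) (nat_lit 0x840878b919dc0)
  (PL.C (nat_lit 0xa95d9e) (nat_lit 0x6b5b1e4f4c7f00) (nat_lit 0x0)
  (PL.C (nat_lit 0xa96faa) (nat_lit 0x0) (nat_lit 0x92890a56848740)
  (PL.C (nat_lit 0xa9c508) (nat_lit 0xbca19cc7100) (nat_lit 0x0)
  (PL.C (nat_lit 0xa9cd82) (nat_lit 0x10c310595e4d80) (nat_lit 0x0)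
  (PL.C (nat_lit 0xa9eb04) (nat_lit 0x4052b10ad75840) (nat_lit 0x0)
  (PL.C (nat_lit 0xaa227e) (nat_lit 0x1399fc1909afc0) (nat_lit 0x0)
  (PL.C (nat_lit 0xaa839e) (nat_lit 0x35bca0ebfcc00) (nat_lit 0x0)
  (PL.C (nat_lit 0xab054f) (nat_lit 0x0) (nat_lit 0x1c089b53dcc2200)
  (PL.C (nat_lit 0xab2f9c) (nat_lit 0x92aaf05ae3c0) (nat_lit 0x0)
  (PL.C (nat_lit 0xabf95a) (nat_lit 0x3003a63833e1100) (nat_lit 0x0)
  (PL.C (nat_lit 0xac04f4) (nat_lit 0x5e684b1a6a00) (nat_lit 0x0) lm1_74))))))))))))))))))))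

noncomputable def lm1_72 : PL :=
  (PL.C (nat_lit 0x9ee43d) (nat_lit 0x8fb2584cdf0c00) (nat_lit 0x0)
  (PL.C (nat_lit 0x9f33c3) (nat_lit 0xb01dd0f4b4300) (nat_lit 0x0)
  (PL.C (nat_lit 0x9f5ef0) (nat_lit 0xa5e51e1dc7d00) (nat_lit 0x0)
  (PL.C (nat_lit 0x9f7782) (nat_lit 0x0) (nat_lit 0x16c53766a4500)
  (PL.C (nat_lit 0x9f8244) (nat_lit 0x7ed22b57d30300) (nat_lit 0x0)
  (PL.C (nat_lit 0x9f9d22) (nat_lit 0x775a77c73988140) (nat_lit 0x0)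
  (PL.C (nat_lit 0xa02f96) (nat_lit 0x0) (nat_lit 0xd27e46cf58900)
  (PL.C (nat_lit 0xa06cf2) (nat_lit 0x1cb07eab391880) (nat_lit 0x0)
  (PL.C (nat_lit 0xa0d6ee) (nat_lit 0x0) (nat_lit 0xfd5ff20ffce40)
  (PL.C (nat_lit 0xa11b43) (nat_lit 0x0) (nat_lit 0x3be45b58e92540)
  (PL.C (nat_lit 0xa19974) (nat_lit 0x24e501cbd3d69c0) (nat_lit 0x0)
  (PL.C (nat_lit 0xa24eff) (nat_lit 0xe3a28a1afcca80) (nat_lit 0x0)
  (PL.C (nat_lit 0xa2501c) (nat_lit 0xb51a1ed4a57900) (nat_lit 0x0)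
  (PL.C (nat_lit 0xa29321) (nat_lit 0x0) (nat_lit 0x1aa81f6007980)
  (PL.C (nat_lit 0xa2f06c) (nat_lit 0xc23341f7e38080) (nat_lit 0x0)
  (PL.C (nat_lit 0xa37ce4) (nat_lit 0x13e411fbe78ec00) (nat_lit 0x0)
  (PL.C (nat_lit 0xa3baa4) (nat_lit 0xe62f7f4815d000) (nat_lit 0x0)
  (PL.C (nat_lit 0xa3e026) (nat_lit 0x0) (nat_lit 0x1d5ce6d188f400)
  (PL.C (nat_lit 0xa4db28) (nat_lit 0x0) (nat_lit 0x73bc298baed00)
  (PL.C (nat_lit 0xa545ab) (nat_lit 0xdca8ee418db0c0) (nat_lit 0x0) lm1_73))))))))))))))))))))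

noncomputable def lm1_71 : PL :=
  (PL.C (nat_lit 0x996bd8) (nat_lit 0x94b3a519bcbb80) (nat_lit 0x0)
  (PL.C (nat_lit 0x998ee8) (nat_lit 0x0) (nat_lit 0xb183c037c3000)
  (PL.C (nat_lit 0x999b52) (nat_lit 0x0) (nat_lit 0x4ed363c6d10000)
  (PL.C (nat_lit 0x9a1b4a) (nat_lit 0x9da6c78da20000) (nat_lit 0x0)
  (PL.C (nat_lit 0x9a3398) (nat_lit 0x0) (nat_lit 0x73bc298baed00)
  (PL.C (nat_lit 0x9a7d51) (nat_lit 0x4641d3f78521600) (nat_lit 0x0)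
  (PL.C (nat_lit 0x9acd2e) (nat_lit 0x2cb2d643a62400) (nat_lit 0x0)
  (PL.C (nat_lit 0x9b087a) (nat_lit 0x0) (nat_lit 0xb4b1f8fbb300)
  (PL.C (nat_lit 0x9b6ee6) (nat_lit 0x9da6c78da20000) (nat_lit 0x0)
  (PL.C (nat_lit 0x9baa14) (nat_lit 0xc9f349cc80d800) (nat_lit 0x0)
  (PL.C (nat_lit 0x9bb0ef) (nat_lit 0x3279b5e05cbf880) (nat_lit 0x0)
  (PL.C (nat_lit 0x9c40e6) (nat_lit 0x10cd37c7cab62e00) (nat_lit 0x0)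
  (PL.C (nat_lit 0x9c8f1a) (nat_lit 0x6c0903b8b846c0) (nat_lit 0x0)
  (PL.C (nat_lit 0x9ce87a) (nat_lit 0x0) (nat_lit 0x5158b97fc7780)
  (PL.C (nat_lit 0x9d0c56) (nat_lit 0x0) (nat_lit 0x4ed363c6d10000)
  (PL.C (nat_lit 0x9d1d12) (nat_lit 0x1637e06afbd9640) (nat_lit 0x0)
  (PL.C (nat_lit 0x9d60bf) (nat_lit 0x45f228fe88e00) (nat_lit 0x0)
  (PL.C (nat_lit 0x9d8488) (nat_lit 0x0) (nat_lit 0x1a6e385d2c380)
  (PL.C (nat_lit 0x9e5dfe) (nat_lit 0x0) (nat_lit 0x1620b9ba6e8c0)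
  (PL.C (nat_lit 0x9eb3a4) (nat_lit 0x94f58d783a080) (nat_lit 0x0) lm1_72))))))))))))))))))))

noncomputable def lm1_70 : PL :=
  (PL.C (nat_lit 0x9318bd) (nat_lit 0x0) (nat_lit 0x74de8301af8c0)
  (PL.C (nat_lit 0x93e054) (nat_lit 0x16fc65e13d3dd00) (nat_lit 0x0)
  (PL.C (nat_lit 0x94016a) (nat_lit 0xf40484c9a1e89c0) (nat_lit 0x0)
  (PL.C (nat_lit 0x941d63) (nat_lit 0xb01dd0f4b4300) (nat_lit 0x0)
  (PL.C (nat_lit 0x947558) (nat_lit 0x11b505e06200) (nat_lit 0x0)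
  (PL.C (nat_lit 0x947eec) (nat_lit 0xb51a1ed4a57900) (nat_lit 0x0)
  (PL.C (nat_lit 0x951c26) (nat_lit 0xfae98a6c4c50) (nat_lit 0x0)
  (PL.C (nat_lit 0x955966) (nat_lit 0x0) (nat_lit 0x3737fce0f4500)
  (PL.C (nat_lit 0x95bf2c) (nat_lit 0x0) (nat_lit 0x48098282e2a080)
  (PL.C (nat_lit 0x95d8c4) (nat_lit 0x5e684b1a6a00) (nat_lit 0x0)
  (PL.C (nat_lit 0x95f781) (nat_lit 0x0) (nat_lit 0x3b6e2d678d840)
  (PL.C (nat_lit 0x963178) (nat_lit 0x0) (nat_lit 0xb183c037c3000)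
  (PL.C (nat_lit 0x96811b) (nat_lit 0x5495a0cfe31980) (nat_lit 0x0)
  (PL.C (nat_lit 0x96ae98) (nat_lit 0x16307806f86000) (nat_lit 0x0)
  (PL.C (nat_lit 0x96b8d2) (nat_lit 0x145f27faa0c2c0) (nat_lit 0x0)
  (PL.C (nat_lit 0x973cb3) (nat_lit 0x262c9a15bd1d500) (nat_lit 0x0)
  (PL.C (nat_lit 0x975c88) (nat_lit 0x710474fa92c400) (nat_lit 0x0)
  (PL.C (nat_lit 0x97d51a) (nat_lit 0xec27f6d45c00) (nat_lit 0x0)
  (PL.C (nat_lit 0x97faa8) (nat_lit 0x16307806f86000) (nat_lit 0x0)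
  (PL.C (nat_lit 0x99266d) (nat_lit 0x3e917b8162a80) (nat_lit 0x0) lm1_71))))))))))))))))))))

noncomputable def lm1_69 : PL :=
  (PL.C (nat_lit 0x8f570a) (nat_lit 0x14c109f74a24d80) (nat_lit 0x0)
  (PL.C (nat_lit 0x8f8c14) (nat_lit 0x0) (nat_lit 0x309ddca849180)
  (PL.C (nat_lit 0x8fb809) (nat_lit 0x11c56a40051000) (nat_lit 0x0)
  (PL.C (nat_lit 0x8fd3ec) (nat_lit 0x1dbac56a3ec80) (nat_lit 0x0)
  (PL.C (nat_lit 0x90280e) (nat_lit 0x8cd91539806fd80) (nat_lit 0x0)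
  (PL.C (nat_lit 0x9057e4) (nat_lit 0x42346550ae9800) (nat_lit 0x0)
  (PL.C (nat_lit 0x905f19) (nat_lit 0x6aa07d801e600) (nat_lit 0x0)
  (PL.C (nat_lit 0x90e3be) (nat_lit 0x1242e7779450580) (nat_lit 0x0)
  (PL.C (nat_lit 0x912c42) (nat_lit 0x19c08f43fd02bc0) (nat_lit 0x0)
  (PL.C (nat_lit 0x9173d8) (nat_lit 0x47f1a9fc3bc880) (nat_lit 0x0)
  (PL.C (nat_lit 0x917f22) (nat_lit 0x33dc1c2d2b800) (nat_lit 0x0)
  (PL.C (nat_lit 0x9195fc) (nat_lit 0x211a32a8574c00) (nat_lit 0x0)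
  (PL.C (nat_lit 0x91a7da) (nat_lit 0xd5f3fc04171a40) (nat_lit 0x0)
  (PL.C (nat_lit 0x91d3d6) (nat_lit 0xa59a86c7489480) (nat_lit 0x0)
  (PL.C (nat_lit 0x920bb2) (nat_lit 0x0) (nat_lit 0x31c69fd614c80)
  (PL.C (nat_lit 0x9211e4) (nat_lit 0x0) (nat_lit 0xd26ac6178ce40)
  (PL.C (nat_lit 0x926c2e) (nat_lit 0x3003a63833e1100) (nat_lit 0x0)
  (PL.C (nat_lit 0x92a25c) (nat_lit 0x0) (nat_lit 0x1e25bc6f3ee580)
  (PL.C (nat_lit 0x92aa63) (nat_lit 0x271fa0e4d20a840) (nat_lit 0x0)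
  (PL.C (nat_lit 0x92cf43) (nat_lit 0x541240f93b600) (nat_lit 0x0) lm1_70))))))))))))))))))))

noncomputable def lm1_68 : PL :=
  (PL.C (nat_lit 0x891f24) (nat_lit 0x0) (nat_lit 0x28df88424b000)
  (PL.C (nat_lit 0x893dd2) (nat_lit 0x7ac81e115b53c0) (nat_lit 0x0)
  (PL.C (nat_lit 0x8992a7) (nat_lit 0x75ba1cc29100) (nat_lit 0x0)
  (PL.C (nat_lit 0x89e8e2) (nat_lit 0x1e67e7f60d7ab40) (nat_lit 0x0)
  (PL.C (nat_lit 0x8a00de) (nat_lit 0x35bca0ebfcc00) (nat_lit 0x0)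
  (PL.C (nat_lit 0x8a43fe) (nat_lit 0x0) (nat_lit 0x2f2c0a6ba2140)
  (PL.C (nat_lit 0x8b0f65) (nat_lit 0x4f53bd2665500) (nat_lit 0x0)
  (PL.C (nat_lit 0x8b8747) (nat_lit 0x4f20d97e7333c80) (nat_lit 0x0)
  (PL.C (nat_lit 0x8c04f6) (nat_lit 0x550e3b220c2b80) (nat_lit 0x0)
  (PL.C (nat_lit 0x8c120c) (nat_lit 0x0) (nat_lit 0x611ea820cab140)
  (PL.C (nat_lit 0x8c2798) (nat_lit 0x56c29bebe7c980) (nat_lit 0x0)
  (PL.C (nat_lit 0x8c4b0a) (nat_lit 0x0) (nat_lit 0x2d088746e2b00)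
  (PL.C (nat_lit 0x8c9038) (nat_lit 0xa997a89805780) (nat_lit 0x0)
  (PL.C (nat_lit 0x8cb236) (nat_lit 0x33dc1c2d2b800) (nat_lit 0x0)
  (PL.C (nat_lit 0x8cbde8) (nat_lit 0x1cef0a62ebb400) (nat_lit 0x0)
  (PL.C (nat_lit 0x8cca42) (nat_lit 0x36ad10f427a400) (nat_lit 0x0)
  (PL.C (nat_lit 0x8d06e7) (nat_lit 0x0) (nat_lit 0x11c56a40051000)
  (PL.C (nat_lit 0x8d28f4) (nat_lit 0x0) (nat_lit 0x14671d586866040)
  (PL.C (nat_lit 0x8ef896) (nat_lit 0x2d088746e2b00) (nat_lit 0x0)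
  (PL.C (nat_lit 0x8f07d2) (nat_lit 0x0) (nat_lit 0x9a3957037208c0) lm1_69))))))))))))))))))))

noncomputable def lm1_67 : PL :=
  (PL.C (nat_lit 0x84ce89) (nat_lit 0x217ce9cb6bde80) (nat_lit 0x0)
  (PL.C (nat_lit 0x84d9fb) (nat_lit 0x0) (nat_lit 0x5d89b33e271900)
  (PL.C (nat_lit 0x85462a) (nat_lit 0x475e8f82b7e280) (nat_lit 0x0)
  (PL.C (nat_lit 0x855e1c) (nat_lit 0x0) (nat_lit 0x5b042add7add40)
  (PL.C (nat_lit 0x8586f3) (nat_lit 0x1aa81f6007980) (nat_lit 0x0)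
  (PL.C (nat_lit 0x859e36) (nat_lit 0x0) (nat_lit 0x1399fc1909afc0)
  (PL.C (nat_lit 0x86304c) (nat_lit 0x0) (nat_lit 0x211a32a8574c00)
  (PL.C (nat_lit 0x868404) (nat_lit 0x0) (nat_lit 0x950b3f746eb00)
  (PL.C (nat_lit 0x86ad35) (nat_lit 0x35503ec00f300) (nat_lit 0x0)
  (PL.C (nat_lit 0x86bd2a) (nat_lit 0x0) (nat_lit 0x381d9c1feb1340)
  (PL.C (nat_lit 0x86efc8) (nat_lit 0x1cef0a62ebb400) (nat_lit 0x0)
  (PL.C (nat_lit 0x871002) (nat_lit 0x0) (nat_lit 0x2bb7f7f59de100)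
  (PL.C (nat_lit 0x875cbc) (nat_lit 0x2674b932f02680) (nat_lit 0x0)
  (PL.C (nat_lit 0x877197) (nat_lit 0x0) (nat_lit 0x840878b919dc0)
  (PL.C (nat_lit 0x87f84c) (nat_lit 0x4052b10ad75840) (nat_lit 0x0)
  (PL.C (nat_lit 0x8821ef) (nat_lit 0x5495a0cfe31980) (nat_lit 0x0)
  (PL.C (nat_lit 0x886611) (nat_lit 0x0) (nat_lit 0xdf82000044400)
  (PL.C (nat_lit 0x886a44) (nat_lit 0x19235c6cf02800) (nat_lit 0x0)
  (PL.C (nat_lit 0x886d84) (nat_lit 0x32f932fda5d3480) (nat_lit 0x0)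
  (PL.C (nat_lit 0x88e868) (nat_lit 0x710474fa92c400) (nat_lit 0x0) lm1_68))))))))))))))))))))

noncomputable def lm1_66 : PL :=
  (PL.C (nat_lit 0x804b48) (nat_lit 0x16307806f86000) (nat_lit 0x0)
  (PL.C (nat_lit 0x80eb39) (nat_lit 0x0) (nat_lit 0x3be45b58e92540)
  (PL.C (nat_lit 0x80f259) (nat_lit 0x2d0283cc8c8500) (nat_lit 0x0)
  (PL.C (nat_lit 0x812dde) (nat_lit 0x30e6b877dd72e00) (nat_lit 0x0)
  (PL.C (nat_lit 0x816183) (nat_lit 0x1d15a46151800) (nat_lit 0x0)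
  (PL.C (nat_lit 0x81a088) (nat_lit 0x0) (nat_lit 0xb183c037c3000)
  (PL.C (nat_lit 0x81ae58) (nat_lit 0x0) (nat_lit 0x67183da3f7c00)
  (PL.C (nat_lit 0x81d60e) (nat_lit 0x8f4c57caa2000) (nat_lit 0x0)
  (PL.C (nat_lit 0x81e634) (nat_lit 0xe62f7f4815d000) (nat_lit 0x0)
  (PL.C (nat_lit 0x8285ca) (nat_lit 0xdbe218acd48900) (nat_lit 0x0)
  (PL.C (nat_lit 0x828f54) (nat_lit 0x211a32a8574c00) (nat_lit 0x0)
  (PL.C (nat_lit 0x839f98) (nat_lit 0x0) (nat_lit 0x65ecceedfaf00)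
  (PL.C (nat_lit 0x83af0c) (nat_lit 0x42346550ae9800) (nat_lit 0x0)
  (PL.C (nat_lit 0x83e6fe) (nat_lit 0x169a1affdd0ef80) (nat_lit 0x0)
  (PL.C (nat_lit 0x840c42) (nat_lit 0x1399fc1909afc0) (nat_lit 0x0)
  (PL.C (nat_lit 0x842902) (nat_lit 0x6f38462a29a00) (nat_lit 0x0)
  (PL.C (nat_lit 0x843788) (nat_lit 0x3d033196e1c00) (nat_lit 0x0)
  (PL.C (nat_lit 0x843e22) (nat_lit 0x37bcf60cc7bf40) (nat_lit 0x0)
  (PL.C (nat_lit 0x84a0da) (nat_lit 0x1637e06afbd9640) (nat_lit 0x0)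
  (PL.C (nat_lit 0x84c1a8) (nat_lit 0x2b49ba60d3bc80) (nat_lit 0x0) lm1_67))))))))))))))))))))

noncomputable def lm1_65 : PL :=
  (PL.C (nat_lit 0x7af4c2) (nat_lit 0x0) (nat_lit 0x1d443a549e41a80)
  (PL.C (nat_lit 0x7b3087) (nat_lit 0x553e79f4a1b100) (nat_lit 0x0)
  (PL.C (nat_lit 0x7b6674) (nat_lit 0x16162f3d88c1680) (nat_lit 0x0)
  (PL.C (nat_lit 0x7bab0c) (nat_lit 0x6f7577fb186200) (nat_lit 0x0)
  (PL.C (nat_lit 0x7beacc) (nat_lit 0x11edb4ba299280) (nat_lit 0x0)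
  (PL.C (nat_lit 0x7c4001) (nat_lit 0x553e79f4a1b100) (nat_lit 0x0)
  (PL.C (nat_lit 0x7cbb94) (nat_lit 0x6f7577fb186200) (nat_lit 0x0)
  (PL.C (nat_lit 0x7cd4a4) (nat_lit 0x16fc65e13d3dd00) (nat_lit 0x0)
  (PL.C (nat_lit 0x7cf092) (nat_lit 0x13b3b442f97f780) (nat_lit 0x0)
  (PL.C (nat_lit 0x7d082f) (nat_lit 0xdf72a3da59f300) (nat_lit 0x0)
  (PL.C (nat_lit 0x7dba9a) (nat_lit 0x14c109f74a24d80) (nat_lit 0x0)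
  (PL.C (nat_lit 0x7ddf3e) (nat_lit 0x16ba60c6daeadd0) (nat_lit 0x0)
  (PL.C (nat_lit 0x7e346b) (nat_lit 0x4d97b2bd6028680) (nat_lit 0x0)
  (PL.C (nat_lit 0x7e68dc) (nat_lit 0x11edb4ba299280) (nat_lit 0x0)
  (PL.C (nat_lit 0x7e7395) (nat_lit 0x0) (nat_lit 0x272e46b027b0180)
  (PL.C (nat_lit 0x7ebbc5) (nat_lit 0x3e917b8162a80) (nat_lit 0x0)
  (PL.C (nat_lit 0x7ec958) (nat_lit 0x0) (nat_lit 0xb183c037c3000)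
  (PL.C (nat_lit 0x7f32f8) (nat_lit 0x16307806f86000) (nat_lit 0x0)
  (PL.C (nat_lit 0x7f3b9a) (nat_lit 0x21bfc84133bef50) (nat_lit 0x0)
  (PL.C (nat_lit 0x802ea2) (nat_lit 0x4125940d48f00) (nat_lit 0x0) lm1_66))))))))))))))))))))

noncomputable def lm1_64 : PL :=
  (PL.C (nat_lit 0x75c8a3) (nat_lit 0x4d97b2bd6028680) (nat_lit 0x0)
  (PL.C (nat_lit 0x75f5c1) (nat_lit 0x0) (nat_lit 0x19a0c37f46800)
  (PL.C (nat_lit 0x75fac2) (nat_lit 0x0) (nat_lit 0x43d25c3a69080)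
  (PL.C (nat_lit 0x7643af) (nat_lit 0x1c10f02201c4780) (nat_lit 0x0)
  (PL.C (nat_lit 0x764ff8) (nat_lit 0x2c60f00df0c000) (nat_lit 0x0)
  (PL.C (nat_lit 0x7680d2) (nat_lit 0x0) (nat_lit 0x23d315f2a88000)
  (PL.C (nat_lit 0x769b10) (nat_lit 0xa5e51e1dc7d00) (nat_lit 0x0)
  (PL.C (nat_lit 0x7729ec) (nat_lit 0x8468caa15d3000) (nat_lit 0x0)
  (PL.C (nat_lit 0x778afd) (nat_lit 0x60e64c29fcc9a40) (nat_lit 0x0)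
  (PL.C (nat_lit 0x779768) (nat_lit 0x0) (nat_lit 0x733e6333301900)
  (PL.C (nat_lit 0x77a070) (nat_lit 0x14bca3c3b8fa00) (nat_lit 0x0)
  (PL.C (nat_lit 0x77cee6) (nat_lit 0x0) (nat_lit 0xa7355428f2b80)
  (PL.C (nat_lit 0x78a810) (nat_lit 0xa5e51e1dc7d00) (nat_lit 0x0)
  (PL.C (nat_lit 0x78f306) (nat_lit 0x0) (nat_lit 0x8524c64a9b180)
  (PL.C (nat_lit 0x7907b2) (nat_lit 0x0) (nat_lit 0x35c66a3830400)
  (PL.C (nat_lit 0x79b0c6) (nat_lit 0x8cd91539806fd80) (nat_lit 0x0)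
  (PL.C (nat_lit 0x79df3d) (nat_lit 0x6aa07d801e600) (nat_lit 0x0)
  (PL.C (nat_lit 0x7a40e4) (nat_lit 0xc9f349cc80d800) (nat_lit 0x0)
  (PL.C (nat_lit 0x7a4f36) (nat_lit 0x4125940d48f00) (nat_lit 0x0)
  (PL.C (nat_lit 0x7aef58) (nat_lit 0x2c60f00df0c000) (nat_lit 0x0) lm1_65))))))))))))))))))))

noncomputable def lm1_63 : PL :=
  (PL.C (nat_lit 0x7190fd) (nat_lit 0x0) (nat_lit 0x1aa81f6007980)
  (PL.C (nat_lit 0x71ad14) (nat_lit 0xc69d2ff20bc80) (nat_lit 0x0)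
  (PL.C (nat_lit 0x72038a) (nat_lit 0x0) (nat_lit 0x1ed15f5349e2680)
  (PL.C (nat_lit 0x72a63c) (nat_lit 0x6a1e4580e027fe0) (nat_lit 0x0)
  (PL.C (nat_lit 0x72adf8) (nat_lit 0xbca19cc7100) (nat_lit 0x0)
  (PL.C (nat_lit 0x72dd52) (nat_lit 0x8f4c57caa2000) (nat_lit 0x0)
  (PL.C (nat_lit 0x732a94) (nat_lit 0x104dc3ce7abe8100) (nat_lit 0x0)
  (PL.C (nat_lit 0x737a03) (nat_lit 0x13ea92a3096080) (nat_lit 0x0)
  (PL.C (nat_lit 0x738651) (nat_lit 0x0) (nat_lit 0x1c089b53dcc2200)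
  (PL.C (nat_lit 0x73a2e4) (nat_lit 0x2cc44f0defe1220) (nat_lit 0x0)
  (PL.C (nat_lit 0x73c64d) (nat_lit 0x4faa4a8c258200) (nat_lit 0x0)
  (PL.C (nat_lit 0x746f1f) (nat_lit 0x43ce4231c0a0c80) (nat_lit 0x0)
  (PL.C (nat_lit 0x7495c2) (nat_lit 0x6b7941d7f9800) (nat_lit 0x0)
  (PL.C (nat_lit 0x74e2ec) (nat_lit 0x225f46c4594d040) (nat_lit 0x0)
  (PL.C (nat_lit 0x7506b7) (nat_lit 0x5bc9963fe32d80) (nat_lit 0x0)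
  (PL.C (nat_lit 0x751c56) (nat_lit 0x23d315f2a88000) (nat_lit 0x0)
  (PL.C (nat_lit 0x754149) (nat_lit 0x1c10f02201c4780) (nat_lit 0x0)
  (PL.C (nat_lit 0x754932) (nat_lit 0x0) (nat_lit 0x35c66a3830400)
  (PL.C (nat_lit 0x758439) (nat_lit 0xbeb39e0b3cc00) (nat_lit 0x0)
  (PL.C (nat_lit 0x7596ae) (nat_lit 0x35bca0ebfcc00) (nat_lit 0x0) lm1_64))))))))))))))))))))

noncomputable def lm1_62 : PL :=
  (PL.C (nat_lit 0x6ca048) (nat_lit 0x47f1a9fc3bc880) (nat_lit 0x0)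
  (PL.C (nat_lit 0x6cd3dd) (nat_lit 0x0) (nat_lit 0x4f035d4475b16c0)
  (PL.C (nat_lit 0x6d2718) (nat_lit 0x252ce9466f2ee00) (nat_lit 0x0)
  (PL.C (nat_lit 0x6de770) (nat_lit 0x0) (nat_lit 0xa5e51e1dc7d00)
  (PL.C (nat_lit 0x6e2e72) (nat_lit 0xdbe218acd48900) (nat_lit 0x0)
  (PL.C (nat_lit 0x6e3112) (nat_lit 0x4aed2bc731b200) (nat_lit 0x0)
  (PL.C (nat_lit 0x6e9454) (nat_lit 0x67c4b7de2d1000) (nat_lit 0x0)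
  (PL.C (nat_lit 0x6ecbac) (nat_lit 0x0) (nat_lit 0x13e411fbe78ec00)
  (PL.C (nat_lit 0x6ed331) (nat_lit 0x895db24658ccb90) (nat_lit 0x0)
  (PL.C (nat_lit 0x6ed951) (nat_lit 0x0) (nat_lit 0x53477e63970f00)
  (PL.C (nat_lit 0x6f0aec) (nat_lit 0x0) (nat_lit 0x211a32a8574c00)
  (PL.C (nat_lit 0x6fa22a) (nat_lit 0x4121e2da4cac00) (nat_lit 0x0)
  (PL.C (nat_lit 0x70d71e) (nat_lit 0x40cdd590b71640) (nat_lit 0x0)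
  (PL.C (nat_lit 0x70e914) (nat_lit 0x13e411fbe78ec00) (nat_lit 0x0)
  (PL.C (nat_lit 0x70f51c) (nat_lit 0x0) (nat_lit 0x14671d586866040)
  (PL.C (nat_lit 0x7117b3) (nat_lit 0xdf72a3da59f300) (nat_lit 0x0)
  (PL.C (nat_lit 0x7133ac) (nat_lit 0x26e9c4f350e600) (nat_lit 0x0)
  (PL.C (nat_lit 0x714758) (nat_lit 0x3675b2672fd580) (nat_lit 0x0)
  (PL.C (nat_lit 0x71504d) (nat_lit 0x0) (nat_lit 0x13ea92a3096080)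
  (PL.C (nat_lit 0x716c54) (nat_lit 0x3a1ccd83393580) (nat_lit 0x0) lm1_63))))))))))))))))))))

noncomputable def lm1_61 : PL :=
  (PL.C (nat_lit 0x68be0c) (nat_lit 0x28c1b157e306640) (nat_lit 0x0)
  (PL.C (nat_lit 0x68de1f) (nat_lit 0x1aa81f6007980) (nat_lit 0x0)
  (PL.C (nat_lit 0x68eb2a) (nat_lit 0x4121e2da4cac00) (nat_lit 0x0)
  (PL.C (nat_lit 0x69cd18) (nat_lit 0x0) (nat_lit 0x733e6333301900)
  (PL.C (nat_lit 0x69ed7e) (nat_lit 0x11f278145539400) (nat_lit 0x0)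
  (PL.C (nat_lit 0x6a2282) (nat_lit 0x10c310595e4d80) (nat_lit 0x0)
  (PL.C (nat_lit 0x6a4fac) (nat_lit 0x0) (nat_lit 0x63265619b3800)
  (PL.C (nat_lit 0x6a56d8) (nat_lit 0x62b918f0f88200) (nat_lit 0x0)
  (PL.C (nat_lit 0x6a8957) (nat_lit 0x4f20d97e7333c80) (nat_lit 0x0)
  (PL.C (nat_lit 0x6abea9) (nat_lit 0x0) (nat_lit 0x3ed03c387c8340)
  (PL.C (nat_lit 0x6aca64) (nat_lit 0x0) (nat_lit 0x20f48c76c2a700)
  (PL.C (nat_lit 0x6acfb9) (nat_lit 0x0) (nat_lit 0x4ea81729957cc0)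
  (PL.C (nat_lit 0x6af34c) (nat_lit 0x0) (nat_lit 0x611ea820cab140)
  (PL.C (nat_lit 0x6afb99) (nat_lit 0x0) (nat_lit 0xa4da62890e180)
  (PL.C (nat_lit 0x6b1f75) (nat_lit 0x24917f04b655600) (nat_lit 0x0)
  (PL.C (nat_lit 0x6b39f4) (nat_lit 0x0) (nat_lit 0x2da5aa6f2beac0)
  (PL.C (nat_lit 0x6b6782) (nat_lit 0x42493f5e80f5c90) (nat_lit 0x0)
  (PL.C (nat_lit 0x6c34aa) (nat_lit 0x1242e7779450580) (nat_lit 0x0)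
  (PL.C (nat_lit 0x6c3568) (nat_lit 0x4d7bbcaef6f200) (nat_lit 0x0)
  (PL.C (nat_lit 0x6c6216) (nat_lit 0x0) (nat_lit 0x35bca0ebfcc00) lm1_62))))))))))))))))))))

noncomputable def lm1_60 : PL :=
  (PL.C (nat_lit 0x64e9b1) (nat_lit 0x60e64c29fcc9a40) (nat_lit 0x0)
  (PL.C (nat_lit 0x6538bc) (nat_lit 0x5e684b1a6a00) (nat_lit 0x0)
  (PL.C (nat_lit 0x656779) (nat_lit 0x217ce9cb6bde80) (nat_lit 0x0)
  (PL.C (nat_lit 0x65aa77) (nat_lit 0x0) (nat_lit 0xe2cc8e0ab7ac80)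
  (PL.C (nat_lit 0x66199e) (nat_lit 0x8d08f9ffa60600) (nat_lit 0x0)
  (PL.C (nat_lit 0x66678c) (nat_lit 0x0) (nat_lit 0xb51a1ed4a57900)
  (PL.C (nat_lit 0x66bcdc) (nat_lit 0x16a343da94af200) (nat_lit 0x0)
  (PL.C (nat_lit 0x66c3d5) (nat_lit 0x0) (nat_lit 0x1d40be538d92c00)
  (PL.C (nat_lit 0x66cd10) (nat_lit 0x0) (nat_lit 0xa5e51e1dc7d00)
  (PL.C (nat_lit 0x66fe36) (nat_lit 0x1e67e7f60d7ab40) (nat_lit 0x0)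
  (PL.C (nat_lit 0x673374) (nat_lit 0x67c4b7de2d1000) (nat_lit 0x0)
  (PL.C (nat_lit 0x675afc) (nat_lit 0x0) (nat_lit 0x4925248b5280)
  (PL.C (nat_lit 0x6785a9) (nat_lit 0x0) (nat_lit 0x1133d7f287000)
  (PL.C (nat_lit 0x679f44) (nat_lit 0x16a343da94af200) (nat_lit 0x0)
  (PL.C (nat_lit 0x67c6b8) (nat_lit 0x56c29bebe7c980) (nat_lit 0x0)
  (PL.C (nat_lit 0x67cb4a) (nat_lit 0xd5f3fc04171a40) (nat_lit 0x0)
  (PL.C (nat_lit 0x682b44) (nat_lit 0x104dc3ce7abe8100) (nat_lit 0x0)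
  (PL.C (nat_lit 0x685647) (nat_lit 0x34c71cc8d574700) (nat_lit 0x0)
  (PL.C (nat_lit 0x689afc) (nat_lit 0x0) (nat_lit 0x48098282e2a080)
  (PL.C (nat_lit 0x68b2e4) (nat_lit 0x0) (nat_lit 0xb51a1ed4a57900) lm1_61))))))))))))))))))))

noncomputable def lm1_59 : PL :=
  (PL.C (nat_lit 0x6097d4) (nat_lit 0x2bf0b001749c800) (nat_lit 0x0)
  (PL.C (nat_lit 0x60c82c) (nat_lit 0x2cc44f0defe1220) (nat_lit 0x0)
  (PL.C (nat_lit 0x60ff6c) (nat_lit 0x94984fef0f980) (nat_lit 0x0)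
  (PL.C (nat_lit 0x610ea8) (nat_lit 0x1cef0a62ebb400) (nat_lit 0x0)
  (PL.C (nat_lit 0x6137e4) (nat_lit 0x16162f3d88c1680) (nat_lit 0x0)
  (PL.C (nat_lit 0x618555) (nat_lit 0x0) (nat_lit 0xe1f1e403c4200)
  (PL.C (nat_lit 0x619d74) (nat_lit 0x6a1e4580e027fe0) (nat_lit 0x0)
  (PL.C (nat_lit 0x61df82) (nat_lit 0x0) (nat_lit 0xd27e46cf58900)
  (PL.C (nat_lit 0x62107e) (nat_lit 0x0) (nat_lit 0x76598c85a8340)
  (PL.C (nat_lit 0x6249db) (nat_lit 0x1818d35d1079fec0) (nat_lit 0x0)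
  (PL.C (nat_lit 0x62ab9c) (nat_lit 0x1033dfc1f4d5e880) (nat_lit 0x0)
  (PL.C (nat_lit 0x62be42) (nat_lit 0x10c310595e4d80) (nat_lit 0x0)
  (PL.C (nat_lit 0x62c9d3) (nat_lit 0xb174ddf59fef80) (nat_lit 0x0)
  (PL.C (nat_lit 0x62ff48) (nat_lit 0x4d7bbcaef6f200) (nat_lit 0x0)
  (PL.C (nat_lit 0x634f89) (nat_lit 0xb72be5dd8b3d900) (nat_lit 0x0)
  (PL.C (nat_lit 0x63d4c8) (nat_lit 0x3a4ec99c318c80) (nat_lit 0x0)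
  (PL.C (nat_lit 0x63e5d8) (nat_lit 0xbca19cc7100) (nat_lit 0x0)
  (PL.C (nat_lit 0x63fa56) (nat_lit 0x1255b341347680) (nat_lit 0x0)
  (PL.C (nat_lit 0x645612) (nat_lit 0x1390ba74a28ff00) (nat_lit 0x0)
  (PL.C (nat_lit 0x64d322) (nat_lit 0x262287447d27380) (nat_lit 0x0) lm1_60))))))))))))))))))))

noncomputable def lm1_58 : PL :=
  (PL.C (nat_lit 0x5d875c) (nat_lit 0x0) (nat_lit 0x8522d029d2400)
  (PL.C (nat_lit 0x5d8db5) (nat_lit 0x12214a509edb4c20) (nat_lit 0x0)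
  (PL.C (nat_lit 0x5dcc24) (nat_lit 0x94984fef0f980) (nat_lit 0x0)
  (PL.C (nat_lit 0x5dd3f0) (nat_lit 0x2979478771f400) (nat_lit 0x0)
  (PL.C (nat_lit 0x5ddc2c) (nat_lit 0x768b9eadbd3000) (nat_lit 0x0)
  (PL.C (nat_lit 0x5de8dd) (nat_lit 0x6aa07d801e600) (nat_lit 0x0)
  (PL.C (nat_lit 0x5e049a) (nat_lit 0x0) (nat_lit 0x23d315f2a88000)
  (PL.C (nat_lit 0x5e96e3) (nat_lit 0xd540fb003cc00) (nat_lit 0x0)
  (PL.C (nat_lit 0x5f4a89) (nat_lit 0x0) (nat_lit 0x198597180d3100)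
  (PL.C (nat_lit 0x5f5064) (nat_lit 0x8522d029d2400) (nat_lit 0x0)
  (PL.C (nat_lit 0x5f5a8c) (nat_lit 0x0) (nat_lit 0x12e3547c0ab3d00)
  (PL.C (nat_lit 0x5f77bf) (nat_lit 0xb01dd0f4b4300) (nat_lit 0x0)
  (PL.C (nat_lit 0x5f8f5c) (nat_lit 0x2fb524045e6ca00) (nat_lit 0x0)
  (PL.C (nat_lit 0x5fb2b8) (nat_lit 0x3d033196e1c00) (nat_lit 0x0)
  (PL.C (nat_lit 0x5fb6d1) (nat_lit 0x0) (nat_lit 0xd540fb003cc00)
  (PL.C (nat_lit 0x5fd006) (nat_lit 0x23d315f2a88000) (nat_lit 0x0)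
  (PL.C (nat_lit 0x5feddf) (nat_lit 0xbeb39e0b3cc00) (nat_lit 0x0)
  (PL.C (nat_lit 0x601ab4) (nat_lit 0xd12b621edc79900) (nat_lit 0x0)
  (PL.C (nat_lit 0x603a98) (nat_lit 0x39de14c5d76800) (nat_lit 0x0)
  (PL.C (nat_lit 0x603f66) (nat_lit 0xd6f283aff3000) (nat_lit 0x0) lm1_59))))))))))))))))))))

noncomputable def lm1_57 : PL :=
  (PL.C (nat_lit 0x59c8ce) (nat_lit 0x6b7941d7f9800) (nat_lit 0x0)
  (PL.C (nat_lit 0x59eef3) (nat_lit 0x24a20fac53f480) (nat_lit 0x0)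
  (PL.C (nat_lit 0x59f530) (nat_lit 0x2979478771f400) (nat_lit 0x0)
  (PL.C (nat_lit 0x5a0aac) (nat_lit 0x0) (nat_lit 0x43183552f42800)
  (PL.C (nat_lit 0x5a2a5d) (nat_lit 0x11480bd64fdf40) (nat_lit 0x0)
  (PL.C (nat_lit 0x5a4bba) (nat_lit 0x40cdd590b71640) (nat_lit 0x0)
  (PL.C (nat_lit 0x5aa588) (nat_lit 0x3675b2672fd580) (nat_lit 0x0)
  (PL.C (nat_lit 0x5ac14a) (nat_lit 0x1390ba74a28ff00) (nat_lit 0x0)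
  (PL.C (nat_lit 0x5aeeb6) (nat_lit 0x0) (nat_lit 0xfd5ff20ffce40)
  (PL.C (nat_lit 0x5b23e7) (nat_lit 0x0) (nat_lit 0x22e732d6ff7040)
  (PL.C (nat_lit 0x5b6a18) (nat_lit 0x0) (nat_lit 0x924a4916a500)
  (PL.C (nat_lit 0x5b7e8c) (nat_lit 0x862f0c16fd2dc0) (nat_lit 0x0)
  (PL.C (nat_lit 0x5bb71a) (nat_lit 0x0) (nat_lit 0x16c53766a4500)
  (PL.C (nat_lit 0x5bde11) (nat_lit 0x0) (nat_lit 0x141ac92713a280)
  (PL.C (nat_lit 0x5c0094) (nat_lit 0xc69d2ff20bc80) (nat_lit 0x0)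
  (PL.C (nat_lit 0x5c168d) (nat_lit 0x0) (nat_lit 0x8f70e7941c9040)
  (PL.C (nat_lit 0x5cb4ee) (nat_lit 0x7ac81e115b53c0) (nat_lit 0x0)
  (PL.C (nat_lit 0x5d04da) (nat_lit 0xa5d23c15b2e6d80) (nat_lit 0x0)
  (PL.C (nat_lit 0x5d58a4) (nat_lit 0xc9f349cc80d800) (nat_lit 0x0)
  (PL.C (nat_lit 0x5d7f2f) (nat_lit 0x7decee0cd9fc00) (nat_lit 0x0) lm1_58))))))))))))))))))))

noncomputable def lm1_56 : PL :=
  (PL.C (nat_lit 0x564102) (nat_lit 0x0) (nat_lit 0xbeba1ee651080)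
  (PL.C (nat_lit 0x568eb4) (nat_lit 0x211a32a8574c00) (nat_lit 0x0)
  (PL.C (nat_lit 0x569978) (nat_lit 0x252ce9466f2ee00) (nat_lit 0x0)
  (PL.C (nat_lit 0x56bfe9) (nat_lit 0x0) (nat_lit 0x1b9133f27f498c0)
  (PL.C (nat_lit 0x5703dc) (nat_lit 0xcc7cb7b348d500) (nat_lit 0x0)
  (PL.C (nat_lit 0x570a38) (nat_lit 0x1cef0a62ebb400) (nat_lit 0x0)
  (PL.C (nat_lit 0x57659d) (nat_lit 0xb174ddf59fef80) (nat_lit 0x0)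
  (PL.C (nat_lit 0x57ca08) (nat_lit 0x39de14c5d76800) (nat_lit 0x0)
  (PL.C (nat_lit 0x57ef54) (nat_lit 0x32f932fda5d3480) (nat_lit 0x0)
  (PL.C (nat_lit 0x58082c) (nat_lit 0x3a1ccd83393580) (nat_lit 0x0)
  (PL.C (nat_lit 0x5813a3) (nat_lit 0x34c71cc8d574700) (nat_lit 0x0)
  (PL.C (nat_lit 0x58296c) (nat_lit 0x0) (nat_lit 0xc9d43a50825400)
  (PL.C (nat_lit 0x586b3c) (nat_lit 0x28c1b157e306640) (nat_lit 0x0)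
  (PL.C (nat_lit 0x589152) (nat_lit 0x37bcf60cc7bf40) (nat_lit 0x0)
  (PL.C (nat_lit 0x58e968) (nat_lit 0x2b49ba60d3bc80) (nat_lit 0x0)
  (PL.C (nat_lit 0x58fe21) (nat_lit 0x24edf0eb8c87480) (nat_lit 0x0)
  (PL.C (nat_lit 0x5904a2) (nat_lit 0x35bca0ebfcc00) (nat_lit 0x0)
  (PL.C (nat_lit 0x591424) (nat_lit 0x0) (nat_lit 0x3a1ccd83393580)
  (PL.C (nat_lit 0x597588) (nat_lit 0x0) (nat_lit 0x1cef0a62ebb400)
  (PL.C (nat_lit 0x59ad58) (nat_lit 0x0) (nat_lit 0x65ecceedfaf00) lm1_57))))))))))))))))))))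

noncomputable def lm1_55 : PL :=
  (PL.C (nat_lit 0x527727) (nat_lit 0x0) (nat_lit 0x53bfef12ba6980)
  (PL.C (nat_lit 0x529c88) (nat_lit 0x33e4353b6fc600) (nat_lit 0x0)
  (PL.C (nat_lit 0x52d556) (nat_lit 0xe8b9858557aa00) (nat_lit 0x0)
  (PL.C (nat_lit 0x52f887) (nat_lit 0x43ce4231c0a0c80) (nat_lit 0x0)
  (PL.C (nat_lit 0x5327b8) (nat_lit 0x7d279e0b5c0500) (nat_lit 0x0)
  (PL.C (nat_lit 0x534b0c) (nat_lit 0x225f46c4594d040) (nat_lit 0x0)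
  (PL.C (nat_lit 0x535aca) (nat_lit 0x14c109f74a24d80) (nat_lit 0x0)
  (PL.C (nat_lit 0x53d1bc) (nat_lit 0x2fb524045e6ca00) (nat_lit 0x0)
  (PL.C (nat_lit 0x53d56d) (nat_lit 0xb72be5dd8b3d900) (nat_lit 0x0)
  (PL.C (nat_lit 0x5422f2) (nat_lit 0x7830fb15cbc8c00) (nat_lit 0x0)
  (PL.C (nat_lit 0x5445e8) (nat_lit 0x33e4353b6fc600) (nat_lit 0x0)
  (PL.C (nat_lit 0x544d0e) (nat_lit 0x16ba60c6daeadd0) (nat_lit 0x0)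
  (PL.C (nat_lit 0x547d2e) (nat_lit 0x8d08f9ffa60600) (nat_lit 0x0)
  (PL.C (nat_lit 0x55746c) (nat_lit 0xb41fe13235b00) (nat_lit 0x0)
  (PL.C (nat_lit 0x558e97) (nat_lit 0x395b83ed30d800) (nat_lit 0x0)
  (PL.C (nat_lit 0x55b969) (nat_lit 0x4faa4a8c258200) (nat_lit 0x0)
  (PL.C (nat_lit 0x55ea59) (nat_lit 0x6aa07d801e600) (nat_lit 0x0)
  (PL.C (nat_lit 0x55f226) (nat_lit 0x42493f5e80f5c90) (nat_lit 0x0)
  (PL.C (nat_lit 0x55f6e6) (nat_lit 0x87d1af213e8d00) (nat_lit 0x0)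
  (PL.C (nat_lit 0x561e94) (nat_lit 0x4f5bd7297046700) (nat_lit 0x0) lm1_56))))))))))))))))))))

noncomputable def lm1_54 : PL :=
  (PL.C (nat_lit 0x4e6474) (nat_lit 0xc69d2ff20bc80) (nat_lit 0x0)
  (PL.C (nat_lit 0x4e85c2) (nat_lit 0x7830fb15cbc8c00) (nat_lit 0x0)
  (PL.C (nat_lit 0x4ea3d6) (nat_lit 0x0) (nat_lit 0x43721971d9f40)
  (PL.C (nat_lit 0x4ea72c) (nat_lit 0x0) (nat_lit 0xccda5b4a8ff00)
  (PL.C (nat_lit 0x4ed7ca) (nat_lit 0x2fbd9d74c285900) (nat_lit 0x0)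
  (PL.C (nat_lit 0x4ef949) (nat_lit 0x895db24658ccb90) (nat_lit 0x0)
  (PL.C (nat_lit 0x4f008c) (nat_lit 0x0) (nat_lit 0x8468caa15d3000)
  (PL.C (nat_lit 0x4f7148) (nat_lit 0x73bc298baed000) (nat_lit 0x0)
  (PL.C (nat_lit 0x4fb1fe) (nat_lit 0x769deaf04961c40) (nat_lit 0x0)
  (PL.C (nat_lit 0x4fdf44) (nat_lit 0x0) (nat_lit 0x5058707477280)
  (PL.C (nat_lit 0x50a204) (nat_lit 0x0) (nat_lit 0x1fa2fe89ab2d00)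
  (PL.C (nat_lit 0x50afcc) (nat_lit 0x0) (nat_lit 0x28df88424b000)
  (PL.C (nat_lit 0x510a71) (nat_lit 0x0) (nat_lit 0x28925d67c68700)
  (PL.C (nat_lit 0x512084) (nat_lit 0xd12b621edc79900) (nat_lit 0x0)
  (PL.C (nat_lit 0x513f7e) (nat_lit 0xd6f283aff3000) (nat_lit 0x0)
  (PL.C (nat_lit 0x518098) (nat_lit 0x56c29bebe7c980) (nat_lit 0x0)
  (PL.C (nat_lit 0x518a24) (nat_lit 0xb41fe13235b00) (nat_lit 0x0)
  (PL.C (nat_lit 0x51abcf) (nat_lit 0x0) (nat_lit 0xb921e402fb600)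
  (PL.C (nat_lit 0x52205a) (nat_lit 0xe8b9858557aa00) (nat_lit 0x0)
  (PL.C (nat_lit 0x527208) (nat_lit 0x7d279e0b5c0500) (nat_lit 0x0) lm1_55))))))))))))))))))))

noncomputable def lm1_53 : PL :=
  (PL.C (nat_lit 0x4b3a14) (nat_lit 0x3b62a78530f780) (nat_lit 0x0)
  (PL.C (nat_lit 0x4b6522) (nat_lit 0x14c109f74a24d80) (nat_lit 0x0)
  (PL.C (nat_lit 0x4b77c8) (nat_lit 0x10a45a053a4800) (nat_lit 0x0)
  (PL.C (nat_lit 0x4b8ade) (nat_lit 0x0) (nat_lit 0x1399fc1909afc0)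
  (PL.C (nat_lit 0x4bb5fe) (nat_lit 0x0) (nat_lit 0x35bca0ebfcc00)
  (PL.C (nat_lit 0x4bc8b8) (nat_lit 0xad9a3e5186380) (nat_lit 0x0)
  (PL.C (nat_lit 0x4c025c) (nat_lit 0x0) (nat_lit 0x4a631b9db6c7200)
  (PL.C (nat_lit 0x4c938c) (nat_lit 0x211a32a8574c00) (nat_lit 0x0)
  (PL.C (nat_lit 0x4cefc3) (nat_lit 0x0) (nat_lit 0xc7c4d719a8d40)
  (PL.C (nat_lit 0x4cfc02) (nat_lit 0x1399fc1909afc0) (nat_lit 0x0)
  (PL.C (nat_lit 0x4d0436) (nat_lit 0x0) (nat_lit 0x1ed15f5349e2680)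
  (PL.C (nat_lit 0x4d2ede) (nat_lit 0x763d15aa398000) (nat_lit 0x0)
  (PL.C (nat_lit 0x4d9f6a) (nat_lit 0x4e0b607d12ba740) (nat_lit 0x0)
  (PL.C (nat_lit 0x4db92c) (nat_lit 0x18d3a5fe417900) (nat_lit 0x0)
  (PL.C (nat_lit 0x4e047a) (nat_lit 0x7b74d9e3a28980) (nat_lit 0x0)
  (PL.C (nat_lit 0x4e12e4) (nat_lit 0x8468caa15d3000) (nat_lit 0x0)
  (PL.C (nat_lit 0x4e2b86) (nat_lit 0x2fbd9d74c285900) (nat_lit 0x0)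
  (PL.C (nat_lit 0x4e30cc) (nat_lit 0x0) (nat_lit 0x28df88424b000)
  (PL.C (nat_lit 0x4e5115) (nat_lit 0x1aa81f6007980) (nat_lit 0x0)
  (PL.C (nat_lit 0x4e5826) (nat_lit 0x1ae572f7db1680) (nat_lit 0x0) lm1_54))))))))))))))))))))

noncomputable def lm1_52 : PL :=
  (PL.C (nat_lit 0x4729c6) (nat_lit 0xfae98a6c4c50) (nat_lit 0x0)
  (PL.C (nat_lit 0x473198) (nat_lit 0x0) (nat_lit 0x1763289b9bc600)
  (PL.C (nat_lit 0x473526) (nat_lit 0x0) (nat_lit 0x28e982f6a17940)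
  (PL.C (nat_lit 0x475266) (nat_lit 0x0) (nat_lit 0x8524c64a9b180)
  (PL.C (nat_lit 0x476a4e) (nat_lit 0x4ae87218fa4c280) (nat_lit 0x0)
  (PL.C (nat_lit 0x477bf8) (nat_lit 0x0) (nat_lit 0x503868db7b6c0)
  (PL.C (nat_lit 0x478911) (nat_lit 0x11480bd64fdf40) (nat_lit 0x0)
  (PL.C (nat_lit 0x48231c) (nat_lit 0x2bf0b001749c800) (nat_lit 0x0)
  (PL.C (nat_lit 0x483933) (nat_lit 0x395b83ed30d800) (nat_lit 0x0)
  (PL.C (nat_lit 0x484164) (nat_lit 0x0) (nat_lit 0xc69d2ff20bc80)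
  (PL.C (nat_lit 0x488d3e) (nat_lit 0x21bfc84133bef50) (nat_lit 0x0)
  (PL.C (nat_lit 0x48ee65) (nat_lit 0x0) (nat_lit 0xc7c4d719a8d40)
  (PL.C (nat_lit 0x49744c) (nat_lit 0xcc7cb7b348d500) (nat_lit 0x0)
  (PL.C (nat_lit 0x49760c) (nat_lit 0x8dca754d61e480) (nat_lit 0x0)
  (PL.C (nat_lit 0x49b838) (nat_lit 0x2c60f00df0c000) (nat_lit 0x0)
  (PL.C (nat_lit 0x49c6d1) (nat_lit 0x5bc9963fe32d80) (nat_lit 0x0)
  (PL.C (nat_lit 0x49e636) (nat_lit 0x0) (nat_lit 0x64cadd3ff7f700)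
  (PL.C (nat_lit 0x4a0748) (nat_lit 0x0) (nat_lit 0x1cef0a62ebb400)
  (PL.C (nat_lit 0x4a6c1c) (nat_lit 0x47b6d2e8a64a00) (nat_lit 0x0)
  (PL.C (nat_lit 0x4b2175) (nat_lit 0xbc6b9b30ab5100) (nat_lit 0x0) lm1_53))))))))))))))))))))

noncomputable def lm1_51 : PL :=
  (PL.C (nat_lit 0x441114) (nat_lit 0x873b70c79bf000) (nat_lit 0x0)
  (PL.C (nat_lit 0x442aaf) (nat_lit 0x0) (nat_lit 0xab2f67c369f40)
  (PL.C (nat_lit 0x444508) (nat_lit 0x0) (nat_lit 0x4d7bbcaef6f200)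
  (PL.C (nat_lit 0x447de8) (nat_lit 0x9af7795dede400) (nat_lit 0x0)
  (PL.C (nat_lit 0x44828e) (nat_lit 0x0) (nat_lit 0x19c89741111d80)
  (PL.C (nat_lit 0x44ccf8) (nat_lit 0x2c60f00df0c000) (nat_lit 0x0)
  (PL.C (nat_lit 0x4503c6) (nat_lit 0x0) (nat_lit 0x35c66a3830400)
  (PL.C (nat_lit 0x4514d8) (nat_lit 0x9af7795dede400) (nat_lit 0x0)
  (PL.C (nat_lit 0x458eda) (nat_lit 0x4971ae9841aecc0) (nat_lit 0x0)
  (PL.C (nat_lit 0x45aaa9) (nat_lit 0x0) (nat_lit 0xa917772aca780)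
  (PL.C (nat_lit 0x45bca8) (nat_lit 0x3a4ec99c318c80) (nat_lit 0x0)
  (PL.C (nat_lit 0x45cc98) (nat_lit 0x0) (nat_lit 0x4d7bbcaef6f200)
  (PL.C (nat_lit 0x45d408) (nat_lit 0xaede17722afc80) (nat_lit 0x0)
  (PL.C (nat_lit 0x45e96a) (nat_lit 0x35bca0ebfcc00) (nat_lit 0x0)
  (PL.C (nat_lit 0x45f21c) (nat_lit 0x47b6d2e8a64a00) (nat_lit 0x0)
  (PL.C (nat_lit 0x469e54) (nat_lit 0x2e242a6b8d58f00) (nat_lit 0x0)
  (PL.C (nat_lit 0x46c1ac) (nat_lit 0x26e9c4f350e600) (nat_lit 0x0)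
  (PL.C (nat_lit 0x46dfc8) (nat_lit 0x0) (nat_lit 0x2893144fb9180)
  (PL.C (nat_lit 0x46e490) (nat_lit 0x1f9146f4dd2c00) (nat_lit 0x0)
  (PL.C (nat_lit 0x47063a) (nat_lit 0xa5d23c15b2e6d80) (nat_lit 0x0) lm1_52))))))))))))))))))))

noncomputable def lm1_50 : PL :=
  (PL.C (nat_lit 0x4153a7) (nat_lit 0xd540fb003cc00) (nat_lit 0x0)
  (PL.C (nat_lit 0x415a9d) (nat_lit 0x0) (nat_lit 0xb921e402fb600)
  (PL.C (nat_lit 0x416054) (nat_lit 0x92aaf05ae3c0) (nat_lit 0x0)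
  (PL.C (nat_lit 0x418692) (nat_lit 0x24e1df251732da80) (nat_lit 0x0)
  (PL.C (nat_lit 0x419f97) (nat_lit 0x27fc2f100b640) (nat_lit 0x0)
  (PL.C (nat_lit 0x41d42c) (nat_lit 0x26e9c4f350e600) (nat_lit 0x0)
  (PL.C (nat_lit 0x41dbe2) (nat_lit 0x78cf47e695a080) (nat_lit 0x0)
  (PL.C (nat_lit 0x423506) (nat_lit 0x2f3e3e556c33000) (nat_lit 0x0)
  (PL.C (nat_lit 0x425535) (nat_lit 0x5f8a1b9b669e00) (nat_lit 0x0)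
  (PL.C (nat_lit 0x42a1c7) (nat_lit 0x1511ff65b76c000) (nat_lit 0x0)
  (PL.C (nat_lit 0x42a6e4) (nat_lit 0x0) (nat_lit 0xd26ac6178ce40)
  (PL.C (nat_lit 0x42bb4d) (nat_lit 0x1d15a46151800) (nat_lit 0x0)
  (PL.C (nat_lit 0x42dcb3) (nat_lit 0x0) (nat_lit 0x2d083a7742040)
  (PL.C (nat_lit 0x42e40c) (nat_lit 0x241339911a29100) (nat_lit 0x0)
  (PL.C (nat_lit 0x42e763) (nat_lit 0x32977e0bc43bc0) (nat_lit 0x0)
  (PL.C (nat_lit 0x43376c) (nat_lit 0x102f6ba0be23000) (nat_lit 0x0)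
  (PL.C (nat_lit 0x434676) (nat_lit 0x769deaf04961c40) (nat_lit 0x0)
  (PL.C (nat_lit 0x43532d) (nat_lit 0x4faa4a8c258200) (nat_lit 0x0)
  (PL.C (nat_lit 0x437b28) (nat_lit 0xbca19cc7100) (nat_lit 0x0)
  (PL.C (nat_lit 0x43c6fa) (nat_lit 0x0) (nat_lit 0x52d3fb516e780) lm1_51))))))))))))))))))))

noncomputable def lm1_49 : PL :=
  (PL.C (nat_lit 0x3e9b3e) (nat_lit 0x10c42c27002300) (nat_lit 0x0)
  (PL.C (nat_lit 0x3eadbc) (nat_lit 0x0) (nat_lit 0x8468caa15d3000)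
  (PL.C (nat_lit 0x3eb1fd) (nat_lit 0xcd725dab4dfb40) (nat_lit 0x0)
  (PL.C (nat_lit 0x3f0f42) (nat_lit 0x1ade5075fe6000) (nat_lit 0x0)
  (PL.C (nat_lit 0x3f358b) (nat_lit 0x0) (nat_lit 0x53477e63970f00)
  (PL.C (nat_lit 0x3f6c09) (nat_lit 0x6342294e1cd6400) (nat_lit 0x0)
  (PL.C (nat_lit 0x3f8706) (nat_lit 0x0) (nat_lit 0x21ed29a34d3600)
  (PL.C (nat_lit 0x3fa52a) (nat_lit 0x10c310595e4d80) (nat_lit 0x0)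
  (PL.C (nat_lit 0x3fb4e8) (nat_lit 0x146934cc1161000) (nat_lit 0x0)
  (PL.C (nat_lit 0x3fcf36) (nat_lit 0x0) (nat_lit 0x1ade5075fe6000)
  (PL.C (nat_lit 0x3fe004) (nat_lit 0x8468caa15d3000) (nat_lit 0x0)
  (PL.C (nat_lit 0x3ff3ea) (nat_lit 0x1ae572f7db1680) (nat_lit 0x0)
  (PL.C (nat_lit 0x401a69) (nat_lit 0x0) (nat_lit 0xd540fb003cc00)
  (PL.C (nat_lit 0x402710) (nat_lit 0x52f28f0ee3e800) (nat_lit 0x0)
  (PL.C (nat_lit 0x402a44) (nat_lit 0x31a74bfc82f200) (nat_lit 0x0)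
  (PL.C (nat_lit 0x406538) (nat_lit 0xc684e2cf8e6180) (nat_lit 0x0)
  (PL.C (nat_lit 0x40aa48) (nat_lit 0x6b490c9f58100) (nat_lit 0x0)
  (PL.C (nat_lit 0x40b470) (nat_lit 0x2979478771f400) (nat_lit 0x0)
  (PL.C (nat_lit 0x41038e) (nat_lit 0x0) (nat_lit 0x2bb7f7f59de100)
  (PL.C (nat_lit 0x413fac) (nat_lit 0x0) (nat_lit 0x20f48c76c2a700) lm1_50))))))))))))))))))))

noncomputable def lm1_48 : PL :=
  (PL.C (nat_lit 0x3c327c) (nat_lit 0x3b62a78530f780) (nat_lit 0x0)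
  (PL.C (nat_lit 0x3c44eb) (nat_lit 0x1511ff65b76c000) (nat_lit 0x0)
  (PL.C (nat_lit 0x3c6315) (nat_lit 0x0) (nat_lit 0x4ea81729957cc0)
  (PL.C (nat_lit 0x3c80dc) (nat_lit 0x241339911a29100) (nat_lit 0x0)
  (PL.C (nat_lit 0x3c9363) (nat_lit 0x0) (nat_lit 0x6aa07d801e600)
  (PL.C (nat_lit 0x3c9f24) (nat_lit 0x0) (nat_lit 0x2da5aa6f2beac0)
  (PL.C (nat_lit 0x3cc29a) (nat_lit 0x186721bc71efc80) (nat_lit 0x0)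
  (PL.C (nat_lit 0x3cff08) (nat_lit 0x165e82ee6bab6c0) (nat_lit 0x0)
  (PL.C (nat_lit 0x3d24bc) (nat_lit 0x0) (nat_lit 0x63265619b3800)
  (PL.C (nat_lit 0x3d3eb6) (nat_lit 0x145f27faa0c2c0) (nat_lit 0x0)
  (PL.C (nat_lit 0x3d55b8) (nat_lit 0xad9a3e5186380) (nat_lit 0x0)
  (PL.C (nat_lit 0x3d645e) (nat_lit 0x0) (nat_lit 0x9fe602e731f400)
  (PL.C (nat_lit 0x3d90b9) (nat_lit 0x0) (nat_lit 0x22e732d6ff7040)
  (PL.C (nat_lit 0x3dcdf4) (nat_lit 0x862f0c16fd2dc0) (nat_lit 0x0)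
  (PL.C (nat_lit 0x3de0e1) (nat_lit 0x0) (nat_lit 0x28925d67c68700)
  (PL.C (nat_lit 0x3e033c) (nat_lit 0xec89074f90e3000) (nat_lit 0x0)
  (PL.C (nat_lit 0x3e3b18) (nat_lit 0x56c29bebe7c980) (nat_lit 0x0)
  (PL.C (nat_lit 0x3e54ca) (nat_lit 0xfb546b52ab1400) (nat_lit 0x0)
  (PL.C (nat_lit 0x3e8818) (nat_lit 0x6b490c9f58100) (nat_lit 0x0)
  (PL.C (nat_lit 0x3e92c8) (nat_lit 0x5b7d56583d9500) (nat_lit 0x0) lm1_49))))))))))))))))))))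

noncomputable def lm1_47 : PL :=
  (PL.C (nat_lit 0x399b2b) (nat_lit 0x0) (nat_lit 0x53bfef12ba6980)
  (PL.C (nat_lit 0x39b478) (nat_lit 0x1cef0a62ebb400) (nat_lit 0x0)
  (PL.C (nat_lit 0x39d546) (nat_lit 0x9ebfe795c6a5d00) (nat_lit 0x0)
  (PL.C (nat_lit 0x3a06d0) (nat_lit 0x2979478771f400) (nat_lit 0x0)
  (PL.C (nat_lit 0x3a43be) (nat_lit 0x78cf47e695a080) (nat_lit 0x0)
  (PL.C (nat_lit 0x3a86b0) (nat_lit 0x52f28f0ee3e800) (nat_lit 0x0)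
  (PL.C (nat_lit 0x3a9977) (nat_lit 0x0) (nat_lit 0x1b9133f27f498c0)
  (PL.C (nat_lit 0x3ab7c2) (nat_lit 0x4971ae9841aecc0) (nat_lit 0x0)
  (PL.C (nat_lit 0x3ac648) (nat_lit 0x1c8489e17614b40) (nat_lit 0x0)
  (PL.C (nat_lit 0x3af228) (nat_lit 0xaede17722afc80) (nat_lit 0x0)
  (PL.C (nat_lit 0x3b0b8c) (nat_lit 0x0) (nat_lit 0xc9d43a50825400)
  (PL.C (nat_lit 0x3b3f91) (nat_lit 0x0) (nat_lit 0x6aa07d801e600)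
  (PL.C (nat_lit 0x3b5416) (nat_lit 0x24e8e782ec8c3c0) (nat_lit 0x0)
  (PL.C (nat_lit 0x3b586c) (nat_lit 0xc69d2ff20bc80) (nat_lit 0x0)
  (PL.C (nat_lit 0x3b70ed) (nat_lit 0xd540fb003cc00) (nat_lit 0x0)
  (PL.C (nat_lit 0x3ba3b0) (nat_lit 0x0) (nat_lit 0x2979478771f400)
  (PL.C (nat_lit 0x3bdb34) (nat_lit 0x18d3a5fe417900) (nat_lit 0x0)
  (PL.C (nat_lit 0x3bf3eb) (nat_lit 0xd540fb003cc00) (nat_lit 0x0)
  (PL.C (nat_lit 0x3bf4a2) (nat_lit 0x4aed2bc731b200) (nat_lit 0x0)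
  (PL.C (nat_lit 0x3c1c3e) (nat_lit 0x24c909d1074d880) (nat_lit 0x0) lm1_48))))))))))))))))))))

noncomputable def lm1_46 : PL :=
  (PL.C (nat_lit 0x376fd0) (nat_lit 0x306c70373e7300) (nat_lit 0x0)
  (PL.C (nat_lit 0x3791dc) (nat_lit 0x2fb524045e6ca00) (nat_lit 0x0)
  (PL.C (nat_lit 0x37e128) (nat_lit 0x146934cc1161000) (nat_lit 0x0)
  (PL.C (nat_lit 0x37e39e) (nat_lit 0x2f3e3e556c33000) (nat_lit 0x0)
  (PL.C (nat_lit 0x37fec9) (nat_lit 0x32977e0bc43bc0) (nat_lit 0x0)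
  (PL.C (nat_lit 0x38174c) (nat_lit 0xaa0cdc2d750c680) (nat_lit 0x0)
  (PL.C (nat_lit 0x382e75) (nat_lit 0xe8091ae63d0ac0) (nat_lit 0x0)
  (PL.C (nat_lit 0x385374) (nat_lit 0x873b70c79bf000) (nat_lit 0x0)
  (PL.C (nat_lit 0x387a2f) (nat_lit 0x5f8a1b9b669e00) (nat_lit 0x0)
  (PL.C (nat_lit 0x38f848) (nat_lit 0x0) (nat_lit 0x268cac78169b80)
  (PL.C (nat_lit 0x3909ba) (nat_lit 0x73ee4bfa0e1c00) (nat_lit 0x0)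
  (PL.C (nat_lit 0x39167d) (nat_lit 0x1a5923c4fbdb540) (nat_lit 0x0)
  (PL.C (nat_lit 0x392646) (nat_lit 0x763d15aa398000) (nat_lit 0x0)
  (PL.C (nat_lit 0x3946e6) (nat_lit 0x10c42c27002300) (nat_lit 0x0)
  (PL.C (nat_lit 0x394f44) (nat_lit 0xe1537a79806a00) (nat_lit 0x0)
  (PL.C (nat_lit 0x395da5) (nat_lit 0x6342294e1cd6400) (nat_lit 0x0)
  (PL.C (nat_lit 0x3969b8) (nat_lit 0x0) (nat_lit 0x2208ab6eba20e00)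
  (PL.C (nat_lit 0x397a5b) (nat_lit 0x0) (nat_lit 0xe2cc8e0ab7ac80)
  (PL.C (nat_lit 0x3980ac) (nat_lit 0x0) (nat_lit 0x2389d07a155c00)
  (PL.C (nat_lit 0x39838b) (nat_lit 0x0) (nat_lit 0xf74793cd95240) lm1_47))))))))))))))))))))

noncomputable def lm1_45 : PL :=
  (PL.C (nat_lit 0x3482df) (nat_lit 0x0) (nat_lit 0x8f70e7941c9040)
  (PL.C (nat_lit 0x348fdc) (nat_lit 0x1ba59022c0d4920) (nat_lit 0x0)
  (PL.C (nat_lit 0x34ab08) (nat_lit 0x0) (nat_lit 0x73bc298baed000)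
  (PL.C (nat_lit 0x34ecb1) (nat_lit 0x19cfde1fa3c1dd80) (nat_lit 0x0)
  (PL.C (nat_lit 0x34f630) (nat_lit 0xa5e51e1dc7d000) (nat_lit 0x0)
  (PL.C (nat_lit 0x352154) (nat_lit 0x803fb1be120f360) (nat_lit 0x0)
  (PL.C (nat_lit 0x353199) (nat_lit 0x283d56facda8500) (nat_lit 0x0)
  (PL.C (nat_lit 0x35c158) (nat_lit 0xbe56711929a0) (nat_lit 0x0)
  (PL.C (nat_lit 0x35ca88) (nat_lit 0x0) (nat_lit 0x924a4916a500)
  (PL.C (nat_lit 0x3606f6) (nat_lit 0x0) (nat_lit 0x1f752e47782580)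
  (PL.C (nat_lit 0x362a54) (nat_lit 0x31a74bfc82f200) (nat_lit 0x0)
  (PL.C (nat_lit 0x365673) (nat_lit 0x77b725a58b49900) (nat_lit 0x0)
  (PL.C (nat_lit 0x365c18) (nat_lit 0x0) (nat_lit 0x268cac78169b80)
  (PL.C (nat_lit 0x36728a) (nat_lit 0x0) (nat_lit 0x1213c8eef89800)
  (PL.C (nat_lit 0x36c03c) (nat_lit 0x1ffdcb654772c00) (nat_lit 0x0)
  (PL.C (nat_lit 0x36f6b0) (nat_lit 0x306c70373e7300) (nat_lit 0x0)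
  (PL.C (nat_lit 0x36fa1a) (nat_lit 0x0) (nat_lit 0x53fa6b376d9e80)
  (PL.C (nat_lit 0x3738e4) (nat_lit 0x1ffdcb654772c00) (nat_lit 0x0)
  (PL.C (nat_lit 0x3749cd) (nat_lit 0x1aa81f60079800) (nat_lit 0x0)
  (PL.C (nat_lit 0x37505a) (nat_lit 0x4e0b607d12ba740) (nat_lit 0x0) lm1_46))))))))))))))))))))

noncomputable def lm1_44 : PL :=
  (PL.C (nat_lit 0x327954) (nat_lit 0x0) (nat_lit 0xc69d2ff20bc80)
  (PL.C (nat_lit 0x3285d0) (nat_lit 0xf8d7ad2cabb80) (nat_lit 0x0)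
  (PL.C (nat_lit 0x32eec9) (nat_lit 0x27fc2f100b640) (nat_lit 0x0)
  (PL.C (nat_lit 0x330d08) (nat_lit 0x1cef0a62ebb400) (nat_lit 0x0)
  (PL.C (nat_lit 0x334a82) (nat_lit 0x1822aba8197380) (nat_lit 0x0)
  (PL.C (nat_lit 0x3352ac) (nat_lit 0x3a1ccd83393580) (nat_lit 0x0)
  (PL.C (nat_lit 0x335824) (nat_lit 0x0) (nat_lit 0x4a631b9db6c7200)
  (PL.C (nat_lit 0x3367dd) (nat_lit 0x4faa4a8c258200) (nat_lit 0x0)
  (PL.C (nat_lit 0x337494) (nat_lit 0x10fa72e3ef83580) (nat_lit 0x0)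
  (PL.C (nat_lit 0x3389d3) (nat_lit 0x0) (nat_lit 0x27fc2f100b640)
  (PL.C (nat_lit 0x33bf9c) (nat_lit 0x922346301f2a6c0) (nat_lit 0x0)
  (PL.C (nat_lit 0x33d0c8) (nat_lit 0x15b347ca30c700) (nat_lit 0x0)
  (PL.C (nat_lit 0x3402fc) (nat_lit 0xfec98886d04d00) (nat_lit 0x0)
  (PL.C (nat_lit 0x340c98) (nat_lit 0x73bc298baed000) (nat_lit 0x0)
  (PL.C (nat_lit 0x341d04) (nat_lit 0x1ba59022c0d4920) (nat_lit 0x0)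
  (PL.C (nat_lit 0x342088) (nat_lit 0x0) (nat_lit 0x924a4916a500)
  (PL.C (nat_lit 0x34360e) (nat_lit 0x35bca0ebfcc00) (nat_lit 0x0)
  (PL.C (nat_lit 0x343ac4) (nat_lit 0x580c9870644700) (nat_lit 0x0)
  (PL.C (nat_lit 0x3442f8) (nat_lit 0xad9a3e5186380) (nat_lit 0x0)
  (PL.C (nat_lit 0x34592c) (nat_lit 0xaa0cdc2d750c680) (nat_lit 0x0) lm1_45))))))))))))))))))))

noncomputable def lm1_43 : PL :=
  (PL.C (nat_lit 0x2fb0b6) (nat_lit 0x24c909d1074d880) (nat_lit 0x0)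
  (PL.C (nat_lit 0x301768) (nat_lit 0xc684e2cf8e6180) (nat_lit 0x0)
  (PL.C (nat_lit 0x302622) (nat_lit 0x73ee4bfa0e1c00) (nat_lit 0x0)
  (PL.C (nat_lit 0x302b98) (nat_lit 0x0) (nat_lit 0xad9a3e5186380)
  (PL.C (nat_lit 0x306cf9) (nat_lit 0xbc6b9b30ab5100) (nat_lit 0x0)
  (PL.C (nat_lit 0x307ed5) (nat_lit 0x1aa81f60079800) (nat_lit 0x0)
  (PL.C (nat_lit 0x308cf7) (nat_lit 0x0) (nat_lit 0x1492218b6c86640)
  (PL.C (nat_lit 0x309eee) (nat_lit 0x1822aba8197380) (nat_lit 0x0)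
  (PL.C (nat_lit 0x311355) (nat_lit 0x0) (nat_lit 0x12b45b76a9e0a00)
  (PL.C (nat_lit 0x312f36) (nat_lit 0x7b74d9e3a28980) (nat_lit 0x0)
  (PL.C (nat_lit 0x314424) (nat_lit 0x0) (nat_lit 0x102b1bdeacbb800)
  (PL.C (nat_lit 0x315a30) (nat_lit 0x0) (nat_lit 0x2979478771f400)
  (PL.C (nat_lit 0x317793) (nat_lit 0x0) (nat_lit 0x1d40be538d92c00)
  (PL.C (nat_lit 0x319d68) (nat_lit 0xcf90d4edbf1800) (nat_lit 0x0)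
  (PL.C (nat_lit 0x32164e) (nat_lit 0x1ad21af24f2ec40) (nat_lit 0x0)
  (PL.C (nat_lit 0x3226b8) (nat_lit 0xa392762c649b40) (nat_lit 0x0)
  (PL.C (nat_lit 0x32436c) (nat_lit 0x2fb524045e6ca00) (nat_lit 0x0)
  (PL.C (nat_lit 0x32582d) (nat_lit 0x32b17c152ef200) (nat_lit 0x0)
  (PL.C (nat_lit 0x325c94) (nat_lit 0x0) (nat_lit 0x3a1ccd83393580)
  (PL.C (nat_lit 0x325fff) (nat_lit 0x100bdab17905480) (nat_lit 0x0) lm1_44))))))))))))))))))))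

noncomputable def lm1_42 : PL :=
  (PL.C (nat_lit 0x2c9a42) (nat_lit 0x795d18d90c8500) (nat_lit 0x0)
  (PL.C (nat_lit 0x2cad35) (nat_lit 0x19cfde1fa3c1dd80) (nat_lit 0x0)
  (PL.C (nat_lit 0x2cd9a4) (nat_lit 0x803fb1be120f360) (nat_lit 0x0)
  (PL.C (nat_lit 0x2ce21e) (nat_lit 0x763d15aa398000) (nat_lit 0x0)
  (PL.C (nat_lit 0x2d2427) (nat_lit 0x24b8cc3431ed300) (nat_lit 0x0)
  (PL.C (nat_lit 0x2d60b8) (nat_lit 0x1949cd5ff062720) (nat_lit 0x0)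
  (PL.C (nat_lit 0x2d71ca) (nat_lit 0x0) (nat_lit 0x43d25c3a69080)
  (PL.C (nat_lit 0x2e0284) (nat_lit 0x0) (nat_lit 0x28df88424b000)
  (PL.C (nat_lit 0x2e5f3c) (nat_lit 0x9754f487172f100) (nat_lit 0x0)
  (PL.C (nat_lit 0x2e71c6) (nat_lit 0x0) (nat_lit 0x138e871b702d00)
  (PL.C (nat_lit 0x2e9b9c) (nat_lit 0xc69d2ff20bc80) (nat_lit 0x0)
  (PL.C (nat_lit 0x2ea168) (nat_lit 0xcf90d4edbf1800) (nat_lit 0x0)
  (PL.C (nat_lit 0x2eb61b) (nat_lit 0x0) (nat_lit 0x60e33ac5dd0e700)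
  (PL.C (nat_lit 0x2f1438) (nat_lit 0x2555c266be15600) (nat_lit 0x0)
  (PL.C (nat_lit 0x2f2bc8) (nat_lit 0x10a45a053a4800) (nat_lit 0x0)
  (PL.C (nat_lit 0x2f597c) (nat_lit 0xec89074f90e3000) (nat_lit 0x0)
  (PL.C (nat_lit 0x2f6d09) (nat_lit 0xbcac8e58c446b80) (nat_lit 0x0)
  (PL.C (nat_lit 0x2f78c4) (nat_lit 0x0) (nat_lit 0xea9a3deb00a4c0)
  (PL.C (nat_lit 0x2f8c44) (nat_lit 0x0) (nat_lit 0x1fa2fe89ab2d00)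
  (PL.C (nat_lit 0x2f9c34) (nat_lit 0x4aee5d64baf9c80) (nat_lit 0x0) lm1_43))))))))))))))))))))

noncomputable def lm1_41 : PL :=
  (PL.C (nat_lit 0x2a8a24) (nat_lit 0x0) (nat_lit 0x634e97f905e400)
  (PL.C (nat_lit 0x2a9558) (nat_lit 0x73bc298baed000) (nat_lit 0x0)
  (PL.C (nat_lit 0x2aa29c) (nat_lit 0x580c9870644700) (nat_lit 0x0)
  (PL.C (nat_lit 0x2abc46) (nat_lit 0x0) (nat_lit 0x1ade5075fe6000)
  (PL.C (nat_lit 0x2ac6d8) (nat_lit 0x2b668f94618e00) (nat_lit 0x0)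
  (PL.C (nat_lit 0x2b1c30) (nat_lit 0xcb5233f41ce80) (nat_lit 0x0)
  (PL.C (nat_lit 0x2b57b4) (nat_lit 0x0) (nat_lit 0x43183552f42800)
  (PL.C (nat_lit 0x2b7fc8) (nat_lit 0x0) (nat_lit 0x1763289b9bc600)
  (PL.C (nat_lit 0x2b8d1a) (nat_lit 0x1ade5075fe6000) (nat_lit 0x0)
  (PL.C (nat_lit 0x2b91be) (nat_lit 0x0) (nat_lit 0x1213c8eef89800)
  (PL.C (nat_lit 0x2baf0c) (nat_lit 0x2b9ef009569c6980) (nat_lit 0x0)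
  (PL.C (nat_lit 0x2bbfba) (nat_lit 0x509af161fb200) (nat_lit 0x0)
  (PL.C (nat_lit 0x2be2c8) (nat_lit 0x10a45a053a4800) (nat_lit 0x0)
  (PL.C (nat_lit 0x2be7ec) (nat_lit 0x197ffdfb89ec600) (nat_lit 0x0)
  (PL.C (nat_lit 0x2bfa0d) (nat_lit 0x0) (nat_lit 0x35b4d8662681c0)
  (PL.C (nat_lit 0x2c38ce) (nat_lit 0xe01642143ccb00) (nat_lit 0x0)
  (PL.C (nat_lit 0x2c6bda) (nat_lit 0x4abf5c7f0808f00) (nat_lit 0x0)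
  (PL.C (nat_lit 0x2c7cde) (nat_lit 0x0) (nat_lit 0xbeba1ee651080)
  (PL.C (nat_lit 0x2c9322) (nat_lit 0x0) (nat_lit 0x2f2c0a6ba2140)
  (PL.C (nat_lit 0x2c9808) (nat_lit 0x2fdfa14d0baf880) (nat_lit 0x0) lm1_42))))))))))))))))))))

noncomputable def lm1_40 : PL :=
  (PL.C (nat_lit 0x2881bc) (nat_lit 0x1430d17f57a8c40) (nat_lit 0x0)
  (PL.C (nat_lit 0x28c328) (nat_lit 0x0) (nat_lit 0x2893144fb9180)
  (PL.C (nat_lit 0x28e3d0) (nat_lit 0xf8d7ad2cabb80) (nat_lit 0x0)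
  (PL.C (nat_lit 0x28ed94) (nat_lit 0x0) (nat_lit 0x190eda24230e8a0)
  (PL.C (nat_lit 0x290b26) (nat_lit 0x186721bc71efc80) (nat_lit 0x0)
  (PL.C (nat_lit 0x2933f8) (nat_lit 0x165e82ee6bab6c0) (nat_lit 0x0)
  (PL.C (nat_lit 0x294096) (nat_lit 0x0) (nat_lit 0x1f752e47782580)
  (PL.C (nat_lit 0x296d69) (nat_lit 0x0) (nat_lit 0x225a90880aa600)
  (PL.C (nat_lit 0x298ddc) (nat_lit 0x25dd9dc17785f00) (nat_lit 0x0)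
  (PL.C (nat_lit 0x29b010) (nat_lit 0xcb5233f41ce80) (nat_lit 0x0)
  (PL.C (nat_lit 0x29b730) (nat_lit 0x1532f51300af00) (nat_lit 0x0)
  (PL.C (nat_lit 0x29bcd4) (nat_lit 0x385ee01a028a00) (nat_lit 0x0)
  (PL.C (nat_lit 0x29c928) (nat_lit 0x0) (nat_lit 0x73bc298baed000)
  (PL.C (nat_lit 0x29cbfe) (nat_lit 0xdb1573618bae00) (nat_lit 0x0)
  (PL.C (nat_lit 0x2a0a2c) (nat_lit 0x634e97f905e400) (nat_lit 0x0)
  (PL.C (nat_lit 0x2a23b2) (nat_lit 0x0) (nat_lit 0x64cadd3ff7f700)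
  (PL.C (nat_lit 0x2a4806) (nat_lit 0x1194bcef0d35a0c0) (nat_lit 0x0)
  (PL.C (nat_lit 0x2a6e1c) (nat_lit 0x26e9c4f350e600) (nat_lit 0x0)
  (PL.C (nat_lit 0x2a7fa1) (nat_lit 0x32b17c152ef200) (nat_lit 0x0)
  (PL.C (nat_lit 0x2a863b) (nat_lit 0x100bdab17905480) (nat_lit 0x0) lm1_41))))))))))))))))))))

noncomputable def lm1_39 : PL :=
  (PL.C (nat_lit 0x2710fa) (nat_lit 0x9ebfe795c6a5d00) (nat_lit 0x0)
  (PL.C (nat_lit 0x27252c) (nat_lit 0x9754f487172f100) (nat_lit 0x0)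
  (PL.C (nat_lit 0x275d08) (nat_lit 0x1c8489e17614b40) (nat_lit 0x0)
  (PL.C (nat_lit 0x2761a7) (nat_lit 0x19db76c32df80) (nat_lit 0x0)
  (PL.C (nat_lit 0x277fb6) (nat_lit 0x0) (nat_lit 0x10c42c27002300)
  (PL.C (nat_lit 0x278d64) (nat_lit 0xc8d9ec88a8fa80) (nat_lit 0x0)
  (PL.C (nat_lit 0x279048) (nat_lit 0xad9a3e5186380) (nat_lit 0x0)
  (PL.C (nat_lit 0x27a09e) (nat_lit 0x2188584e004600) (nat_lit 0x0)
  (PL.C (nat_lit 0x27b9d3) (nat_lit 0x283d56facda8500) (nat_lit 0x0)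
  (PL.C (nat_lit 0x27e778) (nat_lit 0x15b347ca30c700) (nat_lit 0x0)
  (PL.C (nat_lit 0x27f7f2) (nat_lit 0x2188584e004600) (nat_lit 0x0)
  (PL.C (nat_lit 0x27f86c) (nat_lit 0x8dca754d61e480) (nat_lit 0x0)
  (PL.C (nat_lit 0x2808ed) (nat_lit 0xe8091ae63d0ac0) (nat_lit 0x0)
  (PL.C (nat_lit 0x2812d4) (nat_lit 0x237d25235ae1bc0) (nat_lit 0x0)
  (PL.C (nat_lit 0x2821a8) (nat_lit 0xa392762c649b40) (nat_lit 0x0)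
  (PL.C (nat_lit 0x282df2) (nat_lit 0x4abf5c7f0808f00) (nat_lit 0x0)
  (PL.C (nat_lit 0x28420e) (nat_lit 0x0) (nat_lit 0x28e982f6a17940)
  (PL.C (nat_lit 0x2855e8) (nat_lit 0x2fdfa14d0baf880) (nat_lit 0x0)
  (PL.C (nat_lit 0x286242) (nat_lit 0x0) (nat_lit 0x10c42c27002300)
  (PL.C (nat_lit 0x286a18) (nat_lit 0x0) (nat_lit 0x503868db7b6c0) lm1_40))))))))))))))))))))

noncomputable def lm1_38 : PL :=
  (PL.C (nat_lit 0x24e03c) (nat_lit 0x922346301f2a6c0) (nat_lit 0x0)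
  (PL.C (nat_lit 0x250be8) (nat_lit 0x146934cc1161000) (nat_lit 0x0)
  (PL.C (nat_lit 0x255486) (nat_lit 0x795d18d90c8500) (nat_lit 0x0)
  (PL.C (nat_lit 0x25744e) (nat_lit 0x13c8af554affe80) (nat_lit 0x0)
  (PL.C (nat_lit 0x258cf8) (nat_lit 0x1949cd5ff062720) (nat_lit 0x0)
  (PL.C (nat_lit 0x25a6ca) (nat_lit 0xe01642143ccb00) (nat_lit 0x0)
  (PL.C (nat_lit 0x25b6c9) (nat_lit 0xcd725dab4dfb40) (nat_lit 0x0)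
  (PL.C (nat_lit 0x26067c) (nat_lit 0x1207bcc79061700) (nat_lit 0x0)
  (PL.C (nat_lit 0x260efe) (nat_lit 0x5764558bd0df440) (nat_lit 0x0)
  (PL.C (nat_lit 0x261984) (nat_lit 0x10fa72e3ef83580) (nat_lit 0x0)
  (PL.C (nat_lit 0x262f44) (nat_lit 0x385ee01a028a00) (nat_lit 0x0)
  (PL.C (nat_lit 0x2634d8) (nat_lit 0xeec2e3ed38ee00) (nat_lit 0x0)
  (PL.C (nat_lit 0x263e6e) (nat_lit 0x1194bcef0d35a0c0) (nat_lit 0x0)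
  (PL.C (nat_lit 0x265192) (nat_lit 0x0) (nat_lit 0x52d3fb516e780)
  (PL.C (nat_lit 0x2655c8) (nat_lit 0x0) (nat_lit 0x128da299880500)
  (PL.C (nat_lit 0x2657b2) (nat_lit 0x0) (nat_lit 0xc7b7296fe8a40)
  (PL.C (nat_lit 0x266772) (nat_lit 0x0) (nat_lit 0x53fa6b376d9e80)
  (PL.C (nat_lit 0x267850) (nat_lit 0x2979478771f400) (nat_lit 0x0)
  (PL.C (nat_lit 0x26d7d4) (nat_lit 0x197ffdfb89ec600) (nat_lit 0x0)
  (PL.C (nat_lit 0x26e3b9) (nat_lit 0x143a8b012977480) (nat_lit 0x0) lm1_39))))))))))))))))))))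

noncomputable def lm1_37 : PL :=
  (PL.C (nat_lit 0x225be2) (nat_lit 0x0) (nat_lit 0x509af161fb200)
  (PL.C (nat_lit 0x228b30) (nat_lit 0x1f1af5a5957700) (nat_lit 0x0)
  (PL.C (nat_lit 0x22aca8) (nat_lit 0x5cd49e5b221660) (nat_lit 0x0)
  (PL.C (nat_lit 0x22b310) (nat_lit 0xa5e51e1dc7d000) (nat_lit 0x0)
  (PL.C (nat_lit 0x22ceb4) (nat_lit 0xc69d2ff20bc80) (nat_lit 0x0)
  (PL.C (nat_lit 0x22d1d8) (nat_lit 0x4e1af648c72980) (nat_lit 0x0)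
  (PL.C (nat_lit 0x22d750) (nat_lit 0xf8d7ad2cabb80) (nat_lit 0x0)
  (PL.C (nat_lit 0x2301ea) (nat_lit 0x0) (nat_lit 0x9fe602e731f400)
  (PL.C (nat_lit 0x231cb0) (nat_lit 0x0) (nat_lit 0xa5e51e1dc7d000)
  (PL.C (nat_lit 0x234876) (nat_lit 0x2196bcffb3adf200) (nat_lit 0x0)
  (PL.C (nat_lit 0x237666) (nat_lit 0x3a4aaf5c37f7900) (nat_lit 0x0)
  (PL.C (nat_lit 0x23e0f5) (nat_lit 0x9ea36567552f80) (nat_lit 0x0)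
  (PL.C (nat_lit 0x2404a4) (nat_lit 0x0) (nat_lit 0x6b7cd0032d9180)
  (PL.C (nat_lit 0x241c38) (nat_lit 0x2b668f94618e00) (nat_lit 0x0)
  (PL.C (nat_lit 0x2439a2) (nat_lit 0x90c007c2f531680) (nat_lit 0x0)
  (PL.C (nat_lit 0x244c5c) (nat_lit 0x0) (nat_lit 0x269d5dcd7dc500)
  (PL.C (nat_lit 0x248028) (nat_lit 0x2270a96d7d99300) (nat_lit 0x0)
  (PL.C (nat_lit 0x24a6bc) (nat_lit 0x0) (nat_lit 0xf5faac6d756600)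
  (PL.C (nat_lit 0x24d098) (nat_lit 0x2270a96d7d99300) (nat_lit 0x0)
  (PL.C (nat_lit 0x24dbde) (nat_lit 0x4310b09c008c00) (nat_lit 0x0) lm1_38))))))))))))))))))))

noncomputable def lm1_36 : PL :=
  (PL.C (nat_lit 0x205dfa) (nat_lit 0x0) (nat_lit 0x7c5c35de3d7100)
  (PL.C (nat_lit 0x2069f4) (nat_lit 0x57cae1f25f400) (nat_lit 0x0)
  (PL.C (nat_lit 0x2073e1) (nat_lit 0xc603843a3a8d00) (nat_lit 0x0)
  (PL.C (nat_lit 0x20841f) (nat_lit 0x0) (nat_lit 0x1492218b6c86640)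
  (PL.C (nat_lit 0x2096af) (nat_lit 0x19db76c32df80) (nat_lit 0x0)
  (PL.C (nat_lit 0x20b78e) (nat_lit 0x0) (nat_lit 0xe13654f8b2b640)
  (PL.C (nat_lit 0x20ca24) (nat_lit 0xfec98886d04d00) (nat_lit 0x0)
  (PL.C (nat_lit 0x20d818) (nat_lit 0x0) (nat_lit 0x159745c432c600)
  (PL.C (nat_lit 0x20fa62) (nat_lit 0x0) (nat_lit 0x19c89741111d80)
  (PL.C (nat_lit 0x21268b) (nat_lit 0x0) (nat_lit 0x225a90880aa600)
  (PL.C (nat_lit 0x216434) (nat_lit 0x385050f71e68b70) (nat_lit 0x0)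
  (PL.C (nat_lit 0x218248) (nat_lit 0x146934cc1161000) (nat_lit 0x0)
  (PL.C (nat_lit 0x21901e) (nat_lit 0x667f23bf0eec00) (nat_lit 0x0)
  (PL.C (nat_lit 0x21a638) (nat_lit 0x0) (nat_lit 0xad9a3e5186380)
  (PL.C (nat_lit 0x21f486) (nat_lit 0x509af161fb200) (nat_lit 0x0)
  (PL.C (nat_lit 0x2208b0) (nat_lit 0x2979478771f400) (nat_lit 0x0)
  (PL.C (nat_lit 0x22267b) (nat_lit 0x0) (nat_lit 0x1bb618c8452df80)
  (PL.C (nat_lit 0x2231ac) (nat_lit 0x57cae1f25f400) (nat_lit 0x0)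
  (PL.C (nat_lit 0x22453e) (nat_lit 0x763d15aa398000) (nat_lit 0x0)
  (PL.C (nat_lit 0x224db8) (nat_lit 0x74399b06726b00) (nat_lit 0x0) lm1_37))))))))))))))))))))

noncomputable def lm1_35 : PL :=
  (PL.C (nat_lit 0x1e5523) (nat_lit 0x0) (nat_lit 0xa917772aca780)
  (PL.C (nat_lit 0x1e692d) (nat_lit 0xb8e4ce95629b00) (nat_lit 0x0)
  (PL.C (nat_lit 0x1eac58) (nat_lit 0x0) (nat_lit 0x924a4916a500)
  (PL.C (nat_lit 0x1ebd57) (nat_lit 0x143dde2c5486000) (nat_lit 0x0)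
  (PL.C (nat_lit 0x1eea28) (nat_lit 0xfc29f460c251c0) (nat_lit 0x0)
  (PL.C (nat_lit 0x1ef684) (nat_lit 0x0) (nat_lit 0xf31195fdd1680)
  (PL.C (nat_lit 0x1efc21) (nat_lit 0x0) (nat_lit 0x198597180d3100)
  (PL.C (nat_lit 0x1f1268) (nat_lit 0xad9a3e5186380) (nat_lit 0x0)
  (PL.C (nat_lit 0x1f2412) (nat_lit 0x0) (nat_lit 0x2282fe0c98b200)
  (PL.C (nat_lit 0x1f62d0) (nat_lit 0x1a08d93f77db300) (nat_lit 0x0)
  (PL.C (nat_lit 0x1f9e06) (nat_lit 0x12752f860ec72180) (nat_lit 0x0)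
  (PL.C (nat_lit 0x1fa5d8) (nat_lit 0x5a6f882eaef940) (nat_lit 0x0)
  (PL.C (nat_lit 0x1fb2d8) (nat_lit 0xbe56711929a0) (nat_lit 0x0)
  (PL.C (nat_lit 0x1fbd78) (nat_lit 0x1560ee59d5bef80) (nat_lit 0x0)
  (PL.C (nat_lit 0x1fcb24) (nat_lit 0x237d25235ae1bc0) (nat_lit 0x0)
  (PL.C (nat_lit 0x20196c) (nat_lit 0x1207bcc79061700) (nat_lit 0x0)
  (PL.C (nat_lit 0x201d10) (nat_lit 0x0) (nat_lit 0xf8d7ad2cabb80)
  (PL.C (nat_lit 0x2026ad) (nat_lit 0x1aa81f60079800) (nat_lit 0x0)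
  (PL.C (nat_lit 0x2048a6) (nat_lit 0x1ad21af24f2ec40) (nat_lit 0x0)
  (PL.C (nat_lit 0x20548e) (nat_lit 0x4310b09c008c00) (nat_lit 0x0) lm1_36))))))))))))))))))))

noncomputable def lm1_34 : PL :=
  (PL.C (nat_lit 0x1d0bd4) (nat_lit 0x0) (nat_lit 0x269d5dcd7dc500)
  (PL.C (nat_lit 0x1d14b9) (nat_lit 0x1aa81f60079800) (nat_lit 0x0)
  (PL.C (nat_lit 0x1d2347) (nat_lit 0x0) (nat_lit 0x27fc2f100b640)
  (PL.C (nat_lit 0x1d2a7c) (nat_lit 0x129ebc7eb11ac0) (nat_lit 0x0)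
  (PL.C (nat_lit 0x1d4548) (nat_lit 0x0) (nat_lit 0xb46022ce16cd20)
  (PL.C (nat_lit 0x1d515e) (nat_lit 0x0) (nat_lit 0x940f835b8b3800)
  (PL.C (nat_lit 0x1d7b34) (nat_lit 0x28c5e0d59516500) (nat_lit 0x0)
  (PL.C (nat_lit 0x1d9d3c) (nat_lit 0x95c481128610a80) (nat_lit 0x0)
  (PL.C (nat_lit 0x1da894) (nat_lit 0x0) (nat_lit 0x2389d07a155c00)
  (PL.C (nat_lit 0x1db1a9) (nat_lit 0x27fc2f100b640) (nat_lit 0x0)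
  (PL.C (nat_lit 0x1db4d3) (nat_lit 0x0) (nat_lit 0x35b4d8662681c0)
  (PL.C (nat_lit 0x1dbab0) (nat_lit 0x12584c86bb4f080) (nat_lit 0x0)
  (PL.C (nat_lit 0x1dbc2c) (nat_lit 0x13a19f31629bf40) (nat_lit 0x0)
  (PL.C (nat_lit 0x1dc547) (nat_lit 0x9ff0bc402d900) (nat_lit 0x0)
  (PL.C (nat_lit 0x1dc8ce) (nat_lit 0x2196bcffb3adf200) (nat_lit 0x0)
  (PL.C (nat_lit 0x1dec14) (nat_lit 0x10fa72e3ef83580) (nat_lit 0x0)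
  (PL.C (nat_lit 0x1e181a) (nat_lit 0x4d545301058c00) (nat_lit 0x0)
  (PL.C (nat_lit 0x1e26bb) (nat_lit 0xb8e4ce95629b00) (nat_lit 0x0)
  (PL.C (nat_lit 0x1e4989) (nat_lit 0xc603843a3a8d00) (nat_lit 0x0)
  (PL.C (nat_lit 0x1e4bdc) (nat_lit 0x0) (nat_lit 0xccda5b4a8ff00) lm1_35))))))))))))))))))))

noncomputable def lm1_33 : PL :=
  (PL.C (nat_lit 0x1b8064) (nat_lit 0x0) (nat_lit 0x6b7cd0032d9180)
  (PL.C (nat_lit 0x1b8bbf) (nat_lit 0x744113b0226400) (nat_lit 0x0)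
  (PL.C (nat_lit 0x1b9e46) (nat_lit 0x139ae34256a9e00) (nat_lit 0x0)
  (PL.C (nat_lit 0x1bb3e8) (nat_lit 0x1e19ffce0328600) (nat_lit 0x0)
  (PL.C (nat_lit 0x1bd338) (nat_lit 0x443a3592a30700) (nat_lit 0x0)
  (PL.C (nat_lit 0x1bdb70) (nat_lit 0x0) (nat_lit 0xa5e51e1dc7d000)
  (PL.C (nat_lit 0x1bdd54) (nat_lit 0x23588c3eb551a80) (nat_lit 0x0)
  (PL.C (nat_lit 0x1bfbf7) (nat_lit 0x0) (nat_lit 0x12b45b76a9e0a00)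
  (PL.C (nat_lit 0x1c06c8) (nat_lit 0x56cd1f28c31c00) (nat_lit 0x0)
  (PL.C (nat_lit 0x1c17cc) (nat_lit 0x0) (nat_lit 0x102b1bdeacbb800)
  (PL.C (nat_lit 0x1c3004) (nat_lit 0x73d5de00943f270) (nat_lit 0x0)
  (PL.C (nat_lit 0x1c4968) (nat_lit 0x10a45a053a4800) (nat_lit 0x0)
  (PL.C (nat_lit 0x1c5516) (nat_lit 0x667f23bf0eec00) (nat_lit 0x0)
  (PL.C (nat_lit 0x1c5c18) (nat_lit 0x0) (nat_lit 0x56cd1f28c31c00)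
  (PL.C (nat_lit 0x1c6390) (nat_lit 0xa5e51e1dc7d000) (nat_lit 0x0)
  (PL.C (nat_lit 0x1c6c68) (nat_lit 0x4e1af648c72980) (nat_lit 0x0)
  (PL.C (nat_lit 0x1c7d84) (nat_lit 0x0) (nat_lit 0x634e97f905e400)
  (PL.C (nat_lit 0x1c7f73) (nat_lit 0x87db02a491a5140) (nat_lit 0x0)
  (PL.C (nat_lit 0x1c8490) (nat_lit 0x3e35eb4b2aee00) (nat_lit 0x0)
  (PL.C (nat_lit 0x1d08bc) (nat_lit 0x634e97f905e400) (nat_lit 0x0) lm1_34))))))))))))))))))))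

noncomputable def lm1_32 : PL :=
  (PL.C (nat_lit 0x1a2485) (nat_lit 0x0) (nat_lit 0x7d9fe69c179e40)
  (PL.C (nat_lit 0x1a411a) (nat_lit 0x145b079e7c6400) (nat_lit 0x0)
  (PL.C (nat_lit 0x1a5524) (nat_lit 0x0) (nat_lit 0x385ee01a028a00)
  (PL.C (nat_lit 0x1a6030) (nat_lit 0xf8d7ad2cabb80) (nat_lit 0x0)
  (PL.C (nat_lit 0x1a6b14) (nat_lit 0x70bdc034051400) (nat_lit 0x0)
  (PL.C (nat_lit 0x1a6cdf) (nat_lit 0x0) (nat_lit 0x6bd62a9bbd38c0)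
  (PL.C (nat_lit 0x1a7be2) (nat_lit 0x3a4aaf5c37f7900) (nat_lit 0x0)
  (PL.C (nat_lit 0x1a9a50) (nat_lit 0x1f1af5a5957700) (nat_lit 0x0)
  (PL.C (nat_lit 0x1aa2d9) (nat_lit 0x0) (nat_lit 0x60e33ac5dd0e700)
  (PL.C (nat_lit 0x1aa54c) (nat_lit 0x70bdc034051400) (nat_lit 0x0)
  (PL.C (nat_lit 0x1ab09e) (nat_lit 0x13c8af554affe80) (nat_lit 0x0)
  (PL.C (nat_lit 0x1ab738) (nat_lit 0x6a049a7d5404580) (nat_lit 0x0)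
  (PL.C (nat_lit 0x1ac94c) (nat_lit 0x95c481128610a80) (nat_lit 0x0)
  (PL.C (nat_lit 0x1ad6b4) (nat_lit 0x0) (nat_lit 0xea9a3deb00a4c0)
  (PL.C (nat_lit 0x1ae3f0) (nat_lit 0x12584c86bb4f080) (nat_lit 0x0)
  (PL.C (nat_lit 0x1aec2c) (nat_lit 0x0) (nat_lit 0x385ee01a028a00)
  (PL.C (nat_lit 0x1b0128) (nat_lit 0x593983d1e57ddc0) (nat_lit 0x0)
  (PL.C (nat_lit 0x1b5cc4) (nat_lit 0x1430d17f57a8c40) (nat_lit 0x0)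
  (PL.C (nat_lit 0x1b6525) (nat_lit 0x9ea36567552f80) (nat_lit 0x0)
  (PL.C (nat_lit 0x1b72db) (nat_lit 0x0) (nat_lit 0xf74793cd95240) lm1_33))))))))))))))))))))

noncomputable def lm1_31 : PL :=
  (PL.C (nat_lit 0x18e304) (nat_lit 0x13a19f31629bf40) (nat_lit 0x0)
  (PL.C (nat_lit 0x18f834) (nat_lit 0x2cceecdcb57e840) (nat_lit 0x0)
  (PL.C (nat_lit 0x1919dc) (nat_lit 0x28c5e0d59516500) (nat_lit 0x0)
  (PL.C (nat_lit 0x192486) (nat_lit 0xdb1573618bae00) (nat_lit 0x0)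
  (PL.C (nat_lit 0x194631) (nat_lit 0x37e922b973b7640) (nat_lit 0x0)
  (PL.C (nat_lit 0x1959a8) (nat_lit 0xe73211244e0800) (nat_lit 0x0)
  (PL.C (nat_lit 0x195f54) (nat_lit 0xa3396dddf30e080) (nat_lit 0x0)
  (PL.C (nat_lit 0x196658) (nat_lit 0x74399b06726b00) (nat_lit 0x0)
  (PL.C (nat_lit 0x196719) (nat_lit 0x94b7060805780) (nat_lit 0x0)
  (PL.C (nat_lit 0x1974d8) (nat_lit 0x443a3592a30700) (nat_lit 0x0)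
  (PL.C (nat_lit 0x197890) (nat_lit 0x375f98e70af200) (nat_lit 0x0)
  (PL.C (nat_lit 0x197ef4) (nat_lit 0x73d5de00943f270) (nat_lit 0x0)
  (PL.C (nat_lit 0x19897b) (nat_lit 0x83748c23e173080) (nat_lit 0x0)
  (PL.C (nat_lit 0x198fcc) (nat_lit 0x0) (nat_lit 0x2f747dce80c380)
  (PL.C (nat_lit 0x199a4c) (nat_lit 0x0) (nat_lit 0xf5faac6d756600)
  (PL.C (nat_lit 0x19e538) (nat_lit 0x0) (nat_lit 0xb46022ce16cd20)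
  (PL.C (nat_lit 0x19ed26) (nat_lit 0x2825c49ed706800) (nat_lit 0x0)
  (PL.C (nat_lit 0x19f2f3) (nat_lit 0x143dde2c5486000) (nat_lit 0x0)
  (PL.C (nat_lit 0x1a134b) (nat_lit 0x0) (nat_lit 0x1bb618c8452df80)
  (PL.C (nat_lit 0x1a18c8) (nat_lit 0xfc29f460c251c0) (nat_lit 0x0) lm1_32))))))))))))))))))))

noncomputable def lm1_30 : PL :=
  (PL.C (nat_lit 0x16d8d4) (nat_lit 0x10fa72e3ef83580) (nat_lit 0x0)
  (PL.C (nat_lit 0x16e243) (nat_lit 0x14128ed2196be40) (nat_lit 0x0)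
  (PL.C (nat_lit 0x16e7ec) (nat_lit 0x0) (nat_lit 0x129ebc7eb11ac0)
  (PL.C (nat_lit 0x172f77) (nat_lit 0x676ddb0cb7e00) (nat_lit 0x0)
  (PL.C (nat_lit 0x173478) (nat_lit 0xad9a3e5186380) (nat_lit 0x0)
  (PL.C (nat_lit 0x173690) (nat_lit 0x6925e063852d20) (nat_lit 0x0)
  (PL.C (nat_lit 0x17569c) (nat_lit 0x0) (nat_lit 0x190eda24230e8a0)
  (PL.C (nat_lit 0x1785a4) (nat_lit 0x25707f31de37d320) (nat_lit 0x0)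
  (PL.C (nat_lit 0x17a444) (nat_lit 0x82c3cda2dfccb00) (nat_lit 0x0)
  (PL.C (nat_lit 0x17ae07) (nat_lit 0x0) (nat_lit 0xf1e7a247e4c00)
  (PL.C (nat_lit 0x17eb4e) (nat_lit 0x2b24153ebc63880) (nat_lit 0x0)
  (PL.C (nat_lit 0x180318) (nat_lit 0x14d0978a30e380) (nat_lit 0x0)
  (PL.C (nat_lit 0x180e7f) (nat_lit 0x233b33d816bf22c0) (nat_lit 0x0)
  (PL.C (nat_lit 0x1812d0) (nat_lit 0x3e35eb4b2aee00) (nat_lit 0x0)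
  (PL.C (nat_lit 0x18266c) (nat_lit 0xabe38fdc77ded00) (nat_lit 0x0)
  (PL.C (nat_lit 0x1832e8) (nat_lit 0x0) (nat_lit 0x151484e769c900)
  (PL.C (nat_lit 0x185570) (nat_lit 0x123c126928b8500) (nat_lit 0x0)
  (PL.C (nat_lit 0x186f28) (nat_lit 0x0) (nat_lit 0x5ae324c07a300)
  (PL.C (nat_lit 0x188b10) (nat_lit 0x123c126928b8500) (nat_lit 0x0)
  (PL.C (nat_lit 0x189294) (nat_lit 0xe17b80680a2800) (nat_lit 0x0) lm1_31))))))))))))))))))))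

noncomputable def lm1_29 : PL :=
  (PL.C (nat_lit 0x156f1e) (nat_lit 0x4310b09c008c00) (nat_lit 0x0)
  (PL.C (nat_lit 0x1585c4) (nat_lit 0x385050f71e68b70) (nat_lit 0x0)
  (PL.C (nat_lit 0x158db4) (nat_lit 0xe17b80680a2800) (nat_lit 0x0)
  (PL.C (nat_lit 0x158ea7) (nat_lit 0x83748c23e173080) (nat_lit 0x0)
  (PL.C (nat_lit 0x1593fc) (nat_lit 0x0) (nat_lit 0x30d11888a6bb000)
  (PL.C (nat_lit 0x159bf8) (nat_lit 0x3f94c6fb687e00) (nat_lit 0x0)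
  (PL.C (nat_lit 0x15a296) (nat_lit 0x236fc0706a33080) (nat_lit 0x0)
  (PL.C (nat_lit 0x15ad6a) (nat_lit 0x0) (nat_lit 0x7c5c35de3d7100)
  (PL.C (nat_lit 0x15b9ca) (nat_lit 0x145b079e7c6400) (nat_lit 0x0)
  (PL.C (nat_lit 0x15cfb4) (nat_lit 0x0) (nat_lit 0x3c7c07fc79c1940)
  (PL.C (nat_lit 0x15dc18) (nat_lit 0x5cd49e5b221660) (nat_lit 0x0)
  (PL.C (nat_lit 0x160b1b) (nat_lit 0x9ff0bc402d900) (nat_lit 0x0)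
  (PL.C (nat_lit 0x1619b2) (nat_lit 0x139ae34256a9e00) (nat_lit 0x0)
  (PL.C (nat_lit 0x164e9b) (nat_lit 0x0) (nat_lit 0xa52dfe9d689c40)
  (PL.C (nat_lit 0x166014) (nat_lit 0xeed4807c832500) (nat_lit 0x0)
  (PL.C (nat_lit 0x166ed0) (nat_lit 0x0) (nat_lit 0xf8d7ad2cabb80)
  (PL.C (nat_lit 0x167937) (nat_lit 0x94b7060805780) (nat_lit 0x0)
  (PL.C (nat_lit 0x16a304) (nat_lit 0x129ebc7eb11ac0) (nat_lit 0x0)
  (PL.C (nat_lit 0x16c452) (nat_lit 0x1c94c70e61e6220) (nat_lit 0x0)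
  (PL.C (nat_lit 0x16cbc8) (nat_lit 0x3f94c6fb687e00) (nat_lit 0x0) lm1_30))))))))))))))))))))

noncomputable def lm1_28 : PL :=
  (PL.C (nat_lit 0x13c5b8) (nat_lit 0x0) (nat_lit 0x128da299880500)
  (PL.C (nat_lit 0x13cbc6) (nat_lit 0x509af161fb200) (nat_lit 0x0)
  (PL.C (nat_lit 0x13cde2) (nat_lit 0x0) (nat_lit 0x940f835b8b3800)
  (PL.C (nat_lit 0x13d2c8) (nat_lit 0x133d02e5f7c2580) (nat_lit 0x0)
  (PL.C (nat_lit 0x13d8da) (nat_lit 0x1926423a803480) (nat_lit 0x0)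
  (PL.C (nat_lit 0x13db34) (nat_lit 0x25707f31de37d320) (nat_lit 0x0)
  (PL.C (nat_lit 0x13f2b8) (nat_lit 0x74399b06726b00) (nat_lit 0x0)
  (PL.C (nat_lit 0x1419d2) (nat_lit 0x21b8aae097d49c0) (nat_lit 0x0)
  (PL.C (nat_lit 0x143106) (nat_lit 0x236fc0706a33080) (nat_lit 0x0)
  (PL.C (nat_lit 0x1438c2) (nat_lit 0x0) (nat_lit 0x138e871b702d00)
  (PL.C (nat_lit 0x14461e) (nat_lit 0x21b8aae097d49c0) (nat_lit 0x0)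
  (PL.C (nat_lit 0x144ebb) (nat_lit 0x87db02a491a5140) (nat_lit 0x0)
  (PL.C (nat_lit 0x147e3a) (nat_lit 0x33197971c6ce380) (nat_lit 0x0)
  (PL.C (nat_lit 0x14a458) (nat_lit 0x0) (nat_lit 0x3cdc9e7795a40)
  (PL.C (nat_lit 0x14a816) (nat_lit 0x0) (nat_lit 0x21ed29a34d3600)
  (PL.C (nat_lit 0x14b6f0) (nat_lit 0xf8d7ad2cabb80) (nat_lit 0x0)
  (PL.C (nat_lit 0x151404) (nat_lit 0x177e7b59cfc7aa80) (nat_lit 0x0)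
  (PL.C (nat_lit 0x153218) (nat_lit 0x6a049a7d5404580) (nat_lit 0x0)
  (PL.C (nat_lit 0x153495) (nat_lit 0x0) (nat_lit 0xa213e975a6800)
  (PL.C (nat_lit 0x156648) (nat_lit 0xe73211244e0800) (nat_lit 0x0) lm1_29))))))))))))))))))))

noncomputable def lm1_27 : PL :=
  (PL.C (nat_lit 0x126984) (nat_lit 0x131c8eaf25cda40) (nat_lit 0x0)
  (PL.C (nat_lit 0x1277f0) (nat_lit 0xfaa875d9b5e300) (nat_lit 0x0)
  (PL.C (nat_lit 0x128cd0) (nat_lit 0x53e933155bb500) (nat_lit 0x0)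
  (PL.C (nat_lit 0x12a7fa) (nat_lit 0x0) (nat_lit 0xe13654f8b2b640)
  (PL.C (nat_lit 0x12af30) (nat_lit 0x7c6bd69655dc00) (nat_lit 0x0)
  (PL.C (nat_lit 0x12ba88) (nat_lit 0x0) (nat_lit 0x159745c432c600)
  (PL.C (nat_lit 0x12e364) (nat_lit 0xeed4807c832500) (nat_lit 0x0)
  (PL.C (nat_lit 0x12e810) (nat_lit 0x0) (nat_lit 0x7c6bd69655dc00)
  (PL.C (nat_lit 0x12f2f0) (nat_lit 0x6925e063852d20) (nat_lit 0x0)
  (PL.C (nat_lit 0x12fe58) (nat_lit 0x0) (nat_lit 0x56cd1f28c31c00)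
  (PL.C (nat_lit 0x12ffa2) (nat_lit 0x9a699f19d0ebd10) (nat_lit 0x0)
  (PL.C (nat_lit 0x1351bf) (nat_lit 0x9f9e9317ddc00) (nat_lit 0x0)
  (PL.C (nat_lit 0x135b28) (nat_lit 0x56cd1f28c31c00) (nat_lit 0x0)
  (PL.C (nat_lit 0x135d38) (nat_lit 0x0) (nat_lit 0x151484e769c900)
  (PL.C (nat_lit 0x136326) (nat_lit 0x4310b09c008c00) (nat_lit 0x0)
  (PL.C (nat_lit 0x136cda) (nat_lit 0x0) (nat_lit 0x509af161fb200)
  (PL.C (nat_lit 0x1371a8) (nat_lit 0x104675d7a49540) (nat_lit 0x0)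
  (PL.C (nat_lit 0x138b94) (nat_lit 0x0) (nat_lit 0x1b70001bb8ad840)
  (PL.C (nat_lit 0x13a778) (nat_lit 0x2622d2e53a88a00) (nat_lit 0x0)
  (PL.C (nat_lit 0x13be28) (nat_lit 0xc59baccd08afd00) (nat_lit 0x0) lm1_28))))))))))))))))))))

noncomputable def lm1_26 : PL :=
  (PL.C (nat_lit 0x114fe7) (nat_lit 0x9ff0bc402d900) (nat_lit 0x0)
  (PL.C (nat_lit 0x116232) (nat_lit 0x1c94c70e61e6220) (nat_lit 0x0)
  (PL.C (nat_lit 0x116dae) (nat_lit 0x0) (nat_lit 0x7df7a0d3246dc0)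
  (PL.C (nat_lit 0x1180bc) (nat_lit 0x2ccf236af66b00) (nat_lit 0x0)
  (PL.C (nat_lit 0x118e18) (nat_lit 0x0) (nat_lit 0x443a3592a30700)
  (PL.C (nat_lit 0x119cb8) (nat_lit 0x88746b25460e00) (nat_lit 0x0)
  (PL.C (nat_lit 0x119dea) (nat_lit 0x0) (nat_lit 0xad24c7159d07c0)
  (PL.C (nat_lit 0x11a7ec) (nat_lit 0x82c3cda2dfccb00) (nat_lit 0x0)
  (PL.C (nat_lit 0x11c1e6) (nat_lit 0x0) (nat_lit 0x2282fe0c98b200)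
  (PL.C (nat_lit 0x11c388) (nat_lit 0x88746b25460e00) (nat_lit 0x0)
  (PL.C (nat_lit 0x11cb14) (nat_lit 0x2cceecdcb57e840) (nat_lit 0x0)
  (PL.C (nat_lit 0x11db88) (nat_lit 0xc59baccd08afd00) (nat_lit 0x0)
  (PL.C (nat_lit 0x11e478) (nat_lit 0x5a6f882eaef940) (nat_lit 0x0)
  (PL.C (nat_lit 0x11f2c8) (nat_lit 0x0) (nat_lit 0x443a3592a30700)
  (PL.C (nat_lit 0x123dd8) (nat_lit 0x593983d1e57ddc0) (nat_lit 0x0)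
  (PL.C (nat_lit 0x12436e) (nat_lit 0x2b24153ebc63880) (nat_lit 0x0)
  (PL.C (nat_lit 0x124c92) (nat_lit 0x0) (nat_lit 0xc7b7296fe8a40)
  (PL.C (nat_lit 0x125598) (nat_lit 0x14d0978a30e380) (nat_lit 0x0)
  (PL.C (nat_lit 0x125d2a) (nat_lit 0x181eb28292c3200) (nat_lit 0x0)
  (PL.C (nat_lit 0x126513) (nat_lit 0x676ddb0cb7e00) (nat_lit 0x0) lm1_27))))))))))))))))))))

noncomputable def lm1_25 : PL :=
  (PL.C (nat_lit 0xff234) (nat_lit 0x5b946f00ac8e380) (nat_lit 0x0)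
  (PL.C (nat_lit 0x100210) (nat_lit 0x0) (nat_lit 0x2577e2a21fcb20)
  (PL.C (nat_lit 0x1009aa) (nat_lit 0x32f40daf67fd1060) (nat_lit 0x0)
  (PL.C (nat_lit 0x1021f0) (nat_lit 0x0) (nat_lit 0x2ff6b3695cd800)
  (PL.C (nat_lit 0x104efb) (nat_lit 0x2fb523b86bbc800) (nat_lit 0x0)
  (PL.C (nat_lit 0x1061b8) (nat_lit 0x110e8d64a8c1c00) (nat_lit 0x0)
  (PL.C (nat_lit 0x109758) (nat_lit 0x133d02e5f7c2580) (nat_lit 0x0)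
  (PL.C (nat_lit 0x10a578) (nat_lit 0xaef72f72ad1180) (nat_lit 0x0)
  (PL.C (nat_lit 0x10bbe8) (nat_lit 0x2622d2e53a88a00) (nat_lit 0x0)
  (PL.C (nat_lit 0x10c304) (nat_lit 0x23588c3eb551a80) (nat_lit 0x0)
  (PL.C (nat_lit 0x10d976) (nat_lit 0xbc600ddf7f79700) (nat_lit 0x0)
  (PL.C (nat_lit 0x10e670) (nat_lit 0x9db48aa0ca6c00) (nat_lit 0x0)
  (PL.C (nat_lit 0x10ea38) (nat_lit 0xa147e99ac27f3c0) (nat_lit 0x0)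
  (PL.C (nat_lit 0x10ef66) (nat_lit 0x48c16d8cd8780) (nat_lit 0x0)
  (PL.C (nat_lit 0x10f890) (nat_lit 0x53e933155bb500) (nat_lit 0x0)
  (PL.C (nat_lit 0x110652) (nat_lit 0xc938ac64b61bd40) (nat_lit 0x0)
  (PL.C (nat_lit 0x110a88) (nat_lit 0x11d81a9a5be70) (nat_lit 0x0)
  (PL.C (nat_lit 0x111188) (nat_lit 0x0) (nat_lit 0x5ae324c07a300)
  (PL.C (nat_lit 0x1148c4) (nat_lit 0x550545d4db60b80) (nat_lit 0x0)
  (PL.C (nat_lit 0x114ca2) (nat_lit 0x33197971c6ce380) (nat_lit 0x0) lm1_26))))))))))))))))))))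

noncomputable def lm1_24 : PL :=
  (PL.C (nat_lit 0xe7bdc) (nat_lit 0x2ccf236af66b00) (nat_lit 0x0)
  (PL.C (nat_lit 0xe8a78) (nat_lit 0x1d2d9b197e8e670) (nat_lit 0x0)
  (PL.C (nat_lit 0xeb212) (nat_lit 0x1926423a803480) (nat_lit 0x0)
  (PL.C (nat_lit 0xebbcc) (nat_lit 0x131c8eaf25cda40) (nat_lit 0x0)
  (PL.C (nat_lit 0xec04f) (nat_lit 0x2fb523b86bbc800) (nat_lit 0x0)
  (PL.C (nat_lit 0xec7b1) (nat_lit 0x0) (nat_lit 0x7d9fe69c179e40)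
  (PL.C (nat_lit 0xed021) (nat_lit 0x0) (nat_lit 0xa213e975a6800)
  (PL.C (nat_lit 0xedf12) (nat_lit 0x484b5b381395d00) (nat_lit 0x0)
  (PL.C (nat_lit 0xeeab8) (nat_lit 0xbbcb818fec7a00) (nat_lit 0x0)
  (PL.C (nat_lit 0xefb7a) (nat_lit 0x48c16d8cd8780) (nat_lit 0x0)
  (PL.C (nat_lit 0xf1185) (nat_lit 0x0) (nat_lit 0xa52dfe9d689c40)
  (PL.C (nat_lit 0xf1758) (nat_lit 0x104675d7a49540) (nat_lit 0x0)
  (PL.C (nat_lit 0xf2d8c) (nat_lit 0x406bf539f59f80) (nat_lit 0x0)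
  (PL.C (nat_lit 0xf3b38) (nat_lit 0x74399b06726b00) (nat_lit 0x0)
  (PL.C (nat_lit 0xf4182) (nat_lit 0x27d529ad750b600) (nat_lit 0x0)
  (PL.C (nat_lit 0xf4548) (nat_lit 0x0) (nat_lit 0x104675d7a49540)
  (PL.C (nat_lit 0xf74fa) (nat_lit 0x516c1e79f19000) (nat_lit 0x0)
  (PL.C (nat_lit 0xf7850) (nat_lit 0xf8d7ad2cabb80) (nat_lit 0x0)
  (PL.C (nat_lit 0xfc2d8) (nat_lit 0x312df268c799d00) (nat_lit 0x0)
  (PL.C (nat_lit 0xfc95a) (nat_lit 0x0) (nat_lit 0x2f80f2e3fe8cc0) lm1_25))))))))))))))))))))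

noncomputable def lm1_23 : PL :=
  (PL.C (nat_lit 0xd3b3c) (nat_lit 0x548e502703cf00) (nat_lit 0x0)
  (PL.C (nat_lit 0xd668c) (nat_lit 0x3bc329c2520ba80) (nat_lit 0x0)
  (PL.C (nat_lit 0xd7604) (nat_lit 0x54d1a54dfb41400) (nat_lit 0x0)
  (PL.C (nat_lit 0xd7b2c) (nat_lit 0x0) (nat_lit 0xf31195fdd1680)
  (PL.C (nat_lit 0xd80bd) (nat_lit 0x0) (nat_lit 0xf1e7a247e4c00)
  (PL.C (nat_lit 0xd8414) (nat_lit 0x3bc329c2520ba80) (nat_lit 0x0)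
  (PL.C (nat_lit 0xd89d2) (nat_lit 0x9a699f19d0ebd10) (nat_lit 0x0)
  (PL.C (nat_lit 0xd9bf3) (nat_lit 0x4de4f4194bfed40) (nat_lit 0x0)
  (PL.C (nat_lit 0xda97c) (nat_lit 0x678e3b62c69c2c0) (nat_lit 0x0)
  (PL.C (nat_lit 0xdadab) (nat_lit 0x51a499db913000) (nat_lit 0x0)
  (PL.C (nat_lit 0xdf8f9) (nat_lit 0x3540f9255ec1500) (nat_lit 0x0)
  (PL.C (nat_lit 0xe0d58) (nat_lit 0x0) (nat_lit 0x4235db893fc7a80)
  (PL.C (nat_lit 0xe230e) (nat_lit 0x0) (nat_lit 0x13dac856629c80)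
  (PL.C (nat_lit 0xe4430) (nat_lit 0x9db48aa0ca6c00) (nat_lit 0x0)
  (PL.C (nat_lit 0xe4a14) (nat_lit 0xe17b80680a2800) (nat_lit 0x0)
  (PL.C (nat_lit 0xe5e78) (nat_lit 0x110e8d64a8c1c00) (nat_lit 0x0)
  (PL.C (nat_lit 0xe5f1a) (nat_lit 0xc938ac64b61bd40) (nat_lit 0x0)
  (PL.C (nat_lit 0xe62a8) (nat_lit 0x2483277ce6aaeb0) (nat_lit 0x0)
  (PL.C (nat_lit 0xe6c64) (nat_lit 0x54d1a54dfb41400) (nat_lit 0x0)
  (PL.C (nat_lit 0xe739c) (nat_lit 0x0) (nat_lit 0x30d11888a6bb000) lm1_24))))))))))))))))))))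

noncomputable def lm1_22 : PL :=
  (PL.C (nat_lit 0xc73cb) (nat_lit 0x9f9e9317ddc00) (nat_lit 0x0)
  (PL.C (nat_lit 0xc7c05) (nat_lit 0x0) (nat_lit 0x2618673b1d50c0)
  (PL.C (nat_lit 0xc9798) (nat_lit 0xbbcb818fec7a00) (nat_lit 0x0)
  (PL.C (nat_lit 0xca990) (nat_lit 0x0) (nat_lit 0x7c6bd69655dc00)
  (PL.C (nat_lit 0xcaa6c) (nat_lit 0xd9f85216ce7f210) (nat_lit 0x0)
  (PL.C (nat_lit 0xcb859) (nat_lit 0x0) (nat_lit 0x6bd62a9bbd38c0)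
  (PL.C (nat_lit 0xce12a) (nat_lit 0x5de9f4798bdc00) (nat_lit 0x0)
  (PL.C (nat_lit 0xce770) (nat_lit 0x7c6bd69655dc00) (nat_lit 0x0)
  (PL.C (nat_lit 0xce8d0) (nat_lit 0x0) (nat_lit 0x2ff6b3695cd800)
  (PL.C (nat_lit 0xcecc4) (nat_lit 0xe17b80680a2800) (nat_lit 0x0)
  (PL.C (nat_lit 0xcf33c) (nat_lit 0x0) (nat_lit 0x129ebc7eb11ac0)
  (PL.C (nat_lit 0xcf41d) (nat_lit 0xea9dcf9f352bb60) (nat_lit 0x0)
  (PL.C (nat_lit 0xcf670) (nat_lit 0x1754383c301940) (nat_lit 0x0)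
  (PL.C (nat_lit 0xd07b8) (nat_lit 0x0) (nat_lit 0x184a59bd11fc280)
  (PL.C (nat_lit 0xd1a50) (nat_lit 0x2932bee5edc4958) (nat_lit 0x0)
  (PL.C (nat_lit 0xd2970) (nat_lit 0x581cd55a3475e80) (nat_lit 0x0)
  (PL.C (nat_lit 0xd3284) (nat_lit 0x129ebc7eb11ac0) (nat_lit 0x0)
  (PL.C (nat_lit 0xd33ec) (nat_lit 0x0) (nat_lit 0x1b70001bb8ad840)
  (PL.C (nat_lit 0xd3730) (nat_lit 0x101a421afaa4a98) (nat_lit 0x0)
  (PL.C (nat_lit 0xd37f7) (nat_lit 0x9ff0bc402d900) (nat_lit 0x0) lm1_23))))))))))))))))))))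

noncomputable def lm1_21 : PL :=
  (PL.C (nat_lit 0xb9e74) (nat_lit 0x0) (nat_lit 0x170f802a4301900)
  (PL.C (nat_lit 0xbab28) (nat_lit 0x892f15ced91600) (nat_lit 0x0)
  (PL.C (nat_lit 0xbb410) (nat_lit 0x0) (nat_lit 0x53e933155bb500)
  (PL.C (nat_lit 0xbbdd0) (nat_lit 0xa7d2662ab76a00) (nat_lit 0x0)
  (PL.C (nat_lit 0xbbe9c) (nat_lit 0x0) (nat_lit 0x1d9e329e388a600)
  (PL.C (nat_lit 0xbc548) (nat_lit 0x312df268c799d00) (nat_lit 0x0)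
  (PL.C (nat_lit 0xbd7b0) (nat_lit 0xa7d2662ab76a00) (nat_lit 0x0)
  (PL.C (nat_lit 0xbdcb8) (nat_lit 0xaef72f72ad1180) (nat_lit 0x0)
  (PL.C (nat_lit 0xbe7b0) (nat_lit 0x581cd55a3475e80) (nat_lit 0x0)
  (PL.C (nat_lit 0xbf730) (nat_lit 0x0) (nat_lit 0x53e933155bb500)
  (PL.C (nat_lit 0xc02f1) (nat_lit 0x0) (nat_lit 0x36883420dac2e00)
  (PL.C (nat_lit 0xc2cf4) (nat_lit 0x5b946f00ac8e380) (nat_lit 0x0)
  (PL.C (nat_lit 0xc31fb) (nat_lit 0x1c6e48127664e00) (nat_lit 0x0)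
  (PL.C (nat_lit 0xc330c) (nat_lit 0x0) (nat_lit 0x2f747dce80c380)
  (PL.C (nat_lit 0xc3910) (nat_lit 0x0) (nat_lit 0x2577e2a21fcb20)
  (PL.C (nat_lit 0xc3e1c) (nat_lit 0x340a61f0b1fcc00) (nat_lit 0x0)
  (PL.C (nat_lit 0xc4362) (nat_lit 0x516c1e79f19000) (nat_lit 0x0)
  (PL.C (nat_lit 0xc4658) (nat_lit 0x43fe2dd8ae86230) (nat_lit 0x0)
  (PL.C (nat_lit 0xc5de0) (nat_lit 0x1f1af5a5957700) (nat_lit 0x0)
  (PL.C (nat_lit 0xc6ffc) (nat_lit 0x0) (nat_lit 0x3c7c07fc79c1940) lm1_22))))))))))))))))))))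

noncomputable def lm1_20 : PL :=
  (PL.C (nat_lit 0xa863c) (nat_lit 0x0) (nat_lit 0xad863f55788980)
  (PL.C (nat_lit 0xaa178) (nat_lit 0x83f16046ab65000) (nat_lit 0x0)
  (PL.C (nat_lit 0xaa71b) (nat_lit 0x0) (nat_lit 0x3974fe7445e40)
  (PL.C (nat_lit 0xab11c) (nat_lit 0x2ce6b1e30495d920) (nat_lit 0x0)
  (PL.C (nat_lit 0xadf52) (nat_lit 0xbd57bdacc31ed00) (nat_lit 0x0)
  (PL.C (nat_lit 0xaebd0) (nat_lit 0x14fa4cc556ed400) (nat_lit 0x0)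
  (PL.C (nat_lit 0xaef51) (nat_lit 0xea9dcf9f352bb60) (nat_lit 0x0)
  (PL.C (nat_lit 0xb0f90) (nat_lit 0x101a421afaa4a98) (nat_lit 0x0)
  (PL.C (nat_lit 0xb27f0) (nat_lit 0x2932bee5edc4958) (nat_lit 0x0)
  (PL.C (nat_lit 0xb3ba4) (nat_lit 0x17487c80c4c56a40) (nat_lit 0x0)
  (PL.C (nat_lit 0xb46d0) (nat_lit 0x4926f78ebfa7d40) (nat_lit 0x0)
  (PL.C (nat_lit 0xb4a44) (nat_lit 0x14a33fd7279600) (nat_lit 0x0)
  (PL.C (nat_lit 0xb5060) (nat_lit 0x1f1af5a5957700) (nat_lit 0x0)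
  (PL.C (nat_lit 0xb598c) (nat_lit 0x15966ffaa599c1c0) (nat_lit 0x0)
  (PL.C (nat_lit 0xb7cff) (nat_lit 0x4de4f4194bfed40) (nat_lit 0x0)
  (PL.C (nat_lit 0xb85d8) (nat_lit 0x410c1b447034180) (nat_lit 0x0)
  (PL.C (nat_lit 0xb886c) (nat_lit 0x678e3b62c69c2c0) (nat_lit 0x0)
  (PL.C (nat_lit 0xb8a9a) (nat_lit 0x1926423a803480) (nat_lit 0x0)
  (PL.C (nat_lit 0xb96cc) (nat_lit 0x406bf539f59f80) (nat_lit 0x0)
  (PL.C (nat_lit 0xb9b95) (nat_lit 0x83a827bd25e8680) (nat_lit 0x0) lm1_21))))))))))))))))))))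

noncomputable def lm1_19 : PL :=
  (PL.C (nat_lit 0x99450) (nat_lit 0x14fa4cc556ed400) (nat_lit 0x0)
  (PL.C (nat_lit 0x994bc) (nat_lit 0x15966ffaa599c1c0) (nat_lit 0x0)
  (PL.C (nat_lit 0x99d98) (nat_lit 0x61427b2554aeb80) (nat_lit 0x0)
  (PL.C (nat_lit 0x9a268) (nat_lit 0x2483277ce6aaeb0) (nat_lit 0x0)
  (PL.C (nat_lit 0x9a7e8) (nat_lit 0x892f15ced91600) (nat_lit 0x0)
  (PL.C (nat_lit 0x9cc0c) (nat_lit 0x548e502703cf00) (nat_lit 0x0)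
  (PL.C (nat_lit 0x9d288) (nat_lit 0x43fe2dd8ae86230) (nat_lit 0x0)
  (PL.C (nat_lit 0x9d58a) (nat_lit 0xbd57bdacc31ed00) (nat_lit 0x0)
  (PL.C (nat_lit 0x9da76) (nat_lit 0x0) (nat_lit 0x7df7a0d3246dc0)
  (PL.C (nat_lit 0x9e016) (nat_lit 0x0) (nat_lit 0x13dac856629c80)
  (PL.C (nat_lit 0x9ea0c) (nat_lit 0x368e98a9efd6320) (nat_lit 0x0)
  (PL.C (nat_lit 0x9f1d0) (nat_lit 0x5f7e9f559f7e00) (nat_lit 0x0)
  (PL.C (nat_lit 0x9fcfc) (nat_lit 0x14a33fd7279600) (nat_lit 0x0)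
  (PL.C (nat_lit 0xa000b) (nat_lit 0x27fc2f100b6400) (nat_lit 0x0)
  (PL.C (nat_lit 0xa0bae) (nat_lit 0x484b5b381395d00) (nat_lit 0x0)
  (PL.C (nat_lit 0xa0f90) (nat_lit 0x1754383c301940) (nat_lit 0x0)
  (PL.C (nat_lit 0xa2bac) (nat_lit 0x53db5a0cf04f0c0) (nat_lit 0x0)
  (PL.C (nat_lit 0xa2e30) (nat_lit 0x0) (nat_lit 0x1754383c301940)
  (PL.C (nat_lit 0xa3719) (nat_lit 0x51a499db913000) (nat_lit 0x0)
  (PL.C (nat_lit 0xa4dfc) (nat_lit 0xb33c8dabd9ac00) (nat_lit 0x0) lm1_20))))))))))))))))))))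

noncomputable def lm1_18 : PL :=
  (PL.C (nat_lit 0x8a228) (nat_lit 0x0) (nat_lit 0x104675d7a49540)
  (PL.C (nat_lit 0x8a2be) (nat_lit 0x13227a3838e674c0) (nat_lit 0x0)
  (PL.C (nat_lit 0x8afd0) (nat_lit 0x0) (nat_lit 0x1cac39d39967740)
  (PL.C (nat_lit 0x8c811) (nat_lit 0x0) (nat_lit 0xfbf9a6c9df1b80)
  (PL.C (nat_lit 0x8cc58) (nat_lit 0x104675d7a49540) (nat_lit 0x0)
  (PL.C (nat_lit 0x8cd48) (nat_lit 0x0) (nat_lit 0x184a59bd11fc280)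
  (PL.C (nat_lit 0x8cffa) (nat_lit 0x1926423a803480) (nat_lit 0x0)
  (PL.C (nat_lit 0x8d228) (nat_lit 0x6657505bf48a80) (nat_lit 0x0)
  (PL.C (nat_lit 0x8ef08) (nat_lit 0x4586c7c1b292100) (nat_lit 0x0)
  (PL.C (nat_lit 0x8f958) (nat_lit 0x61427b2554aeb80) (nat_lit 0x0)
  (PL.C (nat_lit 0x8fcc8) (nat_lit 0x0) (nat_lit 0x3cdc9e7795a40)
  (PL.C (nat_lit 0x9007e) (nat_lit 0x0) (nat_lit 0x2f80f2e3fe8cc0)
  (PL.C (nat_lit 0x902b8) (nat_lit 0x4586c7c1b292100) (nat_lit 0x0)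
  (PL.C (nat_lit 0x9068c) (nat_lit 0xd9f85216ce7f210) (nat_lit 0x0)
  (PL.C (nat_lit 0x912a2) (nat_lit 0xd28c39526a9b140) (nat_lit 0x0)
  (PL.C (nat_lit 0x91ba8) (nat_lit 0x5bbd8dd00cb1e80) (nat_lit 0x0)
  (PL.C (nat_lit 0x91e72) (nat_lit 0xd8fd27c7a08780) (nat_lit 0x0)
  (PL.C (nat_lit 0x950a6) (nat_lit 0x9e1f2e1ed006b00) (nat_lit 0x0)
  (PL.C (nat_lit 0x96cb4) (nat_lit 0x0) (nat_lit 0x4f9c33e0177280)
  (PL.C (nat_lit 0x986b8) (nat_lit 0x110e8d64a8c1c00) (nat_lit 0x0) lm1_19))))))))))))))))))))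

noncomputable def lm1_17 : PL :=
  (PL.C (nat_lit 0x7d1e7) (nat_lit 0x13d12219db5400) (nat_lit 0x0)
  (PL.C (nat_lit 0x7d3e0) (nat_lit 0x3e35eb4b2aee00) (nat_lit 0x0)
  (PL.C (nat_lit 0x7d468) (nat_lit 0x0) (nat_lit 0x15ba562e516900)
  (PL.C (nat_lit 0x7e520) (nat_lit 0x3e35eb4b2aee00) (nat_lit 0x0)
  (PL.C (nat_lit 0x7fa20) (nat_lit 0x0) (nat_lit 0x1f1af5a5957700)
  (PL.C (nat_lit 0x801f6) (nat_lit 0x0) (nat_lit 0x3ac0f3219723080)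
  (PL.C (nat_lit 0x81df8) (nat_lit 0x83f16046ab65000) (nat_lit 0x0)
  (PL.C (nat_lit 0x82152) (nat_lit 0x56d9fd82ce84100) (nat_lit 0x0)
  (PL.C (nat_lit 0x82208) (nat_lit 0x11d81a9a5be70) (nat_lit 0x0)
  (PL.C (nat_lit 0x82968) (nat_lit 0x43d4e1c35714400) (nat_lit 0x0)
  (PL.C (nat_lit 0x82cec) (nat_lit 0xb33c8dabd9ac00) (nat_lit 0x0)
  (PL.C (nat_lit 0x84aa8) (nat_lit 0x1d2d9b197e8e670) (nat_lit 0x0)
  (PL.C (nat_lit 0x84d32) (nat_lit 0x5de9f4798bdc00) (nat_lit 0x0)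
  (PL.C (nat_lit 0x852ae) (nat_lit 0x0) (nat_lit 0x30e295ebcfdc00)
  (PL.C (nat_lit 0x85c7d) (nat_lit 0x0) (nat_lit 0x2618673b1d50c0)
  (PL.C (nat_lit 0x86510) (nat_lit 0x5f7e9f559f7e00) (nat_lit 0x0)
  (PL.C (nat_lit 0x87ae6) (nat_lit 0x0) (nat_lit 0xad24c7159d07c0)
  (PL.C (nat_lit 0x88641) (nat_lit 0x0) (nat_lit 0x3974fe7445e40)
  (PL.C (nat_lit 0x8961c) (nat_lit 0xeb78a4fba04b00) (nat_lit 0x0)
  (PL.C (nat_lit 0x89dd8) (nat_lit 0x110e8d64a8c1c00) (nat_lit 0x0) lm1_18))))))))))))))))))))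

noncomputable def lm1_16 : PL :=
  (PL.C (nat_lit 0x6dea8) (nat_lit 0x224bc573b645800) (nat_lit 0x0)
  (PL.C (nat_lit 0x70428) (nat_lit 0x0) (nat_lit 0x96f6c92fe1cf40)
  (PL.C (nat_lit 0x71650) (nat_lit 0x5d2a0f677f96960) (nat_lit 0x0)
  (PL.C (nat_lit 0x71a12) (nat_lit 0xef8d1669d5f00) (nat_lit 0x0)
  (PL.C (nat_lit 0x73f8c) (nat_lit 0x13753ff202635f80) (nat_lit 0x0)
  (PL.C (nat_lit 0x747e0) (nat_lit 0x7c6bd69655dc00) (nat_lit 0x0)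
  (PL.C (nat_lit 0x74a36) (nat_lit 0x13227a3838e674c0) (nat_lit 0x0)
  (PL.C (nat_lit 0x753f9) (nat_lit 0x1947e988d47b280) (nat_lit 0x0)
  (PL.C (nat_lit 0x77d18) (nat_lit 0x17dffe566d81da80) (nat_lit 0x0)
  (PL.C (nat_lit 0x786d8) (nat_lit 0x0) (nat_lit 0x45172216452380)
  (PL.C (nat_lit 0x79108) (nat_lit 0x4bcce7f420b7880) (nat_lit 0x0)
  (PL.C (nat_lit 0x7a8aa) (nat_lit 0xd28c39526a9b140) (nat_lit 0x0)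
  (PL.C (nat_lit 0x7ae90) (nat_lit 0x1171ba685450880) (nat_lit 0x0)
  (PL.C (nat_lit 0x7b048) (nat_lit 0x5bbd8dd00cb1e80) (nat_lit 0x0)
  (PL.C (nat_lit 0x7b1bc) (nat_lit 0x548e502703cf00) (nat_lit 0x0)
  (PL.C (nat_lit 0x7bd0e) (nat_lit 0x1329fac83305e500) (nat_lit 0x0)
  (PL.C (nat_lit 0x7bef8) (nat_lit 0x0) (nat_lit 0x8854b720b7480)
  (PL.C (nat_lit 0x7c0d1) (nat_lit 0x13d12219db5400) (nat_lit 0x0)
  (PL.C (nat_lit 0x7c770) (nat_lit 0x7b90fd3894fb00) (nat_lit 0x0)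
  (PL.C (nat_lit 0x7cd60) (nat_lit 0x0) (nat_lit 0x1f1af5a5957700) lm1_17))))))))))))))))))))

noncomputable def lm1_15 : PL :=
  (PL.C (nat_lit 0x64878) (nat_lit 0x0) (nat_lit 0x419ba1c441d000)
  (PL.C (nat_lit 0x659d0) (nat_lit 0x14fa4cc556ed400) (nat_lit 0x0)
  (PL.C (nat_lit 0x662e0) (nat_lit 0x7c6bd69655dc00) (nat_lit 0x0)
  (PL.C (nat_lit 0x66328) (nat_lit 0x4bcce7f420b7880) (nat_lit 0x0)
  (PL.C (nat_lit 0x66910) (nat_lit 0x455fe52f56da560) (nat_lit 0x0)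
  (PL.C (nat_lit 0x66ff0) (nat_lit 0x7b90fd3894fb00) (nat_lit 0x0)
  (PL.C (nat_lit 0x68808) (nat_lit 0x6657505bf48a80) (nat_lit 0x0)
  (PL.C (nat_lit 0x68e5c) (nat_lit 0x13753ff202635f80) (nat_lit 0x0)
  (PL.C (nat_lit 0x69111) (nat_lit 0x145479fcea9e4c0) (nat_lit 0x0)
  (PL.C (nat_lit 0x691a4) (nat_lit 0x0) (nat_lit 0x170f802a4301900)
  (PL.C (nat_lit 0x69564) (nat_lit 0x0) (nat_lit 0x4f9c33e0177280)
  (PL.C (nat_lit 0x69c08) (nat_lit 0xfdea3564c59b580) (nat_lit 0x0)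
  (PL.C (nat_lit 0x6a8a8) (nat_lit 0x0) (nat_lit 0x45172216452380)
  (PL.C (nat_lit 0x6aab2) (nat_lit 0x78972072068400) (nat_lit 0x0)
  (PL.C (nat_lit 0x6b274) (nat_lit 0x368e98a9efd6320) (nat_lit 0x0)
  (PL.C (nat_lit 0x6b481) (nat_lit 0x0) (nat_lit 0xfbf9a6c9df1b80)
  (PL.C (nat_lit 0x6b8ef) (nat_lit 0x0) (nat_lit 0xf31dde3079c00)
  (PL.C (nat_lit 0x6c7c8) (nat_lit 0x4007b3e6f5eac40) (nat_lit 0x0)
  (PL.C (nat_lit 0x6cf66) (nat_lit 0xd8fd27c7a08780) (nat_lit 0x0)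
  (PL.C (nat_lit 0x6d96b) (nat_lit 0x0) (nat_lit 0x36883420dac2e00) lm1_16))))))))))))))))))))

noncomputable def lm1_14 : PL :=
  (PL.C (nat_lit 0x5bc71) (nat_lit 0x0) (nat_lit 0x5f4d898957c00)
  (PL.C (nat_lit 0x5be90) (nat_lit 0x14fa4cc556ed400) (nat_lit 0x0)
  (PL.C (nat_lit 0x5c170) (nat_lit 0x0) (nat_lit 0x1754383c301940)
  (PL.C (nat_lit 0x5c1d4) (nat_lit 0x2060ed6b41b5480) (nat_lit 0x0)
  (PL.C (nat_lit 0x5dab6) (nat_lit 0x0) (nat_lit 0x6528e2431f780)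
  (PL.C (nat_lit 0x5dd90) (nat_lit 0x1754383c301940) (nat_lit 0x0)
  (PL.C (nat_lit 0x5de30) (nat_lit 0x0) (nat_lit 0x1cac39d39967740)
  (PL.C (nat_lit 0x5dffc) (nat_lit 0x548e502703cf00) (nat_lit 0x0)
  (PL.C (nat_lit 0x5e170) (nat_lit 0x7dddcca0098f80) (nat_lit 0x0)
  (PL.C (nat_lit 0x5e269) (nat_lit 0x27fc2f100b6400) (nat_lit 0x0)
  (PL.C (nat_lit 0x5e353) (nat_lit 0x666edc0de21df00) (nat_lit 0x0)
  (PL.C (nat_lit 0x5f4b0) (nat_lit 0xc375f70233ab70) (nat_lit 0x0)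
  (PL.C (nat_lit 0x5fb90) (nat_lit 0x455fe52f56da560) (nat_lit 0x0)
  (PL.C (nat_lit 0x60054) (nat_lit 0x0) (nat_lit 0xad863f55788980)
  (PL.C (nat_lit 0x601d0) (nat_lit 0xc375f70233ab70) (nat_lit 0x0)
  (PL.C (nat_lit 0x60c6c) (nat_lit 0x1b578a57c442b800) (nat_lit 0x0)
  (PL.C (nat_lit 0x61270) (nat_lit 0x293ec59fc0127e0) (nat_lit 0x0)
  (PL.C (nat_lit 0x6144c) (nat_lit 0x2b0981f6a026000) (nat_lit 0x0)
  (PL.C (nat_lit 0x62f9d) (nat_lit 0xfe7e664ce61a380) (nat_lit 0x0)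
  (PL.C (nat_lit 0x635c4) (nat_lit 0xfcdee2df4c73b00) (nat_lit 0x0) lm1_15))))))))))))))))))))

noncomputable def lm1_13 : PL :=
  (PL.C (nat_lit 0x51b1c) (nat_lit 0x1b578a57c442b800) (nat_lit 0x0)
  (PL.C (nat_lit 0x52030) (nat_lit 0x293ec59fc0127e0) (nat_lit 0x0)
  (PL.C (nat_lit 0x52128) (nat_lit 0x6657505bf48a80) (nat_lit 0x0)
  (PL.C (nat_lit 0x528b4) (nat_lit 0xb543eef78c09e40) (nat_lit 0x0)
  (PL.C (nat_lit 0x52b36) (nat_lit 0x5326715e69ac00) (nat_lit 0x0)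
  (PL.C (nat_lit 0x52fa0) (nat_lit 0xa0f6eaf1ff2480) (nat_lit 0x0)
  (PL.C (nat_lit 0x5369a) (nat_lit 0x5326715e69ac00) (nat_lit 0x0)
  (PL.C (nat_lit 0x538d1) (nat_lit 0x1947e988d47b280) (nat_lit 0x0)
  (PL.C (nat_lit 0x556a4) (nat_lit 0x0) (nat_lit 0x9f30ef8d2f61e00)
  (PL.C (nat_lit 0x56950) (nat_lit 0x5d2a0f677f96960) (nat_lit 0x0)
  (PL.C (nat_lit 0x56b8c) (nat_lit 0xc4d162e2aa6aa00) (nat_lit 0x0)
  (PL.C (nat_lit 0x570f0) (nat_lit 0x29a017b6d8ac100) (nat_lit 0x0)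
  (PL.C (nat_lit 0x57348) (nat_lit 0x224bc573b645800) (nat_lit 0x0)
  (PL.C (nat_lit 0x588cc) (nat_lit 0xeb78a4fba04b00) (nat_lit 0x0)
  (PL.C (nat_lit 0x58b15) (nat_lit 0x145479fcea9e4c0) (nat_lit 0x0)
  (PL.C (nat_lit 0x58c74) (nat_lit 0x0) (nat_lit 0xfb3a1a5fec2980)
  (PL.C (nat_lit 0x592fe) (nat_lit 0x0) (nat_lit 0x30e295ebcfdc00)
  (PL.C (nat_lit 0x5a744) (nat_lit 0x0) (nat_lit 0x1d9e329e388a600)
  (PL.C (nat_lit 0x5aed6) (nat_lit 0xef8d1669d5f00) (nat_lit 0x0)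
  (PL.C (nat_lit 0x5b968) (nat_lit 0x1642f0ad26748c0) (nat_lit 0x0) lm1_14))))))))))))))))))))

noncomputable def lm1_12 : PL :=
  (PL.C (nat_lit 0x45ee8) (nat_lit 0x1c5d1180d1c41bc0) (nat_lit 0x0)
  (PL.C (nat_lit 0x460b6) (nat_lit 0x37b7cf77278cc00) (nat_lit 0x0)
  (PL.C (nat_lit 0x46118) (nat_lit 0x0) (nat_lit 0x8854b720b7480)
  (PL.C (nat_lit 0x46398) (nat_lit 0x0) (nat_lit 0x419ba1c441d000)
  (PL.C (nat_lit 0x47070) (nat_lit 0x0) (nat_lit 0x1b34775f29a100)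
  (PL.C (nat_lit 0x471cc) (nat_lit 0x18485c5110fa500) (nat_lit 0x0)
  (PL.C (nat_lit 0x476f8) (nat_lit 0xfdea3564c59b580) (nat_lit 0x0)
  (PL.C (nat_lit 0x47856) (nat_lit 0x0) (nat_lit 0x6528e2431f780)
  (PL.C (nat_lit 0x47b4a) (nat_lit 0x0) (nat_lit 0x1dc82c8193eac0)
  (PL.C (nat_lit 0x48530) (nat_lit 0xffc76e4914ef40) (nat_lit 0x0)
  (PL.C (nat_lit 0x48a44) (nat_lit 0x2b0981f6a026000) (nat_lit 0x0)
  (PL.C (nat_lit 0x490f2) (nat_lit 0x0) (nat_lit 0x3ac0f3219723080)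
  (PL.C (nat_lit 0x49470) (nat_lit 0x1ee43f4e253ec00) (nat_lit 0x0)
  (PL.C (nat_lit 0x4ad70) (nat_lit 0x0) (nat_lit 0xa55464643a7830)
  (PL.C (nat_lit 0x4bc0c) (nat_lit 0x318e496425e500) (nat_lit 0x0)
  (PL.C (nat_lit 0x4d508) (nat_lit 0x1c5d1180d1c41bc0) (nat_lit 0x0)
  (PL.C (nat_lit 0x4dc24) (nat_lit 0x2060ed6b41b5480) (nat_lit 0x0)
  (PL.C (nat_lit 0x4e2a6) (nat_lit 0x3ab1e5cbbf0c140) (nat_lit 0x0)
  (PL.C (nat_lit 0x4fe10) (nat_lit 0xe9f00c956d49400) (nat_lit 0x0)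
  (PL.C (nat_lit 0x50490) (nat_lit 0x0) (nat_lit 0x1b34775f29a100) lm1_13))))))))))))))))))))

noncomputable def lm1_11 : PL :=
  (PL.C (nat_lit 0x3ccf3) (nat_lit 0x0) (nat_lit 0xf31dde3079c00)
  (PL.C (nat_lit 0x3d0f0) (nat_lit 0x16819a68c76dc24) (nat_lit 0x0)
  (PL.C (nat_lit 0x3d2f6) (nat_lit 0x7ddd534cec0400) (nat_lit 0x0)
  (PL.C (nat_lit 0x3d460) (nat_lit 0x7c6bd69655dc00) (nat_lit 0x0)
  (PL.C (nat_lit 0x3dfef) (nat_lit 0x0) (nat_lit 0x5f4d898957c00)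
  (PL.C (nat_lit 0x3e724) (nat_lit 0x0) (nat_lit 0x1eb9fb8fc39c780)
  (PL.C (nat_lit 0x3eaa8) (nat_lit 0x6657505bf48a80) (nat_lit 0x0)
  (PL.C (nat_lit 0x3eba0) (nat_lit 0x2ea87078603280) (nat_lit 0x0)
  (PL.C (nat_lit 0x3ec46) (nat_lit 0x78972072068400) (nat_lit 0x0)
  (PL.C (nat_lit 0x3ece2) (nat_lit 0x1ed343829dd1100) (nat_lit 0x0)
  (PL.C (nat_lit 0x40038) (nat_lit 0x0) (nat_lit 0x96f6c92fe1cf40)
  (PL.C (nat_lit 0x40848) (nat_lit 0x19234fe6e2d57640) (nat_lit 0x0)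
  (PL.C (nat_lit 0x40d88) (nat_lit 0x31e6330ca199e00) (nat_lit 0x0)
  (PL.C (nat_lit 0x41fbe) (nat_lit 0x3145433293029d40) (nat_lit 0x0)
  (PL.C (nat_lit 0x423d8) (nat_lit 0xbda673527308280) (nat_lit 0x0)
  (PL.C (nat_lit 0x43050) (nat_lit 0x0) (nat_lit 0x62279dfdffe900)
  (PL.C (nat_lit 0x43191) (nat_lit 0x58f6d4f09e8d00) (nat_lit 0x0)
  (PL.C (nat_lit 0x43be0) (nat_lit 0x7c6bd69655dc00) (nat_lit 0x0)
  (PL.C (nat_lit 0x44aa0) (nat_lit 0xa0f6eaf1ff2480) (nat_lit 0x0)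
  (PL.C (nat_lit 0x45ab0) (nat_lit 0x7dddcca0098f80) (nat_lit 0x0) lm1_12))))))))))))))))))))

noncomputable def lm1_10 : PL :=
  (PL.C (nat_lit 0x354b7) (nat_lit 0x900672910eab240) (nat_lit 0x0)
  (PL.C (nat_lit 0x35860) (nat_lit 0x0) (nat_lit 0x7ad7813439b900)
  (PL.C (nat_lit 0x36768) (nat_lit 0x19234fe6e2d57640) (nat_lit 0x0)
  (PL.C (nat_lit 0x36b70) (nat_lit 0x7dddcca0098f80) (nat_lit 0x0)
  (PL.C (nat_lit 0x37078) (nat_lit 0xa697802c5dc600) (nat_lit 0x0)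
  (PL.C (nat_lit 0x37224) (nat_lit 0xeca5062b216b00) (nat_lit 0x0)
  (PL.C (nat_lit 0x379bc) (nat_lit 0xeca5062b216b00) (nat_lit 0x0)
  (PL.C (nat_lit 0x37b36) (nat_lit 0x3ab1e5cbbf0c140) (nat_lit 0x0)
  (PL.C (nat_lit 0x38f18) (nat_lit 0x0) (nat_lit 0x38cdf6f84c5e00)
  (PL.C (nat_lit 0x397cb) (nat_lit 0x6f3fdef4974a00) (nat_lit 0x0)
  (PL.C (nat_lit 0x39d08) (nat_lit 0xd8ffd2eb3667c00) (nat_lit 0x0)
  (PL.C (nat_lit 0x3a0a0) (nat_lit 0x914550a5bb5900) (nat_lit 0x0)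
  (PL.C (nat_lit 0x3a230) (nat_lit 0x1ee43f4e253ec00) (nat_lit 0x0)
  (PL.C (nat_lit 0x3b088) (nat_lit 0x1642f0ad26748c0) (nat_lit 0x0)
  (PL.C (nat_lit 0x3b20e) (nat_lit 0x37b7cf77278cc00) (nat_lit 0x0)
  (PL.C (nat_lit 0x3b2f8) (nat_lit 0x0) (nat_lit 0x38a7e65ac19f00)
  (PL.C (nat_lit 0x3b754) (nat_lit 0x0) (nat_lit 0xfb3a1a5fec2980)
  (PL.C (nat_lit 0x3c4d8) (nat_lit 0x0) (nat_lit 0x15ba562e516900)
  (PL.C (nat_lit 0x3c9e4) (nat_lit 0x318e496425e500) (nat_lit 0x0)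
  (PL.C (nat_lit 0x3cb0d) (nat_lit 0x58f6d4f09e8d00) (nat_lit 0x0) lm1_11))))))))))))))))))))

noncomputable def lm1_9 : PL :=
  (PL.C (nat_lit 0x2c290) (nat_lit 0x47597d8661e8200) (nat_lit 0x0)
  (PL.C (nat_lit 0x2cae0) (nat_lit 0x0) (nat_lit 0x255eaec254c00)
  (PL.C (nat_lit 0x2cbb6) (nat_lit 0x1cb95197529a680) (nat_lit 0x0)
  (PL.C (nat_lit 0x2cfd3) (nat_lit 0x900672910eab240) (nat_lit 0x0)
  (PL.C (nat_lit 0x2e720) (nat_lit 0x2ea87078603280) (nat_lit 0x0)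
  (PL.C (nat_lit 0x2e9f0) (nat_lit 0x6baa9bee9ed73a4) (nat_lit 0x0)
  (PL.C (nat_lit 0x2eb24) (nat_lit 0x961c1828cdf3280) (nat_lit 0x0)
  (PL.C (nat_lit 0x2ed10) (nat_lit 0x0) (nat_lit 0x62279dfdffe900)
  (PL.C (nat_lit 0x2f5a0) (nat_lit 0x0) (nat_lit 0x7ad7813439b900)
  (PL.C (nat_lit 0x2f688) (nat_lit 0x24279e1bdd9c800) (nat_lit 0x0)
  (PL.C (nat_lit 0x2fae4) (nat_lit 0x0) (nat_lit 0x1eb9fb8fc39c780)
  (PL.C (nat_lit 0x2fc1f) (nat_lit 0x4087b8a600cae00) (nat_lit 0x0)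
  (PL.C (nat_lit 0x2fcdc) (nat_lit 0x0) (nat_lit 0x776a4dd0232bc0)
  (PL.C (nat_lit 0x306d8) (nat_lit 0x31e6330ca199e00) (nat_lit 0x0)
  (PL.C (nat_lit 0x30b4c) (nat_lit 0x0) (nat_lit 0x9f30ef8d2f61e00)
  (PL.C (nat_lit 0x30da0) (nat_lit 0x283dbabc7fc9200) (nat_lit 0x0)
  (PL.C (nat_lit 0x316b3) (nat_lit 0x0) (nat_lit 0x66dc073f7c4f00)
  (PL.C (nat_lit 0x32808) (nat_lit 0x9b6a6123726840) (nat_lit 0x0)
  (PL.C (nat_lit 0x338b0) (nat_lit 0x6baa9bee9ed73a4) (nat_lit 0x0)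
  (PL.C (nat_lit 0x341c4) (nat_lit 0x8d3b61b0e0eff40) (nat_lit 0x0) lm1_10))))))))))))))))))))

noncomputable def lm1_8 : PL :=
  (PL.C (nat_lit 0x25224) (nat_lit 0x8d3b61b0e0eff40) (nat_lit 0x0)
  (PL.C (nat_lit 0x26532) (nat_lit 0x217cb297ab23d00) (nat_lit 0x0)
  (PL.C (nat_lit 0x268b0) (nat_lit 0x7edacaacc7c9700) (nat_lit 0x0)
  (PL.C (nat_lit 0x26c20) (nat_lit 0x283dbabc7fc9200) (nat_lit 0x0)
  (PL.C (nat_lit 0x275b0) (nat_lit 0x16819a68c76dc24) (nat_lit 0x0)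
  (PL.C (nat_lit 0x276b4) (nat_lit 0x961c1828cdf3280) (nat_lit 0x0)
  (PL.C (nat_lit 0x27750) (nat_lit 0x0) (nat_lit 0xcf44fc23202b80)
  (PL.C (nat_lit 0x27a38) (nat_lit 0x0) (nat_lit 0x38a7e65ac19f00)
  (PL.C (nat_lit 0x28698) (nat_lit 0x9b6a6123726840) (nat_lit 0x0)
  (PL.C (nat_lit 0x2875e) (nat_lit 0x1cb95197529a680) (nat_lit 0x0)
  (PL.C (nat_lit 0x288a2) (nat_lit 0x0) (nat_lit 0x1dc82c8193eac0)
  (PL.C (nat_lit 0x28ca4) (nat_lit 0xef6fbceffea2c0) (nat_lit 0x0)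
  (PL.C (nat_lit 0x2954a) (nat_lit 0x7ddd534cec0400) (nat_lit 0x0)
  (PL.C (nat_lit 0x29a18) (nat_lit 0x2d0e0dcf46f9020) (nat_lit 0x0)
  (PL.C (nat_lit 0x29c70) (nat_lit 0x7dddcca0098f80) (nat_lit 0x0)
  (PL.C (nat_lit 0x29d84) (nat_lit 0x18485c5110fa500) (nat_lit 0x0)
  (PL.C (nat_lit 0x2aad0) (nat_lit 0x0) (nat_lit 0xa55464643a7830)
  (PL.C (nat_lit 0x2b030) (nat_lit 0xe043be89f2262c8) (nat_lit 0x0)
  (PL.C (nat_lit 0x2b3b0) (nat_lit 0x3c35bc32d747440) (nat_lit 0x0)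
  (PL.C (nat_lit 0x2bfd4) (nat_lit 0x55bd470b3b4a7400) (nat_lit 0x0) lm1_9))))))))))))))))))))

noncomputable def lm1_7 : PL :=
  (PL.C (nat_lit 0x1d538) (nat_lit 0x499a498f4317af20) (nat_lit 0x0)
  (PL.C (nat_lit 0x1dd24) (nat_lit 0x4fc800409c15a00) (nat_lit 0x0)
  (PL.C (nat_lit 0x1dfe2) (nat_lit 0x1776a62d46a58640) (nat_lit 0x0)
  (PL.C (nat_lit 0x1f218) (nat_lit 0xab7b2e84549d200) (nat_lit 0x0)
  (PL.C (nat_lit 0x1f360) (nat_lit 0x0) (nat_lit 0x255eaec254c00)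
  (PL.C (nat_lit 0x1f9b0) (nat_lit 0x2c425d3380f5300) (nat_lit 0x0)
  (PL.C (nat_lit 0x1fc98) (nat_lit 0x2d0e0dcf46f9020) (nat_lit 0x0)
  (PL.C (nat_lit 0x1fd6a) (nat_lit 0xde3cb49d2628080) (nat_lit 0x0)
  (PL.C (nat_lit 0x1fde8) (nat_lit 0x0) (nat_lit 0x626972a662b800)
  (PL.C (nat_lit 0x20490) (nat_lit 0x3c35bc32d747440) (nat_lit 0x0)
  (PL.C (nat_lit 0x20788) (nat_lit 0x0) (nat_lit 0x38cdf6f84c5e00)
  (PL.C (nat_lit 0x20f22) (nat_lit 0x0) (nat_lit 0xe851c21f4b9300)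
  (PL.C (nat_lit 0x21ab0) (nat_lit 0x84eb7e1745af00) (nat_lit 0x0)
  (PL.C (nat_lit 0x22bd8) (nat_lit 0x7f7169fd3edc230) (nat_lit 0x0)
  (PL.C (nat_lit 0x2387a) (nat_lit 0x1776a62d46a58640) (nat_lit 0x0)
  (PL.C (nat_lit 0x24213) (nat_lit 0x0) (nat_lit 0x1f0dc465557200)
  (PL.C (nat_lit 0x244f0) (nat_lit 0xe043be89f2262c8) (nat_lit 0x0)
  (PL.C (nat_lit 0x247a0) (nat_lit 0x2ea87078603280) (nat_lit 0x0)
  (PL.C (nat_lit 0x24c18) (nat_lit 0x1bcf62283b5f400) (nat_lit 0x0)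
  (PL.C (nat_lit 0x25128) (nat_lit 0x1bcf62283b5f400) (nat_lit 0x0) lm1_8))))))))))))))))))))

noncomputable def lm1_6 : PL :=
  (PL.C (nat_lit 0x18810) (nat_lit 0x1cf0b79eb09b500) (nat_lit 0x0)
  (PL.C (nat_lit 0x18b70) (nat_lit 0x1cf0b79eb09b500) (nat_lit 0x0)
  (PL.C (nat_lit 0x18c18) (nat_lit 0x7f7169fd3edc230) (nat_lit 0x0)
  (PL.C (nat_lit 0x19737) (nat_lit 0x1cacd49d862ba40) (nat_lit 0x0)
  (PL.C (nat_lit 0x198cc) (nat_lit 0x52965c5fa2a4f00) (nat_lit 0x0)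
  (PL.C (nat_lit 0x19b20) (nat_lit 0x0) (nat_lit 0x234f18acf6c4300)
  (PL.C (nat_lit 0x1a478) (nat_lit 0xab7b2e84549d200) (nat_lit 0x0)
  (PL.C (nat_lit 0x1a4e0) (nat_lit 0xe81ab4ba6986c0) (nat_lit 0x0)
  (PL.C (nat_lit 0x1a6d0) (nat_lit 0x0) (nat_lit 0xcf44fc23202b80)
  (PL.C (nat_lit 0x1af10) (nat_lit 0x84eb7e1745af00) (nat_lit 0x0)
  (PL.C (nat_lit 0x1af94) (nat_lit 0x4fc800409c15a00) (nat_lit 0x0)
  (PL.C (nat_lit 0x1b06c) (nat_lit 0x0) (nat_lit 0x776a4dd0232bc0)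
  (PL.C (nat_lit 0x1b318) (nat_lit 0x4940e5a9006ff40) (nat_lit 0x0)
  (PL.C (nat_lit 0x1b8dc) (nat_lit 0xef6fbceffea2c0) (nat_lit 0x0)
  (PL.C (nat_lit 0x1b963) (nat_lit 0x0) (nat_lit 0x1f0dc465557200)
  (PL.C (nat_lit 0x1bc10) (nat_lit 0x279122bf4af2a0) (nat_lit 0x0)
  (PL.C (nat_lit 0x1bda0) (nat_lit 0x2ea87078603280) (nat_lit 0x0)
  (PL.C (nat_lit 0x1be58) (nat_lit 0x24279e1bdd9c800) (nat_lit 0x0)
  (PL.C (nat_lit 0x1c2e1) (nat_lit 0x0) (nat_lit 0x66dc073f7c4f00)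
  (PL.C (nat_lit 0x1cd20) (nat_lit 0x13dc78c16b4d360) (nat_lit 0x0) lm1_7))))))))))))))))))))

noncomputable def lm1_5 : PL :=
  (PL.C (nat_lit 0x12210) (nat_lit 0x4426076b28c1e30) (nat_lit 0x0)
  (PL.C (nat_lit 0x125e8) (nat_lit 0x4940e5a9006ff40) (nat_lit 0x0)
  (PL.C (nat_lit 0x12642) (nat_lit 0x0) (nat_lit 0x18cac3bec06100)
  (PL.C (nat_lit 0x12990) (nat_lit 0x2c425d3380f5300) (nat_lit 0x0)
  (PL.C (nat_lit 0x12c96) (nat_lit 0x0) (nat_lit 0xe851c21f4b9300)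
  (PL.C (nat_lit 0x138d0) (nat_lit 0x2517b403cce11228) (nat_lit 0x0)
  (PL.C (nat_lit 0x13e18) (nat_lit 0xab1607728d19500) (nat_lit 0x0)
  (PL.C (nat_lit 0x13fec) (nat_lit 0x25ea02c95996bce0) (nat_lit 0x0)
  (PL.C (nat_lit 0x14c10) (nat_lit 0x9e4038899715490) (nat_lit 0x0)
  (PL.C (nat_lit 0x15120) (nat_lit 0x1b65d5b2193e900) (nat_lit 0x0)
  (PL.C (nat_lit 0x15310) (nat_lit 0x279122bf4af2a0) (nat_lit 0x0)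
  (PL.C (nat_lit 0x1539c) (nat_lit 0x1a192a6d4ca22f80) (nat_lit 0x0)
  (PL.C (nat_lit 0x153f0) (nat_lit 0x0) (nat_lit 0x933b6cfcffdd80)
  (PL.C (nat_lit 0x15860) (nat_lit 0x13dc78c16b4d360) (nat_lit 0x0)
  (PL.C (nat_lit 0x15f6c) (nat_lit 0x0) (nat_lit 0x38359b7d82dd000)
  (PL.C (nat_lit 0x16720) (nat_lit 0xc3ece7326fe6c0) (nat_lit 0x0)
  (PL.C (nat_lit 0x17290) (nat_lit 0x568567d84623674) (nat_lit 0x0)
  (PL.C (nat_lit 0x17afc) (nat_lit 0x25ea02c95996bce0) (nat_lit 0x0)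
  (PL.C (nat_lit 0x18162) (nat_lit 0x0) (nat_lit 0x18cac3bec06100)
  (PL.C (nat_lit 0x18399) (nat_lit 0x8f0115fded6b800) (nat_lit 0x0) lm1_6))))))))))))))))))))

noncomputable def lm1_4 : PL :=
  (PL.C (nat_lit 0xd548) (nat_lit 0x1e019945a5f1d940) (nat_lit 0x0)
  (PL.C (nat_lit 0xdb45) (nat_lit 0x13aff145fc6b200) (nat_lit 0x0)
  (PL.C (nat_lit 0xdd60) (nat_lit 0x1e3a291b7ed37c8) (nat_lit 0x0)
  (PL.C (nat_lit 0xe0c0) (nat_lit 0x5d50e0f0c06500) (nat_lit 0x0)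
  (PL.C (nat_lit 0xe268) (nat_lit 0x21c0ca4bd65ab080) (nat_lit 0x0)
  (PL.C (nat_lit 0xe2a0) (nat_lit 0x0) (nat_lit 0x380e06237f200)
  (PL.C (nat_lit 0xea48) (nat_lit 0x0) (nat_lit 0x33f6e51f497eb80)
  (PL.C (nat_lit 0xfca8) (nat_lit 0x1e019945a5f1d940) (nat_lit 0x0)
  (PL.C (nat_lit 0x100ec) (nat_lit 0x0) (nat_lit 0xb6420703026400)
  (PL.C (nat_lit 0x10266) (nat_lit 0x1ac0ed54831f93c0) (nat_lit 0x0)
  (PL.C (nat_lit 0x10560) (nat_lit 0x18bf9b9420785f0) (nat_lit 0x0)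
  (PL.C (nat_lit 0x107a0) (nat_lit 0x18bf9b9420785f0) (nat_lit 0x0)
  (PL.C (nat_lit 0x10810) (nat_lit 0x568567d84623674) (nat_lit 0x0)
  (PL.C (nat_lit 0x10f7a) (nat_lit 0x8cbbf59e34adf00) (nat_lit 0x0)
  (PL.C (nat_lit 0x11088) (nat_lit 0x87aa48493ef3000) (nat_lit 0x0)
  (PL.C (nat_lit 0x11850) (nat_lit 0x9e4038899715490) (nat_lit 0x0)
  (PL.C (nat_lit 0x119e0) (nat_lit 0xe81ab4ba6986c0) (nat_lit 0x0)
  (PL.C (nat_lit 0x11f60) (nat_lit 0xc3ece7326fe6c0) (nat_lit 0x0)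
  (PL.C (nat_lit 0x11fb8) (nat_lit 0xab1607728d19500) (nat_lit 0x0)
  (PL.C (nat_lit 0x12048) (nat_lit 0x0) (nat_lit 0x626972a662b800) lm1_5))))))))))))))))))))

noncomputable def lm1_3 : PL :=
  (PL.C (nat_lit 0x96f0) (nat_lit 0xdb2b1e0918251c0) (nat_lit 0x0)
  (PL.C (nat_lit 0x9c30) (nat_lit 0x0) (nat_lit 0x4145d9bb3bdd5c0)
  (PL.C (nat_lit 0xa870) (nat_lit 0x1571c15241eb920) (nat_lit 0x0)
  (PL.C (nat_lit 0xab48) (nat_lit 0x22f6cd8bbfb680) (nat_lit 0x0)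
  (PL.C (nat_lit 0xac44) (nat_lit 0x229c5c3fd46fd040) (nat_lit 0x0)
  (PL.C (nat_lit 0xae40) (nat_lit 0x9b7b182e9a300) (nat_lit 0x0)
  (PL.C (nat_lit 0xafc0) (nat_lit 0x9b7b182e9a300) (nat_lit 0x0)
  (PL.C (nat_lit 0xb4fc) (nat_lit 0x17609713405b2f40) (nat_lit 0x0)
  (PL.C (nat_lit 0xb5b0) (nat_lit 0x7ae850dc3459500) (nat_lit 0x0)
  (PL.C (nat_lit 0xb919) (nat_lit 0x13aff145fc6b200) (nat_lit 0x0)
  (PL.C (nat_lit 0xbae0) (nat_lit 0x1e3a291b7ed37c8) (nat_lit 0x0)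
  (PL.C (nat_lit 0xbfd0) (nat_lit 0xbbd21186c2ff800) (nat_lit 0x0)
  (PL.C (nat_lit 0xc030) (nat_lit 0x0) (nat_lit 0x933b6cfcffdd80)
  (PL.C (nat_lit 0xc160) (nat_lit 0x65d8f2620442d00) (nat_lit 0x0)
  (PL.C (nat_lit 0xc3f0) (nat_lit 0x4426076b28c1e30) (nat_lit 0x0)
  (PL.C (nat_lit 0xc42c) (nat_lit 0x0) (nat_lit 0xb6420703026400)
  (PL.C (nat_lit 0xc47d) (nat_lit 0x76e6cc9b23f800) (nat_lit 0x0)
  (PL.C (nat_lit 0xc660) (nat_lit 0x1b65d5b2193e900) (nat_lit 0x0)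
  (PL.C (nat_lit 0xc864) (nat_lit 0x0) (nat_lit 0x38359b7d82dd000)
  (PL.C (nat_lit 0xd410) (nat_lit 0xbbd21186c2ff800) (nat_lit 0x0) lm1_4))))))))))))))))))))

noncomputable def lm1_2 : PL :=
  (PL.C (nat_lit 0x5e40) (nat_lit 0x209c386e1a3f980) (nat_lit 0x0)
  (PL.C (nat_lit 0x6174) (nat_lit 0xd2d4a77d0b9bdc0) (nat_lit 0x0)
  (PL.C (nat_lit 0x63ab) (nat_lit 0x36dae22bc9b1b00) (nat_lit 0x0)
  (PL.C (nat_lit 0x64a0) (nat_lit 0x7839340b339b40) (nat_lit 0x0)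
  (PL.C (nat_lit 0x6820) (nat_lit 0x0) (nat_lit 0x175b2d3974f800)
  (PL.C (nat_lit 0x7230) (nat_lit 0x0) (nat_lit 0x5b2f6260365680)
  (PL.C (nat_lit 0x72d8) (nat_lit 0x424c308ba598900) (nat_lit 0x0)
  (PL.C (nat_lit 0x78a8) (nat_lit 0x283df52b91e861c0) (nat_lit 0x0)
  (PL.C (nat_lit 0x7920) (nat_lit 0x39bff77903c78e0) (nat_lit 0x0)
  (PL.C (nat_lit 0x7b66) (nat_lit 0x4ed95f3cb526740) (nat_lit 0x0)
  (PL.C (nat_lit 0x7fe0) (nat_lit 0xb68635e5dd7e3c0) (nat_lit 0x0)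
  (PL.C (nat_lit 0x8020) (nat_lit 0x0) (nat_lit 0x380e06237f200)
  (PL.C (nat_lit 0x82a0) (nat_lit 0x65d8f2620442d00) (nat_lit 0x0)
  (PL.C (nat_lit 0x82c8) (nat_lit 0x22f6cd8bbfb680) (nat_lit 0x0)
  (PL.C (nat_lit 0x82fe) (nat_lit 0x22e5a0e840c0400) (nat_lit 0x0)
  (PL.C (nat_lit 0x8440) (nat_lit 0x5d50e0f0c06500) (nat_lit 0x0)
  (PL.C (nat_lit 0x8598) (nat_lit 0x0) (nat_lit 0x33f6e51f497eb80)
  (PL.C (nat_lit 0x8d60) (nat_lit 0xb68635e5dd7e3c0) (nat_lit 0x0)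
  (PL.C (nat_lit 0x8e30) (nat_lit 0x1571c15241eb920) (nat_lit 0x0)
  (PL.C (nat_lit 0x922e) (nat_lit 0x4ed95f3cb526740) (nat_lit 0x0) lm1_3))))))))))))))))))))

noncomputable def lm1_1 : PL :=
  (PL.C (nat_lit 0x26c0) (nat_lit 0x791c97fee9080) (nat_lit 0x0)
  (PL.C (nat_lit 0x26d0) (nat_lit 0x101127430d5c1a00) (nat_lit 0x0)
  (PL.C (nat_lit 0x2b50) (nat_lit 0x14f77fd993bc5c98) (nat_lit 0x0)
  (PL.C (nat_lit 0x2c4c) (nat_lit 0x24b791e90e75ac00) (nat_lit 0x0)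
  (PL.C (nat_lit 0x32c0) (nat_lit 0x791c97fee9080) (nat_lit 0x0)
  (PL.C (nat_lit 0x35a0) (nat_lit 0x1a1edb1df97895d0) (nat_lit 0x0)
  (PL.C (nat_lit 0x36d8) (nat_lit 0x14ee8c57990a8e00) (nat_lit 0x0)
  (PL.C (nat_lit 0x3a20) (nat_lit 0x11d7c3a602bc5e8) (nat_lit 0x0)
  (PL.C (nat_lit 0x3a38) (nat_lit 0xd33b3e197a7f900) (nat_lit 0x0)
  (PL.C (nat_lit 0x3b60) (nat_lit 0x0) (nat_lit 0x175b2d3974f800)
  (PL.C (nat_lit 0x40f8) (nat_lit 0x14ee8c57990a8e00) (nat_lit 0x0)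
  (PL.C (nat_lit 0x4272) (nat_lit 0x100a53cb15d04a00) (nat_lit 0x0)
  (PL.C (nat_lit 0x4c20) (nat_lit 0x11d7c3a602bc5e8) (nat_lit 0x0)
  (PL.C (nat_lit 0x5070) (nat_lit 0x2b09065acca853c0) (nat_lit 0x0)
  (PL.C (nat_lit 0x50c0) (nat_lit 0x136f6305d34600) (nat_lit 0x0)
  (PL.C (nat_lit 0x5244) (nat_lit 0xd2d4a77d0b9bdc0) (nat_lit 0x0)
  (PL.C (nat_lit 0x5540) (nat_lit 0x209c386e1a3f980) (nat_lit 0x0)
  (PL.C (nat_lit 0x5730) (nat_lit 0x0) (nat_lit 0x5b2f6260365680)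
  (PL.C (nat_lit 0x5754) (nat_lit 0x68551791e058600) (nat_lit 0x0)
  (PL.C (nat_lit 0x5910) (nat_lit 0x0) (nat_lit 0x4145d9bb3bdd5c0) lm1_2))))))))))))))))))))

noncomputable def lm1 : PL :=
  (PL.C (nat_lit 0x180) (nat_lit 0xb8a22cb7571900) (nat_lit 0x0)
  (PL.C (nat_lit 0x240) (nat_lit 0xf1bfc8600d966d0) (nat_lit 0x0)
  (PL.C (nat_lit 0x360) (nat_lit 0x183c5ac2a7d4f170) (nat_lit 0x0)
  (PL.C (nat_lit 0x510) (nat_lit 0x18b0819cb095c300) (nat_lit 0x0)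
  (PL.C (nat_lit 0x798) (nat_lit 0x10b4738f1599de00) (nat_lit 0x0)
  (PL.C (nat_lit 0xb64) (nat_lit 0x7509efd4dd8db00) (nat_lit 0x0)
  (PL.C (nat_lit 0xb80) (nat_lit 0x1d271488bce900) (nat_lit 0x0)
  (PL.C (nat_lit 0xd20) (nat_lit 0x2fbc034886c2340) (nat_lit 0x0)
  (PL.C (nat_lit 0x1040) (nat_lit 0x4a61ca9f2a1280) (nat_lit 0x0)
  (PL.C (nat_lit 0x1116) (nat_lit 0x233a726081d0a00) (nat_lit 0x0)
  (PL.C (nat_lit 0x1140) (nat_lit 0x4de3b54d79063d0) (nat_lit 0x0)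
  (PL.C (nat_lit 0x1340) (nat_lit 0x4a61ca9f2a1280) (nat_lit 0x0)
  (PL.C (nat_lit 0x13b0) (nat_lit 0x2a641f24c8a0c400) (nat_lit 0x0)
  (PL.C (nat_lit 0x1860) (nat_lit 0xbd70d5edc656050) (nat_lit 0x0)
  (PL.C (nat_lit 0x19a1) (nat_lit 0x5862c9049c5300) (nat_lit 0x0)
  (PL.C (nat_lit 0x19e0) (nat_lit 0xeb4fcc54d4a42a0) (nat_lit 0x0)
  (PL.C (nat_lit 0x1ce0) (nat_lit 0xbd70d5edc656050) (nat_lit 0x0)
  (PL.C (nat_lit 0x1d88) (nat_lit 0x33aa81d150bcf1c0) (nat_lit 0x0)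
  (PL.C (nat_lit 0x23c0) (nat_lit 0xa2b701d03719100) (nat_lit 0x0)
  (PL.C (nat_lit 0x2490) (nat_lit 0x14f77fd993bc5c98) (nat_lit 0x0) lm1_1))))))))))))))))))))

theorem chkL1 : eqP (lam1 (nat_lit 127) (nat_lit 70) (nat_lit 4) (nat_lit 6) qN qP qR qS) lm1 = true := by decide +kernel

end Pool.Agent.Work.MP_440970_an.FX.D1
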