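import Pool.Agent.Work.MP_440970_an.FX.D1.Data

/-!
# second part of the form
-/

set_option autoImplicit false
set_option maxRecDepth 1000000

namespace Pool.Agent.Work.MP_440970_an.FX.D1

noncomputable def lm2_77 : PL :=
  (PL.C (nat_lit 0x95a5a53) (nat_lit 0x0) (nat_lit 0x11aee2995000)
  (PL.C (nat_lit 0x96ef6d5) (nat_lit 0x0) (nat_lit 0x2065fbcfb800)
  (PL.C (nat_lit 0x983c0c3) (nat_lit 0x0) (nat_lit 0x11aee2995000)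
  (PL.C (nat_lit 0xc914c8d) (nat_lit 0x0) (nat_lit 0x110ef7cfb900) PL.Z))))

noncomputable def lm2_76 : PL :=
  (PL.C (nat_lit 0x3e44ca9) (nat_lit 0x4618ea225d00) (nat_lit 0x0)
  (PL.C (nat_lit 0x3f7c82b) (nat_lit 0x1cfa64e300) (nat_lit 0x0)
  (PL.C (nat_lit 0x3fbed57) (nat_lit 0x0) (nat_lit 0x1adb8ae23300)
  (PL.C (nat_lit 0x42409df) (nat_lit 0x0) (nat_lit 0x43e6db323600)
  (PL.C (nat_lit 0x42d29e9) (nat_lit 0x0) (nat_lit 0x181656af0da00)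
  (PL.C (nat_lit 0x4365e0f) (nat_lit 0x0) (nat_lit 0x43e6db323600)
  (PL.C (nat_lit 0x4559401) (nat_lit 0x0) (nat_lit 0x4554257c6a00)
  (PL.C (nat_lit 0x4564c37) (nat_lit 0xd0183f500) (nat_lit 0x0)
  (PL.C (nat_lit 0x45f2137) (nat_lit 0x0) (nat_lit 0x4554257c6a00)
  (PL.C (nat_lit 0x4936987) (nat_lit 0x0) (nat_lit 0x4618ea225d00)
  (PL.C (nat_lit 0x49d7f01) (nat_lit 0x0) (nat_lit 0x8c51c6069600)
  (PL.C (nat_lit 0x4b3f871) (nat_lit 0x4618ea225d00) (nat_lit 0x0)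
  (PL.C (nat_lit 0x50f1493) (nat_lit 0x0) (nat_lit 0x8c51c6069600)
  (PL.C (nat_lit 0x51a3a95) (nat_lit 0x0) (nat_lit 0x4618ea225d00)
  (PL.C (nat_lit 0x5906081) (nat_lit 0x0) (nat_lit 0x3e44e4a29b00)
  (PL.C (nat_lit 0x597261b) (nat_lit 0x0) (nat_lit 0xb606d155300)
  (PL.C (nat_lit 0x71805b9) (nat_lit 0x0) (nat_lit 0x4618ea225d00)
  (PL.C (nat_lit 0x766267d) (nat_lit 0x0) (nat_lit 0x4618ea225d00)
  (PL.C (nat_lit 0x81b4bb3) (nat_lit 0x11aee2995000) (nat_lit 0x0)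
  (PL.C (nat_lit 0x8aab025) (nat_lit 0x11aee2995000) (nat_lit 0x0) lm2_77))))))))))))))))))))

noncomputable def lm2_75 : PL :=
  (PL.C (nat_lit 0x28dad07) (nat_lit 0x73e9938c00) (nat_lit 0x0)
  (PL.C (nat_lit 0x2af0f61) (nat_lit 0x0) (nat_lit 0x4638dbe43900)
  (PL.C (nat_lit 0x2b959d9) (nat_lit 0x0) (nat_lit 0x353379684200)
  (PL.C (nat_lit 0x2bc7ed3) (nat_lit 0x0) (nat_lit 0x1158c75dd6900)
  (PL.C (nat_lit 0x2bec667) (nat_lit 0x39f4c9c600) (nat_lit 0x0)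
  (PL.C (nat_lit 0x2bf5a9f) (nat_lit 0x0) (nat_lit 0x1adb8ae23300)
  (PL.C (nat_lit 0x2c4d321) (nat_lit 0x1159977615e00) (nat_lit 0x0)
  (PL.C (nat_lit 0x2cc3089) (nat_lit 0x0) (nat_lit 0x1cfa64e300)
  (PL.C (nat_lit 0x2fef8e3) (nat_lit 0x0) (nat_lit 0x1a7785284800)
  (PL.C (nat_lit 0x3089ccf) (nat_lit 0x0) (nat_lit 0x4638dbe43900)
  (PL.C (nat_lit 0x323ff5d) (nat_lit 0x0) (nat_lit 0x10db3a970ce00)
  (PL.C (nat_lit 0x32cd671) (nat_lit 0xd0183f500) (nat_lit 0x0)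
  (PL.C (nat_lit 0x33976f7) (nat_lit 0x0) (nat_lit 0x1adb8ae23300)
  (PL.C (nat_lit 0x3469631) (nat_lit 0x0) (nat_lit 0x10db3a970ce00)
  (PL.C (nat_lit 0x3499243) (nat_lit 0x0) (nat_lit 0x1ba7cb76aa00)
  (PL.C (nat_lit 0x34a2219) (nat_lit 0x3f696eaac00) (nat_lit 0x0)
  (PL.C (nat_lit 0x3664909) (nat_lit 0x0) (nat_lit 0x1ba7cb76aa00)
  (PL.C (nat_lit 0x3787855) (nat_lit 0x1cfa64e300) (nat_lit 0x0)
  (PL.C (nat_lit 0x396c8bf) (nat_lit 0x43e6db323600) (nat_lit 0x0)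
  (PL.C (nat_lit 0x3d64479) (nat_lit 0x43e6db323600) (nat_lit 0x0) lm2_76))))))))))))))))))))

noncomputable def lm2_74 : PL :=
  (PL.C (nat_lit 0x21475c9) (nat_lit 0x0) (nat_lit 0x1adb8ae23300)
  (PL.C (nat_lit 0x21506f5) (nat_lit 0x10db3a970ce00) (nat_lit 0x0)
  (PL.C (nat_lit 0x2190b2f) (nat_lit 0x0) (nat_lit 0x353379684200)
  (PL.C (nat_lit 0x21ed97d) (nat_lit 0x0) (nat_lit 0xf6b07e7bce80)
  (PL.C (nat_lit 0x222f5a1) (nat_lit 0x0) (nat_lit 0xeec7913a00)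
  (PL.C (nat_lit 0x2308ae9) (nat_lit 0x0) (nat_lit 0x1cfa64e300)
  (PL.C (nat_lit 0x2325de5) (nat_lit 0x1159977615e00) (nat_lit 0x0)
  (PL.C (nat_lit 0x2373533) (nat_lit 0x39f4c9c600) (nat_lit 0x0)
  (PL.C (nat_lit 0x23aca3d) (nat_lit 0x0) (nat_lit 0x1c020e88d200)
  (PL.C (nat_lit 0x23d19eb) (nat_lit 0x0) (nat_lit 0x1158c75dd6900)
  (PL.C (nat_lit 0x23d5d1f) (nat_lit 0x0) (nat_lit 0x21b7330558000)
  (PL.C (nat_lit 0x23fb41b) (nat_lit 0x0) (nat_lit 0x9d4d30594780)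
  (PL.C (nat_lit 0x2424ca9) (nat_lit 0x0) (nat_lit 0x10db3a970ce00)
  (PL.C (nat_lit 0x244a8cd) (nat_lit 0x0) (nat_lit 0x1c020e88d200)
  (PL.C (nat_lit 0x255da45) (nat_lit 0x0) (nat_lit 0x6b2b351600)
  (PL.C (nat_lit 0x25828c1) (nat_lit 0x0) (nat_lit 0xf6b07e7bce80)
  (PL.C (nat_lit 0x2769b45) (nat_lit 0xc37cecb3b00) (nat_lit 0x0)
  (PL.C (nat_lit 0x2799ac7) (nat_lit 0x0) (nat_lit 0x2325909473100)
  (PL.C (nat_lit 0x28771af) (nat_lit 0x0) (nat_lit 0x1a7785284800)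
  (PL.C (nat_lit 0x2884ab3) (nat_lit 0x1adb8ae23300) (nat_lit 0x0) lm2_75))))))))))))))))))))

noncomputable def lm2_73 : PL :=
  (PL.C (nat_lit 0x1b0ebf7) (nat_lit 0x0) (nat_lit 0x6d862102d900)
  (PL.C (nat_lit 0x1b9160d) (nat_lit 0x10db3a970ce00) (nat_lit 0x0)
  (PL.C (nat_lit 0x1be7c37) (nat_lit 0x1c020e88d200) (nat_lit 0x0)
  (PL.C (nat_lit 0x1c38bf3) (nat_lit 0x0) (nat_lit 0xd3271d02fb80)
  (PL.C (nat_lit 0x1c4dd07) (nat_lit 0x1adb8ae23300) (nat_lit 0x0)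
  (PL.C (nat_lit 0x1cacf8d) (nat_lit 0x73e9938c00) (nat_lit 0x0)
  (PL.C (nat_lit 0x1d19bd5) (nat_lit 0x22b89461200) (nat_lit 0x0)
  (PL.C (nat_lit 0x1d49d7b) (nat_lit 0x0) (nat_lit 0xb6831903a400)
  (PL.C (nat_lit 0x1d9584d) (nat_lit 0x0) (nat_lit 0x3ef8e9be62e00)
  (PL.C (nat_lit 0x1e1d5f1) (nat_lit 0x0) (nat_lit 0x1c020e88d200)
  (PL.C (nat_lit 0x1e5fbc7) (nat_lit 0x0) (nat_lit 0x9d4d30594780)
  (PL.C (nat_lit 0x1ea2ac1) (nat_lit 0x0) (nat_lit 0x1c020e88d200)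
  (PL.C (nat_lit 0x1eb3cc5) (nat_lit 0x0) (nat_lit 0x2e853f3584800)
  (PL.C (nat_lit 0x1eb8e53) (nat_lit 0x0) (nat_lit 0x3fe383b800)
  (PL.C (nat_lit 0x1eebadd) (nat_lit 0x1c020e88d200) (nat_lit 0x0)
  (PL.C (nat_lit 0x1ef7753) (nat_lit 0x0) (nat_lit 0x2e853f3584800)
  (PL.C (nat_lit 0x20231db) (nat_lit 0x0) (nat_lit 0x3c5fcb8cc500)
  (PL.C (nat_lit 0x2069ce3) (nat_lit 0x0) (nat_lit 0x10db3a970ce00)
  (PL.C (nat_lit 0x20b13c5) (nat_lit 0x0) (nat_lit 0x21b7330558000)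
  (PL.C (nat_lit 0x210e9cb) (nat_lit 0x1c020e88d200) (nat_lit 0x0) lm2_74))))))))))))))))))))

noncomputable def lm2_72 : PL :=
  (PL.C (nat_lit 0x157d34b) (nat_lit 0x0) (nat_lit 0x10dbf86e4b200)
  (PL.C (nat_lit 0x15c9fad) (nat_lit 0x0) (nat_lit 0xc341e8698500)
  (PL.C (nat_lit 0x15ffab5) (nat_lit 0x0) (nat_lit 0x38fa6ad9380)
  (PL.C (nat_lit 0x167dcf5) (nat_lit 0x0) (nat_lit 0x3fe383b800)
  (PL.C (nat_lit 0x16d7413) (nat_lit 0x0) (nat_lit 0xd3271d02fb80)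
  (PL.C (nat_lit 0x17178bf) (nat_lit 0x0) (nat_lit 0x6b2b351600)
  (PL.C (nat_lit 0x174958f) (nat_lit 0x0) (nat_lit 0x6887301d9a00)
  (PL.C (nat_lit 0x174d53d) (nat_lit 0x0) (nat_lit 0xef3882f8f200)
  (PL.C (nat_lit 0x1767aa7) (nat_lit 0x0) (nat_lit 0x68dfeb96bc00)
  (PL.C (nat_lit 0x1793099) (nat_lit 0x0) (nat_lit 0xd64035765b00)
  (PL.C (nat_lit 0x17a6ad5) (nat_lit 0x0) (nat_lit 0x1dd8f227400)
  (PL.C (nat_lit 0x17c1fa7) (nat_lit 0x73e9938c00) (nat_lit 0x0)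
  (PL.C (nat_lit 0x17d2cff) (nat_lit 0x0) (nat_lit 0x6d862102d900)
  (PL.C (nat_lit 0x17dacc3) (nat_lit 0xd5d50a414500) (nat_lit 0x0)
  (PL.C (nat_lit 0x17e884d) (nat_lit 0x0) (nat_lit 0xb6831903a400)
  (PL.C (nat_lit 0x1814bed) (nat_lit 0x0) (nat_lit 0x6887301d9a00)
  (PL.C (nat_lit 0x181a3fb) (nat_lit 0xeec7913a00) (nat_lit 0x0)
  (PL.C (nat_lit 0x193d99b) (nat_lit 0x0) (nat_lit 0xeec7913a00)
  (PL.C (nat_lit 0x1a1a111) (nat_lit 0x1c020e88d200) (nat_lit 0x0)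
  (PL.C (nat_lit 0x1a22d0d) (nat_lit 0x0) (nat_lit 0x1a57ee860f00) lm2_73))))))))))))))))))))

noncomputable def lm2_71 : PL :=
  (PL.C (nat_lit 0x11ad641) (nat_lit 0x1a0307ea00) (nat_lit 0x0)
  (PL.C (nat_lit 0x11ea3ab) (nat_lit 0x8ac3ea29700) (nat_lit 0x0)
  (PL.C (nat_lit 0x11f03bf) (nat_lit 0xd3271d02fb80) (nat_lit 0x0)
  (PL.C (nat_lit 0x1200089) (nat_lit 0x0) (nat_lit 0xe5e37bdf2b00)
  (PL.C (nat_lit 0x1268443) (nat_lit 0x15bbcbaa400) (nat_lit 0x0)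
  (PL.C (nat_lit 0x12c566b) (nat_lit 0x0) (nat_lit 0x4849c4a7700)
  (PL.C (nat_lit 0x1302da5) (nat_lit 0x0) (nat_lit 0x10dbf86e4b200)
  (PL.C (nat_lit 0x1345157) (nat_lit 0x22b89461200) (nat_lit 0x0)
  (PL.C (nat_lit 0x134bbfd) (nat_lit 0x0) (nat_lit 0x1a82ad17d1900)
  (PL.C (nat_lit 0x136205f) (nat_lit 0x0) (nat_lit 0x42d88e84d8800)
  (PL.C (nat_lit 0x137645b) (nat_lit 0x0) (nat_lit 0xd3271d02fb80)
  (PL.C (nat_lit 0x1384ccf) (nat_lit 0x0) (nat_lit 0x1a57ee860f00)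
  (PL.C (nat_lit 0x139d065) (nat_lit 0x42d4904c9d000) (nat_lit 0x0)
  (PL.C (nat_lit 0x141ebaf) (nat_lit 0x9c122f7c00) (nat_lit 0x0)
  (PL.C (nat_lit 0x14329a3) (nat_lit 0x52e9b3f95700) (nat_lit 0x0)
  (PL.C (nat_lit 0x145ad1d) (nat_lit 0x698c5c0e9f00) (nat_lit 0x0)
  (PL.C (nat_lit 0x152dfff) (nat_lit 0x1a0307ea00) (nat_lit 0x0)
  (PL.C (nat_lit 0x1538eaf) (nat_lit 0x8ac3ea29700) (nat_lit 0x0)
  (PL.C (nat_lit 0x1552bf5) (nat_lit 0x0) (nat_lit 0xe5e37bdf2b00)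
  (PL.C (nat_lit 0x15699db) (nat_lit 0x0) (nat_lit 0x68dfeb96bc00) lm2_72))))))))))))))))))))

noncomputable def lm2_70 : PL :=
  (PL.C (nat_lit 0xfee0c7) (nat_lit 0x0) (nat_lit 0x31ada1ae2dd00)
  (PL.C (nat_lit 0xff9f0b) (nat_lit 0xd5d50a414500) (nat_lit 0x0)
  (PL.C (nat_lit 0x101d25d) (nat_lit 0x0) (nat_lit 0x1dd8f227400)
  (PL.C (nat_lit 0x1037333) (nat_lit 0x0) (nat_lit 0xca1584b07200)
  (PL.C (nat_lit 0x1048025) (nat_lit 0x0) (nat_lit 0xd64035765b00)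
  (PL.C (nat_lit 0x1049be7) (nat_lit 0x698c5c0e9f00) (nat_lit 0x0)
  (PL.C (nat_lit 0x1049eb1) (nat_lit 0x0) (nat_lit 0xdb10b5112780)
  (PL.C (nat_lit 0x105aef5) (nat_lit 0x0) (nat_lit 0x19e837bcff000)
  (PL.C (nat_lit 0x106dd07) (nat_lit 0x0) (nat_lit 0x6d862102d900)
  (PL.C (nat_lit 0x107efa3) (nat_lit 0x0) (nat_lit 0xca1584b07200)
  (PL.C (nat_lit 0x108832f) (nat_lit 0x0) (nat_lit 0x4e885ba293600)
  (PL.C (nat_lit 0x108af19) (nat_lit 0x1f67c1f2b00) (nat_lit 0x0)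
  (PL.C (nat_lit 0x109b485) (nat_lit 0x0) (nat_lit 0x9a252d8728e00)
  (PL.C (nat_lit 0x109caf7) (nat_lit 0x39f4c9c600) (nat_lit 0x0)
  (PL.C (nat_lit 0x10aca19) (nat_lit 0x0) (nat_lit 0x25a3476d1c700)
  (PL.C (nat_lit 0x1121f45) (nat_lit 0xe558b46c500) (nat_lit 0x0)
  (PL.C (nat_lit 0x11321d1) (nat_lit 0x73e9938c00) (nat_lit 0x0)
  (PL.C (nat_lit 0x11740c9) (nat_lit 0x0) (nat_lit 0x6d862102d900)
  (PL.C (nat_lit 0x1188323) (nat_lit 0x0) (nat_lit 0x7d30a942ceb00)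
  (PL.C (nat_lit 0x119a82f) (nat_lit 0x0) (nat_lit 0xdb10b5112780) lm2_71))))))))))))))))))))

noncomputable def lm2_69 : PL :=
  (PL.C (nat_lit 0xe1eaaa) (nat_lit 0x0) (nat_lit 0x5053166400)
  (PL.C (nat_lit 0xe3a587) (nat_lit 0x0) (nat_lit 0x3be8ba02d8000)
  (PL.C (nat_lit 0xe46692) (nat_lit 0x0) (nat_lit 0x33cc15e64f00)
  (PL.C (nat_lit 0xebbbad) (nat_lit 0x0) (nat_lit 0xd3271d02fb80)
  (PL.C (nat_lit 0xec4303) (nat_lit 0x68bff9d4e000) (nat_lit 0x0)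
  (PL.C (nat_lit 0xed07d7) (nat_lit 0x0) (nat_lit 0xd19fe56b9c00)
  (PL.C (nat_lit 0xed8207) (nat_lit 0x6d862102d900) (nat_lit 0x0)
  (PL.C (nat_lit 0xedc32b) (nat_lit 0x0) (nat_lit 0x1a82ad17d1900)
  (PL.C (nat_lit 0xef1231) (nat_lit 0x0) (nat_lit 0xd19fe56b9c00)
  (PL.C (nat_lit 0xf05531) (nat_lit 0x0) (nat_lit 0x9a252d8728e00)
  (PL.C (nat_lit 0xf06a45) (nat_lit 0xca1584b07200) (nat_lit 0x0)
  (PL.C (nat_lit 0xf18e19) (nat_lit 0x68bff9d4e000) (nat_lit 0x0)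
  (PL.C (nat_lit 0xf248fb) (nat_lit 0x6d862102d900) (nat_lit 0x0)
  (PL.C (nat_lit 0xf323f9) (nat_lit 0x0) (nat_lit 0x2aa0edbc6200)
  (PL.C (nat_lit 0xf6bff3) (nat_lit 0x52e9b3f95700) (nat_lit 0x0)
  (PL.C (nat_lit 0xf8f939) (nat_lit 0x42d4904c9d000) (nat_lit 0x0)
  (PL.C (nat_lit 0xf9a71a) (nat_lit 0x0) (nat_lit 0x33cc15e64f00)
  (PL.C (nat_lit 0xfab65f) (nat_lit 0x0) (nat_lit 0xb6b53cd2700)
  (PL.C (nat_lit 0xfdb9d7) (nat_lit 0x0) (nat_lit 0x42d88e84d8800)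
  (PL.C (nat_lit 0xfecac7) (nat_lit 0xeec7913a00) (nat_lit 0x0) lm2_70))))))))))))))))))))

noncomputable def lm2_68 : PL :=
  (PL.C (nat_lit 0xcb1a2b) (nat_lit 0x0) (nat_lit 0x2954a8e91800)
  (PL.C (nat_lit 0xcbc35f) (nat_lit 0x2b779754800) (nat_lit 0x0)
  (PL.C (nat_lit 0xccae95) (nat_lit 0x0) (nat_lit 0x38fa6ad9380)
  (PL.C (nat_lit 0xcd3f9d) (nat_lit 0x0) (nat_lit 0x355b7bd802500)
  (PL.C (nat_lit 0xcd8469) (nat_lit 0x29f0bb189400) (nat_lit 0x0)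
  (PL.C (nat_lit 0xce22e9) (nat_lit 0xffadbf35d00) (nat_lit 0x0)
  (PL.C (nat_lit 0xcf77a7) (nat_lit 0x0) (nat_lit 0x2f3f8034f7800)
  (PL.C (nat_lit 0xcfa711) (nat_lit 0x0) (nat_lit 0x15bbcbaa400)
  (PL.C (nat_lit 0xd08ce3) (nat_lit 0x0) (nat_lit 0x38fa6ad9380)
  (PL.C (nat_lit 0xd49e9f) (nat_lit 0x0) (nat_lit 0x4849c4a7700)
  (PL.C (nat_lit 0xd4b095) (nat_lit 0x39f4c9c600) (nat_lit 0x0)
  (PL.C (nat_lit 0xd72823) (nat_lit 0x0) (nat_lit 0x31ada1ae2dd00)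
  (PL.C (nat_lit 0xd97b99) (nat_lit 0x0) (nat_lit 0x70b3019133700)
  (PL.C (nat_lit 0xda96c1) (nat_lit 0x39f4c9c600) (nat_lit 0x0)
  (PL.C (nat_lit 0xdb5adf) (nat_lit 0x0) (nat_lit 0x70b3019133700)
  (PL.C (nat_lit 0xdc7877) (nat_lit 0x0) (nat_lit 0x19f9da26ffa00)
  (PL.C (nat_lit 0xdf4a2b) (nat_lit 0x0) (nat_lit 0x25a3476d1c700)
  (PL.C (nat_lit 0xdf6f3d) (nat_lit 0x0) (nat_lit 0x17f5516500)
  (PL.C (nat_lit 0xe0e093) (nat_lit 0xca1584b07200) (nat_lit 0x0)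
  (PL.C (nat_lit 0xe1363d) (nat_lit 0x0) (nat_lit 0x4e885ba293600) lm2_69))))))))))))))))))))

noncomputable def lm2_67 : PL :=
  (PL.C (nat_lit 0xaf5d37) (nat_lit 0x2e128cf8bac00) (nat_lit 0x0)
  (PL.C (nat_lit 0xb131fa) (nat_lit 0x0) (nat_lit 0xb2f8007c00)
  (PL.C (nat_lit 0xb3c745) (nat_lit 0x0) (nat_lit 0x39f4c9c600)
  (PL.C (nat_lit 0xb6789d) (nat_lit 0x0) (nat_lit 0x6b2b351600)
  (PL.C (nat_lit 0xb6d6ad) (nat_lit 0xd8fb10d400) (nat_lit 0x0)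
  (PL.C (nat_lit 0xb74b3f) (nat_lit 0x0) (nat_lit 0x39f4c9c600)
  (PL.C (nat_lit 0xb79175) (nat_lit 0x15bbcbaa400) (nat_lit 0x0)
  (PL.C (nat_lit 0xb92301) (nat_lit 0x0) (nat_lit 0xd503b47a1d80)
  (PL.C (nat_lit 0xb9e98f) (nat_lit 0x0) (nat_lit 0x39f4c9c600)
  (PL.C (nat_lit 0xbc8ed6) (nat_lit 0x0) (nat_lit 0x5053166400)
  (PL.C (nat_lit 0xbd86ff) (nat_lit 0x408c790b900) (nat_lit 0x0)
  (PL.C (nat_lit 0xc1620f) (nat_lit 0x0) (nat_lit 0x19f9da26ffa00)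
  (PL.C (nat_lit 0xc1c5bf) (nat_lit 0x0) (nat_lit 0x17f5516500)
  (PL.C (nat_lit 0xc30c39) (nat_lit 0x39f4c9c600) (nat_lit 0x0)
  (PL.C (nat_lit 0xc4c859) (nat_lit 0x0) (nat_lit 0x355b7bd802500)
  (PL.C (nat_lit 0xc7824f) (nat_lit 0x1cfa64e3000) (nat_lit 0x0)
  (PL.C (nat_lit 0xc87e63) (nat_lit 0xd3271d02fb80) (nat_lit 0x0)
  (PL.C (nat_lit 0xc89f4d) (nat_lit 0x0) (nat_lit 0x3783ba31f680)
  (PL.C (nat_lit 0xc8c197) (nat_lit 0x0) (nat_lit 0x630dd0ae2b80)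
  (PL.C (nat_lit 0xc939f9) (nat_lit 0x39f4c9c600) (nat_lit 0x0) lm2_68))))))))))))))))))))

noncomputable def lm2_66 : PL :=
  (PL.C (nat_lit 0x9e053a) (nat_lit 0x0) (nat_lit 0x67fad0b6b600)
  (PL.C (nat_lit 0x9e494b) (nat_lit 0x39f4c9c600) (nat_lit 0x0)
  (PL.C (nat_lit 0x9f6176) (nat_lit 0x0) (nat_lit 0x67fad0b6b600)
  (PL.C (nat_lit 0x9fa61d) (nat_lit 0x1cfa64e3000) (nat_lit 0x0)
  (PL.C (nat_lit 0xa10966) (nat_lit 0x342ebad06700) (nat_lit 0x0)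
  (PL.C (nat_lit 0xa1b861) (nat_lit 0x403ec1434000) (nat_lit 0x0)
  (PL.C (nat_lit 0xa392fb) (nat_lit 0x1f67c1f2b00) (nat_lit 0x0)
  (PL.C (nat_lit 0xa3c9cf) (nat_lit 0x0) (nat_lit 0x6d8a940e4e80)
  (PL.C (nat_lit 0xa50ff1) (nat_lit 0x0) (nat_lit 0x3d744297b8200)
  (PL.C (nat_lit 0xa5ca83) (nat_lit 0x0) (nat_lit 0x192465f82bc00)
  (PL.C (nat_lit 0xa61d7d) (nat_lit 0x0) (nat_lit 0x2aa0edbc6200)
  (PL.C (nat_lit 0xa63dd7) (nat_lit 0x0) (nat_lit 0x4f0d7e03fe00)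
  (PL.C (nat_lit 0xa6fdbd) (nat_lit 0x0) (nat_lit 0x4dbac4e752300)
  (PL.C (nat_lit 0xa7ac31) (nat_lit 0x0) (nat_lit 0x2aa0edbc6200)
  (PL.C (nat_lit 0xa7f111) (nat_lit 0x9c122f7c00) (nat_lit 0x0)
  (PL.C (nat_lit 0xa8fa0f) (nat_lit 0x4dda2ca944e00) (nat_lit 0x0)
  (PL.C (nat_lit 0xa95b41) (nat_lit 0x0) (nat_lit 0x2f3f8034f7800)
  (PL.C (nat_lit 0xa97833) (nat_lit 0x0) (nat_lit 0x630dd0ae2b80)
  (PL.C (nat_lit 0xae081b) (nat_lit 0xe558b46c500) (nat_lit 0x0)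
  (PL.C (nat_lit 0xaf2283) (nat_lit 0x0) (nat_lit 0x3783ba31f680) lm2_67))))))))))))))))))))

noncomputable def lm2_65 : PL :=
  (PL.C (nat_lit 0x8cf771) (nat_lit 0x0) (nat_lit 0x1ab719d819500)
  (PL.C (nat_lit 0x8d8ab5) (nat_lit 0x0) (nat_lit 0x355b7bd802500)
  (PL.C (nat_lit 0x8dcb0e) (nat_lit 0x0) (nat_lit 0xb2f8007c00)
  (PL.C (nat_lit 0x8e85ab) (nat_lit 0x0) (nat_lit 0x2393fa26a00)
  (PL.C (nat_lit 0x8ea48b) (nat_lit 0x1ab59a8303000) (nat_lit 0x0)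
  (PL.C (nat_lit 0x8f126f) (nat_lit 0x0) (nat_lit 0x8d029df560b80)
  (PL.C (nat_lit 0x8f1e85) (nat_lit 0x0) (nat_lit 0x1dd8f227400)
  (PL.C (nat_lit 0x902f51) (nat_lit 0x16d14073b2200) (nat_lit 0x0)
  (PL.C (nat_lit 0x91b9d6) (nat_lit 0x0) (nat_lit 0xb2f8007c00)
  (PL.C (nat_lit 0x92fafa) (nat_lit 0x0) (nat_lit 0xcb64386d1100)
  (PL.C (nat_lit 0x939aaf) (nat_lit 0x3c65fa4be00) (nat_lit 0x0)
  (PL.C (nat_lit 0x96073b) (nat_lit 0x0) (nat_lit 0xbdd73e400)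
  (PL.C (nat_lit 0x970b89) (nat_lit 0x0) (nat_lit 0x62b9d9f11fd00)
  (PL.C (nat_lit 0x97ad87) (nat_lit 0x0) (nat_lit 0x192465f82bc00)
  (PL.C (nat_lit 0x9a5821) (nat_lit 0x1a3faa3b6100) (nat_lit 0x0)
  (PL.C (nat_lit 0x9a8bdd) (nat_lit 0x2aa0edbc6200) (nat_lit 0x0)
  (PL.C (nat_lit 0x9b13fb) (nat_lit 0x0) (nat_lit 0xdaead36a4700)
  (PL.C (nat_lit 0x9c48c5) (nat_lit 0x0) (nat_lit 0x6d8a940e4e80)
  (PL.C (nat_lit 0x9d0a25) (nat_lit 0x0) (nat_lit 0x1ca78ddbfa00)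
  (PL.C (nat_lit 0x9d8202) (nat_lit 0x342ebad06700) (nat_lit 0x0) lm2_66))))))))))))))))))))

noncomputable def lm2_64 : PL :=
  (PL.C (nat_lit 0x8006a1) (nat_lit 0x0) (nat_lit 0x6ad4fad628300)
  (PL.C (nat_lit 0x803517) (nat_lit 0x0) (nat_lit 0x19fb7a577e400)
  (PL.C (nat_lit 0x808fef) (nat_lit 0x0) (nat_lit 0x6b2b351600)
  (PL.C (nat_lit 0x80ec0a) (nat_lit 0x0) (nat_lit 0xcb64386d1100)
  (PL.C (nat_lit 0x8168f3) (nat_lit 0x0) (nat_lit 0x856c469593d00)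
  (PL.C (nat_lit 0x81f3bd) (nat_lit 0x0) (nat_lit 0x1ca78ddbfa00)
  (PL.C (nat_lit 0x820826) (nat_lit 0x0) (nat_lit 0xb2f8007c00)
  (PL.C (nat_lit 0x824a65) (nat_lit 0xd8fb10d400) (nat_lit 0x0)
  (PL.C (nat_lit 0x827611) (nat_lit 0x355b7bd802500) (nat_lit 0x0)
  (PL.C (nat_lit 0x85018a) (nat_lit 0x0) (nat_lit 0x597c003e000)
  (PL.C (nat_lit 0x86100b) (nat_lit 0x1ab59a8303000) (nat_lit 0x0)
  (PL.C (nat_lit 0x8626a6) (nat_lit 0x0) (nat_lit 0xb2f8007c00)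
  (PL.C (nat_lit 0x86ffbd) (nat_lit 0x12a2fcd06e00) (nat_lit 0x0)
  (PL.C (nat_lit 0x887ff3) (nat_lit 0xffadbf35d00) (nat_lit 0x0)
  (PL.C (nat_lit 0x889f25) (nat_lit 0x0) (nat_lit 0x1ab719d819500)
  (PL.C (nat_lit 0x8931ab) (nat_lit 0x0) (nat_lit 0x39f4c9c600)
  (PL.C (nat_lit 0x893df5) (nat_lit 0x0) (nat_lit 0xa5fe6af29900)
  (PL.C (nat_lit 0x8a434b) (nat_lit 0x0) (nat_lit 0xd503b47a1d80)
  (PL.C (nat_lit 0x8c24f9) (nat_lit 0x0) (nat_lit 0xb6b53cd2700)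
  (PL.C (nat_lit 0x8c5573) (nat_lit 0x0) (nat_lit 0x6ad4fad628300) lm2_65))))))))))))))))))))

noncomputable def lm2_63 : PL :=
  (PL.C (nat_lit 0x75b3a3) (nat_lit 0x0) (nat_lit 0xeec7913a00)
  (PL.C (nat_lit 0x761d3d) (nat_lit 0x0) (nat_lit 0xadbfb5aabf680)
  (PL.C (nat_lit 0x763b81) (nat_lit 0x4fb09570400) (nat_lit 0x0)
  (PL.C (nat_lit 0x7668cb) (nat_lit 0x0) (nat_lit 0x2954a8e91800)
  (PL.C (nat_lit 0x767569) (nat_lit 0x2e128cf8bac00) (nat_lit 0x0)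
  (PL.C (nat_lit 0x76b705) (nat_lit 0x0) (nat_lit 0x9f91cbc29000)
  (PL.C (nat_lit 0x77da2e) (nat_lit 0xb2f8007c00) (nat_lit 0x0)
  (PL.C (nat_lit 0x783ba1) (nat_lit 0x0) (nat_lit 0x42d6832faf980)
  (PL.C (nat_lit 0x784f97) (nat_lit 0x25b1c0ea00) (nat_lit 0x0)
  (PL.C (nat_lit 0x78c66b) (nat_lit 0x0) (nat_lit 0x856c469593d00)
  (PL.C (nat_lit 0x794497) (nat_lit 0x0) (nat_lit 0x42d6832faf980)
  (PL.C (nat_lit 0x79a5be) (nat_lit 0x0) (nat_lit 0x1abd7bd900)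
  (PL.C (nat_lit 0x7a322a) (nat_lit 0xb2f8007c00) (nat_lit 0x0)
  (PL.C (nat_lit 0x7a9435) (nat_lit 0x0) (nat_lit 0x4e489c8a6f500)
  (PL.C (nat_lit 0x7bf10a) (nat_lit 0xb2f8007c00) (nat_lit 0x0)
  (PL.C (nat_lit 0x7d0f5f) (nat_lit 0x0) (nat_lit 0x38fa6ad9380)
  (PL.C (nat_lit 0x7d3805) (nat_lit 0x0) (nat_lit 0xbdd73e400)
  (PL.C (nat_lit 0x7df2b1) (nat_lit 0x884c9bf2e980) (nat_lit 0x0)
  (PL.C (nat_lit 0x7eeee7) (nat_lit 0x0) (nat_lit 0x355b7bd802500)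
  (PL.C (nat_lit 0x7f816d) (nat_lit 0x0) (nat_lit 0x62b9d9f11fd00) lm2_64))))))))))))))))))))

noncomputable def lm2_62 : PL :=
  (PL.C (nat_lit 0x6bf549) (nat_lit 0x355b7bd802500) (nat_lit 0x0)
  (PL.C (nat_lit 0x6c12e5) (nat_lit 0x0) (nat_lit 0x4f0d7e03fe00)
  (PL.C (nat_lit 0x6c5a4b) (nat_lit 0x0) (nat_lit 0x1dd8f227400)
  (PL.C (nat_lit 0x6d3dff) (nat_lit 0x0) (nat_lit 0x8d029df560b80)
  (PL.C (nat_lit 0x6dd7ed) (nat_lit 0x0) (nat_lit 0x193332ded1d00)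
  (PL.C (nat_lit 0x6e369f) (nat_lit 0x408c790b900) (nat_lit 0x0)
  (PL.C (nat_lit 0x6e84b7) (nat_lit 0x0) (nat_lit 0x13139b9207680)
  (PL.C (nat_lit 0x6e8702) (nat_lit 0x0) (nat_lit 0xcb444f148700)
  (PL.C (nat_lit 0x6eff1b) (nat_lit 0x0) (nat_lit 0x3ee2df9ded00)
  (PL.C (nat_lit 0x6fb695) (nat_lit 0x0) (nat_lit 0x11edb975a0180)
  (PL.C (nat_lit 0x712b77) (nat_lit 0x4dda2ca944e00) (nat_lit 0x0)
  (PL.C (nat_lit 0x735479) (nat_lit 0x0) (nat_lit 0x4dbac4e752300)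
  (PL.C (nat_lit 0x7360c3) (nat_lit 0x16d14073b2200) (nat_lit 0x0)
  (PL.C (nat_lit 0x73d089) (nat_lit 0x0) (nat_lit 0x15bbcbaa400)
  (PL.C (nat_lit 0x73da89) (nat_lit 0x0) (nat_lit 0xe2b363d840600)
  (PL.C (nat_lit 0x73f6fb) (nat_lit 0x0) (nat_lit 0x19fb7a577e400)
  (PL.C (nat_lit 0x743105) (nat_lit 0x29f0bb189400) (nat_lit 0x0)
  (PL.C (nat_lit 0x751b2b) (nat_lit 0x0) (nat_lit 0x13dba82bcbfd00)
  (PL.C (nat_lit 0x753113) (nat_lit 0x2b779754800) (nat_lit 0x0)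
  (PL.C (nat_lit 0x75a259) (nat_lit 0x0) (nat_lit 0x1681d5b4f00380) lm2_63))))))))))))))))))))

noncomputable def lm2_61 : PL :=
  (PL.C (nat_lit 0x63b063) (nat_lit 0x0) (nat_lit 0x246c90479c00)
  (PL.C (nat_lit 0x63b4f1) (nat_lit 0x0) (nat_lit 0x13dba82bcbfd00)
  (PL.C (nat_lit 0x6404d2) (nat_lit 0x24a3a76800) (nat_lit 0x0)
  (PL.C (nat_lit 0x641b4d) (nat_lit 0xeec7913a00) (nat_lit 0x0)
  (PL.C (nat_lit 0x64c8e3) (nat_lit 0x0) (nat_lit 0x11a3986ef53000)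
  (PL.C (nat_lit 0x651e5a) (nat_lit 0x0) (nat_lit 0xcb444f148700)
  (PL.C (nat_lit 0x654c1b) (nat_lit 0x0) (nat_lit 0x7dfad0976a00)
  (PL.C (nat_lit 0x660d9d) (nat_lit 0x2099b17f600) (nat_lit 0x0)
  (PL.C (nat_lit 0x6779c9) (nat_lit 0x0) (nat_lit 0x4e489c8a6f500)
  (PL.C (nat_lit 0x68994f) (nat_lit 0x193963ec97c00) (nat_lit 0x0)
  (PL.C (nat_lit 0x68b16e) (nat_lit 0x0) (nat_lit 0x13441fbaa6f00)
  (PL.C (nat_lit 0x68f073) (nat_lit 0x0) (nat_lit 0x325dc9e4c3800)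
  (PL.C (nat_lit 0x698632) (nat_lit 0x0) (nat_lit 0xb2f8007c00)
  (PL.C (nat_lit 0x69d7b5) (nat_lit 0x0) (nat_lit 0x325dc9e4c3800)
  (PL.C (nat_lit 0x6a66b5) (nat_lit 0x0) (nat_lit 0x1681d5b4f00380)
  (PL.C (nat_lit 0x6a6ebe) (nat_lit 0x0) (nat_lit 0x597c003e000)
  (PL.C (nat_lit 0x6af13d) (nat_lit 0x193963ec97c00) (nat_lit 0x0)
  (PL.C (nat_lit 0x6b26c3) (nat_lit 0x0) (nat_lit 0x2aa0edbc6200)
  (PL.C (nat_lit 0x6b6d8d) (nat_lit 0x0) (nat_lit 0xada6ba00f00)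
  (PL.C (nat_lit 0x6be98f) (nat_lit 0x73e9938c00) (nat_lit 0x0) lm2_62))))))))))))))))))))

noncomputable def lm2_60 : PL :=
  (PL.C (nat_lit 0x5afccd) (nat_lit 0x1e37a594ffc00) (nat_lit 0x0)
  (PL.C (nat_lit 0x5b222d) (nat_lit 0x2aa0edbc6200) (nat_lit 0x0)
  (PL.C (nat_lit 0x5b3123) (nat_lit 0x0) (nat_lit 0x271a3a24e7500)
  (PL.C (nat_lit 0x5b40b9) (nat_lit 0x56bffc2400) (nat_lit 0x0)
  (PL.C (nat_lit 0x5b7672) (nat_lit 0xb2f8007c00) (nat_lit 0x0)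
  (PL.C (nat_lit 0x5baa93) (nat_lit 0x0) (nat_lit 0x10e634869e00)
  (PL.C (nat_lit 0x5c7495) (nat_lit 0x0) (nat_lit 0x814472cb3800)
  (PL.C (nat_lit 0x5db2c7) (nat_lit 0x3acff432a100) (nat_lit 0x0)
  (PL.C (nat_lit 0x5e4da9) (nat_lit 0x0) (nat_lit 0x271a3a24e7500)
  (PL.C (nat_lit 0x5e6d45) (nat_lit 0xfff8ccf7bc80) (nat_lit 0x0)
  (PL.C (nat_lit 0x5e9c53) (nat_lit 0x4fb09570400) (nat_lit 0x0)
  (PL.C (nat_lit 0x5ecbad) (nat_lit 0x408c790b900) (nat_lit 0x0)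
  (PL.C (nat_lit 0x5f69ae) (nat_lit 0x0) (nat_lit 0x77286fbe00)
  (PL.C (nat_lit 0x60a531) (nat_lit 0x403ec1434000) (nat_lit 0x0)
  (PL.C (nat_lit 0x60ad5b) (nat_lit 0x0) (nat_lit 0x1dd8f227400)
  (PL.C (nat_lit 0x619b93) (nat_lit 0x0) (nat_lit 0x63e4993bb3c00)
  (PL.C (nat_lit 0x61cc6d) (nat_lit 0x0) (nat_lit 0xa5fe6af29900)
  (PL.C (nat_lit 0x62b25d) (nat_lit 0x1dd8f227400) (nat_lit 0x0)
  (PL.C (nat_lit 0x62db17) (nat_lit 0x0) (nat_lit 0xadbfb5aabf680)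
  (PL.C (nat_lit 0x6376e3) (nat_lit 0x0) (nat_lit 0x73e9938c00) lm2_61))))))))))))))))))))

noncomputable def lm2_59 : PL :=
  (PL.C (nat_lit 0x51ac35) (nat_lit 0x0) (nat_lit 0xa7423e823200)
  (PL.C (nat_lit 0x51b7ab) (nat_lit 0xeec7913a00) (nat_lit 0x0)
  (PL.C (nat_lit 0x531bc3) (nat_lit 0x823f8529800) (nat_lit 0x0)
  (PL.C (nat_lit 0x537aae) (nat_lit 0x24a3a76800) (nat_lit 0x0)
  (PL.C (nat_lit 0x54272f) (nat_lit 0x0) (nat_lit 0x35797efe25e00)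
  (PL.C (nat_lit 0x548f4f) (nat_lit 0xd3b692628a00) (nat_lit 0x0)
  (PL.C (nat_lit 0x5578ba) (nat_lit 0x0) (nat_lit 0xcb13e556ad00)
  (PL.C (nat_lit 0x559d8b) (nat_lit 0x0) (nat_lit 0x63e4993bb3c00)
  (PL.C (nat_lit 0x55b54a) (nat_lit 0x0) (nat_lit 0x1abd7bd900)
  (PL.C (nat_lit 0x56a27e) (nat_lit 0x0) (nat_lit 0x13441fbaa6f00)
  (PL.C (nat_lit 0x571483) (nat_lit 0x2e4b9d220f80) (nat_lit 0x0)
  (PL.C (nat_lit 0x57e6c1) (nat_lit 0x0) (nat_lit 0x9f91cbc29000)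
  (PL.C (nat_lit 0x581411) (nat_lit 0x25b1c0ea00) (nat_lit 0x0)
  (PL.C (nat_lit 0x58a877) (nat_lit 0x0) (nat_lit 0xeec7913a00)
  (PL.C (nat_lit 0x58e133) (nat_lit 0x0) (nat_lit 0x30817458c8900)
  (PL.C (nat_lit 0x5945a9) (nat_lit 0x0) (nat_lit 0xa7423e823200)
  (PL.C (nat_lit 0x597257) (nat_lit 0x0) (nat_lit 0x13139b9207680)
  (PL.C (nat_lit 0x599dd5) (nat_lit 0x0) (nat_lit 0x7dfad0976a00)
  (PL.C (nat_lit 0x59a567) (nat_lit 0x0) (nat_lit 0x2df633721800)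
  (PL.C (nat_lit 0x59eb17) (nat_lit 0x0) (nat_lit 0x1e5b398f26600) lm2_60))))))))))))))))))))

noncomputable def lm2_58 : PL :=
  (PL.C (nat_lit 0x4b5c0d) (nat_lit 0x0) (nat_lit 0xa7423e823200)
  (PL.C (nat_lit 0x4b9079) (nat_lit 0x0) (nat_lit 0x25b45bb8f8f00)
  (PL.C (nat_lit 0x4be7b3) (nat_lit 0x0) (nat_lit 0xe04166780e000)
  (PL.C (nat_lit 0x4c36ff) (nat_lit 0x0) (nat_lit 0x13139b9207680)
  (PL.C (nat_lit 0x4cbe21) (nat_lit 0x0) (nat_lit 0x11f7fd0bc00)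
  (PL.C (nat_lit 0x4ccec1) (nat_lit 0xe043c1941ca00) (nat_lit 0x0)
  (PL.C (nat_lit 0x4cfaef) (nat_lit 0x0) (nat_lit 0x11edb975a0180)
  (PL.C (nat_lit 0x4d09ed) (nat_lit 0x0) (nat_lit 0x1a74660f1cf80)
  (PL.C (nat_lit 0x4d106f) (nat_lit 0x2b779754800) (nat_lit 0x0)
  (PL.C (nat_lit 0x4d4f52) (nat_lit 0x0) (nat_lit 0xcb13e556ad00)
  (PL.C (nat_lit 0x4d709f) (nat_lit 0x73e9938c00) (nat_lit 0x0)
  (PL.C (nat_lit 0x4da353) (nat_lit 0xd102bde45e800) (nat_lit 0x0)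
  (PL.C (nat_lit 0x4e77c2) (nat_lit 0x0) (nat_lit 0x3b9437df00)
  (PL.C (nat_lit 0x4ed256) (nat_lit 0x0) (nat_lit 0xa81a1aa6e00)
  (PL.C (nat_lit 0x4f1af5) (nat_lit 0x3c65fa4be00) (nat_lit 0x0)
  (PL.C (nat_lit 0x4f24ae) (nat_lit 0x0) (nat_lit 0x4cbc81d71880)
  (PL.C (nat_lit 0x4f7aad) (nat_lit 0x39300597ae00) (nat_lit 0x0)
  (PL.C (nat_lit 0x50a619) (nat_lit 0x884c9bf2e980) (nat_lit 0x0)
  (PL.C (nat_lit 0x50c8d1) (nat_lit 0x0) (nat_lit 0x1dc97772200)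
  (PL.C (nat_lit 0x5154fb) (nat_lit 0x0) (nat_lit 0x14bf6466ae800) lm2_59))))))))))))))))))))

noncomputable def lm2_57 : PL :=
  (PL.C (nat_lit 0x45925b) (nat_lit 0x36557d29a00) (nat_lit 0x0)
  (PL.C (nat_lit 0x45bb8a) (nat_lit 0xc73722b90700) (nat_lit 0x0)
  (PL.C (nat_lit 0x45f5a2) (nat_lit 0x0) (nat_lit 0x1927b71cd8e00)
  (PL.C (nat_lit 0x46280f) (nat_lit 0x823f8529800) (nat_lit 0x0)
  (PL.C (nat_lit 0x463f93) (nat_lit 0x13139b9207680) (nat_lit 0x0)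
  (PL.C (nat_lit 0x468fce) (nat_lit 0x0) (nat_lit 0x1927b71cd8e00)
  (PL.C (nat_lit 0x474b7e) (nat_lit 0xc73722b90700) (nat_lit 0x0)
  (PL.C (nat_lit 0x479e5e) (nat_lit 0x0) (nat_lit 0x3d7669f2e00)
  (PL.C (nat_lit 0x47f10a) (nat_lit 0x0) (nat_lit 0x165f000f800)
  (PL.C (nat_lit 0x47f2c5) (nat_lit 0x0) (nat_lit 0x1dd8f227400)
  (PL.C (nat_lit 0x483c32) (nat_lit 0x0) (nat_lit 0x77286fbe00)
  (PL.C (nat_lit 0x489153) (nat_lit 0x0) (nat_lit 0xada6ba00f00)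
  (PL.C (nat_lit 0x48b117) (nat_lit 0x0) (nat_lit 0xf200a503a00)
  (PL.C (nat_lit 0x493a9e) (nat_lit 0x0) (nat_lit 0x8b6919940d00)
  (PL.C (nat_lit 0x495a29) (nat_lit 0x0) (nat_lit 0x814472cb3800)
  (PL.C (nat_lit 0x497ff9) (nat_lit 0x3acff432a100) (nat_lit 0x0)
  (PL.C (nat_lit 0x49fbcf) (nat_lit 0x0) (nat_lit 0x10e634869e00)
  (PL.C (nat_lit 0x4a5a15) (nat_lit 0x0) (nat_lit 0x2393fa26a00)
  (PL.C (nat_lit 0x4a7301) (nat_lit 0x0) (nat_lit 0x35797efe25e00)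
  (PL.C (nat_lit 0x4b073f) (nat_lit 0x0) (nat_lit 0x30817458c8900) lm2_58))))))))))))))))))))

noncomputable def lm2_56 : PL :=
  (PL.C (nat_lit 0x407392) (nat_lit 0x0) (nat_lit 0x77286fbe00)
  (PL.C (nat_lit 0x40c865) (nat_lit 0x4049bc8ac00) (nat_lit 0x0)
  (PL.C (nat_lit 0x410861) (nat_lit 0x0) (nat_lit 0xda7601da74900)
  (PL.C (nat_lit 0x411262) (nat_lit 0x0) (nat_lit 0x31cfd18ba0600)
  (PL.C (nat_lit 0x4189df) (nat_lit 0x46a192d03e80) (nat_lit 0x0)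
  (PL.C (nat_lit 0x41cc3e) (nat_lit 0x77286fbe00) (nat_lit 0x0)
  (PL.C (nat_lit 0x41dd11) (nat_lit 0x0) (nat_lit 0x73e9938c00)
  (PL.C (nat_lit 0x424f42) (nat_lit 0x165f000f800) (nat_lit 0x0)
  (PL.C (nat_lit 0x42b739) (nat_lit 0x0) (nat_lit 0x3252662c3400)
  (PL.C (nat_lit 0x42bcde) (nat_lit 0x3b9437df00) (nat_lit 0x0)
  (PL.C (nat_lit 0x434a3f) (nat_lit 0x0) (nat_lit 0x4f3ac5dea400)
  (PL.C (nat_lit 0x436cef) (nat_lit 0x0) (nat_lit 0x4730b7580)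
  (PL.C (nat_lit 0x438812) (nat_lit 0x49b560cb3b80) (nat_lit 0x0)
  (PL.C (nat_lit 0x43d173) (nat_lit 0x18eb9299d0180) (nat_lit 0x0)
  (PL.C (nat_lit 0x43de89) (nat_lit 0x0) (nat_lit 0x3252662c3400)
  (PL.C (nat_lit 0x4431d5) (nat_lit 0x0) (nat_lit 0x4730b7580)
  (PL.C (nat_lit 0x44a827) (nat_lit 0x0) (nat_lit 0x1c50848fa63d00)
  (PL.C (nat_lit 0x44f1c9) (nat_lit 0x0) (nat_lit 0xa7423e823200)
  (PL.C (nat_lit 0x4508e5) (nat_lit 0x0) (nat_lit 0x9f26a08d7a00)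
  (PL.C (nat_lit 0x458679) (nat_lit 0x0) (nat_lit 0x7ef71cfc5200) lm2_57))))))))))))))))))))

noncomputable def lm2_55 : PL :=
  (PL.C (nat_lit 0x3b83c6) (nat_lit 0x0) (nat_lit 0x5613c86bdf00)
  (PL.C (nat_lit 0x3bbe8e) (nat_lit 0x49b560cb3b80) (nat_lit 0x0)
  (PL.C (nat_lit 0x3bc39a) (nat_lit 0x0) (nat_lit 0x2a7814051700)
  (PL.C (nat_lit 0x3bc471) (nat_lit 0x0) (nat_lit 0x3559f901b480)
  (PL.C (nat_lit 0x3cf005) (nat_lit 0xe043c1941ca00) (nat_lit 0x0)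
  (PL.C (nat_lit 0x3d1c62) (nat_lit 0x46f1282d4c80) (nat_lit 0x0)
  (PL.C (nat_lit 0x3da30e) (nat_lit 0x0) (nat_lit 0x4e17f78a24800)
  (PL.C (nat_lit 0x3dd22f) (nat_lit 0x3252662c3400) (nat_lit 0x0)
  (PL.C (nat_lit 0x3e0b9d) (nat_lit 0x0) (nat_lit 0x3ee2df9ded00)
  (PL.C (nat_lit 0x3e19cb) (nat_lit 0x0) (nat_lit 0xe04166780e000)
  (PL.C (nat_lit 0x3e2069) (nat_lit 0x46a192d03e80) (nat_lit 0x0)
  (PL.C (nat_lit 0x3e5c65) (nat_lit 0x1dd8f227400) (nat_lit 0x0)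
  (PL.C (nat_lit 0x3e61fb) (nat_lit 0x0) (nat_lit 0x4f9faf4601380)
  (PL.C (nat_lit 0x3ed8c5) (nat_lit 0x0) (nat_lit 0x246c90479c00)
  (PL.C (nat_lit 0x3f0ea1) (nat_lit 0x0) (nat_lit 0x6c16d8398a900)
  (PL.C (nat_lit 0x3f12e2) (nat_lit 0x0) (nat_lit 0xa81a1aa6e00)
  (PL.C (nat_lit 0x3f576b) (nat_lit 0x0) (nat_lit 0x2c2b3313ef3880)
  (PL.C (nat_lit 0x3f9997) (nat_lit 0x0) (nat_lit 0x3368156300280)
  (PL.C (nat_lit 0x3fa9e3) (nat_lit 0x0) (nat_lit 0x20e6320ed600)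
  (PL.C (nat_lit 0x3fb3b7) (nat_lit 0x12a2fcd06e00) (nat_lit 0x0) lm2_56))))))))))))))))))))

noncomputable def lm2_54 : PL :=
  (PL.C (nat_lit 0x38c2b3) (nat_lit 0x0) (nat_lit 0x63e3db6475800)
  (PL.C (nat_lit 0x38d871) (nat_lit 0x408c790b900) (nat_lit 0x0)
  (PL.C (nat_lit 0x38eaeb) (nat_lit 0x0) (nat_lit 0x1dc97772200)
  (PL.C (nat_lit 0x38fdff) (nat_lit 0x0) (nat_lit 0x14f0270beec00)
  (PL.C (nat_lit 0x3913b2) (nat_lit 0x0) (nat_lit 0x31cfd18ba0600)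
  (PL.C (nat_lit 0x394aff) (nat_lit 0x0) (nat_lit 0x21ff11b9e4d400)
  (PL.C (nat_lit 0x398871) (nat_lit 0x0) (nat_lit 0x7ef71cfc5200)
  (PL.C (nat_lit 0x399597) (nat_lit 0x9f9c17559800) (nat_lit 0x0)
  (PL.C (nat_lit 0x39b269) (nat_lit 0x0) (nat_lit 0x13139b9207680)
  (PL.C (nat_lit 0x39d359) (nat_lit 0x3252662c3400) (nat_lit 0x0)
  (PL.C (nat_lit 0x39d887) (nat_lit 0x977ba7b4900) (nat_lit 0x0)
  (PL.C (nat_lit 0x39f503) (nat_lit 0x0) (nat_lit 0x14bf6466ae800)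
  (PL.C (nat_lit 0x3a1b4d) (nat_lit 0x0) (nat_lit 0x38fa6ad9380)
  (PL.C (nat_lit 0x3a318f) (nat_lit 0x0) (nat_lit 0x25b45bb8f8f00)
  (PL.C (nat_lit 0x3a5801) (nat_lit 0x2b779754800) (nat_lit 0x0)
  (PL.C (nat_lit 0x3a99d6) (nat_lit 0x0) (nat_lit 0x4cbc81d71880)
  (PL.C (nat_lit 0x3ad29d) (nat_lit 0x0) (nat_lit 0xda7601da74900)
  (PL.C (nat_lit 0x3b11b3) (nat_lit 0xd3b692628a00) (nat_lit 0x0)
  (PL.C (nat_lit 0x3b1afa) (nat_lit 0x0) (nat_lit 0x3b9437df00)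
  (PL.C (nat_lit 0x3b587d) (nat_lit 0x2099b17f600) (nat_lit 0x0) lm2_55))))))))))))))))))))

noncomputable def lm2_53 : PL :=
  (PL.C (nat_lit 0x348ed9) (nat_lit 0x0) (nat_lit 0x4e9ab167a5d00)
  (PL.C (nat_lit 0x34a927) (nat_lit 0x0) (nat_lit 0x4f9faf4601380)
  (PL.C (nat_lit 0x34b615) (nat_lit 0x0) (nat_lit 0x9f26a08d7a00)
  (PL.C (nat_lit 0x34c737) (nat_lit 0x0) (nat_lit 0xc7431e152b00)
  (PL.C (nat_lit 0x3524f7) (nat_lit 0x0) (nat_lit 0x2b779754800)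
  (PL.C (nat_lit 0x353ae5) (nat_lit 0x0) (nat_lit 0x2565a103f71a00)
  (PL.C (nat_lit 0x357857) (nat_lit 0x0) (nat_lit 0x21ff11b9e4d400)
  (PL.C (nat_lit 0x358ec9) (nat_lit 0x38fa6ad9380) (nat_lit 0x0)
  (PL.C (nat_lit 0x35b033) (nat_lit 0x0) (nat_lit 0x2565a103f71a00)
  (PL.C (nat_lit 0x35d847) (nat_lit 0xfff8ccf7bc80) (nat_lit 0x0)
  (PL.C (nat_lit 0x35db36) (nat_lit 0x29016fc000) (nat_lit 0x0)
  (PL.C (nat_lit 0x3644c9) (nat_lit 0x0) (nat_lit 0x275d3f9299ee80)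
  (PL.C (nat_lit 0x3672ce) (nat_lit 0x0) (nat_lit 0x5613c86bdf00)
  (PL.C (nat_lit 0x367a72) (nat_lit 0x3b9437df00) (nat_lit 0x0)
  (PL.C (nat_lit 0x368b71) (nat_lit 0x0) (nat_lit 0x4d4a3a48fae00)
  (PL.C (nat_lit 0x37ac01) (nat_lit 0x36557d29a00) (nat_lit 0x0)
  (PL.C (nat_lit 0x37b7bb) (nat_lit 0x0) (nat_lit 0xa40ea03dc4a00)
  (PL.C (nat_lit 0x38528d) (nat_lit 0xa7c0323cba00) (nat_lit 0x0)
  (PL.C (nat_lit 0x385f8a) (nat_lit 0x199737484800) (nat_lit 0x0)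
  (PL.C (nat_lit 0x388179) (nat_lit 0x0) (nat_lit 0x146de55d7ca00) lm2_54))))))))))))))))))))

noncomputable def lm2_52 : PL :=
  (PL.C (nat_lit 0x309c33) (nat_lit 0xa7c0323cba00) (nat_lit 0x0)
  (PL.C (nat_lit 0x30a161) (nat_lit 0x0) (nat_lit 0xe0b14c64aee00)
  (PL.C (nat_lit 0x30e6c6) (nat_lit 0x0) (nat_lit 0x4e17f78a24800)
  (PL.C (nat_lit 0x30fe47) (nat_lit 0x3e8656c1c800) (nat_lit 0x0)
  (PL.C (nat_lit 0x311267) (nat_lit 0x13139b9207680) (nat_lit 0x0)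
  (PL.C (nat_lit 0x31528a) (nat_lit 0x46f1282d4c80) (nat_lit 0x0)
  (PL.C (nat_lit 0x315bd9) (nat_lit 0x0) (nat_lit 0x7e7351e54a00)
  (PL.C (nat_lit 0x3194d3) (nat_lit 0x35684abea900) (nat_lit 0x0)
  (PL.C (nat_lit 0x31a7d1) (nat_lit 0x0) (nat_lit 0x1a74660f1cf80)
  (PL.C (nat_lit 0x31c89f) (nat_lit 0x2cf1050d05c00) (nat_lit 0x0)
  (PL.C (nat_lit 0x323d5e) (nat_lit 0x0) (nat_lit 0x5613c86bdf00)
  (PL.C (nat_lit 0x3273f5) (nat_lit 0x34acddbd7400) (nat_lit 0x0)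
  (PL.C (nat_lit 0x3299eb) (nat_lit 0x0) (nat_lit 0xc7431e152b00)
  (PL.C (nat_lit 0x32c75b) (nat_lit 0x0) (nat_lit 0x82022f7950280)
  (PL.C (nat_lit 0x335727) (nat_lit 0x0) (nat_lit 0x63e3db6475800)
  (PL.C (nat_lit 0x33604a) (nat_lit 0x5c69423d600) (nat_lit 0x0)
  (PL.C (nat_lit 0x3370d9) (nat_lit 0x1e37a594ffc00) (nat_lit 0x0)
  (PL.C (nat_lit 0x33a06a) (nat_lit 0x0) (nat_lit 0x165f000f800)
  (PL.C (nat_lit 0x346c37) (nat_lit 0x0) (nat_lit 0x1e5b398f26600)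
  (PL.C (nat_lit 0x3471cd) (nat_lit 0xd102bde45e800) (nat_lit 0x0) lm2_53))))))))))))))))))))

noncomputable def lm2_51 : PL :=
  (PL.C (nat_lit 0x2cf34a) (nat_lit 0xdbd5ec700) (nat_lit 0x0)
  (PL.C (nat_lit 0x2d3f06) (nat_lit 0x0) (nat_lit 0x2f7826a44200)
  (PL.C (nat_lit 0x2d502d) (nat_lit 0x0) (nat_lit 0x12a0c026f1880)
  (PL.C (nat_lit 0x2d523f) (nat_lit 0x0) (nat_lit 0x6c16d8398a900)
  (PL.C (nat_lit 0x2d768e) (nat_lit 0xdbd5ec700) (nat_lit 0x0)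
  (PL.C (nat_lit 0x2dcfad) (nat_lit 0x0) (nat_lit 0x275d3f9299ee80)
  (PL.C (nat_lit 0x2df686) (nat_lit 0x0) (nat_lit 0x5613c86bdf00)
  (PL.C (nat_lit 0x2e05ee) (nat_lit 0x0) (nat_lit 0x4ca1c45b3f80)
  (PL.C (nat_lit 0x2e19c1) (nat_lit 0x0) (nat_lit 0x28e37e2ee6100)
  (PL.C (nat_lit 0x2e59a6) (nat_lit 0x0) (nat_lit 0x476e8aecf6400)
  (PL.C (nat_lit 0x2e6192) (nat_lit 0x0) (nat_lit 0x59cd9a70a00)
  (PL.C (nat_lit 0x2ee3a9) (nat_lit 0x374a74e0d800) (nat_lit 0x0)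
  (PL.C (nat_lit 0x2f8b81) (nat_lit 0x9f9c17559800) (nat_lit 0x0)
  (PL.C (nat_lit 0x2fb31d) (nat_lit 0x0) (nat_lit 0x14f0270beec00)
  (PL.C (nat_lit 0x2fdbb9) (nat_lit 0x0) (nat_lit 0xa51ee0677b00)
  (PL.C (nat_lit 0x2ff72e) (nat_lit 0x0) (nat_lit 0x77286fbe00)
  (PL.C (nat_lit 0x301c3b) (nat_lit 0x0) (nat_lit 0x146de55d7ca00)
  (PL.C (nat_lit 0x305d3b) (nat_lit 0x0) (nat_lit 0x2c2b3313ef3880)
  (PL.C (nat_lit 0x3060e2) (nat_lit 0x0) (nat_lit 0x3d7669f2e00)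
  (PL.C (nat_lit 0x306ae5) (nat_lit 0x0) (nat_lit 0x3fa5d6928400) lm2_52))))))))))))))))))))

noncomputable def lm2_50 : PL :=
  (PL.C (nat_lit 0x2936ca) (nat_lit 0x2f7826a44200) (nat_lit 0x0)
  (PL.C (nat_lit 0x295ba3) (nat_lit 0x9ec03b5d75100) (nat_lit 0x0)
  (PL.C (nat_lit 0x29736d) (nat_lit 0x0) (nat_lit 0x82022f7950280)
  (PL.C (nat_lit 0x2992ee) (nat_lit 0x77286fbe00) (nat_lit 0x0)
  (PL.C (nat_lit 0x29ce19) (nat_lit 0x91be029f06300) (nat_lit 0x0)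
  (PL.C (nat_lit 0x2a7142) (nat_lit 0x0) (nat_lit 0xd477aa5b800)
  (PL.C (nat_lit 0x2a7ac1) (nat_lit 0x0) (nat_lit 0x13ce047a88d00)
  (PL.C (nat_lit 0x2acbe7) (nat_lit 0x22f60794a000) (nat_lit 0x0)
  (PL.C (nat_lit 0x2b013d) (nat_lit 0x0) (nat_lit 0x20e6320ed600)
  (PL.C (nat_lit 0x2b16c3) (nat_lit 0x2099b17f600) (nat_lit 0x0)
  (PL.C (nat_lit 0x2b7fd3) (nat_lit 0x6345d74c600) (nat_lit 0x0)
  (PL.C (nat_lit 0x2be8b6) (nat_lit 0x165f000f800) (nat_lit 0x0)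
  (PL.C (nat_lit 0x2bedff) (nat_lit 0x2e4b9d220f80) (nat_lit 0x0)
  (PL.C (nat_lit 0x2bf1b5) (nat_lit 0x2b779754800) (nat_lit 0x0)
  (PL.C (nat_lit 0x2c5dfd) (nat_lit 0x0) (nat_lit 0x28e37e2ee6100)
  (PL.C (nat_lit 0x2c7a26) (nat_lit 0x0) (nat_lit 0x2f7826a44200)
  (PL.C (nat_lit 0x2c9eaf) (nat_lit 0x0) (nat_lit 0x1d022197341c00)
  (PL.C (nat_lit 0x2cd8c7) (nat_lit 0x0) (nat_lit 0x1821f3794b400)
  (PL.C (nat_lit 0x2cdc2a) (nat_lit 0x0) (nat_lit 0x431945050400)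
  (PL.C (nat_lit 0x2cef39) (nat_lit 0x0) (nat_lit 0x3368156300280) lm2_51))))))))))))))))))))

noncomputable def lm2_49 : PL :=
  (PL.C (nat_lit 0x25f1f2) (nat_lit 0x29016fc000) (nat_lit 0x0)
  (PL.C (nat_lit 0x25feaa) (nat_lit 0x0) (nat_lit 0xaaa2a0356e00)
  (PL.C (nat_lit 0x265af6) (nat_lit 0x0) (nat_lit 0x476e8aecf6400)
  (PL.C (nat_lit 0x2663ba) (nat_lit 0x54cb1e0c0b00) (nat_lit 0x0)
  (PL.C (nat_lit 0x268ce6) (nat_lit 0x2f7826a44200) (nat_lit 0x0)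
  (PL.C (nat_lit 0x26905a) (nat_lit 0x16c0f23b8980) (nat_lit 0x0)
  (PL.C (nat_lit 0x26bcde) (nat_lit 0x0) (nat_lit 0x1748adfd900)
  (PL.C (nat_lit 0x26e556) (nat_lit 0x5c69423d600) (nat_lit 0x0)
  (PL.C (nat_lit 0x26ea85) (nat_lit 0x0) (nat_lit 0x4e9ab167a5d00)
  (PL.C (nat_lit 0x276122) (nat_lit 0x199737484800) (nat_lit 0x0)
  (PL.C (nat_lit 0x27ace9) (nat_lit 0x0) (nat_lit 0x1821f3794b400)
  (PL.C (nat_lit 0x27b043) (nat_lit 0x137745841500) (nat_lit 0x0)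
  (PL.C (nat_lit 0x27d7bc) (nat_lit 0x0) (nat_lit 0x9ab54dc20900)
  (PL.C (nat_lit 0x27e091) (nat_lit 0x0) (nat_lit 0x2736bb9855800)
  (PL.C (nat_lit 0x28091f) (nat_lit 0x4049bc8ac00) (nat_lit 0x0)
  (PL.C (nat_lit 0x28665d) (nat_lit 0x0) (nat_lit 0xe0b0ea7e6d600)
  (PL.C (nat_lit 0x289407) (nat_lit 0x0) (nat_lit 0x4c8a819b0ca00)
  (PL.C (nat_lit 0x28bc1b) (nat_lit 0x0) (nat_lit 0x4d4a3a48fae00)
  (PL.C (nat_lit 0x28df39) (nat_lit 0x0) (nat_lit 0x9e7ff1a0ea500)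
  (PL.C (nat_lit 0x28eea9) (nat_lit 0x0) (nat_lit 0x13a4338098b00) lm2_50))))))))))))))))))))

noncomputable def lm2_48 : PL :=
  (PL.C (nat_lit 0x234a3d) (nat_lit 0x9e96a84e59700) (nat_lit 0x0)
  (PL.C (nat_lit 0x236dfa) (nat_lit 0x0) (nat_lit 0x5c69423d600)
  (PL.C (nat_lit 0x23b486) (nat_lit 0x1748adfd900) (nat_lit 0x0)
  (PL.C (nat_lit 0x23e305) (nat_lit 0x35684abea900) (nat_lit 0x0)
  (PL.C (nat_lit 0x23f4fb) (nat_lit 0x39300597ae00) (nat_lit 0x0)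
  (PL.C (nat_lit 0x2415f9) (nat_lit 0x0) (nat_lit 0x18d8a54b54600)
  (PL.C (nat_lit 0x245cf6) (nat_lit 0x0) (nat_lit 0x2852b949c9900)
  (PL.C (nat_lit 0x24657f) (nat_lit 0x0) (nat_lit 0xc7431e152b00)
  (PL.C (nat_lit 0x248479) (nat_lit 0x1480ad1194e00) (nat_lit 0x0)
  (PL.C (nat_lit 0x24a897) (nat_lit 0x18eb9299d0180) (nat_lit 0x0)
  (PL.C (nat_lit 0x24b85f) (nat_lit 0x0) (nat_lit 0x1e032623900)
  (PL.C (nat_lit 0x24f815) (nat_lit 0x0) (nat_lit 0x9eeb3c2523500)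
  (PL.C (nat_lit 0x251d56) (nat_lit 0x0) (nat_lit 0x59cd9a70a00)
  (PL.C (nat_lit 0x251fbb) (nat_lit 0x0) (nat_lit 0x4c8a819b0ca00)
  (PL.C (nat_lit 0x256fcb) (nat_lit 0x2f8bd5006ed80) (nat_lit 0x0)
  (PL.C (nat_lit 0x257631) (nat_lit 0x0) (nat_lit 0x17e955913b00)
  (PL.C (nat_lit 0x258c5e) (nat_lit 0x548ed7c98f00) (nat_lit 0x0)
  (PL.C (nat_lit 0x25aba6) (nat_lit 0x0) (nat_lit 0xaadee677ea00)
  (PL.C (nat_lit 0x25c6cd) (nat_lit 0x14faef0a2900) (nat_lit 0x0)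
  (PL.C (nat_lit 0x25d722) (nat_lit 0x0) (nat_lit 0x31d21bc616e00) lm2_49))))))))))))))))))))

noncomputable def lm2_47 : PL :=
  (PL.C (nat_lit 0x210de2) (nat_lit 0x0) (nat_lit 0x77edc39e3580)
  (PL.C (nat_lit 0x21306a) (nat_lit 0x0) (nat_lit 0x15ed63e563500)
  (PL.C (nat_lit 0x215787) (nat_lit 0x2cf1050d05c00) (nat_lit 0x0)
  (PL.C (nat_lit 0x2168b7) (nat_lit 0x34acddbd7400) (nat_lit 0x0)
  (PL.C (nat_lit 0x218c13) (nat_lit 0xc7431e152b00) (nat_lit 0x0)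
  (PL.C (nat_lit 0x21a101) (nat_lit 0x0) (nat_lit 0x7e7351e54a00)
  (PL.C (nat_lit 0x21bbf2) (nat_lit 0x0) (nat_lit 0xc08abedcc800)
  (PL.C (nat_lit 0x21cbdb) (nat_lit 0x0) (nat_lit 0x11f7fd0bc00)
  (PL.C (nat_lit 0x21d72f) (nat_lit 0x0) (nat_lit 0x12a0c026f1880)
  (PL.C (nat_lit 0x21fe13) (nat_lit 0x0) (nat_lit 0x13ce047a88d00)
  (PL.C (nat_lit 0x221a91) (nat_lit 0x0) (nat_lit 0xa51ee0677b00)
  (PL.C (nat_lit 0x221b61) (nat_lit 0x0) (nat_lit 0x16fac78fdaee00)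
  (PL.C (nat_lit 0x223a1a) (nat_lit 0x0) (nat_lit 0x31d21bc616e00)
  (PL.C (nat_lit 0x2247c9) (nat_lit 0x233c4db64200) (nat_lit 0x0)
  (PL.C (nat_lit 0x22e20f) (nat_lit 0x0) (nat_lit 0x77ca96f9000)
  (PL.C (nat_lit 0x230483) (nat_lit 0x3df2a3e37d980) (nat_lit 0x0)
  (PL.C (nat_lit 0x2309e6) (nat_lit 0x0) (nat_lit 0x2743f11187b00)
  (PL.C (nat_lit 0x23240e) (nat_lit 0x0) (nat_lit 0x4ca1c45b3f80)
  (PL.C (nat_lit 0x232f7a) (nat_lit 0x0) (nat_lit 0xc08abedcc800)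
  (PL.C (nat_lit 0x233331) (nat_lit 0x0) (nat_lit 0x38fa6ad9380) lm2_48))))))))))))))))))))

noncomputable def lm2_46 : PL :=
  (PL.C (nat_lit 0x1ed99d) (nat_lit 0x0) (nat_lit 0x9a52a690c0200)
  (PL.C (nat_lit 0x1eeac3) (nat_lit 0x0) (nat_lit 0x1e418dd369300)
  (PL.C (nat_lit 0x1eefe5) (nat_lit 0x7df3ba8800) (nat_lit 0x0)
  (PL.C (nat_lit 0x1efab3) (nat_lit 0x0) (nat_lit 0x92e2940acd00)
  (PL.C (nat_lit 0x1f2ee5) (nat_lit 0x0) (nat_lit 0x1e418dd369300)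
  (PL.C (nat_lit 0x1f3529) (nat_lit 0x0) (nat_lit 0x9eeb3c2523500)
  (PL.C (nat_lit 0x1f49c7) (nat_lit 0x408c790b900) (nat_lit 0x0)
  (PL.C (nat_lit 0x1f9a37) (nat_lit 0x0) (nat_lit 0x92e2940acd00)
  (PL.C (nat_lit 0x1fb256) (nat_lit 0x54cb1e0c0b00) (nat_lit 0x0)
  (PL.C (nat_lit 0x1fccbe) (nat_lit 0x0) (nat_lit 0xaaa2a0356e00)
  (PL.C (nat_lit 0x2012d2) (nat_lit 0x0) (nat_lit 0xaadee677ea00)
  (PL.C (nat_lit 0x202eb3) (nat_lit 0x4bbae82c080) (nat_lit 0x0)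
  (PL.C (nat_lit 0x206822) (nat_lit 0x548ed7c98f00) (nat_lit 0x0)
  (PL.C (nat_lit 0x206b96) (nat_lit 0x12486841fba00) (nat_lit 0x0)
  (PL.C (nat_lit 0x20798d) (nat_lit 0x0) (nat_lit 0x13a4338098b00)
  (PL.C (nat_lit 0x20a3d5) (nat_lit 0x0) (nat_lit 0xc7431e152b00)
  (PL.C (nat_lit 0x20b42b) (nat_lit 0x2b779754800) (nat_lit 0x0)
  (PL.C (nat_lit 0x20e7e6) (nat_lit 0x9ee5cb719d00) (nat_lit 0x0)
  (PL.C (nat_lit 0x20ebc3) (nat_lit 0x0) (nat_lit 0x18d8a54b54600)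
  (PL.C (nat_lit 0x20fc3d) (nat_lit 0x977ba7b4900) (nat_lit 0x0) lm2_47))))))))))))))))))))

noncomputable def lm2_45 : PL :=
  (PL.C (nat_lit 0x1c6b45) (nat_lit 0x0) (nat_lit 0x4d013cde7d00)
  (PL.C (nat_lit 0x1ca98f) (nat_lit 0x0) (nat_lit 0x348e937ee5cc00)
  (PL.C (nat_lit 0x1cab7e) (nat_lit 0x0) (nat_lit 0xd477aa5b800)
  (PL.C (nat_lit 0x1ccaa5) (nat_lit 0x0) (nat_lit 0x6b47b8f6790100)
  (PL.C (nat_lit 0x1cd6bb) (nat_lit 0x0) (nat_lit 0x408c790b900)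
  (PL.C (nat_lit 0x1ce8b9) (nat_lit 0x0) (nat_lit 0x170ca0f5e17800)
  (PL.C (nat_lit 0x1cf499) (nat_lit 0x0) (nat_lit 0xf200a503a00)
  (PL.C (nat_lit 0x1cffe2) (nat_lit 0xbbe6a61b500) (nat_lit 0x0)
  (PL.C (nat_lit 0x1d38bb) (nat_lit 0x0) (nat_lit 0x10d44f49ae6000)
  (PL.C (nat_lit 0x1d4bce) (nat_lit 0x5c69423d600) (nat_lit 0x0)
  (PL.C (nat_lit 0x1d93fe) (nat_lit 0x0) (nat_lit 0x14ce604b83200)
  (PL.C (nat_lit 0x1da6c4) (nat_lit 0x0) (nat_lit 0xa071aa6ae200)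
  (PL.C (nat_lit 0x1dca7b) (nat_lit 0x0) (nat_lit 0x2b109617e7200)
  (PL.C (nat_lit 0x1de5da) (nat_lit 0x2d22b367d7680) (nat_lit 0x0)
  (PL.C (nat_lit 0x1de81c) (nat_lit 0x0) (nat_lit 0x124ce87201400)
  (PL.C (nat_lit 0x1df01f) (nat_lit 0x38fa6ad9380) (nat_lit 0x0)
  (PL.C (nat_lit 0x1e2a04) (nat_lit 0x0) (nat_lit 0xa071aa6ae200)
  (PL.C (nat_lit 0x1e9039) (nat_lit 0x0) (nat_lit 0x4e7ce7f033b00)
  (PL.C (nat_lit 0x1ea5e1) (nat_lit 0x0) (nat_lit 0x1e032623900)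
  (PL.C (nat_lit 0x1ebbd6) (nat_lit 0x0) (nat_lit 0x14ce604b83200) lm2_46))))))))))))))))))))

noncomputable def lm2_44 : PL :=
  (PL.C (nat_lit 0x1a93eb) (nat_lit 0x0) (nat_lit 0x249c5b23a200)
  (PL.C (nat_lit 0x1a95b6) (nat_lit 0x0) (nat_lit 0x2494f967d0100)
  (PL.C (nat_lit 0x1ab299) (nat_lit 0x5225b3978800) (nat_lit 0x0)
  (PL.C (nat_lit 0x1abcd3) (nat_lit 0x3df2a3e37d980) (nat_lit 0x0)
  (PL.C (nat_lit 0x1ace7d) (nat_lit 0x151519a525b00) (nat_lit 0x0)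
  (PL.C (nat_lit 0x1b0d5a) (nat_lit 0x0) (nat_lit 0x265d3831c5c00)
  (PL.C (nat_lit 0x1b2812) (nat_lit 0x0) (nat_lit 0x2852b949c9900)
  (PL.C (nat_lit 0x1b2abf) (nat_lit 0x3a12d7dff100) (nat_lit 0x0)
  (PL.C (nat_lit 0x1b49c6) (nat_lit 0x0) (nat_lit 0x11ca03392e2800)
  (PL.C (nat_lit 0x1b79dc) (nat_lit 0xa071aa6ae200) (nat_lit 0x0)
  (PL.C (nat_lit 0x1ba515) (nat_lit 0x0) (nat_lit 0x28e336fe2eb80)
  (PL.C (nat_lit 0x1bb2eb) (nat_lit 0x9ec03b5d75100) (nat_lit 0x0)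
  (PL.C (nat_lit 0x1bc2bb) (nat_lit 0xc7431e152b00) (nat_lit 0x0)
  (PL.C (nat_lit 0x1c33d3) (nat_lit 0x0) (nat_lit 0x3559f901b480)
  (PL.C (nat_lit 0x1c3a45) (nat_lit 0x0) (nat_lit 0x9e7ff1a0ea500)
  (PL.C (nat_lit 0x1c3d47) (nat_lit 0x9e96a84e59700) (nat_lit 0x0)
  (PL.C (nat_lit 0x1c4ceb) (nat_lit 0x0) (nat_lit 0xf15021880500)
  (PL.C (nat_lit 0x1c51d6) (nat_lit 0x0) (nat_lit 0x22007f3c42800)
  (PL.C (nat_lit 0x1c588b) (nat_lit 0x0) (nat_lit 0x2b779754800)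
  (PL.C (nat_lit 0x1c5b15) (nat_lit 0x0) (nat_lit 0x16a4945adb700) lm2_45))))))))))))))))))))

noncomputable def lm2_43 : PL :=
  (PL.C (nat_lit 0x187aea) (nat_lit 0x3b254eb2a80) (nat_lit 0x0)
  (PL.C (nat_lit 0x18aae7) (nat_lit 0x0) (nat_lit 0x6136a68e42ff00)
  (PL.C (nat_lit 0x18bfd2) (nat_lit 0x0) (nat_lit 0x265d3831c5c00)
  (PL.C (nat_lit 0x18f532) (nat_lit 0x0) (nat_lit 0x17be820362880)
  (PL.C (nat_lit 0x18f976) (nat_lit 0x0) (nat_lit 0x9e73c764800)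
  (PL.C (nat_lit 0x194e2f) (nat_lit 0x0) (nat_lit 0x17e955913b00)
  (PL.C (nat_lit 0x1999e3) (nat_lit 0x4c49c516a8400) (nat_lit 0x0)
  (PL.C (nat_lit 0x19af37) (nat_lit 0x0) (nat_lit 0x98d446b1b4e00)
  (PL.C (nat_lit 0x19b344) (nat_lit 0xa071aa6ae200) (nat_lit 0x0)
  (PL.C (nat_lit 0x19ccdd) (nat_lit 0x0) (nat_lit 0x28e336fe2eb80)
  (PL.C (nat_lit 0x19d6bf) (nat_lit 0x2099b17f600) (nat_lit 0x0)
  (PL.C (nat_lit 0x19df25) (nat_lit 0x6345d74c600) (nat_lit 0x0)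
  (PL.C (nat_lit 0x19e7d1) (nat_lit 0x0) (nat_lit 0x98d446b1b4e00)
  (PL.C (nat_lit 0x19f1ae) (nat_lit 0x0) (nat_lit 0x2743f11187b00)
  (PL.C (nat_lit 0x1a0ad1) (nat_lit 0x0) (nat_lit 0x6b47b8f6790100)
  (PL.C (nat_lit 0x1a26bf) (nat_lit 0x2f8bd5006ed80) (nat_lit 0x0)
  (PL.C (nat_lit 0x1a2cb9) (nat_lit 0x4c49c516a8400) (nat_lit 0x0)
  (PL.C (nat_lit 0x1a2f83) (nat_lit 0x0) (nat_lit 0xf2db99eebe800)
  (PL.C (nat_lit 0x1a7346) (nat_lit 0x2d22b367d7680) (nat_lit 0x0)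
  (PL.C (nat_lit 0x1a7582) (nat_lit 0x11562630ec00) (nat_lit 0x0) lm2_44))))))))))))))))))))

noncomputable def lm2_42 : PL :=
  (PL.C (nat_lit 0x170025) (nat_lit 0x0) (nat_lit 0x4d013cde7d00)
  (PL.C (nat_lit 0x170b55) (nat_lit 0x31bce5558600) (nat_lit 0x0)
  (PL.C (nat_lit 0x175629) (nat_lit 0x0) (nat_lit 0x4e7ce7f033b00)
  (PL.C (nat_lit 0x1761d7) (nat_lit 0x3e8656c1c800) (nat_lit 0x0)
  (PL.C (nat_lit 0x177309) (nat_lit 0x0) (nat_lit 0x496f17286200)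
  (PL.C (nat_lit 0x1774fc) (nat_lit 0x0) (nat_lit 0x287d981277100)
  (PL.C (nat_lit 0x17770b) (nat_lit 0x0) (nat_lit 0x252272718cc00)
  (PL.C (nat_lit 0x177776) (nat_lit 0x0) (nat_lit 0x1748adfd900)
  (PL.C (nat_lit 0x17d419) (nat_lit 0x0) (nat_lit 0x3fa5d6928400)
  (PL.C (nat_lit 0x17d6a3) (nat_lit 0x91be029f06300) (nat_lit 0x0)
  (PL.C (nat_lit 0x17e3d7) (nat_lit 0x0) (nat_lit 0x1435ef6b22ed00)
  (PL.C (nat_lit 0x17ecae) (nat_lit 0x0) (nat_lit 0x77edc39e3580)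
  (PL.C (nat_lit 0x1806ad) (nat_lit 0x0) (nat_lit 0x535a2ecc990400)
  (PL.C (nat_lit 0x180ea6) (nat_lit 0x0) (nat_lit 0x184f944a4ba00)
  (PL.C (nat_lit 0x1825f5) (nat_lit 0x0) (nat_lit 0x13fa158a616b80)
  (PL.C (nat_lit 0x18320b) (nat_lit 0x0) (nat_lit 0x170ca0f5e17800)
  (PL.C (nat_lit 0x183fdb) (nat_lit 0x0) (nat_lit 0x496f17286200)
  (PL.C (nat_lit 0x1843aa) (nat_lit 0x0) (nat_lit 0xc08abedcc800)
  (PL.C (nat_lit 0x184df9) (nat_lit 0x0) (nat_lit 0x9a52a690c0200)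
  (PL.C (nat_lit 0x18675d) (nat_lit 0x0) (nat_lit 0x348e937ee5cc00) lm2_43))))))))))))))))))))

noncomputable def lm2_41 : PL :=
  (PL.C (nat_lit 0x15a65e) (nat_lit 0x0) (nat_lit 0x11ca03392e2800)
  (PL.C (nat_lit 0x15c0f7) (nat_lit 0x0) (nat_lit 0x4ec94d59f8980)
  (PL.C (nat_lit 0x15c28e) (nat_lit 0x0) (nat_lit 0xc08abedcc800)
  (PL.C (nat_lit 0x15cd72) (nat_lit 0x5c69423d600) (nat_lit 0x0)
  (PL.C (nat_lit 0x15f282) (nat_lit 0x0) (nat_lit 0x184f944a4ba00)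
  (PL.C (nat_lit 0x15fbd5) (nat_lit 0x0) (nat_lit 0x16fac78fdaee00)
  (PL.C (nat_lit 0x15fd7e) (nat_lit 0x16c0f23b8980) (nat_lit 0x0)
  (PL.C (nat_lit 0x16020b) (nat_lit 0x0) (nat_lit 0x1c4da9e9c7900)
  (PL.C (nat_lit 0x160a5b) (nat_lit 0x99a0c432ca400) (nat_lit 0x0)
  (PL.C (nat_lit 0x161acf) (nat_lit 0x0) (nat_lit 0xf2db99eebe800)
  (PL.C (nat_lit 0x163a5a) (nat_lit 0x0) (nat_lit 0x15ed63e563500)
  (PL.C (nat_lit 0x164509) (nat_lit 0x1bd5df52ce900) (nat_lit 0x0)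
  (PL.C (nat_lit 0x165d62) (nat_lit 0xc08abedcc800) (nat_lit 0x0)
  (PL.C (nat_lit 0x166b56) (nat_lit 0x9ee5cb719d00) (nat_lit 0x0)
  (PL.C (nat_lit 0x167d4c) (nat_lit 0x0) (nat_lit 0x287d981277100)
  (PL.C (nat_lit 0x1682ab) (nat_lit 0x1d69535c62580) (nat_lit 0x0)
  (PL.C (nat_lit 0x16a613) (nat_lit 0x7df3ba8800) (nat_lit 0x0)
  (PL.C (nat_lit 0x16a962) (nat_lit 0x0) (nat_lit 0x22007f3c42800)
  (PL.C (nat_lit 0x16da86) (nat_lit 0x35a850d6eb00) (nat_lit 0x0)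
  (PL.C (nat_lit 0x16dfa3) (nat_lit 0x0) (nat_lit 0x19ac69cef4800) lm2_42))))))))))))))))))))

noncomputable def lm2_40 : PL :=
  (PL.C (nat_lit 0x13f56a) (nat_lit 0x1748adfd900) (nat_lit 0x0)
  (PL.C (nat_lit 0x13f7d1) (nat_lit 0x374a74e0d800) (nat_lit 0x0)
  (PL.C (nat_lit 0x142881) (nat_lit 0x168962961a980) (nat_lit 0x0)
  (PL.C (nat_lit 0x142bf3) (nat_lit 0x1c7c0cb04100) (nat_lit 0x0)
  (PL.C (nat_lit 0x144821) (nat_lit 0x0) (nat_lit 0x535a2ecc990400)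
  (PL.C (nat_lit 0x146026) (nat_lit 0x0) (nat_lit 0x2746812883b00)
  (PL.C (nat_lit 0x146289) (nat_lit 0x0) (nat_lit 0x5f03208d6d00)
  (PL.C (nat_lit 0x146e96) (nat_lit 0x3b254eb2a80) (nat_lit 0x0)
  (PL.C (nat_lit 0x149c82) (nat_lit 0x0) (nat_lit 0x3204dd74c3b80)
  (PL.C (nat_lit 0x149fee) (nat_lit 0x0) (nat_lit 0x1f1e3759500)
  (PL.C (nat_lit 0x14a722) (nat_lit 0x0) (nat_lit 0x18f38584d6b80)
  (PL.C (nat_lit 0x14c9ee) (nat_lit 0x0) (nat_lit 0x3204dd74c3b80)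
  (PL.C (nat_lit 0x14d2c3) (nat_lit 0x0) (nat_lit 0x10d44f49ae6000)
  (PL.C (nat_lit 0x14dbda) (nat_lit 0xb33c9f3dd80) (nat_lit 0x0)
  (PL.C (nat_lit 0x14f46f) (nat_lit 0x0) (nat_lit 0x1435ef6b22ed00)
  (PL.C (nat_lit 0x15117a) (nat_lit 0x0) (nat_lit 0x18f38584d6b80)
  (PL.C (nat_lit 0x155d1b) (nat_lit 0x0) (nat_lit 0x5f03208d6d00)
  (PL.C (nat_lit 0x155ee9) (nat_lit 0x504a87afb00) (nat_lit 0x0)
  (PL.C (nat_lit 0x1587a5) (nat_lit 0x0) (nat_lit 0x1ea7d6d7953700)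
  (PL.C (nat_lit 0x15a3ad) (nat_lit 0x0) (nat_lit 0xc64736a01b00) lm2_41))))))))))))))))))))

noncomputable def lm2_39 : PL :=
  (PL.C (nat_lit 0x125d13) (nat_lit 0x0) (nat_lit 0x4ec94d59f8980)
  (PL.C (nat_lit 0x125d83) (nat_lit 0x0) (nat_lit 0x3d7607199f780)
  (PL.C (nat_lit 0x126e0e) (nat_lit 0x0) (nat_lit 0x14cf3c216f900)
  (PL.C (nat_lit 0x1281d2) (nat_lit 0xc08abedcc800) (nat_lit 0x0)
  (PL.C (nat_lit 0x129b07) (nat_lit 0x0) (nat_lit 0x164287cf4380)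
  (PL.C (nat_lit 0x12ce85) (nat_lit 0x22980d4a5a700) (nat_lit 0x0)
  (PL.C (nat_lit 0x12ddf2) (nat_lit 0x0) (nat_lit 0x683a4145b800)
  (PL.C (nat_lit 0x12e5b2) (nat_lit 0x0) (nat_lit 0x5c69423d600)
  (PL.C (nat_lit 0x12f22e) (nat_lit 0x0) (nat_lit 0x4c225694ee80)
  (PL.C (nat_lit 0x130097) (nat_lit 0x24c8b8fe571080) (nat_lit 0x0)
  (PL.C (nat_lit 0x1324e3) (nat_lit 0x0) (nat_lit 0xc64736a01b00)
  (PL.C (nat_lit 0x1339d2) (nat_lit 0x0) (nat_lit 0xb33c9f3dd80)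
  (PL.C (nat_lit 0x136e4b) (nat_lit 0x0) (nat_lit 0x9e10520fea00)
  (PL.C (nat_lit 0x1384b9) (nat_lit 0x0) (nat_lit 0x3146368334400)
  (PL.C (nat_lit 0x138c33) (nat_lit 0x233c4db64200) (nat_lit 0x0)
  (PL.C (nat_lit 0x13991d) (nat_lit 0x0) (nat_lit 0x4d013cde7d00)
  (PL.C (nat_lit 0x13a9cb) (nat_lit 0x1a6fc70b52600) (nat_lit 0x0)
  (PL.C (nat_lit 0x13c023) (nat_lit 0x314e15bedcc00) (nat_lit 0x0)
  (PL.C (nat_lit 0x13c5bd) (nat_lit 0x72db6b15e00) (nat_lit 0x0)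
  (PL.C (nat_lit 0x13dc52) (nat_lit 0x0) (nat_lit 0x2ab5a127fe800) lm2_40))))))))))))))))))))

noncomputable def lm2_38 : PL :=
  (PL.C (nat_lit 0x111f7a) (nat_lit 0x0) (nat_lit 0x4cecebab60b00)
  (PL.C (nat_lit 0x11333e) (nat_lit 0x0) (nat_lit 0x14cf3c216f900)
  (PL.C (nat_lit 0x113f6e) (nat_lit 0xbbe6a61b500) (nat_lit 0x0)
  (PL.C (nat_lit 0x114536) (nat_lit 0x0) (nat_lit 0x4cecebab60b00)
  (PL.C (nat_lit 0x115439) (nat_lit 0x0) (nat_lit 0x4453d6e66e00)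
  (PL.C (nat_lit 0x116f2a) (nat_lit 0x0) (nat_lit 0x17be820362880)
  (PL.C (nat_lit 0x117326) (nat_lit 0x268fb3799af00) (nat_lit 0x0)
  (PL.C (nat_lit 0x117502) (nat_lit 0x0) (nat_lit 0x5b37f7c399400)
  (PL.C (nat_lit 0x117c87) (nat_lit 0x0) (nat_lit 0x164287cf4380)
  (PL.C (nat_lit 0x11a3ac) (nat_lit 0x10de9b277b00) (nat_lit 0x0)
  (PL.C (nat_lit 0x11a795) (nat_lit 0x0) (nat_lit 0xea352f88a2d00)
  (PL.C (nat_lit 0x11b06b) (nat_lit 0x0) (nat_lit 0xf15021880500)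
  (PL.C (nat_lit 0x11b7f2) (nat_lit 0x1b967aa6dc00) (nat_lit 0x0)
  (PL.C (nat_lit 0x11b924) (nat_lit 0x0) (nat_lit 0xf16d23de9900)
  (PL.C (nat_lit 0x11cc66) (nat_lit 0x85f89f4c4780) (nat_lit 0x0)
  (PL.C (nat_lit 0x11defe) (nat_lit 0x4224135bd000) (nat_lit 0x0)
  (PL.C (nat_lit 0x1208c7) (nat_lit 0x0) (nat_lit 0x13fa158a616b80)
  (PL.C (nat_lit 0x120a4d) (nat_lit 0x504a87afb00) (nat_lit 0x0)
  (PL.C (nat_lit 0x121059) (nat_lit 0x4d013cde7d00) (nat_lit 0x0)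
  (PL.C (nat_lit 0x1232b1) (nat_lit 0x0) (nat_lit 0x77ca96f9000) lm2_39))))))))))))))))))))

noncomputable def lm2_37 : PL :=
  (PL.C (nat_lit 0xfab6f) (nat_lit 0x314e15bedcc00) (nat_lit 0x0)
  (PL.C (nat_lit 0xfed3a) (nat_lit 0x0) (nat_lit 0x9feb1c2074a00)
  (PL.C (nat_lit 0xff801) (nat_lit 0x0) (nat_lit 0x3146368334400)
  (PL.C (nat_lit 0xfffff) (nat_lit 0x408c790b900) (nat_lit 0x0)
  (PL.C (nat_lit 0x1009c4) (nat_lit 0x0) (nat_lit 0x512cb785f3600)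
  (PL.C (nat_lit 0x100a91) (nat_lit 0x0) (nat_lit 0x11f22c6aa7680)
  (PL.C (nat_lit 0x10194e) (nat_lit 0x0) (nat_lit 0x520e21cf18000)
  (PL.C (nat_lit 0x102a92) (nat_lit 0x0) (nat_lit 0x85251bcc0680)
  (PL.C (nat_lit 0x102d1c) (nat_lit 0x0) (nat_lit 0x287d981277100)
  (PL.C (nat_lit 0x104feb) (nat_lit 0x5225b3978800) (nat_lit 0x0)
  (PL.C (nat_lit 0x105815) (nat_lit 0x22f60794a000) (nat_lit 0x0)
  (PL.C (nat_lit 0x10750b) (nat_lit 0x0) (nat_lit 0xf7847efccb00)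
  (PL.C (nat_lit 0x10a88f) (nat_lit 0x0) (nat_lit 0x40dd852f000)
  (PL.C (nat_lit 0x10a9b9) (nat_lit 0x1480ad1194e00) (nat_lit 0x0)
  (PL.C (nat_lit 0x10b903) (nat_lit 0x0) (nat_lit 0x8578fd7a4b200)
  (PL.C (nat_lit 0x10cddb) (nat_lit 0x0) (nat_lit 0x2a5839f2ebb00)
  (PL.C (nat_lit 0x10d8f5) (nat_lit 0x2099b17f600) (nat_lit 0x0)
  (PL.C (nat_lit 0x10deca) (nat_lit 0x0) (nat_lit 0x9e73c764800)
  (PL.C (nat_lit 0x110445) (nat_lit 0x0) (nat_lit 0x7646a9b0bb00)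
  (PL.C (nat_lit 0x111142) (nat_lit 0x268fb3799af00) (nat_lit 0x0) lm2_38))))))))))))))))))))

noncomputable def lm2_36 : PL :=
  (PL.C (nat_lit 0xeb192) (nat_lit 0x0) (nat_lit 0xcf95fbac9bb00)
  (PL.C (nat_lit 0xebc8a) (nat_lit 0x0) (nat_lit 0x5b37f7c399400)
  (PL.C (nat_lit 0xec2e3) (nat_lit 0x99a0c432ca400) (nat_lit 0x0)
  (PL.C (nat_lit 0xed61b) (nat_lit 0x0) (nat_lit 0x4d013cde7d00)
  (PL.C (nat_lit 0xee8ec) (nat_lit 0x287d981277100) (nat_lit 0x0)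
  (PL.C (nat_lit 0xef6cd) (nat_lit 0x0) (nat_lit 0x9e10520fea00)
  (PL.C (nat_lit 0xf0c9f) (nat_lit 0x22980d4a5a700) (nat_lit 0x0)
  (PL.C (nat_lit 0xf1962) (nat_lit 0x0) (nat_lit 0x1f1e3759500)
  (PL.C (nat_lit 0xf2037) (nat_lit 0x0) (nat_lit 0x8578fd7a4b200)
  (PL.C (nat_lit 0xf27c9) (nat_lit 0x151519a525b00) (nat_lit 0x0)
  (PL.C (nat_lit 0xf2f99) (nat_lit 0x3a12d7dff100) (nat_lit 0x0)
  (PL.C (nat_lit 0xf3fc2) (nat_lit 0x0) (nat_lit 0xb92607de25d80)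
  (PL.C (nat_lit 0xf492f) (nat_lit 0x0) (nat_lit 0x249c5b23a200)
  (PL.C (nat_lit 0xf556e) (nat_lit 0x0) (nat_lit 0x4c225694ee80)
  (PL.C (nat_lit 0xf737d) (nat_lit 0x0) (nat_lit 0x19ac69cef4800)
  (PL.C (nat_lit 0xf80cf) (nat_lit 0x0) (nat_lit 0x6e738835563200)
  (PL.C (nat_lit 0xf8751) (nat_lit 0x0) (nat_lit 0x2099b17f600)
  (PL.C (nat_lit 0xf8ec6) (nat_lit 0x0) (nat_lit 0x2746812883b00)
  (PL.C (nat_lit 0xfa206) (nat_lit 0x0) (nat_lit 0x85251bcc0680)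
  (PL.C (nat_lit 0xfa4b2) (nat_lit 0x0) (nat_lit 0x230ae657d1400) lm2_37))))))))))))))))))))

noncomputable def lm2_35 : PL :=
  (PL.C (nat_lit 0xd9bb1) (nat_lit 0x0) (nat_lit 0x408c790b900)
  (PL.C (nat_lit 0xdb00f) (nat_lit 0x0) (nat_lit 0xa1346036b7900)
  (PL.C (nat_lit 0xdbdac) (nat_lit 0x0) (nat_lit 0x2a37d51ab4680)
  (PL.C (nat_lit 0xdbff4) (nat_lit 0x0) (nat_lit 0x18c3b082a00)
  (PL.C (nat_lit 0xdce39) (nat_lit 0x0) (nat_lit 0xa1346036b7900)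
  (PL.C (nat_lit 0xddbf4) (nat_lit 0x0) (nat_lit 0x2a37d51ab4680)
  (PL.C (nat_lit 0xde477) (nat_lit 0x0) (nat_lit 0x14340f38c0b400)
  (PL.C (nat_lit 0xdee4f) (nat_lit 0x72db6b15e00) (nat_lit 0x0)
  (PL.C (nat_lit 0xdf84a) (nat_lit 0x0) (nat_lit 0x9feb1c2074a00)
  (PL.C (nat_lit 0xe05d3) (nat_lit 0x0) (nat_lit 0x4dacf266d72780)
  (PL.C (nat_lit 0xe14dd) (nat_lit 0x0) (nat_lit 0x7646a9b0bb00)
  (PL.C (nat_lit 0xe3e12) (nat_lit 0x1837742ba4080) (nat_lit 0x0)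
  (PL.C (nat_lit 0xe3f46) (nat_lit 0x291ff503500) (nat_lit 0x0)
  (PL.C (nat_lit 0xe53d1) (nat_lit 0x0) (nat_lit 0x2470fea6c7800)
  (PL.C (nat_lit 0xe5a6e) (nat_lit 0x1173ec16cb9d00) (nat_lit 0x0)
  (PL.C (nat_lit 0xe602b) (nat_lit 0xbea401ac8f00) (nat_lit 0x0)
  (PL.C (nat_lit 0xe6d1e) (nat_lit 0x0) (nat_lit 0xc46e85c7f200)
  (PL.C (nat_lit 0xe81b4) (nat_lit 0x0) (nat_lit 0x287d981277100)
  (PL.C (nat_lit 0xea0dd) (nat_lit 0x3b8b4ebe7e80) (nat_lit 0x0)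
  (PL.C (nat_lit 0xea1ac) (nat_lit 0x0) (nat_lit 0x512cb785f3600) lm2_36))))))))))))))))))))

noncomputable def lm2_34 : PL :=
  (PL.C (nat_lit 0xcdd25) (nat_lit 0x0) (nat_lit 0x725744a364800)
  (PL.C (nat_lit 0xcefe7) (nat_lit 0x0) (nat_lit 0x425fc2e2bb4080)
  (PL.C (nat_lit 0xcf432) (nat_lit 0x0) (nat_lit 0x9aeba8185900)
  (PL.C (nat_lit 0xcf93f) (nat_lit 0x8b92023f780) (nat_lit 0x0)
  (PL.C (nat_lit 0xd00bf) (nat_lit 0x0) (nat_lit 0x7dd6977f23080)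
  (PL.C (nat_lit 0xd0326) (nat_lit 0x0) (nat_lit 0x309d48fbf2f00)
  (PL.C (nat_lit 0xd0741) (nat_lit 0x0) (nat_lit 0xd2497dd5a9000)
  (PL.C (nat_lit 0xd0822) (nat_lit 0x35a850d6eb00) (nat_lit 0x0)
  (PL.C (nat_lit 0xd0eb1) (nat_lit 0x0) (nat_lit 0x1f0ba258f4400)
  (PL.C (nat_lit 0xd10be) (nat_lit 0x0) (nat_lit 0x4c225694ee80)
  (PL.C (nat_lit 0xd164b) (nat_lit 0x0) (nat_lit 0x4dacf266d72780)
  (PL.C (nat_lit 0xd23f7) (nat_lit 0x0) (nat_lit 0xd2497dd5a9000)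
  (PL.C (nat_lit 0xd2ac2) (nat_lit 0x307e2ac499a00) (nat_lit 0x0)
  (PL.C (nat_lit 0xd2e7e) (nat_lit 0x59d52731c80) (nat_lit 0x0)
  (PL.C (nat_lit 0xd3d8c) (nat_lit 0x0) (nat_lit 0x9e6340656de00)
  (PL.C (nat_lit 0xd4855) (nat_lit 0x0) (nat_lit 0x3f2a8edb079080)
  (PL.C (nat_lit 0xd7056) (nat_lit 0x6509e9846900) (nat_lit 0x0)
  (PL.C (nat_lit 0xd72a2) (nat_lit 0x24adf2bf3780) (nat_lit 0x0)
  (PL.C (nat_lit 0xd8a95) (nat_lit 0x0) (nat_lit 0x11f22c6aa7680)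
  (PL.C (nat_lit 0xd9706) (nat_lit 0x1837742ba4080) (nat_lit 0x0) lm2_35))))))))))))))))))))

noncomputable def lm2_33 : PL :=
  (PL.C (nat_lit 0xbcaf2) (nat_lit 0x0) (nat_lit 0x683a4145b800)
  (PL.C (nat_lit 0xbd65f) (nat_lit 0x0) (nat_lit 0x6e738835563200)
  (PL.C (nat_lit 0xbde31) (nat_lit 0x7f2abe5bdb880) (nat_lit 0x0)
  (PL.C (nat_lit 0xbe311) (nat_lit 0x168962961a980) (nat_lit 0x0)
  (PL.C (nat_lit 0xbe70d) (nat_lit 0x0) (nat_lit 0x157e0e9106fd00)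
  (PL.C (nat_lit 0xc05da) (nat_lit 0x0) (nat_lit 0x520e21cf18000)
  (PL.C (nat_lit 0xc06de) (nat_lit 0x291ff503500) (nat_lit 0x0)
  (PL.C (nat_lit 0xc0ae6) (nat_lit 0x4c225694ee80) (nat_lit 0x0)
  (PL.C (nat_lit 0xc5109) (nat_lit 0x7c903acfc5f00) (nat_lit 0x0)
  (PL.C (nat_lit 0xc568c) (nat_lit 0x287d981277100) (nat_lit 0x0)
  (PL.C (nat_lit 0xc675a) (nat_lit 0x0) (nat_lit 0x5f75b97058800)
  (PL.C (nat_lit 0xc89ae) (nat_lit 0x0) (nat_lit 0x43687f2c00d00)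
  (PL.C (nat_lit 0xc90db) (nat_lit 0x0) (nat_lit 0x14340f38c0b400)
  (PL.C (nat_lit 0xc9725) (nat_lit 0x1bd5df52ce900) (nat_lit 0x0)
  (PL.C (nat_lit 0xc9e55) (nat_lit 0x4d013cde7d00) (nat_lit 0x0)
  (PL.C (nat_lit 0xca174) (nat_lit 0x0) (nat_lit 0xf4e7032fb180)
  (PL.C (nat_lit 0xcc342) (nat_lit 0x0) (nat_lit 0xc46e85c7f200)
  (PL.C (nat_lit 0xcd1bd) (nat_lit 0x4bbae82c080) (nat_lit 0x0)
  (PL.C (nat_lit 0xcd4ab) (nat_lit 0x0) (nat_lit 0x1c4da9e9c7900)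
  (PL.C (nat_lit 0xcd609) (nat_lit 0x24c8b8fe571080) (nat_lit 0x0) lm2_34))))))))))))))))))))

noncomputable def lm2_32 : PL :=
  (PL.C (nat_lit 0xaa556) (nat_lit 0x0) (nat_lit 0x309d48fbf2f00)
  (PL.C (nat_lit 0xaa8a7) (nat_lit 0x0) (nat_lit 0x1f0ba258f4400)
  (PL.C (nat_lit 0xaaaaa) (nat_lit 0xb33c9f3dd80) (nat_lit 0x0)
  (PL.C (nat_lit 0xab1b6) (nat_lit 0x0) (nat_lit 0x12d7f6f3ee500)
  (PL.C (nat_lit 0xac70c) (nat_lit 0x0) (nat_lit 0xea55e6588280)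
  (PL.C (nat_lit 0xad5ed) (nat_lit 0x1d69535c62580) (nat_lit 0x0)
  (PL.C (nat_lit 0xadff2) (nat_lit 0x85f89f4c4780) (nat_lit 0x0)
  (PL.C (nat_lit 0xaebc3) (nat_lit 0x0) (nat_lit 0xe779034fd71500)
  (PL.C (nat_lit 0xaf8b2) (nat_lit 0x0) (nat_lit 0x73f8aba76d00)
  (PL.C (nat_lit 0xaf9fb) (nat_lit 0x0) (nat_lit 0xe558bcfb04500)
  (PL.C (nat_lit 0xb1b0a) (nat_lit 0x0) (nat_lit 0x2a6faee7c00)
  (PL.C (nat_lit 0xb2602) (nat_lit 0x0) (nat_lit 0x14512b11630a00)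
  (PL.C (nat_lit 0xb3669) (nat_lit 0x0) (nat_lit 0x3f2a8edb079080)
  (PL.C (nat_lit 0xb3b4e) (nat_lit 0x454ef1ae080) (nat_lit 0x0)
  (PL.C (nat_lit 0xb582e) (nat_lit 0x0) (nat_lit 0xcc692bfc1c580)
  (PL.C (nat_lit 0xb80a1) (nat_lit 0x1c7c0cb04100) (nat_lit 0x0)
  (PL.C (nat_lit 0xb97cf) (nat_lit 0x0) (nat_lit 0x3c68e6f0a03f80)
  (PL.C (nat_lit 0xba6e7) (nat_lit 0x0) (nat_lit 0x510f15316d00)
  (PL.C (nat_lit 0xba85a) (nat_lit 0x0) (nat_lit 0x5f75b97058800)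
  (PL.C (nat_lit 0xbc50e) (nat_lit 0x0) (nat_lit 0xe74ae2a685000) lm2_33))))))))))))))))))))

noncomputable def lm2_31 : PL :=
  (PL.C (nat_lit 0xa086a) (nat_lit 0x0) (nat_lit 0x43687f2c00d00)
  (PL.C (nat_lit 0xa10ec) (nat_lit 0x0) (nat_lit 0x18c3b082a00)
  (PL.C (nat_lit 0xa157a) (nat_lit 0x0) (nat_lit 0x14512b11630a00)
  (PL.C (nat_lit 0xa1a86) (nat_lit 0x4224135bd000) (nat_lit 0x0)
  (PL.C (nat_lit 0xa206f) (nat_lit 0x4d3888a015a00) (nat_lit 0x0)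
  (PL.C (nat_lit 0xa30ca) (nat_lit 0x1b967aa6dc00) (nat_lit 0x0)
  (PL.C (nat_lit 0xa38f4) (nat_lit 0x0) (nat_lit 0xf4e7032fb180)
  (PL.C (nat_lit 0xa3b65) (nat_lit 0xc45a687b1ec00) (nat_lit 0x0)
  (PL.C (nat_lit 0xa4b7d) (nat_lit 0x0) (nat_lit 0x40dd852f000)
  (PL.C (nat_lit 0xa4cfe) (nat_lit 0x0) (nat_lit 0xb92607de25d80)
  (PL.C (nat_lit 0xa5a36) (nat_lit 0x0) (nat_lit 0x454ef1ae080)
  (PL.C (nat_lit 0xa6377) (nat_lit 0x0) (nat_lit 0xbded25187a600)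
  (PL.C (nat_lit 0xa6c04) (nat_lit 0x0) (nat_lit 0xea55e6588280)
  (PL.C (nat_lit 0xa6dcc) (nat_lit 0x0) (nat_lit 0x6753ea808e00)
  (PL.C (nat_lit 0xa6f35) (nat_lit 0x0) (nat_lit 0x128ff85c93c00)
  (PL.C (nat_lit 0xa724a) (nat_lit 0x307e2ac499a00) (nat_lit 0x0)
  (PL.C (nat_lit 0xa828b) (nat_lit 0x0) (nat_lit 0x2630d5df58f00)
  (PL.C (nat_lit 0xa9681) (nat_lit 0x7610bc3bf400) (nat_lit 0x0)
  (PL.C (nat_lit 0xa9b87) (nat_lit 0x0) (nat_lit 0xf7847efccb00)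
  (PL.C (nat_lit 0xaa289) (nat_lit 0x25eff85a29f00) (nat_lit 0x0) lm2_32))))))))))))))))))))

noncomputable def lm2_30 : PL :=
  (PL.C (nat_lit 0x942fa) (nat_lit 0x0) (nat_lit 0xa026416f27480)
  (PL.C (nat_lit 0x9498a) (nat_lit 0x59d52731c80) (nat_lit 0x0)
  (PL.C (nat_lit 0x9633e) (nat_lit 0x0) (nat_lit 0xcc692bfc1c580)
  (PL.C (nat_lit 0x9713d) (nat_lit 0x0) (nat_lit 0x5fd5459400)
  (PL.C (nat_lit 0x97f84) (nat_lit 0x45e076de700) (nat_lit 0x0)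
  (PL.C (nat_lit 0x9819f) (nat_lit 0x0) (nat_lit 0x624f5855dac00)
  (PL.C (nat_lit 0x98661) (nat_lit 0x0) (nat_lit 0x725744a364800)
  (PL.C (nat_lit 0x98bd1) (nat_lit 0x0) (nat_lit 0x128ff85c93c00)
  (PL.C (nat_lit 0x98d36) (nat_lit 0x0) (nat_lit 0x5a859178e7100)
  (PL.C (nat_lit 0x99572) (nat_lit 0x104fe945edd80) (nat_lit 0x0)
  (PL.C (nat_lit 0x99e14) (nat_lit 0x0) (nat_lit 0x28af1f737c500)
  (PL.C (nat_lit 0x9b5f5) (nat_lit 0x0) (nat_lit 0xe558bcfb04500)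
  (PL.C (nat_lit 0x9b6c7) (nat_lit 0xe67560db800) (nat_lit 0x0)
  (PL.C (nat_lit 0x9c94b) (nat_lit 0x0) (nat_lit 0x3c68e6f0a03f80)
  (PL.C (nat_lit 0x9d742) (nat_lit 0x0) (nat_lit 0xcf95fbac9bb00)
  (PL.C (nat_lit 0x9e359) (nat_lit 0x0) (nat_lit 0x1263f6a76db00)
  (PL.C (nat_lit 0x9e412) (nat_lit 0x0) (nat_lit 0x4c225694ee80)
  (PL.C (nat_lit 0x9f9de) (nat_lit 0x0) (nat_lit 0x9aeba8185900)
  (PL.C (nat_lit 0x9fe1b) (nat_lit 0x0) (nat_lit 0x3d7607199f780)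
  (PL.C (nat_lit 0xa04b5) (nat_lit 0x0) (nat_lit 0x7e4601658180) lm2_31))))))))))))))))))))

noncomputable def lm2_29 : PL :=
  (PL.C (nat_lit 0x88c6b) (nat_lit 0x196c363d4f300) (nat_lit 0x0)
  (PL.C (nat_lit 0x8936e) (nat_lit 0x0) (nat_lit 0x37e2380b82980)
  (PL.C (nat_lit 0x89745) (nat_lit 0x8b92023f780) (nat_lit 0x0)
  (PL.C (nat_lit 0x8a2cc) (nat_lit 0x0) (nat_lit 0x1e663e025e000)
  (PL.C (nat_lit 0x8a62a) (nat_lit 0x2e89914f2380) (nat_lit 0x0)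
  (PL.C (nat_lit 0x8ab2a) (nat_lit 0x0) (nat_lit 0x296654c994e00)
  (PL.C (nat_lit 0x8acc4) (nat_lit 0x0) (nat_lit 0xa33578e619e00)
  (PL.C (nat_lit 0x8b3ad) (nat_lit 0x0) (nat_lit 0x510f15316d00)
  (PL.C (nat_lit 0x8b476) (nat_lit 0x0) (nat_lit 0x2517064831300)
  (PL.C (nat_lit 0x8b5d4) (nat_lit 0x0) (nat_lit 0xf4e7032fb180)
  (PL.C (nat_lit 0x8c72c) (nat_lit 0xa31cb53597400) (nat_lit 0x0)
  (PL.C (nat_lit 0x8f84d) (nat_lit 0x5e76cbe6000) (nat_lit 0x0)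
  (PL.C (nat_lit 0x90129) (nat_lit 0x3a03c22223100) (nat_lit 0x0)
  (PL.C (nat_lit 0x9070e) (nat_lit 0x0) (nat_lit 0x12d7f6f3ee500)
  (PL.C (nat_lit 0x91276) (nat_lit 0x0) (nat_lit 0xb33c9f3dd80)
  (PL.C (nat_lit 0x91317) (nat_lit 0x17800d8137e80) (nat_lit 0x0)
  (PL.C (nat_lit 0x9200a) (nat_lit 0x0) (nat_lit 0xf1d513de16d00)
  (PL.C (nat_lit 0x929af) (nat_lit 0x8111ef2547e80) (nat_lit 0x0)
  (PL.C (nat_lit 0x93426) (nat_lit 0x0) (nat_lit 0xf1d513de16d00)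
  (PL.C (nat_lit 0x9380f) (nat_lit 0x0) (nat_lit 0x425fc2e2bb4080) lm2_30))))))))))))))))))))

noncomputable def lm2_28 : PL :=
  (PL.C (nat_lit 0x7ab16) (nat_lit 0x24adf2bf3780) (nat_lit 0x0)
  (PL.C (nat_lit 0x7ba8a) (nat_lit 0x0) (nat_lit 0x694343d46bc00)
  (PL.C (nat_lit 0x7bda1) (nat_lit 0x808d4877e100) (nat_lit 0x0)
  (PL.C (nat_lit 0x7c49a) (nat_lit 0x0) (nat_lit 0x4ec951836a80)
  (PL.C (nat_lit 0x7d8b4) (nat_lit 0x0) (nat_lit 0x160634b9fe6f00)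
  (PL.C (nat_lit 0x7e183) (nat_lit 0x0) (nat_lit 0x5fd5459400)
  (PL.C (nat_lit 0x7e976) (nat_lit 0x0) (nat_lit 0x1ab553e417e00)
  (PL.C (nat_lit 0x7ecb6) (nat_lit 0x6509e9846900) (nat_lit 0x0)
  (PL.C (nat_lit 0x7ef5e) (nat_lit 0x0) (nat_lit 0xa51dbcb122c00)
  (PL.C (nat_lit 0x7f2c9) (nat_lit 0x0) (nat_lit 0x7e4601658180)
  (PL.C (nat_lit 0x80494) (nat_lit 0x45e076de700) (nat_lit 0x0)
  (PL.C (nat_lit 0x8065b) (nat_lit 0x0) (nat_lit 0x624f5855dac00)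
  (PL.C (nat_lit 0x80744) (nat_lit 0xf4e7032fb180) (nat_lit 0x0)
  (PL.C (nat_lit 0x81a7d) (nat_lit 0x196c363d4f300) (nat_lit 0x0)
  (PL.C (nat_lit 0x83289) (nat_lit 0x0) (nat_lit 0x7dd6977f23080)
  (PL.C (nat_lit 0x83606) (nat_lit 0xa68718c46580) (nat_lit 0x0)
  (PL.C (nat_lit 0x8590d) (nat_lit 0x0) (nat_lit 0x1c7db780e77d00)
  (PL.C (nat_lit 0x86092) (nat_lit 0x0) (nat_lit 0xa026416f27480)
  (PL.C (nat_lit 0x8698e) (nat_lit 0x4c225694ee80) (nat_lit 0x0)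
  (PL.C (nat_lit 0x8822c) (nat_lit 0x0) (nat_lit 0x28af1f737c500) lm2_29))))))))))))))))))))

noncomputable def lm2_27 : PL :=
  (PL.C (nat_lit 0x7125a) (nat_lit 0x0) (nat_lit 0x73f8aba76d00)
  (PL.C (nat_lit 0x71706) (nat_lit 0x268e7ead54200) (nat_lit 0x0)
  (PL.C (nat_lit 0x718e4) (nat_lit 0x0) (nat_lit 0xa33578e619e00)
  (PL.C (nat_lit 0x71b1a) (nat_lit 0x0) (nat_lit 0x2517064831300)
  (PL.C (nat_lit 0x71f61) (nat_lit 0x25eff85a29f00) (nat_lit 0x0)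
  (PL.C (nat_lit 0x72124) (nat_lit 0x0) (nat_lit 0x3d9bb83d86280)
  (PL.C (nat_lit 0x7422f) (nat_lit 0x0) (nat_lit 0x2630d5df58f00)
  (PL.C (nat_lit 0x742f5) (nat_lit 0x17800d8137e80) (nat_lit 0x0)
  (PL.C (nat_lit 0x745d1) (nat_lit 0x2099b17f600) (nat_lit 0x0)
  (PL.C (nat_lit 0x74a9f) (nat_lit 0x0) (nat_lit 0x3f95e2d58100)
  (PL.C (nat_lit 0x75152) (nat_lit 0x63e896237a700) (nat_lit 0x0)
  (PL.C (nat_lit 0x75ecd) (nat_lit 0x0) (nat_lit 0xfa71847839800)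
  (PL.C (nat_lit 0x7674f) (nat_lit 0x0) (nat_lit 0x2493bf8d94cf00)
  (PL.C (nat_lit 0x7675c) (nat_lit 0x36a26398300) (nat_lit 0x0)
  (PL.C (nat_lit 0x76a25) (nat_lit 0xbea401ac8f00) (nat_lit 0x0)
  (PL.C (nat_lit 0x76ddb) (nat_lit 0x31bce5558600) (nat_lit 0x0)
  (PL.C (nat_lit 0x76eac) (nat_lit 0x0) (nat_lit 0xd8e23ac851180)
  (PL.C (nat_lit 0x76f0b) (nat_lit 0x0) (nat_lit 0x80eb405950680)
  (PL.C (nat_lit 0x77b05) (nat_lit 0x0) (nat_lit 0x72ca200e7a600)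
  (PL.C (nat_lit 0x792f7) (nat_lit 0x1a6fc70b52600) (nat_lit 0x0) lm2_28))))))))))))))))))))

noncomputable def lm2_26 : PL :=
  (PL.C (nat_lit 0x6a694) (nat_lit 0x0) (nat_lit 0x1e663e025e000)
  (PL.C (nat_lit 0x6a953) (nat_lit 0x0) (nat_lit 0x2519f364ce400)
  (PL.C (nat_lit 0x6adce) (nat_lit 0x0) (nat_lit 0x34ed2063b38580)
  (PL.C (nat_lit 0x6b253) (nat_lit 0x0) (nat_lit 0x2493bf8d94cf00)
  (PL.C (nat_lit 0x6b5ad) (nat_lit 0x7f2abe5bdb880) (nat_lit 0x0)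
  (PL.C (nat_lit 0x6b8fc) (nat_lit 0x0) (nat_lit 0xd8e23ac851180)
  (PL.C (nat_lit 0x6bb0b) (nat_lit 0x1289fb083a800) (nat_lit 0x0)
  (PL.C (nat_lit 0x6c04a) (nat_lit 0x0) (nat_lit 0x26b1f661b26f80)
  (PL.C (nat_lit 0x6d731) (nat_lit 0x4d3888a015a00) (nat_lit 0x0)
  (PL.C (nat_lit 0x6dcfe) (nat_lit 0x0) (nat_lit 0x2a6faee7c00)
  (PL.C (nat_lit 0x6e019) (nat_lit 0x3a03c22223100) (nat_lit 0x0)
  (PL.C (nat_lit 0x6e717) (nat_lit 0x3b8b4ebe7e80) (nat_lit 0x0)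
  (PL.C (nat_lit 0x6ecfa) (nat_lit 0x0) (nat_lit 0xbb7fdf1b77c00)
  (PL.C (nat_lit 0x6f4ce) (nat_lit 0x0) (nat_lit 0x1b9b47a6e2000)
  (PL.C (nat_lit 0x6f6dc) (nat_lit 0xa31cb53597400) (nat_lit 0x0)
  (PL.C (nat_lit 0x6f755) (nat_lit 0x0) (nat_lit 0x1030b6c7cea400)
  (PL.C (nat_lit 0x6fc5d) (nat_lit 0x0) (nat_lit 0x40485a8fda80)
  (PL.C (nat_lit 0x701b2) (nat_lit 0x0) (nat_lit 0x26b8ee5c3be00)
  (PL.C (nat_lit 0x705f3) (nat_lit 0x7c903acfc5f00) (nat_lit 0x0)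
  (PL.C (nat_lit 0x70c01) (nat_lit 0x0) (nat_lit 0x1ea3ff155ec500) lm2_27))))))))))))))))))))

noncomputable def lm2_25 : PL :=
  (PL.C (nat_lit 0x624a5) (nat_lit 0x0) (nat_lit 0x498fc152cca00)
  (PL.C (nat_lit 0x62f7f) (nat_lit 0x0) (nat_lit 0x2099b17f600)
  (PL.C (nat_lit 0x638c1) (nat_lit 0x0) (nat_lit 0x80eb405950680)
  (PL.C (nat_lit 0x63e0d) (nat_lit 0x0) (nat_lit 0x12982a1ea74980)
  (PL.C (nat_lit 0x64677) (nat_lit 0x0) (nat_lit 0xfa71847839800)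
  (PL.C (nat_lit 0x64b7e) (nat_lit 0xc81978b400) (nat_lit 0x0)
  (PL.C (nat_lit 0x6566a) (nat_lit 0x0) (nat_lit 0x64d321dc69100)
  (PL.C (nat_lit 0x657d5) (nat_lit 0x0) (nat_lit 0x202747cef98000)
  (PL.C (nat_lit 0x65996) (nat_lit 0x0) (nat_lit 0x37e2380b82980)
  (PL.C (nat_lit 0x65d36) (nat_lit 0x0) (nat_lit 0x1b9b47a6e2000)
  (PL.C (nat_lit 0x65e24) (nat_lit 0x0) (nat_lit 0x2677dafbd1a00)
  (PL.C (nat_lit 0x65fbd) (nat_lit 0x0) (nat_lit 0x1ea3ff155ec500)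
  (PL.C (nat_lit 0x663f3) (nat_lit 0x13dfd434cd680) (nat_lit 0x0)
  (PL.C (nat_lit 0x66693) (nat_lit 0x8111ef2547e80) (nat_lit 0x0)
  (PL.C (nat_lit 0x6794e) (nat_lit 0x63e896237a700) (nat_lit 0x0)
  (PL.C (nat_lit 0x679da) (nat_lit 0xce7dfc9c100) (nat_lit 0x0)
  (PL.C (nat_lit 0x68632) (nat_lit 0x0) (nat_lit 0x694343d46bc00)
  (PL.C (nat_lit 0x69549) (nat_lit 0x1289fb083a800) (nat_lit 0x0)
  (PL.C (nat_lit 0x6980c) (nat_lit 0x0) (nat_lit 0xf4e7032fb180)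
  (PL.C (nat_lit 0x69ac5) (nat_lit 0x0) (nat_lit 0x2519f364ce400) lm2_26))))))))))))))))))))

noncomputable def lm2_24 : PL :=
  (PL.C (nat_lit 0x5a8c1) (nat_lit 0x0) (nat_lit 0x7b80193a4700)
  (PL.C (nat_lit 0x5b2f2) (nat_lit 0x0) (nat_lit 0xaec572482100)
  (PL.C (nat_lit 0x5b635) (nat_lit 0x0) (nat_lit 0x72ca200e7a600)
  (PL.C (nat_lit 0x5b9fb) (nat_lit 0x816785f8a700) (nat_lit 0x0)
  (PL.C (nat_lit 0x5ba2e) (nat_lit 0x2e89914f2380) (nat_lit 0x0)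
  (PL.C (nat_lit 0x5c41c) (nat_lit 0x1acf1fd6c00) (nat_lit 0x0)
  (PL.C (nat_lit 0x5cd1e) (nat_lit 0x0) (nat_lit 0x4ec951836a80)
  (PL.C (nat_lit 0x5cda4) (nat_lit 0x0) (nat_lit 0x66e87282f1b00)
  (PL.C (nat_lit 0x5d3b3) (nat_lit 0x0) (nat_lit 0x4453d6e66e00)
  (PL.C (nat_lit 0x5d5a7) (nat_lit 0xc45a687b1ec00) (nat_lit 0x0)
  (PL.C (nat_lit 0x5e169) (nat_lit 0x0) (nat_lit 0x100b49fbde04800)
  (PL.C (nat_lit 0x5e911) (nat_lit 0x0) (nat_lit 0x38976fbc7f9a80)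
  (PL.C (nat_lit 0x5fade) (nat_lit 0x1327f2f9f600) (nat_lit 0x0)
  (PL.C (nat_lit 0x600c6) (nat_lit 0xa00a18ba00) (nat_lit 0x0)
  (PL.C (nat_lit 0x604b4) (nat_lit 0x0) (nat_lit 0x3d9bb83d86280)
  (PL.C (nat_lit 0x6099b) (nat_lit 0x0) (nat_lit 0x532ecd0d73a300)
  (PL.C (nat_lit 0x60cba) (nat_lit 0x6cb1bbcdd500) (nat_lit 0x0)
  (PL.C (nat_lit 0x6155c) (nat_lit 0x0) (nat_lit 0x115afe8669e100)
  (PL.C (nat_lit 0x61bca) (nat_lit 0x1ce6117f2100) (nat_lit 0x0)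
  (PL.C (nat_lit 0x622c4) (nat_lit 0x0) (nat_lit 0x115afe8669e100) lm2_25))))))))))))))))))))

noncomputable def lm2_23 : PL :=
  (PL.C (nat_lit 0x4ef8a) (nat_lit 0x0) (nat_lit 0x5519913ddafd80)
  (PL.C (nat_lit 0x4f16e) (nat_lit 0x104fe945edd80) (nat_lit 0x0)
  (PL.C (nat_lit 0x4f4b2) (nat_lit 0x0) (nat_lit 0x9ae70d671fa80)
  (PL.C (nat_lit 0x4f6cd) (nat_lit 0x0) (nat_lit 0x100b49fbde04800)
  (PL.C (nat_lit 0x4fcae) (nat_lit 0x0) (nat_lit 0x383c0d32b4600)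
  (PL.C (nat_lit 0x51597) (nat_lit 0x18ad5146c00) (nat_lit 0x0)
  (PL.C (nat_lit 0x52916) (nat_lit 0xb0c81ecd5180) (nat_lit 0x0)
  (PL.C (nat_lit 0x52dbc) (nat_lit 0x0) (nat_lit 0xf17cdcf62e80)
  (PL.C (nat_lit 0x54102) (nat_lit 0xc81978b400) (nat_lit 0x0)
  (PL.C (nat_lit 0x54501) (nat_lit 0x0) (nat_lit 0x93d35ba8cda300)
  (PL.C (nat_lit 0x54c86) (nat_lit 0x0) (nat_lit 0x34ed2063b38580)
  (PL.C (nat_lit 0x55992) (nat_lit 0x0) (nat_lit 0x64d321dc69100)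
  (PL.C (nat_lit 0x56171) (nat_lit 0x0) (nat_lit 0x1c7db780e77d00)
  (PL.C (nat_lit 0x5636d) (nat_lit 0x0) (nat_lit 0x498fc152cca00)
  (PL.C (nat_lit 0x564ff) (nat_lit 0x1f321240519980) (nat_lit 0x0)
  (PL.C (nat_lit 0x566fe) (nat_lit 0x0) (nat_lit 0xaec572482100)
  (PL.C (nat_lit 0x573ed) (nat_lit 0x1f72361b357900) (nat_lit 0x0)
  (PL.C (nat_lit 0x57706) (nat_lit 0x0) (nat_lit 0x296654c994e00)
  (PL.C (nat_lit 0x59805) (nat_lit 0x0) (nat_lit 0x500ce16383a80)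
  (PL.C (nat_lit 0x59bb4) (nat_lit 0xf4e7032fb180) (nat_lit 0x0) lm2_24))))))))))))))))))))

noncomputable def lm2_22 : PL :=
  (PL.C (nat_lit 0x48f76) (nat_lit 0x0) (nat_lit 0x26b1f661b26f80)
  (PL.C (nat_lit 0x49354) (nat_lit 0x36a26398300) (nat_lit 0x0)
  (PL.C (nat_lit 0x49566) (nat_lit 0xa00a18ba00) (nat_lit 0x0)
  (PL.C (nat_lit 0x49a61) (nat_lit 0x27f6afc842180) (nat_lit 0x0)
  (PL.C (nat_lit 0x49dfc) (nat_lit 0x0) (nat_lit 0xc0f2218801600)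
  (PL.C (nat_lit 0x4a334) (nat_lit 0x0) (nat_lit 0x46a3ba8c99300)
  (PL.C (nat_lit 0x4a83e) (nat_lit 0x0) (nat_lit 0x2ccd3390b780)
  (PL.C (nat_lit 0x4abcc) (nat_lit 0x0) (nat_lit 0x7ca92193eda00)
  (PL.C (nat_lit 0x4adf3) (nat_lit 0x5e76cbe6000) (nat_lit 0x0)
  (PL.C (nat_lit 0x4aea2) (nat_lit 0xa68718c46580) (nat_lit 0x0)
  (PL.C (nat_lit 0x4b8d9) (nat_lit 0x0) (nat_lit 0x500ce16383a80)
  (PL.C (nat_lit 0x4ba04) (nat_lit 0x7cdfc3f785d00) (nat_lit 0x0)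
  (PL.C (nat_lit 0x4bcbc) (nat_lit 0x0) (nat_lit 0x66e87282f1b00)
  (PL.C (nat_lit 0x4bf96) (nat_lit 0x268e7ead54200) (nat_lit 0x0)
  (PL.C (nat_lit 0x4d6ca) (nat_lit 0x0) (nat_lit 0x26b8ee5c3be00)
  (PL.C (nat_lit 0x4d74e) (nat_lit 0x6cb1bbcdd500) (nat_lit 0x0)
  (PL.C (nat_lit 0x4d936) (nat_lit 0x454ef1ae080) (nat_lit 0x0)
  (PL.C (nat_lit 0x4dc6a) (nat_lit 0x0) (nat_lit 0x32876c50ac00)
  (PL.C (nat_lit 0x4e2e5) (nat_lit 0x9dd29b0f01e80) (nat_lit 0x0)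
  (PL.C (nat_lit 0x4e9de) (nat_lit 0x0) (nat_lit 0x11e0ad4babde80) lm2_23))))))))))))))))))))

noncomputable def lm2_21 : PL :=
  (PL.C (nat_lit 0x4295e) (nat_lit 0x0) (nat_lit 0x47cb75a425a80)
  (PL.C (nat_lit 0x42efa) (nat_lit 0x0) (nat_lit 0x11e0ad4babde80)
  (PL.C (nat_lit 0x430c1) (nat_lit 0x0) (nat_lit 0x1030b6c7cea400)
  (PL.C (nat_lit 0x43254) (nat_lit 0x2860af6800) (nat_lit 0x0)
  (PL.C (nat_lit 0x4399c) (nat_lit 0x0) (nat_lit 0x8ae36dfc98c00)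
  (PL.C (nat_lit 0x43a8e) (nat_lit 0x0) (nat_lit 0x41bde5053c7000)
  (PL.C (nat_lit 0x43e24) (nat_lit 0x0) (nat_lit 0x46a3ba8c99300)
  (PL.C (nat_lit 0x442a2) (nat_lit 0x0) (nat_lit 0xc35586f50100)
  (PL.C (nat_lit 0x44462) (nat_lit 0x1ce6117f2100) (nat_lit 0x0)
  (PL.C (nat_lit 0x4513c) (nat_lit 0x9a3991cca00) (nat_lit 0x0)
  (PL.C (nat_lit 0x45231) (nat_lit 0x0) (nat_lit 0x1d9786079f9600)
  (PL.C (nat_lit 0x4602f) (nat_lit 0x0) (nat_lit 0x57b384174500)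
  (PL.C (nat_lit 0x46386) (nat_lit 0x1ba7c93e6d400) (nat_lit 0x0)
  (PL.C (nat_lit 0x4672e) (nat_lit 0x0) (nat_lit 0x374310e54f400)
  (PL.C (nat_lit 0x469fb) (nat_lit 0x0) (nat_lit 0x38976fbc7f9a80)
  (PL.C (nat_lit 0x470e2) (nat_lit 0x0) (nat_lit 0x374310e54f400)
  (PL.C (nat_lit 0x472c5) (nat_lit 0x0) (nat_lit 0x12982a1ea74980)
  (PL.C (nat_lit 0x476e2) (nat_lit 0x0) (nat_lit 0x5519913ddafd80)
  (PL.C (nat_lit 0x4791e) (nat_lit 0x0) (nat_lit 0x1ab553e417e00)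
  (PL.C (nat_lit 0x47cb2) (nat_lit 0x1ba7c93e6d400) (nat_lit 0x0) lm2_22))))))))))))))))))))

noncomputable def lm2_20 : PL :=
  (PL.C (nat_lit 0x39ef7) (nat_lit 0x0) (nat_lit 0x57b384174500)
  (PL.C (nat_lit 0x3a29e) (nat_lit 0x0) (nat_lit 0xa1f7cbdce3480)
  (PL.C (nat_lit 0x3aef3) (nat_lit 0x27f6afc842180) (nat_lit 0x0)
  (PL.C (nat_lit 0x3baae) (nat_lit 0x0) (nat_lit 0x51d20af377700)
  (PL.C (nat_lit 0x3c2f7) (nat_lit 0x0) (nat_lit 0xadeecb06280)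
  (PL.C (nat_lit 0x3c5d6) (nat_lit 0x0) (nat_lit 0x8c8efb8b1200)
  (PL.C (nat_lit 0x3cb63) (nat_lit 0x0) (nat_lit 0x1aca54a2bcb20)
  (PL.C (nat_lit 0x3cece) (nat_lit 0x0) (nat_lit 0x383c0d32b4600)
  (PL.C (nat_lit 0x3d152) (nat_lit 0x9fb6ee850800) (nat_lit 0x0)
  (PL.C (nat_lit 0x3d174) (nat_lit 0x1acf1fd6c00) (nat_lit 0x0)
  (PL.C (nat_lit 0x3de14) (nat_lit 0x0) (nat_lit 0xf17cdcf62e80)
  (PL.C (nat_lit 0x3e7ab) (nat_lit 0x0) (nat_lit 0x40485a8fda80)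
  (PL.C (nat_lit 0x3f0b6) (nat_lit 0x0) (nat_lit 0x17ed3b86ce8580)
  (PL.C (nat_lit 0x3fc8d) (nat_lit 0x0) (nat_lit 0x1a073d7389b080)
  (PL.C (nat_lit 0x3fc94) (nat_lit 0x2ac89dc8100) (nat_lit 0x0)
  (PL.C (nat_lit 0x40084) (nat_lit 0x22c637ccc2780) (nat_lit 0x0)
  (PL.C (nat_lit 0x4087c) (nat_lit 0x31b4866587380) (nat_lit 0x0)
  (PL.C (nat_lit 0x4186e) (nat_lit 0x0) (nat_lit 0x6e801a62c5b00)
  (PL.C (nat_lit 0x41faa) (nat_lit 0x0) (nat_lit 0x454ef1ae080)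
  (PL.C (nat_lit 0x425d6) (nat_lit 0x0) (nat_lit 0x9ae70d671fa80) lm2_21))))))))))))))))))))

noncomputable def lm2_19 : PL :=
  (PL.C (nat_lit 0x34ca1) (nat_lit 0x0) (nat_lit 0x7b80193a4700)
  (PL.C (nat_lit 0x34cfb) (nat_lit 0x9dd29b0f01e80) (nat_lit 0x0)
  (PL.C (nat_lit 0x34dcc) (nat_lit 0x0) (nat_lit 0x109f4a931bcf00)
  (PL.C (nat_lit 0x34ecf) (nat_lit 0x0) (nat_lit 0x1c1d05254d400)
  (PL.C (nat_lit 0x359a3) (nat_lit 0x0) (nat_lit 0x12c046b56af080)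
  (PL.C (nat_lit 0x35d81) (nat_lit 0x0) (nat_lit 0x1ab05ad9834100)
  (PL.C (nat_lit 0x35ecb) (nat_lit 0x808d4877e100) (nat_lit 0x0)
  (PL.C (nat_lit 0x36105) (nat_lit 0x0) (nat_lit 0x12c046b56af080)
  (PL.C (nat_lit 0x363ba) (nat_lit 0x1ed59487e00) (nat_lit 0x0)
  (PL.C (nat_lit 0x36a5f) (nat_lit 0x0) (nat_lit 0x2154b360970200)
  (PL.C (nat_lit 0x37159) (nat_lit 0x7610bc3bf400) (nat_lit 0x0)
  (PL.C (nat_lit 0x380ac) (nat_lit 0x2860af6800) (nat_lit 0x0)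
  (PL.C (nat_lit 0x38356) (nat_lit 0x2490f9e175e500) (nat_lit 0x0)
  (PL.C (nat_lit 0x3910c) (nat_lit 0x0) (nat_lit 0x8ae36dfc98c00)
  (PL.C (nat_lit 0x39285) (nat_lit 0x0) (nat_lit 0x4989c3fe73600)
  (PL.C (nat_lit 0x3950d) (nat_lit 0x18ad5146c00) (nat_lit 0x0)
  (PL.C (nat_lit 0x3979e) (nat_lit 0x0) (nat_lit 0x6e801a62c5b00)
  (PL.C (nat_lit 0x398aa) (nat_lit 0x0) (nat_lit 0x11b697d06a8580)
  (PL.C (nat_lit 0x39b19) (nat_lit 0x0) (nat_lit 0x1ab05ad9834100)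
  (PL.C (nat_lit 0x39ce7) (nat_lit 0x1f321240519980) (nat_lit 0x0) lm2_20))))))))))))))))))))

noncomputable def lm2_18 : PL :=
  (PL.C (nat_lit 0x30b3d) (nat_lit 0x0) (nat_lit 0x1a073d7389b080)
  (PL.C (nat_lit 0x30cc3) (nat_lit 0x13dfd434cd680) (nat_lit 0x0)
  (PL.C (nat_lit 0x30e44) (nat_lit 0x22c637ccc2780) (nat_lit 0x0)
  (PL.C (nat_lit 0x30f87) (nat_lit 0x0) (nat_lit 0xc16876ec57c00)
  (PL.C (nat_lit 0x31196) (nat_lit 0x0) (nat_lit 0x1f7ebe484e3000)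
  (PL.C (nat_lit 0x31778) (nat_lit 0x0) (nat_lit 0x1f53bee008e00)
  (PL.C (nat_lit 0x31ad4) (nat_lit 0x0) (nat_lit 0x8fd407e3100)
  (PL.C (nat_lit 0x31bff) (nat_lit 0x1f72361b357900) (nat_lit 0x0)
  (PL.C (nat_lit 0x31ea2) (nat_lit 0x1327f2f9f600) (nat_lit 0x0)
  (PL.C (nat_lit 0x325e6) (nat_lit 0x0) (nat_lit 0x51d20af377700)
  (PL.C (nat_lit 0x32a64) (nat_lit 0x7cdfc3f785d00) (nat_lit 0x0)
  (PL.C (nat_lit 0x32a9b) (nat_lit 0x0) (nat_lit 0x6f81b8f91b2c60)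
  (PL.C (nat_lit 0x339dc) (nat_lit 0x0) (nat_lit 0x7ca92193eda00)
  (PL.C (nat_lit 0x33a34) (nat_lit 0x31b4866587380) (nat_lit 0x0)
  (PL.C (nat_lit 0x33b31) (nat_lit 0x0) (nat_lit 0x4989c3fe73600)
  (PL.C (nat_lit 0x33ccf) (nat_lit 0x816785f8a700) (nat_lit 0x0)
  (PL.C (nat_lit 0x33d9c) (nat_lit 0x0) (nat_lit 0x1528a961e4000)
  (PL.C (nat_lit 0x341ee) (nat_lit 0xbb7b406da8e00) (nat_lit 0x0)
  (PL.C (nat_lit 0x34694) (nat_lit 0x0) (nat_lit 0x289df1b4859a00)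
  (PL.C (nat_lit 0x34a5c) (nat_lit 0x0) (nat_lit 0x46c87f7aa85580) lm2_19))))))))))))))))))))

noncomputable def lm2_17 : PL :=
  (PL.C (nat_lit 0x2c9fc) (nat_lit 0x0) (nat_lit 0x289df1b4859a00)
  (PL.C (nat_lit 0x2cc38) (nat_lit 0x3152750c000) (nat_lit 0x0)
  (PL.C (nat_lit 0x2cee9) (nat_lit 0x0) (nat_lit 0x41edede20d7f00)
  (PL.C (nat_lit 0x2d1b4) (nat_lit 0x0) (nat_lit 0x3065a087e73200)
  (PL.C (nat_lit 0x2d291) (nat_lit 0x0) (nat_lit 0x13fc87004c300)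
  (PL.C (nat_lit 0x2d418) (nat_lit 0x0) (nat_lit 0x1f53bee008e00)
  (PL.C (nat_lit 0x2d663) (nat_lit 0x0) (nat_lit 0x9019482e306e00)
  (PL.C (nat_lit 0x2e176) (nat_lit 0x0) (nat_lit 0x1cebd77986ed00)
  (PL.C (nat_lit 0x2e21b) (nat_lit 0x0) (nat_lit 0x2154b360970200)
  (PL.C (nat_lit 0x2e5b3) (nat_lit 0x0) (nat_lit 0x1aca54a2bcb20)
  (PL.C (nat_lit 0x2e79d) (nat_lit 0xb5bd2253f9180) (nat_lit 0x0)
  (PL.C (nat_lit 0x2eaca) (nat_lit 0x0) (nat_lit 0x3fe8dec378f80)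
  (PL.C (nat_lit 0x2ed04) (nat_lit 0x46a640978fb00) (nat_lit 0x0)
  (PL.C (nat_lit 0x2ef74) (nat_lit 0x0) (nat_lit 0x8d49fb2428e00)
  (PL.C (nat_lit 0x2efa7) (nat_lit 0xdd0e4457cb480) (nat_lit 0x0)
  (PL.C (nat_lit 0x2f152) (nat_lit 0x0) (nat_lit 0x17ed3b86ce8580)
  (PL.C (nat_lit 0x2f5ec) (nat_lit 0x0) (nat_lit 0x8d49fb2428e00)
  (PL.C (nat_lit 0x2f72e) (nat_lit 0x0) (nat_lit 0x47cb75a425a80)
  (PL.C (nat_lit 0x2f9ec) (nat_lit 0x0) (nat_lit 0x46c87f7aa85580)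
  (PL.C (nat_lit 0x2fdcc) (nat_lit 0x46a640978fb00) (nat_lit 0x0) lm2_18))))))))))))))))))))

noncomputable def lm2_16 : PL :=
  (PL.C (nat_lit 0x26766) (nat_lit 0x0) (nat_lit 0x2ba5e863d2e700)
  (PL.C (nat_lit 0x2689a) (nat_lit 0x0) (nat_lit 0x11b697d06a8580)
  (PL.C (nat_lit 0x269fa) (nat_lit 0x0) (nat_lit 0x3fe8dec378f80)
  (PL.C (nat_lit 0x27303) (nat_lit 0x0) (nat_lit 0x1c1d05254d400)
  (PL.C (nat_lit 0x274a2) (nat_lit 0x0) (nat_lit 0x1f7ebe484e3000)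
  (PL.C (nat_lit 0x27a83) (nat_lit 0xe32c6c6eb1e00) (nat_lit 0x0)
  (PL.C (nat_lit 0x27c74) (nat_lit 0x0) (nat_lit 0x4d01d54834280)
  (PL.C (nat_lit 0x27f3f) (nat_lit 0x0) (nat_lit 0x13fc87004c300)
  (PL.C (nat_lit 0x27f75) (nat_lit 0x7c603e72900) (nat_lit 0x0)
  (PL.C (nat_lit 0x281fa) (nat_lit 0x0) (nat_lit 0x12e1072fe180)
  (PL.C (nat_lit 0x283e4) (nat_lit 0x0) (nat_lit 0x177dd735ad100)
  (PL.C (nat_lit 0x28aeb) (nat_lit 0x0) (nat_lit 0x1d4988cebc5d00)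
  (PL.C (nat_lit 0x28b8c) (nat_lit 0x17a89fd375200) (nat_lit 0x0)
  (PL.C (nat_lit 0x2937f) (nat_lit 0x0) (nat_lit 0xec88a449b000)
  (PL.C (nat_lit 0x29a72) (nat_lit 0x0) (nat_lit 0x2ccd3390b780)
  (PL.C (nat_lit 0x2a18f) (nat_lit 0x3650b869cca80) (nat_lit 0x0)
  (PL.C (nat_lit 0x2a85e) (nat_lit 0x0) (nat_lit 0x3b719e9b649380)
  (PL.C (nat_lit 0x2ac47) (nat_lit 0x0) (nat_lit 0xdc44b47b66e800)
  (PL.C (nat_lit 0x2baf4) (nat_lit 0x0) (nat_lit 0x11ce8c8b92d400)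
  (PL.C (nat_lit 0x2c3e4) (nat_lit 0x0) (nat_lit 0x109f4a931bcf00) lm2_17))))))))))))))))))))

noncomputable def lm2_15 : PL :=
  (PL.C (nat_lit 0x22587) (nat_lit 0x0) (nat_lit 0x3b1a02e956b80)
  (PL.C (nat_lit 0x22776) (nat_lit 0x0) (nat_lit 0x6e8c9bfa50f00)
  (PL.C (nat_lit 0x2288a) (nat_lit 0x9fb6ee850800) (nat_lit 0x0)
  (PL.C (nat_lit 0x22bf4) (nat_lit 0x1c35cd3052d100) (nat_lit 0x0)
  (PL.C (nat_lit 0x23316) (nat_lit 0x0) (nat_lit 0x8c8efb8b1200)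
  (PL.C (nat_lit 0x23352) (nat_lit 0xbb7b406da8e00) (nat_lit 0x0)
  (PL.C (nat_lit 0x2348a) (nat_lit 0x0) (nat_lit 0x2ac9e3cfa7b00)
  (PL.C (nat_lit 0x23bc2) (nat_lit 0x0) (nat_lit 0x22874bef388d00)
  (PL.C (nat_lit 0x23e56) (nat_lit 0x0) (nat_lit 0x2ba5e863d2e700)
  (PL.C (nat_lit 0x23f32) (nat_lit 0xb0c81ecd5180) (nat_lit 0x0)
  (PL.C (nat_lit 0x240ae) (nat_lit 0x0) (nat_lit 0x22874bef388d00)
  (PL.C (nat_lit 0x241a3) (nat_lit 0x0) (nat_lit 0x6f81b8f91b2c60)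
  (PL.C (nat_lit 0x2427c) (nat_lit 0x47f67153200) (nat_lit 0x0)
  (PL.C (nat_lit 0x246ea) (nat_lit 0x0) (nat_lit 0x2da350e8461e00)
  (PL.C (nat_lit 0x255c8) (nat_lit 0x3152750c000) (nat_lit 0x0)
  (PL.C (nat_lit 0x25b2d) (nat_lit 0x264eaf7d77a00) (nat_lit 0x0)
  (PL.C (nat_lit 0x261ae) (nat_lit 0x0) (nat_lit 0x6e8c9bfa50f00)
  (PL.C (nat_lit 0x2635e) (nat_lit 0x1ed59487e00) (nat_lit 0x0)
  (PL.C (nat_lit 0x26514) (nat_lit 0x0) (nat_lit 0x11ce8c8b92d400)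
  (PL.C (nat_lit 0x2652f) (nat_lit 0x0) (nat_lit 0x9019482e306e00) lm2_16))))))))))))))))))))

noncomputable def lm2_14 : PL :=
  (PL.C (nat_lit 0x1e1b6) (nat_lit 0x199b5d966e480) (nat_lit 0x0)
  (PL.C (nat_lit 0x1e442) (nat_lit 0x0) (nat_lit 0x2542200dea9b80)
  (PL.C (nat_lit 0x1eba4) (nat_lit 0x0) (nat_lit 0x97ff9702d5800)
  (PL.C (nat_lit 0x1ec12) (nat_lit 0x0) (nat_lit 0x2da350e8461e00)
  (PL.C (nat_lit 0x1ec6f) (nat_lit 0x0) (nat_lit 0x1c35b27694000)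
  (PL.C (nat_lit 0x1efbe) (nat_lit 0x42432f745860) (nat_lit 0x0)
  (PL.C (nat_lit 0x1f1dc) (nat_lit 0x0) (nat_lit 0x453607dc8cc80)
  (PL.C (nat_lit 0x1f358) (nat_lit 0x1f85115514e00) (nat_lit 0x0)
  (PL.C (nat_lit 0x1f4f8) (nat_lit 0x0) (nat_lit 0x3ed8d0351dc00)
  (PL.C (nat_lit 0x1f51a) (nat_lit 0x1eda573e61560) (nat_lit 0x0)
  (PL.C (nat_lit 0x1f948) (nat_lit 0x0) (nat_lit 0x3ed8d0351dc00)
  (PL.C (nat_lit 0x1fe88) (nat_lit 0x1f85115514e00) (nat_lit 0x0)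
  (PL.C (nat_lit 0x20685) (nat_lit 0x555710cd3680) (nat_lit 0x0)
  (PL.C (nat_lit 0x2077e) (nat_lit 0x0) (nat_lit 0x3b719e9b649380)
  (PL.C (nat_lit 0x20882) (nat_lit 0x0) (nat_lit 0xc35586f50100)
  (PL.C (nat_lit 0x20a5a) (nat_lit 0x0) (nat_lit 0x1a319579875f00)
  (PL.C (nat_lit 0x20b3b) (nat_lit 0x0) (nat_lit 0xec88a449b000)
  (PL.C (nat_lit 0x212aa) (nat_lit 0x0) (nat_lit 0xa1f7cbdce3480)
  (PL.C (nat_lit 0x2146c) (nat_lit 0x2ac89dc8100) (nat_lit 0x0)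
  (PL.C (nat_lit 0x21944) (nat_lit 0x0) (nat_lit 0x4d01d54834280) lm2_15))))))))))))))))))))

noncomputable def lm2_13 : PL :=
  (PL.C (nat_lit 0x19bfc) (nat_lit 0x0) (nat_lit 0x453607dc8cc80)
  (PL.C (nat_lit 0x1a202) (nat_lit 0x0) (nat_lit 0x2ac9e3cfa7b00)
  (PL.C (nat_lit 0x1a397) (nat_lit 0x0) (nat_lit 0x47e457b2332300)
  (PL.C (nat_lit 0x1a469) (nat_lit 0xb5bd2253f9180) (nat_lit 0x0)
  (PL.C (nat_lit 0x1a559) (nat_lit 0x264eaf7d77a00) (nat_lit 0x0)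
  (PL.C (nat_lit 0x1a702) (nat_lit 0x0) (nat_lit 0x7fb85af0cc5640)
  (PL.C (nat_lit 0x1aa2a) (nat_lit 0x199b5d966e480) (nat_lit 0x0)
  (PL.C (nat_lit 0x1aa4e) (nat_lit 0xc62e29dca00) (nat_lit 0x0)
  (PL.C (nat_lit 0x1abfc) (nat_lit 0x0) (nat_lit 0x1e1b0ade2180)
  (PL.C (nat_lit 0x1ac9d) (nat_lit 0xe32c6c6eb1e00) (nat_lit 0x0)
  (PL.C (nat_lit 0x1b1f2) (nat_lit 0x0) (nat_lit 0x1cac682d6c8000)
  (PL.C (nat_lit 0x1b7aa) (nat_lit 0x0) (nat_lit 0xdd3d85ab88f80)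
  (PL.C (nat_lit 0x1bc4c) (nat_lit 0x0) (nat_lit 0x8fd407e3100)
  (PL.C (nat_lit 0x1c10a) (nat_lit 0x433a424e6c800) (nat_lit 0x0)
  (PL.C (nat_lit 0x1c594) (nat_lit 0x0) (nat_lit 0x58bbefaa62d780)
  (PL.C (nat_lit 0x1c665) (nat_lit 0x0) (nat_lit 0xadeecb06280)
  (PL.C (nat_lit 0x1cfe3) (nat_lit 0x0) (nat_lit 0x47e457b2332300)
  (PL.C (nat_lit 0x1d1f8) (nat_lit 0x0) (nat_lit 0x7ccd6cb522300)
  (PL.C (nat_lit 0x1df46) (nat_lit 0x0) (nat_lit 0x909bcacdc82700)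
  (PL.C (nat_lit 0x1dffd) (nat_lit 0x276c0bcdfc00) (nat_lit 0x0) lm2_14))))))))))))))))))))

noncomputable def lm2_12 : PL :=
  (PL.C (nat_lit 0x17075) (nat_lit 0x0) (nat_lit 0xcd6488dfa6aa0)
  (PL.C (nat_lit 0x17764) (nat_lit 0x0) (nat_lit 0x177dd735ad100)
  (PL.C (nat_lit 0x1778c) (nat_lit 0x1c35cd3052d100) (nat_lit 0x0)
  (PL.C (nat_lit 0x177ff) (nat_lit 0x0) (nat_lit 0x1c35b27694000)
  (PL.C (nat_lit 0x1785c) (nat_lit 0x0) (nat_lit 0x6b3722dd6cf00)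
  (PL.C (nat_lit 0x17d2c) (nat_lit 0x0) (nat_lit 0xb64a194803680)
  (PL.C (nat_lit 0x17ee4) (nat_lit 0x0) (nat_lit 0x40f1638d2d1400)
  (PL.C (nat_lit 0x18015) (nat_lit 0x3650b869cca80) (nat_lit 0x0)
  (PL.C (nat_lit 0x18074) (nat_lit 0x0) (nat_lit 0xb64a194803680)
  (PL.C (nat_lit 0x181a8) (nat_lit 0x106b5e03000) (nat_lit 0x0)
  (PL.C (nat_lit 0x1831b) (nat_lit 0x0) (nat_lit 0x7be0b3f2ce8800)
  (PL.C (nat_lit 0x1849c) (nat_lit 0x0) (nat_lit 0x2a28e43829b700)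
  (PL.C (nat_lit 0x18513) (nat_lit 0x0) (nat_lit 0xf06b0bcbea000)
  (PL.C (nat_lit 0x18d71) (nat_lit 0x0) (nat_lit 0x3c9c9b85cc9300)
  (PL.C (nat_lit 0x1921e) (nat_lit 0x25482410d1780) (nat_lit 0x0)
  (PL.C (nat_lit 0x19674) (nat_lit 0x0) (nat_lit 0x11ceb4ec423c00)
  (PL.C (nat_lit 0x19794) (nat_lit 0x47f67153200) (nat_lit 0x0)
  (PL.C (nat_lit 0x198b8) (nat_lit 0x0) (nat_lit 0x7ccd6cb522300)
  (PL.C (nat_lit 0x198ca) (nat_lit 0x0) (nat_lit 0x2542200dea9b80)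
  (PL.C (nat_lit 0x19a44) (nat_lit 0x0) (nat_lit 0x40f1638d2d1400) lm2_13))))))))))))))))))))

noncomputable def lm2_11 : PL :=
  (PL.C (nat_lit 0x13f84) (nat_lit 0x0) (nat_lit 0x93f0dd0c6cc500)
  (PL.C (nat_lit 0x13ffe) (nat_lit 0x43a27fbaee00) (nat_lit 0x0)
  (PL.C (nat_lit 0x14124) (nat_lit 0x0) (nat_lit 0x13dbda38b4f80)
  (PL.C (nat_lit 0x146c7) (nat_lit 0x0) (nat_lit 0x7be0b3f2ce8800)
  (PL.C (nat_lit 0x1480c) (nat_lit 0x0) (nat_lit 0x2a28e43829b700)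
  (PL.C (nat_lit 0x1484a) (nat_lit 0x0) (nat_lit 0x2ae8b9642f900)
  (PL.C (nat_lit 0x14a2d) (nat_lit 0x0) (nat_lit 0x1baca07c016a00)
  (PL.C (nat_lit 0x14be8) (nat_lit 0x0) (nat_lit 0xa5694d43ad300)
  (PL.C (nat_lit 0x155a9) (nat_lit 0x5112822e11a580) (nat_lit 0x0)
  (PL.C (nat_lit 0x159ae) (nat_lit 0x596538911080) (nat_lit 0x0)
  (PL.C (nat_lit 0x15a54) (nat_lit 0x0) (nat_lit 0x58bbefaa62d780)
  (PL.C (nat_lit 0x15ae3) (nat_lit 0x0) (nat_lit 0x31283e07f80400)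
  (PL.C (nat_lit 0x15c3c) (nat_lit 0x0) (nat_lit 0x1b3637dac9ff00)
  (PL.C (nat_lit 0x15cd2) (nat_lit 0x0) (nat_lit 0xdd3d85ab88f80)
  (PL.C (nat_lit 0x16233) (nat_lit 0x0) (nat_lit 0x3b1a02e956b80)
  (PL.C (nat_lit 0x1631d) (nat_lit 0x748d681494b00) (nat_lit 0x0)
  (PL.C (nat_lit 0x169d1) (nat_lit 0xdd0e4457cb480) (nat_lit 0x0)
  (PL.C (nat_lit 0x16e5a) (nat_lit 0x0) (nat_lit 0x98ee7055f5800)
  (PL.C (nat_lit 0x16fa4) (nat_lit 0x0) (nat_lit 0x11ceb4ec423c00)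
  (PL.C (nat_lit 0x1705c) (nat_lit 0x17a89fd375200) (nat_lit 0x0) lm2_12))))))))))))))))))))

noncomputable def lm2_10 : PL :=
  (PL.C (nat_lit 0x10c14) (nat_lit 0x6db824f82fd80) (nat_lit 0x0)
  (PL.C (nat_lit 0x10ef8) (nat_lit 0x0) (nat_lit 0x7cfebf2a2e300)
  (PL.C (nat_lit 0x10fb8) (nat_lit 0x106b5e03000) (nat_lit 0x0)
  (PL.C (nat_lit 0x112a8) (nat_lit 0x0) (nat_lit 0xa5694d43ad300)
  (PL.C (nat_lit 0x116ac) (nat_lit 0x0) (nat_lit 0x6b3722dd6cf00)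
  (PL.C (nat_lit 0x117ba) (nat_lit 0x0) (nat_lit 0xd40446dc563c80)
  (PL.C (nat_lit 0x11846) (nat_lit 0x42432f745860) (nat_lit 0x0)
  (PL.C (nat_lit 0x118e6) (nat_lit 0x25482410d1780) (nat_lit 0x0)
  (PL.C (nat_lit 0x11c1c) (nat_lit 0x0) (nat_lit 0x13dbda38b4f80)
  (PL.C (nat_lit 0x11c34) (nat_lit 0xc2096bb8b00) (nat_lit 0x0)
  (PL.C (nat_lit 0x11c73) (nat_lit 0x0) (nat_lit 0x686025a3f0500)
  (PL.C (nat_lit 0x11dbe) (nat_lit 0x0) (nat_lit 0x7fb85af0cc5640)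
  (PL.C (nat_lit 0x1214c) (nat_lit 0x0) (nat_lit 0x823cb40f24e00)
  (PL.C (nat_lit 0x12291) (nat_lit 0x0) (nat_lit 0xf06b0bcbea000)
  (PL.C (nat_lit 0x1251c) (nat_lit 0x0) (nat_lit 0x105a2064dbf300)
  (PL.C (nat_lit 0x12b5c) (nat_lit 0xa9503819ae880) (nat_lit 0x0)
  (PL.C (nat_lit 0x12eee) (nat_lit 0x0) (nat_lit 0x12e1072fe180)
  (PL.C (nat_lit 0x12f03) (nat_lit 0x138754c081d80) (nat_lit 0x0)
  (PL.C (nat_lit 0x13542) (nat_lit 0x0) (nat_lit 0xd40446dc563c80)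
  (PL.C (nat_lit 0x13709) (nat_lit 0x0) (nat_lit 0xcd6488dfa6aa0) lm2_11))))))))))))))))))))

noncomputable def lm2_9 : PL :=
  (PL.C (nat_lit 0xdc89) (nat_lit 0x0) (nat_lit 0x38723e83d7980)
  (PL.C (nat_lit 0xde6f) (nat_lit 0x0) (nat_lit 0x38723e83d7980)
  (PL.C (nat_lit 0xe3c6) (nat_lit 0x1b9bfe707a280) (nat_lit 0x0)
  (PL.C (nat_lit 0xe742) (nat_lit 0x0) (nat_lit 0x55469de9ec6800)
  (PL.C (nat_lit 0xe828) (nat_lit 0x0) (nat_lit 0x90639ed178500)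
  (PL.C (nat_lit 0xe88c) (nat_lit 0x0) (nat_lit 0x105a2064dbf300)
  (PL.C (nat_lit 0xec22) (nat_lit 0x0) (nat_lit 0x98ee7055f5800)
  (PL.C (nat_lit 0xecbe) (nat_lit 0x2dbdf5255b580) (nat_lit 0x0)
  (PL.C (nat_lit 0xedd5) (nat_lit 0x748d681494b00) (nat_lit 0x0)
  (PL.C (nat_lit 0xf136) (nat_lit 0x1eda573e61560) (nat_lit 0x0)
  (PL.C (nat_lit 0xf279) (nat_lit 0x138754c081d80) (nat_lit 0x0)
  (PL.C (nat_lit 0xf43c) (nat_lit 0x0) (nat_lit 0x17e83ba3260f00)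
  (PL.C (nat_lit 0xf518) (nat_lit 0x0) (nat_lit 0x7cfebf2a2e300)
  (PL.C (nat_lit 0xf9c9) (nat_lit 0x17ca6276596180) (nat_lit 0x0)
  (PL.C (nat_lit 0xfaaa) (nat_lit 0x0) (nat_lit 0x2ae8b9642f900)
  (PL.C (nat_lit 0xfae8) (nat_lit 0x0) (nat_lit 0x2e92c0c788880)
  (PL.C (nat_lit 0x1000e) (nat_lit 0x433a424e6c800) (nat_lit 0x0)
  (PL.C (nat_lit 0x10212) (nat_lit 0x0) (nat_lit 0xafb1bf9b419080)
  (PL.C (nat_lit 0x10362) (nat_lit 0x0) (nat_lit 0x1610560b7ce200)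
  (PL.C (nat_lit 0x108f6) (nat_lit 0x0) (nat_lit 0x5afd5529f26d00) lm2_10))))))))))))))))))))

noncomputable def lm2_8 : PL :=
  (PL.C (nat_lit 0xbac9) (nat_lit 0x0) (nat_lit 0x2ec8a3d0067a00)
  (PL.C (nat_lit 0xbb44) (nat_lit 0x6db824f82fd80) (nat_lit 0x0)
  (PL.C (nat_lit 0xbd68) (nat_lit 0x7e68708d31800) (nat_lit 0x0)
  (PL.C (nat_lit 0xbd78) (nat_lit 0x0) (nat_lit 0x2b1d8c55d00)
  (PL.C (nat_lit 0xbda2) (nat_lit 0x0) (nat_lit 0xd32b1536fe200)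
  (PL.C (nat_lit 0xbeb9) (nat_lit 0x17ca6276596180) (nat_lit 0x0)
  (PL.C (nat_lit 0xbf37) (nat_lit 0x2b0c87c436280) (nat_lit 0x0)
  (PL.C (nat_lit 0xc1b6) (nat_lit 0x0) (nat_lit 0x1610560b7ce200)
  (PL.C (nat_lit 0xc2d3) (nat_lit 0x5112822e11a580) (nat_lit 0x0)
  (PL.C (nat_lit 0xc368) (nat_lit 0x0) (nat_lit 0x294315ac75ea80)
  (PL.C (nat_lit 0xc9f4) (nat_lit 0x0) (nat_lit 0x1e1b0ade2180)
  (PL.C (nat_lit 0xca02) (nat_lit 0x0) (nat_lit 0x1d72ca938de80)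
  (PL.C (nat_lit 0xce2c) (nat_lit 0x0) (nat_lit 0x424de71634b380)
  (PL.C (nat_lit 0xce8b) (nat_lit 0x555710cd3680) (nat_lit 0x0)
  (PL.C (nat_lit 0xd071) (nat_lit 0x0) (nat_lit 0x30df91b8cd8480)
  (PL.C (nat_lit 0xd554) (nat_lit 0x35c5ba737c00) (nat_lit 0x0)
  (PL.C (nat_lit 0xd618) (nat_lit 0x7e68708d31800) (nat_lit 0x0)
  (PL.C (nat_lit 0xd9da) (nat_lit 0x0) (nat_lit 0xafb1bf9b419080)
  (PL.C (nat_lit 0xdadc) (nat_lit 0x0) (nat_lit 0x6b7f194ec0100)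
  (PL.C (nat_lit 0xdc1e) (nat_lit 0x0) (nat_lit 0x3ddd0f3404700) lm2_9))))))))))))))))))))

noncomputable def lm2_7 : PL :=
  (PL.C (nat_lit 0x9489) (nat_lit 0x0) (nat_lit 0x30df91b8cd8480)
  (PL.C (nat_lit 0x9a2c) (nat_lit 0x0) (nat_lit 0x629991df6e9c00)
  (PL.C (nat_lit 0x9b08) (nat_lit 0x0) (nat_lit 0x294315ac75ea80)
  (PL.C (nat_lit 0x9d6c) (nat_lit 0x0) (nat_lit 0x17e83ba3260f00)
  (PL.C (nat_lit 0x9dad) (nat_lit 0x0) (nat_lit 0x2ec8a3d0067a00)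
  (PL.C (nat_lit 0x9dd4) (nat_lit 0x156681798d4700) (nat_lit 0x0)
  (PL.C (nat_lit 0x9e8e) (nat_lit 0x2dbdf5255b580) (nat_lit 0x0)
  (PL.C (nat_lit 0xa1a6) (nat_lit 0x0) (nat_lit 0x1d72ca938de80)
  (PL.C (nat_lit 0xa329) (nat_lit 0x14f12ef09e780) (nat_lit 0x0)
  (PL.C (nat_lit 0xa686) (nat_lit 0x0) (nat_lit 0x145725bd946a80)
  (PL.C (nat_lit 0xa71c) (nat_lit 0x0) (nat_lit 0x6b7f194ec0100)
  (PL.C (nat_lit 0xa761) (nat_lit 0x0) (nat_lit 0x6a5a86225d800)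
  (PL.C (nat_lit 0xaab4) (nat_lit 0xa9503819ae880) (nat_lit 0x0)
  (PL.C (nat_lit 0xac0c) (nat_lit 0x0) (nat_lit 0xc6d03e1a10ac80)
  (PL.C (nat_lit 0xacec) (nat_lit 0x0) (nat_lit 0x343b165a5e4180)
  (PL.C (nat_lit 0xaff5) (nat_lit 0x0) (nat_lit 0x11d9e56d198b900)
  (PL.C (nat_lit 0xb0a4) (nat_lit 0x0) (nat_lit 0x44384814d9cf00)
  (PL.C (nat_lit 0xb2b8) (nat_lit 0x31aa35589880) (nat_lit 0x0)
  (PL.C (nat_lit 0xb9c8) (nat_lit 0x0) (nat_lit 0x2e92c0c788880)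
  (PL.C (nat_lit 0xba7c) (nat_lit 0x0) (nat_lit 0x424de71634b380) lm2_8))))))))))))))))))))

noncomputable def lm2_6 : PL :=
  (PL.C (nat_lit 0x6f96) (nat_lit 0x0) (nat_lit 0xd69f0f08d0600)
  (PL.C (nat_lit 0x7348) (nat_lit 0x0) (nat_lit 0x13f6a68e82c000)
  (PL.C (nat_lit 0x754e) (nat_lit 0x0) (nat_lit 0x1efec9e775fa700)
  (PL.C (nat_lit 0x7749) (nat_lit 0x0) (nat_lit 0xec0c5fa4d2800)
  (PL.C (nat_lit 0x7c86) (nat_lit 0x0) (nat_lit 0x4a2647c288fe80)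
  (PL.C (nat_lit 0x7cd8) (nat_lit 0x31aa35589880) (nat_lit 0x0)
  (PL.C (nat_lit 0x7e50) (nat_lit 0xcf41c1a500) (nat_lit 0x0)
  (PL.C (nat_lit 0x7e6c) (nat_lit 0x0) (nat_lit 0x1fbd8589aac300)
  (PL.C (nat_lit 0x7f26) (nat_lit 0x0) (nat_lit 0x145725bd946a80)
  (PL.C (nat_lit 0x7f7a) (nat_lit 0x29931732b3500) (nat_lit 0x0)
  (PL.C (nat_lit 0x8124) (nat_lit 0x0) (nat_lit 0x343b165a5e4180)
  (PL.C (nat_lit 0x81e2) (nat_lit 0x1b9bfe707a280) (nat_lit 0x0)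
  (PL.C (nat_lit 0x86ac) (nat_lit 0x0) (nat_lit 0x2218917f2b700)
  (PL.C (nat_lit 0x89b2) (nat_lit 0x596538911080) (nat_lit 0x0)
  (PL.C (nat_lit 0x8af6) (nat_lit 0x0) (nat_lit 0x38d34dbca6fe80)
  (PL.C (nat_lit 0x8e38) (nat_lit 0x0) (nat_lit 0xf040adc1000)
  (PL.C (nat_lit 0x913c) (nat_lit 0x0) (nat_lit 0xc6d03e1a10ac80)
  (PL.C (nat_lit 0x91e8) (nat_lit 0x0) (nat_lit 0x2ea32c258b880)
  (PL.C (nat_lit 0x9306) (nat_lit 0x0) (nat_lit 0xb7e4a546ff400)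
  (PL.C (nat_lit 0x944a) (nat_lit 0x0) (nat_lit 0xb7e4a546ff400) lm2_7))))))))))))))))))))

noncomputable def lm2_5 : PL :=
  (PL.C (nat_lit 0x57db) (nat_lit 0x14b2ef5bd3fb00) (nat_lit 0x0)
  (PL.C (nat_lit 0x59c8) (nat_lit 0x0) (nat_lit 0xbe16714560500)
  (PL.C (nat_lit 0x5ca4) (nat_lit 0x0) (nat_lit 0x598820d2b7f140)
  (PL.C (nat_lit 0x5ebf) (nat_lit 0x0) (nat_lit 0xa8b2ceca562300)
  (PL.C (nat_lit 0x5ed0) (nat_lit 0x41e6e372e00) (nat_lit 0x0)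
  (PL.C (nat_lit 0x6204) (nat_lit 0x0) (nat_lit 0x13c7bcdb4ae480)
  (PL.C (nat_lit 0x62dc) (nat_lit 0x0) (nat_lit 0x13c7bcdb4ae480)
  (PL.C (nat_lit 0x6306) (nat_lit 0x0) (nat_lit 0x38d34dbca6fe80)
  (PL.C (nat_lit 0x6633) (nat_lit 0x0) (nat_lit 0xd1aa1a817fe00)
  (PL.C (nat_lit 0x66c8) (nat_lit 0x259d690cc68d00) (nat_lit 0x0)
  (PL.C (nat_lit 0x691e) (nat_lit 0x0) (nat_lit 0x4a2647c288fe80)
  (PL.C (nat_lit 0x6938) (nat_lit 0x0) (nat_lit 0xeab2bd069b080)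
  (PL.C (nat_lit 0x69b4) (nat_lit 0x156681798d4700) (nat_lit 0x0)
  (PL.C (nat_lit 0x6bc4) (nat_lit 0x0) (nat_lit 0x2218917f2b700)
  (PL.C (nat_lit 0x6be5) (nat_lit 0x0) (nat_lit 0xec0c5fa4d2800)
  (PL.C (nat_lit 0x6c1b) (nat_lit 0x2b0c87c436280) (nat_lit 0x0)
  (PL.C (nat_lit 0x6cc6) (nat_lit 0x0) (nat_lit 0x1bfd8a27a49780)
  (PL.C (nat_lit 0x6e37) (nat_lit 0x14f12ef09e780) (nat_lit 0x0)
  (PL.C (nat_lit 0x6f04) (nat_lit 0x0) (nat_lit 0x1e1ae6df60be0)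
  (PL.C (nat_lit 0x6f68) (nat_lit 0x0) (nat_lit 0x2ea32c258b880) lm2_6))))))))))))))))))))

noncomputable def lm2_4 : PL :=
  (PL.C (nat_lit 0x41e8) (nat_lit 0x0) (nat_lit 0x1906e139a6b000)
  (PL.C (nat_lit 0x4204) (nat_lit 0x0) (nat_lit 0x598820d2b7f140)
  (PL.C (nat_lit 0x4422) (nat_lit 0x0) (nat_lit 0x32cb7ca8abfe00)
  (PL.C (nat_lit 0x4614) (nat_lit 0x0) (nat_lit 0x88e1e5a5d92100)
  (PL.C (nat_lit 0x4678) (nat_lit 0x0) (nat_lit 0xeab2bd069b080)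
  (PL.C (nat_lit 0x47d8) (nat_lit 0x0) (nat_lit 0xbe16714560500)
  (PL.C (nat_lit 0x47ee) (nat_lit 0x0) (nat_lit 0x41a5bce845dd00)
  (PL.C (nat_lit 0x4812) (nat_lit 0x29931732b3500) (nat_lit 0x0)
  (PL.C (nat_lit 0x4884) (nat_lit 0x0) (nat_lit 0x1a7ef095776e00)
  (PL.C (nat_lit 0x497a) (nat_lit 0x0) (nat_lit 0x1bfd8a27a49780)
  (PL.C (nat_lit 0x4a64) (nat_lit 0x0) (nat_lit 0x1fe72aad62b400)
  (PL.C (nat_lit 0x4e34) (nat_lit 0x0) (nat_lit 0x17df7267a2adfc0)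
  (PL.C (nat_lit 0x4f86) (nat_lit 0x0) (nat_lit 0x41a5bce845dd00)
  (PL.C (nat_lit 0x4ffb) (nat_lit 0x0) (nat_lit 0xa8b2ceca562300)
  (PL.C (nat_lit 0x5304) (nat_lit 0x0) (nat_lit 0x88e1e5a5d92100)
  (PL.C (nat_lit 0x5448) (nat_lit 0x0) (nat_lit 0x19798304879f00)
  (PL.C (nat_lit 0x54c4) (nat_lit 0x0) (nat_lit 0x1e1ae6df60be0)
  (PL.C (nat_lit 0x54e7) (nat_lit 0x0) (nat_lit 0x60add3f9085300)
  (PL.C (nat_lit 0x54fc) (nat_lit 0x9c9c463c2ce00) (nat_lit 0x0)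
  (PL.C (nat_lit 0x5618) (nat_lit 0x0) (nat_lit 0x13f6a68e82c000) lm2_5))))))))))))))))))))

noncomputable def lm2_3 : PL :=
  (PL.C (nat_lit 0x2d3f) (nat_lit 0x0) (nat_lit 0x329b89bdbda500)
  (PL.C (nat_lit 0x2d6c) (nat_lit 0x0) (nat_lit 0x47b5fc65521200)
  (PL.C (nat_lit 0x2eb8) (nat_lit 0x0) (nat_lit 0x1e9fd7e88d5080)
  (PL.C (nat_lit 0x2ff4) (nat_lit 0x0) (nat_lit 0x71795ef09ea680)
  (PL.C (nat_lit 0x300c) (nat_lit 0x9c9c463c2ce00) (nat_lit 0x0)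
  (PL.C (nat_lit 0x3058) (nat_lit 0x0) (nat_lit 0x672b4511087260)
  (PL.C (nat_lit 0x30fc) (nat_lit 0x0) (nat_lit 0x1a7ef095776e00)
  (PL.C (nat_lit 0x310b) (nat_lit 0x628c297113e00) (nat_lit 0x0)
  (PL.C (nat_lit 0x3198) (nat_lit 0x0) (nat_lit 0x196d30d270ec00)
  (PL.C (nat_lit 0x3219) (nat_lit 0x14b2ef5bd3fb00) (nat_lit 0x0)
  (PL.C (nat_lit 0x3504) (nat_lit 0x0) (nat_lit 0x71795ef09ea680)
  (PL.C (nat_lit 0x3552) (nat_lit 0x0) (nat_lit 0xebe4c82fe7e320)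
  (PL.C (nat_lit 0x3758) (nat_lit 0x0) (nat_lit 0x1e9fd7e88d5080)
  (PL.C (nat_lit 0x3830) (nat_lit 0x0) (nat_lit 0x5c64383a4d700)
  (PL.C (nat_lit 0x389a) (nat_lit 0x0) (nat_lit 0xea4a9b99161100)
  (PL.C (nat_lit 0x38a8) (nat_lit 0x380e06237f20) (nat_lit 0x0)
  (PL.C (nat_lit 0x3a92) (nat_lit 0x1789a5343bab80) (nat_lit 0x0)
  (PL.C (nat_lit 0x3f2a) (nat_lit 0x0) (nat_lit 0xebe4c82fe7e320)
  (PL.C (nat_lit 0x403b) (nat_lit 0x628c297113e00) (nat_lit 0x0)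
  (PL.C (nat_lit 0x4158) (nat_lit 0x0) (nat_lit 0x1906e139a6b000) lm2_4))))))))))))))))))))

noncomputable def lm2_2 : PL :=
  (PL.C (nat_lit 0x1a08) (nat_lit 0x175b2d3974f80) (nat_lit 0x0)
  (PL.C (nat_lit 0x1c8c) (nat_lit 0xfb7cef5a3d280) (nat_lit 0x0)
  (PL.C (nat_lit 0x1cb6) (nat_lit 0x0) (nat_lit 0x18a902cee4a740)
  (PL.C (nat_lit 0x1e2a) (nat_lit 0x0) (nat_lit 0xd811e18bb52500)
  (PL.C (nat_lit 0x1e48) (nat_lit 0x0) (nat_lit 0x3abdf79a958500)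
  (PL.C (nat_lit 0x1ff8) (nat_lit 0x0) (nat_lit 0xada9af181f0300)
  (PL.C (nat_lit 0x2008) (nat_lit 0x380e06237f20) (nat_lit 0x0)
  (PL.C (nat_lit 0x20a8) (nat_lit 0x0) (nat_lit 0x672b4511087260)
  (PL.C (nat_lit 0x20b2) (nat_lit 0xaf324fd84880) (nat_lit 0x0)
  (PL.C (nat_lit 0x2110) (nat_lit 0x0) (nat_lit 0x5c992b01a6000)
  (PL.C (nat_lit 0x2166) (nat_lit 0x1789a5343bab80) (nat_lit 0x0)
  (PL.C (nat_lit 0x2358) (nat_lit 0x0) (nat_lit 0xada9af181f0300)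
  (PL.C (nat_lit 0x238c) (nat_lit 0x0) (nat_lit 0xfa21d7dd2a220)
  (PL.C (nat_lit 0x25bc) (nat_lit 0x0) (nat_lit 0x77bccbbe7a5800)
  (PL.C (nat_lit 0x270c) (nat_lit 0x4451e0b227c6c0) (nat_lit 0x0)
  (PL.C (nat_lit 0x2a1c) (nat_lit 0x0) (nat_lit 0xfa21d7dd2a220)
  (PL.C (nat_lit 0x2ad2) (nat_lit 0xaf324fd84880) (nat_lit 0x0)
  (PL.C (nat_lit 0x2b11) (nat_lit 0x0) (nat_lit 0x4c7dd703c64540)
  (PL.C (nat_lit 0x2b90) (nat_lit 0x0) (nat_lit 0x9523e4e92a80)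
  (PL.C (nat_lit 0x2bf0) (nat_lit 0x0) (nat_lit 0x9523e4e92a80) lm2_3))))))))))))))))))))

noncomputable def lm2_1 : PL :=
  (PL.C (nat_lit 0xad4) (nat_lit 0x0) (nat_lit 0xe0d9d79b412200)
  (PL.C (nat_lit 0xb13) (nat_lit 0x0) (nat_lit 0x539db8c78c7a00)
  (PL.C (nat_lit 0xcb0) (nat_lit 0x0) (nat_lit 0x791c97fee908)
  (PL.C (nat_lit 0xd68) (nat_lit 0x0) (nat_lit 0x1617db3d06ffe00)
  (PL.C (nat_lit 0xdb6) (nat_lit 0x0) (nat_lit 0x83b9d06832ed00)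
  (PL.C (nat_lit 0xe88) (nat_lit 0x0) (nat_lit 0x11261faa042080)
  (PL.C (nat_lit 0xe8e) (nat_lit 0x0) (nat_lit 0x4c3b04fad99000)
  (PL.C (nat_lit 0xed8) (nat_lit 0x175b2d3974f80) (nat_lit 0x0)
  (PL.C (nat_lit 0x103e) (nat_lit 0x0) (nat_lit 0x83b9d06832ed00)
  (PL.C (nat_lit 0x1308) (nat_lit 0x0) (nat_lit 0x11261faa042080)
  (PL.C (nat_lit 0x141c) (nat_lit 0x0) (nat_lit 0x1740feb0653a400)
  (PL.C (nat_lit 0x1430) (nat_lit 0x0) (nat_lit 0x12bb2980941c0)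
  (PL.C (nat_lit 0x1491) (nat_lit 0x0) (nat_lit 0x2e8296d9c63100)
  (PL.C (nat_lit 0x1550) (nat_lit 0x0) (nat_lit 0x204c28b1bd5880)
  (PL.C (nat_lit 0x15cc) (nat_lit 0xfb7cef5a3d280) (nat_lit 0x0)
  (PL.C (nat_lit 0x15d5) (nat_lit 0x0) (nat_lit 0x13b06c7e337300)
  (PL.C (nat_lit 0x1644) (nat_lit 0x4451e0b227c6c0) (nat_lit 0x0)
  (PL.C (nat_lit 0x1790) (nat_lit 0x0) (nat_lit 0x204c28b1bd5880)
  (PL.C (nat_lit 0x185d) (nat_lit 0x0) (nat_lit 0x2e8296d9c63100)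
  (PL.C (nat_lit 0x1928) (nat_lit 0x0) (nat_lit 0x53c85a6047780) lm2_2))))))))))))))))))))

noncomputable def lm2 : PL :=
  (PL.C (nat_lit 0x60) (nat_lit 0x0) (nat_lit 0xb8a22cb757190)
  (PL.C (nat_lit 0x90) (nat_lit 0x0) (nat_lit 0xea802b1e077dd0)
  (PL.C (nat_lit 0xd8) (nat_lit 0x0) (nat_lit 0x128bccc0dc8ae00)
  (PL.C (nat_lit 0x144) (nat_lit 0x0) (nat_lit 0xc2d8fe58352d00)
  (PL.C (nat_lit 0x1e6) (nat_lit 0x0) (nat_lit 0x5133520af0a100)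
  (PL.C (nat_lit 0x2d9) (nat_lit 0x0) (nat_lit 0xd1f12b631fc00)
  (PL.C (nat_lit 0x2e0) (nat_lit 0x0) (nat_lit 0x1d271488bce90)
  (PL.C (nat_lit 0x348) (nat_lit 0x0) (nat_lit 0x214f57ca33f440)
  (PL.C (nat_lit 0x410) (nat_lit 0x0) (nat_lit 0x4a61ca9f2a128)
  (PL.C (nat_lit 0x450) (nat_lit 0x0) (nat_lit 0x4ca374611b4200)
  (PL.C (nat_lit 0x4d0) (nat_lit 0x0) (nat_lit 0x4a61ca9f2a128)
  (PL.C (nat_lit 0x4ec) (nat_lit 0x0) (nat_lit 0x166cecb9457d3c0)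
  (PL.C (nat_lit 0x618) (nat_lit 0x0) (nat_lit 0xbc142184746140)
  (PL.C (nat_lit 0x678) (nat_lit 0x0) (nat_lit 0xd103ae543ec600)
  (PL.C (nat_lit 0x738) (nat_lit 0x0) (nat_lit 0xbc142184746140)
  (PL.C (nat_lit 0x762) (nat_lit 0x0) (nat_lit 0x12afff5843a0200)
  (PL.C (nat_lit 0x8f0) (nat_lit 0x0) (nat_lit 0x9f717e74eb94d0)
  (PL.C (nat_lit 0x924) (nat_lit 0x0) (nat_lit 0xe0d9d79b412200)
  (PL.C (nat_lit 0x9b0) (nat_lit 0x0) (nat_lit 0x791c97fee908)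
  (PL.C (nat_lit 0x9b4) (nat_lit 0x0) (nat_lit 0x97eceee7b59e00) lm2_1))))))))))))))))))))

theorem chkL2 : eqP (lam2 (nat_lit 127) (nat_lit 70) (nat_lit 4) (nat_lit 6) qN qP qR qS) lm2 = true := by decide +kernel

end Pool.Agent.Work.MP_440970_an.FX.D1
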