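import Pool.Agent.Work.MP_440970_an.FX.D1.L1
import Pool.Agent.Work.MP_440970_an.FX.D1.L2

/-!
# the form
-/

set_option autoImplicit false
set_option maxRecDepth 1000000

namespace Pool.Agent.Work.MP_440970_an.FX.D1

noncomputable def lm_294 : PL :=
  (PL.C (nat_lit 0x66206f579) (nat_lit 0x0) (nat_lit 0x5d8e062d400)
  (PL.C (nat_lit 0x67017e9ff) (nat_lit 0x0) (nat_lit 0x2cc7e6f8e00)
  (PL.C (nat_lit 0x70529c2c3) (nat_lit 0x5d1abdf0700) (nat_lit 0x0)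
  (PL.C (nat_lit 0x70db51411) (nat_lit 0xb987b4aa500) (nat_lit 0x0)
  (PL.C (nat_lit 0x8f34f386b) (nat_lit 0x0) (nat_lit 0x2cc7e6f8e00)
  (PL.C (nat_lit 0x955e28fb7) (nat_lit 0x0) (nat_lit 0x2cc7e6f8e00)
  (PL.C (nat_lit 0xa3a7082d9) (nat_lit 0x1046fbd5500) (nat_lit 0x0)
  (PL.C (nat_lit 0xaef5c3eaf) (nat_lit 0x1046fbd5500) (nat_lit 0x0)
  (PL.C (nat_lit 0xbccfff6b9) (nat_lit 0x0) (nat_lit 0x1046fbd5500)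
  (PL.C (nat_lit 0xbe7016ebf) (nat_lit 0x3e6b34b2600) (nat_lit 0x0)
  (PL.C (nat_lit 0xc013c3609) (nat_lit 0x0) (nat_lit 0x1046fbd5500)
  (PL.C (nat_lit 0xfdb5395e7) (nat_lit 0x3b65d5d900) (nat_lit 0x0) PL.Z))))))))))))

noncomputable def lm_293 : PL :=
  (PL.C (nat_lit 0x4118119a5) (nat_lit 0x0) (nat_lit 0x23115947580)
  (PL.C (nat_lit 0x4220f7fd3) (nat_lit 0x0) (nat_lit 0x20e1d56c7000)
  (PL.C (nat_lit 0x425d38a89) (nat_lit 0x0) (nat_lit 0x18ac3bc7b00)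
  (PL.C (nat_lit 0x42689058b) (nat_lit 0x7ed2dd55800) (nat_lit 0x0)
  (PL.C (nat_lit 0x44a0e265b) (nat_lit 0x0) (nat_lit 0x18ac3bc7b00)
  (PL.C (nat_lit 0x460ffd33f) (nat_lit 0x39f4c9c600) (nat_lit 0x0)
  (PL.C (nat_lit 0x4873f48fd) (nat_lit 0xa71978ce700) (nat_lit 0x0)
  (PL.C (nat_lit 0x4d75864ab) (nat_lit 0xa71978ce700) (nat_lit 0x0)
  (PL.C (nat_lit 0x4e90cb93b) (nat_lit 0x2cc7e6f8e00) (nat_lit 0x0)
  (PL.C (nat_lit 0x501a18e41) (nat_lit 0x39f4c9c600) (nat_lit 0x0)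
  (PL.C (nat_lit 0x506dc74c5) (nat_lit 0x0) (nat_lit 0x23115947580)
  (PL.C (nat_lit 0x53978745d) (nat_lit 0x0) (nat_lit 0xa71978ce700)
  (PL.C (nat_lit 0x544fbe0fb) (nat_lit 0x35410a394600) (nat_lit 0x0)
  (PL.C (nat_lit 0x55098aced) (nat_lit 0x0) (nat_lit 0xa71978ce700)
  (PL.C (nat_lit 0x577f9bd43) (nat_lit 0x291ad85bb00) (nat_lit 0x0)
  (PL.C (nat_lit 0x578e22965) (nat_lit 0x1a0307ea00) (nat_lit 0x0)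
  (PL.C (nat_lit 0x58406e865) (nat_lit 0x291ad85bb00) (nat_lit 0x0)
  (PL.C (nat_lit 0x5c5fe2555) (nat_lit 0x0) (nat_lit 0x2cc7e6f8e00)
  (PL.C (nat_lit 0x5d2b73e43) (nat_lit 0x0) (nat_lit 0x5d8e062d400)
  (PL.C (nat_lit 0x5ef127693) (nat_lit 0x2cc7e6f8e00) (nat_lit 0x0) lm_294))))))))))))))))))))

noncomputable def lm_292 : PL :=
  (PL.C (nat_lit 0x2d9a6b93b) (nat_lit 0x0) (nat_lit 0x20e1d56c7000)
  (PL.C (nat_lit 0x2dca0faa7) (nat_lit 0x0) (nat_lit 0x1d819fc8800)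
  (PL.C (nat_lit 0x2f252650f) (nat_lit 0x0) (nat_lit 0xd6566a2c00)
  (PL.C (nat_lit 0x2f53b6b83) (nat_lit 0x11c211d1c600) (nat_lit 0x0)
  (PL.C (nat_lit 0x31ba5e80f) (nat_lit 0x2dc9efa33900) (nat_lit 0x0)
  (PL.C (nat_lit 0x31f6e4915) (nat_lit 0x964867126b00) (nat_lit 0x0)
  (PL.C (nat_lit 0x330e46fcd) (nat_lit 0x31cb9215100) (nat_lit 0x0)
  (PL.C (nat_lit 0x331f63fd9) (nat_lit 0x23115947580) (nat_lit 0x0)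
  (PL.C (nat_lit 0x338c14fd5) (nat_lit 0xe7d3271800) (nat_lit 0x0)
  (PL.C (nat_lit 0x362e06763) (nat_lit 0x0) (nat_lit 0x30c61f34600)
  (PL.C (nat_lit 0x36fdc5ccb) (nat_lit 0x0) (nat_lit 0x35af270a300)
  (PL.C (nat_lit 0x373d40439) (nat_lit 0x0) (nat_lit 0x58394662200)
  (PL.C (nat_lit 0x376b453f5) (nat_lit 0x73e9938c00) (nat_lit 0x0)
  (PL.C (nat_lit 0x3776f569d) (nat_lit 0x0) (nat_lit 0x23115947580)
  (PL.C (nat_lit 0x37e5662a3) (nat_lit 0x59d976e0c00) (nat_lit 0x0)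
  (PL.C (nat_lit 0x387a13cdb) (nat_lit 0x0) (nat_lit 0x39f4c9c600)
  (PL.C (nat_lit 0x3c7b40669) (nat_lit 0x31cb9215100) (nat_lit 0x0)
  (PL.C (nat_lit 0x3d3ddd92d) (nat_lit 0x0) (nat_lit 0x30c61f34600)
  (PL.C (nat_lit 0x3f66b3257) (nat_lit 0x0) (nat_lit 0x20e1d56c7000)
  (PL.C (nat_lit 0x401929093) (nat_lit 0x1a0307ea00) (nat_lit 0x0) lm_293))))))))))))))))))))

noncomputable def lm_291 : PL :=
  (PL.C (nat_lit 0x26bcdac8f) (nat_lit 0xc57b8c46a00) (nat_lit 0x0)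
  (PL.C (nat_lit 0x26c3492b9) (nat_lit 0x0) (nat_lit 0x17bae7c800)
  (PL.C (nat_lit 0x27035c4d7) (nat_lit 0x1d819fc8800) (nat_lit 0x0)
  (PL.C (nat_lit 0x271238db9) (nat_lit 0xc57b8c46a00) (nat_lit 0x0)
  (PL.C (nat_lit 0x288c4e751) (nat_lit 0x184f040e6800) (nat_lit 0x0)
  (PL.C (nat_lit 0x28e57f269) (nat_lit 0x0) (nat_lit 0x20e1d56c7000)
  (PL.C (nat_lit 0x293f9f18f) (nat_lit 0x0) (nat_lit 0x42daf3cf8800)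
  (PL.C (nat_lit 0x29b56fb21) (nat_lit 0x1d819fc8800) (nat_lit 0x0)
  (PL.C (nat_lit 0x29fd09c9b) (nat_lit 0x0) (nat_lit 0x23115947580)
  (PL.C (nat_lit 0x2a087c71f) (nat_lit 0x20e1d56c7000) (nat_lit 0x0)
  (PL.C (nat_lit 0x2a5991c4d) (nat_lit 0x0) (nat_lit 0x35af270a300)
  (PL.C (nat_lit 0x2acec68b7) (nat_lit 0x11c211d1c600) (nat_lit 0x0)
  (PL.C (nat_lit 0x2b21bea23) (nat_lit 0x0) (nat_lit 0x1dd8f227400)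
  (PL.C (nat_lit 0x2c33f43fb) (nat_lit 0x0) (nat_lit 0x39f4c9c600)
  (PL.C (nat_lit 0x2c58c77ef) (nat_lit 0x59d976e0c00) (nat_lit 0x0)
  (PL.C (nat_lit 0x2cba81f59) (nat_lit 0x73e9938c00) (nat_lit 0x0)
  (PL.C (nat_lit 0x2d02d2af7) (nat_lit 0x0) (nat_lit 0x1d819fc8800)
  (PL.C (nat_lit 0x2d317b381) (nat_lit 0x0) (nat_lit 0x58394662200)
  (PL.C (nat_lit 0x2d36c7e1d) (nat_lit 0x0) (nat_lit 0x42daf3cf8800)
  (PL.C (nat_lit 0x2d6603e11) (nat_lit 0x8bd02602300) (nat_lit 0x0) lm_292))))))))))))))))))))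

noncomputable def lm_290 : PL :=
  (PL.C (nat_lit 0x1fd8b8e91) (nat_lit 0x0) (nat_lit 0x1dd8f227400)
  (PL.C (nat_lit 0x2013a22b1) (nat_lit 0x17b562701500) (nat_lit 0x0)
  (PL.C (nat_lit 0x20eee3873) (nat_lit 0x1d819fc8800) (nat_lit 0x0)
  (PL.C (nat_lit 0x20f9ed767) (nat_lit 0x0) (nat_lit 0x129dcdc2d80)
  (PL.C (nat_lit 0x22239b8a5) (nat_lit 0x0) (nat_lit 0x7454e89900)
  (PL.C (nat_lit 0x224b03f97) (nat_lit 0x17b562701500) (nat_lit 0x0)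
  (PL.C (nat_lit 0x22c86d267) (nat_lit 0x20e1d56c7000) (nat_lit 0x0)
  (PL.C (nat_lit 0x23356b965) (nat_lit 0x1d819fc8800) (nat_lit 0x0)
  (PL.C (nat_lit 0x23768d005) (nat_lit 0xe7d3271800) (nat_lit 0x0)
  (PL.C (nat_lit 0x239b99399) (nat_lit 0x0) (nat_lit 0x1255d6876e80)
  (PL.C (nat_lit 0x23b62dfd5) (nat_lit 0x23115947580) (nat_lit 0x0)
  (PL.C (nat_lit 0x242e3dee7) (nat_lit 0xe7d3271800) (nat_lit 0x0)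
  (PL.C (nat_lit 0x24b779dbf) (nat_lit 0x0) (nat_lit 0x23564b22a00)
  (PL.C (nat_lit 0x24f42b231) (nat_lit 0x0) (nat_lit 0x157ef7d8c080)
  (PL.C (nat_lit 0x250218391) (nat_lit 0x0) (nat_lit 0x17b562701500)
  (PL.C (nat_lit 0x2553a6927) (nat_lit 0xd1ed99105a00) (nat_lit 0x0)
  (PL.C (nat_lit 0x25a5e8a61) (nat_lit 0x0) (nat_lit 0x17b562701500)
  (PL.C (nat_lit 0x25ff0ef13) (nat_lit 0x0) (nat_lit 0x1d819fc8800)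
  (PL.C (nat_lit 0x2652cac15) (nat_lit 0x8bd02602300) (nat_lit 0x0)
  (PL.C (nat_lit 0x26a73f183) (nat_lit 0x0) (nat_lit 0x1d819fc8800) lm_291))))))))))))))))))))

noncomputable def lm_289 : PL :=
  (PL.C (nat_lit 0x1b1cf97a1) (nat_lit 0x0) (nat_lit 0x21f91e631800)
  (PL.C (nat_lit 0x1b7dd7747) (nat_lit 0x1a5ceb7b6d00) (nat_lit 0x0)
  (PL.C (nat_lit 0x1bc19525f) (nat_lit 0x0) (nat_lit 0x71f4d5b2700)
  (PL.C (nat_lit 0x1c11ba4f3) (nat_lit 0x0) (nat_lit 0x4f976f000400)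
  (PL.C (nat_lit 0x1c60bc91f) (nat_lit 0x0) (nat_lit 0x17bae7c800)
  (PL.C (nat_lit 0x1cd1973f9) (nat_lit 0x0) (nat_lit 0x1255d6876e80)
  (PL.C (nat_lit 0x1d22b58fd) (nat_lit 0x0) (nat_lit 0xd6566a2c00)
  (PL.C (nat_lit 0x1d46de55f) (nat_lit 0x0) (nat_lit 0x4f976f000400)
  (PL.C (nat_lit 0x1d618b36d) (nat_lit 0x0) (nat_lit 0xfb60e138200)
  (PL.C (nat_lit 0x1d6690bf7) (nat_lit 0x66d908b82c00) (nat_lit 0x0)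
  (PL.C (nat_lit 0x1d87cc0b5) (nat_lit 0x0) (nat_lit 0x3a7d66db600)
  (PL.C (nat_lit 0x1dbe8510b) (nat_lit 0x0) (nat_lit 0x1050696d3200)
  (PL.C (nat_lit 0x1dd74cabf) (nat_lit 0x0) (nat_lit 0x3bb1e44e800)
  (PL.C (nat_lit 0x1df9befb5) (nat_lit 0xe7d3271800) (nat_lit 0x0)
  (PL.C (nat_lit 0x1e0efc5bd) (nat_lit 0x0) (nat_lit 0x7454e89900)
  (PL.C (nat_lit 0x1e190fa09) (nat_lit 0xf7a13030600) (nat_lit 0x0)
  (PL.C (nat_lit 0x1e2a5f927) (nat_lit 0x0) (nat_lit 0x157ef7d8c080)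
  (PL.C (nat_lit 0x1e622cc07) (nat_lit 0x0) (nat_lit 0xfb60e138200)
  (PL.C (nat_lit 0x1e691e5b1) (nat_lit 0x1dd8f227400) (nat_lit 0x0)
  (PL.C (nat_lit 0x1f04b377b) (nat_lit 0xe7d3271800) (nat_lit 0x0) lm_290))))))))))))))))))))

noncomputable def lm_288 : PL :=
  (PL.C (nat_lit 0x16b60acdb) (nat_lit 0x19806d624100) (nat_lit 0x0)
  (PL.C (nat_lit 0x16d23a6e9) (nat_lit 0x39f4c9c6000) (nat_lit 0x0)
  (PL.C (nat_lit 0x17398e089) (nat_lit 0x2b779754800) (nat_lit 0x0)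
  (PL.C (nat_lit 0x17af10901) (nat_lit 0x0) (nat_lit 0x27cc156a000)
  (PL.C (nat_lit 0x17fc9972f) (nat_lit 0x0) (nat_lit 0x21f91e631800)
  (PL.C (nat_lit 0x18502a0c5) (nat_lit 0x0) (nat_lit 0x23564b22a00)
  (PL.C (nat_lit 0x185893037) (nat_lit 0x0) (nat_lit 0x24a7ce619500)
  (PL.C (nat_lit 0x1874ad7dd) (nat_lit 0x0) (nat_lit 0x5a4245660800)
  (PL.C (nat_lit 0x18890d389) (nat_lit 0x1cfa64e3000) (nat_lit 0x0)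
  (PL.C (nat_lit 0x188e39ed1) (nat_lit 0x0) (nat_lit 0x1255d6876e80)
  (PL.C (nat_lit 0x18a08e92d) (nat_lit 0x0) (nat_lit 0x129dcdc2d80)
  (PL.C (nat_lit 0x18bf1ef6f) (nat_lit 0x5a2a8a7e4000) (nat_lit 0x0)
  (PL.C (nat_lit 0x1900f1c87) (nat_lit 0x0) (nat_lit 0xe7d3271800)
  (PL.C (nat_lit 0x1962c5dcd) (nat_lit 0x138245ef800) (nat_lit 0x0)
  (PL.C (nat_lit 0x197bd88a9) (nat_lit 0x22232281fd00) (nat_lit 0x0)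
  (PL.C (nat_lit 0x19ae96b97) (nat_lit 0x0) (nat_lit 0x3fa94a62600)
  (PL.C (nat_lit 0x1ab909ebd) (nat_lit 0x34060fd400) (nat_lit 0x0)
  (PL.C (nat_lit 0x1ac6d06cd) (nat_lit 0x1afc0c68bf00) (nat_lit 0x0)
  (PL.C (nat_lit 0x1ae76761f) (nat_lit 0x19806d624100) (nat_lit 0x0)
  (PL.C (nat_lit 0x1b0441f51) (nat_lit 0x0) (nat_lit 0x3a7d66db600) lm_289))))))))))))))))))))

noncomputable def lm_287 : PL :=
  (PL.C (nat_lit 0x148d0b475) (nat_lit 0x0) (nat_lit 0x3fa94a62600)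
  (PL.C (nat_lit 0x148d43953) (nat_lit 0x0) (nat_lit 0x151652db100)
  (PL.C (nat_lit 0x14a2bbf1f) (nat_lit 0x74628d7f7ec0) (nat_lit 0x0)
  (PL.C (nat_lit 0x14ba8dfd5) (nat_lit 0x0) (nat_lit 0x7454e89900)
  (PL.C (nat_lit 0x14d035aa9) (nat_lit 0x375b2dc700) (nat_lit 0x0)
  (PL.C (nat_lit 0x14dbd844d) (nat_lit 0x0) (nat_lit 0x5689755b4500)
  (PL.C (nat_lit 0x14df4ec8b) (nat_lit 0xbaa3218500) (nat_lit 0x0)
  (PL.C (nat_lit 0x14f3ec3cf) (nat_lit 0x2975a7b30600) (nat_lit 0x0)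
  (PL.C (nat_lit 0x14f5b15a5) (nat_lit 0x0) (nat_lit 0x2f31627900)
  (PL.C (nat_lit 0x1509cfd8b) (nat_lit 0x0) (nat_lit 0x475c9a9d3f80)
  (PL.C (nat_lit 0x156e9c3e9) (nat_lit 0x0) (nat_lit 0x178dcf97800)
  (PL.C (nat_lit 0x159dd740f) (nat_lit 0x1005c9ada00) (nat_lit 0x0)
  (PL.C (nat_lit 0x15b23aab3) (nat_lit 0xe7d3271800) (nat_lit 0x0)
  (PL.C (nat_lit 0x16040bb8b) (nat_lit 0x61be7659d800) (nat_lit 0x0)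
  (PL.C (nat_lit 0x16056bd9b) (nat_lit 0x0) (nat_lit 0x7454e89900)
  (PL.C (nat_lit 0x161ed7529) (nat_lit 0x2290a78cedd00) (nat_lit 0x0)
  (PL.C (nat_lit 0x1635f334d) (nat_lit 0x0) (nat_lit 0x151652db100)
  (PL.C (nat_lit 0x164dc5403) (nat_lit 0x34060fd400) (nat_lit 0x0)
  (PL.C (nat_lit 0x169a880c1) (nat_lit 0x1afc0c68bf00) (nat_lit 0x0)
  (PL.C (nat_lit 0x16a21b9fd) (nat_lit 0x1255d6876e80) (nat_lit 0x0) lm_288))))))))))))))))))))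

noncomputable def lm_286 : PL :=
  (PL.C (nat_lit 0x1318734ef) (nat_lit 0x0) (nat_lit 0x71f4d5b2700)
  (PL.C (nat_lit 0x131b214b1) (nat_lit 0x7454e89900) (nat_lit 0x0)
  (PL.C (nat_lit 0x132c6632b) (nat_lit 0x0) (nat_lit 0x4ff7bcdcb00)
  (PL.C (nat_lit 0x137542f99) (nat_lit 0x22232281fd00) (nat_lit 0x0)
  (PL.C (nat_lit 0x1391d9827) (nat_lit 0x0) (nat_lit 0xe7d3271800)
  (PL.C (nat_lit 0x13a2272eb) (nat_lit 0x5a2a8a7e4000) (nat_lit 0x0)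
  (PL.C (nat_lit 0x13afdd5ce) (nat_lit 0x0) (nat_lit 0x8c2b6cbd00)
  (PL.C (nat_lit 0x13c5419dd) (nat_lit 0x9012b51d300) (nat_lit 0x0)
  (PL.C (nat_lit 0x13cd6b77d) (nat_lit 0x1cfa64e3000) (nat_lit 0x0)
  (PL.C (nat_lit 0x13ed6f813) (nat_lit 0x0) (nat_lit 0x13969f8f9000)
  (PL.C (nat_lit 0x140217a45) (nat_lit 0x0) (nat_lit 0x5a4245660800)
  (PL.C (nat_lit 0x140470451) (nat_lit 0x0) (nat_lit 0x9f8dc99f2800)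
  (PL.C (nat_lit 0x14179d915) (nat_lit 0x1dd8f227400) (nat_lit 0x0)
  (PL.C (nat_lit 0x141959b15) (nat_lit 0x808cb7159e00) (nat_lit 0x0)
  (PL.C (nat_lit 0x14285aae1) (nat_lit 0xf7a13030600) (nat_lit 0x0)
  (PL.C (nat_lit 0x14308d267) (nat_lit 0x0) (nat_lit 0x4f976f000400)
  (PL.C (nat_lit 0x1445a4a83) (nat_lit 0x0) (nat_lit 0x13969f8f9000)
  (PL.C (nat_lit 0x1454c6b57) (nat_lit 0x0) (nat_lit 0x3bb1e44e800)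
  (PL.C (nat_lit 0x1475a5959) (nat_lit 0x375b2dc700) (nat_lit 0x0)
  (PL.C (nat_lit 0x148adaeaf) (nat_lit 0x0) (nat_lit 0x1050696d3200) lm_287))))))))))))))))))))

noncomputable def lm_285 : PL :=
  (PL.C (nat_lit 0x119ba9441) (nat_lit 0x0) (nat_lit 0x475c9a9d3f80)
  (PL.C (nat_lit 0x119e959f7) (nat_lit 0x0) (nat_lit 0x8e616eb00)
  (PL.C (nat_lit 0x11bbb5979) (nat_lit 0x0) (nat_lit 0x375b2dc700)
  (PL.C (nat_lit 0x11c276ef7) (nat_lit 0x0) (nat_lit 0x5689755b4500)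
  (PL.C (nat_lit 0x11d0b147e) (nat_lit 0x0) (nat_lit 0xa0a62cc800)
  (PL.C (nat_lit 0x11f39d955) (nat_lit 0x153e108727340) (nat_lit 0x0)
  (PL.C (nat_lit 0x1202d6a36) (nat_lit 0x0) (nat_lit 0x8c2b6cbd00)
  (PL.C (nat_lit 0x121b1a2cd) (nat_lit 0x0) (nat_lit 0x4f976f000400)
  (PL.C (nat_lit 0x124300b0b) (nat_lit 0x0) (nat_lit 0x9f8dc99f2800)
  (PL.C (nat_lit 0x127729865) (nat_lit 0x13969f8f9000) (nat_lit 0x0)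
  (PL.C (nat_lit 0x1296dcb47) (nat_lit 0x0) (nat_lit 0x1255d6876e80)
  (PL.C (nat_lit 0x129bee2db) (nat_lit 0x4f976f000400) (nat_lit 0x0)
  (PL.C (nat_lit 0x12a188cc9) (nat_lit 0x367f2e9fe00) (nat_lit 0x0)
  (PL.C (nat_lit 0x12b10e445) (nat_lit 0x0) (nat_lit 0x70fc957b400)
  (PL.C (nat_lit 0x12bab0ed5) (nat_lit 0x7454e89900) (nat_lit 0x0)
  (PL.C (nat_lit 0x12bfd3f41) (nat_lit 0x0) (nat_lit 0x24a7ce619500)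
  (PL.C (nat_lit 0x12da3f3d3) (nat_lit 0x0) (nat_lit 0x70fc957b400)
  (PL.C (nat_lit 0x12f3b7cd3) (nat_lit 0x2975a7b30600) (nat_lit 0x0)
  (PL.C (nat_lit 0x12f56150f) (nat_lit 0x0) (nat_lit 0x375b2dc700)
  (PL.C (nat_lit 0x130c6498b) (nat_lit 0x367f2e9fe00) (nat_lit 0x0) lm_286))))))))))))))))))))

noncomputable def lm_284 : PL :=
  (PL.C (nat_lit 0x1024045ff) (nat_lit 0x0) (nat_lit 0x71f4d5b2700)
  (PL.C (nat_lit 0x102f74317) (nat_lit 0x310fc1f1700) (nat_lit 0x0)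
  (PL.C (nat_lit 0x1034e107b) (nat_lit 0x69875e93f40) (nat_lit 0x0)
  (PL.C (nat_lit 0x104160bfb) (nat_lit 0x0) (nat_lit 0x24493bae2100)
  (PL.C (nat_lit 0x105c3f7b5) (nat_lit 0x0) (nat_lit 0xd4e1586f4000)
  (PL.C (nat_lit 0x105ffca73) (nat_lit 0x0) (nat_lit 0x2b779754800)
  (PL.C (nat_lit 0x10721c269) (nat_lit 0x0) (nat_lit 0x71f4d5b2700)
  (PL.C (nat_lit 0x108685303) (nat_lit 0xfba292e84000) (nat_lit 0x0)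
  (PL.C (nat_lit 0x10b3c3191) (nat_lit 0x56ef2ea900) (nat_lit 0x0)
  (PL.C (nat_lit 0x10c44229d) (nat_lit 0x0) (nat_lit 0x27cc156a000)
  (PL.C (nat_lit 0x10c5acbff) (nat_lit 0x0) (nat_lit 0x2f31627900)
  (PL.C (nat_lit 0x10d26819f) (nat_lit 0x0) (nat_lit 0x13969f8f9000)
  (PL.C (nat_lit 0x10f77a429) (nat_lit 0x808cb7159e00) (nat_lit 0x0)
  (PL.C (nat_lit 0x111cde1cf) (nat_lit 0x0) (nat_lit 0x13969f8f9000)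
  (PL.C (nat_lit 0x11266f20b) (nat_lit 0x744919b98800) (nat_lit 0x0)
  (PL.C (nat_lit 0x11294805d) (nat_lit 0x0) (nat_lit 0x1ff1c1dc000)
  (PL.C (nat_lit 0x113cc3583) (nat_lit 0x73e9938c00) (nat_lit 0x0)
  (PL.C (nat_lit 0x1145a6173) (nat_lit 0x13969f8f9000) (nat_lit 0x0)
  (PL.C (nat_lit 0x114c3a75d) (nat_lit 0x744919b98800) (nat_lit 0x0)
  (PL.C (nat_lit 0x1162bfe25) (nat_lit 0x0) (nat_lit 0x6db41e0ec00) lm_285))))))))))))))))))))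

noncomputable def lm_283 : PL :=
  (PL.C (nat_lit 0xede83802) (nat_lit 0x0) (nat_lit 0xa0a62cc800)
  (PL.C (nat_lit 0xef2153bd) (nat_lit 0x8118f217200) (nat_lit 0x0)
  (PL.C (nat_lit 0xf1d3cef9) (nat_lit 0x0) (nat_lit 0x34926b32aa00)
  (PL.C (nat_lit 0xf3feb8ed) (nat_lit 0x0) (nat_lit 0x6db41e0ec00)
  (PL.C (nat_lit 0xf47c7ffd) (nat_lit 0x0) (nat_lit 0x8e616eb00)
  (PL.C (nat_lit 0xf6186beb) (nat_lit 0x73e9938c00) (nat_lit 0x0)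
  (PL.C (nat_lit 0xf6635143) (nat_lit 0x4f976f000400) (nat_lit 0x0)
  (PL.C (nat_lit 0xf848c84b) (nat_lit 0x310fc1f1700) (nat_lit 0x0)
  (PL.C (nat_lit 0xf96762b9) (nat_lit 0x13969f8f9000) (nat_lit 0x0)
  (PL.C (nat_lit 0xf9936a3b) (nat_lit 0x0) (nat_lit 0xa31af60500)
  (PL.C (nat_lit 0xfbb969ad) (nat_lit 0x25916b05600) (nat_lit 0x0)
  (PL.C (nat_lit 0xfc3b2cbd) (nat_lit 0x0) (nat_lit 0x565818815580)
  (PL.C (nat_lit 0xfcf776e9) (nat_lit 0x1255d6876e80) (nat_lit 0x0)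
  (PL.C (nat_lit 0xfd20fe27) (nat_lit 0x275dafaa6e80) (nat_lit 0x0)
  (PL.C (nat_lit 0xfd4c4185) (nat_lit 0x13e024236f00) (nat_lit 0x0)
  (PL.C (nat_lit 0xfde4252b) (nat_lit 0x0) (nat_lit 0x2f31627900)
  (PL.C (nat_lit 0x100420441) (nat_lit 0x0) (nat_lit 0x560518a4740)
  (PL.C (nat_lit 0x10049efc3) (nat_lit 0x39f4c9c6000) (nat_lit 0x0)
  (PL.C (nat_lit 0x1011780dd) (nat_lit 0x56ef2ea9000) (nat_lit 0x0)
  (PL.C (nat_lit 0x101e9d2eb) (nat_lit 0x56ef2ea900) (nat_lit 0x0) lm_284))))))))))))))))))))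

noncomputable def lm_282 : PL :=
  (PL.C (nat_lit 0xd53380ed) (nat_lit 0x754933ade200) (nat_lit 0x0)
  (PL.C (nat_lit 0xd5ae2303) (nat_lit 0x0) (nat_lit 0xd4e1586f4000)
  (PL.C (nat_lit 0xd5d2a859) (nat_lit 0x13e024236f00) (nat_lit 0x0)
  (PL.C (nat_lit 0xd7396963) (nat_lit 0x0) (nat_lit 0x73c35b923f00)
  (PL.C (nat_lit 0xd76a9935) (nat_lit 0x71f4d5b2700) (nat_lit 0x0)
  (PL.C (nat_lit 0xd851a09b) (nat_lit 0xa31af60500) (nat_lit 0x0)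
  (PL.C (nat_lit 0xdb943a11) (nat_lit 0x1005c9ada00) (nat_lit 0x0)
  (PL.C (nat_lit 0xdcf88b49) (nat_lit 0x275dafaa6e80) (nat_lit 0x0)
  (PL.C (nat_lit 0xdd429c65) (nat_lit 0x138d7993f480) (nat_lit 0x0)
  (PL.C (nat_lit 0xdd781ea7) (nat_lit 0x0) (nat_lit 0x178dcf97800)
  (PL.C (nat_lit 0xdf920e6e) (nat_lit 0x91bb50da00) (nat_lit 0x0)
  (PL.C (nat_lit 0xe1968d95) (nat_lit 0x0) (nat_lit 0x71f4d5b2700)
  (PL.C (nat_lit 0xe2d46c0f) (nat_lit 0x0) (nat_lit 0x73e9938c00)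
  (PL.C (nat_lit 0xe63a2e17) (nat_lit 0x0) (nat_lit 0xd6566a2c00)
  (PL.C (nat_lit 0xe6b0dc47) (nat_lit 0x62be3c45800) (nat_lit 0x0)
  (PL.C (nat_lit 0xe743f07d) (nat_lit 0x2f31627900) (nat_lit 0x0)
  (PL.C (nat_lit 0xe79c869f) (nat_lit 0x2b779754800) (nat_lit 0x0)
  (PL.C (nat_lit 0xe948f87f) (nat_lit 0x13969f8f9000) (nat_lit 0x0)
  (PL.C (nat_lit 0xe9972a43) (nat_lit 0x0) (nat_lit 0x1251f7da2680)
  (PL.C (nat_lit 0xea91af6d) (nat_lit 0x0) (nat_lit 0x73e9938c00) lm_283))))))))))))))))))))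

noncomputable def lm_281 : PL :=
  (PL.C (nat_lit 0xc9046cdb) (nat_lit 0x0) (nat_lit 0x1ff1c1dc000)
  (PL.C (nat_lit 0xc917f7e2) (nat_lit 0x0) (nat_lit 0x1dda0adaa00)
  (PL.C (nat_lit 0xc96e9697) (nat_lit 0x25916b05600) (nat_lit 0x0)
  (PL.C (nat_lit 0xcb2a7d71) (nat_lit 0x0) (nat_lit 0xa31af60500)
  (PL.C (nat_lit 0xcb2edbb2) (nat_lit 0x1517540ed00) (nat_lit 0x0)
  (PL.C (nat_lit 0xcc0ba263) (nat_lit 0x60a5af9a5f00) (nat_lit 0x0)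
  (PL.C (nat_lit 0xcc23d69d) (nat_lit 0x0) (nat_lit 0x565818815580)
  (PL.C (nat_lit 0xce6272b1) (nat_lit 0xbaa3218500) (nat_lit 0x0)
  (PL.C (nat_lit 0xcea7a02d) (nat_lit 0x0) (nat_lit 0xdd10451800)
  (PL.C (nat_lit 0xd01f8ae1) (nat_lit 0x0) (nat_lit 0x73c35b923f00)
  (PL.C (nat_lit 0xd0431d13) (nat_lit 0x184e6cf61bc00) (nat_lit 0x0)
  (PL.C (nat_lit 0xd12e8349) (nat_lit 0x0) (nat_lit 0x2a98e5ef3a00)
  (PL.C (nat_lit 0xd19734b7) (nat_lit 0x0) (nat_lit 0x4ff7bcdcb00)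
  (PL.C (nat_lit 0xd1c00645) (nat_lit 0x3f498626200) (nat_lit 0x0)
  (PL.C (nat_lit 0xd2b22577) (nat_lit 0x0) (nat_lit 0x748e908c5d00)
  (PL.C (nat_lit 0xd361acfb) (nat_lit 0x0) (nat_lit 0xe3e9ab64e00)
  (PL.C (nat_lit 0xd38e41d3) (nat_lit 0x0) (nat_lit 0x4ff7bcdcb00)
  (PL.C (nat_lit 0xd3e52873) (nat_lit 0x138245ef800) (nat_lit 0x0)
  (PL.C (nat_lit 0xd455ae49) (nat_lit 0x39f4c9c6000) (nat_lit 0x0)
  (PL.C (nat_lit 0xd4ec2271) (nat_lit 0x0) (nat_lit 0x34926b32aa00) lm_282))))))))))))))))))))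

noncomputable def lm_280 : PL :=
  (PL.C (nat_lit 0xb8a5421b) (nat_lit 0x0) (nat_lit 0xc1f4cd903100)
  (PL.C (nat_lit 0xb90f8407) (nat_lit 0xa31af60500) (nat_lit 0x0)
  (PL.C (nat_lit 0xb972a96e) (nat_lit 0x56790a56200) (nat_lit 0x0)
  (PL.C (nat_lit 0xb97a66a9) (nat_lit 0x0) (nat_lit 0x5e373e5e000)
  (PL.C (nat_lit 0xba3c2acd) (nat_lit 0x0) (nat_lit 0x44db7573a600)
  (PL.C (nat_lit 0xbd4b1f71) (nat_lit 0x0) (nat_lit 0x1d40e808c00)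
  (PL.C (nat_lit 0xbdacb3c1) (nat_lit 0x6a0961766900) (nat_lit 0x0)
  (PL.C (nat_lit 0xbe938ddb) (nat_lit 0x163c7f5147900) (nat_lit 0x0)
  (PL.C (nat_lit 0xbf5ff155) (nat_lit 0x0) (nat_lit 0x2a98e5ef3a00)
  (PL.C (nat_lit 0xc00f06e5) (nat_lit 0x0) (nat_lit 0x4ff65a9f2400)
  (PL.C (nat_lit 0xc2bd31a3) (nat_lit 0x101c7f29cab00) (nat_lit 0x0)
  (PL.C (nat_lit 0xc2fe77d7) (nat_lit 0x4ff7bcdcb00) (nat_lit 0x0)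
  (PL.C (nat_lit 0xc3aa35b1) (nat_lit 0xf73fec99b280) (nat_lit 0x0)
  (PL.C (nat_lit 0xc49d0b1b) (nat_lit 0x0) (nat_lit 0x1b2178b1f800)
  (PL.C (nat_lit 0xc52fd08f) (nat_lit 0x0) (nat_lit 0xdd10451800)
  (PL.C (nat_lit 0xc56fe815) (nat_lit 0x0) (nat_lit 0x28c6bd81400)
  (PL.C (nat_lit 0xc623ccaf) (nat_lit 0x37db4b37880) (nat_lit 0x0)
  (PL.C (nat_lit 0xc6bb0886) (nat_lit 0x1517540ed00) (nat_lit 0x0)
  (PL.C (nat_lit 0xc760982e) (nat_lit 0x0) (nat_lit 0x1dda0adaa00)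
  (PL.C (nat_lit 0xc7b679a1) (nat_lit 0x0) (nat_lit 0x2f31627900) lm_281))))))))))))))))))))

noncomputable def lm_279 : PL :=
  (PL.C (nat_lit 0xad19aac1) (nat_lit 0x2f31627900) (nat_lit 0x0)
  (PL.C (nat_lit 0xad292c1f) (nat_lit 0x730948c4f80) (nat_lit 0x0)
  (PL.C (nat_lit 0xad3c1511) (nat_lit 0x0) (nat_lit 0xf42fd0529000)
  (PL.C (nat_lit 0xadf10ed5) (nat_lit 0x0) (nat_lit 0x565818815580)
  (PL.C (nat_lit 0xae72e7a1) (nat_lit 0x0) (nat_lit 0x1251f7da2680)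
  (PL.C (nat_lit 0xaea6c5a9) (nat_lit 0x0) (nat_lit 0x25ae7eee00)
  (PL.C (nat_lit 0xaf4b686b) (nat_lit 0xf230b434d000) (nat_lit 0x0)
  (PL.C (nat_lit 0xb0d2a62b) (nat_lit 0x9012b51d300) (nat_lit 0x0)
  (PL.C (nat_lit 0xb10fd019) (nat_lit 0x16d8568f800) (nat_lit 0x0)
  (PL.C (nat_lit 0xb1dc3393) (nat_lit 0x1c0211755b00) (nat_lit 0x0)
  (PL.C (nat_lit 0xb2706027) (nat_lit 0xadde5d5200) (nat_lit 0x0)
  (PL.C (nat_lit 0xb296025f) (nat_lit 0x310fc1f1700) (nat_lit 0x0)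
  (PL.C (nat_lit 0xb2e732aa) (nat_lit 0x91bb50da00) (nat_lit 0x0)
  (PL.C (nat_lit 0xb3d2a6c1) (nat_lit 0x0) (nat_lit 0xd36f683600)
  (PL.C (nat_lit 0xb3f99b61) (nat_lit 0x0) (nat_lit 0x1c0af78c4600)
  (PL.C (nat_lit 0xb484420d) (nat_lit 0x17323e5a2dc80) (nat_lit 0x0)
  (PL.C (nat_lit 0xb49381cf) (nat_lit 0x184de9c0e00) (nat_lit 0x0)
  (PL.C (nat_lit 0xb5d852c9) (nat_lit 0x0) (nat_lit 0x56ef2ea900)
  (PL.C (nat_lit 0xb5ebb333) (nat_lit 0x0) (nat_lit 0x399deb8f9400)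
  (PL.C (nat_lit 0xb7dd7902) (nat_lit 0x0) (nat_lit 0x165f000f800) lm_280))))))))))))))))))))

noncomputable def lm_278 : PL :=
  (PL.C (nat_lit 0xa3476a99) (nat_lit 0x0) (nat_lit 0xc970b9cf2300)
  (PL.C (nat_lit 0xa3f68777) (nat_lit 0x37db4b37880) (nat_lit 0x0)
  (PL.C (nat_lit 0xa41047f2) (nat_lit 0x0) (nat_lit 0x165f000f800)
  (PL.C (nat_lit 0xa463dd6f) (nat_lit 0x62be3c45800) (nat_lit 0x0)
  (PL.C (nat_lit 0xa483e16d) (nat_lit 0x8118f217200) (nat_lit 0x0)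
  (PL.C (nat_lit 0xa49af773) (nat_lit 0x0) (nat_lit 0x310fc1f1700)
  (PL.C (nat_lit 0xa5f8eec7) (nat_lit 0x15bbcbaa400) (nat_lit 0x0)
  (PL.C (nat_lit 0xa66246d2) (nat_lit 0x1f7ab51d200) (nat_lit 0x0)
  (PL.C (nat_lit 0xa7c445c5) (nat_lit 0x2b92e78bd300) (nat_lit 0x0)
  (PL.C (nat_lit 0xa7d0f11e) (nat_lit 0x0) (nat_lit 0x74029641c00)
  (PL.C (nat_lit 0xa899c815) (nat_lit 0x0) (nat_lit 0x56ef2ea900)
  (PL.C (nat_lit 0xa9263de1) (nat_lit 0x0) (nat_lit 0x1c0af78c4600)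
  (PL.C (nat_lit 0xa942c372) (nat_lit 0x91bb50da00) (nat_lit 0x0)
  (PL.C (nat_lit 0xa9e97f2b) (nat_lit 0x0) (nat_lit 0x4ff65a9f2400)
  (PL.C (nat_lit 0xaa54ab77) (nat_lit 0x0) (nat_lit 0xb8725b17f80)
  (PL.C (nat_lit 0xaa9b0057) (nat_lit 0xadde5d5200) (nat_lit 0x0)
  (PL.C (nat_lit 0xabaed459) (nat_lit 0x0) (nat_lit 0x25ae7eee00)
  (PL.C (nat_lit 0xac396f99) (nat_lit 0x0) (nat_lit 0x24493bae2100)
  (PL.C (nat_lit 0xac60cbaf) (nat_lit 0x1c0211755b00) (nat_lit 0x0)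
  (PL.C (nat_lit 0xac750253) (nat_lit 0x0) (nat_lit 0xbbb885176700) lm_279))))))))))))))))))))

noncomputable def lm_277 : PL :=
  (PL.C (nat_lit 0x997c1eba) (nat_lit 0x0) (nat_lit 0x357af7b200)
  (PL.C (nat_lit 0x99afe3bf) (nat_lit 0x39f4c9c6000) (nat_lit 0x0)
  (PL.C (nat_lit 0x9a2d4afe) (nat_lit 0x0) (nat_lit 0x91bb50da00)
  (PL.C (nat_lit 0x9aa8fedf) (nat_lit 0x0) (nat_lit 0xc862e290840)
  (PL.C (nat_lit 0x9bfd3047) (nat_lit 0x0) (nat_lit 0x34926b32aa00)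
  (PL.C (nat_lit 0x9c611f9e) (nat_lit 0x165f000f800) (nat_lit 0x0)
  (PL.C (nat_lit 0x9cb1408d) (nat_lit 0x257da42cc0800) (nat_lit 0x0)
  (PL.C (nat_lit 0x9d54f241) (nat_lit 0x0) (nat_lit 0x696c071cac00)
  (PL.C (nat_lit 0x9dca64dd) (nat_lit 0x0) (nat_lit 0x71f4d5b2700)
  (PL.C (nat_lit 0x9dfdae4f) (nat_lit 0x0) (nat_lit 0x1d40e808c00)
  (PL.C (nat_lit 0x9ee93553) (nat_lit 0x103d4cb156e00) (nat_lit 0x0)
  (PL.C (nat_lit 0x9f16520f) (nat_lit 0x25ae7eee00) (nat_lit 0x0)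
  (PL.C (nat_lit 0xa01d6c85) (nat_lit 0x6a0961766900) (nat_lit 0x0)
  (PL.C (nat_lit 0xa0276d75) (nat_lit 0x310fc1f1700) (nat_lit 0x0)
  (PL.C (nat_lit 0xa05317b1) (nat_lit 0x565818815580) (nat_lit 0x0)
  (PL.C (nat_lit 0xa0e04c87) (nat_lit 0x163c7f5147900) (nat_lit 0x0)
  (PL.C (nat_lit 0xa1885d23) (nat_lit 0x16d8568f800) (nat_lit 0x0)
  (PL.C (nat_lit 0xa1c2fc05) (nat_lit 0x0) (nat_lit 0x70f47f0c000)
  (PL.C (nat_lit 0xa2359a8d) (nat_lit 0x0) (nat_lit 0xd6566a2c00)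
  (PL.C (nat_lit 0xa2a9d09e) (nat_lit 0x56790a56200) (nat_lit 0x0) lm_278))))))))))))))))))))

noncomputable def lm_276 : PL :=
  (PL.C (nat_lit 0x936edc0d) (nat_lit 0x1cc540732900) (nat_lit 0x0)
  (PL.C (nat_lit 0x93c14741) (nat_lit 0x0) (nat_lit 0x30d189f745f00)
  (PL.C (nat_lit 0x93d9cef7) (nat_lit 0xef4366e3000) (nat_lit 0x0)
  (PL.C (nat_lit 0x93dceaf9) (nat_lit 0x56ef2ea9000) (nat_lit 0x0)
  (PL.C (nat_lit 0x946bd64b) (nat_lit 0x650069e9b000) (nat_lit 0x0)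
  (PL.C (nat_lit 0x94785ff9) (nat_lit 0x1cfa64e3000) (nat_lit 0x0)
  (PL.C (nat_lit 0x9481a6a9) (nat_lit 0x0) (nat_lit 0x1dd8f227400)
  (PL.C (nat_lit 0x94ce3479) (nat_lit 0x25ae7eee00) (nat_lit 0x0)
  (PL.C (nat_lit 0x9506e3f7) (nat_lit 0x0) (nat_lit 0x2f05c26a72900)
  (PL.C (nat_lit 0x952d13c3) (nat_lit 0x952f7b80300) (nat_lit 0x0)
  (PL.C (nat_lit 0x95663821) (nat_lit 0x0) (nat_lit 0x560518a4740)
  (PL.C (nat_lit 0x9576237b) (nat_lit 0x138d7993f480) (nat_lit 0x0)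
  (PL.C (nat_lit 0x95c8eb4f) (nat_lit 0x0) (nat_lit 0x9ff96657d00)
  (PL.C (nat_lit 0x9738480a) (nat_lit 0x165f000f800) (nat_lit 0x0)
  (PL.C (nat_lit 0x97796b23) (nat_lit 0x0) (nat_lit 0x28c6bd81400)
  (PL.C (nat_lit 0x97b33c23) (nat_lit 0x8dd29c68a40) (nat_lit 0x0)
  (PL.C (nat_lit 0x97cc6b85) (nat_lit 0xe0031b600) (nat_lit 0x0)
  (PL.C (nat_lit 0x98625901) (nat_lit 0x0) (nat_lit 0xc970b9cf2300)
  (PL.C (nat_lit 0x99018a85) (nat_lit 0x8dd29c68a40) (nat_lit 0x0)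
  (PL.C (nat_lit 0x991f778b) (nat_lit 0x0) (nat_lit 0xe3c09cdf8400) lm_277))))))))))))))))))))

noncomputable def lm_275 : PL :=
  (PL.C (nat_lit 0x8b1336d7) (nat_lit 0xf230b434d000) (nat_lit 0x0)
  (PL.C (nat_lit 0x8b7172e5) (nat_lit 0x0) (nat_lit 0xa88271f8880)
  (PL.C (nat_lit 0x8b745786) (nat_lit 0x0) (nat_lit 0x146fb2757700)
  (PL.C (nat_lit 0x8c0bdf11) (nat_lit 0x93dba9fcd500) (nat_lit 0x0)
  (PL.C (nat_lit 0x8cf35dff) (nat_lit 0x0) (nat_lit 0x238ff4c9c780)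
  (PL.C (nat_lit 0x8dbacf19) (nat_lit 0x0) (nat_lit 0xf42fd0529000)
  (PL.C (nat_lit 0x8e534529) (nat_lit 0x71f4d5b2700) (nat_lit 0x0)
  (PL.C (nat_lit 0x8e5f8f29) (nat_lit 0x10a7284da5000) (nat_lit 0x0)
  (PL.C (nat_lit 0x8ec9d725) (nat_lit 0x754933ade200) (nat_lit 0x0)
  (PL.C (nat_lit 0x900481f3) (nat_lit 0x0) (nat_lit 0xe3e9ab64e00)
  (PL.C (nat_lit 0x90366b12) (nat_lit 0x0) (nat_lit 0x1f7ab51d200)
  (PL.C (nat_lit 0x90ed597d) (nat_lit 0x1cc540732900) (nat_lit 0x0)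
  (PL.C (nat_lit 0x918394ab) (nat_lit 0x0) (nat_lit 0x748e908c5d00)
  (PL.C (nat_lit 0x91931609) (nat_lit 0x0) (nat_lit 0x399deb8f9400)
  (PL.C (nat_lit 0x9194a4df) (nat_lit 0x0) (nat_lit 0x696c071cac00)
  (PL.C (nat_lit 0x92201cdb) (nat_lit 0x0) (nat_lit 0x2b779754800)
  (PL.C (nat_lit 0x922cbadb) (nat_lit 0x4708ea3074440) (nat_lit 0x0)
  (PL.C (nat_lit 0x92509eb1) (nat_lit 0x0) (nat_lit 0x70f47f0c000)
  (PL.C (nat_lit 0x9299d94f) (nat_lit 0x69875e93f40) (nat_lit 0x0)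
  (PL.C (nat_lit 0x92d576e9) (nat_lit 0x0) (nat_lit 0x34926b32aa00) lm_276))))))))))))))))))))

noncomputable def lm_274 : PL :=
  (PL.C (nat_lit 0x863f965f) (nat_lit 0x650069e9b000) (nat_lit 0x0)
  (PL.C (nat_lit 0x8649b9ba) (nat_lit 0x0) (nat_lit 0x74029641c00)
  (PL.C (nat_lit 0x864b5c8b) (nat_lit 0x0) (nat_lit 0x1cc540732900)
  (PL.C (nat_lit 0x866311d1) (nat_lit 0x53ffce0f600) (nat_lit 0x0)
  (PL.C (nat_lit 0x86ee5ff7) (nat_lit 0x2c39166dda00) (nat_lit 0x0)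
  (PL.C (nat_lit 0x86fe327b) (nat_lit 0x0) (nat_lit 0x518d7b02800)
  (PL.C (nat_lit 0x8731e809) (nat_lit 0x0) (nat_lit 0x4ff7bcdcb00)
  (PL.C (nat_lit 0x8756c435) (nat_lit 0x34926b32aa00) (nat_lit 0x0)
  (PL.C (nat_lit 0x8771a8f6) (nat_lit 0x1f7ab51d200) (nat_lit 0x0)
  (PL.C (nat_lit 0x878b38e7) (nat_lit 0x0) (nat_lit 0xb34dd7e3200)
  (PL.C (nat_lit 0x87d11817) (nat_lit 0x0) (nat_lit 0x1ab537096f80)
  (PL.C (nat_lit 0x8827af6d) (nat_lit 0x0) (nat_lit 0x1a498b0fc00)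
  (PL.C (nat_lit 0x88367b1b) (nat_lit 0x0) (nat_lit 0x310fc1f1700)
  (PL.C (nat_lit 0x885bd6ef) (nat_lit 0x3f498626200) (nat_lit 0x0)
  (PL.C (nat_lit 0x88b5eca1) (nat_lit 0x184de9c0e00) (nat_lit 0x0)
  (PL.C (nat_lit 0x89d538bd) (nat_lit 0x17323e5a2dc80) (nat_lit 0x0)
  (PL.C (nat_lit 0x8a006d69) (nat_lit 0x15bbcbaa400) (nat_lit 0x0)
  (PL.C (nat_lit 0x8a977007) (nat_lit 0x28f5771d2000) (nat_lit 0x0)
  (PL.C (nat_lit 0x8ae05de1) (nat_lit 0x0) (nat_lit 0x88c6d1f200)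
  (PL.C (nat_lit 0x8b0eea9d) (nat_lit 0x8118f217200) (nat_lit 0x0) lm_275))))))))))))))))))))

noncomputable def lm_273 : PL :=
  (PL.C (nat_lit 0x7d9d721d) (nat_lit 0x0) (nat_lit 0x1cc540732900)
  (PL.C (nat_lit 0x7dc78ce9) (nat_lit 0x8f414302d00) (nat_lit 0x0)
  (PL.C (nat_lit 0x7dcd4c13) (nat_lit 0x0) (nat_lit 0x30d189f745f00)
  (PL.C (nat_lit 0x7e3214f6) (nat_lit 0x5a55be2f800) (nat_lit 0x0)
  (PL.C (nat_lit 0x7e4e7227) (nat_lit 0x1dd8f227400) (nat_lit 0x0)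
  (PL.C (nat_lit 0x7f297669) (nat_lit 0x8cd3fa4069dc0) (nat_lit 0x0)
  (PL.C (nat_lit 0x7f954b8e) (nat_lit 0x0) (nat_lit 0x146fb2757700)
  (PL.C (nat_lit 0x7fcf0611) (nat_lit 0x9da818ad580) (nat_lit 0x0)
  (PL.C (nat_lit 0x80c32d17) (nat_lit 0x413362fec00) (nat_lit 0x0)
  (PL.C (nat_lit 0x8236f94b) (nat_lit 0x6ef91659500) (nat_lit 0x0)
  (PL.C (nat_lit 0x828ea89b) (nat_lit 0x0) (nat_lit 0xc862e290840)
  (PL.C (nat_lit 0x839ff00e) (nat_lit 0x7dead474800) (nat_lit 0x0)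
  (PL.C (nat_lit 0x83add5a3) (nat_lit 0x0) (nat_lit 0x565818815580)
  (PL.C (nat_lit 0x83f96ead) (nat_lit 0x2c39166dda00) (nat_lit 0x0)
  (PL.C (nat_lit 0x8417ddca) (nat_lit 0x0) (nat_lit 0x13eb74c60200)
  (PL.C (nat_lit 0x84676119) (nat_lit 0x0) (nat_lit 0x56d1fc5d1400)
  (PL.C (nat_lit 0x84aba1e9) (nat_lit 0x34926b32aa00) (nat_lit 0x0)
  (PL.C (nat_lit 0x84d00505) (nat_lit 0x0) (nat_lit 0xbbb885176700)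
  (PL.C (nat_lit 0x85245116) (nat_lit 0x91bb50da00) (nat_lit 0x0)
  (PL.C (nat_lit 0x858b295f) (nat_lit 0x0) (nat_lit 0x56d1fc5d1400) lm_274))))))))))))))))))))

noncomputable def lm_272 : PL :=
  (PL.C (nat_lit 0x7723de0f) (nat_lit 0x0) (nat_lit 0x3593d565240)
  (PL.C (nat_lit 0x775f3cb9) (nat_lit 0x952f7b80300) (nat_lit 0x0)
  (PL.C (nat_lit 0x779afb47) (nat_lit 0x8118f217200) (nat_lit 0x0)
  (PL.C (nat_lit 0x782f6b8d) (nat_lit 0x10a7284da5000) (nat_lit 0x0)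
  (PL.C (nat_lit 0x7862568a) (nat_lit 0x610753ad00) (nat_lit 0x0)
  (PL.C (nat_lit 0x7978739f) (nat_lit 0x0) (nat_lit 0x88c6d1f200)
  (PL.C (nat_lit 0x797c0a77) (nat_lit 0x1e6d31c50500) (nat_lit 0x0)
  (PL.C (nat_lit 0x79f06cd3) (nat_lit 0x60a5af9a5f00) (nat_lit 0x0)
  (PL.C (nat_lit 0x79fab9d1) (nat_lit 0x184de9c0e00) (nat_lit 0x0)
  (PL.C (nat_lit 0x7a1a35cf) (nat_lit 0x0) (nat_lit 0xbcc589e400)
  (PL.C (nat_lit 0x7a575231) (nat_lit 0x0) (nat_lit 0x25ae7eee00)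
  (PL.C (nat_lit 0x7a87c291) (nat_lit 0x1e6d31c50500) (nat_lit 0x0)
  (PL.C (nat_lit 0x7b274a79) (nat_lit 0x0) (nat_lit 0x7acc3b75f800)
  (PL.C (nat_lit 0x7b5fad5a) (nat_lit 0x0) (nat_lit 0x1f7ab51d200)
  (PL.C (nat_lit 0x7b64ed87) (nat_lit 0x730948c4f80) (nat_lit 0x0)
  (PL.C (nat_lit 0x7c74db01) (nat_lit 0x0) (nat_lit 0x25ae7eee00)
  (PL.C (nat_lit 0x7c870b57) (nat_lit 0x0) (nat_lit 0x184de9c0e00)
  (PL.C (nat_lit 0x7cba6e05) (nat_lit 0x0) (nat_lit 0x2f05c26a72900)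
  (PL.C (nat_lit 0x7ccf2313) (nat_lit 0x0) (nat_lit 0x17f55165000)
  (PL.C (nat_lit 0x7d7f0069) (nat_lit 0x1a498b0fc00) (nat_lit 0x0) lm_273))))))))))))))))))))

noncomputable def lm_271 : PL :=
  (PL.C (nat_lit 0x71739e05) (nat_lit 0x0) (nat_lit 0x39c9e2d781c0)
  (PL.C (nat_lit 0x71d22211) (nat_lit 0x10231e42e400) (nat_lit 0x0)
  (PL.C (nat_lit 0x7255853b) (nat_lit 0x0) (nat_lit 0x1b2178b1f800)
  (PL.C (nat_lit 0x72a688b3) (nat_lit 0x70922af12980) (nat_lit 0x0)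
  (PL.C (nat_lit 0x72ccf6a7) (nat_lit 0x38f6736f4bc0) (nat_lit 0x0)
  (PL.C (nat_lit 0x72fc1ec7) (nat_lit 0x4ff7bcdcb00) (nat_lit 0x0)
  (PL.C (nat_lit 0x730eff29) (nat_lit 0x2b744a8ec800) (nat_lit 0x0)
  (PL.C (nat_lit 0x7322a96b) (nat_lit 0x9d3a4a95a0c0) (nat_lit 0x0)
  (PL.C (nat_lit 0x73258027) (nat_lit 0x7fd6df9ae800) (nat_lit 0x0)
  (PL.C (nat_lit 0x736671d6) (nat_lit 0x0) (nat_lit 0x91bb50da00)
  (PL.C (nat_lit 0x73a83779) (nat_lit 0x0) (nat_lit 0x1c3ab0a9d100)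
  (PL.C (nat_lit 0x73e3d649) (nat_lit 0x0) (nat_lit 0x3468792e52500)
  (PL.C (nat_lit 0x73fe527f) (nat_lit 0x0) (nat_lit 0x8118f217200)
  (PL.C (nat_lit 0x747ab8f1) (nat_lit 0x0) (nat_lit 0x53ffce0f600)
  (PL.C (nat_lit 0x747eb2cd) (nat_lit 0x0) (nat_lit 0x1b2178b1f800)
  (PL.C (nat_lit 0x74a717ff) (nat_lit 0x0) (nat_lit 0x9c3eb855300)
  (PL.C (nat_lit 0x76389115) (nat_lit 0x0) (nat_lit 0xcd4493770100)
  (PL.C (nat_lit 0x76c49ad1) (nat_lit 0x2b92e78bd300) (nat_lit 0x0)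
  (PL.C (nat_lit 0x76cea33b) (nat_lit 0x1cfa64e3000) (nat_lit 0x0)
  (PL.C (nat_lit 0x76fbfc3b) (nat_lit 0x2b744a8ec800) (nat_lit 0x0) lm_272))))))))))))))))))))

noncomputable def lm_270 : PL :=
  (PL.C (nat_lit 0x6c05c661) (nat_lit 0x0) (nat_lit 0x7acc3b75f800)
  (PL.C (nat_lit 0x6c23bc5e) (nat_lit 0x0) (nat_lit 0x357af7b200)
  (PL.C (nat_lit 0x6c3d75b1) (nat_lit 0x0) (nat_lit 0x17f55165000)
  (PL.C (nat_lit 0x6cf3d3d7) (nat_lit 0x0) (nat_lit 0xbcc589e400)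
  (PL.C (nat_lit 0x6d4f04fa) (nat_lit 0x0) (nat_lit 0x13eb74c60200)
  (PL.C (nat_lit 0x6ddee149) (nat_lit 0x8d6459967a80) (nat_lit 0x0)
  (PL.C (nat_lit 0x6debe9b7) (nat_lit 0x70922af12980) (nat_lit 0x0)
  (PL.C (nat_lit 0x6ee82583) (nat_lit 0x0) (nat_lit 0x9ff96657d00)
  (PL.C (nat_lit 0x6f215173) (nat_lit 0xe0031b600) (nat_lit 0x0)
  (PL.C (nat_lit 0x6f71ca21) (nat_lit 0x44b83113000) (nat_lit 0x0)
  (PL.C (nat_lit 0x6fdc8e25) (nat_lit 0x0) (nat_lit 0x1dd8f227400)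
  (PL.C (nat_lit 0x6ffe994d) (nat_lit 0x565818815580) (nat_lit 0x0)
  (PL.C (nat_lit 0x7010fc03) (nat_lit 0x13e900fd39580) (nat_lit 0x0)
  (PL.C (nat_lit 0x70242359) (nat_lit 0xfe374a679a00) (nat_lit 0x0)
  (PL.C (nat_lit 0x70676217) (nat_lit 0x1cfa64e3000) (nat_lit 0x0)
  (PL.C (nat_lit 0x70a2e43b) (nat_lit 0x0) (nat_lit 0x5d03e825000)
  (PL.C (nat_lit 0x70db43c5) (nat_lit 0x0) (nat_lit 0xa88271f8880)
  (PL.C (nat_lit 0x711223bf) (nat_lit 0x9da818ad580) (nat_lit 0x0)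
  (PL.C (nat_lit 0x711bb0f5) (nat_lit 0x424b3380a00) (nat_lit 0x0)
  (PL.C (nat_lit 0x715d89f7) (nat_lit 0x25ae7eee00) (nat_lit 0x0) lm_271))))))))))))))))))))

noncomputable def lm_269 : PL :=
  (PL.C (nat_lit 0x64fb9cc2) (nat_lit 0x7dead474800) (nat_lit 0x0)
  (PL.C (nat_lit 0x65c1918b) (nat_lit 0x103d4cb156e00) (nat_lit 0x0)
  (PL.C (nat_lit 0x65ed5fb3) (nat_lit 0xe3b7404a200) (nat_lit 0x0)
  (PL.C (nat_lit 0x6621eaa3) (nat_lit 0x20cc946e6500) (nat_lit 0x0)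
  (PL.C (nat_lit 0x66630831) (nat_lit 0x0) (nat_lit 0x1cfa64e3000)
  (PL.C (nat_lit 0x668a405b) (nat_lit 0x8118f217200) (nat_lit 0x0)
  (PL.C (nat_lit 0x669e38b1) (nat_lit 0x10f17f34c700) (nat_lit 0x0)
  (PL.C (nat_lit 0x670c46df) (nat_lit 0x0) (nat_lit 0x5d03e825000)
  (PL.C (nat_lit 0x671abcc1) (nat_lit 0x1dd8f227400) (nat_lit 0x0)
  (PL.C (nat_lit 0x676a8d8f) (nat_lit 0x0) (nat_lit 0x65606c961180)
  (PL.C (nat_lit 0x67d976e1) (nat_lit 0xbcc589e400) (nat_lit 0x0)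
  (PL.C (nat_lit 0x68dc0709) (nat_lit 0x49114b3ba600) (nat_lit 0x0)
  (PL.C (nat_lit 0x6953c98a) (nat_lit 0x5a55be2f800) (nat_lit 0x0)
  (PL.C (nat_lit 0x69de6871) (nat_lit 0x1597487d0d80) (nat_lit 0x0)
  (PL.C (nat_lit 0x6a09e551) (nat_lit 0x25ae7eee00) (nat_lit 0x0)
  (PL.C (nat_lit 0x6a2d704d) (nat_lit 0x0) (nat_lit 0x1a376b61f00)
  (PL.C (nat_lit 0x6a4ff31f) (nat_lit 0x140b4b12d080) (nat_lit 0x0)
  (PL.C (nat_lit 0x6ab0d0ad) (nat_lit 0x12640dc3b80) (nat_lit 0x0)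
  (PL.C (nat_lit 0x6b6d3f4d) (nat_lit 0x0) (nat_lit 0x5e373e5e000)
  (PL.C (nat_lit 0x6bd752ae) (nat_lit 0x60836d22a00) (nat_lit 0x0) lm_270))))))))))))))))))))

noncomputable def lm_268 : PL :=
  (PL.C (nat_lit 0x61209b8d) (nat_lit 0x0) (nat_lit 0x238ff4c9c780)
  (PL.C (nat_lit 0x61338607) (nat_lit 0xcf121f1ea900) (nat_lit 0x0)
  (PL.C (nat_lit 0x61368715) (nat_lit 0x0) (nat_lit 0xe3c09cdf8400)
  (PL.C (nat_lit 0x613bbc0d) (nat_lit 0x0) (nat_lit 0x236509dac00)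
  (PL.C (nat_lit 0x618b1476) (nat_lit 0x60836d22a00) (nat_lit 0x0)
  (PL.C (nat_lit 0x61b5189d) (nat_lit 0x0) (nat_lit 0x1a498b0fc00)
  (PL.C (nat_lit 0x61d4472d) (nat_lit 0x13e900fd39580) (nat_lit 0x0)
  (PL.C (nat_lit 0x61eaa2bb) (nat_lit 0x88c6d1f200) (nat_lit 0x0)
  (PL.C (nat_lit 0x61f511b9) (nat_lit 0x3108699d5ce00) (nat_lit 0x0)
  (PL.C (nat_lit 0x628c6abb) (nat_lit 0x0) (nat_lit 0x518d7b02800)
  (PL.C (nat_lit 0x62faeaa6) (nat_lit 0x0) (nat_lit 0x597c003e000)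
  (PL.C (nat_lit 0x630119c6) (nat_lit 0x0) (nat_lit 0x77286fbe00)
  (PL.C (nat_lit 0x636cad71) (nat_lit 0x0) (nat_lit 0x1062f67915d00)
  (PL.C (nat_lit 0x63736282) (nat_lit 0x0) (nat_lit 0x130b98030a00)
  (PL.C (nat_lit 0x63cf031f) (nat_lit 0x0) (nat_lit 0x44db7573a600)
  (PL.C (nat_lit 0x63db478a) (nat_lit 0x118fce1a080) (nat_lit 0x0)
  (PL.C (nat_lit 0x63df725b) (nat_lit 0x0) (nat_lit 0x30a0881b6f800)
  (PL.C (nat_lit 0x6447c847) (nat_lit 0x0) (nat_lit 0x127401d493d80)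
  (PL.C (nat_lit 0x646c4f8b) (nat_lit 0xbcc589e400) (nat_lit 0x0)
  (PL.C (nat_lit 0x64aaf6a9) (nat_lit 0x0) (nat_lit 0xc1f4cd903100) lm_269))))))))))))))))))))

noncomputable def lm_267 : PL :=
  (PL.C (nat_lit 0x5cbc772b) (nat_lit 0x0) (nat_lit 0xcd4493770100)
  (PL.C (nat_lit 0x5cca78d3) (nat_lit 0x0) (nat_lit 0x1ab537096f80)
  (PL.C (nat_lit 0x5cdc8b19) (nat_lit 0x0) (nat_lit 0x95d48d21500)
  (PL.C (nat_lit 0x5d47bc93) (nat_lit 0x0) (nat_lit 0x1890532244c00)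
  (PL.C (nat_lit 0x5d58b62d) (nat_lit 0x0) (nat_lit 0x1c3ab0a9d100)
  (PL.C (nat_lit 0x5da92f5f) (nat_lit 0x0) (nat_lit 0x1ab537096f80)
  (PL.C (nat_lit 0x5dcfa87f) (nat_lit 0x0) (nat_lit 0xd36f683600)
  (PL.C (nat_lit 0x5def1a43) (nat_lit 0x0) (nat_lit 0x1a376b61f00)
  (PL.C (nat_lit 0x5e63ae61) (nat_lit 0x197f968927c00) (nat_lit 0x0)
  (PL.C (nat_lit 0x5e99f94f) (nat_lit 0x0) (nat_lit 0x3468792e52500)
  (PL.C (nat_lit 0x5eaa247d) (nat_lit 0xfe374a679a00) (nat_lit 0x0)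
  (PL.C (nat_lit 0x5f152467) (nat_lit 0x0) (nat_lit 0x5d03e825000)
  (PL.C (nat_lit 0x5f5748ab) (nat_lit 0x39356567b00) (nat_lit 0x0)
  (PL.C (nat_lit 0x5fc556d9) (nat_lit 0x2d82e66a3b00) (nat_lit 0x0)
  (PL.C (nat_lit 0x60152015) (nat_lit 0x0) (nat_lit 0x1118da3e400)
  (PL.C (nat_lit 0x602963bd) (nat_lit 0x0) (nat_lit 0xa88271f8880)
  (PL.C (nat_lit 0x60840967) (nat_lit 0x15bbcbaa400) (nat_lit 0x0)
  (PL.C (nat_lit 0x60c86cbf) (nat_lit 0x6ef91659500) (nat_lit 0x0)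
  (PL.C (nat_lit 0x60d3e3a3) (nat_lit 0x0) (nat_lit 0x6ac9130400)
  (PL.C (nat_lit 0x60e8dd83) (nat_lit 0x0) (nat_lit 0x2d74e6388500) lm_268))))))))))))))))))))

noncomputable def lm_266 : PL :=
  (PL.C (nat_lit 0x592dca33) (nat_lit 0x44b83113000) (nat_lit 0x0)
  (PL.C (nat_lit 0x595ea7f5) (nat_lit 0x0) (nat_lit 0x1a0b481ca80)
  (PL.C (nat_lit 0x59976136) (nat_lit 0x14f58332900) (nat_lit 0x0)
  (PL.C (nat_lit 0x59f43ffa) (nat_lit 0xf6a810f3700) (nat_lit 0x0)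
  (PL.C (nat_lit 0x59fecc52) (nat_lit 0xfbd5a8e9000) (nat_lit 0x0)
  (PL.C (nat_lit 0x5a55fe2f) (nat_lit 0x0) (nat_lit 0x279e46cd5da00)
  (PL.C (nat_lit 0x5a5cd09a) (nat_lit 0x0) (nat_lit 0x5101cd80a00)
  (PL.C (nat_lit 0x5ab6e041) (nat_lit 0x1abcb8953500) (nat_lit 0x0)
  (PL.C (nat_lit 0x5ac51f9e) (nat_lit 0x512cd455800) (nat_lit 0x0)
  (PL.C (nat_lit 0x5ac74e8f) (nat_lit 0x184de9c0e00) (nat_lit 0x0)
  (PL.C (nat_lit 0x5b23f316) (nat_lit 0x610753ad00) (nat_lit 0x0)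
  (PL.C (nat_lit 0x5b5f1a35) (nat_lit 0xef4366e3000) (nat_lit 0x0)
  (PL.C (nat_lit 0x5b7dbaa1) (nat_lit 0x0) (nat_lit 0x34d99bea0200)
  (PL.C (nat_lit 0x5b8f5bb9) (nat_lit 0x0) (nat_lit 0xb34dd7e3200)
  (PL.C (nat_lit 0x5bb77005) (nat_lit 0xc50f2748700) (nat_lit 0x0)
  (PL.C (nat_lit 0x5c33e79f) (nat_lit 0x1bdf6263da000) (nat_lit 0x0)
  (PL.C (nat_lit 0x5c5921bf) (nat_lit 0x53ffce0f600) (nat_lit 0x0)
  (PL.C (nat_lit 0x5c64f55a) (nat_lit 0x90dbb6539300) (nat_lit 0x0)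
  (PL.C (nat_lit 0x5c8cc1bb) (nat_lit 0x0) (nat_lit 0x9c3eb855300)
  (PL.C (nat_lit 0x5c9c1f2d) (nat_lit 0x0) (nat_lit 0x652a314c3e00) lm_267))))))))))))))))))))

noncomputable def lm_265 : PL :=
  (PL.C (nat_lit 0x5512718d) (nat_lit 0x0) (nat_lit 0xaf85703480)
  (PL.C (nat_lit 0x5534aeb6) (nat_lit 0x0) (nat_lit 0x11fdf4765da00)
  (PL.C (nat_lit 0x55914419) (nat_lit 0x187cfcc0cc680) (nat_lit 0x0)
  (PL.C (nat_lit 0x55a1c6db) (nat_lit 0x0) (nat_lit 0x85332f5b800)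
  (PL.C (nat_lit 0x560adfbf) (nat_lit 0x0) (nat_lit 0xaf85703480)
  (PL.C (nat_lit 0x56373a6f) (nat_lit 0x1fa62f18b2e00) (nat_lit 0x0)
  (PL.C (nat_lit 0x56542073) (nat_lit 0x1ab537096f80) (nat_lit 0x0)
  (PL.C (nat_lit 0x56a02935) (nat_lit 0x91867003deb80) (nat_lit 0x0)
  (PL.C (nat_lit 0x56fd109b) (nat_lit 0x0) (nat_lit 0x5d03e825000)
  (PL.C (nat_lit 0x571a38ef) (nat_lit 0x0) (nat_lit 0x9293ffb5100)
  (PL.C (nat_lit 0x574ca60b) (nat_lit 0x0) (nat_lit 0x34d99bea0200)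
  (PL.C (nat_lit 0x57b8aaab) (nat_lit 0x4733bbc72a00) (nat_lit 0x0)
  (PL.C (nat_lit 0x57c7a8d1) (nat_lit 0x6caafa53400) (nat_lit 0x0)
  (PL.C (nat_lit 0x57fb9f1e) (nat_lit 0xf6a810f3700) (nat_lit 0x0)
  (PL.C (nat_lit 0x5844eb66) (nat_lit 0x0) (nat_lit 0x23da3384ae00)
  (PL.C (nat_lit 0x586af0e5) (nat_lit 0x1cfa64e3000) (nat_lit 0x0)
  (PL.C (nat_lit 0x58848aed) (nat_lit 0x49114b3ba600) (nat_lit 0x0)
  (PL.C (nat_lit 0x5895c827) (nat_lit 0x413362fec00) (nat_lit 0x0)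
  (PL.C (nat_lit 0x58a23679) (nat_lit 0xa88271f8880) (nat_lit 0x0)
  (PL.C (nat_lit 0x590770ea) (nat_lit 0x0) (nat_lit 0x23da3384ae00) lm_266))))))))))))))))))))

noncomputable def lm_264 : PL :=
  (PL.C (nat_lit 0x5151d136) (nat_lit 0x610753ad00) (nat_lit 0x0)
  (PL.C (nat_lit 0x5166ce8a) (nat_lit 0x246ed436800) (nat_lit 0x0)
  (PL.C (nat_lit 0x51bcd76f) (nat_lit 0x17e0dfa1400) (nat_lit 0x0)
  (PL.C (nat_lit 0x520d9263) (nat_lit 0x0) (nat_lit 0x68c4ddc34280)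
  (PL.C (nat_lit 0x521a31a6) (nat_lit 0x0) (nat_lit 0x3782eb5c800)
  (PL.C (nat_lit 0x527367c1) (nat_lit 0x562b07190e280) (nat_lit 0x0)
  (PL.C (nat_lit 0x52b0f45d) (nat_lit 0x0) (nat_lit 0x1d1b72d1f9700)
  (PL.C (nat_lit 0x52c12bdd) (nat_lit 0x15bbcbaa400) (nat_lit 0x0)
  (PL.C (nat_lit 0x5304b23a) (nat_lit 0x0) (nat_lit 0x610753ad00)
  (PL.C (nat_lit 0x5319ec73) (nat_lit 0x1a498b0fc00) (nat_lit 0x0)
  (PL.C (nat_lit 0x53aa0046) (nat_lit 0x0) (nat_lit 0x512cd455800)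
  (PL.C (nat_lit 0x53ce09f5) (nat_lit 0x0) (nat_lit 0x5eeb9f2000)
  (PL.C (nat_lit 0x53fe7c75) (nat_lit 0x6ef91659500) (nat_lit 0x0)
  (PL.C (nat_lit 0x541e5349) (nat_lit 0x0) (nat_lit 0x53ffce0f600)
  (PL.C (nat_lit 0x542d2ceb) (nat_lit 0x0) (nat_lit 0x85332f5b800)
  (PL.C (nat_lit 0x54344c1a) (nat_lit 0x77286fbe00) (nat_lit 0x0)
  (PL.C (nat_lit 0x545f7187) (nat_lit 0x289d1aa30db00) (nat_lit 0x0)
  (PL.C (nat_lit 0x54b79623) (nat_lit 0xdd1c9a8c980) (nat_lit 0x0)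
  (PL.C (nat_lit 0x54b9ee69) (nat_lit 0x0) (nat_lit 0x652a314c3e00)
  (PL.C (nat_lit 0x54e6ad7d) (nat_lit 0x2bfc5f598800) (nat_lit 0x0) lm_265))))))))))))))))))))

noncomputable def lm_263 : PL :=
  (PL.C (nat_lit 0x4e62e47b) (nat_lit 0x0) (nat_lit 0x1d1b72d1f9700)
  (PL.C (nat_lit 0x4e63bb3d) (nat_lit 0xcb92563af480) (nat_lit 0x0)
  (PL.C (nat_lit 0x4eae936f) (nat_lit 0x0) (nat_lit 0x184de9c0e00)
  (PL.C (nat_lit 0x4eb59fb1) (nat_lit 0xc3cae6779a00) (nat_lit 0x0)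
  (PL.C (nat_lit 0x4ebe381f) (nat_lit 0x0) (nat_lit 0x6141401b2000)
  (PL.C (nat_lit 0x4f107b1b) (nat_lit 0x70922af12980) (nat_lit 0x0)
  (PL.C (nat_lit 0x4f346cd2) (nat_lit 0x0) (nat_lit 0x597c003e000)
  (PL.C (nat_lit 0x4f4b808f) (nat_lit 0x8f414302d00) (nat_lit 0x0)
  (PL.C (nat_lit 0x4f631407) (nat_lit 0x57bca36e700) (nat_lit 0x0)
  (PL.C (nat_lit 0x4f8f7523) (nat_lit 0x0) (nat_lit 0x7862577c3d00)
  (PL.C (nat_lit 0x4f94d326) (nat_lit 0x0) (nat_lit 0x130b98030a00)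
  (PL.C (nat_lit 0x4f9caa85) (nat_lit 0x0) (nat_lit 0xbe688b5cf00)
  (PL.C (nat_lit 0x4fade9a5) (nat_lit 0x5fc1eb04d000) (nat_lit 0x0)
  (PL.C (nat_lit 0x4feb4c01) (nat_lit 0x0) (nat_lit 0x1597e7a44ef00)
  (PL.C (nat_lit 0x4ff20c4b) (nat_lit 0x0) (nat_lit 0xe3e9ab64e00)
  (PL.C (nat_lit 0x503ec985) (nat_lit 0x0) (nat_lit 0x1504d7ccdbac0)
  (PL.C (nat_lit 0x50535969) (nat_lit 0x0) (nat_lit 0x3c8c673cb600)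
  (PL.C (nat_lit 0x505fbfe5) (nat_lit 0x0) (nat_lit 0xb8725b17f80)
  (PL.C (nat_lit 0x508a6e3f) (nat_lit 0x17d349b847800) (nat_lit 0x0)
  (PL.C (nat_lit 0x50f34ad7) (nat_lit 0x0) (nat_lit 0x28c6bd81400) lm_264))))))))))))))))))))

noncomputable def lm_262 : PL :=
  (PL.C (nat_lit 0x4b1742d2) (nat_lit 0x0) (nat_lit 0x5e1d1e78700)
  (PL.C (nat_lit 0x4b616d2a) (nat_lit 0x0) (nat_lit 0x11fdf4765da00)
  (PL.C (nat_lit 0x4b67cb4e) (nat_lit 0x319d18fcd00) (nat_lit 0x0)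
  (PL.C (nat_lit 0x4b68da93) (nat_lit 0x111abed92a080) (nat_lit 0x0)
  (PL.C (nat_lit 0x4c3f78bd) (nat_lit 0x7fd6df9ae800) (nat_lit 0x0)
  (PL.C (nat_lit 0x4c41f12b) (nat_lit 0x139a3f758e000) (nat_lit 0x0)
  (PL.C (nat_lit 0x4c50e5ab) (nat_lit 0x0) (nat_lit 0x6141401b2000)
  (PL.C (nat_lit 0x4ca2be85) (nat_lit 0x0) (nat_lit 0x1cfa64e3000)
  (PL.C (nat_lit 0x4ca2fddb) (nat_lit 0x88c6d1f200) (nat_lit 0x0)
  (PL.C (nat_lit 0x4ca99bdb) (nat_lit 0x4e9c8f4ced00) (nat_lit 0x0)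
  (PL.C (nat_lit 0x4ce2d64f) (nat_lit 0x0) (nat_lit 0x2d74e6388500)
  (PL.C (nat_lit 0x4d1acfa6) (nat_lit 0x1b117a55bfd00) (nat_lit 0x0)
  (PL.C (nat_lit 0x4d3b96e5) (nat_lit 0x0) (nat_lit 0x65606c961180)
  (PL.C (nat_lit 0x4d8c45f9) (nat_lit 0x0) (nat_lit 0x1118da3e400)
  (PL.C (nat_lit 0x4da725f6) (nat_lit 0x0) (nat_lit 0x14f58332900)
  (PL.C (nat_lit 0x4dc4baaa) (nat_lit 0xb2986df84400) (nat_lit 0x0)
  (PL.C (nat_lit 0x4e00314d) (nat_lit 0x85332f5b800) (nat_lit 0x0)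
  (PL.C (nat_lit 0x4e09a657) (nat_lit 0x57bca36e700) (nat_lit 0x0)
  (PL.C (nat_lit 0x4e48a717) (nat_lit 0x93dba9fcd500) (nat_lit 0x0)
  (PL.C (nat_lit 0x4e5a8b21) (nat_lit 0x2d82e66a3b00) (nat_lit 0x0) lm_263))))))))))))))))))))

noncomputable def lm_261 : PL :=
  (PL.C (nat_lit 0x48cc1a7b) (nat_lit 0x0) (nat_lit 0xa88271f8880)
  (PL.C (nat_lit 0x48dff37f) (nat_lit 0x0) (nat_lit 0x70922af12980)
  (PL.C (nat_lit 0x48f5a94b) (nat_lit 0x85332f5b800) (nat_lit 0x0)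
  (PL.C (nat_lit 0x48fc3255) (nat_lit 0x3a4ede61a00) (nat_lit 0x0)
  (PL.C (nat_lit 0x49042abb) (nat_lit 0x0) (nat_lit 0xa31af605000)
  (PL.C (nat_lit 0x492022c9) (nat_lit 0x10f17f34c700) (nat_lit 0x0)
  (PL.C (nat_lit 0x4921d1e5) (nat_lit 0x0) (nat_lit 0x2120d8bda00)
  (PL.C (nat_lit 0x49507227) (nat_lit 0xcebfdb7a980) (nat_lit 0x0)
  (PL.C (nat_lit 0x496c876d) (nat_lit 0x39356567b00) (nat_lit 0x0)
  (PL.C (nat_lit 0x499d0943) (nat_lit 0x0) (nat_lit 0x236509dac00)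
  (PL.C (nat_lit 0x49e26d99) (nat_lit 0xa31af605000) (nat_lit 0x0)
  (PL.C (nat_lit 0x49f01902) (nat_lit 0x118fce1a080) (nat_lit 0x0)
  (PL.C (nat_lit 0x4a37bc17) (nat_lit 0x0) (nat_lit 0x68c4ddc34280)
  (PL.C (nat_lit 0x4a4bdc16) (nat_lit 0x0) (nat_lit 0xd434b01e000)
  (PL.C (nat_lit 0x4a8754d9) (nat_lit 0x12640dc3b80) (nat_lit 0x0)
  (PL.C (nat_lit 0x4a93096e) (nat_lit 0x0) (nat_lit 0x77286fbe00)
  (PL.C (nat_lit 0x4ac79503) (nat_lit 0x0) (nat_lit 0xe9461289c00)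
  (PL.C (nat_lit 0x4ae0a5b7) (nat_lit 0x413362fec00) (nat_lit 0x0)
  (PL.C (nat_lit 0x4ae2f625) (nat_lit 0x5fc1eb04d000) (nat_lit 0x0)
  (PL.C (nat_lit 0x4aef96ba) (nat_lit 0x0) (nat_lit 0x597c003e000) lm_262))))))))))))))))))))

noncomputable def lm_260 : PL :=
  (PL.C (nat_lit 0x46e77309) (nat_lit 0x70922af12980) (nat_lit 0x0)
  (PL.C (nat_lit 0x471027e7) (nat_lit 0x66c50b1cc00) (nat_lit 0x0)
  (PL.C (nat_lit 0x47208b1e) (nat_lit 0x0) (nat_lit 0xd8af646c100)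
  (PL.C (nat_lit 0x47394be3) (nat_lit 0x289d1aa30db00) (nat_lit 0x0)
  (PL.C (nat_lit 0x474b5bab) (nat_lit 0x40ba69a2800) (nat_lit 0x0)
  (PL.C (nat_lit 0x47701c1b) (nat_lit 0x0) (nat_lit 0x6ef91659500)
  (PL.C (nat_lit 0x4783b3ef) (nat_lit 0xcb92563af480) (nat_lit 0x0)
  (PL.C (nat_lit 0x479da7d9) (nat_lit 0x0) (nat_lit 0x78f82cf56c00)
  (PL.C (nat_lit 0x47b91693) (nat_lit 0x8118f217200) (nat_lit 0x0)
  (PL.C (nat_lit 0x47d06681) (nat_lit 0xe3b7404a200) (nat_lit 0x0)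
  (PL.C (nat_lit 0x47e878bd) (nat_lit 0x0) (nat_lit 0xc3c8f341c00)
  (PL.C (nat_lit 0x4803d996) (nat_lit 0x0) (nat_lit 0x3782eb5c800)
  (PL.C (nat_lit 0x48499fbd) (nat_lit 0x0) (nat_lit 0x6d3eab6dba580)
  (PL.C (nat_lit 0x484ff6c1) (nat_lit 0x0) (nat_lit 0x57bca36e700)
  (PL.C (nat_lit 0x485cbad3) (nat_lit 0x0) (nat_lit 0x7a543883c00)
  (PL.C (nat_lit 0x48972693) (nat_lit 0x4733bbc72a00) (nat_lit 0x0)
  (PL.C (nat_lit 0x48a28d3a) (nat_lit 0x246ed436800) (nat_lit 0x0)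
  (PL.C (nat_lit 0x48a7bd85) (nat_lit 0x0) (nat_lit 0x9dbe51c7800)
  (PL.C (nat_lit 0x48b04291) (nat_lit 0x28169625a100) (nat_lit 0x0)
  (PL.C (nat_lit 0x48c78e6b) (nat_lit 0x20cc946e6500) (nat_lit 0x0) lm_261))))))))))))))))))))

noncomputable def lm_259 : PL :=
  (PL.C (nat_lit 0x4393279b) (nat_lit 0x0) (nat_lit 0xcebfdb7a980)
  (PL.C (nat_lit 0x43a38c37) (nat_lit 0x0) (nat_lit 0x57bca36e700)
  (PL.C (nat_lit 0x43bd5059) (nat_lit 0x2716ef8320c00) (nat_lit 0x0)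
  (PL.C (nat_lit 0x43efe195) (nat_lit 0x0) (nat_lit 0x3593d565240)
  (PL.C (nat_lit 0x43f39522) (nat_lit 0x3c87e8a3000) (nat_lit 0x0)
  (PL.C (nat_lit 0x44420576) (nat_lit 0x597c003e000) (nat_lit 0x0)
  (PL.C (nat_lit 0x4478c99b) (nat_lit 0x0) (nat_lit 0xd54fb1c340c0)
  (PL.C (nat_lit 0x44b2d9ea) (nat_lit 0x0) (nat_lit 0x5e1d1e78700)
  (PL.C (nat_lit 0x44bc7dd6) (nat_lit 0x77286fbe00) (nat_lit 0x0)
  (PL.C (nat_lit 0x44d1ef93) (nat_lit 0xa2af7e0a980) (nat_lit 0x0)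
  (PL.C (nat_lit 0x44da196d) (nat_lit 0x140b4b12d080) (nat_lit 0x0)
  (PL.C (nat_lit 0x453ba496) (nat_lit 0x0) (nat_lit 0x246ed436800)
  (PL.C (nat_lit 0x4599f085) (nat_lit 0x0) (nat_lit 0x4fa9bbce59500)
  (PL.C (nat_lit 0x45db9611) (nat_lit 0x0) (nat_lit 0x1b2178b1f800)
  (PL.C (nat_lit 0x45f24acb) (nat_lit 0x0) (nat_lit 0x5eeb9f2000)
  (PL.C (nat_lit 0x463205f1) (nat_lit 0x1abcb8953500) (nat_lit 0x0)
  (PL.C (nat_lit 0x463e0543) (nat_lit 0x6caafa53400) (nat_lit 0x0)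
  (PL.C (nat_lit 0x464cd0f1) (nat_lit 0x0) (nat_lit 0xfe9daac6600)
  (PL.C (nat_lit 0x465a90df) (nat_lit 0x3b1ca84370380) (nat_lit 0x0)
  (PL.C (nat_lit 0x46dff76a) (nat_lit 0x830e1c75f00) (nat_lit 0x0) lm_260))))))))))))))))))))

noncomputable def lm_258 : PL :=
  (PL.C (nat_lit 0x41b5afb7) (nat_lit 0xc9a7ec51c800) (nat_lit 0x0)
  (PL.C (nat_lit 0x41bf580d) (nat_lit 0xe3795575a00) (nat_lit 0x0)
  (PL.C (nat_lit 0x41e03ff3) (nat_lit 0x57bca36e700) (nat_lit 0x0)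
  (PL.C (nat_lit 0x41fa5513) (nat_lit 0x0) (nat_lit 0x2e277acadb480)
  (PL.C (nat_lit 0x420b3d0f) (nat_lit 0x1374ebf78000) (nat_lit 0x0)
  (PL.C (nat_lit 0x42248965) (nat_lit 0x0) (nat_lit 0x39c9e2d781c0)
  (PL.C (nat_lit 0x422b95a7) (nat_lit 0x3108699d5ce00) (nat_lit 0x0)
  (PL.C (nat_lit 0x422c4af1) (nat_lit 0xdd1c9a8c980) (nat_lit 0x0)
  (PL.C (nat_lit 0x42503bcb) (nat_lit 0x0) (nat_lit 0x1600b5862b00)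
  (PL.C (nat_lit 0x42716c35) (nat_lit 0xc3cae6779a00) (nat_lit 0x0)
  (PL.C (nat_lit 0x4281bc7f) (nat_lit 0x0) (nat_lit 0x9293ffb5100)
  (PL.C (nat_lit 0x42975a65) (nat_lit 0x0) (nat_lit 0x1970150e4400)
  (PL.C (nat_lit 0x42be1ec7) (nat_lit 0x6ef91659500) (nat_lit 0x0)
  (PL.C (nat_lit 0x42f2dfb2) (nat_lit 0x0) (nat_lit 0x246ed436800)
  (PL.C (nat_lit 0x4303d863) (nat_lit 0x57bca36e700) (nat_lit 0x0)
  (PL.C (nat_lit 0x430da3a5) (nat_lit 0x236509dac00) (nat_lit 0x0)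
  (PL.C (nat_lit 0x43294eef) (nat_lit 0x2716ef8320c00) (nat_lit 0x0)
  (PL.C (nat_lit 0x43347559) (nat_lit 0x1cb5c264200) (nat_lit 0x0)
  (PL.C (nat_lit 0x4376d5c5) (nat_lit 0x0) (nat_lit 0x6d3eab6dba580)
  (PL.C (nat_lit 0x437c88b7) (nat_lit 0xadde5d5200) (nat_lit 0x0) lm_259))))))))))))))))))))

noncomputable def lm_257 : PL :=
  (PL.C (nat_lit 0x3eba6047) (nat_lit 0x0) (nat_lit 0x1a0b481ca80)
  (PL.C (nat_lit 0x3ed0209d) (nat_lit 0x299755057ec0) (nat_lit 0x0)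
  (PL.C (nat_lit 0x3f374779) (nat_lit 0x197f968927c00) (nat_lit 0x0)
  (PL.C (nat_lit 0x3f636d9a) (nat_lit 0x0) (nat_lit 0x5e1d1e78700)
  (PL.C (nat_lit 0x3fa84e1f) (nat_lit 0x0) (nat_lit 0xaa10acbc9a00)
  (PL.C (nat_lit 0x3fd83381) (nat_lit 0x0) (nat_lit 0x1970150e4400)
  (PL.C (nat_lit 0x3ff3b5d3) (nat_lit 0x139a3f758e000) (nat_lit 0x0)
  (PL.C (nat_lit 0x3ff91cd1) (nat_lit 0xadde5d5200) (nat_lit 0x0)
  (PL.C (nat_lit 0x401187d1) (nat_lit 0x0) (nat_lit 0x2c5a90f73980)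
  (PL.C (nat_lit 0x406c2f97) (nat_lit 0x0) (nat_lit 0x1890532244c00)
  (PL.C (nat_lit 0x40730ced) (nat_lit 0x17d349b847800) (nat_lit 0x0)
  (PL.C (nat_lit 0x40b17c87) (nat_lit 0x0) (nat_lit 0x8118f217200)
  (PL.C (nat_lit 0x40b71287) (nat_lit 0xb398b2dc00ec0) (nat_lit 0x0)
  (PL.C (nat_lit 0x40c6f635) (nat_lit 0x0) (nat_lit 0x78f82cf56c00)
  (PL.C (nat_lit 0x40d27d5e) (nat_lit 0x0) (nat_lit 0x4b3fc491100)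
  (PL.C (nat_lit 0x40e761cb) (nat_lit 0x38f6736f4bc0) (nat_lit 0x0)
  (PL.C (nat_lit 0x412365be) (nat_lit 0x512cd455800) (nat_lit 0x0)
  (PL.C (nat_lit 0x416a2d05) (nat_lit 0x0) (nat_lit 0x99e64d4e87c00)
  (PL.C (nat_lit 0x4176699d) (nat_lit 0x10231e42e400) (nat_lit 0x0)
  (PL.C (nat_lit 0x41b2f1d2) (nat_lit 0xfbd5a8e9000) (nat_lit 0x0) lm_258))))))))))))))))))))

noncomputable def lm_256 : PL :=
  (PL.C (nat_lit 0x3d16deef) (nat_lit 0x0) (nat_lit 0xa0a2765f500)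
  (PL.C (nat_lit 0x3d49c393) (nat_lit 0x8266c5fd800) (nat_lit 0x0)
  (PL.C (nat_lit 0x3d551459) (nat_lit 0x66c50b1cc00) (nat_lit 0x0)
  (PL.C (nat_lit 0x3d5b9d63) (nat_lit 0x8d2778233c00) (nat_lit 0x0)
  (PL.C (nat_lit 0x3d8487bb) (nat_lit 0x0) (nat_lit 0x6ef91659500)
  (PL.C (nat_lit 0x3d9082d1) (nat_lit 0x1597487d0d80) (nat_lit 0x0)
  (PL.C (nat_lit 0x3d90c12a) (nat_lit 0x14f58332900) (nat_lit 0x0)
  (PL.C (nat_lit 0x3db32bd2) (nat_lit 0xb2986df84400) (nat_lit 0x0)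
  (PL.C (nat_lit 0x3dbc2239) (nat_lit 0x5afa28917080) (nat_lit 0x0)
  (PL.C (nat_lit 0x3dbd6a1e) (nat_lit 0x0) (nat_lit 0x439e133f6700)
  (PL.C (nat_lit 0x3dd0d395) (nat_lit 0x99f5e52f100) (nat_lit 0x0)
  (PL.C (nat_lit 0x3dea37f5) (nat_lit 0xa88271f8880) (nat_lit 0x0)
  (PL.C (nat_lit 0x3e008015) (nat_lit 0x0) (nat_lit 0x1c72669155100)
  (PL.C (nat_lit 0x3e3b241e) (nat_lit 0x1b117a55bfd00) (nat_lit 0x0)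
  (PL.C (nat_lit 0x3e46e2cb) (nat_lit 0x0) (nat_lit 0x338799638e00)
  (PL.C (nat_lit 0x3e66fd3b) (nat_lit 0x0) (nat_lit 0x1e72605bd4c00)
  (PL.C (nat_lit 0x3e75401d) (nat_lit 0x0) (nat_lit 0x413362fec00)
  (PL.C (nat_lit 0x3e8ec639) (nat_lit 0x3f0ff2fff500) (nat_lit 0x0)
  (PL.C (nat_lit 0x3ea6bcb3) (nat_lit 0xcf121f1ea900) (nat_lit 0x0)
  (PL.C (nat_lit 0x3eb83c33) (nat_lit 0x7a543883c00) (nat_lit 0x0) lm_257))))))))))))))))))))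

noncomputable def lm_255 : PL :=
  (PL.C (nat_lit 0x3b3042c5) (nat_lit 0x3dc4dad27d00) (nat_lit 0x0)
  (PL.C (nat_lit 0x3b6f5f1b) (nat_lit 0xc9a7ec51c800) (nat_lit 0x0)
  (PL.C (nat_lit 0x3b73dc22) (nat_lit 0x0) (nat_lit 0xd434b01e000)
  (PL.C (nat_lit 0x3bbcc113) (nat_lit 0x65777c21ee00) (nat_lit 0x0)
  (PL.C (nat_lit 0x3bdaa6ed) (nat_lit 0x0) (nat_lit 0x1ab537096f80)
  (PL.C (nat_lit 0x3bfd03c3) (nat_lit 0x0) (nat_lit 0x9dbe51c7800)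
  (PL.C (nat_lit 0x3c0231c3) (nat_lit 0x0) (nat_lit 0x1373dcaa600)
  (PL.C (nat_lit 0x3c2efd97) (nat_lit 0x0) (nat_lit 0xc3c8f341c00)
  (PL.C (nat_lit 0x3c4776e1) (nat_lit 0x39f4c9c6000) (nat_lit 0x0)
  (PL.C (nat_lit 0x3c4e03c7) (nat_lit 0x0) (nat_lit 0x70922af12980)
  (PL.C (nat_lit 0x3c57ea29) (nat_lit 0xa5798be59200) (nat_lit 0x0)
  (PL.C (nat_lit 0x3c5e8deb) (nat_lit 0x0) (nat_lit 0x95d48d21500)
  (PL.C (nat_lit 0x3c623a6b) (nat_lit 0xfecce6ccf80) (nat_lit 0x0)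
  (PL.C (nat_lit 0x3c79ead6) (nat_lit 0x0) (nat_lit 0xeafa77ef5080)
  (PL.C (nat_lit 0x3c84df0a) (nat_lit 0x610753ad00) (nat_lit 0x0)
  (PL.C (nat_lit 0x3c866fe5) (nat_lit 0x0) (nat_lit 0xe3e9ab64e00)
  (PL.C (nat_lit 0x3cb39e71) (nat_lit 0x40ba69a2800) (nat_lit 0x0)
  (PL.C (nat_lit 0x3d05a171) (nat_lit 0x0) (nat_lit 0x1597e7a44ef00)
  (PL.C (nat_lit 0x3d0a3d26) (nat_lit 0x0) (nat_lit 0x5101cd80a00)
  (PL.C (nat_lit 0x3d0afb85) (nat_lit 0x0) (nat_lit 0x57bca36e700) lm_256))))))))))))))))))))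

noncomputable def lm_254 : PL :=
  (PL.C (nat_lit 0x39168492) (nat_lit 0x0) (nat_lit 0xaa5d4681300)
  (PL.C (nat_lit 0x39190553) (nat_lit 0x0) (nat_lit 0x57bca36e700)
  (PL.C (nat_lit 0x392c28c7) (nat_lit 0xe1b7d760380) (nat_lit 0x0)
  (PL.C (nat_lit 0x392ec57d) (nat_lit 0x0) (nat_lit 0x7862577c3d00)
  (PL.C (nat_lit 0x393ebdfd) (nat_lit 0x0) (nat_lit 0x16b512cf7f00)
  (PL.C (nat_lit 0x394ec0db) (nat_lit 0x0) (nat_lit 0x28c6bd81400)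
  (PL.C (nat_lit 0x395c952a) (nat_lit 0x21e02751d00) (nat_lit 0x0)
  (PL.C (nat_lit 0x39cd0747) (nat_lit 0x0) (nat_lit 0xd54fb1c340c0)
  (PL.C (nat_lit 0x39fe0b12) (nat_lit 0x0) (nat_lit 0x5e1d1e78700)
  (PL.C (nat_lit 0x3a117b4a) (nat_lit 0x14e77d95280) (nat_lit 0x0)
  (PL.C (nat_lit 0x3a2a7e83) (nat_lit 0x101e070a6100) (nat_lit 0x0)
  (PL.C (nat_lit 0x3a487a73) (nat_lit 0x0) (nat_lit 0x47dff42f00)
  (PL.C (nat_lit 0x3a6da321) (nat_lit 0x65777c21ee00) (nat_lit 0x0)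
  (PL.C (nat_lit 0x3a7b1c72) (nat_lit 0x0) (nat_lit 0x1df3f27e26200)
  (PL.C (nat_lit 0x3a851b36) (nat_lit 0x0) (nat_lit 0xb39b34e1400)
  (PL.C (nat_lit 0x3a9e503d) (nat_lit 0x0) (nat_lit 0xcaa1ad6e2c00)
  (PL.C (nat_lit 0x3aaaad25) (nat_lit 0x0) (nat_lit 0x46ca13b580)
  (PL.C (nat_lit 0x3af1f5ee) (nat_lit 0x0) (nat_lit 0x597c003e000)
  (PL.C (nat_lit 0x3b1f7e1b) (nat_lit 0x0) (nat_lit 0xcaa1ad6e2c00)
  (PL.C (nat_lit 0x3b293e3b) (nat_lit 0x4403e2acb500) (nat_lit 0x0) lm_255))))))))))))))))))))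

noncomputable def lm_253 : PL :=
  (PL.C (nat_lit 0x37669da2) (nat_lit 0x0) (nat_lit 0x512cd455800)
  (PL.C (nat_lit 0x376d48bd) (nat_lit 0x8d6459967a80) (nat_lit 0x0)
  (PL.C (nat_lit 0x3771f75f) (nat_lit 0x0) (nat_lit 0x236509dac00)
  (PL.C (nat_lit 0x37804701) (nat_lit 0x0) (nat_lit 0x46ca13b580)
  (PL.C (nat_lit 0x378f68cd) (nat_lit 0x0) (nat_lit 0x39f4c9c6000)
  (PL.C (nat_lit 0x37af874d) (nat_lit 0x1157ee375a80) (nat_lit 0x0)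
  (PL.C (nat_lit 0x37b2129f) (nat_lit 0x0) (nat_lit 0x99e64d4e87c00)
  (PL.C (nat_lit 0x37deb14e) (nat_lit 0x1251d3b4000) (nat_lit 0x0)
  (PL.C (nat_lit 0x37eb4003) (nat_lit 0x0) (nat_lit 0xe3795575a00)
  (PL.C (nat_lit 0x37fa9637) (nat_lit 0x101e070a6100) (nat_lit 0x0)
  (PL.C (nat_lit 0x38143786) (nat_lit 0x0) (nat_lit 0x14f58332900)
  (PL.C (nat_lit 0x381e1df2) (nat_lit 0x0) (nat_lit 0xaa5d4681300)
  (PL.C (nat_lit 0x384c36cd) (nat_lit 0x1853cb6d7c4940) (nat_lit 0x0)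
  (PL.C (nat_lit 0x387bf446) (nat_lit 0x0) (nat_lit 0x439e133f6700)
  (PL.C (nat_lit 0x38958315) (nat_lit 0xaf5b9c376200) (nat_lit 0x0)
  (PL.C (nat_lit 0x3899c8fe) (nat_lit 0x343120084a00) (nat_lit 0x0)
  (PL.C (nat_lit 0x38b1d4eb) (nat_lit 0x0) (nat_lit 0x1504d7ccdbac0)
  (PL.C (nat_lit 0x38b6f65e) (nat_lit 0x21e02751d00) (nat_lit 0x0)
  (PL.C (nat_lit 0x38bb3e7d) (nat_lit 0x0) (nat_lit 0x47dff42f00)
  (PL.C (nat_lit 0x39019ab3) (nat_lit 0x1c672f71db00) (nat_lit 0x0) lm_254))))))))))))))))))))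

noncomputable def lm_252 : PL :=
  (PL.C (nat_lit 0x34f3c5a3) (nat_lit 0x1597487d0d80) (nat_lit 0x0)
  (PL.C (nat_lit 0x354c0832) (nat_lit 0x0) (nat_lit 0x5d22b7f6400)
  (PL.C (nat_lit 0x358949b3) (nat_lit 0x0) (nat_lit 0x4228e84d8700)
  (PL.C (nat_lit 0x358ce646) (nat_lit 0x0) (nat_lit 0x193f9d184700)
  (PL.C (nat_lit 0x3598e183) (nat_lit 0x0) (nat_lit 0x20d7f3d8fb080)
  (PL.C (nat_lit 0x35c71631) (nat_lit 0x0) (nat_lit 0x53bacd29dbd80)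
  (PL.C (nat_lit 0x35f7873a) (nat_lit 0x7dead474800) (nat_lit 0x0)
  (PL.C (nat_lit 0x35fc465f) (nat_lit 0x0) (nat_lit 0x279e46cd5da00)
  (PL.C (nat_lit 0x35ff4475) (nat_lit 0x64d394341bc0) (nat_lit 0x0)
  (PL.C (nat_lit 0x3600d5d5) (nat_lit 0x0) (nat_lit 0xe3e9ab64e00)
  (PL.C (nat_lit 0x3612efc1) (nat_lit 0x46ca13b580) (nat_lit 0x0)
  (PL.C (nat_lit 0x36428ff7) (nat_lit 0x0) (nat_lit 0x3c8c673cb600)
  (PL.C (nat_lit 0x365db809) (nat_lit 0x413362fec00) (nat_lit 0x0)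
  (PL.C (nat_lit 0x3685e71d) (nat_lit 0x0) (nat_lit 0x13e2972b35800)
  (PL.C (nat_lit 0x36a130e3) (nat_lit 0x4e9c8f4ced00) (nat_lit 0x0)
  (PL.C (nat_lit 0x36e24739) (nat_lit 0x0) (nat_lit 0x136dd4d6a600)
  (PL.C (nat_lit 0x36fe9209) (nat_lit 0x28af1327c00) (nat_lit 0x0)
  (PL.C (nat_lit 0x3721a1f3) (nat_lit 0xe3e9ab64e00) (nat_lit 0x0)
  (PL.C (nat_lit 0x3736c031) (nat_lit 0x0) (nat_lit 0xe9461289c00)
  (PL.C (nat_lit 0x373861d9) (nat_lit 0x0) (nat_lit 0x2e277acadb480) lm_253))))))))))))))))))))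

noncomputable def lm_251 : PL :=
  (PL.C (nat_lit 0x331729ae) (nat_lit 0x597c003e000) (nat_lit 0x0)
  (PL.C (nat_lit 0x3317b839) (nat_lit 0xadde5d5200) (nat_lit 0x0)
  (PL.C (nat_lit 0x3332c4d5) (nat_lit 0x179f80d3e00) (nat_lit 0x0)
  (PL.C (nat_lit 0x3334481d) (nat_lit 0x0) (nat_lit 0xe8d7c0c52c00)
  (PL.C (nat_lit 0x33655611) (nat_lit 0xa2af7e0a980) (nat_lit 0x0)
  (PL.C (nat_lit 0x3391a4eb) (nat_lit 0x0) (nat_lit 0x8f2fb5324f00)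
  (PL.C (nat_lit 0x33a51f3b) (nat_lit 0x15e368d2c9200) (nat_lit 0x0)
  (PL.C (nat_lit 0x33bc9b1f) (nat_lit 0x0) (nat_lit 0x1d28c2513800)
  (PL.C (nat_lit 0x33f853d5) (nat_lit 0x0) (nat_lit 0x1a0b481ca80)
  (PL.C (nat_lit 0x340020de) (nat_lit 0xaa5d4681300) (nat_lit 0x0)
  (PL.C (nat_lit 0x341d26dd) (nat_lit 0x3dc4dad27d00) (nat_lit 0x0)
  (PL.C (nat_lit 0x342e9ea9) (nat_lit 0x90adc32c6300) (nat_lit 0x0)
  (PL.C (nat_lit 0x344ca287) (nat_lit 0x0) (nat_lit 0x2c5a90f73980)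
  (PL.C (nat_lit 0x3456dd29) (nat_lit 0x20670356f1f00) (nat_lit 0x0)
  (PL.C (nat_lit 0x3458701f) (nat_lit 0x0) (nat_lit 0x4fa9bbce59500)
  (PL.C (nat_lit 0x3474624a) (nat_lit 0x0) (nat_lit 0x610753ad00)
  (PL.C (nat_lit 0x34ad6167) (nat_lit 0x149441d30dd00) (nat_lit 0x0)
  (PL.C (nat_lit 0x34b96b51) (nat_lit 0xe9461289c00) (nat_lit 0x0)
  (PL.C (nat_lit 0x34bf098b) (nat_lit 0x200454ead4900) (nat_lit 0x0)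
  (PL.C (nat_lit 0x34d9525d) (nat_lit 0x1374ebf78000) (nat_lit 0x0) lm_252))))))))))))))))))))

noncomputable def lm_250 : PL :=
  (PL.C (nat_lit 0x31419e66) (nat_lit 0x0) (nat_lit 0x1f7ab51d2000)
  (PL.C (nat_lit 0x3143b343) (nat_lit 0x6e238433480) (nat_lit 0x0)
  (PL.C (nat_lit 0x31861a79) (nat_lit 0xe3795575a00) (nat_lit 0x0)
  (PL.C (nat_lit 0x31a5cb7d) (nat_lit 0x1e96886ccf400) (nat_lit 0x0)
  (PL.C (nat_lit 0x31af8de6) (nat_lit 0x0) (nat_lit 0xd8af646c100)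
  (PL.C (nat_lit 0x31dde967) (nat_lit 0x0) (nat_lit 0x5fceacc7f800)
  (PL.C (nat_lit 0x31f6de99) (nat_lit 0x5afa28917080) (nat_lit 0x0)
  (PL.C (nat_lit 0x320099ab) (nat_lit 0xe78fd469e00) (nat_lit 0x0)
  (PL.C (nat_lit 0x320f29fb) (nat_lit 0xaf5b9c376200) (nat_lit 0x0)
  (PL.C (nat_lit 0x32136489) (nat_lit 0x42b8923beb00) (nat_lit 0x0)
  (PL.C (nat_lit 0x323a51d9) (nat_lit 0x0) (nat_lit 0xcf89c98ae440)
  (PL.C (nat_lit 0x32453234) (nat_lit 0x14a4b0b95500) (nat_lit 0x0)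
  (PL.C (nat_lit 0x325056f3) (nat_lit 0x6fe0ebee7a00) (nat_lit 0x0)
  (PL.C (nat_lit 0x326ecabd) (nat_lit 0x0) (nat_lit 0x2120d8bda00)
  (PL.C (nat_lit 0x3283821d) (nat_lit 0x17e0dfa1400) (nat_lit 0x0)
  (PL.C (nat_lit 0x32a8160f) (nat_lit 0x19c51267200) (nat_lit 0x0)
  (PL.C (nat_lit 0x32d33683) (nat_lit 0xc3a340d51540) (nat_lit 0x0)
  (PL.C (nat_lit 0x32e81723) (nat_lit 0x1ab537096f80) (nat_lit 0x0)
  (PL.C (nat_lit 0x32f0728d) (nat_lit 0x149441d30dd00) (nat_lit 0x0)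
  (PL.C (nat_lit 0x32f92757) (nat_lit 0x5a9a04fd35240) (nat_lit 0x0) lm_251))))))))))))))))))))

noncomputable def lm_249 : PL :=
  (PL.C (nat_lit 0x2fcd65a9) (nat_lit 0x0) (nat_lit 0xa31af605000)
  (PL.C (nat_lit 0x2fd300a5) (nat_lit 0x0) (nat_lit 0x13e2972b35800)
  (PL.C (nat_lit 0x2fe04456) (nat_lit 0x3c87e8a3000) (nat_lit 0x0)
  (PL.C (nat_lit 0x2ff0507e) (nat_lit 0x0) (nat_lit 0x9e1b148b600)
  (PL.C (nat_lit 0x3004f6b9) (nat_lit 0x19c51267200) (nat_lit 0x0)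
  (PL.C (nat_lit 0x301f46bf) (nat_lit 0x0) (nat_lit 0x3b1eaedd5b00)
  (PL.C (nat_lit 0x303dd1e2) (nat_lit 0x0) (nat_lit 0x10412490bd00)
  (PL.C (nat_lit 0x3064c462) (nat_lit 0x0) (nat_lit 0x1df3f27e26200)
  (PL.C (nat_lit 0x306fd3ae) (nat_lit 0x4786be62700) (nat_lit 0x0)
  (PL.C (nat_lit 0x307581b6) (nat_lit 0x1061c38ebe00) (nat_lit 0x0)
  (PL.C (nat_lit 0x30a3c632) (nat_lit 0xaa5d4681300) (nat_lit 0x0)
  (PL.C (nat_lit 0x30a4752d) (nat_lit 0x0) (nat_lit 0x2ef2e65e54680)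
  (PL.C (nat_lit 0x30a8218e) (nat_lit 0xcff9b559900) (nat_lit 0x0)
  (PL.C (nat_lit 0x30ad71d2) (nat_lit 0x1f7ab51d2000) (nat_lit 0x0)
  (PL.C (nat_lit 0x30d49123) (nat_lit 0x0) (nat_lit 0x30a0881b6f800)
  (PL.C (nat_lit 0x30d8a023) (nat_lit 0xfd69d7ad1d00) (nat_lit 0x0)
  (PL.C (nat_lit 0x30e04c1a) (nat_lit 0x547cc07ad00) (nat_lit 0x0)
  (PL.C (nat_lit 0x31135b82) (nat_lit 0x0) (nat_lit 0x4b3fc491100)
  (PL.C (nat_lit 0x3119e5cf) (nat_lit 0x0) (nat_lit 0x1600b5862b00)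
  (PL.C (nat_lit 0x3133357f) (nat_lit 0x1cb5c264200) (nat_lit 0x0) lm_250))))))))))))))))))))

noncomputable def lm_248 : PL :=
  (PL.C (nat_lit 0x2e549fdd) (nat_lit 0x4e6518c0500) (nat_lit 0x0)
  (PL.C (nat_lit 0x2e6c81ed) (nat_lit 0x13fde972d2b00) (nat_lit 0x0)
  (PL.C (nat_lit 0x2e7c1179) (nat_lit 0x2120d8bda00) (nat_lit 0x0)
  (PL.C (nat_lit 0x2e8a1aff) (nat_lit 0x0) (nat_lit 0xadde5d5200)
  (PL.C (nat_lit 0x2e9beeb5) (nat_lit 0x413362fec00) (nat_lit 0x0)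
  (PL.C (nat_lit 0x2ea18732) (nat_lit 0x1251d3b4000) (nat_lit 0x0)
  (PL.C (nat_lit 0x2ea5027f) (nat_lit 0x19b07f605c400) (nat_lit 0x0)
  (PL.C (nat_lit 0x2ecc03f6) (nat_lit 0x0) (nat_lit 0xeafa77ef5080)
  (PL.C (nat_lit 0x2ed40382) (nat_lit 0x0) (nat_lit 0xb39b34e1400)
  (PL.C (nat_lit 0x2ed708f1) (nat_lit 0x179f80d3e00) (nat_lit 0x0)
  (PL.C (nat_lit 0x2ee82f47) (nat_lit 0xa31af605000) (nat_lit 0x0)
  (PL.C (nat_lit 0x2f01e341) (nat_lit 0x5b002b49cb00) (nat_lit 0x0)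
  (PL.C (nat_lit 0x2f344d4f) (nat_lit 0x46ca13b580) (nat_lit 0x0)
  (PL.C (nat_lit 0x2f3c0d21) (nat_lit 0x42bcea33bc80) (nat_lit 0x0)
  (PL.C (nat_lit 0x2f441fd3) (nat_lit 0x0) (nat_lit 0x2fd2ab227600)
  (PL.C (nat_lit 0x2f601a9a) (nat_lit 0x3ffdf612f00) (nat_lit 0x0)
  (PL.C (nat_lit 0x2f879272) (nat_lit 0x0) (nat_lit 0xa5a3dcdae00)
  (PL.C (nat_lit 0x2f9c0b8f) (nat_lit 0xadde5d5200) (nat_lit 0x0)
  (PL.C (nat_lit 0x2fa9d4a7) (nat_lit 0xc4ef99fecb00) (nat_lit 0x0)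
  (PL.C (nat_lit 0x2fbe6fe6) (nat_lit 0x0) (nat_lit 0x91d8a98c000) lm_249))))))))))))))))))))

noncomputable def lm_247 : PL :=
  (PL.C (nat_lit 0x2c77c343) (nat_lit 0xa5798be59200) (nat_lit 0x0)
  (PL.C (nat_lit 0x2c86aaf7) (nat_lit 0x0) (nat_lit 0x2460ada6ab1c0)
  (PL.C (nat_lit 0x2cb3c26e) (nat_lit 0x4b3fc491100) (nat_lit 0x0)
  (PL.C (nat_lit 0x2ccb7655) (nat_lit 0x28169625a100) (nat_lit 0x0)
  (PL.C (nat_lit 0x2cfdb07a) (nat_lit 0x0) (nat_lit 0x218e8017400)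
  (PL.C (nat_lit 0x2d0cc512) (nat_lit 0x0) (nat_lit 0x547cc07ad00)
  (PL.C (nat_lit 0x2d0cc7f7) (nat_lit 0x3b1ca84370380) (nat_lit 0x0)
  (PL.C (nat_lit 0x2d202cbf) (nat_lit 0x0) (nat_lit 0xf085414bc00)
  (PL.C (nat_lit 0x2d476f4f) (nat_lit 0x3f0ff2fff500) (nat_lit 0x0)
  (PL.C (nat_lit 0x2d5e18b1) (nat_lit 0x0) (nat_lit 0x127401d493d80)
  (PL.C (nat_lit 0x2d6e7835) (nat_lit 0xbbb15e876100) (nat_lit 0x0)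
  (PL.C (nat_lit 0x2d87b92b) (nat_lit 0x0) (nat_lit 0x31a805bd9000)
  (PL.C (nat_lit 0x2d9f319b) (nat_lit 0x0) (nat_lit 0x5fceacc7f800)
  (PL.C (nat_lit 0x2da59885) (nat_lit 0x0) (nat_lit 0xe3795575a00)
  (PL.C (nat_lit 0x2dc21307) (nat_lit 0x0) (nat_lit 0x1062f67915d00)
  (PL.C (nat_lit 0x2de14a62) (nat_lit 0x0) (nat_lit 0xc30815d64a80)
  (PL.C (nat_lit 0x2de6bb9e) (nat_lit 0x830e1c75f00) (nat_lit 0x0)
  (PL.C (nat_lit 0x2dec0f3d) (nat_lit 0x0) (nat_lit 0x1970150e4400)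
  (PL.C (nat_lit 0x2e1324ab) (nat_lit 0x178f1614da2c0) (nat_lit 0x0)
  (PL.C (nat_lit 0x2e40b685) (nat_lit 0x187cfcc0cc680) (nat_lit 0x0) lm_248))))))))))))))))))))

noncomputable def lm_246 : PL :=
  (PL.C (nat_lit 0x2ae77dcf) (nat_lit 0x0) (nat_lit 0x214101b015e00)
  (PL.C (nat_lit 0x2b002b81) (nat_lit 0x0) (nat_lit 0x1e72605bd4c00)
  (PL.C (nat_lit 0x2b0784f3) (nat_lit 0xfecce6ccf80) (nat_lit 0x0)
  (PL.C (nat_lit 0x2b088b63) (nat_lit 0x20799a6352200) (nat_lit 0x0)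
  (PL.C (nat_lit 0x2b0c2e01) (nat_lit 0x10231e42e400) (nat_lit 0x0)
  (PL.C (nat_lit 0x2b2f4ece) (nat_lit 0x0) (nat_lit 0x91d8a98c000)
  (PL.C (nat_lit 0x2b40929b) (nat_lit 0x3ed357e44800) (nat_lit 0x0)
  (PL.C (nat_lit 0x2b41e8d1) (nat_lit 0x39f4c9c6000) (nat_lit 0x0)
  (PL.C (nat_lit 0x2b5e3b5d) (nat_lit 0xcaacbc0dc6480) (nat_lit 0x0)
  (PL.C (nat_lit 0x2b96b225) (nat_lit 0x140b4b12d080) (nat_lit 0x0)
  (PL.C (nat_lit 0x2bd4e55e) (nat_lit 0x147d70c3800) (nat_lit 0x0)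
  (PL.C (nat_lit 0x2c0338ed) (nat_lit 0x0) (nat_lit 0x2c7e7297000)
  (PL.C (nat_lit 0x2c077e0a) (nat_lit 0x0) (nat_lit 0x1517a3193000)
  (PL.C (nat_lit 0x2c2eb149) (nat_lit 0x192ddb2b55a80) (nat_lit 0x0)
  (PL.C (nat_lit 0x2c300edb) (nat_lit 0x562b07190e280) (nat_lit 0x0)
  (PL.C (nat_lit 0x2c357d32) (nat_lit 0x114a524e0180) (nat_lit 0x0)
  (PL.C (nat_lit 0x2c567daa) (nat_lit 0x14e77d95280) (nat_lit 0x0)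
  (PL.C (nat_lit 0x2c64e6ee) (nat_lit 0x0) (nat_lit 0x2c1bd8a67a00)
  (PL.C (nat_lit 0x2c6586a3) (nat_lit 0x814b13f4b6d80) (nat_lit 0x0)
  (PL.C (nat_lit 0x2c6996d3) (nat_lit 0xcebfdb7a980) (nat_lit 0x0) lm_247))))))))))))))))))))

noncomputable def lm_245 : PL :=
  (PL.C (nat_lit 0x29b48426) (nat_lit 0x4744edefd8b80) (nat_lit 0x0)
  (PL.C (nat_lit 0x29d02822) (nat_lit 0x10412490bd00) (nat_lit 0x0)
  (PL.C (nat_lit 0x29e015be) (nat_lit 0x1ecc3f810e00) (nat_lit 0x0)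
  (PL.C (nat_lit 0x29e90c31) (nat_lit 0x1e96886ccf400) (nat_lit 0x0)
  (PL.C (nat_lit 0x29f9f811) (nat_lit 0x0) (nat_lit 0x7a543883c00)
  (PL.C (nat_lit 0x2a116f55) (nat_lit 0x299755057ec0) (nat_lit 0x0)
  (PL.C (nat_lit 0x2a186b43) (nat_lit 0x0) (nat_lit 0x5fceacc7f800)
  (PL.C (nat_lit 0x2a271ee5) (nat_lit 0x0) (nat_lit 0xaa10acbc9a00)
  (PL.C (nat_lit 0x2a2d7cbd) (nat_lit 0x0) (nat_lit 0x2120d8bda00)
  (PL.C (nat_lit 0x2a35b397) (nat_lit 0xd722b296d000) (nat_lit 0x0)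
  (PL.C (nat_lit 0x2a53bbf9) (nat_lit 0x1970150e4400) (nat_lit 0x0)
  (PL.C (nat_lit 0x2a666cfd) (nat_lit 0x215db7727a000) (nat_lit 0x0)
  (PL.C (nat_lit 0x2a6e2443) (nat_lit 0x0) (nat_lit 0x338799638e00)
  (PL.C (nat_lit 0x2a902256) (nat_lit 0x0) (nat_lit 0x2c1bd8a67a00)
  (PL.C (nat_lit 0x2a92b871) (nat_lit 0x5afa28917080) (nat_lit 0x0)
  (PL.C (nat_lit 0x2aa43551) (nat_lit 0x0) (nat_lit 0x6ac9130400)
  (PL.C (nat_lit 0x2aa61336) (nat_lit 0x0) (nat_lit 0x218e8017400)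
  (PL.C (nat_lit 0x2ab2804d) (nat_lit 0xe1b7d760380) (nat_lit 0x0)
  (PL.C (nat_lit 0x2ade346f) (nat_lit 0x0) (nat_lit 0xfa7bd6d1e00)
  (PL.C (nat_lit 0x2ae391f9) (nat_lit 0x0) (nat_lit 0x20d7f3d8fb080) lm_246))))))))))))))))))))

noncomputable def lm_244 : PL :=
  (PL.C (nat_lit 0x28599fee) (nat_lit 0x0) (nat_lit 0x5d22b7f6400)
  (PL.C (nat_lit 0x2877bef6) (nat_lit 0x0) (nat_lit 0xa5a3dcdae00)
  (PL.C (nat_lit 0x28892d5d) (nat_lit 0x0) (nat_lit 0x1373dcaa600)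
  (PL.C (nat_lit 0x289aebd9) (nat_lit 0x0) (nat_lit 0x5fb4591d3b80)
  (PL.C (nat_lit 0x28e362e6) (nat_lit 0x3ffdf612f00) (nat_lit 0x0)
  (PL.C (nat_lit 0x28e7be42) (nat_lit 0xdaa8a2e6de00) (nat_lit 0x0)
  (PL.C (nat_lit 0x28f95ce7) (nat_lit 0x15e368d2c9200) (nat_lit 0x0)
  (PL.C (nat_lit 0x290e7c17) (nat_lit 0x20670356f1f00) (nat_lit 0x0)
  (PL.C (nat_lit 0x290fd0a1) (nat_lit 0x5fffffe99f80) (nat_lit 0x0)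
  (PL.C (nat_lit 0x2917de21) (nat_lit 0x3bb2f933c100) (nat_lit 0x0)
  (PL.C (nat_lit 0x292eb5bf) (nat_lit 0x0) (nat_lit 0x1970150e4400)
  (PL.C (nat_lit 0x29435241) (nat_lit 0x0) (nat_lit 0x236509dac00)
  (PL.C (nat_lit 0x2943f06f) (nat_lit 0x0) (nat_lit 0xadde5d5200)
  (PL.C (nat_lit 0x2947a2b1) (nat_lit 0x547adcd6500) (nat_lit 0x0)
  (PL.C (nat_lit 0x2953a8a1) (nat_lit 0x0) (nat_lit 0xe8d7c0c52c00)
  (PL.C (nat_lit 0x29849732) (nat_lit 0x19e452297ac00) (nat_lit 0x0)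
  (PL.C (nat_lit 0x298851bb) (nat_lit 0x0) (nat_lit 0xbe688b5cf00)
  (PL.C (nat_lit 0x29897709) (nat_lit 0x0) (nat_lit 0x31a805bd9000)
  (PL.C (nat_lit 0x29963d8f) (nat_lit 0x5b002b49cb00) (nat_lit 0x0)
  (PL.C (nat_lit 0x299e40f7) (nat_lit 0x3a4ede61a00) (nat_lit 0x0) lm_245))))))))))))))))))))

noncomputable def lm_243 : PL :=
  (PL.C (nat_lit 0x271c736e) (nat_lit 0xda98f94700) (nat_lit 0x0)
  (PL.C (nat_lit 0x2723d513) (nat_lit 0x0) (nat_lit 0x2d6a259efe00)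
  (PL.C (nat_lit 0x27306061) (nat_lit 0x13fde972d2b00) (nat_lit 0x0)
  (PL.C (nat_lit 0x273d831d) (nat_lit 0x0) (nat_lit 0x5afa28917080)
  (PL.C (nat_lit 0x27510351) (nat_lit 0x4c5a8a872400) (nat_lit 0x0)
  (PL.C (nat_lit 0x27582aef) (nat_lit 0x1708de0c9600) (nat_lit 0x0)
  (PL.C (nat_lit 0x276012bb) (nat_lit 0x19b07f605c400) (nat_lit 0x0)
  (PL.C (nat_lit 0x276a5412) (nat_lit 0x0) (nat_lit 0x864d78bfee00)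
  (PL.C (nat_lit 0x277a1615) (nat_lit 0x0) (nat_lit 0xea383ae0d00)
  (PL.C (nat_lit 0x27ae7a05) (nat_lit 0x6e238433480) (nat_lit 0x0)
  (PL.C (nat_lit 0x27c8b12b) (nat_lit 0x0) (nat_lit 0x4c5a8a872400)
  (PL.C (nat_lit 0x27d32b62) (nat_lit 0x42af65808700) (nat_lit 0x0)
  (PL.C (nat_lit 0x27df9365) (nat_lit 0x16fa35f1a5400) (nat_lit 0x0)
  (PL.C (nat_lit 0x27fe0282) (nat_lit 0x4786be62700) (nat_lit 0x0)
  (PL.C (nat_lit 0x28017682) (nat_lit 0x0) (nat_lit 0xebeede79400)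
  (PL.C (nat_lit 0x281f53ba) (nat_lit 0x0) (nat_lit 0x9e1b148b600)
  (PL.C (nat_lit 0x282fa496) (nat_lit 0x0) (nat_lit 0xb2f8007c000)
  (PL.C (nat_lit 0x28309c0b) (nat_lit 0x0) (nat_lit 0xe3e9ab64e00)
  (PL.C (nat_lit 0x28441529) (nat_lit 0x1b2abe94d000) (nat_lit 0x0)
  (PL.C (nat_lit 0x2852d34f) (nat_lit 0x0) (nat_lit 0x3bfad927f000) lm_244))))))))))))))))))))

noncomputable def lm_242 : PL :=
  (PL.C (nat_lit 0x260f030c) (nat_lit 0x0) (nat_lit 0xd2b531cd00)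
  (PL.C (nat_lit 0x2617d5fb) (nat_lit 0x0) (nat_lit 0x4730b75800)
  (PL.C (nat_lit 0x2629d3fe) (nat_lit 0x0) (nat_lit 0x3f0d8df63680)
  (PL.C (nat_lit 0x262ddb7b) (nat_lit 0x3dc4dad27d00) (nat_lit 0x0)
  (PL.C (nat_lit 0x26348092) (nat_lit 0x7dead474800) (nat_lit 0x0)
  (PL.C (nat_lit 0x263c5467) (nat_lit 0x7a543883c00) (nat_lit 0x0)
  (PL.C (nat_lit 0x2659edc9) (nat_lit 0x17d0520739d780) (nat_lit 0x0)
  (PL.C (nat_lit 0x2681fe6d) (nat_lit 0x759021992100) (nat_lit 0x0)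
  (PL.C (nat_lit 0x26830f47) (nat_lit 0x0) (nat_lit 0x5fceacc7f800)
  (PL.C (nat_lit 0x268ff7eb) (nat_lit 0x0) (nat_lit 0x243c298acd00)
  (PL.C (nat_lit 0x26ab4ae3) (nat_lit 0x4e6518c0500) (nat_lit 0x0)
  (PL.C (nat_lit 0x26c6ff02) (nat_lit 0x109651ca6f00) (nat_lit 0x0)
  (PL.C (nat_lit 0x26d61d97) (nat_lit 0x0) (nat_lit 0x1518c68106980)
  (PL.C (nat_lit 0x26dcc0d5) (nat_lit 0x10f90f348000) (nat_lit 0x0)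
  (PL.C (nat_lit 0x26ec9117) (nat_lit 0x0) (nat_lit 0x265879f2ecc80)
  (PL.C (nat_lit 0x26f3c216) (nat_lit 0x42af65808700) (nat_lit 0x0)
  (PL.C (nat_lit 0x27023409) (nat_lit 0x1708de0c9600) (nat_lit 0x0)
  (PL.C (nat_lit 0x2708adef) (nat_lit 0x0) (nat_lit 0x288b1375000)
  (PL.C (nat_lit 0x2714357e) (nat_lit 0x0) (nat_lit 0x864d78bfee00)
  (PL.C (nat_lit 0x27164fd9) (nat_lit 0x16fa35f1a5400) (nat_lit 0x0) lm_243))))))))))))))))))))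

noncomputable def lm_241 : PL :=
  (PL.C (nat_lit 0x249c0391) (nat_lit 0x0) (nat_lit 0x4aebfdf5aff80)
  (PL.C (nat_lit 0x24c116a2) (nat_lit 0x5d22b7f6400) (nat_lit 0x0)
  (PL.C (nat_lit 0x24ca7c7f) (nat_lit 0x0) (nat_lit 0x39f4c9c6000)
  (PL.C (nat_lit 0x24de93f1) (nat_lit 0xc2322a6a0300) (nat_lit 0x0)
  (PL.C (nat_lit 0x24f6a4ea) (nat_lit 0x0) (nat_lit 0x4b3fc491100)
  (PL.C (nat_lit 0x25002f56) (nat_lit 0xda98f94700) (nat_lit 0x0)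
  (PL.C (nat_lit 0x250a45de) (nat_lit 0xb2f8007c000) (nat_lit 0x0)
  (PL.C (nat_lit 0x254458d7) (nat_lit 0x0) (nat_lit 0x28e355fac100)
  (PL.C (nat_lit 0x25478002) (nat_lit 0x0) (nat_lit 0x147d70c3800)
  (PL.C (nat_lit 0x2551b97a) (nat_lit 0x109651ca6f00) (nat_lit 0x0)
  (PL.C (nat_lit 0x2569694c) (nat_lit 0x0) (nat_lit 0xd2b531cd00)
  (PL.C (nat_lit 0x257a466f) (nat_lit 0x0) (nat_lit 0x536553c35eb80)
  (PL.C (nat_lit 0x25967931) (nat_lit 0x18497193a2600) (nat_lit 0x0)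
  (PL.C (nat_lit 0x259d9f93) (nat_lit 0x0) (nat_lit 0x1a0b481ca80)
  (PL.C (nat_lit 0x25a9d981) (nat_lit 0x0) (nat_lit 0x4730b75800)
  (PL.C (nat_lit 0x25b9020e) (nat_lit 0xa9f8bde18100) (nat_lit 0x0)
  (PL.C (nat_lit 0x25bbdb54) (nat_lit 0x6600c7364600) (nat_lit 0x0)
  (PL.C (nat_lit 0x25c5f71d) (nat_lit 0x0) (nat_lit 0xcebfdb7a980)
  (PL.C (nat_lit 0x25e1ff3d) (nat_lit 0x469e2165b2500) (nat_lit 0x0)
  (PL.C (nat_lit 0x25e94e87) (nat_lit 0x0) (nat_lit 0x28e355fac100) lm_242))))))))))))))))))))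

noncomputable def lm_240 : PL :=
  (PL.C (nat_lit 0x23bb4102) (nat_lit 0x1a14e09180200) (nat_lit 0x0)
  (PL.C (nat_lit 0x23c3b761) (nat_lit 0x236509dac00) (nat_lit 0x0)
  (PL.C (nat_lit 0x23c6eb7f) (nat_lit 0x32b02c7eb9cc0) (nat_lit 0x0)
  (PL.C (nat_lit 0x23cad3b1) (nat_lit 0x3bb2f933c100) (nat_lit 0x0)
  (PL.C (nat_lit 0x23db580f) (nat_lit 0x0) (nat_lit 0x11875d925400)
  (PL.C (nat_lit 0x23f037f5) (nat_lit 0x3dc4dad27d00) (nat_lit 0x0)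
  (PL.C (nat_lit 0x24008e8e) (nat_lit 0x0) (nat_lit 0x5d22b7f6400)
  (PL.C (nat_lit 0x240c9fd6) (nat_lit 0x0) (nat_lit 0xda98f94700)
  (PL.C (nat_lit 0x2415c349) (nat_lit 0x1271865ff500) (nat_lit 0x0)
  (PL.C (nat_lit 0x2429ef6d) (nat_lit 0x0) (nat_lit 0x2b001b95dc740)
  (PL.C (nat_lit 0x242c5ffa) (nat_lit 0x0) (nat_lit 0x193f9d184700)
  (PL.C (nat_lit 0x242ff06b) (nat_lit 0x412be7103c00) (nat_lit 0x0)
  (PL.C (nat_lit 0x2437c74b) (nat_lit 0x0) (nat_lit 0x3bfad927f000)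
  (PL.C (nat_lit 0x2453ae2f) (nat_lit 0x0) (nat_lit 0xac61b425b80)
  (PL.C (nat_lit 0x2456bfc5) (nat_lit 0x0) (nat_lit 0x1118da3e400)
  (PL.C (nat_lit 0x245944be) (nat_lit 0x0) (nat_lit 0x8dd7303cec00)
  (PL.C (nat_lit 0x2462edf1) (nat_lit 0xea383ae0d00) (nat_lit 0x0)
  (PL.C (nat_lit 0x2479a16b) (nat_lit 0x0) (nat_lit 0x639e056a4c380)
  (PL.C (nat_lit 0x24889d0b) (nat_lit 0xc50f2748700) (nat_lit 0x0)
  (PL.C (nat_lit 0x2496da26) (nat_lit 0x0) (nat_lit 0x29d7f5f31500) lm_241))))))))))))))))))))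

noncomputable def lm_239 : PL :=
  (PL.C (nat_lit 0x22d5b935) (nat_lit 0xe9461289c00) (nat_lit 0x0)
  (PL.C (nat_lit 0x22d8bb35) (nat_lit 0x6c4ac7ccf9d80) (nat_lit 0x0)
  (PL.C (nat_lit 0x22e1497f) (nat_lit 0x10cd8c7a9580) (nat_lit 0x0)
  (PL.C (nat_lit 0x22f2be81) (nat_lit 0x90adc32c6300) (nat_lit 0x0)
  (PL.C (nat_lit 0x2306b1f1) (nat_lit 0x1970150e4400) (nat_lit 0x0)
  (PL.C (nat_lit 0x231b160b) (nat_lit 0x1157ee375a80) (nat_lit 0x0)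
  (PL.C (nat_lit 0x23392bef) (nat_lit 0x0) (nat_lit 0x6c3cbfe027800)
  (PL.C (nat_lit 0x233b8c3e) (nat_lit 0x0) (nat_lit 0x1517a3193000)
  (PL.C (nat_lit 0x233fc2b7) (nat_lit 0x0) (nat_lit 0x1d28c2513800)
  (PL.C (nat_lit 0x2361d4c5) (nat_lit 0x0) (nat_lit 0x10b927d30d6500)
  (PL.C (nat_lit 0x23670807) (nat_lit 0x0) (nat_lit 0x216164d49e00)
  (PL.C (nat_lit 0x2378bff9) (nat_lit 0x1271865ff500) (nat_lit 0x0)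
  (PL.C (nat_lit 0x2386cb59) (nat_lit 0x0) (nat_lit 0x39d6706d9d740)
  (PL.C (nat_lit 0x238fe5cd) (nat_lit 0x0) (nat_lit 0x57e61bdb2000)
  (PL.C (nat_lit 0x23956339) (nat_lit 0x111abed92a080) (nat_lit 0x0)
  (PL.C (nat_lit 0x239d850f) (nat_lit 0x0) (nat_lit 0x8f2fb5324f00)
  (PL.C (nat_lit 0x23a15095) (nat_lit 0x0) (nat_lit 0x2460ada6ab1c0)
  (PL.C (nat_lit 0x23a1b233) (nat_lit 0x759021992100) (nat_lit 0x0)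
  (PL.C (nat_lit 0x23b50c81) (nat_lit 0x0) (nat_lit 0x3981c0b02e00)
  (PL.C (nat_lit 0x23b60983) (nat_lit 0x0) (nat_lit 0x324c366cc00) lm_240))))))))))))))))))))

noncomputable def lm_238 : PL :=
  (PL.C (nat_lit 0x218ae4a2) (nat_lit 0xbc12117ce900) (nat_lit 0x0)
  (PL.C (nat_lit 0x2199ead1) (nat_lit 0x4d93133c2500) (nat_lit 0x0)
  (PL.C (nat_lit 0x21af570b) (nat_lit 0x393c73f3bf180) (nat_lit 0x0)
  (PL.C (nat_lit 0x21bc3e39) (nat_lit 0x192ddb2b55a80) (nat_lit 0x0)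
  (PL.C (nat_lit 0x21c5640a) (nat_lit 0x0) (nat_lit 0x4f93c20b400)
  (PL.C (nat_lit 0x21d287b7) (nat_lit 0x6fa44c17fc40) (nat_lit 0x0)
  (PL.C (nat_lit 0x21f269b5) (nat_lit 0x0) (nat_lit 0x73c8102da400)
  (PL.C (nat_lit 0x220a12cb) (nat_lit 0x0) (nat_lit 0x214101b015e00)
  (PL.C (nat_lit 0x220fd026) (nat_lit 0x0) (nat_lit 0x218e8017400)
  (PL.C (nat_lit 0x2221d88e) (nat_lit 0xa8b8d63dd00) (nat_lit 0x0)
  (PL.C (nat_lit 0x2222dabe) (nat_lit 0x1bc738223600) (nat_lit 0x0)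
  (PL.C (nat_lit 0x22438eb6) (nat_lit 0x0) (nat_lit 0xc30815d64a80)
  (PL.C (nat_lit 0x2246eefd) (nat_lit 0x0) (nat_lit 0x1856af23e7e00)
  (PL.C (nat_lit 0x226e14d2) (nat_lit 0x0) (nat_lit 0x64d5214ba0400)
  (PL.C (nat_lit 0x22886841) (nat_lit 0x28e355fac100) (nat_lit 0x0)
  (PL.C (nat_lit 0x22a87cb3) (nat_lit 0x0) (nat_lit 0x1c72669155100)
  (PL.C (nat_lit 0x22aac094) (nat_lit 0xd2b531cd00) (nat_lit 0x0)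
  (PL.C (nat_lit 0x22b06865) (nat_lit 0x215db7727a000) (nat_lit 0x0)
  (PL.C (nat_lit 0x22b41aa7) (nat_lit 0x0) (nat_lit 0x4aebfdf5aff80)
  (PL.C (nat_lit 0x22d59c6b) (nat_lit 0xe3e9ab64e00) (nat_lit 0x0) lm_239))))))))))))))))))))

noncomputable def lm_237 : PL :=
  (PL.C (nat_lit 0x2097288f) (nat_lit 0x10231e42e400) (nat_lit 0x0)
  (PL.C (nat_lit 0x2099f2fd) (nat_lit 0x413362fec00) (nat_lit 0x0)
  (PL.C (nat_lit 0x20a48baf) (nat_lit 0x0) (nat_lit 0x136dd4d6a600)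
  (PL.C (nat_lit 0x20af7cb3) (nat_lit 0xd8a63cc3800) (nat_lit 0x0)
  (PL.C (nat_lit 0x20bbee8a) (nat_lit 0x114a524e0180) (nat_lit 0x0)
  (PL.C (nat_lit 0x20dba5b3) (nat_lit 0x0) (nat_lit 0xac61b425b80)
  (PL.C (nat_lit 0x20de876f) (nat_lit 0x0) (nat_lit 0x1271865ff500)
  (PL.C (nat_lit 0x20fee2fd) (nat_lit 0x42bcea33bc80) (nat_lit 0x0)
  (PL.C (nat_lit 0x210411a6) (nat_lit 0x147d70c3800) (nat_lit 0x0)
  (PL.C (nat_lit 0x21066d6b) (nat_lit 0x0) (nat_lit 0xc106bbefa00)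
  (PL.C (nat_lit 0x2109f249) (nat_lit 0xb324b790c240) (nat_lit 0x0)
  (PL.C (nat_lit 0x2114e3a5) (nat_lit 0x28af1327c00) (nat_lit 0x0)
  (PL.C (nat_lit 0x211ffa51) (nat_lit 0x0) (nat_lit 0x3dc4dad27d00)
  (PL.C (nat_lit 0x21266dd3) (nat_lit 0x1c672f71db00) (nat_lit 0x0)
  (PL.C (nat_lit 0x213deb0b) (nat_lit 0x0) (nat_lit 0xa6785a41400)
  (PL.C (nat_lit 0x213e9b9a) (nat_lit 0x0) (nat_lit 0x49dffdb3a700)
  (PL.C (nat_lit 0x215f7152) (nat_lit 0xa9f8bde18100) (nat_lit 0x0)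
  (PL.C (nat_lit 0x21624306) (nat_lit 0x54b094801800) (nat_lit 0x0)
  (PL.C (nat_lit 0x2162bb1f) (nat_lit 0x0) (nat_lit 0x2677866e76b00)
  (PL.C (nat_lit 0x2188a181) (nat_lit 0x0) (nat_lit 0x2cd48f6b900) lm_238))))))))))))))))))))

noncomputable def lm_236 : PL :=
  (PL.C (nat_lit 0x1fe2006e) (nat_lit 0x0) (nat_lit 0x8dd7303cec00)
  (PL.C (nat_lit 0x1fe8313f) (nat_lit 0xfd69d7ad1d00) (nat_lit 0x0)
  (PL.C (nat_lit 0x1feda54d) (nat_lit 0x0) (nat_lit 0x2fd2ab227600)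
  (PL.C (nat_lit 0x1ffa9ef1) (nat_lit 0x0) (nat_lit 0x6622bce1dd00)
  (PL.C (nat_lit 0x2000e471) (nat_lit 0x0) (nat_lit 0x3293d1a28f680)
  (PL.C (nat_lit 0x20034f26) (nat_lit 0x0) (nat_lit 0x4f93c20b400)
  (PL.C (nat_lit 0x2023371f) (nat_lit 0x0) (nat_lit 0x1518c68106980)
  (PL.C (nat_lit 0x202a8f59) (nat_lit 0x7a8cdf46c800) (nat_lit 0x0)
  (PL.C (nat_lit 0x203aa8a7) (nat_lit 0x5afa28917080) (nat_lit 0x0)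
  (PL.C (nat_lit 0x204d0eb7) (nat_lit 0x28e355fac100) (nat_lit 0x0)
  (PL.C (nat_lit 0x204d2969) (nat_lit 0x0) (nat_lit 0xc106bbefa00)
  (PL.C (nat_lit 0x204ff369) (nat_lit 0x0) (nat_lit 0x2fa5ba43e100)
  (PL.C (nat_lit 0x205fdcad) (nat_lit 0xbbb15e876100) (nat_lit 0x0)
  (PL.C (nat_lit 0x20681265) (nat_lit 0xd8a63cc3800) (nat_lit 0x0)
  (PL.C (nat_lit 0x206d2ecc) (nat_lit 0xd2b531cd00) (nat_lit 0x0)
  (PL.C (nat_lit 0x20754003) (nat_lit 0x0) (nat_lit 0x1b2178b1f800)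
  (PL.C (nat_lit 0x2078c6f5) (nat_lit 0x0) (nat_lit 0x3dc4dad27d00)
  (PL.C (nat_lit 0x2081aee1) (nat_lit 0xd722b296d000) (nat_lit 0x0)
  (PL.C (nat_lit 0x208d7ad7) (nat_lit 0x10cd8c7a9580) (nat_lit 0x0)
  (PL.C (nat_lit 0x20906ac2) (nat_lit 0x0) (nat_lit 0x1d1881cdece80) lm_237))))))))))))))))))))

noncomputable def lm_235 : PL :=
  (PL.C (nat_lit 0x1ed303d7) (nat_lit 0x0) (nat_lit 0xb77e54c5a00)
  (PL.C (nat_lit 0x1ee3153e) (nat_lit 0x2c4f7efb780) (nat_lit 0x0)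
  (PL.C (nat_lit 0x1f06bcaa) (nat_lit 0x218e8017400) (nat_lit 0x0)
  (PL.C (nat_lit 0x1f19148f) (nat_lit 0x10f90f348000) (nat_lit 0x0)
  (PL.C (nat_lit 0x1f1fa175) (nat_lit 0x8108083c2f6c0) (nat_lit 0x0)
  (PL.C (nat_lit 0x1f3a05f6) (nat_lit 0xa8b8d63dd00) (nat_lit 0x0)
  (PL.C (nat_lit 0x1f3c3afd) (nat_lit 0x0) (nat_lit 0x324c366cc00)
  (PL.C (nat_lit 0x1f4574da) (nat_lit 0x0) (nat_lit 0x1f7ab51d2000)
  (PL.C (nat_lit 0x1f4bdd03) (nat_lit 0x0) (nat_lit 0x16b512cf7f00)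
  (PL.C (nat_lit 0x1f761cc3) (nat_lit 0x6008a4e83c00) (nat_lit 0x0)
  (PL.C (nat_lit 0x1f78338a) (nat_lit 0x0) (nat_lit 0xda98f94700)
  (PL.C (nat_lit 0x1f7d5e16) (nat_lit 0x0) (nat_lit 0x13487b1166980)
  (PL.C (nat_lit 0x1f82bfe2) (nat_lit 0x0) (nat_lit 0x13ce78ec9000)
  (PL.C (nat_lit 0x1f905297) (nat_lit 0x0) (nat_lit 0xda5b8c0ec000)
  (PL.C (nat_lit 0x1fb4c1fd) (nat_lit 0x0) (nat_lit 0x13dca87143800)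
  (PL.C (nat_lit 0x1fbd5d0a) (nat_lit 0x0) (nat_lit 0x218e8017400)
  (PL.C (nat_lit 0x1fc0e71f) (nat_lit 0x1597487d0d80) (nat_lit 0x0)
  (PL.C (nat_lit 0x1fcb3945) (nat_lit 0x0) (nat_lit 0xf085414bc00)
  (PL.C (nat_lit 0x1fd5e171) (nat_lit 0x0) (nat_lit 0xbfd751b03400)
  (PL.C (nat_lit 0x1fde43c6) (nat_lit 0x1f7ab51d2000) (nat_lit 0x0) lm_236))))))))))))))))))))

noncomputable def lm_234 : PL :=
  (PL.C (nat_lit 0x1e051bc1) (nat_lit 0x74bd87cd000) (nat_lit 0x0)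
  (PL.C (nat_lit 0x1e109b8b) (nat_lit 0x0) (nat_lit 0xa0a2765f500)
  (PL.C (nat_lit 0x1e13cfa9) (nat_lit 0x200454ead4900) (nat_lit 0x0)
  (PL.C (nat_lit 0x1e15732a) (nat_lit 0x1b5f6743800) (nat_lit 0x0)
  (PL.C (nat_lit 0x1e1c3629) (nat_lit 0x216164d49e00) (nat_lit 0x0)
  (PL.C (nat_lit 0x1e247845) (nat_lit 0x22fb5b154400) (nat_lit 0x0)
  (PL.C (nat_lit 0x1e2f9f8a) (nat_lit 0x4744edefd8b80) (nat_lit 0x0)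
  (PL.C (nat_lit 0x1e506c47) (nat_lit 0x0) (nat_lit 0x88aabd0b22dc0)
  (PL.C (nat_lit 0x1e5a7b72) (nat_lit 0x0) (nat_lit 0x60bee9ae7000)
  (PL.C (nat_lit 0x1e6a2112) (nat_lit 0x0) (nat_lit 0x49dffdb3a700)
  (PL.C (nat_lit 0x1e6e65ae) (nat_lit 0x0) (nat_lit 0x147d70c3800)
  (PL.C (nat_lit 0x1e77e41f) (nat_lit 0x1a5783214e780) (nat_lit 0x0)
  (PL.C (nat_lit 0x1e8723e1) (nat_lit 0x0) (nat_lit 0x639e056a4c380)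
  (PL.C (nat_lit 0x1e8c3557) (nat_lit 0x0) (nat_lit 0x16e15192600)
  (PL.C (nat_lit 0x1e989151) (nat_lit 0x0) (nat_lit 0x1e05f0aaff00)
  (PL.C (nat_lit 0x1e9d5f7e) (nat_lit 0x0) (nat_lit 0x2c1bd8a67a00)
  (PL.C (nat_lit 0x1eaa612b) (nat_lit 0x0) (nat_lit 0x265879f2ecc80)
  (PL.C (nat_lit 0x1eb21839) (nat_lit 0x61cd147e200) (nat_lit 0x0)
  (PL.C (nat_lit 0x1ebeb419) (nat_lit 0x0) (nat_lit 0x1271865ff500)
  (PL.C (nat_lit 0x1eca6a57) (nat_lit 0x0) (nat_lit 0x2b001b95dc740) lm_235))))))))))))))))))))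

noncomputable def lm_233 : PL :=
  (PL.C (nat_lit 0x1d4b9183) (nat_lit 0xcaacbc0dc6480) (nat_lit 0x0)
  (PL.C (nat_lit 0x1d5bcb37) (nat_lit 0x0) (nat_lit 0x1804ea78ef900)
  (PL.C (nat_lit 0x1d67f2c9) (nat_lit 0x0) (nat_lit 0x413362fec00)
  (PL.C (nat_lit 0x1d6a7cc9) (nat_lit 0x6c4ac7ccf9d80) (nat_lit 0x0)
  (PL.C (nat_lit 0x1d71b5bb) (nat_lit 0x0) (nat_lit 0x243c298acd00)
  (PL.C (nat_lit 0x1d7b47b9) (nat_lit 0x0) (nat_lit 0x87eaeefda000)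
  (PL.C (nat_lit 0x1d807245) (nat_lit 0x99f5e52f100) (nat_lit 0x0)
  (PL.C (nat_lit 0x1d96245b) (nat_lit 0x0) (nat_lit 0x1e05f0aaff00)
  (PL.C (nat_lit 0x1d9899f4) (nat_lit 0x0) (nat_lit 0x5467f90d600)
  (PL.C (nat_lit 0x1d9b32e1) (nat_lit 0x48093fccfc00) (nat_lit 0x0)
  (PL.C (nat_lit 0x1d9bb9e2) (nat_lit 0x547cc07ad00) (nat_lit 0x0)
  (PL.C (nat_lit 0x1dafa5f9) (nat_lit 0x0) (nat_lit 0x10231e42e400)
  (PL.C (nat_lit 0x1dbbe5eb) (nat_lit 0x110fb32369bd00) (nat_lit 0x0)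
  (PL.C (nat_lit 0x1dc175d3) (nat_lit 0x8266c5fd800) (nat_lit 0x0)
  (PL.C (nat_lit 0x1ddcf98e) (nat_lit 0x1061c38ebe00) (nat_lit 0x0)
  (PL.C (nat_lit 0x1dde3899) (nat_lit 0x0) (nat_lit 0x3293d1a28f680)
  (PL.C (nat_lit 0x1de29c63) (nat_lit 0x99ac4613b00) (nat_lit 0x0)
  (PL.C (nat_lit 0x1deac247) (nat_lit 0x1b2178b1f800) (nat_lit 0x0)
  (PL.C (nat_lit 0x1dfc0dc7) (nat_lit 0x108b0ad27800) (nat_lit 0x0)
  (PL.C (nat_lit 0x1dfd6c7d) (nat_lit 0x110fb32369bd00) (nat_lit 0x0) lm_234))))))))))))))))))))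

noncomputable def lm_232 : PL :=
  (PL.C (nat_lit 0x1c63d753) (nat_lit 0x0) (nat_lit 0x1b2abe94d000)
  (PL.C (nat_lit 0x1c66ddc1) (nat_lit 0x0) (nat_lit 0x59b8115026c0)
  (PL.C (nat_lit 0x1c7504f7) (nat_lit 0x74bd87cd000) (nat_lit 0x0)
  (PL.C (nat_lit 0x1c834309) (nat_lit 0x0) (nat_lit 0x3b1eaedd5b00)
  (PL.C (nat_lit 0x1c9389f9) (nat_lit 0x0) (nat_lit 0x288b1375000)
  (PL.C (nat_lit 0x1c97b6a6) (nat_lit 0x1a14e09180200) (nat_lit 0x0)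
  (PL.C (nat_lit 0x1cadaec9) (nat_lit 0x0) (nat_lit 0x13dca87143800)
  (PL.C (nat_lit 0x1cb2c956) (nat_lit 0x2ccf27cf7600) (nat_lit 0x0)
  (PL.C (nat_lit 0x1cbc0937) (nat_lit 0xc3a340d51540) (nat_lit 0x0)
  (PL.C (nat_lit 0x1cd3c539) (nat_lit 0x0) (nat_lit 0x14c450a6e3600)
  (PL.C (nat_lit 0x1cd5b712) (nat_lit 0x5b0f7d1d1900) (nat_lit 0x0)
  (PL.C (nat_lit 0x1cd69b36) (nat_lit 0x0) (nat_lit 0xb2f8007c000)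
  (PL.C (nat_lit 0x1cdc2aa9) (nat_lit 0x0) (nat_lit 0x1e79eb2e21280)
  (PL.C (nat_lit 0x1cf50bf3) (nat_lit 0x0) (nat_lit 0x291eabc902780)
  (PL.C (nat_lit 0x1d052eaf) (nat_lit 0x0) (nat_lit 0x11875d925400)
  (PL.C (nat_lit 0x1d0f216e) (nat_lit 0x830e1c75f00) (nat_lit 0x0)
  (PL.C (nat_lit 0x1d11afbd) (nat_lit 0x5fffffe99f80) (nat_lit 0x0)
  (PL.C (nat_lit 0x1d134c3f) (nat_lit 0x0) (nat_lit 0xa8f1b523b180)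
  (PL.C (nat_lit 0x1d14245f) (nat_lit 0x0) (nat_lit 0x1118da3e400)
  (PL.C (nat_lit 0x1d4872b9) (nat_lit 0x0) (nat_lit 0xcf89c98ae440) lm_233))))))))))))))))))))

noncomputable def lm_231 : PL :=
  (PL.C (nat_lit 0x1bb0fa06) (nat_lit 0x0) (nat_lit 0x60bee9ae7000)
  (PL.C (nat_lit 0x1bb221dd) (nat_lit 0x0) (nat_lit 0x388c5183f7a00)
  (PL.C (nat_lit 0x1bbcbdbf) (nat_lit 0x20799a6352200) (nat_lit 0x0)
  (PL.C (nat_lit 0x1bbed5fa) (nat_lit 0xcff9b559900) (nat_lit 0x0)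
  (PL.C (nat_lit 0x1bc493e1) (nat_lit 0x0) (nat_lit 0x1ab7383ac140)
  (PL.C (nat_lit 0x1bcf10d1) (nat_lit 0x0) (nat_lit 0x7411b3e511c00)
  (PL.C (nat_lit 0x1bdbb5fd) (nat_lit 0x36557d29a000) (nat_lit 0x0)
  (PL.C (nat_lit 0x1be3d32d) (nat_lit 0xb324b790c240) (nat_lit 0x0)
  (PL.C (nat_lit 0x1bfbde5f) (nat_lit 0x0) (nat_lit 0x3b1eaedd5b00)
  (PL.C (nat_lit 0x1bfbfab6) (nat_lit 0x0) (nat_lit 0x10412490bd00)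
  (PL.C (nat_lit 0x1c0b9f8e) (nat_lit 0x1ecc3f810e00) (nat_lit 0x0)
  (PL.C (nat_lit 0x1c0fb277) (nat_lit 0x84fcfb42400) (nat_lit 0x0)
  (PL.C (nat_lit 0x1c104782) (nat_lit 0x0) (nat_lit 0x49dffdb3a700)
  (PL.C (nat_lit 0x1c191a5b) (nat_lit 0x17ef51115140) (nat_lit 0x0)
  (PL.C (nat_lit 0x1c2ec5db) (nat_lit 0x2d8c75aad0000) (nat_lit 0x0)
  (PL.C (nat_lit 0x1c37d2a6) (nat_lit 0x2c1bd8a67a00) (nat_lit 0x0)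
  (PL.C (nat_lit 0x1c43fa45) (nat_lit 0x0) (nat_lit 0x87eaeefda000)
  (PL.C (nat_lit 0x1c496d82) (nat_lit 0x19e452297ac00) (nat_lit 0x0)
  (PL.C (nat_lit 0x1c5d5bd5) (nat_lit 0x191d061125880) (nat_lit 0x0)
  (PL.C (nat_lit 0x1c6016e4) (nat_lit 0x0) (nat_lit 0x5467f90d600) lm_232))))))))))))))))))))

noncomputable def lm_230 : PL :=
  (PL.C (nat_lit 0x1b061e3e) (nat_lit 0x0) (nat_lit 0xebeede79400)
  (PL.C (nat_lit 0x1b0bb5eb) (nat_lit 0x0) (nat_lit 0x295b3bf24580)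
  (PL.C (nat_lit 0x1b27407d) (nat_lit 0x6008a4e83c00) (nat_lit 0x0)
  (PL.C (nat_lit 0x1b2a252f) (nat_lit 0x0) (nat_lit 0x309b1eb69ba00)
  (PL.C (nat_lit 0x1b34d783) (nat_lit 0x0) (nat_lit 0x2120d8bda00)
  (PL.C (nat_lit 0x1b46d0cd) (nat_lit 0x21baabd7cbc0) (nat_lit 0x0)
  (PL.C (nat_lit 0x1b4d8347) (nat_lit 0x0) (nat_lit 0x1837f0af4c00)
  (PL.C (nat_lit 0x1b50e89a) (nat_lit 0x0) (nat_lit 0x64d5214ba0400)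
  (PL.C (nat_lit 0x1b5e09a9) (nat_lit 0x19b37e852780) (nat_lit 0x0)
  (PL.C (nat_lit 0x1b664d4f) (nat_lit 0x15bbcbaa400) (nat_lit 0x0)
  (PL.C (nat_lit 0x1b694789) (nat_lit 0x0) (nat_lit 0x5afa28917080)
  (PL.C (nat_lit 0x1b6dc787) (nat_lit 0x2ddaf9bd24f80) (nat_lit 0x0)
  (PL.C (nat_lit 0x1b70cc25) (nat_lit 0xe78fd469e00) (nat_lit 0x0)
  (PL.C (nat_lit 0x1b7277a5) (nat_lit 0x1204e5ac9d000) (nat_lit 0x0)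
  (PL.C (nat_lit 0x1b74792a) (nat_lit 0x0) (nat_lit 0x2c1bd8a67a00)
  (PL.C (nat_lit 0x1b8236d6) (nat_lit 0x0) (nat_lit 0x4b3fc491100)
  (PL.C (nat_lit 0x1b82a04a) (nat_lit 0x218e8017400) (nat_lit 0x0)
  (PL.C (nat_lit 0x1b82ed0b) (nat_lit 0x0) (nat_lit 0x1118da3e400)
  (PL.C (nat_lit 0x1b8d1b16) (nat_lit 0x1bc738223600) (nat_lit 0x0)
  (PL.C (nat_lit 0x1b924e37) (nat_lit 0x0) (nat_lit 0x3002dda5abd00) lm_231))))))))))))))))))))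

noncomputable def lm_229 : PL :=
  (PL.C (nat_lit 0x1a360236) (nat_lit 0x2c918b086800) (nat_lit 0x0)
  (PL.C (nat_lit 0x1a3ac74a) (nat_lit 0x0) (nat_lit 0xeae3e4213000)
  (PL.C (nat_lit 0x1a45ec09) (nat_lit 0xc2322a6a0300) (nat_lit 0x0)
  (PL.C (nat_lit 0x1a4d4289) (nat_lit 0xc6bce39d2d00) (nat_lit 0x0)
  (PL.C (nat_lit 0x1a51640e) (nat_lit 0x0) (nat_lit 0x28a5fa0e7b80)
  (PL.C (nat_lit 0x1a70680d) (nat_lit 0x22fb5b154400) (nat_lit 0x0)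
  (PL.C (nat_lit 0x1a7e091d) (nat_lit 0x0) (nat_lit 0x16e15192600)
  (PL.C (nat_lit 0x1a85cb72) (nat_lit 0x0) (nat_lit 0x2c918b086800)
  (PL.C (nat_lit 0x1a8eed0f) (nat_lit 0x7a8cdf46c800) (nat_lit 0x0)
  (PL.C (nat_lit 0x1a950cee) (nat_lit 0x0) (nat_lit 0x173809eebfa80)
  (PL.C (nat_lit 0x1aa50d33) (nat_lit 0x0) (nat_lit 0xbfd751b03400)
  (PL.C (nat_lit 0x1aaaabcb) (nat_lit 0x99ac4613b00) (nat_lit 0x0)
  (PL.C (nat_lit 0x1abbbc57) (nat_lit 0x8de163a8d900) (nat_lit 0x0)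
  (PL.C (nat_lit 0x1acb12b2) (nat_lit 0x0) (nat_lit 0x5d22b7f6400)
  (PL.C (nat_lit 0x1ad9f3d5) (nat_lit 0x17c331e9a00) (nat_lit 0x0)
  (PL.C (nat_lit 0x1adfc4f5) (nat_lit 0x0) (nat_lit 0xda5b8c0ec000)
  (PL.C (nat_lit 0x1ae7642b) (nat_lit 0x84fcfb42400) (nat_lit 0x0)
  (PL.C (nat_lit 0x1af47911) (nat_lit 0x5d2fd79e4580) (nat_lit 0x0)
  (PL.C (nat_lit 0x1af6bffb) (nat_lit 0x1a722799e900) (nat_lit 0x0)
  (PL.C (nat_lit 0x1b0413f5) (nat_lit 0x0) (nat_lit 0x10b927d30d6500) lm_230))))))))))))))))))))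

noncomputable def lm_228 : PL :=
  (PL.C (nat_lit 0x19653952) (nat_lit 0xdbd5ec7000) (nat_lit 0x0)
  (PL.C (nat_lit 0x196aee8d) (nat_lit 0x0) (nat_lit 0x99ac4613b00)
  (PL.C (nat_lit 0x196f1ac3) (nat_lit 0x0) (nat_lit 0x8cc0a0475980)
  (PL.C (nat_lit 0x19737399) (nat_lit 0x38f819608200) (nat_lit 0x0)
  (PL.C (nat_lit 0x197d8d9a) (nat_lit 0x10412490bd00) (nat_lit 0x0)
  (PL.C (nat_lit 0x199701a3) (nat_lit 0x0) (nat_lit 0x88aabd0b22dc0)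
  (PL.C (nat_lit 0x19acb4da) (nat_lit 0x0) (nat_lit 0x49dffdb3a700)
  (PL.C (nat_lit 0x19b54ff2) (nat_lit 0xd81d3c3d180) (nat_lit 0x0)
  (PL.C (nat_lit 0x19b852db) (nat_lit 0x5d2fd79e4580) (nat_lit 0x0)
  (PL.C (nat_lit 0x19c062cf) (nat_lit 0x0) (nat_lit 0xe8423b5d8c00)
  (PL.C (nat_lit 0x19c78742) (nat_lit 0x2c4f7efb780) (nat_lit 0x0)
  (PL.C (nat_lit 0x19e413ba) (nat_lit 0x0) (nat_lit 0x347a21a84ba00)
  (PL.C (nat_lit 0x19e8808e) (nat_lit 0x0) (nat_lit 0xd6c181b3000)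
  (PL.C (nat_lit 0x19e974dd) (nat_lit 0x56cc68965600) (nat_lit 0x0)
  (PL.C (nat_lit 0x1a017806) (nat_lit 0x0) (nat_lit 0xeae3e4213000)
  (PL.C (nat_lit 0x1a05c94a) (nat_lit 0x64ef5357100) (nat_lit 0x0)
  (PL.C (nat_lit 0x1a0c8635) (nat_lit 0x140b4b12d080) (nat_lit 0x0)
  (PL.C (nat_lit 0x1a0edfe6) (nat_lit 0x0) (nat_lit 0x173809eebfa80)
  (PL.C (nat_lit 0x1a17e362) (nat_lit 0x0) (nat_lit 0x7e1b1bec6d00)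
  (PL.C (nat_lit 0x1a312b67) (nat_lit 0x164a737490900) (nat_lit 0x0) lm_229))))))))))))))))))))

noncomputable def lm_227 : PL :=
  (PL.C (nat_lit 0x18cf3b21) (nat_lit 0x1217d62372380) (nat_lit 0x0)
  (PL.C (nat_lit 0x18d4e7ad) (nat_lit 0x547adcd6500) (nat_lit 0x0)
  (PL.C (nat_lit 0x18d83b3a) (nat_lit 0x0) (nat_lit 0x17c81438ba00)
  (PL.C (nat_lit 0x18eb6c29) (nat_lit 0x3d07b0f29000) (nat_lit 0x0)
  (PL.C (nat_lit 0x18eca3c1) (nat_lit 0x13b5ad4dfe1000) (nat_lit 0x0)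
  (PL.C (nat_lit 0x18f27d77) (nat_lit 0x0) (nat_lit 0x57bd80f5600)
  (PL.C (nat_lit 0x18ff59a7) (nat_lit 0x295f86485800) (nat_lit 0x0)
  (PL.C (nat_lit 0x190d1729) (nat_lit 0x0) (nat_lit 0x106c557eca080)
  (PL.C (nat_lit 0x190efb76) (nat_lit 0x1652240e53800) (nat_lit 0x0)
  (PL.C (nat_lit 0x190f499d) (nat_lit 0x1118da3e400) (nat_lit 0x0)
  (PL.C (nat_lit 0x1918e2ff) (nat_lit 0x1b2abe94d000) (nat_lit 0x0)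
  (PL.C (nat_lit 0x1919a0d7) (nat_lit 0x0) (nat_lit 0x39d6706d9d740)
  (PL.C (nat_lit 0x191be656) (nat_lit 0xdbd5ec7000) (nat_lit 0x0)
  (PL.C (nat_lit 0x192db4d1) (nat_lit 0x324c366cc00) (nat_lit 0x0)
  (PL.C (nat_lit 0x192ea4be) (nat_lit 0x0) (nat_lit 0x547cc07ad00)
  (PL.C (nat_lit 0x1931acb3) (nat_lit 0x4403e2acb500) (nat_lit 0x0)
  (PL.C (nat_lit 0x19412fa3) (nat_lit 0x0) (nat_lit 0x15bbcbaa400)
  (PL.C (nat_lit 0x1946345a) (nat_lit 0x0) (nat_lit 0x17c81438ba00)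
  (PL.C (nat_lit 0x194fc923) (nat_lit 0x7c288a055f80) (nat_lit 0x0)
  (PL.C (nat_lit 0x1950f131) (nat_lit 0x0) (nat_lit 0x6c3cbfe027800) lm_228))))))))))))))))))))

noncomputable def lm_226 : PL :=
  (PL.C (nat_lit 0x17f9be85) (nat_lit 0x0) (nat_lit 0xeff61fadf740)
  (PL.C (nat_lit 0x1805b113) (nat_lit 0x0) (nat_lit 0x57e61bdb2000)
  (PL.C (nat_lit 0x1811b6ed) (nat_lit 0x1c672f71db00) (nat_lit 0x0)
  (PL.C (nat_lit 0x18278a69) (nat_lit 0x0) (nat_lit 0x1837f0af4c00)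
  (PL.C (nat_lit 0x1839d52e) (nat_lit 0x0) (nat_lit 0xf60d958ea00)
  (PL.C (nat_lit 0x1841f3f6) (nat_lit 0x28a5fa0e7b80) (nat_lit 0x0)
  (PL.C (nat_lit 0x1841f585) (nat_lit 0x0) (nat_lit 0x6622bce1dd00)
  (PL.C (nat_lit 0x184c66dd) (nat_lit 0x2c0d2540ca00) (nat_lit 0x0)
  (PL.C (nat_lit 0x18768f7f) (nat_lit 0xaa30a09a800) (nat_lit 0x0)
  (PL.C (nat_lit 0x188428a1) (nat_lit 0x0) (nat_lit 0x2814c1a1b000)
  (PL.C (nat_lit 0x1886fdaa) (nat_lit 0xb2f8007c000) (nat_lit 0x0)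
  (PL.C (nat_lit 0x1889f171) (nat_lit 0x0) (nat_lit 0x2ef2e65e54680)
  (PL.C (nat_lit 0x188c041b) (nat_lit 0x10231e42e400) (nat_lit 0x0)
  (PL.C (nat_lit 0x1890cbf1) (nat_lit 0x17c331e9a00) (nat_lit 0x0)
  (PL.C (nat_lit 0x18943e6f) (nat_lit 0x0) (nat_lit 0x99ac4613b00)
  (PL.C (nat_lit 0x18a0756b) (nat_lit 0x0) (nat_lit 0x3f906229e000)
  (PL.C (nat_lit 0x18a9e459) (nat_lit 0x3ed357e44800) (nat_lit 0x0)
  (PL.C (nat_lit 0x18b4f99f) (nat_lit 0x0) (nat_lit 0x64986cd9800)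
  (PL.C (nat_lit 0x18ba2f97) (nat_lit 0x0) (nat_lit 0x11875d925400)
  (PL.C (nat_lit 0x18c88053) (nat_lit 0x0) (nat_lit 0xe8423b5d8c00) lm_227))))))))))))))))))))

noncomputable def lm_225 : PL :=
  (PL.C (nat_lit 0x172df163) (nat_lit 0x8266c5fd800) (nat_lit 0x0)
  (PL.C (nat_lit 0x173912f2) (nat_lit 0x5d22b7f6400) (nat_lit 0x0)
  (PL.C (nat_lit 0x1740dbaa) (nat_lit 0xe784f555200) (nat_lit 0x0)
  (PL.C (nat_lit 0x17464f53) (nat_lit 0x0) (nat_lit 0x137c8c9125780)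
  (PL.C (nat_lit 0x174adfd3) (nat_lit 0x15bbcbaa400) (nat_lit 0x0)
  (PL.C (nat_lit 0x1759cbf6) (nat_lit 0x2c1bd8a67a00) (nat_lit 0x0)
  (PL.C (nat_lit 0x175a1ff7) (nat_lit 0xbdeacf880d880) (nat_lit 0x0)
  (PL.C (nat_lit 0x1778874f) (nat_lit 0x0) (nat_lit 0x16b512cf7f00)
  (PL.C (nat_lit 0x177999d5) (nat_lit 0x8cff91ab0f400) (nat_lit 0x0)
  (PL.C (nat_lit 0x179a055a) (nat_lit 0x0) (nat_lit 0x41b74eea9100)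
  (PL.C (nat_lit 0x17b543de) (nat_lit 0x0) (nat_lit 0x4839abf21200)
  (PL.C (nat_lit 0x17ba91cf) (nat_lit 0x0) (nat_lit 0x35f1b3cfa7a80)
  (PL.C (nat_lit 0x17ca6487) (nat_lit 0xb06fdc97e300) (nat_lit 0x0)
  (PL.C (nat_lit 0x17cb1bb1) (nat_lit 0x0) (nat_lit 0x536553c35eb80)
  (PL.C (nat_lit 0x17ce0856) (nat_lit 0x0) (nat_lit 0x56342ba1eb80)
  (PL.C (nat_lit 0x17ceb102) (nat_lit 0xa9291662f00) (nat_lit 0x0)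
  (PL.C (nat_lit 0x17d7cf96) (nat_lit 0x4b3fc491100) (nat_lit 0x0)
  (PL.C (nat_lit 0x17e7900a) (nat_lit 0x0) (nat_lit 0x1bd441c29580)
  (PL.C (nat_lit 0x17e7e609) (nat_lit 0x2b13dd3da45c0) (nat_lit 0x0)
  (PL.C (nat_lit 0x17f1b7e9) (nat_lit 0x2ddaf9bd24f80) (nat_lit 0x0) lm_226))))))))))))))))))))

noncomputable def lm_224 : PL :=
  (PL.C (nat_lit 0x16912df3) (nat_lit 0xe9129cb04f6c0) (nat_lit 0x0)
  (PL.C (nat_lit 0x16a19bce) (nat_lit 0x3a77f48d0da00) (nat_lit 0x0)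
  (PL.C (nat_lit 0x16aaafe9) (nat_lit 0xb6db73c50200) (nat_lit 0x0)
  (PL.C (nat_lit 0x16b60817) (nat_lit 0x0) (nat_lit 0xa6785a41400)
  (PL.C (nat_lit 0x16ba7465) (nat_lit 0x7cd165eb6a00) (nat_lit 0x0)
  (PL.C (nat_lit 0x16c11315) (nat_lit 0x1a5783214e780) (nat_lit 0x0)
  (PL.C (nat_lit 0x16c2ff27) (nat_lit 0x1a722799e900) (nat_lit 0x0)
  (PL.C (nat_lit 0x16caa04b) (nat_lit 0x11875d925400) (nat_lit 0x0)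
  (PL.C (nat_lit 0x16d4b0d7) (nat_lit 0x158457fe1a280) (nat_lit 0x0)
  (PL.C (nat_lit 0x16dd5067) (nat_lit 0xc6983efc4200) (nat_lit 0x0)
  (PL.C (nat_lit 0x16ec8ab3) (nat_lit 0x0) (nat_lit 0xa6785a41400)
  (PL.C (nat_lit 0x16f5f553) (nat_lit 0x0) (nat_lit 0x2c7e7297000)
  (PL.C (nat_lit 0x16fb153f) (nat_lit 0x0) (nat_lit 0xc930d9b3000)
  (PL.C (nat_lit 0x17059ad6) (nat_lit 0x17c81438ba00) (nat_lit 0x0)
  (PL.C (nat_lit 0x17152fed) (nat_lit 0x0) (nat_lit 0x35e7f723400)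
  (PL.C (nat_lit 0x171a300d) (nat_lit 0x0) (nat_lit 0x1171998d16680)
  (PL.C (nat_lit 0x1723ad6d) (nat_lit 0x2120d8bda00) (nat_lit 0x0)
  (PL.C (nat_lit 0x172779e3) (nat_lit 0x191d061125880) (nat_lit 0x0)
  (PL.C (nat_lit 0x172b6ef9) (nat_lit 0x1204e5ac9d000) (nat_lit 0x0)
  (PL.C (nat_lit 0x172bfc49) (nat_lit 0x0) (nat_lit 0x1ace2fc96180) lm_225))))))))))))))))))))

noncomputable def lm_223 : PL :=
  (PL.C (nat_lit 0x15ff41fe) (nat_lit 0x0) (nat_lit 0x13487b1166980)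
  (PL.C (nat_lit 0x160448f2) (nat_lit 0x378bde0a900) (nat_lit 0x0)
  (PL.C (nat_lit 0x1606a186) (nat_lit 0x0) (nat_lit 0xc014e1918000)
  (PL.C (nat_lit 0x16101e55) (nat_lit 0x8cff91ab0f400) (nat_lit 0x0)
  (PL.C (nat_lit 0x161b7de5) (nat_lit 0xb06fdc97e300) (nat_lit 0x0)
  (PL.C (nat_lit 0x161c3543) (nat_lit 0x55399e1b5c100) (nat_lit 0x0)
  (PL.C (nat_lit 0x16299627) (nat_lit 0x0) (nat_lit 0x106c557eca080)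
  (PL.C (nat_lit 0x162b756d) (nat_lit 0xe50904e40a00) (nat_lit 0x0)
  (PL.C (nat_lit 0x1632136d) (nat_lit 0x0) (nat_lit 0x53bacd29dbd80)
  (PL.C (nat_lit 0x1640bd43) (nat_lit 0x0) (nat_lit 0x137c8c9125780)
  (PL.C (nat_lit 0x16418204) (nat_lit 0xd2ce3da13900) (nat_lit 0x0)
  (PL.C (nat_lit 0x164670ff) (nat_lit 0x3440f6bc49700) (nat_lit 0x0)
  (PL.C (nat_lit 0x16519701) (nat_lit 0x0) (nat_lit 0x3981c0b02e00)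
  (PL.C (nat_lit 0x165b1656) (nat_lit 0xc680f49e8900) (nat_lit 0x0)
  (PL.C (nat_lit 0x165c986c) (nat_lit 0xf741b1463800) (nat_lit 0x0)
  (PL.C (nat_lit 0x165d1851) (nat_lit 0x412be7103c00) (nat_lit 0x0)
  (PL.C (nat_lit 0x1664974d) (nat_lit 0x37cb46c6a400) (nat_lit 0x0)
  (PL.C (nat_lit 0x1674e4b2) (nat_lit 0x673b7028f9e80) (nat_lit 0x0)
  (PL.C (nat_lit 0x1682c637) (nat_lit 0x0) (nat_lit 0x216164d49e00)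
  (PL.C (nat_lit 0x168c5a7a) (nat_lit 0xb2860ec57780) (nat_lit 0x0) lm_224))))))))))))))))))))

noncomputable def lm_222 : PL :=
  (PL.C (nat_lit 0x155df2ef) (nat_lit 0x37cb46c6a400) (nat_lit 0x0)
  (PL.C (nat_lit 0x156c10a1) (nat_lit 0x3cc35aa1c340) (nat_lit 0x0)
  (PL.C (nat_lit 0x156ccf6a) (nat_lit 0x0) (nat_lit 0x347a21a84ba00)
  (PL.C (nat_lit 0x1571b4e6) (nat_lit 0x4868a8d51700) (nat_lit 0x0)
  (PL.C (nat_lit 0x1578630f) (nat_lit 0x1c4c555dc9700) (nat_lit 0x0)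
  (PL.C (nat_lit 0x1588b47a) (nat_lit 0x17c81438ba00) (nat_lit 0x0)
  (PL.C (nat_lit 0x1588c646) (nat_lit 0x378bde0a900) (nat_lit 0x0)
  (PL.C (nat_lit 0x158aa246) (nat_lit 0x0) (nat_lit 0x51b4d9da1800)
  (PL.C (nat_lit 0x159ab6ee) (nat_lit 0x712cf833400) (nat_lit 0x0)
  (PL.C (nat_lit 0x15a38002) (nat_lit 0x0) (nat_lit 0xfd62701b000)
  (PL.C (nat_lit 0x15a40541) (nat_lit 0x0) (nat_lit 0x1118da3e400)
  (PL.C (nat_lit 0x15b3a73a) (nat_lit 0xe784f555200) (nat_lit 0x0)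
  (PL.C (nat_lit 0x15ba1b0a) (nat_lit 0x2ccf27cf7600) (nat_lit 0x0)
  (PL.C (nat_lit 0x15ba7407) (nat_lit 0x4c5a8a872400) (nat_lit 0x0)
  (PL.C (nat_lit 0x15bcc4bd) (nat_lit 0x0) (nat_lit 0x73c8102da400)
  (PL.C (nat_lit 0x15bd004b) (nat_lit 0x0) (nat_lit 0x1804ea78ef900)
  (PL.C (nat_lit 0x15c307ca) (nat_lit 0x0) (nat_lit 0x29d7f5f31500)
  (PL.C (nat_lit 0x15ca5322) (nat_lit 0x712cf833400) (nat_lit 0x0)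
  (PL.C (nat_lit 0x15d3b5f7) (nat_lit 0x21baabd7cbc0) (nat_lit 0x0)
  (PL.C (nat_lit 0x15dd43eb) (nat_lit 0xca8e449c9800) (nat_lit 0x0) lm_223))))))))))))))))))))

noncomputable def lm_221 : PL :=
  (PL.C (nat_lit 0x14dd3e02) (nat_lit 0x0) (nat_lit 0x3f0d8df63680)
  (PL.C (nat_lit 0x14e97265) (nat_lit 0x63ac174f61780) (nat_lit 0x0)
  (PL.C (nat_lit 0x14ed055f) (nat_lit 0x0) (nat_lit 0x64ed78c6c800)
  (PL.C (nat_lit 0x14f96882) (nat_lit 0x492cfb647f00) (nat_lit 0x0)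
  (PL.C (nat_lit 0x1504ac6d) (nat_lit 0x14e139616000) (nat_lit 0x0)
  (PL.C (nat_lit 0x1506246b) (nat_lit 0x178f1614da2c0) (nat_lit 0x0)
  (PL.C (nat_lit 0x150ae1ba) (nat_lit 0x0) (nat_lit 0x9248a688be00)
  (PL.C (nat_lit 0x15134b59) (nat_lit 0x0) (nat_lit 0x16efca98b400)
  (PL.C (nat_lit 0x15196ec9) (nat_lit 0x0) (nat_lit 0x286ee0889100)
  (PL.C (nat_lit 0x151a0c83) (nat_lit 0x2e5a896e46c00) (nat_lit 0x0)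
  (PL.C (nat_lit 0x15211f37) (nat_lit 0xa6785a41400) (nat_lit 0x0)
  (PL.C (nat_lit 0x15232bfe) (nat_lit 0x0) (nat_lit 0x8efc4d782c00)
  (PL.C (nat_lit 0x152b9f53) (nat_lit 0x0) (nat_lit 0x3cc35aa1c340)
  (PL.C (nat_lit 0x1532262e) (nat_lit 0x1b5f6743800) (nat_lit 0x0)
  (PL.C (nat_lit 0x1533bb51) (nat_lit 0x6c9f68fe5fc80) (nat_lit 0x0)
  (PL.C (nat_lit 0x153940f6) (nat_lit 0x0) (nat_lit 0x930cf9182600)
  (PL.C (nat_lit 0x1541bd1f) (nat_lit 0x0) (nat_lit 0x764af1c6e00)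
  (PL.C (nat_lit 0x1545762a) (nat_lit 0x0) (nat_lit 0x1d1881cdece80)
  (PL.C (nat_lit 0x154918de) (nat_lit 0x0) (nat_lit 0x13ce78ec9000)
  (PL.C (nat_lit 0x15524409) (nat_lit 0x0) (nat_lit 0x4c5a8a872400) lm_222))))))))))))))))))))

noncomputable def lm_220 : PL :=
  (PL.C (nat_lit 0x1447c3e3) (nat_lit 0x0) (nat_lit 0xd59226080)
  (PL.C (nat_lit 0x144fed6a) (nat_lit 0xaeed346b2800) (nat_lit 0x0)
  (PL.C (nat_lit 0x1454b1f1) (nat_lit 0x0) (nat_lit 0x87eaeefda000)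
  (PL.C (nat_lit 0x145c7b9b) (nat_lit 0x0) (nat_lit 0x2d6a259efe00)
  (PL.C (nat_lit 0x1465b636) (nat_lit 0xaf8fbda7c180) (nat_lit 0x0)
  (PL.C (nat_lit 0x1465ff97) (nat_lit 0xa81067b3c41c0) (nat_lit 0x0)
  (PL.C (nat_lit 0x1468ea54) (nat_lit 0x0) (nat_lit 0x5467f90d600)
  (PL.C (nat_lit 0x1469ef35) (nat_lit 0x0) (nat_lit 0x5eaf9cd9d00)
  (PL.C (nat_lit 0x147a2c59) (nat_lit 0x469e2165b2500) (nat_lit 0x0)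
  (PL.C (nat_lit 0x1482fd11) (nat_lit 0x0) (nat_lit 0x1591ffa75e80)
  (PL.C (nat_lit 0x148cad3a) (nat_lit 0x0) (nat_lit 0x1861b6d91b80)
  (PL.C (nat_lit 0x1494d581) (nat_lit 0x393c73f3bf180) (nat_lit 0x0)
  (PL.C (nat_lit 0x149f227f) (nat_lit 0x64d394341bc0) (nat_lit 0x0)
  (PL.C (nat_lit 0x14a693bb) (nat_lit 0xe8ef963adda00) (nat_lit 0x0)
  (PL.C (nat_lit 0x14bb630a) (nat_lit 0x0) (nat_lit 0xd6c181b3000)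
  (PL.C (nat_lit 0x14bcb975) (nat_lit 0xb6db73c50200) (nat_lit 0x0)
  (PL.C (nat_lit 0x14bfa26b) (nat_lit 0x216164d49e00) (nat_lit 0x0)
  (PL.C (nat_lit 0x14c3ace1) (nat_lit 0x0) (nat_lit 0x2613ebd98800)
  (PL.C (nat_lit 0x14cc9449) (nat_lit 0x0) (nat_lit 0x4228e84d8700)
  (PL.C (nat_lit 0x14d2d1fe) (nat_lit 0xa9291662f00) (nat_lit 0x0) lm_221))))))))))))))))))))

noncomputable def lm_219 : PL :=
  (PL.C (nat_lit 0x13b96d92) (nat_lit 0xaf8fbda7c180) (nat_lit 0x0)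
  (PL.C (nat_lit 0x13bccc96) (nat_lit 0x8afac3046c00) (nat_lit 0x0)
  (PL.C (nat_lit 0x13c54d0d) (nat_lit 0x3d07b0f29000) (nat_lit 0x0)
  (PL.C (nat_lit 0x13ca6ea6) (nat_lit 0x0) (nat_lit 0x2ccf27cf7600)
  (PL.C (nat_lit 0x13cf7e1d) (nat_lit 0x0) (nat_lit 0x15bbcbaa400)
  (PL.C (nat_lit 0x13ec6842) (nat_lit 0x0) (nat_lit 0xcb718648f80)
  (PL.C (nat_lit 0x13f0decb) (nat_lit 0x0) (nat_lit 0x64986cd9800)
  (PL.C (nat_lit 0x13f1d6da) (nat_lit 0xfd62701b000) (nat_lit 0x0)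
  (PL.C (nat_lit 0x140367d6) (nat_lit 0x0) (nat_lit 0x7e8dd297200)
  (PL.C (nat_lit 0x140bcfcb) (nat_lit 0x0) (nat_lit 0x388c5183f7a00)
  (PL.C (nat_lit 0x14111c25) (nat_lit 0x0) (nat_lit 0x5eaf9cd9d00)
  (PL.C (nat_lit 0x1412cec6) (nat_lit 0x41b74eea9100) (nat_lit 0x0)
  (PL.C (nat_lit 0x1415d835) (nat_lit 0x814b13f4b6d80) (nat_lit 0x0)
  (PL.C (nat_lit 0x1418502e) (nat_lit 0xa790bde00380) (nat_lit 0x0)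
  (PL.C (nat_lit 0x1425e943) (nat_lit 0x0) (nat_lit 0x3f906229e000)
  (PL.C (nat_lit 0x14284617) (nat_lit 0x0) (nat_lit 0x117885a1a9000)
  (PL.C (nat_lit 0x142e25ed) (nat_lit 0x0) (nat_lit 0x5e823616ac580)
  (PL.C (nat_lit 0x142ffebd) (nat_lit 0x0) (nat_lit 0xea383ae0d00)
  (PL.C (nat_lit 0x143c524c) (nat_lit 0x0) (nat_lit 0x12bd07601400)
  (PL.C (nat_lit 0x143d54f3) (nat_lit 0x3ced94aeb000) (nat_lit 0x0) lm_220))))))))))))))))))))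

noncomputable def lm_218 : PL :=
  (PL.C (nat_lit 0x133aa2a9) (nat_lit 0x19e73fde6800) (nat_lit 0x0)
  (PL.C (nat_lit 0x133d71c6) (nat_lit 0x8471f6c2bb80) (nat_lit 0x0)
  (PL.C (nat_lit 0x1345d473) (nat_lit 0x1bbba08326c00) (nat_lit 0x0)
  (PL.C (nat_lit 0x1349564d) (nat_lit 0x0) (nat_lit 0x2cd48f6b900)
  (PL.C (nat_lit 0x1358c9ca) (nat_lit 0x0) (nat_lit 0x1bd441c29580)
  (PL.C (nat_lit 0x1359f6bf) (nat_lit 0x84fcfb42400) (nat_lit 0x0)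
  (PL.C (nat_lit 0x1362c2ea) (nat_lit 0x0) (nat_lit 0xf60d958ea00)
  (PL.C (nat_lit 0x137c4661) (nat_lit 0x0) (nat_lit 0x5faef044f800)
  (PL.C (nat_lit 0x137eb6b7) (nat_lit 0x0) (nat_lit 0x1e79eb2e21280)
  (PL.C (nat_lit 0x13807f01) (nat_lit 0x0) (nat_lit 0x1bd281d4b9200)
  (PL.C (nat_lit 0x138bb6af) (nat_lit 0x4d93133c2500) (nat_lit 0x0)
  (PL.C (nat_lit 0x138f852d) (nat_lit 0x0) (nat_lit 0x20335b7370680)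
  (PL.C (nat_lit 0x13912c2f) (nat_lit 0x0) (nat_lit 0x1d28c2513800)
  (PL.C (nat_lit 0x1392877a) (nat_lit 0x0) (nat_lit 0xb4fc6f371880)
  (PL.C (nat_lit 0x1397bb33) (nat_lit 0x764af1c6e00) (nat_lit 0x0)
  (PL.C (nat_lit 0x13a123d2) (nat_lit 0xd81d3c3d180) (nat_lit 0x0)
  (PL.C (nat_lit 0x13a78526) (nat_lit 0x0) (nat_lit 0x6902df30ac00)
  (PL.C (nat_lit 0x13a9985f) (nat_lit 0x0) (nat_lit 0x1b2178b1f800)
  (PL.C (nat_lit 0x13b4e231) (nat_lit 0x324c366cc00) (nat_lit 0x0)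
  (PL.C (nat_lit 0x13b67813) (nat_lit 0x0) (nat_lit 0xa2e2252016740) lm_219))))))))))))))))))))

noncomputable def lm_217 : PL :=
  (PL.C (nat_lit 0x12c8ef8f) (nat_lit 0x0) (nat_lit 0x3002dda5abd00)
  (PL.C (nat_lit 0x12cfe1c4) (nat_lit 0x5467f90d600) (nat_lit 0x0)
  (PL.C (nat_lit 0x12d7fc2e) (nat_lit 0x0) (nat_lit 0x6902df30ac00)
  (PL.C (nat_lit 0x12e0df55) (nat_lit 0x0) (nat_lit 0xfa7bd6d1e00)
  (PL.C (nat_lit 0x12e164a7) (nat_lit 0x0) (nat_lit 0x2814c1a1b000)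
  (PL.C (nat_lit 0x12e73341) (nat_lit 0x7c288a055f80) (nat_lit 0x0)
  (PL.C (nat_lit 0x12f7666d) (nat_lit 0x17d0341a30800) (nat_lit 0x0)
  (PL.C (nat_lit 0x12f8adfa) (nat_lit 0x0) (nat_lit 0x7e8dd297200)
  (PL.C (nat_lit 0x12fcec9d) (nat_lit 0x0) (nat_lit 0x35f1b3cfa7a80)
  (PL.C (nat_lit 0x130cd6ff) (nat_lit 0x8de163a8d900) (nat_lit 0x0)
  (PL.C (nat_lit 0x130d06a6) (nat_lit 0x64ef5357100) (nat_lit 0x0)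
  (PL.C (nat_lit 0x130d4b2f) (nat_lit 0x0) (nat_lit 0x11879072af5a00)
  (PL.C (nat_lit 0x1315a565) (nat_lit 0x0) (nat_lit 0x286ee0889100)
  (PL.C (nat_lit 0x131e7486) (nat_lit 0x0) (nat_lit 0x8efc4d782c00)
  (PL.C (nat_lit 0x131f329b) (nat_lit 0x6fa44c17fc40) (nat_lit 0x0)
  (PL.C (nat_lit 0x1321326b) (nat_lit 0x0) (nat_lit 0x98c883927a40)
  (PL.C (nat_lit 0x13225f4d) (nat_lit 0x17c331e9a00) (nat_lit 0x0)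
  (PL.C (nat_lit 0x13261947) (nat_lit 0x18741099600) (nat_lit 0x0)
  (PL.C (nat_lit 0x13290e0b) (nat_lit 0x0) (nat_lit 0x1856af23e7e00)
  (PL.C (nat_lit 0x132faeb9) (nat_lit 0xa4d3cfee00) (nat_lit 0x0) lm_218))))))))))))))))))))

noncomputable def lm_216 : PL :=
  (PL.C (nat_lit 0x124da61c) (nat_lit 0x0) (nat_lit 0x5467f90d600)
  (PL.C (nat_lit 0x12543181) (nat_lit 0x0) (nat_lit 0x1bd281d4b9200)
  (PL.C (nat_lit 0x125748b2) (nat_lit 0x0) (nat_lit 0xf60d958ea00)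
  (PL.C (nat_lit 0x1261897a) (nat_lit 0x0) (nat_lit 0x83809e13a8880)
  (PL.C (nat_lit 0x1263b1ed) (nat_lit 0x0) (nat_lit 0x117885a1a9000)
  (PL.C (nat_lit 0x126ce613) (nat_lit 0x0) (nat_lit 0x2fa5ba43e100)
  (PL.C (nat_lit 0x1274f6d7) (nat_lit 0x15b4c4532580) (nat_lit 0x0)
  (PL.C (nat_lit 0x1275fc04) (nat_lit 0x0) (nat_lit 0x12bd07601400)
  (PL.C (nat_lit 0x1276c13e) (nat_lit 0x1805f83926300) (nat_lit 0x0)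
  (PL.C (nat_lit 0x128a0b36) (nat_lit 0x0) (nat_lit 0xef594d71c7300)
  (PL.C (nat_lit 0x1297e21e) (nat_lit 0x0) (nat_lit 0xc014e1918000)
  (PL.C (nat_lit 0x12983823) (nat_lit 0x5eaf9cd9d00) (nat_lit 0x0)
  (PL.C (nat_lit 0x129fe469) (nat_lit 0x0) (nat_lit 0x7411b3e511c00)
  (PL.C (nat_lit 0x12a97e39) (nat_lit 0x2d8c75aad0000) (nat_lit 0x0)
  (PL.C (nat_lit 0x12adc20f) (nat_lit 0x1bbba08326c00) (nat_lit 0x0)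
  (PL.C (nat_lit 0x12afbf95) (nat_lit 0x0) (nat_lit 0x26e138df76500)
  (PL.C (nat_lit 0x12b82411) (nat_lit 0x0) (nat_lit 0x11875d925400)
  (PL.C (nat_lit 0x12bd3e9d) (nat_lit 0x87eaeefda000) (nat_lit 0x0)
  (PL.C (nat_lit 0x12c1ca61) (nat_lit 0x1118da3e400) (nat_lit 0x0)
  (PL.C (nat_lit 0x12c3787f) (nat_lit 0x4e48c33da180) (nat_lit 0x0) lm_217))))))))))))))))))))

noncomputable def lm_215 : PL :=
  (PL.C (nat_lit 0x11c71d32) (nat_lit 0x0) (nat_lit 0xcb718648f80)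
  (PL.C (nat_lit 0x11d02bcf) (nat_lit 0x295f86485800) (nat_lit 0x0)
  (PL.C (nat_lit 0x11d62453) (nat_lit 0x0) (nat_lit 0x84fcfb42400)
  (PL.C (nat_lit 0x11d99d99) (nat_lit 0x61cd147e200) (nat_lit 0x0)
  (PL.C (nat_lit 0x11e6a28e) (nat_lit 0x0) (nat_lit 0x699e1f10500)
  (PL.C (nat_lit 0x11ea834e) (nat_lit 0x0) (nat_lit 0x9248a688be00)
  (PL.C (nat_lit 0x11f850b6) (nat_lit 0x30d3e36012c80) (nat_lit 0x0)
  (PL.C (nat_lit 0x11f9d552) (nat_lit 0x272b4925c100) (nat_lit 0x0)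
  (PL.C (nat_lit 0x11fa15fd) (nat_lit 0x0) (nat_lit 0x7a3076ef1980)
  (PL.C (nat_lit 0x1213c0b3) (nat_lit 0x20ed66cad1d00) (nat_lit 0x0)
  (PL.C (nat_lit 0x121a2afe) (nat_lit 0x492cfb647f00) (nat_lit 0x0)
  (PL.C (nat_lit 0x121c18ca) (nat_lit 0x47fc643a0a400) (nat_lit 0x0)
  (PL.C (nat_lit 0x12235641) (nat_lit 0x1d978a8aa8100) (nat_lit 0x0)
  (PL.C (nat_lit 0x1223e5c3) (nat_lit 0xc6983efc4200) (nat_lit 0x0)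
  (PL.C (nat_lit 0x122f35de) (nat_lit 0x0) (nat_lit 0x6f17e17ffb80)
  (PL.C (nat_lit 0x1233acda) (nat_lit 0x0) (nat_lit 0x34a31107f600)
  (PL.C (nat_lit 0x123b83fb) (nat_lit 0x0) (nat_lit 0x87eaeefda000)
  (PL.C (nat_lit 0x1244338a) (nat_lit 0x0) (nat_lit 0x431d002e800)
  (PL.C (nat_lit 0x1244a405) (nat_lit 0x10231e42e400) (nat_lit 0x0)
  (PL.C (nat_lit 0x124773ff) (nat_lit 0x0) (nat_lit 0x8a97f44f56980) lm_216))))))))))))))))))))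

noncomputable def lm_214 : PL :=
  (PL.C (nat_lit 0x115daece) (nat_lit 0x830e1c75f00) (nat_lit 0x0)
  (PL.C (nat_lit 0x116491c5) (nat_lit 0x5eaf9cd9d00) (nat_lit 0x0)
  (PL.C (nat_lit 0x1166209b) (nat_lit 0x0) (nat_lit 0x117865bf8d00)
  (PL.C (nat_lit 0x116b31eb) (nat_lit 0xc7223552e300) (nat_lit 0x0)
  (PL.C (nat_lit 0x116eb1e7) (nat_lit 0xe8ef963adda00) (nat_lit 0x0)
  (PL.C (nat_lit 0x117a3629) (nat_lit 0x1597487d0d80) (nat_lit 0x0)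
  (PL.C (nat_lit 0x117c84dc) (nat_lit 0xb9fd702ab700) (nat_lit 0x0)
  (PL.C (nat_lit 0x1180e803) (nat_lit 0xa4d3cfee00) (nat_lit 0x0)
  (PL.C (nat_lit 0x11816409) (nat_lit 0x17c331e9a00) (nat_lit 0x0)
  (PL.C (nat_lit 0x11874225) (nat_lit 0x1e1509893f00) (nat_lit 0x0)
  (PL.C (nat_lit 0x1188d706) (nat_lit 0x0) (nat_lit 0x10a1961399b00)
  (PL.C (nat_lit 0x118c784d) (nat_lit 0x8266c5fd800) (nat_lit 0x0)
  (PL.C (nat_lit 0x1193adad) (nat_lit 0x0) (nat_lit 0x57bd80f5600)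
  (PL.C (nat_lit 0x11a0455e) (nat_lit 0xa790bde00380) (nat_lit 0x0)
  (PL.C (nat_lit 0x11a724b9) (nat_lit 0x0) (nat_lit 0x59e088aabc080)
  (PL.C (nat_lit 0x11aa291b) (nat_lit 0x65d65b3b000) (nat_lit 0x0)
  (PL.C (nat_lit 0x11b15939) (nat_lit 0x0) (nat_lit 0x13c1cd63d48900)
  (PL.C (nat_lit 0x11b49e0a) (nat_lit 0x4868a8d51700) (nat_lit 0x0)
  (PL.C (nat_lit 0x11c35e22) (nat_lit 0x0) (nat_lit 0x930cf9182600)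
  (PL.C (nat_lit 0x11c452d7) (nat_lit 0x1c4c555dc9700) (nat_lit 0x0) lm_215))))))))))))))))))))

noncomputable def lm_213 : PL :=
  (PL.C (nat_lit 0x10fef165) (nat_lit 0x943f1446c200) (nat_lit 0x0)
  (PL.C (nat_lit 0x11128fd7) (nat_lit 0x0) (nat_lit 0x17146537a3d00)
  (PL.C (nat_lit 0x1115d9ff) (nat_lit 0x3ced94aeb000) (nat_lit 0x0)
  (PL.C (nat_lit 0x111919fd) (nat_lit 0x0) (nat_lit 0x3b1eaedd5b00)
  (PL.C (nat_lit 0x111ea8af) (nat_lit 0x0) (nat_lit 0x1591ffa75e80)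
  (PL.C (nat_lit 0x112465b3) (nat_lit 0x2ed87b72740) (nat_lit 0x0)
  (PL.C (nat_lit 0x11258c92) (nat_lit 0x30d3e36012c80) (nat_lit 0x0)
  (PL.C (nat_lit 0x112aec8a) (nat_lit 0x0) (nat_lit 0x9bfaa44c0a00)
  (PL.C (nat_lit 0x112b7053) (nat_lit 0xea383ae0d00) (nat_lit 0x0)
  (PL.C (nat_lit 0x11382e33) (nat_lit 0x0) (nat_lit 0x7ed353667da80)
  (PL.C (nat_lit 0x113b80c9) (nat_lit 0x0) (nat_lit 0x5eaf9cd9d00)
  (PL.C (nat_lit 0x113b8eb3) (nat_lit 0x0) (nat_lit 0x67611dd85f000)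
  (PL.C (nat_lit 0x114522ed) (nat_lit 0xc7223552e300) (nat_lit 0x0)
  (PL.C (nat_lit 0x114800eb) (nat_lit 0x27048bdf000) (nat_lit 0x0)
  (PL.C (nat_lit 0x114e09fd) (nat_lit 0x0) (nat_lit 0x59e088aabc080)
  (PL.C (nat_lit 0x1150a715) (nat_lit 0x0) (nat_lit 0xd59226080)
  (PL.C (nat_lit 0x1151fe6b) (nat_lit 0x0) (nat_lit 0x92c2e1282800)
  (PL.C (nat_lit 0x11565004) (nat_lit 0xb9fd702ab700) (nat_lit 0x0)
  (PL.C (nat_lit 0x115930dc) (nat_lit 0x39ea4247200) (nat_lit 0x0)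
  (PL.C (nat_lit 0x115aa995) (nat_lit 0x84fcfb42400) (nat_lit 0x0) lm_214))))))))))))))))))))

noncomputable def lm_212 : PL :=
  (PL.C (nat_lit 0x1090277c) (nat_lit 0x290eb911cb00) (nat_lit 0x0)
  (PL.C (nat_lit 0x109460a5) (nat_lit 0x8beda8512440) (nat_lit 0x0)
  (PL.C (nat_lit 0x109cf2c6) (nat_lit 0xbeeb03681200) (nat_lit 0x0)
  (PL.C (nat_lit 0x10a1a8fa) (nat_lit 0x0) (nat_lit 0xf3ddf9fd680)
  (PL.C (nat_lit 0x10a4019f) (nat_lit 0x0) (nat_lit 0x26e138df76500)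
  (PL.C (nat_lit 0x10a41ab5) (nat_lit 0x2ebed35e98c00) (nat_lit 0x0)
  (PL.C (nat_lit 0x10b364c6) (nat_lit 0x4d3b821d95100) (nat_lit 0x0)
  (PL.C (nat_lit 0x10b4a7a4) (nat_lit 0x37ccd1debea00) (nat_lit 0x0)
  (PL.C (nat_lit 0x10b4dbbe) (nat_lit 0xf60d958ea00) (nat_lit 0x0)
  (PL.C (nat_lit 0x10b92151) (nat_lit 0x1b2178b1f800) (nat_lit 0x0)
  (PL.C (nat_lit 0x10bebc4d) (nat_lit 0x65d65b3b000) (nat_lit 0x0)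
  (PL.C (nat_lit 0x10c2433f) (nat_lit 0x0) (nat_lit 0x7d601a568a2c0)
  (PL.C (nat_lit 0x10c92336) (nat_lit 0x0) (nat_lit 0xa9291662f00)
  (PL.C (nat_lit 0x10d61fc2) (nat_lit 0x431d002e800) (nat_lit 0x0)
  (PL.C (nat_lit 0x10d9783c) (nat_lit 0x290eb911cb00) (nat_lit 0x0)
  (PL.C (nat_lit 0x10f08579) (nat_lit 0x0) (nat_lit 0x5eaf9cd9d00)
  (PL.C (nat_lit 0x10f0d469) (nat_lit 0x0) (nat_lit 0x17154988d40)
  (PL.C (nat_lit 0x10f1f45e) (nat_lit 0xcb718648f80) (nat_lit 0x0)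
  (PL.C (nat_lit 0x10f4bc82) (nat_lit 0x0) (nat_lit 0x13cbb4abc9b00)
  (PL.C (nat_lit 0x10f7a266) (nat_lit 0x495be57e6f00) (nat_lit 0x0) lm_213))))))))))))))))))))

noncomputable def lm_211 : PL :=
  (PL.C (nat_lit 0x103053c1) (nat_lit 0x0) (nat_lit 0x1ab7383ac140)
  (PL.C (nat_lit 0x10320d5b) (nat_lit 0x0) (nat_lit 0xeff61fadf740)
  (PL.C (nat_lit 0x1032ef3e) (nat_lit 0x5e6e575ce800) (nat_lit 0x0)
  (PL.C (nat_lit 0x103b05af) (nat_lit 0x0) (nat_lit 0x32cf6d684100)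
  (PL.C (nat_lit 0x1052b075) (nat_lit 0x0) (nat_lit 0x5d6fa64756300)
  (PL.C (nat_lit 0x10581b16) (nat_lit 0x0) (nat_lit 0x39e0cf394b00)
  (PL.C (nat_lit 0x105d5812) (nat_lit 0x2ccf27cf7600) (nat_lit 0x0)
  (PL.C (nat_lit 0x105e7a7d) (nat_lit 0x0) (nat_lit 0xf60ffd53580)
  (PL.C (nat_lit 0x106087f6) (nat_lit 0x0) (nat_lit 0x699e1f10500)
  (PL.C (nat_lit 0x1062d44a) (nat_lit 0xcb718648f80) (nat_lit 0x0)
  (PL.C (nat_lit 0x1067f0fd) (nat_lit 0x22c239f9ff880) (nat_lit 0x0)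
  (PL.C (nat_lit 0x106af8f2) (nat_lit 0x0) (nat_lit 0xb89c0e32a100)
  (PL.C (nat_lit 0x10702703) (nat_lit 0x8beda8512440) (nat_lit 0x0)
  (PL.C (nat_lit 0x107142e6) (nat_lit 0x5b0f7d1d1900) (nat_lit 0x0)
  (PL.C (nat_lit 0x1072e1a5) (nat_lit 0xeffb66c4c00) (nat_lit 0x0)
  (PL.C (nat_lit 0x1078a66a) (nat_lit 0x152522cc5e00) (nat_lit 0x0)
  (PL.C (nat_lit 0x10798953) (nat_lit 0x0) (nat_lit 0x14085b11ff400)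
  (PL.C (nat_lit 0x107c1fba) (nat_lit 0x0) (nat_lit 0x1bd441c29580)
  (PL.C (nat_lit 0x108320a1) (nat_lit 0x0) (nat_lit 0x13c1cd63d48900)
  (PL.C (nat_lit 0x1085aae2) (nat_lit 0x0) (nat_lit 0x9bfaa44c0a00) lm_212))))))))))))))))))))

noncomputable def lm_210 : PL :=
  (PL.C (nat_lit 0xfd6e0bb) (nat_lit 0xc0246c1ac9840) (nat_lit 0x0)
  (PL.C (nat_lit 0xfdac451) (nat_lit 0x1e1509893f00) (nat_lit 0x0)
  (PL.C (nat_lit 0xfdf20ac) (nat_lit 0x7b6a843a600) (nat_lit 0x0)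
  (PL.C (nat_lit 0xfdfeb8b) (nat_lit 0x0) (nat_lit 0x4ab631b76d80)
  (PL.C (nat_lit 0xfe2b3af) (nat_lit 0x17ef51115140) (nat_lit 0x0)
  (PL.C (nat_lit 0xfebc53f) (nat_lit 0x11875d925400) (nat_lit 0x0)
  (PL.C (nat_lit 0xfefb55c) (nat_lit 0x0) (nat_lit 0xf0886ad2080)
  (PL.C (nat_lit 0xff50a05) (nat_lit 0x108b0ad27800) (nat_lit 0x0)
  (PL.C (nat_lit 0xffc1e4b) (nat_lit 0x0) (nat_lit 0x8266c5fd800)
  (PL.C (nat_lit 0x1002b6e1) (nat_lit 0x14cc160dd17a00) (nat_lit 0x0)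
  (PL.C (nat_lit 0x1003cb62) (nat_lit 0x0) (nat_lit 0x4839abf21200)
  (PL.C (nat_lit 0x1005b599) (nat_lit 0x36557d29a000) (nat_lit 0x0)
  (PL.C (nat_lit 0x1015322b) (nat_lit 0x22a50e68698000) (nat_lit 0x0)
  (PL.C (nat_lit 0x10178f49) (nat_lit 0x0) (nat_lit 0x1e1f7ca4e200)
  (PL.C (nat_lit 0x101a5c46) (nat_lit 0x0) (nat_lit 0x34a31107f600)
  (PL.C (nat_lit 0x101bf275) (nat_lit 0x0) (nat_lit 0x1597487d0d80)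
  (PL.C (nat_lit 0x10214bf5) (nat_lit 0x0) (nat_lit 0xc930d9b3000)
  (PL.C (nat_lit 0x1025ff57) (nat_lit 0x0) (nat_lit 0x5d1eca32ee5c0)
  (PL.C (nat_lit 0x102a22a3) (nat_lit 0x3d0c05d83f80) (nat_lit 0x0)
  (PL.C (nat_lit 0x102ca177) (nat_lit 0x0) (nat_lit 0x5fb4591d3b80) lm_211))))))))))))))))))))

noncomputable def lm_209 : PL :=
  (PL.C (nat_lit 0xf5911e4) (nat_lit 0x0) (nat_lit 0x290eb911cb00)
  (PL.C (nat_lit 0xf7136bb) (nat_lit 0x0) (nat_lit 0xe7fb0aa63400)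
  (PL.C (nat_lit 0xf73f642) (nat_lit 0x1153bc6b8200) (nat_lit 0x0)
  (PL.C (nat_lit 0xf78f145) (nat_lit 0x0) (nat_lit 0x1171998d16680)
  (PL.C (nat_lit 0xf81c675) (nat_lit 0x87eaeefda000) (nat_lit 0x0)
  (PL.C (nat_lit 0xf8434e2) (nat_lit 0x0) (nat_lit 0x15d512df68740)
  (PL.C (nat_lit 0xf873fe2) (nat_lit 0x0) (nat_lit 0x431d002e800)
  (PL.C (nat_lit 0xf8a3e5b) (nat_lit 0x0) (nat_lit 0x41b4885db000)
  (PL.C (nat_lit 0xf9132a4) (nat_lit 0x5467f90d600) (nat_lit 0x0)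
  (PL.C (nat_lit 0xf97a3f9) (nat_lit 0x0) (nat_lit 0x59451862d2280)
  (PL.C (nat_lit 0xfa5af8a) (nat_lit 0x0) (nat_lit 0x3f0d8df63680)
  (PL.C (nat_lit 0xfa6668e) (nat_lit 0x0) (nat_lit 0x6460a77d0b600)
  (PL.C (nat_lit 0xfb25def) (nat_lit 0x5eaf9cd9d00) (nat_lit 0x0)
  (PL.C (nat_lit 0xfc0f2dd) (nat_lit 0x0) (nat_lit 0x2677866e76b00)
  (PL.C (nat_lit 0xfc48c8b) (nat_lit 0x158457fe1a280) (nat_lit 0x0)
  (PL.C (nat_lit 0xfc63aa9) (nat_lit 0x0) (nat_lit 0xa2e2252016740)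
  (PL.C (nat_lit 0xfcef745) (nat_lit 0x0) (nat_lit 0x10d4fc5fcd00)
  (PL.C (nat_lit 0xfd1b68a) (nat_lit 0xe009e183b85c0) (nat_lit 0x0)
  (PL.C (nat_lit 0xfd575a5) (nat_lit 0x0) (nat_lit 0x10231e42e400)
  (PL.C (nat_lit 0xfd582bb) (nat_lit 0x0) (nat_lit 0x1b2abe94d000) lm_210))))))))))))))))))))

noncomputable def lm_208 : PL :=
  (PL.C (nat_lit 0xed8a045) (nat_lit 0x0) (nat_lit 0x114e0f340a300)
  (PL.C (nat_lit 0xed9a0aa) (nat_lit 0x3eb9f5585a000) (nat_lit 0x0)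
  (PL.C (nat_lit 0xee10f56) (nat_lit 0x0) (nat_lit 0x56342ba1eb80)
  (PL.C (nat_lit 0xee9c377) (nat_lit 0x0) (nat_lit 0xd8c6abc55300)
  (PL.C (nat_lit 0xeef79dd) (nat_lit 0x0) (nat_lit 0x20335b7370680)
  (PL.C (nat_lit 0xef957d3) (nat_lit 0x0) (nat_lit 0x8087e3a39f6c0)
  (PL.C (nat_lit 0xeff7e73) (nat_lit 0x0) (nat_lit 0x8cc0a0475980)
  (PL.C (nat_lit 0xf01d97a) (nat_lit 0x0) (nat_lit 0x41b74eea9100)
  (PL.C (nat_lit 0xf048567) (nat_lit 0x13879d8402780) (nat_lit 0x0)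
  (PL.C (nat_lit 0xf1177bd) (nat_lit 0x56cc68965600) (nat_lit 0x0)
  (PL.C (nat_lit 0xf1c2505) (nat_lit 0x0) (nat_lit 0xe52a04bf680)
  (PL.C (nat_lit 0xf1c7546) (nat_lit 0x162b9e42f100) (nat_lit 0x0)
  (PL.C (nat_lit 0xf2b620e) (nat_lit 0xaeed346b2800) (nat_lit 0x0)
  (PL.C (nat_lit 0xf2caa1a) (nat_lit 0x272b4925c100) (nat_lit 0x0)
  (PL.C (nat_lit 0xf2ce0b1) (nat_lit 0x0) (nat_lit 0x31b2a0b23bd80)
  (PL.C (nat_lit 0xf31c032) (nat_lit 0x1bd441c29580) (nat_lit 0x0)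
  (PL.C (nat_lit 0xf384baf) (nat_lit 0x0) (nat_lit 0x28be0a0eb00)
  (PL.C (nat_lit 0xf3e359a) (nat_lit 0x0) (nat_lit 0xc918c5997a800)
  (PL.C (nat_lit 0xf45f65f) (nat_lit 0x130467bfa5d00) (nat_lit 0x0)
  (PL.C (nat_lit 0xf520e2a) (nat_lit 0x2a4a4598bc00) (nat_lit 0x0) lm_209))))))))))))))))))))

noncomputable def lm_207 : PL :=
  (PL.C (nat_lit 0xe8c0abf) (nat_lit 0x22a50e68698000) (nat_lit 0x0)
  (PL.C (nat_lit 0xe8d23fa) (nat_lit 0x0) (nat_lit 0x6f17e17ffb80)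
  (PL.C (nat_lit 0xe9026e1) (nat_lit 0x0) (nat_lit 0x2386a399a00)
  (PL.C (nat_lit 0xe9ba4b1) (nat_lit 0x63ac174f61780) (nat_lit 0x0)
  (PL.C (nat_lit 0xe9efb57) (nat_lit 0x0) (nat_lit 0x9375043ae000)
  (PL.C (nat_lit 0xea08a2d) (nat_lit 0x0) (nat_lit 0x9fa9103e3e200)
  (PL.C (nat_lit 0xea64ca9) (nat_lit 0x0) (nat_lit 0xa6785a41400)
  (PL.C (nat_lit 0xeaea999) (nat_lit 0x5eaf9cd9d00) (nat_lit 0x0)
  (PL.C (nat_lit 0xeaffa47) (nat_lit 0x0) (nat_lit 0xdeb8d5468f80)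
  (PL.C (nat_lit 0xeb39575) (nat_lit 0x0) (nat_lit 0x168d640f5c00)
  (PL.C (nat_lit 0xeb5698e) (nat_lit 0x0) (nat_lit 0x6460a77d0b600)
  (PL.C (nat_lit 0xeb735c3) (nat_lit 0xaa30a09a800) (nat_lit 0x0)
  (PL.C (nat_lit 0xebc7b5b) (nat_lit 0x0) (nat_lit 0x12615389a00)
  (PL.C (nat_lit 0xec0ee8d) (nat_lit 0x0) (nat_lit 0x1a0b481ca80)
  (PL.C (nat_lit 0xec288fb) (nat_lit 0x0) (nat_lit 0x84fcfb42400)
  (PL.C (nat_lit 0xec6641a) (nat_lit 0x4d3b821d95100) (nat_lit 0x0)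
  (PL.C (nat_lit 0xec6954f) (nat_lit 0x7cd165eb6a00) (nat_lit 0x0)
  (PL.C (nat_lit 0xec7a39e) (nat_lit 0xd4000a4ac200) (nat_lit 0x0)
  (PL.C (nat_lit 0xed05841) (nat_lit 0x0) (nat_lit 0x1d28c2513800)
  (PL.C (nat_lit 0xed5d382) (nat_lit 0x0) (nat_lit 0x15d512df68740) lm_208))))))))))))))))))))

noncomputable def lm_206 : PL :=
  (PL.C (nat_lit 0xe2bd36a) (nat_lit 0x0) (nat_lit 0xfb7d8a35a80)
  (PL.C (nat_lit 0xe32a673) (nat_lit 0x19e73fde6800) (nat_lit 0x0)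
  (PL.C (nat_lit 0xe36d806) (nat_lit 0x0) (nat_lit 0x2c918b086800)
  (PL.C (nat_lit 0xe39c18d) (nat_lit 0x0) (nat_lit 0xb77e54c5a00)
  (PL.C (nat_lit 0xe480b16) (nat_lit 0xefece52dcb80) (nat_lit 0x0)
  (PL.C (nat_lit 0xe4cf5cd) (nat_lit 0x0) (nat_lit 0x9375043ae000)
  (PL.C (nat_lit 0xe50420a) (nat_lit 0x0) (nat_lit 0x3312a19be7680)
  (PL.C (nat_lit 0xe58dfb9) (nat_lit 0x14a5077ffe200) (nat_lit 0x0)
  (PL.C (nat_lit 0xe5b22fc) (nat_lit 0x0) (nat_lit 0x290eb911cb00)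
  (PL.C (nat_lit 0xe6516a5) (nat_lit 0x7e64d6ebf00) (nat_lit 0x0)
  (PL.C (nat_lit 0xe696f73) (nat_lit 0x0) (nat_lit 0xe7fb0aa63400)
  (PL.C (nat_lit 0xe6d58d6) (nat_lit 0x0) (nat_lit 0xf60d958ea00)
  (PL.C (nat_lit 0xe6ef4b1) (nat_lit 0x1c672f71db00) (nat_lit 0x0)
  (PL.C (nat_lit 0xe73a5ab) (nat_lit 0x2c0d2540ca00) (nat_lit 0x0)
  (PL.C (nat_lit 0xe787dbf) (nat_lit 0x14a5077ffe200) (nat_lit 0x0)
  (PL.C (nat_lit 0xe7c4d5a) (nat_lit 0x2c918b086800) (nat_lit 0x0)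
  (PL.C (nat_lit 0xe7dd87e) (nat_lit 0x3a77f48d0da00) (nat_lit 0x0)
  (PL.C (nat_lit 0xe7e0032) (nat_lit 0x0) (nat_lit 0xb4fc6f371880)
  (PL.C (nat_lit 0xe80d091) (nat_lit 0xc6bce39d2d00) (nat_lit 0x0)
  (PL.C (nat_lit 0xe834b23) (nat_lit 0x38f819608200) (nat_lit 0x0) lm_207))))))))))))))))))))

noncomputable def lm_205 : PL :=
  (PL.C (nat_lit 0xdafbb87) (nat_lit 0x1e1f7ca4e200) (nat_lit 0x0)
  (PL.C (nat_lit 0xdb88e56) (nat_lit 0x673b7028f9e80) (nat_lit 0x0)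
  (PL.C (nat_lit 0xdc77709) (nat_lit 0x35faca673a98c0) (nat_lit 0x0)
  (PL.C (nat_lit 0xdd3264e) (nat_lit 0x162b9e42f100) (nat_lit 0x0)
  (PL.C (nat_lit 0xdd516f2) (nat_lit 0x41b74eea9100) (nat_lit 0x0)
  (PL.C (nat_lit 0xdd7c896) (nat_lit 0x0) (nat_lit 0x2c5c35aed680)
  (PL.C (nat_lit 0xdd967b1) (nat_lit 0x1de722c581a00) (nat_lit 0x0)
  (PL.C (nat_lit 0xdddbf0d) (nat_lit 0x326411c99d00) (nat_lit 0x0)
  (PL.C (nat_lit 0xde1e154) (nat_lit 0x7b6a843a600) (nat_lit 0x0)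
  (PL.C (nat_lit 0xdf0f6ee) (nat_lit 0x1677e2aa51200) (nat_lit 0x0)
  (PL.C (nat_lit 0xdf358ea) (nat_lit 0x0) (nat_lit 0x3f4ce989e200)
  (PL.C (nat_lit 0xdf3dc77) (nat_lit 0x28c01ddf3800) (nat_lit 0x0)
  (PL.C (nat_lit 0xe031d9e) (nat_lit 0xfcb0eba5c00) (nat_lit 0x0)
  (PL.C (nat_lit 0xe0cdce6) (nat_lit 0x0) (nat_lit 0x30c36db23700)
  (PL.C (nat_lit 0xe10f486) (nat_lit 0x0) (nat_lit 0x64185a5923c00)
  (PL.C (nat_lit 0xe1a79d5) (nat_lit 0x0) (nat_lit 0x60bcadc707200)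
  (PL.C (nat_lit 0xe1d14e2) (nat_lit 0x0) (nat_lit 0xefece52dcb80)
  (PL.C (nat_lit 0xe22ac41) (nat_lit 0x0) (nat_lit 0x64ed78c6c800)
  (PL.C (nat_lit 0xe25a67b) (nat_lit 0x0) (nat_lit 0x7d601a568a2c0)
  (PL.C (nat_lit 0xe2999fb) (nat_lit 0x0) (nat_lit 0xca7b6f45e600) lm_206))))))))))))))))))))

noncomputable def lm_204 : PL :=
  (PL.C (nat_lit 0xd702eba) (nat_lit 0x0) (nat_lit 0xc9d85a4e8c00)
  (PL.C (nat_lit 0xd72cab5) (nat_lit 0x0) (nat_lit 0x14085b11ff400)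
  (PL.C (nat_lit 0xd75547e) (nat_lit 0x0) (nat_lit 0x28a5fa0e7b80)
  (PL.C (nat_lit 0xd7d33db) (nat_lit 0x0) (nat_lit 0x1e1611e724bf80)
  (PL.C (nat_lit 0xd7e38a2) (nat_lit 0x22b62e39fb00) (nat_lit 0x0)
  (PL.C (nat_lit 0xd7e62b7) (nat_lit 0x1d28c2513800) (nat_lit 0x0)
  (PL.C (nat_lit 0xd83f425) (nat_lit 0x0) (nat_lit 0x5d1eca32ee5c0)
  (PL.C (nat_lit 0xd852d42) (nat_lit 0x29381c5500) (nat_lit 0x0)
  (PL.C (nat_lit 0xd8bab55) (nat_lit 0x0) (nat_lit 0xd96a1729300)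
  (PL.C (nat_lit 0xd8dcbf6) (nat_lit 0x0) (nat_lit 0x6902df30ac00)
  (PL.C (nat_lit 0xd8ec3d3) (nat_lit 0x0) (nat_lit 0x19e73fde6800)
  (PL.C (nat_lit 0xd92fd12) (nat_lit 0x0) (nat_lit 0x7e1b1bec6d00)
  (PL.C (nat_lit 0xd938e17) (nat_lit 0x0) (nat_lit 0x67611dd85f000)
  (PL.C (nat_lit 0xd992424) (nat_lit 0x0) (nat_lit 0x422441bf8b80)
  (PL.C (nat_lit 0xd994109) (nat_lit 0x1a0b481ca80) (nat_lit 0x0)
  (PL.C (nat_lit 0xd9bf4ce) (nat_lit 0x9c7da649a00) (nat_lit 0x0)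
  (PL.C (nat_lit 0xda11d89) (nat_lit 0x8738eb8f7e00) (nat_lit 0x0)
  (PL.C (nat_lit 0xda1bcf3) (nat_lit 0x14cc160dd17a00) (nat_lit 0x0)
  (PL.C (nat_lit 0xdabea07) (nat_lit 0x0) (nat_lit 0x59b8115026c0)
  (PL.C (nat_lit 0xdaca8b6) (nat_lit 0x2113acd90900) (nat_lit 0x0) lm_205))))))))))))))))))))

noncomputable def lm_203 : PL :=
  (PL.C (nat_lit 0xd2e335e) (nat_lit 0xbeeb03681200) (nat_lit 0x0)
  (PL.C (nat_lit 0xd34febe) (nat_lit 0x431d002e800) (nat_lit 0x0)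
  (PL.C (nat_lit 0xd3695b3) (nat_lit 0x55399e1b5c100) (nat_lit 0x0)
  (PL.C (nat_lit 0xd37b371) (nat_lit 0x0) (nat_lit 0x1d28c2513800)
  (PL.C (nat_lit 0xd42b561) (nat_lit 0x0) (nat_lit 0x9e18fe384400)
  (PL.C (nat_lit 0xd4b3f32) (nat_lit 0x152522cc5e00) (nat_lit 0x0)
  (PL.C (nat_lit 0xd4dc17d) (nat_lit 0x33ce7fbcd000) (nat_lit 0x0)
  (PL.C (nat_lit 0xd4f79f7) (nat_lit 0x0) (nat_lit 0x295b3bf24580)
  (PL.C (nat_lit 0xd50e50d) (nat_lit 0xbdeacf880d880) (nat_lit 0x0)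
  (PL.C (nat_lit 0xd584519) (nat_lit 0x2b96283051800) (nat_lit 0x0)
  (PL.C (nat_lit 0xd5be4c3) (nat_lit 0x0) (nat_lit 0x2be5592b600)
  (PL.C (nat_lit 0xd5d1cdf) (nat_lit 0x0) (nat_lit 0xc930d9b3000)
  (PL.C (nat_lit 0xd5d3532) (nat_lit 0x1805f83926300) (nat_lit 0x0)
  (PL.C (nat_lit 0xd5ef2e7) (nat_lit 0x4e48c33da180) (nat_lit 0x0)
  (PL.C (nat_lit 0xd60bd6e) (nat_lit 0x9c7da649a00) (nat_lit 0x0)
  (PL.C (nat_lit 0xd623b55) (nat_lit 0x0) (nat_lit 0x2613ebd98800)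
  (PL.C (nat_lit 0xd6694f7) (nat_lit 0x0) (nat_lit 0x28be0a0eb00)
  (PL.C (nat_lit 0xd6b12db) (nat_lit 0xb2fa3799a400) (nat_lit 0x0)
  (PL.C (nat_lit 0xd6bbaa3) (nat_lit 0x0) (nat_lit 0xf598531db1680)
  (PL.C (nat_lit 0xd6e9b82) (nat_lit 0x0) (nat_lit 0xb89c0e32a100) lm_204))))))))))))))))))))

noncomputable def lm_202 : PL :=
  (PL.C (nat_lit 0xce49e1b) (nat_lit 0x403ab20492c80) (nat_lit 0x0)
  (PL.C (nat_lit 0xce5dbdc) (nat_lit 0x0) (nat_lit 0xf0886ad2080)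
  (PL.C (nat_lit 0xce8f06f) (nat_lit 0x0) (nat_lit 0x1365a739a4fc0)
  (PL.C (nat_lit 0xcef5f59) (nat_lit 0x3d0c05d83f80) (nat_lit 0x0)
  (PL.C (nat_lit 0xcf5d8a7) (nat_lit 0x56cc68965600) (nat_lit 0x0)
  (PL.C (nat_lit 0xcfd3eb7) (nat_lit 0x14e139616000) (nat_lit 0x0)
  (PL.C (nat_lit 0xcff247a) (nat_lit 0x8471f6c2bb80) (nat_lit 0x0)
  (PL.C (nat_lit 0xd0920e7) (nat_lit 0x0) (nat_lit 0x17146537a3d00)
  (PL.C (nat_lit 0xd0b72ca) (nat_lit 0x80493b0aa00) (nat_lit 0x0)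
  (PL.C (nat_lit 0xd0fa719) (nat_lit 0x19b37e852780) (nat_lit 0x0)
  (PL.C (nat_lit 0xd0fd222) (nat_lit 0xfb7d8a35a80) (nat_lit 0x0)
  (PL.C (nat_lit 0xd157277) (nat_lit 0x129d185e5200) (nat_lit 0x0)
  (PL.C (nat_lit 0xd194207) (nat_lit 0x0) (nat_lit 0xd96a1729300)
  (PL.C (nat_lit 0xd1a58c4) (nat_lit 0x92205de88400) (nat_lit 0x0)
  (PL.C (nat_lit 0xd1b7f25) (nat_lit 0x20230e4c65c00) (nat_lit 0x0)
  (PL.C (nat_lit 0xd1bbaea) (nat_lit 0x0) (nat_lit 0xfd62701b000)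
  (PL.C (nat_lit 0xd234176) (nat_lit 0x0) (nat_lit 0xa9291662f00)
  (PL.C (nat_lit 0xd26490c) (nat_lit 0x0) (nat_lit 0x422441bf8b80)
  (PL.C (nat_lit 0xd288864) (nat_lit 0xa5e59ac94700) (nat_lit 0x0)
  (PL.C (nat_lit 0xd2a4fdf) (nat_lit 0x0) (nat_lit 0x20bd1b3b8000) lm_203))))))))))))))))))))

noncomputable def lm_201 : PL :=
  (PL.C (nat_lit 0xc8ffd74) (nat_lit 0x92205de88400) (nat_lit 0x0)
  (PL.C (nat_lit 0xc92fd85) (nat_lit 0x41e9610a0cd00) (nat_lit 0x0)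
  (PL.C (nat_lit 0xc96431a) (nat_lit 0x0) (nat_lit 0x39e0cf394b00)
  (PL.C (nat_lit 0xc96c993) (nat_lit 0x0) (nat_lit 0xbccf6af540f00)
  (PL.C (nat_lit 0xc9b9c11) (nat_lit 0x0) (nat_lit 0x1ace2fc96180)
  (PL.C (nat_lit 0xca35c8d) (nat_lit 0x0) (nat_lit 0xb77e54c5a00)
  (PL.C (nat_lit 0xca3f05f) (nat_lit 0x985b8c96b9700) (nat_lit 0x0)
  (PL.C (nat_lit 0xca6c49d) (nat_lit 0x27048bdf000) (nat_lit 0x0)
  (PL.C (nat_lit 0xca89dbe) (nat_lit 0xe009e183b85c0) (nat_lit 0x0)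
  (PL.C (nat_lit 0xcb359c4) (nat_lit 0x39ea4247200) (nat_lit 0x0)
  (PL.C (nat_lit 0xcb918ee) (nat_lit 0x0) (nat_lit 0x64185a5923c00)
  (PL.C (nat_lit 0xcbf7712) (nat_lit 0xb2860ec57780) (nat_lit 0x0)
  (PL.C (nat_lit 0xcc194de) (nat_lit 0x0) (nat_lit 0x699e1f10500)
  (PL.C (nat_lit 0xcc410da) (nat_lit 0x0) (nat_lit 0x730058eb8400)
  (PL.C (nat_lit 0xcc6ec0d) (nat_lit 0x7c3f6dd31d40) (nat_lit 0x0)
  (PL.C (nat_lit 0xccf7135) (nat_lit 0x53645ad2cf000) (nat_lit 0x0)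
  (PL.C (nat_lit 0xcd1c1c6) (nat_lit 0x12035a6e7c00) (nat_lit 0x0)
  (PL.C (nat_lit 0xcd914ab) (nat_lit 0x0) (nat_lit 0x4ab631b76d80)
  (PL.C (nat_lit 0xcdb8ede) (nat_lit 0xc680f49e8900) (nat_lit 0x0)
  (PL.C (nat_lit 0xcdf547b) (nat_lit 0x7bd02ffb74640) (nat_lit 0x0) lm_202))))))))))))))))))))

noncomputable def lm_200 : PL :=
  (PL.C (nat_lit 0xc419d15) (nat_lit 0xcc0f7d2e6400) (nat_lit 0x0)
  (PL.C (nat_lit 0xc42769e) (nat_lit 0x0) (nat_lit 0xc9d85a4e8c00)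
  (PL.C (nat_lit 0xc47abfb) (nat_lit 0x0) (nat_lit 0x11879072af5a00)
  (PL.C (nat_lit 0xc489962) (nat_lit 0x0) (nat_lit 0x51b4d9da1800)
  (PL.C (nat_lit 0xc4b2425) (nat_lit 0x3ee57b663240) (nat_lit 0x0)
  (PL.C (nat_lit 0xc4fc8d5) (nat_lit 0xce1cc5fd23ec0) (nat_lit 0x0)
  (PL.C (nat_lit 0xc57a8f3) (nat_lit 0x0) (nat_lit 0x17154988d40)
  (PL.C (nat_lit 0xc58f9a1) (nat_lit 0x0) (nat_lit 0x9fa9103e3e200)
  (PL.C (nat_lit 0xc5fd05d) (nat_lit 0x62e5da5f6e00) (nat_lit 0x0)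
  (PL.C (nat_lit 0xc657ac2) (nat_lit 0x0) (nat_lit 0x9c7da649a00)
  (PL.C (nat_lit 0xc6a9846) (nat_lit 0x0) (nat_lit 0xef594d71c7300)
  (PL.C (nat_lit 0xc709007) (nat_lit 0x0) (nat_lit 0x9e946bab2a40)
  (PL.C (nat_lit 0xc75ac27) (nat_lit 0xa6785a41400) (nat_lit 0x0)
  (PL.C (nat_lit 0xc77b7c9) (nat_lit 0x403ab20492c80) (nat_lit 0x0)
  (PL.C (nat_lit 0xc79d94b) (nat_lit 0x463e361f92ac0) (nat_lit 0x0)
  (PL.C (nat_lit 0xc7ac2b6) (nat_lit 0x0) (nat_lit 0x1bd441c29580)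
  (PL.C (nat_lit 0xc7e29be) (nat_lit 0x6902df30ac00) (nat_lit 0x0)
  (PL.C (nat_lit 0xc813196) (nat_lit 0xf60d958ea00) (nat_lit 0x0)
  (PL.C (nat_lit 0xc85f50a) (nat_lit 0x0) (nat_lit 0x83809e13a8880)
  (PL.C (nat_lit 0xc885219) (nat_lit 0x0) (nat_lit 0x350f161484a80) lm_201))))))))))))))))))))

noncomputable def lm_199 : PL :=
  (PL.C (nat_lit 0xc048c63) (nat_lit 0x0) (nat_lit 0x32cf6d684100)
  (PL.C (nat_lit 0xc06c52b) (nat_lit 0x4d465a27fea00) (nat_lit 0x0)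
  (PL.C (nat_lit 0xc0abe53) (nat_lit 0xeffb66c4c00) (nat_lit 0x0)
  (PL.C (nat_lit 0xc0b68b3) (nat_lit 0x0) (nat_lit 0x20bd1b3b8000)
  (PL.C (nat_lit 0xc0d2b22) (nat_lit 0x0) (nat_lit 0x18056acf4e500)
  (PL.C (nat_lit 0xc126bc1) (nat_lit 0x0) (nat_lit 0x92c2e1282800)
  (PL.C (nat_lit 0xc166da3) (nat_lit 0x0) (nat_lit 0x8f9d6b1cf000)
  (PL.C (nat_lit 0xc178ed6) (nat_lit 0x54fb57ad23280) (nat_lit 0x0)
  (PL.C (nat_lit 0xc17ee82) (nat_lit 0x0) (nat_lit 0xc918c5997a800)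
  (PL.C (nat_lit 0xc1c7a5d) (nat_lit 0x2ed87b72740) (nat_lit 0x0)
  (PL.C (nat_lit 0xc1f0845) (nat_lit 0x0) (nat_lit 0x1e1f7ca4e200)
  (PL.C (nat_lit 0xc22733c) (nat_lit 0x0) (nat_lit 0xd7687cf3e00)
  (PL.C (nat_lit 0xc26c9f9) (nat_lit 0x90a2b7e0b6780) (nat_lit 0x0)
  (PL.C (nat_lit 0xc27ad52) (nat_lit 0x0) (nat_lit 0x6902df30ac00)
  (PL.C (nat_lit 0xc2dc2ae) (nat_lit 0x2ccf27cf7600) (nat_lit 0x0)
  (PL.C (nat_lit 0xc2fa2aa) (nat_lit 0x660b9beb19fc0) (nat_lit 0x0)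
  (PL.C (nat_lit 0xc34861b) (nat_lit 0xc3bb2959800) (nat_lit 0x0)
  (PL.C (nat_lit 0xc372afb) (nat_lit 0x943f1446c200) (nat_lit 0x0)
  (PL.C (nat_lit 0xc3aa1e5) (nat_lit 0x0) (nat_lit 0xe52a04bf680)
  (PL.C (nat_lit 0xc40941f) (nat_lit 0x1de722c581a00) (nat_lit 0x0) lm_200))))))))))))))))))))

noncomputable def lm_198 : PL :=
  (PL.C (nat_lit 0xb98612e) (nat_lit 0x0) (nat_lit 0x9c7da649a00)
  (PL.C (nat_lit 0xb996b12) (nat_lit 0x0) (nat_lit 0x1d4404b1d180)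
  (PL.C (nat_lit 0xb9ccbf2) (nat_lit 0x67fc85de45600) (nat_lit 0x0)
  (PL.C (nat_lit 0xba1baed) (nat_lit 0x0) (nat_lit 0x5d6fa64756300)
  (PL.C (nat_lit 0xba6cec6) (nat_lit 0x5540aeff6100) (nat_lit 0x0)
  (PL.C (nat_lit 0xbab9806) (nat_lit 0x0) (nat_lit 0x699e1f10500)
  (PL.C (nat_lit 0xbaf816e) (nat_lit 0xa4cbc5f04c00) (nat_lit 0x0)
  (PL.C (nat_lit 0xbb2fade) (nat_lit 0x1153bc6b8200) (nat_lit 0x0)
  (PL.C (nat_lit 0xbb48a01) (nat_lit 0x2b96283051800) (nat_lit 0x0)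
  (PL.C (nat_lit 0xbb7c91e) (nat_lit 0x0) (nat_lit 0xf3ddf9fd680)
  (PL.C (nat_lit 0xbc4c326) (nat_lit 0x0) (nat_lit 0x56f3f11293000)
  (PL.C (nat_lit 0xbc6c612) (nat_lit 0x0) (nat_lit 0x508890a3200)
  (PL.C (nat_lit 0xbd725bb) (nat_lit 0x0) (nat_lit 0x16b512cf7f00)
  (PL.C (nat_lit 0xbd8373a) (nat_lit 0x0) (nat_lit 0x3312a19be7680)
  (PL.C (nat_lit 0xbe7cde9) (nat_lit 0x58947c3593500) (nat_lit 0x0)
  (PL.C (nat_lit 0xbe9dff7) (nat_lit 0x0) (nat_lit 0x23985bac00)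
  (PL.C (nat_lit 0xbef0215) (nat_lit 0xb5d8212ce9f80) (nat_lit 0x0)
  (PL.C (nat_lit 0xbf00427) (nat_lit 0x96948c33a100) (nat_lit 0x0)
  (PL.C (nat_lit 0xbfbe38c) (nat_lit 0x43e27ee54300) (nat_lit 0x0)
  (PL.C (nat_lit 0xbfe8b9d) (nat_lit 0x929064c9f900) (nat_lit 0x0) lm_199))))))))))))))))))))

noncomputable def lm_197 : PL :=
  (PL.C (nat_lit 0xb5ccba9) (nat_lit 0xe1c033925b00) (nat_lit 0x0)
  (PL.C (nat_lit 0xb61b53a) (nat_lit 0x0) (nat_lit 0xb6b265ab5080)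
  (PL.C (nat_lit 0xb630a87) (nat_lit 0xb5d8212ce9f80) (nat_lit 0x0)
  (PL.C (nat_lit 0xb63e6aa) (nat_lit 0x22b62e39fb00) (nat_lit 0x0)
  (PL.C (nat_lit 0xb664219) (nat_lit 0x0) (nat_lit 0x4fef3168a680)
  (PL.C (nat_lit 0xb68bd79) (nat_lit 0x0) (nat_lit 0x98c883927a40)
  (PL.C (nat_lit 0xb69c5ca) (nat_lit 0x2113acd90900) (nat_lit 0x0)
  (PL.C (nat_lit 0xb6d9922) (nat_lit 0x0) (nat_lit 0xd1233733280)
  (PL.C (nat_lit 0xb724ae2) (nat_lit 0x28a5fa0e7b80) (nat_lit 0x0)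
  (PL.C (nat_lit 0xb731605) (nat_lit 0x11f9a211c3500) (nat_lit 0x0)
  (PL.C (nat_lit 0xb7d0086) (nat_lit 0x9c7da649a00) (nat_lit 0x0)
  (PL.C (nat_lit 0xb815b6d) (nat_lit 0x0) (nat_lit 0x7aafbe43600)
  (PL.C (nat_lit 0xb81e1ff) (nat_lit 0x17d0341a30800) (nat_lit 0x0)
  (PL.C (nat_lit 0xb836c9e) (nat_lit 0x67fc85de45600) (nat_lit 0x0)
  (PL.C (nat_lit 0xb8555f2) (nat_lit 0x0) (nat_lit 0x110e70c2f800)
  (PL.C (nat_lit 0xb88f543) (nat_lit 0x4fef3168a680) (nat_lit 0x0)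
  (PL.C (nat_lit 0xb895bfe) (nat_lit 0x0) (nat_lit 0x56f3f11293000)
  (PL.C (nat_lit 0xb8b1a0e) (nat_lit 0x29381c5500) (nat_lit 0x0)
  (PL.C (nat_lit 0xb8bfef2) (nat_lit 0x0) (nat_lit 0x10152663a4700)
  (PL.C (nat_lit 0xb8f97cd) (nat_lit 0x25694370ba580) (nat_lit 0x0) lm_198))))))))))))))))))))

noncomputable def lm_196 : PL :=
  (PL.C (nat_lit 0xb0b7493) (nat_lit 0x212e6173ef00) (nat_lit 0x0)
  (PL.C (nat_lit 0xb134c84) (nat_lit 0x190f8d244400) (nat_lit 0x0)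
  (PL.C (nat_lit 0xb1811ce) (nat_lit 0x2bdfc06054c00) (nat_lit 0x0)
  (PL.C (nat_lit 0xb1e9e51) (nat_lit 0xacdb2f52e100) (nat_lit 0x0)
  (PL.C (nat_lit 0xb261636) (nat_lit 0xfd62701b000) (nat_lit 0x0)
  (PL.C (nat_lit 0xb276dbf) (nat_lit 0x164a737490900) (nat_lit 0x0)
  (PL.C (nat_lit 0xb285ef5) (nat_lit 0x8266c5fd800) (nat_lit 0x0)
  (PL.C (nat_lit 0xb29d2de) (nat_lit 0x0) (nat_lit 0x508890a3200)
  (PL.C (nat_lit 0xb2a8b3f) (nat_lit 0xc3bb2959800) (nat_lit 0x0)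
  (PL.C (nat_lit 0xb2c1c61) (nat_lit 0x1e1f7ca4e200) (nat_lit 0x0)
  (PL.C (nat_lit 0xb30c224) (nat_lit 0x0) (nat_lit 0x7b6a843a600)
  (PL.C (nat_lit 0xb42a00f) (nat_lit 0x6303250ece380) (nat_lit 0x0)
  (PL.C (nat_lit 0xb43dd3d) (nat_lit 0x326411c99d00) (nat_lit 0x0)
  (PL.C (nat_lit 0xb448cbd) (nat_lit 0x415019905b00) (nat_lit 0x0)
  (PL.C (nat_lit 0xb4b03a6) (nat_lit 0x9c7da649a00) (nat_lit 0x0)
  (PL.C (nat_lit 0xb4b3846) (nat_lit 0x67851822d80) (nat_lit 0x0)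
  (PL.C (nat_lit 0xb514927) (nat_lit 0x0) (nat_lit 0x1e684e97c000)
  (PL.C (nat_lit 0xb544a6f) (nat_lit 0x0) (nat_lit 0xf598531db1680)
  (PL.C (nat_lit 0xb54a0ee) (nat_lit 0xfab884494200) (nat_lit 0x0)
  (PL.C (nat_lit 0xb5c76bb) (nat_lit 0xa3152aa94100) (nat_lit 0x0) lm_197))))))))))))))))))))

noncomputable def lm_195 : PL :=
  (PL.C (nat_lit 0xad0af7f) (nat_lit 0x0) (nat_lit 0x5e823616ac580)
  (PL.C (nat_lit 0xad203ca) (nat_lit 0x2771da77ad80) (nat_lit 0x0)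
  (PL.C (nat_lit 0xad6dc0f) (nat_lit 0x0) (nat_lit 0xf60ffd53580)
  (PL.C (nat_lit 0xada9be5) (nat_lit 0x0) (nat_lit 0x4013475ae700)
  (PL.C (nat_lit 0xaddc5a7) (nat_lit 0x0) (nat_lit 0x3b5f5f60c7b00)
  (PL.C (nat_lit 0xae56764) (nat_lit 0x0) (nat_lit 0xf02fb24fb00)
  (PL.C (nat_lit 0xae72357) (nat_lit 0x0) (nat_lit 0x1a2c0ca292000)
  (PL.C (nat_lit 0xae9a6fe) (nat_lit 0x0) (nat_lit 0x98972cc25180)
  (PL.C (nat_lit 0xaeb507d) (nat_lit 0x18741099600) (nat_lit 0x0)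
  (PL.C (nat_lit 0xaeff5fe) (nat_lit 0x48da8f8b89880) (nat_lit 0x0)
  (PL.C (nat_lit 0xaf0c783) (nat_lit 0x61cd147e200) (nat_lit 0x0)
  (PL.C (nat_lit 0xaf1fb4c) (nat_lit 0x0) (nat_lit 0x1570e8ffd200)
  (PL.C (nat_lit 0xaf28733) (nat_lit 0x0) (nat_lit 0x4ab631b76d80)
  (PL.C (nat_lit 0xafab347) (nat_lit 0x0) (nat_lit 0x168d640f5c00)
  (PL.C (nat_lit 0xafb199c) (nat_lit 0xf6d50874c00) (nat_lit 0x0)
  (PL.C (nat_lit 0xafbb0e2) (nat_lit 0x3100be029000) (nat_lit 0x0)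
  (PL.C (nat_lit 0xafbd865) (nat_lit 0xc9465dc41dec0) (nat_lit 0x0)
  (PL.C (nat_lit 0xafd6a7c) (nat_lit 0x0) (nat_lit 0xf0886ad2080)
  (PL.C (nat_lit 0xb06b56b) (nat_lit 0x0) (nat_lit 0x7ed353667da80)
  (PL.C (nat_lit 0xb08538d) (nat_lit 0x1a53112e71000) (nat_lit 0x0) lm_196))))))))))))))))))))

noncomputable def lm_194 : PL :=
  (PL.C (nat_lit 0xa864ead) (nat_lit 0x130467bfa5d00) (nat_lit 0x0)
  (PL.C (nat_lit 0xa885b67) (nat_lit 0x1b6ac73080c00) (nat_lit 0x0)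
  (PL.C (nat_lit 0xa893f2d) (nat_lit 0x36557d29a000) (nat_lit 0x0)
  (PL.C (nat_lit 0xa89fa2e) (nat_lit 0x7cc76c308800) (nat_lit 0x0)
  (PL.C (nat_lit 0xa8e4e6e) (nat_lit 0x0) (nat_lit 0x2ccf27cf7600)
  (PL.C (nat_lit 0xa8f09c3) (nat_lit 0xb32921820480) (nat_lit 0x0)
  (PL.C (nat_lit 0xa91d836) (nat_lit 0xa4cbc5f04c00) (nat_lit 0x0)
  (PL.C (nat_lit 0xa9547b2) (nat_lit 0x0) (nat_lit 0x1b97a3149a00)
  (PL.C (nat_lit 0xa9665bd) (nat_lit 0x0) (nat_lit 0x1a0b481ca80)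
  (PL.C (nat_lit 0xa9d2e2a) (nat_lit 0x1bd441c29580) (nat_lit 0x0)
  (PL.C (nat_lit 0xa9d5459) (nat_lit 0xd2af42c41ef80) (nat_lit 0x0)
  (PL.C (nat_lit 0xaa81432) (nat_lit 0x0) (nat_lit 0x1153bc6b8200)
  (PL.C (nat_lit 0xab19acd) (nat_lit 0x0) (nat_lit 0x8f9d6b1cf000)
  (PL.C (nat_lit 0xaba5f86) (nat_lit 0x0) (nat_lit 0x1d094b368780)
  (PL.C (nat_lit 0xabc3d84) (nat_lit 0x0) (nat_lit 0xd7687cf3e00)
  (PL.C (nat_lit 0xabd4c4e) (nat_lit 0x0) (nat_lit 0x5540aeff6100)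
  (PL.C (nat_lit 0xac0dd4e) (nat_lit 0x2a4a4598bc00) (nat_lit 0x0)
  (PL.C (nat_lit 0xac6c1c2) (nat_lit 0x0) (nat_lit 0xe1646beba300)
  (PL.C (nat_lit 0xac92b01) (nat_lit 0x39e2295a437c0) (nat_lit 0x0)
  (PL.C (nat_lit 0xacb4881) (nat_lit 0x0) (nat_lit 0xbccf6af540f00) lm_195))))))))))))))))))))

noncomputable def lm_193 : PL :=
  (PL.C (nat_lit 0xa2db923) (nat_lit 0x0) (nat_lit 0x7aafbe43600)
  (PL.C (nat_lit 0xa36b41c) (nat_lit 0x1edaa10e9800) (nat_lit 0x0)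
  (PL.C (nat_lit 0xa396bb7) (nat_lit 0x39e2295a437c0) (nat_lit 0x0)
  (PL.C (nat_lit 0xa41fd9d) (nat_lit 0x90a2b7e0b6780) (nat_lit 0x0)
  (PL.C (nat_lit 0xa423c2d) (nat_lit 0x0) (nat_lit 0x6865c261bd780)
  (PL.C (nat_lit 0xa4b79d2) (nat_lit 0x0) (nat_lit 0x9cd67a387a00)
  (PL.C (nat_lit 0xa4d95c7) (nat_lit 0xc3bb2959800) (nat_lit 0x0)
  (PL.C (nat_lit 0xa4f9775) (nat_lit 0xdf5bebff600) (nat_lit 0x0)
  (PL.C (nat_lit 0xa54c08b) (nat_lit 0x72ed05436b00) (nat_lit 0x0)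
  (PL.C (nat_lit 0xa56844e) (nat_lit 0x6902df30ac00) (nat_lit 0x0)
  (PL.C (nat_lit 0xa57c2db) (nat_lit 0x22c239f9ff880) (nat_lit 0x0)
  (PL.C (nat_lit 0xa5aa65b) (nat_lit 0x0) (nat_lit 0x25b928d19000)
  (PL.C (nat_lit 0xa5c2992) (nat_lit 0x257cd2043700) (nat_lit 0x0)
  (PL.C (nat_lit 0xa60ad79) (nat_lit 0x0) (nat_lit 0x9c444489f100)
  (PL.C (nat_lit 0xa6498e9) (nat_lit 0x0) (nat_lit 0x2891834184700)
  (PL.C (nat_lit 0xa6b84dd) (nat_lit 0x0) (nat_lit 0xe52a04bf680)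
  (PL.C (nat_lit 0xa76e94a) (nat_lit 0x0) (nat_lit 0x9c7da649a00)
  (PL.C (nat_lit 0xa7dfe83) (nat_lit 0x0) (nat_lit 0x2cebf89d6000)
  (PL.C (nat_lit 0xa804463) (nat_lit 0xab43faf63d00) (nat_lit 0x0)
  (PL.C (nat_lit 0xa815c4b) (nat_lit 0xbef333ead3b00) (nat_lit 0x0) lm_194))))))))))))))))))))

noncomputable def lm_192 : PL :=
  (PL.C (nat_lit 0x9e6e9a7) (nat_lit 0x0) (nat_lit 0x7faafcd9400)
  (PL.C (nat_lit 0x9ebde59) (nat_lit 0x0) (nat_lit 0xdeb8d5468f80)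
  (PL.C (nat_lit 0x9f03625) (nat_lit 0x0) (nat_lit 0x12e80ce448800)
  (PL.C (nat_lit 0x9f12cfa) (nat_lit 0x0) (nat_lit 0x11a40952aa2380)
  (PL.C (nat_lit 0x9f18849) (nat_lit 0x0) (nat_lit 0x23985bac00)
  (PL.C (nat_lit 0x9fb8fe2) (nat_lit 0x0) (nat_lit 0xee784f132b240)
  (PL.C (nat_lit 0x9ffa9a2) (nat_lit 0x0) (nat_lit 0x13cbb4abc9b00)
  (PL.C (nat_lit 0xa03039a) (nat_lit 0x49b1f8b5d8500) (nat_lit 0x0)
  (PL.C (nat_lit 0xa07539b) (nat_lit 0x985b8c96b9700) (nat_lit 0x0)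
  (PL.C (nat_lit 0xa0c7f0b) (nat_lit 0x53645ad2cf000) (nat_lit 0x0)
  (PL.C (nat_lit 0xa12e729) (nat_lit 0x0) (nat_lit 0x1e1611e724bf80)
  (PL.C (nat_lit 0xa13c103) (nat_lit 0x96948c33a100) (nat_lit 0x0)
  (PL.C (nat_lit 0xa16c303) (nat_lit 0x0) (nat_lit 0x291eabc902780)
  (PL.C (nat_lit 0xa1721b7) (nat_lit 0x4ab631b76d80) (nat_lit 0x0)
  (PL.C (nat_lit 0xa1d6d4d) (nat_lit 0x0) (nat_lit 0x350f161484a80)
  (PL.C (nat_lit 0xa1dc6bc) (nat_lit 0x43e27ee54300) (nat_lit 0x0)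
  (PL.C (nat_lit 0xa2004d1) (nat_lit 0x929064c9f900) (nat_lit 0x0)
  (PL.C (nat_lit 0xa212acc) (nat_lit 0xf0886ad2080) (nat_lit 0x0)
  (PL.C (nat_lit 0xa2587ca) (nat_lit 0x2e2d9371c200) (nat_lit 0x0)
  (PL.C (nat_lit 0xa2a50df) (nat_lit 0x0) (nat_lit 0x5faef044f800) lm_193))))))))))))))))))))

noncomputable def lm_191 : PL :=
  (PL.C (nat_lit 0x9bd1876) (nat_lit 0x1677e2aa51200) (nat_lit 0x0)
  (PL.C (nat_lit 0x9bf523a) (nat_lit 0x0) (nat_lit 0x46a6201ed900)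
  (PL.C (nat_lit 0x9c05c1e) (nat_lit 0xf0c2e2819200) (nat_lit 0x0)
  (PL.C (nat_lit 0x9c44223) (nat_lit 0x3349d4eac5a80) (nat_lit 0x0)
  (PL.C (nat_lit 0x9c48f69) (nat_lit 0x0) (nat_lit 0x2891834184700)
  (PL.C (nat_lit 0x9c9c666) (nat_lit 0x0) (nat_lit 0x9c7da649a00)
  (PL.C (nat_lit 0x9caa6da) (nat_lit 0x0) (nat_lit 0x672582ae4d40)
  (PL.C (nat_lit 0x9cd0e4e) (nat_lit 0x0) (nat_lit 0x1e0c8d76b580)
  (PL.C (nat_lit 0x9d14711) (nat_lit 0x0) (nat_lit 0x28be0a0eb00)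
  (PL.C (nat_lit 0x9d5f45e) (nat_lit 0x0) (nat_lit 0x205460b2eb00)
  (PL.C (nat_lit 0x9d630ef) (nat_lit 0x0) (nat_lit 0x1d28c2513800)
  (PL.C (nat_lit 0x9d7b49d) (nat_lit 0x0) (nat_lit 0xabc2ebf608d80)
  (PL.C (nat_lit 0x9da6d14) (nat_lit 0x14a71c5ef8800) (nat_lit 0x0)
  (PL.C (nat_lit 0x9dc9c3b) (nat_lit 0x5247d55df4200) (nat_lit 0x0)
  (PL.C (nat_lit 0x9e03ad6) (nat_lit 0x80493b0aa00) (nat_lit 0x0)
  (PL.C (nat_lit 0x9e06349) (nat_lit 0x0) (nat_lit 0x3cc35aa1c340)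
  (PL.C (nat_lit 0x9e170b3) (nat_lit 0x0) (nat_lit 0x8a97f44f56980)
  (PL.C (nat_lit 0x9e18bc5) (nat_lit 0x0) (nat_lit 0x10d4fc5fcd00)
  (PL.C (nat_lit 0x9e5c02e) (nat_lit 0x0) (nat_lit 0x88324bf89a700)
  (PL.C (nat_lit 0x9e66b1c) (nat_lit 0x76eec8ff89200) (nat_lit 0x0) lm_192))))))))))))))))))))

noncomputable def lm_190 : PL :=
  (PL.C (nat_lit 0x9711152) (nat_lit 0x0) (nat_lit 0x1ac8257c27b80)
  (PL.C (nat_lit 0x9744367) (nat_lit 0x0) (nat_lit 0x14c450a6e3600)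
  (PL.C (nat_lit 0x97719a2) (nat_lit 0x12035a6e7c00) (nat_lit 0x0)
  (PL.C (nat_lit 0x97bd65e) (nat_lit 0x0) (nat_lit 0x1861b6d91b80)
  (PL.C (nat_lit 0x981628b) (nat_lit 0x0) (nat_lit 0x21d1029979700)
  (PL.C (nat_lit 0x9830271) (nat_lit 0x1a3fcc5c8fc0) (nat_lit 0x0)
  (PL.C (nat_lit 0x988a3de) (nat_lit 0x0) (nat_lit 0x46a6201ed900)
  (PL.C (nat_lit 0x98e6da5) (nat_lit 0x1217d62372380) (nat_lit 0x0)
  (PL.C (nat_lit 0x9909526) (nat_lit 0x5cd1be61ca00) (nat_lit 0x0)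
  (PL.C (nat_lit 0x9977a0d) (nat_lit 0xe1c033925b00) (nat_lit 0x0)
  (PL.C (nat_lit 0x99ab119) (nat_lit 0xe52a04bf680) (nat_lit 0x0)
  (PL.C (nat_lit 0x99b9fa2) (nat_lit 0x0) (nat_lit 0x9cd67a387a00)
  (PL.C (nat_lit 0x9a26e72) (nat_lit 0x5e6e575ce800) (nat_lit 0x0)
  (PL.C (nat_lit 0x9a3196d) (nat_lit 0x0) (nat_lit 0x61609b5da400)
  (PL.C (nat_lit 0x9a5a92a) (nat_lit 0x5cd1be61ca00) (nat_lit 0x0)
  (PL.C (nat_lit 0x9ab35b6) (nat_lit 0x0) (nat_lit 0x10a1961399b00)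
  (PL.C (nat_lit 0x9ac3059) (nat_lit 0x0) (nat_lit 0xc930d9b3000)
  (PL.C (nat_lit 0x9acdcc2) (nat_lit 0x495be57e6f00) (nat_lit 0x0)
  (PL.C (nat_lit 0x9ae0bd7) (nat_lit 0x0) (nat_lit 0x2146babab2e80)
  (PL.C (nat_lit 0x9b107a7) (nat_lit 0x3cc35aa1c340) (nat_lit 0x0) lm_191))))))))))))))))))))

noncomputable def lm_189 : PL :=
  (PL.C (nat_lit 0x945a2b9) (nat_lit 0xa263c7b0cdb80) (nat_lit 0x0)
  (PL.C (nat_lit 0x9476cbb) (nat_lit 0x2f1730df3600) (nat_lit 0x0)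
  (PL.C (nat_lit 0x9477439) (nat_lit 0x0) (nat_lit 0x8cad9e129200)
  (PL.C (nat_lit 0x94c9ca7) (nat_lit 0x0) (nat_lit 0x63e49df5e0700)
  (PL.C (nat_lit 0x94e27e1) (nat_lit 0x0) (nat_lit 0x132dfeace600)
  (PL.C (nat_lit 0x94ece57) (nat_lit 0xa81067b3c41c0) (nat_lit 0x0)
  (PL.C (nat_lit 0x95167d7) (nat_lit 0x0) (nat_lit 0x1be39244af480)
  (PL.C (nat_lit 0x952d01f) (nat_lit 0x0) (nat_lit 0x5f9940bd900)
  (PL.C (nat_lit 0x95758ad) (nat_lit 0x6f07d79217d00) (nat_lit 0x0)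
  (PL.C (nat_lit 0x9576914) (nat_lit 0x40fa1bb2100) (nat_lit 0x0)
  (PL.C (nat_lit 0x95822af) (nat_lit 0x15bbcbaa400) (nat_lit 0x0)
  (PL.C (nat_lit 0x95aecaf) (nat_lit 0x1d978a8aa8100) (nat_lit 0x0)
  (PL.C (nat_lit 0x95f9b51) (nat_lit 0x0) (nat_lit 0xa8f1b523b180)
  (PL.C (nat_lit 0x960a304) (nat_lit 0x2825fb1a8ff80) (nat_lit 0x0)
  (PL.C (nat_lit 0x9611ae1) (nat_lit 0x0) (nat_lit 0x1af7404215880)
  (PL.C (nat_lit 0x962fd55) (nat_lit 0x1a12b02ef6a080) (nat_lit 0x0)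
  (PL.C (nat_lit 0x96930db) (nat_lit 0x1c672f71db00) (nat_lit 0x0)
  (PL.C (nat_lit 0x96c72d6) (nat_lit 0x0) (nat_lit 0x3f4ce989e200)
  (PL.C (nat_lit 0x96d0e7b) (nat_lit 0xc3bb2959800) (nat_lit 0x0)
  (PL.C (nat_lit 0x970374f) (nat_lit 0x0) (nat_lit 0x2d539558eb00) lm_190))))))))))))))))))))

noncomputable def lm_188 : PL :=
  (PL.C (nat_lit 0x90932a4) (nat_lit 0x92205de88400) (nat_lit 0x0)
  (PL.C (nat_lit 0x909d7e2) (nat_lit 0x0) (nat_lit 0x12035a6e7c00)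
  (PL.C (nat_lit 0x9106545) (nat_lit 0x33ce7fbcd000) (nat_lit 0x0)
  (PL.C (nat_lit 0x910d606) (nat_lit 0x205460b2eb00) (nat_lit 0x0)
  (PL.C (nat_lit 0x912a334) (nat_lit 0x1148c4064a00) (nat_lit 0x0)
  (PL.C (nat_lit 0x91ca445) (nat_lit 0x0) (nat_lit 0xd8c6abc55300)
  (PL.C (nat_lit 0x91f0ccb) (nat_lit 0x2f1730df3600) (nat_lit 0x0)
  (PL.C (nat_lit 0x91fd25a) (nat_lit 0x1d094b368780) (nat_lit 0x0)
  (PL.C (nat_lit 0x92133bb) (nat_lit 0x2b13dd3da45c0) (nat_lit 0x0)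
  (PL.C (nat_lit 0x928814d) (nat_lit 0x0) (nat_lit 0x9e18fe384400)
  (PL.C (nat_lit 0x9297b1f) (nat_lit 0x11f9a211c3500) (nat_lit 0x0)
  (PL.C (nat_lit 0x9299439) (nat_lit 0x0) (nat_lit 0x7faafcd9400)
  (PL.C (nat_lit 0x92d16b3) (nat_lit 0x0) (nat_lit 0x764af1c6e00)
  (PL.C (nat_lit 0x9316125) (nat_lit 0x0) (nat_lit 0x3ce221a09700)
  (PL.C (nat_lit 0x933269d) (nat_lit 0x30ba8fb303600) (nat_lit 0x0)
  (PL.C (nat_lit 0x937e4ad) (nat_lit 0x0) (nat_lit 0x5f9940bd900)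
  (PL.C (nat_lit 0x93b9a76) (nat_lit 0x0) (nat_lit 0x6d1c942c06280)
  (PL.C (nat_lit 0x93dc53f) (nat_lit 0x0) (nat_lit 0x28be0a0eb00)
  (PL.C (nat_lit 0x93e7f5e) (nat_lit 0x7d3cf21ca00) (nat_lit 0x0)
  (PL.C (nat_lit 0x9414f75) (nat_lit 0x0) (nat_lit 0x16efca98b400) lm_189))))))))))))))))))))

noncomputable def lm_187 : PL :=
  (PL.C (nat_lit 0x8e58366) (nat_lit 0x25a5fe946e600) (nat_lit 0x0)
  (PL.C (nat_lit 0x8e8bdea) (nat_lit 0x2a4a4598bc00) (nat_lit 0x0)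
  (PL.C (nat_lit 0x8eb28f4) (nat_lit 0x1148c4064a00) (nat_lit 0x0)
  (PL.C (nat_lit 0x8eb888f) (nat_lit 0x0) (nat_lit 0x1a2c0ca292000)
  (PL.C (nat_lit 0x8ec278e) (nat_lit 0x0) (nat_lit 0x2c5c35aed680)
  (PL.C (nat_lit 0x8ef0dfa) (nat_lit 0x2e2d9371c200) (nat_lit 0x0)
  (PL.C (nat_lit 0x8efff71) (nat_lit 0x1597487d0d80) (nat_lit 0x0)
  (PL.C (nat_lit 0x8f20c92) (nat_lit 0x11758bd3a0600) (nat_lit 0x0)
  (PL.C (nat_lit 0x8f467ac) (nat_lit 0x0) (nat_lit 0x1570e8ffd200)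
  (PL.C (nat_lit 0x8f520ff) (nat_lit 0x0) (nat_lit 0x19e73fde6800)
  (PL.C (nat_lit 0x8f5747c) (nat_lit 0x1225b3be60000) (nat_lit 0x0)
  (PL.C (nat_lit 0x8f5d97d) (nat_lit 0x0) (nat_lit 0x1729e591e91bc0)
  (PL.C (nat_lit 0x8f5e6ff) (nat_lit 0x1eacffb174a00) (nat_lit 0x0)
  (PL.C (nat_lit 0x8f731ce) (nat_lit 0x3100be029000) (nat_lit 0x0)
  (PL.C (nat_lit 0x8fc9763) (nat_lit 0xb2fa3799a400) (nat_lit 0x0)
  (PL.C (nat_lit 0x8fe2292) (nat_lit 0x0) (nat_lit 0x157b4b3c5a5380)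
  (PL.C (nat_lit 0x8fed06c) (nat_lit 0x90c06c587100) (nat_lit 0x0)
  (PL.C (nat_lit 0x8feec7a) (nat_lit 0x0) (nat_lit 0x80493b0aa00)
  (PL.C (nat_lit 0x9013953) (nat_lit 0x1a0b481ca80) (nat_lit 0x0)
  (PL.C (nat_lit 0x907c78e) (nat_lit 0x0) (nat_lit 0x41605e826a180) lm_188))))))))))))))))))))

noncomputable def lm_186 : PL :=
  (PL.C (nat_lit 0x8b0c09a) (nat_lit 0x0) (nat_lit 0xb6b265ab5080)
  (PL.C (nat_lit 0x8b1ffa5) (nat_lit 0x0) (nat_lit 0x4870d69dac440)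
  (PL.C (nat_lit 0x8b43a09) (nat_lit 0x0) (nat_lit 0x26c6638746f00)
  (PL.C (nat_lit 0x8b59205) (nat_lit 0x15b4c4532580) (nat_lit 0x0)
  (PL.C (nat_lit 0x8b8f6fa) (nat_lit 0x233b3f251f00) (nat_lit 0x0)
  (PL.C (nat_lit 0x8bb815a) (nat_lit 0x0) (nat_lit 0x41605e826a180)
  (PL.C (nat_lit 0x8bcff6e) (nat_lit 0x2db2da9208000) (nat_lit 0x0)
  (PL.C (nat_lit 0x8c0c301) (nat_lit 0x1a53112e71000) (nat_lit 0x0)
  (PL.C (nat_lit 0x8c22ba4) (nat_lit 0x0) (nat_lit 0x7b6a843a600)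
  (PL.C (nat_lit 0x8c6dfea) (nat_lit 0x0) (nat_lit 0x55d99008ec00)
  (PL.C (nat_lit 0x8c97794) (nat_lit 0x190f8d244400) (nat_lit 0x0)
  (PL.C (nat_lit 0x8ca103f) (nat_lit 0x0) (nat_lit 0x15d550e8c9440)
  (PL.C (nat_lit 0x8cfccf6) (nat_lit 0x80493b0aa00) (nat_lit 0x0)
  (PL.C (nat_lit 0x8d06957) (nat_lit 0xa6e799011080) (nat_lit 0x0)
  (PL.C (nat_lit 0x8d72396) (nat_lit 0x0) (nat_lit 0x1078dae7faa00)
  (PL.C (nat_lit 0x8db65cf) (nat_lit 0x39e62f5ec000) (nat_lit 0x0)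
  (PL.C (nat_lit 0x8dc8199) (nat_lit 0x0) (nat_lit 0x41b4885db000)
  (PL.C (nat_lit 0x8dcd4cc) (nat_lit 0xf6d50874c00) (nat_lit 0x0)
  (PL.C (nat_lit 0x8de80fe) (nat_lit 0x2406b4dcf800) (nat_lit 0x0)
  (PL.C (nat_lit 0x8e42543) (nat_lit 0x0) (nat_lit 0xc62dd67da7380) lm_187))))))))))))))))))))

noncomputable def lm_185 : PL :=
  (PL.C (nat_lit 0x87e6e5b) (nat_lit 0x0) (nat_lit 0x1729e591e91bc0)
  (PL.C (nat_lit 0x88322af) (nat_lit 0x1ef4015fb900) (nat_lit 0x0)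
  (PL.C (nat_lit 0x88490d3) (nat_lit 0x28be0a0eb00) (nat_lit 0x0)
  (PL.C (nat_lit 0x8849d5e) (nat_lit 0x89c7ee06cbc0) (nat_lit 0x0)
  (PL.C (nat_lit 0x886a1cf) (nat_lit 0x1d28c2513800) (nat_lit 0x0)
  (PL.C (nat_lit 0x8876551) (nat_lit 0x1af0cc519f640) (nat_lit 0x0)
  (PL.C (nat_lit 0x889e141) (nat_lit 0x0) (nat_lit 0x114e0f340a300)
  (PL.C (nat_lit 0x88bd684) (nat_lit 0x0) (nat_lit 0xafe707a2500)
  (PL.C (nat_lit 0x88c43c1) (nat_lit 0x0) (nat_lit 0x11247123e280)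
  (PL.C (nat_lit 0x890b872) (nat_lit 0x0) (nat_lit 0x1b97a3149a00)
  (PL.C (nat_lit 0x894c29b) (nat_lit 0x0) (nat_lit 0x35e7f723400)
  (PL.C (nat_lit 0x897a2ef) (nat_lit 0x8738eb8f7e00) (nat_lit 0x0)
  (PL.C (nat_lit 0x89f0003) (nat_lit 0xbb1e575e91d40) (nat_lit 0x0)
  (PL.C (nat_lit 0x89f94e6) (nat_lit 0x0) (nat_lit 0xe1646beba300)
  (PL.C (nat_lit 0x8a182d3) (nat_lit 0x7c3f6dd31d40) (nat_lit 0x0)
  (PL.C (nat_lit 0x8a8bed1) (nat_lit 0x7e64d6ebf00) (nat_lit 0x0)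
  (PL.C (nat_lit 0x8a8d47a) (nat_lit 0xfcb0eba5c00) (nat_lit 0x0)
  (PL.C (nat_lit 0x8a8f3a1) (nat_lit 0x0) (nat_lit 0x6c362f91bcd00)
  (PL.C (nat_lit 0x8ac963f) (nat_lit 0x0) (nat_lit 0x1c672f71db00)
  (PL.C (nat_lit 0x8acbf8b) (nat_lit 0xa3152aa94100) (nat_lit 0x0) lm_186))))))))))))))))))))

noncomputable def lm_184 : PL :=
  (PL.C (nat_lit 0x855468f) (nat_lit 0x0) (nat_lit 0x3ffae160b000)
  (PL.C (nat_lit 0x859923f) (nat_lit 0x28be0a0eb00) (nat_lit 0x0)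
  (PL.C (nat_lit 0x85ae166) (nat_lit 0x1dd500c6d6240) (nat_lit 0x0)
  (PL.C (nat_lit 0x85bdc83) (nat_lit 0x0) (nat_lit 0x4013475ae700)
  (PL.C (nat_lit 0x8600b7d) (nat_lit 0x0) (nat_lit 0x117865bf8d00)
  (PL.C (nat_lit 0x8642cbc) (nat_lit 0x0) (nat_lit 0xf02fb24fb00)
  (PL.C (nat_lit 0x8648662) (nat_lit 0x0) (nat_lit 0x88ab25c43db80)
  (PL.C (nat_lit 0x865584b) (nat_lit 0x0) (nat_lit 0x1f2678fa55100)
  (PL.C (nat_lit 0x867a3b9) (nat_lit 0x0) (nat_lit 0x3ffae160b000)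
  (PL.C (nat_lit 0x8680cd1) (nat_lit 0xbef333ead3b00) (nat_lit 0x0)
  (PL.C (nat_lit 0x86ce85e) (nat_lit 0x0) (nat_lit 0x1861b6d91b80)
  (PL.C (nat_lit 0x86d4aea) (nat_lit 0x0) (nat_lit 0x11e79e9141a2c0)
  (PL.C (nat_lit 0x86f2dbe) (nat_lit 0x0) (nat_lit 0x110e70c2f800)
  (PL.C (nat_lit 0x872feb9) (nat_lit 0x6f07d79217d00) (nat_lit 0x0)
  (PL.C (nat_lit 0x873bc6d) (nat_lit 0x0) (nat_lit 0x2f1730df3600)
  (PL.C (nat_lit 0x8773947) (nat_lit 0x0) (nat_lit 0x8087e3a39f6c0)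
  (PL.C (nat_lit 0x87b65f4) (nat_lit 0x2825fb1a8ff80) (nat_lit 0x0)
  (PL.C (nat_lit 0x87b9677) (nat_lit 0x0) (nat_lit 0x31b2a0b23bd80)
  (PL.C (nat_lit 0x87d86c1) (nat_lit 0x0) (nat_lit 0x9c444489f100)
  (PL.C (nat_lit 0x87dfee1) (nat_lit 0x1f3dc6253000) (nat_lit 0x0) lm_185))))))))))))))))))))

noncomputable def lm_183 : PL :=
  (PL.C (nat_lit 0x81d1917) (nat_lit 0x28c01ddf3800) (nat_lit 0x0)
  (PL.C (nat_lit 0x8230412) (nat_lit 0x0) (nat_lit 0x2f55c0d89100)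
  (PL.C (nat_lit 0x824c752) (nat_lit 0xfab884494200) (nat_lit 0x0)
  (PL.C (nat_lit 0x82b0d6a) (nat_lit 0x0) (nat_lit 0x6d1c942c06280)
  (PL.C (nat_lit 0x82bbe0e) (nat_lit 0xeb19e4471f00) (nat_lit 0x0)
  (PL.C (nat_lit 0x82bdb73) (nat_lit 0x0) (nat_lit 0x192416b061180)
  (PL.C (nat_lit 0x82c4f14) (nat_lit 0x1225b3be60000) (nat_lit 0x0)
  (PL.C (nat_lit 0x835308e) (nat_lit 0x0) (nat_lit 0x1d3ad94d4af00)
  (PL.C (nat_lit 0x83a70a2) (nat_lit 0x67851822d80) (nat_lit 0x0)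
  (PL.C (nat_lit 0x83b5116) (nat_lit 0xf0c2e2819200) (nat_lit 0x0)
  (PL.C (nat_lit 0x83edccd) (nat_lit 0xce1cc5fd23ec0) (nat_lit 0x0)
  (PL.C (nat_lit 0x83fe03e) (nat_lit 0x57e943d33680) (nat_lit 0x0)
  (PL.C (nat_lit 0x843a72c) (nat_lit 0x0) (nat_lit 0x1148c4064a00)
  (PL.C (nat_lit 0x8499915) (nat_lit 0x0) (nat_lit 0x4ab631b76d80)
  (PL.C (nat_lit 0x84dbeeb) (nat_lit 0x8266c5fd800) (nat_lit 0x0)
  (PL.C (nat_lit 0x84e5b1b) (nat_lit 0x1f3dc6253000) (nat_lit 0x0)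
  (PL.C (nat_lit 0x850a751) (nat_lit 0x32716aebfd80) (nat_lit 0x0)
  (PL.C (nat_lit 0x851d724) (nat_lit 0x0) (nat_lit 0xf0886ad2080)
  (PL.C (nat_lit 0x8541bd4) (nat_lit 0x0) (nat_lit 0x92205de88400)
  (PL.C (nat_lit 0x854d0af) (nat_lit 0xab43faf63d00) (nat_lit 0x0) lm_184))))))))))))))))))))

noncomputable def lm_182 : PL :=
  (PL.C (nat_lit 0x7f4c68d) (nat_lit 0x72ed05436b00) (nat_lit 0x0)
  (PL.C (nat_lit 0x7f5581a) (nat_lit 0x7c9be4e3f600) (nat_lit 0x0)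
  (PL.C (nat_lit 0x7fa0823) (nat_lit 0x36557d29a000) (nat_lit 0x0)
  (PL.C (nat_lit 0x7fe7daf) (nat_lit 0x0) (nat_lit 0x3e0f760599700)
  (PL.C (nat_lit 0x7ff07be) (nat_lit 0x673a2c90a100) (nat_lit 0x0)
  (PL.C (nat_lit 0x800d1bf) (nat_lit 0xa1def23c2c9c0) (nat_lit 0x0)
  (PL.C (nat_lit 0x8030842) (nat_lit 0x2771da77ad80) (nat_lit 0x0)
  (PL.C (nat_lit 0x8048372) (nat_lit 0xfc48605872300) (nat_lit 0x0)
  (PL.C (nat_lit 0x80627f7) (nat_lit 0x0) (nat_lit 0x1be39244af480)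
  (PL.C (nat_lit 0x8079b22) (nat_lit 0x0) (nat_lit 0x55d99008ec00)
  (PL.C (nat_lit 0x807b805) (nat_lit 0x2af2204ec3880) (nat_lit 0x0)
  (PL.C (nat_lit 0x808c76c) (nat_lit 0x2ab8199656800) (nat_lit 0x0)
  (PL.C (nat_lit 0x80acb77) (nat_lit 0x0) (nat_lit 0xc62dd67da7380)
  (PL.C (nat_lit 0x80c47d6) (nat_lit 0x0) (nat_lit 0x10152663a4700)
  (PL.C (nat_lit 0x80ef3c2) (nat_lit 0x0) (nat_lit 0x60d57b1de000)
  (PL.C (nat_lit 0x8101b99) (nat_lit 0x0) (nat_lit 0x29ede3b91cac0)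
  (PL.C (nat_lit 0x812fc3e) (nat_lit 0x0) (nat_lit 0xd1233733280)
  (PL.C (nat_lit 0x8136b79) (nat_lit 0x25694370ba580) (nat_lit 0x0)
  (PL.C (nat_lit 0x814b02e) (nat_lit 0x0) (nat_lit 0x1d094b368780)
  (PL.C (nat_lit 0x81a738c) (nat_lit 0x92205de88400) (nat_lit 0x0) lm_183))))))))))))))))))))

noncomputable def lm_181 : PL :=
  (PL.C (nat_lit 0x7c59773) (nat_lit 0x56cc68965600) (nat_lit 0x0)
  (PL.C (nat_lit 0x7c81e21) (nat_lit 0x212e6173ef00) (nat_lit 0x0)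
  (PL.C (nat_lit 0x7cab9dd) (nat_lit 0xef3ba713880) (nat_lit 0x0)
  (PL.C (nat_lit 0x7cdb156) (nat_lit 0x25a5fe946e600) (nat_lit 0x0)
  (PL.C (nat_lit 0x7cded3d) (nat_lit 0x764af1c6e00) (nat_lit 0x0)
  (PL.C (nat_lit 0x7d540dd) (nat_lit 0x13607773ec1180) (nat_lit 0x0)
  (PL.C (nat_lit 0x7d99b83) (nat_lit 0x0) (nat_lit 0x1af7404215880)
  (PL.C (nat_lit 0x7dae925) (nat_lit 0xea1b473a00) (nat_lit 0x0)
  (PL.C (nat_lit 0x7dda773) (nat_lit 0x0) (nat_lit 0x21d1029979700)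
  (PL.C (nat_lit 0x7df73a5) (nat_lit 0x0) (nat_lit 0x10d1945474200)
  (PL.C (nat_lit 0x7e04a67) (nat_lit 0x1196183b9ab00) (nat_lit 0x0)
  (PL.C (nat_lit 0x7e3645b) (nat_lit 0x0) (nat_lit 0xe52a04bf680)
  (PL.C (nat_lit 0x7e4c3d2) (nat_lit 0x0) (nat_lit 0x3f0d8df63680)
  (PL.C (nat_lit 0x7e7e52b) (nat_lit 0x0) (nat_lit 0x2f1730df3600)
  (PL.C (nat_lit 0x7e89a75) (nat_lit 0xac26b9af2d00) (nat_lit 0x0)
  (PL.C (nat_lit 0x7eae825) (nat_lit 0x0) (nat_lit 0x63e49df5e0700)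
  (PL.C (nat_lit 0x7ec7f69) (nat_lit 0xacdb2f52e100) (nat_lit 0x0)
  (PL.C (nat_lit 0x7f13ffa) (nat_lit 0x4a529a8c00) (nat_lit 0x0)
  (PL.C (nat_lit 0x7f1bb87) (nat_lit 0x0) (nat_lit 0x3b1eaedd5b00)
  (PL.C (nat_lit 0x7f4ac0e) (nat_lit 0xbd15048202400) (nat_lit 0x0) lm_182))))))))))))))))))))

noncomputable def lm_180 : PL :=
  (PL.C (nat_lit 0x797ef1c) (nat_lit 0x90c06c587100) (nat_lit 0x0)
  (PL.C (nat_lit 0x7998166) (nat_lit 0x0) (nat_lit 0xc01b3055bfc0)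
  (PL.C (nat_lit 0x799f7df) (nat_lit 0x0) (nat_lit 0x1597487d0d80)
  (PL.C (nat_lit 0x79c8423) (nat_lit 0x1a3fcc5c8fc0) (nat_lit 0x0)
  (PL.C (nat_lit 0x79e1e91) (nat_lit 0x57e25a93c8a00) (nat_lit 0x0)
  (PL.C (nat_lit 0x7a20eae) (nat_lit 0xb77fdf06d300) (nat_lit 0x0)
  (PL.C (nat_lit 0x7a55861) (nat_lit 0x0) (nat_lit 0x15bd342c1b200)
  (PL.C (nat_lit 0x7a8ab04) (nat_lit 0x1148c4064a00) (nat_lit 0x0)
  (PL.C (nat_lit 0x7acf314) (nat_lit 0x8be5619def400) (nat_lit 0x0)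
  (PL.C (nat_lit 0x7ae394c) (nat_lit 0x0) (nat_lit 0x1060107cd000)
  (PL.C (nat_lit 0x7af4cc9) (nat_lit 0x15bbcbaa400) (nat_lit 0x0)
  (PL.C (nat_lit 0x7b0a382) (nat_lit 0xc01b3055bfc0) (nat_lit 0x0)
  (PL.C (nat_lit 0x7b34947) (nat_lit 0x0) (nat_lit 0x2b807dba080)
  (PL.C (nat_lit 0x7b50fde) (nat_lit 0xe3c5089ba300) (nat_lit 0x0)
  (PL.C (nat_lit 0x7b631d7) (nat_lit 0x0) (nat_lit 0x15bd342c1b200)
  (PL.C (nat_lit 0x7b9b38b) (nat_lit 0x11954f7dcda00) (nat_lit 0x0)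
  (PL.C (nat_lit 0x7baeb74) (nat_lit 0x0) (nat_lit 0x1148c4064a00)
  (PL.C (nat_lit 0x7bddd4c) (nat_lit 0x8be5619def400) (nat_lit 0x0)
  (PL.C (nat_lit 0x7c03c2f) (nat_lit 0x0) (nat_lit 0x55a4217bf000)
  (PL.C (nat_lit 0x7c29e79) (nat_lit 0x2cef482ac7680) (nat_lit 0x0) lm_181))))))))))))))))))))

noncomputable def lm_179 : PL :=
  (PL.C (nat_lit 0x75a1ad9) (nat_lit 0xca8e449c9800) (nat_lit 0x0)
  (PL.C (nat_lit 0x75ae25e) (nat_lit 0x198a73d9e1000) (nat_lit 0x0)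
  (PL.C (nat_lit 0x75c91b5) (nat_lit 0x0) (nat_lit 0x1365a739a4fc0)
  (PL.C (nat_lit 0x75cf862) (nat_lit 0x5e70ee3a8280) (nat_lit 0x0)
  (PL.C (nat_lit 0x7656134) (nat_lit 0x8861207a9e000) (nat_lit 0x0)
  (PL.C (nat_lit 0x76b677b) (nat_lit 0x0) (nat_lit 0x2b8d239348700)
  (PL.C (nat_lit 0x7703f4e) (nat_lit 0x1153bc6b8200) (nat_lit 0x0)
  (PL.C (nat_lit 0x771b22a) (nat_lit 0x0) (nat_lit 0x2f55c0d89100)
  (PL.C (nat_lit 0x772bd96) (nat_lit 0x1d094b368780) (nat_lit 0x0)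
  (PL.C (nat_lit 0x7751073) (nat_lit 0x2f8dddbf5c800) (nat_lit 0x0)
  (PL.C (nat_lit 0x7799397) (nat_lit 0xb32921820480) (nat_lit 0x0)
  (PL.C (nat_lit 0x77a353d) (nat_lit 0x15bbcbaa400) (nat_lit 0x0)
  (PL.C (nat_lit 0x781c00a) (nat_lit 0x4375fd4fd0880) (nat_lit 0x0)
  (PL.C (nat_lit 0x782937e) (nat_lit 0x7d3cf21ca00) (nat_lit 0x0)
  (PL.C (nat_lit 0x783087e) (nat_lit 0xb83a8be0a00) (nat_lit 0x0)
  (PL.C (nat_lit 0x78757c4) (nat_lit 0x1148c4064a00) (nat_lit 0x0)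
  (PL.C (nat_lit 0x78b861a) (nat_lit 0x0) (nat_lit 0x4e7e52ec4e00)
  (PL.C (nat_lit 0x790693b) (nat_lit 0x1eacffb174a00) (nat_lit 0x0)
  (PL.C (nat_lit 0x792f9d2) (nat_lit 0x0) (nat_lit 0x32eddd8c8db00)
  (PL.C (nat_lit 0x7975c5a) (nat_lit 0xbd15048202400) (nat_lit 0x0) lm_180))))))))))))))))))))

noncomputable def lm_178 : PL :=
  (PL.C (nat_lit 0x739a7b1) (nat_lit 0x0) (nat_lit 0x1bbc4811ce00)
  (PL.C (nat_lit 0x739e80a) (nat_lit 0x0) (nat_lit 0x98972cc25180)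
  (PL.C (nat_lit 0x73a0209) (nat_lit 0x0) (nat_lit 0x329f1a1f16b240)
  (PL.C (nat_lit 0x73c67ee) (nat_lit 0x0) (nat_lit 0x4cddfd1fe00)
  (PL.C (nat_lit 0x73f3a31) (nat_lit 0xa5aa28d3ea00) (nat_lit 0x0)
  (PL.C (nat_lit 0x7436ab1) (nat_lit 0x0) (nat_lit 0x13937bc61b4980)
  (PL.C (nat_lit 0x7440dc5) (nat_lit 0x0) (nat_lit 0x36557d29a000)
  (PL.C (nat_lit 0x744c23a) (nat_lit 0x0) (nat_lit 0x1a9b5ae610800)
  (PL.C (nat_lit 0x7466f54) (nat_lit 0x255106516400) (nat_lit 0x0)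
  (PL.C (nat_lit 0x7470d4f) (nat_lit 0x12e2c18d9c3d00) (nat_lit 0x0)
  (PL.C (nat_lit 0x7478afe) (nat_lit 0x0) (nat_lit 0x730058eb8400)
  (PL.C (nat_lit 0x74b34df) (nat_lit 0xb65dfaaff00) (nat_lit 0x0)
  (PL.C (nat_lit 0x74c5a22) (nat_lit 0x0) (nat_lit 0x1b97a3149a00)
  (PL.C (nat_lit 0x74cdf99) (nat_lit 0x25b928d19000) (nat_lit 0x0)
  (PL.C (nat_lit 0x74f73e5) (nat_lit 0x13607773ec1180) (nat_lit 0x0)
  (PL.C (nat_lit 0x751ccda) (nat_lit 0x0) (nat_lit 0x1e0c8d76b580)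
  (PL.C (nat_lit 0x75275ec) (nat_lit 0x0) (nat_lit 0xd6fdb9201f00)
  (PL.C (nat_lit 0x752857b) (nat_lit 0x3b1eaedd5b00) (nat_lit 0x0)
  (PL.C (nat_lit 0x754f3fb) (nat_lit 0x62e5da5f6e00) (nat_lit 0x0)
  (PL.C (nat_lit 0x75716f9) (nat_lit 0x12e2c18d9c3d00) (nat_lit 0x0) lm_179))))))))))))))))))))

noncomputable def lm_177 : PL :=
  (PL.C (nat_lit 0x70e2fcc) (nat_lit 0x7a52e17f0180) (nat_lit 0x0)
  (PL.C (nat_lit 0x70ece4f) (nat_lit 0x7014f7b53200) (nat_lit 0x0)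
  (PL.C (nat_lit 0x70eee7e) (nat_lit 0x0) (nat_lit 0x205460b2eb00)
  (PL.C (nat_lit 0x71309c1) (nat_lit 0x15bbcbaa400) (nat_lit 0x0)
  (PL.C (nat_lit 0x713741c) (nat_lit 0xf0886ad2080) (nat_lit 0x0)
  (PL.C (nat_lit 0x72111de) (nat_lit 0x0) (nat_lit 0x60d57b1de000)
  (PL.C (nat_lit 0x723eb83) (nat_lit 0x0) (nat_lit 0x2ac0685f200)
  (PL.C (nat_lit 0x7292893) (nat_lit 0x0) (nat_lit 0x7a3076ef1980)
  (PL.C (nat_lit 0x729de57) (nat_lit 0x0) (nat_lit 0x4b7251a32000)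
  (PL.C (nat_lit 0x72acb85) (nat_lit 0x3ee57b663240) (nat_lit 0x0)
  (PL.C (nat_lit 0x72b3e34) (nat_lit 0x1edaa10e9800) (nat_lit 0x0)
  (PL.C (nat_lit 0x72b8f07) (nat_lit 0xd2af42c41ef80) (nat_lit 0x0)
  (PL.C (nat_lit 0x72f87ab) (nat_lit 0x27a8293e3e300) (nat_lit 0x0)
  (PL.C (nat_lit 0x730c756) (nat_lit 0x6822593bde340) (nat_lit 0x0)
  (PL.C (nat_lit 0x732233d) (nat_lit 0x62e5da5f6e00) (nat_lit 0x0)
  (PL.C (nat_lit 0x7323056) (nat_lit 0x0) (nat_lit 0x88ab25c43db80)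
  (PL.C (nat_lit 0x7327b4b) (nat_lit 0x0) (nat_lit 0x8266c5fd800)
  (PL.C (nat_lit 0x7332055) (nat_lit 0x1af0cc519f640) (nat_lit 0x0)
  (PL.C (nat_lit 0x734e4df) (nat_lit 0x0) (nat_lit 0x2d539558eb00)
  (PL.C (nat_lit 0x7373c85) (nat_lit 0xc3357875f780) (nat_lit 0x0) lm_178))))))))))))))))))))

noncomputable def lm_176 : PL :=
  (PL.C (nat_lit 0x6de63da) (nat_lit 0x0) (nat_lit 0x2f55c0d89100)
  (PL.C (nat_lit 0x6dfba4e) (nat_lit 0x0) (nat_lit 0x2214c4441b00)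
  (PL.C (nat_lit 0x6e14407) (nat_lit 0x17d1426f59fc0) (nat_lit 0x0)
  (PL.C (nat_lit 0x6e45834) (nat_lit 0x0) (nat_lit 0x92205de88400)
  (PL.C (nat_lit 0x6e52c92) (nat_lit 0x48da8f8b89880) (nat_lit 0x0)
  (PL.C (nat_lit 0x6e5da7f) (nat_lit 0x4cbb9da6ce300) (nat_lit 0x0)
  (PL.C (nat_lit 0x6e71992) (nat_lit 0x0) (nat_lit 0x7050399d4a00)
  (PL.C (nat_lit 0x6eb0b21) (nat_lit 0xc3357875f780) (nat_lit 0x0)
  (PL.C (nat_lit 0x6edbb46) (nat_lit 0x0) (nat_lit 0x135bef6cf55800)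
  (PL.C (nat_lit 0x6ee6891) (nat_lit 0x2d617ca07c500) (nat_lit 0x0)
  (PL.C (nat_lit 0x6f14171) (nat_lit 0x0) (nat_lit 0x175af4578580)
  (PL.C (nat_lit 0x6f9f0dc) (nat_lit 0x0) (nat_lit 0x1148c4064a00)
  (PL.C (nat_lit 0x700e832) (nat_lit 0x163066ff78a300) (nat_lit 0x0)
  (PL.C (nat_lit 0x70394c7) (nat_lit 0xadde5d52000) (nat_lit 0x0)
  (PL.C (nat_lit 0x704ea55) (nat_lit 0x2cef482ac7680) (nat_lit 0x0)
  (PL.C (nat_lit 0x7062a1e) (nat_lit 0x738392ccb800) (nat_lit 0x0)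
  (PL.C (nat_lit 0x7086dab) (nat_lit 0x0) (nat_lit 0x9e946bab2a40)
  (PL.C (nat_lit 0x70a0682) (nat_lit 0x0) (nat_lit 0x44a14c8960980)
  (PL.C (nat_lit 0x70c717b) (nat_lit 0x4ab631b76d80) (nat_lit 0x0)
  (PL.C (nat_lit 0x70d99b5) (nat_lit 0x14b2427539e80) (nat_lit 0x0) lm_177))))))))))))))))))))

noncomputable def lm_175 : PL :=
  (PL.C (nat_lit 0x6a61043) (nat_lit 0x0) (nat_lit 0x431e8ec526880)
  (PL.C (nat_lit 0x6a9bef7) (nat_lit 0x0) (nat_lit 0x7009c378a400)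
  (PL.C (nat_lit 0x6af8d12) (nat_lit 0x0) (nat_lit 0x11e79e9141a2c0)
  (PL.C (nat_lit 0x6b2c3b5) (nat_lit 0x0) (nat_lit 0x322bae051840)
  (PL.C (nat_lit 0x6b58415) (nat_lit 0xe52a04bf680) (nat_lit 0x0)
  (PL.C (nat_lit 0x6b744c6) (nat_lit 0x0) (nat_lit 0x157b4b3c5a5380)
  (PL.C (nat_lit 0x6b7d602) (nat_lit 0x7c9be4e3f600) (nat_lit 0x0)
  (PL.C (nat_lit 0x6ba167a) (nat_lit 0x1b97a3149a00) (nat_lit 0x0)
  (PL.C (nat_lit 0x6be48de) (nat_lit 0x1dd500c6d6240) (nat_lit 0x0)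
  (PL.C (nat_lit 0x6bf8eab) (nat_lit 0x0) (nat_lit 0xe1eba63bb5180)
  (PL.C (nat_lit 0x6c00336) (nat_lit 0x673a2c90a100) (nat_lit 0x0)
  (PL.C (nat_lit 0x6c3afdc) (nat_lit 0x5b0c1bac5d00) (nat_lit 0x0)
  (PL.C (nat_lit 0x6c54d6f) (nat_lit 0x0) (nat_lit 0x5fdd16a0555c0)
  (PL.C (nat_lit 0x6c758d9) (nat_lit 0x0) (nat_lit 0xb4b7626f96580)
  (PL.C (nat_lit 0x6c9f193) (nat_lit 0x1b6ac73080c00) (nat_lit 0x0)
  (PL.C (nat_lit 0x6cc7287) (nat_lit 0x0) (nat_lit 0x55a4217bf000)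
  (PL.C (nat_lit 0x6ce6dbd) (nat_lit 0x0) (nat_lit 0x1f6a0c487e80)
  (PL.C (nat_lit 0x6cff3b7) (nat_lit 0xea1b473a00) (nat_lit 0x0)
  (PL.C (nat_lit 0x6d0f27a) (nat_lit 0x6822593bde340) (nat_lit 0x0)
  (PL.C (nat_lit 0x6db6e01) (nat_lit 0x15bbcbaa400) (nat_lit 0x0) lm_176))))))))))))))))))))

noncomputable def lm_174 : PL :=
  (PL.C (nat_lit 0x68b84b6) (nat_lit 0x2e2d9371c200) (nat_lit 0x0)
  (PL.C (nat_lit 0x68d041d) (nat_lit 0x32716aebfd80) (nat_lit 0x0)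
  (PL.C (nat_lit 0x68ecb4a) (nat_lit 0x80493b0aa00) (nat_lit 0x0)
  (PL.C (nat_lit 0x68f867f) (nat_lit 0x61cd147e200) (nat_lit 0x0)
  (PL.C (nat_lit 0x68fcdbe) (nat_lit 0x3d02379808ac0) (nat_lit 0x0)
  (PL.C (nat_lit 0x691a865) (nat_lit 0x129d185e5200) (nat_lit 0x0)
  (PL.C (nat_lit 0x69312d2) (nat_lit 0x5e2cc773d0a00) (nat_lit 0x0)
  (PL.C (nat_lit 0x693dc11) (nat_lit 0x11954f7dcda00) (nat_lit 0x0)
  (PL.C (nat_lit 0x6959786) (nat_lit 0x0) (nat_lit 0xefece52dcb80)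
  (PL.C (nat_lit 0x6964b22) (nat_lit 0x660b9beb19fc0) (nat_lit 0x0)
  (PL.C (nat_lit 0x6965d2e) (nat_lit 0x7cc76c308800) (nat_lit 0x0)
  (PL.C (nat_lit 0x697a49f) (nat_lit 0x0) (nat_lit 0xca7b6f45e600)
  (PL.C (nat_lit 0x699f11a) (nat_lit 0x5f6c2c6a9080) (nat_lit 0x0)
  (PL.C (nat_lit 0x69cbf11) (nat_lit 0x0) (nat_lit 0x6c362f91bcd00)
  (PL.C (nat_lit 0x69d3ee6) (nat_lit 0x0) (nat_lit 0x672582ae4d40)
  (PL.C (nat_lit 0x69e9d4f) (nat_lit 0x53fb567b840) (nat_lit 0x0)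
  (PL.C (nat_lit 0x6a10586) (nat_lit 0x4a529a8c00) (nat_lit 0x0)
  (PL.C (nat_lit 0x6a11d5f) (nat_lit 0xc5342c02c5e40) (nat_lit 0x0)
  (PL.C (nat_lit 0x6a3d67f) (nat_lit 0x6303250ece380) (nat_lit 0x0)
  (PL.C (nat_lit 0x6a55af9) (nat_lit 0x0) (nat_lit 0x2b807dba080) lm_175))))))))))))))))))))

noncomputable def lm_173 : PL :=
  (PL.C (nat_lit 0x669201b) (nat_lit 0x25f6991eb8f00) (nat_lit 0x0)
  (PL.C (nat_lit 0x66a3d85) (nat_lit 0x92a6ea5400) (nat_lit 0x0)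
  (PL.C (nat_lit 0x66cbb9e) (nat_lit 0x0) (nat_lit 0x3b4bcd86b7400)
  (PL.C (nat_lit 0x66cd9ef) (nat_lit 0x415019905b00) (nat_lit 0x0)
  (PL.C (nat_lit 0x66d011f) (nat_lit 0x4ecda84d99400) (nat_lit 0x0)
  (PL.C (nat_lit 0x66d8c15) (nat_lit 0x1423dbd5e900) (nat_lit 0x0)
  (PL.C (nat_lit 0x671a537) (nat_lit 0x0) (nat_lit 0x15bbcbaa400)
  (PL.C (nat_lit 0x672cae6) (nat_lit 0x2a4a4598bc00) (nat_lit 0x0)
  (PL.C (nat_lit 0x6741d1d) (nat_lit 0x0) (nat_lit 0x25b928d19000)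
  (PL.C (nat_lit 0x676051a) (nat_lit 0xefece52dcb80) (nat_lit 0x0)
  (PL.C (nat_lit 0x679cca1) (nat_lit 0x0) (nat_lit 0xc577aef1548c0)
  (PL.C (nat_lit 0x68012a3) (nat_lit 0x0) (nat_lit 0x10d1945474200)
  (PL.C (nat_lit 0x6823b09) (nat_lit 0xaa2ea5c8680) (nat_lit 0x0)
  (PL.C (nat_lit 0x682d6c2) (nat_lit 0x464c3a9954900) (nat_lit 0x0)
  (PL.C (nat_lit 0x6830a46) (nat_lit 0x0) (nat_lit 0x135bef6cf55800)
  (PL.C (nat_lit 0x6857cf7) (nat_lit 0xef3ba713880) (nat_lit 0x0)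
  (PL.C (nat_lit 0x6868444) (nat_lit 0x0) (nat_lit 0x1148c4064a00)
  (PL.C (nat_lit 0x688b434) (nat_lit 0x58b882580) (nat_lit 0x0)
  (PL.C (nat_lit 0x6893607) (nat_lit 0x0) (nat_lit 0x15bbcbaa400)
  (PL.C (nat_lit 0x68b0a4b) (nat_lit 0x87f1f25d9780) (nat_lit 0x0) lm_174))))))))))))))))))))

noncomputable def lm_172 : PL :=
  (PL.C (nat_lit 0x631f627) (nat_lit 0x813fa58f6180) (nat_lit 0x0)
  (PL.C (nat_lit 0x6323e9d) (nat_lit 0xbb1e575e91d40) (nat_lit 0x0)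
  (PL.C (nat_lit 0x633131a) (nat_lit 0x249dfabb11080) (nat_lit 0x0)
  (PL.C (nat_lit 0x6341a96) (nat_lit 0x0) (nat_lit 0xf4699199d00)
  (PL.C (nat_lit 0x6360de9) (nat_lit 0x1133d7f28700) (nat_lit 0x0)
  (PL.C (nat_lit 0x636453a) (nat_lit 0x0) (nat_lit 0x8fb839b69f00)
  (PL.C (nat_lit 0x637356a) (nat_lit 0xc29ca290b80) (nat_lit 0x0)
  (PL.C (nat_lit 0x63a3b1e) (nat_lit 0x0) (nat_lit 0x7af19103c7780)
  (PL.C (nat_lit 0x63ac1ca) (nat_lit 0x0) (nat_lit 0x2d613484400)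
  (PL.C (nat_lit 0x63c9dca) (nat_lit 0x54fb57ad23280) (nat_lit 0x0)
  (PL.C (nat_lit 0x640bc96) (nat_lit 0x1281cccc2ea40) (nat_lit 0x0)
  (PL.C (nat_lit 0x64364a7) (nat_lit 0x0) (nat_lit 0x2b8d239348700)
  (PL.C (nat_lit 0x6462092) (nat_lit 0x4442d6b29c80) (nat_lit 0x0)
  (PL.C (nat_lit 0x648b452) (nat_lit 0x0) (nat_lit 0x2f55c0d89100)
  (PL.C (nat_lit 0x64acf8a) (nat_lit 0x36afba178400) (nat_lit 0x0)
  (PL.C (nat_lit 0x64d8563) (nat_lit 0x1123bf13ee500) (nat_lit 0x0)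
  (PL.C (nat_lit 0x64f666c) (nat_lit 0x0) (nat_lit 0xafe707a2500)
  (PL.C (nat_lit 0x652016d) (nat_lit 0x0) (nat_lit 0x15bbcbaa400)
  (PL.C (nat_lit 0x65641b2) (nat_lit 0x0) (nat_lit 0x79396e6701080)
  (PL.C (nat_lit 0x65756f6) (nat_lit 0x0) (nat_lit 0x81ad63c49180) lm_173))))))))))))))))))))

noncomputable def lm_171 : PL :=
  (PL.C (nat_lit 0x613182e) (nat_lit 0x0) (nat_lit 0x11a40952aa2380)
  (PL.C (nat_lit 0x614b332) (nat_lit 0x4453069ab300) (nat_lit 0x0)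
  (PL.C (nat_lit 0x619b1ed) (nat_lit 0x969a21084dc880) (nat_lit 0x0)
  (PL.C (nat_lit 0x61b00de) (nat_lit 0x0) (nat_lit 0x1078dae7faa00)
  (PL.C (nat_lit 0x61ba76a) (nat_lit 0xb77fdf06d300) (nat_lit 0x0)
  (PL.C (nat_lit 0x61bb826) (nat_lit 0x5f6c2c6a9080) (nat_lit 0x0)
  (PL.C (nat_lit 0x61e0f22) (nat_lit 0x0) (nat_lit 0xfb7d8a35a80)
  (PL.C (nat_lit 0x61e48f3) (nat_lit 0x0) (nat_lit 0x61609b5da400)
  (PL.C (nat_lit 0x620eb6e) (nat_lit 0x1e5914d3a000) (nat_lit 0x0)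
  (PL.C (nat_lit 0x621a335) (nat_lit 0x8ad28905f7f80) (nat_lit 0x0)
  (PL.C (nat_lit 0x62219be) (nat_lit 0x3beb1ae4e7c40) (nat_lit 0x0)
  (PL.C (nat_lit 0x6235eab) (nat_lit 0x0) (nat_lit 0x1133d7f28700)
  (PL.C (nat_lit 0x624b4cb) (nat_lit 0x0) (nat_lit 0x4870d69dac440)
  (PL.C (nat_lit 0x625431e) (nat_lit 0xc29ca290b80) (nat_lit 0x0)
  (PL.C (nat_lit 0x628369b) (nat_lit 0x14b2427539e80) (nat_lit 0x0)
  (PL.C (nat_lit 0x6292e2a) (nat_lit 0x2e2d9371c200) (nat_lit 0x0)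
  (PL.C (nat_lit 0x62a46ef) (nat_lit 0xc7153399a1780) (nat_lit 0x0)
  (PL.C (nat_lit 0x62b8a4e) (nat_lit 0x0) (nat_lit 0x30c36db23700)
  (PL.C (nat_lit 0x62bcc39) (nat_lit 0x0) (nat_lit 0x8cad9e129200)
  (PL.C (nat_lit 0x62f9dd2) (nat_lit 0x4453069ab300) (nat_lit 0x0) lm_172))))))))))))))))))))

noncomputable def lm_170 : PL :=
  (PL.C (nat_lit 0x5f43549) (nat_lit 0xb65dfaaff00) (nat_lit 0x0)
  (PL.C (nat_lit 0x5f4b3fc) (nat_lit 0x5b0c1bac5d00) (nat_lit 0x0)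
  (PL.C (nat_lit 0x5f539cb) (nat_lit 0x7014f7b53200) (nat_lit 0x0)
  (PL.C (nat_lit 0x5f554f6) (nat_lit 0x5540aeff6100) (nat_lit 0x0)
  (PL.C (nat_lit 0x5f6b30c) (nat_lit 0xbd33c58c6c00) (nat_lit 0x0)
  (PL.C (nat_lit 0x5f8c0aa) (nat_lit 0x0) (nat_lit 0x12035a6e7c00)
  (PL.C (nat_lit 0x5f944aa) (nat_lit 0x1d8f19e244e00) (nat_lit 0x0)
  (PL.C (nat_lit 0x5fa2134) (nat_lit 0x0) (nat_lit 0xd6fdb9201f00)
  (PL.C (nat_lit 0x5fdba42) (nat_lit 0x11758bd3a0600) (nat_lit 0x0)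
  (PL.C (nat_lit 0x600d0e2) (nat_lit 0x205460b2eb00) (nat_lit 0x0)
  (PL.C (nat_lit 0x60189dd) (nat_lit 0x58947c3593500) (nat_lit 0x0)
  (PL.C (nat_lit 0x6020bbf) (nat_lit 0x36557d29a000) (nat_lit 0x0)
  (PL.C (nat_lit 0x6052fb4) (nat_lit 0x0) (nat_lit 0x3fa340cf37080)
  (PL.C (nat_lit 0x6068fec) (nat_lit 0xafe707a2500) (nat_lit 0x0)
  (PL.C (nat_lit 0x60aee2e) (nat_lit 0x2406b4dcf800) (nat_lit 0x0)
  (PL.C (nat_lit 0x60cda59) (nat_lit 0x0) (nat_lit 0x2386a399a00)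
  (PL.C (nat_lit 0x60d7f63) (nat_lit 0x41e9610a0cd00) (nat_lit 0x0)
  (PL.C (nat_lit 0x6102ecd) (nat_lit 0x24fd876739d80) (nat_lit 0x0)
  (PL.C (nat_lit 0x610d997) (nat_lit 0x1123bf13ee500) (nat_lit 0x0)
  (PL.C (nat_lit 0x6113817) (nat_lit 0x279490df5b00) (nat_lit 0x0) lm_171))))))))))))))))))))

noncomputable def lm_169 : PL :=
  (PL.C (nat_lit 0x5d70965) (nat_lit 0x0) (nat_lit 0x11247123e280)
  (PL.C (nat_lit 0x5d82c8f) (nat_lit 0x0) (nat_lit 0xc0b68f499100)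
  (PL.C (nat_lit 0x5d9e095) (nat_lit 0xd3530fda6fc0) (nat_lit 0x0)
  (PL.C (nat_lit 0x5d9ea9c) (nat_lit 0x0) (nat_lit 0x3c1a7da60300)
  (PL.C (nat_lit 0x5deeba5) (nat_lit 0x0) (nat_lit 0x1dcea1154c200)
  (PL.C (nat_lit 0x5e0463a) (nat_lit 0x60375bf59180) (nat_lit 0x0)
  (PL.C (nat_lit 0x5e12b57) (nat_lit 0x0) (nat_lit 0x26c6638746f00)
  (PL.C (nat_lit 0x5e41ca9) (nat_lit 0x28c01ddf3800) (nat_lit 0x0)
  (PL.C (nat_lit 0x5e4c264) (nat_lit 0x0) (nat_lit 0xb92423d14b00)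
  (PL.C (nat_lit 0x5e50db9) (nat_lit 0x0) (nat_lit 0x11247123e280)
  (PL.C (nat_lit 0x5e77999) (nat_lit 0x0) (nat_lit 0x1e684e97c000)
  (PL.C (nat_lit 0x5e85666) (nat_lit 0x257cd2043700) (nat_lit 0x0)
  (PL.C (nat_lit 0x5e9ab54) (nat_lit 0x0) (nat_lit 0x15fce0f44a00)
  (PL.C (nat_lit 0x5ea120f) (nat_lit 0x0) (nat_lit 0x7ea3d18e7be80)
  (PL.C (nat_lit 0x5ece069) (nat_lit 0x0) (nat_lit 0x3ce221a09700)
  (PL.C (nat_lit 0x5efd797) (nat_lit 0x0) (nat_lit 0x12615389a00)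
  (PL.C (nat_lit 0x5f07e9c) (nat_lit 0x1edaa10e9800) (nat_lit 0x0)
  (PL.C (nat_lit 0x5f0ca87) (nat_lit 0x1c9bc12a7dc00) (nat_lit 0x0)
  (PL.C (nat_lit 0x5f25b0a) (nat_lit 0x0) (nat_lit 0x1a9b5ae610800)
  (PL.C (nat_lit 0x5f279d9) (nat_lit 0x91a071339200) (nat_lit 0x0) lm_170))))))))))))))))))))

noncomputable def lm_168 : PL :=
  (PL.C (nat_lit 0x5adb5e2) (nat_lit 0x0) (nat_lit 0x2e2d9371c200)
  (PL.C (nat_lit 0x5af168a) (nat_lit 0x0) (nat_lit 0x80493b0aa00)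
  (PL.C (nat_lit 0x5af7b69) (nat_lit 0x605f750b27e80) (nat_lit 0x0)
  (PL.C (nat_lit 0x5b140d6) (nat_lit 0x0) (nat_lit 0x88324bf89a700)
  (PL.C (nat_lit 0x5b2d7d6) (nat_lit 0x0) (nat_lit 0x3d19ddfa580)
  (PL.C (nat_lit 0x5b5d04c) (nat_lit 0x7a52e17f0180) (nat_lit 0x0)
  (PL.C (nat_lit 0x5b72d6b) (nat_lit 0x6b2b0a76d43c0) (nat_lit 0x0)
  (PL.C (nat_lit 0x5c02ad3) (nat_lit 0x0) (nat_lit 0x132dfeace600)
  (PL.C (nat_lit 0x5c101e2) (nat_lit 0x89c7ee06cbc0) (nat_lit 0x0)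
  (PL.C (nat_lit 0x5c21847) (nat_lit 0x0) (nat_lit 0x56ecf2ca900)
  (PL.C (nat_lit 0x5c5e2fc) (nat_lit 0x40fa1bb2100) (nat_lit 0x0)
  (PL.C (nat_lit 0x5c8642a) (nat_lit 0x0) (nat_lit 0x4442d6b29c80)
  (PL.C (nat_lit 0x5c87fb2) (nat_lit 0x0) (nat_lit 0x32eddd8c8db00)
  (PL.C (nat_lit 0x5cd7c06) (nat_lit 0x0) (nat_lit 0x125c54c504280)
  (PL.C (nat_lit 0x5cd8f79) (nat_lit 0x31d9924d9c000) (nat_lit 0x0)
  (PL.C (nat_lit 0x5cec863) (nat_lit 0x1340f267a7adc0) (nat_lit 0x0)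
  (PL.C (nat_lit 0x5d2563c) (nat_lit 0x0) (nat_lit 0x3fa340cf37080)
  (PL.C (nat_lit 0x5d354f4) (nat_lit 0x4c4edafade100) (nat_lit 0x0)
  (PL.C (nat_lit 0x5d41e9b) (nat_lit 0x0) (nat_lit 0xaf0c73e17600)
  (PL.C (nat_lit 0x5d5d756) (nat_lit 0x198a73d9e1000) (nat_lit 0x0) lm_169))))))))))))))))))))

noncomputable def lm_167 : PL :=
  (PL.C (nat_lit 0x5910c2a) (nat_lit 0x0) (nat_lit 0x2e2d9371c200)
  (PL.C (nat_lit 0x591b7b1) (nat_lit 0x2f8dddbf5c800) (nat_lit 0x0)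
  (PL.C (nat_lit 0x5929302) (nat_lit 0x0) (nat_lit 0x4cddfd1fe00)
  (PL.C (nat_lit 0x594f115) (nat_lit 0x0) (nat_lit 0x6865c261bd780)
  (PL.C (nat_lit 0x5955cfe) (nat_lit 0x0) (nat_lit 0x1d4404b1d180)
  (PL.C (nat_lit 0x59684cb) (nat_lit 0x0) (nat_lit 0x2d03ade607fc0)
  (PL.C (nat_lit 0x598a11b) (nat_lit 0x11f863b7ddc3c0) (nat_lit 0x0)
  (PL.C (nat_lit 0x59a6d26) (nat_lit 0x0) (nat_lit 0xaed385f4a800)
  (PL.C (nat_lit 0x59ab336) (nat_lit 0x163066ff78a300) (nat_lit 0x0)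
  (PL.C (nat_lit 0x59cce8f) (nat_lit 0x1196183b9ab00) (nat_lit 0x0)
  (PL.C (nat_lit 0x59cd705) (nat_lit 0xadde5d52000) (nat_lit 0x0)
  (PL.C (nat_lit 0x59f73d4) (nat_lit 0x0) (nat_lit 0x1060107cd000)
  (PL.C (nat_lit 0x5a1ff26) (nat_lit 0x0) (nat_lit 0x7af19103c7780)
  (PL.C (nat_lit 0x5a27d9e) (nat_lit 0x0) (nat_lit 0x4453069ab300)
  (PL.C (nat_lit 0x5a4d0da) (nat_lit 0x0) (nat_lit 0xee784f132b240)
  (PL.C (nat_lit 0x5a78749) (nat_lit 0x30a210dbf3fc0) (nat_lit 0x0)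
  (PL.C (nat_lit 0x5a81e01) (nat_lit 0x8463ecbae2ec0) (nat_lit 0x0)
  (PL.C (nat_lit 0x5a95496) (nat_lit 0x58f9f5ebbc00) (nat_lit 0x0)
  (PL.C (nat_lit 0x5aac7e7) (nat_lit 0x0) (nat_lit 0x175af4578580)
  (PL.C (nat_lit 0x5acc1ca) (nat_lit 0x40c36f2abc00) (nat_lit 0x0) lm_168))))))))))))))))))))

noncomputable def lm_166 : PL :=
  (PL.C (nat_lit 0x56ca3db) (nat_lit 0x8ad28905f7f80) (nat_lit 0x0)
  (PL.C (nat_lit 0x56d1929) (nat_lit 0x2b4260f058c00) (nat_lit 0x0)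
  (PL.C (nat_lit 0x56eeac5) (nat_lit 0x11247123e280) (nat_lit 0x0)
  (PL.C (nat_lit 0x5727eb4) (nat_lit 0x19ce828203600) (nat_lit 0x0)
  (PL.C (nat_lit 0x573b3d3) (nat_lit 0x59ba551f6d000) (nat_lit 0x0)
  (PL.C (nat_lit 0x57770e5) (nat_lit 0x0) (nat_lit 0xc577aef1548c0)
  (PL.C (nat_lit 0x5793f3d) (nat_lit 0x39e62f5ec000) (nat_lit 0x0)
  (PL.C (nat_lit 0x57e8eed) (nat_lit 0x0) (nat_lit 0x56ecf2ca900)
  (PL.C (nat_lit 0x57f3dde) (nat_lit 0x0) (nat_lit 0x1d3ad94d4af00)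
  (PL.C (nat_lit 0x57fead4) (nat_lit 0x0) (nat_lit 0x2067c5831b00)
  (PL.C (nat_lit 0x5855b4d) (nat_lit 0x2068eb342a00) (nat_lit 0x0)
  (PL.C (nat_lit 0x585feb7) (nat_lit 0x10f612042e7440) (nat_lit 0x0)
  (PL.C (nat_lit 0x5862067) (nat_lit 0x0) (nat_lit 0xe112b9e75b00)
  (PL.C (nat_lit 0x586660e) (nat_lit 0x0) (nat_lit 0x1b97a3149a00)
  (PL.C (nat_lit 0x58929f2) (nat_lit 0x1153bc6b8200) (nat_lit 0x0)
  (PL.C (nat_lit 0x5899212) (nat_lit 0x58f9f5ebbc00) (nat_lit 0x0)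
  (PL.C (nat_lit 0x58b1a36) (nat_lit 0x7aa97057500) (nat_lit 0x0)
  (PL.C (nat_lit 0x58c3cf5) (nat_lit 0x0) (nat_lit 0x8462a8da9a00)
  (PL.C (nat_lit 0x58e2f0a) (nat_lit 0x0) (nat_lit 0xaed385f4a800)
  (PL.C (nat_lit 0x59093a3) (nat_lit 0x15bbcbaa400) (nat_lit 0x0) lm_167))))))))))))))))))))

noncomputable def lm_165 : PL :=
  (PL.C (nat_lit 0x547456e) (nat_lit 0x249dfabb11080) (nat_lit 0x0)
  (PL.C (nat_lit 0x5498383) (nat_lit 0x0) (nat_lit 0x15d550e8c9440)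
  (PL.C (nat_lit 0x54b7ffc) (nat_lit 0xeff571800) (nat_lit 0x0)
  (PL.C (nat_lit 0x54bd25a) (nat_lit 0x480845ea480) (nat_lit 0x0)
  (PL.C (nat_lit 0x54cc3b7) (nat_lit 0x72dcf5daaa80) (nat_lit 0x0)
  (PL.C (nat_lit 0x54e3abc) (nat_lit 0xe04ff70f1900) (nat_lit 0x0)
  (PL.C (nat_lit 0x54f67d1) (nat_lit 0x27f6d8061f700) (nat_lit 0x0)
  (PL.C (nat_lit 0x5515ac2) (nat_lit 0x738392ccb800) (nat_lit 0x0)
  (PL.C (nat_lit 0x552102f) (nat_lit 0x27a8293e3e300) (nat_lit 0x0)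
  (PL.C (nat_lit 0x55453ca) (nat_lit 0x0) (nat_lit 0xb7363655fd100)
  (PL.C (nat_lit 0x554afd4) (nat_lit 0x12cc133477d00) (nat_lit 0x0)
  (PL.C (nat_lit 0x55519bf) (nat_lit 0x0) (nat_lit 0xaf0c73e17600)
  (PL.C (nat_lit 0x555e12a) (nat_lit 0x0) (nat_lit 0xd07072e4759c0)
  (PL.C (nat_lit 0x5596ffa) (nat_lit 0x0) (nat_lit 0x8fb839b69f00)
  (PL.C (nat_lit 0x55a676c) (nat_lit 0x0) (nat_lit 0x3c1a7da60300)
  (PL.C (nat_lit 0x55a7aae) (nat_lit 0x0) (nat_lit 0x1996f64d300400)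
  (PL.C (nat_lit 0x55f4d2c) (nat_lit 0x903addfd7c00) (nat_lit 0x0)
  (PL.C (nat_lit 0x5601266) (nat_lit 0x0) (nat_lit 0x951bb6f8e7080)
  (PL.C (nat_lit 0x561cb55) (nat_lit 0x0) (nat_lit 0xb77e54c5a00)
  (PL.C (nat_lit 0x56247a6) (nat_lit 0xe3c5089ba300) (nat_lit 0x0) lm_166))))))))))))))))))))

noncomputable def lm_164 : PL :=
  (PL.C (nat_lit 0x5265061) (nat_lit 0x0) (nat_lit 0x329f1a1f16b240)
  (PL.C (nat_lit 0x52677b2) (nat_lit 0x7498671c5100) (nat_lit 0x0)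
  (PL.C (nat_lit 0x52a2e07) (nat_lit 0x1a39aaccb3400) (nat_lit 0x0)
  (PL.C (nat_lit 0x52ad2ca) (nat_lit 0x0) (nat_lit 0x12bb0b680a000)
  (PL.C (nat_lit 0x52c69a6) (nat_lit 0x2394c3c6ddd00) (nat_lit 0x0)
  (PL.C (nat_lit 0x52d04c9) (nat_lit 0x4ecda84d99400) (nat_lit 0x0)
  (PL.C (nat_lit 0x5301416) (nat_lit 0x5e70ee3a8280) (nat_lit 0x0)
  (PL.C (nat_lit 0x5307027) (nat_lit 0x581d29df8d940) (nat_lit 0x0)
  (PL.C (nat_lit 0x531d13e) (nat_lit 0x0) (nat_lit 0x4cb258edf740)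
  (PL.C (nat_lit 0x533f37e) (nat_lit 0xfb7d8a35a80) (nat_lit 0x0)
  (PL.C (nat_lit 0x5365525) (nat_lit 0x0) (nat_lit 0xccfb84b34a00)
  (PL.C (nat_lit 0x53bbd02) (nat_lit 0x1281cccc2ea40) (nat_lit 0x0)
  (PL.C (nat_lit 0x53c9b6e) (nat_lit 0x0) (nat_lit 0x6656a491d00)
  (PL.C (nat_lit 0x53e6fa2) (nat_lit 0x0) (nat_lit 0x79396e6701080)
  (PL.C (nat_lit 0x53fa26e) (nat_lit 0x0) (nat_lit 0xa3ee27f4e200)
  (PL.C (nat_lit 0x540319a) (nat_lit 0x7b6ac3d56afc0) (nat_lit 0x0)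
  (PL.C (nat_lit 0x542749b) (nat_lit 0x0) (nat_lit 0x590d38180080)
  (PL.C (nat_lit 0x5454372) (nat_lit 0x0) (nat_lit 0x4453069ab300)
  (PL.C (nat_lit 0x545bc4e) (nat_lit 0x1a2805a6114c0) (nat_lit 0x0)
  (PL.C (nat_lit 0x5464113) (nat_lit 0x0) (nat_lit 0x345dae3f800) lm_165))))))))))))))))))))

noncomputable def lm_163 : PL :=
  (PL.C (nat_lit 0x50534fd) (nat_lit 0x0) (nat_lit 0xffacb985a00)
  (PL.C (nat_lit 0x507a5e7) (nat_lit 0x0) (nat_lit 0x30349f26ece80)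
  (PL.C (nat_lit 0x507aebc) (nat_lit 0x0) (nat_lit 0x21a937017500)
  (PL.C (nat_lit 0x50812ad) (nat_lit 0x0) (nat_lit 0xb315aceb800)
  (PL.C (nat_lit 0x50af0d2) (nat_lit 0x1d8f19e244e00) (nat_lit 0x0)
  (PL.C (nat_lit 0x50ca68c) (nat_lit 0xd84b841b4b00) (nat_lit 0x0)
  (PL.C (nat_lit 0x50deadf) (nat_lit 0x454714f50ed80) (nat_lit 0x0)
  (PL.C (nat_lit 0x51141b1) (nat_lit 0x61cd147e200) (nat_lit 0x0)
  (PL.C (nat_lit 0x5114fea) (nat_lit 0x0) (nat_lit 0x5540aeff6100)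
  (PL.C (nat_lit 0x511a9d9) (nat_lit 0x0) (nat_lit 0x289ea1061c200)
  (PL.C (nat_lit 0x511ec11) (nat_lit 0x0) (nat_lit 0x60bcadc707200)
  (PL.C (nat_lit 0x51302c2) (nat_lit 0x0) (nat_lit 0x81ad63c49180)
  (PL.C (nat_lit 0x5135691) (nat_lit 0x0) (nat_lit 0x8462a8da9a00)
  (PL.C (nat_lit 0x516b474) (nat_lit 0x304e5832e9d00) (nat_lit 0x0)
  (PL.C (nat_lit 0x518e596) (nat_lit 0x0) (nat_lit 0x66c985e447f00)
  (PL.C (nat_lit 0x51e48c1) (nat_lit 0x12708b91796180) (nat_lit 0x0)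
  (PL.C (nat_lit 0x51f28b3) (nat_lit 0x0) (nat_lit 0x1aad6257f1780)
  (PL.C (nat_lit 0x51f8886) (nat_lit 0x0) (nat_lit 0x2d613484400)
  (PL.C (nat_lit 0x52230da) (nat_lit 0x1d5c98156640) (nat_lit 0x0)
  (PL.C (nat_lit 0x524213a) (nat_lit 0x0) (nat_lit 0x66c985e447f00) lm_164))))))))))))))))))))

noncomputable def lm_162 : PL :=
  (PL.C (nat_lit 0x4ddea66) (nat_lit 0x7050399d4a00) (nat_lit 0x0)
  (PL.C (nat_lit 0x4e1333c) (nat_lit 0x58b882580) (nat_lit 0x0)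
  (PL.C (nat_lit 0x4e1ae52) (nat_lit 0x0) (nat_lit 0x480845ea480)
  (PL.C (nat_lit 0x4e34d52) (nat_lit 0x57e943d33680) (nat_lit 0x0)
  (PL.C (nat_lit 0x4e74194) (nat_lit 0x0) (nat_lit 0x24db1115b1000)
  (PL.C (nat_lit 0x4e809af) (nat_lit 0x0) (nat_lit 0xb4b7626f96580)
  (PL.C (nat_lit 0x4ea7e51) (nat_lit 0x0) (nat_lit 0x3b5f5f60c7b00)
  (PL.C (nat_lit 0x4ed4cc1) (nat_lit 0xa6e799011080) (nat_lit 0x0)
  (PL.C (nat_lit 0x4ef010b) (nat_lit 0x1b1ee32b3af00) (nat_lit 0x0)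
  (PL.C (nat_lit 0x4f3344f) (nat_lit 0xc56e9016700) (nat_lit 0x0)
  (PL.C (nat_lit 0x4f4b2f9) (nat_lit 0x4fb5151b6600) (nat_lit 0x0)
  (PL.C (nat_lit 0x4f698f3) (nat_lit 0xdf5bebff600) (nat_lit 0x0)
  (PL.C (nat_lit 0x4f8b5a2) (nat_lit 0x0) (nat_lit 0x5128d4764b400)
  (PL.C (nat_lit 0x4f9e05d) (nat_lit 0xc3357875f780) (nat_lit 0x0)
  (PL.C (nat_lit 0x4fbb7ba) (nat_lit 0x0) (nat_lit 0x44a14c8960980)
  (PL.C (nat_lit 0x4fc237e) (nat_lit 0x0) (nat_lit 0x2d613484400)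
  (PL.C (nat_lit 0x4fe1c8b) (nat_lit 0xc1cf484c52b40) (nat_lit 0x0)
  (PL.C (nat_lit 0x502b303) (nat_lit 0x15ba5f2bb400) (nat_lit 0x0)
  (PL.C (nat_lit 0x5030ca5) (nat_lit 0xa263c7b0cdb80) (nat_lit 0x0)
  (PL.C (nat_lit 0x503c8e3) (nat_lit 0x0) (nat_lit 0x4ecaf9d42c00) lm_163))))))))))))))))))))

noncomputable def lm_161 : PL :=
  (PL.C (nat_lit 0x4cc177e) (nat_lit 0x57e943d33680) (nat_lit 0x0)
  (PL.C (nat_lit 0x4cc5232) (nat_lit 0x0) (nat_lit 0x1153bc6b8200)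
  (PL.C (nat_lit 0x4cc7f8b) (nat_lit 0xa5aa28d3ea00) (nat_lit 0x0)
  (PL.C (nat_lit 0x4cd984d) (nat_lit 0x4fb5151b6600) (nat_lit 0x0)
  (PL.C (nat_lit 0x4cdedea) (nat_lit 0x36afba178400) (nat_lit 0x0)
  (PL.C (nat_lit 0x4cf7dae) (nat_lit 0xc7ab38944480) (nat_lit 0x0)
  (PL.C (nat_lit 0x4cfffb3) (nat_lit 0x0) (nat_lit 0x3b1eaedd5b00)
  (PL.C (nat_lit 0x4d11a76) (nat_lit 0x0) (nat_lit 0x623b8f6b7240)
  (PL.C (nat_lit 0x4d1455c) (nat_lit 0x255106516400) (nat_lit 0x0)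
  (PL.C (nat_lit 0x4d2bf03) (nat_lit 0x0) (nat_lit 0x15bbcbaa400)
  (PL.C (nat_lit 0x4d2eff4) (nat_lit 0xf89c3d8ceb00) (nat_lit 0x0)
  (PL.C (nat_lit 0x4d32657) (nat_lit 0x0) (nat_lit 0x1456aa7b0ade40)
  (PL.C (nat_lit 0x4d32d9d) (nat_lit 0x153489d88880) (nat_lit 0x0)
  (PL.C (nat_lit 0x4d4d176) (nat_lit 0x1d42db22d4a00) (nat_lit 0x0)
  (PL.C (nat_lit 0x4d79c76) (nat_lit 0x0) (nat_lit 0x16264f30d37a00)
  (PL.C (nat_lit 0x4d8092e) (nat_lit 0x0) (nat_lit 0x738392ccb800)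
  (PL.C (nat_lit 0x4d8817c) (nat_lit 0x23d5100de4000) (nat_lit 0x0)
  (PL.C (nat_lit 0x4dc5da3) (nat_lit 0xaa2ea5c8680) (nat_lit 0x0)
  (PL.C (nat_lit 0x4dccdea) (nat_lit 0x0) (nat_lit 0x345e8d5025100)
  (PL.C (nat_lit 0x4dd916c) (nat_lit 0x7a52e17f0180) (nat_lit 0x0) lm_162))))))))))))))))))))

noncomputable def lm_160 : PL :=
  (PL.C (nat_lit 0x4a9be43) (nat_lit 0x6e0d4d575800) (nat_lit 0x0)
  (PL.C (nat_lit 0x4abb35d) (nat_lit 0x0) (nat_lit 0x61cd147e200)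
  (PL.C (nat_lit 0x4ad0dda) (nat_lit 0x0) (nat_lit 0x16b09a422000)
  (PL.C (nat_lit 0x4adf18e) (nat_lit 0x2394c3c6ddd00) (nat_lit 0x0)
  (PL.C (nat_lit 0x4afd07b) (nat_lit 0x29e4e62581a00) (nat_lit 0x0)
  (PL.C (nat_lit 0x4b159ac) (nat_lit 0x0) (nat_lit 0x30877ba6acd80)
  (PL.C (nat_lit 0x4b2f652) (nat_lit 0x1b97a3149a00) (nat_lit 0x0)
  (PL.C (nat_lit 0x4b3bbce) (nat_lit 0x0) (nat_lit 0x112b3ebfcc580)
  (PL.C (nat_lit 0x4b4898a) (nat_lit 0x6baf477c6700) (nat_lit 0x0)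
  (PL.C (nat_lit 0x4b69063) (nat_lit 0x0) (nat_lit 0x4ecaf9d42c00)
  (PL.C (nat_lit 0x4b75bd6) (nat_lit 0x0) (nat_lit 0x2d613484400)
  (PL.C (nat_lit 0x4b95cc7) (nat_lit 0x0) (nat_lit 0x590d38180080)
  (PL.C (nat_lit 0x4befda5) (nat_lit 0x7c6356056280) (nat_lit 0x0)
  (PL.C (nat_lit 0x4c0b694) (nat_lit 0x903addfd7c00) (nat_lit 0x0)
  (PL.C (nat_lit 0x4c29d02) (nat_lit 0x13bd3c7f2440) (nat_lit 0x0)
  (PL.C (nat_lit 0x4c4e80d) (nat_lit 0x0) (nat_lit 0x95bd3cb74000)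
  (PL.C (nat_lit 0x4c66fc5) (nat_lit 0x284aeb7ef5280) (nat_lit 0x0)
  (PL.C (nat_lit 0x4c6943a) (nat_lit 0x0) (nat_lit 0xe0a0733a9400)
  (PL.C (nat_lit 0x4c99de9) (nat_lit 0x8faa6f91540c0) (nat_lit 0x0)
  (PL.C (nat_lit 0x4ca5a72) (nat_lit 0x273d341013080) (nat_lit 0x0) lm_161))))))))))))))))))))

noncomputable def lm_159 : PL :=
  (PL.C (nat_lit 0x4884c5a) (nat_lit 0x0) (nat_lit 0x12bb0b680a000)
  (PL.C (nat_lit 0x4899e7e) (nat_lit 0x0) (nat_lit 0x6e08689645f40)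
  (PL.C (nat_lit 0x48aa27a) (nat_lit 0x0) (nat_lit 0x6656a491d00)
  (PL.C (nat_lit 0x48cb08b) (nat_lit 0xfdcef385c6e80) (nat_lit 0x0)
  (PL.C (nat_lit 0x48ef775) (nat_lit 0x0) (nat_lit 0x1f6a0c487e80)
  (PL.C (nat_lit 0x4915105) (nat_lit 0x4cbb9da6ce300) (nat_lit 0x0)
  (PL.C (nat_lit 0x49191a5) (nat_lit 0x2068eb342a00) (nat_lit 0x0)
  (PL.C (nat_lit 0x4924956) (nat_lit 0x0) (nat_lit 0x2d613484400)
  (PL.C (nat_lit 0x4943a87) (nat_lit 0x0) (nat_lit 0x13937bc61b4980)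
  (PL.C (nat_lit 0x4949d8d) (nat_lit 0x1423dbd5e900) (nat_lit 0x0)
  (PL.C (nat_lit 0x495fb8d) (nat_lit 0x0) (nat_lit 0x59451862d2280)
  (PL.C (nat_lit 0x4962699) (nat_lit 0x0) (nat_lit 0xc3357875f780)
  (PL.C (nat_lit 0x4962d5a) (nat_lit 0x0) (nat_lit 0xc4ca65675c240)
  (PL.C (nat_lit 0x4990323) (nat_lit 0x0) (nat_lit 0xe1eba63bb5180)
  (PL.C (nat_lit 0x49a110c) (nat_lit 0x0) (nat_lit 0x1b07a207f700)
  (PL.C (nat_lit 0x49cb216) (nat_lit 0xc7ab38944480) (nat_lit 0x0)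
  (PL.C (nat_lit 0x49edef1) (nat_lit 0x0) (nat_lit 0x2cebf89d6000)
  (PL.C (nat_lit 0x4a06b6d) (nat_lit 0x813fa58f6180) (nat_lit 0x0)
  (PL.C (nat_lit 0x4a5bc99) (nat_lit 0x1340f267a7adc0) (nat_lit 0x0)
  (PL.C (nat_lit 0x4a9a1d3) (nat_lit 0x87f1f25d9780) (nat_lit 0x0) lm_160))))))))))))))))))))

noncomputable def lm_158 : PL :=
  (PL.C (nat_lit 0x46e3ca6) (nat_lit 0x1d5c98156640) (nat_lit 0x0)
  (PL.C (nat_lit 0x46eb582) (nat_lit 0x5e1adf1dcda80) (nat_lit 0x0)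
  (PL.C (nat_lit 0x4709e47) (nat_lit 0x11f863b7ddc3c0) (nat_lit 0x0)
  (PL.C (nat_lit 0x47129fa) (nat_lit 0x0) (nat_lit 0x1a63bdecf6e00)
  (PL.C (nat_lit 0x476661f) (nat_lit 0xc3357875f780) (nat_lit 0x0)
  (PL.C (nat_lit 0x478a1e1) (nat_lit 0x36557d29a000) (nat_lit 0x0)
  (PL.C (nat_lit 0x47a8eac) (nat_lit 0xe04ff70f1900) (nat_lit 0x0)
  (PL.C (nat_lit 0x47b8cd5) (nat_lit 0x27f6d8061f700) (nat_lit 0x0)
  (PL.C (nat_lit 0x47c0efc) (nat_lit 0x0) (nat_lit 0x7a52e17f0180)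
  (PL.C (nat_lit 0x47d4467) (nat_lit 0x0) (nat_lit 0x4fef3168a680)
  (PL.C (nat_lit 0x47dbedd) (nat_lit 0x0) (nat_lit 0xabc2ebf608d80)
  (PL.C (nat_lit 0x47dcb2b) (nat_lit 0x1ef4015fb900) (nat_lit 0x0)
  (PL.C (nat_lit 0x47fb472) (nat_lit 0x27d5c915d6e80) (nat_lit 0x0)
  (PL.C (nat_lit 0x4800224) (nat_lit 0x12cc133477d00) (nat_lit 0x0)
  (PL.C (nat_lit 0x4803ba9) (nat_lit 0x1b1ee32b3af00) (nat_lit 0x0)
  (PL.C (nat_lit 0x481ddcf) (nat_lit 0x0) (nat_lit 0x558089204400)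
  (PL.C (nat_lit 0x4827c57) (nat_lit 0xac26b9af2d00) (nat_lit 0x0)
  (PL.C (nat_lit 0x484e5e6) (nat_lit 0x0) (nat_lit 0x179c8b81c3c880)
  (PL.C (nat_lit 0x4850f67) (nat_lit 0x92a6ea5400) (nat_lit 0x0)
  (PL.C (nat_lit 0x486cbd3) (nat_lit 0x284aeb7ef5280) (nat_lit 0x0) lm_159))))))))))))))))))))

noncomputable def lm_157 : PL :=
  (PL.C (nat_lit 0x45561c2) (nat_lit 0x0) (nat_lit 0xa3ee27f4e200)
  (PL.C (nat_lit 0x456d206) (nat_lit 0x16c9c3429c00) (nat_lit 0x0)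
  (PL.C (nat_lit 0x458034b) (nat_lit 0x0) (nat_lit 0x2be5592b600)
  (PL.C (nat_lit 0x458fdfa) (nat_lit 0x0) (nat_lit 0x4cb258edf740)
  (PL.C (nat_lit 0x45b795a) (nat_lit 0x2d613484400) (nat_lit 0x0)
  (PL.C (nat_lit 0x45d0324) (nat_lit 0x5b0c1bac5d00) (nat_lit 0x0)
  (PL.C (nat_lit 0x45e02be) (nat_lit 0x7aa97057500) (nat_lit 0x0)
  (PL.C (nat_lit 0x4611aee) (nat_lit 0x233b3f251f00) (nat_lit 0x0)
  (PL.C (nat_lit 0x4620c8c) (nat_lit 0x1242760ef3ab00) (nat_lit 0x0)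
  (PL.C (nat_lit 0x46292b6) (nat_lit 0x7498671c5100) (nat_lit 0x0)
  (PL.C (nat_lit 0x465186a) (nat_lit 0x0) (nat_lit 0x1ac8257c27b80)
  (PL.C (nat_lit 0x4658a57) (nat_lit 0x62e5da5f6e00) (nat_lit 0x0)
  (PL.C (nat_lit 0x4666279) (nat_lit 0x445009bf3b80) (nat_lit 0x0)
  (PL.C (nat_lit 0x466a0bc) (nat_lit 0xb56227609700) (nat_lit 0x0)
  (PL.C (nat_lit 0x466f82d) (nat_lit 0x0) (nat_lit 0x345dae3f800)
  (PL.C (nat_lit 0x467bda9) (nat_lit 0x4fef3168a680) (nat_lit 0x0)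
  (PL.C (nat_lit 0x46b5904) (nat_lit 0xeff571800) (nat_lit 0x0)
  (PL.C (nat_lit 0x46b68ea) (nat_lit 0x9c59058ae8a00) (nat_lit 0x0)
  (PL.C (nat_lit 0x46d39aa) (nat_lit 0x4375fd4fd0880) (nat_lit 0x0)
  (PL.C (nat_lit 0x46d8839) (nat_lit 0x3095140d34300) (nat_lit 0x0) lm_158))))))))))))))))))))

noncomputable def lm_156 : PL :=
  (PL.C (nat_lit 0x43acc4f) (nat_lit 0x0) (nat_lit 0x17053e0b400)
  (PL.C (nat_lit 0x43b17f9) (nat_lit 0xc9465dc41dec0) (nat_lit 0x0)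
  (PL.C (nat_lit 0x43c4679) (nat_lit 0x0) (nat_lit 0x960b95c0b8900)
  (PL.C (nat_lit 0x43ef9c3) (nat_lit 0xfdcef385c6e80) (nat_lit 0x0)
  (PL.C (nat_lit 0x4409a21) (nat_lit 0x3349d4eac5a80) (nat_lit 0x0)
  (PL.C (nat_lit 0x443694f) (nat_lit 0x2adc690c75e00) (nat_lit 0x0)
  (PL.C (nat_lit 0x444449b) (nat_lit 0x454714f50ed80) (nat_lit 0x0)
  (PL.C (nat_lit 0x446d3ae) (nat_lit 0xb73e6b6200) (nat_lit 0x0)
  (PL.C (nat_lit 0x4471635) (nat_lit 0x56cc68965600) (nat_lit 0x0)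
  (PL.C (nat_lit 0x4487d14) (nat_lit 0xe252ec420000) (nat_lit 0x0)
  (PL.C (nat_lit 0x448914a) (nat_lit 0xb83a8be0a00) (nat_lit 0x0)
  (PL.C (nat_lit 0x448ab6a) (nat_lit 0x315ffbc8c5080) (nat_lit 0x0)
  (PL.C (nat_lit 0x449080e) (nat_lit 0xccbe0559700) (nat_lit 0x0)
  (PL.C (nat_lit 0x44bc37a) (nat_lit 0x2d613484400) (nat_lit 0x0)
  (PL.C (nat_lit 0x44c8744) (nat_lit 0x1edaa10e9800) (nat_lit 0x0)
  (PL.C (nat_lit 0x44d68be) (nat_lit 0x0) (nat_lit 0x7050399d4a00)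
  (PL.C (nat_lit 0x44f35dd) (nat_lit 0x0) (nat_lit 0x6a96c38dc7cc0)
  (PL.C (nat_lit 0x4513316) (nat_lit 0xee76ed5423d00) (nat_lit 0x0)
  (PL.C (nat_lit 0x4521585) (nat_lit 0x0) (nat_lit 0x960b95c0b8900)
  (PL.C (nat_lit 0x452ecef) (nat_lit 0x1d3a6589e6c80) (nat_lit 0x0) lm_157))))))))))))))))))))

noncomputable def lm_155 : PL :=
  (PL.C (nat_lit 0x422b521) (nat_lit 0x0) (nat_lit 0xced17745b600)
  (PL.C (nat_lit 0x422bc64) (nat_lit 0x361442a64a00) (nat_lit 0x0)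
  (PL.C (nat_lit 0x42350bb) (nat_lit 0x0) (nat_lit 0x598ad675c00)
  (PL.C (nat_lit 0x4240946) (nat_lit 0x24929245a940) (nat_lit 0x0)
  (PL.C (nat_lit 0x4244aab) (nat_lit 0x2af2204ec3880) (nat_lit 0x0)
  (PL.C (nat_lit 0x4265d55) (nat_lit 0x7bd02ffb74640) (nat_lit 0x0)
  (PL.C (nat_lit 0x426d214) (nat_lit 0x1b8f5db1674f80) (nat_lit 0x0)
  (PL.C (nat_lit 0x4270725) (nat_lit 0x0) (nat_lit 0xd1a6eb51e4880)
  (PL.C (nat_lit 0x4272bdc) (nat_lit 0x0) (nat_lit 0x9283668800)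
  (PL.C (nat_lit 0x4281789) (nat_lit 0x6f26d716400) (nat_lit 0x0)
  (PL.C (nat_lit 0x429af23) (nat_lit 0x0) (nat_lit 0x2ac0685f200)
  (PL.C (nat_lit 0x42a20b1) (nat_lit 0xc7153399a1780) (nat_lit 0x0)
  (PL.C (nat_lit 0x42b2864) (nat_lit 0xfebc1bd3bcc0) (nat_lit 0x0)
  (PL.C (nat_lit 0x42c6f2d) (nat_lit 0x0) (nat_lit 0x47493a69f800)
  (PL.C (nat_lit 0x42db7cb) (nat_lit 0x25954326ff400) (nat_lit 0x0)
  (PL.C (nat_lit 0x430adc3) (nat_lit 0x0) (nat_lit 0xffacb985a00)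
  (PL.C (nat_lit 0x433ae42) (nat_lit 0x6a265229da00) (nat_lit 0x0)
  (PL.C (nat_lit 0x436ab9e) (nat_lit 0x2d613484400) (nat_lit 0x0)
  (PL.C (nat_lit 0x437c077) (nat_lit 0xd0549a7baa100) (nat_lit 0x0)
  (PL.C (nat_lit 0x43a18a9) (nat_lit 0x2adc690c75e00) (nat_lit 0x0) lm_156))))))))))))))))))))

noncomputable def lm_154 : PL :=
  (PL.C (nat_lit 0x40fffbf) (nat_lit 0x1c672f71db00) (nat_lit 0x0)
  (PL.C (nat_lit 0x4120094) (nat_lit 0x0) (nat_lit 0xb92423d14b00)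
  (PL.C (nat_lit 0x41254d1) (nat_lit 0x25b928d19000) (nat_lit 0x0)
  (PL.C (nat_lit 0x4126f9c) (nat_lit 0x304e5832e9d00) (nat_lit 0x0)
  (PL.C (nat_lit 0x4127ac4) (nat_lit 0xb56227609700) (nat_lit 0x0)
  (PL.C (nat_lit 0x412aed1) (nat_lit 0xf80a2b59797c0) (nat_lit 0x0)
  (PL.C (nat_lit 0x413aed3) (nat_lit 0x0) (nat_lit 0x558089204400)
  (PL.C (nat_lit 0x41430a2) (nat_lit 0x0) (nat_lit 0x3b4bcd86b7400)
  (PL.C (nat_lit 0x415b92d) (nat_lit 0x0) (nat_lit 0x1bbc4811ce00)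
  (PL.C (nat_lit 0x4166cce) (nat_lit 0x0) (nat_lit 0x3578900587080)
  (PL.C (nat_lit 0x416bbd4) (nat_lit 0x58720ec5267c0) (nat_lit 0x0)
  (PL.C (nat_lit 0x4179472) (nat_lit 0x0) (nat_lit 0x24929245a940)
  (PL.C (nat_lit 0x417d43d) (nat_lit 0x3b1eaedd5b00) (nat_lit 0x0)
  (PL.C (nat_lit 0x41acf12) (nat_lit 0x0) (nat_lit 0x112b3ebfcc580)
  (PL.C (nat_lit 0x41b741c) (nat_lit 0x5b0c1bac5d00) (nat_lit 0x0)
  (PL.C (nat_lit 0x41c2f4a) (nat_lit 0x559d5c4e4fa40) (nat_lit 0x0)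
  (PL.C (nat_lit 0x41df483) (nat_lit 0x0) (nat_lit 0xc21ff120bfb00)
  (PL.C (nat_lit 0x41eb9ab) (nat_lit 0x0) (nat_lit 0x4b7251a32000)
  (PL.C (nat_lit 0x41fbe8c) (nat_lit 0xa9aff446de00) (nat_lit 0x0)
  (PL.C (nat_lit 0x4220cbc) (nat_lit 0xe1dbdde06c80) (nat_lit 0x0) lm_155))))))))))))))))))))

noncomputable def lm_153 : PL :=
  (PL.C (nat_lit 0x3f3d14b) (nat_lit 0x0) (nat_lit 0xb01714e4fa8a0)
  (PL.C (nat_lit 0x3f570eb) (nat_lit 0x0) (nat_lit 0x12e80ce448800)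
  (PL.C (nat_lit 0x3f5dc5a) (nat_lit 0x1c452918cba00) (nat_lit 0x0)
  (PL.C (nat_lit 0x3f6e75c) (nat_lit 0x23d5100de4000) (nat_lit 0x0)
  (PL.C (nat_lit 0x3f6fbe6) (nat_lit 0xfbb846fb7980) (nat_lit 0x0)
  (PL.C (nat_lit 0x3f82386) (nat_lit 0x0) (nat_lit 0x345e8d5025100)
  (PL.C (nat_lit 0x3f8d132) (nat_lit 0x6baf477c6700) (nat_lit 0x0)
  (PL.C (nat_lit 0x3fa872f) (nat_lit 0x1c9bc12a7dc00) (nat_lit 0x0)
  (PL.C (nat_lit 0x3fb2b1c) (nat_lit 0xafe707a2500) (nat_lit 0x0)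
  (PL.C (nat_lit 0x3fb831c) (nat_lit 0x5800b5a94e400) (nat_lit 0x0)
  (PL.C (nat_lit 0x3fe7c2c) (nat_lit 0xbd33c58c6c00) (nat_lit 0x0)
  (PL.C (nat_lit 0x3fec191) (nat_lit 0x0) (nat_lit 0x24fc3177d1640)
  (PL.C (nat_lit 0x4015d2a) (nat_lit 0x738392ccb800) (nat_lit 0x0)
  (PL.C (nat_lit 0x4074974) (nat_lit 0x0) (nat_lit 0x15fce0f44a00)
  (PL.C (nat_lit 0x40ac9de) (nat_lit 0x5d175fe4ef700) (nat_lit 0x0)
  (PL.C (nat_lit 0x40b3bba) (nat_lit 0x6a265229da00) (nat_lit 0x0)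
  (PL.C (nat_lit 0x40b7aba) (nat_lit 0xc82fcd93880) (nat_lit 0x0)
  (PL.C (nat_lit 0x40dcccc) (nat_lit 0xa9aff446de00) (nat_lit 0x0)
  (PL.C (nat_lit 0x40df841) (nat_lit 0x0) (nat_lit 0x1dcea1154c200)
  (PL.C (nat_lit 0x40e66db) (nat_lit 0x0) (nat_lit 0x289ea1061c200) lm_154))))))))))))))))))))

noncomputable def lm_152 : PL :=
  (PL.C (nat_lit 0x3e2aa6f) (nat_lit 0x1b99548c6000) (nat_lit 0x0)
  (PL.C (nat_lit 0x3e2bf12) (nat_lit 0x0) (nat_lit 0x1174b56b88d00)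
  (PL.C (nat_lit 0x3e3e4e4) (nat_lit 0x0) (nat_lit 0x24db1115b1000)
  (PL.C (nat_lit 0x3e4287b) (nat_lit 0x0) (nat_lit 0x2fdcbd7dfe7a80)
  (PL.C (nat_lit 0x3e4b0ee) (nat_lit 0x0) (nat_lit 0x3d19ddfa580)
  (PL.C (nat_lit 0x3e5730a) (nat_lit 0x0) (nat_lit 0x1cc3893c2a300)
  (PL.C (nat_lit 0x3e69c68) (nat_lit 0x0) (nat_lit 0x163cdebb2700)
  (PL.C (nat_lit 0x3e6f7f3) (nat_lit 0x0) (nat_lit 0x36168b1c67b80)
  (PL.C (nat_lit 0x3e93973) (nat_lit 0x0) (nat_lit 0xd64191c49d80)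
  (PL.C (nat_lit 0x3e9f26e) (nat_lit 0x0) (nat_lit 0x1d3992aa65700)
  (PL.C (nat_lit 0x3ead97c) (nat_lit 0x0) (nat_lit 0x90504bca3b00)
  (PL.C (nat_lit 0x3eb2e8d) (nat_lit 0x494954b70b920) (nat_lit 0x0)
  (PL.C (nat_lit 0x3eb723a) (nat_lit 0x0) (nat_lit 0x125c54c504280)
  (PL.C (nat_lit 0x3ec52bd) (nat_lit 0x17d1426f59fc0) (nat_lit 0x0)
  (PL.C (nat_lit 0x3ed6b3d) (nat_lit 0xbad7f3ecd700) (nat_lit 0x0)
  (PL.C (nat_lit 0x3ee0926) (nat_lit 0x0) (nat_lit 0x3d19ddfa580)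
  (PL.C (nat_lit 0x3efa666) (nat_lit 0x0) (nat_lit 0x4e7e52ec4e00)
  (PL.C (nat_lit 0x3efb48f) (nat_lit 0x0) (nat_lit 0xbb3cab8780400)
  (PL.C (nat_lit 0x3f15b91) (nat_lit 0x0) (nat_lit 0x56cc68965600)
  (PL.C (nat_lit 0x3f34046) (nat_lit 0x1e5914d3a000) (nat_lit 0x0) lm_153))))))))))))))))))))

noncomputable def lm_151 : PL :=
  (PL.C (nat_lit 0x3cc8fe4) (nat_lit 0x35a1c68e380) (nat_lit 0x0)
  (PL.C (nat_lit 0x3ccaa0d) (nat_lit 0x0) (nat_lit 0xc0b68f499100)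
  (PL.C (nat_lit 0x3cf2ca3) (nat_lit 0x0) (nat_lit 0xb315aceb800)
  (PL.C (nat_lit 0x3d2345f) (nat_lit 0x8463ecbae2ec0) (nat_lit 0x0)
  (PL.C (nat_lit 0x3d571e2) (nat_lit 0x0) (nat_lit 0xf4699199d00)
  (PL.C (nat_lit 0x3d6bada) (nat_lit 0x313e98f8ce80) (nat_lit 0x0)
  (PL.C (nat_lit 0x3d72df7) (nat_lit 0x0) (nat_lit 0x30349f26ece80)
  (PL.C (nat_lit 0x3d91a09) (nat_lit 0x0) (nat_lit 0x29ede3b91cac0)
  (PL.C (nat_lit 0x3daffcc) (nat_lit 0xd84b841b4b00) (nat_lit 0x0)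
  (PL.C (nat_lit 0x3db15d9) (nat_lit 0x0) (nat_lit 0x192416b061180)
  (PL.C (nat_lit 0x3dbf76f) (nat_lit 0x0) (nat_lit 0x2d03ade607fc0)
  (PL.C (nat_lit 0x3dc60b5) (nat_lit 0x0) (nat_lit 0x1456aa7b0ade40)
  (PL.C (nat_lit 0x3dc9755) (nat_lit 0x0) (nat_lit 0xa50d18c05600)
  (PL.C (nat_lit 0x3de5fa6) (nat_lit 0x3f8d07b828000) (nat_lit 0x0)
  (PL.C (nat_lit 0x3de8421) (nat_lit 0xe871d57a9100) (nat_lit 0x0)
  (PL.C (nat_lit 0x3df3042) (nat_lit 0x0) (nat_lit 0x1b1e70d132f5c0)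
  (PL.C (nat_lit 0x3dfeb97) (nat_lit 0x0) (nat_lit 0x7009c378a400)
  (PL.C (nat_lit 0x3e01b01) (nat_lit 0x0) (nat_lit 0x36557d29a000)
  (PL.C (nat_lit 0x3e073df) (nat_lit 0x7618e4fc9a540) (nat_lit 0x0)
  (PL.C (nat_lit 0x3e194ef) (nat_lit 0x0) (nat_lit 0x3e0f760599700) lm_152))))))))))))))))))))

noncomputable def lm_150 : PL :=
  (PL.C (nat_lit 0x3b8955d) (nat_lit 0x0) (nat_lit 0x162f9793ecc00)
  (PL.C (nat_lit 0x3bb1612) (nat_lit 0x0) (nat_lit 0x212a6048a9f300)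
  (PL.C (nat_lit 0x3bc48c4) (nat_lit 0x0) (nat_lit 0x78d67e09a600)
  (PL.C (nat_lit 0x3bd9c5d) (nat_lit 0x0) (nat_lit 0xced17745b600)
  (PL.C (nat_lit 0x3bddf0a) (nat_lit 0x7b6ac3d56afc0) (nat_lit 0x0)
  (PL.C (nat_lit 0x3bde4ae) (nat_lit 0x0) (nat_lit 0x16b09a422000)
  (PL.C (nat_lit 0x3bf7ba3) (nat_lit 0xc5342c02c5e40) (nat_lit 0x0)
  (PL.C (nat_lit 0x3c154c4) (nat_lit 0x1b8f5db1674f80) (nat_lit 0x0)
  (PL.C (nat_lit 0x3c1a914) (nat_lit 0x0) (nat_lit 0xa9aff446de00)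
  (PL.C (nat_lit 0x3c27b25) (nat_lit 0xb3ed055d5600) (nat_lit 0x0)
  (PL.C (nat_lit 0x3c45cdb) (nat_lit 0x0) (nat_lit 0x11247123e280)
  (PL.C (nat_lit 0x3c56956) (nat_lit 0x0) (nat_lit 0xbf615fb490d00)
  (PL.C (nat_lit 0x3c63864) (nat_lit 0x3cbc0063a300) (nat_lit 0x0)
  (PL.C (nat_lit 0x3c6d9f5) (nat_lit 0x0) (nat_lit 0x411e85c05a00)
  (PL.C (nat_lit 0x3c791df) (nat_lit 0x11835854abe00) (nat_lit 0x0)
  (PL.C (nat_lit 0x3c923ec) (nat_lit 0x0) (nat_lit 0x5b0c1bac5d00)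
  (PL.C (nat_lit 0x3c97621) (nat_lit 0x30a210dbf3fc0) (nat_lit 0x0)
  (PL.C (nat_lit 0x3ca5246) (nat_lit 0x0) (nat_lit 0x76dd05883ea80)
  (PL.C (nat_lit 0x3cb3607) (nat_lit 0x2b779754800) (nat_lit 0x0)
  (PL.C (nat_lit 0x3cb9f91) (nat_lit 0x0) (nat_lit 0xc3357875f780) lm_151))))))))))))))))))))

noncomputable def lm_149 : PL :=
  (PL.C (nat_lit 0x3a277e2) (nat_lit 0x9f543f7a16780) (nat_lit 0x0)
  (PL.C (nat_lit 0x3a34811) (nat_lit 0x0) (nat_lit 0x6a96c38dc7cc0)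
  (PL.C (nat_lit 0x3a4f5ee) (nat_lit 0xee76ed5423d00) (nat_lit 0x0)
  (PL.C (nat_lit 0x3a66aeb) (nat_lit 0x0) (nat_lit 0x160f3c63c4a300)
  (PL.C (nat_lit 0x3a7d0d9) (nat_lit 0x8faa6f91540c0) (nat_lit 0x0)
  (PL.C (nat_lit 0x3a9b49e) (nat_lit 0x313e98f8ce80) (nat_lit 0x0)
  (PL.C (nat_lit 0x3aa3b17) (nat_lit 0x27fc332531fc0) (nat_lit 0x0)
  (PL.C (nat_lit 0x3ad63c7) (nat_lit 0xb3ed055d5600) (nat_lit 0x0)
  (PL.C (nat_lit 0x3ae3cde) (nat_lit 0x0) (nat_lit 0x556591093e80)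
  (PL.C (nat_lit 0x3aeeeb4) (nat_lit 0x7a52e17f0180) (nat_lit 0x0)
  (PL.C (nat_lit 0x3b0740b) (nat_lit 0x0) (nat_lit 0x162f9793ecc00)
  (PL.C (nat_lit 0x3b10c0c) (nat_lit 0x3cbc0063a300) (nat_lit 0x0)
  (PL.C (nat_lit 0x3b2d34e) (nat_lit 0x0) (nat_lit 0x602691bc9900)
  (PL.C (nat_lit 0x3b41f5c) (nat_lit 0x0) (nat_lit 0x78d67e09a600)
  (PL.C (nat_lit 0x3b45fb5) (nat_lit 0x0) (nat_lit 0x48aa9c5164600)
  (PL.C (nat_lit 0x3b5b7c2) (nat_lit 0x0) (nat_lit 0x2d613484400)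
  (PL.C (nat_lit 0x3b6081c) (nat_lit 0x0) (nat_lit 0x5b0c1bac5d00)
  (PL.C (nat_lit 0x3b67a76) (nat_lit 0x0) (nat_lit 0x5128d4764b400)
  (PL.C (nat_lit 0x3b6d81d) (nat_lit 0x53c1ac9ba4f80) (nat_lit 0x0)
  (PL.C (nat_lit 0x3b70cac) (nat_lit 0xf89c3d8ceb00) (nat_lit 0x0) lm_150))))))))))))))))))))

noncomputable def lm_148 : PL :=
  (PL.C (nat_lit 0x389820f) (nat_lit 0x91a071339200) (nat_lit 0x0)
  (PL.C (nat_lit 0x38a4536) (nat_lit 0x269691cea1a00) (nat_lit 0x0)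
  (PL.C (nat_lit 0x38ab193) (nat_lit 0x0) (nat_lit 0xa6a5d4453500)
  (PL.C (nat_lit 0x38b0ffb) (nat_lit 0x2677a7af482e80) (nat_lit 0x0)
  (PL.C (nat_lit 0x38c0aca) (nat_lit 0x273d341013080) (nat_lit 0x0)
  (PL.C (nat_lit 0x38e112a) (nat_lit 0x0) (nat_lit 0x1174b56b88d00)
  (PL.C (nat_lit 0x38e961c) (nat_lit 0x250b8a96b2e0c0) (nat_lit 0x0)
  (PL.C (nat_lit 0x38f7a93) (nat_lit 0x0) (nat_lit 0xbb3cab8780400)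
  (PL.C (nat_lit 0x38facf3) (nat_lit 0x0) (nat_lit 0x4e84fb8e0c00)
  (PL.C (nat_lit 0x3919a48) (nat_lit 0x0) (nat_lit 0x163cdebb2700)
  (PL.C (nat_lit 0x391d4bd) (nat_lit 0x52233558a9800) (nat_lit 0x0)
  (PL.C (nat_lit 0x3934c1d) (nat_lit 0x12708b91796180) (nat_lit 0x0)
  (PL.C (nat_lit 0x3941d4b) (nat_lit 0x22432b6a9b00) (nat_lit 0x0)
  (PL.C (nat_lit 0x3947ee9) (nat_lit 0x0) (nat_lit 0x114f0a04ec2fc0)
  (PL.C (nat_lit 0x3967a85) (nat_lit 0x0) (nat_lit 0x3895bd3a5800)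
  (PL.C (nat_lit 0x396878e) (nat_lit 0x0) (nat_lit 0x1861b6d91b80)
  (PL.C (nat_lit 0x39dc292) (nat_lit 0x0) (nat_lit 0x3578900587080)
  (PL.C (nat_lit 0x39e10c6) (nat_lit 0x26ee3f365fc00) (nat_lit 0x0)
  (PL.C (nat_lit 0x39f472e) (nat_lit 0x3d19ddfa580) (nat_lit 0x0)
  (PL.C (nat_lit 0x3a23921) (nat_lit 0x0) (nat_lit 0x51d4dc0547100) lm_149))))))))))))))))))))

noncomputable def lm_147 : PL :=
  (PL.C (nat_lit 0x375b06d) (nat_lit 0x0) (nat_lit 0x1aad6257f1780)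
  (PL.C (nat_lit 0x3784545) (nat_lit 0xb315aceb800) (nat_lit 0x0)
  (PL.C (nat_lit 0x379b3cf) (nat_lit 0x0) (nat_lit 0xd1a6eb51e4880)
  (PL.C (nat_lit 0x37ca943) (nat_lit 0x0) (nat_lit 0xf931cbbbe92c0)
  (PL.C (nat_lit 0x37d28ac) (nat_lit 0xfebc1bd3bcc0) (nat_lit 0x0)
  (PL.C (nat_lit 0x37dbcf4) (nat_lit 0x0) (nat_lit 0x624062ece00)
  (PL.C (nat_lit 0x37f2dfb) (nat_lit 0x0) (nat_lit 0x2b779754800)
  (PL.C (nat_lit 0x3800a09) (nat_lit 0x22432b6a9b00) (nat_lit 0x0)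
  (PL.C (nat_lit 0x381337b) (nat_lit 0x0) (nat_lit 0xaf921e25ae80)
  (PL.C (nat_lit 0x3815c79) (nat_lit 0x0) (nat_lit 0xc21ff120bfb00)
  (PL.C (nat_lit 0x381a312) (nat_lit 0x0) (nat_lit 0x16e4f884a0a00)
  (PL.C (nat_lit 0x382f485) (nat_lit 0x0) (nat_lit 0xa6a5d4453500)
  (PL.C (nat_lit 0x383824c) (nat_lit 0x0) (nat_lit 0xa9aff446de00)
  (PL.C (nat_lit 0x3842b62) (nat_lit 0x6d570fab800) (nat_lit 0x0)
  (PL.C (nat_lit 0x384d8f4) (nat_lit 0xe1dbdde06c80) (nat_lit 0x0)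
  (PL.C (nat_lit 0x384f5b5) (nat_lit 0x598ad675c00) (nat_lit 0x0)
  (PL.C (nat_lit 0x3870237) (nat_lit 0x11835854abe00) (nat_lit 0x0)
  (PL.C (nat_lit 0x387aaa8) (nat_lit 0x1251d3b4000) (nat_lit 0x0)
  (PL.C (nat_lit 0x3885c1d) (nat_lit 0x28c01ddf3800) (nat_lit 0x0)
  (PL.C (nat_lit 0x388827a) (nat_lit 0x77ab4b7f7c180) (nat_lit 0x0) lm_148))))))))))))))))))))

noncomputable def lm_146 : PL :=
  (PL.C (nat_lit 0x35a6e9a) (nat_lit 0x0) (nat_lit 0x959ace4822000)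
  (PL.C (nat_lit 0x35ab71e) (nat_lit 0x0) (nat_lit 0xdfc4d6d2c00)
  (PL.C (nat_lit 0x35ca08c) (nat_lit 0x5800b5a94e400) (nat_lit 0x0)
  (PL.C (nat_lit 0x35f5d95) (nat_lit 0x3fa37bc86ed940) (nat_lit 0x0)
  (PL.C (nat_lit 0x360d676) (nat_lit 0xcfecd50a180) (nat_lit 0x0)
  (PL.C (nat_lit 0x3611be6) (nat_lit 0xce0afd4481400) (nat_lit 0x0)
  (PL.C (nat_lit 0x36239b6) (nat_lit 0x0) (nat_lit 0x602691bc9900)
  (PL.C (nat_lit 0x365ceb9) (nat_lit 0x605f750b27e80) (nat_lit 0x0)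
  (PL.C (nat_lit 0x365ee64) (nat_lit 0x2fee8d03d3000) (nat_lit 0x0)
  (PL.C (nat_lit 0x3661833) (nat_lit 0x0) (nat_lit 0xb315aceb800)
  (PL.C (nat_lit 0x36985d6) (nat_lit 0x45c650a157000) (nat_lit 0x0)
  (PL.C (nat_lit 0x36a1b22) (nat_lit 0x0) (nat_lit 0xb69b35f14b40)
  (PL.C (nat_lit 0x36a5b04) (nat_lit 0x0) (nat_lit 0x9283668800)
  (PL.C (nat_lit 0x36d6b7c) (nat_lit 0x2fee8d03d3000) (nat_lit 0x0)
  (PL.C (nat_lit 0x36e782b) (nat_lit 0x0) (nat_lit 0x2234241e67000)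
  (PL.C (nat_lit 0x3702fd5) (nat_lit 0x153489d88880) (nat_lit 0x0)
  (PL.C (nat_lit 0x371e1dc) (nat_lit 0x0) (nat_lit 0xe6bc4db8ba00)
  (PL.C (nat_lit 0x3735886) (nat_lit 0x315ffbc8c5080) (nat_lit 0x0)
  (PL.C (nat_lit 0x37487f1) (nat_lit 0x0) (nat_lit 0x1c672f71db00)
  (PL.C (nat_lit 0x375a01a) (nat_lit 0x28bf5daec9740) (nat_lit 0x0) lm_147))))))))))))))))))))

noncomputable def lm_145 : PL :=
  (PL.C (nat_lit 0x348e9a7) (nat_lit 0x45c3e4dac87f80) (nat_lit 0x0)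
  (PL.C (nat_lit 0x34a00b2) (nat_lit 0x151bed3713b00) (nat_lit 0x0)
  (PL.C (nat_lit 0x34b48ff) (nat_lit 0x17b0b199bac80) (nat_lit 0x0)
  (PL.C (nat_lit 0x34ccd8a) (nat_lit 0x1d8830059d00) (nat_lit 0x0)
  (PL.C (nat_lit 0x34d307f) (nat_lit 0x0) (nat_lit 0xec8a00fe7c800)
  (PL.C (nat_lit 0x34dcca6) (nat_lit 0xe1a2f81db500) (nat_lit 0x0)
  (PL.C (nat_lit 0x34ed781) (nat_lit 0x0) (nat_lit 0xb01714e4fa8a0)
  (PL.C (nat_lit 0x34f10a2) (nat_lit 0x0) (nat_lit 0x2214c4441b00)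
  (PL.C (nat_lit 0x350baf1) (nat_lit 0x424ddd9494280) (nat_lit 0x0)
  (PL.C (nat_lit 0x351403e) (nat_lit 0xc7ab38944480) (nat_lit 0x0)
  (PL.C (nat_lit 0x351d76d) (nat_lit 0x4146ea2cca000) (nat_lit 0x0)
  (PL.C (nat_lit 0x3527a7c) (nat_lit 0x0) (nat_lit 0x30877ba6acd80)
  (PL.C (nat_lit 0x352a90b) (nat_lit 0xd0549a7baa100) (nat_lit 0x0)
  (PL.C (nat_lit 0x352c254) (nat_lit 0x0) (nat_lit 0x9283668800)
  (PL.C (nat_lit 0x3537eeb) (nat_lit 0x6f26d716400) (nat_lit 0x0)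
  (PL.C (nat_lit 0x3552915) (nat_lit 0x0) (nat_lit 0x7009c378a400)
  (PL.C (nat_lit 0x35621b7) (nat_lit 0x494954b70b920) (nat_lit 0x0)
  (PL.C (nat_lit 0x3572202) (nat_lit 0x83f32935c000) (nat_lit 0x0)
  (PL.C (nat_lit 0x357db42) (nat_lit 0x0) (nat_lit 0xe8086266d200)
  (PL.C (nat_lit 0x358cdfe) (nat_lit 0x5ac699b8a780) (nat_lit 0x0) lm_146))))))))))))))))))))

noncomputable def lm_144 : PL :=
  (PL.C (nat_lit 0x334ba3b) (nat_lit 0x424ddd9494280) (nat_lit 0x0)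
  (PL.C (nat_lit 0x334fe74) (nat_lit 0x2049547b67780) (nat_lit 0x0)
  (PL.C (nat_lit 0x3354681) (nat_lit 0x35c0bd3f4fe00) (nat_lit 0x0)
  (PL.C (nat_lit 0x3355522) (nat_lit 0x480845ea480) (nat_lit 0x0)
  (PL.C (nat_lit 0x33611a4) (nat_lit 0x0) (nat_lit 0x1a24742cb5c0)
  (PL.C (nat_lit 0x3372a02) (nat_lit 0x2d613484400) (nat_lit 0x0)
  (PL.C (nat_lit 0x33773be) (nat_lit 0x14f711b98300) (nat_lit 0x0)
  (PL.C (nat_lit 0x3388ba4) (nat_lit 0x10d154f213000) (nat_lit 0x0)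
  (PL.C (nat_lit 0x338ff2b) (nat_lit 0x0) (nat_lit 0x11cbb2f1bbe00)
  (PL.C (nat_lit 0x33d93c2) (nat_lit 0x16c9c3429c00) (nat_lit 0x0)
  (PL.C (nat_lit 0x33dde9c) (nat_lit 0x0) (nat_lit 0x7587071ba5180)
  (PL.C (nat_lit 0x33e9c44) (nat_lit 0x1b07a207f700) (nat_lit 0x0)
  (PL.C (nat_lit 0x340193d) (nat_lit 0x56f32cdf8600) (nat_lit 0x0)
  (PL.C (nat_lit 0x34140fd) (nat_lit 0x0) (nat_lit 0x2146babab2e80)
  (PL.C (nat_lit 0x341ff6b) (nat_lit 0x53fb567b840) (nat_lit 0x0)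
  (PL.C (nat_lit 0x342338c) (nat_lit 0x0) (nat_lit 0x2067c5831b00)
  (PL.C (nat_lit 0x3425849) (nat_lit 0x6b2b0a76d43c0) (nat_lit 0x0)
  (PL.C (nat_lit 0x3442665) (nat_lit 0x0) (nat_lit 0x3d10286cad700)
  (PL.C (nat_lit 0x3455bca) (nat_lit 0x0) (nat_lit 0x179c8b81c3c880)
  (PL.C (nat_lit 0x348ddd6) (nat_lit 0x60375bf59180) (nat_lit 0x0) lm_145))))))))))))))))))))

noncomputable def lm_143 : PL :=
  (PL.C (nat_lit 0x3246042) (nat_lit 0x0) (nat_lit 0xe8086266d200)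
  (PL.C (nat_lit 0x324e7e4) (nat_lit 0x0) (nat_lit 0x9283668800)
  (PL.C (nat_lit 0x325050f) (nat_lit 0x1b99548c6000) (nat_lit 0x0)
  (PL.C (nat_lit 0x3263dda) (nat_lit 0x0) (nat_lit 0x16e4f884a0a00)
  (PL.C (nat_lit 0x3268c7d) (nat_lit 0x0) (nat_lit 0x4e84fb8e0c00)
  (PL.C (nat_lit 0x3268c9f) (nat_lit 0x3e2c1eaae7800) (nat_lit 0x0)
  (PL.C (nat_lit 0x326d09f) (nat_lit 0x181d77221300) (nat_lit 0x0)
  (PL.C (nat_lit 0x32943cf) (nat_lit 0x0) (nat_lit 0xf7bf7d84f640)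
  (PL.C (nat_lit 0x329fe6e) (nat_lit 0x99724874ed80) (nat_lit 0x0)
  (PL.C (nat_lit 0x32c68ac) (nat_lit 0x0) (nat_lit 0x784c2d4bf40)
  (PL.C (nat_lit 0x32ef52e) (nat_lit 0x1bfc1ca17ded00) (nat_lit 0x0)
  (PL.C (nat_lit 0x32f0d7c) (nat_lit 0x0) (nat_lit 0x360f440fee00)
  (PL.C (nat_lit 0x32f44cd) (nat_lit 0x17af4ea45c300) (nat_lit 0x0)
  (PL.C (nat_lit 0x330c79b) (nat_lit 0x25954326ff400) (nat_lit 0x0)
  (PL.C (nat_lit 0x3326065) (nat_lit 0x0) (nat_lit 0x322bae051840)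
  (PL.C (nat_lit 0x332ba54) (nat_lit 0x0) (nat_lit 0x2067c5831b00)
  (PL.C (nat_lit 0x332e335) (nat_lit 0x10d79dcb0aa40) (nat_lit 0x0)
  (PL.C (nat_lit 0x332ffb2) (nat_lit 0x1d42db22d4a00) (nat_lit 0x0)
  (PL.C (nat_lit 0x333bade) (nat_lit 0xe1a2f81db500) (nat_lit 0x0)
  (PL.C (nat_lit 0x3343395) (nat_lit 0x11247123e280) (nat_lit 0x0) lm_144))))))))))))))))))))

noncomputable def lm_142 : PL :=
  (PL.C (nat_lit 0x30d7c5a) (nat_lit 0x0) (nat_lit 0x16264f30d37a00)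
  (PL.C (nat_lit 0x30dbe5e) (nat_lit 0xccbe0559700) (nat_lit 0x0)
  (PL.C (nat_lit 0x30ec466) (nat_lit 0x0) (nat_lit 0xc7ab38944480)
  (PL.C (nat_lit 0x30fb89b) (nat_lit 0x59be3c1f7d780) (nat_lit 0x0)
  (PL.C (nat_lit 0x310acc2) (nat_lit 0x27d5c915d6e80) (nat_lit 0x0)
  (PL.C (nat_lit 0x3132164) (nat_lit 0x2049547b67780) (nat_lit 0x0)
  (PL.C (nat_lit 0x313dd61) (nat_lit 0x0) (nat_lit 0xa3082018c4c0)
  (PL.C (nat_lit 0x3171cc9) (nat_lit 0x0) (nat_lit 0x47493a69f800)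
  (PL.C (nat_lit 0x318b499) (nat_lit 0x0) (nat_lit 0x17053e0b400)
  (PL.C (nat_lit 0x3192866) (nat_lit 0x0) (nat_lit 0x1b1e70d132f5c0)
  (PL.C (nat_lit 0x31d223e) (nat_lit 0x0) (nat_lit 0xcfecd50a180)
  (PL.C (nat_lit 0x31dec2f) (nat_lit 0x0) (nat_lit 0x598ad675c00)
  (PL.C (nat_lit 0x31e093c) (nat_lit 0x0) (nat_lit 0x4941b344000)
  (PL.C (nat_lit 0x31fe052) (nat_lit 0x3e8012c3f0980) (nat_lit 0x0)
  (PL.C (nat_lit 0x31feacb) (nat_lit 0x12b32117e4e00) (nat_lit 0x0)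
  (PL.C (nat_lit 0x3209349) (nat_lit 0x0) (nat_lit 0x4dedc7decb980)
  (PL.C (nat_lit 0x321f98c) (nat_lit 0x0) (nat_lit 0x7a52e17f0180)
  (PL.C (nat_lit 0x3227d34) (nat_lit 0x0) (nat_lit 0x23f0958524700)
  (PL.C (nat_lit 0x323065c) (nat_lit 0xdfe345d44f00) (nat_lit 0x0)
  (PL.C (nat_lit 0x32372f1) (nat_lit 0x0) (nat_lit 0xff8a8e15e00) lm_143))))))))))))))))))))

noncomputable def lm_141 : PL :=
  (PL.C (nat_lit 0x2fe8772) (nat_lit 0x40c36f2abc00) (nat_lit 0x0)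
  (PL.C (nat_lit 0x30027c6) (nat_lit 0x151bed3713b00) (nat_lit 0x0)
  (PL.C (nat_lit 0x3013e8a) (nat_lit 0x0) (nat_lit 0x12bfb091b2c00)
  (PL.C (nat_lit 0x3016e1f) (nat_lit 0x6e0d4d575800) (nat_lit 0x0)
  (PL.C (nat_lit 0x301a83a) (nat_lit 0x1a2805a6114c0) (nat_lit 0x0)
  (PL.C (nat_lit 0x3024781) (nat_lit 0x4e335d227d40) (nat_lit 0x0)
  (PL.C (nat_lit 0x30289e3) (nat_lit 0x0) (nat_lit 0x2234241e67000)
  (PL.C (nat_lit 0x3035f9a) (nat_lit 0xb73e6b6200) (nat_lit 0x0)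
  (PL.C (nat_lit 0x3036a71) (nat_lit 0x24f47ab97afc40) (nat_lit 0x0)
  (PL.C (nat_lit 0x30487e2) (nat_lit 0x1bfc1ca17ded00) (nat_lit 0x0)
  (PL.C (nat_lit 0x304a751) (nat_lit 0x24fd876739d80) (nat_lit 0x0)
  (PL.C (nat_lit 0x305883c) (nat_lit 0x0) (nat_lit 0xe6bc4db8ba00)
  (PL.C (nat_lit 0x305aa4d) (nat_lit 0x0) (nat_lit 0x114f0a04ec2fc0)
  (PL.C (nat_lit 0x30716fc) (nat_lit 0x0) (nat_lit 0x624062ece00)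
  (PL.C (nat_lit 0x30875b2) (nat_lit 0x22c7a3b914e00) (nat_lit 0x0)
  (PL.C (nat_lit 0x309fa4e) (nat_lit 0x0) (nat_lit 0x6e08689645f40)
  (PL.C (nat_lit 0x30b703b) (nat_lit 0x0) (nat_lit 0xe3f099d9bd40)
  (PL.C (nat_lit 0x30bb66e) (nat_lit 0x0) (nat_lit 0x556591093e80)
  (PL.C (nat_lit 0x30bc163) (nat_lit 0x2da81e0beead00) (nat_lit 0x0)
  (PL.C (nat_lit 0x30c30e4) (nat_lit 0x0) (nat_lit 0x9283668800) lm_142))))))))))))))))))))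

noncomputable def lm_140 : PL :=
  (PL.C (nat_lit 0x2e7a63c) (nat_lit 0x9283668800) (nat_lit 0x0)
  (PL.C (nat_lit 0x2eba8e1) (nat_lit 0x279490df5b00) (nat_lit 0x0)
  (PL.C (nat_lit 0x2ebbab1) (nat_lit 0x1e4d170cfe0400) (nat_lit 0x0)
  (PL.C (nat_lit 0x2ebf9db) (nat_lit 0xc06afdb45400) (nat_lit 0x0)
  (PL.C (nat_lit 0x2ee5c3a) (nat_lit 0x57e943d33680) (nat_lit 0x0)
  (PL.C (nat_lit 0x2ef501e) (nat_lit 0x6d570fab800) (nat_lit 0x0)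
  (PL.C (nat_lit 0x2efd3c6) (nat_lit 0xc01b3055bfc0) (nat_lit 0x0)
  (PL.C (nat_lit 0x2f18b8f) (nat_lit 0x20a06db30d3680) (nat_lit 0x0)
  (PL.C (nat_lit 0x2f23b58) (nat_lit 0x1251d3b4000) (nat_lit 0x0)
  (PL.C (nat_lit 0x2f3b026) (nat_lit 0x1e7fd11aac100) (nat_lit 0x0)
  (PL.C (nat_lit 0x2f560a7) (nat_lit 0xeeb8ba3db780) (nat_lit 0x0)
  (PL.C (nat_lit 0x2f5beda) (nat_lit 0x0) (nat_lit 0x212a6048a9f300)
  (PL.C (nat_lit 0x2f61bfc) (nat_lit 0x0) (nat_lit 0x7c9c30d71380)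
  (PL.C (nat_lit 0x2f909c7) (nat_lit 0x218bf579a200) (nat_lit 0x0)
  (PL.C (nat_lit 0x2f961c5) (nat_lit 0x38724bdc95240) (nat_lit 0x0)
  (PL.C (nat_lit 0x2f9996a) (nat_lit 0xc7ab38944480) (nat_lit 0x0)
  (PL.C (nat_lit 0x2fb1696) (nat_lit 0x738392ccb800) (nat_lit 0x0)
  (PL.C (nat_lit 0x2fd088e) (nat_lit 0x269691cea1a00) (nat_lit 0x0)
  (PL.C (nat_lit 0x2fe2d9a) (nat_lit 0x0) (nat_lit 0xc01b3055bfc0)
  (PL.C (nat_lit 0x2fe7f3e) (nat_lit 0x3d02379808ac0) (nat_lit 0x0) lm_141))))))))))))))))))))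

noncomputable def lm_139 : PL :=
  (PL.C (nat_lit 0x2d4a682) (nat_lit 0x22c7a3b914e00) (nat_lit 0x0)
  (PL.C (nat_lit 0x2d5bc16) (nat_lit 0x464c3a9954900) (nat_lit 0x0)
  (PL.C (nat_lit 0x2d5d6e1) (nat_lit 0x3095140d34300) (nat_lit 0x0)
  (PL.C (nat_lit 0x2d70f59) (nat_lit 0xb9c07d800) (nat_lit 0x0)
  (PL.C (nat_lit 0x2d79b8a) (nat_lit 0x59c4251a88b00) (nat_lit 0x0)
  (PL.C (nat_lit 0x2d8d0a9) (nat_lit 0x0) (nat_lit 0x24fc3177d1640)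
  (PL.C (nat_lit 0x2d9e274) (nat_lit 0x1aba9f1ee00) (nat_lit 0x0)
  (PL.C (nat_lit 0x2da0ece) (nat_lit 0xed0a945def80) (nat_lit 0x0)
  (PL.C (nat_lit 0x2da90c5) (nat_lit 0x0) (nat_lit 0x699e517ac6b00)
  (PL.C (nat_lit 0x2db5ab4) (nat_lit 0x1aa9c756f500) (nat_lit 0x0)
  (PL.C (nat_lit 0x2dbfcd3) (nat_lit 0x42122053b000) (nat_lit 0x0)
  (PL.C (nat_lit 0x2dd2cfc) (nat_lit 0x9283668800) (nat_lit 0x0)
  (PL.C (nat_lit 0x2dd6b2d) (nat_lit 0x0) (nat_lit 0x3d10286cad700)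
  (PL.C (nat_lit 0x2de45d4) (nat_lit 0x0) (nat_lit 0x1b07a207f700)
  (PL.C (nat_lit 0x2df0ddd) (nat_lit 0x0) (nat_lit 0xff8a8e15e00)
  (PL.C (nat_lit 0x2df7503) (nat_lit 0x598ad675c00) (nat_lit 0x0)
  (PL.C (nat_lit 0x2df793e) (nat_lit 0x0) (nat_lit 0xf2ab943143d00)
  (PL.C (nat_lit 0x2e163ae) (nat_lit 0x0) (nat_lit 0x45fff24be8700)
  (PL.C (nat_lit 0x2e1f34a) (nat_lit 0x0) (nat_lit 0x16d1acdf1fc600)
  (PL.C (nat_lit 0x2e48c04) (nat_lit 0x7e495c0de980) (nat_lit 0x0) lm_140))))))))))))))))))))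

noncomputable def lm_138 : PL :=
  (PL.C (nat_lit 0x2c1ce16) (nat_lit 0x0) (nat_lit 0x1aa7cb57054580)
  (PL.C (nat_lit 0x2c20239) (nat_lit 0x2287d25d28d00) (nat_lit 0x0)
  (PL.C (nat_lit 0x2c235d2) (nat_lit 0x0) (nat_lit 0x6fe26b69600)
  (PL.C (nat_lit 0x2c2dc72) (nat_lit 0x0) (nat_lit 0x1996f64d300400)
  (PL.C (nat_lit 0x2c4af6e) (nat_lit 0x0) (nat_lit 0x17f446ee9e4940)
  (PL.C (nat_lit 0x2c4c7e8) (nat_lit 0x0) (nat_lit 0xb2f8007c000)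
  (PL.C (nat_lit 0x2c56506) (nat_lit 0xebcbaf45800) (nat_lit 0x0)
  (PL.C (nat_lit 0x2c5dc83) (nat_lit 0x45c3e4dac87f80) (nat_lit 0x0)
  (PL.C (nat_lit 0x2c674c2) (nat_lit 0x13bd3c7f2440) (nat_lit 0x0)
  (PL.C (nat_lit 0x2c6c076) (nat_lit 0x559d5c4e4fa40) (nat_lit 0x0)
  (PL.C (nat_lit 0x2c7f29d) (nat_lit 0x581d29df8d940) (nat_lit 0x0)
  (PL.C (nat_lit 0x2c84a1e) (nat_lit 0x0) (nat_lit 0xb4af26ec8800)
  (PL.C (nat_lit 0x2c92532) (nat_lit 0x2156252c6ae00) (nat_lit 0x0)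
  (PL.C (nat_lit 0x2c978bb) (nat_lit 0x1e4d170cfe0400) (nat_lit 0x0)
  (PL.C (nat_lit 0x2cb1e82) (nat_lit 0x5ac699b8a780) (nat_lit 0x0)
  (PL.C (nat_lit 0x2cb5015) (nat_lit 0x402579303e940) (nat_lit 0x0)
  (PL.C (nat_lit 0x2cf1d14) (nat_lit 0x9283668800) (nat_lit 0x0)
  (PL.C (nat_lit 0x2d165c6) (nat_lit 0x59c4251a88b00) (nat_lit 0x0)
  (PL.C (nat_lit 0x2d1dd8a) (nat_lit 0x0) (nat_lit 0x2df88b759c00)
  (PL.C (nat_lit 0x2d2d9a6) (nat_lit 0x0) (nat_lit 0x45fff24be8700) lm_139))))))))))))))))))))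

noncomputable def lm_137 : PL :=
  (PL.C (nat_lit 0x2b44492) (nat_lit 0xce0afd4481400) (nat_lit 0x0)
  (PL.C (nat_lit 0x2b4d267) (nat_lit 0xbad7f3ecd700) (nat_lit 0x0)
  (PL.C (nat_lit 0x2b5552a) (nat_lit 0x4442d6b29c80) (nat_lit 0x0)
  (PL.C (nat_lit 0x2b55955) (nat_lit 0x0) (nat_lit 0x5f3cbd467db00)
  (PL.C (nat_lit 0x2b593e7) (nat_lit 0x104cd8bfb000) (nat_lit 0x0)
  (PL.C (nat_lit 0x2b6e336) (nat_lit 0x7050399d4a00) (nat_lit 0x0)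
  (PL.C (nat_lit 0x2b71f36) (nat_lit 0xe10607391d880) (nat_lit 0x0)
  (PL.C (nat_lit 0x2b7c9e2) (nat_lit 0x0) (nat_lit 0x12bfb091b2c00)
  (PL.C (nat_lit 0x2b8206c) (nat_lit 0xe252ec420000) (nat_lit 0x0)
  (PL.C (nat_lit 0x2b8f597) (nat_lit 0x2b779754800) (nat_lit 0x0)
  (PL.C (nat_lit 0x2b9261e) (nat_lit 0x0) (nat_lit 0x623b8f6b7240)
  (PL.C (nat_lit 0x2ba8d7e) (nat_lit 0x0) (nat_lit 0x480845ea480)
  (PL.C (nat_lit 0x2babdeb) (nat_lit 0x0) (nat_lit 0x479af82f58200)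
  (PL.C (nat_lit 0x2bae193) (nat_lit 0x25f6991eb8f00) (nat_lit 0x0)
  (PL.C (nat_lit 0x2bc8a0c) (nat_lit 0x0) (nat_lit 0x23f0958524700)
  (PL.C (nat_lit 0x2bd74dc) (nat_lit 0x4f304fb1235c0) (nat_lit 0x0)
  (PL.C (nat_lit 0x2bea302) (nat_lit 0x0) (nat_lit 0x10418cda7e0000)
  (PL.C (nat_lit 0x2bf2672) (nat_lit 0x0) (nat_lit 0xe0a0733a9400)
  (PL.C (nat_lit 0x2c0512d) (nat_lit 0x0) (nat_lit 0x5fdd16a0555c0)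
  (PL.C (nat_lit 0x2c189a3) (nat_lit 0xa7eefecf66200) (nat_lit 0x0) lm_138))))))))))))))))))))

noncomputable def lm_136 : PL :=
  (PL.C (nat_lit 0x29e477e) (nat_lit 0x0) (nat_lit 0x2d3d78904600)
  (PL.C (nat_lit 0x29eb0c4) (nat_lit 0x35a1c68e380) (nat_lit 0x0)
  (PL.C (nat_lit 0x29fc444) (nat_lit 0x0) (nat_lit 0x21a937017500)
  (PL.C (nat_lit 0x2a0e7b6) (nat_lit 0x0) (nat_lit 0xed0a945def80)
  (PL.C (nat_lit 0x2a34137) (nat_lit 0x12b32117e4e00) (nat_lit 0x0)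
  (PL.C (nat_lit 0x2a3e83c) (nat_lit 0x0) (nat_lit 0x150ef18bfa000)
  (PL.C (nat_lit 0x2a56d04) (nat_lit 0x0) (nat_lit 0x7587071ba5180)
  (PL.C (nat_lit 0x2a5e0cc) (nat_lit 0xdfe345d44f00) (nat_lit 0x0)
  (PL.C (nat_lit 0x2a63c75) (nat_lit 0x0) (nat_lit 0xff8a8e15e00)
  (PL.C (nat_lit 0x2a704ca) (nat_lit 0x1c452918cba00) (nat_lit 0x0)
  (PL.C (nat_lit 0x2a81441) (nat_lit 0x0) (nat_lit 0x339f5503e800)
  (PL.C (nat_lit 0x2ab254b) (nat_lit 0x374389b86e700) (nat_lit 0x0)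
  (PL.C (nat_lit 0x2ac2af9) (nat_lit 0x29e4e62581a00) (nat_lit 0x0)
  (PL.C (nat_lit 0x2adeef7) (nat_lit 0x1b99548c6000) (nat_lit 0x0)
  (PL.C (nat_lit 0x2b036c1) (nat_lit 0x2e96a41d5d800) (nat_lit 0x0)
  (PL.C (nat_lit 0x2b17d47) (nat_lit 0xc56e9016700) (nat_lit 0x0)
  (PL.C (nat_lit 0x2b2af29) (nat_lit 0xaf94756b800) (nat_lit 0x0)
  (PL.C (nat_lit 0x2b344c9) (nat_lit 0x0) (nat_lit 0x375a8ef679b00)
  (PL.C (nat_lit 0x2b3fad6) (nat_lit 0x0) (nat_lit 0x1d3992aa65700)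
  (PL.C (nat_lit 0x2b408d7) (nat_lit 0x8f9245db5800) (nat_lit 0x0) lm_137))))))))))))))))))))

noncomputable def lm_135 : PL :=
  (PL.C (nat_lit 0x2930f8e) (nat_lit 0x0) (nat_lit 0x6db162f9e8000)
  (PL.C (nat_lit 0x2942b71) (nat_lit 0x56f32cdf8600) (nat_lit 0x0)
  (PL.C (nat_lit 0x2943fc4) (nat_lit 0xb06d5cd395300) (nat_lit 0x0)
  (PL.C (nat_lit 0x2945816) (nat_lit 0x1fa910dc40a00) (nat_lit 0x0)
  (PL.C (nat_lit 0x29547ba) (nat_lit 0x0) (nat_lit 0x1a63bdecf6e00)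
  (PL.C (nat_lit 0x2956756) (nat_lit 0x0) (nat_lit 0x738392ccb800)
  (PL.C (nat_lit 0x2957fc1) (nat_lit 0x17b0b199bac80) (nat_lit 0x0)
  (PL.C (nat_lit 0x296634a) (nat_lit 0x0) (nat_lit 0xb7363655fd100)
  (PL.C (nat_lit 0x2971c4a) (nat_lit 0x0) (nat_lit 0x8b65f099e80)
  (PL.C (nat_lit 0x2972a0c) (nat_lit 0x3a843099ae00) (nat_lit 0x0)
  (PL.C (nat_lit 0x29875f4) (nat_lit 0x35a1c68e380) (nat_lit 0x0)
  (PL.C (nat_lit 0x298f75c) (nat_lit 0x0) (nat_lit 0x4ed533fe2c00)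
  (PL.C (nat_lit 0x29914a5) (nat_lit 0x967b710b4fa40) (nat_lit 0x0)
  (PL.C (nat_lit 0x299da47) (nat_lit 0x0) (nat_lit 0x11cbb2f1bbe00)
  (PL.C (nat_lit 0x299faa2) (nat_lit 0x0) (nat_lit 0x2541e264bdf80)
  (PL.C (nat_lit 0x29b7ba2) (nat_lit 0x0) (nat_lit 0x15b78c74d90580)
  (PL.C (nat_lit 0x29bf6f4) (nat_lit 0x187035b65ea00) (nat_lit 0x0)
  (PL.C (nat_lit 0x29d2abd) (nat_lit 0x15ba5f2bb400) (nat_lit 0x0)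
  (PL.C (nat_lit 0x29d8c7e) (nat_lit 0x0) (nat_lit 0xc4ca65675c240)
  (PL.C (nat_lit 0x29e0b09) (nat_lit 0xeeb8ba3db780) (nat_lit 0x0) lm_136))))))))))))))))))))

noncomputable def lm_134 : PL :=
  (PL.C (nat_lit 0x282e892) (nat_lit 0x0) (nat_lit 0x3d19ddfa580)
  (PL.C (nat_lit 0x2842598) (nat_lit 0x22917bfe2700) (nat_lit 0x0)
  (PL.C (nat_lit 0x284914e) (nat_lit 0x0) (nat_lit 0x582aed7b6e00)
  (PL.C (nat_lit 0x2850bea) (nat_lit 0x5dfc8800ce80) (nat_lit 0x0)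
  (PL.C (nat_lit 0x286e184) (nat_lit 0x0) (nat_lit 0x1a90bb46d0280)
  (PL.C (nat_lit 0x287795a) (nat_lit 0x0) (nat_lit 0x5ac26908800)
  (PL.C (nat_lit 0x28788ed) (nat_lit 0x0) (nat_lit 0xb315aceb800)
  (PL.C (nat_lit 0x287bfb6) (nat_lit 0x0) (nat_lit 0xc7ab38944480)
  (PL.C (nat_lit 0x288715e) (nat_lit 0x0) (nat_lit 0x1cc3893c2a300)
  (PL.C (nat_lit 0x28984db) (nat_lit 0x0) (nat_lit 0xe112b9e75b00)
  (PL.C (nat_lit 0x28a1dc2) (nat_lit 0x0) (nat_lit 0xdfc4d6d2c00)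
  (PL.C (nat_lit 0x28b31f5) (nat_lit 0xaaeda0ad91140) (nat_lit 0x0)
  (PL.C (nat_lit 0x28c22ea) (nat_lit 0x0) (nat_lit 0xbf615fb490d00)
  (PL.C (nat_lit 0x28d1beb) (nat_lit 0x0) (nat_lit 0x411e85c05a00)
  (PL.C (nat_lit 0x28e39cf) (nat_lit 0x0) (nat_lit 0x19069e13f0480)
  (PL.C (nat_lit 0x28e4bec) (nat_lit 0x361442a64a00) (nat_lit 0x0)
  (PL.C (nat_lit 0x28f273c) (nat_lit 0x5a560bb43a00) (nat_lit 0x0)
  (PL.C (nat_lit 0x28f73fa) (nat_lit 0x0) (nat_lit 0x959ace4822000)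
  (PL.C (nat_lit 0x290bc06) (nat_lit 0x0) (nat_lit 0x951bb6f8e7080)
  (PL.C (nat_lit 0x2923c2f) (nat_lit 0x0) (nat_lit 0x6a60a9fd35940) lm_135))))))))))))))))))))

noncomputable def lm_133 : PL :=
  (PL.C (nat_lit 0x27397da) (nat_lit 0x10d1c5401ad00) (nat_lit 0x0)
  (PL.C (nat_lit 0x2742894) (nat_lit 0x0) (nat_lit 0x20028798da880)
  (PL.C (nat_lit 0x275a2b2) (nat_lit 0x0) (nat_lit 0x22467aaba3a00)
  (PL.C (nat_lit 0x2760808) (nat_lit 0x22917bfe2700) (nat_lit 0x0)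
  (PL.C (nat_lit 0x2773335) (nat_lit 0x0) (nat_lit 0xec8a00fe7c800)
  (PL.C (nat_lit 0x2776887) (nat_lit 0xc06afdb45400) (nat_lit 0x0)
  (PL.C (nat_lit 0x27814e8) (nat_lit 0x0) (nat_lit 0x38ce5ab94e00)
  (PL.C (nat_lit 0x2783c2b) (nat_lit 0x0) (nat_lit 0x1b99548c6000)
  (PL.C (nat_lit 0x2783fce) (nat_lit 0x0) (nat_lit 0x112711c25fe180)
  (PL.C (nat_lit 0x279252c) (nat_lit 0x0) (nat_lit 0x9283668800)
  (PL.C (nat_lit 0x27b0e3e) (nat_lit 0x0) (nat_lit 0x22467aaba3a00)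
  (PL.C (nat_lit 0x27c1c0b) (nat_lit 0x0) (nat_lit 0xf931cbbbe92c0)
  (PL.C (nat_lit 0x27cee33) (nat_lit 0x0) (nat_lit 0x95bd3cb74000)
  (PL.C (nat_lit 0x27d85d8) (nat_lit 0x0) (nat_lit 0x38ce5ab94e00)
  (PL.C (nat_lit 0x27e683e) (nat_lit 0x0) (nat_lit 0x1aa7cb57054580)
  (PL.C (nat_lit 0x27e9874) (nat_lit 0x0) (nat_lit 0x4941b344000)
  (PL.C (nat_lit 0x27fa7c2) (nat_lit 0x9c59058ae8a00) (nat_lit 0x0)
  (PL.C (nat_lit 0x281a76e) (nat_lit 0x10d1c5401ad00) (nat_lit 0x0)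
  (PL.C (nat_lit 0x282b999) (nat_lit 0x38724bdc95240) (nat_lit 0x0)
  (PL.C (nat_lit 0x282c8e9) (nat_lit 0x0) (nat_lit 0x1af4a76622980) lm_134))))))))))))))))))))

noncomputable def lm_132 : PL :=
  (PL.C (nat_lit 0x262d2d1) (nat_lit 0x0) (nat_lit 0x1197c108e700)
  (PL.C (nat_lit 0x262ff46) (nat_lit 0x0) (nat_lit 0x17a1b1742de040)
  (PL.C (nat_lit 0x2640675) (nat_lit 0xaaeda0ad91140) (nat_lit 0x0)
  (PL.C (nat_lit 0x26451ae) (nat_lit 0x0) (nat_lit 0xa878566bef00)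
  (PL.C (nat_lit 0x265c07d) (nat_lit 0x0) (nat_lit 0x13a32157d00)
  (PL.C (nat_lit 0x2696084) (nat_lit 0x35cafb8456600) (nat_lit 0x0)
  (PL.C (nat_lit 0x269e95f) (nat_lit 0x23dfb5f7f24f80) (nat_lit 0x0)
  (PL.C (nat_lit 0x26a2f74) (nat_lit 0x0) (nat_lit 0x35a1c68e380)
  (PL.C (nat_lit 0x26b1ea1) (nat_lit 0xe871d57a9100) (nat_lit 0x0)
  (PL.C (nat_lit 0x26c2616) (nat_lit 0x0) (nat_lit 0x32a6da8ae48c0)
  (PL.C (nat_lit 0x26c4fec) (nat_lit 0xb88aa11952c80) (nat_lit 0x0)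
  (PL.C (nat_lit 0x26c8011) (nat_lit 0x0) (nat_lit 0xff8a8e15e00)
  (PL.C (nat_lit 0x26cdab6) (nat_lit 0x0) (nat_lit 0xf2ab943143d00)
  (PL.C (nat_lit 0x26d500d) (nat_lit 0x0) (nat_lit 0x47dbe1544c00)
  (PL.C (nat_lit 0x26ef1f2) (nat_lit 0x0) (nat_lit 0x1d599231e08500)
  (PL.C (nat_lit 0x26ff799) (nat_lit 0x59bd143a69cc0) (nat_lit 0x0)
  (PL.C (nat_lit 0x2712314) (nat_lit 0x5a560bb43a00) (nat_lit 0x0)
  (PL.C (nat_lit 0x2717cba) (nat_lit 0xdf2905f4d2c0) (nat_lit 0x0)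
  (PL.C (nat_lit 0x271ba41) (nat_lit 0x0) (nat_lit 0x18252b22c6e00)
  (PL.C (nat_lit 0x2722533) (nat_lit 0x0) (nat_lit 0x28fbba91800) lm_133))))))))))))))))))))

noncomputable def lm_131 : PL :=
  (PL.C (nat_lit 0x2563da6) (nat_lit 0x0) (nat_lit 0x10418cda7e0000)
  (PL.C (nat_lit 0x2573bcf) (nat_lit 0x0) (nat_lit 0x2fdcbd7dfe7a80)
  (PL.C (nat_lit 0x2574dae) (nat_lit 0x0) (nat_lit 0xdad4aafe04c0)
  (PL.C (nat_lit 0x2581cec) (nat_lit 0x16104297000) (nat_lit 0x0)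
  (PL.C (nat_lit 0x2587101) (nat_lit 0x0) (nat_lit 0x1197c108e700)
  (PL.C (nat_lit 0x258a3ce) (nat_lit 0x6fe26b69600) (nat_lit 0x0)
  (PL.C (nat_lit 0x25a017a) (nat_lit 0x5dfc8800ce80) (nat_lit 0x0)
  (PL.C (nat_lit 0x25bac0a) (nat_lit 0xfbb846fb7980) (nat_lit 0x0)
  (PL.C (nat_lit 0x25c2e24) (nat_lit 0xb77bcf067f900) (nat_lit 0x0)
  (PL.C (nat_lit 0x25c7662) (nat_lit 0x0) (nat_lit 0xdad4aafe04c0)
  (PL.C (nat_lit 0x25cb552) (nat_lit 0x0) (nat_lit 0x6c8a773a06100)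
  (PL.C (nat_lit 0x25d9c37) (nat_lit 0xac24bc64c200) (nat_lit 0x0)
  (PL.C (nat_lit 0x25e83cb) (nat_lit 0x0) (nat_lit 0x5568cca009800)
  (PL.C (nat_lit 0x25eb61c) (nat_lit 0x3a843099ae00) (nat_lit 0x0)
  (PL.C (nat_lit 0x25ed467) (nat_lit 0x0) (nat_lit 0x13a32157d00)
  (PL.C (nat_lit 0x25fc8a2) (nat_lit 0x3fba4f6f05d80) (nat_lit 0x0)
  (PL.C (nat_lit 0x261387e) (nat_lit 0xfb0e272d4c500) (nat_lit 0x0)
  (PL.C (nat_lit 0x26232be) (nat_lit 0x45c650a157000) (nat_lit 0x0)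
  (PL.C (nat_lit 0x2625d0b) (nat_lit 0x343310e29a240) (nat_lit 0x0)
  (PL.C (nat_lit 0x262be32) (nat_lit 0x7aae19416bc0) (nat_lit 0x0) lm_132))))))))))))))))))))

noncomputable def lm_130 : PL :=
  (PL.C (nat_lit 0x247344b) (nat_lit 0xc1cf484c52b40) (nat_lit 0x0)
  (PL.C (nat_lit 0x2494b69) (nat_lit 0x165464c8607d80) (nat_lit 0x0)
  (PL.C (nat_lit 0x249a572) (nat_lit 0x0) (nat_lit 0x3c552eb125000)
  (PL.C (nat_lit 0x24aca8e) (nat_lit 0x14f711b98300) (nat_lit 0x0)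
  (PL.C (nat_lit 0x24bebe8) (nat_lit 0x0) (nat_lit 0xbffaec9c200)
  (PL.C (nat_lit 0x24c24f1) (nat_lit 0x12704713114680) (nat_lit 0x0)
  (PL.C (nat_lit 0x24da97f) (nat_lit 0x28c01ddf3800) (nat_lit 0x0)
  (PL.C (nat_lit 0x24daff6) (nat_lit 0x0) (nat_lit 0x4442d6b29c80)
  (PL.C (nat_lit 0x24dd8d7) (nat_lit 0x0) (nat_lit 0xe8cb5fd59b0c0)
  (PL.C (nat_lit 0x24e6abc) (nat_lit 0x11cc1974e5e00) (nat_lit 0x0)
  (PL.C (nat_lit 0x24e759e) (nat_lit 0x0) (nat_lit 0xb69b35f14b40)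
  (PL.C (nat_lit 0x2502e2e) (nat_lit 0xdfc4d6d2c00) (nat_lit 0x0)
  (PL.C (nat_lit 0x250c599) (nat_lit 0x0) (nat_lit 0x2b779754800)
  (PL.C (nat_lit 0x251228a) (nat_lit 0x0) (nat_lit 0x17f446ee9e4940)
  (PL.C (nat_lit 0x2531b82) (nat_lit 0x4b83de93f7300) (nat_lit 0x0)
  (PL.C (nat_lit 0x253956f) (nat_lit 0x3afe8a236680) (nat_lit 0x0)
  (PL.C (nat_lit 0x254096d) (nat_lit 0xa175d66c1c980) (nat_lit 0x0)
  (PL.C (nat_lit 0x254c952) (nat_lit 0x5ac26908800) (nat_lit 0x0)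
  (PL.C (nat_lit 0x2555c06) (nat_lit 0x7aae19416bc0) (nat_lit 0x0)
  (PL.C (nat_lit 0x2562252) (nat_lit 0x0) (nat_lit 0x1c866f5e2fd80) lm_131))))))))))))))))))))

noncomputable def lm_129 : PL :=
  (PL.C (nat_lit 0x2372c38) (nat_lit 0x0) (nat_lit 0xb2f8007c000)
  (PL.C (nat_lit 0x23783a9) (nat_lit 0x0) (nat_lit 0x251779f9bef00)
  (PL.C (nat_lit 0x237a9f2) (nat_lit 0xebcbaf45800) (nat_lit 0x0)
  (PL.C (nat_lit 0x238c60e) (nat_lit 0x0) (nat_lit 0x1a63bdecf6e00)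
  (PL.C (nat_lit 0x23a12c3) (nat_lit 0x0) (nat_lit 0x15ad338e2ed900)
  (PL.C (nat_lit 0x23a16ac) (nat_lit 0x0) (nat_lit 0x3f138960f00)
  (PL.C (nat_lit 0x23a922c) (nat_lit 0x0) (nat_lit 0x1e0ee4031a400)
  (PL.C (nat_lit 0x23aed21) (nat_lit 0x0) (nat_lit 0x160f3c63c4a300)
  (PL.C (nat_lit 0x23c0adf) (nat_lit 0xd3530fda6fc0) (nat_lit 0x0)
  (PL.C (nat_lit 0x23c49bc) (nat_lit 0x180e3209d45600) (nat_lit 0x0)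
  (PL.C (nat_lit 0x23c664f) (nat_lit 0x0) (nat_lit 0x630a5dd423240)
  (PL.C (nat_lit 0x23c7a14) (nat_lit 0x0) (nat_lit 0x20a3e4c5b400)
  (PL.C (nat_lit 0x23cf8fb) (nat_lit 0x0) (nat_lit 0x8659cb66c00)
  (PL.C (nat_lit 0x23d516f) (nat_lit 0x7c6356056280) (nat_lit 0x0)
  (PL.C (nat_lit 0x2400081) (nat_lit 0x56d16446ff00) (nat_lit 0x0)
  (PL.C (nat_lit 0x240bd44) (nat_lit 0xcdb4853563a00) (nat_lit 0x0)
  (PL.C (nat_lit 0x243df26) (nat_lit 0x0) (nat_lit 0x76dd05883ea80)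
  (PL.C (nat_lit 0x2441022) (nat_lit 0x0) (nat_lit 0xdfc4d6d2c00)
  (PL.C (nat_lit 0x246e758) (nat_lit 0x0) (nat_lit 0xb2f8007c000)
  (PL.C (nat_lit 0x2470b8d) (nat_lit 0x0) (nat_lit 0x2742f98b9800) lm_130))))))))))))))))))))

noncomputable def lm_128 : PL :=
  (PL.C (nat_lit 0x2290d2c) (nat_lit 0x7e495c0de980) (nat_lit 0x0)
  (PL.C (nat_lit 0x22abb7e) (nat_lit 0x1be00718c4c00) (nat_lit 0x0)
  (PL.C (nat_lit 0x22ba72b) (nat_lit 0x59bd143a69cc0) (nat_lit 0x0)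
  (PL.C (nat_lit 0x22c63a7) (nat_lit 0x1197c108e700) (nat_lit 0x0)
  (PL.C (nat_lit 0x22d6eee) (nat_lit 0x8ab9b08efe00) (nat_lit 0x0)
  (PL.C (nat_lit 0x22e6885) (nat_lit 0x0) (nat_lit 0x36168b1c67b80)
  (PL.C (nat_lit 0x22ee823) (nat_lit 0x374389b86e700) (nat_lit 0x0)
  (PL.C (nat_lit 0x22f23b1) (nat_lit 0x0) (nat_lit 0xe8cb5fd59b0c0)
  (PL.C (nat_lit 0x22fffdd) (nat_lit 0x56cc68965600) (nat_lit 0x0)
  (PL.C (nat_lit 0x23093e4) (nat_lit 0x0) (nat_lit 0x90504bca3b00)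
  (PL.C (nat_lit 0x2313f8d) (nat_lit 0xb315aceb800) (nat_lit 0x0)
  (PL.C (nat_lit 0x23155cc) (nat_lit 0x3bd61af959080) (nat_lit 0x0)
  (PL.C (nat_lit 0x23171d3) (nat_lit 0x2d34e0e8442c0) (nat_lit 0x0)
  (PL.C (nat_lit 0x23230aa) (nat_lit 0x1ec7c6d1d3080) (nat_lit 0x0)
  (PL.C (nat_lit 0x23375aa) (nat_lit 0xa513cf76a5880) (nat_lit 0x0)
  (PL.C (nat_lit 0x233ddc4) (nat_lit 0x1daca3a02d600) (nat_lit 0x0)
  (PL.C (nat_lit 0x2359eed) (nat_lit 0x0) (nat_lit 0xaf921e25ae80)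
  (PL.C (nat_lit 0x235d1f6) (nat_lit 0x0) (nat_lit 0x2258765c35c80)
  (PL.C (nat_lit 0x2362ad4) (nat_lit 0x2049547b67780) (nat_lit 0x0)
  (PL.C (nat_lit 0x2368f9e) (nat_lit 0x4ede92fc4ad00) (nat_lit 0x0) lm_129))))))))))))))))))))

noncomputable def lm_127 : PL :=
  (PL.C (nat_lit 0x218ae0a) (nat_lit 0x0) (nat_lit 0x8b65f099e80)
  (PL.C (nat_lit 0x219b2fe) (nat_lit 0x3fba4f6f05d80) (nat_lit 0x0)
  (PL.C (nat_lit 0x219e06a) (nat_lit 0x4361779b0200) (nat_lit 0x0)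
  (PL.C (nat_lit 0x219e7f9) (nat_lit 0x0) (nat_lit 0x257ec4b3cde80)
  (PL.C (nat_lit 0x21b828a) (nat_lit 0x0) (nat_lit 0x150e547d3c380)
  (PL.C (nat_lit 0x21bfef4) (nat_lit 0x14fc10231df80) (nat_lit 0x0)
  (PL.C (nat_lit 0x21cca17) (nat_lit 0x0) (nat_lit 0x4dedc7decb980)
  (PL.C (nat_lit 0x21e9c4d) (nat_lit 0x0) (nat_lit 0x1bf59723555c00)
  (PL.C (nat_lit 0x21f8013) (nat_lit 0x0) (nat_lit 0x28c01ddf3800)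
  (PL.C (nat_lit 0x2208512) (nat_lit 0x2156252c6ae00) (nat_lit 0x0)
  (PL.C (nat_lit 0x221ecce) (nat_lit 0x1d4d871098380) (nat_lit 0x0)
  (PL.C (nat_lit 0x221ffcc) (nat_lit 0x10d154f213000) (nat_lit 0x0)
  (PL.C (nat_lit 0x2227c94) (nat_lit 0x1daca3a02d600) (nat_lit 0x0)
  (PL.C (nat_lit 0x222cd0e) (nat_lit 0x3d19ddfa580) (nat_lit 0x0)
  (PL.C (nat_lit 0x22326d2) (nat_lit 0x0) (nat_lit 0x2258765c35c80)
  (PL.C (nat_lit 0x2238456) (nat_lit 0x721ac2d9a0a40) (nat_lit 0x0)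
  (PL.C (nat_lit 0x224702d) (nat_lit 0x0) (nat_lit 0x375a8ef679b00)
  (PL.C (nat_lit 0x224c6ac) (nat_lit 0x9283668800) (nat_lit 0x0)
  (PL.C (nat_lit 0x224f7d4) (nat_lit 0x435ecc45a880) (nat_lit 0x0)
  (PL.C (nat_lit 0x225ff72) (nat_lit 0xc5cc5f452800) (nat_lit 0x0) lm_128))))))))))))))))))))

noncomputable def lm_126 : PL :=
  (PL.C (nat_lit 0x20d1809) (nat_lit 0x104cd8bfb000) (nat_lit 0x0)
  (PL.C (nat_lit 0x20eb9bd) (nat_lit 0x0) (nat_lit 0x6a60a9fd35940)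
  (PL.C (nat_lit 0x20f6886) (nat_lit 0x0) (nat_lit 0xb4af26ec8800)
  (PL.C (nat_lit 0x2107866) (nat_lit 0x0) (nat_lit 0x2df88b759c00)
  (PL.C (nat_lit 0x2116785) (nat_lit 0x165464c8607d80) (nat_lit 0x0)
  (PL.C (nat_lit 0x212707b) (nat_lit 0x27fc332531fc0) (nat_lit 0x0)
  (PL.C (nat_lit 0x21381eb) (nat_lit 0x53c1ac9ba4f80) (nat_lit 0x0)
  (PL.C (nat_lit 0x2139f4b) (nat_lit 0x218bf579a200) (nat_lit 0x0)
  (PL.C (nat_lit 0x213f2ca) (nat_lit 0x0) (nat_lit 0x6fe26b69600)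
  (PL.C (nat_lit 0x2140628) (nat_lit 0x0) (nat_lit 0x597c003e0000)
  (PL.C (nat_lit 0x214d4c9) (nat_lit 0x0) (nat_lit 0xd64191c49d80)
  (PL.C (nat_lit 0x2154732) (nat_lit 0x10d1363a9c200) (nat_lit 0x0)
  (PL.C (nat_lit 0x215a0e3) (nat_lit 0x0) (nat_lit 0x1f2678fa55100)
  (PL.C (nat_lit 0x215b786) (nat_lit 0x0) (nat_lit 0x1fdf5b955ee300)
  (PL.C (nat_lit 0x2161c65) (nat_lit 0x0) (nat_lit 0x3895bd3a5800)
  (PL.C (nat_lit 0x217016d) (nat_lit 0x0) (nat_lit 0x51d4dc0547100)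
  (PL.C (nat_lit 0x217a1f6) (nat_lit 0xf93f80ac300) (nat_lit 0x0)
  (PL.C (nat_lit 0x218402c) (nat_lit 0x0) (nat_lit 0x1e0ee4031a400)
  (PL.C (nat_lit 0x2186491) (nat_lit 0x0) (nat_lit 0xa4ac25552c080)
  (PL.C (nat_lit 0x2189a98) (nat_lit 0x0) (nat_lit 0xb2f8007c000) lm_127))))))))))))))))))))

noncomputable def lm_125 : PL :=
  (PL.C (nat_lit 0x203b028) (nat_lit 0x0) (nat_lit 0xbffaec9c200)
  (PL.C (nat_lit 0x203c6de) (nat_lit 0x0) (nat_lit 0x17a1b1742de040)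
  (PL.C (nat_lit 0x204a509) (nat_lit 0x24f47ab97afc40) (nat_lit 0x0)
  (PL.C (nat_lit 0x205a3cc) (nat_lit 0x7439e5d348780) (nat_lit 0x0)
  (PL.C (nat_lit 0x205cbf9) (nat_lit 0x0) (nat_lit 0x18252b22c6e00)
  (PL.C (nat_lit 0x206424f) (nat_lit 0x0) (nat_lit 0x1f0bc1fafa00)
  (PL.C (nat_lit 0x20745b1) (nat_lit 0x1b99548c6000) (nat_lit 0x0)
  (PL.C (nat_lit 0x207cef4) (nat_lit 0x0) (nat_lit 0x20028798da880)
  (PL.C (nat_lit 0x207d642) (nat_lit 0x0) (nat_lit 0x3fc8d4713eb400)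
  (PL.C (nat_lit 0x2082098) (nat_lit 0x0) (nat_lit 0xb2f8007c000)
  (PL.C (nat_lit 0x2086e21) (nat_lit 0x1197c108e700) (nat_lit 0x0)
  (PL.C (nat_lit 0x2089cbf) (nat_lit 0x38ce5ee3b600) (nat_lit 0x0)
  (PL.C (nat_lit 0x2092994) (nat_lit 0x1aa9c756f500) (nat_lit 0x0)
  (PL.C (nat_lit 0x2099d1b) (nat_lit 0x42122053b000) (nat_lit 0x0)
  (PL.C (nat_lit 0x209d844) (nat_lit 0x0) (nat_lit 0x2049547b67780)
  (PL.C (nat_lit 0x20a64e9) (nat_lit 0x0) (nat_lit 0x1133d7f28700)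
  (PL.C (nat_lit 0x20a7b12) (nat_lit 0x0) (nat_lit 0x321fe57a7da80)
  (PL.C (nat_lit 0x20a9c93) (nat_lit 0x72dcf5daaa80) (nat_lit 0x0)
  (PL.C (nat_lit 0x20af5b5) (nat_lit 0x0) (nat_lit 0x155de8117500)
  (PL.C (nat_lit 0x20bbe07) (nat_lit 0x0) (nat_lit 0x339f5503e800) lm_126))))))))))))))))))))

noncomputable def lm_124 : PL :=
  (PL.C (nat_lit 0x1f7cac4) (nat_lit 0x0) (nat_lit 0x65b37fa81fe00)
  (PL.C (nat_lit 0x1f8eb1a) (nat_lit 0x8a139adcf680) (nat_lit 0x0)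
  (PL.C (nat_lit 0x1fae6f5) (nat_lit 0x11ccdf6fd200) (nat_lit 0x0)
  (PL.C (nat_lit 0x1fb5bda) (nat_lit 0x9d0f750cbf80) (nat_lit 0x0)
  (PL.C (nat_lit 0x1fbbb9c) (nat_lit 0x2049547b67780) (nat_lit 0x0)
  (PL.C (nat_lit 0x1fc8d41) (nat_lit 0xf1319199c00) (nat_lit 0x0)
  (PL.C (nat_lit 0x1fe05b4) (nat_lit 0xb77bcf067f900) (nat_lit 0x0)
  (PL.C (nat_lit 0x1fed84b) (nat_lit 0x0) (nat_lit 0x21ffc67027800)
  (PL.C (nat_lit 0x1ff9bf9) (nat_lit 0x0) (nat_lit 0x7009c378a400)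
  (PL.C (nat_lit 0x1fffe37) (nat_lit 0x4a6e226e1e200) (nat_lit 0x0)
  (PL.C (nat_lit 0x2001a84) (nat_lit 0x3bd61af959080) (nat_lit 0x0)
  (PL.C (nat_lit 0x2004243) (nat_lit 0xb9c07d800) (nat_lit 0x0)
  (PL.C (nat_lit 0x2009c07) (nat_lit 0x1133d7f28700) (nat_lit 0x0)
  (PL.C (nat_lit 0x200d45c) (nat_lit 0x0) (nat_lit 0xe6cb4d0fd200)
  (PL.C (nat_lit 0x200edf7) (nat_lit 0x0) (nat_lit 0x21c588513000)
  (PL.C (nat_lit 0x201b142) (nat_lit 0x0) (nat_lit 0x3c552eb125000)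
  (PL.C (nat_lit 0x2023fbc) (nat_lit 0x1aba9f1ee00) (nat_lit 0x0)
  (PL.C (nat_lit 0x20246f6) (nat_lit 0x5b9015153c6c0) (nat_lit 0x0)
  (PL.C (nat_lit 0x2031a36) (nat_lit 0x5d175fe4ef700) (nat_lit 0x0)
  (PL.C (nat_lit 0x203a2f7) (nat_lit 0x0) (nat_lit 0x14f004afbc9400) lm_125))))))))))))))))))))

noncomputable def lm_123 : PL :=
  (PL.C (nat_lit 0x1e8c8a8) (nat_lit 0xb2f8007c000) (nat_lit 0x0)
  (PL.C (nat_lit 0x1e8f21e) (nat_lit 0x8ab9b08efe00) (nat_lit 0x0)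
  (PL.C (nat_lit 0x1ea093e) (nat_lit 0xf93f80ac300) (nat_lit 0x0)
  (PL.C (nat_lit 0x1ea4e02) (nat_lit 0x6fe26b69600) (nat_lit 0x0)
  (PL.C (nat_lit 0x1ea50d4) (nat_lit 0x4601d2c74f880) (nat_lit 0x0)
  (PL.C (nat_lit 0x1eacbd9) (nat_lit 0x934f161edcc00) (nat_lit 0x0)
  (PL.C (nat_lit 0x1eae6f9) (nat_lit 0x0) (nat_lit 0x7fa9ecbdc3e00)
  (PL.C (nat_lit 0x1ec1017) (nat_lit 0xdb18c15c7500) (nat_lit 0x0)
  (PL.C (nat_lit 0x1ec50b7) (nat_lit 0x0) (nat_lit 0x7ea3d18e7be80)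
  (PL.C (nat_lit 0x1ecda37) (nat_lit 0x3afe8a236680) (nat_lit 0x0)
  (PL.C (nat_lit 0x1efc428) (nat_lit 0xb2f8007c000) (nat_lit 0x0)
  (PL.C (nat_lit 0x1f27096) (nat_lit 0xc82fcd93880) (nat_lit 0x0)
  (PL.C (nat_lit 0x1f27c76) (nat_lit 0x173f9a135acb80) (nat_lit 0x0)
  (PL.C (nat_lit 0x1f2a692) (nat_lit 0x8af76390f700) (nat_lit 0x0)
  (PL.C (nat_lit 0x1f43d7c) (nat_lit 0x0) (nat_lit 0x2067c5831b00)
  (PL.C (nat_lit 0x1f4e014) (nat_lit 0x16104297000) (nat_lit 0x0)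
  (PL.C (nat_lit 0x1f50c09) (nat_lit 0x0) (nat_lit 0x28fbba91800)
  (PL.C (nat_lit 0x1f57593) (nat_lit 0x16f3f56b16600) (nat_lit 0x0)
  (PL.C (nat_lit 0x1f65d0a) (nat_lit 0x424310697cde00) (nat_lit 0x0)
  (PL.C (nat_lit 0x1f725e1) (nat_lit 0x0) (nat_lit 0x54a6c316f1480) lm_124))))))))))))))))))))

noncomputable def lm_122 : PL :=
  (PL.C (nat_lit 0x1df68b8) (nat_lit 0xb2f8007c000) (nat_lit 0x0)
  (PL.C (nat_lit 0x1e0a9e9) (nat_lit 0x0) (nat_lit 0x58441bd565e40)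
  (PL.C (nat_lit 0x1e0ee84) (nat_lit 0x51de62fc43280) (nat_lit 0x0)
  (PL.C (nat_lit 0x1e13b0f) (nat_lit 0x0) (nat_lit 0x14f004afbc9400)
  (PL.C (nat_lit 0x1e13e5c) (nat_lit 0x0) (nat_lit 0x125b0de81f00)
  (PL.C (nat_lit 0x1e1f365) (nat_lit 0x1d3a6589e6c80) (nat_lit 0x0)
  (PL.C (nat_lit 0x1e20511) (nat_lit 0x155de8117500) (nat_lit 0x0)
  (PL.C (nat_lit 0x1e2e49b) (nat_lit 0x2d617ca07c500) (nat_lit 0x0)
  (PL.C (nat_lit 0x1e319ac) (nat_lit 0x7439e5d348780) (nat_lit 0x0)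
  (PL.C (nat_lit 0x1e331cb) (nat_lit 0x158480fa4aa500) (nat_lit 0x0)
  (PL.C (nat_lit 0x1e3e496) (nat_lit 0x1e7fd11aac100) (nat_lit 0x0)
  (PL.C (nat_lit 0x1e49a7f) (nat_lit 0x4146ea2cca000) (nat_lit 0x0)
  (PL.C (nat_lit 0x1e4b4e6) (nat_lit 0x78d9281c000) (nat_lit 0x0)
  (PL.C (nat_lit 0x1e5125c) (nat_lit 0x51de62fc43280) (nat_lit 0x0)
  (PL.C (nat_lit 0x1e63c45) (nat_lit 0x0) (nat_lit 0x3c107bb327d00)
  (PL.C (nat_lit 0x1e696f8) (nat_lit 0x619402d000) (nat_lit 0x0)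
  (PL.C (nat_lit 0x1e70b2e) (nat_lit 0x0) (nat_lit 0x1620b9ba6e8c0)
  (PL.C (nat_lit 0x1e794cd) (nat_lit 0x8f9245db5800) (nat_lit 0x0)
  (PL.C (nat_lit 0x1e7fde2) (nat_lit 0x1f0d5a558d00) (nat_lit 0x0)
  (PL.C (nat_lit 0x1e86b11) (nat_lit 0x0) (nat_lit 0x13b87d115396c0) lm_123))))))))))))))))))))

noncomputable def lm_121 : PL :=
  (PL.C (nat_lit 0x1d6ac26) (nat_lit 0x2b90464aaacc0) (nat_lit 0x0)
  (PL.C (nat_lit 0x1d6ce8c) (nat_lit 0x0) (nat_lit 0x1051f262da00)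
  (PL.C (nat_lit 0x1d7cdef) (nat_lit 0x0) (nat_lit 0xf7bf7d84f640)
  (PL.C (nat_lit 0x1d80035) (nat_lit 0x0) (nat_lit 0x479af82f58200)
  (PL.C (nat_lit 0x1d874f4) (nat_lit 0x0) (nat_lit 0x16c258d76094c0)
  (PL.C (nat_lit 0x1d8ba11) (nat_lit 0x61cd147e200) (nat_lit 0x0)
  (PL.C (nat_lit 0x1d8ee04) (nat_lit 0x51bef04d0700) (nat_lit 0x0)
  (PL.C (nat_lit 0x1d905a1) (nat_lit 0x0) (nat_lit 0xef4ae7b7e900)
  (PL.C (nat_lit 0x1d9a32c) (nat_lit 0x0) (nat_lit 0x784c2d4bf40)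
  (PL.C (nat_lit 0x1d9d5a4) (nat_lit 0x4f304fb1235c0) (nat_lit 0x0)
  (PL.C (nat_lit 0x1d9f25f) (nat_lit 0x2d34e0e8442c0) (nat_lit 0x0)
  (PL.C (nat_lit 0x1da66bd) (nat_lit 0x0) (nat_lit 0x47dbe1544c00)
  (PL.C (nat_lit 0x1daa1be) (nat_lit 0x28bf5daec9740) (nat_lit 0x0)
  (PL.C (nat_lit 0x1dadc14) (nat_lit 0x0) (nat_lit 0xa0b609c31580)
  (PL.C (nat_lit 0x1db00ef) (nat_lit 0x0) (nat_lit 0x3a38247dbe00)
  (PL.C (nat_lit 0x1dba5d2) (nat_lit 0x173f9a135acb80) (nat_lit 0x0)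
  (PL.C (nat_lit 0x1dc4933) (nat_lit 0x0) (nat_lit 0x56cc68965600)
  (PL.C (nat_lit 0x1dce00e) (nat_lit 0x4122a602f65c0) (nat_lit 0x0)
  (PL.C (nat_lit 0x1de4caf) (nat_lit 0x0) (nat_lit 0x104cd8bfb000)
  (PL.C (nat_lit 0x1df120d) (nat_lit 0x158480fa4aa500) (nat_lit 0x0) lm_122))))))))))))))))))))

noncomputable def lm_120 : PL :=
  (PL.C (nat_lit 0x1ccd886) (nat_lit 0x0) (nat_lit 0x274746da97600)
  (PL.C (nat_lit 0x1cd51e4) (nat_lit 0x187035b65ea00) (nat_lit 0x0)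
  (PL.C (nat_lit 0x1cd5b3a) (nat_lit 0x704a70fe3a00) (nat_lit 0x0)
  (PL.C (nat_lit 0x1cd830c) (nat_lit 0xcdb4853563a00) (nat_lit 0x0)
  (PL.C (nat_lit 0x1cde19a) (nat_lit 0x0) (nat_lit 0x2d3d78904600)
  (PL.C (nat_lit 0x1ce105f) (nat_lit 0x0) (nat_lit 0x21ffc67027800)
  (PL.C (nat_lit 0x1ce3b8e) (nat_lit 0x0) (nat_lit 0xd5b4b7d610680)
  (PL.C (nat_lit 0x1ce629a) (nat_lit 0x32f45196b400) (nat_lit 0x0)
  (PL.C (nat_lit 0x1cef7a1) (nat_lit 0x10d79dcb0aa40) (nat_lit 0x0)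
  (PL.C (nat_lit 0x1cf4224) (nat_lit 0x1b07a207f700) (nat_lit 0x0)
  (PL.C (nat_lit 0x1cf6a24) (nat_lit 0x147230d8589dc0) (nat_lit 0x0)
  (PL.C (nat_lit 0x1cfdbec) (nat_lit 0x0) (nat_lit 0xe6cb4d0fd200)
  (PL.C (nat_lit 0x1d0a3ba) (nat_lit 0x0) (nat_lit 0x5ac26908800)
  (PL.C (nat_lit 0x1d0c414) (nat_lit 0x0) (nat_lit 0x1a24742cb5c0)
  (PL.C (nat_lit 0x1d0e39f) (nat_lit 0x19621ccb0a2cc0) (nat_lit 0x0)
  (PL.C (nat_lit 0x1d1d3f2) (nat_lit 0x0) (nat_lit 0x157391f35f77c0)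
  (PL.C (nat_lit 0x1d46cac) (nat_lit 0x0) (nat_lit 0xcfb69488b2400)
  (PL.C (nat_lit 0x1d4c44c) (nat_lit 0x0) (nat_lit 0x360f440fee00)
  (PL.C (nat_lit 0x1d65bc2) (nat_lit 0x8e2becf1dc9e0) (nat_lit 0x0)
  (PL.C (nat_lit 0x1d68964) (nat_lit 0x1f062ac7fab600) (nat_lit 0x0) lm_121))))))))))))))))))))

noncomputable def lm_119 : PL :=
  (PL.C (nat_lit 0x1c1433b) (nat_lit 0x967b710b4fa40) (nat_lit 0x0)
  (PL.C (nat_lit 0x1c22b7a) (nat_lit 0x10d1363a9c200) (nat_lit 0x0)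
  (PL.C (nat_lit 0x1c23c0f) (nat_lit 0x0) (nat_lit 0x2ff6c6cddb00)
  (PL.C (nat_lit 0x1c4284e) (nat_lit 0xf93f80ac300) (nat_lit 0x0)
  (PL.C (nat_lit 0x1c4addc) (nat_lit 0x0) (nat_lit 0x150ef18bfa000)
  (PL.C (nat_lit 0x1c4cc95) (nat_lit 0x0) (nat_lit 0x2aac8003028640)
  (PL.C (nat_lit 0x1c562d6) (nat_lit 0x0) (nat_lit 0xd01809886c00)
  (PL.C (nat_lit 0x1c6139d) (nat_lit 0x129aaa5907e80) (nat_lit 0x0)
  (PL.C (nat_lit 0x1c71a1d) (nat_lit 0x0) (nat_lit 0x20a9df1879880)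
  (PL.C (nat_lit 0x1c76943) (nat_lit 0x0) (nat_lit 0x3a38247dbe00)
  (PL.C (nat_lit 0x1c76e32) (nat_lit 0x2467be233da00) (nat_lit 0x0)
  (PL.C (nat_lit 0x1c7fde3) (nat_lit 0x31879d17d01c0) (nat_lit 0x0)
  (PL.C (nat_lit 0x1c81ca6) (nat_lit 0x3e8012c3f0980) (nat_lit 0x0)
  (PL.C (nat_lit 0x1c882b3) (nat_lit 0x0) (nat_lit 0x48aa9c5164600)
  (PL.C (nat_lit 0x1c90233) (nat_lit 0x5ac1f807aac00) (nat_lit 0x0)
  (PL.C (nat_lit 0x1c949fa) (nat_lit 0x0) (nat_lit 0x8b65f099e80)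
  (PL.C (nat_lit 0x1ca0c41) (nat_lit 0x934f161edcc00) (nat_lit 0x0)
  (PL.C (nat_lit 0x1cba8da) (nat_lit 0x1d8830059d00) (nat_lit 0x0)
  (PL.C (nat_lit 0x1cbeac5) (nat_lit 0x31879d17d01c0) (nat_lit 0x0)
  (PL.C (nat_lit 0x1cc74c6) (nat_lit 0x32bada097a00) (nat_lit 0x0) lm_120))))))))))))))))))))

noncomputable def lm_118 : PL :=
  (PL.C (nat_lit 0x1b81cf6) (nat_lit 0x1be00718c4c00) (nat_lit 0x0)
  (PL.C (nat_lit 0x1b8aa0f) (nat_lit 0x0) (nat_lit 0xe3f099d9bd40)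
  (PL.C (nat_lit 0x1b8da7c) (nat_lit 0x0) (nat_lit 0x7c9c30d71380)
  (PL.C (nat_lit 0x1b8f07f) (nat_lit 0x3ae556a1d440) (nat_lit 0x0)
  (PL.C (nat_lit 0x1b8ffd6) (nat_lit 0x1ec7c6d1d3080) (nat_lit 0x0)
  (PL.C (nat_lit 0x1b9a59f) (nat_lit 0x0) (nat_lit 0x1b99548c6000)
  (PL.C (nat_lit 0x1ba12dc) (nat_lit 0x883685ba3300) (nat_lit 0x0)
  (PL.C (nat_lit 0x1ba1c08) (nat_lit 0x0) (nat_lit 0x1d0722a82f00)
  (PL.C (nat_lit 0x1bbe6da) (nat_lit 0xc5cc5f452800) (nat_lit 0x0)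
  (PL.C (nat_lit 0x1bbfc6c) (nat_lit 0x0) (nat_lit 0x4311127d81400)
  (PL.C (nat_lit 0x1bc3aa1) (nat_lit 0x0) (nat_lit 0x383a51366d200)
  (PL.C (nat_lit 0x1bca371) (nat_lit 0x2da81e0beead00) (nat_lit 0x0)
  (PL.C (nat_lit 0x1be1c7e) (nat_lit 0x83f32935c000) (nat_lit 0x0)
  (PL.C (nat_lit 0x1be3b6b) (nat_lit 0x0) (nat_lit 0x2aff8dde19500)
  (PL.C (nat_lit 0x1beb206) (nat_lit 0x8a139adcf680) (nat_lit 0x0)
  (PL.C (nat_lit 0x1beda54) (nat_lit 0x0) (nat_lit 0x2a6bba374e700)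
  (PL.C (nat_lit 0x1bee659) (nat_lit 0x0) (nat_lit 0x5f3cbd467db00)
  (PL.C (nat_lit 0x1c00d97) (nat_lit 0x0) (nat_lit 0x5618bf8d4b800)
  (PL.C (nat_lit 0x1c0acd7) (nat_lit 0x445009bf3b80) (nat_lit 0x0)
  (PL.C (nat_lit 0x1c11361) (nat_lit 0x4e335d227d40) (nat_lit 0x0) lm_119))))))))))))))))))))

noncomputable def lm_117 : PL :=
  (PL.C (nat_lit 0x1aeb981) (nat_lit 0x410172511080) (nat_lit 0x0)
  (PL.C (nat_lit 0x1af143b) (nat_lit 0x0) (nat_lit 0x17b821c3a0500)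
  (PL.C (nat_lit 0x1afa63c) (nat_lit 0x0) (nat_lit 0x12506cd1000)
  (PL.C (nat_lit 0x1afb09e) (nat_lit 0x0) (nat_lit 0xdfc4d6d2c00)
  (PL.C (nat_lit 0x1afd524) (nat_lit 0x0) (nat_lit 0x2049547b67780)
  (PL.C (nat_lit 0x1b04b94) (nat_lit 0x0) (nat_lit 0x4ed533fe2c00)
  (PL.C (nat_lit 0x1b0fe13) (nat_lit 0xf1319199c00) (nat_lit 0x0)
  (PL.C (nat_lit 0x1b1692c) (nat_lit 0x0) (nat_lit 0x20a3e4c5b400)
  (PL.C (nat_lit 0x1b2214e) (nat_lit 0x0) (nat_lit 0xb5d1fbe71fd40)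
  (PL.C (nat_lit 0x1b34713) (nat_lit 0x0) (nat_lit 0x15ad338e2ed900)
  (PL.C (nat_lit 0x1b367f2) (nat_lit 0x0) (nat_lit 0x582aed7b6e00)
  (PL.C (nat_lit 0x1b3c20d) (nat_lit 0x0) (nat_lit 0x2fec0f4b1c40)
  (PL.C (nat_lit 0x1b420ed) (nat_lit 0x52233558a9800) (nat_lit 0x0)
  (PL.C (nat_lit 0x1b4268a) (nat_lit 0x0) (nat_lit 0x19f20e690a680)
  (PL.C (nat_lit 0x1b4f7fc) (nat_lit 0x180e3209d45600) (nat_lit 0x0)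
  (PL.C (nat_lit 0x1b57dcb) (nat_lit 0x11ccdf6fd200) (nat_lit 0x0)
  (PL.C (nat_lit 0x1b5ac69) (nat_lit 0x35ac681249a00) (nat_lit 0x0)
  (PL.C (nat_lit 0x1b6d2ca) (nat_lit 0x0) (nat_lit 0x23aa26d930f340)
  (PL.C (nat_lit 0x1b75fb4) (nat_lit 0x25757f68500) (nat_lit 0x0)
  (PL.C (nat_lit 0x1b7cdf1) (nat_lit 0x0) (nat_lit 0x3c107bb327d00) lm_118))))))))))))))))))))

noncomputable def lm_116 : PL :=
  (PL.C (nat_lit 0x1a126d6) (nat_lit 0x0) (nat_lit 0xb00408ab1ac80)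
  (PL.C (nat_lit 0x1a16e22) (nat_lit 0x229741ee3400) (nat_lit 0x0)
  (PL.C (nat_lit 0x1a2653c) (nat_lit 0x0) (nat_lit 0x3c9240d76e00)
  (PL.C (nat_lit 0x1a2c5b8) (nat_lit 0x0) (nat_lit 0x26e9073c84500)
  (PL.C (nat_lit 0x1a3c1cc) (nat_lit 0x771671711c00) (nat_lit 0x0)
  (PL.C (nat_lit 0x1a3de49) (nat_lit 0x334c399ac12700) (nat_lit 0x0)
  (PL.C (nat_lit 0x1a4ccce) (nat_lit 0xa513cf76a5880) (nat_lit 0x0)
  (PL.C (nat_lit 0x1a4f05a) (nat_lit 0x8af76390f700) (nat_lit 0x0)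
  (PL.C (nat_lit 0x1a57d72) (nat_lit 0x8b65f099e80) (nat_lit 0x0)
  (PL.C (nat_lit 0x1a600f1) (nat_lit 0x0) (nat_lit 0x192ce19663e80)
  (PL.C (nat_lit 0x1a618c8) (nat_lit 0x0) (nat_lit 0xb2f8007c000)
  (PL.C (nat_lit 0x1a75ed4) (nat_lit 0x771671711c00) (nat_lit 0x0)
  (PL.C (nat_lit 0x1a812b2) (nat_lit 0x4b83de93f7300) (nat_lit 0x0)
  (PL.C (nat_lit 0x1a99ad4) (nat_lit 0x1f062ac7fab600) (nat_lit 0x0)
  (PL.C (nat_lit 0x1a9baf8) (nat_lit 0x0) (nat_lit 0x597c003e0000)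
  (PL.C (nat_lit 0x1abc4f4) (nat_lit 0x0) (nat_lit 0x3c9240d76e00)
  (PL.C (nat_lit 0x1abe789) (nat_lit 0x0) (nat_lit 0x1f0bc1fafa00)
  (PL.C (nat_lit 0x1ac9b0c) (nat_lit 0x35a1c68e380) (nat_lit 0x0)
  (PL.C (nat_lit 0x1ad4c05) (nat_lit 0x0) (nat_lit 0x21c588513000)
  (PL.C (nat_lit 0x1adb634) (nat_lit 0x0) (nat_lit 0xc4b321bc0400) lm_117))))))))))))))))))))

noncomputable def lm_115 : PL :=
  (PL.C (nat_lit 0x195c14d) (nat_lit 0x0) (nat_lit 0x1016e586284b40)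
  (PL.C (nat_lit 0x196e8b2) (nat_lit 0x884e9a5b6cbc0) (nat_lit 0x0)
  (PL.C (nat_lit 0x1973736) (nat_lit 0x0) (nat_lit 0xd8dedb83c00)
  (PL.C (nat_lit 0x197d195) (nat_lit 0x0) (nat_lit 0x4f38a9904800)
  (PL.C (nat_lit 0x197e437) (nat_lit 0x0) (nat_lit 0x251779f9bef00)
  (PL.C (nat_lit 0x198044e) (nat_lit 0x0) (nat_lit 0xb5d1fbe71fd40)
  (PL.C (nat_lit 0x1983674) (nat_lit 0x0) (nat_lit 0x288b730bf280)
  (PL.C (nat_lit 0x1992afe) (nat_lit 0x2900a5e0500) (nat_lit 0x0)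
  (PL.C (nat_lit 0x19bf0ea) (nat_lit 0x28082693be4d00) (nat_lit 0x0)
  (PL.C (nat_lit 0x19c4d15) (nat_lit 0x0) (nat_lit 0x13b87d115396c0)
  (PL.C (nat_lit 0x19cbf16) (nat_lit 0x1fa910dc40a00) (nat_lit 0x0)
  (PL.C (nat_lit 0x19daab6) (nat_lit 0xf93f80ac300) (nat_lit 0x0)
  (PL.C (nat_lit 0x19de724) (nat_lit 0x4601d2c74f880) (nat_lit 0x0)
  (PL.C (nat_lit 0x19e355e) (nat_lit 0x0) (nat_lit 0xb5666557ea00)
  (PL.C (nat_lit 0x19e4efd) (nat_lit 0x0) (nat_lit 0x1bf59723555c00)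
  (PL.C (nat_lit 0x19ee7c9) (nat_lit 0x3a09ed016400) (nat_lit 0x0)
  (PL.C (nat_lit 0x19f60b3) (nat_lit 0x111655efdd0600) (nat_lit 0x0)
  (PL.C (nat_lit 0x19ffa66) (nat_lit 0x69461a64237c0) (nat_lit 0x0)
  (PL.C (nat_lit 0x1a00b53) (nat_lit 0xa7eefecf66200) (nat_lit 0x0)
  (PL.C (nat_lit 0x1a096c7) (nat_lit 0x0) (nat_lit 0x4f088a32c2380) lm_116))))))))))))))))))))

noncomputable def lm_114 : PL :=
  (PL.C (nat_lit 0x18b7f5d) (nat_lit 0x104cd8bfb000) (nat_lit 0x0)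
  (PL.C (nat_lit 0x18d0e4a) (nat_lit 0x0) (nat_lit 0x38a125808df20)
  (PL.C (nat_lit 0x18d5b9e) (nat_lit 0x0) (nat_lit 0x10a11a0f95800)
  (PL.C (nat_lit 0x18ddb8c) (nat_lit 0x12506cd1000) (nat_lit 0x0)
  (PL.C (nat_lit 0x18ec18c) (nat_lit 0x0) (nat_lit 0x522f50670f80)
  (PL.C (nat_lit 0x18ed3c4) (nat_lit 0x0) (nat_lit 0xcfb69488b2400)
  (PL.C (nat_lit 0x18f4de5) (nat_lit 0x3a09ed016400) (nat_lit 0x0)
  (PL.C (nat_lit 0x1901348) (nat_lit 0x1af374fc8000) (nat_lit 0x0)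
  (PL.C (nat_lit 0x1904b56) (nat_lit 0x0) (nat_lit 0xd8dedb83c00)
  (PL.C (nat_lit 0x1906d34) (nat_lit 0x1051f262da00) (nat_lit 0x0)
  (PL.C (nat_lit 0x1919427) (nat_lit 0x499b55bb92dec0) (nat_lit 0x0)
  (PL.C (nat_lit 0x1920f3f) (nat_lit 0x0) (nat_lit 0x61cd147e200)
  (PL.C (nat_lit 0x1929603) (nat_lit 0x2287d25d28d00) (nat_lit 0x0)
  (PL.C (nat_lit 0x193238c) (nat_lit 0x75602266ce08c0) (nat_lit 0x0)
  (PL.C (nat_lit 0x1939eff) (nat_lit 0x208e499227800) (nat_lit 0x0)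
  (PL.C (nat_lit 0x193bd7a) (nat_lit 0x193af7c74fc00) (nat_lit 0x0)
  (PL.C (nat_lit 0x1946901) (nat_lit 0x0) (nat_lit 0x630a5dd423240)
  (PL.C (nat_lit 0x1947968) (nat_lit 0x0) (nat_lit 0x1d0722a82f00)
  (PL.C (nat_lit 0x1948d9a) (nat_lit 0x2900a5e0500) (nat_lit 0x0)
  (PL.C (nat_lit 0x195306c) (nat_lit 0x2a1ee6ab3f400) (nat_lit 0x0) lm_115))))))))))))))))))))

noncomputable def lm_113 : PL :=
  (PL.C (nat_lit 0x17e50c9) (nat_lit 0x0) (nat_lit 0x3fe9dd672fa80)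
  (PL.C (nat_lit 0x1800056) (nat_lit 0xfed8c6c89080) (nat_lit 0x0)
  (PL.C (nat_lit 0x1802d51) (nat_lit 0xe6bcc7803bb00) (nat_lit 0x0)
  (PL.C (nat_lit 0x1812b1f) (nat_lit 0x0) (nat_lit 0x67c24029f38c0)
  (PL.C (nat_lit 0x18294c4) (nat_lit 0x0) (nat_lit 0x1a90bb46d0280)
  (PL.C (nat_lit 0x182b56c) (nat_lit 0x0) (nat_lit 0x20a3e4c5b400)
  (PL.C (nat_lit 0x1830b25) (nat_lit 0x0) (nat_lit 0x8659cb66c00)
  (PL.C (nat_lit 0x183ccdb) (nat_lit 0x0) (nat_lit 0x3895bd3a5800)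
  (PL.C (nat_lit 0x184b25e) (nat_lit 0x1c87e5003a00) (nat_lit 0x0)
  (PL.C (nat_lit 0x1863246) (nat_lit 0x0) (nat_lit 0x2e4d6312f7f80)
  (PL.C (nat_lit 0x1866e4c) (nat_lit 0xca98f98e3c00) (nat_lit 0x0)
  (PL.C (nat_lit 0x18731b4) (nat_lit 0x435ecc45a880) (nat_lit 0x0)
  (PL.C (nat_lit 0x1877e6b) (nat_lit 0x29daaff9e800) (nat_lit 0x0)
  (PL.C (nat_lit 0x188705b) (nat_lit 0x19621ccb0a2cc0) (nat_lit 0x0)
  (PL.C (nat_lit 0x1891baa) (nat_lit 0x56a2ae198a00) (nat_lit 0x0)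
  (PL.C (nat_lit 0x1893b3a) (nat_lit 0x0) (nat_lit 0xb270294217640)
  (PL.C (nat_lit 0x18ac974) (nat_lit 0x20a3e4c5b400) (nat_lit 0x0)
  (PL.C (nat_lit 0x18b2e66) (nat_lit 0x5ac26908800) (nat_lit 0x0)
  (PL.C (nat_lit 0x18b5df7) (nat_lit 0x59be3c1f7d780) (nat_lit 0x0)
  (PL.C (nat_lit 0x18b6c5c) (nat_lit 0x0) (nat_lit 0x16c258d76094c0) lm_114))))))))))))))))))))

noncomputable def lm_112 : PL :=
  (PL.C (nat_lit 0x175553e) (nat_lit 0xed0a945def80) (nat_lit 0x0)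
  (PL.C (nat_lit 0x1762a5e) (nat_lit 0xdfc4d6d2c00) (nat_lit 0x0)
  (PL.C (nat_lit 0x1764be2) (nat_lit 0x11466b1c0f800) (nat_lit 0x0)
  (PL.C (nat_lit 0x176cb1c) (nat_lit 0x3b20619225400) (nat_lit 0x0)
  (PL.C (nat_lit 0x1783ee1) (nat_lit 0x0) (nat_lit 0x2d05f533b1200)
  (PL.C (nat_lit 0x179149e) (nat_lit 0x0) (nat_lit 0x1c866f5e2fd80)
  (PL.C (nat_lit 0x17936a4) (nat_lit 0x139c740b62280) (nat_lit 0x0)
  (PL.C (nat_lit 0x179b514) (nat_lit 0x3b22c956f8980) (nat_lit 0x0)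
  (PL.C (nat_lit 0x17a57c6) (nat_lit 0x0) (nat_lit 0x4ebce6b1c0780)
  (PL.C (nat_lit 0x17a714c) (nat_lit 0x51bef04d0700) (nat_lit 0x0)
  (PL.C (nat_lit 0x17ac073) (nat_lit 0x0) (nat_lit 0xccfb84b34a00)
  (PL.C (nat_lit 0x17b2eb4) (nat_lit 0x0) (nat_lit 0x7c9c30d71380)
  (PL.C (nat_lit 0x17b3f67) (nat_lit 0x0) (nat_lit 0xa3082018c4c0)
  (PL.C (nat_lit 0x17c0c82) (nat_lit 0x0) (nat_lit 0x33cd9a7b84c580)
  (PL.C (nat_lit 0x17c9e16) (nat_lit 0x0) (nat_lit 0x1d599231e08500)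
  (PL.C (nat_lit 0x17d998a) (nat_lit 0x0) (nat_lit 0xa65ba5871c500)
  (PL.C (nat_lit 0x17da6b8) (nat_lit 0x0) (nat_lit 0x77286fbe000)
  (PL.C (nat_lit 0x17dfb52) (nat_lit 0x0) (nat_lit 0x28ea1566f800)
  (PL.C (nat_lit 0x17e364a) (nat_lit 0x99724874ed80) (nat_lit 0x0)
  (PL.C (nat_lit 0x17e3ba9) (nat_lit 0x9168e5d46a1a80) (nat_lit 0x0) lm_113))))))))))))))))))))

noncomputable def lm_111 : PL :=
  (PL.C (nat_lit 0x16c88b4) (nat_lit 0x0) (nat_lit 0x35a1c68e380)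
  (PL.C (nat_lit 0x16cc48c) (nat_lit 0x139c740b62280) (nat_lit 0x0)
  (PL.C (nat_lit 0x16d02e4) (nat_lit 0x79e714d62fac0) (nat_lit 0x0)
  (PL.C (nat_lit 0x16d343f) (nat_lit 0x1344aa4e64000) (nat_lit 0x0)
  (PL.C (nat_lit 0x16da01e) (nat_lit 0x0) (nat_lit 0x274746da97600)
  (PL.C (nat_lit 0x16dd9c8) (nat_lit 0xb2f8007c000) (nat_lit 0x0)
  (PL.C (nat_lit 0x16e9cf3) (nat_lit 0x0) (nat_lit 0x7fa9ecbdc3e00)
  (PL.C (nat_lit 0x16eaa4c) (nat_lit 0x9bf206586800) (nat_lit 0x0)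
  (PL.C (nat_lit 0x16fd901) (nat_lit 0x59546a2449c0) (nat_lit 0x0)
  (PL.C (nat_lit 0x17063f1) (nat_lit 0x21277ff57d600) (nat_lit 0x0)
  (PL.C (nat_lit 0x171d254) (nat_lit 0x0) (nat_lit 0x76661557def00)
  (PL.C (nat_lit 0x1726f72) (nat_lit 0x69461a64237c0) (nat_lit 0x0)
  (PL.C (nat_lit 0x17293a3) (nat_lit 0x9394eb4af1000) (nat_lit 0x0)
  (PL.C (nat_lit 0x172ed1a) (nat_lit 0xd8dedb83c00) (nat_lit 0x0)
  (PL.C (nat_lit 0x1734375) (nat_lit 0x56d16446ff00) (nat_lit 0x0)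
  (PL.C (nat_lit 0x17438bb) (nat_lit 0x0) (nat_lit 0x809763afe1c0)
  (PL.C (nat_lit 0x17445ae) (nat_lit 0x0) (nat_lit 0x2541e264bdf80)
  (PL.C (nat_lit 0x1749ac2) (nat_lit 0x2467be233da00) (nat_lit 0x0)
  (PL.C (nat_lit 0x174c276) (nat_lit 0x0) (nat_lit 0xb270294217640)
  (PL.C (nat_lit 0x1750ed5) (nat_lit 0x5ac1f807aac00) (nat_lit 0x0) lm_112))))))))))))))))))))

noncomputable def lm_110 : PL :=
  (PL.C (nat_lit 0x162a1dc) (nat_lit 0x0) (nat_lit 0x1051f262da00)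
  (PL.C (nat_lit 0x1633886) (nat_lit 0x0) (nat_lit 0x15b78c74d90580)
  (PL.C (nat_lit 0x16384cc) (nat_lit 0x6d8018ce22e00) (nat_lit 0x0)
  (PL.C (nat_lit 0x16412ee) (nat_lit 0x0) (nat_lit 0xa878566bef00)
  (PL.C (nat_lit 0x164ab9e) (nat_lit 0x0) (nat_lit 0x32a6da8ae48c0)
  (PL.C (nat_lit 0x1651431) (nat_lit 0x208e499227800) (nat_lit 0x0)
  (PL.C (nat_lit 0x16516a4) (nat_lit 0x39e062843100) (nat_lit 0x0)
  (PL.C (nat_lit 0x165325b) (nat_lit 0xb2fbc051c600) (nat_lit 0x0)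
  (PL.C (nat_lit 0x165c95c) (nat_lit 0x883685ba3300) (nat_lit 0x0)
  (PL.C (nat_lit 0x1661ecf) (nat_lit 0x1cff204f36d40) (nat_lit 0x0)
  (PL.C (nat_lit 0x1667754) (nat_lit 0x2a1ee6ab3f400) (nat_lit 0x0)
  (PL.C (nat_lit 0x166959c) (nat_lit 0xe05a55c0a900) (nat_lit 0x0)
  (PL.C (nat_lit 0x1669aa6) (nat_lit 0x0) (nat_lit 0x25d8baa3b6d80)
  (PL.C (nat_lit 0x166e519) (nat_lit 0x142d4599e7700) (nat_lit 0x0)
  (PL.C (nat_lit 0x167ac5c) (nat_lit 0x17ea8732cec0) (nat_lit 0x0)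
  (PL.C (nat_lit 0x1685217) (nat_lit 0x0) (nat_lit 0x2742f98b9800)
  (PL.C (nat_lit 0x16886ba) (nat_lit 0x0) (nat_lit 0x1fdf5b955ee300)
  (PL.C (nat_lit 0x16a5562) (nat_lit 0x0) (nat_lit 0x56a2ae198a00)
  (PL.C (nat_lit 0x16b9945) (nat_lit 0x171339516043c0) (nat_lit 0x0)
  (PL.C (nat_lit 0x16bf334) (nat_lit 0x0) (nat_lit 0x1bdbbfc8ddc0) lm_111))))))))))))))))))))

noncomputable def lm_109 : PL :=
  (PL.C (nat_lit 0x15a89f8) (nat_lit 0x0) (nat_lit 0x26e9073c84500)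
  (PL.C (nat_lit 0x15af416) (nat_lit 0xd8dedb83c00) (nat_lit 0x0)
  (PL.C (nat_lit 0x15b132a) (nat_lit 0xc1540c48ef00) (nat_lit 0x0)
  (PL.C (nat_lit 0x15bbe12) (nat_lit 0x1f0d5a558d00) (nat_lit 0x0)
  (PL.C (nat_lit 0x15c4346) (nat_lit 0x0) (nat_lit 0x24929245a940)
  (PL.C (nat_lit 0x15c520c) (nat_lit 0x0) (nat_lit 0x9b599c731b80)
  (PL.C (nat_lit 0x15c6862) (nat_lit 0x77ab4b7f7c180) (nat_lit 0x0)
  (PL.C (nat_lit 0x15ca3ce) (nat_lit 0x0) (nat_lit 0x1e1929508b00)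
  (PL.C (nat_lit 0x15d295a) (nat_lit 0x0) (nat_lit 0xd01809886c00)
  (PL.C (nat_lit 0x15dbdb1) (nat_lit 0x0) (nat_lit 0x1af4a76622980)
  (PL.C (nat_lit 0x15e1006) (nat_lit 0x32f45196b400) (nat_lit 0x0)
  (PL.C (nat_lit 0x15e3ead) (nat_lit 0x0) (nat_lit 0xef4ae7b7e900)
  (PL.C (nat_lit 0x15ea4bf) (nat_lit 0x1e070fc3a6cc80) (nat_lit 0x0)
  (PL.C (nat_lit 0x15f267e) (nat_lit 0x0) (nat_lit 0x23aa26d930f340)
  (PL.C (nat_lit 0x15f9b04) (nat_lit 0x0) (nat_lit 0xa0b609c31580)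
  (PL.C (nat_lit 0x1605044) (nat_lit 0x0) (nat_lit 0x125b0de81f00)
  (PL.C (nat_lit 0x160efae) (nat_lit 0x0) (nat_lit 0x2e4d6312f7f80)
  (PL.C (nat_lit 0x161a052) (nat_lit 0xdf2905f4d2c0) (nat_lit 0x0)
  (PL.C (nat_lit 0x1626a32) (nat_lit 0x9d0f750cbf80) (nat_lit 0x0)
  (PL.C (nat_lit 0x1626f2d) (nat_lit 0x371b1fc42836c0) (nat_lit 0x0) lm_110))))))))))))))))))))

noncomputable def lm_108 : PL :=
  (PL.C (nat_lit 0x151ef4e) (nat_lit 0x0) (nat_lit 0x1365990f5700)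
  (PL.C (nat_lit 0x1523d3c) (nat_lit 0x13f205d2a7e80) (nat_lit 0x0)
  (PL.C (nat_lit 0x15308d6) (nat_lit 0x52688cf5fe00) (nat_lit 0x0)
  (PL.C (nat_lit 0x153e07f) (nat_lit 0xe6bcc7803bb00) (nat_lit 0x0)
  (PL.C (nat_lit 0x153fd35) (nat_lit 0x19df4534f5600) (nat_lit 0x0)
  (PL.C (nat_lit 0x1549032) (nat_lit 0x0) (nat_lit 0x3cc285c0d0800)
  (PL.C (nat_lit 0x15512a6) (nat_lit 0x0) (nat_lit 0x1a63bdecf6e00)
  (PL.C (nat_lit 0x1558182) (nat_lit 0x78d9281c000) (nat_lit 0x0)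
  (PL.C (nat_lit 0x155bd5a) (nat_lit 0x24929245a940) (nat_lit 0x0)
  (PL.C (nat_lit 0x155e2e8) (nat_lit 0x0) (nat_lit 0xd24cc050200)
  (PL.C (nat_lit 0x155f3fa) (nat_lit 0x22f9911a1a00) (nat_lit 0x0)
  (PL.C (nat_lit 0x156762c) (nat_lit 0xca98f98e3c00) (nat_lit 0x0)
  (PL.C (nat_lit 0x1568541) (nat_lit 0x0) (nat_lit 0x1016e586284b40)
  (PL.C (nat_lit 0x156d528) (nat_lit 0x619402d000) (nat_lit 0x0)
  (PL.C (nat_lit 0x157c1fa) (nat_lit 0x0) (nat_lit 0x483facd3c24400)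
  (PL.C (nat_lit 0x1586e06) (nat_lit 0x5b9015153c6c0) (nat_lit 0x0)
  (PL.C (nat_lit 0x15932a6) (nat_lit 0x0) (nat_lit 0xb00408ab1ac80)
  (PL.C (nat_lit 0x159818a) (nat_lit 0x0) (nat_lit 0x42d494eb3b00)
  (PL.C (nat_lit 0x15a152b) (nat_lit 0xcb2537012d540) (nat_lit 0x0)
  (PL.C (nat_lit 0x15a2e76) (nat_lit 0x0) (nat_lit 0x8b65f099e80) lm_109))))))))))))))))))))

noncomputable def lm_107 : PL :=
  (PL.C (nat_lit 0x146b0d4) (nat_lit 0x39e062843100) (nat_lit 0x0)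
  (PL.C (nat_lit 0x146deac) (nat_lit 0x1051f262da00) (nat_lit 0x0)
  (PL.C (nat_lit 0x14744a6) (nat_lit 0x0) (nat_lit 0x3460368007a80)
  (PL.C (nat_lit 0x1479177) (nat_lit 0x0) (nat_lit 0x3a38247dbe00)
  (PL.C (nat_lit 0x1480aba) (nat_lit 0x4a983cdc39700) (nat_lit 0x0)
  (PL.C (nat_lit 0x148917a) (nat_lit 0x0) (nat_lit 0x38a125808df20)
  (PL.C (nat_lit 0x148a841) (nat_lit 0x3f95e101efbc0) (nat_lit 0x0)
  (PL.C (nat_lit 0x149ed4f) (nat_lit 0x343310e29a240) (nat_lit 0x0)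
  (PL.C (nat_lit 0x14a7b57) (nat_lit 0x0) (nat_lit 0xe1d587fa200)
  (PL.C (nat_lit 0x14c6f0c) (nat_lit 0xf682e515ea00) (nat_lit 0x0)
  (PL.C (nat_lit 0x14cb8bd) (nat_lit 0x543a02806bd80) (nat_lit 0x0)
  (PL.C (nat_lit 0x14d5f43) (nat_lit 0x0) (nat_lit 0x2ff6c6cddb00)
  (PL.C (nat_lit 0x14deab8) (nat_lit 0x1af374fc8000) (nat_lit 0x0)
  (PL.C (nat_lit 0x14e0806) (nat_lit 0x229741ee3400) (nat_lit 0x0)
  (PL.C (nat_lit 0x14e1d93) (nat_lit 0x1344aa4e64000) (nat_lit 0x0)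
  (PL.C (nat_lit 0x14e4e62) (nat_lit 0x1181231517aa00) (nat_lit 0x0)
  (PL.C (nat_lit 0x14f6e96) (nat_lit 0x0) (nat_lit 0x6c9fa6e748180)
  (PL.C (nat_lit 0x1509cbc) (nat_lit 0x1b8cc67df1900) (nat_lit 0x0)
  (PL.C (nat_lit 0x150ee23) (nat_lit 0xafe58b868ed80) (nat_lit 0x0)
  (PL.C (nat_lit 0x15127b9) (nat_lit 0x2d878e3b3600) (nat_lit 0x0) lm_108))))))))))))))))))))

noncomputable def lm_106 : PL :=
  (PL.C (nat_lit 0x13deab4) (nat_lit 0x56eacb01ecc80) (nat_lit 0x0)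
  (PL.C (nat_lit 0x13eddca) (nat_lit 0x0) (nat_lit 0x32f45196b400)
  (PL.C (nat_lit 0x13f615e) (nat_lit 0xad814d05649c0) (nat_lit 0x0)
  (PL.C (nat_lit 0x1407146) (nat_lit 0x0) (nat_lit 0x10e25316cb5dc0)
  (PL.C (nat_lit 0x140b2ed) (nat_lit 0xa2361921f6f00) (nat_lit 0x0)
  (PL.C (nat_lit 0x140d20a) (nat_lit 0x0) (nat_lit 0x483facd3c24400)
  (PL.C (nat_lit 0x1414cee) (nat_lit 0x0) (nat_lit 0x16d1acdf1fc600)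
  (PL.C (nat_lit 0x14158b6) (nat_lit 0x1e1929508b00) (nat_lit 0x0)
  (PL.C (nat_lit 0x1422132) (nat_lit 0xad814d05649c0) (nat_lit 0x0)
  (PL.C (nat_lit 0x1429864) (nat_lit 0x0) (nat_lit 0x65b37fa81fe00)
  (PL.C (nat_lit 0x142aa0d) (nat_lit 0x0) (nat_lit 0x2aac8003028640)
  (PL.C (nat_lit 0x142fb2d) (nat_lit 0x0) (nat_lit 0x2aff8dde19500)
  (PL.C (nat_lit 0x14311aa) (nat_lit 0x4ede92fc4ad00) (nat_lit 0x0)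
  (PL.C (nat_lit 0x1432344) (nat_lit 0x7a0ebe42800) (nat_lit 0x0)
  (PL.C (nat_lit 0x1439cd3) (nat_lit 0x402579303e940) (nat_lit 0x0)
  (PL.C (nat_lit 0x144282e) (nat_lit 0x2ff316d65680) (nat_lit 0x0)
  (PL.C (nat_lit 0x144c5c1) (nat_lit 0x0) (nat_lit 0x6e88dc3d1c00)
  (PL.C (nat_lit 0x1450dde) (nat_lit 0x704a70fe3a00) (nat_lit 0x0)
  (PL.C (nat_lit 0x14553ec) (nat_lit 0x89cb6ddd6400) (nat_lit 0x0)
  (PL.C (nat_lit 0x1459cb6) (nat_lit 0x0) (nat_lit 0x52e9f56b6bec00) lm_107))))))))))))))))))))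

noncomputable def lm_105 : PL :=
  (PL.C (nat_lit 0x134a516) (nat_lit 0x1d4d871098380) (nat_lit 0x0)
  (PL.C (nat_lit 0x1353d48) (nat_lit 0x0) (nat_lit 0xd24cc050200)
  (PL.C (nat_lit 0x135c27c) (nat_lit 0x0) (nat_lit 0x12506cd1000)
  (PL.C (nat_lit 0x1368d4c) (nat_lit 0x1fad30f1f21540) (nat_lit 0x0)
  (PL.C (nat_lit 0x139df08) (nat_lit 0x0) (nat_lit 0x3b9437df000)
  (PL.C (nat_lit 0x139f287) (nat_lit 0x492886422000) (nat_lit 0x0)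
  (PL.C (nat_lit 0x13a894a) (nat_lit 0x0) (nat_lit 0x150e547d3c380)
  (PL.C (nat_lit 0x13aaace) (nat_lit 0x0) (nat_lit 0x157391f35f77c0)
  (PL.C (nat_lit 0x13b26b6) (nat_lit 0xcfecd50a180) (nat_lit 0x0)
  (PL.C (nat_lit 0x13b289b) (nat_lit 0x724792418d300) (nat_lit 0x0)
  (PL.C (nat_lit 0x13b4958) (nat_lit 0x0) (nat_lit 0x966514c67e00)
  (PL.C (nat_lit 0x13b5916) (nat_lit 0x0) (nat_lit 0x14238a5bdcd80)
  (PL.C (nat_lit 0x13bf6ea) (nat_lit 0x11466b1c0f800) (nat_lit 0x0)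
  (PL.C (nat_lit 0x13c447e) (nat_lit 0x0) (nat_lit 0xb5666557ea00)
  (PL.C (nat_lit 0x13c6bd4) (nat_lit 0x11cc1974e5e00) (nat_lit 0x0)
  (PL.C (nat_lit 0x13c92b8) (nat_lit 0x0) (nat_lit 0x4a5ace24180)
  (PL.C (nat_lit 0x13cab4a) (nat_lit 0x0) (nat_lit 0x3a0db1019200)
  (PL.C (nat_lit 0x13cccb9) (nat_lit 0x0) (nat_lit 0x155de8117500)
  (PL.C (nat_lit 0x13d8622) (nat_lit 0x0) (nat_lit 0xed0a945def80)
  (PL.C (nat_lit 0x13d9c25) (nat_lit 0x0) (nat_lit 0x1655551c08e300) lm_106))))))))))))))))))))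

noncomputable def lm_104 : PL :=
  (PL.C (nat_lit 0x12ea909) (nat_lit 0x0) (nat_lit 0x383a51366d200)
  (PL.C (nat_lit 0x12eb7be) (nat_lit 0x45864f1ed5780) (nat_lit 0x0)
  (PL.C (nat_lit 0x12f66be) (nat_lit 0xe2c79ad7fba0) (nat_lit 0x0)
  (PL.C (nat_lit 0x12f9b82) (nat_lit 0x0) (nat_lit 0x3a0db1019200)
  (PL.C (nat_lit 0x12f9ecc) (nat_lit 0x5fb9525003a00) (nat_lit 0x0)
  (PL.C (nat_lit 0x1302ab3) (nat_lit 0xaf94756b800) (nat_lit 0x0)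
  (PL.C (nat_lit 0x1305722) (nat_lit 0x0) (nat_lit 0x112711c25fe180)
  (PL.C (nat_lit 0x13090a7) (nat_lit 0x0) (nat_lit 0x4f38a9904800)
  (PL.C (nat_lit 0x130ac22) (nat_lit 0x127ed94cfa80) (nat_lit 0x0)
  (PL.C (nat_lit 0x130dbfc) (nat_lit 0x883685ba3300) (nat_lit 0x0)
  (PL.C (nat_lit 0x131eeab) (nat_lit 0x0) (nat_lit 0x3fe9dd672fa80)
  (PL.C (nat_lit 0x132ef19) (nat_lit 0x410172511080) (nat_lit 0x0)
  (PL.C (nat_lit 0x132f669) (nat_lit 0x0) (nat_lit 0xc5b178d427c80)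
  (PL.C (nat_lit 0x132f884) (nat_lit 0x0) (nat_lit 0x9f25f763d00)
  (PL.C (nat_lit 0x1333b04) (nat_lit 0x0) (nat_lit 0x60df032e85900)
  (PL.C (nat_lit 0x133ebbc) (nat_lit 0x0) (nat_lit 0x2a6bba374e700)
  (PL.C (nat_lit 0x1340aea) (nat_lit 0x0) (nat_lit 0x3cc285c0d0800)
  (PL.C (nat_lit 0x13427b4) (nat_lit 0x2f64aec574380) (nat_lit 0x0)
  (PL.C (nat_lit 0x13441bc) (nat_lit 0x4e1f102b8400) (nat_lit 0x0)
  (PL.C (nat_lit 0x1348611) (nat_lit 0x0) (nat_lit 0x3fd3ace2e400) lm_105))))))))))))))))))))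

noncomputable def lm_103 : PL :=
  (PL.C (nat_lit 0x1265583) (nat_lit 0x104cd8bfb000) (nat_lit 0x0)
  (PL.C (nat_lit 0x1266e6a) (nat_lit 0x8b65f099e80) (nat_lit 0x0)
  (PL.C (nat_lit 0x127ef3c) (nat_lit 0x9bf206586800) (nat_lit 0x0)
  (PL.C (nat_lit 0x1282716) (nat_lit 0x0) (nat_lit 0x4e65c0c02fa00)
  (PL.C (nat_lit 0x12849db) (nat_lit 0x0) (nat_lit 0x6e88dc3d1c00)
  (PL.C (nat_lit 0x1286cf6) (nat_lit 0x0) (nat_lit 0x3fc8d4713eb400)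
  (PL.C (nat_lit 0x128de25) (nat_lit 0x38ce5ee3b600) (nat_lit 0x0)
  (PL.C (nat_lit 0x1296854) (nat_lit 0x0) (nat_lit 0x3f138960f00)
  (PL.C (nat_lit 0x1297cf2) (nat_lit 0x0) (nat_lit 0xa229cc12bd380)
  (PL.C (nat_lit 0x129cc04) (nat_lit 0x1b8cc67df1900) (nat_lit 0x0)
  (PL.C (nat_lit 0x129eee6) (nat_lit 0x0) (nat_lit 0xd5b4b7d610680)
  (PL.C (nat_lit 0x12ab3ba) (nat_lit 0x0) (nat_lit 0x66b47ad2b8340)
  (PL.C (nat_lit 0x12b32a1) (nat_lit 0x1c3a5d229f9680) (nat_lit 0x0)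
  (PL.C (nat_lit 0x12c13bf) (nat_lit 0x0) (nat_lit 0x5618bf8d4b800)
  (PL.C (nat_lit 0x12c1cfc) (nat_lit 0x6d8018ce22e00) (nat_lit 0x0)
  (PL.C (nat_lit 0x12c280a) (nat_lit 0x183c97454a480) (nat_lit 0x0)
  (PL.C (nat_lit 0x12cae6f) (nat_lit 0x129aaa5907e80) (nat_lit 0x0)
  (PL.C (nat_lit 0x12d7034) (nat_lit 0x39e062843100) (nat_lit 0x0)
  (PL.C (nat_lit 0x12decab) (nat_lit 0x3a38247dbe00) (nat_lit 0x0)
  (PL.C (nat_lit 0x12e41e4) (nat_lit 0x17e6e4e7d2f80) (nat_lit 0x0) lm_104))))))))))))))))))))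

noncomputable def lm_102 : PL :=
  (PL.C (nat_lit 0x11fcb14) (nat_lit 0x0) (nat_lit 0x20a3e4c5b400)
  (PL.C (nat_lit 0x120a962) (nat_lit 0x52688cf5fe00) (nat_lit 0x0)
  (PL.C (nat_lit 0x120f0c8) (nat_lit 0x0) (nat_lit 0x77286fbe000)
  (PL.C (nat_lit 0x1212405) (nat_lit 0x0) (nat_lit 0x58441bd565e40)
  (PL.C (nat_lit 0x121a44b) (nat_lit 0x2a681d7690f80) (nat_lit 0x0)
  (PL.C (nat_lit 0x1222f62) (nat_lit 0x0) (nat_lit 0x33cd9a7b84c580)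
  (PL.C (nat_lit 0x122454c) (nat_lit 0x0) (nat_lit 0xc4b321bc0400)
  (PL.C (nat_lit 0x122815e) (nat_lit 0x0) (nat_lit 0x530785a22300)
  (PL.C (nat_lit 0x122c09e) (nat_lit 0xfb0e272d4c500) (nat_lit 0x0)
  (PL.C (nat_lit 0x122c45c) (nat_lit 0x0) (nat_lit 0xf200a503a000)
  (PL.C (nat_lit 0x123a932) (nat_lit 0x0) (nat_lit 0x1365990f5700)
  (PL.C (nat_lit 0x123c846) (nat_lit 0x0) (nat_lit 0x108cb080e8fd00)
  (PL.C (nat_lit 0x1242cc7) (nat_lit 0x0) (nat_lit 0xe95d8492a1050)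
  (PL.C (nat_lit 0x12445f5) (nat_lit 0x21277ff57d600) (nat_lit 0x0)
  (PL.C (nat_lit 0x124ea78) (nat_lit 0x43fa9ce67d200) (nat_lit 0x0)
  (PL.C (nat_lit 0x12533f6) (nat_lit 0x2ff316d65680) (nat_lit 0x0)
  (PL.C (nat_lit 0x12568a4) (nat_lit 0x0) (nat_lit 0x76661557def00)
  (PL.C (nat_lit 0x125c27d) (nat_lit 0x0) (nat_lit 0x3a38247dbe00)
  (PL.C (nat_lit 0x125f5aa) (nat_lit 0x85c25fab9d00) (nat_lit 0x0)
  (PL.C (nat_lit 0x125ffe4) (nat_lit 0x3b20619225400) (nat_lit 0x0) lm_103))))))))))))))))))))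

noncomputable def lm_101 : PL :=
  (PL.C (nat_lit 0x116ee28) (nat_lit 0x0) (nat_lit 0xb226889d100)
  (PL.C (nat_lit 0x117d688) (nat_lit 0x0) (nat_lit 0x11e4ba1e5e00)
  (PL.C (nat_lit 0x117e986) (nat_lit 0x0) (nat_lit 0x470ee6ba2505c0)
  (PL.C (nat_lit 0x118a03c) (nat_lit 0xf682e515ea00) (nat_lit 0x0)
  (PL.C (nat_lit 0x118a60d) (nat_lit 0xf950f2ee0100) (nat_lit 0x0)
  (PL.C (nat_lit 0x118de71) (nat_lit 0x543a02806bd80) (nat_lit 0x0)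
  (PL.C (nat_lit 0x118fe4c) (nat_lit 0x0) (nat_lit 0x883685ba3300)
  (PL.C (nat_lit 0x11955f6) (nat_lit 0x0) (nat_lit 0x92796854a1b80)
  (PL.C (nat_lit 0x11997ff) (nat_lit 0x1834ad645600) (nat_lit 0x0)
  (PL.C (nat_lit 0x11a3f38) (nat_lit 0x0) (nat_lit 0x11e4ba1e5e00)
  (PL.C (nat_lit 0x11b9f17) (nat_lit 0x1c3a5d229f9680) (nat_lit 0x0)
  (PL.C (nat_lit 0x11c6bef) (nat_lit 0x0) (nat_lit 0x360a1608c7980)
  (PL.C (nat_lit 0x11d2df8) (nat_lit 0x0) (nat_lit 0xb226889d100)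
  (PL.C (nat_lit 0x11d4506) (nat_lit 0x0) (nat_lit 0x42d494eb3b00)
  (PL.C (nat_lit 0x11e32ae) (nat_lit 0x22f9911a1a00) (nat_lit 0x0)
  (PL.C (nat_lit 0x11e7978) (nat_lit 0x0) (nat_lit 0x3d7669f2e000)
  (PL.C (nat_lit 0x11ee8bb) (nat_lit 0x0) (nat_lit 0x20a9df1879880)
  (PL.C (nat_lit 0x11f2656) (nat_lit 0x16e228f1a100) (nat_lit 0x0)
  (PL.C (nat_lit 0x11f62d2) (nat_lit 0x0) (nat_lit 0xce6d91421c100)
  (PL.C (nat_lit 0x11fc428) (nat_lit 0x0) (nat_lit 0x165f000f8000) lm_102))))))))))))))))))))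

noncomputable def lm_100 : PL :=
  (PL.C (nat_lit 0x10fed7a) (nat_lit 0x0) (nat_lit 0x4ebce6b1c0780)
  (PL.C (nat_lit 0x1106101) (nat_lit 0x0) (nat_lit 0xa4ac25552c080)
  (PL.C (nat_lit 0x110c754) (nat_lit 0x84618f8a00) (nat_lit 0x0)
  (PL.C (nat_lit 0x112a09c) (nat_lit 0x2f86ff723b8a80) (nat_lit 0x0)
  (PL.C (nat_lit 0x112de0e) (nat_lit 0x0) (nat_lit 0x52e9f56b6bec00)
  (PL.C (nat_lit 0x1131201) (nat_lit 0x0) (nat_lit 0xef5683bfc100)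
  (PL.C (nat_lit 0x113c724) (nat_lit 0x39e062843100) (nat_lit 0x0)
  (PL.C (nat_lit 0x113d4e9) (nat_lit 0x0) (nat_lit 0xe1d587fa200)
  (PL.C (nat_lit 0x1142394) (nat_lit 0x0) (nat_lit 0xa261b3b50380)
  (PL.C (nat_lit 0x1149a86) (nat_lit 0xd81de339a100) (nat_lit 0x0)
  (PL.C (nat_lit 0x114eb22) (nat_lit 0x154aac511e9e40) (nat_lit 0x0)
  (PL.C (nat_lit 0x1155ce2) (nat_lit 0x8e2becf1dc9e0) (nat_lit 0x0)
  (PL.C (nat_lit 0x115a685) (nat_lit 0x0) (nat_lit 0x9c2ad4d30a400)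
  (PL.C (nat_lit 0x115b9da) (nat_lit 0x0) (nat_lit 0xf7f3d571a3600)
  (PL.C (nat_lit 0x11619e4) (nat_lit 0x0) (nat_lit 0xbc80a04e26800)
  (PL.C (nat_lit 0x116317b) (nat_lit 0x1e070fc3a6cc80) (nat_lit 0x0)
  (PL.C (nat_lit 0x11640db) (nat_lit 0xf950f2ee0100) (nat_lit 0x0)
  (PL.C (nat_lit 0x116496c) (nat_lit 0x55c0881abf00) (nat_lit 0x0)
  (PL.C (nat_lit 0x1166f0d) (nat_lit 0x2f3b65f3000) (nat_lit 0x0)
  (PL.C (nat_lit 0x116d04b) (nat_lit 0x0) (nat_lit 0x360a1608c7980) lm_101))))))))))))))))))))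

noncomputable def lm_99 : PL :=
  (PL.C (nat_lit 0x10917c5) (nat_lit 0x2e96a41d5d800) (nat_lit 0x0)
  (PL.C (nat_lit 0x1093d08) (nat_lit 0x165f000f8000) (nat_lit 0x0)
  (PL.C (nat_lit 0x10a33ee) (nat_lit 0xd81de339a100) (nat_lit 0x0)
  (PL.C (nat_lit 0x10adce4) (nat_lit 0x41eb60f7bb00) (nat_lit 0x0)
  (PL.C (nat_lit 0x10af378) (nat_lit 0x3b9437df000) (nat_lit 0x0)
  (PL.C (nat_lit 0x10bb81a) (nat_lit 0x10e82f480c6000) (nat_lit 0x0)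
  (PL.C (nat_lit 0x10c0a2a) (nat_lit 0x0) (nat_lit 0xcfecd50a180)
  (PL.C (nat_lit 0x10c1e53) (nat_lit 0x2da92557e4400) (nat_lit 0x0)
  (PL.C (nat_lit 0x10c6402) (nat_lit 0x2b90464aaacc0) (nat_lit 0x0)
  (PL.C (nat_lit 0x10d14aa) (nat_lit 0x0) (nat_lit 0x2ca5000a7ba80)
  (PL.C (nat_lit 0x10d28fc) (nat_lit 0x39589a249ce00) (nat_lit 0x0)
  (PL.C (nat_lit 0x10d7117) (nat_lit 0x155de8117500) (nat_lit 0x0)
  (PL.C (nat_lit 0x10d9b56) (nat_lit 0x0) (nat_lit 0xa65ba5871c500)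
  (PL.C (nat_lit 0x10db3bc) (nat_lit 0x84618f8a00) (nat_lit 0x0)
  (PL.C (nat_lit 0x10e2048) (nat_lit 0x0) (nat_lit 0x7334809e61c80)
  (PL.C (nat_lit 0x10e80de) (nat_lit 0x201bd9ca57a640) (nat_lit 0x0)
  (PL.C (nat_lit 0x10eed03) (nat_lit 0x870fd71692c00) (nat_lit 0x0)
  (PL.C (nat_lit 0x10f45cc) (nat_lit 0x0) (nat_lit 0x53a29d56ecd80)
  (PL.C (nat_lit 0x10f7a24) (nat_lit 0x41eb60f7bb00) (nat_lit 0x0)
  (PL.C (nat_lit 0x10fe10e) (nat_lit 0x0) (nat_lit 0xc761aa7ecd80) lm_100))))))))))))))))))))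

noncomputable def lm_98 : PL :=
  (PL.C (nat_lit 0x101f607) (nat_lit 0x14eb6e4e24880) (nat_lit 0x0)
  (PL.C (nat_lit 0x102076e) (nat_lit 0x0) (nat_lit 0x28ea1566f800)
  (PL.C (nat_lit 0x1028892) (nat_lit 0x0) (nat_lit 0xa878566bef00)
  (PL.C (nat_lit 0x1031fcd) (nat_lit 0x599cbdb2e84980) (nat_lit 0x0)
  (PL.C (nat_lit 0x1032194) (nat_lit 0x8c9a569e7f00) (nat_lit 0x0)
  (PL.C (nat_lit 0x103830f) (nat_lit 0x0) (nat_lit 0x54a6c316f1480)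
  (PL.C (nat_lit 0x1038c93) (nat_lit 0x0) (nat_lit 0x1834ad645600)
  (PL.C (nat_lit 0x10404f1) (nat_lit 0x3e2c1eaae7800) (nat_lit 0x0)
  (PL.C (nat_lit 0x1042184) (nat_lit 0x692fa6f36f580) (nat_lit 0x0)
  (PL.C (nat_lit 0x1042e81) (nat_lit 0x0) (nat_lit 0x11089fc1aa60c0)
  (PL.C (nat_lit 0x1044988) (nat_lit 0xcded14614c00) (nat_lit 0x0)
  (PL.C (nat_lit 0x1049961) (nat_lit 0x0) (nat_lit 0x19069e13f0480)
  (PL.C (nat_lit 0x104fef2) (nat_lit 0x7178bae05c00) (nat_lit 0x0)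
  (PL.C (nat_lit 0x105d1af) (nat_lit 0x0) (nat_lit 0xbf890ca93300)
  (PL.C (nat_lit 0x106277c) (nat_lit 0x0) (nat_lit 0x498c24403dd80)
  (PL.C (nat_lit 0x106fe93) (nat_lit 0x0) (nat_lit 0xfe90d9126e5c0)
  (PL.C (nat_lit 0x10730f8) (nat_lit 0x77286fbe000) (nat_lit 0x0)
  (PL.C (nat_lit 0x1077444) (nat_lit 0x12506cd1000) (nat_lit 0x0)
  (PL.C (nat_lit 0x10793fa) (nat_lit 0x0) (nat_lit 0x321fe57a7da80)
  (PL.C (nat_lit 0x107aa3e) (nat_lit 0x32f45196b400) (nat_lit 0x0) lm_99))))))))))))))))))))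

noncomputable def lm_97 : PL :=
  (PL.C (nat_lit 0xfad496) (nat_lit 0x0) (nat_lit 0x1ecdd8cc09ccc0)
  (PL.C (nat_lit 0xfb6314) (nat_lit 0x0) (nat_lit 0x522f50670f80)
  (PL.C (nat_lit 0xfc3a84) (nat_lit 0x0) (nat_lit 0x66417d17b8b00)
  (PL.C (nat_lit 0xfc4b88) (nat_lit 0x0) (nat_lit 0x966514c67e00)
  (PL.C (nat_lit 0xfd5dac) (nat_lit 0x0) (nat_lit 0x506a934103b80)
  (PL.C (nat_lit 0xfdd26b) (nat_lit 0x0) (nat_lit 0x257ec4b3cde80)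
  (PL.C (nat_lit 0xfe0c6d) (nat_lit 0x59546a2449c0) (nat_lit 0x0)
  (PL.C (nat_lit 0xfe277f) (nat_lit 0x0) (nat_lit 0x1655551c08e300)
  (PL.C (nat_lit 0xfe665c) (nat_lit 0x0) (nat_lit 0xa0f5ec4d3cd40)
  (PL.C (nat_lit 0xfe8b93) (nat_lit 0x28c01ddf3800) (nat_lit 0x0)
  (PL.C (nat_lit 0xfea78c) (nat_lit 0x0) (nat_lit 0x1ffa7b5b54600)
  (PL.C (nat_lit 0xfeb443) (nat_lit 0x148b4f1ca900) (nat_lit 0x0)
  (PL.C (nat_lit 0xfecedc) (nat_lit 0x14fc10231df80) (nat_lit 0x0)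
  (PL.C (nat_lit 0xfee086) (nat_lit 0xa011155df9b40) (nat_lit 0x0)
  (PL.C (nat_lit 0xff1ce3) (nat_lit 0x0) (nat_lit 0x104cd8bfb000)
  (PL.C (nat_lit 0xff33bd) (nat_lit 0x6752548490280) (nat_lit 0x0)
  (PL.C (nat_lit 0xffc56d) (nat_lit 0x0) (nat_lit 0x238577367480)
  (PL.C (nat_lit 0x1001e36) (nat_lit 0x143e9dbe5ad620) (nat_lit 0x0)
  (PL.C (nat_lit 0x100c76a) (nat_lit 0x0) (nat_lit 0x693d49adec340)
  (PL.C (nat_lit 0x101ce48) (nat_lit 0x0) (nat_lit 0x77286fbe000) lm_98))))))))))))))))))))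

noncomputable def lm_96 : PL :=
  (PL.C (nat_lit 0xf468a2) (nat_lit 0x0) (nat_lit 0x3460368007a80)
  (PL.C (nat_lit 0xf47188) (nat_lit 0x563b05eb83e00) (nat_lit 0x0)
  (PL.C (nat_lit 0xf480b7) (nat_lit 0x0) (nat_lit 0x3c9d2ca0e9380)
  (PL.C (nat_lit 0xf53b56) (nat_lit 0x0) (nat_lit 0x221b332f76d00)
  (PL.C (nat_lit 0xf597f6) (nat_lit 0x0) (nat_lit 0x15dab305ce6000)
  (PL.C (nat_lit 0xf5d039) (nat_lit 0x0) (nat_lit 0x17b821c3a0500)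
  (PL.C (nat_lit 0xf68c38) (nat_lit 0x0) (nat_lit 0x99ea149db9b00)
  (PL.C (nat_lit 0xf6a423) (nat_lit 0x1fb9aa3bf94bb0) (nat_lit 0x0)
  (PL.C (nat_lit 0xf748bc) (nat_lit 0x0) (nat_lit 0x41eb60f7bb00)
  (PL.C (nat_lit 0xf7824e) (nat_lit 0xfed8c6c89080) (nat_lit 0x0)
  (PL.C (nat_lit 0xf825d2) (nat_lit 0x23e3b17f7a700) (nat_lit 0x0)
  (PL.C (nat_lit 0xf82e74) (nat_lit 0x0) (nat_lit 0x4311127d81400)
  (PL.C (nat_lit 0xf8672c) (nat_lit 0x5fb9525003a00) (nat_lit 0x0)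
  (PL.C (nat_lit 0xf881a4) (nat_lit 0x0) (nat_lit 0x498c24403dd80)
  (PL.C (nat_lit 0xf8b48e) (nat_lit 0x127ed94cfa80) (nat_lit 0x0)
  (PL.C (nat_lit 0xf8cdbd) (nat_lit 0x3b441f16e100) (nat_lit 0x0)
  (PL.C (nat_lit 0xf94a43) (nat_lit 0x0) (nat_lit 0x809763afe1c0)
  (PL.C (nat_lit 0xf97194) (nat_lit 0x20a3e4c5b400) (nat_lit 0x0)
  (PL.C (nat_lit 0xf987ec) (nat_lit 0x2afb10b475e00) (nat_lit 0x0)
  (PL.C (nat_lit 0xf9d893) (nat_lit 0x3a38247dbe00) (nat_lit 0x0) lm_97))))))))))))))))))))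

noncomputable def lm_95 : PL :=
  (PL.C (nat_lit 0xed61f4) (nat_lit 0x0) (nat_lit 0x288b730bf280)
  (PL.C (nat_lit 0xed8cfd) (nat_lit 0x0) (nat_lit 0x699e517ac6b00)
  (PL.C (nat_lit 0xee0d76) (nat_lit 0x0) (nat_lit 0x2ca5000a7ba80)
  (PL.C (nat_lit 0xee0f18) (nat_lit 0x0) (nat_lit 0x28b44d436a00)
  (PL.C (nat_lit 0xee2192) (nat_lit 0x13fe79b2c5600) (nat_lit 0x0)
  (PL.C (nat_lit 0xeefa38) (nat_lit 0x0) (nat_lit 0x7334809e61c80)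
  (PL.C (nat_lit 0xef0e68) (nat_lit 0xee9dd4528d00) (nat_lit 0x0)
  (PL.C (nat_lit 0xef11c4) (nat_lit 0x0) (nat_lit 0x4616fa886e700)
  (PL.C (nat_lit 0xef3343) (nat_lit 0x0) (nat_lit 0x65f006133b00)
  (PL.C (nat_lit 0xef4366) (nat_lit 0x2187bcc645200) (nat_lit 0x0)
  (PL.C (nat_lit 0xef6bb3) (nat_lit 0x371b1fc42836c0) (nat_lit 0x0)
  (PL.C (nat_lit 0xf036ba) (nat_lit 0x1c87e5003a00) (nat_lit 0x0)
  (PL.C (nat_lit 0xf04761) (nat_lit 0x72e064520e600) (nat_lit 0x0)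
  (PL.C (nat_lit 0xf0a36b) (nat_lit 0x724792418d300) (nat_lit 0x0)
  (PL.C (nat_lit 0xf14265) (nat_lit 0x0) (nat_lit 0xaea5698f5d00)
  (PL.C (nat_lit 0xf19825) (nat_lit 0x4a6e226e1e200) (nat_lit 0x0)
  (PL.C (nat_lit 0xf2662e) (nat_lit 0x1c66aa13927080) (nat_lit 0x0)
  (PL.C (nat_lit 0xf3782a) (nat_lit 0x13a6489679c00) (nat_lit 0x0)
  (PL.C (nat_lit 0xf3c014) (nat_lit 0x0) (nat_lit 0x60df032e85900)
  (PL.C (nat_lit 0xf3d09f) (nat_lit 0x0) (nat_lit 0x2059643a55ace0) lm_96))))))))))))))))))))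

noncomputable def lm_94 : PL :=
  (PL.C (nat_lit 0xe7d40c) (nat_lit 0x89cb6ddd6400) (nat_lit 0x0)
  (PL.C (nat_lit 0xe833c5) (nat_lit 0x3b441f16e100) (nat_lit 0x0)
  (PL.C (nat_lit 0xe86d34) (nat_lit 0x0) (nat_lit 0x41b5ac184e00)
  (PL.C (nat_lit 0xe88cb7) (nat_lit 0x0) (nat_lit 0x3895bd3a5800)
  (PL.C (nat_lit 0xe8c63c) (nat_lit 0x17e6e4e7d2f80) (nat_lit 0x0)
  (PL.C (nat_lit 0xe8d84d) (nat_lit 0x29daaff9e800) (nat_lit 0x0)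
  (PL.C (nat_lit 0xe92659) (nat_lit 0x28858a4e1b400) (nat_lit 0x0)
  (PL.C (nat_lit 0xe96004) (nat_lit 0x4e1f102b8400) (nat_lit 0x0)
  (PL.C (nat_lit 0xe97f1e) (nat_lit 0x0) (nat_lit 0x14238a5bdcd80)
  (PL.C (nat_lit 0xe9c32a) (nat_lit 0x0) (nat_lit 0x769557ff487c0)
  (PL.C (nat_lit 0xea6159) (nat_lit 0x599cbdb2e84980) (nat_lit 0x0)
  (PL.C (nat_lit 0xea6758) (nat_lit 0x0) (nat_lit 0x4a5ace24180)
  (PL.C (nat_lit 0xead6a7) (nat_lit 0x111655efdd0600) (nat_lit 0x0)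
  (PL.C (nat_lit 0xeb4a74) (nat_lit 0x692fa6f36f580) (nat_lit 0x0)
  (PL.C (nat_lit 0xeb5cb7) (nat_lit 0xafe58b868ed80) (nat_lit 0x0)
  (PL.C (nat_lit 0xeb9281) (nat_lit 0x0) (nat_lit 0x1540dfffb7400)
  (PL.C (nat_lit 0xebab9b) (nat_lit 0xab54b6a0c4c00) (nat_lit 0x0)
  (PL.C (nat_lit 0xec46cc) (nat_lit 0x13f205d2a7e80) (nat_lit 0x0)
  (PL.C (nat_lit 0xec4a1e) (nat_lit 0x0) (nat_lit 0xadd4bc7101440)
  (PL.C (nat_lit 0xec6be8) (nat_lit 0x0) (nat_lit 0x3b9437df000) lm_95))))))))))))))))))))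

noncomputable def lm_93 : PL :=
  (PL.C (nat_lit 0xe17e28) (nat_lit 0x55e45962ed80) (nat_lit 0x0)
  (PL.C (nat_lit 0xe205e4) (nat_lit 0xf55e1402c200) (nat_lit 0x0)
  (PL.C (nat_lit 0xe2153b) (nat_lit 0x1557e3a9627b00) (nat_lit 0x0)
  (PL.C (nat_lit 0xe295aa) (nat_lit 0x143e9dbe5ad620) (nat_lit 0x0)
  (PL.C (nat_lit 0xe2a8ce) (nat_lit 0x17fff16000a00) (nat_lit 0x0)
  (PL.C (nat_lit 0xe30acc) (nat_lit 0xc937f564cc00) (nat_lit 0x0)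
  (PL.C (nat_lit 0xe361c4) (nat_lit 0x0) (nat_lit 0x7c9c30d71380)
  (PL.C (nat_lit 0xe3abac) (nat_lit 0x7a0ebe42800) (nat_lit 0x0)
  (PL.C (nat_lit 0xe3bfa7) (nat_lit 0x2d878e3b3600) (nat_lit 0x0)
  (PL.C (nat_lit 0xe3f7fc) (nat_lit 0x74860b1f8a00) (nat_lit 0x0)
  (PL.C (nat_lit 0xe44ec8) (nat_lit 0xcded14614c00) (nat_lit 0x0)
  (PL.C (nat_lit 0xe458d6) (nat_lit 0x201bd9ca57a640) (nat_lit 0x0)
  (PL.C (nat_lit 0xe52bfc) (nat_lit 0x6d1e1f3e5c380) (nat_lit 0x0)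
  (PL.C (nat_lit 0xe621c4) (nat_lit 0x0) (nat_lit 0xbc80a04e26800)
  (PL.C (nat_lit 0xe6565c) (nat_lit 0x0) (nat_lit 0xbb7db17e9100)
  (PL.C (nat_lit 0xe668fb) (nat_lit 0x0) (nat_lit 0x1540dfffb7400)
  (PL.C (nat_lit 0xe6c9a4) (nat_lit 0x883685ba3300) (nat_lit 0x0)
  (PL.C (nat_lit 0xe728ef) (nat_lit 0x28858a4e1b400) (nat_lit 0x0)
  (PL.C (nat_lit 0xe74d64) (nat_lit 0x0) (nat_lit 0x41eb60f7bb00)
  (PL.C (nat_lit 0xe7621c) (nat_lit 0x120015519c900) (nat_lit 0x0) lm_94))))))))))))))))))))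

noncomputable def lm_92 : PL :=
  (PL.C (nat_lit 0xda7bc7) (nat_lit 0x36c3b1628f080) (nat_lit 0x0)
  (PL.C (nat_lit 0xdabdc1) (nat_lit 0x0) (nat_lit 0x9c2ad4d30a400)
  (PL.C (nat_lit 0xdb118b) (nat_lit 0xa175d66c1c980) (nat_lit 0x0)
  (PL.C (nat_lit 0xdb1ad6) (nat_lit 0x1a05f427cc4a80) (nat_lit 0x0)
  (PL.C (nat_lit 0xdba245) (nat_lit 0x14eb6e4e24880) (nat_lit 0x0)
  (PL.C (nat_lit 0xdbf38a) (nat_lit 0x884e9a5b6cbc0) (nat_lit 0x0)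
  (PL.C (nat_lit 0xdc523a) (nat_lit 0x2056d87d3300) (nat_lit 0x0)
  (PL.C (nat_lit 0xddd07e) (nat_lit 0x29444c0ac8500) (nat_lit 0x0)
  (PL.C (nat_lit 0xde021f) (nat_lit 0x9f092d95d86740) (nat_lit 0x0)
  (PL.C (nat_lit 0xde3f82) (nat_lit 0x183c97454a480) (nat_lit 0x0)
  (PL.C (nat_lit 0xdeb004) (nat_lit 0x55c0881abf00) (nat_lit 0x0)
  (PL.C (nat_lit 0xdebe62) (nat_lit 0x13a6489679c00) (nat_lit 0x0)
  (PL.C (nat_lit 0xdedeec) (nat_lit 0x5e923778be000) (nat_lit 0x0)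
  (PL.C (nat_lit 0xdf16d7) (nat_lit 0x1fb9aa3bf94bb0) (nat_lit 0x0)
  (PL.C (nat_lit 0xdfaa39) (nat_lit 0x0) (nat_lit 0x3e4fc86bd0cc0)
  (PL.C (nat_lit 0xdfc799) (nat_lit 0x17af4ea45c300) (nat_lit 0x0)
  (PL.C (nat_lit 0xe00619) (nat_lit 0xa2361921f6f00) (nat_lit 0x0)
  (PL.C (nat_lit 0xe09ec2) (nat_lit 0xa7fdbcaaa3400) (nat_lit 0x0)
  (PL.C (nat_lit 0xe0c526) (nat_lit 0x21448aa74a00) (nat_lit 0x0)
  (PL.C (nat_lit 0xe14a34) (nat_lit 0x0) (nat_lit 0x3aa5a89b5900) lm_93))))))))))))))))))))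

noncomputable def lm_91 : PL :=
  (PL.C (nat_lit 0xd63b24) (nat_lit 0x41b5ac184e00) (nat_lit 0x0)
  (PL.C (nat_lit 0xd674e1) (nat_lit 0x0) (nat_lit 0x2fec0f4b1c40)
  (PL.C (nat_lit 0xd68bbb) (nat_lit 0x0) (nat_lit 0x2d05f533b1200)
  (PL.C (nat_lit 0xd6c0cc) (nat_lit 0x1cb50b6043d400) (nat_lit 0x0)
  (PL.C (nat_lit 0xd7028f) (nat_lit 0x4f5e4b90a2100) (nat_lit 0x0)
  (PL.C (nat_lit 0xd7521e) (nat_lit 0x0) (nat_lit 0xa229cc12bd380)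
  (PL.C (nat_lit 0xd7611c) (nat_lit 0x3b22c956f8980) (nat_lit 0x0)
  (PL.C (nat_lit 0xd76cd8) (nat_lit 0x14053befc000) (nat_lit 0x0)
  (PL.C (nat_lit 0xd7bde2) (nat_lit 0x4122a602f65c0) (nat_lit 0x0)
  (PL.C (nat_lit 0xd83c15) (nat_lit 0x0) (nat_lit 0x20df9164f78500)
  (PL.C (nat_lit 0xd87e5d) (nat_lit 0x0) (nat_lit 0x28c01ddf3800)
  (PL.C (nat_lit 0xd883d6) (nat_lit 0x0) (nat_lit 0x858a9ec7c000)
  (PL.C (nat_lit 0xd91324) (nat_lit 0x32c805e2cc3c0) (nat_lit 0x0)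
  (PL.C (nat_lit 0xd9559d) (nat_lit 0x0) (nat_lit 0x102ed6594f0380)
  (PL.C (nat_lit 0xd9c263) (nat_lit 0x0) (nat_lit 0x11089fc1aa60c0)
  (PL.C (nat_lit 0xd9cb38) (nat_lit 0x0) (nat_lit 0x28b44d436a00)
  (PL.C (nat_lit 0xd9e9c8) (nat_lit 0x3b9437df000) (nat_lit 0x0)
  (PL.C (nat_lit 0xda2dc4) (nat_lit 0x0) (nat_lit 0x2ac2a817f7880)
  (PL.C (nat_lit 0xda3eb3) (nat_lit 0x18ec172b9280) (nat_lit 0x0)
  (PL.C (nat_lit 0xda60fa) (nat_lit 0x0) (nat_lit 0x3a0db1019200) lm_92))))))))))))))))))))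

noncomputable def lm_90 : PL :=
  (PL.C (nat_lit 0xcf65fd) (nat_lit 0x0) (nat_lit 0x1a6164772fc40)
  (PL.C (nat_lit 0xd14c5a) (nat_lit 0x1523302e9d800) (nat_lit 0x0)
  (PL.C (nat_lit 0xd1b0dc) (nat_lit 0x17ea8732cec0) (nat_lit 0x0)
  (PL.C (nat_lit 0xd1c734) (nat_lit 0x1fad30f1f21540) (nat_lit 0x0)
  (PL.C (nat_lit 0xd20771) (nat_lit 0x0) (nat_lit 0xef5683bfc100)
  (PL.C (nat_lit 0xd21b12) (nat_lit 0xb49b16f4de480) (nat_lit 0x0)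
  (PL.C (nat_lit 0xd23b64) (nat_lit 0x197e6ecd93200) (nat_lit 0x0)
  (PL.C (nat_lit 0xd2708f) (nat_lit 0x3ae556a1d440) (nat_lit 0x0)
  (PL.C (nat_lit 0xd2a49c) (nat_lit 0x2afb10b475e00) (nat_lit 0x0)
  (PL.C (nat_lit 0xd2d854) (nat_lit 0x0) (nat_lit 0xa261b3b50380)
  (PL.C (nat_lit 0xd30b51) (nat_lit 0x18ec172b9280) (nat_lit 0x0)
  (PL.C (nat_lit 0xd31cdc) (nat_lit 0xf3a746eb4600) (nat_lit 0x0)
  (PL.C (nat_lit 0xd32f63) (nat_lit 0xaecd145bc800) (nat_lit 0x0)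
  (PL.C (nat_lit 0xd33326) (nat_lit 0x0) (nat_lit 0x1e1929508b00)
  (PL.C (nat_lit 0xd35031) (nat_lit 0x2b659aa438e800) (nat_lit 0x0)
  (PL.C (nat_lit 0xd3bd6e) (nat_lit 0x0) (nat_lit 0x2b6b8c787eaf40)
  (PL.C (nat_lit 0xd493dc) (nat_lit 0x0) (nat_lit 0x4e1f102b8400)
  (PL.C (nat_lit 0xd4eb94) (nat_lit 0x1cb50b6043d400) (nat_lit 0x0)
  (PL.C (nat_lit 0xd5cc9e) (nat_lit 0x0) (nat_lit 0x131867020b100)
  (PL.C (nat_lit 0xd5e15c) (nat_lit 0x6d1e1f3e5c380) (nat_lit 0x0) lm_91))))))))))))))))))))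

noncomputable def lm_89 : PL :=
  (PL.C (nat_lit 0xca67ac) (nat_lit 0xf3a746eb4600) (nat_lit 0x0)
  (PL.C (nat_lit 0xca9803) (nat_lit 0x71783963efe80) (nat_lit 0x0)
  (PL.C (nat_lit 0xcac722) (nat_lit 0x32bada097a00) (nat_lit 0x0)
  (PL.C (nat_lit 0xcb0b1a) (nat_lit 0x0) (nat_lit 0xc761aa7ecd80)
  (PL.C (nat_lit 0xcb1d6c) (nat_lit 0x30580c5a582c0) (nat_lit 0x0)
  (PL.C (nat_lit 0xcbd6ab) (nat_lit 0x2f3b65f3000) (nat_lit 0x0)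
  (PL.C (nat_lit 0xcbf179) (nat_lit 0x0) (nat_lit 0x5568cca009800)
  (PL.C (nat_lit 0xcbf472) (nat_lit 0xa011155df9b40) (nat_lit 0x0)
  (PL.C (nat_lit 0xcc35d5) (nat_lit 0x1cff204f36d40) (nat_lit 0x0)
  (PL.C (nat_lit 0xcc9f66) (nat_lit 0x16e228f1a100) (nat_lit 0x0)
  (PL.C (nat_lit 0xcca446) (nat_lit 0x0) (nat_lit 0x1f0b115e791f00)
  (PL.C (nat_lit 0xcd5c9c) (nat_lit 0xc937f564cc00) (nat_lit 0x0)
  (PL.C (nat_lit 0xcd8128) (nat_lit 0x5c69423d6000) (nat_lit 0x0)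
  (PL.C (nat_lit 0xcdaeb6) (nat_lit 0x0) (nat_lit 0x1470aec33f600)
  (PL.C (nat_lit 0xcdc364) (nat_lit 0x0) (nat_lit 0x1bdbbfc8ddc0)
  (PL.C (nat_lit 0xcdd15b) (nat_lit 0x91a77359a0f40) (nat_lit 0x0)
  (PL.C (nat_lit 0xcddcbb) (nat_lit 0x0) (nat_lit 0x20d45fd218c00)
  (PL.C (nat_lit 0xce81a8) (nat_lit 0x0) (nat_lit 0x165f000f8000)
  (PL.C (nat_lit 0xcedd53) (nat_lit 0x0) (nat_lit 0x7b77b41a5fc00)
  (PL.C (nat_lit 0xcf014d) (nat_lit 0x0) (nat_lit 0x238577367480) lm_90))))))))))))))))))))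

noncomputable def lm_88 : PL :=
  (PL.C (nat_lit 0xc58692) (nat_lit 0x0) (nat_lit 0x858a9ec7c000)
  (PL.C (nat_lit 0xc5da7d) (nat_lit 0x0) (nat_lit 0xc5b178d427c80)
  (PL.C (nat_lit 0xc5e96e) (nat_lit 0xc1540c48ef00) (nat_lit 0x0)
  (PL.C (nat_lit 0xc61263) (nat_lit 0x0) (nat_lit 0x588f0d2f0180)
  (PL.C (nat_lit 0xc63d83) (nat_lit 0xdb18c15c7500) (nat_lit 0x0)
  (PL.C (nat_lit 0xc6534c) (nat_lit 0x0) (nat_lit 0x282ebb44f4280)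
  (PL.C (nat_lit 0xc65d33) (nat_lit 0x1393b072520700) (nat_lit 0x0)
  (PL.C (nat_lit 0xc69f44) (nat_lit 0x2f64aec574380) (nat_lit 0x0)
  (PL.C (nat_lit 0xc6f147) (nat_lit 0xab54b6a0c4c00) (nat_lit 0x0)
  (PL.C (nat_lit 0xc7227c) (nat_lit 0x0) (nat_lit 0xb7f28535fcd40)
  (PL.C (nat_lit 0xc77716) (nat_lit 0x43fe14b1079880) (nat_lit 0x0)
  (PL.C (nat_lit 0xc7e93f) (nat_lit 0x0) (nat_lit 0xbf890ca93300)
  (PL.C (nat_lit 0xc80d2a) (nat_lit 0x0) (nat_lit 0x66b47ad2b8340)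
  (PL.C (nat_lit 0xc86d51) (nat_lit 0xa1b793712180) (nat_lit 0x0)
  (PL.C (nat_lit 0xc8744a) (nat_lit 0x45864f1ed5780) (nat_lit 0x0)
  (PL.C (nat_lit 0xc8f578) (nat_lit 0x0) (nat_lit 0x28b44d436a00)
  (PL.C (nat_lit 0xc94872) (nat_lit 0x3a0db1019200) (nat_lit 0x0)
  (PL.C (nat_lit 0xc9c606) (nat_lit 0x0) (nat_lit 0x4e65c0c02fa00)
  (PL.C (nat_lit 0xc9cfd4) (nat_lit 0x3515902291d00) (nat_lit 0x0)
  (PL.C (nat_lit 0xca1bbf) (nat_lit 0x334c399ac12700) (nat_lit 0x0) lm_89))))))))))))))))))))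

noncomputable def lm_87 : PL :=
  (PL.C (nat_lit 0xc05631) (nat_lit 0x356dfe975d00) (nat_lit 0x0)
  (PL.C (nat_lit 0xc070ec) (nat_lit 0xf55e1402c200) (nat_lit 0x0)
  (PL.C (nat_lit 0xc0c2ae) (nat_lit 0x0) (nat_lit 0x10e25316cb5dc0)
  (PL.C (nat_lit 0xc11832) (nat_lit 0x2aeecc6096280) (nat_lit 0x0)
  (PL.C (nat_lit 0xc174ec) (nat_lit 0x0) (nat_lit 0x506a934103b80)
  (PL.C (nat_lit 0xc18388) (nat_lit 0x0) (nat_lit 0x3d7669f2e000)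
  (PL.C (nat_lit 0xc1ab94) (nat_lit 0x0) (nat_lit 0xfc8c09b8f00)
  (PL.C (nat_lit 0xc1c4cd) (nat_lit 0x596191d214e00) (nat_lit 0x0)
  (PL.C (nat_lit 0xc270cc) (nat_lit 0x0) (nat_lit 0x3aa5a89b5900)
  (PL.C (nat_lit 0xc28584) (nat_lit 0x2647a05189c600) (nat_lit 0x0)
  (PL.C (nat_lit 0xc2c115) (nat_lit 0x0) (nat_lit 0x3450b7bf5e00)
  (PL.C (nat_lit 0xc2d94e) (nat_lit 0x0) (nat_lit 0x15dab305ce6000)
  (PL.C (nat_lit 0xc39b18) (nat_lit 0x0) (nat_lit 0x99ea149db9b00)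
  (PL.C (nat_lit 0xc3c8af) (nat_lit 0x330bd1736cec0) (nat_lit 0x0)
  (PL.C (nat_lit 0xc3d6fe) (nat_lit 0x0) (nat_lit 0x3a0db1019200)
  (PL.C (nat_lit 0xc3f91c) (nat_lit 0x5d661255200) (nat_lit 0x0)
  (PL.C (nat_lit 0xc43902) (nat_lit 0x32f45196b400) (nat_lit 0x0)
  (PL.C (nat_lit 0xc4499c) (nat_lit 0x0) (nat_lit 0x883685ba3300)
  (PL.C (nat_lit 0xc54a28) (nat_lit 0x563b05eb83e00) (nat_lit 0x0)
  (PL.C (nat_lit 0xc56f64) (nat_lit 0x0) (nat_lit 0xd7e8650f1dd00) lm_88))))))))))))))))))))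

noncomputable def lm_86 : PL :=
  (PL.C (nat_lit 0xb98648) (nat_lit 0x0) (nat_lit 0x481894903e00)
  (PL.C (nat_lit 0xb99f5e) (nat_lit 0x0) (nat_lit 0x8b79e624e00)
  (PL.C (nat_lit 0xb9e032) (nat_lit 0x0) (nat_lit 0x87fd29824d680)
  (PL.C (nat_lit 0xbb195e) (nat_lit 0x18ac82993c100) (nat_lit 0x0)
  (PL.C (nat_lit 0xbb3ef6) (nat_lit 0x29444c0ac8500) (nat_lit 0x0)
  (PL.C (nat_lit 0xbb68db) (nat_lit 0x0) (nat_lit 0xfe90d9126e5c0)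
  (PL.C (nat_lit 0xbb8ea4) (nat_lit 0x0) (nat_lit 0x190dfb939f280)
  (PL.C (nat_lit 0xbbbaaa) (nat_lit 0x5b6b691b8700) (nat_lit 0x0)
  (PL.C (nat_lit 0xbc5273) (nat_lit 0x0) (nat_lit 0xe95d8492a1050)
  (PL.C (nat_lit 0xbc97e7) (nat_lit 0x4f5e4b90a2100) (nat_lit 0x0)
  (PL.C (nat_lit 0xbccedd) (nat_lit 0x1f187873a3b100) (nat_lit 0x0)
  (PL.C (nat_lit 0xbd14ba) (nat_lit 0x43fe14b1079880) (nat_lit 0x0)
  (PL.C (nat_lit 0xbd9d4a) (nat_lit 0x0) (nat_lit 0x87fd29824d680)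
  (PL.C (nat_lit 0xbe2e04) (nat_lit 0x0) (nat_lit 0xbb7db17e9100)
  (PL.C (nat_lit 0xbecc74) (nat_lit 0x74860b1f8a00) (nat_lit 0x0)
  (PL.C (nat_lit 0xbed967) (nat_lit 0x6155786e9700c0) (nat_lit 0x0)
  (PL.C (nat_lit 0xbf45d2) (nat_lit 0xe2c79ad7fba0) (nat_lit 0x0)
  (PL.C (nat_lit 0xbf6ee4) (nat_lit 0x611668eeb080) (nat_lit 0x0)
  (PL.C (nat_lit 0xbfdcb8) (nat_lit 0x0) (nat_lit 0x77286fbe000)
  (PL.C (nat_lit 0xc045f3) (nat_lit 0xc96f9168c3b80) (nat_lit 0x0) lm_87))))))))))))))))))))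

noncomputable def lm_85 : PL :=
  (PL.C (nat_lit 0xb49e02) (nat_lit 0x99880d0ecbec0) (nat_lit 0x0)
  (PL.C (nat_lit 0xb4fc18) (nat_lit 0x81962ff58100) (nat_lit 0x0)
  (PL.C (nat_lit 0xb540b4) (nat_lit 0xf637c8c2fc80) (nat_lit 0x0)
  (PL.C (nat_lit 0xb548fc) (nat_lit 0x0) (nat_lit 0x66417d17b8b00)
  (PL.C (nat_lit 0xb56c89) (nat_lit 0x5549fb73f8580) (nat_lit 0x0)
  (PL.C (nat_lit 0xb58b8b) (nat_lit 0x0) (nat_lit 0x68553306ea00)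
  (PL.C (nat_lit 0xb5da38) (nat_lit 0xa1b4bdeb000) (nat_lit 0x0)
  (PL.C (nat_lit 0xb68929) (nat_lit 0x0) (nat_lit 0x20df9164f78500)
  (PL.C (nat_lit 0xb73eb4) (nat_lit 0x32c805e2cc3c0) (nat_lit 0x0)
  (PL.C (nat_lit 0xb76156) (nat_lit 0x0) (nat_lit 0x149c6383f8d80)
  (PL.C (nat_lit 0xb776d1) (nat_lit 0xc96f9168c3b80) (nat_lit 0x0)
  (PL.C (nat_lit 0xb7da18) (nat_lit 0x0) (nat_lit 0x28b44d436a00)
  (PL.C (nat_lit 0xb7e346) (nat_lit 0x2056d87d3300) (nat_lit 0x0)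
  (PL.C (nat_lit 0xb817b8) (nat_lit 0x0) (nat_lit 0x50740e51180)
  (PL.C (nat_lit 0xb86704) (nat_lit 0x1a82ff03d5800) (nat_lit 0x0)
  (PL.C (nat_lit 0xb86f23) (nat_lit 0x0) (nat_lit 0x583b2216229e00)
  (PL.C (nat_lit 0xb919ae) (nat_lit 0x0) (nat_lit 0x173630da782c80)
  (PL.C (nat_lit 0xb96698) (nat_lit 0x0) (nat_lit 0x56f8c75101c80)
  (PL.C (nat_lit 0xb97652) (nat_lit 0x0) (nat_lit 0x769557ff487c0)
  (PL.C (nat_lit 0xb98092) (nat_lit 0x18ac82993c100) (nat_lit 0x0) lm_86))))))))))))))))))))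

noncomputable def lm_84 : PL :=
  (PL.C (nat_lit 0xaf5462) (nat_lit 0x0) (nat_lit 0x244f25bc9e9f80)
  (PL.C (nat_lit 0xafa2d8) (nat_lit 0x165f000f8000) (nat_lit 0x0)
  (PL.C (nat_lit 0xafaa81) (nat_lit 0x0) (nat_lit 0xb4ea312e8800)
  (PL.C (nat_lit 0xafb7fc) (nat_lit 0x0) (nat_lit 0x9b599c731b80)
  (PL.C (nat_lit 0xafc6d4) (nat_lit 0x4e1f102b8400) (nat_lit 0x0)
  (PL.C (nat_lit 0xafedcb) (nat_lit 0x0) (nat_lit 0x3fd3ace2e400)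
  (PL.C (nat_lit 0xb06205) (nat_lit 0x0) (nat_lit 0x238577367480)
  (PL.C (nat_lit 0xb0f823) (nat_lit 0x0) (nat_lit 0xc90bd7f7bb40)
  (PL.C (nat_lit 0xb177f4) (nat_lit 0x1a82ff03d5800) (nat_lit 0x0)
  (PL.C (nat_lit 0xb1c13b) (nat_lit 0xb7dde78db800) (nat_lit 0x0)
  (PL.C (nat_lit 0xb1e898) (nat_lit 0x81962ff58100) (nat_lit 0x0)
  (PL.C (nat_lit 0xb1f3a5) (nat_lit 0x49eaedc0a400) (nat_lit 0x0)
  (PL.C (nat_lit 0xb27abc) (nat_lit 0x6075f8903a9300) (nat_lit 0x0)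
  (PL.C (nat_lit 0xb2bee2) (nat_lit 0x5c5d53889d400) (nat_lit 0x0)
  (PL.C (nat_lit 0xb3631c) (nat_lit 0x0) (nat_lit 0x7d38477315480)
  (PL.C (nat_lit 0xb370a8) (nat_lit 0x34b11a0ad0200) (nat_lit 0x0)
  (PL.C (nat_lit 0xb3a0ba) (nat_lit 0x1e1929508b00) (nat_lit 0x0)
  (PL.C (nat_lit 0xb3b659) (nat_lit 0x0) (nat_lit 0x192ce19663e80)
  (PL.C (nat_lit 0xb3bce4) (nat_lit 0x0) (nat_lit 0xa0f5ec4d3cd40)
  (PL.C (nat_lit 0xb3cd28) (nat_lit 0xa1b4bdeb000) (nat_lit 0x0) lm_85))))))))))))))))))))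

noncomputable def lm_83 : PL :=
  (PL.C (nat_lit 0xa9cd82) (nat_lit 0xa3f7519c6e80) (nat_lit 0x0)
  (PL.C (nat_lit 0xa9eb04) (nat_lit 0x1b816aa9d02a40) (nat_lit 0x0)
  (PL.C (nat_lit 0xaa1342) (nat_lit 0x0) (nat_lit 0x32f45196b400)
  (PL.C (nat_lit 0xaa227e) (nat_lit 0x729b000a9f5c0) (nat_lit 0x0)
  (PL.C (nat_lit 0xaa839e) (nat_lit 0x0) (nat_lit 0x3b0b65f4b900)
  (PL.C (nat_lit 0xab054f) (nat_lit 0x0) (nat_lit 0x145efae128fd80)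
  (PL.C (nat_lit 0xab2f9c) (nat_lit 0x2c20b69a4e3c0) (nat_lit 0x0)
  (PL.C (nat_lit 0xabf95a) (nat_lit 0x0) (nat_lit 0x8407f2d3bc000)
  (PL.C (nat_lit 0xac04f4) (nat_lit 0x0) (nat_lit 0x1ffa7b5b54600)
  (PL.C (nat_lit 0xac4bfb) (nat_lit 0x0) (nat_lit 0x3450b7bf5e00)
  (PL.C (nat_lit 0xac5b0c) (nat_lit 0x0) (nat_lit 0x288b730bf280)
  (PL.C (nat_lit 0xacbfde) (nat_lit 0x0) (nat_lit 0x31deb2b193f980)
  (PL.C (nat_lit 0xad020a) (nat_lit 0x0) (nat_lit 0x6c9fa6e748180)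
  (PL.C (nat_lit 0xad0862) (nat_lit 0x0) (nat_lit 0x5b6b691b8700)
  (PL.C (nat_lit 0xad7456) (nat_lit 0x0) (nat_lit 0x1779861209dd40)
  (PL.C (nat_lit 0xadbb96) (nat_lit 0x0) (nat_lit 0x19f20e690a680)
  (PL.C (nat_lit 0xadbe07) (nat_lit 0x91a77359a0f40) (nat_lit 0x0)
  (PL.C (nat_lit 0xadff4c) (nat_lit 0xb73a8ad63400) (nat_lit 0x0)
  (PL.C (nat_lit 0xae8bca) (nat_lit 0x1137f03566a80) (nat_lit 0x0)
  (PL.C (nat_lit 0xaee0a3) (nat_lit 0x0) (nat_lit 0x5f5e005e8900) lm_84))))))))))))))))))))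

noncomputable def lm_82 : PL :=
  (PL.C (nat_lit 0xa3baa4) (nat_lit 0x0) (nat_lit 0x1b01cab6776800)
  (PL.C (nat_lit 0xa3c839) (nat_lit 0x492886422000) (nat_lit 0x0)
  (PL.C (nat_lit 0xa3e026) (nat_lit 0x0) (nat_lit 0xce6d91421c100)
  (PL.C (nat_lit 0xa4db28) (nat_lit 0x0) (nat_lit 0x81962ff58100)
  (PL.C (nat_lit 0xa545ab) (nat_lit 0x330bd1736cec0) (nat_lit 0x0)
  (PL.C (nat_lit 0xa5499b) (nat_lit 0x280ec76f7e500) (nat_lit 0x0)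
  (PL.C (nat_lit 0xa56e8c) (nat_lit 0x1066e8c095e00) (nat_lit 0x0)
  (PL.C (nat_lit 0xa5cdb4) (nat_lit 0x30580c5a582c0) (nat_lit 0x0)
  (PL.C (nat_lit 0xa5de7e) (nat_lit 0xd58dd8db9c00) (nat_lit 0x0)
  (PL.C (nat_lit 0xa63182) (nat_lit 0x23e3b17f7a700) (nat_lit 0x0)
  (PL.C (nat_lit 0xa64bb8) (nat_lit 0x77286fbe000) (nat_lit 0x0)
  (PL.C (nat_lit 0xa69062) (nat_lit 0x3a0db1019200) (nat_lit 0x0)
  (PL.C (nat_lit 0xa73864) (nat_lit 0xcd23e7c2aaa00) (nat_lit 0x0)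
  (PL.C (nat_lit 0xa7733f) (nat_lit 0x113f9742fe900) (nat_lit 0x0)
  (PL.C (nat_lit 0xa936f2) (nat_lit 0x0) (nat_lit 0x25d8baa3b6d80)
  (PL.C (nat_lit 0xa942ad) (nat_lit 0xe7c27d0913840) (nat_lit 0x0)
  (PL.C (nat_lit 0xa95d9e) (nat_lit 0x0) (nat_lit 0x221b332f76d00)
  (PL.C (nat_lit 0xa96faa) (nat_lit 0x0) (nat_lit 0x2b6b8c787eaf40)
  (PL.C (nat_lit 0xa9b262) (nat_lit 0x56a2ae198a00) (nat_lit 0x0)
  (PL.C (nat_lit 0xa9c508) (nat_lit 0x0) (nat_lit 0xc8ad908f0f00) lm_83))))))))))))))))))))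

noncomputable def lm_81 : PL :=
  (PL.C (nat_lit 0x9ec10c) (nat_lit 0x265b596301200) (nat_lit 0x0)
  (PL.C (nat_lit 0x9ee43d) (nat_lit 0x3ae53a7a9d600) (nat_lit 0x0)
  (PL.C (nat_lit 0x9f33c3) (nat_lit 0x148b4f1ca900) (nat_lit 0x0)
  (PL.C (nat_lit 0x9f5ef0) (nat_lit 0xb49b893f3700) (nat_lit 0x0)
  (PL.C (nat_lit 0x9f7782) (nat_lit 0x0) (nat_lit 0x1a276b956e900)
  (PL.C (nat_lit 0x9f8244) (nat_lit 0x4bff84e026100) (nat_lit 0x0)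
  (PL.C (nat_lit 0x9f9d22) (nat_lit 0x0) (nat_lit 0xadd4bc7101440)
  (PL.C (nat_lit 0xa0247c) (nat_lit 0x8c9a569e7f00) (nat_lit 0x0)
  (PL.C (nat_lit 0xa02f96) (nat_lit 0x0) (nat_lit 0x8172e7b9eac00)
  (PL.C (nat_lit 0xa06cf2) (nat_lit 0xb49b16f4de480) (nat_lit 0x0)
  (PL.C (nat_lit 0xa0d6ee) (nat_lit 0x0) (nat_lit 0x12eda28946240)
  (PL.C (nat_lit 0xa11b43) (nat_lit 0x20a854b62ad2c0) (nat_lit 0x0)
  (PL.C (nat_lit 0xa19974) (nat_lit 0x1e717e522852c0) (nat_lit 0x0)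
  (PL.C (nat_lit 0xa24eff) (nat_lit 0x0) (nat_lit 0x102ed6594f0380)
  (PL.C (nat_lit 0xa2501c) (nat_lit 0x1dffef72f3500) (nat_lit 0x0)
  (PL.C (nat_lit 0xa25cb5) (nat_lit 0x356dfe975d00) (nat_lit 0x0)
  (PL.C (nat_lit 0xa29321) (nat_lit 0x238577367480) (nat_lit 0x0)
  (PL.C (nat_lit 0xa2f06c) (nat_lit 0x0) (nat_lit 0x2ac2a817f7880)
  (PL.C (nat_lit 0xa3007a) (nat_lit 0x0) (nat_lit 0x25c3a0d9e5480)
  (PL.C (nat_lit 0xa37ce4) (nat_lit 0x0) (nat_lit 0x79d4356adf00) lm_82))))))))))))))))))))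

noncomputable def lm_80 : PL :=
  (PL.C (nat_lit 0x9a4168) (nat_lit 0x16c0f23b89800) (nat_lit 0x0)
  (PL.C (nat_lit 0x9a7d51) (nat_lit 0x0) (nat_lit 0x7b77b41a5fc00)
  (PL.C (nat_lit 0x9acd2e) (nat_lit 0xd58dd8db9c00) (nat_lit 0x0)
  (PL.C (nat_lit 0x9af378) (nat_lit 0x0) (nat_lit 0x1748adfd9000)
  (PL.C (nat_lit 0x9b087a) (nat_lit 0x0) (nat_lit 0xa878566bef00)
  (PL.C (nat_lit 0x9b3ade) (nat_lit 0x7178bae05c00) (nat_lit 0x0)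
  (PL.C (nat_lit 0x9b6ee6) (nat_lit 0x26a7f8c16da00) (nat_lit 0x0)
  (PL.C (nat_lit 0x9b9558) (nat_lit 0x5c69423d6000) (nat_lit 0x0)
  (PL.C (nat_lit 0x9baa14) (nat_lit 0x197e6ecd93200) (nat_lit 0x0)
  (PL.C (nat_lit 0x9bb0ef) (nat_lit 0x36c3b1628f080) (nat_lit 0x0)
  (PL.C (nat_lit 0x9bf601) (nat_lit 0x0) (nat_lit 0x99f1d6fef080)
  (PL.C (nat_lit 0x9c40e6) (nat_lit 0x0) (nat_lit 0x31deb2b193f980)
  (PL.C (nat_lit 0x9c8f1a) (nat_lit 0x154aac511e9e40) (nat_lit 0x0)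
  (PL.C (nat_lit 0x9ce87a) (nat_lit 0xa7fdbcaaa3400) (nat_lit 0x0)
  (PL.C (nat_lit 0x9d0c56) (nat_lit 0x0) (nat_lit 0x1301b02af3e00)
  (PL.C (nat_lit 0x9d1d12) (nat_lit 0x355601b349440) (nat_lit 0x0)
  (PL.C (nat_lit 0x9d60bf) (nat_lit 0x113f9742fe900) (nat_lit 0x0)
  (PL.C (nat_lit 0x9d8488) (nat_lit 0x55e45962ed80) (nat_lit 0x0)
  (PL.C (nat_lit 0x9e5dfe) (nat_lit 0x0) (nat_lit 0x1620b9ba6e8c0)
  (PL.C (nat_lit 0x9eb3a4) (nat_lit 0x0) (nat_lit 0x7d38477315480) lm_81))))))))))))))))))))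

noncomputable def lm_79 : PL :=
  (PL.C (nat_lit 0x95d8c4) (nat_lit 0x0) (nat_lit 0x15b9878bef600)
  (PL.C (nat_lit 0x95ed07) (nat_lit 0x0) (nat_lit 0x185311f1a000)
  (PL.C (nat_lit 0x95f781) (nat_lit 0x3f95e101efbc0) (nat_lit 0x0)
  (PL.C (nat_lit 0x963178) (nat_lit 0x19a4b910aa00) (nat_lit 0x0)
  (PL.C (nat_lit 0x96811b) (nat_lit 0x506b5cd6c9d80) (nat_lit 0x0)
  (PL.C (nat_lit 0x96ae98) (nat_lit 0x0) (nat_lit 0x461d6a7bd400)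
  (PL.C (nat_lit 0x96b8d2) (nat_lit 0x1a2818565302e0) (nat_lit 0x0)
  (PL.C (nat_lit 0x971b34) (nat_lit 0x21076e6e25800) (nat_lit 0x0)
  (PL.C (nat_lit 0x973cb3) (nat_lit 0x312130841bb00) (nat_lit 0x0)
  (PL.C (nat_lit 0x975c88) (nat_lit 0xb2f99f64cc00) (nat_lit 0x0)
  (PL.C (nat_lit 0x97a09d) (nat_lit 0xc39a28fc400) (nat_lit 0x0)
  (PL.C (nat_lit 0x97c7c8) (nat_lit 0x14053befc000) (nat_lit 0x0)
  (PL.C (nat_lit 0x97d51a) (nat_lit 0x21448aa74a00) (nat_lit 0x0)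
  (PL.C (nat_lit 0x97faa8) (nat_lit 0x0) (nat_lit 0x425906541400)
  (PL.C (nat_lit 0x99266d) (nat_lit 0x1782a53a6d280) (nat_lit 0x0)
  (PL.C (nat_lit 0x996bd8) (nat_lit 0x0) (nat_lit 0x56f8c75101c80)
  (PL.C (nat_lit 0x998ee8) (nat_lit 0x1d691d386a00) (nat_lit 0x0)
  (PL.C (nat_lit 0x999b52) (nat_lit 0x0) (nat_lit 0x1301b02af3e00)
  (PL.C (nat_lit 0x9a1b4a) (nat_lit 0x26a7f8c16da00) (nat_lit 0x0)
  (PL.C (nat_lit 0x9a3398) (nat_lit 0x0) (nat_lit 0x81962ff58100) lm_80))))))))))))))))))))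

noncomputable def lm_78 : PL :=
  (PL.C (nat_lit 0x917f22) (nat_lit 0x0) (nat_lit 0x199b76ee7bb00)
  (PL.C (nat_lit 0x9195fc) (nat_lit 0xf3a746eb4600) (nat_lit 0x0)
  (PL.C (nat_lit 0x91a7da) (nat_lit 0xc6f48cd2835c0) (nat_lit 0x0)
  (PL.C (nat_lit 0x91d3d6) (nat_lit 0x0) (nat_lit 0x173630da782c80)
  (PL.C (nat_lit 0x920bb2) (nat_lit 0x0) (nat_lit 0x10a11a0f95800)
  (PL.C (nat_lit 0x9211e4) (nat_lit 0x75a00b01c11c0) (nat_lit 0x0)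
  (PL.C (nat_lit 0x926c2e) (nat_lit 0x0) (nat_lit 0x8407f2d3bc000)
  (PL.C (nat_lit 0x92a25c) (nat_lit 0x0) (nat_lit 0x53a29d56ecd80)
  (PL.C (nat_lit 0x92aa63) (nat_lit 0x0) (nat_lit 0x2059643a55ace0)
  (PL.C (nat_lit 0x92cf43) (nat_lit 0x72e064520e600) (nat_lit 0x0)
  (PL.C (nat_lit 0x92e17c) (nat_lit 0x8d09a532500) (nat_lit 0x0)
  (PL.C (nat_lit 0x9318bd) (nat_lit 0x0) (nat_lit 0x67c24029f38c0)
  (PL.C (nat_lit 0x93e054) (nat_lit 0x6beec22699500) (nat_lit 0x0)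
  (PL.C (nat_lit 0x94016a) (nat_lit 0xc92b52bdc65c0) (nat_lit 0x0)
  (PL.C (nat_lit 0x941d63) (nat_lit 0x0) (nat_lit 0x154f60dd3f00)
  (PL.C (nat_lit 0x947558) (nat_lit 0x0) (nat_lit 0x481894903e00)
  (PL.C (nat_lit 0x947eec) (nat_lit 0x1dffef72f3500) (nat_lit 0x0)
  (PL.C (nat_lit 0x951c26) (nat_lit 0x0) (nat_lit 0xd80fb725abe90)
  (PL.C (nat_lit 0x955966) (nat_lit 0x0) (nat_lit 0x131867020b100)
  (PL.C (nat_lit 0x95bf2c) (nat_lit 0x87cd2bf04cb00) (nat_lit 0x0) lm_79))))))))))))))))))))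

noncomputable def lm_77 : PL :=
  (PL.C (nat_lit 0x8cca42) (nat_lit 0xc82dc78a5800) (nat_lit 0x0)
  (PL.C (nat_lit 0x8cccc4) (nat_lit 0x0) (nat_lit 0x41b5ac184e00)
  (PL.C (nat_lit 0x8d06e7) (nat_lit 0xb7dde78db800) (nat_lit 0x0)
  (PL.C (nat_lit 0x8d28f4) (nat_lit 0x0) (nat_lit 0x15181da84b7740)
  (PL.C (nat_lit 0x8db7e8) (nat_lit 0x0) (nat_lit 0x5c69423d6000)
  (PL.C (nat_lit 0x8ed218) (nat_lit 0x1748adfd9000) (nat_lit 0x0)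
  (PL.C (nat_lit 0x8ef896) (nat_lit 0x0) (nat_lit 0x530785a22300)
  (PL.C (nat_lit 0x8f07d2) (nat_lit 0x0) (nat_lit 0x1ecdd8cc09ccc0)
  (PL.C (nat_lit 0x8f570a) (nat_lit 0x4aedcb33e7680) (nat_lit 0x0)
  (PL.C (nat_lit 0x8f8c14) (nat_lit 0x0) (nat_lit 0x282ebb44f4280)
  (PL.C (nat_lit 0x8fb809) (nat_lit 0x0) (nat_lit 0xb4ea312e8800)
  (PL.C (nat_lit 0x8fd3ec) (nat_lit 0x56eacb01ecc80) (nat_lit 0x0)
  (PL.C (nat_lit 0x8ffff7) (nat_lit 0x1834ad645600) (nat_lit 0x0)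
  (PL.C (nat_lit 0x90280e) (nat_lit 0x0) (nat_lit 0x55ed2276f41380)
  (PL.C (nat_lit 0x90543e) (nat_lit 0x0) (nat_lit 0x56a2ae198a00)
  (PL.C (nat_lit 0x9057e4) (nat_lit 0x1cd2397429800) (nat_lit 0x0)
  (PL.C (nat_lit 0x905f19) (nat_lit 0x657b536d1300) (nat_lit 0x0)
  (PL.C (nat_lit 0x90e3be) (nat_lit 0x0) (nat_lit 0x1e28e5425ee200)
  (PL.C (nat_lit 0x912c42) (nat_lit 0x0) (nat_lit 0x1779861209dd40)
  (PL.C (nat_lit 0x9173d8) (nat_lit 0x0) (nat_lit 0x84e5c6a934780) lm_78))))))))))))))))))))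

noncomputable def lm_76 : PL :=
  (PL.C (nat_lit 0x886d84) (nat_lit 0x0) (nat_lit 0x98ef53baaaa00)
  (PL.C (nat_lit 0x88ac61) (nat_lit 0x0) (nat_lit 0x3c9d2ca0e9380)
  (PL.C (nat_lit 0x88e868) (nat_lit 0xb2f99f64cc00) (nat_lit 0x0)
  (PL.C (nat_lit 0x891f24) (nat_lit 0xe7be3c48f200) (nat_lit 0x0)
  (PL.C (nat_lit 0x893dd2) (nat_lit 0x0) (nat_lit 0xc41e0ded7bc40)
  (PL.C (nat_lit 0x8992a7) (nat_lit 0x0) (nat_lit 0x65f006133b00)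
  (PL.C (nat_lit 0x89e8e2) (nat_lit 0x7f5d8d8b53d40) (nat_lit 0x0)
  (PL.C (nat_lit 0x8a00de) (nat_lit 0x0) (nat_lit 0x3b0b65f4b900)
  (PL.C (nat_lit 0x8a43fe) (nat_lit 0x0) (nat_lit 0x1c85346b8fd40)
  (PL.C (nat_lit 0x8b0f65) (nat_lit 0x0) (nat_lit 0x20d45fd218c00)
  (PL.C (nat_lit 0x8b8747) (nat_lit 0x2e58c5b0dda700) (nat_lit 0x0)
  (PL.C (nat_lit 0x8b883c) (nat_lit 0x0) (nat_lit 0x424fd1beec00)
  (PL.C (nat_lit 0x8bc1d9) (nat_lit 0x0) (nat_lit 0xc39a28fc400)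
  (PL.C (nat_lit 0x8c04f6) (nat_lit 0x0) (nat_lit 0x149c6383f8d80)
  (PL.C (nat_lit 0x8c120c) (nat_lit 0x48864a6b9e500) (nat_lit 0x0)
  (PL.C (nat_lit 0x8c2798) (nat_lit 0xcec614a56c80) (nat_lit 0x0)
  (PL.C (nat_lit 0x8c4b0a) (nat_lit 0x85c25fab9d00) (nat_lit 0x0)
  (PL.C (nat_lit 0x8c9038) (nat_lit 0x0) (nat_lit 0x50740e51180)
  (PL.C (nat_lit 0x8cb236) (nat_lit 0x0) (nat_lit 0x199b76ee7bb00)
  (PL.C (nat_lit 0x8cbde8) (nat_lit 0x1b7456e328e00) (nat_lit 0x0) lm_77))))))))))))))))))))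

noncomputable def lm_75 : PL :=
  (PL.C (nat_lit 0x84d9fb) (nat_lit 0x1393b072520700) (nat_lit 0x0)
  (PL.C (nat_lit 0x85462a) (nat_lit 0x1137f03566a80) (nat_lit 0x0)
  (PL.C (nat_lit 0x855e1c) (nat_lit 0x0) (nat_lit 0xb7f28535fcd40)
  (PL.C (nat_lit 0x8586f3) (nat_lit 0x0) (nat_lit 0x238577367480)
  (PL.C (nat_lit 0x859e36) (nat_lit 0x3508248686640) (nat_lit 0x0)
  (PL.C (nat_lit 0x85a2dc) (nat_lit 0x3515902291d00) (nat_lit 0x0)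
  (PL.C (nat_lit 0x86304c) (nat_lit 0x0) (nat_lit 0xf3a746eb4600)
  (PL.C (nat_lit 0x868404) (nat_lit 0x0) (nat_lit 0xd7e8650f1dd00)
  (PL.C (nat_lit 0x86ad35) (nat_lit 0x0) (nat_lit 0x5f5e005e8900)
  (PL.C (nat_lit 0x86bd2a) (nat_lit 0x0) (nat_lit 0x470ee6ba2505c0)
  (PL.C (nat_lit 0x86efc8) (nat_lit 0x1b7456e328e00) (nat_lit 0x0)
  (PL.C (nat_lit 0x871002) (nat_lit 0x0) (nat_lit 0x14158c4444a800)
  (PL.C (nat_lit 0x872f6c) (nat_lit 0x0) (nat_lit 0x9f25f763d00)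
  (PL.C (nat_lit 0x875cbc) (nat_lit 0xf637c8c2fc80) (nat_lit 0x0)
  (PL.C (nat_lit 0x877197) (nat_lit 0xe7c27d0913840) (nat_lit 0x0)
  (PL.C (nat_lit 0x87e472) (nat_lit 0x0) (nat_lit 0x8b79e624e00)
  (PL.C (nat_lit 0x87f84c) (nat_lit 0x1b816aa9d02a40) (nat_lit 0x0)
  (PL.C (nat_lit 0x8821ef) (nat_lit 0x506b5cd6c9d80) (nat_lit 0x0)
  (PL.C (nat_lit 0x886611) (nat_lit 0x0) (nat_lit 0xaea5698f5d00)
  (PL.C (nat_lit 0x886a44) (nat_lit 0x611668eeb080) (nat_lit 0x0) lm_76))))))))))))))))))))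

noncomputable def lm_74 : PL :=
  (PL.C (nat_lit 0x812dde) (nat_lit 0x14ff17a9ba5200) (nat_lit 0x0)
  (PL.C (nat_lit 0x816183) (nat_lit 0x6493250207200) (nat_lit 0x0)
  (PL.C (nat_lit 0x81a088) (nat_lit 0x19a4b910aa00) (nat_lit 0x0)
  (PL.C (nat_lit 0x81ae58) (nat_lit 0xedfe7188d1600) (nat_lit 0x0)
  (PL.C (nat_lit 0x81d60e) (nat_lit 0x0) (nat_lit 0x4b7cedc62e00)
  (PL.C (nat_lit 0x81e634) (nat_lit 0x0) (nat_lit 0x1b01cab6776800)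
  (PL.C (nat_lit 0x8285ca) (nat_lit 0x20ad5727c8400) (nat_lit 0x0)
  (PL.C (nat_lit 0x828f54) (nat_lit 0xf3a746eb4600) (nat_lit 0x0)
  (PL.C (nat_lit 0x82d0ac) (nat_lit 0x4e1f102b8400) (nat_lit 0x0)
  (PL.C (nat_lit 0x839f98) (nat_lit 0x38f8fc83a2100) (nat_lit 0x0)
  (PL.C (nat_lit 0x83a7c5) (nat_lit 0x18bde8d16e880) (nat_lit 0x0)
  (PL.C (nat_lit 0x83af0c) (nat_lit 0x1cd2397429800) (nat_lit 0x0)
  (PL.C (nat_lit 0x83e6fe) (nat_lit 0x0) (nat_lit 0x1f0b115e791f00)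
  (PL.C (nat_lit 0x83f0f4) (nat_lit 0x120015519c900) (nat_lit 0x0)
  (PL.C (nat_lit 0x840c42) (nat_lit 0x0) (nat_lit 0x1fe4f457e8e40)
  (PL.C (nat_lit 0x842902) (nat_lit 0x4a983cdc39700) (nat_lit 0x0)
  (PL.C (nat_lit 0x843788) (nat_lit 0x0) (nat_lit 0x3aea920753c00)
  (PL.C (nat_lit 0x843e22) (nat_lit 0x10e472c19d32c0) (nat_lit 0x0)
  (PL.C (nat_lit 0x84a0da) (nat_lit 0x355601b349440) (nat_lit 0x0)
  (PL.C (nat_lit 0x84c1a8) (nat_lit 0x0) (nat_lit 0x7fa012562f480) lm_75))))))))))))))))))))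

noncomputable def lm_73 : PL :=
  (PL.C (nat_lit 0x7cd4a4) (nat_lit 0x6beec22699500) (nat_lit 0x0)
  (PL.C (nat_lit 0x7cf092) (nat_lit 0x0) (nat_lit 0x244f25bc9e9f80)
  (PL.C (nat_lit 0x7d082f) (nat_lit 0x504021189c300) (nat_lit 0x0)
  (PL.C (nat_lit 0x7d271c) (nat_lit 0x83c334c2c100) (nat_lit 0x0)
  (PL.C (nat_lit 0x7d60c7) (nat_lit 0x49eaedc0a400) (nat_lit 0x0)
  (PL.C (nat_lit 0x7dba9a) (nat_lit 0x4aedcb33e7680) (nat_lit 0x0)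
  (PL.C (nat_lit 0x7ddf3e) (nat_lit 0xa28f9b3b948f0) (nat_lit 0x0)
  (PL.C (nat_lit 0x7e346b) (nat_lit 0x19f95d581d1c80) (nat_lit 0x0)
  (PL.C (nat_lit 0x7e68dc) (nat_lit 0x0) (nat_lit 0xd95e811ae2800)
  (PL.C (nat_lit 0x7e7395) (nat_lit 0x1f187873a3b100) (nat_lit 0x0)
  (PL.C (nat_lit 0x7ebbc5) (nat_lit 0x1782a53a6d280) (nat_lit 0x0)
  (PL.C (nat_lit 0x7ec958) (nat_lit 0x1d691d386a00) (nat_lit 0x0)
  (PL.C (nat_lit 0x7f32f8) (nat_lit 0x0) (nat_lit 0x425906541400)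
  (PL.C (nat_lit 0x7f3b9a) (nat_lit 0x0) (nat_lit 0x1a0b5bff55d950)
  (PL.C (nat_lit 0x802ea2) (nat_lit 0xfba339a163180) (nat_lit 0x0)
  (PL.C (nat_lit 0x803976) (nat_lit 0x52b0969c7e00) (nat_lit 0x0)
  (PL.C (nat_lit 0x804b48) (nat_lit 0x0) (nat_lit 0x461d6a7bd400)
  (PL.C (nat_lit 0x80bacc) (nat_lit 0x0) (nat_lit 0xe96386e5c80)
  (PL.C (nat_lit 0x80eb39) (nat_lit 0x20a854b62ad2c0) (nat_lit 0x0)
  (PL.C (nat_lit 0x80f259) (nat_lit 0x522e0fdd1b900) (nat_lit 0x0) lm_74))))))))))))))))))))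

noncomputable def lm_72 : PL :=
  (PL.C (nat_lit 0x77cee6) (nat_lit 0x0) (nat_lit 0x92796854a1b80)
  (PL.C (nat_lit 0x787f2b) (nat_lit 0x9394eb4af1000) (nat_lit 0x0)
  (PL.C (nat_lit 0x78a810) (nat_lit 0x57373b2e5d00) (nat_lit 0x0)
  (PL.C (nat_lit 0x78f306) (nat_lit 0x97cfacfe20400) (nat_lit 0x0)
  (PL.C (nat_lit 0x7907b2) (nat_lit 0x0) (nat_lit 0x1d56aa6e63100)
  (PL.C (nat_lit 0x79b0c6) (nat_lit 0x0) (nat_lit 0x55ed2276f41380)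
  (PL.C (nat_lit 0x79df3d) (nat_lit 0x657b536d1300) (nat_lit 0x0)
  (PL.C (nat_lit 0x7a40e4) (nat_lit 0x1904600f50a00) (nat_lit 0x0)
  (PL.C (nat_lit 0x7a4f36) (nat_lit 0xfba339a163180) (nat_lit 0x0)
  (PL.C (nat_lit 0x7a7939) (nat_lit 0x0) (nat_lit 0x1834ad645600)
  (PL.C (nat_lit 0x7a9784) (nat_lit 0x8d09a532500) (nat_lit 0x0)
  (PL.C (nat_lit 0x7aef58) (nat_lit 0x2c0b60773700) (nat_lit 0x0)
  (PL.C (nat_lit 0x7af4c2) (nat_lit 0x8949865cfec80) (nat_lit 0x0)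
  (PL.C (nat_lit 0x7b3087) (nat_lit 0x0) (nat_lit 0x36e4961cef100)
  (PL.C (nat_lit 0x7b6674) (nat_lit 0x43c22a044ba80) (nat_lit 0x0)
  (PL.C (nat_lit 0x7bab0c) (nat_lit 0x70dad7b4c5d00) (nat_lit 0x0)
  (PL.C (nat_lit 0x7bbf94) (nat_lit 0x0) (nat_lit 0xd157b49fa00)
  (PL.C (nat_lit 0x7beacc) (nat_lit 0x0) (nat_lit 0xd95e811ae2800)
  (PL.C (nat_lit 0x7c4001) (nat_lit 0x0) (nat_lit 0x36e4961cef100)
  (PL.C (nat_lit 0x7cbb94) (nat_lit 0x70dad7b4c5d00) (nat_lit 0x0) lm_73))))))))))))))))))))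

noncomputable def lm_71 : PL :=
  (PL.C (nat_lit 0x7506b7) (nat_lit 0x0) (nat_lit 0x7af4c605d580)
  (PL.C (nat_lit 0x751c56) (nat_lit 0x0) (nat_lit 0xe239dd063200)
  (PL.C (nat_lit 0x752f38) (nat_lit 0x5c69423d6000) (nat_lit 0x0)
  (PL.C (nat_lit 0x754149) (nat_lit 0x0) (nat_lit 0x4d2133c5de280)
  (PL.C (nat_lit 0x754932) (nat_lit 0x0) (nat_lit 0x1470aec33f600)
  (PL.C (nat_lit 0x758439) (nat_lit 0x46dcff583400) (nat_lit 0x0)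
  (PL.C (nat_lit 0x7596ae) (nat_lit 0x0) (nat_lit 0x3b0b65f4b900)
  (PL.C (nat_lit 0x75c8a3) (nat_lit 0x19f95d581d1c80) (nat_lit 0x0)
  (PL.C (nat_lit 0x75f5c1) (nat_lit 0x870fd71692c00) (nat_lit 0x0)
  (PL.C (nat_lit 0x75fac2) (nat_lit 0x5acc4e0985380) (nat_lit 0x0)
  (PL.C (nat_lit 0x7643af) (nat_lit 0x0) (nat_lit 0x4d2133c5de280)
  (PL.C (nat_lit 0x764ff8) (nat_lit 0x2c0b60773700) (nat_lit 0x0)
  (PL.C (nat_lit 0x7680d2) (nat_lit 0xd9823ea3e400) (nat_lit 0x0)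
  (PL.C (nat_lit 0x769b10) (nat_lit 0x57373b2e5d00) (nat_lit 0x0)
  (PL.C (nat_lit 0x76a26e) (nat_lit 0x734d3084b700) (nat_lit 0x0)
  (PL.C (nat_lit 0x7729ec) (nat_lit 0xf9d0dc8094c00) (nat_lit 0x0)
  (PL.C (nat_lit 0x778afd) (nat_lit 0x0) (nat_lit 0xe740a343eefc0)
  (PL.C (nat_lit 0x779768) (nat_lit 0x0) (nat_lit 0x6e77784bff100)
  (PL.C (nat_lit 0x77a070) (nat_lit 0x277f82e261600) (nat_lit 0x0)
  (PL.C (nat_lit 0x77c07c) (nat_lit 0x41b5ac184e00) (nat_lit 0x0) lm_72))))))))))))))))))))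

noncomputable def lm_70 : PL :=
  (PL.C (nat_lit 0x716c54) (nat_lit 0x905656e00c580) (nat_lit 0x0)
  (PL.C (nat_lit 0x7190fd) (nat_lit 0x238577367480) (nat_lit 0x0)
  (PL.C (nat_lit 0x71ad14) (nat_lit 0x1387169d2c80) (nat_lit 0x0)
  (PL.C (nat_lit 0x72038a) (nat_lit 0x0) (nat_lit 0x196ca246cc5380)
  (PL.C (nat_lit 0x72a63c) (nat_lit 0xa765947b51460) (nat_lit 0x0)
  (PL.C (nat_lit 0x72adf8) (nat_lit 0x0) (nat_lit 0xc8ad908f0f00)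
  (PL.C (nat_lit 0x72dd52) (nat_lit 0x0) (nat_lit 0x4b7cedc62e00)
  (PL.C (nat_lit 0x732a94) (nat_lit 0x32271725b26480) (nat_lit 0x0)
  (PL.C (nat_lit 0x735aec) (nat_lit 0x0) (nat_lit 0x83c334c2c100)
  (PL.C (nat_lit 0x735fa5) (nat_lit 0x2a681d7690f80) (nat_lit 0x0)
  (PL.C (nat_lit 0x737a03) (nat_lit 0x0) (nat_lit 0x588f0d2f0180)
  (PL.C (nat_lit 0x738651) (nat_lit 0x0) (nat_lit 0x145efae128fd80)
  (PL.C (nat_lit 0x73a2e4) (nat_lit 0x0) (nat_lit 0x1324d6bac63d60)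
  (PL.C (nat_lit 0x73c64d) (nat_lit 0x1a54a603f4200) (nat_lit 0x0)
  (PL.C (nat_lit 0x73d264) (nat_lit 0x0) (nat_lit 0xf200a503a000)
  (PL.C (nat_lit 0x73ff88) (nat_lit 0xbefac7bbe000) (nat_lit 0x0)
  (PL.C (nat_lit 0x746f1f) (nat_lit 0x0) (nat_lit 0x4bf917d3313280)
  (PL.C (nat_lit 0x7495c2) (nat_lit 0x0) (nat_lit 0x9e53bf71fa00)
  (PL.C (nat_lit 0x74c337) (nat_lit 0x3456c0d7cd00) (nat_lit 0x0)
  (PL.C (nat_lit 0x74e2ec) (nat_lit 0x0) (nat_lit 0x18db76a33e3740) lm_71))))))))))))))))))))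

noncomputable def lm_69 : PL :=
  (PL.C (nat_lit 0x6d2718) (nat_lit 0x0) (nat_lit 0x13ea4c8f9ee600)
  (PL.C (nat_lit 0x6d3026) (nat_lit 0x1523302e9d800) (nat_lit 0x0)
  (PL.C (nat_lit 0x6de770) (nat_lit 0x0) (nat_lit 0x57373b2e5d00)
  (PL.C (nat_lit 0x6e2e72) (nat_lit 0x20ad5727c8400) (nat_lit 0x0)
  (PL.C (nat_lit 0x6e3112) (nat_lit 0x1734340d77dd00) (nat_lit 0x0)
  (PL.C (nat_lit 0x6e9454) (nat_lit 0x1a7ab8eadce00) (nat_lit 0x0)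
  (PL.C (nat_lit 0x6ecbac) (nat_lit 0x1066e8c095e00) (nat_lit 0x0)
  (PL.C (nat_lit 0x6ed331) (nat_lit 0x0) (nat_lit 0x46ca28ba81ebd0)
  (PL.C (nat_lit 0x6ed951) (nat_lit 0x4d47661fb2100) (nat_lit 0x0)
  (PL.C (nat_lit 0x6f0aec) (nat_lit 0x0) (nat_lit 0xf3a746eb4600)
  (PL.C (nat_lit 0x6fa22a) (nat_lit 0x0) (nat_lit 0xcab5aeed9c780)
  (PL.C (nat_lit 0x70cf4c) (nat_lit 0x0) (nat_lit 0x4616fa886e700)
  (PL.C (nat_lit 0x70d71e) (nat_lit 0x25c6459251be40) (nat_lit 0x0)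
  (PL.C (nat_lit 0x70e914) (nat_lit 0x0) (nat_lit 0x79d4356adf00)
  (PL.C (nat_lit 0x70f51c) (nat_lit 0x0) (nat_lit 0x15181da84b7740)
  (PL.C (nat_lit 0x7117b3) (nat_lit 0x504021189c300) (nat_lit 0x0)
  (PL.C (nat_lit 0x7133ac) (nat_lit 0x1490ec9a9d900) (nat_lit 0x0)
  (PL.C (nat_lit 0x714758) (nat_lit 0x0) (nat_lit 0x34d9afdbeb480)
  (PL.C (nat_lit 0x71504d) (nat_lit 0xa1b793712180) (nat_lit 0x0)
  (PL.C (nat_lit 0x71622c) (nat_lit 0x0) (nat_lit 0x4e1f102b8400) lm_70))))))))))))))))))))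

noncomputable def lm_68 : PL :=
  (PL.C (nat_lit 0x69ed7e) (nat_lit 0x701efd8259600) (nat_lit 0x0)
  (PL.C (nat_lit 0x6a2282) (nat_lit 0xa3f7519c6e80) (nat_lit 0x0)
  (PL.C (nat_lit 0x6a4fac) (nat_lit 0x0) (nat_lit 0x7d6a433ec3000)
  (PL.C (nat_lit 0x6a56d8) (nat_lit 0x5888aa8e19e00) (nat_lit 0x0)
  (PL.C (nat_lit 0x6a8957) (nat_lit 0x2e58c5b0dda700) (nat_lit 0x0)
  (PL.C (nat_lit 0x6abea9) (nat_lit 0x0) (nat_lit 0x3e4fc86bd0cc0)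
  (PL.C (nat_lit 0x6aca64) (nat_lit 0x0) (nat_lit 0x18ae5d81807a00)
  (PL.C (nat_lit 0x6acfb9) (nat_lit 0xc68b79ed3cb40) (nat_lit 0x0)
  (PL.C (nat_lit 0x6af34c) (nat_lit 0x48864a6b9e500) (nat_lit 0x0)
  (PL.C (nat_lit 0x6afb99) (nat_lit 0x5549fb73f8580) (nat_lit 0x0)
  (PL.C (nat_lit 0x6b1f75) (nat_lit 0x15055c4bbd1200) (nat_lit 0x0)
  (PL.C (nat_lit 0x6b39f4) (nat_lit 0x0) (nat_lit 0x3702f8e59bec0)
  (PL.C (nat_lit 0x6b6782) (nat_lit 0x2f84076f8e99d0) (nat_lit 0x0)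
  (PL.C (nat_lit 0x6c34aa) (nat_lit 0x0) (nat_lit 0x1e28e5425ee200)
  (PL.C (nat_lit 0x6c3568) (nat_lit 0x0) (nat_lit 0xa2a1ad9e600)
  (PL.C (nat_lit 0x6c3dce) (nat_lit 0x52b0969c7e00) (nat_lit 0x0)
  (PL.C (nat_lit 0x6c6216) (nat_lit 0x3b0b65f4b900) (nat_lit 0x0)
  (PL.C (nat_lit 0x6ca048) (nat_lit 0x0) (nat_lit 0x84e5c6a934780)
  (PL.C (nat_lit 0x6caafc) (nat_lit 0x293135388d780) (nat_lit 0x0)
  (PL.C (nat_lit 0x6cd3dd) (nat_lit 0x6155786e9700c0) (nat_lit 0x0) lm_69))))))))))))))))))))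

noncomputable def lm_67 : PL :=
  (PL.C (nat_lit 0x66c3d5) (nat_lit 0x337d76bf19de80) (nat_lit 0x0)
  (PL.C (nat_lit 0x66cd10) (nat_lit 0x0) (nat_lit 0x57373b2e5d00)
  (PL.C (nat_lit 0x66fe36) (nat_lit 0x7f5d8d8b53d40) (nat_lit 0x0)
  (PL.C (nat_lit 0x673374) (nat_lit 0x1a7ab8eadce00) (nat_lit 0x0)
  (PL.C (nat_lit 0x675afc) (nat_lit 0x0) (nat_lit 0x288b730bf280)
  (PL.C (nat_lit 0x677c94) (nat_lit 0xb73a8ad63400) (nat_lit 0x0)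
  (PL.C (nat_lit 0x6785a9) (nat_lit 0x0) (nat_lit 0x68553306ea00)
  (PL.C (nat_lit 0x679f44) (nat_lit 0x3eaa4aa1eb800) (nat_lit 0x0)
  (PL.C (nat_lit 0x67c6b8) (nat_lit 0xcec614a56c80) (nat_lit 0x0)
  (PL.C (nat_lit 0x67cb4a) (nat_lit 0xc6f48cd2835c0) (nat_lit 0x0)
  (PL.C (nat_lit 0x67f956) (nat_lit 0x0) (nat_lit 0x8dc75fb36280)
  (PL.C (nat_lit 0x682b44) (nat_lit 0x32271725b26480) (nat_lit 0x0)
  (PL.C (nat_lit 0x685647) (nat_lit 0x0) (nat_lit 0x27c175ae861200)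
  (PL.C (nat_lit 0x689afc) (nat_lit 0x87cd2bf04cb00) (nat_lit 0x0)
  (PL.C (nat_lit 0x68b2e4) (nat_lit 0x0) (nat_lit 0x20aa5b2ef8300)
  (PL.C (nat_lit 0x68be0c) (nat_lit 0x13a40bca082f40) (nat_lit 0x0)
  (PL.C (nat_lit 0x68de1f) (nat_lit 0x0) (nat_lit 0x3bd889281480)
  (PL.C (nat_lit 0x68eb2a) (nat_lit 0x0) (nat_lit 0xcab5aeed9c780)
  (PL.C (nat_lit 0x69cd18) (nat_lit 0x0) (nat_lit 0x6e77784bff100)
  (PL.C (nat_lit 0x69d608) (nat_lit 0x1650b3fd0ba00) (nat_lit 0x0) lm_68))))))))))))))))))))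

noncomputable def lm_66 : PL :=
  (PL.C (nat_lit 0x62107e) (nat_lit 0x0) (nat_lit 0x693d49adec340)
  (PL.C (nat_lit 0x6249db) (nat_lit 0x1b12fc54ac49cc0) (nat_lit 0x0)
  (PL.C (nat_lit 0x62ab9c) (nat_lit 0x3ddee786778f00) (nat_lit 0x0)
  (PL.C (nat_lit 0x62be42) (nat_lit 0x327e96bc1280) (nat_lit 0x0)
  (PL.C (nat_lit 0x62c9d3) (nat_lit 0x1563dc20e33580) (nat_lit 0x0)
  (PL.C (nat_lit 0x62ff48) (nat_lit 0x0) (nat_lit 0xa2a1ad9e600)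
  (PL.C (nat_lit 0x634f89) (nat_lit 0x0) (nat_lit 0x2241273718fd00)
  (PL.C (nat_lit 0x63d4c8) (nat_lit 0x519dac6e34f80) (nat_lit 0x0)
  (PL.C (nat_lit 0x63e5d8) (nat_lit 0x0) (nat_lit 0x92a9ad980f00)
  (PL.C (nat_lit 0x63f35a) (nat_lit 0x0) (nat_lit 0x283cf3888800)
  (PL.C (nat_lit 0x63fa56) (nat_lit 0x1a05f427cc4a80) (nat_lit 0x0)
  (PL.C (nat_lit 0x645612) (nat_lit 0x9cbcc036edd00) (nat_lit 0x0)
  (PL.C (nat_lit 0x64d322) (nat_lit 0xfda890e2f8d80) (nat_lit 0x0)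
  (PL.C (nat_lit 0x64e9b1) (nat_lit 0x0) (nat_lit 0xe740a343eefc0)
  (PL.C (nat_lit 0x6515be) (nat_lit 0x26373d310700) (nat_lit 0x0)
  (PL.C (nat_lit 0x6538bc) (nat_lit 0x0) (nat_lit 0x15b9878bef600)
  (PL.C (nat_lit 0x65aa77) (nat_lit 0x5fdcde3fb180) (nat_lit 0x0)
  (PL.C (nat_lit 0x66199e) (nat_lit 0x0) (nat_lit 0xb49ae2a38ec80)
  (PL.C (nat_lit 0x66678c) (nat_lit 0x0) (nat_lit 0x20aa5b2ef8300)
  (PL.C (nat_lit 0x66bcdc) (nat_lit 0x3eaa4aa1eb800) (nat_lit 0x0) lm_67))))))))))))))))))))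

noncomputable def lm_65 : PL :=
  (PL.C (nat_lit 0x5f5a8c) (nat_lit 0xcd23e7c2aaa00) (nat_lit 0x0)
  (PL.C (nat_lit 0x5f77bf) (nat_lit 0x0) (nat_lit 0x154f60dd3f00)
  (PL.C (nat_lit 0x5f8f5c) (nat_lit 0x3bdcd968f4100) (nat_lit 0x0)
  (PL.C (nat_lit 0x5fb2b8) (nat_lit 0x0) (nat_lit 0x3aea920753c00)
  (PL.C (nat_lit 0x5fb6d1) (nat_lit 0xe5ed71cbee00) (nat_lit 0x0)
  (PL.C (nat_lit 0x5fd006) (nat_lit 0x0) (nat_lit 0xe239dd063200)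
  (PL.C (nat_lit 0x5feddf) (nat_lit 0x46dcff583400) (nat_lit 0x0)
  (PL.C (nat_lit 0x5ffffa) (nat_lit 0x5b6b691b8700) (nat_lit 0x0)
  (PL.C (nat_lit 0x601ab4) (nat_lit 0x0) (nat_lit 0x154152d1945a00)
  (PL.C (nat_lit 0x603a98) (nat_lit 0x31dbba9508400) (nat_lit 0x0)
  (PL.C (nat_lit 0x603f66) (nat_lit 0x6e4276b7d500) (nat_lit 0x0)
  (PL.C (nat_lit 0x6097d4) (nat_lit 0x0) (nat_lit 0x44ed90fa09ea80)
  (PL.C (nat_lit 0x60c82c) (nat_lit 0x0) (nat_lit 0x1324d6bac63d60)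
  (PL.C (nat_lit 0x60ff6c) (nat_lit 0x0) (nat_lit 0x3ea4e80705c80)
  (PL.C (nat_lit 0x610ea8) (nat_lit 0x1b7456e328e00) (nat_lit 0x0)
  (PL.C (nat_lit 0x6137e4) (nat_lit 0x43c22a044ba80) (nat_lit 0x0)
  (PL.C (nat_lit 0x618555) (nat_lit 0x71783963efe80) (nat_lit 0x0)
  (PL.C (nat_lit 0x619d74) (nat_lit 0xa765947b51460) (nat_lit 0x0)
  (PL.C (nat_lit 0x61df82) (nat_lit 0x0) (nat_lit 0x8172e7b9eac00)
  (PL.C (nat_lit 0x61eba8) (nat_lit 0x7be082a23800) (nat_lit 0x0) lm_66))))))))))))))))))))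

noncomputable def lm_64 : PL :=
  (PL.C (nat_lit 0x5c0094) (nat_lit 0x1387169d2c80) (nat_lit 0x0)
  (PL.C (nat_lit 0x5c168d) (nat_lit 0x0) (nat_lit 0x1ea19e1b13640)
  (PL.C (nat_lit 0x5c2d54) (nat_lit 0x31bce55586000) (nat_lit 0x0)
  (PL.C (nat_lit 0x5ca765) (nat_lit 0x0) (nat_lit 0x185311f1a000)
  (PL.C (nat_lit 0x5cb4ee) (nat_lit 0x0) (nat_lit 0xc41e0ded7bc40)
  (PL.C (nat_lit 0x5d04da) (nat_lit 0x0) (nat_lit 0x19e48b9a765600)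
  (PL.C (nat_lit 0x5d2be6) (nat_lit 0x0) (nat_lit 0x26373d310700)
  (PL.C (nat_lit 0x5d58a4) (nat_lit 0x1904600f50a00) (nat_lit 0x0)
  (PL.C (nat_lit 0x5d7f2f) (nat_lit 0x186bd127d5800) (nat_lit 0x0)
  (PL.C (nat_lit 0x5d875c) (nat_lit 0x5d661255200) (nat_lit 0x0)
  (PL.C (nat_lit 0x5d8db5) (nat_lit 0x9ee683a6f2ac60) (nat_lit 0x0)
  (PL.C (nat_lit 0x5dcc24) (nat_lit 0x0) (nat_lit 0x3ea4e80705c80)
  (PL.C (nat_lit 0x5dd3f0) (nat_lit 0xfbaf74fae400) (nat_lit 0x0)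
  (PL.C (nat_lit 0x5ddc2c) (nat_lit 0x20ac901793c00) (nat_lit 0x0)
  (PL.C (nat_lit 0x5dddd8) (nat_lit 0x0) (nat_lit 0x1748adfd9000)
  (PL.C (nat_lit 0x5de8dd) (nat_lit 0x0) (nat_lit 0x4bf54ab58200)
  (PL.C (nat_lit 0x5e049a) (nat_lit 0xd9823ea3e400) (nat_lit 0x0)
  (PL.C (nat_lit 0x5e96e3) (nat_lit 0x0) (nat_lit 0xfe4083bd8e00)
  (PL.C (nat_lit 0x5f4a89) (nat_lit 0x0) (nat_lit 0x16c132aea57900)
  (PL.C (nat_lit 0x5f5064) (nat_lit 0x0) (nat_lit 0xfc8c09b8f00) lm_65))))))))))))))))))))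

noncomputable def lm_63 : PL :=
  (PL.C (nat_lit 0x5904a2) (nat_lit 0x0) (nat_lit 0x3b0b65f4b900)
  (PL.C (nat_lit 0x591424) (nat_lit 0x0) (nat_lit 0xb42668183d80)
  (PL.C (nat_lit 0x597588) (nat_lit 0x0) (nat_lit 0x1b7456e328e00)
  (PL.C (nat_lit 0x59ad58) (nat_lit 0x38f8fc83a2100) (nat_lit 0x0)
  (PL.C (nat_lit 0x59c8ce) (nat_lit 0x0) (nat_lit 0x9e53bf71fa00)
  (PL.C (nat_lit 0x59eef3) (nat_lit 0x280ec76f7e500) (nat_lit 0x0)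
  (PL.C (nat_lit 0x59f530) (nat_lit 0xfbaf74fae400) (nat_lit 0x0)
  (PL.C (nat_lit 0x5a0aac) (nat_lit 0x0) (nat_lit 0x5efd771c11680)
  (PL.C (nat_lit 0x5a2a5d) (nat_lit 0x11b23e7c08f740) (nat_lit 0x0)
  (PL.C (nat_lit 0x5a4bba) (nat_lit 0x25c6459251be40) (nat_lit 0x0)
  (PL.C (nat_lit 0x5a984c) (nat_lit 0x0) (nat_lit 0xd157b49fa00)
  (PL.C (nat_lit 0x5aa588) (nat_lit 0x0) (nat_lit 0x34d9afdbeb480)
  (PL.C (nat_lit 0x5ac14a) (nat_lit 0x9cbcc036edd00) (nat_lit 0x0)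
  (PL.C (nat_lit 0x5aeeb6) (nat_lit 0x0) (nat_lit 0x12eda28946240)
  (PL.C (nat_lit 0x5b1d96) (nat_lit 0x0) (nat_lit 0x25c3a0d9e5480)
  (PL.C (nat_lit 0x5b23e7) (nat_lit 0x82ff7c1704040) (nat_lit 0x0)
  (PL.C (nat_lit 0x5b6a18) (nat_lit 0x2c83ac4580b00) (nat_lit 0x0)
  (PL.C (nat_lit 0x5b7e8c) (nat_lit 0x0) (nat_lit 0xde981d6345f40)
  (PL.C (nat_lit 0x5bb71a) (nat_lit 0x0) (nat_lit 0x1a276b956e900)
  (PL.C (nat_lit 0x5bde11) (nat_lit 0x1557e3a9627b00) (nat_lit 0x0) lm_64))))))))))))))))))))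

noncomputable def lm_62 : PL :=
  (PL.C (nat_lit 0x564102) (nat_lit 0x0) (nat_lit 0x155d26a208580)
  (PL.C (nat_lit 0x568eb4) (nat_lit 0xd97c50575200) (nat_lit 0x0)
  (PL.C (nat_lit 0x569978) (nat_lit 0x0) (nat_lit 0x13ea4c8f9ee600)
  (PL.C (nat_lit 0x56bfe9) (nat_lit 0x561bceec9eafc0) (nat_lit 0x0)
  (PL.C (nat_lit 0x5703dc) (nat_lit 0x505bdfc382100) (nat_lit 0x0)
  (PL.C (nat_lit 0x570a38) (nat_lit 0x1b7456e328e00) (nat_lit 0x0)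
  (PL.C (nat_lit 0x5735c8) (nat_lit 0x5c69423d6000) (nat_lit 0x0)
  (PL.C (nat_lit 0x57659d) (nat_lit 0x1563dc20e33580) (nat_lit 0x0)
  (PL.C (nat_lit 0x576cff) (nat_lit 0xf1e452618400) (nat_lit 0x0)
  (PL.C (nat_lit 0x57c52e) (nat_lit 0xf7def26c8a80) (nat_lit 0x0)
  (PL.C (nat_lit 0x57ca08) (nat_lit 0x31dbba9508400) (nat_lit 0x0)
  (PL.C (nat_lit 0x57ef54) (nat_lit 0x0) (nat_lit 0x98ef53baaaa00)
  (PL.C (nat_lit 0x57f5f8) (nat_lit 0x16c0f23b89800) (nat_lit 0x0)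
  (PL.C (nat_lit 0x58082c) (nat_lit 0x71d696595180) (nat_lit 0x0)
  (PL.C (nat_lit 0x5813a3) (nat_lit 0x0) (nat_lit 0x27c175ae861200)
  (PL.C (nat_lit 0x58296c) (nat_lit 0x0) (nat_lit 0x3e609e09c1700)
  (PL.C (nat_lit 0x586b3c) (nat_lit 0x13a40bca082f40) (nat_lit 0x0)
  (PL.C (nat_lit 0x589152) (nat_lit 0x10e472c19d32c0) (nat_lit 0x0)
  (PL.C (nat_lit 0x58e968) (nat_lit 0x0) (nat_lit 0x7fa012562f480)
  (PL.C (nat_lit 0x58fe21) (nat_lit 0x0) (nat_lit 0x1c51decb7f180) lm_63))))))))))))))))))))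

noncomputable def lm_61 : PL :=
  (PL.C (nat_lit 0x5327b8) (nat_lit 0x9400e39474600) (nat_lit 0x0)
  (PL.C (nat_lit 0x534b0c) (nat_lit 0x0) (nat_lit 0x18db76a33e3740)
  (PL.C (nat_lit 0x535aca) (nat_lit 0x48e85dac14380) (nat_lit 0x0)
  (PL.C (nat_lit 0x536f68) (nat_lit 0xb33c9f3dd800) (nat_lit 0x0)
  (PL.C (nat_lit 0x5395da) (nat_lit 0x734d3084b700) (nat_lit 0x0)
  (PL.C (nat_lit 0x53d1bc) (nat_lit 0x3bdcd968f4100) (nat_lit 0x0)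
  (PL.C (nat_lit 0x53d56d) (nat_lit 0x0) (nat_lit 0x2241273718fd00)
  (PL.C (nat_lit 0x5422f2) (nat_lit 0x0) (nat_lit 0x3400f96dcb2280)
  (PL.C (nat_lit 0x5445e8) (nat_lit 0x0) (nat_lit 0x4130ec6176b00)
  (PL.C (nat_lit 0x544d0e) (nat_lit 0xa28f9b3b948f0) (nat_lit 0x0)
  (PL.C (nat_lit 0x547d2e) (nat_lit 0x0) (nat_lit 0xb49ae2a38ec80)
  (PL.C (nat_lit 0x54fb25) (nat_lit 0x0) (nat_lit 0x23effa17800)
  (PL.C (nat_lit 0x55746c) (nat_lit 0xaad5eb0081f80) (nat_lit 0x0)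
  (PL.C (nat_lit 0x557ba4) (nat_lit 0x9e4c7456f900) (nat_lit 0x0)
  (PL.C (nat_lit 0x558e97) (nat_lit 0xebbbbe41c100) (nat_lit 0x0)
  (PL.C (nat_lit 0x55b969) (nat_lit 0x1a54a603f4200) (nat_lit 0x0)
  (PL.C (nat_lit 0x55ea59) (nat_lit 0x0) (nat_lit 0x4bf54ab58200)
  (PL.C (nat_lit 0x55f226) (nat_lit 0x2f84076f8e99d0) (nat_lit 0x0)
  (PL.C (nat_lit 0x55f6e6) (nat_lit 0x0) (nat_lit 0xd61c03bfae500)
  (PL.C (nat_lit 0x561e94) (nat_lit 0x5f2afeab01c500) (nat_lit 0x0) lm_62))))))))))))))))))))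

noncomputable def lm_60 : PL :=
  (PL.C (nat_lit 0x4fd5a8) (nat_lit 0x1748adfd9000) (nat_lit 0x0)
  (PL.C (nat_lit 0x4fdf44) (nat_lit 0x0) (nat_lit 0x190dfb939f280)
  (PL.C (nat_lit 0x50a204) (nat_lit 0xdd7267412d980) (nat_lit 0x0)
  (PL.C (nat_lit 0x50afcc) (nat_lit 0x15dbf75aad00) (nat_lit 0x0)
  (PL.C (nat_lit 0x50bab5) (nat_lit 0x236c8c764000) (nat_lit 0x0)
  (PL.C (nat_lit 0x510a71) (nat_lit 0x0) (nat_lit 0x67f6f6cd6e500)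
  (PL.C (nat_lit 0x512084) (nat_lit 0x0) (nat_lit 0x154152d1945a00)
  (PL.C (nat_lit 0x513f7e) (nat_lit 0x6e4276b7d500) (nat_lit 0x0)
  (PL.C (nat_lit 0x518098) (nat_lit 0xbac0d8b5ac80) (nat_lit 0x0)
  (PL.C (nat_lit 0x518a24) (nat_lit 0xaad5eb0081f80) (nat_lit 0x0)
  (PL.C (nat_lit 0x51a626) (nat_lit 0x0) (nat_lit 0x5b6b691b8700)
  (PL.C (nat_lit 0x51abcf) (nat_lit 0x0) (nat_lit 0x2c2192fbabf00)
  (PL.C (nat_lit 0x51ba58) (nat_lit 0x7be082a23800) (nat_lit 0x0)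
  (PL.C (nat_lit 0x52205a) (nat_lit 0x0) (nat_lit 0xa5c58a5f55a00)
  (PL.C (nat_lit 0x527208) (nat_lit 0x9400e39474600) (nat_lit 0x0)
  (PL.C (nat_lit 0x527727) (nat_lit 0xc8925f8161580) (nat_lit 0x0)
  (PL.C (nat_lit 0x527fb8) (nat_lit 0x0) (nat_lit 0x2867998a4c00)
  (PL.C (nat_lit 0x529c88) (nat_lit 0x0) (nat_lit 0x4130ec6176b00)
  (PL.C (nat_lit 0x52d556) (nat_lit 0x0) (nat_lit 0xa5c58a5f55a00)
  (PL.C (nat_lit 0x52f887) (nat_lit 0x0) (nat_lit 0x4bf917d3313280) lm_61))))))))))))))))))))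

noncomputable def lm_59 : PL :=
  (PL.C (nat_lit 0x4d516d) (nat_lit 0x3456c0d7cd00) (nat_lit 0x0)
  (PL.C (nat_lit 0x4d9f6a) (nat_lit 0x0) (nat_lit 0x83383636348140)
  (PL.C (nat_lit 0x4db92c) (nat_lit 0x0) (nat_lit 0x153c54327d00)
  (PL.C (nat_lit 0x4dd77a) (nat_lit 0x14b9028b2a200) (nat_lit 0x0)
  (PL.C (nat_lit 0x4e047a) (nat_lit 0x0) (nat_lit 0x57300da191380)
  (PL.C (nat_lit 0x4e12e4) (nat_lit 0x3b38b69642200) (nat_lit 0x0)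
  (PL.C (nat_lit 0x4e2b86) (nat_lit 0x0) (nat_lit 0x593a694620b00)
  (PL.C (nat_lit 0x4e30cc) (nat_lit 0xe7be3c48f200) (nat_lit 0x0)
  (PL.C (nat_lit 0x4e5115) (nat_lit 0x0) (nat_lit 0x3bd889281480)
  (PL.C (nat_lit 0x4e5826) (nat_lit 0x15873bb6d0c80) (nat_lit 0x0)
  (PL.C (nat_lit 0x4e6474) (nat_lit 0x1387169d2c80) (nat_lit 0x0)
  (PL.C (nat_lit 0x4e85c2) (nat_lit 0x0) (nat_lit 0x3400f96dcb2280)
  (PL.C (nat_lit 0x4ea3d6) (nat_lit 0x99880d0ecbec0) (nat_lit 0x0)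
  (PL.C (nat_lit 0x4ea72c) (nat_lit 0xda22156a96100) (nat_lit 0x0)
  (PL.C (nat_lit 0x4ed7ca) (nat_lit 0x0) (nat_lit 0x593a694620b00)
  (PL.C (nat_lit 0x4ef949) (nat_lit 0x0) (nat_lit 0x46ca28ba81ebd0)
  (PL.C (nat_lit 0x4f008c) (nat_lit 0x0) (nat_lit 0x3c0a0e4ae1c00)
  (PL.C (nat_lit 0x4f16f4) (nat_lit 0xee7f67707300) (nat_lit 0x0)
  (PL.C (nat_lit 0x4f7148) (nat_lit 0xd292fe6c69c00) (nat_lit 0x0)
  (PL.C (nat_lit 0x4fb1fe) (nat_lit 0x0) (nat_lit 0x8aa48c20b8ac00) lm_60))))))))))))))))))))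

noncomputable def lm_58 : PL :=
  (PL.C (nat_lit 0x49c6d1) (nat_lit 0x0) (nat_lit 0x7af4c605d580)
  (PL.C (nat_lit 0x49e636) (nat_lit 0x0) (nat_lit 0x31a5234fc0500)
  (PL.C (nat_lit 0x4a0748) (nat_lit 0x0) (nat_lit 0x1b7456e328e00)
  (PL.C (nat_lit 0x4a6c1c) (nat_lit 0x0) (nat_lit 0xe87dc4d02f700)
  (PL.C (nat_lit 0x4b2175) (nat_lit 0xef7f1ea9e2180) (nat_lit 0x0)
  (PL.C (nat_lit 0x4b3a14) (nat_lit 0x33a73c5f756180) (nat_lit 0x0)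
  (PL.C (nat_lit 0x4b6522) (nat_lit 0x48e85dac14380) (nat_lit 0x0)
  (PL.C (nat_lit 0x4b77c8) (nat_lit 0x16531cb752e80) (nat_lit 0x0)
  (PL.C (nat_lit 0x4b8ade) (nat_lit 0x3508248686640) (nat_lit 0x0)
  (PL.C (nat_lit 0x4b96c8) (nat_lit 0x0) (nat_lit 0x5c69423d6000)
  (PL.C (nat_lit 0x4bb5fe) (nat_lit 0x3b0b65f4b900) (nat_lit 0x0)
  (PL.C (nat_lit 0x4bc8b8) (nat_lit 0x5a1468ab5280) (nat_lit 0x0)
  (PL.C (nat_lit 0x4c025c) (nat_lit 0x0) (nat_lit 0x5b317aab25c80)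
  (PL.C (nat_lit 0x4c938c) (nat_lit 0xd97c50575200) (nat_lit 0x0)
  (PL.C (nat_lit 0x4ce748) (nat_lit 0x0) (nat_lit 0xb33c9f3dd800)
  (PL.C (nat_lit 0x4cea6e) (nat_lit 0x2aeecc6096280) (nat_lit 0x0)
  (PL.C (nat_lit 0x4cefc3) (nat_lit 0xb5a6c97b7d40) (nat_lit 0x0)
  (PL.C (nat_lit 0x4cfc02) (nat_lit 0x0) (nat_lit 0x1fe4f457e8e40)
  (PL.C (nat_lit 0x4d0436) (nat_lit 0x0) (nat_lit 0x196ca246cc5380)
  (PL.C (nat_lit 0x4d2ede) (nat_lit 0xeb2a25113b00) (nat_lit 0x0) lm_59))))))))))))))))))))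

noncomputable def lm_57 : PL :=
  (PL.C (nat_lit 0x46e490) (nat_lit 0x4ededafa9ee00) (nat_lit 0x0)
  (PL.C (nat_lit 0x46ed9b) (nat_lit 0x0) (nat_lit 0x23effa17800)
  (PL.C (nat_lit 0x47063a) (nat_lit 0x0) (nat_lit 0x19e48b9a765600)
  (PL.C (nat_lit 0x4729c6) (nat_lit 0x0) (nat_lit 0xd80fb725abe90)
  (PL.C (nat_lit 0x473198) (nat_lit 0x0) (nat_lit 0xf039ea6d74e00)
  (PL.C (nat_lit 0x473526) (nat_lit 0x1a1fae86a2ae40) (nat_lit 0x0)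
  (PL.C (nat_lit 0x475266) (nat_lit 0x97cfacfe20400) (nat_lit 0x0)
  (PL.C (nat_lit 0x476a4e) (nat_lit 0xf32beb64e3e80) (nat_lit 0x0)
  (PL.C (nat_lit 0x477bf8) (nat_lit 0x0) (nat_lit 0x71294bb3b880)
  (PL.C (nat_lit 0x478911) (nat_lit 0x11b23e7c08f740) (nat_lit 0x0)
  (PL.C (nat_lit 0x48231c) (nat_lit 0x0) (nat_lit 0x44ed90fa09ea80)
  (PL.C (nat_lit 0x482934) (nat_lit 0x9e4c7456f900) (nat_lit 0x0)
  (PL.C (nat_lit 0x483933) (nat_lit 0xebbbbe41c100) (nat_lit 0x0)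
  (PL.C (nat_lit 0x484164) (nat_lit 0x0) (nat_lit 0x1387169d2c80)
  (PL.C (nat_lit 0x488d3e) (nat_lit 0x0) (nat_lit 0x1a0b5bff55d950)
  (PL.C (nat_lit 0x48cac4) (nat_lit 0x0) (nat_lit 0x424fd1beec00)
  (PL.C (nat_lit 0x48ee65) (nat_lit 0xb5a6c97b7d40) (nat_lit 0x0)
  (PL.C (nat_lit 0x49744c) (nat_lit 0x505bdfc382100) (nat_lit 0x0)
  (PL.C (nat_lit 0x49760c) (nat_lit 0x89bbb4a503f80) (nat_lit 0x0)
  (PL.C (nat_lit 0x49b838) (nat_lit 0x21f014988700) (nat_lit 0x0) lm_58))))))))))))))))))))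

noncomputable def lm_56 : PL :=
  (PL.C (nat_lit 0x444508) (nat_lit 0x7a4c74fe1600) (nat_lit 0x0)
  (PL.C (nat_lit 0x447de8) (nat_lit 0x0) (nat_lit 0x84768fd7fc00)
  (PL.C (nat_lit 0x44828e) (nat_lit 0x11f59581ff7580) (nat_lit 0x0)
  (PL.C (nat_lit 0x44ccf8) (nat_lit 0x21f014988700) (nat_lit 0x0)
  (PL.C (nat_lit 0x44fdb8) (nat_lit 0xbefac7bbe000) (nat_lit 0x0)
  (PL.C (nat_lit 0x4503c6) (nat_lit 0x0) (nat_lit 0x1d56aa6e63100)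
  (PL.C (nat_lit 0x4514d8) (nat_lit 0x0) (nat_lit 0x84768fd7fc00)
  (PL.C (nat_lit 0x4550e4) (nat_lit 0x0) (nat_lit 0x4453d6e66e000)
  (PL.C (nat_lit 0x458eda) (nat_lit 0x0) (nat_lit 0x4bd9d1615c2440)
  (PL.C (nat_lit 0x45aaa9) (nat_lit 0x0) (nat_lit 0x78e27bfdd6180)
  (PL.C (nat_lit 0x45bca8) (nat_lit 0x519dac6e34f80) (nat_lit 0x0)
  (PL.C (nat_lit 0x45cc98) (nat_lit 0x7a4c74fe1600) (nat_lit 0x0)
  (PL.C (nat_lit 0x45d408) (nat_lit 0x0) (nat_lit 0x4ac3de9cf7380)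
  (PL.C (nat_lit 0x45e96a) (nat_lit 0x0) (nat_lit 0x6348597d4100)
  (PL.C (nat_lit 0x45f21c) (nat_lit 0x0) (nat_lit 0xe87dc4d02f700)
  (PL.C (nat_lit 0x468eb0) (nat_lit 0x11463c084d800) (nat_lit 0x0)
  (PL.C (nat_lit 0x469e54) (nat_lit 0x1f3ff988742d00) (nat_lit 0x0)
  (PL.C (nat_lit 0x46c1ac) (nat_lit 0x1490ec9a9d900) (nat_lit 0x0)
  (PL.C (nat_lit 0x46dfc8) (nat_lit 0x0) (nat_lit 0xcfc99a8dd180)
  (PL.C (nat_lit 0x46e42f) (nat_lit 0x6aacd50084200) (nat_lit 0x0) lm_57))))))))))))))))))))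

noncomputable def lm_55 : PL :=
  (PL.C (nat_lit 0x418692) (nat_lit 0x8b4dc7c5feb580) (nat_lit 0x0)
  (PL.C (nat_lit 0x419f97) (nat_lit 0x416b08c176040) (nat_lit 0x0)
  (PL.C (nat_lit 0x41d42c) (nat_lit 0x91d43ed3a500) (nat_lit 0x0)
  (PL.C (nat_lit 0x41dbe2) (nat_lit 0x26166c2f552080) (nat_lit 0x0)
  (PL.C (nat_lit 0x423506) (nat_lit 0x0) (nat_lit 0xe00e9951cb00)
  (PL.C (nat_lit 0x425535) (nat_lit 0x0) (nat_lit 0x8f5e1ca675e80)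
  (PL.C (nat_lit 0x42a1c7) (nat_lit 0x0) (nat_lit 0x5cb6c86f5a00)
  (PL.C (nat_lit 0x42a23c) (nat_lit 0x0) (nat_lit 0x3c4a816cd600)
  (PL.C (nat_lit 0x42a6e4) (nat_lit 0x75a00b01c11c0) (nat_lit 0x0)
  (PL.C (nat_lit 0x42bb4d) (nat_lit 0x6493250207200) (nat_lit 0x0)
  (PL.C (nat_lit 0x42dcb3) (nat_lit 0x0) (nat_lit 0x1a6164772fc40)
  (PL.C (nat_lit 0x42e40c) (nat_lit 0xd8c0542a97f00) (nat_lit 0x0)
  (PL.C (nat_lit 0x42e763) (nat_lit 0x0) (nat_lit 0x85625ce7257c0)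
  (PL.C (nat_lit 0x43376c) (nat_lit 0x1a9f03556ba000) (nat_lit 0x0)
  (PL.C (nat_lit 0x434676) (nat_lit 0x0) (nat_lit 0x8aa48c20b8ac00)
  (PL.C (nat_lit 0x43532d) (nat_lit 0x15b5f727e9e00) (nat_lit 0x0)
  (PL.C (nat_lit 0x4363d4) (nat_lit 0x3a974c20a300) (nat_lit 0x0)
  (PL.C (nat_lit 0x437b28) (nat_lit 0x0) (nat_lit 0x92a9ad980f00)
  (PL.C (nat_lit 0x441114) (nat_lit 0x0) (nat_lit 0xec16d37216280)
  (PL.C (nat_lit 0x442aaf) (nat_lit 0x0) (nat_lit 0xc90bd7f7bb40) lm_56))))))))))))))))))))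

noncomputable def lm_54 : PL :=
  (PL.C (nat_lit 0x3f6c09) (nat_lit 0x25d2e7d8a22e80) (nat_lit 0x0)
  (PL.C (nat_lit 0x3f8706) (nat_lit 0x0) (nat_lit 0x1f28c539e57e00)
  (PL.C (nat_lit 0x3fa52a) (nat_lit 0x327e96bc1280) (nat_lit 0x0)
  (PL.C (nat_lit 0x3fb4e8) (nat_lit 0x1ebe498cd1a80) (nat_lit 0x0)
  (PL.C (nat_lit 0x3fcf36) (nat_lit 0x1d11c2cd0e600) (nat_lit 0x0)
  (PL.C (nat_lit 0x3fe004) (nat_lit 0x3b38b69642200) (nat_lit 0x0)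
  (PL.C (nat_lit 0x3ff3ea) (nat_lit 0x15873bb6d0c80) (nat_lit 0x0)
  (PL.C (nat_lit 0x3ffffc) (nat_lit 0x83c334c2c100) (nat_lit 0x0)
  (PL.C (nat_lit 0x401a69) (nat_lit 0xe5ed71cbee00) (nat_lit 0x0)
  (PL.C (nat_lit 0x402710) (nat_lit 0x1c5d788f08800) (nat_lit 0x0)
  (PL.C (nat_lit 0x402a44) (nat_lit 0x22b0f0eaa5100) (nat_lit 0x0)
  (PL.C (nat_lit 0x406538) (nat_lit 0x0) (nat_lit 0x138ade59265680)
  (PL.C (nat_lit 0x40aa48) (nat_lit 0x0) (nat_lit 0x71bc458ddf600)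
  (PL.C (nat_lit 0x40b470) (nat_lit 0xfbaf74fae400) (nat_lit 0x0)
  (PL.C (nat_lit 0x41038e) (nat_lit 0x0) (nat_lit 0x14158c4444a800)
  (PL.C (nat_lit 0x413fac) (nat_lit 0x0) (nat_lit 0x18ae5d81807a00)
  (PL.C (nat_lit 0x4153a7) (nat_lit 0x0) (nat_lit 0xfe4083bd8e00)
  (PL.C (nat_lit 0x415a9d) (nat_lit 0x0) (nat_lit 0x2c2192fbabf00)
  (PL.C (nat_lit 0x416054) (nat_lit 0x2c20b69a4e3c0) (nat_lit 0x0)
  (PL.C (nat_lit 0x417459) (nat_lit 0xc39a28fc400) (nat_lit 0x0) lm_55))))))))))))))))))))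

noncomputable def lm_53 : PL :=
  (PL.C (nat_lit 0x3d3eb6) (nat_lit 0x1a2818565302e0) (nat_lit 0x0)
  (PL.C (nat_lit 0x3d55b8) (nat_lit 0x5a1468ab5280) (nat_lit 0x0)
  (PL.C (nat_lit 0x3d645e) (nat_lit 0x0) (nat_lit 0x23b48d6fecc00)
  (PL.C (nat_lit 0x3d90b9) (nat_lit 0x82ff7c1704040) (nat_lit 0x0)
  (PL.C (nat_lit 0x3dc4ee) (nat_lit 0x0) (nat_lit 0x283cf3888800)
  (PL.C (nat_lit 0x3dcdf4) (nat_lit 0x0) (nat_lit 0xde981d6345f40)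
  (PL.C (nat_lit 0x3de0e1) (nat_lit 0x0) (nat_lit 0x67f6f6cd6e500)
  (PL.C (nat_lit 0x3e033c) (nat_lit 0x0) (nat_lit 0x2b06a347ce6c80)
  (PL.C (nat_lit 0x3e1d44) (nat_lit 0x0) (nat_lit 0x3a974c20a300)
  (PL.C (nat_lit 0x3e1fcf) (nat_lit 0x18bde8d16e880) (nat_lit 0x0)
  (PL.C (nat_lit 0x3e3b18) (nat_lit 0xbac0d8b5ac80) (nat_lit 0x0)
  (PL.C (nat_lit 0x3e54ca) (nat_lit 0x27c023ac81800) (nat_lit 0x0)
  (PL.C (nat_lit 0x3e8818) (nat_lit 0x0) (nat_lit 0x71bc458ddf600)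
  (PL.C (nat_lit 0x3e92c8) (nat_lit 0x32c16dc872900) (nat_lit 0x0)
  (PL.C (nat_lit 0x3e9b3e) (nat_lit 0x0) (nat_lit 0x8c0bda4c0500)
  (PL.C (nat_lit 0x3eadbc) (nat_lit 0x0) (nat_lit 0x3c0a0e4ae1c00)
  (PL.C (nat_lit 0x3eb1fd) (nat_lit 0x0) (nat_lit 0x2650a02df26a40)
  (PL.C (nat_lit 0x3edf45) (nat_lit 0x0) (nat_lit 0x181b21f5f1f00)
  (PL.C (nat_lit 0x3f0f42) (nat_lit 0x0) (nat_lit 0x1f95920596e00)
  (PL.C (nat_lit 0x3f358b) (nat_lit 0x4d47661fb2100) (nat_lit 0x0) lm_54))))))))))))))))))))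

noncomputable def lm_52 : PL :=
  (PL.C (nat_lit 0x3b3f91) (nat_lit 0x49b64b140a00) (nat_lit 0x0)
  (PL.C (nat_lit 0x3b5416) (nat_lit 0xa30d82385a1c0) (nat_lit 0x0)
  (PL.C (nat_lit 0x3b586c) (nat_lit 0x1387169d2c80) (nat_lit 0x0)
  (PL.C (nat_lit 0x3b70ed) (nat_lit 0x0) (nat_lit 0x95ab95c98c00)
  (PL.C (nat_lit 0x3ba3b0) (nat_lit 0x0) (nat_lit 0xfbaf74fae400)
  (PL.C (nat_lit 0x3bdb34) (nat_lit 0x0) (nat_lit 0x153c54327d00)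
  (PL.C (nat_lit 0x3bf3eb) (nat_lit 0x0) (nat_lit 0x95ab95c98c00)
  (PL.C (nat_lit 0x3bf4a2) (nat_lit 0x1734340d77dd00) (nat_lit 0x0)
  (PL.C (nat_lit 0x3c1c3e) (nat_lit 0x12ed92749900) (nat_lit 0x0)
  (PL.C (nat_lit 0x3c327c) (nat_lit 0x33a73c5f756180) (nat_lit 0x0)
  (PL.C (nat_lit 0x3c44eb) (nat_lit 0x0) (nat_lit 0x5cb6c86f5a00)
  (PL.C (nat_lit 0x3c6315) (nat_lit 0xc68b79ed3cb40) (nat_lit 0x0)
  (PL.C (nat_lit 0x3c6588) (nat_lit 0x0) (nat_lit 0x2867998a4c00)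
  (PL.C (nat_lit 0x3c80dc) (nat_lit 0xd8c0542a97f00) (nat_lit 0x0)
  (PL.C (nat_lit 0x3c9363) (nat_lit 0x49b64b140a00) (nat_lit 0x0)
  (PL.C (nat_lit 0x3c9f24) (nat_lit 0x0) (nat_lit 0x3702f8e59bec0)
  (PL.C (nat_lit 0x3cbe64) (nat_lit 0x293135388d780) (nat_lit 0x0)
  (PL.C (nat_lit 0x3cc29a) (nat_lit 0x0) (nat_lit 0x2a364e7fd6dc00)
  (PL.C (nat_lit 0x3cff08) (nat_lit 0x0) (nat_lit 0x219463197c0600)
  (PL.C (nat_lit 0x3d24bc) (nat_lit 0x0) (nat_lit 0x7d6a433ec3000) lm_53))))))))))))))))))))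

noncomputable def lm_51 : PL :=
  (PL.C (nat_lit 0x3946e6) (nat_lit 0x0) (nat_lit 0x8c0bda4c0500)
  (PL.C (nat_lit 0x394f44) (nat_lit 0x0) (nat_lit 0x2e885a3b07c00)
  (PL.C (nat_lit 0x395da5) (nat_lit 0x25d2e7d8a22e80) (nat_lit 0x0)
  (PL.C (nat_lit 0x3969b8) (nat_lit 0x239f52e74c2a00) (nat_lit 0x0)
  (PL.C (nat_lit 0x397a5b) (nat_lit 0x5fdcde3fb180) (nat_lit 0x0)
  (PL.C (nat_lit 0x3980ac) (nat_lit 0x0) (nat_lit 0x118198e5133b00)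
  (PL.C (nat_lit 0x39838b) (nat_lit 0x11cfcbbddc40) (nat_lit 0x0)
  (PL.C (nat_lit 0x399b2b) (nat_lit 0xc8925f8161580) (nat_lit 0x0)
  (PL.C (nat_lit 0x39b478) (nat_lit 0x166763b1df600) (nat_lit 0x0)
  (PL.C (nat_lit 0x39d546) (nat_lit 0x0) (nat_lit 0x93b61be757880)
  (PL.C (nat_lit 0x3a06d0) (nat_lit 0xfbaf74fae400) (nat_lit 0x0)
  (PL.C (nat_lit 0x3a43be) (nat_lit 0x26166c2f552080) (nat_lit 0x0)
  (PL.C (nat_lit 0x3a48aa) (nat_lit 0x19b94f7609e00) (nat_lit 0x0)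
  (PL.C (nat_lit 0x3a8374) (nat_lit 0x15e98128d4a00) (nat_lit 0x0)
  (PL.C (nat_lit 0x3a86b0) (nat_lit 0x1c5d788f08800) (nat_lit 0x0)
  (PL.C (nat_lit 0x3a9977) (nat_lit 0x561bceec9eafc0) (nat_lit 0x0)
  (PL.C (nat_lit 0x3ab7c2) (nat_lit 0x0) (nat_lit 0x4bd9d1615c2440)
  (PL.C (nat_lit 0x3ac648) (nat_lit 0x79002e21657c0) (nat_lit 0x0)
  (PL.C (nat_lit 0x3af228) (nat_lit 0x0) (nat_lit 0x4ac3de9cf7380)
  (PL.C (nat_lit 0x3b0b8c) (nat_lit 0x0) (nat_lit 0x3e609e09c1700) lm_52))))))))))))))))))))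

noncomputable def lm_50 : PL :=
  (PL.C (nat_lit 0x3738e4) (nat_lit 0x0) (nat_lit 0x2676f565b5c00)
  (PL.C (nat_lit 0x3749cd) (nat_lit 0x0) (nat_lit 0xedc91f052400)
  (PL.C (nat_lit 0x37505a) (nat_lit 0x0) (nat_lit 0x83383636348140)
  (PL.C (nat_lit 0x376fd0) (nat_lit 0x50a5352b7b600) (nat_lit 0x0)
  (PL.C (nat_lit 0x3791dc) (nat_lit 0x3b4fcfc3c1c00) (nat_lit 0x0)
  (PL.C (nat_lit 0x37ab77) (nat_lit 0x0) (nat_lit 0xc39a28fc400)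
  (PL.C (nat_lit 0x37b93c) (nat_lit 0xee7f67707300) (nat_lit 0x0)
  (PL.C (nat_lit 0x37e128) (nat_lit 0x1ebe498cd1a80) (nat_lit 0x0)
  (PL.C (nat_lit 0x37e39e) (nat_lit 0x0) (nat_lit 0xe00e9951cb00)
  (PL.C (nat_lit 0x37fec9) (nat_lit 0x0) (nat_lit 0x85625ce7257c0)
  (PL.C (nat_lit 0x38174c) (nat_lit 0x0) (nat_lit 0x13c6dfe0455c00)
  (PL.C (nat_lit 0x382e75) (nat_lit 0x0) (nat_lit 0x13e1cd41c21c40)
  (PL.C (nat_lit 0x385374) (nat_lit 0x0) (nat_lit 0xec16d37216280)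
  (PL.C (nat_lit 0x387a2f) (nat_lit 0x0) (nat_lit 0x8f5e1ca675e80)
  (PL.C (nat_lit 0x38a76e) (nat_lit 0x2719932c000) (nat_lit 0x0)
  (PL.C (nat_lit 0x38f848) (nat_lit 0x95e5cce06b480) (nat_lit 0x0)
  (PL.C (nat_lit 0x38fd18) (nat_lit 0x3b3e9746a300) (nat_lit 0x0)
  (PL.C (nat_lit 0x3909ba) (nat_lit 0x1a94a2ce50800) (nat_lit 0x0)
  (PL.C (nat_lit 0x39167d) (nat_lit 0x169a6cb9a97b40) (nat_lit 0x0)
  (PL.C (nat_lit 0x392646) (nat_lit 0xeb2a25113b00) (nat_lit 0x0) lm_51))))))))))))))))))))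

noncomputable def lm_49 : PL :=
  (PL.C (nat_lit 0x348fdc) (nat_lit 0x432e4bc600720) (nat_lit 0x0)
  (PL.C (nat_lit 0x34ab08) (nat_lit 0x0) (nat_lit 0x6133ad2fc7800)
  (PL.C (nat_lit 0x34b9f8) (nat_lit 0x6e5b5cb58800) (nat_lit 0x0)
  (PL.C (nat_lit 0x34ecb1) (nat_lit 0xed04224679bd00) (nat_lit 0x0)
  (PL.C (nat_lit 0x34f630) (nat_lit 0x7a2d12a136000) (nat_lit 0x0)
  (PL.C (nat_lit 0x352154) (nat_lit 0x0) (nat_lit 0x25ccb96ccd11e0)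
  (PL.C (nat_lit 0x353199) (nat_lit 0x3c30282f86600) (nat_lit 0x0)
  (PL.C (nat_lit 0x35c158) (nat_lit 0x7a3f3a9698320) (nat_lit 0x0)
  (PL.C (nat_lit 0x35ca88) (nat_lit 0x1b894e2dcd300) (nat_lit 0x0)
  (PL.C (nat_lit 0x35d1ce) (nat_lit 0x965c3e520400) (nat_lit 0x0)
  (PL.C (nat_lit 0x3606f6) (nat_lit 0x0) (nat_lit 0x851a09e661280)
  (PL.C (nat_lit 0x362a54) (nat_lit 0x22b0f0eaa5100) (nat_lit 0x0)
  (PL.C (nat_lit 0x365673) (nat_lit 0x3321b78c76c080) (nat_lit 0x0)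
  (PL.C (nat_lit 0x365c18) (nat_lit 0x95e5cce06b480) (nat_lit 0x0)
  (PL.C (nat_lit 0x366ec4) (nat_lit 0x0) (nat_lit 0x83c334c2c100)
  (PL.C (nat_lit 0x36728a) (nat_lit 0x0) (nat_lit 0x6b79977b0a300)
  (PL.C (nat_lit 0x36c03c) (nat_lit 0x0) (nat_lit 0x2676f565b5c00)
  (PL.C (nat_lit 0x36f6b0) (nat_lit 0x50a5352b7b600) (nat_lit 0x0)
  (PL.C (nat_lit 0x36fa1a) (nat_lit 0xbb3dff48df480) (nat_lit 0x0)
  (PL.C (nat_lit 0x36ffd0) (nat_lit 0x0) (nat_lit 0x18c3b082a000) lm_50))))))))))))))))))))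

noncomputable def lm_48 : PL :=
  (PL.C (nat_lit 0x334a82) (nat_lit 0x180d1955bbc400) (nat_lit 0x0)
  (PL.C (nat_lit 0x3352ac) (nat_lit 0x71d696595180) (nat_lit 0x0)
  (PL.C (nat_lit 0x335824) (nat_lit 0x0) (nat_lit 0x5b317aab25c80)
  (PL.C (nat_lit 0x3367dd) (nat_lit 0x15b5f727e9e00) (nat_lit 0x0)
  (PL.C (nat_lit 0x337494) (nat_lit 0x25629027a9080) (nat_lit 0x0)
  (PL.C (nat_lit 0x3389d3) (nat_lit 0x88aa32d333c0) (nat_lit 0x0)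
  (PL.C (nat_lit 0x338b9e) (nat_lit 0x14b9028b2a200) (nat_lit 0x0)
  (PL.C (nat_lit 0x33bf9c) (nat_lit 0x0) (nat_lit 0x24798c0db2f0c0)
  (PL.C (nat_lit 0x33d0c8) (nat_lit 0x9e3607c7f700) (nat_lit 0x0)
  (PL.C (nat_lit 0x33e4fc) (nat_lit 0x1acd9160ad500) (nat_lit 0x0)
  (PL.C (nat_lit 0x3402fc) (nat_lit 0x0) (nat_lit 0x2b44b1d3055380)
  (PL.C (nat_lit 0x340c98) (nat_lit 0x5ead339722c00) (nat_lit 0x0)
  (PL.C (nat_lit 0x341d04) (nat_lit 0x432e4bc600720) (nat_lit 0x0)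
  (PL.C (nat_lit 0x342088) (nat_lit 0x2c83ac4580b00) (nat_lit 0x0)
  (PL.C (nat_lit 0x34360e) (nat_lit 0x0) (nat_lit 0x6348597d4100)
  (PL.C (nat_lit 0x343ac4) (nat_lit 0x48128cb42f300) (nat_lit 0x0)
  (PL.C (nat_lit 0x3442f8) (nat_lit 0x5a1468ab5280) (nat_lit 0x0)
  (PL.C (nat_lit 0x34592c) (nat_lit 0x0) (nat_lit 0x13c6dfe0455c00)
  (PL.C (nat_lit 0x34714b) (nat_lit 0x0) (nat_lit 0x99f1d6fef080)
  (PL.C (nat_lit 0x3482df) (nat_lit 0x0) (nat_lit 0x1ea19e1b13640) lm_49))))))))))))))))))))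

noncomputable def lm_47 : PL :=
  (PL.C (nat_lit 0x306cf9) (nat_lit 0xef7f1ea9e2180) (nat_lit 0x0)
  (PL.C (nat_lit 0x307ed5) (nat_lit 0x0) (nat_lit 0xedc91f052400)
  (PL.C (nat_lit 0x308cf7) (nat_lit 0xbcd7059a53640) (nat_lit 0x0)
  (PL.C (nat_lit 0x309eee) (nat_lit 0x180d1955bbc400) (nat_lit 0x0)
  (PL.C (nat_lit 0x311355) (nat_lit 0x3aec40e4605a80) (nat_lit 0x0)
  (PL.C (nat_lit 0x312f36) (nat_lit 0x0) (nat_lit 0x57300da191380)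
  (PL.C (nat_lit 0x314424) (nat_lit 0x66968dde42680) (nat_lit 0x0)
  (PL.C (nat_lit 0x315a30) (nat_lit 0x0) (nat_lit 0xfbaf74fae400)
  (PL.C (nat_lit 0x317793) (nat_lit 0x337d76bf19de80) (nat_lit 0x0)
  (PL.C (nat_lit 0x319d68) (nat_lit 0x0) (nat_lit 0xbae2587fb2780)
  (PL.C (nat_lit 0x32164e) (nat_lit 0x5ffe47b55dec0) (nat_lit 0x0)
  (PL.C (nat_lit 0x3226b8) (nat_lit 0x11ebe5db3a340) (nat_lit 0x0)
  (PL.C (nat_lit 0x32436c) (nat_lit 0x3b4fcfc3c1c00) (nat_lit 0x0)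
  (PL.C (nat_lit 0x32582d) (nat_lit 0xbbae696c0b00) (nat_lit 0x0)
  (PL.C (nat_lit 0x325c94) (nat_lit 0x0) (nat_lit 0xb42668183d80)
  (PL.C (nat_lit 0x327954) (nat_lit 0x0) (nat_lit 0x1387169d2c80)
  (PL.C (nat_lit 0x3285d0) (nat_lit 0x3f0a9fcfa380) (nat_lit 0x0)
  (PL.C (nat_lit 0x32eec9) (nat_lit 0x0) (nat_lit 0x653da65cf3c0)
  (PL.C (nat_lit 0x330d08) (nat_lit 0x166763b1df600) (nat_lit 0x0)
  (PL.C (nat_lit 0x3346f4) (nat_lit 0x0) (nat_lit 0xe96386e5c80) lm_48))))))))))))))))))))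

noncomputable def lm_46 : PL :=
  (PL.C (nat_lit 0x2e0284) (nat_lit 0x15dbf75aad00) (nat_lit 0x0)
  (PL.C (nat_lit 0x2e5f3c) (nat_lit 0x186bbd2ab1b500) (nat_lit 0x0)
  (PL.C (nat_lit 0x2e71c6) (nat_lit 0x0) (nat_lit 0xc6686afd0fe00)
  (PL.C (nat_lit 0x2e9b9c) (nat_lit 0x0) (nat_lit 0x28c36acfa980)
  (PL.C (nat_lit 0x2ea168) (nat_lit 0x0) (nat_lit 0xbae2587fb2780)
  (PL.C (nat_lit 0x2eb61b) (nat_lit 0x473e7f3b900700) (nat_lit 0x0)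
  (PL.C (nat_lit 0x2f1438) (nat_lit 0x1e1fef4528c400) (nat_lit 0x0)
  (PL.C (nat_lit 0x2f2bc8) (nat_lit 0x16531cb752e80) (nat_lit 0x0)
  (PL.C (nat_lit 0x2f42ca) (nat_lit 0x6fbe86b554a00) (nat_lit 0x0)
  (PL.C (nat_lit 0x2f4912) (nat_lit 0x2719932c000) (nat_lit 0x0)
  (PL.C (nat_lit 0x2f597c) (nat_lit 0x0) (nat_lit 0x2b06a347ce6c80)
  (PL.C (nat_lit 0x2f6d09) (nat_lit 0x5e8d704fa8d580) (nat_lit 0x0)
  (PL.C (nat_lit 0x2f78c4) (nat_lit 0x190e2886103440) (nat_lit 0x0)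
  (PL.C (nat_lit 0x2f8c44) (nat_lit 0xdd7267412d980) (nat_lit 0x0)
  (PL.C (nat_lit 0x2f9c34) (nat_lit 0x963d1e4162880) (nat_lit 0x0)
  (PL.C (nat_lit 0x2fb0b6) (nat_lit 0x12ed92749900) (nat_lit 0x0)
  (PL.C (nat_lit 0x301768) (nat_lit 0x0) (nat_lit 0x138ade59265680)
  (PL.C (nat_lit 0x301b78) (nat_lit 0x3b3e9746a300) (nat_lit 0x0)
  (PL.C (nat_lit 0x302622) (nat_lit 0x1a94a2ce50800) (nat_lit 0x0)
  (PL.C (nat_lit 0x302b98) (nat_lit 0x0) (nat_lit 0x5a1468ab5280) lm_47))))))))))))))))))))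

noncomputable def lm_45 : PL :=
  (PL.C (nat_lit 0x2baf0c) (nat_lit 0xfff3e6f2f0ac80) (nat_lit 0x0)
  (PL.C (nat_lit 0x2bbfba) (nat_lit 0x7a5b135d53c00) (nat_lit 0x0)
  (PL.C (nat_lit 0x2be2c8) (nat_lit 0xa63703b94e80) (nat_lit 0x0)
  (PL.C (nat_lit 0x2be7ec) (nat_lit 0x229a4734eb6580) (nat_lit 0x0)
  (PL.C (nat_lit 0x2bfa0d) (nat_lit 0x57a21bf7a3540) (nat_lit 0x0)
  (PL.C (nat_lit 0x2c38ce) (nat_lit 0x0) (nat_lit 0xb933e5c2fd800)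
  (PL.C (nat_lit 0x2c6bda) (nat_lit 0x0) (nat_lit 0x3b4804164d2400)
  (PL.C (nat_lit 0x2c6c28) (nat_lit 0x0) (nat_lit 0x15f2c98eae00)
  (PL.C (nat_lit 0x2c7cde) (nat_lit 0x0) (nat_lit 0x155d26a208580)
  (PL.C (nat_lit 0x2c9322) (nat_lit 0x0) (nat_lit 0x1c85346b8fd40)
  (PL.C (nat_lit 0x2c9808) (nat_lit 0xc3f2f7f2de980) (nat_lit 0x0)
  (PL.C (nat_lit 0x2c9a42) (nat_lit 0x0) (nat_lit 0x138ca34c6d5d00)
  (PL.C (nat_lit 0x2cad35) (nat_lit 0xed04224679bd00) (nat_lit 0x0)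
  (PL.C (nat_lit 0x2cd9a4) (nat_lit 0x0) (nat_lit 0x25ccb96ccd11e0)
  (PL.C (nat_lit 0x2ce21e) (nat_lit 0x77dcf48c8400) (nat_lit 0x0)
  (PL.C (nat_lit 0x2ced38) (nat_lit 0x454ef1ae0800) (nat_lit 0x0)
  (PL.C (nat_lit 0x2d2427) (nat_lit 0x22103993028b00) (nat_lit 0x0)
  (PL.C (nat_lit 0x2d60b8) (nat_lit 0x0) (nat_lit 0x5faf7f1a4e360)
  (PL.C (nat_lit 0x2d71ca) (nat_lit 0x5acc4e0985380) (nat_lit 0x0)
  (PL.C (nat_lit 0x2dc24f) (nat_lit 0x940fe7a8800) (nat_lit 0x0) lm_46))))))))))))))))))))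

noncomputable def lm_44 : PL :=
  (PL.C (nat_lit 0x29ea2e) (nat_lit 0x0) (nat_lit 0x28e8154c36c00)
  (PL.C (nat_lit 0x2a0a2c) (nat_lit 0x0) (nat_lit 0x2703e0629c00)
  (PL.C (nat_lit 0x2a1d8b) (nat_lit 0x236c8c764000) (nat_lit 0x0)
  (PL.C (nat_lit 0x2a23b2) (nat_lit 0x0) (nat_lit 0x31a5234fc0500)
  (PL.C (nat_lit 0x2a4806) (nat_lit 0xf89fa1d830940) (nat_lit 0x0)
  (PL.C (nat_lit 0x2a5a04) (nat_lit 0x7610bc3bf4000) (nat_lit 0x0)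
  (PL.C (nat_lit 0x2a6e1c) (nat_lit 0x91d43ed3a500) (nat_lit 0x0)
  (PL.C (nat_lit 0x2a7fa1) (nat_lit 0xbbae696c0b00) (nat_lit 0x0)
  (PL.C (nat_lit 0x2a8a24) (nat_lit 0x0) (nat_lit 0x1546a10a3a00)
  (PL.C (nat_lit 0x2a9558) (nat_lit 0x5ead339722c00) (nat_lit 0x0)
  (PL.C (nat_lit 0x2aa29c) (nat_lit 0x48128cb42f300) (nat_lit 0x0)
  (PL.C (nat_lit 0x2aaaa8) (nat_lit 0xb33c9f3dd800) (nat_lit 0x0)
  (PL.C (nat_lit 0x2abc46) (nat_lit 0x1d11c2cd0e600) (nat_lit 0x0)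
  (PL.C (nat_lit 0x2ac6d8) (nat_lit 0x1472768ccbf00) (nat_lit 0x0)
  (PL.C (nat_lit 0x2b1c30) (nat_lit 0x0) (nat_lit 0x1f03b26465980)
  (PL.C (nat_lit 0x2b57b4) (nat_lit 0x0) (nat_lit 0x5efd771c11680)
  (PL.C (nat_lit 0x2b7fc8) (nat_lit 0x0) (nat_lit 0xf039ea6d74e00)
  (PL.C (nat_lit 0x2b8d1a) (nat_lit 0x0) (nat_lit 0x1f95920596e00)
  (PL.C (nat_lit 0x2b91be) (nat_lit 0x0) (nat_lit 0x6b79977b0a300)
  (PL.C (nat_lit 0x2ba2e6) (nat_lit 0x26373d310700) (nat_lit 0x0) lm_45))))))))))))))))))))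

noncomputable def lm_43 : PL :=
  (PL.C (nat_lit 0x2855e8) (nat_lit 0xc3f2f7f2de980) (nat_lit 0x0)
  (PL.C (nat_lit 0x286242) (nat_lit 0x8e7d737ec500) (nat_lit 0x0)
  (PL.C (nat_lit 0x286a18) (nat_lit 0x0) (nat_lit 0x71294bb3b880)
  (PL.C (nat_lit 0x2881bc) (nat_lit 0x0) (nat_lit 0x324245a83205c0)
  (PL.C (nat_lit 0x28c328) (nat_lit 0x0) (nat_lit 0xcfc99a8dd180)
  (PL.C (nat_lit 0x28e3d0) (nat_lit 0x3f0a9fcfa380) (nat_lit 0x0)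
  (PL.C (nat_lit 0x28ed94) (nat_lit 0x7110c59080160) (nat_lit 0x0)
  (PL.C (nat_lit 0x290b26) (nat_lit 0x0) (nat_lit 0x2a364e7fd6dc00)
  (PL.C (nat_lit 0x292df4) (nat_lit 0x0) (nat_lit 0x3c4a816cd600)
  (PL.C (nat_lit 0x2933f8) (nat_lit 0x0) (nat_lit 0x219463197c0600)
  (PL.C (nat_lit 0x294096) (nat_lit 0x0) (nat_lit 0x851a09e661280)
  (PL.C (nat_lit 0x2968d8) (nat_lit 0x0) (nat_lit 0x454ef1ae0800)
  (PL.C (nat_lit 0x296a8a) (nat_lit 0xf7def26c8a80) (nat_lit 0x0)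
  (PL.C (nat_lit 0x296d69) (nat_lit 0x8f85420ce2780) (nat_lit 0x0)
  (PL.C (nat_lit 0x298ddc) (nat_lit 0x1208a1569af300) (nat_lit 0x0)
  (PL.C (nat_lit 0x29b010) (nat_lit 0x0) (nat_lit 0x1f03b26465980)
  (PL.C (nat_lit 0x29b730) (nat_lit 0x32a910ac30f00) (nat_lit 0x0)
  (PL.C (nat_lit 0x29bcd4) (nat_lit 0xf746ea209800) (nat_lit 0x0)
  (PL.C (nat_lit 0x29c928) (nat_lit 0x0) (nat_lit 0x6133ad2fc7800)
  (PL.C (nat_lit 0x29cbfe) (nat_lit 0x0) (nat_lit 0x3088be83412580) lm_44))))))))))))))))))))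

noncomputable def lm_42 : PL :=
  (PL.C (nat_lit 0x26db1c) (nat_lit 0x26045fce99e00) (nat_lit 0x0)
  (PL.C (nat_lit 0x26e3b9) (nat_lit 0xfa35cd7ed8c80) (nat_lit 0x0)
  (PL.C (nat_lit 0x2710fa) (nat_lit 0x0) (nat_lit 0x93b61be757880)
  (PL.C (nat_lit 0x27252c) (nat_lit 0x186bbd2ab1b500) (nat_lit 0x0)
  (PL.C (nat_lit 0x275d08) (nat_lit 0x79002e21657c0) (nat_lit 0x0)
  (PL.C (nat_lit 0x2761a7) (nat_lit 0x0) (nat_lit 0x707dac58be80)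
  (PL.C (nat_lit 0x277fb6) (nat_lit 0x8e7d737ec500) (nat_lit 0x0)
  (PL.C (nat_lit 0x278d64) (nat_lit 0x13aa14ce4d3280) (nat_lit 0x0)
  (PL.C (nat_lit 0x279048) (nat_lit 0x5a1468ab5280) (nat_lit 0x0)
  (PL.C (nat_lit 0x27a09e) (nat_lit 0x0) (nat_lit 0x11a894dcaca00)
  (PL.C (nat_lit 0x27b9d3) (nat_lit 0x3c30282f86600) (nat_lit 0x0)
  (PL.C (nat_lit 0x27e778) (nat_lit 0x9e3607c7f700) (nat_lit 0x0)
  (PL.C (nat_lit 0x27f7f2) (nat_lit 0x0) (nat_lit 0x11a894dcaca00)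
  (PL.C (nat_lit 0x27f86c) (nat_lit 0x89bbb4a503f80) (nat_lit 0x0)
  (PL.C (nat_lit 0x2808ed) (nat_lit 0x0) (nat_lit 0x13e1cd41c21c40)
  (PL.C (nat_lit 0x2812d4) (nat_lit 0x0) (nat_lit 0x1477d3ab664440)
  (PL.C (nat_lit 0x2821a8) (nat_lit 0x11ebe5db3a340) (nat_lit 0x0)
  (PL.C (nat_lit 0x282df2) (nat_lit 0x0) (nat_lit 0x3b4804164d2400)
  (PL.C (nat_lit 0x28420e) (nat_lit 0x1a1fae86a2ae40) (nat_lit 0x0)
  (PL.C (nat_lit 0x2843b0) (nat_lit 0x0) (nat_lit 0x18c3b082a000) lm_43))))))))))))))))))))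

noncomputable def lm_41 : PL :=
  (PL.C (nat_lit 0x251cfa) (nat_lit 0x0) (nat_lit 0x26373d310700)
  (PL.C (nat_lit 0x252628) (nat_lit 0x6e5b5cb58800) (nat_lit 0x0)
  (PL.C (nat_lit 0x255486) (nat_lit 0x0) (nat_lit 0x138ca34c6d5d00)
  (PL.C (nat_lit 0x25744e) (nat_lit 0x0) (nat_lit 0x2c652ac864d500)
  (PL.C (nat_lit 0x258cf8) (nat_lit 0x0) (nat_lit 0x5faf7f1a4e360)
  (PL.C (nat_lit 0x25a6ca) (nat_lit 0x0) (nat_lit 0xb933e5c2fd800)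
  (PL.C (nat_lit 0x25b6c9) (nat_lit 0x0) (nat_lit 0x2650a02df26a40)
  (PL.C (nat_lit 0x25c4f4) (nat_lit 0x0) (nat_lit 0x5a77689800)
  (PL.C (nat_lit 0x25fe10) (nat_lit 0x484e3c235f00) (nat_lit 0x0)
  (PL.C (nat_lit 0x26067c) (nat_lit 0x50f6d94ca6000) (nat_lit 0x0)
  (PL.C (nat_lit 0x260efe) (nat_lit 0x0) (nat_lit 0x1b995c98ffe5c0)
  (PL.C (nat_lit 0x261984) (nat_lit 0x25629027a9080) (nat_lit 0x0)
  (PL.C (nat_lit 0x262f44) (nat_lit 0xf746ea209800) (nat_lit 0x0)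
  (PL.C (nat_lit 0x2634d8) (nat_lit 0x10547120b83800) (nat_lit 0x0)
  (PL.C (nat_lit 0x263e6e) (nat_lit 0xf89fa1d830940) (nat_lit 0x0)
  (PL.C (nat_lit 0x2655c8) (nat_lit 0x0) (nat_lit 0x23db9539a2d00)
  (PL.C (nat_lit 0x2657b2) (nat_lit 0x0) (nat_lit 0x1cfefd36dea40)
  (PL.C (nat_lit 0x266772) (nat_lit 0xbb3dff48df480) (nat_lit 0x0)
  (PL.C (nat_lit 0x267850) (nat_lit 0xca2813f5a400) (nat_lit 0x0)
  (PL.C (nat_lit 0x26d7d4) (nat_lit 0x229a4734eb6580) (nat_lit 0x0) lm_42))))))))))))))))))))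

noncomputable def lm_40 : PL :=
  (PL.C (nat_lit 0x22d750) (nat_lit 0x3f0a9fcfa380) (nat_lit 0x0)
  (PL.C (nat_lit 0x22f632) (nat_lit 0x0) (nat_lit 0x8dc75fb36280)
  (PL.C (nat_lit 0x2301ea) (nat_lit 0x0) (nat_lit 0x23b48d6fecc00)
  (PL.C (nat_lit 0x231cb0) (nat_lit 0x0) (nat_lit 0x2c868e8309000)
  (PL.C (nat_lit 0x232503) (nat_lit 0x0) (nat_lit 0x181b21f5f1f00)
  (PL.C (nat_lit 0x234876) (nat_lit 0x0) (nat_lit 0xc7bcfc061180)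
  (PL.C (nat_lit 0x237666) (nat_lit 0x8483949e91100) (nat_lit 0x0)
  (PL.C (nat_lit 0x23e0f5) (nat_lit 0x77bb77bbd8480) (nat_lit 0x0)
  (PL.C (nat_lit 0x23e134) (nat_lit 0xe171b8ecca00) (nat_lit 0x0)
  (PL.C (nat_lit 0x2404a4) (nat_lit 0x0) (nat_lit 0x4fb5acc659380)
  (PL.C (nat_lit 0x241c38) (nat_lit 0x1472768ccbf00) (nat_lit 0x0)
  (PL.C (nat_lit 0x2439a2) (nat_lit 0x0) (nat_lit 0x3434ff061c8e00)
  (PL.C (nat_lit 0x2449d8) (nat_lit 0x0) (nat_lit 0xb33c9f3dd800)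
  (PL.C (nat_lit 0x244c5c) (nat_lit 0x6128c809fd600) (nat_lit 0x0)
  (PL.C (nat_lit 0x248028) (nat_lit 0x4dc820611fd00) (nat_lit 0x0)
  (PL.C (nat_lit 0x24a6bc) (nat_lit 0x14ead557091600) (nat_lit 0x0)
  (PL.C (nat_lit 0x24d098) (nat_lit 0x4dc820611fd00) (nat_lit 0x0)
  (PL.C (nat_lit 0x24dbde) (nat_lit 0x0) (nat_lit 0x1f541c8165200)
  (PL.C (nat_lit 0x24e03c) (nat_lit 0x0) (nat_lit 0x24798c0db2f0c0)
  (PL.C (nat_lit 0x250be8) (nat_lit 0x17004162ae280) (nat_lit 0x0) lm_41))))))))))))))))))))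

noncomputable def lm_39 : PL :=
  (PL.C (nat_lit 0x21268b) (nat_lit 0x8f85420ce2780) (nat_lit 0x0)
  (PL.C (nat_lit 0x216434) (nat_lit 0x0) (nat_lit 0x26a01ca56c9430)
  (PL.C (nat_lit 0x218248) (nat_lit 0x17004162ae280) (nat_lit 0x0)
  (PL.C (nat_lit 0x21901e) (nat_lit 0x18db84cc9b100) (nat_lit 0x0)
  (PL.C (nat_lit 0x21a638) (nat_lit 0x0) (nat_lit 0x5a1468ab5280)
  (PL.C (nat_lit 0x21daaf) (nat_lit 0x0) (nat_lit 0x41398c224f00)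
  (PL.C (nat_lit 0x21f486) (nat_lit 0x0) (nat_lit 0x126ab66806400)
  (PL.C (nat_lit 0x2208b0) (nat_lit 0xca2813f5a400) (nat_lit 0x0)
  (PL.C (nat_lit 0x22267b) (nat_lit 0x166244fda1fbc0) (nat_lit 0x0)
  (PL.C (nat_lit 0x2231ac) (nat_lit 0x146ba866ec3900) (nat_lit 0x0)
  (PL.C (nat_lit 0x22453e) (nat_lit 0x77dcf48c8400) (nat_lit 0x0)
  (PL.C (nat_lit 0x224db8) (nat_lit 0x21ff201852900) (nat_lit 0x0)
  (PL.C (nat_lit 0x225be2) (nat_lit 0x1bd07a4d26800) (nat_lit 0x0)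
  (PL.C (nat_lit 0x225d14) (nat_lit 0x1acd9160ad500) (nat_lit 0x0)
  (PL.C (nat_lit 0x228b30) (nat_lit 0xb4b7a3377700) (nat_lit 0x0)
  (PL.C (nat_lit 0x2298a8) (nat_lit 0x2f2a6c0e2c000) (nat_lit 0x0)
  (PL.C (nat_lit 0x22aca8) (nat_lit 0x0) (nat_lit 0x875aa19fb09a0)
  (PL.C (nat_lit 0x22b310) (nat_lit 0x2afa537adf000) (nat_lit 0x0)
  (PL.C (nat_lit 0x22ceb4) (nat_lit 0x0) (nat_lit 0x28c36acfa980)
  (PL.C (nat_lit 0x22d1d8) (nat_lit 0x26cc50f7b5780) (nat_lit 0x0) lm_40))))))))))))))))))))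

noncomputable def lm_38 : PL :=
  (PL.C (nat_lit 0x1fa5d8) (nat_lit 0x1579210a7600c0) (nat_lit 0x0)
  (PL.C (nat_lit 0x1fb2d8) (nat_lit 0x7a3f3a9698320) (nat_lit 0x0)
  (PL.C (nat_lit 0x1fbd78) (nat_lit 0x0) (nat_lit 0xe0468e5a62380)
  (PL.C (nat_lit 0x1fcb24) (nat_lit 0x0) (nat_lit 0x1477d3ab664440)
  (PL.C (nat_lit 0x201250) (nat_lit 0x484e3c235f00) (nat_lit 0x0)
  (PL.C (nat_lit 0x20196c) (nat_lit 0x50f6d94ca6000) (nat_lit 0x0)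
  (PL.C (nat_lit 0x201d10) (nat_lit 0x0) (nat_lit 0x3f0a9fcfa380)
  (PL.C (nat_lit 0x2026ad) (nat_lit 0x0) (nat_lit 0xeb8a1f63ac00)
  (PL.C (nat_lit 0x203d75) (nat_lit 0x940fe7a8800) (nat_lit 0x0)
  (PL.C (nat_lit 0x2048a6) (nat_lit 0x5ffe47b55dec0) (nat_lit 0x0)
  (PL.C (nat_lit 0x20548e) (nat_lit 0x0) (nat_lit 0x1f541c8165200)
  (PL.C (nat_lit 0x205dfa) (nat_lit 0x1581af8960d400) (nat_lit 0x0)
  (PL.C (nat_lit 0x2069f4) (nat_lit 0x146ba866ec3900) (nat_lit 0x0)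
  (PL.C (nat_lit 0x2073e1) (nat_lit 0x0) (nat_lit 0x660eecdc07100)
  (PL.C (nat_lit 0x20841f) (nat_lit 0xbcd7059a53640) (nat_lit 0x0)
  (PL.C (nat_lit 0x2096af) (nat_lit 0x0) (nat_lit 0x707dac58be80)
  (PL.C (nat_lit 0x20b78e) (nat_lit 0x70e8e62a87a40) (nat_lit 0x0)
  (PL.C (nat_lit 0x20ca24) (nat_lit 0x0) (nat_lit 0x2b44b1d3055380)
  (PL.C (nat_lit 0x20d818) (nat_lit 0x0) (nat_lit 0x8436e90bdcf00)
  (PL.C (nat_lit 0x20fa62) (nat_lit 0x11f59581ff7580) (nat_lit 0x0) lm_39))))))))))))))))))))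

noncomputable def lm_37 : PL :=
  (PL.C (nat_lit 0x1dbab0) (nat_lit 0xc0a3c3fe92780) (nat_lit 0x0)
  (PL.C (nat_lit 0x1dbc2c) (nat_lit 0x0) (nat_lit 0x1ffae84e5a0f40)
  (PL.C (nat_lit 0x1dc547) (nat_lit 0x0) (nat_lit 0x8bd629fa1f00)
  (PL.C (nat_lit 0x1dc8ce) (nat_lit 0x0) (nat_lit 0xc7bcfc061180)
  (PL.C (nat_lit 0x1dec14) (nat_lit 0x167a99b0a1d80) (nat_lit 0x0)
  (PL.C (nat_lit 0x1e26bb) (nat_lit 0x1d45830137a00) (nat_lit 0x0)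
  (PL.C (nat_lit 0x1e4989) (nat_lit 0x0) (nat_lit 0x660eecdc07100)
  (PL.C (nat_lit 0x1e4bdc) (nat_lit 0xda22156a96100) (nat_lit 0x0)
  (PL.C (nat_lit 0x1e5523) (nat_lit 0x0) (nat_lit 0x78e27bfdd6180)
  (PL.C (nat_lit 0x1e692d) (nat_lit 0x1d45830137a00) (nat_lit 0x0)
  (PL.C (nat_lit 0x1e818a) (nat_lit 0x14d1162d7c00) (nat_lit 0x0)
  (PL.C (nat_lit 0x1eac58) (nat_lit 0x1b894e2dcd300) (nat_lit 0x0)
  (PL.C (nat_lit 0x1ebd57) (nat_lit 0x0) (nat_lit 0x873642a160800)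
  (PL.C (nat_lit 0x1eea28) (nat_lit 0xec02c6e3fb4c0) (nat_lit 0x0)
  (PL.C (nat_lit 0x1ef684) (nat_lit 0x0) (nat_lit 0x303941f8f1d80)
  (PL.C (nat_lit 0x1efc21) (nat_lit 0x0) (nat_lit 0x16c132aea57900)
  (PL.C (nat_lit 0x1f1268) (nat_lit 0x44219f1ca480) (nat_lit 0x0)
  (PL.C (nat_lit 0x1f62d0) (nat_lit 0x11f82c3a700b00) (nat_lit 0x0)
  (PL.C (nat_lit 0x1f860c) (nat_lit 0x0) (nat_lit 0x5a77689800)
  (PL.C (nat_lit 0x1f9e06) (nat_lit 0x20e259c45a0e80) (nat_lit 0x0) lm_38))))))))))))))))))))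

noncomputable def lm_36 : PL :=
  (PL.C (nat_lit 0x1c6390) (nat_lit 0x2afa537adf000) (nat_lit 0x0)
  (PL.C (nat_lit 0x1c6c68) (nat_lit 0x26cc50f7b5780) (nat_lit 0x0)
  (PL.C (nat_lit 0x1c7d84) (nat_lit 0x0) (nat_lit 0x1546a10a3a00)
  (PL.C (nat_lit 0x1c7f73) (nat_lit 0x151605a3668400) (nat_lit 0x0)
  (PL.C (nat_lit 0x1c8490) (nat_lit 0xa68e584a5000) (nat_lit 0x0)
  (PL.C (nat_lit 0x1d08bc) (nat_lit 0x0) (nat_lit 0x2703e0629c00)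
  (PL.C (nat_lit 0x1d0bd4) (nat_lit 0x6128c809fd600) (nat_lit 0x0)
  (PL.C (nat_lit 0x1d14b9) (nat_lit 0x0) (nat_lit 0xeb8a1f63ac00)
  (PL.C (nat_lit 0x1d1744) (nat_lit 0x3a974c20a300) (nat_lit 0x0)
  (PL.C (nat_lit 0x1d2347) (nat_lit 0x88aa32d333c0) (nat_lit 0x0)
  (PL.C (nat_lit 0x1d2a7c) (nat_lit 0x9ba64d3c532c0) (nat_lit 0x0)
  (PL.C (nat_lit 0x1d4548) (nat_lit 0x11a70c5a5942e0) (nat_lit 0x0)
  (PL.C (nat_lit 0x1d515e) (nat_lit 0x0) (nat_lit 0x1292510ccb2d00)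
  (PL.C (nat_lit 0x1d7b34) (nat_lit 0x0) (nat_lit 0x86267b1f19b80)
  (PL.C (nat_lit 0x1d9d3c) (nat_lit 0x0) (nat_lit 0x200b4388f50b80)
  (PL.C (nat_lit 0x1d9d70) (nat_lit 0x36a263983000) (nat_lit 0x0)
  (PL.C (nat_lit 0x1da894) (nat_lit 0x0) (nat_lit 0x118198e5133b00)
  (PL.C (nat_lit 0x1db1a9) (nat_lit 0x0) (nat_lit 0x653da65cf3c0)
  (PL.C (nat_lit 0x1db4d3) (nat_lit 0x57a21bf7a3540) (nat_lit 0x0)
  (PL.C (nat_lit 0x1db76c) (nat_lit 0x31bce55586000) (nat_lit 0x0) lm_37))))))))))))))))))))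

noncomputable def lm_35 : PL :=
  (PL.C (nat_lit 0x1b72db) (nat_lit 0x11cfcbbddc40) (nat_lit 0x0)
  (PL.C (nat_lit 0x1b73f8) (nat_lit 0x0) (nat_lit 0x15f2c98eae00)
  (PL.C (nat_lit 0x1b8064) (nat_lit 0x0) (nat_lit 0x4fb5acc659380)
  (PL.C (nat_lit 0x1b8bbf) (nat_lit 0x4590e1b1a9600) (nat_lit 0x0)
  (PL.C (nat_lit 0x1b9c5c) (nat_lit 0x15e98128d4a00) (nat_lit 0x0)
  (PL.C (nat_lit 0x1b9e46) (nat_lit 0x12ea24af4f1e80) (nat_lit 0x0)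
  (PL.C (nat_lit 0x1bb3e8) (nat_lit 0x125bca9e32e200) (nat_lit 0x0)
  (PL.C (nat_lit 0x1bd338) (nat_lit 0x2622063044100) (nat_lit 0x0)
  (PL.C (nat_lit 0x1bdb70) (nat_lit 0x0) (nat_lit 0x2c868e8309000)
  (PL.C (nat_lit 0x1bdd54) (nat_lit 0x25e4f4f64306c0) (nat_lit 0x0)
  (PL.C (nat_lit 0x1bf174) (nat_lit 0x0) (nat_lit 0x5474461571b00)
  (PL.C (nat_lit 0x1bfbf7) (nat_lit 0x3aec40e4605a80) (nat_lit 0x0)
  (PL.C (nat_lit 0x1c06c8) (nat_lit 0x154c4350e2000) (nat_lit 0x0)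
  (PL.C (nat_lit 0x1c13b2) (nat_lit 0x965c3e520400) (nat_lit 0x0)
  (PL.C (nat_lit 0x1c17cc) (nat_lit 0x66968dde42680) (nat_lit 0x0)
  (PL.C (nat_lit 0x1c3004) (nat_lit 0x1f62d5ad5778d0) (nat_lit 0x0)
  (PL.C (nat_lit 0x1c3d01) (nat_lit 0x6aacd50084200) (nat_lit 0x0)
  (PL.C (nat_lit 0x1c4968) (nat_lit 0xa63703b94e80) (nat_lit 0x0)
  (PL.C (nat_lit 0x1c5516) (nat_lit 0x18db84cc9b100) (nat_lit 0x0)
  (PL.C (nat_lit 0x1c5c18) (nat_lit 0x0) (nat_lit 0x16ab6fe9cce00) lm_36))))))))))))))))))))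

noncomputable def lm_34 : PL :=
  (PL.C (nat_lit 0x1a18c8) (nat_lit 0xec02c6e3fb4c0) (nat_lit 0x0)
  (PL.C (nat_lit 0x1a2485) (nat_lit 0x0) (nat_lit 0x3a95007568340)
  (PL.C (nat_lit 0x1a411a) (nat_lit 0x0) (nat_lit 0x5aa81035c9700)
  (PL.C (nat_lit 0x1a5524) (nat_lit 0x0) (nat_lit 0xf7a161893000)
  (PL.C (nat_lit 0x1a6030) (nat_lit 0x3f0a9fcfa380) (nat_lit 0x0)
  (PL.C (nat_lit 0x1a6b14) (nat_lit 0x1eee84ba9c800) (nat_lit 0x0)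
  (PL.C (nat_lit 0x1a6cdf) (nat_lit 0x2527fd18aaf340) (nat_lit 0x0)
  (PL.C (nat_lit 0x1a7be2) (nat_lit 0x8483949e91100) (nat_lit 0x0)
  (PL.C (nat_lit 0x1a9a50) (nat_lit 0xb4b7a3377700) (nat_lit 0x0)
  (PL.C (nat_lit 0x1aa2d9) (nat_lit 0x473e7f3b900700) (nat_lit 0x0)
  (PL.C (nat_lit 0x1aa54c) (nat_lit 0x1eee84ba9c800) (nat_lit 0x0)
  (PL.C (nat_lit 0x1ab09e) (nat_lit 0x0) (nat_lit 0x2c652ac864d500)
  (PL.C (nat_lit 0x1ab738) (nat_lit 0x0) (nat_lit 0x13c793506b7600)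
  (PL.C (nat_lit 0x1ac94c) (nat_lit 0x0) (nat_lit 0x200b4388f50b80)
  (PL.C (nat_lit 0x1ad6b4) (nat_lit 0x190e2886103440) (nat_lit 0x0)
  (PL.C (nat_lit 0x1ae3f0) (nat_lit 0xc0a3c3fe92780) (nat_lit 0x0)
  (PL.C (nat_lit 0x1aec2c) (nat_lit 0x0) (nat_lit 0xf7a161893000)
  (PL.C (nat_lit 0x1b0128) (nat_lit 0x0) (nat_lit 0x348586c214bc40)
  (PL.C (nat_lit 0x1b5cc4) (nat_lit 0x0) (nat_lit 0x324245a83205c0)
  (PL.C (nat_lit 0x1b6525) (nat_lit 0x77bb77bbd8480) (nat_lit 0x0) lm_35))))))))))))))))))))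

noncomputable def lm_33 : PL :=
  (PL.C (nat_lit 0x18f834) (nat_lit 0x0) (nat_lit 0x1225d12e3631c0)
  (PL.C (nat_lit 0x1919dc) (nat_lit 0x0) (nat_lit 0x86267b1f19b80)
  (PL.C (nat_lit 0x192486) (nat_lit 0x0) (nat_lit 0x3088be83412580)
  (PL.C (nat_lit 0x192df8) (nat_lit 0x1ff2c78c3000) (nat_lit 0x0)
  (PL.C (nat_lit 0x194631) (nat_lit 0x5e224a5cfd5440) (nat_lit 0x0)
  (PL.C (nat_lit 0x1959a8) (nat_lit 0x1dd1cfb94d300) (nat_lit 0x0)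
  (PL.C (nat_lit 0x195f54) (nat_lit 0x5e7d86698b3c80) (nat_lit 0x0)
  (PL.C (nat_lit 0x196658) (nat_lit 0x21ff201852900) (nat_lit 0x0)
  (PL.C (nat_lit 0x196719) (nat_lit 0x1ccbdc063c580) (nat_lit 0x0)
  (PL.C (nat_lit 0x1974d8) (nat_lit 0x2622063044100) (nat_lit 0x0)
  (PL.C (nat_lit 0x197890) (nat_lit 0xe9058bb26ce80) (nat_lit 0x0)
  (PL.C (nat_lit 0x197ef4) (nat_lit 0x1f62d5ad5778d0) (nat_lit 0x0)
  (PL.C (nat_lit 0x19897b) (nat_lit 0xcfac8fd5a1b80) (nat_lit 0x0)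
  (PL.C (nat_lit 0x198fcc) (nat_lit 0x0) (nat_lit 0x2cb5d9828f780)
  (PL.C (nat_lit 0x199a4c) (nat_lit 0x14ead557091600) (nat_lit 0x0)
  (PL.C (nat_lit 0x19e538) (nat_lit 0x11a70c5a5942e0) (nat_lit 0x0)
  (PL.C (nat_lit 0x19e768) (nat_lit 0xd26ea3dd8800) (nat_lit 0x0)
  (PL.C (nat_lit 0x19ed26) (nat_lit 0x1b523e61cbae00) (nat_lit 0x0)
  (PL.C (nat_lit 0x19f2f3) (nat_lit 0x0) (nat_lit 0x873642a160800)
  (PL.C (nat_lit 0x1a134b) (nat_lit 0x166244fda1fbc0) (nat_lit 0x0) lm_34))))))))))))))))))))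

noncomputable def lm_32 : PL :=
  (PL.C (nat_lit 0x173690) (nat_lit 0x23d6de0937d20) (nat_lit 0x0)
  (PL.C (nat_lit 0x174ecc) (nat_lit 0x0) (nat_lit 0x4453d6e66e000)
  (PL.C (nat_lit 0x17569c) (nat_lit 0x7110c59080160) (nat_lit 0x0)
  (PL.C (nat_lit 0x176e02) (nat_lit 0x0) (nat_lit 0x28e8154c36c00)
  (PL.C (nat_lit 0x1785a4) (nat_lit 0x0) (nat_lit 0x269e65de57aae0)
  (PL.C (nat_lit 0x17a444) (nat_lit 0x0) (nat_lit 0x16745d2311c00)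
  (PL.C (nat_lit 0x17ae07) (nat_lit 0x53fcb032e7300) (nat_lit 0x0)
  (PL.C (nat_lit 0x17eb4e) (nat_lit 0x0) (nat_lit 0xe0b78a7deb280)
  (PL.C (nat_lit 0x17eb78) (nat_lit 0x1428a6aca6600) (nat_lit 0x0)
  (PL.C (nat_lit 0x180318) (nat_lit 0x0) (nat_lit 0x67523b82d080)
  (PL.C (nat_lit 0x180e7f) (nat_lit 0x1691943f63042c0) (nat_lit 0x0)
  (PL.C (nat_lit 0x1812d0) (nat_lit 0xa68e584a5000) (nat_lit 0x0)
  (PL.C (nat_lit 0x18266c) (nat_lit 0x36e68b4f3f9100) (nat_lit 0x0)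
  (PL.C (nat_lit 0x1832e8) (nat_lit 0x45a493b863c00) (nat_lit 0x0)
  (PL.C (nat_lit 0x185570) (nat_lit 0x9681f04a42100) (nat_lit 0x0)
  (PL.C (nat_lit 0x186f28) (nat_lit 0x17af6d65700) (nat_lit 0x0)
  (PL.C (nat_lit 0x188b10) (nat_lit 0x9681f04a42100) (nat_lit 0x0)
  (PL.C (nat_lit 0x189294) (nat_lit 0x3a469eac26e00) (nat_lit 0x0)
  (PL.C (nat_lit 0x18bdfc) (nat_lit 0x0) (nat_lit 0x3a974c20a300)
  (PL.C (nat_lit 0x18e304) (nat_lit 0x0) (nat_lit 0x1ffae84e5a0f40) lm_33))))))))))))))))))))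

noncomputable def lm_31 : PL :=
  (PL.C (nat_lit 0x15cfb4) (nat_lit 0x0) (nat_lit 0x3a47d6b641d840)
  (PL.C (nat_lit 0x15dc18) (nat_lit 0x0) (nat_lit 0x875aa19fb09a0)
  (PL.C (nat_lit 0x160b1b) (nat_lit 0x0) (nat_lit 0x8bd629fa1f00)
  (PL.C (nat_lit 0x1619b2) (nat_lit 0x12ea24af4f1e80) (nat_lit 0x0)
  (PL.C (nat_lit 0x164e9b) (nat_lit 0x848f2cc5c1ec0) (nat_lit 0x0)
  (PL.C (nat_lit 0x166014) (nat_lit 0x382aafa770800) (nat_lit 0x0)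
  (PL.C (nat_lit 0x166ed0) (nat_lit 0x0) (nat_lit 0x3f0a9fcfa380)
  (PL.C (nat_lit 0x167937) (nat_lit 0x1ccbdc063c580) (nat_lit 0x0)
  (PL.C (nat_lit 0x167b1d) (nat_lit 0x2ea4176af600) (nat_lit 0x0)
  (PL.C (nat_lit 0x1691ca) (nat_lit 0x0) (nat_lit 0xb27fb7419800)
  (PL.C (nat_lit 0x16a304) (nat_lit 0x0) (nat_lit 0x133cfae56a740)
  (PL.C (nat_lit 0x16c452) (nat_lit 0x28719e597f4d60) (nat_lit 0x0)
  (PL.C (nat_lit 0x16cbc8) (nat_lit 0x11043a99e45f00) (nat_lit 0x0)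
  (PL.C (nat_lit 0x16d8d4) (nat_lit 0x167a99b0a1d80) (nat_lit 0x0)
  (PL.C (nat_lit 0x16e243) (nat_lit 0xc7e909e37b040) (nat_lit 0x0)
  (PL.C (nat_lit 0x16e7ec) (nat_lit 0x2154167437140) (nat_lit 0x0)
  (PL.C (nat_lit 0x16e8b8) (nat_lit 0x2f2a6c0e2c000) (nat_lit 0x0)
  (PL.C (nat_lit 0x171070) (nat_lit 0x1acf1fd6c000) (nat_lit 0x0)
  (PL.C (nat_lit 0x172f77) (nat_lit 0xeba9d7115e00) (nat_lit 0x0)
  (PL.C (nat_lit 0x173478) (nat_lit 0x44219f1ca480) (nat_lit 0x0) lm_32))))))))))))))))))))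

noncomputable def lm_30 : PL :=
  (PL.C (nat_lit 0x14565c) (nat_lit 0x3f39d378e000) (nat_lit 0x0)
  (PL.C (nat_lit 0x147e3a) (nat_lit 0x0) (nat_lit 0x480e99632bb080)
  (PL.C (nat_lit 0x14a458) (nat_lit 0x73eb8055bbdc0) (nat_lit 0x0)
  (PL.C (nat_lit 0x14a816) (nat_lit 0x0) (nat_lit 0x1f28c539e57e00)
  (PL.C (nat_lit 0x14b6f0) (nat_lit 0x75ad0367d380) (nat_lit 0x0)
  (PL.C (nat_lit 0x150408) (nat_lit 0x1ff2c78c3000) (nat_lit 0x0)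
  (PL.C (nat_lit 0x151404) (nat_lit 0x757a5540232280) (nat_lit 0x0)
  (PL.C (nat_lit 0x153218) (nat_lit 0x0) (nat_lit 0x13c793506b7600)
  (PL.C (nat_lit 0x153495) (nat_lit 0x43c4337b27400) (nat_lit 0x0)
  (PL.C (nat_lit 0x156648) (nat_lit 0x1dd1cfb94d300) (nat_lit 0x0)
  (PL.C (nat_lit 0x156f1e) (nat_lit 0x0) (nat_lit 0x1f7b361491200)
  (PL.C (nat_lit 0x157e4e) (nat_lit 0x14d1162d7c00) (nat_lit 0x0)
  (PL.C (nat_lit 0x1585c4) (nat_lit 0x0) (nat_lit 0x26a01ca56c9430)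
  (PL.C (nat_lit 0x158db4) (nat_lit 0x3a469eac26e00) (nat_lit 0x0)
  (PL.C (nat_lit 0x158ea7) (nat_lit 0xcfac8fd5a1b80) (nat_lit 0x0)
  (PL.C (nat_lit 0x1593fc) (nat_lit 0x4527774280bd00) (nat_lit 0x0)
  (PL.C (nat_lit 0x159bf8) (nat_lit 0x11043a99e45f00) (nat_lit 0x0)
  (PL.C (nat_lit 0x15a296) (nat_lit 0x0) (nat_lit 0x33fac322335680)
  (PL.C (nat_lit 0x15ad6a) (nat_lit 0x1581af8960d400) (nat_lit 0x0)
  (PL.C (nat_lit 0x15b9ca) (nat_lit 0x0) (nat_lit 0x5aa81035c9700) lm_31))))))))))))))))))))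

noncomputable def lm_29 : PL :=
  (PL.C (nat_lit 0x135d38) (nat_lit 0x45a493b863c00) (nat_lit 0x0)
  (PL.C (nat_lit 0x136326) (nat_lit 0x0) (nat_lit 0x1f7b361491200)
  (PL.C (nat_lit 0x1364d8) (nat_lit 0x454ef1ae0800) (nat_lit 0x0)
  (PL.C (nat_lit 0x136cda) (nat_lit 0x1bd07a4d26800) (nat_lit 0x0)
  (PL.C (nat_lit 0x1371a8) (nat_lit 0x4026eb4b31540) (nat_lit 0x0)
  (PL.C (nat_lit 0x138b94) (nat_lit 0x0) (nat_lit 0x299c5f6178b640)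
  (PL.C (nat_lit 0x13a778) (nat_lit 0x55a0bb0d4f600) (nat_lit 0x0)
  (PL.C (nat_lit 0x13be28) (nat_lit 0x0) (nat_lit 0xddebcae0ef400)
  (PL.C (nat_lit 0x13c5b8) (nat_lit 0x0) (nat_lit 0x23db9539a2d00)
  (PL.C (nat_lit 0x13cbc6) (nat_lit 0x0) (nat_lit 0x126ab66806400)
  (PL.C (nat_lit 0x13cde2) (nat_lit 0x0) (nat_lit 0x1292510ccb2d00)
  (PL.C (nat_lit 0x13d2c8) (nat_lit 0x0) (nat_lit 0x15e742273e6c80)
  (PL.C (nat_lit 0x13d8da) (nat_lit 0x0) (nat_lit 0x17055215ba580)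
  (PL.C (nat_lit 0x13db34) (nat_lit 0x0) (nat_lit 0x269e65de57aae0)
  (PL.C (nat_lit 0x13f2b8) (nat_lit 0x1b196a4cfa100) (nat_lit 0x0)
  (PL.C (nat_lit 0x1419d2) (nat_lit 0x0) (nat_lit 0xa00906b16b740)
  (PL.C (nat_lit 0x143106) (nat_lit 0x0) (nat_lit 0x33fac322335680)
  (PL.C (nat_lit 0x1438c2) (nat_lit 0x0) (nat_lit 0xc6686afd0fe00)
  (PL.C (nat_lit 0x14461e) (nat_lit 0x0) (nat_lit 0xa00906b16b740)
  (PL.C (nat_lit 0x144ebb) (nat_lit 0x151605a3668400) (nat_lit 0x0) lm_30))))))))))))))))))))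

noncomputable def lm_28 : PL :=
  (PL.C (nat_lit 0x124d50) (nat_lit 0x36a263983000) (nat_lit 0x0)
  (PL.C (nat_lit 0x125598) (nat_lit 0x0) (nat_lit 0x67523b82d080)
  (PL.C (nat_lit 0x125d2a) (nat_lit 0x3c470c1abf000) (nat_lit 0x0)
  (PL.C (nat_lit 0x126513) (nat_lit 0xeba9d7115e00) (nat_lit 0x0)
  (PL.C (nat_lit 0x126984) (nat_lit 0x22ab9d696d3c40) (nat_lit 0x0)
  (PL.C (nat_lit 0x1277f0) (nat_lit 0xb69bed0e18300) (nat_lit 0x0)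
  (PL.C (nat_lit 0x128cd0) (nat_lit 0x18610f4bf3100) (nat_lit 0x0)
  (PL.C (nat_lit 0x12a0f8) (nat_lit 0x0) (nat_lit 0x302c2bc009e00)
  (PL.C (nat_lit 0x12a7fa) (nat_lit 0x70e8e62a87a40) (nat_lit 0x0)
  (PL.C (nat_lit 0x12af30) (nat_lit 0x0) (nat_lit 0x3d4afd97c400)
  (PL.C (nat_lit 0x12b7cc) (nat_lit 0xe171b8ecca00) (nat_lit 0x0)
  (PL.C (nat_lit 0x12ba88) (nat_lit 0x0) (nat_lit 0x8436e90bdcf00)
  (PL.C (nat_lit 0x12d356) (nat_lit 0x6fbe86b554a00) (nat_lit 0x0)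
  (PL.C (nat_lit 0x12e364) (nat_lit 0x382aafa770800) (nat_lit 0x0)
  (PL.C (nat_lit 0x12e810) (nat_lit 0x73ed612ff400) (nat_lit 0x0)
  (PL.C (nat_lit 0x12f2f0) (nat_lit 0x23d6de0937d20) (nat_lit 0x0)
  (PL.C (nat_lit 0x12fe58) (nat_lit 0x0) (nat_lit 0x16ab6fe9cce00)
  (PL.C (nat_lit 0x12ffa2) (nat_lit 0x0) (nat_lit 0x2aa0cf8657d890)
  (PL.C (nat_lit 0x1351bf) (nat_lit 0x64a6fdf311100) (nat_lit 0x0)
  (PL.C (nat_lit 0x135b28) (nat_lit 0x154c4350e2000) (nat_lit 0x0) lm_29))))))))))))))))))))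

noncomputable def lm_27 : PL :=
  (PL.C (nat_lit 0x1144f0) (nat_lit 0xaa6ab4ed8400) (nat_lit 0x0)
  (PL.C (nat_lit 0x1148c4) (nat_lit 0x1586a8982bd180) (nat_lit 0x0)
  (PL.C (nat_lit 0x114ca2) (nat_lit 0x0) (nat_lit 0x480e99632bb080)
  (PL.C (nat_lit 0x114fe7) (nat_lit 0x0) (nat_lit 0x95172874a700)
  (PL.C (nat_lit 0x116232) (nat_lit 0x28719e597f4d60) (nat_lit 0x0)
  (PL.C (nat_lit 0x116dae) (nat_lit 0x0) (nat_lit 0x44b43d78cce80)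
  (PL.C (nat_lit 0x1180bc) (nat_lit 0x0) (nat_lit 0xa97ab52800d00)
  (PL.C (nat_lit 0x118e18) (nat_lit 0x0) (nat_lit 0x2422d9b781100)
  (PL.C (nat_lit 0x119cb8) (nat_lit 0x4a44dfe7c5200) (nat_lit 0x0)
  (PL.C (nat_lit 0x119dea) (nat_lit 0x0) (nat_lit 0x8109d20994a00)
  (PL.C (nat_lit 0x11a7ec) (nat_lit 0x0) (nat_lit 0x16745d2311c00)
  (PL.C (nat_lit 0x11c388) (nat_lit 0x4a44dfe7c5200) (nat_lit 0x0)
  (PL.C (nat_lit 0x11cb14) (nat_lit 0x0) (nat_lit 0x1225d12e3631c0)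
  (PL.C (nat_lit 0x11db88) (nat_lit 0x0) (nat_lit 0xddebcae0ef400)
  (PL.C (nat_lit 0x11e478) (nat_lit 0x1579210a7600c0) (nat_lit 0x0)
  (PL.C (nat_lit 0x11f2c8) (nat_lit 0x0) (nat_lit 0x2422d9b781100)
  (PL.C (nat_lit 0x123aad) (nat_lit 0x2000a64cf4700) (nat_lit 0x0)
  (PL.C (nat_lit 0x123dd8) (nat_lit 0x0) (nat_lit 0x348586c214bc40)
  (PL.C (nat_lit 0x12436e) (nat_lit 0x0) (nat_lit 0xe0b78a7deb280)
  (PL.C (nat_lit 0x124c92) (nat_lit 0x0) (nat_lit 0x1cfefd36dea40) lm_28))))))))))))))))))))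

noncomputable def lm_26 : PL :=
  (PL.C (nat_lit 0x100210) (nat_lit 0x0) (nat_lit 0x3a3e4055b2530)
  (PL.C (nat_lit 0x1009aa) (nat_lit 0xbf504b998607a0) (nat_lit 0x0)
  (PL.C (nat_lit 0x1021f0) (nat_lit 0x1bdd2fc2a6000) (nat_lit 0x0)
  (PL.C (nat_lit 0x104efb) (nat_lit 0x3762fd90b59000) (nat_lit 0x0)
  (PL.C (nat_lit 0x1061b8) (nat_lit 0x8c467de68a200) (nat_lit 0x0)
  (PL.C (nat_lit 0x107ea8) (nat_lit 0x0) (nat_lit 0x454ef1ae0800)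
  (PL.C (nat_lit 0x109758) (nat_lit 0x0) (nat_lit 0x15e742273e6c80)
  (PL.C (nat_lit 0x10a578) (nat_lit 0xb4c3214df7800) (nat_lit 0x0)
  (PL.C (nat_lit 0x10bbe8) (nat_lit 0x55a0bb0d4f600) (nat_lit 0x0)
  (PL.C (nat_lit 0x10c304) (nat_lit 0x25e4f4f64306c0) (nat_lit 0x0)
  (PL.C (nat_lit 0x10c950) (nat_lit 0x1504f6db0000) (nat_lit 0x0)
  (PL.C (nat_lit 0x10d976) (nat_lit 0x16377d7b4c8b00) (nat_lit 0x0)
  (PL.C (nat_lit 0x10dfe5) (nat_lit 0xec8846d3e800) (nat_lit 0x0)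
  (PL.C (nat_lit 0x10e670) (nat_lit 0x17e5219432700) (nat_lit 0x0)
  (PL.C (nat_lit 0x10ea38) (nat_lit 0x3d5361b369a3c0) (nat_lit 0x0)
  (PL.C (nat_lit 0x10ef66) (nat_lit 0x6a7a7511a5080) (nat_lit 0x0)
  (PL.C (nat_lit 0x10f890) (nat_lit 0x18610f4bf3100) (nat_lit 0x0)
  (PL.C (nat_lit 0x110652) (nat_lit 0x0) (nat_lit 0x3677191b3690c0)
  (PL.C (nat_lit 0x110a88) (nat_lit 0x0) (nat_lit 0xa6facb33fd430)
  (PL.C (nat_lit 0x111188) (nat_lit 0x17af6d65700) (nat_lit 0x0) lm_27))))))))))))))))))))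

noncomputable def lm_25 : PL :=
  (PL.C (nat_lit 0xed021) (nat_lit 0x43c4337b27400) (nat_lit 0x0)
  (PL.C (nat_lit 0xedf12) (nat_lit 0x0) (nat_lit 0xd9da0f636c800)
  (PL.C (nat_lit 0xeeab8) (nat_lit 0xd1342a0eb700) (nat_lit 0x0)
  (PL.C (nat_lit 0xefb7a) (nat_lit 0x6a7a7511a5080) (nat_lit 0x0)
  (PL.C (nat_lit 0xefcbe) (nat_lit 0x78f5671db200) (nat_lit 0x0)
  (PL.C (nat_lit 0xf0bdc) (nat_lit 0x0) (nat_lit 0x1d3d7375a3a00)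
  (PL.C (nat_lit 0xf1185) (nat_lit 0x848f2cc5c1ec0) (nat_lit 0x0)
  (PL.C (nat_lit 0xf1758) (nat_lit 0x0) (nat_lit 0x151aa952d70c0)
  (PL.C (nat_lit 0xf3b38) (nat_lit 0x1b196a4cfa100) (nat_lit 0x0)
  (PL.C (nat_lit 0xf4182) (nat_lit 0x15482223571000) (nat_lit 0x0)
  (PL.C (nat_lit 0xf4548) (nat_lit 0x29434fff7d6c0) (nat_lit 0x0)
  (PL.C (nat_lit 0xf45d0) (nat_lit 0x1acf1fd6c000) (nat_lit 0x0)
  (PL.C (nat_lit 0xf74fa) (nat_lit 0x0) (nat_lit 0x71627801bed00)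
  (PL.C (nat_lit 0xf7850) (nat_lit 0x75ad0367d380) (nat_lit 0x0)
  (PL.C (nat_lit 0xf9eac) (nat_lit 0x0) (nat_lit 0x5474461571b00)
  (PL.C (nat_lit 0xfc2d8) (nat_lit 0x4c66afd5a4500) (nat_lit 0x0)
  (PL.C (nat_lit 0xfc95a) (nat_lit 0x0) (nat_lit 0x1ecd4dee91dc0)
  (PL.C (nat_lit 0xff234) (nat_lit 0x0) (nat_lit 0x36ebe1f53c0600)
  (PL.C (nat_lit 0xff250) (nat_lit 0x2ac89dc81000) (nat_lit 0x0)
  (PL.C (nat_lit 0xff98d) (nat_lit 0x0) (nat_lit 0x41398c224f00) lm_26))))))))))))))))))))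

noncomputable def lm_24 : PL :=
  (PL.C (nat_lit 0xdadab) (nat_lit 0x0) (nat_lit 0x8838a90e69000)
  (PL.C (nat_lit 0xdc564) (nat_lit 0x7610bc3bf4000) (nat_lit 0x0)
  (PL.C (nat_lit 0xdf8f9) (nat_lit 0x3b13da8227d700) (nat_lit 0x0)
  (PL.C (nat_lit 0xe02b0) (nat_lit 0x1504f6db0000) (nat_lit 0x0)
  (PL.C (nat_lit 0xe0d58) (nat_lit 0x345adddf713a80) (nat_lit 0x0)
  (PL.C (nat_lit 0xe230e) (nat_lit 0x87dc6fef8cc80) (nat_lit 0x0)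
  (PL.C (nat_lit 0xe4430) (nat_lit 0x17e5219432700) (nat_lit 0x0)
  (PL.C (nat_lit 0xe4a14) (nat_lit 0x3a4c4622b0600) (nat_lit 0x0)
  (PL.C (nat_lit 0xe5434) (nat_lit 0x3f39d378e000) (nat_lit 0x0)
  (PL.C (nat_lit 0xe5e78) (nat_lit 0x8c467de68a200) (nat_lit 0x0)
  (PL.C (nat_lit 0xe5f1a) (nat_lit 0x0) (nat_lit 0x3677191b3690c0)
  (PL.C (nat_lit 0xe62a8) (nat_lit 0x811b891eb0a10) (nat_lit 0x0)
  (PL.C (nat_lit 0xe6c64) (nat_lit 0x0) (nat_lit 0x3de33d305bd180)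
  (PL.C (nat_lit 0xe739c) (nat_lit 0x4527774280bd00) (nat_lit 0x0)
  (PL.C (nat_lit 0xe7bdc) (nat_lit 0x0) (nat_lit 0xa97ab52800d00)
  (PL.C (nat_lit 0xe8a78) (nat_lit 0x70dad24a6c350) (nat_lit 0x0)
  (PL.C (nat_lit 0xeb212) (nat_lit 0x0) (nat_lit 0x17055215ba580)
  (PL.C (nat_lit 0xebbcc) (nat_lit 0x22ab9d696d3c40) (nat_lit 0x0)
  (PL.C (nat_lit 0xec04f) (nat_lit 0x3762fd90b59000) (nat_lit 0x0)
  (PL.C (nat_lit 0xec7b1) (nat_lit 0x0) (nat_lit 0x3a95007568340) lm_25))))))))))))))))))))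

noncomputable def lm_23 : PL :=
  (PL.C (nat_lit 0xcf33c) (nat_lit 0x2154167437140) (nat_lit 0x0)
  (PL.C (nat_lit 0xcf41d) (nat_lit 0x496599c566afe0) (nat_lit 0x0)
  (PL.C (nat_lit 0xcf670) (nat_lit 0x27def769bb140) (nat_lit 0x0)
  (PL.C (nat_lit 0xd07b8) (nat_lit 0x0) (nat_lit 0x1fe78c4185fc80)
  (PL.C (nat_lit 0xd1a50) (nat_lit 0x78d6767c729d8) (nat_lit 0x0)
  (PL.C (nat_lit 0xd2970) (nat_lit 0x12e4186ad74280) (nat_lit 0x0)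
  (PL.C (nat_lit 0xd3284) (nat_lit 0x0) (nat_lit 0x133cfae56a740)
  (PL.C (nat_lit 0xd33ec) (nat_lit 0x0) (nat_lit 0x299c5f6178b640)
  (PL.C (nat_lit 0xd3730) (nat_lit 0x0) (nat_lit 0xa0ff330ce24e8)
  (PL.C (nat_lit 0xd37f7) (nat_lit 0x0) (nat_lit 0x95172874a700)
  (PL.C (nat_lit 0xd3b3c) (nat_lit 0x30e880ced300) (nat_lit 0x0)
  (PL.C (nat_lit 0xd668c) (nat_lit 0x0) (nat_lit 0xef42169bcbc80)
  (PL.C (nat_lit 0xd7604) (nat_lit 0x0) (nat_lit 0x3de33d305bd180)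
  (PL.C (nat_lit 0xd7b2c) (nat_lit 0x0) (nat_lit 0x303941f8f1d80)
  (PL.C (nat_lit 0xd80bd) (nat_lit 0x53fcb032e7300) (nat_lit 0x0)
  (PL.C (nat_lit 0xd8414) (nat_lit 0x0) (nat_lit 0xef42169bcbc80)
  (PL.C (nat_lit 0xd89d2) (nat_lit 0x0) (nat_lit 0x2aa0cf8657d890)
  (PL.C (nat_lit 0xd8ee8) (nat_lit 0x3ffa42482c00) (nat_lit 0x0)
  (PL.C (nat_lit 0xd9bf3) (nat_lit 0x0) (nat_lit 0x14dc4a2381b9c0)
  (PL.C (nat_lit 0xda97c) (nat_lit 0x0) (nat_lit 0x440663061dd540) lm_24))))))))))))))))))))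

noncomputable def lm_22 : PL :=
  (PL.C (nat_lit 0xc31fb) (nat_lit 0x26fa905fa9e00) (nat_lit 0x0)
  (PL.C (nat_lit 0xc330c) (nat_lit 0x0) (nat_lit 0x2cb5d9828f780)
  (PL.C (nat_lit 0xc3910) (nat_lit 0x0) (nat_lit 0x3a3e4055b2530)
  (PL.C (nat_lit 0xc3e1c) (nat_lit 0xef4fa55749c00) (nat_lit 0x0)
  (PL.C (nat_lit 0xc4362) (nat_lit 0x0) (nat_lit 0x71627801bed00)
  (PL.C (nat_lit 0xc4658) (nat_lit 0x24d91c3c33a710) (nat_lit 0x0)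
  (PL.C (nat_lit 0xc5de0) (nat_lit 0x0) (nat_lit 0x38c93a736900)
  (PL.C (nat_lit 0xc6b50) (nat_lit 0x0) (nat_lit 0x8fd407e31000)
  (PL.C (nat_lit 0xc6ffc) (nat_lit 0x0) (nat_lit 0x3a47d6b641d840)
  (PL.C (nat_lit 0xc73cb) (nat_lit 0x64a6fdf311100) (nat_lit 0x0)
  (PL.C (nat_lit 0xc7a88) (nat_lit 0x1428a6aca6600) (nat_lit 0x0)
  (PL.C (nat_lit 0xc7c05) (nat_lit 0x59c9fcc9a7140) (nat_lit 0x0)
  (PL.C (nat_lit 0xc9798) (nat_lit 0xd1342a0eb700) (nat_lit 0x0)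
  (PL.C (nat_lit 0xca990) (nat_lit 0x73ed612ff400) (nat_lit 0x0)
  (PL.C (nat_lit 0xcaa6c) (nat_lit 0x0) (nat_lit 0x861f5714a19350)
  (PL.C (nat_lit 0xcb859) (nat_lit 0x2527fd18aaf340) (nat_lit 0x0)
  (PL.C (nat_lit 0xce12a) (nat_lit 0x10746031582080) (nat_lit 0x0)
  (PL.C (nat_lit 0xce770) (nat_lit 0x0) (nat_lit 0x3d4afd97c400)
  (PL.C (nat_lit 0xce8d0) (nat_lit 0x1bdd2fc2a6000) (nat_lit 0x0)
  (PL.C (nat_lit 0xcecc4) (nat_lit 0x3a4c4622b0600) (nat_lit 0x0) lm_23))))))))))))))))))))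

noncomputable def lm_21 : PL :=
  (PL.C (nat_lit 0xb5060) (nat_lit 0x0) (nat_lit 0x38c93a736900)
  (PL.C (nat_lit 0xb598c) (nat_lit 0x0) (nat_lit 0x638d9cc1525f40)
  (PL.C (nat_lit 0xb7cff) (nat_lit 0x0) (nat_lit 0x14dc4a2381b9c0)
  (PL.C (nat_lit 0xb85d8) (nat_lit 0xb8627b2ebf580) (nat_lit 0x0)
  (PL.C (nat_lit 0xb886c) (nat_lit 0x0) (nat_lit 0x440663061dd540)
  (PL.C (nat_lit 0xb8a9a) (nat_lit 0x0) (nat_lit 0x1852637892180)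
  (PL.C (nat_lit 0xb9b95) (nat_lit 0x6e22975af8e80) (nat_lit 0x0)
  (PL.C (nat_lit 0xb9e74) (nat_lit 0xa160a97bb2940) (nat_lit 0x0)
  (PL.C (nat_lit 0xbab28) (nat_lit 0x0) (nat_lit 0xeb588e0b59f00)
  (PL.C (nat_lit 0xbb410) (nat_lit 0x0) (nat_lit 0x1710bfde43100)
  (PL.C (nat_lit 0xbbdd0) (nat_lit 0x2f71cf2a36200) (nat_lit 0x0)
  (PL.C (nat_lit 0xbbe9c) (nat_lit 0x0) (nat_lit 0x244d62bde18980)
  (PL.C (nat_lit 0xbc548) (nat_lit 0x4c66afd5a4500) (nat_lit 0x0)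
  (PL.C (nat_lit 0xbd7b0) (nat_lit 0x2f71cf2a36200) (nat_lit 0x0)
  (PL.C (nat_lit 0xbdcb8) (nat_lit 0xb4c3214df7800) (nat_lit 0x0)
  (PL.C (nat_lit 0xbe7b0) (nat_lit 0x12e4186ad74280) (nat_lit 0x0)
  (PL.C (nat_lit 0xbf730) (nat_lit 0x0) (nat_lit 0x1710bfde43100)
  (PL.C (nat_lit 0xc02f1) (nat_lit 0x1be67e334d4f00) (nat_lit 0x0)
  (PL.C (nat_lit 0xc271e) (nat_lit 0x41869b835aa00) (nat_lit 0x0)
  (PL.C (nat_lit 0xc2cf4) (nat_lit 0x0) (nat_lit 0x36ebe1f53c0600) lm_22))))))))))))))))))))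

noncomputable def lm_20 : PL :=
  (PL.C (nat_lit 0xa2bac) (nat_lit 0xe2c89c1503cc0) (nat_lit 0x0)
  (PL.C (nat_lit 0xa2e30) (nat_lit 0x5467974506c0) (nat_lit 0x0)
  (PL.C (nat_lit 0xa3719) (nat_lit 0x0) (nat_lit 0x8838a90e69000)
  (PL.C (nat_lit 0xa4dfc) (nat_lit 0x0) (nat_lit 0x109fd1163c6300)
  (PL.C (nat_lit 0xa69c8) (nat_lit 0x0) (nat_lit 0x302c2bc009e00)
  (PL.C (nat_lit 0xa863c) (nat_lit 0x0) (nat_lit 0x1e819904a1be80)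
  (PL.C (nat_lit 0xaa178) (nat_lit 0x0) (nat_lit 0x1e998de2620200)
  (PL.C (nat_lit 0xaa65e) (nat_lit 0x0) (nat_lit 0xb27fb7419800)
  (PL.C (nat_lit 0xaa71b) (nat_lit 0x3bb6fe0ec52c0) (nat_lit 0x0)
  (PL.C (nat_lit 0xab11c) (nat_lit 0xed4ae8cfde1160) (nat_lit 0x0)
  (PL.C (nat_lit 0xadf52) (nat_lit 0xf22f83f0d4580) (nat_lit 0x0)
  (PL.C (nat_lit 0xaebd0) (nat_lit 0x3eefad854c200) (nat_lit 0x0)
  (PL.C (nat_lit 0xaef51) (nat_lit 0x496599c566afe0) (nat_lit 0x0)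
  (PL.C (nat_lit 0xb0f90) (nat_lit 0x0) (nat_lit 0xa0ff330ce24e8)
  (PL.C (nat_lit 0xb27f0) (nat_lit 0x78d6767c729d8) (nat_lit 0x0)
  (PL.C (nat_lit 0xb30e0) (nat_lit 0x3152750c0000) (nat_lit 0x0)
  (PL.C (nat_lit 0xb3ba4) (nat_lit 0xadd25b5412d240) (nat_lit 0x0)
  (PL.C (nat_lit 0xb3fee) (nat_lit 0x2825745357c00) (nat_lit 0x0)
  (PL.C (nat_lit 0xb46d0) (nat_lit 0x43d4dec36625a0) (nat_lit 0x0)
  (PL.C (nat_lit 0xb4a44) (nat_lit 0x2ce8a1a00e400) (nat_lit 0x0) lm_21))))))))))))))))))))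

noncomputable def lm_19 : PL :=
  (PL.C (nat_lit 0x986b8) (nat_lit 0x8a47516dc7200) (nat_lit 0x0)
  (PL.C (nat_lit 0x98d78) (nat_lit 0x3ffa42482c00) (nat_lit 0x0)
  (PL.C (nat_lit 0x99450) (nat_lit 0x3eefad854c200) (nat_lit 0x0)
  (PL.C (nat_lit 0x994bc) (nat_lit 0x0) (nat_lit 0x638d9cc1525f40)
  (PL.C (nat_lit 0x99d98) (nat_lit 0x0) (nat_lit 0x34dc367f4f0580)
  (PL.C (nat_lit 0x9a268) (nat_lit 0x811b891eb0a10) (nat_lit 0x0)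
  (PL.C (nat_lit 0x9a7e8) (nat_lit 0x0) (nat_lit 0xeb588e0b59f00)
  (PL.C (nat_lit 0x9cc0c) (nat_lit 0x30e880ced300) (nat_lit 0x0)
  (PL.C (nat_lit 0x9d288) (nat_lit 0x24d91c3c33a710) (nat_lit 0x0)
  (PL.C (nat_lit 0x9d58a) (nat_lit 0xf22f83f0d4580) (nat_lit 0x0)
  (PL.C (nat_lit 0x9da76) (nat_lit 0x0) (nat_lit 0x44b43d78cce80)
  (PL.C (nat_lit 0x9e016) (nat_lit 0x87dc6fef8cc80) (nat_lit 0x0)
  (PL.C (nat_lit 0x9ea0c) (nat_lit 0x8ceabd207f9e0) (nat_lit 0x0)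
  (PL.C (nat_lit 0x9f1d0) (nat_lit 0x12011fd1c3600) (nat_lit 0x0)
  (PL.C (nat_lit 0x9fcfc) (nat_lit 0x2ce8a1a00e400) (nat_lit 0x0)
  (PL.C (nat_lit 0x9fdd4) (nat_lit 0x10f75168a8e00) (nat_lit 0x0)
  (PL.C (nat_lit 0xa000b) (nat_lit 0xd820f2914600) (nat_lit 0x0)
  (PL.C (nat_lit 0xa07e8) (nat_lit 0x0) (nat_lit 0x1e2b2b432e100)
  (PL.C (nat_lit 0xa0bae) (nat_lit 0x0) (nat_lit 0xd9da0f636c800)
  (PL.C (nat_lit 0xa0f90) (nat_lit 0x0) (nat_lit 0x299ef97cf6c0) lm_20))))))))))))))))))))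

noncomputable def lm_18 : PL :=
  (PL.C (nat_lit 0x8a2be) (nat_lit 0x1d99d8ba3c40c0) (nat_lit 0x0)
  (PL.C (nat_lit 0x8afd0) (nat_lit 0x0) (nat_lit 0x766ca34696740)
  (PL.C (nat_lit 0x8c811) (nat_lit 0xdf3dbc9920580) (nat_lit 0x0)
  (PL.C (nat_lit 0x8cc58) (nat_lit 0x0) (nat_lit 0x151aa952d70c0)
  (PL.C (nat_lit 0x8cd48) (nat_lit 0x0) (nat_lit 0x1fe78c4185fc80)
  (PL.C (nat_lit 0x8cffa) (nat_lit 0x0) (nat_lit 0x1852637892180)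
  (PL.C (nat_lit 0x8d228) (nat_lit 0x1e1b72e70cd80) (nat_lit 0x0)
  (PL.C (nat_lit 0x8ef08) (nat_lit 0x0) (nat_lit 0x8eda4d466b600)
  (PL.C (nat_lit 0x8f958) (nat_lit 0x0) (nat_lit 0x34dc367f4f0580)
  (PL.C (nat_lit 0x8fcc8) (nat_lit 0x73eb8055bbdc0) (nat_lit 0x0)
  (PL.C (nat_lit 0x9007e) (nat_lit 0x0) (nat_lit 0x1ecd4dee91dc0)
  (PL.C (nat_lit 0x902b8) (nat_lit 0x0) (nat_lit 0x8eda4d466b600)
  (PL.C (nat_lit 0x9068c) (nat_lit 0x0) (nat_lit 0x861f5714a19350)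
  (PL.C (nat_lit 0x909f0) (nat_lit 0x4e1eb4944000) (nat_lit 0x0)
  (PL.C (nat_lit 0x912a2) (nat_lit 0x0) (nat_lit 0x82af48126db8c0)
  (PL.C (nat_lit 0x91ba8) (nat_lit 0x0) (nat_lit 0x43b3b4ad3a5d00)
  (PL.C (nat_lit 0x91e72) (nat_lit 0x0) (nat_lit 0x58d00e9c48480)
  (PL.C (nat_lit 0x950a6) (nat_lit 0x6719598a28f00) (nat_lit 0x0)
  (PL.C (nat_lit 0x95720) (nat_lit 0x3152750c0000) (nat_lit 0x0)
  (PL.C (nat_lit 0x96cb4) (nat_lit 0xdd29700c0ab80) (nat_lit 0x0) lm_19))))))))))))))))))))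

noncomputable def lm_17 : PL :=
  (PL.C (nat_lit 0x7e520) (nat_lit 0x0) (nat_lit 0xa2e4e9f2d200)
  (PL.C (nat_lit 0x7fa20) (nat_lit 0x6a1baf7f6900) (nat_lit 0x0)
  (PL.C (nat_lit 0x801f6) (nat_lit 0x1b7b4279cee580) (nat_lit 0x0)
  (PL.C (nat_lit 0x81a14) (nat_lit 0x76dd06039cb00) (nat_lit 0x0)
  (PL.C (nat_lit 0x81df8) (nat_lit 0x0) (nat_lit 0x1e998de2620200)
  (PL.C (nat_lit 0x82152) (nat_lit 0x0) (nat_lit 0x1ad177553ec700)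
  (PL.C (nat_lit 0x82208) (nat_lit 0x0) (nat_lit 0xa6facb33fd430)
  (PL.C (nat_lit 0x82968) (nat_lit 0x1ec2bd4534b000) (nat_lit 0x0)
  (PL.C (nat_lit 0x82cec) (nat_lit 0x0) (nat_lit 0x109fd1163c6300)
  (PL.C (nat_lit 0x84aa8) (nat_lit 0x70dad24a6c350) (nat_lit 0x0)
  (PL.C (nat_lit 0x84d32) (nat_lit 0x10746031582080) (nat_lit 0x0)
  (PL.C (nat_lit 0x851b0) (nat_lit 0x2ac89dc81000) (nat_lit 0x0)
  (PL.C (nat_lit 0x852ae) (nat_lit 0xbf9ad09ea2700) (nat_lit 0x0)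
  (PL.C (nat_lit 0x85c7d) (nat_lit 0x59c9fcc9a7140) (nat_lit 0x0)
  (PL.C (nat_lit 0x86510) (nat_lit 0x12011fd1c3600) (nat_lit 0x0)
  (PL.C (nat_lit 0x87ae6) (nat_lit 0x0) (nat_lit 0x8109d20994a00)
  (PL.C (nat_lit 0x88641) (nat_lit 0x3bb6fe0ec52c0) (nat_lit 0x0)
  (PL.C (nat_lit 0x8961c) (nat_lit 0x16bb3f0014a080) (nat_lit 0x0)
  (PL.C (nat_lit 0x89dd8) (nat_lit 0x8a47516dc7200) (nat_lit 0x0)
  (PL.C (nat_lit 0x8a228) (nat_lit 0x29434fff7d6c0) (nat_lit 0x0) lm_18))))))))))))))))))))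

noncomputable def lm_16 : PL :=
  (PL.C (nat_lit 0x73f8c) (nat_lit 0x0) (nat_lit 0x3d469abb89fb00)
  (PL.C (nat_lit 0x742e3) (nat_lit 0x2000a64cf4700) (nat_lit 0x0)
  (PL.C (nat_lit 0x747e0) (nat_lit 0x0) (nat_lit 0x61961ecc5400)
  (PL.C (nat_lit 0x74a36) (nat_lit 0x1d99d8ba3c40c0) (nat_lit 0x0)
  (PL.C (nat_lit 0x753f9) (nat_lit 0x0) (nat_lit 0x1c469654dbfb80)
  (PL.C (nat_lit 0x77d18) (nat_lit 0x52aedcc2f2dc80) (nat_lit 0x0)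
  (PL.C (nat_lit 0x77ff4) (nat_lit 0x54f3219f63c00) (nat_lit 0x0)
  (PL.C (nat_lit 0x786d8) (nat_lit 0x0) (nat_lit 0x3870c20282880)
  (PL.C (nat_lit 0x79108) (nat_lit 0x0) (nat_lit 0xb85f0b9b5f000)
  (PL.C (nat_lit 0x7a8aa) (nat_lit 0x0) (nat_lit 0x82af48126db8c0)
  (PL.C (nat_lit 0x7ae90) (nat_lit 0xb9ec9398ebc80) (nat_lit 0x0)
  (PL.C (nat_lit 0x7b048) (nat_lit 0x0) (nat_lit 0x43b3b4ad3a5d00)
  (PL.C (nat_lit 0x7b1bc) (nat_lit 0x0) (nat_lit 0xe5152aa0d00)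
  (PL.C (nat_lit 0x7bd0e) (nat_lit 0x1ee7f7a1c26b00) (nat_lit 0x0)
  (PL.C (nat_lit 0x7c0d1) (nat_lit 0x0) (nat_lit 0x159b557958500)
  (PL.C (nat_lit 0x7c770) (nat_lit 0x0) (nat_lit 0x7ac879d58bf00)
  (PL.C (nat_lit 0x7cd60) (nat_lit 0x6a1baf7f6900) (nat_lit 0x0)
  (PL.C (nat_lit 0x7d1e7) (nat_lit 0x0) (nat_lit 0x159b557958500)
  (PL.C (nat_lit 0x7d3e0) (nat_lit 0x0) (nat_lit 0xa2e4e9f2d200)
  (PL.C (nat_lit 0x7d468) (nat_lit 0xd81198ad5db80) (nat_lit 0x0) lm_17))))))))))))))))))))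

noncomputable def lm_15 : PL :=
  (PL.C (nat_lit 0x69111) (nat_lit 0x0) (nat_lit 0xe7d7c8c175040)
  (PL.C (nat_lit 0x691a4) (nat_lit 0xa160a97bb2940) (nat_lit 0x0)
  (PL.C (nat_lit 0x69564) (nat_lit 0xdd29700c0ab80) (nat_lit 0x0)
  (PL.C (nat_lit 0x69c08) (nat_lit 0x0) (nat_lit 0x27e2a59a4eaf80)
  (PL.C (nat_lit 0x6a8a8) (nat_lit 0x0) (nat_lit 0x3870c20282880)
  (PL.C (nat_lit 0x6a938) (nat_lit 0xfec69da1b400) (nat_lit 0x0)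
  (PL.C (nat_lit 0x6aab2) (nat_lit 0x242ea5fed1a00) (nat_lit 0x0)
  (PL.C (nat_lit 0x6aff0) (nat_lit 0x0) (nat_lit 0x1e1b0ade21800)
  (PL.C (nat_lit 0x6b274) (nat_lit 0x8ceabd207f9e0) (nat_lit 0x0)
  (PL.C (nat_lit 0x6b481) (nat_lit 0xdf3dbc9920580) (nat_lit 0x0)
  (PL.C (nat_lit 0x6b8ef) (nat_lit 0xf2d5068cb300) (nat_lit 0x0)
  (PL.C (nat_lit 0x6c7c8) (nat_lit 0x85627a2166840) (nat_lit 0x0)
  (PL.C (nat_lit 0x6cf66) (nat_lit 0x0) (nat_lit 0x58d00e9c48480)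
  (PL.C (nat_lit 0x6d96b) (nat_lit 0x1be67e334d4f00) (nat_lit 0x0)
  (PL.C (nat_lit 0x6dea8) (nat_lit 0x0) (nat_lit 0x123072d80fd100)
  (PL.C (nat_lit 0x6f130) (nat_lit 0x0) (nat_lit 0x8fd407e31000)
  (PL.C (nat_lit 0x70428) (nat_lit 0x0) (nat_lit 0x143e71d7d3dc40)
  (PL.C (nat_lit 0x71650) (nat_lit 0x0) (nat_lit 0x1dcb6303636060)
  (PL.C (nat_lit 0x71994) (nat_lit 0x0) (nat_lit 0x1d3d7375a3a00)
  (PL.C (nat_lit 0x71a12) (nat_lit 0xb40853778d900) (nat_lit 0x0) lm_16))))))))))))))))))))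

noncomputable def lm_14 : PL :=
  (PL.C (nat_lit 0x5e353) (nat_lit 0x6d18f492a47600) (nat_lit 0x0)
  (PL.C (nat_lit 0x5f4b0) (nat_lit 0x1850fd7f8f170) (nat_lit 0x0)
  (PL.C (nat_lit 0x5fb90) (nat_lit 0x0) (nat_lit 0x19fc5ff29ba420)
  (PL.C (nat_lit 0x60054) (nat_lit 0x0) (nat_lit 0x1e819904a1be80)
  (PL.C (nat_lit 0x601d0) (nat_lit 0x1850fd7f8f170) (nat_lit 0x0)
  (PL.C (nat_lit 0x606a0) (nat_lit 0x106b5e030000) (nat_lit 0x0)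
  (PL.C (nat_lit 0x60c6c) (nat_lit 0x0) (nat_lit 0x908b5795973200)
  (PL.C (nat_lit 0x61270) (nat_lit 0x0) (nat_lit 0x1b713aa29b4fb0)
  (PL.C (nat_lit 0x6144c) (nat_lit 0x268893af58b00) (nat_lit 0x0)
  (PL.C (nat_lit 0x62f9d) (nat_lit 0x18e0c49baf37380) (nat_lit 0x0)
  (PL.C (nat_lit 0x635c4) (nat_lit 0x0) (nat_lit 0x1ef288f3e46c80)
  (PL.C (nat_lit 0x64878) (nat_lit 0xdfb8d69b52c00) (nat_lit 0x0)
  (PL.C (nat_lit 0x659d0) (nat_lit 0x3d9f5e179c200) (nat_lit 0x0)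
  (PL.C (nat_lit 0x65e50) (nat_lit 0x4e1eb4944000) (nat_lit 0x0)
  (PL.C (nat_lit 0x662e0) (nat_lit 0x0) (nat_lit 0x61961ecc5400)
  (PL.C (nat_lit 0x66328) (nat_lit 0x0) (nat_lit 0xb85f0b9b5f000)
  (PL.C (nat_lit 0x66910) (nat_lit 0x0) (nat_lit 0x19fc5ff29ba420)
  (PL.C (nat_lit 0x66ff0) (nat_lit 0x0) (nat_lit 0x7ac879d58bf00)
  (PL.C (nat_lit 0x68808) (nat_lit 0x1e1b72e70cd80) (nat_lit 0x0)
  (PL.C (nat_lit 0x68e5c) (nat_lit 0x0) (nat_lit 0x3d469abb89fb00) lm_15))))))))))))))))))))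

noncomputable def lm_13 : PL :=
  (PL.C (nat_lit 0x56950) (nat_lit 0x0) (nat_lit 0x1dcb6303636060)
  (PL.C (nat_lit 0x56b8c) (nat_lit 0x2be9b7b5576200) (nat_lit 0x0)
  (PL.C (nat_lit 0x570f0) (nat_lit 0x1731b970272f00) (nat_lit 0x0)
  (PL.C (nat_lit 0x57348) (nat_lit 0x0) (nat_lit 0x123072d80fd100)
  (PL.C (nat_lit 0x588cc) (nat_lit 0x16bb3f0014a080) (nat_lit 0x0)
  (PL.C (nat_lit 0x58b15) (nat_lit 0x0) (nat_lit 0xe7d7c8c175040)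
  (PL.C (nat_lit 0x58c74) (nat_lit 0xae1927bfa7180) (nat_lit 0x0)
  (PL.C (nat_lit 0x592fe) (nat_lit 0xbf9ad09ea2700) (nat_lit 0x0)
  (PL.C (nat_lit 0x5a744) (nat_lit 0x0) (nat_lit 0x244d62bde18980)
  (PL.C (nat_lit 0x5aed6) (nat_lit 0xb40853778d900) (nat_lit 0x0)
  (PL.C (nat_lit 0x5b968) (nat_lit 0x85cd5ab810d40) (nat_lit 0x0)
  (PL.C (nat_lit 0x5bc71) (nat_lit 0x1e59901a5f100) (nat_lit 0x0)
  (PL.C (nat_lit 0x5be90) (nat_lit 0x3d9f5e179c200) (nat_lit 0x0)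
  (PL.C (nat_lit 0x5c170) (nat_lit 0x5467974506c0) (nat_lit 0x0)
  (PL.C (nat_lit 0x5dab6) (nat_lit 0x1c10cc6d517c80) (nat_lit 0x0)
  (PL.C (nat_lit 0x5dd90) (nat_lit 0x0) (nat_lit 0x299ef97cf6c0)
  (PL.C (nat_lit 0x5de30) (nat_lit 0x0) (nat_lit 0x766ca34696740)
  (PL.C (nat_lit 0x5dffc) (nat_lit 0x0) (nat_lit 0xe5152aa0d00)
  (PL.C (nat_lit 0x5e170) (nat_lit 0x12fa177c96c80) (nat_lit 0x0)
  (PL.C (nat_lit 0x5e269) (nat_lit 0x1a3cc3285400) (nat_lit 0x0) lm_14))))))))))))))))))))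

noncomputable def lm_12 : PL :=
  (PL.C (nat_lit 0x49470) (nat_lit 0x0) (nat_lit 0xef093762ec300)
  (PL.C (nat_lit 0x4ad70) (nat_lit 0x3fbd3b5740fd0) (nat_lit 0x0)
  (PL.C (nat_lit 0x4bbb8) (nat_lit 0x0) (nat_lit 0x1e2b2b432e100)
  (PL.C (nat_lit 0x4bc0c) (nat_lit 0x2d415b9da23c00) (nat_lit 0x0)
  (PL.C (nat_lit 0x4d508) (nat_lit 0x0) (nat_lit 0x35ba6459547ec0)
  (PL.C (nat_lit 0x4d742) (nat_lit 0x41869b835aa00) (nat_lit 0x0)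
  (PL.C (nat_lit 0x4e2a6) (nat_lit 0x0) (nat_lit 0x5a40513d6317c0)
  (PL.C (nat_lit 0x4fe10) (nat_lit 0x646704e8ab9d80) (nat_lit 0x0)
  (PL.C (nat_lit 0x4fff8) (nat_lit 0x522b2193b6800) (nat_lit 0x0)
  (PL.C (nat_lit 0x50490) (nat_lit 0x56d89d13f700) (nat_lit 0x0)
  (PL.C (nat_lit 0x51b1c) (nat_lit 0x0) (nat_lit 0x908b5795973200)
  (PL.C (nat_lit 0x52030) (nat_lit 0x0) (nat_lit 0x1b713aa29b4fb0)
  (PL.C (nat_lit 0x52128) (nat_lit 0x1a1bcec28a180) (nat_lit 0x0)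
  (PL.C (nat_lit 0x528b4) (nat_lit 0x27821723997440) (nat_lit 0x0)
  (PL.C (nat_lit 0x52b36) (nat_lit 0x0) (nat_lit 0x6fa240da6e500)
  (PL.C (nat_lit 0x52fa0) (nat_lit 0x0) (nat_lit 0x4726251ae0b80)
  (PL.C (nat_lit 0x5369a) (nat_lit 0x0) (nat_lit 0x6fa240da6e500)
  (PL.C (nat_lit 0x538d1) (nat_lit 0x0) (nat_lit 0x1c469654dbfb80)
  (PL.C (nat_lit 0x556a4) (nat_lit 0x7ed937636d9000) (nat_lit 0x0)
  (PL.C (nat_lit 0x566b8) (nat_lit 0x5965389110800) (nat_lit 0x0) lm_13))))))))))))))))))))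

noncomputable def lm_11 : PL :=
  (PL.C (nat_lit 0x41fbe) (nat_lit 0x1a441456007db40) (nat_lit 0x0)
  (PL.C (nat_lit 0x423d8) (nat_lit 0x0) (nat_lit 0x4835d59d277400)
  (PL.C (nat_lit 0x43050) (nat_lit 0xcba843a438200) (nat_lit 0x0)
  (PL.C (nat_lit 0x43191) (nat_lit 0x723112cf9d00) (nat_lit 0x0)
  (PL.C (nat_lit 0x43be0) (nat_lit 0x0) (nat_lit 0x92e893d85400)
  (PL.C (nat_lit 0x43ee0) (nat_lit 0x106b5e030000) (nat_lit 0x0)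
  (PL.C (nat_lit 0x44aa0) (nat_lit 0x0) (nat_lit 0x4726251ae0b80)
  (PL.C (nat_lit 0x45ab0) (nat_lit 0x12fa177c96c80) (nat_lit 0x0)
  (PL.C (nat_lit 0x45ee8) (nat_lit 0x0) (nat_lit 0x35ba6459547ec0)
  (PL.C (nat_lit 0x460b6) (nat_lit 0x0) (nat_lit 0x3ecd9ced70b700)
  (PL.C (nat_lit 0x46398) (nat_lit 0xdfb8d69b52c00) (nat_lit 0x0)
  (PL.C (nat_lit 0x47070) (nat_lit 0x56d89d13f700) (nat_lit 0x0)
  (PL.C (nat_lit 0x470d0) (nat_lit 0xb6b9e1a26000) (nat_lit 0x0)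
  (PL.C (nat_lit 0x471cc) (nat_lit 0xe84563e7f7700) (nat_lit 0x0)
  (PL.C (nat_lit 0x476f8) (nat_lit 0x0) (nat_lit 0x27e2a59a4eaf80)
  (PL.C (nat_lit 0x47856) (nat_lit 0x1c10cc6d517c80) (nat_lit 0x0)
  (PL.C (nat_lit 0x47b4a) (nat_lit 0x1f3af1b03a240) (nat_lit 0x0)
  (PL.C (nat_lit 0x48530) (nat_lit 0x9cb4477e08f40) (nat_lit 0x0)
  (PL.C (nat_lit 0x48a44) (nat_lit 0x268893af58b00) (nat_lit 0x0)
  (PL.C (nat_lit 0x490f2) (nat_lit 0x1b7b4279cee580) (nat_lit 0x0) lm_12))))))))))))))))))))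

noncomputable def lm_10 : PL :=
  (PL.C (nat_lit 0x3a230) (nat_lit 0x0) (nat_lit 0xef093762ec300)
  (PL.C (nat_lit 0x3b088) (nat_lit 0x85cd5ab810d40) (nat_lit 0x0)
  (PL.C (nat_lit 0x3b20e) (nat_lit 0x0) (nat_lit 0x3ecd9ced70b700)
  (PL.C (nat_lit 0x3b2f8) (nat_lit 0x1d7a10c16f4000) (nat_lit 0x0)
  (PL.C (nat_lit 0x3b754) (nat_lit 0xae1927bfa7180) (nat_lit 0x0)
  (PL.C (nat_lit 0x3c4d8) (nat_lit 0xd81198ad5db80) (nat_lit 0x0)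
  (PL.C (nat_lit 0x3c9e4) (nat_lit 0x2d415b9da23c00) (nat_lit 0x0)
  (PL.C (nat_lit 0x3cb0d) (nat_lit 0x723112cf9d00) (nat_lit 0x0)
  (PL.C (nat_lit 0x3ccf3) (nat_lit 0xf2d5068cb300) (nat_lit 0x0)
  (PL.C (nat_lit 0x3d0f0) (nat_lit 0x0) (nat_lit 0x17d5696de6cef4)
  (PL.C (nat_lit 0x3d2f6) (nat_lit 0x0) (nat_lit 0x22397806b41c00)
  (PL.C (nat_lit 0x3d460) (nat_lit 0x0) (nat_lit 0x92e893d85400)
  (PL.C (nat_lit 0x3dfef) (nat_lit 0x1e59901a5f100) (nat_lit 0x0)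
  (PL.C (nat_lit 0x3e724) (nat_lit 0x460da094e9fc40) (nat_lit 0x0)
  (PL.C (nat_lit 0x3eaa8) (nat_lit 0x1a1bcec28a180) (nat_lit 0x0)
  (PL.C (nat_lit 0x3eba0) (nat_lit 0x15afb0d7aa80) (nat_lit 0x0)
  (PL.C (nat_lit 0x3ec46) (nat_lit 0x398881d55000) (nat_lit 0x0)
  (PL.C (nat_lit 0x40038) (nat_lit 0x0) (nat_lit 0x143e71d7d3dc40)
  (PL.C (nat_lit 0x40848) (nat_lit 0x0) (nat_lit 0x85c7af029aa0c0)
  (PL.C (nat_lit 0x40d88) (nat_lit 0xc33629d057500) (nat_lit 0x0) lm_11))))))))))))))))))))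

noncomputable def lm_9 : PL :=
  (PL.C (nat_lit 0x306d8) (nat_lit 0xc33629d057500) (nat_lit 0x0)
  (PL.C (nat_lit 0x30b4c) (nat_lit 0x7ed937636d9000) (nat_lit 0x0)
  (PL.C (nat_lit 0x30da0) (nat_lit 0x0) (nat_lit 0x1055aeff621600)
  (PL.C (nat_lit 0x316b3) (nat_lit 0x155594e77b9300) (nat_lit 0x0)
  (PL.C (nat_lit 0x327d0) (nat_lit 0x0) (nat_lit 0x1e1b0ade21800)
  (PL.C (nat_lit 0x32808) (nat_lit 0x29e5f586301840) (nat_lit 0x0)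
  (PL.C (nat_lit 0x338b0) (nat_lit 0xe6cc9dbda968c) (nat_lit 0x0)
  (PL.C (nat_lit 0x33a2c) (nat_lit 0x76dd06039cb00) (nat_lit 0x0)
  (PL.C (nat_lit 0x341c4) (nat_lit 0x0) (nat_lit 0x4af51eacc64d40)
  (PL.C (nat_lit 0x354b7) (nat_lit 0x6f295cf8c49e40) (nat_lit 0x0)
  (PL.C (nat_lit 0x35550) (nat_lit 0x31af9fb5a7400) (nat_lit 0x0)
  (PL.C (nat_lit 0x35860) (nat_lit 0x390ef58f7c700) (nat_lit 0x0)
  (PL.C (nat_lit 0x36768) (nat_lit 0x0) (nat_lit 0x85c7af029aa0c0)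
  (PL.C (nat_lit 0x36b70) (nat_lit 0xe182c3352c80) (nat_lit 0x0)
  (PL.C (nat_lit 0x37224) (nat_lit 0x0) (nat_lit 0x7716377174000)
  (PL.C (nat_lit 0x379bc) (nat_lit 0x0) (nat_lit 0x7716377174000)
  (PL.C (nat_lit 0x37b36) (nat_lit 0x0) (nat_lit 0x5a40513d6317c0)
  (PL.C (nat_lit 0x397cb) (nat_lit 0x661ef97a35e00) (nat_lit 0x0)
  (PL.C (nat_lit 0x39d08) (nat_lit 0x458ce882b97200) (nat_lit 0x0)
  (PL.C (nat_lit 0x3a0a0) (nat_lit 0x0) (nat_lit 0x2c330bcd49420) lm_10))))))))))))))))))))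

noncomputable def lm_8 : PL :=
  (PL.C (nat_lit 0x29c70) (nat_lit 0xe182c3352c80) (nat_lit 0x0)
  (PL.C (nat_lit 0x29d84) (nat_lit 0xa44993b13c900) (nat_lit 0x0)
  (PL.C (nat_lit 0x2aad0) (nat_lit 0x3fbd3b5740fd0) (nat_lit 0x0)
  (PL.C (nat_lit 0x2b030) (nat_lit 0x0) (nat_lit 0x6c4d59b0402ce8)
  (PL.C (nat_lit 0x2b3b0) (nat_lit 0x7e276307fdc40) (nat_lit 0x0)
  (PL.C (nat_lit 0x2bfd4) (nat_lit 0x1c33b39b3b18180) (nat_lit 0x0)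
  (PL.C (nat_lit 0x2c290) (nat_lit 0x1aa96337c86f00) (nat_lit 0x0)
  (PL.C (nat_lit 0x2cae0) (nat_lit 0xc4b869643c00) (nat_lit 0x0)
  (PL.C (nat_lit 0x2cbb6) (nat_lit 0x0) (nat_lit 0x16d1f7da487780)
  (PL.C (nat_lit 0x2cfd3) (nat_lit 0x6f295cf8c49e40) (nat_lit 0x0)
  (PL.C (nat_lit 0x2e720) (nat_lit 0x15afb0d7aa80) (nat_lit 0x0)
  (PL.C (nat_lit 0x2e9f0) (nat_lit 0xe6cc9dbda968c) (nat_lit 0x0)
  (PL.C (nat_lit 0x2eb24) (nat_lit 0x0) (nat_lit 0x44c0979cf60480)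
  (PL.C (nat_lit 0x2ed10) (nat_lit 0xcba843a438200) (nat_lit 0x0)
  (PL.C (nat_lit 0x2f5a0) (nat_lit 0x390ef58f7c700) (nat_lit 0x0)
  (PL.C (nat_lit 0x2f5e0) (nat_lit 0x0) (nat_lit 0x264201cbf200)
  (PL.C (nat_lit 0x2f688) (nat_lit 0x18049931ad5c00) (nat_lit 0x0)
  (PL.C (nat_lit 0x2fae4) (nat_lit 0x460da094e9fc40) (nat_lit 0x0)
  (PL.C (nat_lit 0x2fc1f) (nat_lit 0x3aa018add5c000) (nat_lit 0x0)
  (PL.C (nat_lit 0x2fcdc) (nat_lit 0x0) (nat_lit 0x20c030258f1c0) lm_9))))))))))))))))))))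

noncomputable def lm_7 : PL :=
  (PL.C (nat_lit 0x238e0) (nat_lit 0x0) (nat_lit 0xd78a1875ec00)
  (PL.C (nat_lit 0x24213) (nat_lit 0x5e6cb25120200) (nat_lit 0x0)
  (PL.C (nat_lit 0x244f0) (nat_lit 0x0) (nat_lit 0x6c4d59b0402ce8)
  (PL.C (nat_lit 0x247a0) (nat_lit 0x54452d4aa80) (nat_lit 0x0)
  (PL.C (nat_lit 0x24c18) (nat_lit 0x0) (nat_lit 0x7c63740f2c700)
  (PL.C (nat_lit 0x25128) (nat_lit 0x0) (nat_lit 0x7c63740f2c700)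
  (PL.C (nat_lit 0x25224) (nat_lit 0x0) (nat_lit 0x4af51eacc64d40)
  (PL.C (nat_lit 0x26532) (nat_lit 0x0) (nat_lit 0xa00307fc6ed00)
  (PL.C (nat_lit 0x268b0) (nat_lit 0x40a86019601500) (nat_lit 0x0)
  (PL.C (nat_lit 0x26c20) (nat_lit 0x0) (nat_lit 0x1055aeff621600)
  (PL.C (nat_lit 0x275b0) (nat_lit 0x0) (nat_lit 0x17d5696de6cef4)
  (PL.C (nat_lit 0x276b4) (nat_lit 0x0) (nat_lit 0x44c0979cf60480)
  (PL.C (nat_lit 0x27750) (nat_lit 0x2f2014933a2180) (nat_lit 0x0)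
  (PL.C (nat_lit 0x27a38) (nat_lit 0x1d7a10c16f4000) (nat_lit 0x0)
  (PL.C (nat_lit 0x28698) (nat_lit 0x29e5f586301840) (nat_lit 0x0)
  (PL.C (nat_lit 0x2875e) (nat_lit 0x0) (nat_lit 0x16d1f7da487780)
  (PL.C (nat_lit 0x288a2) (nat_lit 0x1f3af1b03a240) (nat_lit 0x0)
  (PL.C (nat_lit 0x28ca4) (nat_lit 0x0) (nat_lit 0x4289f48e0b0640)
  (PL.C (nat_lit 0x2954a) (nat_lit 0x0) (nat_lit 0x22397806b41c00)
  (PL.C (nat_lit 0x29a18) (nat_lit 0x2929f13f1216e0) (nat_lit 0x0) lm_8))))))))))))))))))))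

noncomputable def lm_6 : PL :=
  (PL.C (nat_lit 0x1bda0) (nat_lit 0x54452d4aa80) (nat_lit 0x0)
  (PL.C (nat_lit 0x1be58) (nat_lit 0x13e0adb613a800) (nat_lit 0x0)
  (PL.C (nat_lit 0x1c2e1) (nat_lit 0x155594e77b9300) (nat_lit 0x0)
  (PL.C (nat_lit 0x1cd20) (nat_lit 0x0) (nat_lit 0x1a2dcd1772ca0)
  (PL.C (nat_lit 0x1d538) (nat_lit 0x96ef2d3b023f20) (nat_lit 0x0)
  (PL.C (nat_lit 0x1dd24) (nat_lit 0x0) (nat_lit 0x224702b06c3b00)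
  (PL.C (nat_lit 0x1dfe2) (nat_lit 0x2f947ab888d780) (nat_lit 0x0)
  (PL.C (nat_lit 0x1f218) (nat_lit 0x0) (nat_lit 0x4ac71036691100)
  (PL.C (nat_lit 0x1f360) (nat_lit 0xc4b869643c00) (nat_lit 0x0)
  (PL.C (nat_lit 0x1f940) (nat_lit 0xcf41c1a5000) (nat_lit 0x0)
  (PL.C (nat_lit 0x1f9b0) (nat_lit 0xcced36c585f00) (nat_lit 0x0)
  (PL.C (nat_lit 0x1fc98) (nat_lit 0x2929f13f1216e0) (nat_lit 0x0)
  (PL.C (nat_lit 0x1fd6a) (nat_lit 0x2d5c48ccace880) (nat_lit 0x0)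
  (PL.C (nat_lit 0x1fde8) (nat_lit 0x3349307b666c0) (nat_lit 0x0)
  (PL.C (nat_lit 0x20490) (nat_lit 0x7e276307fdc40) (nat_lit 0x0)
  (PL.C (nat_lit 0x20f22) (nat_lit 0x2119b941125400) (nat_lit 0x0)
  (PL.C (nat_lit 0x21ab0) (nat_lit 0x1b8a821e162100) (nat_lit 0x0)
  (PL.C (nat_lit 0x226c8) (nat_lit 0x5965389110800) (nat_lit 0x0)
  (PL.C (nat_lit 0x22bd8) (nat_lit 0x1c749a8bd10ef0) (nat_lit 0x0)
  (PL.C (nat_lit 0x2387a) (nat_lit 0x2f947ab888d780) (nat_lit 0x0) lm_7))))))))))))))))))))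

noncomputable def lm_5 : PL :=
  (PL.C (nat_lit 0x17290) (nat_lit 0x0) (nat_lit 0x3e1de5a4f4c104)
  (PL.C (nat_lit 0x17afc) (nat_lit 0x0) (nat_lit 0x4bc4c03c48b5e0)
  (PL.C (nat_lit 0x17b40) (nat_lit 0x41e6e372e000) (nat_lit 0x0)
  (PL.C (nat_lit 0x18162) (nat_lit 0x1044f9aab8c600) (nat_lit 0x0)
  (PL.C (nat_lit 0x18399) (nat_lit 0x9ccbe631379080) (nat_lit 0x0)
  (PL.C (nat_lit 0x18810) (nat_lit 0x0) (nat_lit 0x718728103b200)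
  (PL.C (nat_lit 0x18b70) (nat_lit 0x0) (nat_lit 0x718728103b200)
  (PL.C (nat_lit 0x18c18) (nat_lit 0x1c749a8bd10ef0) (nat_lit 0x0)
  (PL.C (nat_lit 0x19737) (nat_lit 0x322f79b460fc40) (nat_lit 0x0)
  (PL.C (nat_lit 0x198cc) (nat_lit 0x0) (nat_lit 0xcff278bb44b00)
  (PL.C (nat_lit 0x19b20) (nat_lit 0x16517bb89e1880) (nat_lit 0x0)
  (PL.C (nat_lit 0x1a478) (nat_lit 0x0) (nat_lit 0x4ac71036691100)
  (PL.C (nat_lit 0x1a4e0) (nat_lit 0x0) (nat_lit 0x298084c318140)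
  (PL.C (nat_lit 0x1a6d0) (nat_lit 0x2f2014933a2180) (nat_lit 0x0)
  (PL.C (nat_lit 0x1af10) (nat_lit 0x1b8a821e162100) (nat_lit 0x0)
  (PL.C (nat_lit 0x1af94) (nat_lit 0x0) (nat_lit 0x224702b06c3b00)
  (PL.C (nat_lit 0x1b06c) (nat_lit 0x0) (nat_lit 0x20c030258f1c0)
  (PL.C (nat_lit 0x1b318) (nat_lit 0x0) (nat_lit 0x35c789d141bb00)
  (PL.C (nat_lit 0x1b8dc) (nat_lit 0x0) (nat_lit 0x4289f48e0b0640)
  (PL.C (nat_lit 0x1b963) (nat_lit 0x5e6cb25120200) (nat_lit 0x0) lm_6))))))))))))))))))))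

noncomputable def lm_4 : PL :=
  (PL.C (nat_lit 0x11850) (nat_lit 0x0) (nat_lit 0x47c43e5ac26470)
  (PL.C (nat_lit 0x119e0) (nat_lit 0x0) (nat_lit 0x298084c318140)
  (PL.C (nat_lit 0x11f60) (nat_lit 0x5d675ed0f96c0) (nat_lit 0x0)
  (PL.C (nat_lit 0x11fb8) (nat_lit 0x0) (nat_lit 0x23cdab8ffe3400)
  (PL.C (nat_lit 0x12048) (nat_lit 0x3349307b666c0) (nat_lit 0x0)
  (PL.C (nat_lit 0x12210) (nat_lit 0x2f6dcef4e28ff0) (nat_lit 0x0)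
  (PL.C (nat_lit 0x125e8) (nat_lit 0x0) (nat_lit 0x35c789d141bb00)
  (PL.C (nat_lit 0x12642) (nat_lit 0x1044f9aab8c600) (nat_lit 0x0)
  (PL.C (nat_lit 0x12990) (nat_lit 0xa6a9352a04b00) (nat_lit 0x0)
  (PL.C (nat_lit 0x12c96) (nat_lit 0x2119b941125400) (nat_lit 0x0)
  (PL.C (nat_lit 0x138d0) (nat_lit 0xa77f0f0c1baef8) (nat_lit 0x0)
  (PL.C (nat_lit 0x13e18) (nat_lit 0x0) (nat_lit 0x23cdab8ffe3400)
  (PL.C (nat_lit 0x13fec) (nat_lit 0x0) (nat_lit 0x4bc4c03c48b5e0)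
  (PL.C (nat_lit 0x14c10) (nat_lit 0x0) (nat_lit 0x47c43e5ac26470)
  (PL.C (nat_lit 0x15120) (nat_lit 0x0) (nat_lit 0x3e06a3cc31100)
  (PL.C (nat_lit 0x1539c) (nat_lit 0x0) (nat_lit 0x1c61e86b75ce80)
  (PL.C (nat_lit 0x153f0) (nat_lit 0xab12d6401fd40) (nat_lit 0x0)
  (PL.C (nat_lit 0x15860) (nat_lit 0x0) (nat_lit 0x1a2dcd1772ca0)
  (PL.C (nat_lit 0x15f6c) (nat_lit 0x0) (nat_lit 0x11059eb4997280)
  (PL.C (nat_lit 0x16720) (nat_lit 0x5d675ed0f96c0) (nat_lit 0x0) lm_5))))))))))))))))))))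

noncomputable def lm_3 : PL :=
  (PL.C (nat_lit 0xc3f0) (nat_lit 0x2f6dcef4e28ff0) (nat_lit 0x0)
  (PL.C (nat_lit 0xc42c) (nat_lit 0xeb42a0efa1e00) (nat_lit 0x0)
  (PL.C (nat_lit 0xc47d) (nat_lit 0xc441a5ef4600) (nat_lit 0x0)
  (PL.C (nat_lit 0xc660) (nat_lit 0x0) (nat_lit 0x32f2226191700)
  (PL.C (nat_lit 0xc864) (nat_lit 0x0) (nat_lit 0x11059eb4997280)
  (PL.C (nat_lit 0xd410) (nat_lit 0x0) (nat_lit 0x2e37e558e49500)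
  (PL.C (nat_lit 0xd548) (nat_lit 0x0) (nat_lit 0x300094032f9b40)
  (PL.C (nat_lit 0xdb45) (nat_lit 0x0) (nat_lit 0x36dacdd746800)
  (PL.C (nat_lit 0xdd60) (nat_lit 0x0) (nat_lit 0xbd240aa8b3be8)
  (PL.C (nat_lit 0xe0c0) (nat_lit 0xeca8b672f500) (nat_lit 0x0)
  (PL.C (nat_lit 0xe268) (nat_lit 0x0) (nat_lit 0x2600f4aae6b480)
  (PL.C (nat_lit 0xea48) (nat_lit 0x0) (nat_lit 0x2426898e62ae00)
  (PL.C (nat_lit 0xfca8) (nat_lit 0x0) (nat_lit 0x300094032f9b40)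
  (PL.C (nat_lit 0x100ec) (nat_lit 0xeb42a0efa1e00) (nat_lit 0x0)
  (PL.C (nat_lit 0x10266) (nat_lit 0x106050b3e95e0c0) (nat_lit 0x0)
  (PL.C (nat_lit 0x10560) (nat_lit 0x0) (nat_lit 0x7f331b5da7910)
  (PL.C (nat_lit 0x107a0) (nat_lit 0x0) (nat_lit 0x7f331b5da7910)
  (PL.C (nat_lit 0x10810) (nat_lit 0x0) (nat_lit 0x3e1de5a4f4c104)
  (PL.C (nat_lit 0x10f7a) (nat_lit 0x21445d3151b00) (nat_lit 0x0)
  (PL.C (nat_lit 0x11088) (nat_lit 0x0) (nat_lit 0x12449611cf9600) lm_4))))))))))))))))))))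

noncomputable def lm_2 : PL :=
  (PL.C (nat_lit 0x82a0) (nat_lit 0x0) (nat_lit 0x15252af042f900)
  (PL.C (nat_lit 0x82c8) (nat_lit 0x25540e4f026a80) (nat_lit 0x0)
  (PL.C (nat_lit 0x82fe) (nat_lit 0x0) (nat_lit 0x112a9a52420e00)
  (PL.C (nat_lit 0x8440) (nat_lit 0xb7b5ef1a6500) (nat_lit 0x0)
  (PL.C (nat_lit 0x8598) (nat_lit 0x0) (nat_lit 0x2426898e62ae00)
  (PL.C (nat_lit 0x8d60) (nat_lit 0x0) (nat_lit 0x3400874e885f40)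
  (PL.C (nat_lit 0x922e) (nat_lit 0x0) (nat_lit 0x336e6de1562fc0)
  (PL.C (nat_lit 0x96f0) (nat_lit 0x1ab4eb2fa0dcc0) (nat_lit 0x0)
  (PL.C (nat_lit 0x9c30) (nat_lit 0x3982a0644a7340) (nat_lit 0x0)
  (PL.C (nat_lit 0xab48) (nat_lit 0x25540e4f026a80) (nat_lit 0x0)
  (PL.C (nat_lit 0xac44) (nat_lit 0x13860d727d305c0) (nat_lit 0x0)
  (PL.C (nat_lit 0xae40) (nat_lit 0x65733456fb00) (nat_lit 0x0)
  (PL.C (nat_lit 0xafc0) (nat_lit 0x65733456fb00) (nat_lit 0x0)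
  (PL.C (nat_lit 0xb4fc) (nat_lit 0x574bb936a2c140) (nat_lit 0x0)
  (PL.C (nat_lit 0xb5b0) (nat_lit 0x0) (nat_lit 0x9550bfda32f20)
  (PL.C (nat_lit 0xb919) (nat_lit 0x0) (nat_lit 0x36dacdd746800)
  (PL.C (nat_lit 0xbae0) (nat_lit 0x0) (nat_lit 0xbd240aa8b3be8)
  (PL.C (nat_lit 0xbfd0) (nat_lit 0x0) (nat_lit 0x2e37e558e49500)
  (PL.C (nat_lit 0xc030) (nat_lit 0xab12d6401fd40) (nat_lit 0x0)
  (PL.C (nat_lit 0xc160) (nat_lit 0x0) (nat_lit 0x15252af042f900) lm_3))))))))))))))))))))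

noncomputable def lm_1 : PL :=
  (PL.C (nat_lit 0x3a20) (nat_lit 0x843942ff047b8) (nat_lit 0x0)
  (PL.C (nat_lit 0x3a38) (nat_lit 0x0) (nat_lit 0x5a01d7dab5f00)
  (PL.C (nat_lit 0x40f8) (nat_lit 0x0) (nat_lit 0x74dae9d1bf5f80)
  (PL.C (nat_lit 0x4272) (nat_lit 0xba9f4c745cce00) (nat_lit 0x0)
  (PL.C (nat_lit 0x4c20) (nat_lit 0x843942ff047b8) (nat_lit 0x0)
  (PL.C (nat_lit 0x5070) (nat_lit 0x6e6b23d70cb460) (nat_lit 0x0)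
  (PL.C (nat_lit 0x50c0) (nat_lit 0xb439853f2a00) (nat_lit 0x0)
  (PL.C (nat_lit 0x5244) (nat_lit 0x0) (nat_lit 0x5edfe0e9013340)
  (PL.C (nat_lit 0x5540) (nat_lit 0x500fbc5ce7180) (nat_lit 0x0)
  (PL.C (nat_lit 0x5730) (nat_lit 0x3692236df49850) (nat_lit 0x0)
  (PL.C (nat_lit 0x5754) (nat_lit 0x0) (nat_lit 0xea506148cbe00)
  (PL.C (nat_lit 0x5910) (nat_lit 0x3982a0644a7340) (nat_lit 0x0)
  (PL.C (nat_lit 0x5e40) (nat_lit 0x500fbc5ce7180) (nat_lit 0x0)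
  (PL.C (nat_lit 0x6174) (nat_lit 0x0) (nat_lit 0x5edfe0e9013340)
  (PL.C (nat_lit 0x63ab) (nat_lit 0x718e57d3688f00) (nat_lit 0x0)
  (PL.C (nat_lit 0x7230) (nat_lit 0x3692236df49850) (nat_lit 0x0)
  (PL.C (nat_lit 0x78a8) (nat_lit 0x759ef95fbad5c0) (nat_lit 0x0)
  (PL.C (nat_lit 0x7920) (nat_lit 0x0) (nat_lit 0x2dfa77403e44c0)
  (PL.C (nat_lit 0x7b66) (nat_lit 0x0) (nat_lit 0x336e6de1562fc0)
  (PL.C (nat_lit 0x7fe0) (nat_lit 0x0) (nat_lit 0x3400874e885f40) lm_2))))))))))))))))))))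

noncomputable def lm : PL :=
  (PL.C (nat_lit 0x240) (nat_lit 0x2ebd035ba0e070) (nat_lit 0x0)
  (PL.C (nat_lit 0x360) (nat_lit 0x0) (nat_lit 0x13afd1ada38ad0)
  (PL.C (nat_lit 0x510) (nat_lit 0xf83ec2661ec20) (nat_lit 0x0)
  (PL.C (nat_lit 0x798) (nat_lit 0x1bbbb0029cac00) (nat_lit 0x0)
  (PL.C (nat_lit 0xb64) (nat_lit 0x663ef97d64700) (nat_lit 0x0)
  (PL.C (nat_lit 0x1116) (nat_lit 0x0) (nat_lit 0x247367eb2a400)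
  (PL.C (nat_lit 0x1140) (nat_lit 0x9156712956c70) (nat_lit 0x0)
  (PL.C (nat_lit 0x13b0) (nat_lit 0xdd52fe6d55fa40) (nat_lit 0x0)
  (PL.C (nat_lit 0x1860) (nat_lit 0x0) (nat_lit 0x28b7cdc8f0cf50)
  (PL.C (nat_lit 0x19a1) (nat_lit 0x9a858bf706b00) (nat_lit 0x0)
  (PL.C (nat_lit 0x19e0) (nat_lit 0x0) (nat_lit 0x320181f08c80c0)
  (PL.C (nat_lit 0x1ce0) (nat_lit 0x0) (nat_lit 0x28b7cdc8f0cf50)
  (PL.C (nat_lit 0x1d88) (nat_lit 0x9b0db3c22889c0) (nat_lit 0x0)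
  (PL.C (nat_lit 0x23c0) (nat_lit 0x345835b4b84400) (nat_lit 0x0)
  (PL.C (nat_lit 0x2490) (nat_lit 0x0) (nat_lit 0x59fb9690d64b48)
  (PL.C (nat_lit 0x26d0) (nat_lit 0x0) (nat_lit 0x1f927bae19f600)
  (PL.C (nat_lit 0x2b50) (nat_lit 0x0) (nat_lit 0x59fb9690d64b48)
  (PL.C (nat_lit 0x2c4c) (nat_lit 0xd9e9f71e1b8580) (nat_lit 0x0)
  (PL.C (nat_lit 0x35a0) (nat_lit 0x0) (nat_lit 0x11fa2c26b85390)
  (PL.C (nat_lit 0x36d8) (nat_lit 0x0) (nat_lit 0x74dae9d1bf5f80) lm_1))))))))))))))))))))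

theorem chkL : eqP (mrg lm1 (mul (qv idn (nat_lit 2) qN) lm2)) lm = true := by decide +kernel

end Pool.Agent.Work.MP_440970_an.FX.D1
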